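import Mathlib

/-! Parts: Lib_helper4.Counting, Lib_helper4.Cones, Lib_helper4.Inert, Lib_helper4.T6Small, Lib_helper5.Half -/

namespace Pool.Agent.LibH4.Cone
end Pool.Agent.LibH4.Cone

section

/-!
Counting elements of given norm in a quadratic order with unique factorisation.
-/

namespace Pool.Agent.LibH4

variable {m B : ℤ}

/-- absolute norm on classes of associates -/
def absN (c : Associates (QuadraticAlgebra ℤ m B)) : ℕ :=
  Quotient.liftOn c (fun z => z.norm.natAbs) (by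
    rintro z _ ⟨u, rfl⟩
    have hu : IsUnit (u : QuadraticAlgebra ℤ m B).norm :=
      QuadraticAlgebra.isUnit_iff_norm_isUnit.mp u.isUnit
    rw [Int.isUnit_iff_natAbs_eq] at hu
    change z.norm.natAbs = (z * u).norm.natAbs
    rw [map_mul, Int.natAbs_mul, hu, mul_one])

@[simp] lemma absN_mk (z : QuadraticAlgebra ℤ m B) : absN (Associates.mk z) = z.norm.natAbs := rfl

lemma absN_mul (c c' : Associates (QuadraticAlgebra ℤ m B)) :
    absN (c * c') = absN c * absN c' := by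
  obtain ⟨z, rfl⟩ := Associates.mk_surjective c
  obtain ⟨z', rfl⟩ := Associates.mk_surjective c'
  rw [Associates.mk_mul_mk]
  simp [Int.natAbs_mul]

lemma absN_eq_one_iff (c : Associates (QuadraticAlgebra ℤ m B)) : absN c = 1 ↔ c = 1 := by
  obtain ⟨z, rfl⟩ := Associates.mk_surjective c
  rw [absN_mk, Associates.mk_eq_one, QuadraticAlgebra.isUnit_iff_norm_isUnit,
    Int.isUnit_iff_natAbs_eq]

/-- divisibility of coordinates -/
lemma intCast_dvd_quad (p : ℤ) (z : QuadraticAlgebra ℤ m B) :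
    ((p : QuadraticAlgebra ℤ m B) ∣ z) ↔ p ∣ z.re ∧ p ∣ z.im := by
  constructor
  · rintro ⟨w, rfl⟩
    constructor
    · exact ⟨w.re, by simp⟩
    · exact ⟨w.im, by simp⟩
  · rintro ⟨⟨u, hu⟩, ⟨v, hv⟩⟩
    exact ⟨⟨u, v⟩, by ext <;> simp [hu, hv]⟩

lemma intCast_norm_eq (z : QuadraticAlgebra ℤ m B) :
    ((z.norm : ℤ) : QuadraticAlgebra ℤ m B) = z * star z := by
  have := QuadraticAlgebra.algebraMap_norm_eq_mul_star z
  simpa using this

lemma four_norm (z : QuadraticAlgebra ℤ m B) :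
    4 * z.norm = (2 * z.re + B * z.im) ^ 2 - (B ^ 2 + 4 * m) * z.im ^ 2 := by
  rw [QuadraticAlgebra.norm_def]; ring

/-- the divisor sum -/
def sig (d n : ℕ) : ℤ := ∑ l ∈ n.divisors, jacobiSym l d

lemma sig_one (d : ℕ) : sig d 1 = 1 := by
  simp [sig]

lemma divisors_prime_mul {p n : ℕ} (hp : p.Prime) (hn : n ≠ 0) :
    (p * n).divisors = n.divisors ∪ n.divisors.image (fun l => p * l) := by
  ext l
  simp only [Nat.mem_divisors, Finset.mem_union, Finset.mem_image]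
  constructor
  · rintro ⟨hl, _⟩
    by_cases hpl : p ∣ l
    · right
      obtain ⟨l', rfl⟩ := hpl
      exact ⟨l', ⟨Nat.dvd_of_mul_dvd_mul_left hp.pos hl, hn⟩, rfl⟩
    · left
      exact ⟨(((Nat.Prime.coprime_iff_not_dvd hp).mpr hpl).symm).dvd_of_dvd_mul_left hl, hn⟩
  · rintro (⟨h, _⟩ | ⟨l', ⟨h, _⟩, rfl⟩)
    · exact ⟨h.mul_left p, mul_ne_zero hp.ne_zero hn⟩
    · exact ⟨Nat.mul_dvd_mul_left p h, mul_ne_zero hp.ne_zero hn⟩

lemma sig_rec (d : ℕ) {p n : ℕ} (hp : p.Prime) (hn : n ≠ 0) :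
    sig d (p * n) = (1 + jacobiSym p d) * sig d n -
      jacobiSym p d * (if p ∣ n then sig d (n / p) else 0) := by
  have hinter : n.divisors ∩ n.divisors.image (fun l => p * l) =
      if p ∣ n then (n / p).divisors.image (fun l => p * l) else ∅ := by
    split_ifs with h
    · obtain ⟨n', rfl⟩ := h
      have hn' : n' ≠ 0 := by rintro rfl; simp at hn
      rw [Nat.mul_div_cancel_left _ hp.pos]
      ext l
      simp only [Nat.mem_divisors, Finset.mem_inter, Finset.mem_image]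
      constructor
      · rintro ⟨⟨h1, h2⟩, l', ⟨h3, _⟩, rfl⟩
        exact ⟨l', ⟨Nat.dvd_of_mul_dvd_mul_left hp.pos h1, hn'⟩, rfl⟩
      · rintro ⟨l', ⟨h1, _⟩, rfl⟩
        exact ⟨⟨Nat.mul_dvd_mul_left p h1, hn⟩, l', ⟨h1.mul_left p, hn⟩, rfl⟩
    · rw [Finset.eq_empty_iff_forall_notMem]
      intro l hl
      simp only [Nat.mem_divisors, Finset.mem_inter, Finset.mem_image] at hl
      obtain ⟨⟨h1, _⟩, l', _, rfl⟩ := hl
      exact h ((Dvd.intro l' rfl).trans h1)
  have hsum := Finset.sum_union_inter (s₁ := n.divisors) (s₂ := n.divisors.image (fun l => p * l))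
    (f := fun l => jacobiSym (l : ℤ) d)
  rw [← divisors_prime_mul hp hn, hinter] at hsum
  have hinj : Set.InjOn (fun l => p * l) (n.divisors : Set ℕ) := by
    intro a _ b _ hab
    exact Nat.eq_of_mul_eq_mul_left hp.pos hab
  rw [Finset.sum_image hinj] at hsum
  have himg : ∑ x ∈ n.divisors, jacobiSym ((p * x : ℕ) : ℤ) d = jacobiSym p d * sig d n := by
    rw [sig, Finset.mul_sum]
    apply Finset.sum_congr rfl
    intro x _
    push_cast
    rw [jacobiSym.mul_left]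
  rw [himg] at hsum
  have hlast : ∑ x ∈ (if p ∣ n then (n / p).divisors.image (fun l => p * l) else ∅),
      jacobiSym (x : ℤ) d = jacobiSym p d * (if p ∣ n then sig d (n / p) else 0) := by
    split_ifs with h
    · have hinj' : Set.InjOn (fun l => p * l) ((n / p).divisors : Set ℕ) := by
        intro a _ b _ hab
        exact Nat.eq_of_mul_eq_mul_left hp.pos hab
      rw [Finset.sum_image hinj', sig, Finset.mul_sum]
      apply Finset.sum_congr rfl
      intro x _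
      push_cast
      rw [jacobiSym.mul_left]
    · simp
  rw [hlast] at hsum
  unfold sig at *
  linarith


/-- For an odd prime `p`, the Jacobi symbol `(p/d)` equals the Legendre symbol `(d/p)`. -/
lemma jacobi_eq_legendre {d p : ℕ} (h8 : d % 8 = 5) [hp : Fact p.Prime] (hp2 : p ≠ 2) :
    jacobiSym p d = legendreSym p d := by
  have hodd : Odd p := hp.out.odd_of_ne_two hp2
  rw [← jacobiSym.quadratic_reciprocity_one_mod_four (by omega) hodd,
    jacobiSym.legendreSym.to_jacobiSym]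

lemma jacobi_two {d : ℕ} (h8 : d % 8 = 5) : jacobiSym (2 : ℕ) d = -1 := by
  have hodd : Odd d := by rw [Nat.odd_iff]; omega
  have h := jacobiSym.at_two hodd
  have h2 : ((2 : ℕ) : ℤ) = 2 := rfl
  rw [h2, h]
  have : (d : ZMod 8) = 5 := by
    have : ((d : ℕ) : ZMod 8) = ((d % 8 : ℕ) : ZMod 8) := by simp
    rw [this, h8]
    rfl
  rw [this]
  decide

lemma parity {d : ℕ} (hd : (d : ℤ) = B ^ 2 + 4 * m) (h8 : d % 8 = 5) : B % 2 = 1 ∧ m % 2 = 1 := by
  have hB : B % 2 = 1 := by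
    by_contra hB
    have hB0 : B % 2 = 0 := by omega
    obtain ⟨b, hb⟩ : (2 : ℤ) ∣ B := Int.dvd_of_emod_eq_zero hB0
    rw [hb] at hd
    have : (d : ℤ) = 4 * (b ^ 2 + m) := by rw [hd]; ring
    omega
  refine ⟨hB, ?_⟩
  obtain ⟨b, hb⟩ : ∃ b, B = 2 * b + 1 := ⟨B / 2, by omega⟩
  have h2 : (2 : ℤ) ∣ b * (b + 1) := by
    rcases Int.emod_two_eq_zero_or_one b with h | h
    · exact (Int.dvd_of_emod_eq_zero h).mul_right _
    · exact (Int.dvd_of_emod_eq_zero (by omega : (b + 1) % 2 = 0)).mul_left _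
  obtain ⟨c, hc⟩ := h2
  have : (d : ℤ) = 8 * c + 1 + 4 * m := by
    rw [hd, hb]
    have : (2 * b + 1) ^ 2 = 4 * (b * (b + 1)) + 1 := by ring
    rw [this, hc]; ring
  omega

/-- inert primes divide an element as soon as they divide its norm -/
lemma dvd_of_dvd_norm {d p : ℕ} (hd : (d : ℤ) = B ^ 2 + 4 * m) (h8 : d % 8 = 5)
    (hp : p.Prime) (hj : jacobiSym p d = -1) (z : QuadraticAlgebra ℤ m B)
    (hz : (p : ℤ) ∣ z.norm) : ((p : ℕ) : QuadraticAlgebra ℤ m B) ∣ z := by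
  have hpp : Prime (p : ℤ) := Nat.prime_iff_prime_int.mp hp
  have key : (p : ℤ) ∣ z.im := by
    by_contra him
    rcases eq_or_ne p 2 with rfl | hp2
    · obtain ⟨hB, hm⟩ := parity hd h8
      have him' : z.im % 2 = 1 := by
        have : ¬ (2 : ℤ) ∣ z.im := by exact_mod_cast him
        omega
      rw [QuadraticAlgebra.norm_def] at hz
      have hz' : (z.re * z.re + B * z.re * z.im - m * z.im * z.im) % 2 = 0 :=
        Int.emod_eq_zero_of_dvd (by exact_mod_cast hz)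
      rcases Int.emod_two_eq_zero_or_one z.re with h | h
      · simp [Int.sub_emod, Int.add_emod, Int.mul_emod, h, hB, hm, him'] at hz'
      · simp [Int.sub_emod, Int.add_emod, Int.mul_emod, h, hB, hm, him'] at hz'
    · have : Fact p.Prime := ⟨hp⟩
      rw [jacobi_eq_legendre h8 hp2, legendreSym.eq_neg_one_iff] at hj
      apply hj
      have him0 : (z.im : ZMod p) ≠ 0 := by
        rw [Ne, ZMod.intCast_zmod_eq_zero_iff_dvd]; exact him
      have h4 : ((4 * z.norm : ℤ) : ZMod p) = 0 := by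
        rw [ZMod.intCast_zmod_eq_zero_iff_dvd]
        exact hz.mul_left 4
      rw [four_norm, ← hd] at h4
      push_cast at h4
      refine ⟨(2 * (z.re : ZMod p) + B * z.im) / z.im, ?_⟩
      have h5 : (2 * (z.re : ZMod p) + B * z.im) ^ 2 = d * (z.im : ZMod p) ^ 2 := by
        linear_combination h4
      push_cast
      field_simp
      linear_combination -h5
  have hre2 : (p : ℤ) ∣ z.re * z.re := by
    have e : z.re * z.re = z.norm - z.im * (B * z.re - m * z.im) := by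
      rw [QuadraticAlgebra.norm_def]; ring
    rw [e]
    exact dvd_sub hz (key.mul_right _)
  have hre : (p : ℤ) ∣ z.re := by
    rcases hpp.dvd_or_dvd hre2 with h | h <;> exact h
  have h := (intCast_dvd_quad (p : ℤ) z).mpr ⟨hre, key⟩
  exact_mod_cast h

lemma natAbs_norm_natCast (p : ℕ) :
    ((p : ℕ) : QuadraticAlgebra ℤ m B).norm.natAbs = p ^ 2 := by
  rw [QuadraticAlgebra.norm_natCast, Int.natAbs_pow, Int.natAbs_natCast]

lemma natCast_ne_zero {p : ℕ} (hp : p.Prime) : ((p : ℕ) : QuadraticAlgebra ℤ m B) ≠ 0 := by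
  intro h
  have := congrArg QuadraticAlgebra.re h
  simp only [QuadraticAlgebra.re_natCast, QuadraticAlgebra.re_zero] at this
  exact hp.ne_zero (by exact_mod_cast this)

lemma natCast_not_unit {p : ℕ} (hp : p.Prime) : ¬ IsUnit ((p : ℕ) : QuadraticAlgebra ℤ m B) := by
  rw [QuadraticAlgebra.isUnit_iff_norm_isUnit, Int.isUnit_iff_natAbs_eq, natAbs_norm_natCast]
  intro h
  have := hp.one_lt
  nlinarith

/-- inert primes are prime elements -/
lemma prime_of_inert {d p : ℕ} (hd : (d : ℤ) = B ^ 2 + 4 * m) (h8 : d % 8 = 5)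
    (hp : p.Prime) (hj : jacobiSym p d = -1) : Prime ((p : ℕ) : QuadraticAlgebra ℤ m B) := by
  refine ⟨natCast_ne_zero hp, natCast_not_unit hp, ?_⟩
  intro z w hzw
  have hpp : Prime (p : ℤ) := Nat.prime_iff_prime_int.mp hp
  have h1 : (p : ℤ) ∣ z.norm * w.norm := by
    obtain ⟨v, hv⟩ := hzw
    rw [← map_mul, hv, map_mul, QuadraticAlgebra.norm_natCast]
    exact (dvd_pow_self _ two_ne_zero).mul_right _
  rcases hpp.dvd_or_dvd h1 with h | h
  · left; exact dvd_of_dvd_norm hd h8 hp hj z h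
  · right; exact dvd_of_dvd_norm hd h8 hp hj w h

/-- the element `x + ω` -/
def lin (x : ℤ) : QuadraticAlgebra ℤ m B := ⟨x, 1⟩

lemma norm_lin (x : ℤ) : (lin x : QuadraticAlgebra ℤ m B).norm = x ^ 2 + B * x - m := by
  rw [QuadraticAlgebra.norm_def]; simp [lin]; ring

lemma not_dvd_lin {p : ℕ} (hp : p.Prime) (x : ℤ) :
    ¬ ((p : ℕ) : QuadraticAlgebra ℤ m B) ∣ lin x := by
  intro h
  have h' : (((p : ℕ) : ℤ) : QuadraticAlgebra ℤ m B) ∣ lin x := by exact_mod_cast h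
  rw [intCast_dvd_quad] at h'
  have h1 : ((p : ℕ) : ℤ) ∣ 1 := h'.2
  have h2 : p ∣ 1 := by exact_mod_cast h1
  exact hp.one_lt.ne' (Nat.dvd_one.mp h2)

lemma not_dvd_star_lin {p : ℕ} (hp : p.Prime) (x : ℤ) :
    ¬ ((p : ℕ) : QuadraticAlgebra ℤ m B) ∣ star (lin x) := by
  intro h
  have h' : (((p : ℕ) : ℤ) : QuadraticAlgebra ℤ m B) ∣ star (lin x) := by exact_mod_cast h
  rw [intCast_dvd_quad] at h'
  have h1 : ((p : ℕ) : ℤ) ∣ -1 := h'.2
  have h2 : ((p : ℕ) : ℤ) ∣ 1 := by simpa using h1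
  have h3 : p ∣ 1 := by exact_mod_cast h2
  exact hp.one_lt.ne' (Nat.dvd_one.mp h3)

lemma exists_root {d p : ℕ} (hd : (d : ℤ) = B ^ 2 + 4 * m) (h8 : d % 8 = 5)
    (hp : p.Prime) (hj : jacobiSym p d ≠ -1) : ∃ x : ℤ, (p : ℤ) ∣ x ^ 2 + B * x - m := by
  have hp2 : p ≠ 2 := by
    rintro rfl
    exact hj (jacobi_two h8)
  have : Fact p.Prime := ⟨hp⟩
  rw [jacobi_eq_legendre h8 hp2, Ne, legendreSym.eq_neg_one_iff, not_not] at hj
  obtain ⟨s, hs⟩ := hj
  have h2 : (2 : ZMod p) ≠ 0 := by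
    intro h2
    have : ((2 : ℕ) : ZMod p) = 0 := by exact_mod_cast h2
    rw [ZMod.natCast_eq_zero_iff] at this
    exact hp2 ((Nat.prime_dvd_prime_iff_eq hp Nat.prime_two).mp this)
  obtain ⟨x, hx⟩ := ZMod.intCast_surjective ((s - B) / 2 : ZMod p)
  refine ⟨x, ?_⟩
  rw [← ZMod.intCast_zmod_eq_zero_iff_dvd]
  push_cast
  have h3 : (2 * (x : ZMod p) + B) ^ 2 = d := by
    rw [hx]
    have : 2 * ((s - B) / 2) + (B : ZMod p) = s := by
      field_simp
      ring
    rw [this, sq, ← hs]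
    push_cast
    rfl
  have h4 : ((d : ℕ) : ZMod p) = (B : ZMod p) ^ 2 + 4 * m := by
    have := congrArg (fun t : ℤ => (t : ZMod p)) hd
    push_cast at this
    exact this
  rw [h4] at h3
  have h5 : (4 : ZMod p) * ((x : ZMod p) ^ 2 + B * x - m) = 0 := by linear_combination h3
  have h6 : (4 : ZMod p) ≠ 0 := by
    have : (4 : ZMod p) = 2 * 2 := by norm_num
    rw [this]
    exact mul_ne_zero h2 h2
  exact (mul_eq_zero.mp h5).resolve_left h6

lemma irreducible_of_prime_norm {p : ℕ} (hp : p.Prime) (z : QuadraticAlgebra ℤ m B)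
    (hz : z.norm.natAbs = p) : Irreducible z := by
  refine ⟨?_, ?_⟩
  · rw [QuadraticAlgebra.isUnit_iff_norm_isUnit, Int.isUnit_iff_natAbs_eq, hz]
    exact hp.one_lt.ne'
  · intro u v huv
    rw [huv, map_mul, Int.natAbs_mul] at hz
    rw [QuadraticAlgebra.isUnit_iff_norm_isUnit, QuadraticAlgebra.isUnit_iff_norm_isUnit,
      Int.isUnit_iff_natAbs_eq, Int.isUnit_iff_natAbs_eq]
    rcases (Nat.prime_mul_iff.mp (hz ▸ hp)) with h | h
    · right; exact h.2
    · left; exact h.2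

/-- noninert primes: existence of a prime element of norm `±p` -/
lemma exists_prime_elem [IsDomain (QuadraticAlgebra ℤ m B)]
    [UniqueFactorizationMonoid (QuadraticAlgebra ℤ m B)] {d p : ℕ} (hd : (d : ℤ) = B ^ 2 + 4 * m) (h8 : d % 8 = 5)
    (hp : p.Prime) (hj : jacobiSym p d ≠ -1) :
    ∃ π : QuadraticAlgebra ℤ m B, Prime π ∧ Prime (star π) ∧ π.norm.natAbs = p := by
  obtain ⟨x, hx⟩ := exists_root hd h8 hp hj
  have hnp : ¬ Prime ((p : ℕ) : QuadraticAlgebra ℤ m B) := by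
    intro hprime
    have h1 : ((p : ℕ) : QuadraticAlgebra ℤ m B) ∣ lin x * star (lin x) := by
      rw [← intCast_norm_eq, norm_lin]
      have := (Int.cast_dvd_cast (α := QuadraticAlgebra ℤ m B) _ _ hx)
      exact_mod_cast this
    rcases hprime.dvd_or_dvd h1 with h | h
    · exact not_dvd_lin hp x h
    · exact not_dvd_star_lin hp x h
  rw [← UniqueFactorizationMonoid.irreducible_iff_prime] at hnp
  have hu := natCast_not_unit (m := m) (B := B) hp
  have : ∃ u v : QuadraticAlgebra ℤ m B, ((p : ℕ) : QuadraticAlgebra ℤ m B) = u * v ∧ ¬ IsUnit u ∧ ¬ IsUnit v := by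
    by_contra hcon
    push Not at hcon
    apply hnp
    refine ⟨hu, ?_⟩
    intro a b hab
    by_contra hh
    push Not at hh
    exact hh.2 (hcon a b hab hh.1)
  obtain ⟨u, v, huv, hu', hv'⟩ := this
  have hN : u.norm.natAbs * v.norm.natAbs = p ^ 2 := by
    rw [← Int.natAbs_mul, ← map_mul, ← huv, natAbs_norm_natCast]
  rw [QuadraticAlgebra.isUnit_iff_norm_isUnit, Int.isUnit_iff_natAbs_eq] at hu' hv'
  have hup : u.norm.natAbs = p := by
    have := (Nat.Prime.mul_eq_prime_sq_iff hp hu' hv').mp hN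
    exact this.1
  refine ⟨u, ?_, ?_, hup⟩
  · rw [← UniqueFactorizationMonoid.irreducible_iff_prime]
    exact irreducible_of_prime_norm hp u hup
  · rw [← UniqueFactorizationMonoid.irreducible_iff_prime]
    exact irreducible_of_prime_norm hp _ (by rw [QuadraticAlgebra.norm_star]; exact hup)

lemma dvd_natCast_of_norm {p : ℕ} (π : QuadraticAlgebra ℤ m B) (hπ : π.norm.natAbs = p) :
    Associated (π * star π) ((p : ℕ) : QuadraticAlgebra ℤ m B) := by
  rw [← intCast_norm_eq]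
  rcases Int.natAbs_eq π.norm with h | h
  · rw [hπ] at h
    rw [h]; simp
  · rw [hπ] at h
    rw [h]
    push_cast
    exact (Associated.refl _).neg_left

/-- split primes -/
lemma not_associated_star {d p : ℕ} (hd : (d : ℤ) = B ^ 2 + 4 * m) (h8 : d % 8 = 5)
    (hp : p.Prime) (hj : jacobiSym p d = 1) (π : QuadraticAlgebra ℤ m B)
    (hπ : π.norm.natAbs = p) (hprime : Prime π) : ¬ π ∣ star π := by
  intro hdvd
  have hp2 : p ≠ 2 := by
    rintro rfl
    rw [jacobi_two h8] at hj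
    norm_num at hj
  have hpp : Prime (p : ℤ) := Nat.prime_iff_prime_int.mp hp
  -- trace
  set T : ℤ := 2 * π.re + B * π.im with hT
  have hTr : ((T : ℤ) : QuadraticAlgebra ℤ m B) = π + star π := by
    ext
    · rw [QuadraticAlgebra.re_intCast, QuadraticAlgebra.re_add, QuadraticAlgebra.re_star, hT,
        Int.cast_id]
      ring
    · simp
  have hπT : π ∣ ((T : ℤ) : QuadraticAlgebra ℤ m B) := by
    rw [hTr]; exact dvd_add (dvd_refl _) hdvd
  have hπp : π ∣ (((p : ℕ) : ℤ) : QuadraticAlgebra ℤ m B) := by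
    have := (dvd_natCast_of_norm π hπ).dvd_iff_dvd_right.mp (Dvd.intro _ rfl : π ∣ π * star π)
    exact_mod_cast this
  have hpT : (p : ℤ) ∣ T := by
    by_contra hpT
    have hcop : IsCoprime (p : ℤ) T := (Irreducible.coprime_iff_not_dvd hpp.irreducible).mpr hpT
    obtain ⟨a, b, hab⟩ := hcop
    apply hprime.not_isUnit
    apply isUnit_of_dvd_one
    have : (1 : QuadraticAlgebra ℤ m B) = (a : QuadraticAlgebra ℤ m B) * (((p : ℕ) : ℤ) : QuadraticAlgebra ℤ m B)
        + (b : QuadraticAlgebra ℤ m B) * ((T : ℤ) : QuadraticAlgebra ℤ m B) := by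
      have := congrArg (fun t : ℤ => (t : QuadraticAlgebra ℤ m B)) hab
      push_cast at this ⊢
      exact this.symm
    rw [this]
    exact dvd_add (hπp.mul_left _) (hπT.mul_left _)
  have h4 := four_norm π
  rw [← hd, ← hT] at h4
  have hpN : (p : ℤ) ∣ π.norm := by
    rw [Int.natCast_dvd, hπ]
  have hpd : (p : ℤ) ∣ d * π.im ^ 2 := by
    have e : (d : ℤ) * π.im ^ 2 = T ^ 2 - 4 * π.norm := by rw [h4]; ring
    rw [e]
    exact dvd_sub (dvd_pow hpT two_ne_zero) (hpN.mul_left 4)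
  have hpd' : ¬ (p : ℤ) ∣ d := by
    intro h
    have h' : p ∣ d := by exact_mod_cast h
    have hz : jacobiSym p d = 0 := by
      rw [jacobiSym.eq_zero_iff]
      refine ⟨by omega, ?_⟩
      rw [Int.gcd_natCast_natCast, Nat.gcd_eq_left h']
      exact hp.one_lt.ne'
    rw [hz] at hj
    norm_num at hj
  have hpim : (p : ℤ) ∣ π.im := hpp.dvd_of_dvd_pow ((hpp.dvd_or_dvd hpd).resolve_left hpd')
  have hp2N : (p : ℤ) ^ 2 ∣ 4 * π.norm := by
    rw [h4]
    exact dvd_sub (pow_dvd_pow_of_dvd hpT 2) ((pow_dvd_pow_of_dvd hpim 2).mul_left _)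
  have hp2N' : p ^ 2 ∣ 4 * p := by
    have := Int.natAbs_dvd_natAbs.mpr hp2N
    rw [Int.natAbs_mul, hπ] at this
    simpa [Int.natAbs_pow] using this
  have hp4 : p ∣ 4 := by
    rw [sq] at hp2N'
    exact Nat.dvd_of_mul_dvd_mul_right hp.pos hp2N'
  have : p ∣ 2 := by
    have : p ∣ 2 * 2 := by norm_num; exact hp4
    rcases (Nat.Prime.dvd_mul hp).mp this with h | h <;> exact h
  exact hp2 ((Nat.prime_dvd_prime_iff_eq hp Nat.prime_two).mp this)

/-- ramified primes -/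
lemma dvd_star_of_ramified {d p : ℕ} (hd : (d : ℤ) = B ^ 2 + 4 * m)
    (hp : p.Prime) (hj : jacobiSym p d = 0) (π : QuadraticAlgebra ℤ m B)
    (hπ : π.norm.natAbs = p) : π ∣ star π := by
  have hpp : Prime (p : ℤ) := Nat.prime_iff_prime_int.mp hp
  have hpd : (p : ℤ) ∣ d := by
    rw [jacobiSym.eq_zero_iff, Int.gcd_natCast_natCast] at hj
    have h : p ∣ d := by
      by_contra h
      exact hj.2 ((Nat.Prime.coprime_iff_not_dvd hp).mpr h)
    exact_mod_cast h
  set T : ℤ := 2 * π.re + B * π.im with hT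
  have hTr : ((T : ℤ) : QuadraticAlgebra ℤ m B) = π + star π := by
    ext
    · rw [QuadraticAlgebra.re_intCast, QuadraticAlgebra.re_add, QuadraticAlgebra.re_star, hT,
        Int.cast_id]
      ring
    · simp
  have h4 := four_norm π
  rw [← hd, ← hT] at h4
  have hpN : (p : ℤ) ∣ π.norm := by
    rw [Int.natCast_dvd, hπ]
  have hpT2 : (p : ℤ) ∣ T ^ 2 := by
    have e : T ^ 2 = 4 * π.norm + d * π.im ^ 2 := by rw [h4]; ring
    rw [e]
    exact dvd_add (hpN.mul_left 4) (hpd.mul_right _)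
  have hpT : (p : ℤ) ∣ T := hpp.dvd_of_dvd_pow hpT2
  have hπp : π ∣ (((p : ℕ) : ℤ) : QuadraticAlgebra ℤ m B) := by
    have := (dvd_natCast_of_norm π hπ).dvd_iff_dvd_right.mp (Dvd.intro _ rfl : π ∣ π * star π)
    exact_mod_cast this
  have hπT : π ∣ ((T : ℤ) : QuadraticAlgebra ℤ m B) :=
    hπp.trans (Int.cast_dvd_cast (α := QuadraticAlgebra ℤ m B) _ _ hpT)
  rw [hTr] at hπT
  exact (dvd_add_right (dvd_refl π)).mp hπT

section Count

/-- classes of norm `n` -/
def SN (m B : ℤ) (n : ℕ) : Set (Associates (QuadraticAlgebra ℤ m B)) := {c | absN c = n}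

lemma absN_ne_zero_iff (c : Associates (QuadraticAlgebra ℤ m B))
    (hN : ∀ z : QuadraticAlgebra ℤ m B, z ≠ 0 → z.norm ≠ 0) : absN c ≠ 0 ↔ c ≠ 0 := by
  obtain ⟨z, rfl⟩ := Associates.mk_surjective c
  rw [absN_mk, Associates.mk_ne_zero, Ne, Int.natAbs_eq_zero]
  constructor
  · rintro h rfl; exact h (by simp)
  · exact hN z

lemma absN_mk_natCast (p : ℕ) :
    absN (Associates.mk ((p : ℕ) : QuadraticAlgebra ℤ m B)) = p ^ 2 := by
  rw [absN_mk, natAbs_norm_natCast]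

/-- the elements of `SN (q*n)` divisible by a class `P` of norm `q` are `P * SN n` -/
lemma image_mul_SN (P : Associates (QuadraticAlgebra ℤ m B)) (q n : ℕ) (hq : absN P = q)
    (hq0 : q ≠ 0) : (fun c => P * c) '' (SN m B n) = {c ∈ SN m B (q * n) | P ∣ c} := by
  ext c
  constructor
  · rintro ⟨c', hc', rfl⟩
    refine ⟨?_, Dvd.intro _ rfl⟩
    change absN (P * c') = q * n
    rw [absN_mul, hq, hc']
  · rintro ⟨hc, c', rfl⟩
    refine ⟨c', ?_, rfl⟩
    change absN (P * c') = q * n at hc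
    rw [absN_mul, hq] at hc
    exact Nat.eq_of_mul_eq_mul_left (Nat.pos_of_ne_zero hq0) hc

lemma mul_injective_assoc [IsDomain (QuadraticAlgebra ℤ m B)] (P : Associates (QuadraticAlgebra ℤ m B)) (hP : P ≠ 0) :
    Function.Injective (fun c => P * c) := mul_right_injective₀ hP

lemma exists_dvd_of_mem {p n : ℕ} (hp : p.Prime) (π : QuadraticAlgebra ℤ m B)
    (hπ : π.norm.natAbs = p) (hprime : Prime π)
    (c : Associates (QuadraticAlgebra ℤ m B)) (hc : c ∈ SN m B (p * n)) :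
    Associates.mk π ∣ c ∨ Associates.mk (star π) ∣ c := by
  obtain ⟨z, rfl⟩ := Associates.mk_surjective c
  change (z.norm).natAbs = p * n at hc
  have hdvd : π ∣ z * star z := by
    rw [← intCast_norm_eq]
    have h1 : (p : ℤ) ∣ z.norm := by
      rw [Int.natCast_dvd, hc]; exact Dvd.intro _ rfl
    have h2 : π ∣ (((p : ℕ) : ℤ) : QuadraticAlgebra ℤ m B) := by
      have := (dvd_natCast_of_norm π hπ).dvd_iff_dvd_right.mp (Dvd.intro _ rfl : π ∣ π * star π)
      exact_mod_cast this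
    exact h2.trans (Int.cast_dvd_cast (α := QuadraticAlgebra ℤ m B) _ _ h1)
  rcases hprime.dvd_or_dvd hdvd with h | h
  · left; exact Associates.mk_dvd_mk.mpr h
  · right
    obtain ⟨w, hw⟩ := h
    refine Associates.mk_dvd_mk.mpr ⟨star w, ?_⟩
    rw [← star_star z, hw, star_mul, mul_comm]

/-- recursion, inert case -/
lemma SN_inert [IsDomain (QuadraticAlgebra ℤ m B)] {d p n : ℕ} (hd : (d : ℤ) = B ^ 2 + 4 * m)
    (h8 : d % 8 = 5) (hp : p.Prime) (hj : jacobiSym p d = -1) :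
    SN m B (p * n) = if p ∣ n then (fun c => Associates.mk ((p : ℕ) : QuadraticAlgebra ℤ m B) * c) ''
      (SN m B (n / p)) else ∅ := by
  have key : ∀ c ∈ SN m B (p * n), ∃ c', c = Associates.mk ((p : ℕ) : QuadraticAlgebra ℤ m B) * c' ∧
      n = p * absN c' := by
    intro c hc
    obtain ⟨z, rfl⟩ := Associates.mk_surjective c
    change (z.norm).natAbs = p * n at hc
    have h1 : (p : ℤ) ∣ z.norm := by
      rw [Int.natCast_dvd, hc]; exact Dvd.intro _ rfl
    obtain ⟨w, hw⟩ := dvd_of_dvd_norm hd h8 hp hj z h1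
    refine ⟨Associates.mk w, by rw [hw, Associates.mk_mul_mk], ?_⟩
    rw [absN_mk]
    have h2 : p * n = p ^ 2 * w.norm.natAbs := by
      rw [← hc, hw, map_mul, Int.natAbs_mul, natAbs_norm_natCast]
    have h3 : p * n = p * (p * w.norm.natAbs) := by rw [h2]; ring
    exact Nat.eq_of_mul_eq_mul_left hp.pos h3
  split_ifs with h
  · obtain ⟨n', rfl⟩ := h
    rw [Nat.mul_div_cancel_left _ hp.pos]
    ext c
    constructor
    · intro hc
      obtain ⟨c', rfl, hc'⟩ := key c hc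
      exact ⟨c', (Nat.eq_of_mul_eq_mul_left hp.pos hc').symm, rfl⟩
    · rintro ⟨c', hc', rfl⟩
      change absN _ = _
      rw [absN_mul, absN_mk_natCast, hc']
      ring
  · rw [Set.eq_empty_iff_forall_notMem]
    intro c hc
    obtain ⟨c', -, hc'⟩ := key c hc
    exact h ⟨_, hc'⟩

/-- The number of classes of associates of absolute norm `n`. -/
theorem ncard_SN [IsDomain (QuadraticAlgebra ℤ m B)]
    [UniqueFactorizationMonoid (QuadraticAlgebra ℤ m B)] {d : ℕ} (hd : (d : ℤ) = B ^ 2 + 4 * m)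
    (h8 : d % 8 = 5) (n : ℕ) (hn : n ≠ 0) :
    (SN m B n).Finite ∧ ((SN m B n).ncard : ℤ) = sig d n := by
  induction n using Nat.strong_induction_on with
  | _ n IH =>
    rcases eq_or_ne n 1 with rfl | hn1
    · have : SN m B 1 = {1} := by
        ext c
        exact absN_eq_one_iff c
      rw [this, sig_one]
      simp
    · obtain ⟨p, hp, n', rfl⟩ : ∃ p, p.Prime ∧ ∃ n', n = p * n' := by
        obtain ⟨p, hp, h⟩ := Nat.exists_prime_and_dvd hn1
        exact ⟨p, hp, h⟩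
      have hn' : n' ≠ 0 := by rintro rfl; simp at hn
      have hlt : n' < p * n' := by
        have := hp.one_lt
        nlinarith [Nat.pos_of_ne_zero hn']
      obtain ⟨hfin, hcard⟩ := IH n' hlt hn'
      rw [sig_rec d hp hn']
      rcases jacobiSym.trichotomy (p : ℤ) d with hj | hj | hj
      · -- ramified
        obtain ⟨π, hπ, hπ', hπn⟩ := exists_prime_elem (m := m) (B := B) hd h8 hp (by rw [hj]; norm_num)
        have hdvd := dvd_star_of_ramified hd hp hj π hπn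
        have hass : Associates.mk π ∣ Associates.mk (star π) := Associates.mk_dvd_mk.mpr hdvd
        have hSN : SN m B (p * n') = (fun c => Associates.mk π * c) '' SN m B n' := by
          rw [image_mul_SN (Associates.mk π) p n' hπn hp.ne_zero]
          ext c
          constructor
          · intro hc
            refine ⟨hc, ?_⟩
            rcases exists_dvd_of_mem hp π hπn hπ c hc with h | h
            · exact h
            · exact hass.trans h
          · exact fun h => h.1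
        have hinj := mul_injective_assoc (Associates.mk π) (Associates.mk_ne_zero.mpr hπ.ne_zero)
        rw [hSN, hj]
        refine ⟨hfin.image _, ?_⟩
        rw [Set.ncard_image_of_injective _ hinj, hcard]
        ring
      · -- split
        obtain ⟨π, hπ, hπ', hπn⟩ := exists_prime_elem (m := m) (B := B) hd h8 hp (by rw [hj]; norm_num)
        have hnd := not_associated_star hd h8 hp hj π hπn hπ
        have hπn' : absN (Associates.mk (star π)) = p := by
          rw [absN_mk, QuadraticAlgebra.norm_star, hπn]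
        have hSN : SN m B (p * n') = (fun c => Associates.mk π * c) '' SN m B n' ∪
            (fun c => Associates.mk (star π) * c) '' SN m B n' := by
          rw [image_mul_SN (Associates.mk π) p n' hπn hp.ne_zero,
            image_mul_SN (Associates.mk (star π)) p n' hπn' hp.ne_zero]
          ext c
          constructor
          · intro hc
            rcases exists_dvd_of_mem hp π hπn hπ c hc with h | h
            · left; exact ⟨hc, h⟩
            · right; exact ⟨hc, h⟩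
          · rintro (h | h)
            · exact h.1
            · exact h.1
        have hinj := mul_injective_assoc (Associates.mk π) (Associates.mk_ne_zero.mpr hπ.ne_zero)
        have hinj' := mul_injective_assoc (Associates.mk (star π)) (Associates.mk_ne_zero.mpr hπ'.ne_zero)
        have hinter : (fun c => Associates.mk π * c) '' SN m B n' ∩
            (fun c => Associates.mk (star π) * c) '' SN m B n' =
            if p ∣ n' then (fun c => Associates.mk ((p : ℕ) : QuadraticAlgebra ℤ m B) * c) ''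
              (SN m B (n' / p)) else ∅ := by
          rw [image_mul_SN (Associates.mk π) p n' hπn hp.ne_zero,
            image_mul_SN (Associates.mk (star π)) p n' hπn' hp.ne_zero]
          have key : ∀ c, c ∈ SN m B (p * n') → Associates.mk π ∣ c → Associates.mk (star π) ∣ c →
              ∃ c', c = Associates.mk ((p : ℕ) : QuadraticAlgebra ℤ m B) * c' ∧ n' = p * absN c' := by
            intro c hc h1 h2
            obtain ⟨z, rfl⟩ := Associates.mk_surjective c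
            rw [Associates.mk_dvd_mk] at h1 h2
            obtain ⟨w, hw⟩ := h1
            rw [hw] at h2
            have h3 : star π ∣ w := by
              rcases hπ'.dvd_or_dvd h2 with h | h
              · exfalso
                apply hnd
                have := (hπ'.irreducible.associated_of_dvd hπ.irreducible h)
                exact this.symm.dvd
              · exact h
            obtain ⟨v, hv⟩ := h3
            have h4 : Associated z (((p : ℕ) : QuadraticAlgebra ℤ m B) * v) := by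
              rw [hw, hv, ← mul_assoc]
              exact (dvd_natCast_of_norm π hπn).mul_right v
            have h5 : Associates.mk z = Associates.mk ((p : ℕ) : QuadraticAlgebra ℤ m B) * Associates.mk v := by
              rw [Associates.mk_mul_mk, Associates.mk_eq_mk_iff_associated]
              exact h4
            refine ⟨Associates.mk v, h5, ?_⟩
            change absN (Associates.mk z) = p * n' at hc
            rw [h5, absN_mul, absN_mk_natCast] at hc
            have h6 : p * n' = p * (p * absN (Associates.mk v)) := by rw [← hc]; ring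
            exact Nat.eq_of_mul_eq_mul_left hp.pos h6
          split_ifs with h
          · obtain ⟨n'', rfl⟩ := h
            rw [Nat.mul_div_cancel_left _ hp.pos]
            ext c
            constructor
            · rintro ⟨⟨hc, h1⟩, ⟨-, h2⟩⟩
              obtain ⟨c', rfl, hc'⟩ := key c hc h1 h2
              exact ⟨c', (Nat.eq_of_mul_eq_mul_left hp.pos hc').symm, rfl⟩
            · rintro ⟨c', hc', rfl⟩
              have hmem : Associates.mk ((p : ℕ) : QuadraticAlgebra ℤ m B) * c' ∈ SN m B (p * (p * n'')) := by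
                change absN _ = _
                rw [absN_mul, absN_mk_natCast, hc']
                ring
              have hmk : Associates.mk ((p : ℕ) : QuadraticAlgebra ℤ m B) =
                  Associates.mk π * Associates.mk (star π) := by
                rw [Associates.mk_mul_mk, Associates.mk_eq_mk_iff_associated]
                exact (dvd_natCast_of_norm π hπn).symm
              refine ⟨⟨hmem, ?_⟩, ⟨hmem, ?_⟩⟩
              · rw [hmk]
                exact (Dvd.intro _ rfl : Associates.mk π ∣ Associates.mk π * Associates.mk (star π)).mul_right c'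
              · rw [hmk]
                exact (Dvd.intro_left _ rfl : Associates.mk (star π) ∣ Associates.mk π * Associates.mk (star π)).mul_right c'
          · rw [Set.eq_empty_iff_forall_notMem]
            rintro c ⟨⟨hc, h1⟩, ⟨-, h2⟩⟩
            obtain ⟨c', -, hc'⟩ := key c hc h1 h2
            exact h ⟨_, hc'⟩
        have hcardinter : (((fun c => Associates.mk π * c) '' SN m B n' ∩
            (fun c => Associates.mk (star π) * c) '' SN m B n').ncard : ℤ) =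
            if p ∣ n' then sig d (n' / p) else 0 := by
          rw [hinter]
          split_ifs with h
          · have hmkne : Associates.mk ((p : ℕ) : QuadraticAlgebra ℤ m B) ≠ 0 :=
              Associates.mk_ne_zero.mpr (natCast_ne_zero hp)
            rw [Set.ncard_image_of_injective _ (mul_injective_assoc _ hmkne)]
            obtain ⟨n'', rfl⟩ := h
            rw [Nat.mul_div_cancel_left _ hp.pos]
            have hn'' : n'' ≠ 0 := by rintro rfl; simp at hn'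
            exact (IH n'' (by
              have := hp.one_lt
              have := Nat.pos_of_ne_zero hn''
              nlinarith [Nat.mul_le_mul_left n'' hp.one_lt.le]) hn'').2
          · simp
        have hunion := Set.ncard_union_add_ncard_inter ((fun c => Associates.mk π * c) '' SN m B n')
          ((fun c => Associates.mk (star π) * c) '' SN m B n') (hfin.image _) (hfin.image _)
        rw [Set.ncard_image_of_injective _ hinj, Set.ncard_image_of_injective _ hinj'] at hunion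
        refine ⟨?_, ?_⟩
        · rw [hSN]; exact (hfin.image _).union (hfin.image _)
        · rw [← hSN] at hunion
          have hunion' : ((SN m B (p * n')).ncard : ℤ) + (((fun c => Associates.mk π * c) '' SN m B n' ∩
            (fun c => Associates.mk (star π) * c) '' SN m B n').ncard : ℤ) = (SN m B n').ncard + (SN m B n').ncard := by
            exact_mod_cast hunion
          rw [hcardinter, hcard] at hunion'
          rw [hj]
          linarith
      · -- inert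
        rw [SN_inert hd h8 hp hj, hj]
        split_ifs with h
        · have hmkne : Associates.mk ((p : ℕ) : QuadraticAlgebra ℤ m B) ≠ 0 :=
            Associates.mk_ne_zero.mpr (natCast_ne_zero hp)
          obtain ⟨n'', rfl⟩ := h
          rw [Nat.mul_div_cancel_left _ hp.pos]
          have hn'' : n'' ≠ 0 := by rintro rfl; simp at hn'
          obtain ⟨hf, hc⟩ := IH n'' (by
              have := hp.one_lt
              have := Nat.pos_of_ne_zero hn''
              nlinarith [Nat.mul_le_mul_left n'' hp.one_lt.le]) hn''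
          refine ⟨hf.image _, ?_⟩
          rw [Set.ncard_image_of_injective _ (mul_injective_assoc _ hmkne), hc]
          ring
        · refine ⟨Set.finite_empty, ?_⟩
          simp

end Count

end Pool.Agent.LibH4


end

section

/-!
Cone decomposition for the period three family: `m = 1 + a t`, `B = (a² + 1) t + a`.
-/

namespace Pool.Agent.LibH4

namespace Cone

/-- the ring, parametrised by integers `a t` -/
abbrev RC (a t : ℤ) := QuadraticAlgebra ℤ (1 + a * t) ((a ^ 2 + 1) * t + a)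

variable {a t : ℤ}

/-- `√d` -/
noncomputable def sd (a t : ℤ) : ℝ :=
  Real.sqrt (((((a ^ 2 + 1) * t + a) ^ 2 + 4 * (1 + a * t) : ℤ)) : ℝ)

/-- `α` -/
noncomputable def al (a t : ℤ) : ℝ := (((a : ℝ) ^ 2 + 1) * t + a + sd a t) / 2

/-- `α'` -/
noncomputable def al' (a t : ℤ) : ℝ := (((a : ℝ) ^ 2 + 1) * t + a - sd a t) / 2

lemma sd_sq (ha : 1 ≤ a) (ht : 1 ≤ t) :
    sd a t ^ 2 = (((a : ℝ) ^ 2 + 1) * t + a) ^ 2 + 4 * (1 + a * t) := by
  unfold sd
  rw [Real.sq_sqrt]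
  · push_cast; ring
  · have : 0 ≤ a * t := by positivity
    have h : (0 : ℤ) ≤ (((a ^ 2 + 1) * t + a) ^ 2 + 4 * (1 + a * t) : ℤ) := by positivity
    exact_mod_cast h

lemma al_sq (ha : 1 ≤ a) (ht : 1 ≤ t) :
    al a t * al a t = (1 + a * t) + (((a : ℝ) ^ 2 + 1) * t + a) * al a t := by
  have := sd_sq ha ht
  unfold al
  linear_combination this / 4

lemma al'_sq (ha : 1 ≤ a) (ht : 1 ≤ t) :
    al' a t * al' a t = (1 + a * t) + (((a : ℝ) ^ 2 + 1) * t + a) * al' a t := by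
  have := sd_sq ha ht
  unfold al'
  linear_combination this / 4

/-- first real embedding -/
noncomputable def s1 (ha : 1 ≤ a) (ht : 1 ≤ t) : RC a t →ₐ[ℤ] ℝ :=
  QuadraticAlgebra.lift ⟨al a t, by rw [al_sq ha ht]; simp⟩

/-- second real embedding -/
noncomputable def s2 (ha : 1 ≤ a) (ht : 1 ≤ t) : RC a t →ₐ[ℤ] ℝ :=
  QuadraticAlgebra.lift ⟨al' a t, by rw [al'_sq ha ht]; simp⟩

lemma s1_apply (ha : 1 ≤ a) (ht : 1 ≤ t) (z : RC a t) :
    s1 ha ht z = (z.re : ℝ) + z.im * al a t := by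
  simp [s1, QuadraticAlgebra.lift]

lemma s2_apply (ha : 1 ≤ a) (ht : 1 ≤ t) (z : RC a t) :
    s2 ha ht z = (z.re : ℝ) + z.im * al' a t := by
  simp [s2, QuadraticAlgebra.lift]

lemma al_add (a t : ℤ) : al a t + al' a t = ((a : ℝ) ^ 2 + 1) * t + a := by
  unfold al al'; ring

lemma al_mul (ha : 1 ≤ a) (ht : 1 ≤ t) : al a t * al' a t = -(1 + a * t) := by
  have := sd_sq ha ht
  unfold al al'
  linear_combination -this / 4

lemma norm_eq_s1_mul_s2 (ha : 1 ≤ a) (ht : 1 ≤ t) (z : RC a t) :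
    ((z.norm : ℤ) : ℝ) = s1 ha ht z * s2 ha ht z := by
  rw [s1_apply, s2_apply, QuadraticAlgebra.norm_def]
  push_cast
  have h1 := al_add a t
  have h2 := al_mul ha ht
  linear_combination (-(z.re : ℝ) * z.im) * h1 - (z.im : ℝ) ^ 2 * h2

/-- `ξ = -α' = r₁` -/
lemma xi_pos (ha : 1 ≤ a) (ht : 1 ≤ t) : 0 < - al' a t := by
  have h := sd_sq ha ht
  have ha' : (1 : ℝ) ≤ a := by exact_mod_cast ha
  have ht' : (1 : ℝ) ≤ t := by exact_mod_cast ht
  have hs : 0 ≤ sd a t := Real.sqrt_nonneg _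
  unfold al'
  have h3 : 0 < (a : ℝ) * t := by positivity
  have h4 : 0 < ((a : ℝ) ^ 2 + 1) * t + a := by positivity
  nlinarith

lemma al_pos (ha : 1 ≤ a) (ht : 1 ≤ t) : 0 < al a t := by
  have ha' : (1 : ℝ) ≤ a := by exact_mod_cast ha
  have ht' : (1 : ℝ) ≤ t := by exact_mod_cast ht
  have hs : 0 ≤ sd a t := Real.sqrt_nonneg _
  unfold al
  positivity

/-- the polynomial of `ξ` -/
lemma xi_poly (ha : 1 ≤ a) (ht : 1 ≤ t) :
    (- al' a t) ^ 2 + (((a : ℝ) ^ 2 + 1) * t + a) * (- al' a t) - (1 + a * t) = 0 := by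
  have := al'_sq ha ht
  linear_combination this

lemma xi_lt (ha : 1 ≤ a) (ht : 1 ≤ t) : a * (- al' a t) < 1 := by
  have h := xi_poly ha ht
  have hp := xi_pos ha ht
  have ha' : (1 : ℝ) ≤ a := by exact_mod_cast ha
  have ht' : (1 : ℝ) ≤ t := by exact_mod_cast ht
  by_contra hge
  push Not at hge
  set x := - al' a t with hx
  have h1 : (a : ℝ) * x * (((a : ℝ) ^ 2 + 1) * t + a) ≥ 1 * (((a : ℝ) ^ 2 + 1) * t + a) := by
    apply mul_le_mul_of_nonneg_right hge
    positivity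
  have h2 : (a : ℝ) * x ^ 2 > 0 := by positivity
  nlinarith

lemma lt_xi (ha : 1 ≤ a) (ht : 1 ≤ t) : (a : ℝ) < ((a : ℝ) ^ 2 + 1) * (- al' a t) := by
  have h := xi_poly ha ht
  have hp := xi_pos ha ht
  have ha' : (1 : ℝ) ≤ a := by exact_mod_cast ha
  have ht' : (1 : ℝ) ≤ t := by exact_mod_cast ht
  by_contra hge
  push Not at hge
  set x := - al' a t with hx
  set c : ℝ := (a : ℝ) ^ 2 + 1 with hc
  have hcpos : 0 < c := by positivity
  have h1 : c ^ 2 * x ^ 2 ≤ (a : ℝ) ^ 2 := by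
    have : (c * x) ^ 2 ≤ (a : ℝ) ^ 2 := pow_le_pow_left₀ (by positivity) hge 2
    nlinarith
  have h2 : c ^ 2 * (x ^ 2 + (c * t + a) * x - (1 + a * t)) = 0 := by rw [h, mul_zero]
  have h3 : c * ((c * t + a) * (c * x)) ≤ c * ((c * t + a) * a) := by
    apply mul_le_mul_of_nonneg_left _ hcpos.le
    apply mul_le_mul_of_nonneg_left hge
    positivity
  nlinarith

/-- `r₁ = α - B` -/
def r1 (a t : ℤ) : RC a t := ⟨-((a ^ 2 + 1) * t + a), 1⟩
/-- `r₂ = 1 - a r₁` -/
def r2 (a t : ℤ) : RC a t := ⟨1 + a * ((a ^ 2 + 1) * t + a), -a⟩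
/-- `r₃ = r₁ - a r₂` -/
def r3 (a t : ℤ) : RC a t := ⟨-((a ^ 2 + 1) * ((a ^ 2 + 1) * t + a) + a), a ^ 2 + 1⟩

lemma r2_eq (a t : ℤ) : r2 a t = 1 - (a : RC a t) * r1 a t := by
  ext
  · simp [r1, r2, QuadraticAlgebra.re_one]; ring
  · simp [r1, r2, QuadraticAlgebra.im_one]

lemma r3_eq (a t : ℤ) : r3 a t = r1 a t - (a : RC a t) * r2 a t := by
  ext
  · simp [r1, r2, r3]; ring
  · simp [r1, r2, r3]; ring

/-- `r₄ = r₃ r₁ = r₂ - B r₃` -/
lemma r4_eq (a t : ℤ) : r3 a t * r1 a t =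
    r2 a t - (((a ^ 2 + 1) * t + a : ℤ) : RC a t) * r3 a t := by
  ext
  · simp only [r1, r2, r3, QuadraticAlgebra.re_mul, QuadraticAlgebra.re_sub,
      QuadraticAlgebra.re_intCast, QuadraticAlgebra.im_intCast, Int.cast_id]
    ring
  · simp only [r1, r2, r3, QuadraticAlgebra.im_mul, QuadraticAlgebra.im_sub,
      QuadraticAlgebra.re_intCast, QuadraticAlgebra.im_intCast, Int.cast_id]
    ring

/-- `r₅ = r₃ r₂ = r₃ - a r₄` -/
lemma r5_eq (a t : ℤ) : r3 a t * r2 a t = r3 a t - (a : RC a t) * (r3 a t * r1 a t) := by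
  rw [r2_eq]; ring

/-- `r₆ = r₃² = r₄ - a r₅` -/
lemma r6_eq (a t : ℤ) : r3 a t * r3 a t =
    r3 a t * r1 a t - (a : RC a t) * (r3 a t * r2 a t) := by
  have h := r3_eq a t
  linear_combination (r3 a t) * h

lemma norm_r3 (a t : ℤ) : (r3 a t).norm = -1 := by
  rw [QuadraticAlgebra.norm_def]
  simp only [r3]
  ring

lemma isUnit_r3 (a t : ℤ) : IsUnit (r3 a t) := by
  rw [QuadraticAlgebra.isUnit_iff_norm_isUnit, norm_r3]
  exact isUnit_one.neg

lemma s1_r1 (ha : 1 ≤ a) (ht : 1 ≤ t) : s1 ha ht (r1 a t) = - al' a t := by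
  rw [s1_apply]
  have := al_add a t
  simp only [r1]
  push_cast
  linear_combination this

lemma s2_r1 (ha : 1 ≤ a) (ht : 1 ≤ t) : s2 ha ht (r1 a t) = - al a t := by
  rw [s2_apply]
  have := al_add a t
  simp only [r1]
  push_cast
  linear_combination this

lemma s1_r1_pos (ha : 1 ≤ a) (ht : 1 ≤ t) : 0 < s1 ha ht (r1 a t) := by
  rw [s1_r1]; exact xi_pos ha ht

lemma s2_r1_neg (ha : 1 ≤ a) (ht : 1 ≤ t) : s2 ha ht (r1 a t) < 0 := by
  rw [s2_r1]
  have := al_pos ha ht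
  linarith

lemma s1_r2_pos (ha : 1 ≤ a) (ht : 1 ≤ t) : 0 < s1 ha ht (r2 a t) := by
  rw [r2_eq, map_sub, map_mul, map_one, map_intCast, s1_r1]
  have := xi_lt ha ht
  linarith

lemma s2_r2_pos (ha : 1 ≤ a) (ht : 1 ≤ t) : 0 < s2 ha ht (r2 a t) := by
  rw [r2_eq, map_sub, map_mul, map_one, map_intCast, s2_r1]
  have := al_pos ha ht
  have ha' : (1 : ℝ) ≤ a := by exact_mod_cast ha
  nlinarith

lemma s1_r3_pos (ha : 1 ≤ a) (ht : 1 ≤ t) : 0 < s1 ha ht (r3 a t) := by
  rw [r3_eq, r2_eq, map_sub, map_mul, map_sub, map_mul, map_one, map_intCast, s1_r1]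
  have := lt_xi ha ht
  nlinarith

lemma s2_r3_neg (ha : 1 ≤ a) (ht : 1 ≤ t) : s2 ha ht (r3 a t) < 0 := by
  rw [r3_eq, map_sub, map_mul, map_intCast]
  have h1 := s2_r1_neg ha ht
  have h2 := s2_r2_pos ha ht
  have ha' : (1 : ℝ) ≤ a := by exact_mod_cast ha
  nlinarith

lemma s12_r3 (ha : 1 ≤ a) (ht : 1 ≤ t) : s1 ha ht (r3 a t) * s2 ha ht (r3 a t) = -1 := by
  rw [← norm_eq_s1_mul_s2, norm_r3]; norm_num

/-- `r₃ < 1` -/
lemma s1_r3_lt_one (ha : 1 ≤ a) (ht : 1 ≤ t) : s1 ha ht (r3 a t) < 1 := by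
  rw [r3_eq, map_sub, map_mul, map_intCast]
  have h2 := s1_r2_pos ha ht
  have h1 := xi_lt ha ht
  have ha' : (1 : ℝ) ≤ a := by exact_mod_cast ha
  have h3 : s1 ha ht (r1 a t) < 1 := by
    rw [s1_r1]
    have := xi_pos ha ht
    nlinarith
  nlinarith

/-- A basic cone statement. `v`, `w` a pair with `v ≫ 0`, `w > 0 > w'`, `next = v - n w ≫ 0`. -/
lemma cone_iff (v1 v2 w1 w2 n x y : ℝ) (hn : 0 < n) (hv1 : 0 < v1) (hv2 : 0 < v2) (hw1 : 0 < w1)
    (hw2 : w2 < 0) (hs1 : 0 < v1 - n * w1) :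
    ((0 < x * v1 - y * w1 ∧ 0 < x * v2 - y * w2) ∧
      (v1 - n * w1) * (x * v2 - y * w2) < (x * v1 - y * w1) * (v2 - n * w2) ∧
      (x * v1 - y * w1) * v2 ≤ v1 * (x * v2 - y * w2)) ↔ 0 ≤ y ∧ y < n * x := by
  have hD : v1 * w2 - w1 * v2 < 0 := by nlinarith
  have hs2 : 0 < v2 - n * w2 := by nlinarith
  have e1 : (x * v1 - y * w1) * v2 - v1 * (x * v2 - y * w2) = y * (v1 * w2 - w1 * v2) := by ring
  have e2 : (v1 - n * w1) * (x * v2 - y * w2) - (x * v1 - y * w1) * (v2 - n * w2) =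
      (n * x - y) * (v1 * w2 - w1 * v2) := by ring
  constructor
  · rintro ⟨_, h2, h3⟩
    constructor
    · by_contra hy
      push Not at hy
      have : 0 < y * (v1 * w2 - w1 * v2) := mul_pos_of_neg_of_neg hy hD
      linarith
    · by_contra hy
      push Not at hy
      have : 0 ≤ (n * x - y) * (v1 * w2 - w1 * v2) :=
        mul_nonneg_of_nonpos_of_nonpos (by linarith) hD.le
      linarith
  · rintro ⟨hy, hyx⟩
    have h4 : 0 < n * x - y := by linarith
    have hx : 0 < x := by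
      by_contra hx
      push Not at hx
      nlinarith
    refine ⟨⟨?_, ?_⟩, ?_, ?_⟩
    · have e : n * (x * v1 - y * w1) = (n * x - y) * v1 + y * (v1 - n * w1) := by ring
      have h5 : 0 < n * (x * v1 - y * w1) := by
        rw [e]
        exact add_pos_of_pos_of_nonneg (mul_pos h4 hv1) (mul_nonneg hy hs1.le)
      exact (mul_pos_iff_of_pos_left hn).mp h5
    · nlinarith
    · have : (n * x - y) * (v1 * w2 - w1 * v2) < 0 := mul_neg_of_pos_of_neg h4 hD
      linarith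
    · have : y * (v1 * w2 - w1 * v2) ≤ 0 := mul_nonpos_of_nonneg_of_nonpos hy hD.le
      linarith

/-! ### integer coordinates on the three edges -/

/-- edge 1 -/
def p1 (a t : ℤ) (z : ℤ × ℤ) : RC a t := (z.1 : RC a t) - (z.2 : RC a t) * r1 a t
/-- edge 2 -/
def p2 (a t : ℤ) (z : ℤ × ℤ) : RC a t := (z.1 : RC a t) * r2 a t - (z.2 : RC a t) * r3 a t
/-- edge 3 -/
def p3 (a t : ℤ) (z : ℤ × ℤ) : RC a t :=
  (z.1 : RC a t) * (r3 a t * r1 a t) - (z.2 : RC a t) * (r3 a t * r2 a t)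

lemma p1_re (a t : ℤ) (z : ℤ × ℤ) : (p1 a t z).re = z.1 + z.2 * ((a ^ 2 + 1) * t + a) := by
  simp [p1, r1]; ring

lemma p1_im (a t : ℤ) (z : ℤ × ℤ) : (p1 a t z).im = - z.2 := by
  simp [p1, r1]

lemma p1_inj (a t : ℤ) : Function.Injective (p1 a t) := by
  intro z w h
  have h1 := congrArg QuadraticAlgebra.re h
  have h2 := congrArg QuadraticAlgebra.im h
  rw [p1_re, p1_re] at h1
  rw [p1_im, p1_im] at h2
  have e2 : z.2 = w.2 := by linarith
  rw [e2] at h1
  exact Prod.ext (by linarith) e2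

lemma p1_surj (a t : ℤ) : Function.Surjective (p1 a t) := by
  intro β
  refine ⟨(β.re + β.im * ((a ^ 2 + 1) * t + a), - β.im), ?_⟩
  ext
  · rw [p1_re]; ring
  · rw [p1_im]; ring

lemma p2_eq (a t : ℤ) (z : ℤ × ℤ) :
    p2 a t z = p1 a t (z.1 + a * z.2, a * z.1 + (1 + a ^ 2) * z.2) := by
  have h2 := r2_eq a t
  have h3 := r3_eq a t
  simp only [p1, p2]
  push_cast
  linear_combination ((z.1 : RC a t) + z.2 * a) * h2 - (z.2 : RC a t) * h3

lemma p2_inj (a t : ℤ) : Function.Injective (p2 a t) := by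
  intro z w h
  rw [p2_eq, p2_eq] at h
  have h' := p1_inj a t h
  rw [Prod.mk.injEq] at h'
  obtain ⟨h1, h2⟩ := h'
  have e2 : z.2 = w.2 := by linear_combination h2 - a * h1
  have e1 : z.1 = w.1 := by linear_combination h1 - a * e2
  exact Prod.ext e1 e2

lemma p2_surj (a t : ℤ) : Function.Surjective (p2 a t) := by
  intro β
  obtain ⟨w, rfl⟩ := p1_surj a t β
  refine ⟨((1 + a ^ 2) * w.1 - a * w.2, w.2 - a * w.1), ?_⟩
  rw [p2_eq]
  congr 1
  ext
  · simp only; ring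
  · simp only; ring

lemma p3_eq (a t : ℤ) (z : ℤ × ℤ) :
    p3 a t z = p2 a t (z.1 + a * z.2,
      ((a ^ 2 + 1) * t + a) * z.1 + (1 + a * ((a ^ 2 + 1) * t + a)) * z.2) := by
  have h4 := r4_eq a t
  have h5 := r5_eq a t
  simp only [p2, p3]
  push_cast at h4 ⊢
  linear_combination ((z.1 : RC a t) + z.2 * a) * h4 - (z.2 : RC a t) * h5

lemma p3_inj (a t : ℤ) : Function.Injective (p3 a t) := by
  intro z w h
  rw [p3_eq, p3_eq] at h
  have h' := p2_inj a t h
  rw [Prod.mk.injEq] at h'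
  obtain ⟨h1, h2⟩ := h'
  have e2 : z.2 = w.2 := by linear_combination h2 - ((a ^ 2 + 1) * t + a) * h1
  have e1 : z.1 = w.1 := by linear_combination h1 - a * e2
  exact Prod.ext e1 e2

lemma p3_surj (a t : ℤ) : Function.Surjective (p3 a t) := by
  intro β
  obtain ⟨w, rfl⟩ := p2_surj a t β
  refine ⟨((1 + a * ((a ^ 2 + 1) * t + a)) * w.1 - a * w.2,
    w.2 - ((a ^ 2 + 1) * t + a) * w.1), ?_⟩
  rw [p3_eq]
  congr 1
  ext
  · simp only; ring
  · simp only; ring

lemma norm_p1 (a t : ℤ) (z : ℤ × ℤ) : (p1 a t z).norm =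
    z.1 ^ 2 + ((a ^ 2 + 1) * t + a) * z.1 * z.2 - (1 + a * t) * z.2 ^ 2 := by
  rw [QuadraticAlgebra.norm_def, p1_re, p1_im]; ring

lemma norm_p2 (a t : ℤ) (z : ℤ × ℤ) : (p2 a t z).norm =
    (1 + a * t) * z.1 ^ 2 + ((a ^ 2 + 1) * t + a) * z.1 * z.2 - z.2 ^ 2 := by
  rw [p2_eq, norm_p1]; ring

lemma norm_p3 (a t : ℤ) (z : ℤ × ℤ) : (p3 a t z).norm =
    (1 + a * t) * z.1 ^ 2 + (2 * (1 + a * t) * a - ((a ^ 2 + 1) * t + a)) * z.1 * z.2
      - (1 + a * t) * z.2 ^ 2 := by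
  rw [p3_eq, norm_p2]; ring

/-! ### lower bounds for the forms -/

/-- basic inequality on the first edge -/
lemma form_ge (ha : 1 ≤ a) (ht : 1 ≤ t) {x z : ℤ} (hz : 1 ≤ z) (hx : 1 ≤ x) (hzx : z ≤ a * x) :
    1 + a * t ≤ x ^ 2 + ((a ^ 2 + 1) * t + a) * x * z - (1 + a * t) * z ^ 2 := by
  have hm : 0 < 1 + a * t := by positivity
  have h1 : 0 ≤ (1 + a * t) * ((z - 1) * (a * x - z)) :=
    mul_nonneg hm.le (mul_nonneg (by linarith) (by linarith))
  rcases le_total (1 + a * t) (t * x) with h | h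
  · -- increasing
    have h2 : 0 ≤ (z - 1) * (t * x - (1 + a * t)) := mul_nonneg (by linarith) (by linarith)
    have h3 : 0 ≤ (t * x - (1 + a * t)) := by linarith
    have h4 : 0 ≤ (1 + a * t) * (a * x - 1) := mul_nonneg hm.le (by nlinarith)
    nlinarith [sq_nonneg x]
  · have h2 : 0 ≤ (a * x - z) * ((1 + a * t) - t * x) := mul_nonneg (by linarith) (by linarith)
    have h3 : 0 ≤ (1 + a * t) * (x ^ 2 - 1) := mul_nonneg hm.le (by nlinarith)
    nlinarith

lemma form1_ge (ha : 1 ≤ a) (ht : 1 ≤ t) {x y : ℤ} (hx : 1 ≤ x) (hy : 0 ≤ y) (hyx : y < a * x) :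
    x ^ 2 ≤ x ^ 2 + ((a ^ 2 + 1) * t + a) * x * y - (1 + a * t) * y ^ 2 := by
  have hm : 0 < 1 + a * t := by positivity
  have h1 : 0 ≤ (1 + a * t) * (y * (a * x - y)) :=
    mul_nonneg hm.le (mul_nonneg hy (by linarith))
  have h2 : 0 ≤ t * x * y := by positivity
  nlinarith

lemma form2_ge {x y : ℤ} (hy : 0 ≤ y)
    (hyx : y < ((a ^ 2 + 1) * t + a) * x) :
    (1 + a * t) * x ^ 2 ≤ (1 + a * t) * x ^ 2 + ((a ^ 2 + 1) * t + a) * x * y - y ^ 2 := by
  have h1 : 0 ≤ y * (((a ^ 2 + 1) * t + a) * x - y) := mul_nonneg hy (by linarith)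
  nlinarith

lemma form3_ge (ha : 1 ≤ a) (ht : 1 ≤ t) {x y : ℤ} (hx : 1 ≤ x) (hy : 0 ≤ y) (hyx : y < a * x) :
    1 + a * t ≤ (1 + a * t) * x ^ 2 + (2 * (1 + a * t) * a - ((a ^ 2 + 1) * t + a)) * x * y
      - (1 + a * t) * y ^ 2 := by
  have := form_ge ha ht (x := x) (z := a * x - y) (by linarith) hx (by linarith)
  nlinarith

lemma form3_ge' (ha : 1 ≤ a) (ht : 1 ≤ t) {x y : ℤ} (hx : 1 ≤ x) (hy : 0 ≤ y) (hyx : y < a * x) :
    x ^ 2 ≤ (1 + a * t) * x ^ 2 + (2 * (1 + a * t) * a - ((a ^ 2 + 1) * t + a)) * x * y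
      - (1 + a * t) * y ^ 2 := by
  have hm : 0 < 1 + a * t := by positivity
  have h1 : 0 ≤ (1 + a * t) * (y * (a * x - y)) :=
    mul_nonneg hm.le (mul_nonneg hy (by linarith))
  have h2 : 0 ≤ t * x * (a * x - y) := mul_nonneg (by positivity) (by linarith)
  nlinarith

/-! ### cones -/

/-- slope -/
noncomputable def sl (ha : 1 ≤ a) (ht : 1 ≤ t) (β : RC a t) : ℝ := s1 ha ht β / s2 ha ht β

/-- half open cone -/
def cone (ha : 1 ≤ a) (ht : 1 ≤ t) (v w : RC a t) : Set (RC a t) :=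
  {β | (0 < s1 ha ht β ∧ 0 < s2 ha ht β) ∧ sl ha ht w < sl ha ht β ∧ sl ha ht β ≤ sl ha ht v}

lemma cone_mem (ha : 1 ≤ a) (ht : 1 ≤ t) (v w next : RC a t) (n : ℤ) (hn : 1 ≤ n)
    (hv1 : 0 < s1 ha ht v) (hv2 : 0 < s2 ha ht v) (hw1 : 0 < s1 ha ht w) (hw2 : s2 ha ht w < 0)
    (hnext : next = v - (n : RC a t) * w) (hs : 0 < s1 ha ht next) (x y : ℤ) :
    (x : RC a t) * v - (y : RC a t) * w ∈ cone ha ht v next ↔ 0 ≤ y ∧ y < n * x := by
  have hn' : (0 : ℝ) < n := by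
    have : 0 < n := by linarith
    exact_mod_cast this
  have e1 : s1 ha ht next = s1 ha ht v - n * s1 ha ht w := by
    rw [hnext, map_sub, map_mul, map_intCast]
  have e2 : s2 ha ht next = s2 ha ht v - n * s2 ha ht w := by
    rw [hnext, map_sub, map_mul, map_intCast]
  have hs2 : 0 < s2 ha ht next := by
    rw [e2]
    nlinarith
  have key := cone_iff (s1 ha ht v) (s2 ha ht v) (s1 ha ht w) (s2 ha ht w) n x y hn' hv1 hv2 hw1 hw2
    (by rw [← e1]; exact hs)
  have f1 : s1 ha ht ((x : RC a t) * v - (y : RC a t) * w) = x * s1 ha ht v - y * s1 ha ht w := by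
    rw [map_sub, map_mul, map_mul, map_intCast, map_intCast]
  have f2 : s2 ha ht ((x : RC a t) * v - (y : RC a t) * w) = x * s2 ha ht v - y * s2 ha ht w := by
    rw [map_sub, map_mul, map_mul, map_intCast, map_intCast]
  have hR : (0 ≤ y ∧ y < n * x) ↔ ((0 : ℝ) ≤ y ∧ (y : ℝ) < n * x) := by
    constructor
    · rintro ⟨h1, h2⟩
      exact ⟨by exact_mod_cast h1, by exact_mod_cast h2⟩
    · rintro ⟨h1, h2⟩
      exact ⟨by exact_mod_cast h1, by exact_mod_cast h2⟩
  rw [hR, ← key, ← e1, ← e2, ← f1, ← f2]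
  unfold cone sl
  simp only [Set.mem_ofPred_eq]
  constructor
  · rintro ⟨⟨h1, h2⟩, h3, h4⟩
    refine ⟨⟨h1, h2⟩, ?_, ?_⟩
    · rwa [div_lt_div_iff₀ hs2 h2] at h3
    · rwa [div_le_div_iff₀ h2 hv2] at h4
  · rintro ⟨⟨h1, h2⟩, h3, h4⟩
    refine ⟨⟨h1, h2⟩, ?_, ?_⟩
    · rwa [div_lt_div_iff₀ hs2 h2]
    · rwa [div_le_div_iff₀ h2 hv2]

lemma slope_lt (ha : 1 ≤ a) (ht : 1 ≤ t) (v w next : RC a t) (n : ℤ) (hn : 1 ≤ n)
    (hv1 : 0 < s1 ha ht v) (hv2 : 0 < s2 ha ht v) (hw1 : 0 < s1 ha ht w) (hw2 : s2 ha ht w < 0)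
    (hnext : next = v - (n : RC a t) * w) : sl ha ht next < sl ha ht v := by
  have hn' : (0 : ℝ) < n := by
    have : 0 < n := by linarith
    exact_mod_cast this
  have e1 : s1 ha ht next = s1 ha ht v - n * s1 ha ht w := by
    rw [hnext, map_sub, map_mul, map_intCast]
  have e2 : s2 ha ht next = s2 ha ht v - n * s2 ha ht w := by
    rw [hnext, map_sub, map_mul, map_intCast]
  have hs2 : 0 < s2 ha ht next := by
    rw [e2]
    nlinarith
  unfold sl
  rw [div_lt_div_iff₀ hs2 hv2, e1, e2]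
  have : 0 < n * (s1 ha ht w * s2 ha ht v - s1 ha ht v * s2 ha ht w) := by
    apply mul_pos hn'
    nlinarith
  linarith

lemma B_pos (ha : 1 ≤ a) (ht : 1 ≤ t) : 1 ≤ (a ^ 2 + 1) * t + a := by nlinarith [sq_nonneg a]

lemma p1_mem (ha : 1 ≤ a) (ht : 1 ≤ t) (z : ℤ × ℤ) :
    p1 a t z ∈ cone ha ht 1 (r2 a t) ↔ 0 ≤ z.2 ∧ z.2 < a * z.1 := by
  have := cone_mem ha ht 1 (r1 a t) (r2 a t) a ha (by simp) (by simp) (s1_r1_pos ha ht)
    (s2_r1_neg ha ht) (r2_eq a t) (s1_r2_pos ha ht) z.1 z.2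
  rw [mul_one] at this
  exact this

lemma p2_mem (ha : 1 ≤ a) (ht : 1 ≤ t) (z : ℤ × ℤ) :
    p2 a t z ∈ cone ha ht (r2 a t) (r3 a t * r1 a t) ↔
      0 ≤ z.2 ∧ z.2 < ((a ^ 2 + 1) * t + a) * z.1 :=
  cone_mem ha ht (r2 a t) (r3 a t) (r3 a t * r1 a t) ((a ^ 2 + 1) * t + a) (B_pos ha ht)
    (s1_r2_pos ha ht) (s2_r2_pos ha ht) (s1_r3_pos ha ht) (s2_r3_neg ha ht) (r4_eq a t)
    (by rw [map_mul]; exact mul_pos (s1_r3_pos ha ht) (s1_r1_pos ha ht)) z.1 z.2

lemma p3_mem (ha : 1 ≤ a) (ht : 1 ≤ t) (z : ℤ × ℤ) :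
    p3 a t z ∈ cone ha ht (r3 a t * r1 a t) (r3 a t * r3 a t) ↔ 0 ≤ z.2 ∧ z.2 < a * z.1 :=
  cone_mem ha ht (r3 a t * r1 a t) (r3 a t * r2 a t) (r3 a t * r3 a t) a ha
    (by rw [map_mul]; exact mul_pos (s1_r3_pos ha ht) (s1_r1_pos ha ht))
    (by rw [map_mul]; exact mul_pos_of_neg_of_neg (s2_r3_neg ha ht) (s2_r1_neg ha ht))
    (by rw [map_mul]; exact mul_pos (s1_r3_pos ha ht) (s1_r2_pos ha ht))
    (by rw [map_mul]; exact mul_neg_of_neg_of_pos (s2_r3_neg ha ht) (s2_r2_pos ha ht))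
    (r6_eq a t)
    (by rw [map_mul]; exact mul_pos (s1_r3_pos ha ht) (s1_r3_pos ha ht)) z.1 z.2

lemma sl_one (ha : 1 ≤ a) (ht : 1 ≤ t) : sl ha ht 1 = 1 := by simp [sl]

lemma sl1 (ha : 1 ≤ a) (ht : 1 ≤ t) : sl ha ht (r2 a t) < sl ha ht 1 :=
  slope_lt ha ht 1 (r1 a t) (r2 a t) a ha (by simp) (by simp) (s1_r1_pos ha ht)
    (s2_r1_neg ha ht) (r2_eq a t)

lemma sl2 (ha : 1 ≤ a) (ht : 1 ≤ t) : sl ha ht (r3 a t * r1 a t) < sl ha ht (r2 a t) :=
  slope_lt ha ht (r2 a t) (r3 a t) (r3 a t * r1 a t) ((a ^ 2 + 1) * t + a) (B_pos ha ht)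
    (s1_r2_pos ha ht) (s2_r2_pos ha ht) (s1_r3_pos ha ht) (s2_r3_neg ha ht) (r4_eq a t)

lemma sl3 (ha : 1 ≤ a) (ht : 1 ≤ t) : sl ha ht (r3 a t * r3 a t) < sl ha ht (r3 a t * r1 a t) :=
  slope_lt ha ht (r3 a t * r1 a t) (r3 a t * r2 a t) (r3 a t * r3 a t) a ha
    (by rw [map_mul]; exact mul_pos (s1_r3_pos ha ht) (s1_r1_pos ha ht))
    (by rw [map_mul]; exact mul_pos_of_neg_of_neg (s2_r3_neg ha ht) (s2_r1_neg ha ht))
    (by rw [map_mul]; exact mul_pos (s1_r3_pos ha ht) (s1_r2_pos ha ht))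
    (by rw [map_mul]; exact mul_neg_of_neg_of_pos (s2_r3_neg ha ht) (s2_r2_pos ha ht))
    (r6_eq a t)

/-- the fundamental domain -/
def FD (ha : 1 ≤ a) (ht : 1 ≤ t) : Set (RC a t) := cone ha ht 1 (r3 a t * r3 a t)

lemma FD_eq (ha : 1 ≤ a) (ht : 1 ≤ t) : FD ha ht = cone ha ht 1 (r2 a t) ∪
    cone ha ht (r2 a t) (r3 a t * r1 a t) ∪ cone ha ht (r3 a t * r1 a t) (r3 a t * r3 a t) := by
  have h1 := sl1 ha ht
  have h2 := sl2 ha ht
  have h3 := sl3 ha ht
  ext β
  simp only [FD, cone, Set.mem_union, Set.mem_ofPred_eq]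
  constructor
  · rintro ⟨h, h4, h5⟩
    rcases lt_or_ge (sl ha ht (r2 a t)) (sl ha ht β) with h6 | h6
    · left; left; exact ⟨h, h6, h5⟩
    · rcases lt_or_ge (sl ha ht (r3 a t * r1 a t)) (sl ha ht β) with h7 | h7
      · left; right; exact ⟨h, h7, h6⟩
      · right; exact ⟨h, h4, h7⟩
  · rintro ((⟨h, h4, h5⟩ | ⟨h, h4, h5⟩) | ⟨h, h4, h5⟩)
    · exact ⟨h, by linarith, by linarith⟩
    · exact ⟨h, by linarith, by linarith⟩
    · exact ⟨h, by linarith, by linarith⟩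

lemma disj12 (ha : 1 ≤ a) (ht : 1 ≤ t) : Disjoint (cone ha ht 1 (r2 a t))
    (cone ha ht (r2 a t) (r3 a t * r1 a t)) := by
  rw [Set.disjoint_left]
  rintro β ⟨_, h1, _⟩ ⟨_, _, h2⟩
  linarith

lemma disj123 (ha : 1 ≤ a) (ht : 1 ≤ t) : Disjoint (cone ha ht 1 (r2 a t) ∪
    cone ha ht (r2 a t) (r3 a t * r1 a t)) (cone ha ht (r3 a t * r1 a t) (r3 a t * r3 a t)) := by
  rw [Set.disjoint_left]
  have h2' := sl2 ha ht
  rintro β (⟨_, h1, _⟩ | ⟨_, h1, _⟩) ⟨_, _, h2⟩
  · linarith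
  · linarith

/-- a unit of norm one in the fundamental domain is `1` -/
lemma eq_one_of_norm_one (ha : 1 ≤ a) (ht : 1 ≤ t) (u : RC a t) (hu : u ∈ FD ha ht)
    (hN : u.norm = 1) : u = 1 := by
  have hm : 1 < 1 + a * t := by nlinarith
  rw [FD_eq] at hu
  rcases hu with (hu | hu) | hu
  · obtain ⟨z, rfl⟩ := p1_surj a t u
    rw [p1_mem] at hu
    obtain ⟨h0, h1⟩ := hu
    have hx : 1 ≤ z.1 := by
      by_contra hx
      push Not at hx
      have : z.1 ≤ 0 := by linarith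
      nlinarith
    rw [norm_p1] at hN
    rcases eq_or_lt_of_le h0 with h | h
    · rw [← h] at hN
      have hx1 : z.1 = 1 := by nlinarith
      rw [p1, ← h, hx1]
      simp
    · have := form_ge ha ht (x := z.1) (z := z.2) (by linarith) hx h1.le
      linarith
  · obtain ⟨z, rfl⟩ := p2_surj a t u
    rw [p2_mem] at hu
    obtain ⟨h0, h1⟩ := hu
    have hB := B_pos ha ht
    have hx : 1 ≤ z.1 := by
      by_contra hx
      push Not at hx
      have : z.1 ≤ 0 := by linarith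
      nlinarith
    rw [norm_p2] at hN
    have := form2_ge (x := z.1) h0 h1
    nlinarith
  · obtain ⟨z, rfl⟩ := p3_surj a t u
    rw [p3_mem] at hu
    obtain ⟨h0, h1⟩ := hu
    have hx : 1 ≤ z.1 := by
      by_contra hx
      push Not at hx
      have : z.1 ≤ 0 := by linarith
      nlinarith
    rw [norm_p3] at hN
    have := form3_ge ha ht (x := z.1) (y := z.2) hx h0 h1
    linarith

lemma s1_zpow (ha : 1 ≤ a) (ht : 1 ≤ t) (v : (RC a t)ˣ) (k : ℤ) :
    s1 ha ht ((v ^ k : (RC a t)ˣ) : RC a t) = (s1 ha ht (v : RC a t)) ^ k := by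
  have h := map_zpow (Units.map ((s1 ha ht : RC a t →ₐ[ℤ] ℝ) : RC a t →* ℝ)) v k
  have h' := congrArg (fun u : ℝˣ => (u : ℝ)) h
  simp only [Units.val_zpow_eq_zpow_val] at h'
  exact h'

lemma s2_zpow (ha : 1 ≤ a) (ht : 1 ≤ t) (v : (RC a t)ˣ) (k : ℤ) :
    s2 ha ht ((v ^ k : (RC a t)ˣ) : RC a t) = (s2 ha ht (v : RC a t)) ^ k := by
  have h := map_zpow (Units.map ((s2 ha ht : RC a t →ₐ[ℤ] ℝ) : RC a t →* ℝ)) v k
  have h' := congrArg (fun u : ℝˣ => (u : ℝ)) h
  simp only [Units.val_zpow_eq_zpow_val] at h'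
  exact h'

lemma exists_assoc_pos (ha : 1 ≤ a) (ht : 1 ≤ t) (β : RC a t) (h1 : 0 < s1 ha ht β)
    (h2 : 0 < s2 ha ht β) : ∃ γ ∈ FD ha ht, Associated γ β := by
  obtain ⟨u, hu⟩ : IsUnit (r3 a t * r3 a t) := (isUnit_r3 a t).mul (isUnit_r3 a t)
  have hu1 : 0 < s1 ha ht (u : RC a t) := by
    rw [hu, map_mul]; exact mul_pos (s1_r3_pos ha ht) (s1_r3_pos ha ht)
  have hu2 : 0 < s2 ha ht (u : RC a t) := by
    rw [hu, map_mul]; exact mul_pos_of_neg_of_neg (s2_r3_neg ha ht) (s2_r3_neg ha ht)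
  have hsu : sl ha ht (u : RC a t) < 1 := by
    have e1 := sl1 ha ht
    have e2 := sl2 ha ht
    have e3 := sl3 ha ht
    rw [sl_one] at e1
    rw [hu]
    linarith
  have hsu0 : 0 < sl ha ht (u : RC a t) := div_pos hu1 hu2
  have hsb0 : 0 < sl ha ht β := div_pos h1 h2
  have hy : 1 < (sl ha ht (u : RC a t))⁻¹ := (one_lt_inv₀ hsu0).mpr hsu
  obtain ⟨n, hn1, hn2⟩ := exists_mem_Ioc_zpow hsb0 hy
  refine ⟨β * ((u ^ (n + 1) : (RC a t)ˣ) : RC a t), ?_, ?_⟩
  · have f1 : s1 ha ht (β * ((u ^ (n + 1) : (RC a t)ˣ) : RC a t)) =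
        s1 ha ht β * (s1 ha ht (u : RC a t)) ^ (n + 1) := by rw [map_mul, s1_zpow]
    have f2 : s2 ha ht (β * ((u ^ (n + 1) : (RC a t)ˣ) : RC a t)) =
        s2 ha ht β * (s2 ha ht (u : RC a t)) ^ (n + 1) := by rw [map_mul, s2_zpow]
    have f3 : sl ha ht (β * ((u ^ (n + 1) : (RC a t)ˣ) : RC a t)) =
        sl ha ht β * (sl ha ht (u : RC a t)) ^ (n + 1) := by
      unfold sl
      rw [f1, f2, div_zpow]
      field_simp
    refine ⟨⟨?_, ?_⟩, ?_, ?_⟩
    · rw [f1]; positivity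
    · rw [f2]; positivity
    · rw [f3, ← hu]
      have hk : 0 < (sl ha ht (u : RC a t)) ^ (n + 1) := by positivity
      have := mul_lt_mul_of_pos_right hn1 hk
      rw [inv_zpow, zpow_add₀ hsu0.ne', zpow_one] at this
      have e : ((sl ha ht (u : RC a t)) ^ n)⁻¹ * ((sl ha ht (u : RC a t)) ^ n *
          sl ha ht (u : RC a t)) = sl ha ht (u : RC a t) := by
        field_simp
      rw [e] at this
      rwa [zpow_add₀ hsu0.ne', zpow_one]
    · rw [f3, sl_one]
      have hk : 0 < (sl ha ht (u : RC a t)) ^ (n + 1) := by positivity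
      have := mul_le_mul_of_nonneg_right hn2 hk.le
      rw [inv_zpow, inv_mul_cancel₀ hk.ne'] at this
      exact this
  · exact (associated_mul_unit_left β _ (Units.isUnit _))

lemma exists_assoc (ha : 1 ≤ a) (ht : 1 ≤ t) (β : RC a t) (hβ : β.norm ≠ 0) :
    ∃ γ ∈ FD ha ht, Associated γ β := by
  have hne : s1 ha ht β * s2 ha ht β ≠ 0 := by
    rw [← norm_eq_s1_mul_s2]
    exact_mod_cast hβ
  have hne1 : s1 ha ht β ≠ 0 := left_ne_zero_of_mul hne
  have hne2 : s2 ha ht β ≠ 0 := right_ne_zero_of_mul hne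
  -- reduce to `s1 > 0`
  obtain ⟨β', hβ', hassoc, hne2'⟩ : ∃ β', 0 < s1 ha ht β' ∧ Associated β' β ∧
      s2 ha ht β' ≠ 0 := by
    rcases lt_or_gt_of_ne hne1 with h | h
    · refine ⟨-β, ?_, (Associated.refl β).neg_left, ?_⟩
      · rw [map_neg]; linarith
      · rw [map_neg]; exact neg_ne_zero.mpr hne2
    · exact ⟨β, h, Associated.refl β, hne2⟩
  rcases lt_or_gt_of_ne hne2' with h | h
  · obtain ⟨γ, hγ, hγ'⟩ := exists_assoc_pos ha ht (β' * r3 a t)
      (by rw [map_mul]; exact mul_pos hβ' (s1_r3_pos ha ht))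
      (by rw [map_mul]; exact mul_pos_of_neg_of_neg h (s2_r3_neg ha ht))
    exact ⟨γ, hγ, (hγ'.trans (associated_mul_unit_left β' _ (isUnit_r3 a t))).trans hassoc⟩
  · obtain ⟨γ, hγ, hγ'⟩ := exists_assoc_pos ha ht β' hβ' h
    exact ⟨γ, hγ, hγ'.trans hassoc⟩

lemma unit_aux (ha : 1 ≤ a) (ht : 1 ≤ t) (β γ : RC a t) (hβ : β ∈ FD ha ht) (hγ : γ ∈ FD ha ht)
    (u : (RC a t)ˣ) (hu : β * u = γ) (hle : sl ha ht γ ≤ sl ha ht β) : β = γ := by
  obtain ⟨⟨b1, b2⟩, b3, b4⟩ := hβ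
  obtain ⟨⟨c1, c2⟩, c3, c4⟩ := hγ
  have e1 : s1 ha ht β * s1 ha ht (u : RC a t) = s1 ha ht γ := by rw [← map_mul, hu]
  have e2 : s2 ha ht β * s2 ha ht (u : RC a t) = s2 ha ht γ := by rw [← map_mul, hu]
  have hu1 : 0 < s1 ha ht (u : RC a t) := by
    rw [← e1] at c1
    exact (mul_pos_iff_of_pos_left b1).mp c1
  have hu2 : 0 < s2 ha ht (u : RC a t) := by
    rw [← e2] at c2
    exact (mul_pos_iff_of_pos_left b2).mp c2
  have hsl : sl ha ht β * sl ha ht (u : RC a t) = sl ha ht γ := by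
    unfold sl
    rw [← e1, ← e2]
    field_simp
  have hb0 : 0 < sl ha ht β := div_pos b1 b2
  have hu0 : 0 < sl ha ht (u : RC a t) := div_pos hu1 hu2
  have hmem : (u : RC a t) ∈ FD ha ht := by
    refine ⟨⟨hu1, hu2⟩, ?_, ?_⟩
    · rw [sl_one] at b4
      rw [← hsl] at c3
      nlinarith
    · rw [sl_one]
      rw [← hsl] at hle
      by_contra hgt
      push Not at hgt
      nlinarith
  have hN : (u : RC a t).norm = 1 := by
    have h := QuadraticAlgebra.isUnit_iff_norm_isUnit.mp u.isUnit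
    rcases Int.isUnit_iff.mp h with h | h
    · exact h
    · exfalso
      have := norm_eq_s1_mul_s2 ha ht (u : RC a t)
      rw [h] at this
      have h3 : 0 < s1 ha ht (u : RC a t) * s2 ha ht (u : RC a t) := mul_pos hu1 hu2
      rw [← this] at h3
      norm_num at h3
  have := eq_one_of_norm_one ha ht (u : RC a t) hmem hN
  rw [← hu, this, mul_one]

lemma FD_injOn (ha : 1 ≤ a) (ht : 1 ≤ t) (β γ : RC a t) (hβ : β ∈ FD ha ht) (hγ : γ ∈ FD ha ht)
    (h : Associated β γ) : β = γ := by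
  rcases le_total (sl ha ht γ) (sl ha ht β) with hle | hle
  · obtain ⟨u, hu⟩ := h
    exact unit_aux ha ht β γ hβ hγ u hu hle
  · obtain ⟨u, hu⟩ := h.symm
    exact (unit_aux ha ht γ β hγ hβ u hu hle).symm

lemma FD_norm_pos (ha : 1 ≤ a) (ht : 1 ≤ t) (β : RC a t) (hβ : β ∈ FD ha ht) : 0 < β.norm := by
  have := norm_eq_s1_mul_s2 ha ht β
  have h : (0 : ℝ) < ((β.norm : ℤ) : ℝ) := by
    rw [this]; exact mul_pos hβ.1.1 hβ.1.2
  exact_mod_cast h

/-! ### the count, with integer parameters -/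

/-- edge 1 points -/
def I1 (a t : ℤ) (n : ℕ) : Set (ℤ × ℤ) := {z | (0 ≤ z.2 ∧ z.2 < a * z.1) ∧
  z.1 ^ 2 + ((a ^ 2 + 1) * t + a) * z.1 * z.2 - (1 + a * t) * z.2 ^ 2 = n}
/-- edge 2 points -/
def I2 (a t : ℤ) (n : ℕ) : Set (ℤ × ℤ) := {z | (0 ≤ z.2 ∧ z.2 < ((a ^ 2 + 1) * t + a) * z.1) ∧
  (1 + a * t) * z.1 ^ 2 + ((a ^ 2 + 1) * t + a) * z.1 * z.2 - z.2 ^ 2 = n}
/-- edge 3 points -/
def I3 (a t : ℤ) (n : ℕ) : Set (ℤ × ℤ) := {z | (0 ≤ z.2 ∧ z.2 < a * z.1) ∧
  (1 + a * t) * z.1 ^ 2 + (2 * (1 + a * t) * a - ((a ^ 2 + 1) * t + a)) * z.1 * z.2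
      - (1 + a * t) * z.2 ^ 2 = n}

lemma pos_of_cone {N x y : ℤ} (hN : 1 ≤ N) (h0 : 0 ≤ y) (h1 : y < N * x) : 1 ≤ x := by
  by_contra hx
  push Not at hx
  have : x ≤ 0 := by linarith
  nlinarith

lemma finite_aux (N : ℤ) (n : ℕ) (hN : 1 ≤ N) (S : Set (ℤ × ℤ))
    (h : ∀ z ∈ S, 0 ≤ z.2 ∧ z.2 < N * z.1 ∧ z.1 ^ 2 ≤ n) : S.Finite := by
  apply Set.Finite.subset (Set.Finite.prod (Set.finite_Icc (0 : ℤ) n) (Set.finite_Icc (0 : ℤ) (N * n)))
  intro z hz
  obtain ⟨h0, h1, h2⟩ := h z hz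
  have hx := pos_of_cone hN h0 h1
  have hxn : z.1 ≤ n := by nlinarith
  refine ⟨⟨by linarith, hxn⟩, ⟨h0, ?_⟩⟩
  nlinarith

lemma I1_finite (ha : 1 ≤ a) (ht : 1 ≤ t) (n : ℕ) : (I1 a t n).Finite := by
  apply finite_aux a n ha
  rintro z ⟨⟨h0, h1⟩, h2⟩
  have hx := pos_of_cone ha h0 h1
  have := form1_ge ha ht hx h0 h1
  exact ⟨h0, h1, by linarith⟩

lemma I2_finite (ha : 1 ≤ a) (ht : 1 ≤ t) (n : ℕ) : (I2 a t n).Finite := by
  apply finite_aux ((a ^ 2 + 1) * t + a) n (B_pos ha ht)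
  rintro z ⟨⟨h0, h1⟩, h2⟩
  have hx := pos_of_cone (B_pos ha ht) h0 h1
  have := form2_ge (x := z.1) h0 h1
  refine ⟨h0, h1, ?_⟩
  have : 0 ≤ a * t * z.1 ^ 2 := by positivity
  nlinarith

lemma I3_finite (ha : 1 ≤ a) (ht : 1 ≤ t) (n : ℕ) : (I3 a t n).Finite := by
  apply finite_aux a n ha
  rintro z ⟨⟨h0, h1⟩, h2⟩
  have hx := pos_of_cone ha h0 h1
  have := form3_ge' ha ht hx h0 h1
  exact ⟨h0, h1, by linarith⟩

/-- elements of the fundamental domain of norm `n` -/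
def G (ha : 1 ≤ a) (ht : 1 ≤ t) (n : ℕ) : Set (RC a t) := {β | β ∈ FD ha ht ∧ β.norm = n}

lemma G_eq (ha : 1 ≤ a) (ht : 1 ≤ t) (n : ℕ) : G ha ht n =
    p1 a t '' I1 a t n ∪ p2 a t '' I2 a t n ∪ p3 a t '' I3 a t n := by
  ext β
  simp only [G, FD_eq, Set.mem_ofPred_eq, Set.mem_union, Set.mem_image, I1, I2, I3]
  constructor
  · rintro ⟨(h | h) | h, hN⟩
    · obtain ⟨z, rfl⟩ := p1_surj a t β
      left; left
      exact ⟨z, ⟨(p1_mem ha ht z).mp h, by rw [← norm_p1]; exact hN⟩, rfl⟩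
    · obtain ⟨z, rfl⟩ := p2_surj a t β
      left; right
      exact ⟨z, ⟨(p2_mem ha ht z).mp h, by rw [← norm_p2]; exact hN⟩, rfl⟩
    · obtain ⟨z, rfl⟩ := p3_surj a t β
      right
      exact ⟨z, ⟨(p3_mem ha ht z).mp h, by rw [← norm_p3]; exact hN⟩, rfl⟩
  · rintro ((⟨z, ⟨h, hN⟩, rfl⟩ | ⟨z, ⟨h, hN⟩, rfl⟩) | ⟨z, ⟨h, hN⟩, rfl⟩)
    · exact ⟨Or.inl (Or.inl ((p1_mem ha ht z).mpr h)), by rw [norm_p1]; exact hN⟩
    · exact ⟨Or.inl (Or.inr ((p2_mem ha ht z).mpr h)), by rw [norm_p2]; exact hN⟩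
    · exact ⟨Or.inr ((p3_mem ha ht z).mpr h), by rw [norm_p3]; exact hN⟩

lemma G_ncard (ha : 1 ≤ a) (ht : 1 ≤ t) (n : ℕ) : (G ha ht n).ncard =
    (I1 a t n).ncard + (I2 a t n).ncard + (I3 a t n).ncard := by
  have f1 := (I1_finite ha ht n).image (p1 a t)
  have f2 := (I2_finite ha ht n).image (p2 a t)
  have f3 := (I3_finite ha ht n).image (p3 a t)
  have d12 : Disjoint (p1 a t '' I1 a t n) (p2 a t '' I2 a t n) := by
    apply Set.disjoint_of_subset _ _ (disj12 ha ht)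
    · rintro _ ⟨z, ⟨h, _⟩, rfl⟩; exact (p1_mem ha ht z).mpr h
    · rintro _ ⟨z, ⟨h, _⟩, rfl⟩; exact (p2_mem ha ht z).mpr h
  have d123 : Disjoint (p1 a t '' I1 a t n ∪ p2 a t '' I2 a t n) (p3 a t '' I3 a t n) := by
    apply Set.disjoint_of_subset _ _ (disj123 ha ht)
    · rintro _ (⟨z, ⟨h, _⟩, rfl⟩ | ⟨z, ⟨h, _⟩, rfl⟩)
      · left; exact (p1_mem ha ht z).mpr h
      · right; exact (p2_mem ha ht z).mpr h
    · rintro _ ⟨z, ⟨h, _⟩, rfl⟩; exact (p3_mem ha ht z).mpr h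
  rw [G_eq, Set.ncard_union_eq d123 (f1.union f2) f3, Set.ncard_union_eq d12 f1 f2,
    Set.ncard_image_of_injective _ (p1_inj a t), Set.ncard_image_of_injective _ (p2_inj a t),
    Set.ncard_image_of_injective _ (p3_inj a t)]

lemma image_G (ha : 1 ≤ a) (ht : 1 ≤ t) (n : ℕ) (hn : n ≠ 0) :
    Associates.mk '' G ha ht n = SN (1 + a * t) ((a ^ 2 + 1) * t + a) n := by
  ext c
  constructor
  · rintro ⟨β, ⟨_, hN⟩, rfl⟩
    change absN _ = n
    rw [absN_mk, hN]
    simp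
  · intro hc
    obtain ⟨β, rfl⟩ := Associates.mk_surjective c
    have hc' : β.norm.natAbs = n := hc
    have hβ : β.norm ≠ 0 := by
      intro h
      rw [h] at hc'
      exact hn (by simpa using hc'.symm)
    obtain ⟨γ, hγ, hγβ⟩ := exists_assoc ha ht β hβ
    refine ⟨γ, ⟨hγ, ?_⟩, Associates.mk_eq_mk_iff_associated.mpr hγβ⟩
    have h1 := FD_norm_pos ha ht γ hγ
    have h2 : γ.norm.natAbs = β.norm.natAbs := by
      have := congrArg absN (Associates.mk_eq_mk_iff_associated.mpr hγβ)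
      rwa [absN_mk, absN_mk] at this
    rw [hc'] at h2
    omega

/-- the count with integer parameters -/
theorem count_int (ha : 1 ≤ a) (ht : 1 ≤ t) (n : ℕ) (hn : n ≠ 0) :
    (SN (1 + a * t) ((a ^ 2 + 1) * t + a) n).ncard =
      (I1 a t n).ncard + (I2 a t n).ncard + (I3 a t n).ncard := by
  rw [← image_G ha ht n hn, ← G_ncard ha ht n]
  apply Set.InjOn.ncard_image
  intro β hβ γ hγ h
  exact FD_injOn ha ht β γ hβ.1 hγ.1 (Associates.mk_eq_mk_iff_associated.mp h)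

/-! ### natural parameters -/

/-- points on the first edge -/
def E1 (a t n : ℕ) : Set (ℕ × ℕ) := {z | 1 ≤ z.1 ∧ z.2 < a * z.1 ∧
  (z.1 : ℤ) ^ 2 + (((a ^ 2 + 1) * t + a : ℕ) : ℤ) * z.1 * z.2
    - ((1 + a * t : ℕ) : ℤ) * (z.2 : ℤ) ^ 2 = n}
/-- points on the second edge -/
def E2 (a t n : ℕ) : Set (ℕ × ℕ) := {z | 1 ≤ z.1 ∧ z.2 < ((a ^ 2 + 1) * t + a) * z.1 ∧
  ((1 + a * t : ℕ) : ℤ) * (z.1 : ℤ) ^ 2 + (((a ^ 2 + 1) * t + a : ℕ) : ℤ) * z.1 * z.2
    - (z.2 : ℤ) ^ 2 = n}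
/-- points on the third edge -/
def E3 (a t n : ℕ) : Set (ℕ × ℕ) := {z | 1 ≤ z.1 ∧ z.2 < a * z.1 ∧
  ((1 + a * t : ℕ) : ℤ) * (z.1 : ℤ) ^ 2
    + (2 * ((1 + a * t : ℕ) : ℤ) * a - (((a ^ 2 + 1) * t + a : ℕ) : ℤ)) * z.1 * z.2
    - ((1 + a * t : ℕ) : ℤ) * (z.2 : ℤ) ^ 2 = n}

/-- cast of pairs -/
def cst (z : ℕ × ℕ) : ℤ × ℤ := ((z.1 : ℤ), (z.2 : ℤ))

lemma cst_inj : Function.Injective cst := by
  intro z w h
  simp only [cst, Prod.mk.injEq, Nat.cast_inj] at h
  exact Prod.ext h.1 h.2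

lemma image_cst (N : ℕ) (hN : 1 ≤ N) (f : ℤ → ℤ → ℤ) (n : ℕ) :
    cst '' {z : ℕ × ℕ | 1 ≤ z.1 ∧ z.2 < N * z.1 ∧ f z.1 z.2 = n} =
      {z : ℤ × ℤ | (0 ≤ z.2 ∧ z.2 < N * z.1) ∧ f z.1 z.2 = n} := by
  ext w
  simp only [Set.mem_image, Set.mem_ofPred_eq]
  constructor
  · rintro ⟨z, ⟨_, h1, h2⟩, rfl⟩
    refine ⟨⟨?_, ?_⟩, h2⟩
    · simp [cst]
    · simp only [cst]; exact_mod_cast h1
  · rintro ⟨⟨h0, h1⟩, h2⟩
    have hx := pos_of_cone (by exact_mod_cast hN : (1 : ℤ) ≤ N) h0 h1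
    obtain ⟨x, hx'⟩ := Int.eq_ofNat_of_zero_le (by linarith : 0 ≤ w.1)
    obtain ⟨y, hy'⟩ := Int.eq_ofNat_of_zero_le h0
    refine ⟨(x, y), ⟨?_, ?_, ?_⟩, ?_⟩
    · simp only; omega
    · simp only
      rw [hx', hy'] at h1
      exact_mod_cast h1
    · simp only
      rw [hx', hy'] at h2
      exact h2
    · simp only [cst]
      rw [← hx', ← hy']

end Cone

open Cone in
/-- **T3**: the number of classes of norm `n` is the number of lattice points on the three edges -/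
theorem cone_count (a t n : ℕ) (ha : 1 ≤ a) (ht : 1 ≤ t) (hn : n ≠ 0) :
    ((E1 a t n).Finite ∧ (E2 a t n).Finite ∧ (E3 a t n).Finite) ∧
    (SN ((1 + a * t : ℕ) : ℤ) (((a ^ 2 + 1) * t + a : ℕ) : ℤ) n).ncard =
      (E1 a t n).ncard + (E2 a t n).ncard + (E3 a t n).ncard := by
  have ha' : (1 : ℤ) ≤ a := by exact_mod_cast ha
  have ht' : (1 : ℤ) ≤ t := by exact_mod_cast ht
  have em : ((1 + a * t : ℕ) : ℤ) = 1 + (a : ℤ) * t := by push_cast; ring
  have eB : (((a ^ 2 + 1) * t + a : ℕ) : ℤ) = ((a : ℤ) ^ 2 + 1) * t + a := by push_cast; ring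
  have hB : 1 ≤ (a ^ 2 + 1) * t + a := by omega
  have i1 : cst '' E1 a t n = I1 a t n := by
    have := image_cst a ha (fun x y => x ^ 2 + (((a ^ 2 + 1) * t + a : ℕ) : ℤ) * x * y
      - ((1 + a * t : ℕ) : ℤ) * y ^ 2) n
    simp only [em, eB] at this
    simp only [E1, I1, em, eB]
    exact this
  have i2 : cst '' E2 a t n = I2 a t n := by
    have := image_cst ((a ^ 2 + 1) * t + a) hB (fun x y => ((1 + a * t : ℕ) : ℤ) * x ^ 2
      + (((a ^ 2 + 1) * t + a : ℕ) : ℤ) * x * y - y ^ 2) n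
    simp only [em, eB] at this
    simp only [E2, I2, em, eB]
    exact this
  have i3 : cst '' E3 a t n = I3 a t n := by
    have := image_cst a ha (fun x y => ((1 + a * t : ℕ) : ℤ) * x ^ 2
      + (2 * ((1 + a * t : ℕ) : ℤ) * a - (((a ^ 2 + 1) * t + a : ℕ) : ℤ)) * x * y
      - ((1 + a * t : ℕ) : ℤ) * y ^ 2) n
    simp only [em, eB] at this
    simp only [E3, I3, em, eB]
    exact this
  refine ⟨⟨?_, ?_, ?_⟩, ?_⟩
  · exact Set.Finite.of_finite_image (i1 ▸ I1_finite ha' ht' n) cst_inj.injOn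
  · exact Set.Finite.of_finite_image (i2 ▸ I2_finite ha' ht' n) cst_inj.injOn
  · exact Set.Finite.of_finite_image (i3 ▸ I3_finite ha' ht' n) cst_inj.injOn
  · rw [← Set.ncard_image_of_injective _ cst_inj, ← Set.ncard_image_of_injective (E2 a t n) cst_inj,
      ← Set.ncard_image_of_injective (E3 a t n) cst_inj, i1, i2, i3, em, eB]
    exact count_int ha' ht' n hn

end Pool.Agent.LibH4


end

section

/-!
T7: in the period three family, unique factorisation forces every prime below `m` to be inert.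
-/

namespace Pool.Agent.LibH4

open Cone

/-- a nonzero element with small norm has norm a perfect square up to sign -/
theorem norm_isSquare_or_ge (a t : ℤ) (ha : 1 ≤ a) (ht : 1 ≤ t) (β : RC a t) (hβ : β.norm ≠ 0) :
    IsSquare β.norm.natAbs ∨ 1 + a * t ≤ β.norm.natAbs := by
  obtain ⟨γ, hγ, hγβ⟩ := exists_assoc ha ht β hβ
  have h2 : γ.norm.natAbs = β.norm.natAbs := by
    have := congrArg absN (Associates.mk_eq_mk_iff_associated.mpr hγβ)
    rwa [absN_mk, absN_mk] at this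
  have h1 := FD_norm_pos ha ht γ hγ
  rw [← h2]
  have h3 : ((γ.norm.natAbs : ℕ) : ℤ) = γ.norm := by omega
  rw [h3]
  have hm : 0 < 1 + a * t := by positivity
  rw [FD_eq] at hγ
  rcases hγ with (hu | hu) | hu
  · obtain ⟨z, rfl⟩ := p1_surj a t γ
    rw [p1_mem] at hu
    obtain ⟨h0, h4⟩ := hu
    have hx := pos_of_cone ha h0 h4
    rcases eq_or_lt_of_le h0 with h | h
    · left
      rw [norm_p1, ← h]
      refine ⟨z.1.natAbs, ?_⟩
      rw [← Int.natAbs_mul]
      congr 1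
      ring
    · right
      rw [norm_p1]
      exact form_ge ha ht (x := z.1) (z := z.2) (by linarith) hx h4.le
  · right
    obtain ⟨z, rfl⟩ := p2_surj a t γ
    rw [p2_mem] at hu
    obtain ⟨h0, h4⟩ := hu
    have hx := pos_of_cone (B_pos ha ht) h0 h4
    rw [norm_p2]
    have h5 := form2_ge (x := z.1) h0 h4
    have h6 : 0 ≤ (1 + a * t) * (z.1 ^ 2 - 1) := mul_nonneg hm.le (by nlinarith)
    nlinarith
  · right
    obtain ⟨z, rfl⟩ := p3_surj a t γ
    rw [p3_mem] at hu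
    obtain ⟨h0, h4⟩ := hu
    have hx := pos_of_cone ha h0 h4
    rw [norm_p3]
    exact form3_ge ha ht (x := z.1) (y := z.2) hx h0 h4

section

variable {m B : ℤ}

/-- a root modulo `p` gives an element of norm `±p` -/
lemma exists_norm_of_root [IsDomain (QuadraticAlgebra ℤ m B)]
    [UniqueFactorizationMonoid (QuadraticAlgebra ℤ m B)] {p : ℕ} (hp : p.Prime) {x : ℤ}
    (hx : (p : ℤ) ∣ x ^ 2 + B * x - m) :
    ∃ π : QuadraticAlgebra ℤ m B, π.norm.natAbs = p := by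
  have hnp : ¬ Prime ((p : ℕ) : QuadraticAlgebra ℤ m B) := by
    intro hprime
    have h1 : ((p : ℕ) : QuadraticAlgebra ℤ m B) ∣ lin x * star (lin x) := by
      rw [← intCast_norm_eq, norm_lin]
      have := (Int.cast_dvd_cast (α := QuadraticAlgebra ℤ m B) _ _ hx)
      exact_mod_cast this
    rcases hprime.dvd_or_dvd h1 with h | h
    · exact not_dvd_lin hp x h
    · exact not_dvd_star_lin hp x h
  rw [← UniqueFactorizationMonoid.irreducible_iff_prime] at hnp
  have hu := natCast_not_unit (m := m) (B := B) hp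
  have : ∃ u v : QuadraticAlgebra ℤ m B, ((p : ℕ) : QuadraticAlgebra ℤ m B) = u * v ∧ ¬ IsUnit u ∧ ¬ IsUnit v := by
    by_contra hcon
    push Not at hcon
    apply hnp
    refine ⟨hu, ?_⟩
    intro a b hab
    by_contra hh
    push Not at hh
    exact hh.2 (hcon a b hab hh.1)
  obtain ⟨u, v, huv, hu', hv'⟩ := this
  have hN : u.norm.natAbs * v.norm.natAbs = p ^ 2 := by
    rw [← Int.natAbs_mul, ← map_mul, ← huv, natAbs_norm_natCast]
  rw [QuadraticAlgebra.isUnit_iff_norm_isUnit, Int.isUnit_iff_natAbs_eq] at hu' hv'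
  exact ⟨u, ((Nat.Prime.mul_eq_prime_sq_iff hp hu' hv').mp hN).1⟩

/-- a root modulo an odd prime, from quadratic residuosity -/
lemma exists_root_of_ne {d p : ℕ} (hd : (d : ℤ) = B ^ 2 + 4 * m) (hp : p.Prime) (hp2 : p ≠ 2)
    (hj : jacobiSym d p ≠ -1) : ∃ x : ℤ, (p : ℤ) ∣ x ^ 2 + B * x - m := by
  have : Fact p.Prime := ⟨hp⟩
  rw [← jacobiSym.legendreSym.to_jacobiSym, Ne, legendreSym.eq_neg_one_iff, not_not] at hj
  obtain ⟨s, hs⟩ := hj
  have h2 : (2 : ZMod p) ≠ 0 := by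
    intro h2
    have : ((2 : ℕ) : ZMod p) = 0 := by exact_mod_cast h2
    rw [ZMod.natCast_eq_zero_iff] at this
    exact hp2 ((Nat.prime_dvd_prime_iff_eq hp Nat.prime_two).mp this)
  obtain ⟨x, hx⟩ := ZMod.intCast_surjective ((s - B) / 2 : ZMod p)
  refine ⟨x, ?_⟩
  rw [← ZMod.intCast_zmod_eq_zero_iff_dvd]
  push_cast
  have h3 : (2 * (x : ZMod p) + B) ^ 2 = d := by
    rw [hx]
    have : 2 * ((s - B) / 2) + (B : ZMod p) = s := by
      field_simp
      ring
    rw [this, sq, ← hs]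
    push_cast
    rfl
  have h4 : ((d : ℕ) : ZMod p) = (B : ZMod p) ^ 2 + 4 * m := by
    have := congrArg (fun t : ℤ => (t : ZMod p)) hd
    push_cast at this
    exact this
  rw [h4] at h3
  have h5 : (4 : ZMod p) * ((x : ZMod p) ^ 2 + B * x - m) = 0 := by linear_combination h3
  have h6 : (4 : ZMod p) ≠ 0 := by
    have : (4 : ZMod p) = 2 * 2 := by norm_num
    rw [this]
    exact mul_ne_zero h2 h2
  exact (mul_eq_zero.mp h5).resolve_left h6

end

/-- `B` is odd when `d` is squarefree -/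
lemma B_odd {d B m : ℕ} (hd : d = B ^ 2 + 4 * m) (hsq : Squarefree d) : B % 2 = 1 := by
  by_contra h
  have h0 : B % 2 = 0 := by omega
  have h2 : 2 * 2 ∣ d := by
    obtain ⟨k, rfl⟩ := Nat.dvd_of_mod_eq_zero h0
    rw [hd]
    exact ⟨k ^ 2 + m, by ring⟩
  have := hsq 2 h2
  rw [Nat.isUnit_iff] at this
  omega

lemma d_mod_eight {d B m : ℕ} (hd : d = B ^ 2 + 4 * m) (hB : B % 2 = 1) :
    (m % 2 = 1 → d % 8 = 5) ∧ (m % 2 = 0 → d % 8 = 1) := by
  have h1 : B ^ 2 % 8 = 1 := by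
    have : B % 8 = 1 ∨ B % 8 = 3 ∨ B % 8 = 5 ∨ B % 8 = 7 := by omega
    rw [Nat.pow_mod]
    rcases this with h | h | h | h <;> rw [h]
  constructor <;> intro h <;> omega

/-- **T7** : small primes are inert -/
theorem small_primes_inert (a t d : ℕ) (ha : 1 ≤ a) (ht : 1 ≤ t)
    (hd : d = ((a ^ 2 + 1) * t + a) ^ 2 + 4 * (1 + a * t)) (hsq : Squarefree d)
    [IsDomain (QuadraticAlgebra ℤ ((1 + a * t : ℕ) : ℤ) (((a ^ 2 + 1) * t + a : ℕ) : ℤ))]
    [UniqueFactorizationMonoid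
      (QuadraticAlgebra ℤ ((1 + a * t : ℕ) : ℤ) (((a ^ 2 + 1) * t + a : ℕ) : ℤ))]
    (p : ℕ) (hp : p.Prime) (hpm : p < 1 + a * t) :
    (p ≠ 2 → jacobiSym d p = -1) ∧ (p = 2 → d % 8 = 5) := by
  have ha' : (1 : ℤ) ≤ a := by exact_mod_cast ha
  have ht' : (1 : ℤ) ≤ t := by exact_mod_cast ht
  have key : ∀ x : ℤ, ¬ (p : ℤ) ∣ x ^ 2 + (((a ^ 2 + 1) * t + a : ℕ) : ℤ) * x -
      ((1 + a * t : ℕ) : ℤ) := by
    intro x hx
    obtain ⟨π, hπ⟩ := exists_norm_of_root hp hx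
    have em : ((1 + a * t : ℕ) : ℤ) = 1 + (a : ℤ) * t := by push_cast; ring
    have eB : (((a ^ 2 + 1) * t + a : ℕ) : ℤ) = ((a : ℤ) ^ 2 + 1) * t + a := by push_cast; ring
    have : ∃ π : RC a t, π.norm.natAbs = p := by
      have h : ∃ π : QuadraticAlgebra ℤ ((1 + a * t : ℕ) : ℤ) (((a ^ 2 + 1) * t + a : ℕ) : ℤ),
        π.norm.natAbs = p := ⟨π, hπ⟩
      rw [em, eB] at h
      exact h
    obtain ⟨ρ, hρ⟩ := this
    have hne : ρ.norm ≠ 0 := by
      intro h
      rw [h] at hρ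
      exact hp.ne_zero (by simpa using hρ.symm)
    rcases norm_isSquare_or_ge a t ha' ht' ρ hne with h | h
    · rw [hρ] at h
      obtain ⟨r, hr⟩ := h
      exact hp.prime.irreducible.not_isSquare ⟨r, hr⟩
    · rw [hρ] at h
      have : 1 + a * t ≤ p := by exact_mod_cast h
      omega
  constructor
  · intro hp2
    by_contra hj
    have hd' : (d : ℤ) = (((a ^ 2 + 1) * t + a : ℕ) : ℤ) ^ 2 + 4 * ((1 + a * t : ℕ) : ℤ) := by
      rw [hd]; push_cast; ring
    obtain ⟨x, hx⟩ := exists_root_of_ne hd' hp hp2 hj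
    exact key x hx
  · rintro rfl
    have hB := B_odd hd hsq
    have h8 := d_mod_eight hd hB
    by_contra hd5
    have hm : (1 + a * t) % 2 = 0 := by
      by_contra h
      exact hd5 (h8.1 (by omega))
    apply key 0
    have h2 : (2 : ℤ) ∣ ((1 + a * t : ℕ) : ℤ) := by
      have : 2 ∣ (1 + a * t) := Nat.dvd_of_mod_eq_zero hm
      exact_mod_cast this
    have e : (0 : ℤ) ^ 2 + (((a ^ 2 + 1) * t + a : ℕ) : ℤ) * 0 - ((1 + a * t : ℕ) : ℤ) =
        - ((1 + a * t : ℕ) : ℤ) := by ring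
    rw [e]
    exact (dvd_neg).mpr (by exact_mod_cast h2)

/-- consequence : `d ≡ 5 mod 8` as soon as `m > 2` -/
theorem d_mod_eight_of_ufd (a t d : ℕ) (ha : 1 ≤ a) (ht : 1 ≤ t)
    (hd : d = ((a ^ 2 + 1) * t + a) ^ 2 + 4 * (1 + a * t)) (hsq : Squarefree d)
    [IsDomain (QuadraticAlgebra ℤ ((1 + a * t : ℕ) : ℤ) (((a ^ 2 + 1) * t + a : ℕ) : ℤ))]
    [UniqueFactorizationMonoid
      (QuadraticAlgebra ℤ ((1 + a * t : ℕ) : ℤ) (((a ^ 2 + 1) * t + a : ℕ) : ℤ))]
    (hm : 2 < 1 + a * t) :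
    d % 8 = 5 ∧ (1 + a * t) % 2 = 1 ∧ ((a ^ 2 + 1) * t + a) % 2 = 1 := by
  have h5 := (small_primes_inert a t d ha ht hd hsq 2 Nat.prime_two hm).2 rfl
  have hB := B_odd hd hsq
  have h8 := d_mod_eight hd hB
  refine ⟨h5, ?_, hB⟩
  by_contra h
  have := h8.2 (by omega)
  omega

end Pool.Agent.LibH4


end

section

/-!
The finite list of small parameters and the conclusion.
-/

namespace Pool.Agent.LibH4

open Cone

/-- no element of norm `13` for `d = 3293` -/
lemma no_norm_13 (π : QuadraticAlgebra ℤ ((1 + 5 * 2 : ℕ) : ℤ) (((5 ^ 2 + 1) * 2 + 5 : ℕ) : ℤ)) :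
    π.norm.natAbs ≠ 13 := by
  intro h
  obtain ⟨⟨f1, f2, f3⟩, hc⟩ := cone_count 5 2 13 (by norm_num) (by norm_num) (by norm_num)
  have hne : (SN ((1 + 5 * 2 : ℕ) : ℤ) (((5 ^ 2 + 1) * 2 + 5 : ℕ) : ℤ) 13).Nonempty :=
    ⟨Associates.mk π, h⟩
  have z1 : E1 5 2 13 = ∅ := by
    rw [Set.eq_empty_iff_forall_notMem]
    rintro ⟨x, y⟩ ⟨hx, hy, he⟩
    simp only at hx hy he
    push_cast at he
    have hyx : (y : ℤ) < 5 * x := by exact_mod_cast hy
    have hx1 : (1 : ℤ) ≤ x := by exact_mod_cast hx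
    have := form1_ge (a := 5) (t := 2) (by norm_num) (by norm_num) hx1 (by positivity) hyx
    have hx3 : x ≤ 3 := by
      by_contra hcon
      push Not at hcon
      have : (4 : ℤ) ≤ x := by exact_mod_cast hcon
      nlinarith
    interval_cases x <;> interval_cases y <;> norm_num at he
  have z2 : E2 5 2 13 = ∅ := by
    rw [Set.eq_empty_iff_forall_notMem]
    rintro ⟨x, y⟩ ⟨hx, hy, he⟩
    simp only at hx hy he
    push_cast at he
    have hyx : (y : ℤ) < ((5 ^ 2 + 1) * 2 + 5) * x := by exact_mod_cast hy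
    have := form2_ge (a := 5) (t := 2) (x := (x : ℤ)) (y := (y : ℤ)) (by positivity) hyx
    have hx3 : x ≤ 1 := by
      by_contra hcon
      push Not at hcon
      have : (2 : ℤ) ≤ x := by exact_mod_cast hcon
      nlinarith
    interval_cases x
    interval_cases y <;> norm_num at he
  have z3 : E3 5 2 13 = ∅ := by
    rw [Set.eq_empty_iff_forall_notMem]
    rintro ⟨x, y⟩ ⟨hx, hy, he⟩
    simp only at hx hy he
    push_cast at he
    have hyx : (y : ℤ) < 5 * x := by exact_mod_cast hy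
    have hx1 : (1 : ℤ) ≤ x := by exact_mod_cast hx
    have := form3_ge' (a := 5) (t := 2) (by norm_num) (by norm_num) hx1 (by positivity) hyx
    have hx3 : x ≤ 3 := by
      by_contra hcon
      push Not at hcon
      have : (4 : ℤ) ≤ x := by exact_mod_cast hcon
      nlinarith
    interval_cases x <;> interval_cases y <;> norm_num at he
  rw [z1, z2, z3, Set.ncard_empty] at hc
  have hfin : (SN ((1 + 5 * 2 : ℕ) : ℤ) (((5 ^ 2 + 1) * 2 + 5 : ℕ) : ℤ) 13).Finite := by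
    have e : SN (1 + (5 : ℤ) * 2) (((5 : ℤ) ^ 2 + 1) * 2 + 5) 13 =
      Associates.mk '' G (a := 5) (t := 2) (by norm_num) (by norm_num) 13 :=
      (image_G (a := 5) (t := 2) (by norm_num) (by norm_num) 13 (by norm_num)).symm
    have : (SN (1 + (5 : ℤ) * 2) (((5 : ℤ) ^ 2 + 1) * 2 + 5) 13).Finite := by
      rw [e, G_eq]
      exact ((((I1_finite (by norm_num) (by norm_num) 13).image _).union
        ((I2_finite (by norm_num) (by norm_num) 13).image _)).union
        ((I3_finite (by norm_num) (by norm_num) 13).image _)).image _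
    exact this
  have := (Set.ncard_pos hfin).mpr hne
  omega

/-- use of inertness of an odd prime -/
lemma use_odd (a t d : ℕ) (ha : 1 ≤ a) (ht : 1 ≤ t)
    (hd : d = ((a ^ 2 + 1) * t + a) ^ 2 + 4 * (1 + a * t)) (hsq : Squarefree d)
    [IsDomain (QuadraticAlgebra ℤ ((1 + a * t : ℕ) : ℤ) (((a ^ 2 + 1) * t + a : ℕ) : ℤ))]
    [UniqueFactorizationMonoid
      (QuadraticAlgebra ℤ ((1 + a * t : ℕ) : ℤ) (((a ^ 2 + 1) * t + a : ℕ) : ℤ))]
    (p : ℕ) (hp : p.Prime) (hpm : p < 1 + a * t) (hp2 : p ≠ 2)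
    (hj : jacobiSym ((((a ^ 2 + 1) * t + a) ^ 2 + 4 * (1 + a * t) : ℕ) : ℤ) p ≠ -1) : False := by
  have := (small_primes_inert a t d ha ht hd hsq p hp hpm).1 hp2
  rw [hd] at this
  exact hj this

/-- use of inertness of two -/
lemma use_two (a t d : ℕ) (ha : 1 ≤ a) (ht : 1 ≤ t)
    (hd : d = ((a ^ 2 + 1) * t + a) ^ 2 + 4 * (1 + a * t)) (hsq : Squarefree d)
    [IsDomain (QuadraticAlgebra ℤ ((1 + a * t : ℕ) : ℤ) (((a ^ 2 + 1) * t + a : ℕ) : ℤ))]
    [UniqueFactorizationMonoid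
      (QuadraticAlgebra ℤ ((1 + a * t : ℕ) : ℤ) (((a ^ 2 + 1) * t + a : ℕ) : ℤ))]
    (hpm : 2 < 1 + a * t) (hj : (1 + a * t) % 2 = 0) : False := by
  have := (d_mod_eight_of_ufd a t d ha ht hd hsq hpm).2.1
  omega

/-- the eleven pairs -/
def pairs : List (ℕ × ℕ) :=
  [(1, 1), (1, 2), (1, 4), (1, 6), (1, 12), (2, 1), (2, 3), (2, 5), (3, 2), (4, 1), (6, 1)]

lemma enum_pairs (a t : ℕ) (ha : 1 ≤ a) (ht : 1 ≤ t) (ha16 : a ≤ 16) (ht16 : t ≤ 16)
    (hm : 1 + a * t ≤ 17) (h2 : 2 < 1 + a * t)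
    (hB : ((a ^ 2 + 1) * t + a) % 2 = 1) (hmodd : (1 + a * t) % 2 = 1)
    (e55 : ¬ (a = 1 ∧ t = 8)) (e52 : ¬ (a = 5 ∧ t = 2))
    (h3 : 3 < 1 + a * t → jacobiSym ((((a ^ 2 + 1) * t + a) ^ 2 + 4 * (1 + a * t) : ℕ) : ℤ) 3 = -1)
    (h5 : 5 < 1 + a * t → jacobiSym ((((a ^ 2 + 1) * t + a) ^ 2 + 4 * (1 + a * t) : ℕ) : ℤ) 5 = -1)
    (h7 : 7 < 1 + a * t → jacobiSym ((((a ^ 2 + 1) * t + a) ^ 2 + 4 * (1 + a * t) : ℕ) : ℤ) 7 = -1)
    (h13 : 13 < 1 + a * t → jacobiSym ((((a ^ 2 + 1) * t + a) ^ 2 + 4 * (1 + a * t) : ℕ) : ℤ) 13 = -1) :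
    (a, t) ∈ pairs := by
  interval_cases a <;> interval_cases t <;> first
    | omega
    | decide
    | exact absurd ⟨rfl, rfl⟩ e55
    | exact absurd ⟨rfl, rfl⟩ e52
    | (exfalso; have := h3 (by norm_num); norm_num at this; done)
    | (exfalso; have := h5 (by norm_num); norm_num at this; done)
    | (exfalso; have := h7 (by norm_num); norm_num at this; done)
    | (exfalso; have := h13 (by norm_num); norm_num at this; done)

lemma small_case (a t d : ℕ) (ha : 1 ≤ a) (ht : 1 ≤ t)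
    (hd : d = ((a ^ 2 + 1) * t + a) ^ 2 + 4 * (1 + a * t)) (hsq : Squarefree d)
    [IsDomain (QuadraticAlgebra ℤ ((1 + a * t : ℕ) : ℤ) (((a ^ 2 + 1) * t + a : ℕ) : ℤ))]
    [UniqueFactorizationMonoid
      (QuadraticAlgebra ℤ ((1 + a * t : ℕ) : ℤ) (((a ^ 2 + 1) * t + a : ℕ) : ℤ))]
    (hm : 1 + a * t ≤ 17) : (a, t) ∈ pairs := by
  have hBodd := B_odd hd hsq
  have ha16 : a ≤ 16 := by nlinarith
  have ht16 : t ≤ 16 := by nlinarith
  by_cases h2 : 2 < 1 + a * t
  · have hmodd := (d_mod_eight_of_ufd a t d ha ht hd hsq h2).2.1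
    have e55 : ¬ (a = 1 ∧ t = 8) := by
      rintro ⟨rfl, rfl⟩
      have : 5 * 5 ∣ d := by rw [hd]; norm_num
      have := hsq 5 this
      norm_num at this
    have e52 : ¬ (a = 5 ∧ t = 2) := by
      rintro ⟨rfl, rfl⟩
      have hr : ((13 : ℕ) : ℤ) ∣ (3 : ℤ) ^ 2 + (((5 ^ 2 + 1) * 2 + 5 : ℕ) : ℤ) * 3 -
        ((1 + 5 * 2 : ℕ) : ℤ) := by norm_num
      obtain ⟨π, hπ⟩ := exists_norm_of_root (m := ((1 + 5 * 2 : ℕ) : ℤ))
        (B := (((5 ^ 2 + 1) * 2 + 5 : ℕ) : ℤ)) (p := 13) (by norm_num) hr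
      exact no_norm_13 π hπ
    have h3 : 3 < 1 + a * t → jacobiSym ((((a ^ 2 + 1) * t + a) ^ 2 + 4 * (1 + a * t) : ℕ) : ℤ) 3 = -1 := by
      intro h
      by_contra hne
      exact use_odd a t d ha ht hd hsq 3 (by norm_num) h (by norm_num) hne
    have h5 : 5 < 1 + a * t → jacobiSym ((((a ^ 2 + 1) * t + a) ^ 2 + 4 * (1 + a * t) : ℕ) : ℤ) 5 = -1 := by
      intro h
      by_contra hne
      exact use_odd a t d ha ht hd hsq 5 (by norm_num) h (by norm_num) hne
    have h7 : 7 < 1 + a * t → jacobiSym ((((a ^ 2 + 1) * t + a) ^ 2 + 4 * (1 + a * t) : ℕ) : ℤ) 7 = -1 := by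
      intro h
      by_contra hne
      exact use_odd a t d ha ht hd hsq 7 (by norm_num) h (by norm_num) hne
    have h13 : 13 < 1 + a * t → jacobiSym ((((a ^ 2 + 1) * t + a) ^ 2 + 4 * (1 + a * t) : ℕ) : ℤ) 13 = -1 := by
      intro h
      by_contra hne
      exact use_odd a t d ha ht hd hsq 13 (by norm_num) h (by norm_num) hne
    exact enum_pairs a t ha ht ha16 ht16 hm h2 hBodd hmodd e55 e52 h3 h5 h7 h13
  · have hat : a * t = 1 := by nlinarith
    have h1 : a = 1 := Nat.eq_one_of_mul_eq_one_right hat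
    have h1' : t = 1 := Nat.eq_one_of_mul_eq_one_left hat
    subst h1; subst h1'
    decide

end Pool.Agent.LibH4


end

section

/-!
Limits of Frullani type integrals depending on a parameter.
-/

namespace Pool.Agent.Lib_helper5

open Real MeasureTheory Set Filter Topology

lemma integrable_bd (C : ℝ) : IntegrableOn (fun X : ℝ => C * (1 / (1 + X ^ 2))) (Ioi 0) := by
  have h := (integrable_inv_one_add_sq).const_mul C
  refine (h.integrableOn).congr_fun ?_ measurableSet_Ioi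
  intro x _
  simp

lemma half_limit (Φ : ℝ → ℝ → ℝ) (Φ0 : ℝ → ℝ) (C a : ℝ)
    (hcont : ContinuousOn (fun p : ℝ × ℝ => Φ p.1 p.2) (Ioi 0 ×ˢ Ioi 0))
    (h1 : ∀ X, 0 < X → Tendsto (fun Y => Φ X Y) (𝓝[>] 0) (𝓝 (Φ0 X)))
    (hb : ∀ X Y, 0 < X → 0 < Y → Y ≤ X → Y ≤ 1 / X →
      |Φ X Y - Φ (2 * X) (2 * Y)| ≤ C * (X / (1 + X ^ 2)))
    (h0c : ContinuousOn Φ0 (Ioi 0))
    (h00 : Tendsto Φ0 (𝓝[>] 0) (𝓝 a)) (h0i : Tendsto Φ0 atTop (𝓝 0)) :
    Tendsto (fun τ => ∫ X in Ioi √τ, X⁻¹ * (Φ X (τ / X) - Φ (2 * X) (2 * (τ / X))))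
      (𝓝[>] 0) (𝓝 (log 2 * a)) := by
  -- bound of the limit function
  have hlim : ∀ X, 0 < X → Tendsto (fun Y => Φ X Y - Φ (2 * X) (2 * Y)) (𝓝[>] 0)
      (𝓝 (Φ0 X - Φ0 (2 * X))) := by
    intro X hX
    have h2 := h1 (2 * X) (by linarith)
    have h3 : Tendsto (fun Y : ℝ => 2 * Y) (𝓝[>] 0) (𝓝[>] 0) := by
      rw [tendsto_nhdsWithin_iff]
      constructor
      · have : Tendsto (fun Y : ℝ => 2 * Y) (𝓝 0) (𝓝 (2 * 0)) :=
          (continuous_const.mul continuous_id).tendsto 0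
        rw [mul_zero] at this
        exact this.mono_left nhdsWithin_le_nhds
      · filter_upwards [self_mem_nhdsWithin] with Y hY
        simp only [mem_Ioi] at hY ⊢
        linarith
    exact (h1 X hX).sub (h2.comp h3)
  have hbl : ∀ X, 0 < X → |Φ0 X - Φ0 (2 * X)| ≤ C * (X / (1 + X ^ 2)) := by
    intro X hX
    have h3 := (hlim X hX).abs
    refine le_of_tendsto h3 ?_
    have hmin : 0 < min X (1 / X) := lt_min hX (by positivity)
    have : Ioo 0 (min X (1 / X)) ∈ 𝓝[>] (0 : ℝ) := Ioo_mem_nhdsGT hmin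
    filter_upwards [this] with Y hY
    exact hb X Y hX hY.1 (hY.2.le.trans (min_le_left _ _)) (hY.2.le.trans (min_le_right _ _))
  have hint0 : IntegrableOn (fun X => X⁻¹ • (Φ0 (1 * X) - Φ0 (2 * X))) (Ioi 0) := by
    refine Integrable.mono' (integrable_bd C) ?_ ?_
    · apply ContinuousOn.aestronglyMeasurable _ measurableSet_Ioi
      simp only [smul_eq_mul]
      apply ContinuousOn.mul
      · exact continuousOn_inv₀.mono (fun x hx => ne_of_gt hx)
      · apply ContinuousOn.sub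
        · apply h0c.comp (by fun_prop)
          intro x hx
          simpa using hx
        · apply h0c.comp (by fun_prop)
          intro x hx
          simp only [mem_Ioi] at hx ⊢
          linarith
    · filter_upwards [ae_restrict_mem measurableSet_Ioi] with X hX
      have hX' : 0 < X := hX
      rw [one_mul, smul_eq_mul, norm_mul, Real.norm_eq_abs, Real.norm_eq_abs,
        abs_of_pos (inv_pos.2 hX')]
      calc X⁻¹ * |Φ0 X - Φ0 (2 * X)| ≤ X⁻¹ * (C * (X / (1 + X ^ 2))) := by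
            gcongr
            exact hbl X hX'
        _ = C * (1 / (1 + X ^ 2)) := by field_simp
  have hfr : ∫ X in Ioi (0:ℝ), X⁻¹ • (Φ0 (1 * X) - Φ0 (2 * X)) = log 2 * a := by
    have := Frullani.integral_Ioi_eq (f := Φ0) (a := 1) (b := 2) (L := a) (R := 0)
      (h0c.locallyIntegrableOn measurableSet_Ioi) (by norm_num) (by norm_num) h00 h0i hint0
    rw [this]
    simp
  rw [← hfr]
  have hconv : ∀ τ : ℝ, ∫ X in Ioi √τ, X⁻¹ * (Φ X (τ / X) - Φ (2 * X) (2 * (τ / X)))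
      = ∫ X in Ioi (0:ℝ), (Ioi √τ).indicator
        (fun X => X⁻¹ * (Φ X (τ / X) - Φ (2 * X) (2 * (τ / X)))) X := by
    intro τ
    rw [setIntegral_indicator measurableSet_Ioi]
    congr 2
    rw [inter_eq_right.2]
    exact Ioi_subset_Ioi (Real.sqrt_nonneg τ)
  simp_rw [hconv]
  have hev : ∀ᶠ τ : ℝ in 𝓝[>] 0, 0 < τ ∧ τ ≤ 1 := by
    filter_upwards [Ioo_mem_nhdsGT (zero_lt_one)] with τ hτ
    exact ⟨hτ.1, hτ.2.le⟩
  refine tendsto_integral_filter_of_dominated_convergence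
    (fun X : ℝ => C * (1 / (1 + X ^ 2))) ?_ ?_ (integrable_bd C) ?_
  · filter_upwards [hev] with τ hτ
    obtain ⟨hτ0, hτ1⟩ := hτ
    apply AEStronglyMeasurable.indicator _ measurableSet_Ioi
    apply ContinuousOn.aestronglyMeasurable _ measurableSet_Ioi
    apply ContinuousOn.mul
    · exact continuousOn_inv₀.mono (fun x hx => ne_of_gt hx)
    · have hd : ContinuousOn (fun X : ℝ => τ / X) (Ioi 0) :=
        continuousOn_const.div continuousOn_id (fun x hx => ne_of_gt hx)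
      apply ContinuousOn.sub
      · exact hcont.comp (continuousOn_id.prodMk hd)
          (fun x hx => ⟨hx, div_pos hτ0 hx⟩)
      · refine hcont.comp ((continuousOn_const.mul continuousOn_id).prodMk
          (continuousOn_const.mul hd)) (fun x hx => ?_)
        have hx' : 0 < x := hx
        have h7 : 0 < 2 * x := by linarith
        have h8 : 0 < 2 * (τ / x) := by positivity
        exact ⟨h7, h8⟩
  · filter_upwards [hev] with τ hτ
    obtain ⟨hτ0, hτ1⟩ := hτ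
    filter_upwards [ae_restrict_mem measurableSet_Ioi] with X hX
    have hX' : 0 < X := hX
    have hC0 : 0 ≤ C * (X / (1 + X ^ 2)) := (abs_nonneg _).trans (hbl X hX')
    have hC1 : C * (1 / (1 + X ^ 2)) = X⁻¹ * (C * (X / (1 + X ^ 2))) := by field_simp
    by_cases hXτ : X ∈ Ioi √τ
    · rw [indicator_of_mem hXτ, norm_mul, Real.norm_eq_abs, Real.norm_eq_abs,
        abs_of_pos (inv_pos.2 hX'), hC1]
      have hXτ' : √τ < X := hXτ
      gcongr
      apply hb X (τ / X) hX' (div_pos hτ0 hX')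
      · rw [div_le_iff₀ hX', ← Real.sqrt_le_sqrt_iff (by positivity), Real.sqrt_mul_self hX'.le]
        exact hXτ'.le
      · gcongr
    · rw [indicator_of_notMem hXτ, norm_zero, hC1]
      positivity
  · filter_upwards [ae_restrict_mem measurableSet_Ioi] with X hX
    have hX' : 0 < X := hX
    have h5 : Tendsto (fun τ : ℝ => τ / X) (𝓝[>] 0) (𝓝[>] 0) := by
      rw [tendsto_nhdsWithin_iff]
      constructor
      · have : Tendsto (fun Y : ℝ => Y / X) (𝓝 0) (𝓝 (0 / X)) :=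
          (continuous_id.div_const X).tendsto 0
        rw [zero_div] at this
        exact this.mono_left nhdsWithin_le_nhds
      · filter_upwards [self_mem_nhdsWithin] with Y hY
        simp only [mem_Ioi] at hY ⊢
        positivity
    have h6 := ((hlim X hX').comp h5).const_mul X⁻¹
    rw [one_mul, smul_eq_mul]
    refine h6.congr' ?_
    have : Ioo 0 (X ^ 2) ∈ 𝓝[>] (0 : ℝ) := Ioo_mem_nhdsGT (by positivity)
    filter_upwards [this] with τ hτ
    have hXτ : X ∈ Ioi √τ := by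
      simp only [mem_Ioi]
      rw [Real.sqrt_lt' hX']
      exact hτ.2
    rw [indicator_of_mem hXτ]
    rfl

/-- Inversion `X ↦ τ / X` on `(0,∞)`. -/
lemma integral_comp_div_Ioi (g : ℝ → ℝ) (τ : ℝ) (hτ : 0 < τ) :
    ∫ x in Ioi (0:ℝ), (τ / x ^ 2) * g (τ / x) = ∫ y in Ioi (0:ℝ), g y := by
  have h1 := integral_comp_rpow_Ioi (fun y => τ * g (τ * y)) (p := -1) (by norm_num)
  have h2 := integral_comp_mul_left_Ioi g 0 hτ
  rw [mul_zero] at h2
  rw [integral_const_mul, h2] at h1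
  simp only [smul_eq_mul] at h1
  rw [← mul_assoc, mul_inv_cancel₀ hτ.ne', one_mul] at h1
  rw [← h1]
  apply setIntegral_congr_fun measurableSet_Ioi
  intro x hx
  have hx' : 0 < x := hx
  simp only
  rw [Real.rpow_neg_one]
  have : x ^ ((-1:ℝ) - 1) = (x ^ 2)⁻¹ := by
    rw [show ((-1:ℝ) - 1) = -(2:ℕ) by norm_num, Real.rpow_neg hx'.le, Real.rpow_natCast]
  rw [this]
  simp
  ring_nf

lemma full_limit (Φ : ℝ → ℝ → ℝ) (Φ1 Φ2 : ℝ → ℝ) (C a1 a2 : ℝ)
    (hcont : ContinuousOn (fun p : ℝ × ℝ => Φ p.1 p.2) (Ioi 0 ×ˢ Ioi 0))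
    (h1 : ∀ X, 0 < X → Tendsto (fun Y => Φ X Y) (𝓝[>] 0) (𝓝 (Φ1 X)))
    (h2 : ∀ Y, 0 < Y → Tendsto (fun X => Φ X Y) (𝓝[>] 0) (𝓝 (Φ2 Y)))
    (hb1 : ∀ X Y, 0 < X → 0 < Y → Y ≤ X → Y ≤ 1 / X →
      |Φ X Y - Φ (2 * X) (2 * Y)| ≤ C * (X / (1 + X ^ 2)))
    (hb2 : ∀ X Y, 0 < X → 0 < Y → X ≤ Y → X ≤ 1 / Y →
      |Φ X Y - Φ (2 * X) (2 * Y)| ≤ C * (Y / (1 + Y ^ 2)))
    (h1c : ContinuousOn Φ1 (Ioi 0)) (h2c : ContinuousOn Φ2 (Ioi 0))
    (h10 : Tendsto Φ1 (𝓝[>] 0) (𝓝 a1)) (h1i : Tendsto Φ1 atTop (𝓝 0))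
    (h20 : Tendsto Φ2 (𝓝[>] 0) (𝓝 a2)) (h2i : Tendsto Φ2 atTop (𝓝 0)) :
    Tendsto (fun τ => ∫ X in Ioi (0:ℝ), X⁻¹ * (Φ X (τ / X) - Φ (2 * X) (2 * (τ / X))))
      (𝓝[>] 0) (𝓝 (log 2 * (a1 + a2))) := by
  have H1 := half_limit Φ Φ1 C a1 hcont h1 hb1 h1c h10 h1i
  have hcont' : ContinuousOn (fun p : ℝ × ℝ => Φ p.2 p.1) (Ioi 0 ×ˢ Ioi 0) := by
    refine hcont.comp (continuous_swap.continuousOn) ?_
    intro p hp
    exact ⟨hp.2, hp.1⟩
  have H2 := half_limit (fun X Y => Φ Y X) Φ2 C a2 hcont' h2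
    (fun X Y hX hY h3 h4 => hb2 Y X hY hX h3 h4) h2c h20 h2i
  have H := H2.add H1
  rw [← mul_add, add_comm a2 a1] at H
  refine H.congr' ?_
  filter_upwards [Ioo_mem_nhdsGT (zero_lt_one)] with τ hτ
  have hτ0 : 0 < τ := hτ.1
  have hτ1 : τ ≤ 1 := hτ.2.le
  have hs0 : 0 < √τ := Real.sqrt_pos.2 hτ0
  set h : ℝ → ℝ := fun X => X⁻¹ * (Φ X (τ / X) - Φ (2 * X) (2 * (τ / X))) with hh
  have hcont3 : ContinuousOn h (Ioi 0) := by
    apply ContinuousOn.mul
    · exact continuousOn_inv₀.mono (fun x hx => ne_of_gt hx)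
    · have hd : ContinuousOn (fun X : ℝ => τ / X) (Ioi 0) :=
        continuousOn_const.div continuousOn_id (fun x hx => ne_of_gt hx)
      apply ContinuousOn.sub
      · exact hcont.comp (continuousOn_id.prodMk hd)
          (fun x hx => ⟨hx, div_pos hτ0 hx⟩)
      · refine hcont.comp ((continuousOn_const.mul continuousOn_id).prodMk
          (continuousOn_const.mul hd)) (fun x hx => ?_)
        have hx' : 0 < x := hx
        have h7 : 0 < 2 * x := by linarith
        have h8 : 0 < 2 * (τ / x) := by positivity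
        exact ⟨h7, h8⟩
  have hI1 : IntegrableOn h (Ioi √τ) := by
    have hsub : Ioi √τ ⊆ Ioi 0 := Ioi_subset_Ioi hs0.le
    refine Integrable.mono' ((integrable_bd C).mono_set hsub) ?_ ?_
    · exact (hcont3.mono hsub).aestronglyMeasurable measurableSet_Ioi
    · filter_upwards [ae_restrict_mem measurableSet_Ioi] with X hX
      have hX1 : √τ < X := hX
      have hX' : 0 < X := hs0.trans hX1
      rw [hh, norm_mul, Real.norm_eq_abs, Real.norm_eq_abs, abs_of_pos (inv_pos.2 hX')]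
      have hC1 : C * (1 / (1 + X ^ 2)) = X⁻¹ * (C * (X / (1 + X ^ 2))) := by field_simp
      rw [hC1]
      gcongr
      apply hb1 X (τ / X) hX' (div_pos hτ0 hX')
      · rw [div_le_iff₀ hX', ← Real.sqrt_le_sqrt_iff (by positivity), Real.sqrt_mul_self hX'.le]
        exact hX1.le
      · gcongr
  have hI2 : IntegrableOn h (Ioc 0 √τ) := by
    have hC0 : 0 ≤ C := by
      have := (abs_nonneg _).trans (hb1 1 1 one_pos one_pos le_rfl (by norm_num))
      norm_num at this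
      linarith
    have hci : IntegrableOn (fun _ : ℝ => C / τ) (Ioc 0 √τ) := by
      exact integrableOn_const (by simp) (by simp)
    refine Integrable.mono' hci ?_ ?_
    · exact (hcont3.mono (fun x hx => hx.1)).aestronglyMeasurable measurableSet_Ioc
    · filter_upwards [ae_restrict_mem measurableSet_Ioc] with X hX
      have hX' : 0 < X := hX.1
      rw [hh, norm_mul, Real.norm_eq_abs, Real.norm_eq_abs, abs_of_pos (inv_pos.2 hX')]
      have h3 : |Φ X (τ / X) - Φ (2 * X) (2 * (τ / X))|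
          ≤ C * ((τ / X) / (1 + (τ / X) ^ 2)) := by
        apply hb2 X (τ / X) hX' (div_pos hτ0 hX')
        · rw [le_div_iff₀ hX', ← Real.sqrt_le_sqrt_iff hτ0.le, Real.sqrt_mul_self hX'.le]
          exact hX.2
        · rw [one_div_div]
          rw [le_div_iff₀ hτ0]
          nlinarith
      calc X⁻¹ * |Φ X (τ / X) - Φ (2 * X) (2 * (τ / X))|
          ≤ X⁻¹ * (C * ((τ / X) / (1 + (τ / X) ^ 2))) := by gcongr
        _ ≤ X⁻¹ * (C * (X / τ)) := by
            have h9 : (τ / X) / (1 + (τ / X) ^ 2) ≤ X / τ := by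
              rw [div_le_div_iff₀ (by positivity) hτ0]
              have : (τ / X) * τ = X * (τ / X) ^ 2 := by field_simp
              rw [this]
              nlinarith
            exact mul_le_mul_of_nonneg_left (mul_le_mul_of_nonneg_left h9 hC0)
              (inv_nonneg.2 hX'.le)
        _ = C / τ := by field_simp
  have hsplit : ∫ X in Ioi (0:ℝ), h X = (∫ X in Ioc 0 √τ, h X) + ∫ X in Ioi √τ, h X := by
    rw [← setIntegral_union _ measurableSet_Ioi hI2 hI1, Ioc_union_Ioi_eq_Ioi hs0.le]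
    exact Set.disjoint_left.2 (fun x hx hx2 => not_lt.2 hx.2 hx2)
  rw [hsplit]
  congr 1
  -- the substitution
  have h4 : ∫ X in Ioc 0 √τ, h X = ∫ y in Ioi (0:ℝ), (Ioc 0 √τ).indicator h y := by
    rw [setIntegral_indicator measurableSet_Ioc]
    congr 2
    rw [inter_eq_right.2]
    intro x hx
    exact hx.1
  rw [h4, ← integral_comp_div_Ioi _ τ hτ0]
  have h5 : ∀ X ∈ Ioi (0:ℝ), τ / X ^ 2 * (Ioc 0 √τ).indicator h (τ / X) = (Ici √τ).indicator
      (fun X => X⁻¹ * (Φ (τ / X) X - Φ (2 * (τ / X)) (2 * X))) X := by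
    intro X hX
    have hX' : 0 < X := hX
    have hmem : τ / X ∈ Ioc 0 √τ ↔ X ∈ Ici √τ := by
      rw [mem_Ioc, mem_Ici]
      have e : √τ * √τ = τ := Real.mul_self_sqrt hτ0.le
      constructor
      · rintro ⟨_, h7⟩
        rw [div_le_iff₀ hX'] at h7
        nlinarith
      · intro h7
        refine ⟨div_pos hτ0 hX', ?_⟩
        rw [div_le_iff₀ hX']
        nlinarith
    by_cases hm : X ∈ Ici √τ
    · rw [indicator_of_mem hm, indicator_of_mem (hmem.2 hm), hh]
      simp only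
      have e1 : τ / (τ / X) = X := by field_simp
      rw [e1]
      field_simp
    · rw [indicator_of_notMem hm, indicator_of_notMem (fun h8 => hm (hmem.1 h8)), mul_zero]
  rw [setIntegral_congr_fun measurableSet_Ioi h5, setIntegral_indicator measurableSet_Ici,
    inter_eq_right.2 (Ici_subset_Ioi.2 hs0), integral_Ici_eq_integral_Ioi]

end Pool.Agent.Lib_helper5


end
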