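import Mathlib
import Pool.Agent.RQM.C04

/-! Parts: Lib_helper4.FactDefs, Lib_helper4.Quad, Lib_helper4.Descent, Lib_helper4.ElevenFields, Lib_helper4.E4Par, Lib_helper4.Genus4, Lib_helper4.FieldsU -/

namespace Pool.Agent.LibH4
end Pool.Agent.LibH4
namespace Pool.Agent.Lib_helper5
end Pool.Agent.Lib_helper5

section

/-!
Shared definitions for the hand-ins on real quadratic fields with unique factorisation.
-/

namespace Pool.Agent.LibH4

/-- The real quadratic field `K_d = ℚ(√d)`, as a subfield of `ℝ`. -/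
noncomputable abbrev KQ (d : ℕ) : IntermediateField ℚ ℝ :=
  IntermediateField.adjoin ℚ {Real.sqrt (d : ℝ)}

/-- `a` factors uniquely: `a` is, up to a unit, a finite product of irreducible elements, and any two
such factorisations of `a` agree up to order and units. -/
def FactorsUniquely {R : Type*} [CommRing R] (a : R) : Prop :=
  (∃ f : Multiset R, (∀ x ∈ f, Irreducible x) ∧ Associated f.prod a) ∧
    ∀ f g : Multiset R, (∀ x ∈ f, Irreducible x) → (∀ x ∈ g, Irreducible x) →
      Associated f.prod a → Associated g.prod a → Multiset.Rel Associated f g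

end Pool.Agent.LibH4


end

section

/-!
Ring of integers of the real quadratic field `ℚ(√d) ⊂ ℝ`, `d > 1` squarefree.
-/

namespace Pool.Agent.LibH4

open scoped NumberField

/-- `√d` as an element of `ℚ(√d)`. -/
noncomputable def rt (d : ℕ) : KQ d :=
  ⟨Real.sqrt (d : ℝ), IntermediateField.mem_adjoin_simple_self ℚ _⟩

lemma rt_mul_rt (d : ℕ) : rt d * rt d = (d : KQ d) := by
  apply Subtype.ext
  simp [rt]

lemma coe_rt (d : ℕ) : ((rt d : KQ d) : ℝ) = Real.sqrt d := rfl

lemma irrational_sqrt {d : ℕ} (hd : Squarefree d) (h1 : 1 < d) : Irrational (Real.sqrt (d : ℝ)) := by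
  rw [irrational_sqrt_natCast_iff]
  rintro ⟨k, hk⟩
  have hk' : k * k ∣ d := ⟨1, by simpa using hk⟩
  have := hd k hk'
  rw [Nat.isUnit_iff] at this
  subst this
  omega

/-- the algebra map `ℚ[ω]/(ω² - d) → ℚ(√d)` -/
noncomputable def toK (d : ℕ) : QuadraticAlgebra ℚ (d : ℚ) 0 →ₐ[ℚ] KQ d :=
  QuadraticAlgebra.lift ⟨rt d, by
    rw [rt_mul_rt]; simp [Algebra.smul_def]⟩

lemma toK_apply (d : ℕ) (z : QuadraticAlgebra ℚ (d : ℚ) 0) :
    toK d z = (z.re : KQ d) + (z.im : KQ d) * rt d := by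
  simp [toK, QuadraticAlgebra.lift, Algebra.smul_def]

lemma coe_toK (d : ℕ) (z : QuadraticAlgebra ℚ (d : ℚ) 0) :
    ((toK d z : KQ d) : ℝ) = (z.re : ℝ) + (z.im : ℝ) * Real.sqrt d := by
  rw [toK_apply]; simp [coe_rt]

lemma toK_injective {d : ℕ} (hd : Squarefree d) (h1 : 1 < d) : Function.Injective (toK d) := by
  rw [injective_iff_map_eq_zero]
  intro z hz
  have h := congrArg (fun x : KQ d => (x : ℝ)) hz
  simp only [coe_toK, ZeroMemClass.coe_zero] at h
  have hirr := irrational_sqrt hd h1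
  have him : z.im = 0 := by
    by_contra hne
    apply hirr
    refine ⟨-z.re / z.im, ?_⟩
    have : (z.im : ℝ) ≠ 0 := by exact_mod_cast hne
    push_cast
    field_simp
    linarith
  have hre : z.re = 0 := by
    rw [him] at h
    simp at h
    exact_mod_cast h
  ext <;> simp [him, hre]

lemma isIntegral_sqrt (d : ℕ) : IsIntegral ℚ (Real.sqrt (d : ℝ)) := by
  refine ⟨Polynomial.X ^ 2 - Polynomial.C (d : ℚ), ?_, ?_⟩
  · exact Polynomial.monic_X_pow_sub_C _ (by norm_num)
  · simp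

lemma exists_toK_of_mem_adjoin (d : ℕ) (x : ℝ) (hx : x ∈ Algebra.adjoin ℚ {Real.sqrt (d : ℝ)}) :
    ∃ z : QuadraticAlgebra ℚ (d : ℚ) 0, ((toK d z : KQ d) : ℝ) = x := by
  induction hx using Algebra.adjoin_induction with
  | mem x hx =>
    refine ⟨⟨0, 1⟩, ?_⟩
    rw [coe_toK]
    simp only [Set.mem_singleton_iff] at hx
    simp [hx]
  | algebraMap r =>
    refine ⟨⟨r, 0⟩, ?_⟩
    rw [coe_toK]
    simp
  | add x y hx hy ihx ihy =>
    obtain ⟨a, ha⟩ := ihx
    obtain ⟨b, hb⟩ := ihy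
    exact ⟨a + b, by rw [map_add]; push_cast; rw [ha, hb]⟩
  | mul x y hx hy ihx ihy =>
    obtain ⟨a, ha⟩ := ihx
    obtain ⟨b, hb⟩ := ihy
    exact ⟨a * b, by rw [map_mul]; push_cast; rw [ha, hb]⟩

lemma toK_surjective (d : ℕ) : Function.Surjective (toK d) := by
  rintro ⟨x, hx⟩
  have hx' : x ∈ Algebra.adjoin ℚ {Real.sqrt (d : ℝ)} := by
    rw [← IntermediateField.adjoin_simple_toSubalgebra_of_isAlgebraic
      (isIntegral_sqrt d).isAlgebraic]
    exact hx
  obtain ⟨z, hz⟩ := exists_toK_of_mem_adjoin d x hx'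
  exact ⟨z, Subtype.ext hz⟩

/-- `ℚ[ω]/(ω² - d) ≃ ℚ(√d)`. -/
noncomputable def eqvK {d : ℕ} (hd : Squarefree d) (h1 : 1 < d) :
    QuadraticAlgebra ℚ (d : ℚ) 0 ≃ₐ[ℚ] KQ d :=
  AlgEquiv.ofBijective (toK d) ⟨toK_injective hd h1, toK_surjective d⟩

lemma norm_quadAlg (a b : ℚ) (z : QuadraticAlgebra ℚ a b) :
    Algebra.norm ℚ z = z.norm := by
  rw [Algebra.norm_apply, ← QuadraticAlgebra.det_toLinearMap_eq_norm]
  rfl

lemma norm_toK {d : ℕ} (hd : Squarefree d) (h1 : 1 < d) (z : QuadraticAlgebra ℚ (d : ℚ) 0) :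
    Algebra.norm ℚ (toK d z) = z.re ^ 2 - d * z.im ^ 2 := by
  have := Algebra.norm_eq_of_algEquiv (eqvK hd h1) z
  rw [norm_quadAlg] at this
  have h2 : eqvK hd h1 z = toK d z := rfl
  rw [← h2, this, QuadraticAlgebra.norm_def]
  simp; ring

lemma rat_int_of_sq_mul {d : ℕ} (hd : Squarefree d) (q : ℚ) (m : ℤ) (h : q ^ 2 * d = m) :
    ∃ u : ℤ, q = u := by
  have hden : (q.den : ℤ) ≠ 0 := by exact_mod_cast q.den_ne_zero
  have h1 : q.num ^ 2 * (d : ℤ) = m * (q.den : ℤ) ^ 2 := by
    have hq : q = q.num / q.den := (Rat.num_div_den q).symm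
    have hden' : (q.den : ℚ) ≠ 0 := by exact_mod_cast q.den_ne_zero
    rw [hq] at h
    field_simp at h
    have h' : (q.num : ℚ) ^ 2 * d = m * (q.den : ℚ) ^ 2 := by linarith
    exact_mod_cast h'
  have hcop : IsCoprime ((q.den : ℤ) ^ 2) (q.num ^ 2) := by
    apply IsCoprime.pow
    rw [Int.isCoprime_iff_nat_coprime]
    simpa using q.reduced.symm
  have hdvd : ((q.den : ℤ) ^ 2) ∣ (d : ℤ) := by
    apply hcop.dvd_of_dvd_mul_left
    rw [h1]
    exact Dvd.intro_left m rfl
  have hdvd' : q.den * q.den ∣ d := by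
    have : ((q.den * q.den : ℕ) : ℤ) ∣ (d : ℤ) := by
      push_cast
      rw [← sq]
      exact hdvd
    exact_mod_cast this
  have hu := hd _ hdvd'
  rw [Nat.isUnit_iff] at hu
  refine ⟨q.num, ?_⟩
  have hq : q = q.num / q.den := (Rat.num_div_den q).symm
  rw [hu] at hq
  simpa using hq

lemma int_of_isIntegral {K : Type*} [Field K] [CharZero K] (q : ℚ) (h : IsIntegral ℤ (q : K)) :
    ∃ m : ℤ, q = m := by
  have h2 : IsIntegral ℤ (algebraMap ℚ K q) := by simpa using h
  rw [isIntegral_algebraMap_iff (algebraMap ℚ K).injective] at h2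
  obtain ⟨m, hm⟩ := IsIntegrallyClosed.isIntegral_iff.mp h2
  exact ⟨m, by simpa using hm.symm⟩

instance finiteDimensional_KQ (d : ℕ) : FiniteDimensional ℚ (KQ d) :=
  IntermediateField.adjoin.finiteDimensional (isIntegral_sqrt d)

instance numberField_KQ (d : ℕ) : NumberField (KQ d) where
  to_charZero := inferInstance
  to_finiteDimensional := finiteDimensional_KQ d

lemma integral_norm {d : ℕ} (hd : Squarefree d) (h1 : 1 < d) (z : QuadraticAlgebra ℚ (d : ℚ) 0)
    (hz : IsIntegral ℤ (toK d z)) : ∃ m : ℤ, z.re ^ 2 - d * z.im ^ 2 = m := by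
  have h := Algebra.isIntegral_norm ℚ hz
  rw [norm_toK hd h1] at h
  obtain ⟨m, hm⟩ := IsIntegrallyClosed.isIntegral_iff.mp h
  exact ⟨m, by simpa using hm.symm⟩

lemma integral_coords {d : ℕ} (hd : Squarefree d) (h1 : 1 < d) (z : QuadraticAlgebra ℚ (d : ℚ) 0)
    (hz : IsIntegral ℤ (toK d z)) : ∃ s u t : ℤ, 2 * z.re = s ∧ 2 * z.im = u ∧
      s ^ 2 - d * u ^ 2 = 4 * t := by
  obtain ⟨t, ht⟩ := integral_norm hd h1 z hz
  have hz1 : IsIntegral ℤ (toK d (1 + z)) := by
    rw [map_add, map_one]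
    exact isIntegral_one.add hz
  obtain ⟨t', ht'⟩ := integral_norm hd h1 (1 + z) hz1
  have hs : 2 * z.re = ((t' - 1 - t : ℤ) : ℚ) := by
    have e1 : (1 + z).re = 1 + z.re := by simp [QuadraticAlgebra.re_one]
    have e2 : (1 + z).im = z.im := by simp [QuadraticAlgebra.im_one]
    rw [e1, e2] at ht'
    push_cast
    rw [← ht, ← ht']
    ring
  have hu : (2 * z.im) ^ 2 * d = (((t' - 1 - t) ^ 2 - 4 * t : ℤ) : ℚ) := by
    push_cast
    push_cast at hs
    rw [← hs, ← ht]
    ring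
  obtain ⟨u, hu'⟩ := rat_int_of_sq_mul hd _ _ hu
  refine ⟨t' - 1 - t, u, t, hs, hu', ?_⟩
  have : (((t' - 1 - t) ^ 2 - d * u ^ 2 : ℤ) : ℚ) = ((4 * t : ℤ) : ℚ) := by
    push_cast
    push_cast at hs
    rw [← hs, ← hu', ← ht]
    ring
  exact_mod_cast this

/-- constant coefficient data of the ring of integers: `θ² = A d + B d * θ`. -/
def Bq (d : ℕ) : ℤ := if d % 4 = 1 then 1 else 0

/-- see `Bq` -/
def Aq (d : ℕ) : ℤ := if d % 4 = 1 then ((d : ℤ) - 1) / 4 else d

/-- discriminant -/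
def Dq (d : ℕ) : ℤ := if d % 4 = 1 then d else 4 * d

lemma Bq_Aq (d : ℕ) : (Bq d) ^ 2 + 4 * Aq d = Dq d := by
  unfold Bq Aq Dq
  split_ifs with h
  · have : (4 : ℤ) ∣ (d : ℤ) - 1 := by omega
    have := Int.mul_ediv_cancel' this
    linarith
  · ring

/-- The generator `θ` of the ring of integers as an element of `ℚ[ω]/(ω²-d)`. -/
def thq (d : ℕ) : QuadraticAlgebra ℚ (d : ℚ) 0 := if d % 4 = 1 then ⟨1/2, 1/2⟩ else ⟨0, 1⟩

lemma thq_mul (d : ℕ) : thq d * thq d = (Aq d : ℚ) • (1 : QuadraticAlgebra ℚ (d : ℚ) 0) + (Bq d : ℚ) • thq d := by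
  unfold thq Aq Bq
  split_ifs with h
  · have h4 : (4 : ℤ) ∣ (d : ℤ) - 1 := by omega
    obtain ⟨k, hk⟩ := h4
    have hk' : (d : ℚ) = 4 * k + 1 := by
      have : (d : ℤ) = 4 * k + 1 := by omega
      exact_mod_cast this
    rw [hk, Int.mul_ediv_cancel_left _ (by norm_num)]
    ext
    · simp [hk', QuadraticAlgebra.re_one]; ring
    · simp [QuadraticAlgebra.im_one]; norm_num
  · ext <;> simp [QuadraticAlgebra.re_one, QuadraticAlgebra.im_one]

lemma thK_mul (d : ℕ) : toK d (thq d) * toK d (thq d) =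
    (Aq d : ℤ) • (1 : KQ d) + (Bq d : ℤ) • toK d (thq d) := by
  rw [← map_mul, thq_mul, map_add, map_smul, map_smul, map_one]
  simp [Algebra.smul_def]

lemma isIntegral_thK (d : ℕ) : IsIntegral ℤ (toK d (thq d)) := by
  refine ⟨Polynomial.X ^ 2 - (Polynomial.C (Bq d) * Polynomial.X + Polynomial.C (Aq d)), ?_, ?_⟩
  · apply Polynomial.monic_X_pow_sub
    exact lt_of_le_of_lt Polynomial.degree_linear_le (by norm_num)
  · simp only [Polynomial.eval₂_sub, Polynomial.eval₂_add, Polynomial.eval₂_mul,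
      Polynomial.eval₂_pow, Polynomial.eval₂_X, Polynomial.eval₂_C]
    rw [sq, thK_mul]
    simp [Algebra.smul_def]
    ring

/-- `θ` in the ring of integers -/
noncomputable def thO (d : ℕ) : 𝓞 (KQ d) := ⟨toK d (thq d), isIntegral_thK d⟩

lemma coe_thO (d : ℕ) : algebraMap (𝓞 (KQ d)) (KQ d) (thO d) = toK d (thq d) := rfl

/-- The concrete model of the ring of integers `ℤ[θ]`. -/
abbrev QI (d : ℕ) := QuadraticAlgebra ℤ (Aq d) (Bq d)

/-- the comparison map -/
noncomputable def toO (d : ℕ) : QI d →ₐ[ℤ] 𝓞 (KQ d) :=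
  QuadraticAlgebra.lift ⟨thO d, by
    apply NumberField.RingOfIntegers.coe_injective
    have := thK_mul d
    simp only [zsmul_eq_mul, mul_one] at this ⊢
    rw [map_mul, map_add, map_mul, map_intCast, map_intCast, coe_thO]
    exact this⟩

lemma toO_apply (d : ℕ) (z : QI d) :
    algebraMap (𝓞 (KQ d)) (KQ d) (toO d z) = (z.re : KQ d) + (z.im : KQ d) * toK d (thq d) := by
  have h : toO d z = (z.re : 𝓞 (KQ d)) + (z.im : 𝓞 (KQ d)) * thO d := by
    simp [toO, QuadraticAlgebra.lift, Algebra.smul_def]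
  rw [h, map_add, map_mul, map_intCast, map_intCast, coe_thO]

/-- rational coordinates of an element of `QI d` -/
def toQ (d : ℕ) (z : QI d) : QuadraticAlgebra ℚ (d : ℚ) 0 :=
  QuadraticAlgebra.mk (z.re : ℚ) 0 + (z.im : ℚ) • thq d

lemma toO_eq (d : ℕ) (z : QI d) :
    algebraMap (𝓞 (KQ d)) (KQ d) (toO d z) = toK d (toQ d z) := by
  have h : toK d (QuadraticAlgebra.mk (z.re : ℚ) 0) = (z.re : KQ d) := by
    rw [toK_apply]; simp
  rw [toO_apply, toQ, map_add, map_smul, h]
  simp [Algebra.smul_def]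

lemma norm_toO {d : ℕ} (hd : Squarefree d) (h1 : 1 < d) (z : QI d) :
    Algebra.norm ℚ (algebraMap (𝓞 (KQ d)) (KQ d) (toO d z)) = (z.norm : ℚ) := by
  rw [toO_eq, norm_toK hd h1, QuadraticAlgebra.norm_def]
  unfold toQ thq
  by_cases h : d % 4 = 1
  · obtain ⟨k, hk⟩ : (4 : ℤ) ∣ (d : ℤ) - 1 := by omega
    have hk' : (d : ℚ) = 4 * k + 1 := by
      have : (d : ℤ) = 4 * k + 1 := by omega
      exact_mod_cast this
    have hA : ((Aq d : ℤ) : ℚ) = k := by simp [Aq, h, hk]
    have hB : ((Bq d : ℤ) : ℚ) = 1 := by simp [Bq, h]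
    push_cast
    rw [hA, hB]
    simp [h, hk']
    ring
  · have hA : ((Aq d : ℤ) : ℚ) = d := by simp [Aq, h]
    have hB : ((Bq d : ℤ) : ℚ) = 0 := by simp [Bq, h]
    push_cast
    rw [hA, hB]
    simp [h]
    ring

lemma toO_injective {d : ℕ} (hd : Squarefree d) (h1 : 1 < d) : Function.Injective (toO d) := by
  rw [injective_iff_map_eq_zero]
  intro z hz
  have h : toK d (toQ d z) = 0 := by rw [← toO_eq, hz]; simp
  have h' : toQ d z = 0 := toK_injective hd h1 (by rw [h, map_zero])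
  have hre := congrArg QuadraticAlgebra.re h'
  have him := congrArg QuadraticAlgebra.im h'
  unfold toQ thq at hre him
  by_cases hm : d % 4 = 1
  · simp [hm] at hre him
    rw [him] at hre
    simp at hre
    ext <;> simp [him, hre]
  · simp [hm] at hre him
    ext <;> simp [him, hre]

lemma toO_surjective {d : ℕ} (hd : Squarefree d) (h1 : 1 < d) : Function.Surjective (toO d) := by
  intro x
  obtain ⟨z, hz⟩ := toK_surjective d (algebraMap (𝓞 (KQ d)) (KQ d) x)
  have hint : IsIntegral ℤ (toK d z) := by rw [hz]; exact x.isIntegral_coe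
  obtain ⟨s, u, t, hs, hu, ht⟩ := integral_coords hd h1 z hint
  have hre : z.re = s / 2 := by linarith
  have him : z.im = u / 2 := by linarith
  by_cases hm : d % 4 = 1
  · have hpar : (2 : ℤ) ∣ s - u := by
      obtain ⟨k, hk⟩ : (4 : ℤ) ∣ (d : ℤ) - 1 := by omega
      have hd' : (d : ℤ) = 4 * k + 1 := by omega
      rw [hd'] at ht
      have h2 : (2 : ℤ) ∣ (s - u) * (s + u) := ⟨2 * (t + k * u ^ 2), by linarith⟩
      rcases Int.Prime.dvd_mul' Nat.prime_two h2 with h3 | h3
      · exact h3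
      · have : s - u = (s + u) - 2 * u := by ring
        rw [this]
        exact dvd_sub h3 (dvd_mul_right _ _)
    obtain ⟨w, hw⟩ := hpar
    refine ⟨⟨w, u⟩, ?_⟩
    apply NumberField.RingOfIntegers.coe_injective
    rw [toO_eq, ← hz]
    congr 1
    have hs' : (s : ℚ) = 2 * w + u := by
      have : s = 2 * w + u := by linarith
      exact_mod_cast this
    ext
    · simp [toQ, thq, hm, hre, hs']; ring
    · simp [toQ, thq, hm, him]; ring
  · have hd4 : d % 4 ≠ 0 := by
      intro h0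
      have : 2 * 2 ∣ d := by omega
      have := hd 2 this
      rw [Nat.isUnit_iff] at this
      omega
    have hev : (2 : ℤ) ∣ s ∧ (2 : ℤ) ∣ u := by
      have hsm : s % 4 = 0 ∨ s % 4 = 1 ∨ s % 4 = 2 ∨ s % 4 = 3 := by omega
      have hum : u % 4 = 0 ∨ u % 4 = 1 ∨ u % 4 = 2 ∨ u % 4 = 3 := by omega
      have hdm : d % 4 = 2 ∨ d % 4 = 3 := by omega
      have hdm' : (d : ℤ) % 4 = 2 ∨ (d : ℤ) % 4 = 3 := by omega
      have h4 : (s ^ 2 - d * u ^ 2) % 4 = 0 := by rw [ht]; omega
      rcases hsm with h | h | h | h <;> rcases hum with h' | h' | h' | h' <;>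
        rcases hdm' with h'' | h'' <;>
        simp [Int.sub_emod, Int.mul_emod, pow_two, h, h', h''] at h4 <;> omega
    obtain ⟨⟨a, ha⟩, ⟨b, hb⟩⟩ := hev
    refine ⟨⟨a, b⟩, ?_⟩
    apply NumberField.RingOfIntegers.coe_injective
    rw [toO_eq, ← hz]
    congr 1
    ext
    · simp [toQ, thq, hm, hre, ha]
    · simp [toQ, thq, hm, him, hb]

/-- The ring of integers of `ℚ(√d)` is `ℤ[θ]`. -/
noncomputable def eqvO {d : ℕ} (hd : Squarefree d) (h1 : 1 < d) : QI d ≃+* 𝓞 (KQ d) :=
  RingEquiv.ofBijective (toO d) ⟨toO_injective hd h1, toO_surjective hd h1⟩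

lemma norm_eqvO {d : ℕ} (hd : Squarefree d) (h1 : 1 < d) (z : QI d) :
    Algebra.norm ℚ (algebraMap (𝓞 (KQ d)) (KQ d) (eqvO hd h1 z)) = (z.norm : ℚ) :=
  norm_toO hd h1 z

end Pool.Agent.LibH4


end

section

/-!
Elementary descent: the ring of integers of `ℚ(√d)` is a PID as soon as every noninert prime `p`
with `4 p² ≤ D` is the absolute norm of an element.
-/

namespace Pool.Agent.LibH4

open scoped NumberField
open Ideal

variable {d : ℕ} (hd : Squarefree d) (h1 : 1 < d)

lemma norm_int_eqvO (z : QI d) : Algebra.norm ℤ (eqvO hd h1 z) = z.norm := by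
  have h := norm_eqvO hd h1 z
  rw [← Algebra.coe_norm_int] at h
  exact_mod_cast h

lemma absNorm_span_eqvO (z : QI d) :
    absNorm (span {eqvO hd h1 z}) = z.norm.natAbs := by
  rw [Ideal.absNorm_span_singleton, norm_int_eqvO]

lemma intCast_norm_QI (z : QI d) : ((z.norm : ℤ) : QI d) = z * star z := by
  have := QuadraticAlgebra.algebraMap_norm_eq_mul_star z
  simpa using this

lemma Dq_pos (h1 : 1 < d) : 0 < Dq d := by
  unfold Dq
  split_ifs <;> omega

lemma four_mul_norm_lin (x : ℤ) :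
    4 * ((⟨x, 1⟩ : QI d).norm) = (2 * x + Bq d) ^ 2 - Dq d := by
  rw [QuadraticAlgebra.norm_def, ← Bq_Aq]
  ring

lemma norm_lin_eq (x : ℤ) : ((⟨x, 1⟩ : QI d).norm) = x ^ 2 + Bq d * x - Aq d := by
  rw [QuadraticAlgebra.norm_def]
  ring

/-- nonzero prime ideals contain a rational prime, which divides the absolute norm -/
lemma exists_prime_mem {R : Type*} [CommRing R] (P : Ideal R) (hP : P.IsPrime) (n : ℕ)
    (hn : n ≠ 0) (hmem : (n : R) ∈ P) : ∃ p : ℕ, p.Prime ∧ p ∣ n ∧ (p : R) ∈ P := by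
  induction n using Nat.strong_induction_on with
  | _ n IH =>
    rcases eq_or_ne n 1 with rfl | hn1
    · exfalso
      apply hP.ne_top
      rw [Ideal.eq_top_iff_one]
      simpa using hmem
    · obtain ⟨p, hp, n', rfl⟩ : ∃ p, p.Prime ∧ ∃ n', n = p * n' := by
        obtain ⟨p, hp, h⟩ := Nat.exists_prime_and_dvd hn1
        exact ⟨p, hp, h⟩
      have hn' : n' ≠ 0 := by rintro rfl; simp at hn
      rw [Nat.cast_mul] at hmem
      rcases hP.mem_or_mem hmem with h | h
      · exact ⟨p, hp, Dvd.intro _ rfl, h⟩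
      · obtain ⟨q, hq, hqn, hqP⟩ := IH n' (by
          have := hp.one_lt
          nlinarith [Nat.pos_of_ne_zero hn']) hn' h
        exact ⟨q, hq, hqn.mul_left p, hqP⟩

/-- an integer in a prime ideal containing `p` is divisible by `p` -/
lemma dvd_of_intCast_mem {R : Type*} [CommRing R] (P : Ideal R) (hP : P.IsPrime) (p : ℕ)
    (hp : p.Prime) (hpP : (p : R) ∈ P) (a : ℤ) (ha : (a : R) ∈ P) : (p : ℤ) ∣ a := by
  by_contra h
  have hcop : IsCoprime (p : ℤ) a :=
    (Irreducible.coprime_iff_not_dvd (Nat.prime_iff_prime_int.mp hp).irreducible).mpr h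
  obtain ⟨u, v, huv⟩ := hcop
  apply hP.ne_top
  rw [Ideal.eq_top_iff_one]
  have : (1 : R) = (u : R) * (p : R) + (v : R) * (a : R) := by
    have := congrArg (fun t : ℤ => (t : R)) huv
    push_cast at this
    exact this.symm
  rw [this]
  exact P.add_mem (P.mul_mem_left _ hpP) (P.mul_mem_left _ ha)

/-- prime ideals containing an element of prime norm -/
lemma eq_span_of_mem (P : Ideal (𝓞 (KQ d))) (hP : P.IsPrime) (z : QI d) {p : ℕ} (hp : p.Prime)
    (hz : z.norm.natAbs = p) (hmem : eqvO hd h1 z ∈ P) : P = span {eqvO hd h1 z} := by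
  have hprime : (span {eqvO hd h1 z} : Ideal (𝓞 (KQ d))).IsPrime := by
    apply Ideal.isPrime_of_irreducible_absNorm
    rw [absNorm_span_eqvO, hz]
    exact hp
  have hne : (span {eqvO hd h1 z} : Ideal (𝓞 (KQ d))) ≠ ⊥ := by
    intro h
    have := absNorm_span_eqvO hd h1 z
    rw [h, Ideal.absNorm_bot, hz] at this
    exact hp.ne_zero this.symm
  have hmax := hprime.isMaximal hne
  exact (hmax.eq_of_le hP.ne_top ((Ideal.span_singleton_le_iff_mem _).mpr hmem)).symm

include hd h1 in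
/-- If `p` is the absolute norm of an element then all primes above `p` are principal. -/
lemma principal_of_norm (P : Ideal (𝓞 (KQ d))) (hP : P.IsPrime) (z : QI d) {p : ℕ} (hp : p.Prime)
    (hz : z.norm.natAbs = p) (hpP : (p : 𝓞 (KQ d)) ∈ P) : Submodule.IsPrincipal P := by
  have hmem : eqvO hd h1 (z * star z) ∈ P := by
    rw [← intCast_norm_QI, map_intCast]
    rcases Int.natAbs_eq z.norm with h | h
    · rw [h, hz]; simpa using hpP
    · rw [h, hz]
      rw [Int.cast_neg]
      exact P.neg_mem (by simpa using hpP)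
  rw [map_mul] at hmem
  rcases hP.mem_or_mem hmem with h | h
  · rw [eq_span_of_mem hd h1 P hP z hp hz h]
    exact ⟨⟨_, rfl⟩⟩
  · rw [eq_span_of_mem hd h1 P hP (star z) hp (by rw [QuadraticAlgebra.norm_star]; exact hz) h]
    exact ⟨⟨_, rfl⟩⟩

/-- No `x + θ` in `P`: then `P = (p)`. -/
lemma eq_span_natCast (P : Ideal (𝓞 (KQ d))) (hP : P.IsPrime) {p : ℕ} (hp : p.Prime)
    (hpP : (p : 𝓞 (KQ d)) ∈ P) (hno : ¬ ∃ x : ℤ, eqvO hd h1 ⟨x, 1⟩ ∈ P) :
    P = span {(p : 𝓞 (KQ d))} := by
  apply le_antisymm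
  · intro y hy
    obtain ⟨z, rfl⟩ := (eqvO hd h1).surjective y
    have him : (p : ℤ) ∣ z.im := by
      by_contra h
      have hcop : IsCoprime (p : ℤ) z.im :=
        (Irreducible.coprime_iff_not_dvd (Nat.prime_iff_prime_int.mp hp).irreducible).mpr h
      obtain ⟨u, v, huv⟩ := hcop
      apply hno
      refine ⟨v * z.re, ?_⟩
      have e : (⟨v * z.re, 1⟩ : QI d) = (v : QI d) * z + (p : QI d) * ⟨0, u⟩ := by
        ext
        · simp
        · simp; linarith
      rw [e, map_add, map_mul, map_mul, map_natCast]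
      exact P.add_mem (P.mul_mem_left _ hy) (P.mul_mem_right _ hpP)
    obtain ⟨c, hc⟩ := him
    have hre : ((z.re : ℤ) : 𝓞 (KQ d)) ∈ P := by
      have e : ((z.re : ℤ) : QI d) = z - (p : QI d) * ⟨0, c⟩ := by
        ext
        · simp
        · simp [hc]
      have := congrArg (eqvO hd h1) e
      rw [map_intCast, map_sub, map_mul, map_natCast] at this
      rw [this]
      exact P.sub_mem hy (P.mul_mem_right _ hpP)
    obtain ⟨b, hb⟩ := dvd_of_intCast_mem P hP p hp hpP _ hre
    rw [Ideal.mem_span_singleton]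
    have e : z = (p : QI d) * ⟨b, c⟩ := by
      ext
      · simp [hb]
      · simp [hc]
    rw [e, map_mul, map_natCast]
    exact Dvd.intro _ rfl
  · rwa [Ideal.span_singleton_le_iff_mem]

/-- cancelling a principal factor -/
lemma principal_of_mul_principal {R : Type*} [CommRing R] [IsDedekindDomain R]
    (P J : Ideal R) (α : R) (hα : α ≠ 0) (h : span {α} = P * J) (hJ : Submodule.IsPrincipal J) :
    Submodule.IsPrincipal P := by
  obtain ⟨⟨γ, hγ⟩⟩ := hJ
  have hγ' : J = span {γ} := hγ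
  have hγ0 : γ ≠ 0 := by
    rintro rfl
    apply hα
    rw [hγ'] at h
    have : span {(0 : R)} = (0 : Ideal R) := by simp
    rw [this, mul_zero] at h
    simpa using h
  have hαγ : γ ∣ α := by
    have h1 : α ∈ P * J := by rw [← h]; exact Ideal.mem_span_singleton_self α
    have hle : P * J ≤ J := Ideal.mul_le_right
    have : α ∈ J := hle h1
    rwa [hγ', Ideal.mem_span_singleton] at this
  obtain ⟨β, hβ⟩ := hαγ
  have h6 : span {γ} * P = span {γ} * span {β} := by
    rw [Ideal.span_singleton_mul_span_singleton, ← hβ, h, hγ', mul_comm]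
  have h7 : (span {γ} : Ideal R) ≠ 0 := by
    rw [Ideal.zero_eq_bot, Ne, Ideal.span_singleton_eq_bot]; exact hγ0
  have hPβ : P = span {β} := mul_left_cancel₀ h7 h6
  rw [hPβ]
  exact ⟨⟨_, rfl⟩⟩

/-- shift `x` modulo `p` so that `|2x + b| ≤ p` -/
lemma exists_shift (b : ℤ) (p : ℕ) (hp : 0 < p) (x : ℤ) :
    ∃ x' k : ℤ, x' = x + k * p ∧ |2 * x' + b| ≤ p := by
  refine ⟨x - p * ((2 * x + b + p) / (2 * p)), -((2 * x + b + p) / (2 * p)), by ring, ?_⟩
  have h2 : (0 : ℤ) < 2 * p := by positivity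
  have h3 := Int.emod_add_mul_ediv (2 * x + b + p) (2 * p)
  have h4 := Int.emod_nonneg (2 * x + b + p) h2.ne'
  have h5 := Int.emod_lt_of_pos (2 * x + b + p) h2
  rw [abs_le]
  constructor <;> nlinarith

include hd h1 in
/-- Main descent. -/
theorem principal_of_small (H : ∀ p : ℕ, p.Prime → 4 * (p : ℤ) ^ 2 ≤ Dq d →
      ∀ x : ℤ, |2 * x + Bq d| ≤ p → (p : ℤ) ∣ x ^ 2 + Bq d * x - Aq d →
      ∃ z : QI d, z.norm.natAbs = p)
    (p : ℕ) (hp : p.Prime) (P : Ideal (𝓞 (KQ d))) (hP : P.IsPrime)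
    (hpP : (p : 𝓞 (KQ d)) ∈ P) : Submodule.IsPrincipal P := by
  induction p using Nat.strong_induction_on generalizing P with
  | _ p IH =>
    by_cases hx : ∃ x : ℤ, eqvO hd h1 ⟨x, 1⟩ ∈ P
    · obtain ⟨x₀, hx₀⟩ := hx
      obtain ⟨x, k, hxk, hxabs⟩ := exists_shift (Bq d) p hp.pos x₀
      have hmem : eqvO hd h1 ⟨x, 1⟩ ∈ P := by
        have e : (⟨x, 1⟩ : QI d) = ⟨x₀, 1⟩ + (k : QI d) * (p : QI d) := by
          ext
          · simp [hxk]
          · simp
        rw [e, map_add, map_mul, map_natCast]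
        exact P.add_mem hx₀ (P.mul_mem_left _ hpP)
      have hnormP : (((⟨x, 1⟩ : QI d).norm : ℤ) : 𝓞 (KQ d)) ∈ P := by
        have e := congrArg (eqvO hd h1) (intCast_norm_QI (⟨x, 1⟩ : QI d))
        rw [map_intCast, map_mul] at e
        rw [e]
        exact P.mul_mem_right _ hmem
      have hpdvd : (p : ℤ) ∣ (⟨x, 1⟩ : QI d).norm := dvd_of_intCast_mem P hP p hp hpP _ hnormP
      by_cases hsmall : 4 * (p : ℤ) ^ 2 ≤ Dq d
      · rw [norm_lin_eq] at hpdvd
        obtain ⟨z, hz⟩ := H p hp hsmall x hxabs hpdvd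
        exact principal_of_norm hd h1 P hP z hp hz hpP
      · push Not at hsmall
        set α : 𝓞 (KQ d) := eqvO hd h1 ⟨x, 1⟩ with hα
        have hN := four_mul_norm_lin (d := d) x
        have hlt : |(⟨x, 1⟩ : QI d).norm| < (p : ℤ) ^ 2 := by
          have hsq : (2 * x + Bq d) ^ 2 ≤ (p : ℤ) ^ 2 := by
            rw [sq_le_sq]
            rwa [abs_of_nonneg (by positivity : (0 : ℤ) ≤ p)]
          have hDpos := Dq_pos h1
          rw [abs_lt]
          constructor <;> nlinarith [sq_nonneg (2 * x + Bq d)]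
        have hα0 : α ≠ 0 := by
          intro h
          have : (⟨x, 1⟩ : QI d) = 0 := (eqvO hd h1).injective (by rw [map_zero]; exact h)
          have := congrArg QuadraticAlgebra.im this
          simp at this
        have hspan0 : (span {α} : Ideal (𝓞 (KQ d))) ≠ 0 := by
          rw [Ideal.zero_eq_bot, Ne, Ideal.span_singleton_eq_bot]; exact hα0
        have hdvd : P ∣ span {α} := by
          rw [Ideal.dvd_span_singleton]; exact hmem
        obtain ⟨J, hJ⟩ := hdvd
        have hP0 : P ≠ 0 := by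
          rintro rfl
          rw [zero_mul] at hJ
          exact hspan0 hJ
        have hJ0 : J ≠ 0 := by
          rintro rfl
          rw [mul_zero] at hJ
          exact hspan0 hJ
        have habs : absNorm P * absNorm J = (⟨x, 1⟩ : QI d).norm.natAbs := by
          rw [← map_mul, ← hJ, hα, absNorm_span_eqvO]
        have hPge : p ≤ absNorm P := by
          have hn0 : absNorm P ≠ 0 := by
            rw [Ne, Ideal.absNorm_eq_zero_iff]; exact hP0
          have := dvd_of_intCast_mem P hP p hp hpP (absNorm P : ℕ) (by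
            simpa using Ideal.absNorm_mem P)
          exact Nat.le_of_dvd (Nat.pos_of_ne_zero hn0) (by exact_mod_cast this)
        have hJlt : absNorm J < p := by
          by_contra hge
          push Not at hge
          have h3 : p * p ≤ absNorm P * absNorm J := Nat.mul_le_mul hPge hge
          rw [habs] at h3
          have h4 : ((⟨x, 1⟩ : QI d).norm.natAbs : ℤ) < (p : ℤ) ^ 2 := by
            rw [Int.natCast_natAbs]; exact hlt
          have h5 : (⟨x, 1⟩ : QI d).norm.natAbs < p ^ 2 := by exact_mod_cast h4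
          nlinarith
        have hJn0 : absNorm J ≠ 0 := by
          rw [Ne, Ideal.absNorm_eq_zero_iff]; exact hJ0
        have hJprinc : Submodule.IsPrincipal J := by
          rw [← Ideal.mem_isPrincipalSubmonoid_iff,
            ← Ideal.prod_normalizedFactors_eq_self hJ0]
          refine Submonoid.multiset_prod_mem _ _ (fun Q hQ ↦ Ideal.mem_isPrincipalSubmonoid_iff.mp ?_)
          rw [Ideal.mem_isPrincipalSubmonoid_iff]
          have hQprime : Q.IsPrime := ((Ideal.mem_normalizedFactors_iff hJ0).mp hQ).1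
          have hQdvd : Q ∣ J := UniqueFactorizationMonoid.dvd_of_mem_normalizedFactors hQ
          have hQn : absNorm Q ∣ absNorm J := map_dvd absNorm hQdvd
          have hQn0 : absNorm Q ≠ 0 := fun h => hJn0 (Nat.eq_zero_of_zero_dvd (h ▸ hQn))
          obtain ⟨q, hq, hqn, hqQ⟩ := exists_prime_mem Q hQprime (absNorm Q) hQn0
            (Ideal.absNorm_mem Q)
          have hqlt : q < p := lt_of_le_of_lt
            ((Nat.le_of_dvd (Nat.pos_of_ne_zero hQn0) hqn).trans
              (Nat.le_of_dvd (Nat.pos_of_ne_zero hJn0) hQn)) hJlt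
          exact IH q hqlt hq Q hQprime hqQ
        exact principal_of_mul_principal P J α hα0 hJ hJprinc
    · rw [eq_span_natCast hd h1 P hP hp hpP hx]
      exact ⟨⟨_, rfl⟩⟩

include hd h1 in
theorem isPrincipalIdealRing_of_small (H : ∀ p : ℕ, p.Prime → 4 * (p : ℤ) ^ 2 ≤ Dq d →
      ∀ x : ℤ, |2 * x + Bq d| ≤ p → (p : ℤ) ∣ x ^ 2 + Bq d * x - Aq d →
      ∃ z : QI d, z.norm.natAbs = p) : IsPrincipalIdealRing (𝓞 (KQ d)) := by
  apply IsPrincipalIdealRing.of_prime
  intro P hP
  by_cases hP0 : P = 0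
  · rw [hP0]
    exact bot_isPrincipal
  · have hn0 : absNorm P ≠ 0 := by
      rw [Ne, Ideal.absNorm_eq_zero_iff]; exact hP0
    obtain ⟨p, hp, _, hpP⟩ := exists_prime_mem P hP (absNorm P) hn0 (Ideal.absNorm_mem P)
    exact principal_of_small hd h1 H p hp P hP hpP

end Pool.Agent.LibH4


end

section

/-!
`T8`: the ring of integers of a quadratic field as `QuadraticAlgebra ℤ m B`, `d = B² + 4m`.
`T9`: eleven explicit rings with unique factorisation.
-/

namespace Pool.Agent.LibH4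

open scoped NumberField

/-- change of generator `ω' = ω + c` -/
def shiftEquiv (a b c m B : ℤ) (hB : B = b + 2 * c) (hm : m = a - b * c - c ^ 2) :
    QuadraticAlgebra ℤ a b ≃+* QuadraticAlgebra ℤ m B where
  toFun z := ⟨z.re - c * z.im, z.im⟩
  invFun w := ⟨w.re + c * w.im, w.im⟩
  left_inv z := by ext <;> simp
  right_inv w := by ext <;> simp
  map_mul' z w := by
    subst hB hm
    ext
    · simp; ring
    · simp; ring
  map_add' z w := by
    ext
    · simp; ring
    · simp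

/-- `QI d` in the coordinates `d = B² + 4m`, `B` odd. -/
lemma exists_equiv_QI {d : ℕ} {m B : ℤ} (hd : (d : ℤ) = B ^ 2 + 4 * m) (hB : B % 2 = 1) :
    Nonempty (QI d ≃+* QuadraticAlgebra ℤ m B) := by
  obtain ⟨c, hc⟩ : ∃ c, B = 2 * c + 1 := ⟨B / 2, by omega⟩
  have hd' : (d : ℤ) = 4 * (c ^ 2 + c + m) + 1 := by rw [hd, hc]; ring
  have hmod : d % 4 = 1 := by omega
  have hBq : Bq d = 1 := by simp [Bq, hmod]
  have hAq : Aq d = c ^ 2 + c + m := by
    unfold Aq
    rw [if_pos hmod, hd']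
    simp
  exact ⟨shiftEquiv (Aq d) (Bq d) c m B (by rw [hBq, hc]; ring) (by rw [hAq, hBq]; ring)⟩

/-- Any number field of degree 2 containing a square root of `d` has ring of integers
`QuadraticAlgebra ℤ m B`, if `d = B² + 4m` is squarefree and `B` is odd. -/
theorem ringOfIntegers_equiv (K : Type*) [Field K] [NumberField K] (hK : Module.finrank ℚ K = 2)
    {d : ℕ} (hsq : Squarefree d) (h1 : 1 < d) (x : K) (hx : x ^ 2 = (d : K)) {m B : ℤ}
    (hd : (d : ℤ) = B ^ 2 + 4 * m) (hB : B % 2 = 1) :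
    Nonempty (𝓞 K ≃+* QuadraticAlgebra ℤ m B) := by
  -- `K ≃ QuadraticAlgebra ℚ d 0`
  let φ : QuadraticAlgebra ℚ (d : ℚ) 0 →ₐ[ℚ] K :=
    QuadraticAlgebra.lift ⟨x, by rw [← sq, hx]; simp [Algebra.smul_def]⟩
  have e := eqvK hsq h1
  have hinj : Function.Injective φ := by
    have hcomp : Function.Injective (φ.comp (e.symm : KQ d →ₐ[ℚ] QuadraticAlgebra ℚ (d : ℚ) 0)) :=
      (φ.comp (e.symm : KQ d →ₐ[ℚ] QuadraticAlgebra ℚ (d : ℚ) 0)).toRingHom.injective
    intro a b hab
    have := @hcomp (e a) (e b) (by simpa using hab)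
    exact e.injective this
  have hfin : Module.finrank ℚ (QuadraticAlgebra ℚ (d : ℚ) 0) = 2 :=
    QuadraticAlgebra.finrank_eq_two _ _
  have hbij : Function.Bijective φ := by
    refine ⟨hinj, ?_⟩
    have hfd : FiniteDimensional ℚ (QuadraticAlgebra ℚ (d : ℚ) 0) :=
      FiniteDimensional.of_finrank_pos (by rw [hfin]; norm_num)
    have := (LinearMap.injective_iff_surjective_of_finrank_eq_finrank (f := φ.toLinearMap)
      (by rw [hfin, hK])).mp hinj
    exact this
  have e' : KQ d ≃ₐ[ℚ] K := e.symm.trans (AlgEquiv.ofBijective φ hbij)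
  obtain ⟨e2⟩ := exists_equiv_QI hd hB
  exact ⟨((NumberField.RingOfIntegers.mapRingEquiv (e' : KQ d ≃+* K)).symm.trans
    (eqvO hsq h1).symm).trans e2⟩

/-- unique factorisation from a finite check -/
lemma ufd_of_check {d : ℕ} {m : ℕ} {B : ℤ} (hsq : Squarefree d) (h1 : 1 < d)
    (hd : (d : ℤ) = B ^ 2 + 4 * m) (hB : B % 2 = 1) (A : ℤ) (hA : (d : ℤ) = 4 * A + 1)
    (hcheck : ∀ p : ℕ, p.Prime → 4 * (p : ℤ) ^ 2 ≤ d → ∀ x : ℤ, |2 * x + 1| ≤ p →
      (p : ℤ) ∣ x ^ 2 + x - A → p = m) :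
    IsDomain (QuadraticAlgebra ℤ (m : ℤ) B) ∧
      UniqueFactorizationMonoid (QuadraticAlgebra ℤ (m : ℤ) B) := by
  have hmod : d % 4 = 1 := by omega
  have hBq : Bq d = 1 := by simp [Bq, hmod]
  have hAq : Aq d = A := by
    unfold Aq
    rw [if_pos hmod, hA]
    simp
  have hDq : Dq d = d := by simp [Dq, hmod]
  have hpid : IsPrincipalIdealRing (𝓞 (KQ d)) := by
    apply isPrincipalIdealRing_of_small hsq h1
    intro p hp h4 x hx hdvd
    rw [hDq] at h4
    rw [hBq] at hx hdvd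
    rw [hAq] at hdvd
    have hpm := hcheck p hp h4 x hx (by rw [one_mul] at hdvd; exact hdvd)
    obtain ⟨c, hc⟩ : ∃ c, B = 2 * c + 1 := ⟨B / 2, by omega⟩
    refine ⟨⟨c, 1⟩, ?_⟩
    rw [norm_lin_eq, hBq, hAq, hpm]
    have hm : (m : ℤ) = A - c ^ 2 - c := by
      rw [hA, hc] at hd
      linarith
    have : c ^ 2 + 1 * c - A = -(m : ℤ) := by rw [hm]; ring
    rw [this]
    simp
  have hufd : UniqueFactorizationMonoid (𝓞 (KQ d)) := inferInstance
  obtain ⟨e2⟩ := exists_equiv_QI hd hB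
  have e3 : 𝓞 (KQ d) ≃+* QuadraticAlgebra ℤ (m : ℤ) B := (eqvO hsq h1).symm.trans e2
  have hdom : IsDomain (QuadraticAlgebra ℤ (m : ℤ) B) := e3.symm.toMulEquiv.isDomain
  exact ⟨hdom, e3.toMulEquiv.uniqueFactorizationMonoid hufd⟩

/-- a decidable form of the check -/
def chk (d m : ℕ) (A : ℤ) : Bool :=
  ([2, 3, 5, 7, 11, 13, 17, 19] : List ℕ).all fun p : ℕ =>
    (decide ((d : ℤ) < 4 * (p : ℤ) ^ 2)) || (decide (p = m)) ||
      ((List.range 20).all fun j => decide (¬ (((j : ℤ) - 10) ^ 2 + ((j : ℤ) - 10) - A) % (p : ℤ) = 0))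

lemma mem_list_of_prime {p : ℕ} (hp : p.Prime) (h : p < 22) :
    p ∈ [2, 3, 5, 7, 11, 13, 17, 19] := by
  interval_cases p <;> first | decide | (exfalso; revert hp; norm_num)

lemma chk_sound {d m : ℕ} {A : ℤ} (h : chk d m A = true) (hd : d < 1936) :
    ∀ p : ℕ, p.Prime → 4 * (p : ℤ) ^ 2 ≤ d → ∀ x : ℤ, |2 * x + 1| ≤ p →
      (p : ℤ) ∣ x ^ 2 + x - A → p = m := by
  intro p hp h4 x hx hdvd
  have hp22 : p < 22 := by
    by_contra hge
    push Not at hge
    have h1 : (22 : ℤ) ≤ p := by exact_mod_cast hge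
    have h2 : (d : ℤ) < 1936 := by exact_mod_cast hd
    nlinarith
  have hmem := mem_list_of_prime hp hp22
  unfold chk at h
  rw [List.all_eq_true] at h
  have h5 := h p hmem
  rw [Bool.or_eq_true, Bool.or_eq_true, decide_eq_true_eq, decide_eq_true_eq, List.all_eq_true] at h5
  rcases h5 with (h5 | h5) | h5
  · exfalso; omega
  · exact h5
  · exfalso
    rw [abs_le] at hx
    have hp19 : p ≤ 19 := by
      simp only [List.mem_cons, List.not_mem_nil, or_false] at hmem
      omega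
    have hx1 : 0 ≤ x + 10 := by omega
    have hx2 : (x + 10).toNat < 20 := by omega
    have h6 := h5 (x + 10).toNat (List.mem_range.mpr hx2)
    rw [decide_eq_true_eq] at h6
    apply h6
    rw [Int.toNat_of_nonneg hx1]
    have e : (x + 10 - 10) ^ 2 + (x + 10 - 10) - A = x ^ 2 + x - A := by ring
    rw [e]
    exact Int.emod_eq_zero_of_dvd hdvd

/-- The eleven rings of the period-three family are unique factorisation domains.
The pair `(a, t)` gives `m = 1 + a t`, `B = (a² + 1) t + a`, `d = B² + 4 m`. -/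
theorem eleven (a t : ℕ)
    (h : (a, t) ∈ [(1, 1), (1, 2), (1, 4), (1, 6), (1, 12), (2, 1), (2, 3), (2, 5), (3, 2), (4, 1),
      (6, 1)]) :
    IsDomain (QuadraticAlgebra ℤ ((1 + a * t : ℕ) : ℤ) (((a ^ 2 + 1) * t + a : ℕ) : ℤ)) ∧
      UniqueFactorizationMonoid
        (QuadraticAlgebra ℤ ((1 + a * t : ℕ) : ℤ) (((a ^ 2 + 1) * t + a : ℕ) : ℤ)) := by
  simp only [List.mem_cons, Prod.mk.injEq, List.not_mem_nil, or_false] at h
  rcases h with ⟨rfl, rfl⟩ | ⟨rfl, rfl⟩ | ⟨rfl, rfl⟩ | ⟨rfl, rfl⟩ | ⟨rfl, rfl⟩ | ⟨rfl, rfl⟩ |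
    ⟨rfl, rfl⟩ | ⟨rfl, rfl⟩ | ⟨rfl, rfl⟩ | ⟨rfl, rfl⟩ | ⟨rfl, rfl⟩
  · exact ufd_of_check (d := 17) (by norm_num : Nat.Prime 17).prime.squarefree (by norm_num)
      (by norm_num) (by norm_num) 4 (by norm_num) (chk_sound (by decide) (by norm_num))
  · exact ufd_of_check (d := 37) (by norm_num : Nat.Prime 37).prime.squarefree (by norm_num)
      (by norm_num) (by norm_num) 9 (by norm_num) (chk_sound (by decide) (by norm_num))
  · exact ufd_of_check (d := 101) (by norm_num : Nat.Prime 101).prime.squarefree (by norm_num)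
      (by norm_num) (by norm_num) 25 (by norm_num) (chk_sound (by decide) (by norm_num))
  · exact ufd_of_check (d := 197) (by norm_num : Nat.Prime 197).prime.squarefree (by norm_num)
      (by norm_num) (by norm_num) 49 (by norm_num) (chk_sound (by decide) (by norm_num))
  · exact ufd_of_check (d := 677) (by norm_num : Nat.Prime 677).prime.squarefree (by norm_num)
      (by norm_num) (by norm_num) 169 (by norm_num) (chk_sound (by decide) (by norm_num))
  · exact ufd_of_check (d := 61) (by norm_num : Nat.Prime 61).prime.squarefree (by norm_num)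
      (by norm_num) (by norm_num) 15 (by norm_num) (chk_sound (by decide) (by norm_num))
  · exact ufd_of_check (d := 317) (by norm_num : Nat.Prime 317).prime.squarefree (by norm_num)
      (by norm_num) (by norm_num) 79 (by norm_num) (chk_sound (by decide) (by norm_num))
  · exact ufd_of_check (d := 773) (by norm_num : Nat.Prime 773).prime.squarefree (by norm_num)
      (by norm_num) (by norm_num) 193 (by norm_num) (chk_sound (by decide) (by norm_num))
  · exact ufd_of_check (d := 557) (by norm_num : Nat.Prime 557).prime.squarefree (by norm_num)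
      (by norm_num) (by norm_num) 139 (by norm_num) (chk_sound (by decide) (by norm_num))
  · exact ufd_of_check (d := 461) (by norm_num : Nat.Prime 461).prime.squarefree (by norm_num)
      (by norm_num) (by norm_num) 115 (by norm_num) (chk_sound (by decide) (by norm_num))
  · exact ufd_of_check (d := 1877) (by norm_num : Nat.Prime 1877).prime.squarefree (by norm_num)
      (by norm_num) (by norm_num) 469 (by norm_num) (chk_sound (by decide) (by norm_num))

end Pool.Agent.LibH4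


end

section

/-!
Period four: the parameters of the cycle `(B; a, b, a)`.
-/

namespace Pool.Agent.Lib_helper5.E4

/-- parameters of a cycle of length four -/
structure Par (a b B : ℕ) (m r : ℤ) : Prop where
  ha : 1 ≤ a
  hb : 1 ≤ b
  hB : 1 ≤ B
  hm : 1 < m
  hr : 1 < r
  e1 : r = 1 + B * a - m * (a : ℤ) ^ 2
  e2 : (b : ℤ) * r = 2 * a * m - B

end Pool.Agent.Lib_helper5.E4


end

section

/-!
Genus theory for period four: the middle value is congruent to three modulo four.
-/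

namespace Pool.Agent.LibH4.G4

open Pool.Agent.LibH4 Pool.Agent.Lib_helper5

/-- an odd squarefree number greater than one has a class with Jacobi symbol minus one -/
lemma exists_neg {n : ℕ} (h1 : 1 < n) (hodd : n % 2 = 1) (hsq : Squarefree n) :
    ∃ a : ℕ, jacobiSym a n = -1 := by
  obtain ⟨p, hp, n', rfl⟩ := Nat.exists_prime_and_dvd (by omega : n ≠ 1)
  have hFp : Fact p.Prime := ⟨hp⟩
  have hp2 : p ≠ 2 := by
    rintro rfl
    omega
  have hn' : n' ≠ 0 := by
    rintro rfl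
    omega
  have hcop : Nat.Coprime p n' := by
    rw [Nat.squarefree_mul_iff] at hsq
    exact hsq.1
  obtain ⟨a0, ha0⟩ := FiniteField.exists_nonsquare (F := ZMod p) (by
    rw [ZMod.ringChar_zmod_n]; exact hp2)
  obtain ⟨k, hk1, hk2⟩ := Nat.chineseRemainder hcop a0.val 1
  refine ⟨k, ?_⟩
  rw [jacobiSym.mul_right' _ hp.ne_zero hn']
  have e1 : jacobiSym (k : ℤ) p = -1 := by
    rw [← jacobiSym.legendreSym.to_jacobiSym, legendreSym.eq_neg_one_iff]
    have : ((k : ℤ) : ZMod p) = a0 := by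
      have h := (ZMod.natCast_eq_natCast_iff _ _ _).2 hk1
      push_cast
      rw [h]
      exact ZMod.natCast_zmod_val a0
    rw [this]
    exact ha0
  have e2 : jacobiSym (k : ℤ) n' = 1 := by
    rw [jacobiSym.mod_left' (a₂ := ((1 : ℕ) : ℤ)) (by exact_mod_cast hk2)]
    rw [Nat.cast_one, jacobiSym.one_left]
  rw [e1, e2]
  norm_num

/-- a prime with prescribed symbols -/
lemma exists_prime {R s : ℕ} (hR1 : 1 < R) (hs1 : 1 < s) (hR : R % 2 = 1) (hs : s % 2 = 1)
    (hsqR : Squarefree R) (hsqs : Squarefree s) (hcop : Nat.Coprime R s) :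
    ∃ l : ℕ, l.Prime ∧ 2 < l ∧ l % 4 = 1 ∧ jacobiSym l R = -1 ∧ jacobiSym l s = -1 := by
  obtain ⟨a, ha⟩ := exists_neg hR1 hR hsqR
  obtain ⟨b, hb⟩ := exists_neg hs1 hs hsqs
  obtain ⟨k, hk1, hk2⟩ := Nat.chineseRemainder hcop a b
  have hR' : Nat.Coprime R 4 := by
    have : Nat.Coprime R 2 := Nat.coprime_two_right.2 (Nat.odd_iff.2 hR)
    exact Nat.Coprime.pow_right 2 this
  have hs' : Nat.Coprime s 4 := by
    have : Nat.Coprime s 2 := Nat.coprime_two_right.2 (Nat.odd_iff.2 hs)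
    exact Nat.Coprime.pow_right 2 this
  have h4 : Nat.Coprime (R * s) 4 := Nat.Coprime.mul_left hR' hs'
  obtain ⟨j, hj1, hj2⟩ := Nat.chineseRemainder h4 k 1
  have jR : j ≡ a [MOD R] := (hj1.of_mul_right s).trans hk1
  have js : j ≡ b [MOD s] := (hj1.of_mul_left R).trans hk2
  have symR : ∀ l : ℕ, l ≡ j [MOD R] → jacobiSym l R = -1 := by
    intro l hl
    rw [← ha]
    exact jacobiSym.mod_left' (by exact_mod_cast hl.trans jR)
  have syms : ∀ l : ℕ, l ≡ j [MOD s] → jacobiSym l s = -1 := by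
    intro l hl
    rw [← hb]
    exact jacobiSym.mod_left' (by exact_mod_cast hl.trans js)
  have cR : Nat.Coprime j R := by
    by_contra h
    have : NeZero R := ⟨by omega⟩
    have h0 : jacobiSym (j : ℤ) R = 0 := by
      rw [jacobiSym.eq_zero_iff_not_coprime]
      simpa [Int.gcd_natCast_natCast, Nat.Coprime] using h
    rw [symR j rfl] at h0
    norm_num at h0
  have cs : Nat.Coprime j s := by
    by_contra h
    have : NeZero s := ⟨by omega⟩
    have h0 : jacobiSym (j : ℤ) s = 0 := by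
      rw [jacobiSym.eq_zero_iff_not_coprime]
      simpa [Int.gcd_natCast_natCast, Nat.Coprime] using h
    rw [syms j rfl] at h0
    norm_num at h0
  have c4 : Nat.Coprime j 4 := by
    have : j % 4 = 1 := hj2
    have h2 : Nat.Coprime j 2 :=
      Nat.coprime_two_right.2 (Nat.odd_iff.2 (by omega))
    exact Nat.Coprime.pow_right 2 h2
  have call : Nat.Coprime j (R * s * 4) :=
    Nat.Coprime.mul_right (Nat.Coprime.mul_right cR cs) c4
  obtain ⟨l, hl2, hlp, hl⟩ := Nat.forall_exists_prime_gt_and_modEq 2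
    (q := R * s * 4) (a := j) (by positivity) call
  have l1 : l ≡ j [MOD R * s] := hl.of_mul_right 4
  have l4 : l ≡ j [MOD 4] := hl.of_mul_left (R * s)
  refine ⟨l, hlp, hl2, ?_, symR l (l1.of_mul_right s), syms l (l1.of_mul_left R)⟩
  exact l4.trans hj2

/-- **genus theory for period four** -/
theorem mod_four {a b B : ℕ} {m r : ℤ} (h : E4.Par a b B m r) (hm2 : m % 2 = 1) (hB2 : B % 2 = 1)
    [IsDomain (QuadraticAlgebra ℤ m (B : ℤ))]
    [UniqueFactorizationMonoid (QuadraticAlgebra ℤ m (B : ℤ))]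
    (hsq : Squarefree ((B : ℤ) ^ 2 + 4 * m)) : r % 4 = 3 := by
  have hr := h.hr
  have hm := h.hm
  have e1 := h.e1
  have e2 := h.e2
  obtain ⟨R, rfl⟩ := Int.eq_ofNat_of_zero_le (by omega : 0 ≤ r)
  obtain ⟨M, rfl⟩ := Int.eq_ofNat_of_zero_le (by omega : 0 ≤ m)
  have hdec : (B : ℤ) ^ 2 + 4 * M = R * ((b : ℤ) ^ 2 * R + 4 * M) := by
    linear_combination (-((b : ℤ) * R + 2 * a * M - B)) * e2 + (-4 * (M : ℤ)) * e1
  obtain ⟨s, hs⟩ : ∃ s : ℕ, s = b ^ 2 * R + 4 * M := ⟨_, rfl⟩
  have hs' : (s : ℤ) = (b : ℤ) ^ 2 * R + 4 * M := by rw [hs]; push_cast; ring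
  rw [← hs'] at hdec
  -- parity
  have hBb : (b * R) % 2 = 1 := by
    have h3 : ((b * R : ℕ) : ℤ) % 2 = 1 := by
      push_cast
      rw [e2]
      have : (2 * (a : ℤ) * M) % 2 = 0 := by rw [mul_assoc, Int.mul_emod_right]
      omega
    exact_mod_cast h3
  have hR2 : R % 2 = 1 := by
    by_contra hc
    have : R % 2 = 0 := by omega
    rw [Nat.mul_mod, this] at hBb
    omega
  have hb2 : b % 2 = 1 := by
    by_contra hc
    have : b % 2 = 0 := by omega
    rw [Nat.mul_mod, this] at hBb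
    omega
  by_contra hR3
  have hR4 : R % 4 = 1 := by omega
  have hbb : b ^ 2 % 4 = 1 := by
    obtain ⟨k, hk⟩ : ∃ k, b = 2 * k + 1 := ⟨b / 2, by omega⟩
    rw [hk]
    have : (2 * k + 1) ^ 2 = 4 * (k ^ 2 + k) + 1 := by ring
    omega
  have hs4 : s % 4 = 1 := by
    rw [hs, Nat.add_mul_mod_self_left, Nat.mul_mod, hbb, hR4]
  have hsqd : Squarefree (R * s) := by
    rw [hdec] at hsq
    exact Int.squarefree_natCast.1 (by push_cast; exact hsq)
  rw [Nat.squarefree_mul_iff] at hsqd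
  obtain ⟨hcop, hsR, hss⟩ := hsqd
  have hR1 : 1 < R := by exact_mod_cast hr
  have hs1 : 1 < s := by
    rw [hs]
    have : 1 < M := by exact_mod_cast hm
    have h5 : 0 < b ^ 2 * R := by have := h.hb; positivity
    omega
  obtain ⟨l, hlp, hl2, hl4, hlR, hls⟩ := exists_prime hR1 hs1 hR2 (by omega) hsR hss hcop
  have hodl : Odd l := Nat.odd_iff.2 (by omega)
  have hj : jacobiSym ((R * s : ℕ) : ℤ) l = 1 := by
    push_cast
    rw [jacobiSym.mul_left, ← jacobiSym.quadratic_reciprocity_one_mod_four hl4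
      (Nat.odd_iff.2 hR2), ← jacobiSym.quadratic_reciprocity_one_mod_four hl4
      (Nat.odd_iff.2 (by omega : s % 2 = 1)), hlR, hls]
    norm_num
  obtain ⟨x, hx⟩ := exists_root_of_ne (m := (M : ℤ)) (B := (B : ℤ)) (d := R * s)
    (by rw [hdec]; push_cast; ring) hlp (by omega) (by rw [hj]; norm_num)
  obtain ⟨π, hπ⟩ := exists_norm_of_root hlp hx
  -- four times the norm is a square modulo `R`
  have hN : 4 * π.norm = (2 * π.re + B * π.im) ^ 2 - R * s * π.im ^ 2 := by
    rw [QuadraticAlgebra.norm_def, ← hdec]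
    ring
  have hsym : jacobiSym (4 * π.norm) R = jacobiSym ((2 * π.re + B * π.im) ^ 2) R := by
    apply jacobiSym.mod_left'
    rw [hN, Int.sub_emod, mul_assoc, Int.mul_emod_right]
    simp
  rw [jacobiSym.mul_left, jacobiSym.at_four (Nat.odd_iff.2 hR2), one_mul, jacobiSym.pow_left]
    at hsym
  have hneg : jacobiSym (-1) R = 1 := by
    rw [jacobiSym.at_neg_one (Nat.odd_iff.2 hR2), ZMod.χ₄_nat_one_mod_four hR4]
  have hval : jacobiSym π.norm R = -1 := by
    rcases Int.natAbs_eq π.norm with h7 | h7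
    · rw [h7, hπ, hlR]
    · rw [h7, hπ, neg_eq_neg_one_mul, jacobiSym.mul_left, hneg, hlR, one_mul]
  rw [hval] at hsym
  nlinarith [sq_nonneg (jacobiSym (2 * π.re + B * π.im) R)]

end Pool.Agent.LibH4.G4


end

section

/-!
Unique factorisation in explicit real quadratic fields, `d ≡ 1` modulo `4`, `d < 40000`, from a
finite check with witnesses.
-/

namespace Pool.Agent.LibH4.FU

open scoped NumberField
open Pool.Agent.LibH4

/-- the primes below one hundred -/
def prs : List ℕ := [2, 3, 5, 7, 11, 13, 17, 19, 23, 29, 31, 37, 41, 43, 47, 53, 59, 61, 67, 71, 73,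
  79, 83, 89, 97]

lemma mem_prs {p : ℕ} (hp : p.Prime) (h : p < 100) : p ∈ prs := by
  interval_cases p <;> first | decide | (exfalso; revert hp; norm_num)

/-- the check, with witnesses `(p, r, i)` -/
def chk (d : ℕ) (W : List (ℕ × ℤ × ℤ)) : Bool :=
  decide (d % 4 = 1) && (decide (d < 40000) && prs.all fun p => decide (d < 4 * p ^ 2) ||
    (W.any (fun w => decide (w.1 = p) &&
      decide ((w.2.1 ^ 2 + w.2.1 * w.2.2 - ((d : ℤ) - 1) / 4 * w.2.2 ^ 2).natAbs = p)) ||
    (List.range p).all fun x => decide ((x * x + x) % p ≠ ((d - 1) / 4) % p)))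

theorem ufd_of_chk {d : ℕ} {W : List (ℕ × ℤ × ℤ)} (h : chk d W = true) (hsq : Squarefree d)
    (h1 : 1 < d) : UniqueFactorizationMonoid (𝓞 (KQ d)) := by
  unfold chk at h
  rw [Bool.and_eq_true, Bool.and_eq_true, decide_eq_true_eq, decide_eq_true_eq,
    List.all_eq_true] at h
  obtain ⟨hmod, hlt, hall⟩ := h
  have hBq : Bq d = 1 := by simp [Bq, hmod]
  have hAq : Aq d = ((d : ℤ) - 1) / 4 := by
    unfold Aq
    rw [if_pos hmod]
  have hDq : Dq d = d := by simp [Dq, hmod]
  have hpid : IsPrincipalIdealRing (𝓞 (KQ d)) := by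
    apply isPrincipalIdealRing_of_small hsq h1
    intro p hp h4 x hx hdvd
    rw [hDq] at h4
    rw [hBq, hAq, one_mul] at hdvd
    have h4' : 4 * p ^ 2 ≤ d := by exact_mod_cast h4
    have hp100 : p < 100 := by
      by_contra hge
      push Not at hge
      nlinarith
    have h5 := hall p (mem_prs hp hp100)
    rw [Bool.or_eq_true, Bool.or_eq_true, decide_eq_true_eq, List.any_eq_true,
      List.all_eq_true] at h5
    rcases h5 with h5 | ⟨w, -, h5⟩ | h5
    · omega
    · rw [Bool.and_eq_true, decide_eq_true_eq, decide_eq_true_eq] at h5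
      refine ⟨⟨w.2.1, w.2.2⟩, ?_⟩
      rw [QuadraticAlgebra.norm_def, hBq, hAq, ← h5.2]
      congr 1
      simp only
      ring
    · exfalso
      have hp0 : (0 : ℤ) < p := by exact_mod_cast hp.pos
      obtain ⟨y, hy⟩ : ∃ y : ℕ, (y : ℤ) = x % p :=
        ⟨(x % p).toNat, Int.toNat_of_nonneg (Int.emod_nonneg _ hp0.ne')⟩
      have hyp : y < p := by
        have := Int.emod_lt_of_pos x hp0
        rw [← hy] at this
        exact_mod_cast this
      have h6 := h5 y (List.mem_range.2 hyp)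
      rw [decide_eq_true_eq] at h6
      apply h6
      have hA : (((d - 1) / 4 : ℕ) : ℤ) = ((d : ℤ) - 1) / 4 := by
        rw [Int.natCast_div, Nat.cast_sub (by omega)]
        norm_num
      have h7 : (p : ℤ) ∣ ((y * y + y : ℕ) : ℤ) - (((d - 1) / 4 : ℕ) : ℤ) := by
        have e : (x : ℤ) ≡ y [ZMOD p] := by
          rw [hy]; exact (Int.mod_modEq x p).symm
        have e2 : x ^ 2 + x - ((d : ℤ) - 1) / 4 ≡ (y : ℤ) ^ 2 + y - ((d : ℤ) - 1) / 4 [ZMOD p] :=
          ((e.pow 2).add e).sub_right _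
        rw [hA]
        have h8 := (Int.ModEq.dvd_iff e2).1 hdvd
        have h9 : ((y * y + y : ℕ) : ℤ) = (y : ℤ) ^ 2 + y := by push_cast; ring
        rw [h9]
        exact h8
      exact ((Nat.modEq_iff_dvd (n := p) (a := (d - 1) / 4) (b := y * y + y)).2 h7).symm
  infer_instance

end Pool.Agent.LibH4.FU


end
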