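import Mathlib

/-! Parts: Lib_helper5.Gam, Lib_helper5.Psi -/

section

/-!
Elementary estimates for the function `Gam θ x = exp (-θ x) / (1 - exp (-x)) - 1/x - (1/2 - θ)`.
-/

namespace Pool.Agent.Lib_helper5

open Real

/-- `exp (-θ x) / (1 - exp (-x)) - 1/x - (1/2 - θ)` -/
noncomputable def Gam (θ x : ℝ) : ℝ := exp (-(θ * x)) / (1 - exp (-x)) - 1 / x - (1 / 2 - θ)

/-- the second Bernoulli polynomial -/
noncomputable def B2 (θ : ℝ) : ℝ := θ ^ 2 - θ + 1 / 6

lemma one_sub_exp_neg_pos {x : ℝ} (hx : 0 < x) : 0 < 1 - exp (-x) := by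
  have : exp (-x) < 1 := by
    rw [exp_lt_one_iff]; linarith
  linarith

lemma exp_neg_taylor3 {y : ℝ} (h0 : 0 ≤ y) (h1 : y ≤ 1) :
    |exp (-y) - (1 - y + y ^ 2 / 2)| ≤ y ^ 3 := by
  have h := Real.exp_bound (x := -y) (by rw [abs_neg, abs_of_nonneg h0]; exact h1) (n := 3)
    (by norm_num)
  simp only [Finset.sum_range_succ, Finset.sum_range_zero, Nat.factorial, abs_neg,
    abs_of_nonneg h0] at h
  norm_num at h
  have e : exp (-y) - (1 - y + y ^ 2 / 2) = exp (-y) - (1 + -y + y ^ 2 / 2) := by ring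
  rw [e]
  refine h.trans ?_
  have : 0 ≤ y ^ 3 := by positivity
  nlinarith

lemma exp_neg_taylor4 {y : ℝ} (h0 : 0 ≤ y) (h1 : y ≤ 1) :
    |exp (-y) - (1 - y + y ^ 2 / 2 - y ^ 3 / 6)| ≤ y ^ 4 := by
  have h := Real.exp_bound (x := -y) (by rw [abs_neg, abs_of_nonneg h0]; exact h1) (n := 4)
    (by norm_num)
  simp only [Finset.sum_range_succ, Finset.sum_range_zero, Nat.factorial, abs_neg,
    abs_of_nonneg h0] at h
  norm_num at h
  have e : exp (-y) - (1 - y + y ^ 2 / 2 - y ^ 3 / 6)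
      = exp (-y) - (1 + -y + y ^ 2 / 2 + (-y) ^ 3 / 6) := by ring
  rw [e]
  refine h.trans ?_
  have : 0 ≤ y ^ 4 := by positivity
  nlinarith

lemma one_sub_exp_neg_ge {x : ℝ} (h0 : 0 < x) (h1 : x ≤ 1) : x / 2 ≤ 1 - exp (-x) := by
  have h := abs_le.1 (exp_neg_taylor3 h0.le h1)
  have h2 : 1 - exp (-x) = x - x ^ 2 / 2 - (exp (-x) - (1 - x + x ^ 2 / 2)) := by ring
  -- use convexity instead
  have h3 : exp (-x) ≤ 1 - x + x ^ 2 / 2 := by
    have := Real.exp_bound' h0.le h1 (n := 3) (by norm_num)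
    -- exp(-x) = 1/exp(x) ≤ 1/(1+x+x^2/2)
    have hx2 : 1 + x + x ^ 2 / 2 ≤ exp x := by
      have := Real.quadratic_le_exp_of_nonneg h0.le
      linarith
    rw [exp_neg]
    have hpos : (0:ℝ) < 1 + x + x ^ 2 / 2 := by positivity
    calc (exp x)⁻¹ ≤ (1 + x + x ^ 2 / 2)⁻¹ := inv_anti₀ hpos hx2
      _ ≤ 1 - x + x ^ 2 / 2 := by
        rw [inv_le_iff_one_le_mul₀ hpos]
        nlinarith [sq_nonneg (x ^ 2)]
  nlinarith

/-- Second order expansion at `0`. -/
lemma Gam_small {θ x : ℝ} (hθ0 : 0 ≤ θ) (hθ1 : θ ≤ 1) (h0 : 0 < x) (h1 : x ≤ 1) :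
    |Gam θ x - B2 θ / 2 * x| ≤ 10 * x ^ 2 := by
  have hpos := one_sub_exp_neg_pos h0
  have hge := one_sub_exp_neg_ge h0 h1
  set E := exp (-(θ * x)) with hE
  set D := 1 - exp (-x) with hD
  have hθx0 : 0 ≤ θ * x := by positivity
  have hθx1 : θ * x ≤ 1 := by nlinarith
  have hE' := abs_le.1 (exp_neg_taylor3 hθx0 hθx1)
  have hD' := abs_le.1 (exp_neg_taylor4 h0.le h1)
  -- numerator
  have key : Gam θ x - B2 θ / 2 * x
      = (E - D * (1 / x + (1 / 2 - θ) + B2 θ / 2 * x)) / D := by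
    unfold Gam
    rw [← hE, ← hD]
    field_simp
    ring
  rw [key, abs_div, abs_of_pos hpos, div_le_iff₀ hpos]
  -- write E = 1 - θx + θ²x²/2 + e1, D = x - x²/2 + x³/6 + e2
  obtain ⟨e1, he1⟩ : ∃ e1, E = 1 - θ * x + (θ * x) ^ 2 / 2 + e1 :=
    ⟨E - (1 - θ * x + (θ * x) ^ 2 / 2), by ring⟩
  obtain ⟨e2, he2⟩ : ∃ e2, D = x - x ^ 2 / 2 + x ^ 3 / 6 + e2 :=
    ⟨D - (x - x ^ 2 / 2 + x ^ 3 / 6), by ring⟩
  have be1 : |e1| ≤ x ^ 3 := by
    have h3 : (θ * x) ^ 3 ≤ x ^ 3 := by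
      have : θ * x ≤ x := by nlinarith
      exact pow_le_pow_left₀ hθx0 this 3
    rw [abs_le]
    constructor <;> nlinarith
  have be2 : |e2| ≤ x ^ 4 := by
    rw [abs_le]
    constructor <;> nlinarith
  have hx0 : x ≠ 0 := h0.ne'
  have expand : E - D * (1 / x + (1 / 2 - θ) + B2 θ / 2 * x)
      = e1 - e2 * (1 / x) - e2 * ((1 / 2 - θ) + B2 θ / 2 * x)
        - x ^ 3 * ((1/2 - θ) / 6 - B2 θ / 4 + B2 θ * x / 12) := by
    rw [he1, he2]
    unfold B2
    field_simp
    ring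
  have hB : |B2 θ| ≤ 1 := by
    unfold B2
    rw [abs_le]; constructor <;> nlinarith
  have hB' := abs_le.1 hB
  have t1 : |e2 * (1 / x)| ≤ x ^ 3 := by
    rw [abs_mul, abs_of_pos (by positivity : 0 < 1 / x)]
    calc |e2| * (1 / x) ≤ x ^ 4 * (1 / x) := by gcongr
      _ = x ^ 3 := by field_simp
  have t20 : |B2 θ * x| ≤ 1 := by
    rw [abs_mul, abs_of_pos h0]
    calc |B2 θ| * x ≤ 1 * 1 := by gcongr
      _ = 1 := by ring
  have t2 : |(1 / 2 - θ) + B2 θ / 2 * x| ≤ 1 := by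
    have t21 := abs_le.1 t20
    rw [abs_le]; constructor <;> linarith
  have t3 : |e2 * ((1 / 2 - θ) + B2 θ / 2 * x)| ≤ x ^ 3 := by
    rw [abs_mul]
    calc |e2| * |(1 / 2 - θ) + B2 θ / 2 * x| ≤ x ^ 4 * 1 := by gcongr
      _ ≤ x ^ 3 := by
        have : 0 ≤ x ^ 3 := by positivity
        nlinarith
  have t40 : |B2 θ * x| ≤ 1 := by
    rw [abs_mul, abs_of_pos h0]
    calc |B2 θ| * x ≤ 1 * 1 := by gcongr
      _ = 1 := by ring
  have t4 : |(1/2 - θ) / 6 - B2 θ / 4 + B2 θ * x / 12| ≤ 1 := by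
    have t41 := abs_le.1 t40
    rw [abs_le]; constructor <;> linarith
  have t5 : |x ^ 3 * ((1/2 - θ) / 6 - B2 θ / 4 + B2 θ * x / 12)| ≤ x ^ 3 := by
    rw [abs_mul, abs_of_nonneg (by positivity : (0:ℝ) ≤ x ^ 3)]
    calc x ^ 3 * |(1/2 - θ) / 6 - B2 θ / 4 + B2 θ * x / 12| ≤ x ^ 3 * 1 := by gcongr
      _ = x ^ 3 := by ring
  rw [expand]
  have : |e1 - e2 * (1 / x) - e2 * ((1 / 2 - θ) + B2 θ / 2 * x)
        - x ^ 3 * ((1/2 - θ) / 6 - B2 θ / 4 + B2 θ * x / 12)| ≤ 4 * x ^ 3 := by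
    have a1 := abs_le.1 be1
    have a2 := abs_le.1 t1
    have a3 := abs_le.1 t3
    have a5 := abs_le.1 t5
    rw [abs_le]; constructor <;> linarith
  refine this.trans ?_
  have h9 : x ^ 2 * (x / 2) ≤ x ^ 2 * D := by gcongr
  have h10 : (0:ℝ) ≤ x ^ 2 * D := by positivity
  nlinarith

lemma one_sub_exp_neg_ge_quarter {x : ℝ} (h0 : 1 / 2 ≤ x) : 1 / 4 ≤ 1 - exp (-x) := by
  have h := one_sub_exp_neg_ge (x := 1 / 2) (by norm_num) (by norm_num)
  have h2 : exp (-x) ≤ exp (-(1 / 2)) := exp_le_exp.2 (by linarith)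
  linarith

lemma exp_div_le {θ x : ℝ} (hθ0 : 0 ≤ θ) (h0 : 1 / 2 ≤ x) :
    |exp (-(θ * x)) / (1 - exp (-x))| ≤ 4 := by
  have h1 := one_sub_exp_neg_ge_quarter h0
  have h2 : exp (-(θ * x)) ≤ 1 := by
    rw [exp_le_one_iff]
    have : 0 ≤ θ * x := by positivity
    linarith
  have h3 : 0 < exp (-(θ * x)) := exp_pos _
  rw [abs_of_pos (by positivity)]
  rw [div_le_iff₀ (by linarith)]
  linarith

lemma Gam_bdd {θ x : ℝ} (hθ0 : 0 ≤ θ) (hθ1 : θ ≤ 1) (h0 : 1 / 2 ≤ x) : |Gam θ x| ≤ 7 := by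
  have h1 := abs_le.1 (exp_div_le hθ0 h0)
  have h2 : 1 / x ≤ 2 := by
    rw [div_le_iff₀ (by linarith)]; linarith
  have h3 : 0 < 1 / x := by positivity
  unfold Gam
  rw [abs_le]; constructor <;> linarith

lemma exp_neg_le_inv {y : ℝ} (hy : 0 < y) : exp (-y) ≤ 1 / y := by
  rw [exp_neg, ← one_div]
  apply one_div_le_one_div_of_le hy
  have := Real.add_one_le_exp y
  linarith

lemma Gam_diff_large {θ : ℝ} (hθ0 : 0 ≤ θ) (hθ1 : θ ≤ 1) :
    ∃ C : ℝ, 0 ≤ C ∧ ∀ x : ℝ, 1 / 2 ≤ x → |Gam θ x - Gam θ (2 * x)| ≤ C * (1 / x) := by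
  rcases hθ0.eq_or_lt with h | h
  · subst h
    refine ⟨5, by norm_num, fun x hx => ?_⟩
    have hx0 : 0 < x := by linarith
    have h1 := one_sub_exp_neg_ge_quarter hx
    have h2 := one_sub_exp_neg_ge_quarter (x := 2 * x) (by linarith)
    have e2 : exp (-(2 * x)) = exp (-x) * exp (-x) := by
      rw [← exp_add]; ring_nf
    have key : Gam 0 x - Gam 0 (2 * x) = exp (-x) / (1 - exp (-(2 * x))) - 1 / 2 * (1 / x) := by
      unfold Gam
      have hd1 : (1 - exp (-x)) ≠ 0 := by linarith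
      have hp : 0 < exp (-x) := exp_pos _
      have hd3 : (1 + exp (-x)) ≠ 0 := by linarith
      have e3 : 1 - exp (-(2 * x)) = (1 - exp (-x)) * (1 + exp (-x)) := by rw [e2]; ring
      rw [e3]
      simp only [zero_mul, neg_zero, exp_zero]
      field_simp
      ring
    rw [key]
    have h3 : exp (-x) / (1 - exp (-(2 * x))) ≤ 4 * (1 / x) := by
      rw [div_le_iff₀ (by linarith)]
      have h4 := exp_neg_le_inv hx0
      have h5 : 0 < 1 / x := by positivity
      nlinarith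
    have h4 : 0 < exp (-x) / (1 - exp (-(2 * x))) := by
      have := exp_pos (-x)
      have : 0 < 1 - exp (-(2 * x)) := by linarith
      positivity
    have h5 : 0 < 1 / x := by positivity
    rw [abs_le]; constructor <;> linarith
  · refine ⟨6 / θ + 1, by positivity, fun x hx => ?_⟩
    have hx0 : 0 < x := by linarith
    have b1 : |exp (-(θ * x)) / (1 - exp (-x))| ≤ 4 / θ * (1 / x) := by
      have h1 := one_sub_exp_neg_ge_quarter hx
      have h3 : 0 < exp (-(θ * x)) := exp_pos _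
      rw [abs_of_pos (div_pos h3 (by linarith))]
      rw [div_le_iff₀ (by linarith)]
      have h4 := exp_neg_le_inv (y := θ * x) (by positivity)
      have h5 : 1 / (θ * x) = 1 / θ * (1 / x) := by field_simp
      rw [h5] at h4
      have h6 : 0 < 1 / θ * (1 / x) := by positivity
      have h7 : 4 / θ * (1 / x) = 4 * (1 / θ * (1 / x)) := by ring
      rw [h7]
      nlinarith
    have b2 : |exp (-(θ * (2 * x))) / (1 - exp (-(2 * x)))| ≤ 2 / θ * (1 / x) := by
      have h1 := one_sub_exp_neg_ge_quarter (x := 2 * x) (by linarith)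
      have h3 : 0 < exp (-(θ * (2 * x))) := exp_pos _
      rw [abs_of_pos (div_pos h3 (by linarith))]
      rw [div_le_iff₀ (by linarith)]
      have h4 := exp_neg_le_inv (y := θ * (2 * x)) (by positivity)
      have h5 : 1 / (θ * (2 * x)) = 1 / 2 * (1 / θ * (1 / x)) := by field_simp
      rw [h5] at h4
      have h6 : 0 < 1 / θ * (1 / x) := by positivity
      have h7 : 2 / θ * (1 / x) = 2 * (1 / θ * (1 / x)) := by ring
      rw [h7]
      nlinarith
    have key : Gam θ x - Gam θ (2 * x) = exp (-(θ * x)) / (1 - exp (-x))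
        - exp (-(θ * (2 * x))) / (1 - exp (-(2 * x))) - 1 / 2 * (1 / x) := by
      unfold Gam
      field_simp
      ring
    rw [key]
    have h5 : 0 < 1 / x := by positivity
    have b1' := abs_le.1 b1
    have b2' := abs_le.1 b2
    have h8 : (6 / θ + 1) * (1 / x) = 4 / θ * (1 / x) + 2 / θ * (1 / x) + 1 / x := by ring
    rw [h8, abs_le]; constructor <;> linarith

/-- All the bounds on `Gam` which are needed. -/
lemma Gam_bounds {θ : ℝ} (hθ0 : 0 ≤ θ) (hθ1 : θ ≤ 1) :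
    ∃ C : ℝ, 0 ≤ C ∧ ∀ x : ℝ, 0 < x →
      |Gam θ x| ≤ C * x ∧ |Gam θ x| ≤ C ∧
      |Gam θ x - Gam θ (2 * x)| ≤ C * x ∧ |Gam θ x - Gam θ (2 * x)| ≤ C * (1 / x) ∧
      |2 * Gam θ x - Gam θ (2 * x)| ≤ C * x ^ 2 ∧ |2 * Gam θ x - Gam θ (2 * x)| ≤ C := by
  obtain ⟨C1, hC1, h1⟩ := Gam_diff_large hθ0 hθ1
  have hB : |B2 θ| ≤ 1 := by
    unfold B2
    rw [abs_le]; constructor <;> nlinarith
  refine ⟨C1 + 100, by linarith, fun x hx => ?_⟩
  by_cases hx2 : x ≤ 1 / 2
  · have g1 := Gam_small hθ0 hθ1 hx (by linarith)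
    have g2 := Gam_small hθ0 hθ1 (x := 2 * x) (by linarith) (by linarith)
    have hx22 : x ^ 2 ≤ x * (1 / 2) := by nlinarith
    have hbx : |B2 θ / 2 * x| ≤ x := by
      rw [abs_mul, abs_of_pos hx, abs_div]
      have : |B2 θ| / |(2:ℝ)| ≤ 1 := by
        rw [abs_of_pos (by norm_num : (0:ℝ) < 2)]; linarith
      nlinarith
    have g1' := abs_le.1 g1
    have g2' := abs_le.1 g2
    have hbx' := abs_le.1 hbx
    have e2 : B2 θ / 2 * (2 * x) = 2 * (B2 θ / 2 * x) := by ring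
    rw [e2] at g2'
    set b := B2 θ / 2 * x
    have hC1x : 0 ≤ C1 * x := by positivity
    have hC1x2 : 0 ≤ C1 * x ^ 2 := by positivity
    have hinv : 1 ≤ 1 / x := by
      rw [le_div_iff₀ hx]; linarith
    have hCi : 0 ≤ C1 * (1 / x) := by positivity
    refine ⟨?_, ?_, ?_, ?_, ?_, ?_⟩
    · rw [abs_le]; constructor <;> nlinarith
    · rw [abs_le]; constructor <;> nlinarith
    · rw [abs_le]; constructor <;> nlinarith
    · rw [abs_le]; constructor <;> nlinarith
    · rw [abs_le]; constructor <;> nlinarith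
    · rw [abs_le]; constructor <;> nlinarith
  · push Not at hx2
    have g1 := abs_le.1 (Gam_bdd hθ0 hθ1 hx2.le)
    have g2 := abs_le.1 (Gam_bdd hθ0 hθ1 (x := 2 * x) (by linarith))
    have g3 := abs_le.1 (h1 x hx2.le)
    have hC1x : 0 ≤ C1 * x := by positivity
    have hC1x2 : 0 ≤ C1 * x ^ 2 := by positivity
    have hinv : 0 < 1 / x := by positivity
    have hCi : 0 ≤ C1 * (1 / x) := by positivity
    have hx22 : 1 / 4 ≤ x ^ 2 := by nlinarith
    refine ⟨?_, ?_, ?_, ?_, ?_, ?_⟩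
    · rw [abs_le]; constructor <;> linarith
    · rw [abs_le]; constructor <;> linarith
    · rw [abs_le]; constructor <;> linarith
    · rw [abs_le]; constructor <;> linarith
    · rw [abs_le]; constructor <;> linarith
    · rw [abs_le]; constructor <;> linarith

/-- `Gam θ x / x → B2 θ / 2` as `x → 0+`. -/
lemma Gam_div_tendsto {θ : ℝ} (hθ0 : 0 ≤ θ) (hθ1 : θ ≤ 1) :
    Filter.Tendsto (fun x => Gam θ x / x) (nhdsWithin 0 (Set.Ioi 0)) (nhds (B2 θ / 2)) := by
  rw [tendsto_iff_dist_tendsto_zero]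
  have hz : Filter.Tendsto (fun x : ℝ => 10 * x) (nhdsWithin 0 (Set.Ioi 0)) (nhds 0) := by
    have : Filter.Tendsto (fun x : ℝ => 10 * x) (nhds 0) (nhds (10 * 0)) :=
      (continuous_const.mul continuous_id).tendsto 0
    rw [mul_zero] at this
    exact this.mono_left nhdsWithin_le_nhds
  refine squeeze_zero' (Filter.Eventually.of_forall fun x => dist_nonneg) ?_ hz
  have hmem : Set.Ioo (0:ℝ) 1 ∈ nhdsWithin (0:ℝ) (Set.Ioi 0) :=
    Ioo_mem_nhdsGT (by norm_num)
  filter_upwards [hmem] with x hx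
  rw [Real.dist_eq]
  have h := Gam_small hθ0 hθ1 hx.1 hx.2.le
  have e : Gam θ x / x - B2 θ / 2 = (Gam θ x - B2 θ / 2 * x) / x := by
    have := hx.1.ne'
    field_simp
  rw [e, abs_div, abs_of_pos hx.1, div_le_iff₀ hx.1]
  calc _ ≤ 10 * x ^ 2 := h
    _ = 10 * x * x := by ring

lemma Gam_tendsto_zero {θ : ℝ} (hθ0 : 0 ≤ θ) (hθ1 : θ ≤ 1) :
    Filter.Tendsto (fun x => Gam θ x) (nhdsWithin 0 (Set.Ioi 0)) (nhds 0) := by
  have h1 := Gam_div_tendsto hθ0 hθ1
  have h2 : Filter.Tendsto (fun x : ℝ => x) (nhdsWithin 0 (Set.Ioi 0)) (nhds 0) :=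
    Filter.Tendsto.mono_left Filter.tendsto_id nhdsWithin_le_nhds
  have h3 := h1.mul h2
  rw [mul_zero] at h3
  refine h3.congr' ?_
  filter_upwards [self_mem_nhdsWithin] with x hx
  have : x ≠ 0 := ne_of_gt hx
  field_simp

/-- behaviour at infinity for `θ > 0` -/
lemma Gam_tendsto_atTop {θ : ℝ} (hθ0 : 0 < θ) :
    Filter.Tendsto (fun x => Gam θ x) Filter.atTop (nhds (-(1 / 2 - θ))) := by
  have h1 : Filter.Tendsto (fun x : ℝ => exp (-(θ * x))) Filter.atTop (nhds 0) := by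
    have : Filter.Tendsto (fun x : ℝ => -(θ * x)) Filter.atTop Filter.atBot := by
      apply Filter.tendsto_neg_atTop_atBot.comp
      exact Filter.Tendsto.const_mul_atTop hθ0 Filter.tendsto_id
    exact Real.tendsto_exp_atBot.comp this
  have h2 : Filter.Tendsto (fun x : ℝ => 1 - exp (-x)) Filter.atTop (nhds (1 - 0)) := by
    apply Filter.Tendsto.sub tendsto_const_nhds
    exact Real.tendsto_exp_atBot.comp Filter.tendsto_neg_atTop_atBot
  have h3 : Filter.Tendsto (fun x : ℝ => 1 / x) Filter.atTop (nhds 0) := by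
    simpa using tendsto_inv_atTop_zero (𝕜 := ℝ)
  have h4 := ((h1.div h2 (by norm_num)).sub h3).sub
    (tendsto_const_nhds (x := (1 / 2 - θ)) (f := Filter.atTop))
  simpa [Gam] using h4

lemma Gam_tendsto_atTop_zero :
    Filter.Tendsto (fun x => Gam 0 x) Filter.atTop (nhds (1 / 2)) := by
  have h1 : Filter.Tendsto (fun x : ℝ => exp (-(0 * x))) Filter.atTop (nhds 1) := by
    simp
  have h2 : Filter.Tendsto (fun x : ℝ => 1 - exp (-x)) Filter.atTop (nhds (1 - 0)) := by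
    apply Filter.Tendsto.sub tendsto_const_nhds
    exact Real.tendsto_exp_atBot.comp Filter.tendsto_neg_atTop_atBot
  have h3 : Filter.Tendsto (fun x : ℝ => 1 / x) Filter.atTop (nhds 0) := by
    simpa using tendsto_inv_atTop_zero (𝕜 := ℝ)
  have h4 := ((h1.div h2 (by norm_num)).sub h3).sub
    (tendsto_const_nhds (x := (1 / 2 - (0:ℝ))) (f := Filter.atTop))
  have e : (1:ℝ) / (1 - 0) - 0 - (1 / 2 - 0) = 1 / 2 := by norm_num
  rw [e] at h4
  exact h4

lemma Gam_continuousOn (θ : ℝ) : ContinuousOn (fun x => Gam θ x) (Set.Ioi 0) := by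
  unfold Gam
  apply ContinuousOn.sub
  · apply ContinuousOn.sub
    · apply ContinuousOn.div
      · fun_prop
      · fun_prop
      · intro x hx
        exact (one_sub_exp_neg_pos hx).ne'
    · apply ContinuousOn.div
      · fun_prop
      · fun_prop
      · intro x hx
        exact ne_of_gt hx
  · fun_prop

end Pool.Agent.Lib_helper5


end

section

/-!
Weighted periodic geometric series.
-/

namespace Pool.Agent.Lib_helper5

open Real Finset

/-- the weight `1/2` at `0` and `1` elsewhere -/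
noncomputable def hw (n : ℕ) : ℝ := if n = 0 then 1 / 2 else 1

lemma hw_nonneg (n : ℕ) : 0 ≤ hw n := by
  unfold hw; split_ifs <;> norm_num

lemma hw_le_one (n : ℕ) : hw n ≤ 1 := by
  unfold hw; split_ifs <;> norm_num

/-- minus the sawtooth function at `r / q` for `0 ≤ r < q` -/
noncomputable def bet (q r : ℕ) : ℝ := if r = 0 then 0 else 1 / 2 - (r : ℝ) / q

/-- the closed form of the weighted geometric series over `n ≡ r mod q` -/
noncomputable def psi (q r : ℕ) (t : ℝ) : ℝ :=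
  1 / (q * t) + bet q r + Gam ((r : ℝ) / q) (q * t)

lemma psi_eq (q r : ℕ) (hq : 0 < q) (t : ℝ) (ht : 0 < t) :
    psi q r t = exp (-(r * t)) / (1 - exp (-(q * t))) - (if r = 0 then 1 / 2 else 0) := by
  unfold psi bet Gam
  have hq' : (0:ℝ) < q := by exact_mod_cast hq
  have e : (r : ℝ) / q * (q * t) = r * t := by field_simp
  rw [e]
  split_ifs with h
  · subst h; simp; ring
  · ring

/-- basic geometric series over a residue class -/
lemma hasSum_residue (q r : ℕ) (hq : 0 < q) (hr : r < q) (t : ℝ) (ht : 0 < t) :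
    HasSum (fun n : ℕ => if n % q = r then exp (-(t * n)) else 0)
      (exp (-(r * t)) / (1 - exp (-(q * t)))) := by
  have hq' : (0:ℝ) < q := by exact_mod_cast hq
  have hinj : Function.Injective (fun k : ℕ => r + q * k) := by
    intro a b h
    have : q * a = q * b := by simpa using h
    exact Nat.eq_of_mul_eq_mul_left hq this
  rw [← hinj.hasSum_iff]
  · have h1 : exp (-(q * t)) < 1 := by
      rw [exp_lt_one_iff]
      have : 0 < q * t := by positivity
      linarith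
    have h0 : 0 ≤ exp (-(q * t)) := (exp_pos _).le
    have hg := (hasSum_geometric_of_lt_one h0 h1).mul_left (exp (-(r * t)))
    rw [← div_eq_mul_inv] at hg
    refine hg.congr_fun ?_
    intro k
    have hmod : (r + q * k) % q = r := by
      rw [Nat.add_mul_mod_self_left, Nat.mod_eq_of_lt hr]
    simp only [Function.comp, hmod, if_true]
    rw [← exp_nat_mul, ← exp_add]
    congr 1
    push_cast
    ring
  · intro n hn
    have : n % q ≠ r := by
      intro h
      apply hn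
      refine ⟨n / q, ?_⟩
      simp only
      rw [← h]
      exact Nat.mod_add_div n q
    simp [this]

lemma hasSum_hw_residue (q r : ℕ) (hq : 0 < q) (hr : r < q) (t : ℝ) (ht : 0 < t) :
    HasSum (fun n : ℕ => if n % q = r then hw n * exp (-(t * n)) else 0) (psi q r t) := by
  rw [psi_eq q r hq t ht]
  have h1 := hasSum_residue q r hq hr t ht
  have h2 : HasSum (fun n : ℕ => if n = 0 then (if r = 0 then (1:ℝ) / 2 else 0) else 0)
      (if r = 0 then (1:ℝ) / 2 else 0) := hasSum_ite_eq 0 _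
  refine (h1.sub h2).congr_fun ?_
  intro n
  by_cases hn : n = 0
  · subst hn
    by_cases hr0 : r = 0
    · subst hr0; simp [hw]; norm_num
    · have : ¬ (0 = r) := fun h => hr0 h.symm
      simp [this, hr0]
  · simp [hn, hw]

/-- Periodic coefficients, one variable. -/
lemma hasSum_hw_periodic (q : ℕ) (hq : 0 < q) (c : ℕ → ℝ) (hc : ∀ n, c (n % q) = c n) (t : ℝ)
    (ht : 0 < t) :
    HasSum (fun n : ℕ => hw n * c n * exp (-(t * n))) (∑ r ∈ range q, c r * psi q r t) := by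
  have h := hasSum_sum (s := range q)
    (f := fun r (n : ℕ) => c r * (if n % q = r then hw n * exp (-(t * n)) else 0))
    (a := fun r => c r * psi q r t)
    (fun r hr => (hasSum_hw_residue q r hq (mem_range.1 hr) t ht).mul_left (c r))
  refine h.congr_fun ?_
  intro n
  have hmem : n % q ∈ range q := mem_range.2 (Nat.mod_lt _ hq)
  rw [Finset.sum_eq_single_of_mem (n % q) hmem]
  · simp only [if_true]
    rw [hc n]; ring
  · intro r _ hne
    simp [hne.symm]

/-- the two variable generating function -/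
noncomputable def FF (q1 q2 : ℕ) (g : ℕ → ℕ → ℝ) (l m : ℝ) : ℝ :=
  ∑ r ∈ range q1, ∑ s ∈ range q2, g r s * (psi q1 r l * psi q2 s m)

lemma hasSum_FF (q1 q2 : ℕ) (h1 : 0 < q1) (h2 : 0 < q2) (g : ℕ → ℕ → ℝ)
    (hg : ∀ x z, g (x % q1) (z % q2) = g x z) (l m : ℝ) (hl : 0 < l) (hm : 0 < m) :
    HasSum (fun p : ℕ × ℕ => hw p.1 * hw p.2 * g p.1 p.2 * exp (-(l * p.1 + m * p.2)))
      (FF q1 q2 g l m) := by
  unfold FF
  have hbase : ∀ r < q1, ∀ s < q2, HasSum (fun p : ℕ × ℕ =>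
      (if p.1 % q1 = r then hw p.1 * exp (-(l * p.1)) else 0) *
      (if p.2 % q2 = s then hw p.2 * exp (-(m * p.2)) else 0)) (psi q1 r l * psi q2 s m) := by
    intro r hr s hs
    have hA := hasSum_hw_residue q1 r h1 hr l hl
    have hB := hasSum_hw_residue q2 s h2 hs m hm
    apply HasSum.mul hA hB
    apply Summable.mul_of_nonneg hA.summable hB.summable
    · intro n
      simp only [Pi.zero_apply]
      split_ifs
      · exact mul_nonneg (hw_nonneg _) (exp_pos _).le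
      · exact le_rfl
    · intro n
      simp only [Pi.zero_apply]
      split_ifs
      · exact mul_nonneg (hw_nonneg _) (exp_pos _).le
      · exact le_rfl
  have h := hasSum_sum (s := range q1) (f := fun r (p : ℕ × ℕ) => ∑ s ∈ range q2, g r s *
      ((if p.1 % q1 = r then hw p.1 * exp (-(l * p.1)) else 0) *
      (if p.2 % q2 = s then hw p.2 * exp (-(m * p.2)) else 0)))
    (a := fun r => ∑ s ∈ range q2, g r s * (psi q1 r l * psi q2 s m))
    (fun r hr => hasSum_sum (fun s hs =>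
      (hbase r (mem_range.1 hr) s (mem_range.1 hs)).mul_left (g r s)))
  refine h.congr_fun ?_
  intro p
  have hm1 : p.1 % q1 ∈ range q1 := mem_range.2 (Nat.mod_lt _ h1)
  have hm2 : p.2 % q2 ∈ range q2 := mem_range.2 (Nat.mod_lt _ h2)
  rw [Finset.sum_eq_single_of_mem (p.1 % q1) hm1]
  · rw [Finset.sum_eq_single_of_mem (p.2 % q2) hm2]
    · simp only [if_true]
      rw [hg p.1 p.2, neg_add, exp_add]; ring
    · intro s _ hne
      simp [hne.symm]
  · intro r _ hne
    apply Finset.sum_eq_zero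
    intro s _
    simp [hne.symm]

/-- the kernel -/
noncomputable def kf (s : ℝ) : ℝ := exp (-s) - exp (-(2 * s))

lemma kf_nonneg {s : ℝ} (hs : 0 ≤ s) : 0 ≤ kf s := by
  unfold kf
  have : exp (-(2 * s)) ≤ exp (-s) := exp_le_exp.2 (by linarith)
  linarith

lemma kf_le (s : ℝ) : kf s ≤ exp (-s) := by
  unfold kf
  have := exp_pos (-(2 * s))
  linarith

lemma kf_continuous : Continuous kf := by
  unfold kf
  fun_prop

/-- the difference of the generating function at `(l,m)` and `(2l,2m)` -/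
noncomputable def GG (q1 q2 : ℕ) (g : ℕ → ℕ → ℝ) (l m : ℝ) : ℝ :=
  FF q1 q2 g l m - FF q1 q2 g (2 * l) (2 * m)

lemma hasSum_GG (q1 q2 : ℕ) (h1 : 0 < q1) (h2 : 0 < q2) (g : ℕ → ℕ → ℝ)
    (hg : ∀ x z, g (x % q1) (z % q2) = g x z) (l m : ℝ) (hl : 0 < l) (hm : 0 < m) :
    HasSum (fun p : ℕ × ℕ => hw p.1 * hw p.2 * g p.1 p.2 * kf (l * p.1 + m * p.2))
      (GG q1 q2 g l m) := by
  unfold GG
  have a := hasSum_FF q1 q2 h1 h2 g hg l m hl hm
  have b := hasSum_FF q1 q2 h1 h2 g hg (2 * l) (2 * m) (by linarith) (by linarith)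
  refine (a.sub b).congr_fun ?_
  intro p
  unfold kf
  have : -(2 * l * (p.1 : ℝ) + 2 * m * p.2) = -(2 * (l * p.1 + m * p.2)) := by ring
  rw [this]
  ring

end Pool.Agent.Lib_helper5


end
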