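import Mathlib
import Pool.Agent.RQM.C01

/-! Parts: Lib_helper5.Cone, Lib_helper5.Cone2 -/

section

/-!
The two Frullani type limits.
-/

namespace Pool.Agent.Lib_helper5

open Real MeasureTheory Set Filter Topology
open Finset (range)

lemma le_K_of {u C X : ℝ} (hX : 0 < X) (h1 : u ≤ C * X) (h2 : u ≤ C * (1 / X)) :
    u ≤ (2 * C) * (X / (1 + X ^ 2)) := by
  rw [← mul_div_assoc, le_div_iff₀ (by positivity)]
  have h3 : u * X ^ 2 ≤ C * (1 / X) * X ^ 2 := by gcongr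
  have h4 : C * (1 / X) * X ^ 2 = C * X := by field_simp
  nlinarith

/-- the expansion of a product of two `psi`'s without its singular terms -/
noncomputable def TT (q1 r q2 s : ℕ) (x y : ℝ) : ℝ :=
  Gam ((s : ℝ) / q2) y / x + bet q1 r * bet q2 s + bet q1 r * Gam ((s : ℝ) / q2) y
    + Gam ((r : ℝ) / q1) x / y + Gam ((r : ℝ) / q1) x * bet q2 s
    + Gam ((r : ℝ) / q1) x * Gam ((s : ℝ) / q2) y

lemma FF_eq_TT (q1 q2 : ℕ) (g : ℕ → ℕ → ℝ)
    (hs : ∑ r ∈ range q1, ∑ s ∈ range q2, g r s = 0)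
    (hs1 : ∑ r ∈ range q1, ∑ s ∈ range q2, g r s * bet q1 r = 0)
    (hs2 : ∑ r ∈ range q1, ∑ s ∈ range q2, g r s * bet q2 s = 0)
    (l m : ℝ) :
    FF q1 q2 g l m = ∑ r ∈ range q1, ∑ s ∈ range q2, g r s * TT q1 r q2 s (q1 * l) (q2 * m) := by
  have h1 : FF q1 q2 g l m = (∑ r ∈ range q1, ∑ s ∈ range q2,
        (g r s * TT q1 r q2 s (q1 * l) (q2 * m)))
      + (∑ r ∈ range q1, ∑ s ∈ range q2, g r s) * (1 / (q1 * l) * (1 / (q2 * m)))
      + (∑ r ∈ range q1, ∑ s ∈ range q2, g r s * bet q1 r) * (1 / (q2 * m))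
      + (∑ r ∈ range q1, ∑ s ∈ range q2, g r s * bet q2 s) * (1 / (q1 * l)) := by
    unfold FF
    rw [Finset.sum_mul, Finset.sum_mul, Finset.sum_mul]
    simp only [Finset.sum_mul]
    simp only [← Finset.sum_add_distrib]
    apply Finset.sum_congr rfl
    intro r _
    apply Finset.sum_congr rfl
    intro s _
    unfold psi TT
    ring
  rw [h1, hs, hs1, hs2]
  ring

lemma div_mem01 {q r : ℕ} (hr : r < q) : 0 ≤ (r : ℝ) / q ∧ (r : ℝ) / q ≤ 1 := by
  have hq : (0:ℝ) < q := by exact_mod_cast (Nat.zero_le r).trans_lt hr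
  constructor
  · positivity
  · rw [div_le_one hq]
    exact_mod_cast hr.le

lemma TT_bound {q1 r q2 s : ℕ} (hr : r < q1) (hs : s < q2) {c1 c2 : ℝ} (hc1 : 0 < c1)
    (hc2 : 0 < c2) :
    ∃ C : ℝ, 0 ≤ C ∧ ∀ X x y : ℝ, 0 < X → c1 * X ≤ x → x ≤ c2 * X → c1 * X ≤ y → y ≤ c2 * X →
      |TT q1 r q2 s x y - TT q1 r q2 s (2 * x) (2 * y)| ≤ C * (X / (1 + X ^ 2)) := by
  obtain ⟨h1, h2⟩ := div_mem01 hr
  obtain ⟨h3, h4⟩ := div_mem01 hs
  obtain ⟨C1, hC1, B1⟩ := Gam_bounds h1 h2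
  obtain ⟨C2, hC2, B2'⟩ := Gam_bounds h3 h4
  set θ1 := (r : ℝ) / q1
  set θ2 := (s : ℝ) / q2
  set b1 := bet q1 r
  set b2 := bet q2 s
  -- constants
  refine ⟨2 * (C2 * c2 ^ 2 / c1 + C2 / c1) + 2 * (|b1| * (C2 * c2 + C2 / c1))
    + 2 * (C1 * c2 ^ 2 / c1 + C1 / c1) + 2 * (|b2| * (C1 * c2 + C1 / c1))
    + 2 * (C1 * C2 * c2 + C1 * C2 / c1) + 2 * (C1 * C2 * c2 + C1 * C2 / c1), by positivity, ?_⟩
  intro X x y hX hx1 hx2 hy1 hy2
  have hx : 0 < x := lt_of_lt_of_le (by positivity) hx1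
  have hy : 0 < y := lt_of_lt_of_le (by positivity) hy1
  obtain ⟨a1, a2, a3, a4, a5, a6⟩ := B1 x hx
  obtain ⟨e1, e2, e3, e4, e5, e6⟩ := B2' y hy
  obtain ⟨a1', a2', -, -, -, -⟩ := B1 (2 * x) (by linarith)
  have key : TT q1 r q2 s x y - TT q1 r q2 s (2 * x) (2 * y)
      = (2 * Gam θ2 y - Gam θ2 (2 * y)) / (2 * x) + b1 * (Gam θ2 y - Gam θ2 (2 * y))
        + (2 * Gam θ1 x - Gam θ1 (2 * x)) / (2 * y) + b2 * (Gam θ1 x - Gam θ1 (2 * x))
        + (Gam θ1 x - Gam θ1 (2 * x)) * Gam θ2 y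
        + Gam θ1 (2 * x) * (Gam θ2 y - Gam θ2 (2 * y)) := by
    unfold TT
    simp only [θ1, θ2, b1, b2]
    field_simp
    ring
  rw [key]
  -- bounds of the pieces
  have ix : 1 / x ≤ (1 / c1) * (1 / X) := by
    rw [one_div_mul_one_div]
    exact one_div_le_one_div_of_le (by positivity) hx1
  have iy : 1 / y ≤ (1 / c1) * (1 / X) := by
    rw [one_div_mul_one_div]
    exact one_div_le_one_div_of_le (by positivity) hy1
  have P1 : |(2 * Gam θ2 y - Gam θ2 (2 * y)) / (2 * x)|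
      ≤ (2 * (C2 * c2 ^ 2 / c1 + C2 / c1)) * (X / (1 + X ^ 2)) := by
    rw [abs_div, abs_of_pos (by positivity : 0 < 2 * x)]
    apply le_K_of hX
    · calc |2 * Gam θ2 y - Gam θ2 (2 * y)| / (2 * x) ≤ (C2 * y ^ 2) / (2 * x) := by gcongr
        _ ≤ (C2 * (c2 * X) ^ 2) / (c1 * X) := by
            have h2x : c1 * X ≤ 2 * x := by linarith
            apply div_le_div₀ (by positivity) _ (by positivity) h2x
            gcongr
        _ = (C2 * c2 ^ 2 / c1) * X := by field_simp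
        _ ≤ _ := by
            apply mul_le_mul_of_nonneg_right _ hX.le
            have : 0 ≤ C2 / c1 := by positivity
            linarith
    · calc |2 * Gam θ2 y - Gam θ2 (2 * y)| / (2 * x) ≤ C2 / (2 * x) := by gcongr
        _ ≤ C2 / (c1 * X) := by
            have h2x : c1 * X ≤ 2 * x := by linarith
            exact div_le_div_of_nonneg_left hC2 (by positivity) h2x
        _ = (C2 / c1) * (1 / X) := by field_simp
        _ ≤ _ := by
            apply mul_le_mul_of_nonneg_right _ (by positivity)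
            have : 0 ≤ C2 * c2 ^ 2 / c1 := by positivity
            linarith
  have P3 : |(2 * Gam θ1 x - Gam θ1 (2 * x)) / (2 * y)|
      ≤ (2 * (C1 * c2 ^ 2 / c1 + C1 / c1)) * (X / (1 + X ^ 2)) := by
    rw [abs_div, abs_of_pos (by positivity : 0 < 2 * y)]
    apply le_K_of hX
    · calc |2 * Gam θ1 x - Gam θ1 (2 * x)| / (2 * y) ≤ (C1 * x ^ 2) / (2 * y) := by gcongr
        _ ≤ (C1 * (c2 * X) ^ 2) / (c1 * X) := by
            have h2y : c1 * X ≤ 2 * y := by linarith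
            apply div_le_div₀ (by positivity) _ (by positivity) h2y
            gcongr
        _ = (C1 * c2 ^ 2 / c1) * X := by field_simp
        _ ≤ _ := by
            apply mul_le_mul_of_nonneg_right _ hX.le
            have : 0 ≤ C1 / c1 := by positivity
            linarith
    · calc |2 * Gam θ1 x - Gam θ1 (2 * x)| / (2 * y) ≤ C1 / (2 * y) := by gcongr
        _ ≤ C1 / (c1 * X) := by
            have h2y : c1 * X ≤ 2 * y := by linarith
            exact div_le_div_of_nonneg_left hC1 (by positivity) h2y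
        _ = (C1 / c1) * (1 / X) := by field_simp
        _ ≤ _ := by
            apply mul_le_mul_of_nonneg_right _ (by positivity)
            have : 0 ≤ C1 * c2 ^ 2 / c1 := by positivity
            linarith
  have Q2 : |Gam θ2 y - Gam θ2 (2 * y)| ≤ (2 * (C2 * c2 + C2 / c1)) * (X / (1 + X ^ 2)) := by
    apply le_K_of hX
    · calc |Gam θ2 y - Gam θ2 (2 * y)| ≤ C2 * y := e3
        _ ≤ C2 * (c2 * X) := by gcongr
        _ = (C2 * c2) * X := by ring
        _ ≤ _ := by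
            apply mul_le_mul_of_nonneg_right _ hX.le
            have : 0 ≤ C2 / c1 := by positivity
            linarith
    · calc |Gam θ2 y - Gam θ2 (2 * y)| ≤ C2 * (1 / y) := e4
        _ ≤ C2 * ((1 / c1) * (1 / X)) := by gcongr
        _ = (C2 / c1) * (1 / X) := by ring
        _ ≤ _ := by
            apply mul_le_mul_of_nonneg_right _ (by positivity)
            have : 0 ≤ C2 * c2 := by positivity
            linarith
  have Q1 : |Gam θ1 x - Gam θ1 (2 * x)| ≤ (2 * (C1 * c2 + C1 / c1)) * (X / (1 + X ^ 2)) := by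
    apply le_K_of hX
    · calc |Gam θ1 x - Gam θ1 (2 * x)| ≤ C1 * x := a3
        _ ≤ C1 * (c2 * X) := by gcongr
        _ = (C1 * c2) * X := by ring
        _ ≤ _ := by
            apply mul_le_mul_of_nonneg_right _ hX.le
            have : 0 ≤ C1 / c1 := by positivity
            linarith
    · calc |Gam θ1 x - Gam θ1 (2 * x)| ≤ C1 * (1 / x) := a4
        _ ≤ C1 * ((1 / c1) * (1 / X)) := by gcongr
        _ = (C1 / c1) * (1 / X) := by ring
        _ ≤ _ := by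
            apply mul_le_mul_of_nonneg_right _ (by positivity)
            have : 0 ≤ C1 * c2 := by positivity
            linarith
  have hK : 0 ≤ X / (1 + X ^ 2) := by positivity
  have P2 : |b1 * (Gam θ2 y - Gam θ2 (2 * y))|
      ≤ (2 * (|b1| * (C2 * c2 + C2 / c1))) * (X / (1 + X ^ 2)) := by
    rw [abs_mul]
    calc |b1| * |Gam θ2 y - Gam θ2 (2 * y)|
        ≤ |b1| * ((2 * (C2 * c2 + C2 / c1)) * (X / (1 + X ^ 2))) := by gcongr
      _ = _ := by ring
  have P4 : |b2 * (Gam θ1 x - Gam θ1 (2 * x))|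
      ≤ (2 * (|b2| * (C1 * c2 + C1 / c1))) * (X / (1 + X ^ 2)) := by
    rw [abs_mul]
    calc |b2| * |Gam θ1 x - Gam θ1 (2 * x)|
        ≤ |b2| * ((2 * (C1 * c2 + C1 / c1)) * (X / (1 + X ^ 2))) := by gcongr
      _ = _ := by ring
  have P5 : |(Gam θ1 x - Gam θ1 (2 * x)) * Gam θ2 y|
      ≤ (2 * (C1 * C2 * c2 + C1 * C2 / c1)) * (X / (1 + X ^ 2)) := by
    rw [abs_mul]
    calc |Gam θ1 x - Gam θ1 (2 * x)| * |Gam θ2 y|
        ≤ ((2 * (C1 * c2 + C1 / c1)) * (X / (1 + X ^ 2))) * C2 := by gcongr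
      _ = _ := by ring
  have P6 : |Gam θ1 (2 * x) * (Gam θ2 y - Gam θ2 (2 * y))|
      ≤ (2 * (C1 * C2 * c2 + C1 * C2 / c1)) * (X / (1 + X ^ 2)) := by
    rw [abs_mul]
    calc |Gam θ1 (2 * x)| * |Gam θ2 y - Gam θ2 (2 * y)|
        ≤ C1 * ((2 * (C2 * c2 + C2 / c1)) * (X / (1 + X ^ 2))) := by gcongr
      _ = _ := by ring
  rw [abs_le] at P1 P2 P3 P4 P5 P6 ⊢
  constructor <;> linarith [P1.1, P1.2, P2.1, P2.2, P3.1, P3.2, P4.1, P4.2, P5.1, P5.2, P6.1, P6.2]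

end Pool.Agent.Lib_helper5


end

section

/-!
The Frullani type limit for a cone.
-/

namespace Pool.Agent.Lib_helper5

open Real MeasureTheory Set Filter Topology
open Finset (range)

lemma FF_diff_bound (q1 q2 : ℕ) (hq1 : 0 < q1) (hq2 : 0 < q2) (g : ℕ → ℕ → ℝ)
    (hs : ∑ r ∈ range q1, ∑ s ∈ range q2, g r s = 0)
    (hs1 : ∑ r ∈ range q1, ∑ s ∈ range q2, g r s * bet q1 r = 0)
    (hs2 : ∑ r ∈ range q1, ∑ s ∈ range q2, g r s * bet q2 s = 0)
    {c1 c2 : ℝ} (hc1 : 0 < c1) (hc2 : 0 < c2) :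
    ∃ C : ℝ, 0 ≤ C ∧ ∀ X l m : ℝ, 0 < X → c1 * X ≤ l → l ≤ c2 * X → c1 * X ≤ m → m ≤ c2 * X →
      |FF q1 q2 g l m - FF q1 q2 g (2 * l) (2 * m)| ≤ C * (X / (1 + X ^ 2)) := by
  have hq1' : (1:ℝ) ≤ q1 := by exact_mod_cast hq1
  have hq2' : (1:ℝ) ≤ q2 := by exact_mod_cast hq2
  have hch : ∀ r s : ℕ, ∃ C : ℝ, 0 ≤ C ∧ (r < q1 → s < q2 → ∀ X x y : ℝ, 0 < X →
      c1 * X ≤ x → x ≤ (c2 * (q1 + q2)) * X → c1 * X ≤ y → y ≤ (c2 * (q1 + q2)) * X →
      |TT q1 r q2 s x y - TT q1 r q2 s (2 * x) (2 * y)| ≤ C * (X / (1 + X ^ 2))) := by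
    intro r s
    by_cases hrs : r < q1 ∧ s < q2
    · obtain ⟨C, hC, h⟩ := TT_bound hrs.1 hrs.2 hc1 (c2 := c2 * (q1 + q2)) (by positivity)
      exact ⟨C, hC, fun _ _ => h⟩
    · exact ⟨0, le_rfl, fun a b => absurd ⟨a, b⟩ hrs⟩
  choose Cf hCf hCb using hch
  refine ⟨∑ r ∈ range q1, ∑ s ∈ range q2, |g r s| * Cf r s, ?_, ?_⟩
  · apply Finset.sum_nonneg
    intro r _
    apply Finset.sum_nonneg
    intro s _
    exact mul_nonneg (abs_nonneg _) (hCf r s)
  intro X l m hX hl1 hl2 hm1 hm2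
  have hl : 0 < l := lt_of_lt_of_le (by positivity) hl1
  have hm : 0 < m := lt_of_lt_of_le (by positivity) hm1
  rw [FF_eq_TT q1 q2 g hs hs1 hs2, FF_eq_TT q1 q2 g hs hs1 hs2, ← Finset.sum_sub_distrib]
  rw [Finset.sum_mul]
  refine (Finset.abs_sum_le_sum_abs _ _).trans (Finset.sum_le_sum ?_)
  intro r hr
  rw [← Finset.sum_sub_distrib, Finset.sum_mul]
  refine (Finset.abs_sum_le_sum_abs _ _).trans (Finset.sum_le_sum ?_)
  intro s hs'
  rw [← mul_sub, abs_mul, mul_assoc]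
  apply mul_le_mul_of_nonneg_left _ (abs_nonneg _)
  rw [show (q1:ℝ) * (2 * l) = 2 * (q1 * l) by ring, show (q2:ℝ) * (2 * m) = 2 * (q2 * m) by ring]
  apply hCb r s (Finset.mem_range.1 hr) (Finset.mem_range.1 hs') X (q1 * l) (q2 * m) hX
  · nlinarith
  · have h5 : (q1:ℝ) * l ≤ q1 * (c2 * X) := by gcongr
    have h6 : 0 ≤ (q2:ℝ) * (c2 * X) := by positivity
    linarith
  · nlinarith
  · have h5 : (q2:ℝ) * m ≤ q2 * (c2 * X) := by gcongr
    have h6 : 0 ≤ (q1:ℝ) * (c2 * X) := by positivity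
    linarith

lemma psi_continuousOn (q r : ℕ) (hq : 0 < q) : ContinuousOn (psi q r) (Ioi 0) := by
  have hq' : (0:ℝ) < q := by exact_mod_cast hq
  unfold psi
  apply ContinuousOn.add
  · apply ContinuousOn.add
    · apply ContinuousOn.div continuousOn_const (by fun_prop)
      intro x hx
      have hx' : 0 < x := hx
      positivity
    · exact continuousOn_const
  · apply (Gam_continuousOn ((r : ℝ) / q)).comp (by fun_prop)
    intro x hx
    have hx' : 0 < x := hx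
    exact mul_pos hq' hx'

lemma FF_continuousOn (q1 q2 : ℕ) (hq1 : 0 < q1) (hq2 : 0 < q2) (g : ℕ → ℕ → ℝ) :
    ContinuousOn (fun p : ℝ × ℝ => FF q1 q2 g p.1 p.2) (Ioi 0 ×ˢ Ioi 0) := by
  unfold FF
  apply continuousOn_finsetSum
  intro r _
  apply continuousOn_finsetSum
  intro s _
  apply ContinuousOn.mul continuousOn_const
  apply ContinuousOn.mul
  · exact (psi_continuousOn q1 r hq1).comp continuousOn_fst (fun p hp => hp.1)
  · exact (psi_continuousOn q2 s hq2).comp continuousOn_snd (fun p hp => hp.2)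

lemma psi_tendsto_atTop (q r : ℕ) (hq : 0 < q) :
    Tendsto (psi q r) atTop (𝓝 (if r = 0 then 1 / 2 else 0)) := by
  have hq' : (0:ℝ) < q := by exact_mod_cast hq
  have h1 : Tendsto (fun t : ℝ => 1 / ((q:ℝ) * t)) atTop (𝓝 0) := by
    apply tendsto_const_nhds.div_atTop
    exact tendsto_id.const_mul_atTop hq'
  have hT : Tendsto (fun t : ℝ => (q:ℝ) * t) atTop atTop := tendsto_id.const_mul_atTop hq'
  by_cases hr : r = 0
  · subst hr
    have h2 := (h1.add (tendsto_const_nhds (x := bet q 0))).add (Gam_tendsto_atTop_zero.comp hT)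
    simp only [Nat.cast_zero, if_true] at h2 ⊢
    have e : (0:ℝ) + bet q 0 + 1 / 2 = 1 / 2 := by simp [bet]
    rw [e] at h2
    refine h2.congr ?_
    intro t
    simp [psi]
  · have hpos : (0:ℝ) < (r : ℝ) / q := by
      have : (0:ℝ) < r := by exact_mod_cast Nat.pos_of_ne_zero hr
      positivity
    have h2 := (h1.add (tendsto_const_nhds (x := bet q r))).add
      ((Gam_tendsto_atTop hpos).comp hT)
    simp only [hr, if_false]
    have e : (0:ℝ) + bet q r + -(1 / 2 - (r : ℝ) / q) = 0 := by simp [bet, hr]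
    rw [e] at h2
    exact h2

lemma FF_tendsto_atTop (q1 q2 : ℕ) (hq1 : 0 < q1) (hq2 : 0 < q2) (g : ℕ → ℕ → ℝ)
    (h00 : g 0 0 = 0) {v w : ℝ} (hv : 0 < v) (hw : 0 < w) :
    Tendsto (fun X => FF q1 q2 g (v * X) (w * X)) atTop (𝓝 0) := by
  have e : (0:ℝ) = ∑ r ∈ range q1, ∑ s ∈ range q2, g r s *
      ((if r = 0 then 1 / 2 else 0) * (if s = 0 then 1 / 2 else 0)) := by
    symm
    apply Finset.sum_eq_zero
    intro r _
    apply Finset.sum_eq_zero
    intro s _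
    by_cases hr : r = 0
    · by_cases hs : s = 0
      · subst hr; subst hs; rw [h00, zero_mul]
      · simp [hs]
    · simp [hr]
  rw [e]
  unfold FF
  apply tendsto_finsetSum
  intro r _
  apply tendsto_finsetSum
  intro s _
  apply Tendsto.const_mul
  exact ((psi_tendsto_atTop q1 r hq1).comp (tendsto_id.const_mul_atTop hv)).mul
    ((psi_tendsto_atTop q2 s hq2).comp (tendsto_id.const_mul_atTop hw))

lemma tendsto_mul_pos_nhdsGT {c : ℝ} (hc : 0 < c) :
    Tendsto (fun X : ℝ => c * X) (𝓝[>] 0) (𝓝[>] 0) := by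
  rw [tendsto_nhdsWithin_iff]
  constructor
  · have : Tendsto (fun Y : ℝ => c * Y) (𝓝 0) (𝓝 (c * 0)) :=
      (continuous_const.mul continuous_id).tendsto 0
    rw [mul_zero] at this
    exact this.mono_left nhdsWithin_le_nhds
  · filter_upwards [self_mem_nhdsWithin] with Y hY
    have hY' : 0 < Y := hY
    exact mul_pos hc hY'

/-- the limit value -/
noncomputable def aa (q1 q2 : ℕ) (g : ℕ → ℕ → ℝ) (v w : ℝ) : ℝ :=
  ∑ r ∈ range q1, ∑ s ∈ range q2, g r s * (bet q1 r * bet q2 s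
    + (q2 * w) / (q1 * v) * (B2 ((s : ℝ) / q2) / 2)
    + (q1 * v) / (q2 * w) * (B2 ((r : ℝ) / q1) / 2))

lemma TT_tendsto {q1 r q2 s : ℕ} (hr : r < q1) (hs : s < q2) {v w : ℝ} (hv : 0 < v)
    (hw : 0 < w) :
    Tendsto (fun X => TT q1 r q2 s (q1 * (v * X)) (q2 * (w * X))) (𝓝[>] 0)
      (𝓝 (bet q1 r * bet q2 s
    + (q2 * w) / (q1 * v) * (B2 ((s : ℝ) / q2) / 2)
    + (q1 * v) / (q2 * w) * (B2 ((r : ℝ) / q1) / 2))) := by
  have hq1 : (0:ℝ) < q1 := by exact_mod_cast (Nat.zero_le r).trans_lt hr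
  have hq2 : (0:ℝ) < q2 := by exact_mod_cast (Nat.zero_le s).trans_lt hs
  obtain ⟨h1, h2⟩ := div_mem01 hr
  obtain ⟨h3, h4⟩ := div_mem01 hs
  have c1 : Tendsto (fun X : ℝ => (q1:ℝ) * (v * X)) (𝓝[>] 0) (𝓝[>] 0) := by
    have := tendsto_mul_pos_nhdsGT (mul_pos hq1 hv)
    simpa only [mul_assoc] using this
  have c2 : Tendsto (fun X : ℝ => (q2:ℝ) * (w * X)) (𝓝[>] 0) (𝓝[>] 0) := by
    have := tendsto_mul_pos_nhdsGT (mul_pos hq2 hw)
    simpa only [mul_assoc] using this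
  have g1 := (Gam_tendsto_zero h1 h2).comp c1
  have g2 := (Gam_tendsto_zero h3 h4).comp c2
  have d1 := (Gam_div_tendsto h1 h2).comp c1
  have d2 := (Gam_div_tendsto h3 h4).comp c2
  have E := (((((d2.const_mul ((q2 * w) / (q1 * v))).add
    (tendsto_const_nhds (x := bet q1 r * bet q2 s))).add (g2.const_mul (bet q1 r))).add
    (d1.const_mul ((q1 * v) / (q2 * w)))).add (g1.mul_const (bet q2 s))).add (g1.mul g2)
  have e2 : (q2 * w) / (q1 * v) * (B2 ((s : ℝ) / q2) / 2) + bet q1 r * bet q2 s + bet q1 r * 0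
      + (q1 * v) / (q2 * w) * (B2 ((r : ℝ) / q1) / 2) + 0 * bet q2 s + 0 * 0
      = bet q1 r * bet q2 s
    + (q2 * w) / (q1 * v) * (B2 ((s : ℝ) / q2) / 2)
    + (q1 * v) / (q2 * w) * (B2 ((r : ℝ) / q1) / 2) := by ring
  rw [e2] at E
  refine E.congr' ?_
  filter_upwards [self_mem_nhdsWithin] with X hX
  have hX' : 0 < X := hX
  unfold TT
  simp only [Function.comp]
  have e3 : (q2:ℝ) * w / (q1 * v) * (Gam ((s : ℝ) / q2) (q2 * (w * X)) / (q2 * (w * X)))
      = Gam ((s : ℝ) / q2) (q2 * (w * X)) / (q1 * (v * X)) := by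
    field_simp
  have e4 : (q1:ℝ) * v / (q2 * w) * (Gam ((r : ℝ) / q1) (q1 * (v * X)) / (q1 * (v * X)))
      = Gam ((r : ℝ) / q1) (q1 * (v * X)) / (q2 * (w * X)) := by
    field_simp
  rw [e3, e4]

lemma FF_tendsto_zero (q1 q2 : ℕ) (g : ℕ → ℕ → ℝ)
    (hs : ∑ r ∈ range q1, ∑ s ∈ range q2, g r s = 0)
    (hs1 : ∑ r ∈ range q1, ∑ s ∈ range q2, g r s * bet q1 r = 0)
    (hs2 : ∑ r ∈ range q1, ∑ s ∈ range q2, g r s * bet q2 s = 0)
    {v w : ℝ} (hv : 0 < v) (hw : 0 < w) :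
    Tendsto (fun X => FF q1 q2 g (v * X) (w * X)) (𝓝[>] 0) (𝓝 (aa q1 q2 g v w)) := by
  simp_rw [FF_eq_TT q1 q2 g hs hs1 hs2]
  unfold aa
  apply tendsto_finsetSum
  intro r hr
  apply tendsto_finsetSum
  intro s hs'
  apply Tendsto.const_mul
  exact TT_tendsto (Finset.mem_range.1 hr) (Finset.mem_range.1 hs') hv hw

end Pool.Agent.Lib_helper5


end
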