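import Mathlib
import Pool.Agent.RQM.C01
import Pool.Agent.RQM.C02
import Pool.Agent.RQM.C03
import Pool.Agent.RQM.C04
import Pool.Agent.RQM.C05

/-! Parts: Lib_helper5.Cone3, Lib_helper5.Engine2, Lib_helper5.EdgeCount -/

namespace Pool.Agent.LibH4
end Pool.Agent.LibH4
namespace Pool.Agent.LibH4.FA
end Pool.Agent.LibH4.FA

section

/-!
The Frullani type limit for a cone.
-/

namespace Pool.Agent.Lib_helper5

open Real MeasureTheory Set Filter Topology
open Finset (range)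

attribute [local irreducible] FF

/-- the generating function along the rays -/
noncomputable def PhiC (q1 q2 : ℕ) (g : ℕ → ℕ → ℝ) (v w v' w' X Y : ℝ) : ℝ :=
  FF q1 q2 g (v * X + v' * Y) (w * X + w' * Y)

lemma PhiC_swap (q1 q2 : ℕ) (g : ℕ → ℕ → ℝ) (v w v' w' X Y : ℝ) :
    PhiC q1 q2 g v w v' w' X Y = PhiC q1 q2 g v' w' v w Y X := by
  unfold PhiC
  rw [add_comm (v * X), add_comm (w * X)]

lemma PhiC_two (q1 q2 : ℕ) (g : ℕ → ℕ → ℝ) (v w v' w' X Y : ℝ) :
    PhiC q1 q2 g v w v' w' (2 * X) (2 * Y)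
      = FF q1 q2 g (2 * (v * X + v' * Y)) (2 * (w * X + w' * Y)) := by
  unfold PhiC
  rw [show v * (2 * X) + v' * (2 * Y) = 2 * (v * X + v' * Y) by ring,
        show w * (2 * X) + w' * (2 * Y) = 2 * (w * X + w' * Y) by ring]

lemma PhiC_continuousOn (q1 q2 : ℕ) (hq1 : 0 < q1) (hq2 : 0 < q2) (g : ℕ → ℕ → ℝ)
    {v w v' w' : ℝ} (hv : 0 < v) (hw : 0 < w) (hv' : 0 < v') (hw' : 0 < w') :
    ContinuousOn (fun p : ℝ × ℝ => PhiC q1 q2 g v w v' w' p.1 p.2) (Ioi 0 ×ˢ Ioi 0) := by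
  have hFc := FF_continuousOn q1 q2 hq1 hq2 g
  have hmap : MapsTo (fun p : ℝ × ℝ => (v * p.1 + v' * p.2, w * p.1 + w' * p.2))
      (Ioi 0 ×ˢ Ioi 0) (Ioi 0 ×ˢ Ioi 0) := by
    intro p hp
    have h1 : 0 < p.1 := hp.1
    have h2 : 0 < p.2 := hp.2
    have h3 : 0 < v * p.1 + v' * p.2 := by positivity
    have h4 : 0 < w * p.1 + w' * p.2 := by positivity
    exact ⟨h3, h4⟩
  have hc : ContinuousOn (fun p : ℝ × ℝ => (v * p.1 + v' * p.2, w * p.1 + w' * p.2))
      (Ioi 0 ×ˢ Ioi 0) := by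
    apply Continuous.continuousOn
    fun_prop
  exact hFc.comp hc hmap

lemma PhiC_tendsto (q1 q2 : ℕ) (hq1 : 0 < q1) (hq2 : 0 < q2) (g : ℕ → ℕ → ℝ)
    {v w v' w' : ℝ} (hv : 0 < v) (hw : 0 < w) (X : ℝ) (hX : 0 < X) :
    Tendsto (fun Y => PhiC q1 q2 g v w v' w' X Y) (𝓝[>] 0) (𝓝 (FF q1 q2 g (v * X) (w * X))) := by
  have hFc := FF_continuousOn q1 q2 hq1 hq2 g
  have hc : ContinuousAt (fun p : ℝ × ℝ => FF q1 q2 g p.1 p.2) (v * X, w * X) := by
    apply hFc.continuousAt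
    apply prod_mem_nhds
    · exact Ioi_mem_nhds (mul_pos hv hX)
    · exact Ioi_mem_nhds (mul_pos hw hX)
  have ht : Tendsto (fun Y : ℝ => (v * X + v' * Y, w * X + w' * Y)) (𝓝[>] 0)
      (𝓝 (v * X, w * X)) := by
    have : Tendsto (fun Y : ℝ => (v * X + v' * Y, w * X + w' * Y)) (𝓝 0)
        (𝓝 (v * X + v' * 0, w * X + w' * 0)) := by
      apply Continuous.tendsto
      fun_prop
    simp only [mul_zero, add_zero] at this
    exact this.mono_left nhdsWithin_le_nhds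
  exact hc.tendsto.comp ht

lemma FFray_continuousOn (q1 q2 : ℕ) (hq1 : 0 < q1) (hq2 : 0 < q2) (g : ℕ → ℕ → ℝ)
    {v w : ℝ} (hv : 0 < v) (hw : 0 < w) :
    ContinuousOn (fun X => FF q1 q2 g (v * X) (w * X)) (Ioi 0) := by
  have hFc := FF_continuousOn q1 q2 hq1 hq2 g
  have hc : ContinuousOn (fun X : ℝ => (v * X, w * X)) (Ioi 0) := by
    apply Continuous.continuousOn
    fun_prop
  refine hFc.comp hc ?_
  intro X hX
  have hX' : 0 < X := hX
  exact ⟨mul_pos hv hX', mul_pos hw hX'⟩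

lemma PhiC_bound (q1 q2 : ℕ) (hq1 : 0 < q1) (hq2 : 0 < q2) (g : ℕ → ℕ → ℝ)
    (hs : ∑ r ∈ range q1, ∑ s ∈ range q2, g r s = 0)
    (hs1 : ∑ r ∈ range q1, ∑ s ∈ range q2, g r s * bet q1 r = 0)
    (hs2 : ∑ r ∈ range q1, ∑ s ∈ range q2, g r s * bet q2 s = 0)
    {v w v' w' : ℝ} (hv : 0 < v) (hw : 0 < w) (hv' : 0 < v') (hw' : 0 < w') :
    ∃ C : ℝ, 0 ≤ C ∧ ∀ X Y : ℝ, 0 < X → 0 < Y → Y ≤ X →
      |PhiC q1 q2 g v w v' w' X Y - PhiC q1 q2 g v w v' w' (2 * X) (2 * Y)|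
        ≤ C * (X / (1 + X ^ 2)) := by
  have hc1 : 0 < min v w := lt_min hv hw
  have hc2 : 0 < v + w + v' + w' := by positivity
  obtain ⟨C, hC, hb⟩ := FF_diff_bound q1 q2 hq1 hq2 g hs hs1 hs2 hc1 hc2
  refine ⟨C, hC, fun X Y hX hY hYX => ?_⟩
  rw [PhiC_two]
  unfold PhiC
  have m1 : min v w ≤ v := min_le_left _ _
  have m2 : min v w ≤ w := min_le_right _ _
  have vY := mul_pos hv' hY
  have wY := mul_pos hw' hY
  have vX := mul_pos hv hX
  have wX := mul_pos hw hX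
  have vX' := mul_pos hv' hX
  have wX' := mul_pos hw' hX
  apply hb X _ _ hX
  · have := mul_le_mul_of_nonneg_right m1 hX.le
    linarith
  · have := mul_le_mul_of_nonneg_left hYX hv'.le
    linarith
  · have := mul_le_mul_of_nonneg_right m2 hX.le
    linarith
  · have := mul_le_mul_of_nonneg_left hYX hw'.le
    linarith

theorem cone_limit (q1 q2 : ℕ) (hq1 : 0 < q1) (hq2 : 0 < q2) (g : ℕ → ℕ → ℝ)
    (hs : ∑ r ∈ range q1, ∑ s ∈ range q2, g r s = 0)
    (hs1 : ∑ r ∈ range q1, ∑ s ∈ range q2, g r s * bet q1 r = 0)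
    (hs2 : ∑ r ∈ range q1, ∑ s ∈ range q2, g r s * bet q2 s = 0)
    (h00 : g 0 0 = 0) {v w v' w' : ℝ} (hv : 0 < v) (hw : 0 < w) (hv' : 0 < v') (hw' : 0 < w') :
    Tendsto (fun τ => ∫ X in Ioi (0:ℝ), X⁻¹ *
      GG q1 q2 g (v * X + v' * (τ / X)) (w * X + w' * (τ / X)))
      (𝓝[>] 0) (𝓝 (log 2 * (aa q1 q2 g v w + aa q1 q2 g v' w'))) := by
  obtain ⟨C1, hC1, hb1⟩ := PhiC_bound q1 q2 hq1 hq2 g hs hs1 hs2 hv hw hv' hw'
  obtain ⟨C2, hC2, hb2⟩ := PhiC_bound q1 q2 hq1 hq2 g hs hs1 hs2 hv' hw' hv hw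
  have key := full_limit (PhiC q1 q2 g v w v' w')
    (fun X => FF q1 q2 g (v * X) (w * X)) (fun Y => FF q1 q2 g (v' * Y) (w' * Y)) (C1 + C2)
    (aa q1 q2 g v w) (aa q1 q2 g v' w')
    (PhiC_continuousOn q1 q2 hq1 hq2 g hv hw hv' hw')
    (fun X hX => PhiC_tendsto q1 q2 hq1 hq2 g hv hw X hX)
    (fun Y hY => by
      have := PhiC_tendsto q1 q2 hq1 hq2 g hv' hw' (v' := v) (w' := w) Y hY
      simpa only [PhiC_swap q1 q2 g v' w' v w] using this)
    (fun X Y hX hY hYX _ => by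
      refine (hb1 X Y hX hY hYX).trans ?_
      have : 0 ≤ X / (1 + X ^ 2) := by positivity
      nlinarith)
    (fun X Y hX hY hXY _ => by
      have h := hb2 Y X hY hX hXY
      rw [PhiC_swap q1 q2 g v' w' v w, PhiC_swap q1 q2 g v' w' v w (2 * Y)] at h
      refine h.trans ?_
      have : 0 ≤ Y / (1 + Y ^ 2) := by positivity
      nlinarith)
    (FFray_continuousOn q1 q2 hq1 hq2 g hv hw)
    (FFray_continuousOn q1 q2 hq1 hq2 g hv' hw')
    (FF_tendsto_zero q1 q2 g hs hs1 hs2 hv hw) (FF_tendsto_atTop q1 q2 hq1 hq2 g h00 hv hw)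
    (FF_tendsto_zero q1 q2 g hs hs1 hs2 hv' hw') (FF_tendsto_atTop q1 q2 hq1 hq2 g h00 hv' hw')
  refine key.congr (fun τ => ?_)
  have : ∀ X : ℝ, X⁻¹ * (PhiC q1 q2 g v w v' w' X (τ / X)
      - PhiC q1 q2 g v w v' w' (2 * X) (2 * (τ / X)))
      = X⁻¹ * GG q1 q2 g (v * X + v' * (τ / X)) (w * X + w' * (τ / X)) := by
    intro X
    rw [PhiC_two]
    rfl
  simp_rw [this]

end Pool.Agent.Lib_helper5


end

section

/-!
Sums over cones as sums over norms.
-/

namespace Pool.Agent.Lib_helper5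

open Real MeasureTheory Set Filter Topology
open Finset (range)
open Pool.Agent.LibH4 (Lam)

section

variable {q : ℕ} {f : ℤ → ℝ} {A C E : ℤ}

/-- The cone integral. -/
lemma cone_data (hq : 0 < q) (hper : ∀ x, f (x + q) = f x) (f0 : f 0 = 0)
    (hA : 0 < A) (hE : 0 < E) (hC : 0 < C) (hD : 4 * A * E < C ^ 2)
    (hmean : ∑ r ∈ range q, ∑ s ∈ range q, gq f A C E r s = 0) :
    ∃ H : ℝ → ℝ, (∀ τ, 0 < τ → HasSum (fun p : ℕ × ℕ => hw p.1 * hw p.2 *
      (gq f A C E p.1 p.2 * KK (τ * ((A * (p.1 : ℤ) ^ 2 + C * p.1 * p.2 + E * (p.2 : ℤ) ^ 2 : ℤ) : ℝ))))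
      (H τ)) ∧ Tendsto H (𝓝[>] 0) (𝓝 (log 2 * (2 * Lam q f A C E))) := by
  obtain ⟨v, w, v', w', hv, hw0, hv', hw', e1, e2, e3, e4, e5⟩ := factor_form hA hE hC hD
  have h00 : gq f A C E 0 0 = 0 := by simp [gq, f0]
  refine ⟨fun τ => ∫ X in Ioi (0:ℝ), X⁻¹ *
      GG q q (gq f A C E) (v * X + v' * (τ / X)) (w * X + w' * (τ / X)), ?_, ?_⟩
  · intro τ hτ
    have hc : 0 < min (min v w) (min v' w') := lt_min (lt_min hv hw0) (lt_min hv' hw')
    set c := min (min v w) (min v' w') with hcdef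
    have m1 : c ≤ v := (min_le_left _ _).trans (min_le_left _ _)
    have m2 : c ≤ w := (min_le_left _ _).trans (min_le_right _ _)
    have m3 : c ≤ v' := (min_le_right _ _).trans (min_le_left _ _)
    have m4 : c ≤ w' := (min_le_right _ _).trans (min_le_right _ _)
    have hex := exchange q q hq hq (gq f A C E) (gq_periodic A C E hper) (v := v) (w := w)
      (v' := v') (w' := w') (c := c) (Cb := 9 / c ^ 4) (τ := τ) hv.le hw0.le hv'.le hw'.le
      (by linarith) (by linarith) hc (by positivity) hτ ?_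
    · refine hex.congr_fun ?_
      intro p
      rw [mul_assoc (hw p.1 * hw p.2)]
      congr 3
      push_cast
      rw [← e1, ← e2, ← e3]
      ring
    · rintro ⟨x, z⟩
      simp only
      by_cases h0 : x = 0 ∧ z = 0
      · left
        rw [h0.1, h0.2, h00]
      · right
        have hxz : 1 ≤ x + z := by omega
        have hxz' : (1:ℝ) ≤ (x:ℝ) + z := by exact_mod_cast hxz
        have hx0 : (0:ℝ) ≤ x := Nat.cast_nonneg x
        have hz0 : (0:ℝ) ≤ z := Nat.cast_nonneg z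
        have b1 : c * ((x:ℝ) + z) ≤ v * x + w * z := by
          have := mul_le_mul_of_nonneg_right m1 hx0
          have := mul_le_mul_of_nonneg_right m2 hz0
          linarith
        have b2 : c * ((x:ℝ) + z) ≤ v' * x + w' * z := by
          have := mul_le_mul_of_nonneg_right m3 hx0
          have := mul_le_mul_of_nonneg_right m4 hz0
          linarith
        have b3 : c ≤ c * ((x:ℝ) + z) := by nlinarith
        refine ⟨b3.trans b1, b3.trans b2, ?_⟩
        have b4 : (1 + (x:ℝ)) * (1 + (z:ℝ)) ≤ 3 * ((x:ℝ) + z) ^ 2 := by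
          nlinarith [mul_nonneg hx0 hz0]
        have b5 : (c * ((x:ℝ) + z)) * (c * ((x:ℝ) + z)) ≤ (v * x + w * z) * (v' * x + w' * z) := by
          apply mul_le_mul b1 b2 (by positivity)
          positivity
        calc (1 + (x:ℝ)) ^ 2 * (1 + (z:ℝ)) ^ 2 = ((1 + (x:ℝ)) * (1 + (z:ℝ))) ^ 2 := by ring
          _ ≤ (3 * ((x:ℝ) + z) ^ 2) ^ 2 := by gcongr
          _ = 9 / c ^ 4 * ((c * ((x:ℝ) + z)) * (c * ((x:ℝ) + z))) ^ 2 := by
              field_simp
              norm_num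
          _ ≤ 9 / c ^ 4 * ((v * x + w * z) * (v' * x + w' * z)) ^ 2 := by gcongr
          _ = _ := by ring
  · have hlim := cone_limit q q hq hq (gq f A C E) hmean (gq_bet1 A C E hq hper)
      (gq_bet2 A C E hq hper) h00 hv hw0 hv' hw'
    have e : aa q q (gq f A C E) v w + aa q q (gq f A C E) v' w' = 2 * Lam q f A C E := by
      unfold aa Lam
      rw [← Finset.sum_add_distrib, Finset.mul_sum]
      apply Finset.sum_congr rfl
      intro r _
      rw [← Finset.sum_add_distrib, Finset.mul_sum]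
      apply Finset.sum_congr rfl
      intro s _
      have hq' : (0:ℝ) < q := by exact_mod_cast hq
      have c1 : (q:ℝ) * w / (q * v) = w / v := by field_simp
      have c2 : (q:ℝ) * v / (q * w) = v / w := by field_simp
      have c3 : (q:ℝ) * w' / (q * v') = w' / v' := by field_simp
      have c4 : (q:ℝ) * v' / (q * w') = v' / w' := by field_simp
      rw [c1, c2, c3, c4]
      have d1 : (C:ℝ) / (4 * A) = (w / v + w' / v') / 4 := by rw [e4]; ring
      have d2 : (C:ℝ) / (4 * E) = (v / w + v' / w') / 4 := by rw [e5]; ring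
      rw [d1, d2]
      unfold gq
      ring
    rw [e] at hlim
    exact hlim

/-- one dimensional sums over rays -/
noncomputable def rho (f : ℤ → ℝ) (τ : ℝ) (n : ℤ) : ℝ :=
  ∑' x : ℕ, if x = 0 then 0 else f (n * (x : ℤ) ^ 2) * KK (τ * ((n * (x : ℤ) ^ 2 : ℤ) : ℝ))

/-- from half weights to half open cones -/
lemma halfopen {τ H : ℝ} (f0 : f 0 = 0)
    (h : HasSum (fun p : ℕ × ℕ => hw p.1 * hw p.2 *
      (gq f A C E p.1 p.2 * KK (τ * ((A * (p.1 : ℤ) ^ 2 + C * p.1 * p.2 + E * (p.2 : ℤ) ^ 2 : ℤ) : ℝ))))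
      H) :
    HasSum (fun p : ℕ × ℕ => if 1 ≤ p.1 then
      gq f A C E p.1 p.2 * KK (τ * ((A * (p.1 : ℤ) ^ 2 + C * p.1 * p.2 + E * (p.2 : ℤ) ^ 2 : ℤ) : ℝ))
      else 0) (H + 1 / 2 * rho f τ A - 1 / 2 * rho f τ E) := by
  set a : ℕ × ℕ → ℝ := fun p => gq f A C E p.1 p.2 *
    KK (τ * ((A * (p.1 : ℤ) ^ 2 + C * p.1 * p.2 + E * (p.2 : ℤ) ^ 2 : ℤ) : ℝ)) with ha
  have ha0 : a (0, 0) = 0 := by simp [ha, gq, f0]
  -- summability
  have hsum : Summable a := by
    have h1 : Summable (fun p : ℕ × ℕ => |hw p.1 * hw p.2 * a p|) := h.summable.abs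
    refine Summable.of_norm_bounded (h1.mul_left 4) ?_
    intro p
    rw [Real.norm_eq_abs, abs_mul (hw p.1 * hw p.2) (a p), abs_mul (hw p.1) (hw p.2),
      abs_of_nonneg (hw_nonneg _), abs_of_nonneg (hw_nonneg _)]
    have h2 : ∀ n, 1 / 2 ≤ hw n := by
      intro n; unfold hw; split_ifs <;> norm_num
    have h3 : 1 / 4 ≤ hw p.1 * hw p.2 := by
      have := h2 p.1
      have := h2 p.2
      nlinarith
    have := mul_le_mul_of_nonneg_right h3 (abs_nonneg (a p))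
    linarith
  have hr1 : HasSum (fun p : ℕ × ℕ => if p.2 = 0 ∧ p.1 ≠ 0 then a p else 0) (rho f τ A) := by
    have hinj : Function.Injective (fun x : ℕ => (x, 0) : ℕ → ℕ × ℕ) := by
      intro x y hxy
      simpa using hxy
    rw [← hinj.hasSum_iff]
    · have h4 : Summable ((fun p : ℕ × ℕ => if p.2 = 0 ∧ p.1 ≠ 0 then a p else 0) ∘
          (fun x : ℕ => (x, 0))) := by
        apply Summable.comp_injective _ hinj
        refine Summable.of_norm_bounded hsum.norm ?_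
        intro p
        split_ifs
        · exact le_rfl
        · simp
      have h5 : rho f τ A = ∑' x : ℕ, ((fun p : ℕ × ℕ => if p.2 = 0 ∧ p.1 ≠ 0 then a p else 0) ∘
          (fun x : ℕ => (x, 0))) x := by
        unfold rho
        apply tsum_congr
        intro x
        simp only [Function.comp]
        by_cases hx : x = 0
        · simp [hx]
        · simp [hx, ha, gq]
      rw [h5]
      exact h4.hasSum
    · intro p hp
      have : ¬ (p.2 = 0 ∧ p.1 ≠ 0) := by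
        rintro ⟨h6, _⟩
        apply hp
        exact ⟨p.1, by ext <;> simp [h6]⟩
      simp only [this, if_false]
  have hr2 : HasSum (fun p : ℕ × ℕ => if p.1 = 0 ∧ p.2 ≠ 0 then a p else 0) (rho f τ E) := by
    have hinj : Function.Injective (fun x : ℕ => (0, x) : ℕ → ℕ × ℕ) := by
      intro x y hxy
      simpa using hxy
    rw [← hinj.hasSum_iff]
    · have h4 : Summable ((fun p : ℕ × ℕ => if p.1 = 0 ∧ p.2 ≠ 0 then a p else 0) ∘
          (fun x : ℕ => (0, x))) := by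
        apply Summable.comp_injective _ hinj
        refine Summable.of_norm_bounded hsum.norm ?_
        intro p
        split_ifs
        · exact le_rfl
        · simp
      have h5 : rho f τ E = ∑' x : ℕ, ((fun p : ℕ × ℕ => if p.1 = 0 ∧ p.2 ≠ 0 then a p else 0) ∘
          (fun x : ℕ => (0, x))) x := by
        unfold rho
        apply tsum_congr
        intro x
        simp only [Function.comp]
        by_cases hx : x = 0
        · simp [hx]
        · simp [hx, ha, gq]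
      rw [h5]
      exact h4.hasSum
    · intro p hp
      have : ¬ (p.1 = 0 ∧ p.2 ≠ 0) := by
        rintro ⟨h6, _⟩
        apply hp
        exact ⟨p.2, by ext <;> simp [h6]⟩
      simp only [this, if_false]
  refine ((h.add (hr1.mul_left (1 / 2))).sub (hr2.mul_left (1 / 2))).congr_fun ?_
  rintro ⟨x, z⟩
  rcases Nat.eq_zero_or_pos x with hx | hx
  · rcases Nat.eq_zero_or_pos z with hz | hz
    · subst hx; subst hz
      have : gq f A C E 0 0 = 0 := by simp [gq, f0]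
      simp [this]
    · have hz' : z ≠ 0 := by omega
      subst hx
      simp [hw, hz', ha]
  · have hx' : x ≠ 0 := by omega
    have hx1 : 1 ≤ x := hx
    rcases Nat.eq_zero_or_pos z with hz | hz
    · subst hz
      simp [hw, hx', hx1, ha]
      ring
    · have hz' : z ≠ 0 := by omega
      simp [hw, hx', hx1, hz', ha]

/-- the fibre counts -/
noncomputable def cnt (A C E : ℤ) (n : ℕ) : ℕ :=
  {p : ℕ × ℕ | 1 ≤ p.1 ∧ A * (p.1 : ℤ) ^ 2 + C * p.1 * p.2 + E * (p.2 : ℤ) ^ 2 = n}.ncard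

lemma cone_fiber {τ T : ℝ} (hA : 0 < A) (hE : 0 < E) (hC : 0 < C)
    (h : HasSum (fun p : ℕ × ℕ => if 1 ≤ p.1 then
      gq f A C E p.1 p.2 * KK (τ * ((A * (p.1 : ℤ) ^ 2 + C * p.1 * p.2 + E * (p.2 : ℤ) ^ 2 : ℤ) : ℝ))
      else 0) T) :
    HasSum (fun n : ℕ => (cnt A C E n : ℝ) * (f n * KK (τ * n))) T := by
  set F : ℕ × ℕ → ℝ := fun p : ℕ × ℕ => if 1 ≤ p.1 then
      gq f A C E p.1 p.2 * KK (τ * ((A * (p.1 : ℤ) ^ 2 + C * p.1 * p.2 + E * (p.2 : ℤ) ^ 2 : ℤ) : ℝ))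
      else 0 with hF
  set φ : ℕ × ℕ → ℕ := fun p : ℕ × ℕ =>
    (A * (p.1 : ℤ) ^ 2 + C * p.1 * p.2 + E * (p.2 : ℤ) ^ 2).toNat with hφ
  have h1 : HasSum (fun c : ℕ => ∑' b : φ ⁻¹' {c}, F b) T := h.tsum_fiberwise φ
  refine h1.congr_fun ?_
  intro n
  rw [tsum_subtype (φ ⁻¹' {n}) F]
  have hnn : ∀ p : ℕ × ℕ, 0 ≤ A * (p.1 : ℤ) ^ 2 + C * p.1 * p.2 + E * (p.2 : ℤ) ^ 2 := by
    intro p
    positivity
  have h2 : ∀ p : ℕ × ℕ, (p ∈ φ ⁻¹' {n}) ↔
      A * (p.1 : ℤ) ^ 2 + C * p.1 * p.2 + E * (p.2 : ℤ) ^ 2 = n := by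
    intro p
    simp only [mem_preimage, mem_singleton_iff, hφ]
    have := Int.toNat_of_nonneg (hnn p)
    constructor
    · intro h3
      rw [h3] at this
      exact this.symm
    · intro h3
      rw [h3] at this ⊢
      exact_mod_cast this
  have h3 : (φ ⁻¹' {n}).indicator F = {p : ℕ × ℕ | 1 ≤ p.1 ∧
        A * (p.1 : ℤ) ^ 2 + C * p.1 * p.2 + E * (p.2 : ℤ) ^ 2 = n}.indicator
        (fun _ => f n * KK (τ * n)) := by
    ext p
    by_cases hp : A * (p.1 : ℤ) ^ 2 + C * p.1 * p.2 + E * (p.2 : ℤ) ^ 2 = n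
    · rw [indicator_of_mem ((h2 p).2 hp), hF]
      simp only
      by_cases hp1 : 1 ≤ p.1
      · rw [if_pos hp1, indicator_of_mem (by exact ⟨hp1, hp⟩)]
        unfold gq
        rw [hp]
        simp
      · rw [if_neg hp1, indicator_of_notMem]
        exact fun h4 => hp1 h4.1
    · rw [indicator_of_notMem (fun h4 => hp ((h2 p).1 h4)), indicator_of_notMem]
      exact fun h4 => hp h4.2
  rw [h3, ← tsum_subtype, tsum_const, nsmul_eq_mul]
  rfl

end

end Pool.Agent.Lib_helper5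


end

section

/-!
Points on an edge and points in unimodular cones; mean values.
-/

namespace Pool.Agent.Lib_helper5

open Finset (range)
open Pool.Agent.LibH4 Pool.Agent.LibH4.FA

/-- points of norm `n` on an edge -/
def edgeSet (P R S : ℤ) (N n : ℕ) : Set (ℕ × ℕ) :=
  {z | 1 ≤ z.1 ∧ z.2 < N * z.1 ∧ P * (z.1 : ℤ) ^ 2 + R * z.1 * z.2 - S * (z.2 : ℤ) ^ 2 = n}

lemma edge_count (P R S : ℤ) (N n : ℕ) (hfin : (edgeSet P R S N n).Finite) :
    (edgeSet P R S N n).ncard =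
      ∑ i ∈ range N, cnt (Ai P R S i) (Ci P R S i) (Ai P R S (i + 1)) n := by
  rw [Set.ncard_eq_toFinset_card _ hfin]
  have hmap : ∀ z ∈ hfin.toFinset, z.2 / z.1 ∈ range N := by
    intro z hz
    rw [Set.Finite.mem_toFinset] at hz
    obtain ⟨h1, h2, _⟩ := hz
    rw [Finset.mem_range]
    exact (Nat.div_lt_iff_lt_mul (by omega)).2 h2
  rw [Finset.card_eq_sum_card_fiberwise hmap]
  apply Finset.sum_congr rfl
  intro i hi
  have hiN := Finset.mem_range.1 hi
  unfold cnt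
  have hinj : Function.Injective (fun p : ℕ × ℕ => (p.1 + p.2, i * p.1 + (i + 1) * p.2)) := by
    rintro ⟨x, z⟩ ⟨x', z'⟩ h
    simp only [Prod.mk.injEq] at h
    obtain ⟨h1, h2⟩ := h
    have h3 : i * x + (i + 1) * z = i * (x + z) + z := by ring
    have h4 : i * x' + (i + 1) * z' = i * (x' + z') + z' := by ring
    rw [h3, h4, h1] at h2
    have h5 : z = z' := by omega
    ext <;> simp <;> omega
  rw [← Set.ncard_image_of_injective _ hinj, ← Set.ncard_coe_finset]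
  congr 1
  ext z
  simp only [Finset.coe_filter, Set.Finite.mem_toFinset, Set.mem_ofPred_eq, Set.mem_image,
    edgeSet]
  constructor
  · rintro ⟨⟨h1, h2, h3⟩, h4⟩
    have h5 : i * z.1 ≤ z.2 := by
      rw [← h4]; exact Nat.div_mul_le_self _ _
    have h6 : z.2 < (i + 1) * z.1 := by
      rw [← h4]
      exact Nat.lt_mul_of_div_lt (Nat.lt_succ_self _) (by omega)
    refine ⟨((i + 1) * z.1 - z.2, z.2 - i * z.1), ⟨?_, ?_⟩, ?_⟩
    · simp only; omega
    · simp only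
      rw [Nat.cast_sub h6.le, Nat.cast_sub h5, ← h3]
      push_cast
      unfold Ai Ci
      ring
    · have e1 : (i + 1) * z.1 = i * z.1 + z.1 := by ring
      ext
      · simp only
        omega
      · simp only
        zify [h6.le, h5]
        ring
  · rintro ⟨p, ⟨h1, h2⟩, rfl⟩
    simp only
    have e1 : i * p.1 + (i + 1) * p.2 = i * (p.1 + p.2) + p.2 := by ring
    have h7 : (i * p.1 + (i + 1) * p.2) / (p.1 + p.2) = i := by
      have hpos : 0 < p.1 + p.2 := by omega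
      rw [e1, mul_comm i, Nat.mul_add_div hpos, Nat.div_eq_of_lt (by omega), add_zero]
    refine ⟨⟨by omega, ?_, ?_⟩, h7⟩
    · rw [e1]
      have h8 : (i + 1) * (p.1 + p.2) ≤ N * (p.1 + p.2) := Nat.mul_le_mul_right _ hiN
      have e2 : (i + 1) * (p.1 + p.2) = i * (p.1 + p.2) + (p.1 + p.2) := by ring
      omega
    · rw [← h2]
      push_cast
      unfold Ai Ci
      ring

section mean

variable {q : ℕ} [NeZero q] (F : ZMod q → ℝ)

lemma mean_cone (P R S i : ℤ) :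
    S2 (fun u v : ZMod q => F ((Ai P R S i : ZMod q) * u ^ 2 + (Ci P R S i : ZMod q) * u * v
      + (Ai P R S (i + 1) : ZMod q) * v ^ 2)) = S2 (fun x y => F (QQ (P : ZMod q) R S x y)) := by
  rw [← S2_comp (eq1 (i : ZMod q)) (fun u v : ZMod q => F ((Ai P R S i : ZMod q) * u ^ 2 +
    (Ci P R S i : ZMod q) * u * v + (Ai P R S (i + 1) : ZMod q) * v ^ 2))]
  apply S2_congr
  intro x y
  simp only [eq1, Equiv.coe_fn_mk]
  congr 1
  unfold Ai Ci QQ
  push_cast
  ring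

lemma mean_one (hodd : ∀ x, F (-x) = -F x) (a t : ZMod q) :
    S2 (fun x y => F (QQ 1 ((a ^ 2 + 1) * t + a) (1 + a * t) x y)) = 0 := by
  have h1 : S2 (fun x y => F (QQ 1 ((a ^ 2 + 1) * t + a) (1 + a * t) x y))
      = S2 (fun x y => F (QQ (1 + a * t) ((a ^ 2 + 1) * t + a) 1 x y)) := by
    rw [← S2_comp (eq5 a) (fun x y => F (QQ 1 ((a ^ 2 + 1) * t + a) (1 + a * t) x y))]
    apply S2_congr
    intro x y
    simp only [eq5, Equiv.coe_fn_mk]
    congr 1
    unfold QQ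
    ring
  have h2 : S2 (fun x y => F (QQ (1 + a * t) ((a ^ 2 + 1) * t + a) 1 x y))
      = - S2 (fun x y => F (QQ 1 ((a ^ 2 + 1) * t + a) (1 + a * t) x y)) := by
    rw [← S2_comp eq3 (fun x y => F (QQ 1 ((a ^ 2 + 1) * t + a) (1 + a * t) x y)),
      neg_eq_neg_one_mul, ← S2_smul]
    apply S2_congr
    intro x y
    simp only [eq3, Equiv.coe_fn_mk]
    have e : QQ 1 ((a ^ 2 + 1) * t + a) (1 + a * t) y (-x)
        = - QQ (1 + a * t) ((a ^ 2 + 1) * t + a) 1 x y := by unfold QQ; ring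
    rw [e, hodd]
    ring
  linarith

lemma mean_two (hodd : ∀ x, F (-x) = -F x) (a t : ZMod q) :
    S2 (fun x y => F (QQ (1 + a * t) ((a ^ 2 + 1) * t + a) 1 x y)) = 0 := by
  rw [← mean_one F hodd a t]
  symm
  rw [← S2_comp (eq5 a) (fun x y => F (QQ 1 ((a ^ 2 + 1) * t + a) (1 + a * t) x y))]
  apply S2_congr
  intro x y
  simp only [eq5, Equiv.coe_fn_mk]
  congr 1
  unfold QQ
  ring

lemma mean_three (hodd : ∀ x, F (-x) = -F x) (a t : ZMod q) :
    S2 (fun x y => F (QQ (1 + a * t) (2 * (1 + a * t) * a - ((a ^ 2 + 1) * t + a)) (1 + a * t)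
      x y)) = 0 := by
  rw [← mean_one F hodd a t]
  symm
  rw [← S2_comp (eq2 a) (fun x y => F (QQ 1 ((a ^ 2 + 1) * t + a) (1 + a * t) x y))]
  apply S2_congr
  intro x y
  simp only [eq2, Equiv.coe_fn_mk]
  congr 1
  unfold QQ
  ring

/-- conversion of the mean value condition -/
lemma mean_range {f : ℤ → ℝ} (hper : ∀ x, f (x + q) = f x) (A C E : ℤ) :
    ∑ r ∈ range q, ∑ u ∈ range q, gq f A C E r u =
      S2 (fun u v : ZMod q => Fq q f ((A : ZMod q) * u ^ 2 + (C : ZMod q) * u * v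
      + (E : ZMod q) * v ^ 2)) := by
  rw [sum_range_S2 (q := q) (fun r s => gq f A C E r s)]
  apply S2_congr
  intro x y
  unfold gq
  rw [← Fq_intCast hper]
  push_cast
  rw [ZMod.natCast_zmod_val, ZMod.natCast_zmod_val]

end mean

end Pool.Agent.Lib_helper5


end
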