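import Mathlib
import Pool.Agent.RQM.C02

/-! Parts: Lib_helper5.NormNeg -/

namespace Pool.Agent.LibH4
end Pool.Agent.LibH4
namespace Pool.Agent.LibH4.FA
end Pool.Agent.LibH4.FA

section

/-!
Elements of norm `-1` modulo `q`, and the mean value condition.
-/

namespace Pool.Agent.Lib_helper5

open Finset (range)
open Pool.Agent.LibH4 Pool.Agent.LibH4.FA

/-- solution modulo an odd prime of `X² - d Y² = -4` -/
lemma exists_mod_p (p : ℕ) [Fact p.Prime] (hp2 : p ≠ 2) (D : ZMod p) (hD : D ≠ 0) :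
    ∃ X Y : ZMod p, X ^ 2 - D * Y ^ 2 = -4 := by
  have hodd : Fintype.card (ZMod p) % 2 = 1 := by
    rw [ZMod.card]
    have hp : p.Prime := Fact.out
    exact Nat.odd_iff.1 (hp.odd_of_ne_two hp2)
  obtain ⟨X, Y, h⟩ := FiniteField.exists_root_sum_quadratic
    (f := (Polynomial.X ^ 2 + Polynomial.C 4 : Polynomial (ZMod p)))
    (g := (Polynomial.C (-D) * Polynomial.X ^ 2 : Polynomial (ZMod p)))
    (by
      rw [Polynomial.degree_X_pow_add_C (by norm_num)]
      rfl)
    (by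
      rw [Polynomial.degree_C_mul_X_pow]
      · rfl
      · exact neg_ne_zero.mpr hD) hodd
  refine ⟨X, Y, ?_⟩
  simp only [Polynomial.eval_add, Polynomial.eval_pow, Polynomial.eval_X, Polynomial.eval_C,
    Polynomial.eval_mul] at h
  linear_combination h

/-- square roots of `1 mod p` elements modulo odd prime powers -/
lemma exists_sqrt_one (p : ℕ) (hp : p.Prime) (hp2 : p ≠ 2) (k : ℕ) (u : ℤ)
    (hu : (p : ℤ) ∣ u - 1) : ∃ v : ℤ, (p : ℤ) ∣ v - 1 ∧ ((p : ℤ) ^ k) ∣ v ^ 2 - u := by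
  induction k with
  | zero => exact ⟨1, by simp, by simp⟩
  | succ k ih =>
    rcases Nat.eq_zero_or_pos k with hk | hk
    · subst hk
      refine ⟨1, by simp, ?_⟩
      rw [zero_add, pow_one, one_pow]
      have := dvd_neg.mpr hu
      rwa [neg_sub] at this
    · obtain ⟨v, hv1, e, he⟩ := ih
      -- choose t with 2 v t + e = 0 mod p
      have hcop : IsCoprime (2 * v) (p : ℤ) := by
        obtain ⟨s, hs⟩ := hv1
        have h2 : IsCoprime (2 : ℤ) (p : ℤ) := by
          have : Nat.Coprime 2 p := (Nat.coprime_primes Nat.prime_two hp).2 (Ne.symm hp2)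
          exact_mod_cast Nat.isCoprime_iff_coprime.2 this
        have hv : IsCoprime v (p : ℤ) := by
          refine ⟨1, -s, ?_⟩
          linear_combination hs
        exact h2.mul_left hv
      obtain ⟨a, b, hab⟩ := hcop
      refine ⟨v + (-(e * a)) * (p : ℤ) ^ k, ?_, ?_⟩
      · have h1 : (p : ℤ) ∣ (-(e * a)) * (p : ℤ) ^ k :=
          Dvd.dvd.mul_left (dvd_pow_self _ (by omega)) _
        have := dvd_add hv1 h1
        have e0 : v + (-(e * a)) * (p : ℤ) ^ k - 1 = v - 1 + (-(e * a)) * (p : ℤ) ^ k := by ring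
        rw [e0]
        exact this
      · have e1 : (v + (-(e * a)) * (p : ℤ) ^ k) ^ 2 - u
            = (p : ℤ) ^ (k + 1) * (e * b) + (p : ℤ) ^ (2 * k) * (e * a) ^ 2 := by
          have e2 : v ^ 2 = u + (p : ℤ) ^ k * e := by linarith
          have e3 : (p : ℤ) ^ (2 * k) = (p : ℤ) ^ k * (p : ℤ) ^ k := by
            rw [two_mul, pow_add]
          rw [pow_succ, e3]
          linear_combination e2 - (e * (p : ℤ) ^ k) * hab
        rw [e1]
        apply dvd_add
        · exact Dvd.intro _ rfl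
        · apply Dvd.dvd.mul_right
          exact pow_dvd_pow _ (by omega)

/-- a root of `x² + B x = c` modulo powers of two -/
lemma exists_root_two (B c : ℤ) (hB : B % 2 = 1) (hc : c % 2 = 0) (k : ℕ) :
    ∃ x : ℤ, x % 2 = 0 ∧ ((2 : ℤ) ^ k) ∣ x ^ 2 + B * x - c := by
  induction k with
  | zero => exact ⟨0, by simp, by simp⟩
  | succ k ih =>
    rcases Nat.eq_zero_or_pos k with hk | hk
    · subst hk
      refine ⟨0, by simp, ?_⟩
      rw [zero_add, pow_one]
      omega
    · obtain ⟨x, hx, e, he⟩ := ih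
      refine ⟨x - e * (2 : ℤ) ^ k, ?_, ?_⟩
      · have : (2 : ℤ) ∣ e * (2 : ℤ) ^ k := Dvd.dvd.mul_left (dvd_pow_self _ (by omega)) _
        omega
      · obtain ⟨b, hb⟩ : ∃ b, B = 2 * b + 1 := ⟨B / 2, by omega⟩
        obtain ⟨y, hy⟩ : ∃ y, x = 2 * y := ⟨x / 2, by omega⟩
        have e1 : (x - e * (2 : ℤ) ^ k) ^ 2 + B * (x - e * (2 : ℤ) ^ k) - c
            = (2 : ℤ) ^ (k + 1) * (- (2 * e * y) - e * b) + (2 : ℤ) ^ (2 * k) * e ^ 2 := by
          have e3 : (2 : ℤ) ^ (2 * k) = (2 : ℤ) ^ k * (2 : ℤ) ^ k := by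
            rw [two_mul, pow_add]
          rw [pow_succ, e3]
          rw [hb] at he ⊢
          rw [hy] at he ⊢
          linear_combination he
        rw [e1]
        apply dvd_add
        · exact Dvd.intro _ rfl
        · apply Dvd.dvd.mul_right
          exact pow_dvd_pow _ (by omega)

/-- elements of norm `-1` modulo `q` -/
theorem exists_norm_neg_one (m B : ℤ) (hm2 : m % 2 = 1) (hB2 : B % 2 = 1) (q : ℕ) (hq : q ≠ 0)
    (hcop : IsCoprime (q : ℤ) (B ^ 2 + 4 * m)) :
    ∃ x y : ℤ, (q : ℤ) ∣ x ^ 2 + B * x * y - m * y ^ 2 + 1 := by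
  induction q using Nat.recOnPosPrimePosCoprime with
  | zero => exact absurd rfl hq
  | one => exact ⟨0, 0, by simp⟩
  | prime_pow p k hp hk =>
    by_cases hp2 : p = 2
    · subst hp2
      obtain ⟨x, _, hx⟩ := exists_root_two B (m - 1) hB2 (by omega) k
      refine ⟨x, 1, ?_⟩
      push_cast
      convert hx using 1
      ring
    · have : Fact p.Prime := ⟨hp⟩
      -- solution mod p
      have hDp : ((B ^ 2 + 4 * m : ℤ) : ZMod p) ≠ 0 := by
        intro h0
        rw [ZMod.intCast_zmod_eq_zero_iff_dvd] at h0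
        have hcop' : IsCoprime (p : ℤ) (B ^ 2 + 4 * m) := by
          have h1 : IsCoprime ((p : ℤ) ^ k) (B ^ 2 + 4 * m) := by
            have := hcop
            push_cast at this
            exact this
          exact (IsCoprime.pow_left_iff hk).1 h1
        have := hcop'.isUnit_of_dvd' dvd_rfl h0
        rw [Int.isUnit_iff] at this
        have hpp := hp.two_le
        omega
      obtain ⟨X, Y, hXY⟩ := exists_mod_p p hp2 _ hDp
      obtain ⟨X', rfl⟩ := ZMod.intCast_surjective X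
      obtain ⟨Y', rfl⟩ := ZMod.intCast_surjective Y
      have h4 : (p : ℤ) ∣ X' ^ 2 - (B ^ 2 + 4 * m) * Y' ^ 2 + 4 := by
        rw [← ZMod.intCast_zmod_eq_zero_iff_dvd]
        push_cast at hXY ⊢
        linear_combination hXY
      -- inverse of 2 modulo p^k
      have hcop2 : IsCoprime (2 : ℤ) ((p : ℤ) ^ k) := by
        have : Nat.Coprime 2 p := (Nat.coprime_primes Nat.prime_two hp).2 (Ne.symm hp2)
        exact (by exact_mod_cast Nat.isCoprime_iff_coprime.2 this : IsCoprime (2 : ℤ) (p : ℤ)).pow_right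
      obtain ⟨i2, j2, hij⟩ := hcop2
      -- x0 = (X' - B Y') / 2
      set x0 : ℤ := (X' - B * Y') * i2 with hx0
      set N0 : ℤ := x0 ^ 2 + B * x0 * Y' - m * Y' ^ 2 with hN0
      have hp_pk : (p : ℤ) ∣ (p : ℤ) ^ k := dvd_pow_self _ (by omega)
      obtain ⟨e4, he4⟩ := h4
      obtain ⟨pk, hpk⟩ := hp_pk
      have hN0p : (p : ℤ) ∣ N0 + 1 := by
        -- 4 (N0 + 1) = (2x0 + B Y')^2 - D Y'^2 + 4
        have h5 : (p : ℤ) ∣ 4 * (N0 + 1) := by
          have e5 : 2 * x0 + B * Y' = X' - (X' - B * Y') * j2 * (p : ℤ) ^ k := by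
            rw [hx0]; linear_combination (X' - B * Y') * hij
          have e6 : 4 * (N0 + 1) = (2 * x0 + B * Y') ^ 2 - (B ^ 2 + 4 * m) * Y' ^ 2 + 4 := by
            rw [hN0]; ring
          rw [e6, e5, hpk]
          refine ⟨e4 + (-2 * X' * (X' - B * Y') * j2 * pk
            + ((X' - B * Y') * j2 * pk) ^ 2 * p), ?_⟩
          linear_combination he4
        have hcop4 : IsCoprime (p : ℤ) 4 := by
          have : Nat.Coprime p 4 := by
            have h6 : Nat.Coprime p 2 := (Nat.coprime_primes hp Nat.prime_two).2 hp2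
            have := h6.mul_right h6
            exact this
          exact_mod_cast Nat.isCoprime_iff_coprime.2 this
        exact hcop4.dvd_of_dvd_mul_left h5
      -- -N0 is a square mod p^k
      obtain ⟨v, hv1, hv2⟩ := exists_sqrt_one p hp hp2 k (-N0) (by
        have := dvd_neg.mpr hN0p
        have e0 : -N0 - 1 = -(N0 + 1) := by ring
        rw [e0]
        exact this)
      -- inverse of v mod p^k
      have hcopv : IsCoprime v ((p : ℤ) ^ k) := by
        obtain ⟨s, hs⟩ := hv1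
        have hv : IsCoprime v (p : ℤ) := ⟨1, -s, by linear_combination hs⟩
        exact hv.pow_right
      obtain ⟨iv, jv, hiv⟩ := hcopv
      refine ⟨x0 * iv, Y' * iv, ?_⟩
      obtain ⟨e7, he7⟩ := hv2
      push_cast
      refine ⟨e7 * iv ^ 2 + (jv ^ 2 * (p : ℤ) ^ k * (-1) + 2 * jv), ?_⟩
      have e8 : (x0 * iv) ^ 2 + B * (x0 * iv) * (Y' * iv) - m * (Y' * iv) ^ 2 + 1
          = N0 * iv ^ 2 + 1 := by rw [hN0]; ring
      rw [e8]
      linear_combination (iv ^ 2) * he7 - (iv * v + 1 - jv * (p : ℤ) ^ k) * hiv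
  | coprime a b ha hb hab iha ihb =>
    have hca : IsCoprime (a : ℤ) (B ^ 2 + 4 * m) := by
      push_cast at hcop
      exact hcop.of_mul_left_left
    have hcb : IsCoprime (b : ℤ) (B ^ 2 + 4 * m) := by
      push_cast at hcop
      exact hcop.of_mul_left_right
    obtain ⟨x1, y1, h1⟩ := iha (by omega) hca
    obtain ⟨x2, y2, h2⟩ := ihb (by omega) hcb
    have hab' : IsCoprime (a : ℤ) (b : ℤ) := Nat.isCoprime_iff_coprime.2 hab
    obtain ⟨s, t, hst⟩ := hab'
    -- x ≡ x1 mod a, x ≡ x2 mod b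
    refine ⟨x1 * (t * b) + x2 * (s * a), y1 * (t * b) + y2 * (s * a), ?_⟩
    push_cast
    apply IsCoprime.mul_dvd (Nat.isCoprime_iff_coprime.2 hab)
    · obtain ⟨e, he⟩ := h1
      have ht : t * (b : ℤ) = 1 - s * a := by linarith
      rw [ht]
      refine ⟨e + (x1 ^ 2 * (- 2 * s + s ^ 2 * a) + 2 * x1 * x2 * s * (1 - s * a) + x2 ^ 2 * s ^ 2 * a)
        + B * (x1 * y1 * (- 2 * s + s ^ 2 * a) + (x1 * y2 + x2 * y1) * s * (1 - s * a)
          + x2 * y2 * s ^ 2 * a)
        - m * (y1 ^ 2 * (- 2 * s + s ^ 2 * a) + 2 * y1 * y2 * s * (1 - s * a)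
          + y2 ^ 2 * s ^ 2 * a), ?_⟩
      linear_combination he
    · obtain ⟨e, he⟩ := h2
      have hs : s * (a : ℤ) = 1 - t * b := by linarith
      rw [hs]
      refine ⟨e + (x2 ^ 2 * (- 2 * t + t ^ 2 * b) + 2 * x1 * x2 * t * (1 - t * b) + x1 ^ 2 * t ^ 2 * b)
        + B * (x2 * y2 * (- 2 * t + t ^ 2 * b) + (x1 * y2 + x2 * y1) * t * (1 - t * b)
          + x1 * y1 * t ^ 2 * b)
        - m * (y2 ^ 2 * (- 2 * t + t ^ 2 * b) + 2 * y1 * y2 * t * (1 - t * b)
          + y1 ^ 2 * t ^ 2 * b), ?_⟩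
      linear_combination he

/-- multiplication by an element of norm `-1` -/
def eqN {q : ℕ} [NeZero q] (m B x0 y0 : ZMod q) (h : x0 ^ 2 + B * x0 * y0 - m * y0 ^ 2 = -1) :
    (ZMod q × ZMod q) ≃ (ZMod q × ZMod q) where
  toFun z := (z.1 * (x0 + B * y0) - z.2 * y0, z.2 * x0 - m * z.1 * y0)
  invFun z := (-z.1 * x0 - z.2 * y0, -z.2 * (x0 + B * y0) - m * z.1 * y0)
  left_inv z := by
    ext
    · simp only
      linear_combination (-z.1) * h
    · simp only
      linear_combination (-z.2) * h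
  right_inv z := by
    ext
    · simp only
      linear_combination (-z.1) * h
    · simp only
      linear_combination (-z.2) * h

lemma S2_norm_neg {q : ℕ} [NeZero q] (F : ZMod q → ℝ) (hF : ∀ x, F (-x) = -F x)
    (m B x0 y0 : ZMod q) (h : x0 ^ 2 + B * x0 * y0 - m * y0 ^ 2 = -1) :
    S2 (fun x y => F (QQ m B 1 x y)) = 0 := by
  have h1 : S2 (fun x y => F (QQ m B 1 x y)) = - S2 (fun x y => F (QQ m B 1 x y)) := by
    conv_lhs => rw [← S2_comp (eqN m B x0 y0 h) (fun x y => F (QQ m B 1 x y))]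
    rw [neg_eq_neg_one_mul, ← S2_smul]
    apply S2_congr
    intro x y
    rw [← neg_eq_neg_one_mul, ← hF]
    congr 1
    simp only [eqN, Equiv.coe_fn_mk, QQ]
    linear_combination (m * x ^ 2 + B * x * y - y ^ 2) * h
  linarith

/-- the mean value condition for even cycles -/
theorem mean_even (m B : ℤ) (hm2 : m % 2 = 1) (hB2 : B % 2 = 1) (q : ℕ) (hq : 0 < q)
    (hcop : IsCoprime (q : ℤ) (B ^ 2 + 4 * m)) (f : ℤ → ℝ) (hper : ∀ x, f (x + q) = f x)
    (hodd : ∀ x, f (-x) = - f x) :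
    ∑ r ∈ range q, ∑ s ∈ range q, f (m * (r : ℤ) ^ 2 + B * r * s - 1 * (s : ℤ) ^ 2) = 0 := by
  have : NeZero q := ⟨hq.ne'⟩
  obtain ⟨x0, y0, h⟩ := exists_norm_neg_one m B hm2 hB2 q hq.ne' hcop
  rw [← ZMod.intCast_zmod_eq_zero_iff_dvd] at h
  have key := S2_norm_neg (Fq q f) (Fq_neg hper hodd) (m : ZMod q) (B : ZMod q)
    (x0 : ZMod q) (y0 : ZMod q) (by push_cast at h; linear_combination h)
  rw [← key, sum_range_S2 (q := q) (fun r s => f (m * (r : ℤ) ^ 2 + B * r * s - 1 * (s : ℤ) ^ 2))]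
  apply S2_congr
  intro x y
  rw [← Fq_intCast hper]
  push_cast
  rw [ZMod.natCast_zmod_val, ZMod.natCast_zmod_val]
  rfl

end Pool.Agent.Lib_helper5


end
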