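import Mathlib
import Pool.Agent.RQM.C01
import Pool.Agent.RQM.C02
import Pool.Agent.RQM.C03
import Pool.Agent.RQM.C04
import Pool.Agent.RQM.C06
import Pool.Agent.RQM.C07
import Pool.Agent.RQM.C08

/-! Parts: Lib_helper5.Engine3, Lib_helper5.Family, Lib_helper5.TFive, Lib_helper5.Cycle2, Lib_helper5.ConesGen, Lib_helper5.ConesEven, Lib_helper5.EvenT5 -/

namespace Pool.Agent.LibH4
end Pool.Agent.LibH4
namespace Pool.Agent.LibH4.FA
end Pool.Agent.LibH4.FA

section

/-!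
The split side and the main identity.
-/

namespace Pool.Agent.Lib_helper5

open Real MeasureTheory Set Filter Topology
open Finset (range)
open Pool.Agent.LibH4 (Lam)

/-- the coefficient function of the split side -/
noncomputable def gs (f : ℤ → ℝ) (ψ : ℕ → ℝ) (k l : ℕ) : ℝ := f ((k : ℤ) * l) * ψ l

section

variable {q D0 : ℕ} {f : ℤ → ℝ} {ψ : ℕ → ℝ}

lemma gs_periodic (hper : ∀ x, f (x + q) = f x) (hψ : ∀ n, ψ (n % D0) = ψ n) (x z : ℕ) :
    gs f ψ (x % q) (z % (q * D0)) = gs f ψ x z := by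
  unfold gs
  congr 1
  · obtain ⟨k, hk⟩ := mod_cast_eq q x
    obtain ⟨l, hl⟩ := mod_cast_eq (q * D0) z
    rw [hk, hl]
    apply per_congr hper
    refine ⟨k * (z + l * (q * D0)) + x * l * D0, ?_⟩
    push_cast
    ring
  · rw [← hψ (z % (q * D0)), Nat.mod_mul_left_mod, hψ]

lemma gs_col (hq : 0 < q) (hper : ∀ x, f (x + q) = f x) (hodd : ∀ x, f (-x) = - f x) (l : ℕ) :
    ∑ r ∈ range q, gs f ψ r l = 0 := by
  have h1 := sum_reflect q hq (fun r => gs f ψ r l)
  have h2 : ∑ r ∈ range q, gs f ψ ((q - r) % q) l = - ∑ r ∈ range q, gs f ψ r l := by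
    rw [← Finset.sum_neg_distrib]
    apply Finset.sum_congr rfl
    intro r hr
    unfold gs
    rw [← neg_mul]
    congr 1
    rw [← hodd]
    obtain ⟨k, hk⟩ := reflect_cast q r (Finset.mem_range.1 hr)
    rw [hk]
    apply per_congr hper
    exact ⟨k * l, by ring⟩
  linarith

lemma split_data (hq : 0 < q) (hD0 : 0 < D0) (hper : ∀ x, f (x + q) = f x)
    (hodd : ∀ x, f (-x) = - f x) (hψ : ∀ n, ψ (n % D0) = ψ n)
    (hrow : ∀ k < q, ∑ l ∈ range (q * D0), gs f ψ k l = 0) :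
    ∃ S : ℝ → ℝ, (∀ τ, 0 < τ →
      HasSum (fun n : ℕ => (∑ l ∈ n.divisors, ψ l) * (f n * KK (τ * n))) (S τ)) ∧
      Tendsto S (𝓝[>] 0) (𝓝 (log 2 * (2 * bb q (q * D0) (gs f ψ)))) := by
  have f0 : f 0 = 0 := by
    have := hodd 0
    simp only [neg_zero] at this
    linarith
  have hqD : 0 < q * D0 := Nat.mul_pos hq hD0
  have h0 : ∀ s, gs f ψ 0 s = 0 := by intro s; simp [gs, f0]
  have h0' : ∀ r, gs f ψ r 0 = 0 := by intro s; simp [gs, f0]
  refine ⟨fun τ => ∫ X in Ioi (0:ℝ), X⁻¹ * GG q (q * D0) (gs f ψ) X (τ / X), ?_, ?_⟩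
  · intro τ hτ
    have hex := exchange q (q * D0) hq hqD (gs f ψ) (gs_periodic hper hψ) (v := 1) (w := 0)
      (v' := 0) (w' := 1) (c := 1) (Cb := 16) (τ := τ) (by norm_num) (by norm_num) (by norm_num)
      (by norm_num) (by norm_num) (by norm_num) (by norm_num) (by norm_num) hτ ?_
    · simp only [one_mul, zero_mul, add_zero, zero_add] at hex
      set F : ℕ × ℕ → ℝ := fun p => hw p.1 * hw p.2 * gs f ψ p.1 p.2 * KK (τ * (p.1 * p.2))
        with hF
      have h1 : HasSum (fun c : ℕ => ∑' b : (fun p : ℕ × ℕ => p.1 * p.2) ⁻¹' {c}, F b)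
        (∫ X in Ioi (0:ℝ), X⁻¹ * GG q (q * D0) (gs f ψ) X (τ / X)) :=
          hex.tsum_fiberwise (fun p : ℕ × ℕ => p.1 * p.2)
      refine h1.congr_fun ?_
      intro n
      rw [tsum_subtype ((fun p : ℕ × ℕ => p.1 * p.2) ⁻¹' {n}) F]
      rcases Nat.eq_zero_or_pos n with hn | hn
      · subst hn
        rw [Nat.divisors_zero, Finset.sum_empty, zero_mul]
        symm
        have hz : ∀ p, ((fun p : ℕ × ℕ => p.1 * p.2) ⁻¹' {0}).indicator F p = 0 := ?_
        · simp only [hz, tsum_zero]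
        intro p
        by_cases hp : p ∈ ((fun p : ℕ × ℕ => p.1 * p.2) ⁻¹' {0})
        · rw [indicator_of_mem hp, hF]
          simp only [mem_preimage, mem_singleton_iff, mul_eq_zero] at hp
          rcases hp with hp | hp
          · simp only
            rw [hp, h0]
            ring
          · simp only
            rw [hp, h0']
            ring
        · rw [indicator_of_notMem hp]
      · have hn' : n ≠ 0 := by omega
        rw [tsum_eq_sum (s := n.divisorsAntidiagonal)]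
        · have h2 : ∀ p ∈ n.divisorsAntidiagonal,
              ((fun p : ℕ × ℕ => p.1 * p.2) ⁻¹' {n}).indicator F p
              = (fun (_ l : ℕ) => ψ l * (f n * KK (τ * n))) p.1 p.2 := by
            intro p hp
            rw [Nat.mem_divisorsAntidiagonal] at hp
            have hp1 : p ∈ ((fun p : ℕ × ℕ => p.1 * p.2) ⁻¹' {n}) := hp.1
            have hpn : p.1 ≠ 0 ∧ p.2 ≠ 0 := by
              constructor
              · intro h; apply hn'; rw [← hp.1, h, zero_mul]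
              · intro h; apply hn'; rw [← hp.1, h, mul_zero]
            rw [indicator_of_mem hp1, hF]
            simp only
            have e1 : ((p.1:ℝ)) * p.2 = n := by exact_mod_cast hp.1
            have e2 : ((p.1:ℤ)) * p.2 = n := by exact_mod_cast hp.1
            rw [e1]
            unfold gs hw
            rw [e2, if_neg hpn.1, if_neg hpn.2]
            ring
          rw [Finset.sum_congr rfl h2,
            Nat.sum_divisorsAntidiagonal' (f := fun (_ l : ℕ) => ψ l * (f n * KK (τ * n))),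
            Finset.sum_mul]
        · intro p hp
          rw [indicator_of_notMem]
          intro hp2
          apply hp
          rw [Nat.mem_divisorsAntidiagonal]
          exact ⟨hp2, hn'⟩
    · rintro ⟨x, z⟩
      simp only
      rcases Nat.eq_zero_or_pos x with hx | hx
      · left; rw [hx, h0]
      rcases Nat.eq_zero_or_pos z with hz | hz
      · left; rw [hz, h0']
      right
      have hx' : (1:ℝ) ≤ x := by exact_mod_cast hx
      have hz' : (1:ℝ) ≤ z := by exact_mod_cast hz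
      refine ⟨by linarith, by linarith, ?_⟩
      have b1 : (1 + (x:ℝ)) ^ 2 ≤ 4 * (x:ℝ) ^ 2 := by nlinarith
      have b2 : (1 + (z:ℝ)) ^ 2 ≤ 4 * (z:ℝ) ^ 2 := by nlinarith
      calc (1 + (x:ℝ)) ^ 2 * (1 + (z:ℝ)) ^ 2 ≤ (4 * (x:ℝ) ^ 2) * (4 * (z:ℝ) ^ 2) := by gcongr
        _ = _ := by ring
  · have := split_limit q (q * D0) hq hqD (gs f ψ) hrow (fun s _ => gs_col hq hper hodd s) h0 h0'
    rw [← two_mul] at this
    exact this

/-- THE ENGINE. -/
theorem engine {ι : Type*} (s : Finset ι) (A C E : ι → ℤ)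
    (hA : ∀ i ∈ s, 0 < A i) (hE : ∀ i ∈ s, 0 < E i) (hC : ∀ i ∈ s, 0 < C i)
    (hD : ∀ i ∈ s, 4 * A i * E i < (C i) ^ 2)
    (hray : ∀ h : ℤ → ℝ, ∑ i ∈ s, h (A i) = ∑ i ∈ s, h (E i))
    (hq : 0 < q) (hD0 : 0 < D0) (hper : ∀ x, f (x + q) = f x)
    (hodd : ∀ x, f (-x) = - f x) (hψ : ∀ n, ψ (n % D0) = ψ n)
    (hrow : ∀ k < q, ∑ l ∈ range (q * D0), gs f ψ k l = 0)
    (hmean : ∀ i ∈ s, ∑ r ∈ range q, ∑ u ∈ range q, gq f (A i) (C i) (E i) r u = 0)
    (hcount : ∀ n : ℕ, n ≠ 0 → ∑ i ∈ s, (cnt (A i) (C i) (E i) n : ℝ) = ∑ l ∈ n.divisors, ψ l) :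
    ∑ i ∈ s, Lam q f (A i) (C i) (E i) = bb q (q * D0) (gs f ψ) := by
  have f0 : f 0 = 0 := by
    have := hodd 0
    simp only [neg_zero] at this
    linarith
  obtain ⟨S, hS1, hS2⟩ := split_data hq hD0 hper hodd hψ hrow
  have hch : ∀ i, ∃ H : ℝ → ℝ, i ∈ s → ((∀ τ, 0 < τ → HasSum (fun p : ℕ × ℕ => hw p.1 * hw p.2 *
      (gq f (A i) (C i) (E i) p.1 p.2 *
        KK (τ * ((A i * (p.1 : ℤ) ^ 2 + C i * p.1 * p.2 + E i * (p.2 : ℤ) ^ 2 : ℤ) : ℝ))))
      (H τ)) ∧ Tendsto H (𝓝[>] 0) (𝓝 (log 2 * (2 * Lam q f (A i) (C i) (E i))))) := by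
    intro i
    by_cases hi : i ∈ s
    · obtain ⟨H, hH⟩ := cone_data hq hper f0 (hA i hi) (hE i hi) (hC i hi) (hD i hi) (hmean i hi)
      exact ⟨H, fun _ => hH⟩
    · exact ⟨fun _ => 0, fun h => absurd h hi⟩
  choose H hH using hch
  have hEq : ∀ τ, 0 < τ → ∑ i ∈ s, H i τ = S τ := by
    intro τ hτ
    have h1 : ∀ i ∈ s, HasSum (fun n : ℕ => (cnt (A i) (C i) (E i) n : ℝ) * (f n * KK (τ * n)))
        (H i τ + 1 / 2 * rho f τ (A i) - 1 / 2 * rho f τ (E i)) := by
      intro i hi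
      exact cone_fiber (hA i hi) (hE i hi) (hC i hi) (halfopen f0 ((hH i hi).1 τ hτ))
    have h2 := hasSum_sum h1
    have h3 : ∑ i ∈ s, (H i τ + 1 / 2 * rho f τ (A i) - 1 / 2 * rho f τ (E i))
        = ∑ i ∈ s, H i τ := by
      rw [Finset.sum_sub_distrib, Finset.sum_add_distrib, ← Finset.mul_sum, ← Finset.mul_sum,
        hray (rho f τ)]
      ring
    rw [h3] at h2
    refine h2.unique ((hS1 τ hτ).congr_fun ?_)
    intro n
    rcases Nat.eq_zero_or_pos n with hn | hn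
    · subst hn
      simp [f0]
    · rw [← Finset.sum_mul, hcount n (by omega)]
  have hlim1 : Tendsto (fun τ => ∑ i ∈ s, H i τ) (𝓝[>] 0)
      (𝓝 (∑ i ∈ s, log 2 * (2 * Lam q f (A i) (C i) (E i)))) :=
    tendsto_finsetSum _ (fun i hi => (hH i hi).2)
  have hlim2 : Tendsto (fun τ => ∑ i ∈ s, H i τ) (𝓝[>] 0)
      (𝓝 (log 2 * (2 * bb q (q * D0) (gs f ψ)))) := by
    refine hS2.congr' ?_
    filter_upwards [self_mem_nhdsWithin] with τ hτ
    exact (hEq τ hτ).symm
  have h4 := tendsto_nhds_unique hlim1 hlim2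
  rw [← Finset.mul_sum, ← Finset.mul_sum] at h4
  have h5 : (0:ℝ) < log 2 := Real.log_pos (by norm_num)
  have h6 := mul_left_cancel₀ h5.ne' h4
  linarith

end

end Pool.Agent.Lib_helper5


end

section

/-!
The identity for the family of cf-period three.
-/

namespace Pool.Agent.Lib_helper5

open Finset (range)
open Pool.Agent.LibH4 Pool.Agent.LibH4.FA

section permutation

lemma sum_mul_perm (Q n : ℕ) (hQ : 0 < Q) (hn : Nat.Coprime n Q) (h : ℕ → ℝ) :
    ∑ l ∈ range Q, h ((n * l) % Q) = ∑ l ∈ range Q, h l := by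
  have hmaps : ∀ l ∈ range Q, (n * l) % Q ∈ range Q := fun l _ =>
    Finset.mem_range.2 (Nat.mod_lt _ hQ)
  have hinj : Set.InjOn (fun l => (n * l) % Q) (range Q : Set ℕ) := by
    intro x hx y hy hxy
    have hx' := Finset.mem_range.1 (Finset.mem_coe.1 hx)
    have hy' := Finset.mem_range.1 (Finset.mem_coe.1 hy)
    have h1 : n * x ≡ n * y [MOD Q] := hxy
    have h2 : x ≡ y [MOD Q] := Nat.ModEq.cancel_left_of_coprime hn.symm h1
    have h3 : x % Q = y % Q := h2
    rwa [Nat.mod_eq_of_lt hx', Nat.mod_eq_of_lt hy'] at h3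
  apply Finset.sum_nbij (fun l => (n * l) % Q) hmaps hinj
  · exact Finset.surjOn_of_injOn_of_card_le _ hmaps hinj le_rfl
  · intro _ _; rfl

lemma J_two {d : ℕ} (h8 : d % 8 = 5) : jacobiSym 2 d = -1 := by
  rw [jacobiSym.at_two (Nat.odd_iff.2 (by omega)), ZMod.χ₈_nat_eq_if_mod_eight]
  simp [h8]
  omega

lemma row_zero {q d : ℕ} {f : ℤ → ℝ} (hq : 0 < q) (hcop : Nat.Coprime q d) (h8 : d % 8 = 5)
    (hper : ∀ x, f (x + q) = f x) (k : ℕ) :
    ∑ l ∈ range (q * d), gs f (fun l => (jacobiSym l d : ℝ)) k l = 0 := by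
  have hd : 0 < d := by omega
  have hψ : ∀ n : ℕ, ((jacobiSym ((n % d : ℕ) : ℤ) d : ℤ) : ℝ) = (jacobiSym n d : ℝ) := by
    intro n
    rw [Int.natCast_mod, ← jacobiSym.mod_left]
  obtain ⟨n, hn1, hn2⟩ := Nat.chineseRemainder hcop 1 2
  have hnq : Nat.Coprime n q := by
    have := hn1.gcd_eq
    rw [Nat.gcd_one_left] at this
    exact this
  have hnd : Nat.Coprime n d := by
    have := hn2.gcd_eq
    have h2 : Nat.gcd 2 d = 1 := by
      rw [← Nat.coprime_iff_gcd_eq_one, Nat.coprime_two_left]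
      exact Nat.odd_iff.2 (by omega)
    rw [h2] at this
    exact this
  have hnQ : Nat.Coprime n (q * d) := Nat.Coprime.mul_right hnq hnd
  have h1 := sum_mul_perm (q * d) n (Nat.mul_pos hq hd) hnQ
    (fun l => gs f (fun l => (jacobiSym l d : ℝ)) k l)
  have h2 : ∑ l ∈ range (q * d), gs f (fun l => (jacobiSym l d : ℝ)) k ((n * l) % (q * d))
      = - ∑ l ∈ range (q * d), gs f (fun l => (jacobiSym l d : ℝ)) k l := by
    rw [← Finset.sum_neg_distrib]
    apply Finset.sum_congr rfl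
    intro l _
    unfold gs
    rw [neg_mul_eq_mul_neg]
    congr 1
    · apply per_congr hper
      obtain ⟨u, hu⟩ := mod_cast_eq (q * d) (n * l)
      obtain ⟨c, hc⟩ : ∃ c : ℤ, (n : ℤ) = 1 + c * q := by
        have := (Nat.modEq_iff_dvd.1 hn1.symm)
        obtain ⟨c, hc⟩ := this
        exact ⟨c, by push_cast at hc; linarith⟩
      refine ⟨k * (c * l) + k * (u * d), ?_⟩
      rw [hu]
      push_cast
      rw [hc]
      ring
    · have e1 : ((jacobiSym (((n * l) % (q * d) : ℕ) : ℤ) d : ℤ) : ℝ)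
          = (jacobiSym ((n * l : ℕ) : ℤ) d : ℝ) := by
        rw [← hψ ((n * l) % (q * d)), Nat.mod_mul_left_mod, hψ]
      simp only
      rw [e1]
      push_cast
      rw [jacobiSym.mul_left]
      have e2 : jacobiSym (n : ℤ) d = -1 := by
        rw [← J_two h8, jacobiSym.mod_left]
        have : ((n : ℤ)) % d = (2 : ℤ) % d := by
          have h5 : n % d = 2 % d := hn2
          exact_mod_cast h5
        rw [this, ← jacobiSym.mod_left]
      rw [e2]
      push_cast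
      ring
  linarith

end permutation

lemma A1_pos (a t : ℕ) (i : ℕ) (hi : i ≤ a) :
    0 < Ai 1 (((a : ℤ) ^ 2 + 1) * t + a) (1 + a * t) i := by
  have hi' : (i : ℤ) ≤ a := by exact_mod_cast hi
  have h1 : 0 ≤ (1 + (a : ℤ) * t) * (i * (a - i)) := by
    apply mul_nonneg (by positivity)
    apply mul_nonneg (by positivity) (by linarith)
  have h2 : 0 ≤ (t : ℤ) * i := by positivity
  have e : Ai 1 (((a : ℤ) ^ 2 + 1) * t + a) (1 + a * t) i
      = 1 + (1 + (a : ℤ) * t) * (i * (a - i)) + (t : ℤ) * i := by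
    unfold Ai; ring
  rw [e]
  linarith

lemma A2_pos (a t : ℕ) (i : ℕ) (hi : i ≤ (a ^ 2 + 1) * t + a) :
    0 < Ai (1 + a * t) (((a : ℤ) ^ 2 + 1) * t + a) 1 i := by
  have hi' : (i : ℤ) ≤ ((a : ℤ) ^ 2 + 1) * t + a := by exact_mod_cast hi
  have h1 : 0 ≤ (i : ℤ) * (((a : ℤ) ^ 2 + 1) * t + a - i) :=
    mul_nonneg (by positivity) (by linarith)
  have h2 : 0 ≤ (a : ℤ) * t := by positivity
  have e : Ai (1 + a * t) (((a : ℤ) ^ 2 + 1) * t + a) 1 i
      = 1 + a * t + (i : ℤ) * (((a : ℤ) ^ 2 + 1) * t + a - i) := by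
    unfold Ai; ring
  rw [e]
  linarith

lemma A3_pos (a t : ℕ) (i : ℕ) (hi : i ≤ a) :
    0 < Ai (1 + a * t) (2 * (1 + a * t) * a - (((a : ℤ) ^ 2 + 1) * t + a)) (1 + a * t) i := by
  have hi' : (i : ℤ) ≤ a := by exact_mod_cast hi
  have h1 : 0 ≤ (1 + (a : ℤ) * t) * (i * (a - i)) := by
    apply mul_nonneg (by positivity)
    apply mul_nonneg (by positivity) (by linarith)
  have h2 : 0 ≤ (t : ℤ) * (a - i) := mul_nonneg (by positivity) (by linarith)
  have e : Ai (1 + a * t) (2 * (1 + a * t) * a - (((a : ℤ) ^ 2 + 1) * t + a)) (1 + a * t) i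
      = 1 + (1 + (a : ℤ) * t) * (i * (a - i)) + (t : ℤ) * (a - i) := by
    unfold Ai; ring
  rw [e]
  linarith

lemma Ci_eq (P R S i : ℤ) : Ci P R S i = Ai P R S i + Ai P R S (i + 1) + S := by
  unfold Ai Ci; ring

lemma disc_eq (P R S i : ℤ) :
    (Ci P R S i) ^ 2 = 4 * Ai P R S i * Ai P R S (i + 1) + (R ^ 2 + 4 * P * S) := by
  unfold Ai Ci; ring

lemma ray_edge (P R S : ℤ) (n : ℕ) (h : ℤ → ℝ) :
    ∑ i ∈ range n, h (Ai P R S i) - ∑ i ∈ range n, h (Ai P R S (i + 1))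
      = h (Ai P R S 0) - h (Ai P R S n) := by
  rw [← Finset.sum_sub_distrib]
  have := Finset.sum_range_sub' (fun i : ℕ => h (Ai P R S i)) n
  simp only [Nat.cast_zero, Nat.cast_add, Nat.cast_one] at this
  exact this

/-- the real identity -/
theorem real_identity (a t d : ℕ) (ha : 1 ≤ a) (ht : 1 ≤ t)
    (hd : d = ((a ^ 2 + 1) * t + a) ^ 2 + 4 * (1 + a * t)) (h8 : d % 8 = 5)
    [IsDomain (QuadraticAlgebra ℤ ((1 + a * t : ℕ) : ℤ) (((a ^ 2 + 1) * t + a : ℕ) : ℤ))]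
    [UniqueFactorizationMonoid
      (QuadraticAlgebra ℤ ((1 + a * t : ℕ) : ℤ) (((a ^ 2 + 1) * t + a : ℕ) : ℤ))]
    (q : ℕ) (hq : 0 < q) (hcop : Nat.Coprime q d) (f : ℤ → ℝ)
    (hper : ∀ x, f (x + q) = f x) (hodd : ∀ x, f (-x) = - f x) (m B : ℤ)
    (hm : m = 1 + a * t) (hB : B = ((a : ℤ) ^ 2 + 1) * t + a) :
    4 * SS q f 1 B m + 2 * SS q f m (2 * m * a - B) m + B * MS q f 1 B m
      - 2 * a * MS q f (-m) B (-1) = bb q (q * d) (gs f (fun l => (jacobiSym l d : ℝ))) := by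
  have : NeZero q := ⟨hq.ne'⟩
  rw [← finite_alg a t q ha hq f hodd hper m B hm hB]
  set Bn : ℕ := (a ^ 2 + 1) * t + a with hBn
  have hBn' : B = (Bn : ℤ) := by rw [hB, hBn]; push_cast; ring
  have hm' : m = ((1 + a * t : ℕ) : ℤ) := by rw [hm]; push_cast; ring
  have hmpos : 0 < m := by rw [hm]; positivity
  let s : Finset (ℕ ⊕ (ℕ ⊕ ℕ)) := (range a).disjSum ((range Bn).disjSum (range a))
  let A : ℕ ⊕ (ℕ ⊕ ℕ) → ℤ := Sum.elim (fun i : ℕ => Ai 1 B m i)
    (Sum.elim (fun i : ℕ => Ai m B 1 i) (fun i : ℕ => Ai m (2 * m * a - B) m i))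
  let C : ℕ ⊕ (ℕ ⊕ ℕ) → ℤ := Sum.elim (fun i : ℕ => Ci 1 B m i)
    (Sum.elim (fun i : ℕ => Ci m B 1 i) (fun i : ℕ => Ci m (2 * m * a - B) m i))
  let E : ℕ ⊕ (ℕ ⊕ ℕ) → ℤ := Sum.elim (fun i : ℕ => Ai 1 B m (i + 1))
    (Sum.elim (fun i : ℕ => Ai m B 1 (i + 1)) (fun i : ℕ => Ai m (2 * m * a - B) m (i + 1)))
  have p1 : ∀ i : ℕ, i ≤ a → 0 < Ai 1 B m i := by
    intro i hi; rw [hm, hB]; exact A1_pos a t i hi
  have p2 : ∀ i : ℕ, i ≤ Bn → 0 < Ai m B 1 i := by
    intro i hi; rw [hm, hB]; exact A2_pos a t i hi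
  have p3 : ∀ i : ℕ, i ≤ a → 0 < Ai m (2 * m * a - B) m i := by
    intro i hi; rw [hm, hB]; exact A3_pos a t i hi
  have hA : ∀ i ∈ s, 0 < A i := by
    rintro (i | i | i) hi
    · simp only [s, Finset.inl_mem_disjSum, Finset.mem_range] at hi
      exact p1 i hi.le
    · simp only [s, Finset.inr_mem_disjSum, Finset.inl_mem_disjSum, Finset.mem_range] at hi
      exact p2 i hi.le
    · simp only [s, Finset.inr_mem_disjSum, Finset.mem_range] at hi
      exact p3 i hi.le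
  have hE : ∀ i ∈ s, 0 < E i := by
    rintro (i | i | i) hi
    · simp only [s, Finset.inl_mem_disjSum, Finset.mem_range] at hi
      have := p1 (i + 1) hi
      push_cast at this
      exact this
    · simp only [s, Finset.inr_mem_disjSum, Finset.inl_mem_disjSum, Finset.mem_range] at hi
      have := p2 (i + 1) hi
      push_cast at this
      exact this
    · simp only [s, Finset.inr_mem_disjSum, Finset.mem_range] at hi
      have := p3 (i + 1) hi
      push_cast at this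
      exact this
  have hC : ∀ i ∈ s, 0 < C i := by
    intro i hi
    have h1 := hA i hi
    have h2 := hE i hi
    rcases i with (i | i | i)
    · simp only [A, E, C, Sum.elim_inl] at *
      rw [Ci_eq]; linarith
    · simp only [A, E, C, Sum.elim_inl, Sum.elim_inr] at *
      rw [Ci_eq]; linarith
    · simp only [A, E, C, Sum.elim_inr] at *
      rw [Ci_eq]; linarith
  have hD : ∀ i ∈ s, 4 * A i * E i < (C i) ^ 2 := by
    rintro (i | i | i) hi
    · simp only [A, E, C, Sum.elim_inl]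
      rw [disc_eq]
      have : 0 ≤ B ^ 2 := sq_nonneg _
      linarith
    · simp only [A, E, C, Sum.elim_inl, Sum.elim_inr]
      rw [disc_eq]
      have : 0 ≤ B ^ 2 := sq_nonneg _
      linarith
    · simp only [A, E, C, Sum.elim_inr]
      rw [disc_eq]
      have : 0 ≤ (2 * m * a - B) ^ 2 := sq_nonneg _
      have : 0 < m * m := mul_pos hmpos hmpos
      linarith
  have hray : ∀ h : ℤ → ℝ, ∑ i ∈ s, h (A i) = ∑ i ∈ s, h (E i) := by
    intro h
    simp only [s, Finset.sum_disjSum, A, E, Sum.elim_inl, Sum.elim_inr]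
    have r1 := ray_edge 1 B m a h
    have r2 := ray_edge m B 1 Bn h
    have r3 := ray_edge m (2 * m * a - B) m a h
    have v1 : Ai 1 B m 0 = 1 := by unfold Ai; ring
    have v2 : Ai 1 B m a = m := by unfold Ai; rw [hm, hB]; ring
    have v3 : Ai m B 1 0 = m := by unfold Ai; ring
    have v4 : Ai m B 1 Bn = m := by unfold Ai; rw [← hBn']; ring
    have v5 : Ai m (2 * m * a - B) m 0 = m := by unfold Ai; ring
    have v6 : Ai m (2 * m * a - B) m a = 1 := by unfold Ai; rw [hm, hB]; ring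
    rw [v1, v2] at r1
    rw [v3, v4] at r2
    rw [v5, v6] at r3
    linarith
  have hmean : ∀ i ∈ s, ∑ r ∈ range q, ∑ u ∈ range q, gq f (A i) (C i) (E i) r u = 0 := by
    have hoddF := Fq_neg hper hodd
    rintro (i | i | i) hi
    · simp only [A, E, C, Sum.elim_inl]
      rw [mean_range hper]
      rw [mean_cone (Fq q f) 1 B m i]
      have := mean_one (Fq q f) hoddF a t
      rw [hm, hB]
      push_cast
      exact this
    · simp only [A, E, C, Sum.elim_inl, Sum.elim_inr]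
      rw [mean_range hper]
      rw [mean_cone (Fq q f) m B 1 i]
      have := mean_two (Fq q f) hoddF a t
      rw [hm, hB]
      push_cast
      exact this
    · simp only [A, E, C, Sum.elim_inr]
      rw [mean_range hper]
      rw [mean_cone (Fq q f) m (2 * m * a - B) m i]
      have := mean_three (Fq q f) hoddF a t
      rw [hm, hB]
      push_cast
      exact this
  have hcount : ∀ n : ℕ, n ≠ 0 → ∑ i ∈ s, (cnt (A i) (C i) (E i) n : ℝ)
      = ∑ l ∈ n.divisors, (jacobiSym l d : ℝ) := by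
    intro n hn
    obtain ⟨⟨f1, f2, f3⟩, hc⟩ := cone_count a t n ha ht hn
    obtain ⟨_, hsn⟩ := ncard_SN (m := ((1 + a * t : ℕ) : ℤ))
      (B := (((a ^ 2 + 1) * t + a : ℕ) : ℤ)) (d := d) (by rw [hd, hBn]; push_cast; ring) h8 n hn
    have s1 : Cone.E1 a t n = edgeSet 1 B m a n := by
      ext z
      simp only [Cone.E1, edgeSet, Set.mem_ofPred_eq, one_mul, hm', hBn', hBn]
    have s2 : Cone.E2 a t n = edgeSet m B 1 Bn n := by
      ext z
      simp only [Cone.E2, edgeSet, Set.mem_ofPred_eq, one_mul, hm', hBn', hBn]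
    have s3 : Cone.E3 a t n = edgeSet m (2 * m * a - B) m a n := by
      ext z
      simp only [Cone.E3, edgeSet, Set.mem_ofPred_eq, hm', hBn', hBn]
    rw [s1] at f1
    rw [s2] at f2
    rw [s3] at f3
    rw [s1, s2, s3, edge_count 1 B m a n f1, edge_count m B 1 Bn n f2,
      edge_count m (2 * m * a - B) m a n f3] at hc
    simp only [s, Finset.sum_disjSum, A, E, C, Sum.elim_inl, Sum.elim_inr]
    have h9 : ∑ l ∈ n.divisors, (jacobiSym l d : ℝ) = ((sig d n : ℤ) : ℝ) := by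
      unfold sig; push_cast; rfl
    rw [h9, ← hsn]
    have h10 : (((SN ((1 + a * t : ℕ) : ℤ) (((a ^ 2 + 1) * t + a : ℕ) : ℤ) n).ncard : ℤ) : ℝ)
      = (((SN ((1 + a * t : ℕ) : ℤ) (((a ^ 2 + 1) * t + a : ℕ) : ℤ) n).ncard : ℕ) : ℝ) := by
      push_cast; rfl
    rw [h10, hc]
    push_cast
    ring
  have key := engine (q := q) (D0 := d) (f := f) (ψ := fun l => (jacobiSym l d : ℝ)) s A C E
    hA hE hC hD hray hq (by omega) hper hodd
    (by
      intro n
      show ((jacobiSym ((n % d : ℕ) : ℤ) d : ℤ) : ℝ) = (jacobiSym n d : ℝ)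
      rw [Int.natCast_mod, ← jacobiSym.mod_left])
    (fun k _ => row_zero hq hcop h8 hper k) hmean hcount
  rw [← key]
  simp only [s, Finset.sum_disjSum, A, E, C, Sum.elim_inl, Sum.elim_inr]
  rw [add_assoc]

end Pool.Agent.Lib_helper5


end

section

/-!
The congruence modulo a prime `l`.
-/

namespace Pool.Agent.Lib_helper5

open Finset (range)
open Pool.Agent.LibH4 Pool.Agent.LibH4.FA

/-- `2 q * bet q r` as an integer -/
def bZ (q r : ℕ) : ℤ := if r = 0 then 0 else (q : ℤ) - 2 * r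

/-- `6 q ^ 2 * B2 (s / q)` as an integer -/
def b2Z (q s : ℕ) : ℤ := 6 * (s : ℤ) ^ 2 - 6 * s * q + (q : ℤ) ^ 2

lemma bet_eq_bZ {q : ℕ} (hq : 0 < q) (r : ℕ) : 2 * (q : ℝ) * bet q r = (bZ q r : ℝ) := by
  have hq' : (0:ℝ) < q := by exact_mod_cast hq
  unfold bet bZ
  split_ifs
  · simp
  · push_cast
    field_simp

lemma B2_eq_b2Z {q : ℕ} (hq : 0 < q) (s : ℕ) :
    6 * (q : ℝ) ^ 2 * B2 ((s : ℝ) / q) = (b2Z q s : ℝ) := by
  have hq' : (0:ℝ) < q := by exact_mod_cast hq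
  unfold B2 b2Z
  push_cast
  field_simp

/-- integer version of `SS` -/
def XZ (q : ℕ) (f : ℤ → ℤ) (P R S : ℤ) : ℤ :=
  ∑ r ∈ range q, ∑ s ∈ range q, f (P * (r : ℤ) ^ 2 + R * r * s - S * (s : ℤ) ^ 2) *
    (bZ q r * bZ q s)

/-- integer version of `MS` -/
def YZ (q : ℕ) (f : ℤ → ℤ) (P R S : ℤ) : ℤ :=
  ∑ r ∈ range q, ∑ s ∈ range q, f (P * (r : ℤ) ^ 2 + R * r * s - S * (s : ℤ) ^ 2) *
    b2Z q s

/-- integer version of the right side -/
def RZ (q d : ℕ) (f : ℤ → ℤ) : ℤ :=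
  ∑ r ∈ range q, ∑ s ∈ range (q * d), (f ((r : ℤ) * s) * jacobiSym s d) *
    (bZ q r * bZ (q * d) s)

lemma SS_XZ {q : ℕ} (hq : 0 < q) (f : ℤ → ℤ) (P R S : ℤ) :
    4 * (q : ℝ) ^ 2 * SS q (fun x => (f x : ℝ)) P R S = (XZ q f P R S : ℝ) := by
  unfold SS XZ
  push_cast
  rw [Finset.mul_sum]
  apply Finset.sum_congr rfl
  intro r _
  rw [Finset.mul_sum]
  apply Finset.sum_congr rfl
  intro s _
  rw [← bet_eq_bZ hq, ← bet_eq_bZ hq]
  ring

lemma MS_YZ {q : ℕ} (hq : 0 < q) (f : ℤ → ℤ) (P R S : ℤ) :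
    6 * (q : ℝ) ^ 2 * MS q (fun x => (f x : ℝ)) P R S = (YZ q f P R S : ℝ) := by
  unfold MS YZ
  push_cast
  rw [Finset.mul_sum]
  apply Finset.sum_congr rfl
  intro r _
  rw [Finset.mul_sum]
  apply Finset.sum_congr rfl
  intro s _
  rw [← B2_eq_b2Z hq]
  ring

lemma bb_RZ {q d : ℕ} (hq : 0 < q) (hd : 0 < d) (f : ℤ → ℤ) :
    4 * (q : ℝ) ^ 2 * d * bb q (q * d) (gs (fun x => (f x : ℝ)) (fun l => (jacobiSym l d : ℝ)))
      = (RZ q d f : ℝ) := by
  unfold bb RZ gs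
  push_cast
  rw [Finset.mul_sum]
  apply Finset.sum_congr rfl
  intro r _
  rw [Finset.mul_sum]
  apply Finset.sum_congr rfl
  intro s _
  rw [← bet_eq_bZ hq, ← bet_eq_bZ (Nat.mul_pos hq hd)]
  push_cast
  ring

section mod

variable {q l : ℕ} [Fact l.Prime] (χ : ZMod q → ZMod l)

/-- the integral lift -/
def lift (x : ℤ) : ℤ := (χ (x : ZMod q)).valMinAbs

lemma lift_cast (x : ℤ) : ((lift χ x : ℤ) : ZMod l) = χ (x : ZMod q) := by
  unfold lift
  exact ZMod.coe_valMinAbs _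

lemma lift_per (x : ℤ) : lift χ (x + q) = lift χ x := by
  unfold lift
  push_cast
  simp

lemma two_ne (hl : ¬ l ∣ 6) : (2 : ZMod l) ≠ 0 := by
  intro h
  apply hl
  have : ((2 : ℕ) : ZMod l) = 0 := by exact_mod_cast h
  rw [ZMod.natCast_eq_zero_iff] at this
  exact this.trans (by norm_num)

lemma lift_odd (hl : ¬ l ∣ 6) (hodd : ∀ x, χ (-x) = - χ x) (x : ℤ) :
    lift χ (-x) = - lift χ x := by
  unfold lift
  push_cast
  rw [hodd]
  apply ZMod.valMinAbs_neg_of_ne_half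
  intro h
  apply hl
  have h2 : 2 ∣ l := ⟨_, h.symm⟩
  have hp : l.Prime := Fact.out
  have h3 := (Nat.prime_dvd_prime_iff_eq Nat.prime_two hp).1 h2
  rw [← h3]
  norm_num

lemma sum_reflect_zmod (q : ℕ) (hq : 0 < q) (h : ℕ → ZMod l) :
    ∑ r ∈ range q, h ((q - r) % q) = ∑ r ∈ range q, h r := by
  apply Finset.sum_nbij' (fun r => (q - r) % q) (fun r => (q - r) % q)
  · intro r _
    exact Finset.mem_range.2 (Nat.mod_lt _ hq)
  · intro r _
    exact Finset.mem_range.2 (Nat.mod_lt _ hq)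
  · intro r hr
    have hr' := Finset.mem_range.1 hr
    rcases Nat.eq_zero_or_pos r with h0 | h0
    · subst h0; simp
    · rw [Nat.mod_eq_of_lt (show q - r < q by omega), Nat.sub_sub_self hr'.le,
        Nat.mod_eq_of_lt hr']
  · intro r hr
    have hr' := Finset.mem_range.1 hr
    rcases Nat.eq_zero_or_pos r with h0 | h0
    · subst h0; simp
    · rw [Nat.mod_eq_of_lt (show q - r < q by omega), Nat.sub_sub_self hr'.le,
        Nat.mod_eq_of_lt hr']
  · intro r _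
    rfl

lemma sum_chi_zero (hq : 0 < q) (hl : ¬ l ∣ 6) (hodd : ∀ x, χ (-x) = - χ x) :
    ∑ r ∈ range q, χ (r : ZMod q) = 0 := by
  have h1 := sum_reflect_zmod (l := l) q hq (fun r => χ (r : ZMod q))
  have h2 : ∑ r ∈ range q, χ (((q - r) % q : ℕ) : ZMod q) = - ∑ r ∈ range q, χ (r : ZMod q) := by
    rw [← Finset.sum_neg_distrib]
    apply Finset.sum_congr rfl
    intro r hr
    rw [← hodd]
    congr 1
    have hr' := Finset.mem_range.1 hr
    rw [ZMod.natCast_mod, Nat.cast_sub hr'.le]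
    simp
  rw [h2] at h1
  have h3 : (2 : ZMod l) * ∑ r ∈ range q, χ (r : ZMod q) = 0 := by
    linear_combination -h1
  exact (mul_eq_zero.1 h3).resolve_left (two_ne hl)

lemma chi_zero (hl : ¬ l ∣ 6) (hodd : ∀ x, χ (-x) = - χ x) : χ 0 = 0 := by
  have h1 := hodd 0
  rw [neg_zero] at h1
  have h3 : (2 : ZMod l) * χ 0 = 0 := by linear_combination h1
  exact (mul_eq_zero.1 h3).resolve_left (two_ne hl)

lemma sum_chi_bZ (hq : 0 < q) (hl : ¬ l ∣ 6) (hodd : ∀ x, χ (-x) = - χ x)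
    (hsum : ∑ u ∈ range q, (u : ZMod l) * χ (u : ZMod q) = 0) :
    ∑ r ∈ range q, χ (r : ZMod q) * (bZ q r : ZMod l) = 0 := by
  have h1 : ∑ r ∈ range q, χ (r : ZMod q) * (bZ q r : ZMod l)
      = (q : ZMod l) * ∑ r ∈ range q, χ (r : ZMod q)
        - 2 * ∑ u ∈ range q, (u : ZMod l) * χ (u : ZMod q) := by
    rw [Finset.mul_sum, Finset.mul_sum, ← Finset.sum_sub_distrib]
    apply Finset.sum_congr rfl
    intro r _
    unfold bZ
    split_ifs with h
    · subst h
      simp [chi_zero χ hl hodd]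
    · push_cast
      ring
  rw [h1, hsum, sum_chi_zero χ hq hl hodd]
  ring

end mod

/-- **T5** -/
theorem T5 (a t d : ℕ) (ha : 1 ≤ a) (ht : 1 ≤ t)
    (hd : d = ((a ^ 2 + 1) * t + a) ^ 2 + 4 * (1 + a * t)) (h8 : d % 8 = 5)
    [IsDomain (QuadraticAlgebra ℤ ((1 + a * t : ℕ) : ℤ) (((a ^ 2 + 1) * t + a : ℕ) : ℤ))]
    [UniqueFactorizationMonoid
      (QuadraticAlgebra ℤ ((1 + a * t : ℕ) : ℤ) (((a ^ 2 + 1) * t + a : ℕ) : ℤ))]
    (q l : ℕ) (hq : 0 < q) [Fact l.Prime] (hcop : Nat.Coprime q d) (hl6 : ¬ l ∣ 6)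
    (hld : ¬ l ∣ d) (χ : ZMod q → ZMod l)
    (hodd : ∀ x, χ (-x) = - χ x) (hmul : ∀ x y, χ (x * y) = χ x * χ y)
    (hsum : ∑ u ∈ range q, (u : ZMod l) * χ (u : ZMod q) = 0) (m B : ℤ)
    (hm : m = 1 + a * t) (hB : B = ((a : ℤ) ^ 2 + 1) * t + a) :
    ∑ r ∈ range q, ∑ s ∈ range q,
      χ ((1 * (r : ℤ) ^ 2 + B * r * s - m * (s : ℤ) ^ 2 : ℤ) : ZMod q)
        * (6 * ((bZ q r : ZMod l) * bZ q s) + B * b2Z q s)
    + ∑ r ∈ range q, ∑ s ∈ range q,
      χ ((m * (r : ℤ) ^ 2 + (2 * m * a - B) * r * s - m * (s : ℤ) ^ 2 : ℤ) : ZMod q)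
        * (3 * ((bZ q r : ZMod l) * bZ q s))
    - ∑ r ∈ range q, ∑ s ∈ range q,
      χ ((-m * (r : ℤ) ^ 2 + B * r * s - (-1) * (s : ℤ) ^ 2 : ℤ) : ZMod q)
        * (2 * a * b2Z q s) = 0 := by
  have hd0 : 0 < d := by omega
  have key := real_identity a t d ha ht hd h8 q hq hcop (fun x => ((lift χ x : ℤ) : ℝ))
    (fun x => by simp only [lift_per χ]) (fun x => by
      simp only [lift_odd χ hl6 hodd]; push_cast; ring) m B hm hB
  have i1 := SS_XZ hq (lift χ) 1 B m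
  have i2 := SS_XZ hq (lift χ) m (2 * m * a - B) m
  have i3 := MS_YZ hq (lift χ) 1 B m
  have i4 := MS_YZ hq (lift χ) (-m) B (-1)
  have i5 := bb_RZ hq hd0 (lift χ)
  have hreal : (d : ℝ) * (2 * (6 * (XZ q (lift χ) 1 B m : ℝ)
      + 3 * (XZ q (lift χ) m (2 * m * a - B) m : ℝ)
      + B * (YZ q (lift χ) 1 B m : ℝ) - 2 * a * (YZ q (lift χ) (-m) B (-1) : ℝ)))
      = 3 * (RZ q d (lift χ) : ℝ) := by
    rw [← i1, ← i2, ← i3, ← i4, ← i5, ← key]
    ring
  have hint : (d : ℤ) * (2 * (6 * XZ q (lift χ) 1 B m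
      + 3 * XZ q (lift χ) m (2 * m * a - B) m
      + B * YZ q (lift χ) 1 B m - 2 * a * YZ q (lift χ) (-m) B (-1)))
      = 3 * RZ q d (lift χ) := by
    exact_mod_cast hreal
  have hzmod : (d : ZMod l) * (2 * (6 * (XZ q (lift χ) 1 B m : ZMod l)
      + 3 * (XZ q (lift χ) m (2 * m * a - B) m : ZMod l)
      + B * (YZ q (lift χ) 1 B m : ZMod l) - 2 * a * (YZ q (lift χ) (-m) B (-1) : ZMod l)))
      = 3 * (RZ q d (lift χ) : ZMod l) := by
    have := congrArg (Int.cast : ℤ → ZMod l) hint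
    push_cast at this
    exact this
  have hR : (RZ q d (lift χ) : ZMod l) = 0 := by
    have e : (RZ q d (lift χ) : ZMod l) = (∑ r ∈ range q, χ (r : ZMod q) * (bZ q r : ZMod l)) *
        (∑ s ∈ range (q * d), χ (s : ZMod q) * (jacobiSym s d : ZMod l) * (bZ (q * d) s : ZMod l)) := by
      unfold RZ
      push_cast
      rw [Finset.sum_mul_sum]
      apply Finset.sum_congr rfl
      intro r _
      apply Finset.sum_congr rfl
      intro s _
      rw [lift_cast]
      push_cast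
      rw [hmul]
      ring
    rw [e, sum_chi_bZ χ hq hl6 hodd hsum, zero_mul]
  rw [hR, mul_zero] at hzmod
  have hd' : (d : ZMod l) ≠ 0 := by
    rw [Ne, ZMod.natCast_eq_zero_iff]
    exact hld
  have h1 := (mul_eq_zero.1 ((mul_eq_zero.1 hzmod).resolve_left hd')).resolve_left (two_ne hl6)
  rw [← h1]
  unfold XZ YZ
  push_cast
  simp only [Finset.mul_sum]
  rw [← Finset.sum_add_distrib, ← Finset.sum_sub_distrib, ← Finset.sum_add_distrib,
    ← Finset.sum_add_distrib, ← Finset.sum_sub_distrib]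
  apply Finset.sum_congr rfl
  intro r _
  rw [← Finset.sum_add_distrib, ← Finset.sum_sub_distrib, ← Finset.sum_add_distrib,
    ← Finset.sum_add_distrib, ← Finset.sum_sub_distrib]
  apply Finset.sum_congr rfl
  intro s _
  rw [lift_cast, lift_cast, lift_cast]
  push_cast
  ring

end Pool.Agent.Lib_helper5


end

section

/-!
Cycles of indefinite forms: the real identity and the congruence modulo `l`.
-/

namespace Pool.Agent.Lib_helper5

open Finset (range)
open Pool.Agent.LibH4 Pool.Agent.LibH4.FA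

/-- value bound on an edge -/
lemma edge_ge {P R S : ℤ} {n : ℕ} (hn : 0 < n) (hP : 0 < P) (hS : 0 < S)
    (hA : 0 < P + R * n - S * (n : ℤ) ^ 2) {x y : ℤ} (hy : 0 ≤ y) (hyx : y ≤ n * x) :
    x ^ 2 + S * (y * (n * x - y)) / n ≤ P * x ^ 2 + R * x * y - S * y ^ 2 := by
  have hn' : (0 : ℤ) < n := by exact_mod_cast hn
  have hx : 0 ≤ x := by
    by_contra hx
    push Not at hx
    nlinarith
  have e : (n : ℤ) * (P * x ^ 2 + R * x * y - S * y ^ 2) = (n * x - y) * x * P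
      + y * x * (P + R * n - S * (n : ℤ) ^ 2) + S * n * (y * (n * x - y)) := by ring
  have h1 : 0 ≤ (n * x - y) * x := mul_nonneg (by linarith) hx
  have h2 : 0 ≤ y * x := mul_nonneg hy hx
  have h3 : (n * x - y) * x ≤ (n * x - y) * x * P := by nlinarith
  have h4 : y * x ≤ y * x * (P + R * n - S * (n : ℤ) ^ 2) := by nlinarith
  have h5 : 0 ≤ S * (y * (n * x - y)) :=
    mul_nonneg hS.le (mul_nonneg hy (by linarith))
  have h6 : S * (y * (n * x - y)) / n ≤ S * (y * (n * x - y)) := by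
    apply Int.ediv_le_self _ h5
  have h7 : (n : ℤ) * (x ^ 2 + S * (y * (n * x - y)))
      ≤ (n : ℤ) * (P * x ^ 2 + R * x * y - S * y ^ 2) := by
    rw [e]; nlinarith
  have h8 := le_of_mul_le_mul_left h7 hn'
  linarith

lemma edgeSet_finite {P R S : ℤ} {N : ℕ} (hN : 0 < N) (hP : 0 < P) (hS : 0 < S)
    (hA : 0 < P + R * N - S * (N : ℤ) ^ 2) (n : ℕ) : (edgeSet P R S N n).Finite := by
  apply Set.Finite.subset (Set.Finite.prod (Set.finite_Iic n) (Set.finite_Iic (N * n)))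
  rintro ⟨x, y⟩ ⟨h1, h2, h3⟩
  simp only at h1 h2 h3
  have h4 := edge_ge hN hP hS hA (x := x) (y := y) (by positivity) (by exact_mod_cast h2.le)
  have h5 : 0 ≤ S * ((y : ℤ) * (N * x - y)) / N := by
    apply Int.ediv_nonneg
    · apply mul_nonneg hS.le (mul_nonneg (by positivity) _)
      have : (y : ℤ) ≤ N * x := by exact_mod_cast h2.le
      linarith
    · positivity
  rw [h3] at h4
  have h6 : (x : ℤ) ^ 2 ≤ n := by linarith
  have h7 : x ≤ n := by
    have : (x : ℤ) ≤ n := by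
      have hx1 : (1 : ℤ) ≤ x := by exact_mod_cast h1
      nlinarith
    exact_mod_cast this
  refine ⟨h7, ?_⟩
  simp only [Set.mem_Iic]
  calc y ≤ N * x := h2.le
    _ ≤ N * n := Nat.mul_le_mul_left _ h7

section general

variable {K : ℕ} {P R S : ℕ → ℤ} {c : ℕ → ℕ} (h : Cyc K P R S c)

/-- mean values along the cycle -/
lemma Cyc.mean_all {q : ℕ} [NeZero q] (F : ZMod q → ℝ) (hF : ∀ x, F (-x) = -F x)
    (h : Cyc K P R S c)
    (h0 : S2 (fun x y => F (QQ (P 0 : ZMod q) (R 0) (S 0) x y)) = 0) (k : ℕ) (hk : k ≤ K) :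
    S2 (fun x y => F (QQ (P k : ZMod q) (R k) (S k) x y)) = 0 := by
  induction k with
  | zero => exact h0
  | succ k ih =>
    have hk' : k < K := by omega
    have h1 := ih (by omega)
    rw [rel_mean F hF (P k) (R k) (S k) (c k)] at h1
    have eP : (((P (k + 1) : ℤ)) : ZMod q) = (S k : ZMod q) := by rw [h.hP k hk']
    have eR : (((R (k + 1) : ℤ)) : ZMod q) = 2 * (c k : ZMod q) * (S k : ZMod q) - R k := by
      rw [h.hR k hk']; push_cast; ring
    have eS : (((S (k + 1) : ℤ)) : ZMod q)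
        = (P k : ZMod q) + R k * (c k) - S k * (c k : ZMod q) ^ 2 := by
      rw [h.hS k hk']; push_cast; ring
    rw [eP, eR, eS]
    linarith

/-- the general real identity -/
theorem cyc_identity (h : Cyc K P R S c) (d : ℕ) (h8 : d % 8 = 5)
    (q : ℕ) (hq : 0 < q) (hcop : Nat.Coprime q d) (f : ℤ → ℝ)
    (hper : ∀ x, f (x + q) = f x) (hodd : ∀ x, f (-x) = - f x)
    (hmean : ∑ r ∈ range q, ∑ s ∈ range q,
      f (P 0 * (r : ℤ) ^ 2 + R 0 * r * s - S 0 * (s : ℤ) ^ 2) = 0)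
    (hcnt : ∀ n : ℕ, n ≠ 0 →
      ((∑ k ∈ range K, (edgeSet (P k) (R k) (S k) (c k) n).ncard : ℕ) : ℤ) = sig d n) :
    ∑ k ∈ range K, (2 * SS q f (P k) (R k) (S k) - c k * MX q f (P k) (R k) (S k))
      = bb q (q * d) (gs f (fun l => (jacobiSym l d : ℝ))) := by
  have : NeZero q := ⟨hq.ne'⟩
  have hF := Fq_neg hper hodd
  rw [← cyc_alg h q hq f hodd hper]
  let s : Finset (Σ _ : ℕ, ℕ) := (range K).sigma (fun k => range (c k))
  let A : (Σ _ : ℕ, ℕ) → ℤ := fun x => Ai (P x.1) (R x.1) (S x.1) x.2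
  let C : (Σ _ : ℕ, ℕ) → ℤ := fun x => Ci (P x.1) (R x.1) (S x.1) x.2
  let E : (Σ _ : ℕ, ℕ) → ℤ := fun x => Ai (P x.1) (R x.1) (S x.1) (x.2 + 1)
  have hAend : ∀ k < K, 0 < P k + R k * (c k) - S k * (c k : ℤ) ^ 2 := by
    intro k hk
    rw [← h.hS k hk]; exact h.Spos (k + 1) hk
  have hpos : ∀ k < K, ∀ i ≤ c k, 0 < Ai (P k) (R k) (S k) i := fun k hk i hi =>
    Ai_pos' (h.cpos k hk) (h.Ppos hk.le) (h.Spos k hk.le) (hAend k hk) i hi
  have hA : ∀ i ∈ s, 0 < A i := by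
    rintro ⟨k, i⟩ hi
    simp only [s, Finset.mem_sigma, Finset.mem_range] at hi
    exact hpos k hi.1 i hi.2.le
  have hE : ∀ i ∈ s, 0 < E i := by
    rintro ⟨k, i⟩ hi
    simp only [s, Finset.mem_sigma, Finset.mem_range] at hi
    have := hpos k hi.1 (i + 1) hi.2
    push_cast at this
    exact this
  have hC : ∀ i ∈ s, 0 < C i := by
    rintro ⟨k, i⟩ hi
    have h1 := hA _ hi
    have h2 := hE _ hi
    simp only [s, Finset.mem_sigma, Finset.mem_range] at hi
    simp only [A, E, C] at *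
    rw [Ci_eq]
    have := h.Spos k hi.1.le
    linarith
  have hD : ∀ i ∈ s, 4 * A i * E i < (C i) ^ 2 := by
    rintro ⟨k, i⟩ hi
    simp only [s, Finset.mem_sigma, Finset.mem_range] at hi
    simp only [A, E, C]
    rw [disc_eq]
    have h1 : 0 ≤ R k ^ 2 := sq_nonneg _
    have h2 : 0 < P k * S k := mul_pos (h.Ppos hi.1.le) (h.Spos k hi.1.le)
    linarith
  have hray : ∀ g : ℤ → ℝ, ∑ i ∈ s, g (A i) = ∑ i ∈ s, g (E i) := by
    intro g
    simp only [s, A, E]
    rw [Finset.sum_sigma, Finset.sum_sigma]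
    have h1 : ∀ k ∈ range K, ∑ i ∈ range (c k), g (Ai (P k) (R k) (S k) i)
        = ∑ i ∈ range (c k), g (Ai (P k) (R k) (S k) (i + 1)) + (g (P k) - g (S (k + 1))) := by
      intro k hk
      have hk' := Finset.mem_range.1 hk
      have r := ray_edge (P k) (R k) (S k) (c k) g
      have v1 : Ai (P k) (R k) (S k) 0 = P k := by unfold Ai; ring
      have v2 : Ai (P k) (R k) (S k) (c k) = S (k + 1) := by rw [Ai_end, h.hS k hk']
      rw [v1, v2] at r
      linarith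
    rw [Finset.sum_congr rfl h1, Finset.sum_add_distrib]
    have h2 : ∑ k ∈ range K, (g (P k) - g (S (k + 1))) = 0 := by
      rw [Finset.sum_sub_distrib]
      have c1 := sum_cyc K (fun k => g (P k)) (by simp only [h.P0])
      have c2 := sum_cyc K (fun k => g (S k)) (by simp only [h.S0])
      have c3 : ∑ k ∈ range K, g (P (k + 1)) = ∑ k ∈ range K, g (S k) :=
        Finset.sum_congr rfl (fun k hk => by rw [h.hP k (Finset.mem_range.1 hk)])
      rw [c2, ← c3, c1]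
      ring
    rw [h2, add_zero]
  have hmean0 : S2 (fun x y => Fq q f (QQ (P 0 : ZMod q) (R 0) (S 0) x y)) = 0 := by
    rw [← hmean, sum_range_S2 (q := q) (fun r s => f (P 0 * (r : ℤ) ^ 2 + R 0 * r * s
      - S 0 * (s : ℤ) ^ 2))]
    apply S2_congr
    intro x y
    rw [← Fq_intCast hper]
    push_cast
    rw [ZMod.natCast_zmod_val, ZMod.natCast_zmod_val]
    rfl
  have hmean' : ∀ i ∈ s, ∑ r ∈ range q, ∑ u ∈ range q, gq f (A i) (C i) (E i) r u = 0 := by
    rintro ⟨k, i⟩ hi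
    simp only [s, Finset.mem_sigma, Finset.mem_range] at hi
    simp only [A, E, C]
    rw [mean_range hper, mean_cone (Fq q f) (P k) (R k) (S k) i]
    exact Cyc.mean_all (Fq q f) hF h hmean0 k hi.1.le
  have hcount : ∀ n : ℕ, n ≠ 0 → ∑ i ∈ s, (cnt (A i) (C i) (E i) n : ℝ)
      = ∑ l ∈ n.divisors, (jacobiSym l d : ℝ) := by
    intro n hn
    have h9 : ∑ l ∈ n.divisors, (jacobiSym l d : ℝ) = ((sig d n : ℤ) : ℝ) := by
      unfold sig; push_cast; rfl
    rw [h9, ← hcnt n hn]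
    simp only [s, A, E, C]
    rw [Finset.sum_sigma]
    simp only
    push_cast
    apply Finset.sum_congr rfl
    intro k hk
    have hk' := Finset.mem_range.1 hk
    rw [edge_count (P k) (R k) (S k) (c k) n
      (edgeSet_finite (h.cpos k hk') (h.Ppos hk'.le) (h.Spos k hk'.le) (hAend k hk') n)]
    push_cast
    rfl
  have key := engine (q := q) (D0 := d) (f := f) (ψ := fun l => (jacobiSym l d : ℝ)) s A C E
    hA hE hC hD hray hq (by omega) hper hodd
    (by
      intro n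
      show ((jacobiSym ((n % d : ℕ) : ℤ) d : ℤ) : ℝ) = (jacobiSym n d : ℝ)
      rw [Int.natCast_mod, ← jacobiSym.mod_left])
    (fun k _ => row_zero hq hcop h8 hper k) hmean' hcount
  rw [← key]
  simp only [s, A, E, C]
  rw [Finset.sum_sigma]

/-- integer version of `MX` -/
def YX (q : ℕ) (f : ℤ → ℤ) (P R S : ℤ) : ℤ :=
  ∑ r ∈ range q, ∑ s ∈ range q, f (P * (r : ℤ) ^ 2 + R * r * s - S * (s : ℤ) ^ 2) *
    b2Z q r

lemma MX_YX {q : ℕ} (hq : 0 < q) (f : ℤ → ℤ) (P R S : ℤ) :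
    6 * (q : ℝ) ^ 2 * MX q (fun x => (f x : ℝ)) P R S = (YX q f P R S : ℝ) := by
  unfold MX YX
  push_cast
  rw [Finset.mul_sum]
  apply Finset.sum_congr rfl
  intro r _
  rw [Finset.mul_sum]
  apply Finset.sum_congr rfl
  intro s _
  rw [← B2_eq_b2Z hq]
  ring

/-- **general T5** -/
theorem cyc_T5 (h : Cyc K P R S c) (d : ℕ) (h8 : d % 8 = 5)
    (hcnt : ∀ n : ℕ, n ≠ 0 →
      ((∑ k ∈ range K, (edgeSet (P k) (R k) (S k) (c k) n).ncard : ℕ) : ℤ) = sig d n)
    (q l : ℕ) (hq : 0 < q) [Fact l.Prime] (hcop : Nat.Coprime q d) (hl6 : ¬ l ∣ 6)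
    (hld : ¬ l ∣ d)
    (hmean : ∀ f : ℤ → ℝ, (∀ x, f (x + q) = f x) → (∀ x, f (-x) = - f x) →
      ∑ r ∈ range q, ∑ s ∈ range q,
        f (P 0 * (r : ℤ) ^ 2 + R 0 * r * s - S 0 * (s : ℤ) ^ 2) = 0)
    (χ : ZMod q → ZMod l)
    (hodd : ∀ x, χ (-x) = - χ x) (hmul : ∀ x y, χ (x * y) = χ x * χ y)
    (hsum : ∑ u ∈ range q, (u : ZMod l) * χ (u : ZMod q) = 0) :
    ∑ k ∈ range K, ∑ r ∈ range q, ∑ s ∈ range q,
      χ ((P k * (r : ℤ) ^ 2 + R k * r * s - S k * (s : ℤ) ^ 2 : ℤ) : ZMod q)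
        * (3 * ((bZ q r : ZMod l) * bZ q s) - c k * b2Z q r) = 0 := by
  have hd0 : 0 < d := by omega
  have hper' : ∀ x, ((lift χ (x + q) : ℤ) : ℝ) = ((lift χ x : ℤ) : ℝ) := fun x => by
    simp only [lift_per χ]
  have hodd' : ∀ x, ((lift χ (-x) : ℤ) : ℝ) = - ((lift χ x : ℤ) : ℝ) := fun x => by
    simp only [lift_odd χ hl6 hodd]; push_cast; ring
  have key := cyc_identity h d h8 q hq hcop
    (fun x => ((lift χ x : ℤ) : ℝ)) hper' hodd' (hmean (fun x => ((lift χ x : ℤ) : ℝ)) hper' hodd') hcnt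
  have i5 := bb_RZ hq hd0 (lift χ)
  have hreal : (d : ℝ) * (2 * (∑ k ∈ range K, (3 * (XZ q (lift χ) (P k) (R k) (S k) : ℝ)
      - c k * (YX q (lift χ) (P k) (R k) (S k) : ℝ))))
      = 3 * (RZ q d (lift χ) : ℝ) := by
    rw [← i5, ← key]
    simp only [Finset.mul_sum]
    apply Finset.sum_congr rfl
    intro k _
    rw [← SS_XZ hq, ← MX_YX hq]
    ring
  have hint : (d : ℤ) * (2 * (∑ k ∈ range K, (3 * XZ q (lift χ) (P k) (R k) (S k)
      - c k * YX q (lift χ) (P k) (R k) (S k))))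
      = 3 * RZ q d (lift χ) := by
    exact_mod_cast hreal
  have hzmod : (d : ZMod l) * (2 * (∑ k ∈ range K, (3 * (XZ q (lift χ) (P k) (R k) (S k) : ZMod l)
      - c k * (YX q (lift χ) (P k) (R k) (S k) : ZMod l))))
      = 3 * (RZ q d (lift χ) : ZMod l) := by
    have := congrArg (Int.cast : ℤ → ZMod l) hint
    push_cast at this
    exact this
  have hR : (RZ q d (lift χ) : ZMod l) = 0 := by
    have e : (RZ q d (lift χ) : ZMod l) = (∑ r ∈ range q, χ (r : ZMod q) * (bZ q r : ZMod l)) *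
        (∑ s ∈ range (q * d), χ (s : ZMod q) * (jacobiSym s d : ZMod l) * (bZ (q * d) s : ZMod l)) := by
      unfold RZ
      push_cast
      rw [Finset.sum_mul_sum]
      apply Finset.sum_congr rfl
      intro r _
      apply Finset.sum_congr rfl
      intro s _
      rw [lift_cast]
      push_cast
      rw [hmul]
      ring
    rw [e, sum_chi_bZ χ hq hl6 hodd hsum, zero_mul]
  rw [hR, mul_zero] at hzmod
  have hd' : (d : ZMod l) ≠ 0 := by
    rw [Ne, ZMod.natCast_eq_zero_iff]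
    exact hld
  have h1 := (mul_eq_zero.1 ((mul_eq_zero.1 hzmod).resolve_left hd')).resolve_left (two_ne hl6)
  rw [← h1]
  apply Finset.sum_congr rfl
  intro k _
  unfold XZ YX
  push_cast
  simp only [Finset.mul_sum]
  rw [← Finset.sum_sub_distrib]
  apply Finset.sum_congr rfl
  intro r _
  rw [← Finset.sum_sub_distrib]
  apply Finset.sum_congr rfl
  intro s _
  rw [lift_cast]
  push_cast
  ring

end general

end Pool.Agent.Lib_helper5


end

section

/-!
Cone decomposition for a cycle of even length.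
-/

namespace Pool.Agent.Lib_helper5

open Finset (range)
open Pool.Agent.LibH4

namespace CG

variable {m B : ℤ}

/-- `√d` -/
noncomputable def sd (m B : ℤ) : ℝ := Real.sqrt ((B ^ 2 + 4 * m : ℤ) : ℝ)
/-- `α` -/
noncomputable def al (m B : ℤ) : ℝ := (B + sd m B) / 2
/-- `α'` -/
noncomputable def al' (m B : ℤ) : ℝ := (B - sd m B) / 2

lemma sd_sq (hm : 0 < m) : sd m B ^ 2 = (B : ℝ) ^ 2 + 4 * m := by
  unfold sd
  rw [Real.sq_sqrt]
  · push_cast; ring
  · have h : (0 : ℤ) ≤ (B ^ 2 + 4 * m : ℤ) := by positivity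
    exact_mod_cast h

lemma al_sq (hm : 0 < m) : al m B * al m B = m + B * al m B := by
  have := sd_sq (B := B) hm
  unfold al
  linear_combination this / 4

lemma al'_sq (hm : 0 < m) : al' m B * al' m B = m + B * al' m B := by
  have := sd_sq (B := B) hm
  unfold al'
  linear_combination this / 4

/-- first real embedding -/
noncomputable def s1 (hm : 0 < m) : QuadraticAlgebra ℤ m B →ₐ[ℤ] ℝ :=
  QuadraticAlgebra.lift ⟨al m B, by rw [al_sq hm]; simp⟩

/-- second real embedding -/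
noncomputable def s2 (hm : 0 < m) : QuadraticAlgebra ℤ m B →ₐ[ℤ] ℝ :=
  QuadraticAlgebra.lift ⟨al' m B, by rw [al'_sq hm]; simp⟩

lemma s1_apply (hm : 0 < m) (z : QuadraticAlgebra ℤ m B) :
    s1 hm z = (z.re : ℝ) + z.im * al m B := by
  simp [s1, QuadraticAlgebra.lift]

lemma s2_apply (hm : 0 < m) (z : QuadraticAlgebra ℤ m B) :
    s2 hm z = (z.re : ℝ) + z.im * al' m B := by
  simp [s2, QuadraticAlgebra.lift]

lemma al_add (m B : ℤ) : al m B + al' m B = B := by
  unfold al al'; ring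

lemma al_mul (hm : 0 < m) : al m B * al' m B = -m := by
  have := sd_sq (B := B) hm
  unfold al al'
  linear_combination -this / 4

lemma norm_eq (hm : 0 < m) (z : QuadraticAlgebra ℤ m B) :
    ((z.norm : ℤ) : ℝ) = s1 hm z * s2 hm z := by
  rw [s1_apply, s2_apply, QuadraticAlgebra.norm_def]
  push_cast
  have h1 := al_add m B
  have h2 := al_mul (B := B) hm
  linear_combination (-(z.re : ℝ) * z.im) * h1 - (z.im : ℝ) ^ 2 * h2

lemma sd_gt (hm : 0 < m) : |(B : ℝ)| < sd m B := by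
  apply Real.lt_sqrt_of_sq_lt
  rw [sq_abs]
  push_cast
  have : (0 : ℝ) < m := by exact_mod_cast hm
  linarith

lemma al_pos (hm : 0 < m) : 0 < al m B := by
  have := sd_gt (B := B) hm
  have h2 := neg_abs_le (B : ℝ)
  unfold al
  linarith

lemma al'_neg (hm : 0 < m) : al' m B < 0 := by
  have := sd_gt (B := B) hm
  have h2 := le_abs_self (B : ℝ)
  unfold al'
  linarith

/-- `ω` -/
def om (m B : ℤ) : QuadraticAlgebra ℤ m B := ⟨0, 1⟩

/-- the chain -/
def rho (m B : ℤ) (c : ℕ → ℕ) : ℕ → QuadraticAlgebra ℤ m B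
  | 0 => om m B
  | 1 => 1
  | (k + 2) => rho m B c k - (c k : QuadraticAlgebra ℤ m B) * rho m B c (k + 1)

lemma rho_zero (c : ℕ → ℕ) : rho m B c 0 = om m B := by rw [rho]
lemma rho_one (c : ℕ → ℕ) : rho m B c 1 = 1 := by rw [rho]
lemma rho_add (c : ℕ → ℕ) (k : ℕ) : rho m B c (k + 2) =
    rho m B c k - (c k : QuadraticAlgebra ℤ m B) * rho m B c (k + 1) := by rw [rho]

/-- points -/
def pt (m B : ℤ) (c : ℕ → ℕ) (k : ℕ) (z : ℤ × ℤ) : QuadraticAlgebra ℤ m B :=
  (z.1 : QuadraticAlgebra ℤ m B) * rho m B c k - (z.2 : QuadraticAlgebra ℤ m B) * rho m B c (k + 1)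

lemma pt_zero (c : ℕ → ℕ) (z : ℤ × ℤ) : pt m B c 0 z = ⟨-z.2, z.1⟩ := by
  unfold pt
  rw [rho_zero, rho_one]
  ext <;> simp [om]

lemma pt_succ (c : ℕ → ℕ) (k : ℕ) (z : ℤ × ℤ) :
    pt m B c (k + 1) z = pt m B c k (-z.2, -(z.1 + c k * z.2)) := by
  unfold pt
  rw [rho_add]
  push_cast
  ring

lemma pt_inj (c : ℕ → ℕ) (k : ℕ) : Function.Injective (pt m B c k) := by
  induction k with
  | zero =>
    intro z w h
    rw [pt_zero, pt_zero] at h
    have h1 := congrArg QuadraticAlgebra.re h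
    have h2 := congrArg QuadraticAlgebra.im h
    simp only at h1 h2
    exact Prod.ext h2 (by linarith)
  | succ k ih =>
    intro z w h
    rw [pt_succ, pt_succ] at h
    have h' := ih h
    rw [Prod.mk.injEq] at h'
    obtain ⟨h1, h2⟩ := h'
    have e2 : z.2 = w.2 := by linarith
    rw [e2] at h2
    exact Prod.ext (by linarith) e2

lemma pt_surj (c : ℕ → ℕ) (k : ℕ) : Function.Surjective (pt m B c k) := by
  induction k with
  | zero =>
    intro β
    refine ⟨(β.im, -β.re), ?_⟩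
    rw [pt_zero]
    ext <;> simp
  | succ k ih =>
    intro β
    obtain ⟨w, rfl⟩ := ih β
    refine ⟨(-w.2 + c k * w.1, -w.1), ?_⟩
    rw [pt_succ]
    congr 1
    ext
    · simp
    · simp

/-- hypotheses on the cycle -/
structure CycM (m B : ℤ) (K : ℕ) (P R S : ℕ → ℤ) (c : ℕ → ℕ) : Prop extends Cyc K P R S c where
  Pm : P 0 = m
  RB : R 0 = B
  S1 : S 0 = 1

variable {K : ℕ} {P R S : ℕ → ℤ} {c : ℕ → ℕ}

lemma norm_pt (h : CycM m B K P R S c) (k : ℕ) (hk : k ≤ K) (z : ℤ × ℤ) :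
    (pt m B c k z).norm = (-1) ^ (k + 1) * (P k * z.1 ^ 2 + R k * z.1 * z.2 - S k * z.2 ^ 2) := by
  induction k generalizing z with
  | zero =>
    rw [pt_zero, QuadraticAlgebra.norm_def, h.Pm, h.RB, h.S1]
    simp only
    ring
  | succ k ih =>
    rw [pt_succ, ih (by omega), h.hP k (by omega), h.hR k (by omega), h.hS k (by omega)]
    simp only
    ring

lemma norm_rho (h : CycM m B K P R S c) (k : ℕ) (hk : k ≤ K) :
    (rho m B c (k + 1)).norm = (-1) ^ k * S k := by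
  have h1 := norm_pt h k hk (0, -1)
  have e : pt m B c k (0, -1) = rho m B c (k + 1) := by
    unfold pt; simp
  rw [e] at h1
  rw [h1]
  ring

/-- the sign of the index `k` -/
def sg (k : ℕ) : ℝ := (-1) ^ (k + 1)

lemma sg_succ (k : ℕ) : sg (k + 1) = - sg k := by unfold sg; ring
lemma sg_add_two (k : ℕ) : sg (k + 2) = sg k := by unfold sg; ring
lemma sg_sq (k : ℕ) : sg k * sg k = 1 := by
  unfold sg
  rw [← pow_add, ← two_mul]
  exact Even.neg_one_pow ⟨k + 1, by ring⟩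

lemma s2_rho (hm : 0 < m) (c : ℕ → ℕ) (k : ℕ) :
    0 < sg k * s2 hm (rho m B c k) ∧ 0 < sg (k + 1) * s2 hm (rho m B c (k + 1)) := by
  induction k with
  | zero =>
    constructor
    · rw [rho_zero, s2_apply]
      have := al'_neg (B := B) hm
      simp only [sg, om, Int.cast_zero, Int.cast_one, zero_add, pow_one, one_mul]
      linarith
    · rw [rho_one, map_one]
      simp [sg]
  | succ k ih =>
    refine ⟨ih.2, ?_⟩
    rw [rho_add, map_sub, map_mul, map_natCast, sg_add_two, mul_sub]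
    have h1 := ih.2
    rw [sg_succ] at h1
    have h2 : 0 ≤ (c k : ℝ) * (-sg k * s2 hm (rho m B c (k + 1))) :=
      mul_nonneg (Nat.cast_nonneg _) h1.le
    have h3 := ih.1
    nlinarith

lemma s1_rho (hm : 0 < m) (h : CycM m B K P R S c) (k : ℕ) (hk : k ≤ K + 1) :
    0 < s1 hm (rho m B c k) := by
  rcases k with _ | k
  · rw [rho_zero, s1_apply]
    have := al_pos (B := B) hm
    simp only [om, Int.cast_zero, Int.cast_one]
    linarith
  · have h1 := (s2_rho (B := B) hm c k).2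
    have h2 := norm_eq hm (rho m B c (k + 1))
    rw [norm_rho h k (by omega)] at h2
    have h3 : (0 : ℝ) < S k := by exact_mod_cast h.Spos k (by omega)
    have h4 : sg (k + 1) * (s1 hm (rho m B c (k + 1)) * s2 hm (rho m B c (k + 1))) = S k := by
      rw [← h2]
      unfold sg
      push_cast
      rw [← mul_assoc, ← pow_add]
      have : (-1 : ℝ) ^ (k + 1 + 1 + k) = 1 := Even.neg_one_pow ⟨k + 1, by ring⟩
      rw [this, one_mul]
    have h5 : 0 < s1 hm (rho m B c (k + 1)) * (sg (k + 1) * s2 hm (rho m B c (k + 1))) := by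
      have : s1 hm (rho m B c (k + 1)) * (sg (k + 1) * s2 hm (rho m B c (k + 1))) = S k := by
        rw [← h4]; ring
      rw [this]; exact h3
    exact (mul_pos_iff_of_pos_right h1).mp h5

/-- slope for the sign `σ` -/
noncomputable def sl (hm : 0 < m) (σ : ℝ) (β : QuadraticAlgebra ℤ m B) : ℝ :=
  s1 hm β / (σ * s2 hm β)

/-- half open cone -/
def cone (hm : 0 < m) (σ : ℝ) (v w : QuadraticAlgebra ℤ m B) : Set (QuadraticAlgebra ℤ m B) :=
  {β | (0 < s1 hm β ∧ 0 < σ * s2 hm β) ∧ sl hm σ w < sl hm σ β ∧ sl hm σ β ≤ sl hm σ v}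

lemma cone_mem (hm : 0 < m) (σ : ℝ) (v w next : QuadraticAlgebra ℤ m B) (n : ℕ) (hn : 0 < n)
    (hv1 : 0 < s1 hm v) (hv2 : 0 < σ * s2 hm v) (hw1 : 0 < s1 hm w) (hw2 : σ * s2 hm w < 0)
    (hnext : next = v - (n : QuadraticAlgebra ℤ m B) * w) (hs : 0 < s1 hm next) (x y : ℤ) :
    (x : QuadraticAlgebra ℤ m B) * v - (y : QuadraticAlgebra ℤ m B) * w ∈ cone hm σ v next ↔
      0 ≤ y ∧ y < n * x := by
  have hn' : (0 : ℝ) < n := by exact_mod_cast hn
  have e1 : s1 hm next = s1 hm v - n * s1 hm w := by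
    rw [hnext, map_sub, map_mul, map_natCast]
  have e2 : σ * s2 hm next = σ * s2 hm v - n * (σ * s2 hm w) := by
    rw [hnext, map_sub, map_mul, map_natCast]; ring
  have hs2 : 0 < σ * s2 hm next := by
    rw [e2]
    nlinarith
  have key := Cone.cone_iff (s1 hm v) (σ * s2 hm v) (s1 hm w) (σ * s2 hm w) n x y hn' hv1 hv2
    hw1 hw2 (by rw [← e1]; exact hs)
  have f1 : s1 hm ((x : QuadraticAlgebra ℤ m B) * v - (y : QuadraticAlgebra ℤ m B) * w)
      = x * s1 hm v - y * s1 hm w := by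
    rw [map_sub, map_mul, map_mul, map_intCast, map_intCast]
  have f2 : σ * s2 hm ((x : QuadraticAlgebra ℤ m B) * v - (y : QuadraticAlgebra ℤ m B) * w)
      = x * (σ * s2 hm v) - y * (σ * s2 hm w) := by
    rw [map_sub, map_mul, map_mul, map_intCast, map_intCast]; ring
  have hR : (0 ≤ y ∧ y < n * x) ↔ ((0 : ℝ) ≤ y ∧ (y : ℝ) < n * x) := by
    constructor
    · rintro ⟨h1, h2⟩
      exact ⟨by exact_mod_cast h1, by exact_mod_cast h2⟩
    · rintro ⟨h1, h2⟩
      exact ⟨by exact_mod_cast h1, by exact_mod_cast h2⟩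
  rw [hR, ← key, ← e1, ← e2, ← f1, ← f2]
  unfold cone sl
  simp only [Set.mem_ofPred_eq]
  constructor
  · rintro ⟨⟨h1, h2⟩, h3, h4⟩
    refine ⟨⟨h1, h2⟩, ?_, ?_⟩
    · rwa [div_lt_div_iff₀ hs2 h2] at h3
    · rwa [div_le_div_iff₀ h2 hv2] at h4
  · rintro ⟨⟨h1, h2⟩, h3, h4⟩
    refine ⟨⟨h1, h2⟩, ?_, ?_⟩
    · rwa [div_lt_div_iff₀ hs2 h2]
    · rwa [div_le_div_iff₀ h2 hv2]

lemma slope_lt (hm : 0 < m) (σ : ℝ) (v w next : QuadraticAlgebra ℤ m B) (n : ℕ) (hn : 0 < n)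
    (hv1 : 0 < s1 hm v) (hv2 : 0 < σ * s2 hm v) (hw1 : 0 < s1 hm w) (hw2 : σ * s2 hm w < 0)
    (hnext : next = v - (n : QuadraticAlgebra ℤ m B) * w) : sl hm σ next < sl hm σ v := by
  have hn' : (0 : ℝ) < n := by exact_mod_cast hn
  have e1 : s1 hm next = s1 hm v - n * s1 hm w := by
    rw [hnext, map_sub, map_mul, map_natCast]
  have e2 : σ * s2 hm next = σ * s2 hm v - n * (σ * s2 hm w) := by
    rw [hnext, map_sub, map_mul, map_natCast]; ring
  have hs2 : 0 < σ * s2 hm next := by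
    rw [e2]
    nlinarith
  unfold sl
  rw [div_lt_div_iff₀ hs2 hv2, e1, e2]
  have : 0 < n * (s1 hm w * (σ * s2 hm v) - s1 hm v * (σ * s2 hm w)) := by
    apply mul_pos hn'
    nlinarith
  linarith

section chain

variable (hm : 0 < m) (h : CycM m B K P R S c)

include h in
lemma pt_mem (k : ℕ) (hk : k < K) (z : ℤ × ℤ) :
    pt m B c k z ∈ cone hm (sg k) (rho m B c k) (rho m B c (k + 2)) ↔
      0 ≤ z.2 ∧ z.2 < c k * z.1 := by
  have h2 := s2_rho (B := B) hm c k
  exact cone_mem hm (sg k) _ (rho m B c (k + 1)) _ (c k) (h.cpos k hk) (s1_rho hm h k (by omega))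
    h2.1 (s1_rho hm h (k + 1) (by omega)) (by have := h2.2; rw [sg_succ] at this; linarith)
    (rho_add c k) (s1_rho hm h (k + 2) (by omega)) z.1 z.2

include h in
lemma sl_step (k : ℕ) (hk : k < K) :
    sl hm (sg k) (rho m B c (k + 2)) < sl hm (sg k) (rho m B c k) := by
  have h2 := s2_rho (B := B) hm c k
  exact slope_lt hm (sg k) _ (rho m B c (k + 1)) _ (c k) (h.cpos k hk) (s1_rho hm h k (by omega))
    h2.1 (s1_rho hm h (k + 1) (by omega)) (by have := h2.2; rw [sg_succ] at this; linarith)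
    (rho_add c k)

include h in
lemma sl_chain (k j : ℕ) (hk : k + 2 * j ≤ K + 1) :
    sl hm (sg k) (rho m B c (k + 2 * j)) ≤ sl hm (sg k) (rho m B c k) := by
  induction j with
  | zero => exact le_rfl
  | succ j ih =>
    have h1 := ih (by omega)
    have h2 := sl_step hm h (k + 2 * j) (by omega)
    have e : sg (k + 2 * j) = sg k := by
      unfold sg
      rw [show k + 2 * j + 1 = (k + 1) + 2 * j by ring, pow_add, pow_mul]
      norm_num
    rw [e] at h2
    rw [show k + 2 * (j + 1) = k + 2 * j + 2 by ring]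
    linarith

lemma sg_even (k j : ℕ) : sg (k + 2 * j) = sg k := by
  unfold sg
  rw [show k + 2 * j + 1 = (k + 1) + 2 * j by ring, pow_add, pow_mul]
  norm_num

/-- points of a cone of given absolute norm -/
def Gs (hm : 0 < m) (σ : ℝ) (v w : QuadraticAlgebra ℤ m B) (n : ℕ) :
    Set (QuadraticAlgebra ℤ m B) := {β | β ∈ cone hm σ v w ∧ β.norm.natAbs = n}

/-- cast of pairs -/
def cst (z : ℕ × ℕ) : ℤ × ℤ := ((z.1 : ℤ), (z.2 : ℤ))

lemma cst_inj : Function.Injective cst := by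
  intro z w h
  simp only [cst, Prod.mk.injEq, Nat.cast_inj] at h
  exact Prod.ext h.1 h.2

lemma form_pos {P R S : ℤ} {n : ℕ} (hn : 0 < n) (hP : 0 < P) (hS : 0 < S)
    (hA : 0 < P + R * n - S * (n : ℤ) ^ 2) {x y : ℤ} (hy : 0 ≤ y) (hyx : y ≤ n * x) :
    x ^ 2 + S * (y * (n * x - y)) ≤ P * x ^ 2 + R * x * y - S * y ^ 2 := by
  have hn' : (0 : ℤ) < n := by exact_mod_cast hn
  have hx : 0 ≤ x := by
    by_contra hx
    push Not at hx
    nlinarith
  have e : (n : ℤ) * (P * x ^ 2 + R * x * y - S * y ^ 2) = (n * x - y) * x * P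
      + y * x * (P + R * n - S * (n : ℤ) ^ 2) + S * n * (y * (n * x - y)) := by ring
  have h1 : 0 ≤ (n * x - y) * x := mul_nonneg (by linarith) hx
  have h2 : 0 ≤ y * x := mul_nonneg hy hx
  have h3 : (n * x - y) * x ≤ (n * x - y) * x * P := by nlinarith
  have h4 : y * x ≤ y * x * (P + R * n - S * (n : ℤ) ^ 2) := by nlinarith
  have h7 : (n : ℤ) * (x ^ 2 + S * (y * (n * x - y)))
      ≤ (n : ℤ) * (P * x ^ 2 + R * x * y - S * y ^ 2) := by
    rw [e]; nlinarith
  exact le_of_mul_le_mul_left h7 hn'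

lemma hAend (h : CycM m B K P R S c) (k : ℕ) (hk : k < K) :
    0 < P k + R k * (c k) - S k * (c k : ℤ) ^ 2 := by
  rw [← h.hS k hk]; exact h.Spos (k + 1) hk

include h in
/-- one edge -/
lemma Gs_edge (k : ℕ) (hk : k < K) (n : ℕ) :
    Gs hm (sg k) (rho m B c k) (rho m B c (k + 2)) n =
      (fun z => pt m B c k (cst z)) '' edgeSet (P k) (R k) (S k) (c k) n := by
  ext β
  simp only [Gs, Set.mem_ofPred_eq, Set.mem_image]
  have hnorm : ∀ x y : ℤ, 0 ≤ y → y ≤ c k * x → (pt m B c k (x, y)).norm.natAbs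
      = (P k * x ^ 2 + R k * x * y - S k * y ^ 2).natAbs := by
    intro x y _ _
    rw [norm_pt h k hk.le]
    simp only
    rw [Int.natAbs_mul, Int.natAbs_pow]
    simp
  constructor
  · rintro ⟨hb, hN⟩
    obtain ⟨⟨x, y⟩, rfl⟩ := pt_surj (m := m) (B := B) c k β
    rw [pt_mem hm h k hk] at hb
    obtain ⟨h0, h1⟩ := hb
    simp only at h0 h1
    have hx : 1 ≤ x := by
      have hc : (0 : ℤ) < c k := by exact_mod_cast h.cpos k hk
      by_contra hx
      push Not at hx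
      have : x ≤ 0 := by linarith
      nlinarith
    obtain ⟨X, hX⟩ := Int.eq_ofNat_of_zero_le (by linarith : 0 ≤ x)
    obtain ⟨Y, hY⟩ := Int.eq_ofNat_of_zero_le h0
    refine ⟨(X, Y), ⟨?_, ?_, ?_⟩, ?_⟩
    · simp only; omega
    · simp only; rw [hX, hY] at h1; exact_mod_cast h1
    · rw [hnorm x y h0 h1.le] at hN
      have hp := form_pos (h.cpos k hk) (h.Ppos hk.le) (h.Spos k hk.le) (hAend h k hk) h0 h1.le
      have h5 : 0 ≤ S k * (y * (c k * x - y)) :=
        mul_nonneg (h.Spos k hk.le).le (mul_nonneg h0 (by linarith))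
      simp only
      rw [← hX, ← hY]
      have h6 : 0 ≤ x ^ 2 := sq_nonneg x
      omega
    · simp only [cst]; rw [← hX, ← hY]
  · rintro ⟨⟨X, Y⟩, ⟨h1, h2, h3⟩, rfl⟩
    simp only [cst] at *
    have h2' : (Y : ℤ) < c k * X := by exact_mod_cast h2
    refine ⟨(pt_mem hm h k hk _).2 ⟨by simp, by simpa using h2'⟩, ?_⟩
    rw [hnorm X Y (by positivity) h2'.le, h3]
    simp

include h in
lemma Gs_chain (k j : ℕ) (hk : k + 2 * j ≤ K + 1) (n : ℕ) :
    (Gs hm (sg k) (rho m B c k) (rho m B c (k + 2 * j)) n).Finite ∧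
    (Gs hm (sg k) (rho m B c k) (rho m B c (k + 2 * j)) n).ncard =
      ∑ i ∈ range j, (edgeSet (P (k + 2 * i)) (R (k + 2 * i)) (S (k + 2 * i))
        (c (k + 2 * i)) n).ncard := by
  induction j with
  | zero =>
    have : Gs hm (sg k) (rho m B c k) (rho m B c (k + 2 * 0)) n = ∅ := by
      ext β
      simp only [Gs, cone, mul_zero, add_zero, Set.mem_ofPred_eq, Set.mem_empty_iff_false,
        iff_false]
      rintro ⟨⟨_, h1, h2⟩, _⟩
      linarith
    rw [this]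
    simp
  | succ j ih =>
    obtain ⟨f1, n1⟩ := ih (by omega)
    have hk' : k + 2 * j < K := by omega
    have hE := Gs_edge hm h (k + 2 * j) hk' n
    rw [sg_even] at hE
    have hfin : (edgeSet (P (k + 2 * j)) (R (k + 2 * j)) (S (k + 2 * j)) (c (k + 2 * j)) n).Finite :=
      edgeSet_finite (h.cpos _ hk') (h.Ppos hk'.le) (h.Spos _ hk'.le) (hAend h _ hk') n
    have hinj : Function.Injective (fun z => pt m B c (k + 2 * j) (cst z)) :=
      (pt_inj c _).comp cst_inj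
    have hun : Gs hm (sg k) (rho m B c k) (rho m B c (k + 2 * (j + 1))) n =
        Gs hm (sg k) (rho m B c k) (rho m B c (k + 2 * j)) n ∪
        Gs hm (sg k) (rho m B c (k + 2 * j)) (rho m B c (k + 2 * j + 2)) n := by
      have a1 := sl_chain hm h k j (by omega)
      have a2 := sl_step hm h (k + 2 * j) hk'
      rw [sg_even] at a2
      rw [show k + 2 * (j + 1) = k + 2 * j + 2 by ring]
      ext β
      simp only [Gs, cone, Set.mem_ofPred_eq, Set.mem_union]
      constructor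
      · rintro ⟨⟨h0, h3, h4⟩, h5⟩
        rcases lt_or_ge (sl hm (sg k) (rho m B c (k + 2 * j))) (sl hm (sg k) β) with h6 | h6
        · left; exact ⟨⟨h0, h6, h4⟩, h5⟩
        · right; exact ⟨⟨h0, h3, h6⟩, h5⟩
      · rintro (⟨⟨h0, h3, h4⟩, h5⟩ | ⟨⟨h0, h3, h4⟩, h5⟩)
        · exact ⟨⟨h0, by linarith, h4⟩, h5⟩
        · exact ⟨⟨h0, h3, by linarith⟩, h5⟩
    have hdisj : Disjoint (Gs hm (sg k) (rho m B c k) (rho m B c (k + 2 * j)) n)
        (Gs hm (sg k) (rho m B c (k + 2 * j)) (rho m B c (k + 2 * j + 2)) n) := by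
      rw [Set.disjoint_left]
      rintro β ⟨⟨_, h1, _⟩, _⟩ ⟨⟨_, _, h2⟩, _⟩
      linarith
    have f2 : (Gs hm (sg k) (rho m B c (k + 2 * j)) (rho m B c (k + 2 * j + 2)) n).Finite := by
      rw [hE]; exact hfin.image _
    refine ⟨by rw [hun]; exact f1.union f2, ?_⟩
    rw [hun, Set.ncard_union_eq hdisj f1 f2, n1, Finset.sum_range_succ, hE,
      Set.ncard_image_of_injective _ hinj]

end chain

end CG

end Pool.Agent.Lib_helper5


end

section

/-!
Counting classes of associates by a cycle of even length.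
-/

namespace Pool.Agent.Lib_helper5

open Finset (range)
open Pool.Agent.LibH4

namespace CG

variable {m B : ℤ} {K : ℕ} {P R S : ℕ → ℤ} {c : ℕ → ℕ}

lemma s1_zpow (hm : 0 < m) (v : (QuadraticAlgebra ℤ m B)ˣ) (k : ℤ) :
    s1 hm ((v ^ k : (QuadraticAlgebra ℤ m B)ˣ) : QuadraticAlgebra ℤ m B)
      = (s1 hm (v : QuadraticAlgebra ℤ m B)) ^ k := by
  have h := map_zpow (Units.map ((s1 hm : QuadraticAlgebra ℤ m B →ₐ[ℤ] ℝ) :
    QuadraticAlgebra ℤ m B →* ℝ)) v k
  have h' := congrArg (fun u : ℝˣ => (u : ℝ)) h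
  simp only [Units.val_zpow_eq_zpow_val] at h'
  exact h'

lemma s2_zpow (hm : 0 < m) (v : (QuadraticAlgebra ℤ m B)ˣ) (k : ℤ) :
    s2 hm ((v ^ k : (QuadraticAlgebra ℤ m B)ˣ) : QuadraticAlgebra ℤ m B)
      = (s2 hm (v : QuadraticAlgebra ℤ m B)) ^ k := by
  have h := map_zpow (Units.map ((s2 hm : QuadraticAlgebra ℤ m B →ₐ[ℤ] ℝ) :
    QuadraticAlgebra ℤ m B →* ℝ)) v k
  have h' := congrArg (fun u : ℝˣ => (u : ℝ)) h
  simp only [Units.val_zpow_eq_zpow_val] at h'
  exact h'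

lemma exists_in_cone (hm : 0 < m) (σ : ℝ) (u : (QuadraticAlgebra ℤ m B)ˣ)
    (hu1 : 0 < s1 hm (u : QuadraticAlgebra ℤ m B)) (hu2 : 0 < s2 hm (u : QuadraticAlgebra ℤ m B))
    (hul : sl hm 1 (u : QuadraticAlgebra ℤ m B) < 1) (v : QuadraticAlgebra ℤ m B)
    (hv1 : 0 < s1 hm v) (hv2 : 0 < σ * s2 hm v) (β : QuadraticAlgebra ℤ m B)
    (h1 : 0 < s1 hm β) (h2 : 0 < σ * s2 hm β) :
    ∃ γ ∈ cone hm σ v (u * v), Associated γ β := by
  have hl0 : 0 < sl hm 1 (u : QuadraticAlgebra ℤ m B) := by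
    unfold sl; rw [one_mul]; exact div_pos hu1 hu2
  set l := sl hm 1 (u : QuadraticAlgebra ℤ m B) with hl
  have hsb0 : 0 < sl hm σ β / sl hm σ v := div_pos (div_pos h1 h2) (div_pos hv1 hv2)
  have hv0 : 0 < sl hm σ v := div_pos hv1 hv2
  have hy : 1 < l⁻¹ := (one_lt_inv₀ hl0).mpr hul
  obtain ⟨n, hn1, hn2⟩ := exists_mem_Ioc_zpow hsb0 hy
  refine ⟨β * ((u ^ (n + 1) : (QuadraticAlgebra ℤ m B)ˣ) : QuadraticAlgebra ℤ m B), ?_,
    associated_mul_unit_left β _ (Units.isUnit _)⟩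
  have f1 : s1 hm (β * ((u ^ (n + 1) : (QuadraticAlgebra ℤ m B)ˣ) : QuadraticAlgebra ℤ m B)) =
      s1 hm β * (s1 hm (u : QuadraticAlgebra ℤ m B)) ^ (n + 1) := by rw [map_mul, s1_zpow]
  have f2 : s2 hm (β * ((u ^ (n + 1) : (QuadraticAlgebra ℤ m B)ˣ) : QuadraticAlgebra ℤ m B)) =
      s2 hm β * (s2 hm (u : QuadraticAlgebra ℤ m B)) ^ (n + 1) := by rw [map_mul, s2_zpow]
  have hu1' : 0 < (s1 hm (u : QuadraticAlgebra ℤ m B)) ^ (n + 1) := by positivity
  have hu2' : 0 < (s2 hm (u : QuadraticAlgebra ℤ m B)) ^ (n + 1) := by positivity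
  have f3 : sl hm σ (β * ((u ^ (n + 1) : (QuadraticAlgebra ℤ m B)ˣ) : QuadraticAlgebra ℤ m B)) =
      sl hm σ β * l ^ (n + 1) := by
    rw [hl]
    unfold sl
    rw [f1, f2, one_mul, div_zpow, ← mul_assoc, div_mul_div_comm]
  have f4 : sl hm σ ((u : QuadraticAlgebra ℤ m B) * v) = l * sl hm σ v := by
    rw [hl]
    unfold sl
    rw [map_mul, map_mul, one_mul, div_mul_div_comm]
    congr 1
    ring
  have hk : 0 < l ^ (n + 1) := by positivity
  refine ⟨⟨?_, ?_⟩, ?_, ?_⟩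
  · rw [f1]; exact mul_pos h1 hu1'
  · rw [f2, ← mul_assoc]; exact mul_pos h2 hu2'
  · rw [f3, f4]
    rw [lt_div_iff₀ hv0] at hn1
    have := mul_lt_mul_of_pos_right hn1 hk
    rw [inv_zpow, zpow_add₀ hl0.ne', zpow_one] at this
    have e : (l ^ n)⁻¹ * sl hm σ v * (l ^ n * l) = l * sl hm σ v := by
      field_simp
    rw [e] at this
    rwa [zpow_add₀ hl0.ne', zpow_one]
  · rw [f3]
    rw [div_le_iff₀ hv0] at hn2
    have := mul_le_mul_of_nonneg_right hn2 hk.le
    rw [inv_zpow] at this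
    have e : (l ^ (n + 1))⁻¹ * sl hm σ v * l ^ (n + 1) = sl hm σ v := by
      field_simp
    rw [e] at this
    exact this

lemma edgeSet_one {P R S : ℤ} {c : ℕ} (hc : 0 < c) (hP : 0 < P) (hS : 0 < S)
    (hA : 0 < P + R * c - S * (c : ℤ) ^ 2) :
    edgeSet P R S c 1 = if P = 1 then {((1 : ℕ), (0 : ℕ))} else ∅ := by
  ext ⟨x, y⟩
  simp only [edgeSet, Set.mem_ofPred_eq]
  constructor
  · rintro ⟨h1, h2, h3⟩
    have h2' : (y : ℤ) < c * x := by exact_mod_cast h2
    have h1' : (1 : ℤ) ≤ x := by exact_mod_cast h1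
    have hp := form_pos hc hP hS hA (x := x) (y := y) (by positivity) h2'.le
    rw [h3] at hp
    have hy : y = 0 := by
      by_contra hy
      have hy' : (1 : ℤ) ≤ y := by
        have : 1 ≤ y := Nat.pos_of_ne_zero hy
        exact_mod_cast this
      have h5 : (1 : ℤ) ≤ S * (y * (c * x - y)) := by
        have h6 : (1 : ℤ) ≤ c * x - y := by linarith
        have h7 : (1 : ℤ) ≤ y * (c * x - y) := by nlinarith
        nlinarith
      have : (1 : ℤ) ≤ (x : ℤ) ^ 2 := by nlinarith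
      have hone : ((1 : ℕ) : ℤ) = 1 := rfl
      rw [hone] at hp
      linarith
    subst hy
    have hone : ((1 : ℕ) : ℤ) = 1 := rfl
    rw [hone] at hp h3
    simp only [Nat.cast_zero, mul_zero, zero_mul, add_zero] at hp h3
    have hx : x = 1 := by
      have : (x : ℤ) = 1 := by nlinarith
      exact_mod_cast this
    subst hx
    have hP1 : P = 1 := by
      simp only [Nat.cast_one, one_pow, mul_one] at h3
      linarith
    rw [if_pos hP1]
    rfl
  · intro hmem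
    by_cases hP1 : P = 1
    · rw [if_pos hP1] at hmem
      have := Set.mem_singleton_iff.1 hmem
      rw [Prod.mk.injEq] at this
      obtain ⟨rfl, rfl⟩ := this
      refine ⟨le_rfl, by omega, ?_⟩
      rw [hP1]; simp
    · rw [if_neg hP1] at hmem
      exact absurd hmem (Set.notMem_empty _)

section even

variable (hm : 0 < m) (h : CycM m B K P R S c) (J : ℕ) (hK : K = 2 * J) (hJ : 0 < J)
  (hcl : rho m B c K = rho m B c (K + 1) * om m B) (hP1 : ∀ k < K, k ≠ 1 → P k ≠ 1)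

lemma sg_one : sg 1 = 1 := by unfold sg; norm_num
lemma sg_zero : sg 0 = -1 := by unfold sg; norm_num

include h hK hJ hP1 in
/-- the only element of absolute norm one in the positive domain is `1` -/
lemma pos_one (w : QuadraticAlgebra ℤ m B)
    (hw : w ∈ cone hm 1 1 (rho m B c (K + 1))) (hN : w.norm.natAbs = 1) : w = 1 := by
  have e1 : 1 + 2 * J = K + 1 := by omega
  have hch := Gs_chain hm h 1 J (by omega) 1
  rw [e1, sg_one, rho_one] at hch
  obtain ⟨hfin, hcard⟩ := hch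
  have hsum : ∑ i ∈ range J, (edgeSet (P (1 + 2 * i)) (R (1 + 2 * i)) (S (1 + 2 * i))
        (c (1 + 2 * i)) 1).ncard = 1 := by
    rw [Finset.sum_eq_single_of_mem 0 (Finset.mem_range.2 hJ)]
    · rw [mul_zero, add_zero, edgeSet_one (h.cpos 1 (by omega)) (h.Ppos (by omega))
        (h.Spos 1 (by omega)) (hAend h 1 (by omega)), if_pos]
      · exact Set.ncard_singleton _
      · rw [h.hP 0 (by omega), h.S1]
    · intro i hi hi0
      have hi' := Finset.mem_range.1 hi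
      rw [edgeSet_one (h.cpos _ (by omega)) (h.Ppos (by omega))
        (h.Spos _ (by omega)) (hAend h _ (by omega)), if_neg (hP1 _ (by omega) (by omega))]
      exact Set.ncard_empty _
  rw [hsum, Set.ncard_eq_one] at hcard
  obtain ⟨z, hz⟩ := hcard
  have m1 : w ∈ Gs hm 1 1 (rho m B c (K + 1)) 1 := ⟨hw, hN⟩
  have hlt : sl hm 1 (rho m B c (K + 1)) < sl hm 1 (1 : QuadraticAlgebra ℤ m B) := by
    have a1 := sl_chain hm h 3 (J - 1) (by omega)
    have a2 := sl_step hm h 1 (by omega)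
    rw [show 3 + 2 * (J - 1) = K + 1 by omega] at a1
    have : sg 3 = 1 := by unfold sg; norm_num
    rw [this] at a1
    rw [sg_one, rho_one] at a2
    linarith
  have m2 : (1 : QuadraticAlgebra ℤ m B) ∈ Gs hm 1 1 (rho m B c (K + 1)) 1 := by
    refine ⟨⟨⟨?_, ?_⟩, hlt, le_rfl⟩, ?_⟩
    · simp
    · simp
    · simp
  rw [hz, Set.mem_singleton_iff] at m1 m2
  rw [m1, m2]

include h hK hP1 in
/-- no element of absolute norm one in the negative domain -/
lemma neg_none (w : QuadraticAlgebra ℤ m B)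
    (hw : w ∈ cone hm (-1) (om m B) (rho m B c K)) : w.norm.natAbs ≠ 1 := by
  intro hN
  have hch := Gs_chain hm h 0 J (by omega) 1
  rw [zero_add, ← hK, sg_zero, rho_zero] at hch
  obtain ⟨hfin, hcard⟩ := hch
  have hsum : ∑ i ∈ range J, (edgeSet (P (0 + 2 * i)) (R (0 + 2 * i)) (S (0 + 2 * i))
        (c (0 + 2 * i)) 1).ncard = 0 := by
    apply Finset.sum_eq_zero
    intro i hi
    have hi' := Finset.mem_range.1 hi
    rw [edgeSet_one (h.cpos _ (by omega)) (h.Ppos (by omega))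
        (h.Spos _ (by omega)) (hAend h _ (by omega)), if_neg (hP1 _ (by omega) (by omega))]
    exact Set.ncard_empty _
  rw [hsum, Set.ncard_eq_zero hfin] at hcard
  have m1 : w ∈ Gs hm (-1) (om m B) (rho m B c K) 1 := ⟨hw, hN⟩
  rw [hcard] at m1
  exact m1

include h hK in
lemma norm_u : (rho m B c (K + 1)).norm = 1 := by
  rw [norm_rho h K le_rfl, h.S0, h.S1, hK, pow_mul]
  norm_num

include h hK in
lemma isUnit_u : IsUnit (rho m B c (K + 1)) := by
  rw [QuadraticAlgebra.isUnit_iff_norm_isUnit, norm_u h J hK]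
  exact isUnit_one

lemma unit_norm (w : (QuadraticAlgebra ℤ m B)ˣ) :
    (w : QuadraticAlgebra ℤ m B).norm.natAbs = 1 := by
  have h := QuadraticAlgebra.isUnit_iff_norm_isUnit.mp w.isUnit
  rwa [Int.isUnit_iff_natAbs_eq] at h

include h hK hJ hP1 in
/-- uniqueness in a cone -/
lemma unique_aux (σ : ℝ) (v β γ : QuadraticAlgebra ℤ m B) (hσ : σ ≠ 0)
    (hβ : β ∈ cone hm σ v (rho m B c (K + 1) * v)) (hγ : γ ∈ cone hm σ v (rho m B c (K + 1) * v))
    (hv1 : 0 < s1 hm v) (hv2 : 0 < σ * s2 hm v)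
    (w : (QuadraticAlgebra ℤ m B)ˣ) (hw : β * w = γ) (hle : sl hm σ γ ≤ sl hm σ β) : β = γ := by
  obtain ⟨⟨b1, b2⟩, b3, b4⟩ := hβ
  obtain ⟨⟨c1, c2⟩, c3, c4⟩ := hγ
  have e1 : s1 hm β * s1 hm (w : QuadraticAlgebra ℤ m B) = s1 hm γ := by rw [← map_mul, hw]
  have e2 : (σ * s2 hm β) * s2 hm (w : QuadraticAlgebra ℤ m B) = σ * s2 hm γ := by
    rw [mul_assoc, ← map_mul, hw]
  have hw1 : 0 < s1 hm (w : QuadraticAlgebra ℤ m B) := by
    rw [← e1] at c1
    exact (mul_pos_iff_of_pos_left b1).mp c1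
  have hw2 : 0 < s2 hm (w : QuadraticAlgebra ℤ m B) := by
    rw [← e2] at c2
    exact (mul_pos_iff_of_pos_left b2).mp c2
  have hsl : sl hm σ β * sl hm 1 (w : QuadraticAlgebra ℤ m B) = sl hm σ γ := by
    unfold sl
    rw [← e1, ← e2, one_mul, div_mul_div_comm]
  have hslv : sl hm σ (rho m B c (K + 1) * v) = sl hm 1 (rho m B c (K + 1)) * sl hm σ v := by
    unfold sl
    rw [map_mul, map_mul, one_mul, div_mul_div_comm]
    congr 1
    ring
  have hb0 : 0 < sl hm σ β := div_pos b1 b2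
  have hv0 : 0 < sl hm σ v := div_pos hv1 hv2
  have hu1 := s1_rho hm h (K + 1) le_rfl
  have hu2 := (s2_rho (B := B) hm c K).2
  have hsgK : sg (K + 1) = 1 := by
    rw [hK, add_comm, sg_even, sg_one]
  rw [hsgK, one_mul] at hu2
  have hu0 : 0 < sl hm 1 (rho m B c (K + 1)) := by
    unfold sl; rw [one_mul]; exact div_pos hu1 hu2
  have hmem : (w : QuadraticAlgebra ℤ m B) ∈ cone hm 1 1 (rho m B c (K + 1)) := by
    refine ⟨⟨hw1, by rw [one_mul]; exact hw2⟩, ?_, ?_⟩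
    · rw [hslv, ← hsl] at c3
      by_contra hgt
      push Not at hgt
      have h0 : 0 ≤ sl hm 1 (w : QuadraticAlgebra ℤ m B) := by
        unfold sl; rw [one_mul]; exact (div_pos hw1 hw2).le
      have : sl hm σ β * sl hm 1 (w : QuadraticAlgebra ℤ m B)
          ≤ sl hm σ v * sl hm 1 (rho m B c (K + 1)) := mul_le_mul b4 hgt h0 hv0.le
      linarith
    · rw [← hsl] at hle
      have : sl hm 1 (1 : QuadraticAlgebra ℤ m B) = 1 := by simp [sl]
      rw [this]
      by_contra hgt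
      push Not at hgt
      nlinarith
  have := pos_one hm h J hK hJ hP1 (w : QuadraticAlgebra ℤ m B) hmem (unit_norm w)
  rw [← hw, this, mul_one]

include hm h hK hJ hP1 hcl in
/-- **cone count for even cycles** -/
theorem count_even (n : ℕ) (hn : n ≠ 0) :
    (SN m B n).ncard = ∑ k ∈ range K, (edgeSet (P k) (R k) (S k) (c k) n).ncard := by
  obtain ⟨u, hu⟩ := isUnit_u h J hK
  have hu1 : 0 < s1 hm (u : QuadraticAlgebra ℤ m B) := by
    rw [hu]; exact s1_rho hm h (K + 1) le_rfl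
  have hsgK : sg (K + 1) = 1 := by
    rw [hK, add_comm, sg_even, sg_one]
  have hu2 : 0 < s2 hm (u : QuadraticAlgebra ℤ m B) := by
    rw [hu]
    have := (s2_rho (B := B) hm c K).2
    rwa [hsgK, one_mul] at this
  have hul : sl hm 1 (u : QuadraticAlgebra ℤ m B) < 1 := by
    have a1 := sl_chain hm h 3 (J - 1) (by omega)
    have a2 := sl_step hm h 1 (by omega)
    rw [show 3 + 2 * (J - 1) = K + 1 by omega] at a1
    have h3 : sg 3 = 1 := by unfold sg; norm_num
    rw [h3] at a1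
    rw [sg_one, rho_one] at a2
    have h4 : sl hm 1 (1 : QuadraticAlgebra ℤ m B) = 1 := by simp [sl]
    rw [hu]
    linarith
  have hom1 : 0 < s1 hm (om m B) := by
    have := s1_rho hm h 0 (by omega)
    rwa [rho_zero] at this
  have hom2 : 0 < (-1 : ℝ) * s2 hm (om m B) := by
    have := (s2_rho (B := B) hm c 0).1
    rwa [rho_zero, sg_zero] at this
  have hone1 : 0 < s1 hm (1 : QuadraticAlgebra ℤ m B) := by simp
  have hone2 : 0 < (1 : ℝ) * s2 hm (1 : QuadraticAlgebra ℤ m B) := by simp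
  -- the two sets
  have chP := Gs_chain hm h 1 J (by omega) n
  rw [show 1 + 2 * J = K + 1 by omega, sg_one, rho_one] at chP
  have chN := Gs_chain hm h 0 J (by omega) n
  rw [zero_add, ← hK, sg_zero, rho_zero] at chN
  obtain ⟨fP, nP⟩ := chP
  obtain ⟨fN, nN⟩ := chN
  set GP := Gs hm 1 1 (rho m B c (K + 1)) n with hGP
  set GN := Gs hm (-1) (om m B) (rho m B c K) n with hGN
  have hdisj : Disjoint GP GN := by
    rw [Set.disjoint_left]
    rintro β ⟨⟨⟨_, h1⟩, _⟩, _⟩ ⟨⟨⟨_, h2⟩, _⟩, _⟩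
    linarith
  have himg : Associates.mk '' (GP ∪ GN) = SN m B n := by
    ext x
    constructor
    · rintro ⟨β, hβ, rfl⟩
      change absN _ = n
      rw [absN_mk]
      rcases hβ with hβ | hβ
      · exact hβ.2
      · exact hβ.2
    · intro hx
      obtain ⟨β, rfl⟩ := Associates.mk_surjective x
      have hx' : β.norm.natAbs = n := hx
      have hne : s1 hm β * s2 hm β ≠ 0 := by
        rw [← norm_eq]
        intro h0
        have h1 : β.norm = 0 := by exact_mod_cast h0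
        rw [h1] at hx'
        exact hn (by simpa using hx'.symm)
      have hne1 : s1 hm β ≠ 0 := left_ne_zero_of_mul hne
      have hne2 : s2 hm β ≠ 0 := right_ne_zero_of_mul hne
      obtain ⟨β', hβ', hassoc, hne2'⟩ : ∃ β', 0 < s1 hm β' ∧ Associated β' β ∧
          s2 hm β' ≠ 0 := by
        rcases lt_or_gt_of_ne hne1 with h | h
        · refine ⟨-β, ?_, (Associated.refl β).neg_left, ?_⟩
          · rw [map_neg]; linarith
          · rw [map_neg]; exact neg_ne_zero.mpr hne2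
        · exact ⟨β, h, Associated.refl β, hne2⟩
      have hnat : ∀ γ : QuadraticAlgebra ℤ m B, Associated γ β → γ.norm.natAbs = n := by
        intro γ hγ
        have := congrArg absN (Associates.mk_eq_mk_iff_associated.mpr hγ)
        rw [absN_mk, absN_mk, hx'] at this
        exact this
      rcases lt_or_gt_of_ne hne2' with h2 | h2
      · obtain ⟨γ, hγ, hγ'⟩ := exists_in_cone hm (-1) u hu1 hu2 hul (om m B) hom1 hom2 β' hβ'
          (by linarith)
        rw [hu, ← hcl] at hγ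
        exact ⟨γ, Or.inr ⟨hγ, hnat γ (hγ'.trans hassoc)⟩,
          Associates.mk_eq_mk_iff_associated.mpr (hγ'.trans hassoc)⟩
      · obtain ⟨γ, hγ, hγ'⟩ := exists_in_cone hm 1 u hu1 hu2 hul 1 hone1 hone2 β' hβ'
          (by linarith)
        rw [hu, mul_one] at hγ
        exact ⟨γ, Or.inl ⟨hγ, hnat γ (hγ'.trans hassoc)⟩,
          Associates.mk_eq_mk_iff_associated.mpr (hγ'.trans hassoc)⟩
  -- injectivity
  have hcross : ∀ β γ : QuadraticAlgebra ℤ m B, β ∈ GP → γ ∈ GN → ¬ Associated β γ := by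
    rintro β γ ⟨⟨⟨b1, b2⟩, _⟩, _⟩ ⟨⟨⟨c1, c2⟩, _⟩, _⟩ ⟨w, hw⟩
    have e1 : s1 hm β * s1 hm (w : QuadraticAlgebra ℤ m B) = s1 hm γ := by rw [← map_mul, hw]
    have e2 : s2 hm β * s2 hm (w : QuadraticAlgebra ℤ m B) = s2 hm γ := by rw [← map_mul, hw]
    have hw1 : 0 < s1 hm (w : QuadraticAlgebra ℤ m B) := by
      rw [← e1] at c1
      exact (mul_pos_iff_of_pos_left b1).mp c1
    have hw2 : 0 < (-1 : ℝ) * s2 hm (w : QuadraticAlgebra ℤ m B) := by
      rw [one_mul] at b2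
      rw [← e2] at c2
      have : 0 < s2 hm β * ((-1) * s2 hm (w : QuadraticAlgebra ℤ m B)) := by linarith
      exact (mul_pos_iff_of_pos_left b2).mp this
    obtain ⟨γ', hγ', hass⟩ := exists_in_cone hm (-1) u hu1 hu2 hul (om m B) hom1 hom2
      (w : QuadraticAlgebra ℤ m B) hw1 hw2
    rw [hu, ← hcl] at hγ'
    apply neg_none hm h J hK hP1 γ' hγ'
    have := congrArg absN (Associates.mk_eq_mk_iff_associated.mpr hass)
    rw [absN_mk, absN_mk, unit_norm w] at this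
    exact this
  have hinj : Set.InjOn (Associates.mk : QuadraticAlgebra ℤ m B → _) (GP ∪ GN) := by
    have hP : ∀ β γ : QuadraticAlgebra ℤ m B, β ∈ GP → γ ∈ GP → Associated β γ → β = γ := by
      intro β γ hβ hγ hass
      have hβ' : β ∈ cone hm 1 1 (rho m B c (K + 1) * 1) := by rw [mul_one]; exact hβ.1
      have hγ' : γ ∈ cone hm 1 1 (rho m B c (K + 1) * 1) := by rw [mul_one]; exact hγ.1
      rcases le_total (sl hm 1 γ) (sl hm 1 β) with hle | hle
      · obtain ⟨w, hw⟩ := hass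
        exact unique_aux hm h J hK hJ hP1 1 1 β γ one_ne_zero hβ' hγ' hone1 hone2 w hw hle
      · obtain ⟨w, hw⟩ := hass.symm
        exact (unique_aux hm h J hK hJ hP1 1 1 γ β one_ne_zero hγ' hβ' hone1 hone2 w hw hle).symm
    have hN : ∀ β γ : QuadraticAlgebra ℤ m B, β ∈ GN → γ ∈ GN → Associated β γ → β = γ := by
      intro β γ hβ hγ hass
      have hβ' : β ∈ cone hm (-1) (om m B) (rho m B c (K + 1) * om m B) := by
        rw [← hcl]; exact hβ.1
      have hγ' : γ ∈ cone hm (-1) (om m B) (rho m B c (K + 1) * om m B) := by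
        rw [← hcl]; exact hγ.1
      rcases le_total (sl hm (-1) γ) (sl hm (-1) β) with hle | hle
      · obtain ⟨w, hw⟩ := hass
        exact unique_aux hm h J hK hJ hP1 (-1) (om m B) β γ (by norm_num) hβ' hγ' hom1 hom2
          w hw hle
      · obtain ⟨w, hw⟩ := hass.symm
        exact (unique_aux hm h J hK hJ hP1 (-1) (om m B) γ β (by norm_num) hγ' hβ' hom1 hom2
          w hw hle).symm
    intro β hβ γ hγ heq
    have hass := Associates.mk_eq_mk_iff_associated.mp heq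
    rcases hβ with hβ | hβ
    · rcases hγ with hγ | hγ
      · exact hP β γ hβ hγ hass
      · exact absurd hass (hcross β γ hβ hγ)
    · rcases hγ with hγ | hγ
      · exact absurd hass.symm (hcross γ β hγ hβ)
      · exact hN β γ hβ hγ hass
  rw [← himg, hinj.ncard_image, Set.ncard_union_eq hdisj fP fN, nP, nN, hK]
  clear_value GP GN
  have hsplit : ∀ (J : ℕ) (g : ℕ → ℕ), ∑ k ∈ range (2 * J), g k
      = ∑ i ∈ range J, g (1 + 2 * i) + ∑ i ∈ range J, g (0 + 2 * i) := by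
    intro J g
    induction J with
    | zero => simp
    | succ J ih =>
      rw [show 2 * (J + 1) = 2 * J + 1 + 1 by ring, Finset.sum_range_succ, Finset.sum_range_succ,
        ih, Finset.sum_range_succ, Finset.sum_range_succ, show 1 + 2 * J = 2 * J + 1 by ring,
        zero_add]
      ring
  exact (hsplit J (fun k => (edgeSet (P k) (R k) (S k) (c k) n).ncard)).symm

end even

end CG

end Pool.Agent.Lib_helper5


end

section

/-!
The congruence for cycles of even length (fundamental unit of norm `+1`).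
-/

namespace Pool.Agent.Lib_helper5

open Finset (range)
open Pool.Agent.LibH4 Pool.Agent.LibH4.FA

/-- **T5 for cycles of even length.** -/
theorem even_T5 (m B : ℤ) (hm : 0 < m) (hm2 : m % 2 = 1) (hB2 : B % 2 = 1) {K : ℕ}
    {P R S : ℕ → ℤ} {c : ℕ → ℕ} (h : CG.CycM m B K P R S c) (J : ℕ) (hK : K = 2 * J) (hJ : 0 < J)
    (hcl : CG.rho m B c K = CG.rho m B c (K + 1) * CG.om m B)
    (hP1 : ∀ k < K, k ≠ 1 → P k ≠ 1)
    [IsDomain (QuadraticAlgebra ℤ m B)] [UniqueFactorizationMonoid (QuadraticAlgebra ℤ m B)]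
    {d : ℕ} (hd : (d : ℤ) = B ^ 2 + 4 * m) (h8 : d % 8 = 5)
    (q l : ℕ) (hq : 0 < q) [Fact l.Prime] (hcop : Nat.Coprime q d) (hl6 : ¬ l ∣ 6)
    (hld : ¬ l ∣ d)
    (χ : ZMod q → ZMod l)
    (hodd : ∀ x, χ (-x) = - χ x) (hmul : ∀ x y, χ (x * y) = χ x * χ y)
    (hsum : ∑ u ∈ range q, (u : ZMod l) * χ (u : ZMod q) = 0) :
    ∑ k ∈ range K, ∑ r ∈ range q, ∑ s ∈ range q,
      χ ((P k * (r : ℤ) ^ 2 + R k * r * s - S k * (s : ℤ) ^ 2 : ℤ) : ZMod q)
        * (3 * ((bZ q r : ZMod l) * bZ q s) - c k * b2Z q r) = 0 := by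
  refine cyc_T5 h.toCyc d h8 ?_ q l hq hcop hl6 hld ?_ χ hodd hmul hsum
  · intro n hn
    rw [← CG.count_even hm h J hK hJ hcl hP1 n hn]
    exact (ncard_SN hd h8 n hn).2
  · intro f hper hodd'
    rw [h.Pm, h.RB, h.S1]
    apply mean_even m B hm2 hB2 q hq _ f hper hodd'
    rw [← hd]
    exact Nat.isCoprime_iff_coprime.2 hcop

/-! ### the family `d = (an)² - 4a` -/

namespace E1

/-- `w` -/
def w (a n : ℕ) : ℤ := (a : ℤ) * n - a - 1

/-- the first coefficients -/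
def P (a n : ℕ) : ℕ → ℤ
  | 1 => 1
  | 3 => a
  | _ => w a n

/-- the middle coefficients -/
def R (a n : ℕ) : ℕ → ℤ
  | 2 => a * n - 2 * a
  | 3 => a * n - 2 * a
  | _ => a * n - 2

/-- the last coefficients -/
def S (a n : ℕ) : ℕ → ℤ
  | 0 => 1
  | 2 => a
  | 4 => 1
  | _ => w a n

/-- the multipliers -/
def c (a n : ℕ) : ℕ → ℕ
  | 0 => a * n - 2
  | 2 => n - 2
  | _ => 1

lemma w_pos (a n : ℕ) (ha : 2 ≤ a) (hn : 3 ≤ n) : 3 ≤ w a n := by
  unfold w
  have h1 : (2 : ℤ) ≤ a := by exact_mod_cast ha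
  have h2 : (3 : ℤ) ≤ n := by exact_mod_cast hn
  nlinarith

lemma cast_c0 (a n : ℕ) (ha : 2 ≤ a) (hn : 3 ≤ n) : ((a * n - 2 : ℕ) : ℤ) = a * n - 2 := by
  have : 2 ≤ a * n := by nlinarith
  rw [Nat.cast_sub this]
  push_cast
  ring

lemma cast_c2 (n : ℕ) (hn : 3 ≤ n) : ((n - 2 : ℕ) : ℤ) = n - 2 := by
  rw [Nat.cast_sub (by omega)]
  push_cast
  ring

lemma cyc (a n : ℕ) (ha : 2 ≤ a) (hn : 3 ≤ n) :
    CG.CycM (w a n) (a * n - 2) 4 (P a n) (R a n) (S a n) (c a n) where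
  hP k hk := by
    interval_cases k <;> simp [P, S]
  hR k hk := by
    interval_cases k <;> simp only [R, S, c, w]
    · rw [cast_c0 a n ha hn]; ring
    · push_cast; ring
    · rw [cast_c2 n hn]; ring
    · push_cast; ring
  hS k hk := by
    interval_cases k <;> simp only [P, R, S, c, w]
    · rw [cast_c0 a n ha hn]; ring
    · push_cast; ring
    · rw [cast_c2 n hn]; ring
    · push_cast; ring
  P0 := rfl
  R0 := rfl
  S0 := rfl
  Spos k hk := by
    have := w_pos a n ha hn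
    interval_cases k <;> simp only [S] <;> omega
  Ppos0 := by
    have := w_pos a n ha hn
    simp only [P]; omega
  cpos k hk := by
    have : 6 ≤ a * n := by nlinarith
    interval_cases k <;> simp only [c] <;> omega
  Pm := rfl
  RB := rfl
  S1 := rfl

lemma closing (a n : ℕ) (ha : 2 ≤ a) (hn : 3 ≤ n) :
    CG.rho (w a n) (a * n - 2) (c a n) 4 =
      CG.rho (w a n) (a * n - 2) (c a n) (4 + 1) * CG.om (w a n) (a * n - 2) := by
  have e2 : CG.rho (w a n) (a * n - 2) (c a n) 2 = ⟨-(a * n - 2), 1⟩ := by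
    rw [CG.rho_add _ 0, CG.rho_zero, CG.rho_one]
    have := cast_c0 a n ha hn
    ext
    · simp [CG.om, c, this]
    · simp [CG.om, c]
  have e3 : CG.rho (w a n) (a * n - 2) (c a n) 3 = ⟨a * n - 1, -1⟩ := by
    rw [CG.rho_add _ 1, CG.rho_one, e2]
    ext
    · simp [c, QuadraticAlgebra.re_one]; ring
    · simp [c, QuadraticAlgebra.im_one]
  have e4 : CG.rho (w a n) (a * n - 2) (c a n) 4 =
      ⟨-(a * n - 2) - (n - 2) * (a * n - 1), n - 1⟩ := by
    rw [CG.rho_add _ 2, e2, e3]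
    have := cast_c2 n hn
    ext
    · simp [c, this]
    · simp [c, this]
      try ring
  have e5 : CG.rho (w a n) (a * n - 2) (c a n) (4 + 1) =
      ⟨a * n - 1 + (a * n - 2) + (n - 2) * (a * n - 1), - 1 - (n - 1)⟩ := by
    rw [CG.rho_add _ 3, e3, e4]
    ext
    · simp [c]; ring
    · simp [c]
  rw [e4, e5, CG.om, QuadraticAlgebra.mk_mul_mk]
  ext
  · simp only [w]; ring
  · ring

/-- **T5 for the family `d = (an)² - 4a`**. -/
theorem T5 (a n : ℕ) (ha : 2 ≤ a) (ha2 : a % 2 = 1) (hn : 3 ≤ n) (hn2 : n % 2 = 1)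
    [IsDomain (QuadraticAlgebra ℤ (w a n) (a * n - 2))]
    [UniqueFactorizationMonoid (QuadraticAlgebra ℤ (w a n) (a * n - 2))]
    {d : ℕ} (hd : (d : ℤ) = ((a : ℤ) * n) ^ 2 - 4 * a)
    (q l : ℕ) (hq : 0 < q) [Fact l.Prime] (hcop : Nat.Coprime q d) (hl6 : ¬ l ∣ 6)
    (hld : ¬ l ∣ d)
    (χ : ZMod q → ZMod l)
    (hodd : ∀ x, χ (-x) = - χ x) (hmul : ∀ x y, χ (x * y) = χ x * χ y)
    (hsum : ∑ u ∈ range q, (u : ZMod l) * χ (u : ZMod q) = 0) :
    (∑ r ∈ range q, ∑ s ∈ range q,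
      χ ((((a : ℤ) * n - a - 1) * (r : ℤ) ^ 2 + ((a : ℤ) * n - 2) * r * s - 1 * (s : ℤ) ^ 2 : ℤ)
        : ZMod q) * (3 * ((bZ q r : ZMod l) * bZ q s) - ((a : ZMod l) * n - 2) * b2Z q r))
    + (∑ r ∈ range q, ∑ s ∈ range q,
      χ ((1 * (r : ℤ) ^ 2 + ((a : ℤ) * n - 2) * r * s - ((a : ℤ) * n - a - 1) * (s : ℤ) ^ 2 : ℤ)
        : ZMod q) * (3 * ((bZ q r : ZMod l) * bZ q s) - 1 * b2Z q r))
    + (∑ r ∈ range q, ∑ s ∈ range q,
      χ ((((a : ℤ) * n - a - 1) * (r : ℤ) ^ 2 + ((a : ℤ) * n - 2 * a) * r * s - a * (s : ℤ) ^ 2 : ℤ)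
        : ZMod q) * (3 * ((bZ q r : ZMod l) * bZ q s) - ((n : ZMod l) - 2) * b2Z q r))
    + (∑ r ∈ range q, ∑ s ∈ range q,
      χ ((a * (r : ℤ) ^ 2 + ((a : ℤ) * n - 2 * a) * r * s - ((a : ℤ) * n - a - 1) * (s : ℤ) ^ 2 : ℤ)
        : ZMod q) * (3 * ((bZ q r : ZMod l) * bZ q s) - 1 * b2Z q r)) = 0 := by
  have hw := w_pos a n ha hn
  have hodd_an : (a * n) % 2 = 1 := by rw [Nat.mul_mod, ha2, hn2]
  have hodd_an' : ((a : ℤ) * n) % 2 = 1 := by exact_mod_cast hodd_an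
  have ha2' : (a : ℤ) % 2 = 1 := by exact_mod_cast ha2
  have h8 : d % 8 = 5 := by
    obtain ⟨k, hk⟩ : ∃ k : ℤ, (a : ℤ) * n = 2 * k + 1 := ⟨((a : ℤ) * n) / 2, by omega⟩
    obtain ⟨j, hj⟩ : ∃ j : ℤ, (a : ℤ) = 2 * j + 1 := ⟨(a : ℤ) / 2, by omega⟩
    obtain ⟨i, hi⟩ := Int.even_mul_succ_self k
    have : (d : ℤ) = 8 * i - 8 * j - 3 := by
      rw [hd, hk, hj]
      linear_combination 4 * hi
    omega
  have key := even_T5 (w a n) (a * n - 2) (by omega) (by unfold w; omega) (by omega)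
    (cyc a n ha hn) 2 rfl (by norm_num) (closing a n ha hn) (by
      intro k hk hk1
      interval_cases k <;> simp only [P] <;> omega) (d := d) (by rw [hd]; unfold w; ring) h8
    q l hq hcop hl6 hld χ hodd hmul hsum
  rw [← key]
  simp only [Finset.sum_range_succ, Finset.sum_range_zero (M := ZMod l), zero_add, P, R, S, c, w]
  have c0 : ((a * n - 2 : ℕ) : ZMod l) = (a : ZMod l) * n - 2 := by
    have := congrArg (Int.cast : ℤ → ZMod l) (cast_c0 a n ha hn)
    push_cast at this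
    exact this
  have c2 : ((n - 2 : ℕ) : ZMod l) = (n : ZMod l) - 2 := by
    have := congrArg (Int.cast : ℤ → ZMod l) (cast_c2 n hn)
    push_cast at this
    exact this
  rw [c0, c2]
  push_cast
  rfl

end E1

end Pool.Agent.Lib_helper5


end
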