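import Mathlib

/-! Parts: Lib_helper4.Ker, Lib_helper4.KerSpec, Lib_helper4.ProjLine, Lib_helper4.T6Sound, Lib_helper4.T6Sound2, Lib_helper4.T6Data, Lib_helper4.T6R_13_11_5_0, Lib_helper4.T6R_13_11_7_0, Lib_helper4.T6R_13_17_5_0, Lib_helper4.T6R_15_7_13_0, Lib_helper4.T6R_16_13_5_2, Lib_helper4.T6R_16_9_13_0, Lib_helper4.T6R_16_9_13_1, Lib_helper4.T6R_20_7_13_0, Lib_helper4.T6R_9_13_7_0, Lib_helper4.T6Hyp -/

namespace Pool.Agent.LibH4.Ker
end Pool.Agent.LibH4.Ker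

section

/-!
Kernel friendly functions for the elimination.
All digits are in base `2 ^ 16`, character tables in base `16`.
-/

namespace Pool.Agent.LibH4.Ker

/-- sum over a list -/
def sumL {α : Type} (f : α → ℕ) (L : List α) : ℕ :=
  @List.rec α (fun _ => ℕ) (nat_lit 0) (fun x _ ih => Nat.add (f x) ih) L

/-- sum over `0, …, n-1` -/
def sumR (f : ℕ → ℕ) (n : ℕ) : ℕ :=
  @Nat.rec (fun _ => ℕ) (nat_lit 0) (fun m ih => Nat.add (f m) ih) n

/-- packing of the values on a list in base `V` -/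
def packL {α : Type} (V : ℕ) (f : α → ℕ) (L : List α) : ℕ :=
  @List.rec α (fun _ => ℕ) (nat_lit 0) (fun x _ ih => Nat.add (f x) (Nat.mul V ih)) L

/-- packing of the values `f 0, …, f (n-1)` in base `2 ^ w` -/
def packR (w : ℕ) (f : ℕ → ℕ) (n : ℕ) : ℕ :=
  @Nat.rec (fun _ => ℕ) (nat_lit 0)
    (fun m ih => Nat.add (Nat.mul (f m) (Nat.pow (nat_lit 2) (Nat.mul w m))) ih) n

/-- universal quantification over a list -/
def allL {α : Type} (p : α → Bool) (L : List α) : Bool :=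
  @List.rec α (fun _ => Bool) true (fun x _ ih => @Bool.rec (fun _ => Bool) false ih (p x)) L

/-- universal quantification over `0, …, n-1` -/
def allR (p : ℕ → Bool) (n : ℕ) : Bool :=
  @Nat.rec (fun _ => Bool) true (fun m ih => @Bool.rec (fun _ => Bool) false ih (p m)) n

/-- universal quantification over a list, with index -/
def allI {α : Type} (p : ℕ → α → Bool) (L : List α) : ℕ → Bool :=
  @List.rec α (fun _ => ℕ → Bool) (fun _ => true)
    (fun x _ ih i => @Bool.rec (fun _ => Bool) false (ih (Nat.succ i)) (p i x)) L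

/-- forces the evaluation of a natural number -/
def strict {β : Type} (n : ℕ) (k : ℕ → β) : β :=
  @Nat.rec (fun _ => β) (k (nat_lit 0)) (fun m _ => k (Nat.succ m)) n

/-- forces the evaluation of a mapped list -/
def mapK {α β : Type} (f : α → ℕ) (L : List α) : (List (α × ℕ) → β) → β :=
  @List.rec α (fun _ => (List (α × ℕ) → β) → β) (fun k => k [])
    (fun x _ ih k => strict (f x) fun v => ih fun rest => k ((x, v) :: rest)) L

/-- character lookup -/
def ch (T x : ℕ) : ℕ := Nat.mod (Nat.shiftRight T (Nat.mul (nat_lit 4) x)) (nat_lit 16)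

/-- digit `i` in base `2 ^ w` -/
def dg (w X i : ℕ) : ℕ := Nat.mod (Nat.shiftRight X (Nat.mul w i)) (Nat.pow (nat_lit 2) w)

/-- the first quadratic form modulo `n` -/
def N1 (n B nm x y : ℕ) : ℕ :=
  Nat.mod (Nat.add (Nat.mul x (Nat.add x (Nat.mul B y))) (Nat.mul nm (Nat.mul y y))) n

/-- the second quadratic form modulo `n` -/
def N3 (n m k nm x y : ℕ) : ℕ :=
  Nat.mod (Nat.add (Nat.mul x (Nat.add (Nat.mul m x) (Nat.mul k y))) (Nat.mul nm (Nat.mul y y))) n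

/-- `B` modulo `n` -/
def fB (n a t : ℕ) : ℕ :=
  Nat.mod (Nat.add (Nat.mul (Nat.add (Nat.mul a a) (nat_lit 1)) t) a) n
/-- `m` modulo `n` -/
def fm (n a t : ℕ) : ℕ := Nat.mod (Nat.add (Nat.mul a t) (nat_lit 1)) n
/-- `-m` modulo `n` -/
def fnm (n m : ℕ) : ℕ := Nat.sub n m
/-- `2 m a - B` modulo `n` -/
def fk (n a m B : ℕ) : ℕ :=
  Nat.mod (Nat.add (Nat.mul (Nat.mul (nat_lit 2) m) a) (Nat.mul (Nat.sub n (nat_lit 1)) B)) n

/-- continuation with the coefficients of the class `(a, t)` modulo `n` -/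
def withC {β : Type} (n a t : ℕ) (k : ℕ → ℕ → ℕ → ℕ → β) : β :=
  strict (fB n a t) fun B => strict (fm n a t) fun m => strict (fnm n m) fun nm =>
    strict (fk n a m B) fun kk => k B m nm kk

/-- the linear weight modulo `l` -/
def bet (q l r : ℕ) : ℕ := @Nat.rec (fun _ => ℕ) (nat_lit 0)
  (fun _ _ => Nat.mod (Nat.add q (Nat.mul (Nat.sub l (nat_lit 2)) r)) l) r

/-- the quadratic weight modulo `l` -/
def gam (q l r : ℕ) : ℕ := Nat.mod (Nat.add (Nat.add (Nat.mul (nat_lit 6) (Nat.mul r r))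
  (Nat.mul (Nat.mul (nat_lit 6) (Nat.sub l (nat_lit 1))) (Nat.mul q r))) (Nat.mul q q)) l

/-- term of the weight sum at `lam`, with tables -/
def dterm (q CT BT GT X Y lam : ℕ) : ℕ :=
  @Nat.rec (fun _ => ℕ) (nat_lit 0) (fun c _ =>
    strict (Nat.mod (Nat.mul lam X) q) fun x => strict (Nat.mod (Nat.mul lam Y) q) fun y =>
      Nat.mul (Nat.succ c) (Nat.add (Nat.mul (ch BT x) (ch BT y))
        (Nat.add (Nat.mul (nat_lit 16777216) (ch GT y))
          (Nat.mul (nat_lit 281474976710656) (ch GT x))))) (ch CT lam)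

/-- the weights `D`, `E1`, `E2` modulo `l` in base `2 ^ 16` -/
def dfull (q l CT BT GT X Y : ℕ) : ℕ :=
  strict (sumR (dterm q CT BT GT X Y) q) fun s =>
    Nat.add (Nat.mod (Nat.mod s (nat_lit 16777216)) l)
      (Nat.add (Nat.mul (nat_lit 65536) (Nat.mod (dg (nat_lit 24) s (nat_lit 1)) l))
        (Nat.mul (nat_lit 4294967296) (Nat.mod (dg (nat_lit 24) s (nat_lit 2)) l)))

/-- the packed row of weights for the first representative `P` -/
def drow (q l e1 e2 CT BT GT : ℕ) (L2 : List (ℕ × ℕ)) (P : ℕ × ℕ) : ℕ :=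
  packL (nat_lit 281474976710656) (fun Q => strict (Nat.mod (Nat.add (Nat.mul P.1 e1) (Nat.mul Q.1 e2)) q) fun X =>
    strict (Nat.mod (Nat.add (Nat.mul P.2 e1) (Nat.mul Q.2 e2)) q) fun Y =>
      dfull q l CT BT GT X Y) L2

/-- packed column for the first form -/
def ycol1 (n T : ℕ) (D : List (ℕ × ℕ)) (Q : ℕ × ℕ) : ℕ :=
  packL (nat_lit 281474976710656) (fun c => withC n c.1 c.2 fun B _ nm _ =>
    ch T (N1 n B nm Q.1 Q.2)) D

/-- packed column for the second form -/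
def ycol3 (n T : ℕ) (D : List (ℕ × ℕ)) (Q : ℕ × ℕ) : ℕ :=
  packL (nat_lit 281474976710656) (fun c => withC n c.1 c.2 fun _ m nm k =>
    ch T (N3 n m k nm Q.1 Q.2)) D

/-- combination of the columns -/
def rowS (l : ℕ) (Ys : List (((ℕ × ℕ) × ℕ) × ℕ)) : ℕ → ℕ → ℕ :=
  @List.rec _ (fun _ => ℕ → ℕ → ℕ) (fun _ _ => (nat_lit 0)) (fun x _ ih U1 U3 =>
    strict (Nat.div U1 (nat_lit 281474976710656)) fun V1 =>
    strict (Nat.div U3 (nat_lit 281474976710656)) fun V3 =>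
    Nat.add (Nat.add
      (Nat.mul (Nat.add (Nat.mul (nat_lit 6) (Nat.mod (dg (nat_lit 16) U1 (nat_lit 0)) l))
        (Nat.add (Nat.mul (nat_lit 65536) (Nat.mod (dg (nat_lit 16) U1 (nat_lit 1)) l))
          (Nat.mul (nat_lit 4294967296) (Nat.mod (dg (nat_lit 16) U1 (nat_lit 2)) l)))) x.1.2)
      (Nat.mul (Nat.mul (nat_lit 3) (Nat.mod (dg (nat_lit 16) U3 (nat_lit 0)) l)) x.2))
      (ih V1 V3)) Ys

/-- the row of the class `c` -/
def row (n l T : ℕ) (DRs : List ((ℕ × ℕ) × ℕ)) (Ys : List (((ℕ × ℕ) × ℕ) × ℕ)) (c : ℕ × ℕ) : ℕ :=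
  withC n c.1 c.2 fun B m nm k =>
    strict (sumL (fun x => Nat.mul (ch T (N1 n B nm x.1.1 x.1.2)) x.2) DRs) fun U1 =>
    strict (sumL (fun x => Nat.mul (ch T (N3 n m k nm x.1.1 x.1.2)) x.2) DRs) fun U3 =>
      rowS l Ys U1 U3

/-- the table check -/
def check (n1 n2 q l e1 e2 T1 T2 J : ℕ) (L1 L2 D1 D2 : List (ℕ × ℕ)) (TB : ℕ) : Bool :=
  strict (packR (nat_lit 4) (fun x => strict (Nat.mul (ch T1 (Nat.mod x n1)) (ch T2 (Nat.mod x n2)))
    fun y => Nat.mod (Nat.mul y y) l) q) fun CT =>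
  strict (packR (nat_lit 4) (bet q l) q) fun BT =>
  strict (packR (nat_lit 4) (gam q l) q) fun GT =>
  mapK (drow q l e1 e2 CT BT GT L2) L1 fun DRs =>
  mapK (ycol1 n2 T2 D2) L2 fun Y1s =>
  mapK (fun x => ycol3 n2 T2 D2 x.1) Y1s fun Ys =>
  allI (fun i c => Nat.beq (dg (Nat.mul (nat_lit 48) J) TB i) (row n1 l T1 DRs Ys c)) D1 (nat_lit 0)

end Pool.Agent.LibH4.Ker


end

section

/-!
Specifications of the kernel friendly functions.
-/

namespace Pool.Agent.LibH4.Ker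

open Finset

lemma strict_eq {β : Type} (n : ℕ) (k : ℕ → β) : strict n k = k n := by
  cases n <;> rfl

lemma sumL_eq {α : Type} (f : α → ℕ) (L : List α) : sumL f L = (L.map f).sum := by
  induction L with
  | nil => rfl
  | cons x xs ih =>
    rw [List.map_cons, List.sum_cons, ← ih]
    rfl

lemma sumR_eq (f : ℕ → ℕ) (n : ℕ) : sumR f n = ∑ m ∈ range n, f m := by
  induction n with
  | zero => rfl
  | succ n ih =>
    have h : sumR f (n + 1) = f n + sumR f n := rfl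
    rw [sum_range_succ, ← ih, h, add_comm]

lemma allL_spec {α : Type} {p : α → Bool} {L : List α} (h : allL p L = true) :
    ∀ x ∈ L, p x = true := by
  induction L with
  | nil => intro x hx; simp at hx
  | cons y ys ih =>
    have h' : @Bool.rec (fun _ => Bool) false (allL p ys) (p y) = true := h
    cases hy : p y with
    | false => rw [hy] at h'; simp at h'
    | true =>
      rw [hy] at h'
      intro x hx
      rcases List.mem_cons.mp hx with rfl | hx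
      · exact hy
      · exact ih h' x hx

lemma allR_spec {p : ℕ → Bool} {n : ℕ} (h : allR p n = true) : ∀ m < n, p m = true := by
  induction n with
  | zero => intro m hm; omega
  | succ n ih =>
    have h' : @Bool.rec (fun _ => Bool) false (allR p n) (p n) = true := h
    cases hy : p n with
    | false => rw [hy] at h'; simp at h'
    | true =>
      rw [hy] at h'
      intro m hm
      rcases Nat.lt_succ_iff_lt_or_eq.mp hm with hm | rfl
      · exact ih h' m hm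
      · exact hy

lemma allI_spec {α : Type} {p : ℕ → α → Bool} {L : List α} {i : ℕ} (h : allI p L i = true) :
    ∀ j (hj : j < L.length), p (i + j) L[j] = true := by
  induction L generalizing i with
  | nil => intro j hj; simp at hj
  | cons y ys ih =>
    have h' : @Bool.rec (fun _ => Bool) false (allI p ys (Nat.succ i)) (p i y) = true := h
    cases hy : p i y with
    | false => rw [hy] at h'; simp at h'
    | true =>
      rw [hy] at h'
      intro j hj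
      cases j with
      | zero => simpa using hy
      | succ j =>
        have := ih h' j (by simpa using hj)
        simp only [List.getElem_cons_succ]
        rw [show i + (j + 1) = Nat.succ i + j by omega]
        exact this

lemma mapK_eq {α β : Type} (f : α → ℕ) (L : List α) (k : List (α × ℕ) → β) :
    mapK f L k = k (L.map fun x => (x, f x)) := by
  induction L generalizing k with
  | nil => rfl
  | cons x xs ih =>
    have : mapK f (x :: xs) k = strict (f x) fun v => mapK f xs fun rest => k ((x, v) :: rest) := rfl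
    rw [this, strict_eq, ih]
    rfl

lemma packL_cons {α : Type} (V : ℕ) (f : α → ℕ) (x : α) (xs : List α) :
    packL V f (x :: xs) = f x + V * packL V f xs := rfl

lemma packL_nil {α : Type} (V : ℕ) (f : α → ℕ) : packL V f [] = 0 := rfl

lemma packL_digit {α : Type} {V : ℕ} {f : α → ℕ} {L : List α} (h : ∀ x ∈ L, f x < V) :
    ∀ j (hj : j < L.length), packL V f L / V ^ j % V = f L[j] := by
  induction L with
  | nil => intro j hj; simp at hj
  | cons x xs ih =>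
    intro j hj
    have hx : f x < V := h x (by simp)
    have hV : 0 < V := by omega
    rw [packL_cons]
    cases j with
    | zero =>
      simp only [pow_zero, Nat.div_one, List.getElem_cons_zero]
      rw [Nat.add_mul_mod_self_left, Nat.mod_eq_of_lt hx]
    | succ j =>
      rw [pow_succ', ← Nat.div_div_eq_div_mul, Nat.add_mul_div_left _ _ hV,
        Nat.div_eq_of_lt hx, zero_add, List.getElem_cons_succ]
      exact ih (fun y hy => h y (by simp [hy])) j (by simpa using hj)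

lemma packL_add {α : Type} (V : ℕ) (f g : α → ℕ) (L : List α) :
    packL V (fun x => f x + g x) L = packL V f L + packL V g L := by
  induction L with
  | nil => rfl
  | cons x xs ih => rw [packL_cons, packL_cons, packL_cons, ih]; ring

lemma packL_mul {α : Type} (V c : ℕ) (f : α → ℕ) (L : List α) :
    packL V (fun x => c * f x) L = c * packL V f L := by
  induction L with
  | nil => rfl
  | cons x xs ih => rw [packL_cons, packL_cons, ih]; ring

lemma packL_zero {α : Type} (V : ℕ) (L : List α) : packL V (fun _ => 0) L = 0 := by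
  induction L with
  | nil => rfl
  | cons x xs ih => rw [packL_cons, ih]; ring

lemma packL_sum {α β : Type} (V : ℕ) (s : β → ℕ) (f : β → α → ℕ) (M : List β) (L : List α) :
    (M.map fun k => s k * packL V (f k) L).sum =
      packL V (fun x => (M.map fun k => s k * f k x).sum) L := by
  induction M with
  | nil => simp [packL_zero]
  | cons k ks ih =>
    simp only [List.map_cons, List.sum_cons]
    rw [ih, packL_add, packL_mul]

lemma packL_congr {α : Type} (V : ℕ) {f g : α → ℕ} {L : List α} (h : ∀ x ∈ L, f x = g x) :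
    packL V f L = packL V g L := by
  induction L with
  | nil => rfl
  | cons x xs ih =>
    rw [packL_cons, packL_cons, h x (by simp), ih (fun y hy => h y (by simp [hy]))]

lemma packR_succ (w : ℕ) (f : ℕ → ℕ) (n : ℕ) :
    packR w f (n + 1) = f n * 2 ^ (w * n) + packR w f n := rfl

lemma packR_lt {w : ℕ} {f : ℕ → ℕ} (h : ∀ m, f m < 2 ^ w) (n : ℕ) :
    packR w f n < 2 ^ (w * n) := by
  induction n with
  | zero => simp [packR]
  | succ n ih =>
    rw [packR_succ]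
    have h1 : f n + 1 ≤ 2 ^ w := h n
    calc f n * 2 ^ (w * n) + packR w f n < f n * 2 ^ (w * n) + 2 ^ (w * n) := by omega
      _ = (f n + 1) * 2 ^ (w * n) := by ring
      _ ≤ 2 ^ w * 2 ^ (w * n) := Nat.mul_le_mul_right _ h1
      _ = 2 ^ (w * (n + 1)) := by rw [← pow_add]; congr 1; ring

lemma packR_digit {w : ℕ} {f : ℕ → ℕ} (h : ∀ m, f m < 2 ^ w) {n : ℕ} :
    ∀ m < n, packR w f n / 2 ^ (w * m) % 2 ^ w = f m := by
  induction n with
  | zero => intro m hm; omega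
  | succ n ih =>
    intro m hm
    rw [packR_succ]
    rcases Nat.lt_succ_iff_lt_or_eq.mp hm with hm | rfl
    · rw [← ih m hm]
      have e : f n * 2 ^ (w * n) = (f n * 2 ^ (w * (n - m - 1)) * 2 ^ w) * 2 ^ (w * m) := by
        rw [mul_assoc, mul_assoc, ← pow_add, ← pow_add]
        congr 2
        have : n = (n - m - 1) + 1 + m := by omega
        conv_lhs => rw [this]
        ring
      rw [e, add_comm, Nat.add_mul_div_right _ _ (by positivity), Nat.add_mul_mod_self_right]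
    · rw [add_comm, Nat.add_mul_div_right _ _ (by positivity), Nat.div_eq_of_lt (packR_lt h _),
        zero_add, Nat.mod_eq_of_lt (h _)]

lemma dg_eq (w X i : ℕ) : dg w X i = X / 2 ^ (w * i) % 2 ^ w := by
  unfold dg
  change (X >>> (w * i)) % (2 ^ w) = _
  rw [Nat.shiftRight_eq_div_pow]

lemma ch_eq (T x : ℕ) : ch T x = T / 2 ^ (4 * x) % 2 ^ 4 := by
  unfold ch
  change (T >>> (4 * x)) % 16 = _
  rw [Nat.shiftRight_eq_div_pow]
  norm_num

lemma ch_lt (T x : ℕ) : ch T x < 16 := by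
  rw [ch_eq]; exact Nat.mod_lt _ (by norm_num)

lemma ch_packR {f : ℕ → ℕ} (h : ∀ m, f m < 16) {n m : ℕ} (hm : m < n) :
    ch (packR (nat_lit 4) f n) m = f m := by
  rw [ch_eq]
  exact packR_digit (w := 4) (by simpa using h) m hm

end Pool.Agent.LibH4.Ker


end

section

/-!
Sums over pairs of residues modulo `n` of functions vanishing on non primitive pairs,
organised by the projective line over `ZMod n`.
-/

namespace Pool.Agent.LibH4

open Finset

/-- `L` is a list of representatives of the projective line over `ZMod n` -/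
def IsP1 (n : ℕ) [NeZero n] (L : List (ℕ × ℕ)) : Prop :=
  ∀ (K : Type) [CommRing K] (F : ZMod n → ZMod n → K), (∀ x y, ¬ IsCoprime x y → F x y = 0) →
    ∑ x, ∑ y, F x y =
      (L.map fun P => ∑ u : (ZMod n)ˣ, F (u * (P.1 : ZMod n)) (u * (P.2 : ZMod n))).sum

/-- the standard list for a prime power -/
def p1List (p n : ℕ) : List (ℕ × ℕ) :=
  (List.range n).map (fun y => (1, y)) ++ (List.range (n / p)).map (fun j => (p * j, 1))

lemma sum_units_eq {R K : Type} [CommRing R] [Fintype R] [DecidableEq R] [AddCommMonoid K]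
    (g : R → K) (h : ∀ x, ¬ IsUnit x → g x = 0) : ∑ u : Rˣ, g u = ∑ x, g x := by
  apply Fintype.sum_of_injective (fun u : Rˣ => (u : R)) Units.val_injective
  · intro x hx
    apply h
    rintro ⟨u, rfl⟩
    exact hx ⟨u, rfl⟩
  · intro u; rfl

lemma sum_range_cast {n : ℕ} [NeZero n] {K : Type} [AddCommMonoid K] (g : ZMod n → K) :
    ∑ x : ZMod n, g x = ((List.range n).map (fun y : ℕ => g (y : ZMod n))).sum := by
  rw [← List.sum_toFinset _ List.nodup_range, List.toFinset_range]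
  symm
  refine Finset.sum_nbij' (fun r : ℕ => (r : ZMod n)) (fun z => z.val) ?_ ?_ ?_ ?_ ?_
  · intro r _; exact mem_univ _
  · intro z _; exact mem_range.mpr (ZMod.val_lt z)
  · intro r hr; exact ZMod.val_cast_of_lt (mem_range.mp hr)
  · intro z _; exact ZMod.natCast_zmod_val z
  · intro r _; rfl

lemma sum_list_comm {ι α K : Type} [AddCommMonoid K] (s : Finset ι) (L : List α) (f : ι → α → K) :
    ∑ u ∈ s, (L.map (f u)).sum = (L.map fun x => ∑ u ∈ s, f u x).sum := by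
  induction L with
  | nil => simp
  | cons x xs ih => simp [Finset.sum_add_distrib, ih]

lemma isP1_prime_pow {p k : ℕ} (hp : p.Prime) (hk : 0 < k) [NeZero (p ^ k)] :
    IsP1 (p ^ k) (p1List p (p ^ k)) := by
  intro K _ F hF
  classical
  have hunit : ∀ x : ZMod (p ^ k), IsUnit x ↔ ¬ p ∣ x.val := by
    intro x
    conv_lhs => rw [← ZMod.natCast_zmod_val x]
    exact ZMod.isUnit_natCast_iff_not_dvd_pow hp hk
  have hnc : ∀ x y : ZMod (p ^ k), ¬ IsUnit x → ¬ IsUnit y → ¬ IsCoprime x y := by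
    rintro x y hx hy ⟨a, b, hab⟩
    rw [hunit, not_not] at hx hy
    obtain ⟨x', hx'⟩ := hx
    obtain ⟨y', hy'⟩ := hy
    have ex : x = (p : ZMod (p ^ k)) * x' := by
      rw [← ZMod.natCast_zmod_val x, hx']; push_cast; ring
    have ey : y = (p : ZMod (p ^ k)) * y' := by
      rw [← ZMod.natCast_zmod_val y, hy']; push_cast; ring
    apply ZMod.prime_natCast_not_isUnit_pow hp hk
    apply IsUnit.of_mul_eq_one (a * x' + b * y')
    rw [← hab, ex, ey]; ring
  -- split the sum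
  have h1 : ∑ x : ZMod (p ^ k), ∑ y, F x y =
      ∑ x : ZMod (p ^ k), (if IsUnit x then ∑ y, F x y else 0) +
      ∑ x : ZMod (p ^ k), (if IsUnit x then 0 else ∑ y, F x y) := by
    rw [← Finset.sum_add_distrib]
    apply Finset.sum_congr rfl
    intro x _
    split_ifs <;> simp
  have h2 : ∑ x : ZMod (p ^ k), (if IsUnit x then ∑ y, F x y else 0) =
      ∑ u : (ZMod (p ^ k))ˣ, ∑ y, F u (u * y) := by
    rw [← sum_units_eq]
    · apply Finset.sum_congr rfl
      intro u _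
      rw [if_pos u.isUnit]
      exact (Equiv.sum_comp (Units.mulLeft u) (fun y => F u y)).symm
    · intro x hx
      rw [if_neg hx]
  have h3 : ∑ x : ZMod (p ^ k), (if IsUnit x then 0 else ∑ y, F x y) =
      ∑ u : (ZMod (p ^ k))ˣ, ∑ x : ZMod (p ^ k), (if IsUnit x then 0 else F (u * x) u) := by
    have : ∀ x : ZMod (p ^ k), (if IsUnit x then 0 else ∑ y, F x y) =
        ∑ u : (ZMod (p ^ k))ˣ, (if IsUnit x then 0 else F x u) := by
      intro x
      split_ifs with hx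
      · simp
      · rw [sum_units_eq (fun y => F x y)]
        intro y hy
        exact hF x y (hnc x y hx hy)
    rw [Finset.sum_congr rfl (fun x _ => this x), Finset.sum_comm]
    apply Finset.sum_congr rfl
    intro u _
    rw [← Equiv.sum_comp (Units.mulLeft u)]
    apply Finset.sum_congr rfl
    intro x _
    have : IsUnit ((Units.mulLeft u) x) ↔ IsUnit x := by
      simp
    simp only [this]
    rfl
  -- the list
  have h4 : ∀ u : (ZMod (p ^ k))ˣ, ∑ y : ZMod (p ^ k), F u (u * y) =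
      ((List.range (p ^ k)).map (fun y : ℕ => F (u * ((1 : ℕ) : ZMod (p ^ k))) (u * (y : ZMod (p ^ k))))).sum := by
    intro u
    rw [sum_range_cast]
    simp
  have hpk : p * (p ^ k / p) = p ^ k := Nat.mul_div_cancel' (dvd_pow_self p hk.ne')
  have h5 : ∀ u : (ZMod (p ^ k))ˣ, ∑ x : ZMod (p ^ k), (if IsUnit x then 0 else F (u * x) u) =
      ((List.range (p ^ k / p)).map (fun j : ℕ => F (u * ((p * j : ℕ) : ZMod (p ^ k)))
        (u * ((1 : ℕ) : ZMod (p ^ k))))).sum := by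
    intro u
    have e1 : ((List.range (p ^ k / p)).map (fun j : ℕ => F (u * ((p * j : ℕ) : ZMod (p ^ k)))
        (u * ((1 : ℕ) : ZMod (p ^ k))))).sum =
        ∑ j ∈ range (p ^ k / p), F (u * ((p * j : ℕ) : ZMod (p ^ k))) u := by
      rw [← List.toFinset_range, List.sum_toFinset _ List.nodup_range]
      simp
    rw [e1]
    symm
    apply Finset.sum_of_injOn (fun j : ℕ => ((p * j : ℕ) : ZMod (p ^ k)))
    · intro i hi j hj hij
      rw [mem_coe, mem_range] at hi hj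
      have hi' : p * i < p ^ k := by
        calc p * i < p * (p ^ k / p) := Nat.mul_lt_mul_of_pos_left hi hp.pos
          _ = p ^ k := hpk
      have hj' : p * j < p ^ k := by
        calc p * j < p * (p ^ k / p) := Nat.mul_lt_mul_of_pos_left hj hp.pos
          _ = p ^ k := hpk
      have := congrArg ZMod.val hij
      simp only at this
      rw [ZMod.val_cast_of_lt hi', ZMod.val_cast_of_lt hj'] at this
      exact Nat.eq_of_mul_eq_mul_left hp.pos this
    · intro j _; exact Finset.mem_coe.mpr (mem_univ _)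
    · intro x _ hx
      rw [if_pos]
      by_contra hnu
      apply hx
      rw [hunit, not_not] at hnu
      obtain ⟨j, hj⟩ := hnu
      refine ⟨j, ?_, ?_⟩
      · rw [mem_coe, mem_range]
        have := ZMod.val_lt x
        rw [hj] at this
        rw [← hpk] at this
        exact Nat.lt_of_mul_lt_mul_left this
      · simp only
        rw [← hj, ZMod.natCast_zmod_val]
    · intro j _
      rw [if_neg]
      rw [ZMod.isUnit_natCast_iff_not_dvd_pow hp hk, not_not]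
      exact dvd_mul_right p j
  rw [h1, h2, h3, Finset.sum_congr rfl (fun u _ => h4 u), Finset.sum_congr rfl (fun u _ => h5 u)]
  unfold p1List
  rw [List.map_append, List.sum_append, List.map_map, List.map_map]
  congr 1
  · rw [sum_list_comm]
    rfl
  · rw [sum_list_comm]
    rfl

lemma list_sum_flatMap {α β K : Type} [AddCommMonoid K] (L : List α) (f : α → List β) (g : β → K) :
    ((L.flatMap f).map g).sum = (L.map fun x => ((f x).map g).sum).sum := by
  induction L with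
  | nil => simp
  | cons x xs ih => simp [List.flatMap_cons, ih]

/-- the product of two lists of representatives, by the Chinese remainder theorem with
idempotents `e1`, `e2` -/
def crtList (e1 e2 : ℕ) (L1 L2 : List (ℕ × ℕ)) : List (ℕ × ℕ) :=
  L1.flatMap fun P => L2.map fun Q => (P.1 * e1 + Q.1 * e2, P.2 * e1 + Q.2 * e2)

lemma isP1_mul {n1 n2 : ℕ} [NeZero n1] [NeZero n2] [NeZero (n1 * n2)] (hco : n1.Coprime n2)
    {e1 e2 : ℕ} (h11 : (e1 : ZMod n1) = 1) (h12 : (e1 : ZMod n2) = 0)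
    (h21 : (e2 : ZMod n1) = 0) (h22 : (e2 : ZMod n2) = 1) {L1 L2 : List (ℕ × ℕ)}
    (H1 : IsP1 n1 L1) (H2 : IsP1 n2 L2) : IsP1 (n1 * n2) (crtList e1 e2 L1 L2) := by
  intro K _ F hF
  set e := ZMod.chineseRemainder hco with he
  have hfst : ∀ x : ℕ, (e x).1 = (x : ZMod n1) := by intro x; simp [he]
  have hsnd : ∀ x : ℕ, (e x).2 = (x : ZMod n2) := by intro x; simp [he]
  -- expand
  have hexp : ∀ g : ZMod (n1 * n2) → K, ∑ x, g x = ∑ x1 : ZMod n1, ∑ x2 : ZMod n2,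
      g (e.symm (x1, x2)) := by
    intro g
    rw [← Fintype.sum_prod_type' (fun x1 x2 => g (e.symm (x1, x2)))]
    exact (Equiv.sum_comp e.symm.toEquiv g).symm
  have h1 : ∑ x, ∑ y, F x y = ∑ x1 : ZMod n1, ∑ y1 : ZMod n1, ∑ x2 : ZMod n2, ∑ y2 : ZMod n2,
      F (e.symm (x1, x2)) (e.symm (y1, y2)) := by
    rw [hexp]
    apply Finset.sum_congr rfl
    intro x1 _
    rw [Finset.sum_congr rfl (fun x2 _ => hexp (fun y => F (e.symm (x1, x2)) y)), Finset.sum_comm]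
  have hcop : ∀ x1 y1 x2 y2, IsCoprime (e.symm (x1, x2)) (e.symm (y1, y2)) →
      IsCoprime x1 y1 ∧ IsCoprime x2 y2 := by
    rintro x1 y1 x2 y2 ⟨a, b, hab⟩
    have hab' := congrArg e hab
    rw [map_add, map_mul, map_mul, map_one, RingEquiv.apply_symm_apply,
      RingEquiv.apply_symm_apply] at hab'
    exact ⟨⟨(e a).1, (e b).1, congrArg Prod.fst hab'⟩, ⟨(e a).2, (e b).2, congrArg Prod.snd hab'⟩⟩
  rw [h1, H1 K (fun x1 y1 => ∑ x2 : ZMod n2, ∑ y2 : ZMod n2, F (e.symm (x1, x2)) (e.symm (y1, y2)))]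
  swap
  · intro x1 y1 hnc
    apply Finset.sum_eq_zero
    intro x2 _
    apply Finset.sum_eq_zero
    intro y2 _
    apply hF
    intro hc
    exact hnc (hcop _ _ _ _ hc).1
  have h2 : ∀ x1 y1 : ZMod n1, ∑ x2 : ZMod n2, ∑ y2 : ZMod n2, F (e.symm (x1, x2)) (e.symm (y1, y2)) =
      (L2.map fun Q => ∑ u : (ZMod n2)ˣ, F (e.symm (x1, u * (Q.1 : ZMod n2)))
        (e.symm (y1, u * (Q.2 : ZMod n2)))).sum := by
    intro x1 y1
    apply H2
    intro x2 y2 hnc
    apply hF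
    intro hc
    exact hnc (hcop _ _ _ _ hc).2
  simp only [h2]
  unfold crtList
  rw [list_sum_flatMap]
  congr 1
  apply List.map_congr_left
  intro P _
  rw [sum_list_comm, List.map_map]
  congr 1
  apply List.map_congr_left
  intro Q _
  simp only [Function.comp]
  -- units
  let eu : (ZMod (n1 * n2))ˣ ≃ (ZMod n1)ˣ × (ZMod n2)ˣ :=
    ((Units.mapEquiv e.toMulEquiv).trans MulEquiv.prodUnits).toEquiv
  rw [← Fintype.sum_prod_type' (fun (u1 : (ZMod n1)ˣ) (u2 : (ZMod n2)ˣ) =>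
    F (e.symm ((u1 : ZMod n1) * (P.1 : ZMod n1), (u2 : ZMod n2) * (Q.1 : ZMod n2)))
      (e.symm ((u1 : ZMod n1) * (P.2 : ZMod n1), (u2 : ZMod n2) * (Q.2 : ZMod n2)))),
    ← Equiv.sum_comp eu]
  apply Finset.sum_congr rfl
  intro u _
  have eu1 : ((eu u).1 : ZMod n1) = (e (u : ZMod (n1 * n2))).1 := rfl
  have eu2 : ((eu u).2 : ZMod n2) = (e (u : ZMod (n1 * n2))).2 := rfl
  have key : ∀ x y : ℕ, e.symm (((eu u).1 : ZMod n1) * (x : ZMod n1), ((eu u).2 : ZMod n2) *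
      (y : ZMod n2)) = (u : ZMod (n1 * n2)) * ((x * e1 + y * e2 : ℕ) : ZMod (n1 * n2)) := by
    intro x y
    rw [RingEquiv.symm_apply_eq, map_mul]
    ext
    · rw [Prod.fst_mul, hfst, eu1]
      push_cast
      rw [h11, h21]
      simp
    · rw [Prod.snd_mul, hsnd, eu2]
      push_cast
      rw [h12, h22]
      simp
  rw [key, key]

end Pool.Agent.LibH4


end

section

/-!
Soundness of the table computations.
-/

namespace Pool.Agent.LibH4.T6

open Finset Ker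

/-- the linear weight -/
def bI (q l r : ℕ) : ZMod l := if r = 0 then 0 else (q : ZMod l) - 2 * (r : ZMod l)

/-- the quadratic weight -/
def b2I (q l s : ℕ) : ZMod l := 6 * (s : ZMod l) ^ 2 - 6 * (s : ZMod l) * q + (q : ZMod l) ^ 2

/-- the relation coming from the analytic part -/
def T5Eq (a t q l : ℕ) (chi : ZMod q → ZMod l) : Prop :=
  ∑ r ∈ range q, ∑ s ∈ range q,
    chi ((((r : ℤ) ^ 2 + ((((a ^ 2 + 1) * t + a : ℕ)) : ℤ) * r * s
      - ((1 + a * t : ℕ) : ℤ) * (s : ℤ) ^ 2 : ℤ)) : ZMod q) *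
      (6 * bI q l r * bI q l s + (((a ^ 2 + 1) * t + a : ℕ) : ZMod l) * b2I q l s) +
  ∑ r ∈ range q, ∑ s ∈ range q,
    chi (((((1 + a * t : ℕ) : ℤ) * (r : ℤ) ^ 2 + (2 * ((1 + a * t : ℕ) : ℤ) * a -
      ((((a ^ 2 + 1) * t + a : ℕ)) : ℤ)) * r * s - ((1 + a * t : ℕ) : ℤ) * (s : ℤ) ^ 2 : ℤ)) : ZMod q) *
      (3 * bI q l r * bI q l s) -
  ∑ r ∈ range q, ∑ s ∈ range q,
    chi (((-((1 + a * t : ℕ) : ℤ) * (r : ℤ) ^ 2 + ((((a ^ 2 + 1) * t + a : ℕ)) : ℤ) * r * s
      + (s : ℤ) ^ 2 : ℤ)) : ZMod q) * (2 * (a : ZMod l) * b2I q l s) = 0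

section FormSum

variable {q : ℕ} [NeZero q] {K : Type} [CommRing K]

lemma sum_range_zmod2 (g : ℕ → ℕ → K) :
    ∑ r ∈ range q, ∑ s ∈ range q, g r s = ∑ x : ZMod q, ∑ y : ZMod q, g x.val y.val := by
  have h1 : ∀ g : ℕ → K, ∑ r ∈ range q, g r = ∑ x : ZMod q, g x.val := by
    intro g
    refine Finset.sum_nbij' (fun r => (r : ZMod q)) (fun z => z.val) ?_ ?_ ?_ ?_ ?_
    · intro r _; exact mem_univ _
    · intro z _; exact mem_range.mpr (ZMod.val_lt z)
    · intro r hr; exact ZMod.val_cast_of_lt (mem_range.mp hr)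
    · intro z _; exact ZMod.natCast_zmod_val z
    · intro r hr; simp only [ZMod.val_cast_of_lt (mem_range.mp hr)]
  rw [h1]
  apply Finset.sum_congr rfl
  intro x _
  exact h1 _

lemma form_sum {L : List (ℕ × ℕ)} (hL : IsP1 q L) (chi : ZMod q → K)
    (hmul : ∀ x y, chi (x * y) = chi x * chi y) (hnu : ∀ x, ¬ IsUnit x → chi x = 0)
    (p k r : ZMod q) (w : ZMod q → ZMod q → K) :
    ∑ x, ∑ y, chi (p * x ^ 2 + k * x * y + r * y ^ 2) * w x y =
      (L.map fun P => chi (p * (P.1 : ZMod q) ^ 2 + k * (P.1 : ZMod q) * (P.2 : ZMod q)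
        + r * (P.2 : ZMod q) ^ 2) *
        ∑ z, chi z ^ 2 * w (z * (P.1 : ZMod q)) (z * (P.2 : ZMod q))).sum := by
  classical
  rw [hL K (fun x y => chi (p * x ^ 2 + k * x * y + r * y ^ 2) * w x y)]
  · congr 1
    apply List.map_congr_left
    intro P _
    have : ∀ u : (ZMod q)ˣ, chi (p * ((u : ZMod q) * (P.1 : ZMod q)) ^ 2 +
        k * ((u : ZMod q) * (P.1 : ZMod q)) * ((u : ZMod q) * (P.2 : ZMod q)) +
        r * ((u : ZMod q) * (P.2 : ZMod q)) ^ 2) *
        w ((u : ZMod q) * (P.1 : ZMod q)) ((u : ZMod q) * (P.2 : ZMod q)) =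
        chi (p * (P.1 : ZMod q) ^ 2 + k * (P.1 : ZMod q) * (P.2 : ZMod q)
        + r * (P.2 : ZMod q) ^ 2) * (chi (u : ZMod q) ^ 2 *
          w ((u : ZMod q) * (P.1 : ZMod q)) ((u : ZMod q) * (P.2 : ZMod q))) := by
      intro u
      have e : p * ((u : ZMod q) * (P.1 : ZMod q)) ^ 2 +
        k * ((u : ZMod q) * (P.1 : ZMod q)) * ((u : ZMod q) * (P.2 : ZMod q)) +
        r * ((u : ZMod q) * (P.2 : ZMod q)) ^ 2 = (u : ZMod q) * ((u : ZMod q) *
        (p * (P.1 : ZMod q) ^ 2 + k * (P.1 : ZMod q) * (P.2 : ZMod q)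
        + r * (P.2 : ZMod q) ^ 2)) := by ring
      rw [e, hmul, hmul]
      ring
    rw [Finset.sum_congr rfl (fun u _ => this u), ← Finset.mul_sum]
    congr 1
    apply sum_units_eq (fun z => chi z ^ 2 * w (z * (P.1 : ZMod q)) (z * (P.2 : ZMod q)))
    intro x hx
    rw [hnu x hx]
    ring
  · intro x y hnc
    rw [hnu, zero_mul]
    intro hu
    apply hnc
    obtain ⟨v, hv⟩ := hu
    refine ⟨((v⁻¹ : (ZMod q)ˣ) : ZMod q) * (p * x + k * y), ((v⁻¹ : (ZMod q)ˣ) : ZMod q) * (r * y), ?_⟩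
    have : ((v⁻¹ : (ZMod q)ˣ) : ZMod q) * (p * x ^ 2 + k * x * y + r * y ^ 2) = 1 := by
      rw [← hv]; simp
    linear_combination this

end FormSum

/-! ### the character -/

/-- the product character -/
def chiF (n1 n2 l T1 T2 : ℕ) (x : ZMod (n1 * n2)) : ZMod l :=
  (ch T1 (x.val % n1) : ZMod l) * (ch T2 (x.val % n2) : ZMod l)

/-- the hypotheses on the data, all of them checked by the kernel -/
structure Hyp (n1 n2 l e1 e2 T1 T2 : ℕ) (L1 L2 : List (ℕ × ℕ)) [NeZero n1] [NeZero n2]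
    [NeZero (n1 * n2)] : Prop where
  co : n1.Coprime n2
  h11 : (e1 : ZMod n1) = 1
  h12 : (e1 : ZMod n2) = 0
  h21 : (e2 : ZMod n1) = 0
  h22 : (e2 : ZMod n2) = 1
  mul1 : ∀ u < n1, ∀ v < n1, (ch T1 (u * v % n1) : ZMod l) = ch T1 u * ch T1 v
  mul2 : ∀ u < n2, ∀ v < n2, (ch T2 (u * v % n2) : ZMod l) = ch T2 u * ch T2 v
  nu1 : ∀ u < n1, ¬ u.Coprime n1 → ch T1 u = 0
  nu2 : ∀ u < n2, ¬ u.Coprime n2 → ch T2 u = 0
  odd : (ch T1 (n1 - 1) : ZMod l) * (ch T2 (n2 - 1) : ZMod l) = -1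
  bern : ∑ u ∈ range (n1 * n2), (u : ZMod l) * ((ch T1 (u % n1) : ZMod l) * (ch T2 (u % n2) : ZMod l)) = 0
  p1 : IsP1 n1 L1
  p2 : IsP1 n2 L2
  len1 : L1.length ≤ 100
  len2 : L2.length ≤ 32
  l3 : 3 ≤ l
  l16 : l ≤ 16
  qle : n1 * n2 ≤ 1000

section Char

variable {n1 n2 l e1 e2 T1 T2 : ℕ} {L1 L2 : List (ℕ × ℕ)} [NeZero n1] [NeZero n2]
    [NeZero (n1 * n2)] (H : Hyp n1 n2 l e1 e2 T1 T2 L1 L2)

omit [NeZero n1] [NeZero n2] [NeZero (n1 * n2)] in
lemma chiF_natCast (N : ℕ) : chiF n1 n2 l T1 T2 (N : ZMod (n1 * n2)) =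
    (ch T1 (N % n1) : ZMod l) * (ch T2 (N % n2) : ZMod l) := by
  unfold chiF
  rw [ZMod.val_natCast, Nat.mod_mod_of_dvd _ (dvd_mul_right n1 n2),
    Nat.mod_mod_of_dvd _ (dvd_mul_left n2 n1)]

include H

lemma chiF_mul (x y : ZMod (n1 * n2)) : chiF n1 n2 l T1 T2 (x * y) =
    chiF n1 n2 l T1 T2 x * chiF n1 n2 l T1 T2 y := by
  conv_lhs => rw [← ZMod.natCast_zmod_val x, ← ZMod.natCast_zmod_val y, ← Nat.cast_mul, chiF_natCast]
  unfold chiF
  have p1 : 0 < n1 := Nat.pos_of_ne_zero (NeZero.ne n1)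
  have p2 : 0 < n2 := Nat.pos_of_ne_zero (NeZero.ne n2)
  rw [Nat.mul_mod, H.mul1 _ (Nat.mod_lt _ p1) _ (Nat.mod_lt _ p1), Nat.mul_mod x.val y.val n2,
    H.mul2 _ (Nat.mod_lt _ p2) _ (Nat.mod_lt _ p2)]
  ring

lemma chiF_neg (x : ZMod (n1 * n2)) : chiF n1 n2 l T1 T2 (-x) = - chiF n1 n2 l T1 T2 x := by
  have h1 : -x = ((n1 * n2 - 1 : ℕ) : ZMod (n1 * n2)) * x := by
    have hpos : 1 ≤ n1 * n2 := Nat.pos_of_ne_zero (NeZero.ne (n1 * n2))
    have : ((n1 * n2 - 1 : ℕ) : ZMod (n1 * n2)) = -1 := by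
      rw [Nat.cast_sub hpos]
      simp
    rw [this]; ring
  have p1 : 1 ≤ n1 := Nat.pos_of_ne_zero (NeZero.ne n1)
  have p2 : 1 ≤ n2 := Nat.pos_of_ne_zero (NeZero.ne n2)
  have e1' : (n1 * n2 - 1) % n1 = n1 - 1 := by
    have : n1 * n2 - 1 = (n1 - 1) + n1 * (n2 - 1) := by
      obtain ⟨k, rfl⟩ := Nat.exists_eq_add_of_le p2
      rw [Nat.add_sub_cancel_left, mul_add, mul_one]
      omega
    rw [this, Nat.add_mul_mod_self_left, Nat.mod_eq_of_lt (by omega)]
  have e2' : (n1 * n2 - 1) % n2 = n2 - 1 := by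
    have : n1 * n2 - 1 = (n2 - 1) + n2 * (n1 - 1) := by
      obtain ⟨k, rfl⟩ := Nat.exists_eq_add_of_le p1
      rw [Nat.add_sub_cancel_left, add_mul, one_mul, mul_comm k n2]
      omega
    rw [this, Nat.add_mul_mod_self_left, Nat.mod_eq_of_lt (by omega)]
  rw [h1, chiF_mul H, chiF_natCast, e1', e2', H.odd]
  ring

lemma chiF_nu (x : ZMod (n1 * n2)) (hx : ¬ IsUnit x) : chiF n1 n2 l T1 T2 x = 0 := by
  have p1 : 0 < n1 := Nat.pos_of_ne_zero (NeZero.ne n1)
  have p2 : 0 < n2 := Nat.pos_of_ne_zero (NeZero.ne n2)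
  rw [← ZMod.natCast_zmod_val x, ZMod.isUnit_iff_coprime, Nat.coprime_mul_iff_right] at hx
  unfold chiF
  by_cases h : x.val.Coprime n1
  · have h2 : ¬ x.val.Coprime n2 := fun h' => hx ⟨h, h'⟩
    have : ¬ (x.val % n2).Coprime n2 := by rwa [ZMod.coprime_mod_iff_coprime]
    rw [H.nu2 _ (Nat.mod_lt _ p2) this]
    simp
  · have : ¬ (x.val % n1).Coprime n1 := by rwa [ZMod.coprime_mod_iff_coprime]
    rw [H.nu1 _ (Nat.mod_lt _ p1) this]
    simp

lemma chiF_bern : ∑ u ∈ range (n1 * n2), (u : ZMod l) *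
    chiF n1 n2 l T1 T2 (u : ZMod (n1 * n2)) = 0 := by
  rw [← H.bern]
  apply Finset.sum_congr rfl
  intro u _
  rw [chiF_natCast]

end Char

/-! ### from the relation to sums over lists -/

section ZRel

variable {q l : ℕ} [NeZero q]

/-- linear weight on residues -/
def bz (q l : ℕ) (x : ZMod q) : ZMod l := bI q l x.val
/-- quadratic weight on residues -/
def gz (q l : ℕ) (x : ZMod q) : ZMod l := b2I q l x.val

/-- the weight `D` -/
def DZ (chi : ZMod q → ZMod l) (X Y : ZMod q) : ZMod l :=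
  ∑ z, chi z ^ 2 * (bz q l (z * X) * bz q l (z * Y))
/-- the weight `E` -/
def EZ (chi : ZMod q → ZMod l) (Y : ZMod q) : ZMod l := ∑ z, chi z ^ 2 * gz q l (z * Y)

/-- first form -/
def F1 (a t : ℕ) (x y : ZMod q) : ZMod q :=
  1 * x ^ 2 + (((a ^ 2 + 1) * t + a : ℕ) : ZMod q) * x * y + (-((1 + a * t : ℕ) : ZMod q)) * y ^ 2
/-- second form -/
def F3 (a t : ℕ) (x y : ZMod q) : ZMod q :=
  ((1 + a * t : ℕ) : ZMod q) * x ^ 2 + (2 * ((1 + a * t : ℕ) : ZMod q) * a -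
    (((a ^ 2 + 1) * t + a : ℕ) : ZMod q)) * x * y + (-((1 + a * t : ℕ) : ZMod q)) * y ^ 2

lemma zrel {L : List (ℕ × ℕ)} (hL : IsP1 q L) (chi : ZMod q → ZMod l)
    (hmul : ∀ x y, chi (x * y) = chi x * chi y) (hnu : ∀ x, ¬ IsUnit x → chi x = 0)
    (a t : ℕ) (h : T5Eq a t q l chi) :
    (L.map fun P => chi (F1 a t (P.1 : ZMod q) (P.2 : ZMod q)) *
      (6 * DZ chi (P.1 : ZMod q) (P.2 : ZMod q) + (((a ^ 2 + 1) * t + a : ℕ) : ZMod l) *
        EZ chi (P.2 : ZMod q) - 2 * (a : ZMod l) * EZ chi (P.1 : ZMod q)) +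
      chi (F3 a t (P.1 : ZMod q) (P.2 : ZMod q)) * (3 * DZ chi (P.1 : ZMod q) (P.2 : ZMod q))).sum
      = 0 := by
  unfold T5Eq at h
  rw [sum_range_zmod2 (q := q) (K := ZMod l), sum_range_zmod2 (q := q) (K := ZMod l),
    sum_range_zmod2 (q := q) (K := ZMod l)] at h
  have e3 : ∑ x : ZMod q, ∑ y : ZMod q, chi (((-((1 + a * t : ℕ) : ℤ) * ((x.val : ℕ) : ℤ) ^ 2 +
      ((((a ^ 2 + 1) * t + a : ℕ)) : ℤ) * (x.val : ℕ) * (y.val : ℕ)
      + ((y.val : ℕ) : ℤ) ^ 2 : ℤ)) : ZMod q) * (2 * (a : ZMod l) * b2I q l y.val) =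
      ∑ x : ZMod q, ∑ y : ZMod q, chi (F1 a t x y) * (2 * (a : ZMod l) * gz q l x) := by
    rw [Finset.sum_comm]
    apply Finset.sum_congr rfl
    intro x _
    apply Finset.sum_congr rfl
    intro y _
    unfold F1 gz
    congr 2
    push_cast
    rw [ZMod.natCast_zmod_val, ZMod.natCast_zmod_val]
    ring
  have e1 : ∑ x : ZMod q, ∑ y : ZMod q, chi (((((x.val : ℕ) : ℤ) ^ 2 +
      ((((a ^ 2 + 1) * t + a : ℕ)) : ℤ) * (x.val : ℕ) * (y.val : ℕ)
      - ((1 + a * t : ℕ) : ℤ) * ((y.val : ℕ) : ℤ) ^ 2 : ℤ)) : ZMod q) *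
      (6 * bI q l x.val * bI q l y.val + (((a ^ 2 + 1) * t + a : ℕ) : ZMod l) * b2I q l y.val) =
      ∑ x : ZMod q, ∑ y : ZMod q, chi (F1 a t x y) * (6 * (bz q l x * bz q l y) +
        (((a ^ 2 + 1) * t + a : ℕ) : ZMod l) * gz q l y) := by
    apply Finset.sum_congr rfl
    intro x _
    apply Finset.sum_congr rfl
    intro y _
    unfold F1 gz bz
    rw [← mul_assoc]
    congr 2
    push_cast
    rw [ZMod.natCast_zmod_val, ZMod.natCast_zmod_val]
    ring
  have e2 : ∑ x : ZMod q, ∑ y : ZMod q, chi (((((1 + a * t : ℕ) : ℤ) * ((x.val : ℕ) : ℤ) ^ 2 +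
      (2 * ((1 + a * t : ℕ) : ℤ) * a - ((((a ^ 2 + 1) * t + a : ℕ)) : ℤ)) * (x.val : ℕ) *
      (y.val : ℕ) - ((1 + a * t : ℕ) : ℤ) * ((y.val : ℕ) : ℤ) ^ 2 : ℤ)) : ZMod q) *
      (3 * bI q l x.val * bI q l y.val) =
      ∑ x : ZMod q, ∑ y : ZMod q, chi (F3 a t x y) * (3 * (bz q l x * bz q l y)) := by
    apply Finset.sum_congr rfl
    intro x _
    apply Finset.sum_congr rfl
    intro y _
    have ea : (((((1 + a * t : ℕ) : ℤ) * ((x.val : ℕ) : ℤ) ^ 2 +
      (2 * ((1 + a * t : ℕ) : ℤ) * a - ((((a ^ 2 + 1) * t + a : ℕ)) : ℤ)) * (x.val : ℕ) *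
      (y.val : ℕ) - ((1 + a * t : ℕ) : ℤ) * ((y.val : ℕ) : ℤ) ^ 2 : ℤ)) : ZMod q) =
      F3 a t x y := by
      unfold F3
      push_cast
      rw [ZMod.natCast_zmod_val, ZMod.natCast_zmod_val]
      ring
    rw [ea]
    unfold bz
    ring
  rw [e1, e2, e3] at h
  have h' : ∑ x : ZMod q, ∑ y : ZMod q, chi (F1 a t x y) * (6 * (bz q l x * bz q l y) +
        (((a ^ 2 + 1) * t + a : ℕ) : ZMod l) * gz q l y - 2 * (a : ZMod l) * gz q l x) +
      ∑ x : ZMod q, ∑ y : ZMod q, chi (F3 a t x y) * (3 * (bz q l x * bz q l y)) = 0 := by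
    rw [← h]
    have : ∑ x : ZMod q, ∑ y : ZMod q, chi (F1 a t x y) * (6 * (bz q l x * bz q l y) +
        (((a ^ 2 + 1) * t + a : ℕ) : ZMod l) * gz q l y - 2 * (a : ZMod l) * gz q l x) =
        ∑ x : ZMod q, ∑ y : ZMod q, chi (F1 a t x y) * (6 * (bz q l x * bz q l y) +
        (((a ^ 2 + 1) * t + a : ℕ) : ZMod l) * gz q l y) -
        ∑ x : ZMod q, ∑ y : ZMod q, chi (F1 a t x y) * (2 * (a : ZMod l) * gz q l x) := by
      rw [← Finset.sum_sub_distrib]
      apply Finset.sum_congr rfl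
      intro x _
      rw [← Finset.sum_sub_distrib]
      apply Finset.sum_congr rfl
      intro y _
      ring
    rw [this]
    ring
  unfold F1 F3 at h'
  rw [form_sum hL chi hmul hnu 1 _ _ (fun x y => 6 * (bz q l x * bz q l y) +
        (((a ^ 2 + 1) * t + a : ℕ) : ZMod l) * gz q l y - 2 * (a : ZMod l) * gz q l x),
    form_sum hL chi hmul hnu _ _ _ (fun x y => 3 * (bz q l x * bz q l y)),
    ← List.sum_map_add] at h'
  rw [← h']
  congr 1
  apply List.map_congr_left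
  intro P _
  unfold F1 F3
  congr 2
  · unfold DZ EZ
    rw [Finset.mul_sum, Finset.mul_sum, Finset.mul_sum, ← Finset.sum_add_distrib,
      ← Finset.sum_sub_distrib]
    apply Finset.sum_congr rfl
    intro z _
    ring
  · unfold DZ
    rw [Finset.mul_sum]
    apply Finset.sum_congr rfl
    intro z _
    ring

end ZRel

end Pool.Agent.LibH4.T6


end

section

/-!
Soundness of the table computations, natural number level.
-/

namespace Pool.Agent.LibH4.T6

open Finset Ker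

/-! ### weights -/

lemma bet_cast (q l r : ℕ) (hl : 2 ≤ l) : ((bet q l r : ℕ) : ZMod l) = bI q l r := by
  unfold bI
  cases r with
  | zero => simp [bet]
  | succ r =>
    have : bet q l (r + 1) = (q + (l - 2) * (r + 1)) % l := rfl
    rw [this, ZMod.natCast_mod, if_neg (by omega)]
    push_cast [Nat.cast_sub hl]
    simp
    ring

lemma bet_lt (q l r : ℕ) (hl : 0 < l) (hl16 : l ≤ 16) : bet q l r < 16 := by
  cases r with
  | zero => simp [bet]
  | succ r =>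
    have : bet q l (r + 1) = (q + (l - 2) * (r + 1)) % l := rfl
    rw [this]
    exact (Nat.mod_lt _ hl).trans_le hl16

lemma gam_cast (q l r : ℕ) (hl : 1 ≤ l) : ((gam q l r : ℕ) : ZMod l) = b2I q l r := by
  unfold b2I
  have : gam q l r = (6 * (r * r) + 6 * (l - 1) * (q * r) + q * q) % l := rfl
  rw [this, ZMod.natCast_mod]
  push_cast [Nat.cast_sub hl]
  simp
  ring

lemma gam_lt (q l r : ℕ) (hl : 0 < l) (hl16 : l ≤ 16) : gam q l r < 16 := by
  have : gam q l r = (6 * (r * r) + 6 * (l - 1) * (q * r) + q * q) % l := rfl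
  rw [this]
  exact (Nat.mod_lt _ hl).trans_le hl16

/-! ### the weight sums -/

/-- term of `D` -/
def tD (q CT BT X Y lam : ℕ) : ℕ := ch CT lam * (ch BT (lam * X % q) * ch BT (lam * Y % q))
/-- term of `E` -/
def tE (q CT GT Y lam : ℕ) : ℕ := ch CT lam * ch GT (lam * Y % q)

lemma dterm_eq (q CT BT GT X Y lam : ℕ) : dterm q CT BT GT X Y lam =
    tD q CT BT X Y lam + 2 ^ 24 * tE q CT GT Y lam + 2 ^ 48 * tE q CT GT X lam := by
  unfold dterm tD tE
  generalize ch CT lam = c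
  cases c with
  | zero => simp
  | succ c =>
    change strict (lam * X % q) (fun x => strict (lam * Y % q) fun y => (c + 1) *
      (ch BT x * ch BT y + (16777216 * ch GT y + 281474976710656 * ch GT x))) = _
    rw [strict_eq, strict_eq]
    ring

/-- the sums -/
def sD (q CT BT X Y : ℕ) : ℕ := ∑ lam ∈ range q, tD q CT BT X Y lam
/-- the sums -/
def sE (q CT GT Y : ℕ) : ℕ := ∑ lam ∈ range q, tE q CT GT Y lam

lemma sD_lt (q CT BT X Y : ℕ) (hq : q ≤ 1000) : sD q CT BT X Y < 2 ^ 24 := by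
  have : sD q CT BT X Y ≤ ∑ lam ∈ range q, 3375 := by
    apply Finset.sum_le_sum
    intro lam _
    unfold tD
    have h1 := ch_lt CT lam
    have h2 := ch_lt BT (lam * X % q)
    have h3 := ch_lt BT (lam * Y % q)
    have h4 : ch BT (lam * X % q) * ch BT (lam * Y % q) ≤ 15 * 15 := Nat.mul_le_mul (by omega) (by omega)
    calc ch CT lam * (ch BT (lam * X % q) * ch BT (lam * Y % q)) ≤ 15 * (15 * 15) :=
          Nat.mul_le_mul (by omega) h4
      _ = 3375 := by norm_num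
  rw [sum_const, card_range, smul_eq_mul] at this
  have h5 : q * 3375 ≤ 1000 * 3375 := Nat.mul_le_mul_right _ hq
  calc sD q CT BT X Y ≤ q * 3375 := this
    _ ≤ 1000 * 3375 := h5
    _ < 2 ^ 24 := by norm_num

lemma sE_lt (q CT GT Y : ℕ) (hq : q ≤ 1000) : sE q CT GT Y < 2 ^ 24 := by
  have : sE q CT GT Y ≤ ∑ lam ∈ range q, 225 := by
    apply Finset.sum_le_sum
    intro lam _
    unfold tE
    have h1 := ch_lt CT lam
    have h3 := ch_lt GT (lam * Y % q)
    calc ch CT lam * ch GT (lam * Y % q) ≤ 15 * 15 :=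
          Nat.mul_le_mul (by omega) (by omega)
      _ = 225 := by norm_num
  rw [sum_const, card_range, smul_eq_mul] at this
  have h5 : q * 225 ≤ 1000 * 225 := Nat.mul_le_mul_right _ hq
  calc sE q CT GT Y ≤ q * 225 := this
    _ ≤ 1000 * 225 := h5
    _ < 2 ^ 24 := by norm_num

lemma dfull_eq (q l CT BT GT X Y : ℕ) (hq : q ≤ 1000) : dfull q l CT BT GT X Y =
    sD q CT BT X Y % l + 2 ^ 16 * (sE q CT GT Y % l) + 2 ^ 32 * (sE q CT GT X % l) := by
  have hs : sumR (dterm q CT BT GT X Y) q =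
      sD q CT BT X Y + 2 ^ 24 * (sE q CT GT Y + 2 ^ 24 * sE q CT GT X) := by
    rw [sumR_eq, Finset.sum_congr rfl (fun lam _ => dterm_eq q CT BT GT X Y lam)]
    unfold sD sE
    rw [Finset.sum_add_distrib, Finset.sum_add_distrib, ← Finset.mul_sum, ← Finset.mul_sum]
    ring
  have h1 := sD_lt q CT BT X Y hq
  have h2 := sE_lt q CT GT Y hq
  have h3 := sE_lt q CT GT X hq
  unfold dfull
  rw [strict_eq, hs]
  set A := sD q CT BT X Y with hA
  set B := sE q CT GT Y with hB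
  set C := sE q CT GT X with hC
  change (A + 2 ^ 24 * (B + 2 ^ 24 * C)) % 16777216 % l + (65536 *
    (dg 24 (A + 2 ^ 24 * (B + 2 ^ 24 * C)) 1 % l) + 4294967296 *
    (dg 24 (A + 2 ^ 24 * (B + 2 ^ 24 * C)) 2 % l)) = _
  have d0 : (A + 2 ^ 24 * (B + 2 ^ 24 * C)) % 16777216 = A := by
    have : (16777216 : ℕ) = 2 ^ 24 := by norm_num
    rw [this, Nat.add_mul_mod_self_left, Nat.mod_eq_of_lt h1]
  have d1 : dg 24 (A + 2 ^ 24 * (B + 2 ^ 24 * C)) 1 = B := by
    rw [dg_eq, mul_one, Nat.add_mul_div_left _ _ (by positivity), Nat.div_eq_of_lt h1, zero_add,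
      Nat.add_mul_mod_self_left, Nat.mod_eq_of_lt h2]
  have d2 : dg 24 (A + 2 ^ 24 * (B + 2 ^ 24 * C)) 2 = C := by
    rw [dg_eq]
    have : 2 ^ (24 * 2) = 2 ^ 24 * 2 ^ 24 := by norm_num
    rw [this, ← Nat.div_div_eq_div_mul, Nat.add_mul_div_left _ _ (by positivity),
      Nat.div_eq_of_lt h1, zero_add, Nat.add_mul_div_left _ _ (by positivity),
      Nat.div_eq_of_lt h2, zero_add, Nat.mod_eq_of_lt h3]
  rw [d0, d1, d2]
  norm_num
  ring

section Cast

variable {q l : ℕ} [NeZero q] (chi : ZMod q → ZMod l) (CT BT GT : ℕ)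
  (hC : ∀ z < q, (ch CT z : ZMod l) = chi (z : ZMod q) ^ 2)
  (hB : ∀ z < q, (ch BT z : ZMod l) = bI q l z)
  (hG : ∀ z < q, (ch GT z : ZMod l) = b2I q l z)

include hC hB in
lemma sD_cast (X Y : ℕ) : ((sD q CT BT X Y : ℕ) : ZMod l) = DZ chi (X : ZMod q) (Y : ZMod q) := by
  unfold sD DZ
  push_cast
  symm
  refine Finset.sum_nbij' (fun z => z.val) (fun r => (r : ZMod q)) ?_ ?_ ?_ ?_ ?_
  · intro z _; exact mem_range.mpr (ZMod.val_lt z)
  · intro r _; exact mem_univ _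
  · intro z _; exact ZMod.natCast_zmod_val z
  · intro r hr; exact ZMod.val_cast_of_lt (mem_range.mp hr)
  · intro z _
    have hq : 0 < q := Nat.pos_of_ne_zero (NeZero.ne q)
    unfold tD bz
    push_cast
    rw [hC _ (ZMod.val_lt z), hB _ (Nat.mod_lt _ hq), hB _ (Nat.mod_lt _ hq),
      ZMod.natCast_zmod_val]
    have e : ∀ X : ℕ, (z * (X : ZMod q)).val = z.val * X % q := by
      intro X
      conv_lhs => rw [← ZMod.natCast_zmod_val z, ← Nat.cast_mul, ZMod.val_natCast]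
    rw [e, e]

include hC hG in
lemma sE_cast (Y : ℕ) : ((sE q CT GT Y : ℕ) : ZMod l) = EZ chi (Y : ZMod q) := by
  unfold sE EZ
  push_cast
  symm
  refine Finset.sum_nbij' (fun z => z.val) (fun r => (r : ZMod q)) ?_ ?_ ?_ ?_ ?_
  · intro z _; exact mem_range.mpr (ZMod.val_lt z)
  · intro r _; exact mem_univ _
  · intro z _; exact ZMod.natCast_zmod_val z
  · intro r hr; exact ZMod.val_cast_of_lt (mem_range.mp hr)
  · intro z _
    have hq : 0 < q := Nat.pos_of_ne_zero (NeZero.ne q)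
    unfold tE gz
    push_cast
    rw [hC _ (ZMod.val_lt z), hG _ (Nat.mod_lt _ hq), ZMod.natCast_zmod_val]
    have e : ∀ X : ℕ, (z * (X : ZMod q)).val = z.val * X % q := by
      intro X
      conv_lhs => rw [← ZMod.natCast_zmod_val z, ← Nat.cast_mul, ZMod.val_natCast]
    rw [e]

end Cast

end Pool.Agent.LibH4.T6


end

section

/-! generated data -/

namespace Pool.Agent.LibH4.T6

/-- representatives -/
def P16 : List (ℕ × ℕ) := [((nat_lit 1), (nat_lit 0)),((nat_lit 1), (nat_lit 1)),((nat_lit 1), (nat_lit 2)),((nat_lit 1), (nat_lit 3)),((nat_lit 1), (nat_lit 4)),((nat_lit 1), (nat_lit 5)),((nat_lit 1), (nat_lit 6)),((nat_lit 1), (nat_lit 7)),((nat_lit 1), (nat_lit 8)),((nat_lit 1), (nat_lit 9)),((nat_lit 1), (nat_lit 10)),((nat_lit 1), (nat_lit 11)),((nat_lit 1), (nat_lit 12)),((nat_lit 1), (nat_lit 13)),((nat_lit 1), (nat_lit 14)),((nat_lit 1), (nat_lit 15)),((nat_lit 0), (nat_lit 1)),((nat_lit 2), (nat_lit 1)),((nat_lit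 4), (nat_lit 1)),((nat_lit 6), (nat_lit 1)),((nat_lit 8), (nat_lit 1)),((nat_lit 10), (nat_lit 1)),((nat_lit 12), (nat_lit 1)),((nat_lit 14), (nat_lit 1))]
/-- classes -/
def C16 : List (ℕ × ℕ) := [((nat_lit 0), (nat_lit 1)),((nat_lit 0), (nat_lit 3)),((nat_lit 0), (nat_lit 5)),((nat_lit 0), (nat_lit 7)),((nat_lit 0), (nat_lit 9)),((nat_lit 0), (nat_lit 11)),((nat_lit 0), (nat_lit 13)),((nat_lit 0), (nat_lit 15)),((nat_lit 1), (nat_lit 0)),((nat_lit 1), (nat_lit 2)),((nat_lit 1), (nat_lit 4)),((nat_lit 1), (nat_lit 6)),((nat_lit 1), (nat_lit 8)),((nat_lit 1), (nat_lit 10)),((nat_lit 1), (nat_lit 12)),((nat_lit 1), (nat_lit 14)),((nat_lit 2), (nat_lit 1)),((nat_lit 2), (nat_lit 3)),((nat_lit 2), (nat_lit 5)),((nat_lit 2), (nat_lit 7)),((nat_lit 2), (nat_lit 9)),((nat_lit 2), (nat_lit 11)),((nat_lit 2), (nat_lit 13)),((nat_lit 2), (nat_lit 15)),((nat_lit 3), (nat_lit 0)),((nat_lit 3), (nat_lit 2)),((nat_lit 3), (nat_lit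 4)),((nat_lit 3), (nat_lit 6)),((nat_lit 3), (nat_lit 8)),((nat_lit 3), (nat_lit 10)),((nat_lit 3), (nat_lit 12)),((nat_lit 3), (nat_lit 14)),((nat_lit 4), (nat_lit 1)),((nat_lit 4), (nat_lit 3)),((nat_lit 4), (nat_lit 5)),((nat_lit 4), (nat_lit 7)),((nat_lit 4), (nat_lit 9)),((nat_lit 4), (nat_lit 11)),((nat_lit 4), (nat_lit 13)),((nat_lit 4), (nat_lit 15)),((nat_lit 5), (nat_lit 0)),((nat_lit 5), (nat_lit 2)),((nat_lit 5), (nat_lit 4)),((nat_lit 5), (nat_lit 6)),((nat_lit 5), (nat_lit 8)),((nat_lit 5), (nat_lit 10)),((nat_lit 5), (nat_lit 12)),((nat_lit 5), (nat_lit 14)),((nat_lit 6), (nat_lit 1)),((nat_lit 6), (nat_lit 3)),((nat_lit 6), (nat_lit 5)),((nat_lit 6), (nat_lit 7)),((nat_lit 6), (nat_lit 9)),((nat_lit 6), (nat_lit 11)),((nat_lit 6), (nat_lit 13)),((nat_lit 6), (nat_lit 15)),((nat_lit 7), (nat_lit 0)),((nat_lit 7), (nat_lit 2)),((nat_lit 7), (nat_lit 4)),((nat_lit 7), (nat_lit 6)),((nat_lit 7), (nat_lit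 8)),((nat_lit 7), (nat_lit 10)),((nat_lit 7), (nat_lit 12)),((nat_lit 7), (nat_lit 14)),((nat_lit 8), (nat_lit 1)),((nat_lit 8), (nat_lit 3)),((nat_lit 8), (nat_lit 5)),((nat_lit 8), (nat_lit 7)),((nat_lit 8), (nat_lit 9)),((nat_lit 8), (nat_lit 11)),((nat_lit 8), (nat_lit 13)),((nat_lit 8), (nat_lit 15)),((nat_lit 9), (nat_lit 0)),((nat_lit 9), (nat_lit 2)),((nat_lit 9), (nat_lit 4)),((nat_lit 9), (nat_lit 6)),((nat_lit 9), (nat_lit 8)),((nat_lit 9), (nat_lit 10)),((nat_lit 9), (nat_lit 12)),((nat_lit 9), (nat_lit 14)),((nat_lit 10), (nat_lit 1)),((nat_lit 10), (nat_lit 3)),((nat_lit 10), (nat_lit 5)),((nat_lit 10), (nat_lit 7)),((nat_lit 10), (nat_lit 9)),((nat_lit 10), (nat_lit 11)),((nat_lit 10), (nat_lit 13)),((nat_lit 10), (nat_lit 15)),((nat_lit 11), (nat_lit 0)),((nat_lit 11), (nat_lit 2)),((nat_lit 11), (nat_lit 4)),((nat_lit 11), (nat_lit 6)),((nat_lit 11), (nat_lit 8)),((nat_lit 11), (nat_lit 10)),((nat_lit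 11), (nat_lit 12)),((nat_lit 11), (nat_lit 14)),((nat_lit 12), (nat_lit 1)),((nat_lit 12), (nat_lit 3)),((nat_lit 12), (nat_lit 5)),((nat_lit 12), (nat_lit 7)),((nat_lit 12), (nat_lit 9)),((nat_lit 12), (nat_lit 11)),((nat_lit 12), (nat_lit 13)),((nat_lit 12), (nat_lit 15)),((nat_lit 13), (nat_lit 0)),((nat_lit 13), (nat_lit 2)),((nat_lit 13), (nat_lit 4)),((nat_lit 13), (nat_lit 6)),((nat_lit 13), (nat_lit 8)),((nat_lit 13), (nat_lit 10)),((nat_lit 13), (nat_lit 12)),((nat_lit 13), (nat_lit 14)),((nat_lit 14), (nat_lit 1)),((nat_lit 14), (nat_lit 3)),((nat_lit 14), (nat_lit 5)),((nat_lit 14), (nat_lit 7)),((nat_lit 14), (nat_lit 9)),((nat_lit 14), (nat_lit 11)),((nat_lit 14), (nat_lit 13)),((nat_lit 14), (nat_lit 15)),((nat_lit 15), (nat_lit 0)),((nat_lit 15), (nat_lit 2)),((nat_lit 15), (nat_lit 4)),((nat_lit 15), (nat_lit 6)),((nat_lit 15), (nat_lit 8)),((nat_lit 15), (nat_lit 10)),((nat_lit 15), (nat_lit 12)),((nat_lit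 15), (nat_lit 14))]

/-- representatives -/
def P7 : List (ℕ × ℕ) := [((nat_lit 1), (nat_lit 0)),((nat_lit 1), (nat_lit 1)),((nat_lit 1), (nat_lit 2)),((nat_lit 1), (nat_lit 3)),((nat_lit 1), (nat_lit 4)),((nat_lit 1), (nat_lit 5)),((nat_lit 1), (nat_lit 6)),((nat_lit 0), (nat_lit 1))]
/-- classes -/
def C7 : List (ℕ × ℕ) := [((nat_lit 0), (nat_lit 1)),((nat_lit 0), (nat_lit 3)),((nat_lit 0), (nat_lit 4)),((nat_lit 0), (nat_lit 6)),((nat_lit 1), (nat_lit 0)),((nat_lit 1), (nat_lit 1)),((nat_lit 1), (nat_lit 4)),((nat_lit 1), (nat_lit 5)),((nat_lit 2), (nat_lit 1)),((nat_lit 2), (nat_lit 2)),((nat_lit 2), (nat_lit 5)),((nat_lit 2), (nat_lit 6)),((nat_lit 3), (nat_lit 0)),((nat_lit 3), (nat_lit 1)),((nat_lit 3), (nat_lit 5)),((nat_lit 3), (nat_lit 6)),((nat_lit 4), (nat_lit 0)),((nat_lit 4), (nat_lit 1)),((nat_lit 4), (nat_lit 2)),((nat_lit 4), (nat_lit 6)),((nat_lit 5), (nat_lit 1)),((nat_lit 5), (nat_lit 2)),((nat_lit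 5), (nat_lit 5)),((nat_lit 5), (nat_lit 6)),((nat_lit 6), (nat_lit 0)),((nat_lit 6), (nat_lit 2)),((nat_lit 6), (nat_lit 3)),((nat_lit 6), (nat_lit 6))]

/-- representatives -/
def P20 : List (ℕ × ℕ) := [((nat_lit 21), (nat_lit 0)),((nat_lit 21), (nat_lit 16)),((nat_lit 21), (nat_lit 32)),((nat_lit 21), (nat_lit 48)),((nat_lit 21), (nat_lit 64)),((nat_lit 5), (nat_lit 16)),((nat_lit 21), (nat_lit 5)),((nat_lit 21), (nat_lit 21)),((nat_lit 21), (nat_lit 37)),((nat_lit 21), (nat_lit 53)),((nat_lit 21), (nat_lit 69)),((nat_lit 5), (nat_lit 21)),((nat_lit 21), (nat_lit 10)),((nat_lit 21), (nat_lit 26)),((nat_lit 21), (nat_lit 42)),((nat_lit 21), (nat_lit 58)),((nat_lit 21), (nat_lit 74)),((nat_lit 5), (nat_lit 26)),((nat_lit 21), (nat_lit 15)),((nat_lit 21), (nat_lit 31)),((nat_lit 21), (nat_lit 47)),((nat_lit 21), (nat_lit 63)),((nat_lit 21), (nat_lit 79)),((nat_lit 5), (nat_lit 31)),((nat_lit 16), (nat_lit 5)),((nat_lit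 16), (nat_lit 21)),((nat_lit 16), (nat_lit 37)),((nat_lit 16), (nat_lit 53)),((nat_lit 16), (nat_lit 69)),((nat_lit 0), (nat_lit 21)),((nat_lit 26), (nat_lit 5)),((nat_lit 26), (nat_lit 21)),((nat_lit 26), (nat_lit 37)),((nat_lit 26), (nat_lit 53)),((nat_lit 26), (nat_lit 69)),((nat_lit 10), (nat_lit 21))]
/-- classes -/
def C20 : List (ℕ × ℕ) := [((nat_lit 0), (nat_lit 3)),((nat_lit 0), (nat_lit 7)),((nat_lit 0), (nat_lit 13)),((nat_lit 0), (nat_lit 17)),((nat_lit 1), (nat_lit 2)),((nat_lit 1), (nat_lit 6)),((nat_lit 1), (nat_lit 12)),((nat_lit 1), (nat_lit 16)),((nat_lit 2), (nat_lit 3)),((nat_lit 2), (nat_lit 5)),((nat_lit 2), (nat_lit 13)),((nat_lit 2), (nat_lit 15)),((nat_lit 3), (nat_lit 0)),((nat_lit 3), (nat_lit 2)),((nat_lit 3), (nat_lit 10)),((nat_lit 3), (nat_lit 12)),((nat_lit 4), (nat_lit 3)),((nat_lit 4), (nat_lit 9)),((nat_lit 4), (nat_lit 13)),((nat_lit 4), (nat_lit 19)),((nat_lit 5), (nat_lit 2)),((nat_lit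 5), (nat_lit 8)),((nat_lit 5), (nat_lit 12)),((nat_lit 5), (nat_lit 18)),((nat_lit 6), (nat_lit 1)),((nat_lit 6), (nat_lit 7)),((nat_lit 6), (nat_lit 11)),((nat_lit 6), (nat_lit 17)),((nat_lit 7), (nat_lit 0)),((nat_lit 7), (nat_lit 8)),((nat_lit 7), (nat_lit 10)),((nat_lit 7), (nat_lit 18)),((nat_lit 8), (nat_lit 5)),((nat_lit 8), (nat_lit 7)),((nat_lit 8), (nat_lit 15)),((nat_lit 8), (nat_lit 17)),((nat_lit 9), (nat_lit 4)),((nat_lit 9), (nat_lit 8)),((nat_lit 9), (nat_lit 14)),((nat_lit 9), (nat_lit 18)),((nat_lit 10), (nat_lit 3)),((nat_lit 10), (nat_lit 7)),((nat_lit 10), (nat_lit 13)),((nat_lit 10), (nat_lit 17)),((nat_lit 11), (nat_lit 2)),((nat_lit 11), (nat_lit 6)),((nat_lit 11), (nat_lit 12)),((nat_lit 11), (nat_lit 16)),((nat_lit 12), (nat_lit 3)),((nat_lit 12), (nat_lit 5)),((nat_lit 12), (nat_lit 13)),((nat_lit 12), (nat_lit 15)),((nat_lit 13), (nat_lit 0)),((nat_lit 13), (nat_lit 2)),((nat_lit 13), (nat_lit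 10)),((nat_lit 13), (nat_lit 12)),((nat_lit 14), (nat_lit 3)),((nat_lit 14), (nat_lit 9)),((nat_lit 14), (nat_lit 13)),((nat_lit 14), (nat_lit 19)),((nat_lit 15), (nat_lit 2)),((nat_lit 15), (nat_lit 8)),((nat_lit 15), (nat_lit 12)),((nat_lit 15), (nat_lit 18)),((nat_lit 16), (nat_lit 1)),((nat_lit 16), (nat_lit 7)),((nat_lit 16), (nat_lit 11)),((nat_lit 16), (nat_lit 17)),((nat_lit 17), (nat_lit 0)),((nat_lit 17), (nat_lit 8)),((nat_lit 17), (nat_lit 10)),((nat_lit 17), (nat_lit 18)),((nat_lit 18), (nat_lit 5)),((nat_lit 18), (nat_lit 7)),((nat_lit 18), (nat_lit 15)),((nat_lit 18), (nat_lit 17)),((nat_lit 19), (nat_lit 4)),((nat_lit 19), (nat_lit 8)),((nat_lit 19), (nat_lit 14)),((nat_lit 19), (nat_lit 18))]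

/-- representatives -/
def P15 : List (ℕ × ℕ) := [((nat_lit 16), (nat_lit 0)),((nat_lit 16), (nat_lit 6)),((nat_lit 16), (nat_lit 12)),((nat_lit 16), (nat_lit 18)),((nat_lit 16), (nat_lit 24)),((nat_lit 10), (nat_lit 6)),((nat_lit 16), (nat_lit 10)),((nat_lit 16), (nat_lit 16)),((nat_lit 16), (nat_lit 22)),((nat_lit 16), (nat_lit 28)),((nat_lit 16), (nat_lit 34)),((nat_lit 10), (nat_lit 16)),((nat_lit 16), (nat_lit 20)),((nat_lit 16), (nat_lit 26)),((nat_lit 16), (nat_lit 32)),((nat_lit 16), (nat_lit 38)),((nat_lit 16), (nat_lit 44)),((nat_lit 10), (nat_lit 26)),((nat_lit 6), (nat_lit 10)),((nat_lit 6), (nat_lit 16)),((nat_lit 6), (nat_lit 22)),((nat_lit 6), (nat_lit 28)),((nat_lit 6), (nat_lit 34)),((nat_lit 0), (nat_lit 16))]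
/-- classes -/
def C15 : List (ℕ × ℕ) := [((nat_lit 0), (nat_lit 2)),((nat_lit 0), (nat_lit 7)),((nat_lit 0), (nat_lit 8)),((nat_lit 0), (nat_lit 13)),((nat_lit 1), (nat_lit 1)),((nat_lit 1), (nat_lit 6)),((nat_lit 1), (nat_lit 7)),((nat_lit 1), (nat_lit 12)),((nat_lit 2), (nat_lit 0)),((nat_lit 2), (nat_lit 3)),((nat_lit 2), (nat_lit 5)),((nat_lit 2), (nat_lit 8)),((nat_lit 3), (nat_lit 2)),((nat_lit 3), (nat_lit 5)),((nat_lit 3), (nat_lit 7)),((nat_lit 3), (nat_lit 10)),((nat_lit 4), (nat_lit 3)),((nat_lit 4), (nat_lit 4)),((nat_lit 4), (nat_lit 9)),((nat_lit 4), (nat_lit 13)),((nat_lit 5), (nat_lit 2)),((nat_lit 5), (nat_lit 3)),((nat_lit 5), (nat_lit 8)),((nat_lit 5), (nat_lit 12)),((nat_lit 6), (nat_lit 1)),((nat_lit 6), (nat_lit 2)),((nat_lit 6), (nat_lit 7)),((nat_lit 6), (nat_lit 11)),((nat_lit 7), (nat_lit 0)),((nat_lit 7), (nat_lit 3)),((nat_lit 7), (nat_lit 10)),((nat_lit 7), (nat_lit 13)),((nat_lit 8),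 (nat_lit 0)),((nat_lit 8), (nat_lit 2)),((nat_lit 8), (nat_lit 5)),((nat_lit 8), (nat_lit 12)),((nat_lit 9), (nat_lit 4)),((nat_lit 9), (nat_lit 8)),((nat_lit 9), (nat_lit 13)),((nat_lit 9), (nat_lit 14)),((nat_lit 10), (nat_lit 3)),((nat_lit 10), (nat_lit 7)),((nat_lit 10), (nat_lit 12)),((nat_lit 10), (nat_lit 13)),((nat_lit 11), (nat_lit 2)),((nat_lit 11), (nat_lit 6)),((nat_lit 11), (nat_lit 11)),((nat_lit 11), (nat_lit 12)),((nat_lit 12), (nat_lit 5)),((nat_lit 12), (nat_lit 8)),((nat_lit 12), (nat_lit 10)),((nat_lit 12), (nat_lit 13)),((nat_lit 13), (nat_lit 0)),((nat_lit 13), (nat_lit 7)),((nat_lit 13), (nat_lit 10)),((nat_lit 13), (nat_lit 12)),((nat_lit 14), (nat_lit 3)),((nat_lit 14), (nat_lit 8)),((nat_lit 14), (nat_lit 9)),((nat_lit 14), (nat_lit 14))]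

/-- representatives -/
def P9 : List (ℕ × ℕ) := [((nat_lit 1), (nat_lit 0)),((nat_lit 1), (nat_lit 1)),((nat_lit 1), (nat_lit 2)),((nat_lit 1), (nat_lit 3)),((nat_lit 1), (nat_lit 4)),((nat_lit 1), (nat_lit 5)),((nat_lit 1), (nat_lit 6)),((nat_lit 1), (nat_lit 7)),((nat_lit 1), (nat_lit 8)),((nat_lit 0), (nat_lit 1)),((nat_lit 3), (nat_lit 1)),((nat_lit 6), (nat_lit 1))]
/-- classes -/
def C9 : List (ℕ × ℕ) := [((nat_lit 0), (nat_lit 1)),((nat_lit 0), (nat_lit 2)),((nat_lit 0), (nat_lit 4)),((nat_lit 0), (nat_lit 5)),((nat_lit 0), (nat_lit 7)),((nat_lit 0), (nat_lit 8)),((nat_lit 1), (nat_lit 0)),((nat_lit 1), (nat_lit 1)),((nat_lit 1), (nat_lit 3)),((nat_lit 1), (nat_lit 4)),((nat_lit 1), (nat_lit 6)),((nat_lit 1), (nat_lit 7)),((nat_lit 2), (nat_lit 0)),((nat_lit 2), (nat_lit 2)),((nat_lit 2), (nat_lit 3)),((nat_lit 2), (nat_lit 5)),((nat_lit 2), (nat_lit 6)),((nat_lit 2), (nat_lit 8)),((nat_lit 3), (nat_lit 1)),((nat_lit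 3), (nat_lit 2)),((nat_lit 3), (nat_lit 4)),((nat_lit 3), (nat_lit 5)),((nat_lit 3), (nat_lit 7)),((nat_lit 3), (nat_lit 8)),((nat_lit 4), (nat_lit 0)),((nat_lit 4), (nat_lit 1)),((nat_lit 4), (nat_lit 3)),((nat_lit 4), (nat_lit 4)),((nat_lit 4), (nat_lit 6)),((nat_lit 4), (nat_lit 7)),((nat_lit 5), (nat_lit 0)),((nat_lit 5), (nat_lit 2)),((nat_lit 5), (nat_lit 3)),((nat_lit 5), (nat_lit 5)),((nat_lit 5), (nat_lit 6)),((nat_lit 5), (nat_lit 8)),((nat_lit 6), (nat_lit 1)),((nat_lit 6), (nat_lit 2)),((nat_lit 6), (nat_lit 4)),((nat_lit 6), (nat_lit 5)),((nat_lit 6), (nat_lit 7)),((nat_lit 6), (nat_lit 8)),((nat_lit 7), (nat_lit 0)),((nat_lit 7), (nat_lit 1)),((nat_lit 7), (nat_lit 3)),((nat_lit 7), (nat_lit 4)),((nat_lit 7), (nat_lit 6)),((nat_lit 7), (nat_lit 7)),((nat_lit 8), (nat_lit 0)),((nat_lit 8), (nat_lit 2)),((nat_lit 8), (nat_lit 3)),((nat_lit 8), (nat_lit 5)),((nat_lit 8), (nat_lit 6)),((nat_lit 8), (nat_lit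 8))]

/-- representatives -/
def P13 : List (ℕ × ℕ) := [((nat_lit 1), (nat_lit 0)),((nat_lit 1), (nat_lit 1)),((nat_lit 1), (nat_lit 2)),((nat_lit 1), (nat_lit 3)),((nat_lit 1), (nat_lit 4)),((nat_lit 1), (nat_lit 5)),((nat_lit 1), (nat_lit 6)),((nat_lit 1), (nat_lit 7)),((nat_lit 1), (nat_lit 8)),((nat_lit 1), (nat_lit 9)),((nat_lit 1), (nat_lit 10)),((nat_lit 1), (nat_lit 11)),((nat_lit 1), (nat_lit 12)),((nat_lit 0), (nat_lit 1))]
/-- classes -/
def C13 : List (ℕ × ℕ) := [((nat_lit 0), (nat_lit 1)),((nat_lit 0), (nat_lit 2)),((nat_lit 0), (nat_lit 4)),((nat_lit 0), (nat_lit 9)),((nat_lit 0), (nat_lit 11)),((nat_lit 0), (nat_lit 12)),((nat_lit 1), (nat_lit 0)),((nat_lit 1), (nat_lit 2)),((nat_lit 1), (nat_lit 5)),((nat_lit 1), (nat_lit 6)),((nat_lit 1), (nat_lit 9)),((nat_lit 1), (nat_lit 11)),((nat_lit 2), (nat_lit 0)),((nat_lit 2), (nat_lit 2)),((nat_lit 2), (nat_lit 3)),((nat_lit 2), (nat_lit 5)),((nat_lit 2),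 (nat_lit 10)),((nat_lit 2), (nat_lit 12)),((nat_lit 3), (nat_lit 2)),((nat_lit 3), (nat_lit 3)),((nat_lit 3), (nat_lit 6)),((nat_lit 3), (nat_lit 8)),((nat_lit 3), (nat_lit 10)),((nat_lit 3), (nat_lit 12)),((nat_lit 4), (nat_lit 0)),((nat_lit 4), (nat_lit 1)),((nat_lit 4), (nat_lit 2)),((nat_lit 4), (nat_lit 8)),((nat_lit 4), (nat_lit 9)),((nat_lit 4), (nat_lit 10)),((nat_lit 5), (nat_lit 3)),((nat_lit 5), (nat_lit 4)),((nat_lit 5), (nat_lit 6)),((nat_lit 5), (nat_lit 8)),((nat_lit 5), (nat_lit 10)),((nat_lit 5), (nat_lit 11)),((nat_lit 6), (nat_lit 1)),((nat_lit 6), (nat_lit 3)),((nat_lit 6), (nat_lit 6)),((nat_lit 6), (nat_lit 7)),((nat_lit 6), (nat_lit 10)),((nat_lit 6), (nat_lit 12)),((nat_lit 7), (nat_lit 1)),((nat_lit 7), (nat_lit 3)),((nat_lit 7), (nat_lit 6)),((nat_lit 7), (nat_lit 7)),((nat_lit 7), (nat_lit 10)),((nat_lit 7), (nat_lit 12)),((nat_lit 8), (nat_lit 2)),((nat_lit 8), (nat_lit 3)),((nat_lit 8),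 (nat_lit 5)),((nat_lit 8), (nat_lit 7)),((nat_lit 8), (nat_lit 9)),((nat_lit 8), (nat_lit 10)),((nat_lit 9), (nat_lit 0)),((nat_lit 9), (nat_lit 3)),((nat_lit 9), (nat_lit 4)),((nat_lit 9), (nat_lit 5)),((nat_lit 9), (nat_lit 11)),((nat_lit 9), (nat_lit 12)),((nat_lit 10), (nat_lit 1)),((nat_lit 10), (nat_lit 3)),((nat_lit 10), (nat_lit 5)),((nat_lit 10), (nat_lit 7)),((nat_lit 10), (nat_lit 10)),((nat_lit 10), (nat_lit 11)),((nat_lit 11), (nat_lit 0)),((nat_lit 11), (nat_lit 1)),((nat_lit 11), (nat_lit 3)),((nat_lit 11), (nat_lit 8)),((nat_lit 11), (nat_lit 10)),((nat_lit 11), (nat_lit 11)),((nat_lit 12), (nat_lit 0)),((nat_lit 12), (nat_lit 2)),((nat_lit 12), (nat_lit 4)),((nat_lit 12), (nat_lit 7)),((nat_lit 12), (nat_lit 8)),((nat_lit 12), (nat_lit 11))]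

/-- representatives -/
def P11 : List (ℕ × ℕ) := [((nat_lit 1), (nat_lit 0)),((nat_lit 1), (nat_lit 1)),((nat_lit 1), (nat_lit 2)),((nat_lit 1), (nat_lit 3)),((nat_lit 1), (nat_lit 4)),((nat_lit 1), (nat_lit 5)),((nat_lit 1), (nat_lit 6)),((nat_lit 1), (nat_lit 7)),((nat_lit 1), (nat_lit 8)),((nat_lit 1), (nat_lit 9)),((nat_lit 1), (nat_lit 10)),((nat_lit 0), (nat_lit 1))]
/-- classes -/
def C11 : List (ℕ × ℕ) := [((nat_lit 0), (nat_lit 2)),((nat_lit 0), (nat_lit 3)),((nat_lit 0), (nat_lit 5)),((nat_lit 0), (nat_lit 6)),((nat_lit 0), (nat_lit 8)),((nat_lit 0), (nat_lit 9)),((nat_lit 1), (nat_lit 1)),((nat_lit 1), (nat_lit 3)),((nat_lit 1), (nat_lit 4)),((nat_lit 1), (nat_lit 5)),((nat_lit 1), (nat_lit 6)),((nat_lit 1), (nat_lit 8)),((nat_lit 2), (nat_lit 0)),((nat_lit 2), (nat_lit 1)),((nat_lit 2), (nat_lit 2)),((nat_lit 2), (nat_lit 7)),((nat_lit 2), (nat_lit 8)),((nat_lit 2), (nat_lit 9)),((nat_lit 3), (nat_lit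 0)),((nat_lit 3), (nat_lit 2)),((nat_lit 3), (nat_lit 3)),((nat_lit 3), (nat_lit 5)),((nat_lit 3), (nat_lit 6)),((nat_lit 3), (nat_lit 10)),((nat_lit 4), (nat_lit 1)),((nat_lit 4), (nat_lit 2)),((nat_lit 4), (nat_lit 3)),((nat_lit 4), (nat_lit 5)),((nat_lit 4), (nat_lit 6)),((nat_lit 4), (nat_lit 7)),((nat_lit 5), (nat_lit 0)),((nat_lit 5), (nat_lit 1)),((nat_lit 5), (nat_lit 4)),((nat_lit 5), (nat_lit 6)),((nat_lit 5), (nat_lit 9)),((nat_lit 5), (nat_lit 10)),((nat_lit 6), (nat_lit 0)),((nat_lit 6), (nat_lit 1)),((nat_lit 6), (nat_lit 2)),((nat_lit 6), (nat_lit 5)),((nat_lit 6), (nat_lit 7)),((nat_lit 6), (nat_lit 10)),((nat_lit 7), (nat_lit 4)),((nat_lit 7), (nat_lit 5)),((nat_lit 7), (nat_lit 6)),((nat_lit 7), (nat_lit 8)),((nat_lit 7), (nat_lit 9)),((nat_lit 7), (nat_lit 10)),((nat_lit 8), (nat_lit 0)),((nat_lit 8), (nat_lit 1)),((nat_lit 8), (nat_lit 5)),((nat_lit 8), (nat_lit 6)),((nat_lit 8), (nat_lit 8)),((nat_lit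 8), (nat_lit 9)),((nat_lit 9), (nat_lit 0)),((nat_lit 9), (nat_lit 2)),((nat_lit 9), (nat_lit 3)),((nat_lit 9), (nat_lit 4)),((nat_lit 9), (nat_lit 9)),((nat_lit 9), (nat_lit 10)),((nat_lit 10), (nat_lit 3)),((nat_lit 10), (nat_lit 5)),((nat_lit 10), (nat_lit 6)),((nat_lit 10), (nat_lit 7)),((nat_lit 10), (nat_lit 8)),((nat_lit 10), (nat_lit 10))]

/-- representatives -/
def P17 : List (ℕ × ℕ) := [((nat_lit 1), (nat_lit 0)),((nat_lit 1), (nat_lit 1)),((nat_lit 1), (nat_lit 2)),((nat_lit 1), (nat_lit 3)),((nat_lit 1), (nat_lit 4)),((nat_lit 1), (nat_lit 5)),((nat_lit 1), (nat_lit 6)),((nat_lit 1), (nat_lit 7)),((nat_lit 1), (nat_lit 8)),((nat_lit 1), (nat_lit 9)),((nat_lit 1), (nat_lit 10)),((nat_lit 1), (nat_lit 11)),((nat_lit 1), (nat_lit 12)),((nat_lit 1), (nat_lit 13)),((nat_lit 1), (nat_lit 14)),((nat_lit 1), (nat_lit 15)),((nat_lit 1), (nat_lit 16)),((nat_lit 0), (nat_lit 1))]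
/-- classes -/
def C17 : List (ℕ × ℕ) := [((nat_lit 0), (nat_lit 1)),((nat_lit 0), (nat_lit 4)),((nat_lit 0), (nat_lit 5)),((nat_lit 0), (nat_lit 6)),((nat_lit 0), (nat_lit 11)),((nat_lit 0), (nat_lit 12)),((nat_lit 0), (nat_lit 13)),((nat_lit 0), (nat_lit 16)),((nat_lit 1), (nat_lit 0)),((nat_lit 1), (nat_lit 2)),((nat_lit 1), (nat_lit 3)),((nat_lit 1), (nat_lit 6)),((nat_lit 1), (nat_lit 9)),((nat_lit 1), (nat_lit 12)),((nat_lit 1), (nat_lit 13)),((nat_lit 1), (nat_lit 15)),((nat_lit 2), (nat_lit 1)),((nat_lit 2), (nat_lit 2)),((nat_lit 2), (nat_lit 3)),((nat_lit 2), (nat_lit 4)),((nat_lit 2), (nat_lit 6)),((nat_lit 2), (nat_lit 9)),((nat_lit 2), (nat_lit 13)),((nat_lit 2), (nat_lit 16)),((nat_lit 3), (nat_lit 3)),((nat_lit 3), (nat_lit 4)),((nat_lit 3), (nat_lit 7)),((nat_lit 3), (nat_lit 9)),((nat_lit 3), (nat_lit 10)),((nat_lit 3), (nat_lit 12)),((nat_lit 3), (nat_lit 15)),((nat_lit 3), (nat_lit 16)),((nat_lit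 4), (nat_lit 0)),((nat_lit 4), (nat_lit 6)),((nat_lit 4), (nat_lit 8)),((nat_lit 4), (nat_lit 9)),((nat_lit 4), (nat_lit 10)),((nat_lit 4), (nat_lit 13)),((nat_lit 4), (nat_lit 14)),((nat_lit 4), (nat_lit 15)),((nat_lit 5), (nat_lit 0)),((nat_lit 5), (nat_lit 2)),((nat_lit 5), (nat_lit 4)),((nat_lit 5), (nat_lit 5)),((nat_lit 5), (nat_lit 8)),((nat_lit 5), (nat_lit 11)),((nat_lit 5), (nat_lit 14)),((nat_lit 5), (nat_lit 15)),((nat_lit 6), (nat_lit 0)),((nat_lit 6), (nat_lit 1)),((nat_lit 6), (nat_lit 3)),((nat_lit 6), (nat_lit 6)),((nat_lit 6), (nat_lit 10)),((nat_lit 6), (nat_lit 13)),((nat_lit 6), (nat_lit 15)),((nat_lit 6), (nat_lit 16)),((nat_lit 7), (nat_lit 4)),((nat_lit 7), (nat_lit 5)),((nat_lit 7), (nat_lit 6)),((nat_lit 7), (nat_lit 9)),((nat_lit 7), (nat_lit 11)),((nat_lit 7), (nat_lit 14)),((nat_lit 7), (nat_lit 15)),((nat_lit 7), (nat_lit 16)),((nat_lit 8), (nat_lit 1)),((nat_lit 8), (nat_lit 4)),((nat_lit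 8), (nat_lit 6)),((nat_lit 8), (nat_lit 7)),((nat_lit 8), (nat_lit 8)),((nat_lit 8), (nat_lit 9)),((nat_lit 8), (nat_lit 11)),((nat_lit 8), (nat_lit 14)),((nat_lit 9), (nat_lit 3)),((nat_lit 9), (nat_lit 6)),((nat_lit 9), (nat_lit 8)),((nat_lit 9), (nat_lit 9)),((nat_lit 9), (nat_lit 10)),((nat_lit 9), (nat_lit 11)),((nat_lit 9), (nat_lit 13)),((nat_lit 9), (nat_lit 16)),((nat_lit 10), (nat_lit 1)),((nat_lit 10), (nat_lit 2)),((nat_lit 10), (nat_lit 3)),((nat_lit 10), (nat_lit 6)),((nat_lit 10), (nat_lit 8)),((nat_lit 10), (nat_lit 11)),((nat_lit 10), (nat_lit 12)),((nat_lit 10), (nat_lit 13)),((nat_lit 11), (nat_lit 0)),((nat_lit 11), (nat_lit 1)),((nat_lit 11), (nat_lit 2)),((nat_lit 11), (nat_lit 4)),((nat_lit 11), (nat_lit 7)),((nat_lit 11), (nat_lit 11)),((nat_lit 11), (nat_lit 14)),((nat_lit 11), (nat_lit 16)),((nat_lit 12), (nat_lit 0)),((nat_lit 12), (nat_lit 2)),((nat_lit 12), (nat_lit 3)),((nat_lit 12), (nat_lit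 6)),((nat_lit 12), (nat_lit 9)),((nat_lit 12), (nat_lit 12)),((nat_lit 12), (nat_lit 13)),((nat_lit 12), (nat_lit 15)),((nat_lit 13), (nat_lit 0)),((nat_lit 13), (nat_lit 2)),((nat_lit 13), (nat_lit 3)),((nat_lit 13), (nat_lit 4)),((nat_lit 13), (nat_lit 7)),((nat_lit 13), (nat_lit 8)),((nat_lit 13), (nat_lit 9)),((nat_lit 13), (nat_lit 11)),((nat_lit 14), (nat_lit 1)),((nat_lit 14), (nat_lit 2)),((nat_lit 14), (nat_lit 5)),((nat_lit 14), (nat_lit 7)),((nat_lit 14), (nat_lit 8)),((nat_lit 14), (nat_lit 10)),((nat_lit 14), (nat_lit 13)),((nat_lit 14), (nat_lit 14)),((nat_lit 15), (nat_lit 1)),((nat_lit 15), (nat_lit 4)),((nat_lit 15), (nat_lit 8)),((nat_lit 15), (nat_lit 11)),((nat_lit 15), (nat_lit 13)),((nat_lit 15), (nat_lit 14)),((nat_lit 15), (nat_lit 15)),((nat_lit 15), (nat_lit 16)),((nat_lit 16), (nat_lit 0)),((nat_lit 16), (nat_lit 2)),((nat_lit 16), (nat_lit 4)),((nat_lit 16), (nat_lit 5)),((nat_lit 16), (nat_lit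 8)),((nat_lit 16), (nat_lit 11)),((nat_lit 16), (nat_lit 14)),((nat_lit 16), (nat_lit 15))]

end Pool.Agent.LibH4.T6


end

section

/-!
Kernel checks of the hypotheses on the characters, and class membership.
-/

namespace Pool.Agent.LibH4.T6

open Finset Ker

/-- multiplicativity and support check for one table -/
def tabCheck (n l T : ℕ) : Bool :=
  @Bool.rec (fun _ => Bool) false
    (allR (fun u => @Bool.rec (fun _ => Bool) (Nat.beq (ch T u) (nat_lit 0)) true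
      (Nat.beq (Nat.gcd u n) (nat_lit 1))) n)
    (allR (fun u => allR (fun v => Nat.beq (Nat.mod (ch T (Nat.mod (Nat.mul u v) n)) l)
      (Nat.mod (Nat.mul (ch T u) (ch T v)) l)) n) n)

lemma tabCheck_mul {n l T : ℕ} (h : tabCheck n l T = true) : ∀ u < n, ∀ v < n,
    (ch T (u * v % n) : ZMod l) = ch T u * ch T v := by
  intro u hu v hv
  unfold tabCheck at h
  cases h1 : (allR (fun u => allR (fun v => Nat.beq (Nat.mod (ch T (Nat.mod (Nat.mul u v) n)) l)
      (Nat.mod (Nat.mul (ch T u) (ch T v)) l)) n) n) with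
  | false => rw [h1] at h; simp at h
  | true =>
    have h2 := allR_spec (allR_spec h1 u hu) v hv
    have h3 : ch T (u * v % n) % l = ch T u * ch T v % l := Nat.eq_of_beq_eq_true h2
    have h4 := congrArg (fun x : ℕ => (x : ZMod l)) h3
    simp only [ZMod.natCast_mod] at h4
    rw [h4]; push_cast; rfl

lemma tabCheck_nu {n l T : ℕ} (h : tabCheck n l T = true) : ∀ u < n, ¬ u.Coprime n →
    ch T u = 0 := by
  intro u hu hc
  unfold tabCheck at h
  cases h1 : (allR (fun u => allR (fun v => Nat.beq (Nat.mod (ch T (Nat.mod (Nat.mul u v) n)) l)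
      (Nat.mod (Nat.mul (ch T u) (ch T v)) l)) n) n) with
  | false => rw [h1] at h; simp at h
  | true =>
    rw [h1] at h
    have h2 := allR_spec h u hu
    cases h3 : Nat.beq (Nat.gcd u n) (nat_lit 1) with
    | false =>
      rw [h3] at h2
      exact Nat.eq_of_beq_eq_true h2
    | true =>
      exact absurd (Nat.eq_of_beq_eq_true h3) hc

/-- parity and Bernoulli check -/
def obCheck (n1 n2 q l T1 T2 : ℕ) : Bool :=
  @Bool.rec (fun _ => Bool) false
    (Nat.beq (Nat.mod (sumR (fun u => Nat.mul u (Nat.mul (ch T1 (Nat.mod u n1))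
      (ch T2 (Nat.mod u n2)))) q) l) (nat_lit 0))
    (Nat.beq (Nat.mod (Nat.add (Nat.mul (ch T1 (Nat.sub n1 (nat_lit 1)))
      (ch T2 (Nat.sub n2 (nat_lit 1)))) (nat_lit 1)) l) (nat_lit 0))

lemma obCheck_odd {n1 n2 q l T1 T2 : ℕ} (h : obCheck n1 n2 q l T1 T2 = true) :
    (ch T1 (n1 - 1) : ZMod l) * (ch T2 (n2 - 1) : ZMod l) = -1 := by
  unfold obCheck at h
  cases h1 : (Nat.beq (Nat.mod (Nat.add (Nat.mul (ch T1 (Nat.sub n1 (nat_lit 1)))
      (ch T2 (Nat.sub n2 (nat_lit 1)))) (nat_lit 1)) l) (nat_lit 0)) with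
  | false => rw [h1] at h; simp at h
  | true =>
    have h2 : (ch T1 (n1 - 1) * ch T2 (n2 - 1) + 1) % l = 0 := Nat.eq_of_beq_eq_true h1
    rw [← Nat.dvd_iff_mod_eq_zero, ← ZMod.natCast_eq_zero_iff] at h2
    push_cast at h2
    linear_combination h2

lemma obCheck_bern {n1 n2 q l T1 T2 : ℕ} (h : obCheck n1 n2 q l T1 T2 = true) :
    ∑ u ∈ range q, (u : ZMod l) * ((ch T1 (u % n1) : ZMod l) * (ch T2 (u % n2) : ZMod l)) = 0 := by
  unfold obCheck at h
  cases h1 : (Nat.beq (Nat.mod (Nat.add (Nat.mul (ch T1 (Nat.sub n1 (nat_lit 1)))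
      (ch T2 (Nat.sub n2 (nat_lit 1)))) (nat_lit 1)) l) (nat_lit 0)) with
  | false => rw [h1] at h; simp at h
  | true =>
    rw [h1] at h
    have h2 : (sumR (fun u => u * (ch T1 (u % n1) * ch T2 (u % n2))) q) % l = 0 :=
      Nat.eq_of_beq_eq_true h
    rw [← Nat.dvd_iff_mod_eq_zero, ← ZMod.natCast_eq_zero_iff, sumR_eq] at h2
    push_cast at h2
    exact h2

lemma mkHyp {n1 n2 l e1 e2 T1 T2 : ℕ} {L1 L2 : List (ℕ × ℕ)} [NeZero n1] [NeZero n2]
    [NeZero (n1 * n2)] (co : n1.Coprime n2) (h11 : e1 % n1 = 1 % n1) (h12 : e1 % n2 = 0)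
    (h21 : e2 % n1 = 0) (h22 : e2 % n2 = 1 % n2) (t1 : tabCheck n1 l T1 = true)
    (t2 : tabCheck n2 l T2 = true) (ob : obCheck n1 n2 (n1 * n2) l T1 T2 = true)
    (p1 : IsP1 n1 L1) (p2 : IsP1 n2 L2) (len1 : L1.length ≤ 100) (len2 : L2.length ≤ 32)
    (l3 : 3 ≤ l) (l16 : l ≤ 16) (qle : n1 * n2 ≤ 1000) :
    Hyp n1 n2 l e1 e2 T1 T2 L1 L2 where
  co := co
  h11 := by
    rw [← Nat.cast_one, ZMod.natCast_eq_natCast_iff]; exact h11
  h12 := by
    rw [ZMod.natCast_eq_zero_iff]; exact Nat.dvd_of_mod_eq_zero h12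
  h21 := by
    rw [ZMod.natCast_eq_zero_iff]; exact Nat.dvd_of_mod_eq_zero h21
  h22 := by
    rw [← Nat.cast_one, ZMod.natCast_eq_natCast_iff]; exact h22
  mul1 := tabCheck_mul t1
  mul2 := tabCheck_mul t2
  nu1 := tabCheck_nu t1
  nu2 := tabCheck_nu t2
  odd := obCheck_odd ob
  bern := obCheck_bern ob
  p1 := p1
  p2 := p2
  len1 := len1
  len2 := len2
  l3 := l3
  l16 := l16
  qle := qle

/-! ### projective lines for the small moduli -/

lemma isP1_7 : IsP1 7 P7 := by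
  have := isP1_prime_pow (p := 7) (k := 1) (by norm_num) (by norm_num)
  have e : p1List 7 (7 ^ 1) = P7 := by decide +kernel
  rw [e] at this
  exact this

lemma isP1_13 : IsP1 13 P13 := by
  have := isP1_prime_pow (p := 13) (k := 1) (by norm_num) (by norm_num)
  have e : p1List 13 (13 ^ 1) = P13 := by decide +kernel
  rw [e] at this
  exact this

lemma isP1_11 : IsP1 11 P11 := by
  have := isP1_prime_pow (p := 11) (k := 1) (by norm_num) (by norm_num)
  have e : p1List 11 (11 ^ 1) = P11 := by decide +kernel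
  rw [e] at this
  exact this

lemma isP1_17 : IsP1 17 P17 := by
  have := isP1_prime_pow (p := 17) (k := 1) (by norm_num) (by norm_num)
  have e : p1List 17 (17 ^ 1) = P17 := by decide +kernel
  rw [e] at this
  exact this

lemma isP1_9 : IsP1 9 P9 := by
  have := isP1_prime_pow (p := 3) (k := 2) (by norm_num) (by norm_num)
  have e : p1List 3 (3 ^ 2) = P9 := by decide +kernel
  rw [e] at this
  exact this

lemma isP1_16 : IsP1 16 P16 := by
  have := isP1_prime_pow (p := 2) (k := 4) (by norm_num) (by norm_num)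
  have e : p1List 2 (2 ^ 4) = P16 := by decide +kernel
  rw [e] at this
  exact this

lemma isP1_15 : IsP1 15 P15 := by
  have h3 := isP1_prime_pow (p := 3) (k := 1) (by norm_num) (by norm_num)
  have h5 := isP1_prime_pow (p := 5) (k := 1) (by norm_num) (by norm_num)
  have := isP1_mul (n1 := 3 ^ 1) (n2 := 5 ^ 1) (by norm_num) (e1 := 10) (e2 := 6) (by decide)
    (by decide) (by decide) (by decide) h3 h5
  have e : crtList 10 6 (p1List 3 (3 ^ 1)) (p1List 5 (5 ^ 1)) = P15 := by decide +kernel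
  rw [e] at this
  exact this

lemma isP1_20 : IsP1 20 P20 := by
  have h3 := isP1_prime_pow (p := 2) (k := 2) (by norm_num) (by norm_num)
  have h5 := isP1_prime_pow (p := 5) (k := 1) (by norm_num) (by norm_num)
  have := isP1_mul (n1 := 2 ^ 2) (n2 := 5 ^ 1) (by norm_num) (e1 := 5) (e2 := 16) (by decide)
    (by decide) (by decide) (by decide) h3 h5
  have e : crtList 5 16 (p1List 2 (2 ^ 2)) (p1List 5 (5 ^ 1)) = P20 := by decide +kernel
  rw [e] at this
  exact this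

end Pool.Agent.LibH4.T6


end
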