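import Mathlib
import Pool.Agent.RQM.C12a

/-! Parts: Lib_helper4.T6Sound3, Lib_helper4.T6Sound4, Lib_helper4.T6Cls, Lib_helper4.KF, Lib_helper4.KFSound -/

namespace Pool.Agent.LibH4.Ker
end Pool.Agent.LibH4.Ker
namespace Pool.Agent.LibH4.T6
end Pool.Agent.LibH4.T6

section

/-!
Soundness of the table computations: forms and rows.
-/

namespace Pool.Agent.LibH4.T6

open Finset Ker

/-! ### forms -/

section Forms

variable {n : ℕ} [NeZero n]

omit [NeZero n] in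
lemma fB_cast (a t : ℕ) : ((fB n (a % n) (t % n) : ℕ) : ZMod n) =
    (((a ^ 2 + 1) * t + a : ℕ) : ZMod n) := by
  have : fB n (a % n) (t % n) = ((a % n * (a % n) + 1) * (t % n) + a % n) % n := rfl
  rw [this, ZMod.natCast_mod]
  push_cast
  rw [ZMod.natCast_mod, ZMod.natCast_mod]
  ring

omit [NeZero n] in
lemma fm_cast (a t : ℕ) : ((fm n (a % n) (t % n) : ℕ) : ZMod n) = ((1 + a * t : ℕ) : ZMod n) := by
  have : fm n (a % n) (t % n) = (a % n * (t % n) + 1) % n := rfl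
  rw [this, ZMod.natCast_mod]
  push_cast
  rw [ZMod.natCast_mod, ZMod.natCast_mod]
  ring

lemma fnm_cast (a t : ℕ) : ((fnm n (fm n (a % n) (t % n)) : ℕ) : ZMod n) =
    -((1 + a * t : ℕ) : ZMod n) := by
  have hn : 0 < n := Nat.pos_of_ne_zero (NeZero.ne n)
  have h1 : fm n (a % n) (t % n) ≤ n := (Nat.mod_lt _ hn).le
  have : fnm n (fm n (a % n) (t % n)) = n - fm n (a % n) (t % n) := rfl
  rw [this, Nat.cast_sub h1, fm_cast]
  simp

lemma fk_cast (a t : ℕ) : ((fk n (a % n) (fm n (a % n) (t % n)) (fB n (a % n) (t % n)) : ℕ) : ZMod n) =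
    2 * ((1 + a * t : ℕ) : ZMod n) * a - (((a ^ 2 + 1) * t + a : ℕ) : ZMod n) := by
  have hn : 1 ≤ n := Nat.pos_of_ne_zero (NeZero.ne n)
  have : fk n (a % n) (fm n (a % n) (t % n)) (fB n (a % n) (t % n)) =
    (2 * fm n (a % n) (t % n) * (a % n) + (n - 1) * fB n (a % n) (t % n)) % n := rfl
  rw [this, ZMod.natCast_mod, Nat.cast_add, Nat.cast_mul, Nat.cast_mul, Nat.cast_mul,
    Nat.cast_sub hn, fm_cast, fB_cast, ZMod.natCast_mod]
  simp
  ring

/-- the value of the first form -/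
lemma N1_val (a t x y : ℕ) : N1 n (fB n (a % n) (t % n)) (fnm n (fm n (a % n) (t % n))) x y =
    (F1 a t (x : ZMod n) (y : ZMod n)).val := by
  have h1 : N1 n (fB n (a % n) (t % n)) (fnm n (fm n (a % n) (t % n))) x y =
    (x * (x + fB n (a % n) (t % n) * y) + fnm n (fm n (a % n) (t % n)) * (y * y)) % n := rfl
  rw [h1, ← ZMod.val_natCast]
  congr 1
  unfold F1
  push_cast [fB_cast, fnm_cast]
  ring

/-- the value of the second form -/
lemma N3_val (a t x y : ℕ) : N3 n (fm n (a % n) (t % n))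
    (fk n (a % n) (fm n (a % n) (t % n)) (fB n (a % n) (t % n))) (fnm n (fm n (a % n) (t % n))) x y =
    (F3 a t (x : ZMod n) (y : ZMod n)).val := by
  have h1 : N3 n (fm n (a % n) (t % n))
    (fk n (a % n) (fm n (a % n) (t % n)) (fB n (a % n) (t % n))) (fnm n (fm n (a % n) (t % n))) x y =
    (x * (fm n (a % n) (t % n) * x + fk n (a % n) (fm n (a % n) (t % n)) (fB n (a % n) (t % n)) * y)
      + fnm n (fm n (a % n) (t % n)) * (y * y)) % n := rfl
  rw [h1, ← ZMod.val_natCast]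
  congr 1
  unfold F3
  push_cast [fk_cast, fnm_cast, fm_cast]
  ring

end Forms

section Char2

variable {n1 n2 l e1 e2 T1 T2 : ℕ} {L1 L2 : List (ℕ × ℕ)} [NeZero n1] [NeZero n2]
    [NeZero (n1 * n2)]

omit [NeZero n1] [NeZero n2] in
lemma chiF_castHom (z : ZMod (n1 * n2)) : chiF n1 n2 l T1 T2 z =
    (ch T1 (ZMod.castHom (dvd_mul_right n1 n2) (ZMod n1) z).val : ZMod l) *
    (ch T2 (ZMod.castHom (dvd_mul_left n2 n1) (ZMod n2) z).val : ZMod l) := by
  rw [ZMod.castHom_apply, ZMod.castHom_apply, ZMod.cast_eq_val, ZMod.cast_eq_val,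
    ZMod.val_natCast, ZMod.val_natCast]
  rfl

omit [NeZero n1] [NeZero n2] [NeZero (n1 * n2)] in
lemma map_F1 {R : ℕ} (h : R ∣ n1 * n2) (a t : ℕ) (x y : ZMod (n1 * n2)) :
    ZMod.castHom h (ZMod R) (F1 a t x y) = F1 a t (ZMod.castHom h (ZMod R) x)
      (ZMod.castHom h (ZMod R) y) := by
  unfold F1
  simp only [map_add, map_mul, map_pow, map_neg, map_natCast, map_one]

omit [NeZero n1] [NeZero n2] [NeZero (n1 * n2)] in
lemma map_F3 {R : ℕ} (h : R ∣ n1 * n2) (a t : ℕ) (x y : ZMod (n1 * n2)) :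
    ZMod.castHom h (ZMod R) (F3 a t x y) = F3 a t (ZMod.castHom h (ZMod R) x)
      (ZMod.castHom h (ZMod R) y) := by
  unfold F3
  simp only [map_add, map_sub, map_mul, map_pow, map_neg, map_natCast, map_ofNat]

/-- values of the character on the first form -/
lemma chiF_F1 (H : Hyp n1 n2 l e1 e2 T1 T2 L1 L2) (a t : ℕ) (P Q : ℕ × ℕ) :
    chiF n1 n2 l T1 T2 (F1 a t ((P.1 * e1 + Q.1 * e2 : ℕ) : ZMod (n1 * n2))
      ((P.2 * e1 + Q.2 * e2 : ℕ) : ZMod (n1 * n2))) =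
    (ch T1 (N1 n1 (fB n1 (a % n1) (t % n1)) (fnm n1 (fm n1 (a % n1) (t % n1))) P.1 P.2) : ZMod l) *
    (ch T2 (N1 n2 (fB n2 (a % n2) (t % n2)) (fnm n2 (fm n2 (a % n2) (t % n2))) Q.1 Q.2) : ZMod l) := by
  rw [chiF_castHom, map_F1, map_F1, N1_val, N1_val]
  simp only [map_natCast]
  push_cast
  rw [H.h11, H.h12, H.h21, H.h22]
  simp

/-- values of the character on the second form -/
lemma chiF_F3 (H : Hyp n1 n2 l e1 e2 T1 T2 L1 L2) (a t : ℕ) (P Q : ℕ × ℕ) :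
    chiF n1 n2 l T1 T2 (F3 a t ((P.1 * e1 + Q.1 * e2 : ℕ) : ZMod (n1 * n2))
      ((P.2 * e1 + Q.2 * e2 : ℕ) : ZMod (n1 * n2))) =
    (ch T1 (N3 n1 (fm n1 (a % n1) (t % n1))
      (fk n1 (a % n1) (fm n1 (a % n1) (t % n1)) (fB n1 (a % n1) (t % n1)))
      (fnm n1 (fm n1 (a % n1) (t % n1))) P.1 P.2) : ZMod l) *
    (ch T2 (N3 n2 (fm n2 (a % n2) (t % n2))
      (fk n2 (a % n2) (fm n2 (a % n2) (t % n2)) (fB n2 (a % n2) (t % n2)))
      (fnm n2 (fm n2 (a % n2) (t % n2))) Q.1 Q.2) : ZMod l) := by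
  rw [chiF_castHom, map_F3, map_F3, N3_val, N3_val]
  simp only [map_natCast]
  push_cast
  rw [H.h11, H.h12, H.h21, H.h22]
  simp

/-- first form value of a class -/
def v1 (n T a t : ℕ) (P : ℕ × ℕ) : ℕ :=
  ch T (N1 n (fB n (a % n) (t % n)) (fnm n (fm n (a % n) (t % n))) P.1 P.2)
/-- second form value of a class -/
def v3 (n T a t : ℕ) (P : ℕ × ℕ) : ℕ :=
  ch T (N3 n (fm n (a % n) (t % n))
      (fk n (a % n) (fm n (a % n) (t % n)) (fB n (a % n) (t % n)))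
      (fnm n (fm n (a % n) (t % n))) P.1 P.2)

/-- the relation as a double sum over lists -/
lemma zrel2 (H : Hyp n1 n2 l e1 e2 T1 T2 L1 L2) (a t : ℕ)
    (h : T5Eq a t (n1 * n2) l (chiF n1 n2 l T1 T2)) :
    (L1.map fun P => (L2.map fun Q =>
      ((v1 n1 T1 a t P : ZMod l) * (v1 n2 T2 a t Q : ZMod l)) *
      (6 * DZ (chiF n1 n2 l T1 T2) ((P.1 * e1 + Q.1 * e2 : ℕ) : ZMod (n1 * n2))
          ((P.2 * e1 + Q.2 * e2 : ℕ) : ZMod (n1 * n2)) +
        (((a ^ 2 + 1) * t + a : ℕ) : ZMod l) *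
        EZ (chiF n1 n2 l T1 T2) ((P.2 * e1 + Q.2 * e2 : ℕ) : ZMod (n1 * n2)) -
        2 * (a : ZMod l) * EZ (chiF n1 n2 l T1 T2) ((P.1 * e1 + Q.1 * e2 : ℕ) : ZMod (n1 * n2))) +
      ((v3 n1 T1 a t P : ZMod l) * (v3 n2 T2 a t Q : ZMod l)) *
      (3 * DZ (chiF n1 n2 l T1 T2) ((P.1 * e1 + Q.1 * e2 : ℕ) : ZMod (n1 * n2))
          ((P.2 * e1 + Q.2 * e2 : ℕ) : ZMod (n1 * n2)))).sum).sum = 0 := by
  have hL := isP1_mul H.co H.h11 H.h12 H.h21 H.h22 H.p1 H.p2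
  have h0 := zrel hL _ (chiF_mul H) (chiF_nu H) a t h
  unfold crtList at h0
  rw [list_sum_flatMap] at h0
  rw [← h0]
  congr 1
  apply List.map_congr_left
  intro P _
  rw [List.map_map]
  congr 1
  apply List.map_congr_left
  intro Q _
  simp only [Function.comp]
  rw [chiF_F1 H, chiF_F3 H]
  rfl

end Char2

end Pool.Agent.LibH4.T6


end

section

/-!
Soundness of the table computations: the final statement.
-/

namespace Pool.Agent.LibH4.T6

open Finset Ker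

/-- relation check -/
def chk (l e a t : ℕ) : Bool := strict e fun e => strict (fB l a t) fun B =>
  Nat.beq (Nat.mod (Nat.add (dg (nat_lit 16) e (nat_lit 0)) (Nat.add (Nat.mul B (dg (nat_lit 16) e (nat_lit 1)))
    (Nat.mul (Nat.mul (Nat.mul (nat_lit 2) (Nat.sub l (nat_lit 1))) a) (dg (nat_lit 16) e (nat_lit 2))))) l) (nat_lit 0)

lemma list_sum_lt {α : Type} (L : List α) (f : α → ℕ) (c b : ℕ) (h : ∀ x ∈ L, f x ≤ c)
    (hb : L.length * c < b) : (L.map f).sum < b := by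
  have : (L.map f).sum ≤ (L.map f).length • c := by
    apply List.sum_le_card_nsmul
    intro y hy
    obtain ⟨x, hx, rfl⟩ := List.mem_map.mp hy
    exact h x hx
  rw [List.length_map, smul_eq_mul] at this
  omega

/-- digits of a triple -/
lemma dg_triple {x y z : ℕ} (hx : x < 2 ^ 16) (hy : y < 2 ^ 16) (hz : z < 2 ^ 16) :
    dg 16 (x + 2 ^ 16 * y + 2 ^ 32 * z) 0 = x ∧ dg 16 (x + 2 ^ 16 * y + 2 ^ 32 * z) 1 = y ∧
    dg 16 (x + 2 ^ 16 * y + 2 ^ 32 * z) 2 = z := by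
  simp only [dg_eq]
  norm_num
  norm_num at hx hy hz
  omega

lemma triple_lt {x y z : ℕ} (hx : x < 2 ^ 16) (hy : y < 2 ^ 16) (hz : z < 2 ^ 16) :
    x + 2 ^ 16 * y + 2 ^ 32 * z < 2 ^ 48 := by
  norm_num at hx hy hz ⊢
  omega

/-- low digits are not changed by higher blocks -/
lemma dg_low (f R i : ℕ) (hi : i < 3) (_hf : f < 2 ^ 48) : dg 16 (f + 2 ^ 48 * R) i = dg 16 f i := by
  simp only [dg_eq]
  interval_cases i
  · norm_num
    omega
  · norm_num
    omega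
  · norm_num
    omega

/-- the combination coefficients -/
def coA (l u : ℕ) : ℕ := 6 * (dg 16 u 0 % l) + (2 ^ 16 * (dg 16 u 1 % l) + 2 ^ 32 * (dg 16 u 2 % l))
/-- the combination coefficients -/
def coC (l u : ℕ) : ℕ := 3 * (dg 16 u 0 % l)

lemma rowS_eq (l : ℕ) (Y1 Y3 : ℕ × ℕ → ℕ) (f1 f3 : ℕ × ℕ → ℕ) (L : List (ℕ × ℕ))
    (h1 : ∀ Q ∈ L, f1 Q < 2 ^ 48) (h3 : ∀ Q ∈ L, f3 Q < 2 ^ 48) :
    rowS l (L.map fun Q => ((Q, Y1 Q), Y3 Q)) (packL (2 ^ 48) f1 L) (packL (2 ^ 48) f3 L) =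
      (L.map fun Q => coA l (f1 Q) * Y1 Q + coC l (f3 Q) * Y3 Q).sum := by
  induction L with
  | nil => rfl
  | cons Q Qs ih =>
    rw [List.map_cons, List.map_cons, List.sum_cons, packL_cons, packL_cons,
      ← ih (fun y hy => h1 y (by simp [hy])) (fun y hy => h3 y (by simp [hy]))]
    have g1 := h1 Q (by simp)
    have g3 := h3 Q (by simp)
    set R1 := packL (2 ^ 48) f1 Qs with hR1
    set R3 := packL (2 ^ 48) f3 Qs with hR3
    have key : rowS l (((Q, Y1 Q), Y3 Q) :: Qs.map fun Q => ((Q, Y1 Q), Y3 Q))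
        (f1 Q + 2 ^ 48 * R1) (f3 Q + 2 ^ 48 * R3) =
        strict ((f1 Q + 2 ^ 48 * R1) / 281474976710656) (fun V1 =>
        strict ((f3 Q + 2 ^ 48 * R3) / 281474976710656) (fun V3 =>
        ((6 * (dg 16 (f1 Q + 2 ^ 48 * R1) 0 % l) + (65536 * (dg 16 (f1 Q + 2 ^ 48 * R1) 1 % l) +
          4294967296 * (dg 16 (f1 Q + 2 ^ 48 * R1) 2 % l))) * Y1 Q +
          3 * (dg 16 (f3 Q + 2 ^ 48 * R3) 0 % l) * Y3 Q) +
          rowS l (Qs.map fun Q => ((Q, Y1 Q), Y3 Q)) V1 V3)) := rfl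
    rw [key, strict_eq, strict_eq, dg_low _ _ _ (by norm_num) g1, dg_low _ _ _ (by norm_num) g1,
      dg_low _ _ _ (by norm_num) g1, dg_low _ _ _ (by norm_num) g3]
    have d1 : (f1 Q + 2 ^ 48 * R1) / 281474976710656 = R1 := by
      norm_num at g1 ⊢
      omega
    have d3 : (f3 Q + 2 ^ 48 * R3) / 281474976710656 = R3 := by
      norm_num at g3 ⊢
      omega
    rw [d1, d3]
    unfold coA coC
    norm_num

section Main

variable {n1 n2 l e1 e2 T1 T2 : ℕ} {L1 L2 : List (ℕ × ℕ)} [NeZero n1] [NeZero n2]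
    [NeZero (n1 * n2)]

/-- table of squares of the character -/
def CTf (n1 n2 l T1 T2 : ℕ) : ℕ := packR 4 (fun x => (ch T1 (x % n1) * ch T2 (x % n2)) *
  (ch T1 (x % n1) * ch T2 (x % n2)) % l) (n1 * n2)
/-- table of linear weights -/
def BTf (q l : ℕ) : ℕ := packR 4 (bet q l) q
/-- table of quadratic weights -/
def GTf (q l : ℕ) : ℕ := packR 4 (gam q l) q

/-- the weights -/
def gW (n1 n2 l e1 e2 T1 T2 : ℕ) (P Q : ℕ × ℕ) : ℕ :=
  dfull (n1 * n2) l (CTf n1 n2 l T1 T2) (BTf (n1 * n2) l) (GTf (n1 * n2) l)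
    ((P.1 * e1 + Q.1 * e2) % (n1 * n2)) ((P.2 * e1 + Q.2 * e2) % (n1 * n2))

/-- the weight components -/
def wD (n1 n2 l e1 e2 T1 T2 : ℕ) (P Q : ℕ × ℕ) : ℕ :=
  sD (n1 * n2) (CTf n1 n2 l T1 T2) (BTf (n1 * n2) l)
    ((P.1 * e1 + Q.1 * e2) % (n1 * n2)) ((P.2 * e1 + Q.2 * e2) % (n1 * n2)) % l
/-- the weight components -/
def wE1 (n1 n2 l e1 e2 T1 T2 : ℕ) (P Q : ℕ × ℕ) : ℕ :=
  sE (n1 * n2) (CTf n1 n2 l T1 T2) (GTf (n1 * n2) l) ((P.2 * e1 + Q.2 * e2) % (n1 * n2)) % l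
/-- the weight components -/
def wE2 (n1 n2 l e1 e2 T1 T2 : ℕ) (P Q : ℕ × ℕ) : ℕ :=
  sE (n1 * n2) (CTf n1 n2 l T1 T2) (GTf (n1 * n2) l) ((P.1 * e1 + Q.1 * e2) % (n1 * n2)) % l

omit [NeZero n1] [NeZero n2] [NeZero (n1 * n2)] in
lemma check_unfold (J : ℕ) (D1 D2 : List (ℕ × ℕ)) (TB : ℕ) :
    check n1 n2 (n1 * n2) l e1 e2 T1 T2 J L1 L2 D1 D2 TB =
      allI (fun i c => Nat.beq (dg (48 * J) TB i) (row n1 l T1
        (L1.map fun P => (P, packL (2 ^ 48) (gW n1 n2 l e1 e2 T1 T2 P) L2))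
        (L2.map fun Q => ((Q, ycol1 n2 T2 D2 Q), ycol3 n2 T2 D2 Q)) c)) D1 0 := by
  unfold check
  rw [strict_eq, strict_eq, strict_eq, mapK_eq, mapK_eq, mapK_eq]
  have hC : packR 4 (fun x => strict (Nat.mul (ch T1 (Nat.mod x n1)) (ch T2 (Nat.mod x n2)))
      fun y => Nat.mod (Nat.mul y y) l) (n1 * n2) = CTf n1 n2 l T1 T2 := by
    unfold CTf
    congr 1
    funext x
    rw [strict_eq]
    rfl
  have hD : ∀ P, drow (n1 * n2) l e1 e2 (CTf n1 n2 l T1 T2) (BTf (n1 * n2) l) (GTf (n1 * n2) l)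
      L2 P = packL (2 ^ 48) (gW n1 n2 l e1 e2 T1 T2 P) L2 := by
    intro P
    unfold drow
    have : (281474976710656 : ℕ) = 2 ^ 48 := by norm_num
    rw [← this]
    apply packL_congr
    intro Q _
    rw [strict_eq, strict_eq]
    rfl
  rw [hC]
  have hM : (L1.map fun x => (x, drow (n1 * n2) l e1 e2 (CTf n1 n2 l T1 T2)
      (packR 4 (bet (n1 * n2) l) (n1 * n2)) (packR 4 (gam (n1 * n2) l) (n1 * n2)) L2 x)) =
      (L1.map fun P => (P, packL (2 ^ 48) (gW n1 n2 l e1 e2 T1 T2 P) L2)) := by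
    apply List.map_congr_left
    intro P _
    rw [← hD]
    rfl
  rw [hM, List.map_map]
  rfl

omit [NeZero n1] [NeZero n2] [NeZero (n1 * n2)] in
/-- the row as a packed list -/
lemma row_eq (H3 : 3 ≤ l) (H16 : l ≤ 16) (Hq : n1 * n2 ≤ 1000) (Hl1 : L1.length ≤ 100)
    (D2 : List (ℕ × ℕ)) (a t : ℕ) :
    row n1 l T1 (L1.map fun P => (P, packL (2 ^ 48) (gW n1 n2 l e1 e2 T1 T2 P) L2))
        (L2.map fun Q => ((Q, ycol1 n2 T2 D2 Q), ycol3 n2 T2 D2 Q)) (a % n1, t % n1) =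
      packL (2 ^ 48) (fun c => (L2.map fun Q =>
        (coA l ((L1.map fun P => v1 n1 T1 a t P * gW n1 n2 l e1 e2 T1 T2 P Q).sum)) *
          ch T2 (N1 n2 (fB n2 c.1 c.2) (fnm n2 (fm n2 c.1 c.2)) Q.1 Q.2) +
        (coC l ((L1.map fun P => v3 n1 T1 a t P * gW n1 n2 l e1 e2 T1 T2 P Q).sum)) *
          ch T2 (N3 n2 (fm n2 c.1 c.2) (fk n2 c.1 (fm n2 c.1 c.2) (fB n2 c.1 c.2))
            (fnm n2 (fm n2 c.1 c.2)) Q.1 Q.2)).sum) D2 := by
  have hgW : ∀ P Q, gW n1 n2 l e1 e2 T1 T2 P Q = wD n1 n2 l e1 e2 T1 T2 P Q +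
      2 ^ 16 * wE1 n1 n2 l e1 e2 T1 T2 P Q + 2 ^ 32 * wE2 n1 n2 l e1 e2 T1 T2 P Q := by
    intro P Q
    exact dfull_eq _ _ _ _ _ _ _ Hq
  have hlt : ∀ (v : ℕ × ℕ → ℕ) (hv : ∀ P, v P < 16) (Q : ℕ × ℕ),
      (L1.map fun P => v P * gW n1 n2 l e1 e2 T1 T2 P Q).sum < 2 ^ 48 := by
    intro v hv Q
    apply list_sum_lt L1 _ (15 * (15 + 2 ^ 16 * 15 + 2 ^ 32 * 15))
    · intro P _
      have h1 : v P ≤ 15 := by have := hv P; omega
      have hl : 0 < l := by omega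
      have h2 : wD n1 n2 l e1 e2 T1 T2 P Q ≤ 15 := by
        have := Nat.mod_lt (sD (n1 * n2) (CTf n1 n2 l T1 T2) (BTf (n1 * n2) l)
          ((P.1 * e1 + Q.1 * e2) % (n1 * n2)) ((P.2 * e1 + Q.2 * e2) % (n1 * n2))) hl
        unfold wD; omega
      have h3 : wE1 n1 n2 l e1 e2 T1 T2 P Q ≤ 15 := by
        have := Nat.mod_lt (sE (n1 * n2) (CTf n1 n2 l T1 T2) (GTf (n1 * n2) l)
          ((P.2 * e1 + Q.2 * e2) % (n1 * n2))) hl
        unfold wE1; omega
      have h4 : wE2 n1 n2 l e1 e2 T1 T2 P Q ≤ 15 := by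
        have := Nat.mod_lt (sE (n1 * n2) (CTf n1 n2 l T1 T2) (GTf (n1 * n2) l)
          ((P.1 * e1 + Q.1 * e2) % (n1 * n2))) hl
        unfold wE2; omega
      rw [hgW]
      apply Nat.mul_le_mul h1
      have h5 : 2 ^ 16 * wE1 n1 n2 l e1 e2 T1 T2 P Q ≤ 2 ^ 16 * 15 := Nat.mul_le_mul_left _ h3
      have h6 : 2 ^ 32 * wE2 n1 n2 l e1 e2 T1 T2 P Q ≤ 2 ^ 32 * 15 := Nat.mul_le_mul_left _ h4
      omega
    · have : L1.length * (15 * (15 + 2 ^ 16 * 15 + 2 ^ 32 * 15)) ≤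
          100 * (15 * (15 + 2 ^ 16 * 15 + 2 ^ 32 * 15)) := Nat.mul_le_mul_right _ Hl1
      norm_num at this ⊢
      omega
  have hv1 : ∀ P, v1 n1 T1 a t P < 16 := fun P => ch_lt _ _
  have hv3 : ∀ P, v3 n1 T1 a t P < 16 := fun P => ch_lt _ _
  have hU1 : sumL (fun x : (ℕ × ℕ) × ℕ => Nat.mul (ch T1 (N1 n1 (fB n1 (a % n1) (t % n1))
      (fnm n1 (fm n1 (a % n1) (t % n1))) x.1.1 x.1.2)) x.2)
      (L1.map fun P => (P, packL (2 ^ 48) (gW n1 n2 l e1 e2 T1 T2 P) L2)) =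
      packL (2 ^ 48) (fun Q => (L1.map fun P => v1 n1 T1 a t P *
        gW n1 n2 l e1 e2 T1 T2 P Q).sum) L2 := by
    rw [sumL_eq, List.map_map, ← packL_sum]
    rfl
  have hU3 : sumL (fun x : (ℕ × ℕ) × ℕ => Nat.mul (ch T1 (N3 n1 (fm n1 (a % n1) (t % n1))
      (fk n1 (a % n1) (fm n1 (a % n1) (t % n1)) (fB n1 (a % n1) (t % n1)))
      (fnm n1 (fm n1 (a % n1) (t % n1))) x.1.1 x.1.2)) x.2)
      (L1.map fun P => (P, packL (2 ^ 48) (gW n1 n2 l e1 e2 T1 T2 P) L2)) =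
      packL (2 ^ 48) (fun Q => (L1.map fun P => v3 n1 T1 a t P *
        gW n1 n2 l e1 e2 T1 T2 P Q).sum) L2 := by
    rw [sumL_eq, List.map_map, ← packL_sum]
    rfl
  unfold row withC
  simp only [strict_eq]
  rw [hU1, hU3, rowS_eq _ _ _ _ _ _ (fun Q _ => hlt _ hv1 Q) (fun Q _ => hlt _ hv3 Q)]
  have hy1 : ∀ Q, ycol1 n2 T2 D2 Q = packL (2 ^ 48) (fun c => ch T2 (N1 n2 (fB n2 c.1 c.2)
      (fnm n2 (fm n2 c.1 c.2)) Q.1 Q.2)) D2 := by
    intro Q
    unfold ycol1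
    have : (281474976710656 : ℕ) = 2 ^ 48 := by norm_num
    rw [← this]
    apply packL_congr
    intro c _
    unfold withC
    simp only [strict_eq]
  have hy3 : ∀ Q, ycol3 n2 T2 D2 Q = packL (2 ^ 48) (fun c => ch T2 (N3 n2 (fm n2 c.1 c.2)
      (fk n2 c.1 (fm n2 c.1 c.2) (fB n2 c.1 c.2)) (fnm n2 (fm n2 c.1 c.2)) Q.1 Q.2)) D2 := by
    intro Q
    unfold ycol3
    have : (281474976710656 : ℕ) = 2 ^ 48 := by norm_num
    rw [← this]
    apply packL_congr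
    intro c _
    unfold withC
    simp only [strict_eq]
  simp only [hy1, hy3]
  rw [List.sum_map_add, packL_sum, packL_sum, ← packL_add]
  apply packL_congr
  intro c _
  rw [← List.sum_map_add]

omit [NeZero n1] [NeZero n2] [NeZero (n1 * n2)] in
lemma list_sum_comm {α β K : Type} [AddCommMonoid K] (L : List α) (M : List β) (f : α → β → K) :
    (L.map fun P => (M.map fun Q => f P Q).sum).sum =
      (M.map fun Q => (L.map fun P => f P Q).sum).sum := by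
  induction L with
  | nil => simp
  | cons P Ps ih =>
    simp only [List.map_cons, List.sum_cons]
    rw [ih, ← List.sum_map_add]

lemma CTf_spec (H : Hyp n1 n2 l e1 e2 T1 T2 L1 L2) (z : ℕ) (hz : z < n1 * n2) :
    (ch (CTf n1 n2 l T1 T2) z : ZMod l) = chiF n1 n2 l T1 T2 (z : ZMod (n1 * n2)) ^ 2 := by
  have h3 := H.l3
  have h16 := H.l16
  unfold CTf
  rw [ch_packR (f := fun x => (ch T1 (x % n1) * ch T2 (x % n2)) *
  (ch T1 (x % n1) * ch T2 (x % n2)) % l) (fun m => (Nat.mod_lt _ (by omega)).trans_le h16) hz,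
    ZMod.natCast_mod, chiF_natCast]
  push_cast
  ring

lemma BTf_spec (H : Hyp n1 n2 l e1 e2 T1 T2 L1 L2) (z : ℕ) (hz : z < n1 * n2) :
    (ch (BTf (n1 * n2) l) z : ZMod l) = bI (n1 * n2) l z := by
  have h3 := H.l3
  have h16 := H.l16
  unfold BTf
  rw [ch_packR (fun m => bet_lt _ _ _ (by omega) h16) hz, bet_cast _ _ _ (by omega)]

lemma GTf_spec (H : Hyp n1 n2 l e1 e2 T1 T2 L1 L2) (z : ℕ) (hz : z < n1 * n2) :
    (ch (GTf (n1 * n2) l) z : ZMod l) = b2I (n1 * n2) l z := by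
  have h3 := H.l3
  have h16 := H.l16
  unfold GTf
  rw [ch_packR (fun m => gam_lt _ _ _ (by omega) h16) hz, gam_cast _ _ _ (by omega)]

lemma natCast_mod_self (q X : ℕ) : ((X % q : ℕ) : ZMod q) = (X : ZMod q) := ZMod.natCast_mod X q

lemma wD_cast (H : Hyp n1 n2 l e1 e2 T1 T2 L1 L2) (P Q : ℕ × ℕ) :
    (wD n1 n2 l e1 e2 T1 T2 P Q : ZMod l) = DZ (chiF n1 n2 l T1 T2)
      ((P.1 * e1 + Q.1 * e2 : ℕ) : ZMod (n1 * n2)) ((P.2 * e1 + Q.2 * e2 : ℕ) : ZMod (n1 * n2)) := by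
  unfold wD
  rw [ZMod.natCast_mod, sD_cast (chiF n1 n2 l T1 T2) _ _ (CTf_spec H) (BTf_spec H),
    natCast_mod_self, natCast_mod_self]

lemma wE1_cast (H : Hyp n1 n2 l e1 e2 T1 T2 L1 L2) (P Q : ℕ × ℕ) :
    (wE1 n1 n2 l e1 e2 T1 T2 P Q : ZMod l) = EZ (chiF n1 n2 l T1 T2)
      ((P.2 * e1 + Q.2 * e2 : ℕ) : ZMod (n1 * n2)) := by
  unfold wE1
  rw [ZMod.natCast_mod, sE_cast (chiF n1 n2 l T1 T2) _ _ (CTf_spec H) (GTf_spec H),
    natCast_mod_self]

lemma wE2_cast (H : Hyp n1 n2 l e1 e2 T1 T2 L1 L2) (P Q : ℕ × ℕ) :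
    (wE2 n1 n2 l e1 e2 T1 T2 P Q : ZMod l) = EZ (chiF n1 n2 l T1 T2)
      ((P.1 * e1 + Q.1 * e2 : ℕ) : ZMod (n1 * n2)) := by
  unfold wE2
  rw [ZMod.natCast_mod, sE_cast (chiF n1 n2 l T1 T2) _ _ (CTf_spec H) (GTf_spec H),
    natCast_mod_self]

omit [NeZero n1] [NeZero n2] [NeZero (n1 * n2)] in
lemma wD_lt (H3 : 3 ≤ l) (H16 : l ≤ 16) (P Q : ℕ × ℕ) : wD n1 n2 l e1 e2 T1 T2 P Q ≤ 15 := by
  have := Nat.mod_lt (sD (n1 * n2) (CTf n1 n2 l T1 T2) (BTf (n1 * n2) l)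
    ((P.1 * e1 + Q.1 * e2) % (n1 * n2)) ((P.2 * e1 + Q.2 * e2) % (n1 * n2))) (show 0 < l by omega)
  unfold wD; omega

omit [NeZero n1] [NeZero n2] [NeZero (n1 * n2)] in
lemma wE1_lt (H3 : 3 ≤ l) (H16 : l ≤ 16) (P Q : ℕ × ℕ) : wE1 n1 n2 l e1 e2 T1 T2 P Q ≤ 15 := by
  have := Nat.mod_lt (sE (n1 * n2) (CTf n1 n2 l T1 T2) (GTf (n1 * n2) l)
    ((P.2 * e1 + Q.2 * e2) % (n1 * n2))) (show 0 < l by omega)
  unfold wE1; omega

omit [NeZero n1] [NeZero n2] [NeZero (n1 * n2)] in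
lemma wE2_lt (H3 : 3 ≤ l) (H16 : l ≤ 16) (P Q : ℕ × ℕ) : wE2 n1 n2 l e1 e2 T1 T2 P Q ≤ 15 := by
  have := Nat.mod_lt (sE (n1 * n2) (CTf n1 n2 l T1 T2) (GTf (n1 * n2) l)
    ((P.1 * e1 + Q.1 * e2) % (n1 * n2))) (show 0 < l by omega)
  unfold wE2; omega

omit [NeZero n1] [NeZero n2] [NeZero (n1 * n2)] in
/-- digits of the inner sums -/
lemma inner_digits (H3 : 3 ≤ l) (H16 : l ≤ 16) (Hq : n1 * n2 ≤ 1000) (Hl1 : L1.length ≤ 100)
    (v : ℕ × ℕ → ℕ) (hv : ∀ P, v P < 16) (Q : ℕ × ℕ) :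
    dg 16 (L1.map fun P => v P * gW n1 n2 l e1 e2 T1 T2 P Q).sum 0 =
      (L1.map fun P => v P * wD n1 n2 l e1 e2 T1 T2 P Q).sum ∧
    dg 16 (L1.map fun P => v P * gW n1 n2 l e1 e2 T1 T2 P Q).sum 1 =
      (L1.map fun P => v P * wE1 n1 n2 l e1 e2 T1 T2 P Q).sum ∧
    dg 16 (L1.map fun P => v P * gW n1 n2 l e1 e2 T1 T2 P Q).sum 2 =
      (L1.map fun P => v P * wE2 n1 n2 l e1 e2 T1 T2 P Q).sum := by
  have e : (L1.map fun P => v P * gW n1 n2 l e1 e2 T1 T2 P Q).sum =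
      (L1.map fun P => v P * wD n1 n2 l e1 e2 T1 T2 P Q).sum +
      2 ^ 16 * (L1.map fun P => v P * wE1 n1 n2 l e1 e2 T1 T2 P Q).sum +
      2 ^ 32 * (L1.map fun P => v P * wE2 n1 n2 l e1 e2 T1 T2 P Q).sum := by
    rw [← List.sum_map_mul_left, ← List.sum_map_mul_left, ← List.sum_map_add, ← List.sum_map_add]
    congr 1
    apply List.map_congr_left
    intro P _
    have : gW n1 n2 l e1 e2 T1 T2 P Q = wD n1 n2 l e1 e2 T1 T2 P Q +
      2 ^ 16 * wE1 n1 n2 l e1 e2 T1 T2 P Q + 2 ^ 32 * wE2 n1 n2 l e1 e2 T1 T2 P Q :=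
      dfull_eq _ _ _ _ _ _ _ Hq
    rw [this]; ring
  have hb : ∀ w : ℕ × ℕ → ℕ, (∀ P, w P ≤ 15) → (L1.map fun P => v P * w P).sum < 2 ^ 16 := by
    intro w hw
    apply list_sum_lt L1 _ (15 * 15)
    · intro P _
      exact Nat.mul_le_mul (by have := hv P; omega) (hw P)
    · norm_num; omega
  rw [e]
  exact dg_triple (hb _ (fun P => wD_lt H3 H16 P Q)) (hb _ (fun P => wE1_lt H3 H16 P Q))
    (hb _ (fun P => wE2_lt H3 H16 P Q))

/-- **soundness** of the table check -/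
theorem check_sound (H : Hyp n1 n2 l e1 e2 T1 T2 L1 L2) (J : ℕ) (D1 D2 : List (ℕ × ℕ)) (TB : ℕ)
    (hc : check n1 n2 (n1 * n2) l e1 e2 T1 T2 J L1 L2 D1 D2 TB = true) (a t : ℕ)
    (h : T5Eq a t (n1 * n2) l (chiF n1 n2 l T1 T2)) (i j : ℕ) (hi : i < D1.length)
    (hj : j < D2.length) (h1 : D1[i] = (a % n1, t % n1)) (h2 : D2[j] = (a % n2, t % n2)) :
    chk l (dg 48 (dg (48 * J) TB i) j) (a % l) (t % l) = true := by
  have H3 := H.l3
  have H16 := H.l16
  rw [check_unfold] at hc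
  have hrow := allI_spec hc i hi
  rw [zero_add, h1] at hrow
  have hrow' := Nat.eq_of_beq_eq_true hrow
  rw [hrow', row_eq H.l3 H.l16 H.qle H.len1]
  set Z : ℕ × ℕ → ℕ := fun c => (L2.map fun Q =>
        (coA l ((L1.map fun P => v1 n1 T1 a t P * gW n1 n2 l e1 e2 T1 T2 P Q).sum)) *
          ch T2 (N1 n2 (fB n2 c.1 c.2) (fnm n2 (fm n2 c.1 c.2)) Q.1 Q.2) +
        (coC l ((L1.map fun P => v3 n1 T1 a t P * gW n1 n2 l e1 e2 T1 T2 P Q).sum)) *
          ch T2 (N3 n2 (fm n2 c.1 c.2) (fk n2 c.1 (fm n2 c.1 c.2) (fB n2 c.1 c.2))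
            (fnm n2 (fm n2 c.1 c.2)) Q.1 Q.2)).sum with hZ
  have hlpos : 0 < l := by omega
  have hZlt : ∀ c ∈ D2, Z c < 2 ^ 48 := by
    intro c _
    apply list_sum_lt L2 _ ((6 * 15 + (2 ^ 16 * 15 + 2 ^ 32 * 15)) * 15 + (3 * 15) * 15)
    · intro Q _
      apply Nat.add_le_add
      · apply Nat.mul_le_mul
        · unfold coA
          have m1 := Nat.mod_lt (dg 16 (L1.map fun P => v1 n1 T1 a t P *
            gW n1 n2 l e1 e2 T1 T2 P Q).sum 0) hlpos
          have m2 := Nat.mod_lt (dg 16 (L1.map fun P => v1 n1 T1 a t P *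
            gW n1 n2 l e1 e2 T1 T2 P Q).sum 1) hlpos
          have m3 := Nat.mod_lt (dg 16 (L1.map fun P => v1 n1 T1 a t P *
            gW n1 n2 l e1 e2 T1 T2 P Q).sum 2) hlpos
          norm_num
          omega
        · have := ch_lt T2 (N1 n2 (fB n2 c.1 c.2) (fnm n2 (fm n2 c.1 c.2)) Q.1 Q.2)
          omega
      · apply Nat.mul_le_mul
        · unfold coC
          have m1 := Nat.mod_lt (dg 16 (L1.map fun P => v3 n1 T1 a t P *
            gW n1 n2 l e1 e2 T1 T2 P Q).sum 0) hlpos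
          omega
        · have := ch_lt T2 (N3 n2 (fm n2 c.1 c.2) (fk n2 c.1 (fm n2 c.1 c.2) (fB n2 c.1 c.2))
            (fnm n2 (fm n2 c.1 c.2)) Q.1 Q.2)
          omega
    · have : L2.length ≤ 32 := H.len2
      norm_num
      omega
  have hdig : dg 48 (packL (2 ^ 48) Z D2) j = Z D2[j] := by
    rw [dg_eq, pow_mul]
    exact packL_digit hZlt j hj
  rw [hdig, h2]
  -- the components of the entry
  set A := fun Q => (L1.map fun P => v1 n1 T1 a t P * wD n1 n2 l e1 e2 T1 T2 P Q).sum with hA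
  set A3 := fun Q => (L1.map fun P => v3 n1 T1 a t P * wD n1 n2 l e1 e2 T1 T2 P Q).sum with hA3
  set B1 := fun Q => (L1.map fun P => v1 n1 T1 a t P * wE1 n1 n2 l e1 e2 T1 T2 P Q).sum with hB1
  set B2 := fun Q => (L1.map fun P => v1 n1 T1 a t P * wE2 n1 n2 l e1 e2 T1 T2 P Q).sum with hB2
  set z0 := (L2.map fun Q => 6 * (A Q % l) * v1 n2 T2 a t Q + 3 * (A3 Q % l) * v3 n2 T2 a t Q).sum
    with hz0
  set z1 := (L2.map fun Q => (B1 Q % l) * v1 n2 T2 a t Q).sum with hz1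
  set z2 := (L2.map fun Q => (B2 Q % l) * v1 n2 T2 a t Q).sum with hz2
  have hv1 : ∀ P, v1 n1 T1 a t P < 16 := fun P => ch_lt _ _
  have hv3 : ∀ P, v3 n1 T1 a t P < 16 := fun P => ch_lt _ _
  have hv1' : ∀ P, v1 n2 T2 a t P < 16 := fun P => ch_lt _ _
  have hv3' : ∀ P, v3 n2 T2 a t P < 16 := fun P => ch_lt _ _
  have hZe : Z (a % n2, t % n2) = z0 + 2 ^ 16 * z1 + 2 ^ 32 * z2 := by
    rw [hZ, hz0, hz1, hz2, ← List.sum_map_mul_left, ← List.sum_map_mul_left, ← List.sum_map_add,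
      ← List.sum_map_add]
    beta_reduce
    congr 1
    apply List.map_congr_left
    intro Q _
    obtain ⟨d0, d1, d2⟩ := inner_digits (e1 := e1) (e2 := e2) (T1 := T1) (T2 := T2)
      H.l3 H.l16 H.qle H.len1 (v1 n1 T1 a t) hv1 Q
    obtain ⟨d0', _, _⟩ := inner_digits (e1 := e1) (e2 := e2) (T1 := T1) (T2 := T2)
      H.l3 H.l16 H.qle H.len1 (v3 n1 T1 a t) hv3 Q
    unfold coA coC
    rw [d0, d1, d2, d0']
    have g1 : ch T2 (N1 n2 (fB n2 (a % n2) (t % n2)) (fnm n2 (fm n2 (a % n2) (t % n2))) Q.1 Q.2) =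
      v1 n2 T2 a t Q := rfl
    have g3 : ch T2 (N3 n2 (fm n2 (a % n2) (t % n2)) (fk n2 (a % n2) (fm n2 (a % n2) (t % n2))
      (fB n2 (a % n2) (t % n2))) (fnm n2 (fm n2 (a % n2) (t % n2))) Q.1 Q.2) =
      v3 n2 T2 a t Q := rfl
    rw [g1, g3]
    simp only [hA, hA3, hB1, hB2]
    ring
  have hz0lt : z0 < 2 ^ 16 := by
    apply list_sum_lt L2 _ (6 * 15 * 15 + 3 * 15 * 15)
    · intro Q _
      have m1 := Nat.mod_lt (A Q) hlpos
      have m3 := Nat.mod_lt (A3 Q) hlpos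
      have := hv1' Q
      have := hv3' Q
      apply Nat.add_le_add
      · exact Nat.mul_le_mul (by omega) (by omega)
      · exact Nat.mul_le_mul (by omega) (by omega)
    · have : L2.length ≤ 32 := H.len2
      norm_num
      omega
  have hz1lt : z1 < 2 ^ 16 := by
    apply list_sum_lt L2 _ (15 * 15)
    · intro Q _
      have m1 := Nat.mod_lt (B1 Q) hlpos
      have := hv1' Q
      exact Nat.mul_le_mul (by omega) (by omega)
    · have : L2.length ≤ 32 := H.len2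
      norm_num
      omega
  have hz2lt : z2 < 2 ^ 16 := by
    apply list_sum_lt L2 _ (15 * 15)
    · intro Q _
      have m1 := Nat.mod_lt (B2 Q) hlpos
      have := hv1' Q
      exact Nat.mul_le_mul (by omega) (by omega)
    · have : L2.length ≤ 32 := H.len2
      norm_num
      omega
  obtain ⟨g0, g1, g2⟩ := dg_triple hz0lt hz1lt hz2lt
  rw [hZe]
  unfold chk
  rw [strict_eq, strict_eq]
  change Nat.beq ((dg 16 (z0 + 2 ^ 16 * z1 + 2 ^ 32 * z2) 0 + (fB l (a % l) (t % l) *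
    dg 16 (z0 + 2 ^ 16 * z1 + 2 ^ 32 * z2) 1 + 2 * (l - 1) * (a % l) *
    dg 16 (z0 + 2 ^ 16 * z1 + 2 ^ 32 * z2) 2)) % l) 0 = true
  rw [g0, g1, g2]
  rw [Nat.beq_eq, ← Nat.dvd_iff_mod_eq_zero, ← ZMod.natCast_eq_zero_iff]
  push_cast [Nat.cast_sub (show 1 ≤ l by omega)]
  rw [fB_cast, ZMod.natCast_mod, ZMod.natCast_self]
  -- the casts
  have c0 : (z0 : ZMod l) = (L2.map fun Q => (L1.map fun P =>
      6 * ((v1 n1 T1 a t P : ZMod l) * (v1 n2 T2 a t Q : ZMod l)) *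
        DZ (chiF n1 n2 l T1 T2) ((P.1 * e1 + Q.1 * e2 : ℕ) : ZMod (n1 * n2))
          ((P.2 * e1 + Q.2 * e2 : ℕ) : ZMod (n1 * n2)) +
      3 * ((v3 n1 T1 a t P : ZMod l) * (v3 n2 T2 a t Q : ZMod l)) *
        DZ (chiF n1 n2 l T1 T2) ((P.1 * e1 + Q.1 * e2 : ℕ) : ZMod (n1 * n2))
          ((P.2 * e1 + Q.2 * e2 : ℕ) : ZMod (n1 * n2))).sum).sum := by
    rw [hz0, Nat.cast_list_sum, List.map_map]
    congr 1
    apply List.map_congr_left
    intro Q _
    simp only [Function.comp, hA, hA3]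
    push_cast
    rw [ZMod.natCast_mod, ZMod.natCast_mod, Nat.cast_list_sum, Nat.cast_list_sum, List.map_map,
      List.map_map, ← List.sum_map_mul_left, ← List.sum_map_mul_left, ← List.sum_map_mul_right,
      ← List.sum_map_mul_right, ← List.sum_map_add]
    congr 1
    apply List.map_congr_left
    intro P _
    simp only [Function.comp]
    push_cast
    rw [wD_cast H]
    push_cast
    ring
  have c1 : (z1 : ZMod l) = (L2.map fun Q => (L1.map fun P =>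
      ((v1 n1 T1 a t P : ZMod l) * (v1 n2 T2 a t Q : ZMod l)) *
        EZ (chiF n1 n2 l T1 T2) ((P.2 * e1 + Q.2 * e2 : ℕ) : ZMod (n1 * n2))).sum).sum := by
    rw [hz1, Nat.cast_list_sum, List.map_map]
    congr 1
    apply List.map_congr_left
    intro Q _
    simp only [Function.comp, hB1]
    push_cast
    rw [ZMod.natCast_mod, Nat.cast_list_sum, List.map_map, ← List.sum_map_mul_right]
    congr 1
    apply List.map_congr_left
    intro P _
    simp only [Function.comp]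
    push_cast
    rw [wE1_cast H]
    push_cast
    ring
  have c2 : (z2 : ZMod l) = (L2.map fun Q => (L1.map fun P =>
      ((v1 n1 T1 a t P : ZMod l) * (v1 n2 T2 a t Q : ZMod l)) *
        EZ (chiF n1 n2 l T1 T2) ((P.1 * e1 + Q.1 * e2 : ℕ) : ZMod (n1 * n2))).sum).sum := by
    rw [hz2, Nat.cast_list_sum, List.map_map]
    congr 1
    apply List.map_congr_left
    intro Q _
    simp only [Function.comp, hB2]
    push_cast
    rw [ZMod.natCast_mod, Nat.cast_list_sum, List.map_map, ← List.sum_map_mul_right]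
    congr 1
    apply List.map_congr_left
    intro P _
    simp only [Function.comp]
    push_cast
    rw [wE2_cast H]
    push_cast
    ring
  have hrel := zrel2 H a t h
  rw [list_sum_comm] at hrel
  rw [c0, c1, c2]
  rw [← List.sum_map_mul_left, ← List.sum_map_mul_left, ← List.sum_map_add, ← List.sum_map_add]
  refine Eq.trans ?_ hrel
  congr 1
  apply List.map_congr_left
  intro Q _
  rw [← List.sum_map_mul_left, ← List.sum_map_mul_left, ← List.sum_map_add, ← List.sum_map_add]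
  congr 1
  apply List.map_congr_left
  intro P _
  push_cast
  ring

end Main

end Pool.Agent.LibH4.T6


end

section

/-!
Classes of parameters, and the relation checks for actual parameters.
-/

namespace Pool.Agent.LibH4.T6

open Finset Ker

/-- implication -/
def imp (b x : Bool) : Bool := @Bool.rec (fun _ => Bool) true x b

lemma imp_spec {b x : Bool} (h : imp b x = true) (hb : b = true) : x = true := by
  subst hb; exact h

/-- membership test -/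
def memL (u v : ℕ) (C : List (ℕ × ℕ)) : Bool :=
  @List.rec (ℕ × ℕ) (fun _ => Bool) false (fun x _ ih => @Bool.rec (fun _ => Bool) ih
    (@Bool.rec (fun _ => Bool) ih true (Nat.beq x.2 v)) (Nat.beq x.1 u)) C

lemma memL_spec {u v : ℕ} {C : List (ℕ × ℕ)} (h : memL u v C = true) :
    ∃ (i : ℕ) (hi : i < C.length), C[i] = (u, v) := by
  induction C with
  | nil => simp [memL] at h
  | cons x xs ih =>
    have h' : @Bool.rec (fun _ => Bool) (memL u v xs)
      (@Bool.rec (fun _ => Bool) (memL u v xs) true (Nat.beq x.2 v)) (Nat.beq x.1 u) = true := h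
    have hrec : memL u v xs = true → ∃ (i : ℕ) (hi : i < (x :: xs).length), (x :: xs)[i] = (u, v) := by
      intro h2
      obtain ⟨i, hi, he⟩ := ih h2
      exact ⟨i + 1, by simpa using hi, by simpa using he⟩
    cases h1 : Nat.beq x.1 u with
    | false => rw [h1] at h'; exact hrec h'
    | true =>
      rw [h1] at h'
      cases h2 : Nat.beq x.2 v with
      | false => rw [h2] at h'; exact hrec h'
      | true =>
        refine ⟨0, by simp, ?_⟩
        rw [List.getElem_cons_zero]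
        exact Prod.ext (Nat.eq_of_beq_eq_true h1) (Nat.eq_of_beq_eq_true h2)

/-- completeness check of a class list -/
def memCheck (n : ℕ) (cls : ℕ → ℕ → Bool) (C : List (ℕ × ℕ)) : Bool :=
  allR (fun u => allR (fun v => imp (cls u v) (memL u v C)) n) n

lemma memCheck_spec {n : ℕ} {cls : ℕ → ℕ → Bool} {C : List (ℕ × ℕ)}
    (h : memCheck n cls C = true) {u v : ℕ} (hu : u < n) (hv : v < n) (hc : cls u v = true) :
    ∃ (i : ℕ) (hi : i < C.length), C[i] = (u, v) :=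
  memL_spec (imp_spec (allR_spec (allR_spec h u hu) v hv) hc)

/-- discriminant modulo `p` -/
def dmod (p u v : ℕ) : ℕ := Nat.mod (Nat.add (Nat.mul (fB p u v) (fB p u v))
  (Nat.mul (nat_lit 4) (fm p u v))) p

/-- inert classes for an odd prime -/
def clsO (p u v : ℕ) : Bool := strict (dmod p u v) fun d =>
  allR (fun x => @Bool.rec (fun _ => Bool) true false (Nat.beq (Nat.mod (Nat.mul x x) p) d)) p

/-- odd classes -/
def clsE (u v : ℕ) : Bool := @Bool.rec (fun _ => Bool) false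
  (Nat.beq (fm (nat_lit 2) u v) (nat_lit 1)) (Nat.beq (fB (nat_lit 2) u v) (nat_lit 1))

lemma allR_of {p : ℕ → Bool} {n : ℕ} (h : ∀ m < n, p m = true) : allR p n = true := by
  induction n with
  | zero => rfl
  | succ n ih =>
    have : allR p (n + 1) = @Bool.rec (fun _ => Bool) false (allR p n) (p n) := rfl
    rw [this, h n (by omega)]
    exact ih (fun m hm => h m (by omega))

lemma clsO_of {p n a t d : ℕ} (hp : p.Prime) (hpn : p ∣ n)
    (hd : d = ((a ^ 2 + 1) * t + a) ^ 2 + 4 * (1 + a * t)) (hj : jacobiSym d p = -1) :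
    clsO p (a % n) (t % n) = true := by
  unfold clsO
  rw [strict_eq]
  apply allR_of
  intro x hx
  have : Fact p.Prime := ⟨hp⟩
  have hne : ¬ (x * x % p = dmod p (a % n) (t % n)) := by
    intro h
    rw [← jacobiSym.legendreSym.to_jacobiSym, legendreSym.eq_neg_one_iff] at hj
    apply hj
    refine ⟨(x : ZMod p), ?_⟩
    have h1 := congrArg (fun y : ℕ => (y : ZMod p)) h
    have ca : ∀ a : ℕ, ((a % n : ℕ) : ZMod p) = (a : ZMod p) := by
      intro a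
      rw [ZMod.natCast_eq_natCast_iff]
      exact (Nat.mod_modEq a n).of_dvd hpn
    have cB : ((fB p (a % n) (t % n) : ℕ) : ZMod p) = ((a : ZMod p) ^ 2 + 1) * t + a := by
      have : fB p (a % n) (t % n) = ((a % n * (a % n) + 1) * (t % n) + a % n) % p := rfl
      rw [this, ZMod.natCast_mod]
      push_cast
      rw [ca, ca]; ring
    have cm : ((fm p (a % n) (t % n) : ℕ) : ZMod p) = 1 + (a : ZMod p) * t := by
      have : fm p (a % n) (t % n) = (a % n * (t % n) + 1) % p := rfl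
      rw [this, ZMod.natCast_mod]
      push_cast
      rw [ca, ca]; ring
    have h2 : dmod p (a % n) (t % n) = (fB p (a % n) (t % n) * fB p (a % n) (t % n) +
      4 * fm p (a % n) (t % n)) % p := rfl
    simp only [h2, ZMod.natCast_mod] at h1
    push_cast at h1
    rw [cB, cm] at h1
    rw [h1, hd]
    push_cast
    ring
  cases hb : Nat.beq (Nat.mod (Nat.mul x x) p) (dmod p (a % n) (t % n)) with
  | false => rfl
  | true => exact absurd (Nat.eq_of_beq_eq_true hb) hne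

lemma clsE_of {n a t : ℕ} (h2n : 2 ∣ n) (hB : ((a ^ 2 + 1) * t + a) % 2 = 1)
    (hm : (1 + a * t) % 2 = 1) : clsE (a % n) (t % n) = true := by
  have e1 : fB 2 (a % n) (t % n) = 1 := by
    have : fB 2 (a % n) (t % n) = ((a % n * (a % n) + 1) * (t % n) + a % n) % 2 := rfl
    rw [this]
    refine Eq.trans ?_ hB
    have ha : a % n ≡ a [MOD 2] := (Nat.mod_modEq a n).of_dvd h2n
    have ht : t % n ≡ t [MOD 2] := (Nat.mod_modEq t n).of_dvd h2n
    have : (a % n * (a % n) + 1) * (t % n) + a % n ≡ (a ^ 2 + 1) * t + a [MOD 2] := by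
      rw [sq]
      exact (((ha.mul ha).add_right 1).mul ht).add ha
    exact this
  have e2 : fm 2 (a % n) (t % n) = 1 := by
    have : fm 2 (a % n) (t % n) = (a % n * (t % n) + 1) % 2 := rfl
    rw [this]
    refine Eq.trans ?_ hm
    have ha : a % n ≡ a [MOD 2] := (Nat.mod_modEq a n).of_dvd h2n
    have ht : t % n ≡ t [MOD 2] := (Nat.mod_modEq t n).of_dvd h2n
    have : a % n * (t % n) + 1 ≡ 1 + a * t [MOD 2] := by
      rw [add_comm 1]
      exact (ha.mul ht).add_right 1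
    exact this
  unfold clsE
  have e1' : fB (nat_lit 2) (a % n) (t % n) = 1 := e1
  have e2' : fm (nat_lit 2) (a % n) (t % n) = 1 := e2
  rw [e1', e2']
  rfl

/-- all the relations coming from the analytic part -/
def T5All (a t d : ℕ) : Prop := ∀ (q l : ℕ), 0 < q → l.Prime → Nat.Coprime q d →
  ¬ l ∣ 6 * q * d → ∀ chi : ZMod q → ZMod l, (∀ x, chi (-x) = - chi x) →
  (∀ x y, chi (x * y) = chi x * chi y) →
  (∑ u ∈ range q, (u : ZMod l) * chi (u : ZMod q) = 0) → T5Eq a t q l chi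

lemma rel_chk {n1 n2 l e1 e2 T1 T2 : ℕ} {L1 L2 : List (ℕ × ℕ)} [NeZero n1] [NeZero n2]
    [NeZero (n1 * n2)] (H : Hyp n1 n2 l e1 e2 T1 T2 L1 L2) {J : ℕ} {D1 D2 : List (ℕ × ℕ)}
    {TB : ℕ} (hc : check n1 n2 (n1 * n2) l e1 e2 T1 T2 J L1 L2 D1 D2 TB = true) {a t d : ℕ}
    (hT5 : T5All a t d) (hl : l.Prime) (hco : Nat.Coprime (n1 * n2) d)
    (hl6 : ¬ l ∣ 6 * (n1 * n2)) (hld : ¬ l ∣ d) {i j : ℕ} (hi : i < D1.length)
    (hj : j < D2.length) (h1 : D1[i] = (a % n1, t % n1)) (h2 : D2[j] = (a % n2, t % n2)) :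
    chk l (dg 48 (dg (48 * J) TB i) j) (a % l) (t % l) = true := by
  refine check_sound H J D1 D2 TB hc a t ?_ i j hi hj h1 h2
  apply hT5 (n1 * n2) l (Nat.pos_of_ne_zero (NeZero.ne _)) hl hco
  · intro h
    rcases (Nat.Prime.dvd_mul hl).mp h with h | h
    · exact hl6 h
    · exact hld h
  · exact chiF_neg H
  · exact chiF_mul H
  · exact chiF_bern H

end Pool.Agent.LibH4.T6


end

section

/-!
Kernel friendly tables for general cycles of forms.
-/

namespace Pool.Agent.LibH4.KF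

open Ker

/-- the value at `(x, y)` of the form with coefficients `P, R, S` modulo `n` -/
def NF (n P R S x y : ℕ) : ℕ :=
  Nat.mod (Nat.add (Nat.mul x (Nat.add (Nat.mul P x) (Nat.mul R y))) (Nat.mul S (Nat.mul y y))) n

/-- coefficients of a form modulo `n` on classes, in continuation style -/
abbrev CF (α : Type) := ℕ → α → (ℕ → ℕ → ℕ → ℕ) → ℕ

/-- character value of a form at a representative -/
def vF {α : Type} (n T : ℕ) (cf : CF α) (c : α) (Q : ℕ × ℕ) : ℕ :=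
  cf n c fun P R S => ch T (NF n P R S Q.1 Q.2)

/-- packed column of a form -/
def colF {α : Type} (V n T : ℕ) (cf : CF α) (D : List α) (Q : ℕ × ℕ) : ℕ :=
  packL V (fun c => cf n c fun P R S => ch T (NF n P R S Q.1 Q.2)) D

/-- combination of the columns with weights -/
def rowS1 (l w0 w1 w2 : ℕ) (Ys : List ((ℕ × ℕ) × ℕ)) : ℕ → ℕ :=
  @List.rec _ (fun _ => ℕ → ℕ) (fun _ => (nat_lit 0)) (fun x _ ih U =>
    strict (Nat.div U (nat_lit 281474976710656)) fun V =>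
    Nat.add
      (Nat.mul (Nat.add (Nat.mul w0 (Nat.mod (dg (nat_lit 16) U (nat_lit 0)) l))
        (Nat.add (Nat.mul w1 (Nat.mod (dg (nat_lit 16) U (nat_lit 1)) l))
          (Nat.mul w2 (Nat.mod (dg (nat_lit 16) U (nat_lit 2)) l)))) x.2)
      (ih V)) Ys

/-- the row of one form -/
def rowF {α : Type} (n l T : ℕ) (cf : CF α) (w0 w1 w2 : ℕ) (DRs Ys : List ((ℕ × ℕ) × ℕ)) (c : α) :
    ℕ :=
  strict (cf n c fun P R S => sumL (fun x => Nat.mul (ch T (NF n P R S x.1.1 x.1.2)) x.2) DRs)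
    fun U => rowS1 l w0 w1 w2 Ys U

/-- a form of a family together with its packed weights -/
abbrev WF (α : Type) := CF α × ℕ × ℕ × ℕ

/-- the row of all forms -/
def rowA {α : Type} (n l T : ℕ) (DRs : List ((ℕ × ℕ) × ℕ))
    (FY : List (WF α × List ((ℕ × ℕ) × ℕ))) (c : α) : ℕ :=
  sumL (fun f => rowF n l T f.1.1 f.1.2.1 f.1.2.2.1 f.1.2.2.2 DRs f.2 c) FY

/-- evaluates all columns -/
def withF {α β : Type} (V n T : ℕ) (D : List α) (L : List (ℕ × ℕ)) (forms : List (WF α)) :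
    (List (WF α × List ((ℕ × ℕ) × ℕ)) → β) → β :=
  @List.rec (WF α) (fun _ => (List (WF α × List ((ℕ × ℕ) × ℕ)) → β) → β) (fun k => k [])
    (fun f _ ih k => mapK (colF V n T f.1 D) L fun Ys => ih fun rest => k ((f, Ys) :: rest)) forms

/-- the table check for a family, from given weights `DRs` -/
def checkF {α : Type} (V W n1 n2 l T1 T2 : ℕ) (DRs : List ((ℕ × ℕ) × ℕ)) (forms : List (WF α))
    (L2 : List (ℕ × ℕ)) (D1 D2 : List α) (TB : ℕ) : Bool :=
  withF V n2 T2 D2 L2 forms fun FY =>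
  allI (fun i c => Nat.beq (dg W TB i) (rowA n1 l T1 DRs FY c)) D1 (nat_lit 0)

/-- reduction of a packed triple -/
def red (l e : ℕ) : ℕ := Nat.add (Nat.mod (dg (nat_lit 24) e (nat_lit 0)) l)
  (Nat.mul (nat_lit 16) (Nat.add (Nat.mod (dg (nat_lit 24) e (nat_lit 1)) l)
    (Nat.mul (nat_lit 16) (Nat.mod (dg (nat_lit 24) e (nat_lit 2)) l))))

/-- the base of the entries -/
def V72 : ℕ := nat_lit 4722366482869645213696


/-- comparison of the reduced lanes -/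
def lanes {α : Type} (l : ℕ) (D : List α) : ℕ → ℕ → Bool :=
  @List.rec α (fun _ => ℕ → ℕ → Bool) (fun _ _ => true) (fun _ _ ih t r =>
    @Bool.rec (fun _ => Bool) false (strict (Nat.div t (nat_lit 4096)) fun t' =>
      strict (Nat.div r V72) fun r' => ih t' r')
      (Nat.beq (Nat.mod t (nat_lit 4096))
        (red l (Nat.mod r V72)))) D

/-- the table check with reduced entries -/
def checkR {α : Type} (W n1 n2 l T1 T2 : ℕ) (DRs : List ((ℕ × ℕ) × ℕ)) (forms : List (WF α))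
    (L2 : List (ℕ × ℕ)) (D1 D2 : List α) (TB : ℕ) : Bool :=
  withF V72 n2 T2 D2 L2 forms fun FY =>
  allI (fun i c => strict (dg W TB i) fun t => strict (rowA n1 l T1 DRs FY c) fun r =>
    lanes l D2 t r) D1 (nat_lit 0)

/-- equality of weight lists -/
def eqW (f : ℕ × ℕ → ℕ) (L : List (ℕ × ℕ)) : List ((ℕ × ℕ) × ℕ) → Bool :=
  @List.rec (ℕ × ℕ) (fun _ => List ((ℕ × ℕ) × ℕ) → Bool)
    (fun M => @List.rec _ (fun _ => Bool) true (fun _ _ _ => false) M)
    (fun P _ ih M => @List.rec _ (fun _ => Bool) false (fun x xs _ =>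
      @Bool.rec (fun _ => Bool) false (@Bool.rec (fun _ => Bool) false
        (@Bool.rec (fun _ => Bool) false (ih xs) (Nat.beq x.1.2 P.2)) (Nat.beq x.1.1 P.1))
        (Nat.beq x.2 (f P))) M) L

/-- check of the weights -/
def drCheck (n1 n2 q l e1 e2 T1 T2 : ℕ) (L1 L2 : List (ℕ × ℕ)) (DRs : List ((ℕ × ℕ) × ℕ)) : Bool :=
  strict (packR (nat_lit 4) (fun x => strict (Nat.mul (ch T1 (Nat.mod x n1)) (ch T2 (Nat.mod x n2)))
    fun y => Nat.mod (Nat.mul y y) l) q) fun CT =>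
  strict (packR (nat_lit 4) (bet q l) q) fun BT =>
  strict (packR (nat_lit 4) (gam q l) q) fun GT =>
  eqW (drow q l e1 e2 CT BT GT L2) L1 DRs

/-! ### specifications -/

open T6

section Spec

variable {n1 n2 l e1 e2 T1 T2 : ℕ} {L1 L2 : List (ℕ × ℕ)}

/-- the standard weights -/
def DRstd (n1 n2 l e1 e2 T1 T2 : ℕ) (L1 L2 : List (ℕ × ℕ)) : List ((ℕ × ℕ) × ℕ) :=
  L1.map fun P => (P, packL (2 ^ 48) (gW n1 n2 l e1 e2 T1 T2 P) L2)

lemma eqW_spec {f : ℕ × ℕ → ℕ} {L : List (ℕ × ℕ)} {M : List ((ℕ × ℕ) × ℕ)}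
    (h : eqW f L M = true) : M = L.map fun P => (P, f P) := by
  induction L generalizing M with
  | nil =>
    cases M with
    | nil => rfl
    | cons x xs => exact absurd h (by simp [eqW])
  | cons P L ih =>
    cases M with
    | nil => exact absurd h (by simp [eqW])
    | cons x xs =>
      have h' : @Bool.rec (fun _ => Bool) false (@Bool.rec (fun _ => Bool) false
        (@Bool.rec (fun _ => Bool) false (eqW f L xs) (Nat.beq x.1.2 P.2)) (Nat.beq x.1.1 P.1))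
        (Nat.beq x.2 (f P)) = true := h
      cases h1 : Nat.beq x.2 (f P) with
      | false => rw [h1] at h'; simp at h'
      | true =>
        rw [h1] at h'
        cases h2 : Nat.beq x.1.1 P.1 with
        | false => rw [h2] at h'; simp at h'
        | true =>
          rw [h2] at h'
          cases h3 : Nat.beq x.1.2 P.2 with
          | false => rw [h3] at h'; simp at h'
          | true =>
            rw [h3] at h'
            have := ih h'
            rw [this, List.map_cons]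
            congr 1
            obtain ⟨⟨x1, x2⟩, x3⟩ := x
            simp only [Nat.beq_eq] at h1 h2 h3
            rw [h1, h2, h3]

lemma drCheck_spec {DRs : List ((ℕ × ℕ) × ℕ)}
    (h : drCheck n1 n2 (n1 * n2) l e1 e2 T1 T2 L1 L2 DRs = true) :
    DRs = DRstd n1 n2 l e1 e2 T1 T2 L1 L2 := by
  unfold drCheck at h
  rw [strict_eq, strict_eq, strict_eq] at h
  have hC : packR 4 (fun x => strict (Nat.mul (ch T1 (Nat.mod x n1)) (ch T2 (Nat.mod x n2)))
      fun y => Nat.mod (Nat.mul y y) l) (n1 * n2) = CTf n1 n2 l T1 T2 := by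
    unfold CTf
    congr 1
    funext x
    rw [strict_eq]
    rfl
  rw [hC] at h
  rw [eqW_spec h]
  unfold DRstd
  apply List.map_congr_left
  intro P _
  congr 1
  unfold drow
  have : (281474976710656 : ℕ) = 2 ^ 48 := by norm_num
  rw [← this]
  apply packL_congr
  intro Q _
  rw [strict_eq, strict_eq]
  rfl

/-- the coefficient of a column -/
def co (l w0 w1 w2 u : ℕ) : ℕ :=
  w0 * (dg 16 u 0 % l) + (w1 * (dg 16 u 1 % l) + w2 * (dg 16 u 2 % l))

lemma rowS1_eq (l w0 w1 w2 : ℕ) (Y f : ℕ × ℕ → ℕ) (L : List (ℕ × ℕ))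
    (h : ∀ Q ∈ L, f Q < 2 ^ 48) :
    rowS1 l w0 w1 w2 (L.map fun Q => (Q, Y Q)) (packL (2 ^ 48) f L) =
      (L.map fun Q => co l w0 w1 w2 (f Q) * Y Q).sum := by
  induction L with
  | nil => rfl
  | cons Q Qs ih =>
    rw [List.map_cons, List.map_cons, List.sum_cons, packL_cons,
      ← ih (fun y hy => h y (by simp [hy]))]
    have g := h Q (by simp)
    set R := packL (2 ^ 48) f Qs with hR
    have key : rowS1 l w0 w1 w2 ((Q, Y Q) :: Qs.map fun Q => (Q, Y Q)) (f Q + 2 ^ 48 * R) =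
        strict ((f Q + 2 ^ 48 * R) / 281474976710656) (fun V =>
        (w0 * (dg 16 (f Q + 2 ^ 48 * R) 0 % l) + (w1 * (dg 16 (f Q + 2 ^ 48 * R) 1 % l) +
          w2 * (dg 16 (f Q + 2 ^ 48 * R) 2 % l))) * Y Q +
          rowS1 l w0 w1 w2 (Qs.map fun Q => (Q, Y Q)) V) := rfl
    rw [key, strict_eq, dg_low _ _ _ (by norm_num) g, dg_low _ _ _ (by norm_num) g,
      dg_low _ _ _ (by norm_num) g]
    have d1 : (f Q + 2 ^ 48 * R) / 281474976710656 = R := by
      norm_num at g ⊢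
      omega
    rw [d1]
    rfl

/-- the coefficient functions are really functions -/
def CFok {α : Type} (cf : CF α) (n : ℕ) (c : α) : Prop :=
  ∃ P R S : ℕ, ∀ k, cf n c k = k P R S

/-- one of the three sums over representatives -/
def zW {α : Type} (n1 n2 l T1 T2 : ℕ) (L1 L2 : List (ℕ × ℕ)) (w : ℕ × ℕ → ℕ × ℕ → ℕ) (cf : CF α)
    (c c2 : α) : ℕ :=
  (L2.map fun Q => ((L1.map fun P => vF n1 T1 cf c P * w P Q).sum % l) * vF n2 T2 cf c2 Q).sum

lemma vF_lt {α : Type} {n T : ℕ} {cf : CF α} {c : α} (h : CFok cf n c) (Q : ℕ × ℕ) :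
    vF n T cf c Q < 16 := by
  obtain ⟨P, R, S, hk⟩ := h
  unfold vF
  rw [hk]
  exact ch_lt _ _

/-- the entry of the table -/
def entF {α : Type} (n1 n2 l e1 e2 T1 T2 : ℕ) (L1 L2 : List (ℕ × ℕ)) (f : WF α) (c c2 : α) : ℕ :=
  f.2.1 * zW n1 n2 l T1 T2 L1 L2 (wD n1 n2 l e1 e2 T1 T2) f.1 c c2 +
  f.2.2.1 * zW n1 n2 l T1 T2 L1 L2 (wE1 n1 n2 l e1 e2 T1 T2) f.1 c c2 +
  f.2.2.2 * zW n1 n2 l T1 T2 L1 L2 (wE2 n1 n2 l e1 e2 T1 T2) f.1 c c2

lemma inner_lt (H3 : 3 ≤ l) (H16 : l ≤ 16) (Hq : n1 * n2 ≤ 1000) (Hl1 : L1.length ≤ 100)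
    (v : ℕ × ℕ → ℕ) (hv : ∀ P, v P < 16) (Q : ℕ × ℕ) :
    (L1.map fun P => v P * gW n1 n2 l e1 e2 T1 T2 P Q).sum < 2 ^ 48 := by
  apply list_sum_lt L1 _ (15 * (15 + 2 ^ 16 * 15 + 2 ^ 32 * 15))
  · intro P _
    have h1 : v P ≤ 15 := by have := hv P; omega
    have h2 := wD_lt (n1 := n1) (n2 := n2) (e1 := e1) (e2 := e2) (T1 := T1) (T2 := T2) H3 H16 P Q
    have h3 := wE1_lt (n1 := n1) (n2 := n2) (e1 := e1) (e2 := e2) (T1 := T1) (T2 := T2) H3 H16 P Q
    have h4 := wE2_lt (n1 := n1) (n2 := n2) (e1 := e1) (e2 := e2) (T1 := T1) (T2 := T2) H3 H16 P Q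
    have hgW : gW n1 n2 l e1 e2 T1 T2 P Q = wD n1 n2 l e1 e2 T1 T2 P Q +
      2 ^ 16 * wE1 n1 n2 l e1 e2 T1 T2 P Q + 2 ^ 32 * wE2 n1 n2 l e1 e2 T1 T2 P Q :=
      dfull_eq _ _ _ _ _ _ _ Hq
    rw [hgW]
    apply Nat.mul_le_mul h1
    have h5 : 2 ^ 16 * wE1 n1 n2 l e1 e2 T1 T2 P Q ≤ 2 ^ 16 * 15 := Nat.mul_le_mul_left _ h3
    have h6 : 2 ^ 32 * wE2 n1 n2 l e1 e2 T1 T2 P Q ≤ 2 ^ 32 * 15 := Nat.mul_le_mul_left _ h4
    omega
  · have : L1.length * (15 * (15 + 2 ^ 16 * 15 + 2 ^ 32 * 15)) ≤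
        100 * (15 * (15 + 2 ^ 16 * 15 + 2 ^ 32 * 15)) := Nat.mul_le_mul_right _ Hl1
    norm_num at this ⊢
    omega

lemma rowF_eq {α : Type} (H3 : 3 ≤ l) (H16 : l ≤ 16) (Hq : n1 * n2 ≤ 1000)
    (Hl1 : L1.length ≤ 100) (V : ℕ) (f : WF α) (D2 : List α) (c : α) (hc : CFok f.1 n1 c) :
    rowF n1 l T1 f.1 f.2.1 f.2.2.1 f.2.2.2 (DRstd n1 n2 l e1 e2 T1 T2 L1 L2)
      (L2.map fun Q => (Q, colF V n2 T2 f.1 D2 Q)) c =
      packL V (entF n1 n2 l e1 e2 T1 T2 L1 L2 f c) D2 := by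
  have hv : ∀ P, vF n1 T1 f.1 c P < 16 := fun P => vF_lt hc P
  obtain ⟨p, r, s, hk⟩ := hc
  have hU : (f.1 n1 c fun P R S => sumL (fun x : (ℕ × ℕ) × ℕ =>
      Nat.mul (ch T1 (NF n1 P R S x.1.1 x.1.2)) x.2) (DRstd n1 n2 l e1 e2 T1 T2 L1 L2)) =
      packL (2 ^ 48) (fun Q => (L1.map fun P => vF n1 T1 f.1 c P *
        gW n1 n2 l e1 e2 T1 T2 P Q).sum) L2 := by
    rw [hk, sumL_eq]
    unfold DRstd
    rw [List.map_map, ← packL_sum]
    congr 1
    apply List.map_congr_left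
    intro P _
    simp only [Function.comp]
    unfold vF
    rw [hk]
    rfl
  unfold rowF
  rw [strict_eq, hU, rowS1_eq _ _ _ _ _ _ _ (fun Q _ => inner_lt H3 H16 Hq Hl1 _ hv Q)]
  have hcol : ∀ Q, colF V n2 T2 f.1 D2 Q = packL V (fun c2 => vF n2 T2 f.1 c2 Q) D2 := fun Q => rfl
  simp only [hcol]
  rw [packL_sum]
  apply packL_congr
  intro c2 _
  unfold entF zW
  rw [← List.sum_map_mul_left, ← List.sum_map_mul_left, ← List.sum_map_mul_left,
    ← List.sum_map_add, ← List.sum_map_add]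
  congr 1
  apply List.map_congr_left
  intro Q _
  obtain ⟨d0, d1, d2⟩ := inner_digits (e1 := e1) (e2 := e2) (T1 := T1) (T2 := T2)
      H3 H16 Hq Hl1 (vF n1 T1 f.1 c) hv Q
  unfold co
  rw [d0, d1, d2]
  ring

/-- the entry for all forms -/
def entA {α : Type} (n1 n2 l e1 e2 T1 T2 : ℕ) (L1 L2 : List (ℕ × ℕ)) (forms : List (WF α))
    (c c2 : α) : ℕ := (forms.map fun f => entF n1 n2 l e1 e2 T1 T2 L1 L2 f c c2).sum

/-- the columns -/
def FYstd {α : Type} (V n2 T2 : ℕ) (D2 : List α) (L2 : List (ℕ × ℕ)) (forms : List (WF α)) :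
    List (WF α × List ((ℕ × ℕ) × ℕ)) :=
  forms.map fun f => (f, L2.map fun Q => (Q, colF V n2 T2 f.1 D2 Q))

lemma withF_eq {α β : Type} (V n T : ℕ) (D : List α) (L : List (ℕ × ℕ)) (forms : List (WF α))
    (k : List (WF α × List ((ℕ × ℕ) × ℕ)) → β) :
    withF V n T D L forms k = k (FYstd V n T D L forms) := by
  induction forms generalizing k with
  | nil => rfl
  | cons f fs ih =>
    have : withF V n T D L (f :: fs) k = mapK (colF V n T f.1 D) L fun Ys =>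
      withF V n T D L fs fun rest => k ((f, Ys) :: rest) := rfl
    rw [this, mapK_eq, ih]
    rfl

lemma rowA_eq {α : Type} (H3 : 3 ≤ l) (H16 : l ≤ 16) (Hq : n1 * n2 ≤ 1000)
    (Hl1 : L1.length ≤ 100) (V : ℕ) (forms : List (WF α)) (D2 : List α) (c : α)
    (hc : ∀ f ∈ forms, CFok f.1 n1 c) :
    rowA n1 l T1 (DRstd n1 n2 l e1 e2 T1 T2 L1 L2) (FYstd V n2 T2 D2 L2 forms) c =
      packL V (entA n1 n2 l e1 e2 T1 T2 L1 L2 forms c) D2 := by
  unfold rowA
  rw [sumL_eq]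
  unfold FYstd
  rw [List.map_map]
  have : (forms.map ((fun f : WF α × List ((ℕ × ℕ) × ℕ) =>
      rowF n1 l T1 f.1.1 f.1.2.1 f.1.2.2.1 f.1.2.2.2 (DRstd n1 n2 l e1 e2 T1 T2 L1 L2) f.2 c) ∘
      fun f => (f, L2.map fun Q => (Q, colF V n2 T2 f.1 D2 Q)))) =
      forms.map fun f => packL V (entF n1 n2 l e1 e2 T1 T2 L1 L2 f c) D2 := by
    apply List.map_congr_left
    intro f hf
    simp only [Function.comp]
    exact rowF_eq H3 H16 Hq Hl1 V f D2 c (hc f hf)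
  rw [this]
  have h2 := packL_sum V (fun _ : WF α => 1) (fun f => entF n1 n2 l e1 e2 T1 T2 L1 L2 f c) forms D2
  simp only [one_mul] at h2
  rw [h2]
  rfl

/-- digits of the table -/
theorem checkF_spec {α : Type} (H3 : 3 ≤ l) (H16 : l ≤ 16) (Hq : n1 * n2 ≤ 1000)
    (Hl1 : L1.length ≤ 100) {v W : ℕ} {forms : List (WF α)} {D1 D2 : List α}
    {TB : ℕ} {DRs : List ((ℕ × ℕ) × ℕ)} (hDR : DRs = DRstd n1 n2 l e1 e2 T1 T2 L1 L2)
    (hok : ∀ c ∈ D1, ∀ f ∈ forms, CFok f.1 n1 c)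
    (hlt : ∀ c ∈ D1, ∀ c2 ∈ D2, entA n1 n2 l e1 e2 T1 T2 L1 L2 forms c c2 < 2 ^ v)
    (h : checkF (2 ^ v) W n1 n2 l T1 T2 DRs forms L2 D1 D2 TB = true) (i j : ℕ)
    (hi : i < D1.length) (hj : j < D2.length) :
    dg v (dg W TB i) j = entA n1 n2 l e1 e2 T1 T2 L1 L2 forms D1[i] D2[j] := by
  unfold checkF at h
  rw [withF_eq] at h
  have h1 := allI_spec (i := 0) h i hi
  rw [zero_add] at h1
  have h2 := Nat.eq_of_beq_eq_true h1
  rw [h2, hDR, rowA_eq H3 H16 Hq Hl1 _ _ _ _ (hok _ (List.getElem_mem hi)), dg_eq, pow_mul]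
  exact packL_digit (hlt _ (List.getElem_mem hi)) j hj

lemma V72_eq : V72 = 2 ^ 72 := by unfold V72; norm_num

lemma lanes_spec {α : Type} {l : ℕ} {D : List α} {t r : ℕ} (h : lanes l D t r = true) :
    ∀ j < D.length, dg 12 t j = red l (dg 72 r j) := by
  induction D generalizing t r with
  | nil => intro j hj; simp at hj
  | cons x xs ih =>
    have h' : @Bool.rec (fun _ => Bool) false (strict (t / 4096) fun t' =>
      strict (r / V72) fun r' => lanes l xs t' r')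
      (Nat.beq (t % 4096) (red l (r % V72))) = true := h
    rw [strict_eq, strict_eq, V72_eq] at h'
    cases h1 : Nat.beq (t % 4096) (red l (r % 2 ^ 72)) with
    | false => rw [h1] at h'; simp at h'
    | true =>
      rw [h1] at h'
      intro j hj
      cases j with
      | zero =>
        have := Nat.eq_of_beq_eq_true h1
        rw [dg_eq, dg_eq, mul_zero, mul_zero, pow_zero, Nat.div_one, Nat.div_one, ← this]
        norm_num
      | succ j =>
        have h2 := ih h' j (by simpa using hj)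
        rw [dg_eq, dg_eq] at h2 ⊢
        have e1 : t / 4096 / 2 ^ (12 * j) = t / 2 ^ (12 * (j + 1)) := by
          rw [Nat.div_div_eq_div_mul, mul_add, pow_add, mul_comm]
          norm_num
        have e2 : r / 2 ^ 72 / 2 ^ (72 * j) = r / 2 ^ (72 * (j + 1)) := by
          rw [Nat.div_div_eq_div_mul, mul_add, pow_add, mul_comm, mul_one]
        rw [e1, e2] at h2
        exact h2

/-- entries of the reduced table -/
theorem checkR_spec {α : Type} (H3 : 3 ≤ l) (H16 : l ≤ 16) (Hq : n1 * n2 ≤ 1000)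
    (Hl1 : L1.length ≤ 100) {W : ℕ} {forms : List (WF α)} {D1 D2 : List α}
    {TB : ℕ} {DRs : List ((ℕ × ℕ) × ℕ)} (hDR : DRs = DRstd n1 n2 l e1 e2 T1 T2 L1 L2)
    (hok : ∀ c ∈ D1, ∀ f ∈ forms, CFok f.1 n1 c)
    (hlt : ∀ c ∈ D1, ∀ c2 ∈ D2, entA n1 n2 l e1 e2 T1 T2 L1 L2 forms c c2 < 2 ^ 72)
    (h : checkR W n1 n2 l T1 T2 DRs forms L2 D1 D2 TB = true) (i j : ℕ)
    (hi : i < D1.length) (hj : j < D2.length) :
    dg 12 (dg W TB i) j = red l (entA n1 n2 l e1 e2 T1 T2 L1 L2 forms D1[i] D2[j]) := by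
  unfold checkR at h
  rw [withF_eq] at h
  have h1 := allI_spec (i := 0) h i hi
  rw [strict_eq, strict_eq, zero_add] at h1
  have h2 := lanes_spec h1 j hj
  rw [h2, hDR, rowA_eq H3 H16 Hq Hl1 _ _ _ _ (hok _ (List.getElem_mem hi)), V72_eq]
  congr 1
  rw [dg_eq, pow_mul]
  exact packL_digit (hlt _ (List.getElem_mem hi)) j hj

/-- digits of a reduced entry -/
lemma red_digits {l x y z : ℕ} (hl : 0 < l) (hl16 : l ≤ 16) (hx : x < 2 ^ 24) (hy : y < 2 ^ 24)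
    (hz : z < 2 ^ 24) : dg 4 (red l (x + 2 ^ 24 * y + 2 ^ 48 * z)) 0 = x % l ∧
      dg 4 (red l (x + 2 ^ 24 * y + 2 ^ 48 * z)) 1 = y % l ∧
      dg 4 (red l (x + 2 ^ 24 * y + 2 ^ 48 * z)) 2 = z % l := by
  have h1 : dg 24 (x + 2 ^ 24 * y + 2 ^ 48 * z) 0 = x ∧ dg 24 (x + 2 ^ 24 * y + 2 ^ 48 * z) 1 = y ∧
      dg 24 (x + 2 ^ 24 * y + 2 ^ 48 * z) 2 = z := by
    simp only [dg_eq]
    norm_num
    norm_num at hx hy hz
    omega
  have h2 : red l (x + 2 ^ 24 * y + 2 ^ 48 * z) = x % l + 16 * (y % l + 16 * (z % l)) := by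
    change dg 24 _ 0 % l + 16 * (dg 24 _ 1 % l + 16 * (dg 24 _ 2 % l)) = _
    rw [h1.1, h1.2.1, h1.2.2]
  rw [h2]
  have m1 := Nat.mod_lt x hl
  have m2 := Nat.mod_lt y hl
  have m3 := Nat.mod_lt z hl
  simp only [dg_eq]
  norm_num
  omega

end Spec

end Pool.Agent.LibH4.KF


end

section

/-!
Meaning of the table entries.
-/

namespace Pool.Agent.LibH4.KF

open Finset Ker T6

/-- an integral form over `ZMod n` -/
def fz (n : ℕ) (P R S : ℤ) (x y : ZMod n) : ZMod n :=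
  (P : ZMod n) * x ^ 2 + (R : ZMod n) * x * y + (S : ZMod n) * y ^ 2

/-- the class `c` represents the form `P, R, S` -/
def Rep {α : Type} (cf : CF α) (n : ℕ) (c : α) (P R S : ℤ) : Prop :=
  ∃ p r s : ℕ, (∀ k, cf n c k = k p r s) ∧ (p : ZMod n) = P ∧ (r : ZMod n) = R ∧ (s : ZMod n) = S

lemma Rep.ok {α : Type} {cf : CF α} {n : ℕ} {c : α} {P R S : ℤ} (h : Rep cf n c P R S) :
    CFok cf n c := by
  obtain ⟨p, r, s, hk, -⟩ := h
  exact ⟨p, r, s, hk⟩

lemma vF_val {α : Type} {n : ℕ} [NeZero n] {T : ℕ} {cf : CF α} {c : α} {P R S : ℤ}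
    (h : Rep cf n c P R S) (Q : ℕ × ℕ) :
    vF n T cf c Q = ch T (fz n P R S (Q.1 : ZMod n) (Q.2 : ZMod n)).val := by
  obtain ⟨p, r, s, hk, hp, hr, hs⟩ := h
  unfold vF
  rw [hk]
  congr 1
  have h1 : NF n p r s Q.1 Q.2 = (Q.1 * (p * Q.1 + r * Q.2) + s * (Q.2 * Q.2)) % n := rfl
  rw [h1, ← ZMod.val_natCast]
  congr 1
  unfold fz
  push_cast
  rw [hp, hr, hs]
  ring

section Sums

variable {q l : ℕ} [NeZero q]

/-- first sum -/
def XX (chi : ZMod q → ZMod l) (P R S : ℤ) : ZMod l :=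
  ∑ x, ∑ y, chi (fz q P R S x y) * (bz q l x * bz q l y)
/-- second sum -/
def YY (chi : ZMod q → ZMod l) (P R S : ℤ) : ZMod l :=
  ∑ x, ∑ y, chi (fz q P R S x y) * gz q l y
/-- third sum -/
def YX (chi : ZMod q → ZMod l) (P R S : ℤ) : ZMod l :=
  ∑ x, ∑ y, chi (fz q P R S x y) * gz q l x

/-- symmetry -/
lemma XX_swap (chi : ZMod q → ZMod l) (hodd : ∀ x, chi (-x) = - chi x) (P R S : ℤ) :
    XX chi (-S) R (-P) = XX chi P R S := by
  unfold XX
  rw [Finset.sum_comm]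
  apply Finset.sum_congr rfl
  intro x _
  rw [← Equiv.sum_comp (Equiv.neg (ZMod q))]
  apply Finset.sum_congr rfl
  intro y _
  have e : fz q (-S) R (-P) ((Equiv.neg (ZMod q)) y) x = - fz q P R S x y := by
    unfold fz
    simp only [Equiv.neg_apply]
    push_cast
    ring
  rw [e, hodd]
  have hb : bz q l ((Equiv.neg (ZMod q)) y) = - bz q l y := by
    rw [Equiv.neg_apply]
    unfold bz bI
    by_cases hy : y = 0
    · subst hy; simp
    · have : NeZero y := ⟨hy⟩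
      have hv : (-y).val = q - y.val := ZMod.val_neg_of_ne_zero y
      have hlt := ZMod.val_lt y
      have hpos : 0 < y.val := by
        rw [Nat.pos_iff_ne_zero, Ne, ZMod.val_eq_zero]
        exact hy
      rw [hv, if_neg (by omega), if_neg (by omega), Nat.cast_sub hlt.le]
      ring
  rw [hb]
  ring

/-- symmetry -/
lemma YX_swap (chi : ZMod q → ZMod l) (hodd : ∀ x, chi (-x) = - chi x) (P R S : ℤ) :
    YX chi (-S) R (-P) = - YY chi P R S := by
  unfold YX YY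
  rw [Finset.sum_comm, ← Finset.sum_neg_distrib]
  apply Finset.sum_congr rfl
  intro x _
  rw [← Equiv.sum_comp (Equiv.neg (ZMod q)), ← Finset.sum_neg_distrib]
  apply Finset.sum_congr rfl
  intro y _
  have e : fz q (-S) R (-P) ((Equiv.neg (ZMod q)) y) x = - fz q P R S x y := by
    unfold fz
    simp only [Equiv.neg_apply]
    push_cast
    ring
  rw [e, hodd]
  have hb : gz q l ((Equiv.neg (ZMod q)) y) = gz q l y := by
    rw [Equiv.neg_apply]
    unfold gz b2I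
    by_cases hy : y = 0
    · subst hy; simp
    · have : NeZero y := ⟨hy⟩
      have hv : (-y).val = q - y.val := ZMod.val_neg_of_ne_zero y
      have hlt := ZMod.val_lt y
      rw [hv, Nat.cast_sub hlt.le]
      ring
  rw [hb]
  ring

end Sums

section Cast

variable {n1 n2 l e1 e2 T1 T2 : ℕ} {L1 L2 : List (ℕ × ℕ)} [NeZero n1] [NeZero n2]
    [NeZero (n1 * n2)]

omit [NeZero n1] [NeZero n2] [NeZero (n1 * n2)] in
lemma map_fz {R' : ℕ} (h : R' ∣ n1 * n2) (P R S : ℤ) (x y : ZMod (n1 * n2)) :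
    ZMod.castHom h (ZMod R') (fz (n1 * n2) P R S x y) = fz R' P R S (ZMod.castHom h (ZMod R') x)
      (ZMod.castHom h (ZMod R') y) := by
  unfold fz
  simp only [map_add, map_mul, map_pow, map_intCast]

/-- values of the character on a form -/
lemma chiF_fz (H : Hyp n1 n2 l e1 e2 T1 T2 L1 L2) (P R S : ℤ) (p Q : ℕ × ℕ) :
    chiF n1 n2 l T1 T2 (fz (n1 * n2) P R S ((p.1 * e1 + Q.1 * e2 : ℕ) : ZMod (n1 * n2))
      ((p.2 * e1 + Q.2 * e2 : ℕ) : ZMod (n1 * n2))) =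
    (ch T1 (fz n1 P R S (p.1 : ZMod n1) (p.2 : ZMod n1)).val : ZMod l) *
    (ch T2 (fz n2 P R S (Q.1 : ZMod n2) (Q.2 : ZMod n2)).val : ZMod l) := by
  rw [chiF_castHom, map_fz, map_fz]
  simp only [map_natCast]
  push_cast
  rw [H.h11, H.h12, H.h21, H.h22]
  simp

/-- sums over residues as double sums over representatives -/
lemma sum_form (H : Hyp n1 n2 l e1 e2 T1 T2 L1 L2) (P R S : ℤ)
    (w : ZMod (n1 * n2) → ZMod (n1 * n2) → ZMod l) :
    ∑ x, ∑ y, chiF n1 n2 l T1 T2 (fz (n1 * n2) P R S x y) * w x y =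
      (L2.map fun Q => (L1.map fun p =>
        ((ch T1 (fz n1 P R S (p.1 : ZMod n1) (p.2 : ZMod n1)).val : ZMod l) *
        (ch T2 (fz n2 P R S (Q.1 : ZMod n2) (Q.2 : ZMod n2)).val : ZMod l)) *
        ∑ z, chiF n1 n2 l T1 T2 z ^ 2 * w (z * ((p.1 * e1 + Q.1 * e2 : ℕ) : ZMod (n1 * n2)))
          (z * ((p.2 * e1 + Q.2 * e2 : ℕ) : ZMod (n1 * n2)))).sum).sum := by
  have hL := isP1_mul H.co H.h11 H.h12 H.h21 H.h22 H.p1 H.p2
  have h0 := form_sum hL (chiF n1 n2 l T1 T2) (chiF_mul H) (chiF_nu H) (P : ZMod (n1 * n2))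
    (R : ZMod (n1 * n2)) (S : ZMod (n1 * n2)) w
  unfold fz at *
  rw [h0, list_sum_comm]
  unfold crtList
  rw [list_sum_flatMap]
  congr 1
  apply List.map_congr_left
  intro p _
  rw [List.map_map]
  congr 1
  apply List.map_congr_left
  intro Q _
  simp only [Function.comp]
  have := chiF_fz H P R S p Q
  unfold fz at this
  rw [this]

/-- cast of the sums over representatives -/
lemma zW_cast (w : ℕ × ℕ → ℕ × ℕ → ℕ) {α : Type} {cf : CF α} {c c2 : α} {P R S : ℤ}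
    (hc : Rep cf n1 c P R S) (hc2 : Rep cf n2 c2 P R S) :
    (zW n1 n2 l T1 T2 L1 L2 w cf c c2 : ZMod l) = (L2.map fun Q => (L1.map fun p =>
        ((ch T1 (fz n1 P R S (p.1 : ZMod n1) (p.2 : ZMod n1)).val : ZMod l) *
        (ch T2 (fz n2 P R S (Q.1 : ZMod n2) (Q.2 : ZMod n2)).val : ZMod l)) *
        (w p Q : ZMod l)).sum).sum := by
  unfold zW
  rw [Nat.cast_list_sum, List.map_map]
  congr 1
  apply List.map_congr_left
  intro Q _
  simp only [Function.comp]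
  push_cast
  rw [ZMod.natCast_mod, Nat.cast_list_sum, List.map_map, ← List.sum_map_mul_right]
  congr 1
  apply List.map_congr_left
  intro p _
  simp only [Function.comp]
  push_cast
  rw [vF_val hc, vF_val hc2]
  ring

lemma z0_cast (H : Hyp n1 n2 l e1 e2 T1 T2 L1 L2) {α : Type} {cf : CF α} {c c2 : α} {P R S : ℤ}
    (hc : Rep cf n1 c P R S) (hc2 : Rep cf n2 c2 P R S) :
    (zW n1 n2 l T1 T2 L1 L2 (wD n1 n2 l e1 e2 T1 T2) cf c c2 : ZMod l) =
      XX (chiF n1 n2 l T1 T2) P R S := by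
  unfold XX
  rw [zW_cast _ hc hc2, sum_form H P R S (fun x y => bz (n1 * n2) l x * bz (n1 * n2) l y)]
  simp only [wD_cast H]
  rfl

lemma z1_cast (H : Hyp n1 n2 l e1 e2 T1 T2 L1 L2) {α : Type} {cf : CF α} {c c2 : α} {P R S : ℤ}
    (hc : Rep cf n1 c P R S) (hc2 : Rep cf n2 c2 P R S) :
    (zW n1 n2 l T1 T2 L1 L2 (wE1 n1 n2 l e1 e2 T1 T2) cf c c2 : ZMod l) =
      YY (chiF n1 n2 l T1 T2) P R S := by
  unfold YY
  rw [zW_cast _ hc hc2, sum_form H P R S (fun x y => gz (n1 * n2) l y)]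
  simp only [wE1_cast H]
  rfl

lemma z2_cast (H : Hyp n1 n2 l e1 e2 T1 T2 L1 L2) {α : Type} {cf : CF α} {c c2 : α} {P R S : ℤ}
    (hc : Rep cf n1 c P R S) (hc2 : Rep cf n2 c2 P R S) :
    (zW n1 n2 l T1 T2 L1 L2 (wE2 n1 n2 l e1 e2 T1 T2) cf c c2 : ZMod l) =
      YX (chiF n1 n2 l T1 T2) P R S := by
  unfold YX
  rw [zW_cast _ hc hc2, sum_form H P R S (fun x y => gz (n1 * n2) l x)]
  simp only [wE2_cast H]
  rfl

omit [NeZero n1] [NeZero n2] [NeZero (n1 * n2)] in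
/-- bound -/
lemma zW_lt (H3 : 3 ≤ l) (H16 : l ≤ 16) (hL2 : L2.length ≤ 32) {α : Type} {cf : CF α} {c c2 : α}
    (w : ℕ × ℕ → ℕ × ℕ → ℕ) (hc2 : CFok cf n2 c2) :
    zW n1 n2 l T1 T2 L1 L2 w cf c c2 ≤ 7200 := by
  unfold zW
  have : (L2.map fun Q => ((L1.map fun P => vF n1 T1 cf c P * w P Q).sum % l) *
      vF n2 T2 cf c2 Q).sum < 7201 := by
    apply list_sum_lt L2 _ 225
    · intro Q _
      have h1 := Nat.mod_lt ((L1.map fun P => vF n1 T1 cf c P * w P Q).sum) (show 0 < l by omega)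
      have h2 := vF_lt (T := T2) hc2 Q
      calc _ ≤ 15 * 15 := Nat.mul_le_mul (by omega) (by omega)
        _ = 225 := by norm_num
    · omega
  omega

end Cast

end Pool.Agent.LibH4.KF


end
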