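import Mathlib
import Pool.Agent.RQM.C12
import Pool.Agent.RQM.C13

/-! Parts: Lib_helper5.LKMath, Lib_helper5.LK1, Lib_helper5.LKer, Lib_helper5.LKTab, Lib_helper5.LKSpec, Lib_helper5.LKW, Lib_helper5.LKVal, Lib_helper5.LKRel, Lib_helper5.LKUse, Lib_helper5.P5K, Lib_helper5.P4K, Lib_helper5.K4.Lst, Lib_helper5.LKG -/

namespace Pool.Agent.LibH4
end Pool.Agent.LibH4
namespace Pool.Agent.LibH4.KF
end Pool.Agent.LibH4.KF
namespace Pool.Agent.LibH4.Ker
end Pool.Agent.LibH4.Ker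
namespace Pool.Agent.LibH4.T6
end Pool.Agent.LibH4.T6
namespace Pool.Agent.Lib_helper5.LK
end Pool.Agent.Lib_helper5.LK

section

/-!
Sums attached to characters of conductor `n1 n2 n3`.
-/

namespace Pool.Agent.Lib_helper5.LK

open Finset Pool.Agent.LibH4 Pool.Agent.LibH4.T6 Pool.Agent.LibH4.KF

/-- multiplicative functions that vanish on non units -/
structure IsChar {n N : ℕ} (χ : ZMod n → ZMod N) : Prop where
  mul : ∀ x y, χ (x * y) = χ x * χ y
  nu : ∀ x, ¬ IsUnit x → χ x = 0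

/-- product of two characters -/
def prodC {n1 n2 N : ℕ} (χ1 : ZMod n1 → ZMod N) (χ2 : ZMod n2 → ZMod N) :
    ZMod (n1 * n2) → ZMod N :=
  fun x => χ1 (ZMod.castHom (dvd_mul_right n1 n2) (ZMod n1) x) *
    χ2 (ZMod.castHom (dvd_mul_left n2 n1) (ZMod n2) x)

lemma castHom_val {n m : ℕ} [NeZero n] (h : m ∣ n) (x : ZMod n) :
    ZMod.castHom h (ZMod m) x = ((x.val : ℕ) : ZMod m) := by
  conv_lhs => rw [← ZMod.natCast_zmod_val x]
  exact map_natCast _ _

lemma IsChar.prodC {n1 n2 N : ℕ} [NeZero (n1 * n2)] {χ1 : ZMod n1 → ZMod N}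
    {χ2 : ZMod n2 → ZMod N} (h1 : IsChar χ1) (h2 : IsChar χ2) : IsChar (prodC χ1 χ2) where
  mul x y := by
    unfold LK.prodC
    rw [map_mul, map_mul, h1.mul, h2.mul]
    ring
  nu x hx := by
    unfold LK.prodC
    by_cases h : IsUnit (ZMod.castHom (dvd_mul_right n1 n2) (ZMod n1) x)
    · have h' : ¬ IsUnit (ZMod.castHom (dvd_mul_left n2 n1) (ZMod n2) x) := by
        intro h'
        apply hx
        rw [castHom_val, ZMod.isUnit_iff_coprime] at h h'
        rw [← ZMod.natCast_zmod_val x, ZMod.isUnit_iff_coprime]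
        exact Nat.Coprime.mul_right h h'
      rw [h2.nu _ h', mul_zero]
    · rw [h1.nu _ h, zero_mul]

lemma isP1_congr {n : ℕ} [NeZero n] {L L' : List (ℕ × ℕ)}
    (h : (L.map fun P => (((P.1 : ℕ) : ZMod n), ((P.2 : ℕ) : ZMod n))) =
      L'.map fun P => (((P.1 : ℕ) : ZMod n), ((P.2 : ℕ) : ZMod n))) (H : IsP1 n L) :
    IsP1 n L' := by
  intro K _ F hF
  rw [H K F hF]
  have e : ∀ M : List (ℕ × ℕ), (M.map fun P => ∑ u : (ZMod n)ˣ, F (u * (P.1 : ZMod n))
      (u * (P.2 : ZMod n))) = (M.map fun P => (((P.1 : ℕ) : ZMod n), ((P.2 : ℕ) : ZMod n))).map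
        fun p => ∑ u : (ZMod n)ˣ, F (u * p.1) (u * p.2) := by
    intro M
    rw [List.map_map]
    rfl
  rw [e, e, h]

/-- the product of three lists of representatives -/
def triL (e1 e2 e3 : ℕ) (L1 L2 L3 : List (ℕ × ℕ)) : List (ℕ × ℕ) :=
  L1.flatMap fun P => L2.flatMap fun Q => L3.map fun R =>
    (P.1 * e1 + (Q.1 * e2 + R.1 * e3), P.2 * e1 + (Q.2 * e2 + R.2 * e3))

/-- idempotents modulo `n1 n2 n3` -/
structure Idem (n1 n2 n3 e1 e2 e3 : ℕ) : Prop where
  co12 : n1.Coprime n2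
  co3 : (n1 * n2).Coprime n3
  h11 : (e1 : ZMod n1) = 1
  h12 : (e1 : ZMod n2) = 0
  h13 : (e1 : ZMod n3) = 0
  h21 : (e2 : ZMod n1) = 0
  h22 : (e2 : ZMod n2) = 1
  h23 : (e2 : ZMod n3) = 0
  h31 : (e3 : ZMod n1) = 0
  h32 : (e3 : ZMod n2) = 0
  h33 : (e3 : ZMod n3) = 1
  h3' : (e3 : ZMod (n1 * n2)) = 0
  h12' : ((e1 + e2 : ℕ) : ZMod (n1 * n2)) = 1
  m11 : (e1 : ZMod (n1 * n2 * n3)) * e1 = e1
  m22 : (e2 : ZMod (n1 * n2 * n3)) * e2 = e2
  m12 : (e1 : ZMod (n1 * n2 * n3)) * e2 = 0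

section Tri

variable {n1 n2 n3 e1 e2 e3 N : ℕ} [NeZero n1] [NeZero n2] [NeZero n3] [NeZero (n1 * n2)]
  [NeZero (n1 * n2 * n3)] {L1 L2 L3 : List (ℕ × ℕ)}

omit [NeZero n1] [NeZero n2] [NeZero n3] [NeZero (n1 * n2)] [NeZero (n1 * n2 * n3)] in
lemma crt_tri (E : ℕ) (L1 L2 L3 : List (ℕ × ℕ)) : crtList E e3 (crtList e1 e2 L1 L2) L3 =
    L1.flatMap fun P => L2.flatMap fun Q => L3.map fun R =>
    ((P.1 * e1 + Q.1 * e2) * E + R.1 * e3, (P.2 * e1 + Q.2 * e2) * E + R.2 * e3) := by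
  unfold crtList
  rw [List.flatMap_assoc]
  simp only [List.flatMap_map]

lemma isP1_tri (H : Idem n1 n2 n3 e1 e2 e3) (h1 : IsP1 n1 L1) (h2 : IsP1 n2 L2)
    (h3 : IsP1 n3 L3) : IsP1 (n1 * n2 * n3) (triL e1 e2 e3 L1 L2 L3) := by
  have a1 := isP1_mul H.co12 H.h11 H.h12 H.h21 H.h22 h1 h2
  have a2 := isP1_mul (e1 := e1 + e2) (e2 := e3) H.co3 (by exact H.h12')
    (by push_cast; rw [H.h13, H.h23, add_zero]) H.h3' H.h33 a1 h3
  refine isP1_congr ?_ a2
  rw [crt_tri]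
  unfold triL
  rw [List.map_flatMap, List.map_flatMap]
  congr 1
  funext P
  rw [List.map_flatMap, List.map_flatMap]
  congr 1
  funext Q
  rw [List.map_map, List.map_map]
  apply List.map_congr_left
  intro R _
  have key : ∀ x y z : ℕ, (((x * e1 + y * e2) * (e1 + e2) + z * e3 : ℕ) : ZMod (n1 * n2 * n3)) =
      ((x * e1 + (y * e2 + z * e3) : ℕ) : ZMod (n1 * n2 * n3)) := by
    intro x y z
    push_cast
    have m11 := H.m11
    have m22 := H.m22
    have m12 := H.m12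
    linear_combination (x : ZMod (n1 * n2 * n3)) * m11 + (y : ZMod (n1 * n2 * n3)) * m22 +
      ((x : ZMod (n1 * n2 * n3)) + y) * m12
  simp only [Function.comp, key]

/-- the product of three characters -/
def tri (χ1 : ZMod n1 → ZMod N) (χ2 : ZMod n2 → ZMod N) (χ3 : ZMod n3 → ZMod N) :
    ZMod (n1 * n2 * n3) → ZMod N := prodC (prodC χ1 χ2) χ3

variable {χ1 : ZMod n1 → ZMod N} {χ2 : ZMod n2 → ZMod N} {χ3 : ZMod n3 → ZMod N}

omit [NeZero n1] [NeZero n2] [NeZero n3] in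
lemma tri_char (h1 : IsChar χ1) (h2 : IsChar χ2) (h3 : IsChar χ3) :
    IsChar (tri χ1 χ2 χ3) := (h1.prodC h2).prodC h3

omit [NeZero n1] [NeZero n2] [NeZero n3] [NeZero (n1 * n2)] [NeZero (n1 * n2 * n3)] in
lemma tri_natCast (x : ℕ) : tri χ1 χ2 χ3 (x : ZMod (n1 * n2 * n3)) =
    χ1 (x : ZMod n1) * χ2 (x : ZMod n2) * χ3 (x : ZMod n3) := by
  unfold tri prodC
  simp only [map_natCast]

omit [NeZero n1] [NeZero n2] [NeZero n3] [NeZero (n1 * n2)] [NeZero (n1 * n2 * n3)] in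
lemma tri_fz (H : Idem n1 n2 n3 e1 e2 e3) (P R S : ℤ) (p Q r : ℕ × ℕ) :
    tri χ1 χ2 χ3 (fz (n1 * n2 * n3) P R S
      ((p.1 * e1 + (Q.1 * e2 + r.1 * e3) : ℕ) : ZMod (n1 * n2 * n3))
      ((p.2 * e1 + (Q.2 * e2 + r.2 * e3) : ℕ) : ZMod (n1 * n2 * n3))) =
    χ1 (fz n1 P R S (p.1 : ZMod n1) (p.2 : ZMod n1)) *
    χ2 (fz n2 P R S (Q.1 : ZMod n2) (Q.2 : ZMod n2)) *
    χ3 (fz n3 P R S (r.1 : ZMod n3) (r.2 : ZMod n3)) := by
  unfold tri prodC
  have c1 : ∀ (m n : ℕ) (h : m ∣ n) (x y : ZMod n), ZMod.castHom h (ZMod m) (fz n P R S x y) =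
      fz m P R S (ZMod.castHom h (ZMod m) x) (ZMod.castHom h (ZMod m) y) := by
    intro m n h x y
    unfold fz
    simp only [map_add, map_mul, map_pow, map_intCast]
  rw [c1, c1, c1, c1]
  simp only [map_natCast]
  push_cast
  rw [H.h11, H.h12, H.h13, H.h21, H.h22, H.h23, H.h31, H.h32, H.h33]
  simp

lemma sum_form3 (H : Idem n1 n2 n3 e1 e2 e3) (p1 : IsP1 n1 L1) (p2 : IsP1 n2 L2)
    (p3 : IsP1 n3 L3) (h1 : IsChar χ1) (h2 : IsChar χ2) (h3 : IsChar χ3) (P R S : ℤ)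
    (w : ZMod (n1 * n2 * n3) → ZMod (n1 * n2 * n3) → ZMod N) :
    ∑ x, ∑ y, tri χ1 χ2 χ3 (fz (n1 * n2 * n3) P R S x y) * w x y =
      (L1.map fun p => (L2.map fun Q => (L3.map fun r =>
        (χ1 (fz n1 P R S (p.1 : ZMod n1) (p.2 : ZMod n1)) *
        χ2 (fz n2 P R S (Q.1 : ZMod n2) (Q.2 : ZMod n2)) *
        χ3 (fz n3 P R S (r.1 : ZMod n3) (r.2 : ZMod n3))) *
        ∑ z, tri χ1 χ2 χ3 z ^ 2 *
          w (z * ((p.1 * e1 + (Q.1 * e2 + r.1 * e3) : ℕ) : ZMod (n1 * n2 * n3)))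
            (z * ((p.2 * e1 + (Q.2 * e2 + r.2 * e3) : ℕ) : ZMod (n1 * n2 * n3)))).sum).sum).sum := by
  have hc := tri_char (n1 := n1) (n2 := n2) (n3 := n3) h1 h2 h3
  have h0 := form_sum (isP1_tri H p1 p2 p3) (tri χ1 χ2 χ3) hc.mul hc.nu
    (P : ZMod (n1 * n2 * n3)) (R : ZMod (n1 * n2 * n3)) (S : ZMod (n1 * n2 * n3)) w
  have e : ∀ x y : ZMod (n1 * n2 * n3), fz (n1 * n2 * n3) P R S x y =
      (P : ZMod (n1 * n2 * n3)) * x ^ 2 + (R : ZMod (n1 * n2 * n3)) * x * y +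
      (S : ZMod (n1 * n2 * n3)) * y ^ 2 := fun x y => rfl
  simp only [e]
  rw [h0]
  unfold triL
  rw [list_sum_flatMap]
  congr 1
  apply List.map_congr_left
  intro p _
  rw [list_sum_flatMap]
  congr 1
  apply List.map_congr_left
  intro Q _
  rw [List.map_map]
  congr 1
  apply List.map_congr_left
  intro r _
  simp only [Function.comp]
  have := tri_fz (χ1 := χ1) (χ2 := χ2) (χ3 := χ3) H P R S p Q r
  rw [e] at this
  rw [this]

/-- first sum -/
lemma XX3 (H : Idem n1 n2 n3 e1 e2 e3) (p1 : IsP1 n1 L1) (p2 : IsP1 n2 L2)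
    (p3 : IsP1 n3 L3) (h1 : IsChar χ1) (h2 : IsChar χ2) (h3 : IsChar χ3) (P R S : ℤ) :
    XX (tri χ1 χ2 χ3) P R S =
      (L1.map fun p => (L2.map fun Q => (L3.map fun r =>
        (χ1 (fz n1 P R S (p.1 : ZMod n1) (p.2 : ZMod n1)) *
        χ2 (fz n2 P R S (Q.1 : ZMod n2) (Q.2 : ZMod n2)) *
        χ3 (fz n3 P R S (r.1 : ZMod n3) (r.2 : ZMod n3))) *
        DZ (tri χ1 χ2 χ3) ((p.1 * e1 + (Q.1 * e2 + r.1 * e3) : ℕ) : ZMod (n1 * n2 * n3))
          ((p.2 * e1 + (Q.2 * e2 + r.2 * e3) : ℕ) : ZMod (n1 * n2 * n3))).sum).sum).sum := by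
  unfold XX
  rw [sum_form3 H p1 p2 p3 h1 h2 h3 P R S (fun x y => bz (n1 * n2 * n3) N x * bz (n1 * n2 * n3) N y)]
  rfl

/-- third sum -/
lemma YX3 (H : Idem n1 n2 n3 e1 e2 e3) (p1 : IsP1 n1 L1) (p2 : IsP1 n2 L2)
    (p3 : IsP1 n3 L3) (h1 : IsChar χ1) (h2 : IsChar χ2) (h3 : IsChar χ3) (P R S : ℤ) :
    YX (tri χ1 χ2 χ3) P R S =
      (L1.map fun p => (L2.map fun Q => (L3.map fun r =>
        (χ1 (fz n1 P R S (p.1 : ZMod n1) (p.2 : ZMod n1)) *
        χ2 (fz n2 P R S (Q.1 : ZMod n2) (Q.2 : ZMod n2)) *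
        χ3 (fz n3 P R S (r.1 : ZMod n3) (r.2 : ZMod n3))) *
        EZ (tri χ1 χ2 χ3) ((p.1 * e1 + (Q.1 * e2 + r.1 * e3) : ℕ) :
          ZMod (n1 * n2 * n3))).sum).sum).sum := by
  unfold YX
  rw [sum_form3 H p1 p2 p3 h1 h2 h3 P R S (fun x _ => gz (n1 * n2 * n3) N x)]
  rfl

end Tri

end Pool.Agent.Lib_helper5.LK


end

section

/-!
Packed numbers: products as inner products, rotations and lane-wise division.
-/

namespace Pool.Agent.Lib_helper5.LK

open Pool.Agent.LibH4.Ker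

/-- reverse packing: the first element is the most significant one -/
def rp {α : Type} (V : ℕ) (f : α → ℕ) : List α → ℕ
  | [] => 0
  | x :: xs => f x * V ^ xs.length + rp V f xs

lemma rp_cons {α : Type} (V : ℕ) (f : α → ℕ) (x : α) (xs : List α) :
    rp V f (x :: xs) = f x * V ^ xs.length + rp V f xs := rfl

lemma rp_append {α : Type} (V : ℕ) (f : α → ℕ) (L M : List α) :
    rp V f (L ++ M) = rp V f L * V ^ M.length + rp V f M := by
  induction L with
  | nil => simp [rp]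
  | cons x xs ih =>
    rw [List.cons_append, rp_cons, rp_cons, ih, List.length_append, pow_add]
    ring

lemma rp_map {α β : Type} (V : ℕ) (f : β → ℕ) (g : α → β) (L : List α) :
    rp V f (L.map g) = rp V (fun x => f (g x)) L := by
  induction L with
  | nil => rfl
  | cons x xs ih => rw [List.map_cons, rp_cons, rp_cons, ih, List.length_map]

lemma rp_congr {α : Type} (V : ℕ) {f g : α → ℕ} {L : List α} (h : ∀ x ∈ L, f x = g x) :
    rp V f L = rp V g L := by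
  induction L with
  | nil => rfl
  | cons x xs ih =>
    rw [rp_cons, rp_cons, h x (by simp), ih (fun y hy => h y (by simp [hy]))]

lemma rp_add {α : Type} (V : ℕ) (f g : α → ℕ) (L : List α) :
    rp V (fun x => f x + g x) L = rp V f L + rp V g L := by
  induction L with
  | nil => rfl
  | cons x xs ih => rw [rp_cons, rp_cons, rp_cons, ih]; ring

lemma rp_mul {α : Type} (V c : ℕ) (f : α → ℕ) (L : List α) :
    rp V (fun x => c * f x) L = c * rp V f L := by
  induction L with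
  | nil => rfl
  | cons x xs ih => rw [rp_cons, rp_cons, ih]; ring

lemma rp_zero {α : Type} (V : ℕ) (L : List α) : rp V (fun _ => 0) L = 0 := by
  induction L with
  | nil => rfl
  | cons x xs ih => rw [rp_cons, ih]; ring

/-- linearity over a list -/
lemma rp_sum {α β : Type} (V : ℕ) (f : β → α → ℕ) (M : List β) (L : List α) :
    (M.map fun k => rp V (f k) L).sum = rp V (fun x => (M.map fun k => f k x).sum) L := by
  induction M with
  | nil => simp [rp_zero]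
  | cons k ks ih =>
    simp only [List.map_cons, List.sum_cons]
    rw [ih, rp_add]

/-- the sum `1 + V + … + V ^ (n - 1)` -/
def geo (V : ℕ) : ℕ → ℕ
  | 0 => 0
  | n + 1 => 1 + V * geo V n

lemma geo_pow (V n : ℕ) (hV : 1 ≤ V) : (V - 1) * geo V n + 1 = V ^ n := by
  obtain ⟨W, rfl⟩ := Nat.exists_eq_add_of_le hV
  rw [Nat.add_sub_cancel_left]
  induction n with
  | zero => simp [geo]
  | succ n ih =>
    rw [geo, pow_succ', ← ih]
    ring

lemma geo_mono (V n : ℕ) : V * geo V n ≤ geo V (n + 1) := by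
  rw [geo]; omega

lemma geo_succ' (V n : ℕ) : geo V (n + 1) = geo V n + V ^ n := by
  induction n with
  | zero => simp [geo]
  | succ n ih =>
    have h1 : geo V (n + 2) = 1 + V * geo V (n + 1) := rfl
    have h2 : geo V (n + 1) = 1 + V * geo V n := rfl
    rw [h1, ih, pow_succ']
    rw [ih] at h2
    nlinarith

lemma rp_le {α : Type} {V A : ℕ} {a : α → ℕ} {L : List α} (h : ∀ x ∈ L, a x ≤ A) :
    rp V a L ≤ A * geo V L.length := by
  induction L with
  | nil => simp [rp]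
  | cons x xs ih =>
    rw [rp_cons, List.length_cons, geo_succ']
    have h1 := h x (by simp)
    have h2 := ih (fun y hy => h y (by simp [hy]))
    have h3 : a x * V ^ xs.length ≤ A * V ^ xs.length := Nat.mul_le_mul_right _ h1
    calc _ ≤ A * V ^ xs.length + A * geo V xs.length := by omega
      _ = _ := by ring

lemma rp_lt {α : Type} {V : ℕ} {a : α → ℕ} {L : List α} (h : ∀ x ∈ L, a x < V) :
    rp V a L < V ^ L.length := by
  induction L with
  | nil => simp [rp]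
  | cons x xs ih =>
    rw [rp_cons, List.length_cons, pow_succ']
    have h1 := h x (by simp)
    have h2 := ih (fun y hy => h y (by simp [hy]))
    calc _ < a x * V ^ xs.length + V ^ xs.length := by omega
      _ = (a x + 1) * V ^ xs.length := by ring
      _ ≤ V * V ^ xs.length := Nat.mul_le_mul_right _ h1

lemma packL_lt {α : Type} {V : ℕ} {f : α → ℕ} {L : List α} (h : ∀ x ∈ L, f x < V) :
    packL V f L < V ^ L.length := by
  induction L with
  | nil => simp [packL]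
  | cons x xs ih =>
    rw [packL_cons, List.length_cons, pow_succ']
    have h1 := h x (by simp)
    have h2 := ih (fun y hy => h y (by simp [hy]))
    calc f x + V * packL V f xs < V + V * packL V f xs := by omega
      _ = V * (packL V f xs + 1) := by ring
      _ ≤ V * V ^ xs.length := Nat.mul_le_mul_left _ h2

lemma packL_append {α : Type} (V : ℕ) (f : α → ℕ) (L M : List α) :
    packL V f (L ++ M) = packL V f L + V ^ L.length * packL V f M := by
  induction L with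
  | nil => simp [packL]
  | cons x xs ih =>
    rw [List.cons_append, packL_cons, packL_cons, ih, List.length_cons, pow_succ]
    ring

lemma packL_map {α β : Type} (V : ℕ) (f : β → ℕ) (g : α → β) (L : List α) :
    packL V f (L.map g) = packL V (fun x => f (g x)) L := by
  induction L with
  | nil => rfl
  | cons x xs ih => rw [List.map_cons, packL_cons, packL_cons, ih]

/-- the product of a reverse packing and a packing -/
lemma ip_aux {α : Type} (V A B : ℕ) (a b : α → ℕ) (x : α) (L : List α)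
    (ha : ∀ y ∈ x :: L, a y ≤ A) (hb : ∀ y ∈ x :: L, b y ≤ B) :
    ∃ lo hi, rp V a (x :: L) * packL V b (x :: L) =
      lo + V ^ L.length * (((x :: L).map fun y => a y * b y).sum + V * hi) ∧
      lo ≤ (L.length * (A * B)) * geo V L.length := by
  induction L generalizing x with
  | nil =>
    refine ⟨0, 0, ?_, by simp⟩
    simp [rp, packL_cons, packL_nil]
  | cons z L ih =>
    obtain ⟨lo, hi, h1, h2⟩ := ih z (fun y hy => ha y (by simp [hy])) (fun y hy => hb y (by simp [hy]))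
    have h3 : rp V a (z :: L) ≤ A * geo V (L.length + 1) :=
      rp_le (fun y hy => ha y (by simp [hy]))
    have h4 : b x ≤ B := hb x (by simp)
    refine ⟨rp V a (z :: L) * b x + V * lo, a x * packL V b (z :: L) + hi, ?_, ?_⟩
    · rw [rp_cons, packL_cons, List.map_cons, List.sum_cons]
      have e : (a x * V ^ (z :: L).length + rp V a (z :: L)) * (b x + V * packL V b (z :: L)) =
        a x * V ^ (z :: L).length * b x + V ^ (z :: L).length * (V * (a x * packL V b (z :: L)))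
        + rp V a (z :: L) * b x + V * (rp V a (z :: L) * packL V b (z :: L)) := by ring
      rw [e, h1, List.length_cons, pow_succ]
      ring
    · rw [List.length_cons]
      have h5 : rp V a (z :: L) * b x ≤ (A * geo V (L.length + 1)) * B := Nat.mul_le_mul h3 h4
      have h6 : V * lo ≤ L.length * (A * B) * geo V (L.length + 1) := by
        calc V * lo ≤ V * ((L.length * (A * B)) * geo V L.length) := Nat.mul_le_mul_left _ h2
          _ = (L.length * (A * B)) * (V * geo V L.length) := by ring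
          _ ≤ _ := Nat.mul_le_mul_left _ (geo_mono V _)
      calc _ ≤ (A * geo V (L.length + 1)) * B + L.length * (A * B) * geo V (L.length + 1) := by
            omega
        _ = _ := by ring

/-- **inner products by one multiplication** -/
lemma ip_eq {α : Type} {V A B : ℕ} {a b : α → ℕ} {L : List α} (hL : L ≠ [])
    (ha : ∀ y ∈ L, a y ≤ A) (hb : ∀ y ∈ L, b y ≤ B) (hV : L.length * (A * B) < V) :
    rp V a L * packL V b L / V ^ (L.length - 1) % V = (L.map fun y => a y * b y).sum := by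
  obtain ⟨x, M, rfl⟩ := List.exists_cons_of_ne_nil hL
  obtain ⟨lo, hi, h1, h2⟩ := ip_aux V A B a b x M ha hb
  have hV1 : 1 ≤ V := by omega
  rw [h1, List.length_cons, Nat.add_sub_cancel]
  rw [List.length_cons] at hV
  have hlo : lo < V ^ M.length := by
    have h3 := geo_pow V M.length hV1
    have h4 : M.length * (A * B) ≤ V - 1 := by
      have : M.length * (A * B) ≤ (M.length + 1) * (A * B) := Nat.mul_le_mul_right _ (by omega)
      omega
    have h5 : (M.length * (A * B)) * geo V M.length ≤ (V - 1) * geo V M.length :=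
      Nat.mul_le_mul_right _ h4
    omega
  have hS : ((x :: M).map fun y => a y * b y).sum < V := by
    refine lt_of_le_of_lt ?_ hV
    have : ∀ N : List α, (∀ y ∈ N, a y ≤ A) → (∀ y ∈ N, b y ≤ B) →
        (N.map fun y => a y * b y).sum ≤ N.length * (A * B) := by
      intro N
      induction N with
      | nil => intro _ _; simp
      | cons z N ih =>
        intro h h'
        rw [List.map_cons, List.sum_cons, List.length_cons]
        have h6 := ih (fun y hy => h y (by simp [hy])) (fun y hy => h' y (by simp [hy]))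
        have h7 : a z * b z ≤ A * B := Nat.mul_le_mul (h z (by simp)) (h' z (by simp))
        calc _ ≤ A * B + N.length * (A * B) := by omega
          _ = _ := by ring
    exact this (x :: M) ha hb
  have hpos : 0 < V ^ M.length := by positivity
  rw [Nat.add_mul_div_left _ _ hpos, Nat.div_eq_of_lt hlo, zero_add, Nat.add_mul_mod_self_left,
    Nat.mod_eq_of_lt hS]

/-- a window of a packing -/
lemma packL_window {V : ℕ} {f : ℕ → ℕ} (hf : ∀ i, f i < V) (h m n : ℕ) (hn : h + m ≤ n) :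
    packL V f (List.range n) / V ^ h % V ^ m = packL V (fun i => f (h + i)) (List.range m) := by
  have hV : 0 < V := lt_of_le_of_lt (Nat.zero_le _) (hf 0)
  obtain ⟨k, rfl⟩ := Nat.exists_eq_add_of_le hn
  rw [List.range_add, List.range_add, packL_append, packL_append, packL_map, packL_map,
    List.length_append, List.length_map, List.length_range, List.length_range]
  have h1 : packL V f (List.range h) < V ^ h := by
    have := packL_lt (V := V) (f := f) (L := List.range h) (fun x _ => hf x)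
    rwa [List.length_range] at this
  have h2 : packL V (fun i => f (h + i)) (List.range m) < V ^ m := by
    have := packL_lt (V := V) (f := fun i => f (h + i)) (L := List.range m) (fun x _ => hf _)
    rwa [List.length_range] at this
  have e : packL V f (List.range h) + V ^ h * packL V (fun x => f (h + x)) (List.range m) +
      V ^ (h + m) * packL V (fun x => f (h + m + x)) (List.range k) =
      packL V f (List.range h) + V ^ h * (packL V (fun x => f (h + x)) (List.range m) +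
      V ^ m * packL V (fun x => f (h + m + x)) (List.range k)) := by
    rw [pow_add]; ring
  rw [e, Nat.add_mul_div_left _ _ (by positivity), Nat.div_eq_of_lt h1, zero_add,
    Nat.add_mul_mod_self_left, Nat.mod_eq_of_lt h2]

/-- `land` of two numbers with a low digit split off -/
lemma land_split {w a b c d : ℕ} (ha : a < 2 ^ w) (hc : c < 2 ^ w) :
    Nat.land (a + 2 ^ w * b) (c + 2 ^ w * d) = Nat.land a c + 2 ^ w * Nat.land b d := by
  have hac : Nat.land a c < 2 ^ w := Nat.and_lt_two_pow _ hc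
  apply Nat.eq_of_testBit_eq
  intro i
  have e1 : (Nat.land (a + 2 ^ w * b) (c + 2 ^ w * d)).testBit i =
      ((a + 2 ^ w * b).testBit i && (c + 2 ^ w * d).testBit i) := Nat.testBit_land _ _ _
  have e2 : (Nat.land a c).testBit i = (a.testBit i && c.testBit i) := Nat.testBit_land _ _ _
  have e3 : ∀ j, (Nat.land b d).testBit j = (b.testBit j && d.testBit j) :=
    fun j => Nat.testBit_land _ _ _
  rw [e1, add_comm a, add_comm c, add_comm (Nat.land a c), Nat.testBit_two_pow_mul_add _ ha,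
    Nat.testBit_two_pow_mul_add _ hc, Nat.testBit_two_pow_mul_add _ hac]
  split_ifs
  · rw [e2]
  · rw [e3]

/-- lane-wise division by a power of two -/
lemma land_floor {α : Type} {w k : ℕ} (hk : k ≤ w) {f : α → ℕ} {L : List α}
    (h : ∀ x ∈ L, f x < 2 ^ w) :
    Nat.land (packL (2 ^ w) f L / 2 ^ k) (packL (2 ^ w) (fun _ => 2 ^ (w - k) - 1) L) =
      packL (2 ^ w) (fun x => f x / 2 ^ k) L := by
  induction L with
  | nil =>
    change (0 / 2 ^ k) &&& 0 = 0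
    simp
  | cons x xs ih =>
    rw [packL_cons, packL_cons, packL_cons]
    have hx := h x (by simp)
    have hw : (2 : ℕ) ^ w = 2 ^ k * 2 ^ (w - k) := by rw [← pow_add]; congr 1; omega
    set P := packL (2 ^ w) f xs with hP
    -- divide
    have e1 : (f x + 2 ^ w * P) / 2 ^ k = f x / 2 ^ k + 2 ^ (w - k) * P := by
      rw [hw, mul_assoc, Nat.add_mul_div_left _ _ (by positivity)]
    have hfk : f x / 2 ^ k < 2 ^ (w - k) := by
      rw [Nat.div_lt_iff_lt_mul (by positivity), mul_comm, ← hw]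
      exact hx
    -- split `P`
    have e2 : P = P % 2 ^ k + 2 ^ k * (P / 2 ^ k) := (Nat.mod_add_div _ _).symm
    have e3 : f x / 2 ^ k + 2 ^ (w - k) * P =
        (f x / 2 ^ k + 2 ^ (w - k) * (P % 2 ^ k)) + 2 ^ w * (P / 2 ^ k) := by
      conv_lhs => rw [e2]
      rw [hw]; ring
    have hlow : f x / 2 ^ k + 2 ^ (w - k) * (P % 2 ^ k) < 2 ^ w := by
      have h1 : P % 2 ^ k + 1 ≤ 2 ^ k := Nat.mod_lt _ (by positivity)
      calc _ < 2 ^ (w - k) + 2 ^ (w - k) * (P % 2 ^ k) := by omega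
        _ = 2 ^ (w - k) * (P % 2 ^ k + 1) := by ring
        _ ≤ 2 ^ (w - k) * 2 ^ k := Nat.mul_le_mul_left _ h1
        _ = 2 ^ w := by rw [hw]; ring
    have hmask : 2 ^ (w - k) - 1 < 2 ^ w := by
      have : (2 : ℕ) ^ (w - k) ≤ 2 ^ w := Nat.pow_le_pow_right (by norm_num) (by omega)
      have : 0 < (2 : ℕ) ^ (w - k) := by positivity
      omega
    rw [e1, e3, land_split hlow hmask, ih (fun y hy => h y (by simp [hy]))]
    congr 1
    change (f x / 2 ^ k + 2 ^ (w - k) * (P % 2 ^ k)) &&& (2 ^ (w - k) - 1) = f x / 2 ^ k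
    rw [Nat.and_two_pow_sub_one_eq_mod, Nat.add_mul_mod_self_left, Nat.mod_eq_of_lt hfk]

end Pool.Agent.Lib_helper5.LK


end

section

/-!
Kernel friendly functions for relations attached to characters of conductor `n1 n2 n3`.
Character tables are packed in base `2 ^ 16`, inner products in base `2 ^ 80`, weight vectors in
base `2 ^ 64`.
-/

namespace Pool.Agent.Lib_helper5.LK

open Pool.Agent.LibH4.Ker

/-- table lookup -/
def chw (T x : ℕ) : ℕ := Nat.mod (Nat.shiftRight T (Nat.mul (nat_lit 16) x)) (nat_lit 65536)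

/-- the value of a form modulo `n` -/
def nf (n P R S x y : ℕ) : ℕ :=
  Nat.mod (Nat.add (Nat.mul x (Nat.add (Nat.mul P x) (Nat.mul R y))) (Nat.mul S (Nat.mul y y))) n

/-- selection -/
def sel (x a b : ℕ) : ℕ := @Nat.rec (fun _ => ℕ) a (fun _ _ => b) x

/-- reverse packing, kernel friendly -/
def rpk {α : Type} (V : ℕ) (f : α → ℕ) (L : List α) : ℕ → ℕ :=
  @List.rec α (fun _ => ℕ → ℕ) (fun acc => acc)
    (fun x _ ih acc => strict (Nat.add (Nat.mul acc V) (f x)) ih) L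

/-! ### weights -/

/-- the character of conductor `n1 n2 n3` modulo `N` -/
def chi3 (n1 n2 n3 N T1 T2 T3 u : ℕ) : ℕ :=
  Nat.mod (Nat.mul (Nat.mod (Nat.mul (chw T1 (Nat.mod u n1)) (chw T2 (Nat.mod u n2))) N)
    (chw T3 (Nat.mod u n3))) N

/-- table of the squares of the character -/
def csq (n1 n2 n3 q N T1 T2 T3 : ℕ) : ℕ :=
  packR (nat_lit 16) (fun u => strict (chi3 n1 n2 n3 N T1 T2 T3 u) fun c =>
    Nat.mod (Nat.mul c c) N) q

/-- `q - 2 r` modulo `N`, and `0` at `0` -/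
def bzn (q N r : ℕ) : ℕ := @Nat.rec (fun _ => ℕ) (nat_lit 0)
  (fun _ _ => Nat.add q (Nat.mul (Nat.sub N (nat_lit 2)) r)) r

/-- `6 r ^ 2 - 6 q r + q ^ 2` modulo `N` -/
def gzn (q N r : ℕ) : ℕ := Nat.add (Nat.add (Nat.mul (nat_lit 6) (Nat.mul r r))
  (Nat.mul (Nat.mul (nat_lit 6) (Nat.sub N (nat_lit 1))) (Nat.mul q r))) (Nat.mul q q)

/-- packed triple: sum of the coefficients times the floors, sum of the coefficients, and sum of
the coefficients times the argument -/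
def dvt (q N cc CT Yv Mk X u : ℕ) (k : ℕ → ℕ → ℕ → ℕ) (fl s0 s1 : ℕ) : ℕ :=
  @Nat.rec (fun _ => ℕ) (k fl s0 s1) (fun c _ =>
    strict (Nat.mod (Nat.mul (Nat.succ c) (bzn q N (Nat.mod (Nat.mul u X) q))) N) fun co =>
    strict (Nat.add fl (Nat.mul co (Nat.land (Nat.shiftRight (Nat.mul (Nat.mul u cc) Yv)
      (nat_lit 40)) Mk))) fun fl' =>
    strict (Nat.add s0 co) fun s0' => strict (Nat.add s1 (Nat.mul co u)) fun s1' =>
      k fl' s0' s1') (chw CT u)

/-- the loop over `u` -/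
def dvl (q N cc CT Yv Mk X : ℕ) (k : ℕ → ℕ → ℕ → ℕ) (n : ℕ) : ℕ → ℕ → ℕ → ℕ :=
  @Nat.rec (fun _ => ℕ → ℕ → ℕ → ℕ) k
    (fun u ih fl s0 s1 => dvt q N cc CT Yv Mk X u ih fl s0 s1) n

/-- the vector of the weights `D (X, Y)`, `Y < q` -/
def dv (q N cc CT Yv On Mk X : ℕ) : ℕ :=
  dvl q N cc CT Yv Mk X (fun fl s0 s1 => Nat.add (Nat.mul (Nat.mul q s0) On)
    (Nat.mul (Nat.sub N (nat_lit 2)) (Nat.sub (Nat.mul s1 Yv) (Nat.mul q fl)))) q
    (nat_lit 0) (nat_lit 0) (nat_lit 0)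

/-- the weight `E (X)` -/
def ev (q N CT X : ℕ) : ℕ :=
  Nat.mod (sumR (fun u => @Nat.rec (fun _ => ℕ) (nat_lit 0) (fun c _ =>
    Nat.mul (Nat.succ c) (gzn q N (Nat.mod (Nat.mul u X) q))) (chw CT u)) q) N

/-- eight numbers indexed by the first coordinates -/
def with8 {β : Type} (f : ℕ → ℕ) (e1 e2 e3 q : ℕ)
    (k : (ℕ → ℕ → ℕ → ℕ) → β) : β :=
  strict (f (nat_lit 0)) fun f000 => strict (f (Nat.mod e3 q)) fun f001 =>
  strict (f (Nat.mod e2 q)) fun f010 => strict (f (Nat.mod (Nat.add e2 e3) q)) fun f011 =>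
  strict (f (Nat.mod e1 q)) fun f100 => strict (f (Nat.mod (Nat.add e1 e3) q)) fun f101 =>
  strict (f (Nat.mod (Nat.add e1 e2) q)) fun f110 =>
  strict (f (Nat.mod (Nat.add e1 (Nat.add e2 e3)) q)) fun f111 =>
  k fun a b c => sel a (sel b (sel c f000 f001) (sel c f010 f011))
    (sel b (sel c f100 f101) (sel c f110 f111))

/-- weight at a representative -/
def wd (q N e1 e2 e3 : ℕ) (d : ℕ → ℕ → ℕ → ℕ) (P Q R : ℕ × ℕ) : ℕ :=
  strict (Nat.mod (Nat.add (Nat.mul P.2 e1) (Nat.add (Nat.mul Q.2 e2) (Nat.mul R.2 e3))) q) fun Y =>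
  @Nat.rec (fun _ => ℕ) (nat_lit 0) (fun _ _ =>
    Nat.mod (Nat.mod (Nat.shiftRight (d P.1 Q.1 R.1) (Nat.mul (nat_lit 64)
      (Nat.sub (Nat.sub q (nat_lit 1)) Y))) (nat_lit 18446744073709551616)) N) Y

/-- the weights packed -/
def wrev (q N e1 e2 e3 : ℕ) (d : ℕ → ℕ → ℕ → ℕ) (L1 L2 L3 : List (ℕ × ℕ)) (V w3 w : ℕ) : ℕ :=
  rpk w (fun P => rpk w3 (fun Q => rpk V (fun R => wd q N e1 e2 e3 d P Q R) L3 (nat_lit 0)) L2
    (nat_lit 0)) L1 (nat_lit 0)

/-- the weights `E` packed -/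
def wyrev (e : ℕ → ℕ → ℕ → ℕ) (x1 : ℕ) (L2 L3 : List (ℕ × ℕ)) (V w3 : ℕ) : ℕ :=
  rpk w3 (fun Q => rpk V (fun R => e x1 Q.1 R.1) L3 (nat_lit 0)) L2 (nat_lit 0)

/-- set up of a relation: the packed weights; `w3`, `w` are bit widths -/
def setup {β : Type} (n1 n2 n3 e1 e2 e3 N T1 T2 T3 : ℕ) (L1 L2 L3 : List (ℕ × ℕ)) (w3 w : ℕ)
    (k : (ℕ → ℕ → ℕ → ℕ) → ℕ → ℕ → ℕ → β) : β :=
  strict (Nat.mul (Nat.mul n1 n2) n3) fun q =>
  strict (csq n1 n2 n3 q N T1 T2 T3) fun CT =>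
  strict (packR (nat_lit 64) (fun _ => nat_lit 1) q) fun On =>
  strict (packR (nat_lit 64) (fun y => Nat.sub (Nat.sub q (nat_lit 1)) y) q) fun Yv =>
  strict (Nat.mul (nat_lit 16777215) On) fun Mk =>
  strict (Nat.succ (Nat.div (nat_lit 1099511627776) q)) fun cc =>
  strict (Nat.pow (nat_lit 2) w3) fun v3 =>
  strict (Nat.pow (nat_lit 2) w) fun v =>
  with8 (dv q N cc CT Yv On Mk) e1 e2 e3 q fun d =>
  with8 (ev q N CT) e1 e2 e3 q fun e =>
  strict (wrev q N e1 e2 e3 d L1 L2 L3 (nat_lit 1208925819614629174706176) v3 v) fun W =>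
  strict (wyrev e (nat_lit 1) L2 L3 (nat_lit 1208925819614629174706176) v3) fun WY1 =>
  strict (wyrev e (nat_lit 0) L2 L3 (nat_lit 1208925819614629174706176) v3) fun WY0 =>
    k e W WY1 WY0

/-- check of the packed weights -/
def wchk (n1 n2 n3 e1 e2 e3 N l fr T1 T2 T3 : ℕ) (L1 L2 L3 : List (ℕ × ℕ)) (w3 w W Y1 Y0 : ℕ) :
    Bool :=
  setup n1 n2 n3 e1 e2 e3 N T1 T2 T3 L1 L2 L3 w3 w fun e W' Y1' Y0' =>
    @Bool.rec (fun _ => Bool) false (@Bool.rec (fun _ => Bool) false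
      (@Bool.rec (fun _ => Bool) false
        (allL (fun Q => allL (fun R =>
          @Bool.rec (fun _ => Bool) false
            (Nat.beq (Nat.mod (Nat.mul fr (e (nat_lit 0) Q.1 R.1)) (Nat.mul l l)) (nat_lit 0))
            (Nat.beq (Nat.mod (Nat.mul fr (e (nat_lit 1) Q.1 R.1)) l) (nat_lit 0))) L3) L2)
        (Nat.beq Y0' Y0)) (Nat.beq Y1' Y1)) (Nat.beq W' W)

/-! ### the outer component -/

/-- doubled base vector; `w` is the width in bits of a digit -/
def gg (p T w δ : ℕ) : ℕ :=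
  packR w (fun z => chw T (Nat.mod (Nat.add (Nat.mul z z) (Nat.sub p δ)) p))
    (Nat.mul (nat_lit 2) p)
/-- total of the base vector -/
def gs (p T δ : ℕ) : ℕ :=
  sumR (fun z => chw T (Nat.mod (Nat.add (Nat.mul z z) (Nat.sub p δ)) p)) p

/-- the list of base vectors -/
def ggl {β : Type} (p T w : ℕ) (L : List ℕ) (k : List (ℕ × ℕ × ℕ) → β) : β :=
  @List.rec ℕ (fun _ => (List (ℕ × ℕ × ℕ) → β) → β) (fun k => k [])
    (fun δ _ ih k => strict (gg p T w δ) fun G => strict (gs p T δ) fun g =>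
      ih fun rest => k ((δ, G, g) :: rest)) L k

/-- lookup -/
def look (δ : ℕ) (L : List (ℕ × ℕ × ℕ)) (k : ℕ → ℕ → Bool) : Bool :=
  @List.rec (ℕ × ℕ × ℕ) (fun _ => Bool) false (fun x _ ih =>
    @Bool.rec (fun _ => Bool) ih (k x.2.1 x.2.2) (Nat.beq x.1 δ)) L

/-- the vector of values of a form on the representatives of the projective line, with the sum
over the finite part and the value at infinity -/
def fvec (p T w : ℕ) (Gs : List (ℕ × ℕ × ℕ)) (d R S : ℕ) (k : ℕ → ℕ → ℕ → Bool) : Bool :=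
  strict (Nat.mod (Nat.pow (Nat.mul (nat_lit 2) S) (Nat.sub p (nat_lit 2))) p) fun i =>
  @Bool.rec (fun _ => Bool) false
    (strict (Nat.mod (Nat.mul R i) p) fun h =>
    look (Nat.mod (Nat.mul d (Nat.mul i i)) p) Gs fun G g =>
    strict (chw T S) fun s =>
    strict (Nat.mul s (Nat.add (Nat.mod (Nat.shiftRight G (Nat.mul w h))
      (Nat.pow (nat_lit 2) (Nat.mul w p))) (Nat.pow (nat_lit 2) (Nat.mul w p))))
      fun v => k v (Nat.mul s g) s)
    (Nat.beq (Nat.mod (Nat.mul (Nat.mul (nat_lit 2) S) i) p) (nat_lit 1))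

/-- the packed row of a list of forms (with coefficients `κ, α`), for a class of the outer
component; `fr = 1` demands the divisibility of the sums by `l` -/
def rowA (p T w : ℕ) (Gs : List (ℕ × ℕ × ℕ)) (W WY1 WY0 fr l d : ℕ)
    (FK : List ((ℕ × ℕ) × (ℕ × ℕ))) : ℕ → (ℕ → Bool) → Bool :=
  @List.rec _ (fun _ => ℕ → (ℕ → Bool) → Bool) (fun acc k => k acc)
    (fun x _ ih acc k => fvec p T w Gs d x.1.1 x.1.2 fun v g s =>
      @Bool.rec (fun _ => Bool) false
        (strict (Nat.add (Nat.shiftLeft acc w) (Nat.add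
          (Nat.mul x.2.1 (Nat.mod (Nat.shiftRight (Nat.mul W v) (Nat.mul w p)) (Nat.pow (nat_lit 2) w)))
          (Nat.mul x.2.2 (Nat.add (Nat.mul g WY1) (Nat.mul s WY0))))) fun acc' => ih acc' k)
        (Nat.beq (Nat.mod (Nat.mul fr g) l) (nat_lit 0))) FK

/-! ### the inner components -/

/-- values of a form on a list of representatives, packed in base `V` -/
def pv (n T V : ℕ) (L : List (ℕ × ℕ)) (f : ℕ × ℕ × ℕ) : ℕ :=
  packL V (fun Q => chw T (nf n f.1 f.2.1 f.2.2 Q.1 Q.2)) L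

/-- vectors of a list of forms, first form most significant -/
def vecA (n T V w : ℕ) (L : List (ℕ × ℕ)) (F : List (ℕ × ℕ × ℕ)) : ℕ → ℕ :=
  @List.rec _ (fun _ => ℕ → ℕ) (fun acc => acc) (fun f _ ih acc =>
    strict (Nat.add (Nat.shiftLeft acc w) (pv n T V L f)) ih) F

/-- vectors of a list of forms, first form least significant -/
def vecB (n T V w : ℕ) (L : List (ℕ × ℕ)) (F : List (ℕ × ℕ × ℕ)) : ℕ :=
  packL (Nat.pow (nat_lit 2) w) (pv n T V L) F

/-- contraction with the middle component: `K` forms, blocks of width `w`, results of width `w3`,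
`sh` the shift to the middle digit -/
def red (w w3 sh K : ℕ) : ℕ → ℕ → ℕ :=
  @Nat.rec (fun _ => ℕ → ℕ → ℕ) (fun _ _ => (nat_lit 0)) (fun _ ih A v =>
    Nat.add (Nat.shiftLeft (ih (Nat.shiftRight A w) (Nat.shiftRight v w)) w3)
      (Nat.mod (Nat.shiftRight (Nat.mul (Nat.mod A (Nat.pow (nat_lit 2) w))
        (Nat.mod v (Nat.pow (nat_lit 2) w))) sh) (Nat.pow (nat_lit 2) w3))) K

/-- inner product: digit at the shift `sh` modulo `N` -/
def ip (N sh A v : ℕ) : ℕ :=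
  Nat.mod (Nat.mod (Nat.shiftRight (Nat.mul A v) sh) (nat_lit 1208925819614629174706176)) N

/-- conditional -/
def cond0 (n : ℕ) (a : Bool) : Bool := @Nat.rec (fun _ => Bool) a (fun _ _ => true) n

end Pool.Agent.Lib_helper5.LK


end

section

/-!
Tables of characters, representatives of the projective line and the vectors of values of a form.
-/

namespace Pool.Agent.Lib_helper5.LK

open Finset Pool.Agent.LibH4 Pool.Agent.LibH4.Ker Pool.Agent.LibH4.T6 Pool.Agent.LibH4.KF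

/-- conjunction, kernel friendly -/
def andB (a b : Bool) : Bool := @Bool.rec (fun _ => Bool) false b a

lemma andB_spec {a b : Bool} (h : andB a b = true) : a = true ∧ b = true := by
  cases a
  · exact absurd h (by simp [andB])
  · exact ⟨rfl, h⟩

lemma boolrec_spec {a b : Bool} (h : @Bool.rec (fun _ => Bool) false b a = true) :
    a = true ∧ b = true := andB_spec h

lemma chw_eq (T x : ℕ) : chw T x = T / 2 ^ (16 * x) % 2 ^ 16 := by
  unfold chw
  change (T >>> (16 * x)) % 65536 = _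
  rw [Nat.shiftRight_eq_div_pow]
  norm_num

lemma chw_packR {f : ℕ → ℕ} (h : ∀ m, f m < 2 ^ 16) {n m : ℕ} (hm : m < n) :
    chw (packR (nat_lit 16) f n) m = f m := by
  rw [chw_eq]
  exact packR_digit (w := 16) h m hm

/-! ### tables -/

/-- check of a table: bound, multiplicativity and support -/
def tabCk (n N T : ℕ) : Bool :=
  andB (allR (fun u => Nat.ble (Nat.succ (chw T u)) N) n)
  (andB (allR (fun u => allR (fun v => Nat.beq (Nat.mod (chw T (Nat.mod (Nat.mul u v) n)) N)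
      (Nat.mod (Nat.mul (chw T u) (chw T v)) N)) n) n)
    (allR (fun u => @Bool.rec (fun _ => Bool) (Nat.beq (chw T u) (nat_lit 0)) true
      (Nat.beq (Nat.gcd u n) (nat_lit 1))) n))

/-- the character of a table -/
def tabc (n N T : ℕ) : ZMod n → ZMod N := fun x => ((chw T x.val : ℕ) : ZMod N)

lemma tabCk_lt {n N T : ℕ} (h : tabCk n N T = true) : ∀ u < n, chw T u < N := by
  intro u hu
  have h1 := allR_spec (andB_spec h).1 u hu
  exact Nat.le_of_ble_eq_true h1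

lemma tabCk_char {n N T : ℕ} [NeZero n] (h : tabCk n N T = true) : IsChar (tabc n N T) where
  mul x y := by
    have h1 := allR_spec (allR_spec (andB_spec (andB_spec h).2).1 x.val (ZMod.val_lt x))
      y.val (ZMod.val_lt y)
    have h2 : chw T (x.val * y.val % n) % N = chw T x.val * chw T y.val % N :=
      Nat.eq_of_beq_eq_true h1
    have h3 := congrArg (fun x : ℕ => (x : ZMod N)) h2
    simp only [ZMod.natCast_mod] at h3
    unfold tabc
    rw [ZMod.val_mul, h3]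
    push_cast
    rfl
  nu x hx := by
    have h1 := allR_spec (andB_spec (andB_spec h).2).2 x.val (ZMod.val_lt x)
    rw [← ZMod.natCast_zmod_val x, ZMod.isUnit_iff_coprime] at hx
    unfold tabc
    cases h3 : Nat.beq (Nat.gcd x.val n) (nat_lit 1) with
    | false =>
      rw [h3] at h1
      have : chw T x.val = 0 := Nat.eq_of_beq_eq_true h1
      rw [this]
      simp
    | true => exact absurd (Nat.eq_of_beq_eq_true h3) hx

lemma tabc_natCast (n N T x : ℕ) : tabc n N T (x : ZMod n) = ((chw T (x % n) : ℕ) : ZMod N) := by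
  unfold tabc
  rw [ZMod.val_natCast]

/-! ### representatives -/

/-- representatives of the projective line over `ZMod p` -/
def PL (p : ℕ) : List (ℕ × ℕ) := (List.range p).map (fun y => (1, y)) ++ [(0, 1)]

lemma PL_length (p : ℕ) : (PL p).length = p + 1 := by simp [PL]

lemma isP1_PL {p : ℕ} [NeZero p] (hp : p.Prime) : IsP1 p (PL p) := by
  have key : ∀ n : ℕ, ∀ _ : NeZero n, n = p ^ 1 → IsP1 n (p1List p n) := by
    intro n _ h
    subst h
    exact isP1_prime_pow hp one_pos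
  have h := key p inferInstance (pow_one p).symm
  have e : p1List p p = PL p := by
    unfold p1List PL
    rw [Nat.div_self hp.pos]
    simp
  rwa [e] at h

/-- the only representative for the modulus one -/
def PO : List (ℕ × ℕ) := [(0, 0)]

lemma isP1_PO : IsP1 1 PO := by
  intro K _ F hF
  have e : ∀ x : ZMod 1, x = 0 := fun x => Subsingleton.elim _ _
  have h1 : ∀ f : ZMod 1 → K, ∑ x, f x = f 0 := by
    intro f
    rw [Fintype.sum_eq_single 0]
    intro x hx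
    exact absurd (e x) hx
  have h2 : ∀ f : (ZMod 1)ˣ → K, ∑ x, f x = f 1 := by
    intro f
    rw [Fintype.sum_eq_single 1]
    intro x hx
    exact absurd (Subsingleton.elim _ _) hx
  rw [h1, h1]
  unfold PO
  rw [List.map_singleton, List.sum_singleton, h2]
  congr 1

lemma mem_PL {p : ℕ} {Q : ℕ × ℕ} (h : Q ∈ PL p) : (Q.1 = 1 ∧ Q.2 < p) ∨ Q = (0, 1) := by
  unfold PL at h
  rcases List.mem_append.1 h with h | h
  · obtain ⟨y, hy, rfl⟩ := List.mem_map.1 h
    exact Or.inl ⟨rfl, List.mem_range.1 hy⟩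
  · exact Or.inr (List.mem_singleton.1 h)


/-! explicit lists -/

/-- representatives of the projective line -/
def L5 : List (ℕ × ℕ) := [(nat_lit 1, nat_lit 0), (nat_lit 1, nat_lit 1), (nat_lit 1, nat_lit 2), (nat_lit 1, nat_lit 3), (nat_lit 1, nat_lit 4), (nat_lit 0, nat_lit 1)]

lemma L5_eq : L5 = PL 5 := by decide

/-- representatives of the projective line -/
def L7 : List (ℕ × ℕ) := [(nat_lit 1, nat_lit 0), (nat_lit 1, nat_lit 1), (nat_lit 1, nat_lit 2), (nat_lit 1, nat_lit 3), (nat_lit 1, nat_lit 4), (nat_lit 1, nat_lit 5), (nat_lit 1, nat_lit 6), (nat_lit 0, nat_lit 1)]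

lemma L7_eq : L7 = PL 7 := by decide

/-- representatives of the projective line -/
def L11 : List (ℕ × ℕ) := [(nat_lit 1, nat_lit 0), (nat_lit 1, nat_lit 1), (nat_lit 1, nat_lit 2), (nat_lit 1, nat_lit 3), (nat_lit 1, nat_lit 4), (nat_lit 1, nat_lit 5), (nat_lit 1, nat_lit 6), (nat_lit 1, nat_lit 7), (nat_lit 1, nat_lit 8), (nat_lit 1, nat_lit 9), (nat_lit 1, nat_lit 10), (nat_lit 0, nat_lit 1)]

lemma L11_eq : L11 = PL 11 := by decide

/-- representatives of the projective line -/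
def L13 : List (ℕ × ℕ) := [(nat_lit 1, nat_lit 0), (nat_lit 1, nat_lit 1), (nat_lit 1, nat_lit 2), (nat_lit 1, nat_lit 3), (nat_lit 1, nat_lit 4), (nat_lit 1, nat_lit 5), (nat_lit 1, nat_lit 6), (nat_lit 1, nat_lit 7), (nat_lit 1, nat_lit 8), (nat_lit 1, nat_lit 9), (nat_lit 1, nat_lit 10), (nat_lit 1, nat_lit 11), (nat_lit 1, nat_lit 12), (nat_lit 0, nat_lit 1)]

lemma L13_eq : L13 = PL 13 := by decide

/-- representatives of the projective line -/
def L17 : List (ℕ × ℕ) := [(nat_lit 1, nat_lit 0), (nat_lit 1, nat_lit 1), (nat_lit 1, nat_lit 2), (nat_lit 1, nat_lit 3), (nat_lit 1, nat_lit 4), (nat_lit 1, nat_lit 5), (nat_lit 1, nat_lit 6), (nat_lit 1, nat_lit 7), (nat_lit 1, nat_lit 8), (nat_lit 1, nat_lit 9), (nat_lit 1, nat_lit 10), (nat_lit 1, nat_lit 11), (nat_lit 1, nat_lit 12), (nat_lit 1, nat_lit 13), (nat_lit 1, nat_lit 14), (nat_lit 1, nat_lit 15), (nat_lit 1, nat_lit 16), (nat_lit 0, nat_lit 1)]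

lemma L17_eq : L17 = PL 17 := by decide

/-- representatives of the projective line -/
def L19 : List (ℕ × ℕ) := [(nat_lit 1, nat_lit 0), (nat_lit 1, nat_lit 1), (nat_lit 1, nat_lit 2), (nat_lit 1, nat_lit 3), (nat_lit 1, nat_lit 4), (nat_lit 1, nat_lit 5), (nat_lit 1, nat_lit 6), (nat_lit 1, nat_lit 7), (nat_lit 1, nat_lit 8), (nat_lit 1, nat_lit 9), (nat_lit 1, nat_lit 10), (nat_lit 1, nat_lit 11), (nat_lit 1, nat_lit 12), (nat_lit 1, nat_lit 13), (nat_lit 1, nat_lit 14), (nat_lit 1, nat_lit 15), (nat_lit 1, nat_lit 16), (nat_lit 1, nat_lit 17), (nat_lit 1, nat_lit 18), (nat_lit 0, nat_lit 1)]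

lemma L19_eq : L19 = PL 19 := by decide

/-! ### the outer component -/

lemma packR_eq (w : ℕ) (f : ℕ → ℕ) (n : ℕ) : packR w f n = packL (2 ^ w) f (List.range n) := by
  induction n with
  | zero => rfl
  | succ n ih =>
    rw [packR_succ, List.range_succ, packL_append, ih, List.length_range, packL_cons, packL_nil,
      mul_zero, add_zero, ← pow_mul]
    ring

/-- the base function -/
def gz0 (p T δ z : ℕ) : ℕ := chw T ((z * z + (p - δ)) % p)

lemma gg_eq (p T w δ : ℕ) : gg p T w δ = packL (2 ^ w) (gz0 p T δ) (List.range (2 * p)) := by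
  have : gg p T w δ = packR w (gz0 p T δ) (2 * p) := rfl
  rw [this, packR_eq]

lemma gs_eq (p T δ : ℕ) : gs p T δ = ∑ z ∈ range p, gz0 p T δ z := by
  have : gs p T δ = sumR (gz0 p T δ) p := rfl
  rw [this, sumR_eq]

lemma ggl_eq {β : Type} (p T w : ℕ) (L : List ℕ) (k : List (ℕ × ℕ × ℕ) → β) :
    ggl p T w L k = k (L.map fun δ => (δ, gg p T w δ, gs p T δ)) := by
  induction L generalizing k with
  | nil => rfl
  | cons δ L ih =>
    have : ggl p T w (δ :: L) k = strict (gg p T w δ) fun G => strict (gs p T δ) fun g =>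
      ggl p T w L fun rest => k ((δ, G, g) :: rest) := rfl
    rw [this, strict_eq, strict_eq, ih]
    rfl

lemma look_spec {δ : ℕ} {L : List (ℕ × ℕ × ℕ)} {k : ℕ → ℕ → Bool} (h : look δ L k = true) :
    ∃ x ∈ L, x.1 = δ ∧ k x.2.1 x.2.2 = true := by
  induction L with
  | nil => exact absurd h (by simp [look])
  | cons x L ih =>
    have h' : @Bool.rec (fun _ => Bool) (look δ L k) (k x.2.1 x.2.2) (Nat.beq x.1 δ) = true := h
    cases hb : Nat.beq x.1 δ with
    | false =>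
      rw [hb] at h'
      obtain ⟨y, hy, h1⟩ := ih h'
      exact ⟨y, by simp [hy], h1⟩
    | true =>
      rw [hb] at h'
      exact ⟨x, by simp, Nat.eq_of_beq_eq_true hb, h'⟩

/-- inverse of `2 S` -/
def ii (p S : ℕ) : ℕ := (2 * S) ^ (p - 2) % p
/-- the shift -/
def hh (p R S : ℕ) : ℕ := R * ii p S % p
/-- the normalised discriminant -/
def dd (p d S : ℕ) : ℕ := d * (ii p S * ii p S) % p

/-- the values of a form on the representatives -/
def vf (p T d R S : ℕ) (Q : ℕ × ℕ) : ℕ :=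
  chw T S * (if Q.1 = 0 then 1 else gz0 p T (dd p d S) (hh p R S + Q.2))
/-- the sum of the values on the finite part -/
def gf (p T d S : ℕ) : ℕ := chw T S * gs p T (dd p d S)

lemma fvec_spec {p T w : ℕ} {ds : List ℕ} {d R S : ℕ} {k : ℕ → ℕ → ℕ → Bool}
    (hw : 16 ≤ w) (hp : 0 < p)
    (h : fvec p T w (ds.map fun δ => (δ, gg p T w δ, gs p T δ)) d R S k = true) :
    2 * S * ii p S % p = 1 ∧
      k (packL (2 ^ w) (vf p T d R S) (PL p)) (gf p T d S) (chw T S) = true := by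
  unfold fvec at h
  rw [strict_eq] at h
  obtain ⟨h1, h2⟩ := boolrec_spec h
  have h1' : 2 * S * ii p S % p = 1 := Nat.eq_of_beq_eq_true h1
  refine ⟨h1', ?_⟩
  rw [strict_eq] at h2
  obtain ⟨x, hx, hx1, h3⟩ := look_spec h2
  obtain ⟨δ, _, rfl⟩ := List.mem_map.1 hx
  rw [strict_eq, strict_eq] at h3
  have hδ : δ = dd p d S := hx1
  have h4 : k (chw T S * (Nat.shiftRight (gg p T w δ) (w * hh p R S) % 2 ^ (w * p) +
      2 ^ (w * p))) (chw T S * gs p T δ) (chw T S) = true := h3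
  have hh' : hh p R S < p := Nat.mod_lt _ hp
  have e : Nat.shiftRight (gg p T w δ) (w * hh p R S) % 2 ^ (w * p) =
      packL (2 ^ w) (fun i => gz0 p T δ (hh p R S + i)) (List.range p) := by
    change (gg p T w δ) >>> (w * hh p R S) % 2 ^ (w * p) = _
    rw [Nat.shiftRight_eq_div_pow, gg_eq, pow_mul, pow_mul]
    apply packL_window
    · intro i
      unfold gz0
      rw [chw_eq]
      exact (Nat.mod_lt _ (by norm_num)).trans_le (Nat.pow_le_pow_right (by norm_num) hw)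
    · omega
  rw [e] at h4
  have e2 : chw T S * (packL (2 ^ w) (fun i => gz0 p T δ (hh p R S + i)) (List.range p) +
      2 ^ (w * p)) = packL (2 ^ w) (vf p T d R S) (PL p) := by
    have e3 : packL (2 ^ w) (vf p T d R S) (PL p) = chw T S * packL (2 ^ w) (fun Q : ℕ × ℕ =>
        if Q.1 = 0 then 1 else gz0 p T δ (hh p R S + Q.2)) (PL p) := by
      rw [← packL_mul]
      subst hδ
      rfl
    rw [e3]
    congr 1
    unfold PL
    rw [packL_append, packL_map, packL_cons, packL_nil]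
    simp [pow_mul]
  rw [e2] at h4
  unfold gf
  rw [← hδ]
  exact h4

section Cast

variable {p N T : ℕ} [NeZero p] {d R S : ℕ} {P' R' S' : ℤ}

omit [NeZero p] in
lemma gz0_cast (δ z : ℕ) (hδ : δ ≤ p) : ((gz0 p T δ z : ℕ) : ZMod N) =
    tabc p N T ((z : ZMod p) ^ 2 - (δ : ZMod p)) := by
  have e : ((z : ZMod p) ^ 2 - (δ : ZMod p)) = ((z * z + (p - δ) : ℕ) : ZMod p) := by
    rw [Nat.cast_add, Nat.cast_sub hδ]
    push_cast
    simp
    ring
  rw [e, tabc_natCast]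
  rfl

omit [NeZero p] in
/-- the algebraic identity -/
lemma complete_sq (hR : (R : ZMod p) = R') (hS : (S : ZMod p) = S')
    (hd : (d : ZMod p) = R' ^ 2 - 4 * P' * S') (hi : 2 * S * ii p S % p = 1) (y : ZMod p) :
    fz p P' R' S' 1 y = (S : ZMod p) * (((hh p R S : ℕ) + y) ^ 2 - (dd p d S : ℕ)) := by
  have hi' : 2 * (S : ZMod p) * (ii p S : ℕ) = 1 := by
    have := congrArg (fun x : ℕ => (x : ZMod p)) hi
    simp only [ZMod.natCast_mod] at this
    push_cast at this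
    exact this
  unfold fz hh dd
  rw [ZMod.natCast_mod, ZMod.natCast_mod]
  push_cast
  rw [← hR, ← hS] at hd ⊢
  rw [hd]
  set i : ZMod p := (ii p S : ZMod p) with hi0
  have e : (P' : ZMod p) = (P' : ZMod p) * (2 * S * i) * (2 * S * i) := by
    rw [hi']; ring
  have e2 : (R : ZMod p) * y = R * (2 * S * i) * y := by rw [hi']; ring
  linear_combination e + e2

lemma vf_cast (hT : IsChar (tabc p N T)) (hR : (R : ZMod p) = R') (hS : (S : ZMod p) = S')
    (hSp : S < p) (hd : (d : ZMod p) = R' ^ 2 - 4 * P' * S') (hi : 2 * S * ii p S % p = 1)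
    {Q : ℕ × ℕ} (hQ : Q ∈ PL p) :
    ((vf p T d R S Q : ℕ) : ZMod N) = tabc p N T (fz p P' R' S' (Q.1 : ZMod p) (Q.2 : ZMod p)) := by
  have hpos : 0 < p := Nat.pos_of_ne_zero (NeZero.ne p)
  have hSc : ((chw T S : ℕ) : ZMod N) = tabc p N T (S : ZMod p) := by
    rw [tabc_natCast, Nat.mod_eq_of_lt hSp]
  rcases mem_PL hQ with ⟨h1, _⟩ | rfl
  · unfold vf
    rw [h1, if_neg one_ne_zero, Nat.cast_mul, hSc,
      gz0_cast (dd p d S) _ (Nat.mod_lt _ hpos).le, ← hT.mul, Nat.cast_one,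
      complete_sq hR hS hd hi]
    push_cast
    rfl
  · unfold vf
    rw [if_pos rfl, mul_one, hSc]
    congr 1
    unfold fz
    rw [hS]
    push_cast
    ring

lemma gf_cast (hT : IsChar (tabc p N T)) (hR : (R : ZMod p) = R') (hS : (S : ZMod p) = S')
    (hSp : S < p) (hd : (d : ZMod p) = R' ^ 2 - 4 * P' * S') (hi : 2 * S * ii p S % p = 1) :
    ((gf p T d S : ℕ) : ZMod N) = ∑ y : ZMod p, tabc p N T (fz p P' R' S' 1 y) := by
  have hpos : 0 < p := Nat.pos_of_ne_zero (NeZero.ne p)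
  have hSc : ((chw T S : ℕ) : ZMod N) = tabc p N T (S : ZMod p) := by
    rw [tabc_natCast, Nat.mod_eq_of_lt hSp]
  unfold gf
  rw [gs_eq, Nat.cast_mul, hSc, Nat.cast_sum]
  have e1 : ∑ z ∈ range p, ((gz0 p T (dd p d S) z : ℕ) : ZMod N) =
      ∑ z : ZMod p, tabc p N T (z ^ 2 - (dd p d S : ℕ)) := by
    refine Finset.sum_nbij' (fun r => (r : ZMod p)) (fun z => z.val) ?_ ?_ ?_ ?_ ?_
    · intro r _; exact mem_univ _
    · intro z _; exact mem_range.mpr (ZMod.val_lt z)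
    · intro r hr; exact ZMod.val_cast_of_lt (mem_range.mp hr)
    · intro z _; exact ZMod.natCast_zmod_val z
    · intro r _
      exact gz0_cast (dd p d S) _ (Nat.mod_lt _ hpos).le
  rw [e1, ← Equiv.sum_comp (Equiv.addLeft ((hh p R S : ℕ) : ZMod p)), Finset.mul_sum]
  apply Finset.sum_congr rfl
  intro y _
  rw [complete_sq hR hS hd hi, ← hT.mul]
  rfl

end Cast

end Pool.Agent.Lib_helper5.LK


end

section

/-!
Meaning of the kernel functions for relations.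
-/

namespace Pool.Agent.Lib_helper5.LK

open Finset Pool.Agent.LibH4 Pool.Agent.LibH4.Ker Pool.Agent.LibH4.T6 Pool.Agent.LibH4.KF

/-! ### residues and forms -/

/-- residue -/
def rs (p : ℕ) (x : ℤ) : ℕ := (x : ZMod p).val

lemma rs_lt {p : ℕ} [NeZero p] (x : ℤ) : rs p x < p := ZMod.val_lt _

lemma rs_cast {p : ℕ} [NeZero p] (x : ℤ) : ((rs p x : ℕ) : ZMod p) = (x : ZMod p) :=
  ZMod.natCast_zmod_val _

lemma rs_of {p : ℕ} {n : ℕ} {x : ℤ} (h : (n : ZMod p) = (x : ZMod p)) : n % p = rs p x := by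
  unfold rs
  rw [← h, ZMod.val_natCast]

/-- a form with its coefficients in the relation -/
structure Fm where
  /-- coefficient -/
  P : ℤ
  /-- coefficient -/
  R : ℤ
  /-- coefficient -/
  S : ℤ
  /-- multiplicity of the first sum -/
  κ : ℕ
  /-- multiplicity of the second sum -/
  α : ℤ

/-- outer data of a form -/
def fkO (p l : ℕ) (j : Fm) : (ℕ × ℕ) × (ℕ × ℕ) := ((rs p j.R, rs p j.S), (j.κ, rs l j.α))
/-- inner data of a form -/
def fkI (p : ℕ) (j : Fm) : ℕ × ℕ × ℕ := (rs p j.P, rs p j.R, rs p j.S)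

/-! ### nested packings -/

lemma rp_flat {α β : Type} (V : ℕ) (f : α → β → ℕ) (L : List α) (M : List β) :
    rp (V ^ M.length) (fun x => rp V (f x) M) L =
      rp V (fun y : α × β => f y.1 y.2) (L ×ˢ M) := by
  induction L with
  | nil => rfl
  | cons x L ih =>
    rw [rp_cons, List.product_cons, rp_append, rp_map, ih, List.length_product, ← pow_mul,
      mul_comm M.length]

lemma packL_flat {α β : Type} (V : ℕ) (f : α → β → ℕ) (L : List α) (M : List β) :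
    packL (V ^ M.length) (fun x => packL V (f x) M) L =
      packL V (fun y : α × β => f y.1 y.2) (L ×ˢ M) := by
  induction L with
  | nil => rfl
  | cons x L ih =>
    rw [packL_cons, List.product_cons, packL_append, packL_map, ih, List.length_map]

lemma sum_flat {α β : Type} (f : α → β → ℕ) (L : List α) (M : List β) :
    ((L ×ˢ M).map fun y : α × β => f y.1 y.2).sum =
      (L.map fun x => (M.map fun y => f x y).sum).sum := by
  induction L with
  | nil => rfl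
  | cons x L ih =>
    rw [List.product_cons, List.map_append, List.sum_append, List.map_cons, List.sum_cons, ih,
      List.map_map]
    rfl

lemma rp_sumL {α β : Type} (V : ℕ) (a : α → β → ℕ) (b : α → ℕ) (L : List α) (M : List β) :
    (L.map fun x => rp V (a x) M * b x).sum =
      rp V (fun y => (L.map fun x => a x y * b x).sum) M := by
  rw [← rp_sum]
  congr 1
  apply List.map_congr_left
  intro x _
  rw [mul_comm, ← rp_mul]
  apply rp_congr
  intro y _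
  rw [mul_comm]

/-- contraction of a block -/
lemma blk {α β : Type} {V C D : ℕ} {a : α → β → ℕ} {b : α → ℕ} {L : List α} {M : List β}
    (hL : L ≠ []) (ha : ∀ x ∈ L, ∀ y ∈ M, a x y ≤ C) (hb : ∀ x ∈ L, b x ≤ D)
    (h : L.length * (C * D) < V) :
    rp (V ^ M.length) (fun x => rp V (a x) M) L * packL (V ^ M.length) b L /
      (V ^ M.length) ^ (L.length - 1) % V ^ M.length =
      rp V (fun y => (L.map fun x => a x y * b x).sum) M := by
  have hV : 1 ≤ V := by omega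
  have h1 : L.length * ((C * geo V M.length) * D) < V ^ M.length := by
    have h2 := geo_pow V M.length hV
    have h3 : L.length * (C * D) ≤ V - 1 := by omega
    calc L.length * ((C * geo V M.length) * D) = (L.length * (C * D)) * geo V M.length := by ring
      _ ≤ (V - 1) * geo V M.length := Nat.mul_le_mul_right _ h3
      _ < _ := by omega
  rw [ip_eq hL (A := C * geo V M.length) (B := D) (fun x hx => rp_le fun y hy => ha x hx y hy) hb h1,
    rp_sumL]

/-! ### rows -/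

/-- the row of a form -/
def rowX (p T w W Y1 Y0 d : ℕ) (x : (ℕ × ℕ) × (ℕ × ℕ)) : ℕ :=
  x.2.1 * (W * packL (2 ^ w) (vf p T d x.1.1 x.1.2) (PL p) / 2 ^ (w * p) % 2 ^ w) +
    x.2.2 * (gf p T d x.1.2 * Y1 + chw T x.1.2 * Y0)

/-- the conditions verified with a row -/
def rowC (p T fr l d : ℕ) (x : (ℕ × ℕ) × (ℕ × ℕ)) : Prop :=
  2 * x.1.2 * ii p x.1.2 % p = 1 ∧ fr * gf p T d x.1.2 % l = 0

lemma rowA_spec {p T w : ℕ} (hw : 16 ≤ w) (hp : 0 < p) {ds : List ℕ} {W Y1 Y0 fr l d : ℕ}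
    {FK : List ((ℕ × ℕ) × (ℕ × ℕ))} {acc : ℕ} {k : ℕ → Bool}
    (h : rowA p T w (ds.map fun δ => (δ, gg p T w δ, gs p T δ)) W Y1 Y0 fr l d FK acc k = true) :
    k (acc * (2 ^ w) ^ FK.length + rp (2 ^ w) (rowX p T w W Y1 Y0 d) FK) = true ∧
      ∀ x ∈ FK, rowC p T fr l d x := by
  induction FK generalizing acc with
  | nil =>
    refine ⟨?_, by simp⟩
    have h' : k acc = true := h
    simpa [rp] using h'
  | cons x FK ih =>
    have h1 : fvec p T w (ds.map fun δ => (δ, gg p T w δ, gs p T δ)) d x.1.1 x.1.2 (fun v g s =>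
      @Bool.rec (fun _ => Bool) false
        (strict (Nat.add (Nat.shiftLeft acc w) (Nat.add
          (Nat.mul x.2.1 (Nat.mod (Nat.shiftRight (Nat.mul W v) (Nat.mul w p))
            (Nat.pow (nat_lit 2) w)))
          (Nat.mul x.2.2 (Nat.add (Nat.mul g Y1) (Nat.mul s Y0))))) fun acc' =>
            rowA p T w (ds.map fun δ => (δ, gg p T w δ, gs p T δ)) W Y1 Y0 fr l d FK acc' k)
        (Nat.beq (Nat.mod (Nat.mul fr g) l) (nat_lit 0))) = true := h
    obtain ⟨h2, h3⟩ := fvec_spec hw hp h1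
    obtain ⟨h4, h5⟩ := boolrec_spec h3
    rw [strict_eq] at h5
    obtain ⟨h6, h7⟩ := ih h5
    refine ⟨?_, ?_⟩
    · rw [← h6]
      congr 1
      have e : Nat.add (Nat.shiftLeft acc w) (Nat.add
          (Nat.mul x.2.1 (Nat.mod (Nat.shiftRight (Nat.mul W (packL (2 ^ w)
            (vf p T d x.1.1 x.1.2) (PL p))) (Nat.mul w p)) (Nat.pow (nat_lit 2) w)))
          (Nat.mul x.2.2 (Nat.add (Nat.mul (gf p T d x.1.2) Y1) (Nat.mul (chw T x.1.2) Y0)))) =
          acc * 2 ^ w + rowX p T w W Y1 Y0 d x := by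
        unfold rowX
        change acc <<< w + (x.2.1 * ((W * packL (2 ^ w) (vf p T d x.1.1 x.1.2) (PL p)) >>>
          (w * p) % 2 ^ w) + x.2.2 * (gf p T d x.1.2 * Y1 + chw T x.1.2 * Y0)) = _
        rw [Nat.shiftLeft_eq, Nat.shiftRight_eq_div_pow]
      rw [e, rp_cons, List.length_cons, pow_succ']
      ring
    · intro y hy
      rcases List.mem_cons.1 hy with rfl | hy
      · exact ⟨h2, Nat.eq_of_beq_eq_true h4⟩
      · exact h7 y hy

lemma vecA_eq (n T V w : ℕ) (L : List (ℕ × ℕ)) (F : List (ℕ × ℕ × ℕ)) (acc : ℕ) :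
    vecA n T V w L F acc = acc * (2 ^ w) ^ F.length + rp (2 ^ w) (pv n T V L) F := by
  induction F generalizing acc with
  | nil => simp [vecA, rp]
  | cons f F ih =>
    have e : vecA n T V w L (f :: F) acc = strict (Nat.add (Nat.shiftLeft acc w) (pv n T V L f))
      (vecA n T V w L F) := rfl
    have e2 : Nat.add (Nat.shiftLeft acc w) (pv n T V L f) = acc * 2 ^ w + pv n T V L f := by
      change acc <<< w + _ = _
      rw [Nat.shiftLeft_eq]
    rw [e, strict_eq, ih, e2, rp_cons, List.length_cons, pow_succ']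
    ring

lemma vecB_eq (n T V w : ℕ) (L : List (ℕ × ℕ)) (F : List (ℕ × ℕ × ℕ)) :
    vecB n T V w L F = packL (2 ^ w) (pv n T V L) F := rfl

/-- vectors of a list of forms by completing the square, first form least significant -/
def vecC (p T w wb : ℕ) (Gs : List (ℕ × ℕ × ℕ)) (d : ℕ) (F : List (ℕ × ℕ × ℕ)) :
    (ℕ → Bool) → Bool :=
  @List.rec _ (fun _ => (ℕ → Bool) → Bool) (fun k => k (nat_lit 0))
    (fun x _ ih k => fvec p T w Gs d x.2.1 x.2.2 fun v _ _ =>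
      ih fun r => k (Nat.add (Nat.shiftLeft r wb) v)) F

lemma vecC_spec {p T w wb : ℕ} (hw : 16 ≤ w) (hp : 0 < p) {ds : List ℕ} {d : ℕ}
    {F : List (ℕ × ℕ × ℕ)} {k : ℕ → Bool}
    (h : vecC p T w wb (ds.map fun δ => (δ, gg p T w δ, gs p T δ)) d F k = true) :
    k (packL (2 ^ wb) (fun x => packL (2 ^ w) (vf p T d x.2.1 x.2.2) (PL p)) F) = true ∧
      ∀ x ∈ F, 2 * x.2.2 * ii p x.2.2 % p = 1 := by
  induction F generalizing k with
  | nil => exact ⟨h, by simp⟩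
  | cons x F ih =>
    have h1 : fvec p T w (ds.map fun δ => (δ, gg p T w δ, gs p T δ)) d x.2.1 x.2.2 (fun v _ _ =>
      vecC p T w wb (ds.map fun δ => (δ, gg p T w δ, gs p T δ)) d F fun r =>
        k (Nat.add (Nat.shiftLeft r wb) v)) = true := h
    obtain ⟨h2, h3⟩ := fvec_spec hw hp h1
    obtain ⟨h4, h5⟩ := ih h3
    refine ⟨?_, ?_⟩
    · rw [← h4]
      congr 1
      rw [packL_cons]
      change _ = _ <<< wb + _
      rw [Nat.shiftLeft_eq]
      ring
    · intro y hy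
      rcases List.mem_cons.1 hy with rfl | hy
      · exact h2
      · exact h5 y hy

lemma red_eq {α : Type} {w w3 sh : ℕ} {a b : α → ℕ} {J : List α} (ha : ∀ j ∈ J, a j < 2 ^ w)
    (hb : ∀ j ∈ J, b j < 2 ^ w) :
    red w w3 sh J.length (rp (2 ^ w) a J) (rp (2 ^ w) b J) =
      rp (2 ^ w3) (fun j => a j * b j / 2 ^ sh % 2 ^ w3) J := by
  induction J using List.reverseRecOn with
  | nil => rfl
  | append_singleton J x ih =>
    have hax := ha x (by simp)
    have hbx := hb x (by simp)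
    have e1 : ∀ (V : ℕ) (f : α → ℕ), rp V f (J ++ [x]) = rp V f J * V + f x := by
      intro V f
      rw [rp_append, rp_cons]
      simp [rp]
    have e0 : ∀ (K A v : ℕ), red w w3 sh (K + 1) A v =
        (red w w3 sh K (A >>> w) (v >>> w)) <<< w3 +
          (((A % 2 ^ w) * (v % 2 ^ w)) >>> sh) % 2 ^ w3 := fun K A v => rfl
    have hlen : (J ++ [x]).length = J.length + 1 := by simp
    rw [hlen, e0, e1, e1, e1]
    have hp : 0 < 2 ^ w := by positivity
    have s1 : (rp (2 ^ w) a J * 2 ^ w + a x) >>> w = rp (2 ^ w) a J := by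
      rw [Nat.shiftRight_eq_div_pow, mul_comm, Nat.mul_add_div hp, Nat.div_eq_of_lt hax, add_zero]
    have s2 : (rp (2 ^ w) b J * 2 ^ w + b x) >>> w = rp (2 ^ w) b J := by
      rw [Nat.shiftRight_eq_div_pow, mul_comm, Nat.mul_add_div hp, Nat.div_eq_of_lt hbx, add_zero]
    have s3 : (rp (2 ^ w) a J * 2 ^ w + a x) % 2 ^ w = a x := by
      rw [mul_comm, Nat.mul_add_mod, Nat.mod_eq_of_lt hax]
    have s4 : (rp (2 ^ w) b J * 2 ^ w + b x) % 2 ^ w = b x := by
      rw [mul_comm, Nat.mul_add_mod, Nat.mod_eq_of_lt hbx]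
    rw [s1, s2, s3, s4, ih (fun j hj => ha j (by simp [hj])) (fun j hj => hb j (by simp [hj])),
      Nat.shiftLeft_eq, Nat.shiftRight_eq_div_pow]

end Pool.Agent.Lib_helper5.LK


end

section

/-!
Meaning of the packed weights.
-/

namespace Pool.Agent.Lib_helper5.LK

open Finset Pool.Agent.LibH4 Pool.Agent.LibH4.Ker Pool.Agent.LibH4.T6 Pool.Agent.LibH4.KF

/-! ### the vectors -/

/-- coefficient -/
def co (q N CT X u : ℕ) : ℕ := chw CT u * bzn q N (u * X % q) % N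

/-- the weight before reduction -/
def lane (q N CT X Y : ℕ) : ℕ :=
  q * (∑ u ∈ range q, co q N CT X u) +
    (N - 2) * ∑ u ∈ range q, co q N CT X u * (u * Y % q)

lemma dvt_eq (q N cc CT Yv Mk X u : ℕ) (k : ℕ → ℕ → ℕ → ℕ) (fl s0 s1 : ℕ) :
    dvt q N cc CT Yv Mk X u k fl s0 s1 =
      k (fl + co q N CT X u * Nat.land (Nat.shiftRight (u * cc * Yv) 40) Mk)
        (s0 + co q N CT X u) (s1 + co q N CT X u * u) := by
  unfold dvt co
  cases chw CT u with
  | zero => simp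
  | succ c =>
    change strict _ _ = _
    rw [strict_eq, strict_eq, strict_eq, strict_eq]
    rfl

lemma dvl_eq (q N cc CT Yv Mk X : ℕ) (k : ℕ → ℕ → ℕ → ℕ) (n fl s0 s1 : ℕ) :
    dvl q N cc CT Yv Mk X k n fl s0 s1 =
      k (fl + ∑ u ∈ range n, co q N CT X u * Nat.land (Nat.shiftRight (u * cc * Yv) 40) Mk)
        (s0 + ∑ u ∈ range n, co q N CT X u) (s1 + ∑ u ∈ range n, co q N CT X u * u) := by
  induction n generalizing fl s0 s1 with
  | zero => simp [dvl]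
  | succ n ih =>
    have e : dvl q N cc CT Yv Mk X k (n + 1) fl s0 s1 =
      dvt q N cc CT Yv Mk X n (dvl q N cc CT Yv Mk X k n) fl s0 s1 := rfl
    rw [e, dvt_eq, ih, sum_range_succ, sum_range_succ, sum_range_succ]
    congr 1 <;> ring

lemma floor_exact {q n c : ℕ} (hq : 0 < q) (h1 : 2 ^ 40 ≤ c * q) (h2 : c * q ≤ 2 ^ 40 + q)
    (hc : q * q < c) (hn : n < q * q) : n * c / 2 ^ 40 = n / q := by
  set a := n / q with ha
  set b := n % q with hb
  have hab : n = q * a + b := (Nat.div_add_mod n q).symm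
  have hbq : b < q := Nat.mod_lt _ hq
  have haq : a < q := by
    rw [ha, Nat.div_lt_iff_lt_mul hq]; exact hn
  obtain ⟨e, he⟩ := Nat.exists_eq_add_of_le h1
  have he2 : e ≤ q := by omega
  have hmul : n * c = a * 2 ^ 40 + (a * e + b * c) := by
    rw [hab]
    calc (q * a + b) * c = a * (c * q) + b * c := by ring
      _ = _ := by rw [he]; ring
  have hlt : a * e + b * c < 2 ^ 40 := by
    have h3 : b * c + c ≤ c * q := by
      calc b * c + c = (b + 1) * c := by ring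
        _ ≤ q * c := Nat.mul_le_mul_right _ hbq
        _ = c * q := by ring
    have h4 : a * e + e ≤ q * q := by
      calc a * e + e = (a + 1) * e := by ring
        _ ≤ q * q := Nat.mul_le_mul haq he2
    omega
  rw [hmul]
  have : a * 2 ^ 40 + (a * e + b * c) = a * e + b * c + a * 2 ^ 40 := by ring
  rw [this, Nat.add_mul_div_right _ _ (by positivity), Nat.div_eq_of_lt hlt, zero_add]

/-- numerical conditions on `q` and `N` -/
structure QN (q N : ℕ) : Prop where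
  q2 : 2 ≤ q
  q1000 : q ≤ 1000
  N3 : 3 ≤ N
  N8 : N ≤ 8192
  qN : 2 * (q * q) * (N * N) < 2 ^ 64

section DV

variable {q N : ℕ} (H : QN q N) (CT : ℕ)

lemma co_lt (hN : 0 < N) (X u : ℕ) : co q N CT X u < N := Nat.mod_lt _ hN

include H

lemma lane_lt (X Y : ℕ) : lane q N CT X Y < 2 ^ 64 := by
  have hN : 0 < N := by have := H.N3; omega
  have hq : 0 < q := by have := H.q2; omega
  have h1 : ∑ u ∈ range q, co q N CT X u ≤ q * N := by
    have : ∑ u ∈ range q, co q N CT X u ≤ ∑ _u ∈ range q, N :=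
      Finset.sum_le_sum fun u _ => (co_lt CT hN X u).le
    simpa using this
  have h2 : ∑ u ∈ range q, co q N CT X u * (u * Y % q) ≤ q * (N * q) := by
    have : ∑ u ∈ range q, co q N CT X u * (u * Y % q) ≤ ∑ _u ∈ range q, N * q :=
      Finset.sum_le_sum fun u _ => Nat.mul_le_mul (co_lt CT hN X u).le (Nat.mod_lt _ hq).le
    simpa using this
  refine lt_of_le_of_lt ?_ H.qN
  unfold lane
  calc _ ≤ q * (q * N) + N * (q * (N * q)) :=
        Nat.add_le_add (Nat.mul_le_mul_left _ h1) (Nat.mul_le_mul (by omega) h2)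
    _ ≤ q * (q * (N * N)) + N * (q * (N * q)) := by
        apply Nat.add_le_add_right
        apply Nat.mul_le_mul_left
        apply Nat.mul_le_mul_left
        exact Nat.le_mul_of_pos_left N hN
    _ = _ := by ring

lemma dv_eq (X : ℕ) : dv q N (Nat.succ (2 ^ 40 / q)) CT
      (packL (2 ^ 64) (fun i => q - 1 - i) (List.range q))
      (packL (2 ^ 64) (fun _ => 1) (List.range q))
      (16777215 * packL (2 ^ 64) (fun _ => 1) (List.range q)) X =
    packL (2 ^ 64) (fun i => lane q N CT X (q - 1 - i)) (List.range q) := by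
  have hq : 0 < q := by have := H.q2; omega
  have hq1 := H.q1000
  set Yv := packL (2 ^ 64) (fun i => q - 1 - i) (List.range q) with hY
  set On := packL (2 ^ 64) (fun _ : ℕ => 1) (List.range q) with hO
  set cc := Nat.succ (2 ^ 40 / q) with hcc
  have hc1 : 2 ^ 40 ≤ cc * q := by
    have := Nat.lt_div_mul_add (a := 2 ^ 40) hq
    rw [hcc, Nat.succ_eq_add_one, add_mul, one_mul]
    omega
  have hc2 : cc * q ≤ 2 ^ 40 + q := by
    have := Nat.div_mul_le_self (2 ^ 40) q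
    rw [hcc, Nat.succ_eq_add_one, add_mul, one_mul]
    omega
  have hqq : q * q ≤ 1000 * 1000 := Nat.mul_le_mul hq1 hq1
  have hc3 : q * q < cc := by
    by_contra hcon
    have h1 : cc ≤ q * q := Nat.not_lt.1 hcon
    have h2 : cc * q ≤ (1000 * 1000) * 1000 := Nat.mul_le_mul (h1.trans hqq) hq1
    have : (2 : ℕ) ^ 40 ≤ (1000 * 1000) * 1000 := hc1.trans h2
    norm_num at this
  have hfl : ∀ u, u < q → Nat.land (Nat.shiftRight (u * cc * Yv) 40) (16777215 * On) =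
      packL (2 ^ 64) (fun i => u * (q - 1 - i) / q) (List.range q) := by
    intro u hu
    have e1 : u * cc * Yv = packL (2 ^ 64) (fun i => u * cc * (q - 1 - i)) (List.range q) := by
      rw [hY, packL_mul]
    have e2 : 16777215 * On = packL (2 ^ 64) (fun _ => 2 ^ (64 - 40) - 1) (List.range q) := by
      rw [hO, ← packL_mul]
      norm_num
    have e3 : Nat.shiftRight (u * cc * Yv) 40 = (u * cc * Yv) / 2 ^ 40 := by
      change (u * cc * Yv) >>> 40 = _
      rw [Nat.shiftRight_eq_div_pow]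
    rw [e3, e1, e2, land_floor (by norm_num)]
    · apply packL_congr
      intro i hi
      have hi' := List.mem_range.1 hi
      have h4 : u * (q - 1 - i) < q * q := by
        calc u * (q - 1 - i) ≤ u * q := Nat.mul_le_mul_left _ (by omega)
          _ < q * q := Nat.mul_lt_mul_of_pos_right hu hq
      rw [← floor_exact hq hc1 hc2 hc3 h4]
      congr 1
      ring
    · intro i _
      have h5 : cc ≤ 2 ^ 40 := by
        have h2 := H.q2
        have : 2 ^ 40 / q ≤ 2 ^ 40 / 2 := Nat.div_le_div_left h2 (by norm_num)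
        have h6 : (2 : ℕ) ^ 40 / 2 + 1 ≤ 2 ^ 40 := by norm_num
        omega
      calc u * cc * (q - 1 - i) ≤ 1000 * 2 ^ 40 * 1000 := by
            apply Nat.mul_le_mul
            · exact Nat.mul_le_mul (by omega) h5
            · omega
        _ < 2 ^ 64 := by norm_num
  -- unfold
  have e : dv q N cc CT Yv On (16777215 * On) X =
      dvl q N cc CT Yv (16777215 * On) X (fun fl s0 s1 => (q * s0) * On +
        (N - 2) * (s1 * Yv - q * fl)) q 0 0 0 := rfl
  rw [e, dvl_eq]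
  simp only [zero_add]
  have s1 : ∑ u ∈ range q, co q N CT X u * Nat.land (Nat.shiftRight (u * cc * Yv) 40)
      (16777215 * On) = packL (2 ^ 64) (fun i => ∑ u ∈ range q, co q N CT X u *
        (u * (q - 1 - i) / q)) (List.range q) := by
    have h : ∀ n, n ≤ q → ∑ u ∈ range n, co q N CT X u *
        Nat.land (Nat.shiftRight (u * cc * Yv) 40) (16777215 * On) =
        packL (2 ^ 64) (fun i => ∑ u ∈ range n, co q N CT X u *
        (u * (q - 1 - i) / q)) (List.range q) := by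
      intro n
      induction n with
      | zero => intro _; simp [packL_zero]
      | succ n ih =>
        intro hn
        rw [sum_range_succ, ih (by omega), hfl n (by omega), ← packL_mul, ← packL_add]
        apply packL_congr
        intro i _
        rw [sum_range_succ]
    exact h q le_rfl
  rw [s1]
  have e3 : (∑ u ∈ range q, co q N CT X u * u) * Yv = packL (2 ^ 64)
      (fun i => (∑ u ∈ range q, co q N CT X u * u) * (q - 1 - i)) (List.range q) := by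
    rw [hY, packL_mul]
  have e4 : (∑ u ∈ range q, co q N CT X u * u) * Yv - q * packL (2 ^ 64)
      (fun i => ∑ u ∈ range q, co q N CT X u * (u * (q - 1 - i) / q)) (List.range q) =
      packL (2 ^ 64) (fun i => ∑ u ∈ range q, co q N CT X u * (u * (q - 1 - i) % q))
        (List.range q) := by
    rw [e3, ← packL_mul]
    have : packL (2 ^ 64) (fun i => (∑ u ∈ range q, co q N CT X u * u) * (q - 1 - i))
        (List.range q) = packL (2 ^ 64) (fun i => ∑ u ∈ range q, co q N CT X u *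
          (u * (q - 1 - i) % q)) (List.range q) + packL (2 ^ 64) (fun i => q *
          ∑ u ∈ range q, co q N CT X u * (u * (q - 1 - i) / q)) (List.range q) := by
      rw [← packL_add]
      apply packL_congr
      intro i _
      rw [Finset.sum_mul, Finset.mul_sum, ← Finset.sum_add_distrib]
      apply Finset.sum_congr rfl
      intro u _
      have := Nat.mod_add_div (u * (q - 1 - i)) q
      calc co q N CT X u * u * (q - 1 - i) = co q N CT X u * (u * (q - 1 - i)) := by ring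
        _ = co q N CT X u * (u * (q - 1 - i) % q + q * (u * (q - 1 - i) / q)) := by rw [this]
        _ = _ := by ring
    rw [this, Nat.add_sub_cancel]
  rw [e4, hO, ← packL_mul, ← packL_mul, ← packL_add]
  apply packL_congr
  intro i _
  unfold lane
  ring

end DV

lemma ev_eq (q N CT X : ℕ) : ev q N CT X =
    (∑ u ∈ range q, chw CT u * gzn q N (u * X % q)) % N := by
  unfold ev
  have : sumR (fun u => @Nat.rec (fun _ => ℕ) (nat_lit 0) (fun c _ =>
    Nat.mul (Nat.succ c) (gzn q N (Nat.mod (Nat.mul u X) q))) (chw CT u)) q =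
    ∑ u ∈ range q, chw CT u * gzn q N (u * X % q) := by
    rw [sumR_eq]
    apply Finset.sum_congr rfl
    intro u _
    cases chw CT u with
    | zero => simp
    | succ c => rfl
  rw [this]
  rfl

/-! ### casts -/

section Cast

variable {n1 n2 n3 N T1 T2 T3 : ℕ} [NeZero n1] [NeZero n2] [NeZero n3] [NeZero (n1 * n2)]
  [NeZero (n1 * n2 * n3)]

omit [NeZero n1] [NeZero n2] [NeZero n3] [NeZero (n1 * n2)] [NeZero (n1 * n2 * n3)] in
lemma chi3_cast (u : ℕ) : ((chi3 n1 n2 n3 N T1 T2 T3 u : ℕ) : ZMod N) =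
    tri (tabc n1 N T1) (tabc n2 N T2) (tabc n3 N T3) (u : ZMod (n1 * n2 * n3)) := by
  rw [tri_natCast, tabc_natCast, tabc_natCast, tabc_natCast]
  have : chi3 n1 n2 n3 N T1 T2 T3 u =
    ((chw T1 (u % n1) * chw T2 (u % n2)) % N * chw T3 (u % n3)) % N := rfl
  rw [this, ZMod.natCast_mod]
  push_cast
  rw [ZMod.natCast_mod]
  push_cast
  rfl

lemma bzn_cast {q N r : ℕ} (hN : 2 ≤ N) : ((bzn q N r : ℕ) : ZMod N) = bI q N r := by
  unfold bI
  cases r with
  | zero => simp [bzn]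
  | succ r =>
    have : bzn q N (r + 1) = q + (N - 2) * (r + 1) := rfl
    rw [this, if_neg (by omega)]
    push_cast [Nat.cast_sub hN]
    simp
    ring

lemma gzn_cast {q N r : ℕ} (hN : 1 ≤ N) : ((gzn q N r : ℕ) : ZMod N) = b2I q N r := by
  unfold b2I
  have : gzn q N r = 6 * (r * r) + 6 * (N - 1) * (q * r) + q * q := rfl
  rw [this]
  push_cast [Nat.cast_sub hN]
  simp
  ring

/-- the table of squares -/
def csqT (n1 n2 n3 N T1 T2 T3 : ℕ) : ℕ := csq n1 n2 n3 (n1 * n2 * n3) N T1 T2 T3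

omit [NeZero n1] [NeZero n2] [NeZero n3] [NeZero (n1 * n2)] [NeZero (n1 * n2 * n3)] in
lemma csq_cast (hN : 0 < N) (hN16 : N ≤ 2 ^ 16) {u : ℕ} (hu : u < n1 * n2 * n3) :
    ((chw (csqT n1 n2 n3 N T1 T2 T3) u : ℕ) : ZMod N) =
      tri (tabc n1 N T1) (tabc n2 N T2) (tabc n3 N T3) (u : ZMod (n1 * n2 * n3)) ^ 2 := by
  have e : csqT n1 n2 n3 N T1 T2 T3 = packR (nat_lit 16) (fun u =>
      chi3 n1 n2 n3 N T1 T2 T3 u * chi3 n1 n2 n3 N T1 T2 T3 u % N) (n1 * n2 * n3) := by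
    unfold csqT csq
    congr 1
    funext u
    rw [strict_eq]
    rfl
  rw [e, chw_packR (fun m => (Nat.mod_lt _ hN).trans_le hN16) hu, ZMod.natCast_mod]
  push_cast
  rw [chi3_cast]
  ring

/-- sums over residues -/
lemma sum_zmod_range {q : ℕ} [NeZero q] {K : Type} [AddCommMonoid K] (g : ZMod q → K) :
    ∑ z, g z = ∑ u ∈ range q, g (u : ZMod q) := by
  symm
  refine Finset.sum_nbij' (fun r => (r : ZMod q)) (fun z => z.val) ?_ ?_ ?_ ?_ ?_
  · intro r _; exact mem_univ _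
  · intro z _; exact mem_range.mpr (ZMod.val_lt z)
  · intro r hr; exact ZMod.val_cast_of_lt (mem_range.mp hr)
  · intro z _; exact ZMod.natCast_zmod_val z
  · intro r _; rfl

omit [NeZero n1] [NeZero n2] [NeZero n3] [NeZero (n1 * n2)] in
lemma ev_cast (hN : 0 < N) (hN16 : N ≤ 2 ^ 16) (X : ℕ) :
    ((ev (n1 * n2 * n3) N (csqT n1 n2 n3 N T1 T2 T3) X : ℕ) : ZMod N) =
      EZ (tri (tabc n1 N T1) (tabc n2 N T2) (tabc n3 N T3)) (X : ZMod (n1 * n2 * n3)) := by
  rw [ev_eq, ZMod.natCast_mod, Nat.cast_sum]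
  unfold EZ
  rw [sum_zmod_range]
  apply Finset.sum_congr rfl
  intro u hu
  have hu' := mem_range.1 hu
  rw [Nat.cast_mul, csq_cast hN hN16 hu', gzn_cast hN]
  congr 1
  unfold gz
  rw [← Nat.cast_mul, ZMod.val_natCast]

omit [NeZero n1] [NeZero n2] [NeZero n3] [NeZero (n1 * n2)] [NeZero (n1 * n2 * n3)] in
lemma co_cast (hN : 2 ≤ N) (hN16 : N ≤ 2 ^ 16) (X : ℕ) {u : ℕ} (hu : u < n1 * n2 * n3) :
    ((co (n1 * n2 * n3) N (csqT n1 n2 n3 N T1 T2 T3) X u : ℕ) : ZMod N) =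
      tri (tabc n1 N T1) (tabc n2 N T2) (tabc n3 N T3) (u : ZMod (n1 * n2 * n3)) ^ 2 *
        bz (n1 * n2 * n3) N ((u : ZMod (n1 * n2 * n3)) * (X : ZMod (n1 * n2 * n3))) := by
  unfold co
  rw [ZMod.natCast_mod, Nat.cast_mul, csq_cast (by omega) hN16 hu, bzn_cast hN]
  congr 1
  unfold bz
  rw [← Nat.cast_mul, ZMod.val_natCast]

omit [NeZero n1] [NeZero n2] [NeZero n3] [NeZero (n1 * n2)] in
lemma lane_cast (hN : 2 ≤ N) (hN16 : N ≤ 2 ^ 16)
    (hc : IsChar (tri (tabc n1 N T1) (tabc n2 N T2) (tabc n3 N T3))) (X : ℕ) {Y : ℕ}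
    (hY0 : 0 < Y) (hY : Y < n1 * n2 * n3) :
    ((lane (n1 * n2 * n3) N (csqT n1 n2 n3 N T1 T2 T3) X Y : ℕ) : ZMod N) =
      DZ (tri (tabc n1 N T1) (tabc n2 N T2) (tabc n3 N T3)) (X : ZMod (n1 * n2 * n3))
        (Y : ZMod (n1 * n2 * n3)) := by
  unfold lane DZ
  rw [sum_zmod_range, Nat.cast_add, Nat.cast_mul (n1 * n2 * n3) (∑ u ∈ _, _),
    Nat.cast_mul (N - 2), Nat.cast_sum, Nat.cast_sum,
    Nat.cast_sub hN, ZMod.natCast_self, Finset.mul_sum, Finset.mul_sum, ← Finset.sum_add_distrib]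
  apply Finset.sum_congr rfl
  intro u hu
  have hu' := mem_range.1 hu
  rw [Nat.cast_mul (co _ _ _ _ _) _, co_cast hN hN16 X hu']
  by_cases hun : IsUnit (u : ZMod (n1 * n2 * n3))
  · have h0 : u * Y % (n1 * n2 * n3) ≠ 0 := by
      intro h
      have h1 : ((u * Y : ℕ) : ZMod (n1 * n2 * n3)) = 0 := by
        rw [ZMod.natCast_eq_zero_iff]; exact Nat.dvd_of_mod_eq_zero h
      rw [Nat.cast_mul, hun.mul_right_eq_zero, ZMod.natCast_eq_zero_iff] at h1
      exact absurd (Nat.le_of_dvd hY0 h1) (by omega)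
    have e : bz (n1 * n2 * n3) N ((u : ZMod (n1 * n2 * n3)) * (Y : ZMod (n1 * n2 * n3))) =
        ((n1 * n2 * n3 : ℕ) : ZMod N) - 2 * ((u * Y % (n1 * n2 * n3) : ℕ) : ZMod N) := by
      unfold bz bI
      rw [← Nat.cast_mul, ZMod.val_natCast, if_neg h0]
    rw [e]
    generalize ((n1 * n2 * n3 : ℕ) : ZMod N) = Qz
    push_cast
    ring
  · rw [hc.nu _ hun]
    ring

end Cast

/-! ### the packed weights -/

lemma sel_zero (a b : ℕ) : sel 0 a b = a := rfl
lemma sel_one (a b : ℕ) : sel 1 a b = b := rfl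

lemma rpk_eq {α : Type} (V : ℕ) (f : α → ℕ) (L : List α) (acc : ℕ) :
    rpk V f L acc = acc * V ^ L.length + rp V f L := by
  induction L generalizing acc with
  | nil => simp [rpk, rp]
  | cons x L ih =>
    have : rpk V f (x :: L) acc = strict (acc * V + f x) (rpk V f L) := rfl
    rw [this, strict_eq, ih, rp_cons, List.length_cons, pow_succ']
    ring

lemma rpk_eq0 {α : Type} (V : ℕ) (f : α → ℕ) (L : List α) :
    rpk V f L (nat_lit 0) = rp V f L := by
  have := rpk_eq V f L 0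
  simpa using this

/-- index of a first coordinate pattern -/
def pat (e1 e2 e3 q a b c : ℕ) : ℕ := (a * e1 + (b * e2 + c * e3)) % q

lemma with8_spec {β : Type} (f : ℕ → ℕ) (e1 e2 e3 q : ℕ) (k : (ℕ → ℕ → ℕ → ℕ) → β) :
    ∃ d : ℕ → ℕ → ℕ → ℕ, with8 f e1 e2 e3 q k = k d ∧
      ∀ a b c, a ≤ 1 → b ≤ 1 → c ≤ 1 → d a b c = f (pat e1 e2 e3 q a b c) := by
  refine ⟨fun a b c => sel a (sel b (sel c (f 0) (f (e3 % q))) (sel c (f (e2 % q))
      (f ((e2 + e3) % q)))) (sel b (sel c (f (e1 % q)) (f ((e1 + e3) % q)))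
      (sel c (f ((e1 + e2) % q)) (f ((e1 + (e2 + e3)) % q)))), ?_, ?_⟩
  · unfold with8
    simp only [strict_eq]
    rfl
  · intro a b c ha hb hc
    unfold pat
    interval_cases a <;> interval_cases b <;> interval_cases c <;>
      simp [sel_zero, sel_one]

/-- the weight at a representative -/
def wv (q N CT e1 e2 e3 : ℕ) (P Q R : ℕ × ℕ) : ℕ :=
  if (P.2 * e1 + (Q.2 * e2 + R.2 * e3)) % q = 0 then 0
  else lane q N CT (pat e1 e2 e3 q P.1 Q.1 R.1) ((P.2 * e1 + (Q.2 * e2 + R.2 * e3)) % q) % N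

lemma wd_eq {q N CT e1 e2 e3 : ℕ} (H : QN q N) {d : ℕ → ℕ → ℕ → ℕ}
    (hd : ∀ a b c, a ≤ 1 → b ≤ 1 → c ≤ 1 → d a b c =
      packL (2 ^ 64) (fun i => lane q N CT (pat e1 e2 e3 q a b c) (q - 1 - i)) (List.range q))
    {P Q R : ℕ × ℕ} (hP : P.1 ≤ 1) (hQ : Q.1 ≤ 1) (hR : R.1 ≤ 1) :
    wd q N e1 e2 e3 d P Q R = wv q N CT e1 e2 e3 P Q R := by
  have hq : 0 < q := by have := H.q2; omega
  unfold wd wv
  rw [strict_eq]
  change @Nat.rec (fun _ => ℕ) 0 (fun _ _ => _) ((P.2 * e1 + (Q.2 * e2 + R.2 * e3)) % q) = _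
  have hlt : (P.2 * e1 + (Q.2 * e2 + R.2 * e3)) % q < q := Nat.mod_lt _ hq
  generalize hY : (P.2 * e1 + (Q.2 * e2 + R.2 * e3)) % q = Y at hlt ⊢
  have hY' : Nat.mod (Nat.add (Nat.mul P.2 e1) (Nat.add (Nat.mul Q.2 e2) (Nat.mul R.2 e3))) q = Y := hY
  cases Y with
  | zero => simp
  | succ y =>
    rw [if_neg (Nat.succ_ne_zero y)]
    change (Nat.shiftRight (d P.1 Q.1 R.1) (64 * (q - 1 -
      Nat.mod (Nat.add (Nat.mul P.2 e1) (Nat.add (Nat.mul Q.2 e2) (Nat.mul R.2 e3))) q))) %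
      18446744073709551616 % N = _
    rw [hY', hd _ _ _ hP hQ hR]
    congr 1
    change (packL _ _ _) >>> (64 * (q - 1 - (y + 1))) % _ = _
    rw [Nat.shiftRight_eq_div_pow, pow_mul]
    have h64 : (18446744073709551616 : ℕ) = 2 ^ 64 := by norm_num
    rw [h64]
    have hdig := packL_digit (V := 2 ^ 64) (f := fun i => lane q N CT (pat e1 e2 e3 q P.1 Q.1 R.1)
      (q - 1 - i)) (L := List.range q) (fun i _ => lane_lt H CT _ _) (q - 1 - (y + 1))
      (by rw [List.length_range]; omega)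
    rw [hdig, List.getElem_range]
    congr 1
    omega

/-- meaning of the packed weights -/
structure WSpec (n1 n2 n3 e1 e2 e3 N l fr T1 T2 T3 : ℕ) (L1 L2 L3 : List (ℕ × ℕ))
    (w3 w W Y1 Y0 : ℕ) : Prop where
  hW : W = rp (2 ^ w) (fun P => rp (2 ^ w3) (fun Q => rp (2 ^ 80) (fun R =>
    wv (n1 * n2 * n3) N (csqT n1 n2 n3 N T1 T2 T3) e1 e2 e3 P Q R) L3) L2) L1
  h1 : Y1 = rp (2 ^ w3) (fun Q => rp (2 ^ 80) (fun R => ev (n1 * n2 * n3) N
    (csqT n1 n2 n3 N T1 T2 T3) (pat e1 e2 e3 (n1 * n2 * n3) 1 Q.1 R.1)) L3) L2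
  h0 : Y0 = rp (2 ^ w3) (fun Q => rp (2 ^ 80) (fun R => ev (n1 * n2 * n3) N
    (csqT n1 n2 n3 N T1 T2 T3) (pat e1 e2 e3 (n1 * n2 * n3) 0 Q.1 R.1)) L3) L2
  d1 : ∀ Q ∈ L2, ∀ R ∈ L3, fr * ev (n1 * n2 * n3) N
    (csqT n1 n2 n3 N T1 T2 T3) (pat e1 e2 e3 (n1 * n2 * n3) 1 Q.1 R.1) % l = 0
  d0 : ∀ Q ∈ L2, ∀ R ∈ L3, fr * ev (n1 * n2 * n3) N
    (csqT n1 n2 n3 N T1 T2 T3) (pat e1 e2 e3 (n1 * n2 * n3) 0 Q.1 R.1) % (l * l) = 0

theorem wchk_spec {n1 n2 n3 e1 e2 e3 N l fr T1 T2 T3 : ℕ} {L1 L2 L3 : List (ℕ × ℕ)}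
    {w3 w W Y1 Y0 : ℕ} (H : QN (n1 * n2 * n3) N)
    (b1 : ∀ P ∈ L1, P.1 ≤ 1) (b2 : ∀ P ∈ L2, P.1 ≤ 1) (b3 : ∀ P ∈ L3, P.1 ≤ 1)
    (h : wchk n1 n2 n3 e1 e2 e3 N l fr T1 T2 T3 L1 L2 L3 w3 w W Y1 Y0 = true) :
    WSpec n1 n2 n3 e1 e2 e3 N l fr T1 T2 T3 L1 L2 L3 w3 w W Y1 Y0 := by
  unfold wchk setup at h
  simp only [strict_eq] at h
  set q := n1 * n2 * n3 with hq
  have hq' : Nat.mul (Nat.mul n1 n2) n3 = q := rfl
  rw [hq'] at h
  have hct : csq n1 n2 n3 q N T1 T2 T3 = csqT n1 n2 n3 N T1 T2 T3 := rfl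
  rw [hct] at h
  obtain ⟨d, hd, hd'⟩ := with8_spec (β := Bool) (dv q N (Nat.succ (Nat.div (nat_lit 1099511627776) q))
    (csqT n1 n2 n3 N T1 T2 T3)
    (packR (nat_lit 64) (fun y => Nat.sub (Nat.sub q (nat_lit 1)) y) q)
    (packR (nat_lit 64) (fun _ => nat_lit 1) q)
    (Nat.mul (nat_lit 16777215) (packR (nat_lit 64) (fun _ => nat_lit 1) q))) e1 e2 e3 q
    (fun d => with8 (ev q N (csqT n1 n2 n3 N T1 T2 T3)) e1 e2 e3 q fun e =>
      @Bool.rec (fun _ => Bool) false (@Bool.rec (fun _ => Bool) false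
      (@Bool.rec (fun _ => Bool) false
        (allL (fun Q => allL (fun R =>
          @Bool.rec (fun _ => Bool) false
            (Nat.beq (Nat.mod (Nat.mul fr (e (nat_lit 0) Q.1 R.1)) (Nat.mul l l)) (nat_lit 0))
            (Nat.beq (Nat.mod (Nat.mul fr (e (nat_lit 1) Q.1 R.1)) l) (nat_lit 0))) L3) L2)
        (Nat.beq (wyrev e (nat_lit 0) L2 L3 (nat_lit 1208925819614629174706176)
          (Nat.pow (nat_lit 2) w3)) Y0))
        (Nat.beq (wyrev e (nat_lit 1) L2 L3 (nat_lit 1208925819614629174706176)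
          (Nat.pow (nat_lit 2) w3)) Y1))
        (Nat.beq (wrev q N e1 e2 e3 d L1 L2 L3 (nat_lit 1208925819614629174706176)
          (Nat.pow (nat_lit 2) w3) (Nat.pow (nat_lit 2) w)) W))
  rw [hd] at h
  obtain ⟨e, he, he'⟩ := with8_spec (β := Bool) (ev q N (csqT n1 n2 n3 N T1 T2 T3)) e1 e2 e3 q
    (fun e => @Bool.rec (fun _ => Bool) false (@Bool.rec (fun _ => Bool) false
      (@Bool.rec (fun _ => Bool) false
        (allL (fun Q => allL (fun R =>
          @Bool.rec (fun _ => Bool) false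
            (Nat.beq (Nat.mod (Nat.mul fr (e (nat_lit 0) Q.1 R.1)) (Nat.mul l l)) (nat_lit 0))
            (Nat.beq (Nat.mod (Nat.mul fr (e (nat_lit 1) Q.1 R.1)) l) (nat_lit 0))) L3) L2)
        (Nat.beq (wyrev e (nat_lit 0) L2 L3 (nat_lit 1208925819614629174706176)
          (Nat.pow (nat_lit 2) w3)) Y0))
        (Nat.beq (wyrev e (nat_lit 1) L2 L3 (nat_lit 1208925819614629174706176)
          (Nat.pow (nat_lit 2) w3)) Y1))
        (Nat.beq (wrev q N e1 e2 e3 d L1 L2 L3 (nat_lit 1208925819614629174706176)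
          (Nat.pow (nat_lit 2) w3) (Nat.pow (nat_lit 2) w)) W))
  rw [he] at h
  obtain ⟨h1, h⟩ := boolrec_spec h
  obtain ⟨h2, h⟩ := boolrec_spec h
  obtain ⟨h3, h⟩ := boolrec_spec h
  have g1 := Nat.eq_of_beq_eq_true h1
  have g2 := Nat.eq_of_beq_eq_true h2
  have g3 := Nat.eq_of_beq_eq_true h3
  have h80 : ∀ (f : ℕ × ℕ → ℕ) (L : List (ℕ × ℕ)),
      rp (nat_lit 1208925819614629174706176) f L = rp (2 ^ 80) f L := by
    intro f L
    have h80' : (1208925819614629174706176 : ℕ) = 2 ^ 80 := by norm_num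
    have : rp (1208925819614629174706176 : ℕ) f L = rp (2 ^ 80) f L := by rw [h80']
    exact this
  have hdv : ∀ a b c, a ≤ 1 → b ≤ 1 → c ≤ 1 → d a b c =
      packL (2 ^ 64) (fun i => lane q N (csqT n1 n2 n3 N T1 T2 T3) (pat e1 e2 e3 q a b c)
        (q - 1 - i)) (List.range q) := by
    intro a b c ha hb hc
    rw [hd' a b c ha hb hc, ← dv_eq H]
    have e1' : packR (nat_lit 64) (fun y => Nat.sub (Nat.sub q (nat_lit 1)) y) q =
        packL (2 ^ 64) (fun i => q - 1 - i) (List.range q) := packR_eq _ _ _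
    have e2' : packR (nat_lit 64) (fun _ => nat_lit 1) q =
        packL (2 ^ 64) (fun _ => 1) (List.range q) := packR_eq _ _ _
    rw [e1', e2']
    have e3' : Nat.succ (Nat.div (nat_lit 1099511627776) q) = Nat.succ (2 ^ 40 / q) := by
      norm_num
      rfl
    rw [e3']
    rfl
  refine ⟨?_, ?_, ?_, ?_, ?_⟩
  · rw [← g1]
    unfold wrev
    rw [rpk_eq0]
    apply rp_congr
    intro P hP
    rw [rpk_eq0]
    apply rp_congr
    intro Q hQ
    rw [rpk_eq0, h80]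
    apply rp_congr
    intro R hR
    exact wd_eq H hdv (b1 P hP) (b2 Q hQ) (b3 R hR)
  · rw [← g2]
    unfold wyrev
    rw [rpk_eq0]
    apply rp_congr
    intro Q hQ
    rw [rpk_eq0, h80]
    apply rp_congr
    intro R hR
    exact he' _ _ _ le_rfl (b2 Q hQ) (b3 R hR)
  · rw [← g3]
    unfold wyrev
    rw [rpk_eq0]
    apply rp_congr
    intro Q hQ
    rw [rpk_eq0, h80]
    apply rp_congr
    intro R hR
    exact he' _ _ _ (Nat.zero_le _) (b2 Q hQ) (b3 R hR)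
  · intro Q hQ R hR
    have h4 := boolrec_spec (allL_spec (allL_spec h Q hQ) R hR)
    have h5 : fr * e 1 Q.1 R.1 % l = 0 := Nat.eq_of_beq_eq_true h4.1
    rw [he' 1 _ _ le_rfl (b2 Q hQ) (b3 R hR)] at h5
    exact h5
  · intro Q hQ R hR
    have h4 := boolrec_spec (allL_spec (allL_spec h Q hQ) R hR)
    have h5 : fr * e 0 Q.1 R.1 % (l * l) = 0 := Nat.eq_of_beq_eq_true h4.2
    rw [he' 0 _ _ (Nat.zero_le _) (b2 Q hQ) (b3 R hR)] at h5
    exact h5

end Pool.Agent.Lib_helper5.LK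


end

section

/-!
The values computed by the kernel functions.
-/

namespace Pool.Agent.Lib_helper5.LK

open Finset Pool.Agent.LibH4 Pool.Agent.LibH4.Ker Pool.Agent.LibH4.T6 Pool.Agent.LibH4.KF

/-- weights of the second sum -/
def ew (n1 n2 n3 e1 e2 e3 N T1 T2 T3 c : ℕ) (Q R : ℕ × ℕ) : ℕ :=
  ev (n1 * n2 * n3) N (csqT n1 n2 n3 N T1 T2 T3) (pat e1 e2 e3 (n1 * n2 * n3) c Q.1 R.1)

/-- entries of the rows -/
def arow (n1 n2 n3 e1 e2 e3 N T1 T2 T3 d : ℕ) (x y : (ℕ × ℕ) × (ℕ × ℕ)) : ℕ :=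
  x.2.1 * ((PL n1).map fun P => wv (n1 * n2 * n3) N (csqT n1 n2 n3 N T1 T2 T3) e1 e2 e3 P y.1 y.2 *
    vf n1 T1 d x.1.1 x.1.2 P).sum +
  x.2.2 * (gf n1 T1 d x.1.2 * ew n1 n2 n3 e1 e2 e3 N T1 T2 T3 1 y.1 y.2 +
    chw T1 x.1.2 * ew n1 n2 n3 e1 e2 e3 N T1 T2 T3 0 y.1 y.2)

/-- a bound for the entries of the rows -/
def BA (n1 N l : ℕ) : ℕ := (6 + l) * ((n1 + 1) * (N * (N * N)))

/-! ### bounds -/

lemma sum_le_of {α : Type} {f : α → ℕ} {c : ℕ} {L : List α} (h : ∀ x ∈ L, f x ≤ c) :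
    (L.map f).sum ≤ L.length * c := by
  induction L with
  | nil => simp
  | cons x L ih =>
    rw [List.map_cons, List.sum_cons, List.length_cons, add_mul, one_mul, add_comm]
    exact Nat.add_le_add (ih fun y hy => h y (by simp [hy])) (h x (by simp))

lemma gz0_lt {p N T δ : ℕ} (hp : 0 < p) (ht : ∀ u < p, chw T u < N) (z : ℕ) :
    gz0 p T δ z < N := ht _ (Nat.mod_lt _ hp)

lemma vf_le {p N T d R S : ℕ} (hp : 0 < p) (hN : 0 < N) (ht : ∀ u < p, chw T u < N) (hS : S < p)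
    (Q : ℕ × ℕ) : vf p T d R S Q ≤ N * N := by
  unfold vf
  apply Nat.mul_le_mul (ht S hS).le
  split_ifs
  · exact hN
  · exact (gz0_lt hp ht _).le

lemma gf_le {p N T d S : ℕ} (hp : 0 < p) (ht : ∀ u < p, chw T u < N) (hS : S < p) :
    gf p T d S ≤ N * (p * N) := by
  unfold gf
  apply Nat.mul_le_mul (ht S hS).le
  rw [gs_eq]
  calc ∑ z ∈ range p, gz0 p T (dd p d S) z ≤ ∑ _z ∈ range p, N :=
        Finset.sum_le_sum fun z _ => (gz0_lt hp ht _).le
    _ = p * N := by simp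

lemma wv_le {q N CT e1 e2 e3 : ℕ} (hN : 0 < N) (P Q R : ℕ × ℕ) :
    wv q N CT e1 e2 e3 P Q R ≤ N := by
  unfold wv
  split_ifs
  · exact Nat.zero_le _
  · exact (Nat.mod_lt _ hN).le

section Val

variable {n1 n2 n3 e1 e2 e3 N l fr T1 T2 T3 : ℕ} {L2 L3 : List (ℕ × ℕ)} {w3 w W Y1 Y0 : ℕ}

lemma ew_le (hN : 0 < N) (c : ℕ) (Q R : ℕ × ℕ) :
    ew n1 n2 n3 e1 e2 e3 N T1 T2 T3 c Q R ≤ N := by
  unfold ew
  rw [ev_eq]
  exact (Nat.mod_lt _ hN).le

lemma arow_le (hN : 0 < N) (h1 : 0 < n1) (ht : ∀ u < n1, chw T1 u < N) {d : ℕ}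
    {x : (ℕ × ℕ) × (ℕ × ℕ)} (hκ : x.2.1 ≤ 6) (hα : x.2.2 ≤ l) (hS : x.1.2 < n1)
    (y : (ℕ × ℕ) × (ℕ × ℕ)) :
    arow n1 n2 n3 e1 e2 e3 N T1 T2 T3 d x y ≤ BA n1 N l := by
  unfold arow BA
  have b1 : ((PL n1).map fun P => wv (n1 * n2 * n3) N (csqT n1 n2 n3 N T1 T2 T3) e1 e2 e3 P y.1 y.2 *
      vf n1 T1 d x.1.1 x.1.2 P).sum ≤ (n1 + 1) * (N * (N * N)) := by
    have := sum_le_of (f := fun P => wv (n1 * n2 * n3) N (csqT n1 n2 n3 N T1 T2 T3) e1 e2 e3 P
      y.1 y.2 * vf n1 T1 d x.1.1 x.1.2 P) (c := N * (N * N)) (L := PL n1)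
      (fun P _ => Nat.mul_le_mul (wv_le hN _ _ _) (vf_le h1 hN ht hS P))
    rwa [PL_length] at this
  have b2 : gf n1 T1 d x.1.2 * ew n1 n2 n3 e1 e2 e3 N T1 T2 T3 1 y.1 y.2 +
      chw T1 x.1.2 * ew n1 n2 n3 e1 e2 e3 N T1 T2 T3 0 y.1 y.2 ≤ (n1 + 1) * (N * (N * N)) := by
    have c1 := Nat.mul_le_mul (gf_le h1 ht hS (d := d))
      (ew_le (n1 := n1) (n2 := n2) (n3 := n3) (e1 := e1) (e2 := e2) (e3 := e3) (T1 := T1) (T2 := T2)
        (T3 := T3) hN 1 y.1 y.2)
    have c2 := Nat.mul_le_mul (ht _ hS).le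
      (ew_le (n1 := n1) (n2 := n2) (n3 := n3) (e1 := e1) (e2 := e2) (e3 := e3) (T1 := T1) (T2 := T2)
        (T3 := T3) hN 0 y.1 y.2)
    have c3 : N * N ≤ N * (N * N) := Nat.mul_le_mul_left _ (Nat.le_mul_of_pos_left N hN)
    calc _ ≤ N * (n1 * N) * N + N * N := Nat.add_le_add c1 c2
      _ ≤ N * (n1 * N) * N + N * (N * N) := Nat.add_le_add_left c3 _
      _ = _ := by ring
  calc _ ≤ 6 * ((n1 + 1) * (N * (N * N))) + l * ((n1 + 1) * (N * (N * N))) :=
        Nat.add_le_add (Nat.mul_le_mul hκ b1) (Nat.mul_le_mul hα b2)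
    _ = _ := by ring

lemma rowX_eq (WS : WSpec n1 n2 n3 e1 e2 e3 N l fr T1 T2 T3 (PL n1) L2 L3 w3 w W Y1 Y0)
    (hw3 : w3 = 80 * L3.length) (hw : w = w3 * L2.length) (hN : 0 < N) (h1 : 0 < n1)
    (ht : ∀ u < n1, chw T1 u < N) (hb : (n1 + 1) * (N * (N * N)) < 2 ^ 80) {d : ℕ}
    {x : (ℕ × ℕ) × (ℕ × ℕ)} (hS : x.1.2 < n1) :
    rowX n1 T1 w W Y1 Y0 d x =
      rp (2 ^ 80) (arow n1 n2 n3 e1 e2 e3 N T1 T2 T3 d x) (L2 ×ˢ L3) := by
  have hw' : (2 : ℕ) ^ w = (2 ^ 80) ^ (L2 ×ˢ L3).length := by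
    rw [hw, hw3, List.length_product, ← pow_mul]
    congr 1
    ring
  have hw3' : (2 : ℕ) ^ w3 = (2 ^ 80) ^ L3.length := by rw [hw3, ← pow_mul]
  have fl : ∀ f : ℕ × ℕ → ℕ × ℕ → ℕ, rp (2 ^ w3) (fun Q => rp (2 ^ 80) (f Q) L3) L2 =
      rp (2 ^ 80) (fun y : (ℕ × ℕ) × (ℕ × ℕ) => f y.1 y.2) (L2 ×ˢ L3) := by
    intro f
    rw [hw3', rp_flat]
  unfold rowX arow
  have eW := WS.hW
  simp only [fl] at eW
  have e1' := WS.h1
  rw [fl] at e1'
  have e0' := WS.h0
  rw [fl] at e0'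
  have key := blk (V := 2 ^ 80) (C := N) (D := N * N)
    (a := fun P (y : (ℕ × ℕ) × (ℕ × ℕ)) => wv (n1 * n2 * n3) N (csqT n1 n2 n3 N T1 T2 T3) e1 e2 e3 P
      y.1 y.2) (b := vf n1 T1 d x.1.1 x.1.2) (L := PL n1) (M := L2 ×ˢ L3) (by simp [PL])
    (fun _ _ _ _ => wv_le hN _ _ _) (fun P _ => vf_le h1 hN ht hS P)
    (by rw [PL_length]; exact hb)
  rw [PL_length, Nat.add_sub_cancel] at key
  rw [pow_mul, hw', eW, hw', key, e1', e0']
  rw [rp_add, rp_mul, rp_mul, rp_add, rp_mul, rp_mul]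
  rfl

/-- contraction with the middle component -/
def brow (n1 n2 n3 e1 e2 e3 N T1 T2 T3 d : ℕ) (L2 : List (ℕ × ℕ)) (x : (ℕ × ℕ) × (ℕ × ℕ))
    (u2 : ℕ × ℕ → ℕ) (R : ℕ × ℕ) : ℕ :=
  (L2.map fun Q => arow n1 n2 n3 e1 e2 e3 N T1 T2 T3 d x (Q, R) * u2 Q).sum

lemma brow_le (hN : 0 < N) (h1 : 0 < n1) (ht : ∀ u < n1, chw T1 u < N) {d : ℕ}
    {x : (ℕ × ℕ) × (ℕ × ℕ)} (hκ : x.2.1 ≤ 6) (hα : x.2.2 ≤ l) (hS : x.1.2 < n1)
    {u2 : ℕ × ℕ → ℕ} {D2 : ℕ} (hu : ∀ Q ∈ L2, u2 Q ≤ D2) (R : ℕ × ℕ) :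
    brow n1 n2 n3 e1 e2 e3 N T1 T2 T3 d L2 x u2 R ≤ L2.length * (BA n1 N l * D2) := by
  unfold brow
  apply sum_le_of
  intro Q hQ
  exact Nat.mul_le_mul (arow_le hN h1 ht hκ hα hS _) (hu Q hQ)

lemma red_row (hw3 : w3 = 80 * L3.length) (hw : w = w3 * L2.length) (hN : 0 < N) (h1 : 0 < n1)
    (ht : ∀ u < n1, chw T1 u < N) {d : ℕ} (hL2 : L2 ≠ []) (hL3 : L3 ≠ []) {J : List Fm}
    {x : Fm → (ℕ × ℕ) × (ℕ × ℕ)}
    (hκ : ∀ j ∈ J, (x j).2.1 ≤ 6) (hα : ∀ j ∈ J, (x j).2.2 ≤ l) (hS : ∀ j ∈ J, (x j).1.2 < n1)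
    {u2 : Fm → ℕ × ℕ → ℕ} {D2 : ℕ} (hu : ∀ j ∈ J, ∀ Q ∈ L2, u2 j Q ≤ D2) (hD : 0 < D2)
    (hb : L2.length * (BA n1 N l * D2) < 2 ^ 80) {sh : ℕ} (hsh : sh = w3 * (L2.length - 1)) :
    red w w3 sh J.length
      (rp (2 ^ w) (fun j => rp (2 ^ 80) (arow n1 n2 n3 e1 e2 e3 N T1 T2 T3 d (x j)) (L2 ×ˢ L3)) J)
      (rp (2 ^ w) (fun j => packL (2 ^ w3) (u2 j) L2) J) =
    rp (2 ^ w3) (fun j => rp (2 ^ 80) (brow n1 n2 n3 e1 e2 e3 N T1 T2 T3 d L2 (x j) (u2 j)) L3) J := by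
  have hw' : (2 : ℕ) ^ w = (2 ^ 80) ^ (L2 ×ˢ L3).length := by
    rw [hw, hw3, List.length_product, ← pow_mul]
    congr 1
    ring
  have hw3' : (2 : ℕ) ^ w3 = (2 ^ 80) ^ L3.length := by rw [hw3, ← pow_mul]
  have hw2 : (2 : ℕ) ^ w = (2 ^ w3) ^ L2.length := by rw [hw, ← pow_mul]
  have hl2 : 1 ≤ L2.length := List.length_pos_of_ne_nil hL2
  have hBA : 0 < BA n1 N l := by unfold BA; positivity
  have b1 : BA n1 N l < 2 ^ 80 := by
    refine lt_of_le_of_lt ?_ hb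
    calc BA n1 N l = 1 * (BA n1 N l * 1) := by ring
      _ ≤ _ := Nat.mul_le_mul hl2 (Nat.mul_le_mul_left _ hD)
  have b2 : D2 < 2 ^ w3 := by
    have : D2 < 2 ^ 80 := by
      refine lt_of_le_of_lt ?_ hb
      calc D2 = 1 * (1 * D2) := by ring
        _ ≤ _ := Nat.mul_le_mul hl2 (Nat.mul_le_mul_right _ hBA)
    refine lt_of_lt_of_le this ?_
    apply Nat.pow_le_pow_right (by norm_num)
    rw [hw3]
    have := List.length_pos_of_ne_nil hL3
    omega
  rw [red_eq]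
  · apply rp_congr
    intro j hj
    have e1 : rp (2 ^ 80) (arow n1 n2 n3 e1 e2 e3 N T1 T2 T3 d (x j)) (L2 ×ˢ L3) =
        rp ((2 ^ 80) ^ L3.length) (fun Q => rp (2 ^ 80) (fun R =>
          arow n1 n2 n3 e1 e2 e3 N T1 T2 T3 d (x j) (Q, R)) L3) L2 := by
      rw [rp_flat]
    rw [e1, hsh, pow_mul, hw3']
    exact blk (V := 2 ^ 80) (C := BA n1 N l) (D := D2) (L := L2) (M := L3) hL2
      (fun Q _ R _ => arow_le hN h1 ht (hκ j hj) (hα j hj) (hS j hj) _) (hu j hj) hb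
  · intro j hj
    rw [hw']
    apply rp_lt
    intro y _
    exact lt_of_le_of_lt (arow_le hN h1 ht (hκ j hj) (hα j hj) (hS j hj) _) b1
  · intro j hj
    rw [hw2]
    apply packL_lt
    intro Q hQ
    exact lt_of_le_of_lt (hu j hj Q hQ) b2

lemma ip_fin {J : List Fm} {b u : Fm → ℕ × ℕ → ℕ} {C D : ℕ} (hJ : J ≠ []) (hL3 : L3 ≠ [])
    (hb : ∀ j ∈ J, ∀ R ∈ L3, b j R ≤ C) (hu : ∀ j ∈ J, ∀ R ∈ L3, u j R ≤ D)
    (hB : J.length * L3.length * (C * D) < 2 ^ 80) (hw3 : w3 = 80 * L3.length) {sh : ℕ}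
    (hsh : sh = 80 * (J.length * L3.length - 1)) :
    ip N sh (rp (2 ^ w3) (fun j => rp (2 ^ 80) (b j) L3) J)
      (packL (2 ^ w3) (fun j => packL (2 ^ 80) (u j) L3) J) =
    (J.map fun j => (L3.map fun R => b j R * u j R).sum).sum % N := by
  have hw3' : (2 : ℕ) ^ w3 = (2 ^ 80) ^ L3.length := by rw [hw3, ← pow_mul]
  have h80 : (1208925819614629174706176 : ℕ) = 2 ^ 80 := by norm_num
  have e : ∀ A v : ℕ, ip N sh A v = (A * v) >>> sh % 1208925819614629174706176 % N := fun _ _ => rfl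
  have hne : J ×ˢ L3 ≠ [] := by
    intro h
    have := congrArg List.length h
    rw [List.length_product] at this
    have h1 := List.length_pos_of_ne_nil hJ
    have h2 := List.length_pos_of_ne_nil hL3
    have h3 : 0 < J.length * L3.length := Nat.mul_pos h1 h2
    simp at this
    rcases this with h | h
    · exact hJ h
    · exact hL3 h
  have key := ip_eq (V := 2 ^ 80) (A := C) (B := D) (a := fun y : Fm × (ℕ × ℕ) => b y.1 y.2)
    (b := fun y => u y.1 y.2) (L := J ×ˢ L3) hne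
    (fun y hy => hb _ (List.mem_product.1 hy).1 _ (List.mem_product.1 hy).2)
    (fun y hy => hu _ (List.mem_product.1 hy).1 _ (List.mem_product.1 hy).2)
    (by rw [List.length_product]; exact hB)
  rw [List.length_product] at key
  rw [e, hw3', rp_flat, packL_flat, hsh, Nat.shiftRight_eq_div_pow, pow_mul, h80, key,
    sum_flat (fun j R => b j R * u j R)]

end Val

/-! ### casts -/

section Cast

variable {n1 n2 n3 e1 e2 e3 N l fr T1 T2 T3 : ℕ} {L2 L3 : List (ℕ × ℕ)} {w3 w W Y1 Y0 : ℕ}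
  [NeZero n1] [NeZero n2] [NeZero n3] [NeZero (n1 * n2)] [NeZero (n1 * n2 * n3)]

omit [NeZero n1] [NeZero n2] [NeZero n3] [NeZero (n1 * n2)] in
lemma wv_cast (hN : 2 ≤ N) (hN16 : N ≤ 2 ^ 16)
    (hc : IsChar (tri (tabc n1 N T1) (tabc n2 N T2) (tabc n3 N T3))) (P Q R : ℕ × ℕ) :
    ((wv (n1 * n2 * n3) N (csqT n1 n2 n3 N T1 T2 T3) e1 e2 e3 P Q R : ℕ) : ZMod N) =
      DZ (tri (tabc n1 N T1) (tabc n2 N T2) (tabc n3 N T3))
        ((P.1 * e1 + (Q.1 * e2 + R.1 * e3) : ℕ) : ZMod (n1 * n2 * n3))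
        ((P.2 * e1 + (Q.2 * e2 + R.2 * e3) : ℕ) : ZMod (n1 * n2 * n3)) := by
  have hq : 0 < n1 * n2 * n3 := Nat.pos_of_ne_zero (NeZero.ne _)
  unfold wv
  split_ifs with h
  · have h0 : ((P.2 * e1 + (Q.2 * e2 + R.2 * e3) : ℕ) : ZMod (n1 * n2 * n3)) = 0 := by
      rw [ZMod.natCast_eq_zero_iff]
      exact Nat.dvd_of_mod_eq_zero h
    rw [h0]
    unfold DZ
    symm
    rw [Nat.cast_zero]
    apply Finset.sum_eq_zero
    intro z _
    have : bz (n1 * n2 * n3) N (z * 0) = 0 := by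
      unfold bz bI
      simp
    rw [this]
    ring
  · rw [ZMod.natCast_mod, lane_cast hN hN16 hc _ (Nat.pos_of_ne_zero h) (Nat.mod_lt _ hq)]
    unfold pat
    rw [ZMod.natCast_mod, ZMod.natCast_mod]

omit [NeZero n1] [NeZero n2] [NeZero n3] [NeZero (n1 * n2)] in
lemma ew_cast (hN : 0 < N) (hN16 : N ≤ 2 ^ 16) (c : ℕ) (Q R : ℕ × ℕ) :
    ((ew n1 n2 n3 e1 e2 e3 N T1 T2 T3 c Q R : ℕ) : ZMod N) =
      EZ (tri (tabc n1 N T1) (tabc n2 N T2) (tabc n3 N T3))
        ((c * e1 + (Q.1 * e2 + R.1 * e3) : ℕ) : ZMod (n1 * n2 * n3)) := by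
  unfold ew
  rw [ev_cast hN hN16]
  unfold pat
  rw [ZMod.natCast_mod]

end Cast

end Pool.Agent.Lib_helper5.LK


end

section

/-!
The values computed by the kernel functions are the values of the relations.
-/

namespace Pool.Agent.Lib_helper5.LK

open Finset Pool.Agent.LibH4 Pool.Agent.LibH4.Ker Pool.Agent.LibH4.T6 Pool.Agent.LibH4.KF

lemma lsum_comm {α β K : Type} [AddCommMonoid K] (f : α → β → K) (L : List α) (M : List β) :
    (L.map fun x => (M.map fun y => f x y).sum).sum =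
      (M.map fun y => (L.map fun x => f x y).sum).sum := by
  induction L with
  | nil => simp
  | cons x L ih =>
    simp only [List.map_cons, List.sum_cons]
    rw [ih, List.sum_map_add]

lemma lsum_congr {α K : Type} [AddCommMonoid K] {f g : α → K} {L : List α}
    (h : ∀ x ∈ L, f x = g x) : (L.map f).sum = (L.map g).sum := by
  congr 1
  exact List.map_congr_left h

lemma cast_lsum {α : Type} {N : ℕ} (f : α → ℕ) (L : List α) :
    (((L.map f).sum : ℕ) : ZMod N) = (L.map fun x => ((f x : ℕ) : ZMod N)).sum := by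
  rw [Nat.cast_list_sum, List.map_map]
  rfl

lemma lrange_sum {K : Type} [AddCommMonoid K] (f : ℕ → K) (n : ℕ) :
    ((List.range n).map f).sum = ∑ i ∈ range n, f i := by
  induction n with
  | zero => simp
  | succ n ih => rw [List.range_succ, List.map_append, List.sum_append, ih, sum_range_succ]; simp

section Cast

variable {n1 n2 n3 e1 e2 e3 N l fr T1 T2 T3 : ℕ} {L2 L3 : List (ℕ × ℕ)} {w3 w W Y1 Y0 : ℕ}
  [NeZero n1] [NeZero n2] [NeZero n3] [NeZero (n1 * n2)] [NeZero (n1 * n2 * n3)]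

/-- splitting of the second sum -/
lemma YX_split (H : Idem n1 n2 n3 e1 e2 e3) (hp : n1.Prime)
    (p2 : IsP1 n2 L2) (p3 : IsP1 n3 L3) {χ1 : ZMod n1 → ZMod N} {χ2 : ZMod n2 → ZMod N}
    {χ3 : ZMod n3 → ZMod N} (h1 : IsChar χ1) (h2 : IsChar χ2) (h3 : IsChar χ3) (P R S : ℤ) :
    YX (tri χ1 χ2 χ3) P R S =
      (∑ y : ZMod n1, χ1 (fz n1 P R S 1 y)) * (L3.map fun r => (L2.map fun Q =>
        (χ2 (fz n2 P R S (Q.1 : ZMod n2) (Q.2 : ZMod n2)) *
        χ3 (fz n3 P R S (r.1 : ZMod n3) (r.2 : ZMod n3))) *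
        EZ (tri χ1 χ2 χ3) ((1 * e1 + (Q.1 * e2 + r.1 * e3) : ℕ) : ZMod (n1 * n2 * n3))).sum).sum +
      χ1 (S : ZMod n1) * (L3.map fun r => (L2.map fun Q =>
        (χ2 (fz n2 P R S (Q.1 : ZMod n2) (Q.2 : ZMod n2)) *
        χ3 (fz n3 P R S (r.1 : ZMod n3) (r.2 : ZMod n3))) *
        EZ (tri χ1 χ2 χ3) ((0 * e1 + (Q.1 * e2 + r.1 * e3) : ℕ) : ZMod (n1 * n2 * n3))).sum).sum := by
  rw [YX3 H (isP1_PL hp) p2 p3 h1 h2 h3 P R S]
  have key : ∀ p : ℕ × ℕ, (L2.map fun Q => (L3.map fun r =>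
        (χ1 (fz n1 P R S (p.1 : ZMod n1) (p.2 : ZMod n1)) *
        χ2 (fz n2 P R S (Q.1 : ZMod n2) (Q.2 : ZMod n2)) *
        χ3 (fz n3 P R S (r.1 : ZMod n3) (r.2 : ZMod n3))) *
        EZ (tri χ1 χ2 χ3) ((p.1 * e1 + (Q.1 * e2 + r.1 * e3) : ℕ) :
          ZMod (n1 * n2 * n3))).sum).sum =
      χ1 (fz n1 P R S (p.1 : ZMod n1) (p.2 : ZMod n1)) * (L3.map fun r => (L2.map fun Q =>
        (χ2 (fz n2 P R S (Q.1 : ZMod n2) (Q.2 : ZMod n2)) *
        χ3 (fz n3 P R S (r.1 : ZMod n3) (r.2 : ZMod n3))) *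
        EZ (tri χ1 χ2 χ3) ((p.1 * e1 + (Q.1 * e2 + r.1 * e3) : ℕ) :
          ZMod (n1 * n2 * n3))).sum).sum := by
    intro p
    rw [lsum_comm, ← List.sum_map_mul_left]
    apply lsum_congr
    intro r _
    rw [← List.sum_map_mul_left]
    apply lsum_congr
    intro Q _
    ring
  simp only [key]
  unfold PL
  rw [List.map_append, List.sum_append, List.map_map, List.map_singleton, List.sum_singleton]
  congr 1
  · rw [sum_zmod_range, Finset.sum_mul]
    rw [lrange_sum]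
    apply Finset.sum_congr rfl
    intro y _
    simp only [Function.comp, Nat.cast_one]
  · congr 2
    unfold fz
    push_cast
    ring

/-- cast of the contraction -/
lemma val_cast (H : Idem n1 n2 n3 e1 e2 e3) (hp : n1.Prime)
    (p2 : IsP1 n2 L2) (p3 : IsP1 n3 L3) (hN : 2 ≤ N) (hN16 : N ≤ 2 ^ 16)
    (h1 : IsChar (tabc n1 N T1)) (h2 : IsChar (tabc n2 N T2)) (h3 : IsChar (tabc n3 N T3))
    {j : Fm} {x : (ℕ × ℕ) × (ℕ × ℕ)} {d : ℕ} (hR : (x.1.1 : ZMod n1) = j.R)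
    (hS : (x.1.2 : ZMod n1) = j.S) (hSp : x.1.2 < n1)
    (hd : (d : ZMod n1) = j.R ^ 2 - 4 * j.P * j.S) (hi : 2 * x.1.2 * ii n1 x.1.2 % n1 = 1)
    {u2 u3 : ℕ × ℕ → ℕ}
    (c2 : ∀ Q ∈ L2, ((u2 Q : ℕ) : ZMod N) =
      tabc n2 N T2 (fz n2 j.P j.R j.S (Q.1 : ZMod n2) (Q.2 : ZMod n2)))
    (c3 : ∀ Q ∈ L3, ((u3 Q : ℕ) : ZMod N) =
      tabc n3 N T3 (fz n3 j.P j.R j.S (Q.1 : ZMod n3) (Q.2 : ZMod n3))) :
    (((L3.map fun R => brow n1 n2 n3 e1 e2 e3 N T1 T2 T3 d L2 x u2 R * u3 R).sum : ℕ) : ZMod N) =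
      x.2.1 * XX (tri (tabc n1 N T1) (tabc n2 N T2) (tabc n3 N T3)) j.P j.R j.S +
      x.2.2 * YX (tri (tabc n1 N T1) (tabc n2 N T2) (tabc n3 N T3)) j.P j.R j.S := by
  have hc := tri_char (n1 := n1) (n2 := n2) (n3 := n3) h1 h2 h3
  rw [YX_split H hp p2 p3 h1 h2 h3, XX3 H (isP1_PL hp) p2 p3 h1 h2 h3]
  have hG := gf_cast (N := N) (T := T1) (P' := j.P) h1 hR hS hSp hd hi
  have hs : ((chw T1 x.1.2 : ℕ) : ZMod N) = tabc n1 N T1 (j.S : ZMod n1) := by
    rw [← hS, tabc_natCast, Nat.mod_eq_of_lt hSp]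
  rw [← hG, ← hs]
  -- the first sum
  have eX : ((PL n1).map fun p => (L2.map fun Q => (L3.map fun r =>
        (tabc n1 N T1 (fz n1 j.P j.R j.S (p.1 : ZMod n1) (p.2 : ZMod n1)) *
        tabc n2 N T2 (fz n2 j.P j.R j.S (Q.1 : ZMod n2) (Q.2 : ZMod n2)) *
        tabc n3 N T3 (fz n3 j.P j.R j.S (r.1 : ZMod n3) (r.2 : ZMod n3))) *
        DZ (tri (tabc n1 N T1) (tabc n2 N T2) (tabc n3 N T3))
          ((p.1 * e1 + (Q.1 * e2 + r.1 * e3) : ℕ) : ZMod (n1 * n2 * n3))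
          ((p.2 * e1 + (Q.2 * e2 + r.2 * e3) : ℕ) : ZMod (n1 * n2 * n3))).sum).sum).sum =
      (L3.map fun r => (L2.map fun Q => ((PL n1).map fun p =>
        (((wv (n1 * n2 * n3) N (csqT n1 n2 n3 N T1 T2 T3) e1 e2 e3 p Q r : ℕ) : ZMod N) *
          ((vf n1 T1 d x.1.1 x.1.2 p : ℕ) : ZMod N)) * ((u2 Q : ℕ) : ZMod N) *
          ((u3 r : ℕ) : ZMod N)).sum).sum).sum := by
    have e1 : ∀ p : ℕ × ℕ, (L2.map fun Q => (L3.map fun r =>
        (tabc n1 N T1 (fz n1 j.P j.R j.S (p.1 : ZMod n1) (p.2 : ZMod n1)) *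
        tabc n2 N T2 (fz n2 j.P j.R j.S (Q.1 : ZMod n2) (Q.2 : ZMod n2)) *
        tabc n3 N T3 (fz n3 j.P j.R j.S (r.1 : ZMod n3) (r.2 : ZMod n3))) *
        DZ (tri (tabc n1 N T1) (tabc n2 N T2) (tabc n3 N T3))
          ((p.1 * e1 + (Q.1 * e2 + r.1 * e3) : ℕ) : ZMod (n1 * n2 * n3))
          ((p.2 * e1 + (Q.2 * e2 + r.2 * e3) : ℕ) : ZMod (n1 * n2 * n3))).sum).sum =
        (L3.map fun r => (L2.map fun Q =>
        (tabc n1 N T1 (fz n1 j.P j.R j.S (p.1 : ZMod n1) (p.2 : ZMod n1)) *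
        tabc n2 N T2 (fz n2 j.P j.R j.S (Q.1 : ZMod n2) (Q.2 : ZMod n2)) *
        tabc n3 N T3 (fz n3 j.P j.R j.S (r.1 : ZMod n3) (r.2 : ZMod n3))) *
        DZ (tri (tabc n1 N T1) (tabc n2 N T2) (tabc n3 N T3))
          ((p.1 * e1 + (Q.1 * e2 + r.1 * e3) : ℕ) : ZMod (n1 * n2 * n3))
          ((p.2 * e1 + (Q.2 * e2 + r.2 * e3) : ℕ) : ZMod (n1 * n2 * n3))).sum).sum :=
      fun p => lsum_comm _ _ _
    simp only [e1]
    rw [lsum_comm]
    apply lsum_congr
    intro r hr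
    rw [lsum_comm]
    apply lsum_congr
    intro Q hQ
    apply lsum_congr
    intro p hpp
    rw [wv_cast hN hN16 hc, vf_cast h1 hR hS hSp hd hi hpp, c2 Q hQ, c3 r hr]
    ring
  rw [eX, cast_lsum]
  have eE : ∀ c : ℕ, (L3.map fun r => (L2.map fun Q =>
        (tabc n2 N T2 (fz n2 j.P j.R j.S (Q.1 : ZMod n2) (Q.2 : ZMod n2)) *
        tabc n3 N T3 (fz n3 j.P j.R j.S (r.1 : ZMod n3) (r.2 : ZMod n3))) *
        EZ (tri (tabc n1 N T1) (tabc n2 N T2) (tabc n3 N T3))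
          ((c * e1 + (Q.1 * e2 + r.1 * e3) : ℕ) : ZMod (n1 * n2 * n3))).sum).sum =
      (L3.map fun r => (L2.map fun Q => ((u2 Q : ℕ) : ZMod N) * ((u3 r : ℕ) : ZMod N) *
        ((ew n1 n2 n3 e1 e2 e3 N T1 T2 T3 c Q r : ℕ) : ZMod N)).sum).sum := by
    intro c
    apply lsum_congr
    intro r hr
    apply lsum_congr
    intro Q hQ
    rw [ew_cast (by omega) hN16, c2 Q hQ, c3 r hr]
  rw [eE 1, eE 0]
  simp only [← List.sum_map_mul_left, ← List.sum_map_add]
  apply lsum_congr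
  intro r _
  unfold brow
  rw [Nat.cast_mul, cast_lsum, ← List.sum_map_mul_right]
  apply lsum_congr
  intro Q _
  unfold arow
  rw [Nat.cast_mul, Nat.cast_add, Nat.cast_mul x.2.1, cast_lsum]
  have : (List.map (fun p => (x.2.1 : ZMod N) *
      (((wv (n1 * n2 * n3) N (csqT n1 n2 n3 N T1 T2 T3) e1 e2 e3 p Q r : ℕ) : ZMod N) *
      ((vf n1 T1 d x.1.1 x.1.2 p : ℕ) : ZMod N) * ((u2 Q : ℕ) : ZMod N) *
      ((u3 r : ℕ) : ZMod N))) (PL n1)).sum = x.2.1 * (List.map (fun p =>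
      (((wv (n1 * n2 * n3) N (csqT n1 n2 n3 N T1 T2 T3) e1 e2 e3 p Q r *
      vf n1 T1 d x.1.1 x.1.2 p : ℕ) : ZMod N))) (PL n1)).sum * ((u2 Q : ℕ) : ZMod N) *
      ((u3 r : ℕ) : ZMod N) := by
    rw [← List.sum_map_mul_left, ← List.sum_map_mul_right, ← List.sum_map_mul_right]
    apply lsum_congr
    intro p _
    push_cast
    ring
  rw [this]
  push_cast
  ring

end Cast

lemma lsum_zero {α K : Type} [AddCommMonoid K] {f : α → K} {L : List α}
    (h : ∀ x ∈ L, f x = 0) : (L.map f).sum = 0 := by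
  rw [lsum_congr h]
  simp

/-- **the verified data of a relation** -/
structure Good (n1 n2 n3 e1 e2 e3 N l fr T1 T2 T3 : ℕ) (L2 L3 : List (ℕ × ℕ))
    (w3 w W Y1 Y0 : ℕ) [NeZero n1] [NeZero n2] [NeZero n3] [NeZero (n1 * n2)]
    [NeZero (n1 * n2 * n3)] : Prop where
  hp : n1.Prime
  idem : Idem n1 n2 n3 e1 e2 e3
  p2 : IsP1 n2 L2
  p3 : IsP1 n3 L3
  ne2 : L2 ≠ []
  ne3 : L3 ≠ []
  qn : QN (n1 * n2 * n3) N
  t1 : tabCk n1 N T1 = true
  t2 : tabCk n2 N T2 = true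
  t3 : tabCk n3 N T3 = true
  ws : WSpec n1 n2 n3 e1 e2 e3 N l fr T1 T2 T3 (PL n1) L2 L3 w3 w W Y1 Y0
  hw3 : w3 = 80 * L3.length
  hw : w = w3 * L2.length
  l0 : 0 < l
  hfr : N = l ∨ (fr = 1 ∧ N = l * (l * l))

section Final

variable {n1 n2 n3 e1 e2 e3 N l fr T1 T2 T3 : ℕ} {L2 L3 : List (ℕ × ℕ)} {w3 w W Y1 Y0 : ℕ}
  [NeZero n1] [NeZero n2] [NeZero n3] [NeZero (n1 * n2)] [NeZero (n1 * n2 * n3)]

lemma Good.lYX (G : Good n1 n2 n3 e1 e2 e3 N l fr T1 T2 T3 L2 L3 w3 w W Y1 Y0) {j : Fm} {D : ℤ}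
    (hD : j.R ^ 2 - 4 * j.P * j.S = D) (hC : rowC n1 T1 fr l (rs n1 D) (fkO n1 l j)) :
    (l : ZMod N) * YX (tri (tabc n1 N T1) (tabc n2 N T2) (tabc n3 N T3)) j.P j.R j.S = 0 := by
  have hN : 2 ≤ N := by have := G.qn.N3; omega
  have hN16 : N ≤ 2 ^ 16 := by have := G.qn.N8; omega
  rcases G.hfr with h | ⟨hf, h⟩
  · have : (l : ZMod N) = 0 := by rw [← h]; exact ZMod.natCast_self N
    rw [this, zero_mul]
  · have h1 := tabCk_char G.t1
    have h2 := tabCk_char G.t2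
    have h3 := tabCk_char G.t3
    have hNz : ((l * (l * l) : ℕ) : ZMod N) = 0 := by rw [← h]; exact ZMod.natCast_self N
    have hd : ((rs n1 D : ℕ) : ZMod n1) = (j.R : ZMod n1) ^ 2 - 4 * j.P * j.S := by
      rw [rs_cast, ← hD]; push_cast; ring
    have hG := gf_cast (N := N) (T := T1) (P' := j.P) (d := rs n1 D) h1 (rs_cast j.R) (rs_cast j.S)
      (rs_lt j.S) hd hC.1
    rw [YX_split G.idem G.hp G.p2 G.p3 h1 h2 h3, ← hG, mul_add]
    have hC2 := hC.2
    rw [hf, one_mul] at hC2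
    have y1 : ∀ Q ∈ L2, ∀ R ∈ L3, (l : ZMod N) * ((gf n1 T1 (rs n1 D) (rs n1 j.S) : ℕ) : ZMod N) *
        EZ (tri (tabc n1 N T1) (tabc n2 N T2) (tabc n3 N T3))
          ((1 * e1 + (Q.1 * e2 + R.1 * e3) : ℕ) : ZMod (n1 * n2 * n3)) = 0 := by
      intro Q hQ R hR
      rw [← ew_cast (by omega) hN16 1 Q R]
      have h4 := G.ws.d1 Q hQ R hR
      rw [hf, one_mul] at h4
      obtain ⟨u, hu⟩ := Nat.dvd_of_mod_eq_zero hC2
      obtain ⟨v, hv⟩ := Nat.dvd_of_mod_eq_zero h4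
      have hu' : gf n1 T1 (rs n1 D) (rs n1 j.S) = l * u := hu
      have hv' : ew n1 n2 n3 e1 e2 e3 N T1 T2 T3 1 Q R = l * v := hv
      rw [hu', hv']
      have : (l : ZMod N) * ((l * u : ℕ) : ZMod N) * ((l * v : ℕ) : ZMod N) =
        ((l * (l * l) : ℕ) : ZMod N) * u * v := by push_cast; ring
      rw [this, hNz]
      ring
    have y0 : ∀ Q ∈ L2, ∀ R ∈ L3, (l : ZMod N) *
        EZ (tri (tabc n1 N T1) (tabc n2 N T2) (tabc n3 N T3))
          ((0 * e1 + (Q.1 * e2 + R.1 * e3) : ℕ) : ZMod (n1 * n2 * n3)) = 0 := by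
      intro Q hQ R hR
      rw [← ew_cast (by omega) hN16 0 Q R]
      have h4 := G.ws.d0 Q hQ R hR
      rw [hf, one_mul] at h4
      obtain ⟨v, hv⟩ := Nat.dvd_of_mod_eq_zero h4
      have hv' : ew n1 n2 n3 e1 e2 e3 N T1 T2 T3 0 Q R = l * l * v := hv
      rw [hv']
      have : (l : ZMod N) * ((l * l * v : ℕ) : ZMod N) =
        ((l * (l * l) : ℕ) : ZMod N) * v := by push_cast; ring
      rw [this, hNz]
      ring
    have z1 : (l : ZMod N) * (((gf n1 T1 (rs n1 D) (rs n1 j.S) : ℕ) : ZMod N) *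
        (L3.map fun r => (L2.map fun Q =>
        (tabc n2 N T2 (fz n2 j.P j.R j.S (Q.1 : ZMod n2) (Q.2 : ZMod n2)) *
        tabc n3 N T3 (fz n3 j.P j.R j.S (r.1 : ZMod n3) (r.2 : ZMod n3))) *
        EZ (tri (tabc n1 N T1) (tabc n2 N T2) (tabc n3 N T3))
          ((1 * e1 + (Q.1 * e2 + r.1 * e3) : ℕ) : ZMod (n1 * n2 * n3))).sum).sum) = 0 := by
      rw [← mul_assoc, ← List.sum_map_mul_left]
      apply lsum_zero
      intro r hr
      rw [← List.sum_map_mul_left]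
      apply lsum_zero
      intro Q hQ
      have := y1 Q hQ r hr
      linear_combination (tabc n2 N T2 (fz n2 j.P j.R j.S (Q.1 : ZMod n2) (Q.2 : ZMod n2)) *
        tabc n3 N T3 (fz n3 j.P j.R j.S (r.1 : ZMod n3) (r.2 : ZMod n3))) * this
    have z0 : (l : ZMod N) * (tabc n1 N T1 (j.S : ZMod n1) *
        (L3.map fun r => (L2.map fun Q =>
        (tabc n2 N T2 (fz n2 j.P j.R j.S (Q.1 : ZMod n2) (Q.2 : ZMod n2)) *
        tabc n3 N T3 (fz n3 j.P j.R j.S (r.1 : ZMod n3) (r.2 : ZMod n3))) *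
        EZ (tri (tabc n1 N T1) (tabc n2 N T2) (tabc n3 N T3))
          ((0 * e1 + (Q.1 * e2 + r.1 * e3) : ℕ) : ZMod (n1 * n2 * n3))).sum).sum) = 0 := by
      rw [← mul_assoc, ← List.sum_map_mul_left]
      apply lsum_zero
      intro r hr
      rw [← List.sum_map_mul_left]
      apply lsum_zero
      intro Q hQ
      have := y0 Q hQ r hr
      linear_combination (tabc n1 N T1 (j.S : ZMod n1) *
        (tabc n2 N T2 (fz n2 j.P j.R j.S (Q.1 : ZMod n2) (Q.2 : ZMod n2)) *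
        tabc n3 N T3 (fz n3 j.P j.R j.S (r.1 : ZMod n3) (r.2 : ZMod n3)))) * this
    exact (congrArg₂ (· + ·) z1 z0).trans (add_zero 0)

/-- the relation -/
def Rel (N : ℕ) {q : ℕ} [NeZero q] (χ : ZMod q → ZMod N) (J : List Fm) : Prop :=
  (J.map fun j => (j.κ : ZMod N) * XX χ j.P j.R j.S + (j.α : ZMod N) * YX χ j.P j.R j.S).sum = 0

/-- **vanishing of the final value** -/
theorem Good.zero (G : Good n1 n2 n3 e1 e2 e3 N l fr T1 T2 T3 L2 L3 w3 w W Y1 Y0)
    {J : List Fm} (hJ : J ≠ []) (hκ : ∀ j ∈ J, j.κ ≤ 6) {D : ℤ}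
    (hD : ∀ j ∈ J, j.R ^ 2 - 4 * j.P * j.S = D)
    (hC : ∀ x ∈ J.map (fkO n1 l), rowC n1 T1 fr l (rs n1 D) x)
    (hrel : Rel N (tri (tabc n1 N T1) (tabc n2 N T2) (tabc n3 N T3)) J)
    {u2 u3 : Fm → ℕ × ℕ → ℕ} {D2 D3 : ℕ}
    (c2 : ∀ j ∈ J, ∀ Q ∈ L2, ((u2 j Q : ℕ) : ZMod N) =
      tabc n2 N T2 (fz n2 j.P j.R j.S (Q.1 : ZMod n2) (Q.2 : ZMod n2)))
    (c3 : ∀ j ∈ J, ∀ Q ∈ L3, ((u3 j Q : ℕ) : ZMod N) =
      tabc n3 N T3 (fz n3 j.P j.R j.S (Q.1 : ZMod n3) (Q.2 : ZMod n3)))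
    (b2 : ∀ j ∈ J, ∀ Q ∈ L2, u2 j Q ≤ D2) (b3 : ∀ j ∈ J, ∀ Q ∈ L3, u3 j Q ≤ D3)
    (hB : J.length * L3.length * (L2.length * (BA n1 N l * D2) * D3) < 2 ^ 80) {sh : ℕ}
    (hsh : sh = 80 * (J.length * L3.length - 1)) :
    ip N sh (rp (2 ^ w3) (fun j => rp (2 ^ 80) (brow n1 n2 n3 e1 e2 e3 N T1 T2 T3 (rs n1 D) L2
      (fkO n1 l j) (u2 j)) L3) J) (packL (2 ^ w3) (fun j => packL (2 ^ 80) (u3 j) L3) J) = 0 := by
  have hN : 2 ≤ N := by have := G.qn.N3; omega
  have hN0 : 0 < N := by omega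
  have hN16 : N ≤ 2 ^ 16 := by have := G.qn.N8; omega
  have h1 := tabCk_char G.t1
  have h2 := tabCk_char G.t2
  have h3 := tabCk_char G.t3
  have hn1 : 0 < n1 := G.hp.pos
  have : NeZero l := ⟨G.l0.ne'⟩
  have hC' : ∀ j ∈ J, rowC n1 T1 fr l (rs n1 D) (fkO n1 l j) := fun j hj =>
    hC _ (List.mem_map_of_mem hj)
  rw [ip_fin (C := L2.length * (BA n1 N l * D2)) (D := D3) hJ G.ne3 ?_ b3 hB G.hw3 hsh]
  · rw [← Nat.dvd_iff_mod_eq_zero, ← ZMod.natCast_eq_zero_iff, cast_lsum]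
    unfold Rel at hrel
    rw [← hrel]
    apply lsum_congr
    intro j hj
    have hd : ((rs n1 D : ℕ) : ZMod n1) = (j.R : ZMod n1) ^ 2 - 4 * j.P * j.S := by
      rw [rs_cast, ← hD j hj]; push_cast; ring
    have key := val_cast (L2 := L2) (L3 := L3) (x := fkO n1 l j) (d := rs n1 D) (j := j) G.idem G.hp
      G.p2 G.p3 hN hN16 h1 h2 h3 (rs_cast j.R) (rs_cast j.S) (rs_lt j.S) hd (hC' j hj).1
      (c2 j hj) (c3 j hj)
    rw [key]
    have hl := G.lYX (hD j hj) (hC' j hj)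
    have e : (j.α : ZMod N) = ((rs l j.α : ℕ) : ZMod N) + (l : ZMod N) * ((j.α / l : ℤ) : ZMod N) := by
      have e1 : (rs l j.α : ℤ) = j.α % l := by
        unfold rs
        rw [ZMod.val_intCast]
      have e2 := Int.emod_add_mul_ediv j.α l
      rw [← e1] at e2
      have e3 := congrArg (fun x : ℤ => (x : ZMod N)) e2
      rw [← e3]
      push_cast
      ring
    change (j.κ : ZMod N) * _ + ((rs l j.α : ℕ) : ZMod N) * _ = _
    rw [e]
    linear_combination (-((j.α / l : ℤ) : ZMod N)) * hl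
  · intro j hj R _
    exact brow_le hN0 hn1 (tabCk_lt G.t1) (hκ j hj) (rs_lt j.α).le (rs_lt j.S) (b2 j hj) R

end Final

end Pool.Agent.Lib_helper5.LK


end

section

/-!
Interface between the kernel checks and the relations.
-/

namespace Pool.Agent.Lib_helper5.LK

open Finset Pool.Agent.LibH4 Pool.Agent.LibH4.Ker Pool.Agent.LibH4.T6 Pool.Agent.LibH4.KF

/-! ### loops -/

/-- conjunction over a list; the reduction passes through a definition at every step -/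
def allQ {α : Type} (p : α → Bool) (L : List α) : Bool :=
  @List.rec α (fun _ => Bool) true (fun x _ ih => andB (p x) ih) L

lemma allQ_spec {α : Type} {p : α → Bool} {L : List α} (h : allQ p L = true) :
    ∀ x ∈ L, p x = true := by
  induction L with
  | nil => simp
  | cons y L ih =>
    have h' : andB (p y) (allQ p L) = true := h
    obtain ⟨h1, h2⟩ := andB_spec h'
    intro x hx
    rcases List.mem_cons.1 hx with rfl | hx
    · exact h1
    · exact ih h2 x hx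

/-- map in continuation passing style -/
def mapC {α β : Type} (f : α → (β → Bool) → Bool) (L : List α) : (List β → Bool) → Bool :=
  @List.rec α (fun _ => (List β → Bool) → Bool) (fun k => k [])
    (fun x _ ih k => f x fun y => ih fun r => k (y :: r)) L

lemma mapC_ex {α β : Type} {f : α → (β → Bool) → Bool} {L : List α} {k : List β → Bool}
    (h' : ∀ x ∈ L, ∀ k', f x k' = true → ∃ y, k' y = true) (h : mapC f L k = true) :
    ∃ r, k r = true := by
  induction L generalizing k with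
  | nil => exact ⟨[], h⟩
  | cons x L ih =>
    have h1 : f x (fun y => mapC f L fun r => k (y :: r)) = true := h
    obtain ⟨y, hy⟩ := h' x (by simp) _ h1
    obtain ⟨r, hr⟩ := ih (fun z hz => h' z (by simp [hz])) hy
    exact ⟨y :: r, hr⟩

lemma mapC_mem {α β : Type} {f : α → (β → Bool) → Bool} {L : List α} {k : List β → Bool}
    {x0 : α} {g0 : β} {C : Prop} (hx : x0 ∈ L) (h0 : ∀ k', f x0 k' = true → k' g0 = true ∧ C)
    (h' : ∀ x ∈ L, ∀ k', f x k' = true → ∃ y, k' y = true) (h : mapC f L k = true) :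
    ∃ r, k r = true ∧ g0 ∈ r ∧ C := by
  induction L generalizing k with
  | nil => exact absurd hx (by simp)
  | cons x L ih =>
    have h1 : f x (fun y => mapC f L fun r => k (y :: r)) = true := h
    rcases List.mem_cons.1 hx with rfl | hx
    · obtain ⟨h2, h3⟩ := h0 _ h1
      obtain ⟨r, hr⟩ := mapC_ex (fun z hz => h' z (by simp [hz])) h2
      exact ⟨g0 :: r, hr, by simp, h3⟩
    · obtain ⟨y, hy⟩ := h' x (by simp) _ h1
      obtain ⟨r, hr, h4, h5⟩ := ih hx (fun z hz => h' z (by simp [hz])) hy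
      exact ⟨y :: r, hr, by simp [h4], h5⟩

/-- membership test -/
def memB (c : ℕ) (L : List ℕ) : Bool :=
  @List.rec ℕ (fun _ => Bool) false (fun x _ ih => @Bool.rec (fun _ => Bool) ih true (Nat.beq x c)) L

lemma memB_spec {c : ℕ} {L : List ℕ} (h : memB c L = true) : c ∈ L := by
  induction L with
  | nil => exact absurd h (by simp [memB])
  | cons x L ih =>
    have h' : @Bool.rec (fun _ => Bool) (memB c L) true (Nat.beq x c) = true := h
    cases hb : Nat.beq x c with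
    | false => rw [hb] at h'; simp [ih h']
    | true => simp [Nat.eq_of_beq_eq_true hb]

lemma cond0_zero {n : ℕ} {a : Bool} (hn : n = 0) (h : cond0 n a = true) : a = true := by
  subst hn; exact h

/-! ### values -/

/-- the row of a list of forms -/
def RA (n1 T1 w W Y1 Y0 l : ℕ) (D : ℤ) (J : List Fm) : ℕ :=
  rp (2 ^ w) (rowX n1 T1 w W Y1 Y0 (rs n1 D)) (J.map (fkO n1 l))

/-- the vector of the middle component -/
def VA (n2 T2 w3 w : ℕ) (L2 : List (ℕ × ℕ)) (J : List Fm) : ℕ :=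
  rp (2 ^ w) (pv n2 T2 (2 ^ w3) L2) (J.map (fkI n2))

/-- the vector of the inner component -/
def VB (n3 T3 w3 : ℕ) (L3 : List (ℕ × ℕ)) (J : List Fm) : ℕ :=
  packL (2 ^ w3) (pv n3 T3 (2 ^ 80) L3) (J.map (fkI n3))

/-- the vector of the inner component, by completing the square -/
def VC (p T w3 : ℕ) (D : ℤ) (J : List Fm) : ℕ :=
  packL (2 ^ w3) (fun x => packL (2 ^ 80) (vf p T (rs p D) x.2.1 x.2.2) (PL p)) (J.map (fkI p))

/-- the conditions of a row -/
def RC (n1 T1 fr l : ℕ) (D : ℤ) (J : List Fm) : Prop :=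
  ∀ x ∈ J.map (fkO n1 l), rowC n1 T1 fr l (rs n1 D) x

lemma rowA_use {p T w : ℕ} (hw : 16 ≤ w) (hp : 0 < p) {ds : List ℕ} {W Y1 Y0 fr l : ℕ} {D : ℤ}
    {J : List Fm} {k : ℕ → Bool}
    (h : rowA p T w (ds.map fun δ => (δ, gg p T w δ, gs p T δ)) W Y1 Y0 fr l (rs p D)
      (J.map (fkO p l)) (nat_lit 0) (fun A => strict A k) = true) :
    k (RA p T w W Y1 Y0 l D J) = true ∧ RC p T fr l D J := by
  obtain ⟨h1, h2⟩ := rowA_spec hw hp h
  rw [strict_eq] at h1
  refine ⟨?_, h2⟩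
  rw [← h1]
  congr 1
  unfold RA
  change _ = 0 * _ + _
  rw [zero_mul, zero_add]

lemma rowA_ex {p T w : ℕ} (hw : 16 ≤ w) (hp : 0 < p) {ds : List ℕ} {W Y1 Y0 fr l d : ℕ}
    {FK : List ((ℕ × ℕ) × (ℕ × ℕ))} {acc : ℕ} {k : ℕ → Bool}
    (h : rowA p T w (ds.map fun δ => (δ, gg p T w δ, gs p T δ)) W Y1 Y0 fr l d FK acc
      (fun A => strict A k) = true) : ∃ y, k y = true := by
  obtain ⟨h1, _⟩ := rowA_spec hw hp h
  rw [strict_eq] at h1
  exact ⟨_, h1⟩

lemma vecA_use {n T w3 w : ℕ} {L : List (ℕ × ℕ)} {J : List Fm} :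
    vecA n T (Nat.pow (nat_lit 2) w3) w L (J.map (fkI n)) (nat_lit 0) = VA n T w3 w L J := by
  rw [vecA_eq]
  unfold VA
  change 0 * _ + _ = _
  rw [zero_mul, zero_add]
  rfl

lemma vecB_use {n T w3 : ℕ} {L : List (ℕ × ℕ)} {J : List Fm} :
    vecB n T (nat_lit 1208925819614629174706176) w3 L (J.map (fkI n)) = VB n T w3 L J := by
  have h80 : (1208925819614629174706176 : ℕ) = 2 ^ 80 := by norm_num
  unfold VB
  rw [vecB_eq]
  change packL (2 ^ w3) (pv n T (1208925819614629174706176 : ℕ) L) (J.map (fkI n)) = _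
  rw [h80]

lemma vecC_use {p T wb : ℕ} (hp : 0 < p) {ds : List ℕ} {D : ℤ} {J : List Fm} {k : ℕ → Bool}
    (h : vecC p T (nat_lit 80) wb (ds.map fun δ => (δ, gg p T (nat_lit 80) δ, gs p T δ)) (rs p D)
      (J.map (fkI p)) (fun v => strict v k) = true) :
    k (VC p T wb D J) = true ∧ ∀ x ∈ J.map (fkI p), 2 * x.2.2 * ii p x.2.2 % p = 1 := by
  obtain ⟨h1, h2⟩ := vecC_spec (by norm_num) hp h
  rw [strict_eq] at h1
  exact ⟨h1, h2⟩

lemma vecC_ex {p T wb : ℕ} (hp : 0 < p) {ds : List ℕ} {d : ℕ} {F : List (ℕ × ℕ × ℕ)}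
    {k : ℕ → Bool}
    (h : vecC p T (nat_lit 80) wb (ds.map fun δ => (δ, gg p T (nat_lit 80) δ, gs p T δ)) d F
      (fun v => strict v k) = true) : ∃ y, k y = true := by
  obtain ⟨h1, _⟩ := vecC_spec (by norm_num) hp h
  rw [strict_eq] at h1
  exact ⟨_, h1⟩

/-! ### digits -/

lemma pv_cast {n N T : ℕ} [NeZero n] (j : Fm) (Q : ℕ × ℕ) :
    ((chw T (nf n (rs n j.P) (rs n j.R) (rs n j.S) Q.1 Q.2) : ℕ) : ZMod N) =
      tabc n N T (fz n j.P j.R j.S (Q.1 : ZMod n) (Q.2 : ZMod n)) := by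
  have e0 : nf n (rs n j.P) (rs n j.R) (rs n j.S) Q.1 Q.2 =
      (Q.1 * (rs n j.P * Q.1 + rs n j.R * Q.2) + rs n j.S * (Q.2 * Q.2)) % n := rfl
  have e : fz n j.P j.R j.S (Q.1 : ZMod n) (Q.2 : ZMod n) =
      ((Q.1 * (rs n j.P * Q.1 + rs n j.R * Q.2) + rs n j.S * (Q.2 * Q.2) : ℕ) : ZMod n) := by
    unfold fz
    push_cast
    rw [rs_cast, rs_cast, rs_cast]
    ring
  rw [e, tabc_natCast, e0]

lemma pv_le {n N T : ℕ} [NeZero n] (ht : ∀ u < n, chw T u < N) (P R S : ℕ) (Q : ℕ × ℕ) :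
    chw T (nf n P R S Q.1 Q.2) ≤ N :=
  (ht _ (Nat.mod_lt _ (Nat.pos_of_ne_zero (NeZero.ne n)))).le

/-- oddness and the condition on the sum -/
def relOk (n1 n2 n3 N T1 T2 T3 : ℕ) : Bool :=
  strict (Nat.mul (Nat.mul n1 n2) n3) fun q =>
  andB (Nat.beq (chi3 n1 n2 n3 N T1 T2 T3 (Nat.sub q (nat_lit 1))) (Nat.sub N (nat_lit 1)))
    (Nat.beq (Nat.mod (Nat.mul (sumR (fun u => Nat.mul u (chi3 n1 n2 n3 N T1 T2 T3 u)) q) q) N)
      (nat_lit 0))

section Final

variable {n1 n2 n3 e1 e2 e3 N l fr T1 T2 T3 : ℕ} {L2 L3 : List (ℕ × ℕ)} {w3 w W Y1 Y0 : ℕ}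
  [NeZero n1] [NeZero n2] [NeZero n3] [NeZero (n1 * n2)] [NeZero (n1 * n2 * n3)]

/-- conditions on a list of forms -/
structure JOk (D : ℤ) (J : List Fm) : Prop where
  ne : J ≠ []
  hκ : ∀ j ∈ J, j.κ ≤ 6
  hD : ∀ j ∈ J, j.R ^ 2 - 4 * j.P * j.S = D

lemma hb_of {K len3 x : ℕ} (h : K * len3 * x < 2 ^ 80) (hK : 0 < K) (hl : 0 < len3) :
    x < 2 ^ 80 := by
  refine lt_of_le_of_lt ?_ h
  exact Nat.le_mul_of_pos_left x (Nat.mul_pos hK hl)

/-- three components -/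
theorem Good.three (G : Good n1 n2 n3 e1 e2 e3 N l fr T1 T2 T3 L2 L3 w3 w W Y1 Y0)
    {J : List Fm} {D : ℤ} (HJ : JOk D J) (hC : RC n1 T1 fr l D J)
    (hrel : Rel N (tri (tabc n1 N T1) (tabc n2 N T2) (tabc n3 N T3)) J)
    {u3 : Fm → ℕ × ℕ → ℕ} {D3 : ℕ} (hD3 : 0 < D3)
    (c3 : ∀ j ∈ J, ∀ Q ∈ L3, ((u3 j Q : ℕ) : ZMod N) =
      tabc n3 N T3 (fz n3 j.P j.R j.S (Q.1 : ZMod n3) (Q.2 : ZMod n3)))
    (b3 : ∀ j ∈ J, ∀ Q ∈ L3, u3 j Q ≤ D3) {K : ℕ} (hK : K = J.length)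
    (hB : K * L3.length * (L2.length * (BA n1 N l * N) * D3) < 2 ^ 80) {sh sh2 : ℕ}
    (hsh : sh = 80 * (K * L3.length - 1)) (hsh2 : sh2 = w3 * (L2.length - 1)) :
    ip N sh (red w w3 sh2 K (RA n1 T1 w W Y1 Y0 l D J) (VA n2 T2 w3 w L2 J))
      (packL (2 ^ w3) (fun j => packL (2 ^ 80) (u3 j) L3) J) = 0 := by
  subst hK
  have hN : 2 ≤ N := by have := G.qn.N3; omega
  have hN0 : 0 < N := by omega
  have hn1 : 0 < n1 := G.hp.pos
  have ht1 := tabCk_lt G.t1
  have hl2 := List.length_pos_of_ne_nil G.ne2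
  have hJl := List.length_pos_of_ne_nil HJ.ne
  have hl3 := List.length_pos_of_ne_nil G.ne3
  have : NeZero l := ⟨G.l0.ne'⟩
  have hb1 : L2.length * (BA n1 N l * N) < 2 ^ 80 := by
    refine lt_of_le_of_lt ?_ (hb_of hB hJl hl3)
    exact Nat.le_mul_of_pos_right _ hD3
  have hb0 : (n1 + 1) * (N * (N * N)) < 2 ^ 80 := by
    refine lt_of_le_of_lt ?_ hb1
    have : (n1 + 1) * (N * (N * N)) ≤ BA n1 N l := Nat.le_mul_of_pos_left _ (by omega)
    calc (n1 + 1) * (N * (N * N)) ≤ BA n1 N l := this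
      _ ≤ BA n1 N l * N := Nat.le_mul_of_pos_right _ hN0
      _ ≤ _ := Nat.le_mul_of_pos_left _ hl2
  have eR : RA n1 T1 w W Y1 Y0 l D J = rp (2 ^ w) (fun j => rp (2 ^ 80)
      (arow n1 n2 n3 e1 e2 e3 N T1 T2 T3 (rs n1 D) (fkO n1 l j)) (L2 ×ˢ L3)) J := by
    unfold RA
    rw [rp_map]
    apply rp_congr
    intro j _
    exact rowX_eq G.ws G.hw3 G.hw hN0 hn1 ht1 hb0 (rs_lt j.S)
  have eV : VA n2 T2 w3 w L2 J = rp (2 ^ w) (fun j => packL (2 ^ w3) (fun Q =>
      chw T2 (nf n2 (rs n2 j.P) (rs n2 j.R) (rs n2 j.S) Q.1 Q.2)) L2) J := by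
    unfold VA
    rw [rp_map]
    rfl
  rw [eR, eV, red_row (L2 := L2) (L3 := L3) (n1 := n1) (n2 := n2) (n3 := n3) (e1 := e1) (e2 := e2)
    (e3 := e3) (N := N) (l := l) (T1 := T1) (T2 := T2) (T3 := T3) G.hw3 G.hw hN0 hn1 ht1 G.ne2 G.ne3
    (x := fkO n1 l) HJ.hκ (fun j _ => (rs_lt j.α).le) (fun j _ => rs_lt j.S)
    (fun j _ Q _ => pv_le (tabCk_lt G.t2) _ _ _ Q) hN0 hb1 hsh2]
  exact G.zero HJ.ne HJ.hκ HJ.hD hC hrel (fun j _ Q _ => pv_cast j Q) c3
    (fun j _ Q _ => pv_le (tabCk_lt G.t2) _ _ _ Q) b3 hB hsh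

/-- two components -/
theorem Good.two (G : Good n1 1 n3 e1 e2 e3 N l fr T1 T2 T3 PO L3 w3 w W Y1 Y0)
    [NeZero (n1 * 1)] [NeZero (n1 * 1 * n3)]
    {J : List Fm} {D : ℤ} (HJ : JOk D J) (hC : RC n1 T1 fr l D J) (hT2 : chw T2 0 = 1)
    (hrel : Rel N (tri (tabc n1 N T1) (tabc 1 N T2) (tabc n3 N T3)) J)
    {u3 : Fm → ℕ × ℕ → ℕ} {D3 : ℕ} (hD3 : 0 < D3)
    (c3 : ∀ j ∈ J, ∀ Q ∈ L3, ((u3 j Q : ℕ) : ZMod N) =
      tabc n3 N T3 (fz n3 j.P j.R j.S (Q.1 : ZMod n3) (Q.2 : ZMod n3)))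
    (b3 : ∀ j ∈ J, ∀ Q ∈ L3, u3 j Q ≤ D3) {K : ℕ} (hK : K = J.length)
    (hB : K * L3.length * (1 * (BA n1 N l * 1) * D3) < 2 ^ 80) {sh : ℕ}
    (hsh : sh = 80 * (K * L3.length - 1)) :
    ip N sh (RA n1 T1 w W Y1 Y0 l D J)
      (packL (2 ^ w3) (fun j => packL (2 ^ 80) (u3 j) L3) J) = 0 := by
  subst hK
  have hN : 2 ≤ N := by have := G.qn.N3; omega
  have hN0 : 0 < N := by omega
  have hn1 : 0 < n1 := G.hp.pos
  have ht1 := tabCk_lt G.t1
  have hJl := List.length_pos_of_ne_nil HJ.ne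
  have hl3 := List.length_pos_of_ne_nil G.ne3
  have : NeZero l := ⟨G.l0.ne'⟩
  have hb1 : BA n1 N l < 2 ^ 80 := by
    refine lt_of_le_of_lt ?_ (hb_of hB hJl hl3)
    rw [one_mul, mul_one]
    exact Nat.le_mul_of_pos_right _ hD3
  have hb0 : (n1 + 1) * (N * (N * N)) < 2 ^ 80 := by
    refine lt_of_le_of_lt ?_ hb1
    exact Nat.le_mul_of_pos_left _ (by omega)
  have hw' : w = w3 := by have := G.hw; rw [this]; simp [PO]
  have eR : RA n1 T1 w W Y1 Y0 l D J = rp (2 ^ w3) (fun j => rp (2 ^ 80)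
      (brow n1 1 n3 e1 e2 e3 N T1 T2 T3 (rs n1 D) PO (fkO n1 l j) (fun _ => 1)) L3) J := by
    unfold RA
    rw [rp_map, hw']
    apply rp_congr
    intro j _
    have e := rowX_eq (x := fkO n1 l j) (d := rs n1 D) G.ws G.hw3 G.hw hN0 hn1 ht1 hb0 (rs_lt j.S)
    rw [hw'] at e
    rw [e]
    have e2 : PO ×ˢ L3 = L3.map (Prod.mk (0, 0)) := by
      unfold PO
      rw [List.product_cons, List.nil_product, List.append_nil]
    rw [e2, rp_map]
    apply rp_congr
    intro R _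
    unfold brow PO
    simp
  rw [eR]
  refine G.zero (D2 := 1) HJ.ne HJ.hκ HJ.hD hC hrel ?_ c3 (fun _ _ _ _ => le_rfl) b3 ?_ hsh
  · intro j _ Q _
    have e : (fz 1 j.P j.R j.S (Q.1 : ZMod 1) (Q.2 : ZMod 1)) = ((0 : ℕ) : ZMod 1) :=
      Subsingleton.elim _ _
    rw [e, tabc_natCast, Nat.zero_mod, hT2]
  · simpa [PO] using hB

/-- the digits of `VB` -/
lemma VB_eq (n T w3 : ℕ) (L : List (ℕ × ℕ)) (J : List Fm) : VB n T w3 L J =
    packL (2 ^ w3) (fun j => packL (2 ^ 80) (fun Q =>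
      chw T (nf n (rs n j.P) (rs n j.R) (rs n j.S) Q.1 Q.2)) L) J := by
  unfold VB
  rw [packL_map]
  rfl

/-- the digits of `VC` -/
lemma VC_eq (p T w3 : ℕ) (D : ℤ) (J : List Fm) : VC p T w3 D J =
    packL (2 ^ w3) (fun j => packL (2 ^ 80) (vf p T (rs p D) (rs p j.R) (rs p j.S)) (PL p)) J := by
  unfold VC
  rw [packL_map]
  rfl

/-- two components, direct vectors -/
theorem Good.twoB (G : Good n1 1 n3 e1 e2 e3 N l fr T1 T2 T3 PO L3 w3 w W Y1 Y0)
    [NeZero (n1 * 1)] [NeZero (n1 * 1 * n3)]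
    {J : List Fm} {D : ℤ} (HJ : JOk D J) (hC : RC n1 T1 fr l D J) (hT2 : chw T2 0 = 1)
    (hrel : Rel N (tri (tabc n1 N T1) (tabc 1 N T2) (tabc n3 N T3)) J)
    {K : ℕ} (hK : K = J.length)
    (hB : K * L3.length * (1 * (BA n1 N l * 1) * N) < 2 ^ 80) {sh : ℕ}
    (hsh : sh = 80 * (K * L3.length - 1)) :
    ip N sh (RA n1 T1 w W Y1 Y0 l D J) (VB n3 T3 w3 L3 J) = 0 := by
  have hN0 : 0 < N := by have := G.qn.N3; omega
  rw [VB_eq]
  exact G.two HJ hC hT2 hrel hN0 (fun j _ Q _ => pv_cast j Q)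
    (fun j _ Q _ => pv_le (tabCk_lt G.t3) _ _ _ Q) hK hB hsh

/-- three components, direct vectors -/
theorem Good.threeB (G : Good n1 n2 n3 e1 e2 e3 N l fr T1 T2 T3 L2 L3 w3 w W Y1 Y0)
    {J : List Fm} {D : ℤ} (HJ : JOk D J) (hC : RC n1 T1 fr l D J)
    (hrel : Rel N (tri (tabc n1 N T1) (tabc n2 N T2) (tabc n3 N T3)) J)
    {K : ℕ} (hK : K = J.length)
    (hB : K * L3.length * (L2.length * (BA n1 N l * N) * N) < 2 ^ 80) {sh sh2 : ℕ}
    (hsh : sh = 80 * (K * L3.length - 1)) (hsh2 : sh2 = w3 * (L2.length - 1)) :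
    ip N sh (red w w3 sh2 K (RA n1 T1 w W Y1 Y0 l D J) (VA n2 T2 w3 w L2 J)) (VB n3 T3 w3 L3 J)
      = 0 := by
  have hN0 : 0 < N := by have := G.qn.N3; omega
  rw [VB_eq]
  exact G.three HJ hC hrel hN0 (fun j _ Q _ => pv_cast j Q)
    (fun j _ Q _ => pv_le (tabCk_lt G.t3) _ _ _ Q) hK hB hsh hsh2

lemma vf_ok {p N T : ℕ} [NeZero p] (ht : tabCk p N T = true) (hN : 0 < N) {D : ℤ} {J : List Fm}
    (HJ : JOk D J) (hi : ∀ x ∈ J.map (fkI p), 2 * x.2.2 * ii p x.2.2 % p = 1) :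
    (∀ j ∈ J, ∀ Q ∈ PL p, ((vf p T (rs p D) (rs p j.R) (rs p j.S) Q : ℕ) : ZMod N) =
      tabc p N T (fz p j.P j.R j.S (Q.1 : ZMod p) (Q.2 : ZMod p))) ∧
    (∀ j ∈ J, ∀ Q ∈ PL p, vf p T (rs p D) (rs p j.R) (rs p j.S) Q ≤ N * N) := by
  refine ⟨?_, ?_⟩
  · intro j hj Q hQ
    have hd : ((rs p D : ℕ) : ZMod p) = (j.R : ZMod p) ^ 2 - 4 * j.P * j.S := by
      rw [rs_cast, ← HJ.hD j hj]; push_cast; ring
    exact vf_cast (tabCk_char ht) (rs_cast j.R) (rs_cast j.S) (rs_lt j.S) hd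
      (hi _ (List.mem_map_of_mem hj)) hQ
  · intro j _ Q _
    exact vf_le (Nat.pos_of_ne_zero (NeZero.ne p)) hN (tabCk_lt ht) (rs_lt j.S) Q

/-- two components, vectors by completing the square -/
theorem Good.twoC (G : Good n1 1 n3 e1 e2 e3 N l fr T1 T2 T3 PO (PL n3) w3 w W Y1 Y0)
    [NeZero (n1 * 1)] [NeZero (n1 * 1 * n3)]
    {J : List Fm} {D : ℤ} (HJ : JOk D J) (hC : RC n1 T1 fr l D J) (hT2 : chw T2 0 = 1)
    (hrel : Rel N (tri (tabc n1 N T1) (tabc 1 N T2) (tabc n3 N T3)) J)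
    (hi : ∀ x ∈ J.map (fkI n3), 2 * x.2.2 * ii n3 x.2.2 % n3 = 1)
    {K : ℕ} (hK : K = J.length)
    (hB : K * (n3 + 1) * (1 * (BA n1 N l * 1) * (N * N)) < 2 ^ 80) {sh : ℕ}
    (hsh : sh = 80 * (K * (n3 + 1) - 1)) :
    ip N sh (RA n1 T1 w W Y1 Y0 l D J) (VC n3 T3 w3 D J) = 0 := by
  have hN0 : 0 < N := by have := G.qn.N3; omega
  obtain ⟨h1, h2⟩ := vf_ok G.t3 hN0 HJ hi
  rw [VC_eq]
  exact G.two HJ hC hT2 hrel (Nat.mul_pos hN0 hN0) h1 h2 hK (by rw [PL_length]; exact hB)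
    (by rw [PL_length]; exact hsh)

/-- three components, vectors by completing the square -/
theorem Good.threeC (G : Good n1 n2 n3 e1 e2 e3 N l fr T1 T2 T3 L2 (PL n3) w3 w W Y1 Y0)
    {J : List Fm} {D : ℤ} (HJ : JOk D J) (hC : RC n1 T1 fr l D J)
    (hrel : Rel N (tri (tabc n1 N T1) (tabc n2 N T2) (tabc n3 N T3)) J)
    (hi : ∀ x ∈ J.map (fkI n3), 2 * x.2.2 * ii n3 x.2.2 % n3 = 1)
    {K : ℕ} (hK : K = J.length)
    (hB : K * (n3 + 1) * (L2.length * (BA n1 N l * N) * (N * N)) < 2 ^ 80) {sh sh2 : ℕ}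
    (hsh : sh = 80 * (K * (n3 + 1) - 1)) (hsh2 : sh2 = w3 * (L2.length - 1)) :
    ip N sh (red w w3 sh2 K (RA n1 T1 w W Y1 Y0 l D J) (VA n2 T2 w3 w L2 J)) (VC n3 T3 w3 D J)
      = 0 := by
  have hN0 : 0 < N := by have := G.qn.N3; omega
  obtain ⟨h1, h2⟩ := vf_ok G.t3 hN0 HJ hi
  rw [VC_eq]
  exact G.three HJ hC hrel (Nat.mul_pos hN0 hN0) h1 h2 hK (by rw [PL_length]; exact hB)
    (by rw [PL_length]; exact hsh) hsh2

end Final

end Pool.Agent.Lib_helper5.LK


end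

section

/-!
The family of period five: polynomials, classes and forms.
-/

namespace Pool.Agent.Lib_helper5.K5

open Finset LK Pool.Agent.LibH4 Pool.Agent.LibH4.Ker Pool.Agent.LibH4.T6 Pool.Agent.LibH4.KF

/-! ### polynomials -/

/-- continuant -/
def k2 (b : ℤ) : ℤ := b * b + 1
/-- continuant -/
def k3 (a b : ℤ) : ℤ := a * k2 b + b
/-- continuant -/
def k4 (a b : ℤ) : ℤ := a * k3 a b + (a * b + 1)
/-- `B` -/
def zB (a b t : ℤ) : ℤ := k4 a b * t + k2 b * k3 a b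
/-- `m` -/
def zm (a b t : ℤ) : ℤ := k3 a b * t + k2 b * k2 b
/-- `m'` -/
def zm1 (a b t : ℤ) : ℤ := 1 + zB a b t * a - zm a b t * (a * a)
/-- the second middle coefficient -/
def zR2 (a b t : ℤ) : ℤ := 2 * (a * zm a b t) - zB a b t
/-- the third middle coefficient -/
def zR3 (a b t : ℤ) : ℤ := 2 * (b * zm1 a b t) - zR2 a b t
/-- the discriminant -/
def zd (a b t : ℤ) : ℤ := zB a b t * zB a b t + 4 * zm a b t

lemma ident2 (a b t : ℤ) : zm1 a b t * (1 + b ^ 2) = zm a b t + zR2 a b t * b := by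
  unfold zR2 zm1 zB zm k4 k3 k2
  ring

/-- the forms -/
def J5 (a b t : ℤ) : List Fm :=
  [⟨zm a b t, zB a b t, -1, 0, -zB a b t⟩,
   ⟨1, zB a b t, -zm a b t, 6, -(2 * a)⟩,
   ⟨zm a b t, zR2 a b t, -zm1 a b t, 6, -(2 * b)⟩,
   ⟨zm1 a b t, zR3 a b t, -zm1 a b t, 3, 0⟩]

lemma J5_ok (a b t : ℤ) : JOk (zd a b t) (J5 a b t) where
  ne := by simp [J5]
  hκ := by
    intro j hj
    simp only [J5, List.mem_cons, List.not_mem_nil, or_false] at hj
    rcases hj with rfl | rfl | rfl | rfl <;> simp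
  hD := by
    have h2 := ident2 a b t
    intro j hj
    simp only [J5, List.mem_cons, List.not_mem_nil, or_false] at hj
    rcases hj with rfl | rfl | rfl | rfl
    · simp only [zd]; ring
    · simp only [zd]; ring
    · simp only [zd]; unfold zR2 zm1; ring
    · simp only [zd, zR3]
      have e : zR2 a b t ^ 2 + 4 * zm a b t * zm1 a b t = zB a b t * zB a b t + 4 * zm a b t := by
        unfold zR2 zm1; ring
      linear_combination e + 4 * zm1 a b t * h2

/-! ### kernel functions -/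

/-- the data of a class -/
def withP5 {β : Type} (p a b t : ℕ) (k : ℕ → ℕ → ℕ → ℕ → ℕ → ℕ → ℕ → ℕ → β) : β :=
  strict (Nat.mod (Nat.add (Nat.mul b b) (nat_lit 1)) p) fun K2 =>
  strict (Nat.mod (Nat.add (Nat.mul a K2) b) p) fun K3 =>
  strict (Nat.mod (Nat.add (Nat.mul a K3) (Nat.add (Nat.mul a b) (nat_lit 1))) p) fun K4 =>
  strict (Nat.mod (Nat.add (Nat.mul K4 t) (Nat.mul K2 K3)) p) fun B =>
  strict (Nat.mod (Nat.add (Nat.mul K3 t) (Nat.mul K2 K2)) p) fun m =>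
  strict (Nat.mod (Nat.add (Nat.add (nat_lit 1) (Nat.mul B a))
    (Nat.mul (Nat.sub p (nat_lit 1)) (Nat.mul m (Nat.mul a a)))) p) fun m1 =>
  strict (Nat.mod (Nat.add (Nat.mul (nat_lit 2) (Nat.mul a m))
    (Nat.mul (Nat.sub p (nat_lit 1)) B)) p) fun R2 =>
  strict (Nat.mod (Nat.add (Nat.mul (nat_lit 2) (Nat.mul b m1))
    (Nat.mul (Nat.sub p (nat_lit 1)) R2)) p) fun R3 =>
  strict (Nat.mod (Nat.mul (Nat.sub p (nat_lit 1)) m) p) fun nm =>
  strict (Nat.mod (Nat.mul (Nat.sub p (nat_lit 1)) m1) p) fun nm1 =>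
  strict (Nat.mod (Nat.add (Nat.mul B B) (Nat.mul (nat_lit 4) m)) p) fun d =>
  k B m m1 nm nm1 R2 R3 d

/-- forms of the inner components -/
def forms5 (p : ℕ) (B m m1 nm nm1 R2 R3 : ℕ) : List (ℕ × ℕ × ℕ) :=
  [(m, B, Nat.sub p (nat_lit 1)), (nat_lit 1, B, nm), (m, R2, nm1), (m1, R3, nm1)]

/-- forms of the outer component, with coefficients modulo `l`: `a, b, B` modulo `l` are given -/
def FK5 (p l a b Bl B nm nm1 R2 R3 : ℕ) : List ((ℕ × ℕ) × (ℕ × ℕ)) :=
  [((B, Nat.sub p (nat_lit 1)), (nat_lit 0, Nat.mod (Nat.mul (Nat.sub l (nat_lit 1)) Bl) l)),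
   ((B, nm), (nat_lit 6, Nat.mod (Nat.mul (Nat.sub l (nat_lit 1)) (Nat.mul (nat_lit 2) a)) l)),
   ((R2, nm1), (nat_lit 6, Nat.mod (Nat.mul (Nat.sub l (nat_lit 1)) (Nat.mul (nat_lit 2) b)) l)),
   ((R3, nm1), (nat_lit 3, nat_lit 0))]

lemma rs_eq {p : ℕ} [NeZero p] {n : ℕ} {x : ℤ} (hn : n < p) (h : (n : ZMod p) = (x : ZMod p)) :
    n = rs p x := by
  rw [← rs_of h, Nat.mod_eq_of_lt hn]

lemma cast_pred {p : ℕ} [NeZero p] : ((p - 1 : ℕ) : ZMod p) = -1 := by
  rw [Nat.cast_sub (Nat.pos_of_ne_zero (NeZero.ne p))]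
  simp

lemma rs_neg_one {p : ℕ} [NeZero p] : p - 1 = rs p (-1) := by
  apply rs_eq
  · have := Nat.pos_of_ne_zero (NeZero.ne p); omega
  · rw [cast_pred]; push_cast; ring

lemma rs_one {p : ℕ} [NeZero p] (hp : 1 < p) : 1 = rs p 1 := by
  apply rs_eq hp
  push_cast; ring

lemma rs_zero {p : ℕ} [NeZero p] : 0 = rs p 0 := by
  apply rs_eq (Nat.pos_of_ne_zero (NeZero.ne p))
  push_cast; ring

lemma withP5_eq {β : Type} {p : ℕ} [NeZero p] (a b t : ℤ)
    (k : ℕ → ℕ → ℕ → ℕ → ℕ → ℕ → ℕ → ℕ → β) :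
    withP5 p (rs p a) (rs p b) (rs p t) k = k (rs p (zB a b t)) (rs p (zm a b t))
      (rs p (zm1 a b t)) (rs p (-zm a b t)) (rs p (-zm1 a b t)) (rs p (zR2 a b t))
      (rs p (zR3 a b t)) (rs p (zd a b t)) := by
  have e2 : Nat.mod (Nat.add (Nat.mul (rs p b) (rs p b)) (nat_lit 1)) p = rs p (k2 b) := by
    change (rs p b * rs p b + 1) % p = _
    apply rs_of; push_cast; simp only [rs_cast]; unfold k2; push_cast; ring
  have e3 : Nat.mod (Nat.add (Nat.mul (rs p a) (rs p (k2 b))) (rs p b)) p = rs p (k3 a b) := by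
    change (rs p a * rs p (k2 b) + rs p b) % p = _
    apply rs_of; push_cast; simp only [rs_cast]; unfold k3; push_cast; ring
  have e4 : Nat.mod (Nat.add (Nat.mul (rs p a) (rs p (k3 a b)))
      (Nat.add (Nat.mul (rs p a) (rs p b)) (nat_lit 1))) p = rs p (k4 a b) := by
    change (rs p a * rs p (k3 a b) + (rs p a * rs p b + 1)) % p = _
    apply rs_of; push_cast; simp only [rs_cast]; unfold k4; push_cast; ring
  have eB : Nat.mod (Nat.add (Nat.mul (rs p (k4 a b)) (rs p t))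
      (Nat.mul (rs p (k2 b)) (rs p (k3 a b)))) p = rs p (zB a b t) := by
    change (rs p (k4 a b) * rs p t + rs p (k2 b) * rs p (k3 a b)) % p = _
    apply rs_of; push_cast; simp only [rs_cast]; unfold zB; push_cast; ring
  have em : Nat.mod (Nat.add (Nat.mul (rs p (k3 a b)) (rs p t))
      (Nat.mul (rs p (k2 b)) (rs p (k2 b)))) p = rs p (zm a b t) := by
    change (rs p (k3 a b) * rs p t + rs p (k2 b) * rs p (k2 b)) % p = _
    apply rs_of; push_cast; simp only [rs_cast]; unfold zm; push_cast; ring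
  have em1 : Nat.mod (Nat.add (Nat.add (nat_lit 1) (Nat.mul (rs p (zB a b t)) (rs p a)))
      (Nat.mul (Nat.sub p (nat_lit 1)) (Nat.mul (rs p (zm a b t)) (Nat.mul (rs p a) (rs p a))))) p =
      rs p (zm1 a b t) := by
    change (1 + rs p (zB a b t) * rs p a + (p - 1) * (rs p (zm a b t) * (rs p a * rs p a))) % p = _
    apply rs_of; push_cast; simp only [rs_cast, cast_pred]; unfold zm1; push_cast; ring
  have eR2 : Nat.mod (Nat.add (Nat.mul (nat_lit 2) (Nat.mul (rs p a) (rs p (zm a b t))))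
      (Nat.mul (Nat.sub p (nat_lit 1)) (rs p (zB a b t)))) p = rs p (zR2 a b t) := by
    change (2 * (rs p a * rs p (zm a b t)) + (p - 1) * rs p (zB a b t)) % p = _
    apply rs_of; push_cast; simp only [rs_cast, cast_pred]; unfold zR2; push_cast; ring
  have eR3 : Nat.mod (Nat.add (Nat.mul (nat_lit 2) (Nat.mul (rs p b) (rs p (zm1 a b t))))
      (Nat.mul (Nat.sub p (nat_lit 1)) (rs p (zR2 a b t)))) p = rs p (zR3 a b t) := by
    change (2 * (rs p b * rs p (zm1 a b t)) + (p - 1) * rs p (zR2 a b t)) % p = _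
    apply rs_of; push_cast; simp only [rs_cast, cast_pred]; unfold zR3; push_cast; ring
  have enm : Nat.mod (Nat.mul (Nat.sub p (nat_lit 1)) (rs p (zm a b t))) p =
      rs p (-zm a b t) := by
    change ((p - 1) * rs p (zm a b t)) % p = _
    apply rs_of; push_cast; simp only [rs_cast, cast_pred]; push_cast; ring
  have enm1 : Nat.mod (Nat.mul (Nat.sub p (nat_lit 1)) (rs p (zm1 a b t))) p =
      rs p (-zm1 a b t) := by
    change ((p - 1) * rs p (zm1 a b t)) % p = _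
    apply rs_of; push_cast; simp only [rs_cast, cast_pred]; push_cast; ring
  have ed : Nat.mod (Nat.add (Nat.mul (rs p (zB a b t)) (rs p (zB a b t)))
      (Nat.mul (nat_lit 4) (rs p (zm a b t)))) p = rs p (zd a b t) := by
    change (rs p (zB a b t) * rs p (zB a b t) + 4 * rs p (zm a b t)) % p = _
    apply rs_of; push_cast; simp only [rs_cast]; unfold zd; push_cast; ring
  unfold withP5
  simp only [strict_eq]
  rw [e2, e3, e4, eB, em, em1, eR2, eR3, enm, enm1, ed]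

lemma withP5_ex {p a b t : ℕ} {k : ℕ → ℕ → ℕ → ℕ → ℕ → ℕ → ℕ → ℕ → Bool}
    (h : withP5 p a b t k = true) : ∃ B m m1 nm nm1 R2 R3 d, k B m m1 nm nm1 R2 R3 d = true := by
  unfold withP5 at h
  simp only [strict_eq] at h
  exact ⟨_, _, _, _, _, _, _, _, h⟩

lemma forms5_eq {p : ℕ} [NeZero p] (hp : 1 < p) (a b t : ℤ) :
    forms5 p (rs p (zB a b t)) (rs p (zm a b t)) (rs p (zm1 a b t)) (rs p (-zm a b t))
      (rs p (-zm1 a b t)) (rs p (zR2 a b t)) (rs p (zR3 a b t)) = (J5 a b t).map (fkI p) := by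
  have h1 : Nat.sub p (nat_lit 1) = rs p (-1) := rs_neg_one
  have h2 : (nat_lit 1) = rs p 1 := rs_one hp
  unfold forms5 J5 fkI
  rw [h1]
  simp only [List.map_cons, List.map_nil]
  rw [← h2]

lemma FK5_eq {p l : ℕ} [NeZero p] [NeZero l] (a b t : ℤ) :
    FK5 p l (rs l a) (rs l b) (rs l (zB a b t)) (rs p (zB a b t)) (rs p (-zm a b t))
      (rs p (-zm1 a b t)) (rs p (zR2 a b t)) (rs p (zR3 a b t)) = (J5 a b t).map (fkO p l) := by
  have h1 : Nat.sub p (nat_lit 1) = rs p (-1) := rs_neg_one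
  have h2 : Nat.mod (Nat.mul (Nat.sub l (nat_lit 1)) (rs l (zB a b t))) l = rs l (-zB a b t) := by
    change ((l - 1) * rs l (zB a b t)) % l = _
    apply rs_of; push_cast; simp only [rs_cast, cast_pred]; push_cast; ring
  have h3 : Nat.mod (Nat.mul (Nat.sub l (nat_lit 1)) (Nat.mul (nat_lit 2) (rs l a))) l =
      rs l (-(2 * a)) := by
    change ((l - 1) * (2 * rs l a)) % l = _
    apply rs_of; push_cast; simp only [rs_cast, cast_pred]; push_cast; ring
  have h4 : Nat.mod (Nat.mul (Nat.sub l (nat_lit 1)) (Nat.mul (nat_lit 2) (rs l b))) l =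
      rs l (-(2 * b)) := by
    change ((l - 1) * (2 * rs l b)) % l = _
    apply rs_of; push_cast; simp only [rs_cast, cast_pred]; push_cast; ring
  have h5 : (nat_lit 0) = rs l 0 := rs_zero
  unfold FK5 J5 fkO
  rw [h1, h2, h3, h4]
  simp only [List.map_cons, List.map_nil]
  rw [← h5]

end Pool.Agent.Lib_helper5.K5


end

section

/-!
The family of period four: polynomials, classes and forms.
-/

namespace Pool.Agent.Lib_helper5.K4

open Finset LK Pool.Agent.LibH4 Pool.Agent.LibH4.Ker Pool.Agent.LibH4.T6 Pool.Agent.LibH4.KF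

/-! ### polynomials -/

/-- `m` -/
def zm (a b t : ℤ) : ℤ := t * (1 + a * b) - b * b
/-- `r` -/
def zr (a b t : ℤ) : ℤ := 1 - a * b + (a * a) * t
/-- `B` -/
def zB (a b t : ℤ) : ℤ := (a * t) * (2 + a * b) - b * (1 + a * b)
/-- the second middle coefficient -/
def zR (a b t : ℤ) : ℤ := 2 * (a * zm a b t) - zB a b t
/-- the discriminant -/
def zd (a b t : ℤ) : ℤ := zB a b t * zB a b t + 4 * zm a b t

lemma zR_eq (a b t : ℤ) : zR a b t = b * zr a b t := by
  unfold zR zB zm zr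
  ring

/-- the forms -/
def J4 (a b t : ℤ) : List Fm :=
  [⟨zm a b t, zB a b t, -1, 0, -zB a b t⟩,
   ⟨1, zB a b t, -zm a b t, 6, -(2 * a)⟩,
   ⟨zm a b t, zR a b t, -zr a b t, 6, -b⟩]

lemma J4_ok (a b t : ℤ) : JOk (zd a b t) (J4 a b t) where
  ne := by simp [J4]
  hκ := by
    intro j hj
    simp only [J4, List.mem_cons, List.not_mem_nil, or_false] at hj
    rcases hj with rfl | rfl | rfl <;> simp
  hD := by
    intro j hj
    simp only [J4, List.mem_cons, List.not_mem_nil, or_false] at hj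
    rcases hj with rfl | rfl | rfl
    · simp only [zd]; ring
    · simp only [zd]; ring
    · simp only [zd]; unfold zR zr zB zm; ring

/-! ### kernel functions -/

/-- the data of a class -/
def withP4 {β : Type} (p a b t : ℕ) (k : ℕ → ℕ → ℕ → ℕ → ℕ → ℕ → β) : β :=
  strict (Nat.mod (Nat.mul a b) p) fun ab =>
  strict (Nat.mod (Nat.add (Nat.mul t (Nat.add (nat_lit 1) ab))
    (Nat.mul (Nat.sub p (nat_lit 1)) (Nat.mul b b))) p) fun m =>
  strict (Nat.mod (Nat.add (Nat.add (nat_lit 1) (Nat.mul (Nat.sub p (nat_lit 1)) ab))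
    (Nat.mul (Nat.mul a a) t)) p) fun r =>
  strict (Nat.mod (Nat.add (Nat.mul (Nat.mul a t) (Nat.add (nat_lit 2) ab))
    (Nat.mul (Nat.sub p (nat_lit 1)) (Nat.mul b (Nat.add (nat_lit 1) ab)))) p) fun B =>
  strict (Nat.mod (Nat.add (Nat.mul (nat_lit 2) (Nat.mul a m))
    (Nat.mul (Nat.sub p (nat_lit 1)) B)) p) fun R =>
  strict (Nat.mod (Nat.mul (Nat.sub p (nat_lit 1)) m) p) fun nm =>
  strict (Nat.mod (Nat.mul (Nat.sub p (nat_lit 1)) r) p) fun nr =>
  strict (Nat.mod (Nat.add (Nat.mul B B) (Nat.mul (nat_lit 4) m)) p) fun d =>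
  k B m nm nr R d

/-- forms of the inner components -/
def forms4 (p : ℕ) (B m nm nr R : ℕ) : List (ℕ × ℕ × ℕ) :=
  [(m, B, Nat.sub p (nat_lit 1)), (nat_lit 1, B, nm), (m, R, nr)]

/-- forms of the outer component, with coefficients modulo `l`: `a, b, B` modulo `l` are given -/
def FK4 (p l a b Bl B nm nr R : ℕ) : List ((ℕ × ℕ) × (ℕ × ℕ)) :=
  [((B, Nat.sub p (nat_lit 1)), (nat_lit 0, Nat.mod (Nat.mul (Nat.sub l (nat_lit 1)) Bl) l)),
   ((B, nm), (nat_lit 6, Nat.mod (Nat.mul (Nat.sub l (nat_lit 1)) (Nat.mul (nat_lit 2) a)) l)),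
   ((R, nr), (nat_lit 6, Nat.mod (Nat.mul (Nat.sub l (nat_lit 1)) b) l))]

lemma withP4_eq {β : Type} {p : ℕ} [NeZero p] (a b t : ℤ)
    (k : ℕ → ℕ → ℕ → ℕ → ℕ → ℕ → β) :
    withP4 p (rs p a) (rs p b) (rs p t) k = k (rs p (zB a b t)) (rs p (zm a b t))
      (rs p (-zm a b t)) (rs p (-zr a b t)) (rs p (zR a b t)) (rs p (zd a b t)) := by
  have e1 : Nat.mod (Nat.mul (rs p a) (rs p b)) p = rs p (a * b) := by
    change (rs p a * rs p b) % p = _
    apply rs_of; push_cast; simp only [rs_cast]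
  have em : Nat.mod (Nat.add (Nat.mul (rs p t) (Nat.add (nat_lit 1) (rs p (a * b))))
      (Nat.mul (Nat.sub p (nat_lit 1)) (Nat.mul (rs p b) (rs p b)))) p = rs p (zm a b t) := by
    change (rs p t * (1 + rs p (a * b)) + (p - 1) * (rs p b * rs p b)) % p = _
    apply rs_of; push_cast; simp only [rs_cast, K5.cast_pred]; unfold zm; push_cast; ring
  have er : Nat.mod (Nat.add (Nat.add (nat_lit 1) (Nat.mul (Nat.sub p (nat_lit 1)) (rs p (a * b))))
      (Nat.mul (Nat.mul (rs p a) (rs p a)) (rs p t))) p = rs p (zr a b t) := by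
    change (1 + (p - 1) * rs p (a * b) + rs p a * rs p a * rs p t) % p = _
    apply rs_of; push_cast; simp only [rs_cast, K5.cast_pred]; unfold zr; push_cast; ring
  have eB : Nat.mod (Nat.add (Nat.mul (Nat.mul (rs p a) (rs p t)) (Nat.add (nat_lit 2) (rs p (a * b))))
      (Nat.mul (Nat.sub p (nat_lit 1)) (Nat.mul (rs p b) (Nat.add (nat_lit 1) (rs p (a * b)))))) p =
      rs p (zB a b t) := by
    change (rs p a * rs p t * (2 + rs p (a * b)) + (p - 1) * (rs p b * (1 + rs p (a * b)))) % p = _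
    apply rs_of; push_cast; simp only [rs_cast, K5.cast_pred]; unfold zB; push_cast; ring
  have eR : Nat.mod (Nat.add (Nat.mul (nat_lit 2) (Nat.mul (rs p a) (rs p (zm a b t))))
      (Nat.mul (Nat.sub p (nat_lit 1)) (rs p (zB a b t)))) p = rs p (zR a b t) := by
    change (2 * (rs p a * rs p (zm a b t)) + (p - 1) * rs p (zB a b t)) % p = _
    apply rs_of; push_cast; simp only [rs_cast, K5.cast_pred]; unfold zR; push_cast; ring
  have enm : Nat.mod (Nat.mul (Nat.sub p (nat_lit 1)) (rs p (zm a b t))) p =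
      rs p (-zm a b t) := by
    change ((p - 1) * rs p (zm a b t)) % p = _
    apply rs_of; push_cast; simp only [rs_cast, K5.cast_pred]; ring
  have enr : Nat.mod (Nat.mul (Nat.sub p (nat_lit 1)) (rs p (zr a b t))) p =
      rs p (-zr a b t) := by
    change ((p - 1) * rs p (zr a b t)) % p = _
    apply rs_of; push_cast; simp only [rs_cast, K5.cast_pred]; ring
  have ed : Nat.mod (Nat.add (Nat.mul (rs p (zB a b t)) (rs p (zB a b t)))
      (Nat.mul (nat_lit 4) (rs p (zm a b t)))) p = rs p (zd a b t) := by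
    change (rs p (zB a b t) * rs p (zB a b t) + 4 * rs p (zm a b t)) % p = _
    apply rs_of; push_cast; simp only [rs_cast]; unfold zd; push_cast; ring
  unfold withP4
  simp only [strict_eq]
  rw [e1, em, er, eB, eR, enm, enr, ed]

lemma withP4_ex {p a b t : ℕ} {k : ℕ → ℕ → ℕ → ℕ → ℕ → ℕ → Bool}
    (h : withP4 p a b t k = true) : ∃ B m nm nr R d, k B m nm nr R d = true := by
  unfold withP4 at h
  simp only [strict_eq] at h
  exact ⟨_, _, _, _, _, _, h⟩

lemma forms4_eq {p : ℕ} [NeZero p] (hp : 1 < p) (a b t : ℤ) :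
    forms4 p (rs p (zB a b t)) (rs p (zm a b t)) (rs p (-zm a b t))
      (rs p (-zr a b t)) (rs p (zR a b t)) = (J4 a b t).map (fkI p) := by
  have h1 : Nat.sub p (nat_lit 1) = rs p (-1) := K5.rs_neg_one
  have h2 : (nat_lit 1) = rs p 1 := K5.rs_one hp
  unfold forms4 J4 fkI
  rw [h1]
  simp only [List.map_cons, List.map_nil]
  rw [← h2]

lemma FK4_eq {p l : ℕ} [NeZero p] [NeZero l] (a b t : ℤ) :
    FK4 p l (rs l a) (rs l b) (rs l (zB a b t)) (rs p (zB a b t)) (rs p (-zm a b t))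
      (rs p (-zr a b t)) (rs p (zR a b t)) = (J4 a b t).map (fkO p l) := by
  have h1 : Nat.sub p (nat_lit 1) = rs p (-1) := K5.rs_neg_one
  have h2 : Nat.mod (Nat.mul (Nat.sub l (nat_lit 1)) (rs l (zB a b t))) l = rs l (-zB a b t) := by
    change ((l - 1) * rs l (zB a b t)) % l = _
    apply rs_of; push_cast; simp only [rs_cast, K5.cast_pred]; ring
  have h3 : Nat.mod (Nat.mul (Nat.sub l (nat_lit 1)) (Nat.mul (nat_lit 2) (rs l a))) l =
      rs l (-(2 * a)) := by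
    change ((l - 1) * (2 * rs l a)) % l = _
    apply rs_of; push_cast; simp only [rs_cast, K5.cast_pred]; ring
  have h4 : Nat.mod (Nat.mul (Nat.sub l (nat_lit 1)) (rs l b)) l = rs l (-b) := by
    change ((l - 1) * rs l b) % l = _
    apply rs_of; push_cast; simp only [rs_cast, K5.cast_pred]; ring
  unfold FK4 J4 fkO
  rw [h1, h2, h3, h4]
  simp only [List.map_cons, List.map_nil]

end Pool.Agent.Lib_helper5.K4


end

section

/-! generated: representatives and non residues -/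

namespace Pool.Agent.Lib_helper5.K4

open LK Pool.Agent.LibH4 Pool.Agent.LibH4.Ker

/-- non residues -/
def ds3 : List ℕ := [nat_lit 2]
/-- non residues -/
def ds5 : List ℕ := [nat_lit 2, nat_lit 3]
/-- non residues -/
def ds7 : List ℕ := [nat_lit 3, nat_lit 5, nat_lit 6]
/-- non residues -/
def ds11 : List ℕ := [nat_lit 2, nat_lit 6, nat_lit 7, nat_lit 8, nat_lit 10]
/-- non residues -/
def ds13 : List ℕ := [nat_lit 2, nat_lit 5, nat_lit 6, nat_lit 7, nat_lit 8, nat_lit 11]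
/-- non residues -/
def ds17 : List ℕ := [nat_lit 3, nat_lit 5, nat_lit 6, nat_lit 7, nat_lit 10, nat_lit 11, nat_lit 12, nat_lit 14]
/-- non residues -/
def ds19 : List ℕ := [nat_lit 2, nat_lit 3, nat_lit 8, nat_lit 10, nat_lit 12, nat_lit 13, nat_lit 14, nat_lit 15, nat_lit 18]

/-- representatives of the projective line -/
def L3 : List (ℕ × ℕ) := [(nat_lit 1, nat_lit 0), (nat_lit 1, nat_lit 1), (nat_lit 1, nat_lit 2), (nat_lit 0, nat_lit 1)]

lemma L3_eq : L3 = PL 3 := by decide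

/-- representatives of the projective line -/
def L8 : List (ℕ × ℕ) := [(nat_lit 1, nat_lit 0), (nat_lit 1, nat_lit 1), (nat_lit 1, nat_lit 2), (nat_lit 1, nat_lit 3), (nat_lit 1, nat_lit 4), (nat_lit 1, nat_lit 5), (nat_lit 1, nat_lit 6), (nat_lit 1, nat_lit 7), (nat_lit 0, nat_lit 1), (nat_lit 2, nat_lit 1), (nat_lit 4, nat_lit 1), (nat_lit 6, nat_lit 1)]

lemma isP1_8 : IsP1 8 L8 := by
  have := isP1_prime_pow (p := 2) (k := 3) (by norm_num) (by norm_num)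
  have e : p1List 2 (2 ^ 3) = L8 := by decide +kernel
  rw [e] at this
  exact this

/-- representatives of the projective line -/
def L40 : List (ℕ × ℕ) := [(nat_lit 1, nat_lit 0), (nat_lit 1, nat_lit 16), (nat_lit 1, nat_lit 32), (nat_lit 1, nat_lit 8), (nat_lit 1, nat_lit 24), (nat_lit 25, nat_lit 16), (nat_lit 1, nat_lit 25), (nat_lit 1, nat_lit 1), (nat_lit 1, nat_lit 17), (nat_lit 1, nat_lit 33), (nat_lit 1, nat_lit 9), (nat_lit 25, nat_lit 1), (nat_lit 1, nat_lit 10), (nat_lit 1, nat_lit 26), (nat_lit 1, nat_lit 2), (nat_lit 1, nat_lit 18), (nat_lit 1, nat_lit 34), (nat_lit 25, nat_lit 26), (nat_lit 1, nat_lit 35), (nat_lit 1, nat_lit 11), (nat_lit 1, nat_lit 27), (nat_lit 1, nat_lit 3), (nat_lit 1, nat_lit 19), (nat_lit 25, nat_lit 11), (nat_lit 1, nat_lit 20), (nat_lit 1, nat_lit 36), (nat_lit 1, nat_lit 12), (nat_lit 1, nat_lit 28), (nat_lit 1, nat_lit 4), (nat_lit 25, nat_lit 36), (nat_lit 1, nat_lit 5),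 (nat_lit 1, nat_lit 21), (nat_lit 1, nat_lit 37), (nat_lit 1, nat_lit 13), (nat_lit 1, nat_lit 29), (nat_lit 25, nat_lit 21), (nat_lit 1, nat_lit 30), (nat_lit 1, nat_lit 6), (nat_lit 1, nat_lit 22), (nat_lit 1, nat_lit 38), (nat_lit 1, nat_lit 14), (nat_lit 25, nat_lit 6), (nat_lit 1, nat_lit 15), (nat_lit 1, nat_lit 31), (nat_lit 1, nat_lit 7), (nat_lit 1, nat_lit 23), (nat_lit 1, nat_lit 39), (nat_lit 25, nat_lit 31), (nat_lit 16, nat_lit 25), (nat_lit 16, nat_lit 1), (nat_lit 16, nat_lit 17), (nat_lit 16, nat_lit 33), (nat_lit 16, nat_lit 9), (nat_lit 0, nat_lit 1), (nat_lit 26, nat_lit 25), (nat_lit 26, nat_lit 1), (nat_lit 26, nat_lit 17), (nat_lit 26, nat_lit 33), (nat_lit 26, nat_lit 9), (nat_lit 10, nat_lit 1), (nat_lit 36, nat_lit 25), (nat_lit 36, nat_lit 1), (nat_lit 36, nat_lit 17), (nat_lit 36, nat_lit 33), (nat_lit 36, nat_lit 9), (nat_lit 20, nat_lit 1), (nat_lit 6, nat_lit 25), (nat_lit 6, nat_lit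 1), (nat_lit 6, nat_lit 17), (nat_lit 6, nat_lit 33), (nat_lit 6, nat_lit 9), (nat_lit 30, nat_lit 1)]

lemma isP1_40 : IsP1 40 L40 := by
  have h5 : IsP1 5 L5 := L5_eq ▸ isP1_PL (by norm_num)
  have := isP1_mul (n1 := 8) (n2 := 5) (e1 := 25) (e2 := 16) (by norm_num) (by decide) (by decide)
    (by decide) (by decide) isP1_8 h5
  exact isP1_congr (n := 40) (by decide +kernel) this

end Pool.Agent.Lib_helper5.K4


end

section

/-!
The check of the packed weights for arbitrary lists of representatives.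
-/

namespace Pool.Agent.Lib_helper5.LK

open Finset Pool.Agent.LibH4 Pool.Agent.LibH4.Ker Pool.Agent.LibH4.T6 Pool.Agent.LibH4.KF

/-- the first coordinates, kernel friendly -/
def patK (e1 e2 e3 q a b c : ℕ) : ℕ :=
  Nat.mod (Nat.add (Nat.mul a e1) (Nat.add (Nat.mul b e2) (Nat.mul c e3))) q

/-- lookup -/
def lkX (X : ℕ) (L : List (ℕ × ℕ)) : ℕ :=
  @List.rec (ℕ × ℕ) (fun _ => ℕ) (nat_lit 0) (fun x _ ih =>
    @Bool.rec (fun _ => ℕ) ih x.2 (Nat.beq x.1 X)) L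

/-- a table of values -/
def tabX {β : Type} (f : ℕ → ℕ) (L : List ℕ) (k : List (ℕ × ℕ) → β) : β :=
  @List.rec ℕ (fun _ => (List (ℕ × ℕ) → β) → β) (fun k => k [])
    (fun x _ ih k => strict (f x) fun y => ih fun r => k ((x, y) :: r)) L k

/-- values indexed by the first coordinates -/
def withT {β : Type} (f : ℕ → ℕ) (e1 e2 e3 q : ℕ) (XS : List ℕ)
    (k : (ℕ → ℕ → ℕ → ℕ) → β) : β :=
  tabX f XS fun T => k fun a b c => lkX (patK e1 e2 e3 q a b c) T

lemma tabX_eq {β : Type} (f : ℕ → ℕ) (L : List ℕ) (k : List (ℕ × ℕ) → β) :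
    tabX f L k = k (L.map fun x => (x, f x)) := by
  induction L generalizing k with
  | nil => rfl
  | cons x L ih =>
    have : tabX f (x :: L) k = strict (f x) fun y => tabX f L fun r => k ((x, y) :: r) := rfl
    rw [this, strict_eq, ih]
    rfl

lemma lkX_eq {f : ℕ → ℕ} {L : List ℕ} {X : ℕ} (h : X ∈ L) :
    lkX X (L.map fun x => (x, f x)) = f X := by
  induction L with
  | nil => exact absurd h (by simp)
  | cons x L ih =>
    have e : lkX X ((x :: L).map fun x => (x, f x)) =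
      @Bool.rec (fun _ => ℕ) (lkX X (L.map fun x => (x, f x))) (f x) (Nat.beq x X) := rfl
    rw [e]
    cases hb : Nat.beq x X with
    | true =>
      have : x = X := Nat.eq_of_beq_eq_true hb
      rw [this]
    | false =>
      rcases List.mem_cons.1 h with h' | h'
      · exfalso
        rw [h', Nat.beq_refl] at hb
        exact absurd hb (by simp)
      · exact ih h'

lemma withT_spec {β : Type} (f : ℕ → ℕ) (e1 e2 e3 q : ℕ) (XS : List ℕ)
    (k : (ℕ → ℕ → ℕ → ℕ) → β) :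
    ∃ d : ℕ → ℕ → ℕ → ℕ, withT f e1 e2 e3 q XS k = k d ∧
      ∀ a b c, pat e1 e2 e3 q a b c ∈ XS → d a b c = f (pat e1 e2 e3 q a b c) := by
  refine ⟨fun a b c => lkX (patK e1 e2 e3 q a b c) (XS.map fun x => (x, f x)), ?_, ?_⟩
  · unfold withT
    rw [tabX_eq]
  · intro a b c h
    exact lkX_eq h

lemma wdG_eq {q N CT e1 e2 e3 : ℕ} (H : QN q N) {d : ℕ → ℕ → ℕ → ℕ} {P Q R : ℕ × ℕ}
    (hd : d P.1 Q.1 R.1 =
      packL (2 ^ 64) (fun i => lane q N CT (pat e1 e2 e3 q P.1 Q.1 R.1) (q - 1 - i)) (List.range q)) :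
    wd q N e1 e2 e3 d P Q R = wv q N CT e1 e2 e3 P Q R := by
  have hq : 0 < q := by have := H.q2; omega
  unfold wd wv
  rw [strict_eq]
  change @Nat.rec (fun _ => ℕ) 0 (fun _ _ => _) ((P.2 * e1 + (Q.2 * e2 + R.2 * e3)) % q) = _
  have hlt : (P.2 * e1 + (Q.2 * e2 + R.2 * e3)) % q < q := Nat.mod_lt _ hq
  generalize hY : (P.2 * e1 + (Q.2 * e2 + R.2 * e3)) % q = Y at hlt ⊢
  have hY' : Nat.mod (Nat.add (Nat.mul P.2 e1) (Nat.add (Nat.mul Q.2 e2) (Nat.mul R.2 e3))) q = Y := hY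
  cases Y with
  | zero => simp
  | succ y =>
    rw [if_neg (Nat.succ_ne_zero y)]
    change (Nat.shiftRight (d P.1 Q.1 R.1) (64 * (q - 1 -
      Nat.mod (Nat.add (Nat.mul P.2 e1) (Nat.add (Nat.mul Q.2 e2) (Nat.mul R.2 e3))) q))) %
      18446744073709551616 % N = _
    rw [hY', hd]
    congr 1
    change (packL _ _ _) >>> (64 * (q - 1 - (y + 1))) % _ = _
    rw [Nat.shiftRight_eq_div_pow, pow_mul]
    have h64 : (18446744073709551616 : ℕ) = 2 ^ 64 := by norm_num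
    rw [h64]
    have hdig := packL_digit (V := 2 ^ 64) (f := fun i => lane q N CT (pat e1 e2 e3 q P.1 Q.1 R.1)
      (q - 1 - i)) (L := List.range q) (fun i _ => lane_lt H CT _ _) (q - 1 - (y + 1))
      (by rw [List.length_range]; omega)
    rw [hdig, List.getElem_range]
    congr 1
    omega

/-- check of the packed weights; `XS` is the list of the values of the first coordinates -/
def wchkG (n1 n2 n3 e1 e2 e3 N l fr T1 T2 T3 : ℕ) (XS : List ℕ) (L1 L2 L3 : List (ℕ × ℕ))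
    (w3 w W Y1 Y0 : ℕ) : Bool :=
  strict (Nat.mul (Nat.mul n1 n2) n3) fun q =>
  strict (csq n1 n2 n3 q N T1 T2 T3) fun CT =>
  strict (packR (nat_lit 64) (fun _ => nat_lit 1) q) fun On =>
  strict (packR (nat_lit 64) (fun y => Nat.sub (Nat.sub q (nat_lit 1)) y) q) fun Yv =>
  strict (Nat.mul (nat_lit 16777215) On) fun Mk =>
  strict (Nat.succ (Nat.div (nat_lit 1099511627776) q)) fun cc =>
  strict (Nat.pow (nat_lit 2) w3) fun v3 =>
  strict (Nat.pow (nat_lit 2) w) fun v =>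
  withT (dv q N cc CT Yv On Mk) e1 e2 e3 q XS fun d =>
  withT (ev q N CT) e1 e2 e3 q XS fun e =>
  strict (wrev q N e1 e2 e3 d L1 L2 L3 (nat_lit 1208925819614629174706176) v3 v) fun W' =>
  strict (wyrev e (nat_lit 1) L2 L3 (nat_lit 1208925819614629174706176) v3) fun Y1' =>
  strict (wyrev e (nat_lit 0) L2 L3 (nat_lit 1208925819614629174706176) v3) fun Y0' =>
    @Bool.rec (fun _ => Bool) false (@Bool.rec (fun _ => Bool) false
      (@Bool.rec (fun _ => Bool) false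
        (allL (fun Q => allL (fun R =>
          @Bool.rec (fun _ => Bool) false
            (Nat.beq (Nat.mod (Nat.mul fr (e (nat_lit 0) Q.1 R.1)) (Nat.mul l l)) (nat_lit 0))
            (Nat.beq (Nat.mod (Nat.mul fr (e (nat_lit 1) Q.1 R.1)) l) (nat_lit 0))) L3) L2)
        (Nat.beq Y0' Y0)) (Nat.beq Y1' Y1)) (Nat.beq W' W)

theorem wchkG_spec {n1 n2 n3 e1 e2 e3 N l fr T1 T2 T3 : ℕ} {XS : List ℕ} {L1 L2 L3 : List (ℕ × ℕ)}
    {w3 w W Y1 Y0 : ℕ} (H : QN (n1 * n2 * n3) N)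
    (bb : ∀ P ∈ L1, ∀ Q ∈ L2, ∀ R ∈ L3, pat e1 e2 e3 (n1 * n2 * n3) P.1 Q.1 R.1 ∈ XS)
    (b1 : ∀ Q ∈ L2, ∀ R ∈ L3, pat e1 e2 e3 (n1 * n2 * n3) 1 Q.1 R.1 ∈ XS)
    (b0 : ∀ Q ∈ L2, ∀ R ∈ L3, pat e1 e2 e3 (n1 * n2 * n3) 0 Q.1 R.1 ∈ XS)
    (h : wchkG n1 n2 n3 e1 e2 e3 N l fr T1 T2 T3 XS L1 L2 L3 w3 w W Y1 Y0 = true) :
    WSpec n1 n2 n3 e1 e2 e3 N l fr T1 T2 T3 L1 L2 L3 w3 w W Y1 Y0 := by
  unfold wchkG at h
  simp only [strict_eq] at h
  set q := n1 * n2 * n3 with hq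
  have hq' : Nat.mul (Nat.mul n1 n2) n3 = q := rfl
  rw [hq'] at h
  have hct : csq n1 n2 n3 q N T1 T2 T3 = csqT n1 n2 n3 N T1 T2 T3 := rfl
  rw [hct] at h
  obtain ⟨d, hd, hd'⟩ := withT_spec (β := Bool) (dv q N (Nat.succ (Nat.div (nat_lit 1099511627776) q))
    (csqT n1 n2 n3 N T1 T2 T3)
    (packR (nat_lit 64) (fun y => Nat.sub (Nat.sub q (nat_lit 1)) y) q)
    (packR (nat_lit 64) (fun _ => nat_lit 1) q)
    (Nat.mul (nat_lit 16777215) (packR (nat_lit 64) (fun _ => nat_lit 1) q))) e1 e2 e3 q XS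
    (fun d => withT (ev q N (csqT n1 n2 n3 N T1 T2 T3)) e1 e2 e3 q XS fun e =>
      @Bool.rec (fun _ => Bool) false (@Bool.rec (fun _ => Bool) false
      (@Bool.rec (fun _ => Bool) false
        (allL (fun Q => allL (fun R =>
          @Bool.rec (fun _ => Bool) false
            (Nat.beq (Nat.mod (Nat.mul fr (e (nat_lit 0) Q.1 R.1)) (Nat.mul l l)) (nat_lit 0))
            (Nat.beq (Nat.mod (Nat.mul fr (e (nat_lit 1) Q.1 R.1)) l) (nat_lit 0))) L3) L2)
        (Nat.beq (wyrev e (nat_lit 0) L2 L3 (nat_lit 1208925819614629174706176)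
          (Nat.pow (nat_lit 2) w3)) Y0))
        (Nat.beq (wyrev e (nat_lit 1) L2 L3 (nat_lit 1208925819614629174706176)
          (Nat.pow (nat_lit 2) w3)) Y1))
        (Nat.beq (wrev q N e1 e2 e3 d L1 L2 L3 (nat_lit 1208925819614629174706176)
          (Nat.pow (nat_lit 2) w3) (Nat.pow (nat_lit 2) w)) W))
  rw [hd] at h
  obtain ⟨e, he, he'⟩ := withT_spec (β := Bool) (ev q N (csqT n1 n2 n3 N T1 T2 T3)) e1 e2 e3 q XS
    (fun e => @Bool.rec (fun _ => Bool) false (@Bool.rec (fun _ => Bool) false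
      (@Bool.rec (fun _ => Bool) false
        (allL (fun Q => allL (fun R =>
          @Bool.rec (fun _ => Bool) false
            (Nat.beq (Nat.mod (Nat.mul fr (e (nat_lit 0) Q.1 R.1)) (Nat.mul l l)) (nat_lit 0))
            (Nat.beq (Nat.mod (Nat.mul fr (e (nat_lit 1) Q.1 R.1)) l) (nat_lit 0))) L3) L2)
        (Nat.beq (wyrev e (nat_lit 0) L2 L3 (nat_lit 1208925819614629174706176)
          (Nat.pow (nat_lit 2) w3)) Y0))
        (Nat.beq (wyrev e (nat_lit 1) L2 L3 (nat_lit 1208925819614629174706176)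
          (Nat.pow (nat_lit 2) w3)) Y1))
        (Nat.beq (wrev q N e1 e2 e3 d L1 L2 L3 (nat_lit 1208925819614629174706176)
          (Nat.pow (nat_lit 2) w3) (Nat.pow (nat_lit 2) w)) W))
  rw [he] at h
  obtain ⟨h1, h⟩ := boolrec_spec h
  obtain ⟨h2, h⟩ := boolrec_spec h
  obtain ⟨h3, h⟩ := boolrec_spec h
  have g1 := Nat.eq_of_beq_eq_true h1
  have g2 := Nat.eq_of_beq_eq_true h2
  have g3 := Nat.eq_of_beq_eq_true h3
  have h80 : ∀ (f : ℕ × ℕ → ℕ) (L : List (ℕ × ℕ)),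
      rp (nat_lit 1208925819614629174706176) f L = rp (2 ^ 80) f L := by
    intro f L
    have h80' : (1208925819614629174706176 : ℕ) = 2 ^ 80 := by norm_num
    have : rp (1208925819614629174706176 : ℕ) f L = rp (2 ^ 80) f L := by rw [h80']
    exact this
  have hdv : ∀ a b c, pat e1 e2 e3 q a b c ∈ XS → d a b c =
      packL (2 ^ 64) (fun i => lane q N (csqT n1 n2 n3 N T1 T2 T3) (pat e1 e2 e3 q a b c)
        (q - 1 - i)) (List.range q) := by
    intro a b c hh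
    rw [hd' a b c hh, ← dv_eq H]
    have e1' : packR (nat_lit 64) (fun y => Nat.sub (Nat.sub q (nat_lit 1)) y) q =
        packL (2 ^ 64) (fun i => q - 1 - i) (List.range q) := packR_eq _ _ _
    have e2' : packR (nat_lit 64) (fun _ => nat_lit 1) q =
        packL (2 ^ 64) (fun _ => 1) (List.range q) := packR_eq _ _ _
    rw [e1', e2']
    have e3' : Nat.succ (Nat.div (nat_lit 1099511627776) q) = Nat.succ (2 ^ 40 / q) := by
      norm_num
      rfl
    rw [e3']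
    rfl
  refine ⟨?_, ?_, ?_, ?_, ?_⟩
  · rw [← g1]
    unfold wrev
    rw [rpk_eq0]
    apply rp_congr
    intro P hP
    rw [rpk_eq0]
    apply rp_congr
    intro Q hQ
    rw [rpk_eq0, h80]
    apply rp_congr
    intro R hR
    exact wdG_eq H (hdv _ _ _ (bb P hP Q hQ R hR))
  · rw [← g2]
    unfold wyrev
    rw [rpk_eq0]
    apply rp_congr
    intro Q hQ
    rw [rpk_eq0, h80]
    apply rp_congr
    intro R hR
    exact he' _ _ _ (b1 Q hQ R hR)
  · rw [← g3]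
    unfold wyrev
    rw [rpk_eq0]
    apply rp_congr
    intro Q hQ
    rw [rpk_eq0, h80]
    apply rp_congr
    intro R hR
    exact he' _ _ _ (b0 Q hQ R hR)
  · intro Q hQ R hR
    have h4 := boolrec_spec (allL_spec (allL_spec h Q hQ) R hR)
    have h5 : fr * e 1 Q.1 R.1 % l = 0 := Nat.eq_of_beq_eq_true h4.1
    rw [he' 1 _ _ (b1 Q hQ R hR)] at h5
    exact h5
  · intro Q hQ R hR
    have h4 := boolrec_spec (allL_spec (allL_spec h Q hQ) R hR)
    have h5 : fr * e 0 Q.1 R.1 % (l * l) = 0 := Nat.eq_of_beq_eq_true h4.2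
    rw [he' 0 _ _ (b0 Q hQ R hR)] at h5
    exact h5

end Pool.Agent.Lib_helper5.LK


end
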