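import Mathlib
import Pool.Agent.RQM.C12
import Pool.Agent.RQM.C13
import Pool.Agent.RQM.C40

/-! Parts: Lib_helper5.P7.Scale, Lib_helper5.P7.Tab, Lib_helper5.P7.Comp, Lib_helper4.CW.Ker, Lib_helper4.CW.Lst, Lib_helper4.CW.Orb, Lib_helper5.P7.Cmp, Lib_helper4.LO.Pow -/

namespace Pool.Agent.LibH4
end Pool.Agent.LibH4
namespace Pool.Agent.LibH4.KF
end Pool.Agent.LibH4.KF
namespace Pool.Agent.LibH4.Ker
end Pool.Agent.LibH4.Ker
namespace Pool.Agent.LibH4.T6
end Pool.Agent.LibH4.T6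
namespace Pool.Agent.Lib_helper5.LK
end Pool.Agent.Lib_helper5.LK
namespace Pool.Agent.Lib_helper5.TB
end Pool.Agent.Lib_helper5.TB

section

/-!
Normalised forms: the sums attached to `P, R, S` are determined by `R / P, S / P`.
-/

namespace Pool.Agent.Lib_helper5.TB

open Finset LK Pool.Agent.LibH4 Pool.Agent.LibH4.Ker Pool.Agent.LibH4.T6 Pool.Agent.LibH4.KF

section Scale

variable {q N : ℕ} [NeZero q] (χ : ZMod q → ZMod N)

omit [NeZero q] in
lemma fz_scale {P P' : ℤ} (hP : (P : ZMod q) * (P' : ZMod q) = 1) (R S : ℤ) (x y : ZMod q) :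
    fz q P R S x y = (P : ZMod q) * fz q 1 (R * P') (S * P') x y := by
  unfold fz
  push_cast
  linear_combination (-(R : ZMod q) * x * y - (S : ZMod q) * y ^ 2) * hP

lemma XX_scale (hmul : ∀ x y, χ (x * y) = χ x * χ y) {P P' : ℤ}
    (hP : (P : ZMod q) * (P' : ZMod q) = 1) (R S : ℤ) :
    KF.XX χ P R S = χ (P : ZMod q) * KF.XX χ 1 (R * P') (S * P') := by
  unfold KF.XX
  rw [Finset.mul_sum]
  apply Finset.sum_congr rfl
  intro x _
  rw [Finset.mul_sum]
  apply Finset.sum_congr rfl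
  intro y _
  rw [fz_scale hP, hmul]
  ring

lemma YX_scale (hmul : ∀ x y, χ (x * y) = χ x * χ y) {P P' : ℤ}
    (hP : (P : ZMod q) * (P' : ZMod q) = 1) (R S : ℤ) :
    KF.YX χ P R S = χ (P : ZMod q) * KF.YX χ 1 (R * P') (S * P') := by
  unfold KF.YX
  rw [Finset.mul_sum]
  apply Finset.sum_congr rfl
  intro x _
  rw [Finset.mul_sum]
  apply Finset.sum_congr rfl
  intro y _
  rw [fz_scale hP, hmul]
  ring

end Scale

/-! ### the value of a single form -/

/-- the verified data of the weights of a character -/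
structure GoodT (n1 n2 n3 e1 e2 e3 N T1 T2 T3 : ℕ) (L2 L3 : List (ℕ × ℕ))
    (w3 w W Y1 Y0 : ℕ) [NeZero n1] [NeZero n2] [NeZero n3] [NeZero (n1 * n2)]
    [NeZero (n1 * n2 * n3)] : Prop where
  hp : n1.Prime
  idem : Idem n1 n2 n3 e1 e2 e3
  p2 : IsP1 n2 L2
  p3 : IsP1 n3 L3
  ne2 : L2 ≠ []
  ne3 : L3 ≠ []
  qn : QN (n1 * n2 * n3) N
  t1 : tabCk n1 N T1 = true
  t2 : tabCk n2 N T2 = true
  t3 : tabCk n3 N T3 = true
  ws : WSpec n1 n2 n3 e1 e2 e3 N 1 0 T1 T2 T3 (PL n1) L2 L3 w3 w W Y1 Y0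
  hw3 : w3 = 80 * L3.length
  hw : w = w3 * L2.length
  hB : L3.length * (L2.length * (BA n1 N 1 * N) * N) < 2 ^ 80

/-- contraction with the middle component -/
def mid (w3 sh2 A v : ℕ) : ℕ :=
  Nat.mod (Nat.shiftRight (Nat.mul A v) sh2) (Nat.pow (nat_lit 2) w3)

section Val

variable {n1 n2 n3 e1 e2 e3 N T1 T2 T3 : ℕ} {L2 L3 : List (ℕ × ℕ)} {w3 w W Y1 Y0 : ℕ}
  [NeZero n1] [NeZero n2] [NeZero n3] [NeZero (n1 * n2)] [NeZero (n1 * n2 * n3)]

/-- the value of a single form -/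
theorem GoodT.val (G : GoodT n1 n2 n3 e1 e2 e3 N T1 T2 T3 L2 L3 w3 w W Y1 Y0)
    (j : Fm) {κ α : ℕ} (hκ : κ ≤ 1) (hα : α ≤ 1) {d : ℕ}
    (hd : (d : ZMod n1) = j.R ^ 2 - 4 * j.P * j.S)
    (hi : 2 * rs n1 j.S * ii n1 (rs n1 j.S) % n1 = 1) {sh sh2 : ℕ}
    (hsh : sh = 80 * (L3.length - 1)) (hsh2 : sh2 = w3 * (L2.length - 1)) :
    ((ip N sh (mid w3 sh2 (rowX n1 T1 w W Y1 Y0 d ((rs n1 j.R, rs n1 j.S), (κ, α)))
      (pv n2 T2 (2 ^ w3) L2 (fkI n2 j))) (pv n3 T3 (2 ^ 80) L3 (fkI n3 j)) : ℕ) : ZMod N) =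
      κ * KF.XX (tri (tabc n1 N T1) (tabc n2 N T2) (tabc n3 N T3)) j.P j.R j.S +
      α * KF.YX (tri (tabc n1 N T1) (tabc n2 N T2) (tabc n3 N T3)) j.P j.R j.S := by
  have hN : 2 ≤ N := by have := G.qn.N3; omega
  have hN0 : 0 < N := by omega
  have hN16 : N ≤ 2 ^ 16 := by have := G.qn.N8; omega
  have hn1 : 0 < n1 := G.hp.pos
  have h1 := tabCk_char G.t1
  have h2 := tabCk_char G.t2
  have h3 := tabCk_char G.t3
  have ht1 := tabCk_lt G.t1
  have hl2 := List.length_pos_of_ne_nil G.ne2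
  have hl3 := List.length_pos_of_ne_nil G.ne3
  have hb1 : L2.length * (BA n1 N 1 * N) < 2 ^ 80 := by
    refine lt_of_le_of_lt ?_ G.hB
    calc L2.length * (BA n1 N 1 * N) ≤ L2.length * (BA n1 N 1 * N) * N :=
          Nat.le_mul_of_pos_right _ hN0
      _ ≤ _ := Nat.le_mul_of_pos_left _ hl3
  have hb0 : (n1 + 1) * (N * (N * N)) < 2 ^ 80 := by
    refine lt_of_le_of_lt ?_ hb1
    have : (n1 + 1) * (N * (N * N)) ≤ BA n1 N 1 := Nat.le_mul_of_pos_left _ (by omega)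
    calc (n1 + 1) * (N * (N * N)) ≤ BA n1 N 1 := this
      _ ≤ BA n1 N 1 * N := Nat.le_mul_of_pos_right _ hN0
      _ ≤ _ := Nat.le_mul_of_pos_left _ hl2
  set x : (ℕ × ℕ) × (ℕ × ℕ) := ((rs n1 j.R, rs n1 j.S), (κ, α)) with hx
  have hκ6 : x.2.1 ≤ 6 := by rw [hx]; simp only; omega
  have hα1 : x.2.2 ≤ 1 := by rw [hx]; exact hα
  have hSx : x.1.2 < n1 := by rw [hx]; exact rs_lt j.S
  have hw3' : (2 : ℕ) ^ w3 = (2 ^ 80) ^ L3.length := by rw [G.hw3, ← pow_mul]
  have eR := rowX_eq (l := 1) (x := x) (d := d) G.ws G.hw3 G.hw hN0 hn1 ht1 hb0 hSx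
  have eM : mid w3 sh2 (rowX n1 T1 w W Y1 Y0 d x) (pv n2 T2 (2 ^ w3) L2 (fkI n2 j)) =
      rp (2 ^ 80) (brow n1 n2 n3 e1 e2 e3 N T1 T2 T3 d L2 x
        (fun Q => chw T2 (nf n2 (rs n2 j.P) (rs n2 j.R) (rs n2 j.S) Q.1 Q.2))) L3 := by
    have e0 : mid w3 sh2 (rowX n1 T1 w W Y1 Y0 d x) (pv n2 T2 (2 ^ w3) L2 (fkI n2 j)) =
      (rowX n1 T1 w W Y1 Y0 d x * pv n2 T2 (2 ^ w3) L2 (fkI n2 j)) >>> sh2 % 2 ^ w3 := rfl
    have e1 : rp (2 ^ 80) (arow n1 n2 n3 e1 e2 e3 N T1 T2 T3 d x) (L2 ×ˢ L3) =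
        rp ((2 ^ 80) ^ L3.length) (fun Q => rp (2 ^ 80) (fun R =>
          arow n1 n2 n3 e1 e2 e3 N T1 T2 T3 d x (Q, R)) L3) L2 := by
      rw [rp_flat]
    rw [e0, eR, e1, hsh2, Nat.shiftRight_eq_div_pow, pow_mul, hw3']
    exact blk (V := 2 ^ 80) (C := BA n1 N 1) (D := N) (L := L2) (M := L3) G.ne2
      (fun Q _ R _ => arow_le hN0 hn1 ht1 hκ6 hα1 hSx _) (fun Q _ => pv_le (tabCk_lt G.t2) _ _ _ Q)
      hb1
  rw [eM]
  have eF := ip_fin (N := N) (L3 := L3) (w3 := w3) (J := [j])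
    (b := fun _ => brow n1 n2 n3 e1 e2 e3 N T1 T2 T3 d L2 x
        (fun Q => chw T2 (nf n2 (rs n2 j.P) (rs n2 j.R) (rs n2 j.S) Q.1 Q.2)))
    (u := fun _ Q => chw T3 (nf n3 (rs n3 j.P) (rs n3 j.R) (rs n3 j.S) Q.1 Q.2))
    (C := L2.length * (BA n1 N 1 * N)) (D := N) (by simp) G.ne3
    (fun j' _ R _ => brow_le hN0 hn1 ht1 hκ6 hα1 hSx (fun Q _ => pv_le (tabCk_lt G.t2) _ _ _ Q) R)
    (fun j' _ R _ => pv_le (tabCk_lt G.t3) _ _ _ R)
    (by simpa using G.hB) G.hw3 (sh := sh) (by simpa using hsh)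
  have eu : packL (2 ^ w3) (fun _ : Fm => packL (2 ^ 80) (fun Q : ℕ × ℕ =>
      chw T3 (nf n3 (rs n3 j.P) (rs n3 j.R) (rs n3 j.S) Q.1 Q.2)) L3) [j] =
      pv n3 T3 (2 ^ 80) L3 (fkI n3 j) := by
    rw [packL_cons, packL_nil]
    simp only [mul_zero, add_zero]
    rfl
  have eb : rp (2 ^ w3) (fun _ : Fm => rp (2 ^ 80) (brow n1 n2 n3 e1 e2 e3 N T1 T2 T3 d L2 x
        (fun Q => chw T2 (nf n2 (rs n2 j.P) (rs n2 j.R) (rs n2 j.S) Q.1 Q.2))) L3) [j] =
      rp (2 ^ 80) (brow n1 n2 n3 e1 e2 e3 N T1 T2 T3 d L2 x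
        (fun Q => chw T2 (nf n2 (rs n2 j.P) (rs n2 j.R) (rs n2 j.S) Q.1 Q.2))) L3 := by
    rw [rp_cons]
    simp [rp]
  rw [eu, eb] at eF
  rw [eF, ZMod.natCast_mod, List.map_singleton, List.sum_singleton]
  exact val_cast
    G.idem G.hp G.p2 G.p3 hN hN16 h1 h2 h3 (j := j) (x := x) (d := d)
    (rs_cast j.R) (rs_cast j.S) (rs_lt j.S) hd hi (fun Q _ => pv_cast j Q) (fun Q _ => pv_cast j Q)

end Val

end Pool.Agent.Lib_helper5.TB


end

section

/-!
Verified tables of the sums attached to normalised forms.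
-/

namespace Pool.Agent.Lib_helper5.TB

open Finset LK Pool.Agent.LibH4 Pool.Agent.LibH4.Ker Pool.Agent.LibH4.T6 Pool.Agent.LibH4.KF

/-! ### kernel functions -/

/-- digit in base `2 ^ 8` -/
def dig (A i : ℕ) : ℕ := Nat.mod (Nat.shiftRight A (Nat.mul (nat_lit 8) i)) (nat_lit 256)

/-- loop over a list with a counter -/
def allJ {α : Type} (f : α → ℕ → Bool) (L : List α) : ℕ → Bool :=
  @List.rec α (fun _ => ℕ → Bool) (fun _ => true)
    (fun x _ ih i => @Bool.rec (fun _ => Bool) false (strict (Nat.succ i) ih) (f x i)) L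

/-- loop over two lists of the same length -/
def allZ {α β : Type} (f : α → β → Bool) (L : List α) : List β → Bool :=
  @List.rec α (fun _ => List β → Bool)
    (fun M => @List.rec β (fun _ => Bool) true (fun _ _ _ => false) M)
    (fun x _ ih M => @List.rec β (fun _ => Bool) false
      (fun y M' _ => @Bool.rec (fun _ => Bool) false (ih M') (f x y)) M) L

/-- forced evaluation of a list -/
def mapS {α β : Type} (f : α → ℕ) (L : List α) : (List ℕ → β) → β :=
  @List.rec α (fun _ => (List ℕ → β) → β) (fun k => k [])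
    (fun x _ ih k => strict (f x) fun v => ih fun rest => k (v :: rest)) L

/-- comparison of a row with its table -/
def rowCk (w3 sh2 sh N h len3 : ℕ) (V2 V3 : List ℕ) (A lit : ℕ) : Bool :=
  allJ (fun v2 i2 => strict (mid w3 sh2 A v2) fun M => strict (Nat.mul i2 len3) fun b =>
    allJ (fun v3 i3 => Nat.beq (ip N sh M v3) (Nat.mul h (dig lit (Nat.add b i3)))) V3
      (nat_lit 0)) V2 (nat_lit 0)

/-- check of the rows of a form of the outer component -/
def formCk (n1 T1 w W Y1 Y0 w3 sh2 sh N h len3 : ℕ) (Gs : List (ℕ × ℕ × ℕ)) (V2 V3 : List ℕ)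
    (f row : ℕ × ℕ) : Bool :=
  strict (Nat.mod (Nat.add (Nat.mul f.1 f.1) (Nat.mul (nat_lit 4) (Nat.sub n1 f.2))) n1) fun d =>
  fvec n1 T1 w Gs d f.1 f.2 fun v g s =>
    strict (Nat.mod (Nat.shiftRight (Nat.mul W v) (Nat.mul w n1)) (Nat.pow (nat_lit 2) w))
      fun AX =>
    strict (Nat.add (Nat.mul g Y1) (Nat.mul s Y0)) fun AY =>
      @Bool.rec (fun _ => Bool) false (rowCk w3 sh2 sh N h len3 V2 V3 AY row.2)
        (rowCk w3 sh2 sh N h len3 V2 V3 AX row.1)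

/-- check of a table -/
def tabCkAll (n1 n2 n3 N h T1 T2 T3 : ℕ) (ds : List ℕ) (L2 L3 F1 F2 F3 : List (ℕ × ℕ))
    (w3 w sh2 sh W Y1 Y0 len3 : ℕ) (rows : List (ℕ × ℕ)) : Bool :=
  ggl n1 T1 w ds fun Gs =>
  strict (Nat.pow (nat_lit 2) w3) fun v3 =>
  mapS (fun f => pv n2 T2 v3 L2 (Nat.mod (nat_lit 1) n2, f.1, f.2)) F2 fun V2 =>
  mapS (fun f => pv n3 T3 (nat_lit 1208925819614629174706176) L3
    (Nat.mod (nat_lit 1) n3, f.1, f.2)) F3 fun V3 =>
  allZ (formCk n1 T1 w W Y1 Y0 w3 sh2 sh N h len3 Gs V2 V3) F1 rows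

/-! ### meaning -/

lemma mapS_eq {α β : Type} (f : α → ℕ) (L : List α) (k : List ℕ → β) :
    mapS f L k = k (L.map f) := by
  induction L generalizing k with
  | nil => rfl
  | cons x L ih =>
    have e : mapS f (x :: L) k = strict (f x) fun v => mapS f L fun rest => k (v :: rest) := rfl
    rw [e, strict_eq, ih]
    rfl

lemma allJ_spec {α : Type} {f : α → ℕ → Bool} {L : List α} {c : ℕ} (h : allJ f L c = true) :
    ∀ i x, L[i]? = some x → f x (c + i) = true := by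
  induction L generalizing c with
  | nil => intro i x hx; simp at hx
  | cons y L ih =>
    have h' : @Bool.rec (fun _ => Bool) false (strict (Nat.succ c) (allJ f L)) (f y c) = true := h
    obtain ⟨h1, h2⟩ := boolrec_spec h'
    rw [strict_eq] at h2
    intro i x hx
    cases i with
    | zero =>
      simp only [List.getElem?_cons_zero, Option.some.injEq] at hx
      subst hx
      exact h1
    | succ i =>
      rw [List.getElem?_cons_succ] at hx
      have := ih h2 i x hx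
      rwa [show c + (i + 1) = Nat.succ c + i by omega]

lemma allJ_spec0 {α : Type} {f : α → ℕ → Bool} {L : List α} (h : allJ f L (nat_lit 0) = true)
    (i : ℕ) (x : α) (hx : L[i]? = some x) : f x i = true := by
  have h1 := allJ_spec h i x hx
  have e : (nat_lit 0) + i = i := Nat.zero_add i
  rwa [e] at h1

lemma allZ_spec {α β : Type} {f : α → β → Bool} {L : List α} {M : List β}
    (h : allZ f L M = true) : L.length = M.length ∧
      ∀ (i : ℕ) (x : α) (y : β), L[i]? = some x → M[i]? = some y → f x y = true := by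
  induction L generalizing M with
  | nil =>
    cases M with
    | nil => exact ⟨rfl, fun i x y hx => by simp at hx⟩
    | cons y M => exact absurd h (by simp [allZ])
  | cons a L ih =>
    cases M with
    | nil => exact absurd h (by simp [allZ])
    | cons b M =>
      have h' : @Bool.rec (fun _ => Bool) false (allZ f L M) (f a b) = true := h
      obtain ⟨h1, h2⟩ := boolrec_spec h'
      obtain ⟨h3, h4⟩ := ih h2
      refine ⟨by simp [h3], ?_⟩
      intro i x y hx hy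
      cases i with
      | zero =>
        simp only [List.getElem?_cons_zero, Option.some.injEq] at hx hy
        subst hx; subst hy
        exact h1
      | succ i =>
        rw [List.getElem?_cons_succ] at hx hy
        exact h4 i x y hx hy

lemma rowCk_spec {w3 sh2 sh N h len3 : ℕ} {V2 V3 : List ℕ} {A lit : ℕ}
    (hc : rowCk w3 sh2 sh N h len3 V2 V3 A lit = true) {i2 i3 v2 v3 : ℕ}
    (h2 : V2[i2]? = some v2) (h3 : V3[i3]? = some v3) :
    ip N sh (mid w3 sh2 A v2) v3 = h * dig lit (i2 * len3 + i3) := by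
  have a := allJ_spec0 hc i2 v2 h2
  rw [strict_eq, strict_eq] at a
  exact Nat.eq_of_beq_eq_true (allJ_spec0 a i3 v3 h3)

/-- the table of a character -/
structure TabOK (n1 n2 n3 N h T1 T2 T3 : ℕ) (F1 F2 F3 : List (ℕ × ℕ)) (rows : List (ℕ × ℕ)) :
    Prop where
  len : F1.length = rows.length
  val : ∀ (i1 i2 i3 : ℕ) (f1 f2 f3 row : ℕ × ℕ), F1[i1]? = some f1 → F2[i2]? = some f2 →
    F3[i3]? = some f3 → rows[i1]? = some row → ∀ R S : ℤ, rs n1 R = f1.1 → rs n1 S = f1.2 →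
    rs n2 R = f2.1 → rs n2 S = f2.2 → rs n3 R = f3.1 → rs n3 S = f3.2 →
    ∀ [NeZero (n1 * n2 * n3)],
    KF.XX (tri (tabc n1 N T1) (tabc n2 N T2) (tabc n3 N T3)) 1 R S =
      ((h * dig row.1 (i2 * F3.length + i3) : ℕ) : ZMod N) ∧
    KF.YX (tri (tabc n1 N T1) (tabc n2 N T2) (tabc n3 N T3)) 1 R S =
      ((h * dig row.2 (i2 * F3.length + i3) : ℕ) : ZMod N)

section Spec

variable {n1 n2 n3 e1 e2 e3 N h T1 T2 T3 : ℕ} {L2 L3 F1 F2 F3 : List (ℕ × ℕ)}
  {w3 w W Y1 Y0 : ℕ}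
  [NeZero n1] [NeZero n2] [NeZero n3] [NeZero (n1 * n2)] [NeZero (n1 * n2 * n3)]

lemma rs_one' {p : ℕ} : Nat.mod (nat_lit 1) p = rs p 1 := by
  have : (1 : ℕ) % p = rs p 1 := rs_of (by push_cast; ring)
  exact this

theorem tabCkAll_spec (G : GoodT n1 n2 n3 e1 e2 e3 N T1 T2 T3 L2 L3 w3 w W Y1 Y0)
    (hw16 : 16 ≤ w) {ds : List ℕ} {sh2 sh len3 : ℕ} {rows : List (ℕ × ℕ)}
    (hsh : sh = 80 * (L3.length - 1)) (hsh2 : sh2 = w3 * (L2.length - 1))
    (hl3 : len3 = F3.length)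
    (hc : tabCkAll n1 n2 n3 N h T1 T2 T3 ds L2 L3 F1 F2 F3 w3 w sh2 sh W Y1 Y0 len3 rows = true) :
    TabOK n1 n2 n3 N h T1 T2 T3 F1 F2 F3 rows := by
  unfold tabCkAll at hc
  rw [ggl_eq, strict_eq, mapS_eq, mapS_eq] at hc
  obtain ⟨hlen, hz⟩ := allZ_spec hc
  refine ⟨hlen, ?_⟩
  intro i1 i2 i3 f1 f2 f3 row h1 h2 h3 hr R S r1 s1 r2 s2 r3 s3 _
  have hf := hz i1 f1 row h1 hr
  unfold formCk at hf
  rw [strict_eq] at hf
  obtain ⟨hi, hk⟩ := fvec_spec hw16 G.hp.pos hf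
  rw [strict_eq, strict_eq] at hk
  obtain ⟨kX, kY⟩ := boolrec_spec hk
  set d : ℕ := Nat.mod (Nat.add (Nat.mul f1.1 f1.1)
    (Nat.mul (nat_lit 4) (Nat.sub n1 f1.2))) n1 with hd0
  have hS1 : f1.2 ≤ n1 := by rw [← s1]; exact (rs_lt S).le
  have hd : (d : ZMod n1) = ((R : ℤ) : ZMod n1) ^ 2 - 4 * (1 : ℤ) * (S : ℤ) := by
    have e : d = (f1.1 * f1.1 + 4 * (n1 - f1.2)) % n1 := rfl
    rw [e, ZMod.natCast_mod, Nat.cast_add, Nat.cast_mul, Nat.cast_mul, Nat.cast_sub hS1, ← r1,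
      ← s1, rs_cast, rs_cast, ZMod.natCast_self]
    push_cast
    ring
  have v3eq : Nat.pow (nat_lit 2) w3 = 2 ^ w3 := rfl
  have h80 : (nat_lit 1208925819614629174706176 : ℕ) = 2 ^ 80 := by norm_num
  have g2 : (List.map (fun f : ℕ × ℕ => pv n2 T2 (Nat.pow (nat_lit 2) w3) L2
      (Nat.mod (nat_lit 1) n2, f.1, f.2)) F2)[i2]? =
      some (pv n2 T2 (2 ^ w3) L2 (fkI n2 ⟨1, R, S, 1, 0⟩)) := by
    rw [List.getElem?_map, h2, Option.map_some, v3eq, rs_one']
    unfold fkI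
    simp only
    rw [r2, s2]
  have g3 : (List.map (fun f : ℕ × ℕ => pv n3 T3 (nat_lit 1208925819614629174706176) L3
      (Nat.mod (nat_lit 1) n3, f.1, f.2)) F3)[i3]? =
      some (pv n3 T3 (2 ^ 80) L3 (fkI n3 ⟨1, R, S, 1, 0⟩)) := by
    rw [List.getElem?_map, h3, Option.map_some, rs_one', h80]
    unfold fkI
    simp only
    rw [r3, s3]
  have hi' : 2 * rs n1 S * ii n1 (rs n1 S) % n1 = 1 := by rw [s1]; exact hi
  constructor
  · have a := rowCk_spec kX g2 g3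
    have b := G.val ⟨1, R, S, 1, 0⟩ (κ := 1) (α := 0) le_rfl (by omega) (d := d) hd hi' hsh hsh2
    rw [Nat.cast_one, Nat.cast_zero, one_mul, zero_mul, add_zero] at b
    rw [← b, ← hl3, ← a]
    congr 3
    unfold rowX
    simp only [r1, s1]
    change _ = (W * packL (2 ^ w) (vf n1 T1 d f1.1 f1.2) (PL n1)) >>> (w * n1) % 2 ^ w
    rw [Nat.shiftRight_eq_div_pow, one_mul, zero_mul, add_zero]
  · have a := rowCk_spec kY g2 g3
    have b := G.val ⟨1, R, S, 1, 0⟩ (κ := 0) (α := 1) (by omega) le_rfl (d := d) hd hi' hsh hsh2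
    rw [Nat.cast_one, Nat.cast_zero, one_mul, zero_mul, zero_add] at b
    rw [← b, ← hl3, ← a]
    congr 3
    unfold rowX
    simp only [s1]
    rw [one_mul, zero_mul, zero_add]
    rfl

end Spec

end Pool.Agent.Lib_helper5.TB


end

section

/-!
Positions of the normalised forms and the relations in terms of the tables.
-/

namespace Pool.Agent.Lib_helper5.TB

open Finset LK Pool.Agent.LibH4 Pool.Agent.LibH4.Ker Pool.Agent.LibH4.T6 Pool.Agent.LibH4.KF

/-! ### components -/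

/-- inverse of a residue -/
def iv (n ex P : ℕ) : ℕ := Nat.mod (Nat.pow P ex) n

/-- position of a normalised form -/
def pos (n ex PT P R S : ℕ) : ℕ :=
  strict (iv n ex P) fun i =>
    dig PT (Nat.add (Nat.mul n (Nat.mod (Nat.mul R i) n)) (Nat.mod (Nat.mul S i) n))

/-- the discriminant is a non residue -/
def adP (n P R S : ℕ) : Bool :=
  Nat.beq (Nat.mod (Nat.pow (Nat.mod (Nat.add (Nat.mul R R) (Nat.mul (Nat.mul (nat_lit 4) P)
    (Nat.sub n S))) n) (Nat.div n (nat_lit 2))) n) (Nat.sub n (nat_lit 1))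

/-- all coefficients are odd -/
def adO (P R S : ℕ) : Bool :=
  Nat.beq (Nat.mod (Nat.mul P (Nat.mul R S)) (nat_lit 2)) (nat_lit 1)

/-- no condition -/
def adT (_ _ _ : ℕ) : Bool := true

/-- lookup and comparison -/
def nthB (r s : ℕ) (F : List (ℕ × ℕ)) : ℕ → Bool :=
  @List.rec _ (fun _ => ℕ → Bool) (fun _ => false) (fun x _ ih i =>
    @Nat.rec (fun _ => Bool)
      (@Bool.rec (fun _ => Bool) false (Nat.beq x.2 s) (Nat.beq x.1 r)) (fun j _ => ih j) i) F

lemma nthB_spec {r s : ℕ} {F : List (ℕ × ℕ)} {i : ℕ} (h : nthB r s F i = true) :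
    F[i]? = some (r, s) := by
  induction F generalizing i with
  | nil => exact absurd h (by simp [nthB])
  | cons x F ih =>
    cases i with
    | zero =>
      have h' : @Bool.rec (fun _ => Bool) false (Nat.beq x.2 s) (Nat.beq x.1 r) = true := h
      obtain ⟨h1, h2⟩ := boolrec_spec h'
      have e1 := Nat.eq_of_beq_eq_true h1
      have e2 := Nat.eq_of_beq_eq_true h2
      rw [List.getElem?_cons_zero, ← e1, ← e2]
    | succ i =>
      have h' : nthB r s F i = true := h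
      rw [List.getElem?_cons_succ]
      exact ih h'

/-- implication -/
def impB (a b : Bool) : Bool := @Bool.rec (fun _ => Bool) true b a

lemma impB_spec {a b : Bool} (h : impB a b = true) (ha : a = true) : b = true := by
  subst ha; exact h

/-- check of a component -/
def compCk (n ex PT : ℕ) (F : List (ℕ × ℕ)) (A : ℕ → ℕ → ℕ → Bool) : Bool :=
  @Bool.rec (fun _ => Bool) false
    (allR (fun P => strict (iv n ex P) fun i => allR (fun R => allR (fun S =>
      impB (A P R S) (@Bool.rec (fun _ => Bool) false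
        (A (Nat.mod (nat_lit 1) n) (Nat.mod (Nat.mul R i) n) (Nat.mod (Nat.mul S i) n))
        (Nat.beq (Nat.mod (Nat.mul P i) n) (Nat.mod (nat_lit 1) n)))) n) n) n)
    (allR (fun r => allR (fun s => impB (A (Nat.mod (nat_lit 1) n) r s)
      (nthB r s F (dig PT (Nat.add (Nat.mul n r) s)))) n) n)

/-- a component -/
structure CompOK (n ex PT : ℕ) (F : List (ℕ × ℕ)) (A : ℕ → ℕ → ℕ → Bool) : Prop where
  ok : ∀ P R S, P < n → R < n → S < n → A P R S = true → P * iv n ex P % n = 1 % n ∧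
    F[pos n ex PT P R S]? = some (R * iv n ex P % n, S * iv n ex P % n)

lemma compCk_spec {n ex PT : ℕ} {F : List (ℕ × ℕ)} {A : ℕ → ℕ → ℕ → Bool} (hn : 0 < n)
    (h : compCk n ex PT F A = true) : CompOK n ex PT F A where
  ok P R S hP hR hS hA := by
    obtain ⟨h1, h2⟩ := boolrec_spec h
    have a1 := allR_spec h2 P hP
    rw [strict_eq] at a1
    obtain ⟨a2, a3⟩ := boolrec_spec (impB_spec (allR_spec (allR_spec a1 R hR) S hS) hA)
    have a4 := Nat.eq_of_beq_eq_true a2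
    refine ⟨a4, ?_⟩
    have b1 := impB_spec (allR_spec (allR_spec h1 (Nat.mod (Nat.mul R (iv n ex P)) n)
      (Nat.mod_lt _ hn)) (Nat.mod (Nat.mul S (iv n ex P)) n) (Nat.mod_lt _ hn)) a3
    have b2 := nthB_spec b1
    unfold pos
    rw [strict_eq]
    exact b2

/-! ### tables -/

/-- entry of a table -/
def tX (rows : List (ℕ × ℕ)) (len3 i1 i2 i3 : ℕ) : ℕ := dig (rows.getD i1 (0, 0)).1 (i2 * len3 + i3)
/-- entry of a table -/
def tY (rows : List (ℕ × ℕ)) (len3 i1 i2 i3 : ℕ) : ℕ := dig (rows.getD i1 (0, 0)).2 (i2 * len3 + i3)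

/-- check of the reduced character -/
def redCk (n T t l : ℕ) : Bool := allR (fun x => Nat.beq (dig t x) (Nat.mod (chw T x) l)) n

lemma isUnit_of {n ex : ℕ} [NeZero n] {P : ℤ} (h : rs n P * iv n ex (rs n P) % n = 1 % n) :
    (P : ZMod n) * (iv n ex (rs n P) : ℕ) = 1 := by
  have h1 := congrArg (fun x : ℕ => (x : ZMod n)) h
  simp only [ZMod.natCast_mod] at h1
  rw [Nat.cast_mul, rs_cast] at h1
  rw [h1]
  push_cast
  ring

lemma rs_inv {n ex : ℕ} [NeZero n] {P P' R : ℤ} (h : (P : ZMod n) * (iv n ex (rs n P) : ℕ) = 1)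
    (h' : (P : ZMod n) * (P' : ZMod n) = 1) : rs n (R * P') = rs n R * iv n ex (rs n P) % n := by
  symm
  apply rs_of
  push_cast
  rw [rs_cast]
  have e : (P' : ZMod n) = (iv n ex (rs n P) : ℕ) := by
    linear_combination (-(P' : ZMod n)) * h + ((iv n ex (rs n P) : ℕ) : ZMod n) * h'
  rw [e]

lemma inv_dvd {q n : ℕ} {P P' : ℤ} (h : (P : ZMod q) * (P' : ZMod q) = 1) (hn : n ∣ q) :
    (P : ZMod n) * (P' : ZMod n) = 1 := by
  have h1 : ((P * P' - 1 : ℤ) : ZMod q) = 0 := by push_cast; rw [h]; ring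
  rw [ZMod.intCast_zmod_eq_zero_iff_dvd] at h1
  have h2 : ((P * P' - 1 : ℤ) : ZMod n) = 0 := by
    rw [ZMod.intCast_zmod_eq_zero_iff_dvd]
    exact (Int.natCast_dvd_natCast.2 hn).trans h1
  push_cast at h2
  linear_combination h2

lemma cop_of {n : ℕ} {P : ℤ} {y : ZMod n} (h : (P : ZMod n) * y = 1) : P.natAbs.Coprime n := by
  rw [← ZMod.isUnit_iff_coprime]
  have h1 : IsUnit ((P : ℤ) : ZMod n) := IsUnit.of_mul_eq_one _ h
  rcases Int.natAbs_eq P with h2 | h2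
  · rw [h2, Int.cast_natCast] at h1
    exact h1
  · rw [h2, Int.cast_neg, Int.cast_natCast, IsUnit.neg_iff] at h1
    exact h1

lemma exists_inv {n1 n2 n3 : ℕ} {P : ℤ} {y1 : ZMod n1} {y2 : ZMod n2} {y3 : ZMod n3}
    (h1 : (P : ZMod n1) * y1 = 1) (h2 : (P : ZMod n2) * y2 = 1) (h3 : (P : ZMod n3) * y3 = 1) :
    ∃ P' : ℤ, (P : ZMod (n1 * n2 * n3)) * (P' : ZMod (n1 * n2 * n3)) = 1 := by
  have hc : P.natAbs.Coprime (n1 * n2 * n3) :=
    ((cop_of h1).mul_right (cop_of h2)).mul_right (cop_of h3)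
  have hc' : IsCoprime P ((n1 * n2 * n3 : ℕ) : ℤ) := by
    rw [Int.isCoprime_iff_nat_coprime]
    exact hc
  obtain ⟨a, b, hab⟩ := hc'
  refine ⟨a, ?_⟩
  have := congrArg (fun x : ℤ => (x : ZMod (n1 * n2 * n3))) hab
  rw [Int.cast_add, Int.cast_mul, Int.cast_mul, Int.cast_natCast, ZMod.natCast_self, mul_zero,
    add_zero, Int.cast_one] at this
  have this' : (a : ZMod (n1 * n2 * n3)) * (P : ZMod (n1 * n2 * n3)) = 1 := this
  rw [← this']
  exact mul_comm _ _

lemma tri_int {n1 n2 n3 N T1 T2 T3 : ℕ} [NeZero n1] [NeZero n2] [NeZero n3] (x : ℤ) :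
    tri (tabc n1 N T1) (tabc n2 N T2) (tabc n3 N T3) ((x : ℤ) : ZMod (n1 * n2 * n3)) =
      ((chw T1 (rs n1 x) : ℕ) : ZMod N) * ((chw T2 (rs n2 x) : ℕ) : ZMod N) *
        ((chw T3 (rs n3 x) : ℕ) : ZMod N) := by
  unfold tri prodC
  simp only [map_intCast]
  rfl

section Rel

variable {n1 n2 n3 N h l T1 T2 T3 : ℕ} {F1 F2 F3 : List (ℕ × ℕ)} {rows : List (ℕ × ℕ)}
  {ex1 ex2 ex3 PT1 PT2 PT3 t1 t2 t3 : ℕ} {A1 A2 A3 : ℕ → ℕ → ℕ → Bool}
  [NeZero n1] [NeZero n2] [NeZero n3] [NeZero (n1 * n2)] [NeZero (n1 * n2 * n3)]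

/-- the sums of a form in terms of the table -/
theorem TabOK.form (H : TabOK n1 n2 n3 N h T1 T2 T3 F1 F2 F3 rows)
    (ht1 : tabCk n1 N T1 = true) (ht2 : tabCk n2 N T2 = true) (ht3 : tabCk n3 N T3 = true)
    (C1 : CompOK n1 ex1 PT1 F1 A1) (C2 : CompOK n2 ex2 PT2 F2 A2) (C3 : CompOK n3 ex3 PT3 F3 A3)
    (P R S : ℤ) (a1 : A1 (rs n1 P) (rs n1 R) (rs n1 S) = true)
    (a2 : A2 (rs n2 P) (rs n2 R) (rs n2 S) = true) (a3 : A3 (rs n3 P) (rs n3 R) (rs n3 S) = true) :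
    KF.XX (tri (tabc n1 N T1) (tabc n2 N T2) (tabc n3 N T3)) P R S =
      ((chw T1 (rs n1 P) * chw T2 (rs n2 P) * chw T3 (rs n3 P) * (h * tX rows F3.length
        (pos n1 ex1 PT1 (rs n1 P) (rs n1 R) (rs n1 S)) (pos n2 ex2 PT2 (rs n2 P) (rs n2 R) (rs n2 S))
        (pos n3 ex3 PT3 (rs n3 P) (rs n3 R) (rs n3 S))) : ℕ) : ZMod N) ∧
    KF.YX (tri (tabc n1 N T1) (tabc n2 N T2) (tabc n3 N T3)) P R S =
      ((chw T1 (rs n1 P) * chw T2 (rs n2 P) * chw T3 (rs n3 P) * (h * tY rows F3.length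
        (pos n1 ex1 PT1 (rs n1 P) (rs n1 R) (rs n1 S)) (pos n2 ex2 PT2 (rs n2 P) (rs n2 R) (rs n2 S))
        (pos n3 ex3 PT3 (rs n3 P) (rs n3 R) (rs n3 S))) : ℕ) : ZMod N) := by
  have hc := tri_char (n1 := n1) (n2 := n2) (n3 := n3) (tabCk_char ht1) (tabCk_char ht2)
    (tabCk_char ht3)
  obtain ⟨b1, c1⟩ := C1.ok _ _ _ (rs_lt P) (rs_lt R) (rs_lt S) a1
  obtain ⟨b2, c2⟩ := C2.ok _ _ _ (rs_lt P) (rs_lt R) (rs_lt S) a2
  obtain ⟨b3, c3⟩ := C3.ok _ _ _ (rs_lt P) (rs_lt R) (rs_lt S) a3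
  have u1 := isUnit_of b1
  have u2 := isUnit_of b2
  have u3 := isUnit_of b3
  -- inverse modulo the product
  obtain ⟨P', hP'⟩ := exists_inv (n1 := n1) (n2 := n2) (n3 := n3) u1 u2 u3
  have d1 : (P : ZMod n1) * (P' : ZMod n1) = 1 := inv_dvd hP' ⟨n2 * n3, by ring⟩
  have d2 : (P : ZMod n2) * (P' : ZMod n2) = 1 :=
    inv_dvd hP' ⟨n1 * n3, by ring⟩
  have d3 : (P : ZMod n3) * (P' : ZMod n3) = 1 := inv_dvd hP' (Dvd.intro_left _ rfl)
  have hlen := H.len
  set i1 := pos n1 ex1 PT1 (rs n1 P) (rs n1 R) (rs n1 S) with hi1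
  have hi1lt : i1 < rows.length := by
    rw [← hlen]
    by_contra hcon
    rw [List.getElem?_eq_none (by omega)] at c1
    exact absurd c1 (by simp)
  have hrow : rows[i1]? = some (rows.getD i1 (0, 0)) := by
    rw [List.getD_eq_getElem?_getD, List.getElem?_eq_getElem hi1lt]
    rfl
  obtain ⟨eX, eY⟩ := H.val _ _ _ _ _ _ _ c1 c2 c3 hrow (R * P') (S * P') (rs_inv u1 d1)
    (rs_inv u1 d1) (rs_inv u2 d2) (rs_inv u2 d2) (rs_inv u3 d3) (rs_inv u3 d3)
  have eP : tri (tabc n1 N T1) (tabc n2 N T2) (tabc n3 N T3) ((P : ℤ) : ZMod (n1 * n2 * n3)) =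
      ((chw T1 (rs n1 P) * chw T2 (rs n2 P) * chw T3 (rs n3 P) : ℕ) : ZMod N) := by
    rw [tri_int]
    push_cast
    rfl
  constructor
  · rw [XX_scale _ hc.mul hP', eP, eX]
    unfold tX
    push_cast
    ring
  · rw [YX_scale _ hc.mul hP', eP, eY]
    unfold tY
    push_cast
    ring

/-- the value of a form in the reduced relation -/
def fval (n1 n2 n3 l ex1 ex2 ex3 PT1 PT2 PT3 t1 t2 t3 : ℕ) (rows : List (ℕ × ℕ)) (len3 : ℕ)
    (j : Fm) : ℕ :=
  dig t1 (rs n1 j.P) * dig t2 (rs n2 j.P) * dig t3 (rs n3 j.P) *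
    (j.κ * tX rows len3 (pos n1 ex1 PT1 (rs n1 j.P) (rs n1 j.R) (rs n1 j.S))
      (pos n2 ex2 PT2 (rs n2 j.P) (rs n2 j.R) (rs n2 j.S))
      (pos n3 ex3 PT3 (rs n3 j.P) (rs n3 j.R) (rs n3 j.S)) +
    rs l j.α * tY rows len3 (pos n1 ex1 PT1 (rs n1 j.P) (rs n1 j.R) (rs n1 j.S))
      (pos n2 ex2 PT2 (rs n2 j.P) (rs n2 j.R) (rs n2 j.S))
      (pos n3 ex3 PT3 (rs n3 j.P) (rs n3 j.R) (rs n3 j.S)))

lemma redCk_spec {n T t l : ℕ} [NeZero n] (h : redCk n T t l = true) (x : ℤ) :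
    ((dig t (rs n x) : ℕ) : ZMod l) = ((chw T (rs n x) : ℕ) : ZMod l) := by
  have h1 := Nat.eq_of_beq_eq_true (allR_spec h (rs n x) (rs_lt x))
  have h2 : dig t (rs n x) = chw T (rs n x) % l := h1
  rw [h2, ZMod.natCast_mod]

/-- **the reduced relation** -/
theorem TabOK.rel (H : TabOK n1 n2 n3 N h T1 T2 T3 F1 F2 F3 rows) (hN : N = h * l) (h0 : 0 < h)
    (hl : 0 < l)
    (ht1 : tabCk n1 N T1 = true) (ht2 : tabCk n2 N T2 = true) (ht3 : tabCk n3 N T3 = true)
    (C1 : CompOK n1 ex1 PT1 F1 A1) (C2 : CompOK n2 ex2 PT2 F2 A2) (C3 : CompOK n3 ex3 PT3 F3 A3)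
    (r1 : redCk n1 T1 t1 l = true) (r2 : redCk n2 T2 t2 l = true) (r3 : redCk n3 T3 t3 l = true)
    {J : List Fm} (a1 : ∀ j ∈ J, A1 (rs n1 j.P) (rs n1 j.R) (rs n1 j.S) = true)
    (a2 : ∀ j ∈ J, A2 (rs n2 j.P) (rs n2 j.R) (rs n2 j.S) = true)
    (a3 : ∀ j ∈ J, A3 (rs n3 j.P) (rs n3 j.R) (rs n3 j.S) = true)
    (hrel : Rel N (tri (tabc n1 N T1) (tabc n2 N T2) (tabc n3 N T3)) J) :
    (J.map (fval n1 n2 n3 l ex1 ex2 ex3 PT1 PT2 PT3 t1 t2 t3 rows F3.length)).sum % l = 0 := by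
  have : NeZero l := ⟨hl.ne'⟩
  -- the unreduced natural value
  set g : Fm → ℕ := fun j => chw T1 (rs n1 j.P) * chw T2 (rs n2 j.P) * chw T3 (rs n3 j.P) *
    (j.κ * tX rows F3.length (pos n1 ex1 PT1 (rs n1 j.P) (rs n1 j.R) (rs n1 j.S))
      (pos n2 ex2 PT2 (rs n2 j.P) (rs n2 j.R) (rs n2 j.S))
      (pos n3 ex3 PT3 (rs n3 j.P) (rs n3 j.R) (rs n3 j.S)) +
    rs l j.α * tY rows F3.length (pos n1 ex1 PT1 (rs n1 j.P) (rs n1 j.R) (rs n1 j.S))
      (pos n2 ex2 PT2 (rs n2 j.P) (rs n2 j.R) (rs n2 j.S))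
      (pos n3 ex3 PT3 (rs n3 j.P) (rs n3 j.R) (rs n3 j.S))) with hg
  have hhN : ((h : ℕ) : ZMod N) * ((l : ℕ) : ZMod N) = 0 := by
    rw [← Nat.cast_mul, ← hN, ZMod.natCast_self]
  have e1 : ∀ j ∈ J, (j.κ : ZMod N) * KF.XX (tri (tabc n1 N T1) (tabc n2 N T2) (tabc n3 N T3))
      j.P j.R j.S + (j.α : ZMod N) * KF.YX (tri (tabc n1 N T1) (tabc n2 N T2) (tabc n3 N T3))
      j.P j.R j.S = ((h * g j : ℕ) : ZMod N) := by
    intro j hj
    obtain ⟨eX, eY⟩ := H.form ht1 ht2 ht3 C1 C2 C3 j.P j.R j.S (a1 j hj) (a2 j hj) (a3 j hj)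
    rw [eX, eY, hg]
    have e : (j.α : ZMod N) = ((rs l j.α : ℕ) : ZMod N) +
        (l : ZMod N) * ((j.α / l : ℤ) : ZMod N) := by
      have e1 : (rs l j.α : ℤ) = j.α % l := by
        unfold rs
        rw [ZMod.val_intCast]
      have e2 := Int.emod_add_mul_ediv j.α l
      rw [← e1] at e2
      have e3 := congrArg (fun x : ℤ => (x : ZMod N)) e2
      rw [← e3]
      push_cast
      ring
    rw [e]
    push_cast
    linear_combination (((j.α / l : ℤ) : ZMod N) * ((chw T1 (rs n1 j.P) : ℕ) : ZMod N) *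
      ((chw T2 (rs n2 j.P) : ℕ) : ZMod N) * ((chw T3 (rs n3 j.P) : ℕ) : ZMod N) *
      ((tY rows F3.length (pos n1 ex1 PT1 (rs n1 j.P) (rs n1 j.R) (rs n1 j.S))
      (pos n2 ex2 PT2 (rs n2 j.P) (rs n2 j.R) (rs n2 j.S))
      (pos n3 ex3 PT3 (rs n3 j.P) (rs n3 j.R) (rs n3 j.S)) : ℕ) : ZMod N)) * hhN
  unfold LK.Rel at hrel
  rw [lsum_congr e1, ← cast_lsum] at hrel
  have e2 : (J.map fun j => h * g j).sum = h * (J.map g).sum := by
    rw [List.sum_map_mul_left]
  rw [e2, ZMod.natCast_eq_zero_iff, hN] at hrel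
  have e3 : l ∣ (J.map g).sum := Nat.dvd_of_mul_dvd_mul_left h0 hrel
  have e4 : (((J.map (fval n1 n2 n3 l ex1 ex2 ex3 PT1 PT2 PT3 t1 t2 t3 rows F3.length)).sum : ℕ) :
      ZMod l) = (((J.map g).sum : ℕ) : ZMod l) := by
    rw [cast_lsum, cast_lsum]
    apply lsum_congr
    intro j _
    rw [hg]
    unfold fval
    push_cast
    rw [redCk_spec r1, redCk_spec r2, redCk_spec r3]
  rw [← Nat.dvd_iff_mod_eq_zero, ← ZMod.natCast_eq_zero_iff, e4, ZMod.natCast_eq_zero_iff]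
  exact e3

end Rel

end Pool.Agent.Lib_helper5.TB


end

section

/-!
Constant words: kernel functions of the elimination.
-/

namespace Pool.Agent.LibH4.CW

open Pool.Agent.LibH4.Ker Pool.Agent.Lib_helper5.TB

/-! ### numbers and lists -/

/-- digit in base `2 ^ 16` -/
def d16 (A i : ℕ) : ℕ := Nat.mod (Nat.shiftRight A (Nat.mul (nat_lit 16) i)) (nat_lit 65536)

/-- digit in base `2 ^ 32` -/
def d32 (A i : ℕ) : ℕ := Nat.mod (Nat.shiftRight A (Nat.mul (nat_lit 32) i)) (nat_lit 4294967296)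

/-- byte `1` -/
def by1 (e : ℕ) : ℕ := Nat.mod (Nat.shiftRight e (nat_lit 8)) (nat_lit 256)
/-- byte `2` -/
def by2 (e : ℕ) : ℕ := Nat.mod (Nat.shiftRight e (nat_lit 16)) (nat_lit 256)
/-- byte `3` -/
def by3 (e : ℕ) : ℕ := Nat.shiftRight e (nat_lit 24)

/-- packing of the values on a list in base `V` -/
def cat {α : Type} (V : ℕ) (f : α → ℕ) (L : List α) : ℕ :=
  @List.rec α (fun _ => ℕ) (nat_lit 0) (fun x _ ih => Nat.add (Nat.mod (f x) V) (Nat.mul V ih)) L

/-- the list `0, …, n-1` -/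
def rng (n : ℕ) : List ℕ :=
  @Nat.rec (fun _ => List ℕ → List ℕ) (fun acc => acc) (fun m ih acc => ih (m :: acc)) n []

/-- map -/
def mapL {α β : Type} (f : α → β) (L : List α) : List β :=
  @List.rec α (fun _ => List β) [] (fun x _ ih => f x :: ih) L

/-- filter -/
def filS {α β : Type} (p : α → Bool) (L : List α) : (List α → β) → β :=
  @List.rec α (fun _ => (List α → β) → β) (fun k => k [])
    (fun x _ ih k => @Bool.rec (fun _ => β) (ih k) (ih fun rest => k (x :: rest)) (p x)) L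

/-- entry of a list, failure outside -/
def nthK {α : Type} (L : List α) : ℕ → (α → Bool) → Bool :=
  @List.rec α (fun _ => ℕ → (α → Bool) → Bool) (fun _ _ => false)
    (fun x _ ih i k => @Nat.rec (fun _ => Bool) (k x) (fun j _ => ih j k) i) L

/-- conjunction -/
def andB (p q : Bool) : Bool := @Bool.rec (fun _ => Bool) false q p

/-- length of a list -/
def lenL {α : Type} (L : List α) : ℕ :=
  @List.rec α (fun _ => ℕ) (nat_lit 0) (fun _ _ ih => Nat.succ ih) L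

/-! ### orbits -/

/-- the middle coefficient of the next state -/
def nxR (n a R S : ℕ) : ℕ :=
  Nat.mod (Nat.add (Nat.mul (Nat.mul (nat_lit 2) a) S) (Nat.sub n R)) n
/-- the last coefficient of the next state -/
def nxS (n a P R S : ℕ) : ℕ :=
  Nat.mod (Nat.add (Nat.add P (Nat.mul R a)) (Nat.mul (Nat.sub n S) (Nat.mul a a))) n

/-- record of a state -/
def ent (n ex PT u P R S : ℕ) : ℕ :=
  Nat.add (pos n ex PT P R (Nat.mod (Nat.sub n S) n)) (Nat.add (Nat.mul (nat_lit 256) P)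
    (Nat.add (Nat.mul (nat_lit 65536) (Nat.mod (Nat.mul R (iv n ex S)) n))
      (Nat.mul (nat_lit 16777216) (Nat.mod (Nat.mul u (iv n ex S)) n))))

/-- records of an orbit -/
def orbS (n ex PT a u k : ℕ) : ℕ → ℕ → ℕ → ℕ :=
  @Nat.rec (fun _ => ℕ → ℕ → ℕ → ℕ) (fun _ _ _ => (nat_lit 0)) (fun _ ih P R S =>
    Nat.add (ent n ex PT u P R S) (Nat.mul (nat_lit 4294967296)
      (ih S (nxR n a R S) (nxS n a P R S)))) k

/-- the orbit returns -/
def retS (n a P0 R0 S0 k : ℕ) : ℕ → ℕ → ℕ → Bool :=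
  @Nat.rec (fun _ => ℕ → ℕ → ℕ → Bool) (fun P R S =>
    andB (Nat.beq P P0) (andB (Nat.beq R R0) (Nat.beq S S0))) (fun _ ih P R S =>
      ih S (nxR n a R S) (nxS n a P R S)) k

/-- condition on the first state -/
def stc (par : Bool) (n a : ℕ) (x : ℕ × ℕ) : Bool :=
  @Bool.rec (fun _ => Bool) (Nat.beq x.2 (Nat.mod (Nat.sub n (nat_lit 1)) n))
    (Nat.beq x.1 (Nat.mod (Nat.mul a (Nat.sub n x.2)) n)) par

/-- static data of a component -/
structure Cmp where
  /-- modulus -/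
  n : ℕ
  /-- exponent of the inverse -/
  ex : ℕ
  /-- positions -/
  PT : ℕ
  /-- normalised forms -/
  F : List (ℕ × ℕ)

/-- data of a component for a quotient -/
structure CC where
  /-- modulus -/
  n : ℕ
  /-- period -/
  pi : ℕ
  /-- number of first states -/
  cnt : ℕ
  /-- orbits -/
  tab : ℕ

/-- orbit of a first state -/
def orbX (n ex PT a pi : ℕ) (x : ℕ × ℕ) : ℕ :=
  orbS n ex PT a (Nat.mod (Nat.sub n x.2) n) pi (Nat.mod (nat_lit 1) n) x.1
    (Nat.mod (Nat.sub n x.2) n)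

/-- check of the period -/
def retX (n a pi : ℕ) (x : ℕ × ℕ) : Bool :=
  retS n a (Nat.mod (nat_lit 1) n) x.1 (Nat.mod (Nat.sub n x.2) n) pi (Nat.mod (nat_lit 1) n) x.1
    (Nat.mod (Nat.sub n x.2) n)

/-- compilation of a component -/
def mkC (par : Bool) (a : ℕ) (c : Cmp) (pi : ℕ) (k : CC → Bool) : Bool :=
  filS (stc par c.n a) c.F fun sl => andB (andB (Nat.ble (nat_lit 1) pi) (allL (retX c.n a pi) sl))
    (strict (Nat.pow (nat_lit 2) (Nat.mul (nat_lit 32) pi)) fun V =>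
      strict (cat V (orbX c.n c.ex c.PT a pi) sl) fun tab => k ⟨c.n, pi, lenL sl, tab⟩)

/-! ### tables of the relations -/

/-- static data of a relation -/
structure RD where
  /-- first modulus -/
  n1 : ℕ
  /-- second modulus -/
  n2 : ℕ
  /-- third modulus -/
  n3 : ℕ
  /-- modulus of the values -/
  l : ℕ
  /-- first character -/
  t1 : ℕ
  /-- second character -/
  t2 : ℕ
  /-- third character -/
  t3 : ℕ
  /-- table -/
  rows : List (ℕ × ℕ)
  /-- length of the second component -/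
  len2 : ℕ
  /-- length of the third component -/
  len3 : ℕ

/-- rows along an orbit -/
def rlD (RX RY w V t1 e : ℕ) : (ℕ × ℕ) × ℕ :=
  ((Nat.mod (Nat.shiftRight RX (Nat.mul w (Nat.mod e (nat_lit 256)))) V,
    Nat.mod (Nat.shiftRight RY (Nat.mul w (Nat.mod e (nat_lit 256)))) V), dig t1 (by1 e))

/-- record of the second and third component -/
def e23a (l len3 t2 t3 e2 e3 : ℕ) : ℕ :=
  Nat.add (Nat.mul (nat_lit 8) (Nat.add (Nat.mul (Nat.mod e2 (nat_lit 256)) len3)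
      (Nat.mod e3 (nat_lit 256))))
    (Nat.mul (nat_lit 65536) (Nat.mod (Nat.mul (dig t2 (by1 e2)) (dig t3 (by1 e3))) l))

/-- record of the second and third component -/
def e23d (l len3 t2 t3 tab2 off2 p2 tab3 off3 p3 i : ℕ) : ℕ :=
  e23a l len3 t2 t3 (d32 tab2 (Nat.add off2 (Nat.mod i p2))) (d32 tab3 (Nat.add off3 (Nat.mod i p3)))

/-- records of the second and third component -/
def e23 (l len3 t2 t3 tab2 off2 p2 tab3 off3 p3 : ℕ) (R : List ℕ) : ℕ :=
  cat (nat_lit 16777216) (e23d l len3 t2 t3 tab2 off2 p2 tab3 off3 p3) R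

/-- values along the orbit of the first component -/
def mainL (l a2 : ℕ) (fin : ℕ → ℕ → ℕ) (L : List ((ℕ × ℕ) × ℕ)) : ℕ → ℕ → ℕ :=
  @List.rec _ (fun _ => ℕ → ℕ → ℕ) fin (fun x _ ih E acc =>
    Nat.add (Nat.add
      (Nat.mod (Nat.add acc (Nat.mul (nat_lit 6) (Nat.mul (Nat.mul x.2
        (Nat.shiftRight (Nat.mod E (nat_lit 16777216)) (nat_lit 16)))
        (Nat.mod (Nat.shiftRight x.1.1 (Nat.mod (Nat.mod E (nat_lit 16777216)) (nat_lit 65536)))
          (nat_lit 256))))) l)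
      (Nat.mul (nat_lit 256) (Nat.mod (Nat.mul (Nat.mul x.2
        (Nat.shiftRight (Nat.mod E (nat_lit 16777216)) (nat_lit 16)))
        (Nat.mod (Nat.shiftRight x.1.2 (Nat.mod (Nat.mod E (nat_lit 16777216)) (nat_lit 65536)))
          (nat_lit 256))) l)))
      (Nat.mul (nat_lit 65536) (ih (Nat.shiftRight E (nat_lit 24))
        (Nat.mod (Nat.add
          (Nat.mod (Nat.add acc (Nat.mul (nat_lit 6) (Nat.mul (Nat.mul x.2
            (Nat.shiftRight (Nat.mod E (nat_lit 16777216)) (nat_lit 16)))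
            (Nat.mod (Nat.shiftRight x.1.1 (Nat.mod (Nat.mod E (nat_lit 16777216)) (nat_lit 65536)))
              (nat_lit 256))))) l)
          (Nat.mul a2 (Nat.mod (Nat.mul (Nat.mul x.2
            (Nat.shiftRight (Nat.mod E (nat_lit 16777216)) (nat_lit 16)))
            (Nat.mod (Nat.shiftRight x.1.2 (Nat.mod (Nat.mod E (nat_lit 16777216)) (nat_lit 65536)))
              (nat_lit 256))) l))) l)))) L

/-- values along the joint orbit -/
def mainQ (l a2 a0 : ℕ) (L : List ((ℕ × ℕ) × ℕ)) (q : ℕ) : ℕ → ℕ → ℕ :=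
  @Nat.rec (fun _ => ℕ → ℕ → ℕ) (fun _ acc => Nat.mod (Nat.add acc (Nat.sub l a0)) l)
    (fun _ ih => mainL l a2 ih L) q

/-- value of a row -/
def rv (w r off : ℕ) : ℕ := Nat.mul w (Nat.mod (Nat.shiftRight r off) (nat_lit 256))

/-- first value -/
def iniA (l k0 k1 w off rX rY : ℕ) : ℕ :=
  Nat.mod (Nat.add (Nat.mul k0 (rv w rX off)) (Nat.mul k1 (rv w rY off))) l

/-- first value -/
def ini (l k0 k1 e : ℕ) (x : (ℕ × ℕ) × ℕ) : ℕ :=
  iniA l k0 k1 (Nat.mul x.2 (Nat.shiftRight e (nat_lit 16))) (Nat.mod e (nat_lit 65536)) x.1.1 x.1.2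

/-- first element -/
def hd (L : List ((ℕ × ℕ) × ℕ)) : (ℕ × ℕ) × ℕ :=
  @List.rec _ (fun _ => (ℕ × ℕ) × ℕ) (((nat_lit 0), (nat_lit 0)), (nat_lit 0)) (fun x _ _ => x) L

/-- the string of an orbit -/
def str (l a2 k0 k1 q E : ℕ) (L : List ((ℕ × ℕ) × ℕ)) : ℕ :=
  strict (ini l k0 k1 (Nat.mod E (nat_lit 16777216)) (hd L)) fun a0 => mainQ l a2 a0 L q E a0

/-- strings of the first component -/
def tab1 (l a2 k0 k1 q t1 RX RY w V V3 p1 T1 n1 E : ℕ) : ℕ :=
  cat V3 (str l a2 k0 k1 q E) (mapL (fun o =>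
    mapL (fun i => rlD RX RY w V t1 (d32 T1 (Nat.add (Nat.mul p1 o) i))) (rng p1)) (rng n1))

/-- the table of a relation -/
def tab3 (l a2 k0 k1 len3 t1 t2 t3 q RX RY w V L V1 V2 V3 : ℕ) (c1 c2 c3 : CC) : ℕ :=
  cat V1 (fun o2 => cat V2 (fun o3 =>
    strict (e23 l len3 t2 t3 c2.tab (Nat.mul c2.pi o2) c2.pi c3.tab (Nat.mul c3.pi o3)
      c3.pi (rng L)) fun E => tab1 l a2 k0 k1 q t1 RX RY w V V3 c1.pi c1.tab c1.cnt E)
    (rng c3.cnt)) (rng c2.cnt)

/-- the table of a relation -/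
def tabR (r : RD) (a2 k0 k1 L : ℕ) (c1 c2 c3 : CC) : ℕ :=
  strict (Nat.pow (nat_lit 2) (Nat.mul (nat_lit 16) (Nat.succ L))) fun V3 =>
  strict (Nat.pow V3 c1.cnt) fun V2 =>
  strict (Nat.pow V2 c3.cnt) fun V1 =>
  strict (Nat.mul (nat_lit 8) (Nat.mul r.len2 r.len3)) fun w =>
  strict (Nat.pow (nat_lit 2) w) fun V =>
  strict (cat V (fun x => x.1) r.rows) fun RX =>
  strict (cat V (fun x => x.2) r.rows) fun RY =>
    tab3 r.l a2 k0 k1 r.len3 r.t1 r.t2 r.t3 (Nat.div L c1.pi) RX RY w V L V1 V2 V3 c1 c2 c3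

/-! ### the search -/

/-- compiled levels -/
inductive Lv where
  /-- choice of a first state -/
  | M (cnt : ℕ)
  /-- relation -/
  | R (j1 j2 j3 jl n1 n3 L W l X0 X1 tab tl pl : ℕ)
  /-- genus -/
  | G (j pl tl : ℕ)

/-- check of a value -/
def chkD (l c j d B : ℕ) : Bool :=
  Nat.beq (Nat.mod (Nat.add (Nat.mod d (nat_lit 256)) (Nat.add (Nat.mul j c)
    (Nat.mul (Nat.sub l B) (Nat.shiftRight d (nat_lit 8))))) l) (nat_lit 0)

/-- check of a value -/
def chk (L l c s bs pl n : ℕ) : Bool :=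
  chkD l c (Nat.div n L) (d16 s (Nat.mod n L)) (by2 (d32 bs (Nat.mod n pl)))

/-- branch -/
def br (p : Bool) (r : Bool) : Bool := @Bool.rec (fun _ => Bool) true r p

/-- one lift -/
def lift1 (n' K' : ℕ) (p : ℕ → Bool) (ih : ℕ → ℕ → Bool) : Bool := br (p n') (ih n' K')

/-- loop over the lifts -/
def lift2 (q n K : ℕ) (p : ℕ → Bool) (ih : ℕ → ℕ → Bool) : Bool :=
  allR (fun t => lift1 (Nat.add n (Nat.mul K t)) (Nat.mul K q) p ih) q

/-- loop over the lifts -/
def lift (X n K : ℕ) (p : ℕ → Bool) (ih : ℕ → ℕ → Bool) : Bool :=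
  lift2 (Nat.div X (Nat.gcd K X)) n K p ih

/-- relation level -/
def lvR2 (L l X0 X1 s bs c pl n K : ℕ) (ih : ℕ → ℕ → Bool) : Bool :=
  lift (@Bool.rec (fun _ => ℕ) X1 X0 (Nat.beq c (nat_lit 0))) n K (chk L l c s bs pl) ih

/-- relation level -/
def lvR1 (L l X0 X1 s bs pl n K : ℕ) (ih : ℕ → ℕ → Bool) : Bool :=
  lvR2 L l X0 X1 s bs (d16 s L) pl n K ih

/-- relation level -/
def lvR (L W l X0 X1 tab tl pl idx ol n K : ℕ) (ih : ℕ → ℕ → Bool) : Bool :=
  lvR1 L l X0 X1 (Nat.mod (Nat.shiftRight tab (Nat.mul W idx)) (Nat.pow (nat_lit 2) W))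
    (Nat.shiftRight tl (Nat.mul (nat_lit 32) (Nat.mul pl ol))) pl n K ih

/-- genus level -/
def lvG1 (bs pl n K : ℕ) (ih : ℕ → ℕ → Bool) : Bool :=
  lift pl n K (fun n => Nat.beq (by3 (d32 bs (Nat.mod n pl))) (nat_lit 3)) ih

/-- genus level -/
def lvG (pl tl o n K : ℕ) (ih : ℕ → ℕ → Bool) : Bool :=
  lvG1 (Nat.shiftRight tl (Nat.mul (nat_lit 32) (Nat.mul pl o))) pl n K ih

/-- entry of the environment -/
def gt (env j : ℕ) : ℕ := Nat.mod (Nat.shiftRight env (Nat.mul (nat_lit 8) j)) (nat_lit 256)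

/-- the search -/
noncomputable def dfs (ls : List Lv) : ℕ → ℕ → ℕ → Bool :=
  @List.rec Lv (fun _ => ℕ → ℕ → ℕ → Bool) (fun _ _ _ => false) (fun v _ ih env n K =>
    @Lv.rec (fun _ => Bool)
      (fun cnt => allR (fun o => ih (Nat.add o (Nat.mul (nat_lit 256) env)) n K) cnt)
      (fun j1 j2 j3 jl n1 n3 L W l X0 X1 tab tl pl =>
        lvR L W l X0 X1 tab tl pl
          (Nat.add (Nat.mul (Nat.add (Nat.mul (gt env j2) n3) (gt env j3)) n1) (gt env j1))
          (gt env jl) n K (ih env))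
      (fun j pl tl => lvG pl tl (gt env j) n K (ih env)) v) ls

/-! ### compilation -/

/-- a chain -/
inductive Ch where
  /-- component -/
  | M (c pi : ℕ)
  /-- relation -/
  | R (r j1 j2 j3 jl : ℕ)
  /-- genus -/
  | G (j : ℕ)

/-- common multiple -/
def lcmS (x y : ℕ) : ℕ := Nat.mul (Nat.div x (Nat.gcd x y)) y

/-- residue of a negative -/
def neg (l x : ℕ) : ℕ := Nat.mod (Nat.mul (Nat.sub l (nat_lit 1)) x) l

/-- compilation of a relation -/
def mkR (par : Bool) (a : ℕ) (r : RD) (j1 j2 j3 jl : ℕ) (c1 c2 c3 cl : CC)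
    (k : Lv → Bool) : Bool :=
  andB (andB (Nat.beq c1.n r.n1) (andB (Nat.beq c2.n r.n2) (andB (Nat.beq c3.n r.n3)
    (Nat.beq cl.n r.l))))
  (strict (lcmS c1.pi (lcmS c2.pi c3.pi)) fun L =>
  strict (neg r.l (Nat.mul (nat_lit 2) a)) fun a2 =>
  strict (neg r.l (@Bool.rec (fun _ => ℕ) (nat_lit 3) (nat_lit 6) par)) fun k0 =>
  strict (lcmS L cl.pi) fun X0 =>
  strict (tabR r a2 k0 (@Bool.rec (fun _ => ℕ) (nat_lit 0) a par) L c1 c2 c3) fun tab =>
    k (Lv.R j1 j2 j3 jl c1.cnt c3.cnt L (Nat.mul (nat_lit 16) (Nat.succ L)) r.l X0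
      (Nat.mul r.l X0) tab cl.tab cl.pi))

/-- compilation and search -/
noncomputable def run (par : Bool) (a : ℕ) (cl : List Cmp) (rl : List RD) (chs : List Ch) :
    List CC → (List Lv → Bool) → Bool :=
  @List.rec Ch (fun _ => List CC → (List Lv → Bool) → Bool) (fun _ k => k [])
    (fun h _ ih ctx k => @Ch.rec (fun _ => Bool)
      (fun c pi => nthK cl c fun c => mkC par a c pi fun cc =>
        ih (cc :: ctx) fun rest => k (Lv.M cc.cnt :: rest))
      (fun r j1 j2 j3 jl => nthK rl r fun r =>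
        nthK ctx j1 fun c1 => nthK ctx j2 fun c2 => nthK ctx j3 fun c3 =>
        nthK ctx jl fun cl => mkR par a r j1 j2 j3 jl c1 c2 c3 cl fun v =>
          ih ctx fun rest => k (v :: rest))
      (fun j => nthK ctx j fun c => andB (Nat.beq c.n (nat_lit 4)) (andB par
        (ih ctx fun rest => k (Lv.G j c.pi c.tab :: rest)))) h) chs

/-- the elimination -/
noncomputable def elim (par : Bool) (a : ℕ) (cl : List Cmp) (rl : List RD) (chs : List Ch) :
    Bool :=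
  run par a cl rl chs [] fun ls => dfs ls (nat_lit 0) (nat_lit 0) (nat_lit 1)

end Pool.Agent.LibH4.CW


end

section

/-!
Constant words: lists and digits.
-/

namespace Pool.Agent.LibH4.CW

open Pool.Agent.LibH4.Ker Pool.Agent.Lib_helper5.TB

/-! ### lists -/

lemma rng_aux (n : ℕ) (acc : List ℕ) :
    @Nat.rec (fun _ => List ℕ → List ℕ) (fun acc => acc) (fun m ih acc => ih (m :: acc)) n acc =
      List.range n ++ acc := by
  induction n generalizing acc with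
  | zero => rfl
  | succ n ih =>
    change @Nat.rec (fun _ => List ℕ → List ℕ) (fun acc => acc) (fun m ih acc => ih (m :: acc)) n
      (n :: acc) = _
    rw [ih, List.range_succ, List.append_assoc]
    rfl

lemma rng_eq (n : ℕ) : rng n = List.range n := by
  unfold rng
  rw [rng_aux, List.append_nil]

lemma mapL_eq {α β : Type} (f : α → β) (L : List α) : mapL f L = L.map f := by
  induction L with
  | nil => rfl
  | cons x L ih =>
    change f x :: mapL f L = _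
    rw [ih]; rfl

lemma lenL_eq {α : Type} (L : List α) : lenL L = L.length := by
  induction L with
  | nil => rfl
  | cons x L ih =>
    change Nat.succ (lenL L) = _
    rw [ih]; rfl

lemma filS_eq {α β : Type} (p : α → Bool) (L : List α) (k : List α → β) :
    filS p L k = k (L.filter p) := by
  induction L generalizing k with
  | nil => rfl
  | cons x L ih =>
    change @Bool.rec (fun _ => β) (filS p L k) (filS p L fun rest => k (x :: rest)) (p x) = _
    rw [List.filter_cons]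
    cases p x with
    | true => simpa using ih _
    | false => simpa using ih _

lemma nthK_spec {α : Type} {L : List α} {i : ℕ} {k : α → Bool} (h : nthK L i k = true) :
    ∃ x, L[i]? = some x ∧ k x = true := by
  induction L generalizing i with
  | nil => exact absurd h (by simp [nthK])
  | cons x L ih =>
    cases i with
    | zero => exact ⟨x, by simp, h⟩
    | succ i =>
      obtain ⟨y, h1, h2⟩ := ih (i := i) h
      exact ⟨y, by simpa using h1, h2⟩

lemma andB_spec {p q : Bool} (h : andB p q = true) : p = true ∧ q = true := by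
  cases p with
  | true => exact ⟨rfl, h⟩
  | false => exact absurd h (by simp [andB])

lemma br_spec {p q : Bool} (h : br p q = true) (hp : p = true) : q = true := by
  subst hp; exact h

/-! ### digits -/

lemma shr_mod (X W k j : ℕ) (h : k + j ≤ W) :
    ((X % 2 ^ W) >>> k) % 2 ^ j = (X >>> k) % 2 ^ j := by
  apply Nat.eq_of_testBit_eq
  intro i
  rw [Nat.testBit_mod_two_pow, Nat.testBit_mod_two_pow, Nat.testBit_shiftRight,
    Nat.testBit_shiftRight, Nat.testBit_mod_two_pow]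
  by_cases hi : i < j
  · have : k + i < W := by omega
    simp [hi, this]
  · simp [hi]

lemma add_shr (w A B : ℕ) (hA : A < 2 ^ w) : (A + 2 ^ w * B) >>> w = B := by
  rw [Nat.shiftRight_eq_div_pow, Nat.add_mul_div_left _ _ (by positivity),
    Nat.div_eq_of_lt hA, zero_add]

lemma add_mod (w A B : ℕ) (hA : A < 2 ^ w) : (A + 2 ^ w * B) % 2 ^ w = A := by
  rw [Nat.add_mul_mod_self_left, Nat.mod_eq_of_lt hA]

/-- digits of a packed list -/
lemma cat_spec {α : Type} (w : ℕ) (f : α → ℕ) (L : List α) (i : ℕ) (x : α)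
    (h : L[i]? = some x) : (cat (2 ^ w) f L >>> (w * i)) % 2 ^ w = f x % 2 ^ w := by
  induction L generalizing i with
  | nil => simp at h
  | cons y L ih =>
    have e : cat (2 ^ w) f (y :: L) = f y % 2 ^ w + 2 ^ w * cat (2 ^ w) f L := rfl
    have hlt : f y % 2 ^ w < 2 ^ w := Nat.mod_lt _ (by positivity)
    cases i with
    | zero =>
      simp only [List.getElem?_cons_zero, Option.some.injEq] at h
      subst h
      rw [mul_zero, Nat.shiftRight_zero, e, add_mod _ _ _ hlt]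
    | succ i =>
      rw [List.getElem?_cons_succ] at h
      rw [e, mul_add, mul_one, add_comm (w * i) w, Nat.shiftRight_add, add_shr _ _ _ hlt]
      exact ih i h

/-- parts of the digits of a packed list -/
lemma cat_part {α : Type} (w k j : ℕ) (hkj : k + j ≤ w) (f : α → ℕ) (L : List α) (i : ℕ) (x : α)
    (h : L[i]? = some x) : (cat (2 ^ w) f L >>> (w * i + k)) % 2 ^ j = (f x >>> k) % 2 ^ j := by
  have h1 := cat_spec w f L i x h
  have h2 := shr_mod (cat (2 ^ w) f L >>> (w * i)) w k j hkj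
  have h3 := shr_mod (f x) w k j hkj
  rw [Nat.shiftRight_add, ← h2, h1, h3]

lemma range_get {n i : ℕ} (h : i < n) : (List.range n)[i]? = some i := by
  rw [List.getElem?_range h]

lemma d16_eq (A i : ℕ) : d16 A i = (A >>> (16 * i)) % 2 ^ 16 := rfl
lemma d32_eq (A i : ℕ) : d32 A i = (A >>> (32 * i)) % 2 ^ 32 := rfl

lemma lcmS_eq (x y : ℕ) : lcmS x y = Nat.lcm x y := by
  change x / Nat.gcd x y * y = _
  rw [Nat.lcm, Nat.div_mul_right_comm (Nat.gcd_dvd_left x y)]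

end Pool.Agent.LibH4.CW


end

section

/-!
Constant words: compiled components.
-/

namespace Pool.Agent.LibH4.CW

open Pool.Agent.LibH4.Ker Pool.Agent.Lib_helper5.TB

/-- next state -/
def nx (n a : ℕ) (f : ℕ × ℕ × ℕ) : ℕ × ℕ × ℕ := (f.2.2, nxR n a f.2.1 f.2.2, nxS n a f.1 f.2.1 f.2.2)

/-- first state -/
def h0 (n : ℕ) (x : ℕ × ℕ) : ℕ × ℕ × ℕ := (1 % n, x.1, (n - x.2) % n)

/-- orbit -/
def hs (n a : ℕ) (x : ℕ × ℕ) (i : ℕ) : ℕ × ℕ × ℕ := (nx n a)^[i] (h0 n x)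

lemma hs_succ (n a : ℕ) (x : ℕ × ℕ) (i : ℕ) : hs n a x (i + 1) = nx n a (hs n a x i) :=
  Function.iterate_succ_apply' _ _ _

/-- record -/
def hE (n ex PT a : ℕ) (x : ℕ × ℕ) (i : ℕ) : ℕ :=
  ent n ex PT ((n - x.2) % n) (hs n a x i).1 (hs n a x i).2.1 (hs n a x i).2.2

section

variable {n ex PT a : ℕ}

/-- bounded states -/
def Bd (n : ℕ) (f : ℕ × ℕ × ℕ) : Prop := f.1 < n ∧ f.2.1 < n ∧ f.2.2 < n

lemma Bd_nx (hn : 0 < n) {f : ℕ × ℕ × ℕ} (h : Bd n f) : Bd n (nx n a f) :=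
  ⟨h.2.2, Nat.mod_lt _ hn, Nat.mod_lt _ hn⟩

lemma Bd_hs (hn : 0 < n) {x : ℕ × ℕ} (hx : x.1 < n) (i : ℕ) : Bd n (hs n a x i) := by
  induction i with
  | zero => exact ⟨Nat.mod_lt _ hn, hx, Nat.mod_lt _ hn⟩
  | succ i ih => rw [hs_succ]; exact Bd_nx hn ih

lemma pos_lt (P R S : ℕ) : pos n ex PT P R S < 256 := by
  unfold pos
  rw [strict_eq]
  exact Nat.mod_lt _ (by norm_num)

lemma ent_eq (u P R S : ℕ) : ent n ex PT u P R S = pos n ex PT P R ((n - S) % n) +
    (256 * P + (65536 * (R * iv n ex S % n) + 16777216 * (u * iv n ex S % n))) := rfl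

lemma ent_lt (hn : 0 < n) (hn2 : n ≤ 256) {u P R S : ℕ} (hP : P < n) :
    ent n ex PT u P R S < 2 ^ 32 := by
  rw [ent_eq]
  have h1 := pos_lt (n := n) (ex := ex) (PT := PT) P R ((n - S) % n)
  have h2 := Nat.mod_lt (R * iv n ex S) hn
  have h3 := Nat.mod_lt (u * iv n ex S) hn
  have e : (2 : ℕ) ^ 32 = 4294967296 := by norm_num
  rw [e]
  omega

lemma ent_pos (hn : 0 < n) (hn2 : n ≤ 256) {u P R S : ℕ} (hP : P < n) :
    ent n ex PT u P R S % 256 = pos n ex PT P R ((n - S) % n) := by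
  rw [ent_eq]
  have h1 := pos_lt (n := n) (ex := ex) (PT := PT) P R ((n - S) % n)
  omega

lemma ent_by1 (hn : 0 < n) (hn2 : n ≤ 256) {u P R S : ℕ} (hP : P < n) :
    by1 (ent n ex PT u P R S) = P := by
  have e : by1 (ent n ex PT u P R S) = (ent n ex PT u P R S >>> 8) % 256 := rfl
  rw [e, Nat.shiftRight_eq_div_pow, ent_eq]
  have h1 := pos_lt (n := n) (ex := ex) (PT := PT) P R ((n - S) % n)
  omega

lemma ent_by2 (hn : 0 < n) (hn2 : n ≤ 256) {u P R S : ℕ} (hP : P < n) :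
    by2 (ent n ex PT u P R S) = R * iv n ex S % n := by
  have e : by2 (ent n ex PT u P R S) = (ent n ex PT u P R S >>> 16) % 256 := rfl
  rw [e, Nat.shiftRight_eq_div_pow, ent_eq]
  have h1 := pos_lt (n := n) (ex := ex) (PT := PT) P R ((n - S) % n)
  have h2 := Nat.mod_lt (R * iv n ex S) hn
  omega

lemma ent_by3 (hn : 0 < n) (hn2 : n ≤ 256) {u P R S : ℕ} (hP : P < n) :
    by3 (ent n ex PT u P R S) = u * iv n ex S % n := by
  have e : by3 (ent n ex PT u P R S) = ent n ex PT u P R S >>> 24 := rfl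
  rw [e, Nat.shiftRight_eq_div_pow, ent_eq]
  have h1 := pos_lt (n := n) (ex := ex) (PT := PT) P R ((n - S) % n)
  have h2 := Nat.mod_lt (R * iv n ex S) hn
  omega

/-- records of the orbit -/
lemma orbS_spec (hn : 0 < n) (hn2 : n ≤ 256) (u k : ℕ) (f : ℕ × ℕ × ℕ) (hf : Bd n f) (i : ℕ)
    (hi : i < k) : (orbS n ex PT a u k f.1 f.2.1 f.2.2 >>> (32 * i)) % 2 ^ 32 =
      ent n ex PT u ((nx n a)^[i] f).1 ((nx n a)^[i] f).2.1 ((nx n a)^[i] f).2.2 := by
  induction k generalizing f i with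
  | zero => omega
  | succ k ih =>
    have e : orbS n ex PT a u (k + 1) f.1 f.2.1 f.2.2 = ent n ex PT u f.1 f.2.1 f.2.2 +
        2 ^ 32 * orbS n ex PT a u k (nx n a f).1 (nx n a f).2.1 (nx n a f).2.2 := rfl
    have hlt := ent_lt (ex := ex) (PT := PT) (u := u) (R := f.2.1) (S := f.2.2) hn hn2 hf.1
    cases i with
    | zero =>
      rw [mul_zero, Nat.shiftRight_zero, e, add_mod _ _ _ hlt]
      rfl
    | succ i =>
      rw [e, mul_add, mul_one, add_comm (32 * i) 32, Nat.shiftRight_add, add_shr _ _ _ hlt]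
      have := ih (nx n a f) (Bd_nx hn hf) i (by omega)
      rw [this, Function.iterate_succ_apply]

/-- records of the orbit of a first state -/
lemma orbX_spec (hn : 0 < n) (hn2 : n ≤ 256) (pi : ℕ) {x : ℕ × ℕ} (hx : x.1 < n) (i : ℕ)
    (hi : i < pi) : (orbX n ex PT a pi x >>> (32 * i)) % 2 ^ 32 = hE n ex PT a x i :=
  orbS_spec hn hn2 _ pi (h0 n x) ⟨Nat.mod_lt _ hn, hx, Nat.mod_lt _ hn⟩ i hi

lemma retS_spec {P0 R0 S0 k : ℕ} (f : ℕ × ℕ × ℕ) (h : retS n a P0 R0 S0 k f.1 f.2.1 f.2.2 = true) :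
    (nx n a)^[k] f = (P0, R0, S0) := by
  induction k generalizing f with
  | zero =>
    have h' : andB (Nat.beq f.1 P0) (andB (Nat.beq f.2.1 R0) (Nat.beq f.2.2 S0)) = true := h
    obtain ⟨h1, h2⟩ := andB_spec h'
    obtain ⟨h2, h3⟩ := andB_spec h2
    have e1 := Nat.eq_of_beq_eq_true h1
    have e2 := Nat.eq_of_beq_eq_true h2
    have e3 := Nat.eq_of_beq_eq_true h3
    change f = _
    ext <;> simp [e1, e2, e3]
  | succ k ih =>
    rw [Function.iterate_succ_apply]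
    exact ih (nx n a f) h

lemma retX_spec {pi : ℕ} {x : ℕ × ℕ} (h : retX n a pi x = true) (i : ℕ) :
    hs n a x (i + pi) = hs n a x i := by
  have h1 : (nx n a)^[pi] (h0 n x) = h0 n x := retS_spec (h0 n x) h
  unfold hs
  rw [Function.iterate_add_apply, h1]

lemma hs_mod {pi : ℕ} {x : ℕ × ℕ} (h : ∀ i, hs n a x (i + pi) = hs n a x i) (i : ℕ) :
    hs n a x (i % pi) = hs n a x i := by
  have key : ∀ q r, hs n a x (r + pi * q) = hs n a x r := by
    intro q
    induction q with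
    | zero => intro r; simp
    | succ q ih => intro r; rw [mul_add, mul_one, ← add_assoc, h, ih]
  conv_rhs => rw [← Nat.mod_add_div i pi]
  rw [key]

lemma hE_mod {pi : ℕ} {x : ℕ × ℕ} (h : ∀ i, hs n a x (i + pi) = hs n a x i) (i : ℕ) :
    hE n ex PT a x (i % pi) = hE n ex PT a x i := by
  unfold hE
  rw [hs_mod h]

end

/-- a compiled component -/
structure CCOK (par : Bool) (a : ℕ) (c : Cmp) (cc : CC) : Prop where
  n : cc.n = c.n
  cnt : cc.cnt = (c.F.filter (stc par c.n a)).length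
  pi : 1 ≤ cc.pi
  tab : ∀ (o : ℕ) (x : ℕ × ℕ) (i : ℕ), (c.F.filter (stc par c.n a))[o]? = some x → i < cc.pi →
    (cc.tab >>> (32 * (cc.pi * o + i))) % 2 ^ 32 = hE c.n c.ex c.PT a x i
  per : ∀ (o : ℕ) (x : ℕ × ℕ), (c.F.filter (stc par c.n a))[o]? = some x →
    ∀ i, hs c.n a x (i + cc.pi) = hs c.n a x i

/-- basic properties of a component -/
structure CmpB (c : Cmp) : Prop where
  pos : 0 < c.n
  le : c.n ≤ 19
  F : ∀ x ∈ c.F, x.1 < c.n ∧ x.2 < c.n
  len : c.F.length ≤ 255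
  inv : ∀ P, P < c.n → Nat.Coprime P c.n → P * iv c.n c.ex P % c.n = 1 % c.n

lemma allL_mem {α : Type} {p : α → Bool} {L : List α} (h : allL p L = true) :
    ∀ x ∈ L, p x = true := by
  induction L with
  | nil => simp
  | cons y L ih =>
    have h' : andB (p y) (allL p L) = true := h
    obtain ⟨h1, h2⟩ := andB_spec h'
    intro x hx
    rcases List.mem_cons.1 hx with rfl | hx
    · exact h1
    · exact ih h2 x hx

lemma mkC_spec {par : Bool} {a : ℕ} {c : Cmp} (hc : CmpB c) {pi : ℕ} {k : CC → Bool}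
    (h : mkC par a c pi k = true) : ∃ cc, CCOK par a c cc ∧ k cc = true := by
  unfold mkC at h
  rw [filS_eq] at h
  obtain ⟨h1, h2⟩ := andB_spec h
  obtain ⟨h1, h3⟩ := andB_spec h1
  rw [strict_eq, strict_eq, lenL_eq] at h2
  refine ⟨_, ?_, h2⟩
  have hret := allL_mem h3
  have hmem : ∀ (o : ℕ) (x : ℕ × ℕ), (c.F.filter (stc par c.n a))[o]? = some x →
      x ∈ c.F ∧ retX c.n a pi x = true := by
    intro o x hx
    have hx' := List.mem_of_getElem? hx
    exact ⟨(List.mem_filter.1 hx').1, hret x hx'⟩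
  refine ⟨rfl, rfl, Nat.le_of_ble_eq_true h1, ?_, ?_⟩
  · intro o x i hx hi
    have hi' : i < pi := hi
    have hF := hc.F x (hmem o x hx).1
    have hV : Nat.pow (nat_lit 2) (Nat.mul (nat_lit 32) pi) = 2 ^ (32 * pi) := rfl
    change (cat _ (orbX c.n c.ex c.PT a pi) _ >>> (32 * (pi * o + i))) % 2 ^ 32 = _
    rw [hV, show 32 * (pi * o + i) = 32 * pi * o + 32 * i by ring,
      cat_part (32 * pi) (32 * i) 32 (by nlinarith) _ _ _ _ hx]
    exact orbX_spec hc.pos (by have := hc.le; omega) pi hF.1 i hi'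
  · intro o x hx i
    exact retX_spec (hmem o x hx).2 i

end Pool.Agent.LibH4.CW


end

section

/-! generated: components -/

namespace Pool.Agent.Lib_helper5.TB

open LK Pool.Agent.LibH4 Pool.Agent.LibH4.Ker

/-- representatives of the projective line -/
def L4 : List (ℕ × ℕ) := [(nat_lit 1, nat_lit 0), (nat_lit 1, nat_lit 1), (nat_lit 1, nat_lit 2), (nat_lit 1, nat_lit 3), (nat_lit 0, nat_lit 1), (nat_lit 2, nat_lit 1)]

lemma isP1_4 : IsP1 4 L4 := by
  have := isP1_prime_pow (p := 2) (k := 2) (by norm_num) (by norm_num)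
  have e : p1List 2 (2 ^ 2) = L4 := by decide +kernel
  rw [e] at this
  exact this

/-- normalised forms modulo 1 -/
def F1 : List (ℕ × ℕ) := [(nat_lit 0, nat_lit 0)]
/-- positions -/
def PT1 : ℕ := nat_lit 0

lemma comp1 : CompOK 1 0 PT1 F1 adT :=
  compCk_spec (by norm_num) (by decide +kernel : compCk (nat_lit 1) (nat_lit 0) PT1 F1 adT = true)

/-- normalised forms modulo 3 -/
def F3 : List (ℕ × ℕ) := [(nat_lit 0, nat_lit 1), (nat_lit 1, nat_lit 2), (nat_lit 2, nat_lit 2)]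
/-- positions -/
def PT3 : ℕ := nat_lit 36893489246930731008

lemma comp3 : CompOK 3 1 PT3 F3 (adP (3)) :=
  compCk_spec (by norm_num) (by decide +kernel : compCk (nat_lit 3) (nat_lit 1) PT3 F3 (adP (nat_lit 3)) = true)

/-- normalised forms modulo 4 -/
def F4 : List (ℕ × ℕ) := [(nat_lit 1, nat_lit 1), (nat_lit 1, nat_lit 3), (nat_lit 3, nat_lit 1), (nat_lit 3, nat_lit 3)]
/-- positions -/
def PT4 : ℕ := nat_lit 3987724552173954922124326669381533696

lemma comp4 : CompOK 4 1 PT4 F4 adO :=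
  compCk_spec (by norm_num) (by decide +kernel : compCk (nat_lit 4) (nat_lit 1) PT4 F4 adO = true)

/-- normalised forms modulo 5 -/
def F5 : List (ℕ × ℕ) := [(nat_lit 0, nat_lit 2), (nat_lit 0, nat_lit 3), (nat_lit 1, nat_lit 1), (nat_lit 1, nat_lit 2), (nat_lit 2, nat_lit 3), (nat_lit 2, nat_lit 4), (nat_lit 3, nat_lit 3), (nat_lit 3, nat_lit 4), (nat_lit 4, nat_lit 1), (nat_lit 4, nat_lit 2)]
/-- positions -/
def PT5 : ℕ := nat_lit 865021937187056038987154371721762062672634096564305920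

lemma comp5 : CompOK 5 3 PT5 F5 (adP (5)) :=
  compCk_spec (by norm_num) (by decide +kernel : compCk (nat_lit 5) (nat_lit 3) PT5 F5 (adP (nat_lit 5)) = true)

/-- normalised forms modulo 7 -/
def F7 : List (ℕ × ℕ) := [(nat_lit 0, nat_lit 1), (nat_lit 0, nat_lit 2), (nat_lit 0, nat_lit 4), (nat_lit 1, nat_lit 3), (nat_lit 1, nat_lit 4), (nat_lit 1, nat_lit 6), (nat_lit 2, nat_lit 2), (nat_lit 2, nat_lit 3), (nat_lit 2, nat_lit 5), (nat_lit 3, nat_lit 1), (nat_lit 3, nat_lit 5), (nat_lit 3, nat_lit 6), (nat_lit 4, nat_lit 1), (nat_lit 4, nat_lit 5), (nat_lit 4, nat_lit 6), (nat_lit 5, nat_lit 2), (nat_lit 5, nat_lit 3), (nat_lit 5, nat_lit 5), (nat_lit 6, nat_lit 3), (nat_lit 6, nat_lit 4), (nat_lit 6, nat_lit 6)]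
/-- positions -/
def PT7 : ℕ := nat_lit 788051589512778686135711661448732549112757709754328138397595674384579154889958705844809357040656391320334148256727040

lemma comp7 : CompOK 7 5 PT7 F7 (adP (7)) :=
  compCk_spec (by norm_num) (by decide +kernel : compCk (nat_lit 7) (nat_lit 5) PT7 F7 (adP (nat_lit 7)) = true)

/-- normalised forms modulo 8 -/
def F8 : List (ℕ × ℕ) := [(nat_lit 1, nat_lit 1), (nat_lit 1, nat_lit 3), (nat_lit 1, nat_lit 5), (nat_lit 1, nat_lit 7), (nat_lit 3, nat_lit 1), (nat_lit 3, nat_lit 3), (nat_lit 3, nat_lit 5), (nat_lit 3, nat_lit 7), (nat_lit 5, nat_lit 1), (nat_lit 5, nat_lit 3), (nat_lit 5, nat_lit 5), (nat_lit 5, nat_lit 7), (nat_lit 7, nat_lit 1), (nat_lit 7, nat_lit 3), (nat_lit 7, nat_lit 5), (nat_lit 7, nat_lit 7)]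
/-- positions -/
def PT8 : ℕ := nat_lit 785624934400406907738617815487309877089899030879304075185420152528716291795768384994048277006445982207811372489956977211024138651382690951548299976376320

lemma comp8 : CompOK 8 1 PT8 F8 adO :=
  compCk_spec (by norm_num) (by decide +kernel : compCk (nat_lit 8) (nat_lit 1) PT8 F8 adO = true)

/-- normalised forms modulo 11 -/
def F11 : List (ℕ × ℕ) := [(nat_lit 0, nat_lit 1), (nat_lit 0, nat_lit 3), (nat_lit 0, nat_lit 4), (nat_lit 0, nat_lit 5), (nat_lit 0, nat_lit 9), (nat_lit 1, nat_lit 1), (nat_lit 1, nat_lit 4), (nat_lit 1, nat_lit 6), (nat_lit 1, nat_lit 7), (nat_lit 1, nat_lit 8), (nat_lit 2, nat_lit 2), (nat_lit 2, nat_lit 4), (nat_lit 2, nat_lit 5), (nat_lit 2, nat_lit 6), (nat_lit 2, nat_lit 10), (nat_lit 3, nat_lit 3), (nat_lit 3, nat_lit 6), (nat_lit 3, nat_lit 8), (nat_lit 3, nat_lit 9), (nat_lit 3, nat_lit 10), (nat_lit 4, nat_lit 2), (nat_lit 4, nat_lit 5), (nat_lit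 4, nat_lit 7), (nat_lit 4, nat_lit 8), (nat_lit 4, nat_lit 9), (nat_lit 5, nat_lit 1), (nat_lit 5, nat_lit 2), (nat_lit 5, nat_lit 3), (nat_lit 5, nat_lit 7), (nat_lit 5, nat_lit 10), (nat_lit 6, nat_lit 1), (nat_lit 6, nat_lit 2), (nat_lit 6, nat_lit 3), (nat_lit 6, nat_lit 7), (nat_lit 6, nat_lit 10), (nat_lit 7, nat_lit 2), (nat_lit 7, nat_lit 5), (nat_lit 7, nat_lit 7), (nat_lit 7, nat_lit 8), (nat_lit 7, nat_lit 9), (nat_lit 8, nat_lit 3), (nat_lit 8, nat_lit 6), (nat_lit 8, nat_lit 8), (nat_lit 8, nat_lit 9), (nat_lit 8, nat_lit 10), (nat_lit 9, nat_lit 2), (nat_lit 9, nat_lit 4), (nat_lit 9, nat_lit 5), (nat_lit 9, nat_lit 6), (nat_lit 9, nat_lit 10), (nat_lit 10, nat_lit 1), (nat_lit 10, nat_lit 4), (nat_lit 10, nat_lit 6), (nat_lit 10, nat_lit 7), (nat_lit 10, nat_lit 8)]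
/-- positions -/
def PT11 : ℕ := nat_lit 8060795192881257508254010956817932744790699051991055733126107705964221660699118789483190479966461893409626565656233139955365099573992366004056681444936476858136050807417299765645695440312680523680455814335072212036512964436654044276307203699830792543083104179569754359330050504916992000

lemma comp11 : CompOK 11 9 PT11 F11 (adP (11)) :=
  compCk_spec (by norm_num) (by decide +kernel : compCk (nat_lit 11) (nat_lit 9) PT11 F11 (adP (nat_lit 11)) = true)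

/-- normalised forms modulo 13 -/
def F13 : List (ℕ × ℕ) := [(nat_lit 0, nat_lit 2), (nat_lit 0, nat_lit 5), (nat_lit 0, nat_lit 6), (nat_lit 0, nat_lit 7), (nat_lit 0, nat_lit 8), (nat_lit 0, nat_lit 11), (nat_lit 1, nat_lit 2), (nat_lit 1, nat_lit 3), (nat_lit 1, nat_lit 4), (nat_lit 1, nat_lit 5), (nat_lit 1, nat_lit 8), (nat_lit 1, nat_lit 12), (nat_lit 2, nat_lit 3), (nat_lit 2, nat_lit 6), (nat_lit 2, nat_lit 7), (nat_lit 2, nat_lit 8), (nat_lit 2, nat_lit 9), (nat_lit 2, nat_lit 12), (nat_lit 3, nat_lit 1), (nat_lit 3, nat_lit 4), (nat_lit 3, nat_lit 5), (nat_lit 3, nat_lit 6), (nat_lit 3, nat_lit 7), (nat_lit 3, nat_lit 10), (nat_lit 4, nat_lit 2), (nat_lit 4, nat_lit 6), (nat_lit 4, nat_lit 9), (nat_lit 4, nat_lit 10), (nat_lit 4, nat_lit 11), (nat_lit 4, nat_lit 12), (nat_lit 5, nat_lit 1), (nat_lit 5, nat_lit 5), (nat_lit 5, nat_lit 8), (nat_lit 5, nat_lit 9), (nat_lit 5, nat_lit 10), (nat_lit 5, nat_lit 11),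 (nat_lit 6, nat_lit 1), (nat_lit 6, nat_lit 2), (nat_lit 6, nat_lit 3), (nat_lit 6, nat_lit 4), (nat_lit 6, nat_lit 7), (nat_lit 6, nat_lit 11), (nat_lit 7, nat_lit 1), (nat_lit 7, nat_lit 2), (nat_lit 7, nat_lit 3), (nat_lit 7, nat_lit 4), (nat_lit 7, nat_lit 7), (nat_lit 7, nat_lit 11), (nat_lit 8, nat_lit 1), (nat_lit 8, nat_lit 5), (nat_lit 8, nat_lit 8), (nat_lit 8, nat_lit 9), (nat_lit 8, nat_lit 10), (nat_lit 8, nat_lit 11), (nat_lit 9, nat_lit 2), (nat_lit 9, nat_lit 6), (nat_lit 9, nat_lit 9), (nat_lit 9, nat_lit 10), (nat_lit 9, nat_lit 11), (nat_lit 9, nat_lit 12), (nat_lit 10, nat_lit 1), (nat_lit 10, nat_lit 4), (nat_lit 10, nat_lit 5), (nat_lit 10, nat_lit 6), (nat_lit 10, nat_lit 7), (nat_lit 10, nat_lit 10), (nat_lit 11, nat_lit 3), (nat_lit 11, nat_lit 6), (nat_lit 11, nat_lit 7), (nat_lit 11, nat_lit 8), (nat_lit 11, nat_lit 9), (nat_lit 11, nat_lit 12), (nat_lit 12, nat_lit 2), (nat_lit 12, nat_lit 3),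 (nat_lit 12, nat_lit 4), (nat_lit 12, nat_lit 5), (nat_lit 12, nat_lit 8), (nat_lit 12, nat_lit 12)]
/-- positions -/
def PT13 : ℕ := nat_lit 29566839082645101186130689430264491909973094858730893742203108697469995651570169834927220481486450272789357663781789859945756955269530056629768851821362749792438291607442555963820268772169208207953605139253232803559014935831437191301089336259277802465242938177358340967780459040385614368970508145125552251606456482595607102763104703232175054413557235260689949925097929118760471817665789078040374309560516608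

lemma comp13 : CompOK 13 11 PT13 F13 (adP (13)) :=
  compCk_spec (by norm_num) (by decide +kernel : compCk (nat_lit 13) (nat_lit 11) PT13 F13 (adP (nat_lit 13)) = true)

/-- normalised forms modulo 17 -/
def F17 : List (ℕ × ℕ) := [(nat_lit 0, nat_lit 3), (nat_lit 0, nat_lit 5), (nat_lit 0, nat_lit 6), (nat_lit 0, nat_lit 7), (nat_lit 0, nat_lit 10), (nat_lit 0, nat_lit 11), (nat_lit 0, nat_lit 12), (nat_lit 0, nat_lit 14), (nat_lit 1, nat_lit 1), (nat_lit 1, nat_lit 2), (nat_lit 1, nat_lit 3), (nat_lit 1, nat_lit 6), (nat_lit 1, nat_lit 7), (nat_lit 1, nat_lit 8), (nat_lit 1, nat_lit 10), (nat_lit 1, nat_lit 16), (nat_lit 2, nat_lit 4), (nat_lit 2, nat_lit 6), (nat_lit 2, nat_lit 7), (nat_lit 2, nat_lit 8), (nat_lit 2, nat_lit 11), (nat_lit 2, nat_lit 12), (nat_lit 2, nat_lit 13), (nat_lit 2, nat_lit 15), (nat_lit 3, nat_lit 1), (nat_lit 3, nat_lit 3), (nat_lit 3, nat_lit 4), (nat_lit 3, nat_lit 5), (nat_lit 3, nat_lit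 8), (nat_lit 3, nat_lit 9), (nat_lit 3, nat_lit 10), (nat_lit 3, nat_lit 12), (nat_lit 4, nat_lit 1), (nat_lit 4, nat_lit 7), (nat_lit 4, nat_lit 9), (nat_lit 4, nat_lit 10), (nat_lit 4, nat_lit 11), (nat_lit 4, nat_lit 14), (nat_lit 4, nat_lit 15), (nat_lit 4, nat_lit 16), (nat_lit 5, nat_lit 5), (nat_lit 5, nat_lit 7), (nat_lit 5, nat_lit 8), (nat_lit 5, nat_lit 9), (nat_lit 5, nat_lit 12), (nat_lit 5, nat_lit 13), (nat_lit 5, nat_lit 14), (nat_lit 5, nat_lit 16), (nat_lit 6, nat_lit 2), (nat_lit 6, nat_lit 3), (nat_lit 6, nat_lit 4), (nat_lit 6, nat_lit 6), (nat_lit 6, nat_lit 12), (nat_lit 6, nat_lit 14), (nat_lit 6, nat_lit 15), (nat_lit 6, nat_lit 16), (nat_lit 7, nat_lit 1), (nat_lit 7, nat_lit 2), (nat_lit 7, nat_lit 3), (nat_lit 7, nat_lit 5), (nat_lit 7, nat_lit 11), (nat_lit 7, nat_lit 13), (nat_lit 7, nat_lit 14), (nat_lit 7, nat_lit 15), (nat_lit 8, nat_lit 2), (nat_lit 8, nat_lit 4), (nat_lit 8, nat_lit 5),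 (nat_lit 8, nat_lit 6), (nat_lit 8, nat_lit 9), (nat_lit 8, nat_lit 10), (nat_lit 8, nat_lit 11), (nat_lit 8, nat_lit 13), (nat_lit 9, nat_lit 2), (nat_lit 9, nat_lit 4), (nat_lit 9, nat_lit 5), (nat_lit 9, nat_lit 6), (nat_lit 9, nat_lit 9), (nat_lit 9, nat_lit 10), (nat_lit 9, nat_lit 11), (nat_lit 9, nat_lit 13), (nat_lit 10, nat_lit 1), (nat_lit 10, nat_lit 2), (nat_lit 10, nat_lit 3), (nat_lit 10, nat_lit 5), (nat_lit 10, nat_lit 11), (nat_lit 10, nat_lit 13), (nat_lit 10, nat_lit 14), (nat_lit 10, nat_lit 15), (nat_lit 11, nat_lit 2), (nat_lit 11, nat_lit 3), (nat_lit 11, nat_lit 4), (nat_lit 11, nat_lit 6), (nat_lit 11, nat_lit 12), (nat_lit 11, nat_lit 14), (nat_lit 11, nat_lit 15), (nat_lit 11, nat_lit 16), (nat_lit 12, nat_lit 5), (nat_lit 12, nat_lit 7), (nat_lit 12, nat_lit 8), (nat_lit 12, nat_lit 9), (nat_lit 12, nat_lit 12), (nat_lit 12, nat_lit 13), (nat_lit 12, nat_lit 14), (nat_lit 12, nat_lit 16), (nat_lit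 13, nat_lit 1), (nat_lit 13, nat_lit 7), (nat_lit 13, nat_lit 9), (nat_lit 13, nat_lit 10), (nat_lit 13, nat_lit 11), (nat_lit 13, nat_lit 14), (nat_lit 13, nat_lit 15), (nat_lit 13, nat_lit 16), (nat_lit 14, nat_lit 1), (nat_lit 14, nat_lit 3), (nat_lit 14, nat_lit 4), (nat_lit 14, nat_lit 5), (nat_lit 14, nat_lit 8), (nat_lit 14, nat_lit 9), (nat_lit 14, nat_lit 10), (nat_lit 14, nat_lit 12), (nat_lit 15, nat_lit 4), (nat_lit 15, nat_lit 6), (nat_lit 15, nat_lit 7), (nat_lit 15, nat_lit 8), (nat_lit 15, nat_lit 11), (nat_lit 15, nat_lit 12), (nat_lit 15, nat_lit 13), (nat_lit 15, nat_lit 15), (nat_lit 16, nat_lit 1), (nat_lit 16, nat_lit 2), (nat_lit 16, nat_lit 3), (nat_lit 16, nat_lit 6), (nat_lit 16, nat_lit 7), (nat_lit 16, nat_lit 8), (nat_lit 16, nat_lit 10), (nat_lit 16, nat_lit 16)]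
/-- positions -/
def PT17 : ℕ := nat_lit 505177242870439794852420744268141391052901130095669418499455570420484755712624027300523187532942270234071282205152753034739380917185106278276219922061000473596110168451370453124947329585947282629610591736893740258897614675745956054172454076391517709362073192509506905123813637263464872679210318615354911690800412178945468434271778208295359049718989996319292963393559410512850904543357138282841229468531566468859185412940885048867920660833157602556163935411158572761469761362697684386464699952219486867972345051236097562287069347004200345510755250195144612730926918475347348081253119809539228790608762135007913744217432524396198103889583796019431354424808524369784298208649987044731890970499481600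

lemma comp17 : CompOK 17 15 PT17 F17 (adP (17)) :=
  compCk_spec (by norm_num) (by decide +kernel : compCk (nat_lit 17) (nat_lit 15) PT17 F17 (adP (nat_lit 17)) = true)

/-- normalised forms modulo 19 -/
def F19 : List (ℕ × ℕ) := [(nat_lit 0, nat_lit 1), (nat_lit 0, nat_lit 4), (nat_lit 0, nat_lit 5), (nat_lit 0, nat_lit 6), (nat_lit 0, nat_lit 7), (nat_lit 0, nat_lit 9), (nat_lit 0, nat_lit 11), (nat_lit 0, nat_lit 16), (nat_lit 0, nat_lit 17), (nat_lit 1, nat_lit 2), (nat_lit 1, nat_lit 3), (nat_lit 1, nat_lit 6), (nat_lit 1, nat_lit 9), (nat_lit 1, nat_lit 10), (nat_lit 1, nat_lit 11), (nat_lit 1, nat_lit 12), (nat_lit 1, nat_lit 14), (nat_lit 1, nat_lit 16), (nat_lit 2, nat_lit 2), (nat_lit 2, nat_lit 5), (nat_lit 2, nat_lit 6), (nat_lit 2, nat_lit 7), (nat_lit 2, nat_lit 8), (nat_lit 2, nat_lit 10), (nat_lit 2, nat_lit 12), (nat_lit 2, nat_lit 17), (nat_lit 2, nat_lit 18), (nat_lit 3, nat_lit 4), (nat_lit 3, nat_lit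 5), (nat_lit 3, nat_lit 8), (nat_lit 3, nat_lit 11), (nat_lit 3, nat_lit 12), (nat_lit 3, nat_lit 13), (nat_lit 3, nat_lit 14), (nat_lit 3, nat_lit 16), (nat_lit 3, nat_lit 18), (nat_lit 4, nat_lit 1), (nat_lit 4, nat_lit 2), (nat_lit 4, nat_lit 5), (nat_lit 4, nat_lit 8), (nat_lit 4, nat_lit 9), (nat_lit 4, nat_lit 10), (nat_lit 4, nat_lit 11), (nat_lit 4, nat_lit 13), (nat_lit 4, nat_lit 15), (nat_lit 5, nat_lit 1), (nat_lit 5, nat_lit 3), (nat_lit 5, nat_lit 8), (nat_lit 5, nat_lit 9), (nat_lit 5, nat_lit 12), (nat_lit 5, nat_lit 15), (nat_lit 5, nat_lit 16), (nat_lit 5, nat_lit 17), (nat_lit 5, nat_lit 18), (nat_lit 6, nat_lit 1), (nat_lit 6, nat_lit 6), (nat_lit 6, nat_lit 7), (nat_lit 6, nat_lit 10), (nat_lit 6, nat_lit 13), (nat_lit 6, nat_lit 14), (nat_lit 6, nat_lit 15), (nat_lit 6, nat_lit 16), (nat_lit 6, nat_lit 18), (nat_lit 7, nat_lit 2), (nat_lit 7, nat_lit 3), (nat_lit 7, nat_lit 4), (nat_lit 7, nat_lit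 5), (nat_lit 7, nat_lit 7), (nat_lit 7, nat_lit 9), (nat_lit 7, nat_lit 14), (nat_lit 7, nat_lit 15), (nat_lit 7, nat_lit 18), (nat_lit 8, nat_lit 1), (nat_lit 8, nat_lit 2), (nat_lit 8, nat_lit 3), (nat_lit 8, nat_lit 4), (nat_lit 8, nat_lit 6), (nat_lit 8, nat_lit 8), (nat_lit 8, nat_lit 13), (nat_lit 8, nat_lit 14), (nat_lit 8, nat_lit 17), (nat_lit 9, nat_lit 3), (nat_lit 9, nat_lit 4), (nat_lit 9, nat_lit 7), (nat_lit 9, nat_lit 10), (nat_lit 9, nat_lit 11), (nat_lit 9, nat_lit 12), (nat_lit 9, nat_lit 13), (nat_lit 9, nat_lit 15), (nat_lit 9, nat_lit 17), (nat_lit 10, nat_lit 3), (nat_lit 10, nat_lit 4), (nat_lit 10, nat_lit 7), (nat_lit 10, nat_lit 10), (nat_lit 10, nat_lit 11), (nat_lit 10, nat_lit 12), (nat_lit 10, nat_lit 13), (nat_lit 10, nat_lit 15), (nat_lit 10, nat_lit 17), (nat_lit 11, nat_lit 1), (nat_lit 11, nat_lit 2), (nat_lit 11, nat_lit 3), (nat_lit 11, nat_lit 4), (nat_lit 11, nat_lit 6), (nat_lit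 11, nat_lit 8), (nat_lit 11, nat_lit 13), (nat_lit 11, nat_lit 14), (nat_lit 11, nat_lit 17), (nat_lit 12, nat_lit 2), (nat_lit 12, nat_lit 3), (nat_lit 12, nat_lit 4), (nat_lit 12, nat_lit 5), (nat_lit 12, nat_lit 7), (nat_lit 12, nat_lit 9), (nat_lit 12, nat_lit 14), (nat_lit 12, nat_lit 15), (nat_lit 12, nat_lit 18), (nat_lit 13, nat_lit 1), (nat_lit 13, nat_lit 6), (nat_lit 13, nat_lit 7), (nat_lit 13, nat_lit 10), (nat_lit 13, nat_lit 13), (nat_lit 13, nat_lit 14), (nat_lit 13, nat_lit 15), (nat_lit 13, nat_lit 16), (nat_lit 13, nat_lit 18), (nat_lit 14, nat_lit 1), (nat_lit 14, nat_lit 3), (nat_lit 14, nat_lit 8), (nat_lit 14, nat_lit 9), (nat_lit 14, nat_lit 12), (nat_lit 14, nat_lit 15), (nat_lit 14, nat_lit 16), (nat_lit 14, nat_lit 17), (nat_lit 14, nat_lit 18), (nat_lit 15, nat_lit 1), (nat_lit 15, nat_lit 2), (nat_lit 15, nat_lit 5), (nat_lit 15, nat_lit 8), (nat_lit 15, nat_lit 9), (nat_lit 15, nat_lit 10),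 (nat_lit 15, nat_lit 11), (nat_lit 15, nat_lit 13), (nat_lit 15, nat_lit 15), (nat_lit 16, nat_lit 4), (nat_lit 16, nat_lit 5), (nat_lit 16, nat_lit 8), (nat_lit 16, nat_lit 11), (nat_lit 16, nat_lit 12), (nat_lit 16, nat_lit 13), (nat_lit 16, nat_lit 14), (nat_lit 16, nat_lit 16), (nat_lit 16, nat_lit 18), (nat_lit 17, nat_lit 2), (nat_lit 17, nat_lit 5), (nat_lit 17, nat_lit 6), (nat_lit 17, nat_lit 7), (nat_lit 17, nat_lit 8), (nat_lit 17, nat_lit 10), (nat_lit 17, nat_lit 12), (nat_lit 17, nat_lit 17), (nat_lit 17, nat_lit 18), (nat_lit 18, nat_lit 2), (nat_lit 18, nat_lit 3), (nat_lit 18, nat_lit 6), (nat_lit 18, nat_lit 9), (nat_lit 18, nat_lit 10), (nat_lit 18, nat_lit 11), (nat_lit 18, nat_lit 12), (nat_lit 18, nat_lit 14), (nat_lit 18, nat_lit 16)]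
/-- positions -/
def PT19 : ℕ := nat_lit 2400839296331629707273131084921468458202605508321550717977593490681934238194425389187853385780676802639439068102452161944954003302029493362989842663322215256259518155189452539389073312698529541144646617746334543552935320371925305880018290031185454852268425285290518204781286561299196094322279556801241035695970717657839713279937285899183631090373938619673630465239916072184171004354445523234735963021558307485411954981311365163859458133172353749830776577576112892081158819947909875212600135879340094471234035223372410126592079631681756519138077722287192530637369608342547921462473145915513448461573524749338903748324957368345306495934423087938999604466577724198190862153290918844138783648490213972525720403906656766841314360756728993860459073060716588849256627906905407491101320765750704776668240004903482513208552340526197134419513350562058757247483404160765788160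

lemma comp19 : CompOK 19 17 PT19 F19 (adP (19)) :=
  compCk_spec (by norm_num) (by decide +kernel : compCk (nat_lit 19) (nat_lit 17) PT19 F19 (adP (nat_lit 19)) = true)

end Pool.Agent.Lib_helper5.TB


end

section

/-!
Odd periods of any length: powers of an element of prime norm are primitive.
-/

namespace Pool.Agent.LibH4.LO

open Pool.Agent.LibH4

variable {m B : ℤ}

/-- if `p` divides the square of an element and is unramified, it divides the element -/
lemma dvd_of_sq {p : ℕ} (hp : p.Prime) (hD : ¬ (p : ℤ) ∣ B ^ 2 + 4 * m)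
    (γ : QuadraticAlgebra ℤ m B) (h1 : (p : ℤ) ∣ (γ * γ).re) (h2 : (p : ℤ) ∣ (γ * γ).im) :
    (p : ℤ) ∣ γ.re ∧ (p : ℤ) ∣ γ.im := by
  have hpz : Prime (p : ℤ) := Nat.prime_iff_prime_int.1 hp
  rw [QuadraticAlgebra.re_mul] at h1
  rw [QuadraticAlgebra.im_mul] at h2
  have h2' : (p : ℤ) ∣ γ.im * (2 * γ.re + B * γ.im) := by
    have e : γ.im * (2 * γ.re + B * γ.im) = γ.re * γ.im + γ.im * γ.re + B * γ.im * γ.im := by
      ring
    rw [e]
    exact h2
  have key : (p : ℤ) ∣ γ.im := by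
    rcases hpz.dvd_or_dvd h2' with h | h
    · exact h
    · have h3 : (p : ℤ) ∣ (B ^ 2 + 4 * m) * γ.im ^ 2 := by
        have e : (B ^ 2 + 4 * m) * γ.im ^ 2 = 4 * (γ.re * γ.re + m * γ.im * γ.im) -
            (2 * γ.re + B * γ.im) * (2 * γ.re - B * γ.im) := by ring
        rw [e]
        exact dvd_sub (Dvd.dvd.mul_left h1 4) (Dvd.dvd.mul_right h _)
      rcases hpz.dvd_or_dvd h3 with h4 | h4
      · exact absurd h4 hD
      · exact hpz.dvd_of_dvd_pow h4
  refine ⟨?_, key⟩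
  have h4 : (p : ℤ) ∣ γ.re ^ 2 := by
    have e : γ.re ^ 2 = (γ.re * γ.re + m * γ.im * γ.im) - m * γ.im * γ.im := by ring
    rw [e]
    exact dvd_sub h1 (Dvd.dvd.mul_left key _)
  exact hpz.dvd_of_dvd_pow h4

lemma natAbs_norm_dvd {p : ℕ} {γ : QuadraticAlgebra ℤ m B} (h1 : (p : ℤ) ∣ γ.re)
    (h2 : (p : ℤ) ∣ γ.im) : p ^ 2 ∣ γ.norm.natAbs := by
  obtain ⟨a, ha⟩ := h1
  obtain ⟨b, hb⟩ := h2
  rw [← Int.natCast_dvd_natCast]
  rw [Int.dvd_natAbs, QuadraticAlgebra.norm_def, ha, hb]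
  exact ⟨a * a + B * a * b - m * b * b, by push_cast; ring⟩

/-- powers are primitive -/
lemma pow_prim {p : ℕ} (hp : p.Prime) (hD : ¬ (p : ℤ) ∣ B ^ 2 + 4 * m)
    {π : QuadraticAlgebra ℤ m B} (hπ : π.norm.natAbs = p) (n : ℕ) :
    ¬ ((p : ℤ) ∣ (π ^ n).re ∧ (p : ℤ) ∣ (π ^ n).im) := by
  induction n using Nat.strong_induction_on with
  | _ n ih =>
    rintro ⟨h1, h2⟩
    rcases Nat.lt_or_ge n 2 with hn | hn
    · have h3 := natAbs_norm_dvd h1 h2
      rw [map_pow, Int.natAbs_pow, hπ] at h3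
      have h4 := (Nat.pow_dvd_pow_iff_le_right hp.one_lt).1 h3
      omega
    · obtain ⟨k, rfl⟩ : ∃ k, n = k + 2 := ⟨n - 2, by omega⟩
      apply ih (k + 1) (by omega)
      apply dvd_of_sq hp hD
      · have e : π ^ (k + 1) * π ^ (k + 1) = π ^ (k + 2) * π ^ k := by ring
        rw [e, QuadraticAlgebra.re_mul]
        exact dvd_add (Dvd.dvd.mul_right h1 _) (Dvd.dvd.mul_right (Dvd.dvd.mul_left h2 _) _)
      · have e : π ^ (k + 1) * π ^ (k + 1) = π ^ (k + 2) * π ^ k := by ring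
        rw [e, QuadraticAlgebra.im_mul]
        exact dvd_add (dvd_add (Dvd.dvd.mul_right h1 _) (Dvd.dvd.mul_right h2 _))
          (Dvd.dvd.mul_right (Dvd.dvd.mul_left h2 _) _)

/-- the coordinates of the powers are coprime -/
theorem pow_coprime {p : ℕ} (hp : p.Prime) (hD : ¬ (p : ℤ) ∣ B ^ 2 + 4 * m)
    {π : QuadraticAlgebra ℤ m B} (hπ : π.norm.natAbs = p) (n : ℕ) :
    IsCoprime (π ^ n).re (π ^ n).im := by
  rw [Int.isCoprime_iff_gcd_eq_one]
  by_contra hg
  obtain ⟨r, hr, hrd⟩ := Nat.exists_prime_and_dvd hg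
  have h1 : (r : ℤ) ∣ (π ^ n).re := (Int.natCast_dvd_natCast.2 hrd).trans (Int.gcd_dvd_left ..)
  have h2 : (r : ℤ) ∣ (π ^ n).im := (Int.natCast_dvd_natCast.2 hrd).trans (Int.gcd_dvd_right ..)
  have h3 := natAbs_norm_dvd h1 h2
  rw [map_pow, Int.natAbs_pow, hπ] at h3
  have h4 : r ∣ p := hr.dvd_of_dvd_pow ((dvd_pow_self r two_ne_zero).trans h3)
  have h5 : r = p := (Nat.prime_dvd_prime_iff_eq hr hp).1 h4
  subst h5
  exact pow_prim hp hD hπ n ⟨h1, h2⟩

/-- for the first power no condition is needed -/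
theorem one_coprime {p : ℕ} (hp : p.Prime) {π : QuadraticAlgebra ℤ m B}
    (hπ : π.norm.natAbs = p) : IsCoprime π.re π.im := by
  rw [Int.isCoprime_iff_gcd_eq_one]
  by_contra hg
  obtain ⟨r, hr, hrd⟩ := Nat.exists_prime_and_dvd hg
  have h1 : (r : ℤ) ∣ π.re := (Int.natCast_dvd_natCast.2 hrd).trans (Int.gcd_dvd_left ..)
  have h2 : (r : ℤ) ∣ π.im := (Int.natCast_dvd_natCast.2 hrd).trans (Int.gcd_dvd_right ..)
  have h3 := natAbs_norm_dvd h1 h2
  rw [hπ] at h3
  have h4 : r ∣ p := (dvd_pow_self r two_ne_zero).trans h3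
  have h5 : r = p := (Nat.prime_dvd_prime_iff_eq hr hp).1 h4
  subst h5
  have := Nat.le_of_dvd hr.pos h3
  have := hr.two_le
  nlinarith

end Pool.Agent.LibH4.LO


end
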