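import Mathlib
import Mathlib.NumberTheory.DiophantineApproximation.Basic
import Pool.Agent.RQM.C04
import Pool.Agent.RQM.C28
import Pool.Agent.RQM.C41

/-! Parts: Lib_helper4.CFOdd, Lib_helper4.LO.Norm, Lib_helper4.LO.Small -/

namespace Pool.Agent.LibH4
end Pool.Agent.LibH4
namespace Pool.Agent.LibH4.CFO
end Pool.Agent.LibH4.CFO
namespace Pool.Agent.Lib_helper5
end Pool.Agent.Lib_helper5

section

/-!
The cycle of forms attached to the continued fraction of `ω_d`, for any period length.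
-/

namespace Pool.Agent.LibH4.CFO

open Real Function Pool.Agent.Lib_helper5

/-- state of the continued fraction algorithm -/
def qst (m B : ℤ) (c : ℕ → ℕ) : ℕ → ℤ × ℤ × ℤ
  | 0 => (m, B, 1)
  | k + 1 => ((qst m B c k).2.2, 2 * c k * (qst m B c k).2.2 - (qst m B c k).2.1,
      (qst m B c k).1 + (qst m B c k).2.1 * c k - (qst m B c k).2.2 * (c k : ℤ) ^ 2)

/-- first coefficient -/
def QP (m B : ℤ) (c : ℕ → ℕ) (k : ℕ) : ℤ := (qst m B c k).1
/-- middle coefficient -/
def QR (m B : ℤ) (c : ℕ → ℕ) (k : ℕ) : ℤ := (qst m B c k).2.1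
/-- last coefficient -/
def QS (m B : ℤ) (c : ℕ → ℕ) (k : ℕ) : ℤ := (qst m B c k).2.2

/-- the data of a continued fraction expansion of `(B + s) / 2` -/
structure Data (m B : ℤ) (s : ℝ) (x : ℕ → ℝ) (c : ℕ → ℕ) : Prop where
  irr : Irrational s
  sq : s ^ 2 = ((B ^ 2 + 4 * m : ℤ) : ℝ)
  x0 : x 0 = (B + s) / 2
  step : ∀ k, x (k + 1) = gsh (x k)
  fl : ∀ k, (c k : ℤ) = ⌊x k⌋
  Bs : (B : ℝ) < s
  sB : s < B + 2
  x0pos : 1 < x 0

section
variable {m B : ℤ} {s : ℝ} {x : ℕ → ℝ} {c : ℕ → ℕ}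

lemma QP_succ (k : ℕ) : QP m B c (k + 1) = QS m B c k := rfl
lemma QR_succ (k : ℕ) : QR m B c (k + 1) = 2 * c k * QS m B c k - QR m B c k := rfl
lemma QS_succ (k : ℕ) :
    QS m B c (k + 1) = QP m B c k + QR m B c k * c k - QS m B c k * (c k : ℤ) ^ 2 := rfl

/-- the invariants -/
structure Inv (m B : ℤ) (s : ℝ) (x : ℕ → ℝ) (c : ℕ → ℕ) (k : ℕ) : Prop where
  Spos : 0 < QS m B c k
  disc : QR m B c k ^ 2 + 4 * QP m B c k * QS m B c k = B ^ 2 + 4 * m
  xe : x k = (QR m B c k + s) / (2 * QS m B c k)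
  Rs : (QR m B c k : ℝ) < s
  sR : s < QR m B c k + 2 * QS m B c k
  x1 : 1 < x k
  xi : Irrational (x k)
  cpos : 1 ≤ c k
  frac : s - QR m B c (k + 1) < 2 * QS m B c k
  par : QR m B c k % 2 = B % 2

lemma inv_of (h : Data m B s x c) (k : ℕ) : Inv m B s x c k := by
  have frac_of : ∀ k, 0 < QS m B c k → x k = (QR m B c k + s) / (2 * QS m B c k) →
      s - QR m B c (k + 1) < 2 * QS m B c k ∧ 0 < s - QR m B c (k + 1) := by
    intro k hS hx
    have hS' : (0 : ℝ) < QS m B c k := by exact_mod_cast hS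
    have h1 : x k < ⌊x k⌋ + 1 := Int.lt_floor_add_one _
    have h2 := Int.floor_le (x k)
    rw [← h.fl k, hx] at h1 h2
    rw [div_lt_iff₀ (by positivity)] at h1
    rw [le_div_iff₀ (by positivity)] at h2
    rw [QR_succ]
    push_cast at h1 h2 ⊢
    refine ⟨by linarith, ?_⟩
    have h3 : s - (2 * c k * QS m B c k - QR m B c k) ≠ 0 := by
      intro h0
      apply h.irr
      refine ⟨((2 * c k * QS m B c k - QR m B c k : ℤ) : ℚ), ?_⟩
      push_cast
      linarith
    have h4 : 0 ≤ s - (2 * c k * QS m B c k - QR m B c k) := by linarith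
    exact lt_of_le_of_ne h4 (Ne.symm h3)
  have cpos_of : ∀ k, 1 < x k → 1 ≤ c k := by
    intro k hk
    have : (1 : ℤ) ≤ ⌊x k⌋ := Int.le_floor.2 (by push_cast; exact hk.le)
    rw [← h.fl k] at this
    exact_mod_cast this
  induction k with
  | zero =>
    have e : x 0 = (QR m B c 0 + s) / (2 * QS m B c 0) := by
      rw [h.x0]
      change _ = ((B : ℤ) + s) / (2 * ((1 : ℤ) : ℝ))
      push_cast
      rw [mul_one]
    have hi : Irrational (x 0) := by
      rw [h.x0]
      have := (h.irr.intCast_add B).div_natCast (m := 2) (by norm_num)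
      exact_mod_cast this
    exact {
      Spos := by change (0 : ℤ) < 1; norm_num
      disc := by change B ^ 2 + 4 * m * 1 = _; ring
      xe := e
      Rs := h.Bs
      sR := by
        change s < (B : ℝ) + 2 * ((1 : ℤ) : ℝ)
        push_cast
        linarith [h.sB]
      x1 := h.x0pos
      xi := hi
      cpos := cpos_of 0 h.x0pos
      frac := (frac_of 0 (by change (0 : ℤ) < 1; norm_num) e).1
      par := rfl }
  | succ k ih =>
    obtain ⟨hS, hD, hx, hRs, hsR, hx1, hxi, hc, hfr, hpar⟩ := ih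
    obtain ⟨p1, p2, p3⟩ := gsh_pos hxi
    rw [← h.step k] at p1 p2 p3
    rw [← h.fl k] at p3
    have hS' : (0 : ℝ) < QS m B c k := by exact_mod_cast hS
    have hc' : (1 : ℝ) ≤ c k := by exact_mod_cast hc
    obtain ⟨-, hpos⟩ := frac_of k hS hx
    have y0 : x (k + 1) ≠ 0 := by positivity
    have hR' : (QR m B c (k + 1) : ℝ) = 2 * c k * QS m B c k - QR m B c k := by
      rw [QR_succ]; push_cast; ring
    have e1 : x (k + 1) * (s - QR m B c (k + 1)) = 2 * QS m B c k := by
      have e2 : (QR m B c k + s) / (2 * QS m B c k) - c k =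
          (s - QR m B c (k + 1)) / (2 * QS m B c k) := by
        rw [hR']; field_simp; ring
      have e3 : (x (k + 1))⁻¹ = (s - QR m B c (k + 1)) / (2 * QS m B c k) := by
        rw [← e2, ← hx]
        push_cast at p3
        linarith
      have e4 : x (k + 1) * (x (k + 1))⁻¹ = 1 := mul_inv_cancel₀ y0
      rw [e3] at e4
      field_simp at e4
      linarith
    have dI : QR m B c (k + 1) ^ 2 + 4 * QP m B c (k + 1) * QS m B c (k + 1) = B ^ 2 + 4 * m := by
      rw [← hD, QR_succ, QP_succ, QS_succ]; ring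
    have dR : (s - QR m B c (k + 1)) * (s + QR m B c (k + 1)) =
        4 * QS m B c k * QS m B c (k + 1) := by
      have := congrArg (fun z : ℤ => (z : ℝ)) dI
      rw [QP_succ] at this
      push_cast at this
      have hs := h.sq
      push_cast at hs
      linear_combination hs - this
    have hsum : 2 * (QS m B c k : ℝ) < s + QR m B c (k + 1) := by
      rw [hR']
      have : (QS m B c k : ℝ) ≤ c k * QS m B c k := by nlinarith
      linarith
    have hSS : (0 : ℝ) < QS m B c (k + 1) := by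
      by_contra hneg
      push Not at hneg
      have h1 : 0 < (s - QR m B c (k + 1)) * (s + QR m B c (k + 1)) :=
        mul_pos hpos (by linarith)
      rw [dR] at h1
      nlinarith
    have hxe : x (k + 1) = (QR m B c (k + 1) + s) / (2 * QS m B c (k + 1)) := by
      rw [eq_div_iff (by positivity)]
      have h1 : 2 * (QS m B c k : ℝ) * (x (k + 1) * (2 * QS m B c (k + 1))) =
          2 * QS m B c k * (QR m B c (k + 1) + s) := by
        linear_combination (s + QR m B c (k + 1)) * e1 - x (k + 1) * dR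
      exact mul_left_cancel₀ (by positivity) h1
    have hSI : 0 < QS m B c (k + 1) := by exact_mod_cast hSS
    exact {
      Spos := hSI
      disc := dI
      xe := hxe
      Rs := by linarith
      sR := by
        by_contra hneg
        push Not at hneg
        have h1 : 2 * (QS m B c (k + 1) : ℝ) ≤ s - QR m B c (k + 1) := by linarith
        have h2 : 2 * (QS m B c (k + 1) : ℝ) * (s + QR m B c (k + 1)) ≤
            (s - QR m B c (k + 1)) * (s + QR m B c (k + 1)) :=
          mul_le_mul_of_nonneg_right h1 (by linarith)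
        rw [dR] at h2
        nlinarith
      x1 := p1
      xi := p2
      cpos := cpos_of _ p1
      frac := (frac_of _ hSI hxe).1
      par := by rw [QR_succ, mul_assoc]; omega }

/-- equal complete quotients have equal states -/
lemma state_eq (h : Data m B s x c) {j k : ℕ} (hjk : x j = x k) :
    QP m B c j = QP m B c k ∧ QR m B c j = QR m B c k ∧ QS m B c j = QS m B c k := by
  have ij := inv_of h j
  have ik := inv_of h k
  have hSj : (0 : ℝ) < QS m B c j := by exact_mod_cast ij.Spos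
  have hSk : (0 : ℝ) < QS m B c k := by exact_mod_cast ik.Spos
  have e := hjk
  rw [ij.xe, ik.xe, div_eq_div_iff (by positivity) (by positivity)] at e
  have e1 : ((QR m B c j * QS m B c k - QR m B c k * QS m B c j : ℤ) : ℝ) +
      s * ((QS m B c k - QS m B c j : ℤ) : ℝ) = 0 := by
    push_cast
    linear_combination e / 2
  obtain ⟨h1, h2⟩ := irr_lin h.irr e1
  have hS : QS m B c j = QS m B c k := by linarith
  rw [hS] at h2
  have hR : QR m B c j = QR m B c k := by
    have h3 : (QR m B c j - QR m B c k) * QS m B c k = 0 := by linarith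
    rcases mul_eq_zero.1 h3 with h4 | h4
    · linarith
    · have := ik.Spos; omega
  refine ⟨?_, hR, hS⟩
  have h3 := ij.disc
  have h4 := ik.disc
  rw [hR, hS] at h3
  have h5 : (QP m B c j - QP m B c k) * QS m B c k = 0 := by linarith
  rcases mul_eq_zero.1 h5 with h6 | h6
  · linarith
  · have := ik.Spos; omega

lemma x_eq_of_state (h : Data m B s x c) {j k : ℕ} (hR : QR m B c j = QR m B c k)
    (hS : QS m B c j = QS m B c k) : x j = x k := by
  rw [(inv_of h j).xe, (inv_of h k).xe, hR, hS]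

lemma int_eq_of {S a b : ℤ} {s : ℝ} (t : ℤ) (hab : a - b = 2 * t * S)
    (ha : (a : ℝ) < s) (ha' : s < a + 2 * S) (hb : (b : ℝ) < s) (hb' : s < b + 2 * S) : t = 0 := by
  have h1 : ((a - b : ℤ) : ℝ) < 2 * S := by push_cast; linarith
  have h2 : -(2 * S : ℝ) < ((a - b : ℤ) : ℝ) := by push_cast; linarith
  have h3 : a - b < 2 * S := by exact_mod_cast h1
  have h4 : -(2 * S) < a - b := by exact_mod_cast h2
  have hS : 0 < S := by linarith
  rw [hab] at h3 h4
  have h5 : t < 1 := by
    by_contra hc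
    push Not at hc
    nlinarith
  have h6 : -1 < t := by
    by_contra hc
    push Not at hc
    nlinarith
  omega

/-- one step back -/
lemma back (h : Data m B s x c) {j k : ℕ} (hjk : x (j + 1) = x (k + 1)) : x j = x k := by
  obtain ⟨hP, hR, -⟩ := state_eq h hjk
  have ij := inv_of h j
  have ik := inv_of h k
  rw [QP_succ, QP_succ] at hP
  rw [QR_succ, QR_succ, hP] at hR
  have sj := ij.sR
  rw [hP] at sj
  have ht := int_eq_of (S := QS m B c k) (a := QR m B c j) (b := QR m B c k)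
    ((c j : ℤ) - c k) (by linear_combination -hR) ij.Rs sj ik.Rs ik.sR
  have hc : (c j : ℤ) = c k := by linarith
  rw [hc] at hR
  exact x_eq_of_state h (by linarith) hP

lemma iter (h : Data m B s x c) (k j : ℕ) : gsh^[k] (x j) = x (j + k) := by
  induction k with
  | zero => rfl
  | succ k ih => rw [iterate_succ_apply', ih, ← h.step]; rfl

/-- periodicity from the start -/
lemma x_per (h : Data m B s x c) {L : ℕ} (hL : gsh^[L] (x 1) = x 1) (k : ℕ) :
    x (k + L) = x k := by
  have h0 : x (0 + L) = x 0 := by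
    apply back h
    rw [iter h, add_comm] at hL
    rw [zero_add]
    exact hL
  induction k with
  | zero => exact h0
  | succ k ih =>
    rw [show k + 1 + L = (k + L) + 1 by ring, h.step, ih, ← h.step]

lemma c_eq (h : Data m B s x c) {j k : ℕ} (hjk : x j = x k) : c j = c k := by
  have h1 := h.fl j
  rw [hjk, ← h.fl k] at h1
  exact_mod_cast h1

/-- the last coefficient is one only at multiples of the period -/
lemma S_ne_one (h : Data m B s x c) {L : ℕ} (hL : minimalPeriod gsh (x 1) = L) {j : ℕ}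
    (hj : 0 < j) (hjL : j < L) : QS m B c j ≠ 1 := by
  intro h1
  have ij := inv_of h j
  have i0 := inv_of h 0
  have hpar := ij.par
  have S0 : QS m B c 0 = 1 := rfl
  have R0 : QR m B c 0 = B := rfl
  obtain ⟨t, ht⟩ : ∃ t, QR m B c j - B = 2 * t * 1 := ⟨(QR m B c j - B) / 2, by omega⟩
  have sj := ij.sR
  rw [h1] at sj
  have ht0 := int_eq_of t ht ij.Rs sj h.Bs (by push_cast; linarith [h.sB])
  have hR : QR m B c j = QR m B c 0 := by rw [R0]; rw [ht0] at ht; linarith
  have hx := x_eq_of_state h hR (by rw [h1, S0])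
  have hx1 : gsh^[j] (x 1) = x 1 := by
    rw [iter h, add_comm, h.step, hx, ← h.step]
  have := IsPeriodicPt.minimalPeriod_le hj hx1
  omega

/-- the palindrome -/
lemma palin (h : Data m B s x c) {L : ℕ} (hper : ∀ k, x (k + L) = x k) (k j : ℕ)
    (hkj : k + j = L) : QS m B c j = QS m B c k ∧ QR m B c j = QR m B c (k + 1) ∧
      QP m B c j = QS m B c (k + 1) ∧ c j = c k := by
  have key : ∀ k j, k + j = L → QP m B c (j + 1) = QS m B c k ∧ QR m B c (j + 1) = QR m B c k ∧
      QS m B c (j + 1) = QP m B c k ∧ QS m B c j = QS m B c k ∧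
      QR m B c j = QR m B c (k + 1) ∧ QP m B c j = QS m B c (k + 1) ∧ c j = c k := by
    intro k
    induction k with
    | zero =>
      intro j hj
      rw [zero_add] at hj
      subst hj
      have e0 : x j = x 0 := by have := hper 0; rwa [zero_add] at this
      have hc0 : (c 0 : ℤ) = B := by
        rw [h.fl 0, h.x0, Int.floor_eq_iff]
        constructor
        · linarith [h.Bs]
        · linarith [h.sB]
      obtain ⟨a1, a2, a3⟩ := state_eq h e0
      have b1 : QS m B c 0 = 1 := rfl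
      have b2 : QR m B c 0 = B := rfl
      have b3 : QP m B c 0 = m := rfl
      have c1 := c_eq h e0
      have hcj : (c j : ℤ) = B := by rw [c1]; exact hc0
      have d1 : QR m B c (0 + 1) = B := by rw [QR_succ, hc0, b1, b2]; ring
      have d2 : QS m B c (0 + 1) = m := by rw [QS_succ, hc0, b1, b2, b3]; ring
      refine ⟨?_, ?_, ?_, a3, ?_, ?_, c1⟩
      · rw [QP_succ, a3]
      · rw [QR_succ, hcj, a2, a3, b1, b2]; ring
      · rw [QS_succ, hcj, a1, a2, a3, b1, b2, b3]; ring
      · rw [a2, d1, b2]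
      · rw [a1, d2, b3]
    | succ k ih =>
      intro j hj
      obtain ⟨p1, p2, p3, p4, p5, p6, p7⟩ := ih (j + 1) (by omega)
      -- from index `k` with partner `j+1`
      have ij := inv_of h j
      have ik := inv_of h (k + 1)
      have r1 : QP m B c (j + 1) = QS m B c (k + 1) := p6
      have r2 : QR m B c (j + 1) = QR m B c (k + 1) := p5
      have r3 : QS m B c (j + 1) = QP m B c (k + 1) := by rw [QP_succ]; exact p4
      have s1 : QS m B c j = QS m B c (k + 1) := by rw [← r1, QP_succ]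
      have hb : QR m B c j = 2 * c j * QS m B c (k + 1) - QR m B c (k + 1) := by
        have := QR_succ (m := m) (B := B) (c := c) j
        rw [r2, s1] at this
        linarith
      have hb2 := QR_succ (m := m) (B := B) (c := c) (k + 1)
      have sj := ij.sR
      rw [s1] at sj
      have ik2 := inv_of h (k + 1 + 1)
      have hfr := ik.frac
      have ht := int_eq_of (S := QS m B c (k + 1)) (a := QR m B c j)
        (b := QR m B c (k + 1 + 1)) ((c j : ℤ) - c (k + 1))
        (by rw [hb, hb2]; ring) ij.Rs sj ik2.Rs (by linarith)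
      have hc : c j = c (k + 1) := by
        have : (c j : ℤ) = c (k + 1) := by linarith
        exact_mod_cast this
      have t1 : QR m B c j = QR m B c (k + 1 + 1) := by rw [hb, hb2, hc]
      have t2 : QP m B c j = QS m B c (k + 1 + 1) := by
        have h3 := ij.disc
        have h4 := ik2.disc
        rw [t1, s1] at h3
        rw [QP_succ] at h4
        have h5 : (QP m B c j - QS m B c (k + 1 + 1)) * QS m B c (k + 1) = 0 := by linarith
        rcases mul_eq_zero.1 h5 with h6 | h6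
        · linarith
        · have := ik.Spos; omega
      exact ⟨r1, r2, r3, s1, t1, t2, hc⟩
  obtain ⟨-, -, -, p4, p5, p6, p7⟩ := key k j hkj
  exact ⟨p4, p5, p6, p7⟩

end

/-- the data attached to a squarefree integer -/
theorem exists_data (d : ℕ) (h1 : 1 < d) (hsq : Squarefree d) :
    ∃ (m B : ℤ) (s : ℝ) (x : ℕ → ℝ) (c : ℕ → ℕ), Data m B s x c ∧ x 1 = gsh (omg d) ∧
      0 < m ∧ 1 ≤ B ∧
      ((d % 4 = 1 ∧ (d : ℤ) = B ^ 2 + 4 * m ∧ B % 2 = 1) ∨
       (d % 4 ≠ 1 ∧ 4 * (d : ℤ) = B ^ 2 + 4 * m ∧ B % 2 = 0)) := by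
  have hirr := irrational_sqrt_sqfree h1 hsq
  obtain ⟨s, σ, D, hs, hD, hω, hσ, hs0⟩ : ∃ (s : ℝ) (σ D : ℤ), Irrational s ∧ s ^ 2 = D ∧
      omg d = (σ + s) / 2 ∧ ((d % 4 = 1 ∧ σ = 1 ∧ D = d) ∨ (d % 4 ≠ 1 ∧ σ = 0 ∧ D = 4 * d)) ∧
      0 < s := by
    have hpos : 0 < √(d : ℝ) := sqrt_pos.2 (by positivity)
    by_cases h4 : d % 4 = 1
    · refine ⟨√(d : ℝ), 1, d, hirr, ?_, ?_, Or.inl ⟨h4, rfl, rfl⟩, hpos⟩
      · rw [sq_sqrt (by positivity)]; push_cast; rfl
      · unfold omg; rw [if_pos h4]; push_cast; ring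
    · refine ⟨2 * √(d : ℝ), 0, 4 * d, ?_, ?_, ?_, Or.inr ⟨h4, rfl, rfl⟩, by positivity⟩
      · have := hirr.natCast_mul (m := 2) (by norm_num)
        exact_mod_cast this
      · rw [mul_pow, sq_sqrt (by positivity)]; push_cast; ring
      · unfold omg; rw [if_neg h4]; push_cast; ring
  have hωirr : Irrational (omg d) := by
    rw [hω]
    have := (hs.intCast_add σ).div_natCast (m := 2) (by norm_num)
    exact_mod_cast this
  have hω1 : 1 < omg d := by
    have hd1 : (1 : ℝ) < √(d : ℝ) := by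
      rw [lt_sqrt (by norm_num)]
      have : (1 : ℝ) < d := by exact_mod_cast h1
      linarith
    unfold omg
    split_ifs
    · linarith
    · exact hd1
  obtain ⟨g1, g2, g3⟩ := gsh_pos hωirr
  set q : ℤ := ⌊omg d⌋ with hq
  have hq1 : 1 ≤ q := Int.le_floor.2 (by push_cast; exact hω1.le)
  set B : ℤ := 2 * q - σ with hB
  have hfr : Int.fract (omg d) = (s - B) / 2 := by
    have : Int.fract (omg d) = omg d - q := rfl
    rw [this, hω, hB]; push_cast; ring
  have hf0 : 0 < Int.fract (omg d) := by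
    have : (0 : ℝ) < (gsh (omg d))⁻¹ := by positivity
    unfold gsh at this
    rwa [inv_inv] at this
  have hf1 := Int.fract_lt_one (omg d)
  rw [hfr] at hf0 hf1
  have hσ1 : σ ≤ 1 ∧ 0 ≤ σ := by rcases hσ with ⟨-, h, -⟩ | ⟨-, h, -⟩ <;> omega
  have hB1 : 1 ≤ B := by omega
  have hBR : (1 : ℝ) ≤ B := by exact_mod_cast hB1
  obtain ⟨m, hm⟩ : ∃ m : ℤ, D = B ^ 2 + 4 * m := by
    rcases hσ with ⟨h4, hσ1, hD1⟩ | ⟨h4, hσ0, hD0⟩
    · have hBo : B % 2 = 1 := by omega
      obtain ⟨c, hc⟩ : ∃ c, B = 2 * c + 1 := ⟨B / 2, by omega⟩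
      obtain ⟨k, hk⟩ : ∃ k : ℤ, D = 4 * k + 1 := ⟨D / 4, by omega⟩
      exact ⟨k - c ^ 2 - c, by rw [hk, hc]; ring⟩
    · obtain ⟨c, hc⟩ : ∃ c, B = 2 * c := ⟨B / 2, by omega⟩
      exact ⟨d - c ^ 2, by rw [hD0, hc]; ring⟩
  have hBs : (B : ℝ) < s := by linarith
  have hm0 : 0 < m := by
    have h2 : (B : ℝ) ^ 2 < s ^ 2 := by nlinarith
    rw [hD, hm] at h2
    push_cast at h2
    have h3 : (0 : ℝ) < m := by linarith
    exact_mod_cast h3
  set x0 : ℝ := (B + s) / 2 with hx0
  have hx0i : Irrational x0 := by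
    have := (hs.intCast_add B).div_natCast (m := 2) (by norm_num)
    exact_mod_cast this
  have hx01 : 1 < x0 := by rw [hx0]; linarith
  have hx0fr : Int.fract x0 = Int.fract (omg d) := by
    have : x0 = omg d + ((q - σ : ℤ) : ℝ) := by
      rw [hx0, hω, hB]; push_cast; ring
    rw [this, Int.fract_add_intCast]
  have hgt : ∀ k, Irrational (gsh^[k] x0) ∧ 1 < gsh^[k] x0 := by
    intro k
    induction k with
    | zero => exact ⟨hx0i, hx01⟩
    | succ k ih =>
      rw [iterate_succ_apply']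
      obtain ⟨a1, a2, -⟩ := gsh_pos ih.1
      exact ⟨a2, a1⟩
  refine ⟨m, B, s, fun k => gsh^[k] x0, fun k => ⌊gsh^[k] x0⌋.toNat, ?_, ?_, hm0, hB1, ?_⟩
  · exact {
      irr := hs
      sq := by rw [hD, hm]
      x0 := rfl
      step := fun k => iterate_succ_apply' gsh k x0
      fl := by
        intro k
        have : (0 : ℤ) ≤ ⌊gsh^[k] x0⌋ := Int.le_floor.2 (by
          push_cast; linarith [(hgt k).2])
        exact Int.toNat_of_nonneg this
      Bs := hBs
      sB := by linarith
      x0pos := hx01 }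
  · change gsh x0 = gsh (omg d)
    unfold gsh
    rw [hx0fr]
  · rcases hσ with ⟨h4, hσ1, hD1⟩ | ⟨h4, hσ0, hD0⟩
    · exact Or.inl ⟨h4, by rw [← hm, hD1], by omega⟩
    · exact Or.inr ⟨h4, by rw [← hm, hD0], by omega⟩

end Pool.Agent.LibH4.CFO


end

section

/-!
Odd periods of any length: small primitive norms are last coefficients of the states.
-/

namespace Pool.Agent.LibH4.LO

open Function Pool.Agent.Lib_helper5 Pool.Agent.LibH4 Pool.Agent.LibH4.CFO

variable {m B : ℤ} {s : ℝ} {x : ℕ → ℝ} {c : ℕ → ℕ}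

/-- the form of a state -/
def F (m B : ℤ) (c : ℕ → ℕ) (k : ℕ) (v u : ℤ) : ℤ :=
  QP m B c k * v ^ 2 + QR m B c k * u * v - QS m B c k * u ^ 2

lemma F_succ (k : ℕ) (v u : ℤ) :
    F m B c k v u = - F m B c (k + 1) (u - c k * v) v := by
  unfold F
  rw [QP_succ, QR_succ, QS_succ]
  ring

lemma step_inv (h : Data m B s x c) (k : ℕ) : (Int.fract (x k))⁻¹ = x (k + 1) := by
  rw [h.step k]; rfl

lemma conv_pos (h : Data m B s x c) (n : ℕ) (k : ℕ) : (0 : ℚ) < (x k).convergent n := by
  induction n generalizing k with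
  | zero =>
    rw [Real.convergent_zero, ← h.fl k]
    have := (inv_of h k).cpos
    exact_mod_cast this
  | succ n ih =>
    rw [Real.convergent_succ, step_inv h, ← h.fl k]
    have h1 := ih (k + 1)
    have h2 : (0 : ℚ) ≤ ((c k : ℤ) : ℚ) := by positivity
    have h3 : (0 : ℚ) < ((x (k + 1)).convergent n)⁻¹ := by positivity
    linarith

/-- values of the form at the convergents -/
lemma conv_val (h : Data m B s x c) (n : ℕ) : ∀ (k : ℕ) (u v : ℤ), 0 < v → IsCoprime u v →
    ((u : ℚ) / v = (x k).convergent n) → |F m B c k v u| = QS m B c (k + 1 + n) := by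
  induction n with
  | zero =>
    intro k u v hv hco he
    rw [Real.convergent_zero, ← h.fl k] at he
    have hv' : (v : ℚ) ≠ 0 := by exact_mod_cast hv.ne'
    rw [div_eq_iff hv'] at he
    have he' : u = c k * v := by exact_mod_cast he
    have hv1 : IsUnit v := by
      rw [he'] at hco
      exact isCoprime_self.1 (IsCoprime.of_mul_left_right hco)
    have hv2 : v = 1 := by
      rcases Int.isUnit_iff.1 hv1 with h1 | h1
      · exact h1
      · omega
    rw [hv2, mul_one] at he'
    subst he' hv2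
    have e : F m B c k 1 (c k) = QS m B c (k + 1) := by
      unfold F
      rw [QS_succ]
      ring
    rw [e]
    exact abs_of_pos (inv_of h (k + 1)).Spos
  | succ n ih =>
    intro k u v hv hco he
    rw [Real.convergent_succ, step_inv h, ← h.fl k] at he
    have hq := conv_pos h n (k + 1)
    have hv' : (0 : ℚ) < v := by exact_mod_cast hv
    have h1 : ((u - c k * v : ℤ) : ℚ) / v = ((x (k + 1)).convergent n)⁻¹ := by
      push_cast
      rw [sub_div, he, mul_div_cancel_right₀ _ hv'.ne']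
      push_cast
      ring
    have h2 : (0 : ℚ) < ((u - c k * v : ℤ) : ℚ) := by
      have h3 : ((u - c k * v : ℤ) : ℚ) = ((x (k + 1)).convergent n)⁻¹ * v := by
        rw [← h1, div_mul_cancel₀ _ hv'.ne']
      rw [h3]
      positivity
    have h3 : 0 < u - c k * v := by exact_mod_cast h2
    have h4 : ((v : ℚ) / ((u - c k * v : ℤ) : ℚ)) = (x (k + 1)).convergent n := by
      rw [← inv_div, h1, inv_inv]
    have hco' : IsCoprime v (u - c k * v) := by
      obtain ⟨a, b, hab⟩ := hco
      exact ⟨b + a * c k, a, by linear_combination hab⟩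
    have h5 := ih (k + 1) v (u - c k * v) h3 hco' h4
    rw [F_succ, abs_neg, h5]
    congr 1
    ring

/-- the convergents of the inverse -/
lemma conv_inv {θ : ℝ} (hθ : 1 < θ) {q : ℚ} (hq : q ≠ 0) {n : ℕ}
    (h : q = (θ⁻¹).convergent n) : ∃ i, q⁻¹ = θ.convergent i := by
  have h0 : ⌊θ⁻¹⌋ = 0 := by
    rw [Int.floor_eq_iff]
    constructor
    · push_cast; positivity
    · push_cast
      rw [zero_add]
      exact inv_lt_one_of_one_lt₀ hθ
  cases n with
  | zero =>
    rw [Real.convergent_zero, h0] at h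
    exact absurd (by exact_mod_cast h) hq
  | succ n =>
    refine ⟨n, ?_⟩
    have hf : Int.fract θ⁻¹ = θ⁻¹ := by
      rw [Int.fract, h0]; push_cast; ring
    rw [Real.convergent_succ, h0, hf, inv_inv] at h
    rw [h]
    push_cast
    rw [zero_add, inv_inv]

/-- **small primitive norms** -/
theorem small_norm_aux (h : Data m B s x c) (hm : 0 < m) (hB : 1 ≤ B) {u v : ℤ} (hv : 0 < v)
    (huv : v * B ≤ 2 * u) (hco : IsCoprime u v)
    (hn : 4 * (u ^ 2 - B * u * v - m * v ^ 2) ^ 2 < B ^ 2 + 4 * m) :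
    ∃ j, QS m B c j = |u ^ 2 - B * u * v - m * v ^ 2| := by
  have hBR : (1 : ℝ) ≤ B := by exact_mod_cast hB
  have hs : 0 < s := by linarith [h.Bs]
  have hsq : s ^ 2 = (B : ℝ) ^ 2 + 4 * m := by
    have := h.sq
    push_cast at this
    exact this
  have hvR : (0 : ℝ) < v := by exact_mod_cast hv
  have hv1 : (1 : ℝ) ≤ v := by exact_mod_cast hv
  have huR : (v : ℝ) * B ≤ 2 * u := by exact_mod_cast huv
  have hu0 : (0 : ℝ) < u := by nlinarith
  have huI : 0 < u := by exact_mod_cast hu0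
  have hmR : (0 : ℝ) < m := by exact_mod_cast hm
  -- the norm
  set n : ℤ := u ^ 2 - B * u * v - m * v ^ 2 with hn_def
  have hF : F m B c 0 v u = -n := by
    unfold F
    have e1 : QP m B c 0 = m := rfl
    have e2 : QR m B c 0 = B := rfl
    have e3 : QS m B c 0 = 1 := rfl
    rw [e1, e2, e3, hn_def]
    ring
  have hx0 := h.x0
  have hθ : 1 < x 0 := h.x0pos
  -- the factors
  have hA : ((n : ℤ) : ℝ) = (u - v * x 0) * (u - v * ((B - s) / 2)) := by
    rw [hx0, hn_def]
    push_cast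
    linear_combination ((v : ℝ) ^ 2 / 4) * hsq
  set b' : ℝ := u - v * ((B - s) / 2) with hb'
  have hb'pos : 0 < b' := by
    have h1 : (v : ℝ) * ((B - s) / 2) < 0 := by
      have : (B - s) / 2 < 0 := by linarith [h.Bs]
      exact mul_neg_of_pos_of_neg hvR this
    linarith
  have h2n : 2 * |(n : ℝ)| < s := by
    have h1 : (4 : ℝ) * (n : ℝ) ^ 2 < s ^ 2 := by
      rw [hsq]
      exact_mod_cast hn
    have h2 : (2 * |(n : ℝ)|) ^ 2 < s ^ 2 := by
      rw [mul_pow, sq_abs]
      linarith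
    exact lt_of_pow_lt_pow_left₀ 2 hs.le h2
  have habs : |(n : ℝ)| = |u - v * x 0| * b' := by
    rw [hA, abs_mul, abs_of_pos hb'pos]
  have hnpos : 0 ≤ |(n : ℝ)| := abs_nonneg _
  have hirr : (u : ℝ) - v * x 0 ≠ 0 := by
    intro h0
    have hxi := (inv_of h 0).xi
    apply hxi
    refine ⟨(u : ℚ) / v, ?_⟩
    push_cast
    rw [div_eq_iff hvR.ne']
    linarith
  suffices hconv : ∃ i, ((u : ℚ) / v) = (x 0).convergent i by
    obtain ⟨i, hi⟩ := hconv
    have := conv_val h i 0 u v hv hco hi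
    rw [hF, abs_neg] at this
    exact ⟨_, this.symm⟩
  have hcoN : Nat.Coprime u.natAbs v.natAbs := Int.isCoprime_iff_gcd_eq_one.1 hco
  rcases lt_or_gt_of_ne hirr with hneg | hpos
  · -- `u < v θ`
    have hlt : (u : ℝ) < v * x 0 := by linarith
    have hden : ((v : ℚ) / u).den = u := by
      have := Rat.den_div_eq_of_coprime huI hcoN.symm
      exact_mod_cast this
    have hkey : 2 * |(n : ℝ)| * u < b' * x 0 := by
      have h1 : (m : ℝ) * u < m * (v * x 0) := mul_lt_mul_of_pos_left hlt hmR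
      have h2 : b' * x 0 = u * x 0 + m * v := by
        rw [hb', hx0]
        linear_combination ((v : ℝ) / 4) * hsq
      have h3 : x 0 * (u * x 0 + m * v) > x 0 * (u * s) := by
        have e1 : x 0 * s = x 0 * x 0 + m := by
          rw [hx0]
          linear_combination (-(1 : ℝ) / 4) * hsq + (1 / 2) * hsq
        nlinarith
      have h4 : u * s < u * x 0 + m * v := lt_of_mul_lt_mul_left h3 (by linarith)
      rw [h2]
      calc 2 * |(n : ℝ)| * u < s * u := mul_lt_mul_of_pos_right h2n hu0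
        _ = u * s := by ring
        _ < _ := h4
    have hleg : |(x 0)⁻¹ - (((v : ℚ) / u : ℚ) : ℝ)| < 1 / (2 * (((v : ℚ) / u).den : ℝ) ^ 2) := by
      have hdR : ((((v : ℚ) / u).den : ℕ) : ℝ) = u := by
        have : (((((v : ℚ) / u).den : ℕ) : ℤ) : ℝ) = ((u : ℤ) : ℝ) := by rw [hden]
        exact_mod_cast this
      rw [hdR]
      have hx0p : 0 < x 0 := by linarith
      have e1 : (x 0)⁻¹ - (((v : ℚ) / u : ℚ) : ℝ) = (u - v * x 0) / (u * x 0) := by
        push_cast
        field_simp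
      rw [e1, abs_div, abs_of_pos (show 0 < (u : ℝ) * x 0 by positivity),
        div_lt_div_iff₀ (by positivity) (by positivity)]
      have e2 : |(u : ℝ) - v * x 0| = |(n : ℝ)| / b' := by
        rw [habs, mul_div_cancel_right₀ _ hb'pos.ne']
      rw [e2, div_mul_eq_mul_div, div_lt_iff₀ hb'pos]
      nlinarith
    obtain ⟨i, hi⟩ := Real.exists_rat_eq_convergent hleg
    have hq0 : ((v : ℚ) / u) ≠ 0 := by
      have h1 : (0 : ℚ) < v := by exact_mod_cast hv
      have h2 : (0 : ℚ) < u := by exact_mod_cast huI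
      positivity
    obtain ⟨j, hj⟩ := conv_inv hθ hq0 hi
    rw [inv_div] at hj
    exact ⟨j, hj⟩
  · -- `v θ < u`
    have hlt : (v : ℝ) * x 0 < u := by linarith
    have hden : ((u : ℚ) / v).den = v := by
      have := Rat.den_div_eq_of_coprime hv hcoN
      exact_mod_cast this
    have hkey : 2 * |(n : ℝ)| * v < b' := by
      have h1 : b' = (u - v * x 0) + v * s := by
        rw [hb', hx0]; ring
      rw [h1]
      nlinarith
    have hleg : |x 0 - (((u : ℚ) / v : ℚ) : ℝ)| < 1 / (2 * (((u : ℚ) / v).den : ℝ) ^ 2) := by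
      have hdR : ((((u : ℚ) / v).den : ℕ) : ℝ) = v := by
        have : (((((u : ℚ) / v).den : ℕ) : ℤ) : ℝ) = ((v : ℤ) : ℝ) := by rw [hden]
        exact_mod_cast this
      rw [hdR]
      have e1 : x 0 - (((u : ℚ) / v : ℚ) : ℝ) = -((u - v * x 0) / v) := by
        push_cast
        field_simp
        ring
      rw [e1, abs_neg, abs_div, abs_of_pos hvR, div_lt_div_iff₀ hvR (by positivity)]
      have e2 : |(u : ℝ) - v * x 0| = |(n : ℝ)| / b' := by
        rw [habs, mul_div_cancel_right₀ _ hb'pos.ne']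
      rw [e2, div_mul_eq_mul_div, div_lt_iff₀ hb'pos]
      nlinarith
    exact Real.exists_rat_eq_convergent hleg

/-- **small primitive norms** -/
theorem small_norm (h : Data m B s x c) (hm : 0 < m) (hB : 1 ≤ B) {X Y : ℤ} (hco : IsCoprime X Y)
    (hn : 4 * (X ^ 2 + B * X * Y - m * Y ^ 2) ^ 2 < B ^ 2 + 4 * m) :
    ∃ j, QS m B c j = |X ^ 2 + B * X * Y - m * Y ^ 2| := by
  rcases eq_or_ne Y 0 with hY | hY
  · subst hY
    refine ⟨0, ?_⟩
    have hX : IsUnit X := by
      rw [isCoprime_zero_right] at hco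
      exact hco
    have h1 : X ^ 2 = 1 := by
      rcases Int.isUnit_iff.1 hX with h1 | h1 <;> rw [h1] <;> norm_num
    have h2 : X ^ 2 + B * X * 0 - m * 0 ^ 2 = 1 := by rw [h1]; ring
    rw [h2]
    rfl
  -- the sign of `Y`
  have main : ∀ u v : ℤ, 0 < v → IsCoprime u v →
      4 * (u ^ 2 - B * u * v - m * v ^ 2) ^ 2 < B ^ 2 + 4 * m →
      ∃ j, QS m B c j = |u ^ 2 - B * u * v - m * v ^ 2| := by
    intro u v hv hco hn
    by_cases huv : v * B ≤ 2 * u
    · exact small_norm_aux h hm hB hv huv hco hn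
    · push Not at huv
      have e : (v * B - u) ^ 2 - B * (v * B - u) * v - m * v ^ 2 =
          u ^ 2 - B * u * v - m * v ^ 2 := by ring
      have hco' : IsCoprime (v * B - u) v := by
        obtain ⟨a, b, hab⟩ := hco
        exact ⟨-a, b + a * B, by linear_combination hab⟩
      have := small_norm_aux h hm hB hv (u := v * B - u) (by linarith) hco' (by rw [e]; exact hn)
      rw [e] at this
      exact this
  rcases lt_or_gt_of_ne hY with hneg | hpos
  · have e : X ^ 2 + B * X * Y - m * Y ^ 2 = X ^ 2 - B * X * (-Y) - m * (-Y) ^ 2 := by ring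
    rw [e] at hn ⊢
    exact main X (-Y) (by omega) hco.neg_right hn
  · have e : X ^ 2 + B * X * Y - m * Y ^ 2 = (-X) ^ 2 - B * (-X) * Y - m * Y ^ 2 := by ring
    rw [e] at hn ⊢
    exact main (-X) Y hpos hco.neg_left hn

end Pool.Agent.LibH4.LO


end

section

/-!
Odd periods of any length: the primes up to nineteen are inert when at most three quotients of the
first half of the period are not divisible by `M`.
-/

namespace Pool.Agent.LibH4.LO

open Function Pool.Agent.Lib_helper5 Pool.Agent.LibH4 Pool.Agent.LibH4.CFO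

variable {m B : ℤ} {s : ℝ} {x : ℕ → ℝ} {c : ℕ → ℕ}

lemma per_of {L : ℕ} (h : Data m B s x c) (hL : minimalPeriod gsh (x 1) = L) (k : ℕ) :
    x (k + L) = x k := by
  apply x_per h
  have := isPeriodicPt_minimalPeriod gsh (x 1)
  rw [hL] at this
  exact this

lemma per_mul {L : ℕ} (h : Data m B s x c) (hL : minimalPeriod gsh (x 1) = L) (k t : ℕ) :
    x (k + t * L) = x k := by
  induction t with
  | zero => rw [zero_mul, add_zero]
  | succ t ih => rw [Nat.succ_mul, ← add_assoc, per_of h hL, ih]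

/-- a coefficient different from one occurs in the first half -/
lemma half_index (h : Data m B s x c) {I : ℕ} (hL : minimalPeriod gsh (x 1) = 2 * I + 1) {j : ℕ}
    (hj : QS m B c j ≠ 1) : ∃ i, 1 ≤ i ∧ i ≤ I ∧ QS m B c i = QS m B c j := by
  have hper := per_of h hL
  have e1 : QS m B c j = QS m B c (j % (2 * I + 1)) := by
    have h1 := per_mul h hL (j % (2 * I + 1)) (j / (2 * I + 1))
    rw [Nat.mod_add_div'] at h1
    exact (state_eq h h1).2.2
  set j0 := j % (2 * I + 1) with hj0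
  have hlt : j0 < 2 * I + 1 := Nat.mod_lt _ (by omega)
  have hne : j0 ≠ 0 := by
    intro h0
    rw [e1, h0] at hj
    exact hj rfl
  by_cases hI : j0 ≤ I
  · exact ⟨j0, by omega, hI, e1.symm⟩
  · obtain ⟨p1, -, -, -⟩ := palin h hper (2 * I + 1 - j0) j0 (by omega)
    exact ⟨2 * I + 1 - j0, by omega, by omega, by rw [e1, p1]⟩

/-- ramified primes do not occur -/
lemma ram (h : Data m B s x c) {I : ℕ} (hL : minimalPeriod gsh (x 1) = 2 * I + 1) {p : ℕ}
    (hp : p.Prime) (hD : (p : ℤ) ∣ B ^ 2 + 4 * m) {j : ℕ} (hj1 : 1 ≤ j) (hj2 : j ≤ I)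
    (hS : QS m B c j = p) : False := by
  have hper := per_of h hL
  have ij := inv_of h j
  have hpz : Prime (p : ℤ) := Nat.prime_iff_prime_int.1 hp
  have hR : (p : ℤ) ∣ QR m B c j := by
    have h1 : (p : ℤ) ∣ QR m B c j ^ 2 := by
      have e : QR m B c j ^ 2 = (B ^ 2 + 4 * m) - 4 * QP m B c j * QS m B c j := by
        rw [← ij.disc]; ring
      rw [e, hS]
      exact dvd_sub hD (Dvd.intro_left _ rfl)
    exact hpz.dvd_of_dvd_pow h1
  obtain ⟨r, hr⟩ := hR
  obtain ⟨p1, p2, p3, p4⟩ := palin h hper j (2 * I + 1 - j) (by omega)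
  have ij' := inv_of h (2 * I + 1 - j)
  have hsR' := ij'.sR
  rw [p1] at hsR'
  have ht := int_eq_of (S := QS m B c j) (a := QR m B c (2 * I + 1 - j)) (b := QR m B c j)
    ((c j : ℤ) - r) (by rw [p2, QR_succ, hr, hS]; ring) ij'.Rs hsR' ij.Rs ij.sR
  have hRR : QR m B c (2 * I + 1 - j) = QR m B c j := by
    rw [p2, QR_succ, hr, hS]
    have : (c j : ℤ) = r := by linarith
    rw [this]; ring
  have hx : x (2 * I + 1 - j) = x j := x_eq_of_state h hRR p1
  -- the period divides the difference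
  obtain ⟨t, ht1, ht2, ht3⟩ : ∃ t, 0 < t ∧ t < 2 * I + 1 ∧ 2 * I + 1 - j = j + t :=
    ⟨2 * I + 1 - j - j, by omega, by omega, by omega⟩
  rw [ht3] at hx
  have hfw : ∀ k, x (j + k + t) = x (j + k) := by
    intro k
    induction k with
    | zero => exact hx
    | succ k ih =>
      rw [show j + (k + 1) + t = (j + k + t) + 1 by ring, h.step, ih, ← h.step]
      rfl
  have h1 : x (1 + t) = x 1 := by
    have e1 := per_mul h hL (1 + t) j
    have e2 := per_mul h hL 1 j
    obtain ⟨w, hw⟩ : ∃ w, 1 + j * (2 * I + 1) = j + w := by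
      refine ⟨1 + j * (2 * I + 1) - j, ?_⟩
      have : j ≤ j * (2 * I + 1) := Nat.le_mul_of_pos_right _ (by omega)
      omega
    rw [← e1, ← e2, show 1 + t + j * (2 * I + 1) = (1 + j * (2 * I + 1)) + t by ring, hw, hfw]
  have h2 : gsh^[t] (x 1) = x 1 := by rw [iter h]; exact h1
  have := IsPeriodicPt.minimalPeriod_le ht1 h2
  omega

lemma cS_lt (h : Data m B s x c) (k : ℕ) : (c k : ℝ) * QS m B c k < s := by
  have ik := inv_of h k
  have h1 : (c k : ℝ) ≤ x k := by
    have := Int.floor_le (x k)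
    rw [← h.fl k] at this
    exact_mod_cast this
  have hS : (0 : ℝ) < QS m B c k := by exact_mod_cast ik.Spos
  rw [ik.xe, le_div_iff₀ (by positivity)] at h1
  have := ik.Rs
  linarith

/-- **small primes are inert** -/
theorem inert (h : Data m B s x c) (hm : 0 < m) (hB : 1 ≤ B) {I : ℕ}
    (hL : minimalPeriod gsh (x 1) = 2 * I + 1)
    [IsDomain (QuadraticAlgebra ℤ m B)] [UniqueFactorizationMonoid (QuadraticAlgebra ℤ m B)]
    {r : ℕ} (hDr : 4 * 19 ^ (2 * r + 2) < B ^ 2 + 4 * m)
    (hnz : ((Finset.Ico 1 (1 + I)).filter fun i => c i < 2 * 19 ^ (r + 1)).card ≤ r)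
    {p : ℕ} (hp : p.Prime) (hp19 : p ≤ 19) (X : ℤ) : ¬ (p : ℤ) ∣ X ^ 2 + B * X - m := by
  intro hX
  have hBR : (1 : ℝ) ≤ B := by exact_mod_cast hB
  have hs : 0 < s := by linarith [h.Bs]
  have hsq : s ^ 2 = ((B ^ 2 + 4 * m : ℤ) : ℝ) := h.sq
  set D : ℤ := B ^ 2 + 4 * m with hD
  have hlt : ∀ z : ℤ, 0 ≤ z → (z : ℝ) < s → z ^ 2 < D := by
    intro z hz hzs
    have h1 : (z : ℝ) ^ 2 < s ^ 2 := pow_lt_pow_left₀ hzs (by exact_mod_cast hz) (by norm_num)
    rw [hsq] at h1
    exact_mod_cast h1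
  have hp1 : (1 : ℤ) < p := by exact_mod_cast hp.one_lt
  have hp0 : (0 : ℤ) < p := by omega
  have hp19z : (p : ℤ) ≤ 19 := by exact_mod_cast hp19
  have hpr : ∀ e : ℕ, e ≤ r → 4 * ((p : ℤ) ^ (e + 1)) ^ 2 < D := by
    intro e he
    have h1 : (p : ℤ) ^ (e + 1) ≤ 19 ^ (e + 1) := pow_le_pow_left₀ (by omega) hp19z _
    have h2 : (19 : ℤ) ^ (e + 1) ≤ 19 ^ (r + 1) := pow_le_pow_right₀ (by norm_num) (by omega)
    have h3 : ((p : ℤ) ^ (e + 1)) ^ 2 ≤ (19 ^ (r + 1)) ^ 2 :=
      pow_le_pow_left₀ (by positivity) (h1.trans h2) 2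
    have h4 : ((19 : ℤ) ^ (r + 1)) ^ 2 = 19 ^ (2 * r + 2) := by rw [← pow_mul]; congr 1; ring
    linarith
  obtain ⟨π, hπ⟩ := exists_norm_of_root hp hX
  have hnorm : ∀ γ : QuadraticAlgebra ℤ m B,
      γ.re ^ 2 + B * γ.re * γ.im - m * γ.im ^ 2 = γ.norm := by
    intro γ
    rw [QuadraticAlgebra.norm_def]; ring
  -- the prime is unramified
  have hram : ¬ (p : ℤ) ∣ D := by
    intro hpD
    have hn : 4 * (π.re ^ 2 + B * π.re * π.im - m * π.im ^ 2) ^ 2 < B ^ 2 + 4 * m := by
      rw [hnorm, ← Int.natAbs_sq, hπ, ← hD]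
      have := hpr 0 (Nat.zero_le _)
      rwa [zero_add, pow_one] at this
    obtain ⟨j, hj⟩ := small_norm h hm hB (one_coprime hp hπ) hn
    rw [hnorm, Int.abs_eq_natAbs, hπ] at hj
    obtain ⟨i, h1, h2, h3⟩ := half_index h hL (j := j) (by rw [hj]; exact_mod_cast hp.one_lt.ne')
    exact ram h hL hp hpD h1 h2 (by rw [h3, hj])
  -- powers
  have hpow : ∀ n : ℕ, 1 ≤ n → 4 * ((p : ℤ) ^ n) ^ 2 < D →
      ∃ i, 1 ≤ i ∧ i ≤ I ∧ QS m B c i = (p : ℤ) ^ n := by
    intro n hn1 hn
    have hN : (π ^ n).norm.natAbs = p ^ n := by rw [map_pow, Int.natAbs_pow, hπ]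
    have hn' : 4 * ((π ^ n).re ^ 2 + B * (π ^ n).re * (π ^ n).im - m * (π ^ n).im ^ 2) ^ 2 <
        B ^ 2 + 4 * m := by
      rw [hnorm, ← Int.natAbs_sq, hN, ← hD]
      push_cast
      exact hn
    obtain ⟨j, hj⟩ := small_norm h hm hB (pow_coprime hp hram hπ n) hn'
    rw [hnorm, Int.abs_eq_natAbs, hN] at hj
    push_cast at hj
    obtain ⟨i, h1, h2, h3⟩ := half_index h hL (j := j) (by
      rw [hj]
      have : 1 < (p : ℤ) ^ n := one_lt_pow₀ hp1 (by omega)
      exact this.ne')
    exact ⟨i, h1, h2, by rw [h3, hj]⟩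
  -- the largest exponent
  obtain ⟨n, hn1, hn2⟩ : ∃ n : ℕ, 4 * ((p : ℤ) ^ n) ^ 2 < D ∧ D ≤ 4 * ((p : ℤ) ^ (n + 1)) ^ 2 := by
    have hex : ∃ n : ℕ, D ≤ 4 * ((p : ℤ) ^ n) ^ 2 := by
      refine ⟨D.toNat, ?_⟩
      have h1 : D ≤ D.toNat := Int.self_le_toNat D
      have h2 : (D.toNat : ℤ) < (p : ℤ) ^ D.toNat := by
        exact_mod_cast Nat.lt_pow_self hp.one_lt
      have h3 : 0 ≤ (D.toNat : ℤ) := by positivity
      nlinarith
    classical
    have h1 := Nat.find_spec hex
    have h0 : Nat.find hex ≠ 0 := by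
      intro h0
      rw [h0, pow_zero] at h1
      have h2 := hpr 0 (Nat.zero_le _)
      rw [zero_add, pow_one] at h2
      nlinarith
    obtain ⟨n, hn⟩ := Nat.exists_eq_succ_of_ne_zero h0
    refine ⟨n, ?_, ?_⟩
    · have := Nat.find_min hex (m := n) (by omega)
      push Not at this
      exact this
    · rw [hn] at h1
      exact h1
  have hnr : r + 1 ≤ n := by
    by_contra hcon
    have h1 := hpr n (by omega)
    linarith
  -- the quotients
  have hq : ∀ e ∈ Finset.range (r + 1),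
      ∃ i, i ∈ (Finset.Ico 1 (1 + I)).filter (fun i => c i < 2 * 19 ^ (r + 1)) ∧
      QS m B c i = (p : ℤ) ^ (n - e) := by
    intro e he
    rw [Finset.mem_range] at he
    have hle : (p : ℤ) ^ (n - e) ≤ p ^ n := pow_le_pow_right₀ (by omega) (by omega)
    have hpos : 0 < (p : ℤ) ^ (n - e) := by positivity
    obtain ⟨i, h1, h2, h3⟩ := hpow (n - e) (by omega) (by
      have := pow_le_pow_left₀ hpos.le hle 2
      linarith)
    refine ⟨i, ?_, h3⟩
    rw [Finset.mem_filter, Finset.mem_Ico]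
    refine ⟨⟨h1, by omega⟩, ?_⟩
    have h4 := cS_lt h i
    have h5 : ((c i * p ^ (n - e) : ℤ) : ℝ) < s := by
      rw [h3] at h4
      push_cast at h4 ⊢
      exact h4
    have h6 := hlt _ (by positivity) h5
    have h7 : (c i * p ^ (n - e) : ℤ) < 2 * p ^ (n + 1) := by
      have h8 : (c i * p ^ (n - e) : ℤ) ^ 2 < (2 * (p : ℤ) ^ (n + 1)) ^ 2 := by
        rw [mul_pow 2]
        linarith
      exact lt_of_pow_lt_pow_left₀ 2 (by positivity) h8
    have h8 : (p : ℤ) ^ (n + 1) = p ^ (e + 1) * p ^ (n - e) := by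
      rw [← pow_add]
      congr 1
      omega
    rw [h8, ← mul_assoc] at h7
    have h9 : (c i : ℤ) < 2 * p ^ (e + 1) := lt_of_mul_lt_mul_right h7 hpos.le
    have h10 : (p : ℤ) ^ (e + 1) ≤ 19 ^ (r + 1) :=
      (pow_le_pow_left₀ (by omega) hp19z _).trans (pow_le_pow_right₀ (by norm_num) (by omega))
    have h11 : (c i : ℤ) < 2 * 19 ^ (r + 1) := by linarith
    exact_mod_cast h11
  choose! f hf1 hf2 using hq
  have hcard : (Finset.range (r + 1)).card ≤
      ((Finset.Ico 1 (1 + I)).filter fun i => c i < 2 * 19 ^ (r + 1)).card := by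
    apply Finset.card_le_card_of_injOn f (fun e he => hf1 e he)
    intro e he e' he' hee
    have he1 := Finset.mem_range.1 (Finset.mem_coe.1 he)
    have he2 := Finset.mem_range.1 (Finset.mem_coe.1 he')
    have h1 := hf2 e (Finset.mem_coe.1 he)
    rw [hee, hf2 e' (Finset.mem_coe.1 he')] at h1
    have h2 : n - e' = n - e := pow_right_injective₀ hp0 hp1.ne' h1
    omega
  rw [Finset.card_range] at hcard
  omega

end Pool.Agent.LibH4.LO


end
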