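import Mathlib
import Pool.Agent.RQM.C02
import Pool.Agent.RQM.C04
import Pool.Agent.RQM.C06
import Pool.Agent.RQM.C07
import Pool.Agent.RQM.C08
import Pool.Agent.RQM.C09
import Pool.Agent.RQM.C11
import Pool.Agent.RQM.C12
import Pool.Agent.RQM.C13
import Pool.Agent.RQM.C14
import Pool.Agent.RQM.C15
import Pool.Agent.RQM.C40
import Pool.Agent.RQM.C43

/-! Parts: Lib_helper5.E4, Lib_helper5.T5N, Lib_helper5.P5Rel, Lib_helper5.P4Rel, Lib_helper5.K4.Sys, Lib_helper4.LO.Half -/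

namespace Pool.Agent.LibH4
end Pool.Agent.LibH4
namespace Pool.Agent.LibH4.FA
end Pool.Agent.LibH4.FA
namespace Pool.Agent.LibH4.KF
end Pool.Agent.LibH4.KF
namespace Pool.Agent.LibH4.Ker
end Pool.Agent.LibH4.Ker
namespace Pool.Agent.LibH4.T6
end Pool.Agent.LibH4.T6
namespace Pool.Agent.Lib_helper5
end Pool.Agent.Lib_helper5
namespace Pool.Agent.Lib_helper5.K5
end Pool.Agent.Lib_helper5.K5
namespace Pool.Agent.Lib_helper5.LK
end Pool.Agent.Lib_helper5.LK

section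

/-!
Period four: the palindromic cycle `(B; a, b, a)`.
-/

namespace Pool.Agent.Lib_helper5

open Finset (range)
open Pool.Agent.LibH4 Pool.Agent.LibH4.FA

namespace E4

/-- the first coefficients -/
def P (m r : ℤ) : ℕ → ℤ
  | 1 => 1
  | 3 => r
  | _ => m

/-- the middle coefficients -/
def R (a B : ℕ) (m : ℤ) : ℕ → ℤ
  | 2 => 2 * a * m - B
  | 3 => 2 * a * m - B
  | _ => B

/-- the last coefficients -/
def S (m r : ℤ) : ℕ → ℤ
  | 0 => 1
  | 2 => r
  | 4 => 1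
  | _ => m

/-- the multipliers -/
def c (a b B : ℕ) : ℕ → ℕ
  | 0 => B
  | 2 => b
  | _ => a

variable {a b B : ℕ} {m r : ℤ}

theorem cyc (h : Par a b B m r) : CG.CycM m B 4 (P m r) (R a B m) (S m r) (c a b B) where
  hP k hk := by
    interval_cases k <;> simp [P, S]
  hR k hk := by
    have h2 := h.e2
    interval_cases k <;> simp only [R, S, c] <;> linarith
  hS k hk := by
    have h1 := h.e1
    have h2 := h.e2
    interval_cases k <;> simp only [P, R, S, c]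
    · ring
    · linarith
    · linear_combination (b : ℤ) * h2
    · linarith
  P0 := rfl
  R0 := rfl
  S0 := rfl
  Spos k hk := by
    have h1 := h.hm
    have h2 := h.hr
    interval_cases k <;> simp only [S] <;> omega
  Ppos0 := by
    have h1 := h.hm
    simp only [P]; omega
  cpos k hk := by
    have h1 := h.ha
    have h2 := h.hb
    have h3 := h.hB
    interval_cases k <;> simp only [c] <;> omega
  Pm := rfl
  RB := rfl
  S1 := rfl

lemma closing (h : Par a b B m r) :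
    CG.rho m B (c a b B) 4 = CG.rho m B (c a b B) (4 + 1) * CG.om m B := by
  have e2 : CG.rho m B (c a b B) 2 = ⟨-B, 1⟩ := by
    rw [CG.rho_add _ 0, CG.rho_zero, CG.rho_one]
    ext
    · simp [CG.om, c]
    · simp [CG.om, c]
  have e3 : CG.rho m B (c a b B) 3 = ⟨1 + a * B, -a⟩ := by
    rw [CG.rho_add _ 1, CG.rho_one, e2]
    ext
    · simp [c, QuadraticAlgebra.re_one]
    · simp [c, QuadraticAlgebra.im_one]
  have e4 : CG.rho m B (c a b B) 4 = ⟨-B - b * (1 + a * B), 1 + b * a⟩ := by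
    rw [CG.rho_add _ 2, e2, e3]
    ext
    · simp [c]
    · simp [c]
  have e5 : CG.rho m B (c a b B) (4 + 1) =
      ⟨1 + a * B + a * (B + b * (1 + a * B)), - a - a * (1 + b * a)⟩ := by
    rw [CG.rho_add _ 3, e3, e4]
    ext
    · simp [c]; ring
    · simp [c]
  have h1 := h.e1
  have h2 := h.e2
  rw [e4, e5, CG.om, QuadraticAlgebra.mk_mul_mk]
  ext
  · simp only
    rw [h1] at h2
    linear_combination (-1) * h2
  · simp only; ring

lemma P_ne (h : Par a b B m r) : ∀ k < 4, k ≠ 1 → P m r k ≠ 1 := by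
  have h1 := h.hm
  have h2 := h.hr
  intro k hk hk1
  interval_cases k
  · simp only [P]; omega
  · exact absurd rfl hk1
  · simp only [P]; omega
  · simp only [P]; omega

/-- odd primes below `m`, different from `r`, are inert -/
theorem inert (h : Par a b B m r)
    [IsDomain (QuadraticAlgebra ℤ m (B : ℤ))]
    [UniqueFactorizationMonoid (QuadraticAlgebra ℤ m (B : ℤ))]
    {d : ℕ} (hd : (d : ℤ) = (B : ℤ) ^ 2 + 4 * m) (h8 : d % 8 = 5)
    (p : ℕ) (hp : p.Prime) (hp2 : p ≠ 2) (hpr : (p : ℤ) ≠ r) (hpm : (p : ℤ) < m) :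
    jacobiSym d p = -1 := by
  by_contra hj
  have hm0 : 0 < m := by have := h.hm; omega
  have hr0 : 0 < r := by have := h.hr; omega
  have hP0 := hp.two_le
  have hC := cyc h
  obtain ⟨k, hk, x, y, hx, hy, he⟩ := even_inert m B hm0 hC 2 rfl (by norm_num) (closing h)
    (P_ne h) hd h8 p hp hp2 hj
  have hx' : (1 : ℤ) ≤ x := by exact_mod_cast hx
  rcases Nat.eq_zero_or_pos y with hy0 | hy0
  · subst hy0
    have he' : P m r k * (x : ℤ) ^ 2 = p := by rw [← he]; push_cast; ring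
    have hP := eq_of_prime_mul_sq hp he'
    interval_cases k <;> simp only [P] at hP <;> omega
  · have hy1 : (1 : ℤ) ≤ y := by exact_mod_cast hy0
    have hyc : (y : ℤ) + 1 ≤ c a b B k * x := by exact_mod_cast hy
    have hxx : (1 : ℤ) ≤ (x : ℤ) ^ 2 := by nlinarith
    interval_cases k
    · simp only [P, R, S, c] at he hyc
      have h1 : m ≤ m * (x : ℤ) ^ 2 := by nlinarith
      have h2 : 0 ≤ (y : ℤ) * (B * x - y) := mul_nonneg (by linarith) (by linarith)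
      nlinarith
    · have h1 := E5.edge_gt (hC.cpos 1 (by omega)) (hC.toCyc.Ppos (k := 1) (by omega))
        (hC.Spos 1 (by omega)) (CG.hAend hC 1 (by omega)) hy1 hyc
      rw [he] at h1
      simp only [S] at h1
      omega
    · simp only [P, R, S, c] at he hyc
      -- `m x² + R x y - r y² ≥ m` since `R x - r y = r (b x - y)`
      have h1 : m ≤ m * (x : ℤ) ^ 2 := by nlinarith
      have h2 : 0 ≤ r * ((y : ℤ) * (b * x - y)) :=
        mul_nonneg hr0.le (mul_nonneg (by linarith) (by linarith))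
      have h3 : (2 * (a : ℤ) * m - B) * x * y - r * (y : ℤ) ^ 2 = r * ((y : ℤ) * (b * x - y)) := by
        rw [← h.e2]; ring
      nlinarith
    · have h1 := E5.edge_gt (hC.cpos 3 (by omega)) (hC.toCyc.Ppos (k := 3) (by omega))
        (hC.Spos 3 (by omega)) (CG.hAend hC 3 (by omega)) hy1 hyc
      rw [he] at h1
      simp only [S] at h1
      omega

end E4

end Pool.Agent.Lib_helper5


end

section

/-!
The congruence modulo an arbitrary integer `N` coprime to `6 d`; in particular modulo `l ^ 3` for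
a prime `l` dividing the conductor `q` exactly once.
-/

namespace Pool.Agent.Lib_helper5

open Finset (range)
open Pool.Agent.LibH4 Pool.Agent.LibH4.FA

namespace NN

variable {q N : ℕ} [NeZero N] (χ : ZMod q → ZMod N)

/-- the integral lift -/
def lift (x : ℤ) : ℤ := (χ (x : ZMod q)).valMinAbs

omit [NeZero N] in
lemma lift_cast (x : ℤ) : ((lift χ x : ℤ) : ZMod N) = χ (x : ZMod q) := by
  unfold lift
  exact ZMod.coe_valMinAbs _

omit [NeZero N] in
lemma lift_per (x : ℤ) : lift χ (x + q) = lift χ x := by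
  unfold lift
  push_cast
  simp

omit [NeZero N] in
lemma lift_odd (hN : N % 2 = 1) (hodd : ∀ x, χ (-x) = - χ x) (x : ℤ) :
    lift χ (-x) = - lift χ x := by
  unfold lift
  push_cast
  rw [hodd]
  apply ZMod.valMinAbs_neg_of_ne_half
  intro h
  omega

omit [NeZero N] in
lemma two_cancel (hN : N % 2 = 1) {x : ZMod N} (h : 2 * x = 0) : x = 0 := by
  have hc : Nat.Coprime 2 N := by
    rw [Nat.coprime_two_left]; exact Nat.odd_iff.2 hN
  have hu : IsUnit (2 : ZMod N) := by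
    have := (ZMod.unitOfCoprime 2 hc).isUnit
    simpa using this
  exact (hu.mul_right_eq_zero).1 h

omit [NeZero N] in
lemma chi_zero (hN : N % 2 = 1) (hodd : ∀ x, χ (-x) = - χ x) : χ 0 = 0 := by
  have h1 := hodd 0
  rw [neg_zero] at h1
  exact two_cancel hN (by linear_combination h1)

omit [NeZero N] in
lemma sum_reflect (q : ℕ) (hq : 0 < q) (h : ℕ → ZMod N) :
    ∑ r ∈ range q, h ((q - r) % q) = ∑ r ∈ range q, h r := by
  apply Finset.sum_nbij' (fun r => (q - r) % q) (fun r => (q - r) % q)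
  · intro r _
    exact Finset.mem_range.2 (Nat.mod_lt _ hq)
  · intro r _
    exact Finset.mem_range.2 (Nat.mod_lt _ hq)
  · intro r hr
    have hr' := Finset.mem_range.1 hr
    rcases Nat.eq_zero_or_pos r with h0 | h0
    · subst h0; simp
    · rw [Nat.mod_eq_of_lt (show q - r < q by omega), Nat.sub_sub_self hr'.le,
        Nat.mod_eq_of_lt hr']
  · intro r hr
    have hr' := Finset.mem_range.1 hr
    rcases Nat.eq_zero_or_pos r with h0 | h0
    · subst h0; simp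
    · rw [Nat.mod_eq_of_lt (show q - r < q by omega), Nat.sub_sub_self hr'.le,
        Nat.mod_eq_of_lt hr']
  · intro r _
    rfl

omit [NeZero N] in
lemma sum_chi_zero (hq : 0 < q) (hN : N % 2 = 1) (hodd : ∀ x, χ (-x) = - χ x) :
    ∑ r ∈ range q, χ (r : ZMod q) = 0 := by
  have h1 := sum_reflect (N := N) q hq (fun r => χ (r : ZMod q))
  have h2 : ∑ r ∈ range q, χ (((q - r) % q : ℕ) : ZMod q) = - ∑ r ∈ range q, χ (r : ZMod q) := by
    rw [← Finset.sum_neg_distrib]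
    apply Finset.sum_congr rfl
    intro r hr
    rw [← hodd]
    congr 1
    have hr' := Finset.mem_range.1 hr
    rw [ZMod.natCast_mod, Nat.cast_sub hr'.le]
    simp
  rw [h2] at h1
  exact two_cancel hN (by linear_combination -h1)

omit [NeZero N] in
lemma sum_chi_bZ (hq : 0 < q) (hN : N % 2 = 1) (hodd : ∀ x, χ (-x) = - χ x) :
    ∑ r ∈ range q, χ (r : ZMod q) * (bZ q r : ZMod N)
      = - 2 * ∑ u ∈ range q, (u : ZMod N) * χ (u : ZMod q) := by
  have h1 : ∑ r ∈ range q, χ (r : ZMod q) * (bZ q r : ZMod N)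
      = (q : ZMod N) * ∑ r ∈ range q, χ (r : ZMod q)
        - 2 * ∑ u ∈ range q, (u : ZMod N) * χ (u : ZMod q) := by
    rw [Finset.mul_sum, Finset.mul_sum, ← Finset.sum_sub_distrib]
    apply Finset.sum_congr rfl
    intro r _
    unfold bZ
    split_ifs with h
    · subst h
      simp [chi_zero χ hN hodd]
    · push_cast
      ring
  rw [h1, sum_chi_zero χ hq hN hodd]
  ring

omit [NeZero N] in
/-- the second factor is a multiple of `q` -/
lemma sum_two {d : ℕ} (hq : 0 < q) (h8 : d % 8 = 5) (hcop : Nat.Coprime q d) (hN : N % 2 = 1)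
    (hodd : ∀ x, χ (-x) = - χ x) :
    ∃ z : ZMod N, ∑ s ∈ range (q * d), χ (s : ZMod q) * (jacobiSym s d : ZMod N) *
      (bZ (q * d) s : ZMod N) = (q : ZMod N) * z := by
  -- the sum with `s` replaced by its residue modulo `q` vanishes
  have hf : ∑ s ∈ range (q * d), (((s : ℤ) % (q : ℤ)) * lift χ (s : ℤ)) * jacobiSym s d = 0 := by
    have key := row_zero (q := q) (d := d) (f := fun x : ℤ => (((x % q) * lift χ x : ℤ) : ℝ)) hq hcop
      h8 (fun x => by
        rw [lift_per χ, Int.add_emod_right]) 1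
    have h2 : ((∑ s ∈ range (q * d), (((s : ℤ) % (q : ℤ)) * lift χ (s : ℤ)) * jacobiSym s d : ℤ) : ℝ)
        = 0 := by
      rw [← key]
      push_cast
      apply Finset.sum_congr rfl
      intro s _
      unfold gs
      push_cast
      rw [one_mul]
    exact_mod_cast h2
  have hf' : ∑ s ∈ range (q * d), (((s % q : ℕ) : ZMod N) * χ (s : ZMod q)) *
      (jacobiSym s d : ZMod N) = 0 := by
    have h3 := congrArg (Int.cast : ℤ → ZMod N) hf
    rw [Int.cast_sum, Int.cast_zero] at h3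
    rw [← h3]
    apply Finset.sum_congr rfl
    intro s _
    have h1 := lift_cast χ (s : ℤ)
    rw [Int.cast_mul, Int.cast_mul, h1, ← Int.natCast_mod, Int.cast_natCast, Int.cast_natCast]
  refine ⟨∑ s ∈ range (q * d), χ (s : ZMod q) * (jacobiSym s d : ZMod N) *
      ((d : ZMod N) - 2 * ((s / q : ℕ) : ZMod N)), ?_⟩
  have e : ∀ s ∈ range (q * d), χ (s : ZMod q) * (jacobiSym s d : ZMod N) *
      (bZ (q * d) s : ZMod N) = (q : ZMod N) * (χ (s : ZMod q) * (jacobiSym s d : ZMod N) *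
      ((d : ZMod N) - 2 * ((s / q : ℕ) : ZMod N))) - 2 * ((((s % q : ℕ) : ZMod N) * χ (s : ZMod q)) *
      (jacobiSym s d : ZMod N)) := by
    intro s _
    have hs : ((s : ℕ) : ZMod N) = ((s % q : ℕ) : ZMod N) + (q : ZMod N) * ((s / q : ℕ) : ZMod N) := by
      have := Nat.mod_add_div s q
      have h2 := congrArg (Nat.cast : ℕ → ZMod N) this
      push_cast at h2
      rw [← h2]
    unfold bZ
    split_ifs with h
    · subst h
      simp [chi_zero χ hN hodd]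
    · push_cast
      linear_combination (-2 * (χ (s : ZMod q) * (jacobiSym s d : ZMod N))) * hs
  rw [Finset.sum_congr rfl e, Finset.sum_sub_distrib, ← Finset.mul_sum, ← Finset.mul_sum, hf']
  ring

end NN

section general

variable {K : ℕ} {P R S : ℕ → ℤ} {c : ℕ → ℕ}

/-- **general T5 modulo `N`** -/
theorem cyc_T5N (h : Cyc K P R S c) (d : ℕ) (h8 : d % 8 = 5)
    (hcnt : ∀ n : ℕ, n ≠ 0 →
      ((∑ k ∈ range K, (edgeSet (P k) (R k) (S k) (c k) n).ncard : ℕ) : ℤ) = sig d n)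
    (q N : ℕ) (hq : 0 < q) (hcop : Nat.Coprime q d) (hN2 : N % 2 = 1)
    (hNd : Nat.Coprime d N)
    (hmean : ∀ f : ℤ → ℝ, (∀ x, f (x + q) = f x) → (∀ x, f (-x) = - f x) →
      ∑ r ∈ range q, ∑ s ∈ range q,
        f (P 0 * (r : ℤ) ^ 2 + R 0 * r * s - S 0 * (s : ℤ) ^ 2) = 0)
    (χ : ZMod q → ZMod N)
    (hodd : ∀ x, χ (-x) = - χ x) (hmul : ∀ x y, χ (x * y) = χ x * χ y)
    (hsum : ∀ z : ZMod N,
      3 * ((∑ u ∈ range q, (u : ZMod N) * χ (u : ZMod q)) * ((q : ZMod N) * z)) = 0) :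
    ∑ k ∈ range K, ∑ r ∈ range q, ∑ s ∈ range q,
      χ ((P k * (r : ℤ) ^ 2 + R k * r * s - S k * (s : ℤ) ^ 2 : ℤ) : ZMod q)
        * (3 * ((bZ q r : ZMod N) * bZ q s) - c k * b2Z q r) = 0 := by
  have hd0 : 0 < d := by omega
  have hper' : ∀ x, ((NN.lift χ (x + q) : ℤ) : ℝ) = ((NN.lift χ x : ℤ) : ℝ) := fun x => by
    simp only [NN.lift_per χ]
  have hodd' : ∀ x, ((NN.lift χ (-x) : ℤ) : ℝ) = - ((NN.lift χ x : ℤ) : ℝ) := fun x => by
    simp only [NN.lift_odd χ hN2 hodd]; push_cast; ring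
  have key := cyc_identity h d h8 q hq hcop
    (fun x => ((NN.lift χ x : ℤ) : ℝ)) hper' hodd'
    (hmean (fun x => ((NN.lift χ x : ℤ) : ℝ)) hper' hodd') hcnt
  have i5 := bb_RZ hq hd0 (NN.lift χ)
  have hreal : (d : ℝ) * (2 * (∑ k ∈ range K, (3 * (XZ q (NN.lift χ) (P k) (R k) (S k) : ℝ)
      - c k * (YX q (NN.lift χ) (P k) (R k) (S k) : ℝ))))
      = 3 * (RZ q d (NN.lift χ) : ℝ) := by
    rw [← i5, ← key]
    simp only [Finset.mul_sum]
    apply Finset.sum_congr rfl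
    intro k _
    rw [← SS_XZ hq, ← MX_YX hq]
    ring
  have hint : (d : ℤ) * (2 * (∑ k ∈ range K, (3 * XZ q (NN.lift χ) (P k) (R k) (S k)
      - c k * YX q (NN.lift χ) (P k) (R k) (S k))))
      = 3 * RZ q d (NN.lift χ) := by
    exact_mod_cast hreal
  have hzmod : (d : ZMod N) * (2 * (∑ k ∈ range K, (3 * (XZ q (NN.lift χ) (P k) (R k) (S k) : ZMod N)
      - c k * (YX q (NN.lift χ) (P k) (R k) (S k) : ZMod N))))
      = 3 * (RZ q d (NN.lift χ) : ZMod N) := by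
    have := congrArg (Int.cast : ℤ → ZMod N) hint
    push_cast at this
    exact this
  have hR : 3 * (RZ q d (NN.lift χ) : ZMod N) = 0 := by
    have e : (RZ q d (NN.lift χ) : ZMod N) = (∑ r ∈ range q, χ (r : ZMod q) * (bZ q r : ZMod N)) *
        (∑ s ∈ range (q * d), χ (s : ZMod q) * (jacobiSym s d : ZMod N) * (bZ (q * d) s : ZMod N)) := by
      unfold RZ
      push_cast
      rw [Finset.sum_mul_sum]
      apply Finset.sum_congr rfl
      intro r _
      apply Finset.sum_congr rfl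
      intro s _
      rw [NN.lift_cast]
      push_cast
      rw [hmul]
      ring
    obtain ⟨z, hz⟩ := NN.sum_two χ hq h8 hcop hN2 hodd
    rw [e, NN.sum_chi_bZ χ hq hN2 hodd, hz]
    have := hsum z
    linear_combination (-2) * this
  rw [hR] at hzmod
  have hdu : IsUnit (d : ZMod N) := by
    have := (ZMod.unitOfCoprime d hNd).isUnit
    simpa using this
  have h1 := NN.two_cancel hN2 ((hdu.mul_right_eq_zero).1 hzmod)
  rw [← h1]
  apply Finset.sum_congr rfl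
  intro k _
  unfold XZ YX
  push_cast
  simp only [Finset.mul_sum]
  rw [← Finset.sum_sub_distrib]
  apply Finset.sum_congr rfl
  intro r _
  rw [← Finset.sum_sub_distrib]
  apply Finset.sum_congr rfl
  intro s _
  rw [NN.lift_cast]
  push_cast
  ring

end general

/-- **T5 modulo `N` for cycles of even length.** -/
theorem even_T5N (m B : ℤ) (hm : 0 < m) (hm2 : m % 2 = 1) (hB2 : B % 2 = 1) {K : ℕ}
    {P R S : ℕ → ℤ} {c : ℕ → ℕ} (h : CG.CycM m B K P R S c) (J : ℕ) (hK : K = 2 * J) (hJ : 0 < J)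
    (hcl : CG.rho m B c K = CG.rho m B c (K + 1) * CG.om m B)
    (hP1 : ∀ k < K, k ≠ 1 → P k ≠ 1)
    [IsDomain (QuadraticAlgebra ℤ m B)] [UniqueFactorizationMonoid (QuadraticAlgebra ℤ m B)]
    {d : ℕ} (hd : (d : ℤ) = B ^ 2 + 4 * m) (h8 : d % 8 = 5)
    (q N : ℕ) (hq : 0 < q) (hcop : Nat.Coprime q d) (hN2 : N % 2 = 1)
    (hNd : Nat.Coprime d N)
    (χ : ZMod q → ZMod N)
    (hodd : ∀ x, χ (-x) = - χ x) (hmul : ∀ x y, χ (x * y) = χ x * χ y)
    (hsum : ∀ z : ZMod N,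
      3 * ((∑ u ∈ range q, (u : ZMod N) * χ (u : ZMod q)) * ((q : ZMod N) * z)) = 0) :
    ∑ k ∈ range K, ∑ r ∈ range q, ∑ s ∈ range q,
      χ ((P k * (r : ℤ) ^ 2 + R k * r * s - S k * (s : ℤ) ^ 2 : ℤ) : ZMod q)
        * (3 * ((bZ q r : ZMod N) * bZ q s) - c k * b2Z q r) = 0 := by
  refine cyc_T5N h.toCyc d h8 ?_ q N hq hcop hN2 hNd ?_ χ hodd hmul hsum
  · intro n hn
    rw [← CG.count_even hm h J hK hJ hcl hP1 n hn]
    exact (ncard_SN hd h8 n hn).2
  · intro f hper hodd'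
    rw [h.Pm, h.RB, h.S1]
    apply mean_even m B hm2 hB2 q hq _ f hper hodd'
    rw [← hd]
    exact Nat.isCoprime_iff_coprime.2 hcop

/-- **T5 modulo `N` for cycles of odd length.** -/
theorem odd_T5N (m B : ℤ) (hm : 0 < m) (hm2 : m % 2 = 1) (hB2 : B % 2 = 1) {I : ℕ}
    {P R S : ℕ → ℤ} {c : ℕ → ℕ} (h : OddCyc m B I P R S c)
    [IsDomain (QuadraticAlgebra ℤ m B)] [UniqueFactorizationMonoid (QuadraticAlgebra ℤ m B)]
    {d : ℕ} (hd : (d : ℤ) = B ^ 2 + 4 * m) (h8 : d % 8 = 5)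
    (q N : ℕ) (hq : 0 < q) (hcop : Nat.Coprime q d) (hN2 : N % 2 = 1)
    (hNd : Nat.Coprime d N)
    (χ : ZMod q → ZMod N)
    (hodd : ∀ x, χ (-x) = - χ x) (hmul : ∀ x y, χ (x * y) = χ x * χ y)
    (hsum : ∀ z : ZMod N,
      3 * ((∑ u ∈ range q, (u : ZMod N) * χ (u : ZMod q)) * ((q : ZMod N) * z)) = 0) :
    ∑ k ∈ range (2 * I + 1), ∑ r ∈ range q, ∑ s ∈ range q,
      χ ((P k * (r : ℤ) ^ 2 + R k * r * s - S k * (s : ℤ) ^ 2 : ℤ) : ZMod q)
        * (3 * ((bZ q r : ZMod N) * bZ q s) - c k * b2Z q r) = 0 := by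
  refine cyc_T5N h.cyc d h8 ?_ q N hq hcop hN2 hNd ?_ χ hodd hmul hsum
  · intro n hn
    rw [← h.count hm n hn]
    exact (ncard_SN hd h8 n hn).2
  · intro f hper hodd'
    rw [h.Pm, h.RB, h.S1]
    apply mean_even m B hm2 hB2 q hq _ f hper hodd'
    rw [← hd]
    exact Nat.isCoprime_iff_coprime.2 hcop

end Pool.Agent.Lib_helper5


end

section

/-!
The relations for the family of period five.
-/

namespace Pool.Agent.Lib_helper5.K5

open Finset LK Pool.Agent.LibH4 Pool.Agent.LibH4.Ker Pool.Agent.LibH4.T6 Pool.Agent.LibH4.KF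

section Step

variable {q l : ℕ} [NeZero q] (χ : ZMod q → ZMod l)

/-- passage to the next form of a cycle -/
lemma YY_step (hodd : ∀ x, χ (-x) = - χ x) (P R S c : ℤ) :
    KF.YY χ S (2 * c * S - R) (-(P + R * c - S * c ^ 2)) = - KF.YX χ P R (-S) := by
  unfold KF.YY KF.YX
  rw [Finset.sum_comm, ← Finset.sum_neg_distrib]
  apply Finset.sum_congr rfl
  intro y _
  rw [← Equiv.sum_comp (Equiv.addLeft (-((c : ZMod q) * y))), ← Finset.sum_neg_distrib]
  apply Finset.sum_congr rfl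
  intro x _
  have e : fz q S (2 * c * S - R) (-(P + R * c - S * c ^ 2))
      ((Equiv.addLeft (-((c : ZMod q) * y))) x) y = - fz q P R (-S) y x := by
    unfold fz
    simp only [Equiv.coe_addLeft]
    push_cast
    ring
  rw [e, hodd]
  ring

/-- sign of the middle coefficient -/
lemma XX_neg (P R S : ℤ) : KF.XX χ P (-R) S = - KF.XX χ P R S := by
  unfold KF.XX
  rw [← Finset.sum_neg_distrib]
  apply Finset.sum_congr rfl
  intro x _
  rw [← Equiv.sum_comp (Equiv.neg (ZMod q)), ← Finset.sum_neg_distrib]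
  apply Finset.sum_congr rfl
  intro y _
  have e : fz q P (-R) S x ((Equiv.neg (ZMod q)) y) = fz q P R S x y := by
    unfold fz
    simp only [Equiv.neg_apply]
    push_cast
    ring
  have hb : bz q l ((Equiv.neg (ZMod q)) y) = - bz q l y := by
    rw [Equiv.neg_apply]
    unfold bz bI
    by_cases hy : y = 0
    · subst hy; simp
    · have : NeZero y := ⟨hy⟩
      have hv : (-y).val = q - y.val := ZMod.val_neg_of_ne_zero y
      have hlt := ZMod.val_lt y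
      have hpos : 0 < y.val := by
        rw [Nat.pos_iff_ne_zero, Ne, ZMod.val_eq_zero]
        exact hy
      rw [hv, if_neg (by omega), if_neg (by omega), Nat.cast_sub hlt.le]
      ring
  rw [e, hb]
  ring

/-- sign of the middle coefficient -/
lemma YX_neg (P R S : ℤ) : KF.YX χ P (-R) S = KF.YX χ P R S := by
  unfold KF.YX
  apply Finset.sum_congr rfl
  intro x _
  rw [← Equiv.sum_comp (Equiv.neg (ZMod q))]
  apply Finset.sum_congr rfl
  intro y _
  have e : fz q P (-R) S x ((Equiv.neg (ZMod q)) y) = fz q P R S x y := by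
    unfold fz
    simp only [Equiv.neg_apply]
    push_cast
    ring
  rw [e]

end Step

/-! ### signs of the parameters -/

lemma k2_neg (b : ℤ) : k2 (-b) = k2 b := by unfold k2; ring
lemma k3_neg (a b : ℤ) : k3 (-a) (-b) = -k3 a b := by unfold k3; rw [k2_neg]; ring
lemma k4_neg (a b : ℤ) : k4 (-a) (-b) = k4 a b := by unfold k4; rw [k3_neg]; ring
lemma zB_neg (a b t : ℤ) : zB (-a) (-b) (-t) = -zB a b t := by
  unfold zB; rw [k4_neg, k3_neg, k2_neg]; ring
lemma zm_neg (a b t : ℤ) : zm (-a) (-b) (-t) = zm a b t := by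
  unfold zm; rw [k3_neg, k2_neg]; ring
lemma zm1_neg (a b t : ℤ) : zm1 (-a) (-b) (-t) = zm1 a b t := by
  unfold zm1; rw [zB_neg, zm_neg]; ring
lemma zR2_neg (a b t : ℤ) : zR2 (-a) (-b) (-t) = -zR2 a b t := by
  unfold zR2; rw [zB_neg, zm_neg]; ring
lemma zR3_neg (a b t : ℤ) : zR3 (-a) (-b) (-t) = -zR3 a b t := by
  unfold zR3; rw [zm1_neg, zR2_neg]; ring
lemma zd_neg (a b t : ℤ) : zd (-a) (-b) (-t) = zd a b t := by
  unfold zd; rw [zB_neg, zm_neg]; ring

lemma Rel_neg {N q : ℕ} [NeZero q] (χ : ZMod q → ZMod N) {a b t : ℤ} (h : LK.Rel N χ (J5 a b t)) :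
    LK.Rel N χ (J5 (-a) (-b) (-t)) := by
  unfold LK.Rel J5 at h ⊢
  simp only [List.map_cons, List.map_nil, List.sum_cons, List.sum_nil, add_zero] at h ⊢
  rw [zB_neg, zm_neg, zm1_neg, zR2_neg, zR3_neg, XX_neg, XX_neg, XX_neg, XX_neg, YX_neg, YX_neg,
    YX_neg, YX_neg]
  push_cast at h ⊢
  linear_combination (-1 : ZMod N) * h

/-! ### the parameters -/

/-- parametrisation -/
lemma exists_t {a b B : ℕ} {m m' : ℤ} (h : E5.Par a b B m m') :
    ∃ t : ℤ, zB a b t = B ∧ zm a b t = m ∧ zm1 a b t = m' := by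
  have e1 := h.e1
  have e2 := h.e2
  have key : m * k4 a b = k2 b + B * k3 a b := by
    unfold k4 k3 k2
    rw [e1] at e2
    linear_combination (-1) * e2
  have id : k2 b * k4 a b - k3 a b * k3 a b = 1 := by
    unfold k4 k3 k2
    ring
  have hB : zB a b (k2 b * ((B : ℤ) - k2 b * k3 a b) - k3 a b * (m - k2 b * k2 b)) = B := by
    unfold zB
    linear_combination (-(k3 a b)) * key + (B : ℤ) * id
  have hm : zm a b (k2 b * ((B : ℤ) - k2 b * k3 a b) - k3 a b * (m - k2 b * k2 b)) = m := by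
    unfold zm
    linear_combination (-(k2 b)) * key + m * id
  refine ⟨_, hB, hm, ?_⟩
  unfold zm1
  rw [hB, hm, e1]
  ring


/-! ### the relations -/

/-- inertness -/
def In (p : ℕ) (x : ℤ) : Prop := Nat.beq (Nat.mod (Nat.pow (rs p x) (p / 2)) p) (p - 1) = true

lemma zd_eq {a b B : ℕ} {m : ℤ} {t : ℤ} (hB : zB a b t = B) (hm : zm a b t = m) :
    zd a b t = (B : ℤ) ^ 2 + 4 * m := by
  unfold zd
  rw [hB, hm]
  ring

section Main

variable {a b B : ℕ} {m m' : ℤ}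
  [IsDomain (QuadraticAlgebra ℤ m (B : ℤ))] [UniqueFactorizationMonoid (QuadraticAlgebra ℤ m (B : ℤ))]

/-- inert primes -/
lemma in_of (h : E5.Par a b B m m') {d : ℕ} (hd : (d : ℤ) = (B : ℤ) ^ 2 + 4 * m) (h8 : d % 8 = 5)
    {t : ℤ} (hB : zB a b t = B) (hm : zm a b t = m) {p : ℕ} (hp : p.Prime) (hp2 : p ≠ 2)
    (hpm : (p : ℤ) < m) (hpm' : (p : ℤ) < m') : In p (zd a b t) := by
  have h1 := E5.inert h hd h8 p hp hp2 hpm hpm'
  have : Fact p.Prime := ⟨hp⟩
  have h2 : ((jacobiSym d p : ℤ) : ZMod p) = (d : ZMod p) ^ (p / 2) := by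
    rw [← jacobiSym.legendreSym.to_jacobiSym, legendreSym.eq_pow]
    push_cast
    rfl
  have h3 : ((rs p (zd a b t) : ℕ) : ZMod p) = (d : ZMod p) := by
    rw [rs_cast, zd_eq hB hm, ← hd]
    push_cast
    rfl
  have h4 : (((rs p (zd a b t)) ^ (p / 2) : ℕ) : ZMod p) = ((p - 1 : ℕ) : ZMod p) := by
    rw [Nat.cast_pow, h3, ← h2, h1, cast_pred]
    push_cast
    rfl
  have h5 := (ZMod.natCast_eq_natCast_iff' _ _ p).1 h4
  have hp1 := hp.two_le
  rw [Nat.mod_eq_of_lt (show p - 1 < p by omega)] at h5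
  have h6 : Nat.mod (Nat.pow (rs p (zd a b t)) (p / 2)) p = p - 1 := h5
  unfold In
  rw [h6]
  exact Nat.beq_refl _

/-- the relations hold -/
theorem rel_of (h : E5.Par a b B m m') (hm2 : m % 2 = 1) (hB2 : B % 2 = 1) {d : ℕ}
    (hd : (d : ℤ) = (B : ℤ) ^ 2 + 4 * m) (h8 : d % 8 = 5)
    {t : ℤ} (hB : zB a b t = B) (hm : zm a b t = m) (hm1 : zm1 a b t = m')
    {q N : ℕ} [NeZero q] (hcop : Nat.Coprime q d) (hN2 : N % 2 = 1) (hNd : Nat.Coprime d N)
    (χ : ZMod q → ZMod N) (hodd : ∀ x, χ (-x) = - χ x) (hmul : ∀ x y, χ (x * y) = χ x * χ y)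
    (hsum : (∑ u ∈ range q, (u : ZMod N) * χ (u : ZMod q)) * (q : ZMod N) = 0) :
    LK.Rel N χ (J5 a b t) := by
  have hm0 : 0 < m := by have := h.hm; omega
  have key := odd_T5N m B hm0 hm2 (by exact_mod_cast hB2) (E5.cyc h) hd h8 q N
    (Nat.pos_of_ne_zero (NeZero.ne q)) hcop hN2 hNd χ hodd hmul (by
      intro z
      linear_combination (3 * z) * hsum)
  simp only [KF.range_term] at key
  simp only [Nat.reduceMul, Nat.reduceAdd, Finset.sum_range_succ,
    Finset.sum_range_zero (M := ZMod N), zero_add, E5.P, E5.R, E5.S, E5.c, Nat.zero_mod,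
    Nat.reduceMod] at key
  have s1 : KF.XX χ m B (-1) = KF.XX χ 1 B (-m) := by
    have := KF.XX_swap χ hodd 1 B (-m)
    rw [neg_neg] at this
    exact this
  have s2 : KF.XX χ m' (2 * a * m - B) (-m) = KF.XX χ m (2 * a * m - B) (-m') := by
    have := KF.XX_swap χ hodd m (2 * a * m - B) (-m')
    rw [neg_neg] at this
    exact this
  have t1 : KF.YX χ m' (2 * a * m - B) (-m) = KF.YX χ 1 B (-m) := by
    have h1 := KF.YX_swap χ hodd m (2 * a * m - B) (-m')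
    rw [neg_neg] at h1
    have h2 := YY_step χ hodd 1 B m a
    have e : -(1 + (B : ℤ) * a - m * (a : ℤ) ^ 2) = -m' := by rw [h.e1]
    rw [e] at h2
    rw [h1, h2, neg_neg]
  have t2 : KF.YX χ m' (2 * b * m' - (2 * a * m - B)) (-m') = KF.YX χ m (2 * a * m - B) (-m') := by
    have h1 := KF.YX_swap χ hodd m' (2 * b * m' - (2 * a * m - B)) (-m')
    rw [neg_neg] at h1
    have h2 := YY_step χ hodd m (2 * a * m - B) m' b
    have e : -(m + (2 * a * m - B) * b - m' * (b : ℤ) ^ 2) = -m' := by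
      have := h.e2
      linear_combination this
    rw [e] at h2
    rw [h1, h2, neg_neg]
  have r2 : zR2 a b t = 2 * a * m - B := by unfold zR2; rw [hm, hB]; ring
  have r3 : zR3 a b t = 2 * b * m' - (2 * a * m - B) := by unfold zR3; rw [hm1, r2]; ring
  unfold LK.Rel J5
  simp only [List.map_cons, List.map_nil, List.sum_cons, List.sum_nil, add_zero]
  rw [r3, r2, hB, hm, hm1]
  rw [s1, s2, t1, t2] at key
  push_cast
  linear_combination key

end Main

end Pool.Agent.Lib_helper5.K5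


end

section

/-!
The relations for the family of period four.
-/

namespace Pool.Agent.Lib_helper5.K4

open Finset LK Pool.Agent.LibH4 Pool.Agent.LibH4.Ker Pool.Agent.LibH4.T6 Pool.Agent.LibH4.KF

/-! ### signs of the parameters -/

lemma zm_neg (a b t : ℤ) : zm (-a) (-b) t = zm a b t := by unfold zm; ring
lemma zr_neg (a b t : ℤ) : zr (-a) (-b) t = zr a b t := by unfold zr; ring
lemma zB_neg (a b t : ℤ) : zB (-a) (-b) t = -zB a b t := by unfold zB; ring
lemma zR_neg (a b t : ℤ) : zR (-a) (-b) t = -zR a b t := by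
  unfold zR; rw [zm_neg, zB_neg]; ring
lemma zd_neg (a b t : ℤ) : zd (-a) (-b) t = zd a b t := by
  unfold zd; rw [zB_neg, zm_neg]; ring

lemma Rel_neg {N q : ℕ} [NeZero q] (χ : ZMod q → ZMod N) {a b t : ℤ} (h : LK.Rel N χ (J4 a b t)) :
    LK.Rel N χ (J4 (-a) (-b) t) := by
  unfold LK.Rel J4 at h ⊢
  simp only [List.map_cons, List.map_nil, List.sum_cons, List.sum_nil, add_zero] at h ⊢
  rw [zB_neg, zm_neg, zr_neg, zR_neg, K5.XX_neg, K5.XX_neg, K5.XX_neg, K5.YX_neg, K5.YX_neg,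
    K5.YX_neg]
  push_cast at h ⊢
  linear_combination (-1 : ZMod N) * h

/-! ### the parameters -/

/-- parametrisation -/
lemma exists_t {a b B : ℕ} {m r : ℤ} (h : E4.Par a b B m r) :
    ∃ t : ℤ, zB a b t = B ∧ zm a b t = m ∧ zr a b t = r := by
  have e1 := h.e1
  have e2 := h.e2
  have ha : (a : ℤ) ≠ 0 := by have := h.ha; omega
  -- `a m = s (1 + a b) + b` with `s = B - a m`
  have key : (a : ℤ) * m = ((B : ℤ) - a * m) * (1 + a * b) + b := by
    rw [e1] at e2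
    linear_combination (-1) * e2
  obtain ⟨t, ht⟩ : (a : ℤ) ∣ ((B : ℤ) - a * m) + b := by
    refine ⟨m - ((B : ℤ) - a * m) * b, ?_⟩
    linear_combination (-1) * key
  have hm : zm a b t = m := by
    apply mul_left_cancel₀ ha
    unfold zm
    linear_combination (-(1 + (a : ℤ) * b)) * ht - key
  have hB : zB a b t = B := by
    have e : zB a b t = (a : ℤ) * t - b + a * zm a b t := by unfold zB zm; ring
    rw [e, hm]
    linear_combination (-1) * ht
  refine ⟨t, hB, hm, ?_⟩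
  have e : zr a b t = 1 + (a : ℤ) * (zB a b t - a * zm a b t) := by unfold zr zB zm; ring
  rw [e, hB, hm, e1]
  ring

/-! ### the relations -/

lemma zd_eq {a b B : ℕ} {m : ℤ} {t : ℤ} (hB : zB a b t = B) (hm : zm a b t = m) :
    zd a b t = (B : ℤ) ^ 2 + 4 * m := by
  unfold zd
  rw [hB, hm]
  ring

section Main

variable {a b B : ℕ} {m r : ℤ}
  [IsDomain (QuadraticAlgebra ℤ m (B : ℤ))] [UniqueFactorizationMonoid (QuadraticAlgebra ℤ m (B : ℤ))]

/-- inert primes -/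
lemma in_of (h : E4.Par a b B m r) {d : ℕ} (hd : (d : ℤ) = (B : ℤ) ^ 2 + 4 * m) (h8 : d % 8 = 5)
    {t : ℤ} (hB : zB a b t = B) (hm : zm a b t = m) {p : ℕ} (hp : p.Prime) (hp2 : p ≠ 2)
    (hpr : (p : ℤ) ≠ r) (hpm : (p : ℤ) < m) : K5.In p (zd a b t) := by
  have h1 := E4.inert h hd h8 p hp hp2 hpr hpm
  have : Fact p.Prime := ⟨hp⟩
  have h2 : ((jacobiSym d p : ℤ) : ZMod p) = (d : ZMod p) ^ (p / 2) := by
    rw [← jacobiSym.legendreSym.to_jacobiSym, legendreSym.eq_pow]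
    push_cast
    rfl
  have h3 : ((rs p (zd a b t) : ℕ) : ZMod p) = (d : ZMod p) := by
    rw [rs_cast, zd_eq hB hm, ← hd]
    push_cast
    rfl
  have h4 : (((rs p (zd a b t)) ^ (p / 2) : ℕ) : ZMod p) = ((p - 1 : ℕ) : ZMod p) := by
    rw [Nat.cast_pow, h3, ← h2, h1, K5.cast_pred]
    push_cast
    rfl
  have h5 := (ZMod.natCast_eq_natCast_iff' _ _ p).1 h4
  have hp1 := hp.two_le
  rw [Nat.mod_eq_of_lt (show p - 1 < p by omega)] at h5
  have h6 : Nat.mod (Nat.pow (rs p (zd a b t)) (p / 2)) p = p - 1 := h5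
  unfold K5.In
  rw [h6]
  exact Nat.beq_refl _

/-- the relations hold -/
theorem rel_of (h : E4.Par a b B m r) (hm2 : m % 2 = 1) (hB2 : B % 2 = 1) {d : ℕ}
    (hd : (d : ℤ) = (B : ℤ) ^ 2 + 4 * m) (h8 : d % 8 = 5)
    {t : ℤ} (hB : zB a b t = B) (hm : zm a b t = m) (hr : zr a b t = r)
    {q N : ℕ} [NeZero q] (hcop : Nat.Coprime q d) (hN2 : N % 2 = 1) (hNd : Nat.Coprime d N)
    (χ : ZMod q → ZMod N) (hodd : ∀ x, χ (-x) = - χ x) (hmul : ∀ x y, χ (x * y) = χ x * χ y)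
    (hsum : (∑ u ∈ range q, (u : ZMod N) * χ (u : ZMod q)) * (q : ZMod N) = 0) :
    LK.Rel N χ (J4 a b t) := by
  have hm0 : 0 < m := by have := h.hm; omega
  have key := even_T5N m B hm0 hm2 (by exact_mod_cast hB2) (E4.cyc h) 2 rfl (by norm_num)
    (E4.closing h) (E4.P_ne h) hd h8 q N
    (Nat.pos_of_ne_zero (NeZero.ne q)) hcop hN2 hNd χ hodd hmul (by
      intro z
      linear_combination (3 * z) * hsum)
  simp only [KF.range_term] at key
  simp only [Finset.sum_range_succ,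
    Finset.sum_range_zero (M := ZMod N), zero_add, E4.P, E4.R, E4.S, E4.c] at key
  have s1 : KF.XX χ m B (-1) = KF.XX χ 1 B (-m) := by
    have := KF.XX_swap χ hodd 1 B (-m)
    rw [neg_neg] at this
    exact this
  have s2 : KF.XX χ r (2 * a * m - B) (-m) = KF.XX χ m (2 * a * m - B) (-r) := by
    have := KF.XX_swap χ hodd m (2 * a * m - B) (-r)
    rw [neg_neg] at this
    exact this
  have t1 : KF.YX χ r (2 * a * m - B) (-m) = KF.YX χ 1 B (-m) := by
    have h1 := KF.YX_swap χ hodd m (2 * a * m - B) (-r)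
    rw [neg_neg] at h1
    have h2 := K5.YY_step χ hodd 1 B m a
    have e : -(1 + (B : ℤ) * a - m * (a : ℤ) ^ 2) = -r := by rw [h.e1]
    rw [e] at h2
    rw [h1, h2, neg_neg]
  have r2 : zR a b t = 2 * a * m - B := by unfold zR; rw [hm, hB]; ring
  unfold LK.Rel J4
  simp only [List.map_cons, List.map_nil, List.sum_cons, List.sum_nil, add_zero]
  rw [r2, hB, hm, hr]
  rw [s1, s2, t1] at key
  push_cast
  linear_combination key

end Main

end Pool.Agent.Lib_helper5.K4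


end

section

/-!
The system of conditions on the parameters of the family of period four.
-/

namespace Pool.Agent.Lib_helper5.K4

open Finset LK Pool.Agent.LibH4 Pool.Agent.LibH4.Ker Pool.Agent.LibH4.T6 Pool.Agent.LibH4.KF
open Pool.Agent.Lib_helper5.K5 (In)

/-- all relations -/
def AllRel (Q : ℕ) (a b t : ℤ) : Prop :=
  ∀ (n1 n2 n3 N T1 T2 T3 : ℕ) [NeZero n1] [NeZero n2] [NeZero n3] [NeZero (n1 * n2)]
    [NeZero (n1 * n2 * n3)], relOk n1 n2 n3 N T1 T2 T3 = true → tabCk n1 N T1 = true →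
    tabCk n2 N T2 = true → tabCk n3 N T3 = true → N % 2 = 1 →
    (n1 * n2 * n3 * N) ∣ Q ^ 6 →
    LK.Rel N (tri (tabc n1 N T1) (tabc n2 N T2) (tabc n3 N T3)) (J4 a b t)

/-- the system of conditions -/
structure Sys (Q : ℕ) (a b t : ℤ) : Prop where
  oa : a % 2 = 1
  ob : b % 2 = 1
  ot : t % 2 = 1
  inr : ∀ p : ℕ, p.Prime → p ≠ 2 → p ∣ Q → In p (zd a b t)
  rel : AllRel Q a b t

lemma Sys.neg {Q : ℕ} {a b t : ℤ} (h : Sys Q a b t) : Sys Q (-a) (-b) t where
  oa := by have := h.oa; omega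
  ob := by have := h.ob; omega
  ot := h.ot
  inr := by rw [zd_neg]; exact h.inr
  rel := fun n1 n2 n3 N T1 T2 T3 _ _ _ _ _ h1 h2 h3 h4 h5 h6 =>
    Rel_neg _ (h.rel n1 n2 n3 N T1 T2 T3 h1 h2 h3 h4 h5 h6)

lemma Sys.mono {Q Q' : ℕ} {a b t : ℤ} (h : Sys Q a b t) (hQ : Q' ∣ Q) : Sys Q' a b t where
  oa := h.oa
  ob := h.ob
  ot := h.ot
  inr := fun p hp hp2 hd => h.inr p hp hp2 (hd.trans hQ)
  rel := fun n1 n2 n3 N T1 T2 T3 _ _ _ _ _ h1 h2 h3 h4 h5 h6 =>
    h.rel n1 n2 n3 N T1 T2 T3 h1 h2 h3 h4 h5 (h6.trans (pow_dvd_pow_of_dvd hQ 6))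

/-- meaning of `relOk` -/
lemma relOk_spec {n1 n2 n3 N T1 T2 T3 : ℕ} [NeZero n1] [NeZero n2] [NeZero n3]
    [NeZero (n1 * n2)] [NeZero (n1 * n2 * n3)] (hN : 0 < N)
    (h : relOk n1 n2 n3 N T1 T2 T3 = true) (h1 : tabCk n1 N T1 = true)
    (h2 : tabCk n2 N T2 = true) (h3 : tabCk n3 N T3 = true) :
    (∀ x, tri (tabc n1 N T1) (tabc n2 N T2) (tabc n3 N T3) (-x) =
      - tri (tabc n1 N T1) (tabc n2 N T2) (tabc n3 N T3) x) ∧
    (∑ u ∈ range (n1 * n2 * n3), (u : ZMod N) *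
      tri (tabc n1 N T1) (tabc n2 N T2) (tabc n3 N T3) (u : ZMod (n1 * n2 * n3))) *
      ((n1 * n2 * n3 : ℕ) : ZMod N) = 0 := by
  unfold relOk at h
  rw [strict_eq] at h
  obtain ⟨ha, hb⟩ := andB_spec h
  have hc := tri_char (n1 := n1) (n2 := n2) (n3 := n3) (tabCk_char h1) (tabCk_char h2)
    (tabCk_char h3)
  have hq : 0 < n1 * n2 * n3 := Nat.pos_of_ne_zero (NeZero.ne _)
  have hNe : NeZero N := ⟨hN.ne'⟩
  refine ⟨?_, ?_⟩
  · have e1 : chi3 n1 n2 n3 N T1 T2 T3 (n1 * n2 * n3 - 1) = N - 1 := Nat.eq_of_beq_eq_true ha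
    have e2 := congrArg (fun x : ℕ => (x : ZMod N)) e1
    simp only [chi3_cast] at e2
    rw [Pool.Agent.Lib_helper5.K5.cast_pred, Pool.Agent.Lib_helper5.K5.cast_pred] at e2
    intro x
    have : -x = (-1) * x := by ring
    rw [this, hc.mul, e2]
    ring
  · have e1 : (sumR (fun u => u * chi3 n1 n2 n3 N T1 T2 T3 u) (n1 * n2 * n3)) * (n1 * n2 * n3) % N
      = 0 := Nat.eq_of_beq_eq_true hb
    have e2 := congrArg (fun x : ℕ => (x : ZMod N)) e1
    simp only [ZMod.natCast_mod] at e2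
    rw [sumR_eq, Nat.cast_mul, Nat.cast_sum] at e2
    rw [Nat.cast_zero] at e2
    rw [← e2]
    congr 1
    apply Finset.sum_congr rfl
    intro u _
    rw [Nat.cast_mul, chi3_cast]


lemma sys_of {a b B : ℕ} {m r : ℤ} (h : E4.Par a b B m r) (hm2 : m % 2 = 1) (hB2 : B % 2 = 1)
    (ha2 : a % 2 = 1)
    [IsDomain (QuadraticAlgebra ℤ m (B : ℤ))]
    [UniqueFactorizationMonoid (QuadraticAlgebra ℤ m (B : ℤ))] {Q : ℕ} (hQ0 : Q ≠ 0)
    (hQ : ∀ p : ℕ, p.Prime → p ≠ 2 → p ∣ Q → (p : ℤ) < m ∧ (p : ℤ) ≠ r) :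
    ∃ t : ℤ, zB a b t = B ∧ zm a b t = m ∧ zr a b t = r ∧ Sys Q a b t := by
  obtain ⟨t, hB, hm, hr⟩ := exists_t h
  refine ⟨t, hB, hm, hr, ?_⟩
  obtain ⟨d, hd⟩ : ∃ d : ℕ, (d : ℤ) = (B : ℤ) ^ 2 + 4 * m := by
    refine ⟨((B : ℤ) ^ 2 + 4 * m).toNat, Int.toNat_of_nonneg ?_⟩
    have : (0 : ℤ) ≤ (B : ℤ) ^ 2 := sq_nonneg _
    have := h.hm
    omega
  have h8 : d % 8 = 5 := by
    obtain ⟨j, hj⟩ : ∃ j : ℤ, (B : ℤ) = 2 * j + 1 := ⟨(B : ℤ) / 2, by omega⟩
    obtain ⟨i, hi⟩ : ∃ i : ℤ, m = 2 * i + 1 := ⟨m / 2, by omega⟩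
    have e : (d : ℤ) = 4 * (j * (j + 1)) + 8 * i + 5 := by rw [hd, hj, hi]; ring
    obtain ⟨k, hk⟩ : ∃ k : ℤ, j * (j + 1) = 2 * k := by
      have := Int.even_mul_succ_self j
      obtain ⟨k, hk⟩ := this
      exact ⟨k, by omega⟩
    rw [hk] at e
    omega
  have cop : ∀ p : ℕ, p.Prime → p ∣ Q → ¬ p ∣ d := by
    intro p hp hpQ hdvd
    rcases eq_or_ne p 2 with rfl | hp2
    · omega
    obtain ⟨h0, h0'⟩ := hQ p hp hp2 hpQ
    have h1 := E4.inert h hd h8 p hp hp2 h0' h0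
    have h2 : jacobiSym (d : ℤ) p ≠ 0 := by rw [h1]; norm_num
    apply h2
    have : Fact p.Prime := ⟨hp⟩
    rw [← jacobiSym.legendreSym.to_jacobiSym, legendreSym.eq_zero_iff]
    have : ((d : ℕ) : ZMod p) = 0 := by rw [ZMod.natCast_eq_zero_iff]; exact hdvd
    exact_mod_cast this
  have hcopP : Nat.Coprime d (Q ^ 6) := by
    apply Nat.Coprime.pow_right
    by_contra hc
    obtain ⟨p, hp, h1, h2⟩ := Nat.Prime.not_coprime_iff_dvd.1 hc
    exact cop p hp h2 h1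
  have ha' : (a : ℤ) % 2 = 1 := by omega
  have hpar : (b : ℤ) % 2 = 1 ∧ t % 2 = 1 := by
    obtain ⟨i, hi⟩ : ∃ i : ℤ, (a : ℤ) = 2 * i + 1 := ⟨(a : ℤ) / 2, by omega⟩
    have eB : zB a b t % 2 = 1 := by rw [hB]; omega
    rcases Int.emod_two_eq_zero_or_one (b : ℤ) with hb | hb
    · exfalso
      obtain ⟨k, hk⟩ : ∃ k : ℤ, (b : ℤ) = 2 * k := ⟨(b : ℤ) / 2, by omega⟩
      have e : zB a b t = 2 * ((a : ℤ) * t * (1 + a * k) - k * (1 + a * b)) := by
        unfold zB; rw [hk]; ring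
      omega
    · refine ⟨hb, ?_⟩
      obtain ⟨k, hk⟩ : ∃ k : ℤ, (b : ℤ) = 2 * k + 1 := ⟨(b : ℤ) / 2, by omega⟩
      rcases Int.emod_two_eq_zero_or_one t with ht | ht
      · exfalso
        obtain ⟨j, hj⟩ : ∃ j : ℤ, t = 2 * j := ⟨t / 2, by omega⟩
        have e : zB a b t = 2 * (a * j * (2 + a * b) - b * (1 + 2 * i * k + i + k)) := by
          unfold zB
          have e2 : (1 : ℤ) + a * b = 2 * (1 + 2 * i * k + i + k) := by rw [hi, hk]; ring
          rw [e2, hj]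
          ring
        omega
      · exact ht
  refine ⟨ha', hpar.1, hpar.2, ?_, ?_⟩
  · intro p hp hp2 hpQ
    obtain ⟨h0, h0'⟩ := hQ p hp hp2 hpQ
    exact in_of h hd h8 hB hm hp hp2 h0' h0
  intro n1 n2 n3 N T1 T2 T3 _ _ _ _ _ h1 h2 h3 h4 hN2 h5
  have hN : 0 < N := by omega
  obtain ⟨ho, hs⟩ := relOk_spec hN h1 h2 h3 h4
  have hdq : Nat.Coprime (n1 * n2 * n3) d :=
    (Nat.Coprime.coprime_dvd_right ((Dvd.intro _ rfl).trans h5) hcopP).symm
  have hdN : Nat.Coprime d N := Nat.Coprime.coprime_dvd_right ((Dvd.intro_left _ rfl).trans h5) hcopP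
  have hc := tri_char (n1 := n1) (n2 := n2) (n3 := n3) (tabCk_char h2) (tabCk_char h3)
    (tabCk_char h4)
  exact rel_of h hm2 hB2 hd h8 hB hm hr hdq hN2 hdN _ ho hc.mul hs

/-- code of a class -/
def cdK (p : ℕ) (c : ℕ × ℕ × ℕ) : ℕ := Nat.add c.1 (Nat.mul p (Nat.add c.2.1 (Nat.mul p c.2.2)))

/-- the class of a triple -/
def cl (p : ℕ) (a b t : ℤ) : ℕ × ℕ × ℕ := (rs p a, rs p b, rs p t)

/-! ### decoding -/

/-- the class modulo `p` in a code -/
def cls {β : Type} (p M c : ℕ) (k : ℕ → ℕ → ℕ → β) : β :=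
  strict (Nat.mod (Nat.div c M) (Nat.mul p (Nat.mul p p))) fun x =>
  strict (Nat.mod x p) fun a => strict (Nat.mod (Nat.div x p) p) fun b =>
  strict (Nat.div x (Nat.mul p p)) fun t => k a b t

lemma cdK_eq (p : ℕ) (a b t : ℤ) : cdK p (cl p a b t) = rs p a + p * (rs p b + p * rs p t) := rfl

lemma cdK_lt (p : ℕ) [NeZero p] (a b t : ℤ) : cdK p (cl p a b t) < p * (p * p) := by
  rw [cdK_eq]
  have h1 := rs_lt (p := p) a
  have h2 := rs_lt (p := p) b
  have h3 := rs_lt (p := p) t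
  have h4 : p * (rs p b + p * rs p t + 1) ≤ p * (p * p) := by
    apply Nat.mul_le_mul_left
    have : p * (rs p t + 1) ≤ p * p := Nat.mul_le_mul_left _ h3
    calc rs p b + p * rs p t + 1 ≤ p * (rs p t + 1) := by
          rw [mul_add, mul_one]; omega
      _ ≤ _ := this
  rw [mul_add, mul_one] at h4
  omega

lemma cls_eq {β : Type} {p M c : ℕ} [NeZero p] {a b t : ℤ} {k : ℕ → ℕ → ℕ → β}
    (h : c / M % (p * (p * p)) = cdK p (cl p a b t)) :
    cls p M c k = k (rs p a) (rs p b) (rs p t) := by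
  have hp : 0 < p := Nat.pos_of_ne_zero (NeZero.ne p)
  have h1 := rs_lt (p := p) a
  have h2 := rs_lt (p := p) b
  have h3 := rs_lt (p := p) t
  have e0 : Nat.mod (Nat.div c M) (Nat.mul p (Nat.mul p p)) = cdK p (cl p a b t) := h
  have e1 : Nat.mod (cdK p (cl p a b t)) p = rs p a := by
    change (rs p a + p * (rs p b + p * rs p t)) % p = _
    rw [Nat.add_mul_mod_self_left, Nat.mod_eq_of_lt h1]
  have e2' : (rs p a + p * (rs p b + p * rs p t)) / p = rs p b + p * rs p t := by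
    rw [Nat.add_mul_div_left _ _ hp, Nat.div_eq_of_lt h1, zero_add]
  have e2 : Nat.mod (Nat.div (cdK p (cl p a b t)) p) p = rs p b := by
    change ((rs p a + p * (rs p b + p * rs p t)) / p) % p = _
    rw [e2', Nat.add_mul_mod_self_left, Nat.mod_eq_of_lt h2]
  have e3 : Nat.div (cdK p (cl p a b t)) (Nat.mul p p) = rs p t := by
    change (rs p a + p * (rs p b + p * rs p t)) / (p * p) = _
    rw [← Nat.div_div_eq_div_mul, e2', Nat.add_mul_div_left _ _ hp, Nat.div_eq_of_lt h2, zero_add]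
  unfold cls
  simp only [strict_eq]
  rw [e0, e1, e2, e3]

lemma cls_ex {p M c : ℕ} {k : ℕ → ℕ → ℕ → Bool} (h : cls p M c k = true) :
    ∃ a b t, k a b t = true := by
  unfold cls at h
  simp only [strict_eq] at h
  exact ⟨_, _, _, h⟩


/-- data of a class in a code -/
def wq (p M c : ℕ) (k : ℕ → ℕ → ℕ → ℕ → ℕ → ℕ → ℕ → ℕ → Bool) : Bool :=
  cls p M c fun a b t => withP4 p a b t fun B m nm nr R d => k a b B m nm nr R d

lemma wq_eq {p M c : ℕ} [NeZero p] {a b t : ℤ}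
    {k : ℕ → ℕ → ℕ → ℕ → ℕ → ℕ → ℕ → ℕ → Bool}
    (h : c / M % (p * (p * p)) = cdK p (cl p a b t)) :
    wq p M c k = k (rs p a) (rs p b) (rs p (zB a b t)) (rs p (zm a b t))
      (rs p (-zm a b t)) (rs p (-zr a b t)) (rs p (zR a b t)) (rs p (zd a b t)) := by
  unfold wq
  rw [cls_eq h, withP4_eq]

lemma wq_ex {p M c : ℕ} {k : ℕ → ℕ → ℕ → ℕ → ℕ → ℕ → ℕ → ℕ → Bool}
    (h : wq p M c k = true) : ∃ a b B m nm nr R d, k a b B m nm nr R d = true := by
  obtain ⟨a, b, t, h1⟩ := cls_ex h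
  obtain ⟨B, m, nm, nr, R, d, h2⟩ := withP4_ex h1
  exact ⟨a, b, B, m, nm, nr, R, d, h2⟩

end Pool.Agent.Lib_helper5.K4


end

section

/-!
Odd periods of any length: the half sum of a word and its invariance under the deletion of
quotients which vanish modulo `M`.
-/

namespace Pool.Agent.LibH4.LO

open Finset Pool.Agent.Lib_helper5 Pool.Agent.LibH4 Pool.Agent.LibH4.KF

/-- next state -/
def st (x : ℤ) (f : ℤ × ℤ × ℤ) : ℤ × ℤ × ℤ :=
  (f.2.2, 2 * x * f.2.2 - f.2.1, f.1 + f.2.1 * x - f.2.2 * x ^ 2)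

/-- discriminant of a state -/
def dis (f : ℤ × ℤ × ℤ) : ℤ := f.2.1 ^ 2 + 4 * f.1 * f.2.2

/-- last state -/
def en : ℤ × ℤ × ℤ → List ℤ → ℤ × ℤ × ℤ
  | f, [] => f
  | f, x :: L => en (st x f) L

lemma dis_st (x : ℤ) (f : ℤ × ℤ × ℤ) : dis (st x f) = dis f := by
  unfold dis st; ring

lemma dis_en (L : List ℤ) (f : ℤ × ℤ × ℤ) : dis (en f L) = dis f := by
  induction L generalizing f with
  | nil => rfl
  | cons x L ih => exact (ih _).trans (dis_st x f)

lemma st_zero (f : ℤ × ℤ × ℤ) : st 0 f = (f.2.2, -f.2.1, f.1) := by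
  unfold st
  simp only [mul_zero, zero_mul, add_zero, zero_sub]
  congr 2
  ring

lemma st_merge (x y : ℤ) (f : ℤ × ℤ × ℤ) : st y (st 0 (st x f)) = st (x + y) f := by
  rw [st_zero]
  unfold st
  simp only
  congr 2
  · ring
  · ring

section Sums

variable {q N : ℕ} [NeZero q] (χ : ZMod q → ZMod N)

/-- first sum of a state -/
def XS (f : ℤ × ℤ × ℤ) : ZMod N := KF.XX χ f.1 f.2.1 (-f.2.2)
/-- second sum of a state -/
def YS (f : ℤ × ℤ × ℤ) : ZMod N := KF.YX χ f.1 f.2.1 (-f.2.2)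
/-- second sum of a state at the other cusp -/
def YB (f : ℤ × ℤ × ℤ) : ZMod N := KF.YX χ f.2.2 f.2.1 (-f.1)

/-- the half sum of a word -/
def W : ℤ × ℤ × ℤ → List ℤ → ZMod N
  | f, [] => 3 * XS χ f
  | f, x :: L => 6 * XS χ f - 2 * x * YS χ f + W (st x f) L

/-- the half sum of a word, with the term of the first quotient -/
def V (B m : ℤ) (L : List ℤ) : ZMod N := -B * YS χ (m, B, 1) + W χ (1, B, m) L

variable {χ}

lemma XS_swap (hodd : ∀ x, χ (-x) = - χ x) (P R S : ℤ) : XS χ (S, R, P) = XS χ (P, R, S) := by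
  have h := KF.XX_swap χ hodd P R (-S)
  rw [neg_neg] at h
  exact h

lemma XS_neg (P R S : ℤ) : XS χ (P, -R, S) = - XS χ (P, R, S) := K5.XX_neg χ P R (-S)

lemma YS_neg (P R S : ℤ) : YS χ (P, -R, S) = YS χ (P, R, S) := K5.YX_neg χ P R (-S)

lemma XS_st_zero (hodd : ∀ x, χ (-x) = - χ x) (f : ℤ × ℤ × ℤ) : XS χ (st 0 f) = - XS χ f := by
  rw [st_zero, XS_neg, XS_swap hodd]

lemma YS_st_zero (f : ℤ × ℤ × ℤ) : YS χ (st 0 f) = YB χ f := by
  rw [st_zero, YS_neg]; rfl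

/-- the cusp of a state -/
lemma YB_st (hodd : ∀ x, χ (-x) = - χ x) (x : ℤ) (f : ℤ × ℤ × ℤ) : YB χ (st x f) = YS χ f := by
  have h1 := KF.YX_swap χ hodd f.2.2 (2 * x * f.2.2 - f.2.1) (-(f.1 + f.2.1 * x - f.2.2 * x ^ 2))
  rw [neg_neg, K5.YY_step χ hodd f.1 f.2.1 f.2.2 x, neg_neg] at h1
  exact h1

/-- a vanishing quotient in the middle -/
lemma W_mid (hodd : ∀ x, χ (-x) = - χ x) (x y : ℤ) (L : List ℤ) (f : ℤ × ℤ × ℤ) :
    W χ f (x :: 0 :: y :: L) = W χ f ((x + y) :: L) := by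
  change 6 * XS χ f - 2 * x * YS χ f + (6 * XS χ (st x f) - 2 * (0 : ℤ) * YS χ (st x f) +
    (6 * XS χ (st 0 (st x f)) - 2 * y * YS χ (st 0 (st x f)) + W χ (st y (st 0 (st x f))) L)) =
    6 * XS χ f - 2 * (x + y : ℤ) * YS χ f + W χ (st (x + y) f) L
  rw [XS_st_zero hodd, YS_st_zero, YB_st hodd, st_merge]
  push_cast
  ring

/-- a vanishing quotient at the end -/
lemma W_end (hodd : ∀ x, χ (-x) = - χ x) (f : ℤ × ℤ × ℤ) : W χ f [0] = W χ f [] := by
  change 6 * XS χ f - 2 * (0 : ℤ) * YS χ f + 3 * XS χ (st 0 f) = 3 * XS χ f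
  rw [XS_st_zero hodd]
  push_cast
  ring

/-- a vanishing quotient at the start -/
lemma V_front (hodd : ∀ x, χ (-x) = - χ x) (B m y : ℤ) (L : List ℤ) :
    V χ B m (0 :: y :: L) = V χ (B + 2 * y) (m - B * y - y ^ 2) L := by
  have e1 : st 0 ((1, B, m) : ℤ × ℤ × ℤ) = (m, -B, 1) := st_zero _
  have e2 : st y ((m, -B, 1) : ℤ × ℤ × ℤ) = (1, B + 2 * y, m - B * y - y ^ 2) := by
    unfold st
    simp only
    congr 2
    · ring
    · ring
  have e3 : YS χ (m - B * y - y ^ 2, B + 2 * y, 1) = YS χ (m, B, 1) := by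
    have h1 := YB_st hodd y ((m, -B, 1) : ℤ × ℤ × ℤ)
    rw [e2, YS_neg] at h1
    exact h1
  change -(B : ZMod N) * YS χ (m, B, 1) + (6 * XS χ (1, B, m) - 2 * (0 : ℤ) * YS χ (1, B, m) +
    (6 * XS χ (st 0 (1, B, m)) - 2 * y * YS χ (st 0 (1, B, m)) +
      W χ (st y (st 0 (1, B, m))) L)) =
    -((B + 2 * y : ℤ) : ZMod N) * YS χ (m - B * y - y ^ 2, B + 2 * y, 1) +
      W χ (1, B + 2 * y, m - B * y - y ^ 2) L
  rw [XS_st_zero hodd, e3, e1, YS_neg, e2]
  push_cast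
  ring

/-! ### congruences -/

/-- congruence of states -/
def Cg (M : ℕ) (f g : ℤ × ℤ × ℤ) : Prop :=
  (M : ℤ) ∣ f.1 - g.1 ∧ (M : ℤ) ∣ f.2.1 - g.2.1 ∧ (M : ℤ) ∣ f.2.2 - g.2.2

omit [NeZero q] in
lemma cast_eq {M n : ℕ} (h : n ∣ M) {x y : ℤ} (hxy : (M : ℤ) ∣ x - y) :
    (x : ZMod n) = (y : ZMod n) := by
  have h1 : (n : ℤ) ∣ x - y := (Int.natCast_dvd_natCast.2 h).trans hxy
  rw [← sub_eq_zero, ← Int.cast_sub, ZMod.intCast_zmod_eq_zero_iff_dvd]
  exact h1

lemma Cg.refl (M : ℕ) (f : ℤ × ℤ × ℤ) : Cg M f f := by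
  unfold Cg; simp

lemma Cg.st {M : ℕ} {f g : ℤ × ℤ × ℤ} (h : Cg M f g) {x y : ℤ} (hxy : (M : ℤ) ∣ x - y) :
    Cg M (LO.st x f) (LO.st y g) := by
  obtain ⟨h1, h2, h3⟩ := h
  obtain ⟨a, ha⟩ := h1
  obtain ⟨b, hb⟩ := h2
  obtain ⟨c, hc⟩ := h3
  obtain ⟨e, he⟩ := hxy
  have ea : f.1 = g.1 + M * a := by linarith
  have eb : f.2.1 = g.2.1 + M * b := by linarith
  have ec : f.2.2 = g.2.2 + M * c := by linarith
  have ee : x = y + M * e := by linarith
  unfold LO.st Cg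
  simp only
  refine ⟨⟨c, hc⟩, ?_, ?_⟩
  · rw [eb, ec, ee]
    exact ⟨2 * y * c + 2 * e * g.2.2 + 2 * e * c * M - b, by ring⟩
  · rw [ea, eb, ec, ee]
    exact ⟨a + b * y + g.2.1 * e + b * e * M - (c * y ^ 2 + (g.2.2 + M * c) * (2 * y * e +
      M * e ^ 2)), by ring⟩

lemma XS_congr {M : ℕ} (hq : q ∣ M) {f g : ℤ × ℤ × ℤ} (h : Cg M f g) : XS χ f = XS χ g := by
  unfold XS KF.XX fz
  push_cast
  rw [cast_eq hq h.1, cast_eq hq h.2.1, cast_eq hq h.2.2]

lemma YS_congr {M : ℕ} (hq : q ∣ M) {f g : ℤ × ℤ × ℤ} (h : Cg M f g) : YS χ f = YS χ g := by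
  unfold YS KF.YX fz
  push_cast
  rw [cast_eq hq h.1, cast_eq hq h.2.1, cast_eq hq h.2.2]

lemma W_congr {M : ℕ} (hq : q ∣ M) (L : List ℤ) {f g : ℤ × ℤ × ℤ} (h : Cg M f g) :
    W χ f L = W χ g L := by
  induction L generalizing f g with
  | nil =>
    change 3 * XS χ f = 3 * XS χ g
    rw [XS_congr hq h]
  | cons x L ih =>
    change 6 * XS χ f - 2 * x * YS χ f + W χ (st x f) L =
      6 * XS χ g - 2 * x * YS χ g + W χ (st x g) L
    rw [XS_congr hq h, YS_congr hq h, ih (h.st (x := x) (y := x) (by simp))]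

end Sums

/-! ### the class of relations -/

/-- the relations which depend only on the classes modulo `M` -/
structure RC (M : ℕ) (D : ℤ) {q N : ℕ} [NeZero q] (l : ℕ) (χ : ZMod q → ZMod N) : Prop where
  odd : ∀ x, χ (-x) = - χ x
  zero : χ 0 = 0
  qM : q ∣ M
  lM : l ∣ M
  Y : ∀ P R S : ℤ, (M : ℤ) ∣ R ^ 2 + 4 * P * S - D → (l : ZMod N) * KF.YX χ P R (-S) = 0

section RC

variable {M : ℕ} {D : ℤ} {q N : ℕ} [NeZero q] {l : ℕ} {χ : ZMod q → ZMod N}

lemma RC.coef (h : RC M D l χ) {f : ℤ × ℤ × ℤ} (hf : (M : ℤ) ∣ dis f - D) {x y : ℤ}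
    (hxy : (M : ℤ) ∣ x - y) : (x : ZMod N) * YS χ f = y * YS χ f := by
  obtain ⟨k, hk⟩ : (l : ℤ) ∣ x - y := (Int.natCast_dvd_natCast.2 h.lM).trans hxy
  have hx : x = y + l * k := by linarith
  have h1 := h.Y f.1 f.2.1 f.2.2 hf
  have h2 : (l : ZMod N) * YS χ f = 0 := h1
  rw [hx]
  push_cast
  linear_combination (k : ZMod N) * h2

/-- change of the first quotient -/
lemma RC.W_head (h : RC M D l χ) {f : ℤ × ℤ × ℤ} (hf : (M : ℤ) ∣ dis f - D) {x y : ℤ}
    (hxy : (M : ℤ) ∣ x - y) (L : List ℤ) : W χ f (x :: L) = W χ f (y :: L) := by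
  change 6 * XS χ f - 2 * x * YS χ f + W χ (st x f) L =
    6 * XS χ f - 2 * y * YS χ f + W χ (st y f) L
  rw [W_congr h.qM L ((Cg.refl M f).st hxy)]
  linear_combination (-2 : ZMod N) * h.coef hf hxy

end RC

/-- the closing condition modulo `M` -/
def Clo (M : ℕ) (f : ℤ × ℤ × ℤ) : Prop := (M : ℤ) ∣ f.1 - f.2.2

lemma Clo.congr {M : ℕ} {f g : ℤ × ℤ × ℤ} (h : Cg M f g) (hf : Clo M f) : Clo M g := by
  obtain ⟨h1, -, h3⟩ := h
  unfold Clo at hf ⊢
  have e : g.1 - g.2.2 = (f.1 - f.2.2) - (f.1 - g.1) + (f.2.2 - g.2.2) := by ring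
  rw [e]
  exact dvd_add (dvd_sub hf h1) h3

lemma en_congr {M : ℕ} (L : List ℤ) {f g : ℤ × ℤ × ℤ} (h : Cg M f g) :
    Cg M (en f L) (en g L) := by
  induction L generalizing f g with
  | nil => exact h
  | cons x L ih => exact ih (h.st (x := x) (y := x) (by simp))

/-- words with the same sums and the same closing condition -/
def Eqv (M : ℕ) (D : ℤ) (L L' : List ℤ) : Prop :=
  ∀ f : ℤ × ℤ × ℤ, (M : ℤ) ∣ dis f - D →
    (∀ (q N : ℕ) [NeZero q] (l : ℕ) (χ : ZMod q → ZMod N), RC M D l χ → W χ f L = W χ f L') ∧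
    (Clo M (en f L) → Clo M (en f L'))

section Eqv

variable {M : ℕ} {D : ℤ}

lemma Eqv.refl (L : List ℤ) : Eqv M D L L := fun _ _ => ⟨fun _ _ _ _ _ _ => rfl, id⟩

lemma Eqv.trans {L L' L'' : List ℤ} (h : Eqv M D L L') (h' : Eqv M D L' L'') :
    Eqv M D L L'' := fun f hf =>
  ⟨fun q N _ l χ hχ => ((h f hf).1 q N l χ hχ).trans ((h' f hf).1 q N l χ hχ),
    fun hc => (h' f hf).2 ((h f hf).2 hc)⟩

lemma Eqv.cons {L L' : List ℤ} (h : Eqv M D L L') (x : ℤ) : Eqv M D (x :: L) (x :: L') := by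
  intro f hf
  have hf' : (M : ℤ) ∣ dis (st x f) - D := by rw [dis_st]; exact hf
  refine ⟨fun q N _ l χ hχ => ?_, fun hc => (h _ hf').2 hc⟩
  change 6 * XS χ f - 2 * x * YS χ f + W χ (st x f) L =
    6 * XS χ f - 2 * x * YS χ f + W χ (st x f) L'
  rw [(h _ hf').1 q N l χ hχ]

lemma Eqv.head {x y : ℤ} (hxy : (M : ℤ) ∣ x - y) (L : List ℤ) :
    Eqv M D (x :: L) (y :: L) := fun f hf =>
  ⟨fun q N _ l χ hχ => hχ.W_head hf hxy L, fun hc =>
    Clo.congr (en_congr L ((Cg.refl M f).st hxy)) hc⟩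

lemma Eqv.mid (x y : ℤ) (L : List ℤ) : Eqv M D (x :: 0 :: y :: L) ((x + y) :: L) :=
  fun f _ => ⟨fun _ _ _ _ _ hχ => W_mid hχ.odd x y L f, fun hc => by
    change Clo M (en (st y (st 0 (st x f))) L) at hc
    rw [st_merge] at hc
    exact hc⟩

lemma Eqv.last : Eqv M D [0] [] := fun f _ =>
  ⟨fun _ _ _ _ _ hχ => W_end hχ.odd f, fun hc => by
    change Clo M (st 0 f) at hc
    rw [st_zero] at hc
    unfold Clo at hc ⊢
    change (M : ℤ) ∣ f.1 - f.2.2
    rw [← neg_sub]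
    exact (dvd_neg).2 hc⟩

lemma Eqv.last' : Eqv M D [] [0] := fun f _ =>
  ⟨fun _ _ _ _ _ hχ => (W_end hχ.odd f).symm, fun hc => by
    change Clo M (st 0 f)
    rw [st_zero]
    unfold Clo at hc ⊢
    change (M : ℤ) ∣ f.2.2 - f.1
    rw [← neg_sub]
    exact (dvd_neg).2 hc⟩

end Eqv

end Pool.Agent.LibH4.LO


end
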