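import Mathlib
import Pool.Agent.RQM.C02
import Pool.Agent.RQM.C04
import Pool.Agent.RQM.C09
import Pool.Agent.RQM.C13
import Pool.Agent.RQM.C14
import Pool.Agent.RQM.C15
import Pool.Agent.RQM.C28
import Pool.Agent.RQM.C42
import Pool.Agent.RQM.C43
import Pool.Agent.RQM.C44

/-! Parts: Lib_helper4.CFFive, Lib_helper4.LO.Fold, Lib_helper4.CW.Ev -/

namespace Pool.Agent.LibH4
end Pool.Agent.LibH4
namespace Pool.Agent.LibH4.KF
end Pool.Agent.LibH4.KF
namespace Pool.Agent.Lib_helper5
end Pool.Agent.Lib_helper5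

section

/-!
Odd cycles, and the cycle of length five, from the continued fraction of `ω_d`.
-/

namespace Pool.Agent.LibH4.CFO

open Real Function Pool.Agent.Lib_helper5

variable {m B : ℤ} {s : ℝ} {x : ℕ → ℝ} {c : ℕ → ℕ}

lemma c_zero (h : Data m B s x c) : (c 0 : ℤ) = B := by
  rw [h.fl 0, h.x0, Int.floor_eq_iff]
  constructor
  · linarith [h.Bs]
  · linarith [h.sB]

lemma QS_zero : QS m B c 0 = 1 := rfl
lemma QR_one (h : Data m B s x c) : QR m B c 1 = B := by
  have := QR_succ (m := m) (B := B) (c := c) 0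
  rw [c_zero h, QS_zero, show QR m B c 0 = B from rfl] at this
  rw [this]; ring
lemma QS_one (h : Data m B s x c) : QS m B c 1 = m := by
  have := QS_succ (m := m) (B := B) (c := c) 0
  rw [c_zero h, QS_zero, show QR m B c 0 = B from rfl, show QP m B c 0 = m from rfl] at this
  rw [this]; ring

/-- the odd cycle -/
theorem oddCyc (h : Data m B s x c) (hm : 0 < m) {I : ℕ}
    (hL : minimalPeriod gsh (x 1) = 2 * I + 1) :
    OddCyc m B I (QP m B c) (QR m B c) (QS m B c) c := by
  have hfix : gsh^[2 * I + 1] (x 1) = x 1 := by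
    have := isPeriodicPt_minimalPeriod gsh (x 1)
    rw [hL] at this
    exact this
  have hper := x_per h hfix
  have hper2 : ∀ k, x (k + 2 * (2 * I + 1)) = x k := by
    intro k
    rw [show k + 2 * (2 * I + 1) = (k + (2 * I + 1)) + (2 * I + 1) by ring, hper, hper]
  have h20 : x (2 * (2 * I + 1)) = x 0 := by have := hper2 0; rwa [zero_add] at this
  obtain ⟨z1, z2, z3⟩ := state_eq h h20
  exact {
    hP := fun k _ => QP_succ k
    hR := fun k _ => QR_succ k
    hS := fun k _ => QS_succ k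
    P0 := z1
    R0 := z2
    S0 := z3
    Spos := fun k _ => (inv_of h k).Spos
    Ppos0 := hm
    cpos := fun k _ => (inv_of h k).cpos
    Pm := rfl
    RB := rfl
    S1 := rfl
    perP := fun k _ => (state_eq h (hper k)).1
    perR := fun k _ => (state_eq h (hper k)).2.1
    perS := fun k _ => (state_eq h (hper k)).2.2
    perc := fun k _ => c_eq h (hper k)
    Pone := by
      intro i hi hi0 hone
      rw [add_comm, QP_succ] at hone
      by_cases hlt : 2 * i < 2 * I + 1
      · exact S_ne_one h hL (by omega) hlt hone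
      · have e : QS m B c (2 * i) = QS m B c (2 * i - (2 * I + 1)) := by
          have := (state_eq h (hper (2 * i - (2 * I + 1)))).2.2
          rw [Nat.sub_add_cancel (by omega)] at this
          exact this
        rw [e] at hone
        exact S_ne_one h hL (by omega) (by omega) hone }

/-- cycles of length five -/
theorem par_five (h : Data m B s x c) (hL : minimalPeriod gsh (x 1) = 5) :
    E5.Par (c 1) (c 2) (c 0) m (QS m B c 2) := by
  have hfix : gsh^[5] (x 1) = x 1 := by
    have := isPeriodicPt_minimalPeriod gsh (x 1)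
    rw [hL] at this
    exact this
  have hper := x_per h hfix
  obtain ⟨p1, -, -, -⟩ := palin h hper 2 3 rfl
  have s2 := QS_succ (m := m) (B := B) (c := c) 1
  have s3 := QS_succ (m := m) (B := B) (c := c) 2
  have r2 := QR_succ (m := m) (B := B) (c := c) 1
  have q1 := QP_succ (m := m) (B := B) (c := c) 0
  have q2 := QP_succ (m := m) (B := B) (c := c) 1
  rw [QR_one h, QS_one h] at r2
  rw [QS_one h] at q2
  rw [QS_zero] at q1
  have e0 := c_zero h
  exact {
    ha := (inv_of h 1).cpos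
    hb := (inv_of h 2).cpos
    hB := (inv_of h 0).cpos
    hm := by
      have h1 := (inv_of h 1).Spos
      have h2 := S_ne_one h hL (j := 1) (by norm_num) (by norm_num)
      rw [QS_one h] at h1 h2
      omega
    hm' := by
      have h1 := (inv_of h 2).Spos
      have h2 := S_ne_one h hL (j := 2) (by norm_num) (by norm_num)
      omega
    e1 := by
      have s2' := s2
      rw [show QP m B c 1 = 1 from q1, QR_one h, QS_one h] at s2'
      rw [e0]
      exact s2'
    e2 := by
      have s3' := s3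
      rw [show QP m B c 2 = m from q2, show QR m B c 2 = 2 * (c 1) * m - B from r2] at s3'
      rw [show QS m B c (2 + 1) = QS m B c 2 from p1] at s3'
      rw [e0]
      linarith }

/-- a squarefree integer whose `ω_d` has period length five -/
theorem exists_par_five (d : ℕ) (h1 : 1 < d) (hsq : Squarefree d)
    (hper : minimalPeriod gsh (gsh (omg d)) = 5) :
    ∃ (a b B : ℕ) (m m' : ℤ), E5.Par a b B m m' ∧
      ((d % 4 = 1 ∧ (d : ℤ) = (B : ℤ) ^ 2 + 4 * m ∧ B % 2 = 1) ∨
       (d % 4 ≠ 1 ∧ 4 * (d : ℤ) = (B : ℤ) ^ 2 + 4 * m ∧ B % 2 = 0)) := by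
  obtain ⟨m, B, s, x, c, h, hx1, hm, hB, hd⟩ := exists_data d h1 hsq
  rw [← hx1] at hper
  refine ⟨c 1, c 2, c 0, m, _, par_five h hper, ?_⟩
  have e0 := c_zero h
  rw [e0]
  rcases hd with ⟨a1, a2, a3⟩ | ⟨a1, a2, a3⟩
  · exact Or.inl ⟨a1, a2, by omega⟩
  · exact Or.inr ⟨a1, a2, by omega⟩

end Pool.Agent.LibH4.CFO


end

section

/-!
Odd periods of any length: the relation of the cycle as a half sum.
-/

namespace Pool.Agent.LibH4.LO

open Finset Function Pool.Agent.Lib_helper5 Pool.Agent.LibH4 Pool.Agent.LibH4.KF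
  Pool.Agent.LibH4.CFO

/-- the word of the quotients with index `k, ..., k + n - 1` -/
def wd (c : ℕ → ℕ) : ℕ → ℕ → List ℤ
  | _, 0 => []
  | k, n + 1 => (c k : ℤ) :: wd c (k + 1) n

/-- the word of the first half as a map -/
lemma wd_eq (c : ℕ → ℕ) (k n : ℕ) : wd c k n = (List.range n).map fun i => (c (k + i) : ℤ) := by
  induction n generalizing k with
  | zero => rfl
  | succ n ih =>
    change (c k : ℤ) :: wd c (k + 1) n = _
    rw [ih, List.range_succ_eq_map, List.map_cons, List.map_map, add_zero]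
    congr 1
    apply List.map_congr_left
    intro i _
    simp only [Function.comp_apply]
    congr 2
    omega

section

variable {m B : ℤ} {c : ℕ → ℕ}

lemma qst_succ (k : ℕ) : qst m B c (k + 1) = st (c k) (qst m B c k) := rfl

lemma qst_eta (k : ℕ) : qst m B c k = (QP m B c k, QR m B c k, QS m B c k) := rfl

lemma en_wd (k n : ℕ) : en (qst m B c k) (wd c k n) = qst m B c (k + n) := by
  induction n generalizing k with
  | zero => rfl
  | succ n ih =>
    change en (st (c k) (qst m B c k)) (wd c (k + 1) n) = _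
    rw [← qst_succ, ih, show k + 1 + n = k + (n + 1) by ring]

variable {q N : ℕ} [NeZero q] {χ : ZMod q → ZMod N}

lemma W_wd (k n : ℕ) : W χ (qst m B c k) (wd c k n) =
    ∑ i ∈ range n, (6 * XS χ (qst m B c (k + i)) - 2 * (c (k + i) : ZMod N) *
      YS χ (qst m B c (k + i))) + 3 * XS χ (qst m B c (k + n)) := by
  induction n generalizing k with
  | zero => simp [wd, W]
  | succ n ih =>
    change 6 * XS χ (qst m B c k) - 2 * ((c k : ℤ) : ZMod N) * YS χ (qst m B c k) +
      W χ (st (c k) (qst m B c k)) (wd c (k + 1) n) = _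
    rw [← qst_succ, ih, Finset.sum_range_succ' _ n]
    have e : ∀ i, k + 1 + i = k + (i + 1) := fun i => by ring
    simp only [e, add_zero]
    push_cast
    ring

end

variable {m B : ℤ} {s : ℝ} {x : ℕ → ℝ} {c : ℕ → ℕ}

/-- states of the second half of the period -/
lemma qst_palin (h : Data m B s x c) {L : ℕ} (hper : ∀ k, x (k + L) = x k) {k j : ℕ}
    (hkj : k + j = L) {q N : ℕ} [NeZero q] {χ : ZMod q → ZMod N} (hodd : ∀ x, χ (-x) = - χ x) :
    XS χ (qst m B c j) = XS χ (qst m B c (k + 1)) ∧ YS χ (qst m B c j) = YS χ (qst m B c k) ∧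
      c j = c k := by
  obtain ⟨p1, p2, p3, p4⟩ := palin h hper k j hkj
  have e1 : qst m B c j = (QS m B c (k + 1), QR m B c (k + 1), QS m B c k) := by
    rw [qst_eta, p1, p2, p3]
  have e2 : qst m B c (k + 1) = (QS m B c k, QR m B c (k + 1), QS m B c (k + 1)) := rfl
  refine ⟨?_, ?_, p4⟩
  · rw [e1, e2, XS_swap hodd]
  · have h1 := YB_st hodd (c k) (qst m B c k)
    rw [← qst_succ, e2] at h1
    rw [e1, ← h1]
    rfl

/-- the sum over the cycle is the half sum -/
theorem fold (h : Data m B s x c) {I : ℕ} (hL : minimalPeriod gsh (x 1) = 2 * I + 1)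
    {q N : ℕ} [NeZero q] {χ : ZMod q → ZMod N} (hodd : ∀ x, χ (-x) = - χ x) :
    ∑ k ∈ range (2 * I + 1), (3 * XS χ (qst m B c k) - (c k : ZMod N) * YS χ (qst m B c k)) =
      V χ B m (wd c 1 I) := by
  have hfix : gsh^[2 * I + 1] (x 1) = x 1 := by
    have := isPeriodicPt_minimalPeriod gsh (x 1)
    rw [hL] at this
    exact this
  have hper := x_per h hfix
  have e0 : qst m B c 0 = (m, B, 1) := rfl
  have e1 : qst m B c 1 = (1, B, m) := by
    rw [qst_eta, QR_one h, QS_one h]; rfl
  have hc0 : ((c 0 : ℕ) : ZMod N) = (B : ZMod N) := by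
    rw [← c_zero h, Int.cast_natCast]
  set T : ℕ → ZMod N := fun k => 3 * XS χ (qst m B c k) - (c k : ZMod N) * YS χ (qst m B c k)
    with hT
  have hsum : ∑ k ∈ range (2 * I + 1), T k =
      T 0 + ∑ i ∈ range I, (T (i + 1) + T (2 * I + 1 - (i + 1))) := by
    rw [Finset.sum_range_succ', add_comm, two_mul, Finset.sum_range_add, Finset.sum_add_distrib]
    congr 2
    rw [← Finset.sum_range_reflect]
    apply Finset.sum_congr rfl
    intro i hi
    rw [Finset.mem_range] at hi
    congr 1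
    omega
  have hterm : ∀ i ∈ range I, T (i + 1) + T (2 * I + 1 - (i + 1)) =
      3 * XS χ (qst m B c (i + 1)) + 3 * XS χ (qst m B c (i + 2)) -
        2 * (c (i + 1) : ZMod N) * YS χ (qst m B c (i + 1)) := by
    intro i hi
    rw [Finset.mem_range] at hi
    obtain ⟨p1, p2, p3⟩ := qst_palin h hper (k := i + 1) (j := 2 * I + 1 - (i + 1)) (by omega) hodd
    simp only [hT]
    rw [p1, p2, p3]
    ring
  change ∑ k ∈ range (2 * I + 1), T k = _
  rw [hsum, Finset.sum_congr rfl hterm]
  unfold V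
  rw [← e0, ← e1, W_wd]
  have e2 : T 0 = 3 * XS χ (qst m B c 1) - (B : ZMod N) * YS χ (qst m B c 0) := by
    simp only [hT]
    rw [hc0, e0, e1, XS_swap hodd]
  rw [e2]
  have tel : XS χ (qst m B c 1) + ∑ i ∈ range I, XS χ (qst m B c (i + 2)) =
      ∑ i ∈ range I, XS χ (qst m B c (i + 1)) + XS χ (qst m B c (I + 1)) := by
    rw [← Finset.sum_range_succ, Finset.sum_range_succ', add_comm]
  have h1 : ∀ i, 1 + i = i + 1 := fun i => add_comm 1 i
  simp only [h1]
  have s1 : ∑ i ∈ range I, (3 * XS χ (qst m B c (i + 1)) + 3 * XS χ (qst m B c (i + 2)) -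
        2 * (c (i + 1) : ZMod N) * YS χ (qst m B c (i + 1))) =
      3 * ∑ i ∈ range I, XS χ (qst m B c (i + 1)) + 3 * ∑ i ∈ range I, XS χ (qst m B c (i + 2)) -
        ∑ i ∈ range I, 2 * (c (i + 1) : ZMod N) * YS χ (qst m B c (i + 1)) := by
    rw [Finset.sum_sub_distrib, Finset.sum_add_distrib, Finset.mul_sum, Finset.mul_sum]
  have s2 : ∑ i ∈ range I, (6 * XS χ (qst m B c (i + 1)) -
        2 * (c (i + 1) : ZMod N) * YS χ (qst m B c (i + 1))) =
      6 * ∑ i ∈ range I, XS χ (qst m B c (i + 1)) -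
        ∑ i ∈ range I, 2 * (c (i + 1) : ZMod N) * YS χ (qst m B c (i + 1)) := by
    rw [Finset.sum_sub_distrib, Finset.mul_sum]
  rw [s1, s2]
  linear_combination (3 : ZMod N) * tel

/-- **the relation of an odd cycle as a half sum** -/
theorem V_eq_zero (h : Data m B s x c) (hm : 0 < m) (hm2 : m % 2 = 1) (hB2 : B % 2 = 1) {I : ℕ}
    (hL : minimalPeriod gsh (x 1) = 2 * I + 1)
    [IsDomain (QuadraticAlgebra ℤ m B)] [UniqueFactorizationMonoid (QuadraticAlgebra ℤ m B)]
    {d : ℕ} (hd : (d : ℤ) = B ^ 2 + 4 * m) (h8 : d % 8 = 5)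
    {q N : ℕ} [NeZero q] (hcop : Nat.Coprime q d) (hN2 : N % 2 = 1) (hNd : Nat.Coprime d N)
    (χ : ZMod q → ZMod N) (hodd : ∀ x, χ (-x) = - χ x) (hmul : ∀ x y, χ (x * y) = χ x * χ y)
    (hsum : (∑ u ∈ range q, (u : ZMod N) * χ (u : ZMod q)) * (q : ZMod N) = 0) :
    V χ B m (wd c 1 I) = 0 := by
  have key := odd_T5N m B hm hm2 hB2 (oddCyc h hm hL) hd h8 q N
    (Nat.pos_of_ne_zero (NeZero.ne q)) hcop hN2 hNd χ hodd hmul (by
      intro z
      linear_combination (3 * z) * hsum)
  simp only [KF.range_term] at key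
  rw [← fold h hL hodd]
  exact key

end Pool.Agent.LibH4.LO


end

section

/-!
Even periods of any length: the cycle, the relation and its folded form.
-/

namespace Pool.Agent.LibH4.CW

open Finset Function Pool.Agent.Lib_helper5 Pool.Agent.LibH4 Pool.Agent.LibH4.KF
  Pool.Agent.LibH4.CFO Pool.Agent.LibH4.LO

variable {m B : ℤ} {s : ℝ} {x : ℕ → ℝ} {c : ℕ → ℕ}

/-- the even cycle -/
theorem evenCyc (h : Data m B s x c) (hm : 0 < m) {J : ℕ}
    (hL : minimalPeriod gsh (x 1) = 2 * J) :
    CG.CycM m B (2 * J) (QP m B c) (QR m B c) (QS m B c) c := by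
  have hfix : gsh^[2 * J] (x 1) = x 1 := by
    have := isPeriodicPt_minimalPeriod gsh (x 1)
    rw [hL] at this
    exact this
  have hper := x_per h hfix
  have h20 : x (2 * J) = x 0 := by have := hper 0; rwa [zero_add] at this
  obtain ⟨z1, z2, z3⟩ := state_eq h h20
  exact {
    hP := fun k _ => QP_succ k
    hR := fun k _ => QR_succ k
    hS := fun k _ => QS_succ k
    P0 := z1
    R0 := z2
    S0 := z3
    Spos := fun k _ => (inv_of h k).Spos
    Ppos0 := hm
    cpos := fun k _ => (inv_of h k).cpos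
    Pm := rfl
    RB := rfl
    S1 := rfl }

lemma s_eq (h : Data m B s x c) : CG.sd m B = s := by
  unfold CG.sd
  rw [← h.sq]
  apply Real.sqrt_sq
  have h1 := h.x0pos
  rw [h.x0] at h1
  have h2 := h.Bs
  linarith

lemma s1_rho_eq (h : Data m B s x c) (hm : 0 < m) (k : ℕ) :
    CG.s1 hm (CG.rho m B c k) = x k * CG.s1 hm (CG.rho m B c (k + 1)) := by
  induction k with
  | zero =>
    rw [CG.rho_zero, CG.rho_one, map_one, mul_one, CG.s1_apply, h.x0]
    unfold CG.al CG.om
    rw [s_eq h]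
    push_cast
    ring
  | succ k ih =>
    rw [CG.rho_add, map_sub, map_mul, map_natCast, ih]
    have h1 : Int.fract (x k) = x k - c k := by
      have := h.fl k
      unfold Int.fract
      rw [← this]
      push_cast
      rfl
    have h2 : Int.fract (x k) ≠ 0 := by
      intro h0
      have h3 := (inv_of h k).xi
      rw [h1] at h0
      apply h3
      exact ⟨((c k : ℕ) : ℚ), by push_cast; linarith⟩
    have h3 : x (k + 1) * (x k - c k) = 1 := by
      rw [h.step k, ← h1]
      unfold gsh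
      exact inv_mul_cancel₀ h2
    linear_combination (-(CG.s1 hm (CG.rho m B c (k + 1)))) * h3

lemma s1_inj (h : Data m B s x c) (hm : 0 < m) {z w : QuadraticAlgebra ℤ m B}
    (hzw : CG.s1 hm z = CG.s1 hm w) : z = w := by
  rw [CG.s1_apply, CG.s1_apply] at hzw
  unfold CG.al at hzw
  rw [s_eq h] at hzw
  have h1 : (((2 * (z.re - w.re) + (z.im - w.im) * B : ℤ)) : ℝ) + s * ((z.im - w.im : ℤ) : ℝ) = 0 := by
    push_cast
    linear_combination 2 * hzw
  obtain ⟨h2, h3⟩ := irr_lin h.irr h1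
  have h4 : z.im = w.im := by linarith
  rw [h2, zero_mul] at h3
  have h5 : z.re = w.re := by linarith
  exact QuadraticAlgebra.ext h5 h4

/-- the cycle closes -/
theorem closing (h : Data m B s x c) (hm : 0 < m) {K : ℕ} (hK : x K = x 0) :
    CG.rho m B c K = CG.rho m B c (K + 1) * CG.om m B := by
  apply s1_inj h hm
  rw [s1_rho_eq h hm, map_mul, hK, h.x0, CG.s1_apply hm (CG.om m B)]
  unfold CG.al CG.om
  rw [s_eq h]
  push_cast
  ring

/-- **the relation of an even cycle** -/
theorem even_rel (h : Data m B s x c) (hm : 0 < m) (hm2 : m % 2 = 1) (hB2 : B % 2 = 1) {J : ℕ}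
    (hJ : 0 < J) (hL : minimalPeriod gsh (x 1) = 2 * J)
    [IsDomain (QuadraticAlgebra ℤ m B)] [UniqueFactorizationMonoid (QuadraticAlgebra ℤ m B)]
    {d : ℕ} (hd : (d : ℤ) = B ^ 2 + 4 * m) (h8 : d % 8 = 5)
    {q N : ℕ} [NeZero q] (hcop : Nat.Coprime q d) (hN2 : N % 2 = 1) (hNd : Nat.Coprime d N)
    (χ : ZMod q → ZMod N) (hodd : ∀ x, χ (-x) = - χ x) (hmul : ∀ x y, χ (x * y) = χ x * χ y)
    (hsum : (∑ u ∈ range q, (u : ZMod N) * χ (u : ZMod q)) * (q : ZMod N) = 0) :
    ∑ k ∈ range (2 * J), (3 * XS χ (qst m B c k) - (c k : ZMod N) * YS χ (qst m B c k)) = 0 := by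
  have hfix : gsh^[2 * J] (x 1) = x 1 := by
    have := isPeriodicPt_minimalPeriod gsh (x 1)
    rw [hL] at this
    exact this
  have hper := x_per h hfix
  have h20 : x (2 * J) = x 0 := by have := hper 0; rwa [zero_add] at this
  have key := even_T5N m B hm hm2 hB2 (evenCyc h hm hL) J rfl hJ (closing h hm h20) (by
      intro k hk hk1
      rcases k with _ | k
      · intro h1
        have h2 : QS m B c 1 = 1 := by rw [QS_one h]; exact h1
        exact S_ne_one h hL (by omega) (by omega) h2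
      · intro h1
        rw [QP_succ] at h1
        exact S_ne_one h hL (by omega) (by omega) h1) hd h8 q N
    (Nat.pos_of_ne_zero (NeZero.ne q)) hcop hN2 hNd χ hodd hmul (by
      intro z
      linear_combination (3 * z) * hsum)
  simp only [KF.range_term] at key
  exact key

/-- the sum over an even cycle -/
theorem fold_even (h : Data m B s x c) {J : ℕ} (hJ : 0 < J)
    (hL : minimalPeriod gsh (x 1) = 2 * J)
    {q N : ℕ} [NeZero q] {χ : ZMod q → ZMod N} (hodd : ∀ x, χ (-x) = - χ x) :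
    ∑ k ∈ range (2 * J), (3 * XS χ (qst m B c k) - (c k : ZMod N) * YS χ (qst m B c k)) =
      V χ B m (wd c 1 J) - 3 * XS χ (qst m B c (J + 1)) +
        (c J : ZMod N) * YS χ (qst m B c J) := by
  have hfix : gsh^[2 * J] (x 1) = x 1 := by
    have := isPeriodicPt_minimalPeriod gsh (x 1)
    rw [hL] at this
    exact this
  have hper := x_per h hfix
  obtain ⟨J, rfl⟩ : ∃ J', J = J' + 1 := ⟨J - 1, by omega⟩
  have e0 : qst m B c 0 = (m, B, 1) := rfl
  have e1 : qst m B c 1 = (1, B, m) := by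
    rw [qst_eta, QR_one h, QS_one h]; rfl
  have hc0 : ((c 0 : ℕ) : ZMod N) = (B : ZMod N) := by
    rw [← c_zero h, Int.cast_natCast]
  set T : ℕ → ZMod N := fun k => 3 * XS χ (qst m B c k) - (c k : ZMod N) * YS χ (qst m B c k)
    with hT
  have hsum : ∑ k ∈ range (2 * (J + 1)), T k =
      T 0 + ∑ i ∈ range J, (T (i + 1) + T (2 * (J + 1) - (i + 1))) + T (J + 1) := by
    rw [show 2 * (J + 1) = (2 * J + 1) + 1 by ring, Finset.sum_range_succ', add_comm,
      show 2 * J + 1 = (J + 1) + J by ring, Finset.sum_range_add, Finset.sum_range_succ,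
      Finset.sum_add_distrib]
    have : ∑ x ∈ range J, T (J + 1 + x + 1) = ∑ i ∈ range J, T (J + 1 + J + 1 - (i + 1)) := by
      rw [← Finset.sum_range_reflect]
      apply Finset.sum_congr rfl
      intro i hi
      rw [Finset.mem_range] at hi
      congr 1
      omega
    rw [this]
    ring
  have hterm : ∀ i ∈ range J, T (i + 1) + T (2 * (J + 1) - (i + 1)) =
      3 * XS χ (qst m B c (i + 1)) + 3 * XS χ (qst m B c (i + 2)) -
        2 * (c (i + 1) : ZMod N) * YS χ (qst m B c (i + 1)) := by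
    intro i hi
    rw [Finset.mem_range] at hi
    obtain ⟨p1, p2, p3⟩ := qst_palin h hper (k := i + 1) (j := 2 * (J + 1) - (i + 1)) (by omega) hodd
    simp only [hT]
    rw [p1, p2, p3]
    ring
  change ∑ k ∈ range (2 * (J + 1)), T k = _
  rw [hsum, Finset.sum_congr rfl hterm]
  unfold V
  rw [← e0, ← e1, W_wd]
  have e2 : T 0 = 3 * XS χ (qst m B c 1) - (B : ZMod N) * YS χ (qst m B c 0) := by
    simp only [hT]
    rw [hc0, e0, e1, XS_swap hodd]
  rw [e2]
  have h1 : ∀ i, 1 + i = i + 1 := fun i => add_comm 1 i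
  simp only [h1]
  rw [Finset.sum_range_succ]
  have tel : XS χ (qst m B c 1) + ∑ i ∈ range J, XS χ (qst m B c (i + 2)) =
      ∑ i ∈ range J, XS χ (qst m B c (i + 1)) + XS χ (qst m B c (J + 1)) := by
    rw [← Finset.sum_range_succ, Finset.sum_range_succ', add_comm]
  have s1 : ∑ i ∈ range J, (3 * XS χ (qst m B c (i + 1)) + 3 * XS χ (qst m B c (i + 2)) -
        2 * (c (i + 1) : ZMod N) * YS χ (qst m B c (i + 1))) =
      3 * ∑ i ∈ range J, XS χ (qst m B c (i + 1)) + 3 * ∑ i ∈ range J, XS χ (qst m B c (i + 2)) -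
        ∑ i ∈ range J, 2 * (c (i + 1) : ZMod N) * YS χ (qst m B c (i + 1)) := by
    rw [Finset.sum_sub_distrib, Finset.sum_add_distrib, Finset.mul_sum, Finset.mul_sum]
  have s2 : ∑ i ∈ range J, (6 * XS χ (qst m B c (i + 1)) -
        2 * (c (i + 1) : ZMod N) * YS χ (qst m B c (i + 1))) =
      6 * ∑ i ∈ range J, XS χ (qst m B c (i + 1)) -
        ∑ i ∈ range J, 2 * (c (i + 1) : ZMod N) * YS χ (qst m B c (i + 1)) := by
    rw [Finset.sum_sub_distrib, Finset.mul_sum]
  rw [s1, s2]
  simp only [hT]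
  linear_combination (3 : ZMod N) * tel

/-- **genus theory** -/
theorem genus {m B : ℤ} {R s : ℕ} (hdec : B ^ 2 + 4 * m = R * s) (hR1 : 1 < R) (hs1 : 1 < s)
    (hR4 : R % 4 = 1) (hs4 : s % 4 = 1) [IsDomain (QuadraticAlgebra ℤ m B)]
    [UniqueFactorizationMonoid (QuadraticAlgebra ℤ m B)] (hsq : Squarefree (B ^ 2 + 4 * m)) :
    False := by
  have hsqd : Squarefree (R * s) := by
    rw [hdec] at hsq
    exact Int.squarefree_natCast.1 (by push_cast; exact hsq)
  rw [Nat.squarefree_mul_iff] at hsqd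
  obtain ⟨hcop, hsR, hss⟩ := hsqd
  obtain ⟨l, hlp, hl2, hl4, hlR, hls⟩ := G4.exists_prime hR1 hs1 (by omega) (by omega) hsR hss hcop
  have hR2 : R % 2 = 1 := by omega
  have hodl : Odd l := Nat.odd_iff.2 (by omega)
  have hj : jacobiSym ((R * s : ℕ) : ℤ) l = 1 := by
    push_cast
    rw [jacobiSym.mul_left, ← jacobiSym.quadratic_reciprocity_one_mod_four hl4
      (Nat.odd_iff.2 hR2), ← jacobiSym.quadratic_reciprocity_one_mod_four hl4
      (Nat.odd_iff.2 (by omega : s % 2 = 1)), hlR, hls]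
    norm_num
  obtain ⟨x, hx⟩ := exists_root_of_ne (m := m) (B := B) (d := R * s)
    (by rw [hdec]; push_cast; ring) hlp (by omega) (by rw [hj]; norm_num)
  obtain ⟨π, hπ⟩ := exists_norm_of_root hlp hx
  have hN : 4 * π.norm = (2 * π.re + B * π.im) ^ 2 - R * s * π.im ^ 2 := by
    rw [QuadraticAlgebra.norm_def, ← hdec]
    ring
  have hsym : jacobiSym (4 * π.norm) R = jacobiSym ((2 * π.re + B * π.im) ^ 2) R := by
    apply jacobiSym.mod_left'
    rw [hN, Int.sub_emod, mul_assoc, Int.mul_emod_right]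
    simp
  rw [jacobiSym.mul_left, jacobiSym.at_four (Nat.odd_iff.2 hR2), one_mul, jacobiSym.pow_left]
    at hsym
  have hneg : jacobiSym (-1) R = 1 := by
    rw [jacobiSym.at_neg_one (Nat.odd_iff.2 hR2), ZMod.χ₄_nat_one_mod_four hR4]
  have hval : jacobiSym π.norm R = -1 := by
    rcases Int.natAbs_eq π.norm with h7 | h7
    · rw [h7, hπ, hlR]
    · rw [h7, hπ, neg_eq_neg_one_mul, jacobiSym.mul_left, hneg, hlR, one_mul]
  rw [hval] at hsym
  nlinarith [sq_nonneg (jacobiSym (2 * π.re + B * π.im) R)]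

end Pool.Agent.LibH4.CW


end
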