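import Mathlib
import Pool.Agent.RQM.C04
import Pool.Agent.RQM.C13
import Pool.Agent.RQM.C15
import Pool.Agent.RQM.C28
import Pool.Agent.RQM.C40
import Pool.Agent.RQM.C42
import Pool.Agent.RQM.C44
import Pool.Agent.RQM.C45
import Pool.Agent.RQM.C48
import Pool.Agent.RQM.C49

/-! Parts: Lib_helper4.LO.Lift, Lib_helper4.LO.Main -/

namespace Pool.Agent.LibH4
end Pool.Agent.LibH4
namespace Pool.Agent.Lib_helper5
end Pool.Agent.Lib_helper5
namespace Pool.Agent.Lib_helper5.LK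
end Pool.Agent.Lib_helper5.LK

section

/-!
Odd periods of any length: parameters of period seven with the same relations.
-/

namespace Pool.Agent.LibH4.LO

open Finset Function Pool.Agent.Lib_helper5 Pool.Agent.Lib_helper5.LK Pool.Agent.LibH4
  Pool.Agent.LibH4.KF Pool.Agent.LibH4.S7

section

variable {q N : ℕ} [NeZero q] {χ : ZMod q → ZMod N}

/-- change of the parameters `B, m` in the same class -/
lemma RC.V_congr {M : ℕ} {D : ℤ} {l : ℕ} (h : RC M D l χ) {B m B' m' : ℤ}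
    (hD : (M : ℤ) ∣ B ^ 2 + 4 * m - D) (hB : (M : ℤ) ∣ B - B') (hm : (M : ℤ) ∣ m - m')
    (L : List ℤ) : V χ B m L = V χ B' m' L := by
  have h1 : Cg M ((m, B, 1) : ℤ × ℤ × ℤ) (m', B', 1) := ⟨hm, hB, by simp⟩
  have h2 : Cg M ((1, B, m) : ℤ × ℤ × ℤ) (1, B', m') := ⟨by simp, hB, hm⟩
  have h3 : (M : ℤ) ∣ dis (m, B, 1) - D := by
    have e : dis (m, B, 1) = B ^ 2 + 4 * m := by unfold dis; ring
    rw [e]
    exact hD
  unfold V
  rw [← YS_congr h.qM h1, ← W_congr h.qM L h2]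
  linear_combination (-1 : ZMod N) * h.coef h3 hB

/-- the half sum of three quotients -/
lemma rel_of_V {x y z B m : ℤ} (hc : Cl x y z B m) (h : V χ B m [x, y, z] = 0) :
    LK.Rel N χ (J7 x y z B m) := by
  have e1 : st x ((1, B, m) : ℤ × ℤ × ℤ) = (m, r2 x B m, y2 x B m) := by
    unfold st r2 y2
    simp only
    congr 2
    · ring
    · ring
  have e2 : st y ((m, r2 x B m, y2 x B m) : ℤ × ℤ × ℤ) = (y2 x B m, r3 x y B m, y3 x y B m) := by
    unfold st r3 y3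
    simp only
    congr 2
    · ring
    · ring
  have e3 : st z ((y2 x B m, r3 x y B m, y3 x y B m) : ℤ × ℤ × ℤ) =
      (y3 x y B m, r4 x y z B m, y3 x y B m) := by
    unfold Cl at hc
    unfold st r4
    simp only
    congr 2
    · ring
    · linear_combination -hc
  have e : V χ B m [x, y, z] = -(B : ZMod N) * YS χ (m, B, 1) +
      (6 * XS χ (1, B, m) - 2 * x * YS χ (1, B, m) +
      (6 * XS χ (m, r2 x B m, y2 x B m) - 2 * y * YS χ (m, r2 x B m, y2 x B m) +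
      (6 * XS χ (y2 x B m, r3 x y B m, y3 x y B m) -
        2 * z * YS χ (y2 x B m, r3 x y B m, y3 x y B m) +
      3 * XS χ (y3 x y B m, r4 x y z B m, y3 x y B m)))) := by
    unfold V W
    rw [e1]
    unfold W
    rw [e2]
    unfold W
    rw [e3]
    rfl
  rw [e] at h
  unfold XS YS at h
  unfold LK.Rel J7
  simp only [List.map_cons, List.map_nil, List.sum_cons, List.sum_nil, add_zero]
  simp only at h
  push_cast at h ⊢
  linear_combination h

end

/-- parameters in the same class for which the closing condition holds exactly -/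
lemma exists_exact (M : ℕ) (x y z B m : ℤ) (h : Clo M (en (1, B, m) [x, y, z])) :
    ∃ B' m' : ℤ, Cl x y z B' m' ∧ (M : ℤ) ∣ B - B' ∧ (M : ℤ) ∣ m - m' := by
  have e1 : en ((1, B, m) : ℤ × ℤ × ℤ) [x, y, z] =
      (y3 x y B m, 2 * z * y3 x y B m - r3 x y B m, y2 x B m + r3 x y B m * z -
        y3 x y B m * z ^ 2) := by
    have e1 : st x ((1, B, m) : ℤ × ℤ × ℤ) = (m, r2 x B m, y2 x B m) := by
      unfold st r2 y2
      simp only
      congr 2
      · ring
      · ring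
    have e2 : st y ((m, r2 x B m, y2 x B m) : ℤ × ℤ × ℤ) =
        (y2 x B m, r3 x y B m, y3 x y B m) := by
      unfold st r3 y3
      simp only
      congr 2
      · ring
      · ring
    change st z (st y (st x (1, B, m))) = _
    rw [e1, e2]
    rfl
  rw [e1] at h
  obtain ⟨s, hs⟩ := h
  simp only at hs
  set u0 : ℤ := 1 + x * y
  set u1 : ℤ := x * y * z + x + z
  set w0 : ℤ := y
  set w1 : ℤ := y * z + 1
  refine ⟨B - M * s * (u1 * w1 + u0 * w0), m - M * s * (w1 ^ 2 + w0 ^ 2), ?_,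
    ⟨s * (u1 * w1 + u0 * w0), by ring⟩, ⟨s * (w1 ^ 2 + w0 ^ 2), by ring⟩⟩
  unfold Cl y3 r3 y2 r2
  unfold y3 r3 y2 r2 at hs
  simp only [u0, u1, w0, w1]
  linear_combination hs

theorem exists_lift (M : ℕ) (B m : ℤ) {L L' : List ℤ}
    (hL : Relation.ReflTransGen (Move M) L L') (hlen : L'.length ≤ 3)
    (hc : Clo M (en (1, B, m) L)) :
    ∃ (x y z B' m' : ℤ), Cl x y z B' m' ∧ (M : ℤ) ∣ B' ^ 2 + 4 * m' - (B ^ 2 + 4 * m) ∧
      ((2 : ℤ) ∣ M → (2 : ℤ) ∣ B' - B) ∧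
      ∀ (q N : ℕ) [NeZero q] (l : ℕ) (χ : ZMod q → ZMod N), RC M (B ^ 2 + 4 * m) l χ →
        V χ B m L = 0 → LK.Rel N χ (J7 x y z B' m') := by
  obtain ⟨x, y, z, B1, m1, h1, h2, h3, h4⟩ := exists_three M B m hL hlen hc
  obtain ⟨B', m', h5, h6, h7⟩ := exists_exact M x y z B1 m1 h2
  refine ⟨x, y, z, B', m', h5, ?_, ?_, ?_⟩
  · obtain ⟨e, he⟩ := h6
    obtain ⟨g, hg⟩ := h7
    rw [← h1]
    refine ⟨-(e * (B1 + B')) - 4 * g, ?_⟩
    linear_combination (-(B1 + B')) * he - 4 * hg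
  · intro hM
    have : (2 : ℤ) ∣ B1 - B' := hM.trans h6
    have e : B' - B = (B1 - B) - (B1 - B') := by ring
    rw [e]
    exact dvd_sub h3 this
  · intro q N _ l χ hχ hV
    apply rel_of_V h5
    rw [← hχ.V_congr (B := B1) (m := m1) (by rw [h1, sub_self]; exact dvd_zero _) h6 h7,
      ← h4 q N l χ hχ]
    exact hV

end Pool.Agent.LibH4.LO


end

section

/-!
Odd periods of any length: reduction to the system of period seven.
-/

namespace Pool.Agent.LibH4.LO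

open scoped NumberField
open Function Pool.Agent.Lib_helper5 Pool.Agent.Lib_helper5.LK Pool.Agent.LibH4
  Pool.Agent.LibH4.CFO Pool.Agent.LibH4.S7 Pool.Agent.LibH4.Ker Pool.Agent.LibH4.T6

/-- a prime without roots is inert -/
lemma in_of_root {B m : ℤ} {d : ℕ} (hd : (d : ℤ) = B ^ 2 + 4 * m) {p : ℕ}
    (hp : p.Prime) (hp2 : p ≠ 2) (h : ∀ X : ℤ, ¬ (p : ℤ) ∣ X ^ 2 + B * X - m) :
    jacobiSym d p = -1 := by
  by_contra hj
  obtain ⟨x, hx⟩ := exists_root_of_ne hd hp hp2 hj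
  exact h x hx

lemma In_of_jac {d : ℕ} {D : ℤ} {p : ℕ} (hp : p.Prime) (hD : (p : ℤ) ∣ D - d)
    (h1 : jacobiSym d p = -1) : K5.In p D := by
  have : Fact p.Prime := ⟨hp⟩
  have h2 : ((jacobiSym d p : ℤ) : ZMod p) = (d : ZMod p) ^ (p / 2) := by
    rw [← jacobiSym.legendreSym.to_jacobiSym, legendreSym.eq_pow]
    push_cast
    rfl
  have h3 : ((rs p D : ℕ) : ZMod p) = (d : ZMod p) := by
    rw [rs_cast]
    have h4 : ((D - d : ℤ) : ZMod p) = 0 := by
      rw [ZMod.intCast_zmod_eq_zero_iff_dvd]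
      exact hD
    push_cast at h4
    linear_combination h4
  have h4 : (((rs p D) ^ (p / 2) : ℕ) : ZMod p) = ((p - 1 : ℕ) : ZMod p) := by
    rw [Nat.cast_pow, h3, ← h2, h1, K5.cast_pred]
    push_cast
    rfl
  have h5 := (ZMod.natCast_eq_natCast_iff' _ _ p).1 h4
  have hp1 := hp.two_le
  rw [Nat.mod_eq_of_lt (show p - 1 < p by omega)] at h5
  have h6 : Nat.mod (Nat.pow (rs p D) (p / 2)) p = p - 1 := h5
  unfold K5.In
  rw [h6]
  exact Nat.beq_refl _

lemma prime_QQ {p : ℕ} (hp : p.Prime) (h : p ∣ QQ) : p ≤ 19 ∧ p ∣ M0 := by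
  have h1 : QQ ∣ M0 ^ 2 := by decide
  have h2 : p ∣ M0 := hp.dvd_of_dvd_pow (h.trans h1)
  refine ⟨?_, h2⟩
  have h3 : M0 = 2 ^ 3 * 3 * 5 * 7 * 11 * 13 * 17 * 19 := by decide
  rw [h3] at h2
  have hpp : ∀ q : ℕ, q.Prime → p ∣ q → p = q := fun q hq h => (Nat.prime_dvd_prime_iff_eq hp hq).1 h
  rcases hp.dvd_mul.1 h2 with h2 | h2
  rcases hp.dvd_mul.1 h2 with h2 | h2
  rcases hp.dvd_mul.1 h2 with h2 | h2
  rcases hp.dvd_mul.1 h2 with h2 | h2
  rcases hp.dvd_mul.1 h2 with h2 | h2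
  rcases hp.dvd_mul.1 h2 with h2 | h2
  rcases hp.dvd_mul.1 h2 with h2 | h2
  · have := hpp 2 (by norm_num) (hp.dvd_of_dvd_pow h2); omega
  · have := hpp 3 (by norm_num) h2; omega
  · have := hpp 5 (by norm_num) h2; omega
  · have := hpp 7 (by norm_num) h2; omega
  · have := hpp 11 (by norm_num) h2; omega
  · have := hpp 13 (by norm_num) h2; omega
  · have := hpp 17 (by norm_num) h2; omega
  · have := hpp 19 (by norm_num) h2; omega

variable {m B : ℤ} {s : ℝ} {x : ℕ → ℝ} {c : ℕ → ℕ}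

/-- **reduction to the system of period seven** -/
theorem exists_sys (h : Data m B s x c) (hm : 0 < m) {I : ℕ}
    (hL : minimalPeriod gsh (x 1) = 2 * I + 1)
    [IsDomain (QuadraticAlgebra ℤ m B)] [UniqueFactorizationMonoid (QuadraticAlgebra ℤ m B)]
    (hin : ∀ p : ℕ, p.Prime → p ≤ 19 → ∀ X : ℤ, ¬ (p : ℤ) ∣ X ^ 2 + B * X - m)
    {w : List ℤ} (hw : Relation.ReflTransGen (Move M0) (wd c 1 I) w) (hlen : w.length ≤ 3) :
    ∃ a b c' B' m' : ℤ, Sys QQ a b c' B' m' := by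
  have r0 := hin 2 Nat.prime_two (by norm_num) 0
  have r1 := hin 2 Nat.prime_two (by norm_num) 1
  push_cast at r0 r1
  have hm2 : m % 2 = 1 := by omega
  have hB2 : B % 2 = 1 := by omega
  obtain ⟨d, hd⟩ : ∃ d : ℕ, (d : ℤ) = B ^ 2 + 4 * m := by
    refine ⟨(B ^ 2 + 4 * m).toNat, Int.toNat_of_nonneg ?_⟩
    have : (0 : ℤ) ≤ B ^ 2 := sq_nonneg _
    omega
  have hdd : S7.dd B m = (d : ℤ) := by unfold S7.dd; rw [hd]; ring
  have h8 : d % 8 = 5 := by
    have h1 := dd_mod8 hB2 hm2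
    rw [hdd] at h1
    exact_mod_cast h1
  -- closing condition
  have hclo : Clo M0 (en (1, B, m) (wd c 1 I)) := by
    have e1 : ((1, B, m) : ℤ × ℤ × ℤ) = qst m B c 1 := by
      rw [qst_eta, QR_one h, QS_one h]; rfl
    rw [e1, en_wd]
    obtain ⟨p1, -, -, -⟩ := palin h (per_of h hL) I (1 + I) (by ring)
    have e2 : (qst m B c (1 + I)).1 = QS m B c I := by
      rw [add_comm]; rfl
    have e3 : (qst m B c (1 + I)).2.2 = QS m B c I := p1
    unfold Clo
    rw [e2, e3, sub_self]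
    exact dvd_zero _
  obtain ⟨a, b, c', B', m', g1, g2, g3, g4⟩ := exists_lift M0 B m hw hlen hclo
  have hB' : B' % 2 = 1 := by
    have := g3 (by decide)
    omega
  have hD8 : (8 : ℤ) ∣ B' ^ 2 + 4 * m' - (B ^ 2 + 4 * m) :=
    (by decide : (8 : ℤ) ∣ ((M0 : ℕ) : ℤ)).trans g2
  have hm' : m' % 2 = 1 := by
    refine (odd_mul (R := B') (x := m') (y := 1) (D := B' ^ 2 + 4 * m' * 1) rfl ?_).2.1
    rw [mul_one]
    rw [← hd] at hD8
    omega
  have hdd' : (M0 : ℤ) ∣ S7.dd B' m' - d := by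
    have e : S7.dd B' m' - d = B' ^ 2 + 4 * m' - (B ^ 2 + 4 * m) := by
      unfold S7.dd; rw [hd]; ring
    rw [e]
    exact g2
  refine ⟨a, b, c', B', m', hB', hm', g1, ?_, ?_⟩
  · intro p hp hp2 hpQ
    obtain ⟨k1, k2⟩ := prime_QQ hp hpQ
    exact In_of_jac hp ((Int.natCast_dvd_natCast.2 k2).trans hdd')
      (in_of_root hd hp hp2 (hin p hp k1))
  · -- the relations
    have cop : ∀ p : ℕ, p.Prime → p ∣ QQ → ¬ p ∣ d := by
      intro p hp hpQ hdvd
      rcases eq_or_ne p 2 with rfl | hp2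
      · omega
      have h1 := in_of_root hd hp hp2 (hin p hp (prime_QQ hp hpQ).1)
      have h2 : jacobiSym (d : ℤ) p ≠ 0 := by rw [h1]; norm_num
      apply h2
      have : Fact p.Prime := ⟨hp⟩
      rw [← jacobiSym.legendreSym.to_jacobiSym, legendreSym.eq_zero_iff]
      have : ((d : ℕ) : ZMod p) = 0 := by rw [ZMod.natCast_eq_zero_iff]; exact hdvd
      exact_mod_cast this
    have hcopP : Nat.Coprime d (QQ ^ 6) := by
      apply Nat.Coprime.pow_right
      by_contra hc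
      obtain ⟨p, hp, h1, h2⟩ := Nat.Prime.not_coprime_iff_dvd.1 hc
      exact cop p hp h2 h1
    intro n1 n2 n3 N l T1 T2 T3 _ _ _ _ _ h1 h2 h3 h4 hN2 h5 h6 h7 hY
    have hN : 0 < N := by omega
    obtain ⟨ho, hs⟩ := K4.relOk_spec hN h1 h2 h3 h4
    have hdq : Nat.Coprime (n1 * n2 * n3) d :=
      (Nat.Coprime.coprime_dvd_right ((Dvd.intro _ rfl).trans h5) hcopP).symm
    have hdN : Nat.Coprime d N :=
      Nat.Coprime.coprime_dvd_right ((Dvd.intro_left _ rfl).trans h5) hcopP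
    have hc := tri_char (n1 := n1) (n2 := n2) (n3 := n3) (tabCk_char h2) (tabCk_char h3)
      (tabCk_char h4)
    -- the character vanishes at zero
    have h0 : tri (tabc n1 N T1) (tabc n2 N T2) (tabc n3 N T3) 0 = 0 := by
      have e1 := ho 0
      rw [neg_zero] at e1
      have h2u : IsUnit (2 : ZMod N) := by
        have : Nat.Coprime 2 N := Nat.coprime_two_left.2 (Nat.odd_iff.2 hN2)
        have h3 := (ZMod.isUnit_iff_coprime 2 N).2 this
        exact_mod_cast h3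
      have e2 : (2 : ZMod N) * tri (tabc n1 N T1) (tabc n2 N T2) (tabc n3 N T3) 0 = 0 := by
        linear_combination e1
      exact (h2u.mul_right_eq_zero).1 e2
    refine g4 (n1 * n2 * n3) N l _ ⟨ho, h0, h6, h7, ?_⟩
      (V_eq_zero h hm hm2 hB2 hL hd h8 hdq hN2 hdN _ ho hc.mul hs)
    intro P R S hPRS
    have e : R ^ 2 - 4 * P * (-S) - S7.dd B' m' =
        (R ^ 2 + 4 * P * S - (B ^ 2 + 4 * m)) - (S7.dd B' m' - d) := by
      rw [hd]; ring
    have hM : (M0 : ℤ) ∣ R ^ 2 - 4 * P * (-S) - S7.dd B' m' := by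
      rw [e]
      exact dvd_sub hPRS hdd'
    exact hY P R (-S) ((Int.natCast_dvd_natCast.2 h6).trans hM)
      ((by decide : (8 : ℤ) ∣ ((M0 : ℕ) : ℤ)).trans hM)

/-- complete quotients -/
lemma x_eq_iter (h : Data m B s x c) {d : ℕ} (hx1 : x 1 = gsh (omg d)) (i : ℕ) :
    x (i + 1) = gsh^[i + 1] (omg d) := by
  rw [add_comm i 1, ← iter h, hx1, ← iterate_succ_apply, Nat.succ_eq_add_one, add_comm i 1]

/-- inert primes have no roots -/
lemma no_root_of_inert {d : ℕ} {m B : ℤ} (hd : (d : ℤ) = B ^ 2 + 4 * m) (hB : B % 2 = 1)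
    (h8 : d % 8 = 5) (h : ∀ p ∈ ({3, 5, 7, 11, 13, 17, 19} : Finset ℕ), ¬ IsSquare ((d : ℕ) : ZMod p))
    {p : ℕ} (hp : p.Prime) (hp19 : p ≤ 19) (X : ℤ) : ¬ (p : ℤ) ∣ X ^ 2 + B * X - m := by
  intro hX
  by_cases hp2 : p = 2
  · subst hp2
    have h1 := dd_mod8 (m := m) (B := B) hB
    have hm : m % 2 = 1 := by
      obtain ⟨j, hj⟩ : ∃ j, B = 2 * j + 1 := ⟨B / 2, by omega⟩
      obtain ⟨k, hk⟩ : ∃ k : ℤ, j * (j + 1) = 2 * k := by
        obtain ⟨k, hk⟩ := Int.even_mul_succ_self j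
        exact ⟨k, by omega⟩
      have e : (d : ℤ) = 8 * k + 1 + 4 * m := by rw [hd, hj]; linear_combination 4 * hk
      omega
    obtain ⟨j, hj⟩ : ∃ j, B = 2 * j + 1 := ⟨B / 2, by omega⟩
    have h2 : X ^ 2 + B * X = X * (X + 1) + 2 * (j * X) := by rw [hj]; ring
    obtain ⟨k, hk⟩ := Int.even_mul_succ_self X
    rw [h2, hk] at hX
    push_cast at hX
    omega
  · have hmem : p ∈ ({3, 5, 7, 11, 13, 17, 19} : Finset ℕ) := by
      interval_cases p <;> first | decide | (exfalso; revert hp; norm_num; done) | (exfalso; exact hp2 rfl)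
    apply h p hmem
    refine ⟨((2 * X + B : ℤ) : ZMod p), ?_⟩
    have h3 : ((X ^ 2 + B * X - m : ℤ) : ZMod p) = 0 := by
      rw [ZMod.intCast_zmod_eq_zero_iff_dvd]; exact hX
    have h4 : ((d : ℕ) : ZMod p) = ((B ^ 2 + 4 * m : ℤ) : ZMod p) := by
      rw [← hd]; push_cast; rfl
    rw [h4]
    push_cast at h3 ⊢
    linear_combination (-4 : ZMod p) * h3

/-- **no unique factorisation for odd periods whose word reduces to three letters** -/
theorem long (elim : ∀ a b c B m : ℤ, Sys QQ a b c B m → False) (d : ℕ) (h1 : 1 < d)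
    (hsq : Squarefree d) {k : ℕ} (hper : minimalPeriod gsh (gsh (omg d)) = 2 * k + 1)
    {w : List ℤ}
    (hw : Relation.ReflTransGen (Move M0)
      ((List.range k).map fun i => ⌊gsh^[i + 1] (omg d)⌋) w) (hlen : w.length ≤ 3)
    (hsmall : (d % 8 = 5 ∧
        ∀ p ∈ ({3, 5, 7, 11, 13, 17, 19} : Finset ℕ), ¬ IsSquare ((d : ℕ) : ZMod p)) ∨
      ∃ r : ℕ, 4 * 19 ^ (2 * r + 2) < d ∧
        ((Finset.Icc 1 k).filter fun i => ⌊gsh^[i] (omg d)⌋ < 2 * 19 ^ (r + 1)).card ≤ r) :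
    ¬ UniqueFactorizationMonoid (𝓞 (KQ d)) := by
  intro hU
  obtain ⟨m, B, s, x, c, h, hx1, hm, hB, hd⟩ := exists_data d h1 hsq
  rw [← hx1] at hper
  have hci : ∀ i, ⌊gsh^[i + 1] (omg d)⌋ = (c (i + 1) : ℤ) := by
    intro i
    rw [← x_eq_iter h hx1, ← h.fl]
  have hwd : ((List.range k).map fun i => ⌊gsh^[i + 1] (omg d)⌋) = wd c 1 k := by
    rw [wd_eq]
    apply List.map_congr_left
    intro i _
    rw [hci, add_comm]
  rw [hwd] at hw
  obtain ⟨e⟩ : Nonempty (QuadraticAlgebra ℤ m B ≃+* 𝓞 (KQ d)) := by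
    rcases hd with ⟨h4, hd, hB2⟩ | ⟨h4, hd, hB2⟩
    · obtain ⟨e⟩ := exists_equiv_QI hd hB2
      exact ⟨e.symm.trans (eqvO hsq h1)⟩
    · obtain ⟨e⟩ := exists_equiv_QI_even hd h4 hB2
      exact ⟨e.symm.trans (eqvO hsq h1)⟩
  have i1 : IsDomain (QuadraticAlgebra ℤ m B) := e.toMulEquiv.isDomain
  have i2 : UniqueFactorizationMonoid (QuadraticAlgebra ℤ m B) :=
    e.symm.toMulEquiv.uniqueFactorizationMonoid hU
  have hin : ∀ p : ℕ, p.Prime → p ≤ 19 → ∀ X : ℤ, ¬ (p : ℤ) ∣ X ^ 2 + B * X - m := by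
    intro p hp hp19 X
    rcases hsmall with ⟨h8, hns⟩ | ⟨r, hr1, hr2⟩
    · rcases hd with ⟨h4, hd, hB2⟩ | ⟨h4, hd, hB2⟩
      · exact no_root_of_inert hd hB2 h8 hns hp hp19 X
      · omega
    · refine inert h hm hB hper (r := r) ?_ ?_ hp hp19 X
      · have h2 : (4 * 19 ^ (2 * r + 2) : ℤ) < d := by exact_mod_cast hr1
        have h3 : (0 : ℤ) ≤ d := by positivity
        rcases hd with ⟨h4, hd, hB2⟩ | ⟨h4, hd, hB2⟩
        · rw [← hd]; exact h2
        · rw [← hd]; linarith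
      · have e : (Finset.Ico 1 (1 + k)).filter (fun i => c i < 2 * 19 ^ (r + 1)) =
            (Finset.Icc 1 k).filter fun i => ⌊gsh^[i] (omg d)⌋ < 2 * 19 ^ (r + 1) := by
          ext i
          rw [Finset.mem_filter, Finset.mem_filter, Finset.mem_Ico, Finset.mem_Icc]
          constructor
          · rintro ⟨⟨i1, i2⟩, i3⟩
            refine ⟨⟨i1, by omega⟩, ?_⟩
            obtain ⟨j, rfl⟩ : ∃ j, i = j + 1 := ⟨i - 1, by omega⟩
            rw [hci]
            exact_mod_cast i3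
          · rintro ⟨⟨i1, i2⟩, i3⟩
            refine ⟨⟨i1, by omega⟩, ?_⟩
            obtain ⟨j, rfl⟩ : ∃ j, i = j + 1 := ⟨i - 1, by omega⟩
            rw [hci] at i3
            exact_mod_cast i3
        rw [e]
        exact hr2
  obtain ⟨a, b, c', B', m', hS⟩ := exists_sys h hm hper hin hw hlen
  exact elim a b c' B' m' hS

end Pool.Agent.LibH4.LO


end
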