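import Mathlib
import Pool.Agent.RQM.C12
import Pool.Agent.RQM.C40
import Pool.Agent.RQM.C41
import Pool.Agent.RQM.C44
import Pool.Agent.RQM.C48
import Pool.Agent.RQM.C51

/-! Parts: Lib_helper4.CW.Cps, Lib_helper4.CW.Wld, Lib_helper4.CW.RelW -/

namespace Pool.Agent.LibH4.Ker
end Pool.Agent.LibH4.Ker
namespace Pool.Agent.Lib_helper5
end Pool.Agent.Lib_helper5
namespace Pool.Agent.Lib_helper5.LK
end Pool.Agent.Lib_helper5.LK

section

/-!
Constant words: the components.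
-/

namespace Pool.Agent.LibH4.CW

open Pool.Agent.Lib_helper5 Pool.Agent.Lib_helper5.LK Pool.Agent.LibH4.Ker
  Pool.Agent.Lib_helper5.TB Pool.Agent.LibH4.S7

/-- component -/
def c1 : Cmp := ⟨nat_lit 1, nat_lit 0, PT1, F1⟩
/-- component -/
def c3 : Cmp := ⟨nat_lit 3, nat_lit 1, PT3, F3⟩
/-- component -/
def c4 : Cmp := ⟨nat_lit 4, nat_lit 1, PT4, F4⟩
/-- component -/
def c5 : Cmp := ⟨nat_lit 5, nat_lit 3, PT5, F5⟩
/-- component -/
def c7 : Cmp := ⟨nat_lit 7, nat_lit 5, PT7, F7⟩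
/-- component -/
def c8 : Cmp := ⟨nat_lit 8, nat_lit 1, PT8, F8⟩
/-- component -/
def c11 : Cmp := ⟨nat_lit 11, nat_lit 9, PT11, F11⟩
/-- component -/
def c13 : Cmp := ⟨nat_lit 13, nat_lit 11, PT13, F13⟩
/-- component -/
def c17 : Cmp := ⟨nat_lit 17, nat_lit 15, PT17, F17⟩
/-- component -/
def c19 : Cmp := ⟨nat_lit 19, nat_lit 17, PT19, F19⟩

/-- the component of a modulus -/
def cof (n : ℕ) : Cmp :=
  if n = 1 then c1 else if n = 3 then c3 else if n = 4 then c4 else if n = 5 then c5 else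
  if n = 7 then c7 else if n = 8 then c8 else if n = 11 then c11 else if n = 13 then c13 else
  if n = 17 then c17 else c19

/-- the conditions on a discriminant -/
structure DOK (D : ℤ) : Prop where
  D8 : D % 8 = 5
  inr : ∀ p : ℕ, p.Prime → p ≠ 2 → p ∣ QQ → K5.In p D

/-- the forms of the discriminant have positions -/
def CP (n ex PT : ℕ) (F : List (ℕ × ℕ)) : Prop :=
  ∀ D : ℤ, DOK D → ∀ P R S : ℤ, R ^ 2 + 4 * P * S = D →
    rs n P * iv n ex (rs n P) % n = 1 % n ∧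
    F[pos n ex PT (rs n P) (rs n R) (rs n (-S))]? =
      some (rs n R * iv n ex (rs n P) % n, rs n (-S) * iv n ex (rs n P) % n)

/-- a component -/
structure CmpOK (c : Cmp) : Prop extends CmpB c where
  eq : c = cof c.n
  cp : CP c.n c.ex c.PT c.F

lemma cp_prime {p ex PT : ℕ} {F : List (ℕ × ℕ)} [NeZero p] (C : CompOK p ex PT F (adP p))
    (hp : p.Prime) (hp2 : p ≠ 2) (hQ : p ∣ QQ) : CP p ex PT F := by
  intro D hD P R S hdis
  apply C.ok _ _ _ (rs_lt _) (rs_lt _) (rs_lt _)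
  have h1 := hD.inr p hp hp2 hQ
  unfold K5.In at h1
  have e : (rs p R * rs p R + 4 * rs p P * (p - rs p (-S))) % p = rs p D := by
    apply rs_of
    rw [← hdis, Nat.cast_add, Nat.cast_mul, Nat.cast_mul, Nat.cast_mul,
      Nat.cast_sub (rs_lt (-S)).le, rs_cast, rs_cast, rs_cast, ZMod.natCast_self]
    push_cast
    ring
  have e' : adP p (rs p P) (rs p R) (rs p (-S)) =
    Nat.beq (Nat.mod (Nat.pow ((rs p R * rs p R + 4 * rs p P * (p - rs p (-S))) % p) (p / 2)) p)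
      (p - 1) := rfl
  rw [e', e]
  exact h1

lemma cp_two {n ex PT : ℕ} {F : List (ℕ × ℕ)} [NeZero n] (C : CompOK n ex PT F adO)
    (hn : 2 ∣ n) : CP n ex PT F := by
  intro D hD P R S hdis
  apply C.ok _ _ _ (rs_lt _) (rs_lt _) (rs_lt _)
  have key : ∀ x : ℤ, x % 2 = 1 → (rs n x) % 2 = 1 := by
    intro x hx
    have h1 : ((rs n x : ℕ) : ℤ) = x % n := by
      unfold rs
      rw [ZMod.val_intCast]
    obtain ⟨k, hk⟩ := hn
    have h2 : x % (n : ℤ) % 2 = x % 2 :=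
      Int.emod_emod_of_dvd x (by rw [hk]; push_cast; exact Dvd.intro _ rfl)
    omega
  obtain ⟨hR, hP, hS⟩ := odd_mul (R := R) (x := P) (y := S) hdis hD.D8
  have h1 := key P hP
  have h2 := key R hR
  have h3 := key (-S) (by omega)
  have h4 : rs n P * (rs n R * rs n (-S)) % 2 = 1 := by
    rw [Nat.mul_mod, Nat.mul_mod (rs n R), h1, h2, h3]
  unfold adO
  have h5 : Nat.mod (Nat.mul (rs n P) (Nat.mul (rs n R) (rs n (-S)))) 2 = 1 := h4
  rw [h5]
  rfl

lemma cp_one {n ex PT : ℕ} {F : List (ℕ × ℕ)} [NeZero n] (C : CompOK n ex PT F adT) :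
    CP n ex PT F := fun _ _ _ _ _ _ => C.ok _ _ _ (rs_lt _) (rs_lt _) (rs_lt _) rfl

instance : NeZero (nat_lit 1 : ℕ) := ⟨by decide⟩

/-- boolean check of the basic properties -/
def cmpCk (n ex : ℕ) (F : List (ℕ × ℕ)) : Bool :=
  decide (0 < n) && decide (n ≤ 19) && F.all (fun x => decide (x.1 < n) && decide (x.2 < n)) &&
    decide (F.length ≤ 255) &&
    (List.range n).all fun P => !(decide (Nat.gcd P n = 1)) || decide (P * iv n ex P % n = 1 % n)

lemma cmpCk_spec {c : Cmp} (h : cmpCk c.n c.ex c.F = true) : CmpB c := by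
  unfold cmpCk at h
  simp only [Bool.and_eq_true, decide_eq_true_eq, List.all_eq_true, List.mem_range,
    Bool.or_eq_true, Bool.not_eq_true', decide_eq_false_iff_not] at h
  obtain ⟨⟨⟨⟨h1, h2⟩, h3⟩, h4⟩, h5⟩ := h
  exact ⟨h1, h2, h3, h4, fun P hP hc => by
    rcases h5 P hP with h | h
    · exact absurd hc h
    · exact h⟩

lemma cp1 : CP 1 0 PT1 F1 := cp_one comp1
lemma ok1 : CmpOK c1 where
  toCmpB := cmpCk_spec (by decide +kernel)
  eq := rfl
  cp := cp1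
lemma cp3 : CP 3 1 PT3 F3 := cp_prime comp3 (by norm_num) (by norm_num) (by decide)
lemma ok3 : CmpOK c3 where
  toCmpB := cmpCk_spec (by decide +kernel)
  eq := rfl
  cp := cp3
lemma cp4 : CP 4 1 PT4 F4 := cp_two comp4 (by norm_num)
lemma ok4 : CmpOK c4 where
  toCmpB := cmpCk_spec (by decide +kernel)
  eq := rfl
  cp := cp4
lemma cp5 : CP 5 3 PT5 F5 := cp_prime comp5 (by norm_num) (by norm_num) (by decide)
lemma ok5 : CmpOK c5 where
  toCmpB := cmpCk_spec (by decide +kernel)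
  eq := rfl
  cp := cp5
lemma cp7 : CP 7 5 PT7 F7 := cp_prime comp7 (by norm_num) (by norm_num) (by decide)
lemma ok7 : CmpOK c7 where
  toCmpB := cmpCk_spec (by decide +kernel)
  eq := rfl
  cp := cp7
lemma cp8 : CP 8 1 PT8 F8 := cp_two comp8 (by norm_num)
lemma ok8 : CmpOK c8 where
  toCmpB := cmpCk_spec (by decide +kernel)
  eq := rfl
  cp := cp8
lemma cp11 : CP 11 9 PT11 F11 := cp_prime comp11 (by norm_num) (by norm_num) (by decide)
lemma ok11 : CmpOK c11 where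
  toCmpB := cmpCk_spec (by decide +kernel)
  eq := rfl
  cp := cp11
lemma cp13 : CP 13 11 PT13 F13 := cp_prime comp13 (by norm_num) (by norm_num) (by decide)
lemma ok13 : CmpOK c13 where
  toCmpB := cmpCk_spec (by decide +kernel)
  eq := rfl
  cp := cp13
lemma cp17 : CP 17 15 PT17 F17 := cp_prime comp17 (by norm_num) (by norm_num) (by decide)
lemma ok17 : CmpOK c17 where
  toCmpB := cmpCk_spec (by decide +kernel)
  eq := rfl
  cp := cp17
lemma cp19 : CP 19 17 PT19 F19 := cp_prime comp19 (by norm_num) (by norm_num) (by decide)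
lemma ok19 : CmpOK c19 where
  toCmpB := cmpCk_spec (by decide +kernel)
  eq := rfl
  cp := cp19

/-- the components -/
def CL : List Cmp := [c1, c3, c4, c5, c7, c8, c11, c13, c17, c19]

lemma CL_ok : ∀ c ∈ CL, CmpOK c := by
  intro c hc
  unfold CL at hc
  simp only [List.mem_cons, List.not_mem_nil, or_false] at hc
  rcases hc with rfl | rfl | rfl | rfl | rfl | rfl | rfl | rfl | rfl | rfl
  · exact ok1
  · exact ok3
  · exact ok4
  · exact ok5
  · exact ok7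
  · exact ok8
  · exact ok11
  · exact ok13
  · exact ok17
  · exact ok19

end Pool.Agent.LibH4.CW


end

section

/-!
Constant words: the conditions on the orbit, and the first states.
-/

namespace Pool.Agent.LibH4.CW

open Finset Pool.Agent.Lib_helper5 Pool.Agent.Lib_helper5.LK Pool.Agent.LibH4.Ker
  Pool.Agent.LibH4.KF Pool.Agent.LibH4.T6 Pool.Agent.Lib_helper5.TB Pool.Agent.LibH4.S7

/-- first multiplicity of the first state -/
def kap (par : Bool) : ℕ := cond par 0 3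
/-- second multiplicity of the first state -/
def alp (par : Bool) (a : ℕ) : ℤ := cond par (-(a : ℤ)) (-(2 * a : ℤ))

/-- the forms -/
def JW (par : Bool) (a : ℕ) (e : ℕ → ℤ × ℤ × ℤ) (N : ℕ) : List Fm :=
  ⟨(e 0).1, (e 0).2.1, -(e 0).2.2, kap par, alp par a⟩ ::
    (((List.range (N - 1)).map fun j =>
      ⟨(e (j + 1)).1, (e (j + 1)).2.1, -(e (j + 1)).2.2, 6, -(2 * a : ℤ)⟩) ++
      [⟨(e N).1, (e N).2.1, -(e N).2.2, 6, -(e N).2.1⟩])

/-- the conditions on the orbit -/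
structure World (par : Bool) (a : ℕ) (e : ℕ → ℤ × ℤ × ℤ) (N : ℕ) : Prop where
  N1 : 1 ≤ N
  step : ∀ i, e (i + 1) = LO.st a (e i)
  last : (e N).2.2 = 1
  fst0 : par = false → (e 0).2.2 = (e 0).1
  fst1 : par = true → (e 0).2.1 = a * (e 0).2.2
  dok : DOK (LO.dis (e 0))
  rel : ∀ (n1 n2 n3 M T1 T2 T3 : ℕ) [NeZero n1] [NeZero n2] [NeZero n3] [NeZero (n1 * n2)]
    [NeZero (n1 * n2 * n3)], relOk n1 n2 n3 M T1 T2 T3 = true → tabCk n1 M T1 = true →
    tabCk n2 M T2 = true → tabCk n3 M T3 = true → M % 2 = 1 → (n1 * n2 * n3 * M) ∣ QQ ^ 6 →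
    LK.Rel M (tri (tabc n1 M T1) (tabc n2 M T2) (tabc n3 M T3)) (JW par a e N)
  gen : par = true → (e 0).2.2 % 4 = 3

section

variable {par : Bool} {a N : ℕ} {e : ℕ → ℤ × ℤ × ℤ}

lemma World.dis (W : World par a e N) (i : ℕ) : LO.dis (e i) = LO.dis (e 0) := by
  induction i with
  | zero => rfl
  | succ i ih => rw [W.step, LO.dis_st, ih]

lemma World.disc (W : World par a e N) (i : ℕ) :
    (e i).2.1 ^ 2 + 4 * (e i).1 * (e i).2.2 = LO.dis (e 0) := by
  rw [← W.dis i]; rfl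

/-- the true first state -/
structure TS (par : Bool) (a : ℕ) (e : ℕ → ℤ × ℤ × ℤ) (c : Cmp) (x : ℕ × ℕ) : Prop where
  mem : x ∈ c.F.filter (stc par c.n a)
  h1 : ∀ i, (((e i).1 : ℤ) : ZMod c.n) = (((e 0).1 : ℤ) : ZMod c.n) * ((hs c.n a x i).1 : ℕ)
  h2 : ∀ i, (((e i).2.1 : ℤ) : ZMod c.n) = (((e 0).1 : ℤ) : ZMod c.n) * ((hs c.n a x i).2.1 : ℕ)
  h3 : ∀ i, (((e i).2.2 : ℤ) : ZMod c.n) = (((e 0).1 : ℤ) : ZMod c.n) * ((hs c.n a x i).2.2 : ℕ)

lemma nx_cast {n : ℕ} (hn : 0 < n) (f : ℕ × ℕ × ℕ) (hf : Bd n f) :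
    (((nx n a f).2.1 : ℕ) : ZMod n) = 2 * a * (f.2.2 : ℕ) - (f.2.1 : ℕ) ∧
    (((nx n a f).2.2 : ℕ) : ZMod n) = (f.1 : ℕ) + (f.2.1 : ℕ) * a - (f.2.2 : ℕ) * a ^ 2 := by
  have e1 : (nx n a f).2.1 = (2 * a * f.2.2 + (n - f.2.1)) % n := rfl
  have e2 : (nx n a f).2.2 = (f.1 + f.2.1 * a + (n - f.2.2) * (a * a)) % n := rfl
  rw [e1, e2, ZMod.natCast_mod, ZMod.natCast_mod]
  push_cast [Nat.cast_sub hf.2.1.le, Nat.cast_sub hf.2.2.le]
  rw [ZMod.natCast_self]
  constructor <;> ring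

/-- existence of the true first state -/
theorem World.exists_ts (W : World par a e N) {c : Cmp} (hc : CmpOK c) : ∃ x, TS par a e c x := by
  have hn := hc.pos
  have : NeZero c.n := ⟨hn.ne'⟩
  obtain ⟨u1, u2⟩ := hc.cp _ W.dok _ _ _ (W.disc 0)
  set P := (e 0).1 with hP
  set R := (e 0).2.1 with hR
  set S := (e 0).2.2 with hS
  set i0 := iv c.n c.ex (rs c.n P) with hi0
  set x : ℕ × ℕ := (rs c.n R * i0 % c.n, rs c.n (-S) * i0 % c.n) with hx
  have hu : ((P : ℤ) : ZMod c.n) * (i0 : ℕ) = 1 := isUnit_of u1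
  have hxF : x ∈ c.F := List.mem_of_getElem? u2
  have hb := hc.F x hxF
  have x1 : ((x.1 : ℕ) : ZMod c.n) = (R : ℤ) * (i0 : ℕ) := by
    change ((rs c.n R * i0 % c.n : ℕ) : ZMod c.n) = _
    rw [ZMod.natCast_mod]; push_cast; rw [rs_cast]
  have x2 : ((x.2 : ℕ) : ZMod c.n) = -((S : ℤ) * (i0 : ℕ)) := by
    change ((rs c.n (-S) * i0 % c.n : ℕ) : ZMod c.n) = _
    rw [ZMod.natCast_mod]; push_cast; rw [rs_cast]; push_cast; ring
  clear_value x
  have inj : ∀ u v : ℕ, u < c.n → v < c.n → (u : ZMod c.n) = (v : ZMod c.n) → u = v := by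
    intro u v hu hv huv
    have := (ZMod.natCast_eq_natCast_iff' u v c.n).1 huv
    rwa [Nat.mod_eq_of_lt hu, Nat.mod_eq_of_lt hv] at this
  refine ⟨x, ?_⟩
  have hmem : x ∈ c.F.filter (stc par c.n a) := by
    rw [List.mem_filter]
    refine ⟨hxF, ?_⟩
    cases hpar : par with
    | false =>
      change Nat.beq x.2 ((c.n - 1) % c.n) = true
      have h0 := W.fst0 hpar
      have : x.2 = (c.n - 1) % c.n := by
        apply inj _ _ hb.2 (Nat.mod_lt _ hn)
        rw [x2, ZMod.natCast_mod, Nat.cast_sub hn, ZMod.natCast_self, hS, h0, ← hP, hu]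
        push_cast
        ring
      rw [this]
      exact Nat.beq_refl _
    | true =>
      change Nat.beq x.1 (a * (c.n - x.2) % c.n) = true
      have h0 := W.fst1 hpar
      have : x.1 = a * (c.n - x.2) % c.n := by
        apply inj _ _ hb.1 (Nat.mod_lt _ hn)
        rw [x1, ZMod.natCast_mod, Nat.cast_mul, Nat.cast_sub hb.2.le, ZMod.natCast_self, x2, hR, h0]
        push_cast
        ring
      rw [this]
      exact Nat.beq_refl _
  have all : ∀ i, (((e i).1 : ℤ) : ZMod c.n) = (P : ℤ) * ((hs c.n a x i).1 : ℕ) ∧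
      (((e i).2.1 : ℤ) : ZMod c.n) = (P : ℤ) * ((hs c.n a x i).2.1 : ℕ) ∧
      (((e i).2.2 : ℤ) : ZMod c.n) = (P : ℤ) * ((hs c.n a x i).2.2 : ℕ) := by
    intro i
    induction i with
    | zero =>
      have e1 : (hs c.n a x 0).1 = 1 % c.n := rfl
      have e2 : (hs c.n a x 0).2.1 = x.1 := rfl
      have e3 : (hs c.n a x 0).2.2 = (c.n - x.2) % c.n := rfl
      rw [e1, e2, e3, ZMod.natCast_mod, ZMod.natCast_mod, x1, Nat.cast_sub hb.2.le,
        ZMod.natCast_self, x2]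
      refine ⟨?_, ?_, ?_⟩
      · push_cast; ring
      · change ((R : ℤ) : ZMod c.n) = _
        linear_combination (-((R : ℤ) : ZMod c.n)) * hu
      · change ((S : ℤ) : ZMod c.n) = _
        linear_combination (-((S : ℤ) : ZMod c.n)) * hu
    | succ i ih =>
      obtain ⟨i1, i2, i3⟩ := ih
      obtain ⟨j1, j2⟩ := nx_cast (a := a) hn (hs c.n a x i) (Bd_hs hn hb.1 i)
      rw [W.step i, hs_succ, j1, j2]
      refine ⟨i3, ?_, ?_⟩
      · change ((2 * a * (e i).2.2 - (e i).2.1 : ℤ) : ZMod c.n) = _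
        push_cast
        rw [i2, i3]
        ring
      · change (((e i).1 + (e i).2.1 * a - (e i).2.2 * a ^ 2 : ℤ) : ZMod c.n) = _
        push_cast
        rw [i1, i2, i3]
        ring
  exact ⟨hmem, fun i => (all i).1, fun i => (all i).2.1, fun i => (all i).2.2⟩

/-- properties of the orbit of the true first state -/
theorem TS.props (W : World par a e N) {c : Cmp} (hc : CmpOK c) {x : ℕ × ℕ}
    (T : TS par a e c x) (i : ℕ) :
    pp c a x i < c.F.length ∧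
    pp c a x i = pos c.n c.ex c.PT (rs c.n (e i).1) (rs c.n (e i).2.1) (rs c.n (-(e i).2.2)) := by
  have hn := hc.pos
  have : NeZero c.n := ⟨hn.ne'⟩
  obtain ⟨v1, v2⟩ := hc.cp _ W.dok _ _ _ (W.disc i)
  have hb := hc.F x (List.mem_filter.1 T.mem).1
  have hbd := Bd_hs (a := a) hn hb.1 i
  set P := (hs c.n a x i).1 with hP
  set R := (hs c.n a x i).2.1 with hR
  set S := (hs c.n a x i).2.2 with hS
  have hu := isUnit_of v1
  set j := iv c.n c.ex (rs c.n (e i).1) with hj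
  have t1 := T.h1 i
  have t2 := T.h2 i
  have t3 := T.h3 i
  rw [← hP] at t1
  rw [← hR] at t2
  rw [← hS] at t3
  set lam : ZMod c.n := (((e 0).1 : ℤ) : ZMod c.n) with hlam
  have hPu : ((P : ℕ) : ZMod c.n) * (lam * (j : ℕ)) = 1 := by
    rw [← hu, t1]; ring
  have hcop : Nat.Coprime P c.n := by
    rw [← ZMod.isUnit_iff_coprime]
    exact IsUnit.of_mul_eq_one _ hPu
  have hinv := hc.inv P hbd.1 hcop
  have hinv' : ((P : ℕ) : ZMod c.n) * ((iv c.n c.ex P : ℕ) : ZMod c.n) = 1 := by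
    have h1 := congrArg (fun x : ℕ => (x : ZMod c.n)) hinv
    simp only [ZMod.natCast_mod] at h1
    push_cast at h1
    rw [h1]
  have hlj : ((iv c.n c.ex P : ℕ) : ZMod c.n) = lam * (j : ℕ) := by
    linear_combination ((iv c.n c.ex P : ℕ) : ZMod c.n) * (-hPu) + (lam * (j : ℕ)) * hinv'
  have q2 : R * iv c.n c.ex P % c.n = rs c.n (e i).2.1 * j % c.n := by
    have : ((R * iv c.n c.ex P : ℕ) : ZMod c.n) = ((rs c.n (e i).2.1 * j : ℕ) : ZMod c.n) := by
      push_cast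
      rw [rs_cast, t2, hlj]
      ring
    exact (ZMod.natCast_eq_natCast_iff' _ _ _).1 this
  have q3 : (c.n - S) % c.n * iv c.n c.ex P % c.n = rs c.n (-(e i).2.2) * j % c.n := by
    have : (((c.n - S) % c.n * iv c.n c.ex P : ℕ) : ZMod c.n) =
        ((rs c.n (-(e i).2.2) * j : ℕ) : ZMod c.n) := by
      rw [Nat.cast_mul, ZMod.natCast_mod, Nat.cast_sub hbd.2.2.le, ZMod.natCast_self]
      push_cast
      rw [rs_cast]
      push_cast
      rw [t3, hlj]
      ring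
    exact (ZMod.natCast_eq_natCast_iff' _ _ _).1 this
  have hpos : pp c a x i =
      pos c.n c.ex c.PT (rs c.n (e i).1) (rs c.n (e i).2.1) (rs c.n (-(e i).2.2)) := by
    unfold pp pos
    rw [strict_eq, strict_eq]
    have e1 : Nat.mod (Nat.mul (hs c.n a x i).2.1 (iv c.n c.ex (hs c.n a x i).1)) c.n =
        Nat.mod (Nat.mul (rs c.n (e i).2.1) (iv c.n c.ex (rs c.n (e i).1))) c.n := q2
    have e2 : Nat.mod (Nat.mul ((c.n - (hs c.n a x i).2.2) % c.n)
        (iv c.n c.ex (hs c.n a x i).1)) c.n =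
        Nat.mod (Nat.mul (rs c.n (-(e i).2.2)) (iv c.n c.ex (rs c.n (e i).1))) c.n := q3
    rw [e1, e2]
  refine ⟨?_, hpos⟩
  rw [hpos]
  exact (List.getElem?_eq_some_iff.1 v2).1

/-- value of the last middle coefficient -/
theorem TS.last (W : World par a e N) {c : Cmp} (hc : CmpOK c) {x : ℕ × ℕ}
    (T : TS par a e c x) :
    (((hs c.n a x N).2.1 * iv c.n c.ex (hs c.n a x N).2.2 % c.n : ℕ) : ZMod c.n) =
      (((e N).2.1 : ℤ) : ZMod c.n) ∧
    ((((c.n - x.2) % c.n) * iv c.n c.ex (hs c.n a x N).2.2 % c.n : ℕ) : ZMod c.n) =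
      (((e 0).2.2 : ℤ) : ZMod c.n) := by
  have hn := hc.pos
  have : NeZero c.n := ⟨hn.ne'⟩
  have hb := hc.F x (List.mem_filter.1 T.mem).1
  have hbd := Bd_hs (a := a) hn hb.1 N
  have t2 := T.h2 N
  have t3 := T.h3 N
  have t0 := T.h3 0
  rw [W.last] at t3
  push_cast at t3
  set S := (hs c.n a x N).2.2 with hS
  have hcop : Nat.Coprime S c.n := by
    rw [← ZMod.isUnit_iff_coprime]
    exact IsUnit.of_mul_eq_one (((e 0).1 : ℤ) : ZMod c.n) (by rw [mul_comm]; exact t3.symm)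
  have hinv := hc.inv S hbd.2.2 hcop
  have hinv' : ((S : ℕ) : ZMod c.n) * ((iv c.n c.ex S : ℕ) : ZMod c.n) = 1 := by
    have h1 := congrArg (fun x : ℕ => (x : ZMod c.n)) hinv
    simp only [ZMod.natCast_mod] at h1
    push_cast at h1
    rw [h1]
  have hl : ((iv c.n c.ex S : ℕ) : ZMod c.n) = (((e 0).1 : ℤ) : ZMod c.n) := by
    linear_combination ((iv c.n c.ex S : ℕ) : ZMod c.n) * t3 +
      (((e 0).1 : ℤ) : ZMod c.n) * hinv'
  constructor
  · rw [ZMod.natCast_mod, Nat.cast_mul, hl, t2]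
    ring
  · have e3 : (hs c.n a x 0).2.2 = (c.n - x.2) % c.n := rfl
    rw [ZMod.natCast_mod, Nat.cast_mul, hl, t0, e3]
    ring

end

end Pool.Agent.LibH4.CW


end

section

/-!
Constant words: the relations along the orbit of the first state.
-/

namespace Pool.Agent.LibH4.CW

open Finset Pool.Agent.Lib_helper5 Pool.Agent.Lib_helper5.LK Pool.Agent.LibH4.Ker
  Pool.Agent.LibH4.KF Pool.Agent.LibH4.T6 Pool.Agent.Lib_helper5.TB Pool.Agent.LibH4.S7

/-- a reduced character -/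
structure ChOK (n t l : ℕ) : Prop where
  mul : ∀ x < n, ∀ y < n, dig t (x * y % n) % l = dig t x * dig t y % l
  one : dig t (1 % n) % l = 1 % l

/-- boolean check of a reduced character -/
def chCk (n t l : ℕ) : Bool :=
  allR (fun x => allR (fun y => Nat.beq (Nat.mod (dig t (Nat.mod (Nat.mul x y) n)) l)
    (Nat.mod (Nat.mul (dig t x) (dig t y)) l)) n) n

/-- boolean check of a reduced character -/
def chCk1 (n t l : ℕ) : Bool :=
  Nat.beq (Nat.mod (dig t (Nat.mod (nat_lit 1) n)) l) (Nat.mod (nat_lit 1) l)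

lemma chCk_spec {n t l : ℕ} (h : chCk n t l = true) (h1 : chCk1 n t l = true) : ChOK n t l where
  mul x hx y hy := Nat.eq_of_beq_eq_true (allR_spec (allR_spec h x hx) y hy)
  one := Nat.eq_of_beq_eq_true h1

/-- a relation -/
structure RDOK (r : RD) : Prop where
  k1 : CmpOK (cof r.n1)
  k2 : CmpOK (cof r.n2)
  k3 : CmpOK (cof r.n3)
  m1 : (cof r.n1).n = r.n1
  m2 : (cof r.n2).n = r.n2
  m3 : (cof r.n3).n = r.n3
  lr : r.rows.length = (cof r.n1).F.length
  l2 : r.len2 = (cof r.n2).F.length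
  l3 : r.len3 = (cof r.n3).F.length
  l0 : 0 < r.l
  l256 : r.l ≤ 256
  len : 8 * (r.len2 * r.len3) ≤ 65536
  ch1 : ChOK r.n1 r.t1 r.l
  ch2 : ChOK r.n2 r.t2 r.l
  ch3 : ChOK r.n3 r.t3 r.l
  rel : ∀ {par : Bool} {a N : ℕ} {e : ℕ → ℤ × ℤ × ℤ}, World par a e N →
    ((JW par a e N).map (fval r.n1 r.n2 r.n3 r.l (cof r.n1).ex (cof r.n2).ex (cof r.n3).ex
      (cof r.n1).PT (cof r.n2).PT (cof r.n3).PT r.t1 r.t2 r.t3 r.rows r.len3)).sum % r.l = 0

section

variable {par : Bool} {a N : ℕ} {e : ℕ → ℤ × ℤ × ℤ}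

lemma wt {c : Cmp} (hn : 0 < c.n) {x : ℕ × ℕ} (hx : x.1 < c.n) (T : TS par a e c x) {t l : ℕ}
    (hc : ChOK c.n t l) (i : ℕ) : ((dig t (rs c.n (e i).1) : ℕ) : ZMod l) =
      ((dig t (rs c.n (e 0).1) : ℕ) : ZMod l) * ((dig t (hs c.n a x i).1 : ℕ) : ZMod l) := by
  have : NeZero c.n := ⟨hn.ne'⟩
  have h1 : rs c.n (e 0).1 * (hs c.n a x i).1 % c.n = rs c.n (e i).1 := by
    apply rs_of
    rw [T.h1 i]
    push_cast
    rw [rs_cast]
  have h2 := hc.mul _ (rs_lt (e 0).1) _ (Bd_hs (a := a) hn hx i).1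
  rw [h1] at h2
  have h3 := (ZMod.natCast_eq_natCast_iff' _ _ l).2 h2
  rw [h3]
  push_cast
  ring

lemma wt_unit {c : Cmp} (hn : 0 < c.n) {t l : ℕ} (hc : ChOK c.n t l) {P : ℤ}
    (hP : rs c.n P * iv c.n c.ex (rs c.n P) % c.n = 1 % c.n) :
    IsUnit ((dig t (rs c.n P) : ℕ) : ZMod l) := by
  have : NeZero c.n := ⟨hn.ne'⟩
  have h2 := hc.mul _ (rs_lt P) (iv c.n c.ex (rs c.n P)) (Nat.mod_lt _ hn)
  rw [hP] at h2
  have h3 := (ZMod.natCast_eq_natCast_iff' _ _ l).2 h2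
  have h4 := (ZMod.natCast_eq_natCast_iff' _ _ l).2 hc.one
  rw [h4] at h3
  apply IsUnit.of_mul_eq_one ((dig t (iv c.n c.ex (rs c.n P)) : ℕ) : ZMod l)
  rw [← Nat.cast_mul, ← h3]
  push_cast
  rfl

/-- the value of a form -/
lemma fval_eq (W : World par a e N) {r : RD} (hr : RDOK r) [NeZero r.l] {x1 x2 x3 : ℕ × ℕ}
    (T1 : TS par a e (cof r.n1) x1) (T2 : TS par a e (cof r.n2) x2)
    (T3 : TS par a e (cof r.n3) x3) (i κ : ℕ) (α : ℤ) :
    ((fval r.n1 r.n2 r.n3 r.l (cof r.n1).ex (cof r.n2).ex (cof r.n3).ex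
      (cof r.n1).PT (cof r.n2).PT (cof r.n3).PT r.t1 r.t2 r.t3 r.rows r.len3
      ⟨(e i).1, (e i).2.1, -(e i).2.2, κ, α⟩ : ℕ) : ZMod r.l) =
    (((dig r.t1 (rs r.n1 (e 0).1) : ℕ) : ZMod r.l) * ((dig r.t2 (rs r.n2 (e 0).1) : ℕ) : ZMod r.l) *
      ((dig r.t3 (rs r.n3 (e 0).1) : ℕ) : ZMod r.l)) *
      ((κ : ZMod r.l) * ((Xh r (cof r.n1) (cof r.n2) (cof r.n3) a x1 x2 x3 i : ℕ) : ZMod r.l) +
        (α : ZMod r.l) * ((Yh r (cof r.n1) (cof r.n2) (cof r.n3) a x1 x2 x3 i : ℕ) : ZMod r.l)) := by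
  have b1 := (hr.k1.F x1 (List.mem_filter.1 T1.mem).1).1
  have b2 := (hr.k2.F x2 (List.mem_filter.1 T2.mem).1).1
  have b3 := (hr.k3.F x3 (List.mem_filter.1 T3.mem).1).1
  have w1 := wt hr.k1.pos b1 T1 (by rw [hr.m1]; exact hr.ch1) i
  have w2 := wt hr.k2.pos b2 T2 (by rw [hr.m2]; exact hr.ch2) i
  have w3 := wt hr.k3.pos b3 T3 (by rw [hr.m3]; exact hr.ch3) i
  have p1 := (T1.props W hr.k1 i).2
  have p2 := (T2.props W hr.k2 i).2
  have p3 := (T3.props W hr.k3 i).2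
  rw [hr.m1] at w1 p1
  rw [hr.m2] at w2 p2
  rw [hr.m3] at w3 p3
  unfold fval Xh Yh wh
  simp only
  rw [← p1, ← p2, ← p3, hr.m1, hr.m2, hr.m3]
  push_cast
  rw [w1, w2, w3, rs_cast, ZMod.natCast_mod]
  push_cast
  ring

lemma neg_cast {l : ℕ} (hl : 0 < l) (x : ℕ) : ((neg l x : ℕ) : ZMod l) = -(x : ZMod l) := by
  have e : neg l x = (l - 1) * x % l := rfl
  rw [e, ZMod.natCast_mod, Nat.cast_mul, Nat.cast_sub hl, ZMod.natCast_self]
  push_cast
  ring

/-- first coefficient -/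
def kk0 (par : Bool) (l : ℕ) : ℕ := neg l (@Bool.rec (fun _ => ℕ) (nat_lit 3) (nat_lit 6) par)
/-- second coefficient -/
def kk1 (par : Bool) (a : ℕ) : ℕ := @Bool.rec (fun _ => ℕ) (nat_lit 0) a par

lemma lsum_range {M : Type} [AddCommMonoid M] (f : ℕ → M) (n : ℕ) :
    ((List.range n).map f).sum = ∑ j ∈ range n, f j := by
  induction n with
  | zero => simp
  | succ n ih => rw [List.range_succ, List.map_append, List.sum_append, ih, Finset.sum_range_succ]; simp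

/-- **the relation along the orbit** -/
theorem rel_hat (W : World par a e N) {r : RD} (hr : RDOK r) {x1 x2 x3 : ℕ × ℕ}
    (T1 : TS par a e (cof r.n1) x1) (T2 : TS par a e (cof r.n2) x2)
    (T3 : TS par a e (cof r.n3) x3) (X Y : ℕ → ZMod r.l)
    (hX : X = fun i => ((Xh r (cof r.n1) (cof r.n2) (cof r.n3) a x1 x2 x3 i : ℕ) : ZMod r.l))
    (hY : Y = fun i => ((Yh r (cof r.n1) (cof r.n2) (cof r.n3) a x1 x2 x3 i : ℕ) : ZMod r.l)) :
    (kk0 par r.l : ZMod r.l) * X 0 + (kk1 par a : ZMod r.l) * Y 0 +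
      ∑ j ∈ range N, (6 * X j + ((neg r.l (2 * a) : ℕ) : ZMod r.l) * Y j) + 6 * X N -
      (((e N).2.1 : ℤ) : ZMod r.l) * Y N = 0 := by
  have hl := hr.l0
  have : NeZero r.l := ⟨hl.ne'⟩
  have h0 := hr.rel W
  rw [← Nat.dvd_iff_mod_eq_zero, ← ZMod.natCast_eq_zero_iff, cast_lsum] at h0
  unfold JW at h0
  rw [List.map_cons, List.sum_cons, List.map_append, List.sum_append, List.map_map,
    List.map_cons, List.map_nil, List.sum_cons, List.sum_nil, add_zero] at h0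
  rw [fval_eq W hr T1 T2 T3, fval_eq W hr T1 T2 T3] at h0
  have hmid : (List.map ((fun x => ((fval r.n1 r.n2 r.n3 r.l (cof r.n1).ex (cof r.n2).ex
      (cof r.n3).ex (cof r.n1).PT (cof r.n2).PT (cof r.n3).PT r.t1 r.t2 r.t3 r.rows r.len3 x : ℕ) :
      ZMod r.l)) ∘ fun j => (⟨(e (j + 1)).1, (e (j + 1)).2.1, -(e (j + 1)).2.2, 6,
        -(2 * a : ℤ)⟩ : Fm)) (List.range (N - 1))).sum =
      (((dig r.t1 (rs r.n1 (e 0).1) : ℕ) : ZMod r.l) *
        ((dig r.t2 (rs r.n2 (e 0).1) : ℕ) : ZMod r.l) *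
        ((dig r.t3 (rs r.n3 (e 0).1) : ℕ) : ZMod r.l)) *
      ∑ j ∈ range (N - 1), (6 * X (j + 1) - 2 * (a : ZMod r.l) * Y (j + 1)) := by
    rw [lsum_range, Finset.mul_sum]
    apply Finset.sum_congr rfl
    intro j _
    have := fval_eq W hr T1 T2 T3 (j + 1) 6 (-(2 * a : ℤ))
    simp only [Function.comp_apply]
    rw [this, hX, hY]
    push_cast
    ring
  rw [hmid] at h0
  set u : ZMod r.l := ((dig r.t1 (rs r.n1 (e 0).1) : ℕ) : ZMod r.l) *
    ((dig r.t2 (rs r.n2 (e 0).1) : ℕ) : ZMod r.l) *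
    ((dig r.t3 (rs r.n3 (e 0).1) : ℕ) : ZMod r.l) with hu
  have hunit : IsUnit u := by
    have v1 := (hr.k1.cp _ W.dok _ _ _ (W.disc 0)).1
    have v2 := (hr.k2.cp _ W.dok _ _ _ (W.disc 0)).1
    have v3 := (hr.k3.cp _ W.dok _ _ _ (W.disc 0)).1
    have u1 := wt_unit hr.k1.pos (by rw [hr.m1]; exact hr.ch1) v1
    have u2 := wt_unit hr.k2.pos (by rw [hr.m2]; exact hr.ch2) v2
    have u3 := wt_unit hr.k3.pos (by rw [hr.m3]; exact hr.ch3) v3
    rw [hr.m1] at u1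
    rw [hr.m2] at u2
    rw [hr.m3] at u3
    exact (u1.mul u2).mul u3
  obtain ⟨M, rfl⟩ : ∃ M, N = M + 1 := ⟨N - 1, by have := W.N1; omega⟩
  rw [Finset.sum_range_succ', neg_cast hl]
  rw [Nat.add_sub_cancel] at h0
  have hs : ∑ j ∈ range M, (6 * X (j + 1) + -((2 * a : ℕ) : ZMod r.l) * Y (j + 1)) =
      ∑ j ∈ range M, (6 * X (j + 1) - 2 * (a : ZMod r.l) * Y (j + 1)) := by
    apply Finset.sum_congr rfl
    intro j _
    push_cast
    ring
  rw [hs]
  have key : u * ((kk0 par r.l : ZMod r.l) * X 0 + (kk1 par a : ZMod r.l) * Y 0 +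
      (∑ j ∈ range M, (6 * X (j + 1) - 2 * (a : ZMod r.l) * Y (j + 1)) +
        (6 * X 0 + -((2 * a : ℕ) : ZMod r.l) * Y 0)) + 6 * X (M + 1) -
      (((e (M + 1)).2.1 : ℤ) : ZMod r.l) * Y (M + 1)) = 0 := by
    rw [hX, hY] at h0 ⊢
    simp only at h0 ⊢
    cases par with
    | false =>
      have e1 : ((kk0 false r.l : ℕ) : ZMod r.l) = -3 := by
        have := neg_cast hl 3
        push_cast at this
        exact this
      have e2 : ((kk1 false a : ℕ) : ZMod r.l) = 0 := by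
        change ((0 : ℕ) : ZMod r.l) = 0
        push_cast; rfl
      rw [e1, e2]
      simp only [kap, alp, cond_false] at h0
      push_cast at h0 ⊢
      linear_combination h0
    | true =>
      have e1 : ((kk0 true r.l : ℕ) : ZMod r.l) = -6 := by
        have := neg_cast hl 6
        push_cast at this
        exact this
      have e2 : ((kk1 true a : ℕ) : ZMod r.l) = a := rfl
      rw [e1, e2]
      simp only [kap, alp, cond_true] at h0
      push_cast at h0 ⊢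
      linear_combination h0
  exact (hunit.mul_right_eq_zero).1 key

end

end Pool.Agent.LibH4.CW


end
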