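import Mathlib
import Pool.Agent.RQM.C12
import Pool.Agent.RQM.C40
import Pool.Agent.RQM.C41
import Pool.Agent.RQM.C51
import Pool.Agent.RQM.C52

/-! Parts: Lib_helper4.CX.Bas, Lib_helper4.CX.RecO, Lib_helper4.CX.EA, Lib_helper4.CX.Ker, Lib_helper4.CX.RecE, Lib_helper4.CX.EB, Lib_helper4.CX.ED, Lib_helper4.CX.St, Lib_helper4.CX.Dg, Lib_helper4.CX.Sx -/

namespace Pool.Agent.LibH4.CW
end Pool.Agent.LibH4.CW
namespace Pool.Agent.LibH4.Ker
end Pool.Agent.LibH4.Ker
namespace Pool.Agent.Lib_helper5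
end Pool.Agent.Lib_helper5
namespace Pool.Agent.Lib_helper5.LK
end Pool.Agent.Lib_helper5.LK
namespace Pool.Agent.Lib_helper5.TB
end Pool.Agent.Lib_helper5.TB

section

/-!
Constant words, all letters at once: data types.
-/

namespace Pool.Agent.LibH4.CX

/-- record of a letter and a first state -/
structure Rc where
  /-- modulus -/
  n : ℕ
  /-- letter -/
  a : ℕ
  /-- first coordinate of the first state -/
  x1 : ℕ
  /-- second coordinate of the first state -/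
  x2 : ℕ
  /-- period -/
  pi : ℕ
  /-- orbit -/
  orb : ℕ

/-- data of a relation -/
structure RN where
  /-- modulus of the values -/
  l : ℕ
  /-- first character -/
  t1 : ℕ
  /-- second character -/
  t2 : ℕ
  /-- third character -/
  t3 : ℕ
  /-- length of the third component -/
  len3 : ℕ
  /-- width of a row -/
  w : ℕ
  /-- base of the rows -/
  V : ℕ
  /-- rows -/
  RX : ℕ
  /-- rows -/
  RY : ℕ
  /-- width of a field -/
  F : ℕ
  /-- mask of a slot -/
  ms : ℕ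
  /-- width of a digit -/
  w2 : ℕ
  /-- mask of a field -/
  mF : ℕ

/-- states -/
inductive Tr where
  /-- nothing -/
  | nil
  /-- a state and further states -/
  | st (n K : ℕ) (t : Tr)

/-- states of three records -/
structure E3 where
  /-- record modulo `13` -/
  r13 : Rc
  /-- record modulo `7` -/
  r7 : Rc
  /-- record modulo `5` -/
  r5 : Rc
  /-- states -/
  s : Tr

/-- states of five records -/
structure E5 where
  /-- record modulo `13` -/
  r13 : Rc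
  /-- record modulo `7` -/
  r7 : Rc
  /-- record modulo `5` -/
  r5 : Rc
  /-- record modulo `8` -/
  r8 : Rc
  /-- record modulo `4` -/
  r4 : Rc
  /-- states -/
  s : Tr

/-- states of seven records -/
structure E7 where
  /-- record modulo `17` -/
  r17 : Rc
  /-- record modulo `13` -/
  r13 : Rc
  /-- record modulo `7` -/
  r7 : Rc
  /-- record modulo `5` -/
  r5 : Rc
  /-- record modulo `8` -/
  r8 : Rc
  /-- record modulo `4` -/
  r4 : Rc
  /-- record modulo `11` -/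
  r11 : Rc
  /-- states -/
  s : Tr

end Pool.Agent.LibH4.CX


end

section

/-! generated: records -/

namespace Pool.Agent.LibH4.CX

/-- record -/
def r1o_0 : Rc := ⟨nat_lit 1, nat_lit 0, nat_lit 0, nat_lit 0, nat_lit 1, nat_lit 0⟩
/-- records -/
def F1o : List Rc := [r1o_0]

/-- record -/
def r4o_0 : Rc := ⟨nat_lit 4, nat_lit 0, nat_lit 1, nat_lit 3, nat_lit 2, nat_lit 72903131381432577⟩
/-- record -/
def r4o_1 : Rc := ⟨nat_lit 4, nat_lit 0, nat_lit 3, nat_lit 3, nat_lit 2, nat_lit 72340172838207747⟩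
/-- record -/
def r4o_2 : Rc := ⟨nat_lit 4, nat_lit 1, nat_lit 1, nat_lit 3, nat_lit 1, nat_lit 16843009⟩
/-- record -/
def r4o_3 : Rc := ⟨nat_lit 4, nat_lit 1, nat_lit 3, nat_lit 3, nat_lit 3, nat_lit 313125954596092930393571587⟩
/-- record -/
def r4o_4 : Rc := ⟨nat_lit 4, nat_lit 2, nat_lit 1, nat_lit 3, nat_lit 4, nat_lit 1344865734521427340379685679993520385⟩
/-- record -/
def r4o_5 : Rc := ⟨nat_lit 4, nat_lit 2, nat_lit 3, nat_lit 3, nat_lit 4, nat_lit 1334481299258264825119145410018083075⟩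
/-- record -/
def r4o_6 : Rc := ⟨nat_lit 4, nat_lit 3, nat_lit 1, nat_lit 3, nat_lit 3, nat_lit 310708139850914760826618113⟩
/-- record -/
def r4o_7 : Rc := ⟨nat_lit 4, nat_lit 3, nat_lit 3, nat_lit 3, nat_lit 1, nat_lit 16974083⟩
/-- records -/
def F4o : List Rc := [r4o_0, r4o_1, r4o_2, r4o_3, r4o_4, r4o_5,
  r4o_6, r4o_7]

/-- record -/
def r5o_0 : Rc := ⟨nat_lit 5, nat_lit 0, nat_lit 2, nat_lit 4, nat_lit 2, nat_lit 72903148561367301⟩
/-- record -/
def r5o_1 : Rc := ⟨nat_lit 5, nat_lit 0, nat_lit 3, nat_lit 4, nat_lit 2, nat_lit 72621664994787591⟩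
/-- record -/
def r5o_2 : Rc := ⟨nat_lit 5, nat_lit 1, nat_lit 2, nat_lit 4, nat_lit 5, nat_lit 5709164999393852994360315032881287178131472645⟩
/-- record -/
def r5o_3 : Rc := ⟨nat_lit 5, nat_lit 1, nat_lit 3, nat_lit 4, nat_lit 5, nat_lit 5798457132849224726379189061127997152769016071⟩
/-- record -/
def r5o_4 : Rc := ⟨nat_lit 5, nat_lit 2, nat_lit 2, nat_lit 4, nat_lit 1, nat_lit 16908549⟩
/-- record -/
def r5o_5 : Rc := ⟨nat_lit 5, nat_lit 2, nat_lit 3, nat_lit 4, nat_lit 3, nat_lit 310708176672063852116115719⟩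
/-- record -/
def r5o_6 : Rc := ⟨nat_lit 5, nat_lit 3, nat_lit 2, nat_lit 4, nat_lit 3, nat_lit 314334991024677387805786373⟩
/-- record -/
def r5o_7 : Rc := ⟨nat_lit 5, nat_lit 3, nat_lit 3, nat_lit 4, nat_lit 1, nat_lit 16974087⟩
/-- record -/
def r5o_8 : Rc := ⟨nat_lit 5, nat_lit 4, nat_lit 2, nat_lit 4, nat_lit 5, nat_lit 5731554216673322599874652249039369221510922501⟩
/-- record -/
def r5o_9 : Rc := ⟨nat_lit 5, nat_lit 4, nat_lit 3, nat_lit 4, nat_lit 5, nat_lit 5709164999399045766591451760448175270667682055⟩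
/-- records -/
def F5o : List Rc := [r5o_0, r5o_1, r5o_2, r5o_3, r5o_4, r5o_5,
  r5o_6, r5o_7, r5o_8, r5o_9]

/-- record -/
def r7o_0 : Rc := ⟨nat_lit 7, nat_lit 0, nat_lit 1, nat_lit 6, nat_lit 2, nat_lit 73747629326008581⟩
/-- record -/
def r7o_1 : Rc := ⟨nat_lit 7, nat_lit 0, nat_lit 3, nat_lit 6, nat_lit 2, nat_lit 73184653602914571⟩
/-- record -/
def r7o_2 : Rc := ⟨nat_lit 7, nat_lit 0, nat_lit 4, nat_lit 6, nat_lit 2, nat_lit 72903165741367566⟩
/-- record -/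
def r7o_3 : Rc := ⟨nat_lit 7, nat_lit 0, nat_lit 6, nat_lit 6, nat_lit 2, nat_lit 72340190018273556⟩
/-- record -/
def r7o_4 : Rc := ⟨nat_lit 7, nat_lit 1, nat_lit 1, nat_lit 6, nat_lit 1, nat_lit 16843013⟩
/-- record -/
def r7o_5 : Rc := ⟨nat_lit 7, nat_lit 1, nat_lit 3, nat_lit 6, nat_lit 8, nat_lit 462934798497224955090221678834698413021830266421312861934217708491862376715⟩
/-- record -/
def r7o_6 : Rc := ⟨nat_lit 7, nat_lit 1, nat_lit 4, nat_lit 6, nat_lit 8, nat_lit 461174960705108304641167257794199387040999968113107265899744862344159953166⟩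
/-- record -/
def r7o_7 : Rc := ⟨nat_lit 7, nat_lit 1, nat_lit 6, nat_lit 6, nat_lit 8, nat_lit 457655124408981069012371631604997048154918900201765794161205146222277820692⟩
/-- record -/
def r7o_8 : Rc := ⟨nat_lit 7, nat_lit 2, nat_lit 1, nat_lit 6, nat_lit 6, nat_lit 24809534006555457549441560331896247195575974069081800965⟩
/-- record -/
def r7o_9 : Rc := ⟨nat_lit 7, nat_lit 2, nat_lit 3, nat_lit 6, nat_lit 6, nat_lit 24616854009619569559925121192079643093158142160805232907⟩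
/-- record -/
def r7o_10 : Rc := ⟨nat_lit 7, nat_lit 2, nat_lit 4, nat_lit 6, nat_lit 6, nat_lit 24521802316169632536975641674765336981446067775087051022⟩
/-- record -/
def r7o_11 : Rc := ⟨nat_lit 7, nat_lit 2, nat_lit 6, nat_lit 6, nat_lit 6, nat_lit 24999608129190326894454236600272232171507200266995106068⟩
/-- record -/
def r7o_12 : Rc := ⟨nat_lit 7, nat_lit 3, nat_lit 1, nat_lit 6, nat_lit 8, nat_lit 461161373100149101298918604490654591748961192853413075745898789727998378245⟩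
/-- record -/
def r7o_13 : Rc := ⟨nat_lit 7, nat_lit 3, nat_lit 3, nat_lit 6, nat_lit 1, nat_lit 16974091⟩
/-- record -/
def r7o_14 : Rc := ⟨nat_lit 7, nat_lit 3, nat_lit 4, nat_lit 6, nat_lit 8, nat_lit 455874500388974088902051650749756388128196083758402144328697989166073643278⟩
/-- record -/
def r7o_15 : Rc := ⟨nat_lit 7, nat_lit 3, nat_lit 6, nat_lit 6, nat_lit 8, nat_lit 452333581311286394031257277298576302327573325637312503746226033567652512020⟩
/-- record -/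
def r7o_16 : Rc := ⟨nat_lit 7, nat_lit 4, nat_lit 1, nat_lit 6, nat_lit 8, nat_lit 452333581309229569828425620408197781529930258785986246290407855456459489541⟩
/-- record -/
def r7o_17 : Rc := ⟨nat_lit 7, nat_lit 4, nat_lit 3, nat_lit 6, nat_lit 8, nat_lit 461174960704703274700347032982233143136635022371545868940178871193251807499⟩
/-- record -/
def r7o_18 : Rc := ⟨nat_lit 7, nat_lit 4, nat_lit 4, nat_lit 6, nat_lit 1, nat_lit 17039630⟩
/-- record -/
def r7o_19 : Rc := ⟨nat_lit 7, nat_lit 4, nat_lit 6, nat_lit 6, nat_lit 8, nat_lit 455860427506613941050092873973275713490867968177258503041649012169259745556⟩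
/-- record -/
def r7o_20 : Rc := ⟨nat_lit 7, nat_lit 5, nat_lit 1, nat_lit 6, nat_lit 6, nat_lit 24712243292686515638613377956610470084632070580512817413⟩
/-- record -/
def r7o_21 : Rc := ⟨nat_lit 7, nat_lit 5, nat_lit 3, nat_lit 6, nat_lit 6, nat_lit 24521802316147332812650174487155512375884340501737046283⟩
/-- record -/
def r7o_22 : Rc := ⟨nat_lit 7, nat_lit 5, nat_lit 4, nat_lit 6, nat_lit 6, nat_lit 25095745712513917061475922728028031598488546801172611342⟩
/-- record -/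
def r7o_23 : Rc := ⟨nat_lit 7, nat_lit 5, nat_lit 6, nat_lit 6, nat_lit 6, nat_lit 24905310593354663610375009875495621000281261557368094996⟩
/-- record -/
def r7o_24 : Rc := ⟨nat_lit 7, nat_lit 6, nat_lit 1, nat_lit 6, nat_lit 8, nat_lit 459421890592685229315614377590634101497554927010654164096873350909936075013⟩
/-- record -/
def r7o_25 : Rc := ⟨nat_lit 7, nat_lit 6, nat_lit 3, nat_lit 6, nat_lit 8, nat_lit 455874500388556215913673846673284591660946433384930905407422840693076459787⟩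
/-- record -/
def r7o_26 : Rc := ⟨nat_lit 7, nat_lit 6, nat_lit 4, nat_lit 6, nat_lit 8, nat_lit 454100805812853037798350664325529699582786997298270476835078927041878556942⟩
/-- record -/
def r7o_27 : Rc := ⟨nat_lit 7, nat_lit 6, nat_lit 6, nat_lit 6, nat_lit 1, nat_lit 17170708⟩
/-- records -/
def F7o : List Rc := [r7o_0, r7o_1, r7o_2, r7o_3, r7o_4, r7o_5,
  r7o_6, r7o_7, r7o_8, r7o_9, r7o_10, r7o_11,
  r7o_12, r7o_13, r7o_14, r7o_15, r7o_16, r7o_17,
  r7o_18, r7o_19, r7o_20, r7o_21, r7o_22, r7o_23,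
  r7o_24, r7o_25, r7o_26, r7o_27]

/-- record -/
def r8o_0 : Rc := ⟨nat_lit 8, nat_lit 0, nat_lit 1, nat_lit 7, nat_lit 2, nat_lit 74029082827882755⟩
/-- record -/
def r8o_1 : Rc := ⟨nat_lit 8, nat_lit 0, nat_lit 3, nat_lit 7, nat_lit 2, nat_lit 73466115694723335⟩
/-- record -/
def r8o_2 : Rc := ⟨nat_lit 8, nat_lit 0, nat_lit 5, nat_lit 7, nat_lit 2, nat_lit 72903148561563915⟩
/-- record -/
def r8o_3 : Rc := ⟨nat_lit 8, nat_lit 0, nat_lit 7, nat_lit 7, nat_lit 2, nat_lit 72340181428404495⟩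
/-- record -/
def r8o_4 : Rc := ⟨nat_lit 8, nat_lit 1, nat_lit 1, nat_lit 7, nat_lit 1, nat_lit 16843011⟩
/-- record -/
def r8o_5 : Rc := ⟨nat_lit 8, nat_lit 1, nat_lit 3, nat_lit 7, nat_lit 6, nat_lit 25191532518495804519441578557933102943367926632455274759⟩
/-- record -/
def r8o_6 : Rc := ⟨nat_lit 8, nat_lit 1, nat_lit 5, nat_lit 7, nat_lit 3, nat_lit 315553269559147219883720971⟩
/-- record -/
def r8o_7 : Rc := ⟨nat_lit 8, nat_lit 1, nat_lit 7, nat_lit 7, nat_lit 6, nat_lit 24809902310788650973732653452107187038944612457006956815⟩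
/-- record -/
def r8o_8 : Rc := ⟨nat_lit 8, nat_lit 2, nat_lit 1, nat_lit 7, nat_lit 8, nat_lit 457661918421672939442215779904639477527671871019611568862463254752449855747⟩
/-- record -/
def r8o_9 : Rc := ⟨nat_lit 8, nat_lit 2, nat_lit 3, nat_lit 7, nat_lit 8, nat_lit 454100562963124703675647675718877940484484034005528444623472859331170599175⟩
/-- record -/
def r8o_10 : Rc := ⟨nat_lit 8, nat_lit 2, nat_lit 5, nat_lit 7, nat_lit 8, nat_lit 464729090999567685215306401815895764801986867379938318668436840035092070667⟩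
/-- record -/
def r8o_11 : Rc := ⟨nat_lit 8, nat_lit 2, nat_lit 7, nat_lit 7, nat_lit 8, nat_lit 461168166903457032539223410429360392636194563466233343240740659461695668495⟩
/-- record -/
def r8o_12 : Rc := ⟨nat_lit 8, nat_lit 3, nat_lit 1, nat_lit 7, nat_lit 6, nat_lit 24999976421938717865015666646175725253428428464279585027⟩
/-- record -/
def r8o_13 : Rc := ⟨nat_lit 8, nat_lit 3, nat_lit 3, nat_lit 7, nat_lit 1, nat_lit 16974087⟩
/-- record -/
def r8o_14 : Rc := ⟨nat_lit 8, nat_lit 3, nat_lit 5, nat_lit 7, nat_lit 6, nat_lit 24618346214231564319306741540349809349005114288831267083⟩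
/-- record -/
def r8o_15 : Rc := ⟨nat_lit 8, nat_lit 3, nat_lit 7, nat_lit 7, nat_lit 3, nat_lit 317971194985915740204761359⟩
/-- record -/
def r8o_16 : Rc := ⟨nat_lit 8, nat_lit 4, nat_lit 1, nat_lit 7, nat_lit 4, nat_lit 1365675883536983989289859437572456707⟩
/-- record -/
def r8o_17 : Rc := ⟨nat_lit 8, nat_lit 4, nat_lit 3, nat_lit 7, nat_lit 4, nat_lit 1355290972909682202401090656792674567⟩
/-- record -/
def r8o_18 : Rc := ⟨nat_lit 8, nat_lit 4, nat_lit 5, nat_lit 7, nat_lit 4, nat_lit 1344907329923308942039152959779307787⟩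
/-- record -/
def r8o_19 : Rc := ⟨nat_lit 8, nat_lit 4, nat_lit 7, nat_lit 7, nat_lit 4, nat_lit 1334522419296007155150384178999525647⟩
/-- record -/
def r8o_20 : Rc := ⟨nat_lit 8, nat_lit 5, nat_lit 1, nat_lit 7, nat_lit 3, nat_lit 310717713855767158408151299⟩
/-- record -/
def r8o_21 : Rc := ⟨nat_lit 8, nat_lit 5, nat_lit 3, nat_lit 7, nat_lit 6, nat_lit 25193014503902818838066606540596855598272972851668779271⟩
/-- record -/
def r8o_22 : Rc := ⟨nat_lit 8, nat_lit 5, nat_lit 5, nat_lit 7, nat_lit 1, nat_lit 17105163⟩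
/-- record -/
def r8o_23 : Rc := ⟨nat_lit 8, nat_lit 5, nat_lit 7, nat_lit 7, nat_lit 6, nat_lit 24808396941177033399072689225353824882179907871658410255⟩
/-- record -/
def r8o_24 : Rc := ⟨nat_lit 8, nat_lit 6, nat_lit 1, nat_lit 7, nat_lit 8, nat_lit 457634149253717581119131080523457679736853410116974479170426078129396187395⟩
/-- record -/
def r8o_25 : Rc := ⟨nat_lit 8, nat_lit 6, nat_lit 3, nat_lit 7, nat_lit 8, nat_lit 454128332131080061998732375100059738275302494908165534315510035954224267527⟩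
/-- record -/
def r8o_26 : Rc := ⟨nat_lit 8, nat_lit 6, nat_lit 5, nat_lit 7, nat_lit 8, nat_lit 464701753194049909982706815233940131888563939577679377787693878259921256715⟩
/-- record -/
def r8o_27 : Rc := ⟨nat_lit 8, nat_lit 6, nat_lit 7, nat_lit 7, nat_lit 8, nat_lit 461195504708974807771822997011316025549617491268492284121483621236866482447⟩
/-- record -/
def r8o_28 : Rc := ⟨nat_lit 8, nat_lit 7, nat_lit 1, nat_lit 7, nat_lit 6, nat_lit 25001458407345732183640694628839477908333474683493089539⟩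
/-- record -/
def r8o_29 : Rc := ⟨nat_lit 8, nat_lit 7, nat_lit 3, nat_lit 7, nat_lit 3, nat_lit 313135639282535678729191687⟩
/-- record -/
def r8o_30 : Rc := ⟨nat_lit 8, nat_lit 7, nat_lit 5, nat_lit 7, nat_lit 6, nat_lit 24616840844619946744646777313596447192240409703482720523⟩
/-- record -/
def r8o_31 : Rc := ⟨nat_lit 8, nat_lit 7, nat_lit 7, nat_lit 7, nat_lit 1, nat_lit 17236239⟩
/-- records -/
def F8o : List Rc := [r8o_0, r8o_1, r8o_2, r8o_3, r8o_4, r8o_5,
  r8o_6, r8o_7, r8o_8, r8o_9, r8o_10, r8o_11,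
  r8o_12, r8o_13, r8o_14, r8o_15, r8o_16, r8o_17,
  r8o_18, r8o_19, r8o_20, r8o_21, r8o_22, r8o_23,
  r8o_24, r8o_25, r8o_26, r8o_27, r8o_28, r8o_29,
  r8o_30, r8o_31]

/-- record -/
def r11o_0 : Rc := ⟨nat_lit 11, nat_lit 0, nat_lit 2, nat_lit 10, nat_lit 2, nat_lit 74592178810257678⟩
/-- record -/
def r11o_1 : Rc := ⟨nat_lit 11, nat_lit 0, nat_lit 3, nat_lit 10, nat_lit 2, nat_lit 74310682358776083⟩
/-- record -/
def r11o_2 : Rc := ⟨nat_lit 11, nat_lit 0, nat_lit 5, nat_lit 10, nat_lit 2, nat_lit 73747689455812893⟩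
/-- record -/
def r11o_3 : Rc := ⟨nat_lit 11, nat_lit 0, nat_lit 6, nat_lit 10, nat_lit 2, nat_lit 73466193004331298⟩
/-- record -/
def r11o_4 : Rc := ⟨nat_lit 11, nat_lit 0, nat_lit 8, nat_lit 10, nat_lit 2, nat_lit 72903200101368108⟩
/-- record -/
def r11o_5 : Rc := ⟨nat_lit 11, nat_lit 0, nat_lit 9, nat_lit 10, nat_lit 2, nat_lit 72621703649886513⟩
/-- record -/
def r11o_6 : Rc := ⟨nat_lit 11, nat_lit 1, nat_lit 2, nat_lit 10, nat_lit 10, nat_lit 8343955492204296988556501236761777242797387595785972916170526778320709647953317866409937731854⟩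
/-- record -/
def r11o_7 : Rc := ⟨nat_lit 11, nat_lit 1, nat_lit 3, nat_lit 10, nat_lit 10, nat_lit 8670025468301329572651225647434780488191234252497569623808454284662062136489660094301379690771⟩
/-- record -/
def r11o_8 : Rc := ⟨nat_lit 11, nat_lit 1, nat_lit 5, nat_lit 10, nat_lit 10, nat_lit 8605091972337064734846790586088063087482338460838315805420799342082484880053215067892638613789⟩
/-- record -/
def r11o_9 : Rc := ⟨nat_lit 11, nat_lit 1, nat_lit 6, nat_lit 10, nat_lit 10, nat_lit 8572620232686185699053766329552721046673356384208259559730369843846660793722483439537907695906⟩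
/-- record -/
def r11o_10 : Rc := ⟨nat_lit 11, nat_lit 1, nat_lit 8, nat_lit 10, nat_lit 10, nat_lit 8507686239315530911356279477034289304055527092285551664982230946765360179829106153256749891884⟩
/-- record -/
def r11o_11 : Rc := ⟨nat_lit 11, nat_lit 1, nat_lit 9, nat_lit 10, nat_lit 10, nat_lit 8475239375547405492176277337884073208816260018644988817928417556143346957512722903974971769137⟩
/-- record -/
def r11o_12 : Rc := ⟨nat_lit 11, nat_lit 2, nat_lit 2, nat_lit 10, nat_lit 1, nat_lit 16908558⟩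
/-- record -/
def r11o_13 : Rc := ⟨nat_lit 11, nat_lit 2, nat_lit 3, nat_lit 10, nat_lit 12, nat_lit 154522561204827325802190674715836727454298922634410191266089623128232580838799674463401320815535545156866115043603⟩
/-- record -/
def r11o_14 : Rc := ⟨nat_lit 11, nat_lit 2, nat_lit 5, nat_lit 10, nat_lit 12, nat_lit 159942933411392928843664333489304927310248582944034341244144820100601072757304972469280892501632578606136098619677⟩
/-- record -/
def r11o_15 : Rc := ⟨nat_lit 11, nat_lit 2, nat_lit 6, nat_lit 10, nat_lit 12, nat_lit 159346330096185341140952998409873673084614330817576628927781784587921867613009242056161700685765740684947011010850⟩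
/-- record -/
def r11o_16 : Rc := ⟨nat_lit 11, nat_lit 2, nat_lit 8, nat_lit 10, nat_lit 12, nat_lit 158127803491761312225844532932962778661300381361588582018675875010301933700340365290602272248139278658407265468716⟩
/-- record -/
def r11o_17 : Rc := ⟨nat_lit 11, nat_lit 2, nat_lit 9, nat_lit 10, nat_lit 12, nat_lit 157531191002559307495991667395523272307034580534265700100295311449520067300299877197085476726624589538128848027953⟩
/-- record -/
def r11o_18 : Rc := ⟨nat_lit 11, nat_lit 3, nat_lit 2, nat_lit 10, nat_lit 4, nat_lit 1350183529414428502121498938425082126⟩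
/-- record -/
def r11o_19 : Rc := ⟨nat_lit 11, nat_lit 3, nat_lit 3, nat_lit 10, nat_lit 1, nat_lit 16974099⟩
/-- record -/
def r11o_20 : Rc := ⟨nat_lit 11, nat_lit 3, nat_lit 5, nat_lit 10, nat_lit 4, nat_lit 1334565441123971204780654518197354781⟩
/-- record -/
def r11o_21 : Rc := ⟨nat_lit 11, nat_lit 3, nat_lit 6, nat_lit 10, nat_lit 4, nat_lit 1329430822983103894313889237574222114⟩
/-- record -/
def r11o_22 : Rc := ⟨nat_lit 11, nat_lit 3, nat_lit 8, nat_lit 10, nat_lit 4, nat_lit 1376061666910804675967264943346549036⟩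
/-- record -/
def r11o_23 : Rc := ⟨nat_lit 11, nat_lit 3, nat_lit 9, nat_lit 10, nat_lit 4, nat_lit 1370929107471476805121083796443693361⟩
/-- record -/
def r11o_24 : Rc := ⟨nat_lit 11, nat_lit 4, nat_lit 2, nat_lit 10, nat_lit 10, nat_lit 8539782975906978280508170199868006557544147471363472789471972256620000934223600161885436117262⟩
/-- record -/
def r11o_25 : Rc := ⟨nat_lit 11, nat_lit 4, nat_lit 3, nat_lit 10, nat_lit 10, nat_lit 8507686239360887019636250607578921124792420532784641660635950445027169522843817228243050889491⟩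
/-- record -/
def r11o_26 : Rc := ⟨nat_lit 11, nat_lit 4, nat_lit 5, nat_lit 10, nat_lit 10, nat_lit 8442126607583947804752009854249502909181103113993714200450362947686480463268805871159705141533⟩
/-- record -/
def r11o_27 : Rc := ⟨nat_lit 11, nat_lit 4, nat_lit 6, nat_lit 10, nat_lit 10, nat_lit 8410056213635622286531404533141748675808730700636569806780495569135628904744553651820957139234⟩
/-- record -/
def r11o_28 : Rc := ⟨nat_lit 11, nat_lit 4, nat_lit 8, nat_lit 10, nat_lit 10, nat_lit 8344465240796291535339220203982325753281120909570736376051817288881848395206545508134545785132⟩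
/-- record -/
def r11o_29 : Rc := ⟨nat_lit 11, nat_lit 4, nat_lit 9, nat_lit 10, nat_lit 10, nat_lit 8670900768860833454246084908546459076466867249570519977143951063931201784388563921507814277425⟩
/-- record -/
def r11o_30 : Rc := ⟨nat_lit 11, nat_lit 5, nat_lit 2, nat_lit 10, nat_lit 12, nat_lit 158742745550930282687589457228564024661302996196616668588945924031799941933916301678517133886535465369980155068686⟩
/-- record -/
def r11o_31 : Rc := ⟨nat_lit 11, nat_lit 5, nat_lit 3, nat_lit 10, nat_lit 12, nat_lit 158127803491061887534562748637327483935300926305343437740914929527218457308493920158883725481279439955505853956371⟩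
/-- record -/
def r11o_32 : Rc := ⟨nat_lit 11, nat_lit 5, nat_lit 5, nat_lit 10, nat_lit 1, nat_lit 17105181⟩
/-- record -/
def r11o_33 : Rc := ⟨nat_lit 11, nat_lit 5, nat_lit 6, nat_lit 10, nat_lit 12, nat_lit 156333480118638424517756202500038241552978386335009593669421031782278212605646584830028451518927767676483998712098⟩
/-- record -/
def r11o_34 : Rc := ⟨nat_lit 11, nat_lit 5, nat_lit 8, nat_lit 10, nat_lit 12, nat_lit 155128604632713376515414938359111079286977921015201780299088574474015844103658213953018850083880911431450587824428⟩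
/-- record -/
def r11o_35 : Rc := ⟨nat_lit 11, nat_lit 5, nat_lit 9, nat_lit 10, nat_lit 12, nat_lit 154539258089771058588471545166614915388299757535680341559227313731030953862673447111661958949824960307565857145137⟩
/-- record -/
def r11o_36 : Rc := ⟨nat_lit 11, nat_lit 6, nat_lit 2, nat_lit 10, nat_lit 12, nat_lit 159949887370731092132363477873453629342934629353096985734349826148164147062775956077786941584882216363139635740942⟩
/-- record -/
def r11o_37 : Rc := ⟨nat_lit 11, nat_lit 6, nat_lit 3, nat_lit 10, nat_lit 12, nat_lit 159337055331826950368016138314081051993074178103671110922983916924089149892375982798172657432936349337550502166803⟩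
/-- record -/
def r11o_38 : Rc := ⟨nat_lit 11, nat_lit 6, nat_lit 5, nat_lit 10, nat_lit 12, nat_lit 158136931473327049794099880690186705885005435652808861398864562853912048266940906838381619294631435177810261770525⟩
/-- record -/
def r11o_39 : Rc := ⟨nat_lit 11, nat_lit 6, nat_lit 6, nat_lit 10, nat_lit 1, nat_lit 17170722⟩
/-- record -/
def r11o_40 : Rc := ⟨nat_lit 11, nat_lit 6, nat_lit 8, nat_lit 10, nat_lit 12, nat_lit 156323801698945254822585114808848858191911411938296553132133211271297506434168733709138874864481985888891404026156⟩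
/-- record -/
def r11o_41 : Rc := ⟨nat_lit 11, nat_lit 6, nat_lit 9, nat_lit 10, nat_lit 12, nat_lit 155737023873750862163248688595326779633339332217557489520856438446412454818322487968672142076227264586938438975793⟩
/-- record -/
def r11o_42 : Rc := ⟨nat_lit 11, nat_lit 7, nat_lit 2, nat_lit 10, nat_lit 10, nat_lit 8377589967791544299862910974467063708819663639113021071588412278681382515855405256471860085006⟩
/-- record -/
def r11o_43 : Rc := ⟨nat_lit 11, nat_lit 7, nat_lit 3, nat_lit 10, nat_lit 10, nat_lit 8344465240758353994176652245099467132452013895510860332895141885462572672944367672297533931795⟩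
/-- record -/
def r11o_44 : Rc := ⟨nat_lit 11, nat_lit 7, nat_lit 5, nat_lit 10, nat_lit 10, nat_lit 8638181863386325856324697517236452054370270267399627815864535735122513903958480822767242772765⟩
/-- record -/
def r11o_45 : Rc := ⟨nat_lit 11, nat_lit 7, nat_lit 6, nat_lit 10, nat_lit 10, nat_lit 8605091972344829755522542446991297063172068680531732364376153119056840032580599385557502918946⟩
/-- record -/
def r11o_46 : Rc := ⟨nat_lit 11, nat_lit 7, nat_lit 8, nat_lit 10, nat_lit 10, nat_lit 8540296221287925168158046057890112067503921399765079201955514233061330168797870977761000554796⟩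
/-- record -/
def r11o_47 : Rc := ⟨nat_lit 11, nat_lit 7, nat_lit 9, nat_lit 10, nat_lit 10, nat_lit 8507182940505380204374551170942056939528796077048825631293058538155374196702544451290308084017⟩
/-- record -/
def r11o_48 : Rc := ⟨nat_lit 11, nat_lit 8, nat_lit 2, nat_lit 10, nat_lit 4, nat_lit 1344971188447324826929491189413576974⟩
/-- record -/
def r11o_49 : Rc := ⟨nat_lit 11, nat_lit 8, nat_lit 3, nat_lit 10, nat_lit 4, nat_lit 1339716777331961722906804630864462099⟩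
/-- record -/
def r11o_50 : Rc := ⟨nat_lit 11, nat_lit 8, nat_lit 5, nat_lit 10, nat_lit 4, nat_lit 1329430822981894876260554239851692317⟩
/-- record -/
def r11o_51 : Rc := ⟨nat_lit 11, nat_lit 8, nat_lit 6, nat_lit 10, nat_lit 4, nat_lit 1381294132138258670454236980894368034⟩
/-- record -/
def r11o_52 : Rc := ⟨nat_lit 11, nat_lit 8, nat_lit 8, nat_lit 10, nat_lit 1, nat_lit 17301804⟩
/-- record -/
def r11o_53 : Rc := ⟨nat_lit 11, nat_lit 8, nat_lit 9, nat_lit 10, nat_lit 4, nat_lit 1365757646998299895486629404350153009⟩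
/-- record -/
def r11o_54 : Rc := ⟨nat_lit 11, nat_lit 9, nat_lit 2, nat_lit 10, nat_lit 12, nat_lit 156929826490752358593236238711366281871731150367862528452738873452763438261859740804448450880021453113268665188622⟩
/-- record -/
def r11o_55 : Rc := ⟨nat_lit 11, nat_lit 9, nat_lit 3, nat_lit 10, nat_lit 12, nat_lit 156323801698244732250654010240076480274611574530794453029320396836430105477881317753098129038086393249505722171667⟩
/-- record -/
def r11o_56 : Rc := ⟨nat_lit 11, nat_lit 9, nat_lit 5, nat_lit 10, nat_lit 12, nat_lit 155138154618305526560957274803161513405188612571376090806823707740727615549682063447221884452045480909174007464221⟩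
/-- record -/
def r11o_57 : Rc := ⟨nat_lit 11, nat_lit 9, nat_lit 6, nat_lit 10, nat_lit 12, nat_lit 154532120651803376391849129739346576438897291500589022025920602371624197149624425200051605683153064687474389156130⟩
/-- record -/
def r11o_58 : Rc := ⟨nat_lit 11, nat_lit 9, nat_lit 8, nat_lit 10, nat_lit 12, nat_lit 159933740925455196963636514873505023729073577104655186266326980535272061656873478145918564574763273972184429101356⟩
/-- record -/
def r11o_59 : Rc := ⟨nat_lit 11, nat_lit 9, nat_lit 9, nat_lit 10, nat_lit 1, nat_lit 17367345⟩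
/-- record -/
def r11o_60 : Rc := ⟨nat_lit 11, nat_lit 10, nat_lit 2, nat_lit 10, nat_lit 10, nat_lit 8572999696120956185588580861168595155382732247952802224746141352647519855454535730185300476174⟩
/-- record -/
def r11o_61 : Rc := ⟨nat_lit 11, nat_lit 10, nat_lit 3, nat_lit 10, nat_lit 10, nat_lit 8540296221250157031281418380277293652108977507334732305903732502107585938874733517645061226771⟩
/-- record -/
def r11o_62 : Rc := ⟨nat_lit 11, nat_lit 10, nat_lit 5, nat_lit 10, nat_lit 10, nat_lit 8474854938834740763536159812774687281216793127583998801857742218521421281998200463237648285981⟩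
/-- record -/
def r11o_63 : Rc := ⟨nat_lit 11, nat_lit 10, nat_lit 6, nat_lit 10, nat_lit 10, nat_lit 8442126607591357568965588107377055735702820770232517370233016700049121470570439743173244092706⟩
/-- record -/
def r11o_64 : Rc := ⟨nat_lit 11, nat_lit 10, nat_lit 8, nat_lit 10, nat_lit 10, nat_lit 8376684827853029458020291121448370643581939410632089755178056828847649460226478299083396612396⟩
/-- record -/
def r11o_65 : Rc := ⟨nat_lit 11, nat_lit 10, nat_lit 9, nat_lit 10, nat_lit 10, nat_lit 8343955492257415104195192704837410001091359945166032166406168150175031276887477492183458185521⟩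
/-- records -/
def F11o : List Rc := [r11o_0, r11o_1, r11o_2, r11o_3, r11o_4, r11o_5,
  r11o_6, r11o_7, r11o_8, r11o_9, r11o_10, r11o_11,
  r11o_12, r11o_13, r11o_14, r11o_15, r11o_16, r11o_17,
  r11o_18, r11o_19, r11o_20, r11o_21, r11o_22, r11o_23,
  r11o_24, r11o_25, r11o_26, r11o_27, r11o_28, r11o_29,
  r11o_30, r11o_31, r11o_32, r11o_33, r11o_34, r11o_35,
  r11o_36, r11o_37, r11o_38, r11o_39, r11o_40, r11o_41,
  r11o_42, r11o_43, r11o_44, r11o_45, r11o_46, r11o_47,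
  r11o_48, r11o_49, r11o_50, r11o_51, r11o_52, r11o_53,
  r11o_54, r11o_55, r11o_56, r11o_57, r11o_58, r11o_59,
  r11o_60, r11o_61, r11o_62, r11o_63, r11o_64, r11o_65]

/-- record -/
def r13o_0 : Rc := ⟨nat_lit 13, nat_lit 0, nat_lit 1, nat_lit 12, nat_lit 2, nat_lit 75436723999408395⟩
/-- record -/
def r13o_1 : Rc := ⟨nat_lit 13, nat_lit 0, nat_lit 2, nat_lit 12, nat_lit 2, nat_lit 75155223252959505⟩
/-- record -/
def r13o_2 : Rc := ⟨nat_lit 13, nat_lit 0, nat_lit 4, nat_lit 12, nat_lit 2, nat_lit 74592221760061725⟩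
/-- record -/
def r13o_3 : Rc := ⟨nat_lit 13, nat_lit 0, nat_lit 9, nat_lit 12, nat_lit 2, nat_lit 73184718027817275⟩
/-- record -/
def r13o_4 : Rc := ⟨nat_lit 13, nat_lit 0, nat_lit 11, nat_lit 12, nat_lit 2, nat_lit 72621716534919495⟩
/-- record -/
def r13o_5 : Rc := ⟨nat_lit 13, nat_lit 0, nat_lit 12, nat_lit 12, nat_lit 2, nat_lit 72340215788470605⟩
/-- record -/
def r13o_6 : Rc := ⟨nat_lit 13, nat_lit 1, nat_lit 1, nat_lit 12, nat_lit 1, nat_lit 16843019⟩
/-- record -/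
def r13o_7 : Rc := ⟨nat_lit 13, nat_lit 1, nat_lit 2, nat_lit 12, nat_lit 7, nat_lit 105315518270684806694179029476822802924647529433753148586094362897⟩
/-- record -/
def r13o_8 : Rc := ⟨nat_lit 13, nat_lit 1, nat_lit 4, nat_lit 12, nat_lit 7, nat_lit 109844095729297890353692303129137031782617626422022030056396947741⟩
/-- record -/
def r13o_9 : Rc := ⟨nat_lit 13, nat_lit 1, nat_lit 9, nat_lit 12, nat_lit 7, nat_lit 107795224442918109809001078763443959158241365053382413474589114683⟩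
/-- record -/
def r13o_10 : Rc := ⟨nat_lit 13, nat_lit 1, nat_lit 11, nat_lit 12, nat_lit 7, nat_lit 106975899534788651909801948407770687616886929974309184203200856391⟩
/-- record -/
def r13o_11 : Rc := ⟨nat_lit 13, nat_lit 1, nat_lit 12, nat_lit 12, nat_lit 7, nat_lit 106566080263903352858417065398785626919754283617385000537368035661⟩
/-- record -/
def r13o_12 : Rc := ⟨nat_lit 13, nat_lit 2, nat_lit 1, nat_lit 12, nat_lit 7, nat_lit 106566080264097140656690529087096178000368293937149158521594511627⟩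
/-- record -/
def r13o_13 : Rc := ⟨nat_lit 13, nat_lit 2, nat_lit 2, nat_lit 12, nat_lit 1, nat_lit 16908561⟩
/-- record -/
def r13o_14 : Rc := ⟨nat_lit 13, nat_lit 2, nat_lit 4, nat_lit 12, nat_lit 7, nat_lit 105320332832425399404957543052654725887186672535521528905375940893⟩
/-- record -/
def r13o_15 : Rc := ⟨nat_lit 13, nat_lit 2, nat_lit 9, nat_lit 12, nat_lit 7, nat_lit 108606671758474373708271635685883021947168396154392337397588754747⟩
/-- record -/
def r13o_16 : Rc := ⟨nat_lit 13, nat_lit 2, nat_lit 11, nat_lit 12, nat_lit 7, nat_lit 107790228065422351763770793106256317008971219964622047561198010695⟩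
/-- record -/
def r13o_17 : Rc := ⟨nat_lit 13, nat_lit 2, nat_lit 12, nat_lit 12, nat_lit 7, nat_lit 107382505052375144606393099740744099869711467372409111759171617101⟩
/-- record -/
def r13o_18 : Rc := ⟨nat_lit 13, nat_lit 3, nat_lit 1, nat_lit 12, nat_lit 13, nat_lit 674050908815645103125038435651741331766363624107764306694431135497146830599652701434387785164296306035348302064948244185355⟩
/-- record -/
def r13o_19 : Rc := ⟨nat_lit 13, nat_lit 3, nat_lit 2, nat_lit 12, nat_lit 13, nat_lit 671498604616772823514203348881649528891293105544970467295472346662424867536376236607555695169005566644615625158328846516497⟩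
/-- record -/
def r13o_20 : Rc := ⟨nat_lit 13, nat_lit 3, nat_lit 4, nat_lit 12, nat_lit 13, nat_lit 666262551435419837176041146836874310814229830536760093714842533272038382260905806989583318917569879963801641426350686601501⟩
/-- record -/
def r13o_21 : Rc := ⟨nat_lit 13, nat_lit 3, nat_lit 9, nat_lit 12, nat_lit 13, nat_lit 686940448619926658936687228734770356653944879731990340529137036955583406483522559444759748548524398742939144420378041450811⟩
/-- record -/
def r13o_22 : Rc := ⟨nat_lit 13, nat_lit 3, nat_lit 11, nat_lit 12, nat_lit 13, nat_lit 681836194685754588747971958148790429967722321647604943688457365573466457851479701547961416344768379049323672401426118279495⟩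
/-- record -/
def r13o_23 : Rc := ⟨nat_lit 13, nat_lit 3, nat_lit 12, nat_lit 12, nat_lit 13, nat_lit 679154375173239544135869455098989354398198711949360276393626495174771934162542811315200795642770510727922107922700667978061⟩
/-- record -/
def r13o_24 : Rc := ⟨nat_lit 13, nat_lit 4, nat_lit 1, nat_lit 12, nat_lit 7, nat_lit 108195534150064067954828338037982473309641600944539704025172476171⟩
/-- record -/
def r13o_25 : Rc := ⟨nat_lit 13, nat_lit 4, nat_lit 2, nat_lit 12, nat_lit 7, nat_lit 107790228065807315650870086270080530098215907120385499815875838225⟩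
/-- record -/
def r13o_26 : Rc := ⟨nat_lit 13, nat_lit 4, nat_lit 4, nat_lit 12, nat_lit 1, nat_lit 17039645⟩
/-- record -/
def r13o_27 : Rc := ⟨nat_lit 13, nat_lit 4, nat_lit 9, nat_lit 12, nat_lit 7, nat_lit 110261974822565784997620263205271656640524516981845828122930905403⟩
/-- record -/
def r13o_28 : Rc := ⟨nat_lit 13, nat_lit 4, nat_lit 11, nat_lit 12, nat_lit 7, nat_lit 109431338603065126865080389251133375128211189634600425061958222151⟩
/-- record -/
def r13o_29 : Rc := ⟨nat_lit 13, nat_lit 4, nat_lit 12, nat_lit 12, nat_lit 7, nat_lit 109026145236728837309374484314788093362977954642753594037650587981⟩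
/-- record -/
def r13o_30 : Rc := ⟨nat_lit 13, nat_lit 5, nat_lit 1, nat_lit 12, nat_lit 3, nat_lit 320399044544823297359020299⟩
/-- record -/
def r13o_31 : Rc := ⟨nat_lit 13, nat_lit 5, nat_lit 2, nat_lit 12, nat_lit 3, nat_lit 319213639044478558177198353⟩
/-- record -/
def r13o_32 : Rc := ⟨nat_lit 13, nat_lit 5, nat_lit 4, nat_lit 12, nat_lit 3, nat_lit 316781693444258600734425373⟩
/-- record -/
def r13o_33 : Rc := ⟨nat_lit 13, nat_lit 5, nat_lit 9, nat_lit 12, nat_lit 3, nat_lit 310732305230329497023742267⟩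
/-- record -/
def r13o_34 : Rc := ⟨nat_lit 13, nat_lit 5, nat_lit 11, nat_lit 12, nat_lit 3, nat_lit 324016303916070805177041223⟩
/-- record -/
def r13o_35 : Rc := ⟨nat_lit 13, nat_lit 5, nat_lit 12, nat_lit 12, nat_lit 3, nat_lit 322831026534128252546187597⟩
/-- record -/
def r13o_36 : Rc := ⟨nat_lit 13, nat_lit 6, nat_lit 1, nat_lit 12, nat_lit 6, nat_lit 25577309034937717829402918449079527505121732818200756491⟩
/-- record -/
def r13o_37 : Rc := ⟨nat_lit 13, nat_lit 6, nat_lit 2, nat_lit 12, nat_lit 6, nat_lit 25478969002655387400005100392008736380784701456552952081⟩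
/-- record -/
def r13o_38 : Rc := ⟨nat_lit 13, nat_lit 6, nat_lit 4, nat_lit 12, nat_lit 6, nat_lit 25286961290808018966836621174347197361070399347847594269⟩
/-- record -/
def r13o_39 : Rc := ⟨nat_lit 13, nat_lit 6, nat_lit 9, nat_lit 12, nat_lit 6, nat_lit 24809579341763304297200724398724146690489660265776873787⟩
/-- record -/
def r13o_40 : Rc := ⟨nat_lit 13, nat_lit 6, nat_lit 11, nat_lit 12, nat_lit 6, nat_lit 24617652006596283754291551174164381488959105401696747847⟩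
/-- record -/
def r13o_41 : Rc := ⟨nat_lit 13, nat_lit 6, nat_lit 12, nat_lit 12, nat_lit 6, nat_lit 24524048661492130139683365368375772730796221248314278221⟩
/-- record -/
def r13o_42 : Rc := ⟨nat_lit 13, nat_lit 7, nat_lit 1, nat_lit 12, nat_lit 6, nat_lit 24524048661246807650686852784442539888772170386765840651⟩
/-- record -/
def r13o_43 : Rc := ⟨nat_lit 13, nat_lit 7, nat_lit 2, nat_lit 12, nat_lit 6, nat_lit 25671216384023607989096399488952489752238357247378456849⟩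
/-- record -/
def r13o_44 : Rc := ⟨nat_lit 13, nat_lit 7, nat_lit 4, nat_lit 12, nat_lit 6, nat_lit 25480037371949190547719890634232719838238581468304769309⟩
/-- record -/
def r13o_45 : Rc := ⟨nat_lit 13, nat_lit 7, nat_lit 9, nat_lit 12, nat_lit 6, nat_lit 24999662221877904955975867179781185938583391225986482491⟩
/-- record -/
def r13o_46 : Rc := ⟨nat_lit 13, nat_lit 7, nat_lit 11, nat_lit 12, nat_lit 6, nat_lit 24808405744418497184823601629928907792908992760395792711⟩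
/-- record -/
def r13o_47 : Rc := ⟨nat_lit 13, nat_lit 7, nat_lit 12, nat_lit 12, nat_lit 6, nat_lit 24715306600207840849463792107779310029876311508520796493⟩
/-- record -/
def r13o_48 : Rc := ⟨nat_lit 13, nat_lit 8, nat_lit 1, nat_lit 12, nat_lit 3, nat_lit 311951026199834109746938123⟩
/-- record -/
def r13o_49 : Rc := ⟨nat_lit 13, nat_lit 8, nat_lit 2, nat_lit 12, nat_lit 3, nat_lit 310718451942547352488902929⟩
/-- record -/
def r13o_50 : Rc := ⟨nat_lit 13, nat_lit 8, nat_lit 4, nat_lit 12, nat_lit 3, nat_lit 324030821288328453115085085⟩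
/-- record -/
def r13o_51 : Rc := ⟨nat_lit 13, nat_lit 8, nat_lit 9, nat_lit 12, nat_lit 3, nat_lit 317990951306111007381324091⟩
/-- record -/
def r13o_52 : Rc := ⟨nat_lit 13, nat_lit 8, nat_lit 11, nat_lit 12, nat_lit 3, nat_lit 315587193627872345046319431⟩
/-- record -/
def r13o_53 : Rc := ⟨nat_lit 13, nat_lit 8, nat_lit 12, nat_lit 12, nat_lit 3, nat_lit 314354747488987774339252557⟩
/-- record -/
def r13o_54 : Rc := ⟨nat_lit 13, nat_lit 9, nat_lit 1, nat_lit 12, nat_lit 7, nat_lit 106969377528579024747298842676596101768075277354015469339311931659⟩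
/-- record -/
def r13o_55 : Rc := ⟨nat_lit 13, nat_lit 9, nat_lit 2, nat_lit 12, nat_lit 7, nat_lit 106551291338559496992613678874668765016404622341706615975093338385⟩
/-- record -/
def r13o_56 : Rc := ⟨nat_lit 13, nat_lit 9, nat_lit 4, nat_lit 12, nat_lit 7, nat_lit 105736724302101231421373456881930700830741549136759492104086094109⟩
/-- record -/
def r13o_57 : Rc := ⟨nat_lit 13, nat_lit 9, nat_lit 9, nat_lit 12, nat_lit 1, nat_lit 17367355⟩
/-- record -/
def r13o_58 : Rc := ⟨nat_lit 13, nat_lit 9, nat_lit 11, nat_lit 12, nat_lit 7, nat_lit 108202018493756380480245664574875660962399539905226363325500817735⟩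
/-- record -/
def r13o_59 : Rc := ⟨nat_lit 13, nat_lit 9, nat_lit 12, nat_lit 12, nat_lit 7, nat_lit 107783894371598790078690987760148415429714935007319632659111215437⟩
/-- record -/
def r13o_60 : Rc := ⟨nat_lit 13, nat_lit 10, nat_lit 1, nat_lit 12, nat_lit 13, nat_lit 676570470407885757076014966705821782793832588692563671332980110624795740518385304560736342085637893976117524821164779700491⟩
/-- record -/
def r13o_61 : Rc := ⟨nat_lit 13, nat_lit 10, nat_lit 2, nat_lit 12, nat_lit 13, nat_lit 674090154294218728859560966770741303270779191122628689144213171921277507641150129158665082175675495941912081342757462999313⟩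
/-- record -/
def r13o_62 : Rc := ⟨nat_lit 13, nat_lit 10, nat_lit 4, nat_lit 12, nat_lit 13, nat_lit 668864935885355477176111193226618168488765468429954527684027789049988243342594630097388095518137129893776402717570874212637⟩
/-- record -/
def r13o_63 : Rc := ⟨nat_lit 13, nat_lit 10, nat_lit 9, nat_lit 12, nat_lit 13, nat_lit 689502563919550954894510740120442406746883296274367566956384520713826757341086052109307028258403333007814859766169009193275⟩
/-- record -/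
def r13o_64 : Rc := ⟨nat_lit 13, nat_lit 10, nat_lit 11, nat_lit 12, nat_lit 13, nat_lit 684407726297069575853436113393797154389540304681536560103504552795536236140902004921475528792697885314973770508991736774983⟩
/-- record -/
def r13o_65 : Rc := ⟨nat_lit 13, nat_lit 10, nat_lit 12, nat_lit 12, nat_lit 13, nat_lit 681795057916895034473413488835421088383655421055731590213603442506504189753297675714198454905779073670438916302903607820621⟩
/-- record -/
def r13o_66 : Rc := ⟨nat_lit 13, nat_lit 11, nat_lit 1, nat_lit 12, nat_lit 7, nat_lit 108616219181938830223850310319551732353576410601180781269439545611⟩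
/-- record -/
def r13o_67 : Rc := ⟨nat_lit 13, nat_lit 11, nat_lit 2, nat_lit 12, nat_lit 7, nat_lit 108202018494137611749252771152140768161899909670810214055870071057⟩
/-- record -/
def r13o_68 : Rc := ⟨nat_lit 13, nat_lit 11, nat_lit 4, nat_lit 12, nat_lit 7, nat_lit 107372731653535530777189845973934905193380221816010839114981310749⟩
/-- record -/
def r13o_69 : Rc := ⟨nat_lit 13, nat_lit 11, nat_lit 9, nat_lit 12, nat_lit 7, nat_lit 105320332832904400720742320752168572868360818265396058546648973627⟩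
/-- record -/
def r13o_70 : Rc := ⟨nat_lit 13, nat_lit 11, nat_lit 11, nat_lit 12, nat_lit 1, nat_lit 17498439⟩
/-- record -/
def r13o_71 : Rc := ⟨nat_lit 13, nat_lit 11, nat_lit 12, nat_lit 12, nat_lit 7, nat_lit 109445449601040522635474475731941818722023604070823423917450592589⟩
/-- record -/
def r13o_72 : Rc := ⟨nat_lit 13, nat_lit 12, nat_lit 1, nat_lit 12, nat_lit 7, nat_lit 109445449601229823646556598361537853942819068242236619779752395019⟩
/-- record -/
def r13o_73 : Rc := ⟨nat_lit 13, nat_lit 12, nat_lit 2, nat_lit 12, nat_lit 7, nat_lit 109032441268425292055253159817941866768255919986027622786792554769⟩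
/-- record -/
def r13o_74 : Rc := ⟨nat_lit 13, nat_lit 12, nat_lit 4, nat_lit 12, nat_lit 7, nat_lit 108206713569409172711588039965441367227845011871137375405234979101⟩
/-- record -/
def r13o_75 : Rc := ⟨nat_lit 13, nat_lit 12, nat_lit 9, nat_lit 12, nat_lit 7, nat_lit 106141748137456605301430725530810953487363673859467947691391648059⟩
/-- record -/
def r13o_76 : Rc := ⟨nat_lit 13, nat_lit 12, nat_lit 11, nat_lit 12, nat_lit 7, nat_lit 105315518271546791590889295236453690162761535718570806377882255687⟩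
/-- record -/
def r13o_77 : Rc := ⟨nat_lit 13, nat_lit 12, nat_lit 12, nat_lit 12, nat_lit 1, nat_lit 17563981⟩
/-- records -/
def F13o : List Rc := [r13o_0, r13o_1, r13o_2, r13o_3, r13o_4, r13o_5,
  r13o_6, r13o_7, r13o_8, r13o_9, r13o_10, r13o_11,
  r13o_12, r13o_13, r13o_14, r13o_15, r13o_16, r13o_17,
  r13o_18, r13o_19, r13o_20, r13o_21, r13o_22, r13o_23,
  r13o_24, r13o_25, r13o_26, r13o_27, r13o_28, r13o_29,
  r13o_30, r13o_31, r13o_32, r13o_33, r13o_34, r13o_35,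
  r13o_36, r13o_37, r13o_38, r13o_39, r13o_40, r13o_41,
  r13o_42, r13o_43, r13o_44, r13o_45, r13o_46, r13o_47,
  r13o_48, r13o_49, r13o_50, r13o_51, r13o_52, r13o_53,
  r13o_54, r13o_55, r13o_56, r13o_57, r13o_58, r13o_59,
  r13o_60, r13o_61, r13o_62, r13o_63, r13o_64, r13o_65,
  r13o_66, r13o_67, r13o_68, r13o_69, r13o_70, r13o_71,
  r13o_72, r13o_73, r13o_74, r13o_75, r13o_76, r13o_77]

/-- record -/
def r17o_0 : Rc := ⟨nat_lit 17, nat_lit 0, nat_lit 1, nat_lit 16, nat_lit 2, nat_lit 76562873014354191⟩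
/-- record -/
def r17o_1 : Rc := ⟨nat_lit 17, nat_lit 0, nat_lit 4, nat_lit 16, nat_lit 2, nat_lit 75718345005203751⟩
/-- record -/
def r17o_2 : Rc := ⟨nat_lit 17, nat_lit 0, nat_lit 5, nat_lit 16, nat_lit 2, nat_lit 75436835668820271⟩
/-- record -/
def r17o_3 : Rc := ⟨nat_lit 17, nat_lit 0, nat_lit 6, nat_lit 16, nat_lit 2, nat_lit 75155326332436791⟩
/-- record -/
def r17o_4 : Rc := ⟨nat_lit 17, nat_lit 0, nat_lit 11, nat_lit 16, nat_lit 2, nat_lit 73747779650519391⟩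
/-- record -/
def r17o_5 : Rc := ⟨nat_lit 17, nat_lit 0, nat_lit 12, nat_lit 16, nat_lit 2, nat_lit 73466270314135911⟩
/-- record -/
def r17o_6 : Rc := ⟨nat_lit 17, nat_lit 0, nat_lit 13, nat_lit 16, nat_lit 2, nat_lit 73184760977752431⟩
/-- record -/
def r17o_7 : Rc := ⟨nat_lit 17, nat_lit 0, nat_lit 16, nat_lit 16, nat_lit 2, nat_lit 72340232968601991⟩
/-- record -/
def r17o_8 : Rc := ⟨nat_lit 17, nat_lit 1, nat_lit 1, nat_lit 16, nat_lit 1, nat_lit 16843023⟩
/-- record -/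
def r17o_9 : Rc := ⟨nat_lit 17, nat_lit 1, nat_lit 4, nat_lit 16, nat_lit 9, nat_lit 2056623251114348335344810898619465119791551393668796760525672367118382639462268272935⟩
/-- record -/
def r17o_10 : Rc := ⟨nat_lit 17, nat_lit 1, nat_lit 5, nat_lit 16, nat_lit 9, nat_lit 2049069204073956583132274614308897977033184033992422323764188931762735421876108329263⟩
/-- record -/
def r17o_11 : Rc := ⟨nat_lit 17, nat_lit 1, nat_lit 6, nat_lit 16, nat_lit 9, nat_lit 2041503231375970495889308717856162767868222190283899317592142008456940788001056096567⟩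
/-- record -/
def r17o_12 : Rc := ⟨nat_lit 17, nat_lit 1, nat_lit 11, nat_lit 16, nat_lit 9, nat_lit 2003712866930780196065599775370556371010281376041700264193670664608394635664371155295⟩
/-- record -/
def r17o_13 : Rc := ⟨nat_lit 17, nat_lit 1, nat_lit 12, nat_lit 16, nat_lit 9, nat_lit 1996146546826487866203545014773575015865445113966835385762398208596529471685355372903⟩
/-- record -/
def r17o_14 : Rc := ⟨nat_lit 17, nat_lit 1, nat_lit 13, nat_lit 16, nat_lit 9, nat_lit 1988592615608226119761034154823651964772356153455760832800517045999399251554914337135⟩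
/-- record -/
def r17o_15 : Rc := ⟨nat_lit 17, nat_lit 1, nat_lit 16, nat_lit 16, nat_lit 9, nat_lit 1965921803663887840858920254258957462274683984020198908052105203113114485782471508359⟩
/-- record -/
def r17o_16 : Rc := ⟨nat_lit 17, nat_lit 2, nat_lit 1, nat_lit 16, nat_lit 8, nat_lit 457726838921071119841090544666830257185316647665652796613830977677456113935⟩
/-- record -/
def r17o_17 : Rc := ⟨nat_lit 17, nat_lit 2, nat_lit 4, nat_lit 16, nat_lit 8, nat_lit 452347465893643036926311179865491428812917240269567176579200259739250589991⟩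
/-- record -/
def r17o_18 : Rc := ⟨nat_lit 17, nat_lit 2, nat_lit 5, nat_lit 16, nat_lit 8, nat_lit 480633410369087474862374885365179024737605953741050035615030036949178319151⟩
/-- record -/
def r17o_19 : Rc := ⟨nat_lit 17, nat_lit 2, nat_lit 6, nat_lit 16, nat_lit 8, nat_lit 478880636080131857325753321381115857294415500026956681944647582063815688503⟩
/-- record -/
def r17o_20 : Rc := ⟨nat_lit 17, nat_lit 2, nat_lit 11, nat_lit 16, nat_lit 8, nat_lit 469996255995917843723444661632242294656750688750176163301654535389642948959⟩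
/-- record -/
def r17o_21 : Rc := ⟨nat_lit 17, nat_lit 2, nat_lit 12, nat_lit 16, nat_lit 8, nat_lit 468245315716792370281243840748655616613805627293355891191239273378531246439⟩
/-- record -/
def r17o_22 : Rc := ⟨nat_lit 17, nat_lit 2, nat_lit 13, nat_lit 16, nat_lit 8, nat_lit 466490707417980062834476191690425297259001022795277418896840198714337067375⟩
/-- record -/
def r17o_23 : Rc := ⟨nat_lit 17, nat_lit 2, nat_lit 16, nat_lit 16, nat_lit 8, nat_lit 461233464631482871045976372825497834830370193224584459305489862146550399367⟩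
/-- record -/
def r17o_24 : Rc := ⟨nat_lit 17, nat_lit 3, nat_lit 1, nat_lit 16, nat_lit 8, nat_lit 461233464632298749922180504359585556287560833655385956332262037812651557135⟩
/-- record -/
def r17o_25 : Rc := ⟨nat_lit 17, nat_lit 3, nat_lit 4, nat_lit 16, nat_lit 8, nat_lit 455876119149144182836674956468189698575193382315877242546647572590339817767⟩
/-- record -/
def r17o_26 : Rc := ⟨nat_lit 17, nat_lit 3, nat_lit 5, nat_lit 16, nat_lit 8, nat_lit 454129194637113667564488661352696225437301851039754319778551623963998748975⟩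
/-- record -/
def r17o_27 : Rc := ⟨nat_lit 17, nat_lit 3, nat_lit 6, nat_lit 16, nat_lit 8, nat_lit 452381894272917733855581223414418716914129133030817944651445076964634132791⟩
/-- record -/
def r17o_28 : Rc := ⟨nat_lit 17, nat_lit 3, nat_lit 11, nat_lit 16, nat_lit 8, nat_lit 473572412672120112365407363745306251348402583185424265388645187117258572127⟩
/-- record -/
def r17o_29 : Rc := ⟨nat_lit 17, nat_lit 3, nat_lit 12, nat_lit 16, nat_lit 8, nat_lit 471824356581544126520840966842536575917656407792579475649854264489462727015⟩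
/-- record -/
def r17o_30 : Rc := ⟨nat_lit 17, nat_lit 3, nat_lit 13, nat_lit 16, nat_lit 8, nat_lit 470079751160949788270190466410422690099967089027772953933115794564366270831⟩
/-- record -/
def r17o_31 : Rc := ⟨nat_lit 17, nat_lit 3, nat_lit 16, nat_lit 16, nat_lit 8, nat_lit 464723186349585680704298891808388977812820393130206989521214981073248715143⟩
/-- record -/
def r17o_32 : Rc := ⟨nat_lit 17, nat_lit 4, nat_lit 1, nat_lit 16, nat_lit 3, nat_lit 317976507504375457319551247⟩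
/-- record -/
def r17o_33 : Rc := ⟨nat_lit 17, nat_lit 4, nat_lit 4, nat_lit 16, nat_lit 1, nat_lit 17039655⟩
/-- record -/
def r17o_34 : Rc := ⟨nat_lit 17, nat_lit 4, nat_lit 5, nat_lit 16, nat_lit 3, nat_lit 313136045254176175154331951⟩
/-- record -/
def r17o_35 : Rc := ⟨nat_lit 17, nat_lit 4, nat_lit 6, nat_lit 16, nat_lit 3, nat_lit 311946063880437223959953719⟩
/-- record -/
def r17o_36 : Rc := ⟨nat_lit 17, nat_lit 4, nat_lit 11, nat_lit 16, nat_lit 3, nat_lit 326467249158002179064922463⟩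
/-- record -/
def r17o_37 : Rc := ⟨nat_lit 17, nat_lit 4, nat_lit 12, nat_lit 16, nat_lit 3, nat_lit 325277194789920471744512359⟩
/-- record -/
def r17o_38 : Rc := ⟨nat_lit 17, nat_lit 4, nat_lit 13, nat_lit 16, nat_lit 3, nat_lit 324006951272428883051086191⟩
/-- record -/
def r17o_39 : Rc := ⟨nat_lit 17, nat_lit 4, nat_lit 16, nat_lit 16, nat_lit 3, nat_lit 320436805462006343077462407⟩
/-- record -/
def r17o_40 : Rc := ⟨nat_lit 17, nat_lit 5, nat_lit 1, nat_lit 16, nat_lit 9, nat_lit 2011414427650925552451262575590231472572695311998968534277146515670655117935968846095⟩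
/-- record -/
def r17o_41 : Rc := ⟨nat_lit 17, nat_lit 5, nat_lit 4, nat_lit 16, nat_lit 9, nat_lit 1988592615592333149899667173243711437335187413005077654727991744099358906496867107111⟩
/-- record -/
def r17o_42 : Rc := ⟨nat_lit 17, nat_lit 5, nat_lit 5, nat_lit 16, nat_lit 1, nat_lit 17105199⟩
/-- record -/
def r17o_43 : Rc := ⟨nat_lit 17, nat_lit 5, nat_lit 6, nat_lit 16, nat_lit 9, nat_lit 1973212762492418128450517368969374858989026254718011473272464391425912787218154783031⟩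
/-- record -/
def r17o_44 : Rc := ⟨nat_lit 17, nat_lit 5, nat_lit 11, nat_lit 16, nat_lit 9, nat_lit 2064506607216747014608488313193315654986581487716706785808603999731967706857653076319⟩
/-- record -/
def r17o_45 : Rc := ⟨nat_lit 17, nat_lit 5, nat_lit 12, nat_lit 16, nat_lit 9, nat_lit 2056571837617453815099879120946800525343386034489390219250272747435587951415821861223⟩
/-- record -/
def r17o_46 : Rc := ⟨nat_lit 17, nat_lit 5, nat_lit 13, nat_lit 16, nat_lit 9, nat_lit 2049118530602914832138827538018187189414182200335120214790627233833645865654045966703⟩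
/-- record -/
def r17o_47 : Rc := ⟨nat_lit 17, nat_lit 5, nat_lit 16, nat_lit 16, nat_lit 9, nat_lit 2026300079221718209947968352632813111892233913428845649022480308941237567104297730439⟩
/-- record -/
def r17o_48 : Rc := ⟨nat_lit 17, nat_lit 6, nat_lit 1, nat_lit 16, nat_lit 9, nat_lit 2026300079225182669559682710425806877576777683770819246674753157552807827241747677455⟩
/-- record -/
def r17o_49 : Rc := ⟨nat_lit 17, nat_lit 6, nat_lit 4, nat_lit 16, nat_lit 9, nat_lit 2003562332232180168126786268906029637884239764691255961338946483025107824020604322087⟩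
/-- record -/
def r17o_50 : Rc := ⟨nat_lit 17, nat_lit 6, nat_lit 5, nat_lit 16, nat_lit 9, nat_lit 1996146546844082521044324159064860872296777429489501905909131197838351272272596369711⟩
/-- record -/
def r17o_51 : Rc := ⟨nat_lit 17, nat_lit 6, nat_lit 6, nat_lit 16, nat_lit 1, nat_lit 17170743⟩
/-- record -/
def r17o_52 : Rc := ⟨nat_lit 17, nat_lit 6, nat_lit 11, nat_lit 16, nat_lit 9, nat_lit 1950682983491232052965928696549301937403434086516315788869262770571767680799745966431⟩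
/-- record -/
def r17o_53 : Rc := ⟨nat_lit 17, nat_lit 6, nat_lit 12, nat_lit 16, nat_lit 9, nat_lit 1942758402245872295587076517245503917202217294435766746827349151120800339641055838567⟩
/-- record -/
def r17o_54 : Rc := ⟨nat_lit 17, nat_lit 6, nat_lit 13, nat_lit 16, nat_lit 9, nat_lit 2064367189488213415001515077896316644155259642204312756341466115285970222510221623663⟩
/-- record -/
def r17o_55 : Rc := ⟨nat_lit 17, nat_lit 6, nat_lit 16, nat_lit 16, nat_lit 9, nat_lit 2041619606487636398111287930953608990222718556369816116111574393024294610300795093383⟩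
/-- record -/
def r17o_56 : Rc := ⟨nat_lit 17, nat_lit 7, nat_lit 1, nat_lit 16, nat_lit 4, nat_lit 1396932821929460312759012559123710223⟩
/-- record -/
def r17o_57 : Rc := ⟨nat_lit 17, nat_lit 7, nat_lit 4, nat_lit 16, nat_lit 4, nat_lit 1381440229803259519734720598561259815⟩
/-- record -/
def r17o_58 : Rc := ⟨nat_lit 17, nat_lit 7, nat_lit 5, nat_lit 16, nat_lit 4, nat_lit 1376049308572314961471462217085157679⟩
/-- record -/
def r17o_59 : Rc := ⟨nat_lit 17, nat_lit 7, nat_lit 6, nat_lit 16, nat_lit 4, nat_lit 1370995978205839339225639494487507255⟩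
/-- record -/
def r17o_60 : Rc := ⟨nat_lit 17, nat_lit 7, nat_lit 11, nat_lit 16, nat_lit 4, nat_lit 1345056597328944143446190426776338783⟩
/-- record -/
def r17o_61 : Rc := ⟨nat_lit 17, nat_lit 7, nat_lit 12, nat_lit 16, nat_lit 4, nat_lit 1339654187088398133955559401989079399⟩
/-- record -/
def r17o_62 : Rc := ⟨nat_lit 17, nat_lit 7, nat_lit 13, nat_lit 16, nat_lit 4, nat_lit 1334604657211142924581648133211881839⟩
/-- record -/
def r17o_63 : Rc := ⟨nat_lit 17, nat_lit 7, nat_lit 16, nat_lit 16, nat_lit 4, nat_lit 1407382380256671312365413165834436999⟩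
/-- record -/
def r17o_64 : Rc := ⟨nat_lit 17, nat_lit 8, nat_lit 1, nat_lit 16, nat_lit 17, nat_lit 238171781847159465286112435906806491732620862235699799751856110463033403547461498228822147545799119740903240402960901269463468155989242236123419676708656606413071⟩
/-- record -/
def r17o_65 : Rc := ⟨nat_lit 17, nat_lit 8, nat_lit 4, nat_lit 16, nat_lit 17, nat_lit 235500799127402497921053613172312232209417468671378631559508992678775840621930735872510195834140944334922917592706569170616066853153708196405281156858901187264807⟩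
/-- record -/
def r17o_66 : Rc := ⟨nat_lit 17, nat_lit 8, nat_lit 5, nat_lit 16, nat_lit 17, nat_lit 234649216034153567135690577097810456146145617229784825943431543189103211687158669538925462649369051349839224832581655676974334975410331495831391236715292442034479⟩
/-- record -/
def r17o_67 : Rc := ⟨nat_lit 17, nat_lit 8, nat_lit 6, nat_lit 16, nat_lit 17, nat_lit 233740059131342450306440212273408088676111915090643829993343654798512560478214075806241475139721522357441813075534675295855678510245728862172157750880562410029367⟩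
/-- record -/
def r17o_68 : Rc := ⟨nat_lit 17, nat_lit 8, nat_lit 11, nat_lit 16, nat_lit 17, nat_lit 229367384452795249761636860385412849735316698600236769016411243752081364763295843144445408787040710664473012785519788619582548298044544929223371224019486519263583⟩
/-- record -/
def r17o_69 : Rc := ⟨nat_lit 17, nat_lit 8, nat_lit 12, nat_lit 16, nat_lit 17, nat_lit 228516779761063905978070620812370123909443679850487875229466722019057547821312003271579421812884268068232663449910469108503993673099805911957862566918000342729063⟩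
/-- record -/
def r17o_70 : Rc := ⟨nat_lit 17, nat_lit 8, nat_lit 13, nat_lit 16, nat_lit 17, nat_lit 227607475058529406907463459986515394764015006942630963355860876510710937755669966155822244619066906013091035787791985276802217650385173553764449656514859062067567⟩
/-- record -/
def r17o_71 : Rc := ⟨nat_lit 17, nat_lit 8, nat_lit 16, nat_lit 16, nat_lit 17, nat_lit 224993770705791763186924752716979451361935626082746471943456026471657723984569461539552352171693811118750898863196480911464589527477142392661598921207025547346311⟩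
/-- record -/
def r17o_72 : Rc := ⟨nat_lit 17, nat_lit 9, nat_lit 1, nat_lit 16, nat_lit 17, nat_lit 224993770702722934518176602049736601055000778975180311020096982368359210837478583914136921861839883691632129439333594964307997157810772065548175023854446000013583⟩
/-- record -/
def r17o_73 : Rc := ⟨nat_lit 17, nat_lit 9, nat_lit 4, nat_lit 16, nat_lit 17, nat_lit 237271715755037220233472078882649976011128942637030794494562534421721288444047501236839021857404089476721386237251419772742853031169693927528053374735161739182375⟩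
/-- record -/
def r17o_74 : Rc := ⟨nat_lit 17, nat_lit 9, nat_lit 5, nat_lit 16, nat_lit 17, nat_lit 236424061305614093311229400215856983691447305907617836794041976186221025491441388364796047388842639259395497562790532714758168948563503698067925870711175117078831⟩
/-- record -/
def r17o_75 : Rc := ⟨nat_lit 17, nat_lit 9, nat_lit 6, nat_lit 16, nat_lit 17, nat_lit 235518564943457882905988863269225798157743936982260146739816793014674350779063591781515695416681701893957843616718793825782254731095893001567519130859664465854775⟩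
/-- record -/
def r17o_76 : Rc := ⟨nat_lit 17, nat_lit 9, nat_lit 11, nat_lit 16, nat_lit 17, nat_lit 231104727666073163683104038778041622477327395246831371158735544589757238647409016661908966898389869335813139691770889213063233500984518148346623813428594552275295⟩
/-- record -/
def r17o_77 : Rc := ⟨nat_lit 17, nat_lit 9, nat_lit 12, nat_lit 16, nat_lit 17, nat_lit 230257354465961715395466817504090262144690500181149743424753316994891778648743982349948240982337978173286538048009760632288674731659592597973192024961888667042151⟩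
/-- record -/
def r17o_78 : Rc := ⟨nat_lit 17, nat_lit 9, nat_lit 13, nat_lit 16, nat_lit 17, nat_lit 229350905784664244170739324656307048653756116442524641688512742253446357970941427440643214226098903179263745592716126006691320772566165938140017673951730461376879⟩
/-- record -/
def r17o_79 : Rc := ⟨nat_lit 17, nat_lit 9, nat_lit 16, nat_lit 16, nat_lit 17, nat_lit 226748651278852776579911581422677923461642297571954305329060454193910330820521705053207460140845873711497283773540442704914076576914628621885476483373387620548999⟩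
/-- record -/
def r17o_80 : Rc := ⟨nat_lit 17, nat_lit 10, nat_lit 1, nat_lit 16, nat_lit 4, nat_lit 1339881887278881952834504575506514191⟩
/-- record -/
def r17o_81 : Rc := ⟨nat_lit 17, nat_lit 10, nat_lit 4, nat_lit 16, nat_lit 4, nat_lit 1412497349809603308749404464855908647⟩
/-- record -/
def r17o_82 : Rc := ⟨nat_lit 17, nat_lit 10, nat_lit 5, nat_lit 16, nat_lit 4, nat_lit 1407163553617970944309084681209708847⟩
/-- record -/
def r17o_83 : Rc := ⟨nat_lit 17, nat_lit 10, nat_lit 6, nat_lit 16, nat_lit 4, nat_lit 1402166158363262321228694537166520631⟩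
/-- record -/
def r17o_84 : Rc := ⟨nat_lit 17, nat_lit 10, nat_lit 11, nat_lit 16, nat_lit 4, nat_lit 1376186373599355485051328324851925343⟩
/-- record -/
def r17o_85 : Rc := ⟨nat_lit 17, nat_lit 10, nat_lit 12, nat_lit 16, nat_lit 4, nat_lit 1370848771966742549444654500361797991⟩
/-- record -/
def r17o_86 : Rc := ⟨nat_lit 17, nat_lit 10, nat_lit 13, nat_lit 16, nat_lit 4, nat_lit 1365863973059000517931947324078883183⟩
/-- record -/
def r17o_87 : Rc := ⟨nat_lit 17, nat_lit 10, nat_lit 16, nat_lit 16, nat_lit 4, nat_lit 1350209122274902752399206145279918471⟩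
/-- record -/
def r17o_88 : Rc := ⟨nat_lit 17, nat_lit 11, nat_lit 1, nat_lit 16, nat_lit 9, nat_lit 1973332842947412294263793680846847699327953083864453162441115056430811342805636546831⟩
/-- record -/
def r17o_89 : Rc := ⟨nat_lit 17, nat_lit 11, nat_lit 4, nat_lit 16, nat_lit 9, nat_lit 1950526891687644162533110850633738934536501087688853786937013499626913342335731630375⟩
/-- record -/
def r17o_90 : Rc := ⟨nat_lit 17, nat_lit 11, nat_lit 5, nat_lit 16, nat_lit 9, nat_lit 1942758402233506738608523511573377046912017914350906724498415153915710153881622479151⟩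
/-- record -/
def r17o_91 : Rc := ⟨nat_lit 17, nat_lit 11, nat_lit 6, nat_lit 16, nat_lit 9, nat_lit 2064506607238018088797222077961214581025595594156218424359184161937260961449497723191⟩
/-- record -/
def r17o_92 : Rc := ⟨nat_lit 17, nat_lit 11, nat_lit 11, nat_lit 16, nat_lit 1, nat_lit 17498463⟩
/-- record -/
def r17o_93 : Rc := ⟨nat_lit 17, nat_lit 11, nat_lit 12, nat_lit 16, nat_lit 9, nat_lit 2018924240296832707609101649187020942365018817765526487798340493919831022324075463015⟩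
/-- record -/
def r17o_94 : Rc := ⟨nat_lit 17, nat_lit 11, nat_lit 13, nat_lit 16, nat_lit 9, nat_lit 2011153661614945900318832603137641934529438249783803889028470043360044053277717627247⟩
/-- record -/
def r17o_95 : Rc := ⟨nat_lit 17, nat_lit 11, nat_lit 16, nat_lit 16, nat_lit 9, nat_lit 1988356401106619239434589212793861154719121315684970979792557666611764454402233991559⟩
/-- record -/
def r17o_96 : Rc := ⟨nat_lit 17, nat_lit 12, nat_lit 1, nat_lit 16, nat_lit 9, nat_lit 1988356401110221736711323688178536143585270330187741897926354449896570153999146221839⟩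
/-- record -/
def r17o_97 : Rc := ⟨nat_lit 17, nat_lit 12, nat_lit 4, nat_lit 16, nat_lit 9, nat_lit 1965656519019139142473427863815138151787606592724082082796707408773625956544874283303⟩
/-- record -/
def r17o_98 : Rc := ⟨nat_lit 17, nat_lit 12, nat_lit 5, nat_lit 16, nat_lit 9, nat_lit 1957906787874572650411187434209158842734767672164574433141399126360611409021762863407⟩
/-- record -/
def r17o_99 : Rc := ⟨nat_lit 17, nat_lit 12, nat_lit 6, nat_lit 16, nat_lit 9, nat_lit 1950682983512364876969437869564948129751378399802486523215389625444906838664430354743⟩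
/-- record -/
def r17o_100 : Rc := ⟨nat_lit 17, nat_lit 12, nat_lit 11, nat_lit 16, nat_lit 9, nat_lit 2041503231354762830235887961302302070298755423005651736390406579197048919784459796831⟩
/-- record -/
def r17o_101 : Rc := ⟨nat_lit 17, nat_lit 12, nat_lit 12, nat_lit 16, nat_lit 1, nat_lit 17564007⟩
/-- record -/
def r17o_102 : Rc := ⟨nat_lit 17, nat_lit 12, nat_lit 13, nat_lit 16, nat_lit 9, nat_lit 2026538146423190698921658920552228043190070725524370012712449891557002311093256520047⟩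
/-- record -/
def r17o_103 : Rc := ⟨nat_lit 17, nat_lit 12, nat_lit 16, nat_lit 16, nat_lit 9, nat_lit 2003834214329930924192811359333520709031446565905039327484836939061223442423984685447⟩
/-- record -/
def r17o_104 : Rc := ⟨nat_lit 17, nat_lit 13, nat_lit 1, nat_lit 16, nat_lit 3, nat_lit 319229207810498261420146959⟩
/-- record -/
def r17o_105 : Rc := ⟨nat_lit 17, nat_lit 13, nat_lit 4, nat_lit 16, nat_lit 3, nat_lit 315545798703232820187496743⟩
/-- record -/
def r17o_106 : Rc := ⟨nat_lit 17, nat_lit 13, nat_lit 5, nat_lit 16, nat_lit 3, nat_lit 314398190581495081812164911⟩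
/-- record -/
def r17o_107 : Rc := ⟨nat_lit 17, nat_lit 13, nat_lit 6, nat_lit 16, nat_lit 3, nat_lit 313170393310347462063817015⟩
/-- record -/
def r17o_108 : Rc := ⟨nat_lit 17, nat_lit 13, nat_lit 11, nat_lit 16, nat_lit 3, nat_lit 327663427703534431786172767⟩
/-- record -/
def r17o_109 : Rc := ⟨nat_lit 17, nat_lit 13, nat_lit 12, nat_lit 16, nat_lit 3, nat_lit 326435557438044055911792999⟩
/-- record -/
def r17o_110 : Rc := ⟨nat_lit 17, nat_lit 13, nat_lit 13, nat_lit 16, nat_lit 1, nat_lit 17629551⟩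
/-- record -/
def r17o_111 : Rc := ⟨nat_lit 17, nat_lit 13, nat_lit 16, nat_lit 16, nat_lit 3, nat_lit 321604613131326029801980295⟩
/-- record -/
def r17o_112 : Rc := ⟨nat_lit 17, nat_lit 14, nat_lit 1, nat_lit 16, nat_lit 8, nat_lit 470025668665429009434477335440049719385886994096335068648234881522121900303⟩
/-- record -/
def r17o_113 : Rc := ⟨nat_lit 17, nat_lit 14, nat_lit 4, nat_lit 16, nat_lit 8, nat_lit 464779425640839630723652639008180422660550878934441567853723085751284138279⟩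
/-- record -/
def r17o_114 : Rc := ⟨nat_lit 17, nat_lit 14, nat_lit 5, nat_lit 16, nat_lit 8, nat_lit 462993356454132046574016966509606425560372140632015598472742484071009288495⟩
/-- record -/
def r17o_115 : Rc := ⟨nat_lit 17, nat_lit 14, nat_lit 6, nat_lit 16, nat_lit 8, nat_lit 461203836176248372370511761317159704588464566010462057938578448488887353655⟩
/-- record -/
def r17o_116 : Rc := ⟨nat_lit 17, nat_lit 14, nat_lit 11, nat_lit 16, nat_lit 8, nat_lit 452381894274975267371675274999353673727076034585842044139431322669049119071⟩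
/-- record -/
def r17o_117 : Rc := ⟨nat_lit 17, nat_lit 14, nat_lit 12, nat_lit 16, nat_lit 8, nat_lit 480633410371972882648972804871925688726593444927208164582816608269181387111⟩
/-- record -/
def r17o_118 : Rc := ⟨nat_lit 17, nat_lit 14, nat_lit 13, nat_lit 16, nat_lit 8, nat_lit 478844915307165457636385038606973868522765467000148463005703029831896990063⟩
/-- record -/
def r17o_119 : Rc := ⟨nat_lit 17, nat_lit 14, nat_lit 16, nat_lit 16, nat_lit 8, nat_lit 473598158893381862089612969118054698530164105263351630530013647684846485895⟩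
/-- record -/
def r17o_120 : Rc := ⟨nat_lit 17, nat_lit 15, nat_lit 1, nat_lit 16, nat_lit 8, nat_lit 473598158894210583866930846440476522206541401134005549794960443604260159759⟩
/-- record -/
def r17o_121 : Rc := ⟨nat_lit 17, nat_lit 15, nat_lit 4, nat_lit 16, nat_lit 8, nat_lit 468258201516953672763041793511922281512166475503533225742381682960502096167⟩
/-- record -/
def r17o_122 : Rc := ⟨nat_lit 17, nat_lit 15, nat_lit 5, nat_lit 16, nat_lit 8, nat_lit 466475664819617533197725107786687642661389919929684198259075632229335236911⟩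
/-- record -/
def r17o_123 : Rc := ⟨nat_lit 17, nat_lit 15, nat_lit 6, nat_lit 16, nat_lit 8, nat_lit 464697224552425358863084222552161985275922922462950563786812380083843891511⟩
/-- record -/
def r17o_124 : Rc := ⟨nat_lit 17, nat_lit 15, nat_lit 11, nat_lit 16, nat_lit 8, nat_lit 455909683122264453417259790505018189285619008365913157175183149809678352735⟩
/-- record -/
def r17o_125 : Rc := ⟨nat_lit 17, nat_lit 15, nat_lit 12, nat_lit 16, nat_lit 8, nat_lit 454129194639986220091928805311937984407064686590491892953825629904896262503⟩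
/-- record -/
def r17o_126 : Rc := ⟨nat_lit 17, nat_lit 15, nat_lit 13, nat_lit 16, nat_lit 8, nat_lit 452347465897345572829672080668811780073871972385979621535893489801317122415⟩
/-- record -/
def r17o_127 : Rc := ⟨nat_lit 17, nat_lit 15, nat_lit 16, nat_lit 16, nat_lit 8, nat_lit 477159784159561218579520738850506657402793368209148504454128359007650316679⟩
/-- record -/
def r17o_128 : Rc := ⟨nat_lit 17, nat_lit 16, nat_lit 1, nat_lit 16, nat_lit 9, nat_lit 2049385667935223947314167127500067355722504525864845809472878110722982933347946266895⟩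
/-- record -/
def r17o_129 : Rc := ⟨nat_lit 17, nat_lit 16, nat_lit 4, nat_lit 16, nat_lit 9, nat_lit 2026538146407283872490187274712040722357483314346832329363322465050714684122309329191⟩
/-- record -/
def r17o_130 : Rc := ⟨nat_lit 17, nat_lit 16, nat_lit 5, nat_lit 16, nat_lit 9, nat_lit 2018924240284538809643054450404233104849537706726811331240620597128356999902005625135⟩
/-- record -/
def r17o_131 : Rc := ⟨nat_lit 17, nat_lit 16, nat_lit 6, nat_lit 16, nat_lit 9, nat_lit 2011298638279127760556279337172820628560229487150115256249488623827156501796072325431⟩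
/-- record -/
def r17o_132 : Rc := ⟨nat_lit 17, nat_lit 16, nat_lit 11, nat_lit 16, nat_lit 9, nat_lit 1973212762471224484068631261211926618698296365308212009343585826275007208204410749279⟩
/-- record -/
def r17o_133 : Rc := ⟨nat_lit 17, nat_lit 16, nat_lit 12, nat_lit 16, nat_lit 9, nat_lit 1965586813089543808143162029586934343865865192357310923720647523785390803943674347879⟩
/-- record -/
def r17o_134 : Rc := ⟨nat_lit 17, nat_lit 16, nat_lit 13, nat_lit 16, nat_lit 9, nat_lit 1957973022758887390337102592820752308400185013087029745446781523238695421295981298031⟩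
/-- record -/
def r17o_135 : Rc := ⟨nat_lit 17, nat_lit 16, nat_lit 16, nat_lit 16, nat_lit 1, nat_lit 17826183⟩
/-- records -/
def F17o : List Rc := [r17o_0, r17o_1, r17o_2, r17o_3, r17o_4, r17o_5,
  r17o_6, r17o_7, r17o_8, r17o_9, r17o_10, r17o_11,
  r17o_12, r17o_13, r17o_14, r17o_15, r17o_16, r17o_17,
  r17o_18, r17o_19, r17o_20, r17o_21, r17o_22, r17o_23,
  r17o_24, r17o_25, r17o_26, r17o_27, r17o_28, r17o_29,
  r17o_30, r17o_31, r17o_32, r17o_33, r17o_34, r17o_35,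
  r17o_36, r17o_37, r17o_38, r17o_39, r17o_40, r17o_41,
  r17o_42, r17o_43, r17o_44, r17o_45, r17o_46, r17o_47,
  r17o_48, r17o_49, r17o_50, r17o_51, r17o_52, r17o_53,
  r17o_54, r17o_55, r17o_56, r17o_57, r17o_58, r17o_59,
  r17o_60, r17o_61, r17o_62, r17o_63, r17o_64, r17o_65,
  r17o_66, r17o_67, r17o_68, r17o_69, r17o_70, r17o_71,
  r17o_72, r17o_73, r17o_74, r17o_75, r17o_76, r17o_77,
  r17o_78, r17o_79, r17o_80, r17o_81, r17o_82, r17o_83,
  r17o_84, r17o_85, r17o_86, r17o_87, r17o_88, r17o_89,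
  r17o_90, r17o_91, r17o_92, r17o_93, r17o_94, r17o_95,
  r17o_96, r17o_97, r17o_98, r17o_99, r17o_100, r17o_101,
  r17o_102, r17o_103, r17o_104, r17o_105, r17o_106, r17o_107,
  r17o_108, r17o_109, r17o_110, r17o_111, r17o_112, r17o_113,
  r17o_114, r17o_115, r17o_116, r17o_117, r17o_118, r17o_119,
  r17o_120, r17o_121, r17o_122, r17o_123, r17o_124, r17o_125,
  r17o_126, r17o_127, r17o_128, r17o_129, r17o_130, r17o_131,
  r17o_132, r17o_133, r17o_134, r17o_135]

/-- record -/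
def r19o_0 : Rc := ⟨nat_lit 19, nat_lit 0, nat_lit 2, nat_lit 18, nat_lit 2, nat_lit 76844459660280090⟩
/-- record -/
def r19o_1 : Rc := ⟨nat_lit 19, nat_lit 0, nat_lit 3, nat_lit 18, nat_lit 2, nat_lit 76562946028929315⟩
/-- record -/
def r19o_2 : Rc := ⟨nat_lit 19, nat_lit 0, nat_lit 5, nat_lit 18, nat_lit 2, nat_lit 75999918766227765⟩
/-- record -/
def r19o_3 : Rc := ⟨nat_lit 19, nat_lit 0, nat_lit 6, nat_lit 18, nat_lit 2, nat_lit 75718405134876990⟩
/-- record -/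
def r19o_4 : Rc := ⟨nat_lit 19, nat_lit 0, nat_lit 7, nat_lit 18, nat_lit 2, nat_lit 75436891503526215⟩
/-- record -/
def r19o_5 : Rc := ⟨nat_lit 19, nat_lit 0, nat_lit 12, nat_lit 18, nat_lit 2, nat_lit 74029323346772340⟩
/-- record -/
def r19o_6 : Rc := ⟨nat_lit 19, nat_lit 0, nat_lit 13, nat_lit 18, nat_lit 2, nat_lit 73747809715421565⟩
/-- record -/
def r19o_7 : Rc := ⟨nat_lit 19, nat_lit 0, nat_lit 14, nat_lit 18, nat_lit 2, nat_lit 73466296084070790⟩
/-- record -/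
def r19o_8 : Rc := ⟨nat_lit 19, nat_lit 0, nat_lit 16, nat_lit 18, nat_lit 2, nat_lit 72903268821369240⟩
/-- record -/
def r19o_9 : Rc := ⟨nat_lit 19, nat_lit 0, nat_lit 17, nat_lit 18, nat_lit 2, nat_lit 72621755190018465⟩
/-- record -/
def r19o_10 : Rc := ⟨nat_lit 19, nat_lit 1, nat_lit 2, nat_lit 18, nat_lit 18, nat_lit 966164155017519248287602039230048674492710730856402434170550630531415328426410724988102479640933285194399999754222364032423251865095741828447517207969017199502874810384666⟩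
/-- record -/
def r19o_11 : Rc := ⟨nat_lit 19, nat_lit 1, nat_lit 3, nat_lit 18, nat_lit 18, nat_lit 1034113100696109345702790357001804967942461844122414181156261928138398151010682622802434975030529006858028428662745877660587926063325423229857341204667004737148607564808483⟩
/-- record -/
def r19o_12 : Rc := ⟨nat_lit 19, nat_lit 1, nat_lit 5, nat_lit 18, nat_lit 18, nat_lit 1026595521693955813061111688154209793056622730418505023083107684187763007873785286873864734237149811047012305289618319823534278912905583534189740955397273312702080928252213⟩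
/-- record -/
def r19o_13 : Rc := ⟨nat_lit 19, nat_lit 1, nat_lit 6, nat_lit 18, nat_lit 18, nat_lit 1022838549862570810163364803845537447490328624981294667706202546757299252410414377670093759160762845391214457592746279919505015540861059258397231763500439387648516858183998⟩
/-- record -/
def r19o_14 : Rc := ⟨nat_lit 19, nat_lit 1, nat_lit 7, nat_lit 18, nat_lit 18, nat_lit 1019074318355424549755832250273219624218385933660382213029297716847270607156051124886944539435245800738374968801659469101264600305554299064241242819325418270468261531812167⟩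
/-- record -/
def r19o_15 : Rc := ⟨nat_lit 19, nat_lit 1, nat_lit 12, nat_lit 18, nat_lit 18, nat_lit 1000285068510884661483634796072181687339188859247672106930608916016334480387065340395505884962427913115188949557453404880382940103011985968648031387783888226024981686649204⟩
/-- record -/
def r19o_16 : Rc := ⟨nat_lit 19, nat_lit 1, nat_lit 13, nat_lit 18, nat_lit 18, nat_lit 996520664262145755362539358748495655565869648383675336946678207083500156168743279022288364247852169577162048904155345510165185811486310618092135267944731551446862058553725⟩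
/-- record -/
def r19o_17 : Rc := ⟨nat_lit 19, nat_lit 1, nat_lit 14, nat_lit 18, nat_lit 18, nat_lit 992763750016857094423698272060484702518711313132907808961113626458184190141528863315621937671931257419627088827354073097636672039391952292052639008854405492085898148184454⟩
/-- record -/
def r19o_18 : Rc := ⟨nat_lit 19, nat_lit 1, nat_lit 16, nat_lit 18, nat_lit 18, nat_lit 985246113428605906226806787972775378661904341650790387042114657420442623822817630544720841858584244324524992060603525103712142561514228281917458051043399774035640245551512⟩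
/-- record -/
def r19o_19 : Rc := ⟨nat_lit 19, nat_lit 1, nat_lit 17, nat_lit 18, nat_lit 18, nat_lit 981489945777183010640517179492361231883737509990535668168363049638054522029132831584209148202082262667304748760104948608420587718603291405676607552326336904043197457564065⟩
/-- record -/
def r19o_20 : Rc := ⟨nat_lit 19, nat_lit 2, nat_lit 2, nat_lit 18, nat_lit 1, nat_lit 16908570⟩
/-- record -/
def r19o_21 : Rc := ⟨nat_lit 19, nat_lit 2, nat_lit 3, nat_lit 18, nat_lit 20, nat_lit 17892592212210884610974444918407095428241040513668289421350914100288915244323916393197308305773470906429779136049885877795570694653948868894522570909002787785784780767973780734615439387328803⟩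
/-- record -/
def r19o_22 : Rc := ⟨nat_lit 19, nat_lit 2, nat_lit 5, nat_lit 18, nat_lit 20, nat_lit 19077130844192895097183124136821974179042613767854997695535586031811776376996887007084053777806495103069189081479010261495681679108891772924311270541892040981657446864033140264688504849891637⟩
/-- record -/
def r19o_23 : Rc := ⟨nat_lit 19, nat_lit 2, nat_lit 6, nat_lit 18, nat_lit 20, nat_lit 19008014944118121851608235990639027248416488926030916717226750208848195723635498855323438748503491960400958553617739196888052824868415758540590345594610342169040059388311119917969013444313406⟩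
/-- record -/
def r19o_24 : Rc := ⟨nat_lit 19, nat_lit 2, nat_lit 7, nat_lit 18, nat_lit 20, nat_lit 18939071066700027326868726005961603764321079465322623339226897225231051565465944419213110912114171478405286370472882158231744869461422829294372650295252923375155712229700062556077875628802375⟩
/-- record -/
def r19o_25 : Rc := ⟨nat_lit 19, nat_lit 2, nat_lit 12, nat_lit 18, nat_lit 20, nat_lit 18588515754818432211225008223760503084106309031147695393073564594137027211400002997663338163677545284621216966732943319021280376960606986086346905290594503620378303571720141421324396724486516⟩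
/-- record -/
def r19o_26 : Rc := ⟨nat_lit 19, nat_lit 2, nat_lit 13, nat_lit 18, nat_lit 20, nat_lit 18519415743529349311878477584652015915431407460807532522836353421903063435119142170002664050689618212343334000478534936090720012194542746334374948257015592939672384626437700057301978652148093⟩
/-- record -/
def r19o_27 : Rc := ⟨nat_lit 19, nat_lit 2, nat_lit 14, nat_lit 18, nat_lit 20, nat_lit 18450328545913175796706146180165670858757964633494062332465090372773994978548396684166910918763559863385189906329430286302749085603091507041249417903096475476420495412466687946201485286441350⟩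
/-- record -/
def r19o_28 : Rc := ⟨nat_lit 19, nat_lit 2, nat_lit 16, nat_lit 18, nat_lit 20, nat_lit 18312215613223111569367405881942756529369044538794694669998682964862405383612555378411216020501063114272781951436396377354975548937030777457400833078754446980030844989678888286874250519773592⟩
/-- record -/
def r19o_29 : Rc := ⟨nat_lit 19, nat_lit 2, nat_lit 17, nat_lit 18, nat_lit 20, nat_lit 18243100775731156126197566271428099500592880646359321696495613647204619692717954325171006124902762410370737134750142677161938098410234542619230117024749658680922268585682014209535715369353633⟩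
/-- record -/
def r19o_30 : Rc := ⟨nat_lit 19, nat_lit 3, nat_lit 2, nat_lit 18, nat_lit 20, nat_lit 18105293840735909402718341120395291513603661910706365874728545703819155396480205395201311052740363639406413124692852574544417746346809470291542903230243858653799518565363665614749539577757978⟩
/-- record -/
def r19o_31 : Rc := ⟨nat_lit 19, nat_lit 3, nat_lit 3, nat_lit 18, nat_lit 1, nat_lit 16974115⟩
/-- record -/
def r19o_32 : Rc := ⟨nat_lit 19, nat_lit 3, nat_lit 5, nat_lit 18, nat_lit 20, nat_lit 17893665102722634123616974331279256628556775569307932289298656495657645879849528434969099596965899009703852155101633710287191883172602203346962922572626138749470933653411917277357079238345013⟩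
/-- record -/
def r19o_33 : Rc := ⟨nat_lit 19, nat_lit 3, nat_lit 6, nat_lit 18, nat_lit 20, nat_lit 17824761595714495561612791578888543599549543133243014311246055836848524828237617899961721356086239867336664744503755965253928348664204277218004509395301282477467081179234121141711362148663614⟩
/-- record -/
def r19o_34 : Rc := ⟨nat_lit 19, nat_lit 3, nat_lit 7, nat_lit 18, nat_lit 20, nat_lit 19078841075236678113037841783311048236948241964177867300403667995102875402416954343154544157887653422497590608947715134953932739336409831251530212179732657156440574852923782308199976896233799⟩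
/-- record -/
def r19o_35 : Rc := ⟨nat_lit 19, nat_lit 3, nat_lit 12, nat_lit 18, nat_lit 20, nat_lit 18729621089945814664836225355372818315733734213327549849014415560220459002216840640795362150318837897159648488314500770003302675358926805651827002015726195592846455909480264108466536211808628⟩
/-- record -/
def r19o_36 : Rc := ⟨nat_lit 19, nat_lit 3, nat_lit 13, nat_lit 18, nat_lit 20, nat_lit 18660719707489631037429200320658205844282851769420906721647704239610348469236077123233663489704173474401468654208721083712778675060774046431879424246096009881492950354896082623002592582369661⟩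
/-- record -/
def r19o_37 : Rc := ⟨nat_lit 19, nat_lit 3, nat_lit 14, nat_lit 18, nat_lit 20, nat_lit 18591923552713430684085738390955290925358129769943529456663840672274779282190064394592162562652542887564167087091461528018713200580829057391962609963152177059831508936939601533406512633741702⟩
/-- record -/
def r19o_38 : Rc := ⟨nat_lit 19, nat_lit 3, nat_lit 16, nat_lit 18, nat_lit 20, nat_lit 18449270494117908036167221309338033819015164466085846838455900517820312007385344092503971423989564908868713930299806332204992542831202153051662393636699407286476719534333755261571305051259288⟩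
/-- record -/
def r19o_39 : Rc := ⟨nat_lit 19, nat_lit 3, nat_lit 17, nat_lit 18, nat_lit 20, nat_lit 18380462604544124695209453134135458986276185939484629358999447537849807498992181869360276962337434769177073086272800406841959422607624910319214892107200410664899523288110639490334806823207329⟩
/-- record -/
def r19o_40 : Rc := ⟨nat_lit 19, nat_lit 4, nat_lit 2, nat_lit 18, nat_lit 6, nat_lit 25099241641914149180098851343113465903270795787584536858⟩
/-- record -/
def r19o_41 : Rc := ⟨nat_lit 19, nat_lit 4, nat_lit 3, nat_lit 18, nat_lit 6, nat_lit 25004973313365087650061270078022280960988128362998464803⟩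
/-- record -/
def r19o_42 : Rc := ⟨nat_lit 19, nat_lit 4, nat_lit 5, nat_lit 18, nat_lit 6, nat_lit 24809310385721918625215996278788336376675863339844567349⟩
/-- record -/
def r19o_43 : Rc := ⟨nat_lit 19, nat_lit 4, nat_lit 6, nat_lit 18, nat_lit 6, nat_lit 24715056757779489440704712957816553574349248552652636478⟩
/-- record -/
def r19o_44 : Rc := ⟨nat_lit 19, nat_lit 4, nat_lit 7, nat_lit 18, nat_lit 6, nat_lit 24620623210902087892085223594809110017140272615618183495⟩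
/-- record -/
def r19o_45 : Rc := ⟨nat_lit 19, nat_lit 4, nat_lit 12, nat_lit 18, nat_lit 6, nat_lit 25962091787400844471307806148588316443461428128313508212⟩
/-- record -/
def r19o_46 : Rc := ⟨nat_lit 19, nat_lit 4, nat_lit 13, nat_lit 18, nat_lit 6, nat_lit 25867662722060508834193199626909377959300427960241947005⟩
/-- record -/
def r19o_47 : Rc := ⟨nat_lit 19, nat_lit 4, nat_lit 14, nat_lit 18, nat_lit 6, nat_lit 25766430321259354949808037865380771213728134885704335750⟩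
/-- record -/
def r19o_48 : Rc := ⟨nat_lit 19, nat_lit 4, nat_lit 16, nat_lit 18, nat_lit 6, nat_lit 25577656889454049925820797332953045305302031836807954840⟩
/-- record -/
def r19o_49 : Rc := ⟨nat_lit 19, nat_lit 4, nat_lit 17, nat_lit 18, nat_lit 6, nat_lit 25483447072239894828705531870518163406150177301724201377⟩
/-- record -/
def r19o_50 : Rc := ⟨nat_lit 19, nat_lit 5, nat_lit 2, nat_lit 18, nat_lit 20, nat_lit 18380462604608501820090590029279408291479755964477577781198035523824602589138995413509152299176987248632636669112113294642633219382657858676174288590146427755679043900184720885696943647490330⟩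
/-- record -/
def r19o_51 : Rc := ⟨nat_lit 19, nat_lit 5, nat_lit 3, nat_lit 18, nat_lit 20, nat_lit 18312215613320437577930733699123053375165390238927277983380751644768407153647324238999333568948080894420658520700885138912691746799021891692760599738014959141613972595313102167324602036060451⟩
/-- record -/
def r19o_52 : Rc := ⟨nat_lit 19, nat_lit 5, nat_lit 5, nat_lit 18, nat_lit 1, nat_lit 17105205⟩
/-- record -/
def r19o_53 : Rc := ⟨nat_lit 19, nat_lit 5, nat_lit 6, nat_lit 18, nat_lit 20, nat_lit 18102202646582792083349363124527775582935221681217110872242610188903883678387517547672874757423821114079154185272807938006435774894929107647005385029610007291216541631129771228256975685288254⟩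
/-- record -/
def r19o_54 : Rc := ⟨nat_lit 19, nat_lit 5, nat_lit 7, nat_lit 18, nat_lit 20, nat_lit 18033902512546103323366467876405347869217227152461602638540931790399743712536953592567534671893550509102878340697068268023372626176845016949225900604797335335079240011609354836404928088834375⟩
/-- record -/
def r19o_55 : Rc := ⟨nat_lit 19, nat_lit 5, nat_lit 12, nat_lit 18, nat_lit 20, nat_lit 19010164957661879422632857013174663981530974985039049594026217145197291764116391868458045217002531798581550686685336033810597696064603095097755038107213784588786621272563591403218155260871028⟩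
/-- record -/
def r19o_56 : Rc := ⟨nat_lit 19, nat_lit 5, nat_lit 13, nat_lit 18, nat_lit 20, nat_lit 18936900861839395467727089198855998899903502205764330521175076827974710114680628629308601963507001254864079643361728801799962977480979436637827811135312222250829962468506279688791473643127165⟩
/-- record -/
def r19o_57 : Rc := ⟨nat_lit 19, nat_lit 5, nat_lit 14, nat_lit 18, nat_lit 20, nat_lit 18868557207440248738275721664024661134122083628665097212931086152215263600148595438129695400516365898246791400479927172247527207806162581366481780852441593887934220678292536114867256754569606⟩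
/-- record -/
def r19o_58 : Rc := ⟨nat_lit 19, nat_lit 5, nat_lit 16, nat_lit 18, nat_lit 20, nat_lit 18732011214917024612527614729681862487568100778815248569156257898573490135932101535887878816837646953820936703839955487533102580291850986201274773239124973168484236084949293754425455699558808⟩
/-- record -/
def r19o_59 : Rc := ⟨nat_lit 19, nat_lit 5, nat_lit 17, nat_lit 18, nat_lit 20, nat_lit 18658564337099469668065753159357026335094179253409805823279788218030533798175198081499721571630936756121524992524851008359022095797363765257470749873978413308905263153085757489350802377081249⟩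
/-- record -/
def r19o_60 : Rc := ⟨nat_lit 19, nat_lit 6, nat_lit 2, nat_lit 18, nat_lit 4, nat_lit 1381460433911951446474113597285990682⟩
/-- record -/
def r19o_61 : Rc := ⟨nat_lit 19, nat_lit 6, nat_lit 3, nat_lit 18, nat_lit 4, nat_lit 1376009455879315217531158050495463715⟩
/-- record -/
def r19o_62 : Rc := ⟨nat_lit 19, nat_lit 6, nat_lit 5, nat_lit 18, nat_lit 4, nat_lit 1365865241936659180533368232637432117⟩
/-- record -/
def r19o_63 : Rc := ⟨nat_lit 19, nat_lit 6, nat_lit 6, nat_lit 18, nat_lit 1, nat_lit 17170750⟩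
/-- record -/
def r19o_64 : Rc := ⟨nat_lit 19, nat_lit 6, nat_lit 7, nat_lit 18, nat_lit 4, nat_lit 1355343899187625910976335807104090439⟩
/-- record -/
def r19o_65 : Rc := ⟨nat_lit 19, nat_lit 6, nat_lit 12, nat_lit 18, nat_lit 4, nat_lit 1329593084743106033307066894079754612⟩
/-- record -/
def r19o_66 : Rc := ⟨nat_lit 19, nat_lit 6, nat_lit 13, nat_lit 18, nat_lit 4, nat_lit 1422802082171109836798933827201073533⟩
/-- record -/
def r19o_67 : Rc := ⟨nat_lit 19, nat_lit 6, nat_lit 14, nat_lit 18, nat_lit 4, nat_lit 1417724033240522115658701993054962054⟩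
/-- record -/
def r19o_68 : Rc := ⟨nat_lit 19, nat_lit 6, nat_lit 16, nat_lit 18, nat_lit 4, nat_lit 1407206969423980085122526051801498008⟩
/-- record -/
def r19o_69 : Rc := ⟨nat_lit 19, nat_lit 6, nat_lit 17, nat_lit 18, nat_lit 4, nat_lit 1402130027829548412482574724520542625⟩
/-- record -/
def r19o_70 : Rc := ⟨nat_lit 19, nat_lit 7, nat_lit 2, nat_lit 18, nat_lit 20, nat_lit 18658564337163338287513519187603478455065724987306922134105931873383459563584605321249332688151003086226215765915849715272736032293675601192711732307096222188680068706351628669410692919591194⟩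
/-- record -/
def r19o_71 : Rc := ⟨nat_lit 19, nat_lit 7, nat_lit 3, nat_lit 18, nat_lit 20, nat_lit 18590831504099552229456458409520932053044751663566626926723789663020849234867226225801903336157526537441328741199456320383436980823952052644646525989657098475760315627996473558326587687108899⟩
/-- record -/
def r19o_72 : Rc := ⟨nat_lit 19, nat_lit 7, nat_lit 5, nat_lit 18, nat_lit 20, nat_lit 18450328545767470730755559184967536586983597228809979328627853909344762468356931531703453282178103532022683619262285758465265085798830519811487844814509414627352780754071974237448891835679029⟩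
/-- record -/
def r19o_73 : Rc := ⟨nat_lit 19, nat_lit 7, nat_lit 6, nat_lit 18, nat_lit 20, nat_lit 18382561657693017573497999020932950235726518844865145389785035952294682312971137344189831720439723416324433161257351933462883332121553171293112055219983565543612559030588258112931816406384958⟩
/-- record -/
def r19o_74 : Rc := ⟨nat_lit 19, nat_lit 7, nat_lit 7, nat_lit 18, nat_lit 1, nat_lit 17236295⟩
/-- record -/
def r19o_75 : Rc := ⟨nat_lit 19, nat_lit 7, nat_lit 12, nat_lit 18, nat_lit 20, nat_lit 17966067701068692952677582172226391436113550318081346071697339498247326191772215744555778064942537937667588025077977441312523083144807592797490695549499988601521910093970223692818267792736628⟩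
/-- record -/
def r19o_76 : Rc := ⟨nat_lit 19, nat_lit 7, nat_lit 13, nat_lit 18, nat_lit 20, nat_lit 17893057451746955936340767229970652164653271440954090050976386188263034415733495636696555462984612993290936833591702518498422145433383474536024983703822424326961218652885655875937698912731517⟩
/-- record -/
def r19o_77 : Rc := ⟨nat_lit 19, nat_lit 7, nat_lit 14, nat_lit 18, nat_lit 20, nat_lit 17825303381493677209418702360460467802573488117925623792106145729086316278923543304633025582229001560325508353566092624359277958729774664305328850307654694968541906134129964213768854153593222⟩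
/-- record -/
def r19o_78 : Rc := ⟨nat_lit 19, nat_lit 7, nat_lit 16, nat_lit 18, nat_lit 20, nat_lit 19007586822273550741861832161224869469991156209637881914209864146077697493494090902425503543515381561602960268013748629285673609161682754257988826815239458476589546211258672625653097855713688⟩
/-- record -/
def r19o_79 : Rc := ⟨nat_lit 19, nat_lit 7, nat_lit 17, nat_lit 18, nat_lit 20, nat_lit 18939834876265500155044679165167672151821628898516374865995610360743297656313006979419164934060538590355858181153214031213322022434046370284619996287813295465129072157942740847900652653838753⟩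
/-- record -/
def r19o_80 : Rc := ⟨nat_lit 19, nat_lit 8, nat_lit 2, nat_lit 18, nat_lit 18, nat_lit 1019122400727691683773921673123290976751853532272018866163827474451534061635505957179134022059535935692816817371273415574638706898807071877360402428285448368608291395338522⟩
/-- record -/
def r19o_81 : Rc := ⟨nat_lit 19, nat_lit 8, nat_lit 3, nat_lit 18, nat_lit 18, nat_lit 1015464362717073027559009221229763343806312431477810275815046061280657422443399601394085229387565364241705701311671395033175710260242810818595094911562924118080531816710435⟩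
/-- record -/
def r19o_82 : Rc := ⟨nat_lit 19, nat_lit 8, nat_lit 5, nat_lit 18, nat_lit 18, nat_lit 1007870195335569068360193450946095348749992177216242256090214042947705336482511723040602674526675774749873257553242937520269102335284457028772690188791954265894659815702837⟩
/-- record -/
def r19o_83 : Rc := ⟨nat_lit 19, nat_lit 8, nat_lit 6, nat_lit 18, nat_lit 18, nat_lit 1003939539108723355519802318467478612088789879814521350820474982251455833205373115264670332516366507568708968222183544710658498192441395352508590357756097790465786822132030⟩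
/-- record -/
def r19o_84 : Rc := ⟨nat_lit 19, nat_lit 8, nat_lit 7, nat_lit 18, nat_lit 18, nat_lit 1000285068506461425805695938524047625983234570394757940224554313975842799813672360697454993937077602292813114204232550159161312698612470506768019974462858492495002557940039⟩
/-- record -/
def r19o_85 : Rc := ⟨nat_lit 19, nat_lit 8, nat_lit 12, nat_lit 18, nat_lit 18, nat_lit 981438177233961927657588824002893700168216963428794296383468436668012163436223535010007699616610546613543528721432367685753942256904863184288206311398670721989897393799540⟩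
/-- record -/
def r19o_86 : Rc := ⟨nat_lit 19, nat_lit 8, nat_lit 13, nat_lit 18, nat_lit 18, nat_lit 977501130535497397892406357457360272292289952240237254253446056332226490211877660545330855114214293236984799388434856234358030389792726820614504944994076668435011470164349⟩
/-- record -/
def r19o_87 : Rc := ⟨nat_lit 19, nat_lit 8, nat_lit 14, nat_lit 18, nat_lit 18, nat_lit 973851955820887700048329041561717133202954096837412480733678391062485709014194814513753381329066991605308822140138051942673680711956751256033092675320597761026102257385862⟩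
/-- record -/
def r19o_88 : Rc := ⟨nat_lit 19, nat_lit 8, nat_lit 16, nat_lit 18, nat_lit 18, nat_lit 966252550137891726156423783111226504517504108927148227279706083433957662185997373862920102631391878735986731513069559987627313498315970928593942890781095471562348148294040⟩
/-- record -/
def r19o_89 : Rc := ⟨nat_lit 19, nat_lit 8, nat_lit 17, nat_lit 18, nat_lit 18, nat_lit 1034308546322699032006675909046985987153817363862077462559689521767353014922772284791944739934923619233232225262085687312674479100873810065286288861354241534691179953717665⟩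
/-- record -/
def r19o_90 : Rc := ⟨nat_lit 19, nat_lit 9, nat_lit 2, nat_lit 18, nat_lit 18, nat_lit 1026730505971710108534050957467490715587334740160094613932506552680913238646212538738197795406756160615139819243911294352441583148215133027506771506638531462567619280896282⟩
/-- record -/
def r19o_91 : Rc := ⟨nat_lit 19, nat_lit 9, nat_lit 3, nat_lit 18, nat_lit 18, nat_lit 1022812518464581320106863855993014750786826387198076532445248586443375619497102006409975533342542013708820791100344476449132525209155296711361440395537051417029660375187747⟩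
/-- record -/
def r19o_92 : Rc := ⟨nat_lit 19, nat_lit 9, nat_lit 5, nat_lit 18, nat_lit 18, nat_lit 1015249047169331046659854312123757981930052716397264089985074818021711697026498639522278510282765621627484241036958311619348533087441614994030020606336165798139408377250101⟩
/-- record -/
def r19o_93 : Rc := ⟨nat_lit 19, nat_lit 9, nat_lit 6, nat_lit 18, nat_lit 18, nat_lit 1011599642360730050809200569373008779655001179871118561880060667137274754704185898852396202173030975866973962802677979014507239672769099699262442682264382580550229754773822⟩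
/-- record -/
def r19o_94 : Rc := ⟨nat_lit 19, nat_lit 9, nat_lit 7, nat_lit 18, nat_lit 18, nat_lit 1007685458228361460737874560105570943905327717010711416051640676749580141373607286524120102266220733892343530715979654395869225385482055577947185324052672661532553421193543⟩
/-- record -/
def r19o_95 : Rc := ⟨nat_lit 19, nat_lit 9, nat_lit 12, nat_lit 18, nat_lit 18, nat_lit 988914465427603036158473636409232055730109976069550196981619724309910628020589626682146749450983351411434735328925456101265758440917008178601790431209611022248598422946164⟩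
/-- record -/
def r19o_96 : Rc := ⟨nat_lit 19, nat_lit 9, nat_lit 13, nat_lit 18, nat_lit 18, nat_lit 985276809512168067763246332097239299760992560197783827823980270027229602671215874796810296695943566945845962738741126861304620242476943273707710887439449387573410467217789⟩
/-- record -/
def r19o_97 : Rc := ⟨nat_lit 19, nat_lit 9, nat_lit 14, nat_lit 18, nat_lit 18, nat_lit 981353467406694163358729982324872427515125369565350552351218445553539615604386625039753771365337609304830378781583600952957874839859874257386863855218625103678145922204038⟩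
/-- record -/
def r19o_98 : Rc := ⟨nat_lit 19, nat_lit 9, nat_lit 16, nat_lit 18, nat_lit 18, nat_lit 973787172373407144442488877953118588247657181277523098691589573953339124468011705799900713449157339876919937503539832354881982627213914530222866234543562617377195666964888⟩
/-- record -/
def r19o_99 : Rc := ⟨nat_lit 19, nat_lit 9, nat_lit 17, nat_lit 18, nat_lit 18, nat_lit 970147557184529214467455356357694446359412300254205672192906347173804233924319974046475831861348286689450318685302815663107997523111274085799580387811511992485504569377185⟩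
/-- record -/
def r19o_100 : Rc := ⟨nat_lit 19, nat_lit 10, nat_lit 2, nat_lit 18, nat_lit 18, nat_lit 1034308546326185021896582566833238973068927468475434285356322282717616139821945833195665109146594332054727639617823421372454998836741370824443618651246728323539121163338010⟩
/-- record -/
def r19o_101 : Rc := ⟨nat_lit 19, nat_lit 10, nat_lit 3, nat_lit 18, nat_lit 18, nat_lit 1030403346309361768801092673289572905086863134307554051062555203932956594278381820494041084817101101439526423835903069472622479302533312086935022332991030646066727904018723⟩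
/-- record -/
def r19o_102 : Rc := ⟨nat_lit 19, nat_lit 10, nat_lit 5, nat_lit 18, nat_lit 18, nat_lit 1022866535807499396529797634885458828598603139305427773132702137890857510598912391330449095682273832492731697931858585597774467945024216109066972574149703732066744810144053⟩
/-- record -/
def r19o_103 : Rc := ⟨nat_lit 19, nat_lit 10, nat_lit 6, nat_lit 18, nat_lit 18, nat_lit 1019237806871405996003617919569070228576078944822091928004125069897888375284320832693172175121363044762990363190776241452839287462372477478172766252352299728594196423377214⟩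
/-- record -/
def r19o_104 : Rc := ⟨nat_lit 19, nat_lit 10, nat_lit 7, nat_lit 18, nat_lit 18, nat_lit 1015334793773063762214399907125377296470031070456148312482420020372291663615968021223559369145316614324273680724474601849801602751172873221624962745673860508900350094672199⟩
/-- record -/
def r19o_105 : Rc := ⟨nat_lit 19, nat_lit 10, nat_lit 12, nat_lit 18, nat_lit 18, nat_lit 996357869941758328818958755054015446533609730061199077251982068234669347055360271330504435100638007310818821310769094653026913983448812569716354620437156548205713969381748⟩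
/-- record -/
def r19o_106 : Rc := ⟨nat_lit 19, nat_lit 10, nat_lit 13, nat_lit 18, nat_lit 18, nat_lit 992738640896218734647615441119253633440804390149122577431414902032515773747734135924186474857903611409060383342613698218366676203664790605277890451861621474402011771109757⟩
/-- record -/
def r19o_107 : Rc := ⟨nat_lit 19, nat_lit 10, nat_lit 14, nat_lit 18, nat_lit 18, nat_lit 988823536087479276208665940700437021833733829900829222490540384350587756883130897589176778041719962791848968285461224681117125216916578457336243652728561997515868972384646⟩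
/-- record -/
def r19o_108 : Rc := ⟨nat_lit 19, nat_lit 10, nat_lit 16, nat_lit 18, nat_lit 18, nat_lit 981290121118769131832932485252910772829971344779348559123593240355210492439770841021390677639965317559614663686125099948195723517065225277239918475199868154148038282051992⟩
/-- record -/
def r19o_109 : Rc := ⟨nat_lit 19, nat_lit 10, nat_lit 17, nat_lit 18, nat_lit 18, nat_lit 977666403080834910767479736220066497526170984967340222472655897008877958017945127394003546554000872498906718528967674678256765699858594664673719240170271676009225921823137⟩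
/-- record -/
def r19o_110 : Rc := ⟨nat_lit 19, nat_lit 11, nat_lit 2, nat_lit 18, nat_lit 18, nat_lit 970147557188070122633915338024897038761905890308864145088576903171403877097425213785836793368334306378891552934508349450333238159422166892746945334372946318348125561028890⟩
/-- record -/
def r19o_111 : Rc := ⟨nat_lit 19, nat_lit 11, nat_lit 3, nat_lit 18, nat_lit 18, nat_lit 966252550126469306201527742397198815653701931592174169716266769148622128792727046696053668198441732876065076595475612736422421659006195295237745676834754305129819056308515⟩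
/-- record -/
def r19o_112 : Rc := ⟨nat_lit 19, nat_lit 11, nat_lit 5, nat_lit 18, nat_lit 18, nat_lit 1030456727732566998055711151381183320165120307072405875891281890695906819634816865634072129665371967389880418067179520138165329270293206900483165163666489040749684607746357⟩
/-- record -/
def r19o_113 : Rc := ⟨nat_lit 19, nat_lit 11, nat_lit 6, nat_lit 18, nat_lit 18, nat_lit 1026571452721285465048350961405646816822394240752677944556222572406924227245828863439269661403908903368216284331929486753967821557644826805440781041531428170810504941797694⟩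
/-- record -/
def r19o_114 : Rc := ⟨nat_lit 19, nat_lit 11, nat_lit 7, nat_lit 18, nat_lit 18, nat_lit 1022958501474148783112034142697794984739583986256062904535262425676326308555883775680328116416553983987407490764946997084688590712375777404932744061783869180595005016179015⟩
/-- record -/
def r19o_115 : Rc := ⟨nat_lit 19, nat_lit 11, nat_lit 12, nat_lit 18, nat_lit 18, nat_lit 1004053329922659959718952491810477225991746453371830844007667845075845765468183272838863590168416216041792029114129507563648327601731348329685472081167703844193535179620724⟩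
/-- record -/
def r19o_116 : Rc := ⟨nat_lit 19, nat_lit 11, nat_lit 13, nat_lit 18, nat_lit 18, nat_lit 1000162985319220465022401104794756394453778866571110291069852021933245726332091555321538912307530585495817903005136499853378899360386058860143354514877365982269529765249405⟩
/-- record -/
def r19o_117 : Rc := ⟨nat_lit 19, nat_lit 11, nat_lit 14, nat_lit 18, nat_lit 18, nat_lit 996556082176232323353107612046393062989526234792253418977313353676005140552538863164064816432440720572095096878265750016599681260894406081585950813282053086431091327107462⟩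
/-- record -/
def r19o_118 : Rc := ⟨nat_lit 19, nat_lit 11, nat_lit 16, nat_lit 18, nat_lit 18, nat_lit 989050253666528549658213480819075878986809937999857588015075232532292681054223845911832766258412667845556495476857890118308323712462794236867553040125122847218898553536920⟩
/-- record -/
def r19o_119 : Rc := ⟨nat_lit 19, nat_lit 11, nat_lit 17, nat_lit 18, nat_lit 18, nat_lit 985157257183559327453080684985978239206000748640349574761266637001137229830350023459240294236061956663413495731732500834830570517126265973469416908476631856388626699059617⟩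
/-- record -/
def r19o_120 : Rc := ⟨nat_lit 19, nat_lit 12, nat_lit 2, nat_lit 18, nat_lit 20, nat_lit 18034761927161022523083595378299683508737457237002985548287658410313853449470523840943025361726777443588927885728864814797750292081355543568386864845300590390914468685992853114962857703899418⟩
/-- record -/
def r19o_121 : Rc := ⟨nat_lit 19, nat_lit 12, nat_lit 3, nat_lit 18, nat_lit 20, nat_lit 17963202750822944324629995518829160560281214733738734983996255006538637775468563082026339375613105645040630330813384561224104018164585967846758044877937573717578700609723060335771180821840163⟩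
/-- record -/
def r19o_122 : Rc := ⟨nat_lit 19, nat_lit 12, nat_lit 5, nat_lit 18, nat_lit 20, nat_lit 17825303381347802480647478651876493466751230273875828302234032953646904363140697136400166252603656455493414587974504237421163132752214423711053752282960760772936168319729565418342006913302837⟩
/-- record -/
def r19o_123 : Rc := ⟨nat_lit 19, nat_lit 12, nat_lit 6, nat_lit 18, nat_lit 20, nat_lit 19076657039959492696512166074179442425537130489734627877883949101194309044024097219468668373271503931295528787177050481736203621177323689806916645273338075600416801717193643937266974272651582⟩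
/-- record -/
def r19o_124 : Rc := ⟨nat_lit 19, nat_lit 12, nat_lit 7, nat_lit 18, nat_lit 20, nat_lit 19010164957581774304364883085006688864325360125568605196688920018324641016649090717683213928707850473121645033894499525195430234297701650704507832995660634363402732148574082296364791952245063⟩
/-- record -/
def r19o_125 : Rc := ⟨nat_lit 19, nat_lit 12, nat_lit 12, nat_lit 18, nat_lit 1, nat_lit 17564020⟩
/-- record -/
def r19o_126 : Rc := ⟨nat_lit 19, nat_lit 12, nat_lit 13, nat_lit 18, nat_lit 20, nat_lit 18591499659047485244686121412757376363881903667211266524836443603465977948944607853446899941896456173539913658500771053757554744653153482306664101866127529861050951228745207351000902470009213⟩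
/-- record -/
def r19o_127 : Rc := ⟨nat_lit 19, nat_lit 12, nat_lit 14, nat_lit 18, nat_lit 20, nat_lit 18519917183521053284041804203981818178264179171075873796605073366684680490813001603411512407607213909708639708187086010977707054106648972712368462284977575486314200636934682137992188627124614⟩
/-- record -/
def r19o_128 : Rc := ⟨nat_lit 19, nat_lit 12, nat_lit 16, nat_lit 18, nat_lit 20, nat_lit 18382142075228419562720486939914999054508308356309516672054687809833862549001667709803816375668818059412998962095182167811554582472053095460314387853044275041946506083769770631488790353412504⟩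
/-- record -/
def r19o_129 : Rc := ⟨nat_lit 19, nat_lit 12, nat_lit 17, nat_lit 18, nat_lit 20, nat_lit 18310602028432667179229905317043864523332091949194964478509282700428297166555986927211947193797102005417870451182892582939916210893324762463350154236056326786932180465354270609399732860158369⟩
/-- record -/
def r19o_130 : Rc := ⟨nat_lit 19, nat_lit 13, nat_lit 2, nat_lit 18, nat_lit 4, nat_lit 1355400069171915786129166529825210650⟩
/-- record -/
def r19o_131 : Rc := ⟨nat_lit 19, nat_lit 13, nat_lit 3, nat_lit 18, nat_lit 4, nat_lit 1350079582062768655878074232224284963⟩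
/-- record -/
def r19o_132 : Rc := ⟨nat_lit 19, nat_lit 13, nat_lit 5, nat_lit 18, nat_lit 4, nat_lit 1339845997849708815846178782949212469⟩
/-- record -/
def r19o_133 : Rc := ⟨nat_lit 19, nat_lit 13, nat_lit 6, nat_lit 18, nat_lit 4, nat_lit 1334525191972210661017349943590256958⟩
/-- record -/
def r19o_134 : Rc := ⟨nat_lit 19, nat_lit 13, nat_lit 7, nat_lit 18, nat_lit 4, nat_lit 1329593084737060574105510431276073287⟩
/-- record -/
def r19o_135 : Rc := ⟨nat_lit 19, nat_lit 13, nat_lit 12, nat_lit 18, nat_lit 4, nat_lit 1402063875101618107380511735829758324⟩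
/-- record -/
def r19o_136 : Rc := ⟨nat_lit 19, nat_lit 13, nat_lit 13, nat_lit 18, nat_lit 1, nat_lit 17629565⟩
/-- record -/
def r19o_137 : Rc := ⟨nat_lit 19, nat_lit 13, nat_lit 14, nat_lit 18, nat_lit 4, nat_lit 1391826013194007067901370479095447942⟩
/-- record -/
def r19o_138 : Rc := ⟨nat_lit 19, nat_lit 13, nat_lit 16, nat_lit 18, nat_lit 4, nat_lit 1381195335238550012141140845219807640⟩
/-- record -/
def r19o_139 : Rc := ⟨nat_lit 19, nat_lit 13, nat_lit 17, nat_lit 18, nat_lit 4, nat_lit 1376271702331611587304983779710402977⟩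
/-- record -/
def r19o_140 : Rc := ⟨nat_lit 19, nat_lit 14, nat_lit 2, nat_lit 18, nat_lit 20, nat_lit 18310602028498435305750731631730393397256358200188806953686721858938532333227118636976626606408001367206315062709980343199260327871127633999212132435318300870989817332156796142905533766172954⟩
/-- record -/
def r19o_141 : Rc := ⟨nat_lit 19, nat_lit 14, nat_lit 3, nat_lit 18, nat_lit 20, nat_lit 18244756905521101783721514784921554754358661591592970809926850429950720963227398914681158484361568038536352665770148470334334355482507286872507158057942774631889122545754498846134155790713123⟩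
/-- record -/
def r19o_142 : Rc := ⟨nat_lit 19, nat_lit 14, nat_lit 5, nat_lit 18, nat_lit 20, nat_lit 18102776259260429877251476110441078406653458095184995653608172821927211070028273973604374702640066659540826599915621399800053135424919339397233047586506659143469845384767490090225980315861301⟩
/-- record -/
def r19o_143 : Rc := ⟨nat_lit 19, nat_lit 14, nat_lit 6, nat_lit 18, nat_lit 20, nat_lit 18031713186636711052605610824300226998741735672275805351245074338530404176464034035336750312125889645879469703789265359669710890370257729068650851057238890622354398084872490632625744465232190⟩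
/-- record -/
def r19o_144 : Rc := ⟨nat_lit 19, nat_lit 14, nat_lit 7, nat_lit 18, nat_lit 20, nat_lit 17966067700986685359300014916275530262416334219549199049380740219109969850792606042627413185617897490978079902700878601768014819264897258728563386510639297845799810719230452522139154607702343⟩
/-- record -/
def r19o_145 : Rc := ⟨nat_lit 19, nat_lit 14, nat_lit 12, nat_lit 18, nat_lit 20, nat_lit 18939071066780984007565940873631368308364820989559894249098149972314109900974354063516372139923570091073535334385561911417643059662635832088862004735950908500861606594389301292398611400491380⟩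
/-- record -/
def r19o_146 : Rc := ⟨nat_lit 19, nat_lit 14, nat_lit 13, nat_lit 18, nat_lit 20, nat_lit 18868040958152115414820314663531933760942383909868445871711318056837464875412060186908984041929810064795325516082403889177427627946801037692433491653392531511040567311704185737853946928365949⟩
/-- record -/
def r19o_147 : Rc := ⟨nat_lit 19, nat_lit 14, nat_lit 14, nat_lit 18, nat_lit 1, nat_lit 17695110⟩
/-- record -/
def r19o_148 : Rc := ⟨nat_lit 19, nat_lit 14, nat_lit 16, nat_lit 18, nat_lit 20, nat_lit 18660216163759704928335052184822229877381951886370708434254821921998767997711802837286162901689647895906370520087234457640906081106633850712268530923970282763062281083069096469563680094159256⟩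
/-- record -/
def r19o_149 : Rc := ⟨nat_lit 19, nat_lit 14, nat_lit 17, nat_lit 18, nat_lit 20, nat_lit 18589247637994129437470013471171241461018826107267825870712368176516588431656321230358870922775230586343771743022389869081293560034393865043067516549347849950930407047768097189601562357465505⟩
/-- record -/
def r19o_150 : Rc := ⟨nat_lit 19, nat_lit 15, nat_lit 2, nat_lit 18, nat_lit 6, nat_lit 25387731868888560146373058946346744131226523940755210522⟩
/-- record -/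
def r19o_151 : Rc := ⟨nat_lit 19, nat_lit 15, nat_lit 3, nat_lit 18, nat_lit 6, nat_lit 25290537585403708056398548107722105409842421603716235555⟩
/-- record -/
def r19o_152 : Rc := ⟨nat_lit 19, nat_lit 15, nat_lit 5, nat_lit 18, nat_lit 6, nat_lit 25095766219387209595050784088220180876840818727721435445⟩
/-- record -/
def r19o_153 : Rc := ⟨nat_lit 19, nat_lit 15, nat_lit 6, nat_lit 18, nat_lit 6, nat_lit 25005752362246031905312005976614194473541727532672745790⟩
/-- record -/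
def r19o_154 : Rc := ⟨nat_lit 19, nat_lit 15, nat_lit 7, nat_lit 18, nat_lit 6, nat_lit 24908330107297103492888650591754831215544679095849124167⟩
/-- record -/
def r19o_155 : Rc := ⟨nat_lit 19, nat_lit 15, nat_lit 12, nat_lit 18, nat_lit 6, nat_lit 26249070718964341663611101085145161230719532229529960820⟩
/-- record -/
def r19o_156 : Rc := ⟨nat_lit 19, nat_lit 15, nat_lit 13, nat_lit 18, nat_lit 6, nat_lit 26151626638567700573117774854287768455055229013170389373⟩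
/-- record -/
def r19o_157 : Rc := ⟨nat_lit 19, nat_lit 15, nat_lit 14, nat_lit 18, nat_lit 6, nat_lit 26054397244856511172972882614068279263321206807373676934⟩
/-- record -/
def r19o_158 : Rc := ⟨nat_lit 19, nat_lit 15, nat_lit 16, nat_lit 18, nat_lit 6, nat_lit 25866962594267998822947860457982711703178068151317299608⟩
/-- record -/
def r19o_159 : Rc := ⟨nat_lit 19, nat_lit 15, nat_lit 17, nat_lit 18, nat_lit 6, nat_lit 25769695287193706961690551878865555682750670522731790753⟩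
/-- record -/
def r19o_160 : Rc := ⟨nat_lit 19, nat_lit 16, nat_lit 2, nat_lit 18, nat_lit 20, nat_lit 18589247638059393510425435486342061549824689347021404342262317930370434144738433062052092852116367700625125339341092322479698545457535541344674767502191934468456712553443145556454175785746714⟩
/-- record -/
def r19o_161 : Rc := ⟨nat_lit 19, nat_lit 16, nat_lit 3, nat_lit 18, nat_lit 20, nat_lit 18518801768708939463299143970817044826334961370952497317775500688347467706070906494559656304661884949561591621633630394396372459956038204893317326211189750773151659712923013500282644321206563⟩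
/-- record -/
def r19o_162 : Rc := ⟨nat_lit 19, nat_lit 16, nat_lit 5, nat_lit 18, nat_lit 20, nat_lit 18383215003166355042748966894410975901156580643716612809961081601715589469216284160427010422615140745264034734583182872575656439820740076082502388037243564051981981805192310092546244973232437⟩
/-- record -/
def r19o_163 : Rc := ⟨nat_lit 19, nat_lit 16, nat_lit 6, nat_lit 18, nat_lit 20, nat_lit 18312795640888906759188182817547187306589843725551940849389682755344098391433069190823134452360402742058874040500411163152089960830884350306936592286054508821272890208492923334567881733439806⟩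
/-- record -/
def r19o_164 : Rc := ⟨nat_lit 19, nat_lit 16, nat_lit 7, nat_lit 18, nat_lit 20, nat_lit 18242252054451604917812099392918164839657488696013661445914418622301095977536438377861769064921526824243954762862669185020602986768204327624183014639583068609056075592107063015545077838053703⟩
/-- record -/
def r19o_165 : Rc := ⟨nat_lit 19, nat_lit 16, nat_lit 12, nat_lit 18, nat_lit 20, nat_lit 17895222366056431112821089216655267830315265659234477778503587838906560110506968548860300566417847387580826509743549041795649376850221055363248331313365321459564232920212800299959982102413684⟩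
/-- record -/
def r19o_166 : Rc := ⟨nat_lit 19, nat_lit 16, nat_lit 13, nat_lit 18, nat_lit 20, nat_lit 17824761595827956651934252830651509921698182652233938234946804001887298706049489307128797420840907506637462114864702917973494937302399362819383964433866443865917454619174269595359810211873149⟩
/-- record -/
def r19o_167 : Rc := ⟨nat_lit 19, nat_lit 16, nat_lit 14, nat_lit 18, nat_lit 20, nat_lit 19077130844031295341049903203557284406038893974420724320818477338601396417294936763170827688281723258208200404241953927856757142336043371648678749626083054410228036256692366547231585499742598⟩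
/-- record -/
def r19o_168 : Rc := ⟨nat_lit 19, nat_lit 16, nat_lit 16, nat_lit 18, nat_lit 1, nat_lit 17826200⟩
/-- record -/
def r19o_169 : Rc := ⟨nat_lit 19, nat_lit 16, nat_lit 17, nat_lit 18, nat_lit 20, nat_lit 18870940942465768313755046735882612016588206177198278837061206250142904991804522924680839030803174226255026438422622303171576334854644184162584618727913872485229300200412202277383490916909473⟩
/-- record -/
def r19o_170 : Rc := ⟨nat_lit 19, nat_lit 17, nat_lit 2, nat_lit 18, nat_lit 20, nat_lit 18730412448095157154410555597137536303807471988047804407327267203443047307101392147897581634111240302867682698651330089030108195472250524314187029936595531825026607934174933727619552037175578⟩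
/-- record -/
def r19o_171 : Rc := ⟨nat_lit 19, nat_lit 17, nat_lit 3, nat_lit 18, nat_lit 20, nat_lit 18660216163856905269795313911802247949139291019302711775485052718805090405261004420199858908448195281199284301672107915649475744988936504339633005870977401946770537644167520208501268690436387⟩
/-- record -/
def r19o_172 : Rc := ⟨nat_lit 19, nat_lit 17, nat_lit 5, nat_lit 18, nat_lit 20, nat_lit 18519917183374968824849442475415533997191840990921517068638224474454947371510546867352031512588967277289909474389981735700464527463301637033972745852504066963543923901488394856839671129112885⟩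
/-- record -/
def r19o_173 : Rc := ⟨nat_lit 19, nat_lit 17, nat_lit 6, nat_lit 18, nat_lit 20, nat_lit 18449750622066909403805695268227807900130409262541901537929987128005278183382877585759193274892090725240172015491374073394876189157399073866793437285542073158263433512652636877276580879401278⟩
/-- record -/
def r19o_174 : Rc := ⟨nat_lit 19, nat_lit 17, nat_lit 7, nat_lit 18, nat_lit 20, nat_lit 18379558632561019249735542236945008305381500490662320237754346365330949143446937559969907993395314362655828236575352163564257163877827100763287323279125957485631046919505558815759290096615751⟩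
/-- record -/
def r19o_175 : Rc := ⟨nat_lit 19, nat_lit 17, nat_lit 12, nat_lit 18, nat_lit 20, nat_lit 18033902512627183671196865194483387252311423132205359062209405876015769954162124824186966457573690721970289095327722952949973555719237081071942021875602492772278356098188914247100318138237300⟩
/-- record -/
def r19o_176 : Rc := ⟨nat_lit 19, nat_lit 17, nat_lit 13, nat_lit 18, nat_lit 20, nat_lit 17963860324523510114143667126001207792862814332996190159970078668903166338970035904612556167188875316648111981876273268501359304688691065243467710193238694716449205135353940388322546530713981⟩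
/-- record -/
def r19o_177 : Rc := ⟨nat_lit 19, nat_lit 17, nat_lit 14, nat_lit 18, nat_lit 20, nat_lit 17893665102560021812278124828798619862640296603802593244120192635454099374314014877770098526937139591421596118530607298569371060609598130835523958397458163444113450464684447402105683143688582⟩
/-- record -/
def r19o_178 : Rc := ⟨nat_lit 19, nat_lit 17, nat_lit 16, nat_lit 18, nat_lit 20, nat_lit 19076019711713757642560704766581517035207529820333234803822390083017985669852241108580769593147874124214756442787732206370579894488756233578346723834656372319965354375856707071535160287560088⟩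
/-- record -/
def r19o_179 : Rc := ⟨nat_lit 19, nat_lit 17, nat_lit 17, nat_lit 18, nat_lit 1, nat_lit 17891745⟩
/-- record -/
def r19o_180 : Rc := ⟨nat_lit 19, nat_lit 18, nat_lit 2, nat_lit 18, nat_lit 18, nat_lit 1022995758336849233326804162664054800319363411667258689029091183593172737666616315398209166819306259135403035543250751171454177699417676089276051767259032996302688580927770⟩
/-- record -/
def r19o_181 : Rc := ⟨nat_lit 19, nat_lit 18, nat_lit 3, nat_lit 18, nat_lit 18, nat_lit 1019210220426515258877864128077270974696303508327642586463843826812770487849524901348832322961902730697066226923702895222214418090389308444109412279425388156914472455438627⟩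
/-- record -/
def r19o_182 : Rc := ⟨nat_lit 19, nat_lit 18, nat_lit 5, nat_lit 18, nat_lit 18, nat_lit 1011633043863460432196841805688402948208740326664266034462219530993217114492399907264878731218460157533446205310534439079466620490752707625421812545244956258750308339220789⟩
/-- record -/
def r19o_183 : Rc := ⟨nat_lit 19, nat_lit 18, nat_lit 6, nat_lit 18, nat_lit 18, nat_lit 1007847215999010624528598772320731788504439305884170812293377963489174281713601102413525096192206512019143870071945532877268319261027414615877993321369318358108657162780990⟩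
/-- record -/
def r19o_184 : Rc := ⟨nat_lit 19, nat_lit 18, nat_lit 7, nat_lit 18, nat_lit 18, nat_lit 1004053329918298426454967621694719734078120818206524719691368602396052802243827254751546360113469103549778280401266229659721748154648965672954773186077747804659496937521479⟩
/-- record -/
def r19o_185 : Rc := ⟨nat_lit 19, nat_lit 18, nat_lit 12, nat_lit 18, nat_lit 18, nat_lit 985116430655067648232076924593539640766180839132201238095616666755984589657114671186558058968664252231186188473453303873268077736517814953728804733027064175900944224747892⟩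
/-- record -/
def r19o_186 : Rc := ⟨nat_lit 19, nat_lit 18, nat_lit 13, nat_lit 18, nat_lit 18, nat_lit 981322371816066047816801900313351225162840752831047773604011247005868026788706936478252573934375481955742407373175319699131477117520315518190923057451058614444030285382013⟩
/-- record -/
def r19o_187 : Rc := ⟨nat_lit 19, nat_lit 18, nat_lit 14, nat_lit 18, nat_lit 18, nat_lit 977536601537713306127866202859303265514160686626240556084965478501787187519819941942816069704669717873827912323424769126554139214329719534351538359893666318957121335329158⟩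
/-- record -/
def r19o_188 : Rc := ⟨nat_lit 19, nat_lit 18, nat_lit 16, nat_lit 18, nat_lit 18, nat_lit 969959367388562754612698912059863650137219522504507297489715424702166531453477190236655727237979685034214428198533385408829257286928185645491712582552299546010776088084888⟩
/-- record -/
def r19o_189 : Rc := ⟨nat_lit 19, nat_lit 18, nat_lit 17, nat_lit 18, nat_lit 18, nat_lit 966164155030698332423499825860775845071633925716582403654802933130356056421553379731199742740278284549740092784944198318786828349523707277073884359374825394195956029784481⟩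
/-- records -/
def F19o : List Rc := [r19o_0, r19o_1, r19o_2, r19o_3, r19o_4, r19o_5,
  r19o_6, r19o_7, r19o_8, r19o_9, r19o_10, r19o_11,
  r19o_12, r19o_13, r19o_14, r19o_15, r19o_16, r19o_17,
  r19o_18, r19o_19, r19o_20, r19o_21, r19o_22, r19o_23,
  r19o_24, r19o_25, r19o_26, r19o_27, r19o_28, r19o_29,
  r19o_30, r19o_31, r19o_32, r19o_33, r19o_34, r19o_35,
  r19o_36, r19o_37, r19o_38, r19o_39, r19o_40, r19o_41,
  r19o_42, r19o_43, r19o_44, r19o_45, r19o_46, r19o_47,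
  r19o_48, r19o_49, r19o_50, r19o_51, r19o_52, r19o_53,
  r19o_54, r19o_55, r19o_56, r19o_57, r19o_58, r19o_59,
  r19o_60, r19o_61, r19o_62, r19o_63, r19o_64, r19o_65,
  r19o_66, r19o_67, r19o_68, r19o_69, r19o_70, r19o_71,
  r19o_72, r19o_73, r19o_74, r19o_75, r19o_76, r19o_77,
  r19o_78, r19o_79, r19o_80, r19o_81, r19o_82, r19o_83,
  r19o_84, r19o_85, r19o_86, r19o_87, r19o_88, r19o_89,
  r19o_90, r19o_91, r19o_92, r19o_93, r19o_94, r19o_95,
  r19o_96, r19o_97, r19o_98, r19o_99, r19o_100, r19o_101,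
  r19o_102, r19o_103, r19o_104, r19o_105, r19o_106, r19o_107,
  r19o_108, r19o_109, r19o_110, r19o_111, r19o_112, r19o_113,
  r19o_114, r19o_115, r19o_116, r19o_117, r19o_118, r19o_119,
  r19o_120, r19o_121, r19o_122, r19o_123, r19o_124, r19o_125,
  r19o_126, r19o_127, r19o_128, r19o_129, r19o_130, r19o_131,
  r19o_132, r19o_133, r19o_134, r19o_135, r19o_136, r19o_137,
  r19o_138, r19o_139, r19o_140, r19o_141, r19o_142, r19o_143,
  r19o_144, r19o_145, r19o_146, r19o_147, r19o_148, r19o_149,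
  r19o_150, r19o_151, r19o_152, r19o_153, r19o_154, r19o_155,
  r19o_156, r19o_157, r19o_158, r19o_159, r19o_160, r19o_161,
  r19o_162, r19o_163, r19o_164, r19o_165, r19o_166, r19o_167,
  r19o_168, r19o_169, r19o_170, r19o_171, r19o_172, r19o_173,
  r19o_174, r19o_175, r19o_176, r19o_177, r19o_178, r19o_179,
  r19o_180, r19o_181, r19o_182, r19o_183, r19o_184, r19o_185,
  r19o_186, r19o_187, r19o_188, r19o_189]

end Pool.Agent.LibH4.CX


end

section

/-!
Constant words, all letters at once: results of the first stage, odd parity.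
-/

namespace Pool.Agent.LibH4.CX

/-- entries -/
def EA0 : List E3 := []

/-- entries -/
def EA1 : List E3 := []

/-- entries -/
def EA2 : List E3 := [⟨r13o_2, r7o_1, r5o_0, (.st (nat_lit 1) (nat_lit 2) (.st (nat_lit 0) (nat_lit 2) .nil))⟩,
  ⟨r13o_2, r7o_1, r5o_2, (.st (nat_lit 129) (nat_lit 130) (.st (nat_lit 0) (nat_lit 130) .nil))⟩,
  ⟨r13o_2, r7o_1, r5o_3, (.st (nat_lit 65) (nat_lit 130) (.st (nat_lit 64) (nat_lit 130) .nil))⟩,
  ⟨r13o_2, r7o_1, r5o_4, (.st (nat_lit 25) (nat_lit 26) (.st (nat_lit 0) (nat_lit 26) .nil))⟩,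
  ⟨r13o_2, r7o_1, r5o_5, (.st (nat_lit 39) (nat_lit 78) (.st (nat_lit 38) (nat_lit 78) .nil))⟩,
  ⟨r13o_2, r7o_1, r5o_6, (.st (nat_lit 77) (nat_lit 78) (.st (nat_lit 0) (nat_lit 78) .nil))⟩,
  ⟨r13o_2, r7o_1, r5o_7, (.st (nat_lit 13) (nat_lit 26) (.st (nat_lit 12) (nat_lit 26) .nil))⟩,
  ⟨r13o_2, r7o_1, r5o_8, (.st (nat_lit 129) (nat_lit 130) (.st (nat_lit 0) (nat_lit 130) .nil))⟩,
  ⟨r13o_2, r7o_1, r5o_9, (.st (nat_lit 65) (nat_lit 130) (.st (nat_lit 64) (nat_lit 130) .nil))⟩,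
  ⟨r13o_2, r7o_5, r5o_0, (.st (nat_lit 103) (nat_lit 104) (.st (nat_lit 51) (nat_lit 104) (.st (nat_lit 52) (nat_lit 104) (.st (nat_lit 0) (nat_lit 104) .nil))))⟩,
  ⟨r13o_2, r7o_5, r5o_2, (.st (nat_lit 519) (nat_lit 520) (.st (nat_lit 259) (nat_lit 520) (.st (nat_lit 260) (nat_lit 520) (.st (nat_lit 0) (nat_lit 520) .nil))))⟩,
  ⟨r13o_2, r7o_5, r5o_4, (.st (nat_lit 103) (nat_lit 104) (.st (nat_lit 51) (nat_lit 104) (.st (nat_lit 52) (nat_lit 104) (.st (nat_lit 0) (nat_lit 104) .nil))))⟩,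
  ⟨r13o_2, r7o_5, r5o_6, (.st (nat_lit 311) (nat_lit 312) (.st (nat_lit 155) (nat_lit 312) (.st (nat_lit 156) (nat_lit 312) (.st (nat_lit 0) (nat_lit 312) .nil))))⟩,
  ⟨r13o_2, r7o_5, r5o_8, (.st (nat_lit 519) (nat_lit 520) (.st (nat_lit 259) (nat_lit 520) (.st (nat_lit 260) (nat_lit 520) (.st (nat_lit 0) (nat_lit 520) .nil))))⟩,
  ⟨r13o_2, r7o_8, r5o_0, (.st (nat_lit 39) (nat_lit 78) (.st (nat_lit 38) (nat_lit 78) .nil))⟩,
  ⟨r13o_2, r7o_8, r5o_3, (.st (nat_lit 195) (nat_lit 390) (.st (nat_lit 194) (nat_lit 390) .nil))⟩,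
  ⟨r13o_2, r7o_8, r5o_5, (.st (nat_lit 39) (nat_lit 78) (.st (nat_lit 38) (nat_lit 78) .nil))⟩,
  ⟨r13o_2, r7o_8, r5o_7, (.st (nat_lit 39) (nat_lit 78) (.st (nat_lit 38) (nat_lit 78) .nil))⟩,
  ⟨r13o_2, r7o_8, r5o_9, (.st (nat_lit 195) (nat_lit 390) (.st (nat_lit 194) (nat_lit 390) .nil))⟩,
  ⟨r13o_2, r7o_9, r5o_0, (.st (nat_lit 77) (nat_lit 78) (.st (nat_lit 0) (nat_lit 78) .nil))⟩,
  ⟨r13o_2, r7o_9, r5o_2, (.st (nat_lit 389) (nat_lit 390) (.st (nat_lit 0) (nat_lit 390) .nil))⟩,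
  ⟨r13o_2, r7o_9, r5o_4, (.st (nat_lit 77) (nat_lit 78) (.st (nat_lit 0) (nat_lit 78) .nil))⟩,
  ⟨r13o_2, r7o_9, r5o_6, (.st (nat_lit 77) (nat_lit 78) (.st (nat_lit 0) (nat_lit 78) .nil))⟩,
  ⟨r13o_2, r7o_9, r5o_8, (.st (nat_lit 389) (nat_lit 390) (.st (nat_lit 0) (nat_lit 390) .nil))⟩,
  ⟨r13o_2, r7o_13, r5o_0, (.st (nat_lit 25) (nat_lit 26) (.st (nat_lit 0) (nat_lit 26) .nil))⟩,
  ⟨r13o_2, r7o_13, r5o_2, (.st (nat_lit 129) (nat_lit 130) (.st (nat_lit 0) (nat_lit 130) .nil))⟩,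
  ⟨r13o_2, r7o_13, r5o_4, (.st (nat_lit 25) (nat_lit 26) (.st (nat_lit 0) (nat_lit 26) .nil))⟩,
  ⟨r13o_2, r7o_13, r5o_6, (.st (nat_lit 77) (nat_lit 78) (.st (nat_lit 0) (nat_lit 78) .nil))⟩,
  ⟨r13o_2, r7o_13, r5o_8, (.st (nat_lit 129) (nat_lit 130) (.st (nat_lit 0) (nat_lit 130) .nil))⟩,
  ⟨r13o_2, r7o_16, r5o_0, (.st (nat_lit 51) (nat_lit 104) (.st (nat_lit 52) (nat_lit 104) .nil))⟩,
  ⟨r13o_2, r7o_16, r5o_2, (.st (nat_lit 259) (nat_lit 520) (.st (nat_lit 260) (nat_lit 520) .nil))⟩,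
  ⟨r13o_2, r7o_16, r5o_4, (.st (nat_lit 51) (nat_lit 104) (.st (nat_lit 52) (nat_lit 104) .nil))⟩,
  ⟨r13o_2, r7o_16, r5o_6, (.st (nat_lit 155) (nat_lit 312) (.st (nat_lit 156) (nat_lit 312) .nil))⟩,
  ⟨r13o_2, r7o_16, r5o_8, (.st (nat_lit 259) (nat_lit 520) (.st (nat_lit 260) (nat_lit 520) .nil))⟩,
  ⟨r13o_2, r7o_17, r5o_0, (.st (nat_lit 103) (nat_lit 104) (.st (nat_lit 0) (nat_lit 104) .nil))⟩,
  ⟨r13o_2, r7o_17, r5o_2, (.st (nat_lit 519) (nat_lit 520) (.st (nat_lit 0) (nat_lit 520) .nil))⟩,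
  ⟨r13o_2, r7o_17, r5o_4, (.st (nat_lit 103) (nat_lit 104) (.st (nat_lit 0) (nat_lit 104) .nil))⟩,
  ⟨r13o_2, r7o_17, r5o_6, (.st (nat_lit 311) (nat_lit 312) (.st (nat_lit 0) (nat_lit 312) .nil))⟩,
  ⟨r13o_2, r7o_17, r5o_8, (.st (nat_lit 519) (nat_lit 520) (.st (nat_lit 0) (nat_lit 520) .nil))⟩,
  ⟨r13o_2, r7o_18, r5o_0, (.st (nat_lit 13) (nat_lit 26) (.st (nat_lit 12) (nat_lit 26) .nil))⟩,
  ⟨r13o_2, r7o_18, r5o_3, (.st (nat_lit 65) (nat_lit 130) (.st (nat_lit 64) (nat_lit 130) .nil))⟩,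
  ⟨r13o_2, r7o_18, r5o_5, (.st (nat_lit 39) (nat_lit 78) (.st (nat_lit 38) (nat_lit 78) .nil))⟩,
  ⟨r13o_2, r7o_18, r5o_7, (.st (nat_lit 13) (nat_lit 26) (.st (nat_lit 12) (nat_lit 26) .nil))⟩,
  ⟨r13o_2, r7o_18, r5o_9, (.st (nat_lit 65) (nat_lit 130) (.st (nat_lit 64) (nat_lit 130) .nil))⟩,
  ⟨r13o_2, r7o_20, r5o_0, (.st (nat_lit 39) (nat_lit 78) (.st (nat_lit 38) (nat_lit 78) .nil))⟩,
  ⟨r13o_2, r7o_20, r5o_3, (.st (nat_lit 195) (nat_lit 390) (.st (nat_lit 194) (nat_lit 390) .nil))⟩,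
  ⟨r13o_2, r7o_20, r5o_5, (.st (nat_lit 39) (nat_lit 78) (.st (nat_lit 38) (nat_lit 78) .nil))⟩,
  ⟨r13o_2, r7o_20, r5o_7, (.st (nat_lit 39) (nat_lit 78) (.st (nat_lit 38) (nat_lit 78) .nil))⟩,
  ⟨r13o_2, r7o_20, r5o_9, (.st (nat_lit 195) (nat_lit 390) (.st (nat_lit 194) (nat_lit 390) .nil))⟩,
  ⟨r13o_2, r7o_21, r5o_0, (.st (nat_lit 77) (nat_lit 78) (.st (nat_lit 0) (nat_lit 78) .nil))⟩,
  ⟨r13o_2, r7o_21, r5o_2, (.st (nat_lit 389) (nat_lit 390) (.st (nat_lit 0) (nat_lit 390) .nil))⟩,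
  ⟨r13o_2, r7o_21, r5o_4, (.st (nat_lit 77) (nat_lit 78) (.st (nat_lit 0) (nat_lit 78) .nil))⟩,
  ⟨r13o_2, r7o_21, r5o_6, (.st (nat_lit 77) (nat_lit 78) (.st (nat_lit 0) (nat_lit 78) .nil))⟩,
  ⟨r13o_2, r7o_21, r5o_8, (.st (nat_lit 389) (nat_lit 390) (.st (nat_lit 0) (nat_lit 390) .nil))⟩,
  ⟨r13o_2, r7o_24, r5o_0, (.st (nat_lit 51) (nat_lit 104) (.st (nat_lit 52) (nat_lit 104) .nil))⟩,
  ⟨r13o_2, r7o_24, r5o_2, (.st (nat_lit 259) (nat_lit 520) (.st (nat_lit 260) (nat_lit 520) .nil))⟩,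
  ⟨r13o_2, r7o_24, r5o_4, (.st (nat_lit 51) (nat_lit 104) (.st (nat_lit 52) (nat_lit 104) .nil))⟩,
  ⟨r13o_2, r7o_24, r5o_6, (.st (nat_lit 155) (nat_lit 312) (.st (nat_lit 156) (nat_lit 312) .nil))⟩,
  ⟨r13o_2, r7o_24, r5o_8, (.st (nat_lit 259) (nat_lit 520) (.st (nat_lit 260) (nat_lit 520) .nil))⟩,
  ⟨r13o_2, r7o_25, r5o_0, (.st (nat_lit 103) (nat_lit 104) (.st (nat_lit 0) (nat_lit 104) .nil))⟩,
  ⟨r13o_2, r7o_25, r5o_2, (.st (nat_lit 519) (nat_lit 520) (.st (nat_lit 0) (nat_lit 520) .nil))⟩,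
  ⟨r13o_2, r7o_25, r5o_4, (.st (nat_lit 103) (nat_lit 104) (.st (nat_lit 0) (nat_lit 104) .nil))⟩,
  ⟨r13o_2, r7o_25, r5o_6, (.st (nat_lit 311) (nat_lit 312) (.st (nat_lit 0) (nat_lit 312) .nil))⟩,
  ⟨r13o_2, r7o_25, r5o_8, (.st (nat_lit 519) (nat_lit 520) (.st (nat_lit 0) (nat_lit 520) .nil))⟩]

/-- entries -/
def EA3 : List E3 := [⟨r13o_3, r7o_2, r5o_1, (.st (nat_lit 1) (nat_lit 2) (.st (nat_lit 0) (nat_lit 2) .nil))⟩,
  ⟨r13o_3, r7o_2, r5o_2, (.st (nat_lit 65) (nat_lit 130) (.st (nat_lit 64) (nat_lit 130) .nil))⟩,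
  ⟨r13o_3, r7o_2, r5o_3, (.st (nat_lit 129) (nat_lit 130) (.st (nat_lit 0) (nat_lit 130) .nil))⟩,
  ⟨r13o_3, r7o_2, r5o_4, (.st (nat_lit 13) (nat_lit 26) (.st (nat_lit 12) (nat_lit 26) .nil))⟩,
  ⟨r13o_3, r7o_2, r5o_5, (.st (nat_lit 77) (nat_lit 78) (.st (nat_lit 0) (nat_lit 78) .nil))⟩,
  ⟨r13o_3, r7o_2, r5o_6, (.st (nat_lit 39) (nat_lit 78) (.st (nat_lit 38) (nat_lit 78) .nil))⟩,
  ⟨r13o_3, r7o_2, r5o_7, (.st (nat_lit 25) (nat_lit 26) (.st (nat_lit 0) (nat_lit 26) .nil))⟩,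
  ⟨r13o_3, r7o_2, r5o_8, (.st (nat_lit 65) (nat_lit 130) (.st (nat_lit 64) (nat_lit 130) .nil))⟩,
  ⟨r13o_3, r7o_2, r5o_9, (.st (nat_lit 129) (nat_lit 130) (.st (nat_lit 0) (nat_lit 130) .nil))⟩,
  ⟨r13o_3, r7o_6, r5o_1, (.st (nat_lit 103) (nat_lit 104) (.st (nat_lit 0) (nat_lit 104) .nil))⟩,
  ⟨r13o_3, r7o_6, r5o_3, (.st (nat_lit 519) (nat_lit 520) (.st (nat_lit 0) (nat_lit 520) .nil))⟩,
  ⟨r13o_3, r7o_6, r5o_5, (.st (nat_lit 311) (nat_lit 312) (.st (nat_lit 0) (nat_lit 312) .nil))⟩,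
  ⟨r13o_3, r7o_6, r5o_7, (.st (nat_lit 103) (nat_lit 104) (.st (nat_lit 0) (nat_lit 104) .nil))⟩,
  ⟨r13o_3, r7o_6, r5o_9, (.st (nat_lit 519) (nat_lit 520) (.st (nat_lit 0) (nat_lit 520) .nil))⟩,
  ⟨r13o_3, r7o_7, r5o_1, (.st (nat_lit 51) (nat_lit 104) (.st (nat_lit 52) (nat_lit 104) .nil))⟩,
  ⟨r13o_3, r7o_7, r5o_3, (.st (nat_lit 259) (nat_lit 520) (.st (nat_lit 260) (nat_lit 520) .nil))⟩,
  ⟨r13o_3, r7o_7, r5o_5, (.st (nat_lit 155) (nat_lit 312) (.st (nat_lit 156) (nat_lit 312) .nil))⟩,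
  ⟨r13o_3, r7o_7, r5o_7, (.st (nat_lit 51) (nat_lit 104) (.st (nat_lit 52) (nat_lit 104) .nil))⟩,
  ⟨r13o_3, r7o_7, r5o_9, (.st (nat_lit 259) (nat_lit 520) (.st (nat_lit 260) (nat_lit 520) .nil))⟩,
  ⟨r13o_3, r7o_10, r5o_1, (.st (nat_lit 77) (nat_lit 78) (.st (nat_lit 0) (nat_lit 78) .nil))⟩,
  ⟨r13o_3, r7o_10, r5o_3, (.st (nat_lit 389) (nat_lit 390) (.st (nat_lit 0) (nat_lit 390) .nil))⟩,
  ⟨r13o_3, r7o_10, r5o_5, (.st (nat_lit 77) (nat_lit 78) (.st (nat_lit 0) (nat_lit 78) .nil))⟩,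
  ⟨r13o_3, r7o_10, r5o_7, (.st (nat_lit 77) (nat_lit 78) (.st (nat_lit 0) (nat_lit 78) .nil))⟩,
  ⟨r13o_3, r7o_10, r5o_9, (.st (nat_lit 389) (nat_lit 390) (.st (nat_lit 0) (nat_lit 390) .nil))⟩,
  ⟨r13o_3, r7o_11, r5o_1, (.st (nat_lit 39) (nat_lit 78) (.st (nat_lit 38) (nat_lit 78) .nil))⟩,
  ⟨r13o_3, r7o_11, r5o_2, (.st (nat_lit 195) (nat_lit 390) (.st (nat_lit 194) (nat_lit 390) .nil))⟩,
  ⟨r13o_3, r7o_11, r5o_4, (.st (nat_lit 39) (nat_lit 78) (.st (nat_lit 38) (nat_lit 78) .nil))⟩,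
  ⟨r13o_3, r7o_11, r5o_6, (.st (nat_lit 39) (nat_lit 78) (.st (nat_lit 38) (nat_lit 78) .nil))⟩,
  ⟨r13o_3, r7o_11, r5o_8, (.st (nat_lit 195) (nat_lit 390) (.st (nat_lit 194) (nat_lit 390) .nil))⟩,
  ⟨r13o_3, r7o_13, r5o_1, (.st (nat_lit 13) (nat_lit 26) (.st (nat_lit 12) (nat_lit 26) .nil))⟩,
  ⟨r13o_3, r7o_13, r5o_2, (.st (nat_lit 65) (nat_lit 130) (.st (nat_lit 64) (nat_lit 130) .nil))⟩,
  ⟨r13o_3, r7o_13, r5o_4, (.st (nat_lit 13) (nat_lit 26) (.st (nat_lit 12) (nat_lit 26) .nil))⟩,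
  ⟨r13o_3, r7o_13, r5o_6, (.st (nat_lit 39) (nat_lit 78) (.st (nat_lit 38) (nat_lit 78) .nil))⟩,
  ⟨r13o_3, r7o_13, r5o_8, (.st (nat_lit 65) (nat_lit 130) (.st (nat_lit 64) (nat_lit 130) .nil))⟩,
  ⟨r13o_3, r7o_14, r5o_1, (.st (nat_lit 103) (nat_lit 104) (.st (nat_lit 0) (nat_lit 104) .nil))⟩,
  ⟨r13o_3, r7o_14, r5o_3, (.st (nat_lit 519) (nat_lit 520) (.st (nat_lit 0) (nat_lit 520) .nil))⟩,
  ⟨r13o_3, r7o_14, r5o_5, (.st (nat_lit 311) (nat_lit 312) (.st (nat_lit 0) (nat_lit 312) .nil))⟩,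
  ⟨r13o_3, r7o_14, r5o_7, (.st (nat_lit 103) (nat_lit 104) (.st (nat_lit 0) (nat_lit 104) .nil))⟩,
  ⟨r13o_3, r7o_14, r5o_9, (.st (nat_lit 519) (nat_lit 520) (.st (nat_lit 0) (nat_lit 520) .nil))⟩,
  ⟨r13o_3, r7o_15, r5o_1, (.st (nat_lit 51) (nat_lit 104) (.st (nat_lit 52) (nat_lit 104) .nil))⟩,
  ⟨r13o_3, r7o_15, r5o_3, (.st (nat_lit 259) (nat_lit 520) (.st (nat_lit 260) (nat_lit 520) .nil))⟩,
  ⟨r13o_3, r7o_15, r5o_5, (.st (nat_lit 155) (nat_lit 312) (.st (nat_lit 156) (nat_lit 312) .nil))⟩,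
  ⟨r13o_3, r7o_15, r5o_7, (.st (nat_lit 51) (nat_lit 104) (.st (nat_lit 52) (nat_lit 104) .nil))⟩,
  ⟨r13o_3, r7o_15, r5o_9, (.st (nat_lit 259) (nat_lit 520) (.st (nat_lit 260) (nat_lit 520) .nil))⟩,
  ⟨r13o_3, r7o_18, r5o_1, (.st (nat_lit 25) (nat_lit 26) (.st (nat_lit 0) (nat_lit 26) .nil))⟩,
  ⟨r13o_3, r7o_18, r5o_3, (.st (nat_lit 129) (nat_lit 130) (.st (nat_lit 0) (nat_lit 130) .nil))⟩,
  ⟨r13o_3, r7o_18, r5o_5, (.st (nat_lit 77) (nat_lit 78) (.st (nat_lit 0) (nat_lit 78) .nil))⟩,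
  ⟨r13o_3, r7o_18, r5o_7, (.st (nat_lit 25) (nat_lit 26) (.st (nat_lit 0) (nat_lit 26) .nil))⟩,
  ⟨r13o_3, r7o_18, r5o_9, (.st (nat_lit 129) (nat_lit 130) (.st (nat_lit 0) (nat_lit 130) .nil))⟩,
  ⟨r13o_3, r7o_22, r5o_1, (.st (nat_lit 77) (nat_lit 78) (.st (nat_lit 0) (nat_lit 78) .nil))⟩,
  ⟨r13o_3, r7o_22, r5o_3, (.st (nat_lit 389) (nat_lit 390) (.st (nat_lit 0) (nat_lit 390) .nil))⟩,
  ⟨r13o_3, r7o_22, r5o_5, (.st (nat_lit 77) (nat_lit 78) (.st (nat_lit 0) (nat_lit 78) .nil))⟩,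
  ⟨r13o_3, r7o_22, r5o_7, (.st (nat_lit 77) (nat_lit 78) (.st (nat_lit 0) (nat_lit 78) .nil))⟩,
  ⟨r13o_3, r7o_22, r5o_9, (.st (nat_lit 389) (nat_lit 390) (.st (nat_lit 0) (nat_lit 390) .nil))⟩,
  ⟨r13o_3, r7o_23, r5o_1, (.st (nat_lit 39) (nat_lit 78) (.st (nat_lit 38) (nat_lit 78) .nil))⟩,
  ⟨r13o_3, r7o_23, r5o_2, (.st (nat_lit 195) (nat_lit 390) (.st (nat_lit 194) (nat_lit 390) .nil))⟩,
  ⟨r13o_3, r7o_23, r5o_4, (.st (nat_lit 39) (nat_lit 78) (.st (nat_lit 38) (nat_lit 78) .nil))⟩,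
  ⟨r13o_3, r7o_23, r5o_6, (.st (nat_lit 39) (nat_lit 78) (.st (nat_lit 38) (nat_lit 78) .nil))⟩,
  ⟨r13o_3, r7o_23, r5o_8, (.st (nat_lit 195) (nat_lit 390) (.st (nat_lit 194) (nat_lit 390) .nil))⟩,
  ⟨r13o_3, r7o_26, r5o_1, (.st (nat_lit 103) (nat_lit 104) (.st (nat_lit 51) (nat_lit 104) (.st (nat_lit 52) (nat_lit 104) (.st (nat_lit 0) (nat_lit 104) .nil))))⟩,
  ⟨r13o_3, r7o_26, r5o_3, (.st (nat_lit 519) (nat_lit 520) (.st (nat_lit 259) (nat_lit 520) (.st (nat_lit 260) (nat_lit 520) (.st (nat_lit 0) (nat_lit 520) .nil))))⟩,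
  ⟨r13o_3, r7o_26, r5o_5, (.st (nat_lit 311) (nat_lit 312) (.st (nat_lit 155) (nat_lit 312) (.st (nat_lit 156) (nat_lit 312) (.st (nat_lit 0) (nat_lit 312) .nil))))⟩,
  ⟨r13o_3, r7o_26, r5o_7, (.st (nat_lit 103) (nat_lit 104) (.st (nat_lit 51) (nat_lit 104) (.st (nat_lit 52) (nat_lit 104) (.st (nat_lit 0) (nat_lit 104) .nil))))⟩,
  ⟨r13o_3, r7o_26, r5o_9, (.st (nat_lit 519) (nat_lit 520) (.st (nat_lit 259) (nat_lit 520) (.st (nat_lit 260) (nat_lit 520) (.st (nat_lit 0) (nat_lit 520) .nil))))⟩]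

/-- entries -/
def EA4 : List E3 := []

/-- entries -/
def EA5 : List E3 := []

/-- entries -/
def EA6 : List E3 := [⟨r13o_6, r7o_4, r5o_2, (.st (nat_lit 2) (nat_lit 5) .nil)⟩,
  ⟨r13o_6, r7o_4, r5o_3, (.st (nat_lit 2) (nat_lit 5) .nil)⟩]

/-- entries -/
def EA7 : List E3 := [⟨r13o_7, r7o_4, r5o_2, (.st (nat_lit 17) (nat_lit 35) .nil)⟩,
  ⟨r13o_7, r7o_4, r5o_3, (.st (nat_lit 17) (nat_lit 35) .nil)⟩]

/-- entries -/
def EA8 : List E3 := [⟨r13o_8, r7o_1, r5o_0, (.st (nat_lit 181) (nat_lit 182) (.st (nat_lit 0) (nat_lit 182) .nil))⟩,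
  ⟨r13o_8, r7o_1, r5o_2, (.st (nat_lit 909) (nat_lit 910) (.st (nat_lit 0) (nat_lit 910) .nil))⟩,
  ⟨r13o_8, r7o_1, r5o_4, (.st (nat_lit 181) (nat_lit 182) (.st (nat_lit 0) (nat_lit 182) .nil))⟩,
  ⟨r13o_8, r7o_1, r5o_6, (.st (nat_lit 545) (nat_lit 546) (.st (nat_lit 0) (nat_lit 546) .nil))⟩,
  ⟨r13o_8, r7o_1, r5o_8, (.st (nat_lit 909) (nat_lit 910) (.st (nat_lit 0) (nat_lit 910) .nil))⟩,
  ⟨r13o_8, r7o_2, r5o_1, (.st (nat_lit 90) (nat_lit 182) (.st (nat_lit 91) (nat_lit 182) .nil))⟩,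
  ⟨r13o_8, r7o_2, r5o_2, (.st (nat_lit 454) (nat_lit 910) (.st (nat_lit 455) (nat_lit 910) .nil))⟩,
  ⟨r13o_8, r7o_2, r5o_4, (.st (nat_lit 90) (nat_lit 182) (.st (nat_lit 91) (nat_lit 182) .nil))⟩,
  ⟨r13o_8, r7o_2, r5o_6, (.st (nat_lit 272) (nat_lit 546) (.st (nat_lit 273) (nat_lit 546) .nil))⟩,
  ⟨r13o_8, r7o_2, r5o_8, (.st (nat_lit 454) (nat_lit 910) (.st (nat_lit 455) (nat_lit 910) .nil))⟩,
  ⟨r13o_8, r7o_4, r5o_2, (.st (nat_lit 17) (nat_lit 35) .nil)⟩,
  ⟨r13o_8, r7o_4, r5o_3, (.st (nat_lit 17) (nat_lit 35) .nil)⟩,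
  ⟨r13o_8, r7o_5, r5o_0, (.st (nat_lit 727) (nat_lit 728) (.st (nat_lit 363) (nat_lit 728) (.st (nat_lit 364) (nat_lit 728) (.st (nat_lit 0) (nat_lit 728) .nil))))⟩,
  ⟨r13o_8, r7o_5, r5o_2, (.st (nat_lit 279) (nat_lit 280) (.st (nat_lit 139) (nat_lit 280) (.st (nat_lit 140) (nat_lit 280) (.st (nat_lit 0) (nat_lit 280) .nil))))⟩,
  ⟨r13o_8, r7o_5, r5o_4, (.st (nat_lit 727) (nat_lit 728) (.st (nat_lit 363) (nat_lit 728) (.st (nat_lit 364) (nat_lit 728) (.st (nat_lit 0) (nat_lit 728) .nil))))⟩,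
  ⟨r13o_8, r7o_5, r5o_6, (.st (nat_lit 2183) (nat_lit 2184) (.st (nat_lit 1091) (nat_lit 2184) (.st (nat_lit 1092) (nat_lit 2184) (.st (nat_lit 0) (nat_lit 2184) .nil))))⟩,
  ⟨r13o_8, r7o_5, r5o_8, (.st (nat_lit 3639) (nat_lit 3640) (.st (nat_lit 1819) (nat_lit 3640) (.st (nat_lit 1820) (nat_lit 3640) (.st (nat_lit 0) (nat_lit 3640) .nil))))⟩,
  ⟨r13o_8, r7o_9, r5o_0, (.st (nat_lit 545) (nat_lit 546) (.st (nat_lit 0) (nat_lit 546) .nil))⟩,
  ⟨r13o_8, r7o_9, r5o_2, (.st (nat_lit 2729) (nat_lit 2730) (.st (nat_lit 0) (nat_lit 2730) .nil))⟩,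
  ⟨r13o_8, r7o_9, r5o_4, (.st (nat_lit 545) (nat_lit 546) (.st (nat_lit 0) (nat_lit 546) .nil))⟩,
  ⟨r13o_8, r7o_9, r5o_6, (.st (nat_lit 545) (nat_lit 546) (.st (nat_lit 0) (nat_lit 546) .nil))⟩,
  ⟨r13o_8, r7o_9, r5o_8, (.st (nat_lit 2729) (nat_lit 2730) (.st (nat_lit 0) (nat_lit 2730) .nil))⟩,
  ⟨r13o_8, r7o_11, r5o_1, (.st (nat_lit 272) (nat_lit 546) (.st (nat_lit 273) (nat_lit 546) .nil))⟩,
  ⟨r13o_8, r7o_11, r5o_2, (.st (nat_lit 1364) (nat_lit 2730) (.st (nat_lit 1365) (nat_lit 2730) .nil))⟩,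
  ⟨r13o_8, r7o_11, r5o_4, (.st (nat_lit 272) (nat_lit 546) (.st (nat_lit 273) (nat_lit 546) .nil))⟩,
  ⟨r13o_8, r7o_11, r5o_6, (.st (nat_lit 272) (nat_lit 546) (.st (nat_lit 273) (nat_lit 546) .nil))⟩,
  ⟨r13o_8, r7o_11, r5o_8, (.st (nat_lit 1364) (nat_lit 2730) (.st (nat_lit 1365) (nat_lit 2730) .nil))⟩,
  ⟨r13o_8, r7o_13, r5o_0, (.st (nat_lit 181) (nat_lit 182) (.st (nat_lit 0) (nat_lit 182) .nil))⟩,
  ⟨r13o_8, r7o_13, r5o_1, (.st (nat_lit 90) (nat_lit 182) (.st (nat_lit 91) (nat_lit 182) .nil))⟩,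
  ⟨r13o_8, r7o_13, r5o_2, (.st (nat_lit 454) (nat_lit 455) (.st (nat_lit 0) (nat_lit 455) .nil))⟩,
  ⟨r13o_8, r7o_13, r5o_4, (.st (nat_lit 90) (nat_lit 91) (.st (nat_lit 0) (nat_lit 91) .nil))⟩,
  ⟨r13o_8, r7o_13, r5o_6, (.st (nat_lit 272) (nat_lit 273) (.st (nat_lit 0) (nat_lit 273) .nil))⟩,
  ⟨r13o_8, r7o_13, r5o_8, (.st (nat_lit 454) (nat_lit 455) (.st (nat_lit 0) (nat_lit 455) .nil))⟩,
  ⟨r13o_8, r7o_16, r5o_0, (.st (nat_lit 363) (nat_lit 728) (.st (nat_lit 364) (nat_lit 728) .nil))⟩,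
  ⟨r13o_8, r7o_16, r5o_2, (.st (nat_lit 1819) (nat_lit 3640) (.st (nat_lit 1820) (nat_lit 3640) .nil))⟩,
  ⟨r13o_8, r7o_16, r5o_4, (.st (nat_lit 363) (nat_lit 728) (.st (nat_lit 364) (nat_lit 728) .nil))⟩,
  ⟨r13o_8, r7o_16, r5o_6, (.st (nat_lit 1091) (nat_lit 2184) (.st (nat_lit 1092) (nat_lit 2184) .nil))⟩,
  ⟨r13o_8, r7o_16, r5o_8, (.st (nat_lit 1819) (nat_lit 3640) (.st (nat_lit 1820) (nat_lit 3640) .nil))⟩,
  ⟨r13o_8, r7o_17, r5o_0, (.st (nat_lit 727) (nat_lit 728) (.st (nat_lit 0) (nat_lit 728) .nil))⟩,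
  ⟨r13o_8, r7o_17, r5o_2, (.st (nat_lit 3639) (nat_lit 3640) (.st (nat_lit 0) (nat_lit 3640) .nil))⟩,
  ⟨r13o_8, r7o_17, r5o_4, (.st (nat_lit 727) (nat_lit 728) (.st (nat_lit 0) (nat_lit 728) .nil))⟩,
  ⟨r13o_8, r7o_17, r5o_6, (.st (nat_lit 2183) (nat_lit 2184) (.st (nat_lit 0) (nat_lit 2184) .nil))⟩,
  ⟨r13o_8, r7o_17, r5o_8, (.st (nat_lit 3639) (nat_lit 3640) (.st (nat_lit 0) (nat_lit 3640) .nil))⟩,
  ⟨r13o_8, r7o_21, r5o_0, (.st (nat_lit 545) (nat_lit 546) (.st (nat_lit 0) (nat_lit 546) .nil))⟩,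
  ⟨r13o_8, r7o_21, r5o_2, (.st (nat_lit 2729) (nat_lit 2730) (.st (nat_lit 0) (nat_lit 2730) .nil))⟩,
  ⟨r13o_8, r7o_21, r5o_4, (.st (nat_lit 545) (nat_lit 546) (.st (nat_lit 0) (nat_lit 546) .nil))⟩,
  ⟨r13o_8, r7o_21, r5o_6, (.st (nat_lit 545) (nat_lit 546) (.st (nat_lit 0) (nat_lit 546) .nil))⟩,
  ⟨r13o_8, r7o_21, r5o_8, (.st (nat_lit 2729) (nat_lit 2730) (.st (nat_lit 0) (nat_lit 2730) .nil))⟩,
  ⟨r13o_8, r7o_23, r5o_1, (.st (nat_lit 272) (nat_lit 546) (.st (nat_lit 273) (nat_lit 546) .nil))⟩,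
  ⟨r13o_8, r7o_23, r5o_2, (.st (nat_lit 1364) (nat_lit 2730) (.st (nat_lit 1365) (nat_lit 2730) .nil))⟩,
  ⟨r13o_8, r7o_23, r5o_4, (.st (nat_lit 272) (nat_lit 546) (.st (nat_lit 273) (nat_lit 546) .nil))⟩,
  ⟨r13o_8, r7o_23, r5o_6, (.st (nat_lit 272) (nat_lit 546) (.st (nat_lit 273) (nat_lit 546) .nil))⟩,
  ⟨r13o_8, r7o_23, r5o_8, (.st (nat_lit 1364) (nat_lit 2730) (.st (nat_lit 1365) (nat_lit 2730) .nil))⟩,
  ⟨r13o_8, r7o_24, r5o_0, (.st (nat_lit 363) (nat_lit 728) (.st (nat_lit 364) (nat_lit 728) .nil))⟩,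
  ⟨r13o_8, r7o_24, r5o_2, (.st (nat_lit 1819) (nat_lit 3640) (.st (nat_lit 1820) (nat_lit 3640) .nil))⟩,
  ⟨r13o_8, r7o_24, r5o_4, (.st (nat_lit 363) (nat_lit 728) (.st (nat_lit 364) (nat_lit 728) .nil))⟩,
  ⟨r13o_8, r7o_24, r5o_6, (.st (nat_lit 1091) (nat_lit 2184) (.st (nat_lit 1092) (nat_lit 2184) .nil))⟩,
  ⟨r13o_8, r7o_24, r5o_8, (.st (nat_lit 1819) (nat_lit 3640) (.st (nat_lit 1820) (nat_lit 3640) .nil))⟩,
  ⟨r13o_8, r7o_25, r5o_0, (.st (nat_lit 727) (nat_lit 728) (.st (nat_lit 0) (nat_lit 728) .nil))⟩,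
  ⟨r13o_8, r7o_25, r5o_2, (.st (nat_lit 3639) (nat_lit 3640) (.st (nat_lit 0) (nat_lit 3640) .nil))⟩,
  ⟨r13o_8, r7o_25, r5o_4, (.st (nat_lit 727) (nat_lit 728) (.st (nat_lit 0) (nat_lit 728) .nil))⟩,
  ⟨r13o_8, r7o_25, r5o_6, (.st (nat_lit 2183) (nat_lit 2184) (.st (nat_lit 0) (nat_lit 2184) .nil))⟩,
  ⟨r13o_8, r7o_25, r5o_8, (.st (nat_lit 3639) (nat_lit 3640) (.st (nat_lit 0) (nat_lit 3640) .nil))⟩]

/-- entries -/
def EA9 : List E3 := [⟨r13o_9, r7o_1, r5o_0, (.st (nat_lit 90) (nat_lit 182) (.st (nat_lit 91) (nat_lit 182) .nil))⟩,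
  ⟨r13o_9, r7o_1, r5o_3, (.st (nat_lit 454) (nat_lit 910) (.st (nat_lit 455) (nat_lit 910) .nil))⟩,
  ⟨r13o_9, r7o_1, r5o_5, (.st (nat_lit 272) (nat_lit 546) (.st (nat_lit 273) (nat_lit 546) .nil))⟩,
  ⟨r13o_9, r7o_1, r5o_7, (.st (nat_lit 90) (nat_lit 182) (.st (nat_lit 91) (nat_lit 182) .nil))⟩,
  ⟨r13o_9, r7o_1, r5o_9, (.st (nat_lit 454) (nat_lit 910) (.st (nat_lit 455) (nat_lit 910) .nil))⟩,
  ⟨r13o_9, r7o_2, r5o_1, (.st (nat_lit 181) (nat_lit 182) (.st (nat_lit 0) (nat_lit 182) .nil))⟩,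
  ⟨r13o_9, r7o_2, r5o_3, (.st (nat_lit 909) (nat_lit 910) (.st (nat_lit 0) (nat_lit 910) .nil))⟩,
  ⟨r13o_9, r7o_2, r5o_5, (.st (nat_lit 545) (nat_lit 546) (.st (nat_lit 0) (nat_lit 546) .nil))⟩,
  ⟨r13o_9, r7o_2, r5o_7, (.st (nat_lit 181) (nat_lit 182) (.st (nat_lit 0) (nat_lit 182) .nil))⟩,
  ⟨r13o_9, r7o_2, r5o_9, (.st (nat_lit 909) (nat_lit 910) (.st (nat_lit 0) (nat_lit 910) .nil))⟩,
  ⟨r13o_9, r7o_4, r5o_2, (.st (nat_lit 17) (nat_lit 35) .nil)⟩,
  ⟨r13o_9, r7o_4, r5o_3, (.st (nat_lit 17) (nat_lit 35) .nil)⟩,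
  ⟨r13o_9, r7o_4, r5o_4, (.st (nat_lit 3) (nat_lit 7) .nil)⟩,
  ⟨r13o_9, r7o_4, r5o_5, (.st (nat_lit 10) (nat_lit 21) .nil)⟩,
  ⟨r13o_9, r7o_4, r5o_6, (.st (nat_lit 10) (nat_lit 21) .nil)⟩,
  ⟨r13o_9, r7o_4, r5o_7, (.st (nat_lit 3) (nat_lit 7) .nil)⟩,
  ⟨r13o_9, r7o_4, r5o_8, (.st (nat_lit 17) (nat_lit 35) .nil)⟩,
  ⟨r13o_9, r7o_4, r5o_9, (.st (nat_lit 17) (nat_lit 35) .nil)⟩,
  ⟨r13o_9, r7o_6, r5o_1, (.st (nat_lit 55) (nat_lit 56) (.st (nat_lit 0) (nat_lit 56) .nil))⟩,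
  ⟨r13o_9, r7o_6, r5o_3, (.st (nat_lit 279) (nat_lit 280) (.st (nat_lit 0) (nat_lit 280) .nil))⟩,
  ⟨r13o_9, r7o_6, r5o_5, (.st (nat_lit 167) (nat_lit 168) (.st (nat_lit 0) (nat_lit 168) .nil))⟩,
  ⟨r13o_9, r7o_6, r5o_7, (.st (nat_lit 55) (nat_lit 56) (.st (nat_lit 0) (nat_lit 56) .nil))⟩,
  ⟨r13o_9, r7o_6, r5o_9, (.st (nat_lit 279) (nat_lit 280) (.st (nat_lit 0) (nat_lit 280) .nil))⟩,
  ⟨r13o_9, r7o_7, r5o_1, (.st (nat_lit 27) (nat_lit 56) (.st (nat_lit 28) (nat_lit 56) .nil))⟩,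
  ⟨r13o_9, r7o_7, r5o_3, (.st (nat_lit 139) (nat_lit 280) (.st (nat_lit 140) (nat_lit 280) .nil))⟩,
  ⟨r13o_9, r7o_7, r5o_5, (.st (nat_lit 83) (nat_lit 168) (.st (nat_lit 84) (nat_lit 168) .nil))⟩,
  ⟨r13o_9, r7o_7, r5o_7, (.st (nat_lit 27) (nat_lit 56) (.st (nat_lit 28) (nat_lit 56) .nil))⟩,
  ⟨r13o_9, r7o_7, r5o_9, (.st (nat_lit 139) (nat_lit 280) (.st (nat_lit 140) (nat_lit 280) .nil))⟩,
  ⟨r13o_9, r7o_8, r5o_0, (.st (nat_lit 272) (nat_lit 546) (.st (nat_lit 273) (nat_lit 546) .nil))⟩,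
  ⟨r13o_9, r7o_8, r5o_3, (.st (nat_lit 1364) (nat_lit 2730) (.st (nat_lit 1365) (nat_lit 2730) .nil))⟩,
  ⟨r13o_9, r7o_8, r5o_5, (.st (nat_lit 272) (nat_lit 546) (.st (nat_lit 273) (nat_lit 546) .nil))⟩,
  ⟨r13o_9, r7o_8, r5o_7, (.st (nat_lit 272) (nat_lit 546) (.st (nat_lit 273) (nat_lit 546) .nil))⟩,
  ⟨r13o_9, r7o_8, r5o_9, (.st (nat_lit 1364) (nat_lit 2730) (.st (nat_lit 1365) (nat_lit 2730) .nil))⟩,
  ⟨r13o_9, r7o_10, r5o_1, (.st (nat_lit 545) (nat_lit 546) (.st (nat_lit 0) (nat_lit 546) .nil))⟩,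
  ⟨r13o_9, r7o_10, r5o_3, (.st (nat_lit 2729) (nat_lit 2730) (.st (nat_lit 0) (nat_lit 2730) .nil))⟩,
  ⟨r13o_9, r7o_10, r5o_5, (.st (nat_lit 545) (nat_lit 546) (.st (nat_lit 0) (nat_lit 546) .nil))⟩,
  ⟨r13o_9, r7o_10, r5o_7, (.st (nat_lit 545) (nat_lit 546) (.st (nat_lit 0) (nat_lit 546) .nil))⟩,
  ⟨r13o_9, r7o_10, r5o_9, (.st (nat_lit 2729) (nat_lit 2730) (.st (nat_lit 0) (nat_lit 2730) .nil))⟩,
  ⟨r13o_9, r7o_14, r5o_1, (.st (nat_lit 727) (nat_lit 728) (.st (nat_lit 0) (nat_lit 728) .nil))⟩,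
  ⟨r13o_9, r7o_14, r5o_3, (.st (nat_lit 3639) (nat_lit 3640) (.st (nat_lit 0) (nat_lit 3640) .nil))⟩,
  ⟨r13o_9, r7o_14, r5o_5, (.st (nat_lit 2183) (nat_lit 2184) (.st (nat_lit 0) (nat_lit 2184) .nil))⟩,
  ⟨r13o_9, r7o_14, r5o_7, (.st (nat_lit 727) (nat_lit 728) (.st (nat_lit 0) (nat_lit 728) .nil))⟩,
  ⟨r13o_9, r7o_14, r5o_9, (.st (nat_lit 3639) (nat_lit 3640) (.st (nat_lit 0) (nat_lit 3640) .nil))⟩,
  ⟨r13o_9, r7o_15, r5o_1, (.st (nat_lit 363) (nat_lit 728) (.st (nat_lit 364) (nat_lit 728) .nil))⟩,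
  ⟨r13o_9, r7o_15, r5o_3, (.st (nat_lit 1819) (nat_lit 3640) (.st (nat_lit 1820) (nat_lit 3640) .nil))⟩,
  ⟨r13o_9, r7o_15, r5o_5, (.st (nat_lit 1091) (nat_lit 2184) (.st (nat_lit 1092) (nat_lit 2184) .nil))⟩,
  ⟨r13o_9, r7o_15, r5o_7, (.st (nat_lit 363) (nat_lit 728) (.st (nat_lit 364) (nat_lit 728) .nil))⟩,
  ⟨r13o_9, r7o_15, r5o_9, (.st (nat_lit 1819) (nat_lit 3640) (.st (nat_lit 1820) (nat_lit 3640) .nil))⟩,
  ⟨r13o_9, r7o_18, r5o_0, (.st (nat_lit 90) (nat_lit 182) (.st (nat_lit 91) (nat_lit 182) .nil))⟩,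
  ⟨r13o_9, r7o_18, r5o_1, (.st (nat_lit 181) (nat_lit 182) (.st (nat_lit 0) (nat_lit 182) .nil))⟩,
  ⟨r13o_9, r7o_18, r5o_3, (.st (nat_lit 454) (nat_lit 455) (.st (nat_lit 0) (nat_lit 455) .nil))⟩,
  ⟨r13o_9, r7o_18, r5o_5, (.st (nat_lit 272) (nat_lit 273) (.st (nat_lit 0) (nat_lit 273) .nil))⟩,
  ⟨r13o_9, r7o_18, r5o_7, (.st (nat_lit 90) (nat_lit 91) (.st (nat_lit 0) (nat_lit 91) .nil))⟩,
  ⟨r13o_9, r7o_18, r5o_9, (.st (nat_lit 454) (nat_lit 455) (.st (nat_lit 0) (nat_lit 455) .nil))⟩,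
  ⟨r13o_9, r7o_20, r5o_0, (.st (nat_lit 272) (nat_lit 546) (.st (nat_lit 273) (nat_lit 546) .nil))⟩,
  ⟨r13o_9, r7o_20, r5o_3, (.st (nat_lit 1364) (nat_lit 2730) (.st (nat_lit 1365) (nat_lit 2730) .nil))⟩,
  ⟨r13o_9, r7o_20, r5o_5, (.st (nat_lit 272) (nat_lit 546) (.st (nat_lit 273) (nat_lit 546) .nil))⟩,
  ⟨r13o_9, r7o_20, r5o_7, (.st (nat_lit 272) (nat_lit 546) (.st (nat_lit 273) (nat_lit 546) .nil))⟩,
  ⟨r13o_9, r7o_20, r5o_9, (.st (nat_lit 1364) (nat_lit 2730) (.st (nat_lit 1365) (nat_lit 2730) .nil))⟩,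
  ⟨r13o_9, r7o_22, r5o_1, (.st (nat_lit 545) (nat_lit 546) (.st (nat_lit 0) (nat_lit 546) .nil))⟩,
  ⟨r13o_9, r7o_22, r5o_3, (.st (nat_lit 2729) (nat_lit 2730) (.st (nat_lit 0) (nat_lit 2730) .nil))⟩,
  ⟨r13o_9, r7o_22, r5o_5, (.st (nat_lit 545) (nat_lit 546) (.st (nat_lit 0) (nat_lit 546) .nil))⟩,
  ⟨r13o_9, r7o_22, r5o_7, (.st (nat_lit 545) (nat_lit 546) (.st (nat_lit 0) (nat_lit 546) .nil))⟩,
  ⟨r13o_9, r7o_22, r5o_9, (.st (nat_lit 2729) (nat_lit 2730) (.st (nat_lit 0) (nat_lit 2730) .nil))⟩,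
  ⟨r13o_9, r7o_26, r5o_1, (.st (nat_lit 55) (nat_lit 56) (.st (nat_lit 27) (nat_lit 56) (.st (nat_lit 28) (nat_lit 56) (.st (nat_lit 0) (nat_lit 56) .nil))))⟩,
  ⟨r13o_9, r7o_26, r5o_3, (.st (nat_lit 279) (nat_lit 280) (.st (nat_lit 139) (nat_lit 280) (.st (nat_lit 140) (nat_lit 280) (.st (nat_lit 0) (nat_lit 280) .nil))))⟩,
  ⟨r13o_9, r7o_26, r5o_5, (.st (nat_lit 167) (nat_lit 168) (.st (nat_lit 83) (nat_lit 168) (.st (nat_lit 84) (nat_lit 168) (.st (nat_lit 0) (nat_lit 168) .nil))))⟩,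
  ⟨r13o_9, r7o_26, r5o_7, (.st (nat_lit 55) (nat_lit 56) (.st (nat_lit 27) (nat_lit 56) (.st (nat_lit 28) (nat_lit 56) (.st (nat_lit 0) (nat_lit 56) .nil))))⟩,
  ⟨r13o_9, r7o_26, r5o_9, (.st (nat_lit 279) (nat_lit 280) (.st (nat_lit 139) (nat_lit 280) (.st (nat_lit 140) (nat_lit 280) (.st (nat_lit 0) (nat_lit 280) .nil))))⟩]

/-- entries -/
def EA10 : List E3 := [⟨r13o_10, r7o_4, r5o_2, (.st (nat_lit 17) (nat_lit 35) .nil)⟩,
  ⟨r13o_10, r7o_4, r5o_3, (.st (nat_lit 17) (nat_lit 35) .nil)⟩,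
  ⟨r13o_10, r7o_6, r5o_2, (.st (nat_lit 137) (nat_lit 280) (.st (nat_lit 142) (nat_lit 280) .nil))⟩,
  ⟨r13o_10, r7o_6, r5o_3, (.st (nat_lit 143) (nat_lit 280) (.st (nat_lit 136) (nat_lit 280) .nil))⟩,
  ⟨r13o_10, r7o_7, r5o_2, (.st (nat_lit 277) (nat_lit 280) (.st (nat_lit 2) (nat_lit 280) .nil))⟩,
  ⟨r13o_10, r7o_7, r5o_3, (.st (nat_lit 276) (nat_lit 280) (.st (nat_lit 3) (nat_lit 280) .nil))⟩]

/-- entries -/
def EA11 : List E3 := [⟨r13o_11, r7o_4, r5o_2, (.st (nat_lit 17) (nat_lit 35) .nil)⟩,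
  ⟨r13o_11, r7o_4, r5o_3, (.st (nat_lit 17) (nat_lit 35) .nil)⟩]

/-- entries -/
def EA12 : List E3 := [⟨r13o_12, r7o_8, r5o_4, (.st (nat_lit 40) (nat_lit 42) (.st (nat_lit 1) (nat_lit 42) .nil))⟩,
  ⟨r13o_12, r7o_8, r5o_5, (.st (nat_lit 544) (nat_lit 546) (.st (nat_lit 1) (nat_lit 546) .nil))⟩,
  ⟨r13o_12, r7o_10, r5o_4, (.st (nat_lit 19) (nat_lit 42) (.st (nat_lit 22) (nat_lit 42) .nil))⟩,
  ⟨r13o_12, r7o_10, r5o_5, (.st (nat_lit 271) (nat_lit 546) (.st (nat_lit 274) (nat_lit 546) .nil))⟩,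
  ⟨r13o_12, r7o_13, r5o_8, (.st (nat_lit 17) (nat_lit 35) .nil)⟩,
  ⟨r13o_12, r7o_13, r5o_9, (.st (nat_lit 17) (nat_lit 35) .nil)⟩]

/-- entries -/
def EA13 : List E3 := [⟨r13o_13, r7o_13, r5o_8, (.st (nat_lit 2) (nat_lit 5) .nil)⟩,
  ⟨r13o_13, r7o_13, r5o_9, (.st (nat_lit 2) (nat_lit 5) .nil)⟩]

/-- entries -/
def EA14 : List E3 := [⟨r13o_14, r7o_1, r5o_0, (.st (nat_lit 181) (nat_lit 182) (.st (nat_lit 0) (nat_lit 182) .nil))⟩,
  ⟨r13o_14, r7o_1, r5o_2, (.st (nat_lit 909) (nat_lit 910) (.st (nat_lit 0) (nat_lit 910) .nil))⟩,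
  ⟨r13o_14, r7o_1, r5o_4, (.st (nat_lit 181) (nat_lit 182) (.st (nat_lit 0) (nat_lit 182) .nil))⟩,
  ⟨r13o_14, r7o_1, r5o_6, (.st (nat_lit 545) (nat_lit 546) (.st (nat_lit 0) (nat_lit 546) .nil))⟩,
  ⟨r13o_14, r7o_1, r5o_8, (.st (nat_lit 909) (nat_lit 910) (.st (nat_lit 0) (nat_lit 910) .nil))⟩,
  ⟨r13o_14, r7o_2, r5o_1, (.st (nat_lit 90) (nat_lit 182) (.st (nat_lit 91) (nat_lit 182) .nil))⟩,
  ⟨r13o_14, r7o_2, r5o_2, (.st (nat_lit 454) (nat_lit 910) (.st (nat_lit 455) (nat_lit 910) .nil))⟩,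
  ⟨r13o_14, r7o_2, r5o_4, (.st (nat_lit 90) (nat_lit 182) (.st (nat_lit 91) (nat_lit 182) .nil))⟩,
  ⟨r13o_14, r7o_2, r5o_6, (.st (nat_lit 272) (nat_lit 546) (.st (nat_lit 273) (nat_lit 546) .nil))⟩,
  ⟨r13o_14, r7o_2, r5o_8, (.st (nat_lit 454) (nat_lit 910) (.st (nat_lit 455) (nat_lit 910) .nil))⟩,
  ⟨r13o_14, r7o_4, r5o_9, (.st (nat_lit 447) (nat_lit 455) (.st (nat_lit 7) (nat_lit 455) .nil))⟩,
  ⟨r13o_14, r7o_5, r5o_0, (.st (nat_lit 55) (nat_lit 56) (.st (nat_lit 27) (nat_lit 56) (.st (nat_lit 28) (nat_lit 56) (.st (nat_lit 0) (nat_lit 56) .nil))))⟩,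
  ⟨r13o_14, r7o_5, r5o_2, (.st (nat_lit 3639) (nat_lit 3640) (.st (nat_lit 1819) (nat_lit 3640) (.st (nat_lit 1820) (nat_lit 3640) (.st (nat_lit 0) (nat_lit 3640) .nil))))⟩,
  ⟨r13o_14, r7o_5, r5o_4, (.st (nat_lit 55) (nat_lit 56) (.st (nat_lit 27) (nat_lit 56) (.st (nat_lit 28) (nat_lit 56) (.st (nat_lit 0) (nat_lit 56) .nil))))⟩,
  ⟨r13o_14, r7o_5, r5o_6, (.st (nat_lit 167) (nat_lit 168) (.st (nat_lit 83) (nat_lit 168) (.st (nat_lit 84) (nat_lit 168) (.st (nat_lit 0) (nat_lit 168) .nil))))⟩,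
  ⟨r13o_14, r7o_5, r5o_8, (.st (nat_lit 3639) (nat_lit 3640) (.st (nat_lit 1819) (nat_lit 3640) (.st (nat_lit 1820) (nat_lit 3640) (.st (nat_lit 0) (nat_lit 3640) .nil))))⟩,
  ⟨r13o_14, r7o_9, r5o_0, (.st (nat_lit 545) (nat_lit 546) (.st (nat_lit 0) (nat_lit 546) .nil))⟩,
  ⟨r13o_14, r7o_9, r5o_2, (.st (nat_lit 2729) (nat_lit 2730) (.st (nat_lit 0) (nat_lit 2730) .nil))⟩,
  ⟨r13o_14, r7o_9, r5o_4, (.st (nat_lit 41) (nat_lit 42) (.st (nat_lit 0) (nat_lit 42) .nil))⟩,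
  ⟨r13o_14, r7o_9, r5o_6, (.st (nat_lit 545) (nat_lit 546) (.st (nat_lit 0) (nat_lit 546) .nil))⟩,
  ⟨r13o_14, r7o_9, r5o_8, (.st (nat_lit 2729) (nat_lit 2730) (.st (nat_lit 0) (nat_lit 2730) .nil))⟩,
  ⟨r13o_14, r7o_11, r5o_1, (.st (nat_lit 272) (nat_lit 546) (.st (nat_lit 273) (nat_lit 546) .nil))⟩,
  ⟨r13o_14, r7o_11, r5o_2, (.st (nat_lit 1364) (nat_lit 2730) (.st (nat_lit 1365) (nat_lit 2730) .nil))⟩,
  ⟨r13o_14, r7o_11, r5o_4, (.st (nat_lit 20) (nat_lit 42) (.st (nat_lit 21) (nat_lit 42) .nil))⟩,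
  ⟨r13o_14, r7o_11, r5o_6, (.st (nat_lit 272) (nat_lit 546) (.st (nat_lit 273) (nat_lit 546) .nil))⟩,
  ⟨r13o_14, r7o_11, r5o_8, (.st (nat_lit 1364) (nat_lit 2730) (.st (nat_lit 1365) (nat_lit 2730) .nil))⟩,
  ⟨r13o_14, r7o_13, r5o_0, (.st (nat_lit 181) (nat_lit 182) (.st (nat_lit 0) (nat_lit 182) .nil))⟩,
  ⟨r13o_14, r7o_13, r5o_1, (.st (nat_lit 90) (nat_lit 182) (.st (nat_lit 91) (nat_lit 182) .nil))⟩,
  ⟨r13o_14, r7o_13, r5o_2, (.st (nat_lit 454) (nat_lit 455) (.st (nat_lit 0) (nat_lit 455) .nil))⟩,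
  ⟨r13o_14, r7o_13, r5o_4, (.st (nat_lit 90) (nat_lit 91) (.st (nat_lit 0) (nat_lit 91) .nil))⟩,
  ⟨r13o_14, r7o_13, r5o_6, (.st (nat_lit 272) (nat_lit 273) (.st (nat_lit 0) (nat_lit 273) .nil))⟩,
  ⟨r13o_14, r7o_13, r5o_8, (.st (nat_lit 34) (nat_lit 35) (.st (nat_lit 17) (nat_lit 35) (.st (nat_lit 0) (nat_lit 35) .nil)))⟩,
  ⟨r13o_14, r7o_13, r5o_9, (.st (nat_lit 17) (nat_lit 35) .nil)⟩,
  ⟨r13o_14, r7o_16, r5o_0, (.st (nat_lit 363) (nat_lit 728) (.st (nat_lit 364) (nat_lit 728) .nil))⟩,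
  ⟨r13o_14, r7o_16, r5o_2, (.st (nat_lit 1819) (nat_lit 3640) (.st (nat_lit 1820) (nat_lit 3640) .nil))⟩,
  ⟨r13o_14, r7o_16, r5o_4, (.st (nat_lit 363) (nat_lit 728) (.st (nat_lit 364) (nat_lit 728) .nil))⟩,
  ⟨r13o_14, r7o_16, r5o_6, (.st (nat_lit 1091) (nat_lit 2184) (.st (nat_lit 1092) (nat_lit 2184) .nil))⟩,
  ⟨r13o_14, r7o_16, r5o_8, (.st (nat_lit 1819) (nat_lit 3640) (.st (nat_lit 1820) (nat_lit 3640) .nil))⟩,
  ⟨r13o_14, r7o_17, r5o_0, (.st (nat_lit 727) (nat_lit 728) (.st (nat_lit 0) (nat_lit 728) .nil))⟩,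
  ⟨r13o_14, r7o_17, r5o_2, (.st (nat_lit 3639) (nat_lit 3640) (.st (nat_lit 0) (nat_lit 3640) .nil))⟩,
  ⟨r13o_14, r7o_17, r5o_4, (.st (nat_lit 727) (nat_lit 728) (.st (nat_lit 0) (nat_lit 728) .nil))⟩,
  ⟨r13o_14, r7o_17, r5o_6, (.st (nat_lit 2183) (nat_lit 2184) (.st (nat_lit 0) (nat_lit 2184) .nil))⟩,
  ⟨r13o_14, r7o_17, r5o_8, (.st (nat_lit 3639) (nat_lit 3640) (.st (nat_lit 0) (nat_lit 3640) .nil))⟩,
  ⟨r13o_14, r7o_21, r5o_0, (.st (nat_lit 545) (nat_lit 546) (.st (nat_lit 0) (nat_lit 546) .nil))⟩,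
  ⟨r13o_14, r7o_21, r5o_2, (.st (nat_lit 2729) (nat_lit 2730) (.st (nat_lit 2728) (nat_lit 2730) (.st (nat_lit 1) (nat_lit 2730) (.st (nat_lit 0) (nat_lit 2730) .nil))))⟩,
  ⟨r13o_14, r7o_21, r5o_4, (.st (nat_lit 545) (nat_lit 546) (.st (nat_lit 0) (nat_lit 546) .nil))⟩,
  ⟨r13o_14, r7o_21, r5o_6, (.st (nat_lit 545) (nat_lit 546) (.st (nat_lit 362) (nat_lit 546) (.st (nat_lit 183) (nat_lit 546) (.st (nat_lit 0) (nat_lit 546) .nil))))⟩,
  ⟨r13o_14, r7o_21, r5o_8, (.st (nat_lit 2729) (nat_lit 2730) (.st (nat_lit 0) (nat_lit 2730) .nil))⟩,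
  ⟨r13o_14, r7o_23, r5o_1, (.st (nat_lit 272) (nat_lit 546) (.st (nat_lit 273) (nat_lit 546) .nil))⟩,
  ⟨r13o_14, r7o_23, r5o_2, (.st (nat_lit 1364) (nat_lit 2730) (.st (nat_lit 1363) (nat_lit 2730) (.st (nat_lit 1366) (nat_lit 2730) (.st (nat_lit 1365) (nat_lit 2730) .nil))))⟩,
  ⟨r13o_14, r7o_23, r5o_4, (.st (nat_lit 272) (nat_lit 546) (.st (nat_lit 273) (nat_lit 546) .nil))⟩,
  ⟨r13o_14, r7o_23, r5o_6, (.st (nat_lit 272) (nat_lit 546) (.st (nat_lit 89) (nat_lit 546) (.st (nat_lit 456) (nat_lit 546) (.st (nat_lit 273) (nat_lit 546) .nil))))⟩,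
  ⟨r13o_14, r7o_23, r5o_8, (.st (nat_lit 1364) (nat_lit 2730) (.st (nat_lit 1365) (nat_lit 2730) .nil))⟩,
  ⟨r13o_14, r7o_24, r5o_0, (.st (nat_lit 363) (nat_lit 728) (.st (nat_lit 364) (nat_lit 728) .nil))⟩,
  ⟨r13o_14, r7o_24, r5o_2, (.st (nat_lit 1819) (nat_lit 3640) (.st (nat_lit 1820) (nat_lit 3640) .nil))⟩,
  ⟨r13o_14, r7o_24, r5o_4, (.st (nat_lit 363) (nat_lit 728) (.st (nat_lit 364) (nat_lit 728) .nil))⟩,
  ⟨r13o_14, r7o_24, r5o_6, (.st (nat_lit 1091) (nat_lit 2184) (.st (nat_lit 1092) (nat_lit 2184) .nil))⟩,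
  ⟨r13o_14, r7o_24, r5o_8, (.st (nat_lit 1819) (nat_lit 3640) (.st (nat_lit 1820) (nat_lit 3640) .nil))⟩,
  ⟨r13o_14, r7o_25, r5o_0, (.st (nat_lit 727) (nat_lit 728) (.st (nat_lit 0) (nat_lit 728) .nil))⟩,
  ⟨r13o_14, r7o_25, r5o_2, (.st (nat_lit 3639) (nat_lit 3640) (.st (nat_lit 0) (nat_lit 3640) .nil))⟩,
  ⟨r13o_14, r7o_25, r5o_4, (.st (nat_lit 727) (nat_lit 728) (.st (nat_lit 0) (nat_lit 728) .nil))⟩,
  ⟨r13o_14, r7o_25, r5o_6, (.st (nat_lit 2183) (nat_lit 2184) (.st (nat_lit 0) (nat_lit 2184) .nil))⟩,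
  ⟨r13o_14, r7o_25, r5o_8, (.st (nat_lit 3639) (nat_lit 3640) (.st (nat_lit 0) (nat_lit 3640) .nil))⟩]

/-- entries -/
def EA15 : List E3 := [⟨r13o_15, r7o_1, r5o_0, (.st (nat_lit 90) (nat_lit 182) (.st (nat_lit 91) (nat_lit 182) .nil))⟩,
  ⟨r13o_15, r7o_1, r5o_3, (.st (nat_lit 454) (nat_lit 910) (.st (nat_lit 455) (nat_lit 910) .nil))⟩,
  ⟨r13o_15, r7o_1, r5o_5, (.st (nat_lit 272) (nat_lit 546) (.st (nat_lit 273) (nat_lit 546) .nil))⟩,
  ⟨r13o_15, r7o_1, r5o_7, (.st (nat_lit 90) (nat_lit 182) (.st (nat_lit 91) (nat_lit 182) .nil))⟩,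
  ⟨r13o_15, r7o_1, r5o_9, (.st (nat_lit 454) (nat_lit 910) (.st (nat_lit 455) (nat_lit 910) .nil))⟩,
  ⟨r13o_15, r7o_2, r5o_1, (.st (nat_lit 181) (nat_lit 182) (.st (nat_lit 0) (nat_lit 182) .nil))⟩,
  ⟨r13o_15, r7o_2, r5o_3, (.st (nat_lit 909) (nat_lit 910) (.st (nat_lit 0) (nat_lit 910) .nil))⟩,
  ⟨r13o_15, r7o_2, r5o_5, (.st (nat_lit 545) (nat_lit 546) (.st (nat_lit 0) (nat_lit 546) .nil))⟩,
  ⟨r13o_15, r7o_2, r5o_7, (.st (nat_lit 181) (nat_lit 182) (.st (nat_lit 0) (nat_lit 182) .nil))⟩,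
  ⟨r13o_15, r7o_2, r5o_9, (.st (nat_lit 909) (nat_lit 910) (.st (nat_lit 0) (nat_lit 910) .nil))⟩,
  ⟨r13o_15, r7o_6, r5o_1, (.st (nat_lit 727) (nat_lit 728) (.st (nat_lit 0) (nat_lit 728) .nil))⟩,
  ⟨r13o_15, r7o_6, r5o_3, (.st (nat_lit 3639) (nat_lit 3640) (.st (nat_lit 0) (nat_lit 3640) .nil))⟩,
  ⟨r13o_15, r7o_6, r5o_5, (.st (nat_lit 2183) (nat_lit 2184) (.st (nat_lit 0) (nat_lit 2184) .nil))⟩,
  ⟨r13o_15, r7o_6, r5o_7, (.st (nat_lit 727) (nat_lit 728) (.st (nat_lit 0) (nat_lit 728) .nil))⟩,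
  ⟨r13o_15, r7o_6, r5o_9, (.st (nat_lit 3639) (nat_lit 3640) (.st (nat_lit 0) (nat_lit 3640) .nil))⟩,
  ⟨r13o_15, r7o_7, r5o_1, (.st (nat_lit 363) (nat_lit 728) (.st (nat_lit 364) (nat_lit 728) .nil))⟩,
  ⟨r13o_15, r7o_7, r5o_3, (.st (nat_lit 1819) (nat_lit 3640) (.st (nat_lit 1820) (nat_lit 3640) .nil))⟩,
  ⟨r13o_15, r7o_7, r5o_5, (.st (nat_lit 1091) (nat_lit 2184) (.st (nat_lit 1092) (nat_lit 2184) .nil))⟩,
  ⟨r13o_15, r7o_7, r5o_7, (.st (nat_lit 363) (nat_lit 728) (.st (nat_lit 364) (nat_lit 728) .nil))⟩,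
  ⟨r13o_15, r7o_7, r5o_9, (.st (nat_lit 1819) (nat_lit 3640) (.st (nat_lit 1820) (nat_lit 3640) .nil))⟩,
  ⟨r13o_15, r7o_8, r5o_0, (.st (nat_lit 272) (nat_lit 546) (.st (nat_lit 273) (nat_lit 546) .nil))⟩,
  ⟨r13o_15, r7o_8, r5o_3, (.st (nat_lit 1364) (nat_lit 2730) (.st (nat_lit 1365) (nat_lit 2730) .nil))⟩,
  ⟨r13o_15, r7o_8, r5o_5, (.st (nat_lit 272) (nat_lit 546) (.st (nat_lit 273) (nat_lit 546) .nil))⟩,
  ⟨r13o_15, r7o_8, r5o_7, (.st (nat_lit 272) (nat_lit 546) (.st (nat_lit 273) (nat_lit 546) .nil))⟩,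
  ⟨r13o_15, r7o_8, r5o_9, (.st (nat_lit 1364) (nat_lit 2730) (.st (nat_lit 1365) (nat_lit 2730) .nil))⟩,
  ⟨r13o_15, r7o_10, r5o_1, (.st (nat_lit 545) (nat_lit 546) (.st (nat_lit 0) (nat_lit 546) .nil))⟩,
  ⟨r13o_15, r7o_10, r5o_3, (.st (nat_lit 2729) (nat_lit 2730) (.st (nat_lit 0) (nat_lit 2730) .nil))⟩,
  ⟨r13o_15, r7o_10, r5o_5, (.st (nat_lit 545) (nat_lit 546) (.st (nat_lit 0) (nat_lit 546) .nil))⟩,
  ⟨r13o_15, r7o_10, r5o_7, (.st (nat_lit 545) (nat_lit 546) (.st (nat_lit 0) (nat_lit 546) .nil))⟩,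
  ⟨r13o_15, r7o_10, r5o_9, (.st (nat_lit 2729) (nat_lit 2730) (.st (nat_lit 0) (nat_lit 2730) .nil))⟩,
  ⟨r13o_15, r7o_13, r5o_8, (.st (nat_lit 17) (nat_lit 35) .nil)⟩,
  ⟨r13o_15, r7o_13, r5o_9, (.st (nat_lit 17) (nat_lit 35) .nil)⟩,
  ⟨r13o_15, r7o_14, r5o_1, (.st (nat_lit 727) (nat_lit 728) (.st (nat_lit 0) (nat_lit 728) .nil))⟩,
  ⟨r13o_15, r7o_14, r5o_3, (.st (nat_lit 3639) (nat_lit 3640) (.st (nat_lit 0) (nat_lit 3640) .nil))⟩,
  ⟨r13o_15, r7o_14, r5o_5, (.st (nat_lit 2183) (nat_lit 2184) (.st (nat_lit 0) (nat_lit 2184) .nil))⟩,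
  ⟨r13o_15, r7o_14, r5o_7, (.st (nat_lit 727) (nat_lit 728) (.st (nat_lit 0) (nat_lit 728) .nil))⟩,
  ⟨r13o_15, r7o_14, r5o_9, (.st (nat_lit 279) (nat_lit 280) (.st (nat_lit 0) (nat_lit 280) .nil))⟩,
  ⟨r13o_15, r7o_15, r5o_1, (.st (nat_lit 363) (nat_lit 728) (.st (nat_lit 364) (nat_lit 728) .nil))⟩,
  ⟨r13o_15, r7o_15, r5o_3, (.st (nat_lit 1819) (nat_lit 3640) (.st (nat_lit 1820) (nat_lit 3640) .nil))⟩,
  ⟨r13o_15, r7o_15, r5o_5, (.st (nat_lit 1091) (nat_lit 2184) (.st (nat_lit 1092) (nat_lit 2184) .nil))⟩,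
  ⟨r13o_15, r7o_15, r5o_7, (.st (nat_lit 363) (nat_lit 728) (.st (nat_lit 364) (nat_lit 728) .nil))⟩,
  ⟨r13o_15, r7o_15, r5o_9, (.st (nat_lit 139) (nat_lit 280) (.st (nat_lit 140) (nat_lit 280) .nil))⟩,
  ⟨r13o_15, r7o_18, r5o_0, (.st (nat_lit 90) (nat_lit 182) (.st (nat_lit 91) (nat_lit 182) .nil))⟩,
  ⟨r13o_15, r7o_18, r5o_1, (.st (nat_lit 181) (nat_lit 182) (.st (nat_lit 0) (nat_lit 182) .nil))⟩,
  ⟨r13o_15, r7o_18, r5o_3, (.st (nat_lit 454) (nat_lit 455) (.st (nat_lit 0) (nat_lit 455) .nil))⟩,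
  ⟨r13o_15, r7o_18, r5o_5, (.st (nat_lit 272) (nat_lit 273) (.st (nat_lit 0) (nat_lit 273) .nil))⟩,
  ⟨r13o_15, r7o_18, r5o_7, (.st (nat_lit 90) (nat_lit 91) (.st (nat_lit 0) (nat_lit 91) .nil))⟩,
  ⟨r13o_15, r7o_18, r5o_9, (.st (nat_lit 454) (nat_lit 455) (.st (nat_lit 0) (nat_lit 455) .nil))⟩,
  ⟨r13o_15, r7o_20, r5o_0, (.st (nat_lit 272) (nat_lit 546) (.st (nat_lit 273) (nat_lit 546) .nil))⟩,
  ⟨r13o_15, r7o_20, r5o_3, (.st (nat_lit 1364) (nat_lit 2730) (.st (nat_lit 1365) (nat_lit 2730) .nil))⟩,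
  ⟨r13o_15, r7o_20, r5o_5, (.st (nat_lit 272) (nat_lit 546) (.st (nat_lit 273) (nat_lit 546) .nil))⟩,
  ⟨r13o_15, r7o_20, r5o_7, (.st (nat_lit 272) (nat_lit 546) (.st (nat_lit 273) (nat_lit 546) .nil))⟩,
  ⟨r13o_15, r7o_20, r5o_9, (.st (nat_lit 1364) (nat_lit 2730) (.st (nat_lit 1365) (nat_lit 2730) .nil))⟩,
  ⟨r13o_15, r7o_22, r5o_1, (.st (nat_lit 545) (nat_lit 546) (.st (nat_lit 0) (nat_lit 546) .nil))⟩,
  ⟨r13o_15, r7o_22, r5o_3, (.st (nat_lit 2729) (nat_lit 2730) (.st (nat_lit 0) (nat_lit 2730) .nil))⟩,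
  ⟨r13o_15, r7o_22, r5o_5, (.st (nat_lit 545) (nat_lit 546) (.st (nat_lit 0) (nat_lit 546) .nil))⟩,
  ⟨r13o_15, r7o_22, r5o_7, (.st (nat_lit 545) (nat_lit 546) (.st (nat_lit 0) (nat_lit 546) .nil))⟩,
  ⟨r13o_15, r7o_22, r5o_9, (.st (nat_lit 2729) (nat_lit 2730) (.st (nat_lit 0) (nat_lit 2730) .nil))⟩,
  ⟨r13o_15, r7o_26, r5o_1, (.st (nat_lit 727) (nat_lit 728) (.st (nat_lit 363) (nat_lit 728) (.st (nat_lit 364) (nat_lit 728) (.st (nat_lit 0) (nat_lit 728) .nil))))⟩,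
  ⟨r13o_15, r7o_26, r5o_3, (.st (nat_lit 3639) (nat_lit 3640) (.st (nat_lit 1819) (nat_lit 3640) (.st (nat_lit 1820) (nat_lit 3640) (.st (nat_lit 0) (nat_lit 3640) .nil))))⟩,
  ⟨r13o_15, r7o_26, r5o_5, (.st (nat_lit 2183) (nat_lit 2184) (.st (nat_lit 1091) (nat_lit 2184) (.st (nat_lit 1092) (nat_lit 2184) (.st (nat_lit 0) (nat_lit 2184) .nil))))⟩,
  ⟨r13o_15, r7o_26, r5o_7, (.st (nat_lit 727) (nat_lit 728) (.st (nat_lit 363) (nat_lit 728) (.st (nat_lit 364) (nat_lit 728) (.st (nat_lit 0) (nat_lit 728) .nil))))⟩,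
  ⟨r13o_15, r7o_26, r5o_9, (.st (nat_lit 3639) (nat_lit 3640) (.st (nat_lit 1819) (nat_lit 3640) (.st (nat_lit 1820) (nat_lit 3640) (.st (nat_lit 0) (nat_lit 3640) .nil))))⟩]

/-- entries -/
def EA16 : List E3 := [⟨r13o_16, r7o_9, r5o_4, (.st (nat_lit 19) (nat_lit 42) (.st (nat_lit 22) (nat_lit 42) .nil))⟩,
  ⟨r13o_16, r7o_11, r5o_4, (.st (nat_lit 40) (nat_lit 42) (.st (nat_lit 1) (nat_lit 42) .nil))⟩,
  ⟨r13o_16, r7o_13, r5o_2, (.st (nat_lit 17) (nat_lit 35) .nil)⟩,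
  ⟨r13o_16, r7o_13, r5o_3, (.st (nat_lit 17) (nat_lit 35) .nil)⟩,
  ⟨r13o_16, r7o_13, r5o_4, (.st (nat_lit 3) (nat_lit 7) .nil)⟩,
  ⟨r13o_16, r7o_13, r5o_5, (.st (nat_lit 10) (nat_lit 21) .nil)⟩,
  ⟨r13o_16, r7o_13, r5o_6, (.st (nat_lit 10) (nat_lit 21) .nil)⟩,
  ⟨r13o_16, r7o_13, r5o_7, (.st (nat_lit 3) (nat_lit 7) .nil)⟩,
  ⟨r13o_16, r7o_13, r5o_8, (.st (nat_lit 17) (nat_lit 35) .nil)⟩,
  ⟨r13o_16, r7o_13, r5o_9, (.st (nat_lit 17) (nat_lit 35) .nil)⟩]

/-- entries -/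
def EA17 : List E3 := [⟨r13o_17, r7o_13, r5o_8, (.st (nat_lit 17) (nat_lit 35) .nil)⟩,
  ⟨r13o_17, r7o_13, r5o_9, (.st (nat_lit 17) (nat_lit 35) .nil)⟩]

/-- entries -/
def EA18 : List E3 := []

/-- entries -/
def EA19 : List E3 := []

/-- entries -/
def EA20 : List E3 := [⟨r13o_20, r7o_1, r5o_0, (.st (nat_lit 25) (nat_lit 26) (.st (nat_lit 0) (nat_lit 26) .nil))⟩,
  ⟨r13o_20, r7o_1, r5o_2, (.st (nat_lit 129) (nat_lit 130) (.st (nat_lit 0) (nat_lit 130) .nil))⟩,
  ⟨r13o_20, r7o_1, r5o_4, (.st (nat_lit 25) (nat_lit 26) (.st (nat_lit 0) (nat_lit 26) .nil))⟩,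
  ⟨r13o_20, r7o_1, r5o_6, (.st (nat_lit 77) (nat_lit 78) (.st (nat_lit 0) (nat_lit 78) .nil))⟩,
  ⟨r13o_20, r7o_1, r5o_8, (.st (nat_lit 129) (nat_lit 130) (.st (nat_lit 0) (nat_lit 130) .nil))⟩,
  ⟨r13o_20, r7o_2, r5o_1, (.st (nat_lit 12) (nat_lit 26) (.st (nat_lit 13) (nat_lit 26) .nil))⟩,
  ⟨r13o_20, r7o_2, r5o_2, (.st (nat_lit 64) (nat_lit 130) (.st (nat_lit 65) (nat_lit 130) .nil))⟩,
  ⟨r13o_20, r7o_2, r5o_4, (.st (nat_lit 12) (nat_lit 26) (.st (nat_lit 13) (nat_lit 26) .nil))⟩,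
  ⟨r13o_20, r7o_2, r5o_6, (.st (nat_lit 38) (nat_lit 78) (.st (nat_lit 39) (nat_lit 78) .nil))⟩,
  ⟨r13o_20, r7o_2, r5o_8, (.st (nat_lit 64) (nat_lit 130) (.st (nat_lit 65) (nat_lit 130) .nil))⟩,
  ⟨r13o_20, r7o_5, r5o_0, (.st (nat_lit 103) (nat_lit 104) (.st (nat_lit 51) (nat_lit 104) (.st (nat_lit 52) (nat_lit 104) (.st (nat_lit 0) (nat_lit 104) .nil))))⟩,
  ⟨r13o_20, r7o_5, r5o_2, (.st (nat_lit 519) (nat_lit 520) (.st (nat_lit 259) (nat_lit 520) (.st (nat_lit 260) (nat_lit 520) (.st (nat_lit 0) (nat_lit 520) .nil))))⟩,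
  ⟨r13o_20, r7o_5, r5o_4, (.st (nat_lit 103) (nat_lit 104) (.st (nat_lit 51) (nat_lit 104) (.st (nat_lit 52) (nat_lit 104) (.st (nat_lit 0) (nat_lit 104) .nil))))⟩,
  ⟨r13o_20, r7o_5, r5o_6, (.st (nat_lit 311) (nat_lit 312) (.st (nat_lit 155) (nat_lit 312) (.st (nat_lit 156) (nat_lit 312) (.st (nat_lit 0) (nat_lit 312) .nil))))⟩,
  ⟨r13o_20, r7o_5, r5o_8, (.st (nat_lit 519) (nat_lit 520) (.st (nat_lit 259) (nat_lit 520) (.st (nat_lit 260) (nat_lit 520) (.st (nat_lit 0) (nat_lit 520) .nil))))⟩,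
  ⟨r13o_20, r7o_9, r5o_0, (.st (nat_lit 77) (nat_lit 78) (.st (nat_lit 0) (nat_lit 78) .nil))⟩,
  ⟨r13o_20, r7o_9, r5o_2, (.st (nat_lit 389) (nat_lit 390) (.st (nat_lit 0) (nat_lit 390) .nil))⟩,
  ⟨r13o_20, r7o_9, r5o_4, (.st (nat_lit 77) (nat_lit 78) (.st (nat_lit 0) (nat_lit 78) .nil))⟩,
  ⟨r13o_20, r7o_9, r5o_6, (.st (nat_lit 77) (nat_lit 78) (.st (nat_lit 0) (nat_lit 78) .nil))⟩,
  ⟨r13o_20, r7o_9, r5o_8, (.st (nat_lit 389) (nat_lit 390) (.st (nat_lit 0) (nat_lit 390) .nil))⟩,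
  ⟨r13o_20, r7o_11, r5o_1, (.st (nat_lit 38) (nat_lit 78) (.st (nat_lit 39) (nat_lit 78) .nil))⟩,
  ⟨r13o_20, r7o_11, r5o_2, (.st (nat_lit 194) (nat_lit 390) (.st (nat_lit 195) (nat_lit 390) .nil))⟩,
  ⟨r13o_20, r7o_11, r5o_4, (.st (nat_lit 38) (nat_lit 78) (.st (nat_lit 39) (nat_lit 78) .nil))⟩,
  ⟨r13o_20, r7o_11, r5o_6, (.st (nat_lit 38) (nat_lit 78) (.st (nat_lit 39) (nat_lit 78) .nil))⟩,
  ⟨r13o_20, r7o_11, r5o_8, (.st (nat_lit 194) (nat_lit 390) (.st (nat_lit 195) (nat_lit 390) .nil))⟩,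
  ⟨r13o_20, r7o_13, r5o_0, (.st (nat_lit 25) (nat_lit 26) (.st (nat_lit 0) (nat_lit 26) .nil))⟩,
  ⟨r13o_20, r7o_13, r5o_1, (.st (nat_lit 12) (nat_lit 26) (.st (nat_lit 13) (nat_lit 26) .nil))⟩,
  ⟨r13o_20, r7o_13, r5o_2, (.st (nat_lit 64) (nat_lit 65) (.st (nat_lit 0) (nat_lit 65) .nil))⟩,
  ⟨r13o_20, r7o_13, r5o_4, (.st (nat_lit 12) (nat_lit 13) (.st (nat_lit 0) (nat_lit 13) .nil))⟩,
  ⟨r13o_20, r7o_13, r5o_6, (.st (nat_lit 38) (nat_lit 39) (.st (nat_lit 0) (nat_lit 39) .nil))⟩,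
  ⟨r13o_20, r7o_13, r5o_8, (.st (nat_lit 64) (nat_lit 65) (.st (nat_lit 0) (nat_lit 65) .nil))⟩,
  ⟨r13o_20, r7o_16, r5o_0, (.st (nat_lit 51) (nat_lit 104) (.st (nat_lit 52) (nat_lit 104) .nil))⟩,
  ⟨r13o_20, r7o_16, r5o_2, (.st (nat_lit 259) (nat_lit 520) (.st (nat_lit 260) (nat_lit 520) .nil))⟩,
  ⟨r13o_20, r7o_16, r5o_4, (.st (nat_lit 51) (nat_lit 104) (.st (nat_lit 52) (nat_lit 104) .nil))⟩,
  ⟨r13o_20, r7o_16, r5o_6, (.st (nat_lit 155) (nat_lit 312) (.st (nat_lit 156) (nat_lit 312) .nil))⟩,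
  ⟨r13o_20, r7o_16, r5o_8, (.st (nat_lit 259) (nat_lit 520) (.st (nat_lit 260) (nat_lit 520) .nil))⟩,
  ⟨r13o_20, r7o_17, r5o_0, (.st (nat_lit 103) (nat_lit 104) (.st (nat_lit 0) (nat_lit 104) .nil))⟩,
  ⟨r13o_20, r7o_17, r5o_2, (.st (nat_lit 519) (nat_lit 520) (.st (nat_lit 0) (nat_lit 520) .nil))⟩,
  ⟨r13o_20, r7o_17, r5o_4, (.st (nat_lit 103) (nat_lit 104) (.st (nat_lit 0) (nat_lit 104) .nil))⟩,
  ⟨r13o_20, r7o_17, r5o_6, (.st (nat_lit 311) (nat_lit 312) (.st (nat_lit 0) (nat_lit 312) .nil))⟩,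
  ⟨r13o_20, r7o_17, r5o_8, (.st (nat_lit 519) (nat_lit 520) (.st (nat_lit 0) (nat_lit 520) .nil))⟩,
  ⟨r13o_20, r7o_21, r5o_0, (.st (nat_lit 77) (nat_lit 78) (.st (nat_lit 0) (nat_lit 78) .nil))⟩,
  ⟨r13o_20, r7o_21, r5o_2, (.st (nat_lit 389) (nat_lit 390) (.st (nat_lit 0) (nat_lit 390) .nil))⟩,
  ⟨r13o_20, r7o_21, r5o_4, (.st (nat_lit 77) (nat_lit 78) (.st (nat_lit 0) (nat_lit 78) .nil))⟩,
  ⟨r13o_20, r7o_21, r5o_6, (.st (nat_lit 77) (nat_lit 78) (.st (nat_lit 0) (nat_lit 78) .nil))⟩,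
  ⟨r13o_20, r7o_21, r5o_8, (.st (nat_lit 389) (nat_lit 390) (.st (nat_lit 0) (nat_lit 390) .nil))⟩,
  ⟨r13o_20, r7o_23, r5o_1, (.st (nat_lit 38) (nat_lit 78) (.st (nat_lit 39) (nat_lit 78) .nil))⟩,
  ⟨r13o_20, r7o_23, r5o_2, (.st (nat_lit 194) (nat_lit 390) (.st (nat_lit 195) (nat_lit 390) .nil))⟩,
  ⟨r13o_20, r7o_23, r5o_4, (.st (nat_lit 38) (nat_lit 78) (.st (nat_lit 39) (nat_lit 78) .nil))⟩,
  ⟨r13o_20, r7o_23, r5o_6, (.st (nat_lit 38) (nat_lit 78) (.st (nat_lit 39) (nat_lit 78) .nil))⟩,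
  ⟨r13o_20, r7o_23, r5o_8, (.st (nat_lit 194) (nat_lit 390) (.st (nat_lit 195) (nat_lit 390) .nil))⟩,
  ⟨r13o_20, r7o_24, r5o_0, (.st (nat_lit 51) (nat_lit 104) (.st (nat_lit 52) (nat_lit 104) .nil))⟩,
  ⟨r13o_20, r7o_24, r5o_2, (.st (nat_lit 259) (nat_lit 520) (.st (nat_lit 260) (nat_lit 520) .nil))⟩,
  ⟨r13o_20, r7o_24, r5o_4, (.st (nat_lit 51) (nat_lit 104) (.st (nat_lit 52) (nat_lit 104) .nil))⟩,
  ⟨r13o_20, r7o_24, r5o_6, (.st (nat_lit 155) (nat_lit 312) (.st (nat_lit 156) (nat_lit 312) .nil))⟩,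
  ⟨r13o_20, r7o_24, r5o_8, (.st (nat_lit 259) (nat_lit 520) (.st (nat_lit 260) (nat_lit 520) .nil))⟩,
  ⟨r13o_20, r7o_25, r5o_0, (.st (nat_lit 103) (nat_lit 104) (.st (nat_lit 0) (nat_lit 104) .nil))⟩,
  ⟨r13o_20, r7o_25, r5o_2, (.st (nat_lit 519) (nat_lit 520) (.st (nat_lit 0) (nat_lit 520) .nil))⟩,
  ⟨r13o_20, r7o_25, r5o_4, (.st (nat_lit 103) (nat_lit 104) (.st (nat_lit 0) (nat_lit 104) .nil))⟩,
  ⟨r13o_20, r7o_25, r5o_6, (.st (nat_lit 311) (nat_lit 312) (.st (nat_lit 0) (nat_lit 312) .nil))⟩,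
  ⟨r13o_20, r7o_25, r5o_8, (.st (nat_lit 519) (nat_lit 520) (.st (nat_lit 0) (nat_lit 520) .nil))⟩]

/-- entries -/
def EA21 : List E3 := [⟨r13o_21, r7o_1, r5o_0, (.st (nat_lit 12) (nat_lit 26) (.st (nat_lit 13) (nat_lit 26) .nil))⟩,
  ⟨r13o_21, r7o_1, r5o_3, (.st (nat_lit 64) (nat_lit 130) (.st (nat_lit 65) (nat_lit 130) .nil))⟩,
  ⟨r13o_21, r7o_1, r5o_5, (.st (nat_lit 38) (nat_lit 78) (.st (nat_lit 39) (nat_lit 78) .nil))⟩,
  ⟨r13o_21, r7o_1, r5o_7, (.st (nat_lit 12) (nat_lit 26) (.st (nat_lit 13) (nat_lit 26) .nil))⟩,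
  ⟨r13o_21, r7o_1, r5o_9, (.st (nat_lit 64) (nat_lit 130) (.st (nat_lit 65) (nat_lit 130) .nil))⟩,
  ⟨r13o_21, r7o_2, r5o_1, (.st (nat_lit 25) (nat_lit 26) (.st (nat_lit 0) (nat_lit 26) .nil))⟩,
  ⟨r13o_21, r7o_2, r5o_3, (.st (nat_lit 129) (nat_lit 130) (.st (nat_lit 0) (nat_lit 130) .nil))⟩,
  ⟨r13o_21, r7o_2, r5o_5, (.st (nat_lit 77) (nat_lit 78) (.st (nat_lit 0) (nat_lit 78) .nil))⟩,
  ⟨r13o_21, r7o_2, r5o_7, (.st (nat_lit 25) (nat_lit 26) (.st (nat_lit 0) (nat_lit 26) .nil))⟩,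
  ⟨r13o_21, r7o_2, r5o_9, (.st (nat_lit 129) (nat_lit 130) (.st (nat_lit 0) (nat_lit 130) .nil))⟩,
  ⟨r13o_21, r7o_6, r5o_1, (.st (nat_lit 103) (nat_lit 104) (.st (nat_lit 0) (nat_lit 104) .nil))⟩,
  ⟨r13o_21, r7o_6, r5o_3, (.st (nat_lit 519) (nat_lit 520) (.st (nat_lit 0) (nat_lit 520) .nil))⟩,
  ⟨r13o_21, r7o_6, r5o_5, (.st (nat_lit 311) (nat_lit 312) (.st (nat_lit 0) (nat_lit 312) .nil))⟩,
  ⟨r13o_21, r7o_6, r5o_7, (.st (nat_lit 103) (nat_lit 104) (.st (nat_lit 0) (nat_lit 104) .nil))⟩,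
  ⟨r13o_21, r7o_6, r5o_9, (.st (nat_lit 519) (nat_lit 520) (.st (nat_lit 0) (nat_lit 520) .nil))⟩,
  ⟨r13o_21, r7o_7, r5o_1, (.st (nat_lit 51) (nat_lit 104) (.st (nat_lit 52) (nat_lit 104) .nil))⟩,
  ⟨r13o_21, r7o_7, r5o_3, (.st (nat_lit 259) (nat_lit 520) (.st (nat_lit 260) (nat_lit 520) .nil))⟩,
  ⟨r13o_21, r7o_7, r5o_5, (.st (nat_lit 155) (nat_lit 312) (.st (nat_lit 156) (nat_lit 312) .nil))⟩,
  ⟨r13o_21, r7o_7, r5o_7, (.st (nat_lit 51) (nat_lit 104) (.st (nat_lit 52) (nat_lit 104) .nil))⟩,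
  ⟨r13o_21, r7o_7, r5o_9, (.st (nat_lit 259) (nat_lit 520) (.st (nat_lit 260) (nat_lit 520) .nil))⟩,
  ⟨r13o_21, r7o_8, r5o_0, (.st (nat_lit 38) (nat_lit 78) (.st (nat_lit 39) (nat_lit 78) .nil))⟩,
  ⟨r13o_21, r7o_8, r5o_3, (.st (nat_lit 194) (nat_lit 390) (.st (nat_lit 195) (nat_lit 390) .nil))⟩,
  ⟨r13o_21, r7o_8, r5o_5, (.st (nat_lit 38) (nat_lit 78) (.st (nat_lit 39) (nat_lit 78) .nil))⟩,
  ⟨r13o_21, r7o_8, r5o_7, (.st (nat_lit 38) (nat_lit 78) (.st (nat_lit 39) (nat_lit 78) .nil))⟩,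
  ⟨r13o_21, r7o_8, r5o_9, (.st (nat_lit 194) (nat_lit 390) (.st (nat_lit 195) (nat_lit 390) .nil))⟩,
  ⟨r13o_21, r7o_10, r5o_1, (.st (nat_lit 77) (nat_lit 78) (.st (nat_lit 0) (nat_lit 78) .nil))⟩,
  ⟨r13o_21, r7o_10, r5o_3, (.st (nat_lit 389) (nat_lit 390) (.st (nat_lit 0) (nat_lit 390) .nil))⟩,
  ⟨r13o_21, r7o_10, r5o_5, (.st (nat_lit 77) (nat_lit 78) (.st (nat_lit 0) (nat_lit 78) .nil))⟩,
  ⟨r13o_21, r7o_10, r5o_7, (.st (nat_lit 77) (nat_lit 78) (.st (nat_lit 0) (nat_lit 78) .nil))⟩,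
  ⟨r13o_21, r7o_10, r5o_9, (.st (nat_lit 389) (nat_lit 390) (.st (nat_lit 0) (nat_lit 390) .nil))⟩,
  ⟨r13o_21, r7o_14, r5o_1, (.st (nat_lit 103) (nat_lit 104) (.st (nat_lit 0) (nat_lit 104) .nil))⟩,
  ⟨r13o_21, r7o_14, r5o_3, (.st (nat_lit 519) (nat_lit 520) (.st (nat_lit 0) (nat_lit 520) .nil))⟩,
  ⟨r13o_21, r7o_14, r5o_5, (.st (nat_lit 311) (nat_lit 312) (.st (nat_lit 0) (nat_lit 312) .nil))⟩,
  ⟨r13o_21, r7o_14, r5o_7, (.st (nat_lit 103) (nat_lit 104) (.st (nat_lit 0) (nat_lit 104) .nil))⟩,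
  ⟨r13o_21, r7o_14, r5o_9, (.st (nat_lit 519) (nat_lit 520) (.st (nat_lit 0) (nat_lit 520) .nil))⟩,
  ⟨r13o_21, r7o_15, r5o_1, (.st (nat_lit 51) (nat_lit 104) (.st (nat_lit 52) (nat_lit 104) .nil))⟩,
  ⟨r13o_21, r7o_15, r5o_3, (.st (nat_lit 259) (nat_lit 520) (.st (nat_lit 260) (nat_lit 520) .nil))⟩,
  ⟨r13o_21, r7o_15, r5o_5, (.st (nat_lit 155) (nat_lit 312) (.st (nat_lit 156) (nat_lit 312) .nil))⟩,
  ⟨r13o_21, r7o_15, r5o_7, (.st (nat_lit 51) (nat_lit 104) (.st (nat_lit 52) (nat_lit 104) .nil))⟩,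
  ⟨r13o_21, r7o_15, r5o_9, (.st (nat_lit 259) (nat_lit 520) (.st (nat_lit 260) (nat_lit 520) .nil))⟩,
  ⟨r13o_21, r7o_18, r5o_0, (.st (nat_lit 12) (nat_lit 26) (.st (nat_lit 13) (nat_lit 26) .nil))⟩,
  ⟨r13o_21, r7o_18, r5o_1, (.st (nat_lit 25) (nat_lit 26) (.st (nat_lit 0) (nat_lit 26) .nil))⟩,
  ⟨r13o_21, r7o_18, r5o_3, (.st (nat_lit 64) (nat_lit 65) (.st (nat_lit 0) (nat_lit 65) .nil))⟩,
  ⟨r13o_21, r7o_18, r5o_5, (.st (nat_lit 38) (nat_lit 39) (.st (nat_lit 0) (nat_lit 39) .nil))⟩,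
  ⟨r13o_21, r7o_18, r5o_7, (.st (nat_lit 12) (nat_lit 13) (.st (nat_lit 0) (nat_lit 13) .nil))⟩,
  ⟨r13o_21, r7o_18, r5o_9, (.st (nat_lit 64) (nat_lit 65) (.st (nat_lit 0) (nat_lit 65) .nil))⟩,
  ⟨r13o_21, r7o_20, r5o_0, (.st (nat_lit 38) (nat_lit 78) (.st (nat_lit 39) (nat_lit 78) .nil))⟩,
  ⟨r13o_21, r7o_20, r5o_3, (.st (nat_lit 194) (nat_lit 390) (.st (nat_lit 195) (nat_lit 390) .nil))⟩,
  ⟨r13o_21, r7o_20, r5o_5, (.st (nat_lit 38) (nat_lit 78) (.st (nat_lit 39) (nat_lit 78) .nil))⟩,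
  ⟨r13o_21, r7o_20, r5o_7, (.st (nat_lit 38) (nat_lit 78) (.st (nat_lit 39) (nat_lit 78) .nil))⟩,
  ⟨r13o_21, r7o_20, r5o_9, (.st (nat_lit 194) (nat_lit 390) (.st (nat_lit 195) (nat_lit 390) .nil))⟩,
  ⟨r13o_21, r7o_22, r5o_1, (.st (nat_lit 77) (nat_lit 78) (.st (nat_lit 0) (nat_lit 78) .nil))⟩,
  ⟨r13o_21, r7o_22, r5o_3, (.st (nat_lit 389) (nat_lit 390) (.st (nat_lit 0) (nat_lit 390) .nil))⟩,
  ⟨r13o_21, r7o_22, r5o_5, (.st (nat_lit 77) (nat_lit 78) (.st (nat_lit 0) (nat_lit 78) .nil))⟩,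
  ⟨r13o_21, r7o_22, r5o_7, (.st (nat_lit 77) (nat_lit 78) (.st (nat_lit 0) (nat_lit 78) .nil))⟩,
  ⟨r13o_21, r7o_22, r5o_9, (.st (nat_lit 389) (nat_lit 390) (.st (nat_lit 0) (nat_lit 390) .nil))⟩,
  ⟨r13o_21, r7o_26, r5o_1, (.st (nat_lit 103) (nat_lit 104) (.st (nat_lit 51) (nat_lit 104) (.st (nat_lit 52) (nat_lit 104) (.st (nat_lit 0) (nat_lit 104) .nil))))⟩,
  ⟨r13o_21, r7o_26, r5o_3, (.st (nat_lit 519) (nat_lit 520) (.st (nat_lit 259) (nat_lit 520) (.st (nat_lit 260) (nat_lit 520) (.st (nat_lit 0) (nat_lit 520) .nil))))⟩,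
  ⟨r13o_21, r7o_26, r5o_5, (.st (nat_lit 311) (nat_lit 312) (.st (nat_lit 155) (nat_lit 312) (.st (nat_lit 156) (nat_lit 312) (.st (nat_lit 0) (nat_lit 312) .nil))))⟩,
  ⟨r13o_21, r7o_26, r5o_7, (.st (nat_lit 103) (nat_lit 104) (.st (nat_lit 51) (nat_lit 104) (.st (nat_lit 52) (nat_lit 104) (.st (nat_lit 0) (nat_lit 104) .nil))))⟩,
  ⟨r13o_21, r7o_26, r5o_9, (.st (nat_lit 519) (nat_lit 520) (.st (nat_lit 259) (nat_lit 520) (.st (nat_lit 260) (nat_lit 520) (.st (nat_lit 0) (nat_lit 520) .nil))))⟩]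

/-- entries -/
def EA22 : List E3 := []

/-- entries -/
def EA23 : List E3 := []

/-- entries -/
def EA24 : List E3 := [⟨r13o_24, r7o_13, r5o_4, (.st (nat_lit 3) (nat_lit 7) .nil)⟩,
  ⟨r13o_24, r7o_18, r5o_8, (.st (nat_lit 17) (nat_lit 35) .nil)⟩,
  ⟨r13o_24, r7o_18, r5o_9, (.st (nat_lit 17) (nat_lit 35) .nil)⟩]

/-- entries -/
def EA25 : List E3 := [⟨r13o_25, r7o_9, r5o_8, (.st (nat_lit 1180) (nat_lit 2730) (.st (nat_lit 1549) (nat_lit 2730) .nil))⟩,
  ⟨r13o_25, r7o_11, r5o_8, (.st (nat_lit 2545) (nat_lit 2730) (.st (nat_lit 184) (nat_lit 2730) .nil))⟩,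
  ⟨r13o_25, r7o_13, r5o_4, (.st (nat_lit 3) (nat_lit 7) .nil)⟩,
  ⟨r13o_25, r7o_18, r5o_8, (.st (nat_lit 17) (nat_lit 35) .nil)⟩,
  ⟨r13o_25, r7o_18, r5o_9, (.st (nat_lit 17) (nat_lit 35) .nil)⟩]

/-- entries -/
def EA26 : List E3 := [⟨r13o_26, r7o_1, r5o_0, (.st (nat_lit 25) (nat_lit 26) (.st (nat_lit 0) (nat_lit 26) .nil))⟩,
  ⟨r13o_26, r7o_1, r5o_2, (.st (nat_lit 129) (nat_lit 130) (.st (nat_lit 0) (nat_lit 130) .nil))⟩,
  ⟨r13o_26, r7o_1, r5o_4, (.st (nat_lit 25) (nat_lit 26) (.st (nat_lit 0) (nat_lit 26) .nil))⟩,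
  ⟨r13o_26, r7o_1, r5o_6, (.st (nat_lit 77) (nat_lit 78) (.st (nat_lit 0) (nat_lit 78) .nil))⟩,
  ⟨r13o_26, r7o_1, r5o_8, (.st (nat_lit 129) (nat_lit 130) (.st (nat_lit 0) (nat_lit 130) .nil))⟩,
  ⟨r13o_26, r7o_2, r5o_1, (.st (nat_lit 13) (nat_lit 26) (.st (nat_lit 12) (nat_lit 26) .nil))⟩,
  ⟨r13o_26, r7o_2, r5o_2, (.st (nat_lit 65) (nat_lit 130) (.st (nat_lit 64) (nat_lit 130) .nil))⟩,
  ⟨r13o_26, r7o_2, r5o_4, (.st (nat_lit 13) (nat_lit 26) (.st (nat_lit 12) (nat_lit 26) .nil))⟩,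
  ⟨r13o_26, r7o_2, r5o_6, (.st (nat_lit 39) (nat_lit 78) (.st (nat_lit 38) (nat_lit 78) .nil))⟩,
  ⟨r13o_26, r7o_2, r5o_8, (.st (nat_lit 65) (nat_lit 130) (.st (nat_lit 64) (nat_lit 130) .nil))⟩,
  ⟨r13o_26, r7o_5, r5o_0, (.st (nat_lit 103) (nat_lit 104) (.st (nat_lit 52) (nat_lit 104) (.st (nat_lit 51) (nat_lit 104) (.st (nat_lit 0) (nat_lit 104) .nil))))⟩,
  ⟨r13o_26, r7o_5, r5o_2, (.st (nat_lit 519) (nat_lit 520) (.st (nat_lit 260) (nat_lit 520) (.st (nat_lit 259) (nat_lit 520) (.st (nat_lit 0) (nat_lit 520) .nil))))⟩,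
  ⟨r13o_26, r7o_5, r5o_4, (.st (nat_lit 103) (nat_lit 104) (.st (nat_lit 52) (nat_lit 104) (.st (nat_lit 51) (nat_lit 104) (.st (nat_lit 0) (nat_lit 104) .nil))))⟩,
  ⟨r13o_26, r7o_5, r5o_6, (.st (nat_lit 311) (nat_lit 312) (.st (nat_lit 156) (nat_lit 312) (.st (nat_lit 155) (nat_lit 312) (.st (nat_lit 0) (nat_lit 312) .nil))))⟩,
  ⟨r13o_26, r7o_5, r5o_8, (.st (nat_lit 519) (nat_lit 520) (.st (nat_lit 260) (nat_lit 520) (.st (nat_lit 259) (nat_lit 520) (.st (nat_lit 0) (nat_lit 520) .nil))))⟩,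
  ⟨r13o_26, r7o_9, r5o_0, (.st (nat_lit 77) (nat_lit 78) (.st (nat_lit 0) (nat_lit 78) .nil))⟩,
  ⟨r13o_26, r7o_9, r5o_2, (.st (nat_lit 389) (nat_lit 390) (.st (nat_lit 0) (nat_lit 390) .nil))⟩,
  ⟨r13o_26, r7o_9, r5o_4, (.st (nat_lit 77) (nat_lit 78) (.st (nat_lit 0) (nat_lit 78) .nil))⟩,
  ⟨r13o_26, r7o_9, r5o_6, (.st (nat_lit 77) (nat_lit 78) (.st (nat_lit 0) (nat_lit 78) .nil))⟩,
  ⟨r13o_26, r7o_9, r5o_8, (.st (nat_lit 389) (nat_lit 390) (.st (nat_lit 0) (nat_lit 390) .nil))⟩,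
  ⟨r13o_26, r7o_11, r5o_1, (.st (nat_lit 39) (nat_lit 78) (.st (nat_lit 38) (nat_lit 78) .nil))⟩,
  ⟨r13o_26, r7o_11, r5o_2, (.st (nat_lit 195) (nat_lit 390) (.st (nat_lit 194) (nat_lit 390) .nil))⟩,
  ⟨r13o_26, r7o_11, r5o_4, (.st (nat_lit 39) (nat_lit 78) (.st (nat_lit 38) (nat_lit 78) .nil))⟩,
  ⟨r13o_26, r7o_11, r5o_6, (.st (nat_lit 39) (nat_lit 78) (.st (nat_lit 38) (nat_lit 78) .nil))⟩,
  ⟨r13o_26, r7o_11, r5o_8, (.st (nat_lit 195) (nat_lit 390) (.st (nat_lit 194) (nat_lit 390) .nil))⟩,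
  ⟨r13o_26, r7o_13, r5o_0, (.st (nat_lit 25) (nat_lit 26) (.st (nat_lit 0) (nat_lit 26) .nil))⟩,
  ⟨r13o_26, r7o_13, r5o_1, (.st (nat_lit 13) (nat_lit 26) (.st (nat_lit 12) (nat_lit 26) .nil))⟩,
  ⟨r13o_26, r7o_13, r5o_2, (.st (nat_lit 64) (nat_lit 65) (.st (nat_lit 0) (nat_lit 65) .nil))⟩,
  ⟨r13o_26, r7o_13, r5o_4, (.st (nat_lit 0) (nat_lit 1) .nil)⟩,
  ⟨r13o_26, r7o_13, r5o_6, (.st (nat_lit 38) (nat_lit 39) (.st (nat_lit 0) (nat_lit 39) .nil))⟩,
  ⟨r13o_26, r7o_13, r5o_8, (.st (nat_lit 64) (nat_lit 65) (.st (nat_lit 0) (nat_lit 65) .nil))⟩,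
  ⟨r13o_26, r7o_16, r5o_0, (.st (nat_lit 52) (nat_lit 104) (.st (nat_lit 51) (nat_lit 104) .nil))⟩,
  ⟨r13o_26, r7o_16, r5o_2, (.st (nat_lit 260) (nat_lit 520) (.st (nat_lit 259) (nat_lit 520) .nil))⟩,
  ⟨r13o_26, r7o_16, r5o_4, (.st (nat_lit 52) (nat_lit 104) (.st (nat_lit 51) (nat_lit 104) .nil))⟩,
  ⟨r13o_26, r7o_16, r5o_6, (.st (nat_lit 156) (nat_lit 312) (.st (nat_lit 155) (nat_lit 312) .nil))⟩,
  ⟨r13o_26, r7o_16, r5o_8, (.st (nat_lit 20) (nat_lit 40) (.st (nat_lit 19) (nat_lit 40) .nil))⟩,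
  ⟨r13o_26, r7o_17, r5o_0, (.st (nat_lit 103) (nat_lit 104) (.st (nat_lit 0) (nat_lit 104) .nil))⟩,
  ⟨r13o_26, r7o_17, r5o_2, (.st (nat_lit 519) (nat_lit 520) (.st (nat_lit 0) (nat_lit 520) .nil))⟩,
  ⟨r13o_26, r7o_17, r5o_4, (.st (nat_lit 103) (nat_lit 104) (.st (nat_lit 0) (nat_lit 104) .nil))⟩,
  ⟨r13o_26, r7o_17, r5o_6, (.st (nat_lit 311) (nat_lit 312) (.st (nat_lit 0) (nat_lit 312) .nil))⟩,
  ⟨r13o_26, r7o_17, r5o_8, (.st (nat_lit 39) (nat_lit 40) (.st (nat_lit 0) (nat_lit 40) .nil))⟩,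
  ⟨r13o_26, r7o_18, r5o_8, (.st (nat_lit 2) (nat_lit 5) .nil)⟩,
  ⟨r13o_26, r7o_18, r5o_9, (.st (nat_lit 2) (nat_lit 5) .nil)⟩,
  ⟨r13o_26, r7o_21, r5o_0, (.st (nat_lit 77) (nat_lit 78) (.st (nat_lit 0) (nat_lit 78) .nil))⟩,
  ⟨r13o_26, r7o_21, r5o_2, (.st (nat_lit 389) (nat_lit 390) (.st (nat_lit 0) (nat_lit 390) .nil))⟩,
  ⟨r13o_26, r7o_21, r5o_4, (.st (nat_lit 77) (nat_lit 78) (.st (nat_lit 0) (nat_lit 78) .nil))⟩,
  ⟨r13o_26, r7o_21, r5o_6, (.st (nat_lit 77) (nat_lit 78) (.st (nat_lit 0) (nat_lit 78) .nil))⟩,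
  ⟨r13o_26, r7o_21, r5o_8, (.st (nat_lit 389) (nat_lit 390) (.st (nat_lit 0) (nat_lit 390) .nil))⟩,
  ⟨r13o_26, r7o_23, r5o_1, (.st (nat_lit 39) (nat_lit 78) (.st (nat_lit 38) (nat_lit 78) .nil))⟩,
  ⟨r13o_26, r7o_23, r5o_2, (.st (nat_lit 195) (nat_lit 390) (.st (nat_lit 194) (nat_lit 390) .nil))⟩,
  ⟨r13o_26, r7o_23, r5o_4, (.st (nat_lit 39) (nat_lit 78) (.st (nat_lit 38) (nat_lit 78) .nil))⟩,
  ⟨r13o_26, r7o_23, r5o_6, (.st (nat_lit 39) (nat_lit 78) (.st (nat_lit 38) (nat_lit 78) .nil))⟩,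
  ⟨r13o_26, r7o_23, r5o_8, (.st (nat_lit 195) (nat_lit 390) (.st (nat_lit 194) (nat_lit 390) .nil))⟩,
  ⟨r13o_26, r7o_24, r5o_0, (.st (nat_lit 52) (nat_lit 104) (.st (nat_lit 51) (nat_lit 104) .nil))⟩,
  ⟨r13o_26, r7o_24, r5o_2, (.st (nat_lit 260) (nat_lit 520) (.st (nat_lit 259) (nat_lit 520) .nil))⟩,
  ⟨r13o_26, r7o_24, r5o_4, (.st (nat_lit 52) (nat_lit 104) (.st (nat_lit 51) (nat_lit 104) .nil))⟩,
  ⟨r13o_26, r7o_24, r5o_6, (.st (nat_lit 156) (nat_lit 312) (.st (nat_lit 155) (nat_lit 312) .nil))⟩,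
  ⟨r13o_26, r7o_24, r5o_8, (.st (nat_lit 260) (nat_lit 520) (.st (nat_lit 259) (nat_lit 520) .nil))⟩,
  ⟨r13o_26, r7o_25, r5o_0, (.st (nat_lit 103) (nat_lit 104) (.st (nat_lit 0) (nat_lit 104) .nil))⟩,
  ⟨r13o_26, r7o_25, r5o_2, (.st (nat_lit 519) (nat_lit 520) (.st (nat_lit 0) (nat_lit 520) .nil))⟩,
  ⟨r13o_26, r7o_25, r5o_4, (.st (nat_lit 103) (nat_lit 104) (.st (nat_lit 0) (nat_lit 104) .nil))⟩,
  ⟨r13o_26, r7o_25, r5o_6, (.st (nat_lit 311) (nat_lit 312) (.st (nat_lit 0) (nat_lit 312) .nil))⟩,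
  ⟨r13o_26, r7o_25, r5o_8, (.st (nat_lit 519) (nat_lit 520) (.st (nat_lit 0) (nat_lit 520) .nil))⟩]

/-- entries -/
def EA27 : List E3 := [⟨r13o_27, r7o_1, r5o_0, (.st (nat_lit 90) (nat_lit 182) (.st (nat_lit 91) (nat_lit 182) .nil))⟩,
  ⟨r13o_27, r7o_1, r5o_3, (.st (nat_lit 454) (nat_lit 910) (.st (nat_lit 455) (nat_lit 910) .nil))⟩,
  ⟨r13o_27, r7o_1, r5o_5, (.st (nat_lit 272) (nat_lit 546) (.st (nat_lit 273) (nat_lit 546) .nil))⟩,
  ⟨r13o_27, r7o_1, r5o_7, (.st (nat_lit 90) (nat_lit 182) (.st (nat_lit 91) (nat_lit 182) .nil))⟩,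
  ⟨r13o_27, r7o_1, r5o_9, (.st (nat_lit 454) (nat_lit 910) (.st (nat_lit 455) (nat_lit 910) .nil))⟩,
  ⟨r13o_27, r7o_2, r5o_1, (.st (nat_lit 181) (nat_lit 182) (.st (nat_lit 0) (nat_lit 182) .nil))⟩,
  ⟨r13o_27, r7o_2, r5o_3, (.st (nat_lit 909) (nat_lit 910) (.st (nat_lit 0) (nat_lit 910) .nil))⟩,
  ⟨r13o_27, r7o_2, r5o_5, (.st (nat_lit 545) (nat_lit 546) (.st (nat_lit 0) (nat_lit 546) .nil))⟩,
  ⟨r13o_27, r7o_2, r5o_7, (.st (nat_lit 181) (nat_lit 182) (.st (nat_lit 0) (nat_lit 182) .nil))⟩,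
  ⟨r13o_27, r7o_2, r5o_9, (.st (nat_lit 909) (nat_lit 910) (.st (nat_lit 0) (nat_lit 910) .nil))⟩,
  ⟨r13o_27, r7o_6, r5o_1, (.st (nat_lit 727) (nat_lit 728) (.st (nat_lit 0) (nat_lit 728) .nil))⟩,
  ⟨r13o_27, r7o_6, r5o_3, (.st (nat_lit 3639) (nat_lit 3640) (.st (nat_lit 0) (nat_lit 3640) .nil))⟩,
  ⟨r13o_27, r7o_6, r5o_5, (.st (nat_lit 2183) (nat_lit 2184) (.st (nat_lit 0) (nat_lit 2184) .nil))⟩,
  ⟨r13o_27, r7o_6, r5o_7, (.st (nat_lit 727) (nat_lit 728) (.st (nat_lit 0) (nat_lit 728) .nil))⟩,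
  ⟨r13o_27, r7o_6, r5o_9, (.st (nat_lit 3639) (nat_lit 3640) (.st (nat_lit 0) (nat_lit 3640) .nil))⟩,
  ⟨r13o_27, r7o_7, r5o_1, (.st (nat_lit 363) (nat_lit 728) (.st (nat_lit 364) (nat_lit 728) .nil))⟩,
  ⟨r13o_27, r7o_7, r5o_3, (.st (nat_lit 1819) (nat_lit 3640) (.st (nat_lit 1820) (nat_lit 3640) .nil))⟩,
  ⟨r13o_27, r7o_7, r5o_5, (.st (nat_lit 1091) (nat_lit 2184) (.st (nat_lit 1092) (nat_lit 2184) .nil))⟩,
  ⟨r13o_27, r7o_7, r5o_7, (.st (nat_lit 363) (nat_lit 728) (.st (nat_lit 364) (nat_lit 728) .nil))⟩,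
  ⟨r13o_27, r7o_7, r5o_9, (.st (nat_lit 1819) (nat_lit 3640) (.st (nat_lit 1820) (nat_lit 3640) .nil))⟩,
  ⟨r13o_27, r7o_8, r5o_0, (.st (nat_lit 272) (nat_lit 546) (.st (nat_lit 273) (nat_lit 546) .nil))⟩,
  ⟨r13o_27, r7o_8, r5o_3, (.st (nat_lit 1364) (nat_lit 2730) (.st (nat_lit 1365) (nat_lit 2730) .nil))⟩,
  ⟨r13o_27, r7o_8, r5o_5, (.st (nat_lit 272) (nat_lit 546) (.st (nat_lit 273) (nat_lit 546) .nil))⟩,
  ⟨r13o_27, r7o_8, r5o_7, (.st (nat_lit 272) (nat_lit 546) (.st (nat_lit 273) (nat_lit 546) .nil))⟩,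
  ⟨r13o_27, r7o_8, r5o_9, (.st (nat_lit 1364) (nat_lit 2730) (.st (nat_lit 1365) (nat_lit 2730) .nil))⟩,
  ⟨r13o_27, r7o_10, r5o_1, (.st (nat_lit 545) (nat_lit 546) (.st (nat_lit 0) (nat_lit 546) .nil))⟩,
  ⟨r13o_27, r7o_10, r5o_3, (.st (nat_lit 2729) (nat_lit 2730) (.st (nat_lit 0) (nat_lit 2730) .nil))⟩,
  ⟨r13o_27, r7o_10, r5o_5, (.st (nat_lit 545) (nat_lit 546) (.st (nat_lit 0) (nat_lit 546) .nil))⟩,
  ⟨r13o_27, r7o_10, r5o_7, (.st (nat_lit 545) (nat_lit 546) (.st (nat_lit 0) (nat_lit 546) .nil))⟩,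
  ⟨r13o_27, r7o_10, r5o_9, (.st (nat_lit 2729) (nat_lit 2730) (.st (nat_lit 0) (nat_lit 2730) .nil))⟩,
  ⟨r13o_27, r7o_13, r5o_4, (.st (nat_lit 3) (nat_lit 7) .nil)⟩,
  ⟨r13o_27, r7o_14, r5o_1, (.st (nat_lit 727) (nat_lit 728) (.st (nat_lit 0) (nat_lit 728) .nil))⟩,
  ⟨r13o_27, r7o_14, r5o_3, (.st (nat_lit 3639) (nat_lit 3640) (.st (nat_lit 0) (nat_lit 3640) .nil))⟩,
  ⟨r13o_27, r7o_14, r5o_5, (.st (nat_lit 2183) (nat_lit 2184) (.st (nat_lit 0) (nat_lit 2184) .nil))⟩,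
  ⟨r13o_27, r7o_14, r5o_7, (.st (nat_lit 727) (nat_lit 728) (.st (nat_lit 0) (nat_lit 728) .nil))⟩,
  ⟨r13o_27, r7o_14, r5o_9, (.st (nat_lit 3639) (nat_lit 3640) (.st (nat_lit 0) (nat_lit 3640) .nil))⟩,
  ⟨r13o_27, r7o_15, r5o_1, (.st (nat_lit 363) (nat_lit 728) (.st (nat_lit 364) (nat_lit 728) .nil))⟩,
  ⟨r13o_27, r7o_15, r5o_3, (.st (nat_lit 1819) (nat_lit 3640) (.st (nat_lit 1820) (nat_lit 3640) .nil))⟩,
  ⟨r13o_27, r7o_15, r5o_5, (.st (nat_lit 1091) (nat_lit 2184) (.st (nat_lit 1092) (nat_lit 2184) .nil))⟩,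
  ⟨r13o_27, r7o_15, r5o_7, (.st (nat_lit 363) (nat_lit 728) (.st (nat_lit 364) (nat_lit 728) .nil))⟩,
  ⟨r13o_27, r7o_15, r5o_9, (.st (nat_lit 1819) (nat_lit 3640) (.st (nat_lit 1820) (nat_lit 3640) .nil))⟩,
  ⟨r13o_27, r7o_18, r5o_0, (.st (nat_lit 90) (nat_lit 182) (.st (nat_lit 91) (nat_lit 182) .nil))⟩,
  ⟨r13o_27, r7o_18, r5o_1, (.st (nat_lit 181) (nat_lit 182) (.st (nat_lit 0) (nat_lit 182) .nil))⟩,
  ⟨r13o_27, r7o_18, r5o_3, (.st (nat_lit 454) (nat_lit 455) (.st (nat_lit 0) (nat_lit 455) .nil))⟩,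
  ⟨r13o_27, r7o_18, r5o_5, (.st (nat_lit 272) (nat_lit 273) (.st (nat_lit 0) (nat_lit 273) .nil))⟩,
  ⟨r13o_27, r7o_18, r5o_7, (.st (nat_lit 90) (nat_lit 91) (.st (nat_lit 0) (nat_lit 91) .nil))⟩,
  ⟨r13o_27, r7o_18, r5o_8, (.st (nat_lit 17) (nat_lit 35) .nil)⟩,
  ⟨r13o_27, r7o_18, r5o_9, (.st (nat_lit 34) (nat_lit 35) (.st (nat_lit 17) (nat_lit 35) (.st (nat_lit 0) (nat_lit 35) .nil)))⟩,
  ⟨r13o_27, r7o_20, r5o_0, (.st (nat_lit 272) (nat_lit 546) (.st (nat_lit 273) (nat_lit 546) .nil))⟩,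
  ⟨r13o_27, r7o_20, r5o_3, (.st (nat_lit 1364) (nat_lit 2730) (.st (nat_lit 1365) (nat_lit 2730) .nil))⟩,
  ⟨r13o_27, r7o_20, r5o_5, (.st (nat_lit 272) (nat_lit 546) (.st (nat_lit 273) (nat_lit 546) .nil))⟩,
  ⟨r13o_27, r7o_20, r5o_7, (.st (nat_lit 272) (nat_lit 546) (.st (nat_lit 273) (nat_lit 546) .nil))⟩,
  ⟨r13o_27, r7o_20, r5o_9, (.st (nat_lit 1364) (nat_lit 2730) (.st (nat_lit 1365) (nat_lit 2730) .nil))⟩,
  ⟨r13o_27, r7o_22, r5o_1, (.st (nat_lit 545) (nat_lit 546) (.st (nat_lit 0) (nat_lit 546) .nil))⟩,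
  ⟨r13o_27, r7o_22, r5o_3, (.st (nat_lit 2729) (nat_lit 2730) (.st (nat_lit 0) (nat_lit 2730) .nil))⟩,
  ⟨r13o_27, r7o_22, r5o_5, (.st (nat_lit 545) (nat_lit 546) (.st (nat_lit 0) (nat_lit 546) .nil))⟩,
  ⟨r13o_27, r7o_22, r5o_7, (.st (nat_lit 545) (nat_lit 546) (.st (nat_lit 0) (nat_lit 546) .nil))⟩,
  ⟨r13o_27, r7o_22, r5o_9, (.st (nat_lit 2729) (nat_lit 2730) (.st (nat_lit 0) (nat_lit 2730) .nil))⟩,
  ⟨r13o_27, r7o_26, r5o_1, (.st (nat_lit 727) (nat_lit 728) (.st (nat_lit 363) (nat_lit 728) (.st (nat_lit 364) (nat_lit 728) (.st (nat_lit 0) (nat_lit 728) .nil))))⟩,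
  ⟨r13o_27, r7o_26, r5o_3, (.st (nat_lit 3639) (nat_lit 3640) (.st (nat_lit 1819) (nat_lit 3640) (.st (nat_lit 1820) (nat_lit 3640) (.st (nat_lit 0) (nat_lit 3640) .nil))))⟩,
  ⟨r13o_27, r7o_26, r5o_5, (.st (nat_lit 2183) (nat_lit 2184) (.st (nat_lit 1091) (nat_lit 2184) (.st (nat_lit 1092) (nat_lit 2184) (.st (nat_lit 0) (nat_lit 2184) .nil))))⟩,
  ⟨r13o_27, r7o_26, r5o_7, (.st (nat_lit 727) (nat_lit 728) (.st (nat_lit 363) (nat_lit 728) (.st (nat_lit 364) (nat_lit 728) (.st (nat_lit 0) (nat_lit 728) .nil))))⟩,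
  ⟨r13o_27, r7o_26, r5o_9, (.st (nat_lit 3639) (nat_lit 3640) (.st (nat_lit 1819) (nat_lit 3640) (.st (nat_lit 1820) (nat_lit 3640) (.st (nat_lit 0) (nat_lit 3640) .nil))))⟩]

/-- entries -/
def EA28 : List E3 := [⟨r13o_28, r7o_13, r5o_4, (.st (nat_lit 3) (nat_lit 7) .nil)⟩,
  ⟨r13o_28, r7o_18, r5o_8, (.st (nat_lit 17) (nat_lit 35) .nil)⟩,
  ⟨r13o_28, r7o_18, r5o_9, (.st (nat_lit 17) (nat_lit 35) .nil)⟩]

/-- entries -/
def EA29 : List E3 := [⟨r13o_29, r7o_13, r5o_2, (.st (nat_lit 17) (nat_lit 35) .nil)⟩,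
  ⟨r13o_29, r7o_13, r5o_3, (.st (nat_lit 17) (nat_lit 35) .nil)⟩,
  ⟨r13o_29, r7o_13, r5o_4, (.st (nat_lit 3) (nat_lit 7) .nil)⟩,
  ⟨r13o_29, r7o_13, r5o_5, (.st (nat_lit 10) (nat_lit 21) .nil)⟩,
  ⟨r13o_29, r7o_13, r5o_6, (.st (nat_lit 10) (nat_lit 21) .nil)⟩,
  ⟨r13o_29, r7o_13, r5o_7, (.st (nat_lit 3) (nat_lit 7) .nil)⟩,
  ⟨r13o_29, r7o_13, r5o_8, (.st (nat_lit 17) (nat_lit 35) .nil)⟩,
  ⟨r13o_29, r7o_13, r5o_9, (.st (nat_lit 17) (nat_lit 35) .nil)⟩,
  ⟨r13o_29, r7o_18, r5o_2, (.st (nat_lit 17) (nat_lit 35) .nil)⟩,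
  ⟨r13o_29, r7o_18, r5o_3, (.st (nat_lit 17) (nat_lit 35) .nil)⟩,
  ⟨r13o_29, r7o_18, r5o_4, (.st (nat_lit 3) (nat_lit 7) .nil)⟩,
  ⟨r13o_29, r7o_18, r5o_5, (.st (nat_lit 10) (nat_lit 21) .nil)⟩,
  ⟨r13o_29, r7o_18, r5o_6, (.st (nat_lit 10) (nat_lit 21) .nil)⟩,
  ⟨r13o_29, r7o_18, r5o_7, (.st (nat_lit 3) (nat_lit 7) .nil)⟩,
  ⟨r13o_29, r7o_18, r5o_8, (.st (nat_lit 17) (nat_lit 35) .nil)⟩,
  ⟨r13o_29, r7o_18, r5o_9, (.st (nat_lit 17) (nat_lit 35) .nil)⟩]

/-- entries -/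
def EA30 : List E3 := []

/-- entries -/
def EA31 : List E3 := []

/-- entries -/
def EA32 : List E3 := [⟨r13o_32, r7o_1, r5o_0, (.st (nat_lit 77) (nat_lit 78) (.st (nat_lit 0) (nat_lit 78) .nil))⟩,
  ⟨r13o_32, r7o_1, r5o_2, (.st (nat_lit 389) (nat_lit 390) (.st (nat_lit 0) (nat_lit 390) .nil))⟩,
  ⟨r13o_32, r7o_1, r5o_4, (.st (nat_lit 77) (nat_lit 78) (.st (nat_lit 0) (nat_lit 78) .nil))⟩,
  ⟨r13o_32, r7o_1, r5o_6, (.st (nat_lit 77) (nat_lit 78) (.st (nat_lit 0) (nat_lit 78) .nil))⟩,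
  ⟨r13o_32, r7o_1, r5o_8, (.st (nat_lit 389) (nat_lit 390) (.st (nat_lit 0) (nat_lit 390) .nil))⟩,
  ⟨r13o_32, r7o_2, r5o_1, (.st (nat_lit 38) (nat_lit 78) (.st (nat_lit 39) (nat_lit 78) .nil))⟩,
  ⟨r13o_32, r7o_2, r5o_2, (.st (nat_lit 194) (nat_lit 390) (.st (nat_lit 195) (nat_lit 390) .nil))⟩,
  ⟨r13o_32, r7o_2, r5o_4, (.st (nat_lit 38) (nat_lit 78) (.st (nat_lit 39) (nat_lit 78) .nil))⟩,
  ⟨r13o_32, r7o_2, r5o_6, (.st (nat_lit 38) (nat_lit 78) (.st (nat_lit 39) (nat_lit 78) .nil))⟩,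
  ⟨r13o_32, r7o_2, r5o_8, (.st (nat_lit 194) (nat_lit 390) (.st (nat_lit 195) (nat_lit 390) .nil))⟩,
  ⟨r13o_32, r7o_5, r5o_0, (.st (nat_lit 311) (nat_lit 312) (.st (nat_lit 155) (nat_lit 312) (.st (nat_lit 156) (nat_lit 312) (.st (nat_lit 0) (nat_lit 312) .nil))))⟩,
  ⟨r13o_32, r7o_5, r5o_2, (.st (nat_lit 1559) (nat_lit 1560) (.st (nat_lit 779) (nat_lit 1560) (.st (nat_lit 780) (nat_lit 1560) (.st (nat_lit 0) (nat_lit 1560) .nil))))⟩,
  ⟨r13o_32, r7o_5, r5o_4, (.st (nat_lit 311) (nat_lit 312) (.st (nat_lit 155) (nat_lit 312) (.st (nat_lit 156) (nat_lit 312) (.st (nat_lit 0) (nat_lit 312) .nil))))⟩,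
  ⟨r13o_32, r7o_5, r5o_6, (.st (nat_lit 311) (nat_lit 312) (.st (nat_lit 155) (nat_lit 312) (.st (nat_lit 156) (nat_lit 312) (.st (nat_lit 0) (nat_lit 312) .nil))))⟩,
  ⟨r13o_32, r7o_5, r5o_8, (.st (nat_lit 1559) (nat_lit 1560) (.st (nat_lit 779) (nat_lit 1560) (.st (nat_lit 780) (nat_lit 1560) (.st (nat_lit 0) (nat_lit 1560) .nil))))⟩,
  ⟨r13o_32, r7o_9, r5o_0, (.st (nat_lit 77) (nat_lit 78) (.st (nat_lit 0) (nat_lit 78) .nil))⟩,
  ⟨r13o_32, r7o_9, r5o_2, (.st (nat_lit 389) (nat_lit 390) (.st (nat_lit 0) (nat_lit 390) .nil))⟩,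
  ⟨r13o_32, r7o_9, r5o_4, (.st (nat_lit 77) (nat_lit 78) (.st (nat_lit 0) (nat_lit 78) .nil))⟩,
  ⟨r13o_32, r7o_9, r5o_6, (.st (nat_lit 77) (nat_lit 78) (.st (nat_lit 0) (nat_lit 78) .nil))⟩,
  ⟨r13o_32, r7o_9, r5o_8, (.st (nat_lit 389) (nat_lit 390) (.st (nat_lit 0) (nat_lit 390) .nil))⟩,
  ⟨r13o_32, r7o_11, r5o_1, (.st (nat_lit 38) (nat_lit 78) (.st (nat_lit 39) (nat_lit 78) .nil))⟩,
  ⟨r13o_32, r7o_11, r5o_2, (.st (nat_lit 194) (nat_lit 390) (.st (nat_lit 195) (nat_lit 390) .nil))⟩,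
  ⟨r13o_32, r7o_11, r5o_4, (.st (nat_lit 38) (nat_lit 78) (.st (nat_lit 39) (nat_lit 78) .nil))⟩,
  ⟨r13o_32, r7o_11, r5o_6, (.st (nat_lit 38) (nat_lit 78) (.st (nat_lit 39) (nat_lit 78) .nil))⟩,
  ⟨r13o_32, r7o_11, r5o_8, (.st (nat_lit 194) (nat_lit 390) (.st (nat_lit 195) (nat_lit 390) .nil))⟩,
  ⟨r13o_32, r7o_13, r5o_0, (.st (nat_lit 77) (nat_lit 78) (.st (nat_lit 0) (nat_lit 78) .nil))⟩,
  ⟨r13o_32, r7o_13, r5o_1, (.st (nat_lit 38) (nat_lit 78) (.st (nat_lit 39) (nat_lit 78) .nil))⟩,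
  ⟨r13o_32, r7o_13, r5o_2, (.st (nat_lit 194) (nat_lit 195) (.st (nat_lit 0) (nat_lit 195) .nil))⟩,
  ⟨r13o_32, r7o_13, r5o_4, (.st (nat_lit 38) (nat_lit 39) (.st (nat_lit 0) (nat_lit 39) .nil))⟩,
  ⟨r13o_32, r7o_13, r5o_6, (.st (nat_lit 38) (nat_lit 39) (.st (nat_lit 0) (nat_lit 39) .nil))⟩,
  ⟨r13o_32, r7o_13, r5o_8, (.st (nat_lit 194) (nat_lit 195) (.st (nat_lit 0) (nat_lit 195) .nil))⟩,
  ⟨r13o_32, r7o_16, r5o_0, (.st (nat_lit 155) (nat_lit 312) (.st (nat_lit 156) (nat_lit 312) .nil))⟩,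
  ⟨r13o_32, r7o_16, r5o_2, (.st (nat_lit 779) (nat_lit 1560) (.st (nat_lit 780) (nat_lit 1560) .nil))⟩,
  ⟨r13o_32, r7o_16, r5o_4, (.st (nat_lit 155) (nat_lit 312) (.st (nat_lit 156) (nat_lit 312) .nil))⟩,
  ⟨r13o_32, r7o_16, r5o_6, (.st (nat_lit 155) (nat_lit 312) (.st (nat_lit 156) (nat_lit 312) .nil))⟩,
  ⟨r13o_32, r7o_16, r5o_8, (.st (nat_lit 779) (nat_lit 1560) (.st (nat_lit 780) (nat_lit 1560) .nil))⟩,
  ⟨r13o_32, r7o_17, r5o_0, (.st (nat_lit 311) (nat_lit 312) (.st (nat_lit 0) (nat_lit 312) .nil))⟩,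
  ⟨r13o_32, r7o_17, r5o_2, (.st (nat_lit 1559) (nat_lit 1560) (.st (nat_lit 0) (nat_lit 1560) .nil))⟩,
  ⟨r13o_32, r7o_17, r5o_4, (.st (nat_lit 311) (nat_lit 312) (.st (nat_lit 0) (nat_lit 312) .nil))⟩,
  ⟨r13o_32, r7o_17, r5o_6, (.st (nat_lit 311) (nat_lit 312) (.st (nat_lit 0) (nat_lit 312) .nil))⟩,
  ⟨r13o_32, r7o_17, r5o_8, (.st (nat_lit 1559) (nat_lit 1560) (.st (nat_lit 0) (nat_lit 1560) .nil))⟩,
  ⟨r13o_32, r7o_21, r5o_0, (.st (nat_lit 77) (nat_lit 78) (.st (nat_lit 0) (nat_lit 78) .nil))⟩,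
  ⟨r13o_32, r7o_21, r5o_2, (.st (nat_lit 389) (nat_lit 390) (.st (nat_lit 0) (nat_lit 390) .nil))⟩,
  ⟨r13o_32, r7o_21, r5o_4, (.st (nat_lit 77) (nat_lit 78) (.st (nat_lit 0) (nat_lit 78) .nil))⟩,
  ⟨r13o_32, r7o_21, r5o_6, (.st (nat_lit 77) (nat_lit 78) (.st (nat_lit 0) (nat_lit 78) .nil))⟩,
  ⟨r13o_32, r7o_21, r5o_8, (.st (nat_lit 389) (nat_lit 390) (.st (nat_lit 0) (nat_lit 390) .nil))⟩,
  ⟨r13o_32, r7o_23, r5o_1, (.st (nat_lit 38) (nat_lit 78) (.st (nat_lit 39) (nat_lit 78) .nil))⟩,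
  ⟨r13o_32, r7o_23, r5o_2, (.st (nat_lit 194) (nat_lit 390) (.st (nat_lit 195) (nat_lit 390) .nil))⟩,
  ⟨r13o_32, r7o_23, r5o_4, (.st (nat_lit 38) (nat_lit 78) (.st (nat_lit 39) (nat_lit 78) .nil))⟩,
  ⟨r13o_32, r7o_23, r5o_6, (.st (nat_lit 38) (nat_lit 78) (.st (nat_lit 39) (nat_lit 78) .nil))⟩,
  ⟨r13o_32, r7o_23, r5o_8, (.st (nat_lit 194) (nat_lit 390) (.st (nat_lit 195) (nat_lit 390) .nil))⟩,
  ⟨r13o_32, r7o_24, r5o_0, (.st (nat_lit 155) (nat_lit 312) (.st (nat_lit 156) (nat_lit 312) .nil))⟩,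
  ⟨r13o_32, r7o_24, r5o_2, (.st (nat_lit 779) (nat_lit 1560) (.st (nat_lit 780) (nat_lit 1560) .nil))⟩,
  ⟨r13o_32, r7o_24, r5o_4, (.st (nat_lit 155) (nat_lit 312) (.st (nat_lit 156) (nat_lit 312) .nil))⟩,
  ⟨r13o_32, r7o_24, r5o_6, (.st (nat_lit 155) (nat_lit 312) (.st (nat_lit 156) (nat_lit 312) .nil))⟩,
  ⟨r13o_32, r7o_24, r5o_8, (.st (nat_lit 779) (nat_lit 1560) (.st (nat_lit 780) (nat_lit 1560) .nil))⟩,
  ⟨r13o_32, r7o_25, r5o_0, (.st (nat_lit 311) (nat_lit 312) (.st (nat_lit 0) (nat_lit 312) .nil))⟩,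
  ⟨r13o_32, r7o_25, r5o_2, (.st (nat_lit 1559) (nat_lit 1560) (.st (nat_lit 0) (nat_lit 1560) .nil))⟩,
  ⟨r13o_32, r7o_25, r5o_4, (.st (nat_lit 311) (nat_lit 312) (.st (nat_lit 0) (nat_lit 312) .nil))⟩,
  ⟨r13o_32, r7o_25, r5o_6, (.st (nat_lit 311) (nat_lit 312) (.st (nat_lit 0) (nat_lit 312) .nil))⟩,
  ⟨r13o_32, r7o_25, r5o_8, (.st (nat_lit 1559) (nat_lit 1560) (.st (nat_lit 0) (nat_lit 1560) .nil))⟩]

/-- entries -/
def EA33 : List E3 := [⟨r13o_33, r7o_1, r5o_0, (.st (nat_lit 38) (nat_lit 78) (.st (nat_lit 39) (nat_lit 78) .nil))⟩,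
  ⟨r13o_33, r7o_1, r5o_3, (.st (nat_lit 194) (nat_lit 390) (.st (nat_lit 195) (nat_lit 390) .nil))⟩,
  ⟨r13o_33, r7o_1, r5o_5, (.st (nat_lit 38) (nat_lit 78) (.st (nat_lit 39) (nat_lit 78) .nil))⟩,
  ⟨r13o_33, r7o_1, r5o_7, (.st (nat_lit 38) (nat_lit 78) (.st (nat_lit 39) (nat_lit 78) .nil))⟩,
  ⟨r13o_33, r7o_1, r5o_9, (.st (nat_lit 194) (nat_lit 390) (.st (nat_lit 195) (nat_lit 390) .nil))⟩,
  ⟨r13o_33, r7o_2, r5o_1, (.st (nat_lit 77) (nat_lit 78) (.st (nat_lit 0) (nat_lit 78) .nil))⟩,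
  ⟨r13o_33, r7o_2, r5o_3, (.st (nat_lit 389) (nat_lit 390) (.st (nat_lit 0) (nat_lit 390) .nil))⟩,
  ⟨r13o_33, r7o_2, r5o_5, (.st (nat_lit 77) (nat_lit 78) (.st (nat_lit 0) (nat_lit 78) .nil))⟩,
  ⟨r13o_33, r7o_2, r5o_7, (.st (nat_lit 77) (nat_lit 78) (.st (nat_lit 0) (nat_lit 78) .nil))⟩,
  ⟨r13o_33, r7o_2, r5o_9, (.st (nat_lit 389) (nat_lit 390) (.st (nat_lit 0) (nat_lit 390) .nil))⟩,
  ⟨r13o_33, r7o_6, r5o_1, (.st (nat_lit 311) (nat_lit 312) (.st (nat_lit 0) (nat_lit 312) .nil))⟩,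
  ⟨r13o_33, r7o_6, r5o_3, (.st (nat_lit 1559) (nat_lit 1560) (.st (nat_lit 0) (nat_lit 1560) .nil))⟩,
  ⟨r13o_33, r7o_6, r5o_5, (.st (nat_lit 311) (nat_lit 312) (.st (nat_lit 0) (nat_lit 312) .nil))⟩,
  ⟨r13o_33, r7o_6, r5o_7, (.st (nat_lit 311) (nat_lit 312) (.st (nat_lit 0) (nat_lit 312) .nil))⟩,
  ⟨r13o_33, r7o_6, r5o_9, (.st (nat_lit 1559) (nat_lit 1560) (.st (nat_lit 0) (nat_lit 1560) .nil))⟩,
  ⟨r13o_33, r7o_7, r5o_1, (.st (nat_lit 155) (nat_lit 312) (.st (nat_lit 156) (nat_lit 312) .nil))⟩,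
  ⟨r13o_33, r7o_7, r5o_3, (.st (nat_lit 779) (nat_lit 1560) (.st (nat_lit 780) (nat_lit 1560) .nil))⟩,
  ⟨r13o_33, r7o_7, r5o_5, (.st (nat_lit 155) (nat_lit 312) (.st (nat_lit 156) (nat_lit 312) .nil))⟩,
  ⟨r13o_33, r7o_7, r5o_7, (.st (nat_lit 155) (nat_lit 312) (.st (nat_lit 156) (nat_lit 312) .nil))⟩,
  ⟨r13o_33, r7o_7, r5o_9, (.st (nat_lit 779) (nat_lit 1560) (.st (nat_lit 780) (nat_lit 1560) .nil))⟩,
  ⟨r13o_33, r7o_8, r5o_0, (.st (nat_lit 38) (nat_lit 78) (.st (nat_lit 39) (nat_lit 78) .nil))⟩,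
  ⟨r13o_33, r7o_8, r5o_3, (.st (nat_lit 194) (nat_lit 390) (.st (nat_lit 195) (nat_lit 390) .nil))⟩,
  ⟨r13o_33, r7o_8, r5o_5, (.st (nat_lit 38) (nat_lit 78) (.st (nat_lit 39) (nat_lit 78) .nil))⟩,
  ⟨r13o_33, r7o_8, r5o_7, (.st (nat_lit 38) (nat_lit 78) (.st (nat_lit 39) (nat_lit 78) .nil))⟩,
  ⟨r13o_33, r7o_8, r5o_9, (.st (nat_lit 194) (nat_lit 390) (.st (nat_lit 195) (nat_lit 390) .nil))⟩,
  ⟨r13o_33, r7o_10, r5o_1, (.st (nat_lit 77) (nat_lit 78) (.st (nat_lit 0) (nat_lit 78) .nil))⟩,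
  ⟨r13o_33, r7o_10, r5o_3, (.st (nat_lit 389) (nat_lit 390) (.st (nat_lit 0) (nat_lit 390) .nil))⟩,
  ⟨r13o_33, r7o_10, r5o_5, (.st (nat_lit 77) (nat_lit 78) (.st (nat_lit 0) (nat_lit 78) .nil))⟩,
  ⟨r13o_33, r7o_10, r5o_7, (.st (nat_lit 77) (nat_lit 78) (.st (nat_lit 0) (nat_lit 78) .nil))⟩,
  ⟨r13o_33, r7o_10, r5o_9, (.st (nat_lit 389) (nat_lit 390) (.st (nat_lit 0) (nat_lit 390) .nil))⟩,
  ⟨r13o_33, r7o_14, r5o_1, (.st (nat_lit 311) (nat_lit 312) (.st (nat_lit 0) (nat_lit 312) .nil))⟩,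
  ⟨r13o_33, r7o_14, r5o_3, (.st (nat_lit 1559) (nat_lit 1560) (.st (nat_lit 0) (nat_lit 1560) .nil))⟩,
  ⟨r13o_33, r7o_14, r5o_5, (.st (nat_lit 311) (nat_lit 312) (.st (nat_lit 0) (nat_lit 312) .nil))⟩,
  ⟨r13o_33, r7o_14, r5o_7, (.st (nat_lit 311) (nat_lit 312) (.st (nat_lit 0) (nat_lit 312) .nil))⟩,
  ⟨r13o_33, r7o_14, r5o_9, (.st (nat_lit 1559) (nat_lit 1560) (.st (nat_lit 0) (nat_lit 1560) .nil))⟩,
  ⟨r13o_33, r7o_15, r5o_1, (.st (nat_lit 155) (nat_lit 312) (.st (nat_lit 156) (nat_lit 312) .nil))⟩,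
  ⟨r13o_33, r7o_15, r5o_3, (.st (nat_lit 779) (nat_lit 1560) (.st (nat_lit 780) (nat_lit 1560) .nil))⟩,
  ⟨r13o_33, r7o_15, r5o_5, (.st (nat_lit 155) (nat_lit 312) (.st (nat_lit 156) (nat_lit 312) .nil))⟩,
  ⟨r13o_33, r7o_15, r5o_7, (.st (nat_lit 155) (nat_lit 312) (.st (nat_lit 156) (nat_lit 312) .nil))⟩,
  ⟨r13o_33, r7o_15, r5o_9, (.st (nat_lit 779) (nat_lit 1560) (.st (nat_lit 780) (nat_lit 1560) .nil))⟩,
  ⟨r13o_33, r7o_18, r5o_0, (.st (nat_lit 38) (nat_lit 78) (.st (nat_lit 39) (nat_lit 78) .nil))⟩,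
  ⟨r13o_33, r7o_18, r5o_1, (.st (nat_lit 77) (nat_lit 78) (.st (nat_lit 0) (nat_lit 78) .nil))⟩,
  ⟨r13o_33, r7o_18, r5o_3, (.st (nat_lit 194) (nat_lit 195) (.st (nat_lit 0) (nat_lit 195) .nil))⟩,
  ⟨r13o_33, r7o_18, r5o_5, (.st (nat_lit 38) (nat_lit 39) (.st (nat_lit 0) (nat_lit 39) .nil))⟩,
  ⟨r13o_33, r7o_18, r5o_7, (.st (nat_lit 38) (nat_lit 39) (.st (nat_lit 0) (nat_lit 39) .nil))⟩,
  ⟨r13o_33, r7o_18, r5o_9, (.st (nat_lit 194) (nat_lit 195) (.st (nat_lit 0) (nat_lit 195) .nil))⟩,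
  ⟨r13o_33, r7o_20, r5o_0, (.st (nat_lit 38) (nat_lit 78) (.st (nat_lit 39) (nat_lit 78) .nil))⟩,
  ⟨r13o_33, r7o_20, r5o_3, (.st (nat_lit 194) (nat_lit 390) (.st (nat_lit 195) (nat_lit 390) .nil))⟩,
  ⟨r13o_33, r7o_20, r5o_5, (.st (nat_lit 38) (nat_lit 78) (.st (nat_lit 39) (nat_lit 78) .nil))⟩,
  ⟨r13o_33, r7o_20, r5o_7, (.st (nat_lit 38) (nat_lit 78) (.st (nat_lit 39) (nat_lit 78) .nil))⟩,
  ⟨r13o_33, r7o_20, r5o_9, (.st (nat_lit 194) (nat_lit 390) (.st (nat_lit 195) (nat_lit 390) .nil))⟩,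
  ⟨r13o_33, r7o_22, r5o_1, (.st (nat_lit 77) (nat_lit 78) (.st (nat_lit 0) (nat_lit 78) .nil))⟩,
  ⟨r13o_33, r7o_22, r5o_3, (.st (nat_lit 389) (nat_lit 390) (.st (nat_lit 0) (nat_lit 390) .nil))⟩,
  ⟨r13o_33, r7o_22, r5o_5, (.st (nat_lit 77) (nat_lit 78) (.st (nat_lit 0) (nat_lit 78) .nil))⟩,
  ⟨r13o_33, r7o_22, r5o_7, (.st (nat_lit 77) (nat_lit 78) (.st (nat_lit 0) (nat_lit 78) .nil))⟩,
  ⟨r13o_33, r7o_22, r5o_9, (.st (nat_lit 389) (nat_lit 390) (.st (nat_lit 0) (nat_lit 390) .nil))⟩,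
  ⟨r13o_33, r7o_26, r5o_1, (.st (nat_lit 311) (nat_lit 312) (.st (nat_lit 155) (nat_lit 312) (.st (nat_lit 156) (nat_lit 312) (.st (nat_lit 0) (nat_lit 312) .nil))))⟩,
  ⟨r13o_33, r7o_26, r5o_3, (.st (nat_lit 1559) (nat_lit 1560) (.st (nat_lit 779) (nat_lit 1560) (.st (nat_lit 780) (nat_lit 1560) (.st (nat_lit 0) (nat_lit 1560) .nil))))⟩,
  ⟨r13o_33, r7o_26, r5o_5, (.st (nat_lit 23) (nat_lit 24) (.st (nat_lit 11) (nat_lit 24) (.st (nat_lit 12) (nat_lit 24) (.st (nat_lit 0) (nat_lit 24) .nil))))⟩,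
  ⟨r13o_33, r7o_26, r5o_7, (.st (nat_lit 311) (nat_lit 312) (.st (nat_lit 155) (nat_lit 312) (.st (nat_lit 156) (nat_lit 312) (.st (nat_lit 0) (nat_lit 312) .nil))))⟩,
  ⟨r13o_33, r7o_26, r5o_9, (.st (nat_lit 1559) (nat_lit 1560) (.st (nat_lit 779) (nat_lit 1560) (.st (nat_lit 780) (nat_lit 1560) (.st (nat_lit 0) (nat_lit 1560) .nil))))⟩]

/-- entries -/
def EA34 : List E3 := [⟨r13o_34, r7o_24, r5o_3, (.st (nat_lit 784) (nat_lit 1560) (.st (nat_lit 775) (nat_lit 1560) .nil))⟩,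
  ⟨r13o_34, r7o_25, r5o_3, (.st (nat_lit 1555) (nat_lit 1560) (.st (nat_lit 4) (nat_lit 1560) .nil))⟩]

/-- entries -/
def EA35 : List E3 := []

/-- entries -/
def EA36 : List E3 := [⟨r13o_36, r7o_1, r5o_0, (.st (nat_lit 39) (nat_lit 78) (.st (nat_lit 38) (nat_lit 78) .nil))⟩,
  ⟨r13o_36, r7o_1, r5o_3, (.st (nat_lit 195) (nat_lit 390) (.st (nat_lit 194) (nat_lit 390) .nil))⟩,
  ⟨r13o_36, r7o_1, r5o_5, (.st (nat_lit 39) (nat_lit 78) (.st (nat_lit 38) (nat_lit 78) .nil))⟩,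
  ⟨r13o_36, r7o_1, r5o_7, (.st (nat_lit 39) (nat_lit 78) (.st (nat_lit 38) (nat_lit 78) .nil))⟩,
  ⟨r13o_36, r7o_1, r5o_9, (.st (nat_lit 195) (nat_lit 390) (.st (nat_lit 194) (nat_lit 390) .nil))⟩,
  ⟨r13o_36, r7o_8, r5o_0, (.st (nat_lit 39) (nat_lit 78) (.st (nat_lit 38) (nat_lit 78) .nil))⟩,
  ⟨r13o_36, r7o_8, r5o_3, (.st (nat_lit 195) (nat_lit 390) (.st (nat_lit 194) (nat_lit 390) .nil))⟩,
  ⟨r13o_36, r7o_8, r5o_5, (.st (nat_lit 39) (nat_lit 78) (.st (nat_lit 38) (nat_lit 78) .nil))⟩,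
  ⟨r13o_36, r7o_8, r5o_7, (.st (nat_lit 39) (nat_lit 78) (.st (nat_lit 38) (nat_lit 78) .nil))⟩,
  ⟨r13o_36, r7o_8, r5o_9, (.st (nat_lit 195) (nat_lit 390) (.st (nat_lit 194) (nat_lit 390) .nil))⟩,
  ⟨r13o_36, r7o_18, r5o_0, (.st (nat_lit 39) (nat_lit 78) (.st (nat_lit 38) (nat_lit 78) .nil))⟩,
  ⟨r13o_36, r7o_18, r5o_3, (.st (nat_lit 195) (nat_lit 390) (.st (nat_lit 194) (nat_lit 390) .nil))⟩,
  ⟨r13o_36, r7o_18, r5o_5, (.st (nat_lit 39) (nat_lit 78) (.st (nat_lit 38) (nat_lit 78) .nil))⟩,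
  ⟨r13o_36, r7o_18, r5o_7, (.st (nat_lit 39) (nat_lit 78) (.st (nat_lit 38) (nat_lit 78) .nil))⟩,
  ⟨r13o_36, r7o_18, r5o_9, (.st (nat_lit 195) (nat_lit 390) (.st (nat_lit 194) (nat_lit 390) .nil))⟩,
  ⟨r13o_36, r7o_20, r5o_0, (.st (nat_lit 39) (nat_lit 78) (.st (nat_lit 38) (nat_lit 78) .nil))⟩,
  ⟨r13o_36, r7o_20, r5o_3, (.st (nat_lit 195) (nat_lit 390) (.st (nat_lit 194) (nat_lit 390) .nil))⟩,
  ⟨r13o_36, r7o_20, r5o_5, (.st (nat_lit 39) (nat_lit 78) (.st (nat_lit 38) (nat_lit 78) .nil))⟩,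
  ⟨r13o_36, r7o_20, r5o_7, (.st (nat_lit 39) (nat_lit 78) (.st (nat_lit 38) (nat_lit 78) .nil))⟩,
  ⟨r13o_36, r7o_20, r5o_9, (.st (nat_lit 195) (nat_lit 390) (.st (nat_lit 194) (nat_lit 390) .nil))⟩]

/-- entries -/
def EA37 : List E3 := []

/-- entries -/
def EA38 : List E3 := [⟨r13o_38, r7o_1, r5o_0, (.st (nat_lit 77) (nat_lit 78) (.st (nat_lit 0) (nat_lit 78) .nil))⟩,
  ⟨r13o_38, r7o_1, r5o_2, (.st (nat_lit 389) (nat_lit 390) (.st (nat_lit 0) (nat_lit 390) .nil))⟩,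
  ⟨r13o_38, r7o_1, r5o_4, (.st (nat_lit 77) (nat_lit 78) (.st (nat_lit 0) (nat_lit 78) .nil))⟩,
  ⟨r13o_38, r7o_1, r5o_6, (.st (nat_lit 77) (nat_lit 78) (.st (nat_lit 0) (nat_lit 78) .nil))⟩,
  ⟨r13o_38, r7o_1, r5o_8, (.st (nat_lit 389) (nat_lit 390) (.st (nat_lit 0) (nat_lit 390) .nil))⟩,
  ⟨r13o_38, r7o_5, r5o_0, (.st (nat_lit 311) (nat_lit 312) (.st (nat_lit 155) (nat_lit 312) (.st (nat_lit 156) (nat_lit 312) (.st (nat_lit 0) (nat_lit 312) .nil))))⟩,
  ⟨r13o_38, r7o_5, r5o_2, (.st (nat_lit 119) (nat_lit 120) (.st (nat_lit 59) (nat_lit 120) (.st (nat_lit 60) (nat_lit 120) (.st (nat_lit 0) (nat_lit 120) .nil))))⟩,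
  ⟨r13o_38, r7o_5, r5o_4, (.st (nat_lit 311) (nat_lit 312) (.st (nat_lit 155) (nat_lit 312) (.st (nat_lit 156) (nat_lit 312) (.st (nat_lit 0) (nat_lit 312) .nil))))⟩,
  ⟨r13o_38, r7o_5, r5o_6, (.st (nat_lit 311) (nat_lit 312) (.st (nat_lit 155) (nat_lit 312) (.st (nat_lit 156) (nat_lit 312) (.st (nat_lit 0) (nat_lit 312) .nil))))⟩,
  ⟨r13o_38, r7o_5, r5o_8, (.st (nat_lit 1559) (nat_lit 1560) (.st (nat_lit 779) (nat_lit 1560) (.st (nat_lit 780) (nat_lit 1560) (.st (nat_lit 0) (nat_lit 1560) .nil))))⟩,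
  ⟨r13o_38, r7o_9, r5o_0, (.st (nat_lit 77) (nat_lit 78) (.st (nat_lit 0) (nat_lit 78) .nil))⟩,
  ⟨r13o_38, r7o_9, r5o_2, (.st (nat_lit 389) (nat_lit 390) (.st (nat_lit 0) (nat_lit 390) .nil))⟩,
  ⟨r13o_38, r7o_9, r5o_4, (.st (nat_lit 77) (nat_lit 78) (.st (nat_lit 0) (nat_lit 78) .nil))⟩,
  ⟨r13o_38, r7o_9, r5o_6, (.st (nat_lit 77) (nat_lit 78) (.st (nat_lit 0) (nat_lit 78) .nil))⟩,
  ⟨r13o_38, r7o_9, r5o_8, (.st (nat_lit 389) (nat_lit 390) (.st (nat_lit 0) (nat_lit 390) .nil))⟩,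
  ⟨r13o_38, r7o_13, r5o_0, (.st (nat_lit 77) (nat_lit 78) (.st (nat_lit 0) (nat_lit 78) .nil))⟩,
  ⟨r13o_38, r7o_13, r5o_2, (.st (nat_lit 389) (nat_lit 390) (.st (nat_lit 0) (nat_lit 390) .nil))⟩,
  ⟨r13o_38, r7o_13, r5o_4, (.st (nat_lit 77) (nat_lit 78) (.st (nat_lit 0) (nat_lit 78) .nil))⟩,
  ⟨r13o_38, r7o_13, r5o_6, (.st (nat_lit 77) (nat_lit 78) (.st (nat_lit 0) (nat_lit 78) .nil))⟩,
  ⟨r13o_38, r7o_13, r5o_8, (.st (nat_lit 389) (nat_lit 390) (.st (nat_lit 0) (nat_lit 390) .nil))⟩,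
  ⟨r13o_38, r7o_16, r5o_0, (.st (nat_lit 155) (nat_lit 312) (.st (nat_lit 156) (nat_lit 312) .nil))⟩,
  ⟨r13o_38, r7o_16, r5o_2, (.st (nat_lit 779) (nat_lit 1560) (.st (nat_lit 780) (nat_lit 1560) .nil))⟩,
  ⟨r13o_38, r7o_16, r5o_4, (.st (nat_lit 155) (nat_lit 312) (.st (nat_lit 156) (nat_lit 312) .nil))⟩,
  ⟨r13o_38, r7o_16, r5o_6, (.st (nat_lit 155) (nat_lit 312) (.st (nat_lit 156) (nat_lit 312) .nil))⟩,
  ⟨r13o_38, r7o_16, r5o_8, (.st (nat_lit 779) (nat_lit 1560) (.st (nat_lit 780) (nat_lit 1560) .nil))⟩,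
  ⟨r13o_38, r7o_17, r5o_0, (.st (nat_lit 311) (nat_lit 312) (.st (nat_lit 0) (nat_lit 312) .nil))⟩,
  ⟨r13o_38, r7o_17, r5o_2, (.st (nat_lit 1559) (nat_lit 1560) (.st (nat_lit 0) (nat_lit 1560) .nil))⟩,
  ⟨r13o_38, r7o_17, r5o_4, (.st (nat_lit 311) (nat_lit 312) (.st (nat_lit 0) (nat_lit 312) .nil))⟩,
  ⟨r13o_38, r7o_17, r5o_6, (.st (nat_lit 311) (nat_lit 312) (.st (nat_lit 0) (nat_lit 312) .nil))⟩,
  ⟨r13o_38, r7o_17, r5o_8, (.st (nat_lit 1559) (nat_lit 1560) (.st (nat_lit 0) (nat_lit 1560) .nil))⟩,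
  ⟨r13o_38, r7o_21, r5o_0, (.st (nat_lit 77) (nat_lit 78) (.st (nat_lit 0) (nat_lit 78) .nil))⟩,
  ⟨r13o_38, r7o_21, r5o_2, (.st (nat_lit 389) (nat_lit 390) (.st (nat_lit 0) (nat_lit 390) .nil))⟩,
  ⟨r13o_38, r7o_21, r5o_4, (.st (nat_lit 77) (nat_lit 78) (.st (nat_lit 0) (nat_lit 78) .nil))⟩,
  ⟨r13o_38, r7o_21, r5o_6, (.st (nat_lit 77) (nat_lit 78) (.st (nat_lit 0) (nat_lit 78) .nil))⟩,
  ⟨r13o_38, r7o_21, r5o_8, (.st (nat_lit 389) (nat_lit 390) (.st (nat_lit 0) (nat_lit 390) .nil))⟩,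
  ⟨r13o_38, r7o_24, r5o_0, (.st (nat_lit 155) (nat_lit 312) (.st (nat_lit 156) (nat_lit 312) .nil))⟩,
  ⟨r13o_38, r7o_24, r5o_2, (.st (nat_lit 779) (nat_lit 1560) (.st (nat_lit 780) (nat_lit 1560) .nil))⟩,
  ⟨r13o_38, r7o_24, r5o_4, (.st (nat_lit 155) (nat_lit 312) (.st (nat_lit 156) (nat_lit 312) .nil))⟩,
  ⟨r13o_38, r7o_24, r5o_6, (.st (nat_lit 155) (nat_lit 312) (.st (nat_lit 156) (nat_lit 312) .nil))⟩,
  ⟨r13o_38, r7o_24, r5o_8, (.st (nat_lit 779) (nat_lit 1560) (.st (nat_lit 780) (nat_lit 1560) .nil))⟩,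
  ⟨r13o_38, r7o_25, r5o_0, (.st (nat_lit 311) (nat_lit 312) (.st (nat_lit 0) (nat_lit 312) .nil))⟩,
  ⟨r13o_38, r7o_25, r5o_2, (.st (nat_lit 1559) (nat_lit 1560) (.st (nat_lit 0) (nat_lit 1560) .nil))⟩,
  ⟨r13o_38, r7o_25, r5o_4, (.st (nat_lit 311) (nat_lit 312) (.st (nat_lit 0) (nat_lit 312) .nil))⟩,
  ⟨r13o_38, r7o_25, r5o_6, (.st (nat_lit 311) (nat_lit 312) (.st (nat_lit 0) (nat_lit 312) .nil))⟩,
  ⟨r13o_38, r7o_25, r5o_8, (.st (nat_lit 1559) (nat_lit 1560) (.st (nat_lit 0) (nat_lit 1560) .nil))⟩]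

/-- entries -/
def EA39 : List E3 := [⟨r13o_39, r7o_2, r5o_1, (.st (nat_lit 77) (nat_lit 78) (.st (nat_lit 0) (nat_lit 78) .nil))⟩,
  ⟨r13o_39, r7o_2, r5o_3, (.st (nat_lit 389) (nat_lit 390) (.st (nat_lit 0) (nat_lit 390) .nil))⟩,
  ⟨r13o_39, r7o_2, r5o_5, (.st (nat_lit 77) (nat_lit 78) (.st (nat_lit 0) (nat_lit 78) .nil))⟩,
  ⟨r13o_39, r7o_2, r5o_7, (.st (nat_lit 77) (nat_lit 78) (.st (nat_lit 0) (nat_lit 78) .nil))⟩,
  ⟨r13o_39, r7o_2, r5o_9, (.st (nat_lit 389) (nat_lit 390) (.st (nat_lit 0) (nat_lit 390) .nil))⟩,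
  ⟨r13o_39, r7o_6, r5o_1, (.st (nat_lit 311) (nat_lit 312) (.st (nat_lit 0) (nat_lit 312) .nil))⟩,
  ⟨r13o_39, r7o_6, r5o_3, (.st (nat_lit 1559) (nat_lit 1560) (.st (nat_lit 0) (nat_lit 1560) .nil))⟩,
  ⟨r13o_39, r7o_6, r5o_5, (.st (nat_lit 311) (nat_lit 312) (.st (nat_lit 0) (nat_lit 312) .nil))⟩,
  ⟨r13o_39, r7o_6, r5o_7, (.st (nat_lit 311) (nat_lit 312) (.st (nat_lit 0) (nat_lit 312) .nil))⟩,
  ⟨r13o_39, r7o_6, r5o_9, (.st (nat_lit 1559) (nat_lit 1560) (.st (nat_lit 0) (nat_lit 1560) .nil))⟩,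
  ⟨r13o_39, r7o_7, r5o_1, (.st (nat_lit 155) (nat_lit 312) (.st (nat_lit 156) (nat_lit 312) .nil))⟩,
  ⟨r13o_39, r7o_7, r5o_3, (.st (nat_lit 779) (nat_lit 1560) (.st (nat_lit 780) (nat_lit 1560) .nil))⟩,
  ⟨r13o_39, r7o_7, r5o_5, (.st (nat_lit 155) (nat_lit 312) (.st (nat_lit 156) (nat_lit 312) .nil))⟩,
  ⟨r13o_39, r7o_7, r5o_7, (.st (nat_lit 155) (nat_lit 312) (.st (nat_lit 156) (nat_lit 312) .nil))⟩,
  ⟨r13o_39, r7o_7, r5o_9, (.st (nat_lit 779) (nat_lit 1560) (.st (nat_lit 780) (nat_lit 1560) .nil))⟩,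
  ⟨r13o_39, r7o_10, r5o_1, (.st (nat_lit 77) (nat_lit 78) (.st (nat_lit 0) (nat_lit 78) .nil))⟩,
  ⟨r13o_39, r7o_10, r5o_3, (.st (nat_lit 389) (nat_lit 390) (.st (nat_lit 0) (nat_lit 390) .nil))⟩,
  ⟨r13o_39, r7o_10, r5o_5, (.st (nat_lit 77) (nat_lit 78) (.st (nat_lit 0) (nat_lit 78) .nil))⟩,
  ⟨r13o_39, r7o_10, r5o_7, (.st (nat_lit 77) (nat_lit 78) (.st (nat_lit 0) (nat_lit 78) .nil))⟩,
  ⟨r13o_39, r7o_10, r5o_9, (.st (nat_lit 389) (nat_lit 390) (.st (nat_lit 0) (nat_lit 390) .nil))⟩,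
  ⟨r13o_39, r7o_14, r5o_1, (.st (nat_lit 311) (nat_lit 312) (.st (nat_lit 0) (nat_lit 312) .nil))⟩,
  ⟨r13o_39, r7o_14, r5o_3, (.st (nat_lit 1559) (nat_lit 1560) (.st (nat_lit 0) (nat_lit 1560) .nil))⟩,
  ⟨r13o_39, r7o_14, r5o_5, (.st (nat_lit 311) (nat_lit 312) (.st (nat_lit 0) (nat_lit 312) .nil))⟩,
  ⟨r13o_39, r7o_14, r5o_7, (.st (nat_lit 311) (nat_lit 312) (.st (nat_lit 0) (nat_lit 312) .nil))⟩,
  ⟨r13o_39, r7o_14, r5o_9, (.st (nat_lit 1559) (nat_lit 1560) (.st (nat_lit 0) (nat_lit 1560) .nil))⟩,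
  ⟨r13o_39, r7o_15, r5o_1, (.st (nat_lit 155) (nat_lit 312) (.st (nat_lit 156) (nat_lit 312) .nil))⟩,
  ⟨r13o_39, r7o_15, r5o_3, (.st (nat_lit 779) (nat_lit 1560) (.st (nat_lit 780) (nat_lit 1560) .nil))⟩,
  ⟨r13o_39, r7o_15, r5o_5, (.st (nat_lit 155) (nat_lit 312) (.st (nat_lit 156) (nat_lit 312) .nil))⟩,
  ⟨r13o_39, r7o_15, r5o_7, (.st (nat_lit 155) (nat_lit 312) (.st (nat_lit 156) (nat_lit 312) .nil))⟩,
  ⟨r13o_39, r7o_15, r5o_9, (.st (nat_lit 779) (nat_lit 1560) (.st (nat_lit 780) (nat_lit 1560) .nil))⟩,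
  ⟨r13o_39, r7o_18, r5o_1, (.st (nat_lit 77) (nat_lit 78) (.st (nat_lit 0) (nat_lit 78) .nil))⟩,
  ⟨r13o_39, r7o_18, r5o_3, (.st (nat_lit 389) (nat_lit 390) (.st (nat_lit 0) (nat_lit 390) .nil))⟩,
  ⟨r13o_39, r7o_18, r5o_5, (.st (nat_lit 77) (nat_lit 78) (.st (nat_lit 0) (nat_lit 78) .nil))⟩,
  ⟨r13o_39, r7o_18, r5o_7, (.st (nat_lit 77) (nat_lit 78) (.st (nat_lit 0) (nat_lit 78) .nil))⟩,
  ⟨r13o_39, r7o_18, r5o_9, (.st (nat_lit 389) (nat_lit 390) (.st (nat_lit 0) (nat_lit 390) .nil))⟩,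
  ⟨r13o_39, r7o_22, r5o_1, (.st (nat_lit 77) (nat_lit 78) (.st (nat_lit 0) (nat_lit 78) .nil))⟩,
  ⟨r13o_39, r7o_22, r5o_3, (.st (nat_lit 389) (nat_lit 390) (.st (nat_lit 0) (nat_lit 390) .nil))⟩,
  ⟨r13o_39, r7o_22, r5o_5, (.st (nat_lit 77) (nat_lit 78) (.st (nat_lit 0) (nat_lit 78) .nil))⟩,
  ⟨r13o_39, r7o_22, r5o_7, (.st (nat_lit 77) (nat_lit 78) (.st (nat_lit 0) (nat_lit 78) .nil))⟩,
  ⟨r13o_39, r7o_22, r5o_9, (.st (nat_lit 389) (nat_lit 390) (.st (nat_lit 0) (nat_lit 390) .nil))⟩,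
  ⟨r13o_39, r7o_26, r5o_1, (.st (nat_lit 311) (nat_lit 312) (.st (nat_lit 155) (nat_lit 312) (.st (nat_lit 156) (nat_lit 312) (.st (nat_lit 0) (nat_lit 312) .nil))))⟩,
  ⟨r13o_39, r7o_26, r5o_3, (.st (nat_lit 1559) (nat_lit 1560) (.st (nat_lit 779) (nat_lit 1560) (.st (nat_lit 780) (nat_lit 1560) (.st (nat_lit 0) (nat_lit 1560) .nil))))⟩,
  ⟨r13o_39, r7o_26, r5o_5, (.st (nat_lit 311) (nat_lit 312) (.st (nat_lit 155) (nat_lit 312) (.st (nat_lit 156) (nat_lit 312) (.st (nat_lit 0) (nat_lit 312) .nil))))⟩,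
  ⟨r13o_39, r7o_26, r5o_7, (.st (nat_lit 311) (nat_lit 312) (.st (nat_lit 155) (nat_lit 312) (.st (nat_lit 156) (nat_lit 312) (.st (nat_lit 0) (nat_lit 312) .nil))))⟩,
  ⟨r13o_39, r7o_26, r5o_9, (.st (nat_lit 1559) (nat_lit 1560) (.st (nat_lit 779) (nat_lit 1560) (.st (nat_lit 780) (nat_lit 1560) (.st (nat_lit 0) (nat_lit 1560) .nil))))⟩]

/-- entries -/
def EA40 : List E3 := [⟨r13o_40, r7o_2, r5o_1, (.st (nat_lit 39) (nat_lit 78) (.st (nat_lit 38) (nat_lit 78) .nil))⟩,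
  ⟨r13o_40, r7o_2, r5o_2, (.st (nat_lit 195) (nat_lit 390) (.st (nat_lit 194) (nat_lit 390) .nil))⟩,
  ⟨r13o_40, r7o_2, r5o_4, (.st (nat_lit 39) (nat_lit 78) (.st (nat_lit 38) (nat_lit 78) .nil))⟩,
  ⟨r13o_40, r7o_2, r5o_6, (.st (nat_lit 39) (nat_lit 78) (.st (nat_lit 38) (nat_lit 78) .nil))⟩,
  ⟨r13o_40, r7o_2, r5o_8, (.st (nat_lit 195) (nat_lit 390) (.st (nat_lit 194) (nat_lit 390) .nil))⟩,
  ⟨r13o_40, r7o_11, r5o_1, (.st (nat_lit 39) (nat_lit 78) (.st (nat_lit 38) (nat_lit 78) .nil))⟩,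
  ⟨r13o_40, r7o_11, r5o_2, (.st (nat_lit 195) (nat_lit 390) (.st (nat_lit 194) (nat_lit 390) .nil))⟩,
  ⟨r13o_40, r7o_11, r5o_4, (.st (nat_lit 39) (nat_lit 78) (.st (nat_lit 38) (nat_lit 78) .nil))⟩,
  ⟨r13o_40, r7o_11, r5o_6, (.st (nat_lit 39) (nat_lit 78) (.st (nat_lit 38) (nat_lit 78) .nil))⟩,
  ⟨r13o_40, r7o_11, r5o_8, (.st (nat_lit 195) (nat_lit 390) (.st (nat_lit 194) (nat_lit 390) .nil))⟩,
  ⟨r13o_40, r7o_13, r5o_1, (.st (nat_lit 39) (nat_lit 78) (.st (nat_lit 38) (nat_lit 78) .nil))⟩,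
  ⟨r13o_40, r7o_13, r5o_2, (.st (nat_lit 195) (nat_lit 390) (.st (nat_lit 194) (nat_lit 390) .nil))⟩,
  ⟨r13o_40, r7o_13, r5o_4, (.st (nat_lit 39) (nat_lit 78) (.st (nat_lit 38) (nat_lit 78) .nil))⟩,
  ⟨r13o_40, r7o_13, r5o_6, (.st (nat_lit 39) (nat_lit 78) (.st (nat_lit 38) (nat_lit 78) .nil))⟩,
  ⟨r13o_40, r7o_13, r5o_8, (.st (nat_lit 195) (nat_lit 390) (.st (nat_lit 194) (nat_lit 390) .nil))⟩,
  ⟨r13o_40, r7o_23, r5o_1, (.st (nat_lit 39) (nat_lit 78) (.st (nat_lit 38) (nat_lit 78) .nil))⟩,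
  ⟨r13o_40, r7o_23, r5o_2, (.st (nat_lit 195) (nat_lit 390) (.st (nat_lit 194) (nat_lit 390) .nil))⟩,
  ⟨r13o_40, r7o_23, r5o_4, (.st (nat_lit 39) (nat_lit 78) (.st (nat_lit 38) (nat_lit 78) .nil))⟩,
  ⟨r13o_40, r7o_23, r5o_6, (.st (nat_lit 39) (nat_lit 78) (.st (nat_lit 38) (nat_lit 78) .nil))⟩,
  ⟨r13o_40, r7o_23, r5o_8, (.st (nat_lit 195) (nat_lit 390) (.st (nat_lit 194) (nat_lit 390) .nil))⟩]

/-- entries -/
def EA41 : List E3 := []

/-- entries -/
def EA42 : List E3 := []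

/-- entries -/
def EA43 : List E3 := [⟨r13o_43, r7o_1, r5o_0, (.st (nat_lit 39) (nat_lit 78) (.st (nat_lit 38) (nat_lit 78) .nil))⟩,
  ⟨r13o_43, r7o_1, r5o_3, (.st (nat_lit 195) (nat_lit 390) (.st (nat_lit 194) (nat_lit 390) .nil))⟩,
  ⟨r13o_43, r7o_1, r5o_5, (.st (nat_lit 39) (nat_lit 78) (.st (nat_lit 38) (nat_lit 78) .nil))⟩,
  ⟨r13o_43, r7o_1, r5o_7, (.st (nat_lit 39) (nat_lit 78) (.st (nat_lit 38) (nat_lit 78) .nil))⟩,
  ⟨r13o_43, r7o_1, r5o_9, (.st (nat_lit 195) (nat_lit 390) (.st (nat_lit 194) (nat_lit 390) .nil))⟩,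
  ⟨r13o_43, r7o_8, r5o_0, (.st (nat_lit 39) (nat_lit 78) (.st (nat_lit 38) (nat_lit 78) .nil))⟩,
  ⟨r13o_43, r7o_8, r5o_3, (.st (nat_lit 195) (nat_lit 390) (.st (nat_lit 194) (nat_lit 390) .nil))⟩,
  ⟨r13o_43, r7o_8, r5o_5, (.st (nat_lit 39) (nat_lit 78) (.st (nat_lit 38) (nat_lit 78) .nil))⟩,
  ⟨r13o_43, r7o_8, r5o_7, (.st (nat_lit 39) (nat_lit 78) (.st (nat_lit 38) (nat_lit 78) .nil))⟩,
  ⟨r13o_43, r7o_8, r5o_9, (.st (nat_lit 195) (nat_lit 390) (.st (nat_lit 194) (nat_lit 390) .nil))⟩,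
  ⟨r13o_43, r7o_18, r5o_0, (.st (nat_lit 39) (nat_lit 78) (.st (nat_lit 38) (nat_lit 78) .nil))⟩,
  ⟨r13o_43, r7o_18, r5o_3, (.st (nat_lit 195) (nat_lit 390) (.st (nat_lit 194) (nat_lit 390) .nil))⟩,
  ⟨r13o_43, r7o_18, r5o_5, (.st (nat_lit 39) (nat_lit 78) (.st (nat_lit 38) (nat_lit 78) .nil))⟩,
  ⟨r13o_43, r7o_18, r5o_7, (.st (nat_lit 39) (nat_lit 78) (.st (nat_lit 38) (nat_lit 78) .nil))⟩,
  ⟨r13o_43, r7o_18, r5o_9, (.st (nat_lit 195) (nat_lit 390) (.st (nat_lit 194) (nat_lit 390) .nil))⟩,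
  ⟨r13o_43, r7o_20, r5o_0, (.st (nat_lit 39) (nat_lit 78) (.st (nat_lit 38) (nat_lit 78) .nil))⟩,
  ⟨r13o_43, r7o_20, r5o_3, (.st (nat_lit 195) (nat_lit 390) (.st (nat_lit 194) (nat_lit 390) .nil))⟩,
  ⟨r13o_43, r7o_20, r5o_5, (.st (nat_lit 39) (nat_lit 78) (.st (nat_lit 38) (nat_lit 78) .nil))⟩,
  ⟨r13o_43, r7o_20, r5o_7, (.st (nat_lit 39) (nat_lit 78) (.st (nat_lit 38) (nat_lit 78) .nil))⟩,
  ⟨r13o_43, r7o_20, r5o_9, (.st (nat_lit 195) (nat_lit 390) (.st (nat_lit 194) (nat_lit 390) .nil))⟩]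

/-- entries -/
def EA44 : List E3 := [⟨r13o_44, r7o_1, r5o_0, (.st (nat_lit 77) (nat_lit 78) (.st (nat_lit 0) (nat_lit 78) .nil))⟩,
  ⟨r13o_44, r7o_1, r5o_2, (.st (nat_lit 389) (nat_lit 390) (.st (nat_lit 0) (nat_lit 390) .nil))⟩,
  ⟨r13o_44, r7o_1, r5o_4, (.st (nat_lit 77) (nat_lit 78) (.st (nat_lit 0) (nat_lit 78) .nil))⟩,
  ⟨r13o_44, r7o_1, r5o_6, (.st (nat_lit 77) (nat_lit 78) (.st (nat_lit 0) (nat_lit 78) .nil))⟩,
  ⟨r13o_44, r7o_1, r5o_8, (.st (nat_lit 389) (nat_lit 390) (.st (nat_lit 0) (nat_lit 390) .nil))⟩,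
  ⟨r13o_44, r7o_5, r5o_0, (.st (nat_lit 311) (nat_lit 312) (.st (nat_lit 155) (nat_lit 312) (.st (nat_lit 156) (nat_lit 312) (.st (nat_lit 0) (nat_lit 312) .nil))))⟩,
  ⟨r13o_44, r7o_5, r5o_2, (.st (nat_lit 1559) (nat_lit 1560) (.st (nat_lit 779) (nat_lit 1560) (.st (nat_lit 780) (nat_lit 1560) (.st (nat_lit 0) (nat_lit 1560) .nil))))⟩,
  ⟨r13o_44, r7o_5, r5o_4, (.st (nat_lit 311) (nat_lit 312) (.st (nat_lit 155) (nat_lit 312) (.st (nat_lit 156) (nat_lit 312) (.st (nat_lit 0) (nat_lit 312) .nil))))⟩,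
  ⟨r13o_44, r7o_5, r5o_6, (.st (nat_lit 311) (nat_lit 312) (.st (nat_lit 155) (nat_lit 312) (.st (nat_lit 156) (nat_lit 312) (.st (nat_lit 0) (nat_lit 312) .nil))))⟩,
  ⟨r13o_44, r7o_5, r5o_8, (.st (nat_lit 1559) (nat_lit 1560) (.st (nat_lit 779) (nat_lit 1560) (.st (nat_lit 780) (nat_lit 1560) (.st (nat_lit 0) (nat_lit 1560) .nil))))⟩,
  ⟨r13o_44, r7o_9, r5o_0, (.st (nat_lit 77) (nat_lit 78) (.st (nat_lit 0) (nat_lit 78) .nil))⟩,
  ⟨r13o_44, r7o_9, r5o_2, (.st (nat_lit 389) (nat_lit 390) (.st (nat_lit 0) (nat_lit 390) .nil))⟩,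
  ⟨r13o_44, r7o_9, r5o_4, (.st (nat_lit 77) (nat_lit 78) (.st (nat_lit 0) (nat_lit 78) .nil))⟩,
  ⟨r13o_44, r7o_9, r5o_6, (.st (nat_lit 77) (nat_lit 78) (.st (nat_lit 0) (nat_lit 78) .nil))⟩,
  ⟨r13o_44, r7o_9, r5o_8, (.st (nat_lit 389) (nat_lit 390) (.st (nat_lit 0) (nat_lit 390) .nil))⟩,
  ⟨r13o_44, r7o_13, r5o_0, (.st (nat_lit 77) (nat_lit 78) (.st (nat_lit 0) (nat_lit 78) .nil))⟩,
  ⟨r13o_44, r7o_13, r5o_2, (.st (nat_lit 389) (nat_lit 390) (.st (nat_lit 0) (nat_lit 390) .nil))⟩,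
  ⟨r13o_44, r7o_13, r5o_4, (.st (nat_lit 77) (nat_lit 78) (.st (nat_lit 0) (nat_lit 78) .nil))⟩,
  ⟨r13o_44, r7o_13, r5o_6, (.st (nat_lit 77) (nat_lit 78) (.st (nat_lit 0) (nat_lit 78) .nil))⟩,
  ⟨r13o_44, r7o_13, r5o_8, (.st (nat_lit 389) (nat_lit 390) (.st (nat_lit 0) (nat_lit 390) .nil))⟩,
  ⟨r13o_44, r7o_16, r5o_0, (.st (nat_lit 155) (nat_lit 312) (.st (nat_lit 156) (nat_lit 312) .nil))⟩,
  ⟨r13o_44, r7o_16, r5o_2, (.st (nat_lit 779) (nat_lit 1560) (.st (nat_lit 780) (nat_lit 1560) .nil))⟩,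
  ⟨r13o_44, r7o_16, r5o_4, (.st (nat_lit 155) (nat_lit 312) (.st (nat_lit 156) (nat_lit 312) .nil))⟩,
  ⟨r13o_44, r7o_16, r5o_6, (.st (nat_lit 155) (nat_lit 312) (.st (nat_lit 156) (nat_lit 312) .nil))⟩,
  ⟨r13o_44, r7o_16, r5o_8, (.st (nat_lit 779) (nat_lit 1560) (.st (nat_lit 780) (nat_lit 1560) .nil))⟩,
  ⟨r13o_44, r7o_17, r5o_0, (.st (nat_lit 311) (nat_lit 312) (.st (nat_lit 0) (nat_lit 312) .nil))⟩,
  ⟨r13o_44, r7o_17, r5o_2, (.st (nat_lit 1559) (nat_lit 1560) (.st (nat_lit 0) (nat_lit 1560) .nil))⟩,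
  ⟨r13o_44, r7o_17, r5o_4, (.st (nat_lit 311) (nat_lit 312) (.st (nat_lit 0) (nat_lit 312) .nil))⟩,
  ⟨r13o_44, r7o_17, r5o_6, (.st (nat_lit 311) (nat_lit 312) (.st (nat_lit 0) (nat_lit 312) .nil))⟩,
  ⟨r13o_44, r7o_17, r5o_8, (.st (nat_lit 1559) (nat_lit 1560) (.st (nat_lit 0) (nat_lit 1560) .nil))⟩,
  ⟨r13o_44, r7o_21, r5o_0, (.st (nat_lit 77) (nat_lit 78) (.st (nat_lit 0) (nat_lit 78) .nil))⟩,
  ⟨r13o_44, r7o_21, r5o_2, (.st (nat_lit 389) (nat_lit 390) (.st (nat_lit 0) (nat_lit 390) .nil))⟩,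
  ⟨r13o_44, r7o_21, r5o_4, (.st (nat_lit 77) (nat_lit 78) (.st (nat_lit 0) (nat_lit 78) .nil))⟩,
  ⟨r13o_44, r7o_21, r5o_6, (.st (nat_lit 77) (nat_lit 78) (.st (nat_lit 0) (nat_lit 78) .nil))⟩,
  ⟨r13o_44, r7o_21, r5o_8, (.st (nat_lit 389) (nat_lit 390) (.st (nat_lit 0) (nat_lit 390) .nil))⟩,
  ⟨r13o_44, r7o_24, r5o_0, (.st (nat_lit 155) (nat_lit 312) (.st (nat_lit 156) (nat_lit 312) .nil))⟩,
  ⟨r13o_44, r7o_24, r5o_2, (.st (nat_lit 779) (nat_lit 1560) (.st (nat_lit 780) (nat_lit 1560) .nil))⟩,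
  ⟨r13o_44, r7o_24, r5o_4, (.st (nat_lit 155) (nat_lit 312) (.st (nat_lit 156) (nat_lit 312) .nil))⟩,
  ⟨r13o_44, r7o_24, r5o_6, (.st (nat_lit 155) (nat_lit 312) (.st (nat_lit 156) (nat_lit 312) .nil))⟩,
  ⟨r13o_44, r7o_24, r5o_8, (.st (nat_lit 779) (nat_lit 1560) (.st (nat_lit 780) (nat_lit 1560) .nil))⟩,
  ⟨r13o_44, r7o_25, r5o_0, (.st (nat_lit 311) (nat_lit 312) (.st (nat_lit 0) (nat_lit 312) .nil))⟩,
  ⟨r13o_44, r7o_25, r5o_2, (.st (nat_lit 1559) (nat_lit 1560) (.st (nat_lit 0) (nat_lit 1560) .nil))⟩,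
  ⟨r13o_44, r7o_25, r5o_4, (.st (nat_lit 311) (nat_lit 312) (.st (nat_lit 0) (nat_lit 312) .nil))⟩,
  ⟨r13o_44, r7o_25, r5o_6, (.st (nat_lit 311) (nat_lit 312) (.st (nat_lit 0) (nat_lit 312) .nil))⟩,
  ⟨r13o_44, r7o_25, r5o_8, (.st (nat_lit 1559) (nat_lit 1560) (.st (nat_lit 0) (nat_lit 1560) .nil))⟩]

/-- entries -/
def EA45 : List E3 := [⟨r13o_45, r7o_2, r5o_1, (.st (nat_lit 77) (nat_lit 78) (.st (nat_lit 0) (nat_lit 78) .nil))⟩,
  ⟨r13o_45, r7o_2, r5o_3, (.st (nat_lit 389) (nat_lit 390) (.st (nat_lit 0) (nat_lit 390) .nil))⟩,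
  ⟨r13o_45, r7o_2, r5o_5, (.st (nat_lit 77) (nat_lit 78) (.st (nat_lit 0) (nat_lit 78) .nil))⟩,
  ⟨r13o_45, r7o_2, r5o_7, (.st (nat_lit 77) (nat_lit 78) (.st (nat_lit 0) (nat_lit 78) .nil))⟩,
  ⟨r13o_45, r7o_2, r5o_9, (.st (nat_lit 389) (nat_lit 390) (.st (nat_lit 0) (nat_lit 390) .nil))⟩,
  ⟨r13o_45, r7o_6, r5o_1, (.st (nat_lit 311) (nat_lit 312) (.st (nat_lit 0) (nat_lit 312) .nil))⟩,
  ⟨r13o_45, r7o_6, r5o_3, (.st (nat_lit 1559) (nat_lit 1560) (.st (nat_lit 0) (nat_lit 1560) .nil))⟩,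
  ⟨r13o_45, r7o_6, r5o_5, (.st (nat_lit 311) (nat_lit 312) (.st (nat_lit 0) (nat_lit 312) .nil))⟩,
  ⟨r13o_45, r7o_6, r5o_7, (.st (nat_lit 311) (nat_lit 312) (.st (nat_lit 0) (nat_lit 312) .nil))⟩,
  ⟨r13o_45, r7o_6, r5o_9, (.st (nat_lit 1559) (nat_lit 1560) (.st (nat_lit 0) (nat_lit 1560) .nil))⟩,
  ⟨r13o_45, r7o_7, r5o_1, (.st (nat_lit 155) (nat_lit 312) (.st (nat_lit 156) (nat_lit 312) .nil))⟩,
  ⟨r13o_45, r7o_7, r5o_3, (.st (nat_lit 779) (nat_lit 1560) (.st (nat_lit 780) (nat_lit 1560) .nil))⟩,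
  ⟨r13o_45, r7o_7, r5o_5, (.st (nat_lit 155) (nat_lit 312) (.st (nat_lit 156) (nat_lit 312) .nil))⟩,
  ⟨r13o_45, r7o_7, r5o_7, (.st (nat_lit 155) (nat_lit 312) (.st (nat_lit 156) (nat_lit 312) .nil))⟩,
  ⟨r13o_45, r7o_7, r5o_9, (.st (nat_lit 779) (nat_lit 1560) (.st (nat_lit 780) (nat_lit 1560) .nil))⟩,
  ⟨r13o_45, r7o_10, r5o_1, (.st (nat_lit 77) (nat_lit 78) (.st (nat_lit 0) (nat_lit 78) .nil))⟩,
  ⟨r13o_45, r7o_10, r5o_3, (.st (nat_lit 389) (nat_lit 390) (.st (nat_lit 0) (nat_lit 390) .nil))⟩,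
  ⟨r13o_45, r7o_10, r5o_5, (.st (nat_lit 77) (nat_lit 78) (.st (nat_lit 0) (nat_lit 78) .nil))⟩,
  ⟨r13o_45, r7o_10, r5o_7, (.st (nat_lit 77) (nat_lit 78) (.st (nat_lit 0) (nat_lit 78) .nil))⟩,
  ⟨r13o_45, r7o_10, r5o_9, (.st (nat_lit 389) (nat_lit 390) (.st (nat_lit 0) (nat_lit 390) .nil))⟩,
  ⟨r13o_45, r7o_14, r5o_1, (.st (nat_lit 311) (nat_lit 312) (.st (nat_lit 0) (nat_lit 312) .nil))⟩,
  ⟨r13o_45, r7o_14, r5o_3, (.st (nat_lit 1559) (nat_lit 1560) (.st (nat_lit 0) (nat_lit 1560) .nil))⟩,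
  ⟨r13o_45, r7o_14, r5o_5, (.st (nat_lit 311) (nat_lit 312) (.st (nat_lit 0) (nat_lit 312) .nil))⟩,
  ⟨r13o_45, r7o_14, r5o_7, (.st (nat_lit 311) (nat_lit 312) (.st (nat_lit 0) (nat_lit 312) .nil))⟩,
  ⟨r13o_45, r7o_14, r5o_9, (.st (nat_lit 1559) (nat_lit 1560) (.st (nat_lit 0) (nat_lit 1560) .nil))⟩,
  ⟨r13o_45, r7o_15, r5o_1, (.st (nat_lit 155) (nat_lit 312) (.st (nat_lit 156) (nat_lit 312) .nil))⟩,
  ⟨r13o_45, r7o_15, r5o_3, (.st (nat_lit 779) (nat_lit 1560) (.st (nat_lit 780) (nat_lit 1560) .nil))⟩,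
  ⟨r13o_45, r7o_15, r5o_5, (.st (nat_lit 155) (nat_lit 312) (.st (nat_lit 156) (nat_lit 312) .nil))⟩,
  ⟨r13o_45, r7o_15, r5o_7, (.st (nat_lit 155) (nat_lit 312) (.st (nat_lit 156) (nat_lit 312) .nil))⟩,
  ⟨r13o_45, r7o_15, r5o_9, (.st (nat_lit 779) (nat_lit 1560) (.st (nat_lit 780) (nat_lit 1560) .nil))⟩,
  ⟨r13o_45, r7o_18, r5o_1, (.st (nat_lit 77) (nat_lit 78) (.st (nat_lit 0) (nat_lit 78) .nil))⟩,
  ⟨r13o_45, r7o_18, r5o_3, (.st (nat_lit 389) (nat_lit 390) (.st (nat_lit 0) (nat_lit 390) .nil))⟩,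
  ⟨r13o_45, r7o_18, r5o_5, (.st (nat_lit 77) (nat_lit 78) (.st (nat_lit 0) (nat_lit 78) .nil))⟩,
  ⟨r13o_45, r7o_18, r5o_7, (.st (nat_lit 77) (nat_lit 78) (.st (nat_lit 0) (nat_lit 78) .nil))⟩,
  ⟨r13o_45, r7o_18, r5o_9, (.st (nat_lit 389) (nat_lit 390) (.st (nat_lit 0) (nat_lit 390) .nil))⟩,
  ⟨r13o_45, r7o_22, r5o_1, (.st (nat_lit 77) (nat_lit 78) (.st (nat_lit 0) (nat_lit 78) .nil))⟩,
  ⟨r13o_45, r7o_22, r5o_3, (.st (nat_lit 389) (nat_lit 390) (.st (nat_lit 0) (nat_lit 390) .nil))⟩,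
  ⟨r13o_45, r7o_22, r5o_5, (.st (nat_lit 77) (nat_lit 78) (.st (nat_lit 0) (nat_lit 78) .nil))⟩,
  ⟨r13o_45, r7o_22, r5o_7, (.st (nat_lit 77) (nat_lit 78) (.st (nat_lit 0) (nat_lit 78) .nil))⟩,
  ⟨r13o_45, r7o_22, r5o_9, (.st (nat_lit 389) (nat_lit 390) (.st (nat_lit 0) (nat_lit 390) .nil))⟩,
  ⟨r13o_45, r7o_26, r5o_1, (.st (nat_lit 311) (nat_lit 312) (.st (nat_lit 155) (nat_lit 312) (.st (nat_lit 156) (nat_lit 312) (.st (nat_lit 0) (nat_lit 312) .nil))))⟩,
  ⟨r13o_45, r7o_26, r5o_3, (.st (nat_lit 1559) (nat_lit 1560) (.st (nat_lit 779) (nat_lit 1560) (.st (nat_lit 780) (nat_lit 1560) (.st (nat_lit 0) (nat_lit 1560) .nil))))⟩,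
  ⟨r13o_45, r7o_26, r5o_5, (.st (nat_lit 311) (nat_lit 312) (.st (nat_lit 155) (nat_lit 312) (.st (nat_lit 156) (nat_lit 312) (.st (nat_lit 0) (nat_lit 312) .nil))))⟩,
  ⟨r13o_45, r7o_26, r5o_7, (.st (nat_lit 311) (nat_lit 312) (.st (nat_lit 155) (nat_lit 312) (.st (nat_lit 156) (nat_lit 312) (.st (nat_lit 0) (nat_lit 312) .nil))))⟩,
  ⟨r13o_45, r7o_26, r5o_9, (.st (nat_lit 119) (nat_lit 120) (.st (nat_lit 59) (nat_lit 120) (.st (nat_lit 60) (nat_lit 120) (.st (nat_lit 0) (nat_lit 120) .nil))))⟩]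

/-- entries -/
def EA46 : List E3 := []

/-- entries -/
def EA47 : List E3 := [⟨r13o_47, r7o_2, r5o_1, (.st (nat_lit 39) (nat_lit 78) (.st (nat_lit 38) (nat_lit 78) .nil))⟩,
  ⟨r13o_47, r7o_2, r5o_2, (.st (nat_lit 195) (nat_lit 390) (.st (nat_lit 194) (nat_lit 390) .nil))⟩,
  ⟨r13o_47, r7o_2, r5o_4, (.st (nat_lit 39) (nat_lit 78) (.st (nat_lit 38) (nat_lit 78) .nil))⟩,
  ⟨r13o_47, r7o_2, r5o_6, (.st (nat_lit 39) (nat_lit 78) (.st (nat_lit 38) (nat_lit 78) .nil))⟩,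
  ⟨r13o_47, r7o_2, r5o_8, (.st (nat_lit 195) (nat_lit 390) (.st (nat_lit 194) (nat_lit 390) .nil))⟩,
  ⟨r13o_47, r7o_11, r5o_1, (.st (nat_lit 39) (nat_lit 78) (.st (nat_lit 38) (nat_lit 78) .nil))⟩,
  ⟨r13o_47, r7o_11, r5o_2, (.st (nat_lit 195) (nat_lit 390) (.st (nat_lit 194) (nat_lit 390) .nil))⟩,
  ⟨r13o_47, r7o_11, r5o_4, (.st (nat_lit 39) (nat_lit 78) (.st (nat_lit 38) (nat_lit 78) .nil))⟩,
  ⟨r13o_47, r7o_11, r5o_6, (.st (nat_lit 39) (nat_lit 78) (.st (nat_lit 38) (nat_lit 78) .nil))⟩,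
  ⟨r13o_47, r7o_11, r5o_8, (.st (nat_lit 195) (nat_lit 390) (.st (nat_lit 194) (nat_lit 390) .nil))⟩,
  ⟨r13o_47, r7o_13, r5o_1, (.st (nat_lit 39) (nat_lit 78) (.st (nat_lit 38) (nat_lit 78) .nil))⟩,
  ⟨r13o_47, r7o_13, r5o_2, (.st (nat_lit 195) (nat_lit 390) (.st (nat_lit 194) (nat_lit 390) .nil))⟩,
  ⟨r13o_47, r7o_13, r5o_4, (.st (nat_lit 39) (nat_lit 78) (.st (nat_lit 38) (nat_lit 78) .nil))⟩,
  ⟨r13o_47, r7o_13, r5o_6, (.st (nat_lit 39) (nat_lit 78) (.st (nat_lit 38) (nat_lit 78) .nil))⟩,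
  ⟨r13o_47, r7o_13, r5o_8, (.st (nat_lit 195) (nat_lit 390) (.st (nat_lit 194) (nat_lit 390) .nil))⟩,
  ⟨r13o_47, r7o_23, r5o_1, (.st (nat_lit 39) (nat_lit 78) (.st (nat_lit 38) (nat_lit 78) .nil))⟩,
  ⟨r13o_47, r7o_23, r5o_2, (.st (nat_lit 195) (nat_lit 390) (.st (nat_lit 194) (nat_lit 390) .nil))⟩,
  ⟨r13o_47, r7o_23, r5o_4, (.st (nat_lit 39) (nat_lit 78) (.st (nat_lit 38) (nat_lit 78) .nil))⟩,
  ⟨r13o_47, r7o_23, r5o_6, (.st (nat_lit 39) (nat_lit 78) (.st (nat_lit 38) (nat_lit 78) .nil))⟩,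
  ⟨r13o_47, r7o_23, r5o_8, (.st (nat_lit 195) (nat_lit 390) (.st (nat_lit 194) (nat_lit 390) .nil))⟩]

/-- entries -/
def EA48 : List E3 := []

/-- entries -/
def EA49 : List E3 := [⟨r13o_49, r7o_6, r5o_8, (.st (nat_lit 1555) (nat_lit 1560) (.st (nat_lit 4) (nat_lit 1560) .nil))⟩,
  ⟨r13o_49, r7o_7, r5o_8, (.st (nat_lit 784) (nat_lit 1560) (.st (nat_lit 775) (nat_lit 1560) .nil))⟩]

/-- entries -/
def EA50 : List E3 := [⟨r13o_50, r7o_1, r5o_0, (.st (nat_lit 77) (nat_lit 78) (.st (nat_lit 0) (nat_lit 78) .nil))⟩,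
  ⟨r13o_50, r7o_1, r5o_2, (.st (nat_lit 389) (nat_lit 390) (.st (nat_lit 0) (nat_lit 390) .nil))⟩,
  ⟨r13o_50, r7o_1, r5o_4, (.st (nat_lit 77) (nat_lit 78) (.st (nat_lit 0) (nat_lit 78) .nil))⟩,
  ⟨r13o_50, r7o_1, r5o_6, (.st (nat_lit 77) (nat_lit 78) (.st (nat_lit 0) (nat_lit 78) .nil))⟩,
  ⟨r13o_50, r7o_1, r5o_8, (.st (nat_lit 389) (nat_lit 390) (.st (nat_lit 0) (nat_lit 390) .nil))⟩,
  ⟨r13o_50, r7o_2, r5o_1, (.st (nat_lit 38) (nat_lit 78) (.st (nat_lit 39) (nat_lit 78) .nil))⟩,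
  ⟨r13o_50, r7o_2, r5o_2, (.st (nat_lit 194) (nat_lit 390) (.st (nat_lit 195) (nat_lit 390) .nil))⟩,
  ⟨r13o_50, r7o_2, r5o_4, (.st (nat_lit 38) (nat_lit 78) (.st (nat_lit 39) (nat_lit 78) .nil))⟩,
  ⟨r13o_50, r7o_2, r5o_6, (.st (nat_lit 38) (nat_lit 78) (.st (nat_lit 39) (nat_lit 78) .nil))⟩,
  ⟨r13o_50, r7o_2, r5o_8, (.st (nat_lit 194) (nat_lit 390) (.st (nat_lit 195) (nat_lit 390) .nil))⟩,
  ⟨r13o_50, r7o_5, r5o_0, (.st (nat_lit 311) (nat_lit 312) (.st (nat_lit 155) (nat_lit 312) (.st (nat_lit 156) (nat_lit 312) (.st (nat_lit 0) (nat_lit 312) .nil))))⟩,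
  ⟨r13o_50, r7o_5, r5o_2, (.st (nat_lit 1559) (nat_lit 1560) (.st (nat_lit 779) (nat_lit 1560) (.st (nat_lit 780) (nat_lit 1560) (.st (nat_lit 0) (nat_lit 1560) .nil))))⟩,
  ⟨r13o_50, r7o_5, r5o_4, (.st (nat_lit 311) (nat_lit 312) (.st (nat_lit 155) (nat_lit 312) (.st (nat_lit 156) (nat_lit 312) (.st (nat_lit 0) (nat_lit 312) .nil))))⟩,
  ⟨r13o_50, r7o_5, r5o_6, (.st (nat_lit 23) (nat_lit 24) (.st (nat_lit 11) (nat_lit 24) (.st (nat_lit 12) (nat_lit 24) (.st (nat_lit 0) (nat_lit 24) .nil))))⟩,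
  ⟨r13o_50, r7o_5, r5o_8, (.st (nat_lit 1559) (nat_lit 1560) (.st (nat_lit 779) (nat_lit 1560) (.st (nat_lit 780) (nat_lit 1560) (.st (nat_lit 0) (nat_lit 1560) .nil))))⟩,
  ⟨r13o_50, r7o_9, r5o_0, (.st (nat_lit 77) (nat_lit 78) (.st (nat_lit 0) (nat_lit 78) .nil))⟩,
  ⟨r13o_50, r7o_9, r5o_2, (.st (nat_lit 389) (nat_lit 390) (.st (nat_lit 0) (nat_lit 390) .nil))⟩,
  ⟨r13o_50, r7o_9, r5o_4, (.st (nat_lit 77) (nat_lit 78) (.st (nat_lit 0) (nat_lit 78) .nil))⟩,
  ⟨r13o_50, r7o_9, r5o_6, (.st (nat_lit 77) (nat_lit 78) (.st (nat_lit 0) (nat_lit 78) .nil))⟩,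
  ⟨r13o_50, r7o_9, r5o_8, (.st (nat_lit 389) (nat_lit 390) (.st (nat_lit 0) (nat_lit 390) .nil))⟩,
  ⟨r13o_50, r7o_11, r5o_1, (.st (nat_lit 38) (nat_lit 78) (.st (nat_lit 39) (nat_lit 78) .nil))⟩,
  ⟨r13o_50, r7o_11, r5o_2, (.st (nat_lit 194) (nat_lit 390) (.st (nat_lit 195) (nat_lit 390) .nil))⟩,
  ⟨r13o_50, r7o_11, r5o_4, (.st (nat_lit 38) (nat_lit 78) (.st (nat_lit 39) (nat_lit 78) .nil))⟩,
  ⟨r13o_50, r7o_11, r5o_6, (.st (nat_lit 38) (nat_lit 78) (.st (nat_lit 39) (nat_lit 78) .nil))⟩,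
  ⟨r13o_50, r7o_11, r5o_8, (.st (nat_lit 194) (nat_lit 390) (.st (nat_lit 195) (nat_lit 390) .nil))⟩,
  ⟨r13o_50, r7o_13, r5o_0, (.st (nat_lit 77) (nat_lit 78) (.st (nat_lit 0) (nat_lit 78) .nil))⟩,
  ⟨r13o_50, r7o_13, r5o_1, (.st (nat_lit 38) (nat_lit 78) (.st (nat_lit 39) (nat_lit 78) .nil))⟩,
  ⟨r13o_50, r7o_13, r5o_2, (.st (nat_lit 194) (nat_lit 195) (.st (nat_lit 0) (nat_lit 195) .nil))⟩,
  ⟨r13o_50, r7o_13, r5o_4, (.st (nat_lit 38) (nat_lit 39) (.st (nat_lit 0) (nat_lit 39) .nil))⟩,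
  ⟨r13o_50, r7o_13, r5o_6, (.st (nat_lit 38) (nat_lit 39) (.st (nat_lit 0) (nat_lit 39) .nil))⟩,
  ⟨r13o_50, r7o_13, r5o_8, (.st (nat_lit 194) (nat_lit 195) (.st (nat_lit 0) (nat_lit 195) .nil))⟩,
  ⟨r13o_50, r7o_16, r5o_0, (.st (nat_lit 155) (nat_lit 312) (.st (nat_lit 156) (nat_lit 312) .nil))⟩,
  ⟨r13o_50, r7o_16, r5o_2, (.st (nat_lit 779) (nat_lit 1560) (.st (nat_lit 780) (nat_lit 1560) .nil))⟩,
  ⟨r13o_50, r7o_16, r5o_4, (.st (nat_lit 155) (nat_lit 312) (.st (nat_lit 156) (nat_lit 312) .nil))⟩,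
  ⟨r13o_50, r7o_16, r5o_6, (.st (nat_lit 155) (nat_lit 312) (.st (nat_lit 156) (nat_lit 312) .nil))⟩,
  ⟨r13o_50, r7o_16, r5o_8, (.st (nat_lit 779) (nat_lit 1560) (.st (nat_lit 780) (nat_lit 1560) .nil))⟩,
  ⟨r13o_50, r7o_17, r5o_0, (.st (nat_lit 311) (nat_lit 312) (.st (nat_lit 0) (nat_lit 312) .nil))⟩,
  ⟨r13o_50, r7o_17, r5o_2, (.st (nat_lit 1559) (nat_lit 1560) (.st (nat_lit 0) (nat_lit 1560) .nil))⟩,
  ⟨r13o_50, r7o_17, r5o_4, (.st (nat_lit 311) (nat_lit 312) (.st (nat_lit 0) (nat_lit 312) .nil))⟩,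
  ⟨r13o_50, r7o_17, r5o_6, (.st (nat_lit 311) (nat_lit 312) (.st (nat_lit 0) (nat_lit 312) .nil))⟩,
  ⟨r13o_50, r7o_17, r5o_8, (.st (nat_lit 1559) (nat_lit 1560) (.st (nat_lit 0) (nat_lit 1560) .nil))⟩,
  ⟨r13o_50, r7o_21, r5o_0, (.st (nat_lit 77) (nat_lit 78) (.st (nat_lit 0) (nat_lit 78) .nil))⟩,
  ⟨r13o_50, r7o_21, r5o_2, (.st (nat_lit 389) (nat_lit 390) (.st (nat_lit 0) (nat_lit 390) .nil))⟩,
  ⟨r13o_50, r7o_21, r5o_4, (.st (nat_lit 77) (nat_lit 78) (.st (nat_lit 0) (nat_lit 78) .nil))⟩,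
  ⟨r13o_50, r7o_21, r5o_6, (.st (nat_lit 77) (nat_lit 78) (.st (nat_lit 0) (nat_lit 78) .nil))⟩,
  ⟨r13o_50, r7o_21, r5o_8, (.st (nat_lit 389) (nat_lit 390) (.st (nat_lit 0) (nat_lit 390) .nil))⟩,
  ⟨r13o_50, r7o_23, r5o_1, (.st (nat_lit 38) (nat_lit 78) (.st (nat_lit 39) (nat_lit 78) .nil))⟩,
  ⟨r13o_50, r7o_23, r5o_2, (.st (nat_lit 194) (nat_lit 390) (.st (nat_lit 195) (nat_lit 390) .nil))⟩,
  ⟨r13o_50, r7o_23, r5o_4, (.st (nat_lit 38) (nat_lit 78) (.st (nat_lit 39) (nat_lit 78) .nil))⟩,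
  ⟨r13o_50, r7o_23, r5o_6, (.st (nat_lit 38) (nat_lit 78) (.st (nat_lit 39) (nat_lit 78) .nil))⟩,
  ⟨r13o_50, r7o_23, r5o_8, (.st (nat_lit 194) (nat_lit 390) (.st (nat_lit 195) (nat_lit 390) .nil))⟩,
  ⟨r13o_50, r7o_24, r5o_0, (.st (nat_lit 155) (nat_lit 312) (.st (nat_lit 156) (nat_lit 312) .nil))⟩,
  ⟨r13o_50, r7o_24, r5o_2, (.st (nat_lit 779) (nat_lit 1560) (.st (nat_lit 780) (nat_lit 1560) .nil))⟩,
  ⟨r13o_50, r7o_24, r5o_4, (.st (nat_lit 155) (nat_lit 312) (.st (nat_lit 156) (nat_lit 312) .nil))⟩,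
  ⟨r13o_50, r7o_24, r5o_6, (.st (nat_lit 155) (nat_lit 312) (.st (nat_lit 156) (nat_lit 312) .nil))⟩,
  ⟨r13o_50, r7o_24, r5o_8, (.st (nat_lit 779) (nat_lit 1560) (.st (nat_lit 780) (nat_lit 1560) .nil))⟩,
  ⟨r13o_50, r7o_25, r5o_0, (.st (nat_lit 311) (nat_lit 312) (.st (nat_lit 0) (nat_lit 312) .nil))⟩,
  ⟨r13o_50, r7o_25, r5o_2, (.st (nat_lit 1559) (nat_lit 1560) (.st (nat_lit 0) (nat_lit 1560) .nil))⟩,
  ⟨r13o_50, r7o_25, r5o_4, (.st (nat_lit 311) (nat_lit 312) (.st (nat_lit 0) (nat_lit 312) .nil))⟩,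
  ⟨r13o_50, r7o_25, r5o_6, (.st (nat_lit 311) (nat_lit 312) (.st (nat_lit 0) (nat_lit 312) .nil))⟩,
  ⟨r13o_50, r7o_25, r5o_8, (.st (nat_lit 1559) (nat_lit 1560) (.st (nat_lit 0) (nat_lit 1560) .nil))⟩]

/-- entries -/
def EA51 : List E3 := [⟨r13o_51, r7o_1, r5o_0, (.st (nat_lit 38) (nat_lit 78) (.st (nat_lit 39) (nat_lit 78) .nil))⟩,
  ⟨r13o_51, r7o_1, r5o_3, (.st (nat_lit 194) (nat_lit 390) (.st (nat_lit 195) (nat_lit 390) .nil))⟩,
  ⟨r13o_51, r7o_1, r5o_5, (.st (nat_lit 38) (nat_lit 78) (.st (nat_lit 39) (nat_lit 78) .nil))⟩,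
  ⟨r13o_51, r7o_1, r5o_7, (.st (nat_lit 38) (nat_lit 78) (.st (nat_lit 39) (nat_lit 78) .nil))⟩,
  ⟨r13o_51, r7o_1, r5o_9, (.st (nat_lit 194) (nat_lit 390) (.st (nat_lit 195) (nat_lit 390) .nil))⟩,
  ⟨r13o_51, r7o_2, r5o_1, (.st (nat_lit 77) (nat_lit 78) (.st (nat_lit 0) (nat_lit 78) .nil))⟩,
  ⟨r13o_51, r7o_2, r5o_3, (.st (nat_lit 389) (nat_lit 390) (.st (nat_lit 0) (nat_lit 390) .nil))⟩,
  ⟨r13o_51, r7o_2, r5o_5, (.st (nat_lit 77) (nat_lit 78) (.st (nat_lit 0) (nat_lit 78) .nil))⟩,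
  ⟨r13o_51, r7o_2, r5o_7, (.st (nat_lit 77) (nat_lit 78) (.st (nat_lit 0) (nat_lit 78) .nil))⟩,
  ⟨r13o_51, r7o_2, r5o_9, (.st (nat_lit 389) (nat_lit 390) (.st (nat_lit 0) (nat_lit 390) .nil))⟩,
  ⟨r13o_51, r7o_6, r5o_1, (.st (nat_lit 311) (nat_lit 312) (.st (nat_lit 0) (nat_lit 312) .nil))⟩,
  ⟨r13o_51, r7o_6, r5o_3, (.st (nat_lit 1559) (nat_lit 1560) (.st (nat_lit 0) (nat_lit 1560) .nil))⟩,
  ⟨r13o_51, r7o_6, r5o_5, (.st (nat_lit 311) (nat_lit 312) (.st (nat_lit 0) (nat_lit 312) .nil))⟩,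
  ⟨r13o_51, r7o_6, r5o_7, (.st (nat_lit 311) (nat_lit 312) (.st (nat_lit 0) (nat_lit 312) .nil))⟩,
  ⟨r13o_51, r7o_6, r5o_9, (.st (nat_lit 1559) (nat_lit 1560) (.st (nat_lit 0) (nat_lit 1560) .nil))⟩,
  ⟨r13o_51, r7o_7, r5o_1, (.st (nat_lit 155) (nat_lit 312) (.st (nat_lit 156) (nat_lit 312) .nil))⟩,
  ⟨r13o_51, r7o_7, r5o_3, (.st (nat_lit 779) (nat_lit 1560) (.st (nat_lit 780) (nat_lit 1560) .nil))⟩,
  ⟨r13o_51, r7o_7, r5o_5, (.st (nat_lit 155) (nat_lit 312) (.st (nat_lit 156) (nat_lit 312) .nil))⟩,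
  ⟨r13o_51, r7o_7, r5o_7, (.st (nat_lit 155) (nat_lit 312) (.st (nat_lit 156) (nat_lit 312) .nil))⟩,
  ⟨r13o_51, r7o_7, r5o_9, (.st (nat_lit 779) (nat_lit 1560) (.st (nat_lit 780) (nat_lit 1560) .nil))⟩,
  ⟨r13o_51, r7o_8, r5o_0, (.st (nat_lit 38) (nat_lit 78) (.st (nat_lit 39) (nat_lit 78) .nil))⟩,
  ⟨r13o_51, r7o_8, r5o_3, (.st (nat_lit 194) (nat_lit 390) (.st (nat_lit 195) (nat_lit 390) .nil))⟩,
  ⟨r13o_51, r7o_8, r5o_5, (.st (nat_lit 38) (nat_lit 78) (.st (nat_lit 39) (nat_lit 78) .nil))⟩,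
  ⟨r13o_51, r7o_8, r5o_7, (.st (nat_lit 38) (nat_lit 78) (.st (nat_lit 39) (nat_lit 78) .nil))⟩,
  ⟨r13o_51, r7o_8, r5o_9, (.st (nat_lit 194) (nat_lit 390) (.st (nat_lit 195) (nat_lit 390) .nil))⟩,
  ⟨r13o_51, r7o_10, r5o_1, (.st (nat_lit 77) (nat_lit 78) (.st (nat_lit 0) (nat_lit 78) .nil))⟩,
  ⟨r13o_51, r7o_10, r5o_3, (.st (nat_lit 389) (nat_lit 390) (.st (nat_lit 0) (nat_lit 390) .nil))⟩,
  ⟨r13o_51, r7o_10, r5o_5, (.st (nat_lit 77) (nat_lit 78) (.st (nat_lit 0) (nat_lit 78) .nil))⟩,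
  ⟨r13o_51, r7o_10, r5o_7, (.st (nat_lit 77) (nat_lit 78) (.st (nat_lit 0) (nat_lit 78) .nil))⟩,
  ⟨r13o_51, r7o_10, r5o_9, (.st (nat_lit 389) (nat_lit 390) (.st (nat_lit 0) (nat_lit 390) .nil))⟩,
  ⟨r13o_51, r7o_14, r5o_1, (.st (nat_lit 311) (nat_lit 312) (.st (nat_lit 0) (nat_lit 312) .nil))⟩,
  ⟨r13o_51, r7o_14, r5o_3, (.st (nat_lit 1559) (nat_lit 1560) (.st (nat_lit 0) (nat_lit 1560) .nil))⟩,
  ⟨r13o_51, r7o_14, r5o_5, (.st (nat_lit 311) (nat_lit 312) (.st (nat_lit 0) (nat_lit 312) .nil))⟩,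
  ⟨r13o_51, r7o_14, r5o_7, (.st (nat_lit 311) (nat_lit 312) (.st (nat_lit 0) (nat_lit 312) .nil))⟩,
  ⟨r13o_51, r7o_14, r5o_9, (.st (nat_lit 1559) (nat_lit 1560) (.st (nat_lit 0) (nat_lit 1560) .nil))⟩,
  ⟨r13o_51, r7o_15, r5o_1, (.st (nat_lit 155) (nat_lit 312) (.st (nat_lit 156) (nat_lit 312) .nil))⟩,
  ⟨r13o_51, r7o_15, r5o_3, (.st (nat_lit 779) (nat_lit 1560) (.st (nat_lit 780) (nat_lit 1560) .nil))⟩,
  ⟨r13o_51, r7o_15, r5o_5, (.st (nat_lit 155) (nat_lit 312) (.st (nat_lit 156) (nat_lit 312) .nil))⟩,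
  ⟨r13o_51, r7o_15, r5o_7, (.st (nat_lit 155) (nat_lit 312) (.st (nat_lit 156) (nat_lit 312) .nil))⟩,
  ⟨r13o_51, r7o_15, r5o_9, (.st (nat_lit 779) (nat_lit 1560) (.st (nat_lit 780) (nat_lit 1560) .nil))⟩,
  ⟨r13o_51, r7o_18, r5o_0, (.st (nat_lit 38) (nat_lit 78) (.st (nat_lit 39) (nat_lit 78) .nil))⟩,
  ⟨r13o_51, r7o_18, r5o_1, (.st (nat_lit 77) (nat_lit 78) (.st (nat_lit 0) (nat_lit 78) .nil))⟩,
  ⟨r13o_51, r7o_18, r5o_3, (.st (nat_lit 194) (nat_lit 195) (.st (nat_lit 0) (nat_lit 195) .nil))⟩,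
  ⟨r13o_51, r7o_18, r5o_5, (.st (nat_lit 38) (nat_lit 39) (.st (nat_lit 0) (nat_lit 39) .nil))⟩,
  ⟨r13o_51, r7o_18, r5o_7, (.st (nat_lit 38) (nat_lit 39) (.st (nat_lit 0) (nat_lit 39) .nil))⟩,
  ⟨r13o_51, r7o_18, r5o_9, (.st (nat_lit 194) (nat_lit 195) (.st (nat_lit 0) (nat_lit 195) .nil))⟩,
  ⟨r13o_51, r7o_20, r5o_0, (.st (nat_lit 38) (nat_lit 78) (.st (nat_lit 39) (nat_lit 78) .nil))⟩,
  ⟨r13o_51, r7o_20, r5o_3, (.st (nat_lit 194) (nat_lit 390) (.st (nat_lit 195) (nat_lit 390) .nil))⟩,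
  ⟨r13o_51, r7o_20, r5o_5, (.st (nat_lit 38) (nat_lit 78) (.st (nat_lit 39) (nat_lit 78) .nil))⟩,
  ⟨r13o_51, r7o_20, r5o_7, (.st (nat_lit 38) (nat_lit 78) (.st (nat_lit 39) (nat_lit 78) .nil))⟩,
  ⟨r13o_51, r7o_20, r5o_9, (.st (nat_lit 194) (nat_lit 390) (.st (nat_lit 195) (nat_lit 390) .nil))⟩,
  ⟨r13o_51, r7o_22, r5o_1, (.st (nat_lit 77) (nat_lit 78) (.st (nat_lit 0) (nat_lit 78) .nil))⟩,
  ⟨r13o_51, r7o_22, r5o_3, (.st (nat_lit 389) (nat_lit 390) (.st (nat_lit 0) (nat_lit 390) .nil))⟩,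
  ⟨r13o_51, r7o_22, r5o_5, (.st (nat_lit 77) (nat_lit 78) (.st (nat_lit 0) (nat_lit 78) .nil))⟩,
  ⟨r13o_51, r7o_22, r5o_7, (.st (nat_lit 77) (nat_lit 78) (.st (nat_lit 0) (nat_lit 78) .nil))⟩,
  ⟨r13o_51, r7o_22, r5o_9, (.st (nat_lit 389) (nat_lit 390) (.st (nat_lit 0) (nat_lit 390) .nil))⟩,
  ⟨r13o_51, r7o_26, r5o_1, (.st (nat_lit 311) (nat_lit 312) (.st (nat_lit 155) (nat_lit 312) (.st (nat_lit 156) (nat_lit 312) (.st (nat_lit 0) (nat_lit 312) .nil))))⟩,
  ⟨r13o_51, r7o_26, r5o_3, (.st (nat_lit 1559) (nat_lit 1560) (.st (nat_lit 779) (nat_lit 1560) (.st (nat_lit 780) (nat_lit 1560) (.st (nat_lit 0) (nat_lit 1560) .nil))))⟩,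
  ⟨r13o_51, r7o_26, r5o_5, (.st (nat_lit 311) (nat_lit 312) (.st (nat_lit 155) (nat_lit 312) (.st (nat_lit 156) (nat_lit 312) (.st (nat_lit 0) (nat_lit 312) .nil))))⟩,
  ⟨r13o_51, r7o_26, r5o_7, (.st (nat_lit 311) (nat_lit 312) (.st (nat_lit 155) (nat_lit 312) (.st (nat_lit 156) (nat_lit 312) (.st (nat_lit 0) (nat_lit 312) .nil))))⟩,
  ⟨r13o_51, r7o_26, r5o_9, (.st (nat_lit 1559) (nat_lit 1560) (.st (nat_lit 779) (nat_lit 1560) (.st (nat_lit 780) (nat_lit 1560) (.st (nat_lit 0) (nat_lit 1560) .nil))))⟩]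

/-- entries -/
def EA52 : List E3 := []

/-- entries -/
def EA53 : List E3 := []

/-- entries -/
def EA54 : List E3 := [⟨r13o_54, r7o_13, r5o_2, (.st (nat_lit 17) (nat_lit 35) .nil)⟩,
  ⟨r13o_54, r7o_13, r5o_3, (.st (nat_lit 17) (nat_lit 35) .nil)⟩,
  ⟨r13o_54, r7o_13, r5o_4, (.st (nat_lit 3) (nat_lit 7) .nil)⟩,
  ⟨r13o_54, r7o_13, r5o_5, (.st (nat_lit 10) (nat_lit 21) .nil)⟩,
  ⟨r13o_54, r7o_13, r5o_6, (.st (nat_lit 10) (nat_lit 21) .nil)⟩,
  ⟨r13o_54, r7o_13, r5o_7, (.st (nat_lit 3) (nat_lit 7) .nil)⟩,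
  ⟨r13o_54, r7o_13, r5o_8, (.st (nat_lit 17) (nat_lit 35) .nil)⟩,
  ⟨r13o_54, r7o_13, r5o_9, (.st (nat_lit 17) (nat_lit 35) .nil)⟩,
  ⟨r13o_54, r7o_18, r5o_2, (.st (nat_lit 17) (nat_lit 35) .nil)⟩,
  ⟨r13o_54, r7o_18, r5o_3, (.st (nat_lit 17) (nat_lit 35) .nil)⟩,
  ⟨r13o_54, r7o_18, r5o_4, (.st (nat_lit 3) (nat_lit 7) .nil)⟩,
  ⟨r13o_54, r7o_18, r5o_5, (.st (nat_lit 10) (nat_lit 21) .nil)⟩,
  ⟨r13o_54, r7o_18, r5o_6, (.st (nat_lit 10) (nat_lit 21) .nil)⟩,
  ⟨r13o_54, r7o_18, r5o_7, (.st (nat_lit 3) (nat_lit 7) .nil)⟩,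
  ⟨r13o_54, r7o_18, r5o_8, (.st (nat_lit 17) (nat_lit 35) .nil)⟩,
  ⟨r13o_54, r7o_18, r5o_9, (.st (nat_lit 17) (nat_lit 35) .nil)⟩]

/-- entries -/
def EA55 : List E3 := [⟨r13o_55, r7o_13, r5o_2, (.st (nat_lit 17) (nat_lit 35) .nil)⟩,
  ⟨r13o_55, r7o_13, r5o_3, (.st (nat_lit 17) (nat_lit 35) .nil)⟩,
  ⟨r13o_55, r7o_18, r5o_7, (.st (nat_lit 3) (nat_lit 7) .nil)⟩]

/-- entries -/
def EA56 : List E3 := [⟨r13o_56, r7o_1, r5o_0, (.st (nat_lit 181) (nat_lit 182) (.st (nat_lit 0) (nat_lit 182) .nil))⟩,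
  ⟨r13o_56, r7o_1, r5o_2, (.st (nat_lit 909) (nat_lit 910) (.st (nat_lit 0) (nat_lit 910) .nil))⟩,
  ⟨r13o_56, r7o_1, r5o_4, (.st (nat_lit 181) (nat_lit 182) (.st (nat_lit 0) (nat_lit 182) .nil))⟩,
  ⟨r13o_56, r7o_1, r5o_6, (.st (nat_lit 545) (nat_lit 546) (.st (nat_lit 0) (nat_lit 546) .nil))⟩,
  ⟨r13o_56, r7o_1, r5o_8, (.st (nat_lit 909) (nat_lit 910) (.st (nat_lit 0) (nat_lit 910) .nil))⟩,
  ⟨r13o_56, r7o_2, r5o_1, (.st (nat_lit 90) (nat_lit 182) (.st (nat_lit 91) (nat_lit 182) .nil))⟩,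
  ⟨r13o_56, r7o_2, r5o_2, (.st (nat_lit 454) (nat_lit 910) (.st (nat_lit 455) (nat_lit 910) .nil))⟩,
  ⟨r13o_56, r7o_2, r5o_4, (.st (nat_lit 90) (nat_lit 182) (.st (nat_lit 91) (nat_lit 182) .nil))⟩,
  ⟨r13o_56, r7o_2, r5o_6, (.st (nat_lit 272) (nat_lit 546) (.st (nat_lit 273) (nat_lit 546) .nil))⟩,
  ⟨r13o_56, r7o_2, r5o_8, (.st (nat_lit 454) (nat_lit 910) (.st (nat_lit 455) (nat_lit 910) .nil))⟩,
  ⟨r13o_56, r7o_5, r5o_0, (.st (nat_lit 727) (nat_lit 728) (.st (nat_lit 363) (nat_lit 728) (.st (nat_lit 364) (nat_lit 728) (.st (nat_lit 0) (nat_lit 728) .nil))))⟩,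
  ⟨r13o_56, r7o_5, r5o_2, (.st (nat_lit 3639) (nat_lit 3640) (.st (nat_lit 1819) (nat_lit 3640) (.st (nat_lit 1820) (nat_lit 3640) (.st (nat_lit 0) (nat_lit 3640) .nil))))⟩,
  ⟨r13o_56, r7o_5, r5o_4, (.st (nat_lit 727) (nat_lit 728) (.st (nat_lit 363) (nat_lit 728) (.st (nat_lit 364) (nat_lit 728) (.st (nat_lit 0) (nat_lit 728) .nil))))⟩,
  ⟨r13o_56, r7o_5, r5o_6, (.st (nat_lit 2183) (nat_lit 2184) (.st (nat_lit 1091) (nat_lit 2184) (.st (nat_lit 1092) (nat_lit 2184) (.st (nat_lit 0) (nat_lit 2184) .nil))))⟩,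
  ⟨r13o_56, r7o_5, r5o_8, (.st (nat_lit 3639) (nat_lit 3640) (.st (nat_lit 1819) (nat_lit 3640) (.st (nat_lit 1820) (nat_lit 3640) (.st (nat_lit 0) (nat_lit 3640) .nil))))⟩,
  ⟨r13o_56, r7o_9, r5o_0, (.st (nat_lit 545) (nat_lit 546) (.st (nat_lit 0) (nat_lit 546) .nil))⟩,
  ⟨r13o_56, r7o_9, r5o_2, (.st (nat_lit 2729) (nat_lit 2730) (.st (nat_lit 0) (nat_lit 2730) .nil))⟩,
  ⟨r13o_56, r7o_9, r5o_4, (.st (nat_lit 545) (nat_lit 546) (.st (nat_lit 0) (nat_lit 546) .nil))⟩,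
  ⟨r13o_56, r7o_9, r5o_6, (.st (nat_lit 545) (nat_lit 546) (.st (nat_lit 0) (nat_lit 546) .nil))⟩,
  ⟨r13o_56, r7o_9, r5o_8, (.st (nat_lit 2729) (nat_lit 2730) (.st (nat_lit 0) (nat_lit 2730) .nil))⟩,
  ⟨r13o_56, r7o_11, r5o_1, (.st (nat_lit 272) (nat_lit 546) (.st (nat_lit 273) (nat_lit 546) .nil))⟩,
  ⟨r13o_56, r7o_11, r5o_2, (.st (nat_lit 1364) (nat_lit 2730) (.st (nat_lit 1365) (nat_lit 2730) .nil))⟩,
  ⟨r13o_56, r7o_11, r5o_4, (.st (nat_lit 272) (nat_lit 546) (.st (nat_lit 273) (nat_lit 546) .nil))⟩,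
  ⟨r13o_56, r7o_11, r5o_6, (.st (nat_lit 272) (nat_lit 546) (.st (nat_lit 273) (nat_lit 546) .nil))⟩,
  ⟨r13o_56, r7o_11, r5o_8, (.st (nat_lit 1364) (nat_lit 2730) (.st (nat_lit 1365) (nat_lit 2730) .nil))⟩,
  ⟨r13o_56, r7o_13, r5o_0, (.st (nat_lit 181) (nat_lit 182) (.st (nat_lit 0) (nat_lit 182) .nil))⟩,
  ⟨r13o_56, r7o_13, r5o_1, (.st (nat_lit 90) (nat_lit 182) (.st (nat_lit 91) (nat_lit 182) .nil))⟩,
  ⟨r13o_56, r7o_13, r5o_2, (.st (nat_lit 34) (nat_lit 35) (.st (nat_lit 17) (nat_lit 35) (.st (nat_lit 0) (nat_lit 35) .nil)))⟩,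
  ⟨r13o_56, r7o_13, r5o_3, (.st (nat_lit 17) (nat_lit 35) .nil)⟩,
  ⟨r13o_56, r7o_13, r5o_4, (.st (nat_lit 90) (nat_lit 91) (.st (nat_lit 0) (nat_lit 91) .nil))⟩,
  ⟨r13o_56, r7o_13, r5o_6, (.st (nat_lit 272) (nat_lit 273) (.st (nat_lit 0) (nat_lit 273) .nil))⟩,
  ⟨r13o_56, r7o_13, r5o_8, (.st (nat_lit 454) (nat_lit 455) (.st (nat_lit 0) (nat_lit 455) .nil))⟩,
  ⟨r13o_56, r7o_16, r5o_0, (.st (nat_lit 363) (nat_lit 728) (.st (nat_lit 364) (nat_lit 728) .nil))⟩,
  ⟨r13o_56, r7o_16, r5o_2, (.st (nat_lit 1819) (nat_lit 3640) (.st (nat_lit 1820) (nat_lit 3640) .nil))⟩,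
  ⟨r13o_56, r7o_16, r5o_4, (.st (nat_lit 363) (nat_lit 728) (.st (nat_lit 364) (nat_lit 728) .nil))⟩,
  ⟨r13o_56, r7o_16, r5o_6, (.st (nat_lit 1091) (nat_lit 2184) (.st (nat_lit 1092) (nat_lit 2184) .nil))⟩,
  ⟨r13o_56, r7o_16, r5o_8, (.st (nat_lit 1819) (nat_lit 3640) (.st (nat_lit 1820) (nat_lit 3640) .nil))⟩,
  ⟨r13o_56, r7o_17, r5o_0, (.st (nat_lit 727) (nat_lit 728) (.st (nat_lit 0) (nat_lit 728) .nil))⟩,
  ⟨r13o_56, r7o_17, r5o_2, (.st (nat_lit 3639) (nat_lit 3640) (.st (nat_lit 0) (nat_lit 3640) .nil))⟩,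
  ⟨r13o_56, r7o_17, r5o_4, (.st (nat_lit 727) (nat_lit 728) (.st (nat_lit 0) (nat_lit 728) .nil))⟩,
  ⟨r13o_56, r7o_17, r5o_6, (.st (nat_lit 2183) (nat_lit 2184) (.st (nat_lit 0) (nat_lit 2184) .nil))⟩,
  ⟨r13o_56, r7o_17, r5o_8, (.st (nat_lit 3639) (nat_lit 3640) (.st (nat_lit 0) (nat_lit 3640) .nil))⟩,
  ⟨r13o_56, r7o_18, r5o_7, (.st (nat_lit 3) (nat_lit 7) .nil)⟩,
  ⟨r13o_56, r7o_21, r5o_0, (.st (nat_lit 545) (nat_lit 546) (.st (nat_lit 0) (nat_lit 546) .nil))⟩,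
  ⟨r13o_56, r7o_21, r5o_2, (.st (nat_lit 2729) (nat_lit 2730) (.st (nat_lit 0) (nat_lit 2730) .nil))⟩,
  ⟨r13o_56, r7o_21, r5o_4, (.st (nat_lit 545) (nat_lit 546) (.st (nat_lit 0) (nat_lit 546) .nil))⟩,
  ⟨r13o_56, r7o_21, r5o_6, (.st (nat_lit 545) (nat_lit 546) (.st (nat_lit 0) (nat_lit 546) .nil))⟩,
  ⟨r13o_56, r7o_21, r5o_8, (.st (nat_lit 2729) (nat_lit 2730) (.st (nat_lit 0) (nat_lit 2730) .nil))⟩,
  ⟨r13o_56, r7o_23, r5o_1, (.st (nat_lit 272) (nat_lit 546) (.st (nat_lit 273) (nat_lit 546) .nil))⟩,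
  ⟨r13o_56, r7o_23, r5o_2, (.st (nat_lit 1364) (nat_lit 2730) (.st (nat_lit 1365) (nat_lit 2730) .nil))⟩,
  ⟨r13o_56, r7o_23, r5o_4, (.st (nat_lit 272) (nat_lit 546) (.st (nat_lit 273) (nat_lit 546) .nil))⟩,
  ⟨r13o_56, r7o_23, r5o_6, (.st (nat_lit 272) (nat_lit 546) (.st (nat_lit 273) (nat_lit 546) .nil))⟩,
  ⟨r13o_56, r7o_23, r5o_8, (.st (nat_lit 1364) (nat_lit 2730) (.st (nat_lit 1365) (nat_lit 2730) .nil))⟩,
  ⟨r13o_56, r7o_24, r5o_0, (.st (nat_lit 363) (nat_lit 728) (.st (nat_lit 364) (nat_lit 728) .nil))⟩,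
  ⟨r13o_56, r7o_24, r5o_2, (.st (nat_lit 1819) (nat_lit 3640) (.st (nat_lit 1820) (nat_lit 3640) .nil))⟩,
  ⟨r13o_56, r7o_24, r5o_4, (.st (nat_lit 363) (nat_lit 728) (.st (nat_lit 364) (nat_lit 728) .nil))⟩,
  ⟨r13o_56, r7o_24, r5o_6, (.st (nat_lit 1091) (nat_lit 2184) (.st (nat_lit 1092) (nat_lit 2184) .nil))⟩,
  ⟨r13o_56, r7o_24, r5o_8, (.st (nat_lit 1819) (nat_lit 3640) (.st (nat_lit 1820) (nat_lit 3640) .nil))⟩,
  ⟨r13o_56, r7o_25, r5o_0, (.st (nat_lit 727) (nat_lit 728) (.st (nat_lit 0) (nat_lit 728) .nil))⟩,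
  ⟨r13o_56, r7o_25, r5o_2, (.st (nat_lit 3639) (nat_lit 3640) (.st (nat_lit 0) (nat_lit 3640) .nil))⟩,
  ⟨r13o_56, r7o_25, r5o_4, (.st (nat_lit 727) (nat_lit 728) (.st (nat_lit 0) (nat_lit 728) .nil))⟩,
  ⟨r13o_56, r7o_25, r5o_6, (.st (nat_lit 2183) (nat_lit 2184) (.st (nat_lit 0) (nat_lit 2184) .nil))⟩,
  ⟨r13o_56, r7o_25, r5o_8, (.st (nat_lit 3639) (nat_lit 3640) (.st (nat_lit 0) (nat_lit 3640) .nil))⟩]

/-- entries -/
def EA57 : List E3 := [⟨r13o_57, r7o_1, r5o_0, (.st (nat_lit 13) (nat_lit 26) (.st (nat_lit 12) (nat_lit 26) .nil))⟩,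
  ⟨r13o_57, r7o_1, r5o_3, (.st (nat_lit 65) (nat_lit 130) (.st (nat_lit 64) (nat_lit 130) .nil))⟩,
  ⟨r13o_57, r7o_1, r5o_5, (.st (nat_lit 39) (nat_lit 78) (.st (nat_lit 38) (nat_lit 78) .nil))⟩,
  ⟨r13o_57, r7o_1, r5o_7, (.st (nat_lit 13) (nat_lit 26) (.st (nat_lit 12) (nat_lit 26) .nil))⟩,
  ⟨r13o_57, r7o_1, r5o_9, (.st (nat_lit 65) (nat_lit 130) (.st (nat_lit 64) (nat_lit 130) .nil))⟩,
  ⟨r13o_57, r7o_2, r5o_1, (.st (nat_lit 25) (nat_lit 26) (.st (nat_lit 0) (nat_lit 26) .nil))⟩,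
  ⟨r13o_57, r7o_2, r5o_3, (.st (nat_lit 129) (nat_lit 130) (.st (nat_lit 0) (nat_lit 130) .nil))⟩,
  ⟨r13o_57, r7o_2, r5o_5, (.st (nat_lit 77) (nat_lit 78) (.st (nat_lit 0) (nat_lit 78) .nil))⟩,
  ⟨r13o_57, r7o_2, r5o_7, (.st (nat_lit 25) (nat_lit 26) (.st (nat_lit 0) (nat_lit 26) .nil))⟩,
  ⟨r13o_57, r7o_2, r5o_9, (.st (nat_lit 129) (nat_lit 130) (.st (nat_lit 0) (nat_lit 130) .nil))⟩,
  ⟨r13o_57, r7o_6, r5o_1, (.st (nat_lit 103) (nat_lit 104) (.st (nat_lit 0) (nat_lit 104) .nil))⟩,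
  ⟨r13o_57, r7o_6, r5o_3, (.st (nat_lit 519) (nat_lit 520) (.st (nat_lit 0) (nat_lit 520) .nil))⟩,
  ⟨r13o_57, r7o_6, r5o_5, (.st (nat_lit 311) (nat_lit 312) (.st (nat_lit 0) (nat_lit 312) .nil))⟩,
  ⟨r13o_57, r7o_6, r5o_7, (.st (nat_lit 103) (nat_lit 104) (.st (nat_lit 0) (nat_lit 104) .nil))⟩,
  ⟨r13o_57, r7o_6, r5o_9, (.st (nat_lit 519) (nat_lit 520) (.st (nat_lit 0) (nat_lit 520) .nil))⟩,
  ⟨r13o_57, r7o_7, r5o_1, (.st (nat_lit 52) (nat_lit 104) (.st (nat_lit 51) (nat_lit 104) .nil))⟩,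
  ⟨r13o_57, r7o_7, r5o_3, (.st (nat_lit 260) (nat_lit 520) (.st (nat_lit 259) (nat_lit 520) .nil))⟩,
  ⟨r13o_57, r7o_7, r5o_5, (.st (nat_lit 156) (nat_lit 312) (.st (nat_lit 155) (nat_lit 312) .nil))⟩,
  ⟨r13o_57, r7o_7, r5o_7, (.st (nat_lit 52) (nat_lit 104) (.st (nat_lit 51) (nat_lit 104) .nil))⟩,
  ⟨r13o_57, r7o_7, r5o_9, (.st (nat_lit 260) (nat_lit 520) (.st (nat_lit 259) (nat_lit 520) .nil))⟩,
  ⟨r13o_57, r7o_8, r5o_0, (.st (nat_lit 39) (nat_lit 78) (.st (nat_lit 38) (nat_lit 78) .nil))⟩,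
  ⟨r13o_57, r7o_8, r5o_3, (.st (nat_lit 195) (nat_lit 390) (.st (nat_lit 194) (nat_lit 390) .nil))⟩,
  ⟨r13o_57, r7o_8, r5o_5, (.st (nat_lit 39) (nat_lit 78) (.st (nat_lit 38) (nat_lit 78) .nil))⟩,
  ⟨r13o_57, r7o_8, r5o_7, (.st (nat_lit 39) (nat_lit 78) (.st (nat_lit 38) (nat_lit 78) .nil))⟩,
  ⟨r13o_57, r7o_8, r5o_9, (.st (nat_lit 195) (nat_lit 390) (.st (nat_lit 194) (nat_lit 390) .nil))⟩,
  ⟨r13o_57, r7o_10, r5o_1, (.st (nat_lit 77) (nat_lit 78) (.st (nat_lit 0) (nat_lit 78) .nil))⟩,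
  ⟨r13o_57, r7o_10, r5o_3, (.st (nat_lit 389) (nat_lit 390) (.st (nat_lit 0) (nat_lit 390) .nil))⟩,
  ⟨r13o_57, r7o_10, r5o_5, (.st (nat_lit 77) (nat_lit 78) (.st (nat_lit 0) (nat_lit 78) .nil))⟩,
  ⟨r13o_57, r7o_10, r5o_7, (.st (nat_lit 77) (nat_lit 78) (.st (nat_lit 0) (nat_lit 78) .nil))⟩,
  ⟨r13o_57, r7o_10, r5o_9, (.st (nat_lit 389) (nat_lit 390) (.st (nat_lit 0) (nat_lit 390) .nil))⟩,
  ⟨r13o_57, r7o_13, r5o_2, (.st (nat_lit 2) (nat_lit 5) .nil)⟩,
  ⟨r13o_57, r7o_13, r5o_3, (.st (nat_lit 2) (nat_lit 5) .nil)⟩,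
  ⟨r13o_57, r7o_14, r5o_1, (.st (nat_lit 103) (nat_lit 104) (.st (nat_lit 0) (nat_lit 104) .nil))⟩,
  ⟨r13o_57, r7o_14, r5o_3, (.st (nat_lit 39) (nat_lit 40) (.st (nat_lit 0) (nat_lit 40) .nil))⟩,
  ⟨r13o_57, r7o_14, r5o_5, (.st (nat_lit 311) (nat_lit 312) (.st (nat_lit 0) (nat_lit 312) .nil))⟩,
  ⟨r13o_57, r7o_14, r5o_7, (.st (nat_lit 103) (nat_lit 104) (.st (nat_lit 0) (nat_lit 104) .nil))⟩,
  ⟨r13o_57, r7o_14, r5o_9, (.st (nat_lit 519) (nat_lit 520) (.st (nat_lit 0) (nat_lit 520) .nil))⟩,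
  ⟨r13o_57, r7o_15, r5o_1, (.st (nat_lit 52) (nat_lit 104) (.st (nat_lit 51) (nat_lit 104) .nil))⟩,
  ⟨r13o_57, r7o_15, r5o_3, (.st (nat_lit 20) (nat_lit 40) (.st (nat_lit 19) (nat_lit 40) .nil))⟩,
  ⟨r13o_57, r7o_15, r5o_5, (.st (nat_lit 156) (nat_lit 312) (.st (nat_lit 155) (nat_lit 312) .nil))⟩,
  ⟨r13o_57, r7o_15, r5o_7, (.st (nat_lit 52) (nat_lit 104) (.st (nat_lit 51) (nat_lit 104) .nil))⟩,
  ⟨r13o_57, r7o_15, r5o_9, (.st (nat_lit 260) (nat_lit 520) (.st (nat_lit 259) (nat_lit 520) .nil))⟩,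
  ⟨r13o_57, r7o_18, r5o_0, (.st (nat_lit 13) (nat_lit 26) (.st (nat_lit 12) (nat_lit 26) .nil))⟩,
  ⟨r13o_57, r7o_18, r5o_1, (.st (nat_lit 25) (nat_lit 26) (.st (nat_lit 0) (nat_lit 26) .nil))⟩,
  ⟨r13o_57, r7o_18, r5o_3, (.st (nat_lit 64) (nat_lit 65) (.st (nat_lit 0) (nat_lit 65) .nil))⟩,
  ⟨r13o_57, r7o_18, r5o_5, (.st (nat_lit 38) (nat_lit 39) (.st (nat_lit 0) (nat_lit 39) .nil))⟩,
  ⟨r13o_57, r7o_18, r5o_7, (.st (nat_lit 0) (nat_lit 1) .nil)⟩,
  ⟨r13o_57, r7o_18, r5o_9, (.st (nat_lit 64) (nat_lit 65) (.st (nat_lit 0) (nat_lit 65) .nil))⟩,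
  ⟨r13o_57, r7o_20, r5o_0, (.st (nat_lit 39) (nat_lit 78) (.st (nat_lit 38) (nat_lit 78) .nil))⟩,
  ⟨r13o_57, r7o_20, r5o_3, (.st (nat_lit 195) (nat_lit 390) (.st (nat_lit 194) (nat_lit 390) .nil))⟩,
  ⟨r13o_57, r7o_20, r5o_5, (.st (nat_lit 39) (nat_lit 78) (.st (nat_lit 38) (nat_lit 78) .nil))⟩,
  ⟨r13o_57, r7o_20, r5o_7, (.st (nat_lit 39) (nat_lit 78) (.st (nat_lit 38) (nat_lit 78) .nil))⟩,
  ⟨r13o_57, r7o_20, r5o_9, (.st (nat_lit 195) (nat_lit 390) (.st (nat_lit 194) (nat_lit 390) .nil))⟩,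
  ⟨r13o_57, r7o_22, r5o_1, (.st (nat_lit 77) (nat_lit 78) (.st (nat_lit 0) (nat_lit 78) .nil))⟩,
  ⟨r13o_57, r7o_22, r5o_3, (.st (nat_lit 389) (nat_lit 390) (.st (nat_lit 0) (nat_lit 390) .nil))⟩,
  ⟨r13o_57, r7o_22, r5o_5, (.st (nat_lit 77) (nat_lit 78) (.st (nat_lit 0) (nat_lit 78) .nil))⟩,
  ⟨r13o_57, r7o_22, r5o_7, (.st (nat_lit 77) (nat_lit 78) (.st (nat_lit 0) (nat_lit 78) .nil))⟩,
  ⟨r13o_57, r7o_22, r5o_9, (.st (nat_lit 389) (nat_lit 390) (.st (nat_lit 0) (nat_lit 390) .nil))⟩,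
  ⟨r13o_57, r7o_26, r5o_1, (.st (nat_lit 103) (nat_lit 104) (.st (nat_lit 52) (nat_lit 104) (.st (nat_lit 51) (nat_lit 104) (.st (nat_lit 0) (nat_lit 104) .nil))))⟩,
  ⟨r13o_57, r7o_26, r5o_3, (.st (nat_lit 519) (nat_lit 520) (.st (nat_lit 260) (nat_lit 520) (.st (nat_lit 259) (nat_lit 520) (.st (nat_lit 0) (nat_lit 520) .nil))))⟩,
  ⟨r13o_57, r7o_26, r5o_5, (.st (nat_lit 311) (nat_lit 312) (.st (nat_lit 156) (nat_lit 312) (.st (nat_lit 155) (nat_lit 312) (.st (nat_lit 0) (nat_lit 312) .nil))))⟩,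
  ⟨r13o_57, r7o_26, r5o_7, (.st (nat_lit 103) (nat_lit 104) (.st (nat_lit 52) (nat_lit 104) (.st (nat_lit 51) (nat_lit 104) (.st (nat_lit 0) (nat_lit 104) .nil))))⟩,
  ⟨r13o_57, r7o_26, r5o_9, (.st (nat_lit 519) (nat_lit 520) (.st (nat_lit 260) (nat_lit 520) (.st (nat_lit 259) (nat_lit 520) (.st (nat_lit 0) (nat_lit 520) .nil))))⟩]

/-- entries -/
def EA58 : List E3 := [⟨r13o_58, r7o_13, r5o_2, (.st (nat_lit 17) (nat_lit 35) .nil)⟩,
  ⟨r13o_58, r7o_13, r5o_3, (.st (nat_lit 17) (nat_lit 35) .nil)⟩,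
  ⟨r13o_58, r7o_18, r5o_7, (.st (nat_lit 3) (nat_lit 7) .nil)⟩,
  ⟨r13o_58, r7o_20, r5o_3, (.st (nat_lit 2545) (nat_lit 2730) (.st (nat_lit 184) (nat_lit 2730) .nil))⟩,
  ⟨r13o_58, r7o_22, r5o_3, (.st (nat_lit 1180) (nat_lit 2730) (.st (nat_lit 1549) (nat_lit 2730) .nil))⟩]

/-- entries -/
def EA59 : List E3 := [⟨r13o_59, r7o_13, r5o_2, (.st (nat_lit 17) (nat_lit 35) .nil)⟩,
  ⟨r13o_59, r7o_13, r5o_3, (.st (nat_lit 17) (nat_lit 35) .nil)⟩,
  ⟨r13o_59, r7o_18, r5o_7, (.st (nat_lit 3) (nat_lit 7) .nil)⟩]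

/-- entries -/
def EA60 : List E3 := []

/-- entries -/
def EA61 : List E3 := []

/-- entries -/
def EA62 : List E3 := [⟨r13o_62, r7o_1, r5o_0, (.st (nat_lit 25) (nat_lit 26) (.st (nat_lit 0) (nat_lit 26) .nil))⟩,
  ⟨r13o_62, r7o_1, r5o_2, (.st (nat_lit 129) (nat_lit 130) (.st (nat_lit 0) (nat_lit 130) .nil))⟩,
  ⟨r13o_62, r7o_1, r5o_4, (.st (nat_lit 25) (nat_lit 26) (.st (nat_lit 0) (nat_lit 26) .nil))⟩,
  ⟨r13o_62, r7o_1, r5o_6, (.st (nat_lit 77) (nat_lit 78) (.st (nat_lit 0) (nat_lit 78) .nil))⟩,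
  ⟨r13o_62, r7o_1, r5o_8, (.st (nat_lit 129) (nat_lit 130) (.st (nat_lit 0) (nat_lit 130) .nil))⟩,
  ⟨r13o_62, r7o_2, r5o_1, (.st (nat_lit 12) (nat_lit 26) (.st (nat_lit 13) (nat_lit 26) .nil))⟩,
  ⟨r13o_62, r7o_2, r5o_2, (.st (nat_lit 64) (nat_lit 130) (.st (nat_lit 65) (nat_lit 130) .nil))⟩,
  ⟨r13o_62, r7o_2, r5o_4, (.st (nat_lit 12) (nat_lit 26) (.st (nat_lit 13) (nat_lit 26) .nil))⟩,
  ⟨r13o_62, r7o_2, r5o_6, (.st (nat_lit 38) (nat_lit 78) (.st (nat_lit 39) (nat_lit 78) .nil))⟩,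
  ⟨r13o_62, r7o_2, r5o_8, (.st (nat_lit 64) (nat_lit 130) (.st (nat_lit 65) (nat_lit 130) .nil))⟩,
  ⟨r13o_62, r7o_5, r5o_0, (.st (nat_lit 103) (nat_lit 104) (.st (nat_lit 51) (nat_lit 104) (.st (nat_lit 52) (nat_lit 104) (.st (nat_lit 0) (nat_lit 104) .nil))))⟩,
  ⟨r13o_62, r7o_5, r5o_2, (.st (nat_lit 519) (nat_lit 520) (.st (nat_lit 259) (nat_lit 520) (.st (nat_lit 260) (nat_lit 520) (.st (nat_lit 0) (nat_lit 520) .nil))))⟩,
  ⟨r13o_62, r7o_5, r5o_4, (.st (nat_lit 103) (nat_lit 104) (.st (nat_lit 51) (nat_lit 104) (.st (nat_lit 52) (nat_lit 104) (.st (nat_lit 0) (nat_lit 104) .nil))))⟩,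
  ⟨r13o_62, r7o_5, r5o_6, (.st (nat_lit 311) (nat_lit 312) (.st (nat_lit 155) (nat_lit 312) (.st (nat_lit 156) (nat_lit 312) (.st (nat_lit 0) (nat_lit 312) .nil))))⟩,
  ⟨r13o_62, r7o_5, r5o_8, (.st (nat_lit 519) (nat_lit 520) (.st (nat_lit 259) (nat_lit 520) (.st (nat_lit 260) (nat_lit 520) (.st (nat_lit 0) (nat_lit 520) .nil))))⟩,
  ⟨r13o_62, r7o_9, r5o_0, (.st (nat_lit 77) (nat_lit 78) (.st (nat_lit 0) (nat_lit 78) .nil))⟩,
  ⟨r13o_62, r7o_9, r5o_2, (.st (nat_lit 389) (nat_lit 390) (.st (nat_lit 0) (nat_lit 390) .nil))⟩,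
  ⟨r13o_62, r7o_9, r5o_4, (.st (nat_lit 77) (nat_lit 78) (.st (nat_lit 0) (nat_lit 78) .nil))⟩,
  ⟨r13o_62, r7o_9, r5o_6, (.st (nat_lit 77) (nat_lit 78) (.st (nat_lit 0) (nat_lit 78) .nil))⟩,
  ⟨r13o_62, r7o_9, r5o_8, (.st (nat_lit 389) (nat_lit 390) (.st (nat_lit 0) (nat_lit 390) .nil))⟩,
  ⟨r13o_62, r7o_11, r5o_1, (.st (nat_lit 38) (nat_lit 78) (.st (nat_lit 39) (nat_lit 78) .nil))⟩,
  ⟨r13o_62, r7o_11, r5o_2, (.st (nat_lit 194) (nat_lit 390) (.st (nat_lit 195) (nat_lit 390) .nil))⟩,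
  ⟨r13o_62, r7o_11, r5o_4, (.st (nat_lit 38) (nat_lit 78) (.st (nat_lit 39) (nat_lit 78) .nil))⟩,
  ⟨r13o_62, r7o_11, r5o_6, (.st (nat_lit 38) (nat_lit 78) (.st (nat_lit 39) (nat_lit 78) .nil))⟩,
  ⟨r13o_62, r7o_11, r5o_8, (.st (nat_lit 194) (nat_lit 390) (.st (nat_lit 195) (nat_lit 390) .nil))⟩,
  ⟨r13o_62, r7o_13, r5o_0, (.st (nat_lit 25) (nat_lit 26) (.st (nat_lit 0) (nat_lit 26) .nil))⟩,
  ⟨r13o_62, r7o_13, r5o_1, (.st (nat_lit 12) (nat_lit 26) (.st (nat_lit 13) (nat_lit 26) .nil))⟩,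
  ⟨r13o_62, r7o_13, r5o_2, (.st (nat_lit 64) (nat_lit 65) (.st (nat_lit 0) (nat_lit 65) .nil))⟩,
  ⟨r13o_62, r7o_13, r5o_4, (.st (nat_lit 12) (nat_lit 13) (.st (nat_lit 0) (nat_lit 13) .nil))⟩,
  ⟨r13o_62, r7o_13, r5o_6, (.st (nat_lit 38) (nat_lit 39) (.st (nat_lit 0) (nat_lit 39) .nil))⟩,
  ⟨r13o_62, r7o_13, r5o_8, (.st (nat_lit 64) (nat_lit 65) (.st (nat_lit 0) (nat_lit 65) .nil))⟩,
  ⟨r13o_62, r7o_16, r5o_0, (.st (nat_lit 51) (nat_lit 104) (.st (nat_lit 52) (nat_lit 104) .nil))⟩,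
  ⟨r13o_62, r7o_16, r5o_2, (.st (nat_lit 259) (nat_lit 520) (.st (nat_lit 260) (nat_lit 520) .nil))⟩,
  ⟨r13o_62, r7o_16, r5o_4, (.st (nat_lit 51) (nat_lit 104) (.st (nat_lit 52) (nat_lit 104) .nil))⟩,
  ⟨r13o_62, r7o_16, r5o_6, (.st (nat_lit 155) (nat_lit 312) (.st (nat_lit 156) (nat_lit 312) .nil))⟩,
  ⟨r13o_62, r7o_16, r5o_8, (.st (nat_lit 259) (nat_lit 520) (.st (nat_lit 260) (nat_lit 520) .nil))⟩,
  ⟨r13o_62, r7o_17, r5o_0, (.st (nat_lit 103) (nat_lit 104) (.st (nat_lit 0) (nat_lit 104) .nil))⟩,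
  ⟨r13o_62, r7o_17, r5o_2, (.st (nat_lit 519) (nat_lit 520) (.st (nat_lit 0) (nat_lit 520) .nil))⟩,
  ⟨r13o_62, r7o_17, r5o_4, (.st (nat_lit 103) (nat_lit 104) (.st (nat_lit 0) (nat_lit 104) .nil))⟩,
  ⟨r13o_62, r7o_17, r5o_6, (.st (nat_lit 311) (nat_lit 312) (.st (nat_lit 0) (nat_lit 312) .nil))⟩,
  ⟨r13o_62, r7o_17, r5o_8, (.st (nat_lit 519) (nat_lit 520) (.st (nat_lit 0) (nat_lit 520) .nil))⟩,
  ⟨r13o_62, r7o_21, r5o_0, (.st (nat_lit 77) (nat_lit 78) (.st (nat_lit 0) (nat_lit 78) .nil))⟩,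
  ⟨r13o_62, r7o_21, r5o_2, (.st (nat_lit 389) (nat_lit 390) (.st (nat_lit 0) (nat_lit 390) .nil))⟩,
  ⟨r13o_62, r7o_21, r5o_4, (.st (nat_lit 77) (nat_lit 78) (.st (nat_lit 0) (nat_lit 78) .nil))⟩,
  ⟨r13o_62, r7o_21, r5o_6, (.st (nat_lit 77) (nat_lit 78) (.st (nat_lit 0) (nat_lit 78) .nil))⟩,
  ⟨r13o_62, r7o_21, r5o_8, (.st (nat_lit 389) (nat_lit 390) (.st (nat_lit 0) (nat_lit 390) .nil))⟩,
  ⟨r13o_62, r7o_23, r5o_1, (.st (nat_lit 38) (nat_lit 78) (.st (nat_lit 39) (nat_lit 78) .nil))⟩,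
  ⟨r13o_62, r7o_23, r5o_2, (.st (nat_lit 194) (nat_lit 390) (.st (nat_lit 195) (nat_lit 390) .nil))⟩,
  ⟨r13o_62, r7o_23, r5o_4, (.st (nat_lit 38) (nat_lit 78) (.st (nat_lit 39) (nat_lit 78) .nil))⟩,
  ⟨r13o_62, r7o_23, r5o_6, (.st (nat_lit 38) (nat_lit 78) (.st (nat_lit 39) (nat_lit 78) .nil))⟩,
  ⟨r13o_62, r7o_23, r5o_8, (.st (nat_lit 194) (nat_lit 390) (.st (nat_lit 195) (nat_lit 390) .nil))⟩,
  ⟨r13o_62, r7o_24, r5o_0, (.st (nat_lit 51) (nat_lit 104) (.st (nat_lit 52) (nat_lit 104) .nil))⟩,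
  ⟨r13o_62, r7o_24, r5o_2, (.st (nat_lit 259) (nat_lit 520) (.st (nat_lit 260) (nat_lit 520) .nil))⟩,
  ⟨r13o_62, r7o_24, r5o_4, (.st (nat_lit 51) (nat_lit 104) (.st (nat_lit 52) (nat_lit 104) .nil))⟩,
  ⟨r13o_62, r7o_24, r5o_6, (.st (nat_lit 155) (nat_lit 312) (.st (nat_lit 156) (nat_lit 312) .nil))⟩,
  ⟨r13o_62, r7o_24, r5o_8, (.st (nat_lit 259) (nat_lit 520) (.st (nat_lit 260) (nat_lit 520) .nil))⟩,
  ⟨r13o_62, r7o_25, r5o_0, (.st (nat_lit 103) (nat_lit 104) (.st (nat_lit 0) (nat_lit 104) .nil))⟩,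
  ⟨r13o_62, r7o_25, r5o_2, (.st (nat_lit 519) (nat_lit 520) (.st (nat_lit 0) (nat_lit 520) .nil))⟩,
  ⟨r13o_62, r7o_25, r5o_4, (.st (nat_lit 103) (nat_lit 104) (.st (nat_lit 0) (nat_lit 104) .nil))⟩,
  ⟨r13o_62, r7o_25, r5o_6, (.st (nat_lit 311) (nat_lit 312) (.st (nat_lit 0) (nat_lit 312) .nil))⟩,
  ⟨r13o_62, r7o_25, r5o_8, (.st (nat_lit 519) (nat_lit 520) (.st (nat_lit 0) (nat_lit 520) .nil))⟩]

/-- entries -/
def EA63 : List E3 := [⟨r13o_63, r7o_1, r5o_0, (.st (nat_lit 12) (nat_lit 26) (.st (nat_lit 13) (nat_lit 26) .nil))⟩,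
  ⟨r13o_63, r7o_1, r5o_3, (.st (nat_lit 64) (nat_lit 130) (.st (nat_lit 65) (nat_lit 130) .nil))⟩,
  ⟨r13o_63, r7o_1, r5o_5, (.st (nat_lit 38) (nat_lit 78) (.st (nat_lit 39) (nat_lit 78) .nil))⟩,
  ⟨r13o_63, r7o_1, r5o_7, (.st (nat_lit 12) (nat_lit 26) (.st (nat_lit 13) (nat_lit 26) .nil))⟩,
  ⟨r13o_63, r7o_1, r5o_9, (.st (nat_lit 64) (nat_lit 130) (.st (nat_lit 65) (nat_lit 130) .nil))⟩,
  ⟨r13o_63, r7o_2, r5o_1, (.st (nat_lit 25) (nat_lit 26) (.st (nat_lit 0) (nat_lit 26) .nil))⟩,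
  ⟨r13o_63, r7o_2, r5o_3, (.st (nat_lit 129) (nat_lit 130) (.st (nat_lit 0) (nat_lit 130) .nil))⟩,
  ⟨r13o_63, r7o_2, r5o_5, (.st (nat_lit 77) (nat_lit 78) (.st (nat_lit 0) (nat_lit 78) .nil))⟩,
  ⟨r13o_63, r7o_2, r5o_7, (.st (nat_lit 25) (nat_lit 26) (.st (nat_lit 0) (nat_lit 26) .nil))⟩,
  ⟨r13o_63, r7o_2, r5o_9, (.st (nat_lit 129) (nat_lit 130) (.st (nat_lit 0) (nat_lit 130) .nil))⟩,
  ⟨r13o_63, r7o_6, r5o_1, (.st (nat_lit 103) (nat_lit 104) (.st (nat_lit 0) (nat_lit 104) .nil))⟩,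
  ⟨r13o_63, r7o_6, r5o_3, (.st (nat_lit 519) (nat_lit 520) (.st (nat_lit 0) (nat_lit 520) .nil))⟩,
  ⟨r13o_63, r7o_6, r5o_5, (.st (nat_lit 311) (nat_lit 312) (.st (nat_lit 0) (nat_lit 312) .nil))⟩,
  ⟨r13o_63, r7o_6, r5o_7, (.st (nat_lit 103) (nat_lit 104) (.st (nat_lit 0) (nat_lit 104) .nil))⟩,
  ⟨r13o_63, r7o_6, r5o_9, (.st (nat_lit 519) (nat_lit 520) (.st (nat_lit 0) (nat_lit 520) .nil))⟩,
  ⟨r13o_63, r7o_7, r5o_1, (.st (nat_lit 51) (nat_lit 104) (.st (nat_lit 52) (nat_lit 104) .nil))⟩,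
  ⟨r13o_63, r7o_7, r5o_3, (.st (nat_lit 259) (nat_lit 520) (.st (nat_lit 260) (nat_lit 520) .nil))⟩,
  ⟨r13o_63, r7o_7, r5o_5, (.st (nat_lit 155) (nat_lit 312) (.st (nat_lit 156) (nat_lit 312) .nil))⟩,
  ⟨r13o_63, r7o_7, r5o_7, (.st (nat_lit 51) (nat_lit 104) (.st (nat_lit 52) (nat_lit 104) .nil))⟩,
  ⟨r13o_63, r7o_7, r5o_9, (.st (nat_lit 259) (nat_lit 520) (.st (nat_lit 260) (nat_lit 520) .nil))⟩,
  ⟨r13o_63, r7o_8, r5o_0, (.st (nat_lit 38) (nat_lit 78) (.st (nat_lit 39) (nat_lit 78) .nil))⟩,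
  ⟨r13o_63, r7o_8, r5o_3, (.st (nat_lit 194) (nat_lit 390) (.st (nat_lit 195) (nat_lit 390) .nil))⟩,
  ⟨r13o_63, r7o_8, r5o_5, (.st (nat_lit 38) (nat_lit 78) (.st (nat_lit 39) (nat_lit 78) .nil))⟩,
  ⟨r13o_63, r7o_8, r5o_7, (.st (nat_lit 38) (nat_lit 78) (.st (nat_lit 39) (nat_lit 78) .nil))⟩,
  ⟨r13o_63, r7o_8, r5o_9, (.st (nat_lit 194) (nat_lit 390) (.st (nat_lit 195) (nat_lit 390) .nil))⟩,
  ⟨r13o_63, r7o_10, r5o_1, (.st (nat_lit 77) (nat_lit 78) (.st (nat_lit 0) (nat_lit 78) .nil))⟩,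
  ⟨r13o_63, r7o_10, r5o_3, (.st (nat_lit 389) (nat_lit 390) (.st (nat_lit 0) (nat_lit 390) .nil))⟩,
  ⟨r13o_63, r7o_10, r5o_5, (.st (nat_lit 77) (nat_lit 78) (.st (nat_lit 0) (nat_lit 78) .nil))⟩,
  ⟨r13o_63, r7o_10, r5o_7, (.st (nat_lit 77) (nat_lit 78) (.st (nat_lit 0) (nat_lit 78) .nil))⟩,
  ⟨r13o_63, r7o_10, r5o_9, (.st (nat_lit 389) (nat_lit 390) (.st (nat_lit 0) (nat_lit 390) .nil))⟩,
  ⟨r13o_63, r7o_14, r5o_1, (.st (nat_lit 103) (nat_lit 104) (.st (nat_lit 0) (nat_lit 104) .nil))⟩,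
  ⟨r13o_63, r7o_14, r5o_3, (.st (nat_lit 519) (nat_lit 520) (.st (nat_lit 0) (nat_lit 520) .nil))⟩,
  ⟨r13o_63, r7o_14, r5o_5, (.st (nat_lit 311) (nat_lit 312) (.st (nat_lit 0) (nat_lit 312) .nil))⟩,
  ⟨r13o_63, r7o_14, r5o_7, (.st (nat_lit 103) (nat_lit 104) (.st (nat_lit 0) (nat_lit 104) .nil))⟩,
  ⟨r13o_63, r7o_14, r5o_9, (.st (nat_lit 519) (nat_lit 520) (.st (nat_lit 0) (nat_lit 520) .nil))⟩,
  ⟨r13o_63, r7o_15, r5o_1, (.st (nat_lit 51) (nat_lit 104) (.st (nat_lit 52) (nat_lit 104) .nil))⟩,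
  ⟨r13o_63, r7o_15, r5o_3, (.st (nat_lit 259) (nat_lit 520) (.st (nat_lit 260) (nat_lit 520) .nil))⟩,
  ⟨r13o_63, r7o_15, r5o_5, (.st (nat_lit 155) (nat_lit 312) (.st (nat_lit 156) (nat_lit 312) .nil))⟩,
  ⟨r13o_63, r7o_15, r5o_7, (.st (nat_lit 51) (nat_lit 104) (.st (nat_lit 52) (nat_lit 104) .nil))⟩,
  ⟨r13o_63, r7o_15, r5o_9, (.st (nat_lit 259) (nat_lit 520) (.st (nat_lit 260) (nat_lit 520) .nil))⟩,
  ⟨r13o_63, r7o_18, r5o_0, (.st (nat_lit 12) (nat_lit 26) (.st (nat_lit 13) (nat_lit 26) .nil))⟩,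
  ⟨r13o_63, r7o_18, r5o_1, (.st (nat_lit 25) (nat_lit 26) (.st (nat_lit 0) (nat_lit 26) .nil))⟩,
  ⟨r13o_63, r7o_18, r5o_3, (.st (nat_lit 64) (nat_lit 65) (.st (nat_lit 0) (nat_lit 65) .nil))⟩,
  ⟨r13o_63, r7o_18, r5o_5, (.st (nat_lit 38) (nat_lit 39) (.st (nat_lit 0) (nat_lit 39) .nil))⟩,
  ⟨r13o_63, r7o_18, r5o_7, (.st (nat_lit 12) (nat_lit 13) (.st (nat_lit 0) (nat_lit 13) .nil))⟩,
  ⟨r13o_63, r7o_18, r5o_9, (.st (nat_lit 64) (nat_lit 65) (.st (nat_lit 0) (nat_lit 65) .nil))⟩,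
  ⟨r13o_63, r7o_20, r5o_0, (.st (nat_lit 38) (nat_lit 78) (.st (nat_lit 39) (nat_lit 78) .nil))⟩,
  ⟨r13o_63, r7o_20, r5o_3, (.st (nat_lit 194) (nat_lit 390) (.st (nat_lit 195) (nat_lit 390) .nil))⟩,
  ⟨r13o_63, r7o_20, r5o_5, (.st (nat_lit 38) (nat_lit 78) (.st (nat_lit 39) (nat_lit 78) .nil))⟩,
  ⟨r13o_63, r7o_20, r5o_7, (.st (nat_lit 38) (nat_lit 78) (.st (nat_lit 39) (nat_lit 78) .nil))⟩,
  ⟨r13o_63, r7o_20, r5o_9, (.st (nat_lit 194) (nat_lit 390) (.st (nat_lit 195) (nat_lit 390) .nil))⟩,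
  ⟨r13o_63, r7o_22, r5o_1, (.st (nat_lit 77) (nat_lit 78) (.st (nat_lit 0) (nat_lit 78) .nil))⟩,
  ⟨r13o_63, r7o_22, r5o_3, (.st (nat_lit 389) (nat_lit 390) (.st (nat_lit 0) (nat_lit 390) .nil))⟩,
  ⟨r13o_63, r7o_22, r5o_5, (.st (nat_lit 77) (nat_lit 78) (.st (nat_lit 0) (nat_lit 78) .nil))⟩,
  ⟨r13o_63, r7o_22, r5o_7, (.st (nat_lit 77) (nat_lit 78) (.st (nat_lit 0) (nat_lit 78) .nil))⟩,
  ⟨r13o_63, r7o_22, r5o_9, (.st (nat_lit 389) (nat_lit 390) (.st (nat_lit 0) (nat_lit 390) .nil))⟩,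
  ⟨r13o_63, r7o_26, r5o_1, (.st (nat_lit 103) (nat_lit 104) (.st (nat_lit 51) (nat_lit 104) (.st (nat_lit 52) (nat_lit 104) (.st (nat_lit 0) (nat_lit 104) .nil))))⟩,
  ⟨r13o_63, r7o_26, r5o_3, (.st (nat_lit 519) (nat_lit 520) (.st (nat_lit 259) (nat_lit 520) (.st (nat_lit 260) (nat_lit 520) (.st (nat_lit 0) (nat_lit 520) .nil))))⟩,
  ⟨r13o_63, r7o_26, r5o_5, (.st (nat_lit 311) (nat_lit 312) (.st (nat_lit 155) (nat_lit 312) (.st (nat_lit 156) (nat_lit 312) (.st (nat_lit 0) (nat_lit 312) .nil))))⟩,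
  ⟨r13o_63, r7o_26, r5o_7, (.st (nat_lit 103) (nat_lit 104) (.st (nat_lit 51) (nat_lit 104) (.st (nat_lit 52) (nat_lit 104) (.st (nat_lit 0) (nat_lit 104) .nil))))⟩,
  ⟨r13o_63, r7o_26, r5o_9, (.st (nat_lit 519) (nat_lit 520) (.st (nat_lit 259) (nat_lit 520) (.st (nat_lit 260) (nat_lit 520) (.st (nat_lit 0) (nat_lit 520) .nil))))⟩]

/-- entries -/
def EA64 : List E3 := []

/-- entries -/
def EA65 : List E3 := []

/-- entries -/
def EA66 : List E3 := [⟨r13o_66, r7o_18, r5o_2, (.st (nat_lit 17) (nat_lit 35) .nil)⟩,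
  ⟨r13o_66, r7o_18, r5o_3, (.st (nat_lit 17) (nat_lit 35) .nil)⟩]

/-- entries -/
def EA67 : List E3 := [⟨r13o_67, r7o_18, r5o_2, (.st (nat_lit 17) (nat_lit 35) .nil)⟩,
  ⟨r13o_67, r7o_18, r5o_3, (.st (nat_lit 17) (nat_lit 35) .nil)⟩,
  ⟨r13o_67, r7o_18, r5o_4, (.st (nat_lit 3) (nat_lit 7) .nil)⟩,
  ⟨r13o_67, r7o_18, r5o_5, (.st (nat_lit 10) (nat_lit 21) .nil)⟩,
  ⟨r13o_67, r7o_18, r5o_6, (.st (nat_lit 10) (nat_lit 21) .nil)⟩,
  ⟨r13o_67, r7o_18, r5o_7, (.st (nat_lit 3) (nat_lit 7) .nil)⟩,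
  ⟨r13o_67, r7o_18, r5o_8, (.st (nat_lit 17) (nat_lit 35) .nil)⟩,
  ⟨r13o_67, r7o_18, r5o_9, (.st (nat_lit 17) (nat_lit 35) .nil)⟩,
  ⟨r13o_67, r7o_20, r5o_7, (.st (nat_lit 40) (nat_lit 42) (.st (nat_lit 1) (nat_lit 42) .nil))⟩,
  ⟨r13o_67, r7o_22, r5o_7, (.st (nat_lit 19) (nat_lit 42) (.st (nat_lit 22) (nat_lit 42) .nil))⟩]

/-- entries -/
def EA68 : List E3 := [⟨r13o_68, r7o_1, r5o_0, (.st (nat_lit 181) (nat_lit 182) (.st (nat_lit 0) (nat_lit 182) .nil))⟩,
  ⟨r13o_68, r7o_1, r5o_2, (.st (nat_lit 909) (nat_lit 910) (.st (nat_lit 0) (nat_lit 910) .nil))⟩,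
  ⟨r13o_68, r7o_1, r5o_4, (.st (nat_lit 181) (nat_lit 182) (.st (nat_lit 0) (nat_lit 182) .nil))⟩,
  ⟨r13o_68, r7o_1, r5o_6, (.st (nat_lit 545) (nat_lit 546) (.st (nat_lit 0) (nat_lit 546) .nil))⟩,
  ⟨r13o_68, r7o_1, r5o_8, (.st (nat_lit 909) (nat_lit 910) (.st (nat_lit 0) (nat_lit 910) .nil))⟩,
  ⟨r13o_68, r7o_2, r5o_1, (.st (nat_lit 90) (nat_lit 182) (.st (nat_lit 91) (nat_lit 182) .nil))⟩,
  ⟨r13o_68, r7o_2, r5o_2, (.st (nat_lit 454) (nat_lit 910) (.st (nat_lit 455) (nat_lit 910) .nil))⟩,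
  ⟨r13o_68, r7o_2, r5o_4, (.st (nat_lit 90) (nat_lit 182) (.st (nat_lit 91) (nat_lit 182) .nil))⟩,
  ⟨r13o_68, r7o_2, r5o_6, (.st (nat_lit 272) (nat_lit 546) (.st (nat_lit 273) (nat_lit 546) .nil))⟩,
  ⟨r13o_68, r7o_2, r5o_8, (.st (nat_lit 454) (nat_lit 910) (.st (nat_lit 455) (nat_lit 910) .nil))⟩,
  ⟨r13o_68, r7o_5, r5o_0, (.st (nat_lit 727) (nat_lit 728) (.st (nat_lit 363) (nat_lit 728) (.st (nat_lit 364) (nat_lit 728) (.st (nat_lit 0) (nat_lit 728) .nil))))⟩,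
  ⟨r13o_68, r7o_5, r5o_2, (.st (nat_lit 3639) (nat_lit 3640) (.st (nat_lit 1819) (nat_lit 3640) (.st (nat_lit 1820) (nat_lit 3640) (.st (nat_lit 0) (nat_lit 3640) .nil))))⟩,
  ⟨r13o_68, r7o_5, r5o_4, (.st (nat_lit 727) (nat_lit 728) (.st (nat_lit 363) (nat_lit 728) (.st (nat_lit 364) (nat_lit 728) (.st (nat_lit 0) (nat_lit 728) .nil))))⟩,
  ⟨r13o_68, r7o_5, r5o_6, (.st (nat_lit 2183) (nat_lit 2184) (.st (nat_lit 1091) (nat_lit 2184) (.st (nat_lit 1092) (nat_lit 2184) (.st (nat_lit 0) (nat_lit 2184) .nil))))⟩,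
  ⟨r13o_68, r7o_5, r5o_8, (.st (nat_lit 3639) (nat_lit 3640) (.st (nat_lit 1819) (nat_lit 3640) (.st (nat_lit 1820) (nat_lit 3640) (.st (nat_lit 0) (nat_lit 3640) .nil))))⟩,
  ⟨r13o_68, r7o_9, r5o_0, (.st (nat_lit 545) (nat_lit 546) (.st (nat_lit 0) (nat_lit 546) .nil))⟩,
  ⟨r13o_68, r7o_9, r5o_2, (.st (nat_lit 2729) (nat_lit 2730) (.st (nat_lit 0) (nat_lit 2730) .nil))⟩,
  ⟨r13o_68, r7o_9, r5o_4, (.st (nat_lit 545) (nat_lit 546) (.st (nat_lit 0) (nat_lit 546) .nil))⟩,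
  ⟨r13o_68, r7o_9, r5o_6, (.st (nat_lit 545) (nat_lit 546) (.st (nat_lit 0) (nat_lit 546) .nil))⟩,
  ⟨r13o_68, r7o_9, r5o_8, (.st (nat_lit 2729) (nat_lit 2730) (.st (nat_lit 0) (nat_lit 2730) .nil))⟩,
  ⟨r13o_68, r7o_11, r5o_1, (.st (nat_lit 272) (nat_lit 546) (.st (nat_lit 273) (nat_lit 546) .nil))⟩,
  ⟨r13o_68, r7o_11, r5o_2, (.st (nat_lit 1364) (nat_lit 2730) (.st (nat_lit 1365) (nat_lit 2730) .nil))⟩,
  ⟨r13o_68, r7o_11, r5o_4, (.st (nat_lit 272) (nat_lit 546) (.st (nat_lit 273) (nat_lit 546) .nil))⟩,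
  ⟨r13o_68, r7o_11, r5o_6, (.st (nat_lit 272) (nat_lit 546) (.st (nat_lit 273) (nat_lit 546) .nil))⟩,
  ⟨r13o_68, r7o_11, r5o_8, (.st (nat_lit 1364) (nat_lit 2730) (.st (nat_lit 1365) (nat_lit 2730) .nil))⟩,
  ⟨r13o_68, r7o_13, r5o_0, (.st (nat_lit 181) (nat_lit 182) (.st (nat_lit 0) (nat_lit 182) .nil))⟩,
  ⟨r13o_68, r7o_13, r5o_1, (.st (nat_lit 90) (nat_lit 182) (.st (nat_lit 91) (nat_lit 182) .nil))⟩,
  ⟨r13o_68, r7o_13, r5o_2, (.st (nat_lit 454) (nat_lit 455) (.st (nat_lit 0) (nat_lit 455) .nil))⟩,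
  ⟨r13o_68, r7o_13, r5o_4, (.st (nat_lit 90) (nat_lit 91) (.st (nat_lit 0) (nat_lit 91) .nil))⟩,
  ⟨r13o_68, r7o_13, r5o_6, (.st (nat_lit 272) (nat_lit 273) (.st (nat_lit 0) (nat_lit 273) .nil))⟩,
  ⟨r13o_68, r7o_13, r5o_8, (.st (nat_lit 454) (nat_lit 455) (.st (nat_lit 0) (nat_lit 455) .nil))⟩,
  ⟨r13o_68, r7o_16, r5o_0, (.st (nat_lit 363) (nat_lit 728) (.st (nat_lit 364) (nat_lit 728) .nil))⟩,
  ⟨r13o_68, r7o_16, r5o_2, (.st (nat_lit 139) (nat_lit 280) (.st (nat_lit 140) (nat_lit 280) .nil))⟩,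
  ⟨r13o_68, r7o_16, r5o_4, (.st (nat_lit 363) (nat_lit 728) (.st (nat_lit 364) (nat_lit 728) .nil))⟩,
  ⟨r13o_68, r7o_16, r5o_6, (.st (nat_lit 1091) (nat_lit 2184) (.st (nat_lit 1092) (nat_lit 2184) .nil))⟩,
  ⟨r13o_68, r7o_16, r5o_8, (.st (nat_lit 1819) (nat_lit 3640) (.st (nat_lit 1820) (nat_lit 3640) .nil))⟩,
  ⟨r13o_68, r7o_17, r5o_0, (.st (nat_lit 727) (nat_lit 728) (.st (nat_lit 0) (nat_lit 728) .nil))⟩,
  ⟨r13o_68, r7o_17, r5o_2, (.st (nat_lit 279) (nat_lit 280) (.st (nat_lit 0) (nat_lit 280) .nil))⟩,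
  ⟨r13o_68, r7o_17, r5o_4, (.st (nat_lit 727) (nat_lit 728) (.st (nat_lit 0) (nat_lit 728) .nil))⟩,
  ⟨r13o_68, r7o_17, r5o_6, (.st (nat_lit 2183) (nat_lit 2184) (.st (nat_lit 0) (nat_lit 2184) .nil))⟩,
  ⟨r13o_68, r7o_17, r5o_8, (.st (nat_lit 3639) (nat_lit 3640) (.st (nat_lit 0) (nat_lit 3640) .nil))⟩,
  ⟨r13o_68, r7o_18, r5o_2, (.st (nat_lit 17) (nat_lit 35) .nil)⟩,
  ⟨r13o_68, r7o_18, r5o_3, (.st (nat_lit 17) (nat_lit 35) .nil)⟩,
  ⟨r13o_68, r7o_21, r5o_0, (.st (nat_lit 545) (nat_lit 546) (.st (nat_lit 0) (nat_lit 546) .nil))⟩,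
  ⟨r13o_68, r7o_21, r5o_2, (.st (nat_lit 2729) (nat_lit 2730) (.st (nat_lit 0) (nat_lit 2730) .nil))⟩,
  ⟨r13o_68, r7o_21, r5o_4, (.st (nat_lit 545) (nat_lit 546) (.st (nat_lit 0) (nat_lit 546) .nil))⟩,
  ⟨r13o_68, r7o_21, r5o_6, (.st (nat_lit 545) (nat_lit 546) (.st (nat_lit 0) (nat_lit 546) .nil))⟩,
  ⟨r13o_68, r7o_21, r5o_8, (.st (nat_lit 2729) (nat_lit 2730) (.st (nat_lit 0) (nat_lit 2730) .nil))⟩,
  ⟨r13o_68, r7o_23, r5o_1, (.st (nat_lit 272) (nat_lit 546) (.st (nat_lit 273) (nat_lit 546) .nil))⟩,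
  ⟨r13o_68, r7o_23, r5o_2, (.st (nat_lit 1364) (nat_lit 2730) (.st (nat_lit 1365) (nat_lit 2730) .nil))⟩,
  ⟨r13o_68, r7o_23, r5o_4, (.st (nat_lit 272) (nat_lit 546) (.st (nat_lit 273) (nat_lit 546) .nil))⟩,
  ⟨r13o_68, r7o_23, r5o_6, (.st (nat_lit 272) (nat_lit 546) (.st (nat_lit 273) (nat_lit 546) .nil))⟩,
  ⟨r13o_68, r7o_23, r5o_8, (.st (nat_lit 1364) (nat_lit 2730) (.st (nat_lit 1365) (nat_lit 2730) .nil))⟩,
  ⟨r13o_68, r7o_24, r5o_0, (.st (nat_lit 363) (nat_lit 728) (.st (nat_lit 364) (nat_lit 728) .nil))⟩,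
  ⟨r13o_68, r7o_24, r5o_2, (.st (nat_lit 1819) (nat_lit 3640) (.st (nat_lit 1820) (nat_lit 3640) .nil))⟩,
  ⟨r13o_68, r7o_24, r5o_4, (.st (nat_lit 363) (nat_lit 728) (.st (nat_lit 364) (nat_lit 728) .nil))⟩,
  ⟨r13o_68, r7o_24, r5o_6, (.st (nat_lit 1091) (nat_lit 2184) (.st (nat_lit 1092) (nat_lit 2184) .nil))⟩,
  ⟨r13o_68, r7o_24, r5o_8, (.st (nat_lit 1819) (nat_lit 3640) (.st (nat_lit 1820) (nat_lit 3640) .nil))⟩,
  ⟨r13o_68, r7o_25, r5o_0, (.st (nat_lit 727) (nat_lit 728) (.st (nat_lit 0) (nat_lit 728) .nil))⟩,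
  ⟨r13o_68, r7o_25, r5o_2, (.st (nat_lit 3639) (nat_lit 3640) (.st (nat_lit 0) (nat_lit 3640) .nil))⟩,
  ⟨r13o_68, r7o_25, r5o_4, (.st (nat_lit 727) (nat_lit 728) (.st (nat_lit 0) (nat_lit 728) .nil))⟩,
  ⟨r13o_68, r7o_25, r5o_6, (.st (nat_lit 2183) (nat_lit 2184) (.st (nat_lit 0) (nat_lit 2184) .nil))⟩,
  ⟨r13o_68, r7o_25, r5o_8, (.st (nat_lit 3639) (nat_lit 3640) (.st (nat_lit 0) (nat_lit 3640) .nil))⟩]

/-- entries -/
def EA69 : List E3 := [⟨r13o_69, r7o_1, r5o_0, (.st (nat_lit 90) (nat_lit 182) (.st (nat_lit 91) (nat_lit 182) .nil))⟩,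
  ⟨r13o_69, r7o_1, r5o_3, (.st (nat_lit 454) (nat_lit 910) (.st (nat_lit 455) (nat_lit 910) .nil))⟩,
  ⟨r13o_69, r7o_1, r5o_5, (.st (nat_lit 272) (nat_lit 546) (.st (nat_lit 273) (nat_lit 546) .nil))⟩,
  ⟨r13o_69, r7o_1, r5o_7, (.st (nat_lit 90) (nat_lit 182) (.st (nat_lit 91) (nat_lit 182) .nil))⟩,
  ⟨r13o_69, r7o_1, r5o_9, (.st (nat_lit 454) (nat_lit 910) (.st (nat_lit 455) (nat_lit 910) .nil))⟩,
  ⟨r13o_69, r7o_2, r5o_1, (.st (nat_lit 181) (nat_lit 182) (.st (nat_lit 0) (nat_lit 182) .nil))⟩,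
  ⟨r13o_69, r7o_2, r5o_3, (.st (nat_lit 909) (nat_lit 910) (.st (nat_lit 0) (nat_lit 910) .nil))⟩,
  ⟨r13o_69, r7o_2, r5o_5, (.st (nat_lit 545) (nat_lit 546) (.st (nat_lit 0) (nat_lit 546) .nil))⟩,
  ⟨r13o_69, r7o_2, r5o_7, (.st (nat_lit 181) (nat_lit 182) (.st (nat_lit 0) (nat_lit 182) .nil))⟩,
  ⟨r13o_69, r7o_2, r5o_9, (.st (nat_lit 909) (nat_lit 910) (.st (nat_lit 0) (nat_lit 910) .nil))⟩,
  ⟨r13o_69, r7o_6, r5o_1, (.st (nat_lit 727) (nat_lit 728) (.st (nat_lit 0) (nat_lit 728) .nil))⟩,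
  ⟨r13o_69, r7o_6, r5o_3, (.st (nat_lit 3639) (nat_lit 3640) (.st (nat_lit 0) (nat_lit 3640) .nil))⟩,
  ⟨r13o_69, r7o_6, r5o_5, (.st (nat_lit 2183) (nat_lit 2184) (.st (nat_lit 0) (nat_lit 2184) .nil))⟩,
  ⟨r13o_69, r7o_6, r5o_7, (.st (nat_lit 727) (nat_lit 728) (.st (nat_lit 0) (nat_lit 728) .nil))⟩,
  ⟨r13o_69, r7o_6, r5o_9, (.st (nat_lit 3639) (nat_lit 3640) (.st (nat_lit 0) (nat_lit 3640) .nil))⟩,
  ⟨r13o_69, r7o_7, r5o_1, (.st (nat_lit 363) (nat_lit 728) (.st (nat_lit 364) (nat_lit 728) .nil))⟩,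
  ⟨r13o_69, r7o_7, r5o_3, (.st (nat_lit 1819) (nat_lit 3640) (.st (nat_lit 1820) (nat_lit 3640) .nil))⟩,
  ⟨r13o_69, r7o_7, r5o_5, (.st (nat_lit 1091) (nat_lit 2184) (.st (nat_lit 1092) (nat_lit 2184) .nil))⟩,
  ⟨r13o_69, r7o_7, r5o_7, (.st (nat_lit 363) (nat_lit 728) (.st (nat_lit 364) (nat_lit 728) .nil))⟩,
  ⟨r13o_69, r7o_7, r5o_9, (.st (nat_lit 1819) (nat_lit 3640) (.st (nat_lit 1820) (nat_lit 3640) .nil))⟩,
  ⟨r13o_69, r7o_8, r5o_0, (.st (nat_lit 272) (nat_lit 546) (.st (nat_lit 273) (nat_lit 546) .nil))⟩,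
  ⟨r13o_69, r7o_8, r5o_3, (.st (nat_lit 1364) (nat_lit 2730) (.st (nat_lit 1365) (nat_lit 2730) .nil))⟩,
  ⟨r13o_69, r7o_8, r5o_5, (.st (nat_lit 272) (nat_lit 546) (.st (nat_lit 89) (nat_lit 546) (.st (nat_lit 456) (nat_lit 546) (.st (nat_lit 273) (nat_lit 546) .nil))))⟩,
  ⟨r13o_69, r7o_8, r5o_7, (.st (nat_lit 272) (nat_lit 546) (.st (nat_lit 273) (nat_lit 546) .nil))⟩,
  ⟨r13o_69, r7o_8, r5o_9, (.st (nat_lit 1364) (nat_lit 2730) (.st (nat_lit 1363) (nat_lit 2730) (.st (nat_lit 1366) (nat_lit 2730) (.st (nat_lit 1365) (nat_lit 2730) .nil))))⟩,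
  ⟨r13o_69, r7o_10, r5o_1, (.st (nat_lit 545) (nat_lit 546) (.st (nat_lit 0) (nat_lit 546) .nil))⟩,
  ⟨r13o_69, r7o_10, r5o_3, (.st (nat_lit 2729) (nat_lit 2730) (.st (nat_lit 0) (nat_lit 2730) .nil))⟩,
  ⟨r13o_69, r7o_10, r5o_5, (.st (nat_lit 545) (nat_lit 546) (.st (nat_lit 362) (nat_lit 546) (.st (nat_lit 183) (nat_lit 546) (.st (nat_lit 0) (nat_lit 546) .nil))))⟩,
  ⟨r13o_69, r7o_10, r5o_7, (.st (nat_lit 545) (nat_lit 546) (.st (nat_lit 0) (nat_lit 546) .nil))⟩,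
  ⟨r13o_69, r7o_10, r5o_9, (.st (nat_lit 2729) (nat_lit 2730) (.st (nat_lit 2728) (nat_lit 2730) (.st (nat_lit 1) (nat_lit 2730) (.st (nat_lit 0) (nat_lit 2730) .nil))))⟩,
  ⟨r13o_69, r7o_14, r5o_1, (.st (nat_lit 727) (nat_lit 728) (.st (nat_lit 0) (nat_lit 728) .nil))⟩,
  ⟨r13o_69, r7o_14, r5o_3, (.st (nat_lit 3639) (nat_lit 3640) (.st (nat_lit 0) (nat_lit 3640) .nil))⟩,
  ⟨r13o_69, r7o_14, r5o_5, (.st (nat_lit 2183) (nat_lit 2184) (.st (nat_lit 0) (nat_lit 2184) .nil))⟩,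
  ⟨r13o_69, r7o_14, r5o_7, (.st (nat_lit 727) (nat_lit 728) (.st (nat_lit 0) (nat_lit 728) .nil))⟩,
  ⟨r13o_69, r7o_14, r5o_9, (.st (nat_lit 3639) (nat_lit 3640) (.st (nat_lit 0) (nat_lit 3640) .nil))⟩,
  ⟨r13o_69, r7o_15, r5o_1, (.st (nat_lit 363) (nat_lit 728) (.st (nat_lit 364) (nat_lit 728) .nil))⟩,
  ⟨r13o_69, r7o_15, r5o_3, (.st (nat_lit 1819) (nat_lit 3640) (.st (nat_lit 1820) (nat_lit 3640) .nil))⟩,
  ⟨r13o_69, r7o_15, r5o_5, (.st (nat_lit 1091) (nat_lit 2184) (.st (nat_lit 1092) (nat_lit 2184) .nil))⟩,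
  ⟨r13o_69, r7o_15, r5o_7, (.st (nat_lit 363) (nat_lit 728) (.st (nat_lit 364) (nat_lit 728) .nil))⟩,
  ⟨r13o_69, r7o_15, r5o_9, (.st (nat_lit 1819) (nat_lit 3640) (.st (nat_lit 1820) (nat_lit 3640) .nil))⟩,
  ⟨r13o_69, r7o_18, r5o_0, (.st (nat_lit 90) (nat_lit 182) (.st (nat_lit 91) (nat_lit 182) .nil))⟩,
  ⟨r13o_69, r7o_18, r5o_1, (.st (nat_lit 181) (nat_lit 182) (.st (nat_lit 0) (nat_lit 182) .nil))⟩,
  ⟨r13o_69, r7o_18, r5o_2, (.st (nat_lit 17) (nat_lit 35) .nil)⟩,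
  ⟨r13o_69, r7o_18, r5o_3, (.st (nat_lit 34) (nat_lit 35) (.st (nat_lit 17) (nat_lit 35) (.st (nat_lit 0) (nat_lit 35) .nil)))⟩,
  ⟨r13o_69, r7o_18, r5o_5, (.st (nat_lit 272) (nat_lit 273) (.st (nat_lit 0) (nat_lit 273) .nil))⟩,
  ⟨r13o_69, r7o_18, r5o_7, (.st (nat_lit 90) (nat_lit 91) (.st (nat_lit 0) (nat_lit 91) .nil))⟩,
  ⟨r13o_69, r7o_18, r5o_9, (.st (nat_lit 454) (nat_lit 455) (.st (nat_lit 0) (nat_lit 455) .nil))⟩,
  ⟨r13o_69, r7o_20, r5o_0, (.st (nat_lit 272) (nat_lit 546) (.st (nat_lit 273) (nat_lit 546) .nil))⟩,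
  ⟨r13o_69, r7o_20, r5o_3, (.st (nat_lit 1364) (nat_lit 2730) (.st (nat_lit 1365) (nat_lit 2730) .nil))⟩,
  ⟨r13o_69, r7o_20, r5o_5, (.st (nat_lit 272) (nat_lit 546) (.st (nat_lit 273) (nat_lit 546) .nil))⟩,
  ⟨r13o_69, r7o_20, r5o_7, (.st (nat_lit 20) (nat_lit 42) (.st (nat_lit 21) (nat_lit 42) .nil))⟩,
  ⟨r13o_69, r7o_20, r5o_9, (.st (nat_lit 1364) (nat_lit 2730) (.st (nat_lit 1365) (nat_lit 2730) .nil))⟩,
  ⟨r13o_69, r7o_22, r5o_1, (.st (nat_lit 545) (nat_lit 546) (.st (nat_lit 0) (nat_lit 546) .nil))⟩,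
  ⟨r13o_69, r7o_22, r5o_3, (.st (nat_lit 2729) (nat_lit 2730) (.st (nat_lit 0) (nat_lit 2730) .nil))⟩,
  ⟨r13o_69, r7o_22, r5o_5, (.st (nat_lit 545) (nat_lit 546) (.st (nat_lit 0) (nat_lit 546) .nil))⟩,
  ⟨r13o_69, r7o_22, r5o_7, (.st (nat_lit 41) (nat_lit 42) (.st (nat_lit 0) (nat_lit 42) .nil))⟩,
  ⟨r13o_69, r7o_22, r5o_9, (.st (nat_lit 2729) (nat_lit 2730) (.st (nat_lit 0) (nat_lit 2730) .nil))⟩,
  ⟨r13o_69, r7o_26, r5o_1, (.st (nat_lit 55) (nat_lit 56) (.st (nat_lit 27) (nat_lit 56) (.st (nat_lit 28) (nat_lit 56) (.st (nat_lit 0) (nat_lit 56) .nil))))⟩,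
  ⟨r13o_69, r7o_26, r5o_3, (.st (nat_lit 3639) (nat_lit 3640) (.st (nat_lit 1819) (nat_lit 3640) (.st (nat_lit 1820) (nat_lit 3640) (.st (nat_lit 0) (nat_lit 3640) .nil))))⟩,
  ⟨r13o_69, r7o_26, r5o_5, (.st (nat_lit 167) (nat_lit 168) (.st (nat_lit 83) (nat_lit 168) (.st (nat_lit 84) (nat_lit 168) (.st (nat_lit 0) (nat_lit 168) .nil))))⟩,
  ⟨r13o_69, r7o_26, r5o_7, (.st (nat_lit 55) (nat_lit 56) (.st (nat_lit 27) (nat_lit 56) (.st (nat_lit 28) (nat_lit 56) (.st (nat_lit 0) (nat_lit 56) .nil))))⟩,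
  ⟨r13o_69, r7o_26, r5o_9, (.st (nat_lit 3639) (nat_lit 3640) (.st (nat_lit 1819) (nat_lit 3640) (.st (nat_lit 1820) (nat_lit 3640) (.st (nat_lit 0) (nat_lit 3640) .nil))))⟩,
  ⟨r13o_69, r7o_27, r5o_2, (.st (nat_lit 447) (nat_lit 455) (.st (nat_lit 7) (nat_lit 455) .nil))⟩]

/-- entries -/
def EA70 : List E3 := [⟨r13o_70, r7o_18, r5o_2, (.st (nat_lit 2) (nat_lit 5) .nil)⟩,
  ⟨r13o_70, r7o_18, r5o_3, (.st (nat_lit 2) (nat_lit 5) .nil)⟩]

/-- entries -/
def EA71 : List E3 := [⟨r13o_71, r7o_18, r5o_2, (.st (nat_lit 17) (nat_lit 35) .nil)⟩,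
  ⟨r13o_71, r7o_18, r5o_3, (.st (nat_lit 17) (nat_lit 35) .nil)⟩,
  ⟨r13o_71, r7o_21, r5o_6, (.st (nat_lit 271) (nat_lit 546) (.st (nat_lit 274) (nat_lit 546) .nil))⟩,
  ⟨r13o_71, r7o_21, r5o_7, (.st (nat_lit 19) (nat_lit 42) (.st (nat_lit 22) (nat_lit 42) .nil))⟩,
  ⟨r13o_71, r7o_23, r5o_6, (.st (nat_lit 544) (nat_lit 546) (.st (nat_lit 1) (nat_lit 546) .nil))⟩,
  ⟨r13o_71, r7o_23, r5o_7, (.st (nat_lit 40) (nat_lit 42) (.st (nat_lit 1) (nat_lit 42) .nil))⟩]

/-- entries -/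
def EA72 : List E3 := [⟨r13o_72, r7o_27, r5o_8, (.st (nat_lit 17) (nat_lit 35) .nil)⟩,
  ⟨r13o_72, r7o_27, r5o_9, (.st (nat_lit 17) (nat_lit 35) .nil)⟩]

/-- entries -/
def EA73 : List E3 := [⟨r13o_73, r7o_24, r5o_8, (.st (nat_lit 276) (nat_lit 280) (.st (nat_lit 3) (nat_lit 280) .nil))⟩,
  ⟨r13o_73, r7o_24, r5o_9, (.st (nat_lit 277) (nat_lit 280) (.st (nat_lit 2) (nat_lit 280) .nil))⟩,
  ⟨r13o_73, r7o_25, r5o_8, (.st (nat_lit 143) (nat_lit 280) (.st (nat_lit 136) (nat_lit 280) .nil))⟩,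
  ⟨r13o_73, r7o_25, r5o_9, (.st (nat_lit 137) (nat_lit 280) (.st (nat_lit 142) (nat_lit 280) .nil))⟩,
  ⟨r13o_73, r7o_27, r5o_8, (.st (nat_lit 17) (nat_lit 35) .nil)⟩,
  ⟨r13o_73, r7o_27, r5o_9, (.st (nat_lit 17) (nat_lit 35) .nil)⟩]

/-- entries -/
def EA74 : List E3 := [⟨r13o_74, r7o_1, r5o_0, (.st (nat_lit 181) (nat_lit 182) (.st (nat_lit 0) (nat_lit 182) .nil))⟩,
  ⟨r13o_74, r7o_1, r5o_2, (.st (nat_lit 909) (nat_lit 910) (.st (nat_lit 0) (nat_lit 910) .nil))⟩,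
  ⟨r13o_74, r7o_1, r5o_4, (.st (nat_lit 181) (nat_lit 182) (.st (nat_lit 0) (nat_lit 182) .nil))⟩,
  ⟨r13o_74, r7o_1, r5o_6, (.st (nat_lit 545) (nat_lit 546) (.st (nat_lit 0) (nat_lit 546) .nil))⟩,
  ⟨r13o_74, r7o_1, r5o_8, (.st (nat_lit 909) (nat_lit 910) (.st (nat_lit 0) (nat_lit 910) .nil))⟩,
  ⟨r13o_74, r7o_2, r5o_1, (.st (nat_lit 90) (nat_lit 182) (.st (nat_lit 91) (nat_lit 182) .nil))⟩,
  ⟨r13o_74, r7o_2, r5o_2, (.st (nat_lit 454) (nat_lit 910) (.st (nat_lit 455) (nat_lit 910) .nil))⟩,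
  ⟨r13o_74, r7o_2, r5o_4, (.st (nat_lit 90) (nat_lit 182) (.st (nat_lit 91) (nat_lit 182) .nil))⟩,
  ⟨r13o_74, r7o_2, r5o_6, (.st (nat_lit 272) (nat_lit 546) (.st (nat_lit 273) (nat_lit 546) .nil))⟩,
  ⟨r13o_74, r7o_2, r5o_8, (.st (nat_lit 454) (nat_lit 910) (.st (nat_lit 455) (nat_lit 910) .nil))⟩,
  ⟨r13o_74, r7o_5, r5o_0, (.st (nat_lit 55) (nat_lit 56) (.st (nat_lit 27) (nat_lit 56) (.st (nat_lit 28) (nat_lit 56) (.st (nat_lit 0) (nat_lit 56) .nil))))⟩,
  ⟨r13o_74, r7o_5, r5o_2, (.st (nat_lit 279) (nat_lit 280) (.st (nat_lit 139) (nat_lit 280) (.st (nat_lit 140) (nat_lit 280) (.st (nat_lit 0) (nat_lit 280) .nil))))⟩,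
  ⟨r13o_74, r7o_5, r5o_4, (.st (nat_lit 55) (nat_lit 56) (.st (nat_lit 27) (nat_lit 56) (.st (nat_lit 28) (nat_lit 56) (.st (nat_lit 0) (nat_lit 56) .nil))))⟩,
  ⟨r13o_74, r7o_5, r5o_6, (.st (nat_lit 167) (nat_lit 168) (.st (nat_lit 83) (nat_lit 168) (.st (nat_lit 84) (nat_lit 168) (.st (nat_lit 0) (nat_lit 168) .nil))))⟩,
  ⟨r13o_74, r7o_5, r5o_8, (.st (nat_lit 279) (nat_lit 280) (.st (nat_lit 139) (nat_lit 280) (.st (nat_lit 140) (nat_lit 280) (.st (nat_lit 0) (nat_lit 280) .nil))))⟩,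
  ⟨r13o_74, r7o_9, r5o_0, (.st (nat_lit 545) (nat_lit 546) (.st (nat_lit 0) (nat_lit 546) .nil))⟩,
  ⟨r13o_74, r7o_9, r5o_2, (.st (nat_lit 2729) (nat_lit 2730) (.st (nat_lit 0) (nat_lit 2730) .nil))⟩,
  ⟨r13o_74, r7o_9, r5o_4, (.st (nat_lit 545) (nat_lit 546) (.st (nat_lit 0) (nat_lit 546) .nil))⟩,
  ⟨r13o_74, r7o_9, r5o_6, (.st (nat_lit 545) (nat_lit 546) (.st (nat_lit 0) (nat_lit 546) .nil))⟩,
  ⟨r13o_74, r7o_9, r5o_8, (.st (nat_lit 2729) (nat_lit 2730) (.st (nat_lit 0) (nat_lit 2730) .nil))⟩,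
  ⟨r13o_74, r7o_11, r5o_1, (.st (nat_lit 272) (nat_lit 546) (.st (nat_lit 273) (nat_lit 546) .nil))⟩,
  ⟨r13o_74, r7o_11, r5o_2, (.st (nat_lit 1364) (nat_lit 2730) (.st (nat_lit 1365) (nat_lit 2730) .nil))⟩,
  ⟨r13o_74, r7o_11, r5o_4, (.st (nat_lit 272) (nat_lit 546) (.st (nat_lit 273) (nat_lit 546) .nil))⟩,
  ⟨r13o_74, r7o_11, r5o_6, (.st (nat_lit 272) (nat_lit 546) (.st (nat_lit 273) (nat_lit 546) .nil))⟩,
  ⟨r13o_74, r7o_11, r5o_8, (.st (nat_lit 1364) (nat_lit 2730) (.st (nat_lit 1365) (nat_lit 2730) .nil))⟩,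
  ⟨r13o_74, r7o_13, r5o_0, (.st (nat_lit 181) (nat_lit 182) (.st (nat_lit 0) (nat_lit 182) .nil))⟩,
  ⟨r13o_74, r7o_13, r5o_1, (.st (nat_lit 90) (nat_lit 182) (.st (nat_lit 91) (nat_lit 182) .nil))⟩,
  ⟨r13o_74, r7o_13, r5o_2, (.st (nat_lit 454) (nat_lit 455) (.st (nat_lit 0) (nat_lit 455) .nil))⟩,
  ⟨r13o_74, r7o_13, r5o_4, (.st (nat_lit 90) (nat_lit 91) (.st (nat_lit 0) (nat_lit 91) .nil))⟩,
  ⟨r13o_74, r7o_13, r5o_6, (.st (nat_lit 272) (nat_lit 273) (.st (nat_lit 0) (nat_lit 273) .nil))⟩,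
  ⟨r13o_74, r7o_13, r5o_8, (.st (nat_lit 454) (nat_lit 455) (.st (nat_lit 0) (nat_lit 455) .nil))⟩,
  ⟨r13o_74, r7o_16, r5o_0, (.st (nat_lit 363) (nat_lit 728) (.st (nat_lit 364) (nat_lit 728) .nil))⟩,
  ⟨r13o_74, r7o_16, r5o_2, (.st (nat_lit 1819) (nat_lit 3640) (.st (nat_lit 1820) (nat_lit 3640) .nil))⟩,
  ⟨r13o_74, r7o_16, r5o_4, (.st (nat_lit 363) (nat_lit 728) (.st (nat_lit 364) (nat_lit 728) .nil))⟩,
  ⟨r13o_74, r7o_16, r5o_6, (.st (nat_lit 1091) (nat_lit 2184) (.st (nat_lit 1092) (nat_lit 2184) .nil))⟩,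
  ⟨r13o_74, r7o_16, r5o_8, (.st (nat_lit 1819) (nat_lit 3640) (.st (nat_lit 1820) (nat_lit 3640) .nil))⟩,
  ⟨r13o_74, r7o_17, r5o_0, (.st (nat_lit 727) (nat_lit 728) (.st (nat_lit 0) (nat_lit 728) .nil))⟩,
  ⟨r13o_74, r7o_17, r5o_2, (.st (nat_lit 3639) (nat_lit 3640) (.st (nat_lit 0) (nat_lit 3640) .nil))⟩,
  ⟨r13o_74, r7o_17, r5o_4, (.st (nat_lit 727) (nat_lit 728) (.st (nat_lit 0) (nat_lit 728) .nil))⟩,
  ⟨r13o_74, r7o_17, r5o_6, (.st (nat_lit 2183) (nat_lit 2184) (.st (nat_lit 0) (nat_lit 2184) .nil))⟩,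
  ⟨r13o_74, r7o_17, r5o_8, (.st (nat_lit 3639) (nat_lit 3640) (.st (nat_lit 0) (nat_lit 3640) .nil))⟩,
  ⟨r13o_74, r7o_21, r5o_0, (.st (nat_lit 545) (nat_lit 546) (.st (nat_lit 0) (nat_lit 546) .nil))⟩,
  ⟨r13o_74, r7o_21, r5o_2, (.st (nat_lit 2729) (nat_lit 2730) (.st (nat_lit 0) (nat_lit 2730) .nil))⟩,
  ⟨r13o_74, r7o_21, r5o_4, (.st (nat_lit 545) (nat_lit 546) (.st (nat_lit 0) (nat_lit 546) .nil))⟩,
  ⟨r13o_74, r7o_21, r5o_6, (.st (nat_lit 545) (nat_lit 546) (.st (nat_lit 0) (nat_lit 546) .nil))⟩,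
  ⟨r13o_74, r7o_21, r5o_8, (.st (nat_lit 2729) (nat_lit 2730) (.st (nat_lit 0) (nat_lit 2730) .nil))⟩,
  ⟨r13o_74, r7o_23, r5o_1, (.st (nat_lit 272) (nat_lit 546) (.st (nat_lit 273) (nat_lit 546) .nil))⟩,
  ⟨r13o_74, r7o_23, r5o_2, (.st (nat_lit 1364) (nat_lit 2730) (.st (nat_lit 1365) (nat_lit 2730) .nil))⟩,
  ⟨r13o_74, r7o_23, r5o_4, (.st (nat_lit 272) (nat_lit 546) (.st (nat_lit 273) (nat_lit 546) .nil))⟩,
  ⟨r13o_74, r7o_23, r5o_6, (.st (nat_lit 272) (nat_lit 546) (.st (nat_lit 273) (nat_lit 546) .nil))⟩,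
  ⟨r13o_74, r7o_23, r5o_8, (.st (nat_lit 1364) (nat_lit 2730) (.st (nat_lit 1365) (nat_lit 2730) .nil))⟩,
  ⟨r13o_74, r7o_24, r5o_0, (.st (nat_lit 27) (nat_lit 56) (.st (nat_lit 28) (nat_lit 56) .nil))⟩,
  ⟨r13o_74, r7o_24, r5o_2, (.st (nat_lit 139) (nat_lit 280) (.st (nat_lit 140) (nat_lit 280) .nil))⟩,
  ⟨r13o_74, r7o_24, r5o_4, (.st (nat_lit 27) (nat_lit 56) (.st (nat_lit 28) (nat_lit 56) .nil))⟩,
  ⟨r13o_74, r7o_24, r5o_6, (.st (nat_lit 83) (nat_lit 168) (.st (nat_lit 84) (nat_lit 168) .nil))⟩,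
  ⟨r13o_74, r7o_24, r5o_8, (.st (nat_lit 139) (nat_lit 280) (.st (nat_lit 140) (nat_lit 280) .nil))⟩,
  ⟨r13o_74, r7o_25, r5o_0, (.st (nat_lit 55) (nat_lit 56) (.st (nat_lit 0) (nat_lit 56) .nil))⟩,
  ⟨r13o_74, r7o_25, r5o_2, (.st (nat_lit 279) (nat_lit 280) (.st (nat_lit 0) (nat_lit 280) .nil))⟩,
  ⟨r13o_74, r7o_25, r5o_4, (.st (nat_lit 55) (nat_lit 56) (.st (nat_lit 0) (nat_lit 56) .nil))⟩,
  ⟨r13o_74, r7o_25, r5o_6, (.st (nat_lit 167) (nat_lit 168) (.st (nat_lit 0) (nat_lit 168) .nil))⟩,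
  ⟨r13o_74, r7o_25, r5o_8, (.st (nat_lit 279) (nat_lit 280) (.st (nat_lit 0) (nat_lit 280) .nil))⟩,
  ⟨r13o_74, r7o_27, r5o_2, (.st (nat_lit 17) (nat_lit 35) .nil)⟩,
  ⟨r13o_74, r7o_27, r5o_3, (.st (nat_lit 17) (nat_lit 35) .nil)⟩,
  ⟨r13o_74, r7o_27, r5o_4, (.st (nat_lit 3) (nat_lit 7) .nil)⟩,
  ⟨r13o_74, r7o_27, r5o_5, (.st (nat_lit 10) (nat_lit 21) .nil)⟩,
  ⟨r13o_74, r7o_27, r5o_6, (.st (nat_lit 10) (nat_lit 21) .nil)⟩,
  ⟨r13o_74, r7o_27, r5o_7, (.st (nat_lit 3) (nat_lit 7) .nil)⟩,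
  ⟨r13o_74, r7o_27, r5o_8, (.st (nat_lit 17) (nat_lit 35) .nil)⟩,
  ⟨r13o_74, r7o_27, r5o_9, (.st (nat_lit 17) (nat_lit 35) .nil)⟩]

/-- entries -/
def EA75 : List E3 := [⟨r13o_75, r7o_1, r5o_0, (.st (nat_lit 90) (nat_lit 182) (.st (nat_lit 91) (nat_lit 182) .nil))⟩,
  ⟨r13o_75, r7o_1, r5o_3, (.st (nat_lit 454) (nat_lit 910) (.st (nat_lit 455) (nat_lit 910) .nil))⟩,
  ⟨r13o_75, r7o_1, r5o_5, (.st (nat_lit 272) (nat_lit 546) (.st (nat_lit 273) (nat_lit 546) .nil))⟩,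
  ⟨r13o_75, r7o_1, r5o_7, (.st (nat_lit 90) (nat_lit 182) (.st (nat_lit 91) (nat_lit 182) .nil))⟩,
  ⟨r13o_75, r7o_1, r5o_9, (.st (nat_lit 454) (nat_lit 910) (.st (nat_lit 455) (nat_lit 910) .nil))⟩,
  ⟨r13o_75, r7o_2, r5o_1, (.st (nat_lit 181) (nat_lit 182) (.st (nat_lit 0) (nat_lit 182) .nil))⟩,
  ⟨r13o_75, r7o_2, r5o_3, (.st (nat_lit 909) (nat_lit 910) (.st (nat_lit 0) (nat_lit 910) .nil))⟩,
  ⟨r13o_75, r7o_2, r5o_5, (.st (nat_lit 545) (nat_lit 546) (.st (nat_lit 0) (nat_lit 546) .nil))⟩,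
  ⟨r13o_75, r7o_2, r5o_7, (.st (nat_lit 181) (nat_lit 182) (.st (nat_lit 0) (nat_lit 182) .nil))⟩,
  ⟨r13o_75, r7o_2, r5o_9, (.st (nat_lit 909) (nat_lit 910) (.st (nat_lit 0) (nat_lit 910) .nil))⟩,
  ⟨r13o_75, r7o_6, r5o_1, (.st (nat_lit 727) (nat_lit 728) (.st (nat_lit 0) (nat_lit 728) .nil))⟩,
  ⟨r13o_75, r7o_6, r5o_3, (.st (nat_lit 3639) (nat_lit 3640) (.st (nat_lit 0) (nat_lit 3640) .nil))⟩,
  ⟨r13o_75, r7o_6, r5o_5, (.st (nat_lit 2183) (nat_lit 2184) (.st (nat_lit 0) (nat_lit 2184) .nil))⟩,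
  ⟨r13o_75, r7o_6, r5o_7, (.st (nat_lit 727) (nat_lit 728) (.st (nat_lit 0) (nat_lit 728) .nil))⟩,
  ⟨r13o_75, r7o_6, r5o_9, (.st (nat_lit 3639) (nat_lit 3640) (.st (nat_lit 0) (nat_lit 3640) .nil))⟩,
  ⟨r13o_75, r7o_7, r5o_1, (.st (nat_lit 363) (nat_lit 728) (.st (nat_lit 364) (nat_lit 728) .nil))⟩,
  ⟨r13o_75, r7o_7, r5o_3, (.st (nat_lit 1819) (nat_lit 3640) (.st (nat_lit 1820) (nat_lit 3640) .nil))⟩,
  ⟨r13o_75, r7o_7, r5o_5, (.st (nat_lit 1091) (nat_lit 2184) (.st (nat_lit 1092) (nat_lit 2184) .nil))⟩,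
  ⟨r13o_75, r7o_7, r5o_7, (.st (nat_lit 363) (nat_lit 728) (.st (nat_lit 364) (nat_lit 728) .nil))⟩,
  ⟨r13o_75, r7o_7, r5o_9, (.st (nat_lit 1819) (nat_lit 3640) (.st (nat_lit 1820) (nat_lit 3640) .nil))⟩,
  ⟨r13o_75, r7o_8, r5o_0, (.st (nat_lit 272) (nat_lit 546) (.st (nat_lit 273) (nat_lit 546) .nil))⟩,
  ⟨r13o_75, r7o_8, r5o_3, (.st (nat_lit 1364) (nat_lit 2730) (.st (nat_lit 1365) (nat_lit 2730) .nil))⟩,
  ⟨r13o_75, r7o_8, r5o_5, (.st (nat_lit 272) (nat_lit 546) (.st (nat_lit 273) (nat_lit 546) .nil))⟩,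
  ⟨r13o_75, r7o_8, r5o_7, (.st (nat_lit 272) (nat_lit 546) (.st (nat_lit 273) (nat_lit 546) .nil))⟩,
  ⟨r13o_75, r7o_8, r5o_9, (.st (nat_lit 1364) (nat_lit 2730) (.st (nat_lit 1365) (nat_lit 2730) .nil))⟩,
  ⟨r13o_75, r7o_10, r5o_1, (.st (nat_lit 545) (nat_lit 546) (.st (nat_lit 0) (nat_lit 546) .nil))⟩,
  ⟨r13o_75, r7o_10, r5o_3, (.st (nat_lit 2729) (nat_lit 2730) (.st (nat_lit 0) (nat_lit 2730) .nil))⟩,
  ⟨r13o_75, r7o_10, r5o_5, (.st (nat_lit 545) (nat_lit 546) (.st (nat_lit 0) (nat_lit 546) .nil))⟩,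
  ⟨r13o_75, r7o_10, r5o_7, (.st (nat_lit 545) (nat_lit 546) (.st (nat_lit 0) (nat_lit 546) .nil))⟩,
  ⟨r13o_75, r7o_10, r5o_9, (.st (nat_lit 2729) (nat_lit 2730) (.st (nat_lit 0) (nat_lit 2730) .nil))⟩,
  ⟨r13o_75, r7o_14, r5o_1, (.st (nat_lit 727) (nat_lit 728) (.st (nat_lit 0) (nat_lit 728) .nil))⟩,
  ⟨r13o_75, r7o_14, r5o_3, (.st (nat_lit 3639) (nat_lit 3640) (.st (nat_lit 0) (nat_lit 3640) .nil))⟩,
  ⟨r13o_75, r7o_14, r5o_5, (.st (nat_lit 2183) (nat_lit 2184) (.st (nat_lit 0) (nat_lit 2184) .nil))⟩,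
  ⟨r13o_75, r7o_14, r5o_7, (.st (nat_lit 727) (nat_lit 728) (.st (nat_lit 0) (nat_lit 728) .nil))⟩,
  ⟨r13o_75, r7o_14, r5o_9, (.st (nat_lit 3639) (nat_lit 3640) (.st (nat_lit 0) (nat_lit 3640) .nil))⟩,
  ⟨r13o_75, r7o_15, r5o_1, (.st (nat_lit 363) (nat_lit 728) (.st (nat_lit 364) (nat_lit 728) .nil))⟩,
  ⟨r13o_75, r7o_15, r5o_3, (.st (nat_lit 1819) (nat_lit 3640) (.st (nat_lit 1820) (nat_lit 3640) .nil))⟩,
  ⟨r13o_75, r7o_15, r5o_5, (.st (nat_lit 1091) (nat_lit 2184) (.st (nat_lit 1092) (nat_lit 2184) .nil))⟩,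
  ⟨r13o_75, r7o_15, r5o_7, (.st (nat_lit 363) (nat_lit 728) (.st (nat_lit 364) (nat_lit 728) .nil))⟩,
  ⟨r13o_75, r7o_15, r5o_9, (.st (nat_lit 1819) (nat_lit 3640) (.st (nat_lit 1820) (nat_lit 3640) .nil))⟩,
  ⟨r13o_75, r7o_18, r5o_0, (.st (nat_lit 90) (nat_lit 182) (.st (nat_lit 91) (nat_lit 182) .nil))⟩,
  ⟨r13o_75, r7o_18, r5o_1, (.st (nat_lit 181) (nat_lit 182) (.st (nat_lit 0) (nat_lit 182) .nil))⟩,
  ⟨r13o_75, r7o_18, r5o_3, (.st (nat_lit 454) (nat_lit 455) (.st (nat_lit 0) (nat_lit 455) .nil))⟩,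
  ⟨r13o_75, r7o_18, r5o_5, (.st (nat_lit 272) (nat_lit 273) (.st (nat_lit 0) (nat_lit 273) .nil))⟩,
  ⟨r13o_75, r7o_18, r5o_7, (.st (nat_lit 90) (nat_lit 91) (.st (nat_lit 0) (nat_lit 91) .nil))⟩,
  ⟨r13o_75, r7o_18, r5o_9, (.st (nat_lit 454) (nat_lit 455) (.st (nat_lit 0) (nat_lit 455) .nil))⟩,
  ⟨r13o_75, r7o_20, r5o_0, (.st (nat_lit 272) (nat_lit 546) (.st (nat_lit 273) (nat_lit 546) .nil))⟩,
  ⟨r13o_75, r7o_20, r5o_3, (.st (nat_lit 1364) (nat_lit 2730) (.st (nat_lit 1365) (nat_lit 2730) .nil))⟩,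
  ⟨r13o_75, r7o_20, r5o_5, (.st (nat_lit 272) (nat_lit 546) (.st (nat_lit 273) (nat_lit 546) .nil))⟩,
  ⟨r13o_75, r7o_20, r5o_7, (.st (nat_lit 272) (nat_lit 546) (.st (nat_lit 273) (nat_lit 546) .nil))⟩,
  ⟨r13o_75, r7o_20, r5o_9, (.st (nat_lit 1364) (nat_lit 2730) (.st (nat_lit 1365) (nat_lit 2730) .nil))⟩,
  ⟨r13o_75, r7o_22, r5o_1, (.st (nat_lit 545) (nat_lit 546) (.st (nat_lit 0) (nat_lit 546) .nil))⟩,
  ⟨r13o_75, r7o_22, r5o_3, (.st (nat_lit 2729) (nat_lit 2730) (.st (nat_lit 0) (nat_lit 2730) .nil))⟩,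
  ⟨r13o_75, r7o_22, r5o_5, (.st (nat_lit 545) (nat_lit 546) (.st (nat_lit 0) (nat_lit 546) .nil))⟩,
  ⟨r13o_75, r7o_22, r5o_7, (.st (nat_lit 545) (nat_lit 546) (.st (nat_lit 0) (nat_lit 546) .nil))⟩,
  ⟨r13o_75, r7o_22, r5o_9, (.st (nat_lit 2729) (nat_lit 2730) (.st (nat_lit 0) (nat_lit 2730) .nil))⟩,
  ⟨r13o_75, r7o_26, r5o_1, (.st (nat_lit 727) (nat_lit 728) (.st (nat_lit 363) (nat_lit 728) (.st (nat_lit 364) (nat_lit 728) (.st (nat_lit 0) (nat_lit 728) .nil))))⟩,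
  ⟨r13o_75, r7o_26, r5o_3, (.st (nat_lit 3639) (nat_lit 3640) (.st (nat_lit 1819) (nat_lit 3640) (.st (nat_lit 1820) (nat_lit 3640) (.st (nat_lit 0) (nat_lit 3640) .nil))))⟩,
  ⟨r13o_75, r7o_26, r5o_5, (.st (nat_lit 2183) (nat_lit 2184) (.st (nat_lit 1091) (nat_lit 2184) (.st (nat_lit 1092) (nat_lit 2184) (.st (nat_lit 0) (nat_lit 2184) .nil))))⟩,
  ⟨r13o_75, r7o_26, r5o_7, (.st (nat_lit 727) (nat_lit 728) (.st (nat_lit 363) (nat_lit 728) (.st (nat_lit 364) (nat_lit 728) (.st (nat_lit 0) (nat_lit 728) .nil))))⟩,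
  ⟨r13o_75, r7o_26, r5o_9, (.st (nat_lit 279) (nat_lit 280) (.st (nat_lit 139) (nat_lit 280) (.st (nat_lit 140) (nat_lit 280) (.st (nat_lit 0) (nat_lit 280) .nil))))⟩,
  ⟨r13o_75, r7o_27, r5o_8, (.st (nat_lit 17) (nat_lit 35) .nil)⟩,
  ⟨r13o_75, r7o_27, r5o_9, (.st (nat_lit 17) (nat_lit 35) .nil)⟩]

/-- entries -/
def EA76 : List E3 := [⟨r13o_76, r7o_27, r5o_8, (.st (nat_lit 17) (nat_lit 35) .nil)⟩,
  ⟨r13o_76, r7o_27, r5o_9, (.st (nat_lit 17) (nat_lit 35) .nil)⟩]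

/-- entries -/
def EA77 : List E3 := [⟨r13o_77, r7o_27, r5o_8, (.st (nat_lit 2) (nat_lit 5) .nil)⟩,
  ⟨r13o_77, r7o_27, r5o_9, (.st (nat_lit 2) (nat_lit 5) .nil)⟩]

/-- all entries -/
def LA : List (List E3) := [EA0, EA1, EA2, EA3, EA4, EA5, EA6, EA7, EA8, EA9, EA10, EA11, EA12, EA13, EA14, EA15, EA16, EA17, EA18, EA19, EA20, EA21, EA22, EA23, EA24, EA25, EA26, EA27, EA28, EA29, EA30, EA31, EA32, EA33, EA34, EA35, EA36, EA37, EA38, EA39, EA40, EA41, EA42, EA43, EA44, EA45, EA46, EA47, EA48, EA49, EA50, EA51, EA52, EA53, EA54, EA55, EA56, EA57, EA58, EA59, EA60, EA61, EA62, EA63, EA64, EA65, EA66, EA67, EA68, EA69, EA70, EA71, EA72, EA73, EA74, EA75, EA76, EA77]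

end Pool.Agent.LibH4.CX


end

section

/-!
Constant words, all letters at once: kernel functions of the elimination.
-/

namespace Pool.Agent.LibH4.CX

open Pool.Agent.LibH4.Ker Pool.Agent.Lib_helper5.TB Pool.Agent.LibH4.CW

/-- repetition of a digit -/
def rep (w q : ℕ) : ℕ :=
  Nat.div (Nat.sub (Nat.pow (nat_lit 2) (Nat.mul w q)) (nat_lit 1))
    (Nat.sub (Nat.pow (nat_lit 2) w) (nat_lit 1))

/-! ### strings of the first two components -/

/-- row -/
def gX (RX w V e : ℕ) : ℕ :=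
  Nat.mod (Nat.shiftRight RX (Nat.mul w (Nat.mod e (nat_lit 256)))) V

/-- rows along an orbit -/
def lazG (RX RY w V t1 T1 : ℕ) (R : List ℕ) : List ((ℕ × ℕ) × ℕ) :=
  mapL (fun i => ((gX RX w V (d32 T1 i), gX RY w V (d32 T1 i)), dig t1 (by1 (d32 T1 i)))) R

/-- record of the second component -/
def e2 (len3 t2 T2 i : ℕ) : ℕ :=
  Nat.add (Nat.mul (Nat.mul (nat_lit 8) len3) (Nat.mod (d32 T2 i) (nat_lit 256)))
    (Nat.mul (nat_lit 65536) (dig t2 (by1 (d32 T2 i))))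

/-- digit -/
def pd (BF mW : ℕ) (x : ℕ × ℕ) (w o : ℕ) : ℕ :=
  Nat.add (Nat.mul w (Nat.land (Nat.shiftRight x.1 o) mW))
    (Nat.mul BF (Nat.mul w (Nat.land (Nat.shiftRight x.2 o) mW)))

/-- digits along the orbit of the first component -/
def mL (l BF B2 mW : ℕ) (fin : ℕ → ℕ) (G : List ((ℕ × ℕ) × ℕ)) : ℕ → ℕ :=
  @List.rec _ (fun _ => ℕ → ℕ) fin (fun x _ ih E =>
    Nat.add (pd BF mW x.1
      (Nat.mod (Nat.mul x.2 (Nat.mod (Nat.shiftRight E (nat_lit 16)) (nat_lit 256))) l)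
      (Nat.mod E (nat_lit 65536)))
    (Nat.mul B2 (ih (Nat.shiftRight E (nat_lit 24))))) G

/-- digits along the joint orbit -/
def mQ (l BF B2 mW : ℕ) (G : List ((ℕ × ℕ) × ℕ)) (q : ℕ) : ℕ → ℕ :=
  @Nat.rec (fun _ => ℕ → ℕ) (fun _ => nat_lit 0) (fun _ ih => mL l BF B2 mW ih G) q

/-- rows along the orbit of a record -/
def gL (s : RN) (r : Rc) : List ((ℕ × ℕ) × ℕ) := lazG s.RX s.RY s.w s.V s.t1 r.orb (rng r.pi)

/-- string of the first two components -/
def strA (s : RN) (r1 r2 : Rc) : ℕ :=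
  (fun P => mQ s.l (Nat.pow (nat_lit 2) s.F) (Nat.pow (nat_lit 2) (Nat.mul (nat_lit 2) s.F))
    (Nat.sub (Nat.pow (nat_lit 2) (Nat.mul (nat_lit 8) s.len3)) (nat_lit 1)) (gL s r1)
    (Nat.div P r1.pi)
    (Nat.mul (cat (nat_lit 16777216) (e2 s.len3 s.t2 r2.orb) (rng r2.pi))
      (rep (Nat.mul (nat_lit 24) r2.pi) (Nat.div P r2.pi)))) (lcmS r1.pi r2.pi)

/-! ### strings of three components -/

/-- sum over the residues -/
def sJ (t3 orb A B2 : ℕ) (R : List ℕ) : ℕ → ℕ :=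
  @List.rec ℕ (fun _ => ℕ → ℕ) (fun _ => nat_lit 0) (fun j _ ih m =>
    Nat.add (Nat.mul (dig t3 (by1 (d32 orb j)))
      (Nat.land (Nat.shiftRight A (Nat.mul (nat_lit 8) (Nat.mod (d32 orb j) (nat_lit 256)))) m))
      (ih (Nat.mul m B2))) R

/-- string of three components -/
def strS (s : RN) (r1 r2 r3 : Rc) (L : ℕ) : ℕ :=
  (fun P => sJ s.t3 r3.orb (Nat.mul (strA s r1 r2) (rep (Nat.mul (Nat.mul (nat_lit 2) s.F) P)
      (Nat.div L P)))
    (Nat.pow (nat_lit 2) (Nat.mul (nat_lit 2) s.F)) (rng r3.pi)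
    (Nat.mul s.ms (rep (Nat.mul (Nat.mul (nat_lit 2) s.F) r3.pi) (Nat.div L r3.pi))))
    (lcmS r1.pi r2.pi)

/-- partial sums -/
def prS (F L S : ℕ) : ℕ :=
  Nat.mod (Nat.mul S (rep (Nat.mul (nat_lit 2) F) L))
    (Nat.pow (nat_lit 2) (Nat.mul (Nat.mul (nat_lit 2) F) L))

/-! ### states -/

/-- value at a number -/
def valN (V L w2 mF c l n : ℕ) : ℕ :=
  Nat.mod (Nat.add (Nat.land (Nat.shiftRight V (Nat.mul w2 (Nat.mod n L))) mF)
    (Nat.mul (Nat.div n L) c)) l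

/-- the lifts of a constant value -/
def ft0 (V L w2 mF c l K K1 n : ℕ) (acc : Tr) (q : ℕ) : Tr :=
  @Nat.rec (fun _ => Tr) acc (fun m ih => @Bool.rec (fun _ => Tr) ih
    (strict (Nat.add n (Nat.mul K m)) fun n' => strict K1 fun K1 => Tr.st n' K1 ih)
    (Nat.beq (valN V L w2 mF c l (Nat.add n (Nat.mul K m))) (nat_lit 0))) q

/-- the lifts of a changing value -/
def ft1 (V L w2 mF c l K K1 ic n : ℕ) (acc : Tr) (q : ℕ) : Tr :=
  @Nat.rec (fun _ => Tr) acc (fun m ih =>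
    strict (Nat.add (Nat.add n (Nat.mul K m)) (Nat.mul K1
      (Nat.mod (Nat.mul (Nat.sub l (valN V L w2 mF c l (Nat.add n (Nat.mul K m)))) ic) l)))
      fun n' => strict (Nat.mul K1 l) fun K2 => Tr.st n' K2 ih) q

/-- a relation, the states -/
noncomputable def rel0 (l c L w2 F mF Q S a2 orb pl : ℕ) (st : Tr) : Tr :=
  @Tr.rec (fun _ => Tr) Tr.nil (fun n K _ ih =>
    @Bool.rec (fun _ => Tr) (Tr.st n K ih)
      ((fun K1 V => (fun c1 => @Bool.rec (fun _ => Tr)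
        (ft1 V L w2 mF c l K K1 (Nat.mod (Nat.pow c1 (Nat.sub l (nat_lit 2))) l) n ih
          (Nat.div K1 K))
        (ft0 V L w2 mF c l K K1 n ih (Nat.div K1 K))
        (Nat.beq c1 (nat_lit 0))) (Nat.mod (Nat.mul (Nat.div K1 L) c) l))
      (lcmS K L) (Nat.shiftRight (Nat.add Q (Nat.mul S (Nat.sub a2
      (by2 (d32 orb (Nat.mod n pl)))))) F))
      (Nat.beq (Nat.mod K pl) (nat_lit 0)))
    st

/-- a relation -/
noncomputable def rel5 (l L w2 F mF k0 k1 S ra orb pl R : ℕ) (st : Tr) : Tr :=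
  strict (Nat.mod (Nat.land (Nat.shiftRight R (Nat.add F (Nat.mul w2 (Nat.sub L (nat_lit 1)))))
    mF) l) fun c =>
  rel0 l c L w2 F mF (Nat.add R (Nat.mul (Nat.mod (Nat.add (Nat.mul k0 (Nat.land S mF))
    (Nat.mul k1 (Nat.land (Nat.shiftRight S F) mF))) l)
    (Nat.mul (Nat.succ mF) (rep w2 L)))) S (Nat.add (Nat.mul (nat_lit 2) ra) l) orb pl st

/-- a relation -/
noncomputable def relQ (par : Bool) (l F w2 mF L S ra orb pl : ℕ) (st : Tr) : Tr :=
  rel5 l L w2 F mF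
    (neg l (@Bool.rec (fun _ => ℕ) (nat_lit 3) (nat_lit 6) par))
    (@Bool.rec (fun _ => ℕ) (nat_lit 0) ra par) S ra orb pl
    (Nat.mul (prS F L S) (Nat.add (neg l (Nat.mul (nat_lit 2) ra))
      (Nat.mul (nat_lit 6) (Nat.succ mF)))) st

/-- a relation of three components -/
noncomputable def relX (par : Bool) (s : RN) (r1 r2 r3 r : Rc) (st : Tr) : Tr :=
  strict (lcmS (lcmS r1.pi r2.pi) r3.pi) fun L =>
    @Bool.rec (fun _ => Tr) st
      (relQ par s.l s.F s.w2 s.mF L (strS s r1 r2 r3 L) r.a r.orb r.pi st)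
      (Nat.ble L (nat_lit 1000))

/-- all lifts -/
def lf1 (K K1 n q : ℕ) (acc : Tr) : Tr :=
  @Nat.rec (fun _ => Tr) acc (fun m ih => strict (Nat.add n (Nat.mul K m)) fun n' =>
    strict K1 fun K1 => Tr.st n' K1 ih) q

/-- all lifts -/
noncomputable def lft (m : ℕ) (st : Tr) : Tr :=
  @Tr.rec (fun _ => Tr) Tr.nil (fun n K _ ih => lf1 K (lcmS K m) n (Nat.div (lcmS K m) K) ih)
    st

/-- continuation for a non empty list of states -/
noncomputable def ne (t : Tr) (r : Bool) : Bool :=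
  @Tr.rec (fun _ => Bool) true (fun _ _ _ _ => r) t

/-- the list is empty -/
noncomputable def nilT (t : Tr) : Bool := @Tr.rec (fun _ => Bool) true (fun _ _ _ _ => false) t

/-- equality of states -/
noncomputable def eqT (t : Tr) : Tr → Bool :=
  @Tr.rec (fun _ => Tr → Bool)
    (fun u => @Tr.rec (fun _ => Bool) true (fun _ _ _ _ => false) u)
    (fun n K _ ih u => @Tr.rec (fun _ => Bool) false
      (fun n' K' u' _ => andB (Nat.beq n n') (andB (Nat.beq K K') (ih u'))) u) t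

/-- equality of records -/
def eqR (r s : Rc) : Bool :=
  andB (Nat.beq r.orb s.orb) (andB (Nat.beq r.a s.a) (andB (Nat.beq r.x1 s.x1)
    (andB (Nat.beq r.x2 s.x2) (andB (Nat.beq r.n s.n) (Nat.beq r.pi s.pi)))))

/-- disjunction over a list -/
def anyL {α : Type} (p : α → Bool) (L : List α) : Bool :=
  @List.rec α (fun _ => Bool) false (fun x _ ih => @Bool.rec (fun _ => Bool) ih true (p x)) L

/-- the states are in the list -/
noncomputable def in3 (E : List E3) (r13 r7 r5 : Rc) (s : Tr) : Bool :=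
  ne s (anyL (fun e => andB (eqR r5 e.r5) (andB (eqR r7 e.r7) (andB (eqR r13 e.r13)
    (eqT s e.s)))) E)

/-- the states are in the list -/
noncomputable def in5 (E : List E5) (r13 r7 r5 r8 r4 : Rc) (s : Tr) : Bool :=
  ne s (anyL (fun e => andB (eqR r8 e.r8) (andB (eqR r5 e.r5) (andB (eqR r7 e.r7)
    (andB (eqR r13 e.r13) (andB (eqR r4 e.r4) (eqT s e.s)))))) E)

/-- the states are in the list -/
noncomputable def in7 (E : List E7) (r17 r13 r7 r5 r8 r4 r11 : Rc) (s : Tr) : Bool :=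
  ne s (anyL (fun e => andB (eqR r11 e.r11) (andB (eqR r8 e.r8) (andB (eqR r5 e.r5)
    (andB (eqR r7 e.r7) (andB (eqR r13 e.r13) (andB (eqR r4 e.r4) (andB (eqR r17 e.r17)
      (eqT s e.s)))))))) E)

/-- filter of the states -/
noncomputable def filT (p : ℕ → ℕ → Bool) (st : Tr) : Tr :=
  @Tr.rec (fun _ => Tr) Tr.nil (fun n K _ ih => @Bool.rec (fun _ => Tr) ih (Tr.st n K ih) (p n K))
    st

/-- the condition at `13` -/
def c13 (n K : ℕ) : Bool :=
  @Bool.rec (fun _ => Bool) true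
    (@Bool.rec (fun _ => Bool) true false
      (Nat.beq (Nat.mod (Nat.add (Nat.mul (nat_lit 2) n) (nat_lit 1)) (nat_lit 13)) (nat_lit 0)))
    (Nat.beq (Nat.mod K (nat_lit 13)) (nat_lit 0))

/-- the genus condition -/
def c4 (orb pl n : ℕ) : Bool := Nat.beq (by3 (d32 orb (Nat.mod n pl))) (nat_lit 3)

end Pool.Agent.LibH4.CX


end

section

/-! generated: records -/

namespace Pool.Agent.LibH4.CX

/-- record -/
def r1e_0 : Rc := ⟨nat_lit 1, nat_lit 0, nat_lit 0, nat_lit 0, nat_lit 1, nat_lit 0⟩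
/-- records -/
def F1e : List Rc := [r1e_0]

/-- record -/
def r4e_0 : Rc := ⟨nat_lit 4, nat_lit 1, nat_lit 1, nat_lit 3, nat_lit 1, nat_lit 16843009⟩
/-- record -/
def r4e_1 : Rc := ⟨nat_lit 4, nat_lit 1, nat_lit 3, nat_lit 1, nat_lit 3, nat_lit 932086584846614690067972354⟩
/-- record -/
def r4e_2 : Rc := ⟨nat_lit 4, nat_lit 3, nat_lit 1, nat_lit 1, nat_lit 3, nat_lit 929668696313334342936101120⟩
/-- record -/
def r4e_3 : Rc := ⟨nat_lit 4, nat_lit 3, nat_lit 3, nat_lit 3, nat_lit 1, nat_lit 16974083⟩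
/-- records -/
def F4e : List Rc := [r4e_0, r4e_1, r4e_2, r4e_3]

/-- record -/
def r5e_0 : Rc := ⟨nat_lit 5, nat_lit 0, nat_lit 0, nat_lit 2, nat_lit 2, nat_lit 216176084960411904⟩
/-- record -/
def r5e_1 : Rc := ⟨nat_lit 5, nat_lit 0, nat_lit 0, nat_lit 3, nat_lit 2, nat_lit 144117387115888897⟩
/-- record -/
def r5e_2 : Rc := ⟨nat_lit 5, nat_lit 1, nat_lit 2, nat_lit 3, nat_lit 5, nat_lit 11418243224115199071608992525670868658568626436⟩
/-- record -/
def r5e_3 : Rc := ⟨nat_lit 5, nat_lit 1, nat_lit 4, nat_lit 1, nat_lit 5, nat_lit 22903042608678189777482238772322212525501382920⟩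
/-- record -/
def r5e_4 : Rc := ⟨nat_lit 5, nat_lit 2, nat_lit 1, nat_lit 2, nat_lit 3, nat_lit 932086658633028052132692227⟩
/-- record -/
def r5e_5 : Rc := ⟨nat_lit 5, nat_lit 2, nat_lit 2, nat_lit 4, nat_lit 1, nat_lit 16908549⟩
/-- record -/
def r5e_6 : Rc := ⟨nat_lit 5, nat_lit 3, nat_lit 3, nat_lit 4, nat_lit 1, nat_lit 16974087⟩
/-- record -/
def r5e_7 : Rc := ⟨nat_lit 5, nat_lit 3, nat_lit 4, nat_lit 2, nat_lit 3, nat_lit 930877695920769709059014921⟩
/-- record -/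
def r5e_8 : Rc := ⟨nat_lit 5, nat_lit 4, nat_lit 1, nat_lit 1, nat_lit 5, nat_lit 22880739821780265173391435603291537455865659650⟩
/-- record -/
def r5e_9 : Rc := ⟨nat_lit 5, nat_lit 4, nat_lit 3, nat_lit 3, nat_lit 5, nat_lit 11418243224120391526923852381828355842732458246⟩
/-- records -/
def F5e : List Rc := [r5e_0, r5e_1, r5e_2, r5e_3, r5e_4, r5e_5,
  r5e_6, r5e_7, r5e_8, r5e_9]

/-- record -/
def r7e_0 : Rc := ⟨nat_lit 7, nat_lit 0, nat_lit 0, nat_lit 1, nat_lit 2, nat_lit 432352161314111744⟩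
/-- record -/
def r7e_1 : Rc := ⟨nat_lit 7, nat_lit 0, nat_lit 0, nat_lit 2, nat_lit 2, nat_lit 360293476354490625⟩
/-- record -/
def r7e_2 : Rc := ⟨nat_lit 7, nat_lit 0, nat_lit 0, nat_lit 4, nat_lit 2, nat_lit 216176084960411906⟩
/-- record -/
def r7e_3 : Rc := ⟨nat_lit 7, nat_lit 1, nat_lit 1, nat_lit 6, nat_lit 1, nat_lit 16843013⟩
/-- record -/
def r7e_4 : Rc := ⟨nat_lit 7, nat_lit 1, nat_lit 2, nat_lit 5, nat_lit 8, nat_lit 904646429682287559313126416634223206858667423226935039516026658033514905864⟩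
/-- record -/
def r7e_5 : Rc := ⟨nat_lit 7, nat_lit 1, nat_lit 5, nat_lit 2, nat_lit 8, nat_lit 2268645624019644313844960316886919378823787416618633975996253403348354531599⟩
/-- record -/
def r7e_6 : Rc := ⟨nat_lit 7, nat_lit 2, nat_lit 1, nat_lit 3, nat_lit 6, nat_lit 98367829213746062544863976877079439414033654303175082243⟩
/-- record -/
def r7e_7 : Rc := ⟨nat_lit 7, nat_lit 2, nat_lit 4, nat_lit 5, nat_lit 6, nat_lit 49042102202857978520654888384645014971475391565904609549⟩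
/-- record -/
def r7e_8 : Rc := ⟨nat_lit 7, nat_lit 2, nat_lit 6, nat_lit 4, nat_lit 6, nat_lit 74040202045052677946684035957682834033449026397770219795⟩
/-- record -/
def r7e_9 : Rc := ⟨nat_lit 7, nat_lit 3, nat_lit 3, nat_lit 6, nat_lit 1, nat_lit 16974091⟩
/-- record -/
def r7e_10 : Rc := ⟨nat_lit 7, nat_lit 3, nat_lit 4, nat_lit 1, nat_lit 8, nat_lit 2717424670319687283152989243343620290914508735023407290906828118394646233356⟩
/-- record -/
def r7e_11 : Rc := ⟨nat_lit 7, nat_lit 3, nat_lit 5, nat_lit 3, nat_lit 8, nat_lit 1811039351668377527954531290885501297700823126673966231307727981767314047248⟩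
/-- record -/
def r7e_12 : Rc := ⟨nat_lit 7, nat_lit 4, nat_lit 2, nat_lit 3, nat_lit 8, nat_lit 1819873344354806382437160975832123786767014346285448852835538499883864686855⟩
/-- record -/
def r7e_13 : Rc := ⟨nat_lit 7, nat_lit 4, nat_lit 3, nat_lit 1, nat_lit 8, nat_lit 2722725615911988409139583843590285437920824380156864111555590464960582648073⟩
/-- record -/
def r7e_14 : Rc := ⟨nat_lit 7, nat_lit 4, nat_lit 4, nat_lit 6, nat_lit 1, nat_lit 17039630⟩
/-- record -/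
def r7e_15 : Rc := ⟨nat_lit 7, nat_lit 5, nat_lit 1, nat_lit 4, nat_lit 6, nat_lit 73752863515756742567000133984299749928752446495309234436⟩
/-- record -/
def r7e_16 : Rc := ⟨nat_lit 7, nat_lit 5, nat_lit 3, nat_lit 5, nat_lit 6, nat_lit 49042102202835680838013236702840767363666507362346533130⟩
/-- record -/
def r7e_17 : Rc := ⟨nat_lit 7, nat_lit 5, nat_lit 6, nat_lit 3, nat_lit 6, nat_lit 98463597031423943956949334608000871917274197006274068754⟩
/-- record -/
def r7e_18 : Rc := ⟨nat_lit 7, nat_lit 6, nat_lit 2, nat_lit 2, nat_lit 8, nat_lit 2266879019594385933871422536225860664397655913983078810103310411503285698822⟩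
/-- record -/
def r7e_19 : Rc := ⟨nat_lit 7, nat_lit 6, nat_lit 5, nat_lit 5, nat_lit 8, nat_lit 904646429683521668899524794014520848704264908713811086102245418049038844177⟩
/-- record -/
def r7e_20 : Rc := ⟨nat_lit 7, nat_lit 6, nat_lit 6, nat_lit 6, nat_lit 1, nat_lit 17170708⟩
/-- records -/
def F7e : List Rc := [r7e_0, r7e_1, r7e_2, r7e_3, r7e_4, r7e_5,
  r7e_6, r7e_7, r7e_8, r7e_9, r7e_10, r7e_11,
  r7e_12, r7e_13, r7e_14, r7e_15, r7e_16, r7e_17,
  r7e_18, r7e_19, r7e_20]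

/-- record -/
def r8e_0 : Rc := ⟨nat_lit 8, nat_lit 1, nat_lit 1, nat_lit 7, nat_lit 1, nat_lit 16843011⟩
/-- record -/
def r8e_1 : Rc := ⟨nat_lit 8, nat_lit 1, nat_lit 3, nat_lit 5, nat_lit 6, nat_lit 74232130830414763737331234832565284488061788177377067270⟩
/-- record -/
def r8e_2 : Rc := ⟨nat_lit 8, nat_lit 1, nat_lit 5, nat_lit 3, nat_lit 3, nat_lit 1553474603847167016890859785⟩
/-- record -/
def r8e_3 : Rc := ⟨nat_lit 8, nat_lit 1, nat_lit 7, nat_lit 1, nat_lit 6, nat_lit 171928733229703460170518183259638872143207734586453852428⟩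
/-- record -/
def r8e_4 : Rc := ⟨nat_lit 8, nat_lit 3, nat_lit 1, nat_lit 5, nat_lit 6, nat_lit 74040563041755378177167559353704949064703442299956429058⟩
/-- record -/
def r8e_5 : Rc := ⟨nat_lit 8, nat_lit 3, nat_lit 3, nat_lit 7, nat_lit 1, nat_lit 16974087⟩
/-- record -/
def r8e_6 : Rc := ⟨nat_lit 8, nat_lit 3, nat_lit 5, nat_lit 1, nat_lit 6, nat_lit 171737165441044074610354507780778536719849388709033214216⟩
/-- record -/
def r8e_7 : Rc := ⟨nat_lit 8, nat_lit 3, nat_lit 7, nat_lit 3, nat_lit 3, nat_lit 1555892529273935537211900173⟩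
/-- record -/
def r8e_8 : Rc := ⟨nat_lit 8, nat_lit 5, nat_lit 1, nat_lit 3, nat_lit 3, nat_lit 1548638752993630044968780033⟩
/-- record -/
def r8e_9 : Rc := ⟨nat_lit 8, nat_lit 5, nat_lit 3, nat_lit 1, nat_lit 6, nat_lit 172311845422996039440958252068276242157858905960808251652⟩
/-- record -/
def r8e_10 : Rc := ⟨nat_lit 8, nat_lit 5, nat_lit 5, nat_lit 7, nat_lit 1, nat_lit 17105163⟩
/-- record -/
def r8e_11 : Rc := ⟨nat_lit 8, nat_lit 5, nat_lit 7, nat_lit 5, nat_lit 6, nat_lit 73849018637122189911450575133811608508432579750667813134⟩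
/-- record -/
def r8e_12 : Rc := ⟨nat_lit 8, nat_lit 7, nat_lit 1, nat_lit 1, nat_lit 6, nat_lit 172120277634336653880794576589415906734500560083387613440⟩
/-- record -/
def r8e_13 : Rc := ⟨nat_lit 8, nat_lit 7, nat_lit 3, nat_lit 3, nat_lit 3, nat_lit 1551056678420398565289820421⟩
/-- record -/
def r8e_14 : Rc := ⟨nat_lit 8, nat_lit 7, nat_lit 5, nat_lit 5, nat_lit 6, nat_lit 73657450848462804351286899654951273085074233873247174922⟩
/-- record -/
def r8e_15 : Rc := ⟨nat_lit 8, nat_lit 7, nat_lit 7, nat_lit 7, nat_lit 1, nat_lit 17236239⟩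
/-- records -/
def F8e : List Rc := [r8e_0, r8e_1, r8e_2, r8e_3, r8e_4, r8e_5,
  r8e_6, r8e_7, r8e_8, r8e_9, r8e_10, r8e_11,
  r8e_12, r8e_13, r8e_14, r8e_15]

/-- record -/
def r11e_0 : Rc := ⟨nat_lit 11, nat_lit 0, nat_lit 0, nat_lit 1, nat_lit 2, nat_lit 720586935512334592⟩
/-- record -/
def r11e_1 : Rc := ⟨nat_lit 11, nat_lit 0, nat_lit 0, nat_lit 3, nat_lit 2, nat_lit 576469557003157761⟩
/-- record -/
def r11e_2 : Rc := ⟨nat_lit 11, nat_lit 0, nat_lit 0, nat_lit 4, nat_lit 2, nat_lit 504410859158634754⟩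
/-- record -/
def r11e_3 : Rc := ⟨nat_lit 11, nat_lit 0, nat_lit 0, nat_lit 5, nat_lit 2, nat_lit 432352178493980931⟩
/-- record -/
def r11e_4 : Rc := ⟨nat_lit 11, nat_lit 0, nat_lit 0, nat_lit 9, nat_lit 2, nat_lit 144117400000790788⟩
/-- record -/
def r11e_5 : Rc := ⟨nat_lit 11, nat_lit 1, nat_lit 3, nat_lit 8, nat_lit 10, nat_lit 25357665390100173747133187450547123950906146443988687908619537785780452864086386553941563343121⟩
/-- record -/
def r11e_6 : Rc := ⟨nat_lit 11, nat_lit 1, nat_lit 4, nat_lit 7, nat_lit 10, nat_lit 33669037753919500632280672659149849950269436433775989642115038370964169808792207777182202790166⟩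
/-- record -/
def r11e_7 : Rc := ⟨nat_lit 11, nat_lit 1, nat_lit 8, nat_lit 3, nat_lit 10, nat_lit 66913078452017418549315067575041728364455640523919598387531528242648125031258662552572818161960⟩
/-- record -/
def r11e_8 : Rc := ⟨nat_lit 11, nat_lit 1, nat_lit 9, nat_lit 2, nat_lit 10, nat_lit 75224449821107116525554710503752971057797157357203230020319932829206585774686117661404353855789⟩
/-- record -/
def r11e_9 : Rc := ⟨nat_lit 11, nat_lit 1, nat_lit 10, nat_lit 1, nat_lit 10, nat_lit 83535815206791481299231319519108448056131776420796280537353646406634773452589813964766927978802⟩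
/-- record -/
def r11e_10 : Rc := ⟨nat_lit 11, nat_lit 2, nat_lit 2, nat_lit 10, nat_lit 1, nat_lit 16908558⟩
/-- record -/
def r11e_11 : Rc := ⟨nat_lit 11, nat_lit 2, nat_lit 4, nat_lit 9, nat_lit 12, nat_lit 307842301504715538100844380222921762244024489724513151912574014775636777675397775912138362970081735891595217207576⟩
/-- record -/
def r11e_12 : Rc := ⟨nat_lit 11, nat_lit 2, nat_lit 5, nat_lit 3, nat_lit 12, nat_lit 1237332348074256042176935077291713316972086259217033878777656599806801735655851610574172073190490156801229083246875⟩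
/-- record -/
def r11e_13 : Rc := ⟨nat_lit 11, nat_lit 2, nat_lit 7, nat_lit 2, nat_lit 12, nat_lit 1390055439223254357097679542443064983617248833678116414406492302269816438645865462255946161425926103060805207589155⟩
/-- record -/
def r11e_14 : Rc := ⟨nat_lit 11, nat_lit 2, nat_lit 10, nat_lit 6, nat_lit 12, nat_lit 772600328891219443089907263189181684411175185355076191741003235910904287025057610423771639023631785827463256473908⟩
/-- record -/
def r11e_15 : Rc := ⟨nat_lit 11, nat_lit 3, nat_lit 1, nat_lit 7, nat_lit 4, nat_lit 5343057279558367791142392359079313672⟩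
/-- record -/
def r11e_16 : Rc := ⟨nat_lit 11, nat_lit 3, nat_lit 3, nat_lit 10, nat_lit 1, nat_lit 16974099⟩
/-- record -/
def r11e_17 : Rc := ⟨nat_lit 11, nat_lit 3, nat_lit 5, nat_lit 2, nat_lit 4, nat_lit 11968326736991011730094169294140277018⟩
/-- record -/
def r11e_18 : Rc := ⟨nat_lit 11, nat_lit 3, nat_lit 7, nat_lit 5, nat_lit 4, nat_lit 8027434109826079269695156213608808740⟩
/-- record -/
def r11e_19 : Rc := ⟨nat_lit 11, nat_lit 3, nat_lit 10, nat_lit 4, nat_lit 4, nat_lit 9341065170000789264386357549508788531⟩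
/-- record -/
def r11e_20 : Rc := ⟨nat_lit 11, nat_lit 4, nat_lit 1, nat_lit 8, nat_lit 10, nat_lit 25259524123911590299634059079964693251078770378287858792864710475861771415264138345125293326601⟩
/-- record -/
def r11e_21 : Rc := ⟨nat_lit 11, nat_lit 4, nat_lit 2, nat_lit 5, nat_lit 10, nat_lit 50258917846655232094817611645073067630536381972537302294905439516089788682671645398559132745996⟩
/-- record -/
def r11e_22 : Rc := ⟨nat_lit 11, nat_lit 4, nat_lit 5, nat_lit 7, nat_lit 10, nat_lit 33473619056325988489146248069001321031215233657136140538072611836247147846779430363095974019356⟩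
/-- record -/
def r11e_23 : Rc := ⟨nat_lit 11, nat_lit 4, nat_lit 8, nat_lit 9, nat_lit 10, nat_lit 16688290428469348198987120996842398564624793086936945877329694158125870616293637168400477454635⟩
/-- record -/
def r11e_24 : Rc := ⟨nat_lit 11, nat_lit 4, nat_lit 9, nat_lit 6, nat_lit 10, nat_lit 42044822914240835062789828855863980845006410120026973237484788925187286181176068514701002408240⟩
/-- record -/
def r11e_25 : Rc := ⟨nat_lit 11, nat_lit 5, nat_lit 2, nat_lit 4, nat_lit 12, nat_lit 1082215954206658228351886478660672330008343594886113508354774037738566080782813047241693575929306307803363026469131⟩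
/-- record -/
def r11e_26 : Rc := ⟨nat_lit 11, nat_lit 5, nat_lit 3, nat_lit 6, nat_lit 12, nat_lit 773793278578400320851748450949615958918486957772928435961449701664208901971415444199422030374383353578888861384976⟩
/-- record -/
def r11e_27 : Rc := ⟨nat_lit 11, nat_lit 5, nat_lit 4, nat_lit 8, nat_lit 12, nat_lit 465371134681782327967009067160812598775224682445523336375103399969672003806113586578512779713604358068479711314199⟩
/-- record -/
def r11e_28 : Rc := ⟨nat_lit 11, nat_lit 5, nat_lit 5, nat_lit 10, nat_lit 1, nat_lit 17105181⟩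
/-- record -/
def r11e_29 : Rc := ⟨nat_lit 11, nat_lit 5, nat_lit 6, nat_lit 1, nat_lit 12, nat_lit 1541555251675653167930858394434008859760575137310672156356539677780698110370401302400553398298686152003599198388510⟩
/-- record -/
def r11e_30 : Rc := ⟨nat_lit 11, nat_lit 6, nat_lit 5, nat_lit 1, nat_lit 12, nat_lit 1543359345207994493777819754916204622991574755181084524367753974753924474832101307881476223701439547037290605183257⟩
/-- record -/
def r11e_31 : Rc := ⟨nat_lit 11, nat_lit 6, nat_lit 6, nat_lit 10, nat_lit 1, nat_lit 17170722⟩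
/-- record -/
def r11e_32 : Rc := ⟨nat_lit 11, nat_lit 6, nat_lit 7, nat_lit 8, nat_lit 12, nat_lit 464769678431710419858804371947041871661262171142036148143387917415721120842109201366048688615407655538222866759974⟩
/-- record -/
def r11e_33 : Rc := ⟨nat_lit 11, nat_lit 6, nat_lit 8, nat_lit 6, nat_lit 12, nat_lit 771989827224271653120884733359960425567171691671750156580010098528802255761760336977437075654854937446480358015273⟩
/-- record -/
def r11e_34 : Rc := ⟨nat_lit 11, nat_lit 6, nat_lit 9, nat_lit 4, nat_lit 12, nat_lit 1079209406870956843607022537774703989253006767819557650414019562079845613325757577626855501499265509644347048853806⟩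
/-- record -/
def r11e_35 : Rc := ⟨nat_lit 11, nat_lit 7, nat_lit 2, nat_lit 6, nat_lit 10, nat_lit 41751482273868415820070826877998053385275575068682661846072893327989587055058874251545485443341⟩
/-- record -/
def r11e_36 : Rc := ⟨nat_lit 11, nat_lit 7, nat_lit 3, nat_lit 9, nat_lit 10, nat_lit 16688290428431400236529453212848262545406926992901785494803538341670657556518681170969027346706⟩
/-- record -/
def r11e_37 : Rc := ⟨nat_lit 11, nat_lit 7, nat_lit 6, nat_lit 7, nat_lit 10, nat_lit 33636559554833994293765743377423929987755126963424666568425063985891842281231107550874505249057⟩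
/-- record -/
def r11e_38 : Rc := ⟨nat_lit 11, nat_lit 7, nat_lit 9, nat_lit 5, nat_lit 10, nat_lit 50226312837952970072762428259381568379169566041436517358621637804679262735712593237384851030319⟩
/-- record -/
def r11e_39 : Rc := ⟨nat_lit 11, nat_lit 7, nat_lit 10, nat_lit 8, nat_lit 10, nat_lit 25161728990665960776916156527985903252142668655291161665426009826905129072554288132912012788022⟩
/-- record -/
def r11e_40 : Rc := ⟨nat_lit 11, nat_lit 8, nat_lit 1, nat_lit 4, nat_lit 4, nat_lit 9325490260135291990503584771934257414⟩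
/-- record -/
def r11e_41 : Rc := ⟨nat_lit 11, nat_lit 8, nat_lit 4, nat_lit 5, nat_lit 4, nat_lit 7980705418809372476640567096632672533⟩
/-- record -/
def r11e_42 : Rc := ⟨nat_lit 11, nat_lit 8, nat_lit 6, nat_lit 2, nat_lit 4, nat_lit 12015059389427933494561221644856590623⟩
/-- record -/
def r11e_43 : Rc := ⟨nat_lit 11, nat_lit 8, nat_lit 8, nat_lit 10, nat_lit 1, nat_lit 17301804⟩
/-- record -/
def r11e_44 : Rc := ⟨nat_lit 11, nat_lit 8, nat_lit 10, nat_lit 7, nat_lit 4, nat_lit 5348251557127010196713689590593487157⟩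
/-- record -/
def r11e_45 : Rc := ⟨nat_lit 11, nat_lit 9, nat_lit 1, nat_lit 6, nat_lit 12, nat_lit 773201509921457325589950628489371639380730186835285365422386874587030633275460824532550328571230131871985814798599⟩
/-- record -/
def r11e_46 : Rc := ⟨nat_lit 11, nat_lit 9, nat_lit 4, nat_lit 2, nat_lit 12, nat_lit 1387049717547754659690425495033589552182831744867085408262332289739620736050982950223354576501153166411254366535956⟩
/-- record -/
def r11e_47 : Rc := ⟨nat_lit 11, nat_lit 9, nat_lit 6, nat_lit 3, nat_lit 12, nat_lit 1231921168352928154664272442099474613927622951636413646559677158410624667956802352081196716517099572873988611309856⟩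
/-- record -/
def r11e_48 : Rc := ⟨nat_lit 11, nat_lit 9, nat_lit 7, nat_lit 9, nat_lit 12, nat_lit 307842301505135415480423851298606184754542875275359419370934370670705730389811672808144717407379320075569320231207⟩
/-- record -/
def r11e_49 : Rc := ⟨nat_lit 11, nat_lit 9, nat_lit 9, nat_lit 10, nat_lit 1, nat_lit 17367345⟩
/-- record -/
def r11e_50 : Rc := ⟨nat_lit 11, nat_lit 10, nat_lit 1, nat_lit 1, nat_lit 10, nat_lit 83698755705390545076486794308549833295407469660765289870568550662162808245197622892336626925829⟩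
/-- record -/
def r11e_51 : Rc := ⟨nat_lit 11, nat_lit 10, nat_lit 2, nat_lit 2, nat_lit 10, nat_lit 75322215114897853058176128749740541393370992447570944731925792466351531030331633342521530777866⟩
/-- record -/
def r11e_52 : Rc := ⟨nat_lit 11, nat_lit 10, nat_lit 3, nat_lit 3, nat_lit 10, nat_lit 66945678487434194884090091407102437903552039736388479367525460382809357867334637595795544211727⟩
/-- record -/
def r11e_53 : Rc := ⟨nat_lit 11, nat_lit 10, nat_lit 7, nat_lit 7, nat_lit 10, nat_lit 33440887237931086437886803072512093483438145498030123512548212359253729181679123411272970404133⟩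
/-- record -/
def r11e_54 : Rc := ⟨nat_lit 11, nat_lit 10, nat_lit 8, nat_lit 8, nat_lit 10, nat_lit 25064349615821282093255373426052764466139522498987997894472672375314934408549141760044949963050⟩
/-- records -/
def F11e : List Rc := [r11e_0, r11e_1, r11e_2, r11e_3, r11e_4, r11e_5,
  r11e_6, r11e_7, r11e_8, r11e_9, r11e_10, r11e_11,
  r11e_12, r11e_13, r11e_14, r11e_15, r11e_16, r11e_17,
  r11e_18, r11e_19, r11e_20, r11e_21, r11e_22, r11e_23,
  r11e_24, r11e_25, r11e_26, r11e_27, r11e_28, r11e_29,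
  r11e_30, r11e_31, r11e_32, r11e_33, r11e_34, r11e_35,
  r11e_36, r11e_37, r11e_38, r11e_39, r11e_40, r11e_41,
  r11e_42, r11e_43, r11e_44, r11e_45, r11e_46, r11e_47,
  r11e_48, r11e_49, r11e_50, r11e_51, r11e_52, r11e_53,
  r11e_54]

/-- record -/
def r13e_0 : Rc := ⟨nat_lit 13, nat_lit 0, nat_lit 0, nat_lit 2, nat_lit 2, nat_lit 792645641946792192⟩
/-- record -/
def r13e_1 : Rc := ⟨nat_lit 13, nat_lit 0, nat_lit 0, nat_lit 5, nat_lit 2, nat_lit 576469565593092353⟩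
/-- record -/
def r13e_2 : Rc := ⟨nat_lit 13, nat_lit 0, nat_lit 0, nat_lit 6, nat_lit 2, nat_lit 504410876338503938⟩
/-- record -/
def r13e_3 : Rc := ⟨nat_lit 13, nat_lit 0, nat_lit 0, nat_lit 7, nat_lit 2, nat_lit 432352161314111747⟩
/-- record -/
def r13e_4 : Rc := ⟨nat_lit 13, nat_lit 0, nat_lit 0, nat_lit 8, nat_lit 2, nat_lit 360293472059523332⟩
/-- record -/
def r13e_5 : Rc := ⟨nat_lit 13, nat_lit 0, nat_lit 0, nat_lit 11, nat_lit 2, nat_lit 144117395705823493⟩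
/-- record -/
def r13e_6 : Rc := ⟨nat_lit 13, nat_lit 1, nat_lit 1, nat_lit 12, nat_lit 1, nat_lit 16843019⟩
/-- record -/
def r13e_7 : Rc := ⟨nat_lit 13, nat_lit 1, nat_lit 3, nat_lit 10, nat_lit 7, nat_lit 320881618228690314538207038158323118777285922634397209122935210263⟩
/-- record -/
def r13e_8 : Rc := ⟨nat_lit 13, nat_lit 1, nat_lit 4, nat_lit 9, nat_lit 7, nat_lit 425785917041808616887223844151227839308689028531242286059828085018⟩
/-- record -/
def r13e_9 : Rc := ⟨nat_lit 13, nat_lit 1, nat_lit 5, nat_lit 8, nat_lit 7, nat_lit 530689851710328366356395837552645977111497383145741590153276752160⟩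
/-- record -/
def r13e_10 : Rc := ⟨nat_lit 13, nat_lit 1, nat_lit 6, nat_lit 7, nat_lit 7, nat_lit 635593899708430761708007374600159323261201402070028685424933798184⟩
/-- record -/
def r13e_11 : Rc := ⟨nat_lit 13, nat_lit 1, nat_lit 8, nat_lit 5, nat_lit 7, nat_lit 845381575755828372892862053671748417076567217036362115831134486833⟩
/-- record -/
def r13e_12 : Rc := ⟨nat_lit 13, nat_lit 2, nat_lit 2, nat_lit 12, nat_lit 1, nat_lit 16908561⟩
/-- record -/
def r13e_13 : Rc := ⟨nat_lit 13, nat_lit 2, nat_lit 3, nat_lit 5, nat_lit 7, nat_lit 842925942219995831131233786426925418616094916298224243058749341972⟩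
/-- record -/
def r13e_14 : Rc := ⟨nat_lit 13, nat_lit 2, nat_lit 4, nat_lit 11, nat_lit 7, nat_lit 210634225186443609028983965610493534382373821507089586061052084508⟩
/-- record -/
def r13e_15 : Rc := ⟨nat_lit 13, nat_lit 2, nat_lit 7, nat_lit 3, nat_lit 7, nat_lit 1057248221841565839688334310500544986867340935208270990917943558444⟩
/-- record -/
def r13e_16 : Rc := ⟨nat_lit 13, nat_lit 2, nat_lit 8, nat_lit 9, nat_lit 7, nat_lit 424956492252564954731045724087330068359027190616742468177528750387⟩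
/-- record -/
def r13e_17 : Rc := ⟨nat_lit 13, nat_lit 2, nat_lit 9, nat_lit 2, nat_lit 7, nat_lit 1161745689088546902687794836921580545226134870401849155170412396854⟩
/-- record -/
def r13e_18 : Rc := ⟨nat_lit 13, nat_lit 3, nat_lit 1, nat_lit 4, nat_lit 13, nat_lit 5962446766383419390628440575805589981684605466581500302140807443954474448177295987995981885256401589238638118498362579943688⟩
/-- record -/
def r13e_19 : Rc := ⟨nat_lit 13, nat_lit 3, nat_lit 2, nat_lit 8, nat_lit 13, nat_lit 3315629530904494277155898249374382601668977043531719118826379470621416263659557281785381097810141633819408704226557325148431⟩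
/-- record -/
def r13e_20 : Rc := ⟨nat_lit 13, nat_lit 3, nat_lit 6, nat_lit 11, nat_lit 13, nat_lit 1322223013686555969562620702300982460211030109813867536561855902760402174889895583497316911664603586977503770604936947237161⟩
/-- record -/
def r13e_21 : Rc := ⟨nat_lit 13, nat_lit 3, nat_lit 7, nat_lit 2, nat_lit 13, nat_lit 7302705731653598392320588981448050101895417691880684537334184663840318837199942008516471470048623150716798059313681460822315⟩
/-- record -/
def r13e_22 : Rc := ⟨nat_lit 13, nat_lit 3, nat_lit 9, nat_lit 10, nat_lit 13, nat_lit 2009073819511396885462676543178766793196250719466284342188841186811206021077172070375780253105822761809416899390253761233209⟩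
/-- record -/
def r13e_23 : Rc := ⟨nat_lit 13, nat_lit 3, nat_lit 10, nat_lit 1, nat_lit 13, nat_lit 7955983863544752045941727675984090204061748684930835348508494173178688646969180113548572833381897987023189076587756038324540⟩
/-- record -/
def r13e_24 : Rc := ⟨nat_lit 13, nat_lit 4, nat_lit 1, nat_lit 3, nat_lit 7, nat_lit 1056020364272250786745780448858009428209653892995453528654800486663⟩
/-- record -/
def r13e_25 : Rc := ⟨nat_lit 13, nat_lit 4, nat_lit 2, nat_lit 6, nat_lit 7, nat_lit 739673845557902269773025176543583715662825396543502602935799644429⟩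
/-- record -/
def r13e_26 : Rc := ⟨nat_lit 13, nat_lit 4, nat_lit 4, nat_lit 12, nat_lit 1, nat_lit 17039645⟩
/-- record -/
def r13e_27 : Rc := ⟨nat_lit 13, nat_lit 4, nat_lit 8, nat_lit 11, nat_lit 7, nat_lit 210632624378768036874543489620079172194916375743538882400565330229⟩
/-- record -/
def r13e_28 : Rc := ⟨nat_lit 13, nat_lit 4, nat_lit 10, nat_lit 4, nat_lit 7, nat_lit 952347375311611687779403458395978749653850636180465970376232665405⟩
/-- record -/
def r13e_29 : Rc := ⟨nat_lit 13, nat_lit 4, nat_lit 11, nat_lit 7, nat_lit 7, nat_lit 636000800128059038538478857407767820866182624696152834478444904772⟩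
/-- record -/
def r13e_30 : Rc := ⟨nat_lit 13, nat_lit 5, nat_lit 1, nat_lit 5, nat_lit 3, nat_lit 2486766222248426591708578057⟩
/-- record -/
def r13e_31 : Rc := ⟨nat_lit 13, nat_lit 5, nat_lit 6, nat_lit 4, nat_lit 3, nat_lit 2790206049642842380296323367⟩
/-- record -/
def r13e_32 : Rc := ⟨nat_lit 13, nat_lit 5, nat_lit 8, nat_lit 1, nat_lit 3, nat_lit 3716243006323458457028854064⟩
/-- record -/
def r13e_33 : Rc := ⟨nat_lit 13, nat_lit 5, nat_lit 9, nat_lit 6, nat_lit 3, nat_lit 2167608920356642070676701495⟩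
/-- record -/
def r13e_34 : Rc := ⟨nat_lit 13, nat_lit 5, nat_lit 11, nat_lit 3, nat_lit 3, nat_lit 3109363351538286084615373122⟩
/-- record -/
def r13e_35 : Rc := ⟨nat_lit 13, nat_lit 5, nat_lit 12, nat_lit 8, nat_lit 3, nat_lit 1560729265571469668198449484⟩
/-- record -/
def r13e_36 : Rc := ⟨nat_lit 13, nat_lit 6, nat_lit 1, nat_lit 2, nat_lit 6, nat_lit 270775509706219504085713063528557827367970207889111777542⟩
/-- record -/
def r13e_37 : Rc := ⟨nat_lit 13, nat_lit 6, nat_lit 3, nat_lit 6, nat_lit 6, nat_lit 172502375585277635297721084513083025268225596232078590229⟩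
/-- record -/
def r13e_38 : Rc := ⟨nat_lit 13, nat_lit 6, nat_lit 5, nat_lit 10, nat_lit 6, nat_lit 74234017657640862175945955169767304723886873687978541346⟩
/-- record -/
def r13e_39 : Rc := ⟨nat_lit 13, nat_lit 6, nat_lit 7, nat_lit 1, nat_lit 6, nat_lit 294719932607172655389588445696057273542035858700638748970⟩
/-- record -/
def r13e_40 : Rc := ⟨nat_lit 13, nat_lit 6, nat_lit 10, nat_lit 7, nat_lit 6, nat_lit 147312694795266724434375443446883383182791721500990112064⟩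
/-- record -/
def r13e_41 : Rc := ⟨nat_lit 13, nat_lit 6, nat_lit 11, nat_lit 9, nat_lit 6, nat_lit 98178535550246141698409616422802210519919737079461183814⟩
/-- record -/
def r13e_42 : Rc := ⟨nat_lit 13, nat_lit 7, nat_lit 2, nat_lit 9, nat_lit 6, nat_lit 99232152541598613541284370394277469775710894700250988816⟩
/-- record -/
def r13e_43 : Rc := ⟨nat_lit 13, nat_lit 7, nat_lit 3, nat_lit 7, nat_lit 6, nat_lit 148174714768060867209079491545566075890633936228944642326⟩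
/-- record -/
def r13e_44 : Rc := ⟨nat_lit 13, nat_lit 7, nat_lit 6, nat_lit 1, nat_lit 6, nat_lit 295007371979992368725035851142754932677848652158094213412⟩
/-- record -/
def r13e_45 : Rc := ⟨nat_lit 13, nat_lit 7, nat_lit 8, nat_lit 10, nat_lit 6, nat_lit 74138315607269056816365817612477997281756133211765145908⟩
/-- record -/
def r13e_46 : Rc := ⟨nat_lit 13, nat_lit 7, nat_lit 10, nat_lit 6, nat_lit 6, nat_lit 172023391807913939399609753974211640533606383550191829311⟩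
/-- record -/
def r13e_47 : Rc := ⟨nat_lit 13, nat_lit 7, nat_lit 12, nat_lit 2, nat_lit 6, nat_lit 269913437119589428933888058727297642573361813125557846344⟩
/-- record -/
def r13e_48 : Rc := ⟨nat_lit 13, nat_lit 8, nat_lit 1, nat_lit 8, nat_lit 3, nat_lit 1549847937067661877876097290⟩
/-- record -/
def r13e_49 : Rc := ⟨nat_lit 13, nat_lit 8, nat_lit 2, nat_lit 3, nat_lit 3, nat_lit 3096063950034883101382410508⟩
/-- record -/
def r13e_50 : Rc := ⟨nat_lit 13, nat_lit 8, nat_lit 4, nat_lit 6, nat_lit 3, nat_lit 2180908321856104558854930713⟩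
/-- record -/
def r13e_51 : Rc := ⟨nat_lit 13, nat_lit 8, nat_lit 5, nat_lit 1, nat_lit 3, nat_lit 3727124334823325752296472862⟩
/-- record -/
def r13e_52 : Rc := ⟨nat_lit 13, nat_lit 8, nat_lit 7, nat_lit 4, nat_lit 3, nat_lit 2796251232143519289742721325⟩
/-- record -/
def r13e_53 : Rc := ⟨nat_lit 13, nat_lit 8, nat_lit 12, nat_lit 5, nat_lit 3, nat_lit 2480721039751127536601923915⟩
/-- record -/
def r13e_54 : Rc := ⟨nat_lit 13, nat_lit 9, nat_lit 2, nat_lit 7, nat_lit 7, nat_lit 633120828188582741516053094500529176234032350788418949501948592398⟩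
/-- record -/
def r13e_55 : Rc := ⟨nat_lit 13, nat_lit 9, nat_lit 3, nat_lit 4, nat_lit 7, nat_lit 948644801743533260516517071091427146005692821917749518527575425299⟩
/-- record -/
def r13e_56 : Rc := ⟨nat_lit 13, nat_lit 9, nat_lit 5, nat_lit 11, nat_lit 7, nat_lit 210632624378480597501411557685023603248714342643656850323538510115⟩
/-- record -/
def r13e_57 : Rc := ⟨nat_lit 13, nat_lit 9, nat_lit 9, nat_lit 12, nat_lit 1, nat_lit 17367355⟩
/-- record -/
def r13e_58 : Rc := ⟨nat_lit 13, nat_lit 9, nat_lit 11, nat_lit 6, nat_lit 7, nat_lit 740085184035675758417035183482065173711214318197835163655515734339⟩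
/-- record -/
def r13e_59 : Rc := ⟨nat_lit 13, nat_lit 9, nat_lit 12, nat_lit 3, nat_lit 7, nat_lit 1055609251771480670544451691243534495567770618816363861130282074441⟩
/-- record -/
def r13e_60 : Rc := ⟨nat_lit 13, nat_lit 10, nat_lit 3, nat_lit 1, nat_lit 13, nat_lit 7943073323397042699140605204127852016535038201846450474934085167059607628439548403758904427004634044802868970121854339121426⟩
/-- record -/
def r13e_61 : Rc := ⟨nat_lit 13, nat_lit 10, nat_lit 4, nat_lit 10, nat_lit 13, nat_lit 1990995942654650184284130695267537667491279503007850862015790502942994310309152694019553005306288438975251117624809191244059⟩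
/-- record -/
def r13e_62 : Rc := ⟨nat_lit 13, nat_lit 10, nat_lit 6, nat_lit 2, nat_lit 13, nat_lit 7274299800930248192912760504186653167426883161711770150942369390930359657724519584213829517325251145287165731330725843173669⟩
/-- record -/
def r13e_63 : Rc := ⟨nat_lit 13, nat_lit 10, nat_lit 7, nat_lit 11, nat_lit 13, nat_lit 1322223013687156701067689861692621722873023363405940467814263418062702432657965361827076093767354372142746757706144027377967⟩
/-- record -/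
def r13e_64 : Rc := ⟨nat_lit 13, nat_lit 10, nat_lit 11, nat_lit 8, nat_lit 13, nat_lit 3328542908006270165396060273008901322873205140324798293400367934315230549144471258837583459953969357659204562613393785749829⟩
/-- record -/
def r13e_65 : Rc := ⟨nat_lit 13, nat_lit 10, nat_lit 12, nat_lit 4, nat_lit 13, nat_lit 5970193752429717294764423578225944994091119000231240005921341528473102479224143630255588815396936080731804962726475836555594⟩
/-- record -/
def r13e_66 : Rc := ⟨nat_lit 13, nat_lit 11, nat_lit 4, nat_lit 2, nat_lit 7, nat_lit 1160511673657333670738871201789198832195579483177510572545423376664⟩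
/-- record -/
def r13e_67 : Rc := ⟨nat_lit 13, nat_lit 11, nat_lit 5, nat_lit 9, nat_lit 7, nat_lit 422899875195239932872098491205798635940037955154791473021016801569⟩
/-- record -/
def r13e_68 : Rc := ⟨nat_lit 13, nat_lit 11, nat_lit 6, nat_lit 3, nat_lit 7, nat_lit 1054368551202972911378663803594580268354928554622770796606790500646⟩
/-- record -/
def r13e_69 : Rc := ⟨nat_lit 13, nat_lit 11, nat_lit 9, nat_lit 11, nat_lit 7, nat_lit 210634225186922487578363569987998754904438992686320567393515667770⟩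
/-- record -/
def r13e_70 : Rc := ⟨nat_lit 13, nat_lit 11, nat_lit 10, nat_lit 5, nat_lit 7, nat_lit 847451268065681209347694380687104489478657551338566538932039385406⟩
/-- record -/
def r13e_71 : Rc := ⟨nat_lit 13, nat_lit 11, nat_lit 11, nat_lit 12, nat_lit 1, nat_lit 17498439⟩
/-- record -/
def r13e_72 : Rc := ⟨nat_lit 13, nat_lit 12, nat_lit 5, nat_lit 5, nat_lit 7, nat_lit 844969935978512536824541894484854536997127151041018216328454734111⟩
/-- record -/
def r13e_73 : Rc := ⟨nat_lit 13, nat_lit 12, nat_lit 7, nat_lit 7, nat_lit 7, nat_lit 633537357975272965036275635336626077682921180030837839432380055854⟩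
/-- record -/
def r13e_74 : Rc := ⟨nat_lit 13, nat_lit 12, nat_lit 8, nat_lit 8, nat_lit 7, nat_lit 527810407047206332486158888919105653732570104759772660854906683698⟩
/-- record -/
def r13e_75 : Rc := ⟨nat_lit 13, nat_lit 12, nat_lit 9, nat_lit 9, nat_lit 7, nat_lit 422083343474879543742279464536097848680199015911906377608077246776⟩
/-- record -/
def r13e_76 : Rc := ⟨nat_lit 13, nat_lit 12, nat_lit 10, nat_lit 10, nat_lit 7, nat_lit 316356593683217829466229232817107099470898664932906509737749381441⟩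
/-- record -/
def r13e_77 : Rc := ⟨nat_lit 13, nat_lit 12, nat_lit 12, nat_lit 12, nat_lit 1, nat_lit 17563981⟩
/-- records -/
def F13e : List Rc := [r13e_0, r13e_1, r13e_2, r13e_3, r13e_4, r13e_5,
  r13e_6, r13e_7, r13e_8, r13e_9, r13e_10, r13e_11,
  r13e_12, r13e_13, r13e_14, r13e_15, r13e_16, r13e_17,
  r13e_18, r13e_19, r13e_20, r13e_21, r13e_22, r13e_23,
  r13e_24, r13e_25, r13e_26, r13e_27, r13e_28, r13e_29,
  r13e_30, r13e_31, r13e_32, r13e_33, r13e_34, r13e_35,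
  r13e_36, r13e_37, r13e_38, r13e_39, r13e_40, r13e_41,
  r13e_42, r13e_43, r13e_44, r13e_45, r13e_46, r13e_47,
  r13e_48, r13e_49, r13e_50, r13e_51, r13e_52, r13e_53,
  r13e_54, r13e_55, r13e_56, r13e_57, r13e_58, r13e_59,
  r13e_60, r13e_61, r13e_62, r13e_63, r13e_64, r13e_65,
  r13e_66, r13e_67, r13e_68, r13e_69, r13e_70, r13e_71,
  r13e_72, r13e_73, r13e_74, r13e_75, r13e_76, r13e_77]

/-- record -/
def r17e_0 : Rc := ⟨nat_lit 17, nat_lit 0, nat_lit 0, nat_lit 3, nat_lit 2, nat_lit 1008821718300492032⟩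
/-- record -/
def r17e_1 : Rc := ⟨nat_lit 17, nat_lit 0, nat_lit 0, nat_lit 5, nat_lit 2, nat_lit 864704335496347905⟩
/-- record -/
def r17e_2 : Rc := ⟨nat_lit 17, nat_lit 0, nat_lit 0, nat_lit 6, nat_lit 2, nat_lit 792645629061890306⟩
/-- record -/
def r17e_3 : Rc := ⟨nat_lit 17, nat_lit 0, nat_lit 0, nat_lit 7, nat_lit 2, nat_lit 720586939807301891⟩
/-- record -/
def r17e_4 : Rc := ⟨nat_lit 17, nat_lit 0, nat_lit 0, nat_lit 10, nat_lit 2, nat_lit 504410880633471236⟩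
/-- record -/
def r17e_5 : Rc := ⟨nat_lit 17, nat_lit 0, nat_lit 0, nat_lit 11, nat_lit 2, nat_lit 432352191378882821⟩
/-- record -/
def r17e_6 : Rc := ⟨nat_lit 17, nat_lit 0, nat_lit 0, nat_lit 12, nat_lit 2, nat_lit 360293484944425222⟩
/-- record -/
def r17e_7 : Rc := ⟨nat_lit 17, nat_lit 0, nat_lit 0, nat_lit 14, nat_lit 2, nat_lit 216176102140281095⟩
/-- record -/
def r17e_8 : Rc := ⟨nat_lit 17, nat_lit 1, nat_lit 1, nat_lit 16, nat_lit 1, nat_lit 16843023⟩
/-- record -/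
def r17e_9 : Rc := ⟨nat_lit 17, nat_lit 1, nat_lit 2, nat_lit 15, nat_lit 9, nat_lit 3885427297167833173542720147299152200795477862360007411853431309223760179089222205719⟩
/-- record -/
def r17e_10 : Rc := ⟨nat_lit 17, nat_lit 1, nat_lit 5, nat_lit 12, nat_lit 9, nat_lit 9819861840139538286926217316356223086615242832609368491713609178780641551223401546028⟩
/-- record -/
def r17e_11 : Rc := ⟨nat_lit 17, nat_lit 1, nat_lit 8, nat_lit 9, nat_lit 9, nat_lit 15625273197270350327519199744348818684424783775707896433973349209435448776529836835140⟩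
/-- record -/
def r17e_12 : Rc := ⟨nat_lit 17, nat_lit 1, nat_lit 11, nat_lit 6, nat_lit 9, nat_lit 21430186644304105126106706138006498754187343246104038860121213336970660824294977765723⟩
/-- record -/
def r17e_13 : Rc := ⟨nat_lit 17, nat_lit 1, nat_lit 12, nat_lit 5, nat_lit 9, nat_lit 23365328701118061143233020376039053268033988438050927470530726915031263483296967885152⟩
/-- record -/
def r17e_14 : Rc := ⟨nat_lit 17, nat_lit 1, nat_lit 14, nat_lit 3, nat_lit 9, nat_lit 27235612246126994880153431029503834705586321827069477500766250428331724433770017784177⟩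
/-- record -/
def r17e_15 : Rc := ⟨nat_lit 17, nat_lit 1, nat_lit 16, nat_lit 1, nat_lit 9, nat_lit 31105898097023179428951827804016868202527532934680684718605897922642334703509334720896⟩
/-- record -/
def r17e_16 : Rc := ⟨nat_lit 17, nat_lit 2, nat_lit 1, nat_lit 8, nat_lit 8, nat_lit 4076167861822418691088766365440335383778785468335917312712289065291267309837⟩
/-- record -/
def r17e_17 : Rc := ⟨nat_lit 17, nat_lit 2, nat_lit 4, nat_lit 15, nat_lit 8, nat_lit 904667296997777774160072374753202754385708801812277723807083342918066503974⟩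
/-- record -/
def r17e_18 : Rc := ⟨nat_lit 17, nat_lit 2, nat_lit 6, nat_lit 14, nat_lit 8, nat_lit 1383518492817351908273070984083966008794293746714046350378367441418519183669⟩
/-- record -/
def r17e_19 : Rc := ⟨nat_lit 17, nat_lit 2, nat_lit 7, nat_lit 5, nat_lit 8, nat_lit 5452527437040424126336782526814968882501650397333703219085513937460920451387⟩
/-- record -/
def r17e_20 : Rc := ⟨nat_lit 17, nat_lit 2, nat_lit 8, nat_lit 13, nat_lit 8, nat_lit 1832331698204108868073910177388372795006717157741526093349452754885214863687⟩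
/-- record -/
def r17e_21 : Rc := ⟨nat_lit 17, nat_lit 2, nat_lit 9, nat_lit 4, nat_lit 8, nat_lit 5901339993501040324424946998794162457610384578687858838313961849829489508681⟩
/-- record -/
def r17e_22 : Rc := ⟨nat_lit 17, nat_lit 2, nat_lit 11, nat_lit 3, nat_lit 8, nat_lit 6350154547100280136259925417160384770049838217715927999394668281481180348761⟩
/-- record -/
def r17e_23 : Rc := ⟨nat_lit 17, nat_lit 2, nat_lit 14, nat_lit 10, nat_lit 8, nat_lit 3178656516933932230019396315679855017167296989849179863033332514601562145142⟩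
/-- record -/
def r17e_24 : Rc := ⟨nat_lit 17, nat_lit 3, nat_lit 4, nat_lit 10, nat_lit 8, nat_lit 3169794244004325281605817458083702993115435327610629515885640380978148081955⟩
/-- record -/
def r17e_25 : Rc := ⟨nat_lit 17, nat_lit 3, nat_lit 6, nat_lit 15, nat_lit 8, nat_lit 904701617537257799232734981878396497146466789317041984144492192226148024630⟩
/-- record -/
def r17e_26 : Rc := ⟨nat_lit 17, nat_lit 3, nat_lit 11, nat_lit 2, nat_lit 8, nat_lit 6805933015209754872289891602066209636058524824577141818095429708874990682456⟩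
/-- record -/
def r17e_27 : Rc := ⟨nat_lit 17, nat_lit 3, nat_lit 12, nat_lit 13, nat_lit 8, nat_lit 1828783795868361133491896708811739617132765634970357351481366478577870242149⟩
/-- record -/
def r17e_28 : Rc := ⟨nat_lit 17, nat_lit 3, nat_lit 13, nat_lit 7, nat_lit 8, nat_lit 4540841306965906770851880271885869133595787320636622403910427997085794238825⟩
/-- record -/
def r17e_29 : Rc := ⟨nat_lit 17, nat_lit 3, nat_lit 14, nat_lit 1, nat_lit 8, nat_lit 7253011644697309433905055769454223500121019621115760095869403080368916201840⟩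
/-- record -/
def r17e_30 : Rc := ⟨nat_lit 17, nat_lit 3, nat_lit 15, nat_lit 12, nat_lit 8, nat_lit 2275748734418732478454442758231350897204381214274209459929034501855165743485⟩
/-- record -/
def r17e_31 : Rc := ⟨nat_lit 17, nat_lit 3, nat_lit 16, nat_lit 6, nat_lit 8, nat_lit 4987921849243905647767520358234729835659193504268584168780561668587431068035⟩
/-- record -/
def r17e_32 : Rc := ⟨nat_lit 17, nat_lit 4, nat_lit 2, nat_lit 8, nat_lit 3, nat_lit 2792624380896291672367038739⟩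
/-- record -/
def r17e_33 : Rc := ⟨nat_lit 17, nat_lit 4, nat_lit 3, nat_lit 12, nat_lit 3, nat_lit 1553475267929390866510381343⟩
/-- record -/
def r17e_34 : Rc := ⟨nat_lit 17, nat_lit 4, nat_lit 4, nat_lit 16, nat_lit 1, nat_lit 17039655⟩
/-- record -/
def r17e_35 : Rc := ⟨nat_lit 17, nat_lit 4, nat_lit 7, nat_lit 11, nat_lit 3, nat_lit 1858123984249651661877018940⟩
/-- record -/
def r17e_36 : Rc := ⟨nat_lit 17, nat_lit 4, nat_lit 9, nat_lit 2, nat_lit 3, nat_lit 4661625174194356742181355848⟩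
/-- record -/
def r17e_37 : Rc := ⟨nat_lit 17, nat_lit 4, nat_lit 12, nat_lit 14, nat_lit 3, nat_lit 944177835293654371856023910⟩
/-- record -/
def r17e_38 : Rc := ⟨nat_lit 17, nat_lit 4, nat_lit 13, nat_lit 1, nat_lit 3, nat_lit 4966273890514617520368124264⟩
/-- record -/
def r17e_39 : Rc := ⟨nat_lit 17, nat_lit 4, nat_lit 14, nat_lit 5, nat_lit 3, nat_lit 3727124777547716731691336051⟩
/-- record -/
def r17e_40 : Rc := ⟨nat_lit 17, nat_lit 5, nat_lit 1, nat_lit 10, nat_lit 9, nat_lit 13667111667707677979009998739759071964062171020277516558211525205853480238667599773966⟩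
/-- record -/
def r17e_41 : Rc := ⟨nat_lit 17, nat_lit 5, nat_lit 5, nat_lit 16, nat_lit 1, nat_lit 17105199⟩
/-- record -/
def r17e_42 : Rc := ⟨nat_lit 17, nat_lit 5, nat_lit 7, nat_lit 2, nat_lit 9, nat_lit 29163046368206859560871878236194719434041627438753901969902549632031818740107315577145⟩
/-- record -/
def r17e_43 : Rc := ⟨nat_lit 17, nat_lit 5, nat_lit 9, nat_lit 5, nat_lit 9, nat_lit 23320067777532756004749583962816713451077682781433313695375710445407919194554541343050⟩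
/-- record -/
def r17e_44 : Rc := ⟨nat_lit 17, nat_lit 5, nat_lit 10, nat_lit 15, nat_lit 9, nat_lit 3885634331175897156857794314331124191896177398871575093327307513452413324767552405847⟩
/-- record -/
def r17e_45 : Rc := ⟨nat_lit 17, nat_lit 5, nat_lit 13, nat_lit 11, nat_lit 9, nat_lit 11762612596916531547725567321396033334471300645700906770854607967997600992231027966316⟩
/-- record -/
def r17e_46 : Rc := ⟨nat_lit 17, nat_lit 5, nat_lit 14, nat_lit 4, nat_lit 9, nat_lit 25353568038655767010093116649349897288803422355558482322689762092656178530580315832690⟩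
/-- record -/
def r17e_47 : Rc := ⟨nat_lit 17, nat_lit 5, nat_lit 16, nat_lit 7, nat_lit 9, nat_lit 19510579947166182365508834034205599004535181017260900726371341749107289299236797350276⟩
/-- record -/
def r17e_48 : Rc := ⟨nat_lit 17, nat_lit 6, nat_lit 2, nat_lit 11, nat_lit 9, nat_lit 11732379630695814073280555324722990623001892349312401048767974303551274481161813229844⟩
/-- record -/
def r17e_49 : Rc := ⟨nat_lit 17, nat_lit 6, nat_lit 3, nat_lit 8, nat_lit 9, nat_lit 17552569069912154370691810208606623367245422045362240649242643844123689275866541850908⟩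
/-- record -/
def r17e_50 : Rc := ⟨nat_lit 17, nat_lit 6, nat_lit 6, nat_lit 16, nat_lit 1, nat_lit 17170743⟩
/-- record -/
def r17e_51 : Rc := ⟨nat_lit 17, nat_lit 6, nat_lit 7, nat_lit 13, nat_lit 9, nat_lit 7808923323405010209504067328989920573312673105065129314583916867495258387205843190077⟩
/-- record -/
def r17e_52 : Rc := ⟨nat_lit 17, nat_lit 6, nat_lit 8, nat_lit 10, nat_lit 9, nat_lit 13629097938065966921654020648299268798668317938694415927455602905069651494067950190917⟩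
/-- record -/
def r17e_53 : Rc := ⟨nat_lit 17, nat_lit 6, nat_lit 14, nat_lit 9, nat_lit 9, nat_lit 15655331083124142673658671581018772682810291638994458484090220619046238280601011880309⟩
/-- record -/
def r17e_54 : Rc := ⟨nat_lit 17, nat_lit 6, nat_lit 15, nat_lit 6, nat_lit 9, nat_lit 21476013793011525699286878366145508011291929999722678082480279514250259573961717580153⟩
/-- record -/
def r17e_55 : Rc := ⟨nat_lit 17, nat_lit 6, nat_lit 16, nat_lit 3, nat_lit 9, nat_lit 27296198832559701399850563889925549788207003860873658356808307920092730001303942857090⟩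
/-- record -/
def r17e_56 : Rc := ⟨nat_lit 17, nat_lit 7, nat_lit 2, nat_lit 7, nat_lit 4, nat_lit 13354775054149171965337410319732375826⟩
/-- record -/
def r17e_57 : Rc := ⟨nat_lit 17, nat_lit 7, nat_lit 4, nat_lit 14, nat_lit 4, nat_lit 4039935915612113937085858909665034533⟩
/-- record -/
def r17e_58 : Rc := ⟨nat_lit 17, nat_lit 7, nat_lit 5, nat_lit 9, nat_lit 4, nat_lit 10680782342848525112994393451961712939⟩
/-- record -/
def r17e_59 : Rc := ⟨nat_lit 17, nat_lit 7, nat_lit 6, nat_lit 4, nat_lit 4, nat_lit 17321628928231776307610258142686282034⟩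
/-- record -/
def r17e_60 : Rc := ⟨nat_lit 17, nat_lit 7, nat_lit 8, nat_lit 11, nat_lit 4, nat_lit 8006790262278328239659138527940510022⟩
/-- record -/
def r17e_61 : Rc := ⟨nat_lit 17, nat_lit 7, nat_lit 9, nat_lit 6, nat_lit 4, nat_lit 14647636216931129381480264975782445387⟩
/-- record -/
def r17e_62 : Rc := ⟨nat_lit 17, nat_lit 7, nat_lit 10, nat_lit 1, nat_lit 4, nat_lit 21288482724324158082670428248382832976⟩
/-- record -/
def r17e_63 : Rc := ⟨nat_lit 17, nat_lit 7, nat_lit 12, nat_lit 8, nat_lit 4, nat_lit 11973644056204314964416637252042948962⟩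
/-- record -/
def r17e_64 : Rc := ⟨nat_lit 17, nat_lit 8, nat_lit 1, nat_lit 2, nat_lit 17, nat_lit 3387401194776183714003269199795251974509574055990265443487460753245027260901404361990243883056641555247829397391254307526930218223117124561323606195357594316964105⟩
/-- record -/
def r17e_65 : Rc := ⟨nat_lit 17, nat_lit 8, nat_lit 2, nat_lit 4, nat_lit 17, nat_lit 2936650924240865372342370950153724401754748616534344533837106864460203709648361327683546652675727768531554090878173802794847535426252542263432226564575611255783696⟩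
/-- record -/
def r17e_66 : Rc := ⟨nat_lit 17, nat_lit 8, nat_lit 6, nat_lit 12, nat_lit 17, nat_lit 1133537446271041104580407560320248602576922740130980626264994908814888947038040295546693409051471573554840337910648065391410097938757327052283373150456418274902324⟩
/-- record -/
def r17e_67 : Rc := ⟨nat_lit 17, nat_lit 8, nat_lit 7, nat_lit 14, nat_lit 17, nat_lit 682787055275153519157406956629771194161558021120373120073919502682919075912503374360463522785640107014635007191069881974499495088731230872258385104694137007374654⟩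
/-- record -/
def r17e_68 : Rc := ⟨nat_lit 17, nat_lit 8, nat_lit 10, nat_lit 3, nat_lit 17, nat_lit 3154557260108017737936468386497950216613496821823987528450610914382438138046098656052291745036561254380512654051632244588233857677454137784068666663515743670763858⟩
/-- record -/
def r17e_69 : Rc := ⟨nat_lit 17, nat_lit 8, nat_lit 12, nat_lit 7, nat_lit 17, nat_lit 2253000098961079450394508840125084119038537998086134683290747173301825478700236212674646091092299567131793093604531143270799549923040081971459940108200474548109665⟩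
/-- record -/
def r17e_70 : Rc := ⟨nat_lit 17, nat_lit 8, nat_lit 13, nat_lit 9, nat_lit 17, nat_lit 1802251410282361601275354916931225812796700121103506528897992094902627042892232460181310128100642581305949532488634909204294343962336081166592307832316453710201194⟩
/-- record -/
def r17e_71 : Rc := ⟨nat_lit 17, nat_lit 8, nat_lit 15, nat_lit 13, nat_lit 17, nat_lit 900692653400056310553819880334425004988564595452564503291187442752258483127915428229902108786242155421202123798997980320202642150787718746551487412416034657272190⟩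
/-- record -/
def r17e_72 : Rc := ⟨nat_lit 17, nat_lit 9, nat_lit 2, nat_lit 13, nat_lit 17, nat_lit 913874459317281114428383199706307444962047284626244829233866481374502318935182366578464573244951457658894590150520240290030576244355442381927296208605798724075798⟩
/-- record -/
def r17e_73 : Rc := ⟨nat_lit 17, nat_lit 9, nat_lit 4, nat_lit 9, nat_lit 17, nat_lit 1811915436450873906641682897242740119262810673762986905666559892820212527650607727965867787746599845861110408620715305553748332564090747431615566685120867517137186⟩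
/-- record -/
def r17e_74 : Rc := ⟨nat_lit 17, nat_lit 9, nat_lit 5, nat_lit 7, nat_lit 17, nat_lit 2260908238603700458749933816666399057196100206809952693410582506779391825541566431539641241526293254756482382029301828119911064553677605882647263526120064083886377⟩
/-- record -/
def r17e_75 : Rc := ⟨nat_lit 17, nat_lit 9, nat_lit 7, nat_lit 3, nat_lit 17, nat_lit 3158951052397687384524719017244394034763727724011343473995496218239060029039152497851866931642026592067392505971861153925946662187075399397561533733963472025747770⟩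
/-- record -/
def r17e_76 : Rc := ⟨nat_lit 17, nat_lit 9, nat_lit 10, nat_lit 14, nat_lit 17, nat_lit 681909112010877618673224519853185477329938622200018665012270154555133749122328131457008920334964472439143305159407127467824135736903527685274781742745113766461782⟩
/-- record -/
def r17e_77 : Rc := ⟨nat_lit 17, nat_lit 9, nat_lit 11, nat_lit 12, nat_lit 17, nat_lit 1130900398609630575495591043136341965579130588994389113680304338902832153892483599708389816695449648770042828895741407385413596770103241377700347217303492887118172⟩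
/-- record -/
def r17e_78 : Rc := ⟨nat_lit 17, nat_lit 9, nat_lit 15, nat_lit 4, nat_lit 17, nat_lit 2926986469020658301308723378127445755655360300290631028879669065408190784676855336426172737915755493376177828505745699320555260287817172057982439200994943245549944⟩
/-- record -/
def r17e_79 : Rc := ⟨nat_lit 17, nat_lit 9, nat_lit 16, nat_lit 2, nat_lit 17, nat_lit 3375977849683358620770350433504125595370280250373683868677855957371196471981399476281886583651030579692856577696080956701884971205440590128268499947822421532803457⟩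
/-- record -/
def r17e_80 : Rc := ⟨nat_lit 17, nat_lit 10, nat_lit 5, nat_lit 8, nat_lit 4, nat_lit 12041145816844796761849893280937541930⟩
/-- record -/
def r17e_81 : Rc := ⟨nat_lit 17, nat_lit 10, nat_lit 7, nat_lit 1, nat_lit 4, nat_lit 21335215297530499979294877833161736504⟩
/-- record -/
def r17e_82 : Rc := ⟨nat_lit 17, nat_lit 10, nat_lit 8, nat_lit 6, nat_lit 4, nat_lit 14683984196420401327700311338503504195⟩
/-- record -/
def r17e_83 : Rc := ⟨nat_lit 17, nat_lit 10, nat_lit 9, nat_lit 11, nat_lit 4, nat_lit 8032753648050530235474781668603724110⟩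
/-- record -/
def r17e_84 : Rc := ⟨nat_lit 17, nat_lit 10, nat_lit 11, nat_lit 4, nat_lit 4, nat_lit 17326823126569838402617094839233806682⟩
/-- record -/
def r17e_85 : Rc := ⟨nat_lit 17, nat_lit 10, nat_lit 12, nat_lit 9, nat_lit 4, nat_lit 10675591947469517257596826926451392867⟩
/-- record -/
def r17e_86 : Rc := ⟨nat_lit 17, nat_lit 10, nat_lit 13, nat_lit 14, nat_lit 4, nat_lit 4024360926516036131283889162096869741⟩
/-- record -/
def r17e_87 : Rc := ⟨nat_lit 17, nat_lit 10, nat_lit 15, nat_lit 7, nat_lit 4, nat_lit 13318430877618954258726634128048521594⟩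
/-- record -/
def r17e_88 : Rc := ⟨nat_lit 17, nat_lit 11, nat_lit 1, nat_lit 3, nat_lit 9, nat_lit 27227908363679688227427281778602448952159256829747999346424880589664426174647282368778⟩
/-- record -/
def r17e_89 : Rc := ⟨nat_lit 17, nat_lit 11, nat_lit 2, nat_lit 6, nat_lit 9, nat_lit 21392553634090578018365261726241308591986571986741328592338857664711078351659806163217⟩
/-- record -/
def r17e_90 : Rc := ⟨nat_lit 17, nat_lit 11, nat_lit 3, nat_lit 9, nat_lit 9, nat_lit 15556690118142890259003089574827039375919772433903827865686499701863566298779549892893⟩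
/-- record -/
def r17e_91 : Rc := ⟨nat_lit 17, nat_lit 11, nat_lit 9, nat_lit 10, nat_lit 9, nat_lit 13697406933680259358751769418426219569217937508553164966418095448946337173687960797517⟩
/-- record -/
def r17e_92 : Rc := ⟨nat_lit 17, nat_lit 11, nat_lit 10, nat_lit 13, nat_lit 9, nat_lit 7862042249609527398213006844125663321425020304579236993342516400870041808116105544021⟩
/-- record -/
def r17e_93 : Rc := ⟨nat_lit 17, nat_lit 11, nat_lit 11, nat_lit 16, nat_lit 1, nat_lit 17498463⟩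
/-- record -/
def r17e_94 : Rc := ⟨nat_lit 17, nat_lit 11, nat_lit 14, nat_lit 8, nat_lit 9, nat_lit 17544966624485285142501419420727977045754509019865806622205622680329607396122147094900⟩
/-- record -/
def r17e_95 : Rc := ⟨nat_lit 17, nat_lit 11, nat_lit 15, nat_lit 11, nat_lit 9, nat_lit 11709616758637556670964400667144978937404222357492305544456908590398698517269177893244⟩
/-- record -/
def r17e_96 : Rc := ⟨nat_lit 17, nat_lit 12, nat_lit 1, nat_lit 7, nat_lit 9, nat_lit 19472649237743943318704208164859929507147442688500929826571447948351032226887664140556⟩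
/-- record -/
def r17e_97 : Rc := ⟨nat_lit 17, nat_lit 12, nat_lit 3, nat_lit 4, nat_lit 9, nat_lit 25285260895693703656153617745765232024058365621247841747154217465605548270396229026074⟩
/-- record -/
def r17e_98 : Rc := ⟨nat_lit 17, nat_lit 12, nat_lit 4, nat_lit 11, nat_lit 9, nat_lit 11679146879992966789484379785976644798459706660188656869890471961042958559351545790756⟩
/-- record -/
def r17e_99 : Rc := ⟨nat_lit 17, nat_lit 12, nat_lit 7, nat_lit 15, nat_lit 9, nat_lit 3885634331170595537259421180407576961196954121754589529929958174011389894751064686911⟩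
/-- record -/
def r17e_100 : Rc := ⟨nat_lit 17, nat_lit 12, nat_lit 8, nat_lit 5, nat_lit 9, nat_lit 23433896959296291306272022589836304456158424099052544201882194880628408702377130721602⟩
/-- record -/
def r17e_101 : Rc := ⟨nat_lit 17, nat_lit 12, nat_lit 10, nat_lit 2, nat_lit 9, nat_lit 29246515790459614030744997245979617086700101349329282172979114607988350525037947388241⟩
/-- record -/
def r17e_102 : Rc := ⟨nat_lit 17, nat_lit 12, nat_lit 12, nat_lit 16, nat_lit 1, nat_lit 17564007⟩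
/-- record -/
def r17e_103 : Rc := ⟨nat_lit 17, nat_lit 12, nat_lit 16, nat_lit 10, nat_lit 9, nat_lit 13659511074957775849682135280847957360399653338540501251587010732460856440237069173126⟩
/-- record -/
def r17e_104 : Rc := ⟨nat_lit 17, nat_lit 13, nat_lit 3, nat_lit 5, nat_lit 3, nat_lit 3721079410576784721930158363⟩
/-- record -/
def r17e_105 : Rc := ⟨nat_lit 17, nat_lit 13, nat_lit 4, nat_lit 1, nat_lit 3, nat_lit 4957810376757114022858129696⟩
/-- record -/
def r17e_106 : Rc := ⟨nat_lit 17, nat_lit 13, nat_lit 5, nat_lit 14, nat_lit 3, nat_lit 933296174749579386597212462⟩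
/-- record -/
def r17e_107 : Rc := ⟨nat_lit 17, nat_lit 13, nat_lit 8, nat_lit 2, nat_lit 3, nat_lit 4643489073290567293676093760⟩
/-- record -/
def r17e_108 : Rc := ⟨nat_lit 17, nat_lit 13, nat_lit 10, nat_lit 11, nat_lit 3, nat_lit 1876260085154004678812172628⟩
/-- record -/
def r17e_109 : Rc := ⟨nat_lit 17, nat_lit 13, nat_lit 13, nat_lit 16, nat_lit 1, nat_lit 17629551⟩
/-- record -/
def r17e_110 : Rc := ⟨nat_lit 17, nat_lit 13, nat_lit 14, nat_lit 12, nat_lit 3, nat_lit 1561938781687457932450267511⟩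
/-- record -/
def r17e_111 : Rc := ⟨nat_lit 17, nat_lit 13, nat_lit 15, nat_lit 8, nat_lit 3, nat_lit 2798669747867787250558108027⟩
/-- record -/
def r17e_112 : Rc := ⟨nat_lit 17, nat_lit 14, nat_lit 1, nat_lit 6, nat_lit 8, nat_lit 4993221743395818253235638915724061796349307660721013564337469198641050550539⟩
/-- record -/
def r17e_113 : Rc := ⟨nat_lit 17, nat_lit 14, nat_lit 2, nat_lit 12, nat_lit 8, nat_lit 2277516659881377548810096875881607293701607942719213207375493734084719280405⟩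
/-- record -/
def r17e_114 : Rc := ⟨nat_lit 17, nat_lit 14, nat_lit 3, nat_lit 1, nat_lit 8, nat_lit 7251246738754038723148091853961600491315605461065157212548833057248753090840⟩
/-- record -/
def r17e_115 : Rc := ⟨nat_lit 17, nat_lit 14, nat_lit 4, nat_lit 7, nat_lit 8, nat_lit 4535538824654177605248079322150103799484985744094196023506899990136191058209⟩
/-- record -/
def r17e_116 : Rc := ⟨nat_lit 17, nat_lit 14, nat_lit 5, nat_lit 13, nat_lit 8, nat_lit 1819952364382624930546624235107040709351322726286535458879517039406502248749⟩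
/-- record -/
def r17e_117 : Rc := ⟨nat_lit 17, nat_lit 14, nat_lit 6, nat_lit 2, nat_lit 8, nat_lit 6793561850563940905143466701619740910200934756367508415457935983867035779376⟩
/-- record -/
def r17e_118 : Rc := ⟨nat_lit 17, nat_lit 14, nat_lit 11, nat_lit 15, nat_lit 8, nat_lit 904701617539314730144955348509972142540842380617249113724836628016499917150⟩
/-- record -/
def r17e_119 : Rc := ⟨nat_lit 17, nat_lit 14, nat_lit 13, nat_lit 10, nat_lit 8, nat_lit 3192763902878993295897624917045387902490603644448387687056772238566813991275⟩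
/-- record -/
def r17e_120 : Rc := ⟨nat_lit 17, nat_lit 15, nat_lit 3, nat_lit 10, nat_lit 8, nat_lit 3183956842445814262176795338131793136651249681748123208273052022783360303390⟩
/-- record -/
def r17e_121 : Rc := ⟨nat_lit 17, nat_lit 15, nat_lit 6, nat_lit 3, nat_lit 8, nat_lit 6344852496148520397345404932387225594732875176620015568673952252659755843889⟩
/-- record -/
def r17e_122 : Rc := ⟨nat_lit 17, nat_lit 15, nat_lit 8, nat_lit 4, nat_lit 8, nat_lit 5888972279723462033684344340912699380375560566080335109912488875864515084609⟩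
/-- record -/
def r17e_123 : Rc := ⟨nat_lit 17, nat_lit 15, nat_lit 9, nat_lit 13, nat_lit 8, nat_lit 1816432015737263443954587896644970072862319684338458809761523927570759745871⟩
/-- record -/
def r17e_124 : Rc := ⟨nat_lit 17, nat_lit 15, nat_lit 10, nat_lit 5, nat_lit 8, nat_lit 5433090178212112888486838529163282552231112924373762009024492399030589915475⟩
/-- record -/
def r17e_125 : Rc := ⟨nat_lit 17, nat_lit 15, nat_lit 11, nat_lit 14, nat_lit 8, nat_lit 1360550559367752260589175564211837120320057733834243552616290538913765720413⟩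
/-- record -/
def r17e_126 : Rc := ⟨nat_lit 17, nat_lit 15, nat_lit 13, nat_lit 15, nat_lit 8, nat_lit 904667297001479707462816073474800751746968367869974976575496465755629617518⟩
/-- record -/
def r17e_127 : Rc := ⟨nat_lit 17, nat_lit 15, nat_lit 16, nat_lit 8, nat_lit 8, nat_lit 4095600375702583762926194076769813505948342962349985732604073393630565302661⟩
/-- record -/
def r17e_128 : Rc := ⟨nat_lit 17, nat_lit 16, nat_lit 1, nat_lit 1, nat_lit 9, nat_lit 31189358255954731643131173580320243418207376331605759358757510412915635372457127313672⟩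
/-- record -/
def r17e_129 : Rc := ⟨nat_lit 17, nat_lit 16, nat_lit 3, nat_lit 3, nat_lit 9, nat_lit 27288731172306777504031679109055135996593478954083864466399684387233826990729479586073⟩
/-- record -/
def r17e_130 : Rc := ⟨nat_lit 17, nat_lit 16, nat_lit 5, nat_lit 5, nat_lit 9, nat_lit 23388102689206286402309353358381999306825612503860009492960522946907979927729468342568⟩
/-- record -/
def r17e_131 : Rc := ⟨nat_lit 17, nat_lit 16, nat_lit 6, nat_lit 6, nat_lit 9, nat_lit 21437787237041642561179657377923534048733020290518615608286262841954102398616949752115⟩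
/-- record -/
def r17e_132 : Rc := ⟨nat_lit 17, nat_lit 16, nat_lit 9, nat_lit 9, nat_lit 9, nat_lit 15587340635146418244208814288570814141619484530289962653533912998690404349112398905676⟩
/-- record -/
def r17e_133 : Rc := ⟨nat_lit 17, nat_lit 16, nat_lit 12, nat_lit 12, nat_lit 9, nat_lit 9736383154494909835571329148102952643256139170264361380345400745968314589719877910884⟩
/-- record -/
def r17e_134 : Rc := ⟨nat_lit 17, nat_lit 16, nat_lit 15, nat_lit 15, nat_lit 9, nat_lit 3885427297190799812912411615351899263656949741084224691407785931639536243036193292671⟩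
/-- record -/
def r17e_135 : Rc := ⟨nat_lit 17, nat_lit 16, nat_lit 16, nat_lit 16, nat_lit 1, nat_lit 17826183⟩
/-- records -/
def F17e : List Rc := [r17e_0, r17e_1, r17e_2, r17e_3, r17e_4, r17e_5,
  r17e_6, r17e_7, r17e_8, r17e_9, r17e_10, r17e_11,
  r17e_12, r17e_13, r17e_14, r17e_15, r17e_16, r17e_17,
  r17e_18, r17e_19, r17e_20, r17e_21, r17e_22, r17e_23,
  r17e_24, r17e_25, r17e_26, r17e_27, r17e_28, r17e_29,
  r17e_30, r17e_31, r17e_32, r17e_33, r17e_34, r17e_35,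
  r17e_36, r17e_37, r17e_38, r17e_39, r17e_40, r17e_41,
  r17e_42, r17e_43, r17e_44, r17e_45, r17e_46, r17e_47,
  r17e_48, r17e_49, r17e_50, r17e_51, r17e_52, r17e_53,
  r17e_54, r17e_55, r17e_56, r17e_57, r17e_58, r17e_59,
  r17e_60, r17e_61, r17e_62, r17e_63, r17e_64, r17e_65,
  r17e_66, r17e_67, r17e_68, r17e_69, r17e_70, r17e_71,
  r17e_72, r17e_73, r17e_74, r17e_75, r17e_76, r17e_77,
  r17e_78, r17e_79, r17e_80, r17e_81, r17e_82, r17e_83,
  r17e_84, r17e_85, r17e_86, r17e_87, r17e_88, r17e_89,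
  r17e_90, r17e_91, r17e_92, r17e_93, r17e_94, r17e_95,
  r17e_96, r17e_97, r17e_98, r17e_99, r17e_100, r17e_101,
  r17e_102, r17e_103, r17e_104, r17e_105, r17e_106, r17e_107,
  r17e_108, r17e_109, r17e_110, r17e_111, r17e_112, r17e_113,
  r17e_114, r17e_115, r17e_116, r17e_117, r17e_118, r17e_119,
  r17e_120, r17e_121, r17e_122, r17e_123, r17e_124, r17e_125,
  r17e_126, r17e_127, r17e_128, r17e_129, r17e_130, r17e_131,
  r17e_132, r17e_133, r17e_134, r17e_135]

/-- record -/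
def r19e_0 : Rc := ⟨nat_lit 19, nat_lit 0, nat_lit 0, nat_lit 1, nat_lit 2, nat_lit 1297056483908780288⟩
/-- record -/
def r19e_1 : Rc := ⟨nat_lit 19, nat_lit 0, nat_lit 0, nat_lit 4, nat_lit 2, nat_lit 1080880411850047745⟩
/-- record -/
def r19e_2 : Rc := ⟨nat_lit 19, nat_lit 0, nat_lit 0, nat_lit 5, nat_lit 2, nat_lit 1008821714005524738⟩
/-- record -/
def r19e_3 : Rc := ⟨nat_lit 19, nat_lit 0, nat_lit 0, nat_lit 6, nat_lit 2, nat_lit 936763046225772803⟩
/-- record -/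
def r19e_4 : Rc := ⟨nat_lit 19, nat_lit 0, nat_lit 0, nat_lit 7, nat_lit 2, nat_lit 864704348381249796⟩
/-- record -/
def r19e_5 : Rc := ⟨nat_lit 19, nat_lit 0, nat_lit 0, nat_lit 9, nat_lit 2, nat_lit 720586969872072965⟩
/-- record -/
def r19e_6 : Rc := ⟨nat_lit 19, nat_lit 0, nat_lit 0, nat_lit 11, nat_lit 2, nat_lit 576469565593092358⟩
/-- record -/
def r19e_7 : Rc := ⟨nat_lit 19, nat_lit 0, nat_lit 0, nat_lit 16, nat_lit 2, nat_lit 216176093550346503⟩
/-- record -/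
def r19e_8 : Rc := ⟨nat_lit 19, nat_lit 0, nat_lit 0, nat_lit 17, nat_lit 2, nat_lit 144117408590725384⟩
/-- record -/
def r19e_9 : Rc := ⟨nat_lit 19, nat_lit 1, nat_lit 2, nat_lit 17, nat_lit 18, nat_lit 1932313161965522299206896012761069717019247271073379188253183097850004453331751531095813037555884161553449966745041485827879243420721784194440090512339655312972683531059481⟩
/-- record -/
def r19e_10 : Rc := ⟨nat_lit 19, nat_lit 1, nat_lit 3, nat_lit 16, nat_lit 18, nat_lit 2966416413629820894452362386740281126591693387597013592806853952710956168497070110491658817831645353305016124590938855072473894757176638115986815774790013470220830520705314⟩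
/-- record -/
def r19e_11 : Rc := ⟨nat_lit 19, nat_lit 1, nat_lit 4, nat_lit 15, nat_lit 18, nat_lit 3928806487448484974780823567113634944056615670685721977313748535834975681807863590055686109106270208231086989831523606643070453597402025228141726997024596557963213865550124⟩
/-- record -/
def r19e_12 : Rc := ⟨nat_lit 19, nat_lit 1, nat_lit 6, nat_lit 13, nat_lit 18, nat_lit 5853583354934793075210312125567311787927874376608343879416696661415617087135770731148743951072807934367356924411103141746700614125821449587958330216381715212616603963294010⟩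
/-- record -/
def r19e_13 : Rc := ⟨nat_lit 19, nat_lit 1, nat_lit 9, nat_lit 10, nat_lit 18, nat_lit 8740754502042361519988021071996996431976971179269891958121568795477092074635484233789314221862183192981690281338519402165620678761777353789068912167308871608168610833432916⟩
/-- record -/
def r19e_14 : Rc := ⟨nat_lit 19, nat_lit 1, nat_lit 11, nat_lit 8, nat_lit 18, nat_lit 10665250064148031965869827083700559784607581510369835618881821275713550097349666683896656440483412014432151816513977906113292342096265764611011512719205031677715278582579560⟩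
/-- record -/
def r19e_15 : Rc := ⟨nat_lit 19, nat_lit 1, nat_lit 12, nat_lit 7, nat_lit 18, nat_lit 11627641173165879880122807373606288969537480303909008749251505000125432836630968193315248987524518244817489537117985731905018828599524206302745328292401402813208189932208496⟩
/-- record -/
def r19e_16 : Rc := ⟨nat_lit 19, nat_lit 1, nat_lit 13, nat_lit 6, nat_lit 18, nat_lit 12590034418938443470492407824981720876782929857545245365198290321934919690336035995328895347793907667849013738892397455526200879647893249428409977555822762044528375038542198⟩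
/-- record -/
def r19e_17 : Rc := ⟨nat_lit 19, nat_lit 1, nat_lit 17, nat_lit 2, nat_lit 18, nat_lit 16439588267732766535864111599002752070663532414562311692098600952181337943595891879497821830453579115233902569613348802117843736063071867258750331567899381604229695957696921⟩
/-- record -/
def r19e_18 : Rc := ⟨nat_lit 19, nat_lit 2, nat_lit 1, nat_lit 9, nat_lit 20, nat_lit 178431529864117971956723353363350974470363600371753224702535576969369376262361024710798328205336294881755026384240934460557325589851580991712627868977040087370957268545043628582076963642016012⟩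
/-- record -/
def r19e_19 : Rc := ⟨nat_lit 19, nat_lit 2, nat_lit 2, nat_lit 18, nat_lit 1, nat_lit 16908570⟩
/-- record -/
def r19e_20 : Rc := ⟨nat_lit 19, nat_lit 2, nat_lit 3, nat_lit 8, nat_lit 20, nat_lit 196115559037421824482234119741332950757018320805436395182562403080883949425648115856481379324640436640433643974406682221258214584283605817138732289967526414920499768618938048761644475612266781⟩
/-- record -/
def r19e_21 : Rc := ⟨nat_lit 19, nat_lit 2, nat_lit 6, nat_lit 16, nat_lit 20, nat_lit 54652638839956552815377876500369050239949791328241023478394489996853679123062987066418786243756765292168890908844083110966670464635111844257045923881116145096685531600957947324455894449783101⟩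
/-- record -/
def r19e_22 : Rc := ⟨nat_lit 19, nat_lit 2, nat_lit 11, nat_lit 4, nat_lit 20, nat_lit 268169807137117226170404116376013046578270397686645341521304653232466642510299386001696016486161580710019656083646502986797599656017618945897155687175071859794178921464597348653844948976796006⟩
/-- record -/
def r19e_23 : Rc := ⟨nat_lit 19, nat_lit 2, nat_lit 14, nat_lit 12, nat_lit 20, nat_lit 125384204676620615273896468037722919022825247345292507308007504442397208076480146692746201572901997246731508744606475502386019086107751092737571065078522187200607946878856449473977883839037826⟩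
/-- record -/
def r19e_24 : Rc := ⟨nat_lit 19, nat_lit 2, nat_lit 15, nat_lit 2, nat_lit 20, nat_lit 303533001234945388376958114319026547557829715116338105756389625035385406826611466836034215185348679284166447075075973583549525738935118912356278190526997129282700723293763302304783873834353032⟩
/-- record -/
def r19e_25 : Rc := ⟨nat_lit 19, nat_lit 2, nat_lit 16, nat_lit 11, nat_lit 20, nat_lit 143068274170994157699959905529396090507369710244900146129476549747702628289031209613937105560206394353635047020667115515520947118242519670031318993980692139599375338542948418196997584290185619⟩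
/-- record -/
def r19e_26 : Rc := ⟨nat_lit 19, nat_lit 2, nat_lit 18, nat_lit 10, nat_lit 20, nat_lit 160747286131877420895727223248103826565366848016022763964153099891465002786566643582347457747481480500472653098116482462226554577835741144240224916789207801757408954041663730459388962247147942⟩
/-- record -/
def r19e_27 : Rc := ⟨nat_lit 19, nat_lit 3, nat_lit 1, nat_lit 6, nat_lit 20, nat_lit 232036594626120996502410225511406860283355873413460270822820526052453035224334962302693509655082496744188450793628979780814047065708494659737474956932164925618284820826378333041773345601945867⟩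
/-- record -/
def r19e_28 : Rc := ⟨nat_lit 19, nat_lit 3, nat_lit 2, nat_lit 12, nat_lit 20, nat_lit 125033809747584151817285411863514052013156205233286061801344083220159239654157281255177370074287998508616266423995058295577104030422244884671589325706710333301905850255294427624305567841059096⟩
/-- record -/
def r19e_29 : Rc := ⟨nat_lit 19, nat_lit 3, nat_lit 3, nat_lit 18, nat_lit 1, nat_lit 16974115⟩
/-- record -/
def r19e_30 : Rc := ⟨nat_lit 19, nat_lit 3, nat_lit 4, nat_lit 5, nat_lit 20, nat_lit 249652505327013892613373953244338521118615514405632245970584531261904441567685251502689429147952599335743176913328641997557343309025978870383924456886964129078019001804710388180911446655435046⟩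
/-- record -/
def r19e_31 : Rc := ⟨nat_lit 19, nat_lit 3, nat_lit 7, nat_lit 4, nat_lit 20, nat_lit 268585863432048308317194488587875471359843979302446522656300375599598418887077888651142803715672518263527540090817749618371966800636410460159157275728855529546868953905548406095645078372680001⟩
/-- record -/
def r19e_32 : Rc := ⟨nat_lit 19, nat_lit 3, nat_lit 10, nat_lit 3, nat_lit 20, nat_lit 286201731608463716912820883658154877412055614818095062470297082574474159861538080708434361141338978324991639032026292070714550103675527703994436059996045791516363370924491553508519249856102746⟩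
/-- record -/
def r19e_33 : Rc := ⟨nat_lit 19, nat_lit 3, nat_lit 12, nat_lit 15, nat_lit 20, nat_lit 72196513456765241507166398080376157273152668473512277112844914170883478007619937398597185587239057584832678177910412477546373574337365158304465525862903912447542346264739664443478858558275955⟩
/-- record -/
def r19e_34 : Rc := ⟨nat_lit 19, nat_lit 3, nat_lit 14, nat_lit 8, nat_lit 20, nat_lit 196809841338767201101689797684847173289005823662272336603428258402581588055003239083551178851864240416822873591590144292708278019765773293303052520133772209184360048222659182748132874880483712⟩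
/-- record -/
def r19e_35 : Rc := ⟨nat_lit 19, nat_lit 3, nat_lit 17, nat_lit 7, nat_lit 20, nat_lit 214425795626414787206852714568387698061979110288705045909420152337863339495111115422402772498799048329521654895172656031393403581962479139400433266379936610189102757937839983357931810466234780⟩
/-- record -/
def r19e_36 : Rc := ⟨nat_lit 19, nat_lit 4, nat_lit 1, nat_lit 14, nat_lit 6, nat_lit 123274843883822648260494522764856363899946828131475915024⟩
/-- record -/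
def r19e_37 : Rc := ⟨nat_lit 19, nat_lit 4, nat_lit 3, nat_lit 4, nat_lit 6, nat_lit 368282166612523588742694201864073578038726695823608119579⟩
/-- record -/
def r19e_38 : Rc := ⟨nat_lit 19, nat_lit 4, nat_lit 7, nat_lit 3, nat_lit 6, nat_lit 392418230376972686663672368010584270237789744309458960704⟩
/-- record -/
def r19e_39 : Rc := ⟨nat_lit 19, nat_lit 4, nat_lit 8, nat_lit 17, nat_lit 6, nat_lit 49046592004486007877810465645796055101449928940189909328⟩
/-- record -/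
def r19e_40 : Rc := ⟨nat_lit 19, nat_lit 4, nat_lit 9, nat_lit 12, nat_lit 6, nat_lit 173366649182111048087546159760642119175038817557222261078⟩
/-- record -/
def r19e_41 : Rc := ⟨nat_lit 19, nat_lit 4, nat_lit 10, nat_lit 7, nat_lit 6, nat_lit 295873799887441139653682903406950958092280535425105527132⟩
/-- record -/
def r19e_42 : Rc := ⟨nat_lit 19, nat_lit 4, nat_lit 11, nat_lit 2, nat_lit 6, nat_lit 418373970449310348504620933088918062510058273924190568804⟩
/-- record -/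
def r19e_43 : Rc := ⟨nat_lit 19, nat_lit 4, nat_lit 15, nat_lit 1, nat_lit 6, nat_lit 442510099998794609122127489505484900019365657124343644551⟩
/-- record -/
def r19e_44 : Rc := ⟨nat_lit 19, nat_lit 4, nat_lit 17, nat_lit 10, nat_lit 6, nat_lit 221638830826891224231767473133666916278256348924173615518⟩
/-- record -/
def r19e_45 : Rc := ⟨nat_lit 19, nat_lit 5, nat_lit 5, nat_lit 18, nat_lit 1, nat_lit 17105205⟩
/-- record -/
def r19e_46 : Rc := ⟨nat_lit 19, nat_lit 5, nat_lit 6, nat_lit 14, nat_lit 20, nat_lit 89391442039042244631100102479908948085518254671650601074667140942934111167331811014720721388155627084757441867287936884221872102023064081887250778431103379935627387713411200328500891177255227⟩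
/-- record -/
def r19e_47 : Rc := ⟨nat_lit 19, nat_lit 5, nat_lit 8, nat_lit 6, nat_lit 20, nat_lit 231828264255043027273026701352087845465311074316891637872431076222298883965462388010678163716728290434665574877273337724020742374581841404664269104418023102440753301507430924438928434837913932⟩
/-- record -/
def r19e_48 : Rc := ⟨nat_lit 19, nat_lit 5, nat_lit 10, nat_lit 17, nat_lit 20, nat_lit 35646247136406239926271216345083069442957440914427626817716263861564158003646884985993578356391082850072314875776704315978651811504021222586600165648801870859946354183712861682940196138844514⟩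
/-- record -/
def r19e_49 : Rc := ⟨nat_lit 19, nat_lit 5, nat_lit 11, nat_lit 13, nat_lit 20, nat_lit 108190035600569724989228529602314033358445931563794495187682943837728053500977431190472575401326735925799454543793925842801254263978544451214849004150741970526458928474221600918067766073033065⟩
/-- record -/
def r19e_50 : Rc := ⟨nat_lit 19, nat_lit 5, nat_lit 12, nat_lit 9, nat_lit 20, nat_lit 179405889802087164308826304432618942520636282027258165193760067913651386616164557638068216981380782424199380622156133030027800028125041959980100084292836175296901563099550293732097372230844785⟩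
/-- record -/
def r19e_51 : Rc := ⟨nat_lit 19, nat_lit 5, nat_lit 14, nat_lit 1, nat_lit 20, nat_lit 321842613168198415717633756341658762723279885114138802130424346513159646752719958482343494503296166845321403353948380070969790795519798532834199468192287911271246748213581019617110766603534718⟩
/-- record -/
def r19e_52 : Rc := ⟨nat_lit 19, nat_lit 5, nat_lit 16, nat_lit 12, nat_lit 20, nat_lit 125660759694040735971430172081418937059175571495413002249040226333548969456169627917870599061429768543316501831249970784127792780208966044056119023613514375006425221633068329766887396414390676⟩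
/-- record -/
def r19e_53 : Rc := ⟨nat_lit 19, nat_lit 5, nat_lit 17, nat_lit 8, nat_lit 20, nat_lit 196881672474111660439765088172246793325757376183209428960179615078236044638446380801171556741369895110238606670018281750817562852647285275289381978865165112519225890821904870364457798667141533⟩
/-- record -/
def r19e_54 : Rc := ⟨nat_lit 19, nat_lit 6, nat_lit 1, nat_lit 3, nat_lit 4, nat_lit 21324869365913961487128802532874649866⟩
/-- record -/
def r19e_55 : Rc := ⟨nat_lit 19, nat_lit 6, nat_lit 2, nat_lit 6, nat_lit 4, nat_lit 17332053611088384687701913639806435604⟩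
/-- record -/
def r19e_56 : Rc := ⟨nat_lit 19, nat_lit 6, nat_lit 5, nat_lit 15, nat_lit 4, nat_lit 5353607383386437283160947509921448242⟩
/-- record -/
def r19e_57 : Rc := ⟨nat_lit 19, nat_lit 6, nat_lit 6, nat_lit 18, nat_lit 1, nat_lit 17170750⟩
/-- record -/
def r19e_58 : Rc := ⟨nat_lit 19, nat_lit 6, nat_lit 7, nat_lit 2, nat_lit 4, nat_lit 22622923219528871215025434623213961535⟩
/-- record -/
def r19e_59 : Rc := ⟨nat_lit 19, nat_lit 6, nat_lit 10, nat_lit 11, nat_lit 4, nat_lit 10644477065793841176232683996556165470⟩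
/-- record -/
def r19e_60 : Rc := ⟨nat_lit 19, nat_lit 6, nat_lit 11, nat_lit 14, nat_lit 4, nat_lit 6651661392981792016355726467269001578⟩
/-- record -/
def r19e_61 : Rc := ⟨nat_lit 19, nat_lit 6, nat_lit 13, nat_lit 1, nat_lit 4, nat_lit 24019630474224033322591364983843848565⟩
/-- record -/
def r19e_62 : Rc := ⟨nat_lit 19, nat_lit 6, nat_lit 18, nat_lit 16, nat_lit 4, nat_lit 4055553213168362471140169969794679210⟩
/-- record -/
def r19e_63 : Rc := ⟨nat_lit 19, nat_lit 7, nat_lit 3, nat_lit 5, nat_lit 20, nat_lit 250275685309795051848027512947743922710660922824130801964323885429891961948685898510928160422207051194365636115803462710943842557209314973373913626180256969321523050015725651770374515755254044⟩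
/-- record -/
def r19e_64 : Rc := ⟨nat_lit 19, nat_lit 7, nat_lit 4, nat_lit 13, nat_lit 20, nat_lit 107629584081214243233654567994407122484271382838755901283793093882239309695024900828137462704923832798892627483757515082512755558839420570970227975155241818520907585318165572830699797793407275⟩
/-- record -/
def r19e_65 : Rc := ⟨nat_lit 19, nat_lit 7, nat_lit 6, nat_lit 10, nat_lit 20, nat_lit 160955827949836540091064815592491798710292512003415656408873565763036754620847360349750701815074695902910190076389550266630422553941974781344144439201144540407661412276208190721508805913805113⟩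
/-- record -/
def r19e_66 : Rc := ⟨nat_lit 19, nat_lit 7, nat_lit 7, nat_lit 18, nat_lit 1, nat_lit 17236295⟩
/-- record -/
def r19e_67 : Rc := ⟨nat_lit 19, nat_lit 7, nat_lit 9, nat_lit 15, nat_lit 20, nat_lit 71641250122078491299739533259278730034148218152867199313916185987188795456727839408760207162562128545150169973015316009424217206800860716761025952724706827008616318479291659232469668763992408⟩
/-- record -/
def r19e_68 : Rc := ⟨nat_lit 19, nat_lit 7, nat_lit 10, nat_lit 4, nat_lit 20, nat_lit 267613765088032865065522808295489089333187752600526606992352364600179514234387644740897268044589408138388714143194993598411934473730197630256589414083567609166980486572782573437555433066135899⟩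
/-- record -/
def r19e_69 : Rc := ⟨nat_lit 19, nat_lit 7, nat_lit 14, nat_lit 17, nat_lit 20, nat_lit 35647610040710148865118085421498232837434790537225560361279612728902233221771125965019491503705930010949045019858210294976421104156120352408150496767701778622548843740824570147315910940492165⟩
/-- record -/
def r19e_70 : Rc := ⟨nat_lit 19, nat_lit 7, nat_lit 16, nat_lit 14, nat_lit 20, nat_lit 90296706223077793585756332767823489926459644078563325713615222735507951771335697622852006625897922152983596668807535908532751273523839776814647795231268508212616315016384517036904186449953174⟩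
/-- record -/
def r19e_71 : Rc := ⟨nat_lit 19, nat_lit 7, nat_lit 18, nat_lit 11, nat_lit 20, nat_lit 143623054128174897522731216372715869018547501657521210158450556802091134112889381801039057729719024648790715367174713908075152723678717426667380431974588844542468350967815985879836947749732775⟩
/-- record -/
def r19e_72 : Rc := ⟨nat_lit 19, nat_lit 8, nat_lit 4, nat_lit 9, nat_lit 18, nat_lit 9706875407193998749465332030456393561151070939077987244117226376594580918145308532866055317609140267675534927666308178862244231564435449797956322351051385123239659970232616⟩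
/-- record -/
def r19e_73 : Rc := ⟨nat_lit 19, nat_lit 8, nat_lit 5, nat_lit 16, nat_lit 18, nat_lit 2940169706468352646382459589915048525437099721195649692276036950815537121942632426200086930211111046233530717145797325202970061659694109359885664580797929813653257691070771⟩
/-- record -/
def r19e_74 : Rc := ⟨nat_lit 19, nat_lit 8, nat_lit 10, nat_lit 13, nat_lit 18, nat_lit 5819495437381139415475084874633406163272174540363048178615388594556889538310535942915012932716394247467469066472406292954606299955145467723295318468428873693180387152888160⟩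
/-- record -/
def r19e_75 : Rc := ⟨nat_lit 19, nat_lit 8, nat_lit 11, nat_lit 1, nat_lit 18, nat_lit 17409351034602427703543105995867274000842443183581375941080434520580292802551360523489248598834492969865432691896052041474626831841299418629774782294205703191116118890119523⟩
/-- record -/
def r19e_76 : Rc := ⟨nat_lit 19, nat_lit 8, nat_lit 13, nat_lit 15, nat_lit 18, nat_lit 3875953046864647174316098098079064195215269718167729976424283308691941919091584011908246890557487788155767570280955277476709502675006176654201177403663992365088479600181627⟩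
/-- record -/
def r19e_77 : Rc := ⟨nat_lit 19, nat_lit 8, nat_lit 14, nat_lit 3, nat_lit 18, nat_lit 15465802882336704224792425639309443608392843118254874137010885615711064965727871685237314240179316371611330483149168954085466882391254154496580654898513340062577948910682495⟩
/-- record -/
def r19e_78 : Rc := ⟨nat_lit 19, nat_lit 8, nat_lit 15, nat_lit 10, nat_lit 18, nat_lit 8699107778110088273098029290857460401357812474124713430099581874903250413666500541980197614141705455021052845594090576917573294693685988517908428147138973905471153398874508⟩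
/-- record -/
def r19e_79 : Rc := ⟨nat_lit 19, nat_lit 8, nat_lit 17, nat_lit 5, nat_lit 18, nat_lit 13593969290430253498420910680181261305455311890447496769631458765115981473214703021769743595191451791042888909342454653345584999899877738379634638434691155139740467995345306⟩
/-- record -/
def r19e_80 : Rc := ⟨nat_lit 19, nat_lit 8, nat_lit 18, nat_lit 12, nat_lit 18, nat_lit 6827263013152922178074562235911032936805529020225630469199134535019284730123673375867326631362882193980721022238832676044492545162176395479366449245143232825581957101912488⟩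
/-- record -/
def r19e_81 : Rc := ⟨nat_lit 19, nat_lit 9, nat_lit 1, nat_lit 2, nat_lit 18, nat_lit 16488480823881752360023107236146426533171877210375717120334474128567119700684465795707769504382564932556473156811054932775352410801538741127429567967689517920590997685338377⟩
/-- record -/
def r19e_82 : Rc := ⟨nat_lit 19, nat_lit 9, nat_lit 4, nat_lit 8, nat_lit 18, nat_lit 10680379659740143826356808823764767881334666376523575398240232352832859010052438700975050025176452346166525237178897239495615758220163481469929383194491943242016695832346919⟩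
/-- record -/
def r19e_83 : Rc := ⟨nat_lit 19, nat_lit 9, nat_lit 7, nat_lit 14, nat_lit 18, nat_lit 4872276592560634995862917739326389822312139709124522156139338078950539713427652460104758901418218827386554593475614911546050116315863620427349427992521578169671514354942277⟩
/-- record -/
def r19e_84 : Rc := ⟨nat_lit 19, nat_lit 9, nat_lit 11, nat_lit 3, nat_lit 18, nat_lit 15484790575451711044810387315510702798523025965648227728405580161046840727726980247789587590614274676590033162714832512007428063664294239469560958347762322060385944745869669⟩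
/-- record -/
def r19e_85 : Rc := ⟨nat_lit 19, nat_lit 9, nat_lit 12, nat_lit 5, nat_lit 18, nat_lit 13548570485441899922983799888338958635762748753348234795523151909240746971379864847104552129145067654992964241981695861547317738502934475119852070251558034663951723882152303⟩
/-- record -/
def r19e_86 : Rc := ⟨nat_lit 19, nat_lit 9, nat_lit 13, nat_lit 7, nat_lit 18, nat_lit 11612635446152377948063829235978321573863985903422624371907226020327380302297811637148596700916594264636809113627152162011827646144128709230870180407993030681312119260512631⟩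
/-- record -/
def r19e_87 : Rc := ⟨nat_lit 19, nat_lit 9, nat_lit 14, nat_lit 9, nat_lit 18, nat_lit 9676699373688113249547496270005083756561817866511347912632840652912087073575390053242978592243426451886671375019852992684523965933316353521152274189269392620203953032331649⟩
/-- record -/
def r19e_88 : Rc := ⟨nat_lit 19, nat_lit 9, nat_lit 15, nat_lit 11, nat_lit 18, nat_lit 7740477268843274365821549247315268686109396596426017562266470717215750167913522583404661391431136360712934034570306694037966322511769793076998642084388224168466376955593101⟩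
/-- record -/
def r19e_89 : Rc := ⟨nat_lit 19, nat_lit 9, nat_lit 16, nat_lit 13, nat_lit 18, nat_lit 5804539581271660494318799316685321670089059263111814359968760123272675319533482686398170651976713814008003412761440048485436185300863844392340528691535632553936786020696469⟩
/-- record -/
def r19e_90 : Rc := ⟨nat_lit 19, nat_lit 10, nat_lit 3, nat_lit 13, nat_lit 18, nat_lit 5861142280083864956209179307009693601969558089474796706859950364995693783850801836028947781352395021238827927689066703660940161617242152196630738649512753603572002860957984⟩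
/-- record -/
def r19e_91 : Rc := ⟨nat_lit 19, nat_lit 10, nat_lit 4, nat_lit 11, nat_lit 18, nat_lit 7789536188997759484553392066505678923625659793385545641046514436777352606911211081452315365654625539805797810335521401718370424861012255170079525241004115506412061498933546⟩
/-- record -/
def r19e_92 : Rc := ⟨nat_lit 19, nat_lit 10, nat_lit 5, nat_lit 9, nat_lit 18, nat_lit 9718205186253052360858391946912548636619808948013015037638367328154212670237602063733821045063020162215352481842087034347975948750187365404309742564477592031046191326822704⟩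
/-- record -/
def r19e_93 : Rc := ⟨nat_lit 19, nat_lit 10, nat_lit 6, nat_lit 7, nat_lit 18, nat_lit 11646600589703536719764656800345566989584132330640481064106514611933503207459197364752220632799148794286094342754191618620912946521333053079819663499622253308991149613646136⟩
/-- record -/
def r19e_94 : Rc := ⟨nat_lit 19, nat_lit 10, nat_lit 7, nat_lit 5, nat_lit 18, nat_lit 13574995996527265745817393627036912021641357414285499635216385970003740181486075553766283545588537977325676669117575857193869204444809267289007690025568159210796721317216578⟩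
/-- record -/
def r19e_95 : Rc := ⟨nat_lit 19, nat_lit 10, nat_lit 8, nat_lit 3, nat_lit 18, nat_lit 15503667125139453634408444521753583366055924891795867698875377267574414325419965466066495121276371465981938057089868271612131253120899086808363652248233161968266637826720074⟩
/-- record -/
def r19e_96 : Rc := ⟨nat_lit 19, nat_lit 10, nat_lit 12, nat_lit 14, nat_lit 18, nat_lit 4860959369753842540179602651925074886680156215005707993173976902049771069848528896616773641013289625934970286740529074323776716957022513161702193004385153785297692621668722⟩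
/-- record -/
def r19e_97 : Rc := ⟨nat_lit 19, nat_lit 10, nat_lit 15, nat_lit 8, nat_lit 18, nat_lit 10646410370000574643468151577568056755985456814056639133653318229057072362663536457707994568113809619836237093403917424525693373537886343686020355393772742244210507294310794⟩
/-- record -/
def r19e_98 : Rc := ⟨nat_lit 19, nat_lit 10, nat_lit 18, nat_lit 2, nat_lit 18, nat_lit 16431862576836654006340210265187534348046013275476835765349044075551477377817066983630867777215897756907835614323571820271271394091400722706186786870159001072978212195795362⟩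
/-- record -/
def r19e_99 : Rc := ⟨nat_lit 19, nat_lit 11, nat_lit 1, nat_lit 12, nat_lit 18, nat_lit 6770658241251783830505950952798893257825449008414327883071326238762488765147866360290324237164621525389641908052577067956136251234187376309163863056488126514327647322571023⟩
/-- record -/
def r19e_100 : Rc := ⟨nat_lit 19, nat_lit 11, nat_lit 2, nat_lit 5, nat_lit 18, nat_lit 13529804155070312404412171765488703824037126350927762899474621817702312296109487816024001519729890409796124596522158108489549417716699549624716384731607421750722930567479571⟩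
/-- record -/
def r19e_101 : Rc := ⟨nat_lit 19, nat_lit 11, nat_lit 4, nat_lit 10, nat_lit 18, nat_lit 8763262547967375057662044356003098657535460574500873768502916574786349688113121046421045680858358711546405068774412958605211785253527856359697609596794211574491181524648233⟩
/-- record -/
def r19e_102 : Rc := ⟨nat_lit 19, nat_lit 11, nat_lit 5, nat_lit 3, nat_lit 18, nat_lit 15522419056276174590914368465504147294268721376408271885465238690611333094124485666342063484101137786889994488606700276874895581087502640828262263887375686715596409649430830⟩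
/-- record -/
def r19e_103 : Rc := ⟨nat_lit 19, nat_lit 11, nat_lit 6, nat_lit 15, nat_lit 18, nat_lit 3925014040118606887824809584005660133687859116414367363763383489352090386965660591276785306299173192051358230922834415306622247079591615835122424179564742562123722135372092⟩
/-- record -/
def r19e_104 : Rc := ⟨nat_lit 19, nat_lit 11, nat_lit 8, nat_lit 1, nat_lit 18, nat_lit 17443320324349027645938041507420259478528623212946644258130263070926922215481552357593864471848782391995628927388658891200757786516414143790984203996522410578477448235254088⟩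
/-- record -/
def r19e_105 : Rc := ⟨nat_lit 19, nat_lit 11, nat_lit 9, nat_lit 13, nat_lit 18, nat_lit 5845920948470018566670681711825107932455226476826845501868208812814372268973573108897564567454903725942684415619636713345357807926430706929204978560680255512355128807719255⟩
/-- record -/
def r19e_106 : Rc := ⟨nat_lit 19, nat_lit 11, nat_lit 14, nat_lit 16, nat_lit 18, nat_lit 2928853520213053428248179830184412237227471804342922080021646443512458378444505716104562419162532400012635931674870524428281105790034212371341960400177273871914420606271876⟩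
/-- record -/
def r19e_107 : Rc := ⟨nat_lit 19, nat_lit 11, nat_lit 15, nat_lit 9, nat_lit 18, nat_lit 9687999894061269724646074549390490886482239987296131063056003600449738370196333207379458724424744485979639077397178528423506721346346769945349028400136341471534042317521291⟩
/-- record -/
def r19e_108 : Rc := ⟨nat_lit 19, nat_lit 12, nat_lit 1, nat_lit 11, nat_lit 20, nat_lit 142857292300800720709503578596745356525383338508232745101631469374177188133652537913679030132400375764563586984643229111154782909368531639572166207740579964566152461984806712554665996177899790⟩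
/-- record -/
def r19e_109 : Rc := ⟨nat_lit 19, nat_lit 12, nat_lit 3, nat_lit 14, nat_lit 20, nat_lit 89252532482531625004051734634978382216180686381139818421511927928995625637784416781230400175296382304576548964977491957683065562479145635973380458102592379029708197454689343977989464463769889⟩
/-- record -/
def r19e_110 : Rc := ⟨nat_lit 19, nat_lit 12, nat_lit 5, nat_lit 17, nat_lit 20, nat_lit 35647610040564296396045269179779231876876628904184751491980564756946290362550698260164577478963931215446253910561474021697825020840098359838950920463736920977175466337410659570107325518446900⟩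
/-- record -/
def r19e_111 : Rc := ⟨nat_lit 19, nat_lit 12, nat_lit 9, nat_lit 4, nat_lit 20, nat_lit 268379412189503321378084837233247329419409505014097184196457545266381502087089231257021652877939175617362606396054804857870952294283625452055476270381301526298140798579962299143197777004855634⟩
/-- record -/
def r19e_112 : Rc := ⟨nat_lit 19, nat_lit 12, nat_lit 10, nat_lit 15, nat_lit 20, nat_lit 72267719948673968657870555751131858189625056222331238949918734025881207407418858568621319783099504530820519930552347344863506092178208377667556252409337553665941237469163825478278404750704993⟩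
/-- record -/
def r19e_113 : Rc := ⟨nat_lit 19, nat_lit 12, nat_lit 12, nat_lit 18, nat_lit 1, nat_lit 17564020⟩
/-- record -/
def r19e_114 : Rc := ⟨nat_lit 19, nat_lit 12, nat_lit 13, nat_lit 10, nat_lit 20, nat_lit 161164785072126362239064350933391206222069354609048578461276557165083884330761619257216715709997160378535482821655039204810642157534753612928320359620473907360907549335512245722426399513117048⟩
/-- record -/
def r19e_115 : Rc := ⟨nat_lit 19, nat_lit 12, nat_lit 15, nat_lit 13, nat_lit 20, nat_lit 107559918960043583946845363744559645401408545934569409045822960870448497172546648334981045942832769902186019080988556231998050766717701298352265724742279873234963778002018684146957601871757710⟩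
/-- record -/
def r19e_116 : Rc := ⟨nat_lit 19, nat_lit 12, nat_lit 16, nat_lit 5, nat_lit 20, nat_lit 250066900276247333778844346666329808580390686677899289436819814501281633399762684299770644744506204183706029001779798017347830052237313833027310376767112765034645924431479227649427257370083729⟩
/-- record -/
def r19e_117 : Rc := ⟨nat_lit 19, nat_lit 13, nat_lit 1, nat_lit 16, nat_lit 4, nat_lit 4019212126541318394981365845259518225⟩
/-- record -/
def r19e_118 : Rc := ⟨nat_lit 19, nat_lit 13, nat_lit 6, nat_lit 1, nat_lit 4, nat_lit 23931366419011639309943104011923947830⟩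
/-- record -/
def r19e_119 : Rc := ⟨nat_lit 19, nat_lit 13, nat_lit 8, nat_lit 14, nat_lit 4, nat_lit 6739935430959587787782314825572221263⟩
/-- record -/
def r19e_120 : Rc := ⟨nat_lit 19, nat_lit 13, nat_lit 9, nat_lit 11, nat_lit 4, nat_lit 10722366510054566960361380985382437205⟩
/-- record -/
def r19e_121 : Rc := ⟨nat_lit 19, nat_lit 13, nat_lit 12, nat_lit 2, nat_lit 4, nat_lit 22669658882638387037260457503609389420⟩
/-- record -/
def r19e_122 : Rc := ⟨nat_lit 19, nat_lit 13, nat_lit 13, nat_lit 18, nat_lit 1, nat_lit 17629565⟩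
/-- record -/
def r19e_123 : Rc := ⟨nat_lit 19, nat_lit 13, nat_lit 14, nat_lit 15, nat_lit 4, nat_lit 5379573859061813130800187651362980227⟩
/-- record -/
def r19e_124 : Rc := ⟨nat_lit 19, nat_lit 13, nat_lit 17, nat_lit 6, nat_lit 4, nat_lit 17326866305612550573447479672817123739⟩
/-- record -/
def r19e_125 : Rc := ⟨nat_lit 19, nat_lit 13, nat_lit 18, nat_lit 3, nat_lit 4, nat_lit 21309297466721057385576477196408390051⟩
/-- record -/
def r19e_126 : Rc := ⟨nat_lit 19, nat_lit 14, nat_lit 2, nat_lit 8, nat_lit 20, nat_lit 196533595439898704005878466406987989109547910643055728335440953208176296957468414541078942846280281616099817247044512379796421849977395047320850662719090067381648371378919636935631292299346198⟩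
/-- record -/
def r19e_127 : Rc := ⟨nat_lit 19, nat_lit 14, nat_lit 3, nat_lit 12, nat_lit 20, nat_lit 125173352416546242851970124006136995688506918724958760390618757457031577662253846133831612069415589802787218754501314902262879141966048953642417708041738583036934538585446850434435471209529631⟩
/-- record -/
def r19e_128 : Rc := ⟨nat_lit 19, nat_lit 14, nat_lit 5, nat_lit 1, nat_lit 20, nat_lit 321076774856596638680112543112333083190009108591972317109972108554246370984794511435849478506321463991769659603526769160355598945108788756849964425508022819732518105381105793704298129883267373⟩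
/-- record -/
def r19e_129 : Rc := ⟨nat_lit 19, nat_lit 14, nat_lit 7, nat_lit 9, nat_lit 20, nat_lit 178361505730766181281672321665392038948338873598343148082083438147720891996907338542319517471181915051705453590484663358082368998185878899668809100537166370857214504664748201452174853781979460⟩
/-- record -/
def r19e_130 : Rc := ⟨nat_lit 19, nat_lit 14, nat_lit 8, nat_lit 13, nat_lit 20, nat_lit 107006531617179706235706473863278073762679476779092136884057933029906194672728190705429277524459144046967255602831708369664438235938659994280442657269435484384706404306148296318176072190263630⟩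
/-- record -/
def r19e_131 : Rc := ⟨nat_lit 19, nat_lit 14, nat_lit 9, nat_lit 17, nat_lit 20, nat_lit 35646247136390037559057717438954171485601981396717692401874551731496894485272172183035830904602191571491359713943284753828924371490096535849381630235829667184910643632844220205009524302414169⟩
/-- record -/
def r19e_132 : Rc := ⟨nat_lit 19, nat_lit 14, nat_lit 11, nat_lit 6, nat_lit 20, nat_lit 232872418874491759829852080977291188233581086356759480596457476893793017682256322289247433745924699412772267294490034969984439578435304191732781472438367325143615012287753662566120417494172007⟩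
/-- record -/
def r19e_133 : Rc := ⟨nat_lit 19, nat_lit 14, nat_lit 13, nat_lit 14, nat_lit 20, nat_lit 90157261229676226841578669587098170225107273535179178053093973030018545290976230406026491313681247014245714831453972837881612147616199671100028480378500359845145361738891020995130309791842682⟩
/-- record -/
def r19e_134 : Rc := ⟨nat_lit 19, nat_lit 14, nat_lit 14, nat_lit 18, nat_lit 1, nat_lit 17695110⟩
/-- record -/
def r19e_135 : Rc := ⟨nat_lit 19, nat_lit 15, nat_lit 2, nat_lit 10, nat_lit 6, nat_lit 221542984087768151778316353018853289091252719170622521623⟩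
/-- record -/
def r19e_136 : Rc := ⟨nat_lit 19, nat_lit 15, nat_lit 4, nat_lit 1, nat_lit 6, nat_lit 442031181988424805385797712621762514975236101153273872676⟩
/-- record -/
def r19e_137 : Rc := ⟨nat_lit 19, nat_lit 15, nat_lit 8, nat_lit 2, nat_lit 6, nat_lit 417128936204279380985933498436727508975871169905673830729⟩
/-- record -/
def r19e_138 : Rc := ⟨nat_lit 19, nat_lit 15, nat_lit 9, nat_lit 7, nat_lit 6, nat_lit 294437308927741417891122535352124255783821097272825807187⟩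
/-- record -/
def r19e_139 : Rc := ⟨nat_lit 19, nat_lit 15, nat_lit 10, nat_lit 12, nat_lit 6, nat_lit 171738438437893867422558208363785167578004948687858368863⟩
/-- record -/
def r19e_140 : Rc := ⟨nat_lit 19, nat_lit 15, nat_lit 11, nat_lit 17, nat_lit 6, nat_lit 49046592004552943801417500092732816119405805105201480043⟩
/-- record -/
def r19e_141 : Rc := ⟨nat_lit 19, nat_lit 15, nat_lit 12, nat_lit 3, nat_lit 6, nat_lit 394046309586399386846597063331617693613584317217185399149⟩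
/-- record -/
def r19e_142 : Rc := ⟨nat_lit 19, nat_lit 15, nat_lit 16, nat_lit 4, nat_lit 6, nat_lit 369144024358502214962295188665471255545978787321300844944⟩
/-- record -/
def r19e_143 : Rc := ⟨nat_lit 19, nat_lit 15, nat_lit 18, nat_lit 14, nat_lit 6, nat_lit 123753525130615061333794992821587643344352154778321486249⟩
/-- record -/
def r19e_144 : Rc := ⟨nat_lit 19, nat_lit 16, nat_lit 2, nat_lit 7, nat_lit 20, nat_lit 214634638022736057125347452078139359163122971312744738427306061519783978926063403265912640732648125290706216484020563055674650013095988897935787473585756541878862260429148974640140847292612885⟩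
/-- record -/
def r19e_145 : Rc := ⟨nat_lit 19, nat_lit 16, nat_lit 5, nat_lit 8, nat_lit 20, nat_lit 196601075426414137712893300584565824981603150521561432394839025143813251448097167914447303541733571134009360283883886076549739418188156326192915637639040819682873010192057976696822457087033647⟩
/-- record -/
def r19e_146 : Rc := ⟨nat_lit 19, nat_lit 16, nat_lit 7, nat_lit 15, nat_lit 20, nat_lit 71709201784077059575202521832377373852128878523614919790754345567837707979922409913648318426344669779497792184535039093164264615432101906636242836874591954545697681864217122385607557202837830⟩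
/-- record -/
def r19e_147 : Rc := ⟨nat_lit 19, nat_lit 16, nat_lit 9, nat_lit 3, nat_lit 20, nat_lit 285436046265090195883402080793022103400663077012516748987312184719433537839090034914565538134424962113045676027969290350495798812655434336601641731741054864286525852461518196519099746409775441⟩
/-- record -/
def r19e_148 : Rc := ⟨nat_lit 19, nat_lit 16, nat_lit 12, nat_lit 4, nat_lit 20, nat_lit 267402416811285935520563343084920745938343873491925774260350918632883287242790560243616122458142490681589983336728863433440429810313262901687146847472850290375647595142525820738295837286728046⟩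
/-- record -/
def r19e_149 : Rc := ⟨nat_lit 19, nat_lit 16, nat_lit 15, nat_lit 5, nat_lit 20, nat_lit 250696602583786349851754436277903695622265566180680895243288676249655242400542774642695024921791312178800756092195901315497436186392864338039808314522913896884619701285629740327261182972920201⟩
/-- record -/
def r19e_150 : Rc := ⟨nat_lit 19, nat_lit 16, nat_lit 16, nat_lit 18, nat_lit 1, nat_lit 17826200⟩
/-- record -/
def r19e_151 : Rc := ⟨nat_lit 19, nat_lit 16, nat_lit 17, nat_lit 12, nat_lit 20, nat_lit 125799762784895087389716096172486475292576475588894507774703143058820293931337886595598146997264701900923270674949218799480134497134190605273135268323186713956351965266869546261755393349779871⟩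
/-- record -/
def r19e_152 : Rc := ⟨nat_lit 19, nat_lit 16, nat_lit 18, nat_lit 6, nat_lit 20, nat_lit 232663007089861843395708500270836714878261548899854173074976840493825265852735457789747694220047513264637910275220175627741020716558867638193285017626991332901609096283121243844475836911583652⟩
/-- record -/
def r19e_153 : Rc := ⟨nat_lit 19, nat_lit 17, nat_lit 1, nat_lit 10, nat_lit 20, nat_lit 161373870684101036048605790192409169983042379992121858440752798451972694430877876972403537799766496585689789687901468095912237189494624245140196585279095594807372716030275999005272415516295437⟩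
/-- record -/
def r19e_154 : Rc := ⟨nat_lit 19, nat_lit 17, nat_lit 3, nat_lit 11, nat_lit 20, nat_lit 143416427689110551262147910495436951797227160677751044747101050010010654871012279940801606553784641763396238270864773111666672630237302508358687037606950161813993352452188229661181233905860894⟩
/-- record -/
def r19e_155 : Rc := ⟨nat_lit 19, nat_lit 17, nat_lit 4, nat_lit 2, nat_lit 20, nat_lit 303741786268525497824892637663492659282313047641627232722120746958005299800904772939263788262283738968007997235206481567094847789618611150031195803521527637217780657069158470651396629340422437⟩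
/-- record -/
def r19e_156 : Rc := ⟨nat_lit 19, nat_lit 17, nat_lit 5, nat_lit 12, nat_lit 20, nat_lit 125453716830341110597165421019445685563287315215784210659391502799944068530450415104609186450629690564499677940339922886489525341861241447837633386881264776018664885833858053373210179440542001⟩
/-- record -/
def r19e_157 : Rc := ⟨nat_lit 19, nat_lit 17, nat_lit 8, nat_lit 4, nat_lit 20, nat_lit 267821730102482821205635861003789192602889781340229458103285886985499534177113243102792614878574467386518645076238275466253635782034938829447244574132348135110290475344064339924351524336107851⟩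
/-- record -/
def r19e_158 : Rc := ⟨nat_lit 19, nat_lit 17, nat_lit 13, nat_lit 16, nat_lit 20, nat_lit 53608465099118616968372123842097374674471963825129962409514188803056256885936256931009910716680140476736441423369892359480322463242263064633802248193765953929209568205259302081606261434024316⟩
/-- record -/
def r19e_159 : Rc := ⟨nat_lit 19, nat_lit 17, nat_lit 16, nat_lit 8, nat_lit 20, nat_lit 197299177746893869911401471372940203978221553620761913434872717993017511836652233175473827308438541055457700473986996367149776923862735030222456589993709089886630723690179478793458361956368786⟩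
/-- record -/
def r19e_160 : Rc := ⟨nat_lit 19, nat_lit 17, nat_lit 17, nat_lit 18, nat_lit 1, nat_lit 17891745⟩
/-- record -/
def r19e_161 : Rc := ⟨nat_lit 19, nat_lit 17, nat_lit 18, nat_lit 9, nat_lit 20, nat_lit 179336411603901598931076336147706424944592739158250693877057295546555610727025042717784463643735162383724980755578628250480647019473193295698412771418309502404336473360531301164733403438842277⟩
/-- record -/
def r19e_162 : Rc := ⟨nat_lit 19, nat_lit 18, nat_lit 2, nat_lit 2, nat_lit 18, nat_lit 16481108591964164278250342343780814408691558380946201763726619548710552430612254721989740795247986510826189341441799767528051933044392128627332924441769021713929456179085586⟩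
/-- record -/
def r19e_163 : Rc := ⟨nat_lit 19, nat_lit 18, nat_lit 6, nat_lit 6, nat_lit 18, nat_lit 12601351641743478296634187355434322371414937985177003266723325252139300377359929179552632177018155441751759342777954664888816772887333799364861756048704203747063327909609783⟩
/-- record -/
def r19e_164 : Rc := ⟨nat_lit 19, nat_lit 18, nat_lit 7, nat_lit 7, nat_lit 18, nat_lit 11631417726957140400161745211864823807916559515924855184554092103049333272233806149755997649653510169966532022733422291168803531557621763011280449881309620777621120122749251⟩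
/-- record -/
def r19e_165 : Rc := ⟨nat_lit 19, nat_lit 18, nat_lit 8, nat_lit 8, nat_lit 18, nat_lit 10661480766185608980245985941068682419017002583795156010601273418576163172320380247859758192657501457454999555291003577854311977543036104043759800143806722405253852435710285⟩
/-- record -/
def r19e_166 : Rc := ⟨nat_lit 19, nat_lit 18, nat_lit 10, nat_lit 10, nat_lit 18, nat_lit 8721881061996807303264656418756549898556090245399058539135547388933508929153073710117967246819750530372569062160728245487050803709337115796992407326012880955429271702208861⟩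
/-- record -/
def r19e_167 : Rc := ⟨nat_lit 19, nat_lit 18, nat_lit 13, nat_lit 13, nat_lit 18, nat_lit 5812069249984251027327190034285756913998371812056066693332665598533223580811660897557292677478289280993814465440699975555249645572294542037802278523568880752197084308963705⟩
/-- record -/
def r19e_168 : Rc := ⟨nat_lit 19, nat_lit 18, nat_lit 15, nat_lit 15, nat_lit 18, nat_lit 3872190313510769583458947699424441177820438634314771189851027831625257526942273310585961768966560676640284639394411621665758418719994803909318159207260498505406533476680079⟩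
/-- record -/
def r19e_169 : Rc := ⟨nat_lit 19, nat_lit 18, nat_lit 16, nat_lit 16, nat_lit 18, nat_lit 2902253351390444260337990384382161664602641449580323948219363669191876269973929405380844855547303867378957938981610252145741276898921134440371270750665746030843679699239319⟩
/-- record -/
def r19e_170 : Rc := ⟨nat_lit 19, nat_lit 18, nat_lit 17, nat_lit 17, nat_lit 18, nat_lit 1932313161978701142002660459016550571348305316480262359472707873617188799217748406679364843890238881240133896682991837439567809557116516117309573516270139390449271809638816⟩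
/-- records -/
def F19e : List Rc := [r19e_0, r19e_1, r19e_2, r19e_3, r19e_4, r19e_5,
  r19e_6, r19e_7, r19e_8, r19e_9, r19e_10, r19e_11,
  r19e_12, r19e_13, r19e_14, r19e_15, r19e_16, r19e_17,
  r19e_18, r19e_19, r19e_20, r19e_21, r19e_22, r19e_23,
  r19e_24, r19e_25, r19e_26, r19e_27, r19e_28, r19e_29,
  r19e_30, r19e_31, r19e_32, r19e_33, r19e_34, r19e_35,
  r19e_36, r19e_37, r19e_38, r19e_39, r19e_40, r19e_41,
  r19e_42, r19e_43, r19e_44, r19e_45, r19e_46, r19e_47,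
  r19e_48, r19e_49, r19e_50, r19e_51, r19e_52, r19e_53,
  r19e_54, r19e_55, r19e_56, r19e_57, r19e_58, r19e_59,
  r19e_60, r19e_61, r19e_62, r19e_63, r19e_64, r19e_65,
  r19e_66, r19e_67, r19e_68, r19e_69, r19e_70, r19e_71,
  r19e_72, r19e_73, r19e_74, r19e_75, r19e_76, r19e_77,
  r19e_78, r19e_79, r19e_80, r19e_81, r19e_82, r19e_83,
  r19e_84, r19e_85, r19e_86, r19e_87, r19e_88, r19e_89,
  r19e_90, r19e_91, r19e_92, r19e_93, r19e_94, r19e_95,
  r19e_96, r19e_97, r19e_98, r19e_99, r19e_100, r19e_101,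
  r19e_102, r19e_103, r19e_104, r19e_105, r19e_106, r19e_107,
  r19e_108, r19e_109, r19e_110, r19e_111, r19e_112, r19e_113,
  r19e_114, r19e_115, r19e_116, r19e_117, r19e_118, r19e_119,
  r19e_120, r19e_121, r19e_122, r19e_123, r19e_124, r19e_125,
  r19e_126, r19e_127, r19e_128, r19e_129, r19e_130, r19e_131,
  r19e_132, r19e_133, r19e_134, r19e_135, r19e_136, r19e_137,
  r19e_138, r19e_139, r19e_140, r19e_141, r19e_142, r19e_143,
  r19e_144, r19e_145, r19e_146, r19e_147, r19e_148, r19e_149,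
  r19e_150, r19e_151, r19e_152, r19e_153, r19e_154, r19e_155,
  r19e_156, r19e_157, r19e_158, r19e_159, r19e_160, r19e_161,
  r19e_162, r19e_163, r19e_164, r19e_165, r19e_166, r19e_167,
  r19e_168, r19e_169, r19e_170]

end Pool.Agent.LibH4.CX


end

section

/-!
Constant words, all letters at once: results of the second stage, odd parity.
-/

namespace Pool.Agent.LibH4.CX

/-- entries -/
def EB0 : List E7 := []

/-- entries -/
def EB1 : List E7 := []

/-- entries -/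
def EB2 : List E7 := []

/-- entries -/
def EB3 : List E7 := []

/-- entries -/
def EB4 : List E7 := []

/-- entries -/
def EB5 : List E7 := []

/-- entries -/
def EB6 : List E7 := []

/-- entries -/
def EB7 : List E7 := []

/-- entries -/
def EB8 : List E7 := [⟨r17o_8, r13o_6, r7o_4, r5o_2, r8o_4, r4o_2, r11o_19, (.st (nat_lit 3272) (nat_lit 6545) .nil)⟩,
  ⟨r17o_8, r13o_6, r7o_4, r5o_2, r8o_6, r4o_2, r11o_19, (.st (nat_lit 9817) (nat_lit 19635) .nil)⟩,
  ⟨r17o_8, r13o_6, r7o_4, r5o_3, r8o_4, r4o_2, r11o_19, (.st (nat_lit 3272) (nat_lit 6545) .nil)⟩,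
  ⟨r17o_8, r13o_6, r7o_4, r5o_3, r8o_6, r4o_2, r11o_19, (.st (nat_lit 9817) (nat_lit 19635) .nil)⟩,
  ⟨r17o_8, r13o_7, r7o_4, r5o_2, r8o_4, r4o_2, r11o_19, (.st (nat_lit 22907) (nat_lit 45815) .nil)⟩,
  ⟨r17o_8, r13o_7, r7o_4, r5o_2, r8o_6, r4o_2, r11o_19, (.st (nat_lit 68722) (nat_lit 137445) .nil)⟩,
  ⟨r17o_8, r13o_7, r7o_4, r5o_3, r8o_4, r4o_2, r11o_19, (.st (nat_lit 22907) (nat_lit 45815) .nil)⟩,
  ⟨r17o_8, r13o_7, r7o_4, r5o_3, r8o_6, r4o_2, r11o_19, (.st (nat_lit 68722) (nat_lit 137445) .nil)⟩,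
  ⟨r17o_8, r13o_8, r7o_4, r5o_2, r8o_4, r4o_2, r11o_19, (.st (nat_lit 22907) (nat_lit 45815) .nil)⟩,
  ⟨r17o_8, r13o_8, r7o_4, r5o_2, r8o_6, r4o_2, r11o_19, (.st (nat_lit 68722) (nat_lit 137445) .nil)⟩,
  ⟨r17o_8, r13o_8, r7o_4, r5o_3, r8o_4, r4o_2, r11o_19, (.st (nat_lit 22907) (nat_lit 45815) .nil)⟩,
  ⟨r17o_8, r13o_8, r7o_4, r5o_3, r8o_6, r4o_2, r11o_19, (.st (nat_lit 68722) (nat_lit 137445) .nil)⟩,
  ⟨r17o_8, r13o_9, r7o_4, r5o_2, r8o_4, r4o_2, r11o_19, (.st (nat_lit 22907) (nat_lit 45815) .nil)⟩,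
  ⟨r17o_8, r13o_9, r7o_4, r5o_2, r8o_6, r4o_2, r11o_19, (.st (nat_lit 68722) (nat_lit 137445) .nil)⟩,
  ⟨r17o_8, r13o_9, r7o_4, r5o_3, r8o_4, r4o_2, r11o_19, (.st (nat_lit 22907) (nat_lit 45815) .nil)⟩,
  ⟨r17o_8, r13o_9, r7o_4, r5o_3, r8o_6, r4o_2, r11o_19, (.st (nat_lit 68722) (nat_lit 137445) .nil)⟩,
  ⟨r17o_8, r13o_10, r7o_4, r5o_2, r8o_4, r4o_2, r11o_19, (.st (nat_lit 22907) (nat_lit 45815) .nil)⟩,
  ⟨r17o_8, r13o_10, r7o_4, r5o_2, r8o_6, r4o_2, r11o_19, (.st (nat_lit 68722) (nat_lit 137445) .nil)⟩,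
  ⟨r17o_8, r13o_10, r7o_4, r5o_3, r8o_4, r4o_2, r11o_19, (.st (nat_lit 22907) (nat_lit 45815) .nil)⟩,
  ⟨r17o_8, r13o_10, r7o_4, r5o_3, r8o_6, r4o_2, r11o_19, (.st (nat_lit 68722) (nat_lit 137445) .nil)⟩,
  ⟨r17o_8, r13o_11, r7o_4, r5o_2, r8o_4, r4o_2, r11o_19, (.st (nat_lit 22907) (nat_lit 45815) .nil)⟩,
  ⟨r17o_8, r13o_11, r7o_4, r5o_2, r8o_6, r4o_2, r11o_19, (.st (nat_lit 68722) (nat_lit 137445) .nil)⟩,
  ⟨r17o_8, r13o_11, r7o_4, r5o_3, r8o_4, r4o_2, r11o_19, (.st (nat_lit 22907) (nat_lit 45815) .nil)⟩,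
  ⟨r17o_8, r13o_11, r7o_4, r5o_3, r8o_6, r4o_2, r11o_19, (.st (nat_lit 68722) (nat_lit 137445) .nil)⟩]

/-- entries -/
def EB9 : List E7 := []

/-- entries -/
def EB10 : List E7 := [⟨r17o_10, r13o_6, r7o_4, r5o_2, r8o_4, r4o_2, r11o_19, (.st (nat_lit 29452) (nat_lit 58905) .nil)⟩,
  ⟨r17o_10, r13o_6, r7o_4, r5o_3, r8o_4, r4o_2, r11o_19, (.st (nat_lit 29452) (nat_lit 58905) .nil)⟩,
  ⟨r17o_10, r13o_7, r7o_4, r5o_2, r8o_4, r4o_2, r11o_19, (.st (nat_lit 206167) (nat_lit 412335) .nil)⟩,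
  ⟨r17o_10, r13o_7, r7o_4, r5o_3, r8o_4, r4o_2, r11o_19, (.st (nat_lit 206167) (nat_lit 412335) .nil)⟩,
  ⟨r17o_10, r13o_8, r7o_4, r5o_2, r8o_4, r4o_2, r11o_19, (.st (nat_lit 206167) (nat_lit 412335) .nil)⟩,
  ⟨r17o_10, r13o_8, r7o_4, r5o_3, r8o_4, r4o_2, r11o_19, (.st (nat_lit 206167) (nat_lit 412335) .nil)⟩,
  ⟨r17o_10, r13o_9, r7o_4, r5o_2, r8o_4, r4o_2, r11o_19, (.st (nat_lit 206167) (nat_lit 412335) .nil)⟩,
  ⟨r17o_10, r13o_9, r7o_4, r5o_3, r8o_4, r4o_2, r11o_19, (.st (nat_lit 206167) (nat_lit 412335) .nil)⟩,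
  ⟨r17o_10, r13o_10, r7o_4, r5o_2, r8o_4, r4o_2, r11o_19, (.st (nat_lit 206167) (nat_lit 412335) .nil)⟩,
  ⟨r17o_10, r13o_10, r7o_4, r5o_3, r8o_4, r4o_2, r11o_19, (.st (nat_lit 206167) (nat_lit 412335) .nil)⟩,
  ⟨r17o_10, r13o_11, r7o_4, r5o_2, r8o_4, r4o_2, r11o_19, (.st (nat_lit 206167) (nat_lit 412335) .nil)⟩,
  ⟨r17o_10, r13o_11, r7o_4, r5o_3, r8o_4, r4o_2, r11o_19, (.st (nat_lit 206167) (nat_lit 412335) .nil)⟩]

/-- entries -/
def EB11 : List E7 := [⟨r17o_11, r13o_6, r7o_4, r5o_2, r8o_4, r4o_2, r11o_19, (.st (nat_lit 29452) (nat_lit 58905) .nil)⟩,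
  ⟨r17o_11, r13o_6, r7o_4, r5o_3, r8o_4, r4o_2, r11o_19, (.st (nat_lit 29452) (nat_lit 58905) .nil)⟩,
  ⟨r17o_11, r13o_7, r7o_4, r5o_2, r8o_4, r4o_2, r11o_19, (.st (nat_lit 206167) (nat_lit 412335) .nil)⟩,
  ⟨r17o_11, r13o_7, r7o_4, r5o_3, r8o_4, r4o_2, r11o_19, (.st (nat_lit 206167) (nat_lit 412335) .nil)⟩,
  ⟨r17o_11, r13o_8, r7o_4, r5o_2, r8o_4, r4o_2, r11o_19, (.st (nat_lit 206167) (nat_lit 412335) .nil)⟩,
  ⟨r17o_11, r13o_8, r7o_4, r5o_3, r8o_4, r4o_2, r11o_19, (.st (nat_lit 206167) (nat_lit 412335) .nil)⟩,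
  ⟨r17o_11, r13o_9, r7o_4, r5o_2, r8o_4, r4o_2, r11o_19, (.st (nat_lit 206167) (nat_lit 412335) .nil)⟩,
  ⟨r17o_11, r13o_9, r7o_4, r5o_3, r8o_4, r4o_2, r11o_19, (.st (nat_lit 206167) (nat_lit 412335) .nil)⟩,
  ⟨r17o_11, r13o_10, r7o_4, r5o_2, r8o_4, r4o_2, r11o_19, (.st (nat_lit 206167) (nat_lit 412335) .nil)⟩,
  ⟨r17o_11, r13o_10, r7o_4, r5o_3, r8o_4, r4o_2, r11o_19, (.st (nat_lit 206167) (nat_lit 412335) .nil)⟩,
  ⟨r17o_11, r13o_10, r7o_6, r5o_3, r8o_6, r4o_2, r11o_10, (.st (nat_lit 81903) (nat_lit 163800) (.st (nat_lit 81896) (nat_lit 163800) .nil))⟩,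
  ⟨r17o_11, r13o_10, r7o_7, r5o_3, r8o_6, r4o_2, r11o_10, (.st (nat_lit 163796) (nat_lit 163800) (.st (nat_lit 3) (nat_lit 163800) .nil))⟩,
  ⟨r17o_11, r13o_11, r7o_4, r5o_2, r8o_4, r4o_2, r11o_19, (.st (nat_lit 206167) (nat_lit 412335) .nil)⟩,
  ⟨r17o_11, r13o_11, r7o_4, r5o_3, r8o_4, r4o_2, r11o_19, (.st (nat_lit 206167) (nat_lit 412335) .nil)⟩]

/-- entries -/
def EB12 : List E7 := []

/-- entries -/
def EB13 : List E7 := []

/-- entries -/
def EB14 : List E7 := [⟨r17o_14, r13o_6, r7o_4, r5o_2, r8o_4, r4o_2, r11o_19, (.st (nat_lit 29452) (nat_lit 58905) .nil)⟩,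
  ⟨r17o_14, r13o_6, r7o_4, r5o_2, r8o_6, r4o_2, r11o_19, (.st (nat_lit 29452) (nat_lit 58905) .nil)⟩,
  ⟨r17o_14, r13o_6, r7o_4, r5o_3, r8o_4, r4o_2, r11o_19, (.st (nat_lit 29452) (nat_lit 58905) .nil)⟩,
  ⟨r17o_14, r13o_6, r7o_4, r5o_3, r8o_6, r4o_2, r11o_19, (.st (nat_lit 29452) (nat_lit 58905) .nil)⟩,
  ⟨r17o_14, r13o_7, r7o_4, r5o_2, r8o_4, r4o_2, r11o_19, (.st (nat_lit 206167) (nat_lit 412335) .nil)⟩,
  ⟨r17o_14, r13o_7, r7o_4, r5o_2, r8o_6, r4o_2, r11o_19, (.st (nat_lit 206167) (nat_lit 412335) .nil)⟩,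
  ⟨r17o_14, r13o_7, r7o_4, r5o_3, r8o_4, r4o_2, r11o_19, (.st (nat_lit 206167) (nat_lit 412335) .nil)⟩,
  ⟨r17o_14, r13o_7, r7o_4, r5o_3, r8o_6, r4o_2, r11o_19, (.st (nat_lit 206167) (nat_lit 412335) .nil)⟩,
  ⟨r17o_14, r13o_8, r7o_4, r5o_2, r8o_4, r4o_2, r11o_19, (.st (nat_lit 206167) (nat_lit 412335) .nil)⟩,
  ⟨r17o_14, r13o_8, r7o_4, r5o_2, r8o_6, r4o_2, r11o_19, (.st (nat_lit 206167) (nat_lit 412335) .nil)⟩,
  ⟨r17o_14, r13o_8, r7o_4, r5o_3, r8o_4, r4o_2, r11o_19, (.st (nat_lit 206167) (nat_lit 412335) .nil)⟩,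
  ⟨r17o_14, r13o_8, r7o_4, r5o_3, r8o_6, r4o_2, r11o_19, (.st (nat_lit 206167) (nat_lit 412335) .nil)⟩,
  ⟨r17o_14, r13o_9, r7o_4, r5o_2, r8o_4, r4o_2, r11o_19, (.st (nat_lit 206167) (nat_lit 412335) .nil)⟩,
  ⟨r17o_14, r13o_9, r7o_4, r5o_2, r8o_6, r4o_2, r11o_19, (.st (nat_lit 206167) (nat_lit 412335) .nil)⟩,
  ⟨r17o_14, r13o_9, r7o_4, r5o_3, r8o_4, r4o_2, r11o_19, (.st (nat_lit 206167) (nat_lit 412335) .nil)⟩,
  ⟨r17o_14, r13o_9, r7o_4, r5o_3, r8o_6, r4o_2, r11o_19, (.st (nat_lit 206167) (nat_lit 412335) .nil)⟩,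
  ⟨r17o_14, r13o_10, r7o_4, r5o_2, r8o_4, r4o_2, r11o_19, (.st (nat_lit 206167) (nat_lit 412335) .nil)⟩,
  ⟨r17o_14, r13o_10, r7o_4, r5o_2, r8o_6, r4o_2, r11o_19, (.st (nat_lit 206167) (nat_lit 412335) .nil)⟩,
  ⟨r17o_14, r13o_10, r7o_4, r5o_3, r8o_4, r4o_2, r11o_19, (.st (nat_lit 206167) (nat_lit 412335) .nil)⟩,
  ⟨r17o_14, r13o_10, r7o_4, r5o_3, r8o_6, r4o_2, r11o_19, (.st (nat_lit 206167) (nat_lit 412335) .nil)⟩,
  ⟨r17o_14, r13o_11, r7o_4, r5o_2, r8o_4, r4o_2, r11o_19, (.st (nat_lit 206167) (nat_lit 412335) .nil)⟩,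
  ⟨r17o_14, r13o_11, r7o_4, r5o_2, r8o_6, r4o_2, r11o_19, (.st (nat_lit 206167) (nat_lit 412335) .nil)⟩,
  ⟨r17o_14, r13o_11, r7o_4, r5o_3, r8o_4, r4o_2, r11o_19, (.st (nat_lit 206167) (nat_lit 412335) .nil)⟩,
  ⟨r17o_14, r13o_11, r7o_4, r5o_3, r8o_6, r4o_2, r11o_19, (.st (nat_lit 206167) (nat_lit 412335) .nil)⟩]

/-- entries -/
def EB15 : List E7 := []

/-- entries -/
def EB16 : List E7 := []

/-- entries -/
def EB17 : List E7 := []

/-- entries -/
def EB18 : List E7 := []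

/-- entries -/
def EB19 : List E7 := []

/-- entries -/
def EB20 : List E7 := []

/-- entries -/
def EB21 : List E7 := []

/-- entries -/
def EB22 : List E7 := []

/-- entries -/
def EB23 : List E7 := []

/-- entries -/
def EB24 : List E7 := []

/-- entries -/
def EB25 : List E7 := []

/-- entries -/
def EB26 : List E7 := []

/-- entries -/
def EB27 : List E7 := []

/-- entries -/
def EB28 : List E7 := []

/-- entries -/
def EB29 : List E7 := []

/-- entries -/
def EB30 : List E7 := []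

/-- entries -/
def EB31 : List E7 := []

/-- entries -/
def EB32 : List E7 := []

/-- entries -/
def EB33 : List E7 := []

/-- entries -/
def EB34 : List E7 := []

/-- entries -/
def EB35 : List E7 := []

/-- entries -/
def EB36 : List E7 := []

/-- entries -/
def EB37 : List E7 := []

/-- entries -/
def EB38 : List E7 := []

/-- entries -/
def EB39 : List E7 := []

/-- entries -/
def EB40 : List E7 := []

/-- entries -/
def EB41 : List E7 := []

/-- entries -/
def EB42 : List E7 := []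

/-- entries -/
def EB43 : List E7 := []

/-- entries -/
def EB44 : List E7 := []

/-- entries -/
def EB45 : List E7 := []

/-- entries -/
def EB46 : List E7 := []

/-- entries -/
def EB47 : List E7 := []

/-- entries -/
def EB48 : List E7 := [⟨r17o_48, r13o_12, r7o_13, r5o_8, r8o_22, r4o_2, r11o_12, (.st (nat_lit 1732) (nat_lit 3465) .nil)⟩,
  ⟨r17o_48, r13o_12, r7o_13, r5o_9, r8o_20, r4o_2, r11o_12, (.st (nat_lit 1732) (nat_lit 3465) .nil)⟩,
  ⟨r17o_48, r13o_12, r7o_13, r5o_9, r8o_22, r4o_2, r11o_12, (.st (nat_lit 1732) (nat_lit 3465) .nil)⟩,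
  ⟨r17o_48, r13o_13, r7o_13, r5o_8, r8o_22, r4o_2, r11o_12, (.st (nat_lit 1732) (nat_lit 3465) .nil)⟩,
  ⟨r17o_48, r13o_13, r7o_13, r5o_9, r8o_20, r4o_2, r11o_12, (.st (nat_lit 1732) (nat_lit 3465) .nil)⟩,
  ⟨r17o_48, r13o_13, r7o_13, r5o_9, r8o_22, r4o_2, r11o_12, (.st (nat_lit 1732) (nat_lit 3465) .nil)⟩,
  ⟨r17o_48, r13o_14, r7o_13, r5o_8, r8o_22, r4o_2, r11o_12, (.st (nat_lit 12127) (nat_lit 24255) .nil)⟩,
  ⟨r17o_48, r13o_14, r7o_13, r5o_9, r8o_20, r4o_2, r11o_12, (.st (nat_lit 12127) (nat_lit 24255) .nil)⟩,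
  ⟨r17o_48, r13o_14, r7o_13, r5o_9, r8o_22, r4o_2, r11o_12, (.st (nat_lit 12127) (nat_lit 24255) .nil)⟩,
  ⟨r17o_48, r13o_15, r7o_13, r5o_8, r8o_22, r4o_2, r11o_12, (.st (nat_lit 12127) (nat_lit 24255) .nil)⟩,
  ⟨r17o_48, r13o_15, r7o_13, r5o_9, r8o_20, r4o_2, r11o_12, (.st (nat_lit 12127) (nat_lit 24255) .nil)⟩,
  ⟨r17o_48, r13o_15, r7o_13, r5o_9, r8o_22, r4o_2, r11o_12, (.st (nat_lit 12127) (nat_lit 24255) .nil)⟩,
  ⟨r17o_48, r13o_16, r7o_13, r5o_8, r8o_22, r4o_2, r11o_12, (.st (nat_lit 12127) (nat_lit 24255) .nil)⟩,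
  ⟨r17o_48, r13o_16, r7o_13, r5o_9, r8o_20, r4o_2, r11o_12, (.st (nat_lit 12127) (nat_lit 24255) .nil)⟩,
  ⟨r17o_48, r13o_16, r7o_13, r5o_9, r8o_22, r4o_2, r11o_12, (.st (nat_lit 12127) (nat_lit 24255) .nil)⟩,
  ⟨r17o_48, r13o_17, r7o_13, r5o_8, r8o_22, r4o_2, r11o_12, (.st (nat_lit 12127) (nat_lit 24255) .nil)⟩,
  ⟨r17o_48, r13o_17, r7o_13, r5o_9, r8o_20, r4o_2, r11o_12, (.st (nat_lit 12127) (nat_lit 24255) .nil)⟩,
  ⟨r17o_48, r13o_17, r7o_13, r5o_9, r8o_22, r4o_2, r11o_12, (.st (nat_lit 12127) (nat_lit 24255) .nil)⟩]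

/-- entries -/
def EB49 : List E7 := []

/-- entries -/
def EB50 : List E7 := [⟨r17o_50, r13o_12, r7o_13, r5o_8, r8o_20, r4o_2, r11o_12, (.st (nat_lit 1732) (nat_lit 3465) .nil)⟩,
  ⟨r17o_50, r13o_12, r7o_13, r5o_8, r8o_22, r4o_2, r11o_12, (.st (nat_lit 1732) (nat_lit 3465) .nil)⟩,
  ⟨r17o_50, r13o_12, r7o_13, r5o_9, r8o_20, r4o_2, r11o_12, (.st (nat_lit 1732) (nat_lit 3465) .nil)⟩,
  ⟨r17o_50, r13o_12, r7o_13, r5o_9, r8o_22, r4o_2, r11o_12, (.st (nat_lit 1732) (nat_lit 3465) .nil)⟩,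
  ⟨r17o_50, r13o_13, r7o_13, r5o_8, r8o_20, r4o_2, r11o_12, (.st (nat_lit 1732) (nat_lit 3465) .nil)⟩,
  ⟨r17o_50, r13o_13, r7o_13, r5o_8, r8o_22, r4o_2, r11o_12, (.st (nat_lit 1732) (nat_lit 3465) .nil)⟩,
  ⟨r17o_50, r13o_13, r7o_13, r5o_9, r8o_20, r4o_2, r11o_12, (.st (nat_lit 1732) (nat_lit 3465) .nil)⟩,
  ⟨r17o_50, r13o_13, r7o_13, r5o_9, r8o_22, r4o_2, r11o_12, (.st (nat_lit 1732) (nat_lit 3465) .nil)⟩,
  ⟨r17o_50, r13o_14, r7o_13, r5o_8, r8o_20, r4o_2, r11o_12, (.st (nat_lit 12127) (nat_lit 24255) .nil)⟩,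
  ⟨r17o_50, r13o_14, r7o_13, r5o_8, r8o_22, r4o_2, r11o_12, (.st (nat_lit 12127) (nat_lit 24255) .nil)⟩,
  ⟨r17o_50, r13o_14, r7o_13, r5o_9, r8o_20, r4o_2, r11o_12, (.st (nat_lit 12127) (nat_lit 24255) .nil)⟩,
  ⟨r17o_50, r13o_14, r7o_13, r5o_9, r8o_22, r4o_2, r11o_12, (.st (nat_lit 12127) (nat_lit 24255) .nil)⟩,
  ⟨r17o_50, r13o_15, r7o_13, r5o_8, r8o_20, r4o_2, r11o_12, (.st (nat_lit 12127) (nat_lit 24255) .nil)⟩,
  ⟨r17o_50, r13o_15, r7o_13, r5o_8, r8o_22, r4o_2, r11o_12, (.st (nat_lit 12127) (nat_lit 24255) .nil)⟩,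
  ⟨r17o_50, r13o_15, r7o_13, r5o_9, r8o_20, r4o_2, r11o_12, (.st (nat_lit 12127) (nat_lit 24255) .nil)⟩,
  ⟨r17o_50, r13o_15, r7o_13, r5o_9, r8o_22, r4o_2, r11o_12, (.st (nat_lit 12127) (nat_lit 24255) .nil)⟩,
  ⟨r17o_50, r13o_16, r7o_13, r5o_8, r8o_20, r4o_2, r11o_12, (.st (nat_lit 12127) (nat_lit 24255) .nil)⟩,
  ⟨r17o_50, r13o_16, r7o_13, r5o_8, r8o_22, r4o_2, r11o_12, (.st (nat_lit 12127) (nat_lit 24255) .nil)⟩,
  ⟨r17o_50, r13o_16, r7o_13, r5o_9, r8o_20, r4o_2, r11o_12, (.st (nat_lit 12127) (nat_lit 24255) .nil)⟩,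
  ⟨r17o_50, r13o_16, r7o_13, r5o_9, r8o_22, r4o_2, r11o_12, (.st (nat_lit 12127) (nat_lit 24255) .nil)⟩,
  ⟨r17o_50, r13o_17, r7o_13, r5o_8, r8o_20, r4o_2, r11o_12, (.st (nat_lit 12127) (nat_lit 24255) .nil)⟩,
  ⟨r17o_50, r13o_17, r7o_13, r5o_8, r8o_22, r4o_2, r11o_12, (.st (nat_lit 12127) (nat_lit 24255) .nil)⟩,
  ⟨r17o_50, r13o_17, r7o_13, r5o_9, r8o_20, r4o_2, r11o_12, (.st (nat_lit 12127) (nat_lit 24255) .nil)⟩,
  ⟨r17o_50, r13o_17, r7o_13, r5o_9, r8o_22, r4o_2, r11o_12, (.st (nat_lit 12127) (nat_lit 24255) .nil)⟩]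

/-- entries -/
def EB51 : List E7 := [⟨r17o_51, r13o_12, r7o_13, r5o_8, r8o_20, r4o_2, r11o_12, (.st (nat_lit 577) (nat_lit 1155) .nil)⟩,
  ⟨r17o_51, r13o_12, r7o_13, r5o_8, r8o_22, r4o_2, r11o_12, (.st (nat_lit 192) (nat_lit 385) .nil)⟩,
  ⟨r17o_51, r13o_12, r7o_13, r5o_9, r8o_20, r4o_2, r11o_12, (.st (nat_lit 577) (nat_lit 1155) .nil)⟩,
  ⟨r17o_51, r13o_12, r7o_13, r5o_9, r8o_22, r4o_2, r11o_12, (.st (nat_lit 192) (nat_lit 385) .nil)⟩,
  ⟨r17o_51, r13o_13, r7o_13, r5o_8, r8o_20, r4o_2, r11o_12, (.st (nat_lit 577) (nat_lit 1155) .nil)⟩,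
  ⟨r17o_51, r13o_13, r7o_13, r5o_8, r8o_22, r4o_2, r11o_12, (.st (nat_lit 192) (nat_lit 385) .nil)⟩,
  ⟨r17o_51, r13o_13, r7o_13, r5o_9, r8o_20, r4o_2, r11o_12, (.st (nat_lit 577) (nat_lit 1155) .nil)⟩,
  ⟨r17o_51, r13o_13, r7o_13, r5o_9, r8o_22, r4o_2, r11o_12, (.st (nat_lit 192) (nat_lit 385) .nil)⟩,
  ⟨r17o_51, r13o_14, r7o_13, r5o_8, r8o_20, r4o_2, r11o_12, (.st (nat_lit 4042) (nat_lit 8085) .nil)⟩,
  ⟨r17o_51, r13o_14, r7o_13, r5o_8, r8o_22, r4o_2, r11o_12, (.st (nat_lit 1347) (nat_lit 2695) .nil)⟩,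
  ⟨r17o_51, r13o_14, r7o_13, r5o_9, r8o_20, r4o_2, r11o_12, (.st (nat_lit 4042) (nat_lit 8085) .nil)⟩,
  ⟨r17o_51, r13o_14, r7o_13, r5o_9, r8o_22, r4o_2, r11o_12, (.st (nat_lit 1347) (nat_lit 2695) .nil)⟩,
  ⟨r17o_51, r13o_15, r7o_13, r5o_8, r8o_20, r4o_2, r11o_12, (.st (nat_lit 4042) (nat_lit 8085) .nil)⟩,
  ⟨r17o_51, r13o_15, r7o_13, r5o_8, r8o_22, r4o_2, r11o_12, (.st (nat_lit 1347) (nat_lit 2695) .nil)⟩,
  ⟨r17o_51, r13o_15, r7o_13, r5o_9, r8o_20, r4o_2, r11o_12, (.st (nat_lit 4042) (nat_lit 8085) .nil)⟩,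
  ⟨r17o_51, r13o_15, r7o_13, r5o_9, r8o_22, r4o_2, r11o_12, (.st (nat_lit 1347) (nat_lit 2695) .nil)⟩,
  ⟨r17o_51, r13o_16, r7o_13, r5o_8, r8o_20, r4o_2, r11o_12, (.st (nat_lit 4042) (nat_lit 8085) .nil)⟩,
  ⟨r17o_51, r13o_16, r7o_13, r5o_8, r8o_22, r4o_2, r11o_12, (.st (nat_lit 1347) (nat_lit 2695) .nil)⟩,
  ⟨r17o_51, r13o_16, r7o_13, r5o_9, r8o_20, r4o_2, r11o_12, (.st (nat_lit 4042) (nat_lit 8085) .nil)⟩,
  ⟨r17o_51, r13o_16, r7o_13, r5o_9, r8o_22, r4o_2, r11o_12, (.st (nat_lit 1347) (nat_lit 2695) .nil)⟩,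
  ⟨r17o_51, r13o_17, r7o_13, r5o_8, r8o_20, r4o_2, r11o_12, (.st (nat_lit 4042) (nat_lit 8085) .nil)⟩,
  ⟨r17o_51, r13o_17, r7o_13, r5o_8, r8o_22, r4o_2, r11o_12, (.st (nat_lit 1347) (nat_lit 2695) .nil)⟩,
  ⟨r17o_51, r13o_17, r7o_13, r5o_9, r8o_20, r4o_2, r11o_12, (.st (nat_lit 4042) (nat_lit 8085) .nil)⟩,
  ⟨r17o_51, r13o_17, r7o_13, r5o_9, r8o_22, r4o_2, r11o_12, (.st (nat_lit 1347) (nat_lit 2695) .nil)⟩]

/-- entries -/
def EB52 : List E7 := []

/-- entries -/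
def EB53 : List E7 := []

/-- entries -/
def EB54 : List E7 := [⟨r17o_54, r13o_12, r7o_13, r5o_8, r8o_22, r4o_2, r11o_12, (.st (nat_lit 1732) (nat_lit 3465) .nil)⟩,
  ⟨r17o_54, r13o_12, r7o_13, r5o_9, r8o_22, r4o_2, r11o_12, (.st (nat_lit 1732) (nat_lit 3465) .nil)⟩,
  ⟨r17o_54, r13o_13, r7o_13, r5o_8, r8o_22, r4o_2, r11o_12, (.st (nat_lit 1732) (nat_lit 3465) .nil)⟩,
  ⟨r17o_54, r13o_13, r7o_13, r5o_9, r8o_22, r4o_2, r11o_12, (.st (nat_lit 1732) (nat_lit 3465) .nil)⟩,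
  ⟨r17o_54, r13o_14, r7o_13, r5o_8, r8o_22, r4o_2, r11o_12, (.st (nat_lit 12127) (nat_lit 24255) .nil)⟩,
  ⟨r17o_54, r13o_14, r7o_13, r5o_9, r8o_22, r4o_2, r11o_12, (.st (nat_lit 12127) (nat_lit 24255) .nil)⟩,
  ⟨r17o_54, r13o_15, r7o_13, r5o_8, r8o_22, r4o_2, r11o_12, (.st (nat_lit 12127) (nat_lit 24255) .nil)⟩,
  ⟨r17o_54, r13o_15, r7o_13, r5o_9, r8o_22, r4o_2, r11o_12, (.st (nat_lit 12127) (nat_lit 24255) .nil)⟩,
  ⟨r17o_54, r13o_16, r7o_13, r5o_8, r8o_22, r4o_2, r11o_12, (.st (nat_lit 12127) (nat_lit 24255) .nil)⟩,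
  ⟨r17o_54, r13o_16, r7o_13, r5o_9, r8o_22, r4o_2, r11o_12, (.st (nat_lit 12127) (nat_lit 24255) .nil)⟩,
  ⟨r17o_54, r13o_17, r7o_13, r5o_8, r8o_22, r4o_2, r11o_12, (.st (nat_lit 12127) (nat_lit 24255) .nil)⟩,
  ⟨r17o_54, r13o_17, r7o_13, r5o_9, r8o_22, r4o_2, r11o_12, (.st (nat_lit 12127) (nat_lit 24255) .nil)⟩]

/-- entries -/
def EB55 : List E7 := []

/-- entries -/
def EB56 : List E7 := []

/-- entries -/
def EB57 : List E7 := []

/-- entries -/
def EB58 : List E7 := []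

/-- entries -/
def EB59 : List E7 := []

/-- entries -/
def EB60 : List E7 := []

/-- entries -/
def EB61 : List E7 := []

/-- entries -/
def EB62 : List E7 := []

/-- entries -/
def EB63 : List E7 := []

/-- entries -/
def EB64 : List E7 := []

/-- entries -/
def EB65 : List E7 := [⟨r17o_65, r13o_26, r7o_13, r5o_2, r8o_12, r4o_6, r11o_39, (.st (nat_lit 480479) (nat_lit 510510) (.st (nat_lit 30030) (nat_lit 510510) .nil))⟩,
  ⟨r17o_65, r13o_26, r7o_13, r5o_2, r8o_14, r4o_6, r11o_39, (.st (nat_lit 225224) (nat_lit 510510) (.st (nat_lit 285285) (nat_lit 510510) .nil))⟩]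

/-- entries -/
def EB66 : List E7 := []

/-- entries -/
def EB67 : List E7 := [⟨r17o_67, r13o_75, r7o_26, r5o_1, r8o_25, r4o_5, r11o_8, (.st (nat_lit 14714699) (nat_lit 23823800) (.st (nat_lit 9109100) (nat_lit 23823800) .nil))⟩,
  ⟨r17o_67, r13o_75, r7o_26, r5o_1, r8o_27, r4o_5, r11o_8, (.st (nat_lit 2802799) (nat_lit 23823800) (.st (nat_lit 21021000) (nat_lit 23823800) .nil))⟩]

/-- entries -/
def EB68 : List E7 := []

/-- entries -/
def EB69 : List E7 := []

/-- entries -/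
def EB70 : List E7 := []

/-- entries -/
def EB71 : List E7 := []

/-- entries -/
def EB72 : List E7 := []

/-- entries -/
def EB73 : List E7 := []

/-- entries -/
def EB74 : List E7 := []

/-- entries -/
def EB75 : List E7 := []

/-- entries -/
def EB76 : List E7 := [⟨r17o_76, r13o_8, r7o_5, r5o_0, r8o_8, r4o_4, r11o_63, (.st (nat_lit 2802799) (nat_lit 23823800) (.st (nat_lit 21021000) (nat_lit 23823800) .nil))⟩,
  ⟨r17o_76, r13o_8, r7o_5, r5o_0, r8o_10, r4o_4, r11o_63, (.st (nat_lit 14714699) (nat_lit 23823800) (.st (nat_lit 9109100) (nat_lit 23823800) .nil))⟩]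

/-- entries -/
def EB77 : List E7 := []

/-- entries -/
def EB78 : List E7 := [⟨r17o_78, r13o_57, r7o_18, r5o_9, r8o_21, r4o_3, r11o_32, (.st (nat_lit 225224) (nat_lit 510510) (.st (nat_lit 285285) (nat_lit 510510) .nil))⟩,
  ⟨r17o_78, r13o_57, r7o_18, r5o_9, r8o_23, r4o_3, r11o_32, (.st (nat_lit 480479) (nat_lit 510510) (.st (nat_lit 30030) (nat_lit 510510) .nil))⟩]

/-- entries -/
def EB79 : List E7 := []

/-- entries -/
def EB80 : List E7 := []

/-- entries -/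
def EB81 : List E7 := []

/-- entries -/
def EB82 : List E7 := []

/-- entries -/
def EB83 : List E7 := []

/-- entries -/
def EB84 : List E7 := []

/-- entries -/
def EB85 : List E7 := []

/-- entries -/
def EB86 : List E7 := []

/-- entries -/
def EB87 : List E7 := []

/-- entries -/
def EB88 : List E7 := []

/-- entries -/
def EB89 : List E7 := [⟨r17o_89, r13o_66, r7o_18, r5o_2, r8o_13, r4o_7, r11o_59, (.st (nat_lit 12127) (nat_lit 24255) .nil)⟩,
  ⟨r17o_89, r13o_66, r7o_18, r5o_3, r8o_13, r4o_7, r11o_59, (.st (nat_lit 12127) (nat_lit 24255) .nil)⟩,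
  ⟨r17o_89, r13o_67, r7o_18, r5o_2, r8o_13, r4o_7, r11o_59, (.st (nat_lit 12127) (nat_lit 24255) .nil)⟩,
  ⟨r17o_89, r13o_67, r7o_18, r5o_3, r8o_13, r4o_7, r11o_59, (.st (nat_lit 12127) (nat_lit 24255) .nil)⟩,
  ⟨r17o_89, r13o_68, r7o_18, r5o_2, r8o_13, r4o_7, r11o_59, (.st (nat_lit 12127) (nat_lit 24255) .nil)⟩,
  ⟨r17o_89, r13o_68, r7o_18, r5o_3, r8o_13, r4o_7, r11o_59, (.st (nat_lit 12127) (nat_lit 24255) .nil)⟩,
  ⟨r17o_89, r13o_69, r7o_18, r5o_2, r8o_13, r4o_7, r11o_59, (.st (nat_lit 12127) (nat_lit 24255) .nil)⟩,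
  ⟨r17o_89, r13o_69, r7o_18, r5o_3, r8o_13, r4o_7, r11o_59, (.st (nat_lit 12127) (nat_lit 24255) .nil)⟩,
  ⟨r17o_89, r13o_70, r7o_18, r5o_2, r8o_13, r4o_7, r11o_59, (.st (nat_lit 1732) (nat_lit 3465) .nil)⟩,
  ⟨r17o_89, r13o_70, r7o_18, r5o_3, r8o_13, r4o_7, r11o_59, (.st (nat_lit 1732) (nat_lit 3465) .nil)⟩,
  ⟨r17o_89, r13o_71, r7o_18, r5o_2, r8o_13, r4o_7, r11o_59, (.st (nat_lit 1732) (nat_lit 3465) .nil)⟩,
  ⟨r17o_89, r13o_71, r7o_18, r5o_3, r8o_13, r4o_7, r11o_59, (.st (nat_lit 1732) (nat_lit 3465) .nil)⟩]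

/-- entries -/
def EB90 : List E7 := []

/-- entries -/
def EB91 : List E7 := []

/-- entries -/
def EB92 : List E7 := [⟨r17o_92, r13o_66, r7o_18, r5o_2, r8o_13, r4o_7, r11o_59, (.st (nat_lit 1347) (nat_lit 2695) .nil)⟩,
  ⟨r17o_92, r13o_66, r7o_18, r5o_2, r8o_15, r4o_7, r11o_59, (.st (nat_lit 4042) (nat_lit 8085) .nil)⟩,
  ⟨r17o_92, r13o_66, r7o_18, r5o_3, r8o_13, r4o_7, r11o_59, (.st (nat_lit 1347) (nat_lit 2695) .nil)⟩,
  ⟨r17o_92, r13o_66, r7o_18, r5o_3, r8o_15, r4o_7, r11o_59, (.st (nat_lit 4042) (nat_lit 8085) .nil)⟩,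
  ⟨r17o_92, r13o_67, r7o_18, r5o_2, r8o_13, r4o_7, r11o_59, (.st (nat_lit 1347) (nat_lit 2695) .nil)⟩,
  ⟨r17o_92, r13o_67, r7o_18, r5o_2, r8o_15, r4o_7, r11o_59, (.st (nat_lit 4042) (nat_lit 8085) .nil)⟩,
  ⟨r17o_92, r13o_67, r7o_18, r5o_3, r8o_13, r4o_7, r11o_59, (.st (nat_lit 1347) (nat_lit 2695) .nil)⟩,
  ⟨r17o_92, r13o_67, r7o_18, r5o_3, r8o_15, r4o_7, r11o_59, (.st (nat_lit 4042) (nat_lit 8085) .nil)⟩,
  ⟨r17o_92, r13o_68, r7o_18, r5o_2, r8o_13, r4o_7, r11o_59, (.st (nat_lit 1347) (nat_lit 2695) .nil)⟩,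
  ⟨r17o_92, r13o_68, r7o_18, r5o_2, r8o_15, r4o_7, r11o_59, (.st (nat_lit 4042) (nat_lit 8085) .nil)⟩,
  ⟨r17o_92, r13o_68, r7o_18, r5o_3, r8o_13, r4o_7, r11o_59, (.st (nat_lit 1347) (nat_lit 2695) .nil)⟩,
  ⟨r17o_92, r13o_68, r7o_18, r5o_3, r8o_15, r4o_7, r11o_59, (.st (nat_lit 4042) (nat_lit 8085) .nil)⟩,
  ⟨r17o_92, r13o_69, r7o_18, r5o_2, r8o_13, r4o_7, r11o_59, (.st (nat_lit 1347) (nat_lit 2695) .nil)⟩,
  ⟨r17o_92, r13o_69, r7o_18, r5o_2, r8o_15, r4o_7, r11o_59, (.st (nat_lit 4042) (nat_lit 8085) .nil)⟩,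
  ⟨r17o_92, r13o_69, r7o_18, r5o_3, r8o_13, r4o_7, r11o_59, (.st (nat_lit 1347) (nat_lit 2695) .nil)⟩,
  ⟨r17o_92, r13o_69, r7o_18, r5o_3, r8o_15, r4o_7, r11o_59, (.st (nat_lit 4042) (nat_lit 8085) .nil)⟩,
  ⟨r17o_92, r13o_70, r7o_18, r5o_2, r8o_13, r4o_7, r11o_59, (.st (nat_lit 192) (nat_lit 385) .nil)⟩,
  ⟨r17o_92, r13o_70, r7o_18, r5o_2, r8o_15, r4o_7, r11o_59, (.st (nat_lit 577) (nat_lit 1155) .nil)⟩,
  ⟨r17o_92, r13o_70, r7o_18, r5o_3, r8o_13, r4o_7, r11o_59, (.st (nat_lit 192) (nat_lit 385) .nil)⟩,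
  ⟨r17o_92, r13o_70, r7o_18, r5o_3, r8o_15, r4o_7, r11o_59, (.st (nat_lit 577) (nat_lit 1155) .nil)⟩,
  ⟨r17o_92, r13o_71, r7o_18, r5o_2, r8o_13, r4o_7, r11o_59, (.st (nat_lit 192) (nat_lit 385) .nil)⟩,
  ⟨r17o_92, r13o_71, r7o_18, r5o_2, r8o_15, r4o_7, r11o_59, (.st (nat_lit 577) (nat_lit 1155) .nil)⟩,
  ⟨r17o_92, r13o_71, r7o_18, r5o_3, r8o_13, r4o_7, r11o_59, (.st (nat_lit 192) (nat_lit 385) .nil)⟩,
  ⟨r17o_92, r13o_71, r7o_18, r5o_3, r8o_15, r4o_7, r11o_59, (.st (nat_lit 577) (nat_lit 1155) .nil)⟩]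

/-- entries -/
def EB93 : List E7 := [⟨r17o_93, r13o_66, r7o_18, r5o_2, r8o_13, r4o_7, r11o_59, (.st (nat_lit 12127) (nat_lit 24255) .nil)⟩,
  ⟨r17o_93, r13o_66, r7o_18, r5o_2, r8o_15, r4o_7, r11o_59, (.st (nat_lit 12127) (nat_lit 24255) .nil)⟩,
  ⟨r17o_93, r13o_66, r7o_18, r5o_3, r8o_13, r4o_7, r11o_59, (.st (nat_lit 12127) (nat_lit 24255) .nil)⟩,
  ⟨r17o_93, r13o_66, r7o_18, r5o_3, r8o_15, r4o_7, r11o_59, (.st (nat_lit 12127) (nat_lit 24255) .nil)⟩,
  ⟨r17o_93, r13o_67, r7o_18, r5o_2, r8o_13, r4o_7, r11o_59, (.st (nat_lit 12127) (nat_lit 24255) .nil)⟩,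
  ⟨r17o_93, r13o_67, r7o_18, r5o_2, r8o_15, r4o_7, r11o_59, (.st (nat_lit 12127) (nat_lit 24255) .nil)⟩,
  ⟨r17o_93, r13o_67, r7o_18, r5o_3, r8o_13, r4o_7, r11o_59, (.st (nat_lit 12127) (nat_lit 24255) .nil)⟩,
  ⟨r17o_93, r13o_67, r7o_18, r5o_3, r8o_15, r4o_7, r11o_59, (.st (nat_lit 12127) (nat_lit 24255) .nil)⟩,
  ⟨r17o_93, r13o_68, r7o_18, r5o_2, r8o_13, r4o_7, r11o_59, (.st (nat_lit 12127) (nat_lit 24255) .nil)⟩,
  ⟨r17o_93, r13o_68, r7o_18, r5o_2, r8o_15, r4o_7, r11o_59, (.st (nat_lit 12127) (nat_lit 24255) .nil)⟩,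
  ⟨r17o_93, r13o_68, r7o_18, r5o_3, r8o_13, r4o_7, r11o_59, (.st (nat_lit 12127) (nat_lit 24255) .nil)⟩,
  ⟨r17o_93, r13o_68, r7o_18, r5o_3, r8o_15, r4o_7, r11o_59, (.st (nat_lit 12127) (nat_lit 24255) .nil)⟩,
  ⟨r17o_93, r13o_69, r7o_18, r5o_2, r8o_13, r4o_7, r11o_59, (.st (nat_lit 12127) (nat_lit 24255) .nil)⟩,
  ⟨r17o_93, r13o_69, r7o_18, r5o_2, r8o_15, r4o_7, r11o_59, (.st (nat_lit 12127) (nat_lit 24255) .nil)⟩,
  ⟨r17o_93, r13o_69, r7o_18, r5o_3, r8o_13, r4o_7, r11o_59, (.st (nat_lit 12127) (nat_lit 24255) .nil)⟩,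
  ⟨r17o_93, r13o_69, r7o_18, r5o_3, r8o_15, r4o_7, r11o_59, (.st (nat_lit 12127) (nat_lit 24255) .nil)⟩,
  ⟨r17o_93, r13o_70, r7o_18, r5o_2, r8o_13, r4o_7, r11o_59, (.st (nat_lit 1732) (nat_lit 3465) .nil)⟩,
  ⟨r17o_93, r13o_70, r7o_18, r5o_2, r8o_15, r4o_7, r11o_59, (.st (nat_lit 1732) (nat_lit 3465) .nil)⟩,
  ⟨r17o_93, r13o_70, r7o_18, r5o_3, r8o_13, r4o_7, r11o_59, (.st (nat_lit 1732) (nat_lit 3465) .nil)⟩,
  ⟨r17o_93, r13o_70, r7o_18, r5o_3, r8o_15, r4o_7, r11o_59, (.st (nat_lit 1732) (nat_lit 3465) .nil)⟩,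
  ⟨r17o_93, r13o_71, r7o_18, r5o_2, r8o_13, r4o_7, r11o_59, (.st (nat_lit 1732) (nat_lit 3465) .nil)⟩,
  ⟨r17o_93, r13o_71, r7o_18, r5o_2, r8o_15, r4o_7, r11o_59, (.st (nat_lit 1732) (nat_lit 3465) .nil)⟩,
  ⟨r17o_93, r13o_71, r7o_18, r5o_3, r8o_13, r4o_7, r11o_59, (.st (nat_lit 1732) (nat_lit 3465) .nil)⟩,
  ⟨r17o_93, r13o_71, r7o_18, r5o_3, r8o_15, r4o_7, r11o_59, (.st (nat_lit 1732) (nat_lit 3465) .nil)⟩]

/-- entries -/
def EB94 : List E7 := []

/-- entries -/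
def EB95 : List E7 := [⟨r17o_95, r13o_66, r7o_18, r5o_2, r8o_13, r4o_7, r11o_59, (.st (nat_lit 12127) (nat_lit 24255) .nil)⟩,
  ⟨r17o_95, r13o_66, r7o_18, r5o_2, r8o_15, r4o_7, r11o_59, (.st (nat_lit 12127) (nat_lit 24255) .nil)⟩,
  ⟨r17o_95, r13o_66, r7o_18, r5o_3, r8o_13, r4o_7, r11o_59, (.st (nat_lit 12127) (nat_lit 24255) .nil)⟩,
  ⟨r17o_95, r13o_67, r7o_18, r5o_2, r8o_13, r4o_7, r11o_59, (.st (nat_lit 12127) (nat_lit 24255) .nil)⟩,
  ⟨r17o_95, r13o_67, r7o_18, r5o_2, r8o_15, r4o_7, r11o_59, (.st (nat_lit 12127) (nat_lit 24255) .nil)⟩,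
  ⟨r17o_95, r13o_67, r7o_18, r5o_3, r8o_13, r4o_7, r11o_59, (.st (nat_lit 12127) (nat_lit 24255) .nil)⟩,
  ⟨r17o_95, r13o_68, r7o_18, r5o_2, r8o_13, r4o_7, r11o_59, (.st (nat_lit 12127) (nat_lit 24255) .nil)⟩,
  ⟨r17o_95, r13o_68, r7o_18, r5o_2, r8o_15, r4o_7, r11o_59, (.st (nat_lit 12127) (nat_lit 24255) .nil)⟩,
  ⟨r17o_95, r13o_68, r7o_18, r5o_3, r8o_13, r4o_7, r11o_59, (.st (nat_lit 12127) (nat_lit 24255) .nil)⟩,
  ⟨r17o_95, r13o_69, r7o_18, r5o_2, r8o_13, r4o_7, r11o_59, (.st (nat_lit 12127) (nat_lit 24255) .nil)⟩,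
  ⟨r17o_95, r13o_69, r7o_18, r5o_2, r8o_15, r4o_7, r11o_59, (.st (nat_lit 12127) (nat_lit 24255) .nil)⟩,
  ⟨r17o_95, r13o_69, r7o_18, r5o_3, r8o_13, r4o_7, r11o_59, (.st (nat_lit 12127) (nat_lit 24255) .nil)⟩,
  ⟨r17o_95, r13o_70, r7o_18, r5o_2, r8o_13, r4o_7, r11o_59, (.st (nat_lit 1732) (nat_lit 3465) .nil)⟩,
  ⟨r17o_95, r13o_70, r7o_18, r5o_2, r8o_15, r4o_7, r11o_59, (.st (nat_lit 1732) (nat_lit 3465) .nil)⟩,
  ⟨r17o_95, r13o_70, r7o_18, r5o_3, r8o_13, r4o_7, r11o_59, (.st (nat_lit 1732) (nat_lit 3465) .nil)⟩,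
  ⟨r17o_95, r13o_71, r7o_18, r5o_2, r8o_13, r4o_7, r11o_59, (.st (nat_lit 1732) (nat_lit 3465) .nil)⟩,
  ⟨r17o_95, r13o_71, r7o_18, r5o_2, r8o_15, r4o_7, r11o_59, (.st (nat_lit 1732) (nat_lit 3465) .nil)⟩,
  ⟨r17o_95, r13o_71, r7o_18, r5o_3, r8o_13, r4o_7, r11o_59, (.st (nat_lit 1732) (nat_lit 3465) .nil)⟩]

/-- entries -/
def EB96 : List E7 := []

/-- entries -/
def EB97 : List E7 := []

/-- entries -/
def EB98 : List E7 := []

/-- entries -/
def EB99 : List E7 := []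

/-- entries -/
def EB100 : List E7 := []

/-- entries -/
def EB101 : List E7 := []

/-- entries -/
def EB102 : List E7 := []

/-- entries -/
def EB103 : List E7 := []

/-- entries -/
def EB104 : List E7 := []

/-- entries -/
def EB105 : List E7 := []

/-- entries -/
def EB106 : List E7 := []

/-- entries -/
def EB107 : List E7 := []

/-- entries -/
def EB108 : List E7 := []

/-- entries -/
def EB109 : List E7 := []

/-- entries -/
def EB110 : List E7 := []

/-- entries -/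
def EB111 : List E7 := []

/-- entries -/
def EB112 : List E7 := []

/-- entries -/
def EB113 : List E7 := []

/-- entries -/
def EB114 : List E7 := []

/-- entries -/
def EB115 : List E7 := []

/-- entries -/
def EB116 : List E7 := []

/-- entries -/
def EB117 : List E7 := []

/-- entries -/
def EB118 : List E7 := []

/-- entries -/
def EB119 : List E7 := []

/-- entries -/
def EB120 : List E7 := []

/-- entries -/
def EB121 : List E7 := []

/-- entries -/
def EB122 : List E7 := []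

/-- entries -/
def EB123 : List E7 := []

/-- entries -/
def EB124 : List E7 := []

/-- entries -/
def EB125 : List E7 := []

/-- entries -/
def EB126 : List E7 := []

/-- entries -/
def EB127 : List E7 := []

/-- entries -/
def EB128 : List E7 := []

/-- entries -/
def EB129 : List E7 := [⟨r17o_129, r13o_72, r7o_27, r5o_8, r8o_29, r4o_7, r11o_52, (.st (nat_lit 206167) (nat_lit 412335) .nil)⟩,
  ⟨r17o_129, r13o_72, r7o_27, r5o_8, r8o_31, r4o_7, r11o_52, (.st (nat_lit 206167) (nat_lit 412335) .nil)⟩,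
  ⟨r17o_129, r13o_72, r7o_27, r5o_9, r8o_29, r4o_7, r11o_52, (.st (nat_lit 206167) (nat_lit 412335) .nil)⟩,
  ⟨r17o_129, r13o_72, r7o_27, r5o_9, r8o_31, r4o_7, r11o_52, (.st (nat_lit 206167) (nat_lit 412335) .nil)⟩,
  ⟨r17o_129, r13o_73, r7o_27, r5o_8, r8o_29, r4o_7, r11o_52, (.st (nat_lit 206167) (nat_lit 412335) .nil)⟩,
  ⟨r17o_129, r13o_73, r7o_27, r5o_8, r8o_31, r4o_7, r11o_52, (.st (nat_lit 206167) (nat_lit 412335) .nil)⟩,
  ⟨r17o_129, r13o_73, r7o_27, r5o_9, r8o_29, r4o_7, r11o_52, (.st (nat_lit 206167) (nat_lit 412335) .nil)⟩,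
  ⟨r17o_129, r13o_73, r7o_27, r5o_9, r8o_31, r4o_7, r11o_52, (.st (nat_lit 206167) (nat_lit 412335) .nil)⟩,
  ⟨r17o_129, r13o_74, r7o_27, r5o_8, r8o_29, r4o_7, r11o_52, (.st (nat_lit 206167) (nat_lit 412335) .nil)⟩,
  ⟨r17o_129, r13o_74, r7o_27, r5o_8, r8o_31, r4o_7, r11o_52, (.st (nat_lit 206167) (nat_lit 412335) .nil)⟩,
  ⟨r17o_129, r13o_74, r7o_27, r5o_9, r8o_29, r4o_7, r11o_52, (.st (nat_lit 206167) (nat_lit 412335) .nil)⟩,
  ⟨r17o_129, r13o_74, r7o_27, r5o_9, r8o_31, r4o_7, r11o_52, (.st (nat_lit 206167) (nat_lit 412335) .nil)⟩,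
  ⟨r17o_129, r13o_75, r7o_27, r5o_8, r8o_29, r4o_7, r11o_52, (.st (nat_lit 206167) (nat_lit 412335) .nil)⟩,
  ⟨r17o_129, r13o_75, r7o_27, r5o_8, r8o_31, r4o_7, r11o_52, (.st (nat_lit 206167) (nat_lit 412335) .nil)⟩,
  ⟨r17o_129, r13o_75, r7o_27, r5o_9, r8o_29, r4o_7, r11o_52, (.st (nat_lit 206167) (nat_lit 412335) .nil)⟩,
  ⟨r17o_129, r13o_75, r7o_27, r5o_9, r8o_31, r4o_7, r11o_52, (.st (nat_lit 206167) (nat_lit 412335) .nil)⟩,
  ⟨r17o_129, r13o_76, r7o_27, r5o_8, r8o_29, r4o_7, r11o_52, (.st (nat_lit 206167) (nat_lit 412335) .nil)⟩,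
  ⟨r17o_129, r13o_76, r7o_27, r5o_8, r8o_31, r4o_7, r11o_52, (.st (nat_lit 206167) (nat_lit 412335) .nil)⟩,
  ⟨r17o_129, r13o_76, r7o_27, r5o_9, r8o_29, r4o_7, r11o_52, (.st (nat_lit 206167) (nat_lit 412335) .nil)⟩,
  ⟨r17o_129, r13o_76, r7o_27, r5o_9, r8o_31, r4o_7, r11o_52, (.st (nat_lit 206167) (nat_lit 412335) .nil)⟩,
  ⟨r17o_129, r13o_77, r7o_27, r5o_8, r8o_29, r4o_7, r11o_52, (.st (nat_lit 29452) (nat_lit 58905) .nil)⟩,
  ⟨r17o_129, r13o_77, r7o_27, r5o_8, r8o_31, r4o_7, r11o_52, (.st (nat_lit 29452) (nat_lit 58905) .nil)⟩,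
  ⟨r17o_129, r13o_77, r7o_27, r5o_9, r8o_29, r4o_7, r11o_52, (.st (nat_lit 29452) (nat_lit 58905) .nil)⟩,
  ⟨r17o_129, r13o_77, r7o_27, r5o_9, r8o_31, r4o_7, r11o_52, (.st (nat_lit 29452) (nat_lit 58905) .nil)⟩]

/-- entries -/
def EB130 : List E7 := []

/-- entries -/
def EB131 : List E7 := []

/-- entries -/
def EB132 : List E7 := [⟨r17o_132, r13o_72, r7o_27, r5o_8, r8o_31, r4o_7, r11o_52, (.st (nat_lit 206167) (nat_lit 412335) .nil)⟩,
  ⟨r17o_132, r13o_72, r7o_27, r5o_9, r8o_31, r4o_7, r11o_52, (.st (nat_lit 206167) (nat_lit 412335) .nil)⟩,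
  ⟨r17o_132, r13o_73, r7o_24, r5o_8, r8o_29, r4o_7, r11o_61, (.st (nat_lit 163796) (nat_lit 163800) (.st (nat_lit 3) (nat_lit 163800) .nil))⟩,
  ⟨r17o_132, r13o_73, r7o_25, r5o_8, r8o_29, r4o_7, r11o_61, (.st (nat_lit 81903) (nat_lit 163800) (.st (nat_lit 81896) (nat_lit 163800) .nil))⟩,
  ⟨r17o_132, r13o_73, r7o_27, r5o_8, r8o_31, r4o_7, r11o_52, (.st (nat_lit 206167) (nat_lit 412335) .nil)⟩,
  ⟨r17o_132, r13o_73, r7o_27, r5o_9, r8o_31, r4o_7, r11o_52, (.st (nat_lit 206167) (nat_lit 412335) .nil)⟩,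
  ⟨r17o_132, r13o_74, r7o_27, r5o_8, r8o_31, r4o_7, r11o_52, (.st (nat_lit 206167) (nat_lit 412335) .nil)⟩,
  ⟨r17o_132, r13o_74, r7o_27, r5o_9, r8o_31, r4o_7, r11o_52, (.st (nat_lit 206167) (nat_lit 412335) .nil)⟩,
  ⟨r17o_132, r13o_75, r7o_27, r5o_8, r8o_31, r4o_7, r11o_52, (.st (nat_lit 206167) (nat_lit 412335) .nil)⟩,
  ⟨r17o_132, r13o_75, r7o_27, r5o_9, r8o_31, r4o_7, r11o_52, (.st (nat_lit 206167) (nat_lit 412335) .nil)⟩,
  ⟨r17o_132, r13o_76, r7o_27, r5o_8, r8o_31, r4o_7, r11o_52, (.st (nat_lit 206167) (nat_lit 412335) .nil)⟩,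
  ⟨r17o_132, r13o_76, r7o_27, r5o_9, r8o_31, r4o_7, r11o_52, (.st (nat_lit 206167) (nat_lit 412335) .nil)⟩,
  ⟨r17o_132, r13o_77, r7o_27, r5o_8, r8o_31, r4o_7, r11o_52, (.st (nat_lit 29452) (nat_lit 58905) .nil)⟩,
  ⟨r17o_132, r13o_77, r7o_27, r5o_9, r8o_31, r4o_7, r11o_52, (.st (nat_lit 29452) (nat_lit 58905) .nil)⟩]

/-- entries -/
def EB133 : List E7 := [⟨r17o_133, r13o_72, r7o_27, r5o_8, r8o_31, r4o_7, r11o_52, (.st (nat_lit 206167) (nat_lit 412335) .nil)⟩,
  ⟨r17o_133, r13o_72, r7o_27, r5o_9, r8o_31, r4o_7, r11o_52, (.st (nat_lit 206167) (nat_lit 412335) .nil)⟩,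
  ⟨r17o_133, r13o_73, r7o_27, r5o_8, r8o_31, r4o_7, r11o_52, (.st (nat_lit 206167) (nat_lit 412335) .nil)⟩,
  ⟨r17o_133, r13o_73, r7o_27, r5o_9, r8o_31, r4o_7, r11o_52, (.st (nat_lit 206167) (nat_lit 412335) .nil)⟩,
  ⟨r17o_133, r13o_74, r7o_27, r5o_8, r8o_31, r4o_7, r11o_52, (.st (nat_lit 206167) (nat_lit 412335) .nil)⟩,
  ⟨r17o_133, r13o_74, r7o_27, r5o_9, r8o_31, r4o_7, r11o_52, (.st (nat_lit 206167) (nat_lit 412335) .nil)⟩,
  ⟨r17o_133, r13o_75, r7o_27, r5o_8, r8o_31, r4o_7, r11o_52, (.st (nat_lit 206167) (nat_lit 412335) .nil)⟩,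
  ⟨r17o_133, r13o_75, r7o_27, r5o_9, r8o_31, r4o_7, r11o_52, (.st (nat_lit 206167) (nat_lit 412335) .nil)⟩,
  ⟨r17o_133, r13o_76, r7o_27, r5o_8, r8o_31, r4o_7, r11o_52, (.st (nat_lit 206167) (nat_lit 412335) .nil)⟩,
  ⟨r17o_133, r13o_76, r7o_27, r5o_9, r8o_31, r4o_7, r11o_52, (.st (nat_lit 206167) (nat_lit 412335) .nil)⟩,
  ⟨r17o_133, r13o_77, r7o_27, r5o_8, r8o_31, r4o_7, r11o_52, (.st (nat_lit 29452) (nat_lit 58905) .nil)⟩,
  ⟨r17o_133, r13o_77, r7o_27, r5o_9, r8o_31, r4o_7, r11o_52, (.st (nat_lit 29452) (nat_lit 58905) .nil)⟩]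

/-- entries -/
def EB134 : List E7 := []

/-- entries -/
def EB135 : List E7 := [⟨r17o_135, r13o_72, r7o_27, r5o_8, r8o_29, r4o_7, r11o_52, (.st (nat_lit 68722) (nat_lit 137445) .nil)⟩,
  ⟨r17o_135, r13o_72, r7o_27, r5o_8, r8o_31, r4o_7, r11o_52, (.st (nat_lit 22907) (nat_lit 45815) .nil)⟩,
  ⟨r17o_135, r13o_72, r7o_27, r5o_9, r8o_29, r4o_7, r11o_52, (.st (nat_lit 68722) (nat_lit 137445) .nil)⟩,
  ⟨r17o_135, r13o_72, r7o_27, r5o_9, r8o_31, r4o_7, r11o_52, (.st (nat_lit 22907) (nat_lit 45815) .nil)⟩,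
  ⟨r17o_135, r13o_73, r7o_27, r5o_8, r8o_29, r4o_7, r11o_52, (.st (nat_lit 68722) (nat_lit 137445) .nil)⟩,
  ⟨r17o_135, r13o_73, r7o_27, r5o_8, r8o_31, r4o_7, r11o_52, (.st (nat_lit 22907) (nat_lit 45815) .nil)⟩,
  ⟨r17o_135, r13o_73, r7o_27, r5o_9, r8o_29, r4o_7, r11o_52, (.st (nat_lit 68722) (nat_lit 137445) .nil)⟩,
  ⟨r17o_135, r13o_73, r7o_27, r5o_9, r8o_31, r4o_7, r11o_52, (.st (nat_lit 22907) (nat_lit 45815) .nil)⟩,
  ⟨r17o_135, r13o_74, r7o_27, r5o_8, r8o_29, r4o_7, r11o_52, (.st (nat_lit 68722) (nat_lit 137445) .nil)⟩,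
  ⟨r17o_135, r13o_74, r7o_27, r5o_8, r8o_31, r4o_7, r11o_52, (.st (nat_lit 22907) (nat_lit 45815) .nil)⟩,
  ⟨r17o_135, r13o_74, r7o_27, r5o_9, r8o_29, r4o_7, r11o_52, (.st (nat_lit 68722) (nat_lit 137445) .nil)⟩,
  ⟨r17o_135, r13o_74, r7o_27, r5o_9, r8o_31, r4o_7, r11o_52, (.st (nat_lit 22907) (nat_lit 45815) .nil)⟩,
  ⟨r17o_135, r13o_75, r7o_27, r5o_8, r8o_29, r4o_7, r11o_52, (.st (nat_lit 68722) (nat_lit 137445) .nil)⟩,
  ⟨r17o_135, r13o_75, r7o_27, r5o_8, r8o_31, r4o_7, r11o_52, (.st (nat_lit 22907) (nat_lit 45815) .nil)⟩,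
  ⟨r17o_135, r13o_75, r7o_27, r5o_9, r8o_29, r4o_7, r11o_52, (.st (nat_lit 68722) (nat_lit 137445) .nil)⟩,
  ⟨r17o_135, r13o_75, r7o_27, r5o_9, r8o_31, r4o_7, r11o_52, (.st (nat_lit 22907) (nat_lit 45815) .nil)⟩,
  ⟨r17o_135, r13o_76, r7o_27, r5o_8, r8o_29, r4o_7, r11o_52, (.st (nat_lit 68722) (nat_lit 137445) .nil)⟩,
  ⟨r17o_135, r13o_76, r7o_27, r5o_8, r8o_31, r4o_7, r11o_52, (.st (nat_lit 22907) (nat_lit 45815) .nil)⟩,
  ⟨r17o_135, r13o_76, r7o_27, r5o_9, r8o_29, r4o_7, r11o_52, (.st (nat_lit 68722) (nat_lit 137445) .nil)⟩,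
  ⟨r17o_135, r13o_76, r7o_27, r5o_9, r8o_31, r4o_7, r11o_52, (.st (nat_lit 22907) (nat_lit 45815) .nil)⟩,
  ⟨r17o_135, r13o_77, r7o_27, r5o_8, r8o_29, r4o_7, r11o_52, (.st (nat_lit 9817) (nat_lit 19635) .nil)⟩,
  ⟨r17o_135, r13o_77, r7o_27, r5o_8, r8o_31, r4o_7, r11o_52, (.st (nat_lit 3272) (nat_lit 6545) .nil)⟩,
  ⟨r17o_135, r13o_77, r7o_27, r5o_9, r8o_29, r4o_7, r11o_52, (.st (nat_lit 9817) (nat_lit 19635) .nil)⟩,
  ⟨r17o_135, r13o_77, r7o_27, r5o_9, r8o_31, r4o_7, r11o_52, (.st (nat_lit 3272) (nat_lit 6545) .nil)⟩]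

/-- all entries -/
def LB : List (List E7) := [EB0, EB1, EB2, EB3, EB4, EB5, EB6, EB7, EB8, EB9, EB10, EB11, EB12, EB13, EB14, EB15, EB16, EB17, EB18, EB19, EB20, EB21, EB22, EB23, EB24, EB25, EB26, EB27, EB28, EB29, EB30, EB31, EB32, EB33, EB34, EB35, EB36, EB37, EB38, EB39, EB40, EB41, EB42, EB43, EB44, EB45, EB46, EB47, EB48, EB49, EB50, EB51, EB52, EB53, EB54, EB55, EB56, EB57, EB58, EB59, EB60, EB61, EB62, EB63, EB64, EB65, EB66, EB67, EB68, EB69, EB70, EB71, EB72, EB73, EB74, EB75, EB76, EB77, EB78, EB79, EB80, EB81, EB82, EB83, EB84, EB85, EB86, EB87, EB88, EB89, EB90, EB91, EB92, EB93, EB94, EB95, EB96, EB97, EB98, EB99, EB100, EB101, EB102, EB103, EB104, EB105, EB106, EB107, EB108, EB109, EB110, EB111, EB112, EB113, EB114, EB115, EB116, EB117, EB118, EB119, EB120, EB121, EB122, EB123, EB124, EB125, EB126, EB127, EB128, EB129, EB130, EB131, EB132, EB133, EB134, EB135]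

end Pool.Agent.LibH4.CX


end

section

/-!
Constant words, all letters at once: results of the first stage, even parity.
-/

namespace Pool.Agent.LibH4.CX

/-- entries -/
def ED0 : List E5 := []

/-- entries -/
def ED1 : List E5 := []

/-- entries -/
def ED2 : List E5 := []

/-- entries -/
def ED3 : List E5 := []

/-- entries -/
def ED4 : List E5 := []

/-- entries -/
def ED5 : List E5 := []

/-- entries -/
def ED6 : List E5 := []

/-- entries -/
def ED7 : List E5 := []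

/-- entries -/
def ED8 : List E5 := []

/-- entries -/
def ED9 : List E5 := []

/-- entries -/
def ED10 : List E5 := [⟨r13e_10, r7e_4, r5e_3, r8e_1, r4e_1, (.st (nat_lit 38219) (nat_lit 76440) (.st (nat_lit 38221) (nat_lit 76440) .nil))⟩,
  ⟨r13e_10, r7e_5, r5e_3, r8e_1, r4e_1, (.st (nat_lit 76439) (nat_lit 76440) (.st (nat_lit 1) (nat_lit 76440) .nil))⟩]

/-- entries -/
def ED11 : List E5 := []

/-- entries -/
def ED12 : List E5 := []

/-- entries -/
def ED13 : List E5 := []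

/-- entries -/
def ED14 : List E5 := []

/-- entries -/
def ED15 : List E5 := []

/-- entries -/
def ED16 : List E5 := []

/-- entries -/
def ED17 : List E5 := []

/-- entries -/
def ED18 : List E5 := []

/-- entries -/
def ED19 : List E5 := []

/-- entries -/
def ED20 : List E5 := []

/-- entries -/
def ED21 : List E5 := [⟨r13e_21, r7e_10, r5e_6, r8e_4, r4e_2, (.st (nat_lit 155) (nat_lit 312) (.st (nat_lit 157) (nat_lit 312) .nil))⟩,
  ⟨r13e_21, r7e_11, r5e_6, r8e_4, r4e_2, (.st (nat_lit 311) (nat_lit 312) (.st (nat_lit 1) (nat_lit 312) .nil))⟩]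

/-- entries -/
def ED22 : List E5 := []

/-- entries -/
def ED23 : List E5 := []

/-- entries -/
def ED24 : List E5 := []

/-- entries -/
def ED25 : List E5 := []

/-- entries -/
def ED26 : List E5 := [⟨r13e_26, r7e_9, r5e_2, r8e_4, r4e_2, (.st (nat_lit 2048) (nat_lit 2730) (.st (nat_lit 682) (nat_lit 2730) .nil))⟩,
  ⟨r13e_26, r7e_9, r5e_2, r8e_6, r4e_2, (.st (nat_lit 683) (nat_lit 2730) (.st (nat_lit 2047) (nat_lit 2730) .nil))⟩,
  ⟨r13e_26, r7e_9, r5e_5, r8e_4, r4e_2, (.st (nat_lit 2048) (nat_lit 2730) (.st (nat_lit 682) (nat_lit 2730) .nil))⟩,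
  ⟨r13e_26, r7e_9, r5e_5, r8e_6, r4e_2, (.st (nat_lit 683) (nat_lit 2730) (.st (nat_lit 2047) (nat_lit 2730) .nil))⟩,
  ⟨r13e_26, r7e_9, r5e_5, r8e_12, r4e_2, (.st (nat_lit 2048) (nat_lit 2730) (.st (nat_lit 682) (nat_lit 2730) .nil))⟩,
  ⟨r13e_26, r7e_9, r5e_5, r8e_14, r4e_2, (.st (nat_lit 683) (nat_lit 2730) (.st (nat_lit 2047) (nat_lit 2730) .nil))⟩]

/-- entries -/
def ED27 : List E5 := []

/-- entries -/
def ED28 : List E5 := []

/-- entries -/
def ED29 : List E5 := []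

/-- entries -/
def ED30 : List E5 := []

/-- entries -/
def ED31 : List E5 := [⟨r13e_31, r7e_1, r5e_9, r8e_4, r4e_2, (.st (nat_lit 2729) (nat_lit 2730) (.st (nat_lit 1) (nat_lit 2730) .nil))⟩,
  ⟨r13e_31, r7e_2, r5e_9, r8e_6, r4e_2, (.st (nat_lit 1364) (nat_lit 2730) (.st (nat_lit 1366) (nat_lit 2730) .nil))⟩]

/-- entries -/
def ED32 : List E5 := [⟨r13e_32, r7e_0, r5e_8, r8e_4, r4e_2, (.st (nat_lit 1364) (nat_lit 2730) (.st (nat_lit 1366) (nat_lit 2730) .nil))⟩,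
  ⟨r13e_32, r7e_0, r5e_8, r8e_6, r4e_2, (.st (nat_lit 2729) (nat_lit 2730) (.st (nat_lit 1) (nat_lit 2730) .nil))⟩]

/-- entries -/
def ED33 : List E5 := []

/-- entries -/
def ED34 : List E5 := []

/-- entries -/
def ED35 : List E5 := []

/-- entries -/
def ED36 : List E5 := [⟨r13e_36, r7e_15, r5e_8, r8e_4, r4e_2, (.st (nat_lit 2729) (nat_lit 2730) (.st (nat_lit 1) (nat_lit 2730) .nil))⟩]

/-- entries -/
def ED37 : List E5 := [⟨r13e_37, r7e_17, r5e_8, r8e_6, r4e_2, (.st (nat_lit 1364) (nat_lit 2730) (.st (nat_lit 1366) (nat_lit 2730) .nil))⟩]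

/-- entries -/
def ED38 : List E5 := [⟨r13e_38, r7e_2, r5e_7, r8e_1, r4e_1, (.st (nat_lit 2729) (nat_lit 2730) (.st (nat_lit 1) (nat_lit 2730) .nil))⟩,
  ⟨r13e_38, r7e_7, r5e_5, r8e_12, r4e_2, (.st (nat_lit 1364) (nat_lit 2730) (.st (nat_lit 1366) (nat_lit 2730) .nil))⟩]

/-- entries -/
def ED39 : List E5 := []

/-- entries -/
def ED40 : List E5 := [⟨r13e_40, r7e_1, r5e_7, r8e_3, r4e_1, (.st (nat_lit 1364) (nat_lit 2730) (.st (nat_lit 1366) (nat_lit 2730) .nil))⟩,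
  ⟨r13e_40, r7e_7, r5e_5, r8e_14, r4e_2, (.st (nat_lit 2729) (nat_lit 2730) (.st (nat_lit 1) (nat_lit 2730) .nil))⟩]

/-- entries -/
def ED41 : List E5 := []

/-- entries -/
def ED42 : List E5 := []

/-- entries -/
def ED43 : List E5 := [⟨r13e_43, r7e_16, r5e_6, r8e_1, r4e_1, (.st (nat_lit 2729) (nat_lit 2730) (.st (nat_lit 1) (nat_lit 2730) .nil))⟩,
  ⟨r13e_43, r7e_1, r5e_4, r8e_12, r4e_2, (.st (nat_lit 1364) (nat_lit 2730) (.st (nat_lit 1366) (nat_lit 2730) .nil))⟩]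

/-- entries -/
def ED44 : List E5 := []

/-- entries -/
def ED45 : List E5 := [⟨r13e_45, r7e_16, r5e_6, r8e_3, r4e_1, (.st (nat_lit 1364) (nat_lit 2730) (.st (nat_lit 1366) (nat_lit 2730) .nil))⟩,
  ⟨r13e_45, r7e_2, r5e_4, r8e_14, r4e_2, (.st (nat_lit 2729) (nat_lit 2730) (.st (nat_lit 1) (nat_lit 2730) .nil))⟩]

/-- entries -/
def ED46 : List E5 := [⟨r13e_46, r7e_6, r5e_3, r8e_9, r4e_1, (.st (nat_lit 1364) (nat_lit 2730) (.st (nat_lit 1366) (nat_lit 2730) .nil))⟩]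

/-- entries -/
def ED47 : List E5 := [⟨r13e_47, r7e_8, r5e_3, r8e_11, r4e_1, (.st (nat_lit 2729) (nat_lit 2730) (.st (nat_lit 1) (nat_lit 2730) .nil))⟩]

/-- entries -/
def ED48 : List E5 := []

/-- entries -/
def ED49 : List E5 := []

/-- entries -/
def ED50 : List E5 := []

/-- entries -/
def ED51 : List E5 := [⟨r13e_51, r7e_0, r5e_3, r8e_9, r4e_1, (.st (nat_lit 2729) (nat_lit 2730) (.st (nat_lit 1) (nat_lit 2730) .nil))⟩,
  ⟨r13e_51, r7e_0, r5e_3, r8e_11, r4e_1, (.st (nat_lit 1364) (nat_lit 2730) (.st (nat_lit 1366) (nat_lit 2730) .nil))⟩]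

/-- entries -/
def ED52 : List E5 := [⟨r13e_52, r7e_1, r5e_2, r8e_11, r4e_1, (.st (nat_lit 2729) (nat_lit 2730) (.st (nat_lit 1) (nat_lit 2730) .nil))⟩,
  ⟨r13e_52, r7e_2, r5e_2, r8e_9, r4e_1, (.st (nat_lit 1364) (nat_lit 2730) (.st (nat_lit 1366) (nat_lit 2730) .nil))⟩]

/-- entries -/
def ED53 : List E5 := []

/-- entries -/
def ED54 : List E5 := []

/-- entries -/
def ED55 : List E5 := []

/-- entries -/
def ED56 : List E5 := []

/-- entries -/
def ED57 : List E5 := [⟨r13e_57, r7e_14, r5e_6, r8e_1, r4e_1, (.st (nat_lit 683) (nat_lit 2730) (.st (nat_lit 2047) (nat_lit 2730) .nil))⟩,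
  ⟨r13e_57, r7e_14, r5e_6, r8e_3, r4e_1, (.st (nat_lit 2048) (nat_lit 2730) (.st (nat_lit 682) (nat_lit 2730) .nil))⟩,
  ⟨r13e_57, r7e_14, r5e_6, r8e_9, r4e_1, (.st (nat_lit 683) (nat_lit 2730) (.st (nat_lit 2047) (nat_lit 2730) .nil))⟩,
  ⟨r13e_57, r7e_14, r5e_6, r8e_11, r4e_1, (.st (nat_lit 2048) (nat_lit 2730) (.st (nat_lit 682) (nat_lit 2730) .nil))⟩,
  ⟨r13e_57, r7e_14, r5e_9, r8e_9, r4e_1, (.st (nat_lit 683) (nat_lit 2730) (.st (nat_lit 2047) (nat_lit 2730) .nil))⟩,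
  ⟨r13e_57, r7e_14, r5e_9, r8e_11, r4e_1, (.st (nat_lit 2048) (nat_lit 2730) (.st (nat_lit 682) (nat_lit 2730) .nil))⟩]

/-- entries -/
def ED58 : List E5 := []

/-- entries -/
def ED59 : List E5 := []

/-- entries -/
def ED60 : List E5 := []

/-- entries -/
def ED61 : List E5 := []

/-- entries -/
def ED62 : List E5 := [⟨r13e_62, r7e_12, r5e_5, r8e_11, r4e_1, (.st (nat_lit 311) (nat_lit 312) (.st (nat_lit 1) (nat_lit 312) .nil))⟩,
  ⟨r13e_62, r7e_13, r5e_5, r8e_11, r4e_1, (.st (nat_lit 155) (nat_lit 312) (.st (nat_lit 157) (nat_lit 312) .nil))⟩]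

/-- entries -/
def ED63 : List E5 := []

/-- entries -/
def ED64 : List E5 := []

/-- entries -/
def ED65 : List E5 := []

/-- entries -/
def ED66 : List E5 := []

/-- entries -/
def ED67 : List E5 := []

/-- entries -/
def ED68 : List E5 := []

/-- entries -/
def ED69 : List E5 := []

/-- entries -/
def ED70 : List E5 := []

/-- entries -/
def ED71 : List E5 := []

/-- entries -/
def ED72 : List E5 := []

/-- entries -/
def ED73 : List E5 := [⟨r13e_73, r7e_18, r5e_8, r8e_14, r4e_2, (.st (nat_lit 76439) (nat_lit 76440) (.st (nat_lit 1) (nat_lit 76440) .nil))⟩,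
  ⟨r13e_73, r7e_19, r5e_8, r8e_14, r4e_2, (.st (nat_lit 38219) (nat_lit 76440) (.st (nat_lit 38221) (nat_lit 76440) .nil))⟩]

/-- entries -/
def ED74 : List E5 := []

/-- entries -/
def ED75 : List E5 := []

/-- entries -/
def ED76 : List E5 := []

/-- entries -/
def ED77 : List E5 := []

/-- all entries -/
def LD : List (List E5) := [ED0, ED1, ED2, ED3, ED4, ED5, ED6, ED7, ED8, ED9, ED10, ED11, ED12, ED13, ED14, ED15, ED16, ED17, ED18, ED19, ED20, ED21, ED22, ED23, ED24, ED25, ED26, ED27, ED28, ED29, ED30, ED31, ED32, ED33, ED34, ED35, ED36, ED37, ED38, ED39, ED40, ED41, ED42, ED43, ED44, ED45, ED46, ED47, ED48, ED49, ED50, ED51, ED52, ED53, ED54, ED55, ED56, ED57, ED58, ED59, ED60, ED61, ED62, ED63, ED64, ED65, ED66, ED67, ED68, ED69, ED70, ED71, ED72, ED73, ED74, ED75, ED76, ED77]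

end Pool.Agent.LibH4.CX


end

section

/-!
Constant words, all letters at once: states.
-/

namespace Pool.Agent.LibH4.CX

open Finset Pool.Agent.LibH4.Ker Pool.Agent.Lib_helper5.TB Pool.Agent.LibH4.CW

/-- the number belongs to one of the states -/
def In (N : ℕ) : Tr → Prop
  | Tr.nil => False
  | Tr.st n K t => (0 < K ∧ ∃ s, N = n + K * s) ∨ In N t

/-! ### lifts of a state -/

section

variable {N V L w2 mF c l K K1 ic n : ℕ} {acc : Tr}

lemma ft0_acc (h : In N acc) (q : ℕ) : In N (ft0 V L w2 mF c l K K1 n acc q) := by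
  induction q with
  | zero => exact h
  | succ m ih =>
    change In N (@Bool.rec (fun _ => Tr) (ft0 V L w2 mF c l K K1 n acc m)
      (strict (n + K * m) fun n' => strict K1 fun K2 => Tr.st n' K2
        (ft0 V L w2 mF c l K K1 n acc m)) (Nat.beq (valN V L w2 mF c l (n + K * m)) 0))
    cases Nat.beq (valN V L w2 mF c l (n + K * m)) 0 with
    | false => exact ih
    | true =>
      change In N (strict (n + K * m) fun n' => strict K1 fun K2 => Tr.st n' K2
        (ft0 V L w2 mF c l K K1 n acc m))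
      rw [strict_eq, strict_eq]
      exact Or.inr ih

lemma ft0_mem {q m s : ℕ} (hm : m < q) (hK : 0 < K1) (hv : valN V L w2 mF c l (n + K * m) = 0)
    (hN : N = n + K * m + K1 * s) : In N (ft0 V L w2 mF c l K K1 n acc q) := by
  induction q with
  | zero => omega
  | succ q ih =>
    change In N (@Bool.rec (fun _ => Tr) (ft0 V L w2 mF c l K K1 n acc q)
      (strict (n + K * q) fun n' => strict K1 fun K2 => Tr.st n' K2
        (ft0 V L w2 mF c l K K1 n acc q)) (Nat.beq (valN V L w2 mF c l (n + K * q)) 0))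
    by_cases hq : m = q
    · subst hq
      rw [hv]
      change In N (strict (n + K * m) fun n' => strict K1 fun K2 => Tr.st n' K2
        (ft0 V L w2 mF c l K K1 n acc m))
      rw [strict_eq, strict_eq]
      exact Or.inl ⟨hK, s, hN⟩
    · have h1 := ih (by omega)
      cases Nat.beq (valN V L w2 mF c l (n + K * q)) 0 with
      | false => exact h1
      | true =>
        change In N (strict (n + K * q) fun n' => strict K1 fun K2 => Tr.st n' K2
          (ft0 V L w2 mF c l K K1 n acc q))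
        rw [strict_eq, strict_eq]
        exact Or.inr h1

lemma ft1_succ (q : ℕ) : ft1 V L w2 mF c l K K1 ic n acc (q + 1) =
    Tr.st (n + K * q + K1 * ((l - valN V L w2 mF c l (n + K * q)) * ic % l)) (K1 * l)
      (ft1 V L w2 mF c l K K1 ic n acc q) := by
  change (strict (n + K * q + K1 * ((l - valN V L w2 mF c l (n + K * q)) * ic % l)) fun n' =>
    strict (K1 * l) fun K2 => Tr.st n' K2 (ft1 V L w2 mF c l K K1 ic n acc q)) = _
  rw [strict_eq, strict_eq]

lemma ft1_acc (h : In N acc) (q : ℕ) : In N (ft1 V L w2 mF c l K K1 ic n acc q) := by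
  induction q with
  | zero => exact h
  | succ m ih => rw [ft1_succ]; exact Or.inr ih

lemma ft1_mem {q m s : ℕ} (hm : m < q) (hK : 0 < K1) (hl : 0 < l)
    (hN : N = n + K * m + K1 * ((l - valN V L w2 mF c l (n + K * m)) * ic % l) + K1 * l * s) :
    In N (ft1 V L w2 mF c l K K1 ic n acc q) := by
  induction q with
  | zero => omega
  | succ q ih =>
    rw [ft1_succ]
    by_cases hq : m = q
    · subst hq
      exact Or.inl ⟨Nat.mul_pos hK hl, s, hN⟩
    · exact Or.inr (ih (by omega))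

lemma lf1_succ (q : ℕ) : lf1 K K1 n (q + 1) acc = Tr.st (n + K * q) K1 (lf1 K K1 n q acc) := by
  change (strict (n + K * q) fun n' => strict K1 fun K2 => Tr.st n' K2 (lf1 K K1 n q acc)) = _
  rw [strict_eq, strict_eq]

lemma lf1_acc (h : In N acc) (q : ℕ) : In N (lf1 K K1 n q acc) := by
  induction q with
  | zero => exact h
  | succ m ih => rw [lf1_succ]; exact Or.inr ih

lemma lf1_mem {q m s : ℕ} (hm : m < q) (hK : 0 < K1) (hN : N = n + K * m + K1 * s) :
    In N (lf1 K K1 n q acc) := by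
  induction q with
  | zero => omega
  | succ q ih =>
    rw [lf1_succ]
    by_cases hq : m = q
    · subst hq
      exact Or.inl ⟨hK, s, hN⟩
    · exact Or.inr (ih (by omega))

end

lemma lift_of {N n K K1 s : ℕ} (hK : 0 < K) (hd : K ∣ K1) (hK1 : 0 < K1) (hN : N = n + K * s) :
    ∃ m < K1 / K, ∃ s', N = n + K * m + K1 * s' := by
  obtain ⟨q, rfl⟩ := hd
  have hq : 0 < q := Nat.pos_of_mul_pos_left hK1
  rw [Nat.mul_div_cancel_left q hK]
  refine ⟨s % q, Nat.mod_lt _ hq, s / q, ?_⟩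
  rw [hN, add_assoc, mul_assoc, ← mul_add, Nat.mod_add_div]

lemma valN_eq (V L w2 mF c l n : ℕ) :
    valN V L w2 mF c l n = (((V >>> (w2 * (n % L))) &&& mF) + n / L * c) % l := rfl

lemma valN_add {V L w2 mF c l K1 n s : ℕ} (hL : 0 < L) (hd : L ∣ K1) :
    valN V L w2 mF c l (n + K1 * s) =
      (valN V L w2 mF c l n + s * ((K1 / L * c) % l)) % l := by
  obtain ⟨q, rfl⟩ := hd
  rw [valN_eq, valN_eq, Nat.mul_div_cancel_left q hL, mul_assoc, Nat.add_mul_mod_self_left,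
    Nat.add_mul_div_left _ _ hL]
  conv_rhs => rw [Nat.add_mod, Nat.mod_mod, Nat.mul_mod, Nat.mod_mod, ← Nat.mul_mod, ← Nat.add_mod]
  congr 1
  ring

lemma solve_of {l v c1 s : ℕ} (hl : l.Prime) (hc : c1 % l ≠ 0) (hvl : v ≤ l)
    (h : (v + s * c1) % l = 0) : s % l = (l - v) * (c1 ^ (l - 2) % l) % l := by
  have := Fact.mk hl
  have h1 : ((v + s * c1 : ℕ) : ZMod l) = 0 :=
    (ZMod.natCast_eq_zero_iff _ _).2 (Nat.dvd_of_mod_eq_zero h)
  have hc0 : ((c1 : ℕ) : ZMod l) ≠ 0 := by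
    intro h0
    exact hc (Nat.mod_eq_zero_of_dvd ((ZMod.natCast_eq_zero_iff _ _).1 h0))
  have hf : ((c1 : ℕ) : ZMod l) * (c1 : ZMod l) ^ (l - 2) = 1 := by
    rw [← pow_succ', show l - 2 + 1 = l - 1 by have := hl.two_le; omega]
    exact ZMod.pow_card_sub_one_eq_one hc0
  apply (ZMod.natCast_eq_natCast_iff' _ _ l).1 ?_ |>.trans ?_
  · exact (l - v) * (c1 ^ (l - 2) % l)
  · rw [Nat.cast_mul, Nat.cast_sub hvl, ZMod.natCast_self, ZMod.natCast_mod, Nat.cast_pow]
    push_cast at h1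
    linear_combination (c1 : ZMod l) ^ (l - 2) * h1 - (s : ZMod l) * hf
  · rfl

/-- **soundness of a relation** -/
theorem rel0_spec {l c L w2 F mF Q S a2 orb pl N : ℕ} (hl : l.Prime) (hL : 0 < L)
    (hv : valN ((Q + S * (a2 - by2 (d32 orb (N % pl)))) >>> F) L w2 mF c l N = 0)
    {st : Tr} (h : In N st) : In N (rel0 l c L w2 F mF Q S a2 orb pl st) := by
  induction st with
  | nil => exact h
  | st n K t ih =>
    have e : rel0 l c L w2 F mF Q S a2 orb pl (Tr.st n K t) =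
      @Bool.rec (fun _ => Tr) (Tr.st n K (rel0 l c L w2 F mF Q S a2 orb pl t))
      (@Bool.rec (fun _ => Tr)
        (ft1 ((Q + S * (a2 - by2 (d32 orb (n % pl)))) >>> F) L w2 mF c l K (lcmS K L)
          (((lcmS K L / L * c) % l) ^ (l - 2) % l) n
          (rel0 l c L w2 F mF Q S a2 orb pl t) (lcmS K L / K))
        (ft0 ((Q + S * (a2 - by2 (d32 orb (n % pl)))) >>> F) L w2 mF c l K (lcmS K L) n
          (rel0 l c L w2 F mF Q S a2 orb pl t) (lcmS K L / K))
        (Nat.beq ((lcmS K L / L * c) % l) 0))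
      (Nat.beq (K % pl) 0) := rfl
    rw [e, lcmS_eq]
    clear e
    cases hb : Nat.beq (K % pl) 0 with
    | false =>
      change In N (Tr.st n K (rel0 l c L w2 F mF Q S a2 orb pl t))
      rcases h with h | h
      · exact Or.inl h
      · exact Or.inr (ih h)
    | true =>
      have hpK : pl ∣ K := Nat.dvd_of_mod_eq_zero (Nat.eq_of_beq_eq_true hb)
      rcases h with ⟨hK, s, hN⟩ | h
      · have hK1 : 0 < Nat.lcm K L := Nat.lcm_pos hK hL
        have hd : K ∣ Nat.lcm K L := Nat.dvd_lcm_left _ _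
        have hdL : L ∣ Nat.lcm K L := Nat.dvd_lcm_right _ _
        have hnpl : n % pl = N % pl := by
          obtain ⟨k, rfl⟩ := hpK
          rw [hN, mul_assoc, Nat.add_mul_mod_self_left]
        rw [hnpl]
        set V := (Q + S * (a2 - by2 (d32 orb (N % pl)))) >>> F with hV
        obtain ⟨m, hm, s', hs'⟩ := lift_of hK hd hK1 hN
        have h1 := valN_add (V := V) (w2 := w2) (mF := mF) (c := c) (l := l) (n := n + K * m)
          (s := s') hL hdL
        rw [← hs', hv] at h1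
        have hvl : valN V L w2 mF c l (n + K * m) < l := Nat.mod_lt _ hl.pos
        cases hb1 : Nat.beq ((Nat.lcm K L / L * c) % l) 0 with
        | true =>
          have h0 := Nat.eq_of_beq_eq_true hb1
          rw [h0, mul_zero, add_zero, Nat.mod_eq_of_lt hvl] at h1
          exact ft0_mem hm hK1 h1.symm hs'
        | false =>
          have h0 : (Nat.lcm K L / L * c) % l ≠ 0 := by
            intro h0
            rw [h0] at hb1
            exact absurd hb1 (by decide)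
          have h2 := solve_of hl (by rwa [Nat.mod_mod]) hvl.le h1.symm
          apply ft1_mem hm hK1 hl.pos (s := s' / l)
          rw [← h2, hs', mul_assoc (Nat.lcm K L) l, add_assoc (n + K * m), ← mul_add,
            Nat.mod_add_div]
      · have h1 := ih h
        cases Nat.beq ((Nat.lcm K L / L * c) % l) 0 with
        | true => exact ft0_acc h1 _
        | false => exact ft1_acc h1 _

/-! ### other functions -/

theorem lft_spec {N m : ℕ} (hm : 0 < m) {st : Tr} (h : In N st) : In N (lft m st) := by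
  induction st with
  | nil => exact h
  | st n K t ih =>
    change In N (lf1 K (lcmS K m) n (lcmS K m / K) (lft m t))
    rw [lcmS_eq]
    rcases h with ⟨hK, s, hN⟩ | h
    · obtain ⟨m', hm', s', hs'⟩ := lift_of hK (Nat.dvd_lcm_left K m) (Nat.lcm_pos hK hm) hN
      exact lf1_mem hm' (Nat.lcm_pos hK hm) hs'
    · exact lf1_acc (ih h) _

/-- filters -/
theorem filT_spec {N : ℕ} {p : ℕ → ℕ → Bool} (hp : ∀ n K s, 0 < K → N = n + K * s → p n K = true)
    {st : Tr} (h : In N st) : In N (filT p st) := by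
  induction st with
  | nil => exact h
  | st n K t ih =>
    change In N (@Bool.rec (fun _ => Tr) (filT p t) (Tr.st n K (filT p t)) (p n K))
    rcases h with ⟨hK, s, hN⟩ | h
    · rw [hp n K s hK hN]
      exact Or.inl ⟨hK, s, hN⟩
    · cases p n K with
      | true => exact Or.inr (ih h)
      | false => exact ih h

theorem c13_spec {N : ℕ} (h13 : (2 * N + 1) % 13 ≠ 0) (n K s : ℕ) (_ : 0 < K)
    (hN : N = n + K * s) : c13 n K = true := by
  change @Bool.rec (fun _ => Bool) true (@Bool.rec (fun _ => Bool) true false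
      (Nat.beq ((2 * n + 1) % 13) 0)) (Nat.beq (K % 13) 0) = true
  cases hb : Nat.beq (K % 13) 0 with
  | false => rfl
  | true =>
    have h1 := Nat.eq_of_beq_eq_true hb
    cases hb2 : Nat.beq ((2 * n + 1) % 13) 0 with
    | false => rfl
    | true =>
      exfalso
      have h2 := Nat.eq_of_beq_eq_true hb2
      obtain ⟨k, rfl⟩ := Nat.dvd_of_mod_eq_zero h1
      apply h13
      rw [hN, show 2 * (n + 13 * k * s) + 1 = (2 * n + 1) + 13 * (2 * k * s) by ring,
        Nat.add_mul_mod_self_left, h2]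

lemma ne_spec {N : ℕ} {t : Tr} {r : Bool} (h : ne t r = true) (hN : In N t) : r = true := by
  cases t with
  | nil => exact absurd hN id
  | st n K t => exact h

lemma nilT_spec {N : ℕ} {t : Tr} (h : nilT t = true) : ¬ In N t := by
  cases t with
  | nil => exact id
  | st n K t => exact absurd h (by simp [nilT])

lemma eqT_spec {t u : Tr} (h : eqT t u = true) : t = u := by
  induction t generalizing u with
  | nil =>
    cases u with
    | nil => rfl
    | st n K u => exact absurd h (by simp [eqT])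
  | st n K t ih =>
    cases u with
    | nil => exact absurd h (by simp [eqT])
    | st n' K' u =>
      have h' : andB (Nat.beq n n') (andB (Nat.beq K K') (eqT t u)) = true := h
      obtain ⟨h1, h2⟩ := andB_spec h'
      obtain ⟨h2, h3⟩ := andB_spec h2
      rw [Nat.eq_of_beq_eq_true h1, Nat.eq_of_beq_eq_true h2, ih h3]

lemma eqR_spec {r s : Rc} (h : eqR r s = true) : r = s := by
  obtain ⟨h1, h⟩ := andB_spec h
  obtain ⟨h2, h⟩ := andB_spec h
  obtain ⟨h3, h⟩ := andB_spec h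
  obtain ⟨h4, h⟩ := andB_spec h
  obtain ⟨h5, h6⟩ := andB_spec h
  cases r
  cases s
  simp only [Rc.mk.injEq]
  exact ⟨Nat.eq_of_beq_eq_true h5, Nat.eq_of_beq_eq_true h2, Nat.eq_of_beq_eq_true h3,
    Nat.eq_of_beq_eq_true h4, Nat.eq_of_beq_eq_true h6, Nat.eq_of_beq_eq_true h1⟩

lemma anyL_spec {α : Type} {p : α → Bool} {L : List α} (h : anyL p L = true) :
    ∃ x ∈ L, p x = true := by
  induction L with
  | nil => exact absurd h (by simp [anyL])
  | cons x L ih =>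
    change @Bool.rec (fun _ => Bool) (anyL p L) true (p x) = true at h
    cases hp : p x with
    | true => exact ⟨x, by simp, hp⟩
    | false =>
      rw [hp] at h
      obtain ⟨y, h1, h2⟩ := ih h
      exact ⟨y, by simp [h1], h2⟩

lemma in3_spec {N : ℕ} {E : List E3} {r13 r7 r5 : Rc} {s : Tr} (h : in3 E r13 r7 r5 s = true)
    (hN : In N s) : ∃ e ∈ E, e.r13 = r13 ∧ e.r7 = r7 ∧ e.r5 = r5 ∧ In N e.s := by
  obtain ⟨e, he, h1⟩ := anyL_spec (ne_spec h hN)
  obtain ⟨h2, h1⟩ := andB_spec h1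
  obtain ⟨h3, h1⟩ := andB_spec h1
  obtain ⟨h4, h5⟩ := andB_spec h1
  exact ⟨e, he, (eqR_spec h4).symm, (eqR_spec h3).symm, (eqR_spec h2).symm, eqT_spec h5 ▸ hN⟩

lemma in5_spec {N : ℕ} {E : List E5} {r13 r7 r5 r8 r4 : Rc} {s : Tr}
    (h : in5 E r13 r7 r5 r8 r4 s = true) (hN : In N s) :
    ∃ e ∈ E, e.r13 = r13 ∧ e.r7 = r7 ∧ e.r5 = r5 ∧ e.r8 = r8 ∧ e.r4 = r4 ∧ In N e.s := by
  obtain ⟨e, he, h1⟩ := anyL_spec (ne_spec h hN)
  obtain ⟨h2, h1⟩ := andB_spec h1
  obtain ⟨h3, h1⟩ := andB_spec h1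
  obtain ⟨h4, h1⟩ := andB_spec h1
  obtain ⟨h5, h1⟩ := andB_spec h1
  obtain ⟨h6, h7⟩ := andB_spec h1
  exact ⟨e, he, (eqR_spec h5).symm, (eqR_spec h4).symm, (eqR_spec h3).symm, (eqR_spec h2).symm,
    (eqR_spec h6).symm, eqT_spec h7 ▸ hN⟩

lemma in7_spec {N : ℕ} {E : List E7} {r17 r13 r7 r5 r8 r4 r11 : Rc} {s : Tr}
    (h : in7 E r17 r13 r7 r5 r8 r4 r11 s = true) (hN : In N s) :
    ∃ e ∈ E, e.r17 = r17 ∧ e.r13 = r13 ∧ e.r7 = r7 ∧ e.r5 = r5 ∧ e.r8 = r8 ∧ e.r4 = r4 ∧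
      e.r11 = r11 ∧ In N e.s := by
  obtain ⟨e, he, h1⟩ := anyL_spec (ne_spec h hN)
  obtain ⟨h2, h1⟩ := andB_spec h1
  obtain ⟨h3, h1⟩ := andB_spec h1
  obtain ⟨h4, h1⟩ := andB_spec h1
  obtain ⟨h5, h1⟩ := andB_spec h1
  obtain ⟨h6, h1⟩ := andB_spec h1
  obtain ⟨h7, h1⟩ := andB_spec h1
  obtain ⟨h8, h9⟩ := andB_spec h1
  exact ⟨e, he, (eqR_spec h8).symm, (eqR_spec h6).symm, (eqR_spec h5).symm, (eqR_spec h4).symm,
    (eqR_spec h3).symm, (eqR_spec h7).symm, (eqR_spec h2).symm, eqT_spec h9 ▸ hN⟩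

end Pool.Agent.LibH4.CX


end

section

/-!
Constant words, all letters at once: numbers with given digits.
-/

namespace Pool.Agent.LibH4.CX

open Finset Pool.Agent.LibH4.Ker Pool.Agent.Lib_helper5.TB Pool.Agent.LibH4.CW

/-- the number with the digits `d 0, …, d (L - 1)` in base `2 ^ w` -/
def ofD (w : ℕ) (d : ℕ → ℕ) (L : ℕ) : ℕ := ∑ i ∈ range L, d i * 2 ^ (w * i)

lemma ofD_succ (w : ℕ) (d : ℕ → ℕ) (L : ℕ) : ofD w d (L + 1) = ofD w d L + 2 ^ (w * L) * d L := by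
  unfold ofD; rw [Finset.sum_range_succ, mul_comm (d L)]

lemma ofD_congr {w L : ℕ} {d d' : ℕ → ℕ} (h : ∀ i < L, d i = d' i) : ofD w d L = ofD w d' L := by
  unfold ofD
  apply Finset.sum_congr rfl
  intro i hi
  rw [h i (Finset.mem_range.1 hi)]

lemma ofD_add (w : ℕ) (d : ℕ → ℕ) (m n : ℕ) :
    ofD w d (m + n) = ofD w d m + 2 ^ (w * m) * ofD w (fun i => d (m + i)) n := by
  unfold ofD
  rw [Finset.sum_range_add, Finset.mul_sum]
  congr 1
  apply Finset.sum_congr rfl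
  intro i _
  rw [mul_add, pow_add]
  ring

lemma ofD_cons (w : ℕ) (d : ℕ → ℕ) (n : ℕ) :
    ofD w d (n + 1) = d 0 + 2 ^ w * ofD w (fun i => d (i + 1)) n := by
  rw [add_comm n 1, ofD_add]
  have h1 : ofD w d 1 = d 0 := by simp [ofD]
  rw [h1, mul_one]
  congr 3
  funext i
  rw [add_comm]

lemma ofD_lt {w L : ℕ} {d : ℕ → ℕ} (h : ∀ i < L, d i < 2 ^ w) : ofD w d L < 2 ^ (w * L) := by
  induction L with
  | zero => simp [ofD]
  | succ L ih =>
    have h1 := ih fun i hi => h i (by omega)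
    have h2 := h L (by omega)
    rw [ofD_succ, mul_add, mul_one, pow_add]
    have h3 : 2 ^ (w * L) * d L + 2 ^ (w * L) ≤ 2 ^ (w * L) * 2 ^ w := by
      calc 2 ^ (w * L) * d L + 2 ^ (w * L) = 2 ^ (w * L) * (d L + 1) := by ring
        _ ≤ 2 ^ (w * L) * 2 ^ w := Nat.mul_le_mul_left _ h2
    omega

lemma ofD_shr {w m n : ℕ} {d : ℕ → ℕ} (h : ∀ i < m, d i < 2 ^ w) :
    ofD w d (m + n) >>> (w * m) = ofD w (fun i => d (m + i)) n := by
  rw [ofD_add, add_shr _ _ _ (ofD_lt h)]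

lemma ofD_dig {w L i : ℕ} {d : ℕ → ℕ} (h : ∀ i < L, d i < 2 ^ w) (hi : i < L) :
    (ofD w d L >>> (w * i)) % 2 ^ w = d i := by
  obtain ⟨n, rfl⟩ : ∃ n, L = i + (n + 1) := ⟨L - i - 1, by omega⟩
  rw [ofD_shr fun j hj => h j (by omega), ofD_cons, add_mod _ _ _ (h _ (by omega))]
  rfl

lemma shr_mod_testBit (X s w j : ℕ) (hj : j < w) :
    Nat.testBit ((X >>> s) % 2 ^ w) j = Nat.testBit X (s + j) := by
  rw [Nat.testBit_mod_two_pow, Nat.testBit_shiftRight]
  simp [hj]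

lemma testBit_ofD {w L : ℕ} (hw : 0 < w) {d : ℕ → ℕ} (h : ∀ i < L, d i < 2 ^ w) (k : ℕ) :
    Nat.testBit (ofD w d L) k = (decide (k / w < L) && Nat.testBit (d (k / w)) (k % w)) := by
  by_cases hk : k / w < L
  · rw [← ofD_dig h hk, shr_mod_testBit _ _ _ _ (Nat.mod_lt _ hw), Nat.div_add_mod]
    simp [hk]
  · have h1 : ofD w d L < 2 ^ k := lt_of_lt_of_le (ofD_lt h) (Nat.pow_le_pow_right (by norm_num)
      ((Nat.mul_comm w L).le.trans ((Nat.le_div_iff_mul_le hw).1 (not_lt.1 hk))))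
    rw [Nat.testBit_lt_two_pow h1]
    simp [hk]

/-- part of the digits -/
lemma land_shr {w L s : ℕ} (hw : 0 < w) {d m : ℕ → ℕ} (hd : ∀ i < L, d i < 2 ^ w)
    (hm : ∀ i < L, m i < 2 ^ w) (hs : ∀ i < L, ∀ j, Nat.testBit (m i) j = true → s + j < w) :
    (ofD w d L >>> s) &&& ofD w m L = ofD w (fun i => (d i >>> s) &&& m i) L := by
  apply Nat.eq_of_testBit_eq
  intro k
  have hb : ∀ i < L, (d i >>> s) &&& m i < 2 ^ w := fun i hi =>
    lt_of_le_of_lt Nat.and_le_right (hm i hi)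
  rw [Nat.testBit_and, Nat.testBit_shiftRight, testBit_ofD hw hm, testBit_ofD hw hb]
  by_cases hk : k / w < L
  · simp only [hk, decide_true, Bool.true_and, Nat.testBit_and, Nat.testBit_shiftRight]
    by_cases hj : Nat.testBit (m (k / w)) (k % w) = true
    · have h1 := hs _ hk _ hj
      have e1 : s + k = w * (k / w) + (s + k % w) := by
        have := Nat.div_add_mod k w
        omega
      have e2 : (s + k) / w = k / w := by
        rw [e1, Nat.mul_add_div hw, Nat.div_eq_of_lt h1, add_zero]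
      have e3 : (s + k) % w = s + k % w := by
        rw [e1, Nat.mul_add_mod, Nat.mod_eq_of_lt h1]
      rw [testBit_ofD hw hd, e2, e3]
      simp [hk]
    · simp only [Bool.not_eq_true] at hj
      rw [hj]
      simp
  · simp [hk]

lemma rep_eq {w : ℕ} (hw : 0 < w) (q : ℕ) : rep w q = ofD w (fun _ => 1) q := by
  have h := Nat.geomSum_eq (m := 2 ^ w) (Nat.one_lt_two_pow hw.ne') q
  have e : rep w q = (2 ^ (w * q) - 1) / (2 ^ w - 1) := rfl
  rw [e, pow_mul, ← h]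
  unfold ofD
  apply Finset.sum_congr rfl
  intro i _
  rw [pow_mul, one_mul]

/-- repetition of digits -/
lemma ofD_rep {w P : ℕ} (hw : 0 < w) (hP : 0 < P) (d : ℕ → ℕ) (q : ℕ) :
    ofD w d P * rep (w * P) q = ofD w (fun i => d (i % P)) (P * q) := by
  rw [rep_eq (Nat.mul_pos hw hP)]
  induction q with
  | zero => simp [ofD]
  | succ q ih =>
    rw [ofD_succ, mul_add, ih, mul_add P q 1, mul_one, ofD_add, mul_one]
    congr 1
    rw [mul_comm, ← mul_assoc w P q]
    congr 1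
    apply ofD_congr
    intro i hi
    rw [Nat.mul_add_mod, Nat.mod_eq_of_lt hi]

lemma rep_add {w : ℕ} (hw : 0 < w) (m n : ℕ) : rep w (m + n) = rep w m + 2 ^ (w * m) * rep w n := by
  rw [rep_eq hw, rep_eq hw, rep_eq hw, ofD_add]

lemma rep_succ {w : ℕ} (hw : 0 < w) (n : ℕ) : rep w (n + 1) = rep w n + 2 ^ (w * n) := by
  rw [rep_eq hw, rep_eq hw, ofD_succ, mul_one]

/-- product with a repunit -/
lemma mul_rep {w : ℕ} (hw : 0 < w) (d : ℕ → ℕ) (L n : ℕ) :
    ofD w d n * rep w L + ∑ i ∈ range n, d i * rep w i =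
      (∑ i ∈ range n, d i) * rep w L + 2 ^ (w * L) * ∑ i ∈ range n, d i * rep w i := by
  induction n with
  | zero => simp [ofD]
  | succ n ih =>
    have h1 := rep_add hw n L
    have h2 := rep_add hw L n
    rw [add_comm n L] at h1
    rw [h2] at h1
    rw [ofD_succ, Finset.sum_range_succ, Finset.sum_range_succ]
    linear_combination ih - (d n) * h1

lemma pre_rep {w : ℕ} (hw : 0 < w) (d : ℕ → ℕ) (L : ℕ) :
    ofD w (fun m => ∑ i ∈ range (m + 1), d i) L + ∑ i ∈ range L, d i * rep w i =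
      (∑ i ∈ range L, d i) * rep w L := by
  induction L with
  | zero => simp [ofD]
  | succ L ih =>
    rw [ofD_succ, Finset.sum_range_succ (fun i => d i * rep w i), rep_succ hw, mul_add,
      Finset.sum_range_succ d]
    linear_combination ih

/-- partial sums of digits -/
lemma prS_aux {w L : ℕ} (hw : 0 < w) {d : ℕ → ℕ} (h : ∀ m < L, ∑ i ∈ range (m + 1), d i < 2 ^ w) :
    ofD w d L * rep w L % 2 ^ (w * L) = ofD w (fun m => ∑ i ∈ range (m + 1), d i) L := by
  have h1 := mul_rep hw d L L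
  have h2 := pre_rep hw d L
  have h3 : ofD w d L * rep w L = ofD w (fun m => ∑ i ∈ range (m + 1), d i) L +
      2 ^ (w * L) * ∑ i ∈ range L, d i * rep w i := by
    omega
  rw [h3, Nat.add_mul_mod_self_left, Nat.mod_eq_of_lt (ofD_lt h)]

end Pool.Agent.LibH4.CX


end

section

/-!
Constant words, all letters at once: strings of a relation.
-/

namespace Pool.Agent.LibH4.CX

open Finset Pool.Agent.Lib_helper5 Pool.Agent.Lib_helper5.LK Pool.Agent.LibH4.Ker
  Pool.Agent.LibH4.KF Pool.Agent.LibH4.T6 Pool.Agent.Lib_helper5.TB Pool.Agent.LibH4.S7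
  Pool.Agent.LibH4.CW

/-! ### true records -/

/-- a true record -/
structure RT (par : Bool) (a : ℕ) (e : ℕ → ℤ × ℤ × ℤ) (n : ℕ) (r : Rc) : Prop where
  ok : CmpOK (cof n)
  cn : (cof n).n = n
  la : r.a = a % n
  ts : TS par a e (cof n) (r.x1, r.x2)
  pi : 0 < r.pi
  per : ∀ i, hs n a (r.x1, r.x2) (i + r.pi) = hs n a (r.x1, r.x2) i
  tab : ∀ i < r.pi, d32 r.orb i = hE n (cof n).ex (cof n).PT a (r.x1, r.x2) i

section

variable {par : Bool} {a N n : ℕ} {e : ℕ → ℤ × ℤ × ℤ} {r : Rc}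

lemma RT.pos (h : RT par a e n r) : 0 < n := by have := h.ok.pos; rwa [h.cn] at this

lemma RT.le (h : RT par a e n r) : n ≤ 256 := by have := h.ok.le; rw [h.cn] at this; omega

lemma RT.bd (h : RT par a e n r) (i : ℕ) : Bd n (hs n a (r.x1, r.x2) i) := by
  have hx := (h.ok.F _ (List.mem_filter.1 h.ts.mem).1).1
  rw [h.cn] at hx
  exact Bd_hs h.pos hx i

lemma RT.d32 (h : RT par a e n r) (i : ℕ) :
    CW.d32 r.orb (i % r.pi) = hE n (cof n).ex (cof n).PT a (r.x1, r.x2) i := by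
  rw [h.tab _ (Nat.mod_lt _ h.pi), hE_mod h.per]

lemma RT.e0 (h : RT par a e n r) (i : ℕ) :
    CW.d32 r.orb (i % r.pi) % 256 = pp (cof n) a (r.x1, r.x2) i := by
  rw [h.d32]
  unfold hE pp
  rw [ent_pos h.pos h.le (h.bd i).1, h.cn]

lemma RT.e1 (h : RT par a e n r) (i : ℕ) :
    by1 (CW.d32 r.orb (i % r.pi)) = (hs n a (r.x1, r.x2) i).1 := by
  rw [h.d32]
  unfold hE
  rw [ent_by1 h.pos h.le (h.bd i).1]

lemma RT.e2 (h : RT par a e n r) (i : ℕ) :
    by2 (CW.d32 r.orb (i % r.pi)) =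
      (hs n a (r.x1, r.x2) i).2.1 * iv n (cof n).ex (hs n a (r.x1, r.x2) i).2.2 % n := by
  rw [h.d32]
  unfold hE
  rw [ent_by2 h.pos h.le (h.bd i).1]

lemma RT.e3 (h : RT par a e n r) (i : ℕ) :
    by3 (CW.d32 r.orb (i % r.pi)) =
      ((n - r.x2) % n) * iv n (cof n).ex (hs n a (r.x1, r.x2) i).2.2 % n := by
  rw [h.d32]
  unfold hE
  rw [ent_by3 h.pos h.le (h.bd i).1]

end

/-! ### the first two components -/

/-- digit of a step -/
def dA (l BF mW : ℕ) (x : (ℕ × ℕ) × ℕ) (E : ℕ) : ℕ :=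
  pd BF mW x.1 (x.2 * ((E >>> 16) % 256) % l) (E % 65536)

lemma mL_spec (l BF W mW : ℕ) (fin : ℕ → ℕ) (g : ℕ → (ℕ × ℕ) × ℕ) (m E : ℕ) :
    mL l BF (2 ^ W) mW fin ((List.range m).map g) E =
      ofD W (fun i => dA l BF mW (g i) (E >>> (24 * i))) m + 2 ^ (W * m) * fin (E >>> (24 * m)) := by
  induction m generalizing g E with
  | zero =>
    change fin E = _
    simp [ofD]
  | succ m ih =>
    have e : (List.range (m + 1)).map g = g 0 :: (List.range m).map fun k => g (k + 1) := by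
      rw [List.range_succ_eq_map, List.map_cons, List.map_map]
      rfl
    have e2 : mL l BF (2 ^ W) mW fin (g 0 :: (List.range m).map fun k => g (k + 1)) E =
      dA l BF mW (g 0) E + 2 ^ W * mL l BF (2 ^ W) mW fin ((List.range m).map fun k => g (k + 1))
        (E >>> 24) := rfl
    rw [e, e2, ih, ofD_cons, mul_add W m 1, mul_one, pow_add]
    have e3 : ∀ i, E >>> 24 >>> (24 * i) = E >>> (24 * (i + 1)) := by
      intro i
      rw [← Nat.shiftRight_add]
      congr 1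
      ring
    simp only [e3, mul_zero, Nat.shiftRight_zero]
    ring

lemma mQ_spec (l BF W mW : ℕ) (g : ℕ → (ℕ × ℕ) × ℕ) (p : ℕ) (hg : ∀ i, g (i % p) = g i)
    (q E : ℕ) : mQ l BF (2 ^ W) mW ((List.range p).map g) q E =
      ofD W (fun i => dA l BF mW (g i) (E >>> (24 * i))) (p * q) := by
  induction q generalizing E with
  | zero => simp [ofD, mQ]
  | succ q ih =>
    have e : mQ l BF (2 ^ W) mW ((List.range p).map g) (q + 1) E =
      mL l BF (2 ^ W) mW (mQ l BF (2 ^ W) mW ((List.range p).map g) q) ((List.range p).map g) E :=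
        rfl
    rw [e, mL_spec, ih, mul_add p q 1, mul_one, add_comm (p * q) p, ofD_add]
    congr 2
    apply ofD_congr
    intro i _
    rw [← Nat.shiftRight_add, ← mul_add, ← hg (p + i), Nat.add_mod_left, hg]

lemma cat_map {α β : Type} (V : ℕ) (f : β → ℕ) (g : α → β) (L : List α) :
    cat V f (L.map g) = cat V (fun x => f (g x)) L := by
  induction L with
  | nil => rfl
  | cons x L ih =>
    change f (g x) % V + V * cat V f (L.map g) = f (g x) % V + V * cat V (fun x => f (g x)) L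
    rw [ih]

lemma cat_ofD (w : ℕ) (f : ℕ → ℕ) (n : ℕ) :
    cat (2 ^ w) f (List.range n) = ofD w (fun i => f i % 2 ^ w) n := by
  induction n generalizing f with
  | zero => rfl
  | succ n ih =>
    rw [List.range_succ_eq_map]
    change f 0 % 2 ^ w + 2 ^ w * cat (2 ^ w) f ((List.range n).map Nat.succ) = _
    rw [cat_map, ih, ofD_cons]

/-- part of a row -/
def slc (R w len3 p1 p2 : ℕ) : ℕ :=
  (((R >>> (w * p1)) % 2 ^ w) >>> (8 * len3 * p2)) % 2 ^ (8 * len3)

/-- weight of the first two components -/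
def wA (l t1 t2 n1 n2 a : ℕ) (x1 x2 : ℕ × ℕ) (i : ℕ) : ℕ :=
  dig t1 (hs n1 a x1 i).1 * dig t2 (hs n2 a x2 i).1 % l

/-- static data of a relation -/
structure SD (s : RN) (rd : RD) : Prop where
  ok : RDOK rd
  l : s.l = rd.l
  t1 : s.t1 = rd.t1
  t2 : s.t2 = rd.t2
  t3 : s.t3 = rd.t3
  len3 : s.len3 = rd.len3
  w : s.w = 8 * (rd.len2 * rd.len3)
  V : s.V = 2 ^ s.w
  RX : s.RX = cat s.V (fun x => x.1) rd.rows
  RY : s.RY = cat s.V (fun x => x.2) rd.rows
  l19 : rd.l ≤ 19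
  w2 : s.w2 = 2 * s.F
  mF : s.mF = 2 ^ s.F - 1
  F : 32 ≤ s.F
  F3 : 8 * rd.len3 ≤ s.F

section

variable {par : Bool} {a N : ℕ} {e : ℕ → ℤ × ℤ × ℤ} {s : RN} {rd : RD} {r1 r2 r3 r : Rc}

lemma land_eq' (x F : ℕ) : Nat.land x (2 ^ F - 1) = x % 2 ^ F := Nat.and_two_pow_sub_one_eq_mod x F

lemma dig_lt (t x : ℕ) : dig t x < 256 := Nat.mod_lt _ (by norm_num)

/-- **string of the first two components** -/
theorem strA_spec (W : World par a e N) (hs' : SD s rd) (T1 : RT par a e rd.n1 r1)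
    (T2 : RT par a e rd.n2 r2) :
    strA s r1 r2 = ofD (2 * s.F) (fun i =>
      wA rd.l rd.t1 rd.t2 rd.n1 rd.n2 a (r1.x1, r1.x2) (r2.x1, r2.x2) i *
        slc s.RX s.w rd.len3 (pp (cof rd.n1) a (r1.x1, r1.x2) i) (pp (cof rd.n2) a (r2.x1, r2.x2) i) +
      2 ^ s.F * (wA rd.l rd.t1 rd.t2 rd.n1 rd.n2 a (r1.x1, r1.x2) (r2.x1, r2.x2) i *
        slc s.RY s.w rd.len3 (pp (cof rd.n1) a (r1.x1, r1.x2) i)
          (pp (cof rd.n2) a (r2.x1, r2.x2) i))) (Nat.lcm r1.pi r2.pi) := by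
  set P := Nat.lcm r1.pi r2.pi with hP
  set g : ℕ → (ℕ × ℕ) × ℕ := fun i => ((gX s.RX s.w s.V (d32 r1.orb (i % r1.pi)),
    gX s.RY s.w s.V (d32 r1.orb (i % r1.pi))), dig s.t1 (by1 (d32 r1.orb (i % r1.pi)))) with hg
  have eg : gL s r1 = (List.range r1.pi).map g := by
    unfold gL lazG
    rw [mapL_eq, rng_eq]
    apply List.map_congr_left
    intro i hi
    have := List.mem_range.1 hi
    simp only [hg, Nat.mod_eq_of_lt this]
  set E := cat (nat_lit 16777216) (CX.e2 s.len3 s.t2 r2.orb) (rng r2.pi) *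
    rep (24 * r2.pi) (P / r2.pi) with hE0
  have es : strA s r1 r2 = mQ s.l (2 ^ s.F) (2 ^ (2 * s.F)) (2 ^ (8 * s.len3) - 1) (gL s r1)
      (P / r1.pi) E := by
    unfold strA
    rw [lcmS_eq]
    rfl
  have hp1 : r1.pi * (P / r1.pi) = P := Nat.mul_div_cancel' (Nat.dvd_lcm_left _ _)
  have hp2 : r2.pi * (P / r2.pi) = P := Nat.mul_div_cancel' (Nat.dvd_lcm_right _ _)
  have hq := T1.ts.props W T1.ok
  have hq2 := T2.ts.props W T2.ok
  rw [es, eg, mQ_spec _ _ _ _ _ _ (fun i => by simp only [hg, Nat.mod_mod]), hp1]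
  apply ofD_congr
  intro i hi
  -- the digits of `E`
  have hlen := hs'.ok.len
  have p2lt : pp (cof rd.n2) a (r2.x1, r2.x2) i < rd.len2 := by rw [hs'.ok.l2]; exact (hq2 i).1
  have hoff : 8 * rd.len3 * pp (cof rd.n2) a (r2.x1, r2.x2) i + 8 * rd.len3 ≤
      8 * (rd.len2 * rd.len3) := by
    calc 8 * rd.len3 * pp (cof rd.n2) a (r2.x1, r2.x2) i + 8 * rd.len3 =
        8 * ((pp (cof rd.n2) a (r2.x1, r2.x2) i + 1) * rd.len3) := by ring
      _ ≤ 8 * (rd.len2 * rd.len3) := Nat.mul_le_mul_left _ (Nat.mul_le_mul_right _ p2lt)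
  have l3pos : 0 < rd.len3 := by
    rw [hs'.ok.l3]
    obtain ⟨x, T⟩ := W.exists_ts hs'.ok.k3
    exact List.length_pos_iff_exists_mem.2 ⟨x, (List.mem_filter.1 T.mem).1⟩
  have ho : 8 * rd.len3 * pp (cof rd.n2) a (r2.x1, r2.x2) i < 65536 := by omega
  have hd2 := dig_lt rd.t2 (hs rd.n2 a (r2.x1, r2.x2) i).1
  have eE : (E >>> (24 * i)) % 2 ^ 24 = 8 * rd.len3 * pp (cof rd.n2) a (r2.x1, r2.x2) i +
      65536 * dig rd.t2 (hs rd.n2 a (r2.x1, r2.x2) i).1 := by
    have h24 : E = ofD 24 (fun j => CX.e2 s.len3 s.t2 r2.orb (j % r2.pi) % 2 ^ 24) P := by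
      have h1 : cat (nat_lit 16777216) (CX.e2 s.len3 s.t2 r2.orb) (rng r2.pi) =
          ofD 24 (fun j => CX.e2 s.len3 s.t2 r2.orb j % 2 ^ 24) r2.pi := by
        rw [rng_eq]; exact cat_ofD 24 _ _
      rw [hE0, h1, ofD_rep (by norm_num) T2.pi, hp2]
    rw [h24, ofD_dig (fun j _ => Nat.mod_lt _ (by norm_num)) hi]
    have e1 : CX.e2 s.len3 s.t2 r2.orb (i % r2.pi) =
        8 * s.len3 * (d32 r2.orb (i % r2.pi) % 256) + 65536 * dig s.t2 (by1 (d32 r2.orb (i % r2.pi))) :=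
      rfl
    rw [e1, T2.e0, T2.e1, hs'.len3, hs'.t2]
    exact (split24 ho hd2).1
  have k1 : (E >>> (24 * i)) % 65536 = 8 * rd.len3 * pp (cof rd.n2) a (r2.x1, r2.x2) i := by
    rw [← Nat.mod_mod_of_dvd (E >>> (24 * i)) (show 65536 ∣ 2 ^ 24 by norm_num), eE]
    exact (split24 ho hd2).2.1
  have k2 : ((E >>> (24 * i)) >>> 16) % 256 = dig rd.t2 (hs rd.n2 a (r2.x1, r2.x2) i).1 := by
    rw [show (256 : ℕ) = 2 ^ 8 by norm_num, ← shr_mod (E >>> (24 * i)) 24 16 8 (by norm_num), eE,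
      (split24 ho hd2).2.2]
    exact Nat.mod_eq_of_lt hd2
  have gX' : ∀ R, gX R s.w s.V (d32 r1.orb (i % r1.pi)) =
      (R >>> (s.w * pp (cof rd.n1) a (r1.x1, r1.x2) i)) % 2 ^ s.w := by
    intro R
    change (R >>> (s.w * (d32 r1.orb (i % r1.pi) % 256))) % s.V = _
    rw [T1.e0, hs'.V]
  have ew : (g i).2 * (((E >>> (24 * i)) >>> 16) % 256) % s.l =
      wA rd.l rd.t1 rd.t2 rd.n1 rd.n2 a (r1.x1, r1.x2) (r2.x1, r2.x2) i := by
    rw [k2]
    simp only [hg]
    rw [T1.e1, hs'.t1, hs'.l]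
    rfl
  unfold dA
  rw [ew, k1]
  have epd : ∀ BF mW x w o, pd BF mW x w o = w * Nat.land (x.1 >>> o) mW +
      BF * (w * Nat.land (x.2 >>> o) mW) := fun _ _ _ _ _ => rfl
  rw [epd, hs'.len3, land_eq', land_eq']
  simp only [hg]
  rw [gX', gX']
  rfl

end

end Pool.Agent.LibH4.CX


end
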