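import Mathlib
import Pool.Agent.RQM.C40
import Pool.Agent.RQM.C41
import Pool.Agent.RQM.C44
import Pool.Agent.RQM.C48
import Pool.Agent.RQM.C52

/-! Parts: Lib_helper4.CW.Rd -/

namespace Pool.Agent.LibH4.Ker
end Pool.Agent.LibH4.Ker
namespace Pool.Agent.Lib_helper5
end Pool.Agent.Lib_helper5
namespace Pool.Agent.Lib_helper5.LK
end Pool.Agent.Lib_helper5.LK

section

/-!
Constant words: relations from the tables.
-/

namespace Pool.Agent.LibH4.CW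

open Finset Pool.Agent.Lib_helper5 Pool.Agent.Lib_helper5.LK Pool.Agent.LibH4.Ker
  Pool.Agent.LibH4.KF Pool.Agent.LibH4.T6 Pool.Agent.Lib_helper5.TB Pool.Agent.LibH4.S7

/-- the forms of the discriminant are admissible -/
def AD (n : ℕ) (A : ℕ → ℕ → ℕ → Bool) : Prop :=
  ∀ D : ℤ, DOK D → ∀ P R S : ℤ, R ^ 2 + 4 * P * S = D → A (rs n P) (rs n R) (rs n (-S)) = true

lemma ad_prime {p : ℕ} [NeZero p] (hp : p.Prime) (hp2 : p ≠ 2) (hQ : p ∣ QQ) : AD p (adP p) := by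
  intro D hD P R S hdis
  have h1 := hD.inr p hp hp2 hQ
  unfold K5.In at h1
  have e : (rs p R * rs p R + 4 * rs p P * (p - rs p (-S))) % p = rs p D := by
    apply rs_of
    rw [← hdis, Nat.cast_add, Nat.cast_mul, Nat.cast_mul, Nat.cast_mul,
      Nat.cast_sub (rs_lt (-S)).le, rs_cast, rs_cast, rs_cast, ZMod.natCast_self]
    push_cast
    ring
  have e' : adP p (rs p P) (rs p R) (rs p (-S)) =
    Nat.beq (Nat.mod (Nat.pow ((rs p R * rs p R + 4 * rs p P * (p - rs p (-S))) % p) (p / 2)) p)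
      (p - 1) := rfl
  rw [e', e]
  exact h1

lemma ad_two {n : ℕ} [NeZero n] (hn : 2 ∣ n) : AD n adO := by
  intro D hD P R S hdis
  have key : ∀ x : ℤ, x % 2 = 1 → (rs n x) % 2 = 1 := by
    intro x hx
    have h1 : ((rs n x : ℕ) : ℤ) = x % n := by
      unfold rs
      rw [ZMod.val_intCast]
    obtain ⟨k, hk⟩ := hn
    have h2 : x % (n : ℤ) % 2 = x % 2 :=
      Int.emod_emod_of_dvd x (by rw [hk]; push_cast; exact Dvd.intro _ rfl)
    omega
  obtain ⟨hR, hP, hS⟩ := odd_mul (R := R) (x := P) (y := S) hdis hD.D8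
  have h1 := key P hP
  have h2 := key R hR
  have h3 := key (-S) (by omega)
  have h4 : rs n P * (rs n R * rs n (-S)) % 2 = 1 := by
    rw [Nat.mul_mod, Nat.mul_mod (rs n R), h1, h2, h3]
  unfold adO
  have h5 : Nat.mod (Nat.mul (rs n P) (Nat.mul (rs n R) (rs n (-S)))) 2 = 1 := h4
  rw [h5]
  rfl

lemma ad_one {n : ℕ} : AD n adT := fun _ _ _ _ _ _ => rfl

lemma JW_mem {par : Bool} {a N : ℕ} {e : ℕ → ℤ × ℤ × ℤ} {j : Fm} (h : j ∈ JW par a e N) :
    ∃ i, j.P = (e i).1 ∧ j.R = (e i).2.1 ∧ j.S = -(e i).2.2 := by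
  unfold JW at h
  rcases List.mem_cons.1 h with rfl | h
  · exact ⟨0, rfl, rfl, rfl⟩
  rcases List.mem_append.1 h with h | h
  · obtain ⟨i, -, rfl⟩ := List.mem_map.1 h
    exact ⟨i + 1, rfl, rfl, rfl⟩
  · rw [List.mem_singleton] at h
    subst h
    exact ⟨N, rfl, rfl, rfl⟩

/-- **relation of a table** -/
theorem rd_of {n1 n2 n3 l t1 t2 t3 len2 len3 M h T1 T2 T3 : ℕ} {rows : List (ℕ × ℕ)}
    {A1 A2 A3 : ℕ → ℕ → ℕ → Bool} [NeZero n1] [NeZero n2] [NeZero n3] [NeZero (n1 * n2)]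
    [NeZero (n1 * n2 * n3)]
    (H : TabOK n1 n2 n3 M h T1 T2 T3 (cof n1).F (cof n2).F (cof n3).F rows)
    (C1 : CompOK n1 (cof n1).ex (cof n1).PT (cof n1).F A1)
    (C2 : CompOK n2 (cof n2).ex (cof n2).PT (cof n2).F A2)
    (C3 : CompOK n3 (cof n3).ex (cof n3).PT (cof n3).F A3)
    (k1 : CmpOK (cof n1)) (k2 : CmpOK (cof n2)) (k3 : CmpOK (cof n3))
    (m1 : (cof n1).n = n1) (m2 : (cof n2).n = n2) (m3 : (cof n3).n = n3)
    (hN : M = h * l) (h0 : 0 < h) (hl : 0 < l) (hl2 : l ≤ 256) (hM : M % 2 = 1)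
    (hQ : (n1 * n2 * n3 * M) ∣ QQ ^ 6)
    (lr : rows.length = (cof n1).F.length) (l2 : len2 = (cof n2).F.length)
    (l3 : len3 = (cof n3).F.length) (len : 8 * (len2 * len3) ≤ 65536)
    (ht1 : tabCk n1 M T1 = true) (ht2 : tabCk n2 M T2 = true) (ht3 : tabCk n3 M T3 = true)
    (r1 : redCk n1 T1 t1 l = true) (r2 : redCk n2 T2 t2 l = true) (r3 : redCk n3 T3 t3 l = true)
    (rok : relOk n1 n2 n3 M T1 T2 T3 = true) (a1 : AD n1 A1) (a2 : AD n2 A2) (a3 : AD n3 A3)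
    (c1 : chCk n1 t1 l = true) (c2 : chCk n2 t2 l = true) (c3 : chCk n3 t3 l = true)
    (d1 : chCk1 n1 t1 l = true) (d2 : chCk1 n2 t2 l = true) (d3 : chCk1 n3 t3 l = true) :
    RDOK ⟨n1, n2, n3, l, t1, t2, t3, rows, len2, len3⟩ where
  k1 := k1
  k2 := k2
  k3 := k3
  m1 := m1
  m2 := m2
  m3 := m3
  lr := lr
  l2 := l2
  l3 := l3
  l0 := hl
  l256 := hl2
  len := len
  ch1 := chCk_spec c1 d1
  ch2 := chCk_spec c2 d2
  ch3 := chCk_spec c3 d3
  rel := by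
    intro par a N e W
    have := H.rel hN h0 hl ht1 ht2 ht3 C1 C2 C3 r1 r2 r3 (J := JW par a e N) (by
      intro j hj
      obtain ⟨i, x1, x2, x3⟩ := JW_mem hj
      rw [x1, x2, x3]
      exact a1 _ W.dok _ _ _ (W.disc i)) (by
      intro j hj
      obtain ⟨i, x1, x2, x3⟩ := JW_mem hj
      rw [x1, x2, x3]
      exact a2 _ W.dok _ _ _ (W.disc i)) (by
      intro j hj
      obtain ⟨i, x1, x2, x3⟩ := JW_mem hj
      rw [x1, x2, x3]
      exact a3 _ W.dok _ _ _ (W.disc i))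
      (W.rel n1 n2 n3 M T1 T2 T3 rok ht1 ht2 ht3 hM hQ)
    rw [← l3] at this
    exact this

end Pool.Agent.LibH4.CW


end
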