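import Mathlib
import Pool.Agent.RQM.C41
import Pool.Agent.RQM.C48
import Pool.Agent.RQM.C52
import Pool.Agent.RQM.C55
import Pool.Agent.RQM.C56
import Pool.Agent.RQM.C57
import Pool.Agent.RQM.C58
import Pool.Agent.RQM.C59
import Pool.Agent.RQM.C60
import Pool.Agent.RQM.C61
import Pool.Agent.RQM.C62
import Pool.Agent.RQM.C65

/-! Parts: Lib_helper4.CW.Rds1, Lib_helper4.CW.Rds2, Lib_helper4.CW.Rds3 -/

namespace Pool.Agent.LibH4.Ker
end Pool.Agent.LibH4.Ker
namespace Pool.Agent.LibH4.S7
end Pool.Agent.LibH4.S7
namespace Pool.Agent.Lib_helper5.TB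
end Pool.Agent.Lib_helper5.TB

section

/-! generated: relations -/

namespace Pool.Agent.LibH4.CW

open Pool.Agent.LibH4.Ker Pool.Agent.Lib_helper5.TB Pool.Agent.LibH4.S7

/-- relation -/
def r_260F13 : RD := ⟨nat_lit 13, nat_lit 5, nat_lit 4, nat_lit 13, t1_260F13, t2_260F13, t3_260F13,
  rows_260F13, nat_lit 10, nat_lit 4⟩

lemma k_260F13 : RDOK r_260F13 :=
  rd_of (h := 169) tok_260F13 comp13 comp5 comp4 ok13 ok5 ok4 rfl rfl rfl (by norm_num) (by norm_num)
    (by norm_num) (by norm_num) (by norm_num) (by decide +kernel) (by decide +kernel)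
    (by decide +kernel) (by decide +kernel) (by decide +kernel)
    tab1_260F13 tab2_260F13 tab3_260F13 red1_260F13 red2_260F13
    red3_260F13 rok_260F13
    (ad_prime (by norm_num) (by norm_num) (by decide))
    (ad_prime (by norm_num) (by norm_num) (by decide))
    (ad_two (by norm_num))
    (by decide +kernel) (by decide +kernel) (by decide +kernel) (by decide +kernel)
    (by decide +kernel) (by decide +kernel)

/-- relation -/
def r_280F7 : RD := ⟨nat_lit 7, nat_lit 5, nat_lit 8, nat_lit 7, t1_280F7, t2_280F7, t3_280F7,
  rows_280F7, nat_lit 10, nat_lit 16⟩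

lemma k_280F7 : RDOK r_280F7 :=
  rd_of (h := 49) tok_280F7 comp7 comp5 comp8 ok7 ok5 ok8 rfl rfl rfl (by norm_num) (by norm_num)
    (by norm_num) (by norm_num) (by norm_num) (by decide +kernel) (by decide +kernel)
    (by decide +kernel) (by decide +kernel) (by decide +kernel)
    tab1_280F7 tab2_280F7 tab3_280F7 red1_280F7 red2_280F7
    red3_280F7 rok_280F7
    (ad_prime (by norm_num) (by norm_num) (by decide))
    (ad_prime (by norm_num) (by norm_num) (by decide))
    (ad_two (by norm_num))
    (by decide +kernel) (by decide +kernel) (by decide +kernel) (by decide +kernel)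
    (by decide +kernel) (by decide +kernel)

/-- relation -/
def r_308F7 : RD := ⟨nat_lit 11, nat_lit 7, nat_lit 4, nat_lit 7, t1_308F7, t2_308F7, t3_308F7,
  rows_308F7, nat_lit 21, nat_lit 4⟩

lemma k_308F7 : RDOK r_308F7 :=
  rd_of (h := 49) tok_308F7 comp11 comp7 comp4 ok11 ok7 ok4 rfl rfl rfl (by norm_num) (by norm_num)
    (by norm_num) (by norm_num) (by norm_num) (by decide +kernel) (by decide +kernel)
    (by decide +kernel) (by decide +kernel) (by decide +kernel)
    tab1_308F7 tab2_308F7 tab3_308F7 red1_308F7 red2_308F7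
    red3_308F7 rok_308F7
    (ad_prime (by norm_num) (by norm_num) (by decide))
    (ad_prime (by norm_num) (by norm_num) (by decide))
    (ad_two (by norm_num))
    (by decide +kernel) (by decide +kernel) (by decide +kernel) (by decide +kernel)
    (by decide +kernel) (by decide +kernel)

/-- relation -/
def r_364F13a : RD := ⟨nat_lit 13, nat_lit 7, nat_lit 4, nat_lit 13, t1_364F13a, t2_364F13a, t3_364F13a,
  rows_364F13a, nat_lit 21, nat_lit 4⟩

lemma k_364F13a : RDOK r_364F13a :=
  rd_of (h := 169) tok_364F13a comp13 comp7 comp4 ok13 ok7 ok4 rfl rfl rfl (by norm_num) (by norm_num)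
    (by norm_num) (by norm_num) (by norm_num) (by decide +kernel) (by decide +kernel)
    (by decide +kernel) (by decide +kernel) (by decide +kernel)
    tab1_364F13a tab2_364F13a tab3_364F13a red1_364F13a red2_364F13a
    red3_364F13a rok_364F13a
    (ad_prime (by norm_num) (by norm_num) (by decide))
    (ad_prime (by norm_num) (by norm_num) (by decide))
    (ad_two (by norm_num))
    (by decide +kernel) (by decide +kernel) (by decide +kernel) (by decide +kernel)
    (by decide +kernel) (by decide +kernel)

/-- relation -/
def r_364F13b : RD := ⟨nat_lit 13, nat_lit 7, nat_lit 4, nat_lit 13, t1_364F13b, t2_364F13b, t3_364F13b,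
  rows_364F13b, nat_lit 21, nat_lit 4⟩

lemma k_364F13b : RDOK r_364F13b :=
  rd_of (h := 169) tok_364F13b comp13 comp7 comp4 ok13 ok7 ok4 rfl rfl rfl (by norm_num) (by norm_num)
    (by norm_num) (by norm_num) (by norm_num) (by decide +kernel) (by decide +kernel)
    (by decide +kernel) (by decide +kernel) (by decide +kernel)
    tab1_364F13b tab2_364F13b tab3_364F13b red1_364F13b red2_364F13b
    red3_364F13b rok_364F13b
    (ad_prime (by norm_num) (by norm_num) (by decide))
    (ad_prime (by norm_num) (by norm_num) (by decide))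
    (ad_two (by norm_num))
    (by decide +kernel) (by decide +kernel) (by decide +kernel) (by decide +kernel)
    (by decide +kernel) (by decide +kernel)

/-- relation -/
def r_399F7 : RD := ⟨nat_lit 19, nat_lit 7, nat_lit 3, nat_lit 7, t1_399F7, t2_399F7, t3_399F7,
  rows_399F7, nat_lit 21, nat_lit 3⟩

lemma k_399F7 : RDOK r_399F7 :=
  rd_of (h := 49) tok_399F7 comp19 comp7 comp3 ok19 ok7 ok3 rfl rfl rfl (by norm_num) (by norm_num)
    (by norm_num) (by norm_num) (by norm_num) (by decide +kernel) (by decide +kernel)
    (by decide +kernel) (by decide +kernel) (by decide +kernel)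
    tab1_399F7 tab2_399F7 tab3_399F7 red1_399F7 red2_399F7
    red3_399F7 rok_399F7
    (ad_prime (by norm_num) (by norm_num) (by decide))
    (ad_prime (by norm_num) (by norm_num) (by decide))
    (ad_prime (by norm_num) (by norm_num) (by decide))
    (by decide +kernel) (by decide +kernel) (by decide +kernel) (by decide +kernel)
    (by decide +kernel) (by decide +kernel)

/-- relation -/
def r_455F13a : RD := ⟨nat_lit 13, nat_lit 7, nat_lit 5, nat_lit 13, t1_455F13a, t2_455F13a, t3_455F13a,
  rows_455F13a, nat_lit 21, nat_lit 10⟩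

lemma k_455F13a : RDOK r_455F13a :=
  rd_of (h := 169) tok_455F13a comp13 comp7 comp5 ok13 ok7 ok5 rfl rfl rfl (by norm_num) (by norm_num)
    (by norm_num) (by norm_num) (by norm_num) (by decide +kernel) (by decide +kernel)
    (by decide +kernel) (by decide +kernel) (by decide +kernel)
    tab1_455F13a tab2_455F13a tab3_455F13a red1_455F13a red2_455F13a
    red3_455F13a rok_455F13a
    (ad_prime (by norm_num) (by norm_num) (by decide))
    (ad_prime (by norm_num) (by norm_num) (by decide))
    (ad_prime (by norm_num) (by norm_num) (by decide))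
    (by decide +kernel) (by decide +kernel) (by decide +kernel) (by decide +kernel)
    (by decide +kernel) (by decide +kernel)

/-- relation -/
def r_455F13b : RD := ⟨nat_lit 13, nat_lit 7, nat_lit 5, nat_lit 13, t1_455F13b, t2_455F13b, t3_455F13b,
  rows_455F13b, nat_lit 21, nat_lit 10⟩

lemma k_455F13b : RDOK r_455F13b :=
  rd_of (h := 169) tok_455F13b comp13 comp7 comp5 ok13 ok7 ok5 rfl rfl rfl (by norm_num) (by norm_num)
    (by norm_num) (by norm_num) (by norm_num) (by decide +kernel) (by decide +kernel)
    (by decide +kernel) (by decide +kernel) (by decide +kernel)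
    tab1_455F13b tab2_455F13b tab3_455F13b red1_455F13b red2_455F13b
    red3_455F13b rok_455F13b
    (ad_prime (by norm_num) (by norm_num) (by decide))
    (ad_prime (by norm_num) (by norm_num) (by decide))
    (ad_prime (by norm_num) (by norm_num) (by decide))
    (by decide +kernel) (by decide +kernel) (by decide +kernel) (by decide +kernel)
    (by decide +kernel) (by decide +kernel)

/-- relation -/
def r_455F13c : RD := ⟨nat_lit 13, nat_lit 7, nat_lit 5, nat_lit 13, t1_455F13c, t2_455F13c, t3_455F13c,
  rows_455F13c, nat_lit 21, nat_lit 10⟩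

lemma k_455F13c : RDOK r_455F13c :=
  rd_of (h := 169) tok_455F13c comp13 comp7 comp5 ok13 ok7 ok5 rfl rfl rfl (by norm_num) (by norm_num)
    (by norm_num) (by norm_num) (by norm_num) (by decide +kernel) (by decide +kernel)
    (by decide +kernel) (by decide +kernel) (by decide +kernel)
    tab1_455F13c tab2_455F13c tab3_455F13c red1_455F13c red2_455F13c
    red3_455F13c rok_455F13c
    (ad_prime (by norm_num) (by norm_num) (by decide))
    (ad_prime (by norm_num) (by norm_num) (by decide))
    (ad_prime (by norm_num) (by norm_num) (by decide))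
    (by decide +kernel) (by decide +kernel) (by decide +kernel) (by decide +kernel)
    (by decide +kernel) (by decide +kernel)

/-- relation -/
def r_455F13d : RD := ⟨nat_lit 13, nat_lit 7, nat_lit 5, nat_lit 13, t1_455F13d, t2_455F13d, t3_455F13d,
  rows_455F13d, nat_lit 21, nat_lit 10⟩

lemma k_455F13d : RDOK r_455F13d :=
  rd_of (h := 169) tok_455F13d comp13 comp7 comp5 ok13 ok7 ok5 rfl rfl rfl (by norm_num) (by norm_num)
    (by norm_num) (by norm_num) (by norm_num) (by decide +kernel) (by decide +kernel)
    (by decide +kernel) (by decide +kernel) (by decide +kernel)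
    tab1_455F13d tab2_455F13d tab3_455F13d red1_455F13d red2_455F13d
    red3_455F13d rok_455F13d
    (ad_prime (by norm_num) (by norm_num) (by decide))
    (ad_prime (by norm_num) (by norm_num) (by decide))
    (ad_prime (by norm_num) (by norm_num) (by decide))
    (by decide +kernel) (by decide +kernel) (by decide +kernel) (by decide +kernel)
    (by decide +kernel) (by decide +kernel)

/-- relation -/
def r_455F13e : RD := ⟨nat_lit 13, nat_lit 7, nat_lit 5, nat_lit 13, t1_455F13e, t2_455F13e, t3_455F13e,
  rows_455F13e, nat_lit 21, nat_lit 10⟩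

lemma k_455F13e : RDOK r_455F13e :=
  rd_of (h := 169) tok_455F13e comp13 comp7 comp5 ok13 ok7 ok5 rfl rfl rfl (by norm_num) (by norm_num)
    (by norm_num) (by norm_num) (by norm_num) (by decide +kernel) (by decide +kernel)
    (by decide +kernel) (by decide +kernel) (by decide +kernel)
    tab1_455F13e tab2_455F13e tab3_455F13e red1_455F13e red2_455F13e
    red3_455F13e rok_455F13e
    (ad_prime (by norm_num) (by norm_num) (by decide))
    (ad_prime (by norm_num) (by norm_num) (by decide))
    (ad_prime (by norm_num) (by norm_num) (by decide))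
    (by decide +kernel) (by decide +kernel) (by decide +kernel) (by decide +kernel)
    (by decide +kernel) (by decide +kernel)

/-- relation -/
def r_455F5 : RD := ⟨nat_lit 13, nat_lit 7, nat_lit 5, nat_lit 5, t1_455F5, t2_455F5, t3_455F5,
  rows_455F5, nat_lit 21, nat_lit 10⟩

lemma k_455F5 : RDOK r_455F5 :=
  rd_of (h := 25) tok_455F5 comp13 comp7 comp5 ok13 ok7 ok5 rfl rfl rfl (by norm_num) (by norm_num)
    (by norm_num) (by norm_num) (by norm_num) (by decide +kernel) (by decide +kernel)
    (by decide +kernel) (by decide +kernel) (by decide +kernel)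
    tab1_455F5 tab2_455F5 tab3_455F5 red1_455F5 red2_455F5
    red3_455F5 rok_455F5
    (ad_prime (by norm_num) (by norm_num) (by decide))
    (ad_prime (by norm_num) (by norm_num) (by decide))
    (ad_prime (by norm_num) (by norm_num) (by decide))
    (by decide +kernel) (by decide +kernel) (by decide +kernel) (by decide +kernel)
    (by decide +kernel) (by decide +kernel)

end Pool.Agent.LibH4.CW


end

section

/-! generated: relations -/

namespace Pool.Agent.LibH4.CW

open Pool.Agent.LibH4.Ker Pool.Agent.Lib_helper5.TB Pool.Agent.LibH4.S7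

/-- relation -/
def r_520F5 : RD := ⟨nat_lit 13, nat_lit 5, nat_lit 8, nat_lit 5, t1_520F5, t2_520F5, t3_520F5,
  rows_520F5, nat_lit 10, nat_lit 16⟩

lemma k_520F5 : RDOK r_520F5 :=
  rd_of (h := 25) tok_520F5 comp13 comp5 comp8 ok13 ok5 ok8 rfl rfl rfl (by norm_num) (by norm_num)
    (by norm_num) (by norm_num) (by norm_num) (by decide +kernel) (by decide +kernel)
    (by decide +kernel) (by decide +kernel) (by decide +kernel)
    tab1_520F5 tab2_520F5 tab3_520F5 red1_520F5 red2_520F5
    red3_520F5 rok_520F5
    (ad_prime (by norm_num) (by norm_num) (by decide))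
    (ad_prime (by norm_num) (by norm_num) (by decide))
    (ad_two (by norm_num))
    (by decide +kernel) (by decide +kernel) (by decide +kernel) (by decide +kernel)
    (by decide +kernel) (by decide +kernel)

/-- relation -/
def r_520N17 : RD := ⟨nat_lit 13, nat_lit 5, nat_lit 8, nat_lit 17, t1_520N17, t2_520N17, t3_520N17,
  rows_520N17, nat_lit 10, nat_lit 16⟩

lemma k_520N17 : RDOK r_520N17 :=
  rd_of (h := 1) tok_520N17 comp13 comp5 comp8 ok13 ok5 ok8 rfl rfl rfl (by norm_num) (by norm_num)
    (by norm_num) (by norm_num) (by norm_num) (by decide +kernel) (by decide +kernel)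
    (by decide +kernel) (by decide +kernel) (by decide +kernel)
    tab1_520N17 tab2_520N17 tab3_520N17 red1_520N17 red2_520N17
    red3_520N17 rok_520N17
    (ad_prime (by norm_num) (by norm_num) (by decide))
    (ad_prime (by norm_num) (by norm_num) (by decide))
    (ad_two (by norm_num))
    (by decide +kernel) (by decide +kernel) (by decide +kernel) (by decide +kernel)
    (by decide +kernel) (by decide +kernel)

/-- relation -/
def r_520N7 : RD := ⟨nat_lit 13, nat_lit 5, nat_lit 8, nat_lit 7, t1_520N7, t2_520N7, t3_520N7,
  rows_520N7, nat_lit 10, nat_lit 16⟩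

lemma k_520N7 : RDOK r_520N7 :=
  rd_of (h := 1) tok_520N7 comp13 comp5 comp8 ok13 ok5 ok8 rfl rfl rfl (by norm_num) (by norm_num)
    (by norm_num) (by norm_num) (by norm_num) (by decide +kernel) (by decide +kernel)
    (by decide +kernel) (by decide +kernel) (by decide +kernel)
    tab1_520N7 tab2_520N7 tab3_520N7 red1_520N7 red2_520N7
    red3_520N7 rok_520N7
    (ad_prime (by norm_num) (by norm_num) (by decide))
    (ad_prime (by norm_num) (by norm_num) (by decide))
    (ad_two (by norm_num))
    (by decide +kernel) (by decide +kernel) (by decide +kernel) (by decide +kernel)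
    (by decide +kernel) (by decide +kernel)

/-- relation -/
def r_572N5 : RD := ⟨nat_lit 11, nat_lit 13, nat_lit 4, nat_lit 5, t1_572N5, t2_572N5, t3_572N5,
  rows_572N5, nat_lit 78, nat_lit 4⟩

lemma k_572N5 : RDOK r_572N5 :=
  rd_of (h := 1) tok_572N5 comp11 comp13 comp4 ok11 ok13 ok4 rfl rfl rfl (by norm_num) (by norm_num)
    (by norm_num) (by norm_num) (by norm_num) (by decide +kernel) (by decide +kernel)
    (by decide +kernel) (by decide +kernel) (by decide +kernel)
    tab1_572N5 tab2_572N5 tab3_572N5 red1_572N5 red2_572N5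
    red3_572N5 rok_572N5
    (ad_prime (by norm_num) (by norm_num) (by decide))
    (ad_prime (by norm_num) (by norm_num) (by decide))
    (ad_two (by norm_num))
    (by decide +kernel) (by decide +kernel) (by decide +kernel) (by decide +kernel)
    (by decide +kernel) (by decide +kernel)

/-- relation -/
def r_595N13a : RD := ⟨nat_lit 17, nat_lit 7, nat_lit 5, nat_lit 13, t1_595N13a, t2_595N13a, t3_595N13a,
  rows_595N13a, nat_lit 21, nat_lit 10⟩

lemma k_595N13a : RDOK r_595N13a :=
  rd_of (h := 1) tok_595N13a comp17 comp7 comp5 ok17 ok7 ok5 rfl rfl rfl (by norm_num) (by norm_num)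
    (by norm_num) (by norm_num) (by norm_num) (by decide +kernel) (by decide +kernel)
    (by decide +kernel) (by decide +kernel) (by decide +kernel)
    tab1_595N13a tab2_595N13a tab3_595N13a red1_595N13a red2_595N13a
    red3_595N13a rok_595N13a
    (ad_prime (by norm_num) (by norm_num) (by decide))
    (ad_prime (by norm_num) (by norm_num) (by decide))
    (ad_prime (by norm_num) (by norm_num) (by decide))
    (by decide +kernel) (by decide +kernel) (by decide +kernel) (by decide +kernel)
    (by decide +kernel) (by decide +kernel)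

/-- relation -/
def r_595N13b : RD := ⟨nat_lit 17, nat_lit 7, nat_lit 5, nat_lit 13, t1_595N13b, t2_595N13b, t3_595N13b,
  rows_595N13b, nat_lit 21, nat_lit 10⟩

lemma k_595N13b : RDOK r_595N13b :=
  rd_of (h := 1) tok_595N13b comp17 comp7 comp5 ok17 ok7 ok5 rfl rfl rfl (by norm_num) (by norm_num)
    (by norm_num) (by norm_num) (by norm_num) (by decide +kernel) (by decide +kernel)
    (by decide +kernel) (by decide +kernel) (by decide +kernel)
    tab1_595N13b tab2_595N13b tab3_595N13b red1_595N13b red2_595N13b
    red3_595N13b rok_595N13b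
    (ad_prime (by norm_num) (by norm_num) (by decide))
    (ad_prime (by norm_num) (by norm_num) (by decide))
    (ad_prime (by norm_num) (by norm_num) (by decide))
    (by decide +kernel) (by decide +kernel) (by decide +kernel) (by decide +kernel)
    (by decide +kernel) (by decide +kernel)

/-- relation -/
def r_616F11 : RD := ⟨nat_lit 11, nat_lit 7, nat_lit 8, nat_lit 11, t1_616F11, t2_616F11, t3_616F11,
  rows_616F11, nat_lit 21, nat_lit 16⟩

lemma k_616F11 : RDOK r_616F11 :=
  rd_of (h := 121) tok_616F11 comp11 comp7 comp8 ok11 ok7 ok8 rfl rfl rfl (by norm_num) (by norm_num)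
    (by norm_num) (by norm_num) (by norm_num) (by decide +kernel) (by decide +kernel)
    (by decide +kernel) (by decide +kernel) (by decide +kernel)
    tab1_616F11 tab2_616F11 tab3_616F11 red1_616F11 red2_616F11
    red3_616F11 rok_616F11
    (ad_prime (by norm_num) (by norm_num) (by decide))
    (ad_prime (by norm_num) (by norm_num) (by decide))
    (ad_two (by norm_num))
    (by decide +kernel) (by decide +kernel) (by decide +kernel) (by decide +kernel)
    (by decide +kernel) (by decide +kernel)

/-- relation -/
def r_616N13 : RD := ⟨nat_lit 11, nat_lit 7, nat_lit 8, nat_lit 13, t1_616N13, t2_616N13, t3_616N13,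
  rows_616N13, nat_lit 21, nat_lit 16⟩

lemma k_616N13 : RDOK r_616N13 :=
  rd_of (h := 1) tok_616N13 comp11 comp7 comp8 ok11 ok7 ok8 rfl rfl rfl (by norm_num) (by norm_num)
    (by norm_num) (by norm_num) (by norm_num) (by decide +kernel) (by decide +kernel)
    (by decide +kernel) (by decide +kernel) (by decide +kernel)
    tab1_616N13 tab2_616N13 tab3_616N13 red1_616N13 red2_616N13
    red3_616N13 rok_616N13
    (ad_prime (by norm_num) (by norm_num) (by decide))
    (ad_prime (by norm_num) (by norm_num) (by decide))
    (ad_two (by norm_num))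
    (by decide +kernel) (by decide +kernel) (by decide +kernel) (by decide +kernel)
    (by decide +kernel) (by decide +kernel)

/-- relation -/
def r_680F17a : RD := ⟨nat_lit 17, nat_lit 5, nat_lit 8, nat_lit 17, t1_680F17a, t2_680F17a, t3_680F17a,
  rows_680F17a, nat_lit 10, nat_lit 16⟩

lemma k_680F17a : RDOK r_680F17a :=
  rd_of (h := 289) tok_680F17a comp17 comp5 comp8 ok17 ok5 ok8 rfl rfl rfl (by norm_num) (by norm_num)
    (by norm_num) (by norm_num) (by norm_num) (by decide +kernel) (by decide +kernel)
    (by decide +kernel) (by decide +kernel) (by decide +kernel)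
    tab1_680F17a tab2_680F17a tab3_680F17a red1_680F17a red2_680F17a
    red3_680F17a rok_680F17a
    (ad_prime (by norm_num) (by norm_num) (by decide))
    (ad_prime (by norm_num) (by norm_num) (by decide))
    (ad_two (by norm_num))
    (by decide +kernel) (by decide +kernel) (by decide +kernel) (by decide +kernel)
    (by decide +kernel) (by decide +kernel)

/-- relation -/
def r_680F17b : RD := ⟨nat_lit 17, nat_lit 5, nat_lit 8, nat_lit 17, t1_680F17b, t2_680F17b, t3_680F17b,
  rows_680F17b, nat_lit 10, nat_lit 16⟩

lemma k_680F17b : RDOK r_680F17b :=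
  rd_of (h := 289) tok_680F17b comp17 comp5 comp8 ok17 ok5 ok8 rfl rfl rfl (by norm_num) (by norm_num)
    (by norm_num) (by norm_num) (by norm_num) (by decide +kernel) (by decide +kernel)
    (by decide +kernel) (by decide +kernel) (by decide +kernel)
    tab1_680F17b tab2_680F17b tab3_680F17b red1_680F17b red2_680F17b
    red3_680F17b rok_680F17b
    (ad_prime (by norm_num) (by norm_num) (by decide))
    (ad_prime (by norm_num) (by norm_num) (by decide))
    (ad_two (by norm_num))
    (by decide +kernel) (by decide +kernel) (by decide +kernel) (by decide +kernel)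
    (by decide +kernel) (by decide +kernel)

/-- relation -/
def r_680N13 : RD := ⟨nat_lit 17, nat_lit 5, nat_lit 8, nat_lit 13, t1_680N13, t2_680N13, t3_680N13,
  rows_680N13, nat_lit 10, nat_lit 16⟩

lemma k_680N13 : RDOK r_680N13 :=
  rd_of (h := 1) tok_680N13 comp17 comp5 comp8 ok17 ok5 ok8 rfl rfl rfl (by norm_num) (by norm_num)
    (by norm_num) (by norm_num) (by norm_num) (by decide +kernel) (by decide +kernel)
    (by decide +kernel) (by decide +kernel) (by decide +kernel)
    tab1_680N13 tab2_680N13 tab3_680N13 red1_680N13 red2_680N13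
    red3_680N13 rok_680N13
    (ad_prime (by norm_num) (by norm_num) (by decide))
    (ad_prime (by norm_num) (by norm_num) (by decide))
    (ad_two (by norm_num))
    (by decide +kernel) (by decide +kernel) (by decide +kernel) (by decide +kernel)
    (by decide +kernel) (by decide +kernel)

/-- relation -/
def r_715N7 : RD := ⟨nat_lit 11, nat_lit 13, nat_lit 5, nat_lit 7, t1_715N7, t2_715N7, t3_715N7,
  rows_715N7, nat_lit 78, nat_lit 10⟩

lemma k_715N7 : RDOK r_715N7 :=
  rd_of (h := 1) tok_715N7 comp11 comp13 comp5 ok11 ok13 ok5 rfl rfl rfl (by norm_num) (by norm_num)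
    (by norm_num) (by norm_num) (by norm_num) (by decide +kernel) (by decide +kernel)
    (by decide +kernel) (by decide +kernel) (by decide +kernel)
    tab1_715N7 tab2_715N7 tab3_715N7 red1_715N7 red2_715N7
    red3_715N7 rok_715N7
    (ad_prime (by norm_num) (by norm_num) (by decide))
    (ad_prime (by norm_num) (by norm_num) (by decide))
    (ad_prime (by norm_num) (by norm_num) (by decide))
    (by decide +kernel) (by decide +kernel) (by decide +kernel) (by decide +kernel)
    (by decide +kernel) (by decide +kernel)

end Pool.Agent.LibH4.CW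


end

section

/-! generated: relations -/

namespace Pool.Agent.LibH4.CW

open Pool.Agent.LibH4.Ker Pool.Agent.Lib_helper5.TB Pool.Agent.LibH4.S7

/-- relation -/
def r_728F13 : RD := ⟨nat_lit 13, nat_lit 7, nat_lit 8, nat_lit 13, t1_728F13, t2_728F13, t3_728F13,
  rows_728F13, nat_lit 21, nat_lit 16⟩

lemma k_728F13 : RDOK r_728F13 :=
  rd_of (h := 169) tok_728F13 comp13 comp7 comp8 ok13 ok7 ok8 rfl rfl rfl (by norm_num) (by norm_num)
    (by norm_num) (by norm_num) (by norm_num) (by decide +kernel) (by decide +kernel)
    (by decide +kernel) (by decide +kernel) (by decide +kernel)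
    tab1_728F13 tab2_728F13 tab3_728F13 red1_728F13 red2_728F13
    red3_728F13 rok_728F13
    (ad_prime (by norm_num) (by norm_num) (by decide))
    (ad_prime (by norm_num) (by norm_num) (by decide))
    (ad_two (by norm_num))
    (by decide +kernel) (by decide +kernel) (by decide +kernel) (by decide +kernel)
    (by decide +kernel) (by decide +kernel)

/-- relation -/
def r_728F7 : RD := ⟨nat_lit 13, nat_lit 7, nat_lit 8, nat_lit 7, t1_728F7, t2_728F7, t3_728F7,
  rows_728F7, nat_lit 21, nat_lit 16⟩

lemma k_728F7 : RDOK r_728F7 :=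
  rd_of (h := 49) tok_728F7 comp13 comp7 comp8 ok13 ok7 ok8 rfl rfl rfl (by norm_num) (by norm_num)
    (by norm_num) (by norm_num) (by norm_num) (by decide +kernel) (by decide +kernel)
    (by decide +kernel) (by decide +kernel) (by decide +kernel)
    tab1_728F7 tab2_728F7 tab3_728F7 red1_728F7 red2_728F7
    red3_728F7 rok_728F7
    (ad_prime (by norm_num) (by norm_num) (by decide))
    (ad_prime (by norm_num) (by norm_num) (by decide))
    (ad_two (by norm_num))
    (by decide +kernel) (by decide +kernel) (by decide +kernel) (by decide +kernel)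
    (by decide +kernel) (by decide +kernel)

/-- relation -/
def r_728N19 : RD := ⟨nat_lit 13, nat_lit 7, nat_lit 8, nat_lit 19, t1_728N19, t2_728N19, t3_728N19,
  rows_728N19, nat_lit 21, nat_lit 16⟩

lemma k_728N19 : RDOK r_728N19 :=
  rd_of (h := 1) tok_728N19 comp13 comp7 comp8 ok13 ok7 ok8 rfl rfl rfl (by norm_num) (by norm_num)
    (by norm_num) (by norm_num) (by norm_num) (by decide +kernel) (by decide +kernel)
    (by decide +kernel) (by decide +kernel) (by decide +kernel)
    tab1_728N19 tab2_728N19 tab3_728N19 red1_728N19 red2_728N19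
    red3_728N19 rok_728N19
    (ad_prime (by norm_num) (by norm_num) (by decide))
    (ad_prime (by norm_num) (by norm_num) (by decide))
    (ad_two (by norm_num))
    (by decide +kernel) (by decide +kernel) (by decide +kernel) (by decide +kernel)
    (by decide +kernel) (by decide +kernel)

/-- relation -/
def r_728N5 : RD := ⟨nat_lit 13, nat_lit 7, nat_lit 8, nat_lit 5, t1_728N5, t2_728N5, t3_728N5,
  rows_728N5, nat_lit 21, nat_lit 16⟩

lemma k_728N5 : RDOK r_728N5 :=
  rd_of (h := 1) tok_728N5 comp13 comp7 comp8 ok13 ok7 ok8 rfl rfl rfl (by norm_num) (by norm_num)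
    (by norm_num) (by norm_num) (by norm_num) (by decide +kernel) (by decide +kernel)
    (by decide +kernel) (by decide +kernel) (by decide +kernel)
    tab1_728N5 tab2_728N5 tab3_728N5 red1_728N5 red2_728N5
    red3_728N5 rok_728N5
    (ad_prime (by norm_num) (by norm_num) (by decide))
    (ad_prime (by norm_num) (by norm_num) (by decide))
    (ad_two (by norm_num))
    (by decide +kernel) (by decide +kernel) (by decide +kernel) (by decide +kernel)
    (by decide +kernel) (by decide +kernel)

/-- relation -/
def r_88F11 : RD := ⟨nat_lit 11, nat_lit 8, nat_lit 1, nat_lit 11, t1_88F11, t2_88F11, t3_88F11,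
  rows_88F11, nat_lit 16, nat_lit 1⟩

lemma k_88F11 : RDOK r_88F11 :=
  rd_of (h := 121) tok_88F11 comp11 comp8 comp1 ok11 ok8 ok1 rfl rfl rfl (by norm_num) (by norm_num)
    (by norm_num) (by norm_num) (by norm_num) (by decide +kernel) (by decide +kernel)
    (by decide +kernel) (by decide +kernel) (by decide +kernel)
    tab1_88F11 tab2_88F11 tab3_88F11 red1_88F11 red2_88F11
    red3_88F11 rok_88F11
    (ad_prime (by norm_num) (by norm_num) (by decide))
    (ad_two (by norm_num))
    ad_one
    (by decide +kernel) (by decide +kernel) (by decide +kernel) (by decide +kernel)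
    (by decide +kernel) (by decide +kernel)

/-- relation -/
def r_91F13 : RD := ⟨nat_lit 13, nat_lit 7, nat_lit 1, nat_lit 13, t1_91F13, t2_91F13, t3_91F13,
  rows_91F13, nat_lit 21, nat_lit 1⟩

lemma k_91F13 : RDOK r_91F13 :=
  rd_of (h := 169) tok_91F13 comp13 comp7 comp1 ok13 ok7 ok1 rfl rfl rfl (by norm_num) (by norm_num)
    (by norm_num) (by norm_num) (by norm_num) (by decide +kernel) (by decide +kernel)
    (by decide +kernel) (by decide +kernel) (by decide +kernel)
    tab1_91F13 tab2_91F13 tab3_91F13 red1_91F13 red2_91F13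
    red3_91F13 rok_91F13
    (ad_prime (by norm_num) (by norm_num) (by decide))
    (ad_prime (by norm_num) (by norm_num) (by decide))
    ad_one
    (by decide +kernel) (by decide +kernel) (by decide +kernel) (by decide +kernel)
    (by decide +kernel) (by decide +kernel)

/-- relation -/
def r_935N7 : RD := ⟨nat_lit 17, nat_lit 11, nat_lit 5, nat_lit 7, t1_935N7, t2_935N7, t3_935N7,
  rows_935N7, nat_lit 55, nat_lit 10⟩

lemma k_935N7 : RDOK r_935N7 :=
  rd_of (h := 1) tok_935N7 comp17 comp11 comp5 ok17 ok11 ok5 rfl rfl rfl (by norm_num) (by norm_num)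
    (by norm_num) (by norm_num) (by norm_num) (by decide +kernel) (by decide +kernel)
    (by decide +kernel) (by decide +kernel) (by decide +kernel)
    tab1_935N7 tab2_935N7 tab3_935N7 red1_935N7 red2_935N7
    red3_935N7 rok_935N7
    (ad_prime (by norm_num) (by norm_num) (by decide))
    (ad_prime (by norm_num) (by norm_num) (by decide))
    (ad_prime (by norm_num) (by norm_num) (by decide))
    (by decide +kernel) (by decide +kernel) (by decide +kernel) (by decide +kernel)
    (by decide +kernel) (by decide +kernel)

/-- relation -/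
def r_95F19 : RD := ⟨nat_lit 19, nat_lit 5, nat_lit 1, nat_lit 19, t1_95F19, t2_95F19, t3_95F19,
  rows_95F19, nat_lit 10, nat_lit 1⟩

lemma k_95F19 : RDOK r_95F19 :=
  rd_of (h := 361) tok_95F19 comp19 comp5 comp1 ok19 ok5 ok1 rfl rfl rfl (by norm_num) (by norm_num)
    (by norm_num) (by norm_num) (by norm_num) (by decide +kernel) (by decide +kernel)
    (by decide +kernel) (by decide +kernel) (by decide +kernel)
    tab1_95F19 tab2_95F19 tab3_95F19 red1_95F19 red2_95F19
    red3_95F19 rok_95F19
    (ad_prime (by norm_num) (by norm_num) (by decide))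
    (ad_prime (by norm_num) (by norm_num) (by decide))
    ad_one
    (by decide +kernel) (by decide +kernel) (by decide +kernel) (by decide +kernel)
    (by decide +kernel) (by decide +kernel)

/-- relation -/
def r_95N13 : RD := ⟨nat_lit 19, nat_lit 5, nat_lit 1, nat_lit 13, t1_95N13, t2_95N13, t3_95N13,
  rows_95N13, nat_lit 10, nat_lit 1⟩

lemma k_95N13 : RDOK r_95N13 :=
  rd_of (h := 1) tok_95N13 comp19 comp5 comp1 ok19 ok5 ok1 rfl rfl rfl (by norm_num) (by norm_num)
    (by norm_num) (by norm_num) (by norm_num) (by decide +kernel) (by decide +kernel)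
    (by decide +kernel) (by decide +kernel) (by decide +kernel)
    tab1_95N13 tab2_95N13 tab3_95N13 red1_95N13 red2_95N13
    red3_95N13 rok_95N13
    (ad_prime (by norm_num) (by norm_num) (by decide))
    (ad_prime (by norm_num) (by norm_num) (by decide))
    ad_one
    (by decide +kernel) (by decide +kernel) (by decide +kernel) (by decide +kernel)
    (by decide +kernel) (by decide +kernel)

end Pool.Agent.LibH4.CW


end
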