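import Mathlib
import Pool.Agent.RQM.C41
import Pool.Agent.RQM.C48
import Pool.Agent.RQM.C52
import Pool.Agent.RQM.C58
import Pool.Agent.RQM.C60
import Pool.Agent.RQM.C61
import Pool.Agent.RQM.C62
import Pool.Agent.RQM.C63
import Pool.Agent.RQM.C65

/-! Parts: Lib_helper4.CW.Rds0 -/

namespace Pool.Agent.LibH4.Ker
end Pool.Agent.LibH4.Ker
namespace Pool.Agent.LibH4.S7
end Pool.Agent.LibH4.S7
namespace Pool.Agent.Lib_helper5.TB
end Pool.Agent.Lib_helper5.TB

section

/-! generated: relations -/

namespace Pool.Agent.LibH4.CW

open Pool.Agent.LibH4.Ker Pool.Agent.Lib_helper5.TB Pool.Agent.LibH4.S7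

/-- relation -/
def r_119N13 : RD := ⟨nat_lit 17, nat_lit 7, nat_lit 1, nat_lit 13, t1_119N13, t2_119N13, t3_119N13,
  rows_119N13, nat_lit 21, nat_lit 1⟩

lemma k_119N13 : RDOK r_119N13 :=
  rd_of (h := 1) tok_119N13 comp17 comp7 comp1 ok17 ok7 ok1 rfl rfl rfl (by norm_num) (by norm_num)
    (by norm_num) (by norm_num) (by norm_num) (by decide +kernel) (by decide +kernel)
    (by decide +kernel) (by decide +kernel) (by decide +kernel)
    tab1_119N13 tab2_119N13 tab3_119N13 red1_119N13 red2_119N13
    red3_119N13 rok_119N13
    (ad_prime (by norm_num) (by norm_num) (by decide))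
    (ad_prime (by norm_num) (by norm_num) (by decide))
    ad_one
    (by decide +kernel) (by decide +kernel) (by decide +kernel) (by decide +kernel)
    (by decide +kernel) (by decide +kernel)

/-- relation -/
def r_119N5 : RD := ⟨nat_lit 17, nat_lit 7, nat_lit 1, nat_lit 5, t1_119N5, t2_119N5, t3_119N5,
  rows_119N5, nat_lit 21, nat_lit 1⟩

lemma k_119N5 : RDOK r_119N5 :=
  rd_of (h := 1) tok_119N5 comp17 comp7 comp1 ok17 ok7 ok1 rfl rfl rfl (by norm_num) (by norm_num)
    (by norm_num) (by norm_num) (by norm_num) (by decide +kernel) (by decide +kernel)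
    (by decide +kernel) (by decide +kernel) (by decide +kernel)
    tab1_119N5 tab2_119N5 tab3_119N5 red1_119N5 red2_119N5
    red3_119N5 rok_119N5
    (ad_prime (by norm_num) (by norm_num) (by decide))
    (ad_prime (by norm_num) (by norm_num) (by decide))
    ad_one
    (by decide +kernel) (by decide +kernel) (by decide +kernel) (by decide +kernel)
    (by decide +kernel) (by decide +kernel)

/-- relation -/
def r_133N13 : RD := ⟨nat_lit 19, nat_lit 7, nat_lit 1, nat_lit 13, t1_133N13, t2_133N13, t3_133N13,
  rows_133N13, nat_lit 21, nat_lit 1⟩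

lemma k_133N13 : RDOK r_133N13 :=
  rd_of (h := 1) tok_133N13 comp19 comp7 comp1 ok19 ok7 ok1 rfl rfl rfl (by norm_num) (by norm_num)
    (by norm_num) (by norm_num) (by norm_num) (by decide +kernel) (by decide +kernel)
    (by decide +kernel) (by decide +kernel) (by decide +kernel)
    tab1_133N13 tab2_133N13 tab3_133N13 red1_133N13 red2_133N13
    red3_133N13 rok_133N13
    (ad_prime (by norm_num) (by norm_num) (by decide))
    (ad_prime (by norm_num) (by norm_num) (by decide))
    ad_one
    (by decide +kernel) (by decide +kernel) (by decide +kernel) (by decide +kernel)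
    (by decide +kernel) (by decide +kernel)

/-- relation -/
def r_140N13 : RD := ⟨nat_lit 7, nat_lit 5, nat_lit 4, nat_lit 13, t1_140N13, t2_140N13, t3_140N13,
  rows_140N13, nat_lit 10, nat_lit 4⟩

lemma k_140N13 : RDOK r_140N13 :=
  rd_of (h := 1) tok_140N13 comp7 comp5 comp4 ok7 ok5 ok4 rfl rfl rfl (by norm_num) (by norm_num)
    (by norm_num) (by norm_num) (by norm_num) (by decide +kernel) (by decide +kernel)
    (by decide +kernel) (by decide +kernel) (by decide +kernel)
    tab1_140N13 tab2_140N13 tab3_140N13 red1_140N13 red2_140N13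
    red3_140N13 rok_140N13
    (ad_prime (by norm_num) (by norm_num) (by decide))
    (ad_prime (by norm_num) (by norm_num) (by decide))
    (ad_two (by norm_num))
    (by decide +kernel) (by decide +kernel) (by decide +kernel) (by decide +kernel)
    (by decide +kernel) (by decide +kernel)

/-- relation -/
def r_143N5 : RD := ⟨nat_lit 11, nat_lit 13, nat_lit 1, nat_lit 5, t1_143N5, t2_143N5, t3_143N5,
  rows_143N5, nat_lit 78, nat_lit 1⟩

lemma k_143N5 : RDOK r_143N5 :=
  rd_of (h := 1) tok_143N5 comp11 comp13 comp1 ok11 ok13 ok1 rfl rfl rfl (by norm_num) (by norm_num)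
    (by norm_num) (by norm_num) (by norm_num) (by decide +kernel) (by decide +kernel)
    (by decide +kernel) (by decide +kernel) (by decide +kernel)
    tab1_143N5 tab2_143N5 tab3_143N5 red1_143N5 red2_143N5
    red3_143N5 rok_143N5
    (ad_prime (by norm_num) (by norm_num) (by decide))
    (ad_prime (by norm_num) (by norm_num) (by decide))
    ad_one
    (by decide +kernel) (by decide +kernel) (by decide +kernel) (by decide +kernel)
    (by decide +kernel) (by decide +kernel)

/-- relation -/
def r_143N7 : RD := ⟨nat_lit 11, nat_lit 13, nat_lit 1, nat_lit 7, t1_143N7, t2_143N7, t3_143N7,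
  rows_143N7, nat_lit 78, nat_lit 1⟩

lemma k_143N7 : RDOK r_143N7 :=
  rd_of (h := 1) tok_143N7 comp11 comp13 comp1 ok11 ok13 ok1 rfl rfl rfl (by norm_num) (by norm_num)
    (by norm_num) (by norm_num) (by norm_num) (by decide +kernel) (by decide +kernel)
    (by decide +kernel) (by decide +kernel) (by decide +kernel)
    tab1_143N7 tab2_143N7 tab3_143N7 red1_143N7 red2_143N7
    red3_143N7 rok_143N7
    (ad_prime (by norm_num) (by norm_num) (by decide))
    (ad_prime (by norm_num) (by norm_num) (by decide))
    ad_one
    (by decide +kernel) (by decide +kernel) (by decide +kernel) (by decide +kernel)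
    (by decide +kernel) (by decide +kernel)

/-- relation -/
def r_152F19a : RD := ⟨nat_lit 19, nat_lit 8, nat_lit 1, nat_lit 19, t1_152F19a, t2_152F19a, t3_152F19a,
  rows_152F19a, nat_lit 16, nat_lit 1⟩

lemma k_152F19a : RDOK r_152F19a :=
  rd_of (h := 361) tok_152F19a comp19 comp8 comp1 ok19 ok8 ok1 rfl rfl rfl (by norm_num) (by norm_num)
    (by norm_num) (by norm_num) (by norm_num) (by decide +kernel) (by decide +kernel)
    (by decide +kernel) (by decide +kernel) (by decide +kernel)
    tab1_152F19a tab2_152F19a tab3_152F19a red1_152F19a red2_152F19a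
    red3_152F19a rok_152F19a
    (ad_prime (by norm_num) (by norm_num) (by decide))
    (ad_two (by norm_num))
    ad_one
    (by decide +kernel) (by decide +kernel) (by decide +kernel) (by decide +kernel)
    (by decide +kernel) (by decide +kernel)

/-- relation -/
def r_152F19b : RD := ⟨nat_lit 19, nat_lit 8, nat_lit 1, nat_lit 19, t1_152F19b, t2_152F19b, t3_152F19b,
  rows_152F19b, nat_lit 16, nat_lit 1⟩

lemma k_152F19b : RDOK r_152F19b :=
  rd_of (h := 361) tok_152F19b comp19 comp8 comp1 ok19 ok8 ok1 rfl rfl rfl (by norm_num) (by norm_num)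
    (by norm_num) (by norm_num) (by norm_num) (by decide +kernel) (by decide +kernel)
    (by decide +kernel) (by decide +kernel) (by decide +kernel)
    tab1_152F19b tab2_152F19b tab3_152F19b red1_152F19b red2_152F19b
    red3_152F19b rok_152F19b
    (ad_prime (by norm_num) (by norm_num) (by decide))
    (ad_two (by norm_num))
    ad_one
    (by decide +kernel) (by decide +kernel) (by decide +kernel) (by decide +kernel)
    (by decide +kernel) (by decide +kernel)

/-- relation -/
def r_187F17a : RD := ⟨nat_lit 17, nat_lit 11, nat_lit 1, nat_lit 17, t1_187F17a, t2_187F17a, t3_187F17a,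
  rows_187F17a, nat_lit 55, nat_lit 1⟩

lemma k_187F17a : RDOK r_187F17a :=
  rd_of (h := 289) tok_187F17a comp17 comp11 comp1 ok17 ok11 ok1 rfl rfl rfl (by norm_num) (by norm_num)
    (by norm_num) (by norm_num) (by norm_num) (by decide +kernel) (by decide +kernel)
    (by decide +kernel) (by decide +kernel) (by decide +kernel)
    tab1_187F17a tab2_187F17a tab3_187F17a red1_187F17a red2_187F17a
    red3_187F17a rok_187F17a
    (ad_prime (by norm_num) (by norm_num) (by decide))
    (ad_prime (by norm_num) (by norm_num) (by decide))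
    ad_one
    (by decide +kernel) (by decide +kernel) (by decide +kernel) (by decide +kernel)
    (by decide +kernel) (by decide +kernel)

/-- relation -/
def r_187F17b : RD := ⟨nat_lit 17, nat_lit 11, nat_lit 1, nat_lit 17, t1_187F17b, t2_187F17b, t3_187F17b,
  rows_187F17b, nat_lit 55, nat_lit 1⟩

lemma k_187F17b : RDOK r_187F17b :=
  rd_of (h := 289) tok_187F17b comp17 comp11 comp1 ok17 ok11 ok1 rfl rfl rfl (by norm_num) (by norm_num)
    (by norm_num) (by norm_num) (by norm_num) (by decide +kernel) (by decide +kernel)
    (by decide +kernel) (by decide +kernel) (by decide +kernel)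
    tab1_187F17b tab2_187F17b tab3_187F17b red1_187F17b red2_187F17b
    red3_187F17b rok_187F17b
    (ad_prime (by norm_num) (by norm_num) (by decide))
    (ad_prime (by norm_num) (by norm_num) (by decide))
    ad_one
    (by decide +kernel) (by decide +kernel) (by decide +kernel) (by decide +kernel)
    (by decide +kernel) (by decide +kernel)

/-- relation -/
def r_221N5 : RD := ⟨nat_lit 17, nat_lit 13, nat_lit 1, nat_lit 5, t1_221N5, t2_221N5, t3_221N5,
  rows_221N5, nat_lit 78, nat_lit 1⟩

lemma k_221N5 : RDOK r_221N5 :=
  rd_of (h := 1) tok_221N5 comp17 comp13 comp1 ok17 ok13 ok1 rfl rfl rfl (by norm_num) (by norm_num)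
    (by norm_num) (by norm_num) (by norm_num) (by decide +kernel) (by decide +kernel)
    (by decide +kernel) (by decide +kernel) (by decide +kernel)
    tab1_221N5 tab2_221N5 tab3_221N5 red1_221N5 red2_221N5
    red3_221N5 rok_221N5
    (ad_prime (by norm_num) (by norm_num) (by decide))
    (ad_prime (by norm_num) (by norm_num) (by decide))
    ad_one
    (by decide +kernel) (by decide +kernel) (by decide +kernel) (by decide +kernel)
    (by decide +kernel) (by decide +kernel)

/-- relation -/
def r_247F19a : RD := ⟨nat_lit 19, nat_lit 13, nat_lit 1, nat_lit 19, t1_247F19a, t2_247F19a, t3_247F19a,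
  rows_247F19a, nat_lit 78, nat_lit 1⟩

lemma k_247F19a : RDOK r_247F19a :=
  rd_of (h := 361) tok_247F19a comp19 comp13 comp1 ok19 ok13 ok1 rfl rfl rfl (by norm_num) (by norm_num)
    (by norm_num) (by norm_num) (by norm_num) (by decide +kernel) (by decide +kernel)
    (by decide +kernel) (by decide +kernel) (by decide +kernel)
    tab1_247F19a tab2_247F19a tab3_247F19a red1_247F19a red2_247F19a
    red3_247F19a rok_247F19a
    (ad_prime (by norm_num) (by norm_num) (by decide))
    (ad_prime (by norm_num) (by norm_num) (by decide))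
    ad_one
    (by decide +kernel) (by decide +kernel) (by decide +kernel) (by decide +kernel)
    (by decide +kernel) (by decide +kernel)

end Pool.Agent.LibH4.CW


end
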