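import Mathlib
import Pool.Agent.RQM.C12
import Pool.Agent.RQM.C40
import Pool.Agent.RQM.C41
import Pool.Agent.RQM.C51
import Pool.Agent.RQM.C52
import Pool.Agent.RQM.C53
import Pool.Agent.RQM.C64
import Pool.Agent.RQM.C66
import Pool.Agent.RQM.C67

/-! Parts: Lib_helper4.CW.Dfs, Lib_helper4.CW.Pass, Lib_helper4.CW.Run, Lib_helper4.CX.Vl, Lib_helper4.CX.Sy, Lib_helper4.CX.Rl, Lib_helper4.CX.Sd, Lib_helper4.CX.SdG0, Lib_helper4.CX.SdG1, Lib_helper4.CX.Qs, Lib_helper4.CX.Stg -/

namespace Pool.Agent.LibH4.CW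
end Pool.Agent.LibH4.CW
namespace Pool.Agent.LibH4.Ker
end Pool.Agent.LibH4.Ker
namespace Pool.Agent.Lib_helper5
end Pool.Agent.Lib_helper5
namespace Pool.Agent.Lib_helper5.LK
end Pool.Agent.Lib_helper5.LK
namespace Pool.Agent.Lib_helper5.TB
end Pool.Agent.Lib_helper5.TB

section

/-!
Constant words: soundness of the search.
-/

namespace Pool.Agent.LibH4.CW

open Pool.Agent.LibH4.Ker Pool.Agent.Lib_helper5.TB

/-- the environment is true -/
def TrueAt : List (ℕ → Prop) → ℕ → Prop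
  | [], _ => True
  | p :: ps, env => p (env % 256) ∧ TrueAt ps (env / 256)

lemma gt_eq (env j : ℕ) : gt env j = env / 2 ^ (8 * j) % 256 := by
  have e : gt env j = (env >>> (8 * j)) % 256 := rfl
  rw [e, Nat.shiftRight_eq_div_pow]

lemma TrueAt.get {ps : List (ℕ → Prop)} {env : ℕ} (h : TrueAt ps env) {j : ℕ} {p : ℕ → Prop}
    (hj : ps[j]? = some p) : p (gt env j) := by
  induction ps generalizing env j with
  | nil => simp at hj
  | cons q ps ih =>
    obtain ⟨h1, h2⟩ := h
    cases j with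
    | zero =>
      simp only [List.getElem?_cons_zero, Option.some.injEq] at hj
      subst hj
      rw [gt_eq, mul_zero, pow_zero, Nat.div_one]
      exact h1
    | succ j =>
      rw [List.getElem?_cons_succ] at hj
      have h3 := ih h2 hj
      rw [gt_eq] at h3 ⊢
      rw [Nat.div_div_eq_div_mul] at h3
      rw [show (2 : ℕ) ^ (8 * (j + 1)) = 256 * 2 ^ (8 * j) by rw [mul_add, pow_add]; ring]
      exact h3

lemma TrueAt.cons {ps : List (ℕ → Prop)} {env : ℕ} (h : TrueAt ps env) {o : ℕ} (ho : o < 256)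
    {p : ℕ → Prop} (hp : p o) : TrueAt (p :: ps) (o + 256 * env) := by
  refine ⟨?_, ?_⟩
  · rw [Nat.add_mul_mod_self_left, Nat.mod_eq_of_lt ho]; exact hp
  · rw [Nat.add_mul_div_left _ _ (by norm_num : 0 < 256), Nat.div_eq_of_lt ho, zero_add]; exact h

/-- period of a relation level -/
def XX (c X0 X1 : ℕ) : ℕ := @Bool.rec (fun _ => ℕ) X1 X0 (Nat.beq c (nat_lit 0))

/-- a true relation level -/
structure ROK (N : ℕ) (ps : List (ℕ → Prop)) (j1 j2 j3 jl n1 n3 L W l X0 X1 tab tl pl : ℕ) :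
    Prop where
  pX0 : 0 < X0
  pX1 : 0 < X1
  ck : ∀ env, TrueAt ps env → ∀ s,
    s = (tab >>> (W * ((gt env j2 * n3 + gt env j3) * n1 + gt env j1))) % 2 ^ W → ∀ K', 0 < K' →
    XX (d16 s L) X0 X1 ∣ K' →
    chk L l (d16 s L) s (tl >>> (32 * (pl * gt env jl))) pl (N % K') = true

/-- a true genus level -/
structure GOK (N : ℕ) (ps : List (ℕ → Prop)) (j pl tl : ℕ) : Prop where
  ppl : 0 < pl
  ck : ∀ env, TrueAt ps env → ∀ K', 0 < K' → pl ∣ K' →
    by3 (d32 (tl >>> (32 * (pl * gt env j))) (N % K' % pl)) = 3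

/-- true levels -/
inductive Valid (N : ℕ) : List (ℕ → Prop) → List Lv → Prop
  | nil (ps : List (ℕ → Prop)) : Valid N ps []
  | M {ps : List (ℕ → Prop)} {cnt : ℕ} {ls : List Lv} (p : ℕ → Prop) (o : ℕ) (ho : o < cnt)
      (ho2 : o < 256) (hp : p o) (h : Valid N (p :: ps) ls) : Valid N ps (Lv.M cnt :: ls)
  | R {ps : List (ℕ → Prop)} {j1 j2 j3 jl n1 n3 L W l X0 X1 tab tl pl : ℕ} {ls : List Lv}
      (hR : ROK N ps j1 j2 j3 jl n1 n3 L W l X0 X1 tab tl pl) (h : Valid N ps ls) :
      Valid N ps (Lv.R j1 j2 j3 jl n1 n3 L W l X0 X1 tab tl pl :: ls)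
  | G {ps : List (ℕ → Prop)} {j pl tl : ℕ} {ls : List Lv} (hG : GOK N ps j pl tl)
      (h : Valid N ps ls) : Valid N ps (Lv.G j pl tl :: ls)

lemma lift_spec {N X n K : ℕ} {p : ℕ → Bool} {ih : ℕ → ℕ → Bool} (h : lift X n K p ih = true)
    (hK : 0 < K) (hX : 0 < X) (hn : N % K = n) :
    ∃ K', 0 < K' ∧ X ∣ K' ∧ (p (N % K') = true → ih (N % K') K' = true) := by
  have hg : 0 < Nat.gcd K X := Nat.gcd_pos_of_pos_left _ hK
  set q := X / Nat.gcd K X with hq
  have hq0 : 0 < q := Nat.div_pos (Nat.le_of_dvd hX (Nat.gcd_dvd_right _ _)) hg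
  have h1 : allR (fun t => br (p (n + K * t)) (ih (n + K * t) (K * q))) q = true := h
  have h2 := allR_spec h1 (N / K % q) (Nat.mod_lt _ hq0)
  have e : n + K * (N / K % q) = N % (K * q) := by rw [Nat.mod_mul, hn]
  simp only [e] at h2
  refine ⟨K * q, Nat.mul_pos hK hq0, ?_, fun hp => br_spec h2 hp⟩
  rw [hq, ← Nat.mul_div_assoc _ (Nat.gcd_dvd_right _ _)]
  exact Nat.dvd_lcm_right K X

/-- **soundness of the search** -/
theorem dfs_sound {N : ℕ} {ls : List Lv} {ps : List (ℕ → Prop)} (h : Valid N ps ls) :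
    ∀ env n K, TrueAt ps env → 0 < K → N % K = n → dfs ls env n K = true → False := by
  induction h with
  | nil ps =>
    intro env n K _ _ _ hd
    exact absurd hd (by simp [dfs])
  | M p o ho ho2 hp _ ih =>
    intro env n K ht hK hn hd
    have h1 := allR_spec hd o ho
    exact ih (o + 256 * env) n K (ht.cons ho2 hp) hK hn h1
  | @R ps j1 j2 j3 jl n1 n3 L W l X0 X1 tab tl pl ls hR _ ih =>
    intro env n K ht hK hn hd
    set s := (tab >>> (W * ((gt env j2 * n3 + gt env j3) * n1 + gt env j1))) % 2 ^ W with hs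
    have h1 : lift (XX (d16 s L) X0 X1) n K
      (chk L l (d16 s L) s (tl >>> (32 * (pl * gt env jl))) pl) (dfs ls env) = true := hd
    have hX : 0 < XX (d16 s L) X0 X1 := by
      unfold XX
      cases Nat.beq (d16 s L) (nat_lit 0) with
      | true => exact hR.pX0
      | false => exact hR.pX1
    obtain ⟨K', k1, k2, k3⟩ := lift_spec h1 hK hX hn
    exact ih env (N % K') K' ht k1 rfl (k3 (hR.ck env ht s hs K' k1 k2))
  | @G ps j pl tl ls hG _ ih =>
    intro env n K ht hK hn hd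
    have h1 : lift pl n K (fun n => Nat.beq (by3 (d32 (tl >>> (32 * (pl * gt env j)))
      (Nat.mod n pl))) (nat_lit 3)) (dfs ls env) = true := hd
    obtain ⟨K', k1, k2, k3⟩ := lift_spec h1 hK hG.ppl hn
    refine ih env (N % K') K' ht k1 rfl (k3 ?_)
    have := hG.ck env ht K' k1 k2
    change Nat.beq (by3 (d32 (tl >>> (32 * (pl * gt env j))) (N % K' % pl))) 3 = true
    rw [this]
    rfl

end Pool.Agent.LibH4.CW


end

section

/-!
Constant words: the levels of the search are true.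
-/

namespace Pool.Agent.LibH4.CW

open Finset Pool.Agent.Lib_helper5 Pool.Agent.Lib_helper5.LK Pool.Agent.LibH4.Ker
  Pool.Agent.LibH4.KF Pool.Agent.LibH4.T6 Pool.Agent.Lib_helper5.TB Pool.Agent.LibH4.S7

lemma per_dvd {n a pi L : ℕ} {x : ℕ × ℕ} (h : ∀ i, hs n a x (i + pi) = hs n a x i)
    (hd : pi ∣ L) (i : ℕ) : hs n a x (i % L) = hs n a x i := by
  rw [← hs_mod h (i % L), Nat.mod_mod_of_dvd _ hd, hs_mod h]

lemma sum_per {l L : ℕ} (f : ℕ → ZMod l) (hf : ∀ i, f (i % L) = f i) (N : ℕ) :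
    ∑ j ∈ range N, f j = ∑ j ∈ range (N % L), f j + (N / L : ℕ) * ∑ j ∈ range L, f j := by
  have key : ∀ q r, ∑ j ∈ range (r + L * q), f j = ∑ j ∈ range r, f j +
      (q : ZMod l) * ∑ j ∈ range L, f j := by
    intro q
    induction q with
    | zero => intro r; simp
    | succ q ih =>
      intro r
      rw [show r + L * (q + 1) = L + (r + L * q) by ring, Finset.sum_range_add]
      have : ∑ x ∈ range (r + L * q), f (L + x) = ∑ x ∈ range (r + L * q), f x := by
        apply Finset.sum_congr rfl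
        intro x _
        rw [← hf (L + x), Nat.add_mod_left, hf]
      rw [this, ih r]
      push_cast
      ring
  conv_lhs => rw [← Nat.mod_add_div N L]
  exact key _ _

lemma chk_true {l L s : ℕ} [NeZero l] {X Y : ℕ → ZMod l} {k0 k1 a2 : ZMod l}
    (h : StrOK l L s X Y k0 k1 a2) (hL : 0 < L) (hX : ∀ i, X (i % L) = X i)
    (hY : ∀ i, Y (i % L) = Y i) {bs pl B N K' : ℕ}
    (hB : by2 (d32 bs (N % K' % pl)) = B) (hBl : B ≤ l) (hLK : L ∣ K')
    (hc : d16 s L ≠ 0 → l * L ∣ K')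
    (hrel : k0 * X 0 + k1 * Y 0 + ∑ j ∈ range N, (6 * X j + a2 * Y j) + 6 * X N -
      (B : ZMod l) * Y N = 0) :
    chk L l (d16 s L) s bs pl (N % K') = true := by
  have hmod : N % K' % L = N % L := Nat.mod_mod_of_dvd _ hLK
  have hi : N % L < L := Nat.mod_lt _ hL
  have t := h.tT (N % L) hi
  have y := h.tY (N % L) hi
  have c := h.c
  rw [← d16_eq] at t y c
  have hch : chk L l (d16 s L) s bs pl (N % K') = Nat.beq ((d16 s (N % K' % L) % 256 +
      (N % K' / L * d16 s L + (l - by2 (d32 bs (N % K' % pl))) * (d16 s (N % K' % L) >>> 8))) % l)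
        0 := rfl
  rw [hch, hB, hmod]
  have hz : ((d16 s (N % L) % 256 + (N % K' / L * d16 s L + (l - B) * (d16 s (N % L) >>> 8)) :
      ℕ) : ZMod l) = 0 := by
    rw [Nat.cast_add, Nat.cast_add, Nat.cast_mul, Nat.cast_mul, t, y, Nat.cast_sub hBl,
      ZMod.natCast_self, hX, hY]
    have hjc : ((N % K' / L : ℕ) : ZMod l) * ((d16 s L : ℕ) : ZMod l) =
        ((N / L : ℕ) : ZMod l) * ((d16 s L : ℕ) : ZMod l) := by
      by_cases h0 : d16 s L = 0
      · rw [h0]; push_cast; ring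
      · obtain ⟨k, hk⟩ := hc h0
        congr 1
        have e : N / L = N % K' / L + l * (k * (N / K')) := by
          conv_lhs => rw [← Nat.mod_add_div N K', hk,
            show l * L * k * (N / (l * L * k)) = L * (l * (k * (N / (l * L * k)))) by ring,
            Nat.add_mul_div_left _ _ hL]
          rw [← hk]
        rw [e, Nat.cast_add, Nat.cast_mul, ZMod.natCast_self]
        ring
    rw [hjc, c]
    have hs := sum_per (l := l) (L := L) (fun j => 6 * X j + a2 * Y j)
      (fun i => by simp only [hX, hY]) N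
    rw [hs] at hrel
    linear_combination hrel
  rw [(ZMod.natCast_eq_zero_iff _ _).1 hz |> Nat.dvd_iff_mod_eq_zero.1]
  rfl

/-- the ordinal of the true first state -/
def PC (par : Bool) (a : ℕ) (e : ℕ → ℤ × ℤ × ℤ) (c : Cmp) (o : ℕ) : Prop :=
  ∃ x, (c.F.filter (stc par c.n a))[o]? = some x ∧ TS par a e c x

/-- contexts -/
inductive Lk (par : Bool) (a : ℕ) (e : ℕ → ℤ × ℤ × ℤ) : List CC → List (ℕ → Prop) → Prop
  | nil : Lk par a e [] []
  | cons {cc : CC} {ctx : List CC} {ps : List (ℕ → Prop)} (c : Cmp) (h1 : CCOK par a c cc)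
      (h2 : CmpOK c) (h : Lk par a e ctx ps) : Lk par a e (cc :: ctx) (PC par a e c :: ps)

section

variable {par : Bool} {a N : ℕ} {e : ℕ → ℤ × ℤ × ℤ}

lemma Lk.get {ctx : List CC} {ps : List (ℕ → Prop)} (h : Lk par a e ctx ps) {j : ℕ} {cc : CC}
    (hj : ctx[j]? = some cc) : ∃ c, CCOK par a c cc ∧ CmpOK c ∧ ps[j]? = some (PC par a e c) := by
  induction h generalizing j with
  | nil => simp at hj
  | @cons cc' ctx ps c h1 h2 h ih =>
    cases j with
    | zero =>
      simp only [List.getElem?_cons_zero, Option.some.injEq] at hj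
      subst hj
      exact ⟨c, h1, h2, rfl⟩
    | succ j =>
      rw [List.getElem?_cons_succ] at hj
      obtain ⟨c', a1, a2, a3⟩ := ih hj
      exact ⟨c', a1, a2, by rw [List.getElem?_cons_succ]; exact a3⟩

lemma d32_shift (A k i : ℕ) : d32 (A >>> (32 * k)) i = (A >>> (32 * (k + i))) % 2 ^ 32 := by
  rw [d32_eq, ← Nat.shiftRight_add, ← mul_add]

/-- the entry of the last state -/
lemma ent_last {c : Cmp} {cc : CC} (h1 : CCOK par a c cc) {o : ℕ} {x : ℕ × ℕ}
    (hx : (c.F.filter (stc par c.n a))[o]? = some x) {K' : ℕ} (hK : cc.pi ∣ K') :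
    d32 (cc.tab >>> (32 * (cc.pi * o))) (N % K' % cc.pi) = hE c.n c.ex c.PT a x N := by
  rw [d32_shift, Nat.mod_mod_of_dvd _ hK, h1.tab o x _ hx (Nat.mod_lt _ h1.pi),
    hE_mod (h1.per o x hx)]

/-- **relation levels** -/
theorem rok_of (W : World par a e N) {r : RD} (hr : RDOK r) {ps : List (ℕ → Prop)}
    {d1 d2 d3 dl : CC} {c1 c2 c3 cl : Cmp} (h1 : CCOK par a c1 d1) (h2 : CCOK par a c2 d2)
    (h3 : CCOK par a c3 d3) (hl : CCOK par a cl dl) (k1 : CmpOK c1) (k2 : CmpOK c2)
    (k3 : CmpOK c3) (kl : CmpOK cl) (e1 : d1.n = r.n1) (e2 : d2.n = r.n2) (e3 : d3.n = r.n3)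
    (el : dl.n = r.l) {j1 j2 j3 jl : ℕ} (q1 : ps[j1]? = some (PC par a e c1))
    (q2 : ps[j2]? = some (PC par a e c2)) (q3 : ps[j3]? = some (PC par a e c3))
    (ql : ps[jl]? = some (PC par a e cl)) (L : ℕ) (hL : L = lcmS d1.pi (lcmS d2.pi d3.pi)) :
    ROK N ps j1 j2 j3 jl d1.cnt d3.cnt L (16 * (L + 1)) r.l (lcmS L dl.pi) (r.l * lcmS L dl.pi)
      (tabR r (neg r.l (2 * a)) (kk0 par r.l) (kk1 par a) L d1 d2 d3) dl.tab dl.pi := by
  have f1 : c1 = cof r.n1 := by have := k1.eq; rwa [← h1.n, e1] at this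
  have f2 : c2 = cof r.n2 := by have := k2.eq; rwa [← h2.n, e2] at this
  have f3 : c3 = cof r.n3 := by have := k3.eq; rwa [← h3.n, e3] at this
  have fl : cl.n = r.l := by rw [← hl.n, el]
  subst f1 f2 f3
  have hl0 := hr.l0
  have : NeZero r.l := ⟨hl0.ne'⟩
  have pi1 := h1.pi
  have pi2 := h2.pi
  have pi3 := h3.pi
  have pil := hl.pi
  rw [lcmS_eq, lcmS_eq] at hL
  have hLpos : 0 < L := by
    rw [hL]; exact Nat.lcm_pos pi1 (Nat.lcm_pos pi2 pi3)
  have d1L : d1.pi ∣ L := by rw [hL]; exact Nat.dvd_lcm_left _ _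
  have d2L : d2.pi ∣ L := by rw [hL]; exact (Nat.dvd_lcm_left _ _).trans (Nat.dvd_lcm_right _ _)
  have d3L : d3.pi ∣ L := by rw [hL]; exact (Nat.dvd_lcm_right _ _).trans (Nat.dvd_lcm_right _ _)
  rw [lcmS_eq]
  have hX0 : 0 < Nat.lcm L dl.pi := Nat.lcm_pos hLpos pil
  refine ⟨hX0, Nat.mul_pos hl0 hX0, ?_⟩
  intro env ht s hsd K' hK hXX
  obtain ⟨x1, g1, T1⟩ := ht.get q1
  obtain ⟨x2, g2, T2⟩ := ht.get q2
  obtain ⟨x3, g3, T3⟩ := ht.get q3
  obtain ⟨xl, gl, Tl⟩ := ht.get ql
  have st := tabR_spec r h1 h2 h3 hr.k1.toCmpB hr.k2.toCmpB hr.k3.toCmpB hl0 hr.l256 hr.len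
    (neg r.l (2 * a)) (kk0 par r.l) (kk1 par a) g1 g2 g3
    (fun i => by rw [hr.lr]; exact (T1.props W hr.k1 i).1)
    (fun i => by rw [hr.l2]; exact (T2.props W hr.k2 i).1)
    (fun i => by rw [hr.l3]; exact (T3.props W hr.k3 i).1) L hLpos d1L
  rw [← hsd] at st
  have hXd : Nat.lcm L dl.pi ∣ K' := by
    unfold XX at hXX
    cases hb : Nat.beq (d16 s L) (nat_lit 0) with
    | true => rw [hb] at hXX; exact hXX
    | false => rw [hb] at hXX; exact (Dvd.intro_left _ rfl).trans hXX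
  have hLK : L ∣ K' := (Nat.dvd_lcm_left _ _).trans hXd
  have hpK : dl.pi ∣ K' := (Nat.dvd_lcm_right _ _).trans hXd
  have hB := ent_last (N := N) hl gl hpK
  have hbl := (kl.F xl (List.mem_filter.1 (List.mem_of_getElem? gl)).1).1
  have hbd := Bd_hs (a := a) kl.pos hbl N
  have hle : cl.n ≤ 256 := by have := kl.le; omega
  have hBv : by2 (d32 (dl.tab >>> (32 * (dl.pi * gt env jl))) (N % K' % dl.pi)) =
      (hs cl.n a xl N).2.1 * iv cl.n cl.ex (hs cl.n a xl N).2.2 % cl.n := by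
    rw [hB]
    unfold hE
    exact ent_by2 kl.pos hle hbd.1
  have hlast := (Tl.last W kl).1
  rw [fl] at hlast
  have P1 : ∀ i, hs (cof r.n1).n a x1 (i % L) = hs (cof r.n1).n a x1 i :=
    per_dvd (h1.per _ _ g1) d1L
  have P2 : ∀ i, hs (cof r.n2).n a x2 (i % L) = hs (cof r.n2).n a x2 i :=
    per_dvd (h2.per _ _ g2) d2L
  have P3 : ∀ i, hs (cof r.n3).n a x3 (i % L) = hs (cof r.n3).n a x3 i :=
    per_dvd (h3.per _ _ g3) d3L
  refine chk_true st hLpos ?_ ?_ (B := (hs cl.n a xl N).2.1 *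
    iv cl.n cl.ex (hs cl.n a xl N).2.2 % cl.n) hBv ?_ hLK ?_ ?_
  · intro i
    simp only [Xh, wh, pp, P1, P2, P3]
  · intro i
    simp only [Yh, wh, pp, P1, P2, P3]
  · rw [← fl]; exact (Nat.mod_lt _ kl.pos).le
  · intro h0
    have hb : Nat.beq (d16 s L) (nat_lit 0) = false := by
      cases hb : Nat.beq (d16 s L) (nat_lit 0) with
      | true => exact absurd (Nat.eq_of_beq_eq_true hb) h0
      | false => rfl
    unfold XX at hXX
    rw [hb] at hXX
    exact (Nat.mul_dvd_mul_left _ (Nat.dvd_lcm_left _ _)).trans hXX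
  · have := rel_hat W hr T1 T2 T3 _ _ rfl rfl
    rw [fl, hlast]
    exact this

/-- genus levels -/
theorem gok_of (W : World par a e N) (hpar : par = true) {ps : List (ℕ → Prop)} {d : CC} {c : Cmp}
    (h : CCOK par a c d) (k : CmpOK c) (hn : d.n = 4) {j : ℕ} (q : ps[j]? = some (PC par a e c)) :
    GOK N ps j d.pi d.tab := by
  refine ⟨h.pi, ?_⟩
  intro env ht K' hK hd
  obtain ⟨x, g, T⟩ := ht.get q
  have hB := ent_last (N := N) h g hd
  have hb := (k.F x (List.mem_filter.1 (List.mem_of_getElem? g)).1).1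
  have hbd := Bd_hs (a := a) k.pos hb N
  have hle : c.n ≤ 256 := by have := k.le; omega
  rw [hB]
  unfold hE
  rw [ent_by3 k.pos hle hbd.1]
  have hlast := (T.last W k).2
  have hg := W.gen hpar
  have h4 : c.n = 4 := by rw [← h.n, hn]
  rw [h4] at hlast ⊢
  set v := (4 - x.2) % 4 * iv 4 c.ex (hs 4 a x N).2.2 % 4 with hv
  have hv4 : v < 4 := Nat.mod_lt _ (by norm_num)
  have h5 : ((v : ℤ) : ZMod 4) = (((e 0).2.2 : ℤ) : ZMod 4) := by
    rw [← hlast]; push_cast; rfl
  have h6 := (ZMod.intCast_eq_intCast_iff' _ _ 4).1 h5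
  push_cast at h6
  omega

end

end Pool.Agent.LibH4.CW


end

section

/-!
Constant words: soundness of the elimination.
-/

namespace Pool.Agent.LibH4.CW

open Finset Pool.Agent.Lib_helper5 Pool.Agent.Lib_helper5.LK Pool.Agent.LibH4.Ker
  Pool.Agent.LibH4.KF Pool.Agent.LibH4.T6 Pool.Agent.Lib_helper5.TB Pool.Agent.LibH4.S7

variable {par : Bool} {a N : ℕ} {e : ℕ → ℤ × ℤ × ℤ}

/-- relation levels -/
lemma mkR_spec (W : World par a e N) {r : RD} (hr : RDOK r) {ctx : List CC} {ps : List (ℕ → Prop)}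
    (hc : Lk par a e ctx ps) {j1 j2 j3 jl : ℕ} {d1 d2 d3 dl : CC} (g1 : ctx[j1]? = some d1)
    (g2 : ctx[j2]? = some d2) (g3 : ctx[j3]? = some d3) (gl : ctx[jl]? = some dl)
    {k : Lv → Bool} (h : mkR par a r j1 j2 j3 jl d1 d2 d3 dl k = true) :
    ∃ v, (∀ ls, Valid N ps ls → Valid N ps (v :: ls)) ∧ k v = true := by
  obtain ⟨h1, h2⟩ := andB_spec h
  obtain ⟨e1, h1⟩ := andB_spec h1
  obtain ⟨e2, h1⟩ := andB_spec h1
  obtain ⟨e3, e4⟩ := andB_spec h1
  simp only [strict_eq] at h2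
  obtain ⟨c1, a1, b1, q1⟩ := hc.get g1
  obtain ⟨c2, a2, b2, q2⟩ := hc.get g2
  obtain ⟨c3, a3, b3, q3⟩ := hc.get g3
  obtain ⟨cl, al, bl, ql⟩ := hc.get gl
  refine ⟨_, fun ls hv => ?_, h2⟩
  exact Valid.R (rok_of W hr a1 a2 a3 al b1 b2 b3 bl (Nat.eq_of_beq_eq_true e1)
    (Nat.eq_of_beq_eq_true e2) (Nat.eq_of_beq_eq_true e3) (Nat.eq_of_beq_eq_true e4) q1 q2 q3 ql
    _ rfl) hv

/-- compilation of a chain -/
theorem run_spec (W : World par a e N) {cl : List Cmp} (hcl : ∀ c ∈ cl, CmpOK c) {rl : List RD}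
    (hrl : ∀ r ∈ rl, RDOK r) (chs : List Ch) : ∀ (ctx : List CC) (ps : List (ℕ → Prop))
    (k : List Lv → Bool), Lk par a e ctx ps → run par a cl rl chs ctx k = true →
    ∃ ls, Valid N ps ls ∧ k ls = true := by
  induction chs with
  | nil => intro ctx ps k _ h; exact ⟨[], Valid.nil ps, h⟩
  | cons h chs ih =>
    intro ctx ps k hc hk
    cases h with
    | M c pi =>
      obtain ⟨c', g, h1⟩ := nthK_spec hk
      have hok := hcl c' (List.mem_of_getElem? g)
      obtain ⟨cc, h2, h3⟩ := mkC_spec hok.toCmpB h1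
      obtain ⟨ls, v, hl⟩ := ih _ _ _ (Lk.cons c' h2 hok hc) h3
      obtain ⟨x, T⟩ := W.exists_ts hok
      obtain ⟨o, ho⟩ := List.mem_iff_getElem?.1 T.mem
      have ho1 : o < cc.cnt := by
        rw [h2.cnt]; exact (List.getElem?_eq_some_iff.1 ho).1
      have ho2 : o < 256 := by
        have h4 := (List.getElem?_eq_some_iff.1 ho).1
        have h5 := List.length_filter_le (stc par c'.n a) c'.F
        have h6 := hok.len
        omega
      exact ⟨_, Valid.M (PC par a e c') o ho1 ho2 ⟨x, ho, T⟩ v, hl⟩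
    | R r j1 j2 j3 jl =>
      obtain ⟨r', g, h1⟩ := nthK_spec hk
      obtain ⟨d1, g1, h1⟩ := nthK_spec h1
      obtain ⟨d2, g2, h1⟩ := nthK_spec h1
      obtain ⟨d3, g3, h1⟩ := nthK_spec h1
      obtain ⟨dl, gl, h1⟩ := nthK_spec h1
      obtain ⟨v, hv, h2⟩ := mkR_spec W (hrl r' (List.mem_of_getElem? g)) hc g1 g2 g3 gl h1
      obtain ⟨ls, w, hl⟩ := ih _ _ _ hc h2
      exact ⟨_, hv ls w, hl⟩
    | G j =>
      obtain ⟨d, g, h1⟩ := nthK_spec hk
      obtain ⟨h2, h1⟩ := andB_spec h1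
      obtain ⟨h3, h1⟩ := andB_spec h1
      obtain ⟨ls, w, hl⟩ := ih _ _ _ hc h1
      obtain ⟨c, a1, b1, q1⟩ := hc.get g
      exact ⟨_, Valid.G (gok_of W h3 a1 b1 (Nat.eq_of_beq_eq_true h2) q1) w, hl⟩

/-- **soundness of the elimination** -/
theorem elim_spec {cl : List Cmp} (hcl : ∀ c ∈ cl, CmpOK c) {rl : List RD}
    (hrl : ∀ r ∈ rl, RDOK r) {chs : List Ch} (h : elim par a cl rl chs = true) :
    ¬ World par a e N := by
  intro W
  obtain ⟨ls, v, hl⟩ := run_spec W hcl hrl chs [] [] _ Lk.nil h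
  exact dfs_sound v 0 0 1 trivial one_pos (Nat.mod_one N) hl

end Pool.Agent.LibH4.CW


end

section

/-!
Constant words, all letters at once: values of a relation.
-/

namespace Pool.Agent.LibH4.CX

open Finset Pool.Agent.LibH4.Ker Pool.Agent.Lib_helper5.TB Pool.Agent.LibH4.CW

lemma land_eq (x F : ℕ) : Nat.land x (2 ^ F - 1) = x % 2 ^ F := Nat.and_two_pow_sub_one_eq_mod x F

/-- the string of a relation -/
structure SOK (F L S : ℕ) (X Y : ℕ → ℕ) (B : ℕ) : Prop where
  eq : S = ofD (2 * F) (fun i => X i + 2 ^ F * Y i) L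
  bX : ∀ i < L, X i ≤ B
  bY : ∀ i < L, Y i ≤ B

/-- partial sum -/
def ES (X : ℕ → ℕ) (m : ℕ) : ℕ := ∑ i ∈ range m, X i

lemma ES_succ (X : ℕ → ℕ) (m : ℕ) : ES X (m + 1) = ES X m + X m := Finset.sum_range_succ _ _

lemma ES_le {X : ℕ → ℕ} {L B m : ℕ} (h : ∀ i < L, X i ≤ B) (hm : m ≤ L) : ES X m ≤ L * B := by
  have : ES X m ≤ m * B := by
    unfold ES
    calc ∑ i ∈ range m, X i ≤ ∑ _i ∈ range m, B :=
        Finset.sum_le_sum fun i hi => h i (by have := Finset.mem_range.1 hi; omega)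
      _ = m * B := by simp
  exact this.trans (Nat.mul_le_mul_right _ hm)

lemma two_field {F u v : ℕ} (hu : u < 2 ^ F) (hv : v < 2 ^ F) :
    u + 2 ^ F * v < 2 ^ (2 * F) := by
  rw [two_mul, pow_add]
  calc u + 2 ^ F * v < 2 ^ F + 2 ^ F * v := by omega
    _ = 2 ^ F * (v + 1) := by ring
    _ ≤ 2 ^ F * 2 ^ F := Nat.mul_le_mul_left _ hv

/-- second field of a digit -/
lemma field1 {F L n c : ℕ} {u v : ℕ → ℕ} (hu : ∀ i < L, u i < 2 ^ F) (hv : ∀ i < L, v i < 2 ^ F)
    (hn : n < L) : ((ofD (2 * F) (fun i => u i + 2 ^ F * v i) L + 2 ^ (2 * F * L) * c) >>>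
      (F + 2 * F * n)) % 2 ^ F = v n := by
  set W := ofD (2 * F) (fun i => u i + 2 ^ F * v i) L + 2 ^ (2 * F * L) * c with hW
  have hb : ∀ i < L, u i + 2 ^ F * v i < 2 ^ (2 * F) := fun i hi => two_field (hu i hi) (hv i hi)
  have h1 : W % 2 ^ (2 * F * L) = ofD (2 * F) (fun i => u i + 2 ^ F * v i) L :=
    CW.add_mod _ _ _ (ofD_lt hb)
  have h2 : (W >>> (2 * F * n)) % 2 ^ (2 * F) = u n + 2 ^ F * v n := by
    rw [← shr_mod W (2 * F * L) (2 * F * n) (2 * F) (by nlinarith), h1]
    exact ofD_dig hb hn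
  rw [add_comm F, Nat.shiftRight_add, ← shr_mod _ (2 * F) F F (by omega), h2,
    add_shr _ _ _ (hu n hn), Nat.mod_eq_of_lt (hv n hn)]

section

variable {F L S B : ℕ} {X Y : ℕ → ℕ}

lemma pair_add {W : ℕ} (F : ℕ) (u v u' v' : ℕ → ℕ) (L : ℕ) :
    ofD W (fun i => u i + 2 ^ F * v i) L + ofD W (fun i => u' i + 2 ^ F * v' i) L =
      ofD W (fun i => (u i + u' i) + 2 ^ F * (v i + v' i)) L := by
  unfold ofD
  rw [← Finset.sum_add_distrib]
  apply Finset.sum_congr rfl
  intro i _
  ring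

lemma pair_mul {W : ℕ} (F : ℕ) (u v : ℕ → ℕ) (L b : ℕ) :
    ofD W (fun i => u i + 2 ^ F * v i) L * b = ofD W (fun i => b * u i + 2 ^ F * (b * v i)) L := by
  unfold ofD
  rw [Finset.sum_mul]
  apply Finset.sum_congr rfl
  intro i _
  ring

lemma R_eq (F : ℕ) (X Y : ℕ → ℕ) (al L : ℕ) :
    ofD (2 * F) (fun m => ES X (m + 1) + 2 ^ F * ES Y (m + 1)) L * (al + 6 * 2 ^ F) =
      ofD (2 * F) (fun m => (al * ES X (m + 1) + 6 * ES Y m) +
        2 ^ F * (al * ES Y (m + 1) + 6 * ES X (m + 1))) L + 2 ^ (2 * F * L) * (6 * ES Y L) := by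
  induction L with
  | zero => simp [ofD, ES]
  | succ L ih =>
    rw [ofD_succ, ofD_succ, add_mul, ih, mul_add (2 * F) L 1, mul_one, pow_add, two_mul F, pow_add]
    ring

lemma prS_eq (hF : 0 < F) (h : SOK F L S X Y B) (hb : L * B < 2 ^ F) :
    prS F L S = ofD (2 * F) (fun m => ES X (m + 1) + 2 ^ F * ES Y (m + 1)) L := by
  have e : prS F L S = S * rep (2 * F) L % 2 ^ (2 * F * L) := rfl
  have hsum : ∀ m, ∑ i ∈ range (m + 1), (X i + 2 ^ F * Y i) = ES X (m + 1) + 2 ^ F * ES Y (m + 1) := by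
    intro m
    unfold ES
    rw [Finset.sum_add_distrib, Finset.mul_sum]
  rw [e, h.eq, prS_aux (by omega)]
  · apply ofD_congr
    intro m _
    exact hsum m
  · intro m hm
    rw [hsum]
    exact two_field (lt_of_le_of_lt (ES_le h.bX (by omega)) hb)
      (lt_of_le_of_lt (ES_le h.bY (by omega)) hb)

/-- the value of a relation -/
lemma val_eq (hF : 0 < F) (h : SOK F L S X Y B) {al be ka : ℕ}
    (hb : (al + 6) * (L * B) + be * B + ka < 2 ^ F) {n : ℕ} (hn : n < L) :
    ((prS F L S * (al + 6 * 2 ^ F) + ka * (2 ^ F * rep (2 * F) L) + S * be) >>>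
      (F + 2 * F * n)) % 2 ^ F = (6 * ES X (n + 1) + al * ES Y (n + 1)) + ka + be * Y n := by
  have hb1 : L * B < 2 ^ F := by
    have := Nat.le_mul_of_pos_left (L * B) (show 0 < al + 6 by omega)
    omega
  have e1 : ka * (2 ^ F * rep (2 * F) L) = ofD (2 * F) (fun _ => 0 + 2 ^ F * ka) L := by
    rw [rep_eq (by omega)]
    unfold ofD
    rw [Finset.mul_sum, Finset.mul_sum]
    apply Finset.sum_congr rfl
    intro i _
    ring
  rw [prS_eq hF h hb1, R_eq, e1, h.eq, pair_mul]
  have e2 : ∀ A c B' C' : ℕ, A + c + B' + C' = A + B' + C' + c := by intro A c B' C'; ring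
  rw [e2, pair_add, pair_add]
  have hES : ∀ m, m ≤ L → ES X m ≤ L * B := fun m hm => ES_le h.bX hm
  have hES' : ∀ m, m ≤ L → ES Y m ≤ L * B := fun m hm => ES_le h.bY hm
  rw [field1 _ _ hn]
  · ring
  · intro i hi
    have h1 := hES (i + 1) (by omega)
    have h2 := hES' i (by omega)
    have h3 := h.bX i hi
    have h4 : al * ES X (i + 1) ≤ al * (L * B) := Nat.mul_le_mul_left _ h1
    have h5 : be * X i ≤ be * B := Nat.mul_le_mul_left _ h3
    have h6 : (al + 6) * (L * B) = al * (L * B) + 6 * (L * B) := by ring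
    omega
  · intro i hi
    have h1 := hES (i + 1) (by omega)
    have h2 := hES' (i + 1) (by omega)
    have h3 := h.bY i hi
    have h4 : al * ES Y (i + 1) ≤ al * (L * B) := Nat.mul_le_mul_left _ h2
    have h5 : be * Y i ≤ be * B := Nat.mul_le_mul_left _ h3
    have h6 : (al + 6) * (L * B) = al * (L * B) + 6 * (L * B) := by ring
    omega

/-- first fields -/
lemma fst_eq (h : SOK F L S X Y B) (hB : B < 2 ^ F) (hL : 0 < L) :
    S % 2 ^ F = X 0 ∧ (S >>> F) % 2 ^ F = Y 0 := by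
  obtain ⟨M, rfl⟩ : ∃ M, L = M + 1 := ⟨L - 1, by omega⟩
  have hx := lt_of_le_of_lt (h.bX 0 hL) hB
  have hy := lt_of_le_of_lt (h.bY 0 hL) hB
  have e : S = X 0 + 2 ^ F * (Y 0 + 2 ^ F * ofD (2 * F) (fun i => X (i + 1) + 2 ^ F * Y (i + 1)) M) := by
    rw [h.eq, ofD_cons, two_mul F, pow_add]
    ring
  constructor
  · rw [e, CW.add_mod _ _ _ hx]
  · rw [e, add_shr _ _ _ hx, CW.add_mod _ _ _ hy]

end

/-- value of a relation at a number -/
def VF (l al be ka c L : ℕ) (X Y : ℕ → ℕ) (n : ℕ) : ℕ :=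
  ((6 * ES X (n % L + 1) + al * ES Y (n % L + 1)) + ka + be * Y (n % L) + n / L * c) % l

end Pool.Agent.LibH4.CX


end

section

/-!
Constant words, all letters at once: strings of three components.
-/

namespace Pool.Agent.LibH4.CX

open Finset Pool.Agent.Lib_helper5 Pool.Agent.Lib_helper5.LK Pool.Agent.LibH4.Ker
  Pool.Agent.LibH4.KF Pool.Agent.LibH4.T6 Pool.Agent.Lib_helper5.TB Pool.Agent.LibH4.S7
  Pool.Agent.LibH4.CW

/-! ### fields -/

lemma nest (F : ℕ) (x y : ℕ → ℕ) (L : ℕ) : ofD (2 * F) (fun i => x i + 2 ^ F * y i) L =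
    ofD F (fun m => if m % 2 = 0 then x (m / 2) else y (m / 2)) (2 * L) := by
  induction L with
  | zero => rfl
  | succ L ih =>
    rw [ofD_succ, ih, mul_add 2 L 1, mul_one, ofD_succ, ofD_succ]
    have h1 : (2 * L) % 2 = 0 := by omega
    have h2 : (2 * L + 1) % 2 ≠ 0 := by omega
    have h3 : (2 * L) / 2 = L := by omega
    have h4 : (2 * L + 1) / 2 = L := by omega
    simp only [h1, h2, h3, h4, if_true, if_false]
    rw [show F * (2 * L + 1) = 2 * F * L + F by ring, pow_add,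
      show F * (2 * L) = 2 * F * L by ring]
    ring

lemma land_shr2 {F L s : ℕ} (hF : 0 < F) {x y m : ℕ → ℕ} (hx : ∀ i < L, x i < 2 ^ F)
    (hy : ∀ i < L, y i < 2 ^ F) (hm : ∀ i < L, m i < 2 ^ F)
    (hs : ∀ i < L, ∀ j, Nat.testBit (m i) j = true → s + j < F) :
    (ofD (2 * F) (fun i => x i + 2 ^ F * y i) L >>> s) &&&
      ofD (2 * F) (fun i => m i + 2 ^ F * m i) L =
      ofD (2 * F) (fun i => ((x i >>> s) &&& m i) + 2 ^ F * ((y i >>> s) &&& m i)) L := by
  rw [nest, nest, nest, land_shr hF]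
  · apply ofD_congr
    intro i _
    split_ifs <;> rfl
  · intro i hi
    have : i / 2 < L := by omega
    split_ifs
    · exact hx _ this
    · exact hy _ this
  · intro i hi
    have : i / 2 < L := by omega
    split_ifs
    · exact hm _ this
    · exact hm _ this
  · intro i hi j hj
    have h2 : i / 2 < L := by omega
    split_ifs at hj
    · exact hs _ h2 j hj
    · exact hs _ h2 j hj

lemma mask_eq {F p q j ms : ℕ} (hF : 0 < F) (hj : j < p) :
    ms * rep (2 * F * p) q * 2 ^ (2 * F * j) =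
      ofD (2 * F) (fun i => if i % p = j then ms else 0) (p * q) := by
  have h1 : ofD (2 * F) (fun i => if i = j then ms else 0) p = ms * 2 ^ (2 * F * j) := by
    unfold ofD
    rw [Finset.sum_eq_single j]
    · simp
    · intro b _ hb
      simp [hb]
    · intro h
      exact absurd (Finset.mem_range.2 hj) h
  rw [← ofD_rep (by omega) (by omega) (fun i => if i = j then ms else 0), h1]
  ring

lemma sJ_spec (t3 orb A B2 : ℕ) (n k m : ℕ) :
    sJ t3 orb A B2 ((List.range n).map (k + ·)) m = ∑ j ∈ range n,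
      dig t3 (by1 (d32 orb (k + j))) * ((A >>> (8 * (d32 orb (k + j) % 256))) &&& (m * B2 ^ j)) := by
  induction n generalizing k m with
  | zero => rfl
  | succ n ih =>
    have e : (List.range (n + 1)).map (k + ·) = (k + 0) :: (List.range n).map ((k + 1) + ·) := by
      rw [List.range_succ_eq_map, List.map_cons, List.map_map]
      congr 1
      apply List.map_congr_left
      intro i _
      simp only [Function.comp_apply]
      omega
    have e2 : sJ t3 orb A B2 ((k + 0) :: (List.range n).map ((k + 1) + ·)) m =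
        dig t3 (by1 (d32 orb (k + 0))) * ((A >>> (8 * (d32 orb (k + 0) % 256))) &&& m) +
        sJ t3 orb A B2 ((List.range n).map ((k + 1) + ·)) (m * B2) := rfl
    rw [e, e2, ih, Finset.sum_range_succ', add_comm]
    congr 1
    · apply Finset.sum_congr rfl
      intro j _
      rw [show k + 1 + j = k + (j + 1) by ring, pow_succ' B2 j, mul_assoc]
    · rw [pow_zero, mul_one]

lemma ofD_sum {w L : ℕ} (p : ℕ) (c : ℕ → ℕ) (f : ℕ → ℕ → ℕ) :
    ∑ j ∈ range p, c j * ofD w (f j) L = ofD w (fun i => ∑ j ∈ range p, c j * f j i) L := by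
  unfold ofD
  simp only [Finset.mul_sum, Finset.sum_mul]
  rw [Finset.sum_comm]
  apply Finset.sum_congr rfl
  intro i _
  apply Finset.sum_congr rfl
  intro j _
  ring

/-- the mask of a relation -/
structure SM (s : RN) (rd : RD) (Bs : ℕ) : Prop where
  ex : ∃ b, b ≤ s.F ∧ s.ms = (2 ^ b - 1) * (1 + 2 ^ s.F) ∧ (∀ k < rd.len3, 8 * k + b ≤ s.F) ∧
    ∀ R, (R = s.RX ∨ R = s.RY) → ∀ w < rd.l, ∀ p1 < rd.rows.length, ∀ p2 < rd.len2,
      ∀ k < rd.len3, ((w * slc R s.w rd.len3 p1 p2) >>> (8 * k)) % 2 ^ b =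
        w * ((slc R s.w rd.len3 p1 p2 >>> (8 * k)) % 256) ∧
      w * slc R s.w rd.len3 p1 p2 < 2 ^ s.F ∧ (slc R s.w rd.len3 p1 p2 >>> (8 * k)) % 256 ≤ Bs
  t3 : ∀ x, dig rd.t3 x ≤ 31

section

variable {par : Bool} {a N : ℕ} {e : ℕ → ℤ × ℤ × ℤ} {s : RN} {rd : RD} {r1 r2 r3 r : Rc}

/-- value along the orbit -/
def XS (s : RN) (rd : RD) (R a : ℕ) (x1 x2 x3 : ℕ × ℕ) (i : ℕ) : ℕ :=
  dig rd.t3 (hs rd.n3 a x3 i).1 * (wA rd.l rd.t1 rd.t2 rd.n1 rd.n2 a x1 x2 i *
    ((slc R s.w rd.len3 (pp (cof rd.n1) a x1 i) (pp (cof rd.n2) a x2 i) >>>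
      (8 * pp (cof rd.n3) a x3 i)) % 256))

lemma ms_eq (b F : ℕ) : (2 ^ b - 1) * (1 + 2 ^ F) = (2 ^ b - 1) + 2 ^ F * (2 ^ b - 1) := by ring

/-- **string of three components** -/
theorem strS_spec (W : World par a e N) (hs' : SD s rd) {Bs : ℕ} (hm : SM s rd Bs)
    (T1 : RT par a e rd.n1 r1) (T2 : RT par a e rd.n2 r2) (T3 : RT par a e rd.n3 r3) {L : ℕ}
    (hL1 : r1.pi ∣ L) (hL2 : r2.pi ∣ L) (hL3 : r3.pi ∣ L) :
    SOK s.F L (strS s r1 r2 r3 L)
      (XS s rd s.RX a (r1.x1, r1.x2) (r2.x1, r2.x2) (r3.x1, r3.x2))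
      (XS s rd s.RY a (r1.x1, r1.x2) (r2.x1, r2.x2) (r3.x1, r3.x2)) (31 * (18 * Bs)) := by
  have hF : 0 < s.F := by have := hs'.F; omega
  have hl0 := hs'.ok.l0
  obtain ⟨⟨b, hbF, hms, hk, hw⟩, ht3⟩ := hm
  set P := Nat.lcm r1.pi r2.pi with hP
  have hPpos : 0 < P := Nat.lcm_pos T1.pi T2.pi
  have hPL : P ∣ L := Nat.lcm_dvd hL1 hL2
  have hq1 := T1.ts.props W T1.ok
  have hq2 := T2.ts.props W T2.ok
  have hq3 := T3.ts.props W T3.ok
  set x1 : ℕ × ℕ := (r1.x1, r1.x2) with hx1
  set x2 : ℕ × ℕ := (r2.x1, r2.x2) with hx2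
  set x3 : ℕ × ℕ := (r3.x1, r3.x2) with hx3
  set wi : ℕ → ℕ := wA rd.l rd.t1 rd.t2 rd.n1 rd.n2 a x1 x2 with hwi
  set sl : ℕ → ℕ → ℕ := fun R i => slc R s.w rd.len3 (pp (cof rd.n1) a x1 i)
    (pp (cof rd.n2) a x2 i) with hsl
  have hwl : ∀ i, wi i < rd.l := fun i => Nat.mod_lt _ hl0
  have hp1 : ∀ i, pp (cof rd.n1) a x1 i < rd.rows.length := fun i => by
    rw [hs'.ok.lr]; exact (hq1 i).1
  have hp2 : ∀ i, pp (cof rd.n2) a x2 i < rd.len2 := fun i => by rw [hs'.ok.l2]; exact (hq2 i).1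
  have hp3 : ∀ i, pp (cof rd.n3) a x3 i < rd.len3 := fun i => by rw [hs'.ok.l3]; exact (hq3 i).1
  have hRw : ∀ R, (R = s.RX ∨ R = s.RY) → ∀ i k, k < rd.len3 →
      ((wi i * sl R i) >>> (8 * k)) % 2 ^ b = wi i * ((sl R i >>> (8 * k)) % 256) ∧
      wi i * sl R i < 2 ^ s.F ∧ (sl R i >>> (8 * k)) % 256 ≤ Bs := fun R hR i k hk' =>
    hw R hR (wi i) (hwl i) _ (hp1 i) _ (hp2 i) k hk'
  have h30 : 0 < rd.len3 := lt_of_le_of_lt (Nat.zero_le _) (hp3 0)
  have per1 : ∀ i, hs rd.n1 a x1 (i % P) = hs rd.n1 a x1 i := per_dvd T1.per (Nat.dvd_lcm_left _ _)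
  have per2 : ∀ i, hs rd.n2 a x2 (i % P) = hs rd.n2 a x2 i := per_dvd T2.per (Nat.dvd_lcm_right _ _)
  have per3 : ∀ i, hs rd.n3 a x3 (i % r3.pi) = hs rd.n3 a x3 i := per_dvd T3.per (dvd_refl _)
  have pp1 : ∀ i, pp (cof rd.n1) a x1 (i % P) = pp (cof rd.n1) a x1 i := fun i => by
    unfold pp; rw [T1.cn, per1]
  have pp2 : ∀ i, pp (cof rd.n2) a x2 (i % P) = pp (cof rd.n2) a x2 i := fun i => by
    unfold pp; rw [T2.cn, per2]
  have wiP : ∀ i, wi (i % P) = wi i := fun i => by
    simp only [hwi, wA, per1, per2]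
  have slP : ∀ R i, sl R (i % P) = sl R i := fun R i => by
    simp only [hsl, pp1, pp2]
  -- the string of the first two components, repeated
  have hA : strA s r1 r2 * rep (2 * s.F * P) (L / P) =
      ofD (2 * s.F) (fun i => wi i * sl s.RX i + 2 ^ s.F * (wi i * sl s.RY i)) L := by
    rw [strA_spec W hs' T1 T2, ofD_rep (by omega) hPpos, Nat.mul_div_cancel' hPL]
    apply ofD_congr
    intro i _
    change wi (i % P) * sl s.RX (i % P) + 2 ^ s.F * (wi (i % P) * sl s.RY (i % P)) = _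
    rw [wiP, slP, slP]
  have e0 : strS s r1 r2 r3 L = sJ s.t3 r3.orb (strA s r1 r2 * rep (2 * s.F * P) (L / P))
      (2 ^ (2 * s.F)) (rng r3.pi) (s.ms * rep (2 * s.F * r3.pi) (L / r3.pi)) := by
    unfold strS
    rw [lcmS_eq]
    rfl
  have hrng : rng r3.pi = (List.range r3.pi).map (0 + ·) := by
    rw [rng_eq]; simp
  have hL3' : r3.pi * (L / r3.pi) = L := Nat.mul_div_cancel' hL3
  set mk : ℕ → ℕ → ℕ := fun j i => if i % r3.pi = j then 2 ^ b - 1 else 0 with hmk
  have hmask : ∀ j < r3.pi, s.ms * rep (2 * s.F * r3.pi) (L / r3.pi) * (2 ^ (2 * s.F)) ^ j =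
      ofD (2 * s.F) (fun i => mk j i + 2 ^ s.F * mk j i) L := by
    intro j hj
    rw [← pow_mul, mask_eq hF hj, hL3']
    apply ofD_congr
    intro i _
    simp only [hmk]
    split_ifs
    · rw [hms, ms_eq]
    · rfl
  have hpow : 2 ^ b - 1 < 2 ^ s.F := by
    have h1 : 2 ^ b ≤ 2 ^ s.F := Nat.pow_le_pow_right (by norm_num) hbF
    have h2 : 0 < 2 ^ b := by positivity
    omega
  refine ⟨?_, ?_, ?_⟩
  · rw [e0, hrng, sJ_spec, hA]
    have hterm : ∀ j ∈ range r3.pi, dig s.t3 (by1 (d32 r3.orb (0 + j))) *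
        ((ofD (2 * s.F) (fun i => wi i * sl s.RX i + 2 ^ s.F * (wi i * sl s.RY i)) L >>>
          (8 * (d32 r3.orb (0 + j) % 256))) &&&
          (s.ms * rep (2 * s.F * r3.pi) (L / r3.pi) * (2 ^ (2 * s.F)) ^ j)) =
        dig rd.t3 (hs rd.n3 a x3 j).1 * ofD (2 * s.F) (fun i =>
          if i % r3.pi = j then wi i * ((sl s.RX i >>> (8 * pp (cof rd.n3) a x3 i)) % 256) +
            2 ^ s.F * (wi i * ((sl s.RY i >>> (8 * pp (cof rd.n3) a x3 i)) % 256)) else 0) L := by
      intro j hj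
      have hj' := Finset.mem_range.1 hj
      rw [zero_add, hmask j hj']
      have t1 := T3.e1 j
      have t0 := T3.e0 j
      rw [Nat.mod_eq_of_lt hj'] at t1 t0
      rw [t1, t0, hs'.t3]
      congr 1
      rw [land_shr2 hF]
      · apply ofD_congr
        intro i _
        by_cases hi : i % r3.pi = j
        · have hpp : pp (cof rd.n3) a (r3.x1, r3.x2) j = pp (cof rd.n3) a x3 i := by
            unfold pp
            rw [T3.cn, ← hi]
            change pos _ _ _ (hs rd.n3 a x3 (i % r3.pi)).1 _ _ = _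
            rw [← per3 i]
          have h1 := hRw s.RX (Or.inl rfl) i _ (hp3 i)
          have h2 := hRw s.RY (Or.inr rfl) i _ (hp3 i)
          simp only [hmk, hi, if_true]
          rw [hpp, Nat.and_two_pow_sub_one_eq_mod, Nat.and_two_pow_sub_one_eq_mod, h1.1, h2.1]
        · simp only [hmk, hi, if_false, Nat.and_zero, mul_zero, add_zero]
      · intro i _
        exact (hRw s.RX (Or.inl rfl) i 0 h30).2.1
      · intro i _
        exact (hRw s.RY (Or.inr rfl) i 0 h30).2.1
      · intro i _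
        simp only [hmk]
        split_ifs
        · exact hpow
        · positivity
      · intro i _ k hk'
        simp only [hmk] at hk'
        split_ifs at hk' with h
        · rw [Nat.testBit_two_pow_sub_one] at hk'
          have h1 := of_decide_eq_true hk'
          have h2 := hk _ (hp3 j)
          change 8 * pp (cof rd.n3) a x3 j + k < s.F
          omega
        · simp at hk'
    rw [Finset.sum_congr rfl hterm, ofD_sum]
    apply ofD_congr
    intro i _
    rw [Finset.sum_eq_single (i % r3.pi)]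
    · rw [if_pos rfl, per3]
      change _ = dig rd.t3 (hs rd.n3 a x3 i).1 * (wi i * ((sl s.RX i >>>
        (8 * pp (cof rd.n3) a x3 i)) % 256)) + 2 ^ s.F * (dig rd.t3 (hs rd.n3 a x3 i).1 *
          (wi i * ((sl s.RY i >>> (8 * pp (cof rd.n3) a x3 i)) % 256)))
      ring
    · intro j _ hj
      rw [if_neg (fun h => hj h.symm), mul_zero]
    · intro h
      exact absurd (Finset.mem_range.2 (Nat.mod_lt _ T3.pi)) h
  · intro i _
    have h1 := (hRw s.RX (Or.inl rfl) i _ (hp3 i)).2.2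
    have h2 := ht3 (hs rd.n3 a x3 i).1
    have h3 : wi i ≤ 18 := by have := hwl i; have := hs'.l19; omega
    change dig rd.t3 (hs rd.n3 a x3 i).1 * (wi i * ((sl s.RX i >>>
        (8 * pp (cof rd.n3) a x3 i)) % 256)) ≤ _
    exact Nat.mul_le_mul h2 (Nat.mul_le_mul h3 h1)
  · intro i _
    have h1 := (hRw s.RY (Or.inr rfl) i _ (hp3 i)).2.2
    have h2 := ht3 (hs rd.n3 a x3 i).1
    have h3 : wi i ≤ 18 := by have := hwl i; have := hs'.l19; omega
    change dig rd.t3 (hs rd.n3 a x3 i).1 * (wi i * ((sl s.RY i >>>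
        (8 * pp (cof rd.n3) a x3 i)) % 256)) ≤ _
    exact Nat.mul_le_mul h2 (Nat.mul_le_mul h3 h1)

end

end Pool.Agent.LibH4.CX


end

section

/-!
Constant words, all letters at once: soundness of a relation.
-/

namespace Pool.Agent.LibH4.CX

open Finset Pool.Agent.Lib_helper5 Pool.Agent.Lib_helper5.LK Pool.Agent.LibH4.Ker
  Pool.Agent.LibH4.KF Pool.Agent.LibH4.T6 Pool.Agent.Lib_helper5.TB Pool.Agent.LibH4.S7
  Pool.Agent.LibH4.CW

section

variable {par : Bool} {a N : ℕ} {e : ℕ → ℤ × ℤ × ℤ} {s : RN} {rd : RD} {r1 r2 r3 r : Rc}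

lemma slc_get {w len2 len3 : ℕ} (hw : w = 8 * (len2 * len3)) (rows : List (ℕ × ℕ))
    (f : ℕ × ℕ → ℕ) {p1 p2 p3 : ℕ} (h1 : p1 < rows.length) (h2 : p2 < len2) (h3 : p3 < len3) :
    (slc (cat (2 ^ w) f rows) w len3 p1 p2 >>> (8 * p3)) % 256 =
      dig (f (rows.getD p1 (0, 0))) (p2 * len3 + p3) := by
  unfold slc
  rw [show (256 : ℕ) = 2 ^ 8 by norm_num, shr_mod _ _ _ _ (by omega), ← Nat.shiftRight_add,
    show 8 * len3 * p2 + 8 * p3 = 8 * (p2 * len3 + p3) by ring]
  apply row_get w rows f p1 _ h1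
  rw [hw]
  have : p2 * len3 + p3 + 1 ≤ len2 * len3 := by
    calc p2 * len3 + p3 + 1 ≤ p2 * len3 + len3 := by omega
      _ = (p2 + 1) * len3 := by ring
      _ ≤ len2 * len3 := Nat.mul_le_mul_right _ h2
  omega

lemma XS_cast (W : World par a e N) (hs' : SD s rd) (T1 : RT par a e rd.n1 r1)
    (T2 : RT par a e rd.n2 r2) (T3 : RT par a e rd.n3 r3) (i : ℕ) :
    ((XS s rd s.RX a (r1.x1, r1.x2) (r2.x1, r2.x2) (r3.x1, r3.x2) i : ℕ) : ZMod rd.l) =
      ((Xh rd (cof rd.n1) (cof rd.n2) (cof rd.n3) a (r1.x1, r1.x2) (r2.x1, r2.x2)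
        (r3.x1, r3.x2) i : ℕ) : ZMod rd.l) ∧
    ((XS s rd s.RY a (r1.x1, r1.x2) (r2.x1, r2.x2) (r3.x1, r3.x2) i : ℕ) : ZMod rd.l) =
      ((Yh rd (cof rd.n1) (cof rd.n2) (cof rd.n3) a (r1.x1, r1.x2) (r2.x1, r2.x2)
        (r3.x1, r3.x2) i : ℕ) : ZMod rd.l) := by
  have hp1 : pp (cof rd.n1) a (r1.x1, r1.x2) i < rd.rows.length := by
    rw [hs'.ok.lr]; exact (T1.ts.props W T1.ok i).1
  have hp2 : pp (cof rd.n2) a (r2.x1, r2.x2) i < rd.len2 := by
    rw [hs'.ok.l2]; exact (T2.ts.props W T2.ok i).1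
  have hp3 : pp (cof rd.n3) a (r3.x1, r3.x2) i < rd.len3 := by
    rw [hs'.ok.l3]; exact (T3.ts.props W T3.ok i).1
  unfold XS Xh Yh wh wA tX tY
  rw [hs'.RX, hs'.RY, hs'.V, slc_get hs'.w rd.rows _ hp1 hp2 hp3,
    slc_get hs'.w rd.rows _ hp1 hp2 hp3, T1.cn, T2.cn, T3.cn]
  push_cast
  rw [ZMod.natCast_mod, ZMod.natCast_mod]
  push_cast
  constructor <;> ring

lemma XS_per (_ : SD s rd) (R : ℕ) (T1 : RT par a e rd.n1 r1)
    (T2 : RT par a e rd.n2 r2) (T3 : RT par a e rd.n3 r3) {L : ℕ} (h1 : r1.pi ∣ L)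
    (h2 : r2.pi ∣ L) (h3 : r3.pi ∣ L) (i : ℕ) :
    XS s rd R a (r1.x1, r1.x2) (r2.x1, r2.x2) (r3.x1, r3.x2) (i % L) =
    XS s rd R a (r1.x1, r1.x2) (r2.x1, r2.x2) (r3.x1, r3.x2) i := by
  have P1 : ∀ i, hs rd.n1 a (r1.x1, r1.x2) (i % L) = hs rd.n1 a (r1.x1, r1.x2) i :=
    per_dvd T1.per h1
  have P2 : ∀ i, hs rd.n2 a (r2.x1, r2.x2) (i % L) = hs rd.n2 a (r2.x1, r2.x2) i :=
    per_dvd T2.per h2
  have P3 : ∀ i, hs rd.n3 a (r3.x1, r3.x2) (i % L) = hs rd.n3 a (r3.x1, r3.x2) i :=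
    per_dvd T3.per h3
  unfold XS wA pp
  rw [T1.cn, T2.cn, T3.cn, P1, P2, P3]

/-- **soundness of a relation** -/
theorem relX_spec (W : World par a e N) (hs' : SD s rd) {Bs : ℕ} (hm : SM s rd Bs)
    (hBs : Bs ≤ 31) (hl : rd.l.Prime) (T1 : RT par a e rd.n1 r1)
    (T2 : RT par a e rd.n2 r2) (T3 : RT par a e rd.n3 r3) (T : RT par a e rd.l r) {st : Tr}
    (h : In N st) : In N (relX par s r1 r2 r3 r st) := by
  have e0 : relX par s r1 r2 r3 r st = (fun L => @Bool.rec (fun _ => Tr) st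
      (relQ par s.l s.F s.w2 s.mF L (strS s r1 r2 r3 L) r.a r.orb r.pi st)
      (Nat.ble L 1000)) (lcmS (lcmS r1.pi r2.pi) r3.pi) := by
    unfold relX
    rw [strict_eq]
  rw [e0]
  set L := lcmS (lcmS r1.pi r2.pi) r3.pi with hL
  rw [lcmS_eq, lcmS_eq] at hL
  have hLpos : 0 < L := by
    rw [hL]; exact Nat.lcm_pos (Nat.lcm_pos T1.pi T2.pi) T3.pi
  have d1 : r1.pi ∣ L := by rw [hL]; exact (Nat.dvd_lcm_left _ _).trans (Nat.dvd_lcm_left _ _)
  have d2 : r2.pi ∣ L := by rw [hL]; exact (Nat.dvd_lcm_right _ _).trans (Nat.dvd_lcm_left _ _)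
  have d3 : r3.pi ∣ L := by rw [hL]; exact Nat.dvd_lcm_right _ _
  clear_value L
  change In N (@Bool.rec (fun _ => Tr) st
      (relQ par s.l s.F s.w2 s.mF L (strS s r1 r2 r3 L) r.a r.orb r.pi st)
      (Nat.ble L 1000))
  cases hb : Nat.ble L 1000 with
  | false => exact h
  | true =>
    have hL1000 : L ≤ 1000 := Nat.le_of_ble_eq_true hb
    have hsok := strS_spec W hs' hm T1 T2 T3 d1 d2 d3
    change In N (relQ par s.l s.F s.w2 s.mF L (strS s r1 r2 r3 L) r.a r.orb r.pi st)
    have hNZ : NeZero rd.l := ⟨hl.ne_zero⟩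
    have hcast := XS_cast W hs' T1 T2 T3
    have hperX := XS_per hs' s.RX T1 T2 T3 d1 d2 d3
    have hperY := XS_per hs' s.RY T1 T2 T3 d1 d2 d3
    have hrel := rel_hat W hs'.ok T1.ts T2.ts T3.ts _ _ rfl rfl
    have hBl := (T.ts.last W T.ok).1
    have hBv := T.e2 N
    rw [T.cn] at hBl
    rw [← hBv] at hBl
    have hB19 : by2 (d32 r.orb (N % r.pi)) < rd.l := by
      rw [hBv]; exact Nat.mod_lt _ T.pos
    clear hBv
    rw [hs'.l, hs'.w2, hs'.mF]
    set S := strS s r1 r2 r3 L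
    set X := XS s rd s.RX a (r1.x1, r1.x2) (r2.x1, r2.x2) (r3.x1, r3.x2)
    set Y := XS s rd s.RY a (r1.x1, r1.x2) (r2.x1, r2.x2) (r3.x1, r3.x2)
    set F := s.F
    have hF32 : 32 ≤ F := hs'.F
    have hF : 0 < F := by omega
    have h2F : 2 ^ 32 ≤ 2 ^ F := Nat.pow_le_pow_right (by norm_num) hF32
    have hl19 := hs'.l19
    have hlpos := hl.pos
    set l := rd.l
    set B := by2 (d32 r.orb (N % r.pi))
    set al := neg l (2 * r.a) with hal
    have hal19 : al < l := Nat.mod_lt _ hlpos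
    have hra : r.a < l := by rw [T.la]; exact Nat.mod_lt _ hlpos
    have hsucc : Nat.succ (2 ^ F - 1) = 2 ^ F := Nat.succ_pred_eq_of_pos (by positivity)
    set k1 : ℕ := @Bool.rec (fun _ => ℕ) 0 r.a par with hk1
    set R := prS F L S * (al + 6 * 2 ^ F) with hR
    set ka := (kk0 par l * Nat.land S (2 ^ F - 1) + k1 * Nat.land (S >>> F) (2 ^ F - 1)) % l
      with hka
    set c := Nat.land (R >>> (F + 2 * F * (L - 1))) (2 ^ F - 1) % l with hc
    have e1 : relQ par l F (2 * F) (2 ^ F - 1) L S r.a r.orb r.pi st =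
        rel0 l c L (2 * F) F (2 ^ F - 1) (R + ka * (2 ^ F * rep (2 * F) L)) S (2 * r.a + l)
          r.orb r.pi st := by
      unfold relQ rel5
      rw [strict_eq]
      rw [hsucc]
      rfl
    rw [e1]
    apply rel0_spec hl hLpos _ h
    rw [valN_eq, ← Nat.shiftRight_add]
    change (Nat.land _ (2 ^ F - 1) + N / L * c) % l = 0
    rw [land_eq']
    have hm' : N % L < L := Nat.mod_lt _ hLpos
    have hB0 : 31 * (18 * Bs) ≤ 17298 := by omega
    have hLB : L * (31 * (18 * Bs)) ≤ 1000 * 17298 := Nat.mul_le_mul hL1000 hB0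
    have hka19 : ka < l := Nat.mod_lt _ hlpos
    have hbe : 2 * r.a + l - B ≤ 57 := by omega
    have hbound : (al + 6) * (L * (31 * (18 * Bs))) + (2 * r.a + l - B) * (31 * (18 * Bs)) + ka <
        2 ^ F := by
      have t1 : (al + 6) * (L * (31 * (18 * Bs))) ≤ 25 * (1000 * 17298) :=
        Nat.mul_le_mul (by omega) hLB
      have t2 : (2 * r.a + l - B) * (31 * (18 * Bs)) ≤ 57 * 17298 := Nat.mul_le_mul hbe hB0
      have t3 : (2 : ℕ) ^ 32 = 4294967296 := by norm_num
      omega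
    have hbound0 : (al + 6) * (L * (31 * (18 * Bs))) + 0 * (31 * (18 * Bs)) + 0 < 2 ^ F := by
      omega
    rw [val_eq hF hsok hbound hm']
    have hcv : c = (6 * ES X L + al * ES Y L) % l := by
      have h1 := val_eq hF hsok hbound0 (n := L - 1) (by omega)
      rw [zero_mul, add_zero, mul_zero, add_zero, zero_mul, add_zero, add_zero,
        Nat.sub_add_cancel (by omega : 1 ≤ L)] at h1
      rw [hc, land_eq', h1]
    have hBF : 31 * (18 * Bs) < 2 ^ F := by
      have t3 : (2 : ℕ) ^ 32 = 4294967296 := by norm_num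
      omega
    obtain ⟨f0, f1⟩ := fst_eq hsok hBF hLpos
    have hkav : ka = (kk0 par l * X 0 + k1 * Y 0) % l := by
      rw [hka, land_eq', land_eq', f0, f1]
    apply Nat.mod_eq_zero_of_dvd
    rw [← ZMod.natCast_eq_zero_iff]
    have hES : ∀ (Z : ℕ → ℕ) m, ((ES Z m : ℕ) : ZMod l) = ∑ j ∈ range m, ((Z j : ℕ) : ZMod l) := by
      intro Z m
      unfold ES
      push_cast
      rfl
    have hXe : ∀ i, ((Xh rd (cof rd.n1) (cof rd.n2) (cof rd.n3) a (r1.x1, r1.x2) (r2.x1, r2.x2)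
        (r3.x1, r3.x2) i : ℕ) : ZMod l) = ((X i : ℕ) : ZMod l) := fun i => (hcast i).1.symm
    have hYe : ∀ i, ((Yh rd (cof rd.n1) (cof rd.n2) (cof rd.n3) a (r1.x1, r1.x2) (r2.x1, r2.x2)
        (r3.x1, r3.x2) i : ℕ) : ZMod l) = ((Y i : ℕ) : ZMod l) := fun i => (hcast i).2.symm
    simp only [hXe, hYe] at hrel
    have hra' : ((r.a : ℕ) : ZMod l) = (a : ZMod l) := by
      rw [T.la, ZMod.natCast_mod]
    have hal' : ((al : ℕ) : ZMod l) = ((neg l (2 * a) : ℕ) : ZMod l) := by
      rw [hal, neg_cast hlpos, neg_cast hlpos]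
      push_cast
      rw [hra']
    have hal2 : ((al : ℕ) : ZMod l) = -(2 * (a : ZMod l)) := by
      rw [hal', neg_cast hlpos]
      push_cast
      ring
    have hk1' : ((k1 : ℕ) : ZMod l) = ((kk1 par a : ℕ) : ZMod l) := by
      rw [hk1]
      cases par with
      | false => rfl
      | true => exact hra'
    have hBZ : ((B : ℕ) : ZMod l) = (((e N).2.1 : ℤ) : ZMod l) := hBl
    rw [← hal', ← hk1', ← hBZ] at hrel
    have hsp := sum_per (l := l) (L := L) (fun j => 6 * ((X j : ℕ) : ZMod l) +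
      (al : ZMod l) * ((Y j : ℕ) : ZMod l)) (fun i => by simp only [hperX, hperY]) N
    rw [hsp] at hrel
    have hBle : B ≤ 2 * r.a + l := by omega
    have hXN : ((X (N % L) : ℕ) : ZMod l) = ((X N : ℕ) : ZMod l) := by rw [hperX]
    have hYN : ((Y (N % L) : ℕ) : ZMod l) = ((Y N : ℕ) : ZMod l) := by rw [hperY]
    rw [hcv, hkav]
    push_cast
    rw [ZMod.natCast_mod, ZMod.natCast_mod]
    push_cast
    rw [Nat.cast_sub hBle, hES, hES, hES, hES, Finset.sum_range_succ, Finset.sum_range_succ,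
      hXN, hYN]
    push_cast
    rw [ZMod.natCast_self, hra']
    rw [Finset.sum_add_distrib, Finset.sum_add_distrib, ← Finset.mul_sum, ← Finset.mul_sum,
      ← Finset.mul_sum, ← Finset.mul_sum] at hrel
    linear_combination hrel + ((Y N : ℕ) : ZMod l) * hal2

end

end Pool.Agent.LibH4.CX


end

section

/-!
Constant words, all letters at once: static data of the relations.
-/

namespace Pool.Agent.LibH4.CX

open Finset Pool.Agent.Lib_helper5 Pool.Agent.Lib_helper5.LK Pool.Agent.LibH4.Ker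
  Pool.Agent.LibH4.KF Pool.Agent.LibH4.T6 Pool.Agent.Lib_helper5.TB Pool.Agent.LibH4.S7
  Pool.Agent.LibH4.CW

lemma byte_le {R M N B : ℕ} (hM : M < 256) (h : Nat.land R (M * rep 8 N) = 0)
    (hB : ∀ x < 256, x &&& M = 0 → x ≤ B) {j : ℕ} (hj : j < N) : (R >>> (8 * j)) % 256 ≤ B := by
  apply hB _ (Nat.mod_lt _ (by norm_num))
  apply Nat.eq_of_testBit_eq
  intro i
  rw [Nat.zero_testBit, Nat.testBit_and]
  by_cases hi : i < 8
  · have h1 : Nat.testBit (R &&& (M * rep 8 N)) (8 * j + i) = false := by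
      change Nat.testBit (Nat.land R (M * rep 8 N)) (8 * j + i) = false
      rw [h, Nat.zero_testBit]
    have h2 : M * rep 8 N = ofD 8 (fun _ => M) N := by
      rw [rep_eq (by norm_num)]
      unfold ofD
      rw [Finset.mul_sum]
      apply Finset.sum_congr rfl
      intro i _
      ring
    have e1 : (8 * j + i) / 8 = j := by omega
    have e2 : (8 * j + i) % 8 = i := by omega
    rw [Nat.testBit_and, h2, testBit_ofD (by norm_num) (fun _ _ => by norm_num; exact hM), e1, e2]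
      at h1
    simp only [hj, decide_true, Bool.true_and] at h1
    rw [show (256 : ℕ) = 2 ^ 8 by norm_num, shr_mod_testBit _ _ _ _ hi]
    exact h1
  · have : Nat.testBit M i = false := Nat.testBit_lt_two_pow (lt_of_lt_of_le hM
      (by
        calc (256 : ℕ) = 2 ^ 8 := by norm_num
          _ ≤ 2 ^ i := Nat.pow_le_pow_right (by norm_num) (by omega)))
    rw [this, Bool.and_false]

lemma b240 : ∀ x < 256, x &&& 240 = 0 → x ≤ 15 := by decide +kernel
lemma b224 : ∀ x < 256, x &&& 224 = 0 → x ≤ 31 := by decide +kernel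

lemma dig_le {t B n : ℕ} (h1 : t < 2 ^ (8 * n)) (h : ∀ j < n, (t >>> (8 * j)) % 256 ≤ B) (x : ℕ) :
    dig t x ≤ B := by
  by_cases hx : x < n
  · exact h x hx
  · change (t >>> (8 * x)) % 256 ≤ B
    have : t < 2 ^ (8 * x) := lt_of_lt_of_le h1 (Nat.pow_le_pow_right (by norm_num) (by omega))
    rw [Nat.shiftRight_eq_div_pow, Nat.div_eq_of_lt this]
    simp

lemma bytes (n : ℕ) : ∀ x : ℕ, x < 2 ^ (8 * n) → x = ofD 8 (fun i => (x >>> (8 * i)) % 256) n := by
  induction n with
  | zero => intro x hx; simp at hx; rw [hx]; simp [ofD]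
  | succ n ih =>
    intro x hx
    rw [ofD_cons]
    have h1 : x >>> 8 < 2 ^ (8 * n) := by
      rw [Nat.shiftRight_eq_div_pow, Nat.div_lt_iff_lt_mul (by norm_num), ← pow_add]
      rwa [show 8 * n + 8 = 8 * (n + 1) by ring]
    have h2 := ih _ h1
    have h3 : ∀ i, (x >>> 8) >>> (8 * i) = x >>> (8 * (i + 1)) := by
      intro i
      rw [← Nat.shiftRight_add]
      congr 1
      ring
    simp only [h3] at h2
    rw [← h2, mul_zero, Nat.shiftRight_zero, Nat.shiftRight_eq_div_pow]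
    have := Nat.mod_add_div x 256
    omega

section

variable {s : RN} {rd : RD}

lemma slot_le (hs : SD s rd) {R B M : ℕ} (hM : M < 256)
    (h : Nat.land R (M * rep 8 (rd.len2 * rd.len3 * rd.rows.length)) = 0)
    (hB : ∀ x < 256, x &&& M = 0 → x ≤ B) {p1 p2 k : ℕ} (h1 : p1 < rd.rows.length)
    (h2 : p2 < rd.len2) (h3 : k < rd.len3) :
    (slc R s.w rd.len3 p1 p2 >>> (8 * k)) % 256 ≤ B := by
  have e : (slc R s.w rd.len3 p1 p2 >>> (8 * k)) % 256 =
      (R >>> (8 * (rd.len2 * rd.len3 * p1 + (p2 * rd.len3 + k)))) % 256 := by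
    unfold slc
    have hk : p2 * rd.len3 + k + 1 ≤ rd.len2 * rd.len3 := by
      calc p2 * rd.len3 + k + 1 ≤ p2 * rd.len3 + rd.len3 := by omega
        _ = (p2 + 1) * rd.len3 := by ring
        _ ≤ rd.len2 * rd.len3 := Nat.mul_le_mul_right _ h2
    rw [show (256 : ℕ) = 2 ^ 8 by norm_num, shr_mod _ _ _ _ (by omega), ← Nat.shiftRight_add,
      show 8 * rd.len3 * p2 + 8 * k = 8 * (p2 * rd.len3 + k) by ring,
      shr_mod _ _ _ _ (by rw [hs.w]; omega), ← Nat.shiftRight_add, hs.w]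
    congr 2
    ring
  rw [e]
  apply byte_le hM h hB
  have hk : p2 * rd.len3 + k + 1 ≤ rd.len2 * rd.len3 := by
    calc p2 * rd.len3 + k + 1 ≤ p2 * rd.len3 + rd.len3 := by omega
      _ = (p2 + 1) * rd.len3 := by ring
      _ ≤ rd.len2 * rd.len3 := Nat.mul_le_mul_right _ h2
  calc rd.len2 * rd.len3 * p1 + (p2 * rd.len3 + k) < rd.len2 * rd.len3 * p1 + rd.len2 * rd.len3 := by
        omega
    _ = rd.len2 * rd.len3 * (p1 + 1) := by ring
    _ ≤ rd.len2 * rd.len3 * rd.rows.length := Nat.mul_le_mul_left _ h1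

/-- check of the third character -/
lemma t3_of (h1 : Nat.ble (Nat.succ rd.t3) (2 ^ (8 * 20)) = true)
    (h2 : Nat.land rd.t3 (224 * rep 8 20) = 0) (x : ℕ) : dig rd.t3 x ≤ 31 :=
  dig_le (Nat.le_of_ble_eq_true h1) (fun _ hj => byte_le (by norm_num) h2 b224 hj) x

theorem sm32 (hs : SD s rd) (hF : s.F = 32) (h3 : rd.len3 = 1)
    (hms : s.ms = (2 ^ 32 - 1) * (1 + 2 ^ 32))
    (hX : Nat.land s.RX (224 * rep 8 (rd.len2 * rd.len3 * rd.rows.length)) = 0)
    (hY : Nat.land s.RY (224 * rep 8 (rd.len2 * rd.len3 * rd.rows.length)) = 0)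
    (h1 : Nat.ble (Nat.succ rd.t3) (2 ^ (8 * 20)) = true)
    (h2 : Nat.land rd.t3 (224 * rep 8 20) = 0) : SM s rd 31 where
  t3 := t3_of h1 h2
  ex := by
    refine ⟨32, by omega, by rw [hms, hF], ?_, ?_⟩
    · intro k hk
      rw [h3] at hk
      omega
    · intro R hR w hw p1 hp1 p2 hp2 k hk
      have hk0 : k = 0 := by rw [h3] at hk; omega
      have hle : (slc R s.w rd.len3 p1 p2 >>> (8 * k)) % 256 ≤ 31 := by
        rcases hR with rfl | rfl
        · exact slot_le hs (by norm_num) hX b224 hp1 hp2 hk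
        · exact slot_le hs (by norm_num) hY b224 hp1 hp2 hk
      have hlt : slc R s.w rd.len3 p1 p2 < 256 := by
        unfold slc
        rw [h3]
        exact Nat.mod_lt _ (by norm_num)
      subst hk0
      rw [mul_zero, Nat.shiftRight_zero, Nat.shiftRight_zero, Nat.mod_eq_of_lt hlt]
      rw [mul_zero, Nat.shiftRight_zero, Nat.mod_eq_of_lt hlt] at hle
      have hw19 := hs.l19
      have hprod : w * slc R s.w rd.len3 p1 p2 ≤ 18 * 31 := Nat.mul_le_mul (by omega) hle
      have e32 : (2 : ℕ) ^ 32 = 4294967296 := by norm_num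
      refine ⟨?_, ?_, hle⟩
      · apply Nat.mod_eq_of_lt
        omega
      · rw [hF]
        omega

theorem sm8 (hs : SD s rd) (hl : rd.l ≤ 13)
    (hms : s.ms = (2 ^ 8 - 1) * (1 + 2 ^ s.F))
    (hX : Nat.land s.RX (240 * rep 8 (rd.len2 * rd.len3 * rd.rows.length)) = 0)
    (hY : Nat.land s.RY (240 * rep 8 (rd.len2 * rd.len3 * rd.rows.length)) = 0)
    (h1 : Nat.ble (Nat.succ rd.t3) (2 ^ (8 * 20)) = true)
    (h2 : Nat.land rd.t3 (224 * rep 8 20) = 0) : SM s rd 31 where
  t3 := t3_of h1 h2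
  ex := by
    have hF := hs.F
    have hF3 := hs.F3
    refine ⟨8, by omega, hms, ?_, ?_⟩
    · intro k hk
      omega
    · intro R hR w hw p1 hp1 p2 hp2 k hk
      have hle : ∀ k < rd.len3, (slc R s.w rd.len3 p1 p2 >>> (8 * k)) % 256 ≤ 15 := by
        intro k hk
        rcases hR with rfl | rfl
        · exact slot_le hs (by norm_num) hX b240 hp1 hp2 hk
        · exact slot_le hs (by norm_num) hY b240 hp1 hp2 hk
      have hlt : slc R s.w rd.len3 p1 p2 < 2 ^ (8 * rd.len3) := Nat.mod_lt _ (by positivity)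
      have hd := bytes rd.len3 _ hlt
      have hmul : w * slc R s.w rd.len3 p1 p2 = ofD 8 (fun i => w *
          ((slc R s.w rd.len3 p1 p2 >>> (8 * i)) % 256)) rd.len3 := by
        conv_lhs => rw [hd]
        unfold ofD
        rw [Finset.mul_sum]
        apply Finset.sum_congr rfl
        intro i _
        ring
      have hb : ∀ i < rd.len3, w * ((slc R s.w rd.len3 p1 p2 >>> (8 * i)) % 256) < 2 ^ 8 := by
        intro i hi
        have hprod : w * ((slc R s.w rd.len3 p1 p2 >>> (8 * i)) % 256) ≤ 12 * 15 :=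
          Nat.mul_le_mul (by omega) (hle i hi)
        have : (2 : ℕ) ^ 8 = 256 := by norm_num
        omega
      refine ⟨?_, ?_, (hle k hk).trans (by norm_num)⟩
      · rw [hmul]
        exact ofD_dig hb hk
      · rw [hmul]
        exact lt_of_lt_of_le (ofD_lt hb) (Nat.pow_le_pow_right (by norm_num) hF3)

end

end Pool.Agent.LibH4.CX


end

section

/-! generated: static data of the relations -/

namespace Pool.Agent.LibH4.CX

open Pool.Agent.LibH4.CW

lemma sd_91F13 : SD n91F13 r_91F13 :=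
  ⟨k_91F13, rfl, rfl, rfl, rfl, rfl, by decide +kernel, by decide +kernel, rfl, rfl,
    by decide +kernel, by decide +kernel, by decide +kernel, by decide +kernel, by decide +kernel⟩

lemma sm_91F13 : SM n91F13 r_91F13 31 :=
  sm32 sd_91F13 (by decide +kernel) (by decide +kernel) (by decide +kernel) (by decide +kernel)
    (by decide +kernel) (by decide +kernel) (by decide +kernel)

lemma sd_455F13a : SD n455F13a r_455F13a :=
  ⟨k_455F13a, rfl, rfl, rfl, rfl, rfl, by decide +kernel, by decide +kernel, rfl, rfl,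
    by decide +kernel, by decide +kernel, by decide +kernel, by decide +kernel, by decide +kernel⟩

lemma sm_455F13a : SM n455F13a r_455F13a 31 :=
  sm8 sd_455F13a (by decide +kernel) (by decide +kernel) (by decide +kernel)
    (by decide +kernel) (by decide +kernel) (by decide +kernel)

lemma sd_455F13b : SD n455F13b r_455F13b :=
  ⟨k_455F13b, rfl, rfl, rfl, rfl, rfl, by decide +kernel, by decide +kernel, rfl, rfl,
    by decide +kernel, by decide +kernel, by decide +kernel, by decide +kernel, by decide +kernel⟩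

lemma sm_455F13b : SM n455F13b r_455F13b 31 :=
  sm8 sd_455F13b (by decide +kernel) (by decide +kernel) (by decide +kernel)
    (by decide +kernel) (by decide +kernel) (by decide +kernel)

lemma sd_455F13c : SD n455F13c r_455F13c :=
  ⟨k_455F13c, rfl, rfl, rfl, rfl, rfl, by decide +kernel, by decide +kernel, rfl, rfl,
    by decide +kernel, by decide +kernel, by decide +kernel, by decide +kernel, by decide +kernel⟩

lemma sm_455F13c : SM n455F13c r_455F13c 31 :=
  sm8 sd_455F13c (by decide +kernel) (by decide +kernel) (by decide +kernel)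
    (by decide +kernel) (by decide +kernel) (by decide +kernel)

lemma sd_455F13d : SD n455F13d r_455F13d :=
  ⟨k_455F13d, rfl, rfl, rfl, rfl, rfl, by decide +kernel, by decide +kernel, rfl, rfl,
    by decide +kernel, by decide +kernel, by decide +kernel, by decide +kernel, by decide +kernel⟩

lemma sm_455F13d : SM n455F13d r_455F13d 31 :=
  sm8 sd_455F13d (by decide +kernel) (by decide +kernel) (by decide +kernel)
    (by decide +kernel) (by decide +kernel) (by decide +kernel)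

lemma sd_119N13 : SD n119N13 r_119N13 :=
  ⟨k_119N13, rfl, rfl, rfl, rfl, rfl, by decide +kernel, by decide +kernel, rfl, rfl,
    by decide +kernel, by decide +kernel, by decide +kernel, by decide +kernel, by decide +kernel⟩

lemma sm_119N13 : SM n119N13 r_119N13 31 :=
  sm32 sd_119N13 (by decide +kernel) (by decide +kernel) (by decide +kernel) (by decide +kernel)
    (by decide +kernel) (by decide +kernel) (by decide +kernel)

lemma sd_119N5 : SD n119N5 r_119N5 :=
  ⟨k_119N5, rfl, rfl, rfl, rfl, rfl, by decide +kernel, by decide +kernel, rfl, rfl,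
    by decide +kernel, by decide +kernel, by decide +kernel, by decide +kernel, by decide +kernel⟩

lemma sm_119N5 : SM n119N5 r_119N5 31 :=
  sm32 sd_119N5 (by decide +kernel) (by decide +kernel) (by decide +kernel) (by decide +kernel)
    (by decide +kernel) (by decide +kernel) (by decide +kernel)

lemma sd_221N5 : SD n221N5 r_221N5 :=
  ⟨k_221N5, rfl, rfl, rfl, rfl, rfl, by decide +kernel, by decide +kernel, rfl, rfl,
    by decide +kernel, by decide +kernel, by decide +kernel, by decide +kernel, by decide +kernel⟩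

lemma sm_221N5 : SM n221N5 r_221N5 31 :=
  sm32 sd_221N5 (by decide +kernel) (by decide +kernel) (by decide +kernel) (by decide +kernel)
    (by decide +kernel) (by decide +kernel) (by decide +kernel)

lemma sd_595N13a : SD n595N13a r_595N13a :=
  ⟨k_595N13a, rfl, rfl, rfl, rfl, rfl, by decide +kernel, by decide +kernel, rfl, rfl,
    by decide +kernel, by decide +kernel, by decide +kernel, by decide +kernel, by decide +kernel⟩

lemma sm_595N13a : SM n595N13a r_595N13a 31 :=
  sm8 sd_595N13a (by decide +kernel) (by decide +kernel) (by decide +kernel)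
    (by decide +kernel) (by decide +kernel) (by decide +kernel)

lemma sd_595N13b : SD n595N13b r_595N13b :=
  ⟨k_595N13b, rfl, rfl, rfl, rfl, rfl, by decide +kernel, by decide +kernel, rfl, rfl,
    by decide +kernel, by decide +kernel, by decide +kernel, by decide +kernel, by decide +kernel⟩

lemma sm_595N13b : SM n595N13b r_595N13b 31 :=
  sm8 sd_595N13b (by decide +kernel) (by decide +kernel) (by decide +kernel)
    (by decide +kernel) (by decide +kernel) (by decide +kernel)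

lemma sd_364F13a : SD n364F13a r_364F13a :=
  ⟨k_364F13a, rfl, rfl, rfl, rfl, rfl, by decide +kernel, by decide +kernel, rfl, rfl,
    by decide +kernel, by decide +kernel, by decide +kernel, by decide +kernel, by decide +kernel⟩

lemma sm_364F13a : SM n364F13a r_364F13a 31 :=
  sm8 sd_364F13a (by decide +kernel) (by decide +kernel) (by decide +kernel)
    (by decide +kernel) (by decide +kernel) (by decide +kernel)

lemma sd_364F13b : SD n364F13b r_364F13b :=
  ⟨k_364F13b, rfl, rfl, rfl, rfl, rfl, by decide +kernel, by decide +kernel, rfl, rfl,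
    by decide +kernel, by decide +kernel, by decide +kernel, by decide +kernel, by decide +kernel⟩

lemma sm_364F13b : SM n364F13b r_364F13b 31 :=
  sm8 sd_364F13b (by decide +kernel) (by decide +kernel) (by decide +kernel)
    (by decide +kernel) (by decide +kernel) (by decide +kernel)

lemma sd_260F13 : SD n260F13 r_260F13 :=
  ⟨k_260F13, rfl, rfl, rfl, rfl, rfl, by decide +kernel, by decide +kernel, rfl, rfl,
    by decide +kernel, by decide +kernel, by decide +kernel, by decide +kernel, by decide +kernel⟩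

lemma sm_260F13 : SM n260F13 r_260F13 31 :=
  sm8 sd_260F13 (by decide +kernel) (by decide +kernel) (by decide +kernel)
    (by decide +kernel) (by decide +kernel) (by decide +kernel)

lemma sd_140N13 : SD n140N13 r_140N13 :=
  ⟨k_140N13, rfl, rfl, rfl, rfl, rfl, by decide +kernel, by decide +kernel, rfl, rfl,
    by decide +kernel, by decide +kernel, by decide +kernel, by decide +kernel, by decide +kernel⟩

lemma sm_140N13 : SM n140N13 r_140N13 31 :=
  sm8 sd_140N13 (by decide +kernel) (by decide +kernel) (by decide +kernel)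
    (by decide +kernel) (by decide +kernel) (by decide +kernel)

lemma sd_728F13 : SD n728F13 r_728F13 :=
  ⟨k_728F13, rfl, rfl, rfl, rfl, rfl, by decide +kernel, by decide +kernel, rfl, rfl,
    by decide +kernel, by decide +kernel, by decide +kernel, by decide +kernel, by decide +kernel⟩

lemma sm_728F13 : SM n728F13 r_728F13 31 :=
  sm8 sd_728F13 (by decide +kernel) (by decide +kernel) (by decide +kernel)
    (by decide +kernel) (by decide +kernel) (by decide +kernel)

lemma sd_680N13 : SD n680N13 r_680N13 :=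
  ⟨k_680N13, rfl, rfl, rfl, rfl, rfl, by decide +kernel, by decide +kernel, rfl, rfl,
    by decide +kernel, by decide +kernel, by decide +kernel, by decide +kernel, by decide +kernel⟩

lemma sm_680N13 : SM n680N13 r_680N13 31 :=
  sm8 sd_680N13 (by decide +kernel) (by decide +kernel) (by decide +kernel)
    (by decide +kernel) (by decide +kernel) (by decide +kernel)

lemma sd_520F5 : SD n520F5 r_520F5 :=
  ⟨k_520F5, rfl, rfl, rfl, rfl, rfl, by decide +kernel, by decide +kernel, rfl, rfl,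
    by decide +kernel, by decide +kernel, by decide +kernel, by decide +kernel, by decide +kernel⟩

lemma sm_520F5 : SM n520F5 r_520F5 31 :=
  sm8 sd_520F5 (by decide +kernel) (by decide +kernel) (by decide +kernel)
    (by decide +kernel) (by decide +kernel) (by decide +kernel)

lemma sd_728N5 : SD n728N5 r_728N5 :=
  ⟨k_728N5, rfl, rfl, rfl, rfl, rfl, by decide +kernel, by decide +kernel, rfl, rfl,
    by decide +kernel, by decide +kernel, by decide +kernel, by decide +kernel, by decide +kernel⟩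

lemma sm_728N5 : SM n728N5 r_728N5 31 :=
  sm8 sd_728N5 (by decide +kernel) (by decide +kernel) (by decide +kernel)
    (by decide +kernel) (by decide +kernel) (by decide +kernel)

lemma sd_616N13 : SD n616N13 r_616N13 :=
  ⟨k_616N13, rfl, rfl, rfl, rfl, rfl, by decide +kernel, by decide +kernel, rfl, rfl,
    by decide +kernel, by decide +kernel, by decide +kernel, by decide +kernel, by decide +kernel⟩

lemma sm_616N13 : SM n616N13 r_616N13 31 :=
  sm8 sd_616N13 (by decide +kernel) (by decide +kernel) (by decide +kernel)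
    (by decide +kernel) (by decide +kernel) (by decide +kernel)

end Pool.Agent.LibH4.CX


end

section

/-! generated: static data of the relations -/

namespace Pool.Agent.LibH4.CX

open Pool.Agent.LibH4.CW

lemma sd_308F7 : SD n308F7 r_308F7 :=
  ⟨k_308F7, rfl, rfl, rfl, rfl, rfl, by decide +kernel, by decide +kernel, rfl, rfl,
    by decide +kernel, by decide +kernel, by decide +kernel, by decide +kernel, by decide +kernel⟩

lemma sm_308F7 : SM n308F7 r_308F7 31 :=
  sm8 sd_308F7 (by decide +kernel) (by decide +kernel) (by decide +kernel)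
    (by decide +kernel) (by decide +kernel) (by decide +kernel)

lemma sd_143N5 : SD n143N5 r_143N5 :=
  ⟨k_143N5, rfl, rfl, rfl, rfl, rfl, by decide +kernel, by decide +kernel, rfl, rfl,
    by decide +kernel, by decide +kernel, by decide +kernel, by decide +kernel, by decide +kernel⟩

lemma sm_143N5 : SM n143N5 r_143N5 31 :=
  sm32 sd_143N5 (by decide +kernel) (by decide +kernel) (by decide +kernel) (by decide +kernel)
    (by decide +kernel) (by decide +kernel) (by decide +kernel)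

lemma sd_143N7 : SD n143N7 r_143N7 :=
  ⟨k_143N7, rfl, rfl, rfl, rfl, rfl, by decide +kernel, by decide +kernel, rfl, rfl,
    by decide +kernel, by decide +kernel, by decide +kernel, by decide +kernel, by decide +kernel⟩

lemma sm_143N7 : SM n143N7 r_143N7 31 :=
  sm32 sd_143N7 (by decide +kernel) (by decide +kernel) (by decide +kernel) (by decide +kernel)
    (by decide +kernel) (by decide +kernel) (by decide +kernel)

lemma sd_88F11 : SD n88F11 r_88F11 :=
  ⟨k_88F11, rfl, rfl, rfl, rfl, rfl, by decide +kernel, by decide +kernel, rfl, rfl,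
    by decide +kernel, by decide +kernel, by decide +kernel, by decide +kernel, by decide +kernel⟩

lemma sm_88F11 : SM n88F11 r_88F11 31 :=
  sm32 sd_88F11 (by decide +kernel) (by decide +kernel) (by decide +kernel) (by decide +kernel)
    (by decide +kernel) (by decide +kernel) (by decide +kernel)

lemma sd_616F11 : SD n616F11 r_616F11 :=
  ⟨k_616F11, rfl, rfl, rfl, rfl, rfl, by decide +kernel, by decide +kernel, rfl, rfl,
    by decide +kernel, by decide +kernel, by decide +kernel, by decide +kernel, by decide +kernel⟩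

lemma sm_616F11 : SM n616F11 r_616F11 31 :=
  sm8 sd_616F11 (by decide +kernel) (by decide +kernel) (by decide +kernel)
    (by decide +kernel) (by decide +kernel) (by decide +kernel)

lemma sd_187F17a : SD n187F17a r_187F17a :=
  ⟨k_187F17a, rfl, rfl, rfl, rfl, rfl, by decide +kernel, by decide +kernel, rfl, rfl,
    by decide +kernel, by decide +kernel, by decide +kernel, by decide +kernel, by decide +kernel⟩

lemma sm_187F17a : SM n187F17a r_187F17a 31 :=
  sm32 sd_187F17a (by decide +kernel) (by decide +kernel) (by decide +kernel) (by decide +kernel)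
    (by decide +kernel) (by decide +kernel) (by decide +kernel)

lemma sd_572N5 : SD n572N5 r_572N5 :=
  ⟨k_572N5, rfl, rfl, rfl, rfl, rfl, by decide +kernel, by decide +kernel, rfl, rfl,
    by decide +kernel, by decide +kernel, by decide +kernel, by decide +kernel, by decide +kernel⟩

lemma sm_572N5 : SM n572N5 r_572N5 31 :=
  sm8 sd_572N5 (by decide +kernel) (by decide +kernel) (by decide +kernel)
    (by decide +kernel) (by decide +kernel) (by decide +kernel)

lemma sd_133N13 : SD n133N13 r_133N13 :=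
  ⟨k_133N13, rfl, rfl, rfl, rfl, rfl, by decide +kernel, by decide +kernel, rfl, rfl,
    by decide +kernel, by decide +kernel, by decide +kernel, by decide +kernel, by decide +kernel⟩

lemma sm_133N13 : SM n133N13 r_133N13 31 :=
  sm32 sd_133N13 (by decide +kernel) (by decide +kernel) (by decide +kernel) (by decide +kernel)
    (by decide +kernel) (by decide +kernel) (by decide +kernel)

lemma sd_95N13 : SD n95N13 r_95N13 :=
  ⟨k_95N13, rfl, rfl, rfl, rfl, rfl, by decide +kernel, by decide +kernel, rfl, rfl,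
    by decide +kernel, by decide +kernel, by decide +kernel, by decide +kernel, by decide +kernel⟩

lemma sm_95N13 : SM n95N13 r_95N13 31 :=
  sm32 sd_95N13 (by decide +kernel) (by decide +kernel) (by decide +kernel) (by decide +kernel)
    (by decide +kernel) (by decide +kernel) (by decide +kernel)

lemma sd_95F19 : SD n95F19 r_95F19 :=
  ⟨k_95F19, rfl, rfl, rfl, rfl, rfl, by decide +kernel, by decide +kernel, rfl, rfl,
    by decide +kernel, by decide +kernel, by decide +kernel, by decide +kernel, by decide +kernel⟩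

lemma sm_95F19 : SM n95F19 r_95F19 31 :=
  sm32 sd_95F19 (by decide +kernel) (by decide +kernel) (by decide +kernel) (by decide +kernel)
    (by decide +kernel) (by decide +kernel) (by decide +kernel)

lemma sd_247F19a : SD n247F19a r_247F19a :=
  ⟨k_247F19a, rfl, rfl, rfl, rfl, rfl, by decide +kernel, by decide +kernel, rfl, rfl,
    by decide +kernel, by decide +kernel, by decide +kernel, by decide +kernel, by decide +kernel⟩

lemma sm_247F19a : SM n247F19a r_247F19a 31 :=
  sm32 sd_247F19a (by decide +kernel) (by decide +kernel) (by decide +kernel) (by decide +kernel)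
    (by decide +kernel) (by decide +kernel) (by decide +kernel)

lemma sd_152F19a : SD n152F19a r_152F19a :=
  ⟨k_152F19a, rfl, rfl, rfl, rfl, rfl, by decide +kernel, by decide +kernel, rfl, rfl,
    by decide +kernel, by decide +kernel, by decide +kernel, by decide +kernel, by decide +kernel⟩

lemma sm_152F19a : SM n152F19a r_152F19a 31 :=
  sm32 sd_152F19a (by decide +kernel) (by decide +kernel) (by decide +kernel) (by decide +kernel)
    (by decide +kernel) (by decide +kernel) (by decide +kernel)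

lemma sd_152F19b : SD n152F19b r_152F19b :=
  ⟨k_152F19b, rfl, rfl, rfl, rfl, rfl, by decide +kernel, by decide +kernel, rfl, rfl,
    by decide +kernel, by decide +kernel, by decide +kernel, by decide +kernel, by decide +kernel⟩

lemma sm_152F19b : SM n152F19b r_152F19b 31 :=
  sm32 sd_152F19b (by decide +kernel) (by decide +kernel) (by decide +kernel) (by decide +kernel)
    (by decide +kernel) (by decide +kernel) (by decide +kernel)

lemma sd_935N7 : SD n935N7 r_935N7 :=
  ⟨k_935N7, rfl, rfl, rfl, rfl, rfl, by decide +kernel, by decide +kernel, rfl, rfl,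
    by decide +kernel, by decide +kernel, by decide +kernel, by decide +kernel, by decide +kernel⟩

lemma sm_935N7 : SM n935N7 r_935N7 31 :=
  sm8 sd_935N7 (by decide +kernel) (by decide +kernel) (by decide +kernel)
    (by decide +kernel) (by decide +kernel) (by decide +kernel)

lemma sd_728F7 : SD n728F7 r_728F7 :=
  ⟨k_728F7, rfl, rfl, rfl, rfl, rfl, by decide +kernel, by decide +kernel, rfl, rfl,
    by decide +kernel, by decide +kernel, by decide +kernel, by decide +kernel, by decide +kernel⟩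

lemma sm_728F7 : SM n728F7 r_728F7 31 :=
  sm8 sd_728F7 (by decide +kernel) (by decide +kernel) (by decide +kernel)
    (by decide +kernel) (by decide +kernel) (by decide +kernel)

lemma sd_520N7 : SD n520N7 r_520N7 :=
  ⟨k_520N7, rfl, rfl, rfl, rfl, rfl, by decide +kernel, by decide +kernel, rfl, rfl,
    by decide +kernel, by decide +kernel, by decide +kernel, by decide +kernel, by decide +kernel⟩

lemma sm_520N7 : SM n520N7 r_520N7 31 :=
  sm8 sd_520N7 (by decide +kernel) (by decide +kernel) (by decide +kernel)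
    (by decide +kernel) (by decide +kernel) (by decide +kernel)

lemma sd_187F17b : SD n187F17b r_187F17b :=
  ⟨k_187F17b, rfl, rfl, rfl, rfl, rfl, by decide +kernel, by decide +kernel, rfl, rfl,
    by decide +kernel, by decide +kernel, by decide +kernel, by decide +kernel, by decide +kernel⟩

lemma sm_187F17b : SM n187F17b r_187F17b 31 :=
  sm32 sd_187F17b (by decide +kernel) (by decide +kernel) (by decide +kernel) (by decide +kernel)
    (by decide +kernel) (by decide +kernel) (by decide +kernel)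

lemma sd_715N7 : SD n715N7 r_715N7 :=
  ⟨k_715N7, rfl, rfl, rfl, rfl, rfl, by decide +kernel, by decide +kernel, rfl, rfl,
    by decide +kernel, by decide +kernel, by decide +kernel, by decide +kernel, by decide +kernel⟩

lemma sm_715N7 : SM n715N7 r_715N7 31 :=
  sm8 sd_715N7 (by decide +kernel) (by decide +kernel) (by decide +kernel)
    (by decide +kernel) (by decide +kernel) (by decide +kernel)

end Pool.Agent.LibH4.CX


end

section

/-! generated: soundness of the relations -/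

namespace Pool.Agent.LibH4.CX

open Pool.Agent.LibH4.CW

variable {par : Bool} {a N : ℕ} {e : ℕ → ℤ × ℤ × ℤ} {r1 r2 r3 r : Rc} {X : Tr}

lemma q_91F13 (W : World par a e N) (T1 : RT par a e 13 r1) (T2 : RT par a e 7 r2)
    (T3 : RT par a e 1 r3) (T : RT par a e 13 r) (h : In N X) :
    In N (relX par n91F13 r1 r2 r3 r X) :=
  relX_spec W sd_91F13 sm_91F13 le_rfl (show Nat.Prime 13 by norm_num) T1 T2 T3 T h

lemma q_455F13a (W : World par a e N) (T1 : RT par a e 13 r1) (T2 : RT par a e 7 r2)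
    (T3 : RT par a e 5 r3) (T : RT par a e 13 r) (h : In N X) :
    In N (relX par n455F13a r1 r2 r3 r X) :=
  relX_spec W sd_455F13a sm_455F13a le_rfl (show Nat.Prime 13 by norm_num) T1 T2 T3 T h

lemma q_455F13b (W : World par a e N) (T1 : RT par a e 13 r1) (T2 : RT par a e 7 r2)
    (T3 : RT par a e 5 r3) (T : RT par a e 13 r) (h : In N X) :
    In N (relX par n455F13b r1 r2 r3 r X) :=
  relX_spec W sd_455F13b sm_455F13b le_rfl (show Nat.Prime 13 by norm_num) T1 T2 T3 T h

lemma q_455F13c (W : World par a e N) (T1 : RT par a e 13 r1) (T2 : RT par a e 7 r2)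
    (T3 : RT par a e 5 r3) (T : RT par a e 13 r) (h : In N X) :
    In N (relX par n455F13c r1 r2 r3 r X) :=
  relX_spec W sd_455F13c sm_455F13c le_rfl (show Nat.Prime 13 by norm_num) T1 T2 T3 T h

lemma q_455F13d (W : World par a e N) (T1 : RT par a e 13 r1) (T2 : RT par a e 7 r2)
    (T3 : RT par a e 5 r3) (T : RT par a e 13 r) (h : In N X) :
    In N (relX par n455F13d r1 r2 r3 r X) :=
  relX_spec W sd_455F13d sm_455F13d le_rfl (show Nat.Prime 13 by norm_num) T1 T2 T3 T h

lemma q_119N13 (W : World par a e N) (T1 : RT par a e 17 r1) (T2 : RT par a e 7 r2)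
    (T3 : RT par a e 1 r3) (T : RT par a e 13 r) (h : In N X) :
    In N (relX par n119N13 r1 r2 r3 r X) :=
  relX_spec W sd_119N13 sm_119N13 le_rfl (show Nat.Prime 13 by norm_num) T1 T2 T3 T h

lemma q_119N5 (W : World par a e N) (T1 : RT par a e 17 r1) (T2 : RT par a e 7 r2)
    (T3 : RT par a e 1 r3) (T : RT par a e 5 r) (h : In N X) :
    In N (relX par n119N5 r1 r2 r3 r X) :=
  relX_spec W sd_119N5 sm_119N5 le_rfl (show Nat.Prime 5 by norm_num) T1 T2 T3 T h

lemma q_221N5 (W : World par a e N) (T1 : RT par a e 17 r1) (T2 : RT par a e 13 r2)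
    (T3 : RT par a e 1 r3) (T : RT par a e 5 r) (h : In N X) :
    In N (relX par n221N5 r1 r2 r3 r X) :=
  relX_spec W sd_221N5 sm_221N5 le_rfl (show Nat.Prime 5 by norm_num) T1 T2 T3 T h

lemma q_595N13a (W : World par a e N) (T1 : RT par a e 17 r1) (T2 : RT par a e 7 r2)
    (T3 : RT par a e 5 r3) (T : RT par a e 13 r) (h : In N X) :
    In N (relX par n595N13a r1 r2 r3 r X) :=
  relX_spec W sd_595N13a sm_595N13a le_rfl (show Nat.Prime 13 by norm_num) T1 T2 T3 T h

lemma q_595N13b (W : World par a e N) (T1 : RT par a e 17 r1) (T2 : RT par a e 7 r2)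
    (T3 : RT par a e 5 r3) (T : RT par a e 13 r) (h : In N X) :
    In N (relX par n595N13b r1 r2 r3 r X) :=
  relX_spec W sd_595N13b sm_595N13b le_rfl (show Nat.Prime 13 by norm_num) T1 T2 T3 T h

lemma q_364F13a (W : World par a e N) (T1 : RT par a e 13 r1) (T2 : RT par a e 7 r2)
    (T3 : RT par a e 4 r3) (T : RT par a e 13 r) (h : In N X) :
    In N (relX par n364F13a r1 r2 r3 r X) :=
  relX_spec W sd_364F13a sm_364F13a le_rfl (show Nat.Prime 13 by norm_num) T1 T2 T3 T h

lemma q_364F13b (W : World par a e N) (T1 : RT par a e 13 r1) (T2 : RT par a e 7 r2)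
    (T3 : RT par a e 4 r3) (T : RT par a e 13 r) (h : In N X) :
    In N (relX par n364F13b r1 r2 r3 r X) :=
  relX_spec W sd_364F13b sm_364F13b le_rfl (show Nat.Prime 13 by norm_num) T1 T2 T3 T h

lemma q_260F13 (W : World par a e N) (T1 : RT par a e 13 r1) (T2 : RT par a e 5 r2)
    (T3 : RT par a e 4 r3) (T : RT par a e 13 r) (h : In N X) :
    In N (relX par n260F13 r1 r2 r3 r X) :=
  relX_spec W sd_260F13 sm_260F13 le_rfl (show Nat.Prime 13 by norm_num) T1 T2 T3 T h

lemma q_140N13 (W : World par a e N) (T1 : RT par a e 7 r1) (T2 : RT par a e 5 r2)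
    (T3 : RT par a e 4 r3) (T : RT par a e 13 r) (h : In N X) :
    In N (relX par n140N13 r1 r2 r3 r X) :=
  relX_spec W sd_140N13 sm_140N13 le_rfl (show Nat.Prime 13 by norm_num) T1 T2 T3 T h

lemma q_728F13 (W : World par a e N) (T1 : RT par a e 13 r1) (T2 : RT par a e 7 r2)
    (T3 : RT par a e 8 r3) (T : RT par a e 13 r) (h : In N X) :
    In N (relX par n728F13 r1 r2 r3 r X) :=
  relX_spec W sd_728F13 sm_728F13 le_rfl (show Nat.Prime 13 by norm_num) T1 T2 T3 T h

lemma q_680N13 (W : World par a e N) (T1 : RT par a e 17 r1) (T2 : RT par a e 5 r2)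
    (T3 : RT par a e 8 r3) (T : RT par a e 13 r) (h : In N X) :
    In N (relX par n680N13 r1 r2 r3 r X) :=
  relX_spec W sd_680N13 sm_680N13 le_rfl (show Nat.Prime 13 by norm_num) T1 T2 T3 T h

lemma q_520F5 (W : World par a e N) (T1 : RT par a e 13 r1) (T2 : RT par a e 5 r2)
    (T3 : RT par a e 8 r3) (T : RT par a e 5 r) (h : In N X) :
    In N (relX par n520F5 r1 r2 r3 r X) :=
  relX_spec W sd_520F5 sm_520F5 le_rfl (show Nat.Prime 5 by norm_num) T1 T2 T3 T h

lemma q_728N5 (W : World par a e N) (T1 : RT par a e 13 r1) (T2 : RT par a e 7 r2)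
    (T3 : RT par a e 8 r3) (T : RT par a e 5 r) (h : In N X) :
    In N (relX par n728N5 r1 r2 r3 r X) :=
  relX_spec W sd_728N5 sm_728N5 le_rfl (show Nat.Prime 5 by norm_num) T1 T2 T3 T h

lemma q_616N13 (W : World par a e N) (T1 : RT par a e 11 r1) (T2 : RT par a e 7 r2)
    (T3 : RT par a e 8 r3) (T : RT par a e 13 r) (h : In N X) :
    In N (relX par n616N13 r1 r2 r3 r X) :=
  relX_spec W sd_616N13 sm_616N13 le_rfl (show Nat.Prime 13 by norm_num) T1 T2 T3 T h

lemma q_308F7 (W : World par a e N) (T1 : RT par a e 11 r1) (T2 : RT par a e 7 r2)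
    (T3 : RT par a e 4 r3) (T : RT par a e 7 r) (h : In N X) :
    In N (relX par n308F7 r1 r2 r3 r X) :=
  relX_spec W sd_308F7 sm_308F7 le_rfl (show Nat.Prime 7 by norm_num) T1 T2 T3 T h

lemma q_143N5 (W : World par a e N) (T1 : RT par a e 11 r1) (T2 : RT par a e 13 r2)
    (T3 : RT par a e 1 r3) (T : RT par a e 5 r) (h : In N X) :
    In N (relX par n143N5 r1 r2 r3 r X) :=
  relX_spec W sd_143N5 sm_143N5 le_rfl (show Nat.Prime 5 by norm_num) T1 T2 T3 T h

lemma q_143N7 (W : World par a e N) (T1 : RT par a e 11 r1) (T2 : RT par a e 13 r2)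
    (T3 : RT par a e 1 r3) (T : RT par a e 7 r) (h : In N X) :
    In N (relX par n143N7 r1 r2 r3 r X) :=
  relX_spec W sd_143N7 sm_143N7 le_rfl (show Nat.Prime 7 by norm_num) T1 T2 T3 T h

lemma q_88F11 (W : World par a e N) (T1 : RT par a e 11 r1) (T2 : RT par a e 8 r2)
    (T3 : RT par a e 1 r3) (T : RT par a e 11 r) (h : In N X) :
    In N (relX par n88F11 r1 r2 r3 r X) :=
  relX_spec W sd_88F11 sm_88F11 le_rfl (show Nat.Prime 11 by norm_num) T1 T2 T3 T h

lemma q_616F11 (W : World par a e N) (T1 : RT par a e 11 r1) (T2 : RT par a e 7 r2)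
    (T3 : RT par a e 8 r3) (T : RT par a e 11 r) (h : In N X) :
    In N (relX par n616F11 r1 r2 r3 r X) :=
  relX_spec W sd_616F11 sm_616F11 le_rfl (show Nat.Prime 11 by norm_num) T1 T2 T3 T h

lemma q_187F17a (W : World par a e N) (T1 : RT par a e 17 r1) (T2 : RT par a e 11 r2)
    (T3 : RT par a e 1 r3) (T : RT par a e 17 r) (h : In N X) :
    In N (relX par n187F17a r1 r2 r3 r X) :=
  relX_spec W sd_187F17a sm_187F17a le_rfl (show Nat.Prime 17 by norm_num) T1 T2 T3 T h

lemma q_572N5 (W : World par a e N) (T1 : RT par a e 11 r1) (T2 : RT par a e 13 r2)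
    (T3 : RT par a e 4 r3) (T : RT par a e 5 r) (h : In N X) :
    In N (relX par n572N5 r1 r2 r3 r X) :=
  relX_spec W sd_572N5 sm_572N5 le_rfl (show Nat.Prime 5 by norm_num) T1 T2 T3 T h

lemma q_133N13 (W : World par a e N) (T1 : RT par a e 19 r1) (T2 : RT par a e 7 r2)
    (T3 : RT par a e 1 r3) (T : RT par a e 13 r) (h : In N X) :
    In N (relX par n133N13 r1 r2 r3 r X) :=
  relX_spec W sd_133N13 sm_133N13 le_rfl (show Nat.Prime 13 by norm_num) T1 T2 T3 T h

lemma q_95N13 (W : World par a e N) (T1 : RT par a e 19 r1) (T2 : RT par a e 5 r2)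
    (T3 : RT par a e 1 r3) (T : RT par a e 13 r) (h : In N X) :
    In N (relX par n95N13 r1 r2 r3 r X) :=
  relX_spec W sd_95N13 sm_95N13 le_rfl (show Nat.Prime 13 by norm_num) T1 T2 T3 T h

lemma q_95F19 (W : World par a e N) (T1 : RT par a e 19 r1) (T2 : RT par a e 5 r2)
    (T3 : RT par a e 1 r3) (T : RT par a e 19 r) (h : In N X) :
    In N (relX par n95F19 r1 r2 r3 r X) :=
  relX_spec W sd_95F19 sm_95F19 le_rfl (show Nat.Prime 19 by norm_num) T1 T2 T3 T h

lemma q_247F19a (W : World par a e N) (T1 : RT par a e 19 r1) (T2 : RT par a e 13 r2)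
    (T3 : RT par a e 1 r3) (T : RT par a e 19 r) (h : In N X) :
    In N (relX par n247F19a r1 r2 r3 r X) :=
  relX_spec W sd_247F19a sm_247F19a le_rfl (show Nat.Prime 19 by norm_num) T1 T2 T3 T h

lemma q_152F19a (W : World par a e N) (T1 : RT par a e 19 r1) (T2 : RT par a e 8 r2)
    (T3 : RT par a e 1 r3) (T : RT par a e 19 r) (h : In N X) :
    In N (relX par n152F19a r1 r2 r3 r X) :=
  relX_spec W sd_152F19a sm_152F19a le_rfl (show Nat.Prime 19 by norm_num) T1 T2 T3 T h

lemma q_152F19b (W : World par a e N) (T1 : RT par a e 19 r1) (T2 : RT par a e 8 r2)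
    (T3 : RT par a e 1 r3) (T : RT par a e 19 r) (h : In N X) :
    In N (relX par n152F19b r1 r2 r3 r X) :=
  relX_spec W sd_152F19b sm_152F19b le_rfl (show Nat.Prime 19 by norm_num) T1 T2 T3 T h

lemma q_935N7 (W : World par a e N) (T1 : RT par a e 17 r1) (T2 : RT par a e 11 r2)
    (T3 : RT par a e 5 r3) (T : RT par a e 7 r) (h : In N X) :
    In N (relX par n935N7 r1 r2 r3 r X) :=
  relX_spec W sd_935N7 sm_935N7 le_rfl (show Nat.Prime 7 by norm_num) T1 T2 T3 T h

lemma q_728F7 (W : World par a e N) (T1 : RT par a e 13 r1) (T2 : RT par a e 7 r2)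
    (T3 : RT par a e 8 r3) (T : RT par a e 7 r) (h : In N X) :
    In N (relX par n728F7 r1 r2 r3 r X) :=
  relX_spec W sd_728F7 sm_728F7 le_rfl (show Nat.Prime 7 by norm_num) T1 T2 T3 T h

lemma q_520N7 (W : World par a e N) (T1 : RT par a e 13 r1) (T2 : RT par a e 5 r2)
    (T3 : RT par a e 8 r3) (T : RT par a e 7 r) (h : In N X) :
    In N (relX par n520N7 r1 r2 r3 r X) :=
  relX_spec W sd_520N7 sm_520N7 le_rfl (show Nat.Prime 7 by norm_num) T1 T2 T3 T h

lemma q_187F17b (W : World par a e N) (T1 : RT par a e 17 r1) (T2 : RT par a e 11 r2)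
    (T3 : RT par a e 1 r3) (T : RT par a e 17 r) (h : In N X) :
    In N (relX par n187F17b r1 r2 r3 r X) :=
  relX_spec W sd_187F17b sm_187F17b le_rfl (show Nat.Prime 17 by norm_num) T1 T2 T3 T h

lemma q_715N7 (W : World par a e N) (T1 : RT par a e 11 r1) (T2 : RT par a e 13 r2)
    (T3 : RT par a e 5 r3) (T : RT par a e 7 r) (h : In N X) :
    In N (relX par n715N7 r1 r2 r3 r X) :=
  relX_spec W sd_715N7 sm_715N7 le_rfl (show Nat.Prime 7 by norm_num) T1 T2 T3 T h

end Pool.Agent.LibH4.CX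


end

section

/-! generated: soundness of the stages -/

namespace Pool.Agent.LibH4.CX

open Pool.Agent.LibH4.Ker Pool.Agent.Lib_helper5.TB Pool.Agent.LibH4.CW

variable {a N : ℕ} {e : ℕ → ℤ × ℤ × ℤ}

lemma in_start (N : ℕ) : In N (Tr.st (nat_lit 0) (nat_lit 1) Tr.nil) :=
  Or.inl ⟨one_pos, N, by change N = 0 + 1 * N; omega⟩

theorem stA_spec (W : World false a e N) (h13 : (2 * N + 1) % 13 ≠ 0) {r13 r7 r5 : Rc}
    (T1 : RT false a e 1 r1o_0) (T13 : RT false a e 13 r13) (T7 : RT false a e 7 r7) (m7 : r7 ∈ F7o) (T5 : RT false a e 5 r5) (m5 : r5 ∈ F5o)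
    {E : List E3} (h : stA r13 E = true) :
    ∃ x ∈ E, x.r13 = r13 ∧ x.r7 = r7 ∧ x.r5 = r5 ∧ In N x.s := by
  unfold stA at h
  have i0 := lft_spec T13.pi (in_start N)
  generalize lft r13.pi (Tr.st (nat_lit 0) (nat_lit 1) Tr.nil) = s0 at h i0
  have h := allL_mem h r7 m7
  have i1 := q_91F13 W T13 T7 T1 T13 i0
  have h := ne_spec h i1
  generalize relX false n91F13 r13 r7 r1o_0 r13 s0 = s1 at h i1
  have h := allL_mem h r5 m5
  have i2 := q_455F13a W T13 T7 T5 T13 i1
  have h := ne_spec h i2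
  generalize relX false n455F13a r13 r7 r5 r13 s1 = s2 at h i2
  have i3 := q_455F13b W T13 T7 T5 T13 i2
  have h := ne_spec h i3
  generalize relX false n455F13b r13 r7 r5 r13 s2 = s3 at h i3
  have i4 := q_455F13c W T13 T7 T5 T13 i3
  have h := ne_spec h i4
  generalize relX false n455F13c r13 r7 r5 r13 s3 = s4 at h i4
  exact in3_spec h (filT_spec (c13_spec h13) (q_455F13d W T13 T7 T5 T13 i4))

theorem stB3_spec (W : World false a e N) (h13 : (2 * N + 1) % 13 ≠ 0)
    {r17 r13 r7 r5 r8 r4 r11 : Rc}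
    (T1 : RT false a e 1 r1o_0) (T17 : RT false a e 17 r17) (T13 : RT false a e 13 r13) (T7 : RT false a e 7 r7) (T5 : RT false a e 5 r5) (T8 : RT false a e 8 r8) (T4 : RT false a e 4 r4) (T11 : RT false a e 11 r11) (m11 : r11 ∈ F11o)
    {E : List E7} {s0 : Tr} (i0 : In N s0) (h : stB3 E r17 r13 r7 r5 r8 r4 s0 = true) :
    ∃ x ∈ E, x.r17 = r17 ∧ x.r13 = r13 ∧ x.r7 = r7 ∧ x.r5 = r5 ∧ x.r8 = r8 ∧ x.r4 = r4 ∧
      x.r11 = r11 ∧ In N x.s := by
  have h := allL_mem h r11 m11
  have i1 := filT_spec (c13_spec h13) (q_616N13 W T11 T7 T8 T13 i0)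
  have h := ne_spec h i1
  generalize filT c13 (relX false n616N13 r11 r7 r8 r13 s0) = s1 at h i1
  have i2 := q_308F7 W T11 T7 T4 T7 i1
  have h := ne_spec h i2
  generalize relX false n308F7 r11 r7 r4 r7 s1 = s2 at h i2
  have i3 := q_143N5 W T11 T13 T1 T5 i2
  have h := ne_spec h i3
  generalize relX false n143N5 r11 r13 r1o_0 r5 s2 = s3 at h i3
  have i4 := q_143N7 W T11 T13 T1 T7 i3
  have h := ne_spec h i4
  generalize relX false n143N7 r11 r13 r1o_0 r7 s3 = s4 at h i4
  have i5 := q_88F11 W T11 T8 T1 T11 i4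
  have h := ne_spec h i5
  generalize relX false n88F11 r11 r8 r1o_0 r11 s4 = s5 at h i5
  have i6 := q_616F11 W T11 T7 T8 T11 i5
  have h := ne_spec h i6
  generalize relX false n616F11 r11 r7 r8 r11 s5 = s6 at h i6
  have i7 := q_187F17a W T17 T11 T1 T17 i6
  have h := ne_spec h i7
  generalize relX false n187F17a r17 r11 r1o_0 r17 s6 = s7 at h i7
  exact in7_spec h (filT_spec (c13_spec h13) (q_572N5 W T11 T13 T4 T5 i7))

theorem stB2_spec (W : World false a e N) (h13 : (2 * N + 1) % 13 ≠ 0)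
    {r17 r13 r7 r5 r8 r4 r11 : Rc}
    (T1 : RT false a e 1 r1o_0) (T17 : RT false a e 17 r17) (T13 : RT false a e 13 r13) (T7 : RT false a e 7 r7) (T5 : RT false a e 5 r5) (T8 : RT false a e 8 r8) (T4 : RT false a e 4 r4) (T11 : RT false a e 11 r11) (m11 : r11 ∈ F11o)
    (m : (r8, r4) ∈ F84o)
    {E : List E7} {s0 : Tr} (i0 : In N s0) (h : stB2 E r17 r13 r7 r5 s0 = true) :
    ∃ x ∈ E, x.r17 = r17 ∧ x.r13 = r13 ∧ x.r7 = r7 ∧ x.r5 = r5 ∧ x.r8 = r8 ∧ x.r4 = r4 ∧
      x.r11 = r11 ∧ In N x.s := by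
  have h := allL_mem h (r8, r4) m
  have i1 := q_364F13a W T13 T7 T4 T13 i0
  have h := ne_spec h i1
  generalize relX false n364F13a r13 r7 r4 r13 s0 = s1 at h i1
  have i2 := q_364F13b W T13 T7 T4 T13 i1
  have h := ne_spec h i2
  generalize relX false n364F13b r13 r7 r4 r13 s1 = s2 at h i2
  have i3 := q_260F13 W T13 T5 T4 T13 i2
  have h := ne_spec h i3
  generalize relX false n260F13 r13 r5 r4 r13 s2 = s3 at h i3
  have i4 := filT_spec (c13_spec h13) (q_140N13 W T7 T5 T4 T13 i3)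
  have h := ne_spec h i4
  generalize filT c13 (relX false n140N13 r7 r5 r4 r13 s3) = s4 at h i4
  have i5 := q_728F13 W T13 T7 T8 T13 i4
  have h := ne_spec h i5
  generalize relX false n728F13 r13 r7 r8 r13 s4 = s5 at h i5
  have i6 := filT_spec (c13_spec h13) (q_680N13 W T17 T5 T8 T13 i5)
  have h := ne_spec h i6
  generalize filT c13 (relX false n680N13 r17 r5 r8 r13 s5) = s6 at h i6
  have i7 := q_520F5 W T13 T5 T8 T5 i6
  have h := ne_spec h i7
  generalize relX false n520F5 r13 r5 r8 r5 s6 = s7 at h i7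
  have i8 := q_728N5 W T13 T7 T8 T5 i7
  have h := ne_spec h i8
  generalize relX false n728N5 r13 r7 r8 r5 s7 = s8 at h i8
  exact stB3_spec W h13 T1 T17 T13 T7 T5 T8 T4 T11 m11 i8 h

theorem stB_spec (W : World false a e N) (h13 : (2 * N + 1) % 13 ≠ 0)
    {r17 r13 r7 r5 r8 r4 r11 : Rc} {s0 : Tr} (i0 : In N s0)
    (T1 : RT false a e 1 r1o_0) (T17 : RT false a e 17 r17) (T13 : RT false a e 13 r13) (T7 : RT false a e 7 r7) (T5 : RT false a e 5 r5) (T8 : RT false a e 8 r8) (T4 : RT false a e 4 r4) (T11 : RT false a e 11 r11) (m11 : r11 ∈ F11o)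
    (m : (r8, r4) ∈ F84o) {G : List (List E3)} {G0 : List E3} (m1 : G0 ∈ G)
    (m2 : E3.mk r13 r7 r5 s0 ∈ G0)
    {E : List E7} (h : stB r17 G E = true) :
    ∃ x ∈ E, x.r17 = r17 ∧ x.r13 = r13 ∧ x.r7 = r7 ∧ x.r5 = r5 ∧ x.r8 = r8 ∧ x.r4 = r4 ∧
      x.r11 = r11 ∧ In N x.s := by
  have h := allL_mem (allL_mem h G0 m1) _ m2
  have i1 := filT_spec (c13_spec h13) (q_119N13 W T17 T7 T1 T13 i0)
  have h := ne_spec h i1
  generalize filT c13 (relX false n119N13 r17 r7 r1o_0 r13 s0) = s1 at h i1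
  have i2 := q_119N5 W T17 T7 T1 T5 i1
  have h := ne_spec h i2
  generalize relX false n119N5 r17 r7 r1o_0 r5 s1 = s2 at h i2
  have i3 := q_221N5 W T17 T13 T1 T5 i2
  have h := ne_spec h i3
  generalize relX false n221N5 r17 r13 r1o_0 r5 s2 = s3 at h i3
  have i4 := q_595N13a W T17 T7 T5 T13 i3
  have h := ne_spec h i4
  generalize relX false n595N13a r17 r7 r5 r13 s3 = s4 at h i4
  have i5 := filT_spec (c13_spec h13) (q_595N13b W T17 T7 T5 T13 i4)
  have h := ne_spec h i5
  generalize filT c13 (relX false n595N13b r17 r7 r5 r13 s4) = s5 at h i5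
  exact stB2_spec W h13 T1 T17 T13 T7 T5 T8 T4 T11 m11 m i5 h

theorem stC_spec (W : World false a e N) (h13 : (2 * N + 1) % 13 ≠ 0)
    {r19 r17 r13 r7 r5 r8 r4 r11 : Rc} {s0 : Tr} (i0 : In N s0)
    (T1 : RT false a e 1 r1o_0) (T17 : RT false a e 17 r17) (T13 : RT false a e 13 r13) (T7 : RT false a e 7 r7) (T5 : RT false a e 5 r5) (T8 : RT false a e 8 r8) (T11 : RT false a e 11 r11) (T19 : RT false a e 19 r19)
    {G : List (List E7)} {G0 : List E7} (m1 : G0 ∈ G)
    (m2 : E7.mk r17 r13 r7 r5 r8 r4 r11 s0 ∈ G0)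
    (h : stC r19 G = true) : False := by
  have h := allL_mem (allL_mem h G0 m1) _ m2
  have i1 := q_133N13 W T19 T7 T1 T13 i0
  have h := ne_spec h i1
  generalize relX false n133N13 r19 r7 r1o_0 r13 s0 = s1 at h i1
  have i2 := filT_spec (c13_spec h13) (q_95N13 W T19 T5 T1 T13 i1)
  have h := ne_spec h i2
  generalize filT c13 (relX false n95N13 r19 r5 r1o_0 r13 s1) = s2 at h i2
  have i3 := q_95F19 W T19 T5 T1 T19 i2
  have h := ne_spec h i3
  generalize relX false n95F19 r19 r5 r1o_0 r19 s2 = s3 at h i3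
  have i4 := q_247F19a W T19 T13 T1 T19 i3
  have h := ne_spec h i4
  generalize relX false n247F19a r19 r13 r1o_0 r19 s3 = s4 at h i4
  have i5 := q_152F19a W T19 T8 T1 T19 i4
  have h := ne_spec h i5
  generalize relX false n152F19a r19 r8 r1o_0 r19 s4 = s5 at h i5
  have i6 := q_152F19b W T19 T8 T1 T19 i5
  have h := ne_spec h i6
  generalize relX false n152F19b r19 r8 r1o_0 r19 s5 = s6 at h i6
  exact nilT_spec h (q_935N7 W T17 T11 T5 T7 i6)

lemma filT_specK {N : ℕ} {p : ℕ → ℕ → Bool} {m : ℕ}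
    (hp : ∀ n K s, 0 < K → m ∣ K → N = n + K * s → p n K = true) {K0 : ℕ} {n0 : ℕ} (hm : 0 < m) {s : ℕ}
    (hK0 : 0 < K0) (hN : N = n0 + K0 * s) :
    In N (filT p (lft m (Tr.st n0 K0 Tr.nil))) := by
  have key : ∀ q, ∀ m' < q, (∃ s', N = n0 + K0 * m' + Nat.lcm K0 m * s') →
      In N (filT p (lf1 K0 (Nat.lcm K0 m) n0 q Tr.nil)) := by
    intro q
    induction q with
    | zero => intro m' h; omega
    | succ q ih =>
      intro m' hm' hs
      rw [lf1_succ]
      change In N (@Bool.rec (fun _ => Tr) (filT p (lf1 K0 (Nat.lcm K0 m) n0 q Tr.nil))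
        (Tr.st (n0 + K0 * q) (Nat.lcm K0 m) (filT p (lf1 K0 (Nat.lcm K0 m) n0 q Tr.nil)))
        (p (n0 + K0 * q) (Nat.lcm K0 m)))
      by_cases hq : m' = q
      · subst hq
        obtain ⟨s', hs'⟩ := hs
        rw [hp _ _ s' (Nat.lcm_pos hK0 hm) (Nat.dvd_lcm_right _ _) hs']
        exact Or.inl ⟨Nat.lcm_pos hK0 hm, s', hs'⟩
      · have h1 := ih m' (by omega) hs
        cases p (n0 + K0 * q) (Nat.lcm K0 m) with
        | true => exact Or.inr h1
        | false => exact h1
  obtain ⟨m', hm', s', hs'⟩ := lift_of hK0 (Nat.dvd_lcm_left K0 m) (Nat.lcm_pos hK0 hm) hN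
  have h2 := key _ m' hm' ⟨s', hs'⟩
  change In N (filT p (lf1 K0 (lcmS K0 m) n0 (lcmS K0 m / K0) Tr.nil))
  rw [lcmS_eq]
  exact h2

lemma c4_spec (W : World true a e N) {r4 : Rc} (T4 : RT true a e 4 r4) (n K s : ℕ) (_ : 0 < K)
    (hd : r4.pi ∣ K) (hN : N = n + K * s) : c4 r4.orb r4.pi n = true := by
  have h1 : n % r4.pi = N % r4.pi := by
    obtain ⟨k, rfl⟩ := hd
    rw [hN, mul_assoc, Nat.add_mul_mod_self_left]
  change Nat.beq (by3 (d32 r4.orb (n % r4.pi))) 3 = true
  rw [h1, T4.e3]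
  have hl := (T4.ts.last W T4.ok).2
  rw [T4.cn] at hl
  have hg := W.gen rfl
  set v := (4 - r4.x2) % 4 * iv 4 (cof 4).ex (hs 4 a (r4.x1, r4.x2) N).2.2 % 4 with hv
  have hv4 : v < 4 := Nat.mod_lt _ (by norm_num)
  have h5 : ((v : ℤ) : ZMod 4) = (((e 0).2.2 : ℤ) : ZMod 4) := by
    rw [← hl]; push_cast; rfl
  have h6 := (ZMod.intCast_eq_intCast_iff' _ _ 4).1 h5
  push_cast at h6
  have : v = 3 := by omega
  rw [this]
  rfl

theorem stD_spec (W : World true a e N) {r13 r7 r5 r8 r4 : Rc} {F8 : List Rc}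
    (T1 : RT true a e 1 r1e_0) (T13 : RT true a e 13 r13) (T7 : RT true a e 7 r7) (m7 : r7 ∈ F7e) (T5 : RT true a e 5 r5) (m5 : r5 ∈ F5e) (T8 : RT true a e 8 r8) (T4 : RT true a e 4 r4)
    (m : (r4, F8) ∈ F48e) (m8 : r8 ∈ F8) {E : List E5} (h : stD r13 E = true) :
    ∃ x ∈ E, x.r13 = r13 ∧ x.r7 = r7 ∧ x.r5 = r5 ∧ x.r8 = r8 ∧ x.r4 = r4 ∧ In N x.s := by
  have h := allL_mem h (r4, F8) m
  have i0 := lft_spec T13.pi (filT_specK (p := fun n _ => c4 r4.orb r4.pi n) (m := r4.pi) (c4_spec W T4) (n0 := 0) (K0 := 1)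
    (s := N) T4.pi one_pos (by omega))
  have h := ne_spec h i0
  have h := allL_mem h r7 m7
  generalize lft r13.pi (filT (fun n _ => c4 r4.orb r4.pi n)
      (lft r4.pi (Tr.st (nat_lit 0) (nat_lit 1) Tr.nil))) = s0 at h i0
  have i1 := q_91F13 W T13 T7 T1 T13 i0
  have h := ne_spec h i1
  generalize relX true n91F13 r13 r7 r1e_0 r13 s0 = s1 at h i1
  have i2 := q_364F13a W T13 T7 T4 T13 i1
  have h := ne_spec h i2
  generalize relX true n364F13a r13 r7 r4 r13 s1 = s2 at h i2
  have i3 := q_364F13b W T13 T7 T4 T13 i2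
  have h := ne_spec h i3
  generalize relX true n364F13b r13 r7 r4 r13 s2 = s3 at h i3
  have h := allL_mem h r5 m5
  have i4 := q_455F13a W T13 T7 T5 T13 i3
  have h := ne_spec h i4
  generalize relX true n455F13a r13 r7 r5 r13 s3 = s4 at h i4
  have i5 := q_455F13b W T13 T7 T5 T13 i4
  have h := ne_spec h i5
  generalize relX true n455F13b r13 r7 r5 r13 s4 = s5 at h i5
  have i6 := q_455F13c W T13 T7 T5 T13 i5
  have h := ne_spec h i6
  generalize relX true n455F13c r13 r7 r5 r13 s5 = s6 at h i6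
  have i7 := q_140N13 W T7 T5 T4 T13 i6
  have h := ne_spec h i7
  generalize relX true n140N13 r7 r5 r4 r13 s6 = s7 at h i7
  have i8 := q_260F13 W T13 T5 T4 T13 i7
  have h := ne_spec h i8
  generalize relX true n260F13 r13 r5 r4 r13 s7 = s8 at h i8
  have h := allL_mem h r8 m8
  have i9 := q_728F13 W T13 T7 T8 T13 i8
  have h := ne_spec h i9
  generalize relX true n728F13 r13 r7 r8 r13 s8 = s9 at h i9
  have i10 := q_728F7 W T13 T7 T8 T7 i9
  have h := ne_spec h i10
  generalize relX true n728F7 r13 r7 r8 r7 s9 = s10 at h i10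
  have i11 := q_728N5 W T13 T7 T8 T5 i10
  have h := ne_spec h i11
  generalize relX true n728N5 r13 r7 r8 r5 s10 = s11 at h i11
  have i12 := q_520F5 W T13 T5 T8 T5 i11
  have h := ne_spec h i12
  generalize relX true n520F5 r13 r5 r8 r5 s11 = s12 at h i12
  exact in5_spec h (q_520N7 W T13 T5 T8 T7 i12)

theorem stF3_spec (W : World true a e N) {r17 r13 r7 r5 r8 r4 r11 r19 : Rc}
    (T1 : RT true a e 1 r1e_0) (T13 : RT true a e 13 r13) (T7 : RT true a e 7 r7) (T5 : RT true a e 5 r5) (T8 : RT true a e 8 r8) (T19 : RT true a e 19 r19) (m19 : r19 ∈ F19e)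
    {s0 : Tr} (i0 : In N s0) (h : stF3 r17 r13 r7 r5 r8 r4 r11 s0 = true) : False := by
  have h := allL_mem h r19 m19
  have i1 := q_133N13 W T19 T7 T1 T13 i0
  have h := ne_spec h i1
  generalize relX true n133N13 r19 r7 r1e_0 r13 s0 = s1 at h i1
  have i2 := q_95N13 W T19 T5 T1 T13 i1
  have h := ne_spec h i2
  generalize relX true n95N13 r19 r5 r1e_0 r13 s1 = s2 at h i2
  have i3 := q_95F19 W T19 T5 T1 T19 i2
  have h := ne_spec h i3
  generalize relX true n95F19 r19 r5 r1e_0 r19 s2 = s3 at h i3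
  have i4 := q_247F19a W T19 T13 T1 T19 i3
  have h := ne_spec h i4
  generalize relX true n247F19a r19 r13 r1e_0 r19 s3 = s4 at h i4
  have i5 := q_152F19a W T19 T8 T1 T19 i4
  have h := ne_spec h i5
  generalize relX true n152F19a r19 r8 r1e_0 r19 s4 = s5 at h i5
  exact nilT_spec h (q_152F19b W T19 T8 T1 T19 i5)

theorem stF2_spec (W : World true a e N) {r17 r13 r7 r5 r8 r4 r11 r19 : Rc}
    (T1 : RT true a e 1 r1e_0) (T17 : RT true a e 17 r17) (T13 : RT true a e 13 r13) (T7 : RT true a e 7 r7) (T5 : RT true a e 5 r5) (T8 : RT true a e 8 r8) (T4 : RT true a e 4 r4) (T11 : RT true a e 11 r11) (m11 : r11 ∈ F11e) (T19 : RT true a e 19 r19) (m19 : r19 ∈ F19e)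
    {s0 : Tr} (i0 : In N s0) (h : stF2 r17 r13 r7 r5 r8 r4 s0 = true) : False := by
  have h := allL_mem h r11 m11
  have i1 := q_616N13 W T11 T7 T8 T13 i0
  have h := ne_spec h i1
  generalize relX true n616N13 r11 r7 r8 r13 s0 = s1 at h i1
  have i2 := q_308F7 W T11 T7 T4 T7 i1
  have h := ne_spec h i2
  generalize relX true n308F7 r11 r7 r4 r7 s1 = s2 at h i2
  have i3 := q_143N5 W T11 T13 T1 T5 i2
  have h := ne_spec h i3
  generalize relX true n143N5 r11 r13 r1e_0 r5 s2 = s3 at h i3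
  have i4 := q_143N7 W T11 T13 T1 T7 i3
  have h := ne_spec h i4
  generalize relX true n143N7 r11 r13 r1e_0 r7 s3 = s4 at h i4
  have i5 := q_88F11 W T11 T8 T1 T11 i4
  have h := ne_spec h i5
  generalize relX true n88F11 r11 r8 r1e_0 r11 s4 = s5 at h i5
  have i6 := q_616F11 W T11 T7 T8 T11 i5
  have h := ne_spec h i6
  generalize relX true n616F11 r11 r7 r8 r11 s5 = s6 at h i6
  have i7 := q_187F17a W T17 T11 T1 T17 i6
  have h := ne_spec h i7
  generalize relX true n187F17a r17 r11 r1e_0 r17 s6 = s7 at h i7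
  have i8 := q_187F17b W T17 T11 T1 T17 i7
  have h := ne_spec h i8
  generalize relX true n187F17b r17 r11 r1e_0 r17 s7 = s8 at h i8
  have i9 := q_572N5 W T11 T13 T4 T5 i8
  have h := ne_spec h i9
  generalize relX true n572N5 r11 r13 r4 r5 s8 = s9 at h i9
  have i10 := q_715N7 W T11 T13 T5 T7 i9
  have h := ne_spec h i10
  generalize relX true n715N7 r11 r13 r5 r7 s9 = s10 at h i10
  have i11 := q_935N7 W T17 T11 T5 T7 i10
  have h := ne_spec h i11
  generalize relX true n935N7 r17 r11 r5 r7 s10 = s11 at h i11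
  exact stF3_spec W T1 T13 T7 T5 T8 T19 m19 i11 h

theorem stF_spec (W : World true a e N)
    {r17 r13 r7 r5 r8 r4 r11 r19 : Rc} {s0 : Tr} (i0 : In N s0)
    (T1 : RT true a e 1 r1e_0) (T17 : RT true a e 17 r17) (T13 : RT true a e 13 r13) (T7 : RT true a e 7 r7) (T5 : RT true a e 5 r5) (T8 : RT true a e 8 r8) (T4 : RT true a e 4 r4) (T11 : RT true a e 11 r11) (m11 : r11 ∈ F11e) (T19 : RT true a e 19 r19) (m19 : r19 ∈ F19e)
    {G : List (List E5)} {G0 : List E5} (m1 : G0 ∈ G)
    (m2 : E5.mk r13 r7 r5 r8 r4 s0 ∈ G0)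
    (h : stF r17 G = true) : False := by
  have h := allL_mem (allL_mem h G0 m1) _ m2
  have i1 := q_119N13 W T17 T7 T1 T13 i0
  have h := ne_spec h i1
  generalize relX true n119N13 r17 r7 r1e_0 r13 s0 = s1 at h i1
  have i2 := q_119N5 W T17 T7 T1 T5 i1
  have h := ne_spec h i2
  generalize relX true n119N5 r17 r7 r1e_0 r5 s1 = s2 at h i2
  have i3 := q_221N5 W T17 T13 T1 T5 i2
  have h := ne_spec h i3
  generalize relX true n221N5 r17 r13 r1e_0 r5 s2 = s3 at h i3
  have i4 := q_680N13 W T17 T5 T8 T13 i3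
  have h := ne_spec h i4
  generalize relX true n680N13 r17 r5 r8 r13 s3 = s4 at h i4
  have i5 := q_595N13a W T17 T7 T5 T13 i4
  have h := ne_spec h i5
  generalize relX true n595N13a r17 r7 r5 r13 s4 = s5 at h i5
  have i6 := q_595N13b W T17 T7 T5 T13 i5
  have h := ne_spec h i6
  generalize relX true n595N13b r17 r7 r5 r13 s5 = s6 at h i6
  exact stF2_spec W T1 T17 T13 T7 T5 T8 T4 T11 m11 T19 m19 i6 h

end Pool.Agent.LibH4.CX


end
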