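import Mathlib
import Pool.Agent.RQM.C53
import Pool.Agent.RQM.C64

/-! Parts: Lib_helper4.CX.ChB1 -/

section

/-!
Constant words, all letters at once: the second stage, odd parity.
-/

set_option maxRecDepth 100000

namespace Pool.Agent.LibH4.CX

theorem chb12 : stB r17o_12 LA EB12 = true := by decide +kernel

theorem chb13 : stB r17o_13 LA EB13 = true := by decide +kernel

theorem chb14 : stB r17o_14 LA EB14 = true := by decide +kernel

theorem chb15 : stB r17o_15 LA EB15 = true := by decide +kernel

theorem chb16 : stB r17o_16 LA EB16 = true := by decide +kernel

theorem chb17 : stB r17o_17 LA EB17 = true := by decide +kernel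

theorem chb18 : stB r17o_18 LA EB18 = true := by decide +kernel

theorem chb19 : stB r17o_19 LA EB19 = true := by decide +kernel

theorem chb20 : stB r17o_20 LA EB20 = true := by decide +kernel

theorem chb21 : stB r17o_21 LA EB21 = true := by decide +kernel

theorem chb22 : stB r17o_22 LA EB22 = true := by decide +kernel

theorem chb23 : stB r17o_23 LA EB23 = true := by decide +kernel

end Pool.Agent.LibH4.CX


end
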