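import Mathlib
import Pool.Agent.RQM.C53
import Pool.Agent.RQM.C64

/-! Parts: Lib_helper4.CX.ChB5 -/

section

/-!
Constant words, all letters at once: the second stage, odd parity.
-/

set_option maxRecDepth 100000

namespace Pool.Agent.LibH4.CX

theorem chb60 : stB r17o_60 LA EB60 = true := by decide +kernel

theorem chb61 : stB r17o_61 LA EB61 = true := by decide +kernel

theorem chb62 : stB r17o_62 LA EB62 = true := by decide +kernel

theorem chb63 : stB r17o_63 LA EB63 = true := by decide +kernel

theorem chb64 : stB r17o_64 LA EB64 = true := by decide +kernel

theorem chb65 : stB r17o_65 LA EB65 = true := by decide +kernel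

theorem chb66 : stB r17o_66 LA EB66 = true := by decide +kernel

theorem chb67 : stB r17o_67 LA EB67 = true := by decide +kernel

theorem chb68 : stB r17o_68 LA EB68 = true := by decide +kernel

theorem chb69 : stB r17o_69 LA EB69 = true := by decide +kernel

theorem chb70 : stB r17o_70 LA EB70 = true := by decide +kernel

theorem chb71 : stB r17o_71 LA EB71 = true := by decide +kernel

end Pool.Agent.LibH4.CX


end
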