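import Mathlib
import Pool.Agent.RQM.C53
import Pool.Agent.RQM.C64

/-! Parts: Lib_helper4.CX.ChC4 -/

section

/-!
Constant words, all letters at once: the third stage, odd parity.
-/

set_option maxRecDepth 100000

namespace Pool.Agent.LibH4.CX

theorem chc128 : stC r19o_128 LB = true := by decide +kernel

theorem chc129 : stC r19o_129 LB = true := by decide +kernel

theorem chc130 : stC r19o_130 LB = true := by decide +kernel

theorem chc131 : stC r19o_131 LB = true := by decide +kernel

theorem chc132 : stC r19o_132 LB = true := by decide +kernel

theorem chc133 : stC r19o_133 LB = true := by decide +kernel

theorem chc134 : stC r19o_134 LB = true := by decide +kernel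

theorem chc135 : stC r19o_135 LB = true := by decide +kernel

theorem chc136 : stC r19o_136 LB = true := by decide +kernel

theorem chc137 : stC r19o_137 LB = true := by decide +kernel

theorem chc138 : stC r19o_138 LB = true := by decide +kernel

theorem chc139 : stC r19o_139 LB = true := by decide +kernel

theorem chc140 : stC r19o_140 LB = true := by decide +kernel

theorem chc141 : stC r19o_141 LB = true := by decide +kernel

theorem chc142 : stC r19o_142 LB = true := by decide +kernel

theorem chc143 : stC r19o_143 LB = true := by decide +kernel

theorem chc144 : stC r19o_144 LB = true := by decide +kernel

theorem chc145 : stC r19o_145 LB = true := by decide +kernel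

theorem chc146 : stC r19o_146 LB = true := by decide +kernel

theorem chc147 : stC r19o_147 LB = true := by decide +kernel

theorem chc148 : stC r19o_148 LB = true := by decide +kernel

theorem chc149 : stC r19o_149 LB = true := by decide +kernel

theorem chc150 : stC r19o_150 LB = true := by decide +kernel

theorem chc151 : stC r19o_151 LB = true := by decide +kernel

theorem chc152 : stC r19o_152 LB = true := by decide +kernel

theorem chc153 : stC r19o_153 LB = true := by decide +kernel

theorem chc154 : stC r19o_154 LB = true := by decide +kernel

theorem chc155 : stC r19o_155 LB = true := by decide +kernel

theorem chc156 : stC r19o_156 LB = true := by decide +kernel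

theorem chc157 : stC r19o_157 LB = true := by decide +kernel

theorem chc158 : stC r19o_158 LB = true := by decide +kernel

theorem chc159 : stC r19o_159 LB = true := by decide +kernel

end Pool.Agent.LibH4.CX


end
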