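import Mathlib
import Pool.Agent.RQM.C53
import Pool.Agent.RQM.C64

/-! Parts: Lib_helper4.CX.ChF0, Lib_helper4.CX.ChF1, Lib_helper4.CX.ChF2 -/

section

/-!
Constant words, all letters at once: the second stage, even parity.
-/

set_option maxRecDepth 100000

namespace Pool.Agent.LibH4.CX

theorem chf0 : stF r17e_0 LD = true := by decide +kernel

theorem chf1 : stF r17e_1 LD = true := by decide +kernel

theorem chf2 : stF r17e_2 LD = true := by decide +kernel

theorem chf3 : stF r17e_3 LD = true := by decide +kernel

theorem chf4 : stF r17e_4 LD = true := by decide +kernel

theorem chf5 : stF r17e_5 LD = true := by decide +kernel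

theorem chf6 : stF r17e_6 LD = true := by decide +kernel

theorem chf7 : stF r17e_7 LD = true := by decide +kernel

theorem chf8 : stF r17e_8 LD = true := by decide +kernel

theorem chf9 : stF r17e_9 LD = true := by decide +kernel

theorem chf10 : stF r17e_10 LD = true := by decide +kernel

theorem chf11 : stF r17e_11 LD = true := by decide +kernel

theorem chf12 : stF r17e_12 LD = true := by decide +kernel

theorem chf13 : stF r17e_13 LD = true := by decide +kernel

theorem chf14 : stF r17e_14 LD = true := by decide +kernel

theorem chf15 : stF r17e_15 LD = true := by decide +kernel

theorem chf16 : stF r17e_16 LD = true := by decide +kernel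

theorem chf17 : stF r17e_17 LD = true := by decide +kernel

theorem chf18 : stF r17e_18 LD = true := by decide +kernel

theorem chf19 : stF r17e_19 LD = true := by decide +kernel

theorem chf20 : stF r17e_20 LD = true := by decide +kernel

theorem chf21 : stF r17e_21 LD = true := by decide +kernel

theorem chf22 : stF r17e_22 LD = true := by decide +kernel

theorem chf23 : stF r17e_23 LD = true := by decide +kernel

theorem chf24 : stF r17e_24 LD = true := by decide +kernel

theorem chf25 : stF r17e_25 LD = true := by decide +kernel

theorem chf26 : stF r17e_26 LD = true := by decide +kernel

theorem chf27 : stF r17e_27 LD = true := by decide +kernel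

theorem chf28 : stF r17e_28 LD = true := by decide +kernel

theorem chf29 : stF r17e_29 LD = true := by decide +kernel

theorem chf30 : stF r17e_30 LD = true := by decide +kernel

theorem chf31 : stF r17e_31 LD = true := by decide +kernel

theorem chf32 : stF r17e_32 LD = true := by decide +kernel

theorem chf33 : stF r17e_33 LD = true := by decide +kernel

theorem chf34 : stF r17e_34 LD = true := by decide +kernel

theorem chf35 : stF r17e_35 LD = true := by decide +kernel

theorem chf36 : stF r17e_36 LD = true := by decide +kernel

theorem chf37 : stF r17e_37 LD = true := by decide +kernel

theorem chf38 : stF r17e_38 LD = true := by decide +kernel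

theorem chf39 : stF r17e_39 LD = true := by decide +kernel

theorem chf40 : stF r17e_40 LD = true := by decide +kernel

theorem chf41 : stF r17e_41 LD = true := by decide +kernel

theorem chf42 : stF r17e_42 LD = true := by decide +kernel

theorem chf43 : stF r17e_43 LD = true := by decide +kernel

theorem chf44 : stF r17e_44 LD = true := by decide +kernel

theorem chf45 : stF r17e_45 LD = true := by decide +kernel

end Pool.Agent.LibH4.CX


end

section

/-!
Constant words, all letters at once: the second stage, even parity.
-/

set_option maxRecDepth 100000

namespace Pool.Agent.LibH4.CX

theorem chf46 : stF r17e_46 LD = true := by decide +kernel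

theorem chf47 : stF r17e_47 LD = true := by decide +kernel

theorem chf48 : stF r17e_48 LD = true := by decide +kernel

theorem chf49 : stF r17e_49 LD = true := by decide +kernel

theorem chf50 : stF r17e_50 LD = true := by decide +kernel

theorem chf51 : stF r17e_51 LD = true := by decide +kernel

theorem chf52 : stF r17e_52 LD = true := by decide +kernel

theorem chf53 : stF r17e_53 LD = true := by decide +kernel

theorem chf54 : stF r17e_54 LD = true := by decide +kernel

theorem chf55 : stF r17e_55 LD = true := by decide +kernel

theorem chf56 : stF r17e_56 LD = true := by decide +kernel

theorem chf57 : stF r17e_57 LD = true := by decide +kernel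

theorem chf58 : stF r17e_58 LD = true := by decide +kernel

theorem chf59 : stF r17e_59 LD = true := by decide +kernel

theorem chf60 : stF r17e_60 LD = true := by decide +kernel

theorem chf61 : stF r17e_61 LD = true := by decide +kernel

theorem chf62 : stF r17e_62 LD = true := by decide +kernel

theorem chf63 : stF r17e_63 LD = true := by decide +kernel

theorem chf64 : stF r17e_64 LD = true := by decide +kernel

theorem chf65 : stF r17e_65 LD = true := by decide +kernel

theorem chf66 : stF r17e_66 LD = true := by decide +kernel

theorem chf67 : stF r17e_67 LD = true := by decide +kernel

theorem chf68 : stF r17e_68 LD = true := by decide +kernel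

theorem chf69 : stF r17e_69 LD = true := by decide +kernel

theorem chf70 : stF r17e_70 LD = true := by decide +kernel

theorem chf71 : stF r17e_71 LD = true := by decide +kernel

theorem chf72 : stF r17e_72 LD = true := by decide +kernel

theorem chf73 : stF r17e_73 LD = true := by decide +kernel

theorem chf74 : stF r17e_74 LD = true := by decide +kernel

theorem chf75 : stF r17e_75 LD = true := by decide +kernel

theorem chf76 : stF r17e_76 LD = true := by decide +kernel

theorem chf77 : stF r17e_77 LD = true := by decide +kernel

theorem chf78 : stF r17e_78 LD = true := by decide +kernel

theorem chf79 : stF r17e_79 LD = true := by decide +kernel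

theorem chf80 : stF r17e_80 LD = true := by decide +kernel

theorem chf81 : stF r17e_81 LD = true := by decide +kernel

theorem chf82 : stF r17e_82 LD = true := by decide +kernel

theorem chf83 : stF r17e_83 LD = true := by decide +kernel

theorem chf84 : stF r17e_84 LD = true := by decide +kernel

theorem chf85 : stF r17e_85 LD = true := by decide +kernel

theorem chf86 : stF r17e_86 LD = true := by decide +kernel

theorem chf87 : stF r17e_87 LD = true := by decide +kernel

theorem chf88 : stF r17e_88 LD = true := by decide +kernel

theorem chf89 : stF r17e_89 LD = true := by decide +kernel

theorem chf90 : stF r17e_90 LD = true := by decide +kernel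

theorem chf91 : stF r17e_91 LD = true := by decide +kernel

end Pool.Agent.LibH4.CX


end

section

/-!
Constant words, all letters at once: the second stage, even parity.
-/

set_option maxRecDepth 100000

namespace Pool.Agent.LibH4.CX

theorem chf92 : stF r17e_92 LD = true := by decide +kernel

theorem chf93 : stF r17e_93 LD = true := by decide +kernel

theorem chf94 : stF r17e_94 LD = true := by decide +kernel

theorem chf95 : stF r17e_95 LD = true := by decide +kernel

theorem chf96 : stF r17e_96 LD = true := by decide +kernel

theorem chf97 : stF r17e_97 LD = true := by decide +kernel

theorem chf98 : stF r17e_98 LD = true := by decide +kernel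

theorem chf99 : stF r17e_99 LD = true := by decide +kernel

theorem chf100 : stF r17e_100 LD = true := by decide +kernel

theorem chf101 : stF r17e_101 LD = true := by decide +kernel

theorem chf102 : stF r17e_102 LD = true := by decide +kernel

theorem chf103 : stF r17e_103 LD = true := by decide +kernel

theorem chf104 : stF r17e_104 LD = true := by decide +kernel

theorem chf105 : stF r17e_105 LD = true := by decide +kernel

theorem chf106 : stF r17e_106 LD = true := by decide +kernel

theorem chf107 : stF r17e_107 LD = true := by decide +kernel

theorem chf108 : stF r17e_108 LD = true := by decide +kernel

theorem chf109 : stF r17e_109 LD = true := by decide +kernel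

theorem chf110 : stF r17e_110 LD = true := by decide +kernel

theorem chf111 : stF r17e_111 LD = true := by decide +kernel

theorem chf112 : stF r17e_112 LD = true := by decide +kernel

theorem chf113 : stF r17e_113 LD = true := by decide +kernel

theorem chf114 : stF r17e_114 LD = true := by decide +kernel

theorem chf115 : stF r17e_115 LD = true := by decide +kernel

theorem chf116 : stF r17e_116 LD = true := by decide +kernel

theorem chf117 : stF r17e_117 LD = true := by decide +kernel

theorem chf118 : stF r17e_118 LD = true := by decide +kernel

theorem chf119 : stF r17e_119 LD = true := by decide +kernel

theorem chf120 : stF r17e_120 LD = true := by decide +kernel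

theorem chf121 : stF r17e_121 LD = true := by decide +kernel

theorem chf122 : stF r17e_122 LD = true := by decide +kernel

theorem chf123 : stF r17e_123 LD = true := by decide +kernel

theorem chf124 : stF r17e_124 LD = true := by decide +kernel

theorem chf125 : stF r17e_125 LD = true := by decide +kernel

theorem chf126 : stF r17e_126 LD = true := by decide +kernel

theorem chf127 : stF r17e_127 LD = true := by decide +kernel

theorem chf128 : stF r17e_128 LD = true := by decide +kernel

theorem chf129 : stF r17e_129 LD = true := by decide +kernel

theorem chf130 : stF r17e_130 LD = true := by decide +kernel

theorem chf131 : stF r17e_131 LD = true := by decide +kernel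

theorem chf132 : stF r17e_132 LD = true := by decide +kernel

theorem chf133 : stF r17e_133 LD = true := by decide +kernel

theorem chf134 : stF r17e_134 LD = true := by decide +kernel

theorem chf135 : stF r17e_135 LD = true := by decide +kernel

end Pool.Agent.LibH4.CX


end
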