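import Mathlib
import Pool.Agent.RQM.C53
import Pool.Agent.RQM.C64

/-! Parts: Lib_helper4.CX.ChB9 -/

section

/-!
Constant words, all letters at once: the second stage, odd parity.
-/

set_option maxRecDepth 100000

namespace Pool.Agent.LibH4.CX

theorem chb108 : stB r17o_108 LA EB108 = true := by decide +kernel

theorem chb109 : stB r17o_109 LA EB109 = true := by decide +kernel

theorem chb110 : stB r17o_110 LA EB110 = true := by decide +kernel

theorem chb111 : stB r17o_111 LA EB111 = true := by decide +kernel

theorem chb112 : stB r17o_112 LA EB112 = true := by decide +kernel

theorem chb113 : stB r17o_113 LA EB113 = true := by decide +kernel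

theorem chb114 : stB r17o_114 LA EB114 = true := by decide +kernel

theorem chb115 : stB r17o_115 LA EB115 = true := by decide +kernel

theorem chb116 : stB r17o_116 LA EB116 = true := by decide +kernel

theorem chb117 : stB r17o_117 LA EB117 = true := by decide +kernel

theorem chb118 : stB r17o_118 LA EB118 = true := by decide +kernel

theorem chb119 : stB r17o_119 LA EB119 = true := by decide +kernel

end Pool.Agent.LibH4.CX


end
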