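import Mathlib
import Pool.Agent.RQM.C53
import Pool.Agent.RQM.C64

/-! Parts: Lib_helper4.CX.ChB3 -/

section

/-!
Constant words, all letters at once: the second stage, odd parity.
-/

set_option maxRecDepth 100000

namespace Pool.Agent.LibH4.CX

theorem chb36 : stB r17o_36 LA EB36 = true := by decide +kernel

theorem chb37 : stB r17o_37 LA EB37 = true := by decide +kernel

theorem chb38 : stB r17o_38 LA EB38 = true := by decide +kernel

theorem chb39 : stB r17o_39 LA EB39 = true := by decide +kernel

theorem chb40 : stB r17o_40 LA EB40 = true := by decide +kernel

theorem chb41 : stB r17o_41 LA EB41 = true := by decide +kernel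

theorem chb42 : stB r17o_42 LA EB42 = true := by decide +kernel

theorem chb43 : stB r17o_43 LA EB43 = true := by decide +kernel

theorem chb44 : stB r17o_44 LA EB44 = true := by decide +kernel

theorem chb45 : stB r17o_45 LA EB45 = true := by decide +kernel

theorem chb46 : stB r17o_46 LA EB46 = true := by decide +kernel

theorem chb47 : stB r17o_47 LA EB47 = true := by decide +kernel

end Pool.Agent.LibH4.CX


end
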