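import Mathlib
import Pool.Agent.RQM.C53
import Pool.Agent.RQM.C64

/-! Parts: Lib_helper4.CX.ChC5 -/

section

/-!
Constant words, all letters at once: the third stage, odd parity.
-/

set_option maxRecDepth 100000

namespace Pool.Agent.LibH4.CX

theorem chc160 : stC r19o_160 LB = true := by decide +kernel

theorem chc161 : stC r19o_161 LB = true := by decide +kernel

theorem chc162 : stC r19o_162 LB = true := by decide +kernel

theorem chc163 : stC r19o_163 LB = true := by decide +kernel

theorem chc164 : stC r19o_164 LB = true := by decide +kernel

theorem chc165 : stC r19o_165 LB = true := by decide +kernel

theorem chc166 : stC r19o_166 LB = true := by decide +kernel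

theorem chc167 : stC r19o_167 LB = true := by decide +kernel

theorem chc168 : stC r19o_168 LB = true := by decide +kernel

theorem chc169 : stC r19o_169 LB = true := by decide +kernel

theorem chc170 : stC r19o_170 LB = true := by decide +kernel

theorem chc171 : stC r19o_171 LB = true := by decide +kernel

theorem chc172 : stC r19o_172 LB = true := by decide +kernel

theorem chc173 : stC r19o_173 LB = true := by decide +kernel

theorem chc174 : stC r19o_174 LB = true := by decide +kernel

theorem chc175 : stC r19o_175 LB = true := by decide +kernel

theorem chc176 : stC r19o_176 LB = true := by decide +kernel

theorem chc177 : stC r19o_177 LB = true := by decide +kernel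

theorem chc178 : stC r19o_178 LB = true := by decide +kernel

theorem chc179 : stC r19o_179 LB = true := by decide +kernel

theorem chc180 : stC r19o_180 LB = true := by decide +kernel

theorem chc181 : stC r19o_181 LB = true := by decide +kernel

theorem chc182 : stC r19o_182 LB = true := by decide +kernel

theorem chc183 : stC r19o_183 LB = true := by decide +kernel

theorem chc184 : stC r19o_184 LB = true := by decide +kernel

theorem chc185 : stC r19o_185 LB = true := by decide +kernel

theorem chc186 : stC r19o_186 LB = true := by decide +kernel

theorem chc187 : stC r19o_187 LB = true := by decide +kernel

theorem chc188 : stC r19o_188 LB = true := by decide +kernel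

theorem chc189 : stC r19o_189 LB = true := by decide +kernel

end Pool.Agent.LibH4.CX


end
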