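import Mathlib
import Pool.Agent.RQM.C28
import Pool.Agent.RQM.C42
import Pool.Agent.RQM.C45
import Pool.Agent.RQM.C53
import Pool.Agent.RQM.C64
import Pool.Agent.RQM.C77

/-! Parts: Lib_helper4.CW.Fin, Lib_helper4.CX.ChA0, Lib_helper4.CX.ChC1 -/

namespace Pool.Agent.LibH4
end Pool.Agent.LibH4
namespace Pool.Agent.LibH4.CFO
end Pool.Agent.LibH4.CFO
namespace Pool.Agent.LibH4.LO
end Pool.Agent.LibH4.LO
namespace Pool.Agent.Lib_helper5
end Pool.Agent.Lib_helper5

section

/-!
Constant words: the finite check of the small discriminants.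
-/

namespace Pool.Agent.LibH4.CW

open Function Pool.Agent.Lib_helper5 Pool.Agent.LibH4 Pool.Agent.LibH4.CFO Pool.Agent.LibH4.LO

/-- no last coefficient is equal to `p` -/
def nqS (a p : ℕ) : ℕ → ℕ → ℕ → ℕ → Bool
  | 0, _, _, _ => true
  | k + 1, P, R, S => (!(S == p)) && nqS a p k S (2 * a * S - R) (P + R * a - S * a ^ 2)

/-- a prime which is the norm of no element -/
def cert (a k B m D p : ℕ) : Bool :=
  Nat.blt (4 * p ^ 2) D && (List.range p).any (fun x => (x * x + B * x + (p - 1) * m) % p == 0) &&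
    nqS a p k 1 B m

/-- the primes of the certificates -/
def PL : List ℕ := [2, 3, 5, 7, 11, 13, 17, 19, 23, 29, 31, 37]

/-- the discriminants with unique factorisation -/
def DL : List ℕ := [12, 24, 28, 44, 17, 21, 37, 152, 61, 69, 77, 332, 93, 101, 149, 197, 908, 237,
  317, 413, 437, 453, 461, 557, 677, 773, 797, 1013, 1133, 1253, 1877]

/-- the check of a field -/
def fin1 (a k B m : ℕ) : Bool :=
  PL.any (cert a k B m (B ^ 2 + 4 * m)) || DL.any fun D => D == B ^ 2 + 4 * m

/-- the check of a letter -/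
def finL (a : ℕ) : ℕ → ℕ → ℕ → ℕ → Bool
  | 0, _, _, _ => true
  | n + 1, k, u, v => (List.range (38 * (a + 1) / v)).all (fun t =>
      fin1 a k (a + (t + 1) * v) (1 + (t + 1) * u)) && finL a n (k + 1) v (u + a * v)

set_option maxRecDepth 100000 in
lemma fin_all : ((List.range 100).all fun a => finL (a + 1) 10 1 1 (a + 1)) = true := by
  decide +kernel

/-- continuants -/
def Fn (a : ℕ) : ℕ → ℕ × ℕ
  | 0 => (1, 0)
  | n + 1 => ((Fn a n).2, (Fn a n).1 + a * (Fn a n).2)

lemma Fz_eq (a n : ℕ) : Fz (a : ℤ) n = (((Fn a n).1 : ℤ), ((Fn a n).2 : ℤ)) := by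
  induction n with
  | zero => rfl
  | succ n ih =>
    simp only [Fz, Fn, ih]
    push_cast
    rfl

lemma finL_spec {a n k : ℕ} (h : finL a n k (Fn a (k + 1)).1 (Fn a (k + 1)).2 = true) (i : ℕ)
    (hi : i < n) (t : ℕ) (ht : t < 38 * (a + 1) / (Fn a (k + i + 1)).2) :
    fin1 a (k + i) (a + (t + 1) * (Fn a (k + i + 1)).2) (1 + (t + 1) * (Fn a (k + i + 1)).1) =
      true := by
  induction n generalizing k i with
  | zero => omega
  | succ n ih =>
    unfold finL at h
    rw [Bool.and_eq_true, List.all_eq_true] at h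
    cases i with
    | zero => exact h.1 t (List.mem_range.2 ht)
    | succ i =>
      have e : k + (i + 1) = (k + 1) + i := by ring
      rw [e] at ht ⊢
      exact ih h.2 i (by omega) ht

lemma Fn_mono {a : ℕ} (ha : 1 ≤ a) (n : ℕ) : (Fn a n).2 ≤ (Fn a (n + 1)).2 := by
  change (Fn a n).2 ≤ (Fn a n).1 + a * (Fn a n).2
  have : 1 * (Fn a n).2 ≤ a * (Fn a n).2 := Nat.mul_le_mul_right _ ha
  omega

lemma Fn_add {a : ℕ} (ha : 1 ≤ a) (n : ℕ) :
    (Fn a n).2 + (Fn a (n + 1)).2 ≤ (Fn a (n + 2)).2 := by
  change (Fn a n).2 + (Fn a (n + 1)).2 ≤ (Fn a n).2 + a * (Fn a (n + 1)).2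
  have : 1 * (Fn a (n + 1)).2 ≤ a * (Fn a (n + 1)).2 := Nat.mul_le_mul_right _ ha
  omega

lemma Fn_large {a : ℕ} (ha : 1 ≤ a) {n : ℕ} (hn : 12 ≤ n) : 38 * (a + 1) < (Fn a n).2 := by
  have hmono : (Fn a 12).2 ≤ (Fn a n).2 := by
    obtain ⟨k, rfl⟩ : ∃ k, n = 12 + k := ⟨n - 12, by omega⟩
    clear hn
    induction k with
    | zero => exact le_rfl
    | succ k ih => exact ih.trans (Fn_mono ha _)
  have h2 : (Fn a 2).2 = a := by simp [Fn]
  have h3 : 2 * a ≤ (Fn a 3).2 := by
    have e : (Fn a 3).2 = 1 + a * a := by simp [Fn]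
    rw [e]
    nlinarith [sq_nonneg ((a : ℤ) - 1), Nat.mul_le_mul ha ha]
  have := Fn_add ha 2
  have := Fn_add ha 3
  have := Fn_add ha 4
  have := Fn_add ha 5
  have := Fn_add ha 6
  have := Fn_add ha 7
  have := Fn_add ha 8
  have := Fn_add ha 9
  have := Fn_add ha 10
  norm_num at *
  omega

lemma PL_prime : ∀ p ∈ PL, p.Prime := by
  intro p hp
  unfold PL at hp
  simp only [List.mem_cons, List.not_mem_nil, or_false] at hp
  rcases hp with rfl | rfl | rfl | rfl | rfl | rfl | rfl | rfl | rfl | rfl | rfl | rfl <;> norm_num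

variable {m B : ℤ} {s : ℝ} {x : ℕ → ℝ} {c : ℕ → ℕ}

lemma nqS_spec (h : Data m B s x c) {a p L : ℕ} (hc : ∀ i, 1 ≤ i → i < L → c i = a) (k i : ℕ)
    (hi : 1 ≤ i) (hk : i + k ≤ L) {P R S : ℕ} (hP : QP m B c i = P) (hR : QR m B c i = R)
    (hS : QS m B c i = S) (hn : nqS a p k P R S = true) :
    ∀ j, i ≤ j → j < i + k → QS m B c j ≠ p := by
  induction k generalizing i P R S with
  | zero => intro j h1 h2; omega
  | succ k ih =>
    unfold nqS at hn
    rw [Bool.and_eq_true] at hn
    obtain ⟨h1, h2⟩ := hn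
    have hci : (c i : ℤ) = a := by exact_mod_cast hc i hi (by omega)
    have hR' := QR_succ (m := m) (B := B) (c := c) i
    have hS' := QS_succ (m := m) (B := B) (c := c) i
    rw [hS, hR, hci] at hR'
    rw [hP, hR, hS, hci] at hS'
    have p1 := QR_pos h i
    have p2 := (inv_of h (i + 1)).Spos
    rw [hR'] at p1
    rw [hS'] at p2
    have q1 : R < 2 * a * S := by
      have : (R : ℤ) < ((2 * a * S : ℕ) : ℤ) := by push_cast; linarith
      exact_mod_cast this
    have q2 : S * a ^ 2 < P + R * a := by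
      have : ((S * a ^ 2 : ℕ) : ℤ) < ((P + R * a : ℕ) : ℤ) := by push_cast; linarith
      exact_mod_cast this
    intro j hj1 hj2
    rcases Nat.eq_or_lt_of_le hj1 with rfl | hj1
    · rw [hS]
      intro h3
      have h4 : S = p := by exact_mod_cast h3
      rw [h4] at h1
      simp at h1
    · refine ih (i + 1) (by omega) (by omega) ?_ ?_ ?_ h2 j hj1 (by omega)
      · rw [QP_succ, hS]
      · rw [hR', Nat.cast_sub q1.le]; push_cast; ring
      · rw [hS', Nat.cast_sub q2.le]; push_cast; ring

/-- **the small discriminants** -/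
theorem fin_small (h : Data m B s x c) (hm : 0 < m) (hB : 1 ≤ B) {L a : ℕ}
    (hL : minimalPeriod gsh (x 1) = L) (hL2 : 2 ≤ L) (ha : 1 ≤ a) (ha2 : a ≤ 100)
    (hc : ∀ i, 1 ≤ i → i < L → c i = a)
    [IsDomain (QuadraticAlgebra ℤ m B)] [UniqueFactorizationMonoid (QuadraticAlgebra ℤ m B)]
    (hD : B ^ 2 + 4 * m < 1444 * ((a : ℤ) + 1) ^ 2) : ∃ D ∈ DL, B ^ 2 + 4 * m = (D : ℤ) := by
  obtain ⟨t, ht, hBt, hmt⟩ := params h hL hL2 ha hc hm
  rw [Fz_eq] at hBt hmt
  obtain ⟨k, rfl⟩ : ∃ k, L = k + 1 := ⟨L - 1, by omega⟩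
  obtain ⟨t, rfl⟩ : ∃ n : ℕ, t = n + 1 := ⟨(t - 1).toNat, by omega⟩
  set v := (Fn a (k + 1)).2 with hv
  set u := (Fn a (k + 1)).1 with hu
  have hvpos : 0 < v := by
    have := (Fz_pos (a := (a : ℤ)) (by exact_mod_cast ha) k).2.2.1
    rw [Fz_eq] at this
    have h2 : (0 : ℤ) < ((Fn a (k + 1)).2 : ℕ) := this
    exact_mod_cast h2
  -- bound of the parameter
  have hlt : (t + 1) * v < 38 * (a + 1) := by
    have h1 : B ^ 2 < (38 * ((a : ℤ) + 1)) ^ 2 := by nlinarith
    have h2 : B < 38 * ((a : ℤ) + 1) := lt_of_pow_lt_pow_left₀ 2 (by positivity) h1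
    rw [hBt] at h2
    have h3 : ((t : ℤ) + 1) * v < 38 * ((a : ℤ) + 1) := by
      have : (0 : ℤ) ≤ a := by positivity
      linarith
    exact_mod_cast h3
  have hv38 : v < 38 * (a + 1) := by nlinarith
  have hk : k + 1 < 12 := by
    by_contra hcon
    have := Fn_large ha (n := k + 1) (by omega)
    omega
  have htt : t < 38 * (a + 1) / v := by
    rw [Nat.lt_iff_add_one_le, Nat.le_div_iff_mul_le hvpos]
    exact hlt.le
  -- the check
  have hall := List.all_eq_true.1 fin_all (a - 1) (List.mem_range.2 (by omega))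
  rw [show a - 1 + 1 = a by omega] at hall
  have e12 : Fn a (1 + 1) = (1, a) := by simp [Fn]
  have hck := finL_spec (a := a) (n := 10) (k := 1) (by rw [e12]; exact hall) (k - 1) (by omega) t
    (by rw [show 1 + (k - 1) + 1 = k + 1 by omega]; exact htt)
  rw [show 1 + (k - 1) = k by omega, ← hv, ← hu] at hck
  have hBn : B = ((a + (t + 1) * v : ℕ) : ℤ) := by rw [hBt]; push_cast; ring
  have hmn : m = ((1 + (t + 1) * u : ℕ) : ℤ) := by rw [hmt]; push_cast; ring
  set Bn := a + (t + 1) * v with hBn'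
  set mn := 1 + (t + 1) * u with hmn'
  clear_value Bn mn
  unfold fin1 at hck
  rw [Bool.or_eq_true, List.any_eq_true, List.any_eq_true] at hck
  rcases hck with ⟨p, hp, hck⟩ | ⟨D, hDL, hck⟩
  · exfalso
    have hpp := PL_prime p hp
    unfold cert at hck
    rw [Bool.and_eq_true, Bool.and_eq_true, List.any_eq_true] at hck
    obtain ⟨⟨c1, X, -, c2⟩, c3⟩ := hck
    have h4 : 4 * (p : ℤ) ^ 2 < B ^ 2 + 4 * m := by
      have := Nat.blt_eq.mp c1
      rw [hBn, hmn]
      exact_mod_cast this
    have hX : (p : ℤ) ∣ (X : ℤ) ^ 2 + B * X - m := by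
      rw [beq_iff_eq] at c2
      have h5 := Nat.dvd_of_mod_eq_zero c2
      have h6 : (p : ℤ) ∣ ((X * X + Bn * X + (p - 1) * mn : ℕ) : ℤ) := by exact_mod_cast h5
      have e : (X : ℤ) ^ 2 + B * X - m = ((X * X + Bn * X + (p - 1) * mn : ℕ) : ℤ) - p * m := by
        rw [hBn, hmn]
        push_cast [Nat.cast_sub hpp.one_lt.le]
        ring
      rw [e]
      exact dvd_sub h6 (Dvd.intro _ rfl)
    obtain ⟨j, hj⟩ := prime_QS h hm hB hpp hX h4
    obtain ⟨i, hi1, hi2, hi⟩ := prime_idx h (by omega) hL hpp hj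
    refine nqS_spec h hc k 1 le_rfl (by omega) (P := 1) (R := Bn) (S := mn) ?_ ?_ ?_ c3 i hi1
      (by omega) hi
    · rw [show (1 : ℕ) = 0 + 1 by rfl, QP_succ]; rfl
    · rw [QR_one h, hBn]
    · rw [QS_one h, hmn]
  · refine ⟨D, hDL, ?_⟩
    rw [beq_iff_eq] at hck
    rw [hBn, hmn, hck]
    push_cast
    ring

end Pool.Agent.LibH4.CW


end

section

/-!
Constant words, all letters at once: the first stage, odd parity.
-/

set_option maxRecDepth 100000

namespace Pool.Agent.LibH4.CX

theorem cha0 : stA r13o_0 EA0 = true := by decide +kernel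

theorem cha1 : stA r13o_1 EA1 = true := by decide +kernel

theorem cha2 : stA r13o_2 EA2 = true := by decide +kernel

theorem cha3 : stA r13o_3 EA3 = true := by decide +kernel

theorem cha4 : stA r13o_4 EA4 = true := by decide +kernel

theorem cha5 : stA r13o_5 EA5 = true := by decide +kernel

theorem cha6 : stA r13o_6 EA6 = true := by decide +kernel

theorem cha7 : stA r13o_7 EA7 = true := by decide +kernel

theorem cha8 : stA r13o_8 EA8 = true := by decide +kernel

theorem cha9 : stA r13o_9 EA9 = true := by decide +kernel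

theorem cha10 : stA r13o_10 EA10 = true := by decide +kernel

theorem cha11 : stA r13o_11 EA11 = true := by decide +kernel

theorem cha12 : stA r13o_12 EA12 = true := by decide +kernel

end Pool.Agent.LibH4.CX


end

section

/-!
Constant words, all letters at once: the third stage, odd parity.
-/

set_option maxRecDepth 100000

namespace Pool.Agent.LibH4.CX

theorem chc32 : stC r19o_32 LB = true := by decide +kernel

theorem chc33 : stC r19o_33 LB = true := by decide +kernel

theorem chc34 : stC r19o_34 LB = true := by decide +kernel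

theorem chc35 : stC r19o_35 LB = true := by decide +kernel

theorem chc36 : stC r19o_36 LB = true := by decide +kernel

theorem chc37 : stC r19o_37 LB = true := by decide +kernel

theorem chc38 : stC r19o_38 LB = true := by decide +kernel

theorem chc39 : stC r19o_39 LB = true := by decide +kernel

theorem chc40 : stC r19o_40 LB = true := by decide +kernel

theorem chc41 : stC r19o_41 LB = true := by decide +kernel

theorem chc42 : stC r19o_42 LB = true := by decide +kernel

theorem chc43 : stC r19o_43 LB = true := by decide +kernel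

theorem chc44 : stC r19o_44 LB = true := by decide +kernel

theorem chc45 : stC r19o_45 LB = true := by decide +kernel

theorem chc46 : stC r19o_46 LB = true := by decide +kernel

theorem chc47 : stC r19o_47 LB = true := by decide +kernel

theorem chc48 : stC r19o_48 LB = true := by decide +kernel

theorem chc49 : stC r19o_49 LB = true := by decide +kernel

theorem chc50 : stC r19o_50 LB = true := by decide +kernel

theorem chc51 : stC r19o_51 LB = true := by decide +kernel

theorem chc52 : stC r19o_52 LB = true := by decide +kernel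

theorem chc53 : stC r19o_53 LB = true := by decide +kernel

theorem chc54 : stC r19o_54 LB = true := by decide +kernel

theorem chc55 : stC r19o_55 LB = true := by decide +kernel

theorem chc56 : stC r19o_56 LB = true := by decide +kernel

theorem chc57 : stC r19o_57 LB = true := by decide +kernel

theorem chc58 : stC r19o_58 LB = true := by decide +kernel

theorem chc59 : stC r19o_59 LB = true := by decide +kernel

theorem chc60 : stC r19o_60 LB = true := by decide +kernel

theorem chc61 : stC r19o_61 LB = true := by decide +kernel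

theorem chc62 : stC r19o_62 LB = true := by decide +kernel

theorem chc63 : stC r19o_63 LB = true := by decide +kernel

end Pool.Agent.LibH4.CX


end
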