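import Mathlib
import Pool.Agent.RQM.C53
import Pool.Agent.RQM.C64

/-! Parts: Lib_helper4.CX.ChB4 -/

section

/-!
Constant words, all letters at once: the second stage, odd parity.
-/

set_option maxRecDepth 100000

namespace Pool.Agent.LibH4.CX

theorem chb48 : stB r17o_48 LA EB48 = true := by decide +kernel

theorem chb49 : stB r17o_49 LA EB49 = true := by decide +kernel

theorem chb50 : stB r17o_50 LA EB50 = true := by decide +kernel

theorem chb51 : stB r17o_51 LA EB51 = true := by decide +kernel

theorem chb52 : stB r17o_52 LA EB52 = true := by decide +kernel

theorem chb53 : stB r17o_53 LA EB53 = true := by decide +kernel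

theorem chb54 : stB r17o_54 LA EB54 = true := by decide +kernel

theorem chb55 : stB r17o_55 LA EB55 = true := by decide +kernel

theorem chb56 : stB r17o_56 LA EB56 = true := by decide +kernel

theorem chb57 : stB r17o_57 LA EB57 = true := by decide +kernel

theorem chb58 : stB r17o_58 LA EB58 = true := by decide +kernel

theorem chb59 : stB r17o_59 LA EB59 = true := by decide +kernel

end Pool.Agent.LibH4.CX


end
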