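import Mathlib
import Pool.Agent.RQM.C53
import Pool.Agent.RQM.C64

/-! Parts: Lib_helper4.CX.ChB0 -/

section

/-!
Constant words, all letters at once: the second stage, odd parity.
-/

set_option maxRecDepth 100000

namespace Pool.Agent.LibH4.CX

theorem chb0 : stB r17o_0 LA EB0 = true := by decide +kernel

theorem chb1 : stB r17o_1 LA EB1 = true := by decide +kernel

theorem chb2 : stB r17o_2 LA EB2 = true := by decide +kernel

theorem chb3 : stB r17o_3 LA EB3 = true := by decide +kernel

theorem chb4 : stB r17o_4 LA EB4 = true := by decide +kernel

theorem chb5 : stB r17o_5 LA EB5 = true := by decide +kernel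

theorem chb6 : stB r17o_6 LA EB6 = true := by decide +kernel

theorem chb7 : stB r17o_7 LA EB7 = true := by decide +kernel

theorem chb8 : stB r17o_8 LA EB8 = true := by decide +kernel

theorem chb9 : stB r17o_9 LA EB9 = true := by decide +kernel

theorem chb10 : stB r17o_10 LA EB10 = true := by decide +kernel

theorem chb11 : stB r17o_11 LA EB11 = true := by decide +kernel

end Pool.Agent.LibH4.CX


end
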