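import Mathlib
import Pool.Agent.RQM.C13
import Pool.Agent.RQM.C28
import Pool.Agent.RQM.C40
import Pool.Agent.RQM.C42
import Pool.Agent.RQM.C44
import Pool.Agent.RQM.C45
import Pool.Agent.RQM.C48
import Pool.Agent.RQM.C50
import Pool.Agent.RQM.C52

/-! Parts: Lib_helper4.CW.Wd -/

namespace Pool.Agent.LibH4
end Pool.Agent.LibH4
namespace Pool.Agent.Lib_helper5
end Pool.Agent.Lib_helper5
namespace Pool.Agent.Lib_helper5.LK
end Pool.Agent.Lib_helper5.LK

section

/-!
Constant words: the conditions on the orbit hold when all small primes are inert.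
-/

namespace Pool.Agent.LibH4.CW

open Finset Function Pool.Agent.Lib_helper5 Pool.Agent.Lib_helper5.LK Pool.Agent.LibH4
  Pool.Agent.LibH4.KF Pool.Agent.LibH4.CFO Pool.Agent.LibH4.LO Pool.Agent.LibH4.S7
  Pool.Agent.LibH4.Ker Pool.Agent.LibH4.T6

/-- the exchange -/
def mu (f : ℤ × ℤ × ℤ) : ℤ × ℤ × ℤ := (f.2.2, f.2.1, f.1)

lemma mu_mu (f : ℤ × ℤ × ℤ) : mu (mu f) = f := rfl

lemma st_mu_st (a : ℤ) (f : ℤ × ℤ × ℤ) : st a (mu (st a f)) = mu f := by
  unfold st mu
  simp only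
  congr 2
  · ring
  · ring

/-- the orbit -/
def orb (a : ℤ) (g : ℤ × ℤ × ℤ) (i : ℕ) : ℤ × ℤ × ℤ := (st a)^[i] g

lemma orb_succ (a : ℤ) (g : ℤ × ℤ × ℤ) (i : ℕ) : orb a g (i + 1) = st a (orb a g i) :=
  Function.iterate_succ_apply' _ _ _

section

variable {q N : ℕ} [NeZero q] {χ : ZMod q → ZMod N}

lemma XS_mu (hodd : ∀ x, χ (-x) = - χ x) (f : ℤ × ℤ × ℤ) : XS χ (mu f) = XS χ f :=
  XS_swap hodd f.1 f.2.1 f.2.2

lemma YS_mu (f : ℤ × ℤ × ℤ) : YS χ (mu f) = YB χ f := rfl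

lemma W_rep (hodd : ∀ x, χ (-x) = - χ x) (a : ℤ) (k : ℕ) (g : ℤ × ℤ × ℤ) :
    W χ (mu (orb a g k)) (List.replicate k a) =
      ∑ j ∈ range k, (6 * XS χ (orb a g (j + 1)) - 2 * a * YS χ (orb a g j)) + 3 * XS χ g := by
  induction k with
  | zero =>
    change 3 * XS χ (mu g) = _
    rw [XS_mu hodd]
    simp
  | succ k ih =>
    change 6 * XS χ (mu (orb a g (k + 1))) - 2 * a * YS χ (mu (orb a g (k + 1))) +
      W χ (st a (mu (orb a g (k + 1)))) (List.replicate k a) = _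
    have h1 : YS χ (mu (orb a g (k + 1))) = YS χ (orb a g k) := by
      rw [YS_mu, orb_succ, YB_st hodd]
    rw [XS_mu hodd, h1, orb_succ, st_mu_st, ih, Finset.sum_range_succ, orb_succ]
    ring

end

variable {m B : ℤ} {s : ℝ} {x : ℕ → ℝ} {c : ℕ → ℕ}

/-- backward orbit -/
lemma orb_back {a : ℕ} {n : ℕ} (hc : ∀ i, 1 ≤ i → i ≤ n → c i = a) (j : ℕ) (hj : j ≤ n) :
    orb a (mu (qst m B c (n + 1))) j = mu (qst m B c (n + 1 - j)) := by
  induction j with
  | zero => rfl
  | succ j ih =>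
    rw [orb_succ, ih (by omega)]
    have e : n + 1 - j = (n - j) + 1 := by omega
    rw [e, qst_succ, hc (n - j) (by omega) (by omega), st_mu_st]
    congr 2
    omega

lemma wd_rep {a : ℕ} {k n : ℕ} (hc : ∀ i, k ≤ i → i < k + n → c i = a) :
    wd c k n = List.replicate n (a : ℤ) := by
  induction n generalizing k with
  | zero => rfl
  | succ n ih =>
    change (c k : ℤ) :: wd c (k + 1) n = _
    rw [hc k le_rfl (by omega), ih (fun i h1 h2 => hc i (by omega) (by omega))]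
    rfl

/-- the conditions on the characters -/
lemma cond_char {d : ℕ} (hcopP : Nat.Coprime d (QQ ^ 6))
    (n1 n2 n3 M T1 T2 T3 : ℕ) [NeZero n1] [NeZero n2] [NeZero n3] [NeZero (n1 * n2)]
    [NeZero (n1 * n2 * n3)] (h1 : relOk n1 n2 n3 M T1 T2 T3 = true) (h2 : tabCk n1 M T1 = true)
    (h3 : tabCk n2 M T2 = true) (h4 : tabCk n3 M T3 = true) (hM : M % 2 = 1)
    (h5 : (n1 * n2 * n3 * M) ∣ QQ ^ 6) :
    Nat.Coprime (n1 * n2 * n3) d ∧ Nat.Coprime d M ∧
    (∀ x, tri (tabc n1 M T1) (tabc n2 M T2) (tabc n3 M T3) (-x) =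
      - tri (tabc n1 M T1) (tabc n2 M T2) (tabc n3 M T3) x) ∧
    (∀ x y, tri (tabc n1 M T1) (tabc n2 M T2) (tabc n3 M T3) (x * y) =
      tri (tabc n1 M T1) (tabc n2 M T2) (tabc n3 M T3) x *
        tri (tabc n1 M T1) (tabc n2 M T2) (tabc n3 M T3) y) ∧
    (∑ u ∈ range (n1 * n2 * n3), (u : ZMod M) *
      tri (tabc n1 M T1) (tabc n2 M T2) (tabc n3 M T3) (u : ZMod (n1 * n2 * n3))) *
      ((n1 * n2 * n3 : ℕ) : ZMod M) = 0 := by
  have hN : 0 < M := by omega
  obtain ⟨ho, hs⟩ := K4.relOk_spec hN h1 h2 h3 h4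
  exact ⟨(Nat.Coprime.coprime_dvd_right ((Dvd.intro _ rfl).trans h5) hcopP).symm,
    Nat.Coprime.coprime_dvd_right ((Dvd.intro_left _ rfl).trans h5) hcopP, ho,
    (tri_char (n1 := n1) (n2 := n2) (n3 := n3) (tabCk_char h2) (tabCk_char h3)
      (tabCk_char h4)).mul, hs⟩

/-- **consequences of inert small primes** -/
lemma basics {d : ℕ} (hd : (d : ℤ) = B ^ 2 + 4 * m)
    (hin : ∀ p : ℕ, p.Prime → p ≤ 19 → ∀ X : ℤ, ¬ (p : ℤ) ∣ X ^ 2 + B * X - m) :
    m % 2 = 1 ∧ B % 2 = 1 ∧ d % 8 = 5 ∧ DOK (d : ℤ) ∧ Nat.Coprime d (QQ ^ 6) := by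
  have r0 := hin 2 Nat.prime_two (by norm_num) 0
  have r1 := hin 2 Nat.prime_two (by norm_num) 1
  push_cast at r0 r1
  have hm2 : m % 2 = 1 := by omega
  have hB2 : B % 2 = 1 := by omega
  have hdd : S7.dd B m = (d : ℤ) := by unfold S7.dd; rw [hd]; ring
  have h8 : d % 8 = 5 := by
    have h1 := dd_mod8 hB2 hm2
    rw [hdd] at h1
    exact_mod_cast h1
  refine ⟨hm2, hB2, h8, ⟨by exact_mod_cast h8, ?_⟩, ?_⟩
  · intro p hp hp2 hpQ
    obtain ⟨k1, k2⟩ := prime_QQ hp hpQ
    exact In_of_jac hp (by simp) (in_of_root hd hp hp2 (hin p hp k1))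
  · apply Nat.Coprime.pow_right
    by_contra hc
    obtain ⟨p, hp, hdvd, hpQ⟩ := Nat.Prime.not_coprime_iff_dvd.1 hc
    rcases eq_or_ne p 2 with rfl | hp2
    · omega
    have h1 := in_of_root hd hp hp2 (hin p hp (prime_QQ hp hpQ).1)
    have h2 : jacobiSym (d : ℤ) p ≠ 0 := by rw [h1]; norm_num
    apply h2
    have : Fact p.Prime := ⟨hp⟩
    rw [← jacobiSym.legendreSym.to_jacobiSym, legendreSym.eq_zero_iff]
    have : ((d : ℕ) : ZMod p) = 0 := by rw [ZMod.natCast_eq_zero_iff]; exact hdvd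
    exact_mod_cast this

/-- the relation on the orbit -/
lemma rel_JW {par : Bool} {a : ℕ} {e : ℕ → ℤ × ℤ × ℤ} {n : ℕ} {q N : ℕ} [NeZero q]
    {χ : ZMod q → ZMod N}
    (h : (kap par : ZMod N) * XS χ (e 0) + (alp par a : ZMod N) * YS χ (e 0) +
      ∑ j ∈ range n, (6 * XS χ (e (j + 1)) - 2 * (a : ZMod N) * YS χ (e (j + 1))) +
      (6 * XS χ (e (n + 1)) - ((e (n + 1)).2.1 : ZMod N) * YS χ (e (n + 1))) = 0) :
    LK.Rel N χ (JW par a e (n + 1)) := by
  unfold LK.Rel JW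
  rw [List.map_cons, List.sum_cons, List.map_append, List.sum_append, List.map_map,
    List.map_cons, List.map_nil, List.sum_cons, List.sum_nil, add_zero, Nat.add_sub_cancel]
  rw [lsum_range]
  have hs : ∑ j ∈ range n, (((fun j : Fm => (j.κ : ZMod N) * KF.XX χ j.P j.R j.S +
      (j.α : ZMod N) * KF.YX χ j.P j.R j.S) ∘ fun j : ℕ =>
      (⟨(e (j + 1)).1, (e (j + 1)).2.1, -(e (j + 1)).2.2, 6, -(2 * a : ℤ)⟩ : Fm)) j) =
      ∑ j ∈ range n, (6 * XS χ (e (j + 1)) - 2 * (a : ZMod N) * YS χ (e (j + 1))) := by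
    apply Finset.sum_congr rfl
    intro j _
    simp only [Function.comp_apply]
    unfold XS YS
    push_cast
    ring
  rw [hs]
  unfold XS YS at h ⊢
  push_cast at h ⊢
  linear_combination h

lemma sum_alg {N : ℕ} (X Y : ℕ → ZMod N) (a : ZMod N) (n : ℕ) :
    ∑ j ∈ range (n + 1), (6 * X (j + 1) - 2 * a * Y j) =
      -(2 * a * Y 0) + ∑ j ∈ range n, (6 * X (j + 1) - 2 * a * Y (j + 1)) + 6 * X (n + 1) := by
  rw [Finset.sum_sub_distrib, Finset.sum_range_succ (fun j => 6 * X (j + 1)),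
    Finset.sum_range_succ' (fun j => 2 * a * Y j), Finset.sum_sub_distrib]
  ring

/-- the value of a middle form -/
lemma qst_disc (h : Data m B s x c) (k : ℕ) : LO.dis (qst m B c k) = B ^ 2 + 4 * m := by
  have := (inv_of h k).disc
  unfold LO.dis
  exact this

/-- **odd periods** -/
theorem world_odd (h : Data m B s x c) (hm : 0 < m) {n a : ℕ}
    (hL : minimalPeriod gsh (x 1) = 2 * (n + 1) + 1)
    [IsDomain (QuadraticAlgebra ℤ m B)] [UniqueFactorizationMonoid (QuadraticAlgebra ℤ m B)]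
    {d : ℕ} (hd : (d : ℤ) = B ^ 2 + 4 * m)
    (hin : ∀ p : ℕ, p.Prime → p ≤ 19 → ∀ X : ℤ, ¬ (p : ℤ) ∣ X ^ 2 + B * X - m)
    (hc : ∀ i, 1 ≤ i → i ≤ n + 1 → c i = a) :
    World false a (orb a (mu (qst m B c (n + 1 + 1)))) (n + 1) := by
  obtain ⟨hm2, hB2, h8, hD, hcop⟩ := basics hd hin
  set g := mu (qst m B c (n + 1 + 1)) with hg
  have hpal := palin h (per_of h hL) (n + 1) (n + 1 + 1) (by ring)
  have hfirst : g.2.2 = g.1 := by
    change (qst m B c (n + 1 + 1)).1 = (qst m B c (n + 1 + 1)).2.2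
    have := hpal.1
    change QP m B c (n + 1 + 1) = QS m B c (n + 1 + 1)
    rw [this, QP_succ]
  have hlast : orb a g (n + 1) = (m, B, 1) := by
    rw [hg, orb_back hc (n + 1) le_rfl, show n + 1 + 1 - (n + 1) = 1 by omega, qst_eta, QR_one h,
      QS_one h]
    rfl
  exact {
    N1 := by omega
    step := fun i => orb_succ a g i
    last := by rw [hlast]
    fst0 := fun _ => hfirst
    fst1 := fun h0 => absurd h0 (by decide)
    dok := by
      have e : LO.dis (orb a g 0) = (d : ℤ) := by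
        rw [hd, ← qst_disc h (n + 1 + 1)]
        change LO.dis g = _
        unfold LO.dis
        rw [hg]
        unfold mu
        ring
      rw [e]
      exact hD
    rel := by
      intro n1 n2 n3 M T1 T2 T3 _ _ _ _ _ h1 h2 h3 h4 hM h5
      obtain ⟨c1, c2, c3, c4, c5⟩ := cond_char hcop n1 n2 n3 M T1 T2 T3 h1 h2 h3 h4 hM h5
      have key := V_eq_zero h hm hm2 hB2 hL hd h8 c1 hM c2 _ c3 c4 c5
      unfold V at key
      rw [wd_rep (a := a) (fun i h1 h2 => hc i h1 (by omega))] at key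
      have e1 : ((1, B, m) : ℤ × ℤ × ℤ) = mu (orb a g (n + 1)) := by rw [hlast]; rfl
      rw [e1, W_rep c3] at key
      apply rel_JW
      rw [← hlast] at key
      have e2 := sum_alg (fun j => XS (tri (tabc n1 M T1) (tabc n2 M T2) (tabc n3 M T3))
        (orb (a : ℤ) g j)) (fun j => YS (tri (tabc n1 M T1) (tabc n2 M T2) (tabc n3 M T3))
        (orb (a : ℤ) g j)) (a : ZMod M) n
      have e3 : (((orb (a : ℤ) g (n + 1)).2.1 : ℤ) : ZMod M) = (B : ZMod M) := by rw [hlast]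
      have e4 : orb (a : ℤ) g 0 = g := rfl
      simp only [kap, alp, cond_false]
      rw [e3]
      simp only [e4] at e2 ⊢
      push_cast at key ⊢
      linear_combination key - e2
    gen := fun h0 => absurd h0 (by decide) }

/-- **even periods** -/
theorem world_even (h : Data m B s x c) (hm : 0 < m) {n a : ℕ}
    (hL : minimalPeriod gsh (x 1) = 2 * (n + 1))
    [IsDomain (QuadraticAlgebra ℤ m B)] [UniqueFactorizationMonoid (QuadraticAlgebra ℤ m B)]
    {d : ℕ} (hd : (d : ℤ) = B ^ 2 + 4 * m) (hsq : Squarefree d)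
    (hin : ∀ p : ℕ, p.Prime → p ≤ 19 → ∀ X : ℤ, ¬ (p : ℤ) ∣ X ^ 2 + B * X - m)
    (hc : ∀ i, 1 ≤ i → i ≤ n + 1 → c i = a) :
    World true a (orb a (mu (qst m B c (n + 1 + 1)))) (n + 1) := by
  obtain ⟨hm2, hB2, h8, hD, hcop⟩ := basics hd hin
  have hJ : 0 < n + 1 := by omega
  have hper : ∀ k, x (k + 2 * (n + 1)) = x k := by
    apply x_per h
    have := isPeriodicPt_minimalPeriod gsh (x 1)
    rw [hL] at this
    exact this
  have hcJ : c (n + 1) = a := hc (n + 1) (by omega) le_rfl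
  have hpal := palin h hper (n + 1) (n + 1) (by ring)
  have hR : QR m B c (n + 1) = a * QS m B c (n + 1) := by
    have h1 := QR_succ (m := m) (B := B) (c := c) (n + 1)
    rw [← hpal.2.1, hcJ] at h1
    linarith
  -- the middle form
  have hg0 : mu (qst m B c (n + 1 + 1)) = qst m B c (n + 1) := by
    rw [qst_succ, hcJ]
    have e : qst m B c (n + 1) = (QP m B c (n + 1), QR m B c (n + 1), QS m B c (n + 1)) := rfl
    rw [e, hR]
    unfold mu st
    simp only
    congr 2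
    · ring
    · ring
  set g := mu (qst m B c (n + 1 + 1)) with hg
  have hlast : orb a g (n + 1) = (m, B, 1) := by
    rw [hg, orb_back hc (n + 1) le_rfl, show n + 1 + 1 - (n + 1) = 1 by omega, qst_eta, QR_one h,
      QS_one h]
    rfl
  have hdis := (inv_of h (n + 1)).disc
  have hpos := (inv_of h (n + 1)).Spos
  have hP : 0 < QP m B c (n + 1) := by rw [QP_succ]; exact (inv_of h n).Spos
  have hone : QS m B c (n + 1) ≠ 1 := S_ne_one h hL (by omega) (by omega)
  exact {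
    N1 := by omega
    step := fun i => orb_succ a g i
    last := by rw [hlast]
    fst0 := fun h0 => absurd h0 (by decide)
    fst1 := fun _ => by
      change g.2.1 = a * g.2.2
      rw [hg0]
      exact hR
    dok := by
      have e : LO.dis (orb a g 0) = (d : ℤ) := by
        rw [hd, ← qst_disc h (n + 1)]
        change LO.dis g = _
        rw [hg0]
      rw [e]
      exact hD
    rel := by
      intro n1 n2 n3 M T1 T2 T3 _ _ _ _ _ h1 h2 h3 h4 hM h5
      obtain ⟨c1, c2, c3, c4, c5⟩ := cond_char hcop n1 n2 n3 M T1 T2 T3 h1 h2 h3 h4 hM h5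
      have key := even_rel h hm hm2 hB2 hJ hL hd h8 c1 hM c2 _ c3 c4 c5
      rw [fold_even h hJ hL c3] at key
      unfold V at key
      rw [wd_rep (a := a) (fun i h1 h2 => hc i h1 (by omega))] at key
      have e1 : ((1, B, m) : ℤ × ℤ × ℤ) = mu (orb a g (n + 1)) := by rw [hlast]; rfl
      rw [e1, W_rep c3, hcJ] at key
      have e5 : XS (tri (tabc n1 M T1) (tabc n2 M T2) (tabc n3 M T3)) (qst m B c (n + 1 + 1)) =
          XS (tri (tabc n1 M T1) (tabc n2 M T2) (tabc n3 M T3)) g := by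
        rw [hg, XS_mu c3]
      rw [e5, ← hg0] at key
      apply rel_JW
      rw [← hlast] at key
      have e2 := sum_alg (fun j => XS (tri (tabc n1 M T1) (tabc n2 M T2) (tabc n3 M T3))
        (orb (a : ℤ) g j)) (fun j => YS (tri (tabc n1 M T1) (tabc n2 M T2) (tabc n3 M T3))
        (orb (a : ℤ) g j)) (a : ZMod M) n
      have e3 : (((orb (a : ℤ) g (n + 1)).2.1 : ℤ) : ZMod M) = (B : ZMod M) := by rw [hlast]
      have e4 : orb (a : ℤ) g 0 = g := rfl
      simp only [kap, alp, cond_true]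
      rw [e3]
      simp only [e4] at e2 ⊢
      push_cast at key ⊢
      linear_combination key - e2
    gen := fun _ => by
      change g.2.2 % 4 = 3
      rw [hg0]
      change QS m B c (n + 1) % 4 = 3
      rw [hR] at hdis
      obtain ⟨S, hS⟩ := Int.eq_ofNat_of_zero_le hpos.le
      obtain ⟨P, hP'⟩ := Int.eq_ofNat_of_zero_le hP.le
      rw [hS] at hdis hpos hone ⊢
      rw [hP'] at hdis hP
      have hdec : B ^ 2 + 4 * m = (S : ℤ) * ((a ^ 2 * S + 4 * P : ℕ) : ℤ) := by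
        rw [← hdis]; push_cast; ring
      have hprod : d = S * (a ^ 2 * S + 4 * P) := by
        have : (d : ℤ) = ((S * (a ^ 2 * S + 4 * P) : ℕ) : ℤ) := by
          rw [hd, hdec]; push_cast; ring
        exact_mod_cast this
      by_contra hne
      have hS2 : S % 2 = 1 := by
        by_contra h2
        have h3 : 2 ∣ S := by omega
        have h4 : 2 ∣ d := by rw [hprod]; exact h3.mul_right _
        omega
      have ha2 : a % 2 = 1 := by
        by_contra h2
        obtain ⟨k, hk⟩ : ∃ k, a = 2 * k := ⟨a / 2, by omega⟩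
        have h4 : 2 ∣ d := by
          rw [hprod, hk]
          exact Dvd.dvd.mul_left ⟨2 * k ^ 2 * S + 2 * P, by ring⟩ S
        omega
      have hS4 : S % 4 = 1 := by
        have h5 : ¬ ((S : ℤ) % 4 = 3) := hne
        omega
      have haa : a ^ 2 % 4 = 1 := by
        obtain ⟨k, hk⟩ : ∃ k, a = 2 * k + 1 := ⟨a / 2, by omega⟩
        rw [hk]
        have : (2 * k + 1) ^ 2 = 4 * (k ^ 2 + k) + 1 := by ring
        omega
      have hs4 : (a ^ 2 * S + 4 * P) % 4 = 1 := by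
        rw [Nat.add_mul_mod_self_left, Nat.mul_mod, haa, hS4]
      have hS1 : 1 < S := by
        have h6 : (0 : ℤ) < S := hpos
        have h7 : (S : ℤ) ≠ 1 := hone
        omega
      have hP0 : 0 < P := by exact_mod_cast hP
      exact genus hdec hS1 (by omega) hS4 hs4 (by
        rw [← hd]; exact Int.squarefree_natCast.2 hsq) }

end Pool.Agent.LibH4.CW


end
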