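import Mathlib
import Pool.Agent.RQM.C15
import Pool.Agent.RQM.C28
import Pool.Agent.RQM.C41
import Pool.Agent.RQM.C42
import Pool.Agent.RQM.C50
import Pool.Agent.RQM.C52
import Pool.Agent.RQM.C53
import Pool.Agent.RQM.C64
import Pool.Agent.RQM.C68
import Pool.Agent.RQM.C68a
import Pool.Agent.RQM.C69
import Pool.Agent.RQM.C69a
import Pool.Agent.RQM.C69b
import Pool.Agent.RQM.C70
import Pool.Agent.RQM.C70a
import Pool.Agent.RQM.C70b
import Pool.Agent.RQM.C71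
import Pool.Agent.RQM.C72
import Pool.Agent.RQM.C72a
import Pool.Agent.RQM.C72b
import Pool.Agent.RQM.C73
import Pool.Agent.RQM.C73a
import Pool.Agent.RQM.C73b
import Pool.Agent.RQM.C74
import Pool.Agent.RQM.C74a
import Pool.Agent.RQM.C74b
import Pool.Agent.RQM.C75
import Pool.Agent.RQM.C75a
import Pool.Agent.RQM.C75b
import Pool.Agent.RQM.C76
import Pool.Agent.RQM.C76a
import Pool.Agent.RQM.C76b
import Pool.Agent.RQM.C77
import Pool.Agent.RQM.C78
import Pool.Agent.RQM.C79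
import Pool.Agent.RQM.C79a
import Pool.Agent.RQM.C79b
import Pool.Agent.RQM.C80
import Pool.Agent.RQM.C81
import Pool.Agent.RQM.C81a
import Pool.Agent.RQM.C81b
import Pool.Agent.RQM.C82
import Pool.Agent.RQM.C83
import Pool.Agent.RQM.C84
import Pool.Agent.RQM.C85
import Pool.Agent.RQM.C85a
import Pool.Agent.RQM.C86
import Pool.Agent.RQM.C86a

/-! Parts: Lib_helper4.CW.EAll, Lib_helper4.CW.Final, Lib_helper4.CX.ChAll, Lib_helper4.CX.Nw, Lib_helper4.CX.Fin -/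

namespace Pool.Agent.LibH4
end Pool.Agent.LibH4
namespace Pool.Agent.LibH4.CFO
end Pool.Agent.LibH4.CFO
namespace Pool.Agent.LibH4.CW
end Pool.Agent.LibH4.CW
namespace Pool.Agent.LibH4.LO
end Pool.Agent.LibH4.LO
namespace Pool.Agent.Lib_helper5
end Pool.Agent.Lib_helper5

section

/-! generated: the eliminations for all letters -/

namespace Pool.Agent.LibH4.CW

/-- odd periods -/
theorem elim_odd (a : ℕ) (h1 : 1 ≤ a) (h2 : a ≤ 100) : ∃ chs, elim false a CL RL chs = true := by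
  interval_cases a
  · exact ⟨_, od_1⟩
  · exact ⟨_, od_2⟩
  · exact ⟨_, od_3⟩
  · exact ⟨_, od_4⟩
  · exact ⟨_, od_5⟩
  · exact ⟨_, od_6⟩
  · exact ⟨_, od_7⟩
  · exact ⟨_, od_8⟩
  · exact ⟨_, od_9⟩
  · exact ⟨_, od_10⟩
  · exact ⟨_, od_11⟩
  · exact ⟨_, od_12⟩
  · exact ⟨_, od_13⟩
  · exact ⟨_, od_14⟩
  · exact ⟨_, od_15⟩
  · exact ⟨_, od_16⟩
  · exact ⟨_, od_17⟩
  · exact ⟨_, od_18⟩
  · exact ⟨_, od_19⟩
  · exact ⟨_, od_20⟩
  · exact ⟨_, od_21⟩
  · exact ⟨_, od_22⟩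
  · exact ⟨_, od_23⟩
  · exact ⟨_, od_24⟩
  · exact ⟨_, od_25⟩
  · exact ⟨_, od_26⟩
  · exact ⟨_, od_27⟩
  · exact ⟨_, od_28⟩
  · exact ⟨_, od_29⟩
  · exact ⟨_, od_30⟩
  · exact ⟨_, od_31⟩
  · exact ⟨_, od_32⟩
  · exact ⟨_, od_33⟩
  · exact ⟨_, od_34⟩
  · exact ⟨_, od_35⟩
  · exact ⟨_, od_36⟩
  · exact ⟨_, od_37⟩
  · exact ⟨_, od_38⟩
  · exact ⟨_, od_39⟩
  · exact ⟨_, od_40⟩
  · exact ⟨_, od_41⟩
  · exact ⟨_, od_42⟩
  · exact ⟨_, od_43⟩
  · exact ⟨_, od_44⟩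
  · exact ⟨_, od_45⟩
  · exact ⟨_, od_46⟩
  · exact ⟨_, od_47⟩
  · exact ⟨_, od_48⟩
  · exact ⟨_, od_49⟩
  · exact ⟨_, od_50⟩
  · exact ⟨_, od_51⟩
  · exact ⟨_, od_52⟩
  · exact ⟨_, od_53⟩
  · exact ⟨_, od_54⟩
  · exact ⟨_, od_55⟩
  · exact ⟨_, od_56⟩
  · exact ⟨_, od_57⟩
  · exact ⟨_, od_58⟩
  · exact ⟨_, od_59⟩
  · exact ⟨_, od_60⟩
  · exact ⟨_, od_61⟩
  · exact ⟨_, od_62⟩
  · exact ⟨_, od_63⟩
  · exact ⟨_, od_64⟩
  · exact ⟨_, od_65⟩
  · exact ⟨_, od_66⟩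
  · exact ⟨_, od_67⟩
  · exact ⟨_, od_68⟩
  · exact ⟨_, od_69⟩
  · exact ⟨_, od_70⟩
  · exact ⟨_, od_71⟩
  · exact ⟨_, od_72⟩
  · exact ⟨_, od_73⟩
  · exact ⟨_, od_74⟩
  · exact ⟨_, od_75⟩
  · exact ⟨_, od_76⟩
  · exact ⟨_, od_77⟩
  · exact ⟨_, od_78⟩
  · exact ⟨_, od_79⟩
  · exact ⟨_, od_80⟩
  · exact ⟨_, od_81⟩
  · exact ⟨_, od_82⟩
  · exact ⟨_, od_83⟩
  · exact ⟨_, od_84⟩
  · exact ⟨_, od_85⟩
  · exact ⟨_, od_86⟩
  · exact ⟨_, od_87⟩
  · exact ⟨_, od_88⟩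
  · exact ⟨_, od_89⟩
  · exact ⟨_, od_90⟩
  · exact ⟨_, od_91⟩
  · exact ⟨_, od_92⟩
  · exact ⟨_, od_93⟩
  · exact ⟨_, od_94⟩
  · exact ⟨_, od_95⟩
  · exact ⟨_, od_96⟩
  · exact ⟨_, od_97⟩
  · exact ⟨_, od_98⟩
  · exact ⟨_, od_99⟩
  · exact ⟨_, od_100⟩

set_option maxRecDepth 100000 in
/-- even periods and even letters -/
theorem ev_even : (List.range 50).all (fun k => elim true (Nat.add (Nat.mul 2 k) 2) CL RL
    [.M (nat_lit 2) (nat_lit 12)]) = true := by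
  decide +kernel

/-- even periods -/
theorem elim_even (a : ℕ) (h1 : 1 ≤ a) (h2 : a ≤ 100) : ∃ chs, elim true a CL RL chs = true := by
  by_cases ha : a % 2 = 0
  · have := List.all_eq_true.1 ev_even (a / 2 - 1) (List.mem_range.2 (by omega))
    have e : Nat.add (Nat.mul 2 (a / 2 - 1)) 2 = a := by
      change 2 * (a / 2 - 1) + 2 = a
      omega
    rw [e] at this
    exact ⟨_, this⟩
  · interval_cases a
    · exact ⟨_, ev_1⟩
    · exact absurd (by norm_num) ha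
    · exact ⟨_, ev_3⟩
    · exact absurd (by norm_num) ha
    · exact ⟨_, ev_5⟩
    · exact absurd (by norm_num) ha
    · exact ⟨_, ev_7⟩
    · exact absurd (by norm_num) ha
    · exact ⟨_, ev_9⟩
    · exact absurd (by norm_num) ha
    · exact ⟨_, ev_11⟩
    · exact absurd (by norm_num) ha
    · exact ⟨_, ev_13⟩
    · exact absurd (by norm_num) ha
    · exact ⟨_, ev_15⟩
    · exact absurd (by norm_num) ha
    · exact ⟨_, ev_17⟩
    · exact absurd (by norm_num) ha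
    · exact ⟨_, ev_19⟩
    · exact absurd (by norm_num) ha
    · exact ⟨_, ev_21⟩
    · exact absurd (by norm_num) ha
    · exact ⟨_, ev_23⟩
    · exact absurd (by norm_num) ha
    · exact ⟨_, ev_25⟩
    · exact absurd (by norm_num) ha
    · exact ⟨_, ev_27⟩
    · exact absurd (by norm_num) ha
    · exact ⟨_, ev_29⟩
    · exact absurd (by norm_num) ha
    · exact ⟨_, ev_31⟩
    · exact absurd (by norm_num) ha
    · exact ⟨_, ev_33⟩
    · exact absurd (by norm_num) ha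
    · exact ⟨_, ev_35⟩
    · exact absurd (by norm_num) ha
    · exact ⟨_, ev_37⟩
    · exact absurd (by norm_num) ha
    · exact ⟨_, ev_39⟩
    · exact absurd (by norm_num) ha
    · exact ⟨_, ev_41⟩
    · exact absurd (by norm_num) ha
    · exact ⟨_, ev_43⟩
    · exact absurd (by norm_num) ha
    · exact ⟨_, ev_45⟩
    · exact absurd (by norm_num) ha
    · exact ⟨_, ev_47⟩
    · exact absurd (by norm_num) ha
    · exact ⟨_, ev_49⟩
    · exact absurd (by norm_num) ha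
    · exact ⟨_, ev_51⟩
    · exact absurd (by norm_num) ha
    · exact ⟨_, ev_53⟩
    · exact absurd (by norm_num) ha
    · exact ⟨_, ev_55⟩
    · exact absurd (by norm_num) ha
    · exact ⟨_, ev_57⟩
    · exact absurd (by norm_num) ha
    · exact ⟨_, ev_59⟩
    · exact absurd (by norm_num) ha
    · exact ⟨_, ev_61⟩
    · exact absurd (by norm_num) ha
    · exact ⟨_, ev_63⟩
    · exact absurd (by norm_num) ha
    · exact ⟨_, ev_65⟩
    · exact absurd (by norm_num) ha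
    · exact ⟨_, ev_67⟩
    · exact absurd (by norm_num) ha
    · exact ⟨_, ev_69⟩
    · exact absurd (by norm_num) ha
    · exact ⟨_, ev_71⟩
    · exact absurd (by norm_num) ha
    · exact ⟨_, ev_73⟩
    · exact absurd (by norm_num) ha
    · exact ⟨_, ev_75⟩
    · exact absurd (by norm_num) ha
    · exact ⟨_, ev_77⟩
    · exact absurd (by norm_num) ha
    · exact ⟨_, ev_79⟩
    · exact absurd (by norm_num) ha
    · exact ⟨_, ev_81⟩
    · exact absurd (by norm_num) ha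
    · exact ⟨_, ev_83⟩
    · exact absurd (by norm_num) ha
    · exact ⟨_, ev_85⟩
    · exact absurd (by norm_num) ha
    · exact ⟨_, ev_87⟩
    · exact absurd (by norm_num) ha
    · exact ⟨_, ev_89⟩
    · exact absurd (by norm_num) ha
    · exact ⟨_, ev_91⟩
    · exact absurd (by norm_num) ha
    · exact ⟨_, ev_93⟩
    · exact absurd (by norm_num) ha
    · exact ⟨_, ev_95⟩
    · exact absurd (by norm_num) ha
    · exact ⟨_, ev_97⟩
    · exact absurd (by norm_num) ha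
    · exact ⟨_, ev_99⟩
    · exact absurd (by norm_num) ha

end Pool.Agent.LibH4.CW


end

section

/-!
Constant words: the complete list.
-/

namespace Pool.Agent.LibH4.CW

open scoped NumberField
open Function Pool.Agent.Lib_helper5 Pool.Agent.LibH4 Pool.Agent.LibH4.CFO Pool.Agent.LibH4.LO

variable {m B : ℤ} {s : ℝ} {x : ℕ → ℝ} {c : ℕ → ℕ}

/-- **no unique factorisation with inert small primes** -/
theorem no_ufd (h : Data m B s x c) (hm : 0 < m) {L a d : ℕ}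
    (hL : minimalPeriod gsh (x 1) = L) (hL2 : 2 ≤ L) (ha : 1 ≤ a) (ha2 : a ≤ 100)
    (hc : ∀ i, 1 ≤ i → i < L → c i = a)
    [IsDomain (QuadraticAlgebra ℤ m B)] [UniqueFactorizationMonoid (QuadraticAlgebra ℤ m B)]
    (hd : (d : ℤ) = B ^ 2 + 4 * m) (hsq : Squarefree d)
    (hin : ∀ p : ℕ, p.Prime → p ≤ 19 → ∀ X : ℤ, ¬ (p : ℤ) ∣ X ^ 2 + B * X - m) : False := by
  rcases Nat.even_or_odd' L with ⟨k, hk | hk⟩
  · obtain ⟨n, rfl⟩ : ∃ n, k = n + 1 := ⟨k - 1, by omega⟩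
    obtain ⟨chs, hch⟩ := elim_even a ha ha2
    have W := world_even h hm (n := n) (a := a) (by rw [hL, hk]) hd hsq hin
      (fun i h1 h2 => hc i h1 (by omega))
    exact elim_spec CL_ok RL_ok hch W
  · obtain ⟨n, rfl⟩ : ∃ n, k = n + 1 := ⟨k - 1, by omega⟩
    obtain ⟨chs, hch⟩ := elim_odd a ha ha2
    have W := world_odd h hm (n := n) (a := a) (by rw [hL, hk]) hd hin
      (fun i h1 h2 => hc i h1 (by omega))
    exact elim_spec CL_ok RL_ok hch W

lemma dL_of {d D : ℕ} (hD : D ∈ DL) (hd : (d % 4 = 1 ∧ d = D) ∨ (d % 4 ≠ 1 ∧ 4 * d = D)) :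
    d ∈ dL := by
  unfold DL at hD
  unfold dL
  simp only [List.mem_cons, List.not_mem_nil, or_false] at hD ⊢
  omega

/-- **the complete list** -/
theorem fwd (d : ℕ) (h1 : 1 < d) (hsq : Squarefree d) {a L : ℕ} (ha2 : a ≤ 100)
    (hL : minimalPeriod gsh (gsh (omg d)) = L) (hL2 : 2 ≤ L)
    (hw : ∀ i, 1 ≤ i → i < L → ⌊gsh^[i] (omg d)⌋ = (a : ℤ))
    (hU : UniqueFactorizationMonoid (𝓞 (KQ d))) : d ∈ dL := by
  obtain ⟨m, B, s, x, c, h, hx1, hm, hB, hd⟩ := exists_data d h1 hsq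
  rw [← hx1] at hL
  have hc : ∀ i, 1 ≤ i → i < L → c i = a := by
    intro i hi1 hi2
    obtain ⟨j, rfl⟩ : ∃ j, i = j + 1 := ⟨i - 1, by omega⟩
    have h2 := hw (j + 1) hi1 hi2
    rw [← x_eq_iter h hx1, ← h.fl] at h2
    exact_mod_cast h2
  have ha : 1 ≤ a := by
    rw [← hc 1 le_rfl (by omega)]
    exact (inv_of h 1).cpos
  obtain ⟨e⟩ : Nonempty (QuadraticAlgebra ℤ m B ≃+* 𝓞 (KQ d)) := by
    rcases hd with ⟨h4, hd, hB2⟩ | ⟨h4, hd, hB2⟩
    · obtain ⟨e⟩ := exists_equiv_QI hd hB2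
      exact ⟨e.symm.trans (eqvO hsq h1)⟩
    · obtain ⟨e⟩ := exists_equiv_QI_even hd h4 hB2
      exact ⟨e.symm.trans (eqvO hsq h1)⟩
  have i1 : IsDomain (QuadraticAlgebra ℤ m B) := e.toMulEquiv.isDomain
  have i2 : UniqueFactorizationMonoid (QuadraticAlgebra ℤ m B) :=
    e.symm.toMulEquiv.uniqueFactorizationMonoid hU
  by_cases hin : ∀ p : ℕ, p.Prime → p ≤ 19 → ∀ X : ℤ, ¬ (p : ℤ) ∣ X ^ 2 + B * X - m
  · exfalso
    rcases hd with ⟨h4, hd, hB2⟩ | ⟨h4, hd, hB2⟩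
    · exact no_ufd h hm hL hL2 ha ha2 hc hd hsq hin
    · have r0 := hin 2 Nat.prime_two (by norm_num) 0
      have r1 := hin 2 Nat.prime_two (by norm_num) 1
      push_cast at r0 r1
      omega
  · push Not at hin
    obtain ⟨p, hp, hp19, X, hX⟩ := hin
    have hD := small_D h hm hB (by omega) hL ha hc hp hp19 hX
    obtain ⟨D, hD1, hD2⟩ := fin_small h hm hB hL hL2 ha ha2 hc hD
    apply dL_of hD1
    rcases hd with ⟨h4, hd, -⟩ | ⟨h4, hd, -⟩
    · left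
      refine ⟨h4, ?_⟩
      rw [← hd] at hD2
      exact_mod_cast hD2
    · right
      refine ⟨h4, ?_⟩
      rw [← hd] at hD2
      exact_mod_cast hD2

end Pool.Agent.LibH4.CW


end

section

/-! generated: all checks of the stages -/

set_option maxRecDepth 100000

namespace Pool.Agent.LibH4.CX

open Pool.Agent.LibH4.CW

lemma f2_mem {α β : Type} {R : α → β → Prop} {L : List α} {M : List β}
    (h : List.Forall₂ R L M) : ∀ r ∈ L, ∃ E ∈ M, R r E := by
  induction h with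
  | nil => intro r hr; exact absurd hr (List.not_mem_nil)
  | cons h1 _ ih =>
    intro r hr
    rcases List.mem_cons.1 hr with rfl | hr
    · exact ⟨_, List.mem_cons_self, h1⟩
    · obtain ⟨E, hE, h2⟩ := ih r hr
      exact ⟨E, List.mem_cons_of_mem _ hE, h2⟩

lemma allA : List.Forall₂ (fun r E => stA r E = true) F13o LA := by
  unfold F13o LA
  refine List.Forall₂.cons cha0 ?_
  refine List.Forall₂.cons cha1 ?_
  refine List.Forall₂.cons cha2 ?_
  refine List.Forall₂.cons cha3 ?_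
  refine List.Forall₂.cons cha4 ?_
  refine List.Forall₂.cons cha5 ?_
  refine List.Forall₂.cons cha6 ?_
  refine List.Forall₂.cons cha7 ?_
  refine List.Forall₂.cons cha8 ?_
  refine List.Forall₂.cons cha9 ?_
  refine List.Forall₂.cons cha10 ?_
  refine List.Forall₂.cons cha11 ?_
  refine List.Forall₂.cons cha12 ?_
  refine List.Forall₂.cons cha13 ?_
  refine List.Forall₂.cons cha14 ?_
  refine List.Forall₂.cons cha15 ?_
  refine List.Forall₂.cons cha16 ?_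
  refine List.Forall₂.cons cha17 ?_
  refine List.Forall₂.cons cha18 ?_
  refine List.Forall₂.cons cha19 ?_
  refine List.Forall₂.cons cha20 ?_
  refine List.Forall₂.cons cha21 ?_
  refine List.Forall₂.cons cha22 ?_
  refine List.Forall₂.cons cha23 ?_
  refine List.Forall₂.cons cha24 ?_
  refine List.Forall₂.cons cha25 ?_
  refine List.Forall₂.cons cha26 ?_
  refine List.Forall₂.cons cha27 ?_
  refine List.Forall₂.cons cha28 ?_
  refine List.Forall₂.cons cha29 ?_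
  refine List.Forall₂.cons cha30 ?_
  refine List.Forall₂.cons cha31 ?_
  refine List.Forall₂.cons cha32 ?_
  refine List.Forall₂.cons cha33 ?_
  refine List.Forall₂.cons cha34 ?_
  refine List.Forall₂.cons cha35 ?_
  refine List.Forall₂.cons cha36 ?_
  refine List.Forall₂.cons cha37 ?_
  refine List.Forall₂.cons cha38 ?_
  refine List.Forall₂.cons cha39 ?_
  refine List.Forall₂.cons cha40 ?_
  refine List.Forall₂.cons cha41 ?_
  refine List.Forall₂.cons cha42 ?_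
  refine List.Forall₂.cons cha43 ?_
  refine List.Forall₂.cons cha44 ?_
  refine List.Forall₂.cons cha45 ?_
  refine List.Forall₂.cons cha46 ?_
  refine List.Forall₂.cons cha47 ?_
  refine List.Forall₂.cons cha48 ?_
  refine List.Forall₂.cons cha49 ?_
  refine List.Forall₂.cons cha50 ?_
  refine List.Forall₂.cons cha51 ?_
  refine List.Forall₂.cons cha52 ?_
  refine List.Forall₂.cons cha53 ?_
  refine List.Forall₂.cons cha54 ?_
  refine List.Forall₂.cons cha55 ?_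
  refine List.Forall₂.cons cha56 ?_
  refine List.Forall₂.cons cha57 ?_
  refine List.Forall₂.cons cha58 ?_
  refine List.Forall₂.cons cha59 ?_
  refine List.Forall₂.cons cha60 ?_
  refine List.Forall₂.cons cha61 ?_
  refine List.Forall₂.cons cha62 ?_
  refine List.Forall₂.cons cha63 ?_
  refine List.Forall₂.cons cha64 ?_
  refine List.Forall₂.cons cha65 ?_
  refine List.Forall₂.cons cha66 ?_
  refine List.Forall₂.cons cha67 ?_
  refine List.Forall₂.cons cha68 ?_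
  refine List.Forall₂.cons cha69 ?_
  refine List.Forall₂.cons cha70 ?_
  refine List.Forall₂.cons cha71 ?_
  refine List.Forall₂.cons cha72 ?_
  refine List.Forall₂.cons cha73 ?_
  refine List.Forall₂.cons cha74 ?_
  refine List.Forall₂.cons cha75 ?_
  refine List.Forall₂.cons cha76 ?_
  refine List.Forall₂.cons cha77 ?_
  exact List.Forall₂.nil

lemma allB : List.Forall₂ (fun r E => stB r LA E = true) F17o LB := by
  unfold F17o LB
  refine List.Forall₂.cons chb0 ?_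
  refine List.Forall₂.cons chb1 ?_
  refine List.Forall₂.cons chb2 ?_
  refine List.Forall₂.cons chb3 ?_
  refine List.Forall₂.cons chb4 ?_
  refine List.Forall₂.cons chb5 ?_
  refine List.Forall₂.cons chb6 ?_
  refine List.Forall₂.cons chb7 ?_
  refine List.Forall₂.cons chb8 ?_
  refine List.Forall₂.cons chb9 ?_
  refine List.Forall₂.cons chb10 ?_
  refine List.Forall₂.cons chb11 ?_
  refine List.Forall₂.cons chb12 ?_
  refine List.Forall₂.cons chb13 ?_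
  refine List.Forall₂.cons chb14 ?_
  refine List.Forall₂.cons chb15 ?_
  refine List.Forall₂.cons chb16 ?_
  refine List.Forall₂.cons chb17 ?_
  refine List.Forall₂.cons chb18 ?_
  refine List.Forall₂.cons chb19 ?_
  refine List.Forall₂.cons chb20 ?_
  refine List.Forall₂.cons chb21 ?_
  refine List.Forall₂.cons chb22 ?_
  refine List.Forall₂.cons chb23 ?_
  refine List.Forall₂.cons chb24 ?_
  refine List.Forall₂.cons chb25 ?_
  refine List.Forall₂.cons chb26 ?_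
  refine List.Forall₂.cons chb27 ?_
  refine List.Forall₂.cons chb28 ?_
  refine List.Forall₂.cons chb29 ?_
  refine List.Forall₂.cons chb30 ?_
  refine List.Forall₂.cons chb31 ?_
  refine List.Forall₂.cons chb32 ?_
  refine List.Forall₂.cons chb33 ?_
  refine List.Forall₂.cons chb34 ?_
  refine List.Forall₂.cons chb35 ?_
  refine List.Forall₂.cons chb36 ?_
  refine List.Forall₂.cons chb37 ?_
  refine List.Forall₂.cons chb38 ?_
  refine List.Forall₂.cons chb39 ?_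
  refine List.Forall₂.cons chb40 ?_
  refine List.Forall₂.cons chb41 ?_
  refine List.Forall₂.cons chb42 ?_
  refine List.Forall₂.cons chb43 ?_
  refine List.Forall₂.cons chb44 ?_
  refine List.Forall₂.cons chb45 ?_
  refine List.Forall₂.cons chb46 ?_
  refine List.Forall₂.cons chb47 ?_
  refine List.Forall₂.cons chb48 ?_
  refine List.Forall₂.cons chb49 ?_
  refine List.Forall₂.cons chb50 ?_
  refine List.Forall₂.cons chb51 ?_
  refine List.Forall₂.cons chb52 ?_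
  refine List.Forall₂.cons chb53 ?_
  refine List.Forall₂.cons chb54 ?_
  refine List.Forall₂.cons chb55 ?_
  refine List.Forall₂.cons chb56 ?_
  refine List.Forall₂.cons chb57 ?_
  refine List.Forall₂.cons chb58 ?_
  refine List.Forall₂.cons chb59 ?_
  refine List.Forall₂.cons chb60 ?_
  refine List.Forall₂.cons chb61 ?_
  refine List.Forall₂.cons chb62 ?_
  refine List.Forall₂.cons chb63 ?_
  refine List.Forall₂.cons chb64 ?_
  refine List.Forall₂.cons chb65 ?_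
  refine List.Forall₂.cons chb66 ?_
  refine List.Forall₂.cons chb67 ?_
  refine List.Forall₂.cons chb68 ?_
  refine List.Forall₂.cons chb69 ?_
  refine List.Forall₂.cons chb70 ?_
  refine List.Forall₂.cons chb71 ?_
  refine List.Forall₂.cons chb72 ?_
  refine List.Forall₂.cons chb73 ?_
  refine List.Forall₂.cons chb74 ?_
  refine List.Forall₂.cons chb75 ?_
  refine List.Forall₂.cons chb76 ?_
  refine List.Forall₂.cons chb77 ?_
  refine List.Forall₂.cons chb78 ?_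
  refine List.Forall₂.cons chb79 ?_
  refine List.Forall₂.cons chb80 ?_
  refine List.Forall₂.cons chb81 ?_
  refine List.Forall₂.cons chb82 ?_
  refine List.Forall₂.cons chb83 ?_
  refine List.Forall₂.cons chb84 ?_
  refine List.Forall₂.cons chb85 ?_
  refine List.Forall₂.cons chb86 ?_
  refine List.Forall₂.cons chb87 ?_
  refine List.Forall₂.cons chb88 ?_
  refine List.Forall₂.cons chb89 ?_
  refine List.Forall₂.cons chb90 ?_
  refine List.Forall₂.cons chb91 ?_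
  refine List.Forall₂.cons chb92 ?_
  refine List.Forall₂.cons chb93 ?_
  refine List.Forall₂.cons chb94 ?_
  refine List.Forall₂.cons chb95 ?_
  refine List.Forall₂.cons chb96 ?_
  refine List.Forall₂.cons chb97 ?_
  refine List.Forall₂.cons chb98 ?_
  refine List.Forall₂.cons chb99 ?_
  refine List.Forall₂.cons chb100 ?_
  refine List.Forall₂.cons chb101 ?_
  refine List.Forall₂.cons chb102 ?_
  refine List.Forall₂.cons chb103 ?_
  refine List.Forall₂.cons chb104 ?_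
  refine List.Forall₂.cons chb105 ?_
  refine List.Forall₂.cons chb106 ?_
  refine List.Forall₂.cons chb107 ?_
  refine List.Forall₂.cons chb108 ?_
  refine List.Forall₂.cons chb109 ?_
  refine List.Forall₂.cons chb110 ?_
  refine List.Forall₂.cons chb111 ?_
  refine List.Forall₂.cons chb112 ?_
  refine List.Forall₂.cons chb113 ?_
  refine List.Forall₂.cons chb114 ?_
  refine List.Forall₂.cons chb115 ?_
  refine List.Forall₂.cons chb116 ?_
  refine List.Forall₂.cons chb117 ?_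
  refine List.Forall₂.cons chb118 ?_
  refine List.Forall₂.cons chb119 ?_
  refine List.Forall₂.cons chb120 ?_
  refine List.Forall₂.cons chb121 ?_
  refine List.Forall₂.cons chb122 ?_
  refine List.Forall₂.cons chb123 ?_
  refine List.Forall₂.cons chb124 ?_
  refine List.Forall₂.cons chb125 ?_
  refine List.Forall₂.cons chb126 ?_
  refine List.Forall₂.cons chb127 ?_
  refine List.Forall₂.cons chb128 ?_
  refine List.Forall₂.cons chb129 ?_
  refine List.Forall₂.cons chb130 ?_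
  refine List.Forall₂.cons chb131 ?_
  refine List.Forall₂.cons chb132 ?_
  refine List.Forall₂.cons chb133 ?_
  refine List.Forall₂.cons chb134 ?_
  refine List.Forall₂.cons chb135 ?_
  exact List.Forall₂.nil

lemma allC : ∀ r ∈ F19o, stC r LB = true := by
  unfold F19o
  refine List.forall_mem_cons.2 ⟨chc0, ?_⟩
  refine List.forall_mem_cons.2 ⟨chc1, ?_⟩
  refine List.forall_mem_cons.2 ⟨chc2, ?_⟩
  refine List.forall_mem_cons.2 ⟨chc3, ?_⟩
  refine List.forall_mem_cons.2 ⟨chc4, ?_⟩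
  refine List.forall_mem_cons.2 ⟨chc5, ?_⟩
  refine List.forall_mem_cons.2 ⟨chc6, ?_⟩
  refine List.forall_mem_cons.2 ⟨chc7, ?_⟩
  refine List.forall_mem_cons.2 ⟨chc8, ?_⟩
  refine List.forall_mem_cons.2 ⟨chc9, ?_⟩
  refine List.forall_mem_cons.2 ⟨chc10, ?_⟩
  refine List.forall_mem_cons.2 ⟨chc11, ?_⟩
  refine List.forall_mem_cons.2 ⟨chc12, ?_⟩
  refine List.forall_mem_cons.2 ⟨chc13, ?_⟩
  refine List.forall_mem_cons.2 ⟨chc14, ?_⟩
  refine List.forall_mem_cons.2 ⟨chc15, ?_⟩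
  refine List.forall_mem_cons.2 ⟨chc16, ?_⟩
  refine List.forall_mem_cons.2 ⟨chc17, ?_⟩
  refine List.forall_mem_cons.2 ⟨chc18, ?_⟩
  refine List.forall_mem_cons.2 ⟨chc19, ?_⟩
  refine List.forall_mem_cons.2 ⟨chc20, ?_⟩
  refine List.forall_mem_cons.2 ⟨chc21, ?_⟩
  refine List.forall_mem_cons.2 ⟨chc22, ?_⟩
  refine List.forall_mem_cons.2 ⟨chc23, ?_⟩
  refine List.forall_mem_cons.2 ⟨chc24, ?_⟩
  refine List.forall_mem_cons.2 ⟨chc25, ?_⟩
  refine List.forall_mem_cons.2 ⟨chc26, ?_⟩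
  refine List.forall_mem_cons.2 ⟨chc27, ?_⟩
  refine List.forall_mem_cons.2 ⟨chc28, ?_⟩
  refine List.forall_mem_cons.2 ⟨chc29, ?_⟩
  refine List.forall_mem_cons.2 ⟨chc30, ?_⟩
  refine List.forall_mem_cons.2 ⟨chc31, ?_⟩
  refine List.forall_mem_cons.2 ⟨chc32, ?_⟩
  refine List.forall_mem_cons.2 ⟨chc33, ?_⟩
  refine List.forall_mem_cons.2 ⟨chc34, ?_⟩
  refine List.forall_mem_cons.2 ⟨chc35, ?_⟩
  refine List.forall_mem_cons.2 ⟨chc36, ?_⟩
  refine List.forall_mem_cons.2 ⟨chc37, ?_⟩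
  refine List.forall_mem_cons.2 ⟨chc38, ?_⟩
  refine List.forall_mem_cons.2 ⟨chc39, ?_⟩
  refine List.forall_mem_cons.2 ⟨chc40, ?_⟩
  refine List.forall_mem_cons.2 ⟨chc41, ?_⟩
  refine List.forall_mem_cons.2 ⟨chc42, ?_⟩
  refine List.forall_mem_cons.2 ⟨chc43, ?_⟩
  refine List.forall_mem_cons.2 ⟨chc44, ?_⟩
  refine List.forall_mem_cons.2 ⟨chc45, ?_⟩
  refine List.forall_mem_cons.2 ⟨chc46, ?_⟩
  refine List.forall_mem_cons.2 ⟨chc47, ?_⟩
  refine List.forall_mem_cons.2 ⟨chc48, ?_⟩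
  refine List.forall_mem_cons.2 ⟨chc49, ?_⟩
  refine List.forall_mem_cons.2 ⟨chc50, ?_⟩
  refine List.forall_mem_cons.2 ⟨chc51, ?_⟩
  refine List.forall_mem_cons.2 ⟨chc52, ?_⟩
  refine List.forall_mem_cons.2 ⟨chc53, ?_⟩
  refine List.forall_mem_cons.2 ⟨chc54, ?_⟩
  refine List.forall_mem_cons.2 ⟨chc55, ?_⟩
  refine List.forall_mem_cons.2 ⟨chc56, ?_⟩
  refine List.forall_mem_cons.2 ⟨chc57, ?_⟩
  refine List.forall_mem_cons.2 ⟨chc58, ?_⟩
  refine List.forall_mem_cons.2 ⟨chc59, ?_⟩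
  refine List.forall_mem_cons.2 ⟨chc60, ?_⟩
  refine List.forall_mem_cons.2 ⟨chc61, ?_⟩
  refine List.forall_mem_cons.2 ⟨chc62, ?_⟩
  refine List.forall_mem_cons.2 ⟨chc63, ?_⟩
  refine List.forall_mem_cons.2 ⟨chc64, ?_⟩
  refine List.forall_mem_cons.2 ⟨chc65, ?_⟩
  refine List.forall_mem_cons.2 ⟨chc66, ?_⟩
  refine List.forall_mem_cons.2 ⟨chc67, ?_⟩
  refine List.forall_mem_cons.2 ⟨chc68, ?_⟩
  refine List.forall_mem_cons.2 ⟨chc69, ?_⟩
  refine List.forall_mem_cons.2 ⟨chc70, ?_⟩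
  refine List.forall_mem_cons.2 ⟨chc71, ?_⟩
  refine List.forall_mem_cons.2 ⟨chc72, ?_⟩
  refine List.forall_mem_cons.2 ⟨chc73, ?_⟩
  refine List.forall_mem_cons.2 ⟨chc74, ?_⟩
  refine List.forall_mem_cons.2 ⟨chc75, ?_⟩
  refine List.forall_mem_cons.2 ⟨chc76, ?_⟩
  refine List.forall_mem_cons.2 ⟨chc77, ?_⟩
  refine List.forall_mem_cons.2 ⟨chc78, ?_⟩
  refine List.forall_mem_cons.2 ⟨chc79, ?_⟩
  refine List.forall_mem_cons.2 ⟨chc80, ?_⟩
  refine List.forall_mem_cons.2 ⟨chc81, ?_⟩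
  refine List.forall_mem_cons.2 ⟨chc82, ?_⟩
  refine List.forall_mem_cons.2 ⟨chc83, ?_⟩
  refine List.forall_mem_cons.2 ⟨chc84, ?_⟩
  refine List.forall_mem_cons.2 ⟨chc85, ?_⟩
  refine List.forall_mem_cons.2 ⟨chc86, ?_⟩
  refine List.forall_mem_cons.2 ⟨chc87, ?_⟩
  refine List.forall_mem_cons.2 ⟨chc88, ?_⟩
  refine List.forall_mem_cons.2 ⟨chc89, ?_⟩
  refine List.forall_mem_cons.2 ⟨chc90, ?_⟩
  refine List.forall_mem_cons.2 ⟨chc91, ?_⟩
  refine List.forall_mem_cons.2 ⟨chc92, ?_⟩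
  refine List.forall_mem_cons.2 ⟨chc93, ?_⟩
  refine List.forall_mem_cons.2 ⟨chc94, ?_⟩
  refine List.forall_mem_cons.2 ⟨chc95, ?_⟩
  refine List.forall_mem_cons.2 ⟨chc96, ?_⟩
  refine List.forall_mem_cons.2 ⟨chc97, ?_⟩
  refine List.forall_mem_cons.2 ⟨chc98, ?_⟩
  refine List.forall_mem_cons.2 ⟨chc99, ?_⟩
  refine List.forall_mem_cons.2 ⟨chc100, ?_⟩
  refine List.forall_mem_cons.2 ⟨chc101, ?_⟩
  refine List.forall_mem_cons.2 ⟨chc102, ?_⟩
  refine List.forall_mem_cons.2 ⟨chc103, ?_⟩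
  refine List.forall_mem_cons.2 ⟨chc104, ?_⟩
  refine List.forall_mem_cons.2 ⟨chc105, ?_⟩
  refine List.forall_mem_cons.2 ⟨chc106, ?_⟩
  refine List.forall_mem_cons.2 ⟨chc107, ?_⟩
  refine List.forall_mem_cons.2 ⟨chc108, ?_⟩
  refine List.forall_mem_cons.2 ⟨chc109, ?_⟩
  refine List.forall_mem_cons.2 ⟨chc110, ?_⟩
  refine List.forall_mem_cons.2 ⟨chc111, ?_⟩
  refine List.forall_mem_cons.2 ⟨chc112, ?_⟩
  refine List.forall_mem_cons.2 ⟨chc113, ?_⟩
  refine List.forall_mem_cons.2 ⟨chc114, ?_⟩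
  refine List.forall_mem_cons.2 ⟨chc115, ?_⟩
  refine List.forall_mem_cons.2 ⟨chc116, ?_⟩
  refine List.forall_mem_cons.2 ⟨chc117, ?_⟩
  refine List.forall_mem_cons.2 ⟨chc118, ?_⟩
  refine List.forall_mem_cons.2 ⟨chc119, ?_⟩
  refine List.forall_mem_cons.2 ⟨chc120, ?_⟩
  refine List.forall_mem_cons.2 ⟨chc121, ?_⟩
  refine List.forall_mem_cons.2 ⟨chc122, ?_⟩
  refine List.forall_mem_cons.2 ⟨chc123, ?_⟩
  refine List.forall_mem_cons.2 ⟨chc124, ?_⟩
  refine List.forall_mem_cons.2 ⟨chc125, ?_⟩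
  refine List.forall_mem_cons.2 ⟨chc126, ?_⟩
  refine List.forall_mem_cons.2 ⟨chc127, ?_⟩
  refine List.forall_mem_cons.2 ⟨chc128, ?_⟩
  refine List.forall_mem_cons.2 ⟨chc129, ?_⟩
  refine List.forall_mem_cons.2 ⟨chc130, ?_⟩
  refine List.forall_mem_cons.2 ⟨chc131, ?_⟩
  refine List.forall_mem_cons.2 ⟨chc132, ?_⟩
  refine List.forall_mem_cons.2 ⟨chc133, ?_⟩
  refine List.forall_mem_cons.2 ⟨chc134, ?_⟩
  refine List.forall_mem_cons.2 ⟨chc135, ?_⟩
  refine List.forall_mem_cons.2 ⟨chc136, ?_⟩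
  refine List.forall_mem_cons.2 ⟨chc137, ?_⟩
  refine List.forall_mem_cons.2 ⟨chc138, ?_⟩
  refine List.forall_mem_cons.2 ⟨chc139, ?_⟩
  refine List.forall_mem_cons.2 ⟨chc140, ?_⟩
  refine List.forall_mem_cons.2 ⟨chc141, ?_⟩
  refine List.forall_mem_cons.2 ⟨chc142, ?_⟩
  refine List.forall_mem_cons.2 ⟨chc143, ?_⟩
  refine List.forall_mem_cons.2 ⟨chc144, ?_⟩
  refine List.forall_mem_cons.2 ⟨chc145, ?_⟩
  refine List.forall_mem_cons.2 ⟨chc146, ?_⟩
  refine List.forall_mem_cons.2 ⟨chc147, ?_⟩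
  refine List.forall_mem_cons.2 ⟨chc148, ?_⟩
  refine List.forall_mem_cons.2 ⟨chc149, ?_⟩
  refine List.forall_mem_cons.2 ⟨chc150, ?_⟩
  refine List.forall_mem_cons.2 ⟨chc151, ?_⟩
  refine List.forall_mem_cons.2 ⟨chc152, ?_⟩
  refine List.forall_mem_cons.2 ⟨chc153, ?_⟩
  refine List.forall_mem_cons.2 ⟨chc154, ?_⟩
  refine List.forall_mem_cons.2 ⟨chc155, ?_⟩
  refine List.forall_mem_cons.2 ⟨chc156, ?_⟩
  refine List.forall_mem_cons.2 ⟨chc157, ?_⟩
  refine List.forall_mem_cons.2 ⟨chc158, ?_⟩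
  refine List.forall_mem_cons.2 ⟨chc159, ?_⟩
  refine List.forall_mem_cons.2 ⟨chc160, ?_⟩
  refine List.forall_mem_cons.2 ⟨chc161, ?_⟩
  refine List.forall_mem_cons.2 ⟨chc162, ?_⟩
  refine List.forall_mem_cons.2 ⟨chc163, ?_⟩
  refine List.forall_mem_cons.2 ⟨chc164, ?_⟩
  refine List.forall_mem_cons.2 ⟨chc165, ?_⟩
  refine List.forall_mem_cons.2 ⟨chc166, ?_⟩
  refine List.forall_mem_cons.2 ⟨chc167, ?_⟩
  refine List.forall_mem_cons.2 ⟨chc168, ?_⟩
  refine List.forall_mem_cons.2 ⟨chc169, ?_⟩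
  refine List.forall_mem_cons.2 ⟨chc170, ?_⟩
  refine List.forall_mem_cons.2 ⟨chc171, ?_⟩
  refine List.forall_mem_cons.2 ⟨chc172, ?_⟩
  refine List.forall_mem_cons.2 ⟨chc173, ?_⟩
  refine List.forall_mem_cons.2 ⟨chc174, ?_⟩
  refine List.forall_mem_cons.2 ⟨chc175, ?_⟩
  refine List.forall_mem_cons.2 ⟨chc176, ?_⟩
  refine List.forall_mem_cons.2 ⟨chc177, ?_⟩
  refine List.forall_mem_cons.2 ⟨chc178, ?_⟩
  refine List.forall_mem_cons.2 ⟨chc179, ?_⟩
  refine List.forall_mem_cons.2 ⟨chc180, ?_⟩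
  refine List.forall_mem_cons.2 ⟨chc181, ?_⟩
  refine List.forall_mem_cons.2 ⟨chc182, ?_⟩
  refine List.forall_mem_cons.2 ⟨chc183, ?_⟩
  refine List.forall_mem_cons.2 ⟨chc184, ?_⟩
  refine List.forall_mem_cons.2 ⟨chc185, ?_⟩
  refine List.forall_mem_cons.2 ⟨chc186, ?_⟩
  refine List.forall_mem_cons.2 ⟨chc187, ?_⟩
  refine List.forall_mem_cons.2 ⟨chc188, ?_⟩
  refine List.forall_mem_cons.2 ⟨chc189, ?_⟩
  intro r hr
  exact absurd hr (List.not_mem_nil)

lemma allD : List.Forall₂ (fun r E => stD r E = true) F13e LD := by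
  unfold F13e LD
  refine List.Forall₂.cons chd0 ?_
  refine List.Forall₂.cons chd1 ?_
  refine List.Forall₂.cons chd2 ?_
  refine List.Forall₂.cons chd3 ?_
  refine List.Forall₂.cons chd4 ?_
  refine List.Forall₂.cons chd5 ?_
  refine List.Forall₂.cons chd6 ?_
  refine List.Forall₂.cons chd7 ?_
  refine List.Forall₂.cons chd8 ?_
  refine List.Forall₂.cons chd9 ?_
  refine List.Forall₂.cons chd10 ?_
  refine List.Forall₂.cons chd11 ?_
  refine List.Forall₂.cons chd12 ?_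
  refine List.Forall₂.cons chd13 ?_
  refine List.Forall₂.cons chd14 ?_
  refine List.Forall₂.cons chd15 ?_
  refine List.Forall₂.cons chd16 ?_
  refine List.Forall₂.cons chd17 ?_
  refine List.Forall₂.cons chd18 ?_
  refine List.Forall₂.cons chd19 ?_
  refine List.Forall₂.cons chd20 ?_
  refine List.Forall₂.cons chd21 ?_
  refine List.Forall₂.cons chd22 ?_
  refine List.Forall₂.cons chd23 ?_
  refine List.Forall₂.cons chd24 ?_
  refine List.Forall₂.cons chd25 ?_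
  refine List.Forall₂.cons chd26 ?_
  refine List.Forall₂.cons chd27 ?_
  refine List.Forall₂.cons chd28 ?_
  refine List.Forall₂.cons chd29 ?_
  refine List.Forall₂.cons chd30 ?_
  refine List.Forall₂.cons chd31 ?_
  refine List.Forall₂.cons chd32 ?_
  refine List.Forall₂.cons chd33 ?_
  refine List.Forall₂.cons chd34 ?_
  refine List.Forall₂.cons chd35 ?_
  refine List.Forall₂.cons chd36 ?_
  refine List.Forall₂.cons chd37 ?_
  refine List.Forall₂.cons chd38 ?_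
  refine List.Forall₂.cons chd39 ?_
  refine List.Forall₂.cons chd40 ?_
  refine List.Forall₂.cons chd41 ?_
  refine List.Forall₂.cons chd42 ?_
  refine List.Forall₂.cons chd43 ?_
  refine List.Forall₂.cons chd44 ?_
  refine List.Forall₂.cons chd45 ?_
  refine List.Forall₂.cons chd46 ?_
  refine List.Forall₂.cons chd47 ?_
  refine List.Forall₂.cons chd48 ?_
  refine List.Forall₂.cons chd49 ?_
  refine List.Forall₂.cons chd50 ?_
  refine List.Forall₂.cons chd51 ?_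
  refine List.Forall₂.cons chd52 ?_
  refine List.Forall₂.cons chd53 ?_
  refine List.Forall₂.cons chd54 ?_
  refine List.Forall₂.cons chd55 ?_
  refine List.Forall₂.cons chd56 ?_
  refine List.Forall₂.cons chd57 ?_
  refine List.Forall₂.cons chd58 ?_
  refine List.Forall₂.cons chd59 ?_
  refine List.Forall₂.cons chd60 ?_
  refine List.Forall₂.cons chd61 ?_
  refine List.Forall₂.cons chd62 ?_
  refine List.Forall₂.cons chd63 ?_
  refine List.Forall₂.cons chd64 ?_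
  refine List.Forall₂.cons chd65 ?_
  refine List.Forall₂.cons chd66 ?_
  refine List.Forall₂.cons chd67 ?_
  refine List.Forall₂.cons chd68 ?_
  refine List.Forall₂.cons chd69 ?_
  refine List.Forall₂.cons chd70 ?_
  refine List.Forall₂.cons chd71 ?_
  refine List.Forall₂.cons chd72 ?_
  refine List.Forall₂.cons chd73 ?_
  refine List.Forall₂.cons chd74 ?_
  refine List.Forall₂.cons chd75 ?_
  refine List.Forall₂.cons chd76 ?_
  refine List.Forall₂.cons chd77 ?_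
  exact List.Forall₂.nil

lemma allF : ∀ r ∈ F17e, stF r LD = true := by
  unfold F17e
  refine List.forall_mem_cons.2 ⟨chf0, ?_⟩
  refine List.forall_mem_cons.2 ⟨chf1, ?_⟩
  refine List.forall_mem_cons.2 ⟨chf2, ?_⟩
  refine List.forall_mem_cons.2 ⟨chf3, ?_⟩
  refine List.forall_mem_cons.2 ⟨chf4, ?_⟩
  refine List.forall_mem_cons.2 ⟨chf5, ?_⟩
  refine List.forall_mem_cons.2 ⟨chf6, ?_⟩
  refine List.forall_mem_cons.2 ⟨chf7, ?_⟩
  refine List.forall_mem_cons.2 ⟨chf8, ?_⟩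
  refine List.forall_mem_cons.2 ⟨chf9, ?_⟩
  refine List.forall_mem_cons.2 ⟨chf10, ?_⟩
  refine List.forall_mem_cons.2 ⟨chf11, ?_⟩
  refine List.forall_mem_cons.2 ⟨chf12, ?_⟩
  refine List.forall_mem_cons.2 ⟨chf13, ?_⟩
  refine List.forall_mem_cons.2 ⟨chf14, ?_⟩
  refine List.forall_mem_cons.2 ⟨chf15, ?_⟩
  refine List.forall_mem_cons.2 ⟨chf16, ?_⟩
  refine List.forall_mem_cons.2 ⟨chf17, ?_⟩
  refine List.forall_mem_cons.2 ⟨chf18, ?_⟩
  refine List.forall_mem_cons.2 ⟨chf19, ?_⟩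
  refine List.forall_mem_cons.2 ⟨chf20, ?_⟩
  refine List.forall_mem_cons.2 ⟨chf21, ?_⟩
  refine List.forall_mem_cons.2 ⟨chf22, ?_⟩
  refine List.forall_mem_cons.2 ⟨chf23, ?_⟩
  refine List.forall_mem_cons.2 ⟨chf24, ?_⟩
  refine List.forall_mem_cons.2 ⟨chf25, ?_⟩
  refine List.forall_mem_cons.2 ⟨chf26, ?_⟩
  refine List.forall_mem_cons.2 ⟨chf27, ?_⟩
  refine List.forall_mem_cons.2 ⟨chf28, ?_⟩
  refine List.forall_mem_cons.2 ⟨chf29, ?_⟩
  refine List.forall_mem_cons.2 ⟨chf30, ?_⟩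
  refine List.forall_mem_cons.2 ⟨chf31, ?_⟩
  refine List.forall_mem_cons.2 ⟨chf32, ?_⟩
  refine List.forall_mem_cons.2 ⟨chf33, ?_⟩
  refine List.forall_mem_cons.2 ⟨chf34, ?_⟩
  refine List.forall_mem_cons.2 ⟨chf35, ?_⟩
  refine List.forall_mem_cons.2 ⟨chf36, ?_⟩
  refine List.forall_mem_cons.2 ⟨chf37, ?_⟩
  refine List.forall_mem_cons.2 ⟨chf38, ?_⟩
  refine List.forall_mem_cons.2 ⟨chf39, ?_⟩
  refine List.forall_mem_cons.2 ⟨chf40, ?_⟩
  refine List.forall_mem_cons.2 ⟨chf41, ?_⟩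
  refine List.forall_mem_cons.2 ⟨chf42, ?_⟩
  refine List.forall_mem_cons.2 ⟨chf43, ?_⟩
  refine List.forall_mem_cons.2 ⟨chf44, ?_⟩
  refine List.forall_mem_cons.2 ⟨chf45, ?_⟩
  refine List.forall_mem_cons.2 ⟨chf46, ?_⟩
  refine List.forall_mem_cons.2 ⟨chf47, ?_⟩
  refine List.forall_mem_cons.2 ⟨chf48, ?_⟩
  refine List.forall_mem_cons.2 ⟨chf49, ?_⟩
  refine List.forall_mem_cons.2 ⟨chf50, ?_⟩
  refine List.forall_mem_cons.2 ⟨chf51, ?_⟩
  refine List.forall_mem_cons.2 ⟨chf52, ?_⟩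
  refine List.forall_mem_cons.2 ⟨chf53, ?_⟩
  refine List.forall_mem_cons.2 ⟨chf54, ?_⟩
  refine List.forall_mem_cons.2 ⟨chf55, ?_⟩
  refine List.forall_mem_cons.2 ⟨chf56, ?_⟩
  refine List.forall_mem_cons.2 ⟨chf57, ?_⟩
  refine List.forall_mem_cons.2 ⟨chf58, ?_⟩
  refine List.forall_mem_cons.2 ⟨chf59, ?_⟩
  refine List.forall_mem_cons.2 ⟨chf60, ?_⟩
  refine List.forall_mem_cons.2 ⟨chf61, ?_⟩
  refine List.forall_mem_cons.2 ⟨chf62, ?_⟩
  refine List.forall_mem_cons.2 ⟨chf63, ?_⟩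
  refine List.forall_mem_cons.2 ⟨chf64, ?_⟩
  refine List.forall_mem_cons.2 ⟨chf65, ?_⟩
  refine List.forall_mem_cons.2 ⟨chf66, ?_⟩
  refine List.forall_mem_cons.2 ⟨chf67, ?_⟩
  refine List.forall_mem_cons.2 ⟨chf68, ?_⟩
  refine List.forall_mem_cons.2 ⟨chf69, ?_⟩
  refine List.forall_mem_cons.2 ⟨chf70, ?_⟩
  refine List.forall_mem_cons.2 ⟨chf71, ?_⟩
  refine List.forall_mem_cons.2 ⟨chf72, ?_⟩
  refine List.forall_mem_cons.2 ⟨chf73, ?_⟩
  refine List.forall_mem_cons.2 ⟨chf74, ?_⟩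
  refine List.forall_mem_cons.2 ⟨chf75, ?_⟩
  refine List.forall_mem_cons.2 ⟨chf76, ?_⟩
  refine List.forall_mem_cons.2 ⟨chf77, ?_⟩
  refine List.forall_mem_cons.2 ⟨chf78, ?_⟩
  refine List.forall_mem_cons.2 ⟨chf79, ?_⟩
  refine List.forall_mem_cons.2 ⟨chf80, ?_⟩
  refine List.forall_mem_cons.2 ⟨chf81, ?_⟩
  refine List.forall_mem_cons.2 ⟨chf82, ?_⟩
  refine List.forall_mem_cons.2 ⟨chf83, ?_⟩
  refine List.forall_mem_cons.2 ⟨chf84, ?_⟩
  refine List.forall_mem_cons.2 ⟨chf85, ?_⟩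
  refine List.forall_mem_cons.2 ⟨chf86, ?_⟩
  refine List.forall_mem_cons.2 ⟨chf87, ?_⟩
  refine List.forall_mem_cons.2 ⟨chf88, ?_⟩
  refine List.forall_mem_cons.2 ⟨chf89, ?_⟩
  refine List.forall_mem_cons.2 ⟨chf90, ?_⟩
  refine List.forall_mem_cons.2 ⟨chf91, ?_⟩
  refine List.forall_mem_cons.2 ⟨chf92, ?_⟩
  refine List.forall_mem_cons.2 ⟨chf93, ?_⟩
  refine List.forall_mem_cons.2 ⟨chf94, ?_⟩
  refine List.forall_mem_cons.2 ⟨chf95, ?_⟩
  refine List.forall_mem_cons.2 ⟨chf96, ?_⟩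
  refine List.forall_mem_cons.2 ⟨chf97, ?_⟩
  refine List.forall_mem_cons.2 ⟨chf98, ?_⟩
  refine List.forall_mem_cons.2 ⟨chf99, ?_⟩
  refine List.forall_mem_cons.2 ⟨chf100, ?_⟩
  refine List.forall_mem_cons.2 ⟨chf101, ?_⟩
  refine List.forall_mem_cons.2 ⟨chf102, ?_⟩
  refine List.forall_mem_cons.2 ⟨chf103, ?_⟩
  refine List.forall_mem_cons.2 ⟨chf104, ?_⟩
  refine List.forall_mem_cons.2 ⟨chf105, ?_⟩
  refine List.forall_mem_cons.2 ⟨chf106, ?_⟩
  refine List.forall_mem_cons.2 ⟨chf107, ?_⟩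
  refine List.forall_mem_cons.2 ⟨chf108, ?_⟩
  refine List.forall_mem_cons.2 ⟨chf109, ?_⟩
  refine List.forall_mem_cons.2 ⟨chf110, ?_⟩
  refine List.forall_mem_cons.2 ⟨chf111, ?_⟩
  refine List.forall_mem_cons.2 ⟨chf112, ?_⟩
  refine List.forall_mem_cons.2 ⟨chf113, ?_⟩
  refine List.forall_mem_cons.2 ⟨chf114, ?_⟩
  refine List.forall_mem_cons.2 ⟨chf115, ?_⟩
  refine List.forall_mem_cons.2 ⟨chf116, ?_⟩
  refine List.forall_mem_cons.2 ⟨chf117, ?_⟩
  refine List.forall_mem_cons.2 ⟨chf118, ?_⟩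
  refine List.forall_mem_cons.2 ⟨chf119, ?_⟩
  refine List.forall_mem_cons.2 ⟨chf120, ?_⟩
  refine List.forall_mem_cons.2 ⟨chf121, ?_⟩
  refine List.forall_mem_cons.2 ⟨chf122, ?_⟩
  refine List.forall_mem_cons.2 ⟨chf123, ?_⟩
  refine List.forall_mem_cons.2 ⟨chf124, ?_⟩
  refine List.forall_mem_cons.2 ⟨chf125, ?_⟩
  refine List.forall_mem_cons.2 ⟨chf126, ?_⟩
  refine List.forall_mem_cons.2 ⟨chf127, ?_⟩
  refine List.forall_mem_cons.2 ⟨chf128, ?_⟩
  refine List.forall_mem_cons.2 ⟨chf129, ?_⟩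
  refine List.forall_mem_cons.2 ⟨chf130, ?_⟩
  refine List.forall_mem_cons.2 ⟨chf131, ?_⟩
  refine List.forall_mem_cons.2 ⟨chf132, ?_⟩
  refine List.forall_mem_cons.2 ⟨chf133, ?_⟩
  refine List.forall_mem_cons.2 ⟨chf134, ?_⟩
  refine List.forall_mem_cons.2 ⟨chf135, ?_⟩
  intro r hr
  exact absurd hr (List.not_mem_nil)

end Pool.Agent.LibH4.CX


end

section

/-!
Constant words, all letters at once: there is no world.
-/

namespace Pool.Agent.LibH4.CX

open Pool.Agent.LibH4.CW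

variable {a N : ℕ} {e : ℕ → ℤ × ℤ × ℤ}

/-- **odd parity** -/
theorem no_odd (W : World false a e N) (h13 : (2 * N + 1) % 13 ≠ 0) : False := by
  obtain ⟨r1, m1, T1⟩ := ex1o W
  obtain ⟨r13, m13, T13⟩ := ex13o W
  obtain ⟨r7, m7, T7⟩ := ex7o W
  obtain ⟨r5, m5, T5⟩ := ex5o W
  obtain ⟨r17, m17, T17⟩ := ex17o W
  obtain ⟨r8, m8, T8⟩ := ex8o W
  obtain ⟨r4, m4, T4⟩ := ex4o W
  obtain ⟨r11, m11, T11⟩ := ex11o W
  obtain ⟨r19, m19, T19⟩ := ex19o W
  have e1 : r1 = r1o_0 := by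
    unfold F1o at m1
    simpa using m1
  subst e1
  obtain ⟨E, hE, cA⟩ := f2_mem allA r13 m13
  obtain ⟨⟨x13, x7, x5, xs⟩, hx, a1, a2, a3, i1⟩ := stA_spec W h13 T1 T13 T7 m7 T5 m5 cA
  simp only at a1 a2 a3 i1
  subst a1 a2 a3
  obtain ⟨E', hE', cB⟩ := f2_mem allB r17 m17
  obtain ⟨⟨y17, y13, y7, y5, y8, y4, y11, ys⟩, hy, b1, b2, b3, b4, b5, b6, b7, i2⟩ :=
    stB_spec W h13 i1 T1 T17 T13 T7 T5 T8 T4 T11 m11 (lkO_spec W T8 T4 lk_o m8 m4) hE hx cB
  simp only at b1 b2 b3 b4 b5 b6 b7 i2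
  subst b1 b2 b3 b4 b5 b6 b7
  exact stC_spec W h13 i2 T1 T17 T13 T7 T5 T8 T11 T19 hE' hy (allC r19 m19)

/-- **even parity** -/
theorem no_even (W : World true a e N) : False := by
  obtain ⟨r1, m1, T1⟩ := ex1e W
  obtain ⟨r13, m13, T13⟩ := ex13e W
  obtain ⟨r7, m7, T7⟩ := ex7e W
  obtain ⟨r5, m5, T5⟩ := ex5e W
  obtain ⟨r17, m17, T17⟩ := ex17e W
  obtain ⟨r8, m8, T8⟩ := ex8e W
  obtain ⟨r4, m4, T4⟩ := ex4e W
  obtain ⟨r11, m11, T11⟩ := ex11e W
  obtain ⟨r19, m19, T19⟩ := ex19e W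
  have e1 : r1 = r1e_0 := by
    unfold F1e at m1
    simpa using m1
  subst e1
  obtain ⟨⟨p4, F8⟩, hp, g1, g2⟩ := lkE_spec W T8 T4 lk_e m8 m4
  simp only at g1 g2
  subst g1
  obtain ⟨E, hE, cD⟩ := f2_mem allD r13 m13
  obtain ⟨⟨x13, x7, x5, x8, x4, xs⟩, hx, a1, a2, a3, a4, a5, i1⟩ :=
    stD_spec W T1 T13 T7 m7 T5 m5 T8 T4 hp g2 cD
  simp only at a1 a2 a3 a4 a5 i1
  subst a1 a2 a3 a4 a5
  exact stF_spec W i1 T1 T17 T13 T7 T5 T8 T4 T11 m11 T19 m19 hE hx (allF r17 m17)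

end Pool.Agent.LibH4.CX


end

section

/-!
Constant words, all letters at once: the complete list.
-/

namespace Pool.Agent.LibH4.CX

open scoped NumberField
open Function Pool.Agent.Lib_helper5 Pool.Agent.LibH4 Pool.Agent.LibH4.CFO Pool.Agent.LibH4.LO
  Pool.Agent.LibH4.CW

variable {m B : ℤ} {s : ℝ} {x : ℕ → ℝ} {c : ℕ → ℕ}

/-- the condition on the letter and the period length -/
def Adm (a L : ℕ) : Prop := a ≤ 100 ∨ (3 ≤ L ∧ (L % 2 = 0 ∨ L % 13 ≠ 0))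

/-- **no unique factorisation with inert small primes** -/
theorem no_ufd (h : Data m B s x c) (hm : 0 < m) {L a d : ℕ}
    (hL : minimalPeriod gsh (x 1) = L) (hL2 : 2 ≤ L) (ha : 1 ≤ a) (had : Adm a L)
    (hc : ∀ i, 1 ≤ i → i < L → c i = a)
    [IsDomain (QuadraticAlgebra ℤ m B)] [UniqueFactorizationMonoid (QuadraticAlgebra ℤ m B)]
    (hd : (d : ℤ) = B ^ 2 + 4 * m) (hsq : Squarefree d)
    (hin : ∀ p : ℕ, p.Prime → p ≤ 19 → ∀ X : ℤ, ¬ (p : ℤ) ∣ X ^ 2 + B * X - m) : False := by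
  rcases had with ha2 | ⟨hL3, h13⟩
  · exact CW.no_ufd h hm hL hL2 ha ha2 hc hd hsq hin
  · rcases Nat.even_or_odd' L with ⟨k, hk | hk⟩
    · obtain ⟨n, rfl⟩ : ∃ n, k = n + 1 := ⟨k - 1, by omega⟩
      have W := world_even h hm (n := n) (a := a) (by rw [hL, hk]) hd hsq hin
        (fun i h1 h2 => hc i h1 (by omega))
      exact no_even W
    · obtain ⟨n, rfl⟩ : ∃ n, k = n + 1 := ⟨k - 1, by omega⟩
      have W := world_odd h hm (n := n) (a := a) (by rw [hL, hk]) hd hin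
        (fun i h1 h2 => hc i h1 (by omega))
      exact no_odd W (by omega)

/-- small letters -/
lemma small_a (h : Data m B s x c) (hm : 0 < m) {L a : ℕ}
    (hL : minimalPeriod gsh (x 1) = L) (hL3 : 3 ≤ L) (ha : 1 ≤ a)
    (hc : ∀ i, 1 ≤ i → i < L → c i = a)
    (hD : B ^ 2 + 4 * m < 1444 * ((a : ℤ) + 1) ^ 2) : a ≤ 100 := by
  obtain ⟨t, ht, hBt, hmt⟩ := params h hL (by omega) ha hc hm
  rw [Fz_eq] at hBt hmt
  have hv : a * a + 1 ≤ (Fn a L).2 := by
    obtain ⟨k, rfl⟩ : ∃ k, L = 3 + k := ⟨L - 3, by omega⟩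
    clear hL hL3 hc hBt hmt
    induction k with
    | zero =>
      have e : (Fn a 3).2 = 1 + a * a := by simp [Fn]
      rw [add_zero, e]
      omega
    | succ k ih => exact ih.trans (Fn_mono ha _)
  have h1 : B ^ 2 < (38 * ((a : ℤ) + 1)) ^ 2 := by nlinarith
  have h2 : B < 38 * ((a : ℤ) + 1) := lt_of_pow_lt_pow_left₀ 2 (by positivity) h1
  by_contra hcon
  have h3 : (101 : ℤ) ≤ a := by exact_mod_cast (by omega : 101 ≤ a)
  have h4 : ((a : ℤ) * a + 1) ≤ ((Fn a L).2 : ℤ) := by exact_mod_cast hv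
  have h5 : 1 * ((Fn a L).2 : ℤ) ≤ t * ((Fn a L).2 : ℤ) := by
    apply mul_le_mul_of_nonneg_right ht
    positivity
  simp only at hBt
  nlinarith

/-- **the complete list** -/
theorem fwd (d : ℕ) (h1 : 1 < d) (hsq : Squarefree d) {a L : ℕ} (had : Adm a L)
    (hL : minimalPeriod gsh (gsh (omg d)) = L) (hL2 : 2 ≤ L)
    (hw : ∀ i, 1 ≤ i → i < L → ⌊gsh^[i] (omg d)⌋ = (a : ℤ))
    (hU : UniqueFactorizationMonoid (𝓞 (KQ d))) : d ∈ dL := by
  obtain ⟨m, B, s, x, c, h, hx1, hm, hB, hd⟩ := exists_data d h1 hsq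
  rw [← hx1] at hL
  have hc : ∀ i, 1 ≤ i → i < L → c i = a := by
    intro i hi1 hi2
    obtain ⟨j, rfl⟩ : ∃ j, i = j + 1 := ⟨i - 1, by omega⟩
    have h2 := hw (j + 1) hi1 hi2
    rw [← x_eq_iter h hx1, ← h.fl] at h2
    exact_mod_cast h2
  have ha : 1 ≤ a := by
    rw [← hc 1 le_rfl (by omega)]
    exact (inv_of h 1).cpos
  obtain ⟨e⟩ : Nonempty (QuadraticAlgebra ℤ m B ≃+* 𝓞 (KQ d)) := by
    rcases hd with ⟨h4, hd, hB2⟩ | ⟨h4, hd, hB2⟩
    · obtain ⟨e⟩ := exists_equiv_QI hd hB2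
      exact ⟨e.symm.trans (eqvO hsq h1)⟩
    · obtain ⟨e⟩ := exists_equiv_QI_even hd h4 hB2
      exact ⟨e.symm.trans (eqvO hsq h1)⟩
  have i1 : IsDomain (QuadraticAlgebra ℤ m B) := e.toMulEquiv.isDomain
  have i2 : UniqueFactorizationMonoid (QuadraticAlgebra ℤ m B) :=
    e.symm.toMulEquiv.uniqueFactorizationMonoid hU
  by_cases hin : ∀ p : ℕ, p.Prime → p ≤ 19 → ∀ X : ℤ, ¬ (p : ℤ) ∣ X ^ 2 + B * X - m
  · exfalso
    rcases hd with ⟨h4, hd, hB2⟩ | ⟨h4, hd, hB2⟩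
    · exact no_ufd h hm hL hL2 ha had hc hd hsq hin
    · have r0 := hin 2 Nat.prime_two (by norm_num) 0
      have r1 := hin 2 Nat.prime_two (by norm_num) 1
      push_cast at r0 r1
      omega
  · push Not at hin
    obtain ⟨p, hp, hp19, X, hX⟩ := hin
    have hD := small_D h hm hB (by omega) hL ha hc hp hp19 hX
    have ha2 : a ≤ 100 := by
      rcases had with ha2 | ⟨hL3, -⟩
      · exact ha2
      · exact small_a h hm hL hL3 ha hc hD
    obtain ⟨D, hD1, hD2⟩ := fin_small h hm hB hL hL2 ha ha2 hc hD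
    apply dL_of hD1
    rcases hd with ⟨h4, hd, -⟩ | ⟨h4, hd, -⟩
    · left
      refine ⟨h4, ?_⟩
      rw [← hd] at hD2
      exact_mod_cast hD2
    · right
      refine ⟨h4, ?_⟩
      rw [← hd] at hD2
      exact_mod_cast hD2

end Pool.Agent.LibH4.CX


end
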