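import Mathlib
import Pool.Agent.RQM.C02
import Pool.Agent.RQM.C03
import Pool.Agent.RQM.C04
import Pool.Agent.RQM.C06
import Pool.Agent.RQM.C07
import Pool.Agent.RQM.C08
import Pool.Agent.RQM.C09

/-! Parts: RDF.EFam, RDF.Half, RDF.Ident, RDF.Ghost, RDF.Smooth, RDF.Hensel, RDF.Sums -/

namespace Pool.Agent.LibH4
end Pool.Agent.LibH4
namespace Pool.Agent.LibH4.FA
end Pool.Agent.LibH4.FA
namespace Pool.Agent.Lib_helper5
end Pool.Agent.Lib_helper5

section

/-!
The family `d = (2ak)² - a`, `a = 4A - 1`: the cycle of forms.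
-/

namespace Pool.Agent.RDF.FE

open Finset (range)
open Pool.Agent.LibH4 Pool.Agent.LibH4.FA Pool.Agent.Lib_helper5

/-- `a = 4A - 1` -/
def aa (A : ℕ) : ℤ := 4 * A - 1

/-- `w = ak - A` -/
def w (A k : ℕ) : ℤ := aa A * k - A

/-- `B = 2ak - 1` -/
def bb (A k : ℕ) : ℤ := 2 * aa A * k - 1

/-- the first coefficients -/
def P (A k : ℕ) : ℕ → ℤ
  | 1 => 1
  | 3 => aa A
  | _ => w A k

/-- the middle coefficients -/
def R (A k : ℕ) : ℕ → ℤ
  | 2 => 2 * aa A * k - aa A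
  | 3 => 2 * aa A * k - aa A
  | _ => bb A k

/-- the last coefficients -/
def S (A k : ℕ) : ℕ → ℤ
  | 0 => 1
  | 2 => aa A
  | 4 => 1
  | _ => w A k

/-- the multipliers -/
def c (A k : ℕ) : ℕ → ℕ
  | 0 => 2 * (4 * A - 1) * k - 1
  | 2 => 2 * k - 1
  | _ => 2

variable {A k : ℕ}

lemma cast_aa (hA : 1 ≤ A) : ((4 * A - 1 : ℕ) : ℤ) = aa A := by
  unfold aa
  have : 1 ≤ 4 * A := by omega
  rw [Nat.cast_sub this]
  push_cast
  ring

lemma cast_c0 (hA : 1 ≤ A) (hk : 1 ≤ k) : ((2 * (4 * A - 1) * k - 1 : ℕ) : ℤ) = bb A k := by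
  have h1 : 1 ≤ 2 * (4 * A - 1) * k := by
    have : 1 ≤ 4 * A - 1 := by omega
    nlinarith
  rw [Nat.cast_sub h1]
  push_cast
  rw [cast_aa hA]
  unfold bb
  ring

lemma cast_c2 (hk : 1 ≤ k) : ((2 * k - 1 : ℕ) : ℤ) = 2 * k - 1 := by
  rw [Nat.cast_sub (by omega)]
  push_cast
  ring

lemma aa_pos (hA : 1 ≤ A) : 3 ≤ aa A := by
  unfold aa
  have : (1 : ℤ) ≤ A := by exact_mod_cast hA
  linarith

lemma w_pos (hA : 1 ≤ A) (hk : 1 ≤ k) : 2 ≤ w A k := by
  have h1 : (1 : ℤ) ≤ A := by exact_mod_cast hA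
  have h2 : (1 : ℤ) ≤ k := by exact_mod_cast hk
  unfold w aa
  nlinarith

lemma bb_pos (hA : 1 ≤ A) (hk : 1 ≤ k) : 5 ≤ bb A k := by
  have h1 : (1 : ℤ) ≤ A := by exact_mod_cast hA
  have h2 : (1 : ℤ) ≤ k := by exact_mod_cast hk
  unfold bb aa
  nlinarith

lemma disc (A k : ℕ) : bb A k ^ 2 + 4 * w A k = (2 * aa A * k) ^ 2 - aa A := by
  unfold bb w aa
  ring

lemma cyc (hA : 1 ≤ A) (hk : 1 ≤ k) :
    CG.CycM (w A k) (bb A k) 4 (P A k) (R A k) (S A k) (c A k) where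
  hP j hj := by
    interval_cases j <;> simp [P, S]
  hR j hj := by
    interval_cases j <;> simp only [R, S, c, w]
    · rw [cast_c0 hA hk]; ring
    · push_cast; unfold bb aa; ring
    · rw [cast_c2 hk]; unfold aa; ring
    · push_cast; unfold bb aa; ring
  hS j hj := by
    interval_cases j <;> simp only [P, R, S, c, w]
    · rw [cast_c0 hA hk]; ring
    · push_cast; unfold bb aa; ring
    · rw [cast_c2 hk]; unfold aa; ring
    · push_cast; unfold aa; ring
  P0 := rfl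
  R0 := rfl
  S0 := rfl
  Spos j hj := by
    have := w_pos hA hk
    have := aa_pos hA
    interval_cases j <;> simp only [S] <;> omega
  Ppos0 := by
    have := w_pos hA hk
    simp only [P]; omega
  cpos j hj := by
    have h1 : 3 ≤ 4 * A - 1 := by omega
    have : 3 * 1 ≤ (4 * A - 1) * k := Nat.mul_le_mul h1 hk
    have h2 : 2 * (4 * A - 1) * k = 2 * ((4 * A - 1) * k) := by ring
    interval_cases j <;> simp only [c] <;> omega
  Pm := rfl
  RB := rfl
  S1 := rfl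

lemma re_two (m B : ℤ) : (2 : QuadraticAlgebra ℤ m B).re = 2 := by
  have h : (2 : QuadraticAlgebra ℤ m B) = ((2 : ℕ) : QuadraticAlgebra ℤ m B) := by norm_num
  rw [h, QuadraticAlgebra.re_natCast]
  norm_num

lemma im_two (m B : ℤ) : (2 : QuadraticAlgebra ℤ m B).im = 0 := by
  have h : (2 : QuadraticAlgebra ℤ m B) = ((2 : ℕ) : QuadraticAlgebra ℤ m B) := by norm_num
  rw [h, QuadraticAlgebra.im_natCast]

lemma closing (hA : 1 ≤ A) (hk : 1 ≤ k) :
    CG.rho (w A k) (bb A k) (c A k) 4 =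
      CG.rho (w A k) (bb A k) (c A k) (4 + 1) * CG.om (w A k) (bb A k) := by
  have e2 : CG.rho (w A k) (bb A k) (c A k) 2 = ⟨-(bb A k), 1⟩ := by
    rw [CG.rho_add _ 0, CG.rho_zero, CG.rho_one]
    have := cast_c0 hA hk
    ext
    · simp [CG.om, c, this]
    · simp [CG.om, c]
  have e3 : CG.rho (w A k) (bb A k) (c A k) 3 = ⟨1 + 2 * bb A k, -2⟩ := by
    rw [CG.rho_add _ 1, CG.rho_one, e2]
    ext
    · simp [c, QuadraticAlgebra.re_one, re_two, im_two]
    · simp [c, QuadraticAlgebra.im_one, re_two, im_two]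
  have e4 : CG.rho (w A k) (bb A k) (c A k) 4 =
      ⟨-(bb A k) - (2 * k - 1) * (1 + 2 * bb A k), 1 + 2 * (2 * k - 1)⟩ := by
    rw [CG.rho_add _ 2, e2, e3]
    have := cast_c2 hk
    ext
    · simp [c, this]
    · simp [c, this]
      try ring
  have e5 : CG.rho (w A k) (bb A k) (c A k) (4 + 1) =
      ⟨1 + 2 * bb A k - 2 * (-(bb A k) - (2 * k - 1) * (1 + 2 * bb A k)),
        -2 - 2 * (1 + 2 * (2 * k - 1))⟩ := by
    rw [CG.rho_add _ 3, e3, e4]
    ext
    · simp [c, re_two, im_two]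
    · simp [c, re_two, im_two]
  rw [e4, e5, CG.om, QuadraticAlgebra.mk_mul_mk]
  ext
  · simp only [w, bb, aa]; ring
  · simp only [w, bb, aa]; ring

end Pool.Agent.RDF.FE


end

section

/-!
The right side of the identity as a product of half sums (smoothing by the inert prime `2`).
-/

namespace Pool.Agent.RDF

open Finset (range)
open Pool.Agent.LibH4 Pool.Agent.LibH4.FA Pool.Agent.Lib_helper5

/-- the sign of a residue -/
def sg (n r : ℕ) : ℤ := if r = 0 then 0 else if 2 * r < n then 1 else -1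

lemma two_bZ {n r : ℕ} (hn : n % 2 = 1) (hr : r < n) :
    2 * bZ n r - bZ n (2 * r % n) = n * sg n r := by
  unfold bZ sg
  rcases Nat.eq_zero_or_pos r with h | h
  · subst h; simp
  · have h0 : r ≠ 0 := by omega
    rw [if_neg h0, if_neg h0]
    by_cases h2 : 2 * r < n
    · rw [Nat.mod_eq_of_lt h2, if_neg (by omega), if_pos h2]
      push_cast
      ring
    · have e : 2 * r % n = 2 * r - n := by
        rw [Nat.mod_eq_sub_mod (by omega), Nat.mod_eq_of_lt (by omega)]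
      rw [e, if_neg (by omega), if_neg h2, Nat.cast_sub (by omega)]
      push_cast
      ring

lemma sum_perm {M : Type*} [AddCommMonoid M] (Q n : ℕ) (hQ : 0 < Q) (hn : Nat.Coprime n Q)
    (h : ℕ → M) : ∑ l ∈ range Q, h ((n * l) % Q) = ∑ l ∈ range Q, h l := by
  have hmaps : ∀ l ∈ range Q, (n * l) % Q ∈ range Q := fun l _ =>
    Finset.mem_range.2 (Nat.mod_lt _ hQ)
  have hinj : Set.InjOn (fun l => (n * l) % Q) (range Q : Set ℕ) := by
    intro x hx y hy hxy
    have hx' := Finset.mem_range.1 (Finset.mem_coe.1 hx)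
    have hy' := Finset.mem_range.1 (Finset.mem_coe.1 hy)
    have h1 : n * x ≡ n * y [MOD Q] := hxy
    have h2 : x ≡ y [MOD Q] := Nat.ModEq.cancel_left_of_coprime hn.symm h1
    have h3 : x % Q = y % Q := h2
    rwa [Nat.mod_eq_of_lt hx', Nat.mod_eq_of_lt hy'] at h3
  apply Finset.sum_nbij (fun l => (n * l) % Q) hmaps hinj
  · exact Finset.surjOn_of_injOn_of_card_le _ hmaps hinj le_rfl
  · intro _ _; rfl

/-- folding a sum with signs -/
lemma sum_sg {n : ℕ} (hn : n % 2 = 1) (g : ℕ → ℤ) (h0 : g 0 = 0)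
    (hg : ∀ r, 0 < r → r < n → g (n - r) = - g r) :
    ∑ r ∈ range n, g r * sg n r = 2 * ∑ r ∈ range ((n + 1) / 2), g r := by
  obtain ⟨h, rfl⟩ : ∃ h, n = 2 * h + 1 := ⟨n / 2, by omega⟩
  have e1 : (2 * h + 1 + 1) / 2 = h + 1 := by omega
  have e2 : 2 * h + 1 = (h + 1) + h := by ring
  rw [e1]
  conv_lhs => rw [show range (2 * h + 1) = range ((h + 1) + h) by rw [← e2]]
  rw [Finset.sum_range_add]
  have f1 : ∑ r ∈ range (h + 1), g r * sg (2 * h + 1) r = ∑ r ∈ range (h + 1), g r := by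
    apply Finset.sum_congr rfl
    intro r hr
    have hr' := Finset.mem_range.1 hr
    unfold sg
    rcases Nat.eq_zero_or_pos r with h3 | h3
    · subst h3; rw [h0]; simp
    · rw [if_neg (by omega), if_pos (by omega), mul_one]
  have f2 : ∑ r ∈ range h, g (h + 1 + r) * sg (2 * h + 1) (h + 1 + r)
      = ∑ r ∈ range h, g (r + 1) := by
    rw [← Finset.sum_range_reflect]
    apply Finset.sum_congr rfl
    intro r hr
    have hr' := Finset.mem_range.1 hr
    have e : h + 1 + (h - 1 - r) = (2 * h + 1) - (r + 1) := by omega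
    rw [e, hg (r + 1) (by omega) (by omega)]
    unfold sg
    rw [if_neg (by omega), if_neg (by omega)]
    ring
  have f3 : ∑ r ∈ range (h + 1), g r = ∑ r ∈ range h, g (r + 1) := by
    rw [Finset.sum_range_succ', h0, add_zero]
  rw [f1, f2, f3]
  ring

section

variable {q d : ℕ} (f : ℤ → ℤ)

/-- the product of half sums -/
def HH (q d : ℕ) (f : ℤ → ℤ) : ℤ :=
  ∑ r ∈ range ((q + 1) / 2), ∑ s ∈ range ((q * d + 1) / 2), f ((r : ℤ) * s) * jacobiSym s d

lemma per_mulZ {f : ℤ → ℤ} (hper : ∀ x, f (x + q) = f x) (x t : ℤ) : f (x + t * q) = f x := by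
  induction t using Int.induction_on with
  | zero => simp
  | succ i ih =>
    rw [show x + (i + 1 : ℤ) * q = (x + i * q) + q by ring, hper, ih]
  | pred i ih =>
    rw [← hper (x + (-(i : ℤ) - 1) * q), show x + (-(i : ℤ) - 1) * q + q = x + -(i : ℤ) * q by ring,
      ih]

lemma per_congrZ {f : ℤ → ℤ} (hper : ∀ x, f (x + q) = f x) {x y : ℤ} (h : ∃ t : ℤ, y = x + t * q) :
    f y = f x := by
  obtain ⟨t, rfl⟩ := h
  exact per_mulZ hper x t

lemma jac_mod (s d : ℕ) : jacobiSym ((s % d : ℕ) : ℤ) d = jacobiSym s d := by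
  rw [Int.natCast_mod, ← jacobiSym.mod_left]

lemma jac_mod_mul (s q d : ℕ) : jacobiSym ((s % (q * d) : ℕ) : ℤ) d = jacobiSym s d := by
  rw [← jac_mod (s % (q * d)) d, Nat.mod_mul_left_mod, jac_mod]

lemma jac_two_mul {d : ℕ} (h8 : d % 8 = 5) (s : ℕ) :
    jacobiSym ((2 * s : ℕ) : ℤ) d = - jacobiSym s d := by
  push_cast
  rw [jacobiSym.mul_left, J_two h8]
  ring

lemma jac_neg {d : ℕ} (h8 : d % 8 = 5) {q s : ℕ} (hs : s < q * d) :
    jacobiSym ((q * d - s : ℕ) : ℤ) d = jacobiSym s d := by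
  have e : ((q * d - s : ℕ) : ℤ) = -(s : ℤ) + q * d := by
    rw [Nat.cast_sub hs.le]; push_cast; ring
  have h1 : jacobiSym (-(s : ℤ) + q * d) d = jacobiSym (-(s : ℤ)) d := by
    rw [jacobiSym.mod_left, Int.add_mul_emod_self_right, ← jacobiSym.mod_left]
  have hodd : Odd d := Nat.odd_iff.2 (by omega)
  rw [e, h1, jacobiSym.neg _ hodd]
  have h4 : ZMod.χ₄ d = 1 := by
    rw [ZMod.χ₄_nat_one_mod_four (by omega)]
  rw [h4, one_mul]

/-- **smoothing by the inert prime two** -/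
theorem RZ_smooth (hq : q % 2 = 1) (h8 : d % 8 = 5)
    (hper : ∀ x, f (x + q) = f x) (hodd : ∀ x, f (-x) = - f x) :
    RZ q d (fun x => 4 * f (4 * x) - f x) = 4 * (q : ℤ) ^ 2 * d * HH q d (fun x => f (4 * x)) := by
  have hq0 : 0 < q := by omega
  have hd0 : 0 < d := by omega
  have hqd : (q * d) % 2 = 1 := by
    rw [Nat.mul_mod, hq, show d % 2 = 1 by omega]
  have hqd0 : 0 < q * d := Nat.mul_pos hq0 hd0
  have c1 : Nat.Coprime 2 q := Nat.coprime_two_left.2 (Nat.odd_iff.2 hq)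
  have c2 : Nat.Coprime 2 (q * d) := Nat.coprime_two_left.2 (Nat.odd_iff.2 hqd)
  have hf0 : f 0 = 0 := by
    have := hodd 0
    simp at this
    omega
  -- the four sums
  let T : (ℤ → ℤ) → ℤ := fun F => ∑ r ∈ range q, ∑ s ∈ range (q * d),
    (F ((r : ℤ) * s) * jacobiSym s d) * (bZ q r * bZ (q * d) s)
  have hT : ∀ F, RZ q d F = T F := fun F => rfl
  have key : ∑ r ∈ range q, ∑ s ∈ range (q * d),
      (f (4 * ((r : ℤ) * s)) * jacobiSym s d) * (((q : ℤ) * sg q r) * (((q * d : ℕ) : ℤ) * sg (q * d) s))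
      = 4 * T (fun x => f (4 * x)) - T f := by
    have e0 : ∀ r ∈ range q, ∀ s ∈ range (q * d),
        (f (4 * ((r : ℤ) * s)) * jacobiSym s d) * (((q : ℤ) * sg q r) * (((q * d : ℕ) : ℤ) * sg (q * d) s))
        = 4 * ((f (4 * ((r : ℤ) * s)) * jacobiSym s d) * (bZ q r * bZ (q * d) s))
        - 2 * ((f (4 * ((r : ℤ) * s)) * jacobiSym s d) * (bZ q (2 * r % q) * bZ (q * d) s))
        - 2 * ((f (4 * ((r : ℤ) * s)) * jacobiSym s d) * (bZ q r * bZ (q * d) (2 * s % (q * d))))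
        + (f (4 * ((r : ℤ) * s)) * jacobiSym s d) *
          (bZ q (2 * r % q) * bZ (q * d) (2 * s % (q * d))) := by
      intro r hr s hs
      rw [← two_bZ hq (Finset.mem_range.1 hr), ← two_bZ hqd (Finset.mem_range.1 hs)]
      ring
    rw [Finset.sum_congr rfl fun r hr => Finset.sum_congr rfl fun s hs => e0 r hr s hs]
    simp only [Finset.sum_add_distrib, Finset.sum_sub_distrib, ← Finset.mul_sum]
    have tB : ∑ r ∈ range q, ∑ s ∈ range (q * d), (f (4 * ((r : ℤ) * s)) * jacobiSym s d) *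
        (bZ q (2 * r % q) * bZ (q * d) s) = T (fun x => f (2 * x)) := by
      show _ = ∑ r ∈ range q, ∑ s ∈ range (q * d),
        (f (2 * ((r : ℤ) * s)) * jacobiSym s d) * (bZ q r * bZ (q * d) s)
      rw [← sum_perm q 2 hq0 c1 (fun r => ∑ s ∈ range (q * d),
        (f (2 * ((r : ℤ) * s)) * jacobiSym s d) * (bZ q r * bZ (q * d) s))]
      apply Finset.sum_congr rfl
      intro r _
      apply Finset.sum_congr rfl
      intro s _
      have e : f (4 * ((r : ℤ) * s)) = f (2 * (((2 * r % q : ℕ) : ℤ) * s)) := by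
        apply per_congrZ hper
        obtain ⟨u, hu⟩ := mod_cast_eq q (2 * r)
        refine ⟨-(2 * (u * s)), ?_⟩
        rw [hu]; push_cast; ring
      rw [e]
    have tC : ∑ r ∈ range q, ∑ s ∈ range (q * d), (f (4 * ((r : ℤ) * s)) * jacobiSym s d) *
        (bZ q r * bZ (q * d) (2 * s % (q * d))) = - T (fun x => f (2 * x)) := by
      show _ = - ∑ r ∈ range q, ∑ s ∈ range (q * d),
        (f (2 * ((r : ℤ) * s)) * jacobiSym s d) * (bZ q r * bZ (q * d) s)
      rw [← Finset.sum_neg_distrib]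
      apply Finset.sum_congr rfl
      intro r _
      rw [← sum_perm (q * d) 2 hqd0 c2 (fun s =>
        (f (2 * ((r : ℤ) * s)) * jacobiSym s d) * (bZ q r * bZ (q * d) s)), ← Finset.sum_neg_distrib]
      apply Finset.sum_congr rfl
      intro s _
      have e : f (4 * ((r : ℤ) * s)) = f (2 * ((r : ℤ) * ((2 * s % (q * d) : ℕ) : ℤ))) := by
        apply per_congrZ hper
        obtain ⟨u, hu⟩ := mod_cast_eq (q * d) (2 * s)
        refine ⟨-(2 * (r * (u * d))), ?_⟩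
        rw [hu]; push_cast; ring
      rw [e, jac_mod_mul, jac_two_mul h8]
      ring
    have tD : ∑ r ∈ range q, ∑ s ∈ range (q * d), (f (4 * ((r : ℤ) * s)) * jacobiSym s d) *
        (bZ q (2 * r % q) * bZ (q * d) (2 * s % (q * d))) = - T f := by
      show _ = - ∑ r ∈ range q, ∑ s ∈ range (q * d),
        (f ((r : ℤ) * s) * jacobiSym s d) * (bZ q r * bZ (q * d) s)
      rw [← sum_perm q 2 hq0 c1 (fun r => ∑ s ∈ range (q * d),
        (f ((r : ℤ) * s) * jacobiSym s d) * (bZ q r * bZ (q * d) s)), ← Finset.sum_neg_distrib]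
      apply Finset.sum_congr rfl
      intro r _
      rw [← sum_perm (q * d) 2 hqd0 c2 (fun s =>
        (f (((2 * r % q : ℕ) : ℤ) * s) * jacobiSym s d) * (bZ q (2 * r % q) * bZ (q * d) s)),
        ← Finset.sum_neg_distrib]
      apply Finset.sum_congr rfl
      intro s _
      have e : f (4 * ((r : ℤ) * s)) =
          f (((2 * r % q : ℕ) : ℤ) * ((2 * s % (q * d) : ℕ) : ℤ)) := by
        apply per_congrZ hper
        obtain ⟨u, hu⟩ := mod_cast_eq (q * d) (2 * s)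
        obtain ⟨v, hv⟩ := mod_cast_eq q (2 * r)
        refine ⟨-(2 * r * (u * d) + v * (2 * s) + v * q * (u * d)), ?_⟩
        rw [hu, hv]; push_cast; ring
      rw [e, jac_mod_mul, jac_two_mul h8]
      ring
    rw [tB, tC, tD]
    show 4 * T (fun x => f (4 * x)) - 2 * T (fun x => f (2 * x)) - 2 * -T (fun x => f (2 * x)) + -T f
      = _
    ring
  have hlin : T (fun x => 4 * f (4 * x) - f x) = 4 * T (fun x => f (4 * x)) - T f := by
    show ∑ r ∈ range q, ∑ s ∈ range (q * d),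
      ((4 * f (4 * ((r : ℤ) * s)) - f ((r : ℤ) * s)) * jacobiSym s d) * (bZ q r * bZ (q * d) s)
      = 4 * (∑ r ∈ range q, ∑ s ∈ range (q * d),
      (f (4 * ((r : ℤ) * s)) * jacobiSym s d) * (bZ q r * bZ (q * d) s)) -
      ∑ r ∈ range q, ∑ s ∈ range (q * d),
      (f ((r : ℤ) * s) * jacobiSym s d) * (bZ q r * bZ (q * d) s)
    rw [Finset.mul_sum, ← Finset.sum_sub_distrib]
    apply Finset.sum_congr rfl
    intro r _
    rw [Finset.mul_sum, ← Finset.sum_sub_distrib]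
    apply Finset.sum_congr rfl
    intro s _
    ring
  rw [hT, hlin, ← key]
  -- folding
  have fold : ∑ r ∈ range q, ∑ s ∈ range (q * d),
      (f (4 * ((r : ℤ) * s)) * jacobiSym s d) * (((q : ℤ) * sg q r) * (((q * d : ℕ) : ℤ) * sg (q * d) s))
      = (q : ℤ) * ((q * d : ℕ) : ℤ) * ∑ r ∈ range q, (∑ s ∈ range (q * d),
        (f (4 * ((r : ℤ) * s)) * jacobiSym s d) * sg (q * d) s) * sg q r := by
    rw [Finset.mul_sum]
    apply Finset.sum_congr rfl
    intro r _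
    rw [Finset.sum_mul, Finset.mul_sum]
    apply Finset.sum_congr rfl
    intro s _
    ring
  rw [fold]
  have inner : ∀ r : ℕ, ∑ s ∈ range (q * d), (f (4 * ((r : ℤ) * s)) * jacobiSym s d) * sg (q * d) s
      = 2 * ∑ s ∈ range ((q * d + 1) / 2), f (4 * ((r : ℤ) * s)) * jacobiSym s d := by
    intro r
    apply sum_sg hqd (fun s => f (4 * ((r : ℤ) * s)) * jacobiSym s d)
    · simp [hf0]
    · intro s _ hs
      rw [jac_neg h8 hs]
      have e : f (4 * ((r : ℤ) * ((q * d - s : ℕ) : ℤ))) = - f (4 * ((r : ℤ) * s)) := by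
        rw [← hodd]
        apply per_congrZ hper
        refine ⟨4 * r * d, ?_⟩
        rw [Nat.cast_sub hs.le]; push_cast; ring
      rw [e]
      ring
  rw [Finset.sum_congr rfl fun r _ => by rw [inner r]]
  rw [sum_sg hq (fun r => 2 * ∑ s ∈ range ((q * d + 1) / 2), f (4 * ((r : ℤ) * s)) * jacobiSym s d)]
  · unfold HH
    rw [← Finset.mul_sum]
    push_cast
    ring
  · simp [hf0]
  · intro r _ hr
    rw [← mul_neg, ← Finset.sum_neg_distrib]
    congr 1
    apply Finset.sum_congr rfl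
    intro s _
    have e : f (4 * (((q - r : ℕ) : ℤ) * s)) = - f (4 * ((r : ℤ) * s)) := by
      rw [← hodd]
      apply per_congrZ hper
      refine ⟨4 * s, ?_⟩
      rw [Nat.cast_sub hr.le]; ring
    rw [e]
    ring

end

end Pool.Agent.RDF


end

section

/-!
The exact integer identity of a cycle of even length, and its smoothed form.
-/

namespace Pool.Agent.RDF

open Finset (range)
open Pool.Agent.LibH4 Pool.Agent.LibH4.FA Pool.Agent.Lib_helper5

/-- the cone sum of a cycle (integer form) -/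
def LL (K : ℕ) (P R S : ℕ → ℤ) (c : ℕ → ℕ) (q : ℕ) (f : ℤ → ℤ) : ℤ :=
  ∑ k ∈ range K, (3 * XZ q f (P k) (R k) (S k) - c k * YX q f (P k) (R k) (S k))

/-- the exact identity -/
theorem cyc_int {K : ℕ} {P R S : ℕ → ℤ} {c : ℕ → ℕ} (h : Cyc K P R S c) (d : ℕ) (h8 : d % 8 = 5)
    (hcnt : ∀ n : ℕ, n ≠ 0 →
      ((∑ k ∈ range K, (edgeSet (P k) (R k) (S k) (c k) n).ncard : ℕ) : ℤ) = sig d n)
    (q : ℕ) (hq : 0 < q) (hcop : Nat.Coprime q d)
    (hmean : ∀ f : ℤ → ℝ, (∀ x, f (x + q) = f x) → (∀ x, f (-x) = - f x) →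
      ∑ r ∈ range q, ∑ s ∈ range q,
        f (P 0 * (r : ℤ) ^ 2 + R 0 * r * s - S 0 * (s : ℤ) ^ 2) = 0)
    (f : ℤ → ℤ) (hper : ∀ x, f (x + q) = f x) (hodd : ∀ x, f (-x) = - f x) :
    (d : ℤ) * (2 * LL K P R S c q f) = 3 * RZ q d f := by
  have hd0 : 0 < d := by omega
  have hper' : ∀ x, ((f (x + q) : ℤ) : ℝ) = ((f x : ℤ) : ℝ) := fun x => by simp only [hper]
  have hodd' : ∀ x, ((f (-x) : ℤ) : ℝ) = - ((f x : ℤ) : ℝ) := fun x => by
    simp only [hodd]; push_cast; ring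
  have key := cyc_identity h d h8 q hq hcop
    (fun x => ((f x : ℤ) : ℝ)) hper' hodd' (hmean (fun x => ((f x : ℤ) : ℝ)) hper' hodd') hcnt
  have i5 := bb_RZ hq hd0 f
  have hreal : (d : ℝ) * (2 * (∑ k ∈ range K, (3 * (XZ q f (P k) (R k) (S k) : ℝ)
      - c k * (YX q f (P k) (R k) (S k) : ℝ))))
      = 3 * (RZ q d f : ℝ) := by
    rw [← i5, ← key]
    simp only [Finset.mul_sum]
    apply Finset.sum_congr rfl
    intro k _
    rw [← SS_XZ hq, ← MX_YX hq]
    ring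
  unfold LL
  exact_mod_cast hreal

/-- the exact identity for cycles of even length -/
theorem even_int (m B : ℤ) (hm : 0 < m) (hm2 : m % 2 = 1) (hB2 : B % 2 = 1) {K : ℕ}
    {P R S : ℕ → ℤ} {c : ℕ → ℕ} (h : CG.CycM m B K P R S c) (J : ℕ) (hK : K = 2 * J) (hJ : 0 < J)
    (hcl : CG.rho m B c K = CG.rho m B c (K + 1) * CG.om m B)
    (hP1 : ∀ k < K, k ≠ 1 → P k ≠ 1)
    [IsDomain (QuadraticAlgebra ℤ m B)] [UniqueFactorizationMonoid (QuadraticAlgebra ℤ m B)]
    {d : ℕ} (hd : (d : ℤ) = B ^ 2 + 4 * m) (h8 : d % 8 = 5)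
    (q : ℕ) (hq : 0 < q) (hcop : Nat.Coprime q d)
    (f : ℤ → ℤ) (hper : ∀ x, f (x + q) = f x) (hodd : ∀ x, f (-x) = - f x) :
    (d : ℤ) * (2 * LL K P R S c q f) = 3 * RZ q d f := by
  refine cyc_int h.toCyc d h8 ?_ q hq hcop ?_ f hper hodd
  · intro n hn
    rw [← CG.count_even hm h J hK hJ hcl hP1 n hn]
    exact (ncard_SN hd h8 n hn).2
  · intro f hper hodd'
    rw [h.Pm, h.RB, h.S1]
    apply mean_even m B hm2 hB2 q hq _ f hper hodd'
    rw [← hd]
    exact Nat.isCoprime_iff_coprime.2 hcop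

namespace FE

variable {A k : ℕ}

/-- congruences of the family modulo eight -/
lemma mod8 {d : ℕ} (hd : (d : ℤ) = (2 * aa A * k) ^ 2 - aa A) (h8 : d % 8 = 5) :
    w A k % 2 = 1 ∧ bb A k % 2 = 1 := by
  have e := disc A k
  rw [← hd] at e
  exact ⟨(parity e.symm h8).2, (parity e.symm h8).1⟩

lemma hP1 (hA : 1 ≤ A) (hk : 1 ≤ k) : ∀ j < 4, j ≠ 1 → P A k j ≠ 1 := by
  have := w_pos hA hk
  have := aa_pos hA
  intro j hj hj1
  interval_cases j <;> simp only [P] <;> omega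

/-- **the exact identity for the family** -/
theorem ident (hA : 1 ≤ A) (hk : 1 ≤ k)
    [IsDomain (QuadraticAlgebra ℤ (w A k) (bb A k))]
    [UniqueFactorizationMonoid (QuadraticAlgebra ℤ (w A k) (bb A k))]
    {d : ℕ} (hd : (d : ℤ) = (2 * aa A * k) ^ 2 - aa A) (h8 : d % 8 = 5)
    (q : ℕ) (hq : 0 < q) (hcop : Nat.Coprime q d)
    (f : ℤ → ℤ) (hper : ∀ x, f (x + q) = f x) (hodd : ∀ x, f (-x) = - f x) :
    (d : ℤ) * (2 * LL 4 (P A k) (R A k) (S A k) (c A k) q f) = 3 * RZ q d f :=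
  even_int (w A k) (bb A k) (by have := w_pos hA hk; omega) (mod8 hd h8).1 (mod8 hd h8).2
    (cyc hA hk) 2 rfl (by norm_num) (closing hA hk) (hP1 hA hk) (by rw [hd, disc]) h8 q hq hcop
    f hper hodd

/-- **the congruence T5 for the family** -/
theorem T5 (hA : 1 ≤ A) (hk : 1 ≤ k)
    [IsDomain (QuadraticAlgebra ℤ (w A k) (bb A k))]
    [UniqueFactorizationMonoid (QuadraticAlgebra ℤ (w A k) (bb A k))]
    {d : ℕ} (hd : (d : ℤ) = (2 * aa A * k) ^ 2 - aa A) (h8 : d % 8 = 5)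
    (q l : ℕ) (hq : 0 < q) [Fact l.Prime] (hcop : Nat.Coprime q d) (hl6 : ¬ l ∣ 6)
    (hld : ¬ l ∣ d)
    (χ : ZMod q → ZMod l)
    (hodd : ∀ x, χ (-x) = - χ x) (hmul : ∀ x y, χ (x * y) = χ x * χ y)
    (hsum : ∑ u ∈ range q, (u : ZMod l) * χ (u : ZMod q) = 0) :
    ∑ j ∈ range 4, ∑ r ∈ range q, ∑ s ∈ range q,
      χ ((P A k j * (r : ℤ) ^ 2 + R A k j * r * s - S A k j * (s : ℤ) ^ 2 : ℤ) : ZMod q)
        * (3 * ((bZ q r : ZMod l) * bZ q s) - c A k j * b2Z q r) = 0 :=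
  even_T5 (w A k) (bb A k) (by have := w_pos hA hk; omega) (mod8 hd h8).1 (mod8 hd h8).2
    (cyc hA hk) 2 rfl (by norm_num) (closing hA hk) (hP1 hA hk) (by rw [hd, disc]) h8 q l hq hcop
    hl6 hld χ hodd hmul hsum

end FE

end Pool.Agent.RDF


end

section

/-!
The cone sum of the family `d = (2ak)² - a` when the period divides `k`.
-/

namespace Pool.Agent.RDF

open Finset (range)
open Pool.Agent.LibH4 Pool.Agent.LibH4.FA Pool.Agent.Lib_helper5

section zmod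

variable {Q : ℕ} [NeZero Q]

lemma sum_range_zmod {M : Type*} [AddCommMonoid M] (h : ZMod Q → M) :
    ∑ r ∈ range Q, h (r : ZMod Q) = ∑ x : ZMod Q, h x := by
  apply Finset.sum_nbij' (fun r : ℕ => (r : ZMod Q)) (fun x : ZMod Q => x.val)
  · intro r _; exact Finset.mem_univ _
  · intro x _; exact Finset.mem_range.2 (ZMod.val_lt x)
  · intro r hr; exact ZMod.val_cast_of_lt (Finset.mem_range.1 hr)
  · intro x _; exact ZMod.natCast_zmod_val x
  · intro r _; rfl

lemma sum_range_zmod2 {M : Type*} [AddCommMonoid M] (h : ZMod Q → ZMod Q → M) :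
    ∑ r ∈ range Q, ∑ s ∈ range Q, h (r : ZMod Q) (s : ZMod Q) = ∑ x : ZMod Q, ∑ y : ZMod Q, h x y := by
  rw [← sum_range_zmod]
  apply Finset.sum_congr rfl
  intro r _
  rw [← sum_range_zmod]

/-- the first Bernoulli weight on residues -/
def β (x : ZMod Q) : ℤ := bZ Q x.val
/-- the second Bernoulli weight on residues -/
def γ (x : ZMod Q) : ℤ := b2Z Q x.val
/-- a periodic function on residues -/
def fz (Q : ℕ) (f : ℤ → ℤ) (x : ZMod Q) : ℤ := f (x.val : ℤ)

lemma fz_cast {f : ℤ → ℤ} (hper : ∀ x, f (x + Q) = f x) (n : ℤ) : fz Q f (n : ZMod Q) = f n := by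
  unfold fz
  rw [← ZMod.natCast_zmod_val (n : ZMod Q)]
  apply per_congrZ hper
  rw [ZMod.natCast_zmod_val]
  have h : ((((n : ZMod Q).val : ℕ) : ℤ) : ZMod Q) = (n : ZMod Q) := by
    push_cast; exact ZMod.natCast_zmod_val _
  rw [ZMod.intCast_eq_intCast_iff_dvd_sub] at h
  obtain ⟨t, ht⟩ := h
  exact ⟨-t, by linear_combination -ht⟩

lemma fz_neg {f : ℤ → ℤ} (hper : ∀ x, f (x + Q) = f x) (hodd : ∀ x, f (-x) = - f x) (x : ZMod Q) :
    fz Q f (-x) = - fz Q f x := by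
  obtain ⟨n, rfl⟩ := ZMod.intCast_surjective x
  rw [← Int.cast_neg, fz_cast hper, fz_cast hper, hodd]

lemma β_neg (x : ZMod Q) : β (-x) = - β x := by
  unfold β bZ
  rcases eq_or_ne x 0 with rfl | h
  · simp
  · have hx : x.val ≠ 0 := by rwa [Ne, ZMod.val_eq_zero]
    have hv : (-x).val = Q - x.val := by
      rw [ZMod.neg_val, if_neg h]
    have hlt := ZMod.val_lt x
    rw [hv, if_neg (by omega), if_neg hx, Nat.cast_sub hlt.le]
    ring

lemma γ_neg (x : ZMod Q) : γ (-x) = γ x := by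
  unfold γ b2Z
  rcases eq_or_ne x 0 with rfl | h
  · simp
  · have hv : (-x).val = Q - x.val := by
      rw [ZMod.neg_val, if_neg h]
    have hlt := ZMod.val_lt x
    rw [hv, Nat.cast_sub hlt.le]
    ring

/-- **the pointwise identity** of the Bernoulli weights -/
lemma three_term {x y : ZMod Q} (h : ¬ (x = 0 ∧ y = 0)) :
    3 * (β x * β y - β x * β (x + y) - β y * β (x + y)) + γ x + γ y + γ (x + y) = 0 := by
  have hx := ZMod.val_lt x
  have hy := ZMod.val_lt y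
  have hx0 : x.val = 0 ↔ x = 0 := ZMod.val_eq_zero x
  have hy0 : y.val = 0 ↔ y = 0 := ZMod.val_eq_zero y
  have hxy : (x + y).val = (x.val + y.val) % Q := ZMod.val_add x y
  unfold β γ
  rw [hxy]
  set r := x.val
  set s := y.val
  have hne : ¬ (r = 0 ∧ s = 0) := by rw [hx0, hy0]; exact h
  unfold bZ b2Z
  rcases Nat.eq_zero_or_pos r with hr | hr
  · rw [hr, zero_add, Nat.mod_eq_of_lt hy, if_pos rfl, if_neg (by omega)]
    push_cast
    ring
  · rcases Nat.eq_zero_or_pos s with hs | hs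
    · rw [hs, add_zero, Nat.mod_eq_of_lt hx, if_neg (by omega), if_pos rfl]
      push_cast
      ring
    · rw [if_neg (by omega : ¬ r = 0), if_neg (by omega : ¬ s = 0)]
      by_cases h1 : r + s < Q
      · rw [Nat.mod_eq_of_lt h1, if_neg (by omega)]
        push_cast
        ring
      · have e : (r + s) % Q = r + s - Q := by
          rw [Nat.mod_eq_sub_mod (by omega), Nat.mod_eq_of_lt (by omega)]
        rw [e]
        by_cases h2 : r + s - Q = 0
        · rw [if_pos h2, h2]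
          have : (s : ℤ) = Q - r := by omega
          rw [this]
          push_cast
          ring
        · rw [if_neg h2, Nat.cast_sub (by omega)]
          push_cast
          ring

lemma XZ_zmod {f : ℤ → ℤ} (hper : ∀ x, f (x + Q) = f x) (P R S : ℤ) :
    XZ Q f P R S = ∑ x : ZMod Q, ∑ y : ZMod Q,
      fz Q f ((P : ZMod Q) * x ^ 2 + R * x * y - S * y ^ 2) * (β x * β y) := by
  rw [← sum_range_zmod2]
  unfold XZ
  apply Finset.sum_congr rfl
  intro r hr
  apply Finset.sum_congr rfl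
  intro s hs
  have e1 : (((r : ℕ) : ZMod Q)).val = r := ZMod.val_cast_of_lt (Finset.mem_range.1 hr)
  have e2 : (((s : ℕ) : ZMod Q)).val = s := ZMod.val_cast_of_lt (Finset.mem_range.1 hs)
  unfold β
  rw [e1, e2, ← fz_cast hper]
  push_cast
  rfl

lemma YX_zmod {f : ℤ → ℤ} (hper : ∀ x, f (x + Q) = f x) (P R S : ℤ) :
    YX Q f P R S = ∑ x : ZMod Q, ∑ y : ZMod Q,
      fz Q f ((P : ZMod Q) * x ^ 2 + R * x * y - S * y ^ 2) * γ x := by
  rw [← sum_range_zmod2]
  unfold YX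
  apply Finset.sum_congr rfl
  intro r hr
  apply Finset.sum_congr rfl
  intro s hs
  have e1 : (((r : ℕ) : ZMod Q)).val = r := ZMod.val_cast_of_lt (Finset.mem_range.1 hr)
  unfold γ
  rw [e1, ← fz_cast hper]
  push_cast
  rfl

/-- change of variables in a double sum -/
lemma sum2_equiv {M : Type*} [AddCommMonoid M] (e : ZMod Q × ZMod Q ≃ ZMod Q × ZMod Q)
    (h : ZMod Q → ZMod Q → M) :
    ∑ x : ZMod Q, ∑ y : ZMod Q, h x y = ∑ x : ZMod Q, ∑ y : ZMod Q, h (e (x, y)).1 (e (x, y)).2 := by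
  rw [← Finset.sum_product', ← Finset.sum_product']
  simp only [Finset.univ_product_univ]
  exact (Equiv.sum_comp e (fun z => h z.1 z.2)).symm

end zmod

namespace FE

variable {A k : ℕ} {Q : ℕ} [NeZero Q]

/-- the norm form of the ghost -/
def N (A : ℕ) (x y : ZMod Q) : ZMod Q := A * x ^ 2 + x * y + y ^ 2

/-- first change of variables -/
def eq1 : ZMod Q × ZMod Q ≃ ZMod Q × ZMod Q where
  toFun z := (z.1 + z.2, z.1)
  invFun z := (z.2, z.1 - z.2)
  left_inv z := by ext <;> simp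
  right_inv z := by ext <;> simp

/-- second change of variables -/
def eq2 : ZMod Q × ZMod Q ≃ ZMod Q × ZMod Q where
  toFun z := (-(z.1 + 2 * z.2), z.1 + z.2)
  invFun z := (z.1 + 2 * z.2, -z.1 - z.2)
  left_inv z := by ext <;> simp only <;> ring
  right_inv z := by ext <;> simp only <;> ring

/-- third change of variables -/
def eq3 : ZMod Q × ZMod Q ≃ ZMod Q × ZMod Q where
  toFun z := (-z.2, -(z.1 + 2 * z.2))
  invFun z := (2 * z.1 - z.2, -z.1)
  left_inv z := by ext <;> simp only <;> ring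
  right_inv z := by ext <;> simp only <;> ring

/-- **the cone sum near the ghost** -/
theorem LL_ghost (hA : 1 ≤ A) (hk : 1 ≤ k) (hQk : Q ∣ k)
    (f : ℤ → ℤ) (hper : ∀ x, f (x + Q) = f x) (hodd : ∀ x, f (-x) = - f x) :
    LL 4 (P A k) (R A k) (S A k) (c A k) Q f =
      - (2 * k) * (aa A * ∑ x : ZMod Q, ∑ y : ZMod Q, fz Q f (-(N A x y)) * γ x +
        ∑ x : ZMod Q, ∑ y : ZMod Q, fz Q f (-(N A x y)) * γ (x + 2 * y)) := by
  have hk0 : ((k : ℤ) : ZMod Q) = 0 := by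
    rw [Int.cast_natCast, ZMod.natCast_eq_zero_iff]; exact hQk
  have hk0' : ((k : ℕ) : ZMod Q) = 0 := by
    rw [ZMod.natCast_eq_zero_iff]; exact hQk
  have hneg := fz_neg (Q := Q) hper hodd
  have f0 : fz Q f 0 = 0 := by
    have := hneg 0
    rw [neg_zero] at this
    omega
  -- the eight sums
  have x0 : XZ Q f (P A k 0) (R A k 0) (S A k 0)
      = ∑ x : ZMod Q, ∑ y : ZMod Q, fz Q f (-(N A x y)) * (β x * β y) := by
    rw [XZ_zmod hper]
    refine Finset.sum_congr rfl fun x _ => Finset.sum_congr rfl fun y _ => ?_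
    congr 2
    simp only [P, R, S, w, bb, aa, N]
    push_cast
    rw [hk0']
    ring
  have y0 : YX Q f (P A k 0) (R A k 0) (S A k 0)
      = ∑ x : ZMod Q, ∑ y : ZMod Q, fz Q f (-(N A x y)) * γ x := by
    rw [YX_zmod hper]
    refine Finset.sum_congr rfl fun x _ => Finset.sum_congr rfl fun y _ => ?_
    congr 2
    simp only [P, R, S, w, bb, aa, N]
    push_cast
    rw [hk0']
    ring
  have x1 : XZ Q f (P A k 1) (R A k 1) (S A k 1)
      = ∑ x : ZMod Q, ∑ y : ZMod Q, fz Q f (-(N A x y)) * (-(β (x + y) * β x)) := by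
    rw [XZ_zmod hper, sum2_equiv eq1]
    refine Finset.sum_congr rfl fun x _ => Finset.sum_congr rfl fun y _ => ?_
    have e : (((P A k 1 : ℤ) : ZMod Q) * (x + y) ^ 2 + (R A k 1 : ℤ) * (x + y) * x
        - (S A k 1 : ℤ) * x ^ 2) = N A x y := by
      simp only [P, R, S, w, bb, aa, N]
      push_cast
      rw [hk0']
      ring
    simp only [eq1, Equiv.coe_fn_mk]
    rw [e, hneg]
    ring
  have y1 : YX Q f (P A k 1) (R A k 1) (S A k 1)
      = ∑ x : ZMod Q, ∑ y : ZMod Q, fz Q f (-(N A x y)) * (-(γ (x + y))) := by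
    rw [YX_zmod hper, sum2_equiv eq1]
    refine Finset.sum_congr rfl fun x _ => Finset.sum_congr rfl fun y _ => ?_
    have e : (((P A k 1 : ℤ) : ZMod Q) * (x + y) ^ 2 + (R A k 1 : ℤ) * (x + y) * x
        - (S A k 1 : ℤ) * x ^ 2) = N A x y := by
      simp only [P, R, S, w, bb, aa, N]
      push_cast
      rw [hk0']
      ring
    simp only [eq1, Equiv.coe_fn_mk]
    rw [e, hneg]
    ring
  have x2 : XZ Q f (P A k 2) (R A k 2) (S A k 2)
      = ∑ x : ZMod Q, ∑ y : ZMod Q, fz Q f (-(N A x y)) * (-(β (x + 2 * y) * β (x + y))) := by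
    rw [XZ_zmod hper, sum2_equiv eq2]
    refine Finset.sum_congr rfl fun x _ => Finset.sum_congr rfl fun y _ => ?_
    have e : (((P A k 2 : ℤ) : ZMod Q) * (-(x + 2 * y)) ^ 2 + (R A k 2 : ℤ) * (-(x + 2 * y)) * (x + y)
        - (S A k 2 : ℤ) * (x + y) ^ 2) = -(N A x y) := by
      simp only [P, R, S, w, bb, aa, N]
      push_cast
      rw [hk0']
      ring
    simp only [eq2, Equiv.coe_fn_mk]
    rw [e, β_neg]
    ring
  have y2 : YX Q f (P A k 2) (R A k 2) (S A k 2)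
      = ∑ x : ZMod Q, ∑ y : ZMod Q, fz Q f (-(N A x y)) * γ (x + 2 * y) := by
    rw [YX_zmod hper, sum2_equiv eq2]
    refine Finset.sum_congr rfl fun x _ => Finset.sum_congr rfl fun y _ => ?_
    have e : (((P A k 2 : ℤ) : ZMod Q) * (-(x + 2 * y)) ^ 2 + (R A k 2 : ℤ) * (-(x + 2 * y)) * (x + y)
        - (S A k 2 : ℤ) * (x + y) ^ 2) = -(N A x y) := by
      simp only [P, R, S, w, bb, aa, N]
      push_cast
      rw [hk0']
      ring
    simp only [eq2, Equiv.coe_fn_mk]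
    rw [e, γ_neg]
  have x3 : XZ Q f (P A k 3) (R A k 3) (S A k 3)
      = ∑ x : ZMod Q, ∑ y : ZMod Q, fz Q f (-(N A x y)) * (-(β y * β (x + 2 * y))) := by
    rw [XZ_zmod hper, sum2_equiv eq3]
    refine Finset.sum_congr rfl fun x _ => Finset.sum_congr rfl fun y _ => ?_
    have e : (((P A k 3 : ℤ) : ZMod Q) * (-y) ^ 2 + (R A k 3 : ℤ) * (-y) * (-(x + 2 * y))
        - (S A k 3 : ℤ) * (-(x + 2 * y)) ^ 2) = N A x y := by
      simp only [P, R, S, w, bb, aa, N]
      push_cast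
      rw [hk0']
      ring
    simp only [eq3, Equiv.coe_fn_mk]
    rw [e, hneg, β_neg, β_neg]
    ring
  have y3 : YX Q f (P A k 3) (R A k 3) (S A k 3)
      = ∑ x : ZMod Q, ∑ y : ZMod Q, fz Q f (-(N A x y)) * (-(γ y)) := by
    rw [YX_zmod hper, sum2_equiv eq3]
    refine Finset.sum_congr rfl fun x _ => Finset.sum_congr rfl fun y _ => ?_
    have e : (((P A k 3 : ℤ) : ZMod Q) * (-y) ^ 2 + (R A k 3 : ℤ) * (-y) * (-(x + 2 * y))
        - (S A k 3 : ℤ) * (-(x + 2 * y)) ^ 2) = N A x y := by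
      simp only [P, R, S, w, bb, aa, N]
      push_cast
      rw [hk0']
      ring
    simp only [eq3, Equiv.coe_fn_mk]
    rw [e, hneg, γ_neg]
    ring
  have c0 : ((c A k 0 : ℕ) : ℤ) = 2 * aa A * k - 1 := by
    have := cast_c0 hA hk
    unfold bb at this
    exact this
  have c1 : ((c A k 1 : ℕ) : ℤ) = 2 := rfl
  have c2 : ((c A k 2 : ℕ) : ℤ) = 2 * k - 1 := cast_c2 hk
  have c3 : ((c A k 3 : ℕ) : ℤ) = 2 := rfl
  unfold LL
  rw [Finset.sum_range_succ, Finset.sum_range_succ, Finset.sum_range_succ, Finset.sum_range_succ,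
    Finset.sum_range_zero, zero_add, x0, y0, x1, y1, x2, y2, x3, y3, c0, c1, c2, c3]
  rw [← sub_eq_zero]
  simp only [Finset.mul_sum, ← Finset.sum_sub_distrib, ← Finset.sum_add_distrib]
  apply Finset.sum_eq_zero
  intro x _
  apply Finset.sum_eq_zero
  intro y _
  by_cases h : x = 0 ∧ y = 0
  · obtain ⟨rfl, rfl⟩ := h
    have e : N A (0 : ZMod Q) 0 = 0 := by unfold N; ring
    rw [e, neg_zero, f0]
    ring
  · have t1 := three_term h
    have h' : ¬ (x + y = 0 ∧ y = 0) := by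
      rintro ⟨h1, h2⟩
      exact h ⟨by rw [h2, add_zero] at h1; exact h1, h2⟩
    have t2 := three_term h'
    have e : x + y + y = x + 2 * y := by ring
    rw [e] at t2
    linear_combination (fz Q f (-(N A x y))) * t1 + (fz Q f (-(N A x y))) * t2

end FE

end Pool.Agent.RDF


end

section

/-!
The smoothed identity of the family `d = (2ak)² - a` when the period divides `k`.
-/

namespace Pool.Agent.RDF

open Finset (range)
open Pool.Agent.LibH4 Pool.Agent.LibH4.FA Pool.Agent.Lib_helper5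

section

variable {Q : ℕ} [NeZero Q]

/-- the smoothed weight -/
def bt (Q r : ℕ) : ℤ := (-1) ^ r * ((Q : ℤ) - 2 * r)

/-- the smoothed weight on residues -/
def δ (x : ZMod Q) : ℤ := bt Q x.val

lemma two_half (hQ : Q % 2 = 1) : (2 : ZMod Q) * (((Q + 1) / 2 : ℕ) : ZMod Q) = 1 := by
  have h : 2 * ((Q + 1) / 2) = Q + 1 := by omega
  have h2 := congrArg (Nat.cast : ℕ → ZMod Q) h
  push_cast at h2
  rw [ZMod.natCast_self, zero_add] at h2
  have h3 : ((2 * ((Q + 1) / 2) : ℕ) : ZMod Q) = ((Q + 1 : ℕ) : ZMod Q) := by rw [h]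
  push_cast at h3
  rw [ZMod.natCast_self, zero_add] at h3
  exact h3

/-- doubling -/
def eqD (hQ : Q % 2 = 1) : ZMod Q × ZMod Q ≃ ZMod Q × ZMod Q where
  toFun z := (2 * z.1, 2 * z.2)
  invFun z := ((((Q + 1) / 2 : ℕ) : ZMod Q) * z.1, (((Q + 1) / 2 : ℕ) : ZMod Q) * z.2)
  left_inv z := by
    have h := two_half hQ
    ext
    · simp only; linear_combination z.1 * h
    · simp only; linear_combination z.2 * h
  right_inv z := by
    have h := two_half hQ
    ext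
    · simp only; linear_combination z.1 * h
    · simp only; linear_combination z.2 * h

lemma four_γ (hQ : Q % 2 = 1) (z : ZMod Q) : 4 * γ z - γ (2 * z) = 3 * Q * δ (2 * z) := by
  have hz := ZMod.val_lt z
  have h2 : (2 * z).val = 2 * z.val % Q := by
    have e : (2 * z) = ((2 * z.val : ℕ) : ZMod Q) := by
      push_cast
      rw [ZMod.natCast_zmod_val]
    rw [e, ZMod.val_natCast]
  unfold γ δ b2Z bt
  rw [h2]
  set r := z.val
  by_cases h : 2 * r < Q
  · rw [Nat.mod_eq_of_lt h, pow_mul]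
    push_cast
    ring
  · have e : 2 * r % Q = 2 * r - Q := by
      rw [Nat.mod_eq_sub_mod (by omega), Nat.mod_eq_of_lt (by omega)]
    have hodd : Odd (2 * r - Q) := by rw [Nat.odd_iff]; omega
    rw [e, hodd.neg_one_pow, Nat.cast_sub (by omega)]
    push_cast
    ring

lemma fz_smooth {f : ℤ → ℤ} (hper : ∀ x, f (x + Q) = f x) (x : ZMod Q) :
    fz Q (fun n => 4 * f (4 * n) - f n) x = 4 * fz Q f (4 * x) - fz Q f x := by
  obtain ⟨n, rfl⟩ := ZMod.intCast_surjective x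
  have e : (4 : ZMod Q) * (n : ZMod Q) = ((4 * n : ℤ) : ZMod Q) := by push_cast; rfl
  rw [e, fz_cast hper, fz_cast hper, fz_cast]
  intro x
  have h : f (4 * (x + Q)) = f (4 * x) := by
    rw [mul_add]
    exact per_mulZ hper (4 * x) 4
  rw [h, hper]

/-- smoothing of a weighted sum -/
theorem smooth (hQ : Q % 2 = 1) (A : ℕ) (L : ZMod Q → ZMod Q → ZMod Q)
    (hL : ∀ x y, L (2 * x) (2 * y) = 2 * L x y)
    (f : ℤ → ℤ) (hper : ∀ x, f (x + Q) = f x) :
    ∑ x : ZMod Q, ∑ y : ZMod Q, fz Q (fun n => 4 * f (4 * n) - f n) (-(FE.N A x y)) * γ (L x y)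
      = 3 * Q * ∑ x : ZMod Q, ∑ y : ZMod Q, fz Q f (-(FE.N A x y)) * δ (L x y) := by
  have hN : ∀ x y : ZMod Q, 4 * (-(FE.N A x y)) = -(FE.N A (2 * x) (2 * y)) := by
    intro x y; unfold FE.N; ring
  have e1 := sum2_equiv (eqD hQ) (fun x y : ZMod Q => fz Q f (-(FE.N A x y)) * γ (L x y))
  have e2 := sum2_equiv (eqD hQ) (fun x y : ZMod Q => fz Q f (-(FE.N A x y)) * δ (L x y))
  rw [e2]
  have e3 : ∀ x y : ZMod Q, fz Q (fun n => 4 * f (4 * n) - f n) (-(FE.N A x y)) * γ (L x y)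
      = 4 * (fz Q f (-(FE.N A (2 * x) (2 * y))) * γ (L x y)) - fz Q f (-(FE.N A x y)) * γ (L x y) := by
    intro x y
    rw [fz_smooth hper, hN]
    ring
  simp only [e3, Finset.sum_sub_distrib, ← Finset.mul_sum]
  rw [e1]
  simp only [Finset.mul_sum, ← Finset.sum_sub_distrib, eqD, Equiv.coe_fn_mk]
  apply Finset.sum_congr rfl
  intro x _
  apply Finset.sum_congr rfl
  intro y _
  rw [hL]
  have := four_γ hQ (L x y)
  linear_combination (fz Q f (-(FE.N A (2 * x) (2 * y)))) * this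

end

namespace FE

variable {A k : ℕ} {Q : ℕ} [NeZero Q]

/-- the two ghost sums -/
def G1 (A Q : ℕ) [NeZero Q] (f : ℤ → ℤ) : ℤ :=
  ∑ x : ZMod Q, ∑ y : ZMod Q, fz Q f (-(N A x y)) * δ x

/-- the two ghost sums -/
def G2 (A Q : ℕ) [NeZero Q] (f : ℤ → ℤ) : ℤ :=
  ∑ x : ZMod Q, ∑ y : ZMod Q, fz Q f (-(N A x y)) * δ (x + 2 * y)

/-- **the exact ghost identity** -/
theorem ghost_identity (hA : 1 ≤ A) (hk : 1 ≤ k)
    [IsDomain (QuadraticAlgebra ℤ (w A k) (bb A k))]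
    [UniqueFactorizationMonoid (QuadraticAlgebra ℤ (w A k) (bb A k))]
    {d : ℕ} (hd : (d : ℤ) = (2 * aa A * k) ^ 2 - aa A) (h8 : d % 8 = 5)
    (hQ : Q % 2 = 1) (hcop : Nat.Coprime Q d) {k' : ℕ} (hk' : k = Q * k')
    (f : ℤ → ℤ) (hper : ∀ x, f (x + Q) = f x) (hodd : ∀ x, f (-x) = - f x) :
    - (k' : ℤ) * (aa A * G1 A Q f + G2 A Q f) = HH Q d (fun x => f (4 * x)) := by
  have hQ0 : 0 < Q := Nat.pos_of_ne_zero (NeZero.ne Q)
  have hd0 : (0 : ℤ) < d := by
    have : 0 < d := by omega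
    exact_mod_cast this
  have hperg : ∀ x, (fun n => 4 * f (4 * n) - f n) (x + Q) = (fun n => 4 * f (4 * n) - f n) x := by
    intro x
    have h : f (4 * (x + Q)) = f (4 * x) := by
      rw [mul_add]
      exact per_mulZ hper (4 * x) 4
    simp only
    rw [h, hper]
  have hoddg : ∀ x, (fun n => 4 * f (4 * n) - f n) (-x) = - (fun n => 4 * f (4 * n) - f n) x := by
    intro x
    simp only
    rw [mul_neg, hodd, hodd]
    ring
  have h1 := ident hA hk hd h8 Q hQ0 hcop (fun n => 4 * f (4 * n) - f n) hperg hoddg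
  rw [RZ_smooth f hQ h8 hper hodd, LL_ghost hA hk ⟨k', hk'⟩ (fun n => 4 * f (4 * n) - f n) hperg hoddg,
    smooth hQ A (fun x _ => x) (fun _ _ => rfl) f hper,
    smooth hQ A (fun x y => x + 2 * y) (fun x y => by ring) f hper] at h1
  have hkz : (k : ℤ) = Q * k' := by rw [hk']; push_cast; ring
  have hQz : (0 : ℤ) < Q := by exact_mod_cast hQ0
  have h2 : (12 * (Q : ℤ) ^ 2 * d) * (- (k' : ℤ) * (aa A * G1 A Q f + G2 A Q f))
      = (12 * (Q : ℤ) ^ 2 * d) * HH Q d (fun x => f (4 * x)) := by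
    unfold G1 G2
    rw [hkz] at h1
    linear_combination h1
  exact mul_left_cancel₀ (by positivity) h2

end FE

end Pool.Agent.RDF


end

section

/-!
A zero of the `5`-adic `L`-function: exponents `m` for which the half sum of `(r/91) r ^ m` is
divisible by `5 ^ v`.
-/

namespace Pool.Agent.RDF

open Finset (range)
open Pool.Agent.LibH4 Pool.Agent.LibH4.FA Pool.Agent.Lib_helper5

/-- the quadratic character modulo seven -/
def T7 (x : ZMod 7) : ℤ := (![0, 1, 1, -1, 1, -1, -1] : Fin 7 → ℤ) x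
/-- the quadratic character modulo thirteen -/
def T13 (x : ZMod 13) : ℤ := (![0, 1, -1, 1, 1, -1, -1, -1, -1, 1, 1, -1, 1] : Fin 13 → ℤ) x

lemma T7_mul : ∀ x y : ZMod 7, T7 (x * y) = T7 x * T7 y := by decide
lemma T13_mul : ∀ x y : ZMod 13, T13 (x * y) = T13 x * T13 y := by decide
lemma T7_neg : ∀ x : ZMod 7, T7 (-x) = - T7 x := by decide
lemma T13_neg : ∀ x : ZMod 13, T13 (-x) = T13 x := by decide

/-- the quadratic character modulo `91` -/
def chi (u : ℤ) : ℤ := T7 (u : ZMod 7) * T13 (u : ZMod 13)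

lemma chi_mul (u v : ℤ) : chi (u * v) = chi u * chi v := by
  unfold chi
  push_cast
  rw [T7_mul, T13_mul]
  ring

lemma chi_neg (u : ℤ) : chi (-u) = - chi u := by
  unfold chi
  push_cast
  rw [T7_neg, T13_neg]
  ring

lemma chi_add (u t : ℤ) : chi (u + 91 * t) = chi u := by
  unfold chi
  push_cast
  have h7 : (91 : ZMod 7) = 0 := by decide
  have h13 : (91 : ZMod 13) = 0 := by decide
  rw [h7, h13]
  simp

/-- a full period of an odd function -/
lemma full_sum {w Q : ℕ} (hQ : 0 < Q) (g : ℤ → ZMod (5 ^ w)) (hper : ∀ x, g (x + Q) = g x)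
    (hodd : ∀ x, g (-x) = - g x) : ∑ r ∈ range Q, g r = 0 := by
  have : NeZero Q := ⟨hQ.ne'⟩
  have hper' : ∀ (x t : ℤ), g (x + t * Q) = g x := by
    intro x t
    induction t using Int.induction_on with
    | zero => simp
    | succ i ih =>
      rw [show x + (i + 1 : ℤ) * Q = (x + i * Q) + Q by ring, hper, ih]
    | pred i ih =>
      rw [← hper (x + (-(i : ℤ) - 1) * Q),
        show x + (-(i : ℤ) - 1) * Q + Q = x + -(i : ℤ) * Q by ring, ih]
  have e1 : ∀ r ∈ range Q, g r = (fun x : ZMod Q => g (x.val : ℤ)) (r : ZMod Q) := by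
    intro r hr
    simp only
    rw [ZMod.val_cast_of_lt (Finset.mem_range.1 hr)]
  rw [Finset.sum_congr rfl e1, sum_range_zmod (fun x : ZMod Q => g (x.val : ℤ))]
  have e2 : ∀ x : ZMod Q, g (((-x).val : ℕ) : ℤ) = - g (x.val : ℤ) := by
    intro x
    rw [← hodd]
    have h : ((((-x).val : ℕ) : ℤ) : ZMod Q) = ((-(x.val : ℤ) : ℤ) : ZMod Q) := by
      push_cast
      rw [ZMod.natCast_zmod_val, ZMod.natCast_zmod_val]
    rw [ZMod.intCast_eq_intCast_iff_dvd_sub] at h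
    obtain ⟨t, ht⟩ := h
    have : (((-x).val : ℕ) : ℤ) = -(x.val : ℤ) + (-t) * Q := by linear_combination -ht
    rw [this, hper']
  have e3 := Equiv.sum_comp (Equiv.neg (ZMod Q)) (fun x : ZMod Q => g (x.val : ℤ))
  simp only [Equiv.neg_apply, e2, Finset.sum_neg_distrib] at e3
  set S := ∑ x : ZMod Q, g (x.val : ℤ)
  have h2 : (2 : ZMod (5 ^ w)) * S = 0 := by linear_combination -e3
  have hu : IsUnit (2 : ZMod (5 ^ w)) := by
    have := (ZMod.isUnit_iff_coprime 2 (5 ^ w)).2 (Nat.Coprime.pow_right w (by norm_num))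
    exact_mod_cast this
  exact (hu.mul_right_eq_zero).1 h2

/-- half sums over multiples of the period -/
lemma half_sum {w Q : ℕ} (hQ : Q % 2 = 1) (s : ℕ) (g : ℤ → ZMod (5 ^ w))
    (hper : ∀ x, g (x + Q) = g x) (hodd : ∀ x, g (-x) = - g x) :
    ∑ r ∈ range (((2 * s + 1) * Q + 1) / 2), g r = ∑ r ∈ range ((Q + 1) / 2), g r := by
  have hQ0 : 0 < Q := by omega
  have e : ((2 * s + 1) * Q + 1) / 2 = s * Q + (Q + 1) / 2 := by
    have : (2 * s + 1) * Q + 1 = 2 * (s * Q) + (Q + 1) := by ring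
    omega
  have hper' : ∀ (n : ℕ) (x : ℤ), g (x + n * Q) = g x := by
    intro n x
    induction n with
    | zero => simp
    | succ i ih =>
      rw [show x + ((i + 1 : ℕ) : ℤ) * Q = (x + i * Q) + Q by push_cast; ring, hper, ih]
  rw [e, Finset.sum_range_add]
  have f1 : ∑ r ∈ range (s * Q), g r = 0 := by
    induction s with
    | zero => simp
    | succ i ih =>
      rw [Nat.succ_mul, Finset.sum_range_add]
      have e' : ((2 * i + 1) * Q + 1) / 2 = i * Q + (Q + 1) / 2 := by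
        have : (2 * i + 1) * Q + 1 = 2 * (i * Q) + (Q + 1) := by ring
        omega
      rw [ih e', zero_add, ← full_sum hQ0 g hper hodd]
      apply Finset.sum_congr rfl
      intro r _
      rw [← hper' i r]
      congr 1
      push_cast
      ring
  rw [f1, zero_add]
  apply Finset.sum_congr rfl
  intro r _
  rw [← hper' s r]
  congr 1
  push_cast
  ring

/-- the half sum -/
def Hs (v m : ℕ) : ℤ := ∑ r ∈ range ((91 * 5 ^ v + 1) / 2), chi r * (r : ℤ) ^ m

/-- powers of `1 + 5c` -/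
lemma pow_five (n : ℕ) (c : ℤ) : (5 : ℤ) ^ (n + 2) ∣ (1 + 5 * c) ^ (5 ^ n) - (1 + 5 ^ (n + 1) * c) := by
  induction n with
  | zero => simp
  | succ n ih =>
    obtain ⟨t, ht⟩ := ih
    have hx : (1 + 5 * c) ^ (5 ^ n) = 1 + 5 ^ (n + 1) * (c + 5 * t) := by
      have : (5 : ℤ) ^ (n + 2) = 5 ^ (n + 1) * 5 := by ring
      rw [this] at ht
      linear_combination ht
    rw [pow_succ 5 n, pow_mul, hx]
    set y := c + 5 * t with hy
    obtain ⟨z, hz⟩ : ∃ z : ℤ, z = 5 ^ n := ⟨_, rfl⟩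
    refine ⟨t + 2 * z * y ^ 2 + 10 * z ^ 2 * y ^ 3 + 25 * z ^ 3 * y ^ 4 + 25 * z ^ 4 * y ^ 5, ?_⟩
    have e1 : (5 : ℤ) ^ (n + 1) = 5 * z := by rw [hz]; ring
    have e2 : (5 : ℤ) ^ (n + 1 + 1) = 25 * z := by rw [hz]; ring
    have e3 : (5 : ℤ) ^ (n + 1 + 2) = 125 * z := by rw [hz]; ring
    rw [e1, e2, e3, hy]
    ring

/-- the Fermat quotient -/
def fq (r : ℤ) : ℤ := if (5 : ℤ) ∣ r then 0 else (r ^ 4 - 1) / 5

lemma five_dvd_pow_four {r : ℤ} (h : ¬ (5 : ℤ) ∣ r) : (5 : ℤ) ∣ r ^ 4 - 1 := by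
  have h5 : r % 5 = 1 ∨ r % 5 = 2 ∨ r % 5 = 3 ∨ r % 5 = 4 := by omega
  rw [Int.dvd_iff_emod_eq_zero]
  rcases h5 with h | h | h | h <;> simp [Int.sub_emod, pow_succ, Int.mul_emod, h]

lemma fq_spec {r : ℤ} (h : ¬ (5 : ℤ) ∣ r) : r ^ 4 = 1 + 5 * fq r := by
  unfold fq
  rw [if_neg h]
  have := Int.mul_ediv_cancel' (five_dvd_pow_four h)
  linarith

/-- changing the exponent -/
lemma pow_change {r : ℤ} {v m j : ℕ} (hm : m % 4 = 2) (hmv : v + 2 ≤ m) :
    (5 : ℤ) ^ (v + 2) ∣ r ^ (m + 4 * 5 ^ v * j) - (r ^ m + 5 ^ (v + 1) * j * (r ^ 2 * fq r)) := by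
  by_cases h : (5 : ℤ) ∣ r
  · have h0 : fq r = 0 := by unfold fq; rw [if_pos h]
    rw [h0, mul_zero, mul_zero, add_zero]
    have h1 : (5 : ℤ) ^ (v + 2) ∣ r ^ m := (pow_dvd_pow 5 hmv).trans (pow_dvd_pow_of_dvd h m)
    apply dvd_sub _ h1
    have e : r ^ (m + 4 * 5 ^ v * j) = r ^ m * r ^ (4 * 5 ^ v * j) := pow_add _ _ _
    rw [e]
    exact h1.mul_right _
  · have h1 := fq_spec h
    set c := fq r
    -- `r ^ (4 * 5^v) = 1 + 5 ^ (v+1) c + 5 ^ (v+2) t`
    obtain ⟨t, ht⟩ := pow_five v c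
    have h2 : r ^ (4 * 5 ^ v) = 1 + 5 ^ (v + 1) * (c + 5 * t) := by
      rw [pow_mul, h1]
      have : (5 : ℤ) ^ (v + 2) = 5 ^ (v + 1) * 5 := by ring
      rw [this] at ht
      linear_combination ht
    have h3 : ∃ s : ℤ, (1 + 5 ^ (v + 1) * (c + 5 * t)) ^ j
        = 1 + 5 ^ (v + 1) * (j * c) + 5 ^ (v + 2) * s := by
      induction j with
      | zero => exact ⟨0, by simp⟩
      | succ j ih =>
        obtain ⟨s, hs⟩ := ih
        refine ⟨s + t + 5 ^ v * (j * c * (c + 5 * t)) + 5 ^ (v + 1) * (s * (c + 5 * t)), ?_⟩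
        rw [pow_succ, hs]
        push_cast
        ring
    obtain ⟨s, hs⟩ := h3
    have h4 : ∃ u : ℤ, r ^ m = r ^ 2 + 5 * u := by
      obtain ⟨i, hi⟩ : ∃ i, m = 2 + 4 * i := ⟨m / 4, by omega⟩
      rw [hi, pow_add, pow_mul, h1]
      have h5 : (5 : ℤ) ∣ (1 + 5 * c) ^ i - 1 ^ i := by
        refine dvd_trans ?_ (sub_dvd_pow_sub_pow (1 + 5 * c) 1 i)
        exact ⟨c, by ring⟩
      obtain ⟨u, hu⟩ := h5
      rw [one_pow] at hu
      refine ⟨r ^ 2 * u, ?_⟩
      linear_combination r ^ 2 * hu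
    obtain ⟨u, hu⟩ := h4
    refine ⟨r ^ m * s + j * c * u, ?_⟩
    rw [pow_add, pow_mul, h2, hs]
    have e : (5 : ℤ) ^ (v + 2) = 5 ^ (v + 1) * 5 := by ring
    rw [e]
    linear_combination (5 ^ (v + 1) * (j : ℤ) * c) * hu

/-- the derivative -/
def DD (n : ℕ) : ℤ := ∑ r ∈ range ((91 * 5 ^ n + 1) / 2), chi r * ((r : ℤ) ^ 2 * fq r)

lemma Hs_change {v m j : ℕ} (hm : m % 4 = 2) (hmv : v + 2 ≤ m) (n : ℕ) :
    (5 : ℤ) ^ (v + 2) ∣ Hs n (m + 4 * 5 ^ v * j) - (Hs n m + 5 ^ (v + 1) * j * DD n) := by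
  unfold Hs DD
  rw [Finset.mul_sum, ← Finset.sum_add_distrib, ← Finset.sum_sub_distrib]
  apply Finset.dvd_sum
  intro r _
  have := pow_change (r := (r : ℤ)) (j := j) hm hmv
  have e : chi r * (r : ℤ) ^ (m + 4 * 5 ^ v * j) - (chi r * (r : ℤ) ^ m
      + 5 ^ (v + 1) * j * (chi r * ((r : ℤ) ^ 2 * fq r)))
      = chi r * ((r : ℤ) ^ (m + 4 * 5 ^ v * j) - ((r : ℤ) ^ m + 5 ^ (v + 1) * j *
        ((r : ℤ) ^ 2 * fq r))) := by ring
  rw [e]
  exact this.mul_left _

lemma fq_add (r : ℤ) : ((fq (r + 25) : ℤ) : ZMod 5) = (fq r : ℤ) := by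
  rw [ZMod.intCast_eq_intCast_iff_dvd_sub]
  by_cases h : (5 : ℤ) ∣ r
  · have h' : (5 : ℤ) ∣ r + 25 := by omega
    unfold fq
    rw [if_pos h, if_pos h']
    simp
  · have h' : ¬ (5 : ℤ) ∣ r + 25 := by omega
    have e1 := fq_spec h
    have e2 := fq_spec h'
    refine ⟨-(4 * r ^ 3 + 6 * 25 * r ^ 2 + 4 * 25 ^ 2 * r + 25 ^ 3), ?_⟩
    have e3 : 5 * (fq r - fq (r + 25)) = 5 * (5 * -(4 * r ^ 3 + 6 * 25 * r ^ 2 + 4 * 25 ^ 2 * r + 25 ^ 3)) := by
      linear_combination e2 - e1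
    exact mul_left_cancel₀ (by norm_num) e3

lemma fq_neg (r : ℤ) : fq (-r) = fq r := by
  have h4 : (-r) ^ 4 = r ^ 4 := by ring
  unfold fq
  by_cases h : (5 : ℤ) ∣ r
  · rw [if_pos h, if_pos ((dvd_neg).2 h)]
  · rw [if_neg h, if_neg (fun h' => h ((dvd_neg).1 h')), h4]

/-- kernel check of the derivative -/
lemma DD_two : (DD 2) % 5 ≠ 0 := by
  decide +kernel

lemma Hs_one : (5 : ℤ) ∣ Hs 1 2 := by
  decide +kernel

lemma DD_mod (n : ℕ) : ((DD (n + 2) : ℤ) : ZMod 5) = (DD 2 : ℤ) := by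
  have h5 : (5 : ℕ) ^ 1 = 5 := rfl
  let g : ℤ → ZMod (5 ^ 1) := fun r => ((chi r * (r ^ 2 * fq r) : ℤ) : ZMod (5 ^ 1))
  have hper : ∀ x, g (x + (91 * 25 : ℕ)) = g x := by
    intro x
    simp only [g]
    have e1 : chi (x + (91 * 25 : ℕ)) = chi x := by
      have := chi_add x 25
      push_cast
      rw [← this]
      norm_num
    have e2 : ∀ n : ℕ, ((fq (x + 25 * n) : ℤ) : ZMod 5) = (fq x : ℤ) := by
      intro n
      induction n with
      | zero => simp
      | succ n ih =>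
        have e : x + 25 * ((n + 1 : ℕ) : ℤ) = (x + 25 * n) + 25 := by push_cast; ring
        rw [e, fq_add, ih]
    have e3 : ((fq (x + (91 * 25 : ℕ)) : ℤ) : ZMod (5 ^ 1)) = (fq x : ℤ) := by
      have := e2 91
      rw [show x + ((91 * 25 : ℕ) : ℤ) = x + 25 * (91 : ℕ) by push_cast; ring]
      exact this
    rw [e1]
    push_cast at e3 ⊢
    rw [e3]
    have h25 : (2275 : ZMod (5 ^ 1)) = 0 := by decide
    rw [h25, add_zero]
  have hodd : ∀ x, g (-x) = - g x := by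
    intro x
    simp only [g]
    rw [chi_neg, fq_neg]
    push_cast
    ring
  obtain ⟨s, hs⟩ : ∃ s, 5 ^ n = 2 * s + 1 := by
    have : Odd (5 ^ n) := Odd.pow (by decide)
    obtain ⟨s, hs⟩ := this
    exact ⟨s, hs⟩
  have key := half_sum (w := 1) (Q := 91 * 25) (by norm_num) s g hper hodd
  have e1 : (2 * s + 1) * (91 * 25) = 91 * 5 ^ (n + 2) := by rw [← hs]; ring
  rw [e1] at key
  have e2 : ∀ N : ℕ, ∑ r ∈ range N, g r
      = ((∑ r ∈ range N, chi r * ((r : ℤ) ^ 2 * fq r) : ℤ) : ZMod (5 ^ 1)) := by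
    intro N
    push_cast
    apply Finset.sum_congr rfl
    intro r _
    simp only [g]
    push_cast
    rfl
  rw [e2, e2] at key
  exact key

lemma Hs_succ {v m : ℕ} (hm : m % 4 = 2) (h : (5 : ℤ) ^ (v + 1) ∣ Hs (v + 1) m) :
    (5 : ℤ) ^ (v + 1) ∣ Hs (v + 2) m := by
  let g : ℤ → ZMod (5 ^ (v + 1)) := fun r => ((chi r * r ^ m : ℤ) : ZMod (5 ^ (v + 1)))
  have hper : ∀ x, g (x + (91 * 5 ^ (v + 1) : ℕ)) = g x := by
    intro x
    simp only [g]
    have e1 : chi (x + (91 * 5 ^ (v + 1) : ℕ)) = chi x := by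
      have := chi_add x (5 ^ (v + 1))
      push_cast
      exact this
    rw [e1]
    push_cast
    have h0 : ((5 : ZMod (5 ^ (v + 1))) ^ (v + 1)) = 0 := by
      have := ZMod.natCast_self (5 ^ (v + 1))
      push_cast at this
      exact this
    rw [h0, mul_zero, add_zero]
  have hodd : ∀ x, g (-x) = - g x := by
    intro x
    simp only [g]
    have hev : Even m := by rw [Nat.even_iff]; omega
    rw [chi_neg, hev.neg_pow]
    push_cast
    ring
  have hQ : (91 * 5 ^ (v + 1)) % 2 = 1 := by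
    have : Odd (91 * 5 ^ (v + 1)) := Odd.mul (by decide) (Odd.pow (by decide))
    exact Nat.odd_iff.1 this
  have key := half_sum (w := v + 1) hQ 2 g hper hodd
  have e1 : (2 * 2 + 1) * (91 * 5 ^ (v + 1)) = 91 * 5 ^ (v + 2) := by ring
  rw [e1] at key
  have e2 : ∀ N : ℕ, ∑ r ∈ range N, g r
      = ((∑ r ∈ range N, chi r * (r : ℤ) ^ m : ℤ) : ZMod (5 ^ (v + 1))) := by
    intro N
    push_cast
    apply Finset.sum_congr rfl
    intro r _
    simp only [g]
    push_cast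
    rfl
  rw [e2, e2] at key
  have h1 : ((Hs (v + 1) m : ℤ) : ZMod (5 ^ (v + 1))) = 0 := by
    rw [ZMod.intCast_zmod_eq_zero_iff_dvd]
    push_cast
    exact h
  have h2 : ((Hs (v + 2) m : ℤ) : ZMod (5 ^ (v + 1))) = 0 := by
    rw [← h1]; exact key
  rw [ZMod.intCast_zmod_eq_zero_iff_dvd] at h2
  push_cast at h2
  exact h2

/-- **zeros of the half sums** -/
theorem exists_zero (v : ℕ) : ∃ m, m % 4 = 2 ∧ v + 2 ≤ m ∧ (5 : ℤ) ^ (v + 1) ∣ Hs (v + 1) m := by
  induction v with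
  | zero => exact ⟨2, rfl, le_rfl, by simpa using Hs_one⟩
  | succ v ih =>
    obtain ⟨m, hm, hmv, hd⟩ := ih
    obtain ⟨h, hh⟩ := Hs_succ hm hd
    have hD : ¬ (5 : ℤ) ∣ DD (v + 2) := by
      intro h5
      have h5' : ((5 : ℕ) : ℤ) ∣ DD (v + 2) := by exact_mod_cast h5
      have h6 := DD_mod v
      have h7 : ((DD (v + 2) : ℤ) : ZMod 5) = 0 := (ZMod.intCast_zmod_eq_zero_iff_dvd _ 5).2 h5'
      rw [h7] at h6
      have h8 : (5 : ℤ) ∣ DD 2 := by
        have := (ZMod.intCast_zmod_eq_zero_iff_dvd (DD 2) 5).1 h6.symm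
        exact_mod_cast this
      exact DD_two (Int.emod_eq_zero_of_dvd h8)
    obtain ⟨j, hj5, hj⟩ : ∃ j : ℕ, 5 ≤ j ∧ (5 : ℤ) ∣ h + j * DD (v + 2) := by
      have hr : DD (v + 2) % 5 = 1 ∨ DD (v + 2) % 5 = 2 ∨ DD (v + 2) % 5 = 3 ∨
          DD (v + 2) % 5 = 4 := by omega
      have hh5 : h % 5 = 0 ∨ h % 5 = 1 ∨ h % 5 = 2 ∨ h % 5 = 3 ∨ h % 5 = 4 := by omega
      obtain ⟨x, hx⟩ : ∃ x : ℤ, DD (v + 2) = 5 * x + DD (v + 2) % 5 := ⟨DD (v + 2) / 5, by omega⟩
      have aux : ∀ j : ℕ, (h % 5 + j * (DD (v + 2) % 5)) % 5 = 0 → (5 : ℤ) ∣ h + j * DD (v + 2) := by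
        intro j hj
        rw [Int.dvd_iff_emod_eq_zero, Int.add_emod, Int.mul_emod]
        rw [Int.add_emod, Int.mul_emod, Int.emod_emod_of_dvd _ (dvd_refl 5),
          Int.emod_emod_of_dvd _ (dvd_refl 5)] at hj
        exact hj
      rcases hr with hr | hr | hr | hr <;> rcases hh5 with h1 | h1 | h1 | h1 | h1 <;>
        first
        | (refine ⟨5, by norm_num, aux 5 ?_⟩; rw [hr, h1]; decide)
        | (refine ⟨6, by norm_num, aux 6 ?_⟩; rw [hr, h1]; decide)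
        | (refine ⟨7, by norm_num, aux 7 ?_⟩; rw [hr, h1]; decide)
        | (refine ⟨8, by norm_num, aux 8 ?_⟩; rw [hr, h1]; decide)
        | (refine ⟨9, by norm_num, aux 9 ?_⟩; rw [hr, h1]; decide)
    refine ⟨m + 4 * 5 ^ v * j, ?_, ?_, ?_⟩
    · have : (m + 4 * 5 ^ v * j) = m + 4 * (5 ^ v * j) := by ring
      omega
    · have h1 : 1 ≤ 5 ^ v := Nat.one_le_pow _ _ (by norm_num)
      nlinarith
    · have h1 := Hs_change (j := j) hm hmv (v + 2)
      obtain ⟨t, ht⟩ := hj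
      have e : Hs (v + 2) m + 5 ^ (v + 1) * j * DD (v + 2) = 5 ^ (v + 2) * t := by
        rw [hh]
        have : (5 : ℤ) ^ (v + 2) = 5 ^ (v + 1) * 5 := by ring
        rw [this]
        linear_combination (5 : ℤ) ^ (v + 1) * ht
      rw [e] at h1
      have h2 := dvd_add h1 (Dvd.intro t rfl : (5 : ℤ) ^ (v + 2) ∣ 5 ^ (v + 2) * t)
      rw [sub_add_cancel] at h2
      exact h2

end Pool.Agent.RDF


end

section

/-!
Elementary sums: products over residues, sums of powers, the weight sum.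
-/

namespace Pool.Agent.RDF

open Finset (range)

/-- sums over residues modulo a product of coprime numbers -/
lemma crt_sum {R : Type*} [CommSemiring R] {a b : ℕ} (ha : 0 < a) (hb : 0 < b)
    (hab : Nat.Coprime a b) (g h : ℕ → R) :
    ∑ u ∈ range (a * b), g (u % a) * h (u % b) = (∑ i ∈ range a, g i) * (∑ j ∈ range b, h j) := by
  rw [Finset.sum_mul_sum, ← Finset.sum_product']
  apply Finset.sum_nbij (fun u => (u % a, u % b))
  · intro u _
    simp only [Finset.mem_product, Finset.mem_range]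
    exact ⟨Nat.mod_lt _ ha, Nat.mod_lt _ hb⟩
  · intro x hx y hy hxy
    have hx' := Finset.mem_range.1 (Finset.mem_coe.1 hx)
    have hy' := Finset.mem_range.1 (Finset.mem_coe.1 hy)
    have h1 : x % a = y % a := congrArg Prod.fst hxy
    have h2 : x % b = y % b := congrArg Prod.snd hxy
    have h3 : x ≡ y [MOD a * b] := (Nat.modEq_and_modEq_iff_modEq_mul hab).1 ⟨h1, h2⟩
    have h4 : x % (a * b) = y % (a * b) := h3
    rwa [Nat.mod_eq_of_lt hx', Nat.mod_eq_of_lt hy'] at h4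
  · rintro ⟨i, j⟩ hij
    simp only [Finset.coe_product, Set.mem_prod, Finset.mem_coe, Finset.mem_range] at hij
    obtain ⟨k, hk1, hk2⟩ := Nat.chineseRemainder hab i j
    refine ⟨k % (a * b), Finset.mem_coe.2 (Finset.mem_range.2 (Nat.mod_lt _ (Nat.mul_pos ha hb))), ?_⟩
    simp only [Prod.mk.injEq]
    constructor
    · rw [Nat.mod_mul_right_mod]
      have : k % a = i % a := hk1
      rw [this, Nat.mod_eq_of_lt hij.1]
    · rw [Nat.mod_mul_left_mod]
      have : k % b = j % b := hk2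
      rw [this, Nat.mod_eq_of_lt hij.2]
  · intro u _; rfl

/-- expansion of a power -/
lemma pow_expand (i c : ℤ) (m : ℕ) : ∃ D : ℤ, ∀ y : ℤ, ∃ s : ℤ,
    ((i + y) ^ 2 + c) ^ m = (i ^ 2 + c) ^ m + y * D + y ^ 2 * s := by
  induction m with
  | zero => exact ⟨0, fun y => ⟨0, by simp⟩⟩
  | succ m ih =>
    obtain ⟨D, hD⟩ := ih
    refine ⟨D * (i ^ 2 + c) + 2 * i * (i ^ 2 + c) ^ m, fun y => ?_⟩
    obtain ⟨s, hs⟩ := hD y
    refine ⟨s * (i ^ 2 + c) + (i ^ 2 + c) ^ m + 2 * i * D + y * D + 2 * i * y * s + y ^ 2 * s, ?_⟩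
    rw [pow_succ, hs]
    ring

/-- sums of powers over residues modulo a power of five -/
lemma sum_pow_step (c : ℤ) (m n : ℕ) : (5 : ℤ) ^ (n + 2) ∣
    ∑ j ∈ range (5 ^ (n + 2)), ((j : ℤ) ^ 2 + c) ^ m - 5 * ∑ j ∈ range (5 ^ (n + 1)), ((j : ℤ) ^ 2 + c) ^ m := by
  have e : 5 ^ (n + 2) = 5 ^ (n + 1) * 5 := by ring
  have e1 : ∀ (N : ℕ) (g : ℕ → ℤ), ∑ j ∈ range (N * 5), g j
      = ∑ i ∈ range N, (g i + g (N + i) + g (2 * N + i) + g (3 * N + i) + g (4 * N + i)) := by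
    intro N g
    have : N * 5 = N + N + N + N + N := by ring
    rw [this, Finset.sum_range_add, Finset.sum_range_add, Finset.sum_range_add,
      Finset.sum_range_add]
    simp only [Finset.sum_add_distrib]
    congr 1
    · congr 1
      · congr 1
        apply Finset.sum_congr rfl
        intro i _
        congr 1
        ring
      · apply Finset.sum_congr rfl
        intro i _
        congr 1
        ring
    · apply Finset.sum_congr rfl
      intro i _
      congr 1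
      ring
  rw [e, e1, Finset.mul_sum, ← Finset.sum_sub_distrib]
  apply Finset.dvd_sum
  intro i _
  obtain ⟨D, hD⟩ := pow_expand i c m
  obtain ⟨z, hz⟩ : ∃ z : ℤ, z = 5 ^ n := ⟨_, rfl⟩
  have hN : ((5 ^ (n + 1) : ℕ) : ℤ) = 5 * z := by rw [hz]; push_cast; ring
  have hM : ((5 ^ (n + 1) * 5 : ℕ) : ℤ) = 25 * z := by rw [hz]; push_cast; ring
  obtain ⟨s1, h1⟩ := hD (5 * z)
  obtain ⟨s2, h2⟩ := hD (2 * (5 * z))
  obtain ⟨s3, h3⟩ := hD (3 * (5 * z))
  obtain ⟨s4, h4⟩ := hD (4 * (5 * z))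
  have c1 : (((5 ^ (n + 1) + i : ℕ) : ℤ)) = i + 5 * z := by rw [Nat.cast_add, hN]; ring
  have c2 : (((2 * 5 ^ (n + 1) + i : ℕ) : ℤ)) = i + 2 * (5 * z) := by
    rw [Nat.cast_add, Nat.cast_mul, hN]; push_cast; ring
  have c3 : (((3 * 5 ^ (n + 1) + i : ℕ) : ℤ)) = i + 3 * (5 * z) := by
    rw [Nat.cast_add, Nat.cast_mul, hN]; push_cast; ring
  have c4 : (((4 * 5 ^ (n + 1) + i : ℕ) : ℤ)) = i + 4 * (5 * z) := by
    rw [Nat.cast_add, Nat.cast_mul, hN]; push_cast; ring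
  rw [c1, c2, c3, c4, h1, h2, h3, h4]
  have hz5 : (5 : ℤ) ^ (n + 2) = 25 * z := by rw [hz]; ring
  rw [hz5]
  refine ⟨2 * D + z * (s1 + 4 * s2 + 9 * s3 + 16 * s4), ?_⟩
  ring

lemma sum_pow (c : ℤ) {m : ℕ} (hm : m % 4 = 2) (n : ℕ) : (5 : ℤ) ^ (n + 1) ∣
    ∑ j ∈ range (5 ^ (n + 1)), ((j : ℤ) ^ 2 + c) ^ m + 5 ^ n := by
  induction n with
  | zero =>
    have h5 : ((∑ j ∈ range (5 ^ 1), ((j : ℤ) ^ 2 + c) ^ m + 5 ^ 0 : ℤ) : ZMod 5) = 0 := by
      push_cast
      have hz : ∀ (z : ZMod 5) (i : ℕ), z ^ (2 + 4 * i) = z ^ 2 := by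
        intro z i
        induction i with
        | zero => simp
        | succ i ih =>
          have e : 2 + 4 * (i + 1) = (2 + 4 * i) + 4 := by ring
          rw [e, pow_add, ih]
          have h6 : ∀ z : ZMod 5, z ^ 2 * z ^ 4 = z ^ 2 := by decide
          exact h6 z
      obtain ⟨i, hi⟩ : ∃ i, m = 2 + 4 * i := ⟨m / 4, by omega⟩
      rw [hi]
      simp only [hz]
      have key : ∀ z : ZMod 5, ∑ j ∈ range (5 ^ 1), ((j : ZMod 5) ^ 2 + z) ^ 2 + 5 ^ 0 = 0 := by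
        decide
      exact key c
    have := (ZMod.intCast_zmod_eq_zero_iff_dvd _ 5).1 h5
    simpa using this
  | succ n ih =>
    have h1 := sum_pow_step c m n
    obtain ⟨t, ht⟩ := ih
    obtain ⟨s, hs⟩ := h1
    refine ⟨s + t, ?_⟩
    have e1 : (5 : ℤ) ^ (n + 2) = 5 * 5 ^ (n + 1) := by ring
    have e2 : (5 : ℤ) ^ (n + 1 + 1) = 5 * 5 ^ (n + 1) := by ring
    rw [e1] at hs
    rw [e2]
    have e3 : (5 : ℤ) ^ (n + 1) = 5 * 5 ^ n := by ring
    linear_combination hs + 5 * ht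

/-- the weight sum -/
lemma bt_sum_aux (c : ℤ) (h : ℕ) : ∑ x ∈ range (2 * h + 1), (-1 : ℤ) ^ x * (c - 2 * x) = c - 2 * h := by
  induction h with
  | zero => simp
  | succ h ih =>
    rw [show 2 * (h + 1) + 1 = 2 * h + 1 + 1 + 1 by ring, Finset.sum_range_succ,
      Finset.sum_range_succ, ih]
    have e1 : (-1 : ℤ) ^ (2 * h + 1) = -1 := by rw [pow_succ, pow_mul]; simp
    have e2 : (-1 : ℤ) ^ (2 * h + 1 + 1) = 1 := by rw [pow_succ, e1]; norm_num
    rw [e1, e2]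
    push_cast
    ring

lemma bt_sum {Q : ℕ} (hQ : Q % 2 = 1) : ∑ x ∈ range Q, bt Q x = 1 := by
  obtain ⟨h, rfl⟩ : ∃ h, Q = 2 * h + 1 := ⟨Q / 2, by omega⟩
  unfold bt
  rw [bt_sum_aux]
  push_cast
  ring

/-- the weight sum over multiples -/
lemma bt_sum_dvd {t Q : ℕ} (ht : t % 2 = 1) (hQ : Q % 2 = 1) :
    ∑ x ∈ range (t * Q), (if t ∣ x then bt (t * Q) x else 0) = t := by
  have ht0 : 0 < t := by omega
  rw [← Finset.sum_filter]
  have e : (range (t * Q)).filter (fun x => t ∣ x) = (range Q).image (fun y => t * y) := by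
    ext x
    simp only [Finset.mem_filter, Finset.mem_range, Finset.mem_image]
    constructor
    · rintro ⟨h1, y, rfl⟩
      exact ⟨y, Nat.lt_of_mul_lt_mul_left h1, rfl⟩
    · rintro ⟨y, h1, rfl⟩
      exact ⟨Nat.mul_lt_mul_of_pos_left h1 ht0, Dvd.intro y rfl⟩
  rw [e, Finset.sum_image (fun x _ y _ h => Nat.eq_of_mul_eq_mul_left ht0 h)]
  have e2 : ∀ y ∈ range Q, bt (t * Q) (t * y) = t * bt Q y := by
    intro y _
    unfold bt
    have hodd : Odd t := Nat.odd_iff.2 ht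
    rw [pow_mul, hodd.neg_one_pow]
    push_cast
    ring
  rw [Finset.sum_congr rfl e2, ← Finset.mul_sum, bt_sum hQ, mul_one]

/-- the quadratic character sums -/
lemma T7_sum : ∀ c : ZMod 7, ∑ i ∈ range 7, T7 ((i : ZMod 7) ^ 2 + c) = if c = 0 then 6 else -1 := by
  decide
lemma T13_sum : ∀ c : ZMod 13,
    ∑ i ∈ range 13, T13 ((i : ZMod 13) ^ 2 + c) = if c = 0 then 12 else -1 := by
  decide +kernel

lemma chi_sum (n : ℤ) : ∑ i ∈ range 91, chi ((i : ℤ) ^ 2 + n)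
    = (if (7 : ℤ) ∣ n then 6 else -1) * (if (13 : ℤ) ∣ n then 12 else -1) := by
  have h := crt_sum (R := ℤ) (a := 7) (b := 13) (by norm_num) (by norm_num) (by norm_num)
    (fun i => T7 ((i : ZMod 7) ^ 2 + n)) (fun i => T13 ((i : ZMod 13) ^ 2 + n))
  rw [T7_sum, T13_sum] at h
  have e1 : ((n : ZMod 7) = 0) ↔ (7 : ℤ) ∣ n := by
    have := ZMod.intCast_zmod_eq_zero_iff_dvd n 7
    exact_mod_cast this
  have e2 : ((n : ZMod 13) = 0) ↔ (13 : ℤ) ∣ n := by
    have := ZMod.intCast_zmod_eq_zero_iff_dvd n 13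
    exact_mod_cast this
  simp only [e1, e2] at h
  rw [← h]
  apply Finset.sum_congr rfl
  intro i _
  unfold chi
  push_cast
  rw [ZMod.natCast_mod, ZMod.natCast_mod]

end Pool.Agent.RDF


end
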