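import Mathlib
import Pool.Agent.RQM.C02
import Pool.Agent.RQM.C09
import Pool.Agent.RQM.C11
import Pool.Agent.RQM.C14
import Pool.Agent.RQM.C15

/-! Parts: Lib_helper5.RDType -/

namespace Pool.Agent.LibH4
end Pool.Agent.LibH4
namespace Pool.Agent.LibH4.FA
end Pool.Agent.LibH4.FA

section

/-!
Real quadratic fields of type `d = m² ± 4r`, `r ∣ m`, `m` odd.
-/

namespace Pool.Agent.Lib_helper5

open Finset (range)
open Pool.Agent.LibH4 Pool.Agent.LibH4.FA
open scoped NumberField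

lemma isDomain_congr {m B m' B' : ℤ} (h1 : m = m') (h2 : B = B')
    (h : IsDomain (QuadraticAlgebra ℤ m B)) : IsDomain (QuadraticAlgebra ℤ m' B') := by
  subst h1 h2; exact h

lemma ufm_congr {m B m' B' : ℤ} (h1 : m = m') (h2 : B = B')
    (h : UniqueFactorizationMonoid (QuadraticAlgebra ℤ m B)) :
    UniqueFactorizationMonoid (QuadraticAlgebra ℤ m' B') := by
  subst h1 h2; exact h

namespace BL

/-- all the relations for the family `(an)² + 4a` -/
def All (a n d : ℕ) : Prop :=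
  ∀ (q l : ℕ), 0 < q → ∀ [Fact l.Prime], Nat.Coprime q d → ¬ l ∣ 6 → ¬ l ∣ d →
    ∀ (χ : ZMod q → ZMod l), (∀ x, χ (-x) = - χ x) → (∀ x y, χ (x * y) = χ x * χ y) →
    (∑ u ∈ range q, (u : ZMod l) * χ (u : ZMod q) = 0) →
    (∑ r ∈ range q, ∑ s ∈ range q,
      χ ((a * (r : ℤ) ^ 2 + ((a : ℤ) * n) * r * s - 1 * (s : ℤ) ^ 2 : ℤ)
        : ZMod q) * (3 * ((bZ q r : ZMod l) * bZ q s) - ((a : ZMod l) * n) * b2Z q r))
    + (∑ r ∈ range q, ∑ s ∈ range q,
      χ ((1 * (r : ℤ) ^ 2 + ((a : ℤ) * n) * r * s - a * (s : ℤ) ^ 2 : ℤ)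
        : ZMod q) * (3 * ((bZ q r : ZMod l) * bZ q s) - (n : ZMod l) * b2Z q r)) = 0

/-- the cycle of length one -/
lemma cycY (n : ℕ) (hn : 1 ≤ n) :
    OddCyc 1 n 0 (fun _ => 1) (fun _ => n) (fun _ => 1) (fun _ => n) where
  hP k hk := rfl
  hR k hk := by ring
  hS k hk := by ring
  P0 := rfl
  R0 := rfl
  S0 := rfl
  Spos k hk := by norm_num
  Ppos0 := by norm_num
  cpos k hk := hn
  Pm := rfl
  RB := rfl
  S1 := rfl
  perP k hk := rfl
  perR k hk := rfl
  perS k hk := rfl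
  perc k hk := rfl
  Pone i hi hi0 := by omega

/-- all relations, for every `a ≥ 1` -/
theorem all (a n : ℕ) (ha : 1 ≤ a) (ha2 : a % 2 = 1) (hn2 : n % 2 = 1)
    [IsDomain (QuadraticAlgebra ℤ (a : ℤ) (a * n))]
    [UniqueFactorizationMonoid (QuadraticAlgebra ℤ (a : ℤ) (a * n))]
    {d : ℕ} (hd : (d : ℤ) = ((a : ℤ) * n) ^ 2 + 4 * a) : All a n d := by
  intro q l hq _ hcop hl6 hld χ hodd hmul hsum
  rcases Nat.lt_or_ge a 2 with h | h
  · have ha1 : a = 1 := by omega
    subst ha1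
    have hU : IsDomain (QuadraticAlgebra ℤ (1 : ℤ) n) :=
      isDomain_congr (m := ((1 : ℕ) : ℤ)) (B := ((1 : ℕ) : ℤ) * n) (by norm_num) (by simp)
        inferInstance
    have hU2 : UniqueFactorizationMonoid (QuadraticAlgebra ℤ (1 : ℤ) n) :=
      ufm_congr (m := ((1 : ℕ) : ℤ)) (B := ((1 : ℕ) : ℤ) * n) (by norm_num) (by simp)
        inferInstance
    have key := odd_T5 1 n (by norm_num) (by norm_num) (by exact_mod_cast hn2)
      (cycY n (by omega)) (d := d) (by rw [hd]; push_cast; ring) (mod8 1 n ha2 hn2 hd)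
      q l hq hcop hl6 hld χ hodd hmul hsum
    simp only [mul_zero, zero_add, Finset.sum_range_one] at key
    have e : ∀ x y : ZMod l, x = 0 → y = 0 → x + y = 0 := by
      intro x y hx hy; rw [hx, hy, add_zero]
    apply e
    · rw [← key]
      simp
    · rw [← key]
      simp
  · exact T5 a n h ha2 hn2 hd q l hq hcop hl6 hld χ hodd hmul hsum

/-- small primes are inert, for every `a ≥ 1` -/
theorem inert' (a n : ℕ) (ha : 1 ≤ a) (ha2 : a % 2 = 1) (hn2 : n % 2 = 1)
    [IsDomain (QuadraticAlgebra ℤ (a : ℤ) (a * n))]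
    [UniqueFactorizationMonoid (QuadraticAlgebra ℤ (a : ℤ) (a * n))]
    {d : ℕ} (hd : (d : ℤ) = ((a : ℤ) * n) ^ 2 + 4 * a)
    (p : ℕ) (hp : p.Prime) (hp2 : p ≠ 2) (hpa : p ≠ a)
    (hpw : p ≤ a * (n - 1) ∨ p < a) : jacobiSym d p = -1 := by
  rcases Nat.lt_or_ge a 2 with h | h
  · have ha1 : a = 1 := by omega
    subst ha1
    have hU : IsDomain (QuadraticAlgebra ℤ (1 : ℤ) n) :=
      isDomain_congr (m := ((1 : ℕ) : ℤ)) (B := ((1 : ℕ) : ℤ) * n) (by norm_num) (by simp)
        inferInstance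
    have hU2 : UniqueFactorizationMonoid (QuadraticAlgebra ℤ (1 : ℤ) n) :=
      ufm_congr (m := ((1 : ℕ) : ℤ)) (B := ((1 : ℕ) : ℤ) * n) (by norm_num) (by simp)
        inferInstance
    by_contra hj
    obtain ⟨k, hk, x, y, hx, hy, he⟩ := odd_inert 1 n (by norm_num)
      (cycY n (by omega)) (d := d) (by rw [hd]; push_cast; ring) (mod8 1 n ha2 hn2 hd) p hp hp2 hj
    have hx' : (1 : ℤ) ≤ x := by exact_mod_cast hx
    have hxx : (1 : ℤ) ≤ (x : ℤ) ^ 2 := by nlinarith
    have hpn : (p : ℤ) + 1 ≤ n := by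
      rcases hpw with h | h
      · omega
      · have := hp.two_le
        omega
    rcases Nat.eq_zero_or_pos y with hy0 | hy0
    · subst hy0
      have he' : (1 : ℤ) * (x : ℤ) ^ 2 = p := by rw [← he]; push_cast; ring
      have hP := eq_of_prime_mul_sq hp he'
      have := hp.two_le
      omega
    · have hy1 : (1 : ℤ) ≤ y := by exact_mod_cast hy0
      have hyc : (y : ℤ) + 1 ≤ n * x := by exact_mod_cast hy
      have h2 : (n : ℤ) * x - 1 ≤ y * (n * x - y) := by nlinarith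
      nlinarith
  · exact inert a n h ha2 hn2 hd p hp hp2 hpa hpw

end BL

namespace E1

/-- all the relations for the family `(an)² - 4a` -/
def All (a n d : ℕ) : Prop :=
  ∀ (q l : ℕ), 0 < q → ∀ [Fact l.Prime], Nat.Coprime q d → ¬ l ∣ 6 → ¬ l ∣ d →
    ∀ (χ : ZMod q → ZMod l), (∀ x, χ (-x) = - χ x) → (∀ x y, χ (x * y) = χ x * χ y) →
    (∑ u ∈ range q, (u : ZMod l) * χ (u : ZMod q) = 0) →
    (∑ r ∈ range q, ∑ s ∈ range q,
      χ ((((a : ℤ) * n - a - 1) * (r : ℤ) ^ 2 + ((a : ℤ) * n - 2) * r * s - 1 * (s : ℤ) ^ 2 : ℤ)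
        : ZMod q) * (3 * ((bZ q r : ZMod l) * bZ q s) - ((a : ZMod l) * n - 2) * b2Z q r))
    + (∑ r ∈ range q, ∑ s ∈ range q,
      χ ((1 * (r : ℤ) ^ 2 + ((a : ℤ) * n - 2) * r * s - ((a : ℤ) * n - a - 1) * (s : ℤ) ^ 2 : ℤ)
        : ZMod q) * (3 * ((bZ q r : ZMod l) * bZ q s) - 1 * b2Z q r))
    + (∑ r ∈ range q, ∑ s ∈ range q,
      χ ((((a : ℤ) * n - a - 1) * (r : ℤ) ^ 2 + ((a : ℤ) * n - 2 * a) * r * s - a * (s : ℤ) ^ 2 : ℤ)
        : ZMod q) * (3 * ((bZ q r : ZMod l) * bZ q s) - ((n : ZMod l) - 2) * b2Z q r))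
    + (∑ r ∈ range q, ∑ s ∈ range q,
      χ ((a * (r : ℤ) ^ 2 + ((a : ℤ) * n - 2 * a) * r * s - ((a : ℤ) * n - a - 1) * (s : ℤ) ^ 2 : ℤ)
        : ZMod q) * (3 * ((bZ q r : ZMod l) * bZ q s) - 1 * b2Z q r)) = 0

theorem all (a n : ℕ) (ha : 2 ≤ a) (ha2 : a % 2 = 1) (hn : 3 ≤ n) (hn2 : n % 2 = 1)
    [IsDomain (QuadraticAlgebra ℤ (w a n) (a * n - 2))]
    [UniqueFactorizationMonoid (QuadraticAlgebra ℤ (w a n) (a * n - 2))]
    {d : ℕ} (hd : (d : ℤ) = ((a : ℤ) * n) ^ 2 - 4 * a) : All a n d := by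
  intro q l hq _ hcop hl6 hld χ hodd hmul hsum
  exact T5 a n ha ha2 hn hn2 hd q l hq hcop hl6 hld χ hodd hmul hsum

end E1

/-- the nineteen discriminants -/
def rdList : List ℕ :=
  [5, 13, 21, 29, 53, 69, 77, 93, 173, 213, 237, 293, 413, 437, 453, 717, 1077, 1133, 1253]

lemma BL.small_arith (a n : ℕ) (ha : 1 ≤ a) (ha2 : a % 2 = 1) (hn2 : n % 2 = 1)
    (hs : (n = 1 ∧ a < 29) ∨ (3 ≤ n ∧ a * (n - 1) < 29))
    (hin : ∀ p : ℕ, p.Prime → p ≠ 2 → p ≠ a → (p ≤ a * (n - 1) ∨ p < a) →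
      jacobiSym (((a * n) ^ 2 + 4 * a : ℕ) : ℤ) p = -1) :
    (a * n) ^ 2 + 4 * a ∈ rdList := by
  have h3 := hin 3 (by norm_num) (by norm_num)
  have h5 := hin 5 (by norm_num) (by norm_num)
  have h7 := hin 7 (by norm_num) (by norm_num)
  have h11 := hin 11 (by norm_num) (by norm_num)
  have h13 := hin 13 (by norm_num) (by norm_num)
  have h17 := hin 17 (by norm_num) (by norm_num)
  have h19 := hin 19 (by norm_num) (by norm_num)
  have h23 := hin 23 (by norm_num) (by norm_num)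
  clear hin
  have ha28 : a ≤ 28 := by
    rcases hs with h | ⟨h, h'⟩
    · omega
    · have : a * 2 ≤ a * (n - 1) := Nat.mul_le_mul_left a (by omega)
      omega
  have hn29 : n ≤ 29 := by
    rcases hs with h | ⟨h, h'⟩
    · omega
    · have : 1 * (n - 1) ≤ a * (n - 1) := Nat.mul_le_mul_right _ ha
      omega
  interval_cases a <;> interval_cases n <;> first
    | omega
    | decide
    | (exfalso; have := h3 (by decide) (by decide); norm_num at this; done)
    | (exfalso; have := h5 (by decide) (by decide); norm_num at this; done)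
    | (exfalso; have := h7 (by decide) (by decide); norm_num at this; done)

lemma E1.small_arith (a n : ℕ) (ha : 3 ≤ a) (ha2 : a % 2 = 1) (hn : 3 ≤ n) (hn2 : n % 2 = 1)
    (hs : a * n ≤ 30 + a)
    (hin : ∀ p : ℕ, p.Prime → p ≠ 2 → p ≠ a → p + a + 1 < a * n →
      jacobiSym (((a * n) ^ 2 - 4 * a : ℕ) : ℤ) p = -1) :
    (a * n) ^ 2 - 4 * a ∈ rdList := by
  have h3 := hin 3 (by norm_num) (by norm_num)
  have h5 := hin 5 (by norm_num) (by norm_num)
  have h7 := hin 7 (by norm_num) (by norm_num)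
  have h11 := hin 11 (by norm_num) (by norm_num)
  have h13 := hin 13 (by norm_num) (by norm_num)
  have h17 := hin 17 (by norm_num) (by norm_num)
  have h19 := hin 19 (by norm_num) (by norm_num)
  have h23 := hin 23 (by norm_num) (by norm_num)
  clear hin
  have ha28 : a ≤ 15 := by
    have : a * 3 ≤ a * n := Nat.mul_le_mul_left a (by omega)
    omega
  have hn29 : n ≤ 11 := by
    by_contra hcon
    push Not at hcon
    have : a * 12 ≤ a * n := Nat.mul_le_mul_left a hcon
    omega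
  interval_cases a <;> interval_cases n <;> first
    | omega
    | decide
    | (exfalso; have := h3 (by decide) (by decide); norm_num at this; done)
    | (exfalso; have := h5 (by decide) (by decide); norm_num at this; done)
    | (exfalso; have := h7 (by decide) (by decide); norm_num at this; done)
    | (exfalso; have := h11 (by decide) (by decide); norm_num at this; done)

/-- unique factorisation from a finite check -/
lemma ufd_of_check' {d a : ℕ} (c : ℤ) (hsq : Squarefree d) (h1 : 1 < d) (A : ℤ)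
    (hA : (d : ℤ) = 4 * A + 1) (hz : (c ^ 2 + c - A).natAbs = a)
    (hcheck : ∀ p : ℕ, p.Prime → 4 * (p : ℤ) ^ 2 ≤ d → ∀ x : ℤ, |2 * x + 1| ≤ p →
      (p : ℤ) ∣ x ^ 2 + x - A → p = a) :
    UniqueFactorizationMonoid (𝓞 (KQ d)) := by
  have hmod : d % 4 = 1 := by omega
  have hBq : Bq d = 1 := by simp [Bq, hmod]
  have hAq : Aq d = A := by
    unfold Aq
    rw [if_pos hmod, hA]
    simp
  have hDq : Dq d = d := by simp [Dq, hmod]
  have hpid : IsPrincipalIdealRing (𝓞 (KQ d)) := by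
    apply isPrincipalIdealRing_of_small hsq h1
    intro p hp h4 x hx hdvd
    rw [hDq] at h4
    rw [hBq] at hx hdvd
    rw [hAq] at hdvd
    have hpm := hcheck p hp h4 x hx (by rw [one_mul] at hdvd; exact hdvd)
    refine ⟨⟨c, 1⟩, ?_⟩
    rw [norm_lin_eq, hBq, hAq, hpm, one_mul]
    exact hz
  exact inferInstance

/-- the nineteen fields have unique factorisation -/
theorem rd_ufd {d : ℕ} (hsq : Squarefree d) (h : d ∈ rdList) :
    UniqueFactorizationMonoid (𝓞 (KQ d)) := by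
  simp only [rdList, List.mem_cons, List.not_mem_nil, or_false] at h
  rcases h with rfl | rfl | rfl | rfl | rfl | rfl | rfl | rfl | rfl | rfl | rfl | rfl | rfl | rfl |
    rfl | rfl | rfl | rfl | rfl
  · exact ufd_of_check' (a := 1) 0 hsq (by norm_num) 1 (by norm_num) (by norm_num)
      (chk_sound (by decide) (by norm_num))
  · exact ufd_of_check' (a := 1) 1 hsq (by norm_num) 3 (by norm_num) (by norm_num)
      (chk_sound (by decide) (by norm_num))
  · exact ufd_of_check' (a := 1) 2 hsq (by norm_num) 5 (by norm_num) (by norm_num)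
      (chk_sound (by decide) (by norm_num))
  · exact ufd_of_check' (a := 1) 2 hsq (by norm_num) 7 (by norm_num) (by norm_num)
      (chk_sound (by decide) (by norm_num))
  · exact ufd_of_check' (a := 1) 3 hsq (by norm_num) 13 (by norm_num) (by norm_num)
      (chk_sound (by decide) (by norm_num))
  · exact ufd_of_check' (a := 3) 4 hsq (by norm_num) 17 (by norm_num) (by norm_num)
      (chk_sound (by decide) (by norm_num))
  · exact ufd_of_check' (a := 1) 4 hsq (by norm_num) 19 (by norm_num) (by norm_num)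
      (chk_sound (by decide) (by norm_num))
  · exact ufd_of_check' (a := 3) 4 hsq (by norm_num) 23 (by norm_num) (by norm_num)
      (chk_sound (by decide) (by norm_num))
  · exact ufd_of_check' (a := 1) 6 hsq (by norm_num) 43 (by norm_num) (by norm_num)
      (chk_sound (by decide) (by norm_num))
  · exact ufd_of_check' (a := 3) 7 hsq (by norm_num) 53 (by norm_num) (by norm_num)
      (chk_sound (by decide) (by norm_num))
  · exact ufd_of_check' (a := 3) 7 hsq (by norm_num) 59 (by norm_num) (by norm_num)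
      (chk_sound (by decide) (by norm_num))
  · exact ufd_of_check' (a := 1) 8 hsq (by norm_num) 73 (by norm_num) (by norm_num)
      (chk_sound (by decide) (by norm_num))
  · exact ufd_of_check' (a := 7) 10 hsq (by norm_num) 103 (by norm_num) (by norm_num)
      (chk_sound (by decide) (by norm_num))
  · exact ufd_of_check' (a := 1) 10 hsq (by norm_num) 109 (by norm_num) (by norm_num)
      (chk_sound (by decide) (by norm_num))
  · exact ufd_of_check' (a := 3) 10 hsq (by norm_num) 113 (by norm_num) (by norm_num)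
      (chk_sound (by decide) (by norm_num))
  · exact ufd_of_check' (a := 3) 13 hsq (by norm_num) 179 (by norm_num) (by norm_num)
      (chk_sound (by decide) (by norm_num))
  · exact ufd_of_check' (a := 3) 16 hsq (by norm_num) 269 (by norm_num) (by norm_num)
      (chk_sound (by decide) (by norm_num))
  · exact ufd_of_check' (a := 11) 16 hsq (by norm_num) 283 (by norm_num) (by norm_num)
      (chk_sound (by decide) (by norm_num))
  · exact ufd_of_check' (a := 7) 17 hsq (by norm_num) 313 (by norm_num) (by norm_num)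
      (chk_sound (by decide) (by norm_num))

/-- unique factorisation transfers to the orders used in the proof -/
lemma ufm_order {d : ℕ} {m B : ℤ} (hsq : Squarefree d) (h1 : 1 < d)
    (hd : (d : ℤ) = B ^ 2 + 4 * m) (hB : B % 2 = 1)
    (hU : UniqueFactorizationMonoid (𝓞 (KQ d))) :
    IsDomain (QuadraticAlgebra ℤ m B) ∧ UniqueFactorizationMonoid (QuadraticAlgebra ℤ m B) := by
  obtain ⟨e⟩ := exists_equiv_QI hd hB
  have e' := e.symm.trans (eqvO hsq h1)
  exact ⟨e'.toMulEquiv.isDomain, e'.symm.toMulEquiv.uniqueFactorizationMonoid hU⟩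

/-- what remains to be shown for the family `(an)² + 4a` -/
def NoLargeBL : Prop := ∀ (a n d : ℕ), 1 ≤ a → a % 2 = 1 → n % 2 = 1 →
  (d : ℤ) = ((a : ℤ) * n) ^ 2 + 4 * a →
  (∀ p : ℕ, p.Prime → p ≠ 2 → p ≤ 29 → p ≠ a → jacobiSym d p = -1) → BL.All a n d → False

/-- what remains to be shown for the family `(an)² - 4a` -/
def NoLargeE1 : Prop := ∀ (a n d : ℕ), 3 ≤ a → a % 2 = 1 → 3 ≤ n → n % 2 = 1 →
  (d : ℤ) = ((a : ℤ) * n) ^ 2 - 4 * a →
  (∀ p : ℕ, p.Prime → p ≠ 2 → p ≤ 29 → p ≠ a → jacobiSym d p = -1) → E1.All a n d → False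

theorem BL.mem_list (H : NoLargeBL) (a n d : ℕ) (ha : 1 ≤ a) (ha2 : a % 2 = 1) (hn2 : n % 2 = 1)
    (hd : d = (a * n) ^ 2 + 4 * a) (hsq : Squarefree d)
    (hU : UniqueFactorizationMonoid (𝓞 (KQ d))) : d ∈ rdList := by
  have hodd_an : (a * n) % 2 = 1 := by rw [Nat.mul_mod, ha2, hn2]
  have hdZ : (d : ℤ) = ((a : ℤ) * n) ^ 2 + 4 * a := by rw [hd]; push_cast; ring
  have h1 : 1 < d := by
    have := Nat.zero_le ((a * n) ^ 2)
    omega
  obtain ⟨i1, i2⟩ := ufm_order (m := (a : ℤ)) (B := (a : ℤ) * n) hsq h1 hdZ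
    (by exact_mod_cast hodd_an) hU
  have hin := fun (p : ℕ) (hp : p.Prime) (hp2 : p ≠ 2) (hpa : p ≠ a) hpw =>
    BL.inert' a n ha ha2 hn2 hdZ p hp hp2 hpa hpw
  by_cases hs : (n = 1 ∧ a < 29) ∨ (3 ≤ n ∧ a * (n - 1) < 29)
  · rw [hd]
    apply BL.small_arith a n ha ha2 hn2 hs
    intro p hp hp2 hpa hpw
    rw [← hd]
    exact hin p hp hp2 hpa hpw
  · exfalso
    push Not at hs
    obtain ⟨hs1, hs2⟩ := hs
    apply H a n d ha ha2 hn2 hdZ _ (BL.all a n ha ha2 hn2 hdZ)
    intro p hp hp2 hp29 hpa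
    apply hin p hp hp2 hpa
    rcases Nat.lt_or_ge n 3 with hn | hn
    · right
      have := hs1 (by omega)
      omega
    · left
      have := hs2 hn
      omega

theorem E1.mem_list (H : NoLargeE1) (a n d : ℕ) (ha : 3 ≤ a) (ha2 : a % 2 = 1) (hn : 3 ≤ n)
    (hn2 : n % 2 = 1) (hd : d + 4 * a = (a * n) ^ 2) (hsq : Squarefree d)
    (hU : UniqueFactorizationMonoid (𝓞 (KQ d))) : d ∈ rdList := by
  have hodd_an : (a * n) % 2 = 1 := by rw [Nat.mul_mod, ha2, hn2]
  have hodd_an' : ((a : ℤ) * n) % 2 = 1 := by exact_mod_cast hodd_an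
  have hdZ : (d : ℤ) = ((a : ℤ) * n) ^ 2 - 4 * a := by
    have := congrArg (Nat.cast : ℕ → ℤ) hd
    push_cast at this
    linarith
  have h3 : a * 3 ≤ a * n := Nat.mul_le_mul_left a hn
  have h1 : 1 < d := by nlinarith
  obtain ⟨i1, i2⟩ := ufm_order (m := E1.w a n) (B := (a : ℤ) * n - 2) hsq h1
    (by rw [hdZ]; unfold E1.w; ring) (by omega) hU
  have hin := fun (p : ℕ) (hp : p.Prime) (hp2 : p ≠ 2) (hpa : p ≠ a) hpw =>
    E1.inert a n (by omega) ha2 hn hn2 hdZ p hp hp2 hpa hpw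
  by_cases hs : a * n ≤ 30 + a
  · have hd' : d = (a * n) ^ 2 - 4 * a := by omega
    rw [hd']
    apply E1.small_arith a n ha ha2 hn hn2 hs
    intro p hp hp2 hpa hpw
    rw [← hd']
    apply hin p hp hp2 hpa
    have : ((p + a + 1 : ℕ) : ℤ) < ((a * n : ℕ) : ℤ) := by exact_mod_cast hpw
    push_cast at this
    unfold E1.w
    linarith
  · exfalso
    push Not at hs
    apply H a n d ha ha2 hn hn2 hdZ _ (E1.all a n (by omega) ha2 hn hn2 hdZ)
    intro p hp hp2 hp29 hpa
    apply hin p hp hp2 hpa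
    have h5 : ((30 + a : ℕ) : ℤ) < ((a * n : ℕ) : ℤ) := by exact_mod_cast hs
    push_cast at h5
    have h6 : (p : ℤ) ≤ 29 := by exact_mod_cast hp29
    unfold E1.w
    linarith

/-- the Richaud–Degert type theorem, from the two eliminations -/
theorem rdTheorem (H1 : NoLargeBL) (H2 : NoLargeE1) (d m r : ℕ) (hm : m % 2 = 1) (hr : r ∣ m)
    (hd : d = m ^ 2 + 4 * r ∨ d + 4 * r = m ^ 2) (hsq : Squarefree d) (h1 : 1 < d) :
    UniqueFactorizationMonoid (𝓞 (KQ d)) ↔ d ∈ rdList := by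
  refine ⟨fun hU => ?_, rd_ufd hsq⟩
  obtain ⟨n, rfl⟩ := hr
  have hr2 : r % 2 = 1 := by
    rcases Nat.mod_two_eq_zero_or_one r with h | h
    · rw [Nat.mul_mod, h, zero_mul, Nat.zero_mod] at hm
      exact absurd hm (by norm_num)
    · exact h
  have hn2 : n % 2 = 1 := by
    rcases Nat.mod_two_eq_zero_or_one n with h | h
    · rw [Nat.mul_mod, h, mul_zero, Nat.zero_mod] at hm
      exact absurd hm (by norm_num)
    · exact h
  rcases hd with hd | hd
  · exact BL.mem_list H1 r n d (by omega) hr2 hn2 hd hsq hU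
  · rcases Nat.lt_or_ge r 3 with h | h
    · have hr1 : r = 1 := by omega
      subst hr1
      -- `d = n² - 4`
      have hn3 : 3 ≤ n := by
        by_contra hcon
        have : n = 1 := by omega
        subst this
        omega
      obtain ⟨k, rfl⟩ : ∃ k, n = k + 2 := ⟨n - 2, by omega⟩
      apply BL.mem_list H1 k 1 d (by omega) (by omega) (by norm_num) _ hsq hU
      nlinarith
    · rcases Nat.lt_or_ge n 3 with h' | h'
      · have hn1 : n = 1 := by omega
        subst hn1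
        have hr5 : 5 ≤ r := by
          by_contra hcon
          have : r = 3 := by omega
          subst this
          omega
        obtain ⟨k, rfl⟩ : ∃ k, r = k + 4 := ⟨r - 4, by omega⟩
        apply BL.mem_list H1 k 1 d (by omega) (by omega) (by norm_num) _ hsq hU
        nlinarith
      · exact E1.mem_list H2 r n d h hr2 h' hn2 hd hsq hU

end Pool.Agent.Lib_helper5


end
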