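import Mathlib
import Pool.Agent.RQM.C09
import Pool.Agent.RQM.C11
import Pool.Agent.RQM.C12
import Pool.Agent.RQM.C13
import Pool.Agent.RQM.C14

/-! Parts: Lib_helper4.KBL, Lib_helper4.KCls, Lib_helper4.KD_B, Lib_helper4.KD_E -/

namespace Pool.Agent.LibH4.Ker
end Pool.Agent.LibH4.Ker
namespace Pool.Agent.LibH4.T6
end Pool.Agent.LibH4.T6
namespace Pool.Agent.Lib_helper5
end Pool.Agent.Lib_helper5

section

/-!
The family `d = (an)² + 4a`: relations and final checks.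
-/

namespace Pool.Agent.LibH4.KF

open Finset Ker T6 Pool.Agent.Lib_helper5

/-- `an` modulo `N` -/
def bR (N a n : ℕ) : ℕ := Nat.mod (Nat.mul a n) N

/-- the form -/
def cfB : CF (ℕ × ℕ) := fun N c k => strict (bR N c.1 c.2) fun R => k c.1 R (Nat.sub N (nat_lit 1))

/-- the form with its weights -/
def formsB : List (WF (ℕ × ℕ)) := [(cfB, nat_lit 6, nat_lit 281474976710656, nat_lit 16777216)]

lemma repB {N : ℕ} [NeZero N] (a n : ℕ) : Rep cfB N (a % N, n % N) (a : ℤ) ((a : ℤ) * n) (-1) := by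
  refine ⟨a % N, bR N (a % N) (n % N), N - 1, ?_, ?_, ?_, ?_⟩
  · intro k
    unfold cfB
    rw [strict_eq]
    rfl
  · rw [ZMod.natCast_mod]; push_cast; rfl
  · have : bR N (a % N) (n % N) = (a % N * (n % N)) % N := rfl
    rw [this, ZMod.natCast_mod]
    push_cast
    rw [ZMod.natCast_mod, ZMod.natCast_mod]
  · rw [cast_pred]; push_cast; ring

/-- final check -/
def chkB (l e a n : ℕ) : Bool := strict e fun e => strict (Nat.mod (Nat.mul a n) l) fun an =>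
  Nat.beq (Nat.mod (Nat.add (dg (nat_lit 4) e (nat_lit 0)) (Nat.add (Nat.mul (Nat.sub l (nat_lit 1))
    (Nat.mul an (dg (nat_lit 4) e (nat_lit 1))))
      (Nat.mul n (dg (nat_lit 4) e (nat_lit 2))))) l) (nat_lit 0)

/-- the relation of the family -/
def RelB (a n q l : ℕ) [NeZero q] (chi : ZMod q → ZMod l) : Prop :=
  6 * XX chi (a : ℤ) ((a : ℤ) * n) (-1) - a * n * YX chi (a : ℤ) ((a : ℤ) * n) (-1) +
    n * YY chi (a : ℤ) ((a : ℤ) * n) (-1) = 0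

/-- all relations -/
def AllB (a n d : ℕ) : Prop := ∀ (q l : ℕ) [NeZero q], l.Prime → Nat.Coprime q d →
  ¬ l ∣ 6 → ¬ l ∣ d → ∀ chi : ZMod q → ZMod l, (∀ x, chi (-x) = - chi x) →
  (∀ x y, chi (x * y) = chi x * chi y) →
  (∑ u ∈ range q, (u : ZMod l) * chi (u : ZMod q) = 0) → RelB a n q l chi

theorem allB (a n : ℕ) (ha : 2 ≤ a) (ha2 : a % 2 = 1) (hn2 : n % 2 = 1)
    [IsDomain (QuadraticAlgebra ℤ (a : ℤ) (a * n))]
    [UniqueFactorizationMonoid (QuadraticAlgebra ℤ (a : ℤ) (a * n))]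
    {d : ℕ} (hd : (d : ℤ) = ((a : ℤ) * n) ^ 2 + 4 * a) : AllB a n d := by
  intro q l _ hl hco hl6 hld chi hodd hmul hsum
  have : Fact l.Prime := ⟨hl⟩
  have h := BL.T5 a n ha ha2 hn2 hd q l (Nat.pos_of_ne_zero (NeZero.ne q)) hco hl6 hld chi
    hodd hmul hsum
  rw [range_term, range_term] at h
  have s1 := XX_swap chi hodd (a : ℤ) ((a : ℤ) * n) (-1)
  have s2 := YX_swap chi hodd (a : ℤ) ((a : ℤ) * n) (-1)
  rw [neg_neg] at s1 s2
  rw [s1, s2] at h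
  unfold RelB
  linear_combination h

section EntryB

variable {n1 n2 l e1 e2 T1 T2 : ℕ} {L1 L2 : List (ℕ × ℕ)} [NeZero n1] [NeZero n2]
    [NeZero (n1 * n2)]

lemma entB_digits (H : Hyp n1 n2 l e1 e2 T1 T2 L1 L2) (c c2 : ℕ × ℕ) (h1 : CFok cfB n2 c2) :
    entA n1 n2 l e1 e2 T1 T2 L1 L2 formsB c c2 =
      6 * zW n1 n2 l T1 T2 L1 L2 (wD n1 n2 l e1 e2 T1 T2) cfB c c2 +
      2 ^ 24 * zW n1 n2 l T1 T2 L1 L2 (wE2 n1 n2 l e1 e2 T1 T2) cfB c c2 +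
      2 ^ 48 * zW n1 n2 l T1 T2 L1 L2 (wE1 n1 n2 l e1 e2 T1 T2) cfB c c2 ∧
    6 * zW n1 n2 l T1 T2 L1 L2 (wD n1 n2 l e1 e2 T1 T2) cfB c c2 < 2 ^ 24 ∧
    zW n1 n2 l T1 T2 L1 L2 (wE2 n1 n2 l e1 e2 T1 T2) cfB c c2 < 2 ^ 24 ∧
    zW n1 n2 l T1 T2 L1 L2 (wE1 n1 n2 l e1 e2 T1 T2) cfB c c2 < 2 ^ 24 := by
  have b1 := zW_lt (n1 := n1) (T1 := T1) (T2 := T2) (L1 := L1) (c := c) H.l3 H.l16 H.len2
    (wD n1 n2 l e1 e2 T1 T2) h1
  have b2 := zW_lt (n1 := n1) (T1 := T1) (T2 := T2) (L1 := L1) (c := c) H.l3 H.l16 H.len2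
    (wE1 n1 n2 l e1 e2 T1 T2) h1
  have b3 := zW_lt (n1 := n1) (T1 := T1) (T2 := T2) (L1 := L1) (c := c) H.l3 H.l16 H.len2
    (wE2 n1 n2 l e1 e2 T1 T2) h1
  refine ⟨?_, by norm_num; omega, by norm_num; omega, by norm_num; omega⟩
  unfold entA formsB
  simp only [List.map_cons, List.map_nil, List.sum_cons, List.sum_nil]
  unfold entF
  simp only
  ring

/-- **soundness** for the family `(an)² + 4a` -/
theorem soundB (H : Hyp n1 n2 l e1 e2 T1 T2 L1 L2) {W : ℕ} {D1 D2 : List (ℕ × ℕ)} {TB : ℕ}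
    {DRs : List ((ℕ × ℕ) × ℕ)} (hDR : DRs = DRstd n1 n2 l e1 e2 T1 T2 L1 L2)
    (hc : checkR W n1 n2 l T1 T2 DRs formsB L2 D1 D2 TB = true) {a n : ℕ}
    (hrel : RelB a n (n1 * n2) l (chiF n1 n2 l T1 T2)) {i j : ℕ} (hi : i < D1.length)
    (hj : j < D2.length) (h1 : D1[i] = (a % n1, n % n1)) (h2 : D2[j] = (a % n2, n % n2)) :
    chkB l (dg 12 (dg W TB i) j) (a % l) (n % l) = true := by
  have hok : ∀ (N : ℕ) (c : ℕ × ℕ), CFok cfB N c := by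
    intro N c
    refine ⟨c.1, bR N c.1 c.2, N - 1, ?_⟩
    intro k
    unfold cfB
    rw [strict_eq]
    rfl
  rw [checkR_spec H.l3 H.l16 H.qle H.len1 hDR ?_ ?_ hc i j hi hj, h1, h2]
  · obtain ⟨e, l0, l1, l2⟩ := entB_digits H (a % n1, n % n1) (a % n2, n % n2) (hok _ _)
    have hlpos : 1 ≤ l := by have := H.l3; omega
    obtain ⟨g0, g1, g2⟩ := red_digits hlpos H.l16 l0 l1 l2
    unfold chkB
    rw [strict_eq, strict_eq, e]
    change Nat.beq ((dg 4 _ 0 + ((l - 1) * ((a % l * (n % l)) % l * dg 4 _ 1) +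
      n % l * dg 4 _ 2)) % l) 0 = true
    rw [g0, g1, g2, Nat.beq_eq, ← Nat.dvd_iff_mod_eq_zero, ← ZMod.natCast_eq_zero_iff]
    have r1 := repB (N := n1) a n
    have r2 := repB (N := n2) a n
    push_cast [Nat.cast_sub hlpos]
    simp only [ZMod.natCast_mod]
    push_cast
    rw [z0_cast H r1 r2, z1_cast H r1 r2, z2_cast H r1 r2]
    rw [ZMod.natCast_self]
    simp only [ZMod.natCast_mod]
    unfold RelB at hrel
    linear_combination hrel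
  · intro c _ f hf
    unfold formsB at hf
    simp only [List.mem_cons, List.not_mem_nil, or_false] at hf
    rw [hf]
    exact hok _ _
  · intro c _ c2 _
    obtain ⟨e, l0, l1, l2⟩ := entB_digits H c c2 (hok _ _)
    rw [e]
    norm_num at l0 l1 l2 ⊢
    omega

end EntryB

end Pool.Agent.LibH4.KF


end

section

/-!
Classes of parameters for the families `(an)² ∓ 4a`.
-/

namespace Pool.Agent.LibH4.KF

open Finset Ker T6 Pool.Agent.Lib_helper5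

/-- discriminant of the first family modulo `p` -/
def dE (p u v : ℕ) : ℕ := Nat.mod (Nat.add (Nat.mul (Nat.mul u v) (Nat.mul u v))
  (Nat.mul (Nat.sub p (nat_lit 1)) (Nat.mul (nat_lit 4) u))) p
/-- discriminant of the second family modulo `p` -/
def dB (p u v : ℕ) : ℕ := Nat.mod (Nat.add (Nat.mul (Nat.mul u v) (Nat.mul u v))
  (Nat.mul (nat_lit 4) u)) p
/-- not a square modulo `p` -/
def nsq (p d : ℕ) : Bool :=
  allR (fun x => @Bool.rec (fun _ => Bool) true false (Nat.beq (Nat.mod (Nat.mul x x) p) d)) p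
/-- inert classes -/
def clE (p u v : ℕ) : Bool := strict (dE p u v) fun d => nsq p d
/-- inert classes -/
def clB (p u v : ℕ) : Bool := strict (dB p u v) fun d => nsq p d
/-- odd classes -/
def cl2 (u v : ℕ) : Bool := Nat.beq (Nat.mod (Nat.mul u v) (nat_lit 2)) (nat_lit 1)
/-- classes with prescribed first entry -/
def spc (u0 : ℕ) (f : ℕ → ℕ → Bool) (u v : ℕ) : Bool :=
  @Bool.rec (fun _ => Bool) false (f u v) (Nat.beq u u0)

lemma nsq_of {p d e : ℕ} (hp : p.Prime) (he : (e : ZMod p) = d)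
    (hj : jacobiSym d p = -1) : nsq p e = true := by
  apply allR_of
  intro x hx
  have : Fact p.Prime := ⟨hp⟩
  have hne : ¬ (x * x % p = e) := by
    intro h
    rw [← jacobiSym.legendreSym.to_jacobiSym, legendreSym.eq_neg_one_iff] at hj
    apply hj
    refine ⟨(x : ZMod p), ?_⟩
    have h1 := congrArg (fun y : ℕ => (y : ZMod p)) h
    simp only [ZMod.natCast_mod] at h1
    push_cast at h1 ⊢
    rw [h1, he]
  cases hb : Nat.beq (Nat.mod (Nat.mul x x) p) e with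
  | false => rfl
  | true => exact absurd (Nat.eq_of_beq_eq_true hb) hne

lemma cast_mod {p n : ℕ} (hpn : p ∣ n) (a : ℕ) : ((a % n : ℕ) : ZMod p) = (a : ZMod p) := by
  rw [ZMod.natCast_eq_natCast_iff]
  exact (Nat.mod_modEq a n).of_dvd hpn

lemma clE_of {p n a t d : ℕ} (hp : p.Prime) (hpn : p ∣ n)
    (hd : (d : ℤ) = ((a : ℤ) * t) ^ 2 - 4 * a) (hj : jacobiSym d p = -1) :
    clE p (a % n) (t % n) = true := by
  unfold clE
  rw [strict_eq]
  have : NeZero p := ⟨hp.ne_zero⟩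
  have e : dE p (a % n) (t % n) = (a % n * (t % n) * (a % n * (t % n)) +
    (p - 1) * (4 * (a % n))) % p := rfl
  apply nsq_of hp _ hj
  rw [e, ZMod.natCast_mod]
  push_cast
  rw [cast_pred, cast_mod hpn, cast_mod hpn]
  have h2 := congrArg (fun x : ℤ => (x : ZMod p)) hd
  push_cast at h2
  rw [h2]
  ring

lemma clB_of {p n a t d : ℕ} (hp : p.Prime) (hpn : p ∣ n)
    (hd : (d : ℤ) = ((a : ℤ) * t) ^ 2 + 4 * a) (hj : jacobiSym d p = -1) :
    clB p (a % n) (t % n) = true := by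
  unfold clB
  rw [strict_eq]
  have e : dB p (a % n) (t % n) = (a % n * (t % n) * (a % n * (t % n)) + 4 * (a % n)) % p := rfl
  apply nsq_of hp _ hj
  rw [e, ZMod.natCast_mod]
  push_cast
  rw [cast_mod hpn, cast_mod hpn]
  have h2 := congrArg (fun x : ℤ => (x : ZMod p)) hd
  push_cast at h2
  rw [h2]
  ring

lemma cl2_of {n a t : ℕ} (h2n : 2 ∣ n) (ha : a % 2 = 1) (ht : t % 2 = 1) :
    cl2 (a % n) (t % n) = true := by
  unfold cl2
  rw [Nat.beq_eq]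
  change a % n * (t % n) % 2 = 1
  rw [Nat.mul_mod, Nat.mod_mod_of_dvd _ h2n, Nat.mod_mod_of_dvd _ h2n, ha, ht]

lemma spc_of {u0 u v : ℕ} {f : ℕ → ℕ → Bool} (h : f u v = true) (hu : u = u0) :
    spc u0 f u v = true := by
  unfold spc
  rw [hu, Nat.beq_refl, ← hu]
  exact h

lemma nd_of {p d : ℕ} (hp : p.Prime) (hj : jacobiSym d p = -1) : ¬ p ∣ d := by
  intro hdvd
  have : jacobiSym d p = 0 := by
    rw [jacobiSym.eq_zero_iff]
    refine ⟨hp.ne_zero, ?_⟩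
    rw [Int.gcd_natCast_natCast, Nat.gcd_eq_right hdvd]
    exact hp.one_lt.ne'
  rw [this] at hj
  norm_num at hj

lemma cop_of {p k d : ℕ} (hp : p.Prime) (h : ¬ p ∣ d) : Nat.Coprime (p ^ k) d :=
  ((Nat.Prime.coprime_iff_not_dvd hp).mpr h).pow_left k

lemma d2_E {a t d : ℕ} (hd : (d : ℤ) = ((a : ℤ) * t) ^ 2 - 4 * a) (ha : a % 2 = 1)
    (ht : t % 2 = 1) : ¬ 2 ∣ d := by
  intro h
  have h1 : (((a : ℤ) * t) ^ 2) % 2 = 1 := by
    have e1 : (a : ℤ) % 2 = 1 := by omega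
    have e2 : (t : ℤ) % 2 = 1 := by omega
    rw [sq, Int.mul_emod, Int.mul_emod (a : ℤ) t 2, e1, e2]
    norm_num
  omega

lemma d2_B {a t d : ℕ} (hd : (d : ℤ) = ((a : ℤ) * t) ^ 2 + 4 * a) (ha : a % 2 = 1)
    (ht : t % 2 = 1) : ¬ 2 ∣ d := by
  intro h
  have h1 : (((a : ℤ) * t) ^ 2) % 2 = 1 := by
    have e1 : (a : ℤ) % 2 = 1 := by omega
    have e2 : (t : ℤ) % 2 = 1 := by omega
    rw [sq, Int.mul_emod, Int.mul_emod (a : ℤ) t 2, e1, e2]
    norm_num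
  omega

section Rel

variable {n1 n2 l e1 e2 T1 T2 : ℕ} {L1 L2 : List (ℕ × ℕ)} [NeZero n1] [NeZero n2]
    [NeZero (n1 * n2)]

lemma chkE_of (H : Hyp n1 n2 l e1 e2 T1 T2 L1 L2) {W : ℕ} {D1 D2 : List (ℕ × ℕ)} {TB : ℕ}
    {DRs : List ((ℕ × ℕ) × ℕ)} (hDR : DRs = DRstd n1 n2 l e1 e2 T1 T2 L1 L2)
    (hc : checkR W n1 n2 l T1 T2 DRs formsE L2 D1 D2 TB = true) {a n d : ℕ}
    (hT : AllE a n d) (hl : l.Prime) (hl6 : ¬ l ∣ 6) (hco : Nat.Coprime (n1 * n2) d)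
    (hld : ¬ l ∣ d) {i j : ℕ} (hi : i < D1.length)
    (hj : j < D2.length) (h1 : D1[i] = (a % n1, n % n1)) (h2 : D2[j] = (a % n2, n % n2)) :
    chkE l (dg 12 (dg W TB i) j) (a % l) (n % l) = true :=
  soundE H hDR hc (hT (n1 * n2) l hl hco hl6 hld _ (chiF_neg H) (chiF_mul H) (chiF_bern H))
    hi hj h1 h2

lemma chkB_of (H : Hyp n1 n2 l e1 e2 T1 T2 L1 L2) {W : ℕ} {D1 D2 : List (ℕ × ℕ)} {TB : ℕ}
    {DRs : List ((ℕ × ℕ) × ℕ)} (hDR : DRs = DRstd n1 n2 l e1 e2 T1 T2 L1 L2)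
    (hc : checkR W n1 n2 l T1 T2 DRs formsB L2 D1 D2 TB = true) {a n d : ℕ}
    (hT : AllB a n d) (hl : l.Prime) (hl6 : ¬ l ∣ 6) (hco : Nat.Coprime (n1 * n2) d)
    (hld : ¬ l ∣ d) {i j : ℕ} (hi : i < D1.length)
    (hj : j < D2.length) (h1 : D1[i] = (a % n1, n % n1)) (h2 : D2[j] = (a % n2, n % n2)) :
    chkB l (dg 12 (dg W TB i) j) (a % l) (n % l) = true :=
  soundB H hDR hc (hT (n1 * n2) l hl hco hl6 hld _ (chiF_neg H) (chiF_mul H) (chiF_bern H))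
    hi hj h1 h2

end Rel

lemma allI_get {α : Type} {p : ℕ → α → Bool} {L : List α} (h : allI p L 0 = true)
    {j : ℕ} (hj : j < L.length) : p j L[j] = true := by
  have := allI_spec h j hj
  rw [zero_add] at this
  exact this

lemma allI_take {α : Type} {p : ℕ → α → Bool} {L : List α} {k s : ℕ}
    (h : allI p ((L.drop k).take s) k = true) {i : ℕ} (hi : i < L.length) (h1 : k ≤ i)
    (h2 : i < k + s) : p i L[i] = true := by
  have hlen : i - k < ((L.drop k).take s).length := by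
    rw [List.length_take, List.length_drop]
    omega
  have h3 := allI_spec h (i - k) hlen
  have e : ((L.drop k).take s)[i - k] = L[i] := by
    rw [List.getElem_take, List.getElem_drop]
    congr 1
    omega
  rw [e] at h3
  have e2 : k + (i - k) = i := by omega
  rw [e2] at h3
  exact h3

end Pool.Agent.LibH4.KF


end

section

/-! generated data -/

namespace Pool.Agent.LibH4.KF

open Ker T6

/-- classes -/
def CB_16 : List (ℕ × ℕ) := [((nat_lit 1), (nat_lit 1)),((nat_lit 1), (nat_lit 3)),((nat_lit 1), (nat_lit 5)),((nat_lit 1), (nat_lit 7)),((nat_lit 1), (nat_lit 9)),((nat_lit 1), (nat_lit 11)),((nat_lit 1), (nat_lit 13)),((nat_lit 1), (nat_lit 15)),((nat_lit 3), (nat_lit 1)),((nat_lit 3), (nat_lit 3)),((nat_lit 3), (nat_lit 5)),((nat_lit 3), (nat_lit 7)),((nat_lit 3), (nat_lit 9)),((nat_lit 3), (nat_lit 11)),((nat_lit 3), (nat_lit 13)),((nat_lit 3), (nat_lit 15)),((nat_lit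 5), (nat_lit 1)),((nat_lit 5), (nat_lit 3)),((nat_lit 5), (nat_lit 5)),((nat_lit 5), (nat_lit 7)),((nat_lit 5), (nat_lit 9)),((nat_lit 5), (nat_lit 11)),((nat_lit 5), (nat_lit 13)),((nat_lit 5), (nat_lit 15)),((nat_lit 7), (nat_lit 1)),((nat_lit 7), (nat_lit 3)),((nat_lit 7), (nat_lit 5)),((nat_lit 7), (nat_lit 7)),((nat_lit 7), (nat_lit 9)),((nat_lit 7), (nat_lit 11)),((nat_lit 7), (nat_lit 13)),((nat_lit 7), (nat_lit 15)),((nat_lit 9), (nat_lit 1)),((nat_lit 9), (nat_lit 3)),((nat_lit 9), (nat_lit 5)),((nat_lit 9), (nat_lit 7)),((nat_lit 9), (nat_lit 9)),((nat_lit 9), (nat_lit 11)),((nat_lit 9), (nat_lit 13)),((nat_lit 9), (nat_lit 15)),((nat_lit 11), (nat_lit 1)),((nat_lit 11), (nat_lit 3)),((nat_lit 11), (nat_lit 5)),((nat_lit 11), (nat_lit 7)),((nat_lit 11), (nat_lit 9)),((nat_lit 11), (nat_lit 11)),((nat_lit 11), (nat_lit 13)),((nat_lit 11), (nat_lit 15)),((nat_lit 13),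 (nat_lit 1)),((nat_lit 13), (nat_lit 3)),((nat_lit 13), (nat_lit 5)),((nat_lit 13), (nat_lit 7)),((nat_lit 13), (nat_lit 9)),((nat_lit 13), (nat_lit 11)),((nat_lit 13), (nat_lit 13)),((nat_lit 13), (nat_lit 15)),((nat_lit 15), (nat_lit 1)),((nat_lit 15), (nat_lit 3)),((nat_lit 15), (nat_lit 5)),((nat_lit 15), (nat_lit 7)),((nat_lit 15), (nat_lit 9)),((nat_lit 15), (nat_lit 11)),((nat_lit 15), (nat_lit 13)),((nat_lit 15), (nat_lit 15))]

lemma memB_16 : memCheck (nat_lit 16) cl2 CB_16 = true := by decide +kernel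

/-- classes -/
def CB_13 : List (ℕ × ℕ) := [((nat_lit 1), (nat_lit 1)),((nat_lit 1), (nat_lit 2)),((nat_lit 1), (nat_lit 4)),((nat_lit 1), (nat_lit 9)),((nat_lit 1), (nat_lit 11)),((nat_lit 1), (nat_lit 12)),((nat_lit 2), (nat_lit 0)),((nat_lit 2), (nat_lit 2)),((nat_lit 2), (nat_lit 3)),((nat_lit 2), (nat_lit 4)),((nat_lit 2), (nat_lit 9)),((nat_lit 2), (nat_lit 10)),((nat_lit 2), (nat_lit 11)),((nat_lit 3), (nat_lit 1)),((nat_lit 3), (nat_lit 3)),((nat_lit 3), (nat_lit 6)),((nat_lit 3), (nat_lit 7)),((nat_lit 3), (nat_lit 10)),((nat_lit 3), (nat_lit 12)),((nat_lit 4), (nat_lit 1)),((nat_lit 4), (nat_lit 2)),((nat_lit 4), (nat_lit 6)),((nat_lit 4), (nat_lit 7)),((nat_lit 4), (nat_lit 11)),((nat_lit 4), (nat_lit 12)),((nat_lit 5), (nat_lit 0)),((nat_lit 5), (nat_lit 1)),((nat_lit 5), (nat_lit 3)),((nat_lit 5), (nat_lit 5)),((nat_lit 5), (nat_lit 8)),((nat_lit 5), (nat_lit 10)),((nat_lit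 5), (nat_lit 12)),((nat_lit 6), (nat_lit 0)),((nat_lit 6), (nat_lit 1)),((nat_lit 6), (nat_lit 4)),((nat_lit 6), (nat_lit 6)),((nat_lit 6), (nat_lit 7)),((nat_lit 6), (nat_lit 9)),((nat_lit 6), (nat_lit 12)),((nat_lit 7), (nat_lit 0)),((nat_lit 7), (nat_lit 4)),((nat_lit 7), (nat_lit 5)),((nat_lit 7), (nat_lit 6)),((nat_lit 7), (nat_lit 7)),((nat_lit 7), (nat_lit 8)),((nat_lit 7), (nat_lit 9)),((nat_lit 8), (nat_lit 0)),((nat_lit 8), (nat_lit 1)),((nat_lit 8), (nat_lit 2)),((nat_lit 8), (nat_lit 5)),((nat_lit 8), (nat_lit 8)),((nat_lit 8), (nat_lit 11)),((nat_lit 8), (nat_lit 12)),((nat_lit 9), (nat_lit 3)),((nat_lit 9), (nat_lit 4)),((nat_lit 9), (nat_lit 5)),((nat_lit 9), (nat_lit 8)),((nat_lit 9), (nat_lit 9)),((nat_lit 9), (nat_lit 10)),((nat_lit 10), (nat_lit 2)),((nat_lit 10), (nat_lit 4)),((nat_lit 10), (nat_lit 5)),((nat_lit 10), (nat_lit 8)),((nat_lit 10), (nat_lit 9)),((nat_lit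 10), (nat_lit 11)),((nat_lit 11), (nat_lit 0)),((nat_lit 11), (nat_lit 2)),((nat_lit 11), (nat_lit 3)),((nat_lit 11), (nat_lit 6)),((nat_lit 11), (nat_lit 7)),((nat_lit 11), (nat_lit 10)),((nat_lit 11), (nat_lit 11)),((nat_lit 12), (nat_lit 3)),((nat_lit 12), (nat_lit 5)),((nat_lit 12), (nat_lit 6)),((nat_lit 12), (nat_lit 7)),((nat_lit 12), (nat_lit 8)),((nat_lit 12), (nat_lit 10))]

lemma memB_13 : memCheck (nat_lit 13) (clB (nat_lit 13)) CB_13 = true := by decide +kernel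

/-- classes -/
def CB_5 : List (ℕ × ℕ) := [((nat_lit 1), (nat_lit 2)),((nat_lit 1), (nat_lit 3)),((nat_lit 2), (nat_lit 0)),((nat_lit 2), (nat_lit 1)),((nat_lit 2), (nat_lit 4)),((nat_lit 3), (nat_lit 0)),((nat_lit 3), (nat_lit 2)),((nat_lit 3), (nat_lit 3)),((nat_lit 4), (nat_lit 1)),((nat_lit 4), (nat_lit 4))]

lemma memB_5 : memCheck (nat_lit 5) (clB (nat_lit 5)) CB_5 = true := by decide +kernel

/-- classes -/
def CB_7 : List (ℕ × ℕ) := [((nat_lit 1), (nat_lit 1)),((nat_lit 1), (nat_lit 3)),((nat_lit 1), (nat_lit 4)),((nat_lit 1), (nat_lit 6)),((nat_lit 2), (nat_lit 1)),((nat_lit 2), (nat_lit 2)),((nat_lit 2), (nat_lit 5)),((nat_lit 2), (nat_lit 6)),((nat_lit 3), (nat_lit 0)),((nat_lit 3), (nat_lit 2)),((nat_lit 3), (nat_lit 5)),((nat_lit 4), (nat_lit 2)),((nat_lit 4), (nat_lit 3)),((nat_lit 4), (nat_lit 4)),((nat_lit 4), (nat_lit 5)),((nat_lit 5), (nat_lit 0)),((nat_lit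 5), (nat_lit 1)),((nat_lit 5), (nat_lit 6)),((nat_lit 6), (nat_lit 0)),((nat_lit 6), (nat_lit 3)),((nat_lit 6), (nat_lit 4))]

lemma memB_7 : memCheck (nat_lit 7) (clB (nat_lit 7)) CB_7 = true := by decide +kernel

/-- classes -/
def CB_9 : List (ℕ × ℕ) := [((nat_lit 1), (nat_lit 1)),((nat_lit 1), (nat_lit 2)),((nat_lit 1), (nat_lit 4)),((nat_lit 1), (nat_lit 5)),((nat_lit 1), (nat_lit 7)),((nat_lit 1), (nat_lit 8)),((nat_lit 2), (nat_lit 0)),((nat_lit 2), (nat_lit 3)),((nat_lit 2), (nat_lit 6)),((nat_lit 4), (nat_lit 1)),((nat_lit 4), (nat_lit 2)),((nat_lit 4), (nat_lit 4)),((nat_lit 4), (nat_lit 5)),((nat_lit 4), (nat_lit 7)),((nat_lit 4), (nat_lit 8)),((nat_lit 5), (nat_lit 0)),((nat_lit 5), (nat_lit 3)),((nat_lit 5), (nat_lit 6)),((nat_lit 7), (nat_lit 1)),((nat_lit 7), (nat_lit 2)),((nat_lit 7), (nat_lit 4)),((nat_lit 7), (nat_lit 5)),((nat_lit 7), (nat_lit 7)),((nat_lit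 7), (nat_lit 8)),((nat_lit 8), (nat_lit 0)),((nat_lit 8), (nat_lit 3)),((nat_lit 8), (nat_lit 6))]

lemma memB_9 : memCheck (nat_lit 9) (clB (nat_lit 3)) CB_9 = true := by decide +kernel

/-- classes -/
def CB_11 : List (ℕ × ℕ) := [((nat_lit 1), (nat_lit 2)),((nat_lit 1), (nat_lit 3)),((nat_lit 1), (nat_lit 5)),((nat_lit 1), (nat_lit 6)),((nat_lit 1), (nat_lit 8)),((nat_lit 1), (nat_lit 9)),((nat_lit 2), (nat_lit 0)),((nat_lit 2), (nat_lit 2)),((nat_lit 2), (nat_lit 4)),((nat_lit 2), (nat_lit 7)),((nat_lit 2), (nat_lit 9)),((nat_lit 3), (nat_lit 1)),((nat_lit 3), (nat_lit 4)),((nat_lit 3), (nat_lit 5)),((nat_lit 3), (nat_lit 6)),((nat_lit 3), (nat_lit 7)),((nat_lit 3), (nat_lit 10)),((nat_lit 4), (nat_lit 1)),((nat_lit 4), (nat_lit 3)),((nat_lit 4), (nat_lit 4)),((nat_lit 4), (nat_lit 7)),((nat_lit 4), (nat_lit 8)),((nat_lit 4), (nat_lit 10)),((nat_lit 5), (nat_lit 2)),((nat_lit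 5), (nat_lit 4)),((nat_lit 5), (nat_lit 5)),((nat_lit 5), (nat_lit 6)),((nat_lit 5), (nat_lit 7)),((nat_lit 5), (nat_lit 9)),((nat_lit 6), (nat_lit 0)),((nat_lit 6), (nat_lit 3)),((nat_lit 6), (nat_lit 4)),((nat_lit 6), (nat_lit 7)),((nat_lit 6), (nat_lit 8)),((nat_lit 7), (nat_lit 0)),((nat_lit 7), (nat_lit 3)),((nat_lit 7), (nat_lit 5)),((nat_lit 7), (nat_lit 6)),((nat_lit 7), (nat_lit 8)),((nat_lit 8), (nat_lit 0)),((nat_lit 8), (nat_lit 1)),((nat_lit 8), (nat_lit 2)),((nat_lit 8), (nat_lit 9)),((nat_lit 8), (nat_lit 10)),((nat_lit 9), (nat_lit 1)),((nat_lit 9), (nat_lit 2)),((nat_lit 9), (nat_lit 3)),((nat_lit 9), (nat_lit 8)),((nat_lit 9), (nat_lit 9)),((nat_lit 9), (nat_lit 10)),((nat_lit 10), (nat_lit 0)),((nat_lit 10), (nat_lit 1)),((nat_lit 10), (nat_lit 5)),((nat_lit 10), (nat_lit 6)),((nat_lit 10), (nat_lit 10))]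

lemma memB_11 : memCheck (nat_lit 11) (clB (nat_lit 11)) CB_11 = true := by decide +kernel

/-- classes -/
def CB_17 : List (ℕ × ℕ) := [((nat_lit 1), (nat_lit 1)),((nat_lit 1), (nat_lit 4)),((nat_lit 1), (nat_lit 5)),((nat_lit 1), (nat_lit 6)),((nat_lit 1), (nat_lit 11)),((nat_lit 1), (nat_lit 12)),((nat_lit 1), (nat_lit 13)),((nat_lit 1), (nat_lit 16)),((nat_lit 2), (nat_lit 1)),((nat_lit 2), (nat_lit 2)),((nat_lit 2), (nat_lit 3)),((nat_lit 2), (nat_lit 5)),((nat_lit 2), (nat_lit 12)),((nat_lit 2), (nat_lit 14)),((nat_lit 2), (nat_lit 15)),((nat_lit 2), (nat_lit 16)),((nat_lit 3), (nat_lit 0)),((nat_lit 3), (nat_lit 2)),((nat_lit 3), (nat_lit 4)),((nat_lit 3), (nat_lit 7)),((nat_lit 3), (nat_lit 8)),((nat_lit 3), (nat_lit 9)),((nat_lit 3), (nat_lit 10)),((nat_lit 3), (nat_lit 13)),((nat_lit 3), (nat_lit 15)),((nat_lit 4), (nat_lit 2)),((nat_lit 4), (nat_lit 3)),((nat_lit 4),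 (nat_lit 6)),((nat_lit 4), (nat_lit 8)),((nat_lit 4), (nat_lit 9)),((nat_lit 4), (nat_lit 11)),((nat_lit 4), (nat_lit 14)),((nat_lit 4), (nat_lit 15)),((nat_lit 5), (nat_lit 0)),((nat_lit 5), (nat_lit 1)),((nat_lit 5), (nat_lit 3)),((nat_lit 5), (nat_lit 4)),((nat_lit 5), (nat_lit 8)),((nat_lit 5), (nat_lit 9)),((nat_lit 5), (nat_lit 13)),((nat_lit 5), (nat_lit 14)),((nat_lit 5), (nat_lit 16)),((nat_lit 6), (nat_lit 0)),((nat_lit 6), (nat_lit 4)),((nat_lit 6), (nat_lit 5)),((nat_lit 6), (nat_lit 6)),((nat_lit 6), (nat_lit 7)),((nat_lit 6), (nat_lit 10)),((nat_lit 6), (nat_lit 11)),((nat_lit 6), (nat_lit 12)),((nat_lit 6), (nat_lit 13)),((nat_lit 7), (nat_lit 0)),((nat_lit 7), (nat_lit 2)),((nat_lit 7), (nat_lit 3)),((nat_lit 7), (nat_lit 5)),((nat_lit 7), (nat_lit 6)),((nat_lit 7), (nat_lit 11)),((nat_lit 7), (nat_lit 12)),((nat_lit 7), (nat_lit 14)),((nat_lit 7), (nat_lit 15)),((nat_lit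 8), (nat_lit 1)),((nat_lit 8), (nat_lit 6)),((nat_lit 8), (nat_lit 7)),((nat_lit 8), (nat_lit 8)),((nat_lit 8), (nat_lit 9)),((nat_lit 8), (nat_lit 10)),((nat_lit 8), (nat_lit 11)),((nat_lit 8), (nat_lit 16)),((nat_lit 9), (nat_lit 2)),((nat_lit 9), (nat_lit 4)),((nat_lit 9), (nat_lit 6)),((nat_lit 9), (nat_lit 7)),((nat_lit 9), (nat_lit 10)),((nat_lit 9), (nat_lit 11)),((nat_lit 9), (nat_lit 13)),((nat_lit 9), (nat_lit 15)),((nat_lit 10), (nat_lit 0)),((nat_lit 10), (nat_lit 3)),((nat_lit 10), (nat_lit 5)),((nat_lit 10), (nat_lit 7)),((nat_lit 10), (nat_lit 8)),((nat_lit 10), (nat_lit 9)),((nat_lit 10), (nat_lit 10)),((nat_lit 10), (nat_lit 12)),((nat_lit 10), (nat_lit 14)),((nat_lit 11), (nat_lit 0)),((nat_lit 11), (nat_lit 1)),((nat_lit 11), (nat_lit 3)),((nat_lit 11), (nat_lit 6)),((nat_lit 11), (nat_lit 7)),((nat_lit 11), (nat_lit 10)),((nat_lit 11), (nat_lit 11)),((nat_lit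 11), (nat_lit 14)),((nat_lit 11), (nat_lit 16)),((nat_lit 12), (nat_lit 0)),((nat_lit 12), (nat_lit 1)),((nat_lit 12), (nat_lit 2)),((nat_lit 12), (nat_lit 4)),((nat_lit 12), (nat_lit 5)),((nat_lit 12), (nat_lit 12)),((nat_lit 12), (nat_lit 13)),((nat_lit 12), (nat_lit 15)),((nat_lit 12), (nat_lit 16)),((nat_lit 13), (nat_lit 2)),((nat_lit 13), (nat_lit 5)),((nat_lit 13), (nat_lit 7)),((nat_lit 13), (nat_lit 8)),((nat_lit 13), (nat_lit 9)),((nat_lit 13), (nat_lit 10)),((nat_lit 13), (nat_lit 12)),((nat_lit 13), (nat_lit 15)),((nat_lit 14), (nat_lit 0)),((nat_lit 14), (nat_lit 1)),((nat_lit 14), (nat_lit 2)),((nat_lit 14), (nat_lit 6)),((nat_lit 14), (nat_lit 8)),((nat_lit 14), (nat_lit 9)),((nat_lit 14), (nat_lit 11)),((nat_lit 14), (nat_lit 15)),((nat_lit 14), (nat_lit 16)),((nat_lit 15), (nat_lit 3)),((nat_lit 15), (nat_lit 4)),((nat_lit 15), (nat_lit 5)),((nat_lit 15), (nat_lit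 8)),((nat_lit 15), (nat_lit 9)),((nat_lit 15), (nat_lit 12)),((nat_lit 15), (nat_lit 13)),((nat_lit 15), (nat_lit 14)),((nat_lit 16), (nat_lit 1)),((nat_lit 16), (nat_lit 3)),((nat_lit 16), (nat_lit 4)),((nat_lit 16), (nat_lit 7)),((nat_lit 16), (nat_lit 10)),((nat_lit 16), (nat_lit 13)),((nat_lit 16), (nat_lit 14)),((nat_lit 16), (nat_lit 16))]

lemma memB_17 : memCheck (nat_lit 17) (clB (nat_lit 17)) CB_17 = true := by decide +kernel

/-- classes -/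
def CB_19 : List (ℕ × ℕ) := [((nat_lit 1), (nat_lit 2)),((nat_lit 1), (nat_lit 3)),((nat_lit 1), (nat_lit 5)),((nat_lit 1), (nat_lit 6)),((nat_lit 1), (nat_lit 7)),((nat_lit 1), (nat_lit 12)),((nat_lit 1), (nat_lit 13)),((nat_lit 1), (nat_lit 14)),((nat_lit 1), (nat_lit 16)),((nat_lit 1), (nat_lit 17)),((nat_lit 2), (nat_lit 0)),((nat_lit 2), (nat_lit 1)),((nat_lit 2), (nat_lit 4)),((nat_lit 2), (nat_lit 5)),((nat_lit 2), (nat_lit 7)),((nat_lit 2), (nat_lit 12)),((nat_lit 2), (nat_lit 14)),((nat_lit 2), (nat_lit 15)),((nat_lit 2), (nat_lit 18)),((nat_lit 3), (nat_lit 0)),((nat_lit 3), (nat_lit 1)),((nat_lit 3), (nat_lit 2)),((nat_lit 3), (nat_lit 6)),((nat_lit 3), (nat_lit 8)),((nat_lit 3), (nat_lit 11)),((nat_lit 3), (nat_lit 13)),((nat_lit 3), (nat_lit 17)),((nat_lit 3), (nat_lit 18)),((nat_lit 4), (nat_lit 1)),((nat_lit 4), (nat_lit 3)),((nat_lit 4), (nat_lit 6)),((nat_lit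 4), (nat_lit 7)),((nat_lit 4), (nat_lit 8)),((nat_lit 4), (nat_lit 11)),((nat_lit 4), (nat_lit 12)),((nat_lit 4), (nat_lit 13)),((nat_lit 4), (nat_lit 16)),((nat_lit 4), (nat_lit 18)),((nat_lit 5), (nat_lit 4)),((nat_lit 5), (nat_lit 5)),((nat_lit 5), (nat_lit 6)),((nat_lit 5), (nat_lit 7)),((nat_lit 5), (nat_lit 9)),((nat_lit 5), (nat_lit 10)),((nat_lit 5), (nat_lit 12)),((nat_lit 5), (nat_lit 13)),((nat_lit 5), (nat_lit 14)),((nat_lit 5), (nat_lit 15)),((nat_lit 6), (nat_lit 1)),((nat_lit 6), (nat_lit 5)),((nat_lit 6), (nat_lit 7)),((nat_lit 6), (nat_lit 8)),((nat_lit 6), (nat_lit 9)),((nat_lit 6), (nat_lit 10)),((nat_lit 6), (nat_lit 11)),((nat_lit 6), (nat_lit 12)),((nat_lit 6), (nat_lit 14)),((nat_lit 6), (nat_lit 18)),((nat_lit 7), (nat_lit 2)),((nat_lit 7), (nat_lit 3)),((nat_lit 7), (nat_lit 4)),((nat_lit 7), (nat_lit 5)),((nat_lit 7), (nat_lit 8)),((nat_lit 7), (nat_lit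 11)),((nat_lit 7), (nat_lit 14)),((nat_lit 7), (nat_lit 15)),((nat_lit 7), (nat_lit 16)),((nat_lit 7), (nat_lit 17)),((nat_lit 8), (nat_lit 0)),((nat_lit 8), (nat_lit 2)),((nat_lit 8), (nat_lit 6)),((nat_lit 8), (nat_lit 7)),((nat_lit 8), (nat_lit 9)),((nat_lit 8), (nat_lit 10)),((nat_lit 8), (nat_lit 12)),((nat_lit 8), (nat_lit 13)),((nat_lit 8), (nat_lit 17)),((nat_lit 9), (nat_lit 1)),((nat_lit 9), (nat_lit 2)),((nat_lit 9), (nat_lit 4)),((nat_lit 9), (nat_lit 7)),((nat_lit 9), (nat_lit 8)),((nat_lit 9), (nat_lit 11)),((nat_lit 9), (nat_lit 12)),((nat_lit 9), (nat_lit 15)),((nat_lit 9), (nat_lit 17)),((nat_lit 9), (nat_lit 18)),((nat_lit 10), (nat_lit 0)),((nat_lit 10), (nat_lit 2)),((nat_lit 10), (nat_lit 5)),((nat_lit 10), (nat_lit 8)),((nat_lit 10), (nat_lit 9)),((nat_lit 10), (nat_lit 10)),((nat_lit 10), (nat_lit 11)),((nat_lit 10), (nat_lit 14)),((nat_lit 10), (nat_lit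 17)),((nat_lit 11), (nat_lit 1)),((nat_lit 11), (nat_lit 2)),((nat_lit 11), (nat_lit 3)),((nat_lit 11), (nat_lit 5)),((nat_lit 11), (nat_lit 9)),((nat_lit 11), (nat_lit 10)),((nat_lit 11), (nat_lit 14)),((nat_lit 11), (nat_lit 16)),((nat_lit 11), (nat_lit 17)),((nat_lit 11), (nat_lit 18)),((nat_lit 12), (nat_lit 0)),((nat_lit 12), (nat_lit 1)),((nat_lit 12), (nat_lit 3)),((nat_lit 12), (nat_lit 4)),((nat_lit 12), (nat_lit 9)),((nat_lit 12), (nat_lit 10)),((nat_lit 12), (nat_lit 15)),((nat_lit 12), (nat_lit 16)),((nat_lit 12), (nat_lit 18)),((nat_lit 13), (nat_lit 0)),((nat_lit 13), (nat_lit 1)),((nat_lit 13), (nat_lit 3)),((nat_lit 13), (nat_lit 5)),((nat_lit 13), (nat_lit 6)),((nat_lit 13), (nat_lit 13)),((nat_lit 13), (nat_lit 14)),((nat_lit 13), (nat_lit 16)),((nat_lit 13), (nat_lit 18)),((nat_lit 14), (nat_lit 0)),((nat_lit 14), (nat_lit 3)),((nat_lit 14), (nat_lit 7)),((nat_lit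 14), (nat_lit 8)),((nat_lit 14), (nat_lit 9)),((nat_lit 14), (nat_lit 10)),((nat_lit 14), (nat_lit 11)),((nat_lit 14), (nat_lit 12)),((nat_lit 14), (nat_lit 16)),((nat_lit 15), (nat_lit 0)),((nat_lit 15), (nat_lit 2)),((nat_lit 15), (nat_lit 3)),((nat_lit 15), (nat_lit 4)),((nat_lit 15), (nat_lit 7)),((nat_lit 15), (nat_lit 12)),((nat_lit 15), (nat_lit 15)),((nat_lit 15), (nat_lit 16)),((nat_lit 15), (nat_lit 17)),((nat_lit 16), (nat_lit 3)),((nat_lit 16), (nat_lit 4)),((nat_lit 16), (nat_lit 6)),((nat_lit 16), (nat_lit 8)),((nat_lit 16), (nat_lit 9)),((nat_lit 16), (nat_lit 10)),((nat_lit 16), (nat_lit 11)),((nat_lit 16), (nat_lit 13)),((nat_lit 16), (nat_lit 15)),((nat_lit 16), (nat_lit 16)),((nat_lit 17), (nat_lit 1)),((nat_lit 17), (nat_lit 2)),((nat_lit 17), (nat_lit 4)),((nat_lit 17), (nat_lit 6)),((nat_lit 17), (nat_lit 9)),((nat_lit 17), (nat_lit 10)),((nat_lit 17), (nat_lit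 13)),((nat_lit 17), (nat_lit 15)),((nat_lit 17), (nat_lit 17)),((nat_lit 17), (nat_lit 18)),((nat_lit 18), (nat_lit 0)),((nat_lit 18), (nat_lit 4)),((nat_lit 18), (nat_lit 5)),((nat_lit 18), (nat_lit 6)),((nat_lit 18), (nat_lit 8)),((nat_lit 18), (nat_lit 11)),((nat_lit 18), (nat_lit 13)),((nat_lit 18), (nat_lit 14)),((nat_lit 18), (nat_lit 15))]

lemma memB_19 : memCheck (nat_lit 19) (clB (nat_lit 19)) CB_19 = true := by decide +kernel

end Pool.Agent.LibH4.KF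


end

section

/-! generated data -/

namespace Pool.Agent.LibH4.KF

open Ker T6

/-- classes -/
def CE_16 : List (ℕ × ℕ) := [((nat_lit 1), (nat_lit 1)),((nat_lit 1), (nat_lit 3)),((nat_lit 1), (nat_lit 5)),((nat_lit 1), (nat_lit 7)),((nat_lit 1), (nat_lit 9)),((nat_lit 1), (nat_lit 11)),((nat_lit 1), (nat_lit 13)),((nat_lit 1), (nat_lit 15)),((nat_lit 3), (nat_lit 1)),((nat_lit 3), (nat_lit 3)),((nat_lit 3), (nat_lit 5)),((nat_lit 3), (nat_lit 7)),((nat_lit 3), (nat_lit 9)),((nat_lit 3), (nat_lit 11)),((nat_lit 3), (nat_lit 13)),((nat_lit 3), (nat_lit 15)),((nat_lit 5), (nat_lit 1)),((nat_lit 5), (nat_lit 3)),((nat_lit 5), (nat_lit 5)),((nat_lit 5), (nat_lit 7)),((nat_lit 5), (nat_lit 9)),((nat_lit 5), (nat_lit 11)),((nat_lit 5), (nat_lit 13)),((nat_lit 5), (nat_lit 15)),((nat_lit 7), (nat_lit 1)),((nat_lit 7), (nat_lit 3)),((nat_lit 7), (nat_lit 5)),((nat_lit 7), (nat_lit 7)),((nat_lit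 7), (nat_lit 9)),((nat_lit 7), (nat_lit 11)),((nat_lit 7), (nat_lit 13)),((nat_lit 7), (nat_lit 15)),((nat_lit 9), (nat_lit 1)),((nat_lit 9), (nat_lit 3)),((nat_lit 9), (nat_lit 5)),((nat_lit 9), (nat_lit 7)),((nat_lit 9), (nat_lit 9)),((nat_lit 9), (nat_lit 11)),((nat_lit 9), (nat_lit 13)),((nat_lit 9), (nat_lit 15)),((nat_lit 11), (nat_lit 1)),((nat_lit 11), (nat_lit 3)),((nat_lit 11), (nat_lit 5)),((nat_lit 11), (nat_lit 7)),((nat_lit 11), (nat_lit 9)),((nat_lit 11), (nat_lit 11)),((nat_lit 11), (nat_lit 13)),((nat_lit 11), (nat_lit 15)),((nat_lit 13), (nat_lit 1)),((nat_lit 13), (nat_lit 3)),((nat_lit 13), (nat_lit 5)),((nat_lit 13), (nat_lit 7)),((nat_lit 13), (nat_lit 9)),((nat_lit 13), (nat_lit 11)),((nat_lit 13), (nat_lit 13)),((nat_lit 13), (nat_lit 15)),((nat_lit 15), (nat_lit 1)),((nat_lit 15), (nat_lit 3)),((nat_lit 15), (nat_lit 5)),((nat_lit 15), (nat_lit 7)),((nat_lit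 15), (nat_lit 9)),((nat_lit 15), (nat_lit 11)),((nat_lit 15), (nat_lit 13)),((nat_lit 15), (nat_lit 15))]

lemma memE_16 : memCheck (nat_lit 16) cl2 CE_16 = true := by decide +kernel

/-- classes -/
def CE_13 : List (ℕ × ℕ) := [((nat_lit 1), (nat_lit 3)),((nat_lit 1), (nat_lit 5)),((nat_lit 1), (nat_lit 6)),((nat_lit 1), (nat_lit 7)),((nat_lit 1), (nat_lit 8)),((nat_lit 1), (nat_lit 10)),((nat_lit 2), (nat_lit 0)),((nat_lit 2), (nat_lit 2)),((nat_lit 2), (nat_lit 3)),((nat_lit 2), (nat_lit 6)),((nat_lit 2), (nat_lit 7)),((nat_lit 2), (nat_lit 10)),((nat_lit 2), (nat_lit 11)),((nat_lit 3), (nat_lit 2)),((nat_lit 3), (nat_lit 4)),((nat_lit 3), (nat_lit 5)),((nat_lit 3), (nat_lit 8)),((nat_lit 3), (nat_lit 9)),((nat_lit 3), (nat_lit 11)),((nat_lit 4), (nat_lit 3)),((nat_lit 4), (nat_lit 4)),((nat_lit 4), (nat_lit 5)),((nat_lit 4), (nat_lit 8)),((nat_lit 4), (nat_lit 9)),((nat_lit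 4), (nat_lit 10)),((nat_lit 5), (nat_lit 0)),((nat_lit 5), (nat_lit 1)),((nat_lit 5), (nat_lit 2)),((nat_lit 5), (nat_lit 5)),((nat_lit 5), (nat_lit 8)),((nat_lit 5), (nat_lit 11)),((nat_lit 5), (nat_lit 12)),((nat_lit 6), (nat_lit 0)),((nat_lit 6), (nat_lit 4)),((nat_lit 6), (nat_lit 5)),((nat_lit 6), (nat_lit 6)),((nat_lit 6), (nat_lit 7)),((nat_lit 6), (nat_lit 8)),((nat_lit 6), (nat_lit 9)),((nat_lit 7), (nat_lit 0)),((nat_lit 7), (nat_lit 1)),((nat_lit 7), (nat_lit 4)),((nat_lit 7), (nat_lit 6)),((nat_lit 7), (nat_lit 7)),((nat_lit 7), (nat_lit 9)),((nat_lit 7), (nat_lit 12)),((nat_lit 8), (nat_lit 0)),((nat_lit 8), (nat_lit 1)),((nat_lit 8), (nat_lit 3)),((nat_lit 8), (nat_lit 5)),((nat_lit 8), (nat_lit 8)),((nat_lit 8), (nat_lit 10)),((nat_lit 8), (nat_lit 12)),((nat_lit 9), (nat_lit 1)),((nat_lit 9), (nat_lit 2)),((nat_lit 9), (nat_lit 6)),((nat_lit 9), (nat_lit 7)),((nat_lit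 9), (nat_lit 11)),((nat_lit 9), (nat_lit 12)),((nat_lit 10), (nat_lit 1)),((nat_lit 10), (nat_lit 3)),((nat_lit 10), (nat_lit 6)),((nat_lit 10), (nat_lit 7)),((nat_lit 10), (nat_lit 10)),((nat_lit 10), (nat_lit 12)),((nat_lit 11), (nat_lit 0)),((nat_lit 11), (nat_lit 2)),((nat_lit 11), (nat_lit 3)),((nat_lit 11), (nat_lit 4)),((nat_lit 11), (nat_lit 9)),((nat_lit 11), (nat_lit 10)),((nat_lit 11), (nat_lit 11)),((nat_lit 12), (nat_lit 1)),((nat_lit 12), (nat_lit 2)),((nat_lit 12), (nat_lit 4)),((nat_lit 12), (nat_lit 9)),((nat_lit 12), (nat_lit 11)),((nat_lit 12), (nat_lit 12))]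

lemma memE_13 : memCheck (nat_lit 13) (clE (nat_lit 13)) CE_13 = true := by decide +kernel

/-- classes -/
def CE_5 : List (ℕ × ℕ) := [((nat_lit 1), (nat_lit 1)),((nat_lit 1), (nat_lit 4)),((nat_lit 2), (nat_lit 0)),((nat_lit 2), (nat_lit 2)),((nat_lit 2), (nat_lit 3)),((nat_lit 3), (nat_lit 0)),((nat_lit 3), (nat_lit 1)),((nat_lit 3), (nat_lit 4)),((nat_lit 4), (nat_lit 2)),((nat_lit 4), (nat_lit 3))]

lemma memE_5 : memCheck (nat_lit 5) (clE (nat_lit 5)) CE_5 = true := by decide +kernel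

/-- classes -/
def CE_7 : List (ℕ × ℕ) := [((nat_lit 1), (nat_lit 0)),((nat_lit 1), (nat_lit 3)),((nat_lit 1), (nat_lit 4)),((nat_lit 2), (nat_lit 0)),((nat_lit 2), (nat_lit 1)),((nat_lit 2), (nat_lit 6)),((nat_lit 3), (nat_lit 2)),((nat_lit 3), (nat_lit 3)),((nat_lit 3), (nat_lit 4)),((nat_lit 3), (nat_lit 5)),((nat_lit 4), (nat_lit 0)),((nat_lit 4), (nat_lit 2)),((nat_lit 4), (nat_lit 5)),((nat_lit 5), (nat_lit 1)),((nat_lit 5), (nat_lit 2)),((nat_lit 5), (nat_lit 5)),((nat_lit 5), (nat_lit 6)),((nat_lit 6), (nat_lit 1)),((nat_lit 6), (nat_lit 3)),((nat_lit 6), (nat_lit 4)),((nat_lit 6), (nat_lit 6))]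

lemma memE_7 : memCheck (nat_lit 7) (clE (nat_lit 7)) CE_7 = true := by decide +kernel

/-- classes -/
def CE_9 : List (ℕ × ℕ) := [((nat_lit 1), (nat_lit 0)),((nat_lit 1), (nat_lit 3)),((nat_lit 1), (nat_lit 6)),((nat_lit 2), (nat_lit 1)),((nat_lit 2), (nat_lit 2)),((nat_lit 2), (nat_lit 4)),((nat_lit 2), (nat_lit 5)),((nat_lit 2), (nat_lit 7)),((nat_lit 2), (nat_lit 8)),((nat_lit 4), (nat_lit 0)),((nat_lit 4), (nat_lit 3)),((nat_lit 4), (nat_lit 6)),((nat_lit 5), (nat_lit 1)),((nat_lit 5), (nat_lit 2)),((nat_lit 5), (nat_lit 4)),((nat_lit 5), (nat_lit 5)),((nat_lit 5), (nat_lit 7)),((nat_lit 5), (nat_lit 8)),((nat_lit 7), (nat_lit 0)),((nat_lit 7), (nat_lit 3)),((nat_lit 7), (nat_lit 6)),((nat_lit 8), (nat_lit 1)),((nat_lit 8), (nat_lit 2)),((nat_lit 8), (nat_lit 4)),((nat_lit 8), (nat_lit 5)),((nat_lit 8), (nat_lit 7)),((nat_lit 8), (nat_lit 8))]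

lemma memE_9 : memCheck (nat_lit 9) (clE (nat_lit 3)) CE_9 = true := by decide +kernel

/-- classes -/
def CE_11 : List (ℕ × ℕ) := [((nat_lit 1), (nat_lit 0)),((nat_lit 1), (nat_lit 1)),((nat_lit 1), (nat_lit 5)),((nat_lit 1), (nat_lit 6)),((nat_lit 1), (nat_lit 10)),((nat_lit 2), (nat_lit 1)),((nat_lit 2), (nat_lit 2)),((nat_lit 2), (nat_lit 3)),((nat_lit 2), (nat_lit 8)),((nat_lit 2), (nat_lit 9)),((nat_lit 2), (nat_lit 10)),((nat_lit 3), (nat_lit 0)),((nat_lit 3), (nat_lit 1)),((nat_lit 3), (nat_lit 2)),((nat_lit 3), (nat_lit 9)),((nat_lit 3), (nat_lit 10)),((nat_lit 4), (nat_lit 0)),((nat_lit 4), (nat_lit 3)),((nat_lit 4), (nat_lit 5)),((nat_lit 4), (nat_lit 6)),((nat_lit 4), (nat_lit 8)),((nat_lit 5), (nat_lit 0)),((nat_lit 5), (nat_lit 3)),((nat_lit 5), (nat_lit 4)),((nat_lit 5), (nat_lit 7)),((nat_lit 5), (nat_lit 8)),((nat_lit 6), (nat_lit 2)),((nat_lit 6), (nat_lit 4)),((nat_lit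 6), (nat_lit 5)),((nat_lit 6), (nat_lit 6)),((nat_lit 6), (nat_lit 7)),((nat_lit 6), (nat_lit 9)),((nat_lit 7), (nat_lit 1)),((nat_lit 7), (nat_lit 3)),((nat_lit 7), (nat_lit 4)),((nat_lit 7), (nat_lit 7)),((nat_lit 7), (nat_lit 8)),((nat_lit 7), (nat_lit 10)),((nat_lit 8), (nat_lit 1)),((nat_lit 8), (nat_lit 4)),((nat_lit 8), (nat_lit 5)),((nat_lit 8), (nat_lit 6)),((nat_lit 8), (nat_lit 7)),((nat_lit 8), (nat_lit 10)),((nat_lit 9), (nat_lit 0)),((nat_lit 9), (nat_lit 2)),((nat_lit 9), (nat_lit 4)),((nat_lit 9), (nat_lit 7)),((nat_lit 9), (nat_lit 9)),((nat_lit 10), (nat_lit 2)),((nat_lit 10), (nat_lit 3)),((nat_lit 10), (nat_lit 5)),((nat_lit 10), (nat_lit 6)),((nat_lit 10), (nat_lit 8)),((nat_lit 10), (nat_lit 9))]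

lemma memE_11 : memCheck (nat_lit 11) (clE (nat_lit 11)) CE_11 = true := by decide +kernel

/-- classes -/
def CE_17 : List (ℕ × ℕ) := [((nat_lit 1), (nat_lit 1)),((nat_lit 1), (nat_lit 3)),((nat_lit 1), (nat_lit 4)),((nat_lit 1), (nat_lit 7)),((nat_lit 1), (nat_lit 10)),((nat_lit 1), (nat_lit 13)),((nat_lit 1), (nat_lit 14)),((nat_lit 1), (nat_lit 16)),((nat_lit 2), (nat_lit 3)),((nat_lit 2), (nat_lit 4)),((nat_lit 2), (nat_lit 5)),((nat_lit 2), (nat_lit 8)),((nat_lit 2), (nat_lit 9)),((nat_lit 2), (nat_lit 12)),((nat_lit 2), (nat_lit 13)),((nat_lit 2), (nat_lit 14)),((nat_lit 3), (nat_lit 0)),((nat_lit 3), (nat_lit 1)),((nat_lit 3), (nat_lit 2)),((nat_lit 3), (nat_lit 6)),((nat_lit 3), (nat_lit 8)),((nat_lit 3), (nat_lit 9)),((nat_lit 3), (nat_lit 11)),((nat_lit 3), (nat_lit 15)),((nat_lit 3), (nat_lit 16)),((nat_lit 4), (nat_lit 2)),((nat_lit 4), (nat_lit 5)),((nat_lit 4),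 (nat_lit 7)),((nat_lit 4), (nat_lit 8)),((nat_lit 4), (nat_lit 9)),((nat_lit 4), (nat_lit 10)),((nat_lit 4), (nat_lit 12)),((nat_lit 4), (nat_lit 15)),((nat_lit 5), (nat_lit 0)),((nat_lit 5), (nat_lit 1)),((nat_lit 5), (nat_lit 2)),((nat_lit 5), (nat_lit 4)),((nat_lit 5), (nat_lit 5)),((nat_lit 5), (nat_lit 12)),((nat_lit 5), (nat_lit 13)),((nat_lit 5), (nat_lit 15)),((nat_lit 5), (nat_lit 16)),((nat_lit 6), (nat_lit 0)),((nat_lit 6), (nat_lit 1)),((nat_lit 6), (nat_lit 3)),((nat_lit 6), (nat_lit 6)),((nat_lit 6), (nat_lit 7)),((nat_lit 6), (nat_lit 10)),((nat_lit 6), (nat_lit 11)),((nat_lit 6), (nat_lit 14)),((nat_lit 6), (nat_lit 16)),((nat_lit 7), (nat_lit 0)),((nat_lit 7), (nat_lit 3)),((nat_lit 7), (nat_lit 5)),((nat_lit 7), (nat_lit 7)),((nat_lit 7), (nat_lit 8)),((nat_lit 7), (nat_lit 9)),((nat_lit 7), (nat_lit 10)),((nat_lit 7), (nat_lit 12)),((nat_lit 7), (nat_lit 14)),((nat_lit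 8), (nat_lit 2)),((nat_lit 8), (nat_lit 4)),((nat_lit 8), (nat_lit 6)),((nat_lit 8), (nat_lit 7)),((nat_lit 8), (nat_lit 10)),((nat_lit 8), (nat_lit 11)),((nat_lit 8), (nat_lit 13)),((nat_lit 8), (nat_lit 15)),((nat_lit 9), (nat_lit 1)),((nat_lit 9), (nat_lit 6)),((nat_lit 9), (nat_lit 7)),((nat_lit 9), (nat_lit 8)),((nat_lit 9), (nat_lit 9)),((nat_lit 9), (nat_lit 10)),((nat_lit 9), (nat_lit 11)),((nat_lit 9), (nat_lit 16)),((nat_lit 10), (nat_lit 0)),((nat_lit 10), (nat_lit 2)),((nat_lit 10), (nat_lit 3)),((nat_lit 10), (nat_lit 5)),((nat_lit 10), (nat_lit 6)),((nat_lit 10), (nat_lit 11)),((nat_lit 10), (nat_lit 12)),((nat_lit 10), (nat_lit 14)),((nat_lit 10), (nat_lit 15)),((nat_lit 11), (nat_lit 0)),((nat_lit 11), (nat_lit 4)),((nat_lit 11), (nat_lit 5)),((nat_lit 11), (nat_lit 6)),((nat_lit 11), (nat_lit 7)),((nat_lit 11), (nat_lit 10)),((nat_lit 11), (nat_lit 11)),((nat_lit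 11), (nat_lit 12)),((nat_lit 11), (nat_lit 13)),((nat_lit 12), (nat_lit 0)),((nat_lit 12), (nat_lit 1)),((nat_lit 12), (nat_lit 3)),((nat_lit 12), (nat_lit 4)),((nat_lit 12), (nat_lit 8)),((nat_lit 12), (nat_lit 9)),((nat_lit 12), (nat_lit 13)),((nat_lit 12), (nat_lit 14)),((nat_lit 12), (nat_lit 16)),((nat_lit 13), (nat_lit 2)),((nat_lit 13), (nat_lit 3)),((nat_lit 13), (nat_lit 6)),((nat_lit 13), (nat_lit 8)),((nat_lit 13), (nat_lit 9)),((nat_lit 13), (nat_lit 11)),((nat_lit 13), (nat_lit 14)),((nat_lit 13), (nat_lit 15)),((nat_lit 14), (nat_lit 0)),((nat_lit 14), (nat_lit 2)),((nat_lit 14), (nat_lit 4)),((nat_lit 14), (nat_lit 7)),((nat_lit 14), (nat_lit 8)),((nat_lit 14), (nat_lit 9)),((nat_lit 14), (nat_lit 10)),((nat_lit 14), (nat_lit 13)),((nat_lit 14), (nat_lit 15)),((nat_lit 15), (nat_lit 1)),((nat_lit 15), (nat_lit 2)),((nat_lit 15), (nat_lit 3)),((nat_lit 15), (nat_lit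 5)),((nat_lit 15), (nat_lit 12)),((nat_lit 15), (nat_lit 14)),((nat_lit 15), (nat_lit 15)),((nat_lit 15), (nat_lit 16)),((nat_lit 16), (nat_lit 1)),((nat_lit 16), (nat_lit 4)),((nat_lit 16), (nat_lit 5)),((nat_lit 16), (nat_lit 6)),((nat_lit 16), (nat_lit 11)),((nat_lit 16), (nat_lit 12)),((nat_lit 16), (nat_lit 13)),((nat_lit 16), (nat_lit 16))]

lemma memE_17 : memCheck (nat_lit 17) (clE (nat_lit 17)) CE_17 = true := by decide +kernel

/-- classes -/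
def CE_19 : List (ℕ × ℕ) := [((nat_lit 1), (nat_lit 0)),((nat_lit 1), (nat_lit 4)),((nat_lit 1), (nat_lit 5)),((nat_lit 1), (nat_lit 6)),((nat_lit 1), (nat_lit 8)),((nat_lit 1), (nat_lit 11)),((nat_lit 1), (nat_lit 13)),((nat_lit 1), (nat_lit 14)),((nat_lit 1), (nat_lit 15)),((nat_lit 2), (nat_lit 1)),((nat_lit 2), (nat_lit 2)),((nat_lit 2), (nat_lit 4)),((nat_lit 2), (nat_lit 6)),((nat_lit 2), (nat_lit 9)),((nat_lit 2), (nat_lit 10)),((nat_lit 2), (nat_lit 13)),((nat_lit 2), (nat_lit 15)),((nat_lit 2), (nat_lit 17)),((nat_lit 2), (nat_lit 18)),((nat_lit 3), (nat_lit 3)),((nat_lit 3), (nat_lit 4)),((nat_lit 3), (nat_lit 6)),((nat_lit 3), (nat_lit 8)),((nat_lit 3), (nat_lit 9)),((nat_lit 3), (nat_lit 10)),((nat_lit 3), (nat_lit 11)),((nat_lit 3), (nat_lit 13)),((nat_lit 3), (nat_lit 15)),((nat_lit 3), (nat_lit 16)),((nat_lit 4), (nat_lit 0)),((nat_lit 4), (nat_lit 2)),((nat_lit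 4), (nat_lit 3)),((nat_lit 4), (nat_lit 4)),((nat_lit 4), (nat_lit 7)),((nat_lit 4), (nat_lit 12)),((nat_lit 4), (nat_lit 15)),((nat_lit 4), (nat_lit 16)),((nat_lit 4), (nat_lit 17)),((nat_lit 5), (nat_lit 0)),((nat_lit 5), (nat_lit 3)),((nat_lit 5), (nat_lit 7)),((nat_lit 5), (nat_lit 8)),((nat_lit 5), (nat_lit 9)),((nat_lit 5), (nat_lit 10)),((nat_lit 5), (nat_lit 11)),((nat_lit 5), (nat_lit 12)),((nat_lit 5), (nat_lit 16)),((nat_lit 6), (nat_lit 0)),((nat_lit 6), (nat_lit 1)),((nat_lit 6), (nat_lit 3)),((nat_lit 6), (nat_lit 5)),((nat_lit 6), (nat_lit 6)),((nat_lit 6), (nat_lit 13)),((nat_lit 6), (nat_lit 14)),((nat_lit 6), (nat_lit 16)),((nat_lit 6), (nat_lit 18)),((nat_lit 7), (nat_lit 0)),((nat_lit 7), (nat_lit 1)),((nat_lit 7), (nat_lit 3)),((nat_lit 7), (nat_lit 4)),((nat_lit 7), (nat_lit 9)),((nat_lit 7), (nat_lit 10)),((nat_lit 7), (nat_lit 15)),((nat_lit 7), (nat_lit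 16)),((nat_lit 7), (nat_lit 18)),((nat_lit 8), (nat_lit 1)),((nat_lit 8), (nat_lit 2)),((nat_lit 8), (nat_lit 3)),((nat_lit 8), (nat_lit 5)),((nat_lit 8), (nat_lit 9)),((nat_lit 8), (nat_lit 10)),((nat_lit 8), (nat_lit 14)),((nat_lit 8), (nat_lit 16)),((nat_lit 8), (nat_lit 17)),((nat_lit 8), (nat_lit 18)),((nat_lit 9), (nat_lit 0)),((nat_lit 9), (nat_lit 2)),((nat_lit 9), (nat_lit 5)),((nat_lit 9), (nat_lit 8)),((nat_lit 9), (nat_lit 9)),((nat_lit 9), (nat_lit 10)),((nat_lit 9), (nat_lit 11)),((nat_lit 9), (nat_lit 14)),((nat_lit 9), (nat_lit 17)),((nat_lit 10), (nat_lit 1)),((nat_lit 10), (nat_lit 2)),((nat_lit 10), (nat_lit 4)),((nat_lit 10), (nat_lit 7)),((nat_lit 10), (nat_lit 8)),((nat_lit 10), (nat_lit 11)),((nat_lit 10), (nat_lit 12)),((nat_lit 10), (nat_lit 15)),((nat_lit 10), (nat_lit 17)),((nat_lit 10), (nat_lit 18)),((nat_lit 11), (nat_lit 0)),((nat_lit 11), (nat_lit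 2)),((nat_lit 11), (nat_lit 6)),((nat_lit 11), (nat_lit 7)),((nat_lit 11), (nat_lit 9)),((nat_lit 11), (nat_lit 10)),((nat_lit 11), (nat_lit 12)),((nat_lit 11), (nat_lit 13)),((nat_lit 11), (nat_lit 17)),((nat_lit 12), (nat_lit 2)),((nat_lit 12), (nat_lit 3)),((nat_lit 12), (nat_lit 4)),((nat_lit 12), (nat_lit 5)),((nat_lit 12), (nat_lit 8)),((nat_lit 12), (nat_lit 11)),((nat_lit 12), (nat_lit 14)),((nat_lit 12), (nat_lit 15)),((nat_lit 12), (nat_lit 16)),((nat_lit 12), (nat_lit 17)),((nat_lit 13), (nat_lit 1)),((nat_lit 13), (nat_lit 5)),((nat_lit 13), (nat_lit 7)),((nat_lit 13), (nat_lit 8)),((nat_lit 13), (nat_lit 9)),((nat_lit 13), (nat_lit 10)),((nat_lit 13), (nat_lit 11)),((nat_lit 13), (nat_lit 12)),((nat_lit 13), (nat_lit 14)),((nat_lit 13), (nat_lit 18)),((nat_lit 14), (nat_lit 4)),((nat_lit 14), (nat_lit 5)),((nat_lit 14), (nat_lit 6)),((nat_lit 14), (nat_lit 7)),((nat_lit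 14), (nat_lit 9)),((nat_lit 14), (nat_lit 10)),((nat_lit 14), (nat_lit 12)),((nat_lit 14), (nat_lit 13)),((nat_lit 14), (nat_lit 14)),((nat_lit 14), (nat_lit 15)),((nat_lit 15), (nat_lit 1)),((nat_lit 15), (nat_lit 3)),((nat_lit 15), (nat_lit 6)),((nat_lit 15), (nat_lit 7)),((nat_lit 15), (nat_lit 8)),((nat_lit 15), (nat_lit 11)),((nat_lit 15), (nat_lit 12)),((nat_lit 15), (nat_lit 13)),((nat_lit 15), (nat_lit 16)),((nat_lit 15), (nat_lit 18)),((nat_lit 16), (nat_lit 0)),((nat_lit 16), (nat_lit 1)),((nat_lit 16), (nat_lit 2)),((nat_lit 16), (nat_lit 6)),((nat_lit 16), (nat_lit 8)),((nat_lit 16), (nat_lit 11)),((nat_lit 16), (nat_lit 13)),((nat_lit 16), (nat_lit 17)),((nat_lit 16), (nat_lit 18)),((nat_lit 17), (nat_lit 0)),((nat_lit 17), (nat_lit 1)),((nat_lit 17), (nat_lit 4)),((nat_lit 17), (nat_lit 5)),((nat_lit 17), (nat_lit 7)),((nat_lit 17), (nat_lit 12)),((nat_lit 17), (nat_lit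 14)),((nat_lit 17), (nat_lit 15)),((nat_lit 17), (nat_lit 18)),((nat_lit 18), (nat_lit 2)),((nat_lit 18), (nat_lit 3)),((nat_lit 18), (nat_lit 5)),((nat_lit 18), (nat_lit 6)),((nat_lit 18), (nat_lit 7)),((nat_lit 18), (nat_lit 12)),((nat_lit 18), (nat_lit 13)),((nat_lit 18), (nat_lit 14)),((nat_lit 18), (nat_lit 16)),((nat_lit 18), (nat_lit 17))]

lemma memE_19 : memCheck (nat_lit 19) (clE (nat_lit 19)) CE_19 = true := by decide +kernel

end Pool.Agent.LibH4.KF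


end
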