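import Mathlib
import Pool.Agent.RQM.C12a

/-!
Vectors of natural numbers packed in base `2 ^ w`: sums, scalar multiples, shifts with masks,
quotients of all entries by a fixed number, and scalar products through one multiplication.
-/

namespace Pool.Agent.LibH4.KV

open Finset Ker

lemma packR_sum (w : ℕ) (f : ℕ → ℕ) (n : ℕ) :
    packR w f n = ∑ i ∈ range n, f i * 2 ^ (w * i) := by
  induction n with
  | zero => rfl
  | succ n ih => rw [packR_succ, sum_range_succ, ih, add_comm]

lemma packR_congr {w : ℕ} {f g : ℕ → ℕ} {n : ℕ} (h : ∀ i < n, f i = g i) :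
    packR w f n = packR w g n := by
  rw [packR_sum, packR_sum]
  exact sum_congr rfl fun i hi => by rw [h i (mem_range.mp hi)]

lemma packR_add (w : ℕ) (f g : ℕ → ℕ) (n : ℕ) :
    packR w f n + packR w g n = packR w (fun i => f i + g i) n := by
  rw [packR_sum, packR_sum, packR_sum, ← sum_add_distrib]
  exact sum_congr rfl fun i _ => by ring

lemma packR_mul (w a : ℕ) (f : ℕ → ℕ) (n : ℕ) :
    a * packR w f n = packR w (fun i => a * f i) n := by
  rw [packR_sum, packR_sum, mul_sum]
  exact sum_congr rfl fun i _ => by ring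

lemma packR_sub {w : ℕ} {f g : ℕ → ℕ} {n : ℕ} (h : ∀ i < n, g i ≤ f i) :
    packR w f n - packR w g n = packR w (fun i => f i - g i) n := by
  apply Nat.sub_eq_of_eq_add
  rw [packR_add]
  exact packR_congr fun i hi => by have := h i hi; omega

lemma packR_cut {w : ℕ} (f : ℕ → ℕ) {n : ℕ} :
    packR w f n = packR w (fun i => if i < n then f i else 0) n :=
  packR_congr fun i hi => by rw [if_pos hi]

lemma packR_lt' {w : ℕ} {f : ℕ → ℕ} {n : ℕ} (h : ∀ i < n, f i < 2 ^ w) :
    packR w f n < 2 ^ (w * n) := by
  rw [packR_cut]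
  apply packR_lt
  intro m
  split_ifs with hm
  · exact h m hm
  · positivity

lemma packR_digit' {w : ℕ} {f : ℕ → ℕ} {n : ℕ} (h : ∀ i < n, f i < 2 ^ w) {m : ℕ} (hm : m < n) :
    packR w f n / 2 ^ (w * m) % 2 ^ w = f m := by
  rw [packR_cut, packR_digit (f := fun i => if i < n then f i else 0) (by
    intro m
    split_ifs with hm
    · exact h m hm
    · positivity) m hm, if_pos hm]

lemma packR_testBit {w : ℕ} (hw : 0 < w) {f : ℕ → ℕ} {n : ℕ} (h : ∀ i < n, f i < 2 ^ w) (j : ℕ) :
    (packR w f n).testBit j = (decide (j / w < n) && (f (j / w)).testBit (j % w)) := by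
  by_cases hj : j / w < n
  · rw [decide_eq_true hj, Bool.true_and, ← packR_digit' h hj, Nat.testBit_mod_two_pow,
      Nat.testBit_div_two_pow, decide_eq_true (Nat.mod_lt j hw), Bool.true_and]
    congr 1
    rw [add_comm]
    exact (Nat.div_add_mod j w).symm
  · rw [decide_eq_false hj, Bool.false_and]
    apply Nat.testBit_lt_two_pow
    refine (packR_lt' h).trans_le (Nat.pow_le_pow_right (by norm_num) ?_)
    calc w * n ≤ w * (j / w) := Nat.mul_le_mul_left _ (by omega)
      _ ≤ j := Nat.mul_div_le j w

/-- shift of all entries with a mask -/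
lemma shift_land {w : ℕ} (hw : 0 < w) {f : ℕ → ℕ} {n k m : ℕ} (h : ∀ i < n, f i < 2 ^ w)
    (hk : k + m ≤ w) :
    (packR w f n >>> k) &&& packR w (fun _ => 2 ^ m - 1) n =
      packR w (fun i => f i / 2 ^ k % 2 ^ m) n := by
  have h1 : ∀ i < n, (fun _ : ℕ => 2 ^ m - 1) i < 2 ^ w := by
    intro i _
    have : 2 ^ m ≤ 2 ^ w := Nat.pow_le_pow_right (by norm_num) (by omega)
    have : 0 < 2 ^ m := by positivity
    dsimp only
    omega
  have h2 : ∀ i < n, (fun i => f i / 2 ^ k % 2 ^ m) i < 2 ^ w := by
    intro i _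
    have : 2 ^ m ≤ 2 ^ w := Nat.pow_le_pow_right (by norm_num) (by omega)
    exact (Nat.mod_lt _ (by positivity)).trans_le this
  apply Nat.eq_of_testBit_eq
  intro j
  rw [Nat.testBit_land, Nat.testBit_shiftRight, packR_testBit hw h, packR_testBit hw h1,
    packR_testBit hw h2, Nat.testBit_two_pow_sub_one, Nat.testBit_mod_two_pow,
    Nat.testBit_div_two_pow]
  by_cases hr : j % w < m
  · have hjw := Nat.div_add_mod j w
    have e : k + j = w * (j / w) + (k + j % w) := by omega
    have hlt : k + j % w < w := by omega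
    have e1 : (k + j) / w = j / w := by
      rw [e, Nat.mul_add_div hw, Nat.div_eq_of_lt hlt, add_zero]
    have e2 : (k + j) % w = k + j % w := by
      rw [e, Nat.mul_add_mod, Nat.mod_eq_of_lt hlt]
    rw [e1, e2, decide_eq_true hr]
    have e3 : k + j % w = j % w + k := add_comm _ _
    rw [e3]
    by_cases hn : j / w < n
    · rw [decide_eq_true hn]; simp
    · rw [decide_eq_false hn]; simp
  · rw [decide_eq_false hr]; simp

/-- selection of entries by a mask -/
lemma mask_land {w : ℕ} (hw : 0 < w) {f : ℕ → ℕ} {b : ℕ → Bool} {n m : ℕ}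
    (h : ∀ i < n, f i < 2 ^ m) (hm : m ≤ w) :
    packR w f n &&& packR w (fun i => if b i then 2 ^ m - 1 else 0) n =
      packR w (fun i => if b i then f i else 0) n := by
  have hmw : 2 ^ m ≤ 2 ^ w := Nat.pow_le_pow_right (by norm_num) hm
  have hpos : 0 < 2 ^ m := by positivity
  have h0 : ∀ i < n, f i < 2 ^ w := fun i hi => (h i hi).trans_le hmw
  have h1 : ∀ i < n, (fun i => if b i then 2 ^ m - 1 else 0) i < 2 ^ w := by
    intro i _
    dsimp only
    split_ifs <;> omega
  have h2 : ∀ i < n, (fun i => if b i then f i else 0) i < 2 ^ w := by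
    intro i hi
    dsimp only
    have := h0 i hi
    split_ifs <;> omega
  apply Nat.eq_of_testBit_eq
  intro j
  rw [Nat.testBit_land, packR_testBit hw h0, packR_testBit hw h1, packR_testBit hw h2]
  by_cases hn : j / w < n
  · cases hb : b (j / w) with
    | false => simp
    | true =>
      simp only [if_true, Nat.testBit_two_pow_sub_one]
      by_cases hr : j % w < m
      · rw [decide_eq_true hr, Bool.and_true]
        cases decide (j / w < n) <;> simp
      · rw [Nat.testBit_lt_two_pow ((h _ hn).trans_le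
          (Nat.pow_le_pow_right (by norm_num) (by omega)))]
        simp
  · rw [decide_eq_false hn]; simp

/-- quotient by `q` through multiplication with a reciprocal -/
lemma recip {q R k x B : ℕ} (hq : 0 < q) (h1 : 2 ^ k ≤ R * q) (hx : x < B)
    (h2 : (B + q) * (R * q - 2 ^ k) < 2 ^ k) : x * R / 2 ^ k = x / q := by
  obtain ⟨d, hd⟩ := Nat.exists_eq_add_of_le h1
  have hd' : R * q - 2 ^ k = d := by omega
  rw [hd'] at h2
  have ha := Nat.div_add_mod x q
  have hr := Nat.mod_lt x hq
  generalize x / q = a at *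
  generalize x % q = r at *
  apply Nat.div_eq_of_lt_le
  · -- a * 2^k ≤ x * R
    have : q * (a * 2 ^ k) ≤ q * (x * R) := by
      calc q * (a * 2 ^ k) = (q * a) * 2 ^ k := by ring
        _ ≤ x * 2 ^ k := Nat.mul_le_mul_right _ (by omega)
        _ ≤ x * (R * q) := Nat.mul_le_mul_left _ h1
        _ = q * (x * R) := by ring
    exact Nat.le_of_mul_le_mul_left this hq
  · have h3 : x + 1 ≤ q * (a + 1) := by
      have : q * (a + 1) = q * a + q := by ring
      omega
    have : q * (x * R) < q * ((a + 1) * 2 ^ k) := by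
      calc q * (x * R) = x * (R * q) := by ring
        _ = x * 2 ^ k + x * d := by rw [hd]; ring
        _ ≤ x * 2 ^ k + (B + q) * d := by
            have := Nat.mul_le_mul_right d (show x ≤ B + q by omega)
            omega
        _ < x * 2 ^ k + 2 ^ k := by omega
        _ = (x + 1) * 2 ^ k := by ring
        _ ≤ (q * (a + 1)) * 2 ^ k := Nat.mul_le_mul_right _ h3
        _ = q * ((a + 1) * 2 ^ k) := by ring
    exact Nat.lt_of_mul_lt_mul_left this

/-- the entries modulo `q` -/
lemma modv_spec {w : ℕ} (hw : 0 < w) {f : ℕ → ℕ} {n k m q R B : ℕ} (hq : 0 < q)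
    (h1 : 2 ^ k ≤ R * q) (h2 : (B + q) * (R * q - 2 ^ k) < 2 ^ k) (hf : ∀ i < n, f i < B)
    (h3 : B * R ≤ 2 ^ w) (hk : k + m ≤ w) (hm : B ≤ q * 2 ^ m) :
    packR w f n - q * ((R * packR w f n) >>> k &&& packR w (fun _ => 2 ^ m - 1) n) =
      packR w (fun i => f i % q) n := by
  have hR : 0 < R := by
    rcases Nat.eq_zero_or_pos R with h | h
    · subst h
      have : 0 < 2 ^ k := by positivity
      omega
    · exact h
  rw [packR_mul, shift_land hw (f := fun i => R * f i) (fun i hi => by
    calc R * f i < R * B := Nat.mul_lt_mul_of_pos_left (hf i hi) hR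
      _ ≤ 2 ^ w := by rw [mul_comm]; exact h3) hk, packR_mul]
  have hc : packR w (fun i => q * (R * f i / 2 ^ k % 2 ^ m)) n =
      packR w (fun i => q * (f i / q)) n := packR_congr (fun i hi => by
    rw [mul_comm R, recip hq h1 (hf i hi) h2, Nat.mod_eq_of_lt]
    exact Nat.div_lt_of_lt_mul ((hf i hi).trans_le hm))
  rw [hc, packR_sub (fun i _ => Nat.mul_div_le _ _)]
  refine packR_congr fun i _ => ?_
  have := Nat.div_add_mod (f i) q
  omega

/-- sum of the entries -/
lemma packR_digsum {w : ℕ} {f : ℕ → ℕ} {n : ℕ} (hw : 0 < w)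
    (h : ∑ i ∈ range n, f i < 2 ^ w - 1) :
    packR w f n % (2 ^ w - 1) = ∑ i ∈ range n, f i := by
  have key : packR w f n ≡ ∑ i ∈ range n, f i [MOD (2 ^ w - 1)] := by
    rw [packR_sum]
    clear h
    induction n with
    | zero => rfl
    | succ n ih =>
      rw [sum_range_succ, sum_range_succ]
      refine Nat.ModEq.add ih ?_
      have e : 2 ^ w ≡ 1 [MOD (2 ^ w - 1)] := by
        have h1 : 2 ^ w = 1 + (2 ^ w - 1) := by
          have : 0 < 2 ^ w := by positivity
          omega
        conv_lhs => rw [h1]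
        simp [Nat.ModEq]
      have e2 : 2 ^ (w * n) ≡ 1 [MOD (2 ^ w - 1)] := by
        rw [pow_mul]
        simpa using e.pow n
      simpa using (Nat.ModEq.refl (f n)).mul e2
  have := key
  unfold Nat.ModEq at this
  rw [this, Nat.mod_eq_of_lt h]

/-- scalar product with a reversed vector through one multiplication -/
lemma packR_dot {w : ℕ} {f g : ℕ → ℕ} {n F G : ℕ} (hn : 0 < n) (hf : ∀ i < n, f i ≤ F)
    (hg : ∀ i < n, g i ≤ G) (h : n * (F * G) < 2 ^ w) :
    packR w f n * packR w g n / 2 ^ (w * (n - 1)) % 2 ^ w =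
      ∑ i ∈ range n, f i * g (n - 1 - i) := by
  classical
  let p : Polynomial ℕ := ∑ i ∈ range n, Polynomial.C (f i) * Polynomial.X ^ i
  let r : Polynomial ℕ := ∑ i ∈ range n, Polynomial.C (g i) * Polynomial.X ^ i
  have cp : ∀ j, p.coeff j = if j < n then f j else 0 := by
    intro j
    simp only [p, Polynomial.finset_sum_coeff, Polynomial.coeff_C_mul, Polynomial.coeff_X_pow]
    simp [Finset.sum_ite_eq, mem_range]
  have cr : ∀ j, r.coeff j = if j < n then g j else 0 := by
    intro j
    simp only [r, Polynomial.finset_sum_coeff, Polynomial.coeff_C_mul, Polynomial.coeff_X_pow]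
    simp [Finset.sum_ite_eq, mem_range]
  have ep : p.eval (2 ^ w) = packR w f n := by
    rw [packR_sum]
    simp only [p, Polynomial.eval_finset_sum, Polynomial.eval_mul, Polynomial.eval_C,
      Polynomial.eval_pow, Polynomial.eval_X, pow_mul]
  have er : r.eval (2 ^ w) = packR w g n := by
    rw [packR_sum]
    simp only [r, Polynomial.eval_finset_sum, Polynomial.eval_mul, Polynomial.eval_C,
      Polynomial.eval_pow, Polynomial.eval_X, pow_mul]
  have dp : p.natDegree < n := by
    refine (Nat.lt_iff_add_one_le).mpr ?_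
    by_contra hc
    have : n ≤ p.natDegree := by omega
    have h1 : p.coeff p.natDegree = 0 := by rw [cp, if_neg (by omega)]
    have h2 : p = 0 := by
      rw [Polynomial.coeff_natDegree, Polynomial.leadingCoeff_eq_zero] at h1
      exact h1
    rw [h2, Polynomial.natDegree_zero] at this
    omega
  have dr : r.natDegree < n := by
    by_contra hc
    have : n ≤ r.natDegree := by omega
    have h1 : r.coeff r.natDegree = 0 := by rw [cr, if_neg (by omega)]
    have h2 : r = 0 := by
      rw [Polynomial.coeff_natDegree, Polynomial.leadingCoeff_eq_zero] at h1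
      exact h1
    rw [h2, Polynomial.natDegree_zero] at this
    omega
  have dpr : (p * r).natDegree < 2 * n :=
    (Polynomial.natDegree_mul_le).trans_lt (by omega)
  have e : packR w f n * packR w g n = packR w (fun s => (p * r).coeff s) (2 * n) := by
    rw [← ep, ← er, ← Polynomial.eval_mul, Polynomial.eval_eq_sum_range' dpr, packR_sum]
    exact sum_congr rfl fun i _ => by rw [pow_mul]
  have bd : ∀ s, (p * r).coeff s < 2 ^ w := by
    intro s
    rw [Polynomial.coeff_mul, Finset.Nat.sum_antidiagonal_eq_sum_range_succ_mk]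
    refine lt_of_le_of_lt ?_ h
    have h1 : ∀ i ∈ range s.succ, p.coeff i * r.coeff (s - i) ≤ if i < n then F * G else 0 := by
      intro i _
      rw [cp, cr]
      by_cases hi : i < n
      · rw [if_pos hi, if_pos hi]
        by_cases hj : s - i < n
        · rw [if_pos hj]
          exact Nat.mul_le_mul (hf i hi) (hg _ hj)
        · rw [if_neg hj]; simp
      · rw [if_neg hi, if_neg hi]; simp
    refine (sum_le_sum h1).trans ?_
    rw [← sum_filter, sum_const, smul_eq_mul]
    refine Nat.mul_le_mul_right _ ?_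
    calc _ ≤ (range n).card := card_le_card (fun i hi => by
            rw [mem_filter] at hi; exact mem_range.mpr hi.2)
      _ = n := card_range n
  rw [e, packR_digit' (fun i _ => bd i) (show n - 1 < 2 * n by omega), Polynomial.coeff_mul,
    Finset.Nat.sum_antidiagonal_eq_sum_range_succ_mk]
  have hs : (n - 1).succ = n := by omega
  rw [hs]
  refine sum_congr rfl fun i hi => ?_
  have hi' := mem_range.mp hi
  rw [cp, cr, if_pos hi', if_pos (show n - 1 - i < n by omega)]

/-- the vector of ones -/
lemma ones_eq (w n : ℕ) : packR w (fun _ => 1) n * (2 ^ w - 1) = 2 ^ (w * n) - 1 := by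
  induction n with
  | zero => simp [packR]
  | succ n ih =>
    rw [packR_succ, add_mul, ih, one_mul]
    have h1 : 0 < 2 ^ (w * n) := by positivity
    have h2 : 0 < 2 ^ w := by positivity
    have h3 : 2 ^ (w * (n + 1)) = 2 ^ (w * n) * 2 ^ w := by rw [← pow_add]; congr 1
    rw [h3, Nat.mul_sub, mul_one]
    have h4 : 2 ^ (w * n) ≤ 2 ^ (w * n) * 2 ^ w := Nat.le_mul_of_pos_right _ h2
    omega

lemma rev_eq (w n : ℕ) : packR w (fun i => n - 1 - i) n * (2 ^ w - 1) + n =
    packR w (fun _ => 1) n := by
  induction n with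
  | zero => simp [packR]
  | succ n ih =>
    have e1 : packR w (fun i => n + 1 - 1 - i) (n + 1) =
        packR w (fun i => n - 1 - i) n + packR w (fun _ => 1) n := by
      rw [packR_succ, packR_add]
      simp only [Nat.add_sub_cancel, Nat.sub_self, zero_mul, zero_add]
      exact packR_congr fun i hi => by omega
    rw [e1, add_mul, ones_eq, packR_succ w (fun _ => 1), one_mul]
    have h1 : 0 < 2 ^ (w * n) := by positivity
    omega

lemma iota_eq (w n : ℕ) : (n - 1) * packR w (fun _ => 1) n - packR w (fun i => n - 1 - i) n =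
    packR w (fun i => i) n := by
  rw [packR_mul, packR_sub (fun i _ => by omega)]
  exact packR_congr fun i hi => by omega

end Pool.Agent.LibH4.KV
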