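import Mathlib
import Pool.Agent.RQM.C12a
import Pool.Agent.RQM.C13
import Pool.Agent.RQM.V1

/-!
Fast check of the weight tables `DRstd`: all sums over `lam` modulo `q` are done at once on packed
vectors.
-/

namespace Pool.Agent.LibH4.KV

open Finset Ker KF T6

/-- the square of the character at `x` -/
def cSq (n1 n2 l T1 T2 x : ℕ) : ℕ :=
  strict (Nat.mul (ch T1 (Nat.mod x n1)) (ch T2 (Nat.mod x n2))) fun y => Nat.mod (Nat.mul y y) l

/-- all entries modulo `q` -/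
def modq (q R M V : ℕ) : ℕ :=
  Nat.sub V (Nat.mul q (Nat.land (Nat.shiftRight (Nat.mul R V) (nat_lit 30)) M))

/-- product of all entries with a vector of 4-bit numbers given by masks -/
def cyv (m0 m1 m2 m3 y : ℕ) : ℕ :=
  Nat.add (Nat.land y m0) (Nat.mul (nat_lit 2) (Nat.add (Nat.land y m1) (Nat.mul (nat_lit 2)
    (Nat.add (Nat.land y m2) (Nat.mul (nat_lit 2) (Nat.land y m3))))))

/-- scalar product -/
def dotv (sh a b : ℕ) : ℕ :=
  Nat.mod (Nat.shiftRight (Nat.mul a b) sh) (nat_lit 281474976710656)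

/-- the weight `E` from the moments -/
def ev (q l S0 s1 s2 : ℕ) : ℕ :=
  Nat.mod (Nat.add (Nat.mul (nat_lit 6) s2) (Nat.add
    (Nat.mul (Nat.mul (nat_lit 6) (Nat.sub l (nat_lit 1))) (Nat.mul q s1))
    (Nat.mul (Nat.mul q q) S0))) l

/-- the weight `D` from the moments -/
def dv (q l S0 zx zy s1x s1y sxy : ℕ) : ℕ :=
  Nat.mod (Nat.add (Nat.mul (Nat.mul (Nat.sub l (nat_lit 2)) (Nat.sub l (nat_lit 2))) sxy)
    (Nat.add (Nat.mul (Nat.mul (Nat.sub l (nat_lit 2)) q)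
        (Nat.add (Nat.mul zy s1x) (Nat.mul zx s1y)))
      (Nat.mul (Nat.mul q q) (Nat.mul (Nat.mul zx zy) S0)))) l

/-- `0` at `0`, `1` elsewhere -/
def sg (x : ℕ) : ℕ := Nat.sub (nat_lit 1) (Nat.sub (nat_lit 1) x)

/-- the three weights of a pair, from the data of `X` -/
def pairv (q l R M I J m0 m1 m2 m3 S0 sh X xf s1x ex Y : ℕ) : ℕ :=
  (fun yf cy => strict (Nat.mod cy (nat_lit 281474976710655)) fun s1y =>
    Nat.add (dv q l S0 (sg X) (sg Y) s1x s1y (dotv sh xf cy))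
      (Nat.add (Nat.mul (nat_lit 65536) (ev q l S0 s1y (dotv sh yf cy)))
        (Nat.mul (nat_lit 4294967296) ex)))
    (modq q R M (Nat.mul Y I)) (cyv m0 m1 m2 m3 (modq q R M (Nat.mul Y J)))

/-- the packed row of weights -/
def rowv (q l e1 e2 R M I J m0 m1 m2 m3 S0 sh : ℕ) (L2 : List (ℕ × ℕ)) (P : ℕ × ℕ) :
    ℕ → ℕ → ℕ → ℕ → ℕ :=
  @List.rec (ℕ × ℕ) (fun _ => ℕ → ℕ → ℕ → ℕ → ℕ) (fun _ _ _ _ => (nat_lit 0))
    (fun Q _ ih Xl xf s1 ex =>
      strict (Nat.mod (Nat.add (Nat.mul P.1 e1) (Nat.mul Q.1 e2)) q) fun X =>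
      strict (Nat.mod (Nat.add (Nat.mul P.2 e1) (Nat.mul Q.2 e2)) q) fun Y =>
      @Bool.rec (fun _ => ℕ)
        ((fun xf1 cx => strict (Nat.mod cx (nat_lit 281474976710655)) fun s11 =>
          strict (ev q l S0 s11 (dotv sh xf1 cx)) fun ex1 =>
          Nat.add (pairv q l R M I J m0 m1 m2 m3 S0 sh X xf1 s11 ex1 Y)
            (Nat.mul (nat_lit 281474976710656) (ih X xf1 s11 ex1)))
          (modq q R M (Nat.mul X I)) (cyv m0 m1 m2 m3 (modq q R M (Nat.mul X J))))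
        (Nat.add (pairv q l R M I J m0 m1 m2 m3 S0 sh X xf s1 ex Y)
            (Nat.mul (nat_lit 281474976710656) (ih Xl xf s1 ex)))
        (Nat.beq X Xl)) L2

/-- conjunction -/
def andb (a b : Bool) : Bool := @Bool.rec (fun _ => Bool) false b a

lemma andb_spec {a b : Bool} (h : andb a b = true) : a = true ∧ b = true := by
  cases a <;> cases b <;> simp_all [andb]

/-- the vector of ones -/
def onesv (q : ℕ) : ℕ :=
  Nat.div (Nat.sub (Nat.pow (nat_lit 2) (Nat.mul (nat_lit 48) q)) (nat_lit 1))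
    (nat_lit 281474976710655)

/-- check of the weights, from the constants -/
def drW (q l e1 e2 R O M I J C S0 : ℕ) (L1 L2 : List (ℕ × ℕ)) (DRs : List ((ℕ × ℕ) × ℕ)) : Bool :=
  (fun m0 m1 m2 m3 => strict (Nat.mul (nat_lit 48) (Nat.sub q (nat_lit 1))) fun sh =>
    eqW (fun P => rowv q l e1 e2 R M I J m0 m1 m2 m3 S0 sh L2 P q (nat_lit 0) (nat_lit 0)
      (nat_lit 0)) L1 DRs)
    (Nat.mul (nat_lit 1023) (Nat.land C O))
    (Nat.mul (nat_lit 1023) (Nat.land (Nat.shiftRight C (nat_lit 1)) O))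
    (Nat.mul (nat_lit 1023) (Nat.land (Nat.shiftRight C (nat_lit 2)) O))
    (Nat.mul (nat_lit 1023) (Nat.land (Nat.shiftRight C (nat_lit 3)) O))

/-- check of the weights -/
def drCheckV (n1 n2 q l e1 e2 T1 T2 : ℕ) (L1 L2 : List (ℕ × ℕ)) (DRs : List ((ℕ × ℕ) × ℕ)) :
    Bool :=
  andb (Nat.ble (nat_lit 1) q) <| andb (Nat.ble q (nat_lit 1000)) <|
  andb (Nat.ble (nat_lit 2) l) <| andb (Nat.ble l (nat_lit 16)) <|
  andb (allR (fun x => @Bool.rec (fun _ => Bool) (Nat.beq (cSq n1 n2 l T1 T2 x) (nat_lit 0)) true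
    (Nat.beq (Nat.gcd x q) (nat_lit 1))) q) <|
  strict (Nat.succ (Nat.div (nat_lit 1073741824) q)) fun R =>
  (fun O C =>
    (fun J => strict (Nat.mod C (nat_lit 281474976710655)) fun S0 =>
      drW q l e1 e2 R O (Nat.mul (nat_lit 262143) O) (Nat.sub (Nat.mul (Nat.sub q (nat_lit 1)) O) J)
        J C S0 L1 L2 DRs)
      (Nat.div (Nat.sub O q) (nat_lit 281474976710655)))
    (onesv q)
    (packR (nat_lit 48) (fun i => cSq n1 n2 l T1 T2 (Nat.sub (Nat.sub q (nat_lit 1)) i)) q)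

/-! ### soundness -/

lemma cSq_eq (n1 n2 l T1 T2 x : ℕ) : cSq n1 n2 l T1 T2 x =
    (ch T1 (x % n1) * ch T2 (x % n2)) * (ch T1 (x % n1) * ch T2 (x % n2)) % l := by
  unfold cSq
  rw [strict_eq]
  rfl

section Vec

variable {q R : ℕ}

lemma modq_spec (hq : 0 < q) (hq1 : q ≤ 1000) {f : ℕ → ℕ} (hf : ∀ i < q, f i < q * q) :
    modq q (2 ^ 30 / q + 1) (packR 48 (fun _ => 2 ^ 18 - 1) q) (packR 48 f q) =
      packR 48 (fun i => f i % q) q := by
  have hR : (2 ^ 30 / q + 1) * q ≤ 2 ^ 30 + q := by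
    have := Nat.div_mul_le_self (2 ^ 30) q
    nlinarith
  have h1 : 2 ^ 30 ≤ (2 ^ 30 / q + 1) * q := by
    have h1 := Nat.div_add_mod (2 ^ 30) q
    have h2 := Nat.mod_lt (2 ^ 30) hq
    generalize 2 ^ 30 / q = a at *
    nlinarith
  have hsq : q * q ≤ 1000 * 1000 := Nat.mul_le_mul hq1 hq1
  exact modv_spec (w := 48) (by norm_num) (k := 30) (m := 18) (B := q * q) hq h1 (by
      have h2 : (2 ^ 30 / q + 1) * q - 2 ^ 30 ≤ q := by omega
      calc (q * q + q) * ((2 ^ 30 / q + 1) * q - 2 ^ 30) ≤ (1000 * 1000 + 1000) * 1000 :=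
            Nat.mul_le_mul (by omega) (by omega)
        _ < 2 ^ 30 := by norm_num) hf (by
      calc q * q * (2 ^ 30 / q + 1) = q * ((2 ^ 30 / q + 1) * q) := by ring
        _ ≤ 1000 * (2 ^ 30 + 1000) := Nat.mul_le_mul hq1 (by omega)
        _ ≤ 2 ^ 48 := by norm_num) (by norm_num) (by
      exact Nat.mul_le_mul_left _ (hq1.trans (by norm_num)))

/-- the mask of bit `b` -/
lemma mask_spec {c : ℕ → ℕ} (hc : ∀ i < q, c i < 16) (b : ℕ) (hb : b < 4) :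
    1023 * ((packR 48 c q >>> b) &&& packR 48 (fun _ => 1) q) =
      packR 48 (fun i => if decide (c i / 2 ^ b % 2 = 1) then 2 ^ 10 - 1 else 0) q := by
  have h := shift_land (w := 48) (by norm_num) (f := c) (n := q) (k := b) (m := 1)
    (fun i hi => (hc i hi).trans (by norm_num)) (by omega)
  have e : (2 ^ 1 - 1 : ℕ) = 1 := by norm_num
  rw [e] at h
  rw [h, packR_mul]
  refine packR_congr fun i _ => ?_
  rcases Nat.mod_two_eq_zero_or_one (c i / 2 ^ b) with h0 | h0 <;> simp [h0]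

lemma cyv_spec {c y : ℕ → ℕ} (hc : ∀ i < q, c i < 16) (hy : ∀ i < q, y i < 1024)
    {m0 m1 m2 m3 : ℕ} (h0 : m0 = 1023 * ((packR 48 c q >>> 0) &&& packR 48 (fun _ => 1) q))
    (h1 : m1 = 1023 * ((packR 48 c q >>> 1) &&& packR 48 (fun _ => 1) q))
    (h2 : m2 = 1023 * ((packR 48 c q >>> 2) &&& packR 48 (fun _ => 1) q))
    (h3 : m3 = 1023 * ((packR 48 c q >>> 3) &&& packR 48 (fun _ => 1) q)) :
    cyv m0 m1 m2 m3 (packR 48 y q) = packR 48 (fun i => c i * y i) q := by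
  have e : cyv m0 m1 m2 m3 (packR 48 y q) = (packR 48 y q &&& m0) + 2 * ((packR 48 y q &&& m1) +
    2 * ((packR 48 y q &&& m2) + 2 * (packR 48 y q &&& m3))) := rfl
  have hy' : ∀ i < q, y i < 2 ^ 10 := fun i hi => by simpa using hy i hi
  rw [e, h0, h1, h2, h3, mask_spec hc 0 (by norm_num), mask_spec hc 1 (by norm_num),
    mask_spec hc 2 (by norm_num), mask_spec hc 3 (by norm_num),
    mask_land (by norm_num) hy' (by norm_num), mask_land (by norm_num) hy' (by norm_num),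
    mask_land (by norm_num) hy' (by norm_num), mask_land (by norm_num) hy' (by norm_num),
    packR_mul, packR_add, packR_mul, packR_add, packR_mul, packR_add]
  refine packR_congr fun i hi => ?_
  have := hc i hi
  generalize c i = x at *
  interval_cases x <;> simp <;> ring

lemma dotv_spec (hq : 0 < q) {f g : ℕ → ℕ} {F G : ℕ} (hf : ∀ i < q, f i ≤ F)
    (hg : ∀ i < q, g i ≤ G) (h : q * (F * G) < 2 ^ 48) :
    dotv (48 * (q - 1)) (packR 48 f q) (packR 48 g q) = ∑ i ∈ range q, f i * g (q - 1 - i) := by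
  rw [← packR_dot hq hf hg h]
  unfold dotv
  change (packR 48 f q * packR 48 g q) >>> (48 * (q - 1)) % 2 ^ 48 = _
  rw [Nat.shiftRight_eq_div_pow]

end Vec

/-! ### the moments -/

section Mom

variable (n1 n2 l T1 T2 q : ℕ)

/-- first moment -/
def M1 (Y : ℕ) : ℕ := ∑ i ∈ range q, cSq n1 n2 l T1 T2 i * (Y * i % q)
/-- second moment -/
def M2 (Y : ℕ) : ℕ := ∑ i ∈ range q, (Y * i % q) * (cSq n1 n2 l T1 T2 i * (Y * i % q))
/-- mixed moment -/
def MXY (X Y : ℕ) : ℕ := ∑ i ∈ range q, (X * i % q) * (cSq n1 n2 l T1 T2 i * (Y * i % q))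
/-- zeroth moment -/
def M0 : ℕ := ∑ i ∈ range q, cSq n1 n2 l T1 T2 i

/-- the vector of products with `X` -/
def XF (X : ℕ) : ℕ := packR 48 (fun i => X * i % q) q
/-- the weighted reversed vector of products with `Y` -/
def CY (Y : ℕ) : ℕ := packR 48 (fun i => cSq n1 n2 l T1 T2 (q - 1 - i) * (Y * (q - 1 - i) % q)) q

variable {n1 n2 l T1 T2 q}

lemma cSq_lt (hl : 0 < l) (hl16 : l ≤ 16) (x : ℕ) : cSq n1 n2 l T1 T2 x < 16 := by
  rw [cSq_eq]
  exact (Nat.mod_lt _ hl).trans_le hl16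

lemma xf_spec (hq : 0 < q) (hq1 : q ≤ 1000) {X : ℕ} (hX : X < q) :
    modq q (2 ^ 30 / q + 1) (packR 48 (fun _ => 2 ^ 18 - 1) q)
      (Nat.mul X (packR 48 (fun i => i) q)) = XF q X := by
  change modq q (2 ^ 30 / q + 1) (packR 48 (fun _ => 2 ^ 18 - 1) q)
      (X * packR 48 (fun i => i) q) = _
  rw [packR_mul, modq_spec hq hq1 (fun i hi => ?_)]
  · rfl
  · exact lt_of_le_of_lt (Nat.mul_le_mul_left X hi.le) (Nat.mul_lt_mul_of_pos_right hX hq)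

lemma cy_spec (hq : 0 < q) (hq1 : q ≤ 1000) (hl : 0 < l) (hl16 : l ≤ 16) {Y : ℕ} (hY : Y < q)
    {m0 m1 m2 m3 C : ℕ} (hC : C = packR 48 (fun i => cSq n1 n2 l T1 T2 (q - 1 - i)) q)
    (h0 : m0 = 1023 * ((C >>> 0) &&& packR 48 (fun _ => 1) q))
    (h1 : m1 = 1023 * ((C >>> 1) &&& packR 48 (fun _ => 1) q))
    (h2 : m2 = 1023 * ((C >>> 2) &&& packR 48 (fun _ => 1) q))
    (h3 : m3 = 1023 * ((C >>> 3) &&& packR 48 (fun _ => 1) q)) :
    cyv m0 m1 m2 m3 (modq q (2 ^ 30 / q + 1) (packR 48 (fun _ => 2 ^ 18 - 1) q)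
      (Nat.mul Y (packR 48 (fun i => q - 1 - i) q))) = CY n1 n2 l T1 T2 q Y := by
  subst hC
  have e : modq q (2 ^ 30 / q + 1) (packR 48 (fun _ => 2 ^ 18 - 1) q)
      (Nat.mul Y (packR 48 (fun i => q - 1 - i) q)) =
      packR 48 (fun i => Y * (q - 1 - i) % q) q := by
    change modq q (2 ^ 30 / q + 1) (packR 48 (fun _ => 2 ^ 18 - 1) q)
      (Y * packR 48 (fun i => q - 1 - i) q) = _
    rw [packR_mul, modq_spec hq hq1 (fun i _ => ?_)]
    exact lt_of_le_of_lt (Nat.mul_le_mul_left Y (show q - 1 - i ≤ q by omega))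
      (Nat.mul_lt_mul_of_pos_right hY hq)
  rw [e, cyv_spec (c := fun i => cSq n1 n2 l T1 T2 (q - 1 - i))
    (fun i _ => cSq_lt hl hl16 _) (fun i _ => (Nat.mod_lt _ hq).trans_le (by omega)) h0 h1 h2 h3]
  rfl

lemma sum_rev (hq : 0 < q) (f : ℕ → ℕ) :
    ∑ i ∈ range q, f (q - 1 - i) = ∑ i ∈ range q, f i := by
  exact Finset.sum_range_reflect f q

lemma s1_spec (hq : 0 < q) (hq1 : q ≤ 1000) (hl : 0 < l) (hl16 : l ≤ 16) (Y : ℕ) :
    Nat.mod (CY n1 n2 l T1 T2 q Y) 281474976710655 = M1 n1 n2 l T1 T2 q Y := by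
  have e : (281474976710655 : ℕ) = 2 ^ 48 - 1 := by norm_num
  have hb : ∑ i ∈ range q, cSq n1 n2 l T1 T2 (q - 1 - i) * (Y * (q - 1 - i) % q) < 2 ^ 48 - 1 := by
    have : ∑ i ∈ range q, cSq n1 n2 l T1 T2 (q - 1 - i) * (Y * (q - 1 - i) % q) ≤
        ∑ i ∈ range q, 15 * 1000 := sum_le_sum fun i _ =>
      Nat.mul_le_mul (Nat.le_of_lt_succ (cSq_lt hl hl16 _))
        ((Nat.mod_lt _ hq).le.trans hq1)
    rw [sum_const, card_range, smul_eq_mul] at this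
    have h2 : q * (15 * 1000) ≤ 1000 * (15 * 1000) := Nat.mul_le_mul_right _ hq1
    refine this.trans_lt (h2.trans_lt (by norm_num))
  change CY n1 n2 l T1 T2 q Y % 281474976710655 = _
  rw [e]
  unfold CY M1
  rw [packR_digsum (by norm_num) hb]
  exact sum_rev hq (fun i => cSq n1 n2 l T1 T2 i * (Y * i % q))

lemma dot_CY (hq : 0 < q) (hq1 : q ≤ 1000) (hl : 0 < l) (hl16 : l ≤ 16) (X Y : ℕ) :
    dotv (48 * (q - 1)) (XF q X) (CY n1 n2 l T1 T2 q Y) = MXY n1 n2 l T1 T2 q X Y := by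
  unfold XF CY MXY
  rw [dotv_spec hq (F := 1000) (G := 15 * 1000) (fun i _ => (Nat.mod_lt _ hq).le.trans hq1)
    (fun i _ => Nat.mul_le_mul (Nat.le_of_lt_succ (cSq_lt hl hl16 _))
        ((Nat.mod_lt _ hq).le.trans hq1)) (by
      calc q * (1000 * (15 * 1000)) ≤ 1000 * (1000 * (15 * 1000)) := Nat.mul_le_mul_right _ hq1
        _ < 2 ^ 48 := by norm_num)]
  refine sum_congr rfl fun i hi => ?_
  have hi' := mem_range.mp hi
  have : q - 1 - (q - 1 - i) = i := by omega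
  rw [this]

lemma s0_spec (hq : 0 < q) (hq1 : q ≤ 1000) (hl : 0 < l) (hl16 : l ≤ 16) :
    Nat.mod (packR 48 (fun i => cSq n1 n2 l T1 T2 (q - 1 - i)) q) 281474976710655 =
      M0 n1 n2 l T1 T2 q := by
  have e : (281474976710655 : ℕ) = 2 ^ 48 - 1 := by norm_num
  have hb : ∑ i ∈ range q, cSq n1 n2 l T1 T2 (q - 1 - i) < 2 ^ 48 - 1 := by
    have : ∑ i ∈ range q, cSq n1 n2 l T1 T2 (q - 1 - i) ≤
        ∑ i ∈ range q, 15 := sum_le_sum fun i _ => Nat.le_of_lt_succ (cSq_lt hl hl16 _)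
    rw [sum_const, card_range, smul_eq_mul] at this
    have h2 : q * 15 ≤ 1000 * 15 := Nat.mul_le_mul_right _ hq1
    refine this.trans_lt (h2.trans_lt (by norm_num))
  change packR 48 (fun i => cSq n1 n2 l T1 T2 (q - 1 - i)) q % 281474976710655 = _
  rw [e, packR_digsum (by norm_num) hb]
  exact sum_rev hq (fun i => cSq n1 n2 l T1 T2 i)

/-! ### the moments and the weights -/

lemma CT_eq (hl : 0 < l) (hl16 : l ≤ 16) {z : ℕ} (hz : z < n1 * n2) :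
    ch (CTf n1 n2 l T1 T2) z = cSq n1 n2 l T1 T2 z := by
  unfold CTf
  rw [ch_packR (f := fun x => (ch T1 (x % n1) * ch T2 (x % n2)) *
  (ch T1 (x % n1) * ch T2 (x % n2)) % l) (fun m => (Nat.mod_lt _ hl).trans_le hl16) hz, cSq_eq]

lemma sE_eq (hq : 0 < n1 * n2) (hl : 2 ≤ l) (hl16 : l ≤ 16) (Y : ℕ) :
    sE (n1 * n2) (CTf n1 n2 l T1 T2) (GTf (n1 * n2) l) Y % l =
      ev (n1 * n2) l (M0 n1 n2 l T1 T2 (n1 * n2)) (M1 n1 n2 l T1 T2 (n1 * n2) Y)
        (MXY n1 n2 l T1 T2 (n1 * n2) Y Y) := by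
  set q := n1 * n2 with hqd
  have e : ev q l (M0 n1 n2 l T1 T2 q) (M1 n1 n2 l T1 T2 q Y) (MXY n1 n2 l T1 T2 q Y Y) =
      (6 * MXY n1 n2 l T1 T2 q Y Y + ((6 * (l - 1)) * (q * M1 n1 n2 l T1 T2 q Y) +
        (q * q) * M0 n1 n2 l T1 T2 q)) % l := rfl
  rw [e]
  apply (ZMod.natCast_eq_natCast_iff' _ _ l).mp
  unfold sE MXY M1 M0
  push_cast
  simp only [mul_sum]
  rw [← sum_add_distrib, ← sum_add_distrib]
  refine sum_congr rfl fun i hi => ?_
  have hi' := mem_range.mp hi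
  unfold tE
  rw [CT_eq (by omega) hl16 (by rw [← hqd]; exact hi')]
  unfold GTf
  rw [ch_packR (fun m => gam_lt _ _ _ (by omega) hl16) (Nat.mod_lt _ hq)]
  have hg : gam q l (i * Y % q) = (6 * ((i * Y % q) * (i * Y % q)) +
    6 * (l - 1) * (q * (i * Y % q)) + q * q) % l := rfl
  rw [hg, mul_comm Y i]
  push_cast [ZMod.natCast_mod]
  ring

lemma sg_eq (x : ℕ) : sg x = if x = 0 then 0 else 1 := by
  unfold sg
  cases x with
  | zero => rfl
  | succ x => change 1 - (1 - (x + 1)) = _; simp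

lemma bet_fac (hq : 0 < q) (hl : 2 ≤ l) {X i : ℕ} (hX : X < q) (hi : Nat.Coprime i q) :
    ((bet q l (i * X % q) : ℕ) : ZMod l) =
      (((l - 2) * (X * i % q) + q * sg X : ℕ) : ZMod l) := by
  rw [sg_eq, mul_comm X i]
  by_cases h0 : X = 0
  · subst h0
    simp [bet]
  · rw [if_neg h0]
    have hne : i * X % q ≠ 0 := by
      intro h
      have hd : q ∣ i * X := Nat.dvd_of_mod_eq_zero h
      have hd2 : q ∣ X := (Nat.Coprime.dvd_mul_left hi.symm).mp hd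
      exact h0 (Nat.eq_zero_of_dvd_of_lt hd2 hX)
    obtain ⟨r, hr⟩ := Nat.exists_eq_succ_of_ne_zero hne
    rw [hr]
    have : bet q l (r + 1) = (q + (l - 2) * (r + 1)) % l := rfl
    rw [Nat.succ_eq_add_one, this, ZMod.natCast_mod, mul_one, add_comm]

lemma sD_eq (hq : 0 < n1 * n2) (hl : 2 ≤ l) (hl16 : l ≤ 16)
    (hco : ∀ i < n1 * n2, ¬ Nat.Coprime i (n1 * n2) → cSq n1 n2 l T1 T2 i = 0)
    {X Y : ℕ} (hX : X < n1 * n2) (hY : Y < n1 * n2) :
    sD (n1 * n2) (CTf n1 n2 l T1 T2) (BTf (n1 * n2) l) X Y % l =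
      dv (n1 * n2) l (M0 n1 n2 l T1 T2 (n1 * n2)) (sg X) (sg Y)
        (M1 n1 n2 l T1 T2 (n1 * n2) X) (M1 n1 n2 l T1 T2 (n1 * n2) Y)
        (MXY n1 n2 l T1 T2 (n1 * n2) X Y) := by
  set q := n1 * n2 with hqd
  have e : dv q l (M0 n1 n2 l T1 T2 q) (sg X) (sg Y)
        (M1 n1 n2 l T1 T2 q X) (M1 n1 n2 l T1 T2 q Y) (MXY n1 n2 l T1 T2 q X Y) =
      (((l - 2) * (l - 2)) * MXY n1 n2 l T1 T2 q X Y + (((l - 2) * q) *
        (sg Y * M1 n1 n2 l T1 T2 q X + sg X * M1 n1 n2 l T1 T2 q Y) +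
        (q * q) * ((sg X * sg Y) * M0 n1 n2 l T1 T2 q))) % l := rfl
  rw [e]
  apply (ZMod.natCast_eq_natCast_iff' _ _ l).mp
  unfold sD MXY M1 M0
  push_cast
  simp only [mul_sum]
  rw [← sum_add_distrib]
  simp only [mul_sum]
  rw [← sum_add_distrib, ← sum_add_distrib]
  refine sum_congr rfl fun i hi => ?_
  have hi' := mem_range.mp hi
  unfold tD
  rw [CT_eq (by omega) hl16 (by rw [← hqd]; exact hi')]
  unfold BTf
  rw [ch_packR (fun m => bet_lt _ _ _ (by omega) hl16) (Nat.mod_lt _ hq),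
    ch_packR (fun m => bet_lt _ _ _ (by omega) hl16) (Nat.mod_lt _ hq)]
  by_cases hc : Nat.Coprime i q
  · have hx := bet_fac hq hl hX hc
    have hy := bet_fac hq hl hY hc
    push_cast at hx hy ⊢
    rw [hx, hy]
    ring
  · rw [hco i hi' hc]
    push_cast
    ring

end Mom

/-! ### the rows -/

section Rows

variable {n1 n2 l T1 T2 e1 e2 : ℕ}

/-- the standard value of the weight `E` -/
def EX (n1 n2 l T1 T2 X : ℕ) : ℕ :=
  ev (n1 * n2) l (M0 n1 n2 l T1 T2 (n1 * n2)) (M1 n1 n2 l T1 T2 (n1 * n2) X)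
    (MXY n1 n2 l T1 T2 (n1 * n2) X X)

/-- the constants are right -/
structure Cst (n1 n2 l T1 T2 R M I J m0 m1 m2 m3 S0 sh : ℕ) : Prop where
  hq : 0 < n1 * n2
  hq1 : n1 * n2 ≤ 1000
  hl : 2 ≤ l
  hl16 : l ≤ 16
  hco : ∀ i < n1 * n2, ¬ Nat.Coprime i (n1 * n2) → cSq n1 n2 l T1 T2 i = 0
  hR : R = 2 ^ 30 / (n1 * n2) + 1
  hM : M = packR 48 (fun _ => 2 ^ 18 - 1) (n1 * n2)
  hI : I = packR 48 (fun i => i) (n1 * n2)
  hJ : J = packR 48 (fun i => n1 * n2 - 1 - i) (n1 * n2)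
  h0 : m0 = 1023 * ((packR 48 (fun i => cSq n1 n2 l T1 T2 (n1 * n2 - 1 - i)) (n1 * n2) >>> 0) &&&
    packR 48 (fun _ => 1) (n1 * n2))
  h1 : m1 = 1023 * ((packR 48 (fun i => cSq n1 n2 l T1 T2 (n1 * n2 - 1 - i)) (n1 * n2) >>> 1) &&&
    packR 48 (fun _ => 1) (n1 * n2))
  h2 : m2 = 1023 * ((packR 48 (fun i => cSq n1 n2 l T1 T2 (n1 * n2 - 1 - i)) (n1 * n2) >>> 2) &&&
    packR 48 (fun _ => 1) (n1 * n2))
  h3 : m3 = 1023 * ((packR 48 (fun i => cSq n1 n2 l T1 T2 (n1 * n2 - 1 - i)) (n1 * n2) >>> 3) &&&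
    packR 48 (fun _ => 1) (n1 * n2))
  hS : S0 = M0 n1 n2 l T1 T2 (n1 * n2)
  hsh : sh = 48 * (n1 * n2 - 1)

variable {R M I J m0 m1 m2 m3 S0 sh : ℕ}

lemma Cst.xf (K : Cst n1 n2 l T1 T2 R M I J m0 m1 m2 m3 S0 sh) {X : ℕ} (hX : X < n1 * n2) :
    modq (n1 * n2) R M (Nat.mul X I) = XF (n1 * n2) X := by
  rw [K.hR, K.hM, K.hI]
  exact xf_spec K.hq K.hq1 hX

lemma Cst.cy (K : Cst n1 n2 l T1 T2 R M I J m0 m1 m2 m3 S0 sh) {Y : ℕ} (hY : Y < n1 * n2) :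
    cyv m0 m1 m2 m3 (modq (n1 * n2) R M (Nat.mul Y J)) = CY n1 n2 l T1 T2 (n1 * n2) Y := by
  have hl := K.hl
  rw [K.hR, K.hM, K.hJ]
  exact cy_spec K.hq K.hq1 (by omega) K.hl16 hY rfl K.h0 K.h1 K.h2 K.h3

lemma Cst.s1 (K : Cst n1 n2 l T1 T2 R M I J m0 m1 m2 m3 S0 sh) (Y : ℕ) :
    Nat.mod (CY n1 n2 l T1 T2 (n1 * n2) Y) (nat_lit 281474976710655) =
      M1 n1 n2 l T1 T2 (n1 * n2) Y := by
  have hl := K.hl
  exact s1_spec K.hq K.hq1 (by omega) K.hl16 Y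

lemma Cst.dot (K : Cst n1 n2 l T1 T2 R M I J m0 m1 m2 m3 S0 sh) (X Y : ℕ) :
    dotv sh (XF (n1 * n2) X) (CY n1 n2 l T1 T2 (n1 * n2) Y) =
      MXY n1 n2 l T1 T2 (n1 * n2) X Y := by
  have hl := K.hl
  rw [K.hsh]
  exact dot_CY K.hq K.hq1 (by omega) K.hl16 X Y

lemma Cst.ex (K : Cst n1 n2 l T1 T2 R M I J m0 m1 m2 m3 S0 sh) (Y : ℕ) :
    ev (n1 * n2) l S0 (M1 n1 n2 l T1 T2 (n1 * n2) Y) (MXY n1 n2 l T1 T2 (n1 * n2) Y Y) =
      EX n1 n2 l T1 T2 Y := by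
  rw [K.hS]; rfl

lemma Cst.pair (K : Cst n1 n2 l T1 T2 R M I J m0 m1 m2 m3 S0 sh) {X Y : ℕ}
    (hX : X < n1 * n2) (hY : Y < n1 * n2) :
    pairv (n1 * n2) l R M I J m0 m1 m2 m3 S0 sh X (XF (n1 * n2) X)
      (M1 n1 n2 l T1 T2 (n1 * n2) X) (EX n1 n2 l T1 T2 X) Y =
      dfull (n1 * n2) l (CTf n1 n2 l T1 T2) (BTf (n1 * n2) l) (GTf (n1 * n2) l) X Y := by
  unfold pairv
  rw [K.xf hY, K.cy hY]
  dsimp only
  rw [strict_eq, K.s1, K.dot, K.dot, K.ex, dfull_eq _ _ _ _ _ _ _ K.hq1,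
    sD_eq K.hq K.hl K.hl16 K.hco hX hY, sE_eq K.hq K.hl K.hl16, sE_eq K.hq K.hl K.hl16, K.hS]
  change _ + (65536 * _ + 4294967296 * _) = _
  have e1 : (65536 : ℕ) = 2 ^ 16 := by norm_num
  have e2 : (4294967296 : ℕ) = 2 ^ 32 := by norm_num
  rw [e1, e2, ← add_assoc]
  rfl

lemma Cst.row (K : Cst n1 n2 l T1 T2 R M I J m0 m1 m2 m3 S0 sh) (P : ℕ × ℕ)
    (L2 : List (ℕ × ℕ)) (Xl xf s1 ex : ℕ) (h : Xl < n1 * n2 → xf = XF (n1 * n2) Xl ∧
      s1 = M1 n1 n2 l T1 T2 (n1 * n2) Xl ∧ ex = EX n1 n2 l T1 T2 Xl) :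
    rowv (n1 * n2) l e1 e2 R M I J m0 m1 m2 m3 S0 sh L2 P Xl xf s1 ex =
      packL (2 ^ 48) (gW n1 n2 l e1 e2 T1 T2 P) L2 := by
  induction L2 generalizing Xl xf s1 ex with
  | nil => rfl
  | cons Q Qs ih =>
    have hX : (P.1 * e1 + Q.1 * e2) % (n1 * n2) < n1 * n2 := Nat.mod_lt _ K.hq
    have hY : (P.2 * e1 + Q.2 * e2) % (n1 * n2) < n1 * n2 := Nat.mod_lt _ K.hq
    have e48 : (281474976710656 : ℕ) = 2 ^ 48 := by norm_num
    have key : rowv (n1 * n2) l e1 e2 R M I J m0 m1 m2 m3 S0 sh (Q :: Qs) P Xl xf s1 ex =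
      strict ((P.1 * e1 + Q.1 * e2) % (n1 * n2)) (fun X =>
      strict ((P.2 * e1 + Q.2 * e2) % (n1 * n2)) fun Y =>
      @Bool.rec (fun _ => ℕ)
        ((fun xf1 cx => strict (Nat.mod cx (nat_lit 281474976710655)) fun s11 =>
          strict (ev (n1 * n2) l S0 s11 (dotv sh xf1 cx)) fun ex1 =>
          pairv (n1 * n2) l R M I J m0 m1 m2 m3 S0 sh X xf1 s11 ex1 Y +
            281474976710656 * (rowv (n1 * n2) l e1 e2 R M I J m0 m1 m2 m3 S0 sh Qs P X xf1 s11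
              ex1))
          (modq (n1 * n2) R M (Nat.mul X I))
          (cyv m0 m1 m2 m3 (modq (n1 * n2) R M (Nat.mul X J))))
        (pairv (n1 * n2) l R M I J m0 m1 m2 m3 S0 sh X xf s1 ex Y +
            281474976710656 * (rowv (n1 * n2) l e1 e2 R M I J m0 m1 m2 m3 S0 sh Qs P Xl xf s1 ex))
        (Nat.beq X Xl)) := rfl
    rw [key, strict_eq, strict_eq, packL_cons]
    have g : gW n1 n2 l e1 e2 T1 T2 P Q = dfull (n1 * n2) l (CTf n1 n2 l T1 T2)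
      (BTf (n1 * n2) l) (GTf (n1 * n2) l) ((P.1 * e1 + Q.1 * e2) % (n1 * n2))
      ((P.2 * e1 + Q.2 * e2) % (n1 * n2)) := rfl
    rw [g]
    generalize (P.1 * e1 + Q.1 * e2) % (n1 * n2) = X at *
    generalize (P.2 * e1 + Q.2 * e2) % (n1 * n2) = Y at *
    cases hb : Nat.beq X Xl with
    | false =>
      dsimp only
      rw [K.xf hX, K.cy hX, strict_eq, K.s1, strict_eq, K.dot, K.ex, K.pair hX hY, ih]
      · rw [e48]
      · intro _
        exact ⟨rfl, rfl, rfl⟩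
    | true =>
      have hXX : X = Xl := Nat.eq_of_beq_eq_true hb
      subst hXX
      obtain ⟨a1, a2, a3⟩ := h hX
      dsimp only
      rw [a1, a2, a3, K.pair hX hY, ih]
      · rw [e48]
      · intro _
        exact ⟨rfl, rfl, rfl⟩

lemma eqW_spec' {f : ℕ × ℕ → ℕ} {L : List (ℕ × ℕ)} {M : List ((ℕ × ℕ) × ℕ)}
    (h : eqW f L M = true) : M = L.map fun P => (P, f P) := eqW_spec h

/-- soundness of the check -/
lemma drCheckV_spec {L1 L2 : List (ℕ × ℕ)} {DRs : List ((ℕ × ℕ) × ℕ)}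
    (h : drCheckV n1 n2 (n1 * n2) l e1 e2 T1 T2 L1 L2 DRs = true) :
    DRs = DRstd n1 n2 l e1 e2 T1 T2 L1 L2 := by
  unfold drCheckV at h
  obtain ⟨hq, h⟩ := andb_spec h
  obtain ⟨hq1, h⟩ := andb_spec h
  obtain ⟨hl, h⟩ := andb_spec h
  obtain ⟨hl16, h⟩ := andb_spec h
  obtain ⟨hco, h⟩ := andb_spec h
  have hq' : 1 ≤ n1 * n2 := Nat.le_of_ble_eq_true hq
  have hq1' : n1 * n2 ≤ 1000 := Nat.le_of_ble_eq_true hq1
  have hl' : 2 ≤ l := Nat.le_of_ble_eq_true hl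
  have hl16' : l ≤ 16 := Nat.le_of_ble_eq_true hl16
  have hO : onesv (n1 * n2) = packR 48 (fun _ => 1) (n1 * n2) := by
    change (2 ^ (48 * (n1 * n2)) - 1) / 281474976710655 = _
    have e : (281474976710655 : ℕ) = 2 ^ 48 - 1 := by norm_num
    rw [e, ← ones_eq, Nat.mul_div_cancel _ (by norm_num)]
  have hJ : Nat.div (Nat.sub (packR 48 (fun _ => 1) (n1 * n2)) (n1 * n2)) 281474976710655 =
      packR 48 (fun i => n1 * n2 - 1 - i) (n1 * n2) := by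
    change (packR 48 (fun _ => 1) (n1 * n2) - n1 * n2) / 281474976710655 = _
    have e : (281474976710655 : ℕ) = 2 ^ 48 - 1 := by norm_num
    rw [e, ← rev_eq, Nat.add_sub_cancel, Nat.mul_div_cancel _ (by norm_num)]
  have hI : Nat.sub (Nat.mul (Nat.sub (n1 * n2) 1) (packR 48 (fun _ => 1) (n1 * n2)))
      (packR 48 (fun i => n1 * n2 - 1 - i) (n1 * n2)) = packR 48 (fun i => i) (n1 * n2) :=
    iota_eq 48 (n1 * n2)
  have hM : Nat.mul 262143 (packR 48 (fun _ => 1) (n1 * n2)) =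
      packR 48 (fun _ => 2 ^ 18 - 1) (n1 * n2) := by
    change 262143 * _ = _
    rw [packR_mul]
    exact packR_congr fun i _ => by norm_num
  rw [strict_eq, hO] at h
  dsimp only at h
  rw [hJ, strict_eq, hI, hM] at h
  unfold drW at h
  dsimp only at h
  rw [strict_eq] at h
  have hCeq : packR 48 (fun i => cSq n1 n2 l T1 T2 (Nat.sub (Nat.sub (n1 * n2) 1) i)) (n1 * n2) =
      packR 48 (fun i => cSq n1 n2 l T1 T2 (n1 * n2 - 1 - i)) (n1 * n2) := rfl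
  have K : Cst n1 n2 l T1 T2 (Nat.succ (Nat.div 1073741824 (n1 * n2)))
      (packR 48 (fun _ => 2 ^ 18 - 1) (n1 * n2)) (packR 48 (fun i => i) (n1 * n2))
      (packR 48 (fun i => n1 * n2 - 1 - i) (n1 * n2))
      (Nat.mul 1023 (Nat.land (packR 48 (fun i => cSq n1 n2 l T1 T2
        (Nat.sub (Nat.sub (n1 * n2) 1) i)) (n1 * n2)) (packR 48 (fun _ => 1) (n1 * n2))))
      (Nat.mul 1023 (Nat.land (Nat.shiftRight (packR 48 (fun i => cSq n1 n2 l T1 T2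
        (Nat.sub (Nat.sub (n1 * n2) 1) i)) (n1 * n2)) 1) (packR 48 (fun _ => 1) (n1 * n2))))
      (Nat.mul 1023 (Nat.land (Nat.shiftRight (packR 48 (fun i => cSq n1 n2 l T1 T2
        (Nat.sub (Nat.sub (n1 * n2) 1) i)) (n1 * n2)) 2) (packR 48 (fun _ => 1) (n1 * n2))))
      (Nat.mul 1023 (Nat.land (Nat.shiftRight (packR 48 (fun i => cSq n1 n2 l T1 T2
        (Nat.sub (Nat.sub (n1 * n2) 1) i)) (n1 * n2)) 3) (packR 48 (fun _ => 1) (n1 * n2))))
      (Nat.mod (packR 48 (fun i => cSq n1 n2 l T1 T2 (Nat.sub (Nat.sub (n1 * n2) 1) i))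
        (n1 * n2)) 281474976710655)
      (Nat.mul 48 (Nat.sub (n1 * n2) 1)) :=
    { hq := hq'
      hq1 := hq1'
      hl := hl'
      hl16 := hl16'
      hco := by
        intro i hi hc
        have h2 := allR_spec hco i hi
        cases h3 : Nat.beq (Nat.gcd i (n1 * n2)) (nat_lit 1) with
        | false =>
          rw [h3] at h2
          exact Nat.eq_of_beq_eq_true h2
        | true => exact absurd (Nat.eq_of_beq_eq_true h3) hc
      hR := rfl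
      hM := rfl
      hI := rfl
      hJ := rfl
      h0 := by rw [Nat.shiftRight_zero]; rfl
      h1 := rfl
      h2 := rfl
      h3 := rfl
      hS := by
        rw [hCeq]
        exact s0_spec hq' hq1' (by omega) hl16'
      hsh := rfl }
  rw [eqW_spec' h]
  unfold DRstd
  apply List.map_congr_left
  intro P _
  congr 1
  exact K.row P L2 (n1 * n2) 0 0 0 (fun h => absurd h (lt_irrefl _))

end Rows

end Pool.Agent.LibH4.KV
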