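import Mathlib
import Pool.Agent.RQM.C12a
import Pool.Agent.RQM.C13
import Pool.Agent.RQM.V1
import Pool.Agent.RQM.V2

/-!
Fast comparison of the reduced lanes in `checkR`: all entries of a row are compared at once.
-/

namespace Pool.Agent.LibH4.KV

open Finset Ker KF T6

/-- digit `i` in base `2 ^ w` -/
def dgt (w X i : ℕ) : ℕ := X / 2 ^ (w * i) % 2 ^ w

/-- a mask keeps the low parts of the digits -/
lemma land_mask {w m n : ℕ} (hw : 0 < w) (hm : m ≤ w) (X : ℕ) :
    X &&& packR w (fun _ => 2 ^ m - 1) n = packR w (fun i => X / 2 ^ (w * i) % 2 ^ m) n := by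
  have hmw : 2 ^ m ≤ 2 ^ w := Nat.pow_le_pow_right (by norm_num) hm
  have hp : 0 < 2 ^ m := by positivity
  have h1 : ∀ i < n, (fun _ : ℕ => 2 ^ m - 1) i < 2 ^ w := by
    intro i _
    show 2 ^ m - 1 < 2 ^ w
    omega
  have h2 : ∀ i < n, (fun i => X / 2 ^ (w * i) % 2 ^ m) i < 2 ^ w := by
    intro i _
    exact (Nat.mod_lt _ hp).trans_le hmw
  apply Nat.eq_of_testBit_eq
  intro j
  rw [Nat.testBit_land, packR_testBit hw h1, packR_testBit hw h2, Nat.testBit_two_pow_sub_one,
    Nat.testBit_mod_two_pow, Nat.testBit_div_two_pow]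
  have e : j % w + w * (j / w) = j := Nat.mod_add_div j w
  rw [e]
  cases X.testBit j <;> cases decide (j / w < n) <;> cases decide (j % w < m) <;> rfl

/-- the vector of ones in base `2 ^ w` -/
def onesW (w n : ℕ) : ℕ :=
  Nat.div (Nat.sub (Nat.pow (nat_lit 2) (Nat.mul w n)) (nat_lit 1))
    (Nat.sub (Nat.pow (nat_lit 2) w) (nat_lit 1))

lemma onesW_eq {w n : ℕ} (hw : 0 < w) : onesW w n = packR w (fun _ => 1) n := by
  change (2 ^ (w * n) - 1) / (2 ^ w - 1) = _
  rw [← ones_eq, Nat.mul_div_cancel]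
  have : 2 ^ 1 ≤ 2 ^ w := Nat.pow_le_pow_right (by norm_num) hw
  omega

/-- mask of `m` low bits in each of the `n` digits -/
def maskW (w m n : ℕ) : ℕ := Nat.mul (Nat.sub (Nat.pow (nat_lit 2) m) (nat_lit 1)) (onesW w n)

lemma maskW_eq {w n : ℕ} (hw : 0 < w) (m : ℕ) :
    maskW w m n = packR w (fun _ => 2 ^ m - 1) n := by
  change (2 ^ m - 1) * onesW w n = _
  rw [onesW_eq hw, packR_mul]
  exact packR_congr fun i _ => by rw [mul_one]

/-- one step of the spreading: digits in slots of `2 w` bits are cut in two halves of `b` bits,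
which go to slots of `w` bits -/
def stepS (w b n T : ℕ) : ℕ :=
  Nat.add (Nat.land T (maskW (Nat.mul (nat_lit 2) w) b n))
    (Nat.mul (Nat.pow (nat_lit 2) w)
      (Nat.land (Nat.shiftRight T b) (maskW (Nat.mul (nat_lit 2) w) b n)))

lemma interleave (w : ℕ) (F : ℕ → ℕ) (n : ℕ) :
    packR (2 * w) (fun i => F (2 * i)) n + 2 ^ w * packR (2 * w) (fun i => F (2 * i + 1)) n =
      packR w F (2 * n) := by
  induction n with
  | zero => rfl
  | succ n ih =>
    have e : 2 * (n + 1) = 2 * n + 1 + 1 := by ring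
    rw [e, packR_succ w F, packR_succ w F, ← ih, packR_succ, packR_succ]
    have e1 : w * (2 * n) = 2 * w * n := by ring
    have e2 : 2 ^ (w * (2 * n + 1)) = 2 ^ w * 2 ^ (2 * w * n) := by
      rw [← pow_add]; congr 1; ring
    rw [e1, e2]
    ring

lemma stepS_spec {w b n t : ℕ} (hw : 0 < w) (hb : b ≤ w) :
    stepS w b n (packR (2 * w) (dgt (2 * b) t) n) = packR w (dgt b t) (2 * n) := by
  have h2w : 0 < 2 * w := by omega
  have hlt : ∀ i < n, dgt (2 * b) t i < 2 ^ (2 * w) := by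
    intro i _
    exact (Nat.mod_lt _ (by positivity)).trans_le (Nat.pow_le_pow_right (by norm_num) (by omega))
  change (packR (2 * w) (dgt (2 * b) t) n &&& maskW (2 * w) b n) + 2 ^ w *
    ((packR (2 * w) (dgt (2 * b) t) n >>> b) &&& maskW (2 * w) b n) = _
  rw [maskW_eq h2w, shift_land h2w hlt (by omega)]
  have h0 := shift_land (k := 0) (m := b) h2w hlt (by omega)
  rw [Nat.shiftRight_zero] at h0
  rw [h0, ← interleave]
  have e : 2 ^ (2 * b) = 2 ^ b * 2 ^ b := by rw [← pow_add]; congr 1; ring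
  congr 1
  · refine packR_congr fun i _ => ?_
    unfold dgt
    rw [pow_zero, Nat.div_one, e, Nat.mod_mul_right_mod]
    congr 3
    ring
  · congr 1
    refine packR_congr fun i _ => ?_
    unfold dgt
    rw [e, Nat.mod_mul_right_div_self, Nat.mod_mod, Nat.div_div_eq_div_mul, ← pow_add]
    congr 3
    ring

/-- spreading over `m` levels -/
def spread (m : ℕ) : ℕ → ℕ → ℕ :=
  @Nat.rec (fun _ => ℕ → ℕ → ℕ) (fun _ T => T)
    (fun m ih n T => ih (Nat.mul (nat_lit 2) n)
      (stepS (Nat.mul (nat_lit 72) (Nat.pow (nat_lit 2) m))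
        (Nat.mul (nat_lit 12) (Nat.pow (nat_lit 2) m)) n T)) m

lemma spread_spec (m n t : ℕ) :
    spread m n (packR (72 * 2 ^ m) (dgt (12 * 2 ^ m) t) n) = packR 72 (dgt 12 t) (n * 2 ^ m) := by
  induction m generalizing n with
  | zero =>
    change packR (72 * 2 ^ 0) (dgt (12 * 2 ^ 0) t) n = _
    simp
  | succ m ih =>
    have e : spread (m + 1) n (packR (72 * 2 ^ (m + 1)) (dgt (12 * 2 ^ (m + 1)) t) n) =
      spread m (2 * n) (stepS (72 * 2 ^ m) (12 * 2 ^ m) n
        (packR (72 * 2 ^ (m + 1)) (dgt (12 * 2 ^ (m + 1)) t) n)) := rfl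
    have e1 : 72 * 2 ^ (m + 1) = 2 * (72 * 2 ^ m) := by ring
    have e2 : 12 * 2 ^ (m + 1) = 2 * (12 * 2 ^ m) := by ring
    rw [e, e1, e2, stepS_spec (by positivity) (by
      exact Nat.mul_le_mul_right _ (by norm_num)), ih]
    congr 1
    ring

/-- the three hexadecimal digits of each entry go to three slots of 24 bits -/
def hexS (N T : ℕ) : ℕ :=
  Nat.add (Nat.land T (maskW (nat_lit 72) (nat_lit 4) N))
    (Nat.add (Nat.mul (nat_lit 16777216)
      (Nat.land (Nat.shiftRight T (nat_lit 4)) (maskW (nat_lit 72) (nat_lit 4) N)))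
      (Nat.mul (nat_lit 281474976710656)
        (Nat.land (Nat.shiftRight T (nat_lit 8)) (maskW (nat_lit 72) (nat_lit 4) N))))

lemma hexS_spec (N t : ℕ) : hexS N (packR 72 (dgt 12 t) N) =
    packR 72 (fun i => dgt 12 t i % 16 + (16777216 * (dgt 12 t i / 16 % 16) +
      281474976710656 * (dgt 12 t i / 256 % 16))) N := by
  have hlt : ∀ i < N, dgt 12 t i < 2 ^ 72 := by
    intro i _
    exact (Nat.mod_lt _ (by positivity)).trans_le (Nat.pow_le_pow_right (by norm_num) (by omega))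
  change (packR 72 (dgt 12 t) N &&& maskW 72 4 N) + (16777216 *
    ((packR 72 (dgt 12 t) N >>> 4) &&& maskW 72 4 N) + 281474976710656 *
    ((packR 72 (dgt 12 t) N >>> 8) &&& maskW 72 4 N)) = _
  have h0 := shift_land (k := 0) (m := 4) (w := 72) (by norm_num) hlt (by omega)
  rw [Nat.shiftRight_zero] at h0
  rw [maskW_eq (by norm_num), h0, shift_land (by norm_num) hlt (by omega),
    shift_land (by norm_num) hlt (by omega), packR_mul, packR_mul, packR_add, packR_add]
  refine packR_congr fun i _ => ?_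
  norm_num

/-- comparison of the lanes of one row -/
def laneV (l N S r : ℕ) : Bool :=
  (fun Qt => andb (Nat.beq (Nat.add (Nat.mul l Qt) S) r) <|
    andb (Nat.beq (Nat.land Qt (maskW (nat_lit 24) (nat_lit 20) (Nat.mul (nat_lit 3) N))) Qt) <|
    Nat.beq (Nat.land (Nat.shiftRight (Nat.add S (Nat.mul (Nat.sub (nat_lit 16) l)
      (onesW (nat_lit 24) (Nat.mul (nat_lit 3) N)))) (nat_lit 4))
      (onesW (nat_lit 24) (Nat.mul (nat_lit 3) N))) (nat_lit 0))
    (Nat.div (Nat.sub r S) l)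

lemma packR_eq_zero {w : ℕ} {f : ℕ → ℕ} {n : ℕ} (h : packR w f n = 0) : ∀ i < n, f i = 0 := by
  intro i hi
  rw [packR_sum, Finset.sum_eq_zero_iff] at h
  have := h i (mem_range.mpr hi)
  rcases Nat.mul_eq_zero.mp this with h | h
  · exact h
  · exact absurd h (by positivity)

lemma triple (w : ℕ) (F : ℕ → ℕ) (n : ℕ) :
    packR (3 * w) (fun i => F (3 * i) + (2 ^ w * F (3 * i + 1) + 2 ^ (2 * w) * F (3 * i + 2))) n =
      packR w F (3 * n) := by
  induction n with
  | zero => rfl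
  | succ n ih =>
    have e : 3 * (n + 1) = 3 * n + 1 + 1 + 1 := by ring
    rw [e, packR_succ w F, packR_succ w F, packR_succ w F, ← ih, packR_succ]
    have e1 : w * (3 * n) = 3 * w * n := by ring
    have e2 : 2 ^ (w * (3 * n + 1)) = 2 ^ w * 2 ^ (3 * w * n) := by
      rw [← pow_add]; congr 1; ring
    have e3 : 2 ^ (w * (3 * n + 1 + 1)) = 2 ^ (2 * w) * 2 ^ (3 * w * n) := by
      rw [← pow_add]; congr 1; ring
    rw [e1, e2, e3]
    ring

/-- the small digits -/
def hx (t i : ℕ) : ℕ := dgt 12 t (i / 3) / 16 ^ (i % 3) % 16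

lemma hexS_spec' (N t : ℕ) : hexS N (packR 72 (dgt 12 t) N) = packR 24 (hx t) (3 * N) := by
  rw [hexS_spec, ← triple]
  refine packR_congr fun i _ => ?_
  unfold hx
  have a1 : 3 * i / 3 = i := by omega
  have a2 : 3 * i % 3 = 0 := by omega
  have a3 : (3 * i + 1) / 3 = i := by omega
  have a4 : (3 * i + 1) % 3 = 1 := by omega
  have a5 : (3 * i + 2) / 3 = i := by omega
  have a6 : (3 * i + 2) % 3 = 2 := by omega
  rw [a1, a2, a3, a4, a5, a6]
  norm_num

lemma laneV_spec {l N t r : ℕ} (hl : 0 < l) (hl16 : l ≤ 15)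
    (h : laneV l N (packR 24 (hx t) (3 * N)) r = true) :
    ∀ i < 3 * N, dgt 24 r i % l = hx t i := by
  unfold laneV at h
  obtain ⟨h1, h⟩ := andb_spec h
  obtain ⟨h2, h3⟩ := andb_spec h
  set S := packR 24 (hx t) (3 * N) with hS
  set Qt := Nat.div (Nat.sub r S) l with hQt
  have h1' : l * Qt + S = r := Nat.eq_of_beq_eq_true h1
  have h2' : Qt &&& maskW 24 20 (3 * N) = Qt := Nat.eq_of_beq_eq_true h2
  have h3' : ((S + (16 - l) * onesW 24 (3 * N)) >>> 4) &&& onesW 24 (3 * N) = 0 :=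
    Nat.eq_of_beq_eq_true h3
  rw [maskW_eq (by norm_num), land_mask (by norm_num) (by norm_num)] at h2'
  have hx16 : ∀ i, hx t i < 16 := fun i => Nat.mod_lt _ (by norm_num)
  have hsmall : ∀ i < 3 * N, hx t i < l := by
    rw [onesW_eq (by norm_num), packR_mul, hS, packR_add] at h3'
    have e : (1 : ℕ) = 2 ^ 1 - 1 := by norm_num
    have hlt : ∀ i < 3 * N, (fun i => hx t i + (16 - l) * 1) i < 2 ^ 24 := by
      intro i _
      have := hx16 i
      show hx t i + (16 - l) * 1 < 2 ^ 24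
      norm_num
      omega
    have h4 := shift_land (w := 24) (by norm_num) (k := 4) (m := 1) hlt (by norm_num)
    have e1 : (2 ^ 1 - 1 : ℕ) = 1 := by norm_num
    rw [e1] at h4
    rw [h4] at h3'
    intro i hi
    have h5 := packR_eq_zero h3' i hi
    have h6 := hx16 i
    norm_num at h5
    omega
  have hr : r = packR 24 (fun i => l * (Qt / 2 ^ (24 * i) % 2 ^ 20) + hx t i) (3 * N) := by
    rw [← packR_add, ← packR_mul, h2', ← hS, h1']
  intro i hi
  have hd : dgt 24 r i = l * (Qt / 2 ^ (24 * i) % 2 ^ 20) + hx t i := by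
    unfold dgt
    rw [hr]
    refine packR_digit' (f := fun i => l * (Qt / 2 ^ (24 * i) % 2 ^ 20) + hx t i)
      (fun j hj => ?_) hi
    have a1 : Qt / 2 ^ (24 * j) % 2 ^ 20 < 2 ^ 20 := Nat.mod_lt _ (by positivity)
    have a2 : l * (Qt / 2 ^ (24 * j) % 2 ^ 20) ≤ 15 * (2 ^ 20 - 1) :=
      Nat.mul_le_mul hl16 (by omega)
    have a3 := hx16 j
    show l * (Qt / 2 ^ (24 * j) % 2 ^ 20) + hx t j < 2 ^ 24
    norm_num at a2 ⊢
    omega
  rw [hd, Nat.mul_add_mod, Nat.mod_eq_of_lt (hsmall i hi)]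

/-- from the lanes to the digits -/
lemma red_of {l N t r : ℕ} (h : ∀ i < 3 * N, dgt 24 r i % l = hx t i) :
    ∀ j < N, dg 12 t j = red l (dg 72 r j) := by
  intro j hj
  have h0 := h (3 * j) (by omega)
  have h1 := h (3 * j + 1) (by omega)
  have h2 := h (3 * j + 2) (by omega)
  unfold hx at h0 h1 h2
  have a1 : 3 * j / 3 = j := by omega
  have a2 : 3 * j % 3 = 0 := by omega
  have a3 : (3 * j + 1) / 3 = j := by omega
  have a4 : (3 * j + 1) % 3 = 1 := by omega
  have a5 : (3 * j + 2) / 3 = j := by omega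
  have a6 : (3 * j + 2) % 3 = 2 := by omega
  rw [a1, a2, pow_zero, Nat.div_one] at h0
  rw [a3, a4, pow_one] at h1
  rw [a5, a6] at h2
  have hd : ∀ k < 3, dg 24 (dg 72 r j) k = dgt 24 r (3 * j + k) := by
    intro k hk
    rw [dg_eq, dg_eq]
    unfold dgt
    have e1 : 2 ^ 72 = 2 ^ (24 * k) * 2 ^ (72 - 24 * k) := by
      rw [← pow_add]; congr 1; omega
    rw [e1, Nat.mod_mul_right_div_self, Nat.div_div_eq_div_mul, ← pow_add]
    have e2 : (2 : ℕ) ^ 24 ∣ 2 ^ (72 - 24 * k) := pow_dvd_pow 2 (by omega)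
    rw [Nat.mod_mod_of_dvd _ e2]
    congr 3
    ring
  have hred : red l (dg 72 r j) = dg 24 (dg 72 r j) 0 % l + 16 * (dg 24 (dg 72 r j) 1 % l +
      16 * (dg 24 (dg 72 r j) 2 % l)) := rfl
  rw [hred, hd 0 (by norm_num), hd 1 (by norm_num), hd 2 (by norm_num), add_zero, h0, h1, h2,
    dg_eq]
  have e : dgt 12 t j = t / 2 ^ (12 * j) % 2 ^ 12 := rfl
  rw [← e]
  have hlt : dgt 12 t j < 4096 := by rw [e]; exact Nat.mod_lt _ (by norm_num)
  generalize dgt 12 t j = x at *
  norm_num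
  omega

lemma lanes_of {α : Type} {l : ℕ} {D : List α} {t r : ℕ}
    (h : ∀ j < D.length, dg 12 t j = red l (dg 72 r j)) : lanes l D t r = true := by
  induction D generalizing t r with
  | nil => rfl
  | cons x xs ih =>
    have h' : lanes l (x :: xs) t r = @Bool.rec (fun _ => Bool) false (strict (t / 4096) fun t' =>
      strict (r / V72) fun r' => lanes l xs t' r')
      (Nat.beq (t % 4096) (red l (r % V72))) := rfl
    have h0 := h 0 (by simp)
    rw [dg_eq, dg_eq, mul_zero, mul_zero, pow_zero, Nat.div_one, Nat.div_one] at h0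
    have e0 : t % 4096 = red l (r % V72) := by
      rw [V72_eq, ← h0]
      norm_num
    rw [h', e0, Nat.beq_refl, strict_eq, strict_eq]
    apply ih
    intro j hj
    have h1 := h (j + 1) (by simpa using hj)
    rw [dg_eq, dg_eq] at h1 ⊢
    have e1 : t / 4096 / 2 ^ (12 * j) = t / 2 ^ (12 * (j + 1)) := by
      rw [Nat.div_div_eq_div_mul, mul_add, pow_add, mul_comm]
      norm_num
    have e2 : r / V72 / 2 ^ (72 * j) = r / 2 ^ (72 * (j + 1)) := by
      rw [V72_eq, Nat.div_div_eq_div_mul, mul_add, pow_add, mul_comm, mul_one]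
    rw [e1, e2]
    exact h1

/-- the table check with reduced entries, all lanes of a row at once -/
def checkV {α : Type} (K W n1 n2 l T1 T2 : ℕ) (DRs : List ((ℕ × ℕ) × ℕ)) (forms : List (WF α))
    (L2 : List (ℕ × ℕ)) (D1 D2 : List α) (TB : ℕ) : Bool :=
  andb (Nat.ble (nat_lit 1) l) <| andb (Nat.ble l (nat_lit 15)) <|
  andb (Nat.ble W (Nat.mul (nat_lit 12) (Nat.pow (nat_lit 2) K))) <|
  andb (Nat.ble (sumL (fun _ => nat_lit 1) D2) (Nat.pow (nat_lit 2) K)) <|
  withF V72 n2 T2 D2 L2 forms fun FY =>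
  allI (fun i c => strict (rowA n1 l T1 DRs FY c) fun r =>
    laneV l (Nat.pow (nat_lit 2) K)
      (hexS (Nat.pow (nat_lit 2) K) (spread K (nat_lit 1) (dg W TB i))) r) D1 (nat_lit 0)

lemma allI_mono {α : Type} {p' p : ℕ → α → Bool} (hp : ∀ i c, p' i c = true → p i c = true)
    {L : List α} {i : ℕ} (h : allI p' L i = true) : allI p L i = true := by
  induction L generalizing i with
  | nil => rfl
  | cons y ys ih =>
    have h' : @Bool.rec (fun _ => Bool) false (allI p' ys (Nat.succ i)) (p' i y) = true := h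
    have g' : allI p (y :: ys) i =
      @Bool.rec (fun _ => Bool) false (allI p ys (Nat.succ i)) (p i y) := rfl
    cases hy : p' i y with
    | false => rw [hy] at h'; simp at h'
    | true =>
      rw [hy] at h'
      rw [g', hp i y hy]
      exact ih h'

lemma sumL_one {α : Type} (L : List α) : sumL (fun _ => 1) L = L.length := by
  induction L with
  | nil => rfl
  | cons x xs ih =>
    have : sumL (fun _ => 1) (x :: xs) = 1 + sumL (fun _ => 1) xs := rfl
    rw [this, ih, List.length_cons]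
    ring

theorem checkV_spec {α : Type} {K W n1 n2 l T1 T2 : ℕ} {DRs : List ((ℕ × ℕ) × ℕ)}
    {forms : List (WF α)} {L2 : List (ℕ × ℕ)} {D1 D2 : List α} {TB : ℕ}
    (h : checkV K W n1 n2 l T1 T2 DRs forms L2 D1 D2 TB = true) :
    checkR W n1 n2 l T1 T2 DRs forms L2 D1 D2 TB = true := by
  unfold checkV at h
  obtain ⟨h1, h⟩ := andb_spec h
  obtain ⟨h2, h⟩ := andb_spec h
  obtain ⟨h3, h⟩ := andb_spec h
  obtain ⟨h4, h⟩ := andb_spec h
  have hl : 1 ≤ l := Nat.le_of_ble_eq_true h1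
  have hl15 : l ≤ 15 := Nat.le_of_ble_eq_true h2
  have hW : W ≤ 12 * 2 ^ K := Nat.le_of_ble_eq_true h3
  have hD : sumL (fun _ => 1) D2 ≤ 2 ^ K := Nat.le_of_ble_eq_true h4
  rw [sumL_one] at hD
  unfold checkR
  rw [withF_eq] at h ⊢
  refine allI_mono ?_ h
  intro i c hic
  rw [strict_eq] at hic ⊢
  rw [strict_eq]
  set t := dg W TB i with ht
  have htlt : t < 2 ^ (12 * 2 ^ K) := by
    rw [ht, dg_eq]
    exact (Nat.mod_lt _ (by positivity)).trans_le (Nat.pow_le_pow_right (by norm_num) hW)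
  have e1 : packR (72 * 2 ^ K) (dgt (12 * 2 ^ K) t) 1 = t := by
    rw [packR_succ]
    have : packR (72 * 2 ^ K) (dgt (12 * 2 ^ K) t) 0 = 0 := rfl
    rw [this, mul_zero, pow_zero, mul_one, add_zero]
    unfold dgt
    rw [mul_zero, pow_zero, Nat.div_one, Nat.mod_eq_of_lt htlt]
  have e2 : spread K (nat_lit 1) t = packR 72 (dgt 12 t) (2 ^ K) := by
    have := spread_spec K 1 t
    rw [e1, one_mul] at this
    exact this
  have e3 : hexS (Nat.pow (nat_lit 2) K) (spread K (nat_lit 1) t) =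
      packR 24 (hx t) (3 * 2 ^ K) := by
    rw [e2]
    exact hexS_spec' (2 ^ K) t
  rw [e3] at hic
  have h5 := laneV_spec (N := 2 ^ K) (by omega) hl15 hic
  exact lanes_of fun j hj => red_of h5 j (by omega)

end Pool.Agent.LibH4.KV
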