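import Mathlib
import Pool.Agent.RQM.C04
import Pool.Agent.RQM.C06
import Pool.Agent.RQM.C09
import Pool.Agent.RQM.C10
import Pool.Agent.RQM.C11
import Pool.Agent.RQM.C12
import Pool.Agent.RQM.C13
import Pool.Agent.RQM.C14
import Pool.Agent.RQM.C15
import Pool.Agent.RQM.C17
import Pool.Agent.RQM.C19
import Pool.Agent.RQM.C21
import Pool.Agent.RQM.C22
import Pool.Agent.RQM.C23
import Pool.Agent.RQM.V3

/-! Parts: Lib_helper4.KR_13_23_7_0, Lib_helper4.KR_17_23_7_0, Lib_helper4.KS_B19, Lib_helper4.KR_8_29_13_0, Lib_helper4.KS_E3, RDF.Rep, RDF.OddPart -/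

namespace Pool.Agent.LibH4
end Pool.Agent.LibH4
namespace Pool.Agent.LibH4.FA
end Pool.Agent.LibH4.FA
namespace Pool.Agent.LibH4.Ker
end Pool.Agent.LibH4.Ker
namespace Pool.Agent.LibH4.T6
end Pool.Agent.LibH4.T6
namespace Pool.Agent.Lib_helper5
end Pool.Agent.Lib_helper5

section

/-! generated data -/

namespace Pool.Agent.LibH4.KF

open Ker T6

/-- weights -/
def DR_13_23_7_0 : List ((ℕ × ℕ) × ℕ) := [((nat_lit 1, nat_lit 0), nat_lit 4667078208377614553225131555158161440808881468258950119702452814504485797211434943668205800949677833984014414959648362541063741828719610461207395659541101613365422949483740643113201399696746962043561813142445530960549681803808618627102203324670209040401869614417582140016973112553110096497698349544421492786874514022327921235858289609934897152),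
  ((nat_lit 1, nat_lit 1), nat_lit 4667078208812270082520933482720269402413732595862581956427219725084993706584882070282666625166659260315849967848016166636784773900638141355389815246602633323284114029902023144291450497916588241786975084781229124719522448719480420132714596547472848067902511386117182489465569167911541255612069929187510107957709811195400483035220273213387112450),
  ((nat_lit 1, nat_lit 2), nat_lit 4667078208594942317873032518939215421604449376974773932083423355180634102400882935828069216979705503827646438038189283675463637742192243879168540442229996954300124044686478315047229941210390464774827143449672908324436760430906366554970754983708006421431965472771492398339300886413512279523987928845122968968082664241636378219765248173076054018),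
  ((nat_lit 1, nat_lit 3), nat_lit 4667078208594942317873034063145859917071820556489863252799244698194096263955544145540010165460293091538021381654239167404014584421396265784054974934585702131179021860950680505256951050375874863482172667476609214618362318346816042672230429383979002297945568100560310576605192016937005077269640671004266647371332130078376810949517466191440052225),
  ((nat_lit 1, nat_lit 4), nat_lit 4667078209029597847168832902294678887736443200994522652210658861096779735545528249251268072251781115157032435852588910142458735038334852625565237027480053658427488124605541568362890692260468189488012891982809182808003483939690800388677583696012580280836570447356255763221083782522682512932177691315234437566206262616659264058864672785914265603),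
  ((nat_lit 1, nat_lit 5), nat_lit 4667078208812270082520935026926913897886589899446464956080982992949574752435450271332194323853389997006389227209062023538698466130623190801194918955881597030521596707043460610819449030786204291731883767770322497959331212911302025096665448776891983110424181140160582244483953221986696070320537129484599010024903832663560448670921467603729055749),
  ((nat_lit 1, nat_lit 6), nat_lit 4667078209681581141112538882051129821090806030584934921356632855059439823515897863501401432574341358012437863737091741063547892228886340838710029835945845009821269917850275230000074902181031291062137173545419728189715125927350962593164699703858277019653148711835600320184106760146596452708780403477632157564725110418254674878467987271812775939),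
  ((nat_lit 1, nat_lit 7), nat_lit 4667078208594942317873030974732570926126105949322097165783892059865080938315536281378625003746456286678960106079875288583430850676819685930108722293938937603304365224586594896620694290974470554700695536178943738043769995863838742090960786234940529158692265224562712150918498784452135556565303808570122296330862641925944913033966147456804978692),
  ((nat_lit 1, nat_lit 8), nat_lit 4667078209464253376464640234580042583496294891141745187502534442903267830329910523161829177832873388791146617553785833418047317375127365809809357246931168625776287280309284438865613267507715994643464660857561909138383209275683516485753314465955206423926492086630546465021669491034518073464757383647172481843718775259188428828022475777284308994),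
  ((nat_lit 1, nat_lit 9), nat_lit 4667078209246925611816736954489021859485954902981303084631865944478966536452843243352512932404958075256555719647141709996570559020982135661624521949199283490624415556200324790954165501981001589616287683489670359197979547076986064509554622606395952692635729408439565485707008419101602009794810327285847510636374990210818220705615437006903836676),
  ((nat_lit 1, nat_lit 10), nat_lit 4667078209681581141112538109947807573348891254724199727973838279175927928833455669445526148782606707043877327275850254849893916144980555311186081606825785011733886065845898039122147636189251741547887289164718178723039597105462397098450321368590625865892930521799966406957435117657818391694766048654975544274707241921936728621691991156173504518),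
  ((nat_lit 1, nat_lit 11), nat_lit 4667078209681581141112539654154452068810776310170495398987659731538233824841964544979872955638136196953120366224563855859780620149756551642272484041101913642485834798064916555217676509621262080057980310673459732925832329285853306457032100543531034980994926067585440945414502030773826053480610014276532663889459155270130901065950178427099348997),
  ((nat_lit 1, nat_lit 12), nat_lit 4667078209464253376464636374063431344803179384044450179439875246839453212392679000058131471654985842665911490806731248851156190185052111868779197074209905558459509933793814743341947279087273222156055309056543960108811268057290248645558009556661878352470593085291990186774758094659381692836319699699951609007737005904961622815028792779176476677),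
  ((nat_lit 0, nat_lit 1), nat_lit 3860516611238693115507097295027553287218863985890195958834134011685523609287728239559964076497344754741053891399585927203493696207803640971266906928484392227452568587306291371330665078817964294841343887994222406914966960540280103633954798341756860311864920470241924550577572541703833006620981238806998066408538685898752)]

theorem dr_13_23_7_0 : DR_13_23_7_0 = DRstd 13 23 7 92 208 371936440100112 1980680358766547984887910672 P13 P23 :=
  KV.drCheckV_spec (by decide +kernel : KV.drCheckV (nat_lit 13) (nat_lit 23) (nat_lit 299) (nat_lit 7)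
    (nat_lit 92) (nat_lit 208) (nat_lit 371936440100112) (nat_lit 1980680358766547984887910672) P13 P23 DR_13_23_7_0 = true)

lemma hyp_13_23_7_0 : Hyp 13 23 7 92 208 371936440100112 1980680358766547984887910672 P13 P23 :=
  mkHyp (by norm_num) (by norm_num) (by norm_num) (by norm_num) (by norm_num)
    (by decide +kernel : tabCheck (nat_lit 13) (nat_lit 7) (nat_lit 371936440100112) = true)
    (by decide +kernel : tabCheck (nat_lit 23) (nat_lit 7) (nat_lit 1980680358766547984887910672) = true)
    (by decide +kernel : obCheck (nat_lit 13) (nat_lit 23) (nat_lit 299) (nat_lit 7) (nat_lit 371936440100112) (nat_lit 1980680358766547984887910672) = true)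
    isP1_13 isP1_23 (by decide) (by decide) (by norm_num) (by norm_num) (by norm_num)

end Pool.Agent.LibH4.KF


end

section

/-! generated data -/

namespace Pool.Agent.LibH4.KF

open Ker T6

/-- weights -/
def DR_17_23_7_0 : List ((ℕ × ℕ) × ℕ) := [((nat_lit 1, nat_lit 0), nat_lit 3733748023456412013005276297812016750911313769200502668509976590823109010417975100622970309406021110999897870827151617824237398520281052812002915673254652266867623645511690412267503437605669296574272602865480392993349784028475812418029163534454237322732829500876358915325614618760175051435730591106066657463968158474446718393147182460793126912),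
  ((nat_lit 1, nat_lit 1), nat_lit 3733733780881355812714416868199018455835428676869287046006610335489812553314476306466369524031963572361752111548926152287468010680457307887328903067412476992552343613846730452087756700710351207571569321036791845853152436359174295360981044095679542560579401003367471692141925089799478866793885826605271063208980172331821574885399518862284947457),
  ((nat_lit 1, nat_lit 2), nat_lit 3733733781098683577362316287773427941155396219966830975410933594575859131225574364042165192884996025488754143374586165812092193050167651692695305507613872730406133002399013368823550864360514073447930709592427271050856666796405304895658562869285626541800479997030074612960382052362948554947127292035863821504338518042596026938108122944103514115),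
  ((nat_lit 1, nat_lit 3), nat_lit 3733733781967994635953922459207610607566155244446728688406083498657235785976717294124059175444199636535290549177717694700654901647298878053673802696324403071991980268951700974152357271215412089210965170164024005993021708144514079355815203473455076819791401239085299019544925122774719252523051032831551892657709965435146971048056340113611030532),
  ((nat_lit 1, nat_lit 4), nat_lit 3733733781967994635953924775517577350786413447960140599361839312856374687598379217537616479137744235070722398587271486853904494618119670768534530712435782024174539093946734421553266784126857942905060817859580102206868969077759020653027818210018922253951322335263025888520152913463922966527725485563935313355006982838674136400652231063657250817),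
  ((nat_lit 1, nat_lit 5), nat_lit 3733733780881355812714415323992373960354342187182213513327963163248381448938011502793779744806050420139549305986146286941691907382352004426025626899511776842583205761112023951984108389897193558615223131732502310548975176931934342262479279813028446134678062878967058730244885547838608552652533305223007116695746663266963730510401180402125635586),
  ((nat_lit 1, nat_lit 6), nat_lit 3733733781533339106658118987438858150491189875293610647642611231337710411310434716567513472977400232277641083357809251165483809060472778961105424805979630308382825741609698433589319324441323604839091487401269753523485046019683219354416541593432226660185845557906346862318302085989424986551181306838910699546798192404557866413468171172474781702),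
  ((nat_lit 1, nat_lit 7), nat_lit 3733733781098683577362317059876750188889081809724375684495414323082758725321779442938998800484007594932780404875748939329383045370673026713480606303311042175764206648325963623611967893395610951074799313513552248974128348756739040183820655538390195671903443951734597878349221176580202567560574274954271606356964223378761115041313144297201336321),
  ((nat_lit 1, nat_lit 8), nat_lit 3733733781533339106658118215335535902752018161467272279110816600779793960556264943448237200637675618826848188471493749960076046546386253295673967799214398451183871735257329051547826748066365001953105440201076394024599966114248638134328255718411457066254406749638588515643345757206949486146148615694298239008040836848478189532506529182815354885),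
  ((nat_lit 1, nat_lit 9), nat_lit 3733733781316011342010218023657804169690135842508993166069012777210234568316107079814757714592270706904152848316778068209948832359321286762416328999994398021172508628376882868350628178512155684808685105909958110972694709950931311492393317390684883199241986180272570326125792701021120552810285529063472928726316270899066423084675552251314700290),
  ((nat_lit 1, nat_lit 10), nat_lit 3733733781750666871306019179116589883553072194251889770429729066307234261593582461241599478682020862565909466383282972419447273785940437768993690754118167223932049844257470182035636544198723455112511477532406595307741148408286882504391284432901932019042970873915522346408951150005069690411083188182000412671492334209607887557284722495033966598),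
  ((nat_lit 1, nat_lit 11), nat_lit 3733733781316011342010217251554481921953707190717051632133532103377947264153984621849837932905248856529185941921866545082453255496186507362589456721139558521187810275801262844997735513488239295645065561675118317686369147390855735386037263895090354604863183648282289554297598575195968596854353934560171541503624278391372464992784617214425956353),
  ((nat_lit 1, nat_lit 12), nat_lit 3733733781967994635953920915000966112107013251034829842243261991620559956206873346606899482703961118538981291878090034379686695167981467616952459438935101733319262529046420299290881251617552851545635528534171018153267115806242309926768216563421580682697679565276501137105870801326810425043202011046686119772777709864284617735078432867336060933),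
  ((nat_lit 1, nat_lit 13), nat_lit 3733733780881355812714416096095696208096256963042948677474815704932034591801876560931426728006544571094551344440964183669828558739699948172262186402141033461137813171307643877680294352346626409935139679445093760027316234387455087579397959251304846987628204591138695853882876165023256870518406720221470304892457444486676705876704489378930753542),
  ((nat_lit 1, nat_lit 14), nat_lit 3733733780881355812714413779785729464881484883598330464947629838383908868251708883487071644004890679106641765185540264494420302782988858948209180574450629100436697597669434332757609741728572342722311588086810898770364818234790397509836018350882079119015088301546975774247569834680554232428952561126334218036037989187451214658151123532304875523),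
  ((nat_lit 1, nat_lit 15), nat_lit 3733733781750666871306019951219912131305959218250212360669663537493118735522938216196712892643297898123537750093550021008833131780595961285244771921251762299399139149607195658485652258052498666389159416735791371979518548876502390226794131747719731475973634634610783810326232988700739699422027649901453216979692840766066531718218421683053920260),
  ((nat_lit 1, nat_lit 16), nat_lit 3733733781967994635953923231310932855310813082341860706639878019866170013035469374328608735987222443865000758106407425432716469304562932547571787217795734007176385943995220280687508338711095978613262300077112717486646369321581395117315184372667823681731557641592685905674992703583290090642199491967820250267431249791451793976696132656481697798),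
  ((nat_lit 0, nat_lit 1), nat_lit 1866902497312985542934979925137007852250359111327064910819918045133463152967056354616708243505505543324877743935647927719139149558472598297483999328700358785586232999918353972989906715595795498303756190533108058284753008670830383518686126456343455636318218029952381848345474524907126920771654431413087641064404716235028920037081884604496084992)]

theorem dr_17_23_7_0 : DR_17_23_7_0 = DRstd 17 23 7 69 323 20038315816949735696 1980680358766547984887910672 P17 P23 :=
  KV.drCheckV_spec (by decide +kernel : KV.drCheckV (nat_lit 17) (nat_lit 23) (nat_lit 391) (nat_lit 7)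
    (nat_lit 69) (nat_lit 323) (nat_lit 20038315816949735696) (nat_lit 1980680358766547984887910672) P17 P23 DR_17_23_7_0 = true)

lemma hyp_17_23_7_0 : Hyp 17 23 7 69 323 20038315816949735696 1980680358766547984887910672 P17 P23 :=
  mkHyp (by norm_num) (by norm_num) (by norm_num) (by norm_num) (by norm_num)
    (by decide +kernel : tabCheck (nat_lit 17) (nat_lit 7) (nat_lit 20038315816949735696) = true)
    (by decide +kernel : tabCheck (nat_lit 23) (nat_lit 7) (nat_lit 1980680358766547984887910672) = true)
    (by decide +kernel : obCheck (nat_lit 17) (nat_lit 23) (nat_lit 391) (nat_lit 7) (nat_lit 20038315816949735696) (nat_lit 1980680358766547984887910672) = true)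
    isP1_17 isP1_23 (by decide) (by decide) (by norm_num) (by norm_num) (by norm_num)

end Pool.Agent.LibH4.KF


end

section

/-! generated data -/

namespace Pool.Agent.LibH4.KF

open Ker T6

/-- classes -/
def CB19_16 : List (ℕ × ℕ) := [((nat_lit 3), (nat_lit 1)),((nat_lit 3), (nat_lit 3)),((nat_lit 3), (nat_lit 5)),((nat_lit 3), (nat_lit 7)),((nat_lit 3), (nat_lit 9)),((nat_lit 3), (nat_lit 11)),((nat_lit 3), (nat_lit 13)),((nat_lit 3), (nat_lit 15))]

lemma memB19_16 : memCheck (nat_lit 16) (spc (nat_lit 3) cl2) CB19_16 = true := by decide +kernel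

/-- classes -/
def CB19_13 : List (ℕ × ℕ) := [((nat_lit 6), (nat_lit 0)),((nat_lit 6), (nat_lit 1)),((nat_lit 6), (nat_lit 4)),((nat_lit 6), (nat_lit 6)),((nat_lit 6), (nat_lit 7)),((nat_lit 6), (nat_lit 9)),((nat_lit 6), (nat_lit 12))]

lemma memB19_13 : memCheck (nat_lit 13) (spc (nat_lit 6) (clB (nat_lit 13))) CB19_13 = true := by decide +kernel

/-- classes -/
def CB19_5 : List (ℕ × ℕ) := [((nat_lit 4), (nat_lit 1)),((nat_lit 4), (nat_lit 4))]

lemma memB19_5 : memCheck (nat_lit 5) (spc (nat_lit 4) (clB (nat_lit 5))) CB19_5 = true := by decide +kernel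

/-- classes -/
def CB19_7 : List (ℕ × ℕ) := [((nat_lit 5), (nat_lit 0)),((nat_lit 5), (nat_lit 1)),((nat_lit 5), (nat_lit 6))]

lemma memB19_7 : memCheck (nat_lit 7) (spc (nat_lit 5) (clB (nat_lit 7))) CB19_7 = true := by decide +kernel

/-- classes -/
def CB19_17 : List (ℕ × ℕ) := [((nat_lit 2), (nat_lit 1)),((nat_lit 2), (nat_lit 2)),((nat_lit 2), (nat_lit 3)),((nat_lit 2), (nat_lit 5)),((nat_lit 2), (nat_lit 12)),((nat_lit 2), (nat_lit 14)),((nat_lit 2), (nat_lit 15)),((nat_lit 2), (nat_lit 16))]

lemma memB19_17 : memCheck (nat_lit 17) (spc (nat_lit 2) (clB (nat_lit 17))) CB19_17 = true := by decide +kernel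

/-- classes -/
def CB19_23 : List (ℕ × ℕ) := [((nat_lit 19), (nat_lit 0)),((nat_lit 19), (nat_lit 4)),((nat_lit 19), (nat_lit 8)),((nat_lit 19), (nat_lit 9)),((nat_lit 19), (nat_lit 10)),((nat_lit 19), (nat_lit 11)),((nat_lit 19), (nat_lit 12)),((nat_lit 19), (nat_lit 13)),((nat_lit 19), (nat_lit 14)),((nat_lit 19), (nat_lit 15)),((nat_lit 19), (nat_lit 19))]

lemma memB19_23 : memCheck (nat_lit 23) (spc (nat_lit 19) (clB (nat_lit 23))) CB19_23 = true := by decide +kernel

/-- table -/
def TBB19_16_13_5_0 : ℕ := nat_lit 1168555103239490595747402694183264096527966507444178149383830578311006994137042898189721698674325217182025245911133572529445512207168605904421875695947511004881667385331818985056887508301774848000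

theorem ctB19_16_13_5_0 : checkR (nat_lit 84) (nat_lit 16) (nat_lit 13) (nat_lit 5) (nat_lit 1166467763814805520) (nat_lit 1183156957090320)
    DR_16_13_5_0 formsB P13 CB19_16 CB19_13 TBB19_16_13_5_0 = true :=
  KV.checkV_spec (by decide +kernel : KV.checkV (nat_lit 3) (nat_lit 84) (nat_lit 16) (nat_lit 13) (nat_lit 5) (nat_lit 1166467763814805520) (nat_lit 1183156957090320)
    DR_16_13_5_0 formsB P13 CB19_16 CB19_13 TBB19_16_13_5_0 = true)

/-- table -/
def TBB19_16_13_5_1 : ℕ := nat_lit 285152555610255571259124237138120823126379004653950213604059777412632047875927967251060729565754578940971109280466257679924410876186989403822286463089264150917787996855256629630340150669082625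

theorem ctB19_16_13_5_1 : checkR (nat_lit 84) (nat_lit 16) (nat_lit 13) (nat_lit 5) (nat_lit 1161981756374523920) (nat_lit 1183156957090320)
    DR_16_13_5_1 formsB P13 CB19_16 CB19_13 TBB19_16_13_5_1 = true :=
  KV.checkV_spec (by decide +kernel : KV.checkV (nat_lit 3) (nat_lit 84) (nat_lit 16) (nat_lit 13) (nat_lit 5) (nat_lit 1161981756374523920) (nat_lit 1183156957090320)
    DR_16_13_5_1 formsB P13 CB19_16 CB19_13 TBB19_16_13_5_1 = true)

/-- table -/
def TBB19_16_13_5_2 : ℕ := nat_lit 2336539901299770876876233535616690837538827822536353501444737391436382072948204776983239858213175729078285685561292394007966333892480915519610569871710828499153616254635477673656748466430883659780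

theorem ctB19_16_13_5_2 : checkR (nat_lit 84) (nat_lit 16) (nat_lit 13) (nat_lit 5) (nat_lit 4625249869016080400) (nat_lit 353030276977680)
    DR_16_13_5_2 formsB P13 CB19_16 CB19_13 TBB19_16_13_5_2 = true :=
  KV.checkV_spec (by decide +kernel : KV.checkV (nat_lit 3) (nat_lit 84) (nat_lit 16) (nat_lit 13) (nat_lit 5) (nat_lit 4625249869016080400) (nat_lit 353030276977680)
    DR_16_13_5_2 formsB P13 CB19_16 CB19_13 TBB19_16_13_5_2 = true)

/-- table -/
def TBB19_16_7_13_0 : ℕ := nat_lit 387778341063916869744103082784254548036411900001063953374460202431126932681804508251318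

theorem ctB19_16_7_13_0 : checkR (nat_lit 36) (nat_lit 16) (nat_lit 7) (nat_lit 13) (nat_lit 1175581068095410192) (nat_lit 205760784)
    DR_16_7_13_0 formsB P7 CB19_16 CB19_7 TBB19_16_7_13_0 = true :=
  KV.checkV_spec (by decide +kernel : KV.checkV (nat_lit 2) (nat_lit 36) (nat_lit 16) (nat_lit 7) (nat_lit 13) (nat_lit 1175581068095410192) (nat_lit 205760784)
    DR_16_7_13_0 formsB P7 CB19_16 CB19_7 TBB19_16_7_13_0 = true)

/-- table -/
def TBB19_7_17_13_0 : ℕ := nat_lit 261694607847907138668726335567778566768334755368043495143876963453452426850900640503586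

theorem ctB19_7_17_13_0 : checkR (nat_lit 96) (nat_lit 7) (nat_lit 17) (nat_lit 13) (nat_lit 205760784) (nat_lit 32865112616832437264)
    DR_7_17_13_0 formsB P17 CB19_7 CB19_17 TBB19_7_17_13_0 = true :=
  KV.checkV_spec (by decide +kernel : KV.checkV (nat_lit 3) (nat_lit 96) (nat_lit 7) (nat_lit 17) (nat_lit 13) (nat_lit 205760784) (nat_lit 32865112616832437264)
    DR_7_17_13_0 formsB P17 CB19_7 CB19_17 TBB19_7_17_13_0 = true)

/-- table -/
def TBB19_13_23_7_0 : ℕ := nat_lit 38267029320709194927577942599684556598957925550133579819821992571364380256972709194212799801776921997592206151622932813594443760206318114973020063299983741680896524466480350663562837397698711563323392306439043980917711514636145370852455826090937768409556319851627554890264551728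

theorem ctB19_13_23_7_0 : checkR (nat_lit 132) (nat_lit 13) (nat_lit 23) (nat_lit 7) (nat_lit 371936440100112) (nat_lit 1980680358766547984887910672)
    DR_13_23_7_0 formsB P23 CB19_13 CB19_23 TBB19_13_23_7_0 = true :=
  KV.checkV_spec (by decide +kernel : KV.checkV (nat_lit 4) (nat_lit 132) (nat_lit 13) (nat_lit 23) (nat_lit 7) (nat_lit 371936440100112) (nat_lit 1980680358766547984887910672)
    DR_13_23_7_0 formsB P23 CB19_13 CB19_23 TBB19_13_23_7_0 = true)

/-- table -/
def TBB19_17_23_7_0 : ℕ := nat_lit 154420802534848464279474156193539564547975930991281599766745312675835031903440773013656419690070029500598589264870137935773859023855990503270295870926882392043054480272391720810572602265980420044208300296174689312674555131351389919055333248423470072797850849426302349514579582227270561136827010776176600102517987296053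

theorem ctB19_17_23_7_0 : checkR (nat_lit 132) (nat_lit 17) (nat_lit 23) (nat_lit 7) (nat_lit 20038315816949735696) (nat_lit 1980680358766547984887910672)
    DR_17_23_7_0 formsB P23 CB19_17 CB19_23 TBB19_17_23_7_0 = true :=
  KV.checkV_spec (by decide +kernel : KV.checkV (nat_lit 4) (nat_lit 132) (nat_lit 17) (nat_lit 23) (nat_lit 7) (nat_lit 20038315816949735696) (nat_lit 1980680358766547984887910672)
    DR_17_23_7_0 formsB P23 CB19_17 CB19_23 TBB19_17_23_7_0 = true)

/-- stage -/
def stB19_5 (a7 r_13_23_7_0 r_17_23_7_0 t7 : ℕ) : Bool :=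
  allI (fun i23 c23 =>
    imp (chkB (nat_lit 7) (dg (nat_lit 12) r_13_23_7_0 i23) a7 t7) <|
    imp (chkB (nat_lit 7) (dg (nat_lit 12) r_17_23_7_0 i23) a7 t7) <|
    false) CB19_23 (nat_lit 0)

/-- stage -/
def stB19_4 (a13 a7 r_13_23_7_0 r_7_17_13_0 t13 t7 : ℕ) : Bool :=
  allI (fun i17 c17 =>
    imp (chkB (nat_lit 13) (dg (nat_lit 12) r_7_17_13_0 i17) a13 t13) <|
    strict (dg (nat_lit 132) TBB19_17_23_7_0 i17) fun r_17_23_7_0 =>
    stB19_5 a7 r_13_23_7_0 r_17_23_7_0 t7) CB19_17 (nat_lit 0)

/-- stage -/
def stB19_3 (a13 r_13_23_7_0 r_16_7_13_0 t13 : ℕ) : Bool :=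
  allI (fun i7 c7 =>
    imp (chkB (nat_lit 13) (dg (nat_lit 12) r_16_7_13_0 i7) a13 t13) <|
    strict (dg (nat_lit 96) TBB19_7_17_13_0 i7) fun r_7_17_13_0 =>
    stB19_4 a13 c7.1 r_13_23_7_0 r_7_17_13_0 t13 c7.2) CB19_7 (nat_lit 0)

/-- stage -/
def stB19_2 (a13 e_16_13_5_0 e_16_13_5_1 e_16_13_5_2 r_13_23_7_0 r_16_7_13_0 t13 : ℕ) : Bool :=
  allI (fun i5 c5 =>
    imp (chkB (nat_lit 5) e_16_13_5_0 c5.1 c5.2) <|
    imp (chkB (nat_lit 5) e_16_13_5_1 c5.1 c5.2) <|
    imp (chkB (nat_lit 5) e_16_13_5_2 c5.1 c5.2) <|
    stB19_3 a13 r_13_23_7_0 r_16_7_13_0 t13) CB19_5 (nat_lit 0)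

/-- stage -/
def stB19_1 (r_16_13_5_0 r_16_13_5_1 r_16_13_5_2 r_16_7_13_0 : ℕ) : Bool :=
  allI (fun i13 c13 =>
    strict (dg (nat_lit 12) r_16_13_5_0 i13) fun e_16_13_5_0 =>
    strict (dg (nat_lit 12) r_16_13_5_1 i13) fun e_16_13_5_1 =>
    strict (dg (nat_lit 12) r_16_13_5_2 i13) fun e_16_13_5_2 =>
    strict (dg (nat_lit 132) TBB19_13_23_7_0 i13) fun r_13_23_7_0 =>
    stB19_2 c13.1 e_16_13_5_0 e_16_13_5_1 e_16_13_5_2 r_13_23_7_0 r_16_7_13_0 c13.2) CB19_13 (nat_lit 0)

/-- stage -/
def bdB19 (i16 : ℕ) (c16 : ℕ × ℕ) : Bool :=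
    strict (dg (nat_lit 84) TBB19_16_13_5_0 i16) fun r_16_13_5_0 =>
    strict (dg (nat_lit 84) TBB19_16_13_5_1 i16) fun r_16_13_5_1 =>
    strict (dg (nat_lit 84) TBB19_16_13_5_2 i16) fun r_16_13_5_2 =>
    strict (dg (nat_lit 36) TBB19_16_7_13_0 i16) fun r_16_7_13_0 =>
    stB19_1 r_16_13_5_0 r_16_13_5_1 r_16_13_5_2 r_16_7_13_0

theorem allB19 : allI (fun i c => bdB19 i c) CB19_16 (nat_lit 0) = true := by
  decide +kernel

theorem falseB19 {a t : ℕ} {i16 i13 i5 i7 i17 i23 : ℕ}
    (b16 : i16 < CB19_16.length)
    (b13 : i13 < CB19_13.length)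
    (b5 : i5 < CB19_5.length)
    (b7 : i7 < CB19_7.length)
    (b17 : i17 < CB19_17.length)
    (b23 : i23 < CB19_23.length)
    (top : bdB19 i16 CB19_16[i16] = true)
    (h16 : CB19_16[i16] = (a % 16, t % 16))
    (h13 : CB19_13[i13] = (a % 13, t % 13))
    (h5 : CB19_5[i5] = (a % 5, t % 5))
    (h7 : CB19_7[i7] = (a % 7, t % 7))
    (h17 : CB19_17[i17] = (a % 17, t % 17))
    (h23 : CB19_23[i23] = (a % 23, t % 23))
    (r_16_13_5_0 : chkB 5 (dg 12 (dg 84 TBB19_16_13_5_0 i16) i13) (a % 5) (t % 5) = true)
    (r_16_13_5_1 : chkB 5 (dg 12 (dg 84 TBB19_16_13_5_1 i16) i13) (a % 5) (t % 5) = true)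
    (r_16_13_5_2 : chkB 5 (dg 12 (dg 84 TBB19_16_13_5_2 i16) i13) (a % 5) (t % 5) = true)
    (r_16_7_13_0 : chkB 13 (dg 12 (dg 36 TBB19_16_7_13_0 i16) i7) (a % 13) (t % 13) = true)
    (r_7_17_13_0 : chkB 13 (dg 12 (dg 96 TBB19_7_17_13_0 i7) i17) (a % 13) (t % 13) = true)
    (r_13_23_7_0 : chkB 7 (dg 12 (dg 132 TBB19_13_23_7_0 i13) i23) (a % 7) (t % 7) = true)
    (r_17_23_7_0 : chkB 7 (dg 12 (dg 132 TBB19_17_23_7_0 i17) i23) (a % 7) (t % 7) = true)
    : False := by
  try rw [h16] at top
  unfold bdB19 at top
  simp only [strict_eq] at top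
  unfold stB19_1 at top
  replace top := allI_get top b13
  try rw [h13] at top
  simp only [strict_eq] at top
  unfold stB19_2 at top
  replace top := allI_get top b5
  try rw [h5] at top
  replace top := imp_spec top r_16_13_5_0
  replace top := imp_spec top r_16_13_5_1
  replace top := imp_spec top r_16_13_5_2
  unfold stB19_3 at top
  replace top := allI_get top b7
  try rw [h7] at top
  simp only [strict_eq] at top
  replace top := imp_spec top r_16_7_13_0
  unfold stB19_4 at top
  replace top := allI_get top b17
  try rw [h17] at top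
  simp only [strict_eq] at top
  replace top := imp_spec top r_7_17_13_0
  unfold stB19_5 at top
  replace top := allI_get top b23
  try rw [h23] at top
  replace top := imp_spec top r_13_23_7_0
  replace top := imp_spec top r_17_23_7_0
  exact Bool.false_ne_true top

/-- no large solution with `a = 19` -/
theorem noB19 {a n d : ℕ} (ha : a = 19) (hn2 : n % 2 = 1)
    (hd : (d : ℤ) = ((a : ℤ) * n) ^ 2 + 4 * a)
    (j5 : jacobiSym d 5 = -1)
    (j7 : jacobiSym d 7 = -1)
    (j13 : jacobiSym d 13 = -1)
    (j17 : jacobiSym d 17 = -1)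
    (j23 : jacobiSym d 23 = -1)
    (hT : AllB a n d) : False := by
  have ha2 : a % 2 = 1 := by rw [ha]
  have q2 := d2_B hd ha2 hn2
  have q5 : ¬ 5 ∣ d := nd_of (by norm_num) j5
  have q7 : ¬ 7 ∣ d := nd_of (by norm_num) j7
  have q13 : ¬ 13 ∣ d := nd_of (by norm_num) j13
  have q17 : ¬ 17 ∣ d := nd_of (by norm_num) j17
  have q23 : ¬ 23 ∣ d := nd_of (by norm_num) j23
  have c16 : Nat.Coprime 16 d := cop_of (p := 2) (k := 4) (by norm_num) q2
  have c13 : Nat.Coprime 13 d := cop_of (p := 13) (k := 1) (by norm_num) q13
  have c5 : Nat.Coprime 5 d := cop_of (p := 5) (k := 1) (by norm_num) q5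
  have c7 : Nat.Coprime 7 d := cop_of (p := 7) (k := 1) (by norm_num) q7
  have c17 : Nat.Coprime 17 d := cop_of (p := 17) (k := 1) (by norm_num) q17
  have c23 : Nat.Coprime 23 d := cop_of (p := 23) (k := 1) (by norm_num) q23
  obtain ⟨i16, b16, e16⟩ := memCheck_spec memB19_16 (Nat.mod_lt a (by norm_num))
    (Nat.mod_lt n (by norm_num)) (spc_of (cl2_of (n := 16) (by norm_num) ha2 hn2) (by rw [ha]))
  obtain ⟨i13, b13, e13⟩ := memCheck_spec memB19_13 (Nat.mod_lt a (by norm_num))
    (Nat.mod_lt n (by norm_num)) (spc_of (clB_of (n := 13) (by norm_num) (by norm_num) hd j13) (by rw [ha]))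
  obtain ⟨i5, b5, e5⟩ := memCheck_spec memB19_5 (Nat.mod_lt a (by norm_num))
    (Nat.mod_lt n (by norm_num)) (spc_of (clB_of (n := 5) (by norm_num) (by norm_num) hd j5) (by rw [ha]))
  obtain ⟨i7, b7, e7⟩ := memCheck_spec memB19_7 (Nat.mod_lt a (by norm_num))
    (Nat.mod_lt n (by norm_num)) (spc_of (clB_of (n := 7) (by norm_num) (by norm_num) hd j7) (by rw [ha]))
  obtain ⟨i17, b17, e17⟩ := memCheck_spec memB19_17 (Nat.mod_lt a (by norm_num))
    (Nat.mod_lt n (by norm_num)) (spc_of (clB_of (n := 17) (by norm_num) (by norm_num) hd j17) (by rw [ha]))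
  obtain ⟨i23, b23, e23⟩ := memCheck_spec memB19_23 (Nat.mod_lt a (by norm_num))
    (Nat.mod_lt n (by norm_num)) (spc_of (clB_of (n := 23) (by norm_num) (by norm_num) hd j23) (by rw [ha]))
  exact falseB19 b16 b13 b5 b7 b17 b23 (allI_get allB19 b16)
    e16 e13 e5 e7 e17 e23
    (chkB_of hyp_16_13_5_0 dr_16_13_5_0 ctB19_16_13_5_0 hT (by norm_num) (by norm_num) (c16.mul_left c13) q5 b16 b13 e16 e13)
    (chkB_of hyp_16_13_5_1 dr_16_13_5_1 ctB19_16_13_5_1 hT (by norm_num) (by norm_num) (c16.mul_left c13) q5 b16 b13 e16 e13)
    (chkB_of hyp_16_13_5_2 dr_16_13_5_2 ctB19_16_13_5_2 hT (by norm_num) (by norm_num) (c16.mul_left c13) q5 b16 b13 e16 e13)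
    (chkB_of hyp_16_7_13_0 dr_16_7_13_0 ctB19_16_7_13_0 hT (by norm_num) (by norm_num) (c16.mul_left c7) q13 b16 b7 e16 e7)
    (chkB_of hyp_7_17_13_0 dr_7_17_13_0 ctB19_7_17_13_0 hT (by norm_num) (by norm_num) (c7.mul_left c17) q13 b7 b17 e7 e17)
    (chkB_of hyp_13_23_7_0 dr_13_23_7_0 ctB19_13_23_7_0 hT (by norm_num) (by norm_num) (c13.mul_left c23) q7 b13 b23 e13 e23)
    (chkB_of hyp_17_23_7_0 dr_17_23_7_0 ctB19_17_23_7_0 hT (by norm_num) (by norm_num) (c17.mul_left c23) q7 b17 b23 e17 e23)

end Pool.Agent.LibH4.KF


end

section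

/-! generated data -/

namespace Pool.Agent.LibH4.KF

open Ker T6

/-- weights -/
def DR_8_29_13_0 : List ((ℕ × ℕ) × ℕ) := [((nat_lit 1, nat_lit 0), nat_lit 42499629639928650402305441736103083913062993477403817562199650521624294000842867722319457933983925197901347317578287145304640801627369866682937686785816822232084868540771448780253043896609707676659569872554221612117206737487797460331285113581752778763591111736406072335344665459631563484064364152644828786777957984665294845013182169798420520142958606655030237628878657060546849306057796253788081997542561801276564874492641280),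
  ((nat_lit 1, nat_lit 1), nat_lit 70833148384142171690356030281364897595871902869318659046946089567545096837350602652218621630699770702377639353530012004368994949566543822613365090400735690876963665754647214116608816565342100988790354130105815051097456278037764871240145155933876856883857078696323292502271217878408258544758607484474212233104911936353202168526327513027511818547187651609188170311095372635372784423422511799473989444690020051856977816830607364),
  ((nat_lit 1, nat_lit 2), nat_lit 84999475427659826733378246694517224408811930023004242624862721424464949239157072189390141405555984579358950517799788897990218699984403942898918321204531024700117433143113575934770358944085237773822090062857737227760070240044133556698064610752722744959604126426068493941830750966168102590272634820566808376237224179177448037992962445935398169526554861232688531058977711081356757327167158314901261718193086435883391267723280395),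
  ((nat_lit 1, nat_lit 3), nat_lit 70833364548436724484713810442096290051035270320119305456959269634143297071429212569200442283953699518098216530279029520707176494972240450240836879734783763162234633740090576933625557094332703593836742010426350241329482204685860418902343324452530174057653151556110533919463885077838561266912032376371262519223001740279390903649670008437904313321179092076776656377426361664417359381709077763915417290126320424741810474183557126),
  ((nat_lit 1, nat_lit 4), nat_lit 28333086432116442560701611008526440828269953389338951706242728270295217795398447999348500528761953481359324284229332402941617575170828313871713900639329845839736765011414095483889562173663334223618298861721991640808723608491251424472078779097896622018294552016640806386271723644086202734143252471101276319656986041035299716618296472983964758370326217608197359944614219668096259021841769166348798054664945305450296975921512448),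
  ((nat_lit 1, nat_lit 5), nat_lit 70833472630584000885156572368497428339823831432206578980176916433890080954994290947287226218279154425912439059503133843886599853929117462627180086172338241097824619383500522741370865775088438371100862664020717964225835254723968131574270687856704294514403592675281149148112870092652611797700702252924689891095078485220839757658476482755136616703890737188516562209916093114257655409769931171664060007860994029976831880264155143),
  ((nat_lit 1, nat_lit 6), nat_lit 85000448166985314326227541263300680644308870107474904609390520291907186919307945770189790058584559734563155727356191817667948897094747914458164561612038810464777336094991138226389165912455374058832400847044218818864317901652477169665066847632232309061528288580795491964820586470867455149322013663177825557020997631953670744071518389645181974883948135896611060213109140645596370761572657358578270390570458184202992403586482178),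
  ((nat_lit 1, nat_lit 7), nat_lit 70833688794878553681434277144543791126895178172109337673595453912518447408131596650325414871387433216564204631116314545891941001398386560788256225094551447906019247457050479519809683416740534567948461931793320768310489415797796167182085434268889350427953766059857966322795854972117301690482657726670785558549372466157857485187993963824238025365776144144937253685729912525058259207958715888398849833616067594581166669688733705),
  ((nat_lit 0, nat_lit 1), nat_lit 70832716048956255344806319308460261088233597561313484985765889808979228934194241987995571005677129398107651870006220810891364400922992476364663019322209902126911957845549246997931166048230595656934600855939542448381051441904641311559585117808478846572844804491097014031824411916826924323886706521986377968594510297749005347775386902160474751169134769260279186368836653839866083322249358297371654976528933693631989110766829568),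
  ((nat_lit 2, nat_lit 1), nat_lit 70833904962471511852289208015681146551843038941774643414390341502289205154526718527273987439115374438194019515416012170878997280243329914372091493723641875736760035454784307130576440530260650394334857815324410843818558599201582794926836542266962965102777236593929156402070163449970459981983872905043883991444120116289707869302596062681691322573912302737804513269003392985301600477212450124614095096328823489794612429955530754),
  ((nat_lit 4, nat_lit 1), nat_lit 70832716045657849974452927367062186810292774538916261370892270632328128434713402207661894445266612179451716802598971334007275730074171007144025013954686695985355010805140361994970482636372938817552173283960752626965185199048620873384631257970270426960790555237244365112513231508341763199148773331197312919732360267110146152578738886884629856396069004017423801619447127263012762568543654979897687970342101762130211979594301440),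
  ((nat_lit 6, nat_lit 1), nat_lit 70832932223146024264815702369779588147049600200055418726822161713088779550012763077128671587418129338607038338610568279211371346848253205884819014494249918487612743801751936453974144142803692000338445737532748335213198463375104717160683106971043182117454867246897729021170489159749206046484619700668802275916339824575168330566845442262856210990862665944261629760599581504333637053578267795709882033170389374039829056438927371)]

theorem dr_8_29_13_0 : DR_8_29_13_0 = DRstd 8 29 13 145 88 281067536 65067325651197639677023877956654352 P8 P29 :=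
  KV.drCheckV_spec (by decide +kernel : KV.drCheckV (nat_lit 8) (nat_lit 29) (nat_lit 232) (nat_lit 13)
    (nat_lit 145) (nat_lit 88) (nat_lit 281067536) (nat_lit 65067325651197639677023877956654352) P8 P29 DR_8_29_13_0 = true)

lemma hyp_8_29_13_0 : Hyp 8 29 13 145 88 281067536 65067325651197639677023877956654352 P8 P29 :=
  mkHyp (by norm_num) (by norm_num) (by norm_num) (by norm_num) (by norm_num)
    (by decide +kernel : tabCheck (nat_lit 8) (nat_lit 13) (nat_lit 281067536) = true)
    (by decide +kernel : tabCheck (nat_lit 29) (nat_lit 13) (nat_lit 65067325651197639677023877956654352) = true)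
    (by decide +kernel : obCheck (nat_lit 8) (nat_lit 29) (nat_lit 232) (nat_lit 13) (nat_lit 281067536) (nat_lit 65067325651197639677023877956654352) = true)
    isP1_8 isP1_29 (by decide) (by decide) (by norm_num) (by norm_num) (by norm_num)

end Pool.Agent.LibH4.KF


end

section

/-! generated data -/

namespace Pool.Agent.LibH4.KF

open Ker T6

/-- classes -/
def CE3_16 : List (ℕ × ℕ) := [((nat_lit 3), (nat_lit 1)),((nat_lit 3), (nat_lit 3)),((nat_lit 3), (nat_lit 5)),((nat_lit 3), (nat_lit 7)),((nat_lit 3), (nat_lit 9)),((nat_lit 3), (nat_lit 11)),((nat_lit 3), (nat_lit 13)),((nat_lit 3), (nat_lit 15))]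

lemma memE3_16 : memCheck (nat_lit 16) (spc (nat_lit 3) cl2) CE3_16 = true := by decide +kernel

/-- classes -/
def CE3_13 : List (ℕ × ℕ) := [((nat_lit 3), (nat_lit 2)),((nat_lit 3), (nat_lit 4)),((nat_lit 3), (nat_lit 5)),((nat_lit 3), (nat_lit 8)),((nat_lit 3), (nat_lit 9)),((nat_lit 3), (nat_lit 11))]

lemma memE3_13 : memCheck (nat_lit 13) (spc (nat_lit 3) (clE (nat_lit 13))) CE3_13 = true := by decide +kernel

/-- classes -/
def CE3_5 : List (ℕ × ℕ) := [((nat_lit 3), (nat_lit 0)),((nat_lit 3), (nat_lit 1)),((nat_lit 3), (nat_lit 4))]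

lemma memE3_5 : memCheck (nat_lit 5) (spc (nat_lit 3) (clE (nat_lit 5))) CE3_5 = true := by decide +kernel

/-- classes -/
def CE3_7 : List (ℕ × ℕ) := [((nat_lit 3), (nat_lit 2)),((nat_lit 3), (nat_lit 3)),((nat_lit 3), (nat_lit 4)),((nat_lit 3), (nat_lit 5))]

lemma memE3_7 : memCheck (nat_lit 7) (spc (nat_lit 3) (clE (nat_lit 7))) CE3_7 = true := by decide +kernel

/-- classes -/
def CE3_17 : List (ℕ × ℕ) := [((nat_lit 3), (nat_lit 0)),((nat_lit 3), (nat_lit 1)),((nat_lit 3), (nat_lit 2)),((nat_lit 3), (nat_lit 6)),((nat_lit 3), (nat_lit 8)),((nat_lit 3), (nat_lit 9)),((nat_lit 3), (nat_lit 11)),((nat_lit 3), (nat_lit 15)),((nat_lit 3), (nat_lit 16))]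

lemma memE3_17 : memCheck (nat_lit 17) (spc (nat_lit 3) (clE (nat_lit 17))) CE3_17 = true := by decide +kernel

/-- classes -/
def CE3_23 : List (ℕ × ℕ) := [((nat_lit 3), (nat_lit 0)),((nat_lit 3), (nat_lit 1)),((nat_lit 3), (nat_lit 4)),((nat_lit 3), (nat_lit 7)),((nat_lit 3), (nat_lit 10)),((nat_lit 3), (nat_lit 11)),((nat_lit 3), (nat_lit 12)),((nat_lit 3), (nat_lit 13)),((nat_lit 3), (nat_lit 16)),((nat_lit 3), (nat_lit 19)),((nat_lit 3), (nat_lit 22))]

lemma memE3_23 : memCheck (nat_lit 23) (spc (nat_lit 3) (clE (nat_lit 23))) CE3_23 = true := by decide +kernel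

/-- classes -/
def CE3_8 : List (ℕ × ℕ) := [((nat_lit 3), (nat_lit 1)),((nat_lit 3), (nat_lit 3)),((nat_lit 3), (nat_lit 5)),((nat_lit 3), (nat_lit 7))]

lemma memE3_8 : memCheck (nat_lit 8) (spc (nat_lit 3) cl2) CE3_8 = true := by decide +kernel

/-- classes -/
def CE3_29 : List (ℕ × ℕ) := [((nat_lit 3), (nat_lit 0)),((nat_lit 3), (nat_lit 1)),((nat_lit 3), (nat_lit 3)),((nat_lit 3), (nat_lit 5)),((nat_lit 3), (nat_lit 9)),((nat_lit 3), (nat_lit 10)),((nat_lit 3), (nat_lit 12)),((nat_lit 3), (nat_lit 14)),((nat_lit 3), (nat_lit 15)),((nat_lit 3), (nat_lit 17)),((nat_lit 3), (nat_lit 19)),((nat_lit 3), (nat_lit 20)),((nat_lit 3), (nat_lit 24)),((nat_lit 3), (nat_lit 26)),((nat_lit 3), (nat_lit 28))]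

lemma memE3_29 : memCheck (nat_lit 29) (spc (nat_lit 3) (clE (nat_lit 29))) CE3_29 = true := by decide +kernel

/-- table -/
def TBE3_16_13_5_0 : ℕ := nat_lit 44233322185336960229052392868283631836788426862675359734825539314499457978651288681337422267236768725611008062764416624725095225667462022727384375828649087342118707200

theorem ctE3_16_13_5_0 : checkR (nat_lit 72) (nat_lit 16) (nat_lit 13) (nat_lit 5) (nat_lit 1166467763814805520) (nat_lit 1183156957090320)
    DR_16_13_5_0 formsE P13 CE3_16 CE3_13 TBE3_16_13_5_0 = true :=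
  KV.checkV_spec (by decide +kernel : KV.checkV (nat_lit 3) (nat_lit 72) (nat_lit 16) (nat_lit 13) (nat_lit 5) (nat_lit 1166467763814805520) (nat_lit 1183156957090320)
    DR_16_13_5_0 formsE P13 CE3_16 CE3_13 TBE3_16_13_5_0 = true)

/-- table -/
def TBE3_16_13_5_1 : ℕ := nat_lit 241548351626703871377945591078689984804703894111958122357081638295635751306733038403948204942464240366099687918036189343640299978614134468554944231159324597605875318800385

theorem ctE3_16_13_5_1 : checkR (nat_lit 72) (nat_lit 16) (nat_lit 13) (nat_lit 5) (nat_lit 1161981756374523920) (nat_lit 1183156957090320)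
    DR_16_13_5_1 formsE P13 CE3_16 CE3_13 TBE3_16_13_5_1 = true :=
  KV.checkV_spec (by decide +kernel : KV.checkV (nat_lit 3) (nat_lit 72) (nat_lit 16) (nat_lit 13) (nat_lit 5) (nat_lit 1161981756374523920) (nat_lit 1183156957090320)
    DR_16_13_5_1 formsE P13 CE3_16 CE3_13 TBE3_16_13_5_1 = true)

/-- table -/
def TBE3_16_13_5_2 : ℕ := nat_lit 181194436911882251236632614422842628309996838270094944815877791578135214610796824213173296683471203017918440932428252098984389106229253250798990846996779478276085137809410

theorem ctE3_16_13_5_2 : checkR (nat_lit 72) (nat_lit 16) (nat_lit 13) (nat_lit 5) (nat_lit 4625249869016080400) (nat_lit 353030276977680)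
    DR_16_13_5_2 formsE P13 CE3_16 CE3_13 TBE3_16_13_5_2 = true :=
  KV.checkV_spec (by decide +kernel : KV.checkV (nat_lit 3) (nat_lit 72) (nat_lit 16) (nat_lit 13) (nat_lit 5) (nat_lit 4625249869016080400) (nat_lit 353030276977680)
    DR_16_13_5_2 formsE P13 CE3_16 CE3_13 TBE3_16_13_5_2 = true)

/-- table -/
def TBE3_16_7_13_0 : ℕ := nat_lit 25653242799574125799335264154376494876856984595698257259244449232177813708976033305770186051219601470354085940193891

theorem ctE3_16_7_13_0 : checkR (nat_lit 48) (nat_lit 16) (nat_lit 7) (nat_lit 13) (nat_lit 1175581068095410192) (nat_lit 205760784)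
    DR_16_7_13_0 formsE P7 CE3_16 CE3_7 TBE3_16_7_13_0 = true :=
  KV.checkV_spec (by decide +kernel : KV.checkV (nat_lit 2) (nat_lit 48) (nat_lit 16) (nat_lit 7) (nat_lit 13) (nat_lit 1175581068095410192) (nat_lit 205760784)
    DR_16_7_13_0 formsE P7 CE3_16 CE3_7 TBE3_16_7_13_0 = true)

/-- table -/
def TBE3_7_17_13_0 : ℕ := nat_lit 2354747237932839640390122885835400545733264498110424880713436833034456302237447443687830680890304203700325434594060572731832173408

theorem ctE3_7_17_13_0 : checkR (nat_lit 108) (nat_lit 7) (nat_lit 17) (nat_lit 13) (nat_lit 205760784) (nat_lit 32865112616832437264)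
    DR_7_17_13_0 formsE P17 CE3_7 CE3_17 TBE3_7_17_13_0 = true :=
  KV.checkV_spec (by decide +kernel : KV.checkV (nat_lit 4) (nat_lit 108) (nat_lit 7) (nat_lit 17) (nat_lit 13) (nat_lit 205760784) (nat_lit 32865112616832437264)
    DR_7_17_13_0 formsE P17 CE3_7 CE3_17 TBE3_7_17_13_0 = true)

/-- table -/
def TBE3_17_23_7_0 : ℕ := nat_lit 1101490519564034460517598272206491377989144303656143713835315420646714999202685497360443287327576105671529910057568461939398747056686134385685318524938168896349525499533426729136092683729673715380940292362031364532162608443766204911684925080626263508141400960891551918545166045153912199569960699015594542455697815265939895417715497330542550997027121940083760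

theorem ctE3_17_23_7_0 : checkR (nat_lit 132) (nat_lit 17) (nat_lit 23) (nat_lit 7) (nat_lit 20038315816949735696) (nat_lit 1980680358766547984887910672)
    DR_17_23_7_0 formsE P23 CE3_17 CE3_23 TBE3_17_23_7_0 = true :=
  KV.checkV_spec (by decide +kernel : KV.checkV (nat_lit 4) (nat_lit 132) (nat_lit 17) (nat_lit 23) (nat_lit 7) (nat_lit 20038315816949735696) (nat_lit 1980680358766547984887910672)
    DR_17_23_7_0 formsE P23 CE3_17 CE3_23 TBE3_17_23_7_0 = true)

/-- table -/
def TBE3_8_29_13_0 : ℕ := nat_lit 1514370203866674776778298174742997941030146733542167518619415441307373361637435285228371014779636391339343036063284566714923181552688099819727609010340125342272828616824300833836939585727830009204538143236977500526964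

theorem ctE3_8_29_13_0 : checkR (nat_lit 180) (nat_lit 8) (nat_lit 29) (nat_lit 13) (nat_lit 281067536) (nat_lit 65067325651197639677023877956654352)
    DR_8_29_13_0 formsE P29 CE3_8 CE3_29 TBE3_8_29_13_0 = true :=
  KV.checkV_spec (by decide +kernel : KV.checkV (nat_lit 4) (nat_lit 180) (nat_lit 8) (nat_lit 29) (nat_lit 13) (nat_lit 281067536) (nat_lit 65067325651197639677023877956654352)
    DR_8_29_13_0 formsE P29 CE3_8 CE3_29 TBE3_8_29_13_0 = true)

/-- stage -/
def stE3_7 (a13 r_8_29_13_0 t13 : ℕ) : Bool :=
  allI (fun i29 c29 =>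
    imp (chkE (nat_lit 13) (dg (nat_lit 12) r_8_29_13_0 i29) a13 t13) <|
    false) CE3_29 (nat_lit 0)

/-- stage -/
def stE3_6 (a13 a16 t13 t16 : ℕ) : Bool :=
  allI (fun i8 c8 =>
    imp (Nat.beq (Nat.mod a16 (nat_lit 8)) c8.1) <| imp (Nat.beq (Nat.mod t16 (nat_lit 8)) c8.2) <|
    strict (dg (nat_lit 180) TBE3_8_29_13_0 i8) fun r_8_29_13_0 =>
    stE3_7 a13 r_8_29_13_0 t13) CE3_8 (nat_lit 0)

/-- stage -/
def stE3_5 (a13 a16 a7 r_17_23_7_0 t13 t16 t7 : ℕ) : Bool :=
  allI (fun i23 c23 =>
    imp (chkE (nat_lit 7) (dg (nat_lit 12) r_17_23_7_0 i23) a7 t7) <|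
    stE3_6 a13 a16 t13 t16) CE3_23 (nat_lit 0)

/-- stage -/
def stE3_4 (a13 a16 a7 r_7_17_13_0 t13 t16 t7 : ℕ) : Bool :=
  allI (fun i17 c17 =>
    imp (chkE (nat_lit 13) (dg (nat_lit 12) r_7_17_13_0 i17) a13 t13) <|
    strict (dg (nat_lit 132) TBE3_17_23_7_0 i17) fun r_17_23_7_0 =>
    stE3_5 a13 a16 a7 r_17_23_7_0 t13 t16 t7) CE3_17 (nat_lit 0)

/-- stage -/
def stE3_3 (a13 a16 r_16_7_13_0 t13 t16 : ℕ) : Bool :=
  allI (fun i7 c7 =>
    imp (chkE (nat_lit 13) (dg (nat_lit 12) r_16_7_13_0 i7) a13 t13) <|
    strict (dg (nat_lit 108) TBE3_7_17_13_0 i7) fun r_7_17_13_0 =>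
    stE3_4 a13 a16 c7.1 r_7_17_13_0 t13 t16 c7.2) CE3_7 (nat_lit 0)

/-- stage -/
def stE3_2 (a13 a16 e_16_13_5_0 e_16_13_5_1 e_16_13_5_2 r_16_7_13_0 t13 t16 : ℕ) : Bool :=
  allI (fun i5 c5 =>
    imp (chkE (nat_lit 5) e_16_13_5_0 c5.1 c5.2) <|
    imp (chkE (nat_lit 5) e_16_13_5_1 c5.1 c5.2) <|
    imp (chkE (nat_lit 5) e_16_13_5_2 c5.1 c5.2) <|
    stE3_3 a13 a16 r_16_7_13_0 t13 t16) CE3_5 (nat_lit 0)

/-- stage -/
def stE3_1 (a16 r_16_13_5_0 r_16_13_5_1 r_16_13_5_2 r_16_7_13_0 t16 : ℕ) : Bool :=
  allI (fun i13 c13 =>
    strict (dg (nat_lit 12) r_16_13_5_0 i13) fun e_16_13_5_0 =>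
    strict (dg (nat_lit 12) r_16_13_5_1 i13) fun e_16_13_5_1 =>
    strict (dg (nat_lit 12) r_16_13_5_2 i13) fun e_16_13_5_2 =>
    stE3_2 c13.1 a16 e_16_13_5_0 e_16_13_5_1 e_16_13_5_2 r_16_7_13_0 c13.2 t16) CE3_13 (nat_lit 0)

/-- stage -/
def bdE3 (i16 : ℕ) (c16 : ℕ × ℕ) : Bool :=
    strict (dg (nat_lit 72) TBE3_16_13_5_0 i16) fun r_16_13_5_0 =>
    strict (dg (nat_lit 72) TBE3_16_13_5_1 i16) fun r_16_13_5_1 =>
    strict (dg (nat_lit 72) TBE3_16_13_5_2 i16) fun r_16_13_5_2 =>
    strict (dg (nat_lit 48) TBE3_16_7_13_0 i16) fun r_16_7_13_0 =>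
    stE3_1 c16.1 r_16_13_5_0 r_16_13_5_1 r_16_13_5_2 r_16_7_13_0 c16.2

theorem allE3 : allI (fun i c => bdE3 i c) CE3_16 (nat_lit 0) = true := by
  decide +kernel

theorem falseE3 {a t : ℕ} {i16 i13 i5 i7 i17 i23 i8 i29 : ℕ}
    (b16 : i16 < CE3_16.length)
    (b13 : i13 < CE3_13.length)
    (b5 : i5 < CE3_5.length)
    (b7 : i7 < CE3_7.length)
    (b17 : i17 < CE3_17.length)
    (b23 : i23 < CE3_23.length)
    (b8 : i8 < CE3_8.length)
    (b29 : i29 < CE3_29.length)
    (top : bdE3 i16 CE3_16[i16] = true)
    (h16 : CE3_16[i16] = (a % 16, t % 16))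
    (h13 : CE3_13[i13] = (a % 13, t % 13))
    (h5 : CE3_5[i5] = (a % 5, t % 5))
    (h7 : CE3_7[i7] = (a % 7, t % 7))
    (h17 : CE3_17[i17] = (a % 17, t % 17))
    (h23 : CE3_23[i23] = (a % 23, t % 23))
    (h8 : CE3_8[i8] = (a % 8, t % 8))
    (h29 : CE3_29[i29] = (a % 29, t % 29))
    (r_16_13_5_0 : chkE 5 (dg 12 (dg 72 TBE3_16_13_5_0 i16) i13) (a % 5) (t % 5) = true)
    (r_16_13_5_1 : chkE 5 (dg 12 (dg 72 TBE3_16_13_5_1 i16) i13) (a % 5) (t % 5) = true)
    (r_16_13_5_2 : chkE 5 (dg 12 (dg 72 TBE3_16_13_5_2 i16) i13) (a % 5) (t % 5) = true)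
    (r_16_7_13_0 : chkE 13 (dg 12 (dg 48 TBE3_16_7_13_0 i16) i7) (a % 13) (t % 13) = true)
    (r_7_17_13_0 : chkE 13 (dg 12 (dg 108 TBE3_7_17_13_0 i7) i17) (a % 13) (t % 13) = true)
    (r_17_23_7_0 : chkE 7 (dg 12 (dg 132 TBE3_17_23_7_0 i17) i23) (a % 7) (t % 7) = true)
    (r_8_29_13_0 : chkE 13 (dg 12 (dg 180 TBE3_8_29_13_0 i8) i29) (a % 13) (t % 13) = true)
    : False := by
  try rw [h16] at top
  unfold bdE3 at top
  simp only [strict_eq] at top
  unfold stE3_1 at top
  replace top := allI_get top b13
  try rw [h13] at top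
  simp only [strict_eq] at top
  unfold stE3_2 at top
  replace top := allI_get top b5
  try rw [h5] at top
  replace top := imp_spec top r_16_13_5_0
  replace top := imp_spec top r_16_13_5_1
  replace top := imp_spec top r_16_13_5_2
  unfold stE3_3 at top
  replace top := allI_get top b7
  try rw [h7] at top
  simp only [strict_eq] at top
  replace top := imp_spec top r_16_7_13_0
  unfold stE3_4 at top
  replace top := allI_get top b17
  try rw [h17] at top
  simp only [strict_eq] at top
  replace top := imp_spec top r_7_17_13_0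
  unfold stE3_5 at top
  replace top := allI_get top b23
  try rw [h23] at top
  replace top := imp_spec top r_17_23_7_0
  unfold stE3_6 at top
  replace top := allI_get top b8
  try rw [h8] at top
  simp only [strict_eq] at top
  have f1 : Nat.beq (Nat.mod (a % 16) (nat_lit 8)) (a % 8) = true := by
    rw [Nat.beq_eq]; have : a % 16 % 8 = a % 8 := by omega
    exact this
  have f2 : Nat.beq (Nat.mod (t % 16) (nat_lit 8)) (t % 8) = true := by
    rw [Nat.beq_eq]; have : t % 16 % 8 = t % 8 := by omega
    exact this
  replace top := imp_spec (imp_spec top f1) f2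
  unfold stE3_7 at top
  replace top := allI_get top b29
  try rw [h29] at top
  replace top := imp_spec top r_8_29_13_0
  exact Bool.false_ne_true top

/-- no large solution with `a = 3` -/
theorem noE3 {a n d : ℕ} (ha : a = 3) (hn2 : n % 2 = 1)
    (hd : (d : ℤ) = ((a : ℤ) * n) ^ 2 - 4 * a)
    (j5 : jacobiSym d 5 = -1)
    (j7 : jacobiSym d 7 = -1)
    (j13 : jacobiSym d 13 = -1)
    (j17 : jacobiSym d 17 = -1)
    (j23 : jacobiSym d 23 = -1)
    (j29 : jacobiSym d 29 = -1)
    (hT : AllE a n d) : False := by
  have ha2 : a % 2 = 1 := by rw [ha]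
  have q2 := d2_E hd ha2 hn2
  have q5 : ¬ 5 ∣ d := nd_of (by norm_num) j5
  have q7 : ¬ 7 ∣ d := nd_of (by norm_num) j7
  have q13 : ¬ 13 ∣ d := nd_of (by norm_num) j13
  have q17 : ¬ 17 ∣ d := nd_of (by norm_num) j17
  have q23 : ¬ 23 ∣ d := nd_of (by norm_num) j23
  have q29 : ¬ 29 ∣ d := nd_of (by norm_num) j29
  have c16 : Nat.Coprime 16 d := cop_of (p := 2) (k := 4) (by norm_num) q2
  have c13 : Nat.Coprime 13 d := cop_of (p := 13) (k := 1) (by norm_num) q13
  have c5 : Nat.Coprime 5 d := cop_of (p := 5) (k := 1) (by norm_num) q5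
  have c7 : Nat.Coprime 7 d := cop_of (p := 7) (k := 1) (by norm_num) q7
  have c17 : Nat.Coprime 17 d := cop_of (p := 17) (k := 1) (by norm_num) q17
  have c23 : Nat.Coprime 23 d := cop_of (p := 23) (k := 1) (by norm_num) q23
  have c8 : Nat.Coprime 8 d := cop_of (p := 2) (k := 3) (by norm_num) q2
  have c29 : Nat.Coprime 29 d := cop_of (p := 29) (k := 1) (by norm_num) q29
  obtain ⟨i16, b16, e16⟩ := memCheck_spec memE3_16 (Nat.mod_lt a (by norm_num))
    (Nat.mod_lt n (by norm_num)) (spc_of (cl2_of (n := 16) (by norm_num) ha2 hn2) (by rw [ha]))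
  obtain ⟨i13, b13, e13⟩ := memCheck_spec memE3_13 (Nat.mod_lt a (by norm_num))
    (Nat.mod_lt n (by norm_num)) (spc_of (clE_of (n := 13) (by norm_num) (by norm_num) hd j13) (by rw [ha]))
  obtain ⟨i5, b5, e5⟩ := memCheck_spec memE3_5 (Nat.mod_lt a (by norm_num))
    (Nat.mod_lt n (by norm_num)) (spc_of (clE_of (n := 5) (by norm_num) (by norm_num) hd j5) (by rw [ha]))
  obtain ⟨i7, b7, e7⟩ := memCheck_spec memE3_7 (Nat.mod_lt a (by norm_num))
    (Nat.mod_lt n (by norm_num)) (spc_of (clE_of (n := 7) (by norm_num) (by norm_num) hd j7) (by rw [ha]))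
  obtain ⟨i17, b17, e17⟩ := memCheck_spec memE3_17 (Nat.mod_lt a (by norm_num))
    (Nat.mod_lt n (by norm_num)) (spc_of (clE_of (n := 17) (by norm_num) (by norm_num) hd j17) (by rw [ha]))
  obtain ⟨i23, b23, e23⟩ := memCheck_spec memE3_23 (Nat.mod_lt a (by norm_num))
    (Nat.mod_lt n (by norm_num)) (spc_of (clE_of (n := 23) (by norm_num) (by norm_num) hd j23) (by rw [ha]))
  obtain ⟨i8, b8, e8⟩ := memCheck_spec memE3_8 (Nat.mod_lt a (by norm_num))
    (Nat.mod_lt n (by norm_num)) (spc_of (cl2_of (n := 8) (by norm_num) ha2 hn2) (by rw [ha]))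
  obtain ⟨i29, b29, e29⟩ := memCheck_spec memE3_29 (Nat.mod_lt a (by norm_num))
    (Nat.mod_lt n (by norm_num)) (spc_of (clE_of (n := 29) (by norm_num) (by norm_num) hd j29) (by rw [ha]))
  exact falseE3 b16 b13 b5 b7 b17 b23 b8 b29 (allI_get allE3 b16)
    e16 e13 e5 e7 e17 e23 e8 e29
    (chkE_of hyp_16_13_5_0 dr_16_13_5_0 ctE3_16_13_5_0 hT (by norm_num) (by norm_num) (c16.mul_left c13) q5 b16 b13 e16 e13)
    (chkE_of hyp_16_13_5_1 dr_16_13_5_1 ctE3_16_13_5_1 hT (by norm_num) (by norm_num) (c16.mul_left c13) q5 b16 b13 e16 e13)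
    (chkE_of hyp_16_13_5_2 dr_16_13_5_2 ctE3_16_13_5_2 hT (by norm_num) (by norm_num) (c16.mul_left c13) q5 b16 b13 e16 e13)
    (chkE_of hyp_16_7_13_0 dr_16_7_13_0 ctE3_16_7_13_0 hT (by norm_num) (by norm_num) (c16.mul_left c7) q13 b16 b7 e16 e7)
    (chkE_of hyp_7_17_13_0 dr_7_17_13_0 ctE3_7_17_13_0 hT (by norm_num) (by norm_num) (c7.mul_left c17) q13 b7 b17 e7 e17)
    (chkE_of hyp_17_23_7_0 dr_17_23_7_0 ctE3_17_23_7_0 hT (by norm_num) (by norm_num) (c17.mul_left c23) q7 b17 b23 e17 e23)
    (chkE_of hyp_8_29_13_0 dr_8_29_13_0 ctE3_8_29_13_0 hT (by norm_num) (by norm_num) (c8.mul_left c29) q13 b8 b29 e8 e29)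

end Pool.Agent.LibH4.KF


end

section

/-!
Representations of norms by the edges of an even cycle, for every discriminant; genus theory.
-/

namespace Pool.Agent.RDF

open Finset (range)
open Pool.Agent.LibH4 Pool.Agent.LibH4.FA Pool.Agent.Lib_helper5

lemma dvd_of_congr {m B : ℤ} {n : ℕ} {z w : QuadraticAlgebra ℤ m B}
    (hw : w.norm.natAbs = n) [IsDomain (QuadraticAlgebra ℤ m B)] (hn : n ≠ 0)
    (h : ∃ t : QuadraticAlgebra ℤ m B, z = w + (n : QuadraticAlgebra ℤ m B) * t) : w ∣ z := by
  obtain ⟨t, ht⟩ := h
  have h1 : ((w.norm : ℤ) : QuadraticAlgebra ℤ m B) = w * star w := intCast_norm_eq w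
  rcases Int.natAbs_eq w.norm with h2 | h2
  · have h3 : (n : QuadraticAlgebra ℤ m B) = w * star w := by
      rw [← h1, h2, hw]; simp
    rw [ht, h3]
    exact ⟨1 + star w * t, by ring⟩
  · have h3 : (n : QuadraticAlgebra ℤ m B) = -(w * star w) := by
      rw [← h1, h2, hw]; simp
    rw [ht, h3]
    exact ⟨1 - star w * t, by ring⟩

/-- finitely many classes of given norm -/
lemma SN_finite (m B : ℤ) [IsDomain (QuadraticAlgebra ℤ m B)] (n : ℕ) (hn : n ≠ 0) :
    (SN m B n).Finite := by
  have : NeZero n := ⟨hn⟩
  let φ : Associates (QuadraticAlgebra ℤ m B) → ZMod n × ZMod n := fun c =>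
    ((((Quotient.out c : QuadraticAlgebra ℤ m B).re : ℤ) : ZMod n),
      (((Quotient.out c : QuadraticAlgebra ℤ m B).im : ℤ) : ZMod n))
  apply Set.Finite.of_injOn (f := φ) (t := Set.univ) (fun _ _ => Set.mem_univ _) _ Set.finite_univ
  intro c hc c' hc' hφ
  have e1 : Associates.mk (Quotient.out c) = c := Quotient.out_eq c
  have e2 : Associates.mk (Quotient.out c') = c' := Quotient.out_eq c'
  set z := (Quotient.out c : QuadraticAlgebra ℤ m B) with hz
  set w := (Quotient.out c' : QuadraticAlgebra ℤ m B) with hw
  have n1 : z.norm.natAbs = n := by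
    have : absN c = n := hc
    rw [← e1, absN_mk] at this
    exact this
  have n2 : w.norm.natAbs = n := by
    have : absN c' = n := hc'
    rw [← e2, absN_mk] at this
    exact this
  have h1 : ((z.re : ℤ) : ZMod n) = (w.re : ℤ) := congrArg Prod.fst hφ
  have h2 : ((z.im : ℤ) : ZMod n) = (w.im : ℤ) := congrArg Prod.snd hφ
  rw [ZMod.intCast_eq_intCast_iff_dvd_sub] at h1 h2
  obtain ⟨s, hs⟩ := h1
  obtain ⟨t, ht⟩ := h2
  have d1 : w ∣ z := by
    apply dvd_of_congr n2 hn
    refine ⟨⟨-s, -t⟩, ?_⟩
    ext
    · simp; linarith
    · simp; linarith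
  have d2 : z ∣ w := by
    apply dvd_of_congr n1 hn
    refine ⟨⟨s, t⟩, ?_⟩
    ext
    · simp; linarith
    · simp; linarith
  rw [← e1, ← e2, Associates.mk_eq_mk_iff_associated]
  exact associated_of_dvd_dvd d2 d1

/-- an element of norm `±n` gives a representation by one of the edges, for every discriminant -/
theorem even_rep' (m B : ℤ) (hm : 0 < m) {K : ℕ}
    {P R S : ℕ → ℤ} {c : ℕ → ℕ} (h : CG.CycM m B K P R S c) (J : ℕ) (hK : K = 2 * J) (hJ : 0 < J)
    (hcl : CG.rho m B c K = CG.rho m B c (K + 1) * CG.om m B)
    (hP1 : ∀ k < K, k ≠ 1 → P k ≠ 1)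
    [IsDomain (QuadraticAlgebra ℤ m B)]
    (n : ℕ) (hn : n ≠ 0) (π : QuadraticAlgebra ℤ m B) (hπ : π.norm.natAbs = n) :
    ∃ k < K, ∃ x y : ℕ, 1 ≤ x ∧ y < c k * x ∧
      P k * (x : ℤ) ^ 2 + R k * x * y - S k * (y : ℤ) ^ 2 = n := by
  have h1 := CG.count_even hm h J hK hJ hcl hP1 n hn
  have h2 := SN_finite m B n hn
  have h3 : (SN m B n).ncard ≠ 0 := by
    rw [Ne, Set.ncard_eq_zero h2, ← Ne, ← Set.nonempty_iff_ne_empty]
    refine ⟨Associates.mk π, ?_⟩
    change absN _ = n
    rw [absN_mk]
    exact hπ
  rw [h1] at h3
  obtain ⟨k, hk, hk'⟩ := Finset.exists_ne_zero_of_sum_ne_zero h3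
  have hne : (edgeSet (P k) (R k) (S k) (c k) n).Nonempty :=
    Set.nonempty_of_ncard_ne_zero hk'
  obtain ⟨⟨x, y⟩, hx, hy, he⟩ := hne
  exact ⟨k, Finset.mem_range.1 hk, x, y, hx, hy, he⟩

/-- a prime that divides a value `x² + Bx - m` is represented by one of the edges -/
theorem even_root (m B : ℤ) (hm : 0 < m) {K : ℕ}
    {P R S : ℕ → ℤ} {c : ℕ → ℕ} (h : CG.CycM m B K P R S c) (J : ℕ) (hK : K = 2 * J) (hJ : 0 < J)
    (hcl : CG.rho m B c K = CG.rho m B c (K + 1) * CG.om m B)
    (hP1 : ∀ k < K, k ≠ 1 → P k ≠ 1)
    [IsDomain (QuadraticAlgebra ℤ m B)] [UniqueFactorizationMonoid (QuadraticAlgebra ℤ m B)]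
    (p : ℕ) (hp : p.Prime) {t : ℤ} (ht : (p : ℤ) ∣ t ^ 2 + B * t - m) :
    ∃ k < K, ∃ x y : ℕ, 1 ≤ x ∧ y < c k * x ∧
      P k * (x : ℤ) ^ 2 + R k * x * y - S k * (y : ℤ) ^ 2 = p := by
  obtain ⟨π, hπ⟩ := exists_norm_of_root hp ht
  exact even_rep' m B hm h J hK hJ hcl hP1 p hp.ne_zero π hπ

/-- **genus theory**: `d = R s` with `R`, `s` congruent to one modulo four is impossible -/
theorem genus_one {m B : ℤ} [IsDomain (QuadraticAlgebra ℤ m B)]
    [UniqueFactorizationMonoid (QuadraticAlgebra ℤ m B)] {R s : ℕ}
    (hd : ((R * s : ℕ) : ℤ) = B ^ 2 + 4 * m) (hsq : Squarefree (R * s))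
    (hR1 : 1 < R) (hs1 : 1 < s) (hR4 : R % 4 = 1) (hs4 : s % 4 = 1) : False := by
  rw [Nat.squarefree_mul_iff] at hsq
  obtain ⟨hcop, hsR, hss⟩ := hsq
  have hR2 : R % 2 = 1 := by omega
  obtain ⟨l, hlp, hl2, hl4, hlR, hls⟩ := G4.exists_prime hR1 hs1 hR2 (by omega) hsR hss hcop
  have hodl : Odd l := Nat.odd_iff.2 (by omega)
  have hj : jacobiSym ((R * s : ℕ) : ℤ) l = 1 := by
    push_cast
    rw [jacobiSym.mul_left, ← jacobiSym.quadratic_reciprocity_one_mod_four hl4
      (Nat.odd_iff.2 hR2), ← jacobiSym.quadratic_reciprocity_one_mod_four hl4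
      (Nat.odd_iff.2 (by omega : s % 2 = 1)), hlR, hls]
    norm_num
  obtain ⟨x, hx⟩ := exists_root_of_ne (m := m) (B := B) (d := R * s)
    hd hlp (by omega) (by rw [hj]; norm_num)
  obtain ⟨π, hπ⟩ := exists_norm_of_root hlp hx
  have hN : 4 * π.norm = (2 * π.re + B * π.im) ^ 2 - R * s * π.im ^ 2 := by
    have hd' : (R : ℤ) * s = B ^ 2 + 4 * m := by rw [← hd]; push_cast; ring
    rw [QuadraticAlgebra.norm_def, hd']
    ring
  have hsym : jacobiSym (4 * π.norm) R = jacobiSym ((2 * π.re + B * π.im) ^ 2) R := by
    apply jacobiSym.mod_left'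
    rw [hN, Int.sub_emod, mul_assoc, Int.mul_emod_right]
    simp
  rw [jacobiSym.mul_left, jacobiSym.at_four (Nat.odd_iff.2 hR2), one_mul, jacobiSym.pow_left]
    at hsym
  have hneg : jacobiSym (-1) R = 1 := by
    rw [jacobiSym.at_neg_one (Nat.odd_iff.2 hR2), ZMod.χ₄_nat_one_mod_four hR4]
  have hval : jacobiSym π.norm R = -1 := by
    rcases Int.natAbs_eq π.norm with h7 | h7
    · rw [h7, hπ, hlR]
    · rw [h7, hπ, neg_eq_neg_one_mul, jacobiSym.mul_left, hneg, hlR, one_mul]
  rw [hval] at hsym
  nlinarith [sq_nonneg (jacobiSym (2 * π.re + B * π.im) R)]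

end Pool.Agent.RDF


end

section

/-!
Discriminants congruent to one modulo four: `d = m² + r`, `r ∣ 4m`, `m` even.
-/

namespace Pool.Agent.RDF

open Finset (range)
open Pool.Agent.LibH4 Pool.Agent.LibH4.FA Pool.Agent.Lib_helper5
open scoped NumberField

lemma jac3 {d : ℕ} (h : jacobiSym d 3 = -1) : d % 3 = 2 := by
  rw [jacobiSym.mod_left] at h
  have h3 : (d : ℤ) % ((3 : ℕ) : ℤ) = ((d % 3 : ℕ) : ℤ) := by push_cast; rfl
  rw [h3] at h
  have hlt : d % 3 < 3 := Nat.mod_lt _ (by norm_num)
  interval_cases hr : d % 3
  · norm_num at h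
  · norm_num at h
  · rfl

lemma jac5 {d : ℕ} (h : jacobiSym d 5 = -1) : d % 5 = 2 ∨ d % 5 = 3 := by
  rw [jacobiSym.mod_left] at h
  have h3 : (d : ℤ) % ((5 : ℕ) : ℤ) = ((d % 5 : ℕ) : ℤ) := by push_cast; rfl
  rw [h3] at h
  have hlt : d % 5 < 5 := Nat.mod_lt _ (by norm_num)
  interval_cases hr : d % 5
  · norm_num at h
  · norm_num at h
  · left; rfl
  · right; rfl
  · norm_num at h

lemma jac7 {d : ℕ} (h : jacobiSym d 7 = -1) : d % 7 = 3 ∨ d % 7 = 5 ∨ d % 7 = 6 := by
  rw [jacobiSym.mod_left] at h
  have h3 : (d : ℤ) % ((7 : ℕ) : ℤ) = ((d % 7 : ℕ) : ℤ) := by push_cast; rfl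
  rw [h3] at h
  have hlt : d % 7 < 7 := Nat.mod_lt _ (by norm_num)
  interval_cases hr : d % 7
  · norm_num at h
  · norm_num at h
  · norm_num at h
  · left; rfl
  · norm_num at h
  · right; left; rfl
  · right; right; rfl

namespace FE

variable {A k : ℕ}

/-- representations by the edges are large -/
theorem rep_large (hA : 1 ≤ A) (hk : 1 ≤ k)
    [IsDomain (QuadraticAlgebra ℤ (w A k) (bb A k))]
    [UniqueFactorizationMonoid (QuadraticAlgebra ℤ (w A k) (bb A k))]
    (p : ℕ) (hp : p.Prime) {t : ℤ} (ht : (p : ℤ) ∣ t ^ 2 + bb A k * t - w A k) :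
    (p : ℤ) = aa A ∨ w A k ≤ p := by
  obtain ⟨j, hj, x, y, hx, hy, he⟩ := even_root (w A k) (bb A k) (by have := w_pos hA hk; omega)
    (cyc hA hk) 2 rfl (by norm_num) (closing hA hk) (hP1 hA hk) p hp ht
  have hw := w_pos hA hk
  have haa := aa_pos hA
  have hA' : (1 : ℤ) ≤ A := by exact_mod_cast hA
  have hk' : (1 : ℤ) ≤ k := by exact_mod_cast hk
  have hx' : (1 : ℤ) ≤ x := by exact_mod_cast hx
  have hxx : (1 : ℤ) ≤ (x : ℤ) ^ 2 := by nlinarith
  rcases Nat.eq_zero_or_pos y with hy0 | hy0
  · subst hy0
    have he' : P A k j * (x : ℤ) ^ 2 = p := by rw [← he]; push_cast; ring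
    have hP := eq_of_prime_mul_sq hp he'
    interval_cases j <;> simp only [P] at hP
    · right; exact hP.le
    · have := hp.two_le
      omega
    · right; exact hP.le
    · left; exact hP.symm
  · right
    have hy1 : (1 : ℤ) ≤ y := by exact_mod_cast hy0
    have hyc : (y : ℤ) + 1 ≤ c A k j * x := by exact_mod_cast hy
    interval_cases j <;> simp only [P, R, S, c] at he hyc
    · rw [cast_c0 hA hk] at hyc
      have h1 : w A k ≤ w A k * (x : ℤ) ^ 2 := by nlinarith
      have h2 : 0 ≤ (y : ℤ) * (bb A k * x - y) := mul_nonneg (by linarith) (by linarith)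
      nlinarith
    · push_cast at hyc
      have h1 : 0 ≤ w A k * ((y : ℤ) * (2 * x - y) - 1) := by
        apply mul_nonneg (by linarith)
        nlinarith
      have h2 : (1 : ℤ) * x ^ 2 + bb A k * x * y - w A k * y ^ 2
        = w A k * (y * (2 * x - y)) + x ^ 2 + (2 * A - 1) * (x * y) := by unfold w bb; ring
      have h3 : 0 ≤ (2 * (A : ℤ) - 1) * (x * y) := mul_nonneg (by linarith) (by nlinarith)
      linarith
    · rw [cast_c2 hk] at hyc
      have h1 : w A k ≤ w A k * (x : ℤ) ^ 2 := by nlinarith
      have h2 : 0 ≤ aa A * ((y : ℤ) * ((2 * k - 1) * x - y)) :=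
        mul_nonneg (by linarith) (mul_nonneg (by linarith) (by linarith))
      nlinarith
    · push_cast at hyc
      have h1 : 0 ≤ w A k * ((y : ℤ) * (2 * x - y) - 1) := by
        apply mul_nonneg (by linarith)
        nlinarith
      have h2 : aa A * (x : ℤ) ^ 2 + (2 * aa A * k - aa A) * x * y - w A k * y ^ 2
        = w A k * (y * (2 * x - y)) + x * (aa A * x - (2 * A - 1) * y) := by unfold w aa; ring
      have h3 : 0 ≤ (x : ℤ) * (aa A * x - (2 * A - 1) * y) := by
        apply mul_nonneg (by linarith)
        have h4 : (2 * (A : ℤ) - 1) * y ≤ (2 * A - 1) * (2 * x - 1) :=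
          mul_le_mul_of_nonneg_left (by linarith) (by linarith)
        unfold aa
        nlinarith
      linarith

/-- small primes are inert -/
theorem inert (hA : 1 ≤ A) (hk : 1 ≤ k)
    [IsDomain (QuadraticAlgebra ℤ (w A k) (bb A k))]
    [UniqueFactorizationMonoid (QuadraticAlgebra ℤ (w A k) (bb A k))]
    {d : ℕ} (hd : (d : ℤ) = (2 * aa A * k) ^ 2 - aa A)
    (p : ℕ) (hp : p.Prime) (hp2 : p ≠ 2) (hpa : (p : ℤ) ≠ aa A) (hpw : (p : ℤ) < w A k) :
    jacobiSym d p = -1 := by
  by_contra hj
  obtain ⟨t, ht⟩ := exists_root_of_ne (m := w A k) (B := bb A k) (d := d) (by rw [hd, disc]) hp hp2 hj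
  rcases rep_large hA hk p hp ht with h | h
  · exact hpa h
  · exact absurd hpw (not_lt.2 h)

/-- the finite check -/
def okS (A k : ℕ) : Bool :=
  decide (((2 * (4 * A - 1) * k) ^ 2 - (4 * A - 1)) ∈ ([141, 573, 1293, 1757] : List ℕ)) ||
  decide (¬ (4 * (A : ℤ) - 1) * k - A ≤ 19) ||
  decide (¬ ((2 * (4 * A - 1) * k) ^ 2 - (4 * A - 1)) % 8 = 5) ||
  decide (3 * 3 ∣ ((2 * (4 * A - 1) * k) ^ 2 - (4 * A - 1))) ||
  decide (5 * 5 ∣ ((2 * (4 * A - 1) * k) ^ 2 - (4 * A - 1))) ||
  decide ((3 : ℤ) ≠ 4 * A - 1 ∧ (3 : ℤ) < (4 * A - 1) * k - A ∧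
      ((2 * (4 * A - 1) * k) ^ 2 - (4 * A - 1)) % 3 ≠ 2) ||
  decide ((5 : ℤ) ≠ 4 * A - 1 ∧ (5 : ℤ) < (4 * A - 1) * k - A ∧
      ((2 * (4 * A - 1) * k) ^ 2 - (4 * A - 1)) % 5 ≠ 2 ∧
      ((2 * (4 * A - 1) * k) ^ 2 - (4 * A - 1)) % 5 ≠ 3) ||
  decide ((7 : ℤ) ≠ 4 * A - 1 ∧ (7 : ℤ) < (4 * A - 1) * k - A ∧
      ((2 * (4 * A - 1) * k) ^ 2 - (4 * A - 1)) % 7 ≠ 3 ∧
      ((2 * (4 * A - 1) * k) ^ 2 - (4 * A - 1)) % 7 ≠ 5 ∧
      ((2 * (4 * A - 1) * k) ^ 2 - (4 * A - 1)) % 7 ≠ 6)

lemma okS_all : ∀ A : ℕ, A < 7 → ∀ k : ℕ, k < 7 → 1 ≤ A → 1 ≤ k → okS A k = true := by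
  decide +kernel

/-- the small cases -/
lemma small (hA : 1 ≤ A) (hk : 1 ≤ k) {d : ℕ} (hd : (d : ℤ) = (2 * aa A * k) ^ 2 - aa A)
    (hsq : Squarefree d) (hs : w A k ≤ 19) (h8 : d % 8 = 5)
    (hin : ∀ p : ℕ, p.Prime → p ≠ 2 → (p : ℤ) ≠ aa A → (p : ℤ) < w A k → jacobiSym d p = -1) :
    d ∈ ([141, 573, 1293, 1757] : List ℕ) := by
  have hA' : (1 : ℤ) ≤ A := by exact_mod_cast hA
  have hk' : (1 : ℤ) ≤ k := by exact_mod_cast hk
  unfold w aa at hs
  have hA6 : A ≤ 6 := by
    have : (A : ℤ) ≤ 6 := by nlinarith
    exact_mod_cast this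
  have hk6 : k ≤ 6 := by
    have : (k : ℤ) ≤ 6 := by nlinarith
    exact_mod_cast this
  have hd2 : d = (2 * (4 * A - 1) * k) ^ 2 - (4 * A - 1) := by
    have e1 : ((4 * A - 1 : ℕ) : ℤ) = aa A := cast_aa hA
    have h4 : 1 ≤ 4 * A - 1 := by omega
    have hle : 4 * A - 1 ≤ (2 * (4 * A - 1) * k) ^ 2 := by
      have : 4 * A - 1 ≤ 2 * (4 * A - 1) * k := by nlinarith
      nlinarith
    zify [hle]
    rw [hd]
    push_cast
    rw [e1]
  have i3 := hin 3 (by norm_num) (by norm_num)
  have i5 := hin 5 (by norm_num) (by norm_num)
  have i7 := hin 7 (by norm_num) (by norm_num)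
  clear hin
  have s3 : ¬ 3 * 3 ∣ d := fun h => by
    have := hsq 3 h
    norm_num at this
  have s5 : ¬ 5 * 5 ∣ d := fun h => by
    have := hsq 5 h
    norm_num at this
  have k3 : ((3 : ℕ) : ℤ) ≠ aa A → ((3 : ℕ) : ℤ) < w A k → d % 3 = 2 := fun h1 h2 => jac3 (i3 h1 h2)
  have k5 : ((5 : ℕ) : ℤ) ≠ aa A → ((5 : ℕ) : ℤ) < w A k → d % 5 = 2 ∨ d % 5 = 3 :=
    fun h1 h2 => jac5 (i5 h1 h2)
  have k7 : ((7 : ℕ) : ℤ) ≠ aa A → ((7 : ℕ) : ℤ) < w A k → d % 7 = 3 ∨ d % 7 = 5 ∨ d % 7 = 6 :=
    fun h1 h2 => jac7 (i7 h1 h2)
  unfold w aa at k3 k5 k7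
  rw [hd2] at h8 s3 s5 k3 k5 k7 ⊢
  have key := okS_all A (by omega) k (by omega) hA hk
  unfold okS at key
  by_contra hcon
  have e3 : ¬ ((3 : ℤ) ≠ 4 * A - 1 ∧ (3 : ℤ) < (4 * A - 1) * k - A ∧
      ((2 * (4 * A - 1) * k) ^ 2 - (4 * A - 1)) % 3 ≠ 2) :=
    fun ⟨h1, h2, h3⟩ => h3 (k3 (by exact_mod_cast h1) (by exact_mod_cast h2))
  have e5 : ¬ ((5 : ℤ) ≠ 4 * A - 1 ∧ (5 : ℤ) < (4 * A - 1) * k - A ∧
      ((2 * (4 * A - 1) * k) ^ 2 - (4 * A - 1)) % 5 ≠ 2 ∧
      ((2 * (4 * A - 1) * k) ^ 2 - (4 * A - 1)) % 5 ≠ 3) := by
    rintro ⟨h1, h2, h3, h4⟩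
    rcases k5 (by exact_mod_cast h1) (by exact_mod_cast h2) with h | h
    · exact h3 h
    · exact h4 h
  have e7 : ¬ ((7 : ℤ) ≠ 4 * A - 1 ∧ (7 : ℤ) < (4 * A - 1) * k - A ∧
      ((2 * (4 * A - 1) * k) ^ 2 - (4 * A - 1)) % 7 ≠ 3 ∧
      ((2 * (4 * A - 1) * k) ^ 2 - (4 * A - 1)) % 7 ≠ 5 ∧
      ((2 * (4 * A - 1) * k) ^ 2 - (4 * A - 1)) % 7 ≠ 6) := by
    rintro ⟨h1, h2, h3, h4, h5⟩
    rcases k7 (by exact_mod_cast h1) (by exact_mod_cast h2) with h | h | h
    · exact h3 h
    · exact h4 h
    · exact h5 h
  rw [decide_eq_false e3, decide_eq_false e5, decide_eq_false e7, decide_eq_false s3,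
    decide_eq_false s5, decide_eq_false hcon, decide_eq_false (not_not.2 h8),
    decide_eq_false (not_not.2 hs)] at key
  exact absurd key (by decide)

end FE

end Pool.Agent.RDF


end
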