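import Mathlib
import Pool.Agent.RQM.C01
import Pool.Agent.RQM.C02
import Pool.Agent.RQM.C03
import Pool.Agent.RQM.C04
import Pool.Agent.RQM.C06
import Pool.Agent.RQM.C07
import Pool.Agent.RQM.C08
import Pool.Agent.RQM.C09
import Pool.Agent.RQM.C12
import Pool.Agent.RQM.C13
import Pool.Agent.RQM.C15
import Pool.Agent.RQM.C28
import Pool.Agent.RQM.V2

/-! Parts: Lib_helper5.RDF.Count, Lib_helper5.RDF.Char, Lib_helper5.RDF.Gen, Lib_helper5.RDF.EvenRed, RDF.KR_17_13_5_0 -/

namespace Pool.Agent.LibH4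
end Pool.Agent.LibH4
namespace Pool.Agent.LibH4.FA
end Pool.Agent.LibH4.FA
namespace Pool.Agent.LibH4.Ker
end Pool.Agent.LibH4.Ker
namespace Pool.Agent.LibH4.T6
end Pool.Agent.LibH4.T6

section

/-!
Counting elements of given norm in a quadratic order with unique factorisation, for a general
discriminant and its character.
-/

namespace Pool.Agent.Lib_helper5.RDF

open Pool.Agent.LibH4

/-- the divisor sum of a character -/
def sg (ψ : ℕ → ℤ) (n : ℕ) : ℤ := ∑ l ∈ n.divisors, ψ l

/-- `ψ` is the quadratic character of the order `ℤ[ω]`, `ω² = m + B ω`, of discriminant `D`;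
the prime `2` is not split -/
structure Kr (m B : ℤ) (D : ℕ) (ψ : ℕ → ℤ) : Prop where
  hD : (D : ℤ) = B ^ 2 + 4 * m
  one : ψ 1 = 1
  mul : ∀ a b, ψ (a * b) = ψ a * ψ b
  tri : ∀ p, p.Prime → ψ p = 0 ∨ ψ p = 1 ∨ ψ p = -1
  inert : ∀ p : ℕ, p.Prime → ψ p = -1 → ∀ x y : ℤ,
    (p : ℤ) ∣ x * x + B * x * y - m * y * y → (p : ℤ) ∣ y
  root : ∀ p : ℕ, p.Prime → ψ p ≠ -1 → ∃ x : ℤ, (p : ℤ) ∣ x ^ 2 + B * x - m
  split : ∀ p : ℕ, p.Prime → ψ p = 1 → p ≠ 2 ∧ ¬ p ∣ D
  ram : ∀ p : ℕ, p.Prime → ψ p = 0 → p ∣ D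

lemma sg_one {ψ : ℕ → ℤ} (h : ψ 1 = 1) : sg ψ 1 = 1 := by
  simp [sg, h]

lemma sg_rec {ψ : ℕ → ℤ} (hmul : ∀ a b, ψ (a * b) = ψ a * ψ b) {p n : ℕ} (hp : p.Prime) (hn : n ≠ 0) :
    sg ψ (p * n) = (1 + ψ p) * sg ψ n -
      ψ p * (if p ∣ n then sg ψ (n / p) else 0) := by
  have hinter : n.divisors ∩ n.divisors.image (fun l => p * l) =
      if p ∣ n then (n / p).divisors.image (fun l => p * l) else ∅ := by
    split_ifs with h
    · obtain ⟨n', rfl⟩ := h
      have hn' : n' ≠ 0 := by rintro rfl; simp at hn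
      rw [Nat.mul_div_cancel_left _ hp.pos]
      ext l
      simp only [Nat.mem_divisors, Finset.mem_inter, Finset.mem_image]
      constructor
      · rintro ⟨⟨h1, h2⟩, l', ⟨h3, _⟩, rfl⟩
        exact ⟨l', ⟨Nat.dvd_of_mul_dvd_mul_left hp.pos h1, hn'⟩, rfl⟩
      · rintro ⟨l', ⟨h1, _⟩, rfl⟩
        exact ⟨⟨Nat.mul_dvd_mul_left p h1, hn⟩, l', ⟨h1.mul_left p, hn⟩, rfl⟩
    · rw [Finset.eq_empty_iff_forall_notMem]
      intro l hl
      simp only [Nat.mem_divisors, Finset.mem_inter, Finset.mem_image] at hl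
      obtain ⟨⟨h1, _⟩, l', _, rfl⟩ := hl
      exact h ((Dvd.intro l' rfl).trans h1)
  have hsum := Finset.sum_union_inter (s₁ := n.divisors) (s₂ := n.divisors.image (fun l => p * l))
    (f := fun l => ψ l)
  rw [← divisors_prime_mul hp hn, hinter] at hsum
  have hinj : Set.InjOn (fun l => p * l) (n.divisors : Set ℕ) := by
    intro a _ b _ hab
    exact Nat.eq_of_mul_eq_mul_left hp.pos hab
  rw [Finset.sum_image hinj] at hsum
  have himg : ∑ x ∈ n.divisors, ψ (p * x) = ψ p * sg ψ n := by
    rw [sg, Finset.mul_sum]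
    apply Finset.sum_congr rfl
    intro x _
    rw [hmul]
  rw [himg] at hsum
  have hlast : ∑ x ∈ (if p ∣ n then (n / p).divisors.image (fun l => p * l) else ∅),
      ψ x = ψ p * (if p ∣ n then sg ψ (n / p) else 0) := by
    split_ifs with h
    · have hinj' : Set.InjOn (fun l => p * l) ((n / p).divisors : Set ℕ) := by
        intro a _ b _ hab
        exact Nat.eq_of_mul_eq_mul_left hp.pos hab
      rw [Finset.sum_image hinj', sg, Finset.mul_sum]
      apply Finset.sum_congr rfl
      intro x _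
      rw [hmul]
    · simp
  rw [hlast] at hsum
  unfold sg at *
  linarith


variable {m B : ℤ} {D : ℕ} {ψ : ℕ → ℤ}

/-- inert primes divide an element as soon as they divide its norm -/
lemma Kr.dvd_of_dvd_norm (h : Kr m B D ψ) {p : ℕ} (hp : p.Prime) (hj : ψ p = -1)
    (z : QuadraticAlgebra ℤ m B) (hz : (p : ℤ) ∣ z.norm) :
    ((p : ℕ) : QuadraticAlgebra ℤ m B) ∣ z := by
  have hpp : Prime (p : ℤ) := Nat.prime_iff_prime_int.mp hp
  have key : (p : ℤ) ∣ z.im := by
    apply h.inert p hp hj z.re z.im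
    rwa [QuadraticAlgebra.norm_def] at hz
  have hre2 : (p : ℤ) ∣ z.re * z.re := by
    have e : z.re * z.re = z.norm - z.im * (B * z.re - m * z.im) := by
      rw [QuadraticAlgebra.norm_def]; ring
    rw [e]
    exact dvd_sub hz (key.mul_right _)
  have hre : (p : ℤ) ∣ z.re := by
    rcases hpp.dvd_or_dvd hre2 with h | h <;> exact h
  have h := (intCast_dvd_quad (p : ℤ) z).mpr ⟨hre, key⟩
  exact_mod_cast h

/-- noninert primes: existence of a prime element of norm `±p` -/
lemma Kr.exists_prime_elem [IsDomain (QuadraticAlgebra ℤ m B)]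
    [UniqueFactorizationMonoid (QuadraticAlgebra ℤ m B)] (hK : Kr m B D ψ) {p : ℕ}
    (hp : p.Prime) (hj : ψ p ≠ -1) :
    ∃ π : QuadraticAlgebra ℤ m B, Prime π ∧ Prime (star π) ∧ π.norm.natAbs = p := by
  obtain ⟨x, hx⟩ := hK.root p hp hj
  have hnp : ¬ Prime ((p : ℕ) : QuadraticAlgebra ℤ m B) := by
    intro hprime
    have h1 : ((p : ℕ) : QuadraticAlgebra ℤ m B) ∣ lin x * star (lin x) := by
      rw [← intCast_norm_eq, norm_lin]
      have := (Int.cast_dvd_cast (α := QuadraticAlgebra ℤ m B) _ _ hx)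
      exact_mod_cast this
    rcases hprime.dvd_or_dvd h1 with h | h
    · exact not_dvd_lin hp x h
    · exact not_dvd_star_lin hp x h
  rw [← UniqueFactorizationMonoid.irreducible_iff_prime] at hnp
  have hu := natCast_not_unit (m := m) (B := B) hp
  have : ∃ u v : QuadraticAlgebra ℤ m B, ((p : ℕ) : QuadraticAlgebra ℤ m B) = u * v ∧ ¬ IsUnit u ∧ ¬ IsUnit v := by
    by_contra hcon
    push Not at hcon
    apply hnp
    refine ⟨hu, ?_⟩
    intro a b hab
    by_contra hh
    push Not at hh
    exact hh.2 (hcon a b hab hh.1)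
  obtain ⟨u, v, huv, hu', hv'⟩ := this
  have hN : u.norm.natAbs * v.norm.natAbs = p ^ 2 := by
    rw [← Int.natAbs_mul, ← map_mul, ← huv, natAbs_norm_natCast]
  rw [QuadraticAlgebra.isUnit_iff_norm_isUnit, Int.isUnit_iff_natAbs_eq] at hu' hv'
  have hup : u.norm.natAbs = p := by
    have := (Nat.Prime.mul_eq_prime_sq_iff hp hu' hv').mp hN
    exact this.1
  refine ⟨u, ?_, ?_, hup⟩
  · rw [← UniqueFactorizationMonoid.irreducible_iff_prime]
    exact irreducible_of_prime_norm hp u hup
  · rw [← UniqueFactorizationMonoid.irreducible_iff_prime]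
    exact irreducible_of_prime_norm hp _ (by rw [QuadraticAlgebra.norm_star]; exact hup)

/-- split primes -/
lemma Kr.not_associated_star (hK : Kr m B D ψ) {p : ℕ}
    (hp : p.Prime) (hj : ψ p = 1) (π : QuadraticAlgebra ℤ m B)
    (hπ : π.norm.natAbs = p) (hprime : Prime π) : ¬ π ∣ star π := by
  intro hdvd
  obtain ⟨hp2, hpD⟩ := hK.split p hp hj
  have hpp : Prime (p : ℤ) := Nat.prime_iff_prime_int.mp hp
  -- trace
  set T : ℤ := 2 * π.re + B * π.im with hT
  have hTr : ((T : ℤ) : QuadraticAlgebra ℤ m B) = π + star π := by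
    ext
    · rw [QuadraticAlgebra.re_intCast, QuadraticAlgebra.re_add, QuadraticAlgebra.re_star, hT,
        Int.cast_id]
      ring
    · simp
  have hπT : π ∣ ((T : ℤ) : QuadraticAlgebra ℤ m B) := by
    rw [hTr]; exact dvd_add (dvd_refl _) hdvd
  have hπp : π ∣ (((p : ℕ) : ℤ) : QuadraticAlgebra ℤ m B) := by
    have := (dvd_natCast_of_norm π hπ).dvd_iff_dvd_right.mp (Dvd.intro _ rfl : π ∣ π * star π)
    exact_mod_cast this
  have hpT : (p : ℤ) ∣ T := by
    by_contra hpT
    have hcop : IsCoprime (p : ℤ) T := (Irreducible.coprime_iff_not_dvd hpp.irreducible).mpr hpT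
    obtain ⟨a, b, hab⟩ := hcop
    apply hprime.not_isUnit
    apply isUnit_of_dvd_one
    have : (1 : QuadraticAlgebra ℤ m B) = (a : QuadraticAlgebra ℤ m B) * (((p : ℕ) : ℤ) : QuadraticAlgebra ℤ m B)
        + (b : QuadraticAlgebra ℤ m B) * ((T : ℤ) : QuadraticAlgebra ℤ m B) := by
      have := congrArg (fun t : ℤ => (t : QuadraticAlgebra ℤ m B)) hab
      push_cast at this ⊢
      exact this.symm
    rw [this]
    exact dvd_add (hπp.mul_left _) (hπT.mul_left _)
  have h4 := four_norm π
  rw [← hK.hD, ← hT] at h4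
  have hpN : (p : ℤ) ∣ π.norm := by
    rw [Int.natCast_dvd, hπ]
  have hpd : (p : ℤ) ∣ D * π.im ^ 2 := by
    have e : (D : ℤ) * π.im ^ 2 = T ^ 2 - 4 * π.norm := by rw [h4]; ring
    rw [e]
    exact dvd_sub (dvd_pow hpT two_ne_zero) (hpN.mul_left 4)
  have hpd' : ¬ (p : ℤ) ∣ D := by
    intro h
    exact hpD (by exact_mod_cast h)
  have hpim : (p : ℤ) ∣ π.im := hpp.dvd_of_dvd_pow ((hpp.dvd_or_dvd hpd).resolve_left hpd')
  have hp2N : (p : ℤ) ^ 2 ∣ 4 * π.norm := by
    rw [h4]
    exact dvd_sub (pow_dvd_pow_of_dvd hpT 2) ((pow_dvd_pow_of_dvd hpim 2).mul_left _)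
  have hp2N' : p ^ 2 ∣ 4 * p := by
    have := Int.natAbs_dvd_natAbs.mpr hp2N
    rw [Int.natAbs_mul, hπ] at this
    simpa [Int.natAbs_pow] using this
  have hp4 : p ∣ 4 := by
    rw [sq] at hp2N'
    exact Nat.dvd_of_mul_dvd_mul_right hp.pos hp2N'
  have : p ∣ 2 := by
    have : p ∣ 2 * 2 := by norm_num; exact hp4
    rcases (Nat.Prime.dvd_mul hp).mp this with h | h <;> exact h
  exact hp2 ((Nat.prime_dvd_prime_iff_eq hp Nat.prime_two).mp this)


/-- ramified primes -/
lemma Kr.dvd_star_of_ramified (hK : Kr m B D ψ) {p : ℕ}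
    (hp : p.Prime) (hj : ψ p = 0) (π : QuadraticAlgebra ℤ m B)
    (hπ : π.norm.natAbs = p) : π ∣ star π := by
  have hpp : Prime (p : ℤ) := Nat.prime_iff_prime_int.mp hp
  have hpd : (p : ℤ) ∣ D := by exact_mod_cast hK.ram p hp hj
  set T : ℤ := 2 * π.re + B * π.im with hT
  have hTr : ((T : ℤ) : QuadraticAlgebra ℤ m B) = π + star π := by
    ext
    · rw [QuadraticAlgebra.re_intCast, QuadraticAlgebra.re_add, QuadraticAlgebra.re_star, hT,
        Int.cast_id]
      ring
    · simp
  have h4 := four_norm π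
  rw [← hK.hD, ← hT] at h4
  have hpN : (p : ℤ) ∣ π.norm := by
    rw [Int.natCast_dvd, hπ]
  have hpT2 : (p : ℤ) ∣ T ^ 2 := by
    have e : T ^ 2 = 4 * π.norm + D * π.im ^ 2 := by rw [h4]; ring
    rw [e]
    exact dvd_add (hpN.mul_left 4) (hpd.mul_right _)
  have hpT : (p : ℤ) ∣ T := hpp.dvd_of_dvd_pow hpT2
  have hπp : π ∣ (((p : ℕ) : ℤ) : QuadraticAlgebra ℤ m B) := by
    have := (dvd_natCast_of_norm π hπ).dvd_iff_dvd_right.mp (Dvd.intro _ rfl : π ∣ π * star π)
    exact_mod_cast this
  have hπT : π ∣ ((T : ℤ) : QuadraticAlgebra ℤ m B) :=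
    hπp.trans (Int.cast_dvd_cast (α := QuadraticAlgebra ℤ m B) _ _ hpT)
  rw [hTr] at hπT
  exact (dvd_add_right (dvd_refl π)).mp hπT

/-- recursion, inert case -/
lemma Kr.SN_inert [IsDomain (QuadraticAlgebra ℤ m B)] (hK : Kr m B D ψ) {p n : ℕ}
    (hp : p.Prime) (hj : ψ p = -1) :
    SN m B (p * n) = if p ∣ n then (fun c => Associates.mk ((p : ℕ) : QuadraticAlgebra ℤ m B) * c) ''
      (SN m B (n / p)) else ∅ := by
  have key : ∀ c ∈ SN m B (p * n), ∃ c', c = Associates.mk ((p : ℕ) : QuadraticAlgebra ℤ m B) * c' ∧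
      n = p * absN c' := by
    intro c hc
    obtain ⟨z, rfl⟩ := Associates.mk_surjective c
    change (z.norm).natAbs = p * n at hc
    have h1 : (p : ℤ) ∣ z.norm := by
      rw [Int.natCast_dvd, hc]; exact Dvd.intro _ rfl
    obtain ⟨w, hw⟩ := hK.dvd_of_dvd_norm hp hj z h1
    refine ⟨Associates.mk w, by rw [hw, Associates.mk_mul_mk], ?_⟩
    rw [absN_mk]
    have h2 : p * n = p ^ 2 * w.norm.natAbs := by
      rw [← hc, hw, map_mul, Int.natAbs_mul, natAbs_norm_natCast]
    have h3 : p * n = p * (p * w.norm.natAbs) := by rw [h2]; ring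
    exact Nat.eq_of_mul_eq_mul_left hp.pos h3
  split_ifs with h
  · obtain ⟨n', rfl⟩ := h
    rw [Nat.mul_div_cancel_left _ hp.pos]
    ext c
    constructor
    · intro hc
      obtain ⟨c', rfl, hc'⟩ := key c hc
      exact ⟨c', (Nat.eq_of_mul_eq_mul_left hp.pos hc').symm, rfl⟩
    · rintro ⟨c', hc', rfl⟩
      change absN _ = _
      rw [absN_mul, absN_mk_natCast, hc']
      ring
  · rw [Set.eq_empty_iff_forall_notMem]
    intro c hc
    obtain ⟨c', -, hc'⟩ := key c hc
    exact h ⟨_, hc'⟩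

/-- The number of classes of associates of absolute norm `n`. -/
theorem Kr.ncard_SN [IsDomain (QuadraticAlgebra ℤ m B)]
    [UniqueFactorizationMonoid (QuadraticAlgebra ℤ m B)] (hK : Kr m B D ψ)
    (n : ℕ) (hn : n ≠ 0) :
    (SN m B n).Finite ∧ ((SN m B n).ncard : ℤ) = sg ψ n := by
  induction n using Nat.strong_induction_on with
  | _ n IH =>
    rcases eq_or_ne n 1 with rfl | hn1
    · have : SN m B 1 = {1} := by
        ext c
        exact absN_eq_one_iff c
      rw [this, sg_one hK.one]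
      simp
    · obtain ⟨p, hp, n', rfl⟩ : ∃ p, p.Prime ∧ ∃ n', n = p * n' := by
        obtain ⟨p, hp, h⟩ := Nat.exists_prime_and_dvd hn1
        exact ⟨p, hp, h⟩
      have hn' : n' ≠ 0 := by rintro rfl; simp at hn
      have hlt : n' < p * n' := by
        have := hp.one_lt
        nlinarith [Nat.pos_of_ne_zero hn']
      obtain ⟨hfin, hcard⟩ := IH n' hlt hn'
      rw [sg_rec hK.mul hp hn']
      rcases hK.tri p hp with hj | hj | hj
      · -- ramified
        obtain ⟨π, hπ, hπ', hπn⟩ := hK.exists_prime_elem hp (by rw [hj]; norm_num)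
        have hdvd := hK.dvd_star_of_ramified hp hj π hπn
        have hass : Associates.mk π ∣ Associates.mk (star π) := Associates.mk_dvd_mk.mpr hdvd
        have hSN : SN m B (p * n') = (fun c => Associates.mk π * c) '' SN m B n' := by
          rw [image_mul_SN (Associates.mk π) p n' hπn hp.ne_zero]
          ext c
          constructor
          · intro hc
            refine ⟨hc, ?_⟩
            rcases exists_dvd_of_mem hp π hπn hπ c hc with h | h
            · exact h
            · exact hass.trans h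
          · exact fun h => h.1
        have hinj := mul_injective_assoc (Associates.mk π) (Associates.mk_ne_zero.mpr hπ.ne_zero)
        rw [hSN, hj]
        refine ⟨hfin.image _, ?_⟩
        rw [Set.ncard_image_of_injective _ hinj, hcard]
        ring
      · -- split
        obtain ⟨π, hπ, hπ', hπn⟩ := hK.exists_prime_elem hp (by rw [hj]; norm_num)
        have hnd := hK.not_associated_star hp hj π hπn hπ
        have hπn' : absN (Associates.mk (star π)) = p := by
          rw [absN_mk, QuadraticAlgebra.norm_star, hπn]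
        have hSN : SN m B (p * n') = (fun c => Associates.mk π * c) '' SN m B n' ∪
            (fun c => Associates.mk (star π) * c) '' SN m B n' := by
          rw [image_mul_SN (Associates.mk π) p n' hπn hp.ne_zero,
            image_mul_SN (Associates.mk (star π)) p n' hπn' hp.ne_zero]
          ext c
          constructor
          · intro hc
            rcases exists_dvd_of_mem hp π hπn hπ c hc with h | h
            · left; exact ⟨hc, h⟩
            · right; exact ⟨hc, h⟩
          · rintro (h | h)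
            · exact h.1
            · exact h.1
        have hinj := mul_injective_assoc (Associates.mk π) (Associates.mk_ne_zero.mpr hπ.ne_zero)
        have hinj' := mul_injective_assoc (Associates.mk (star π)) (Associates.mk_ne_zero.mpr hπ'.ne_zero)
        have hinter : (fun c => Associates.mk π * c) '' SN m B n' ∩
            (fun c => Associates.mk (star π) * c) '' SN m B n' =
            if p ∣ n' then (fun c => Associates.mk ((p : ℕ) : QuadraticAlgebra ℤ m B) * c) ''
              (SN m B (n' / p)) else ∅ := by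
          rw [image_mul_SN (Associates.mk π) p n' hπn hp.ne_zero,
            image_mul_SN (Associates.mk (star π)) p n' hπn' hp.ne_zero]
          have key : ∀ c, c ∈ SN m B (p * n') → Associates.mk π ∣ c → Associates.mk (star π) ∣ c →
              ∃ c', c = Associates.mk ((p : ℕ) : QuadraticAlgebra ℤ m B) * c' ∧ n' = p * absN c' := by
            intro c hc h1 h2
            obtain ⟨z, rfl⟩ := Associates.mk_surjective c
            rw [Associates.mk_dvd_mk] at h1 h2
            obtain ⟨w, hw⟩ := h1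
            rw [hw] at h2
            have h3 : star π ∣ w := by
              rcases hπ'.dvd_or_dvd h2 with h | h
              · exfalso
                apply hnd
                have := (hπ'.irreducible.associated_of_dvd hπ.irreducible h)
                exact this.symm.dvd
              · exact h
            obtain ⟨v, hv⟩ := h3
            have h4 : Associated z (((p : ℕ) : QuadraticAlgebra ℤ m B) * v) := by
              rw [hw, hv, ← mul_assoc]
              exact (dvd_natCast_of_norm π hπn).mul_right v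
            have h5 : Associates.mk z = Associates.mk ((p : ℕ) : QuadraticAlgebra ℤ m B) * Associates.mk v := by
              rw [Associates.mk_mul_mk, Associates.mk_eq_mk_iff_associated]
              exact h4
            refine ⟨Associates.mk v, h5, ?_⟩
            change absN (Associates.mk z) = p * n' at hc
            rw [h5, absN_mul, absN_mk_natCast] at hc
            have h6 : p * n' = p * (p * absN (Associates.mk v)) := by rw [← hc]; ring
            exact Nat.eq_of_mul_eq_mul_left hp.pos h6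
          split_ifs with h
          · obtain ⟨n'', rfl⟩ := h
            rw [Nat.mul_div_cancel_left _ hp.pos]
            ext c
            constructor
            · rintro ⟨⟨hc, h1⟩, ⟨-, h2⟩⟩
              obtain ⟨c', rfl, hc'⟩ := key c hc h1 h2
              exact ⟨c', (Nat.eq_of_mul_eq_mul_left hp.pos hc').symm, rfl⟩
            · rintro ⟨c', hc', rfl⟩
              have hmem : Associates.mk ((p : ℕ) : QuadraticAlgebra ℤ m B) * c' ∈ SN m B (p * (p * n'')) := by
                change absN _ = _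
                rw [absN_mul, absN_mk_natCast, hc']
                ring
              have hmk : Associates.mk ((p : ℕ) : QuadraticAlgebra ℤ m B) =
                  Associates.mk π * Associates.mk (star π) := by
                rw [Associates.mk_mul_mk, Associates.mk_eq_mk_iff_associated]
                exact (dvd_natCast_of_norm π hπn).symm
              refine ⟨⟨hmem, ?_⟩, ⟨hmem, ?_⟩⟩
              · rw [hmk]
                exact (Dvd.intro _ rfl : Associates.mk π ∣ Associates.mk π * Associates.mk (star π)).mul_right c'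
              · rw [hmk]
                exact (Dvd.intro_left _ rfl : Associates.mk (star π) ∣ Associates.mk π * Associates.mk (star π)).mul_right c'
          · rw [Set.eq_empty_iff_forall_notMem]
            rintro c ⟨⟨hc, h1⟩, ⟨-, h2⟩⟩
            obtain ⟨c', -, hc'⟩ := key c hc h1 h2
            exact h ⟨_, hc'⟩
        have hcardinter : (((fun c => Associates.mk π * c) '' SN m B n' ∩
            (fun c => Associates.mk (star π) * c) '' SN m B n').ncard : ℤ) =
            if p ∣ n' then sg ψ (n' / p) else 0 := by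
          rw [hinter]
          split_ifs with h
          · have hmkne : Associates.mk ((p : ℕ) : QuadraticAlgebra ℤ m B) ≠ 0 :=
              Associates.mk_ne_zero.mpr (natCast_ne_zero hp)
            rw [Set.ncard_image_of_injective _ (mul_injective_assoc _ hmkne)]
            obtain ⟨n'', rfl⟩ := h
            rw [Nat.mul_div_cancel_left _ hp.pos]
            have hn'' : n'' ≠ 0 := by rintro rfl; simp at hn'
            exact (IH n'' (by
              have := hp.one_lt
              have := Nat.pos_of_ne_zero hn''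
              nlinarith [Nat.mul_le_mul_left n'' hp.one_lt.le]) hn'').2
          · simp
        have hunion := Set.ncard_union_add_ncard_inter ((fun c => Associates.mk π * c) '' SN m B n')
          ((fun c => Associates.mk (star π) * c) '' SN m B n') (hfin.image _) (hfin.image _)
        rw [Set.ncard_image_of_injective _ hinj, Set.ncard_image_of_injective _ hinj'] at hunion
        refine ⟨?_, ?_⟩
        · rw [hSN]; exact (hfin.image _).union (hfin.image _)
        · rw [← hSN] at hunion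
          have hunion' : ((SN m B (p * n')).ncard : ℤ) + (((fun c => Associates.mk π * c) '' SN m B n' ∩
            (fun c => Associates.mk (star π) * c) '' SN m B n').ncard : ℤ) = (SN m B n').ncard + (SN m B n').ncard := by
            exact_mod_cast hunion
          rw [hcardinter, hcard] at hunion'
          rw [hj]
          linarith
      · -- inert
        rw [hK.SN_inert hp hj, hj]
        split_ifs with h
        · have hmkne : Associates.mk ((p : ℕ) : QuadraticAlgebra ℤ m B) ≠ 0 :=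
            Associates.mk_ne_zero.mpr (natCast_ne_zero hp)
          obtain ⟨n'', rfl⟩ := h
          rw [Nat.mul_div_cancel_left _ hp.pos]
          have hn'' : n'' ≠ 0 := by rintro rfl; simp at hn'
          obtain ⟨hf, hc⟩ := IH n'' (by
              have := hp.one_lt
              have := Nat.pos_of_ne_zero hn''
              nlinarith [Nat.mul_le_mul_left n'' hp.one_lt.le]) hn''
          refine ⟨hf.image _, ?_⟩
          rw [Set.ncard_image_of_injective _ (mul_injective_assoc _ hmkne), hc]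
          ring
        · refine ⟨Set.finite_empty, ?_⟩
          simp

end Pool.Agent.Lib_helper5.RDF


end

section

/-!
The Kronecker symbol of the even discriminants `4d`.
-/

namespace Pool.Agent.Lib_helper5.RDF

open Pool.Agent.LibH4

/-- the Kronecker symbol `(4d/l)` -/
def kr (d : ℕ) (l : ℕ) : ℤ := if l % 2 = 0 then 0 else jacobiSym d l

lemma kr_even {d l : ℕ} (h : l % 2 = 0) : kr d l = 0 := by simp [kr, h]

lemma kr_odd {d l : ℕ} (h : l % 2 = 1) : kr d l = jacobiSym d l := by simp [kr, h]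

lemma kr_one (d : ℕ) : kr d 1 = 1 := by simp [kr]

lemma kr_mul (d a b : ℕ) : kr d (a * b) = kr d a * kr d b := by
  rcases Nat.mod_two_eq_zero_or_one a with ha | ha
  · rw [kr_even ha, kr_even (by rw [Nat.mul_mod, ha]; simp), zero_mul]
  · rcases Nat.mod_two_eq_zero_or_one b with hb | hb
    · rw [kr_even hb, kr_even (by rw [Nat.mul_mod, hb]; simp), mul_zero]
    · have : NeZero a := ⟨by rintro rfl; simp at ha⟩
      have : NeZero b := ⟨by rintro rfl; simp at hb⟩
      rw [kr_odd ha, kr_odd hb, kr_odd (by rw [Nat.mul_mod, ha, hb]), jacobiSym.mul_right]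

lemma kr_mod (d n : ℕ) : kr d (n % (4 * d)) = kr d n := by
  rcases Nat.mod_two_eq_zero_or_one n with hn | hn
  · rw [kr_even hn, kr_even]
    rw [Nat.mod_mod_of_dvd _ (Dvd.intro (2 * d) (by ring)), hn]
  · rw [kr_odd hn, kr_odd (by rw [Nat.mod_mod_of_dvd _ (Dvd.intro (2 * d) (by ring)), hn])]
    rw [jacobiSym.mod_right (d : ℤ) (b := n) (Nat.odd_iff.2 hn), Int.natAbs_natCast]

lemma kr_prime {d p : ℕ} (hp : p.Prime) (hp2 : p ≠ 2) : kr d p = jacobiSym d p :=
  kr_odd (Nat.odd_iff.1 (hp.odd_of_ne_two hp2))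

/-- the character of the order of discriminant `4d` -/
lemma kr_isKr {d : ℕ} {m B b : ℤ} (hB : B = 2 * b) (hd : (d : ℤ) = b ^ 2 + m) :
    Kr m B (4 * d) (kr d) where
  hD := by push_cast; rw [hd, hB]; ring
  one := kr_one d
  mul := kr_mul d
  tri p hp := by
    rcases eq_or_ne p 2 with rfl | hp2
    · left; exact kr_even rfl
    · rw [kr_prime hp hp2]
      exact jacobiSym.trichotomy _ _
  inert p hp hj x y hxy := by
    have hp2 : p ≠ 2 := by
      rintro rfl
      rw [kr_even rfl] at hj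
      norm_num at hj
    have : Fact p.Prime := ⟨hp⟩
    rw [kr_prime hp hp2, ← jacobiSym.legendreSym.to_jacobiSym, legendreSym.eq_neg_one_iff] at hj
    by_contra hy
    apply hj
    have hy0 : (y : ZMod p) ≠ 0 := by
      rw [Ne, ZMod.intCast_zmod_eq_zero_iff_dvd]; exact hy
    rw [← ZMod.intCast_zmod_eq_zero_iff_dvd] at hxy
    refine ⟨((x : ZMod p) + b * y) / y, ?_⟩
    have h5 : ((x : ZMod p) + b * y) ^ 2 = d * (y : ZMod p) ^ 2 := by
      have h6 : ((d : ℤ) : ZMod p) = (b : ZMod p) ^ 2 + m := by rw [hd]; push_cast; ring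
      have h7 : ((d : ℕ) : ZMod p) = ((d : ℤ) : ZMod p) := by push_cast; rfl
      rw [h7, h6]
      rw [hB] at hxy
      push_cast at hxy
      linear_combination hxy
    push_cast
    field_simp
    linear_combination -h5
  root p hp hj := by
    rcases eq_or_ne p 2 with rfl | hp2
    · refine ⟨m, ?_⟩
      rw [hB]
      obtain ⟨c, hc⟩ := (Int.even_mul_pred_self m).two_dvd
      refine ⟨c + b * m, ?_⟩
      push_cast
      linear_combination hc
    · rw [kr_prime hp hp2] at hj
      apply exists_root_of_ne (d := 4 * d) (by push_cast; rw [hd, hB]; ring) hp hp2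
      have h4 : jacobiSym (((4 * d : ℕ) : ℤ)) p = jacobiSym d p := by
        push_cast
        rw [jacobiSym.mul_left]
        have h5 : jacobiSym (4 : ℤ) p = 1 := by
          have h6 : (4 : ℤ) = 2 * 2 := by norm_num
          rw [h6, jacobiSym.mul_left, ← sq]
          apply jacobiSym.sq_one
          have := (Nat.coprime_primes Nat.prime_two hp).2 (Ne.symm hp2)
          simpa [Int.gcd] using this
        rw [h5, one_mul]
      rwa [h4]
  split p hp hj := by
    have hp2 : p ≠ 2 := by
      rintro rfl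
      rw [kr_even rfl] at hj
      norm_num at hj
    refine ⟨hp2, ?_⟩
    intro hdvd
    have h1 : p ∣ d := by
      have h2 : Nat.Coprime p 4 := by
        have h6 : Nat.Coprime p 2 := (Nat.coprime_primes hp Nat.prime_two).2 hp2
        exact h6.mul_right h6
      exact h2.dvd_of_dvd_mul_left hdvd
    rw [kr_prime hp hp2] at hj
    have : NeZero p := ⟨hp.ne_zero⟩
    have h3 : jacobiSym d p = 0 := by
      rw [jacobiSym.eq_zero_iff_not_coprime]
      rw [Int.gcd_natCast_natCast, Nat.gcd_eq_right h1]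
      exact hp.one_lt.ne'
    rw [h3] at hj
    norm_num at hj
  ram p hp hj := by
    rcases eq_or_ne p 2 with rfl | hp2
    · exact ⟨2 * d, by ring⟩
    · rw [kr_prime hp hp2] at hj
      have : NeZero p := ⟨hp.ne_zero⟩
      rw [jacobiSym.eq_zero_iff_not_coprime, Int.gcd_natCast_natCast] at hj
      apply Dvd.dvd.mul_left
      by_contra hcon
      exact hj ((Nat.Prime.coprime_iff_not_dvd hp).2 hcon).symm

/-- numbers `≡ 1 mod q` at which the symbol is `-1` -/
lemma exists_kr_neg {q d : ℕ} (hd0 : 0 < d) (hd : d % 4 = 2 ∨ d % 4 = 3) (hq2 : q % 2 = 1)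
    (hcop : Nat.Coprime q d) :
    ∃ N : ℕ, N ≡ 1 [MOD q] ∧ Nat.Coprime N (q * (4 * d)) ∧ kr d N = -1 := by
  have hq4 : Nat.Coprime q 4 := by
    have h6 : Nat.Coprime q 2 := by
      rw [Nat.coprime_comm, Nat.coprime_two_left]; exact Nat.odd_iff.2 hq2
    exact h6.mul_right h6
  rcases hd with hd | hd
  · -- `d = 2 d'`
    obtain ⟨d', rfl⟩ : ∃ d', d = 2 * d' := ⟨d / 2, by omega⟩
    have hd' : d' % 2 = 1 := by omega
    have hcop' : Nat.Coprime q d' := Nat.Coprime.coprime_mul_left_right hcop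
    have h8 : Nat.Coprime (q * d') 8 := by
      have h6 : Nat.Coprime (q * d') 2 := by
        rw [Nat.coprime_comm, Nat.coprime_two_left]
        exact (Nat.odd_iff.2 hq2).mul (Nat.odd_iff.2 hd')
      exact (h6.mul_right h6).mul_right h6
    obtain ⟨N, hN1, hN2⟩ := Nat.chineseRemainder h8 1 5
    have hN8 : N % 8 = 5 := hN2
    have hNodd : Odd N := Nat.odd_iff.2 (by omega)
    have hNqd : Nat.Coprime N (q * d') := by
      have := hN1.gcd_eq
      rw [Nat.gcd_one_left] at this
      exact this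
    have hN2' : Nat.Coprime N 2 := by
      rw [Nat.coprime_comm, Nat.coprime_two_left]; exact hNodd
    refine ⟨N, hN1.of_mul_right d', ?_, ?_⟩
    · have e : q * (4 * (2 * d')) = (q * d') * (2 * 2 * 2) := by ring
      rw [e]
      exact hNqd.mul_right ((hN2'.mul_right hN2').mul_right hN2')
    · rw [kr_odd (by omega)]
      push_cast
      rw [jacobiSym.mul_left]
      have h2 : jacobiSym 2 N = -1 := by
        rw [jacobiSym.at_two hNodd, ZMod.χ₈_nat_eq_if_mod_eight]
        simp [hN8]
        omega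
      have h3 : jacobiSym (d' : ℤ) N = 1 := by
        rw [← jacobiSym.quadratic_reciprocity_one_mod_four (a := N) (b := d') (by omega)
          (Nat.odd_iff.2 hd')]
        have h4 : (N : ℤ) % d' = 1 % d' := by
          have h5 : N ≡ 1 [MOD d'] := hN1.of_mul_left q
          exact_mod_cast h5
        rw [jacobiSym.mod_left, h4, ← jacobiSym.mod_left, jacobiSym.one_left]
      rw [h2, h3]
      norm_num
  · have hdodd : d % 2 = 1 := by omega
    have h4 : Nat.Coprime (q * d) 4 := by
      have h6 : Nat.Coprime (q * d) 2 := by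
        rw [Nat.coprime_comm, Nat.coprime_two_left]
        exact (Nat.odd_iff.2 hq2).mul (Nat.odd_iff.2 hdodd)
      exact h6.mul_right h6
    obtain ⟨N, hN1, hN2⟩ := Nat.chineseRemainder h4 1 3
    have hN4 : N % 4 = 3 := hN2
    have hNodd : Odd N := Nat.odd_iff.2 (by omega)
    have hNqd : Nat.Coprime N (q * d) := by
      have := hN1.gcd_eq
      rw [Nat.gcd_one_left] at this
      exact this
    have hN2' : Nat.Coprime N 2 := by
      rw [Nat.coprime_comm, Nat.coprime_two_left]; exact hNodd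
    refine ⟨N, hN1.of_mul_right d, ?_, ?_⟩
    · have e : q * (4 * d) = (q * d) * (2 * 2) := by ring
      rw [e]
      exact hNqd.mul_right (hN2'.mul_right hN2')
    · rw [kr_odd (by omega)]
      rw [jacobiSym.quadratic_reciprocity_three_mod_four (a := d) (b := N) hd hN4]
      have h4 : (N : ℤ) % d = 1 % d := by
        have h5 : N ≡ 1 [MOD d] := hN1.of_mul_left q
        exact_mod_cast h5
      rw [jacobiSym.mod_left, h4, ← jacobiSym.mod_left, jacobiSym.one_left]

end Pool.Agent.Lib_helper5.RDF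


end

section

/-!
The identity and the congruence for a general discriminant and its character.
-/

namespace Pool.Agent.Lib_helper5.RDF

open Finset (range)
open Pool.Agent.LibH4 Pool.Agent.LibH4.FA

/-- integer version of the right side -/
def RZ' (ψ : ℕ → ℤ) (q D : ℕ) (f : ℤ → ℤ) : ℤ :=
  ∑ r ∈ range q, ∑ s ∈ range (q * D), (f ((r : ℤ) * s) * ψ s) *
    (bZ q r * bZ (q * D) s)

lemma bb_RZ' (ψ : ℕ → ℤ) {q D : ℕ} (hq : 0 < q) (hd : 0 < D) (f : ℤ → ℤ) :
    4 * (q : ℝ) ^ 2 * D * bb q (q * D) (gs (fun x => (f x : ℝ)) (fun l => (ψ l : ℝ)))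
      = (RZ' ψ q D f : ℝ) := by
  unfold bb RZ' gs
  push_cast
  rw [Finset.mul_sum]
  apply Finset.sum_congr rfl
  intro r _
  rw [Finset.mul_sum]
  apply Finset.sum_congr rfl
  intro s _
  rw [← bet_eq_bZ hq, ← bet_eq_bZ (Nat.mul_pos hq hd)]
  push_cast
  ring

lemma row_zero' {q D : ℕ} {ψ : ℕ → ℤ} {f : ℤ → ℝ} (hq : 0 < q) (hD0 : 0 < D)
    (hψ : ∀ n, ψ (n % D) = ψ n) (hmul : ∀ a b, ψ (a * b) = ψ a * ψ b)
    (hN : ∃ N : ℕ, N ≡ 1 [MOD q] ∧ Nat.Coprime N (q * D) ∧ ψ N = -1)
    (hper : ∀ x, f (x + q) = f x) (k : ℕ) :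
    ∑ l ∈ range (q * D), gs f (fun l => (ψ l : ℝ)) k l = 0 := by
  obtain ⟨n, hn1, hnQ, hn2⟩ := hN
  have h1 := sum_mul_perm (q * D) n (Nat.mul_pos hq hD0) hnQ
    (fun l => gs f (fun l => (ψ l : ℝ)) k l)
  have h2 : ∑ l ∈ range (q * D), gs f (fun l => (ψ l : ℝ)) k ((n * l) % (q * D))
      = - ∑ l ∈ range (q * D), gs f (fun l => (ψ l : ℝ)) k l := by
    rw [← Finset.sum_neg_distrib]
    apply Finset.sum_congr rfl
    intro l _
    unfold gs
    rw [neg_mul_eq_mul_neg]
    congr 1
    · apply per_congr hper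
      obtain ⟨u, hu⟩ := mod_cast_eq (q * D) (n * l)
      obtain ⟨c, hc⟩ : ∃ c : ℤ, (n : ℤ) = 1 + c * q := by
        have := (Nat.modEq_iff_dvd.1 hn1.symm)
        obtain ⟨c, hc⟩ := this
        exact ⟨c, by push_cast at hc; linarith⟩
      refine ⟨k * (c * l) + k * (u * D), ?_⟩
      rw [hu]
      push_cast
      rw [hc]
      ring
    · have e1 : ((ψ ((n * l) % (q * D)) : ℤ) : ℝ) = (ψ (n * l) : ℝ) := by
        rw [← hψ ((n * l) % (q * D)), Nat.mod_mul_left_mod, hψ]
      simp only
      rw [e1, hmul, hn2]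
      push_cast
      ring
  linarith

section general

variable {K : ℕ} {P R S : ℕ → ℤ} {c : ℕ → ℕ}

/-- the general real identity -/
theorem cyc_identity' (h : Cyc K P R S c) (D : ℕ) (ψ : ℕ → ℤ) (hD0 : 0 < D)
    (hψ : ∀ n, ψ (n % D) = ψ n)
    (q : ℕ) (hq : 0 < q) (f : ℤ → ℝ)
    (hrow : ∀ k, ∑ l ∈ range (q * D), gs f (fun l => (ψ l : ℝ)) k l = 0)
    (hper : ∀ x, f (x + q) = f x) (hodd : ∀ x, f (-x) = - f x)
    (hmean : ∑ r ∈ range q, ∑ s ∈ range q,
      f (P 0 * (r : ℤ) ^ 2 + R 0 * r * s - S 0 * (s : ℤ) ^ 2) = 0)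
    (hcnt : ∀ n : ℕ, n ≠ 0 →
      ((∑ k ∈ range K, (edgeSet (P k) (R k) (S k) (c k) n).ncard : ℕ) : ℤ) = sg ψ n) :
    ∑ k ∈ range K, (2 * SS q f (P k) (R k) (S k) - c k * MX q f (P k) (R k) (S k))
      = bb q (q * D) (gs f (fun l => (ψ l : ℝ))) := by
  have : NeZero q := ⟨hq.ne'⟩
  have hF := Fq_neg hper hodd
  rw [← cyc_alg h q hq f hodd hper]
  let s : Finset (Σ _ : ℕ, ℕ) := (range K).sigma (fun k => range (c k))
  let A : (Σ _ : ℕ, ℕ) → ℤ := fun x => Ai (P x.1) (R x.1) (S x.1) x.2
  let C : (Σ _ : ℕ, ℕ) → ℤ := fun x => Ci (P x.1) (R x.1) (S x.1) x.2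
  let E : (Σ _ : ℕ, ℕ) → ℤ := fun x => Ai (P x.1) (R x.1) (S x.1) (x.2 + 1)
  have hAend : ∀ k < K, 0 < P k + R k * (c k) - S k * (c k : ℤ) ^ 2 := by
    intro k hk
    rw [← h.hS k hk]; exact h.Spos (k + 1) hk
  have hpos : ∀ k < K, ∀ i ≤ c k, 0 < Ai (P k) (R k) (S k) i := fun k hk i hi =>
    Ai_pos' (h.cpos k hk) (h.Ppos hk.le) (h.Spos k hk.le) (hAend k hk) i hi
  have hA : ∀ i ∈ s, 0 < A i := by
    rintro ⟨k, i⟩ hi
    simp only [s, Finset.mem_sigma, Finset.mem_range] at hi
    exact hpos k hi.1 i hi.2.le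
  have hE : ∀ i ∈ s, 0 < E i := by
    rintro ⟨k, i⟩ hi
    simp only [s, Finset.mem_sigma, Finset.mem_range] at hi
    have := hpos k hi.1 (i + 1) hi.2
    push_cast at this
    exact this
  have hC : ∀ i ∈ s, 0 < C i := by
    rintro ⟨k, i⟩ hi
    have h1 := hA _ hi
    have h2 := hE _ hi
    simp only [s, Finset.mem_sigma, Finset.mem_range] at hi
    simp only [A, E, C] at *
    rw [Ci_eq]
    have := h.Spos k hi.1.le
    linarith
  have hD : ∀ i ∈ s, 4 * A i * E i < (C i) ^ 2 := by
    rintro ⟨k, i⟩ hi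
    simp only [s, Finset.mem_sigma, Finset.mem_range] at hi
    simp only [A, E, C]
    rw [disc_eq]
    have h1 : 0 ≤ R k ^ 2 := sq_nonneg _
    have h2 : 0 < P k * S k := mul_pos (h.Ppos hi.1.le) (h.Spos k hi.1.le)
    linarith
  have hray : ∀ g : ℤ → ℝ, ∑ i ∈ s, g (A i) = ∑ i ∈ s, g (E i) := by
    intro g
    simp only [s, A, E]
    rw [Finset.sum_sigma, Finset.sum_sigma]
    have h1 : ∀ k ∈ range K, ∑ i ∈ range (c k), g (Ai (P k) (R k) (S k) i)
        = ∑ i ∈ range (c k), g (Ai (P k) (R k) (S k) (i + 1)) + (g (P k) - g (S (k + 1))) := by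
      intro k hk
      have hk' := Finset.mem_range.1 hk
      have r := ray_edge (P k) (R k) (S k) (c k) g
      have v1 : Ai (P k) (R k) (S k) 0 = P k := by unfold Ai; ring
      have v2 : Ai (P k) (R k) (S k) (c k) = S (k + 1) := by rw [Ai_end, h.hS k hk']
      rw [v1, v2] at r
      linarith
    rw [Finset.sum_congr rfl h1, Finset.sum_add_distrib]
    have h2 : ∑ k ∈ range K, (g (P k) - g (S (k + 1))) = 0 := by
      rw [Finset.sum_sub_distrib]
      have c1 := sum_cyc K (fun k => g (P k)) (by simp only [h.P0])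
      have c2 := sum_cyc K (fun k => g (S k)) (by simp only [h.S0])
      have c3 : ∑ k ∈ range K, g (P (k + 1)) = ∑ k ∈ range K, g (S k) :=
        Finset.sum_congr rfl (fun k hk => by rw [h.hP k (Finset.mem_range.1 hk)])
      rw [c2, ← c3, c1]
      ring
    rw [h2, add_zero]
  have hmean0 : S2 (fun x y => Fq q f (QQ (P 0 : ZMod q) (R 0) (S 0) x y)) = 0 := by
    rw [← hmean, sum_range_S2 (q := q) (fun r s => f (P 0 * (r : ℤ) ^ 2 + R 0 * r * s
      - S 0 * (s : ℤ) ^ 2))]
    apply S2_congr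
    intro x y
    rw [← Fq_intCast hper]
    push_cast
    rw [ZMod.natCast_zmod_val, ZMod.natCast_zmod_val]
    rfl
  have hmean' : ∀ i ∈ s, ∑ r ∈ range q, ∑ u ∈ range q, gq f (A i) (C i) (E i) r u = 0 := by
    rintro ⟨k, i⟩ hi
    simp only [s, Finset.mem_sigma, Finset.mem_range] at hi
    simp only [A, E, C]
    rw [mean_range hper, mean_cone (Fq q f) (P k) (R k) (S k) i]
    exact Cyc.mean_all (Fq q f) hF h hmean0 k hi.1.le
  have hcount : ∀ n : ℕ, n ≠ 0 → ∑ i ∈ s, (cnt (A i) (C i) (E i) n : ℝ)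
      = ∑ l ∈ n.divisors, (ψ l : ℝ) := by
    intro n hn
    have h9 : ∑ l ∈ n.divisors, (ψ l : ℝ) = ((sg ψ n : ℤ) : ℝ) := by
      unfold sg; push_cast; rfl
    rw [h9, ← hcnt n hn]
    simp only [s, A, E, C]
    rw [Finset.sum_sigma]
    simp only
    push_cast
    apply Finset.sum_congr rfl
    intro k hk
    have hk' := Finset.mem_range.1 hk
    rw [edge_count (P k) (R k) (S k) (c k) n
      (edgeSet_finite (h.cpos k hk') (h.Ppos hk'.le) (h.Spos k hk'.le) (hAend k hk') n)]
    push_cast
    rfl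
  have key := engine (q := q) (D0 := D) (f := f) (ψ := fun l => (ψ l : ℝ)) s A C E
    hA hE hC hD hray hq hD0 hper hodd
    (by
      intro n
      show ((ψ (n % D) : ℤ) : ℝ) = (ψ n : ℝ)
      rw [hψ])
    (fun k _ => hrow k) hmean' hcount
  rw [← key]
  simp only [s, A, E, C]
  rw [Finset.sum_sigma]

/-- **general T5** -/
theorem cyc_T5' (h : Cyc K P R S c) (D : ℕ) (ψ : ℕ → ℤ) (hD0 : 0 < D)
    (hψ : ∀ n, ψ (n % D) = ψ n) (hmulψ : ∀ a b, ψ (a * b) = ψ a * ψ b)
    (hcnt : ∀ n : ℕ, n ≠ 0 →
      ((∑ k ∈ range K, (edgeSet (P k) (R k) (S k) (c k) n).ncard : ℕ) : ℤ) = sg ψ n)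
    (q l : ℕ) (hq : 0 < q) [Fact l.Prime] 
    (hN : ∃ N : ℕ, N ≡ 1 [MOD q] ∧ Nat.Coprime N (q * D) ∧ ψ N = -1) (hl6 : ¬ l ∣ 6)
    (hlD : ¬ l ∣ D)
    (hmean : ∀ f : ℤ → ℝ, (∀ x, f (x + q) = f x) → (∀ x, f (-x) = - f x) →
      ∑ r ∈ range q, ∑ s ∈ range q,
        f (P 0 * (r : ℤ) ^ 2 + R 0 * r * s - S 0 * (s : ℤ) ^ 2) = 0)
    (χ : ZMod q → ZMod l)
    (hodd : ∀ x, χ (-x) = - χ x) (hmul : ∀ x y, χ (x * y) = χ x * χ y)
    (hsum : ∑ u ∈ range q, (u : ZMod l) * χ (u : ZMod q) = 0) :
    ∑ k ∈ range K, ∑ r ∈ range q, ∑ s ∈ range q,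
      χ ((P k * (r : ℤ) ^ 2 + R k * r * s - S k * (s : ℤ) ^ 2 : ℤ) : ZMod q)
        * (3 * ((bZ q r : ZMod l) * bZ q s) - c k * b2Z q r) = 0 := by
  have hper' : ∀ x, ((lift χ (x + q) : ℤ) : ℝ) = ((lift χ x : ℤ) : ℝ) := fun x => by
    simp only [lift_per χ]
  have hodd' : ∀ x, ((lift χ (-x) : ℤ) : ℝ) = - ((lift χ x : ℤ) : ℝ) := fun x => by
    simp only [lift_odd χ hl6 hodd]; push_cast; ring
  have key := cyc_identity' h D ψ hD0 hψ q hq
    (fun x => ((lift χ x : ℤ) : ℝ)) (fun k => row_zero' hq hD0 hψ hmulψ hN hper' k) hper' hodd' (hmean (fun x => ((lift χ x : ℤ) : ℝ)) hper' hodd') hcnt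
  have i5 := bb_RZ' ψ hq hD0 (lift χ)
  have hreal : (D : ℝ) * (2 * (∑ k ∈ range K, (3 * (XZ q (lift χ) (P k) (R k) (S k) : ℝ)
      - c k * (YX q (lift χ) (P k) (R k) (S k) : ℝ))))
      = 3 * (RZ' ψ q D (lift χ) : ℝ) := by
    rw [← i5, ← key]
    simp only [Finset.mul_sum]
    apply Finset.sum_congr rfl
    intro k _
    rw [← SS_XZ hq, ← MX_YX hq]
    ring
  have hint : (D : ℤ) * (2 * (∑ k ∈ range K, (3 * XZ q (lift χ) (P k) (R k) (S k)
      - c k * YX q (lift χ) (P k) (R k) (S k))))
      = 3 * RZ' ψ q D (lift χ) := by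
    exact_mod_cast hreal
  have hzmod : (D : ZMod l) * (2 * (∑ k ∈ range K, (3 * (XZ q (lift χ) (P k) (R k) (S k) : ZMod l)
      - c k * (YX q (lift χ) (P k) (R k) (S k) : ZMod l))))
      = 3 * (RZ' ψ q D (lift χ) : ZMod l) := by
    have := congrArg (Int.cast : ℤ → ZMod l) hint
    push_cast at this
    exact this
  have hR : (RZ' ψ q D (lift χ) : ZMod l) = 0 := by
    have e : (RZ' ψ q D (lift χ) : ZMod l) = (∑ r ∈ range q, χ (r : ZMod q) * (bZ q r : ZMod l)) *
        (∑ s ∈ range (q * D), χ (s : ZMod q) * (ψ s : ZMod l) * (bZ (q * D) s : ZMod l)) := by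
      unfold RZ'
      push_cast
      rw [Finset.sum_mul_sum]
      apply Finset.sum_congr rfl
      intro r _
      apply Finset.sum_congr rfl
      intro s _
      rw [lift_cast]
      push_cast
      rw [hmul]
      ring
    rw [e, sum_chi_bZ χ hq hl6 hodd hsum, zero_mul]
  rw [hR, mul_zero] at hzmod
  have hD' : (D : ZMod l) ≠ 0 := by
    rw [Ne, ZMod.natCast_eq_zero_iff]
    exact hlD
  have h1 := (mul_eq_zero.1 ((mul_eq_zero.1 hzmod).resolve_left hD')).resolve_left (two_ne hl6)
  rw [← h1]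
  apply Finset.sum_congr rfl
  intro k _
  unfold XZ YX
  push_cast
  simp only [Finset.mul_sum]
  rw [← Finset.sum_sub_distrib]
  apply Finset.sum_congr rfl
  intro r _
  rw [← Finset.sum_sub_distrib]
  apply Finset.sum_congr rfl
  intro s _
  rw [lift_cast]
  push_cast
  ring

end general

/-- the mean value condition for even cycles and odd conductors -/
theorem mean_even' (m B : ℤ) (q : ℕ) (hq : 0 < q) (hq2 : q % 2 = 1)
    (hcop : IsCoprime (q : ℤ) (B ^ 2 + 4 * m)) (f : ℤ → ℝ) (hper : ∀ x, f (x + q) = f x)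
    (hodd : ∀ x, f (-x) = - f x) :
    ∑ r ∈ range q, ∑ s ∈ range q, f (m * (r : ℤ) ^ 2 + B * r * s - 1 * (s : ℤ) ^ 2) = 0 := by
  obtain ⟨i, hi⟩ : ∃ i : ℤ, (m + i * q) % 2 = 1 := by
    rcases Int.emod_two_eq_zero_or_one m with h | h
    · exact ⟨1, by omega⟩
    · exact ⟨0, by omega⟩
  obtain ⟨j, hj⟩ : ∃ j : ℤ, (B + j * q) % 2 = 1 := by
    rcases Int.emod_two_eq_zero_or_one B with h | h
    · exact ⟨1, by omega⟩
    · exact ⟨0, by omega⟩
  rw [← mean_even (m + i * q) (B + j * q) hi hj q hq _ f hper hodd]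
  · apply Finset.sum_congr rfl
    intro r _
    apply Finset.sum_congr rfl
    intro s _
    apply per_congr hper
    refine ⟨-(i * r ^ 2 + j * r * s), ?_⟩
    ring
  · have e : (B + j * q) ^ 2 + 4 * (m + i * q) = (B ^ 2 + 4 * m) + q * (2 * B * j + j ^ 2 * q + 4 * i) := by
      ring
    rw [e]
    exact (IsCoprime.add_mul_left_right_iff).2 hcop

/-- **T5 for cycles of even length, general character.** -/
theorem even_T5' (m B : ℤ) (hm : 0 < m) {K : ℕ}
    {P R S : ℕ → ℤ} {c : ℕ → ℕ} (h : CG.CycM m B K P R S c) (J : ℕ) (hK : K = 2 * J) (hJ : 0 < J)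
    (hcl : CG.rho m B c K = CG.rho m B c (K + 1) * CG.om m B)
    (hP1 : ∀ k < K, k ≠ 1 → P k ≠ 1)
    [IsDomain (QuadraticAlgebra ℤ m B)] [UniqueFactorizationMonoid (QuadraticAlgebra ℤ m B)]
    {D : ℕ} {ψ : ℕ → ℤ} (hKr : Kr m B D ψ) (hD0 : 0 < D) (hψ : ∀ n, ψ (n % D) = ψ n)
    (q l : ℕ) (hq : 0 < q) (hq2 : q % 2 = 1) [Fact l.Prime] (hcop : Nat.Coprime q D)
    (hN : ∃ N : ℕ, N ≡ 1 [MOD q] ∧ Nat.Coprime N (q * D) ∧ ψ N = -1)
    (hl6 : ¬ l ∣ 6) (hlD : ¬ l ∣ D)
    (χ : ZMod q → ZMod l)
    (hodd : ∀ x, χ (-x) = - χ x) (hmul : ∀ x y, χ (x * y) = χ x * χ y)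
    (hsum : ∑ u ∈ range q, (u : ZMod l) * χ (u : ZMod q) = 0) :
    ∑ k ∈ range K, ∑ r ∈ range q, ∑ s ∈ range q,
      χ ((P k * (r : ℤ) ^ 2 + R k * r * s - S k * (s : ℤ) ^ 2 : ℤ) : ZMod q)
        * (3 * ((bZ q r : ZMod l) * bZ q s) - c k * b2Z q r) = 0 := by
  refine cyc_T5' h.toCyc D ψ hD0 hψ hKr.mul ?_ q l hq hN hl6 hlD ?_ χ hodd hmul hsum
  · intro n hn
    rw [← CG.count_even hm h J hK hJ hcl hP1 n hn]
    exact (hKr.ncard_SN n hn).2
  · intro f hper hodd'
    rw [h.Pm, h.RB, h.S1]
    apply mean_even' m B q hq hq2 _ f hper hodd'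
    rw [← hKr.hD]
    exact Nat.isCoprime_iff_coprime.2 hcop

/-- an element of norm `±n` gives a representation by one of the edges -/
theorem even_rep' (m B : ℤ) (hm : 0 < m) {K : ℕ}
    {P R S : ℕ → ℤ} {c : ℕ → ℕ} (h : CG.CycM m B K P R S c) (J : ℕ) (hK : K = 2 * J) (hJ : 0 < J)
    (hcl : CG.rho m B c K = CG.rho m B c (K + 1) * CG.om m B)
    (hP1 : ∀ k < K, k ≠ 1 → P k ≠ 1)
    [IsDomain (QuadraticAlgebra ℤ m B)] [UniqueFactorizationMonoid (QuadraticAlgebra ℤ m B)]
    {D : ℕ} {ψ : ℕ → ℤ} (hKr : Kr m B D ψ)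
    (n : ℕ) (hn : n ≠ 0) (π : QuadraticAlgebra ℤ m B) (hπ : π.norm.natAbs = n) :
    ∃ k < K, ∃ x y : ℕ, 1 ≤ x ∧ y < c k * x ∧
      P k * (x : ℤ) ^ 2 + R k * x * y - S k * (y : ℤ) ^ 2 = n := by
  have h1 := CG.count_even hm h J hK hJ hcl hP1 n hn
  have h2 := (hKr.ncard_SN n hn).1
  have h3 : (SN m B n).ncard ≠ 0 := by
    rw [Ne, Set.ncard_eq_zero h2, ← Ne, ← Set.nonempty_iff_ne_empty]
    refine ⟨Associates.mk π, ?_⟩
    change absN _ = n
    rw [absN_mk]
    exact hπ
  rw [h1] at h3
  obtain ⟨k, hk, hk'⟩ := Finset.exists_ne_zero_of_sum_ne_zero h3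
  have hne : (edgeSet (P k) (R k) (S k) (c k) n).Nonempty :=
    Set.nonempty_of_ncard_ne_zero hk'
  obtain ⟨⟨x, y⟩, hx, hy, he⟩ := hne
  exact ⟨k, Finset.mem_range.1 hk, x, y, hx, hy, he⟩

/-- a non-inert prime is represented by one of the edges -/
theorem even_inert' (m B : ℤ) (hm : 0 < m) {K : ℕ}
    {P R S : ℕ → ℤ} {c : ℕ → ℕ} (h : CG.CycM m B K P R S c) (J : ℕ) (hK : K = 2 * J) (hJ : 0 < J)
    (hcl : CG.rho m B c K = CG.rho m B c (K + 1) * CG.om m B)
    (hP1 : ∀ k < K, k ≠ 1 → P k ≠ 1)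
    [IsDomain (QuadraticAlgebra ℤ m B)] [UniqueFactorizationMonoid (QuadraticAlgebra ℤ m B)]
    {D : ℕ} {ψ : ℕ → ℤ} (hKr : Kr m B D ψ)
    (p : ℕ) (hp : p.Prime) (hj : ψ p ≠ -1) :
    ∃ k < K, ∃ x y : ℕ, 1 ≤ x ∧ y < c k * x ∧
      P k * (x : ℤ) ^ 2 + R k * x * y - S k * (y : ℤ) ^ 2 = p := by
  obtain ⟨π, _, _, hπ⟩ := hKr.exists_prime_elem hp hj
  exact even_rep' m B hm h J hK hJ hcl hP1 hKr p hp.ne_zero π hπ

end Pool.Agent.Lib_helper5.RDF


end

section

/-!
Reduction of the even discriminants of extended Richaud–Degert type to `d = n² ± 2`.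
-/

namespace Pool.Agent.Lib_helper5.RDF

open Finset (range)
open Pool.Agent.LibH4 Pool.Agent.LibH4.FA
open scoped NumberField

/-- a small solution of `x² - d y² = ±2` -/
lemma descent {d u v : ℤ} (hd : 0 < d) (hu : 1 ≤ u) (hv : 1 ≤ v) (huv : u ^ 2 = d * v ^ 2 + 1)
    (h : ∃ x y : ℤ, x ^ 2 - d * y ^ 2 = 2 ∨ x ^ 2 - d * y ^ 2 = -2) :
    ∃ x y : ℤ, 0 ≤ x ∧ 1 ≤ y ∧ ((x ^ 2 - d * y ^ 2 = 2 ∧ d * y ^ 2 ≤ u - 1) ∨
      (x ^ 2 - d * y ^ 2 = -2 ∧ d * y ^ 2 ≤ u + 1)) := by
  classical
  have hex : ∃ k : ℕ, ∃ x y : ℤ, y.natAbs = k ∧ (x ^ 2 - d * y ^ 2 = 2 ∨ x ^ 2 - d * y ^ 2 = -2) := by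
    obtain ⟨x, y, hxy⟩ := h
    exact ⟨_, x, y, rfl, hxy⟩
  obtain ⟨x, y, hk, hxy⟩ := Nat.find_spec hex
  have hmin := fun {k : ℕ} => Nat.find_min hex (m := k)
  have hmin' : ∀ x' y' : ℤ, (x' ^ 2 - d * y' ^ 2 = 2 ∨ x' ^ 2 - d * y' ^ 2 = -2) → |y| ≤ |y'| := by
    intro x' y' h'
    by_contra hcon
    push Not at hcon
    refine hmin (k := y'.natAbs) ?_ ⟨x', y', rfl, h'⟩
    rw [← hk]
    rw [Int.abs_eq_natAbs, Int.abs_eq_natAbs] at hcon
    exact_mod_cast hcon
  -- pass to absolute values
  set X : ℤ := |x| with hX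
  set Y : ℤ := |y| with hY
  have hX2 : X ^ 2 = x ^ 2 := sq_abs x
  have hY2 : Y ^ 2 = y ^ 2 := sq_abs y
  have hX0 : 0 ≤ X := abs_nonneg x
  have hY0 : 0 ≤ Y := abs_nonneg y
  rw [← hX2, ← hY2] at hxy
  have hY1 : 1 ≤ Y := by
    by_contra hcon
    have hYz : Y = 0 := by omega
    rw [hYz] at hxy
    have h1 : X ^ 2 = 2 ∨ X ^ 2 = -2 := by
      rcases hxy with h | h
      · left; linarith
      · right; linarith
    rcases h1 with h1 | h1
    · have : X < 2 := by nlinarith
      interval_cases X <;> norm_num at h1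
    · nlinarith
  refine ⟨X, Y, hX0, hY1, ?_⟩
  have hu2 : 2 ≤ u := by nlinarith
  have hnew := hmin' (X * u - d * Y * v) (Y * u - X * v) (by
    have e : (X * u - d * Y * v) ^ 2 - d * (Y * u - X * v) ^ 2
        = (X ^ 2 - d * Y ^ 2) * (u ^ 2 - d * v ^ 2) := by ring
    have e2 : u ^ 2 - d * v ^ 2 = 1 := by rw [huv]; ring
    rw [e, e2, mul_one]
    exact hxy)
  have hfac : d * v ^ 2 = (u - 1) * (u + 1) := by linear_combination -huv
  rcases le_or_gt 0 (Y * u - X * v) with hs | hs
  · rw [abs_of_nonneg hs] at hnew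
    have h1 : X * v ≤ Y * (u - 1) := by linarith
    have h2 : (X * v) ^ 2 ≤ (Y * (u - 1)) ^ 2 :=
      pow_le_pow_left₀ (mul_nonneg hX0 (by linarith)) h1 2
    rcases hxy with h3 | h3
    · exfalso
      have e : (X * v) ^ 2 = Y ^ 2 * ((u - 1) * (u + 1)) + 2 * v ^ 2 := by
        rw [← hfac]; linear_combination v ^ 2 * h3
      have e2 : (Y * (u - 1)) ^ 2 = Y ^ 2 * ((u - 1) * (u + 1)) - 2 * (Y ^ 2 * (u - 1)) := by ring
      have h4 : 0 ≤ Y ^ 2 * (u - 1) := by positivity
      have h5 : 0 < v ^ 2 := by positivity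
      nlinarith
    · right
      refine ⟨h3, ?_⟩
      have e : (X * v) ^ 2 = Y ^ 2 * ((u - 1) * (u + 1)) - 2 * v ^ 2 := by
        rw [← hfac]; linear_combination v ^ 2 * h3
      have e2 : (Y * (u - 1)) ^ 2 = Y ^ 2 * ((u - 1) * (u + 1)) - 2 * (Y ^ 2 * (u - 1)) := by ring
      have h4 : Y ^ 2 * (u - 1) ≤ v ^ 2 := by nlinarith
      have h5 : (u - 1) * (d * Y ^ 2) ≤ (u - 1) * (u + 1) := by
        rw [← hfac]
        have := mul_le_mul_of_nonneg_left h4 hd.le
        linarith
      exact le_of_mul_le_mul_left h5 (by linarith)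
  · rw [abs_of_neg hs] at hnew
    have h1 : Y * (u + 1) ≤ X * v := by linarith
    have h2 : (Y * (u + 1)) ^ 2 ≤ (X * v) ^ 2 :=
      pow_le_pow_left₀ (mul_nonneg hY0 (by linarith)) h1 2
    rcases hxy with h3 | h3
    · left
      refine ⟨h3, ?_⟩
      have e : (X * v) ^ 2 = Y ^ 2 * ((u - 1) * (u + 1)) + 2 * v ^ 2 := by
        rw [← hfac]; linear_combination v ^ 2 * h3
      have e2 : (Y * (u + 1)) ^ 2 = Y ^ 2 * ((u - 1) * (u + 1)) + 2 * (Y ^ 2 * (u + 1)) := by ring
      have h4 : Y ^ 2 * (u + 1) ≤ v ^ 2 := by nlinarith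
      have h5 : (u + 1) * (d * Y ^ 2) ≤ (u + 1) * (u - 1) := by
        have := mul_le_mul_of_nonneg_left h4 hd.le
        linarith
      exact le_of_mul_le_mul_left h5 (by linarith)
    · exfalso
      have e : (X * v) ^ 2 = Y ^ 2 * ((u - 1) * (u + 1)) - 2 * v ^ 2 := by
        rw [← hfac]; linear_combination v ^ 2 * h3
      have e2 : (Y * (u + 1)) ^ 2 = Y ^ 2 * ((u - 1) * (u + 1)) + 2 * (Y ^ 2 * (u + 1)) := by ring
      have h4 : 0 ≤ Y ^ 2 * (u + 1) := by positivity
      have h5 : 0 < v ^ 2 := by positivity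
      nlinarith

/-- positive `r` -/
lemma red_pos {d m r : ℤ} (hm : 1 ≤ m) (hr : 1 ≤ r) (hrm : r ∣ 2 * m) (hd : d = m ^ 2 + r)
    (h : ∃ x y : ℤ, x ^ 2 - d * y ^ 2 = 2 ∨ x ^ 2 - d * y ^ 2 = -2) :
    d = m ^ 2 + 2 ∨ d = 2 := by
  obtain ⟨v, hv⟩ := hrm
  have hv1 : 1 ≤ v := by
    by_contra hcon
    have : v ≤ 0 := by omega
    nlinarith
  have hd1 : 0 < d := by nlinarith
  obtain ⟨x, y, hx, hy, hxy⟩ := descent (d := d) (u := m * v + 1) (v := v) hd1 (by nlinarith) hv1
    (by rw [hd]; linear_combination v * hv) h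
  have hyy : 1 ≤ y ^ 2 := by nlinarith
  have e1 : r * (m * v) = 2 * m ^ 2 := by linear_combination -m * hv
  rcases hxy with ⟨h1, h2⟩ | ⟨h1, h2⟩
  · -- `r d y² ≤ 2 m²`
    have h3 : r * (d * y ^ 2) ≤ 2 * m ^ 2 := by
      rw [← e1]; exact mul_le_mul_of_nonneg_left (by linarith) (by linarith)
    have h4 : r * d ≤ r * (d * y ^ 2) := by
      apply mul_le_mul_of_nonneg_left _ (by linarith)
      nlinarith
    have h5 : r = 1 := by
      by_contra hcon
      have : 2 ≤ r := by omega
      rw [hd] at h4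
      nlinarith
    subst h5
    right
    have hy1 : y = 1 := by
      by_contra hcon
      have hy2 : 2 ≤ y := by omega
      have : 4 ≤ y ^ 2 := by nlinarith
      nlinarith
    subst hy1
    have h6 : x ^ 2 = m ^ 2 + 3 := by rw [hd] at h1; linarith
    have h7 : m + 1 ≤ x := by
      by_contra hcon
      push Not at hcon
      nlinarith
    have h8 : m = 1 := by nlinarith
    rw [hd, h8]
    norm_num
  · -- `r d y² ≤ 2 d`
    have h3 : r * (d * y ^ 2) ≤ 2 * d := by
      have : r * (d * y ^ 2) ≤ r * (m * v + 1 + 1) := mul_le_mul_of_nonneg_left h2 (by linarith)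
      have e2 : r * (m * v + 1 + 1) = 2 * d := by rw [hd]; linear_combination e1
      linarith
    have h4 : r * y ^ 2 ≤ 2 := by
      have : d * (r * y ^ 2) ≤ d * 2 := by linarith
      exact le_of_mul_le_mul_left this hd1
    have hr2 : r ≤ 2 := by nlinarith
    have hcase : r = 1 ∨ r = 2 := by omega
    rcases hcase with hr1 | hr1
    · right
      subst hr1
      have hy1 : y = 1 := by
        by_contra hcon
        have hy2 : 2 ≤ y := by omega
        nlinarith
      subst hy1
      have h6 : x ^ 2 = m ^ 2 - 1 := by rw [hd] at h1; linarith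
      have h7 : x ≤ m - 1 := by
        by_contra hcon
        push Not at hcon
        nlinarith
      have h8 : m = 1 := by nlinarith
      rw [hd, h8]
      norm_num
    · left
      rw [hd, hr1]

/-- negative `r` -/
lemma red_neg {d m s : ℤ} (hm : 1 ≤ m) (hs : 1 ≤ s) (hsm : s ∣ 2 * m) (hs4 : ¬ 4 ∣ s)
    (hd : d = m ^ 2 - s) (hd1 : 2 ≤ d)
    (h : ∃ x y : ℤ, x ^ 2 - d * y ^ 2 = 2 ∨ x ^ 2 - d * y ^ 2 = -2) :
    d = m ^ 2 - 2 ∨ d = 3 ∨ d = 6 := by
  obtain ⟨v, hv⟩ := hsm
  have hv1 : 1 ≤ v := by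
    by_contra hcon
    have : v ≤ 0 := by omega
    nlinarith
  have hm2 : 2 ≤ m := by
    by_contra hcon
    have : m = 1 := by omega
    rw [this] at hd
    linarith
  have hmv : 2 ≤ m * v := by nlinarith
  obtain ⟨x, y, hx, hy, hxy⟩ := descent (d := d) (u := m * v - 1) (v := v) (by linarith)
    (by linarith) hv1 (by rw [hd]; linear_combination -v * hv) h
  have hyy : 1 ≤ y ^ 2 := by nlinarith
  have e1 : s * (m * v) = 2 * m ^ 2 := by linear_combination -m * hv
  rcases hxy with ⟨h1, h2⟩ | ⟨h1, h2⟩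
  · have h3 : s * (d * y ^ 2) ≤ 2 * d := by
      have : s * (d * y ^ 2) ≤ s * (m * v - 1 - 1) := mul_le_mul_of_nonneg_left h2 (by linarith)
      have e2 : s * (m * v - 1 - 1) = 2 * d := by rw [hd]; linear_combination e1
      linarith
    have h4 : s * y ^ 2 ≤ 2 := by
      have : d * (s * y ^ 2) ≤ d * 2 := by linarith
      exact le_of_mul_le_mul_left this (by linarith)
    have hs2 : s ≤ 2 := by nlinarith
    have hcase : s = 1 ∨ s = 2 := by omega
    rcases hcase with hs1 | hs1
    · exfalso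
      subst hs1
      have hy1 : y = 1 := by
        by_contra hcon
        have hy2 : 2 ≤ y := by omega
        nlinarith
      subst hy1
      have h6 : x ^ 2 = m ^ 2 + 1 := by rw [hd] at h1; linarith
      have h7 : m + 1 ≤ x := by
        by_contra hcon
        push Not at hcon
        nlinarith
      nlinarith
    · left
      rw [hd, hs1]
  · have h3 : s * (d * y ^ 2) ≤ 2 * m ^ 2 := by
      have : s * (d * y ^ 2) ≤ s * (m * v - 1 + 1) := mul_le_mul_of_nonneg_left h2 (by linarith)
      have e2 : s * (m * v - 1 + 1) = 2 * m ^ 2 := by linear_combination e1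
      linarith
    have h4 : s * d ≤ 2 * m ^ 2 := by
      have : s * d ≤ s * (d * y ^ 2) := by
        apply mul_le_mul_of_nonneg_left _ (by linarith)
        nlinarith
      linarith
    have hs2m : s ≤ 2 * m := by nlinarith
    have hs6 : s ≤ 6 := by
      by_contra hcon
      push Not at hcon
      rw [hd] at h4
      -- `m² (s-2) ≤ s² ≤ 4 m²`
      have h5 : s ^ 2 ≤ 4 * m ^ 2 := by nlinarith
      have h6 : m ^ 2 * (s - 2) ≤ s ^ 2 := by nlinarith
      have h7 : m ^ 2 * 5 ≤ m ^ 2 * (s - 2) := mul_le_mul_of_nonneg_left (by linarith) (sq_nonneg m)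
      nlinarith
    interval_cases s
    · -- `s = 1`
      right; left
      have hy1 : y = 1 := by
        by_contra hcon
        have hy2 : 2 ≤ y := by omega
        have : 4 ≤ y ^ 2 := by nlinarith
        rw [hd] at h3
        nlinarith
      subst hy1
      have h6 : x ^ 2 = m ^ 2 - 3 := by rw [hd] at h1; linarith
      have h7 : x ≤ m - 1 := by
        by_contra hcon
        push Not at hcon
        nlinarith
      have h8 : m = 2 := by nlinarith
      rw [hd, h8]
      norm_num
    · left; exact hd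
    · -- `s = 3`
      rw [hd] at h4
      have h5 : m ^ 2 ≤ 9 := by linarith
      have h6 : m ≤ 3 := by nlinarith
      have h7 : m = 3 := by omega
      right; right
      rw [hd, h7]; norm_num
    · exact absurd (by norm_num) hs4
    · rw [hd] at h4
      have h5 : m ^ 2 ≤ 8 := by nlinarith
      have h6 : m ≤ 2 := by nlinarith
      omega
    · rw [hd] at h4
      have h5 : m ^ 2 ≤ 9 := by linarith
      have h6 : m ≤ 3 := by nlinarith
      have h7 : m = 3 := by omega
      right; left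
      rw [hd, h7]; norm_num

/-- **reduction** to `n² ± 2` -/
theorem red {d m : ℕ} {r : ℤ} (hd4 : d % 4 = 2 ∨ d % 4 = 3) (hm : 1 ≤ m) (hr0 : r ≠ 0)
    (hr : r ∣ 4 * m) (hd : (d : ℤ) = (m : ℤ) ^ 2 + r)
    (h : ∃ x y : ℤ, x ^ 2 - (d : ℤ) * y ^ 2 = 2 ∨ x ^ 2 - (d : ℤ) * y ^ 2 = -2) :
    (∃ n : ℕ, 1 ≤ n ∧ d = n ^ 2 + 2) ∨ (∃ n : ℕ, 2 ≤ n ∧ d + 2 = n ^ 2) := by
  have hm' : (1 : ℤ) ≤ m := by exact_mod_cast hm
  have h4r : ¬ (4 : ℤ) ∣ r := by
    rintro ⟨t, ht⟩
    rcases Nat.even_or_odd' m with ⟨k, hk | hk⟩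
    · have : (d : ℤ) = 4 * ((k : ℤ) ^ 2 + t) := by rw [hd, ht, hk]; push_cast; ring
      omega
    · have : (d : ℤ) = 4 * ((k : ℤ) ^ 2 + k + t) + 1 := by rw [hd, ht, hk]; push_cast; ring
      omega
  have hrm : r ∣ 2 * m := by
    obtain ⟨t, ht⟩ := hr
    rcases Int.emod_two_eq_zero_or_one t with h0 | h0
    · obtain ⟨t', ht'⟩ : ∃ t', t = 2 * t' := ⟨t / 2, by omega⟩
      refine ⟨t', ?_⟩
      rw [ht'] at ht
      linarith
    · exfalso
      apply h4r
      have h1 : IsCoprime (4 : ℤ) t := by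
        obtain ⟨k, hk⟩ : ∃ k, t = 2 * k + 1 := ⟨t / 2, by omega⟩
        have h2 : IsCoprime (2 : ℤ) t := ⟨-k, 1, by rw [hk]; ring⟩
        have : (4 : ℤ) = 2 * 2 := by norm_num
        rw [this]
        exact h2.mul_left h2
      exact h1.dvd_of_dvd_mul_right ⟨m, ht.symm⟩
  have key : (d : ℤ) = (m : ℤ) ^ 2 + 2 ∨ (d : ℤ) = (m : ℤ) ^ 2 - 2 ∨ (d : ℤ) = 2 ∨ (d : ℤ) = 3 ∨
      (d : ℤ) = 6 := by
    rcases lt_or_gt_of_ne hr0 with hneg | hpos
    · have := red_neg (d := (d : ℤ)) (m := m) (s := -r) hm' (by omega) ((neg_dvd).2 hrm)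
        (by rwa [dvd_neg]) (by rw [hd]; ring) (by omega) h
      tauto
    · have := red_pos (d := (d : ℤ)) (m := m) (r := r) hm' (by omega) hrm hd h
      tauto
  rcases key with h1 | h1 | h1 | h1 | h1
  · left
    exact ⟨m, hm, by exact_mod_cast h1⟩
  · right
    refine ⟨m, ?_, ?_⟩
    · by_contra hcon
      have : m = 1 := by omega
      rw [this] at h1
      norm_num at h1
      omega
    · have : ((d + 2 : ℕ) : ℤ) = ((m ^ 2 : ℕ) : ℤ) := by push_cast; linarith
      exact_mod_cast this
  · right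
    refine ⟨2, le_rfl, ?_⟩
    have : d = 2 := by exact_mod_cast h1
    rw [this]; norm_num
  · left
    refine ⟨1, le_rfl, ?_⟩
    have : d = 3 := by exact_mod_cast h1
    rw [this]; norm_num
  · left
    refine ⟨2, by norm_num, ?_⟩
    have : d = 6 := by exact_mod_cast h1
    rw [this]; norm_num

/-- unique factorisation transfers to the orders of even discriminant -/
lemma ufm_order_even {d : ℕ} {m B : ℤ} (hsq : Squarefree d) (h1 : 1 < d)
    (hd : 4 * (d : ℤ) = B ^ 2 + 4 * m) (h4 : d % 4 ≠ 1) (hB : B % 2 = 0)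
    (hU : UniqueFactorizationMonoid (𝓞 (KQ d))) :
    IsDomain (QuadraticAlgebra ℤ m B) ∧ UniqueFactorizationMonoid (QuadraticAlgebra ℤ m B) := by
  obtain ⟨e⟩ := exists_equiv_QI_even hd h4 hB
  have e' := e.symm.trans (eqvO hsq h1)
  exact ⟨e'.toMulEquiv.isDomain, e'.symm.toMulEquiv.uniqueFactorizationMonoid hU⟩

/-- the prime `2` is the norm of an element up to sign -/
lemma exists_norm_two {d : ℕ} (hsq : Squarefree d) (h1 : 1 < d) (h4 : d % 4 ≠ 1)
    (hU : UniqueFactorizationMonoid (𝓞 (KQ d))) :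
    ∃ x y : ℤ, x ^ 2 - (d : ℤ) * y ^ 2 = 2 ∨ x ^ 2 - (d : ℤ) * y ^ 2 = -2 := by
  obtain ⟨i1, i2⟩ := ufm_order_even (m := (d : ℤ)) (B := 0) hsq h1 (by ring) h4 rfl hU
  have hK : Kr (d : ℤ) 0 (4 * d) (kr d) := kr_isKr (b := 0) (by ring) (by ring)
  obtain ⟨π, _, _, hπ⟩ := hK.exists_prime_elem Nat.prime_two (by
    rw [kr_even rfl]; norm_num)
  refine ⟨π.re, π.im, ?_⟩
  have h2 : π.norm = π.re ^ 2 - (d : ℤ) * π.im ^ 2 := by
    rw [QuadraticAlgebra.norm_def]; ring
  rw [← h2]
  omega

end Pool.Agent.Lib_helper5.RDF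


end

section

/-! generated data -/

namespace Pool.Agent.LibH4.KF

open Ker T6

/-- weights -/
def DR_17_13_5_0 : List ((ℕ × ℕ) × ℕ) := [((nat_lit 1, nat_lit 0), nat_lit 1062275986128198774287812060168903339631578278094762666810669414543205292148051263728114988028920526661102378484374094027706782294229181000732449713304368058221612426655782165490434048),
  ((nat_lit 1, nat_lit 1), nat_lit 4562719087960465331250529489891935232556350142028072766008904205954603610054892324759284875885780182453197481217509483725285759444347080790143372787836222519464375194043421643340102684079292420),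
  ((nat_lit 1, nat_lit 2), nat_lit 4562510236003481892617059960356392137482877552255029253603140788972881427623711012149830004341346125014950551625834032654571942820860309845043082949524521401286989856745201810852154836328120321),
  ((nat_lit 1, nat_lit 3), nat_lit 18250040940827099614309617130956279970028828180363374713051828123583287934089396358298696510048837300076896757401908802198233652936832173596048307227711009150013727682561481068480938358710730756),
  ((nat_lit 1, nat_lit 4), nat_lit 4562579853322476372408880205008012208160004932147050392366981647356488213353799866495397753715312551227088251089773657786156432484726176596301621153562877061466961360128274865409450275223109635),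
  ((nat_lit 1, nat_lit 5), nat_lit 18249762471551121696873648962661540212684841275060185939720034979100386857705982326725300523435440427136410476610070786660229473175641607593387786441228562010134607106268234841539519000900272128),
  ((nat_lit 1, nat_lit 6), nat_lit 18249832088870116176170808404366947700464561626059469118982299996268568634485451100263380433707149307150142538320240466407149141527365974634937302217165224622065862322169539705030523528100708353),
  ((nat_lit 1, nat_lit 7), nat_lit 18249762471551121697120979364134643868051243299355546114971232072411182469155881864158675703319969692039267746316696315347186533538107333347366051330441064969446613651989236922636406945268891648),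
  ((nat_lit 1, nat_lit 8), nat_lit 4562719087960465331250529489891935232556350142031194514559220187095306430801426052751376737456110339858309331320341374350170972176143315154939887169191254944149637426874180264033856466421022724),
  ((nat_lit 1, nat_lit 9), nat_lit 4562510236003481892617059960356390380094676558818942218236536201954860253681873504854920909371699690372475395310796271427450157487401524389334121584171218157333530221783517435857548644028776449),
  ((nat_lit 1, nat_lit 10), nat_lit 18249762471551121696873648962661541970073042268496272975086639543937050478681379761405288934218841792367590809115895335367282551826545433196373919574372286104407889834044044885625233762372550656),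
  ((nat_lit 1, nat_lit 11), nat_lit 18250040940827099613814956328010071780601923635032758605013919764377087602509505686498308060493806520846308739335611249603611008652253490304934253006874423405271768646561569498602025653068890116),
  ((nat_lit 1, nat_lit 12), nat_lit 18249762471551121697120979364134643868051243299364911360622180015833290931395483048134951288030960164254601307332246348089408326722730467301145954175786348692743293541515541702232503906044215296),
  ((nat_lit 1, nat_lit 13), nat_lit 4562649470641470851706039646713417938551524289704003039162010115225243174698206068729599267259945333697158557994529992767254880968230669327365047167291086455736697230210376262029739478615064578),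
  ((nat_lit 1, nat_lit 14), nat_lit 18249832088870116176665469207313157647279667164810563519635233014607918483308346380826672746148576154005930979955274164827818626108486898473382766398183993869393611801808283400550728570442350593),
  ((nat_lit 1, nat_lit 15), nat_lit 4562719087960465331250529489891933475168149148601350976293247606721406004285693754695278311916463475009046605314904909031314586088654857691958921011792738494992506231473522664206841126288621572),
  ((nat_lit 1, nat_lit 16), nat_lit 4562510236003481892864390361829496671543380073271554695087956156933390446791240340250635367877547834780157589200427235952495178426320961478001906656636356087132383364375893225493442276467146753),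
  ((nat_lit 0, nat_lit 1), nat_lit 4562440617622211428181023350255588968388062952285400012321929878859824781877233687651348594771006396579728584918968463648401809882459579075936061756342797726238389324183036736120150887535476736)]

theorem dr_17_13_5_0 : DR_17_13_5_0 = DRstd 17 13 5 52 170 23207668197802189840 1165560225469200 P17 P13 :=
  KV.drCheckV_spec (by decide +kernel : KV.drCheckV (nat_lit 17) (nat_lit 13) (nat_lit 221) (nat_lit 5)
    (nat_lit 52) (nat_lit 170) (nat_lit 23207668197802189840) (nat_lit 1165560225469200) P17 P13 DR_17_13_5_0 = true)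

lemma hyp_17_13_5_0 : Hyp 17 13 5 52 170 23207668197802189840 1165560225469200 P17 P13 :=
  mkHyp (by norm_num) (by norm_num) (by norm_num) (by norm_num) (by norm_num)
    (by decide +kernel : tabCheck (nat_lit 17) (nat_lit 5) (nat_lit 23207668197802189840) = true)
    (by decide +kernel : tabCheck (nat_lit 13) (nat_lit 5) (nat_lit 1165560225469200) = true)
    (by decide +kernel : obCheck (nat_lit 17) (nat_lit 13) (nat_lit 221) (nat_lit 5) (nat_lit 23207668197802189840) (nat_lit 1165560225469200) = true)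
    isP1_17 isP1_13 (by decide) (by decide) (by norm_num) (by norm_num) (by norm_num)

end Pool.Agent.LibH4.KF


end
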