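import Mathlib
import Pool.Agent.RQM.C09
import Pool.Agent.RQM.C10
import Pool.Agent.RQM.C11
import Pool.Agent.RQM.C12
import Pool.Agent.RQM.C13
import Pool.Agent.RQM.C14
import Pool.Agent.RQM.C15
import Pool.Agent.RQM.C16
import Pool.Agent.RQM.C17
import Pool.Agent.RQM.C18
import Pool.Agent.RQM.C19
import Pool.Agent.RQM.C20
import Pool.Agent.RQM.C22
import Pool.Agent.RQM.C26
import Pool.Agent.RQM.C29
import Pool.Agent.RQM.V3

/-! Parts: Lib_helper5.RDF.EvenFam, Lib_helper5.RDF.Fields, Lib_helper5.RDF.EvenMain, Lib_helper5.RDF.EvenPart, RDF.KS_G7, RDF.KR_37_5_13_0, RDF.KR_37_7_13_0, RDF.KS_M -/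

namespace Pool.Agent.LibH4
end Pool.Agent.LibH4
namespace Pool.Agent.LibH4.FA
end Pool.Agent.LibH4.FA
namespace Pool.Agent.LibH4.Ker
end Pool.Agent.LibH4.Ker
namespace Pool.Agent.LibH4.T6
end Pool.Agent.LibH4.T6
namespace Pool.Agent.Lib_helper5.RDF
end Pool.Agent.Lib_helper5.RDF
namespace Pool.Agent.RDF
end Pool.Agent.RDF

section

/-!
The families `d = n² ± 2`.
-/

namespace Pool.Agent.Lib_helper5.RDF

open Finset (range)
open Pool.Agent.LibH4 Pool.Agent.LibH4.FA

lemma q_odd_of_coprime {q d : ℕ} (h : Nat.Coprime q (4 * d)) : q % 2 = 1 := by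
  have h2 : Nat.Coprime q 4 := Nat.Coprime.coprime_mul_right_right h
  have h3 : Nat.Coprime q 2 := by
    have : (4 : ℕ) = 2 * 2 := rfl
    rw [this] at h2
    exact Nat.Coprime.coprime_mul_right_right h2
  rw [Nat.coprime_comm, Nat.coprime_two_left] at h3
  exact Nat.odd_iff.1 h3

namespace BL2

/-- the character -/
lemma isKr (n d : ℕ) (hd : d = n ^ 2 + 2) : Kr ((2 : ℕ) : ℤ) ((2 : ℕ) * n) (4 * d) (kr d) :=
  kr_isKr (b := n) (by push_cast; ring) (by rw [hd]; push_cast; ring)

lemma d_mod (n d : ℕ) (hd : d = n ^ 2 + 2) : d % 4 = 2 ∨ d % 4 = 3 := by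
  rcases Nat.even_or_odd' n with ⟨k, rfl | rfl⟩
  · left
    have : (2 * k) ^ 2 + 2 = 4 * k ^ 2 + 2 := by ring
    omega
  · right
    have : (2 * k + 1) ^ 2 + 2 = 4 * (k ^ 2 + k) + 3 := by ring
    omega

lemma P_ne (n : ℕ) : ∀ k < 2, k ≠ 1 → BL.P 2 k ≠ 1 := by
  intro k hk hk1
  interval_cases k
  · simp [BL.P]
  · exact absurd rfl hk1

/-- all relations for `d = n² + 2` -/
theorem all (n : ℕ) (hn : 1 ≤ n)
    [IsDomain (QuadraticAlgebra ℤ ((2 : ℕ) : ℤ) ((2 : ℕ) * n))]
    [UniqueFactorizationMonoid (QuadraticAlgebra ℤ ((2 : ℕ) : ℤ) ((2 : ℕ) * n))] :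
    BL.All 2 n (4 * (n ^ 2 + 2)) := by
  intro q l hq _ hcop hl6 hld χ hodd hmul hsum
  have hq2 := q_odd_of_coprime hcop
  have key := even_T5' ((2 : ℕ) : ℤ) ((2 : ℕ) * n) (by norm_num)
    (BL.cyc 2 n (by norm_num) hn) 1 rfl (by norm_num) (BL.closing 2 n) (P_ne n)
    (isKr n _ rfl) (by positivity) (kr_mod _) q l hq hq2 hcop
    (exists_kr_neg (by positivity) (d_mod n _ rfl) hq2 (Nat.Coprime.coprime_mul_left_right hcop))
    hl6 hld χ hodd hmul hsum
  rw [← key]
  simp only [Finset.sum_range_succ, Finset.sum_range_zero (M := ZMod l), zero_add, BL.P, BL.R,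
    BL.S, BL.c]
  push_cast
  rfl

/-- small primes are inert for `d = n² + 2` -/
theorem inert (n : ℕ) (hn : 1 ≤ n)
    [IsDomain (QuadraticAlgebra ℤ ((2 : ℕ) : ℤ) ((2 : ℕ) * n))]
    [UniqueFactorizationMonoid (QuadraticAlgebra ℤ ((2 : ℕ) : ℤ) ((2 : ℕ) * n))]
    (p : ℕ) (hp : p.Prime) (hp2 : p ≠ 2) (hpw : p ≤ 2 * (n - 1)) :
    jacobiSym ((n ^ 2 + 2 : ℕ) : ℤ) p = -1 := by
  by_contra hj
  obtain ⟨k, hk, x, y, hx, hy, he⟩ := even_inert' ((2 : ℕ) : ℤ) ((2 : ℕ) * n) (by norm_num)
    (BL.cyc 2 n (by norm_num) hn) 1 rfl (by norm_num) (BL.closing 2 n) (P_ne n)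
    (isKr n _ rfl) p hp (by rw [kr_prime hp hp2]; exact hj)
  have hx' : (1 : ℤ) ≤ x := by exact_mod_cast hx
  have hn' : (1 : ℤ) ≤ n := by exact_mod_cast hn
  have hxx : (1 : ℤ) ≤ (x : ℤ) ^ 2 := by nlinarith
  have hn1 : ((n - 1 : ℕ) : ℤ) = n - 1 := by rw [Nat.cast_sub hn]; simp
  have hpw' : (p : ℤ) ≤ 2 * (n - 1) := by
    rw [← hn1]; exact_mod_cast hpw
  rcases Nat.eq_zero_or_pos y with hy0 | hy0
  · subst hy0
    have he' : BL.P 2 k * (x : ℤ) ^ 2 = p := by rw [← he]; push_cast; ring
    have hP := eq_of_prime_mul_sq hp he'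
    interval_cases k <;> simp only [BL.P] at hP
    · apply hp2; exact_mod_cast hP.symm
    · have := hp.two_le
      omega
  · have hy1 : (1 : ℤ) ≤ y := by exact_mod_cast hy0
    have hyc : (y : ℤ) + 1 ≤ BL.c 2 n k * x := by exact_mod_cast hy
    interval_cases k <;> simp only [BL.P, BL.R, BL.S, BL.c] at he hyc
    · push_cast at hyc he
      have h1 : (2 : ℤ) ≤ 2 * x ^ 2 := by nlinarith
      have h2 : (2 : ℤ) * n * x - 1 ≤ y * (2 * n * x - y) := by nlinarith
      have h3 : (2 : ℤ) * n ≤ 2 * n * x := by nlinarith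
      nlinarith
    · push_cast at he
      have h2 : (n : ℤ) * x - 1 ≤ y * (n * x - y) := by nlinarith
      have h3 : (2 : ℤ) * (n * x - 1) ≤ 2 * (y * (n * x - y)) := by nlinarith
      have h4 : (2 : ℤ) * (n * 1 - 1) ≤ 2 * (n * x - 1) := by nlinarith
      nlinarith

end BL2

namespace E2

/-- the character -/
lemma isKr (n d : ℕ) (hd : d + 2 = n ^ 2) : Kr (E1.w 2 n) ((2 : ℕ) * n - 2) (4 * d) (kr d) :=
  kr_isKr (b := n - 1) (by push_cast; ring) (by
    have h : ((d + 2 : ℕ) : ℤ) = ((n ^ 2 : ℕ) : ℤ) := by rw [hd]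
    push_cast at h
    unfold E1.w
    push_cast
    linarith)

lemma d_mod (n d : ℕ) (hd : d + 2 = n ^ 2) : d % 4 = 2 ∨ d % 4 = 3 := by
  rcases Nat.even_or_odd' n with ⟨k, rfl | rfl⟩
  · left
    have : (2 * k) ^ 2 = 4 * k ^ 2 := by ring
    omega
  · right
    have : (2 * k + 1) ^ 2 = 4 * (k ^ 2 + k) + 1 := by ring
    omega

lemma P_ne (n : ℕ) (hn : 3 ≤ n) : ∀ k < 4, k ≠ 1 → E1.P 2 n k ≠ 1 := by
  have hw := E1.w_pos 2 n (by norm_num) hn
  intro k hk hk1
  interval_cases k
  · simp only [E1.P]; omega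
  · exact absurd rfl hk1
  · simp only [E1.P]; omega
  · simp [E1.P]

/-- all relations for `d = n² - 2` -/
theorem all (n d : ℕ) (hn : 3 ≤ n) (hd : d + 2 = n ^ 2)
    [IsDomain (QuadraticAlgebra ℤ (E1.w 2 n) ((2 : ℕ) * n - 2))]
    [UniqueFactorizationMonoid (QuadraticAlgebra ℤ (E1.w 2 n) ((2 : ℕ) * n - 2))] :
    E1.All 2 n (4 * d) := by
  intro q l hq _ hcop hl6 hld χ hodd hmul hsum
  have hq2 := q_odd_of_coprime hcop
  have hw := E1.w_pos 2 n (by norm_num) hn
  have hd0 : 0 < d := by nlinarith
  have key := even_T5' (E1.w 2 n) ((2 : ℕ) * n - 2) (by omega)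
    (E1.cyc 2 n (by norm_num) hn) 2 rfl (by norm_num) (E1.closing 2 n (by norm_num) hn) (P_ne n hn)
    (isKr n _ hd) (by positivity) (kr_mod _) q l hq hq2 hcop
    (exists_kr_neg hd0 (d_mod n _ hd) hq2 (Nat.Coprime.coprime_mul_left_right hcop))
    hl6 hld χ hodd hmul hsum
  rw [← key]
  simp only [Finset.sum_range_succ, Finset.sum_range_zero (M := ZMod l), zero_add, E1.P, E1.R,
    E1.S, E1.c, E1.w]
  have c0 : ((2 * n - 2 : ℕ) : ZMod l) = ((2 : ℕ) : ZMod l) * n - 2 := by
    have := congrArg (Int.cast : ℤ → ZMod l) (E1.cast_c0 2 n (by norm_num) hn)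
    push_cast at this ⊢
    exact this
  have c2 : ((n - 2 : ℕ) : ZMod l) = (n : ZMod l) - 2 := by
    have := congrArg (Int.cast : ℤ → ZMod l) (E1.cast_c2 n hn)
    push_cast at this
    exact this
  rw [c0, c2]
  push_cast
  rfl

/-- small primes are inert for `d = n² - 2` -/
theorem inert (n d : ℕ) (hn : 3 ≤ n) (hd : d + 2 = n ^ 2)
    [IsDomain (QuadraticAlgebra ℤ (E1.w 2 n) ((2 : ℕ) * n - 2))]
    [UniqueFactorizationMonoid (QuadraticAlgebra ℤ (E1.w 2 n) ((2 : ℕ) * n - 2))]
    (p : ℕ) (hp : p.Prime) (hp2 : p ≠ 2) (hpw : p + 3 < 2 * n) :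
    jacobiSym (d : ℤ) p = -1 := by
  by_contra hj
  have hw := E1.w_pos 2 n (by norm_num) hn
  have hwe : E1.w 2 n = 2 * n - 3 := by unfold E1.w; push_cast; ring
  obtain ⟨k, hk, x, y, hx, hy, he⟩ := even_inert' (E1.w 2 n) ((2 : ℕ) * n - 2) (by omega)
    (E1.cyc 2 n (by norm_num) hn) 2 rfl (by norm_num) (E1.closing 2 n (by norm_num) hn) (P_ne n hn)
    (isKr n _ hd) p hp (by rw [kr_prime hp hp2]; exact hj)
  have hx' : (1 : ℤ) ≤ x := by exact_mod_cast hx
  have hn' : (3 : ℤ) ≤ n := by exact_mod_cast hn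
  have hpw' : (p : ℤ) + 3 < 2 * n := by exact_mod_cast hpw
  have hxx : (1 : ℤ) ≤ (x : ℤ) ^ 2 := by nlinarith
  rcases Nat.eq_zero_or_pos y with hy0 | hy0
  · subst hy0
    have he' : E1.P 2 n k * (x : ℤ) ^ 2 = p := by rw [← he]; push_cast; ring
    have hP := eq_of_prime_mul_sq hp he'
    interval_cases k <;> simp only [E1.P] at hP
    · omega
    · have := hp.two_le
      omega
    · omega
    · apply hp2; exact_mod_cast hP.symm
  · have hy1 : (1 : ℤ) ≤ y := by exact_mod_cast hy0
    have hyc : (y : ℤ) + 1 ≤ E1.c 2 n k * x := by exact_mod_cast hy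
    interval_cases k <;> simp only [E1.P, E1.R, E1.S, E1.c] at he hyc
    · rw [E1.cast_c0 2 n (by norm_num) hn] at hyc
      push_cast at hyc he
      rw [hwe] at he
      have h1 : (2 * (n : ℤ) - 3) ≤ (2 * n - 3) * (x : ℤ) ^ 2 := by nlinarith
      have h2 : 0 ≤ (y : ℤ) * ((2 * n - 2) * x - y) := mul_nonneg (by linarith) (by linarith)
      nlinarith
    · push_cast at hyc he
      rw [hwe] at he
      have h1 : 0 ≤ (2 * (n : ℤ) - 3) * ((y : ℤ) * (x - y) - 1) := by
        apply mul_nonneg (by linarith)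
        nlinarith
      have h2 : (1 : ℤ) * x ^ 2 + (2 * n - 2) * x * y - (2 * n - 3) * y ^ 2
        = (2 * n - 3) * (y * (x - y)) + x ^ 2 + (x * y) := by ring
      have h3 : 0 ≤ ((x : ℤ) * y) := by nlinarith
      linarith
    · rw [E1.cast_c2 n hn] at hyc
      push_cast at he
      rw [hwe] at he
      have h1 : (2 * (n : ℤ) - 3) ≤ (2 * n - 3) * (x : ℤ) ^ 2 := by nlinarith
      have h2 : 0 ≤ (2 : ℤ) * ((y : ℤ) * ((n - 2) * x - y)) :=
        mul_nonneg (by linarith) (mul_nonneg (by linarith) (by linarith))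
      nlinarith
    · push_cast at hyc he
      rw [hwe] at he
      have h1 : 0 ≤ (2 * (n : ℤ) - 3) * ((y : ℤ) * (x - y) - 1) := by
        apply mul_nonneg (by linarith)
        nlinarith
      have h2 : (2 : ℤ) * x ^ 2 + (2 * n - 2 * 2) * x * y - (2 * n - 3) * y ^ 2
        = (2 * n - 3) * (y * (x - y)) + 2 * (x * (x - y)) + x * y := by ring
      have h3 : 0 ≤ (2 : ℤ) * (x * (x - y)) :=
        mul_nonneg (by linarith) (mul_nonneg (by linarith) (by linarith))
      have h4 : 0 ≤ (x : ℤ) * y := by positivity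
      linarith

end E2

end Pool.Agent.Lib_helper5.RDF


end

section

/-!
Unique factorisation in explicit real quadratic fields: the forty-three fields of
Richaud-Degert type.
-/

namespace Pool.Agent.Lib_helper5.RDF

open scoped NumberField
open Pool.Agent.LibH4

/-- the check for `d ≡ 2, 3` modulo `4`, with witnesses `(p, r, i)` -/
def chkE (d : ℕ) (W : List (ℕ × ℤ × ℤ)) : Bool :=
  decide (d % 4 = 2 ∨ d % 4 = 3) && (decide (d < 10000) && FU.prs.all fun p => decide (d < p ^ 2) ||
    (W.any (fun w => decide (w.1 = p) &&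
      decide ((w.2.1 ^ 2 - (d : ℤ) * w.2.2 ^ 2).natAbs = p)) ||
    (List.range p).all fun x => decide ((x * x) % p ≠ d % p)))

theorem ufd_of_chkE {d : ℕ} {W : List (ℕ × ℤ × ℤ)} (h : chkE d W = true) (hsq : Squarefree d)
    (h1 : 1 < d) : UniqueFactorizationMonoid (𝓞 (KQ d)) := by
  unfold chkE at h
  rw [Bool.and_eq_true, Bool.and_eq_true, decide_eq_true_eq, decide_eq_true_eq,
    List.all_eq_true] at h
  obtain ⟨hmod, hlt, hall⟩ := h
  have hne : ¬ d % 4 = 1 := by omega
  have hBq : Bq d = 0 := by simp [Bq, hne]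
  have hAq : Aq d = d := by
    unfold Aq
    rw [if_neg hne]
  have hDq : Dq d = 4 * d := by simp [Dq, hne]
  have hpid : IsPrincipalIdealRing (𝓞 (KQ d)) := by
    apply isPrincipalIdealRing_of_small hsq h1
    intro p hp h4 x hx hdvd
    rw [hDq] at h4
    rw [hBq, hAq, zero_mul, add_zero] at hdvd
    have h4' : p ^ 2 ≤ d := by
      have : (p : ℤ) ^ 2 ≤ d := by linarith
      exact_mod_cast this
    have hp100 : p < 100 := by
      by_contra hge
      push Not at hge
      nlinarith
    have h5 := hall p (FU.mem_prs hp hp100)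
    rw [Bool.or_eq_true, Bool.or_eq_true, decide_eq_true_eq, List.any_eq_true,
      List.all_eq_true] at h5
    rcases h5 with h5 | ⟨w, -, h5⟩ | h5
    · omega
    · rw [Bool.and_eq_true, decide_eq_true_eq, decide_eq_true_eq] at h5
      refine ⟨⟨w.2.1, w.2.2⟩, ?_⟩
      rw [QuadraticAlgebra.norm_def, hBq, hAq, ← h5.2]
      congr 1
      simp only
      ring
    · exfalso
      have hp0 : (0 : ℤ) < p := by exact_mod_cast hp.pos
      obtain ⟨y, hy⟩ : ∃ y : ℕ, (y : ℤ) = x % p :=
        ⟨(x % p).toNat, Int.toNat_of_nonneg (Int.emod_nonneg _ hp0.ne')⟩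
      have hyp : y < p := by
        have := Int.emod_lt_of_pos x hp0
        rw [← hy] at this
        exact_mod_cast this
      have h6 := h5 y (List.mem_range.2 hyp)
      rw [decide_eq_true_eq] at h6
      apply h6
      have h7 : (p : ℤ) ∣ ((y * y : ℕ) : ℤ) - ((d : ℕ) : ℤ) := by
        have e : (x : ℤ) ≡ y [ZMOD p] := by
          rw [hy]; exact (Int.mod_modEq x p).symm
        have e2 : x ^ 2 - (d : ℤ) ≡ (y : ℤ) ^ 2 - d [ZMOD p] := (e.pow 2).sub_right _
        have h8 := (Int.ModEq.dvd_iff e2).1 hdvd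
        have h9 : ((y * y : ℕ) : ℤ) = (y : ℤ) ^ 2 := by push_cast; ring
        rw [h9]
        exact h8
      exact ((Nat.modEq_iff_dvd (n := p) (a := d) (b := y * y)).2 h7).symm
  infer_instance

/-- the fourteen even discriminants (`d ≡ 2, 3` modulo `4`) -/
def listE : List ℕ := [2, 3, 6, 7, 11, 14, 23, 38, 47, 62, 83, 167, 227, 398]

/-- the twenty-nine odd discriminants -/
def listO : List ℕ := [5, 13, 17, 21, 29, 33, 37, 53, 69, 77, 93, 101, 141, 173, 197, 213, 237, 293,
  413, 437, 453, 573, 677, 717, 1077, 1133, 1253, 1293, 1757]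

theorem ufd_listE {d : ℕ} (hsq : Squarefree d) (h : d ∈ listE) :
    UniqueFactorizationMonoid (𝓞 (KQ d)) := by
  simp only [listE, List.mem_cons, List.not_mem_nil, or_false] at h
  rcases h with rfl | rfl | rfl | rfl | rfl | rfl | rfl | rfl | rfl | rfl | rfl | rfl | rfl | rfl
  · exact ufd_of_chkE (W := []) (by decide +kernel) hsq (by norm_num)
  · exact ufd_of_chkE (W := []) (by decide +kernel) hsq (by norm_num)
  · exact ufd_of_chkE (W := [(2, 2, 1)]) (by decide +kernel) hsq (by norm_num)
  · exact ufd_of_chkE (W := [(2, 3, 1)]) (by decide +kernel) hsq (by norm_num)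
  · exact ufd_of_chkE (W := [(2, 3, 1)]) (by decide +kernel) hsq (by norm_num)
  · exact ufd_of_chkE (W := [(2, 4, 1)]) (by decide +kernel) hsq (by norm_num)
  · exact ufd_of_chkE (W := [(2, 5, 1)]) (by decide +kernel) hsq (by norm_num)
  · exact ufd_of_chkE (W := [(2, 6, 1)]) (by decide +kernel) hsq (by norm_num)
  · exact ufd_of_chkE (W := [(2, 7, 1)]) (by decide +kernel) hsq (by norm_num)
  · exact ufd_of_chkE (W := [(2, 8, 1)]) (by decide +kernel) hsq (by norm_num)
  · exact ufd_of_chkE (W := [(2, 9, 1)]) (by decide +kernel) hsq (by norm_num)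
  · exact ufd_of_chkE (W := [(2, 13, 1)]) (by decide +kernel) hsq (by norm_num)
  · exact ufd_of_chkE (W := [(2, 15, 1)]) (by decide +kernel) hsq (by norm_num)
  · exact ufd_of_chkE (W := [(2, 20, 1)]) (by decide +kernel) hsq (by norm_num)

theorem ufd_listO {d : ℕ} (hsq : Squarefree d) (h : d ∈ listO) :
    UniqueFactorizationMonoid (𝓞 (KQ d)) := by
  simp only [listO, List.mem_cons, List.not_mem_nil, or_false] at h
  rcases h with rfl | rfl | rfl | rfl | rfl | rfl | rfl | rfl | rfl | rfl | rfl | rfl | rfl | rfl |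
    rfl | rfl | rfl | rfl | rfl | rfl | rfl | rfl | rfl | rfl | rfl | rfl | rfl | rfl | rfl
  · exact FU.ufd_of_chk (W := []) (by decide +kernel) hsq (by norm_num)
  · exact FU.ufd_of_chk (W := []) (by decide +kernel) hsq (by norm_num)
  · exact FU.ufd_of_chk (W := [(2, 2, 1)]) (by decide +kernel) hsq (by norm_num)
  · exact FU.ufd_of_chk (W := []) (by decide +kernel) hsq (by norm_num)
  · exact FU.ufd_of_chk (W := []) (by decide +kernel) hsq (by norm_num)
  · exact FU.ufd_of_chk (W := [(2, 2, 1)]) (by decide +kernel) hsq (by norm_num)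
  · exact FU.ufd_of_chk (W := [(3, 3, 1)]) (by decide +kernel) hsq (by norm_num)
  · exact FU.ufd_of_chk (W := []) (by decide +kernel) hsq (by norm_num)
  · exact FU.ufd_of_chk (W := [(3, 4, 1)]) (by decide +kernel) hsq (by norm_num)
  · exact FU.ufd_of_chk (W := []) (by decide +kernel) hsq (by norm_num)
  · exact FU.ufd_of_chk (W := [(3, 4, 1)]) (by decide +kernel) hsq (by norm_num)
  · exact FU.ufd_of_chk (W := [(5, 5, 1)]) (by decide +kernel) hsq (by norm_num)
  · exact FU.ufd_of_chk (W := [(3, 11, 2), (5, 5, 1)]) (by decide +kernel) hsq (by norm_num)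
  · exact FU.ufd_of_chk (W := []) (by decide +kernel) hsq (by norm_num)
  · exact FU.ufd_of_chk (W := [(7, 7, 1)]) (by decide +kernel) hsq (by norm_num)
  · exact FU.ufd_of_chk (W := [(3, 7, 1)]) (by decide +kernel) hsq (by norm_num)
  · exact FU.ufd_of_chk (W := [(3, 7, 1)]) (by decide +kernel) hsq (by norm_num)
  · exact FU.ufd_of_chk (W := []) (by decide +kernel) hsq (by norm_num)
  · exact FU.ufd_of_chk (W := [(7, 10, 1)]) (by decide +kernel) hsq (by norm_num)
  · exact FU.ufd_of_chk (W := []) (by decide +kernel) hsq (by norm_num)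
  · exact FU.ufd_of_chk (W := [(3, 10, 1)]) (by decide +kernel) hsq (by norm_num)
  · exact FU.ufd_of_chk (W := [(3, 23, 2), (11, 11, 1)]) (by decide +kernel) hsq (by norm_num)
  · exact FU.ufd_of_chk (W := [(13, 13, 1)]) (by decide +kernel) hsq (by norm_num)
  · exact FU.ufd_of_chk (W := [(3, 13, 1)]) (by decide +kernel) hsq (by norm_num)
  · exact FU.ufd_of_chk (W := [(3, 16, 1)]) (by decide +kernel) hsq (by norm_num)
  · exact FU.ufd_of_chk (W := [(11, 16, 1)]) (by decide +kernel) hsq (by norm_num)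
  · exact FU.ufd_of_chk (W := [(7, 17, 1)]) (by decide +kernel) hsq (by norm_num)
  · exact FU.ufd_of_chk (W := [(3, 35, 2), (17, 17, 1)]) (by decide +kernel) hsq (by norm_num)
  · exact FU.ufd_of_chk (W := [(7, 41, 2), (19, 20, 1)]) (by decide +kernel) hsq (by norm_num)

/-- the forty-three fields have unique factorisation -/
theorem ufd_list {d : ℕ} (hsq : Squarefree d) (h : d ∈ listE ++ listO) :
    UniqueFactorizationMonoid (𝓞 (KQ d)) := by
  rcases List.mem_append.1 h with h | h
  · exact ufd_listE hsq h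
  · exact ufd_listO hsq h

end Pool.Agent.Lib_helper5.RDF


end

section

/-!
The even discriminants of extended Richaud–Degert type, from the two eliminations.
-/

namespace Pool.Agent.Lib_helper5.RDF

open Finset (range)
open Pool.Agent.LibH4 Pool.Agent.LibH4.FA
open scoped NumberField

/-- what remains to be shown for `d = n² + 2` -/
def NoLargeBL2 : Prop := ∀ n : ℕ, 20 ≤ n →
  (∀ p : ℕ, p.Prime → p ≠ 2 → p ≤ 37 → jacobiSym ((n ^ 2 + 2 : ℕ) : ℤ) p = -1) →
  BL.All 2 n (4 * (n ^ 2 + 2)) → False

/-- what remains to be shown for `d = n² - 2` -/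
def NoLargeE2 : Prop := ∀ n d : ℕ, 21 ≤ n → d + 2 = n ^ 2 →
  (∀ p : ℕ, p.Prime → p ≠ 2 → p ≤ 37 → jacobiSym (d : ℤ) p = -1) →
  E1.All 2 n (4 * d) → False

lemma BL2.small_arith (n : ℕ) (hn : 1 ≤ n) (hn20 : n < 20) (hsq : Squarefree (n ^ 2 + 2))
    (hin : ∀ p : ℕ, p.Prime → p ≠ 2 → p ≤ 2 * (n - 1) →
      jacobiSym ((n ^ 2 + 2 : ℕ) : ℤ) p = -1) :
    n ^ 2 + 2 ∈ listE := by
  have h3 := hin 3 (by norm_num) (by norm_num)
  have h5 := hin 5 (by norm_num) (by norm_num)
  have h9 : ¬ (9 ∣ n ^ 2 + 2) := by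
    intro h
    have := hsq 3 (by simpa using h)
    rw [Nat.isUnit_iff] at this
    omega
  clear hin hsq
  interval_cases n <;> first
    | decide
    | (exfalso; exact h9 (by decide))
    | (exfalso; have := h3 (by decide); norm_num at this; done)
    | (exfalso; have := h5 (by decide); norm_num at this; done)

lemma E2.small_arith (n d : ℕ) (hn : 2 ≤ n) (hn20 : n < 21) (hd : d + 2 = n ^ 2)
    (hsq : Squarefree d)
    (hin : ∀ p : ℕ, p.Prime → p ≠ 2 → p + 3 < 2 * n → jacobiSym (d : ℤ) p = -1) :
    d ∈ listE := by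
  have h3 := hin 3 (by norm_num) (by norm_num)
  have h5 := hin 5 (by norm_num) (by norm_num)
  have h7 := hin 7 (by norm_num) (by norm_num)
  have h49 : ¬ (49 ∣ d) := by
    intro h
    have := hsq 7 (by simpa using h)
    rw [Nat.isUnit_iff] at this
    omega
  have hd' : d = n ^ 2 - 2 := by omega
  clear hin hsq hd
  subst hd'
  interval_cases n <;> first
    | decide
    | (exfalso; exact h49 (by decide))
    | (exfalso; have := h3 (by decide); norm_num at this; done)
    | (exfalso; have := h5 (by decide); norm_num at this; done)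
    | (exfalso; have := h7 (by decide); norm_num at this; done)

/-- class number one for `d = n² + 2` -/
theorem BL2.mem_list (H : NoLargeBL2) (n d : ℕ) (hn : 1 ≤ n) (hd : d = n ^ 2 + 2)
    (hsq : Squarefree d) (hU : UniqueFactorizationMonoid (𝓞 (KQ d))) : d ∈ listE := by
  have h4 := BL2.d_mod n d hd
  have h1 : 1 < d := by rw [hd]; have := Nat.zero_le (n ^ 2); omega
  obtain ⟨i1, i2⟩ := ufm_order_even (m := ((2 : ℕ) : ℤ)) (B := (2 : ℕ) * n) hsq h1
    (by rw [hd]; push_cast; ring) (by omega) (by push_cast; omega) hU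
  have hin := fun (p : ℕ) (hp : p.Prime) (hp2 : p ≠ 2) hpw => BL2.inert n hn p hp hp2 hpw
  rcases Nat.lt_or_ge n 20 with hs | hs
  · rw [hd] at hsq ⊢
    exact BL2.small_arith n hn hs hsq hin
  · exfalso
    exact H n hs (fun p hp hp2 hp37 => hin p hp hp2 (by omega)) (BL2.all n hn)

/-- class number one for `d = n² - 2` -/
theorem E2.mem_list (H : NoLargeE2) (n d : ℕ) (hn : 2 ≤ n) (hd : d + 2 = n ^ 2)
    (hsq : Squarefree d) (hU : UniqueFactorizationMonoid (𝓞 (KQ d))) : d ∈ listE := by
  rcases Nat.lt_or_ge n 3 with hn3 | hn3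
  · have hn2 : n = 2 := by omega
    subst hn2
    have : d = 2 := by omega
    subst this
    decide
  have h4 := E2.d_mod n d hd
  have h1 : 1 < d := by nlinarith
  have hdZ : (d : ℤ) + 2 = (n : ℤ) ^ 2 := by exact_mod_cast hd
  obtain ⟨i1, i2⟩ := ufm_order_even (m := E1.w 2 n) (B := (2 : ℕ) * n - 2) hsq h1
    (by unfold E1.w; push_cast; linear_combination 4 * hdZ) (by omega)
    (by push_cast; omega) hU
  have hin := fun (p : ℕ) (hp : p.Prime) (hp2 : p ≠ 2) hpw => E2.inert n d hn3 hd p hp hp2 hpw
  rcases Nat.lt_or_ge n 21 with hs | hs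
  · exact E2.small_arith n d hn hs hd hsq hin
  · exfalso
    exact H n d hs hd (fun p hp hp2 hp37 => hin p hp hp2 (by omega)) (E2.all n d hn3 hd)

/-- **the even discriminants of extended Richaud–Degert type** -/
theorem even_two (H1 : NoLargeBL2) (H2 : NoLargeE2) {d m : ℕ} {r : ℤ}
    (hd4 : d % 4 = 2 ∨ d % 4 = 3) (hsq : Squarefree d) (hm : 1 ≤ m) (hr0 : r ≠ 0)
    (hr : r ∣ 4 * m) (hd : (d : ℤ) = (m : ℤ) ^ 2 + r)
    (hU : UniqueFactorizationMonoid (𝓞 (KQ d))) : d ∈ listE := by
  have h1 : 1 < d := by omega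
  rcases red hd4 hm hr0 hr hd (exists_norm_two hsq h1 (by omega) hU) with
    ⟨n, hn, hdn⟩ | ⟨n, hn, hdn⟩
  · exact BL2.mem_list H1 n d hn hdn hsq hU
  · exact E2.mem_list H2 n d hn hdn hsq hU

/-- the even case as an equivalence -/
theorem even_iff (H1 : NoLargeBL2) (H2 : NoLargeE2) {d m : ℕ} {r : ℤ}
    (hd4 : d % 4 = 2 ∨ d % 4 = 3) (hsq : Squarefree d) (hm : 1 ≤ m) (hr0 : r ≠ 0)
    (hr : r ∣ 4 * m) (hd : (d : ℤ) = (m : ℤ) ^ 2 + r) :
    UniqueFactorizationMonoid (𝓞 (KQ d)) ↔ d ∈ listE :=
  ⟨fun hU => even_two H1 H2 hd4 hsq hm hr0 hr hd hU, fun h => ufd_listE hsq h⟩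

end Pool.Agent.Lib_helper5.RDF


end

section

/-!
The even part of the Richaud–Degert list, from the two eliminations.
-/

namespace Pool.Agent.Lib_helper5.RDF

open Finset (range)
open Pool.Agent.LibH4 Pool.Agent.LibH4.FA Pool.Agent.RDF
open scoped NumberField

lemma jacobi_four {d p : ℕ} (hp : p.Prime) (hp2 : p ≠ 2) :
    jacobiSym (((4 * d : ℕ) : ℤ)) p = jacobiSym d p := by
  push_cast
  rw [jacobiSym.mul_left]
  have h5 : jacobiSym (4 : ℤ) p = 1 := by
    have h6 : (4 : ℤ) = 2 * 2 := by norm_num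
    rw [h6, jacobiSym.mul_left, ← sq]
    apply jacobiSym.sq_one
    have := (Nat.coprime_primes Nat.prime_two hp).2 (Ne.symm hp2)
    simpa [Int.gcd] using this
  rw [h5, one_mul]

lemma noLargeBL2_of (H : StmtElimPlus) : NoLargeBL2 := by
  intro n _ hin hall
  refine H n (4 * (n ^ 2 + 2)) (by ring) ?_ hall
  intro p hp hp2 hp37
  rw [jacobi_four hp hp2]
  exact hin p hp hp2 hp37

lemma noLargeE2_of (H : StmtElimMinus) : NoLargeE2 := by
  intro n d _ hd hin hall
  refine H n (4 * d) ?_ ?_ hall
  · have e : (2 * n) ^ 2 = 4 * n ^ 2 := by ring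
    rw [e, ← hd]
    ring
  · intro p hp hp2 hp37
    rw [jacobi_four hp hp2]
    exact hin p hp hp2 hp37

/-- **the even part** -/
theorem even_part (H1 : StmtElimPlus) (H2 : StmtElimMinus) (d m : ℕ) (r : ℤ) (hm : 1 ≤ m)
    (hr : r ∣ 4 * m) (hd : (d : ℤ) = (m : ℤ) ^ 2 + r) (hsq : Squarefree d) (h4 : d % 4 ≠ 1)
    (hU : UniqueFactorizationMonoid (𝓞 (KQ d))) :
    d ∈ [2, 3, 6, 7, 11, 14, 23, 38, 47, 62, 83, 167, 227, 398] := by
  have hr0 : r ≠ 0 := by
    rintro rfl
    rw [zero_dvd_iff] at hr
    omega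
  have hd4 : d % 4 = 2 ∨ d % 4 = 3 := by
    have h0 : d % 4 ≠ 0 := by
      intro h0
      have := hsq 2 (Nat.dvd_of_mod_eq_zero h0)
      rw [Nat.isUnit_iff] at this
      omega
    omega
  exact even_two (noLargeBL2_of H1) (noLargeE2_of H2) hd4 hsq hm hr0 hr hd hU

/-- the fourteen even and twenty-nine odd discriminants have class number one -/
theorem ufd_all {d : ℕ} (hsq : Squarefree d)
    (h : d ∈ [2, 3, 6, 7, 11, 14, 23, 38, 47, 62, 83, 167, 227, 398, 5, 13, 17, 21, 29, 33, 37, 53,
      69, 77, 93, 101, 141, 173, 197, 213, 237, 293, 413, 437, 453, 573, 677, 717, 1077, 1133,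
      1253, 1293, 1757]) :
    UniqueFactorizationMonoid (𝓞 (KQ d)) :=
  ufd_list hsq (by simpa only [listE, listO, List.cons_append, List.nil_append] using h)

end Pool.Agent.Lib_helper5.RDF


end

section

/-! generated data -/

namespace Pool.Agent.LibH4.KF

open Ker T6 Pool.Agent.RDF

/-- classes -/
def CRGb_17 : List (ℕ × ℕ) := [((nat_lit 2), (nat_lit 0)),((nat_lit 2), (nat_lit 2)),((nat_lit 2), (nat_lit 3)),((nat_lit 2), (nat_lit 5)),((nat_lit 2), (nat_lit 6)),((nat_lit 2), (nat_lit 11)),((nat_lit 2), (nat_lit 12)),((nat_lit 2), (nat_lit 14)),((nat_lit 2), (nat_lit 15))]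

lemma memRGb_17 : memCheck (nat_lit 17) (spc (nat_lit 2) (clG (nat_lit 17))) CRGb_17 = true := by decide +kernel

/-- classes -/
def CRGb_13 : List (ℕ × ℕ) := [((nat_lit 2), (nat_lit 0)),((nat_lit 2), (nat_lit 1)),((nat_lit 2), (nat_lit 3)),((nat_lit 2), (nat_lit 5)),((nat_lit 2), (nat_lit 8)),((nat_lit 2), (nat_lit 10)),((nat_lit 2), (nat_lit 12))]

lemma memRGb_13 : memCheck (nat_lit 13) (spc (nat_lit 2) (clG (nat_lit 13))) CRGb_13 = true := by decide +kernel

/-- classes -/
def CRGb_11 : List (ℕ × ℕ) := [((nat_lit 2), (nat_lit 1)),((nat_lit 2), (nat_lit 2)),((nat_lit 2), (nat_lit 3)),((nat_lit 2), (nat_lit 8)),((nat_lit 2), (nat_lit 9)),((nat_lit 2), (nat_lit 10))]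

lemma memRGb_11 : memCheck (nat_lit 11) (spc (nat_lit 2) (clG (nat_lit 11))) CRGb_11 = true := by decide +kernel

/-- classes -/
def CRGb_5 : List (ℕ × ℕ) := [((nat_lit 2), (nat_lit 0)),((nat_lit 2), (nat_lit 2)),((nat_lit 2), (nat_lit 3))]

lemma memRGb_5 : memCheck (nat_lit 5) (spc (nat_lit 2) (clG (nat_lit 5))) CRGb_5 = true := by decide +kernel

/-- classes -/
def CRGb_19 : List (ℕ × ℕ) := [((nat_lit 2), (nat_lit 0)),((nat_lit 2), (nat_lit 1)),((nat_lit 2), (nat_lit 4)),((nat_lit 2), (nat_lit 5)),((nat_lit 2), (nat_lit 7)),((nat_lit 2), (nat_lit 12)),((nat_lit 2), (nat_lit 14)),((nat_lit 2), (nat_lit 15)),((nat_lit 2), (nat_lit 18))]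

lemma memRGb_19 : memCheck (nat_lit 19) (spc (nat_lit 2) (clG (nat_lit 19))) CRGb_19 = true := by decide +kernel

/-- table -/
def TBRGb_17_13_5_0 : ℕ := nat_lit 25287311410128639508240657739605179599865851786306795755772379156011222071230968873319763809334580397373243283878832324630162344674965589232520658477481604155488998902667813436766125599610835717098185114938491526473352210555155

theorem ctRGb_17_13_5_0 : checkR (nat_lit 84) (nat_lit 17) (nat_lit 13) (nat_lit 5) (nat_lit 23207668197802189840) (nat_lit 1165560225469200)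
    DR_17_13_5_0 formsG P13 CRGb_17 CRGb_13 TBRGb_17_13_5_0 = true :=
  KV.checkV_spec (by decide +kernel : KV.checkV (nat_lit 3) (nat_lit 84) (nat_lit 17) (nat_lit 13) (nat_lit 5) (nat_lit 23207668197802189840) (nat_lit 1165560225469200)
    DR_17_13_5_0 formsG P13 CRGb_17 CRGb_13 TBRGb_17_13_5_0 = true)

/-- table -/
def TBRGb_13_11_5_0 : ℕ := nat_lit 9366007982706328892510633233881410979155588393019198714400830546194785933220674125991015109323979092104572031157137943848469711512622948669206530

theorem ctRGb_13_11_5_0 : checkR (nat_lit 72) (nat_lit 13) (nat_lit 11) (nat_lit 5) (nat_lit 353030276977680) (nat_lit 4485087826960)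
    DR_13_11_5_0 formsG P11 CRGb_13 CRGb_11 TBRGb_13_11_5_0 = true :=
  KV.checkV_spec (by decide +kernel : KV.checkV (nat_lit 3) (nat_lit 72) (nat_lit 13) (nat_lit 11) (nat_lit 5) (nat_lit 353030276977680) (nat_lit 4485087826960)
    DR_13_11_5_0 formsG P11 CRGb_13 CRGb_11 TBRGb_13_11_5_0 = true)

/-- table -/
def TBRGb_5_19_13_0 : ℕ := nat_lit 9393100386480523954318026354666233061071637367693850159805970898049828623802114665804018316962170

theorem ctRGb_5_19_13_0 : checkR (nat_lit 108) (nat_lit 5) (nat_lit 19) (nat_lit 13) (nat_lit 808976) (nat_lit 7548839422382730090768)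
    DR_5_19_13_0 formsG P19 CRGb_5 CRGb_19 TBRGb_5_19_13_0 = true :=
  KV.checkV_spec (by decide +kernel : KV.checkV (nat_lit 4) (nat_lit 108) (nat_lit 5) (nat_lit 19) (nat_lit 13) (nat_lit 808976) (nat_lit 7548839422382730090768)
    DR_5_19_13_0 formsG P19 CRGb_5 CRGb_19 TBRGb_5_19_13_0 = true)

/-- table -/
def TBRGb_17_19_13_0 : ℕ := nat_lit 25344008684988228900645065267966884631637459028063415843166633985237115611556571793156255979879825077406581125769731199255112606496471745655241219991156479627089576615105423839474671188104932272578398959483618938528529367346102767892345895389760010397592750697894304458654403216228554110641084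

theorem ctRGb_17_19_13_0 : checkR (nat_lit 108) (nat_lit 17) (nat_lit 19) (nat_lit 13) (nat_lit 32648151485734018064) (nat_lit 56996749644674662255632)
    DR_17_19_13_0 formsG P19 CRGb_17 CRGb_19 TBRGb_17_19_13_0 = true :=
  KV.checkV_spec (by decide +kernel : KV.checkV (nat_lit 4) (nat_lit 108) (nat_lit 17) (nat_lit 19) (nat_lit 13) (nat_lit 32648151485734018064) (nat_lit 56996749644674662255632)
    DR_17_19_13_0 formsG P19 CRGb_17 CRGb_19 TBRGb_17_19_13_0 = true)

/-- stage -/
def stRGb_4 (a13 r_17_19_13_0 r_5_19_13_0 t13 : ℕ) : Bool :=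
  allI (fun i19 c19 =>
    imp (chkG (nat_lit 13) (dg (nat_lit 12) r_5_19_13_0 i19) a13 t13) <|
    imp (chkG (nat_lit 13) (dg (nat_lit 12) r_17_19_13_0 i19) a13 t13) <|
    false) CRGb_19 (nat_lit 0)

/-- stage -/
def stRGb_3 (a13 e_13_11_5_0 e_17_13_5_0 r_17_19_13_0 t13 : ℕ) : Bool :=
  allI (fun i5 c5 =>
    imp (chkG (nat_lit 5) e_17_13_5_0 c5.1 c5.2) <|
    imp (chkG (nat_lit 5) e_13_11_5_0 c5.1 c5.2) <|
    strict (dg (nat_lit 108) TBRGb_5_19_13_0 i5) fun r_5_19_13_0 =>
    stRGb_4 a13 r_17_19_13_0 r_5_19_13_0 t13) CRGb_5 (nat_lit 0)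

/-- stage -/
def stRGb_2 (a13 e_17_13_5_0 r_13_11_5_0 r_17_19_13_0 t13 : ℕ) : Bool :=
  allI (fun i11 c11 =>
    strict (dg (nat_lit 12) r_13_11_5_0 i11) fun e_13_11_5_0 =>
    stRGb_3 a13 e_13_11_5_0 e_17_13_5_0 r_17_19_13_0 t13) CRGb_11 (nat_lit 0)

/-- stage -/
def stRGb_1 (r_17_13_5_0 r_17_19_13_0 : ℕ) : Bool :=
  allI (fun i13 c13 =>
    strict (dg (nat_lit 12) r_17_13_5_0 i13) fun e_17_13_5_0 =>
    strict (dg (nat_lit 72) TBRGb_13_11_5_0 i13) fun r_13_11_5_0 =>
    stRGb_2 c13.1 e_17_13_5_0 r_13_11_5_0 r_17_19_13_0 c13.2) CRGb_13 (nat_lit 0)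

/-- stage -/
def bdRGb (i17 : ℕ) (c17 : ℕ × ℕ) : Bool :=
    strict (dg (nat_lit 84) TBRGb_17_13_5_0 i17) fun r_17_13_5_0 =>
    strict (dg (nat_lit 108) TBRGb_17_19_13_0 i17) fun r_17_19_13_0 =>
    stRGb_1 r_17_13_5_0 r_17_19_13_0

theorem allRGb : allI (fun i c => bdRGb i c) CRGb_17 (nat_lit 0) = true := by
  decide +kernel

theorem falseRGb {a t : ℕ} {i17 i13 i11 i5 i19 : ℕ}
    (b17 : i17 < CRGb_17.length)
    (b13 : i13 < CRGb_13.length)
    (b11 : i11 < CRGb_11.length)
    (b5 : i5 < CRGb_5.length)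
    (b19 : i19 < CRGb_19.length)
    (top : bdRGb i17 CRGb_17[i17] = true)
    (h17 : CRGb_17[i17] = (a % 17, t % 17))
    (h13 : CRGb_13[i13] = (a % 13, t % 13))
    (h11 : CRGb_11[i11] = (a % 11, t % 11))
    (h5 : CRGb_5[i5] = (a % 5, t % 5))
    (h19 : CRGb_19[i19] = (a % 19, t % 19))
    (r_17_13_5_0 : chkG 5 (dg 12 (dg 84 TBRGb_17_13_5_0 i17) i13) (a % 5) (t % 5) = true)
    (r_13_11_5_0 : chkG 5 (dg 12 (dg 72 TBRGb_13_11_5_0 i13) i11) (a % 5) (t % 5) = true)
    (r_5_19_13_0 : chkG 13 (dg 12 (dg 108 TBRGb_5_19_13_0 i5) i19) (a % 13) (t % 13) = true)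
    (r_17_19_13_0 : chkG 13 (dg 12 (dg 108 TBRGb_17_19_13_0 i17) i19) (a % 13) (t % 13) = true)
    : False := by
  try rw [h17] at top
  unfold bdRGb at top
  simp only [strict_eq] at top
  unfold stRGb_1 at top
  replace top := allI_get top b13
  try rw [h13] at top
  simp only [strict_eq] at top
  unfold stRGb_2 at top
  replace top := allI_get top b11
  try rw [h11] at top
  simp only [strict_eq] at top
  unfold stRGb_3 at top
  replace top := allI_get top b5
  try rw [h5] at top
  simp only [strict_eq] at top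
  replace top := imp_spec top r_17_13_5_0
  replace top := imp_spec top r_13_11_5_0
  unfold stRGb_4 at top
  replace top := allI_get top b19
  try rw [h19] at top
  replace top := imp_spec top r_5_19_13_0
  replace top := imp_spec top r_17_19_13_0
  exact Bool.false_ne_true top

/-- no field with `a = 7` -/
theorem noG7 {a n d : ℕ} (ha : a = 2) (hd : (d : ℤ) = (2 * FE.aa a * n) ^ 2 - FE.aa a)
    (j5 : jacobiSym d 5 = -1)
    (j11 : jacobiSym d 11 = -1)
    (j13 : jacobiSym d 13 = -1)
    (j17 : jacobiSym d 17 = -1)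
    (j19 : jacobiSym d 19 = -1)
    (hT : AllG a n d) : False := by
  have q5 : ¬ 5 ∣ d := nd_of (by norm_num) j5
  have q11 : ¬ 11 ∣ d := nd_of (by norm_num) j11
  have q13 : ¬ 13 ∣ d := nd_of (by norm_num) j13
  have q17 : ¬ 17 ∣ d := nd_of (by norm_num) j17
  have q19 : ¬ 19 ∣ d := nd_of (by norm_num) j19
  have c17 : Nat.Coprime 17 d := cop_of (p := 17) (k := 1) (by norm_num) q17
  have c13 : Nat.Coprime 13 d := cop_of (p := 13) (k := 1) (by norm_num) q13
  have c11 : Nat.Coprime 11 d := cop_of (p := 11) (k := 1) (by norm_num) q11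
  have c5 : Nat.Coprime 5 d := cop_of (p := 5) (k := 1) (by norm_num) q5
  have c19 : Nat.Coprime 19 d := cop_of (p := 19) (k := 1) (by norm_num) q19
  obtain ⟨i17, b17, e17⟩ := memCheck_spec memRGb_17 (Nat.mod_lt a (by norm_num))
    (Nat.mod_lt n (by norm_num)) (spc_of (clG_of (n := 17) (by norm_num) (by norm_num) hd j17) (by rw [ha]))
  obtain ⟨i13, b13, e13⟩ := memCheck_spec memRGb_13 (Nat.mod_lt a (by norm_num))
    (Nat.mod_lt n (by norm_num)) (spc_of (clG_of (n := 13) (by norm_num) (by norm_num) hd j13) (by rw [ha]))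
  obtain ⟨i11, b11, e11⟩ := memCheck_spec memRGb_11 (Nat.mod_lt a (by norm_num))
    (Nat.mod_lt n (by norm_num)) (spc_of (clG_of (n := 11) (by norm_num) (by norm_num) hd j11) (by rw [ha]))
  obtain ⟨i5, b5, e5⟩ := memCheck_spec memRGb_5 (Nat.mod_lt a (by norm_num))
    (Nat.mod_lt n (by norm_num)) (spc_of (clG_of (n := 5) (by norm_num) (by norm_num) hd j5) (by rw [ha]))
  obtain ⟨i19, b19, e19⟩ := memCheck_spec memRGb_19 (Nat.mod_lt a (by norm_num))
    (Nat.mod_lt n (by norm_num)) (spc_of (clG_of (n := 19) (by norm_num) (by norm_num) hd j19) (by rw [ha]))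
  exact falseRGb b17 b13 b11 b5 b19 (allI_get allRGb b17)
    e17 e13 e11 e5 e19
    (chkG_of hyp_17_13_5_0 dr_17_13_5_0 ctRGb_17_13_5_0 hT (by norm_num) (by norm_num) (c17.mul_left c13) q5 b17 b13 e17 e13)
    (chkG_of hyp_13_11_5_0 dr_13_11_5_0 ctRGb_13_11_5_0 hT (by norm_num) (by norm_num) (c13.mul_left c11) q5 b13 b11 e13 e11)
    (chkG_of hyp_5_19_13_0 dr_5_19_13_0 ctRGb_5_19_13_0 hT (by norm_num) (by norm_num) (c5.mul_left c19) q13 b5 b19 e5 e19)
    (chkG_of hyp_17_19_13_0 dr_17_19_13_0 ctRGb_17_19_13_0 hT (by norm_num) (by norm_num) (c17.mul_left c19) q13 b17 b19 e17 e19)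

end Pool.Agent.LibH4.KF


end

section

/-! generated data -/

namespace Pool.Agent.LibH4.KF

open Ker T6

/-- weights -/
def DR_37_5_13_0 : List ((ℕ × ℕ) × ℕ) := [((nat_lit 1, nat_lit 0), nat_lit 30354201441027151532849959433304038041287453106938982294296595682664225396240678912),
  ((nat_lit 1, nat_lit 1), nat_lit 30354780415608114634111076561259124053893417783135099676319802623638699364770381832),
  ((nat_lit 1, nat_lit 2), nat_lit 30355475164609844404195087332679192852010085132907483300492140824827311402801758218),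
  ((nat_lit 1, nat_lit 3), nat_lit 30354896205930504885939466833584196666286473839887914382021792397881560878551793665),
  ((nat_lit 1, nat_lit 4), nat_lit 30354896195329422497269167133186147048688132542300678797425967926369400333949075465),
  ((nat_lit 1, nat_lit 5), nat_lit 30355011994486048072989504161834648711496535776150075036573856153842154536620457991),
  ((nat_lit 1, nat_lit 6), nat_lit 30355127790108979519153041145807878439571388015787102043313663523996025327708602375),
  ((nat_lit 1, nat_lit 7), nat_lit 30354896200629963691604301290630833390651589130429554316725569253880673856767262729),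
  ((nat_lit 1, nat_lit 8), nat_lit 30355127779507897130482760276715034981881533754376952342867873049910930306453012486),
  ((nat_lit 1, nat_lit 9), nat_lit 30354433046407790943404158254730760596871217889545353994254749772015358756046766090),
  ((nat_lit 1, nat_lit 10), nat_lit 30354780410307573439775917295407496164850093928672041435318127908603108195635036161),
  ((nat_lit 1, nat_lit 11), nat_lit 30354780422675502893224569939880166350211248721911725450496069245411414418198364168),
  ((nat_lit 1, nat_lit 12), nat_lit 30354433042874096813847395872665900982021543203282749033396644178487192873700425733),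
  ((nat_lit 1, nat_lit 13), nat_lit 30355012005087130461659810139334433715998648361512039347197991282058893668282204167),
  ((nat_lit 1, nat_lit 14), nat_lit 30355127790108979519153047422909613826319054087172116803492036724114316301898940428),
  ((nat_lit 1, nat_lit 15), nat_lit 30355475162842997339416721834401101511220255143654146930190439872003696065261928459),
  ((nat_lit 1, nat_lit 16), nat_lit 30354433026972473230841943183517958861926837415830693963562884156277986788228464652),
  ((nat_lit 1, nat_lit 17), nat_lit 30355475168143538533751812052133640146864379785227672141743192791425571420526149639),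
  ((nat_lit 1, nat_lit 18), nat_lit 30355012006853977526438137975002112736570090864837653208020956396699977613842776066),
  ((nat_lit 1, nat_lit 19), nat_lit 30355011987418659813875973120603194095339430019820746633271498276137825345338540043),
  ((nat_lit 1, nat_lit 20), nat_lit 30355475162842997339416721834401101511197954398455615831679929068147555417282641926),
  ((nat_lit 1, nat_lit 21), nat_lit 30354433046407790943404139423425554436918129362971206784593481823774155316516356097),
  ((nat_lit 1, nat_lit 22), nat_lit 30355475168143538533751868546049258626857449836141298222629673574160732550328287234),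
  ((nat_lit 1, nat_lit 23), nat_lit 30355127788342132454374637984919374778830779482988409373581055124032820389511495681),
  ((nat_lit 1, nat_lit 24), nat_lit 30355011989185506878654344895983020822453211921687016478659531381749212993309310982),
  ((nat_lit 1, nat_lit 25), nat_lit 30354433030506167360398749505294966183519558207420732101823129490515073172580859912),
  ((nat_lit 1, nat_lit 26), nat_lit 30354780403240185180662379977074306162123728062545941830862757320208101838046887941),
  ((nat_lit 1, nat_lit 27), nat_lit 30354780415608114634111032621546976346994266461417953879946488168833571165445554188),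
  ((nat_lit 1, nat_lit 28), nat_lit 30354433026972473230841918075111017315471391015055368927508298423188154394105085955),
  ((nat_lit 1, nat_lit 29), nat_lit 30355127798943214843045013010538249036798993516835498741535044231208488231766654983),
  ((nat_lit 1, nat_lit 30), nat_lit 30354896209464199015496185275936908574259297949631904882701581883257411164881682436),
  ((nat_lit 1, nat_lit 31), nat_lit 30355127788342132454374688201733257872187687188509672780030728612579076911372238854),
  ((nat_lit 1, nat_lit 32), nat_lit 30355011999786589267324632042177599667069138216070426003644143316395027249603215366),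
  ((nat_lit 1, nat_lit 33), nat_lit 30354896214764740209831344541788536463369524039690554596987051181787289125978243076),
  ((nat_lit 1, nat_lit 34), nat_lit 30354896204163657821161095058204369938927383740837807602848703877008392510331551756),
  ((nat_lit 1, nat_lit 35), nat_lit 30355475166376691468973415168346871872737632852622811840218506024435973102940258307),
  ((nat_lit 1, nat_lit 36), nat_lit 30354780410307573439775854524390142298153959296770461998992670390823909476719132677),
  ((nat_lit 0, nat_lit 1), nat_lit 578960446186583034029937085235233144983661607684875097535443532959644677046272)]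

theorem dr_37_5_13_0 : DR_37_5_13_0 = DRstd 37 5 13 75 111 283775869761167327441946389485679068507816464 117776 P37 P5 :=
  KV.drCheckV_spec (by decide +kernel : KV.drCheckV (nat_lit 37) (nat_lit 5) (nat_lit 185) (nat_lit 13)
    (nat_lit 75) (nat_lit 111) (nat_lit 283775869761167327441946389485679068507816464) (nat_lit 117776) P37 P5 DR_37_5_13_0 = true)

lemma hyp_37_5_13_0 : Hyp 37 5 13 75 111 283775869761167327441946389485679068507816464 117776 P37 P5 :=
  mkHyp (by norm_num) (by norm_num) (by norm_num) (by norm_num) (by norm_num)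
    (by decide +kernel : tabCheck (nat_lit 37) (nat_lit 13) (nat_lit 283775869761167327441946389485679068507816464) = true)
    (by decide +kernel : tabCheck (nat_lit 5) (nat_lit 13) (nat_lit 117776) = true)
    (by decide +kernel : obCheck (nat_lit 37) (nat_lit 5) (nat_lit 185) (nat_lit 13) (nat_lit 283775869761167327441946389485679068507816464) (nat_lit 117776) = true)
    isP1_37 isP1_5 (by decide) (by decide) (by norm_num) (by norm_num) (by norm_num)

end Pool.Agent.LibH4.KF


end

section

/-! generated data -/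

namespace Pool.Agent.LibH4.KF

open Ker T6

/-- weights -/
def DR_37_7_13_0 : List ((ℕ × ℕ) × ℕ) := [((nat_lit 1, nat_lit 0), nat_lit 6407961113730631849753597962646126447731051933138586416922343993180175850497939783790525950197760),
  ((nat_lit 1, nat_lit 1), nat_lit 27521983398288917026311437521138487380048570518845997850378489716161329354820602253122094200387595178868736),
  ((nat_lit 1, nat_lit 2), nat_lit 110087933573931784779968198100406361751322354766418019081823424230340249207865308905802454140148180899069961),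
  ((nat_lit 1, nat_lit 3), nat_lit 82566370134189987203190255767400142172751017706318487090803259055405507537653338988796379133818910380392453),
  ((nat_lit 1, nat_lit 4), nat_lit 82567070054421917764519438786063872466034501252771571764048335325410053644441032966003170934543211516919815),
  ((nat_lit 1, nat_lit 5), nat_lit 36697657670805869018985583773286555450018600722427058777441314846331819452417984499283693524173180230434817),
  ((nat_lit 1, nat_lit 6), nat_lit 91741204502428622517296150033053845206954028965135475524408489741594505810848089898736412517274170851065865),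
  ((nat_lit 1, nat_lit 7), nat_lit 82566930070375531650264309236691991146577490132587277151472588267801924834160757891694905203291012712103944),
  ((nat_lit 1, nat_lit 8), nat_lit 91740084630057533615688194548323337025887961720221424438221104737265695679495751733491312218091510103539713),
  ((nat_lit 1, nat_lit 9), nat_lit 9174274438461051974297270572788229208696825611170624060040492753103379649633359588477132572792470066167814),
  ((nat_lit 1, nat_lit 10), nat_lit 27522403350428075363606270568746527746428212944676899915773854283372395244191471731057162988649713661640711),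
  ((nat_lit 1, nat_lit 11), nat_lit 27522823302567233703387719798403497789890637054372813387310311048105833846778816527701415333910821963038730),
  ((nat_lit 1, nat_lit 12), nat_lit 9174974358692982541594332428369404508386090470444391038352744961477834999463629539345825794788696495489036),
  ((nat_lit 1, nat_lit 13), nat_lit 36696957750573938457159077518213026146650281479143123282748663905864150625225518397779594936780195142565899),
  ((nat_lit 1, nat_lit 14), nat_lit 91741624454567780852601690135022724869935624171247963647403543724596512899898363610107416267506737347559436),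
  ((nat_lit 1, nat_lit 15), nat_lit 110088493510117329228534221278927568884767909158686448163878141092237907319992906377973677142335065956548617),
  ((nat_lit 1, nat_lit 16), nat_lit 9174974358692982541097009191959632001007226449416146576780001697781426016101620908277765411248726662447115),
  ((nat_lit 1, nat_lit 17), nat_lit 110089053446302873684062769767185785474694685468229155637273469061828513852759458417941669676446273146716171),
  ((nat_lit 1, nat_lit 18), nat_lit 36696117846295621777596179058899089593419562816494847099329204804667783939365256344591109014873524074971136),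
  ((nat_lit 1, nat_lit 19), nat_lit 36697657670805869017990937300466982165707836226095754486828082259447402494222360729504324473165687736500224),
  ((nat_lit 1, nat_lit 20), nat_lit 110088633494163715342789350828299453737919049835702172960402756398719935282411884812771960388877803340169218),
  ((nat_lit 1, nat_lit 21), nat_lit 9174834374646596425349909933358373086613420800879045491838625136389430903822120423634032954103978616946690),
  ((nat_lit 1, nat_lit 22), nat_lit 110089193430349259794339313425279396625920480722253999417119236724793800041728627485452870799522510875394052),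
  ((nat_lit 1, nat_lit 23), nat_lit 91740084630057533615688194548323354694358609504039611864254565465696255995172829878202259342374402573467649),
  ((nat_lit 1, nat_lit 24), nat_lit 36696817766527552341909301496021568009188376305865142314700069657005115777981275567991724833036767384829954),
  ((nat_lit 1, nat_lit 25), nat_lit 9174834374646596425349909933358369552919291244160603139126717252768301953953953853662392141016376153210881),
  ((nat_lit 1, nat_lit 26), nat_lit 27522963286613619814658909929316678691733067247960302291174309589111053353670455708184543445167638593929219),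
  ((nat_lit 1, nat_lit 27), nat_lit 27523383238752778154440359158973625766183649238659931179843256695903786198968171087895025645936846162624518),
  ((nat_lit 1, nat_lit 28), nat_lit 9175534294878526992646971788939566054773333444115373236098231619258943733409495313805321997381739451777031),
  ((nat_lit 1, nat_lit 29), nat_lit 91741624454567780852601690135022731937323883284791559082328933287831431205135458494481620662158495968133132),
  ((nat_lit 1, nat_lit 30), nat_lit 82566790086329145541479735287827736388123712066196574114920867509109380604535534180551685034729058496151557),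
  ((nat_lit 1, nat_lit 31), nat_lit 91740504582196691950993734650292234357340204710183485495926552741013716038686026213975183506587481712623620),
  ((nat_lit 1, nat_lit 32), nat_lit 36696117846295621779088148768128453053579839117647474870607094482217865450661834179549272913670231486889996),
  ((nat_lit 1, nat_lit 33), nat_lit 82566650102282759428716575447685193792968070349809401514399546696555652062307916643043651092466229261107206),
  ((nat_lit 1, nat_lit 34), nat_lit 82567350022514689990045758466348943521569266458433617688298650922586369372486243178383531033551593298460680),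
  ((nat_lit 1, nat_lit 35), nat_lit 110087933573931784779968198100406354683934095652886977850368807961730766885883235298628385224465827093282820),
  ((nat_lit 1, nat_lit 36), nat_lit 27521983398288917030290023412416796418915211509485807922595032311871334529653929810252442280326641066442752),
  ((nat_lit 0, nat_lit 1), nat_lit 27521983391880955923024593635990421270594924730926153252844307929401874545062867599933284984021258577379328)]

theorem dr_37_7_13_0 : DR_37_7_13_0 = DRstd 37 7 13 112 148 276253319472027154998219359486781036551644944 26425616 P37 P7 :=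
  KV.drCheckV_spec (by decide +kernel : KV.drCheckV (nat_lit 37) (nat_lit 7) (nat_lit 259) (nat_lit 13)
    (nat_lit 112) (nat_lit 148) (nat_lit 276253319472027154998219359486781036551644944) (nat_lit 26425616) P37 P7 DR_37_7_13_0 = true)

lemma hyp_37_7_13_0 : Hyp 37 7 13 112 148 276253319472027154998219359486781036551644944 26425616 P37 P7 :=
  mkHyp (by norm_num) (by norm_num) (by norm_num) (by norm_num) (by norm_num)
    (by decide +kernel : tabCheck (nat_lit 37) (nat_lit 13) (nat_lit 276253319472027154998219359486781036551644944) = true)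
    (by decide +kernel : tabCheck (nat_lit 7) (nat_lit 13) (nat_lit 26425616) = true)
    (by decide +kernel : obCheck (nat_lit 37) (nat_lit 7) (nat_lit 259) (nat_lit 13) (nat_lit 276253319472027154998219359486781036551644944) (nat_lit 26425616) = true)
    isP1_37 isP1_7 (by decide) (by decide) (by norm_num) (by norm_num) (by norm_num)

end Pool.Agent.LibH4.KF


end

section

/-! generated data -/

namespace Pool.Agent.LibH4.KF

open Ker T6 Pool.Agent.RDF

/-- classes -/
def CRM_37 : List (ℕ × ℕ) := [((nat_lit 2), (nat_lit 0)),((nat_lit 2), (nat_lit 2)),((nat_lit 2), (nat_lit 4)),((nat_lit 2), (nat_lit 5)),((nat_lit 2), (nat_lit 9)),((nat_lit 2), (nat_lit 10)),((nat_lit 2), (nat_lit 11)),((nat_lit 2), (nat_lit 12)),((nat_lit 2), (nat_lit 13)),((nat_lit 2), (nat_lit 16)),((nat_lit 2), (nat_lit 21)),((nat_lit 2), (nat_lit 24)),((nat_lit 2), (nat_lit 25)),((nat_lit 2), (nat_lit 26)),((nat_lit 2), (nat_lit 27)),((nat_lit 2), (nat_lit 28)),((nat_lit 2), (nat_lit 32)),((nat_lit 2), (nat_lit 33)),((nat_lit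 2), (nat_lit 35))]

lemma memRM_37 : memCheck (nat_lit 37) (spc (nat_lit 2) (clE (nat_lit 37))) CRM_37 = true := by decide +kernel

/-- classes -/
def CRM_7 : List (ℕ × ℕ) := [((nat_lit 2), (nat_lit 0)),((nat_lit 2), (nat_lit 1)),((nat_lit 2), (nat_lit 6))]

lemma memRM_7 : memCheck (nat_lit 7) (spc (nat_lit 2) (clE (nat_lit 7))) CRM_7 = true := by decide +kernel

/-- classes -/
def CRM_13 : List (ℕ × ℕ) := [((nat_lit 2), (nat_lit 0)),((nat_lit 2), (nat_lit 2)),((nat_lit 2), (nat_lit 3)),((nat_lit 2), (nat_lit 6)),((nat_lit 2), (nat_lit 7)),((nat_lit 2), (nat_lit 10)),((nat_lit 2), (nat_lit 11))]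

lemma memRM_13 : memCheck (nat_lit 13) (spc (nat_lit 2) (clE (nat_lit 13))) CRM_13 = true := by decide +kernel

/-- classes -/
def CRM_5 : List (ℕ × ℕ) := [((nat_lit 2), (nat_lit 0)),((nat_lit 2), (nat_lit 2)),((nat_lit 2), (nat_lit 3))]

lemma memRM_5 : memCheck (nat_lit 5) (spc (nat_lit 2) (clE (nat_lit 5))) CRM_5 = true := by decide +kernel

/-- classes -/
def CRM_3 : List (ℕ × ℕ) := [((nat_lit 2), (nat_lit 1)),((nat_lit 2), (nat_lit 2))]

lemma memRM_3 : memCheck (nat_lit 3) (spc (nat_lit 2) (clE (nat_lit 3))) CRM_3 = true := by decide +kernel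

/-- classes -/
def CRM_23 : List (ℕ × ℕ) := [((nat_lit 2), (nat_lit 0)),((nat_lit 2), (nat_lit 1)),((nat_lit 2), (nat_lit 3)),((nat_lit 2), (nat_lit 4)),((nat_lit 2), (nat_lit 6)),((nat_lit 2), (nat_lit 9)),((nat_lit 2), (nat_lit 14)),((nat_lit 2), (nat_lit 17)),((nat_lit 2), (nat_lit 19)),((nat_lit 2), (nat_lit 20)),((nat_lit 2), (nat_lit 22))]

lemma memRM_23 : memCheck (nat_lit 23) (spc (nat_lit 2) (clE (nat_lit 23))) CRM_23 = true := by decide +kernel

/-- classes -/
def CRM_21 : List (ℕ × ℕ) := [((nat_lit 2), (nat_lit 7)),((nat_lit 2), (nat_lit 1)),((nat_lit 2), (nat_lit 13)),((nat_lit 2), (nat_lit 14)),((nat_lit 2), (nat_lit 8)),((nat_lit 2), (nat_lit 20))]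

lemma lenRM_21 : CRM_7.length = 3 := by decide +kernel

lemma prdRM_21 {a t i j : ℕ} (hi : i < CRM_3.length) (hj : j < CRM_7.length)
    (h1 : CRM_3[i] = (a % 3, t % 3)) (h2 : CRM_7[j] = (a % 7, t % 7)) :
    ∃ h : i * 3 + j < CRM_21.length, CRM_21[i * 3 + j] = (a % 21, t % 21) := by
  have e : CRM_21 = prodL 21 7 15 CRM_3 CRM_7 := by decide +kernel
  obtain ⟨h3, h4⟩ := prodL_get 21 7 15 CRM_3 CRM_7 hi hj
  rw [h1, h2] at h4
  simp only [lenRM_21] at h3 h4
  simp only [← e] at h3 h4
  refine ⟨h3, ?_⟩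
  rw [h4]
  ext
  · change (a % 3 * 7 + a % 7 * 15) % 21 = a % 21
    omega
  · change (t % 3 * 7 + t % 7 * 15) % 21 = t % 21
    omega

/-- classes -/
def CRM_35 : List (ℕ × ℕ) := [((nat_lit 2), (nat_lit 0)),((nat_lit 2), (nat_lit 15)),((nat_lit 2), (nat_lit 20)),((nat_lit 2), (nat_lit 7)),((nat_lit 2), (nat_lit 22)),((nat_lit 2), (nat_lit 27)),((nat_lit 2), (nat_lit 28)),((nat_lit 2), (nat_lit 8)),((nat_lit 2), (nat_lit 13))]

lemma lenRM_35 : CRM_7.length = 3 := by decide +kernel

lemma prdRM_35 {a t i j : ℕ} (hi : i < CRM_5.length) (hj : j < CRM_7.length)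
    (h1 : CRM_5[i] = (a % 5, t % 5)) (h2 : CRM_7[j] = (a % 7, t % 7)) :
    ∃ h : i * 3 + j < CRM_35.length, CRM_35[i * 3 + j] = (a % 35, t % 35) := by
  have e : CRM_35 = prodL 35 21 15 CRM_5 CRM_7 := by decide +kernel
  obtain ⟨h3, h4⟩ := prodL_get 35 21 15 CRM_5 CRM_7 hi hj
  rw [h1, h2] at h4
  simp only [lenRM_35] at h3 h4
  simp only [← e] at h3 h4
  refine ⟨h3, ?_⟩
  rw [h4]
  ext
  · change (a % 5 * 21 + a % 7 * 15) % 35 = a % 35
    omega
  · change (t % 5 * 21 + t % 7 * 15) % 35 = t % 35
    omega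

/-- table -/
def TBRM_37_7_13_0 : ℕ := nat_lit 21775936496384106703068138256128497551448649842324499685278911491772523094011687822867237997995633156111409342585010193301932988605697501556142494070629650245165960033899448898145246680952725458455136568176

theorem ctRM_37_7_13_0 : checkR (nat_lit 36) (nat_lit 37) (nat_lit 7) (nat_lit 13) (nat_lit 276253319472027154998219359486781036551644944) (nat_lit 26425616)
    DR_37_7_13_0 formsE P7 CRM_37 CRM_7 TBRM_37_7_13_0 = true :=
  KV.checkV_spec (by decide +kernel : KV.checkV (nat_lit 2) (nat_lit 36) (nat_lit 37) (nat_lit 7) (nat_lit 13) (nat_lit 276253319472027154998219359486781036551644944) (nat_lit 26425616)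
    DR_37_7_13_0 formsE P7 CRM_37 CRM_7 TBRM_37_7_13_0 = true)

/-- table -/
def TBRM_37_7_13_1 : ℕ := nat_lit 5703722062032146132696548838240729347035580323558815088998454648958240823040656632377107380806004735240583477582987434655429891087252845548216829019526157429564847143622026783710583592294934667780051122800

theorem ctRM_37_7_13_1 : checkR (nat_lit 36) (nat_lit 37) (nat_lit 7) (nat_lit 13) (nat_lit 278853695967866967751310547316382614143419664) (nat_lit 20550416)
    DR_37_7_13_1 formsE P7 CRM_37 CRM_7 TBRM_37_7_13_1 = true :=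
  KV.checkV_spec (by decide +kernel : KV.checkV (nat_lit 2) (nat_lit 36) (nat_lit 37) (nat_lit 7) (nat_lit 13) (nat_lit 278853695967866967751310547316382614143419664) (nat_lit 20550416)
    DR_37_7_13_1 formsE P7 CRM_37 CRM_7 TBRM_37_7_13_1 = true)

/-- table -/
def TBRM_37_5_13_0 : ℕ := nat_lit 43453863008372921440164646987611805752215879110742072277120357085575568294509302960084800921052836389783206725736311879974457357238096523404233676025957503313680879910963270635879982227520924668748467754288

theorem ctRM_37_5_13_0 : checkR (nat_lit 36) (nat_lit 37) (nat_lit 5) (nat_lit 13) (nat_lit 283775869761167327441946389485679068507816464) (nat_lit 117776)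
    DR_37_5_13_0 formsE P5 CRM_37 CRM_5 TBRM_37_5_13_0 = true :=
  KV.checkV_spec (by decide +kernel : KV.checkV (nat_lit 2) (nat_lit 36) (nat_lit 37) (nat_lit 5) (nat_lit 13) (nat_lit 283775869761167327441946389485679068507816464) (nat_lit 117776)
    DR_37_5_13_0 formsE P5 CRM_37 CRM_5 TBRM_37_5_13_0 = true)

/-- table -/
def TBRM_21_23_13_0 : ℕ := nat_lit 758713506953535483106159749772009943639309088816384547687555860483530327089313901338283194245147236713783013448052085658711690129308770678358484090318999569861694590547241508909335115083492751324057311941920463431262774268813314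

theorem ctRM_21_23_13_0 : checkR (nat_lit 132) (nat_lit 21) (nat_lit 23) (nat_lit 13) (nat_lit 1967216182370621575465488) (nat_lit 3961355976715083878785683728)
    DR_21_23_13_0 formsE P23 CRM_21 CRM_23 TBRM_21_23_13_0 = true :=
  KV.checkV_spec (by decide +kernel : KV.checkV (nat_lit 4) (nat_lit 132) (nat_lit 21) (nat_lit 23) (nat_lit 13) (nat_lit 1967216182370621575465488) (nat_lit 3961355976715083878785683728)
    DR_21_23_13_0 formsE P23 CRM_21 CRM_23 TBRM_21_23_13_0 = true)

/-- table -/
def TBRM_35_23_13_0 : ℕ := nat_lit 5134263611179107374468234372201638644775633161460986984819774550800753611581394562918560205886545252215825588267528932684775663793508210804987219965635265039534134084070430489054751818180762925931031588627707664124153245186636433352492963131979138369355946990999319001452487194725123806632435080216287526540731407019240779813098745965241118783031295905792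

theorem ctRM_35_23_13_0 : checkR (nat_lit 132) (nat_lit 35) (nat_lit 23) (nat_lit 13) (nat_lit 112357071181482641874692023463643760010256) (nat_lit 3961355976715083878785683728)
    DR_35_23_13_0 formsE P23 CRM_35 CRM_23 TBRM_35_23_13_0 = true :=
  KV.checkV_spec (by decide +kernel : KV.checkV (nat_lit 4) (nat_lit 132) (nat_lit 35) (nat_lit 23) (nat_lit 13) (nat_lit 112357071181482641874692023463643760010256) (nat_lit 3961355976715083878785683728)
    DR_35_23_13_0 formsE P23 CRM_35 CRM_23 TBRM_35_23_13_0 = true)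

/-- stage -/
def stRM_5 (a13 r_21_23_13_0 r_35_23_13_0 t13 : ℕ) : Bool :=
  allI (fun i23 c23 =>
    imp (chkE (nat_lit 13) (dg (nat_lit 12) r_21_23_13_0 i23) a13 t13) <|
    imp (chkE (nat_lit 13) (dg (nat_lit 12) r_35_23_13_0 i23) a13 t13) <|
    false) CRM_23 (nat_lit 0)

/-- stage -/
def stRM_4 (a13 i7 r_35_23_13_0 t13 : ℕ) : Bool :=
  allI (fun i3 c3 =>
    strict (dg (nat_lit 132) TBRM_21_23_13_0 (Nat.add (Nat.mul i3 (nat_lit 3)) i7)) fun r_21_23_13_0 =>
    stRM_5 a13 r_21_23_13_0 r_35_23_13_0 t13) CRM_3 (nat_lit 0)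

/-- stage -/
def stRM_3 (a13 i7 r_37_5_13_0 t13 : ℕ) : Bool :=
  allI (fun i5 c5 =>
    imp (chkE (nat_lit 13) (dg (nat_lit 12) r_37_5_13_0 i5) a13 t13) <|
    strict (dg (nat_lit 132) TBRM_35_23_13_0 (Nat.add (Nat.mul i5 (nat_lit 3)) i7)) fun r_35_23_13_0 =>
    stRM_4 a13 i7 r_35_23_13_0 t13) CRM_5 (nat_lit 0)

/-- stage -/
def stRM_2 (e_37_7_13_0 e_37_7_13_1 i7 r_37_5_13_0 : ℕ) : Bool :=
  allI (fun i13 c13 =>
    imp (chkE (nat_lit 13) e_37_7_13_0 c13.1 c13.2) <|
    imp (chkE (nat_lit 13) e_37_7_13_1 c13.1 c13.2) <|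
    stRM_3 c13.1 i7 r_37_5_13_0 c13.2) CRM_13 (nat_lit 0)

/-- stage -/
def stRM_1 (r_37_5_13_0 r_37_7_13_0 r_37_7_13_1 : ℕ) : Bool :=
  allI (fun i7 c7 =>
    strict (dg (nat_lit 12) r_37_7_13_0 i7) fun e_37_7_13_0 =>
    strict (dg (nat_lit 12) r_37_7_13_1 i7) fun e_37_7_13_1 =>
    stRM_2 e_37_7_13_0 e_37_7_13_1 i7 r_37_5_13_0) CRM_7 (nat_lit 0)

/-- stage -/
def bdRM (i37 : ℕ) (c37 : ℕ × ℕ) : Bool :=
    strict (dg (nat_lit 36) TBRM_37_7_13_0 i37) fun r_37_7_13_0 =>
    strict (dg (nat_lit 36) TBRM_37_7_13_1 i37) fun r_37_7_13_1 =>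
    strict (dg (nat_lit 36) TBRM_37_5_13_0 i37) fun r_37_5_13_0 =>
    stRM_1 r_37_5_13_0 r_37_7_13_0 r_37_7_13_1

theorem allRM : allI (fun i c => bdRM i c) CRM_37 (nat_lit 0) = true := by
  decide +kernel

theorem falseRM {a t : ℕ} {i37 i7 i13 i5 i3 i23 : ℕ}
    (b37 : i37 < CRM_37.length)
    (b7 : i7 < CRM_7.length)
    (b13 : i13 < CRM_13.length)
    (b5 : i5 < CRM_5.length)
    (b3 : i3 < CRM_3.length)
    (b23 : i23 < CRM_23.length)
    (top : bdRM i37 CRM_37[i37] = true)
    (h37 : CRM_37[i37] = (a % 37, t % 37))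
    (h7 : CRM_7[i7] = (a % 7, t % 7))
    (h13 : CRM_13[i13] = (a % 13, t % 13))
    (h5 : CRM_5[i5] = (a % 5, t % 5))
    (h3 : CRM_3[i3] = (a % 3, t % 3))
    (h23 : CRM_23[i23] = (a % 23, t % 23))
    (r_37_7_13_0 : chkE 13 (dg 12 (dg 36 TBRM_37_7_13_0 i37) i7) (a % 13) (t % 13) = true)
    (r_37_7_13_1 : chkE 13 (dg 12 (dg 36 TBRM_37_7_13_1 i37) i7) (a % 13) (t % 13) = true)
    (r_37_5_13_0 : chkE 13 (dg 12 (dg 36 TBRM_37_5_13_0 i37) i5) (a % 13) (t % 13) = true)
    (r_21_23_13_0 : chkE 13 (dg 12 (dg 132 TBRM_21_23_13_0 (i3 * 3 + i7)) i23) (a % 13) (t % 13) = true)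
    (r_35_23_13_0 : chkE 13 (dg 12 (dg 132 TBRM_35_23_13_0 (i5 * 3 + i7)) i23) (a % 13) (t % 13) = true)
    : False := by
  try rw [h37] at top
  unfold bdRM at top
  simp only [strict_eq] at top
  unfold stRM_1 at top
  replace top := allI_get top b7
  try rw [h7] at top
  simp only [strict_eq] at top
  unfold stRM_2 at top
  replace top := allI_get top b13
  try rw [h13] at top
  replace top := imp_spec top r_37_7_13_0
  replace top := imp_spec top r_37_7_13_1
  unfold stRM_3 at top
  replace top := allI_get top b5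
  try rw [h5] at top
  simp only [strict_eq] at top
  replace top := imp_spec top r_37_5_13_0
  unfold stRM_4 at top
  replace top := allI_get top b3
  try rw [h3] at top
  simp only [strict_eq] at top
  unfold stRM_5 at top
  replace top := allI_get top b23
  try rw [h23] at top
  replace top := imp_spec top r_21_23_13_0
  replace top := imp_spec top r_35_23_13_0
  exact Bool.false_ne_true top

/-- no large field in the family `n² - 2` -/
theorem noM {a n d : ℕ} (ha : a = 2) (hd : (d : ℤ) = ((a : ℤ) * n) ^ 2 - 4 * a)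
    (j3 : jacobiSym d 3 = -1)
    (j5 : jacobiSym d 5 = -1)
    (j7 : jacobiSym d 7 = -1)
    (j13 : jacobiSym d 13 = -1)
    (j23 : jacobiSym d 23 = -1)
    (j37 : jacobiSym d 37 = -1)
    (hT : AllE a n d) : False := by
  have q3 : ¬ 3 ∣ d := nd_of (by norm_num) j3
  have q5 : ¬ 5 ∣ d := nd_of (by norm_num) j5
  have q7 : ¬ 7 ∣ d := nd_of (by norm_num) j7
  have q13 : ¬ 13 ∣ d := nd_of (by norm_num) j13
  have q23 : ¬ 23 ∣ d := nd_of (by norm_num) j23
  have q37 : ¬ 37 ∣ d := nd_of (by norm_num) j37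
  have c37 : Nat.Coprime 37 d := cop_of (p := 37) (k := 1) (by norm_num) q37
  have c7 : Nat.Coprime 7 d := cop_of (p := 7) (k := 1) (by norm_num) q7
  have c13 : Nat.Coprime 13 d := cop_of (p := 13) (k := 1) (by norm_num) q13
  have c5 : Nat.Coprime 5 d := cop_of (p := 5) (k := 1) (by norm_num) q5
  have c3 : Nat.Coprime 3 d := cop_of (p := 3) (k := 1) (by norm_num) q3
  have c23 : Nat.Coprime 23 d := cop_of (p := 23) (k := 1) (by norm_num) q23
  have c21 : Nat.Coprime 21 d := c3.mul_left c7
  have c35 : Nat.Coprime 35 d := c5.mul_left c7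
  obtain ⟨i37, b37, e37⟩ := memCheck_spec memRM_37 (Nat.mod_lt a (by norm_num))
    (Nat.mod_lt n (by norm_num)) (spc_of (clE_of (n := 37) (by norm_num) (by norm_num) hd j37) (by rw [ha]))
  obtain ⟨i7, b7, e7⟩ := memCheck_spec memRM_7 (Nat.mod_lt a (by norm_num))
    (Nat.mod_lt n (by norm_num)) (spc_of (clE_of (n := 7) (by norm_num) (by norm_num) hd j7) (by rw [ha]))
  obtain ⟨i13, b13, e13⟩ := memCheck_spec memRM_13 (Nat.mod_lt a (by norm_num))
    (Nat.mod_lt n (by norm_num)) (spc_of (clE_of (n := 13) (by norm_num) (by norm_num) hd j13) (by rw [ha]))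
  obtain ⟨i5, b5, e5⟩ := memCheck_spec memRM_5 (Nat.mod_lt a (by norm_num))
    (Nat.mod_lt n (by norm_num)) (spc_of (clE_of (n := 5) (by norm_num) (by norm_num) hd j5) (by rw [ha]))
  obtain ⟨i3, b3, e3⟩ := memCheck_spec memRM_3 (Nat.mod_lt a (by norm_num))
    (Nat.mod_lt n (by norm_num)) (spc_of (clE_of (n := 3) (by norm_num) (by norm_num) hd j3) (by rw [ha]))
  obtain ⟨i23, b23, e23⟩ := memCheck_spec memRM_23 (Nat.mod_lt a (by norm_num))
    (Nat.mod_lt n (by norm_num)) (spc_of (clE_of (n := 23) (by norm_num) (by norm_num) hd j23) (by rw [ha]))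
  obtain ⟨b21, e21⟩ := prdRM_21 b3 b7 e3 e7
  obtain ⟨b35, e35⟩ := prdRM_35 b5 b7 e5 e7
  exact falseRM b37 b7 b13 b5 b3 b23 (allI_get allRM b37)
    e37 e7 e13 e5 e3 e23
    (chkE_of hyp_37_7_13_0 dr_37_7_13_0 ctRM_37_7_13_0 hT (by norm_num) (by norm_num) (c37.mul_left c7) q13 b37 b7 e37 e7)
    (chkE_of hyp_37_7_13_1 dr_37_7_13_1 ctRM_37_7_13_1 hT (by norm_num) (by norm_num) (c37.mul_left c7) q13 b37 b7 e37 e7)
    (chkE_of hyp_37_5_13_0 dr_37_5_13_0 ctRM_37_5_13_0 hT (by norm_num) (by norm_num) (c37.mul_left c5) q13 b37 b5 e37 e5)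
    (chkE_of hyp_21_23_13_0 dr_21_23_13_0 ctRM_21_23_13_0 hT (by norm_num) (by norm_num) (c21.mul_left c23) q13 b21 b23 e21 e23)
    (chkE_of hyp_35_23_13_0 dr_35_23_13_0 ctRM_35_23_13_0 hT (by norm_num) (by norm_num) (c35.mul_left c23) q13 b35 b23 e35 e23)

end Pool.Agent.LibH4.KF


end
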