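import Mathlib
import Pool.Agent.RQM.V3

/-!
Fast version of the table check `check`, and gluing of pieces of a check over a list.
-/

namespace Pool.Agent.LibH4.KV

open Finset Ker KF T6

/-- the constants of a pair of moduli, with their conditions -/
def withV (n1 n2 q l T1 T2 : ℕ)
    (k : ℕ → ℕ → ℕ → ℕ → ℕ → ℕ → ℕ → ℕ → ℕ → ℕ → Bool) : Bool :=
  andb (Nat.ble (nat_lit 1) q) <| andb (Nat.ble q (nat_lit 1000)) <|
  andb (Nat.ble (nat_lit 2) l) <| andb (Nat.ble l (nat_lit 16)) <|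
  andb (allR (fun x => @Bool.rec (fun _ => Bool) (Nat.beq (cSq n1 n2 l T1 T2 x) (nat_lit 0)) true
    (Nat.beq (Nat.gcd x q) (nat_lit 1))) q) <|
  strict (Nat.succ (Nat.div (nat_lit 1073741824) q)) fun R =>
  (fun O C =>
    (fun J => strict (Nat.mod C (nat_lit 281474976710655)) fun S0 =>
      strict (Nat.mul (nat_lit 48) (Nat.sub q (nat_lit 1))) fun sh =>
      k R (Nat.mul (nat_lit 262143) O) (Nat.sub (Nat.mul (Nat.sub q (nat_lit 1)) O) J) J
        (Nat.mul (nat_lit 1023) (Nat.land C O))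
        (Nat.mul (nat_lit 1023) (Nat.land (Nat.shiftRight C (nat_lit 1)) O))
        (Nat.mul (nat_lit 1023) (Nat.land (Nat.shiftRight C (nat_lit 2)) O))
        (Nat.mul (nat_lit 1023) (Nat.land (Nat.shiftRight C (nat_lit 3)) O)) S0 sh)
      (Nat.div (Nat.sub O q) (nat_lit 281474976710655)))
    (onesv q)
    (packR (nat_lit 48) (fun i => cSq n1 n2 l T1 T2 (Nat.sub (Nat.sub q (nat_lit 1)) i)) q)

lemma withV_spec {n1 n2 l T1 T2 : ℕ}
    {k : ℕ → ℕ → ℕ → ℕ → ℕ → ℕ → ℕ → ℕ → ℕ → ℕ → Bool}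
    (h : withV n1 n2 (n1 * n2) l T1 T2 k = true) :
    ∃ R M I J m0 m1 m2 m3 S0 sh, Cst n1 n2 l T1 T2 R M I J m0 m1 m2 m3 S0 sh ∧
      k R M I J m0 m1 m2 m3 S0 sh = true := by
  unfold withV at h
  obtain ⟨hq, h⟩ := andb_spec h
  obtain ⟨hq1, h⟩ := andb_spec h
  obtain ⟨hl, h⟩ := andb_spec h
  obtain ⟨hl16, h⟩ := andb_spec h
  obtain ⟨hco, h⟩ := andb_spec h
  have hq' : 1 ≤ n1 * n2 := Nat.le_of_ble_eq_true hq
  have hq1' : n1 * n2 ≤ 1000 := Nat.le_of_ble_eq_true hq1
  have hl' : 2 ≤ l := Nat.le_of_ble_eq_true hl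
  have hl16' : l ≤ 16 := Nat.le_of_ble_eq_true hl16
  have hO : onesv (n1 * n2) = packR 48 (fun _ => 1) (n1 * n2) := by
    change (2 ^ (48 * (n1 * n2)) - 1) / 281474976710655 = _
    have e : (281474976710655 : ℕ) = 2 ^ 48 - 1 := by norm_num
    rw [e, ← ones_eq, Nat.mul_div_cancel _ (by norm_num)]
  have hJ : Nat.div (Nat.sub (packR 48 (fun _ => 1) (n1 * n2)) (n1 * n2)) 281474976710655 =
      packR 48 (fun i => n1 * n2 - 1 - i) (n1 * n2) := by
    change (packR 48 (fun _ => 1) (n1 * n2) - n1 * n2) / 281474976710655 = _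
    have e : (281474976710655 : ℕ) = 2 ^ 48 - 1 := by norm_num
    rw [e, ← rev_eq, Nat.add_sub_cancel, Nat.mul_div_cancel _ (by norm_num)]
  have hI : Nat.sub (Nat.mul (Nat.sub (n1 * n2) 1) (packR 48 (fun _ => 1) (n1 * n2)))
      (packR 48 (fun i => n1 * n2 - 1 - i) (n1 * n2)) = packR 48 (fun i => i) (n1 * n2) :=
    iota_eq 48 (n1 * n2)
  have hM : Nat.mul 262143 (packR 48 (fun _ => 1) (n1 * n2)) =
      packR 48 (fun _ => 2 ^ 18 - 1) (n1 * n2) := by
    change 262143 * _ = _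
    rw [packR_mul]
    exact packR_congr fun i _ => by norm_num
  rw [strict_eq, hO] at h
  dsimp only at h
  rw [hJ, strict_eq, strict_eq, hI, hM] at h
  have hCeq : packR 48 (fun i => cSq n1 n2 l T1 T2 (Nat.sub (Nat.sub (n1 * n2) 1) i)) (n1 * n2) =
      packR 48 (fun i => cSq n1 n2 l T1 T2 (n1 * n2 - 1 - i)) (n1 * n2) := rfl
  refine ⟨_, _, _, _, _, _, _, _, _, _, ?_, h⟩
  exact
    { hq := hq'
      hq1 := hq1'
      hl := hl'
      hl16 := hl16'
      hco := by
        intro i hi hc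
        have h2 := allR_spec hco i hi
        cases h3 : Nat.beq (Nat.gcd i (n1 * n2)) (nat_lit 1) with
        | false =>
          rw [h3] at h2
          exact Nat.eq_of_beq_eq_true h2
        | true => exact absurd (Nat.eq_of_beq_eq_true h3) hc
      hR := rfl
      hM := rfl
      hI := rfl
      hJ := rfl
      h0 := by rw [Nat.shiftRight_zero]; rfl
      h1 := rfl
      h2 := rfl
      h3 := rfl
      hS := by
        rw [hCeq]
        exact s0_spec hq' hq1' (by omega) hl16'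
      hsh := rfl }

/-- the table check -/
def checkT (n1 n2 q l e1 e2 T1 T2 J : ℕ) (L1 L2 D1 D2 : List (ℕ × ℕ)) (TB : ℕ) : Bool :=
  withV n1 n2 q l T1 T2 fun R M I JJ m0 m1 m2 m3 S0 sh =>
  mapK (fun P => rowv q l e1 e2 R M I JJ m0 m1 m2 m3 S0 sh L2 P q (nat_lit 0) (nat_lit 0)
    (nat_lit 0)) L1 fun DRs =>
  mapK (ycol1 n2 T2 D2) L2 fun Y1s =>
  mapK (fun x => ycol3 n2 T2 D2 x.1) Y1s fun Ys =>
  allI (fun i c => Nat.beq (dg (Nat.mul (nat_lit 48) J) TB i) (row n1 l T1 DRs Ys c)) D1 (nat_lit 0)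

theorem checkT_spec {n1 n2 l e1 e2 T1 T2 J : ℕ} {L1 L2 D1 D2 : List (ℕ × ℕ)} {TB : ℕ}
    (h : checkT n1 n2 (n1 * n2) l e1 e2 T1 T2 J L1 L2 D1 D2 TB = true) :
    check n1 n2 (n1 * n2) l e1 e2 T1 T2 J L1 L2 D1 D2 TB = true := by
  unfold checkT at h
  obtain ⟨R, M, I, JJ, m0, m1, m2, m3, S0, sh, K, h⟩ := withV_spec h
  rw [check_unfold]
  rw [mapK_eq, mapK_eq, mapK_eq] at h
  have e : (L1.map fun x => (x, rowv (n1 * n2) l e1 e2 R M I JJ m0 m1 m2 m3 S0 sh L2 x (n1 * n2)
      (nat_lit 0) (nat_lit 0) (nat_lit 0))) =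
      L1.map fun P => (P, packL (2 ^ 48) (gW n1 n2 l e1 e2 T1 T2 P) L2) := by
    apply List.map_congr_left
    intro P _
    congr 1
    exact K.row P L2 (n1 * n2) 0 0 0 (fun h => absurd h (lt_irrefl _))
  rw [e, List.map_map] at h
  exact h

/-! ### gluing -/

lemma allI_append {α : Type} {p : ℕ → α → Bool} (A B : List α) (i : ℕ)
    (h1 : allI p A i = true) (h2 : allI p B (i + A.length) = true) :
    allI p (A ++ B) i = true := by
  induction A generalizing i with
  | nil => simpa using h2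
  | cons x xs ih =>
    have h' : @Bool.rec (fun _ => Bool) false (allI p xs (Nat.succ i)) (p i x) = true := h1
    have g' : allI p ((x :: xs) ++ B) i =
      @Bool.rec (fun _ => Bool) false (allI p (xs ++ B) (Nat.succ i)) (p i x) := rfl
    cases hx : p i x with
    | false => rw [hx] at h'; simp at h'
    | true =>
      rw [hx] at h'
      rw [g', hx]
      apply ih (i + 1) h'
      rw [List.length_cons] at h2
      have e : i + (xs.length + 1) = i + 1 + xs.length := by ring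
      rw [e] at h2
      exact h2

theorem glue {α : Type} {p : ℕ → α → Bool} {L : List α} {a m n b s : ℕ} (hb : b = a + m)
    (hs : s = m + n) (hl : b ≤ L.length) (h1 : allI p ((L.drop a).take m) a = true)
    (h2 : allI p ((L.drop b).take n) b = true) : allI p ((L.drop a).take s) a = true := by
  subst hb hs
  rw [List.take_add]
  apply allI_append _ _ _ h1
  rw [List.drop_drop]
  have e : (List.take m (List.drop a L)).length = m := by
    rw [List.length_take, List.length_drop]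
    omega
  rw [e]
  exact h2

end Pool.Agent.LibH4.KV
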