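import Mathlib
import Pool.Agent.RQM.C12
import Pool.Agent.RQM.C20
import Pool.Agent.RQM.C31
import Pool.Agent.RQM.V4

/-! Parts: RDF.KX_G_0 -/

namespace Pool.Agent.LibH4.Ker
end Pool.Agent.LibH4.Ker
namespace Pool.Agent.LibH4.T6
end Pool.Agent.LibH4.T6
namespace Pool.Agent.Lib_helper5.RDF
end Pool.Agent.Lib_helper5.RDF
namespace Pool.Agent.RDF
end Pool.Agent.RDF

section

/-! generated data -/

namespace Pool.Agent.LibH4.KF

open Ker T6 Pool.Agent.RDF

theorem elimRG_0_p0 : allI (fun i c => bdRG i c) ((CRG_7.drop 0).take 1) (nat_lit 0) = true := by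
  decide +kernel

theorem elimRG_0_p1 : allI (fun i c => bdRG i c) ((CRG_7.drop 1).take 1) (nat_lit 1) = true := by
  decide +kernel

theorem elimRG_0_p2 : allI (fun i c => bdRG i c) ((CRG_7.drop 2).take 1) (nat_lit 2) = true := by
  decide +kernel

theorem elimRG_0 : allI (fun i c => bdRG i c) ((CRG_7.drop 0).take 3) (nat_lit 0) = true :=
  KV.glue (b := 1) (m := 1) (n := 2) rfl rfl (by decide) elimRG_0_p0 (
    KV.glue (b := 2) (m := 1) (n := 1) rfl rfl (by decide) elimRG_0_p1 elimRG_0_p2)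

end Pool.Agent.LibH4.KF


end
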