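import Mathlib
import Pool.Agent.RQM.C09
import Pool.Agent.RQM.C12
import Pool.Agent.RQM.C13
import Pool.Agent.RQM.C14
import Pool.Agent.RQM.C15
import Pool.Agent.RQM.C16
import Pool.Agent.RQM.C17
import Pool.Agent.RQM.C19
import Pool.Agent.RQM.C21
import Pool.Agent.RQM.C22
import Pool.Agent.RQM.C23
import Pool.Agent.RQM.C24
import Pool.Agent.RQM.C26
import Pool.Agent.RQM.C34
import Pool.Agent.RQM.C35
import Pool.Agent.RQM.C36
import Pool.Agent.RQM.V3

/-! Parts: Lib_helper4.KN_B, Lib_helper4.KS_B11, Lib_helper4.KS_B13, Lib_helper4.KS_B17, Lib_helper4.KS_B5, Lib_helper4.KS_B7, Lib_helper4.KS_E11, Lib_helper4.KS_E17, Lib_helper4.KS_E19, Lib_helper4.KMain, Lib_helper5.RDMain -/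

namespace Pool.Agent.LibH4
end Pool.Agent.LibH4
namespace Pool.Agent.LibH4.FA
end Pool.Agent.LibH4.FA
namespace Pool.Agent.LibH4.KF
end Pool.Agent.LibH4.KF
namespace Pool.Agent.LibH4.Ker
end Pool.Agent.LibH4.Ker
namespace Pool.Agent.LibH4.T6
end Pool.Agent.LibH4.T6

section

/-! generated data -/

namespace Pool.Agent.LibH4.KF

open Ker T6

lemma topB {i : ℕ} (hi : i < CB_16.length) : bdB i CB_16[i] = true := by
  have hlen : CB_16.length = 64 := by decide +kernel
  rcases lt_or_ge i 16 with h | h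
  · exact allI_take elimB_0 hi (by omega) (by omega)
  rcases lt_or_ge i 32 with h | h
  · exact allI_take elimB_1 hi (by omega) (by omega)
  rcases lt_or_ge i 48 with h | h
  · exact allI_take elimB_2 hi (by omega) (by omega)
  exact allI_take elimB_3 hi (by omega) (by omega)

/-- no large solution -/
theorem noB {a n d : ℕ} (ha2 : a % 2 = 1) (hn2 : n % 2 = 1)
    (hd : (d : ℤ) = ((a : ℤ) * n) ^ 2 + 4 * a)
    (j3 : jacobiSym d 3 = -1)
    (j5 : jacobiSym d 5 = -1)
    (j7 : jacobiSym d 7 = -1)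
    (j11 : jacobiSym d 11 = -1)
    (j13 : jacobiSym d 13 = -1)
    (j17 : jacobiSym d 17 = -1)
    (j19 : jacobiSym d 19 = -1)
    (hT : AllB a n d) : False := by
  have q2 := d2_B hd ha2 hn2
  have q3 : ¬ 3 ∣ d := nd_of (by norm_num) j3
  have q5 : ¬ 5 ∣ d := nd_of (by norm_num) j5
  have q7 : ¬ 7 ∣ d := nd_of (by norm_num) j7
  have q11 : ¬ 11 ∣ d := nd_of (by norm_num) j11
  have q13 : ¬ 13 ∣ d := nd_of (by norm_num) j13
  have q17 : ¬ 17 ∣ d := nd_of (by norm_num) j17
  have q19 : ¬ 19 ∣ d := nd_of (by norm_num) j19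
  have c16 : Nat.Coprime 16 d := cop_of (p := 2) (k := 4) (by norm_num) q2
  have c13 : Nat.Coprime 13 d := cop_of (p := 13) (k := 1) (by norm_num) q13
  have c5 : Nat.Coprime 5 d := cop_of (p := 5) (k := 1) (by norm_num) q5
  have c7 : Nat.Coprime 7 d := cop_of (p := 7) (k := 1) (by norm_num) q7
  have c9 : Nat.Coprime 9 d := cop_of (p := 3) (k := 2) (by norm_num) q3
  have c11 : Nat.Coprime 11 d := cop_of (p := 11) (k := 1) (by norm_num) q11
  have c17 : Nat.Coprime 17 d := cop_of (p := 17) (k := 1) (by norm_num) q17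
  have c19 : Nat.Coprime 19 d := cop_of (p := 19) (k := 1) (by norm_num) q19
  obtain ⟨i16, b16, e16⟩ := memCheck_spec memB_16 (Nat.mod_lt a (by norm_num))
    (Nat.mod_lt n (by norm_num)) (cl2_of (n := 16) (by norm_num) ha2 hn2)
  obtain ⟨i13, b13, e13⟩ := memCheck_spec memB_13 (Nat.mod_lt a (by norm_num))
    (Nat.mod_lt n (by norm_num)) (clB_of (n := 13) (by norm_num) (by norm_num) hd j13)
  obtain ⟨i5, b5, e5⟩ := memCheck_spec memB_5 (Nat.mod_lt a (by norm_num))
    (Nat.mod_lt n (by norm_num)) (clB_of (n := 5) (by norm_num) (by norm_num) hd j5)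
  obtain ⟨i7, b7, e7⟩ := memCheck_spec memB_7 (Nat.mod_lt a (by norm_num))
    (Nat.mod_lt n (by norm_num)) (clB_of (n := 7) (by norm_num) (by norm_num) hd j7)
  obtain ⟨i9, b9, e9⟩ := memCheck_spec memB_9 (Nat.mod_lt a (by norm_num))
    (Nat.mod_lt n (by norm_num)) (clB_of (n := 9) (by norm_num) (by norm_num) hd j3)
  obtain ⟨i11, b11, e11⟩ := memCheck_spec memB_11 (Nat.mod_lt a (by norm_num))
    (Nat.mod_lt n (by norm_num)) (clB_of (n := 11) (by norm_num) (by norm_num) hd j11)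
  obtain ⟨i17, b17, e17⟩ := memCheck_spec memB_17 (Nat.mod_lt a (by norm_num))
    (Nat.mod_lt n (by norm_num)) (clB_of (n := 17) (by norm_num) (by norm_num) hd j17)
  obtain ⟨i19, b19, e19⟩ := memCheck_spec memB_19 (Nat.mod_lt a (by norm_num))
    (Nat.mod_lt n (by norm_num)) (clB_of (n := 19) (by norm_num) (by norm_num) hd j19)
  exact falseB b16 b13 b5 b7 b9 b11 b17 b19 (topB b16)
    e16 e13 e5 e7 e9 e11 e17 e19
    (chkB_of hyp_16_13_5_0 dr_16_13_5_0 ctB_16_13_5_0 hT (by norm_num) (by norm_num) (c16.mul_left c13) q5 b16 b13 e16 e13)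
    (chkB_of hyp_16_13_5_1 dr_16_13_5_1 ctB_16_13_5_1 hT (by norm_num) (by norm_num) (c16.mul_left c13) q5 b16 b13 e16 e13)
    (chkB_of hyp_16_13_5_2 dr_16_13_5_2 ctB_16_13_5_2 hT (by norm_num) (by norm_num) (c16.mul_left c13) q5 b16 b13 e16 e13)
    (chkB_of hyp_16_7_13_0 dr_16_7_13_0 ctB_16_7_13_0 hT (by norm_num) (by norm_num) (c16.mul_left c7) q13 b16 b7 e16 e7)
    (chkB_of hyp_16_9_13_0 dr_16_9_13_0 ctB_16_9_13_0 hT (by norm_num) (by norm_num) (c16.mul_left c9) q13 b16 b9 e16 e9)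
    (chkB_of hyp_16_9_13_1 dr_16_9_13_1 ctB_16_9_13_1 hT (by norm_num) (by norm_num) (c16.mul_left c9) q13 b16 b9 e16 e9)
    (chkB_of hyp_13_9_7_0 dr_13_9_7_0 ctB_13_9_7_0 hT (by norm_num) (by norm_num) (c13.mul_left c9) q7 b13 b9 e13 e9)
    (chkB_of hyp_13_11_5_0 dr_13_11_5_0 ctB_13_11_5_0 hT (by norm_num) (by norm_num) (c13.mul_left c11) q5 b13 b11 e13 e11)
    (chkB_of hyp_13_11_7_0 dr_13_11_7_0 ctB_13_11_7_0 hT (by norm_num) (by norm_num) (c13.mul_left c11) q7 b13 b11 e13 e11)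
    (chkB_of hyp_16_11_5_0 dr_16_11_5_0 ctB_16_11_5_0 hT (by norm_num) (by norm_num) (c16.mul_left c11) q5 b16 b11 e16 e11)
    (chkB_of hyp_7_17_5_0 dr_7_17_5_0 ctB_7_17_5_0 hT (by norm_num) (by norm_num) (c7.mul_left c17) q5 b7 b17 e7 e17)
    (chkB_of hyp_7_17_13_0 dr_7_17_13_0 ctB_7_17_13_0 hT (by norm_num) (by norm_num) (c7.mul_left c17) q13 b7 b17 e7 e17)
    (chkB_of hyp_17_19_7_0 dr_17_19_7_0 ctB_17_19_7_0 hT (by norm_num) (by norm_num) (c17.mul_left c19) q7 b17 b19 e17 e19)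
    (chkB_of hyp_9_19_7_0 dr_9_19_7_0 ctB_9_19_7_0 hT (by norm_num) (by norm_num) (c9.mul_left c19) q7 b9 b19 e9 e19)
    (chkB_of hyp_13_19_7_0 dr_13_19_7_0 ctB_13_19_7_0 hT (by norm_num) (by norm_num) (c13.mul_left c19) q7 b13 b19 e13 e19)
    (chkB_of hyp_13_19_7_1 dr_13_19_7_1 ctB_13_19_7_1 hT (by norm_num) (by norm_num) (c13.mul_left c19) q7 b13 b19 e13 e19)
    (chkB_of hyp_16_19_5_0 dr_16_19_5_0 ctB_16_19_5_0 hT (by norm_num) (by norm_num) (c16.mul_left c19) q5 b16 b19 e16 e19)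

end Pool.Agent.LibH4.KF


end

section

/-! generated data -/

namespace Pool.Agent.LibH4.KF

open Ker T6

/-- classes -/
def CB11_16 : List (ℕ × ℕ) := [((nat_lit 11), (nat_lit 1)),((nat_lit 11), (nat_lit 3)),((nat_lit 11), (nat_lit 5)),((nat_lit 11), (nat_lit 7)),((nat_lit 11), (nat_lit 9)),((nat_lit 11), (nat_lit 11)),((nat_lit 11), (nat_lit 13)),((nat_lit 11), (nat_lit 15))]

lemma memB11_16 : memCheck (nat_lit 16) (spc (nat_lit 11) cl2) CB11_16 = true := by decide +kernel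

/-- classes -/
def CB11_13 : List (ℕ × ℕ) := [((nat_lit 11), (nat_lit 0)),((nat_lit 11), (nat_lit 2)),((nat_lit 11), (nat_lit 3)),((nat_lit 11), (nat_lit 6)),((nat_lit 11), (nat_lit 7)),((nat_lit 11), (nat_lit 10)),((nat_lit 11), (nat_lit 11))]

lemma memB11_13 : memCheck (nat_lit 13) (spc (nat_lit 11) (clB (nat_lit 13))) CB11_13 = true := by decide +kernel

/-- classes -/
def CB11_5 : List (ℕ × ℕ) := [((nat_lit 1), (nat_lit 2)),((nat_lit 1), (nat_lit 3))]

lemma memB11_5 : memCheck (nat_lit 5) (spc (nat_lit 1) (clB (nat_lit 5))) CB11_5 = true := by decide +kernel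

/-- classes -/
def CB11_7 : List (ℕ × ℕ) := [((nat_lit 4), (nat_lit 2)),((nat_lit 4), (nat_lit 3)),((nat_lit 4), (nat_lit 4)),((nat_lit 4), (nat_lit 5))]

lemma memB11_7 : memCheck (nat_lit 7) (spc (nat_lit 4) (clB (nat_lit 7))) CB11_7 = true := by decide +kernel

/-- classes -/
def CB11_23 : List (ℕ × ℕ) := [((nat_lit 11), (nat_lit 0)),((nat_lit 11), (nat_lit 2)),((nat_lit 11), (nat_lit 5)),((nat_lit 11), (nat_lit 6)),((nat_lit 11), (nat_lit 8)),((nat_lit 11), (nat_lit 11)),((nat_lit 11), (nat_lit 12)),((nat_lit 11), (nat_lit 15)),((nat_lit 11), (nat_lit 17)),((nat_lit 11), (nat_lit 18)),((nat_lit 11), (nat_lit 21))]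

lemma memB11_23 : memCheck (nat_lit 23) (spc (nat_lit 11) (clB (nat_lit 23))) CB11_23 = true := by decide +kernel

/-- table -/
def TBB11_16_13_5_0 : ℕ := nat_lit 14356869994050413807907226479425853724933833565041439923079018868267986757327936125131399908136950988473035543275837429153543299998865365887103178829974256630679632066869296473388425283476911307104260

theorem ctB11_16_13_5_0 : checkR (nat_lit 84) (nat_lit 16) (nat_lit 13) (nat_lit 5) (nat_lit 1166467763814805520) (nat_lit 1183156957090320)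
    DR_16_13_5_0 formsB P13 CB11_16 CB11_13 TBB11_16_13_5_0 = true :=
  KV.checkV_spec (by decide +kernel : KV.checkV (nat_lit 3) (nat_lit 84) (nat_lit 16) (nat_lit 13) (nat_lit 5) (nat_lit 1166467763814805520) (nat_lit 1183156957090320)
    DR_16_13_5_0 formsB P13 CB11_16 CB11_13 TBB11_16_13_5_0 = true)

/-- table -/
def TBB11_16_13_5_1 : ℕ := nat_lit 1169125547500342114837855361723352654574225124215896417407972127251983245551829697570292925929324559560092189999207722552914832891296289389086752074685388797436959358066943506196432366001631264770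

theorem ctB11_16_13_5_1 : checkR (nat_lit 84) (nat_lit 16) (nat_lit 13) (nat_lit 5) (nat_lit 1161981756374523920) (nat_lit 1183156957090320)
    DR_16_13_5_1 formsB P13 CB11_16 CB11_13 TBB11_16_13_5_1 = true :=
  KV.checkV_spec (by decide +kernel : KV.checkV (nat_lit 3) (nat_lit 84) (nat_lit 16) (nat_lit 13) (nat_lit 5) (nat_lit 1161981756374523920) (nat_lit 1183156957090320)
    DR_16_13_5_1 formsB P13 CB11_16 CB11_13 TBB11_16_13_5_1 = true)

/-- table -/
def TBB11_16_13_5_2 : ℕ := nat_lit 3504524908280018701615184137951232918711591199645575419034813731364170012396919436493738126450051143368401009507837453388778363263311498128587102049977011413721994476072174655773683292442881687555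

theorem ctB11_16_13_5_2 : checkR (nat_lit 84) (nat_lit 16) (nat_lit 13) (nat_lit 5) (nat_lit 4625249869016080400) (nat_lit 353030276977680)
    DR_16_13_5_2 formsB P13 CB11_16 CB11_13 TBB11_16_13_5_2 = true :=
  KV.checkV_spec (by decide +kernel : KV.checkV (nat_lit 3) (nat_lit 84) (nat_lit 16) (nat_lit 13) (nat_lit 5) (nat_lit 4625249869016080400) (nat_lit 353030276977680)
    DR_16_13_5_2 formsB P13 CB11_16 CB11_13 TBB11_16_13_5_2 = true)

/-- table -/
def TBB11_16_7_13_0 : ℕ := nat_lit 25730540463023800808852305644036740438047173127487971006656955128932201933476450617600065517263498388505545904183931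

theorem ctB11_16_7_13_0 : checkR (nat_lit 48) (nat_lit 16) (nat_lit 7) (nat_lit 13) (nat_lit 1175581068095410192) (nat_lit 205760784)
    DR_16_7_13_0 formsB P7 CB11_16 CB11_7 TBB11_16_7_13_0 = true :=
  KV.checkV_spec (by decide +kernel : KV.checkV (nat_lit 2) (nat_lit 48) (nat_lit 16) (nat_lit 7) (nat_lit 13) (nat_lit 1175581068095410192) (nat_lit 205760784)
    DR_16_7_13_0 formsB P7 CB11_16 CB11_7 TBB11_16_7_13_0 = true)

/-- table -/
def TBB11_13_23_7_0 : ℕ := nat_lit 11739804040397548875894788719404330631863547187035545014755529161785499074240633190028667634502067774000146121613868248479230807612370377021816322101805685485453865579981637218346661394105729491569710352438135982724738664819950462349593788548632391942213692788396723208113701200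

theorem ctB11_13_23_7_0 : checkR (nat_lit 132) (nat_lit 13) (nat_lit 23) (nat_lit 7) (nat_lit 371936440100112) (nat_lit 1980680358766547984887910672)
    DR_13_23_7_0 formsB P23 CB11_13 CB11_23 TBB11_13_23_7_0 = true :=
  KV.checkV_spec (by decide +kernel : KV.checkV (nat_lit 4) (nat_lit 132) (nat_lit 13) (nat_lit 23) (nat_lit 7) (nat_lit 371936440100112) (nat_lit 1980680358766547984887910672)
    DR_13_23_7_0 formsB P23 CB11_13 CB11_23 TBB11_13_23_7_0 = true)

/-- stage -/
def stB11_4 (a7 r_13_23_7_0 t7 : ℕ) : Bool :=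
  allI (fun i23 c23 =>
    imp (chkB (nat_lit 7) (dg (nat_lit 12) r_13_23_7_0 i23) a7 t7) <|
    false) CB11_23 (nat_lit 0)

/-- stage -/
def stB11_3 (a13 r_13_23_7_0 r_16_7_13_0 t13 : ℕ) : Bool :=
  allI (fun i7 c7 =>
    imp (chkB (nat_lit 13) (dg (nat_lit 12) r_16_7_13_0 i7) a13 t13) <|
    stB11_4 c7.1 r_13_23_7_0 c7.2) CB11_7 (nat_lit 0)

/-- stage -/
def stB11_2 (a13 e_16_13_5_0 e_16_13_5_1 e_16_13_5_2 r_13_23_7_0 r_16_7_13_0 t13 : ℕ) : Bool :=
  allI (fun i5 c5 =>
    imp (chkB (nat_lit 5) e_16_13_5_0 c5.1 c5.2) <|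
    imp (chkB (nat_lit 5) e_16_13_5_1 c5.1 c5.2) <|
    imp (chkB (nat_lit 5) e_16_13_5_2 c5.1 c5.2) <|
    stB11_3 a13 r_13_23_7_0 r_16_7_13_0 t13) CB11_5 (nat_lit 0)

/-- stage -/
def stB11_1 (r_16_13_5_0 r_16_13_5_1 r_16_13_5_2 r_16_7_13_0 : ℕ) : Bool :=
  allI (fun i13 c13 =>
    strict (dg (nat_lit 12) r_16_13_5_0 i13) fun e_16_13_5_0 =>
    strict (dg (nat_lit 12) r_16_13_5_1 i13) fun e_16_13_5_1 =>
    strict (dg (nat_lit 12) r_16_13_5_2 i13) fun e_16_13_5_2 =>
    strict (dg (nat_lit 132) TBB11_13_23_7_0 i13) fun r_13_23_7_0 =>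
    stB11_2 c13.1 e_16_13_5_0 e_16_13_5_1 e_16_13_5_2 r_13_23_7_0 r_16_7_13_0 c13.2) CB11_13 (nat_lit 0)

/-- stage -/
def bdB11 (i16 : ℕ) (c16 : ℕ × ℕ) : Bool :=
    strict (dg (nat_lit 84) TBB11_16_13_5_0 i16) fun r_16_13_5_0 =>
    strict (dg (nat_lit 84) TBB11_16_13_5_1 i16) fun r_16_13_5_1 =>
    strict (dg (nat_lit 84) TBB11_16_13_5_2 i16) fun r_16_13_5_2 =>
    strict (dg (nat_lit 48) TBB11_16_7_13_0 i16) fun r_16_7_13_0 =>
    stB11_1 r_16_13_5_0 r_16_13_5_1 r_16_13_5_2 r_16_7_13_0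

theorem allB11 : allI (fun i c => bdB11 i c) CB11_16 (nat_lit 0) = true := by
  decide +kernel

theorem falseB11 {a t : ℕ} {i16 i13 i5 i7 i23 : ℕ}
    (b16 : i16 < CB11_16.length)
    (b13 : i13 < CB11_13.length)
    (b5 : i5 < CB11_5.length)
    (b7 : i7 < CB11_7.length)
    (b23 : i23 < CB11_23.length)
    (top : bdB11 i16 CB11_16[i16] = true)
    (h16 : CB11_16[i16] = (a % 16, t % 16))
    (h13 : CB11_13[i13] = (a % 13, t % 13))
    (h5 : CB11_5[i5] = (a % 5, t % 5))
    (h7 : CB11_7[i7] = (a % 7, t % 7))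
    (h23 : CB11_23[i23] = (a % 23, t % 23))
    (r_16_13_5_0 : chkB 5 (dg 12 (dg 84 TBB11_16_13_5_0 i16) i13) (a % 5) (t % 5) = true)
    (r_16_13_5_1 : chkB 5 (dg 12 (dg 84 TBB11_16_13_5_1 i16) i13) (a % 5) (t % 5) = true)
    (r_16_13_5_2 : chkB 5 (dg 12 (dg 84 TBB11_16_13_5_2 i16) i13) (a % 5) (t % 5) = true)
    (r_16_7_13_0 : chkB 13 (dg 12 (dg 48 TBB11_16_7_13_0 i16) i7) (a % 13) (t % 13) = true)
    (r_13_23_7_0 : chkB 7 (dg 12 (dg 132 TBB11_13_23_7_0 i13) i23) (a % 7) (t % 7) = true)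
    : False := by
  try rw [h16] at top
  unfold bdB11 at top
  simp only [strict_eq] at top
  unfold stB11_1 at top
  replace top := allI_get top b13
  try rw [h13] at top
  simp only [strict_eq] at top
  unfold stB11_2 at top
  replace top := allI_get top b5
  try rw [h5] at top
  replace top := imp_spec top r_16_13_5_0
  replace top := imp_spec top r_16_13_5_1
  replace top := imp_spec top r_16_13_5_2
  unfold stB11_3 at top
  replace top := allI_get top b7
  try rw [h7] at top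
  replace top := imp_spec top r_16_7_13_0
  unfold stB11_4 at top
  replace top := allI_get top b23
  try rw [h23] at top
  replace top := imp_spec top r_13_23_7_0
  exact Bool.false_ne_true top

/-- no large solution with `a = 11` -/
theorem noB11 {a n d : ℕ} (ha : a = 11) (hn2 : n % 2 = 1)
    (hd : (d : ℤ) = ((a : ℤ) * n) ^ 2 + 4 * a)
    (j5 : jacobiSym d 5 = -1)
    (j7 : jacobiSym d 7 = -1)
    (j13 : jacobiSym d 13 = -1)
    (j23 : jacobiSym d 23 = -1)
    (hT : AllB a n d) : False := by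
  have ha2 : a % 2 = 1 := by rw [ha]
  have q2 := d2_B hd ha2 hn2
  have q5 : ¬ 5 ∣ d := nd_of (by norm_num) j5
  have q7 : ¬ 7 ∣ d := nd_of (by norm_num) j7
  have q13 : ¬ 13 ∣ d := nd_of (by norm_num) j13
  have q23 : ¬ 23 ∣ d := nd_of (by norm_num) j23
  have c16 : Nat.Coprime 16 d := cop_of (p := 2) (k := 4) (by norm_num) q2
  have c13 : Nat.Coprime 13 d := cop_of (p := 13) (k := 1) (by norm_num) q13
  have c5 : Nat.Coprime 5 d := cop_of (p := 5) (k := 1) (by norm_num) q5
  have c7 : Nat.Coprime 7 d := cop_of (p := 7) (k := 1) (by norm_num) q7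
  have c23 : Nat.Coprime 23 d := cop_of (p := 23) (k := 1) (by norm_num) q23
  obtain ⟨i16, b16, e16⟩ := memCheck_spec memB11_16 (Nat.mod_lt a (by norm_num))
    (Nat.mod_lt n (by norm_num)) (spc_of (cl2_of (n := 16) (by norm_num) ha2 hn2) (by rw [ha]))
  obtain ⟨i13, b13, e13⟩ := memCheck_spec memB11_13 (Nat.mod_lt a (by norm_num))
    (Nat.mod_lt n (by norm_num)) (spc_of (clB_of (n := 13) (by norm_num) (by norm_num) hd j13) (by rw [ha]))
  obtain ⟨i5, b5, e5⟩ := memCheck_spec memB11_5 (Nat.mod_lt a (by norm_num))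
    (Nat.mod_lt n (by norm_num)) (spc_of (clB_of (n := 5) (by norm_num) (by norm_num) hd j5) (by rw [ha]))
  obtain ⟨i7, b7, e7⟩ := memCheck_spec memB11_7 (Nat.mod_lt a (by norm_num))
    (Nat.mod_lt n (by norm_num)) (spc_of (clB_of (n := 7) (by norm_num) (by norm_num) hd j7) (by rw [ha]))
  obtain ⟨i23, b23, e23⟩ := memCheck_spec memB11_23 (Nat.mod_lt a (by norm_num))
    (Nat.mod_lt n (by norm_num)) (spc_of (clB_of (n := 23) (by norm_num) (by norm_num) hd j23) (by rw [ha]))
  exact falseB11 b16 b13 b5 b7 b23 (allI_get allB11 b16)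
    e16 e13 e5 e7 e23
    (chkB_of hyp_16_13_5_0 dr_16_13_5_0 ctB11_16_13_5_0 hT (by norm_num) (by norm_num) (c16.mul_left c13) q5 b16 b13 e16 e13)
    (chkB_of hyp_16_13_5_1 dr_16_13_5_1 ctB11_16_13_5_1 hT (by norm_num) (by norm_num) (c16.mul_left c13) q5 b16 b13 e16 e13)
    (chkB_of hyp_16_13_5_2 dr_16_13_5_2 ctB11_16_13_5_2 hT (by norm_num) (by norm_num) (c16.mul_left c13) q5 b16 b13 e16 e13)
    (chkB_of hyp_16_7_13_0 dr_16_7_13_0 ctB11_16_7_13_0 hT (by norm_num) (by norm_num) (c16.mul_left c7) q13 b16 b7 e16 e7)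
    (chkB_of hyp_13_23_7_0 dr_13_23_7_0 ctB11_13_23_7_0 hT (by norm_num) (by norm_num) (c13.mul_left c23) q7 b13 b23 e13 e23)

end Pool.Agent.LibH4.KF


end

section

/-! generated data -/

namespace Pool.Agent.LibH4.KF

open Ker T6

/-- classes -/
def CB13_17 : List (ℕ × ℕ) := [((nat_lit 13), (nat_lit 2)),((nat_lit 13), (nat_lit 5)),((nat_lit 13), (nat_lit 7)),((nat_lit 13), (nat_lit 8)),((nat_lit 13), (nat_lit 9)),((nat_lit 13), (nat_lit 10)),((nat_lit 13), (nat_lit 12)),((nat_lit 13), (nat_lit 15))]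

lemma memB13_17 : memCheck (nat_lit 17) (spc (nat_lit 13) (clB (nat_lit 17))) CB13_17 = true := by decide +kernel

/-- classes -/
def CB13_3 : List (ℕ × ℕ) := [((nat_lit 1), (nat_lit 1)),((nat_lit 1), (nat_lit 2))]

lemma memB13_3 : memCheck (nat_lit 3) (spc (nat_lit 1) (clB (nat_lit 3))) CB13_3 = true := by decide +kernel

/-- classes -/
def CB13_5 : List (ℕ × ℕ) := [((nat_lit 3), (nat_lit 0)),((nat_lit 3), (nat_lit 2)),((nat_lit 3), (nat_lit 3))]

lemma memB13_5 : memCheck (nat_lit 5) (spc (nat_lit 3) (clB (nat_lit 5))) CB13_5 = true := by decide +kernel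

/-- classes -/
def CB13_19 : List (ℕ × ℕ) := [((nat_lit 13), (nat_lit 0)),((nat_lit 13), (nat_lit 1)),((nat_lit 13), (nat_lit 3)),((nat_lit 13), (nat_lit 5)),((nat_lit 13), (nat_lit 6)),((nat_lit 13), (nat_lit 13)),((nat_lit 13), (nat_lit 14)),((nat_lit 13), (nat_lit 16)),((nat_lit 13), (nat_lit 18))]

lemma memB13_19 : memCheck (nat_lit 19) (spc (nat_lit 13) (clB (nat_lit 19))) CB13_19 = true := by decide +kernel

/-- classes -/
def CB13_7 : List (ℕ × ℕ) := [((nat_lit 6), (nat_lit 0)),((nat_lit 6), (nat_lit 3)),((nat_lit 6), (nat_lit 4))]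

lemma memB13_7 : memCheck (nat_lit 7) (spc (nat_lit 6) (clB (nat_lit 7))) CB13_7 = true := by decide +kernel

/-- classes -/
def CB13_16 : List (ℕ × ℕ) := [((nat_lit 13), (nat_lit 1)),((nat_lit 13), (nat_lit 3)),((nat_lit 13), (nat_lit 5)),((nat_lit 13), (nat_lit 7)),((nat_lit 13), (nat_lit 9)),((nat_lit 13), (nat_lit 11)),((nat_lit 13), (nat_lit 13)),((nat_lit 13), (nat_lit 15))]

lemma memB13_16 : memCheck (nat_lit 16) (spc (nat_lit 13) cl2) CB13_16 = true := by decide +kernel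

/-- table -/
def TBB13_3_17_5_0 : ℕ := nat_lit 4597861041048380288425503416636171823431709026160754690

theorem ctB13_3_17_5_0 : checkR (nat_lit 96) (nat_lit 3) (nat_lit 17) (nat_lit 5) (nat_lit 1040) (nat_lit 23207668197802189840)
    DR_3_17_5_0 formsB P17 CB13_3 CB13_17 TBB13_3_17_5_0 = true :=
  KV.checkV_spec (by decide +kernel : KV.checkV (nat_lit 3) (nat_lit 96) (nat_lit 3) (nat_lit 17) (nat_lit 5) (nat_lit 1040) (nat_lit 23207668197802189840)
    DR_3_17_5_0 formsB P17 CB13_3 CB13_17 TBB13_3_17_5_0 = true)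

/-- table -/
def TBB13_17_19_7_0 : ℕ := nat_lit 150165003275637670355672470389890738758541143241446555549158816418151294721514374145051959621156837172690134695147332033177309363550596348113846273977766364836038433118328455720119733390183861657961396072181206717364545262933552662229759295136029543300603904

theorem ctB13_17_19_7_0 : checkR (nat_lit 108) (nat_lit 17) (nat_lit 19) (nat_lit 7) (nat_lit 20038315816949735696) (nat_lit 28965222469048455157008)
    DR_17_19_7_0 formsB P19 CB13_17 CB13_19 TBB13_17_19_7_0 = true :=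
  KV.checkV_spec (by decide +kernel : KV.checkV (nat_lit 4) (nat_lit 108) (nat_lit 17) (nat_lit 19) (nat_lit 7) (nat_lit 20038315816949735696) (nat_lit 28965222469048455157008)
    DR_17_19_7_0 formsB P19 CB13_17 CB13_19 TBB13_17_19_7_0 = true)

/-- table -/
def TBB13_16_19_5_0 : ℕ := nat_lit 32200093514661087875587740825689351023689269124623132142873144921642502314173798125739514282556443345163566120708006949206072378708842301743749227267321230837708012817514689296718940796834985078977819391890899056513998035642044010138231539358991837195093083185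

theorem ctB13_16_19_5_0 : checkR (nat_lit 108) (nat_lit 16) (nat_lit 19) (nat_lit 5) (nat_lit 1161981756374523920) (nat_lit 19207979659501056902160)
    DR_16_19_5_0 formsB P19 CB13_16 CB13_19 TBB13_16_19_5_0 = true :=
  KV.checkV_spec (by decide +kernel : KV.checkV (nat_lit 4) (nat_lit 108) (nat_lit 16) (nat_lit 19) (nat_lit 5) (nat_lit 1161981756374523920) (nat_lit 19207979659501056902160)
    DR_16_19_5_0 formsB P19 CB13_16 CB13_19 TBB13_16_19_5_0 = true)

/-- stage -/
def stB13_5 (a5 i19 t5 : ℕ) : Bool :=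
  allI (fun i16 c16 =>
    imp (chkB (nat_lit 5) (dg (nat_lit 12) (dg (nat_lit 108) TBB13_16_19_5_0 i16) i19) a5 t5) <|
    false) CB13_16 (nat_lit 0)

/-- stage -/
def stB13_4 (a5 e_17_19_7_0 i19 t5 : ℕ) : Bool :=
  allI (fun i7 c7 =>
    imp (chkB (nat_lit 7) e_17_19_7_0 c7.1 c7.2) <|
    stB13_5 a5 i19 t5) CB13_7 (nat_lit 0)

/-- stage -/
def stB13_3 (a5 r_17_19_7_0 t5 : ℕ) : Bool :=
  allI (fun i19 c19 =>
    strict (dg (nat_lit 12) r_17_19_7_0 i19) fun e_17_19_7_0 =>
    stB13_4 a5 e_17_19_7_0 i19 t5) CB13_19 (nat_lit 0)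

/-- stage -/
def stB13_2 (e_3_17_5_0 r_17_19_7_0 : ℕ) : Bool :=
  allI (fun i5 c5 =>
    imp (chkB (nat_lit 5) e_3_17_5_0 c5.1 c5.2) <|
    stB13_3 c5.1 r_17_19_7_0 c5.2) CB13_5 (nat_lit 0)

/-- stage -/
def stB13_1 (i17 r_17_19_7_0 : ℕ) : Bool :=
  allI (fun i3 c3 =>
    strict (dg (nat_lit 12) (dg (nat_lit 96) TBB13_3_17_5_0 i3) i17) fun e_3_17_5_0 =>
    stB13_2 e_3_17_5_0 r_17_19_7_0) CB13_3 (nat_lit 0)

/-- stage -/
def bdB13 (i17 : ℕ) (c17 : ℕ × ℕ) : Bool :=
    strict (dg (nat_lit 108) TBB13_17_19_7_0 i17) fun r_17_19_7_0 =>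
    stB13_1 i17 r_17_19_7_0

theorem allB13 : allI (fun i c => bdB13 i c) CB13_17 (nat_lit 0) = true := by
  decide +kernel

theorem falseB13 {a t : ℕ} {i17 i3 i5 i19 i7 i16 : ℕ}
    (b17 : i17 < CB13_17.length)
    (b3 : i3 < CB13_3.length)
    (b5 : i5 < CB13_5.length)
    (b19 : i19 < CB13_19.length)
    (b7 : i7 < CB13_7.length)
    (b16 : i16 < CB13_16.length)
    (top : bdB13 i17 CB13_17[i17] = true)
    (h17 : CB13_17[i17] = (a % 17, t % 17))
    (h3 : CB13_3[i3] = (a % 3, t % 3))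
    (h5 : CB13_5[i5] = (a % 5, t % 5))
    (h19 : CB13_19[i19] = (a % 19, t % 19))
    (h7 : CB13_7[i7] = (a % 7, t % 7))
    (h16 : CB13_16[i16] = (a % 16, t % 16))
    (r_3_17_5_0 : chkB 5 (dg 12 (dg 96 TBB13_3_17_5_0 i3) i17) (a % 5) (t % 5) = true)
    (r_17_19_7_0 : chkB 7 (dg 12 (dg 108 TBB13_17_19_7_0 i17) i19) (a % 7) (t % 7) = true)
    (r_16_19_5_0 : chkB 5 (dg 12 (dg 108 TBB13_16_19_5_0 i16) i19) (a % 5) (t % 5) = true)
    : False := by
  try rw [h17] at top
  unfold bdB13 at top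
  simp only [strict_eq] at top
  unfold stB13_1 at top
  replace top := allI_get top b3
  try rw [h3] at top
  simp only [strict_eq] at top
  unfold stB13_2 at top
  replace top := allI_get top b5
  try rw [h5] at top
  replace top := imp_spec top r_3_17_5_0
  unfold stB13_3 at top
  replace top := allI_get top b19
  try rw [h19] at top
  simp only [strict_eq] at top
  unfold stB13_4 at top
  replace top := allI_get top b7
  try rw [h7] at top
  replace top := imp_spec top r_17_19_7_0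
  unfold stB13_5 at top
  replace top := allI_get top b16
  try rw [h16] at top
  replace top := imp_spec top r_16_19_5_0
  exact Bool.false_ne_true top

/-- no large solution with `a = 13` -/
theorem noB13 {a n d : ℕ} (ha : a = 13) (hn2 : n % 2 = 1)
    (hd : (d : ℤ) = ((a : ℤ) * n) ^ 2 + 4 * a)
    (j3 : jacobiSym d 3 = -1)
    (j5 : jacobiSym d 5 = -1)
    (j7 : jacobiSym d 7 = -1)
    (j17 : jacobiSym d 17 = -1)
    (j19 : jacobiSym d 19 = -1)
    (hT : AllB a n d) : False := by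
  have ha2 : a % 2 = 1 := by rw [ha]
  have q2 := d2_B hd ha2 hn2
  have q3 : ¬ 3 ∣ d := nd_of (by norm_num) j3
  have q5 : ¬ 5 ∣ d := nd_of (by norm_num) j5
  have q7 : ¬ 7 ∣ d := nd_of (by norm_num) j7
  have q17 : ¬ 17 ∣ d := nd_of (by norm_num) j17
  have q19 : ¬ 19 ∣ d := nd_of (by norm_num) j19
  have c17 : Nat.Coprime 17 d := cop_of (p := 17) (k := 1) (by norm_num) q17
  have c3 : Nat.Coprime 3 d := cop_of (p := 3) (k := 1) (by norm_num) q3
  have c5 : Nat.Coprime 5 d := cop_of (p := 5) (k := 1) (by norm_num) q5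
  have c19 : Nat.Coprime 19 d := cop_of (p := 19) (k := 1) (by norm_num) q19
  have c7 : Nat.Coprime 7 d := cop_of (p := 7) (k := 1) (by norm_num) q7
  have c16 : Nat.Coprime 16 d := cop_of (p := 2) (k := 4) (by norm_num) q2
  obtain ⟨i17, b17, e17⟩ := memCheck_spec memB13_17 (Nat.mod_lt a (by norm_num))
    (Nat.mod_lt n (by norm_num)) (spc_of (clB_of (n := 17) (by norm_num) (by norm_num) hd j17) (by rw [ha]))
  obtain ⟨i3, b3, e3⟩ := memCheck_spec memB13_3 (Nat.mod_lt a (by norm_num))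
    (Nat.mod_lt n (by norm_num)) (spc_of (clB_of (n := 3) (by norm_num) (by norm_num) hd j3) (by rw [ha]))
  obtain ⟨i5, b5, e5⟩ := memCheck_spec memB13_5 (Nat.mod_lt a (by norm_num))
    (Nat.mod_lt n (by norm_num)) (spc_of (clB_of (n := 5) (by norm_num) (by norm_num) hd j5) (by rw [ha]))
  obtain ⟨i19, b19, e19⟩ := memCheck_spec memB13_19 (Nat.mod_lt a (by norm_num))
    (Nat.mod_lt n (by norm_num)) (spc_of (clB_of (n := 19) (by norm_num) (by norm_num) hd j19) (by rw [ha]))
  obtain ⟨i7, b7, e7⟩ := memCheck_spec memB13_7 (Nat.mod_lt a (by norm_num))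
    (Nat.mod_lt n (by norm_num)) (spc_of (clB_of (n := 7) (by norm_num) (by norm_num) hd j7) (by rw [ha]))
  obtain ⟨i16, b16, e16⟩ := memCheck_spec memB13_16 (Nat.mod_lt a (by norm_num))
    (Nat.mod_lt n (by norm_num)) (spc_of (cl2_of (n := 16) (by norm_num) ha2 hn2) (by rw [ha]))
  exact falseB13 b17 b3 b5 b19 b7 b16 (allI_get allB13 b17)
    e17 e3 e5 e19 e7 e16
    (chkB_of hyp_3_17_5_0 dr_3_17_5_0 ctB13_3_17_5_0 hT (by norm_num) (by norm_num) (c3.mul_left c17) q5 b3 b17 e3 e17)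
    (chkB_of hyp_17_19_7_0 dr_17_19_7_0 ctB13_17_19_7_0 hT (by norm_num) (by norm_num) (c17.mul_left c19) q7 b17 b19 e17 e19)
    (chkB_of hyp_16_19_5_0 dr_16_19_5_0 ctB13_16_19_5_0 hT (by norm_num) (by norm_num) (c16.mul_left c19) q5 b16 b19 e16 e19)

end Pool.Agent.LibH4.KF


end

section

/-! generated data -/

namespace Pool.Agent.LibH4.KF

open Ker T6

/-- classes -/
def CB17_16 : List (ℕ × ℕ) := [((nat_lit 1), (nat_lit 1)),((nat_lit 1), (nat_lit 3)),((nat_lit 1), (nat_lit 5)),((nat_lit 1), (nat_lit 7)),((nat_lit 1), (nat_lit 9)),((nat_lit 1), (nat_lit 11)),((nat_lit 1), (nat_lit 13)),((nat_lit 1), (nat_lit 15))]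

lemma memB17_16 : memCheck (nat_lit 16) (spc (nat_lit 1) cl2) CB17_16 = true := by decide +kernel

/-- classes -/
def CB17_13 : List (ℕ × ℕ) := [((nat_lit 4), (nat_lit 1)),((nat_lit 4), (nat_lit 2)),((nat_lit 4), (nat_lit 6)),((nat_lit 4), (nat_lit 7)),((nat_lit 4), (nat_lit 11)),((nat_lit 4), (nat_lit 12))]

lemma memB17_13 : memCheck (nat_lit 13) (spc (nat_lit 4) (clB (nat_lit 13))) CB17_13 = true := by decide +kernel

/-- classes -/
def CB17_5 : List (ℕ × ℕ) := [((nat_lit 2), (nat_lit 0)),((nat_lit 2), (nat_lit 1)),((nat_lit 2), (nat_lit 4))]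

lemma memB17_5 : memCheck (nat_lit 5) (spc (nat_lit 2) (clB (nat_lit 5))) CB17_5 = true := by decide +kernel

/-- table -/
def TBB17_16_13_5_0 : ℕ := nat_lit 58975363785990206632967129953612841289671352697196758598736298972391118542359743459423691290553999648989830856261533927055253026684683087670285951100628843579754680320

theorem ctB17_16_13_5_0 : checkR (nat_lit 72) (nat_lit 16) (nat_lit 13) (nat_lit 5) (nat_lit 1166467763814805520) (nat_lit 1183156957090320)
    DR_16_13_5_0 formsB P13 CB17_16 CB17_13 TBB17_16_13_5_0 = true :=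
  KV.checkV_spec (by decide +kernel : KV.checkV (nat_lit 3) (nat_lit 72) (nat_lit 16) (nat_lit 13) (nat_lit 5) (nat_lit 1166467763814805520) (nat_lit 1183156957090320)
    DR_16_13_5_0 formsB P13 CB17_16 CB17_13 TBB17_16_13_5_0 = true)

/-- table -/
def TBB17_16_13_5_1 : ℕ := nat_lit 120766811991693018062575025095136898083886421450508530414309404437041645240935862560229003157693215440786432116618215493465009256067031507383115540780260731366101286387715

theorem ctB17_16_13_5_1 : checkR (nat_lit 72) (nat_lit 16) (nat_lit 13) (nat_lit 5) (nat_lit 1161981756374523920) (nat_lit 1183156957090320)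
    DR_16_13_5_1 formsB P13 CB17_16 CB17_13 TBB17_16_13_5_1 = true :=
  KV.checkV_spec (by decide +kernel : KV.checkV (nat_lit 3) (nat_lit 72) (nat_lit 16) (nat_lit 13) (nat_lit 5) (nat_lit 1161981756374523920) (nat_lit 1183156957090320)
    DR_16_13_5_1 formsB P13 CB17_16 CB17_13 TBB17_16_13_5_1 = true)

/-- table -/
def TBB17_16_13_5_2 : ℕ := nat_lit 241563082870032509095267379751509444683518538147817640495431045835095244069865214846948177029748919435054435105853015510314432433972881589746016690637151861665213968297985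

theorem ctB17_16_13_5_2 : checkR (nat_lit 72) (nat_lit 16) (nat_lit 13) (nat_lit 5) (nat_lit 4625249869016080400) (nat_lit 353030276977680)
    DR_16_13_5_2 formsB P13 CB17_16 CB17_13 TBB17_16_13_5_2 = true :=
  KV.checkV_spec (by decide +kernel : KV.checkV (nat_lit 3) (nat_lit 72) (nat_lit 16) (nat_lit 13) (nat_lit 5) (nat_lit 4625249869016080400) (nat_lit 353030276977680)
    DR_16_13_5_2 formsB P13 CB17_16 CB17_13 TBB17_16_13_5_2 = true)

/-- stage -/
def stB17_2 (e_16_13_5_0 e_16_13_5_1 e_16_13_5_2 : ℕ) : Bool :=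
  allI (fun i5 c5 =>
    imp (chkB (nat_lit 5) e_16_13_5_0 c5.1 c5.2) <|
    imp (chkB (nat_lit 5) e_16_13_5_1 c5.1 c5.2) <|
    imp (chkB (nat_lit 5) e_16_13_5_2 c5.1 c5.2) <|
    false) CB17_5 (nat_lit 0)

/-- stage -/
def stB17_1 (r_16_13_5_0 r_16_13_5_1 r_16_13_5_2 : ℕ) : Bool :=
  allI (fun i13 c13 =>
    strict (dg (nat_lit 12) r_16_13_5_0 i13) fun e_16_13_5_0 =>
    strict (dg (nat_lit 12) r_16_13_5_1 i13) fun e_16_13_5_1 =>
    strict (dg (nat_lit 12) r_16_13_5_2 i13) fun e_16_13_5_2 =>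
    stB17_2 e_16_13_5_0 e_16_13_5_1 e_16_13_5_2) CB17_13 (nat_lit 0)

/-- stage -/
def bdB17 (i16 : ℕ) (c16 : ℕ × ℕ) : Bool :=
    strict (dg (nat_lit 72) TBB17_16_13_5_0 i16) fun r_16_13_5_0 =>
    strict (dg (nat_lit 72) TBB17_16_13_5_1 i16) fun r_16_13_5_1 =>
    strict (dg (nat_lit 72) TBB17_16_13_5_2 i16) fun r_16_13_5_2 =>
    stB17_1 r_16_13_5_0 r_16_13_5_1 r_16_13_5_2

theorem allB17 : allI (fun i c => bdB17 i c) CB17_16 (nat_lit 0) = true := by
  decide +kernel

theorem falseB17 {a t : ℕ} {i16 i13 i5 : ℕ}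
    (b16 : i16 < CB17_16.length)
    (b13 : i13 < CB17_13.length)
    (b5 : i5 < CB17_5.length)
    (top : bdB17 i16 CB17_16[i16] = true)
    (h16 : CB17_16[i16] = (a % 16, t % 16))
    (h13 : CB17_13[i13] = (a % 13, t % 13))
    (h5 : CB17_5[i5] = (a % 5, t % 5))
    (r_16_13_5_0 : chkB 5 (dg 12 (dg 72 TBB17_16_13_5_0 i16) i13) (a % 5) (t % 5) = true)
    (r_16_13_5_1 : chkB 5 (dg 12 (dg 72 TBB17_16_13_5_1 i16) i13) (a % 5) (t % 5) = true)
    (r_16_13_5_2 : chkB 5 (dg 12 (dg 72 TBB17_16_13_5_2 i16) i13) (a % 5) (t % 5) = true)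
    : False := by
  try rw [h16] at top
  unfold bdB17 at top
  simp only [strict_eq] at top
  unfold stB17_1 at top
  replace top := allI_get top b13
  try rw [h13] at top
  simp only [strict_eq] at top
  unfold stB17_2 at top
  replace top := allI_get top b5
  try rw [h5] at top
  replace top := imp_spec top r_16_13_5_0
  replace top := imp_spec top r_16_13_5_1
  replace top := imp_spec top r_16_13_5_2
  exact Bool.false_ne_true top

/-- no large solution with `a = 17` -/
theorem noB17 {a n d : ℕ} (ha : a = 17) (hn2 : n % 2 = 1)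
    (hd : (d : ℤ) = ((a : ℤ) * n) ^ 2 + 4 * a)
    (j5 : jacobiSym d 5 = -1)
    (j13 : jacobiSym d 13 = -1)
    (hT : AllB a n d) : False := by
  have ha2 : a % 2 = 1 := by rw [ha]
  have q2 := d2_B hd ha2 hn2
  have q5 : ¬ 5 ∣ d := nd_of (by norm_num) j5
  have q13 : ¬ 13 ∣ d := nd_of (by norm_num) j13
  have c16 : Nat.Coprime 16 d := cop_of (p := 2) (k := 4) (by norm_num) q2
  have c13 : Nat.Coprime 13 d := cop_of (p := 13) (k := 1) (by norm_num) q13
  have c5 : Nat.Coprime 5 d := cop_of (p := 5) (k := 1) (by norm_num) q5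
  obtain ⟨i16, b16, e16⟩ := memCheck_spec memB17_16 (Nat.mod_lt a (by norm_num))
    (Nat.mod_lt n (by norm_num)) (spc_of (cl2_of (n := 16) (by norm_num) ha2 hn2) (by rw [ha]))
  obtain ⟨i13, b13, e13⟩ := memCheck_spec memB17_13 (Nat.mod_lt a (by norm_num))
    (Nat.mod_lt n (by norm_num)) (spc_of (clB_of (n := 13) (by norm_num) (by norm_num) hd j13) (by rw [ha]))
  obtain ⟨i5, b5, e5⟩ := memCheck_spec memB17_5 (Nat.mod_lt a (by norm_num))
    (Nat.mod_lt n (by norm_num)) (spc_of (clB_of (n := 5) (by norm_num) (by norm_num) hd j5) (by rw [ha]))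
  exact falseB17 b16 b13 b5 (allI_get allB17 b16)
    e16 e13 e5
    (chkB_of hyp_16_13_5_0 dr_16_13_5_0 ctB17_16_13_5_0 hT (by norm_num) (by norm_num) (c16.mul_left c13) q5 b16 b13 e16 e13)
    (chkB_of hyp_16_13_5_1 dr_16_13_5_1 ctB17_16_13_5_1 hT (by norm_num) (by norm_num) (c16.mul_left c13) q5 b16 b13 e16 e13)
    (chkB_of hyp_16_13_5_2 dr_16_13_5_2 ctB17_16_13_5_2 hT (by norm_num) (by norm_num) (c16.mul_left c13) q5 b16 b13 e16 e13)

end Pool.Agent.LibH4.KF


end

section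

/-! generated data -/

namespace Pool.Agent.LibH4.KF

open Ker T6

/-- classes -/
def CB5_16 : List (ℕ × ℕ) := [((nat_lit 5), (nat_lit 1)),((nat_lit 5), (nat_lit 3)),((nat_lit 5), (nat_lit 5)),((nat_lit 5), (nat_lit 7)),((nat_lit 5), (nat_lit 9)),((nat_lit 5), (nat_lit 11)),((nat_lit 5), (nat_lit 13)),((nat_lit 5), (nat_lit 15))]

lemma memB5_16 : memCheck (nat_lit 16) (spc (nat_lit 5) cl2) CB5_16 = true := by decide +kernel

/-- classes -/
def CB5_13 : List (ℕ × ℕ) := [((nat_lit 5), (nat_lit 0)),((nat_lit 5), (nat_lit 1)),((nat_lit 5), (nat_lit 3)),((nat_lit 5), (nat_lit 5)),((nat_lit 5), (nat_lit 8)),((nat_lit 5), (nat_lit 10)),((nat_lit 5), (nat_lit 12))]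

lemma memB5_13 : memCheck (nat_lit 13) (spc (nat_lit 5) (clB (nat_lit 13))) CB5_13 = true := by decide +kernel

/-- classes -/
def CB5_9 : List (ℕ × ℕ) := [((nat_lit 5), (nat_lit 0)),((nat_lit 5), (nat_lit 3)),((nat_lit 5), (nat_lit 6))]

lemma memB5_9 : memCheck (nat_lit 9) (spc (nat_lit 5) (clB (nat_lit 3))) CB5_9 = true := by decide +kernel

/-- classes -/
def CB5_7 : List (ℕ × ℕ) := [((nat_lit 5), (nat_lit 0)),((nat_lit 5), (nat_lit 1)),((nat_lit 5), (nat_lit 6))]

lemma memB5_7 : memCheck (nat_lit 7) (spc (nat_lit 5) (clB (nat_lit 7))) CB5_7 = true := by decide +kernel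

/-- table -/
def TBB5_16_9_13_0 : ℕ := nat_lit 121476163683854210024002533418178586521525172851750304641387485965320564436126187523

theorem ctB5_16_9_13_0 : checkR (nat_lit 36) (nat_lit 16) (nat_lit 9) (nat_lit 13) (nat_lit 1189039090416254992) (nat_lit 52349700624)
    DR_16_9_13_0 formsB P9 CB5_16 CB5_9 TBB5_16_9_13_0 = true :=
  KV.checkV_spec (by decide +kernel : KV.checkV (nat_lit 2) (nat_lit 36) (nat_lit 16) (nat_lit 9) (nat_lit 13) (nat_lit 1189039090416254992) (nat_lit 52349700624)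
    DR_16_9_13_0 formsB P9 CB5_16 CB5_9 TBB5_16_9_13_0 = true)

/-- table -/
def TBB5_16_9_13_1 : ℕ := nat_lit 295722238409223705162766848960233887849574871699724457949630844602053564808743840426375

theorem ctB5_16_9_13_1 : checkR (nat_lit 36) (nat_lit 16) (nat_lit 9) (nat_lit 13) (nat_lit 13871228414696902672) (nat_lit 6714231056)
    DR_16_9_13_1 formsB P9 CB5_16 CB5_9 TBB5_16_9_13_1 = true :=
  KV.checkV_spec (by decide +kernel : KV.checkV (nat_lit 2) (nat_lit 36) (nat_lit 16) (nat_lit 9) (nat_lit 13) (nat_lit 13871228414696902672) (nat_lit 6714231056)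
    DR_16_9_13_1 formsB P9 CB5_16 CB5_9 TBB5_16_9_13_1 = true)

/-- table -/
def TBB5_16_7_13_0 : ℕ := nat_lit 385713839296037721027060707657299797212335820002318154383641260595049182640025819829290

theorem ctB5_16_7_13_0 : checkR (nat_lit 36) (nat_lit 16) (nat_lit 7) (nat_lit 13) (nat_lit 1175581068095410192) (nat_lit 205760784)
    DR_16_7_13_0 formsB P7 CB5_16 CB5_7 TBB5_16_7_13_0 = true :=
  KV.checkV_spec (by decide +kernel : KV.checkV (nat_lit 2) (nat_lit 36) (nat_lit 16) (nat_lit 7) (nat_lit 13) (nat_lit 1175581068095410192) (nat_lit 205760784)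
    DR_16_7_13_0 formsB P7 CB5_16 CB5_7 TBB5_16_7_13_0 = true)

/-- stage -/
def stB5_3 (a13 r_16_7_13_0 t13 : ℕ) : Bool :=
  allI (fun i7 c7 =>
    imp (chkB (nat_lit 13) (dg (nat_lit 12) r_16_7_13_0 i7) a13 t13) <|
    false) CB5_7 (nat_lit 0)

/-- stage -/
def stB5_2 (a13 r_16_7_13_0 r_16_9_13_0 r_16_9_13_1 t13 : ℕ) : Bool :=
  allI (fun i9 c9 =>
    imp (chkB (nat_lit 13) (dg (nat_lit 12) r_16_9_13_0 i9) a13 t13) <|
    imp (chkB (nat_lit 13) (dg (nat_lit 12) r_16_9_13_1 i9) a13 t13) <|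
    stB5_3 a13 r_16_7_13_0 t13) CB5_9 (nat_lit 0)

/-- stage -/
def stB5_1 (r_16_7_13_0 r_16_9_13_0 r_16_9_13_1 : ℕ) : Bool :=
  allI (fun i13 c13 =>
    stB5_2 c13.1 r_16_7_13_0 r_16_9_13_0 r_16_9_13_1 c13.2) CB5_13 (nat_lit 0)

/-- stage -/
def bdB5 (i16 : ℕ) (c16 : ℕ × ℕ) : Bool :=
    strict (dg (nat_lit 36) TBB5_16_9_13_0 i16) fun r_16_9_13_0 =>
    strict (dg (nat_lit 36) TBB5_16_9_13_1 i16) fun r_16_9_13_1 =>
    strict (dg (nat_lit 36) TBB5_16_7_13_0 i16) fun r_16_7_13_0 =>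
    stB5_1 r_16_7_13_0 r_16_9_13_0 r_16_9_13_1

theorem allB5 : allI (fun i c => bdB5 i c) CB5_16 (nat_lit 0) = true := by
  decide +kernel

theorem falseB5 {a t : ℕ} {i16 i13 i9 i7 : ℕ}
    (b16 : i16 < CB5_16.length)
    (b13 : i13 < CB5_13.length)
    (b9 : i9 < CB5_9.length)
    (b7 : i7 < CB5_7.length)
    (top : bdB5 i16 CB5_16[i16] = true)
    (h16 : CB5_16[i16] = (a % 16, t % 16))
    (h13 : CB5_13[i13] = (a % 13, t % 13))
    (h9 : CB5_9[i9] = (a % 9, t % 9))
    (h7 : CB5_7[i7] = (a % 7, t % 7))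
    (r_16_9_13_0 : chkB 13 (dg 12 (dg 36 TBB5_16_9_13_0 i16) i9) (a % 13) (t % 13) = true)
    (r_16_9_13_1 : chkB 13 (dg 12 (dg 36 TBB5_16_9_13_1 i16) i9) (a % 13) (t % 13) = true)
    (r_16_7_13_0 : chkB 13 (dg 12 (dg 36 TBB5_16_7_13_0 i16) i7) (a % 13) (t % 13) = true)
    : False := by
  try rw [h16] at top
  unfold bdB5 at top
  simp only [strict_eq] at top
  unfold stB5_1 at top
  replace top := allI_get top b13
  try rw [h13] at top
  unfold stB5_2 at top
  replace top := allI_get top b9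
  try rw [h9] at top
  replace top := imp_spec top r_16_9_13_0
  replace top := imp_spec top r_16_9_13_1
  unfold stB5_3 at top
  replace top := allI_get top b7
  try rw [h7] at top
  replace top := imp_spec top r_16_7_13_0
  exact Bool.false_ne_true top

/-- no large solution with `a = 5` -/
theorem noB5 {a n d : ℕ} (ha : a = 5) (hn2 : n % 2 = 1)
    (hd : (d : ℤ) = ((a : ℤ) * n) ^ 2 + 4 * a)
    (j3 : jacobiSym d 3 = -1)
    (j7 : jacobiSym d 7 = -1)
    (j13 : jacobiSym d 13 = -1)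
    (hT : AllB a n d) : False := by
  have ha2 : a % 2 = 1 := by rw [ha]
  have q2 := d2_B hd ha2 hn2
  have q3 : ¬ 3 ∣ d := nd_of (by norm_num) j3
  have q7 : ¬ 7 ∣ d := nd_of (by norm_num) j7
  have q13 : ¬ 13 ∣ d := nd_of (by norm_num) j13
  have c16 : Nat.Coprime 16 d := cop_of (p := 2) (k := 4) (by norm_num) q2
  have c13 : Nat.Coprime 13 d := cop_of (p := 13) (k := 1) (by norm_num) q13
  have c9 : Nat.Coprime 9 d := cop_of (p := 3) (k := 2) (by norm_num) q3
  have c7 : Nat.Coprime 7 d := cop_of (p := 7) (k := 1) (by norm_num) q7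
  obtain ⟨i16, b16, e16⟩ := memCheck_spec memB5_16 (Nat.mod_lt a (by norm_num))
    (Nat.mod_lt n (by norm_num)) (spc_of (cl2_of (n := 16) (by norm_num) ha2 hn2) (by rw [ha]))
  obtain ⟨i13, b13, e13⟩ := memCheck_spec memB5_13 (Nat.mod_lt a (by norm_num))
    (Nat.mod_lt n (by norm_num)) (spc_of (clB_of (n := 13) (by norm_num) (by norm_num) hd j13) (by rw [ha]))
  obtain ⟨i9, b9, e9⟩ := memCheck_spec memB5_9 (Nat.mod_lt a (by norm_num))
    (Nat.mod_lt n (by norm_num)) (spc_of (clB_of (n := 9) (by norm_num) (by norm_num) hd j3) (by rw [ha]))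
  obtain ⟨i7, b7, e7⟩ := memCheck_spec memB5_7 (Nat.mod_lt a (by norm_num))
    (Nat.mod_lt n (by norm_num)) (spc_of (clB_of (n := 7) (by norm_num) (by norm_num) hd j7) (by rw [ha]))
  exact falseB5 b16 b13 b9 b7 (allI_get allB5 b16)
    e16 e13 e9 e7
    (chkB_of hyp_16_9_13_0 dr_16_9_13_0 ctB5_16_9_13_0 hT (by norm_num) (by norm_num) (c16.mul_left c9) q13 b16 b9 e16 e9)
    (chkB_of hyp_16_9_13_1 dr_16_9_13_1 ctB5_16_9_13_1 hT (by norm_num) (by norm_num) (c16.mul_left c9) q13 b16 b9 e16 e9)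
    (chkB_of hyp_16_7_13_0 dr_16_7_13_0 ctB5_16_7_13_0 hT (by norm_num) (by norm_num) (c16.mul_left c7) q13 b16 b7 e16 e7)

end Pool.Agent.LibH4.KF


end

section

/-! generated data -/

namespace Pool.Agent.LibH4.KF

open Ker T6

/-- classes -/
def CB7_16 : List (ℕ × ℕ) := [((nat_lit 7), (nat_lit 1)),((nat_lit 7), (nat_lit 3)),((nat_lit 7), (nat_lit 5)),((nat_lit 7), (nat_lit 7)),((nat_lit 7), (nat_lit 9)),((nat_lit 7), (nat_lit 11)),((nat_lit 7), (nat_lit 13)),((nat_lit 7), (nat_lit 15))]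

lemma memB7_16 : memCheck (nat_lit 16) (spc (nat_lit 7) cl2) CB7_16 = true := by decide +kernel

/-- classes -/
def CB7_13 : List (ℕ × ℕ) := [((nat_lit 7), (nat_lit 0)),((nat_lit 7), (nat_lit 4)),((nat_lit 7), (nat_lit 5)),((nat_lit 7), (nat_lit 6)),((nat_lit 7), (nat_lit 7)),((nat_lit 7), (nat_lit 8)),((nat_lit 7), (nat_lit 9))]

lemma memB7_13 : memCheck (nat_lit 13) (spc (nat_lit 7) (clB (nat_lit 13))) CB7_13 = true := by decide +kernel

/-- classes -/
def CB7_5 : List (ℕ × ℕ) := [((nat_lit 2), (nat_lit 0)),((nat_lit 2), (nat_lit 1)),((nat_lit 2), (nat_lit 4))]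

lemma memB7_5 : memCheck (nat_lit 5) (spc (nat_lit 2) (clB (nat_lit 5))) CB7_5 = true := by decide +kernel

/-- classes -/
def CB7_9 : List (ℕ × ℕ) := [((nat_lit 7), (nat_lit 1)),((nat_lit 7), (nat_lit 2)),((nat_lit 7), (nat_lit 4)),((nat_lit 7), (nat_lit 5)),((nat_lit 7), (nat_lit 7)),((nat_lit 7), (nat_lit 8))]

lemma memB7_9 : memCheck (nat_lit 9) (spc (nat_lit 7) (clB (nat_lit 3))) CB7_9 = true := by decide +kernel

/-- classes -/
def CB7_8 : List (ℕ × ℕ) := [((nat_lit 7), (nat_lit 1)),((nat_lit 7), (nat_lit 3)),((nat_lit 7), (nat_lit 5)),((nat_lit 7), (nat_lit 7))]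

lemma memB7_8 : memCheck (nat_lit 8) (spc (nat_lit 7) cl2) CB7_8 = true := by decide +kernel

/-- classes -/
def CB7_29 : List (ℕ × ℕ) := [((nat_lit 7), (nat_lit 1)),((nat_lit 7), (nat_lit 2)),((nat_lit 7), (nat_lit 8)),((nat_lit 7), (nat_lit 10)),((nat_lit 7), (nat_lit 11)),((nat_lit 7), (nat_lit 12)),((nat_lit 7), (nat_lit 13)),((nat_lit 7), (nat_lit 16)),((nat_lit 7), (nat_lit 17)),((nat_lit 7), (nat_lit 18)),((nat_lit 7), (nat_lit 19)),((nat_lit 7), (nat_lit 21)),((nat_lit 7), (nat_lit 27)),((nat_lit 7), (nat_lit 28))]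

lemma memB7_29 : memCheck (nat_lit 29) (spc (nat_lit 7) (clB (nat_lit 29))) CB7_29 = true := by decide +kernel

/-- table -/
def TBB7_16_13_5_0 : ℕ := nat_lit 3503954394333845930955863096880816157495398280048315949500749718039538172928615065502604020635189875244699588168723226389072337309663627816414407985355127684198363898346210564022921056625767743490

theorem ctB7_16_13_5_0 : checkR (nat_lit 84) (nat_lit 16) (nat_lit 13) (nat_lit 5) (nat_lit 1166467763814805520) (nat_lit 1183156957090320)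
    DR_16_13_5_0 formsB P13 CB7_16 CB7_13 TBB7_16_13_5_0 = true :=
  KV.checkV_spec (by decide +kernel : KV.checkV (nat_lit 3) (nat_lit 84) (nat_lit 16) (nat_lit 13) (nat_lit 5) (nat_lit 1166467763814805520) (nat_lit 1183156957090320)
    DR_16_13_5_0 formsB P13 CB7_16 CB7_13 TBB7_16_13_5_0 = true)

/-- table -/
def TBB7_16_13_5_1 : ℕ := nat_lit 1167984798111281975972634712688000945457295348350820214348926530096308145188948621691868023621220272200717725138035591578282248186519658460864861429836178762309183571237880957311536782536427438080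

theorem ctB7_16_13_5_1 : checkR (nat_lit 84) (nat_lit 16) (nat_lit 13) (nat_lit 5) (nat_lit 1161981756374523920) (nat_lit 1183156957090320)
    DR_16_13_5_1 formsB P13 CB7_16 CB7_13 TBB7_16_13_5_1 = true :=
  KV.checkV_spec (by decide +kernel : KV.checkV (nat_lit 3) (nat_lit 84) (nat_lit 16) (nat_lit 13) (nat_lit 5) (nat_lit 1161981756374523920) (nat_lit 1183156957090320)
    DR_16_13_5_1 formsB P13 CB7_16 CB7_13 TBB7_16_13_5_1 = true)

/-- table -/
def TBB7_16_13_5_2 : ℕ := nat_lit 9568132036502333477796969775176008890581857856961298824659222968266123879613049160990913145359299924666620167075968917997983039838006604712705069289467202021467813282245511106630335430817977846476800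

theorem ctB7_16_13_5_2 : checkR (nat_lit 84) (nat_lit 16) (nat_lit 13) (nat_lit 5) (nat_lit 4625249869016080400) (nat_lit 353030276977680)
    DR_16_13_5_2 formsB P13 CB7_16 CB7_13 TBB7_16_13_5_2 = true :=
  KV.checkV_spec (by decide +kernel : KV.checkV (nat_lit 3) (nat_lit 84) (nat_lit 16) (nat_lit 13) (nat_lit 5) (nat_lit 4625249869016080400) (nat_lit 353030276977680)
    DR_16_13_5_2 formsB P13 CB7_16 CB7_13 TBB7_16_13_5_2 = true)

/-- table -/
def TBB7_16_9_13_0 : ℕ := nat_lit 76720098471219528188279604762538398110174781957549291991780148781169086449037875865666252370935033309482494260230656991270945764510822030465459814400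

theorem ctB7_16_9_13_0 : checkR (nat_lit 72) (nat_lit 16) (nat_lit 9) (nat_lit 13) (nat_lit 1189039090416254992) (nat_lit 52349700624)
    DR_16_9_13_0 formsB P9 CB7_16 CB7_9 TBB7_16_9_13_0 = true :=
  KV.checkV_spec (by decide +kernel : KV.checkV (nat_lit 3) (nat_lit 72) (nat_lit 16) (nat_lit 9) (nat_lit 13) (nat_lit 1189039090416254992) (nat_lit 52349700624)
    DR_16_9_13_0 formsB P9 CB7_16 CB7_9 TBB7_16_9_13_0 = true)

/-- table -/
def TBB7_16_9_13_1 : ℕ := nat_lit 84562175916214707501506159095707843020875077029282033661820830531585337820546150733484956816771093143659094974183671172284820826202868934701465133018797800010685497417078133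

theorem ctB7_16_9_13_1 : checkR (nat_lit 72) (nat_lit 16) (nat_lit 9) (nat_lit 13) (nat_lit 13871228414696902672) (nat_lit 6714231056)
    DR_16_9_13_1 formsB P9 CB7_16 CB7_9 TBB7_16_9_13_1 = true :=
  KV.checkV_spec (by decide +kernel : KV.checkV (nat_lit 3) (nat_lit 72) (nat_lit 16) (nat_lit 9) (nat_lit 13) (nat_lit 13871228414696902672) (nat_lit 6714231056)
    DR_16_9_13_1 formsB P9 CB7_16 CB7_9 TBB7_16_9_13_1 = true)

/-- table -/
def TBB7_8_29_13_0 : ℕ := nat_lit 7929132743126988241855385975825627308743019093614660029247589444151496030696776415227270583230902417269269678236257125191983305366938671011095390826792157269012215331053437356856175686123970221631293044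

theorem ctB7_8_29_13_0 : checkR (nat_lit 168) (nat_lit 8) (nat_lit 29) (nat_lit 13) (nat_lit 281067536) (nat_lit 65067325651197639677023877956654352)
    DR_8_29_13_0 formsB P29 CB7_8 CB7_29 TBB7_8_29_13_0 = true :=
  KV.checkV_spec (by decide +kernel : KV.checkV (nat_lit 4) (nat_lit 168) (nat_lit 8) (nat_lit 29) (nat_lit 13) (nat_lit 281067536) (nat_lit 65067325651197639677023877956654352)
    DR_8_29_13_0 formsB P29 CB7_8 CB7_29 TBB7_8_29_13_0 = true)

/-- stage -/
def stB7_5 (a13 r_8_29_13_0 t13 : ℕ) : Bool :=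
  allI (fun i29 c29 =>
    imp (chkB (nat_lit 13) (dg (nat_lit 12) r_8_29_13_0 i29) a13 t13) <|
    false) CB7_29 (nat_lit 0)

/-- stage -/
def stB7_4 (a13 a16 t13 t16 : ℕ) : Bool :=
  allI (fun i8 c8 =>
    imp (Nat.beq (Nat.mod a16 (nat_lit 8)) c8.1) <| imp (Nat.beq (Nat.mod t16 (nat_lit 8)) c8.2) <|
    strict (dg (nat_lit 168) TBB7_8_29_13_0 i8) fun r_8_29_13_0 =>
    stB7_5 a13 r_8_29_13_0 t13) CB7_8 (nat_lit 0)

/-- stage -/
def stB7_3 (a13 a16 r_16_9_13_0 r_16_9_13_1 t13 t16 : ℕ) : Bool :=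
  allI (fun i9 c9 =>
    imp (chkB (nat_lit 13) (dg (nat_lit 12) r_16_9_13_0 i9) a13 t13) <|
    imp (chkB (nat_lit 13) (dg (nat_lit 12) r_16_9_13_1 i9) a13 t13) <|
    stB7_4 a13 a16 t13 t16) CB7_9 (nat_lit 0)

/-- stage -/
def stB7_2 (a13 a16 e_16_13_5_0 e_16_13_5_1 e_16_13_5_2 r_16_9_13_0 r_16_9_13_1 t13 t16 : ℕ) : Bool :=
  allI (fun i5 c5 =>
    imp (chkB (nat_lit 5) e_16_13_5_0 c5.1 c5.2) <|
    imp (chkB (nat_lit 5) e_16_13_5_1 c5.1 c5.2) <|
    imp (chkB (nat_lit 5) e_16_13_5_2 c5.1 c5.2) <|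
    stB7_3 a13 a16 r_16_9_13_0 r_16_9_13_1 t13 t16) CB7_5 (nat_lit 0)

/-- stage -/
def stB7_1 (a16 r_16_13_5_0 r_16_13_5_1 r_16_13_5_2 r_16_9_13_0 r_16_9_13_1 t16 : ℕ) : Bool :=
  allI (fun i13 c13 =>
    strict (dg (nat_lit 12) r_16_13_5_0 i13) fun e_16_13_5_0 =>
    strict (dg (nat_lit 12) r_16_13_5_1 i13) fun e_16_13_5_1 =>
    strict (dg (nat_lit 12) r_16_13_5_2 i13) fun e_16_13_5_2 =>
    stB7_2 c13.1 a16 e_16_13_5_0 e_16_13_5_1 e_16_13_5_2 r_16_9_13_0 r_16_9_13_1 c13.2 t16) CB7_13 (nat_lit 0)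

/-- stage -/
def bdB7 (i16 : ℕ) (c16 : ℕ × ℕ) : Bool :=
    strict (dg (nat_lit 84) TBB7_16_13_5_0 i16) fun r_16_13_5_0 =>
    strict (dg (nat_lit 84) TBB7_16_13_5_1 i16) fun r_16_13_5_1 =>
    strict (dg (nat_lit 84) TBB7_16_13_5_2 i16) fun r_16_13_5_2 =>
    strict (dg (nat_lit 72) TBB7_16_9_13_0 i16) fun r_16_9_13_0 =>
    strict (dg (nat_lit 72) TBB7_16_9_13_1 i16) fun r_16_9_13_1 =>
    stB7_1 c16.1 r_16_13_5_0 r_16_13_5_1 r_16_13_5_2 r_16_9_13_0 r_16_9_13_1 c16.2

theorem allB7 : allI (fun i c => bdB7 i c) CB7_16 (nat_lit 0) = true := by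
  decide +kernel

theorem falseB7 {a t : ℕ} {i16 i13 i5 i9 i8 i29 : ℕ}
    (b16 : i16 < CB7_16.length)
    (b13 : i13 < CB7_13.length)
    (b5 : i5 < CB7_5.length)
    (b9 : i9 < CB7_9.length)
    (b8 : i8 < CB7_8.length)
    (b29 : i29 < CB7_29.length)
    (top : bdB7 i16 CB7_16[i16] = true)
    (h16 : CB7_16[i16] = (a % 16, t % 16))
    (h13 : CB7_13[i13] = (a % 13, t % 13))
    (h5 : CB7_5[i5] = (a % 5, t % 5))
    (h9 : CB7_9[i9] = (a % 9, t % 9))
    (h8 : CB7_8[i8] = (a % 8, t % 8))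
    (h29 : CB7_29[i29] = (a % 29, t % 29))
    (r_16_13_5_0 : chkB 5 (dg 12 (dg 84 TBB7_16_13_5_0 i16) i13) (a % 5) (t % 5) = true)
    (r_16_13_5_1 : chkB 5 (dg 12 (dg 84 TBB7_16_13_5_1 i16) i13) (a % 5) (t % 5) = true)
    (r_16_13_5_2 : chkB 5 (dg 12 (dg 84 TBB7_16_13_5_2 i16) i13) (a % 5) (t % 5) = true)
    (r_16_9_13_0 : chkB 13 (dg 12 (dg 72 TBB7_16_9_13_0 i16) i9) (a % 13) (t % 13) = true)
    (r_16_9_13_1 : chkB 13 (dg 12 (dg 72 TBB7_16_9_13_1 i16) i9) (a % 13) (t % 13) = true)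
    (r_8_29_13_0 : chkB 13 (dg 12 (dg 168 TBB7_8_29_13_0 i8) i29) (a % 13) (t % 13) = true)
    : False := by
  try rw [h16] at top
  unfold bdB7 at top
  simp only [strict_eq] at top
  unfold stB7_1 at top
  replace top := allI_get top b13
  try rw [h13] at top
  simp only [strict_eq] at top
  unfold stB7_2 at top
  replace top := allI_get top b5
  try rw [h5] at top
  replace top := imp_spec top r_16_13_5_0
  replace top := imp_spec top r_16_13_5_1
  replace top := imp_spec top r_16_13_5_2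
  unfold stB7_3 at top
  replace top := allI_get top b9
  try rw [h9] at top
  replace top := imp_spec top r_16_9_13_0
  replace top := imp_spec top r_16_9_13_1
  unfold stB7_4 at top
  replace top := allI_get top b8
  try rw [h8] at top
  simp only [strict_eq] at top
  have f1 : Nat.beq (Nat.mod (a % 16) (nat_lit 8)) (a % 8) = true := by
    rw [Nat.beq_eq]; have : a % 16 % 8 = a % 8 := by omega
    exact this
  have f2 : Nat.beq (Nat.mod (t % 16) (nat_lit 8)) (t % 8) = true := by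
    rw [Nat.beq_eq]; have : t % 16 % 8 = t % 8 := by omega
    exact this
  replace top := imp_spec (imp_spec top f1) f2
  unfold stB7_5 at top
  replace top := allI_get top b29
  try rw [h29] at top
  replace top := imp_spec top r_8_29_13_0
  exact Bool.false_ne_true top

/-- no large solution with `a = 7` -/
theorem noB7 {a n d : ℕ} (ha : a = 7) (hn2 : n % 2 = 1)
    (hd : (d : ℤ) = ((a : ℤ) * n) ^ 2 + 4 * a)
    (j3 : jacobiSym d 3 = -1)
    (j5 : jacobiSym d 5 = -1)
    (j13 : jacobiSym d 13 = -1)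
    (j29 : jacobiSym d 29 = -1)
    (hT : AllB a n d) : False := by
  have ha2 : a % 2 = 1 := by rw [ha]
  have q2 := d2_B hd ha2 hn2
  have q3 : ¬ 3 ∣ d := nd_of (by norm_num) j3
  have q5 : ¬ 5 ∣ d := nd_of (by norm_num) j5
  have q13 : ¬ 13 ∣ d := nd_of (by norm_num) j13
  have q29 : ¬ 29 ∣ d := nd_of (by norm_num) j29
  have c16 : Nat.Coprime 16 d := cop_of (p := 2) (k := 4) (by norm_num) q2
  have c13 : Nat.Coprime 13 d := cop_of (p := 13) (k := 1) (by norm_num) q13
  have c5 : Nat.Coprime 5 d := cop_of (p := 5) (k := 1) (by norm_num) q5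
  have c9 : Nat.Coprime 9 d := cop_of (p := 3) (k := 2) (by norm_num) q3
  have c8 : Nat.Coprime 8 d := cop_of (p := 2) (k := 3) (by norm_num) q2
  have c29 : Nat.Coprime 29 d := cop_of (p := 29) (k := 1) (by norm_num) q29
  obtain ⟨i16, b16, e16⟩ := memCheck_spec memB7_16 (Nat.mod_lt a (by norm_num))
    (Nat.mod_lt n (by norm_num)) (spc_of (cl2_of (n := 16) (by norm_num) ha2 hn2) (by rw [ha]))
  obtain ⟨i13, b13, e13⟩ := memCheck_spec memB7_13 (Nat.mod_lt a (by norm_num))
    (Nat.mod_lt n (by norm_num)) (spc_of (clB_of (n := 13) (by norm_num) (by norm_num) hd j13) (by rw [ha]))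
  obtain ⟨i5, b5, e5⟩ := memCheck_spec memB7_5 (Nat.mod_lt a (by norm_num))
    (Nat.mod_lt n (by norm_num)) (spc_of (clB_of (n := 5) (by norm_num) (by norm_num) hd j5) (by rw [ha]))
  obtain ⟨i9, b9, e9⟩ := memCheck_spec memB7_9 (Nat.mod_lt a (by norm_num))
    (Nat.mod_lt n (by norm_num)) (spc_of (clB_of (n := 9) (by norm_num) (by norm_num) hd j3) (by rw [ha]))
  obtain ⟨i8, b8, e8⟩ := memCheck_spec memB7_8 (Nat.mod_lt a (by norm_num))
    (Nat.mod_lt n (by norm_num)) (spc_of (cl2_of (n := 8) (by norm_num) ha2 hn2) (by rw [ha]))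
  obtain ⟨i29, b29, e29⟩ := memCheck_spec memB7_29 (Nat.mod_lt a (by norm_num))
    (Nat.mod_lt n (by norm_num)) (spc_of (clB_of (n := 29) (by norm_num) (by norm_num) hd j29) (by rw [ha]))
  exact falseB7 b16 b13 b5 b9 b8 b29 (allI_get allB7 b16)
    e16 e13 e5 e9 e8 e29
    (chkB_of hyp_16_13_5_0 dr_16_13_5_0 ctB7_16_13_5_0 hT (by norm_num) (by norm_num) (c16.mul_left c13) q5 b16 b13 e16 e13)
    (chkB_of hyp_16_13_5_1 dr_16_13_5_1 ctB7_16_13_5_1 hT (by norm_num) (by norm_num) (c16.mul_left c13) q5 b16 b13 e16 e13)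
    (chkB_of hyp_16_13_5_2 dr_16_13_5_2 ctB7_16_13_5_2 hT (by norm_num) (by norm_num) (c16.mul_left c13) q5 b16 b13 e16 e13)
    (chkB_of hyp_16_9_13_0 dr_16_9_13_0 ctB7_16_9_13_0 hT (by norm_num) (by norm_num) (c16.mul_left c9) q13 b16 b9 e16 e9)
    (chkB_of hyp_16_9_13_1 dr_16_9_13_1 ctB7_16_9_13_1 hT (by norm_num) (by norm_num) (c16.mul_left c9) q13 b16 b9 e16 e9)
    (chkB_of hyp_8_29_13_0 dr_8_29_13_0 ctB7_8_29_13_0 hT (by norm_num) (by norm_num) (c8.mul_left c29) q13 b8 b29 e8 e29)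

end Pool.Agent.LibH4.KF


end

section

/-! generated data -/

namespace Pool.Agent.LibH4.KF

open Ker T6

/-- classes -/
def CE11_16 : List (ℕ × ℕ) := [((nat_lit 11), (nat_lit 1)),((nat_lit 11), (nat_lit 3)),((nat_lit 11), (nat_lit 5)),((nat_lit 11), (nat_lit 7)),((nat_lit 11), (nat_lit 9)),((nat_lit 11), (nat_lit 11)),((nat_lit 11), (nat_lit 13)),((nat_lit 11), (nat_lit 15))]

lemma memE11_16 : memCheck (nat_lit 16) (spc (nat_lit 11) cl2) CE11_16 = true := by decide +kernel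

/-- classes -/
def CE11_13 : List (ℕ × ℕ) := [((nat_lit 11), (nat_lit 0)),((nat_lit 11), (nat_lit 2)),((nat_lit 11), (nat_lit 3)),((nat_lit 11), (nat_lit 4)),((nat_lit 11), (nat_lit 9)),((nat_lit 11), (nat_lit 10)),((nat_lit 11), (nat_lit 11))]

lemma memE11_13 : memCheck (nat_lit 13) (spc (nat_lit 11) (clE (nat_lit 13))) CE11_13 = true := by decide +kernel

/-- classes -/
def CE11_5 : List (ℕ × ℕ) := [((nat_lit 1), (nat_lit 1)),((nat_lit 1), (nat_lit 4))]

lemma memE11_5 : memCheck (nat_lit 5) (spc (nat_lit 1) (clE (nat_lit 5))) CE11_5 = true := by decide +kernel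

/-- classes -/
def CE11_9 : List (ℕ × ℕ) := [((nat_lit 2), (nat_lit 1)),((nat_lit 2), (nat_lit 2)),((nat_lit 2), (nat_lit 4)),((nat_lit 2), (nat_lit 5)),((nat_lit 2), (nat_lit 7)),((nat_lit 2), (nat_lit 8))]

lemma memE11_9 : memCheck (nat_lit 9) (spc (nat_lit 2) (clE (nat_lit 3))) CE11_9 = true := by decide +kernel

/-- table -/
def TBE11_16_13_5_0 : ℕ := nat_lit 69668312393331406391204161652694938531779415734635057405508701035827477487553006415923087211836028729329790081807887230065068215067179935465684135153153030535523945789198499136292962435075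

theorem ctE11_16_13_5_0 : checkR (nat_lit 84) (nat_lit 16) (nat_lit 13) (nat_lit 5) (nat_lit 1166467763814805520) (nat_lit 1183156957090320)
    DR_16_13_5_0 formsE P13 CE11_16 CE11_13 TBE11_16_13_5_0 = true :=
  KV.checkV_spec (by decide +kernel : KV.checkV (nat_lit 3) (nat_lit 84) (nat_lit 16) (nat_lit 13) (nat_lit 5) (nat_lit 1166467763814805520) (nat_lit 1183156957090320)
    DR_16_13_5_0 formsE P13 CE11_16 CE11_13 TBE11_16_13_5_0 = true)

/-- table -/
def TBE11_16_13_5_1 : ℕ := nat_lit 19138599757448333896846831191129413928159344164712677102508400613559816964399242067348490346063741320972010517968044073011445869230610388788471913958240995011622252019948284184569856582961393125298180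

theorem ctE11_16_13_5_1 : checkR (nat_lit 84) (nat_lit 16) (nat_lit 13) (nat_lit 5) (nat_lit 1161981756374523920) (nat_lit 1183156957090320)
    DR_16_13_5_1 formsE P13 CE11_16 CE11_13 TBE11_16_13_5_1 = true :=
  KV.checkV_spec (by decide +kernel : KV.checkV (nat_lit 3) (nat_lit 84) (nat_lit 16) (nat_lit 13) (nat_lit 5) (nat_lit 1161981756374523920) (nat_lit 1183156957090320)
    DR_16_13_5_1 formsE P13 CE11_16 CE11_13 TBE11_16_13_5_1 = true)

/-- table -/
def TBE11_16_13_5_2 : ℕ := nat_lit 9569299451064967875430772125334822906553071152010332494925781444727775645747696909320832097387026579371601438998164951435807104958365137918812184804509551565314122319657447539330552459691100355964930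

theorem ctE11_16_13_5_2 : checkR (nat_lit 84) (nat_lit 16) (nat_lit 13) (nat_lit 5) (nat_lit 4625249869016080400) (nat_lit 353030276977680)
    DR_16_13_5_2 formsE P13 CE11_16 CE11_13 TBE11_16_13_5_2 = true :=
  KV.checkV_spec (by decide +kernel : KV.checkV (nat_lit 3) (nat_lit 84) (nat_lit 16) (nat_lit 13) (nat_lit 5) (nat_lit 4625249869016080400) (nat_lit 353030276977680)
    DR_16_13_5_2 formsE P13 CE11_16 CE11_13 TBE11_16_13_5_2 = true)

/-- table -/
def TBE11_16_9_13_0 : ℕ := nat_lit 132714368354249008121856211659585401223175739175753821481561645638462295111274839991616518164496821765071113497998207607189205007843796898661155445561504649767532118016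

theorem ctE11_16_9_13_0 : checkR (nat_lit 72) (nat_lit 16) (nat_lit 9) (nat_lit 13) (nat_lit 1189039090416254992) (nat_lit 52349700624)
    DR_16_9_13_0 formsE P9 CE11_16 CE11_9 TBE11_16_9_13_0 = true :=
  KV.checkV_spec (by decide +kernel : KV.checkV (nat_lit 3) (nat_lit 72) (nat_lit 16) (nat_lit 9) (nat_lit 13) (nat_lit 1189039090416254992) (nat_lit 52349700624)
    DR_16_9_13_0 formsE P9 CE11_16 CE11_9 TBE11_16_9_13_0 = true)

/-- table -/
def TBE11_16_9_13_1 : ℕ := nat_lit 22257654276349033761082479767848171154174376125679817868642749780834405897977633824596837413616573427573357571971123297970255097573798471539707468658094447406241362019549552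

theorem ctE11_16_9_13_1 : checkR (nat_lit 72) (nat_lit 16) (nat_lit 9) (nat_lit 13) (nat_lit 13871228414696902672) (nat_lit 6714231056)
    DR_16_9_13_1 formsE P9 CE11_16 CE11_9 TBE11_16_9_13_1 = true :=
  KV.checkV_spec (by decide +kernel : KV.checkV (nat_lit 3) (nat_lit 72) (nat_lit 16) (nat_lit 9) (nat_lit 13) (nat_lit 13871228414696902672) (nat_lit 6714231056)
    DR_16_9_13_1 formsE P9 CE11_16 CE11_9 TBE11_16_9_13_1 = true)

/-- stage -/
def stE11_3 (a13 r_16_9_13_0 r_16_9_13_1 t13 : ℕ) : Bool :=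
  allI (fun i9 c9 =>
    imp (chkE (nat_lit 13) (dg (nat_lit 12) r_16_9_13_0 i9) a13 t13) <|
    imp (chkE (nat_lit 13) (dg (nat_lit 12) r_16_9_13_1 i9) a13 t13) <|
    false) CE11_9 (nat_lit 0)

/-- stage -/
def stE11_2 (a13 e_16_13_5_0 e_16_13_5_1 e_16_13_5_2 r_16_9_13_0 r_16_9_13_1 t13 : ℕ) : Bool :=
  allI (fun i5 c5 =>
    imp (chkE (nat_lit 5) e_16_13_5_0 c5.1 c5.2) <|
    imp (chkE (nat_lit 5) e_16_13_5_1 c5.1 c5.2) <|
    imp (chkE (nat_lit 5) e_16_13_5_2 c5.1 c5.2) <|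
    stE11_3 a13 r_16_9_13_0 r_16_9_13_1 t13) CE11_5 (nat_lit 0)

/-- stage -/
def stE11_1 (r_16_13_5_0 r_16_13_5_1 r_16_13_5_2 r_16_9_13_0 r_16_9_13_1 : ℕ) : Bool :=
  allI (fun i13 c13 =>
    strict (dg (nat_lit 12) r_16_13_5_0 i13) fun e_16_13_5_0 =>
    strict (dg (nat_lit 12) r_16_13_5_1 i13) fun e_16_13_5_1 =>
    strict (dg (nat_lit 12) r_16_13_5_2 i13) fun e_16_13_5_2 =>
    stE11_2 c13.1 e_16_13_5_0 e_16_13_5_1 e_16_13_5_2 r_16_9_13_0 r_16_9_13_1 c13.2) CE11_13 (nat_lit 0)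

/-- stage -/
def bdE11 (i16 : ℕ) (c16 : ℕ × ℕ) : Bool :=
    strict (dg (nat_lit 84) TBE11_16_13_5_0 i16) fun r_16_13_5_0 =>
    strict (dg (nat_lit 84) TBE11_16_13_5_1 i16) fun r_16_13_5_1 =>
    strict (dg (nat_lit 84) TBE11_16_13_5_2 i16) fun r_16_13_5_2 =>
    strict (dg (nat_lit 72) TBE11_16_9_13_0 i16) fun r_16_9_13_0 =>
    strict (dg (nat_lit 72) TBE11_16_9_13_1 i16) fun r_16_9_13_1 =>
    stE11_1 r_16_13_5_0 r_16_13_5_1 r_16_13_5_2 r_16_9_13_0 r_16_9_13_1

theorem allE11 : allI (fun i c => bdE11 i c) CE11_16 (nat_lit 0) = true := by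
  decide +kernel

theorem falseE11 {a t : ℕ} {i16 i13 i5 i9 : ℕ}
    (b16 : i16 < CE11_16.length)
    (b13 : i13 < CE11_13.length)
    (b5 : i5 < CE11_5.length)
    (b9 : i9 < CE11_9.length)
    (top : bdE11 i16 CE11_16[i16] = true)
    (h16 : CE11_16[i16] = (a % 16, t % 16))
    (h13 : CE11_13[i13] = (a % 13, t % 13))
    (h5 : CE11_5[i5] = (a % 5, t % 5))
    (h9 : CE11_9[i9] = (a % 9, t % 9))
    (r_16_13_5_0 : chkE 5 (dg 12 (dg 84 TBE11_16_13_5_0 i16) i13) (a % 5) (t % 5) = true)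
    (r_16_13_5_1 : chkE 5 (dg 12 (dg 84 TBE11_16_13_5_1 i16) i13) (a % 5) (t % 5) = true)
    (r_16_13_5_2 : chkE 5 (dg 12 (dg 84 TBE11_16_13_5_2 i16) i13) (a % 5) (t % 5) = true)
    (r_16_9_13_0 : chkE 13 (dg 12 (dg 72 TBE11_16_9_13_0 i16) i9) (a % 13) (t % 13) = true)
    (r_16_9_13_1 : chkE 13 (dg 12 (dg 72 TBE11_16_9_13_1 i16) i9) (a % 13) (t % 13) = true)
    : False := by
  try rw [h16] at top
  unfold bdE11 at top
  simp only [strict_eq] at top
  unfold stE11_1 at top
  replace top := allI_get top b13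
  try rw [h13] at top
  simp only [strict_eq] at top
  unfold stE11_2 at top
  replace top := allI_get top b5
  try rw [h5] at top
  replace top := imp_spec top r_16_13_5_0
  replace top := imp_spec top r_16_13_5_1
  replace top := imp_spec top r_16_13_5_2
  unfold stE11_3 at top
  replace top := allI_get top b9
  try rw [h9] at top
  replace top := imp_spec top r_16_9_13_0
  replace top := imp_spec top r_16_9_13_1
  exact Bool.false_ne_true top

/-- no large solution with `a = 11` -/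
theorem noE11 {a n d : ℕ} (ha : a = 11) (hn2 : n % 2 = 1)
    (hd : (d : ℤ) = ((a : ℤ) * n) ^ 2 - 4 * a)
    (j3 : jacobiSym d 3 = -1)
    (j5 : jacobiSym d 5 = -1)
    (j13 : jacobiSym d 13 = -1)
    (hT : AllE a n d) : False := by
  have ha2 : a % 2 = 1 := by rw [ha]
  have q2 := d2_E hd ha2 hn2
  have q3 : ¬ 3 ∣ d := nd_of (by norm_num) j3
  have q5 : ¬ 5 ∣ d := nd_of (by norm_num) j5
  have q13 : ¬ 13 ∣ d := nd_of (by norm_num) j13
  have c16 : Nat.Coprime 16 d := cop_of (p := 2) (k := 4) (by norm_num) q2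
  have c13 : Nat.Coprime 13 d := cop_of (p := 13) (k := 1) (by norm_num) q13
  have c5 : Nat.Coprime 5 d := cop_of (p := 5) (k := 1) (by norm_num) q5
  have c9 : Nat.Coprime 9 d := cop_of (p := 3) (k := 2) (by norm_num) q3
  obtain ⟨i16, b16, e16⟩ := memCheck_spec memE11_16 (Nat.mod_lt a (by norm_num))
    (Nat.mod_lt n (by norm_num)) (spc_of (cl2_of (n := 16) (by norm_num) ha2 hn2) (by rw [ha]))
  obtain ⟨i13, b13, e13⟩ := memCheck_spec memE11_13 (Nat.mod_lt a (by norm_num))
    (Nat.mod_lt n (by norm_num)) (spc_of (clE_of (n := 13) (by norm_num) (by norm_num) hd j13) (by rw [ha]))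
  obtain ⟨i5, b5, e5⟩ := memCheck_spec memE11_5 (Nat.mod_lt a (by norm_num))
    (Nat.mod_lt n (by norm_num)) (spc_of (clE_of (n := 5) (by norm_num) (by norm_num) hd j5) (by rw [ha]))
  obtain ⟨i9, b9, e9⟩ := memCheck_spec memE11_9 (Nat.mod_lt a (by norm_num))
    (Nat.mod_lt n (by norm_num)) (spc_of (clE_of (n := 9) (by norm_num) (by norm_num) hd j3) (by rw [ha]))
  exact falseE11 b16 b13 b5 b9 (allI_get allE11 b16)
    e16 e13 e5 e9
    (chkE_of hyp_16_13_5_0 dr_16_13_5_0 ctE11_16_13_5_0 hT (by norm_num) (by norm_num) (c16.mul_left c13) q5 b16 b13 e16 e13)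
    (chkE_of hyp_16_13_5_1 dr_16_13_5_1 ctE11_16_13_5_1 hT (by norm_num) (by norm_num) (c16.mul_left c13) q5 b16 b13 e16 e13)
    (chkE_of hyp_16_13_5_2 dr_16_13_5_2 ctE11_16_13_5_2 hT (by norm_num) (by norm_num) (c16.mul_left c13) q5 b16 b13 e16 e13)
    (chkE_of hyp_16_9_13_0 dr_16_9_13_0 ctE11_16_9_13_0 hT (by norm_num) (by norm_num) (c16.mul_left c9) q13 b16 b9 e16 e9)
    (chkE_of hyp_16_9_13_1 dr_16_9_13_1 ctE11_16_9_13_1 hT (by norm_num) (by norm_num) (c16.mul_left c9) q13 b16 b9 e16 e9)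

end Pool.Agent.LibH4.KF


end

section

/-! generated data -/

namespace Pool.Agent.LibH4.KF

open Ker T6

/-- classes -/
def CE17_16 : List (ℕ × ℕ) := [((nat_lit 1), (nat_lit 1)),((nat_lit 1), (nat_lit 3)),((nat_lit 1), (nat_lit 5)),((nat_lit 1), (nat_lit 7)),((nat_lit 1), (nat_lit 9)),((nat_lit 1), (nat_lit 11)),((nat_lit 1), (nat_lit 13)),((nat_lit 1), (nat_lit 15))]

lemma memE17_16 : memCheck (nat_lit 16) (spc (nat_lit 1) cl2) CE17_16 = true := by decide +kernel

/-- classes -/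
def CE17_13 : List (ℕ × ℕ) := [((nat_lit 4), (nat_lit 3)),((nat_lit 4), (nat_lit 4)),((nat_lit 4), (nat_lit 5)),((nat_lit 4), (nat_lit 8)),((nat_lit 4), (nat_lit 9)),((nat_lit 4), (nat_lit 10))]

lemma memE17_13 : memCheck (nat_lit 13) (spc (nat_lit 4) (clE (nat_lit 13))) CE17_13 = true := by decide +kernel

/-- classes -/
def CE17_5 : List (ℕ × ℕ) := [((nat_lit 2), (nat_lit 0)),((nat_lit 2), (nat_lit 2)),((nat_lit 2), (nat_lit 3))]

lemma memE17_5 : memCheck (nat_lit 5) (spc (nat_lit 2) (clE (nat_lit 5))) CE17_5 = true := by decide +kernel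

/-- table -/
def TBE17_16_13_5_0 : ℕ := nat_lit 44226122166306539987948653378067619042474947412825191176041456770799125682911974157957871969492861996803638717214187969265785999473162954123582543767531449169832058880

theorem ctE17_16_13_5_0 : checkR (nat_lit 72) (nat_lit 16) (nat_lit 13) (nat_lit 5) (nat_lit 1166467763814805520) (nat_lit 1183156957090320)
    DR_16_13_5_0 formsE P13 CE17_16 CE17_13 TBE17_16_13_5_0 = true :=
  KV.checkV_spec (by decide +kernel : KV.checkV (nat_lit 3) (nat_lit 72) (nat_lit 16) (nat_lit 13) (nat_lit 5) (nat_lit 1166467763814805520) (nat_lit 1183156957090320)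
    DR_16_13_5_0 formsE P13 CE17_16 CE17_13 TBE17_16_13_5_0 = true)

/-- table -/
def TBE17_16_13_5_1 : ℕ := nat_lit 14742041601511450859933639250571998958012099744142108776934719305695800257996001814086393219608568638395836038066591430215302914583435872858961153558525041971398983680

theorem ctE17_16_13_5_1 : checkR (nat_lit 72) (nat_lit 16) (nat_lit 13) (nat_lit 5) (nat_lit 1161981756374523920) (nat_lit 1183156957090320)
    DR_16_13_5_1 formsE P13 CE17_16 CE17_13 TBE17_16_13_5_1 = true :=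
  KV.checkV_spec (by decide +kernel : KV.checkV (nat_lit 3) (nat_lit 72) (nat_lit 16) (nat_lit 13) (nat_lit 5) (nat_lit 1161981756374523920) (nat_lit 1183156957090320)
    DR_16_13_5_1 formsE P13 CE17_16 CE17_13 TBE17_16_13_5_1 = true)

/-- table -/
def TBE17_16_13_5_2 : ℕ := nat_lit 120811034517363513117388679092211269575855108219551779636473676484472591240849199915266408966833468014367238301375062533824731574744395248086091154476851110804683594145795

theorem ctE17_16_13_5_2 : checkR (nat_lit 72) (nat_lit 16) (nat_lit 13) (nat_lit 5) (nat_lit 4625249869016080400) (nat_lit 353030276977680)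
    DR_16_13_5_2 formsE P13 CE17_16 CE17_13 TBE17_16_13_5_2 = true :=
  KV.checkV_spec (by decide +kernel : KV.checkV (nat_lit 3) (nat_lit 72) (nat_lit 16) (nat_lit 13) (nat_lit 5) (nat_lit 4625249869016080400) (nat_lit 353030276977680)
    DR_16_13_5_2 formsE P13 CE17_16 CE17_13 TBE17_16_13_5_2 = true)

/-- stage -/
def stE17_2 (e_16_13_5_0 e_16_13_5_1 e_16_13_5_2 : ℕ) : Bool :=
  allI (fun i5 c5 =>
    imp (chkE (nat_lit 5) e_16_13_5_0 c5.1 c5.2) <|
    imp (chkE (nat_lit 5) e_16_13_5_1 c5.1 c5.2) <|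
    imp (chkE (nat_lit 5) e_16_13_5_2 c5.1 c5.2) <|
    false) CE17_5 (nat_lit 0)

/-- stage -/
def stE17_1 (r_16_13_5_0 r_16_13_5_1 r_16_13_5_2 : ℕ) : Bool :=
  allI (fun i13 c13 =>
    strict (dg (nat_lit 12) r_16_13_5_0 i13) fun e_16_13_5_0 =>
    strict (dg (nat_lit 12) r_16_13_5_1 i13) fun e_16_13_5_1 =>
    strict (dg (nat_lit 12) r_16_13_5_2 i13) fun e_16_13_5_2 =>
    stE17_2 e_16_13_5_0 e_16_13_5_1 e_16_13_5_2) CE17_13 (nat_lit 0)

/-- stage -/
def bdE17 (i16 : ℕ) (c16 : ℕ × ℕ) : Bool :=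
    strict (dg (nat_lit 72) TBE17_16_13_5_0 i16) fun r_16_13_5_0 =>
    strict (dg (nat_lit 72) TBE17_16_13_5_1 i16) fun r_16_13_5_1 =>
    strict (dg (nat_lit 72) TBE17_16_13_5_2 i16) fun r_16_13_5_2 =>
    stE17_1 r_16_13_5_0 r_16_13_5_1 r_16_13_5_2

theorem allE17 : allI (fun i c => bdE17 i c) CE17_16 (nat_lit 0) = true := by
  decide +kernel

theorem falseE17 {a t : ℕ} {i16 i13 i5 : ℕ}
    (b16 : i16 < CE17_16.length)
    (b13 : i13 < CE17_13.length)
    (b5 : i5 < CE17_5.length)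
    (top : bdE17 i16 CE17_16[i16] = true)
    (h16 : CE17_16[i16] = (a % 16, t % 16))
    (h13 : CE17_13[i13] = (a % 13, t % 13))
    (h5 : CE17_5[i5] = (a % 5, t % 5))
    (r_16_13_5_0 : chkE 5 (dg 12 (dg 72 TBE17_16_13_5_0 i16) i13) (a % 5) (t % 5) = true)
    (r_16_13_5_1 : chkE 5 (dg 12 (dg 72 TBE17_16_13_5_1 i16) i13) (a % 5) (t % 5) = true)
    (r_16_13_5_2 : chkE 5 (dg 12 (dg 72 TBE17_16_13_5_2 i16) i13) (a % 5) (t % 5) = true)
    : False := by
  try rw [h16] at top
  unfold bdE17 at top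
  simp only [strict_eq] at top
  unfold stE17_1 at top
  replace top := allI_get top b13
  try rw [h13] at top
  simp only [strict_eq] at top
  unfold stE17_2 at top
  replace top := allI_get top b5
  try rw [h5] at top
  replace top := imp_spec top r_16_13_5_0
  replace top := imp_spec top r_16_13_5_1
  replace top := imp_spec top r_16_13_5_2
  exact Bool.false_ne_true top

/-- no large solution with `a = 17` -/
theorem noE17 {a n d : ℕ} (ha : a = 17) (hn2 : n % 2 = 1)
    (hd : (d : ℤ) = ((a : ℤ) * n) ^ 2 - 4 * a)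
    (j5 : jacobiSym d 5 = -1)
    (j13 : jacobiSym d 13 = -1)
    (hT : AllE a n d) : False := by
  have ha2 : a % 2 = 1 := by rw [ha]
  have q2 := d2_E hd ha2 hn2
  have q5 : ¬ 5 ∣ d := nd_of (by norm_num) j5
  have q13 : ¬ 13 ∣ d := nd_of (by norm_num) j13
  have c16 : Nat.Coprime 16 d := cop_of (p := 2) (k := 4) (by norm_num) q2
  have c13 : Nat.Coprime 13 d := cop_of (p := 13) (k := 1) (by norm_num) q13
  have c5 : Nat.Coprime 5 d := cop_of (p := 5) (k := 1) (by norm_num) q5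
  obtain ⟨i16, b16, e16⟩ := memCheck_spec memE17_16 (Nat.mod_lt a (by norm_num))
    (Nat.mod_lt n (by norm_num)) (spc_of (cl2_of (n := 16) (by norm_num) ha2 hn2) (by rw [ha]))
  obtain ⟨i13, b13, e13⟩ := memCheck_spec memE17_13 (Nat.mod_lt a (by norm_num))
    (Nat.mod_lt n (by norm_num)) (spc_of (clE_of (n := 13) (by norm_num) (by norm_num) hd j13) (by rw [ha]))
  obtain ⟨i5, b5, e5⟩ := memCheck_spec memE17_5 (Nat.mod_lt a (by norm_num))
    (Nat.mod_lt n (by norm_num)) (spc_of (clE_of (n := 5) (by norm_num) (by norm_num) hd j5) (by rw [ha]))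
  exact falseE17 b16 b13 b5 (allI_get allE17 b16)
    e16 e13 e5
    (chkE_of hyp_16_13_5_0 dr_16_13_5_0 ctE17_16_13_5_0 hT (by norm_num) (by norm_num) (c16.mul_left c13) q5 b16 b13 e16 e13)
    (chkE_of hyp_16_13_5_1 dr_16_13_5_1 ctE17_16_13_5_1 hT (by norm_num) (by norm_num) (c16.mul_left c13) q5 b16 b13 e16 e13)
    (chkE_of hyp_16_13_5_2 dr_16_13_5_2 ctE17_16_13_5_2 hT (by norm_num) (by norm_num) (c16.mul_left c13) q5 b16 b13 e16 e13)

end Pool.Agent.LibH4.KF


end

section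

/-! generated data -/

namespace Pool.Agent.LibH4.KF

open Ker T6

/-- classes -/
def CE19_16 : List (ℕ × ℕ) := [((nat_lit 3), (nat_lit 1)),((nat_lit 3), (nat_lit 3)),((nat_lit 3), (nat_lit 5)),((nat_lit 3), (nat_lit 7)),((nat_lit 3), (nat_lit 9)),((nat_lit 3), (nat_lit 11)),((nat_lit 3), (nat_lit 13)),((nat_lit 3), (nat_lit 15))]

lemma memE19_16 : memCheck (nat_lit 16) (spc (nat_lit 3) cl2) CE19_16 = true := by decide +kernel

/-- classes -/
def CE19_13 : List (ℕ × ℕ) := [((nat_lit 6), (nat_lit 0)),((nat_lit 6), (nat_lit 4)),((nat_lit 6), (nat_lit 5)),((nat_lit 6), (nat_lit 6)),((nat_lit 6), (nat_lit 7)),((nat_lit 6), (nat_lit 8)),((nat_lit 6), (nat_lit 9))]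

lemma memE19_13 : memCheck (nat_lit 13) (spc (nat_lit 6) (clE (nat_lit 13))) CE19_13 = true := by decide +kernel

/-- classes -/
def CE19_5 : List (ℕ × ℕ) := [((nat_lit 4), (nat_lit 2)),((nat_lit 4), (nat_lit 3))]

lemma memE19_5 : memCheck (nat_lit 5) (spc (nat_lit 4) (clE (nat_lit 5))) CE19_5 = true := by decide +kernel

/-- classes -/
def CE19_9 : List (ℕ × ℕ) := [((nat_lit 1), (nat_lit 0)),((nat_lit 1), (nat_lit 3)),((nat_lit 1), (nat_lit 6))]

lemma memE19_9 : memCheck (nat_lit 9) (spc (nat_lit 1) (clE (nat_lit 3))) CE19_9 = true := by decide +kernel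

/-- classes -/
def CE19_7 : List (ℕ × ℕ) := [((nat_lit 5), (nat_lit 1)),((nat_lit 5), (nat_lit 2)),((nat_lit 5), (nat_lit 5)),((nat_lit 5), (nat_lit 6))]

lemma memE19_7 : memCheck (nat_lit 7) (spc (nat_lit 5) (clE (nat_lit 7))) CE19_7 = true := by decide +kernel

/-- table -/
def TBE19_16_13_5_0 : ℕ := nat_lit 3504239616489766311623012916246160144836185806167210462485572762007634696814242784922338634718354253605181315449653870816828778831031476920656781943290878506697926136057551811952178027554366554115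

theorem ctE19_16_13_5_0 : checkR (nat_lit 84) (nat_lit 16) (nat_lit 13) (nat_lit 5) (nat_lit 1166467763814805520) (nat_lit 1183156957090320)
    DR_16_13_5_0 formsE P13 CE19_16 CE19_13 TBE19_16_13_5_0 = true :=
  KV.checkV_spec (by decide +kernel : KV.checkV (nat_lit 3) (nat_lit 84) (nat_lit 16) (nat_lit 13) (nat_lit 5) (nat_lit 1166467763814805520) (nat_lit 1183156957090320)
    DR_16_13_5_0 formsE P13 CE19_16 CE19_13 TBE19_16_13_5_0 = true)

/-- table -/
def TBE19_16_13_5_1 : ℕ := nat_lit 285431007881516660300692035821502801832231815044866083158926344639414491704322257198630838253209767765959745473552366598394957642055729932635144478719845949264592266262765244402583340761219075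

theorem ctE19_16_13_5_1 : checkR (nat_lit 84) (nat_lit 16) (nat_lit 13) (nat_lit 5) (nat_lit 1161981756374523920) (nat_lit 1183156957090320)
    DR_16_13_5_1 formsE P13 CE19_16 CE19_13 TBE19_16_13_5_1 = true :=
  KV.checkV_spec (by decide +kernel : KV.checkV (nat_lit 3) (nat_lit 84) (nat_lit 16) (nat_lit 13) (nat_lit 5) (nat_lit 1161981756374523920) (nat_lit 1183156957090320)
    DR_16_13_5_1 formsE P13 CE19_16 CE19_13 TBE19_16_13_5_1 = true)

/-- table -/
def TBE19_16_13_5_2 : ℕ := nat_lit 9572803975694761613438655286480228407162768014867925243251227869081739663284997820152047645352435153889267290496196928508780822462812372895516109958341871404705872089130259236859146403461028208717825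

theorem ctE19_16_13_5_2 : checkR (nat_lit 84) (nat_lit 16) (nat_lit 13) (nat_lit 5) (nat_lit 4625249869016080400) (nat_lit 353030276977680)
    DR_16_13_5_2 formsE P13 CE19_16 CE19_13 TBE19_16_13_5_2 = true :=
  KV.checkV_spec (by decide +kernel : KV.checkV (nat_lit 3) (nat_lit 84) (nat_lit 16) (nat_lit 13) (nat_lit 5) (nat_lit 4625249869016080400) (nat_lit 353030276977680)
    DR_16_13_5_2 formsE P13 CE19_16 CE19_13 TBE19_16_13_5_2 = true)

/-- table -/
def TBE19_16_9_13_0 : ℕ := nat_lit 607202643352559069665010761321984996190293283847212018099156132080621248021035778055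

theorem ctE19_16_9_13_0 : checkR (nat_lit 36) (nat_lit 16) (nat_lit 9) (nat_lit 13) (nat_lit 1189039090416254992) (nat_lit 52349700624)
    DR_16_9_13_0 formsE P9 CE19_16 CE19_9 TBE19_16_9_13_0 = true :=
  KV.checkV_spec (by decide +kernel : KV.checkV (nat_lit 2) (nat_lit 36) (nat_lit 16) (nat_lit 9) (nat_lit 13) (nat_lit 1189039090416254992) (nat_lit 52349700624)
    DR_16_9_13_0 formsE P9 CE19_16 CE19_9 TBE19_16_9_13_0 = true)

/-- table -/
def TBE19_16_9_13_1 : ℕ := nat_lit 139420234720449195736169625609373506117250559184547508298081871057467189443383309833328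

theorem ctE19_16_9_13_1 : checkR (nat_lit 36) (nat_lit 16) (nat_lit 9) (nat_lit 13) (nat_lit 13871228414696902672) (nat_lit 6714231056)
    DR_16_9_13_1 formsE P9 CE19_16 CE19_9 TBE19_16_9_13_1 = true :=
  KV.checkV_spec (by decide +kernel : KV.checkV (nat_lit 2) (nat_lit 36) (nat_lit 16) (nat_lit 9) (nat_lit 13) (nat_lit 13871228414696902672) (nat_lit 6714231056)
    DR_16_9_13_1 formsE P9 CE19_16 CE19_9 TBE19_16_9_13_1 = true)

/-- table -/
def TBE19_16_7_13_0 : ℕ := nat_lit 25461009925916347188838371830867897134614472478011359894244977211630324678148346459815984437886773398239968269576791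

theorem ctE19_16_7_13_0 : checkR (nat_lit 48) (nat_lit 16) (nat_lit 7) (nat_lit 13) (nat_lit 1175581068095410192) (nat_lit 205760784)
    DR_16_7_13_0 formsE P7 CE19_16 CE19_7 TBE19_16_7_13_0 = true :=
  KV.checkV_spec (by decide +kernel : KV.checkV (nat_lit 2) (nat_lit 48) (nat_lit 16) (nat_lit 7) (nat_lit 13) (nat_lit 1175581068095410192) (nat_lit 205760784)
    DR_16_7_13_0 formsE P7 CE19_16 CE19_7 TBE19_16_7_13_0 = true)

/-- stage -/
def stE19_4 (a13 r_16_7_13_0 t13 : ℕ) : Bool :=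
  allI (fun i7 c7 =>
    imp (chkE (nat_lit 13) (dg (nat_lit 12) r_16_7_13_0 i7) a13 t13) <|
    false) CE19_7 (nat_lit 0)

/-- stage -/
def stE19_3 (a13 r_16_7_13_0 r_16_9_13_0 r_16_9_13_1 t13 : ℕ) : Bool :=
  allI (fun i9 c9 =>
    imp (chkE (nat_lit 13) (dg (nat_lit 12) r_16_9_13_0 i9) a13 t13) <|
    imp (chkE (nat_lit 13) (dg (nat_lit 12) r_16_9_13_1 i9) a13 t13) <|
    stE19_4 a13 r_16_7_13_0 t13) CE19_9 (nat_lit 0)

/-- stage -/
def stE19_2 (a13 e_16_13_5_0 e_16_13_5_1 e_16_13_5_2 r_16_7_13_0 r_16_9_13_0 r_16_9_13_1 t13 : ℕ) : Bool :=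
  allI (fun i5 c5 =>
    imp (chkE (nat_lit 5) e_16_13_5_0 c5.1 c5.2) <|
    imp (chkE (nat_lit 5) e_16_13_5_1 c5.1 c5.2) <|
    imp (chkE (nat_lit 5) e_16_13_5_2 c5.1 c5.2) <|
    stE19_3 a13 r_16_7_13_0 r_16_9_13_0 r_16_9_13_1 t13) CE19_5 (nat_lit 0)

/-- stage -/
def stE19_1 (r_16_13_5_0 r_16_13_5_1 r_16_13_5_2 r_16_7_13_0 r_16_9_13_0 r_16_9_13_1 : ℕ) : Bool :=
  allI (fun i13 c13 =>
    strict (dg (nat_lit 12) r_16_13_5_0 i13) fun e_16_13_5_0 =>
    strict (dg (nat_lit 12) r_16_13_5_1 i13) fun e_16_13_5_1 =>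
    strict (dg (nat_lit 12) r_16_13_5_2 i13) fun e_16_13_5_2 =>
    stE19_2 c13.1 e_16_13_5_0 e_16_13_5_1 e_16_13_5_2 r_16_7_13_0 r_16_9_13_0 r_16_9_13_1 c13.2) CE19_13 (nat_lit 0)

/-- stage -/
def bdE19 (i16 : ℕ) (c16 : ℕ × ℕ) : Bool :=
    strict (dg (nat_lit 84) TBE19_16_13_5_0 i16) fun r_16_13_5_0 =>
    strict (dg (nat_lit 84) TBE19_16_13_5_1 i16) fun r_16_13_5_1 =>
    strict (dg (nat_lit 84) TBE19_16_13_5_2 i16) fun r_16_13_5_2 =>
    strict (dg (nat_lit 36) TBE19_16_9_13_0 i16) fun r_16_9_13_0 =>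
    strict (dg (nat_lit 36) TBE19_16_9_13_1 i16) fun r_16_9_13_1 =>
    strict (dg (nat_lit 48) TBE19_16_7_13_0 i16) fun r_16_7_13_0 =>
    stE19_1 r_16_13_5_0 r_16_13_5_1 r_16_13_5_2 r_16_7_13_0 r_16_9_13_0 r_16_9_13_1

theorem allE19 : allI (fun i c => bdE19 i c) CE19_16 (nat_lit 0) = true := by
  decide +kernel

theorem falseE19 {a t : ℕ} {i16 i13 i5 i9 i7 : ℕ}
    (b16 : i16 < CE19_16.length)
    (b13 : i13 < CE19_13.length)
    (b5 : i5 < CE19_5.length)
    (b9 : i9 < CE19_9.length)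
    (b7 : i7 < CE19_7.length)
    (top : bdE19 i16 CE19_16[i16] = true)
    (h16 : CE19_16[i16] = (a % 16, t % 16))
    (h13 : CE19_13[i13] = (a % 13, t % 13))
    (h5 : CE19_5[i5] = (a % 5, t % 5))
    (h9 : CE19_9[i9] = (a % 9, t % 9))
    (h7 : CE19_7[i7] = (a % 7, t % 7))
    (r_16_13_5_0 : chkE 5 (dg 12 (dg 84 TBE19_16_13_5_0 i16) i13) (a % 5) (t % 5) = true)
    (r_16_13_5_1 : chkE 5 (dg 12 (dg 84 TBE19_16_13_5_1 i16) i13) (a % 5) (t % 5) = true)
    (r_16_13_5_2 : chkE 5 (dg 12 (dg 84 TBE19_16_13_5_2 i16) i13) (a % 5) (t % 5) = true)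
    (r_16_9_13_0 : chkE 13 (dg 12 (dg 36 TBE19_16_9_13_0 i16) i9) (a % 13) (t % 13) = true)
    (r_16_9_13_1 : chkE 13 (dg 12 (dg 36 TBE19_16_9_13_1 i16) i9) (a % 13) (t % 13) = true)
    (r_16_7_13_0 : chkE 13 (dg 12 (dg 48 TBE19_16_7_13_0 i16) i7) (a % 13) (t % 13) = true)
    : False := by
  try rw [h16] at top
  unfold bdE19 at top
  simp only [strict_eq] at top
  unfold stE19_1 at top
  replace top := allI_get top b13
  try rw [h13] at top
  simp only [strict_eq] at top
  unfold stE19_2 at top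
  replace top := allI_get top b5
  try rw [h5] at top
  replace top := imp_spec top r_16_13_5_0
  replace top := imp_spec top r_16_13_5_1
  replace top := imp_spec top r_16_13_5_2
  unfold stE19_3 at top
  replace top := allI_get top b9
  try rw [h9] at top
  replace top := imp_spec top r_16_9_13_0
  replace top := imp_spec top r_16_9_13_1
  unfold stE19_4 at top
  replace top := allI_get top b7
  try rw [h7] at top
  replace top := imp_spec top r_16_7_13_0
  exact Bool.false_ne_true top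

/-- no large solution with `a = 19` -/
theorem noE19 {a n d : ℕ} (ha : a = 19) (hn2 : n % 2 = 1)
    (hd : (d : ℤ) = ((a : ℤ) * n) ^ 2 - 4 * a)
    (j3 : jacobiSym d 3 = -1)
    (j5 : jacobiSym d 5 = -1)
    (j7 : jacobiSym d 7 = -1)
    (j13 : jacobiSym d 13 = -1)
    (hT : AllE a n d) : False := by
  have ha2 : a % 2 = 1 := by rw [ha]
  have q2 := d2_E hd ha2 hn2
  have q3 : ¬ 3 ∣ d := nd_of (by norm_num) j3
  have q5 : ¬ 5 ∣ d := nd_of (by norm_num) j5
  have q7 : ¬ 7 ∣ d := nd_of (by norm_num) j7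
  have q13 : ¬ 13 ∣ d := nd_of (by norm_num) j13
  have c16 : Nat.Coprime 16 d := cop_of (p := 2) (k := 4) (by norm_num) q2
  have c13 : Nat.Coprime 13 d := cop_of (p := 13) (k := 1) (by norm_num) q13
  have c5 : Nat.Coprime 5 d := cop_of (p := 5) (k := 1) (by norm_num) q5
  have c9 : Nat.Coprime 9 d := cop_of (p := 3) (k := 2) (by norm_num) q3
  have c7 : Nat.Coprime 7 d := cop_of (p := 7) (k := 1) (by norm_num) q7
  obtain ⟨i16, b16, e16⟩ := memCheck_spec memE19_16 (Nat.mod_lt a (by norm_num))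
    (Nat.mod_lt n (by norm_num)) (spc_of (cl2_of (n := 16) (by norm_num) ha2 hn2) (by rw [ha]))
  obtain ⟨i13, b13, e13⟩ := memCheck_spec memE19_13 (Nat.mod_lt a (by norm_num))
    (Nat.mod_lt n (by norm_num)) (spc_of (clE_of (n := 13) (by norm_num) (by norm_num) hd j13) (by rw [ha]))
  obtain ⟨i5, b5, e5⟩ := memCheck_spec memE19_5 (Nat.mod_lt a (by norm_num))
    (Nat.mod_lt n (by norm_num)) (spc_of (clE_of (n := 5) (by norm_num) (by norm_num) hd j5) (by rw [ha]))
  obtain ⟨i9, b9, e9⟩ := memCheck_spec memE19_9 (Nat.mod_lt a (by norm_num))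
    (Nat.mod_lt n (by norm_num)) (spc_of (clE_of (n := 9) (by norm_num) (by norm_num) hd j3) (by rw [ha]))
  obtain ⟨i7, b7, e7⟩ := memCheck_spec memE19_7 (Nat.mod_lt a (by norm_num))
    (Nat.mod_lt n (by norm_num)) (spc_of (clE_of (n := 7) (by norm_num) (by norm_num) hd j7) (by rw [ha]))
  exact falseE19 b16 b13 b5 b9 b7 (allI_get allE19 b16)
    e16 e13 e5 e9 e7
    (chkE_of hyp_16_13_5_0 dr_16_13_5_0 ctE19_16_13_5_0 hT (by norm_num) (by norm_num) (c16.mul_left c13) q5 b16 b13 e16 e13)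
    (chkE_of hyp_16_13_5_1 dr_16_13_5_1 ctE19_16_13_5_1 hT (by norm_num) (by norm_num) (c16.mul_left c13) q5 b16 b13 e16 e13)
    (chkE_of hyp_16_13_5_2 dr_16_13_5_2 ctE19_16_13_5_2 hT (by norm_num) (by norm_num) (c16.mul_left c13) q5 b16 b13 e16 e13)
    (chkE_of hyp_16_9_13_0 dr_16_9_13_0 ctE19_16_9_13_0 hT (by norm_num) (by norm_num) (c16.mul_left c9) q13 b16 b9 e16 e9)
    (chkE_of hyp_16_9_13_1 dr_16_9_13_1 ctE19_16_9_13_1 hT (by norm_num) (by norm_num) (c16.mul_left c9) q13 b16 b9 e16 e9)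
    (chkE_of hyp_16_7_13_0 dr_16_7_13_0 ctE19_16_7_13_0 hT (by norm_num) (by norm_num) (c16.mul_left c7) q13 b16 b7 e16 e7)

end Pool.Agent.LibH4.KF


end

section

/-!
No field of the families `(an)² ∓ 4a` in which all the primes up to `29`, except possibly `a`, are inert
satisfies all the relations.
-/

namespace Pool.Agent.LibH4.KF

/-- **no large field** in the family `(an)² - 4a` -/
theorem noLargeE {a n d : ℕ} (ha2 : a % 2 = 1) (hn2 : n % 2 = 1)
    (hd : (d : ℤ) = ((a : ℤ) * n) ^ 2 - 4 * a)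
    (hin : ∀ p : ℕ, p.Prime → p ≠ 2 → p ≤ 29 → p ≠ a → jacobiSym d p = -1)
    (hT : AllE a n d) : False := by
  by_cases h3 : a = 3
  · exact noE3 h3 hn2 hd (hin 5 (by norm_num) (by norm_num) (by norm_num) (by omega)) (hin 7 (by norm_num) (by norm_num) (by norm_num) (by omega)) (hin 13 (by norm_num) (by norm_num) (by norm_num) (by omega)) (hin 17 (by norm_num) (by norm_num) (by norm_num) (by omega)) (hin 23 (by norm_num) (by norm_num) (by norm_num) (by omega)) (hin 29 (by norm_num) (by norm_num) (by norm_num) (by omega)) hT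
  by_cases h5 : a = 5
  · exact noE5 h5 hn2 hd (hin 7 (by norm_num) (by norm_num) (by norm_num) (by omega)) (hin 11 (by norm_num) (by norm_num) (by norm_num) (by omega)) (hin 13 (by norm_num) (by norm_num) (by norm_num) (by omega)) (hin 17 (by norm_num) (by norm_num) (by norm_num) (by omega)) hT
  by_cases h7 : a = 7
  · exact noE7 h7 hn2 hd (hin 3 (by norm_num) (by norm_num) (by norm_num) (by omega)) (hin 13 (by norm_num) (by norm_num) (by norm_num) (by omega)) hT
  by_cases h11 : a = 11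
  · exact noE11 h11 hn2 hd (hin 3 (by norm_num) (by norm_num) (by norm_num) (by omega)) (hin 5 (by norm_num) (by norm_num) (by norm_num) (by omega)) (hin 13 (by norm_num) (by norm_num) (by norm_num) (by omega)) hT
  by_cases h13 : a = 13
  · exact noE13 h13 hn2 hd (hin 3 (by norm_num) (by norm_num) (by norm_num) (by omega)) (hin 5 (by norm_num) (by norm_num) (by norm_num) (by omega)) (hin 7 (by norm_num) (by norm_num) (by norm_num) (by omega)) (hin 17 (by norm_num) (by norm_num) (by norm_num) (by omega)) (hin 19 (by norm_num) (by norm_num) (by norm_num) (by omega)) hT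
  by_cases h17 : a = 17
  · exact noE17 h17 hn2 hd (hin 5 (by norm_num) (by norm_num) (by norm_num) (by omega)) (hin 13 (by norm_num) (by norm_num) (by norm_num) (by omega)) hT
  by_cases h19 : a = 19
  · exact noE19 h19 hn2 hd (hin 3 (by norm_num) (by norm_num) (by norm_num) (by omega)) (hin 5 (by norm_num) (by norm_num) (by norm_num) (by omega)) (hin 7 (by norm_num) (by norm_num) (by norm_num) (by omega)) (hin 13 (by norm_num) (by norm_num) (by norm_num) (by omega)) hT
  exact noE ha2 hn2 hd (hin 3 (by norm_num) (by norm_num) (by norm_num) (by omega)) (hin 5 (by norm_num) (by norm_num) (by norm_num) (by omega)) (hin 7 (by norm_num) (by norm_num) (by norm_num) (by omega)) (hin 11 (by norm_num) (by norm_num) (by norm_num) (by omega)) (hin 13 (by norm_num) (by norm_num) (by norm_num) (by omega)) (hin 17 (by norm_num) (by norm_num) (by norm_num) (by omega)) (hin 19 (by norm_num) (by norm_num) (by norm_num) (by omega)) hT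

/-- **no large field** in the family `(an)² + 4a` -/
theorem noLargeB {a n d : ℕ} (ha2 : a % 2 = 1) (hn2 : n % 2 = 1)
    (hd : (d : ℤ) = ((a : ℤ) * n) ^ 2 + 4 * a)
    (hin : ∀ p : ℕ, p.Prime → p ≠ 2 → p ≤ 29 → p ≠ a → jacobiSym d p = -1)
    (hT : AllB a n d) : False := by
  by_cases h3 : a = 3
  · exact noB3 h3 hn2 hd (hin 7 (by norm_num) (by norm_num) (by norm_num) (by omega)) (hin 13 (by norm_num) (by norm_num) (by norm_num) (by omega)) (hin 19 (by norm_num) (by norm_num) (by norm_num) (by omega)) hT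
  by_cases h5 : a = 5
  · exact noB5 h5 hn2 hd (hin 3 (by norm_num) (by norm_num) (by norm_num) (by omega)) (hin 7 (by norm_num) (by norm_num) (by norm_num) (by omega)) (hin 13 (by norm_num) (by norm_num) (by norm_num) (by omega)) hT
  by_cases h7 : a = 7
  · exact noB7 h7 hn2 hd (hin 3 (by norm_num) (by norm_num) (by norm_num) (by omega)) (hin 5 (by norm_num) (by norm_num) (by norm_num) (by omega)) (hin 13 (by norm_num) (by norm_num) (by norm_num) (by omega)) (hin 29 (by norm_num) (by norm_num) (by norm_num) (by omega)) hT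
  by_cases h11 : a = 11
  · exact noB11 h11 hn2 hd (hin 5 (by norm_num) (by norm_num) (by norm_num) (by omega)) (hin 7 (by norm_num) (by norm_num) (by norm_num) (by omega)) (hin 13 (by norm_num) (by norm_num) (by norm_num) (by omega)) (hin 23 (by norm_num) (by norm_num) (by norm_num) (by omega)) hT
  by_cases h13 : a = 13
  · exact noB13 h13 hn2 hd (hin 3 (by norm_num) (by norm_num) (by norm_num) (by omega)) (hin 5 (by norm_num) (by norm_num) (by norm_num) (by omega)) (hin 7 (by norm_num) (by norm_num) (by norm_num) (by omega)) (hin 17 (by norm_num) (by norm_num) (by norm_num) (by omega)) (hin 19 (by norm_num) (by norm_num) (by norm_num) (by omega)) hT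
  by_cases h17 : a = 17
  · exact noB17 h17 hn2 hd (hin 5 (by norm_num) (by norm_num) (by norm_num) (by omega)) (hin 13 (by norm_num) (by norm_num) (by norm_num) (by omega)) hT
  by_cases h19 : a = 19
  · exact noB19 h19 hn2 hd (hin 5 (by norm_num) (by norm_num) (by norm_num) (by omega)) (hin 7 (by norm_num) (by norm_num) (by norm_num) (by omega)) (hin 13 (by norm_num) (by norm_num) (by norm_num) (by omega)) (hin 17 (by norm_num) (by norm_num) (by norm_num) (by omega)) (hin 23 (by norm_num) (by norm_num) (by norm_num) (by omega)) hT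
  exact noB ha2 hn2 hd (hin 3 (by norm_num) (by norm_num) (by norm_num) (by omega)) (hin 5 (by norm_num) (by norm_num) (by norm_num) (by omega)) (hin 7 (by norm_num) (by norm_num) (by norm_num) (by omega)) (hin 11 (by norm_num) (by norm_num) (by norm_num) (by omega)) (hin 13 (by norm_num) (by norm_num) (by norm_num) (by omega)) (hin 17 (by norm_num) (by norm_num) (by norm_num) (by omega)) (hin 19 (by norm_num) (by norm_num) (by norm_num) (by omega)) hT

end Pool.Agent.LibH4.KF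


end

section

/-!
Real quadratic fields of type `d = m² ± 4r`, `r ∣ m`, `m` odd: conclusion.
-/

namespace Pool.Agent.Lib_helper5

open Finset (range)
open Pool.Agent.LibH4 Pool.Agent.LibH4.FA Pool.Agent.LibH4.KF
open scoped NumberField

lemma allB_of (a n d : ℕ) (h : BL.All a n d) : AllB a n d := by
  intro q l _ hl hco hl6 hld chi hodd hmul hsum
  have : Fact l.Prime := ⟨hl⟩
  have h := h q l (Nat.pos_of_ne_zero (NeZero.ne q)) hco hl6 hld chi hodd hmul hsum
  rw [range_term, range_term] at h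
  have s1 := XX_swap chi hodd (a : ℤ) ((a : ℤ) * n) (-1)
  have s2 := YX_swap chi hodd (a : ℤ) ((a : ℤ) * n) (-1)
  rw [neg_neg] at s1 s2
  rw [s1, s2] at h
  unfold RelB
  linear_combination h

lemma allE_of (a n d : ℕ) (h : E1.All a n d) : AllE a n d := by
  intro q l _ hl hco hl6 hld chi hodd hmul hsum
  have : Fact l.Prime := ⟨hl⟩
  have h := h q l (Nat.pos_of_ne_zero (NeZero.ne q)) hco hl6 hld chi hodd hmul hsum
  rw [range_term, range_term, range_term, range_term] at h
  have s1 := XX_swap chi hodd ((a : ℤ) * n - a - 1) ((a : ℤ) * n - 2) (-1)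
  have s2 := YX_swap chi hodd ((a : ℤ) * n - a - 1) ((a : ℤ) * n - 2) (-1)
  have s3 := XX_swap chi hodd ((a : ℤ) * n - a - 1) ((a : ℤ) * n - 2 * a) (-a)
  have s4 := YX_swap chi hodd ((a : ℤ) * n - a - 1) ((a : ℤ) * n - 2 * a) (-a)
  rw [neg_neg] at s1 s2 s3 s4
  rw [s1, s2, s3, s4] at h
  unfold RelE
  linear_combination h

theorem noLargeBL : NoLargeBL := fun a n d _ ha2 hn2 hd hin hT =>
  noLargeB ha2 hn2 hd hin (allB_of a n d hT)

theorem noLargeE1 : NoLargeE1 := fun a n d _ ha2 _ hn2 hd hin hT =>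
  noLargeE ha2 hn2 hd hin (allE_of a n d hT)

/-- **class number one for `d = m² ± 4r`** -/
theorem rdFinal (d m r : ℕ) (hm : m % 2 = 1) (hr : r ∣ m)
    (hd : d = m ^ 2 + 4 * r ∨ d + 4 * r = m ^ 2) (hsq : Squarefree d) (h1 : 1 < d) :
    UniqueFactorizationMonoid (𝓞 (KQ d)) ↔ d ∈ rdList :=
  rdTheorem noLargeBL noLargeE1 d m r hm hr hd hsq h1

end Pool.Agent.Lib_helper5


end
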