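import Mathlib
import Pool.Agent.RQM.C10
import Pool.Agent.RQM.C12
import Pool.Agent.RQM.C13
import Pool.Agent.RQM.C15
import Pool.Agent.RQM.C16
import Pool.Agent.RQM.C17
import Pool.Agent.RQM.C18
import Pool.Agent.RQM.C19
import Pool.Agent.RQM.C20
import Pool.Agent.RQM.C21
import Pool.Agent.RQM.C23
import Pool.Agent.RQM.C24
import Pool.Agent.RQM.C25
import Pool.Agent.RQM.C28
import Pool.Agent.RQM.C29
import Pool.Agent.RQM.C30
import Pool.Agent.RQM.C31
import Pool.Agent.RQM.C32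
import Pool.Agent.RQM.C33
import Pool.Agent.RQM.C37
import Pool.Agent.RQM.V3

/-! Parts: RDF.KN_G, RDF.KS_G19, RDF.KS_G3, RDF.KFin, RDF.MainOdd, RDF.Main -/

namespace Pool.Agent.LibH4
end Pool.Agent.LibH4
namespace Pool.Agent.LibH4.FA
end Pool.Agent.LibH4.FA
namespace Pool.Agent.LibH4.KF
end Pool.Agent.LibH4.KF
namespace Pool.Agent.LibH4.Ker
end Pool.Agent.LibH4.Ker
namespace Pool.Agent.LibH4.T6
end Pool.Agent.LibH4.T6
namespace Pool.Agent.Lib_helper5
end Pool.Agent.Lib_helper5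
namespace Pool.Agent.Lib_helper5.RDF
end Pool.Agent.Lib_helper5.RDF
namespace Pool.Agent.RDF
end Pool.Agent.RDF

section

/-! generated data -/

namespace Pool.Agent.LibH4.KF

open Ker T6 Pool.Agent.RDF

lemma topRG {i : ℕ} (hi : i < CRG_7.length) : bdRG i CRG_7[i] = true := by
  have hlen : CRG_7.length = 21 := by decide +kernel
  rcases lt_or_ge i 3 with h | h
  · exact allI_take elimRG_0 hi (by omega) (by omega)
  rcases lt_or_ge i 6 with h | h
  · exact allI_take elimRG_1 hi (by omega) (by omega)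
  rcases lt_or_ge i 9 with h | h
  · exact allI_take elimRG_2 hi (by omega) (by omega)
  rcases lt_or_ge i 12 with h | h
  · exact allI_take elimRG_3 hi (by omega) (by omega)
  rcases lt_or_ge i 15 with h | h
  · exact allI_take elimRG_4 hi (by omega) (by omega)
  rcases lt_or_ge i 18 with h | h
  · exact allI_take elimRG_5 hi (by omega) (by omega)
  exact allI_take elimRG_6 hi (by omega) (by omega)

/-- no field of the family outside the ghosts -/
theorem noRG {a n d : ℕ} (hd : (d : ℤ) = (2 * FE.aa a * n) ^ 2 - FE.aa a)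
    (j3 : jacobiSym d 3 = -1)
    (j5 : jacobiSym d 5 = -1)
    (j7 : jacobiSym d 7 = -1)
    (j13 : jacobiSym d 13 = -1)
    (j17 : jacobiSym d 17 = -1)
    (j19 : jacobiSym d 19 = -1)
    (ng : ¬ 455 ∣ n)
    (hT : AllG a n d) : False := by
  have q3 : ¬ 3 ∣ d := nd_of (by norm_num) j3
  have q5 : ¬ 5 ∣ d := nd_of (by norm_num) j5
  have q7 : ¬ 7 ∣ d := nd_of (by norm_num) j7
  have q13 : ¬ 13 ∣ d := nd_of (by norm_num) j13
  have q17 : ¬ 17 ∣ d := nd_of (by norm_num) j17
  have q19 : ¬ 19 ∣ d := nd_of (by norm_num) j19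
  have c7 : Nat.Coprime 7 d := cop_of (p := 7) (k := 1) (by norm_num) q7
  have c5 : Nat.Coprime 5 d := cop_of (p := 5) (k := 1) (by norm_num) q5
  have c17 : Nat.Coprime 17 d := cop_of (p := 17) (k := 1) (by norm_num) q17
  have c13 : Nat.Coprime 13 d := cop_of (p := 13) (k := 1) (by norm_num) q13
  have c3 : Nat.Coprime 3 d := cop_of (p := 3) (k := 1) (by norm_num) q3
  have c19 : Nat.Coprime 19 d := cop_of (p := 19) (k := 1) (by norm_num) q19
  have c15 : Nat.Coprime 15 d := c3.mul_left c5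
  obtain ⟨i7, b7, e7⟩ := memCheck_spec memRG_7 (Nat.mod_lt a (by norm_num))
    (Nat.mod_lt n (by norm_num)) (clG_of (n := 7) (by norm_num) (by norm_num) hd j7)
  obtain ⟨i5, b5, e5⟩ := memCheck_spec memRG_5 (Nat.mod_lt a (by norm_num))
    (Nat.mod_lt n (by norm_num)) (clG_of (n := 5) (by norm_num) (by norm_num) hd j5)
  obtain ⟨i17, b17, e17⟩ := memCheck_spec memRG_17 (Nat.mod_lt a (by norm_num))
    (Nat.mod_lt n (by norm_num)) (clG_of (n := 17) (by norm_num) (by norm_num) hd j17)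
  obtain ⟨i13, b13, e13⟩ := memCheck_spec memRG_13 (Nat.mod_lt a (by norm_num))
    (Nat.mod_lt n (by norm_num)) (clG_of (n := 13) (by norm_num) (by norm_num) hd j13)
  obtain ⟨i3, b3, e3⟩ := memCheck_spec memRG_3 (Nat.mod_lt a (by norm_num))
    (Nat.mod_lt n (by norm_num)) (clG_of (n := 3) (by norm_num) (by norm_num) hd j3)
  obtain ⟨i19, b19, e19⟩ := memCheck_spec memRG_19 (Nat.mod_lt a (by norm_num))
    (Nat.mod_lt n (by norm_num)) (clG_of (n := 19) (by norm_num) (by norm_num) hd j19)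
  obtain ⟨b15, e15⟩ := prdRG_15 b3 b5 e3 e5
  have ng' : Nat.ble 1 (n % 5 + (n % 7 + n % 13)) = true := by
    rw [Nat.ble_eq]
    by_contra h
    have h5 : 5 ∣ n := by omega
    have h7 : 7 ∣ n := by omega
    have h13 : 13 ∣ n := by omega
    apply ng
    have h1 : 35 ∣ n := by omega
    omega
  exact falseRG b7 b5 b17 b13 b3 b19 (topRG b7)
    e7 e5 e17 e13 e3 e19
    ng'
    (chkG_of hyp_7_17_5_0 dr_7_17_5_0 ctRG_7_17_5_0 hT (by norm_num) (by norm_num) (c7.mul_left c17) q5 b7 b17 e7 e17)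
    (chkG_of hyp_7_17_13_0 dr_7_17_13_0 ctRG_7_17_13_0 hT (by norm_num) (by norm_num) (c7.mul_left c17) q13 b7 b17 e7 e17)
    (chkG_of hyp_17_13_5_0 dr_17_13_5_0 ctRG_17_13_5_0 hT (by norm_num) (by norm_num) (c17.mul_left c13) q5 b17 b13 e17 e13)
    (chkG_of hyp_7_15_13_0 dr_7_15_13_0 ctRG_7_15_13_0 hT (by norm_num) (by norm_num) (c7.mul_left c15) q13 b7 b15 e7 e15)
    (chkG_of hyp_17_3_5_0 dr_17_3_5_0 ctRG_17_3_5_0 hT (by norm_num) (by norm_num) (c17.mul_left c3) q5 b17 b3 e17 e3)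
    (chkG_of hyp_5_19_13_0 dr_5_19_13_0 ctRG_5_19_13_0 hT (by norm_num) (by norm_num) (c5.mul_left c19) q13 b5 b19 e5 e19)
    (chkG_of hyp_7_19_13_0 dr_7_19_13_0 ctRG_7_19_13_0 hT (by norm_num) (by norm_num) (c7.mul_left c19) q13 b7 b19 e7 e19)
    (chkG_of hyp_13_19_7_0 dr_13_19_7_0 ctRG_13_19_7_0 hT (by norm_num) (by norm_num) (c13.mul_left c19) q7 b13 b19 e13 e19)
    (chkG_of hyp_13_19_7_1 dr_13_19_7_1 ctRG_13_19_7_1 hT (by norm_num) (by norm_num) (c13.mul_left c19) q7 b13 b19 e13 e19)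
    (chkG_of hyp_17_19_7_0 dr_17_19_7_0 ctRG_17_19_7_0 hT (by norm_num) (by norm_num) (c17.mul_left c19) q7 b17 b19 e17 e19)

end Pool.Agent.LibH4.KF


end

section

/-! generated data -/

namespace Pool.Agent.LibH4.KF

open Ker T6 Pool.Agent.RDF

/-- classes -/
def CRGc_7 : List (ℕ × ℕ) := [((nat_lit 5), (nat_lit 2)),((nat_lit 5), (nat_lit 3)),((nat_lit 5), (nat_lit 4)),((nat_lit 5), (nat_lit 5))]

lemma memRGc_7 : memCheck (nat_lit 7) (spc (nat_lit 5) (clG (nat_lit 7))) CRGc_7 = true := by decide +kernel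

/-- classes -/
def CRGc_5 : List (ℕ × ℕ) := [((nat_lit 0), (nat_lit 2)),((nat_lit 0), (nat_lit 3))]

lemma memRGc_5 : memCheck (nat_lit 5) (spc (nat_lit 0) (clG (nat_lit 5))) CRGc_5 = true := by decide +kernel

/-- classes -/
def CRGc_17 : List (ℕ × ℕ) := [((nat_lit 5), (nat_lit 1)),((nat_lit 5), (nat_lit 2)),((nat_lit 5), (nat_lit 3)),((nat_lit 5), (nat_lit 5)),((nat_lit 5), (nat_lit 12)),((nat_lit 5), (nat_lit 14)),((nat_lit 5), (nat_lit 15)),((nat_lit 5), (nat_lit 16))]

lemma memRGc_17 : memCheck (nat_lit 17) (spc (nat_lit 5) (clG (nat_lit 17))) CRGc_17 = true := by decide +kernel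

/-- classes -/
def CRGc_13 : List (ℕ × ℕ) := [((nat_lit 5), (nat_lit 0)),((nat_lit 5), (nat_lit 1)),((nat_lit 5), (nat_lit 2)),((nat_lit 5), (nat_lit 5)),((nat_lit 5), (nat_lit 8)),((nat_lit 5), (nat_lit 11)),((nat_lit 5), (nat_lit 12))]

lemma memRGc_13 : memCheck (nat_lit 13) (spc (nat_lit 5) (clG (nat_lit 13))) CRGc_13 = true := by decide +kernel

/-- classes -/
def CRGc_3 : List (ℕ × ℕ) := [((nat_lit 2), (nat_lit 0))]

lemma memRGc_3 : memCheck (nat_lit 3) (spc (nat_lit 2) (clG (nat_lit 3))) CRGc_3 = true := by decide +kernel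

/-- classes -/
def CRGc_15 : List (ℕ × ℕ) := [((nat_lit 5), (nat_lit 12)),((nat_lit 5), (nat_lit 3))]

lemma lenRGc_15 : CRGc_5.length = 2 := by decide +kernel

lemma prdRGc_15 {a t i j : ℕ} (hi : i < CRGc_3.length) (hj : j < CRGc_5.length)
    (h1 : CRGc_3[i] = (a % 3, t % 3)) (h2 : CRGc_5[j] = (a % 5, t % 5)) :
    ∃ h : i * 2 + j < CRGc_15.length, CRGc_15[i * 2 + j] = (a % 15, t % 15) := by
  have e : CRGc_15 = prodL 15 10 6 CRGc_3 CRGc_5 := by decide +kernel
  obtain ⟨h3, h4⟩ := prodL_get 15 10 6 CRGc_3 CRGc_5 hi hj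
  rw [h1, h2] at h4
  simp only [lenRGc_15] at h3 h4
  simp only [← e] at h3 h4
  refine ⟨h3, ?_⟩
  rw [h4]
  ext
  · change (a % 3 * 10 + a % 5 * 6) % 15 = a % 15
    omega
  · change (t % 3 * 10 + t % 5 * 6) % 15 = t % 15
    omega

/-- table -/
def TBRGc_7_17_5_0 : ℕ := nat_lit 3107897041880710474925687902215523126043388412047720597644676084040193403526236989387853744832184250189334227202370

theorem ctRGc_7_17_5_0 : checkR (nat_lit 96) (nat_lit 7) (nat_lit 17) (nat_lit 5) (nat_lit 71385360) (nat_lit 19893600294952583440)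
    DR_7_17_5_0 formsG P17 CRGc_7 CRGc_17 TBRGc_7_17_5_0 = true :=
  KV.checkV_spec (by decide +kernel : KV.checkV (nat_lit 3) (nat_lit 96) (nat_lit 7) (nat_lit 17) (nat_lit 5) (nat_lit 71385360) (nat_lit 19893600294952583440)
    DR_7_17_5_0 formsG P17 CRGc_7 CRGc_17 TBRGc_7_17_5_0 = true)

/-- table -/
def TBRGc_7_17_13_0 : ℕ := nat_lit 13299424472504114989223426416626746885140114471238684668234602560504818785777198957166742641295025254754479916909931

theorem ctRGc_7_17_13_0 : checkR (nat_lit 96) (nat_lit 7) (nat_lit 17) (nat_lit 13) (nat_lit 205760784) (nat_lit 32865112616832437264)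
    DR_7_17_13_0 formsG P17 CRGc_7 CRGc_17 TBRGc_7_17_13_0 = true :=
  KV.checkV_spec (by decide +kernel : KV.checkV (nat_lit 3) (nat_lit 96) (nat_lit 7) (nat_lit 17) (nat_lit 13) (nat_lit 205760784) (nat_lit 32865112616832437264)
    DR_7_17_13_0 formsG P17 CRGc_7 CRGc_17 TBRGc_7_17_13_0 = true)

/-- table -/
def TBRGc_17_13_5_0 : ℕ := nat_lit 3756409801935201226857851594611770111357838687308117016001640895799508099064625353889254112826278557841622998078405458330940314434645541472690054511542670688039110426581609357932729463302804670956770065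

theorem ctRGc_17_13_5_0 : checkR (nat_lit 84) (nat_lit 17) (nat_lit 13) (nat_lit 5) (nat_lit 23207668197802189840) (nat_lit 1165560225469200)
    DR_17_13_5_0 formsG P13 CRGc_17 CRGc_13 TBRGc_17_13_5_0 = true :=
  KV.checkV_spec (by decide +kernel : KV.checkV (nat_lit 3) (nat_lit 84) (nat_lit 17) (nat_lit 13) (nat_lit 5) (nat_lit 23207668197802189840) (nat_lit 1165560225469200)
    DR_17_13_5_0 formsG P13 CRGc_17 CRGc_13 TBRGc_17_13_5_0 = true)

/-- table -/
def TBRGc_7_15_13_0 : ℕ := nat_lit 23604034794379154692961502403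

theorem ctRGc_7_15_13_0 : checkR (nat_lit 24) (nat_lit 7) (nat_lit 15) (nat_lit 13) (nat_lit 212419344) (nat_lit 108297520107227152)
    DR_7_15_13_0 formsG P15 CRGc_7 CRGc_15 TBRGc_7_15_13_0 = true :=
  KV.checkV_spec (by decide +kernel : KV.checkV (nat_lit 1) (nat_lit 24) (nat_lit 7) (nat_lit 15) (nat_lit 13) (nat_lit 212419344) (nat_lit 108297520107227152)
    DR_7_15_13_0 formsG P15 CRGc_7 CRGc_15 TBRGc_7_15_13_0 = true)

/-- stage -/
def stRGc_4 (a13 i5 r_7_15_13_0 t13 : ℕ) : Bool :=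
  allI (fun i3 c3 =>
    imp (chkG (nat_lit 13) (dg (nat_lit 12) r_7_15_13_0 (Nat.add (Nat.mul i3 (nat_lit 2)) i5)) a13 t13) <|
    false) CRGc_3 (nat_lit 0)

/-- stage -/
def stRGc_3 (a5 e_7_17_13_0 i5 r_17_13_5_0 r_7_15_13_0 t5 : ℕ) : Bool :=
  allI (fun i13 c13 =>
    imp (chkG (nat_lit 13) e_7_17_13_0 c13.1 c13.2) <|
    imp (chkG (nat_lit 5) (dg (nat_lit 12) r_17_13_5_0 i13) a5 t5) <|
    stRGc_4 c13.1 i5 r_7_15_13_0 c13.2) CRGc_13 (nat_lit 0)

/-- stage -/
def stRGc_2 (a5 i5 r_7_15_13_0 r_7_17_13_0 r_7_17_5_0 t5 : ℕ) : Bool :=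
  allI (fun i17 c17 =>
    imp (chkG (nat_lit 5) (dg (nat_lit 12) r_7_17_5_0 i17) a5 t5) <|
    strict (dg (nat_lit 12) r_7_17_13_0 i17) fun e_7_17_13_0 =>
    strict (dg (nat_lit 84) TBRGc_17_13_5_0 i17) fun r_17_13_5_0 =>
    stRGc_3 a5 e_7_17_13_0 i5 r_17_13_5_0 r_7_15_13_0 t5) CRGc_17 (nat_lit 0)

/-- stage -/
def stRGc_1 (r_7_15_13_0 r_7_17_13_0 r_7_17_5_0 : ℕ) : Bool :=
  allI (fun i5 c5 =>
    stRGc_2 c5.1 i5 r_7_15_13_0 r_7_17_13_0 r_7_17_5_0 c5.2) CRGc_5 (nat_lit 0)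

/-- stage -/
def bdRGc (i7 : ℕ) (c7 : ℕ × ℕ) : Bool :=
    strict (dg (nat_lit 96) TBRGc_7_17_5_0 i7) fun r_7_17_5_0 =>
    strict (dg (nat_lit 96) TBRGc_7_17_13_0 i7) fun r_7_17_13_0 =>
    strict (dg (nat_lit 24) TBRGc_7_15_13_0 i7) fun r_7_15_13_0 =>
    stRGc_1 r_7_15_13_0 r_7_17_13_0 r_7_17_5_0

theorem allRGc : allI (fun i c => bdRGc i c) CRGc_7 (nat_lit 0) = true := by
  decide +kernel

theorem falseRGc {a t : ℕ} {i7 i5 i17 i13 i3 : ℕ}
    (b7 : i7 < CRGc_7.length)
    (b5 : i5 < CRGc_5.length)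
    (b17 : i17 < CRGc_17.length)
    (b13 : i13 < CRGc_13.length)
    (b3 : i3 < CRGc_3.length)
    (top : bdRGc i7 CRGc_7[i7] = true)
    (h7 : CRGc_7[i7] = (a % 7, t % 7))
    (h5 : CRGc_5[i5] = (a % 5, t % 5))
    (h17 : CRGc_17[i17] = (a % 17, t % 17))
    (h13 : CRGc_13[i13] = (a % 13, t % 13))
    (h3 : CRGc_3[i3] = (a % 3, t % 3))
    (r_7_17_5_0 : chkG 5 (dg 12 (dg 96 TBRGc_7_17_5_0 i7) i17) (a % 5) (t % 5) = true)
    (r_7_17_13_0 : chkG 13 (dg 12 (dg 96 TBRGc_7_17_13_0 i7) i17) (a % 13) (t % 13) = true)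
    (r_17_13_5_0 : chkG 5 (dg 12 (dg 84 TBRGc_17_13_5_0 i17) i13) (a % 5) (t % 5) = true)
    (r_7_15_13_0 : chkG 13 (dg 12 (dg 24 TBRGc_7_15_13_0 i7) (i3 * 2 + i5)) (a % 13) (t % 13) = true)
    : False := by
  try rw [h7] at top
  unfold bdRGc at top
  simp only [strict_eq] at top
  unfold stRGc_1 at top
  replace top := allI_get top b5
  try rw [h5] at top
  unfold stRGc_2 at top
  replace top := allI_get top b17
  try rw [h17] at top
  simp only [strict_eq] at top
  replace top := imp_spec top r_7_17_5_0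
  unfold stRGc_3 at top
  replace top := allI_get top b13
  try rw [h13] at top
  replace top := imp_spec top r_7_17_13_0
  replace top := imp_spec top r_17_13_5_0
  unfold stRGc_4 at top
  replace top := allI_get top b3
  try rw [h3] at top
  replace top := imp_spec top r_7_15_13_0
  exact Bool.false_ne_true top

/-- no field with `a = 19` -/
theorem noG19 {a n d : ℕ} (ha : a = 5) (hd : (d : ℤ) = (2 * FE.aa a * n) ^ 2 - FE.aa a)
    (j3 : jacobiSym d 3 = -1)
    (j5 : jacobiSym d 5 = -1)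
    (j7 : jacobiSym d 7 = -1)
    (j13 : jacobiSym d 13 = -1)
    (j17 : jacobiSym d 17 = -1)
    (hT : AllG a n d) : False := by
  have q3 : ¬ 3 ∣ d := nd_of (by norm_num) j3
  have q5 : ¬ 5 ∣ d := nd_of (by norm_num) j5
  have q7 : ¬ 7 ∣ d := nd_of (by norm_num) j7
  have q13 : ¬ 13 ∣ d := nd_of (by norm_num) j13
  have q17 : ¬ 17 ∣ d := nd_of (by norm_num) j17
  have c7 : Nat.Coprime 7 d := cop_of (p := 7) (k := 1) (by norm_num) q7
  have c5 : Nat.Coprime 5 d := cop_of (p := 5) (k := 1) (by norm_num) q5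
  have c17 : Nat.Coprime 17 d := cop_of (p := 17) (k := 1) (by norm_num) q17
  have c13 : Nat.Coprime 13 d := cop_of (p := 13) (k := 1) (by norm_num) q13
  have c3 : Nat.Coprime 3 d := cop_of (p := 3) (k := 1) (by norm_num) q3
  have c15 : Nat.Coprime 15 d := c3.mul_left c5
  obtain ⟨i7, b7, e7⟩ := memCheck_spec memRGc_7 (Nat.mod_lt a (by norm_num))
    (Nat.mod_lt n (by norm_num)) (spc_of (clG_of (n := 7) (by norm_num) (by norm_num) hd j7) (by rw [ha]))
  obtain ⟨i5, b5, e5⟩ := memCheck_spec memRGc_5 (Nat.mod_lt a (by norm_num))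
    (Nat.mod_lt n (by norm_num)) (spc_of (clG_of (n := 5) (by norm_num) (by norm_num) hd j5) (by rw [ha]))
  obtain ⟨i17, b17, e17⟩ := memCheck_spec memRGc_17 (Nat.mod_lt a (by norm_num))
    (Nat.mod_lt n (by norm_num)) (spc_of (clG_of (n := 17) (by norm_num) (by norm_num) hd j17) (by rw [ha]))
  obtain ⟨i13, b13, e13⟩ := memCheck_spec memRGc_13 (Nat.mod_lt a (by norm_num))
    (Nat.mod_lt n (by norm_num)) (spc_of (clG_of (n := 13) (by norm_num) (by norm_num) hd j13) (by rw [ha]))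
  obtain ⟨i3, b3, e3⟩ := memCheck_spec memRGc_3 (Nat.mod_lt a (by norm_num))
    (Nat.mod_lt n (by norm_num)) (spc_of (clG_of (n := 3) (by norm_num) (by norm_num) hd j3) (by rw [ha]))
  obtain ⟨b15, e15⟩ := prdRGc_15 b3 b5 e3 e5
  exact falseRGc b7 b5 b17 b13 b3 (allI_get allRGc b7)
    e7 e5 e17 e13 e3
    (chkG_of hyp_7_17_5_0 dr_7_17_5_0 ctRGc_7_17_5_0 hT (by norm_num) (by norm_num) (c7.mul_left c17) q5 b7 b17 e7 e17)
    (chkG_of hyp_7_17_13_0 dr_7_17_13_0 ctRGc_7_17_13_0 hT (by norm_num) (by norm_num) (c7.mul_left c17) q13 b7 b17 e7 e17)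
    (chkG_of hyp_17_13_5_0 dr_17_13_5_0 ctRGc_17_13_5_0 hT (by norm_num) (by norm_num) (c17.mul_left c13) q5 b17 b13 e17 e13)
    (chkG_of hyp_7_15_13_0 dr_7_15_13_0 ctRGc_7_15_13_0 hT (by norm_num) (by norm_num) (c7.mul_left c15) q13 b7 b15 e7 e15)

end Pool.Agent.LibH4.KF


end

section

/-! generated data -/

namespace Pool.Agent.LibH4.KF

open Ker T6 Pool.Agent.RDF

/-- classes -/
def CRGa_7 : List (ℕ × ℕ) := [((nat_lit 1), (nat_lit 1)),((nat_lit 1), (nat_lit 3)),((nat_lit 1), (nat_lit 4)),((nat_lit 1), (nat_lit 6))]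

lemma memRGa_7 : memCheck (nat_lit 7) (spc (nat_lit 1) (clG (nat_lit 7))) CRGa_7 = true := by decide +kernel

/-- classes -/
def CRGa_5 : List (ℕ × ℕ) := [((nat_lit 1), (nat_lit 0)),((nat_lit 1), (nat_lit 1)),((nat_lit 1), (nat_lit 4))]

lemma memRGa_5 : memCheck (nat_lit 5) (spc (nat_lit 1) (clG (nat_lit 5))) CRGa_5 = true := by decide +kernel

/-- classes -/
def CRGa_17 : List (ℕ × ℕ) := [((nat_lit 1), (nat_lit 0)),((nat_lit 1), (nat_lit 2)),((nat_lit 1), (nat_lit 4)),((nat_lit 1), (nat_lit 7)),((nat_lit 1), (nat_lit 8)),((nat_lit 1), (nat_lit 9)),((nat_lit 1), (nat_lit 10)),((nat_lit 1), (nat_lit 13)),((nat_lit 1), (nat_lit 15))]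

lemma memRGa_17 : memCheck (nat_lit 17) (spc (nat_lit 1) (clG (nat_lit 17))) CRGa_17 = true := by decide +kernel

/-- classes -/
def CRGa_13 : List (ℕ × ℕ) := [((nat_lit 1), (nat_lit 1)),((nat_lit 1), (nat_lit 2)),((nat_lit 1), (nat_lit 6)),((nat_lit 1), (nat_lit 7)),((nat_lit 1), (nat_lit 11)),((nat_lit 1), (nat_lit 12))]

lemma memRGa_13 : memCheck (nat_lit 13) (spc (nat_lit 1) (clG (nat_lit 13))) CRGa_13 = true := by decide +kernel

/-- table -/
def TBRGa_7_17_5_0 : ℕ := nat_lit 2957513017799347575085217710484545391322439704275634742781174257113825469610819043243252783394933610350458509446078844489613706305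

theorem ctRGa_7_17_5_0 : checkR (nat_lit 108) (nat_lit 7) (nat_lit 17) (nat_lit 5) (nat_lit 71385360) (nat_lit 19893600294952583440)
    DR_7_17_5_0 formsG P17 CRGa_7 CRGa_17 TBRGa_7_17_5_0 = true :=
  KV.checkV_spec (by decide +kernel : KV.checkV (nat_lit 4) (nat_lit 108) (nat_lit 7) (nat_lit 17) (nat_lit 5) (nat_lit 71385360) (nat_lit 19893600294952583440)
    DR_7_17_5_0 formsG P17 CRGa_7 CRGa_17 TBRGa_7_17_5_0 = true)

/-- table -/
def TBRGa_7_17_13_0 : ℕ := nat_lit 6489191322048693596226374007122697932191000187810893594236030997502641743497149424639962336350682720776746761236983351496358087004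

theorem ctRGa_7_17_13_0 : checkR (nat_lit 108) (nat_lit 7) (nat_lit 17) (nat_lit 13) (nat_lit 205760784) (nat_lit 32865112616832437264)
    DR_7_17_13_0 formsG P17 CRGa_7 CRGa_17 TBRGa_7_17_13_0 = true :=
  KV.checkV_spec (by decide +kernel : KV.checkV (nat_lit 4) (nat_lit 108) (nat_lit 7) (nat_lit 17) (nat_lit 13) (nat_lit 205760784) (nat_lit 32865112616832437264)
    DR_7_17_13_0 formsG P17 CRGa_7 CRGa_17 TBRGa_7_17_13_0 = true)

/-- table -/
def TBRGa_17_13_5_0 : ℕ := nat_lit 224469776935337037398570304318405226328274276554073234467602138565532907744699423944420384126844530952044317050414584934376919500894368851457062737370432618238082292415243328828361676630587949840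

theorem ctRGa_17_13_5_0 : checkR (nat_lit 72) (nat_lit 17) (nat_lit 13) (nat_lit 5) (nat_lit 23207668197802189840) (nat_lit 1165560225469200)
    DR_17_13_5_0 formsG P13 CRGa_17 CRGa_13 TBRGa_17_13_5_0 = true :=
  KV.checkV_spec (by decide +kernel : KV.checkV (nat_lit 3) (nat_lit 72) (nat_lit 17) (nat_lit 13) (nat_lit 5) (nat_lit 23207668197802189840) (nat_lit 1165560225469200)
    DR_17_13_5_0 formsG P13 CRGa_17 CRGa_13 TBRGa_17_13_5_0 = true)

/-- stage -/
def stRGa_3 (a5 e_7_17_13_0 r_17_13_5_0 t5 : ℕ) : Bool :=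
  allI (fun i13 c13 =>
    imp (chkG (nat_lit 13) e_7_17_13_0 c13.1 c13.2) <|
    imp (chkG (nat_lit 5) (dg (nat_lit 12) r_17_13_5_0 i13) a5 t5) <|
    false) CRGa_13 (nat_lit 0)

/-- stage -/
def stRGa_2 (a5 r_7_17_13_0 r_7_17_5_0 t5 : ℕ) : Bool :=
  allI (fun i17 c17 =>
    imp (chkG (nat_lit 5) (dg (nat_lit 12) r_7_17_5_0 i17) a5 t5) <|
    strict (dg (nat_lit 12) r_7_17_13_0 i17) fun e_7_17_13_0 =>
    strict (dg (nat_lit 72) TBRGa_17_13_5_0 i17) fun r_17_13_5_0 =>
    stRGa_3 a5 e_7_17_13_0 r_17_13_5_0 t5) CRGa_17 (nat_lit 0)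

/-- stage -/
def stRGa_1 (r_7_17_13_0 r_7_17_5_0 : ℕ) : Bool :=
  allI (fun i5 c5 =>
    stRGa_2 c5.1 r_7_17_13_0 r_7_17_5_0 c5.2) CRGa_5 (nat_lit 0)

/-- stage -/
def bdRGa (i7 : ℕ) (c7 : ℕ × ℕ) : Bool :=
    strict (dg (nat_lit 108) TBRGa_7_17_5_0 i7) fun r_7_17_5_0 =>
    strict (dg (nat_lit 108) TBRGa_7_17_13_0 i7) fun r_7_17_13_0 =>
    stRGa_1 r_7_17_13_0 r_7_17_5_0

theorem allRGa : allI (fun i c => bdRGa i c) CRGa_7 (nat_lit 0) = true := by
  decide +kernel

theorem falseRGa {a t : ℕ} {i7 i5 i17 i13 : ℕ}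
    (b7 : i7 < CRGa_7.length)
    (b5 : i5 < CRGa_5.length)
    (b17 : i17 < CRGa_17.length)
    (b13 : i13 < CRGa_13.length)
    (top : bdRGa i7 CRGa_7[i7] = true)
    (h7 : CRGa_7[i7] = (a % 7, t % 7))
    (h5 : CRGa_5[i5] = (a % 5, t % 5))
    (h17 : CRGa_17[i17] = (a % 17, t % 17))
    (h13 : CRGa_13[i13] = (a % 13, t % 13))
    (r_7_17_5_0 : chkG 5 (dg 12 (dg 108 TBRGa_7_17_5_0 i7) i17) (a % 5) (t % 5) = true)
    (r_7_17_13_0 : chkG 13 (dg 12 (dg 108 TBRGa_7_17_13_0 i7) i17) (a % 13) (t % 13) = true)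
    (r_17_13_5_0 : chkG 5 (dg 12 (dg 72 TBRGa_17_13_5_0 i17) i13) (a % 5) (t % 5) = true)
    : False := by
  try rw [h7] at top
  unfold bdRGa at top
  simp only [strict_eq] at top
  unfold stRGa_1 at top
  replace top := allI_get top b5
  try rw [h5] at top
  unfold stRGa_2 at top
  replace top := allI_get top b17
  try rw [h17] at top
  simp only [strict_eq] at top
  replace top := imp_spec top r_7_17_5_0
  unfold stRGa_3 at top
  replace top := allI_get top b13
  try rw [h13] at top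
  replace top := imp_spec top r_7_17_13_0
  replace top := imp_spec top r_17_13_5_0
  exact Bool.false_ne_true top

/-- no field with `a = 3` -/
theorem noG3 {a n d : ℕ} (ha : a = 1) (hd : (d : ℤ) = (2 * FE.aa a * n) ^ 2 - FE.aa a)
    (j5 : jacobiSym d 5 = -1)
    (j7 : jacobiSym d 7 = -1)
    (j13 : jacobiSym d 13 = -1)
    (j17 : jacobiSym d 17 = -1)
    (hT : AllG a n d) : False := by
  have q5 : ¬ 5 ∣ d := nd_of (by norm_num) j5
  have q7 : ¬ 7 ∣ d := nd_of (by norm_num) j7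
  have q13 : ¬ 13 ∣ d := nd_of (by norm_num) j13
  have q17 : ¬ 17 ∣ d := nd_of (by norm_num) j17
  have c7 : Nat.Coprime 7 d := cop_of (p := 7) (k := 1) (by norm_num) q7
  have c5 : Nat.Coprime 5 d := cop_of (p := 5) (k := 1) (by norm_num) q5
  have c17 : Nat.Coprime 17 d := cop_of (p := 17) (k := 1) (by norm_num) q17
  have c13 : Nat.Coprime 13 d := cop_of (p := 13) (k := 1) (by norm_num) q13
  obtain ⟨i7, b7, e7⟩ := memCheck_spec memRGa_7 (Nat.mod_lt a (by norm_num))
    (Nat.mod_lt n (by norm_num)) (spc_of (clG_of (n := 7) (by norm_num) (by norm_num) hd j7) (by rw [ha]))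
  obtain ⟨i5, b5, e5⟩ := memCheck_spec memRGa_5 (Nat.mod_lt a (by norm_num))
    (Nat.mod_lt n (by norm_num)) (spc_of (clG_of (n := 5) (by norm_num) (by norm_num) hd j5) (by rw [ha]))
  obtain ⟨i17, b17, e17⟩ := memCheck_spec memRGa_17 (Nat.mod_lt a (by norm_num))
    (Nat.mod_lt n (by norm_num)) (spc_of (clG_of (n := 17) (by norm_num) (by norm_num) hd j17) (by rw [ha]))
  obtain ⟨i13, b13, e13⟩ := memCheck_spec memRGa_13 (Nat.mod_lt a (by norm_num))
    (Nat.mod_lt n (by norm_num)) (spc_of (clG_of (n := 13) (by norm_num) (by norm_num) hd j13) (by rw [ha]))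
  exact falseRGa b7 b5 b17 b13 (allI_get allRGa b7)
    e7 e5 e17 e13
    (chkG_of hyp_7_17_5_0 dr_7_17_5_0 ctRGa_7_17_5_0 hT (by norm_num) (by norm_num) (c7.mul_left c17) q5 b7 b17 e7 e17)
    (chkG_of hyp_7_17_13_0 dr_7_17_13_0 ctRGa_7_17_13_0 hT (by norm_num) (by norm_num) (c7.mul_left c17) q13 b7 b17 e7 e17)
    (chkG_of hyp_17_13_5_0 dr_17_13_5_0 ctRGa_17_13_5_0 hT (by norm_num) (by norm_num) (c17.mul_left c13) q5 b17 b13 e17 e13)

end Pool.Agent.LibH4.KF


end

section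

/-!
The eliminations for the extended Richaud-Degert types.
-/

namespace Pool.Agent.RDF

open Pool.Agent.LibH4.KF

/-- **the elimination of the two-parameter family** -/
theorem stmtElimE : StmtElimE := by
  intro A k d hA hk hd h8 hj hall
  have hT := allG hA hk hall
  by_cases h1 : A = 1
  · exact (noG3 h1 hd
      (hj 5 (by norm_num) (by norm_num) (by norm_num) (by unfold FE.aa; omega))
      (hj 7 (by norm_num) (by norm_num) (by norm_num) (by unfold FE.aa; omega))
      (hj 13 (by norm_num) (by norm_num) (by norm_num) (by unfold FE.aa; omega))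
      (hj 17 (by norm_num) (by norm_num) (by norm_num) (by unfold FE.aa; omega)) hT).elim
  by_cases h2 : A = 2
  · exact (noG7 h2 hd
      (hj 5 (by norm_num) (by norm_num) (by norm_num) (by unfold FE.aa; omega))
      (hj 11 (by norm_num) (by norm_num) (by norm_num) (by unfold FE.aa; omega))
      (hj 13 (by norm_num) (by norm_num) (by norm_num) (by unfold FE.aa; omega))
      (hj 17 (by norm_num) (by norm_num) (by norm_num) (by unfold FE.aa; omega))
      (hj 19 (by norm_num) (by norm_num) (by norm_num) (by unfold FE.aa; omega)) hT).elim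
  by_cases h5 : A = 5
  · exact (noG19 h5 hd
      (hj 3 (by norm_num) (by norm_num) (by norm_num) (by unfold FE.aa; omega))
      (hj 5 (by norm_num) (by norm_num) (by norm_num) (by unfold FE.aa; omega))
      (hj 7 (by norm_num) (by norm_num) (by norm_num) (by unfold FE.aa; omega))
      (hj 13 (by norm_num) (by norm_num) (by norm_num) (by unfold FE.aa; omega))
      (hj 17 (by norm_num) (by norm_num) (by norm_num) (by unfold FE.aa; omega)) hT).elim
  refine ⟨?_, ?_⟩
  · unfold FE.aa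
    omega
  · by_contra ng
    exact noRG hd
      (hj 3 (by norm_num) (by norm_num) (by norm_num) (by unfold FE.aa; omega))
      (hj 5 (by norm_num) (by norm_num) (by norm_num) (by unfold FE.aa; omega))
      (hj 7 (by norm_num) (by norm_num) (by norm_num) (by unfold FE.aa; omega))
      (hj 13 (by norm_num) (by norm_num) (by norm_num) (by unfold FE.aa; omega))
      (hj 17 (by norm_num) (by norm_num) (by norm_num) (by unfold FE.aa; omega))
      (hj 19 (by norm_num) (by norm_num) (by norm_num) (by unfold FE.aa; omega)) ng hT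

/-- **the elimination of `n² + 2`** -/
theorem stmtElimPlus : StmtElimPlus := by
  intro n D hD hj hall
  have hd : (D : ℤ) = (((2 : ℕ) : ℤ) * n) ^ 2 + 4 * ((2 : ℕ) : ℤ) := by
    rw [hD]
    push_cast
    ring
  exact noP rfl hd
    (hj 7 (by norm_num) (by norm_num) (by norm_num))
    (hj 13 (by norm_num) (by norm_num) (by norm_num))
    (hj 19 (by norm_num) (by norm_num) (by norm_num))
    (hj 31 (by norm_num) (by norm_num) (by norm_num)) (allB2 hall)

/-- **the elimination of `n² - 2`** -/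
theorem stmtElimMinus : StmtElimMinus := by
  intro n D hD hj hall
  have hd : (D : ℤ) = (((2 : ℕ) : ℤ) * n) ^ 2 - 4 * ((2 : ℕ) : ℤ) := by
    have h : ((D + 8 : ℕ) : ℤ) = (((2 * n) ^ 2 : ℕ) : ℤ) := by rw [hD]
    push_cast at h ⊢
    linear_combination h
  exact noM rfl hd
    (hj 3 (by norm_num) (by norm_num) (by norm_num))
    (hj 5 (by norm_num) (by norm_num) (by norm_num))
    (hj 7 (by norm_num) (by norm_num) (by norm_num))
    (hj 13 (by norm_num) (by norm_num) (by norm_num))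
    (hj 23 (by norm_num) (by norm_num) (by norm_num))
    (hj 37 (by norm_num) (by norm_num) (by norm_num)) (allE2 hall)

end Pool.Agent.RDF


end

section

/-!
Discriminants congruent to one modulo four: the forward direction.
-/

namespace Pool.Agent.RDF

open Finset (range)
open Pool.Agent.LibH4 Pool.Agent.LibH4.FA Pool.Agent.Lib_helper5
open scoped NumberField

/-- **the two-parameter family `d = (2ak)² - a`, `a ≡ 3` modulo four** -/
theorem FE.mem {A k d : ℕ} (hA : 1 ≤ A) (hk : 1 ≤ k)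
    (hd : (d : ℤ) = (2 * FE.aa A * k) ^ 2 - FE.aa A) (hsq : Squarefree d)
    (hU : UniqueFactorizationMonoid (𝓞 (KQ d))) :
    d ∈ ([33, 141, 573, 1293, 1757] : List ℕ) := by
  have haa := FE.aa_pos hA
  have hw := FE.w_pos hA hk
  have hA' : (1 : ℤ) ≤ A := by exact_mod_cast hA
  have hk' : (1 : ℤ) ≤ k := by exact_mod_cast hk
  have hdisc : (d : ℤ) = FE.bb A k ^ 2 + 4 * FE.w A k := by rw [hd, FE.disc]
  have h1 : 1 < d := by
    have : (1 : ℤ) < d := by nlinarith [sq_nonneg (FE.bb A k)]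
    exact_mod_cast this
  have hB : FE.bb A k % 2 = 1 := by
    have e : FE.bb A k = 2 * (FE.aa A * k) - 1 := by unfold FE.bb; ring
    omega
  obtain ⟨i1, i2⟩ := ufm_order hsq h1 hdisc hB hU
  have hd4 : d % 8 = 5 ∨ d % 8 = 1 := by
    have e : ∃ s : ℤ, FE.bb A k ^ 2 = 8 * s + 1 := by
      obtain ⟨b, hb⟩ : ∃ b, FE.bb A k = 2 * b + 1 := ⟨FE.bb A k / 2, by omega⟩
      obtain ⟨c, hc⟩ := Int.even_mul_succ_self b
      refine ⟨c, ?_⟩
      rw [hb]
      linear_combination 4 * hc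
    obtain ⟨s, hs⟩ := e
    rw [hs] at hdisc
    omega
  rcases hd4 with h8 | h8
  · -- `d ≡ 5` modulo eight
    have hin : ∀ p : ℕ, p.Prime → p ≠ 2 → (p : ℤ) ≠ FE.aa A → (p : ℤ) < FE.w A k →
        jacobiSym d p = -1 := fun p hp hp2 hpa hpw => FE.inert hA hk hd p hp hp2 hpa hpw
    rcases le_or_gt (FE.w A k) 19 with hs | hs
    · have := FE.small hA hk hd hsq hs h8 hin
      simp only [List.mem_cons, List.not_mem_nil, or_false] at this ⊢
      omega
    · exfalso
      have hin19 : ∀ p : ℕ, p.Prime → p ≠ 2 → p ≤ 19 → (p : ℤ) ≠ FE.aa A →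
          jacobiSym d p = -1 := by
        intro p hp hp2 hp19 hpa
        apply hin p hp hp2 hpa
        have : (p : ℤ) ≤ 19 := by exact_mod_cast hp19
        linarith
      obtain ⟨h7, h455⟩ := stmtElimE A k d hA hk hd h8 hin19 (FE.all hA hk hd h8)
      have j5 := hin19 5 (by norm_num) (by norm_num) (by norm_num) (by unfold FE.aa; omega)
      have j7 := hin19 7 (by norm_num) (by norm_num) (by norm_num) (by exact_mod_cast h7.symm)
      have j13 := hin19 13 (by norm_num) (by norm_num) (by norm_num) (by unfold FE.aa; omega)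
      exact noGhost A k d hA hk hd h8 (by exact_mod_cast j5) (by exact_mod_cast j7)
        (by exact_mod_cast j13) h455
  · -- `d ≡ 1` modulo eight: the prime two is split
    have hw2 : FE.w A k % 2 = 0 := by
      obtain ⟨b, hb⟩ : ∃ b, FE.bb A k = 2 * b + 1 := ⟨FE.bb A k / 2, by omega⟩
      obtain ⟨c, hc⟩ := Int.even_mul_succ_self b
      have hs : FE.bb A k ^ 2 = 8 * c + 1 := by
        rw [hb]
        linear_combination 4 * hc
      rw [hs] at hdisc
      omega
    have h2 := FE.rep_large hA hk 2 Nat.prime_two (t := 0) (by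
      simp only [ne_eq, OfNat.ofNat_ne_zero, not_false_eq_true, zero_pow, mul_zero, add_zero,
        zero_sub, dvd_neg, Nat.cast_ofNat]
      omega)
    rcases h2 with h2 | h2
    · exfalso
      push_cast at h2
      omega
    · -- `w = 2`
      have hw2' : FE.w A k = 2 := by
        push_cast at h2
        omega
      have hAk : A = 1 ∧ k = 1 := by
        unfold FE.w FE.aa at hw2'
        have hk1 : (k : ℤ) = 1 := by nlinarith
        rw [hk1] at hw2'
        constructor <;> omega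
      obtain ⟨rfl, rfl⟩ := hAk
      have : (d : ℤ) = 33 := by rw [hd]; unfold FE.aa; norm_num
      have : d = 33 := by exact_mod_cast this
      simp [this]

/-- `d = 4j² + 1` -/
theorem mem_plus_one {j d : ℕ} (hj : 1 ≤ j) (hd : d = 4 * j ^ 2 + 1) (hsq : Squarefree d)
    (hU : UniqueFactorizationMonoid (𝓞 (KQ d))) :
    d ∈ ([5, 17, 37, 101, 197, 677] : List ℕ) := by
  rcases Nat.lt_or_ge j 2 with h | h
  · have : j = 1 := by omega
    subst this
    simp [hd]
  · obtain ⟨t, rfl⟩ : ∃ t, j = t + 1 := ⟨j - 1, by omega⟩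
    have ht : 1 ≤ t := by omega
    have e : d = ((1 ^ 2 + 1) * t + 1) ^ 2 + 4 * (1 + 1 * t) := by rw [hd]; ring
    have hmem := (periodThree 1 t d le_rfl ht e hsq).1 hU
    have ht22 : t ≤ 21 := by
      by_contra hc
      have hd2 : 1877 < d := by rw [hd]; nlinarith
      simp only [discs, List.mem_cons, List.not_mem_nil, or_false] at hmem
      omega
    clear e hU hsq
    simp only [discs, List.mem_cons, List.not_mem_nil, or_false] at hmem
    simp only [List.mem_cons, List.not_mem_nil, or_false]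
    subst hd
    interval_cases t <;> omega

/-- `r ≡ 1` modulo four, `r > 1`: genus theory -/
theorem genus_out {a K d : ℕ} (ha : 1 < a) (ha4 : a % 4 = 1) (hK : 1 ≤ K)
    (hd : d = a * (4 * (a * K ^ 2) + 1)) (hsq : Squarefree d)
    (hU : UniqueFactorizationMonoid (𝓞 (KQ d))) : False := by
  have h1 : 1 < 4 * (a * K ^ 2) + 1 := by
    have : 0 < a * K ^ 2 := by positivity
    omega
  have hd4 : d % 4 = 1 := by
    rw [hd, Nat.mul_mod, ha4]
    omega
  have hd1 : 1 < d := by rw [hd]; nlinarith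
  have hdm : (d : ℤ) = 1 ^ 2 + 4 * (((d / 4 : ℕ) : ℤ)) := by
    have : d = 1 + 4 * (d / 4) := by omega
    have e : (d : ℤ) = ((1 + 4 * (d / 4) : ℕ) : ℤ) := by rw [← this]
    rw [e]
    push_cast
    ring
  obtain ⟨i1, i2⟩ := ufm_order hsq hd1 hdm (by norm_num) hU
  refine genus_one (m := ((d / 4 : ℕ) : ℤ)) (B := 1) (R := a) (s := 4 * (a * K ^ 2) + 1) ?_ ?_ ha h1
    ha4 (by omega)
  · rw [← hd]; exact hdm
  · rw [← hd]; exact hsq

end Pool.Agent.RDF


end

section

/-!
The class number one problem for the real quadratic fields `ℚ(√d)`, `d = m² + r`, `r ∣ 4m`.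
-/

namespace Pool.Agent.RDF

open Pool.Agent.LibH4 Pool.Agent.LibH4.FA Pool.Agent.Lib_helper5
open scoped NumberField

/-- the forty-three discriminants -/
def list43 : List ℕ := [2, 3, 5, 6, 7, 11, 13, 14, 17, 21, 23, 29, 33, 37, 38, 47, 53, 62, 69, 77,
  83, 93, 101, 141, 167, 173, 197, 213, 227, 237, 293, 398, 413, 437, 453, 573, 677, 717, 1077,
  1133, 1253, 1293, 1757]

/-- the forward direction for `d ≡ 1` modulo four -/
theorem odd_part (d m : ℕ) (r : ℤ) (hm : 1 ≤ m) (hr : r ∣ 4 * m)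
    (hd : (d : ℤ) = (m : ℤ) ^ 2 + r) (hsq : Squarefree d) (h1 : 1 < d) (h4 : d % 4 = 1)
    (hU : UniqueFactorizationMonoid (𝓞 (KQ d))) :
    d ∈ ([5, 13, 21, 29, 53, 69, 77, 93, 173, 213, 237, 293, 413, 437, 453, 717, 1077, 1133, 1253]
      : List ℕ) ∨ d ∈ ([5, 17, 37, 101, 197, 677] : List ℕ) ∨
      d ∈ ([33, 141, 573, 1293, 1757] : List ℕ) := by
  have hr0 : r ≠ 0 := by
    rintro rfl
    rw [zero_dvd_iff] at hr
    omega
  rcases Nat.even_or_odd' m with ⟨n, hn | hn⟩
  · -- `m` even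
    have hr4 : r % 4 = 1 := by
      have e : (m : ℤ) ^ 2 = 4 * (n : ℤ) ^ 2 := by rw [hn]; push_cast; ring
      rw [e] at hd
      omega
    -- `r ∣ n`
    have hrn : r ∣ (n : ℤ) := by
      have hc : IsCoprime r 8 := by
        rw [Int.isCoprime_iff_gcd_eq_one]
        have h2 : r.natAbs % 2 = 1 := by omega
        have : Nat.Coprime r.natAbs (2 ^ 3) :=
          Nat.Coprime.pow_right 3 (Nat.coprime_two_right.2 (Nat.odd_iff.2 h2))
        rw [Int.gcd]
        exact this
      apply hc.dvd_of_dvd_mul_left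
      have e : (8 : ℤ) * n = 4 * m := by rw [hn]; push_cast; ring
      rw [e]
      exact hr
    have hrn' : r.natAbs ∣ n := by
      have := Int.natAbs_dvd_natAbs.2 hrn
      simpa using this
    obtain ⟨k, hk⟩ := hrn'
    have hk1 : 1 ≤ k := by
      rcases Nat.eq_zero_or_pos k with h | h
      · rw [h] at hk; omega
      · exact h
    have ha1 : 1 ≤ r.natAbs := by omega
    rcases lt_or_gt_of_ne hr0 with hneg | hpos
    · -- `r = - a`
      right; right
      obtain ⟨A, hA⟩ : ∃ A, r.natAbs = 4 * A - 1 := ⟨(r.natAbs + 1) / 4, by omega⟩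
      have hA1 : 1 ≤ A := by omega
      have hra : r = - FE.aa A := by
        have := FE.cast_aa hA1
        rw [← hA] at this
        rw [← this]
        omega
      apply FE.mem hA1 hk1 _ hsq hU
      rw [hd, hn, hk]
      push_cast
      have e : |r| = FE.aa A := by
        rw [hra, abs_neg, abs_of_nonneg (by have := FE.aa_pos hA1; linarith)]
      rw [e, hra]
      ring
    · have hra : ((r.natAbs : ℕ) : ℤ) = r := by omega
      have hd2 : (d : ℤ) = 4 * ((r.natAbs : ℤ)) ^ 2 * (k : ℤ) ^ 2 + (r.natAbs : ℤ) := by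
        rw [hd, hn, hk]
        push_cast [hra]
        ring
      have hd3 : d = 4 * r.natAbs ^ 2 * k ^ 2 + r.natAbs := by exact_mod_cast hd2
      rcases Nat.lt_or_ge 1 r.natAbs with h | h
      · exfalso
        refine genus_out (a := r.natAbs) (K := k) h (by omega) hk1 ?_ hsq hU
        rw [hd3]; ring
      · right; left
        have ha : r.natAbs = 1 := by omega
        rw [ha] at hd3
        exact mem_plus_one hk1 (by rw [hd3]; ring) hsq hU
  · -- `m` odd
    left
    have hr4 : (4 : ℤ) ∣ r := by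
      have e : (m : ℤ) ^ 2 = 4 * ((n : ℤ) ^ 2 + n) + 1 := by rw [hn]; push_cast; ring
      rw [e] at hd
      omega
    obtain ⟨s, hs⟩ := hr4
    have hsm : s.natAbs ∣ m := by
      have h2 : s ∣ (m : ℤ) := by
        rw [hs] at hr
        exact (mul_dvd_mul_iff_left (by norm_num : (4 : ℤ) ≠ 0)).1 hr
      have := Int.natAbs_dvd_natAbs.2 h2
      simpa using this
    have hd' : d = m ^ 2 + 4 * s.natAbs ∨ d + 4 * s.natAbs = m ^ 2 := by
      rcases le_or_gt 0 s with h | h
      · left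
        have e : ((s.natAbs : ℕ) : ℤ) = s := by omega
        have : (d : ℤ) = ((m ^ 2 + 4 * s.natAbs : ℕ) : ℤ) := by
          rw [hd, hs]
          push_cast
          rw [abs_of_nonneg h]
        exact_mod_cast this
      · right
        have e : ((s.natAbs : ℕ) : ℤ) = -s := by omega
        have : ((d + 4 * s.natAbs : ℕ) : ℤ) = ((m ^ 2 : ℕ) : ℤ) := by
          push_cast
          rw [hd, hs, abs_of_neg h]
          ring
        exact_mod_cast this
    exact (rdFinal d m s.natAbs (by omega) hsm hd' hsq h1).1 hU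

lemma sub1 : ∀ d ∈ ([5, 13, 21, 29, 53, 69, 77, 93, 173, 213, 237, 293, 413, 437, 453, 717, 1077,
    1133, 1253] : List ℕ), d ∈ list43 := by decide +kernel

lemma sub2 : ∀ d ∈ ([5, 17, 37, 101, 197, 677] : List ℕ), d ∈ list43 := by decide +kernel

lemma sub3 : ∀ d ∈ ([33, 141, 573, 1293, 1757] : List ℕ), d ∈ list43 := by decide +kernel

lemma sub4 : ∀ d ∈ ([2, 3, 6, 7, 11, 14, 23, 38, 47, 62, 83, 167, 227, 398] : List ℕ),
    d ∈ list43 := by decide +kernel

lemma sub5 : ∀ d ∈ list43, d ∈ ([2, 3, 6, 7, 11, 14, 23, 38, 47, 62, 83, 167, 227, 398, 5, 13, 17,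
    21, 29, 33, 37, 53, 69, 77, 93, 101, 141, 173, 197, 213, 237, 293, 413, 437, 453, 573, 677, 717,
    1077, 1133, 1253, 1293, 1757] : List ℕ) := by decide +kernel

/-- **the list for all types** -/
theorem rd_iff (d m : ℕ) (r : ℤ) (hm : 1 ≤ m) (hr : r ∣ 4 * m)
    (hd : (d : ℤ) = (m : ℤ) ^ 2 + r) (hsq : Squarefree d) (h1 : 1 < d) :
    UniqueFactorizationMonoid (𝓞 (KQ d)) ↔ d ∈ list43 := by
  constructor
  · intro hU
    by_cases h4 : d % 4 = 1
    · rcases odd_part d m r hm hr hd hsq h1 h4 hU with h | h | h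
      · exact sub1 d h
      · exact sub2 d h
      · exact sub3 d h
    · exact sub4 d
        (Lib_helper5.RDF.even_part stmtElimPlus stmtElimMinus d m r hm hr hd hsq h4 hU)
  · intro h
    exact Lib_helper5.RDF.ufd_all hsq (sub5 d h)

/-- the search for `m`, `r` and squarefreeness -/
def okM (d : ℕ) : Bool :=
  (List.range 50).any fun m => decide (1 ≤ m) && decide (((d : ℤ) - (m : ℤ) ^ 2) ∣ 4 * m)

lemma okM_all : ∀ d ∈ list43, okM d = true := by decide +kernel

lemma exists_mr {d : ℕ} (hd : d ∈ list43) :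
    ∃ m r : ℤ, 0 < m ∧ r ∣ 4 * m ∧ (d : ℤ) = m ^ 2 + r := by
  have h := okM_all d hd
  unfold okM at h
  rw [List.any_eq_true] at h
  obtain ⟨m, _, hm⟩ := h
  rw [Bool.and_eq_true, decide_eq_true_eq, decide_eq_true_eq] at hm
  exact ⟨m, (d : ℤ) - (m : ℤ) ^ 2, by exact_mod_cast hm.1, hm.2, by ring⟩

/-- no square divides -/
def okSq (d : ℕ) : Bool :=
  decide (0 < d) && (List.range 50).all fun x => decide (x < 2) || decide (¬ x * x ∣ d)

lemma sqf_of {d : ℕ} (hd : d < 2401) (h : okSq d = true) : Squarefree d := by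
  unfold okSq at h
  rw [Bool.and_eq_true, decide_eq_true_eq, List.all_eq_true] at h
  intro x hx
  rw [Nat.isUnit_iff]
  by_contra hne
  have hx1 : x ≠ 0 := by
    rintro rfl
    simp only [mul_zero, zero_dvd_iff] at hx
    omega
  have hle : x * x ≤ d := Nat.le_of_dvd h.1 hx
  have hx50 : x < 50 := by nlinarith
  have := h.2 x (List.mem_range.2 hx50)
  rw [Bool.or_eq_true, decide_eq_true_eq, decide_eq_true_eq] at this
  rcases this with h3 | h3
  · omega
  · exact h3 hx

lemma gt_one : ∀ d ∈ list43, 1 < d := by decide +kernel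

lemma okSq_all : ∀ d ∈ list43, d < 2401 ∧ okSq d = true := by decide +kernel

lemma sqf_all : ∀ d ∈ list43, Squarefree d := fun d hd =>
  sqf_of (okSq_all d hd).1 (okSq_all d hd).2

/-- **the complete list** -/
theorem rd_all : {d : ℕ | 1 < d ∧ Squarefree d ∧
      (∃ m r : ℤ, 0 < m ∧ r ∣ 4 * m ∧ (d : ℤ) = m ^ 2 + r) ∧
      UniqueFactorizationMonoid (𝓞 (KQ d))} = {d | d ∈ list43} := by
  ext d
  rw [Set.mem_ofPred_eq, Set.mem_ofPred_eq]
  constructor
  · rintro ⟨h1, hsq, ⟨m, r, hm, hr, hd⟩, hU⟩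
    lift m to ℕ using hm.le
    exact (rd_iff d m r (by exact_mod_cast hm) hr hd hsq h1).1 hU
  · intro h
    have hsq := sqf_all d h
    obtain ⟨m, r, hm, hr, hd⟩ := exists_mr h
    have h1 : 1 < d := gt_one d h
    refine ⟨h1, hsq, ⟨m, r, hm, hr, hd⟩, ?_⟩
    lift m to ℕ using hm.le
    exact (rd_iff d m r (by exact_mod_cast hm) hr hd hsq h1).2 h

end Pool.Agent.RDF


end
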