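import Mathlib
import Pool.Agent.RQM.C119
import Pool.Agent.RQM.C12
import Pool.Agent.RQM.C40
import Pool.Agent.RQM.C41
import Pool.Agent.RQM.C48

/-! Parts: Lib_helper4.S7.Code, Lib_helper4.S7.Eng, Lib_helper4.S7.EngSpec, Lib_helper4.S7.Enum2, Lib_helper4.S7.Loop, Lib_helper4.S7.St17, Lib_helper4.S7.St11, Lib_helper4.S7.Boxes, Lib_helper4.S7.Dat17 -/

namespace Pool.Agent.Lib_helper5
end Pool.Agent.Lib_helper5
namespace Pool.Agent.Lib_helper5.LK
end Pool.Agent.Lib_helper5.LK
namespace Pool.Agent.Lib_helper5.TB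
end Pool.Agent.Lib_helper5.TB

section

/-!
Period seven: codes of the classes, kernel functions for the forms of a class and the value of a
reduced relation on classes.
-/

namespace Pool.Agent.LibH4.S7

open Pool.Agent.Lib_helper5 Pool.Agent.Lib_helper5.LK Pool.Agent.Lib_helper5.TB
  Pool.Agent.LibH4.Ker

/-! ### codes -/

/-- code of a class -/
def cd (n : ℕ) (a b c B m : ℤ) : ℕ :=
  rs n a + n * (rs n b + n * (rs n c + n * (rs n B + n * rs n m)))

/-- code from residues -/
def ck (n a b c B m : ℕ) : ℕ :=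
  Nat.add a (Nat.mul n (Nat.add b (Nat.mul n (Nat.add c (Nat.mul n (Nat.add B (Nat.mul n m)))))))

/-- residue of `a` -/
def ca (n k : ℕ) : ℕ := Nat.mod k n
/-- residue of `b` -/
def cb (n k : ℕ) : ℕ := Nat.mod (Nat.div k n) n
/-- residue of `c` -/
def cc (n k : ℕ) : ℕ := Nat.mod (Nat.div k (Nat.mul n n)) n
/-- residue of `B` -/
def cB (n k : ℕ) : ℕ := Nat.mod (Nat.div k (Nat.mul n (Nat.mul n n))) n
/-- residue of `m` -/
def cm (n k : ℕ) : ℕ := Nat.div k (Nat.mul n (Nat.mul n (Nat.mul n n)))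

section Dec

variable {n : ℕ} [NeZero n] {a b c B m : ℤ}

lemma dec_aux (x y : ℕ) (hx : x < n) : (x + n * y) % n = x ∧ (x + n * y) / n = y := by
  have hn : 0 < n := Nat.pos_of_ne_zero (NeZero.ne n)
  constructor
  · rw [Nat.add_mul_mod_self_left, Nat.mod_eq_of_lt hx]
  · rw [Nat.add_mul_div_left _ _ hn, Nat.div_eq_of_lt hx, zero_add]

lemma ca_cd : ca n (cd n a b c B m) = rs n a := (dec_aux _ _ (rs_lt a)).1

lemma cb_cd : cb n (cd n a b c B m) = rs n b := by
  change cd n a b c B m / n % n = _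
  unfold cd
  rw [(dec_aux _ _ (rs_lt a)).2, (dec_aux _ _ (rs_lt b)).1]

lemma cc_cd : cc n (cd n a b c B m) = rs n c := by
  change cd n a b c B m / (n * n) % n = _
  unfold cd
  rw [← Nat.div_div_eq_div_mul, (dec_aux _ _ (rs_lt a)).2, (dec_aux _ _ (rs_lt b)).2,
    (dec_aux _ _ (rs_lt c)).1]

lemma cB_cd : cB n (cd n a b c B m) = rs n B := by
  change cd n a b c B m / (n * (n * n)) % n = _
  unfold cd
  rw [← Nat.div_div_eq_div_mul, ← Nat.div_div_eq_div_mul, (dec_aux _ _ (rs_lt a)).2,
    (dec_aux _ _ (rs_lt b)).2, (dec_aux _ _ (rs_lt c)).2, (dec_aux _ _ (rs_lt B)).1]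

lemma cm_cd : cm n (cd n a b c B m) = rs n m := by
  change cd n a b c B m / (n * (n * (n * n))) = _
  unfold cd
  rw [← Nat.div_div_eq_div_mul, ← Nat.div_div_eq_div_mul, ← Nat.div_div_eq_div_mul,
    (dec_aux _ _ (rs_lt a)).2, (dec_aux _ _ (rs_lt b)).2, (dec_aux _ _ (rs_lt c)).2,
    (dec_aux _ _ (rs_lt B)).2]

end Dec

/-! ### forms modulo `n` from residues -/

/-- `-x` modulo `n` -/
def ng (n x : ℕ) : ℕ := Nat.mod (Nat.mul (Nat.sub n (nat_lit 1)) x) n
/-- `m₂` -/
def u2 (n a B m : ℕ) : ℕ :=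
  Nat.mod (Nat.add (Nat.add (nat_lit 1) (Nat.mul B a))
    (Nat.mul (Nat.sub n (nat_lit 1)) (Nat.mul m (Nat.mul a a)))) n
/-- `R₂` -/
def v2 (n a B m : ℕ) : ℕ :=
  Nat.mod (Nat.add (Nat.mul (nat_lit 2) (Nat.mul a m)) (Nat.mul (Nat.sub n (nat_lit 1)) B)) n
/-- `m₃` -/
def u3 (n b m m2 R2 : ℕ) : ℕ :=
  Nat.mod (Nat.add (Nat.add m (Nat.mul R2 b))
    (Nat.mul (Nat.sub n (nat_lit 1)) (Nat.mul m2 (Nat.mul b b)))) n
/-- `R₃` and `R₄` -/
def v3 (n b m2 R2 : ℕ) : ℕ :=
  Nat.mod (Nat.add (Nat.mul (nat_lit 2) (Nat.mul b m2)) (Nat.mul (Nat.sub n (nat_lit 1)) R2)) n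

section Res

variable {n : ℕ} [NeZero n] {a b c B m : ℤ}

lemma ng_eq (x : ℤ) : ng n (rs n x) = rs n (-x) := by
  change (n - 1) * rs n x % n = _
  apply rs_of; push_cast; simp only [rs_cast, K5.cast_pred]; ring

lemma u2_eq : u2 n (rs n a) (rs n B) (rs n m) = rs n (y2 a B m) := by
  change (1 + rs n B * rs n a + (n - 1) * (rs n m * (rs n a * rs n a))) % n = _
  apply rs_of; push_cast; simp only [rs_cast, K5.cast_pred]; unfold y2; push_cast; ring

lemma v2_eq : v2 n (rs n a) (rs n B) (rs n m) = rs n (r2 a B m) := by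
  change (2 * (rs n a * rs n m) + (n - 1) * rs n B) % n = _
  apply rs_of; push_cast; simp only [rs_cast, K5.cast_pred]; unfold r2; push_cast; ring

lemma u3_eq : u3 n (rs n b) (rs n m) (rs n (y2 a B m)) (rs n (r2 a B m)) =
    rs n (y3 a b B m) := by
  change (rs n m + rs n (r2 a B m) * rs n b + (n - 1) * (rs n (y2 a B m) *
    (rs n b * rs n b))) % n = _
  apply rs_of; push_cast; simp only [rs_cast, K5.cast_pred]; unfold y3; push_cast; ring

lemma v3_eq : v3 n (rs n b) (rs n (y2 a B m)) (rs n (r2 a B m)) = rs n (r3 a b B m) := by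
  change (2 * (rs n b * rs n (y2 a B m)) + (n - 1) * rs n (r2 a B m)) % n = _
  apply rs_of; push_cast; simp only [rs_cast, K5.cast_pred]; unfold r3; push_cast; ring

lemma v4_eq : v3 n (rs n c) (rs n (y3 a b B m)) (rs n (r3 a b B m)) = rs n (r4 a b c B m) := by
  change (2 * (rs n c * rs n (y3 a b B m)) + (n - 1) * rs n (r3 a b B m)) % n = _
  apply rs_of; push_cast; simp only [rs_cast, K5.cast_pred]; unfold r4; push_cast; ring

end Res

/-! ### forms of a code -/

/-- selection -/
def sel5 (x0 x1 x2 x3 x4 : ℕ) (j : ℕ) : ℕ :=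
  @Nat.rec (fun _ => ℕ) x0 (fun j _ => @Nat.rec (fun _ => ℕ) x1 (fun j _ =>
    @Nat.rec (fun _ => ℕ) x2 (fun j _ => @Nat.rec (fun _ => ℕ) x3 (fun _ _ => x4) j) j) j) j

/-- `m₂` of a code -/
def d2 (n k : ℕ) : ℕ := u2 n (ca n k) (cB n k) (cm n k)
/-- `R₂` of a code -/
def e2 (n k : ℕ) : ℕ := v2 n (ca n k) (cB n k) (cm n k)
/-- `m₃` of a code -/
def d3 (n k : ℕ) : ℕ := u3 n (cb n k) (cm n k) (d2 n k) (e2 n k)
/-- `R₃` of a code -/
def e3 (n k : ℕ) : ℕ := v3 n (cb n k) (d2 n k) (e2 n k)
/-- `R₄` of a code -/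
def e4 (n k : ℕ) : ℕ := v3 n (cc n k) (d3 n k) (e3 n k)

/-- `P` of the form `j` -/
def fP (n k j : ℕ) : ℕ := sel5 (cm n k) (Nat.mod (nat_lit 1) n) (cm n k) (d2 n k) (d3 n k) j
/-- `R` of the form `j` -/
def fR (n k j : ℕ) : ℕ := sel5 (cB n k) (cB n k) (e2 n k) (e3 n k) (e4 n k) j
/-- `S` of the form `j` -/
def fS (n k j : ℕ) : ℕ :=
  sel5 (Nat.mod (Nat.sub n (nat_lit 1)) n) (ng n (cm n k)) (ng n (d2 n k)) (ng n (d3 n k))
    (ng n (d3 n k)) j
/-- `α` of the form `j` -/
def fA (n k j : ℕ) : ℕ :=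
  sel5 (ng n (cB n k)) (ng n (Nat.mul (nat_lit 2) (ca n k))) (ng n (Nat.mul (nat_lit 2) (cb n k)))
    (ng n (Nat.mul (nat_lit 2) (cc n k))) (nat_lit 0) j
/-- `κ` of the form `j` -/
def fK (j : ℕ) : ℕ := sel5 (nat_lit 0) (nat_lit 6) (nat_lit 6) (nat_lit 6) (nat_lit 3) j

lemma J7_len (a b c B m : ℤ) : (J7 a b c B m).length = 5 := rfl

section Forms

variable {n : ℕ} [NeZero n] {a b c B m : ℤ}

lemma d2_cd : d2 n (cd n a b c B m) = rs n (y2 a B m) := by
  unfold d2; rw [ca_cd, cB_cd, cm_cd, u2_eq]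
lemma e2_cd : e2 n (cd n a b c B m) = rs n (r2 a B m) := by
  unfold e2; rw [ca_cd, cB_cd, cm_cd, v2_eq]
lemma d3_cd : d3 n (cd n a b c B m) = rs n (y3 a b B m) := by
  unfold d3; rw [cb_cd, cm_cd, d2_cd, e2_cd, u3_eq]
lemma e3_cd : e3 n (cd n a b c B m) = rs n (r3 a b B m) := by
  unfold e3; rw [cb_cd, d2_cd, e2_cd, v3_eq]
lemma e4_cd : e4 n (cd n a b c B m) = rs n (r4 a b c B m) := by
  unfold e4; rw [cc_cd, d3_cd, e3_cd, v4_eq]

lemma ng2_eq (x : ℤ) : ng n (Nat.mul (nat_lit 2) (rs n x)) = rs n (-(2 * x)) := by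
  change (n - 1) * (2 * rs n x) % n = _
  apply rs_of; push_cast; simp only [rs_cast, K5.cast_pred]; ring

lemma rsn_one : Nat.mod (nat_lit 1) n = rs n 1 := rs_one'

lemma rsn_neg_one : Nat.mod (Nat.sub n (nat_lit 1)) n = rs n (-1) := by
  change (n - 1) % n = _
  apply rs_of
  rw [K5.cast_pred]
  push_cast
  ring

lemma rsn_zero : (nat_lit 0) = rs n (0 : ℤ) := by
  unfold rs
  rw [Int.cast_zero, ZMod.val_zero]

/-- the five forms -/
def jf (a b c B m : ℤ) (j : ℕ) : Fm := ((J7 a b c B m)[j]?).getD ⟨0, 0, 0, 0, 0⟩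

lemma fP_cd {j : ℕ} (hj : j < 5) : fP n (cd n a b c B m) j = rs n (jf a b c B m j).P := by
  unfold fP
  rw [cm_cd, d2_cd, d3_cd, rsn_one]
  interval_cases j <;> rfl

lemma fR_cd {j : ℕ} (hj : j < 5) : fR n (cd n a b c B m) j = rs n (jf a b c B m j).R := by
  unfold fR
  rw [cB_cd, e2_cd, e3_cd, e4_cd]
  interval_cases j <;> rfl

lemma fS_cd {j : ℕ} (hj : j < 5) : fS n (cd n a b c B m) j = rs n (jf a b c B m j).S := by
  unfold fS
  rw [cm_cd, d2_cd, d3_cd, rsn_neg_one, ng_eq, ng_eq, ng_eq]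
  interval_cases j <;> rfl

lemma fA_cd {j : ℕ} (hj : j < 5) : fA n (cd n a b c B m) j = rs n (jf a b c B m j).α := by
  unfold fA
  rw [ca_cd, cb_cd, cc_cd, cB_cd, ng_eq, ng2_eq, ng2_eq, ng2_eq, rsn_zero (n := n)]
  interval_cases j <;> rfl

lemma fK_cd {j : ℕ} (hj : j < 5) : fK j = (jf a b c B m j).κ := by
  interval_cases j <;> rfl

end Forms

/-! ### relations -/

/-- a reduced relation -/
structure Rl where
  /-- component -/
  n1 : ℕ
  /-- component -/
  n2 : ℕ
  /-- component -/
  n3 : ℕ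
  /-- modulus of the values -/
  l : ℕ
  /-- exponent of the inverse -/
  ex1 : ℕ
  /-- exponent of the inverse -/
  ex2 : ℕ
  /-- exponent of the inverse -/
  ex3 : ℕ
  /-- positions -/
  PT1 : ℕ
  /-- positions -/
  PT2 : ℕ
  /-- positions -/
  PT3 : ℕ
  /-- character -/
  t1 : ℕ
  /-- character -/
  t2 : ℕ
  /-- character -/
  t3 : ℕ
  /-- table -/
  rows : List (ℕ × ℕ)
  /-- length of the inner dimension of the table -/
  len3 : ℕ

/-- value of a form -/
def Rl.val (r : Rl) (j : Fm) : ℕ :=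
  fval r.n1 r.n2 r.n3 r.l r.ex1 r.ex2 r.ex3 r.PT1 r.PT2 r.PT3 r.t1 r.t2 r.t3 r.rows r.len3 j

/-- the relation holds -/
def Holds (r : Rl) (a b c B m : ℤ) : Prop := ((J7 a b c B m).map r.val).sum % r.l = 0

/-- position of the form `j` of a code modulo `N` for the component `n` -/
def cq (n ex PT N k j : ℕ) : ℕ :=
  pos n ex PT (Nat.mod (fP N k j) n) (Nat.mod (fR N k j) n) (Nat.mod (fS N k j) n)

/-- character of the form `j` of a code modulo `N` for the component `n` -/
def cx (n t N k j : ℕ) : ℕ := dig t (Nat.mod (fP N k j) n)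

lemma rs_mod {n N : ℕ} [NeZero n] [NeZero N] (h : n ∣ N) (x : ℤ) : rs N x % n = rs n x := by
  apply rs_of
  have h1 : ((rs N x : ℕ) : ℤ) = x % N := by
    unfold rs
    rw [ZMod.val_intCast]
  have h2 : ((rs N x : ℕ) : ZMod n) = (((rs N x : ℕ) : ℤ) : ZMod n) := by push_cast; rfl
  rw [h2, h1, ZMod.intCast_eq_intCast_iff]
  exact (Int.mod_modEq x N).of_dvd (Int.natCast_dvd_natCast.2 h)

section Cq

variable {n N : ℕ} [NeZero n] [NeZero N] {a b c B m : ℤ}

lemma cq_cd (h : n ∣ N) (ex PT : ℕ) {j : ℕ} (hj : j < 5) :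
    cq n ex PT N (cd N a b c B m) j =
      pos n ex PT (rs n (jf a b c B m j).P) (rs n (jf a b c B m j).R)
        (rs n (jf a b c B m j).S) := by
  unfold cq
  rw [fP_cd hj, fR_cd hj, fS_cd hj]
  change pos n ex PT (rs N _ % n) (rs N _ % n) (rs N _ % n) = _
  rw [rs_mod h, rs_mod h, rs_mod h]

lemma cx_cd (h : n ∣ N) (t : ℕ) {j : ℕ} (hj : j < 5) :
    cx n t N (cd N a b c B m) j = dig t (rs n (jf a b c B m j).P) := by
  unfold cx
  rw [fP_cd hj]
  change dig t (rs N _ % n) = _
  rw [rs_mod h]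

end Cq

/-- the term of the form `j` of a relation in terms of codes -/
def tm (r : Rl) (N1 N2 N3 Nl k1 k2 k3 kl j : ℕ) : ℕ :=
  cx r.n1 r.t1 N1 k1 j * cx r.n2 r.t2 N2 k2 j * cx r.n3 r.t3 N3 k3 j *
    (fK j * tX r.rows r.len3 (cq r.n1 r.ex1 r.PT1 N1 k1 j) (cq r.n2 r.ex2 r.PT2 N2 k2 j)
      (cq r.n3 r.ex3 r.PT3 N3 k3 j) +
    fA Nl kl j * tY r.rows r.len3 (cq r.n1 r.ex1 r.PT1 N1 k1 j) (cq r.n2 r.ex2 r.PT2 N2 k2 j)
      (cq r.n3 r.ex3 r.PT3 N3 k3 j))

/-- **the relation in terms of codes** -/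
theorem Holds.tm {r : Rl} {a b c B m : ℤ} (h : Holds r a b c B m) {N1 N2 N3 : ℕ}
    [NeZero r.n1] [NeZero r.n2] [NeZero r.n3] [NeZero r.l] [NeZero N1] [NeZero N2] [NeZero N3]
    (h1 : r.n1 ∣ N1) (h2 : r.n2 ∣ N2) (h3 : r.n3 ∣ N3) :
    (tm r N1 N2 N3 r.l (cd N1 a b c B m) (cd N2 a b c B m) (cd N3 a b c B m)
        (cd r.l a b c B m) 0 +
      (tm r N1 N2 N3 r.l (cd N1 a b c B m) (cd N2 a b c B m) (cd N3 a b c B m)
        (cd r.l a b c B m) 1 +
      (tm r N1 N2 N3 r.l (cd N1 a b c B m) (cd N2 a b c B m) (cd N3 a b c B m)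
        (cd r.l a b c B m) 2 +
      (tm r N1 N2 N3 r.l (cd N1 a b c B m) (cd N2 a b c B m) (cd N3 a b c B m)
        (cd r.l a b c B m) 3 +
      tm r N1 N2 N3 r.l (cd N1 a b c B m) (cd N2 a b c B m) (cd N3 a b c B m)
        (cd r.l a b c B m) 4)))) % r.l = 0 := by
  have key : ∀ j < 5, S7.tm r N1 N2 N3 r.l (cd N1 a b c B m) (cd N2 a b c B m)
      (cd N3 a b c B m) (cd r.l a b c B m) j = r.val (jf a b c B m j) := by
    intro j hj
    unfold S7.tm Rl.val fval
    rw [cx_cd h1 _ hj, cx_cd h2 _ hj, cx_cd h3 _ hj, cq_cd h1 _ _ hj, cq_cd h2 _ _ hj,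
      cq_cd h3 _ _ hj, fA_cd hj, fK_cd (a := a) (b := b) (c := c) (B := B) (m := m) hj]
  rw [key 0 (by norm_num), key 1 (by norm_num), key 2 (by norm_num), key 3 (by norm_num),
    key 4 (by norm_num)]
  have h' := h
  unfold Holds J7 at h'
  simp only [List.map_cons, List.map_nil, List.sum_cons, List.sum_nil, add_zero] at h'
  exact h'

end Pool.Agent.LibH4.S7


end

section

/-!
Period seven: kernel functions for the evaluation of the reduced relations: scalar evaluation and
evaluation in lanes.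
-/

namespace Pool.Agent.LibH4.S7

open Pool.Agent.Lib_helper5 Pool.Agent.Lib_helper5.LK Pool.Agent.Lib_helper5.TB
  Pool.Agent.Lib_helper5.Lane Pool.Agent.LibH4.Ker

/-! ### rows of a table -/

/-- lookup -/
def nthP (L : List (ℕ × ℕ)) (i : ℕ) : ℕ × ℕ :=
  @List.rec (ℕ × ℕ) (fun _ => ℕ → ℕ × ℕ) (fun _ => (0, 0))
    (fun x _ ih i => @Nat.rec (fun _ => ℕ × ℕ) x (fun j _ => ih j) i) L i

lemma nthP_eq (L : List (ℕ × ℕ)) (i : ℕ) : nthP L i = L.getD i (0, 0) := by
  induction L generalizing i with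
  | nil => rfl
  | cons x xs ih =>
    cases i with
    | zero => rfl
    | succ i =>
      rw [List.getD_cons_succ, ← ih]
      rfl

/-- row of the first sums -/
def gx (r : Rl) (q : ℕ) : ℕ := (nthP r.rows q).1
/-- row of the second sums -/
def gy (r : Rl) (q : ℕ) : ℕ := (nthP r.rows q).2

/-- position in a row -/
def ps (r : Rl) (N2 N3 k2 k3 j : ℕ) : ℕ :=
  Nat.add (Nat.mul (cq r.n2 r.ex2 r.PT2 N2 k2 j) r.len3) (cq r.n3 r.ex3 r.PT3 N3 k3 j)

lemma tX_eq (r : Rl) (N2 N3 k2 k3 j q : ℕ) :
    tX r.rows r.len3 q (cq r.n2 r.ex2 r.PT2 N2 k2 j) (cq r.n3 r.ex3 r.PT3 N3 k3 j) =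
      dig (gx r q) (ps r N2 N3 k2 k3 j) := by
  unfold tX gx ps; rw [nthP_eq]; rfl

lemma tY_eq (r : Rl) (N2 N3 k2 k3 j q : ℕ) :
    tY r.rows r.len3 q (cq r.n2 r.ex2 r.PT2 N2 k2 j) (cq r.n3 r.ex3 r.PT3 N3 k3 j) =
      dig (gy r q) (ps r N2 N3 k2 k3 j) := by
  unfold tY gy ps; rw [nthP_eq]; rfl

/-! ### scalar evaluation -/

/-- product of the characters -/
def s3 (r : Rl) (N1 N2 N3 k1 k2 k3 j : ℕ) : ℕ :=
  Nat.mod (Nat.mul (cx r.n1 r.t1 N1 k1 j) (Nat.mul (cx r.n2 r.t2 N2 k2 j)
    (cx r.n3 r.t3 N3 k3 j))) r.l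

/-- first part of a term -/
def xt (r : Rl) (N1 N2 N3 k1 k2 k3 j : ℕ) : ℕ :=
  strict (cq r.n1 r.ex1 r.PT1 N1 k1 j) fun q =>
    Nat.mul (Nat.mul (s3 r N1 N2 N3 k1 k2 k3 j) (fK j)) (dig (gx r q) (ps r N2 N3 k2 k3 j))

/-- second part of a term -/
def yt (r : Rl) (N1 N2 N3 k1 k2 k3 j : ℕ) : ℕ :=
  strict (cq r.n1 r.ex1 r.PT1 N1 k1 j) fun q =>
    Nat.mod (Nat.mul (s3 r N1 N2 N3 k1 k2 k3 j) (dig (gy r q) (ps r N2 N3 k2 k3 j))) r.l

/-- sum of the first parts -/
def kvx (r : Rl) (N1 N2 N3 k1 k2 k3 : ℕ) : ℕ :=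
  Nat.mod (Nat.add (xt r N1 N2 N3 k1 k2 k3 (nat_lit 1))
    (Nat.add (xt r N1 N2 N3 k1 k2 k3 (nat_lit 2))
      (Nat.add (xt r N1 N2 N3 k1 k2 k3 (nat_lit 3)) (xt r N1 N2 N3 k1 k2 k3 (nat_lit 4))))) r.l

/-- packed second parts -/
def kvy (r : Rl) (N1 N2 N3 k1 k2 k3 : ℕ) : ℕ :=
  Nat.add (yt r N1 N2 N3 k1 k2 k3 (nat_lit 0)) (Nat.mul (nat_lit 65536)
    (Nat.add (yt r N1 N2 N3 k1 k2 k3 (nat_lit 1)) (Nat.mul (nat_lit 65536)
      (Nat.add (yt r N1 N2 N3 k1 k2 k3 (nat_lit 2)) (Nat.mul (nat_lit 65536)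
        (yt r N1 N2 N3 k1 k2 k3 (nat_lit 3)))))))

/-- packed coefficients -/
def al (N k : ℕ) : ℕ :=
  Nat.add (fA N k (nat_lit 3)) (Nat.mul (nat_lit 65536)
    (Nat.add (fA N k (nat_lit 2)) (Nat.mul (nat_lit 65536)
      (Nat.add (fA N k (nat_lit 1)) (Nat.mul (nat_lit 65536) (fA N k (nat_lit 0)))))))

/-- the value of a relation -/
def sv (r : Rl) (N1 N2 N3 k1 k2 k3 kl : ℕ) : ℕ :=
  Nat.mod (Nat.add (kvx r N1 N2 N3 k1 k2 k3)
    (Nat.mod (Nat.shiftRight (Nat.mul (kvy r N1 N2 N3 k1 k2 k3) (al r.l kl)) (nat_lit 48))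
      (nat_lit 65536))) r.l

/-- check of a relation -/
def chkS (r : Rl) (N1 N2 N3 k1 k2 k3 kl : ℕ) (k : Bool) : Bool :=
  @Nat.rec (fun _ => Bool) k (fun _ _ => true) (sv r N1 N2 N3 k1 k2 k3 kl)

lemma ip4 {y0 y1 y2 y3 a0 a1 a2 a3 : ℕ} (h0 : y0 < 100) (h1 : y1 < 100) (h2 : y2 < 100)
    (h3 : y3 < 100) (g0 : a0 < 100) (g1 : a1 < 100) (g2 : a2 < 100) (g3 : a3 < 100) :
    ((y0 + 65536 * (y1 + 65536 * (y2 + 65536 * y3))) *
      (a3 + 65536 * (a2 + 65536 * (a1 + 65536 * a0)))) >>> 48 % 65536 =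
      y0 * a0 + y1 * a1 + y2 * a2 + y3 * a3 := by
  have hm : ∀ x y : ℕ, x < 100 → y < 100 → x * y < 10000 := fun x y hx hy => by nlinarith
  have e : (y0 + 65536 * (y1 + 65536 * (y2 + 65536 * y3))) *
      (a3 + 65536 * (a2 + 65536 * (a1 + 65536 * a0))) =
      (y0 * a3 + 65536 * (y0 * a2 + y1 * a3 + 65536 * (y0 * a1 + y1 * a2 + y2 * a3))) +
        281474976710656 * ((y0 * a0 + y1 * a1 + y2 * a2 + y3 * a3) + 65536 *
          (y1 * a0 + y2 * a1 + y3 * a2 + 65536 * (y2 * a0 + y3 * a1 + 65536 * (y3 * a0)))) := by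
    ring
  rw [Nat.shiftRight_eq_div_pow, e]
  have b1 := hm y0 a3 h0 g3
  have b2 := hm y0 a2 h0 g2
  have b3 := hm y1 a3 h1 g3
  have b4 := hm y0 a1 h0 g1
  have b5 := hm y1 a2 h1 g2
  have b6 := hm y2 a3 h2 g3
  have b7 := hm y0 a0 h0 g0
  have b8 := hm y1 a1 h1 g1
  have b9 := hm y2 a2 h2 g2
  have b10 := hm y3 a3 h3 g3
  have e2 : (2 : ℕ) ^ 48 = 281474976710656 := by norm_num
  rw [e2, Nat.add_mul_div_left _ _ (by norm_num), Nat.div_eq_of_lt (by omega), zero_add,
    Nat.add_mul_mod_self_left, Nat.mod_eq_of_lt (by omega)]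

lemma fA_lt {n k j : ℕ} (hn : 0 < n) : fA n k j < n := by
  have h : ∀ x, ng n x < n := fun x => Nat.mod_lt _ hn
  unfold fA
  match j with
  | 0 => exact h _
  | 1 => exact h _
  | 2 => exact h _
  | 3 => exact h _
  | _ + 4 => exact hn

section Sc

variable {r : Rl} {N1 N2 N3 k1 k2 k3 kl : ℕ}

lemma yt_lt (hl : 0 < r.l) (j : ℕ) : yt r N1 N2 N3 k1 k2 k3 j < r.l := by
  unfold yt; rw [strict_eq]; exact Nat.mod_lt _ hl

lemma xt_mod (j : ℕ) : (xt r N1 N2 N3 k1 k2 k3 j : ZMod r.l) =
    ((cx r.n1 r.t1 N1 k1 j * cx r.n2 r.t2 N2 k2 j * cx r.n3 r.t3 N3 k3 j *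
    (fK j * tX r.rows r.len3 (cq r.n1 r.ex1 r.PT1 N1 k1 j) (cq r.n2 r.ex2 r.PT2 N2 k2 j)
      (cq r.n3 r.ex3 r.PT3 N3 k3 j)) : ℕ) : ZMod r.l) := by
  unfold xt s3
  rw [strict_eq, tX_eq]
  change ((_ % r.l * fK j * _ : ℕ) : ZMod r.l) = _
  push_cast
  rw [ZMod.natCast_mod]
  change (((_ * (_ * _) : ℕ) : ZMod r.l)) * _ * _ = _
  push_cast
  ring

lemma yt_mod (j : ℕ) : (yt r N1 N2 N3 k1 k2 k3 j : ZMod r.l) =
    ((cx r.n1 r.t1 N1 k1 j * cx r.n2 r.t2 N2 k2 j * cx r.n3 r.t3 N3 k3 j *
    tY r.rows r.len3 (cq r.n1 r.ex1 r.PT1 N1 k1 j) (cq r.n2 r.ex2 r.PT2 N2 k2 j)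
      (cq r.n3 r.ex3 r.PT3 N3 k3 j) : ℕ) : ZMod r.l) := by
  unfold yt s3
  rw [strict_eq, tY_eq]
  change ((_ % r.l : ℕ) : ZMod r.l) = _
  rw [ZMod.natCast_mod]
  change ((_ % r.l * _ : ℕ) : ZMod r.l) = _
  push_cast
  rw [ZMod.natCast_mod]
  change (((_ * (_ * _) : ℕ) : ZMod r.l)) * _ = _
  push_cast
  ring

/-- value of the packed product -/
lemma ip_val (hl : 0 < r.l) (hl2 : r.l < 100) :
    Nat.mod (Nat.shiftRight (Nat.mul (kvy r N1 N2 N3 k1 k2 k3) (al r.l kl)) (nat_lit 48))
      (nat_lit 65536) =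
    yt r N1 N2 N3 k1 k2 k3 0 * fA r.l kl 0 + yt r N1 N2 N3 k1 k2 k3 1 * fA r.l kl 1 +
      yt r N1 N2 N3 k1 k2 k3 2 * fA r.l kl 2 + yt r N1 N2 N3 k1 k2 k3 3 * fA r.l kl 3 := by
  have hy := fun j => (yt_lt (r := r) (N1 := N1) (N2 := N2) (N3 := N3) (k1 := k1) (k2 := k2)
    (k3 := k3) hl j).trans hl2
  have ha := fun j => (fA_lt (n := r.l) (k := kl) (j := j) hl).trans hl2
  exact ip4 (hy 0) (hy 1) (hy 2) (hy 3) (ha 0) (ha 1) (ha 2) (ha 3)

lemma sv_eq (hl : 0 < r.l) (hl2 : r.l < 100) :
    sv r N1 N2 N3 k1 k2 k3 kl =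
    (tm r N1 N2 N3 r.l k1 k2 k3 kl 0 + (tm r N1 N2 N3 r.l k1 k2 k3 kl 1 +
      (tm r N1 N2 N3 r.l k1 k2 k3 kl 2 + (tm r N1 N2 N3 r.l k1 k2 k3 kl 3 +
        tm r N1 N2 N3 r.l k1 k2 k3 kl 4)))) % r.l := by
  unfold sv
  rw [ip_val hl hl2]
  change (_ + _) % r.l = _
  have h : NeZero r.l := ⟨hl.ne'⟩
  rw [← ZMod.val_natCast, ← ZMod.val_natCast]
  congr 1
  unfold kvx
  change ((_ % r.l + _ : ℕ) : ZMod r.l) = _
  push_cast
  rw [ZMod.natCast_mod]
  change ((_ + (_ + (_ + _)) : ℕ) : ZMod r.l) + _ = _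
  push_cast
  rw [xt_mod, xt_mod, xt_mod, xt_mod, yt_mod, yt_mod, yt_mod, yt_mod]
  unfold tm
  have f0 : fK 0 = 0 := rfl
  have f4 : fA r.l kl 4 = 0 := rfl
  rw [f0, f4]
  push_cast
  ring

end Sc

/-- codes modulo one -/
lemma cd_one (a b c B m : ℤ) : cd 1 a b c B m = 0 := by
  have h : ∀ x : ℤ, rs 1 x = 0 := fun x => by
    have := rs_lt (p := 1) x
    omega
  unfold cd
  rw [h, h, h, h, h]

/-- a relation which holds passes the check -/
theorem chkS_spec {r : Rl} {a b c B m : ℤ} (h : Holds r a b c B m) {N1 N2 N3 : ℕ}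
    [NeZero r.n1] [NeZero r.n2] [NeZero r.n3] [NeZero r.l] [NeZero N1] [NeZero N2] [NeZero N3]
    (h1 : r.n1 ∣ N1) (h2 : r.n2 ∣ N2) (h3 : r.n3 ∣ N3) (hl2 : r.l < 100) {k : Bool}
    (hc : chkS r N1 N2 N3 (cd N1 a b c B m) (cd N2 a b c B m) (cd N3 a b c B m)
      (cd r.l a b c B m) k = true) : k = true := by
  have h4 : sv r N1 N2 N3 (cd N1 a b c B m) (cd N2 a b c B m) (cd N3 a b c B m)
      (cd r.l a b c B m) = 0 := by
    rw [sv_eq (Nat.pos_of_ne_zero (NeZero.ne _)) hl2]
    exact h.tm h1 h2 h3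
  unfold chkS at hc
  rw [h4] at hc
  exact hc

/-! ### lanes -/

/-- data of a lane for the form `j` -/
def ld (r : Rl) (N2 N3 k2 k3 j : ℕ) : ℕ :=
  Nat.add (ps r N2 N3 k2 k3 j) (Nat.mul (nat_lit 65536)
    (Nat.mod (Nat.mul (cx r.n2 r.t2 N2 k2 j) (cx r.n3 r.t3 N3 k3 j)) r.l))

/-- entry of a vector -/
def ent (l R e : ℕ) : ℕ :=
  Nat.mod (Nat.mul (Nat.div e (nat_lit 65536)) (dig R (Nat.mod e (nat_lit 65536)))) l

/-- vector -/
def rowP (l R : ℕ) (L : List ℕ) : ℕ := packL (nat_lit 16777216) (ent l R) L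

/-- data of a lane for the form `j`, when the coefficients depend on the lane -/
def ldK (r : Rl) (N2 N3 k2 k3 kl j : ℕ) : ℕ :=
  Nat.add (ps r N2 N3 k2 k3 j) (Nat.mul (nat_lit 65536)
    (Nat.add (Nat.mod (Nat.mul (fK j) (Nat.mul (cx r.n2 r.t2 N2 k2 j) (cx r.n3 r.t3 N3 k3 j))) r.l)
      (Nat.mul (nat_lit 256) (Nat.mod (Nat.mul (fA r.l kl j)
        (Nat.mul (cx r.n2 r.t2 N2 k2 j) (cx r.n3 r.t3 N3 k3 j))) r.l))))

/-- entry of a vector -/
def entK (l R R' e : ℕ) : ℕ :=
  Nat.mod (Nat.add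
    (Nat.mul (Nat.mod (Nat.div e (nat_lit 65536)) (nat_lit 256))
      (dig R (Nat.mod e (nat_lit 65536))))
    (Nat.mul (Nat.div e (nat_lit 16777216)) (dig R' (Nat.mod e (nat_lit 65536))))) l

/-- vector -/
def rowK (l R R' : ℕ) (L : List ℕ) : ℕ := packL (nat_lit 16777216) (entK l R R') L

/-- the data of the lanes -/
structure L5 where
  /-- form `0` -/
  L0 : List ℕ
  /-- form `1` -/
  L1 : List ℕ
  /-- form `2` -/
  L2 : List ℕ
  /-- form `3` -/
  L3 : List ℕ
  /-- form `4` -/
  L4 : List ℕ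

/-- forced evaluation of the data of the lanes -/
def mkL5 {α β : Type} (f : ℕ → α → ℕ) (K : List α) (k : L5 → β) : β :=
  mapS (f (nat_lit 0)) K fun L0 => mapS (f (nat_lit 1)) K fun L1 =>
  mapS (f (nat_lit 2)) K fun L2 => mapS (f (nat_lit 3)) K fun L3 =>
  mapS (f (nat_lit 4)) K fun L4 => k ⟨L0, L1, L2, L3, L4⟩

/-- the value -/
def L5of {α : Type} (f : ℕ → α → ℕ) (K : List α) : L5 :=
  ⟨K.map (f 0), K.map (f 1), K.map (f 2), K.map (f 3), K.map (f 4)⟩

lemma mkL5_eq {α β : Type} (f : ℕ → α → ℕ) (K : List α) (k : L5 → β) :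
    mkL5 f K k = k (L5of f K) := by
  unfold mkL5
  rw [mapS_eq, mapS_eq, mapS_eq, mapS_eq, mapS_eq]
  rfl

/-- term -/
def xT (r : Rl) (L : List ℕ) (j q P : ℕ) : ℕ :=
  Nat.mul (Nat.mod (Nat.mul (dig r.t1 P) (fK j)) r.l) (rowP r.l (gx r q) L)
/-- term -/
def yT (r : Rl) (L : List ℕ) (q P α : ℕ) : ℕ :=
  Nat.mul (Nat.mod (Nat.mul (dig r.t1 P) α) r.l) (rowP r.l (gy r q) L)
/-- term -/
def kT (r : Rl) (L : List ℕ) (q P : ℕ) : ℕ :=
  Nat.mul (Nat.mod (dig r.t1 P) r.l) (rowK r.l (gx r q) (gy r q) L)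

/-- values of a relation in the lanes; the modulus is the outer prime -/
def FL (r : Rl) (S : L5) (m m2 m3 q0 q1 q2 q3 q4 A0 A1 A2 A3 : ℕ) : ℕ :=
  Nat.add (yT r S.L0 q0 m A0) (Nat.add (xT r S.L1 (nat_lit 1) q1 (nat_lit 1))
  (Nat.add (yT r S.L1 q1 (nat_lit 1) A1) (Nat.add (xT r S.L2 (nat_lit 2) q2 m)
  (Nat.add (yT r S.L2 q2 m A2) (Nat.add (xT r S.L3 (nat_lit 3) q3 m2)
  (Nat.add (yT r S.L3 q3 m2 A3) (xT r S.L4 (nat_lit 4) q4 m3)))))))

/-- values of a relation in the lanes; the coefficients depend on the lane -/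
def FK (r : Rl) (S : L5) (m m2 m3 q0 q1 q2 q3 q4 : ℕ) : ℕ :=
  Nat.add (kT r S.L0 q0 m) (Nat.add (kT r S.L1 q1 (nat_lit 1))
  (Nat.add (kT r S.L2 q2 m) (Nat.add (kT r S.L3 q3 m2) (kT r S.L4 q4 m3))))

/-- the vector `1 1 ... 1` -/
def ones (n : ℕ) : ℕ :=
  Nat.div (Nat.sub (Nat.pow (nat_lit 16777216) n) (nat_lit 1)) (nat_lit 16777215)

/-- multiplier of the zero test -/
def mu (l : ℕ) : ℕ := Nat.add (Nat.div (nat_lit 32768) l) (nat_lit 1)

/-- the lanes in which the value is divisible by `l` -/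
def msk (l n V : ℕ) : ℕ :=
  zt (mu l) (Nat.mul (nat_lit 32767) (ones n))
    (Nat.mul (Nat.sub (nat_lit 32768) (mu l)) (ones n)) (Nat.mul (nat_lit 32768) (ones n)) V

end Pool.Agent.LibH4.S7


end

section

/-!
Period seven: meaning of the evaluation in lanes.
-/

namespace Pool.Agent.LibH4.S7

open Pool.Agent.Lib_helper5 Pool.Agent.Lib_helper5.LK Pool.Agent.Lib_helper5.TB
  Pool.Agent.Lib_helper5.Lane Pool.Agent.LibH4.Ker

/-! ### the zero test -/

/-- numerical conditions -/
structure LOK (l : ℕ) : Prop where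
  l1 : 0 < l
  l2 : l < 100
  hB : ztB l 15 (mu l) (8 * ((l - 1) * (l - 1)) + 1) = true
  hM : mu l ≤ 2 ^ 15
  hw : mu l * (8 * ((l - 1) * (l - 1)) + 1) ≤ 2 ^ 24

lemma allR_of {p : ℕ → Bool} {n : ℕ} (h : ∀ m < n, p m = true) : allR p n = true := by
  induction n with
  | zero => rfl
  | succ n ih =>
    change @Bool.rec (fun _ => Bool) false (allR p n) (p n) = true
    rw [h n (by omega), ih fun m hm => h m (by omega)]

lemma allR_split {p : ℕ → Bool} {n u v : ℕ} (hn : n ≤ u * v) (hv : 0 < v)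
    (h : allR (fun i => allR (fun j => p (Nat.add (Nat.mul i v) j)) v) u = true) :
    allR p n = true := by
  apply allR_of
  intro m hm
  have h1 : m / v < u := Nat.div_lt_of_lt_mul (by rw [mul_comm]; omega)
  have h2 := allR_spec (allR_spec h (m / v) h1) (m % v) (Nat.mod_lt _ hv)
  have e : Nat.add (Nat.mul (m / v) v) (m % v) = m := Nat.div_add_mod' m v
  rwa [e] at h2

lemma ztB_split {l s M bd : ℕ} (u v : ℕ) (hn : bd ≤ u * v) (hv : 0 < v)
    (h : allR (fun i => allR (fun j => (fun v => @Bool.rec (fun _ => Bool)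
      (@Bool.rec (fun _ => Bool) true false (Nat.ble (Nat.succ (Nat.mod (Nat.mul M v)
        (Nat.pow (nat_lit 2) s))) M))
      (Nat.ble (Nat.succ (Nat.mod (Nat.mul M v) (Nat.pow (nat_lit 2) s))) M)
      (Nat.beq (Nat.mod v l) (nat_lit 0))) (Nat.add (Nat.mul i v) j)) v) u = true) :
    ztB l s M bd = true := allR_split hn hv h

lemma lok5 : LOK 5 := ⟨by norm_num, by norm_num, by decide +kernel, by decide, by decide⟩
lemma lok7 : LOK 7 := ⟨by norm_num, by norm_num, by decide +kernel, by decide, by decide⟩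
lemma lok11 : LOK 11 := ⟨by norm_num, by norm_num, by decide +kernel, by decide, by decide⟩
lemma lok13 : LOK 13 := ⟨by norm_num, by norm_num, by decide +kernel, by decide, by decide⟩
lemma lok17 : LOK 17 := ⟨by norm_num, by norm_num,
  ztB_split 54 50 (by norm_num) (by norm_num) (by decide +kernel), by decide, by decide⟩
lemma lok19 : LOK 19 := ⟨by norm_num, by norm_num,
  ztB_split 54 50 (by norm_num) (by norm_num) (by decide +kernel), by decide, by decide⟩

lemma ones_eq {α : Type} (L : List α) : packL (2 ^ 24) (fun _ => 1) L = ones L.length := by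
  have h : 16777215 * packL (2 ^ 24) (fun _ => 1) L + 1 = 16777216 ^ L.length := by
    induction L with
    | nil => rfl
    | cons x xs ih =>
      rw [packL_cons, List.length_cons, pow_succ (16777216 : ℕ), ← ih]
      have e : (2 : ℕ) ^ 24 = 16777216 := by norm_num
      rw [e]
      ring
  unfold ones
  change _ = (16777216 ^ L.length - 1) / 16777215
  rw [← h]
  omega

lemma const_eq {α : Type} (c : ℕ) (L : List α) :
    packL (2 ^ 24) (fun _ => c) L = c * ones L.length := by
  rw [← ones_eq, ← packL_mul]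
  apply packL_congr
  intro _ _
  ring

lemma msk_eq {α : Type} {l : ℕ} (h : LOK l) {f : α → ℕ} {L : List α}
    (hf : ∀ x ∈ L, f x < 8 * ((l - 1) * (l - 1)) + 1) :
    msk l L.length (packL (2 ^ 24) f L) =
      packL (2 ^ 24) (fun x => if l ∣ f x then 2 ^ 15 else 0) L := by
  have e1 : Nat.mul (nat_lit 32767) (ones L.length) = packL (2 ^ 24) (fun _ => 2 ^ 15 - 1) L :=
    (const_eq 32767 L).symm
  have e2 : Nat.mul (Nat.sub (nat_lit 32768) (mu l)) (ones L.length) =
    packL (2 ^ 24) (fun _ => 2 ^ 15 - mu l) L := (const_eq (32768 - mu l) L).symm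
  have e3 : Nat.mul (nat_lit 32768) (ones L.length) = packL (2 ^ 24) (fun _ => 2 ^ 15) L :=
    (const_eq 32768 L).symm
  unfold msk
  rw [e1, e2, e3]
  exact zt_eq h.hB (by norm_num) h.hM hf h.hw

/-- a lane with a multiple of `l` has its bit in the mask -/
theorem bit_of {α : Type} {l : ℕ} (h : LOK l) {f : α → ℕ} {L : List α}
    (hf : ∀ x ∈ L, f x < 8 * ((l - 1) * (l - 1)) + 1) {i : ℕ} (hi : i < L.length)
    (hd : l ∣ f L[i]) : (msk l L.length (packL (2 ^ 24) f L)).testBit (24 * i + 15) = true := by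
  rw [msk_eq h hf]
  apply testBit_packL _ hi
  · rw [if_pos hd]
  · intro x _
    split_ifs <;> norm_num

/-! ### entries -/

lemma pos_lt (n ex PT P R S : ℕ) : pos n ex PT P R S < 256 := by
  unfold pos
  rw [strict_eq]
  exact Nat.mod_lt _ (by norm_num)

lemma ps_lt {r : Rl} (hr : r.len3 < 256) (N2 N3 k2 k3 j : ℕ) : ps r N2 N3 k2 k3 j < 65536 := by
  have h1 : cq r.n2 r.ex2 r.PT2 N2 k2 j < 256 := pos_lt _ _ _ _ _ _
  have h2 : cq r.n3 r.ex3 r.PT3 N3 k3 j < 256 := pos_lt _ _ _ _ _ _
  change cq r.n2 r.ex2 r.PT2 N2 k2 j * r.len3 + cq r.n3 r.ex3 r.PT3 N3 k3 j < 65536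
  nlinarith

lemma ent_lt {l : ℕ} (hl : 0 < l) (R e : ℕ) : ent l R e < l := Nat.mod_lt _ hl
lemma entK_lt {l : ℕ} (hl : 0 < l) (R R' e : ℕ) : entK l R R' e < l := Nat.mod_lt _ hl

lemma ent_ld {r : Rl} (hr : r.len3 < 256) (N2 N3 k2 k3 j R : ℕ) :
    ((ent r.l R (ld r N2 N3 k2 k3 j) : ℕ) : ZMod r.l) =
      ((cx r.n2 r.t2 N2 k2 j * cx r.n3 r.t3 N3 k3 j * dig R (ps r N2 N3 k2 k3 j) : ℕ) :
        ZMod r.l) := by
  have h := ps_lt hr N2 N3 k2 k3 j
  set P := ps r N2 N3 k2 k3 j with hP
  have e1 : ld r N2 N3 k2 k3 j = P + 65536 *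
    (cx r.n2 r.t2 N2 k2 j * cx r.n3 r.t3 N3 k3 j % r.l) := rfl
  have e2 : ent r.l R (ld r N2 N3 k2 k3 j) =
    (ld r N2 N3 k2 k3 j / 65536 * dig R (ld r N2 N3 k2 k3 j % 65536)) % r.l := rfl
  rw [e2, e1, Nat.add_mul_div_left _ _ (by norm_num), Nat.div_eq_of_lt h, zero_add,
    Nat.add_mul_mod_self_left, Nat.mod_eq_of_lt h]
  rw [ZMod.natCast_mod]
  push_cast
  rw [ZMod.natCast_mod]
  push_cast
  ring

lemma entK_ld {r : Rl} (hr : r.len3 < 256) (hl : 0 < r.l) (hl2 : r.l < 256)
    (N2 N3 k2 k3 kl j R R' : ℕ) :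
    ((entK r.l R R' (ldK r N2 N3 k2 k3 kl j) : ℕ) : ZMod r.l) =
      ((cx r.n2 r.t2 N2 k2 j * cx r.n3 r.t3 N3 k3 j *
        (fK j * dig R (ps r N2 N3 k2 k3 j) + fA r.l kl j * dig R' (ps r N2 N3 k2 k3 j)) : ℕ) :
        ZMod r.l) := by
  have h := ps_lt hr N2 N3 k2 k3 j
  set P := ps r N2 N3 k2 k3 j with hP
  set u := fK j * (cx r.n2 r.t2 N2 k2 j * cx r.n3 r.t3 N3 k3 j) % r.l with hu
  set v := fA r.l kl j * (cx r.n2 r.t2 N2 k2 j * cx r.n3 r.t3 N3 k3 j) % r.l with hv
  have hu2 : u < 256 := (Nat.mod_lt _ hl).trans hl2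
  have e1 : ldK r N2 N3 k2 k3 kl j = P + 65536 * (u + 256 * v) := rfl
  have e2 : entK r.l R R' (ldK r N2 N3 k2 k3 kl j) =
    ((ldK r N2 N3 k2 k3 kl j / 65536) % 256 * dig R (ldK r N2 N3 k2 k3 kl j % 65536) +
      ldK r N2 N3 k2 k3 kl j / 16777216 * dig R' (ldK r N2 N3 k2 k3 kl j % 65536)) % r.l := rfl
  have e3 : (P + 65536 * (u + 256 * v)) / 16777216 = v := by omega
  have e4 : (P + 65536 * (u + 256 * v)) / 65536 % 256 = u := by omega
  have e5 : (P + 65536 * (u + 256 * v)) % 65536 = P := by omega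
  rw [e2, e1, e3, e4, e5, ZMod.natCast_mod]
  push_cast
  rw [hu, hv, ZMod.natCast_mod, ZMod.natCast_mod]
  push_cast
  ring

/-! ### values in the lanes -/

lemma rowP_map {α : Type} (l R : ℕ) (g : α → ℕ) (K : List α) :
    rowP l R (K.map g) = packL (2 ^ 24) (fun x => ent l R (g x)) K := by
  unfold rowP
  rw [packL_map]
  rfl

lemma rowK_map {α : Type} (l R R' : ℕ) (g : α → ℕ) (K : List α) :
    rowK l R R' (K.map g) = packL (2 ^ 24) (fun x => entK l R R' (g x)) K := by
  unfold rowK
  rw [packL_map]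
  rfl

/-- position of the form `j` modulo `p` -/
def qz (p ex PT : ℕ) (a b c B m : ℤ) (j : ℕ) : ℕ :=
  pos p ex PT (rs p (jf a b c B m j).P) (rs p (jf a b c B m j).R) (rs p (jf a b c B m j).S)

section L

variable {r : Rl} {a b c B m : ℤ} {N2 N3 : ℕ}

/-- the eight terms of a lane -/
def vL (r : Rl) (N2 N3 k2 k3 m m2 m3 q0 q1 q2 q3 q4 A0 A1 A2 A3 : ℕ) : ℕ :=
  (dig r.t1 m * A0 % r.l) * ent r.l (gy r q0) (ld r N2 N3 k2 k3 0) +
  ((dig r.t1 1 * fK 1 % r.l) * ent r.l (gx r q1) (ld r N2 N3 k2 k3 1) +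
  ((dig r.t1 1 * A1 % r.l) * ent r.l (gy r q1) (ld r N2 N3 k2 k3 1) +
  ((dig r.t1 m * fK 2 % r.l) * ent r.l (gx r q2) (ld r N2 N3 k2 k3 2) +
  ((dig r.t1 m * A2 % r.l) * ent r.l (gy r q2) (ld r N2 N3 k2 k3 2) +
  ((dig r.t1 m2 * fK 3 % r.l) * ent r.l (gx r q3) (ld r N2 N3 k2 k3 3) +
  ((dig r.t1 m2 * A3 % r.l) * ent r.l (gy r q3) (ld r N2 N3 k2 k3 3) +
  (dig r.t1 m3 * fK 4 % r.l) * ent r.l (gx r q4) (ld r N2 N3 k2 k3 4)))))))

lemma FL_eq {α : Type} (k2 k3 : α → ℕ) (K : List α) (m m2 m3 q0 q1 q2 q3 q4 A0 A1 A2 A3 : ℕ) :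
    FL r (L5of (fun j x => ld r N2 N3 (k2 x) (k3 x) j) K) m m2 m3 q0 q1 q2 q3 q4 A0 A1 A2 A3 =
      packL (2 ^ 24) (fun x => vL r N2 N3 (k2 x) (k3 x) m m2 m3 q0 q1 q2 q3 q4 A0 A1 A2 A3) K := by
  have ex : ∀ (g : α → ℕ) (j q P : ℕ), xT r (K.map g) j q P =
      packL (2 ^ 24) (fun x => (dig r.t1 P * fK j % r.l) * ent r.l (gx r q) (g x)) K := by
    intro g j q P
    change (dig r.t1 P * fK j % r.l) * rowP r.l (gx r q) (K.map g) = _
    rw [rowP_map, ← packL_mul]
  have ey : ∀ (g : α → ℕ) (q P A : ℕ), yT r (K.map g) q P A =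
      packL (2 ^ 24) (fun x => (dig r.t1 P * A % r.l) * ent r.l (gy r q) (g x)) K := by
    intro g q P A
    change (dig r.t1 P * A % r.l) * rowP r.l (gy r q) (K.map g) = _
    rw [rowP_map, ← packL_mul]
  unfold FL L5of
  simp only
  rw [ey, ex, ey, ex, ey, ex, ey, ex]
  unfold vL
  simp only [packL_add]
  rfl

lemma mul_bd {l x y : ℕ} (hx : x < l) (hy : y < l) : x * y ≤ (l - 1) * (l - 1) :=
  Nat.mul_le_mul (by omega) (by omega)

lemma vL_lt (hl : 0 < r.l) (k2 k3 m m2 m3 q0 q1 q2 q3 q4 A0 A1 A2 A3 : ℕ) :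
    vL r N2 N3 k2 k3 m m2 m3 q0 q1 q2 q3 q4 A0 A1 A2 A3 < 8 * ((r.l - 1) * (r.l - 1)) + 1 := by
  have h : ∀ x R e, (x % r.l) * ent r.l R e ≤ (r.l - 1) * (r.l - 1) := fun x R e =>
    mul_bd (Nat.mod_lt _ hl) (ent_lt hl _ _)
  unfold vL
  have h1 := h (dig r.t1 m * A0) (gy r q0) (ld r N2 N3 k2 k3 0)
  have h2 := h (dig r.t1 1 * fK 1) (gx r q1) (ld r N2 N3 k2 k3 1)
  have h3 := h (dig r.t1 1 * A1) (gy r q1) (ld r N2 N3 k2 k3 1)
  have h4 := h (dig r.t1 m * fK 2) (gx r q2) (ld r N2 N3 k2 k3 2)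
  have h5 := h (dig r.t1 m * A2) (gy r q2) (ld r N2 N3 k2 k3 2)
  have h6 := h (dig r.t1 m2 * fK 3) (gx r q3) (ld r N2 N3 k2 k3 3)
  have h7 := h (dig r.t1 m2 * A3) (gy r q3) (ld r N2 N3 k2 k3 3)
  have h8 := h (dig r.t1 m3 * fK 4) (gx r q4) (ld r N2 N3 k2 k3 4)
  omega

/-- the sum of the values of the forms -/
lemma Holds.sum (h : Holds r a b c B m) :
    ((r.val (jf a b c B m 0) + (r.val (jf a b c B m 1) + (r.val (jf a b c B m 2) +
      (r.val (jf a b c B m 3) + r.val (jf a b c B m 4)))) : ℕ) : ZMod r.l) = 0 := by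
  rw [ZMod.natCast_eq_zero_iff]
  apply Nat.dvd_of_mod_eq_zero
  have h' := h
  unfold Holds J7 at h'
  simp only [List.map_cons, List.map_nil, List.sum_cons, List.sum_nil, add_zero] at h'
  exact h'

/-- value of a form, outer component separated -/
lemma val_eq [NeZero r.n1] [NeZero r.n2] [NeZero r.n3] [NeZero r.l] [NeZero N2] [NeZero N3]
    (h2 : r.n2 ∣ N2) (h3 : r.n3 ∣ N3) {j : ℕ} (hj : j < 5) :
    r.val (jf a b c B m j) = dig r.t1 (rs r.n1 (jf a b c B m j).P) *
      (cx r.n2 r.t2 N2 (cd N2 a b c B m) j * cx r.n3 r.t3 N3 (cd N3 a b c B m) j) *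
      (fK j * dig (gx r (qz r.n1 r.ex1 r.PT1 a b c B m j))
          (ps r N2 N3 (cd N2 a b c B m) (cd N3 a b c B m) j) +
        rs r.l (jf a b c B m j).α * dig (gy r (qz r.n1 r.ex1 r.PT1 a b c B m j))
          (ps r N2 N3 (cd N2 a b c B m) (cd N3 a b c B m) j)) := by
  unfold Rl.val fval
  rw [← tX_eq, ← tY_eq, cx_cd h2 _ hj, cx_cd h3 _ hj, cq_cd h2 _ _ hj,
    cq_cd h3 _ _ hj, fK_cd (a := a) (b := b) (c := c) (B := B) (m := m) hj]
  unfold qz
  ring

lemma rs_one_of {n : ℕ} (hn : 1 < n) : rs n 1 = 1 := by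
  have : Fact (1 < n) := ⟨hn⟩
  unfold rs
  rw [Int.cast_one, ZMod.val_one]

/-- **lanes, the modulus is the outer prime** -/
theorem FL_bit (h : Holds r a b c B m) (hn : 1 < r.n1) [NeZero r.n1] [NeZero r.n2] [NeZero r.n3] [NeZero r.l]
    [NeZero N2] [NeZero N3] (h2 : r.n2 ∣ N2) (h3 : r.n3 ∣ N3) (hr : r.len3 < 256)
    (hl : LOK r.l) {α : Type} {k2 k3 : α → ℕ} {K : List α} {i : ℕ} (hi : i < K.length)
    (e2 : k2 K[i] = cd N2 a b c B m) (e3 : k3 K[i] = cd N3 a b c B m) :
    (msk r.l K.length (FL r (L5of (fun j x => ld r N2 N3 (k2 x) (k3 x) j) K)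
      (rs r.n1 m) (rs r.n1 (y2 a B m)) (rs r.n1 (y3 a b B m))
      (qz r.n1 r.ex1 r.PT1 a b c B m 0) (qz r.n1 r.ex1 r.PT1 a b c B m 1)
      (qz r.n1 r.ex1 r.PT1 a b c B m 2) (qz r.n1 r.ex1 r.PT1 a b c B m 3)
      (qz r.n1 r.ex1 r.PT1 a b c B m 4)
      (rs r.l (-B)) (rs r.l (-(2 * a))) (rs r.l (-(2 * b))) (rs r.l (-(2 * c))))).testBit
        (24 * i + 15) = true := by
  rw [FL_eq]
  apply bit_of hl (fun x _ => vL_lt hl.l1 _ _ _ _ _ _ _ _ _ _ _ _ _ _) hi
  rw [e2, e3, ← ZMod.natCast_eq_zero_iff, ← h.sum]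
  rw [val_eq h2 h3 (j := 0) (by norm_num), val_eq h2 h3 (j := 1) (by norm_num),
    val_eq h2 h3 (j := 2) (by norm_num), val_eq h2 h3 (j := 3) (by norm_num),
    val_eq h2 h3 (j := 4) (by norm_num)]
  unfold vL
  push_cast
  simp only [ent_ld hr, ZMod.natCast_mod]
  have f0 : fK 0 = 0 := rfl
  have e : ∀ x : ℤ, ((rs r.l x : ℕ) : ZMod r.l) = (x : ZMod r.l) := fun x => rs_cast x
  have p0 : (jf a b c B m 0).P = m := rfl
  have p1 : (jf a b c B m 1).P = 1 := rfl
  have p2 : (jf a b c B m 2).P = m := rfl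
  have p3 : (jf a b c B m 3).P = y2 a B m := rfl
  have p4 : (jf a b c B m 4).P = y3 a b B m := rfl
  have a0 : (jf a b c B m 0).α = -B := rfl
  have a1 : (jf a b c B m 1).α = -(2 * a) := rfl
  have a2 : (jf a b c B m 2).α = -(2 * b) := rfl
  have a3 : (jf a b c B m 3).α = -(2 * c) := rfl
  have a4 : (jf a b c B m 4).α = 0 := rfl
  have hz : rs r.l (0 : ℤ) = 0 := by unfold rs; rw [Int.cast_zero, ZMod.val_zero]
  have ho : dig r.t1 1 = dig r.t1 (rs r.n1 1) := by rw [rs_one_of hn]
  rw [p0, p1, p2, p3, p4, a0, a1, a2, a3, a4, f0, hz, ho]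
  push_cast
  ring

/-- the five terms of a lane -/
def vK (r : Rl) (N2 N3 k2 k3 kl m m2 m3 q0 q1 q2 q3 q4 : ℕ) : ℕ :=
  (dig r.t1 m % r.l) * entK r.l (gx r q0) (gy r q0) (ldK r N2 N3 k2 k3 kl 0) +
  ((dig r.t1 1 % r.l) * entK r.l (gx r q1) (gy r q1) (ldK r N2 N3 k2 k3 kl 1) +
  ((dig r.t1 m % r.l) * entK r.l (gx r q2) (gy r q2) (ldK r N2 N3 k2 k3 kl 2) +
  ((dig r.t1 m2 % r.l) * entK r.l (gx r q3) (gy r q3) (ldK r N2 N3 k2 k3 kl 3) +
  (dig r.t1 m3 % r.l) * entK r.l (gx r q4) (gy r q4) (ldK r N2 N3 k2 k3 kl 4))))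

lemma FK_eq {α : Type} (k2 k3 kl : α → ℕ) (K : List α) (m m2 m3 q0 q1 q2 q3 q4 : ℕ) :
    FK r (L5of (fun j x => ldK r N2 N3 (k2 x) (k3 x) (kl x) j) K) m m2 m3 q0 q1 q2 q3 q4 =
      packL (2 ^ 24) (fun x => vK r N2 N3 (k2 x) (k3 x) (kl x) m m2 m3 q0 q1 q2 q3 q4) K := by
  have ex : ∀ (g : α → ℕ) (q P : ℕ), kT r (K.map g) q P =
      packL (2 ^ 24) (fun x => (dig r.t1 P % r.l) * entK r.l (gx r q) (gy r q) (g x)) K := by
    intro g q P
    change (dig r.t1 P % r.l) * rowK r.l (gx r q) (gy r q) (K.map g) = _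
    rw [rowK_map, ← packL_mul]
  unfold FK L5of
  simp only
  rw [ex, ex, ex, ex, ex]
  unfold vK
  simp only [packL_add]
  rfl

lemma vK_lt (hl : 0 < r.l) (k2 k3 kl m m2 m3 q0 q1 q2 q3 q4 : ℕ) :
    vK r N2 N3 k2 k3 kl m m2 m3 q0 q1 q2 q3 q4 < 8 * ((r.l - 1) * (r.l - 1)) + 1 := by
  have h : ∀ x R R' e, (x % r.l) * entK r.l R R' e ≤ (r.l - 1) * (r.l - 1) := fun x R R' e =>
    mul_bd (Nat.mod_lt _ hl) (entK_lt hl _ _ _)
  unfold vK
  have h1 := h (dig r.t1 m) (gx r q0) (gy r q0) (ldK r N2 N3 k2 k3 kl 0)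
  have h2 := h (dig r.t1 1) (gx r q1) (gy r q1) (ldK r N2 N3 k2 k3 kl 1)
  have h3 := h (dig r.t1 m) (gx r q2) (gy r q2) (ldK r N2 N3 k2 k3 kl 2)
  have h4 := h (dig r.t1 m2) (gx r q3) (gy r q3) (ldK r N2 N3 k2 k3 kl 3)
  have h5 := h (dig r.t1 m3) (gx r q4) (gy r q4) (ldK r N2 N3 k2 k3 kl 4)
  omega

/-- **lanes, the coefficients depend on the lane** -/
theorem FK_bit (h : Holds r a b c B m) (hn : 1 < r.n1) [NeZero r.n1] [NeZero r.n2] [NeZero r.n3]
    [NeZero r.l] [NeZero N2] [NeZero N3] (h2 : r.n2 ∣ N2) (h3 : r.n3 ∣ N3) (hr : r.len3 < 256)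
    (hl : LOK r.l) {α : Type} {k2 k3 kl : α → ℕ} {K : List α} {i : ℕ} (hi : i < K.length)
    (e2 : k2 K[i] = cd N2 a b c B m) (e3 : k3 K[i] = cd N3 a b c B m)
    (el : kl K[i] = cd r.l a b c B m) :
    (msk r.l K.length (FK r (L5of (fun j x => ldK r N2 N3 (k2 x) (k3 x) (kl x) j) K)
      (rs r.n1 m) (rs r.n1 (y2 a B m)) (rs r.n1 (y3 a b B m))
      (qz r.n1 r.ex1 r.PT1 a b c B m 0) (qz r.n1 r.ex1 r.PT1 a b c B m 1)
      (qz r.n1 r.ex1 r.PT1 a b c B m 2) (qz r.n1 r.ex1 r.PT1 a b c B m 3)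
      (qz r.n1 r.ex1 r.PT1 a b c B m 4))).testBit (24 * i + 15) = true := by
  rw [FK_eq]
  apply bit_of hl (fun x _ => vK_lt hl.l1 _ _ _ _ _ _ _ _ _ _ _) hi
  rw [e2, e3, el, ← ZMod.natCast_eq_zero_iff, ← h.sum]
  rw [val_eq h2 h3 (j := 0) (by norm_num), val_eq h2 h3 (j := 1) (by norm_num),
    val_eq h2 h3 (j := 2) (by norm_num), val_eq h2 h3 (j := 3) (by norm_num),
    val_eq h2 h3 (j := 4) (by norm_num)]
  rw [← fA_cd (j := 0) (by norm_num), ← fA_cd (j := 1) (by norm_num),
    ← fA_cd (j := 2) (by norm_num), ← fA_cd (j := 3) (by norm_num),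
    ← fA_cd (j := 4) (by norm_num)]
  unfold vK
  push_cast
  simp only [entK_ld hr hl.l1 (hl.l2.trans (by norm_num)), ZMod.natCast_mod]
  have p0 : (jf a b c B m 0).P = m := rfl
  have p1 : (jf a b c B m 1).P = 1 := rfl
  have p2 : (jf a b c B m 2).P = m := rfl
  have p3 : (jf a b c B m 3).P = y2 a B m := rfl
  have p4 : (jf a b c B m 4).P = y3 a b B m := rfl
  have ho : dig r.t1 1 = dig r.t1 (rs r.n1 1) := by rw [rs_one_of hn]
  rw [p0, p1, p2, p3, p4, ho]
  push_cast
  ring

end L

/-! ### lanes, all components known -/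

/-- vectors of a relation all whose components are known in the lanes -/
structure V5 where
  /-- first parts -/
  X : ℕ
  /-- second part -/
  Y0 : ℕ
  /-- second part -/
  Y1 : ℕ
  /-- second part -/
  Y2 : ℕ
  /-- second part -/
  Y3 : ℕ

/-- vector of the digits `j` -/
def dgv (j : ℕ) (L : List ℕ) : ℕ :=
  packL (nat_lit 16777216) (fun e => Nat.mod (Nat.shiftRight e (Nat.mul (nat_lit 16) j))
    (nat_lit 65536)) L

/-- values in the lanes -/
def FB (X Y0 Y1 Y2 Y3 A0 A1 A2 A3 : ℕ) : ℕ :=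
  Nat.add X (Nat.add (Nat.mul A0 Y0) (Nat.add (Nat.mul A1 Y1) (Nat.add (Nat.mul A2 Y2)
    (Nat.mul A3 Y3))))

section B

variable {r : Rl} {a b c B m : ℤ} {N1 N2 N3 : ℕ}

lemma kvy_digit (hl : 0 < r.l) (hl2 : r.l < 100) (k1 k2 k3 : ℕ) :
    kvy r N1 N2 N3 k1 k2 k3 >>> (16 * 0) % 65536 = yt r N1 N2 N3 k1 k2 k3 0 ∧
    kvy r N1 N2 N3 k1 k2 k3 >>> (16 * 1) % 65536 = yt r N1 N2 N3 k1 k2 k3 1 ∧
    kvy r N1 N2 N3 k1 k2 k3 >>> (16 * 2) % 65536 = yt r N1 N2 N3 k1 k2 k3 2 ∧
    kvy r N1 N2 N3 k1 k2 k3 >>> (16 * 3) % 65536 = yt r N1 N2 N3 k1 k2 k3 3 := by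
  have h := fun j => (yt_lt (r := r) (N1 := N1) (N2 := N2) (N3 := N3) (k1 := k1) (k2 := k2)
    (k3 := k3) hl j).trans hl2
  have h0 := h 0
  have h1 := h 1
  have h2 := h 2
  have h3 := h 3
  have e : kvy r N1 N2 N3 k1 k2 k3 = yt r N1 N2 N3 k1 k2 k3 0 + 65536 *
    (yt r N1 N2 N3 k1 k2 k3 1 + 65536 * (yt r N1 N2 N3 k1 k2 k3 2 + 65536 *
      yt r N1 N2 N3 k1 k2 k3 3)) := rfl
  rw [e]
  simp only [Nat.shiftRight_eq_div_pow]
  norm_num
  omega

/-- **lanes, all components known** -/
theorem FB_bit (h : Holds r a b c B m) [NeZero r.n1] [NeZero r.n2] [NeZero r.n3]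
    [NeZero r.l] [NeZero N1] [NeZero N2] [NeZero N3] (h1 : r.n1 ∣ N1) (h2 : r.n2 ∣ N2)
    (h3 : r.n3 ∣ N3) (hl : LOK r.l) {α : Type} {k1 k2 k3 : α → ℕ} {K : List α} {i : ℕ}
    (hi : i < K.length) (e1 : k1 K[i] = cd N1 a b c B m)
    (e2 : k2 K[i] = cd N2 a b c B m) (e3 : k3 K[i] = cd N3 a b c B m) :
    (msk r.l K.length (FB
      (packL (2 ^ 24) (fun x => kvx r N1 N2 N3 (k1 x) (k2 x) (k3 x)) K)
      (packL (2 ^ 24) (fun x => yt r N1 N2 N3 (k1 x) (k2 x) (k3 x) 0) K)
      (packL (2 ^ 24) (fun x => yt r N1 N2 N3 (k1 x) (k2 x) (k3 x) 1) K)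
      (packL (2 ^ 24) (fun x => yt r N1 N2 N3 (k1 x) (k2 x) (k3 x) 2) K)
      (packL (2 ^ 24) (fun x => yt r N1 N2 N3 (k1 x) (k2 x) (k3 x) 3) K)
      (rs r.l (-B)) (rs r.l (-(2 * a))) (rs r.l (-(2 * b))) (rs r.l (-(2 * c))))).testBit
        (24 * i + 15) = true := by
  have hA : ∀ x : ℤ, rs r.l x ≤ r.l - 1 := fun x => by
    have := rs_lt (p := r.l) x
    omega
  have hY : ∀ x j, yt r N1 N2 N3 (k1 x) (k2 x) (k3 x) j ≤ r.l - 1 := fun x j => by
    have := yt_lt (r := r) (N1 := N1) (N2 := N2) (N3 := N3) (k1 := k1 x) (k2 := k2 x)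
      (k3 := k3 x) hl.l1 j
    omega
  have hX : ∀ x, kvx r N1 N2 N3 (k1 x) (k2 x) (k3 x) ≤ r.l - 1 := fun x => by
    have : kvx r N1 N2 N3 (k1 x) (k2 x) (k3 x) < r.l := Nat.mod_lt _ hl.l1
    omega
  have e : FB
      (packL (2 ^ 24) (fun x => kvx r N1 N2 N3 (k1 x) (k2 x) (k3 x)) K)
      (packL (2 ^ 24) (fun x => yt r N1 N2 N3 (k1 x) (k2 x) (k3 x) 0) K)
      (packL (2 ^ 24) (fun x => yt r N1 N2 N3 (k1 x) (k2 x) (k3 x) 1) K)
      (packL (2 ^ 24) (fun x => yt r N1 N2 N3 (k1 x) (k2 x) (k3 x) 2) K)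
      (packL (2 ^ 24) (fun x => yt r N1 N2 N3 (k1 x) (k2 x) (k3 x) 3) K)
      (rs r.l (-B)) (rs r.l (-(2 * a))) (rs r.l (-(2 * b))) (rs r.l (-(2 * c))) =
    packL (2 ^ 24) (fun x => kvx r N1 N2 N3 (k1 x) (k2 x) (k3 x) +
      (rs r.l (-B) * yt r N1 N2 N3 (k1 x) (k2 x) (k3 x) 0 +
      (rs r.l (-(2 * a)) * yt r N1 N2 N3 (k1 x) (k2 x) (k3 x) 1 +
      (rs r.l (-(2 * b)) * yt r N1 N2 N3 (k1 x) (k2 x) (k3 x) 2 +
      rs r.l (-(2 * c)) * yt r N1 N2 N3 (k1 x) (k2 x) (k3 x) 3)))) K := by
    simp only [packL_add, packL_mul]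
    rfl
  rw [e]
  apply bit_of hl _ hi
  · rw [e1, e2, e3, ← ZMod.natCast_eq_zero_iff]
    have hh := h.tm h1 h2 h3
    rw [← Nat.dvd_iff_mod_eq_zero, ← ZMod.natCast_eq_zero_iff] at hh
    rw [← hh]
    unfold kvx
    change ((_ % r.l + _ : ℕ) : ZMod r.l) = _
    push_cast
    rw [ZMod.natCast_mod]
    change ((_ + (_ + (_ + _)) : ℕ) : ZMod r.l) + _ = _
    push_cast
    rw [xt_mod, xt_mod, xt_mod, xt_mod, yt_mod, yt_mod, yt_mod, yt_mod]
    unfold tm
    have f0 : fK 0 = 0 := rfl
    have f4 : fA r.l (cd r.l a b c B m) 4 = 0 := rfl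
    rw [f0, f4]
    have g0 := fA_cd (n := r.l) (a := a) (b := b) (c := c) (B := B) (m := m) (j := 0)
      (by norm_num)
    have g1 := fA_cd (n := r.l) (a := a) (b := b) (c := c) (B := B) (m := m) (j := 1)
      (by norm_num)
    have g2 := fA_cd (n := r.l) (a := a) (b := b) (c := c) (B := B) (m := m) (j := 2)
      (by norm_num)
    have g3 := fA_cd (n := r.l) (a := a) (b := b) (c := c) (B := B) (m := m) (j := 3)
      (by norm_num)
    have a0 : (jf a b c B m 0).α = -B := rfl
    have a1 : (jf a b c B m 1).α = -(2 * a) := rfl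
    have a2 : (jf a b c B m 2).α = -(2 * b) := rfl
    have a3 : (jf a b c B m 3).α = -(2 * c) := rfl
    rw [g0, g1, g2, g3, a0, a1, a2, a3]
    push_cast
    ring
  · intro x _
    have t0 := Nat.mul_le_mul (hA (-B)) (hY x 0)
    have t1 := Nat.mul_le_mul (hA (-(2 * a))) (hY x 1)
    have t2 := Nat.mul_le_mul (hA (-(2 * b))) (hY x 2)
    have t3 := Nat.mul_le_mul (hA (-(2 * c))) (hY x 3)
    have t4 := hX x
    have t5 : r.l - 1 ≤ (r.l - 1) * (r.l - 1) := Nat.le_mul_self _
    omega

end B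

end Pool.Agent.LibH4.S7


end

section

/-!
Enumeration of the lanes of a mask (lowest bit first, without `Nat.log2`).
-/

namespace Pool.Agent.LibH4.S7

open Pool.Agent.Lib_helper5 Pool.Agent.Lib_helper5.LK Pool.Agent.Lib_helper5.TB
  Pool.Agent.Lib_helper5.Lane Pool.Agent.LibH4.Ker

/-- digit in base `2 ^ 8` -/
def dg8 (T i : ℕ) : ℕ := Nat.mod (Nat.shiftRight T (Nat.mul (nat_lit 8) i)) (nat_lit 256)

/-- the lanes of the mask `S`: the lane `j` has the bit `24 j + 15`; `T` is a table of the lanes,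
indexed by the power of two modulo `p` -/
def enumB (p T : ℕ) (k : ℕ → Bool) (fuel : ℕ) : ℕ → Bool :=
  @Nat.rec (fun _ => ℕ → Bool) (fun S => Nat.beq S (nat_lit 0))
    (fun _ ih S => @Bool.rec (fun _ => Bool)
      (strict (Nat.land S (Nat.sub S (nat_lit 1))) fun S' =>
        @Bool.rec (fun _ => Bool) false (ih S')
          (strict (dg8 T (Nat.mod (Nat.sub S S') p)) k))
      true (Nat.beq S (nat_lit 0))) fuel

/-- the table is correct -/
def tabOK (p T n : ℕ) : Bool :=
  allR (fun j => Nat.beq (dg8 T (Nat.mod (Nat.pow (nat_lit 2)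
    (Nat.add (Nat.mul (nat_lit 24) j) (nat_lit 15))) p)) j) n

lemma tbE (x i : ℕ) : (2 * x).testBit (i + 1) = x.testBit i := by
  rw [Nat.testBit_succ]; congr 1; omega

lemma tbO (x i : ℕ) : (2 * x + 1).testBit (i + 1) = x.testBit i := by
  rw [Nat.testBit_succ]; congr 1; omega

lemma tbE0 (x : ℕ) : (2 * x).testBit 0 = false := by
  rw [Nat.testBit_zero]; simp

lemma tbO0 (x : ℕ) : (2 * x + 1).testBit 0 = true := by
  rw [Nat.testBit_zero]; simp

/-- clearing the lowest bit -/
lemma low_bit {S : ℕ} (hS : S ≠ 0) :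
    ∃ t, S.testBit t = true ∧ S - (S &&& (S - 1)) = 2 ^ t ∧
      ∀ i, i ≠ t → (S &&& (S - 1)).testBit i = S.testBit i := by
  induction S using Nat.strong_induction_on with
  | _ S ih =>
    obtain ⟨x, hx | hx⟩ := Nat.even_or_odd' S
    · -- even
      have hx0 : x ≠ 0 := by omega
      obtain ⟨t, h1, h2, h3⟩ := ih x (by omega) hx0
      have e0 : 2 * x - 1 = 2 * (x - 1) + 1 := by omega
      have e : S &&& (S - 1) = 2 * (x &&& (x - 1)) := by
        apply Nat.eq_of_testBit_eq
        intro i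
        rw [hx, e0]
        cases i with
        | zero => rw [Nat.testBit_and, tbE0, tbE0]; rfl
        | succ i => rw [Nat.testBit_and, tbE, tbO, tbE, Nat.testBit_and]
      refine ⟨t + 1, ?_, ?_, ?_⟩
      · rw [hx, tbE]; exact h1
      · rw [e, hx, ← Nat.mul_sub, h2, pow_succ, Nat.mul_comm]
      · intro i hi
        rw [e, hx]
        cases i with
        | zero => rw [tbE0, tbE0]
        | succ i => rw [tbE, tbE]; exact h3 i (by omega)
    · -- odd
      have e : S &&& (S - 1) = 2 * x := by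
        apply Nat.eq_of_testBit_eq
        intro i
        rw [hx, Nat.add_sub_cancel]
        cases i with
        | zero => rw [Nat.testBit_and, tbE0, tbO0]; rfl
        | succ i => rw [Nat.testBit_and, tbE, tbO]; simp
      refine ⟨0, ?_, ?_, ?_⟩
      · rw [hx]; exact tbO0 x
      · rw [e, hx]; omega
      · intro i hi
        rw [e, hx]
        cases i with
        | zero => exact absurd rfl hi
        | succ i => rw [tbE, tbO]

theorem enumB_spec {p T n : ℕ} (hT : tabOK p T n = true) {k : ℕ → Bool} {fuel S : ℕ}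
    (h : enumB p T k fuel S = true) :
    ∀ j < n, S.testBit (24 * j + 15) = true → k j = true := by
  induction fuel generalizing S with
  | zero =>
    intro j _ hb
    have : S = 0 := Nat.eq_of_beq_eq_true h
    subst this
    simp at hb
  | succ f ih =>
    intro j hj hb
    have h' : @Bool.rec (fun _ => Bool)
      (strict (Nat.land S (Nat.sub S (nat_lit 1))) fun S' =>
        @Bool.rec (fun _ => Bool) false (enumB p T k f S')
          (strict (dg8 T (Nat.mod (Nat.sub S S') p)) k))
      true (Nat.beq S (nat_lit 0)) = true := h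
    have hS : S ≠ 0 := by
      intro h0; subst h0; simp at hb
    have hb0 : Nat.beq S (nat_lit 0) = false := by
      cases hc : Nat.beq S (nat_lit 0) with
      | false => rfl
      | true => exact absurd (Nat.eq_of_beq_eq_true hc) hS
    rw [hb0] at h'
    simp only [strict_eq] at h'
    obtain ⟨t, h1, h2, h3⟩ := low_bit hS
    have e1 : Nat.land S (Nat.sub S (nat_lit 1)) = S &&& (S - 1) := rfl
    rw [e1] at h'
    cases hk : k (dg8 T (Nat.mod (Nat.sub S (S &&& (S - 1))) p)) with
    | false => rw [hk] at h'; exact absurd h' (by simp)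
    | true =>
      rw [hk] at h'
      simp only at h'
      by_cases ht : 24 * j + 15 = t
      · have e2 : Nat.sub S (S &&& (S - 1)) = 2 ^ t := h2
        rw [e2, ← ht] at hk
        have h4 := Nat.eq_of_beq_eq_true (allR_spec hT j hj)
        have h5 : dg8 T (Nat.mod (2 ^ (24 * j + 15)) p) = j := h4
        rw [h5] at hk
        exact hk
      · exact ih h' j hj (by rw [h3 _ ht]; exact hb)

/-- the table for `209` lanes, modulo `419` -/
def TBL : ℕ := (nat_lit 5731357197383363171265773342092063789550171339303538343315748790684344528377696266005322532089513207785812342344337284805981578343349883256676150851074341783258329250615963477103168510741263335805484141160373149734508753307467750904596335358819055885905905177589868844669976874496405868549580488287363703089704367170524196392819063135088195137855074910598009482454600347988092855294413979310691707788438410619261445516827449054325754389913835543183835218797153728272952128044445307200155584493815718807061772078205552057341491176675380353121929505300876731785484584565893738745204120182240100499229949582452049091121087528742120088073412998773598601111493828816221843392077578175441736197704112240395610800732036981373166755017979615604139347467433176559021110615390466103683170804765279588233147710349821310218354525966738502716035876002363588890314188285211477771055893668811930264734660319955947948549314308752229054922032043708212929008138829727409808310872036573317453465077339692660383521168137662693376)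

theorem TBL_ok : tabOK (nat_lit 419) TBL (nat_lit 209) = true := by decide +kernel

/-- enumeration of at most `209` lanes -/
def enumT (k : ℕ → Bool) (n S : ℕ) : Bool :=
  @Bool.rec (fun _ => Bool) false (enumB (nat_lit 419) TBL k (nat_lit 210) S)
    (Nat.ble n (nat_lit 209))

theorem enumT_spec {k : ℕ → Bool} {n S : ℕ} (h : enumT k n S = true) :
    ∀ j < n, S.testBit (24 * j + 15) = true → k j = true := by
  unfold enumT at h
  cases hb : Nat.ble n (nat_lit 209) with
  | false => rw [hb] at h; exact absurd h (by simp)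
  | true =>
    rw [hb] at h
    intro j hj
    exact enumB_spec TBL_ok h j (hj.trans_le (Nat.le_of_ble_eq_true hb))

end Pool.Agent.LibH4.S7


end

section

/-!
Period seven: the loop over the classes modulo a prime.
-/

namespace Pool.Agent.LibH4.S7

open Pool.Agent.Lib_helper5 Pool.Agent.Lib_helper5.LK Pool.Agent.Lib_helper5.TB
  Pool.Agent.Lib_helper5.Lane Pool.Agent.LibH4.Ker

/-- solutions of the closing condition -/
def roots (p m2 R3 m3 : ℕ) : List ℕ :=
  @Nat.rec (fun _ => List ℕ) [] (fun c ih => @Bool.rec (fun _ => List ℕ) ih (c :: ih)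
    (Nat.beq (Nat.mod (Nat.mul m3 (Nat.add (nat_lit 1) (Nat.mul c c))) p)
      (Nat.mod (Nat.add m2 (Nat.mul R3 c)) p))) p

lemma mem_roots_aux {p m2 R3 m3 n c : ℕ} (hc : c < n)
    (h : m3 * (1 + c * c) % p = (m2 + R3 * c) % p) :
    c ∈ @Nat.rec (fun _ => List ℕ) [] (fun c ih => @Bool.rec (fun _ => List ℕ) ih (c :: ih)
    (Nat.beq (Nat.mod (Nat.mul m3 (Nat.add (nat_lit 1) (Nat.mul c c))) p)
      (Nat.mod (Nat.add m2 (Nat.mul R3 c)) p))) n := by
  induction n with
  | zero => omega
  | succ n ih =>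
    rcases Nat.lt_succ_iff_lt_or_eq.1 hc with h1 | h1
    · have h2 := ih h1
      simp only
      cases hb : Nat.beq (Nat.mod (Nat.mul m3 (Nat.add (nat_lit 1) (Nat.mul n n))) p)
        (Nat.mod (Nat.add m2 (Nat.mul R3 n)) p) with
      | false => exact h2
      | true => exact List.mem_cons_of_mem _ h2
    · subst h1
      have hb : Nat.beq (Nat.mod (Nat.mul m3 (Nat.add (nat_lit 1) (Nat.mul c c))) p)
        (Nat.mod (Nat.add m2 (Nat.mul R3 c)) p) = true := by
        change Nat.beq (m3 * (1 + c * c) % p) ((m2 + R3 * c) % p) = true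
        rw [h]
        exact Nat.beq_refl _
      simp only
      rw [hb]
      exact List.mem_cons_self

lemma mem_roots {p : ℕ} [NeZero p] {a b c B m : ℤ} (h : Cl a b c B m) :
    rs p c ∈ roots p (rs p (y2 a B m)) (rs p (r3 a b B m)) (rs p (y3 a b B m)) := by
  apply mem_roots_aux (rs_lt c)
  have e1 : rs p (y3 a b B m) * (1 + rs p c * rs p c) % p = rs p (y3 a b B m * (1 + c * c)) := by
    apply rs_of; push_cast; simp only [rs_cast]
  have e2 : (rs p (y2 a B m) + rs p (r3 a b B m) * rs p c) % p =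
      rs p (y2 a B m + r3 a b B m * c) := by
    apply rs_of; push_cast; simp only [rs_cast]
  rw [e1, e2, h]

/-- the type of the checks: `B m a b c m2 m3 q0 q1 q2 q3 q4 A0 A1 A2 A3` -/
abbrev CB := ℕ → ℕ → ℕ → ℕ → ℕ → ℕ → ℕ → ℕ → ℕ → ℕ → ℕ → ℕ → ℕ → ℕ → ℕ → ℕ → Bool

/-- innermost level -/
def wC (p ex PT : ℕ) (k : CB) (B m a b m2 m3 R3 q0 q1 q2 q3 A0 A1 A2 c : ℕ) : Bool :=
  strict (v3 p c m3 R3) fun R4 => strict (pos p ex PT m3 R4 (ng p m3)) fun q4 =>
  strict (ng p (Nat.mul (nat_lit 2) c)) fun A3 => k B m a b c m2 m3 q0 q1 q2 q3 q4 A0 A1 A2 A3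

/-- level of `b` -/
def wBb (p ex PT : ℕ) (k : CB) (B m a m2 R2 q0 q1 q2 A0 A1 b : ℕ) : Bool :=
  strict (u3 p b m m2 R2) fun m3 => strict (v3 p b m2 R2) fun R3 =>
  strict (pos p ex PT m2 R3 (ng p m3)) fun q3 => strict (ng p (Nat.mul (nat_lit 2) b)) fun A2 =>
    allL (wC p ex PT k B m a b m2 m3 R3 q0 q1 q2 q3 A0 A1 A2) (roots p m2 R3 m3)

/-- level of `a` -/
def wA (p ex PT : ℕ) (k : CB) (B m q0 q1 A0 a : ℕ) : Bool :=
  strict (u2 p a B m) fun m2 => strict (v2 p a B m) fun R2 =>
  strict (pos p ex PT m R2 (ng p m2)) fun q2 => strict (ng p (Nat.mul (nat_lit 2) a)) fun A1 =>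
    allR (wBb p ex PT k B m a m2 R2 q0 q1 q2 A0 A1) p

/-- level of `m` -/
def wM (p ex PT : ℕ) (k : CB) (B m : ℕ) : Bool :=
  @Bool.rec (fun _ => Bool) true
    (strict (pos p ex PT m B (Nat.sub p (nat_lit 1))) fun q0 =>
    strict (pos p ex PT (nat_lit 1) B (ng p m)) fun q1 => strict (ng p B) fun A0 =>
      allR (wA p ex PT k B m q0 q1 A0) p)
    (adP p m B (Nat.sub p (nat_lit 1)))

/-- level of `B` -/
def wB (p ex PT : ℕ) (k : CB) (B : ℕ) : Bool := allR (wM p ex PT k B) p

lemma rs_neg_one_of {p : ℕ} (hp : 1 < p) : rs p (-1) = p - 1 := by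
  have : NeZero p := ⟨by omega⟩
  have h : (p - 1) % p = rs p (-1) := by
    apply rs_of
    rw [K5.cast_pred]
    push_cast
    ring
  rw [← h, Nat.mod_eq_of_lt (by omega)]

/-- **the loop over the classes** -/
theorem wB_spec {p : ℕ} (hp : 1 < p) {ex PT : ℕ} {k : CB} {a b c B m : ℤ} (hcl : Cl a b c B m)
    (had : adP p (rs p m) (rs p B) (rs p (-1)) = true) (h : wB p ex PT k (rs p B) = true) :
    k (rs p B) (rs p m) (rs p a) (rs p b) (rs p c) (rs p (y2 a B m)) (rs p (y3 a b B m))
      (qz p ex PT a b c B m 0) (qz p ex PT a b c B m 1) (qz p ex PT a b c B m 2)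
      (qz p ex PT a b c B m 3) (qz p ex PT a b c B m 4) (rs p (-B)) (rs p (-(2 * a)))
      (rs p (-(2 * b))) (rs p (-(2 * c))) = true := by
  have : NeZero p := ⟨by omega⟩
  have h1 := allR_spec h (rs p m) (rs_lt m)
  unfold wM at h1
  rw [rs_neg_one_of hp] at had
  have had' : adP p (rs p m) (rs p B) (Nat.sub p (nat_lit 1)) = true := had
  rw [had'] at h1
  simp only [strict_eq] at h1
  have h2 := allR_spec h1 (rs p a) (rs_lt a)
  unfold wA at h2
  simp only [strict_eq] at h2
  rw [u2_eq, v2_eq] at h2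
  have h3 := allR_spec h2 (rs p b) (rs_lt b)
  unfold wBb at h3
  simp only [strict_eq] at h3
  rw [u3_eq, v3_eq] at h3
  have h4 := allL_spec h3 (rs p c) (mem_roots hcl)
  unfold wC at h4
  simp only [strict_eq] at h4
  rw [v4_eq, ng_eq, ng_eq, ng_eq, ng_eq, ng2_eq, ng2_eq, ng2_eq] at h4
  have e0 : pos p ex PT (rs p m) (rs p B) (Nat.sub p (nat_lit 1)) = qz p ex PT a b c B m 0 := by
    change pos p ex PT (rs p m) (rs p B) (p - 1) = _
    rw [← rs_neg_one_of hp]
    rfl
  have e1 : pos p ex PT (nat_lit 1) (rs p B) (rs p (-m)) = qz p ex PT a b c B m 1 := by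
    have : qz p ex PT a b c B m 1 = pos p ex PT (rs p 1) (rs p B) (rs p (-m)) := rfl
    rw [this, rs_one_of hp]
  rw [e0, e1] at h4
  exact h4

/-! ### membership -/

/-- membership in a list -/
def memN (x : ℕ) (L : List ℕ) : Bool :=
  @List.rec ℕ (fun _ => Bool) false (fun y _ ih => @Bool.rec (fun _ => Bool) ih true
    (Nat.beq x y)) L

lemma memN_spec {x : ℕ} {L : List ℕ} (h : memN x L = true) : x ∈ L := by
  induction L with
  | nil => exact absurd h (by simp [memN])
  | cons y ys ih =>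
    have h' : @Bool.rec (fun _ => Bool) (memN x ys) true (Nat.beq x y) = true := h
    cases hb : Nat.beq x y with
    | true => rw [Nat.eq_of_beq_eq_true hb]; exact List.mem_cons_self
    | false => rw [hb] at h'; exact List.mem_cons_of_mem _ (ih h')

lemma memN_of {x : ℕ} {L : List ℕ} (h : x ∈ L) : memN x L = true := by
  induction L with
  | nil => simp at h
  | cons y ys ih =>
    change @Bool.rec (fun _ => Bool) (memN x ys) true (Nat.beq x y) = true
    cases hb : Nat.beq x y with
    | true => rfl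
    | false =>
      rcases List.mem_cons.1 h with rfl | h1
      · rw [Nat.beq_refl] at hb; exact absurd hb (by simp)
      · exact ih h1

/-- lookup -/
def nthN (L : List ℕ) (i : ℕ) : ℕ :=
  @List.rec ℕ (fun _ => ℕ → ℕ) (fun _ => nat_lit 0)
    (fun x _ ih i => @Nat.rec (fun _ => ℕ) x (fun j _ => ih j) i) L i

lemma nthN_eq {L : List ℕ} {i : ℕ} (h : i < L.length) : nthN L i = L[i] := by
  induction L generalizing i with
  | nil => simp at h
  | cons x xs ih =>
    cases i with
    | zero => rfl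
    | succ i => exact ih (by simpa using h)

end Pool.Agent.LibH4.S7


end

section

/-!
Period seven: the step to the prime `17` for the families.
-/

namespace Pool.Agent.LibH4.S7

open Pool.Agent.Lib_helper5 Pool.Agent.Lib_helper5.LK Pool.Agent.Lib_helper5.TB
  Pool.Agent.Lib_helper5.Lane Pool.Agent.LibH4.Ker

/-! ### relations with known components -/

/-- the components of a relation -/
structure RC (r : Rl) (n1 n2 n3 l : ℕ) : Prop where
  e1 : r.n1 = n1
  e2 : r.n2 = n2
  e3 : r.n3 = n3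
  el : r.l = l
  h3 : r.len3 < 256

section RC

variable {r : Rl} {n1 n2 n3 l : ℕ} {a b c B m : ℤ}

theorem RC.chk (rc : RC r n1 n2 n3 l) (h : Holds r a b c B m) {N1 N2 N3 : ℕ}
    [NeZero n1] [NeZero n2] [NeZero n3] [NeZero l] [NeZero N1] [NeZero N2] [NeZero N3]
    (h1 : n1 ∣ N1) (h2 : n2 ∣ N2) (h3 : n3 ∣ N3) (hl2 : l < 100) {k : Bool}
    (hc : chkS r N1 N2 N3 (cd N1 a b c B m) (cd N2 a b c B m) (cd N3 a b c B m)
      (cd l a b c B m) k = true) : k = true := by
  obtain ⟨rfl, rfl, rfl, rfl, _⟩ := rc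
  exact chkS_spec h h1 h2 h3 hl2 hc

theorem RC.FL (rc : RC r n1 n2 n3 n1) {ex PT : ℕ} (hex : r.ex1 = ex) (hPT : r.PT1 = PT)
    (h : Holds r a b c B m) (hn : 1 < n1) [NeZero n1] [NeZero n2] [NeZero n3] {N2 N3 : ℕ}
    [NeZero N2] [NeZero N3] (h2 : n2 ∣ N2) (h3 : n3 ∣ N3)
    (hl : LOK n1) {α : Type} {k2 k3 : α → ℕ} {K : List α} {i : ℕ} (hi : i < K.length)
    (e2 : k2 K[i] = cd N2 a b c B m) (e3 : k3 K[i] = cd N3 a b c B m) :
    (msk n1 K.length (FL r (L5of (fun j x => ld r N2 N3 (k2 x) (k3 x) j) K)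
      (rs n1 m) (rs n1 (y2 a B m)) (rs n1 (y3 a b B m))
      (qz n1 ex PT a b c B m 0) (qz n1 ex PT a b c B m 1)
      (qz n1 ex PT a b c B m 2) (qz n1 ex PT a b c B m 3)
      (qz n1 ex PT a b c B m 4)
      (rs n1 (-B)) (rs n1 (-(2 * a))) (rs n1 (-(2 * b))) (rs n1 (-(2 * c))))).testBit
        (24 * i + 15) = true := by
  obtain ⟨rfl, rfl, rfl, el, hr⟩ := rc
  subst hex hPT
  have : NeZero r.l := by rw [el]; infer_instance
  have hl' : LOK r.l := by rw [el]; exact hl
  have := FL_bit h hn h2 h3 hr hl' hi e2 e3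
  rw [el] at this
  exact this

theorem RC.FK (rc : RC r n1 n2 n3 l) {ex PT : ℕ} (hex : r.ex1 = ex) (hPT : r.PT1 = PT)
    (h : Holds r a b c B m) (hn : 1 < n1) [NeZero n1] [NeZero n2] [NeZero n3] [NeZero l]
    {N2 N3 : ℕ} [NeZero N2] [NeZero N3] (h2 : n2 ∣ N2) (h3 : n3 ∣ N3)
    (hl : LOK l) {α : Type} {k2 k3 kl : α → ℕ} {K : List α} {i : ℕ} (hi : i < K.length)
    (e2 : k2 K[i] = cd N2 a b c B m) (e3 : k3 K[i] = cd N3 a b c B m)
    (e4 : kl K[i] = cd l a b c B m) :
    (msk l K.length (FK r (L5of (fun j x => ldK r N2 N3 (k2 x) (k3 x) (kl x) j) K)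
      (rs n1 m) (rs n1 (y2 a B m)) (rs n1 (y3 a b B m))
      (qz n1 ex PT a b c B m 0) (qz n1 ex PT a b c B m 1)
      (qz n1 ex PT a b c B m 2) (qz n1 ex PT a b c B m 3)
      (qz n1 ex PT a b c B m 4))).testBit (24 * i + 15) = true := by
  obtain ⟨rfl, rfl, rfl, rfl, hr⟩ := rc
  subst hex hPT
  exact FK_bit h hn h2 h3 hr hl hi e2 e3 e4

end RC

/-! ### packed codes -/

/-- pairs -/
def pk (x y : ℕ) : ℕ := Nat.add x (Nat.mul (nat_lit 16777216) y)
/-- first component -/
def lo (x : ℕ) : ℕ := Nat.mod x (nat_lit 16777216)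
/-- second component -/
def hi (x : ℕ) : ℕ := Nat.div x (nat_lit 16777216)

lemma lo_pk {x y : ℕ} (h : x < 16777216) : lo (pk x y) = x := by
  change (x + 16777216 * y) % 16777216 = x
  omega

lemma hi_pk {x y : ℕ} (h : x < 16777216) : hi (pk x y) = y := by
  change (x + 16777216 * y) / 16777216 = y
  omega

/-- products -/
def prodN (F G : List ℕ) : List ℕ := G.flatMap fun y => F.map fun x => pk x y

lemma mem_prodN {F G : List ℕ} {x y : ℕ} (hx : x ∈ F) (hy : y ∈ G) : pk x y ∈ prodN F G := by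
  unfold prodN
  rw [List.mem_flatMap]
  exact ⟨y, hy, List.mem_map_of_mem hx⟩

lemma cd_lt {n : ℕ} [NeZero n] (hn : n ≤ 19) (a b c B m : ℤ) :
    cd n a b c B m < 16777216 := by
  have h1 := rs_lt (p := n) a
  have h2 := rs_lt (p := n) b
  have h3 := rs_lt (p := n) c
  have h4 := rs_lt (p := n) B
  have h5 := rs_lt (p := n) m
  have key : ∀ x y M : ℕ, x < n → y < M → x + n * y < 19 * M := by
    intro x y M hx hy
    have h1 : x + n * y < n * (y + 1) := by
      have : n * (y + 1) = n * y + n := by ring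
      omega
    have h2 : n * (y + 1) ≤ 19 * M := Nat.mul_le_mul hn (by omega)
    omega
  unfold cd
  have g5 : rs n m < 19 := by omega
  have g4 := key _ _ _ h4 g5
  have g3 := key _ _ _ h3 g4
  have g2 := key _ _ _ h2 g3
  have g1 := key _ _ _ h1 g2
  omega

/-- code of a tuple -/
def tup (k13 k7 k5 k8 k11 k17 : ℕ) : ℕ := pk k13 (pk k7 (pk k5 (pk k8 (pk k11 k17))))

/-- forced evaluation of mapped lists, continuation form -/
def mapC {α β γ : Type} (f : α → (β → γ) → γ) (L : List α) : (List β → γ) → γ :=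
  @List.rec α (fun _ => (List β → γ) → γ) (fun k => k [])
    (fun x _ ih k => f x fun y => ih fun rest => k (y :: rest)) L

lemma mapC_eq {α β γ : Type} {f : α → (β → γ) → γ} {g : α → β} (h : ∀ x k, f x k = k (g x))
    (L : List α) (k : List β → γ) : mapC f L k = k (L.map g) := by
  induction L generalizing k with
  | nil => rfl
  | cons x xs ih =>
    have e : mapC f (x :: xs) k = f x fun y => mapC f xs fun rest => k (y :: rest) := rfl
    rw [e, h, ih]
    rfl

/-- lookup -/
def nthA {α : Type} (d : α) (L : List α) (i : ℕ) : α :=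
  @List.rec α (fun _ => ℕ → α) (fun _ => d)
    (fun x _ ih i => @Nat.rec (fun _ => α) x (fun j _ => ih j) i) L i

lemma nthA_eq {α : Type} (d : α) {L : List α} {i : ℕ} (h : i < L.length) : nthA d L i = L[i] := by
  induction L generalizing i with
  | nil => simp at h
  | cons x xs ih =>
    cases i with
    | zero => rfl
    | succ i => exact ih (by simpa using h)

/-! ### step 17, families -/

/-- relations of the step -/
structure E17 where
  /-- relation -/
  r187a : Rl
  /-- relation -/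
  r187b : Rl
  /-- relation -/
  r680a : Rl
  /-- relation -/
  r680b : Rl
  /-- relation -/
  r520 : Rl
  /-- relation -/
  r680n : Rl
  /-- relation -/
  r221 : Rl
  /-- relation -/
  r119n : Rl
  /-- relation -/
  r119m : Rl
  /-- relation -/
  r595a : Rl
  /-- relation -/
  r595b : Rl
  /-- relation -/
  r935 : Rl

/-- the components -/
structure E17OK (E : E17) : Prop where
  r187a : RC E.r187a 17 11 1 17
  r187b : RC E.r187b 17 11 1 17
  r680a : RC E.r680a 17 5 8 17
  r680b : RC E.r680b 17 5 8 17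
  r520 : RC E.r520 13 5 8 17
  r680n : RC E.r680n 17 5 8 13
  r221 : RC E.r221 17 13 1 5
  r119n : RC E.r119n 17 7 1 13
  r119m : RC E.r119m 17 7 1 5
  r595a : RC E.r595a 17 7 5 13
  r595b : RC E.r595b 17 7 5 13
  r935 : RC E.r935 17 11 5 7
  x187a : E.r187a.ex1 = 15
  x187b : E.r187b.ex1 = 15
  x680a : E.r680a.ex1 = 15
  x680b : E.r680b.ex1 = 15
  p187a : E.r187a.PT1 = PT17
  p187b : E.r187b.PT1 = PT17
  p680a : E.r680a.PT1 = PT17
  p680b : E.r680b.PT1 = PT17

/-- the relations hold -/
structure E17H (E : E17) (a b c B m : ℤ) : Prop where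
  r187a : Holds E.r187a a b c B m
  r187b : Holds E.r187b a b c B m
  r680a : Holds E.r680a a b c B m
  r680b : Holds E.r680b a b c B m
  r520 : Holds E.r520 a b c B m
  r680n : Holds E.r680n a b c B m
  r221 : Holds E.r221 a b c B m
  r119n : Holds E.r119n a b c B m
  r119m : Holds E.r119m a b c B m
  r595a : Holds E.r595a a b c B m
  r595b : Holds E.r595b a b c B m
  r935 : Holds E.r935 a b c B m

/-- a box of classes modulo `13`, `7`, `5`, `8` -/
structure Bx where
  /-- modulo 13 -/
  F13 : List ℕ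
  /-- modulo 7 -/
  F7 : List ℕ
  /-- modulo 5 -/
  F5 : List ℕ
  /-- modulo 8 -/
  F8 : List ℕ
  /-- modulo 11 -/
  F11 : List ℕ

/-- prepared data of a box -/
structure Dx where
  /-- pairs of classes modulo 5 and 8 -/
  K : List ℕ
  /-- data -/
  Sa : L5
  /-- data -/
  Sb : L5

/-- the prepared data -/
def dxOf (E : E17) (bx : Bx) : Dx :=
  ⟨prodN bx.F5 bx.F8,
    L5of (fun j x => ld E.r680a 5 8 (lo x) (hi x) j) (prodN bx.F5 bx.F8),
    L5of (fun j x => ld E.r680b 5 8 (lo x) (hi x) j) (prodN bx.F5 bx.F8)⟩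

/-- preparation -/
def prep {β : Type} (E : E17) (bx : Bx) (k : Dx → β) : β :=
  mapS (fun x => x) (prodN bx.F5 bx.F8) fun K =>
  mkL5 (fun j x => ld E.r680a (nat_lit 5) (nat_lit 8) (lo x) (hi x) j) K fun Sa =>
  mkL5 (fun j x => ld E.r680b (nat_lit 5) (nat_lit 8) (lo x) (hi x) j) K fun Sb =>
    k ⟨K, Sa, Sb⟩

lemma prep_eq {β : Type} (E : E17) (bx : Bx) (k : Dx → β) : prep E bx k = k (dxOf E bx) := by
  unfold prep
  rw [mapS_eq, mkL5_eq, mkL5_eq, List.map_id']
  rfl

/-- last level -/
def l17d (E : E17) (G : List ℕ) (k17 k11 k5 k8 k13 k7 : ℕ) : Bool :=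
  chkS E.r119n (nat_lit 17) (nat_lit 7) (nat_lit 1) k17 k7 (nat_lit 0) k13
  (chkS E.r119m (nat_lit 17) (nat_lit 7) (nat_lit 1) k17 k7 (nat_lit 0) k5
  (chkS E.r595a (nat_lit 17) (nat_lit 7) (nat_lit 5) k17 k7 k5 k13
  (chkS E.r595b (nat_lit 17) (nat_lit 7) (nat_lit 5) k17 k7 k5 k13
  (chkS E.r935 (nat_lit 17) (nat_lit 11) (nat_lit 5) k17 k11 k5 k7
    (memN (tup k13 k7 k5 k8 k11 k17) G)))))

/-- level of the classes modulo 13 -/
def l17c (E : E17) (G F7 : List ℕ) (k17 k11 k5 k8 k13 : ℕ) : Bool :=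
  chkS E.r520 (nat_lit 13) (nat_lit 5) (nat_lit 8) k13 k5 k8 k17
  (chkS E.r680n (nat_lit 17) (nat_lit 5) (nat_lit 8) k17 k5 k8 k13
  (chkS E.r221 (nat_lit 17) (nat_lit 13) (nat_lit 1) k17 k13 (nat_lit 0) k5
    (allL (l17d E G k17 k11 k5 k8 k13) F7)))

/-- a pair of classes modulo 5 and 8 -/
def l17b (E : E17) (G F13 F7 K : List ℕ) (k17 k11 i : ℕ) : Bool :=
  strict (nthN K i) fun x =>
  strict (lo x) fun k5 => strict (hi x) fun k8 => allL (l17c E G F7 k17 k11 k5 k8) F13

/-- a class modulo 11 -/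
def l17a (E : E17) (G : List ℕ) (bx : Bx) (D : Dx)
    (k17 k11 m m2 m3 q0 q1 q2 q3 q4 A0 A1 A2 A3 : ℕ) : Bool :=
  strict (Nat.land
    (msk (nat_lit 17) D.K.length (FL E.r680a D.Sa m m2 m3 q0 q1 q2 q3 q4 A0 A1 A2 A3))
    (msk (nat_lit 17) D.K.length (FL E.r680b D.Sb m m2 m3 q0 q1 q2 q3 q4 A0 A1 A2 A3))) fun M =>
  enumT (l17b E G bx.F13 bx.F7 D.K k17 k11) D.K.length M

/-- a lane -/
def l17l (E : E17) (G : List ℕ) (BS : List Bx) (DS : List Dx) (K : List ℕ)
    (k17 m m2 m3 q0 q1 q2 q3 q4 A0 A1 A2 A3 i : ℕ) : Bool :=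
  strict (nthN K i) fun x => strict (lo x) fun k11 => strict (hi x) fun ib =>
    l17a E G (nthA ⟨[], [], [], [], []⟩ BS ib)
      (nthA ⟨[], ⟨[], [], [], [], []⟩, ⟨[], [], [], [], []⟩⟩ DS ib)
      k17 k11 m m2 m3 q0 q1 q2 q3 q4 A0 A1 A2 A3

/-- check of a class modulo 17 -/
def l17w (E : E17) (G : List ℕ) (BS : List Bx) (DS : List Dx) (K : List ℕ) (Sa Sb : L5) : CB :=
  fun B m a b c m2 m3 q0 q1 q2 q3 q4 A0 A1 A2 A3 =>
  strict (Nat.land
    (msk (nat_lit 17) K.length (FL E.r187a Sa m m2 m3 q0 q1 q2 q3 q4 A0 A1 A2 A3))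
    (msk (nat_lit 17) K.length (FL E.r187b Sb m m2 m3 q0 q1 q2 q3 q4 A0 A1 A2 A3))) fun M =>
  @Bool.rec (fun _ => Bool)
    (strict (ck (nat_lit 17) a b c B m) fun k17 =>
      enumT (l17l E G BS DS K k17 m m2 m3 q0 q1 q2 q3 q4 A0 A1 A2 A3) K.length M)
    true (Nat.beq M (nat_lit 0))

/-- **check of the families at 17** -/
def chk17 (E : E17) (G : List ℕ) (BS : List Bx) (K Bs : List ℕ) : Bool :=
  mapC (prep E) BS fun DS =>
  mkL5 (fun j x => ld E.r187a (nat_lit 11) (nat_lit 1) (lo x) (nat_lit 0) j) K fun Sa =>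
  mkL5 (fun j x => ld E.r187b (nat_lit 11) (nat_lit 1) (lo x) (nat_lit 0) j) K fun Sb =>
    allL (wB (nat_lit 17) (nat_lit 15) PT17 (l17w E G BS DS K Sa Sb)) Bs

lemma land_bit {x y i : ℕ} (hx : x.testBit i = true) (hy : y.testBit i = true) :
    (Nat.land x y).testBit i = true := by
  change (x &&& y).testBit i = true
  rw [Nat.testBit_and, hx, hy]
  rfl

lemma ne_zero_of_bit {x i : ℕ} (hx : x.testBit i = true) : Nat.beq x (nat_lit 0) = false := by
  cases h : Nat.beq x (nat_lit 0) with
  | false => rfl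
  | true =>
    have : x = 0 := Nat.eq_of_beq_eq_true h
    subst this
    simp at hx

lemma ck_eq {n : ℕ} (a b c B m : ℤ) :
    ck n (rs n a) (rs n b) (rs n c) (rs n B) (rs n m) = cd n a b c B m := rfl

section Spec17

variable {E : E17} {a b c B m : ℤ} {G : List ℕ}

lemma l17d_spec (hE : E17OK E) (hH : E17H E a b c B m)
    (h : l17d E G (cd 17 a b c B m) (cd 11 a b c B m) (cd 5 a b c B m) (cd 8 a b c B m)
      (cd 13 a b c B m) (cd 7 a b c B m) = true) :
    tup (cd 13 a b c B m) (cd 7 a b c B m) (cd 5 a b c B m) (cd 8 a b c B m)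
      (cd 11 a b c B m) (cd 17 a b c B m) ∈ G := by
  unfold l17d at h
  have c1 : (nat_lit 0) = cd 1 a b c B m := (cd_one a b c B m).symm
  rw [c1] at h
  have h1 := hE.r119n.chk hH.r119n (dvd_refl _) (dvd_refl _) (dvd_refl _) (by norm_num) h
  have h2 := hE.r119m.chk hH.r119m (dvd_refl _) (dvd_refl _) (dvd_refl _) (by norm_num) h1
  have h3 := hE.r595a.chk hH.r595a (dvd_refl _) (dvd_refl _) (dvd_refl _) (by norm_num) h2
  have h4 := hE.r595b.chk hH.r595b (dvd_refl _) (dvd_refl _) (dvd_refl _) (by norm_num) h3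
  have h5 := hE.r935.chk hH.r935 (dvd_refl _) (dvd_refl _) (dvd_refl _) (by norm_num) h4
  exact memN_spec h5

lemma l17c_spec (hE : E17OK E) (hH : E17H E a b c B m) {F7 : List ℕ}
    (g7 : cd 7 a b c B m ∈ F7)
    (h : l17c E G F7 (cd 17 a b c B m) (cd 11 a b c B m) (cd 5 a b c B m) (cd 8 a b c B m)
      (cd 13 a b c B m) = true) :
    tup (cd 13 a b c B m) (cd 7 a b c B m) (cd 5 a b c B m) (cd 8 a b c B m)
      (cd 11 a b c B m) (cd 17 a b c B m) ∈ G := by
  unfold l17c at h
  have c1 : (nat_lit 0) = cd 1 a b c B m := (cd_one a b c B m).symm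
  rw [c1] at h
  have h1 := hE.r520.chk hH.r520 (dvd_refl _) (dvd_refl _) (dvd_refl _) (by norm_num) h
  have h2 := hE.r680n.chk hH.r680n (dvd_refl _) (dvd_refl _) (dvd_refl _) (by norm_num) h1
  have h3 := hE.r221.chk hH.r221 (dvd_refl _) (dvd_refl _) (dvd_refl _) (by norm_num) h2
  exact l17d_spec hE hH (allL_spec h3 _ g7)

lemma l17a_spec (hE : E17OK E) (hH : E17H E a b c B m) {bx : Bx}
    (g13 : cd 13 a b c B m ∈ bx.F13) (g7 : cd 7 a b c B m ∈ bx.F7)
    (g5 : cd 5 a b c B m ∈ bx.F5) (g8 : cd 8 a b c B m ∈ bx.F8)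
    (h : l17a E G bx (dxOf E bx) (cd 17 a b c B m) (cd 11 a b c B m)
      (rs 17 m) (rs 17 (y2 a B m)) (rs 17 (y3 a b B m))
      (qz 17 15 PT17 a b c B m 0) (qz 17 15 PT17 a b c B m 1) (qz 17 15 PT17 a b c B m 2)
      (qz 17 15 PT17 a b c B m 3) (qz 17 15 PT17 a b c B m 4) (rs 17 (-B)) (rs 17 (-(2 * a)))
      (rs 17 (-(2 * b))) (rs 17 (-(2 * c))) = true) :
    tup (cd 13 a b c B m) (cd 7 a b c B m) (cd 5 a b c B m) (cd 8 a b c B m)
      (cd 11 a b c B m) (cd 17 a b c B m) ∈ G := by
  unfold l17a at h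
  rw [strict_eq] at h
  have h5 := cd_lt (n := 5) (by norm_num) a b c B m
  obtain ⟨i, hi, hx⟩ := List.mem_iff_getElem.1 (mem_prodN g5 g8)
  have e2 : lo (prodN bx.F5 bx.F8)[i] = cd 5 a b c B m := by rw [hx, lo_pk h5]
  have e3 : S7.hi (prodN bx.F5 bx.F8)[i] = cd 8 a b c B m := by rw [hx, hi_pk h5]
  have b1 := hE.r680a.FL hE.x680a hE.p680a hH.r680a (by norm_num) (dvd_refl 5) (dvd_refl 8)
    lok17 (k2 := lo) (k3 := S7.hi) hi e2 e3
  have b2 := hE.r680b.FL hE.x680b hE.p680b hH.r680b (by norm_num) (dvd_refl 5) (dvd_refl 8)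
    lok17 (k2 := lo) (k3 := S7.hi) hi e2 e3
  have h1 := enumT_spec h i hi (land_bit b1 b2)
  unfold l17b at h1
  simp only [strict_eq] at h1
  have e1 : nthN (dxOf E bx).K i = pk (cd 5 a b c B m) (cd 8 a b c B m) := by
    have : nthN (dxOf E bx).K i = (prodN bx.F5 bx.F8)[i] := nthN_eq hi
    rw [this, hx]
  rw [e1, lo_pk h5, hi_pk h5] at h1
  exact l17c_spec hE hH g7 (allL_spec h1 _ g13)

/-- **families at 17** -/
theorem chk17_spec (hE : E17OK E) (hH : E17H E a b c B m) (hcl : Cl a b c B m)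
    (had : adP 17 (rs 17 m) (rs 17 B) (rs 17 (-1)) = true) {BS : List Bx} {K Bs : List ℕ}
    (hB : rs 17 B ∈ Bs) {ib : ℕ} (hib : ib < BS.length)
    (hK : pk (cd 11 a b c B m) ib ∈ K)
    (g13 : cd 13 a b c B m ∈ BS[ib].F13) (g7 : cd 7 a b c B m ∈ BS[ib].F7)
    (g5 : cd 5 a b c B m ∈ BS[ib].F5) (g8 : cd 8 a b c B m ∈ BS[ib].F8)
    (h : chk17 E G BS K Bs = true) :
    tup (cd 13 a b c B m) (cd 7 a b c B m) (cd 5 a b c B m) (cd 8 a b c B m)
      (cd 11 a b c B m) (cd 17 a b c B m) ∈ G := by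
  unfold chk17 at h
  rw [mapC_eq (g := dxOf E) (fun x k => prep_eq E x k), mkL5_eq, mkL5_eq] at h
  have h1 := wB_spec (by norm_num) hcl had (allL_spec h _ hB)
  unfold l17w at h1
  rw [strict_eq] at h1
  have h11 := cd_lt (n := 11) (by norm_num) a b c B m
  obtain ⟨i, hi, hx⟩ := List.mem_iff_getElem.1 hK
  have e2 : lo K[i] = cd 11 a b c B m := by rw [hx, lo_pk h11]
  have e3 : (fun _ : ℕ => (0 : ℕ)) K[i] = cd 1 a b c B m := (cd_one a b c B m).symm
  have b1 := hE.r187a.FL hE.x187a hE.p187a hH.r187a (by norm_num) (dvd_refl 11) (dvd_refl 1)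
    lok17 (k2 := lo) (k3 := fun _ => 0) hi e2 e3
  have b2 := hE.r187b.FL hE.x187b hE.p187b hH.r187b (by norm_num) (dvd_refl 11) (dvd_refl 1)
    lok17 (k2 := lo) (k3 := fun _ => 0) hi e2 e3
  have b3 := land_bit b1 b2
  have b4 := ne_zero_of_bit b3
  erw [b4] at h1
  simp only [strict_eq] at h1
  have h2 := enumT_spec h1 i hi b3
  unfold l17l at h2
  simp only [strict_eq] at h2
  have e1 : nthN K i = pk (cd 11 a b c B m) ib := by rw [nthN_eq hi, hx]
  rw [e1, lo_pk h11, hi_pk h11, nthA_eq _ hib, nthA_eq _ (by simpa using hib), List.getElem_map]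
    at h2
  exact l17a_spec hE hH g13 g7 g5 g8 h2

end Spec17

end Pool.Agent.LibH4.S7


end

section

/-!
Period seven: the step to the prime `11`, and the step to `17` for the single classes.
-/

namespace Pool.Agent.LibH4.S7

open Pool.Agent.Lib_helper5 Pool.Agent.Lib_helper5.LK Pool.Agent.Lib_helper5.TB
  Pool.Agent.Lib_helper5.Lane Pool.Agent.LibH4.Ker

/-! ### step 11 -/

/-- relations of the step -/
structure E11 where
  /-- relation -/
  r88 : Rl
  /-- relation -/
  r616 : Rl
  /-- relation -/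
  r308 : Rl
  /-- relation -/
  r616n : Rl
  /-- relation -/
  r143m : Rl
  /-- relation -/
  r143n : Rl
  /-- relation -/
  r572 : Rl
  /-- relation -/
  r715 : Rl

/-- the components -/
structure E11OK (E : E11) : Prop where
  r88 : RC E.r88 11 8 1 11
  r616 : RC E.r616 11 7 8 11
  r308 : RC E.r308 11 7 4 7
  r616n : RC E.r616n 11 7 8 13
  r143m : RC E.r143m 11 13 1 7
  r143n : RC E.r143n 11 13 1 5
  r572 : RC E.r572 11 13 4 5
  r715 : RC E.r715 11 13 5 7
  x88 : E.r88.ex1 = 9
  x616 : E.r616.ex1 = 9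
  x308 : E.r308.ex1 = 9
  p88 : E.r88.PT1 = PT11
  p616 : E.r616.PT1 = PT11
  p308 : E.r308.PT1 = PT11

/-- the relations hold -/
structure E11H (E : E11) (a b c B m : ℤ) : Prop where
  r88 : Holds E.r88 a b c B m
  r616 : Holds E.r616 a b c B m
  r308 : Holds E.r308 a b c B m
  r616n : Holds E.r616n a b c B m
  r143m : Holds E.r143m a b c B m
  r143n : Holds E.r143n a b c B m
  r572 : Holds E.r572 a b c B m
  r715 : Holds E.r715 a b c B m

/-- code of a tuple -/
def tup5 (k13 k7 k5 k8 k11 : ℕ) : ℕ := pk k13 (pk k7 (pk k5 (pk k8 k11)))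

/-- last level -/
def l11d (E : E11) (G : List ℕ) (k11 k7 k8 k13 k5 : ℕ) : Bool :=
  chkS E.r143n (nat_lit 11) (nat_lit 13) (nat_lit 1) k11 k13 (nat_lit 0) k5
  (chkS E.r572 (nat_lit 11) (nat_lit 13) (nat_lit 8) k11 k13 k8 k5
  (chkS E.r715 (nat_lit 11) (nat_lit 13) (nat_lit 5) k11 k13 k5 k7
    (memN (tup5 k13 k7 k5 k8 k11) G)))

/-- level of the classes modulo 13 -/
def l11c (E : E11) (G F5 : List ℕ) (k11 k7 k8 k13 : ℕ) : Bool :=
  chkS E.r616n (nat_lit 11) (nat_lit 7) (nat_lit 8) k11 k7 k8 k13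
  (chkS E.r143m (nat_lit 11) (nat_lit 13) (nat_lit 1) k11 k13 (nat_lit 0) k7
    (allL (l11d E G k11 k7 k8 k13) F5))

/-- a box -/
def l11b (E : E11) (G : List ℕ) (bx : Bx) (k11 k7 k8 : ℕ) : Bool :=
  @Bool.rec (fun _ => Bool) (allL (l11c E G bx.F5 k11 k7 k8) bx.F13) true (memN k11 bx.F11)

/-- a lane -/
def l11l (E : E11) (G : List ℕ) (BS : List Bx) (K : List ℕ) (k11 i : ℕ) : Bool :=
  strict (nthN K i) fun x => strict (lo x) fun k7 => strict (lo (hi x)) fun k8 => strict (hi (hi x)) fun ib =>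
    l11b E G (nthA ⟨[], [], [], [], []⟩ BS ib) k11 k7 k8

/-- check of a class modulo 11 -/
def l11w (E : E11) (G : List ℕ) (BS : List Bx) (K : List ℕ) (Sa Sb Sc : L5) : CB :=
  fun B m a b c m2 m3 q0 q1 q2 q3 q4 A0 A1 A2 A3 =>
  strict (Nat.land
    (msk (nat_lit 11) K.length (FL E.r88 Sa m m2 m3 q0 q1 q2 q3 q4 A0 A1 A2 A3))
    (Nat.land
    (msk (nat_lit 11) K.length (FL E.r616 Sb m m2 m3 q0 q1 q2 q3 q4 A0 A1 A2 A3))
    (msk (nat_lit 7) K.length (FK E.r308 Sc m m2 m3 q0 q1 q2 q3 q4)))) fun M =>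
  @Bool.rec (fun _ => Bool)
    (strict (ck (nat_lit 11) a b c B m) fun k11 =>
      enumT (l11l E G BS K k11) K.length M)
    true (Nat.beq M (nat_lit 0))

/-- **check at 11** -/
def chk11 (E : E11) (G : List ℕ) (BS : List Bx) (K Bs : List ℕ) : Bool :=
  mkL5 (fun j x => ld E.r88 (nat_lit 8) (nat_lit 1) (lo (hi x)) (nat_lit 0) j) K fun Sa =>
  mkL5 (fun j x => ld E.r616 (nat_lit 7) (nat_lit 8) (lo x) (lo (hi x)) j) K fun Sb =>
  mkL5 (fun j x => ldK E.r308 (nat_lit 7) (nat_lit 8) (lo x) (lo (hi x)) (lo x) j) K fun Sc =>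
    allL (wB (nat_lit 11) (nat_lit 9) PT11 (l11w E G BS K Sa Sb Sc)) Bs

section Spec11

variable {E : E11} {a b c B m : ℤ} {G : List ℕ}

lemma l11b_spec (hE : E11OK E) (hH : E11H E a b c B m) {bx : Bx}
    (g13 : cd 13 a b c B m ∈ bx.F13) (g5 : cd 5 a b c B m ∈ bx.F5)
    (h : l11b E G bx (cd 11 a b c B m) (cd 7 a b c B m) (cd 8 a b c B m) = true) :
    cd 11 a b c B m ∈ bx.F11 ∨ tup5 (cd 13 a b c B m) (cd 7 a b c B m) (cd 5 a b c B m)
      (cd 8 a b c B m) (cd 11 a b c B m) ∈ G := by
  unfold l11b at h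
  cases hm : memN (cd 11 a b c B m) bx.F11 with
  | true => exact Or.inl (memN_spec hm)
  | false =>
    rw [hm] at h
    right
    have h1 := allL_spec h _ g13
    unfold l11c at h1
    have c1 : (nat_lit 0) = cd 1 a b c B m := (cd_one a b c B m).symm
    rw [c1] at h1
    have h2 := hE.r616n.chk hH.r616n (dvd_refl _) (dvd_refl _) (dvd_refl _) (by norm_num) h1
    have h3 := hE.r143m.chk hH.r143m (dvd_refl _) (dvd_refl _) (dvd_refl _) (by norm_num) h2
    have h4 := allL_spec h3 _ g5
    unfold l11d at h4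
    rw [c1] at h4
    have h5 := hE.r143n.chk hH.r143n (dvd_refl _) (dvd_refl _) (dvd_refl _) (by norm_num) h4
    have h6 := hE.r572.chk hH.r572 (dvd_refl _) (dvd_refl _) (by norm_num) (by norm_num) h5
    have h7 := hE.r715.chk hH.r715 (dvd_refl _) (dvd_refl _) (dvd_refl _) (by norm_num) h6
    exact memN_spec h7

/-- **the step to 11** -/
theorem chk11_spec (hE : E11OK E) (hH : E11H E a b c B m) (hcl : Cl a b c B m)
    (had : adP 11 (rs 11 m) (rs 11 B) (rs 11 (-1)) = true) {BS : List Bx} {K Bs : List ℕ}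
    (hB : rs 11 B ∈ Bs) {ib : ℕ} (hib : ib < BS.length)
    (hK : pk (cd 7 a b c B m) (pk (cd 8 a b c B m) ib) ∈ K)
    (g13 : cd 13 a b c B m ∈ BS[ib].F13) (g5 : cd 5 a b c B m ∈ BS[ib].F5)
    (h : chk11 E G BS K Bs = true) :
    cd 11 a b c B m ∈ BS[ib].F11 ∨ tup5 (cd 13 a b c B m) (cd 7 a b c B m) (cd 5 a b c B m)
      (cd 8 a b c B m) (cd 11 a b c B m) ∈ G := by
  unfold chk11 at h
  rw [mkL5_eq, mkL5_eq, mkL5_eq] at h
  have h1 := wB_spec (by norm_num) hcl had (allL_spec h _ hB)
  unfold l11w at h1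
  rw [strict_eq] at h1
  have h7 := cd_lt (n := 7) (by norm_num) a b c B m
  have h8 := cd_lt (n := 8) (by norm_num) a b c B m
  obtain ⟨i, hi, hx⟩ := List.mem_iff_getElem.1 hK
  have e2 : lo K[i] = cd 7 a b c B m := by rw [hx, lo_pk h7]
  have e3 : (fun x => lo (S7.hi x)) K[i] = cd 8 a b c B m := by
    change lo (S7.hi K[i]) = _
    rw [hx, hi_pk h7, lo_pk h8]
  have e0 : (fun _ : ℕ => (0 : ℕ)) K[i] = cd 1 a b c B m := (cd_one a b c B m).symm
  have b1 := hE.r88.FL hE.x88 hE.p88 hH.r88 (by norm_num) (dvd_refl 8) (dvd_refl 1)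
    lok11 (k2 := fun x => lo (S7.hi x)) (k3 := fun _ => 0) hi e3 e0
  have b2 := hE.r616.FL hE.x616 hE.p616 hH.r616 (by norm_num) (dvd_refl 7) (dvd_refl 8)
    lok11 (k2 := lo) (k3 := fun x => lo (S7.hi x)) hi e2 e3
  have b3 := hE.r308.FK hE.x308 hE.p308 hH.r308 (by norm_num) (dvd_refl 7)
    (show 4 ∣ 8 by norm_num) lok7 (k2 := lo) (k3 := fun x => lo (S7.hi x)) (kl := lo) hi e2 e3 e2
  have b5 := land_bit b1 (land_bit b2 b3)
  have b4 := ne_zero_of_bit b5
  erw [b4] at h1
  simp only [strict_eq] at h1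
  have h2 := enumT_spec h1 i hi b5
  unfold l11l at h2
  simp only [strict_eq] at h2
  have e1 : nthN K i = pk (cd 7 a b c B m) (pk (cd 8 a b c B m) ib) := by
    rw [nthN_eq hi, hx]
  rw [e1, lo_pk h7, hi_pk h7, lo_pk h8, hi_pk h8, nthA_eq _ hib] at h2
  exact l11b_spec hE hH g13 g5 h2

end Spec11

/-! ### lanes -/

/-- the lanes of the boxes -/
def lanesF (f : Bx → ℕ → List ℕ) (BS : List Bx) : ℕ → List ℕ :=
  @List.rec Bx (fun _ => ℕ → List ℕ) (fun _ => [])
    (fun b _ ih i => f b i ++ ih (Nat.succ i)) BS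

lemma mem_lanesF {f : Bx → ℕ → List ℕ} {BS : List Bx} {i j x : ℕ} (hj : j < BS.length)
    (hx : x ∈ f BS[j] (i + j)) : x ∈ lanesF f BS i := by
  induction BS generalizing i j with
  | nil => simp at hj
  | cons b bs ih =>
    have e : lanesF f (b :: bs) i = f b i ++ lanesF f bs (i + 1) := rfl
    rw [e, List.mem_append]
    cases j with
    | zero => exact Or.inl hx
    | succ j =>
      right
      apply ih (j := j) (by simpa using hj)
      have : i + 1 + j = i + (j + 1) := by omega
      rw [this]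
      exact hx

/-- check at 11 with the lanes of the boxes -/
def chk11c (E : E11) (G : List ℕ) (BS : List Bx) (Bs : List ℕ) : Bool :=
  mapS (fun x => x) (lanesF (fun b i => prodN b.F7 (prodN b.F8 [i])) BS (nat_lit 0)) fun K =>
    chk11 E G BS K Bs

/-- check of the families at 17 with the lanes of the boxes -/
def chk17c (E : E17) (G : List ℕ) (BS : List Bx) (Bs : List ℕ) : Bool :=
  mapS (fun x => x) (lanesF (fun b i => prodN b.F11 [i]) BS (nat_lit 0)) fun K =>
    chk17 E G BS K Bs

/-- the classes lie in a box -/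
structure InB (bx : Bx) (a b c B m : ℤ) : Prop where
  h13 : cd 13 a b c B m ∈ bx.F13
  h7 : cd 7 a b c B m ∈ bx.F7
  h5 : cd 5 a b c B m ∈ bx.F5
  h8 : cd 8 a b c B m ∈ bx.F8

theorem chk11c_spec {E : E11} {a b c B m : ℤ} {G : List ℕ} (hE : E11OK E)
    (hH : E11H E a b c B m) (hcl : Cl a b c B m)
    (had : adP 11 (rs 11 m) (rs 11 B) (rs 11 (-1)) = true) {BS : List Bx}
    (h : ∀ x < 11, ∃ Bs, x ∈ Bs ∧ chk11c E G BS Bs = true)
    {bx : Bx} (hbx : bx ∈ BS) (hin : InB bx a b c B m) :
    cd 11 a b c B m ∈ bx.F11 ∨ tup5 (cd 13 a b c B m) (cd 7 a b c B m) (cd 5 a b c B m)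
      (cd 8 a b c B m) (cd 11 a b c B m) ∈ G := by
  obtain ⟨i, hi, rfl⟩ := List.mem_iff_getElem.1 hbx
  obtain ⟨Bs, hB, h1⟩ := h _ (rs_lt B)
  unfold chk11c at h1
  rw [mapS_eq, List.map_id'] at h1
  refine chk11_spec hE hH hcl had hB hi ?_ hin.h13 hin.h5 h1
  apply mem_lanesF hi
  rw [Nat.zero_add]
  exact mem_prodN hin.h7 (mem_prodN hin.h8 (List.mem_singleton.2 rfl))

theorem chk17c_spec {E : E17} {a b c B m : ℤ} {G : List ℕ} (hE : E17OK E)
    (hH : E17H E a b c B m) (hcl : Cl a b c B m)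
    (had : adP 17 (rs 17 m) (rs 17 B) (rs 17 (-1)) = true) {BS : List Bx}
    (h : ∀ x < 17, ∃ Bs, x ∈ Bs ∧ chk17c E G BS Bs = true)
    {bx : Bx} (hbx : bx ∈ BS) (hin : InB bx a b c B m) (h11 : cd 11 a b c B m ∈ bx.F11) :
    tup (cd 13 a b c B m) (cd 7 a b c B m) (cd 5 a b c B m) (cd 8 a b c B m)
      (cd 11 a b c B m) (cd 17 a b c B m) ∈ G := by
  obtain ⟨i, hi, rfl⟩ := List.mem_iff_getElem.1 hbx
  obtain ⟨Bs, hB, h1⟩ := h _ (rs_lt B)
  unfold chk17c at h1
  rw [mapS_eq, List.map_id'] at h1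
  refine chk17_spec hE hH hcl had hB hi ?_ hin.h13 hin.h7 hin.h5 hin.h8 h1
  apply mem_lanesF hi
  rw [Nat.zero_add]
  exact mem_prodN h11 (List.mem_singleton.2 rfl)

/-! ### step 17, single classes -/

/-- a single class -/
def g17t (E : E17) (G : List ℕ) (k17 k11 x : ℕ) : Bool :=
  strict (lo x) fun k13 => strict (lo (hi x)) fun k7 => strict (lo (hi (hi x))) fun k5 =>
  strict (hi (hi (hi x))) fun k8 =>
  chkS E.r520 (nat_lit 13) (nat_lit 5) (nat_lit 8) k13 k5 k8 k17
  (chkS E.r680a (nat_lit 17) (nat_lit 5) (nat_lit 8) k17 k5 k8 k17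
  (chkS E.r680b (nat_lit 17) (nat_lit 5) (nat_lit 8) k17 k5 k8 k17
  (chkS E.r680n (nat_lit 17) (nat_lit 5) (nat_lit 8) k17 k5 k8 k13
  (chkS E.r221 (nat_lit 17) (nat_lit 13) (nat_lit 1) k17 k13 (nat_lit 0) k5
    (l17d E G k17 k11 k5 k8 k13 k7)))))

/-- a lane -/
def g17l (E : E17) (G : List ℕ) (GS : List (List ℕ)) (K : List ℕ) (k17 i : ℕ) : Bool :=
  strict (nthN K i) fun k11 => allL (g17t E G k17 k11) (nthA [] GS i)

/-- check of a class modulo 17 -/
def g17w (E : E17) (G : List ℕ) (GS : List (List ℕ)) (K : List ℕ) (Sa Sb : L5) : CB :=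
  fun B m a b c m2 m3 q0 q1 q2 q3 q4 A0 A1 A2 A3 =>
  strict (Nat.land
    (msk (nat_lit 17) K.length (FL E.r187a Sa m m2 m3 q0 q1 q2 q3 q4 A0 A1 A2 A3))
    (msk (nat_lit 17) K.length (FL E.r187b Sb m m2 m3 q0 q1 q2 q3 q4 A0 A1 A2 A3))) fun M =>
  @Bool.rec (fun _ => Bool)
    (strict (ck (nat_lit 17) a b c B m) fun k17 =>
      enumT (g17l E G GS K k17) K.length M)
    true (Nat.beq M (nat_lit 0))

/-- **check of the single classes at 17** -/
def chkG17 (E : E17) (G : List ℕ) (GS : List (List ℕ)) (K Bs : List ℕ) : Bool :=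
  mkL5 (fun j x => ld E.r187a (nat_lit 11) (nat_lit 1) x (nat_lit 0) j) K fun Sa =>
  mkL5 (fun j x => ld E.r187b (nat_lit 11) (nat_lit 1) x (nat_lit 0) j) K fun Sb =>
    allL (wB (nat_lit 17) (nat_lit 15) PT17 (g17w E G GS K Sa Sb)) Bs

section SpecG17

variable {E : E17} {a b c B m : ℤ} {G : List ℕ}

/-- code of a quadruple -/
def tup4 (k13 k7 k5 k8 : ℕ) : ℕ := pk k13 (pk k7 (pk k5 k8))

lemma g17t_spec (hE : E17OK E) (hH : E17H E a b c B m)
    (h : g17t E G (cd 17 a b c B m) (cd 11 a b c B m) (tup4 (cd 13 a b c B m)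
      (cd 7 a b c B m) (cd 5 a b c B m) (cd 8 a b c B m)) = true) :
    tup (cd 13 a b c B m) (cd 7 a b c B m) (cd 5 a b c B m) (cd 8 a b c B m)
      (cd 11 a b c B m) (cd 17 a b c B m) ∈ G := by
  unfold g17t tup4 at h
  simp only [strict_eq] at h
  have h13 := cd_lt (n := 13) (by norm_num) a b c B m
  have h7 := cd_lt (n := 7) (by norm_num) a b c B m
  have h5 := cd_lt (n := 5) (by norm_num) a b c B m
  rw [lo_pk h13, hi_pk h13, lo_pk h7, hi_pk h7, lo_pk h5, hi_pk h5] at h
  have c1 : (nat_lit 0) = cd 1 a b c B m := (cd_one a b c B m).symm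
  rw [c1] at h
  have h1 := hE.r520.chk hH.r520 (dvd_refl _) (dvd_refl _) (dvd_refl _) (by norm_num) h
  have h2 := hE.r680a.chk hH.r680a (dvd_refl _) (dvd_refl _) (dvd_refl _) (by norm_num) h1
  have h3 := hE.r680b.chk hH.r680b (dvd_refl _) (dvd_refl _) (dvd_refl _) (by norm_num) h2
  have h4 := hE.r680n.chk hH.r680n (dvd_refl _) (dvd_refl _) (dvd_refl _) (by norm_num) h3
  have h6 := hE.r221.chk hH.r221 (dvd_refl _) (dvd_refl _) (dvd_refl _) (by norm_num) h4
  exact l17d_spec hE hH h6

/-- **single classes at 17** -/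
theorem chkG17_spec (hE : E17OK E) (hH : E17H E a b c B m) (hcl : Cl a b c B m)
    (had : adP 17 (rs 17 m) (rs 17 B) (rs 17 (-1)) = true) {GS : List (List ℕ)} {K Bs : List ℕ}
    (hB : rs 17 B ∈ Bs) {i : ℕ} (hi : i < K.length) (hi2 : i < GS.length)
    (hx : K[i] = cd 11 a b c B m)
    (hg : tup4 (cd 13 a b c B m) (cd 7 a b c B m) (cd 5 a b c B m) (cd 8 a b c B m) ∈ GS[i])
    (h : chkG17 E G GS K Bs = true) :
    tup (cd 13 a b c B m) (cd 7 a b c B m) (cd 5 a b c B m) (cd 8 a b c B m)
      (cd 11 a b c B m) (cd 17 a b c B m) ∈ G := by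
  unfold chkG17 at h
  rw [mkL5_eq, mkL5_eq] at h
  have h1 := wB_spec (by norm_num) hcl had (allL_spec h _ hB)
  unfold g17w at h1
  rw [strict_eq] at h1
  have e3 : (fun _ : ℕ => (0 : ℕ)) K[i] = cd 1 a b c B m := (cd_one a b c B m).symm
  have b1 := hE.r187a.FL hE.x187a hE.p187a hH.r187a (by norm_num) (dvd_refl 11) (dvd_refl 1)
    lok17 (k2 := fun x => x) (k3 := fun _ => 0) hi hx e3
  have b2 := hE.r187b.FL hE.x187b hE.p187b hH.r187b (by norm_num) (dvd_refl 11) (dvd_refl 1)
    lok17 (k2 := fun x => x) (k3 := fun _ => 0) hi hx e3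
  have b3 := land_bit b1 b2
  have b4 := ne_zero_of_bit b3
  erw [b4] at h1
  simp only [strict_eq] at h1
  have h2 := enumT_spec h1 i hi b3
  unfold g17l at h2
  simp only [strict_eq] at h2
  have e1 : nthN K i = cd 11 a b c B m := by rw [nthN_eq hi, hx]
  rw [e1, nthA_eq _ hi2] at h2
  exact g17t_spec hE hH (allL_spec h2 _ hg)

/-- location of a quintuple: `i` counts the classes modulo 11 -/
def locG (k11 t4 : ℕ) (K : List ℕ) : List (List ℕ) → Bool :=
  @List.rec ℕ (fun _ => List (List ℕ) → Bool) (fun _ => false)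
    (fun x _ ih GS => @List.rec (List ℕ) (fun _ => Bool) false
      (fun g gs _ => @Bool.rec (fun _ => Bool) (ih gs) (memN t4 g) (Nat.beq x k11)) GS) K

lemma locG_spec {k11 t4 : ℕ} {K : List ℕ} {GS : List (List ℕ)} (h : locG k11 t4 K GS = true) :
    ∃ (i : ℕ) (hi : i < K.length) (hi2 : i < GS.length), K[i] = k11 ∧ t4 ∈ GS[i] := by
  induction K generalizing GS with
  | nil => exact absurd h (by simp [locG])
  | cons x xs ih =>
    cases GS with
    | nil => exact absurd h (by simp [locG])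
    | cons g gs =>
      have h' : @Bool.rec (fun _ => Bool) (locG k11 t4 xs gs) (memN t4 g) (Nat.beq x k11) = true :=
        h
      cases hb : Nat.beq x k11 with
      | true =>
        rw [hb] at h'
        exact ⟨0, by simp, by simp, Nat.eq_of_beq_eq_true hb, memN_spec h'⟩
      | false =>
        rw [hb] at h'
        obtain ⟨i, hi, hi2, h1, h2⟩ := ih h'
        exact ⟨i + 1, by simpa using hi, by simpa using hi2, h1, h2⟩

/-- fourth component -/
def h4 (x : ℕ) : ℕ := lo (hi (hi (hi x)))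

/-- the quintuples are located -/
def locA (K : List ℕ) (GS : List (List ℕ)) (G : List ℕ) : Bool :=
  allL (fun t => strict (lo t) fun k13 => strict (lo (hi t)) fun k7 =>
    strict (lo (hi (hi t))) fun k5 => strict (h4 t) fun k8 =>
    strict (hi (hi (hi (hi t)))) fun k11 => strict (tup4 k13 k7 k5 k8) fun t4 =>
      locG k11 t4 K GS) G

lemma locA_spec {K : List ℕ} {GS : List (List ℕ)} {G : List ℕ} (h : locA K GS G = true)
    (hG : tup5 (cd 13 a b c B m) (cd 7 a b c B m) (cd 5 a b c B m)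
      (cd 8 a b c B m) (cd 11 a b c B m) ∈ G) :
    ∃ (i : ℕ) (hi : i < K.length) (hi2 : i < GS.length), K[i] = cd 11 a b c B m ∧
      tup4 (cd 13 a b c B m) (cd 7 a b c B m) (cd 5 a b c B m) (cd 8 a b c B m) ∈ GS[i] := by
  have h13 := cd_lt (n := 13) (by norm_num) a b c B m
  have h7 := cd_lt (n := 7) (by norm_num) a b c B m
  have h5 := cd_lt (n := 5) (by norm_num) a b c B m
  have h8 := cd_lt (n := 8) (by norm_num) a b c B m
  have h1 := allL_spec h _ hG
  simp only [strict_eq] at h1
  unfold tup5 at h1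
  have e : h4 (pk (cd 13 a b c B m) (pk (cd 7 a b c B m) (pk (cd 5 a b c B m)
      (pk (cd 8 a b c B m) (cd 11 a b c B m))))) = cd 8 a b c B m := by
    unfold h4
    rw [hi_pk h13, hi_pk h7, hi_pk h5, lo_pk h8]
  rw [e, lo_pk h13, hi_pk h13, lo_pk h7, hi_pk h7, lo_pk h5, hi_pk h5, hi_pk h8] at h1
  exact locG_spec h1

/-- **single classes at 17**, from the list of the quintuples -/
theorem chkG17_of (hE : E17OK E) (hH : E17H E a b c B m) (hcl : Cl a b c B m)
    (had : adP 17 (rs 17 m) (rs 17 B) (rs 17 (-1)) = true) {GS : List (List ℕ)} {K G5 : List ℕ}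
    (hl : locA K GS G5 = true)
    (h : ∀ x < 17, ∃ Bs, x ∈ Bs ∧ chkG17 E G GS K Bs = true)
    (hG : tup5 (cd 13 a b c B m) (cd 7 a b c B m) (cd 5 a b c B m)
      (cd 8 a b c B m) (cd 11 a b c B m) ∈ G5) :
    tup (cd 13 a b c B m) (cd 7 a b c B m) (cd 5 a b c B m) (cd 8 a b c B m)
      (cd 11 a b c B m) (cd 17 a b c B m) ∈ G := by
  obtain ⟨i, hi, hi2, h1, h2⟩ := locA_spec hl hG
  obtain ⟨Bs, hB, h3⟩ := h _ (rs_lt B)
  exact chkG17_spec hE hH hcl had hB hi hi2 h1 h2 h3

end SpecG17

end Pool.Agent.LibH4.S7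


end

section

/-! generated: the boxes of the classes modulo `13`, `7`, `5`, `8` -/

namespace Pool.Agent.LibH4.S7

open Pool.Agent.Lib_helper5 Pool.Agent.Lib_helper5.LK Pool.Agent.Lib_helper5.TB
  Pool.Agent.LibH4.Ker

/-- membership in a box -/
def inBx (k13 k7 k5 k8 : ℕ) (b : Bx) : Bool :=
  @Bool.rec (fun _ => Bool) false
    (@Bool.rec (fun _ => Bool) false
      (@Bool.rec (fun _ => Bool) false (memN k8 b.F8) (memN k5 b.F5))
      (memN k7 b.F7))
    (memN k13 b.F13)

lemma inBx_spec {k13 k7 k5 k8 : ℕ} {b : Bx} (h : inBx k13 k7 k5 k8 b = true) :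
    k13 ∈ b.F13 ∧ k7 ∈ b.F7 ∧ k5 ∈ b.F5 ∧ k8 ∈ b.F8 := by
  unfold inBx at h
  cases h1 : memN k13 b.F13 with
  | false => rw [h1] at h; exact absurd h (by simp)
  | true =>
    rw [h1] at h
    cases h2 : memN k7 b.F7 with
    | false => rw [h2] at h; exact absurd h (by simp)
    | true =>
      rw [h2] at h
      cases h3 : memN k5 b.F5 with
      | false => rw [h3] at h; exact absurd h (by simp)
      | true =>
        rw [h3] at h
        exact ⟨memN_spec h1, memN_spec h2, memN_spec h3, memN_spec h⟩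

/-- membership in one of the boxes -/
def inBs (k13 k7 k5 k8 : ℕ) (BS : List Bx) : Bool :=
  @List.rec Bx (fun _ => Bool) false
    (fun b _ ih => @Bool.rec (fun _ => Bool) ih true (inBx k13 k7 k5 k8 b)) BS

lemma inBs_spec {k13 k7 k5 k8 : ℕ} {BS : List Bx} (h : inBs k13 k7 k5 k8 BS = true) :
    ∃ b ∈ BS, k13 ∈ b.F13 ∧ k7 ∈ b.F7 ∧ k5 ∈ b.F5 ∧ k8 ∈ b.F8 := by
  induction BS with
  | nil => exact absurd h (by simp [inBs])
  | cons b bs ih =>
    have h' : @Bool.rec (fun _ => Bool) (inBs k13 k7 k5 k8 bs) true (inBx k13 k7 k5 k8 b) = true := h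
    cases hb : inBx k13 k7 k5 k8 b with
    | true => exact ⟨b, List.mem_cons_self, inBx_spec hb⟩
    | false =>
      rw [hb] at h'
      obtain ⟨b', h1, h2⟩ := ih h'
      exact ⟨b', List.mem_cons_of_mem _ h1, h2⟩

/-- membership in one of the boxes of the groups -/
def inBss (k13 k7 k5 k8 : ℕ) (BB : List (List Bx)) : Bool :=
  @List.rec (List Bx) (fun _ => Bool) false
    (fun b _ ih => @Bool.rec (fun _ => Bool) ih true (inBs k13 k7 k5 k8 b)) BB

lemma inBss_spec {k13 k7 k5 k8 : ℕ} {BB : List (List Bx)} (h : inBss k13 k7 k5 k8 BB = true) :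
    ∃ BS ∈ BB, ∃ b ∈ BS, k13 ∈ b.F13 ∧ k7 ∈ b.F7 ∧ k5 ∈ b.F5 ∧ k8 ∈ b.F8 := by
  induction BB with
  | nil => exact absurd h (by simp [inBss])
  | cons b bs ih =>
    have h' : @Bool.rec (fun _ => Bool) (inBss k13 k7 k5 k8 bs) true (inBs k13 k7 k5 k8 b) = true :=
      h
    cases hb : inBs k13 k7 k5 k8 b with
    | true => exact ⟨b, List.mem_cons_self, inBs_spec hb⟩
    | false =>
      rw [hb] at h'
      obtain ⟨b', h1, h2⟩ := ih h'
      exact ⟨b', List.mem_cons_of_mem _ h1, h2⟩

/-- box -/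
def bx0 : Bx :=
  ⟨[(nat_lit 37349), (nat_lit 39378), (nat_lit 39210), (nat_lit 39042), (nat_lit 38874),
    (nat_lit 38706), (nat_lit 38538), (nat_lit 38370), (nat_lit 38202), (nat_lit 38034),
    (nat_lit 37866), (nat_lit 37698), (nat_lit 37530)], [(nat_lit 3430), (nat_lit 3725), (nat_lit 3677), (nat_lit 3629), (nat_lit 3581),
    (nat_lit 3533), (nat_lit 3485)], [(nat_lit 875), (nat_lit 976), (nat_lit 952), (nat_lit 928), (nat_lit 904)], [(nat_lit 4608), (nat_lit 5057), (nat_lit 4994), (nat_lit 4931), (nat_lit 4868),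
    (nat_lit 4805), (nat_lit 4742), (nat_lit 4679)], [(nat_lit 22627), (nat_lit 23838), (nat_lit 23718), (nat_lit 23598), (nat_lit 23478),
    (nat_lit 23358), (nat_lit 23238), (nat_lit 23118), (nat_lit 22998), (nat_lit 22878),
    (nat_lit 22758)]⟩

/-- box -/
def bx1 : Bx :=
  ⟨[(nat_lit 316706), (nat_lit 316538), (nat_lit 316370), (nat_lit 318399), (nat_lit 318231),
    (nat_lit 318063), (nat_lit 317895), (nat_lit 317727), (nat_lit 317559), (nat_lit 317391),
    (nat_lit 317223), (nat_lit 317055), (nat_lit 316887)], [(nat_lit 11760), (nat_lit 11712), (nat_lit 11664), (nat_lit 11959), (nat_lit 11911),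
    (nat_lit 11863), (nat_lit 11815)], [(nat_lit 925), (nat_lit 901), (nat_lit 877), (nat_lit 978), (nat_lit 954)], [(nat_lit 13952), (nat_lit 13889), (nat_lit 13826), (nat_lit 14275), (nat_lit 14212),
    (nat_lit 14149), (nat_lit 14086), (nat_lit 14023)], []⟩

/-- box -/
def bx2 : Bx :=
  ⟨[(nat_lit 38025), (nat_lit 37857), (nat_lit 37689), (nat_lit 37521), (nat_lit 37353),
    (nat_lit 38374), (nat_lit 38206)], [(nat_lit 3577), (nat_lit 3529), (nat_lit 3481), (nat_lit 3433), (nat_lit 3728),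
    (nat_lit 3680), (nat_lit 3632)], [(nat_lit 925), (nat_lit 901), (nat_lit 877), (nat_lit 978), (nat_lit 954)], [(nat_lit 4672), (nat_lit 21056), (nat_lit 4609), (nat_lit 20993), (nat_lit 5058),
    (nat_lit 21442), (nat_lit 4995), (nat_lit 21379), (nat_lit 4932), (nat_lit 21316),
    (nat_lit 4869), (nat_lit 21253), (nat_lit 4806), (nat_lit 21190), (nat_lit 4743),
    (nat_lit 21127)], [(nat_lit 23353), (nat_lit 23233), (nat_lit 23113), (nat_lit 22993), (nat_lit 22873),
    (nat_lit 22753), (nat_lit 22633), (nat_lit 23844), (nat_lit 23724), (nat_lit 23604),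
    (nat_lit 23484)]⟩

/-- box -/
def bx3 : Bx :=
  ⟨[(nat_lit 351182), (nat_lit 351014), (nat_lit 350846), (nat_lit 350678), (nat_lit 350510),
    (nat_lit 350342), (nat_lit 350174), (nat_lit 350006), (nat_lit 349838), (nat_lit 349670),
    (nat_lit 349502), (nat_lit 349334), (nat_lit 351363)], [(nat_lit 15680), (nat_lit 15632), (nat_lit 15584), (nat_lit 15536), (nat_lit 15488),
    (nat_lit 15440), (nat_lit 15735)], [(nat_lit 1075), (nat_lit 1700), (nat_lit 1051), (nat_lit 1676), (nat_lit 1027),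
    (nat_lit 1652), (nat_lit 1003), (nat_lit 1628), (nat_lit 1104), (nat_lit 1729)], [(nat_lit 30592), (nat_lit 30529), (nat_lit 30466), (nat_lit 30403), (nat_lit 30340),
    (nat_lit 30277), (nat_lit 30214), (nat_lit 30663)], []⟩

/-- box -/
def bx4 : Bx :=
  ⟨[(nat_lit 49351), (nat_lit 49183), (nat_lit 49015), (nat_lit 48847), (nat_lit 48679),
    (nat_lit 48511)], [(nat_lit 3969), (nat_lit 3921), (nat_lit 3873), (nat_lit 3825), (nat_lit 3777),
    (nat_lit 4072), (nat_lit 4024)], [(nat_lit 1075), (nat_lit 1051), (nat_lit 1027), (nat_lit 1003), (nat_lit 1104)], [(nat_lit 8128), (nat_lit 24512), (nat_lit 8065), (nat_lit 24449), (nat_lit 8002),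
    (nat_lit 24386), (nat_lit 7939), (nat_lit 24323), (nat_lit 7876), (nat_lit 24260),
    (nat_lit 7813), (nat_lit 24197), (nat_lit 7750), (nat_lit 24134), (nat_lit 7687),
    (nat_lit 24071)], [(nat_lit 21901), (nat_lit 21781), (nat_lit 21661), (nat_lit 21541), (nat_lit 21421),
    (nat_lit 21301), (nat_lit 22512), (nat_lit 22392), (nat_lit 22272), (nat_lit 22152),
    (nat_lit 22032)]⟩

/-- box -/
def bx5 : Bx :=
  ⟨[(nat_lit 37349), (nat_lit 118651), (nat_lit 142831), (nat_lit 48386), (nat_lit 68185),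
    (nat_lit 178048), (nat_lit 230789), (nat_lit 254969), (nat_lit 193466), (nat_lit 74841)], [(nat_lit 3430), (nat_lit 7553), (nat_lit 9275), (nat_lit 3794), (nat_lit 10318),
    (nat_lit 12040), (nat_lit 11361)], [(nat_lit 875), (nat_lit 1255), (nat_lit 1010), (nat_lit 2015), (nat_lit 2395)], [(nat_lit 4608), (nat_lit 7688), (nat_lit 31248), (nat_lit 13848), (nat_lit 21024),
    (nat_lit 24104), (nat_lit 14896), (nat_lit 30264)], [(nat_lit 22627), (nat_lit 93181), (nat_lit 134453), (nat_lit 146443), (nat_lit 143792),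
    (nat_lit 97218), (nat_lit 21362), (nat_lit 77275), (nat_lit 103906), (nat_lit 115896),
    (nat_lit 83963)]⟩

/-- box -/
def bx6 : Bx :=
  ⟨[(nat_lit 316706), (nat_lit 340886), (nat_lit 279383), (nat_lit 160758), (nat_lit 356304),
    (nat_lit 204737), (nat_lit 228917), (nat_lit 224536), (nat_lit 358579), (nat_lit 154271)], [(nat_lit 11760), (nat_lit 6279), (nat_lit 12803), (nat_lit 14525), (nat_lit 13846),
    (nat_lit 5964), (nat_lit 10087)], [(nat_lit 925), (nat_lit 1305), (nat_lit 1060), (nat_lit 2065), (nat_lit 2445)], [(nat_lit 13952), (nat_lit 21128), (nat_lit 24208), (nat_lit 15000), (nat_lit 30368),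
    (nat_lit 4776), (nat_lit 7856), (nat_lit 31416)], []⟩

/-- box -/
def bx7 : Bx :=
  ⟨[(nat_lit 38025), (nat_lit 143507), (nat_lit 273169), (nat_lit 75517)], [(nat_lit 3577), (nat_lit 7700), (nat_lit 9422), (nat_lit 3941), (nat_lit 10465),
    (nat_lit 12187), (nat_lit 11508)], [(nat_lit 925), (nat_lit 1305), (nat_lit 1060), (nat_lit 2065), (nat_lit 2445)], [(nat_lit 4672), (nat_lit 21056), (nat_lit 7752), (nat_lit 24136), (nat_lit 14928),
    (nat_lit 31312), (nat_lit 30296), (nat_lit 13912), (nat_lit 4704), (nat_lit 21088),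
    (nat_lit 7784), (nat_lit 24168), (nat_lit 14960), (nat_lit 31344), (nat_lit 30328),
    (nat_lit 13944)], [(nat_lit 23353), (nat_lit 93907), (nat_lit 135179), (nat_lit 147169), (nat_lit 144518),
    (nat_lit 97944), (nat_lit 22088), (nat_lit 78001), (nat_lit 104632), (nat_lit 116622),
    (nat_lit 84689)]⟩

/-- box -/
def bx8 : Bx :=
  ⟨[(nat_lit 351182), (nat_lit 56810), (nat_lit 366600), (nat_lit 72228), (nat_lit 210652),
    (nat_lit 291954), (nat_lit 221689), (nat_lit 74503), (nat_lit 241488)], [(nat_lit 15680), (nat_lit 2996), (nat_lit 4718), (nat_lit 16044), (nat_lit 5761),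
    (nat_lit 7483), (nat_lit 6804)], [(nat_lit 1075), (nat_lit 1700), (nat_lit 2705), (nat_lit 2080), (nat_lit 3085),
    (nat_lit 2460), (nat_lit 965), (nat_lit 1590), (nat_lit 1970), (nat_lit 1345)], [(nat_lit 30592), (nat_lit 5000), (nat_lit 8080), (nat_lit 31640), (nat_lit 14240),
    (nat_lit 21416), (nat_lit 24496), (nat_lit 15288)], []⟩

/-- box -/
def bx9 : Bx :=
  ⟨[(nat_lit 272441), (nat_lit 270335), (nat_lit 118768)], [(nat_lit 3773), (nat_lit 10297), (nat_lit 12019), (nat_lit 11340), (nat_lit 3458),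
    (nat_lit 7581), (nat_lit 9303)], [(nat_lit 1000), (nat_lit 2005), (nat_lit 2385), (nat_lit 890), (nat_lit 1270)], [(nat_lit 7680), (nat_lit 31240), (nat_lit 13840), (nat_lit 21016), (nat_lit 24096),
    (nat_lit 14888), (nat_lit 30256), (nat_lit 4664)], [(nat_lit 21296), (nat_lit 77209), (nat_lit 103840), (nat_lit 115830), (nat_lit 83897),
    (nat_lit 22682), (nat_lit 93236), (nat_lit 134508), (nat_lit 146498), (nat_lit 143847),
    (nat_lit 97273)]⟩

/-- box -/
def bx10 : Bx :=
  ⟨[(nat_lit 273962), (nat_lit 179517), (nat_lit 232258), (nat_lit 256438), (nat_lit 194935),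
    (nat_lit 76310), (nat_lit 38987), (nat_lit 120289), (nat_lit 140088)], [(nat_lit 3969), (nat_lit 10493), (nat_lit 12215), (nat_lit 11536), (nat_lit 3654),
    (nat_lit 7777), (nat_lit 9499)], [(nat_lit 1075), (nat_lit 2080), (nat_lit 2460), (nat_lit 965), (nat_lit 1345)], [(nat_lit 8128), (nat_lit 24512), (nat_lit 15304), (nat_lit 31688), (nat_lit 30672),
    (nat_lit 14288), (nat_lit 5080), (nat_lit 21464), (nat_lit 8160), (nat_lit 24544),
    (nat_lit 15336), (nat_lit 31720), (nat_lit 30704), (nat_lit 14320), (nat_lit 5112),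
    (nat_lit 21496)], [(nat_lit 21901), (nat_lit 77814), (nat_lit 104445), (nat_lit 116435), (nat_lit 84502),
    (nat_lit 23287), (nat_lit 93841), (nat_lit 135113), (nat_lit 147103), (nat_lit 144452),
    (nat_lit 97878)]⟩

/-- box -/
def bx11 : Bx :=
  ⟨[(nat_lit 280891), (nat_lit 124943), (nat_lit 135980)], [(nat_lit 10192), (nat_lit 11914), (nat_lit 6433), (nat_lit 12957), (nat_lit 14679),
    (nat_lit 14000), (nat_lit 6118)], [(nat_lit 1075), (nat_lit 2080), (nat_lit 2460), (nat_lit 965), (nat_lit 1345)], [(nat_lit 15232), (nat_lit 30600), (nat_lit 5008), (nat_lit 8088), (nat_lit 31648),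
    (nat_lit 14248), (nat_lit 21424), (nat_lit 24504)], []⟩

/-- box -/
def bx12 : Bx :=
  ⟨[(nat_lit 290394), (nat_lit 314574), (nat_lit 239928), (nat_lit 55419)], [(nat_lit 15876), (nat_lit 5593), (nat_lit 7315), (nat_lit 6636), (nat_lit 15561),
    (nat_lit 2877), (nat_lit 4599)], [(nat_lit 925), (nat_lit 1550), (nat_lit 1305), (nat_lit 1930), (nat_lit 1060),
    (nat_lit 1685), (nat_lit 2690), (nat_lit 2065), (nat_lit 3070), (nat_lit 2445)], [(nat_lit 31360), (nat_lit 13960), (nat_lit 21136), (nat_lit 24216), (nat_lit 15008),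
    (nat_lit 30376), (nat_lit 4784), (nat_lit 7864)], []⟩

/-- box -/
def bx13 : Bx :=
  ⟨[(nat_lit 272585), (nat_lit 138906), (nat_lit 119471), (nat_lit 271402)], [(nat_lit 10333), (nat_lit 3865), (nat_lit 9402), (nat_lit 7736), (nat_lit 3669),
    (nat_lit 11607), (nat_lit 12342)], [(nat_lit 2021), (nat_lit 1046), (nat_lit 1321), (nat_lit 971), (nat_lit 2496)], [(nat_lit 31289), (nat_lit 7801), (nat_lit 4793), (nat_lit 30457), (nat_lit 15161),
    (nat_lit 24441), (nat_lit 21433), (nat_lit 14329)], [(nat_lit 77309), (nat_lit 21528), (nat_lit 97516), (nat_lit 144222), (nat_lit 147005),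
    (nat_lit 135147), (nat_lit 94007), (nat_lit 23585), (nat_lit 84932), (nat_lit 116997),
    (nat_lit 105139)]⟩

/-- box -/
def bx14 : Bx :=
  ⟨[(nat_lit 37675), (nat_lit 75362), (nat_lit 194169), (nat_lit 255854), (nat_lit 231856),
    (nat_lit 179297), (nat_lit 69616), (nat_lit 50181), (nat_lit 144990)], [(nat_lit 7589), (nat_lit 3522), (nat_lit 11460), (nat_lit 12195), (nat_lit 10529),
    (nat_lit 4061), (nat_lit 9598)], [(nat_lit 1271), (nat_lit 921), (nat_lit 2446), (nat_lit 2096), (nat_lit 1121)], [(nat_lit 7737), (nat_lit 4729), (nat_lit 30393), (nat_lit 15097), (nat_lit 24377),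
    (nat_lit 21369), (nat_lit 14265), (nat_lit 31737)], [(nat_lit 93281), (nat_lit 22859), (nat_lit 84206), (nat_lit 116271), (nat_lit 104413),
    (nat_lit 77914), (nat_lit 22133), (nat_lit 98121), (nat_lit 144827), (nat_lit 147610),
    (nat_lit 135752)]⟩

/-- box -/
def bx15 : Bx :=
  ⟨[(nat_lit 138436), (nat_lit 119001), (nat_lit 270932), (nat_lit 274312)], [(nat_lit 9274), (nat_lit 7608), (nat_lit 3541), (nat_lit 11479), (nat_lit 12214),
    (nat_lit 10548), (nat_lit 4080)], [(nat_lit 1259), (nat_lit 909), (nat_lit 2434), (nat_lit 2084), (nat_lit 1109)], [(nat_lit 4623), (nat_lit 30287), (nat_lit 14991), (nat_lit 24271), (nat_lit 21263),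
    (nat_lit 14159), (nat_lit 31631), (nat_lit 8143)], [(nat_lit 97184), (nat_lit 143890), (nat_lit 146673), (nat_lit 134815), (nat_lit 93675),
    (nat_lit 23253), (nat_lit 84600), (nat_lit 116665), (nat_lit 104807), (nat_lit 78308),
    (nat_lit 22527)]⟩

/-- box -/
def bx16 : Bx :=
  ⟨[(nat_lit 74892), (nat_lit 193699), (nat_lit 255384), (nat_lit 231386), (nat_lit 178827),
    (nat_lit 69146), (nat_lit 49711), (nat_lit 144520), (nat_lit 39402)], [(nat_lit 11332), (nat_lit 12067), (nat_lit 10401), (nat_lit 3933), (nat_lit 9470),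
    (nat_lit 7804), (nat_lit 3737)], [(nat_lit 2384), (nat_lit 2034), (nat_lit 1059), (nat_lit 1334), (nat_lit 984)], [(nat_lit 30223), (nat_lit 14927), (nat_lit 24207), (nat_lit 21199), (nat_lit 14095),
    (nat_lit 31567), (nat_lit 8079), (nat_lit 5071)], [(nat_lit 83874), (nat_lit 115939), (nat_lit 104081), (nat_lit 77582), (nat_lit 21801),
    (nat_lit 97789), (nat_lit 144495), (nat_lit 147278), (nat_lit 135420), (nat_lit 94280),
    (nat_lit 23858)]⟩

/-- group of boxes -/
def BG0 : List Bx := [bx2, bx0]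

/-- group of boxes -/
def BG1 : List Bx := [bx4, bx1]

/-- group of boxes -/
def BG2 : List Bx := [bx7, bx3]

/-- group of boxes -/
def BG3 : List Bx := [bx10, bx5]

/-- group of boxes -/
def BG4 : List Bx := [bx6, bx8, bx9]

/-- group of boxes -/
def BG5 : List Bx := [bx11, bx12, bx13]

/-- group of boxes -/
def BG6 : List Bx := [bx14, bx15, bx16]

/-- single classes -/
def BG7 : List Bx := [
  ⟨[(nat_lit 37349)], [(nat_lit 3430)], [(nat_lit 875)], [(nat_lit 4770)], []⟩,
  ⟨[(nat_lit 37349)], [(nat_lit 3430)], [(nat_lit 875)], [(nat_lit 13947)], []⟩,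
  ⟨[(nat_lit 37349)], [(nat_lit 3430)], [(nat_lit 875)], [(nat_lit 30587)], []⟩,
  ⟨[(nat_lit 37349)], [(nat_lit 3430)], [(nat_lit 875)], [(nat_lit 14868)], []⟩,
  ⟨[(nat_lit 37349)], [(nat_lit 3430)], [(nat_lit 875)], [(nat_lit 31284)], []⟩,
  ⟨[(nat_lit 37349)], [(nat_lit 3430)], [(nat_lit 875)], [(nat_lit 5030)], []⟩,
  ⟨[(nat_lit 316706)], [(nat_lit 11760)], [(nat_lit 925)], [(nat_lit 24565)], []⟩,
  ⟨[(nat_lit 340886)], [(nat_lit 10087)], [(nat_lit 1060)], [(nat_lit 13889)], []⟩,
  ⟨[(nat_lit 340886)], [(nat_lit 10087)], [(nat_lit 877)], [(nat_lit 15000)], []⟩,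
  ⟨[(nat_lit 340886)], [(nat_lit 10087)], [(nat_lit 877)], [(nat_lit 13889)], []⟩,
  ⟨[(nat_lit 340886)], [(nat_lit 11863)], [(nat_lit 1060)], [(nat_lit 15000)], []⟩,
  ⟨[(nat_lit 340886)], [(nat_lit 11863)], [(nat_lit 1060)], [(nat_lit 13889)], []⟩,
  ⟨[(nat_lit 340886)], [(nat_lit 11863)], [(nat_lit 877)], [(nat_lit 15000)], []⟩,
  ⟨[(nat_lit 340886)], [(nat_lit 11863)], [(nat_lit 877)], [(nat_lit 13889)], []⟩,
  ⟨[(nat_lit 366600)], [(nat_lit 16044)], [(nat_lit 965)], [(nat_lit 30277)], []⟩,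
  ⟨[(nat_lit 366600)], [(nat_lit 16044)], [(nat_lit 1590)], [(nat_lit 30277)], []⟩,
  ⟨[(nat_lit 366600)], [(nat_lit 16044)], [(nat_lit 1003)], [(nat_lit 31640)], []⟩,
  ⟨[(nat_lit 366600)], [(nat_lit 16044)], [(nat_lit 1003)], [(nat_lit 30277)], []⟩,
  ⟨[(nat_lit 366600)], [(nat_lit 16044)], [(nat_lit 1729)], [(nat_lit 31640)], []⟩,
  ⟨[(nat_lit 366600)], [(nat_lit 16044)], [(nat_lit 1729)], [(nat_lit 30277)], []⟩,
  ⟨[(nat_lit 366600)], [(nat_lit 15488)], [(nat_lit 965)], [(nat_lit 31640)], []⟩,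
  ⟨[(nat_lit 366600)], [(nat_lit 15488)], [(nat_lit 965)], [(nat_lit 30277)], []⟩,
  ⟨[(nat_lit 366600)], [(nat_lit 15488)], [(nat_lit 1590)], [(nat_lit 31640)], []⟩,
  ⟨[(nat_lit 366600)], [(nat_lit 15488)], [(nat_lit 1590)], [(nat_lit 30277)], []⟩,
  ⟨[(nat_lit 366600)], [(nat_lit 15488)], [(nat_lit 1003)], [(nat_lit 31640)], []⟩,
  ⟨[(nat_lit 366600)], [(nat_lit 15488)], [(nat_lit 1003)], [(nat_lit 30277)], []⟩,
  ⟨[(nat_lit 366600)], [(nat_lit 15488)], [(nat_lit 1729)], [(nat_lit 31640)], []⟩,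
  ⟨[(nat_lit 366600)], [(nat_lit 15488)], [(nat_lit 1729)], [(nat_lit 30277)], []⟩,
  ⟨[(nat_lit 48386)], [(nat_lit 3794)], [(nat_lit 1010)], [(nat_lit 5057)], []⟩,
  ⟨[(nat_lit 48386)], [(nat_lit 3794)], [(nat_lit 1010)], [(nat_lit 31354)], []⟩,
  ⟨[(nat_lit 48386)], [(nat_lit 3794)], [(nat_lit 1010)], [(nat_lit 7692)], []⟩,
  ⟨[(nat_lit 48386)], [(nat_lit 3794)], [(nat_lit 1010)], [(nat_lit 30492)], []⟩,
  ⟨[(nat_lit 48386)], [(nat_lit 3794)], [(nat_lit 1010)], [(nat_lit 14140)], []⟩,
  ⟨[(nat_lit 48386)], [(nat_lit 3794)], [(nat_lit 1010)], [(nat_lit 31582)], []⟩,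
  ⟨[(nat_lit 48386)], [(nat_lit 3794)], [(nat_lit 1010)], [(nat_lit 30615)], []⟩,
  ⟨[(nat_lit 48386)], [(nat_lit 3794)], [(nat_lit 1010)], [(nat_lit 30391)], []⟩,
  ⟨[(nat_lit 48386)], [(nat_lit 3794)], [(nat_lit 952)], [(nat_lit 7688)], []⟩,
  ⟨[(nat_lit 48386)], [(nat_lit 3794)], [(nat_lit 952)], [(nat_lit 5057)], []⟩,
  ⟨[(nat_lit 48386)], [(nat_lit 3794)], [(nat_lit 952)], [(nat_lit 31354)], []⟩,
  ⟨[(nat_lit 48386)], [(nat_lit 3794)], [(nat_lit 952)], [(nat_lit 30615)], []⟩,
  ⟨[(nat_lit 48386)], [(nat_lit 11361)], [(nat_lit 1010)], [(nat_lit 29460)], []⟩,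
  ⟨[(nat_lit 48386)], [(nat_lit 3629)], [(nat_lit 1010)], [(nat_lit 7688)], []⟩,
  ⟨[(nat_lit 48386)], [(nat_lit 3629)], [(nat_lit 1010)], [(nat_lit 5057)], []⟩,
  ⟨[(nat_lit 48386)], [(nat_lit 3629)], [(nat_lit 1010)], [(nat_lit 31354)], []⟩,
  ⟨[(nat_lit 48386)], [(nat_lit 3629)], [(nat_lit 1010)], [(nat_lit 30615)], []⟩,
  ⟨[(nat_lit 48386)], [(nat_lit 3629)], [(nat_lit 952)], [(nat_lit 7688)], []⟩,
  ⟨[(nat_lit 48386)], [(nat_lit 3629)], [(nat_lit 952)], [(nat_lit 5057)], []⟩,
  ⟨[(nat_lit 48386)], [(nat_lit 3629)], [(nat_lit 952)], [(nat_lit 31354)], []⟩,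
  ⟨[(nat_lit 48386)], [(nat_lit 3629)], [(nat_lit 952)], [(nat_lit 30615)], []⟩,
  ⟨[(nat_lit 38987)], [(nat_lit 3654)], [(nat_lit 965)], [(nat_lit 31345)], []⟩,
  ⟨[(nat_lit 38987)], [(nat_lit 3654)], [(nat_lit 965)], [(nat_lit 30378)], []⟩,
  ⟨[(nat_lit 38987)], [(nat_lit 3654)], [(nat_lit 965)], [(nat_lit 24323)], []⟩,
  ⟨[(nat_lit 38987)], [(nat_lit 3654)], [(nat_lit 965)], [(nat_lit 15052)], []⟩,
  ⟨[(nat_lit 38987)], [(nat_lit 3654)], [(nat_lit 965)], [(nat_lit 31468)], []⟩,
  ⟨[(nat_lit 38987)], [(nat_lit 3654)], [(nat_lit 965)], [(nat_lit 30606)], []⟩,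
  ⟨[(nat_lit 38987)], [(nat_lit 3654)], [(nat_lit 965)], [(nat_lit 7687)], []⟩,
  ⟨[(nat_lit 38987)], [(nat_lit 3654)], [(nat_lit 1003)], [(nat_lit 5112)], []⟩,
  ⟨[(nat_lit 38987)], [(nat_lit 3654)], [(nat_lit 1003)], [(nat_lit 21496)], []⟩,
  ⟨[(nat_lit 38987)], [(nat_lit 3654)], [(nat_lit 1003)], [(nat_lit 31345)], []⟩,
  ⟨[(nat_lit 38987)], [(nat_lit 3654)], [(nat_lit 1003)], [(nat_lit 24323)], []⟩,
  ⟨[(nat_lit 38987)], [(nat_lit 3654)], [(nat_lit 1003)], [(nat_lit 30606)], []⟩,
  ⟨[(nat_lit 38987)], [(nat_lit 3654)], [(nat_lit 1003)], [(nat_lit 7687)], []⟩,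
  ⟨[(nat_lit 38987)], [(nat_lit 3777)], [(nat_lit 965)], [(nat_lit 5112)], []⟩,
  ⟨[(nat_lit 38987)], [(nat_lit 3777)], [(nat_lit 965)], [(nat_lit 21496)], []⟩,
  ⟨[(nat_lit 38987)], [(nat_lit 3777)], [(nat_lit 965)], [(nat_lit 31345)], []⟩,
  ⟨[(nat_lit 38987)], [(nat_lit 3777)], [(nat_lit 965)], [(nat_lit 24323)], []⟩,
  ⟨[(nat_lit 38987)], [(nat_lit 3777)], [(nat_lit 965)], [(nat_lit 30606)], []⟩,
  ⟨[(nat_lit 38987)], [(nat_lit 3777)], [(nat_lit 965)], [(nat_lit 7687)], []⟩,
  ⟨[(nat_lit 38987)], [(nat_lit 3777)], [(nat_lit 1003)], [(nat_lit 5112)], []⟩,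
  ⟨[(nat_lit 38987)], [(nat_lit 3777)], [(nat_lit 1003)], [(nat_lit 21496)], []⟩,
  ⟨[(nat_lit 38987)], [(nat_lit 3777)], [(nat_lit 1003)], [(nat_lit 31345)], []⟩,
  ⟨[(nat_lit 38987)], [(nat_lit 3777)], [(nat_lit 1003)], [(nat_lit 24323)], []⟩,
  ⟨[(nat_lit 38987)], [(nat_lit 3777)], [(nat_lit 1003)], [(nat_lit 30606)], []⟩,
  ⟨[(nat_lit 38987)], [(nat_lit 3777)], [(nat_lit 1003)], [(nat_lit 7687)], []⟩,
  ⟨[(nat_lit 279033)], [(nat_lit 11670)], [(nat_lit 2006)], [(nat_lit 30217)], []⟩,
  ⟨[(nat_lit 230868)], [(nat_lit 11376)], [(nat_lit 3031)], [(nat_lit 6729)], []⟩,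
  ⟨[(nat_lit 313340)], [(nat_lit 9318)], [(nat_lit 3081)], [(nat_lit 15881)], []⟩,
  ⟨[(nat_lit 313340)], [(nat_lit 9318)], [(nat_lit 3081)], [(nat_lit 32521)], []⟩,
  ⟨[(nat_lit 313340)], [(nat_lit 5594)], [(nat_lit 2006)], [(nat_lit 30409)], []⟩,
  ⟨[(nat_lit 195209)], [(nat_lit 12258)], [(nat_lit 3081)], [(nat_lit 13193)], []⟩,
  ⟨[(nat_lit 318410)], [(nat_lit 11964)], [(nat_lit 981)], [(nat_lit 14281)], []⟩,
  ⟨[(nat_lit 169365)], [(nat_lit 11726)], [(nat_lit 3036)], [(nat_lit 15953)], []⟩,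
  ⟨[(nat_lit 169365)], [(nat_lit 11726)], [(nat_lit 2411)], [(nat_lit 15953)], []⟩,
  ⟨[(nat_lit 232740)], [(nat_lit 11628)], [(nat_lit 3111)], [(nat_lit 7121)], []⟩,
  ⟨[(nat_lit 272468)], [(nat_lit 10305)], [(nat_lit 2006)], [(nat_lit 14849)], []⟩,
  ⟨[(nat_lit 272468)], [(nat_lit 10305)], [(nat_lit 2006)], [(nat_lit 31233)], []⟩,
  ⟨[(nat_lit 38403)], [(nat_lit 11978)], [(nat_lit 2416)], [(nat_lit 23449)], []⟩,
  ⟨[(nat_lit 171237)], [(nat_lit 11978)], [(nat_lit 3116)], [(nat_lit 16345)], []⟩,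
  ⟨[(nat_lit 171237)], [(nat_lit 11978)], [(nat_lit 2491)], [(nat_lit 16345)], []⟩,
  ⟨[(nat_lit 107927)], [(nat_lit 6238)], [(nat_lit 901)], [(nat_lit 6745)], []⟩,
  ⟨[(nat_lit 107927)], [(nat_lit 6238)], [(nat_lit 1526)], [(nat_lit 6745)], []⟩,
  ⟨[(nat_lit 109799)], [(nat_lit 6490)], [(nat_lit 981)], [(nat_lit 7137)], []⟩,
  ⟨[(nat_lit 109799)], [(nat_lit 6490)], [(nat_lit 1606)], [(nat_lit 7137)], []⟩,
  ⟨[(nat_lit 340666)], [(nat_lit 6203)], [(nat_lit 1261)], [(nat_lit 21033)], []⟩,
  ⟨[(nat_lit 55225)], [(nat_lit 4537)], [(nat_lit 3036)], [(nat_lit 7785)], []⟩,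
  ⟨[(nat_lit 55225)], [(nat_lit 4537)], [(nat_lit 2411)], [(nat_lit 7785)], []⟩,
  ⟨[(nat_lit 255321)], [(nat_lit 3557)], [(nat_lit 1561)], [(nat_lit 22185)], []⟩,
  ⟨[(nat_lit 251434)], [(nat_lit 3018)], [(nat_lit 1261)], [(nat_lit 21353)], []⟩,
  ⟨[(nat_lit 251434)], [(nat_lit 4096)], [(nat_lit 1561)], [(nat_lit 6697)], []⟩,
  ⟨[(nat_lit 251434)], [(nat_lit 4096)], [(nat_lit 1561)], [(nat_lit 23337)], []⟩,
  ⟨[(nat_lit 38663)], [(nat_lit 15513)], [(nat_lit 1611)], [(nat_lit 12969)], []⟩,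
  ⟨[(nat_lit 252110)], [(nat_lit 3900)], [(nat_lit 1611)], [(nat_lit 6761)], []⟩,
  ⟨[(nat_lit 252110)], [(nat_lit 3900)], [(nat_lit 1611)], [(nat_lit 23401)], []⟩,
  ⟨[(nat_lit 252110)], [(nat_lit 7379)], [(nat_lit 2411)], [(nat_lit 4905)], []⟩,
  ⟨[(nat_lit 143118)], [(nat_lit 9346)], [(nat_lit 1041)], [(nat_lit 31345)], []⟩,
  ⟨[(nat_lit 279670)], [(nat_lit 12874)], [(nat_lit 1091)], [(nat_lit 24305)], []⟩,
  ⟨[(nat_lit 143794)], [(nat_lit 9493)], [(nat_lit 1091)], [(nat_lit 15025)], []⟩,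
  ⟨[(nat_lit 143794)], [(nat_lit 9493)], [(nat_lit 1091)], [(nat_lit 31409)], []⟩,
  ⟨[(nat_lit 57097)], [(nat_lit 4789)], [(nat_lit 3116)], [(nat_lit 8177)], []⟩,
  ⟨[(nat_lit 57097)], [(nat_lit 4789)], [(nat_lit 2491)], [(nat_lit 8177)], []⟩,
  ⟨[(nat_lit 57097)], [(nat_lit 4789)], [(nat_lit 1908)], [(nat_lit 8177)], []⟩,
  ⟨[(nat_lit 57097)], [(nat_lit 4789)], [(nat_lit 1908)], [(nat_lit 4666)], []⟩,
  ⟨[(nat_lit 57097)], [(nat_lit 2788)], [(nat_lit 1908)], [(nat_lit 8177)], []⟩,
  ⟨[(nat_lit 57097)], [(nat_lit 2788)], [(nat_lit 1908)], [(nat_lit 4666)], []⟩,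
  ⟨[(nat_lit 272585)], [(nat_lit 10333)], [(nat_lit 2021)], [(nat_lit 21145)], []⟩,
  ⟨[(nat_lit 272585)], [(nat_lit 10333)], [(nat_lit 2021)], [(nat_lit 5017)], []⟩,
  ⟨[(nat_lit 37675)], [(nat_lit 3522)], [(nat_lit 921)], [(nat_lit 31485)], []⟩,
  ⟨[(nat_lit 37675)], [(nat_lit 3522)], [(nat_lit 921)], [(nat_lit 15357)], []⟩,
  ⟨[(nat_lit 119471)], [(nat_lit 7736)], [(nat_lit 1321)], [(nat_lit 7769)], []⟩,
  ⟨[(nat_lit 50181)], [(nat_lit 4061)], [(nat_lit 1121)], [(nat_lit 7741)], []⟩,
  ⟨[(nat_lit 316370)], [(nat_lit 11664)], [(nat_lit 877)], [(nat_lit 14240)], []⟩,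
  ⟨[(nat_lit 316370)], [(nat_lit 11664)], [(nat_lit 877)], [(nat_lit 13988)], []⟩,
  ⟨[(nat_lit 283753)], [(nat_lit 4601)], [(nat_lit 3067)], [(nat_lit 32394)], []⟩,
  ⟨[(nat_lit 283753)], [(nat_lit 4601)], [(nat_lit 3067)], [(nat_lit 16042)], []⟩,
  ⟨[(nat_lit 193351)], [(nat_lit 12014)], [(nat_lit 3007)], [(nat_lit 12810)], []⟩,
  ⟨[(nat_lit 109189)], [(nat_lit 9418)], [(nat_lit 2034)], [(nat_lit 14093)], []⟩,
  ⟨[(nat_lit 171043)], [(nat_lit 11916)], [(nat_lit 3082)], [(nat_lit 16266)], []⟩,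
  ⟨[(nat_lit 171043)], [(nat_lit 11916)], [(nat_lit 3082)], [(nat_lit 32682)], []⟩,
  ⟨[(nat_lit 171043)], [(nat_lit 11916)], [(nat_lit 2457)], [(nat_lit 16266)], []⟩,
  ⟨[(nat_lit 171043)], [(nat_lit 11916)], [(nat_lit 2457)], [(nat_lit 32682)], []⟩,
  ⟨[(nat_lit 312028)], [(nat_lit 5518)], [(nat_lit 2022)], [(nat_lit 30242)], []⟩,
  ⟨[(nat_lit 312028)], [(nat_lit 9298)], [(nat_lit 3007)], [(nat_lit 32282)], []⟩,
  ⟨[(nat_lit 312028)], [(nat_lit 9298)], [(nat_lit 3007)], [(nat_lit 15930)], []⟩,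
  ⟨[(nat_lit 313549)], [(nat_lit 9494)], [(nat_lit 3082)], [(nat_lit 32730)], []⟩,
  ⟨[(nat_lit 313549)], [(nat_lit 9494)], [(nat_lit 3082)], [(nat_lit 16346)], []⟩,
  ⟨[(nat_lit 313549)], [(nat_lit 9494)], [(nat_lit 3082)], [(nat_lit 32762)], []⟩,
  ⟨[(nat_lit 313549)], [(nat_lit 9494)], [(nat_lit 3082)], [(nat_lit 16378)], []⟩,
  ⟨[(nat_lit 300094)], [(nat_lit 10366)], [(nat_lit 1606)], [(nat_lit 24225)], []⟩,
  ⟨[(nat_lit 230830)], [(nat_lit 11356)], [(nat_lit 3017)], [(nat_lit 6706)], []⟩,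
  ⟨[(nat_lit 169652)], [(nat_lit 11797)], [(nat_lit 3067)], [(nat_lit 32402)], []⟩,
  ⟨[(nat_lit 169652)], [(nat_lit 11797)], [(nat_lit 3067)], [(nat_lit 16050)], []⟩,
  ⟨[(nat_lit 169652)], [(nat_lit 11797)], [(nat_lit 2442)], [(nat_lit 32402)], []⟩,
  ⟨[(nat_lit 169652)], [(nat_lit 11797)], [(nat_lit 2442)], [(nat_lit 16050)], []⟩,
  ⟨[(nat_lit 279177)], [(nat_lit 11706)], [(nat_lit 2022)], [(nat_lit 30266)], []⟩,
  ⟨[(nat_lit 119134)], [(nat_lit 7688)], [(nat_lit 1322)], [(nat_lit 7866)], []⟩,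
  ⟨[(nat_lit 272924)], [(nat_lit 10432)], [(nat_lit 2072)], [(nat_lit 31418)], []⟩,
  ⟨[(nat_lit 341369)], [(nat_lit 6414)], [(nat_lit 1372)], [(nat_lit 21306)], []⟩,
  ⟨[(nat_lit 285430)], [(nat_lit 4706)], [(nat_lit 3082)], [(nat_lit 16274)], []⟩,
  ⟨[(nat_lit 285430)], [(nat_lit 4706)], [(nat_lit 3082)], [(nat_lit 32690)], []⟩,
  ⟨[(nat_lit 274445)], [(nat_lit 10628)], [(nat_lit 2022)], [(nat_lit 14970)], []⟩,
  ⟨[(nat_lit 274445)], [(nat_lit 10628)], [(nat_lit 2022)], [(nat_lit 31354)], []⟩,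
  ⟨[(nat_lit 169185)], [(nat_lit 11672)], [(nat_lit 3008)], [(nat_lit 15883)], []⟩,
  ⟨[(nat_lit 169185)], [(nat_lit 11672)], [(nat_lit 2383)], [(nat_lit 15883)], []⟩,
  ⟨[(nat_lit 273458)], [(nat_lit 11672)], [(nat_lit 2458)], [(nat_lit 29259)], []⟩,
  ⟨[(nat_lit 107695)], [(nat_lit 9286)], [(nat_lit 2015)], [(nat_lit 13854)], []⟩,
  ⟨[(nat_lit 280946)], [(nat_lit 10230)], [(nat_lit 1953)], [(nat_lit 29611)], []⟩,
  ⟨[(nat_lit 193495)], [(nat_lit 12050)], [(nat_lit 3023)], [(nat_lit 12859)], []⟩,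
  ⟨[(nat_lit 316696)], [(nat_lit 11756)], [(nat_lit 923)], [(nat_lit 13947)], []⟩,
  ⟨[(nat_lit 279516)], [(nat_lit 11805)], [(nat_lit 2073)], [(nat_lit 30395)], []⟩,
  ⟨[(nat_lit 231351)], [(nat_lit 11511)], [(nat_lit 3098)], [(nat_lit 6907)], []⟩,
  ⟨[(nat_lit 313823)], [(nat_lit 9453)], [(nat_lit 3023)], [(nat_lit 16059)], []⟩,
  ⟨[(nat_lit 313823)], [(nat_lit 9453)], [(nat_lit 3023)], [(nat_lit 32699)], []⟩,
  ⟨[(nat_lit 313823)], [(nat_lit 5729)], [(nat_lit 2073)], [(nat_lit 30587)], []⟩,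
  ⟨[(nat_lit 37353)], [(nat_lit 3941)], [(nat_lit 1060)], [(nat_lit 7752)], []⟩,
  ⟨[(nat_lit 37353)], [(nat_lit 3941)], [(nat_lit 1060)], [(nat_lit 24136)], []⟩,
  ⟨[(nat_lit 37353)], [(nat_lit 3941)], [(nat_lit 1060)], [(nat_lit 4609)], []⟩,
  ⟨[(nat_lit 37353)], [(nat_lit 3941)], [(nat_lit 1060)], [(nat_lit 31418)], []⟩,
  ⟨[(nat_lit 37353)], [(nat_lit 3941)], [(nat_lit 1060)], [(nat_lit 21253)], []⟩,
  ⟨[(nat_lit 37353)], [(nat_lit 3941)], [(nat_lit 1060)], [(nat_lit 30679)], []⟩,
  ⟨[(nat_lit 37353)], [(nat_lit 3941)], [(nat_lit 877)], [(nat_lit 7752)], []⟩,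
  ⟨[(nat_lit 37353)], [(nat_lit 3941)], [(nat_lit 877)], [(nat_lit 24136)], []⟩,
  ⟨[(nat_lit 37353)], [(nat_lit 3941)], [(nat_lit 877)], [(nat_lit 4609)], []⟩,
  ⟨[(nat_lit 37353)], [(nat_lit 3941)], [(nat_lit 877)], [(nat_lit 31418)], []⟩,
  ⟨[(nat_lit 37353)], [(nat_lit 3941)], [(nat_lit 877)], [(nat_lit 21253)], []⟩,
  ⟨[(nat_lit 37353)], [(nat_lit 3941)], [(nat_lit 877)], [(nat_lit 30679)], []⟩,
  ⟨[(nat_lit 37353)], [(nat_lit 3433)], [(nat_lit 1060)], [(nat_lit 7752)], []⟩,
  ⟨[(nat_lit 37353)], [(nat_lit 3433)], [(nat_lit 1060)], [(nat_lit 24136)], []⟩,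
  ⟨[(nat_lit 37353)], [(nat_lit 3433)], [(nat_lit 1060)], [(nat_lit 4609)], []⟩,
  ⟨[(nat_lit 37353)], [(nat_lit 3433)], [(nat_lit 1060)], [(nat_lit 31418)], []⟩]

/-- single classes -/
def BG8 : List Bx := [
  ⟨[(nat_lit 37353)], [(nat_lit 3433)], [(nat_lit 1060)], [(nat_lit 21253)], []⟩,
  ⟨[(nat_lit 37353)], [(nat_lit 3433)], [(nat_lit 1060)], [(nat_lit 30679)], []⟩,
  ⟨[(nat_lit 37353)], [(nat_lit 3433)], [(nat_lit 877)], [(nat_lit 7752)], []⟩,
  ⟨[(nat_lit 37353)], [(nat_lit 3433)], [(nat_lit 877)], [(nat_lit 24136)], []⟩,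
  ⟨[(nat_lit 37353)], [(nat_lit 3433)], [(nat_lit 877)], [(nat_lit 31642)], []⟩,
  ⟨[(nat_lit 37353)], [(nat_lit 3433)], [(nat_lit 877)], [(nat_lit 31418)], []⟩,
  ⟨[(nat_lit 37353)], [(nat_lit 3433)], [(nat_lit 877)], [(nat_lit 4771)], []⟩,
  ⟨[(nat_lit 37353)], [(nat_lit 3433)], [(nat_lit 877)], [(nat_lit 21155)], []⟩,
  ⟨[(nat_lit 37353)], [(nat_lit 3433)], [(nat_lit 877)], [(nat_lit 14323)], []⟩,
  ⟨[(nat_lit 37353)], [(nat_lit 3433)], [(nat_lit 877)], [(nat_lit 30679)], []⟩,
  ⟨[(nat_lit 37353)], [(nat_lit 3433)], [(nat_lit 877)], [(nat_lit 5031)], []⟩,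
  ⟨[(nat_lit 37353)], [(nat_lit 3433)], [(nat_lit 877)], [(nat_lit 21415)], []⟩,
  ⟨[(nat_lit 37353)], [(nat_lit 3632)], [(nat_lit 877)], [(nat_lit 6882)], []⟩,
  ⟨[(nat_lit 38874)], [(nat_lit 3794)], [(nat_lit 1010)], [(nat_lit 7688)], []⟩,
  ⟨[(nat_lit 38874)], [(nat_lit 3794)], [(nat_lit 1010)], [(nat_lit 5057)], []⟩,
  ⟨[(nat_lit 38874)], [(nat_lit 3794)], [(nat_lit 1010)], [(nat_lit 31354)], []⟩,
  ⟨[(nat_lit 38874)], [(nat_lit 3794)], [(nat_lit 1010)], [(nat_lit 30615)], []⟩,
  ⟨[(nat_lit 38874)], [(nat_lit 3794)], [(nat_lit 952)], [(nat_lit 7688)], []⟩,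
  ⟨[(nat_lit 38874)], [(nat_lit 3794)], [(nat_lit 952)], [(nat_lit 5057)], []⟩,
  ⟨[(nat_lit 38874)], [(nat_lit 3794)], [(nat_lit 952)], [(nat_lit 31354)], []⟩,
  ⟨[(nat_lit 38874)], [(nat_lit 3794)], [(nat_lit 952)], [(nat_lit 30615)], []⟩,
  ⟨[(nat_lit 38874)], [(nat_lit 3629)], [(nat_lit 1010)], [(nat_lit 7688)], []⟩,
  ⟨[(nat_lit 38874)], [(nat_lit 3629)], [(nat_lit 1010)], [(nat_lit 5057)], []⟩,
  ⟨[(nat_lit 38874)], [(nat_lit 3629)], [(nat_lit 1010)], [(nat_lit 31354)], []⟩,
  ⟨[(nat_lit 38874)], [(nat_lit 3629)], [(nat_lit 1010)], [(nat_lit 30615)], []⟩,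
  ⟨[(nat_lit 38874)], [(nat_lit 3629)], [(nat_lit 952)], [(nat_lit 7688)], []⟩,
  ⟨[(nat_lit 38874)], [(nat_lit 3629)], [(nat_lit 952)], [(nat_lit 5089)], []⟩,
  ⟨[(nat_lit 38874)], [(nat_lit 3629)], [(nat_lit 952)], [(nat_lit 31354)], []⟩,
  ⟨[(nat_lit 38874)], [(nat_lit 3629)], [(nat_lit 952)], [(nat_lit 21091)], []⟩,
  ⟨[(nat_lit 38874)], [(nat_lit 3629)], [(nat_lit 952)], [(nat_lit 14259)], []⟩,
  ⟨[(nat_lit 38874)], [(nat_lit 3629)], [(nat_lit 952)], [(nat_lit 30615)], []⟩,
  ⟨[(nat_lit 38874)], [(nat_lit 3629)], [(nat_lit 952)], [(nat_lit 21351)], []⟩,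
  ⟨[(nat_lit 38874)], [(nat_lit 3485)], [(nat_lit 952)], [(nat_lit 6818)], []⟩,
  ⟨[(nat_lit 38874)], [(nat_lit 3485)], [(nat_lit 952)], [(nat_lit 23458)], []⟩,
  ⟨[(nat_lit 105148)], [(nat_lit 7468)], [(nat_lit 2088)], [(nat_lit 15254)], []⟩,
  ⟨[(nat_lit 38081)], [(nat_lit 3601)], [(nat_lit 2412)], [(nat_lit 4681)], []⟩,
  ⟨[(nat_lit 38081)], [(nat_lit 3601)], [(nat_lit 937)], [(nat_lit 4681)], []⟩,
  ⟨[(nat_lit 38081)], [(nat_lit 3601)], [(nat_lit 937)], [(nat_lit 21321)], []⟩,
  ⟨[(nat_lit 38081)], [(nat_lit 3601)], [(nat_lit 937)], [(nat_lit 4713)], []⟩,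
  ⟨[(nat_lit 38081)], [(nat_lit 3601)], [(nat_lit 937)], [(nat_lit 24489)], []⟩,
  ⟨[(nat_lit 38081)], [(nat_lit 3601)], [(nat_lit 937)], [(nat_lit 31437)], []⟩,
  ⟨[(nat_lit 38081)], [(nat_lit 3601)], [(nat_lit 937)], [(nat_lit 14093)], []⟩,
  ⟨[(nat_lit 38081)], [(nat_lit 3601)], [(nat_lit 937)], [(nat_lit 15309)], []⟩,
  ⟨[(nat_lit 38081)], [(nat_lit 3601)], [(nat_lit 1337)], [(nat_lit 4681)], []⟩,
  ⟨[(nat_lit 272510)], [(nat_lit 11708)], [(nat_lit 2384)], [(nat_lit 29236)], []⟩,
  ⟨[(nat_lit 302293)], [(nat_lit 11391)], [(nat_lit 1730)], [(nat_lit 21158)], []⟩,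
  ⟨[(nat_lit 169329)], [(nat_lit 11708)], [(nat_lit 3024)], [(nat_lit 15932)], []⟩,
  ⟨[(nat_lit 169329)], [(nat_lit 11708)], [(nat_lit 2399)], [(nat_lit 15932)], []⟩,
  ⟨[(nat_lit 193834)], [(nat_lit 12149)], [(nat_lit 3074)], [(nat_lit 12988)], []⟩,
  ⟨[(nat_lit 109672)], [(nat_lit 9553)], [(nat_lit 2096)], [(nat_lit 14271)], []⟩,
  ⟨[(nat_lit 103563)], [(nat_lit 7280)], [(nat_lit 2039)], [(nat_lit 14959)], []⟩,
  ⟨[(nat_lit 105435)], [(nat_lit 7532)], [(nat_lit 2119)], [(nat_lit 15351)], []⟩,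
  ⟨[(nat_lit 37679)], [(nat_lit 3525)], [(nat_lit 923)], [(nat_lit 4730)], []⟩,
  ⟨[(nat_lit 37679)], [(nat_lit 3525)], [(nat_lit 923)], [(nat_lit 21114)], []⟩,
  ⟨[(nat_lit 169668)], [(nat_lit 11807)], [(nat_lit 2690)], [(nat_lit 16061)], []⟩,
  ⟨[(nat_lit 169668)], [(nat_lit 11807)], [(nat_lit 2065)], [(nat_lit 16061)], []⟩,
  ⟨[(nat_lit 169668)], [(nat_lit 11807)], [(nat_lit 3070)], [(nat_lit 16061)], []⟩,
  ⟨[(nat_lit 169668)], [(nat_lit 11807)], [(nat_lit 2445)], [(nat_lit 16061)], []⟩,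
  ⟨[(nat_lit 273941)], [(nat_lit 11807)], [(nat_lit 2395)], [(nat_lit 29437)], []⟩,
  ⟨[(nat_lit 317895)], [(nat_lit 10087)], [(nat_lit 1060)], [(nat_lit 15000)], []⟩,
  ⟨[(nat_lit 317895)], [(nat_lit 10087)], [(nat_lit 1060)], [(nat_lit 13889)], []⟩,
  ⟨[(nat_lit 317895)], [(nat_lit 10087)], [(nat_lit 877)], [(nat_lit 15000)], []⟩,
  ⟨[(nat_lit 317895)], [(nat_lit 10087)], [(nat_lit 877)], [(nat_lit 13889)], []⟩,
  ⟨[(nat_lit 317895)], [(nat_lit 11863)], [(nat_lit 1060)], [(nat_lit 15000)], []⟩,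
  ⟨[(nat_lit 317895)], [(nat_lit 11863)], [(nat_lit 1060)], [(nat_lit 13889)], []⟩,
  ⟨[(nat_lit 317895)], [(nat_lit 11863)], [(nat_lit 877)], [(nat_lit 15000)], []⟩,
  ⟨[(nat_lit 359040)], [(nat_lit 14742)], [(nat_lit 1558)], [(nat_lit 32561)], []⟩,
  ⟨[(nat_lit 356688)], [(nat_lit 14658)], [(nat_lit 1672)], [(nat_lit 29399)], []⟩,
  ⟨[(nat_lit 349838)], [(nat_lit 15735)], [(nat_lit 1729)], [(nat_lit 30435)], []⟩,
  ⟨[(nat_lit 48862)], [(nat_lit 3881)], [(nat_lit 1032)], [(nat_lit 7690)], []⟩,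
  ⟨[(nat_lit 48862)], [(nat_lit 3881)], [(nat_lit 1032)], [(nat_lit 7694)], []⟩,
  ⟨[(nat_lit 48460)], [(nat_lit 3805)], [(nat_lit 1018)], [(nat_lit 7739)], []⟩,
  ⟨[(nat_lit 48460)], [(nat_lit 3805)], [(nat_lit 1018)], [(nat_lit 15227)], []⟩,
  ⟨[(nat_lit 48460)], [(nat_lit 3805)], [(nat_lit 1018)], [(nat_lit 21215)], []⟩,
  ⟨[(nat_lit 48460)], [(nat_lit 3805)], [(nat_lit 1018)], [(nat_lit 7743)], []⟩,
  ⟨[(nat_lit 48460)], [(nat_lit 3805)], [(nat_lit 1018)], [(nat_lit 24383)], []⟩,
  ⟨[(nat_lit 48460)], [(nat_lit 3805)], [(nat_lit 2043)], [(nat_lit 7743)], []⟩,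
  ⟨[(nat_lit 48460)], [(nat_lit 3805)], [(nat_lit 1368)], [(nat_lit 7743)], []⟩,
  ⟨[(nat_lit 349502)], [(nat_lit 16044)], [(nat_lit 965)], [(nat_lit 31640)], []⟩,
  ⟨[(nat_lit 349502)], [(nat_lit 16044)], [(nat_lit 965)], [(nat_lit 30277)], []⟩,
  ⟨[(nat_lit 349502)], [(nat_lit 16044)], [(nat_lit 1590)], [(nat_lit 31640)], []⟩,
  ⟨[(nat_lit 349502)], [(nat_lit 16044)], [(nat_lit 1590)], [(nat_lit 30277)], []⟩,
  ⟨[(nat_lit 349502)], [(nat_lit 16044)], [(nat_lit 1003)], [(nat_lit 31640)], []⟩,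
  ⟨[(nat_lit 349502)], [(nat_lit 16044)], [(nat_lit 1003)], [(nat_lit 30277)], []⟩,
  ⟨[(nat_lit 349502)], [(nat_lit 16044)], [(nat_lit 1729)], [(nat_lit 31640)], []⟩,
  ⟨[(nat_lit 349502)], [(nat_lit 16044)], [(nat_lit 1729)], [(nat_lit 30277)], []⟩,
  ⟨[(nat_lit 349502)], [(nat_lit 15488)], [(nat_lit 965)], [(nat_lit 31640)], []⟩,
  ⟨[(nat_lit 349502)], [(nat_lit 15488)], [(nat_lit 965)], [(nat_lit 30277)], []⟩,
  ⟨[(nat_lit 349502)], [(nat_lit 15488)], [(nat_lit 1590)], [(nat_lit 31640)], []⟩,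
  ⟨[(nat_lit 349502)], [(nat_lit 15488)], [(nat_lit 1590)], [(nat_lit 30277)], []⟩,
  ⟨[(nat_lit 349502)], [(nat_lit 15488)], [(nat_lit 1003)], [(nat_lit 31640)], []⟩,
  ⟨[(nat_lit 349502)], [(nat_lit 15488)], [(nat_lit 1729)], [(nat_lit 31640)], []⟩,
  ⟨[(nat_lit 52920)], [(nat_lit 3881)], [(nat_lit 2705)], [(nat_lit 5898)], []⟩,
  ⟨[(nat_lit 52920)], [(nat_lit 3881)], [(nat_lit 2080)], [(nat_lit 5898)], []⟩,
  ⟨[(nat_lit 75566)], [(nat_lit 7508)], [(nat_lit 2682)], [(nat_lit 23053)], []⟩,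
  ⟨[(nat_lit 273296)], [(nat_lit 5744)], [(nat_lit 2632)], [(nat_lit 6989)], []⟩,
  ⟨[(nat_lit 289013)], [(nat_lit 7557)], [(nat_lit 2682)], [(nat_lit 29389)], []⟩,
  ⟨[(nat_lit 289013)], [(nat_lit 7557)], [(nat_lit 2682)], [(nat_lit 13261)], []⟩,
  ⟨[(nat_lit 289013)], [(nat_lit 15838)], [(nat_lit 1107)], [(nat_lit 14989)], []⟩,
  ⟨[(nat_lit 56807)], [(nat_lit 4715)], [(nat_lit 3082)], [(nat_lit 8077)], []⟩,
  ⟨[(nat_lit 56807)], [(nat_lit 4715)], [(nat_lit 2457)], [(nat_lit 8077)], []⟩,
  ⟨[(nat_lit 351374)], [(nat_lit 15740)], [(nat_lit 1107)], [(nat_lit 30669)], []⟩,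
  ⟨[(nat_lit 351374)], [(nat_lit 15740)], [(nat_lit 1732)], [(nat_lit 30669)], []⟩,
  ⟨[(nat_lit 98563)], [(nat_lit 7468)], [(nat_lit 2461)], [(nat_lit 14231)], []⟩,
  ⟨[(nat_lit 48669)], [(nat_lit 3869)], [(nat_lit 1049)], [(nat_lit 7800)], []⟩,
  ⟨[(nat_lit 48669)], [(nat_lit 3869)], [(nat_lit 1049)], [(nat_lit 24184)], []⟩,
  ⟨[(nat_lit 49345)], [(nat_lit 4016)], [(nat_lit 1099)], [(nat_lit 7864)], []⟩,
  ⟨[(nat_lit 49345)], [(nat_lit 4016)], [(nat_lit 1099)], [(nat_lit 7868)], []⟩,
  ⟨[(nat_lit 349334)], [(nat_lit 15440)], [(nat_lit 1003)], [(nat_lit 30368)], []⟩,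
  ⟨[(nat_lit 349334)], [(nat_lit 15440)], [(nat_lit 1003)], [(nat_lit 30628)], []⟩,
  ⟨[(nat_lit 349334)], [(nat_lit 15440)], [(nat_lit 1628)], [(nat_lit 30368)], []⟩,
  ⟨[(nat_lit 349334)], [(nat_lit 15440)], [(nat_lit 1628)], [(nat_lit 30628)], []⟩,
  ⟨[(nat_lit 54949)], [(nat_lit 4471)], [(nat_lit 1997)], [(nat_lit 7694)], []⟩,
  ⟨[(nat_lit 54949)], [(nat_lit 4471)], [(nat_lit 1997)], [(nat_lit 4695)], []⟩,
  ⟨[(nat_lit 54949)], [(nat_lit 4471)], [(nat_lit 3008)], [(nat_lit 7694)], []⟩,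
  ⟨[(nat_lit 54949)], [(nat_lit 4471)], [(nat_lit 2383)], [(nat_lit 7694)], []⟩,
  ⟨[(nat_lit 54949)], [(nat_lit 2813)], [(nat_lit 1997)], [(nat_lit 7694)], []⟩,
  ⟨[(nat_lit 54949)], [(nat_lit 2813)], [(nat_lit 1997)], [(nat_lit 4695)], []⟩,
  ⟨[(nat_lit 139618)], [(nat_lit 9371)], [(nat_lit 1283)], [(nat_lit 4942)], []⟩,
  ⟨[(nat_lit 139618)], [(nat_lit 9371)], [(nat_lit 1283)], [(nat_lit 21326)], []⟩,
  ⟨[(nat_lit 241018)], [(nat_lit 6676)], [(nat_lit 1908)], [(nat_lit 15118)], []⟩,
  ⟨[(nat_lit 241018)], [(nat_lit 6676)], [(nat_lit 1283)], [(nat_lit 15118)], []⟩,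
  ⟨[(nat_lit 287883)], [(nat_lit 15818)], [(nat_lit 1003)], [(nat_lit 14894)], []⟩,
  ⟨[(nat_lit 287883)], [(nat_lit 7593)], [(nat_lit 2638)], [(nat_lit 12806)], []⟩,
  ⟨[(nat_lit 287883)], [(nat_lit 7593)], [(nat_lit 2638)], [(nat_lit 29222)], []⟩,
  ⟨[(nat_lit 289404)], [(nat_lit 7789)], [(nat_lit 2713)], [(nat_lit 13254)], []⟩,
  ⟨[(nat_lit 289404)], [(nat_lit 7789)], [(nat_lit 2713)], [(nat_lit 29638)], []⟩,
  ⟨[(nat_lit 289404)], [(nat_lit 7789)], [(nat_lit 2713)], [(nat_lit 13286)], []⟩,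
  ⟨[(nat_lit 289404)], [(nat_lit 7789)], [(nat_lit 2713)], [(nat_lit 29670)], []⟩,
  ⟨[(nat_lit 74800)], [(nat_lit 7208)], [(nat_lit 2638)], [(nat_lit 23102)], []⟩,
  ⟨[(nat_lit 272530)], [(nat_lit 5500)], [(nat_lit 2648)], [(nat_lit 6678)], []⟩,
  ⟨[(nat_lit 96978)], [(nat_lit 7280)], [(nat_lit 2412)], [(nat_lit 13928)], []⟩,
  ⟨[(nat_lit 301806)], [(nat_lit 10220)], [(nat_lit 1287)], [(nat_lit 23532)], []⟩,
  ⟨[(nat_lit 52882)], [(nat_lit 3805)], [(nat_lit 2631)], [(nat_lit 5659)], []⟩,
  ⟨[(nat_lit 52882)], [(nat_lit 3805)], [(nat_lit 2006)], [(nat_lit 5659)], []⟩,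
  ⟨[(nat_lit 98850)], [(nat_lit 7532)], [(nat_lit 2492)], [(nat_lit 14320)], []⟩,
  ⟨[(nat_lit 138436)], [(nat_lit 9274)], [(nat_lit 1259)], [(nat_lit 31407)], []⟩,
  ⟨[(nat_lit 138436)], [(nat_lit 9274)], [(nat_lit 1259)], [(nat_lit 15279)], []⟩,
  ⟨[(nat_lit 270932)], [(nat_lit 11479)], [(nat_lit 2434)], [(nat_lit 30319)], []⟩,
  ⟨[(nat_lit 49711)], [(nat_lit 3933)], [(nat_lit 1059)], [(nat_lit 8075)], []⟩,
  ⟨[(nat_lit 39402)], [(nat_lit 3737)], [(nat_lit 984)], [(nat_lit 31307)], []⟩,
  ⟨[(nat_lit 39402)], [(nat_lit 3737)], [(nat_lit 984)], [(nat_lit 15179)], []⟩,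
  ⟨[(nat_lit 153997)], [(nat_lit 5900)], [(nat_lit 2039)], [(nat_lit 7767)], []⟩,
  ⟨[(nat_lit 75243)], [(nat_lit 12123)], [(nat_lit 2039)], [(nat_lit 14871)], []⟩,
  ⟨[(nat_lit 75243)], [(nat_lit 12123)], [(nat_lit 2039)], [(nat_lit 31255)], []⟩,
  ⟨[(nat_lit 74229)], [(nat_lit 7419)], [(nat_lit 939)], [(nat_lit 24407)], []⟩,
  ⟨[(nat_lit 74229)], [(nat_lit 7419)], [(nat_lit 1564)], [(nat_lit 24407)], []⟩,
  ⟨[(nat_lit 76764)], [(nat_lit 12319)], [(nat_lit 2114)], [(nat_lit 15319)], []⟩,
  ⟨[(nat_lit 239524)], [(nat_lit 6544)], [(nat_lit 1894)], [(nat_lit 14879)], []⟩,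
  ⟨[(nat_lit 239524)], [(nat_lit 6544)], [(nat_lit 1269)], [(nat_lit 14879)], []⟩,
  ⟨[(nat_lit 68327)], [(nat_lit 10366)], [(nat_lit 1669)], [(nat_lit 12895)], []⟩,
  ⟨[(nat_lit 57511)], [(nat_lit 9442)], [(nat_lit 1104)], [(nat_lit 23415)], []⟩,
  ⟨[(nat_lit 57511)], [(nat_lit 9442)], [(nat_lit 1729)], [(nat_lit 23415)], []⟩,
  ⟨[(nat_lit 194401)], [(nat_lit 5515)], [(nat_lit 1719)], [(nat_lit 32351)], []⟩,
  ⟨[(nat_lit 155869)], [(nat_lit 6152)], [(nat_lit 2119)], [(nat_lit 8159)], []⟩,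
  ⟨[(nat_lit 354288)], [(nat_lit 3618)], [(nat_lit 2084)], [(nat_lit 24319)], []⟩,
  ⟨[(nat_lit 70199)], [(nat_lit 10618)], [(nat_lit 1749)], [(nat_lit 13287)], []⟩,
  ⟨[(nat_lit 138488)], [(nat_lit 9295)], [(nat_lit 1269)], [(nat_lit 4631)], []⟩,
  ⟨[(nat_lit 138488)], [(nat_lit 9295)], [(nat_lit 1269)], [(nat_lit 21015)], []⟩,
  ⟨[(nat_lit 139164)], [(nat_lit 9442)], [(nat_lit 1319)], [(nat_lit 4695)], []⟩,
  ⟨[(nat_lit 139164)], [(nat_lit 9442)], [(nat_lit 1319)], [(nat_lit 4727)], []⟩,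
  ⟨[(nat_lit 75789)], [(nat_lit 6166)], [(nat_lit 1029)], [(nat_lit 29615)], []⟩,
  ⟨[(nat_lit 271894)], [(nat_lit 11556)], [(nat_lit 2474)], [(nat_lit 30663)], []⟩,
  ⟨[(nat_lit 271894)], [(nat_lit 11556)], [(nat_lit 2474)], [(nat_lit 30695)], []⟩,
  ⟨[(nat_lit 171014)], [(nat_lit 7776)], [(nat_lit 1059)], [(nat_lit 31583)], []⟩,
  ⟨[(nat_lit 55093)], [(nat_lit 4507)], [(nat_lit 3024)], [(nat_lit 7743)], []⟩,
  ⟨[(nat_lit 55093)], [(nat_lit 4507)], [(nat_lit 2399)], [(nat_lit 7743)], []⟩,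
  ⟨[(nat_lit 349660)], [(nat_lit 15532)], [(nat_lit 1049)], [(nat_lit 30335)], []⟩,
  ⟨[(nat_lit 349660)], [(nat_lit 15532)], [(nat_lit 1674)], [(nat_lit 30335)], []⟩,
  ⟨[(nat_lit 53403)], [(nat_lit 4016)], [(nat_lit 2647)], [(nat_lit 6076)], []⟩,
  ⟨[(nat_lit 53403)], [(nat_lit 4016)], [(nat_lit 2022)], [(nat_lit 6076)], []⟩,
  ⟨[(nat_lit 76049)], [(nat_lit 7300)], [(nat_lit 2749)], [(nat_lit 23231)], []⟩,
  ⟨[(nat_lit 273779)], [(nat_lit 5536)], [(nat_lit 2699)], [(nat_lit 7167)], []⟩,
  ⟨[(nat_lit 289496)], [(nat_lit 7692)], [(nat_lit 2749)], [(nat_lit 12927)], []⟩,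
  ⟨[(nat_lit 289496)], [(nat_lit 7692)], [(nat_lit 2749)], [(nat_lit 29567)], []⟩,
  ⟨[(nat_lit 289496)], [(nat_lit 15973)], [(nat_lit 1049)], [(nat_lit 15167)], []⟩,
  ⟨[(nat_lit 324986)], [(nat_lit 11556)], [(nat_lit 2664)], [(nat_lit 16103)], []⟩,
  ⟨[(nat_lit 324986)], [(nat_lit 11556)], [(nat_lit 2039)], [(nat_lit 16103)], []⟩]

/-- the boxes -/
def BB : List (List Bx) := [BG0, BG1, BG2, BG3, BG4, BG5, BG6, BG7, BG8]

/-- the classes modulo `13`, `7`, `5`, `8` lie in one of the boxes -/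
def R8 (a b c B m : ℤ) : Prop := ∃ BS ∈ BB, ∃ bx ∈ BS, InB bx a b c B m

theorem R8_of {a b c B m : ℤ}
    (h : inBss (cd 13 a b c B m) (cd 7 a b c B m) (cd 5 a b c B m) (cd 8 a b c B m) BB = true) :
    R8 a b c B m := by
  obtain ⟨BS, h1, bx, h2, h3, h4, h5, h6⟩ := inBss_spec h
  exact ⟨BS, h1, bx, h2, h3, h4, h5, h6⟩

end Pool.Agent.LibH4.S7


end

section

/-! generated: the quintuples and sextuples which survive -/

namespace Pool.Agent.LibH4.S7

/-- quintuples -/
def G11 : List ℕ :=
  [(nat_lit 1376034763084692752525730926229113),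
    (nat_lit 1687639113857082387133119848290379),
    (nat_lit 1687639113857082387133121911887947),
    (nat_lit 1687639113857082397829168963295307),
    (nat_lit 1687639113857082397829171026892875),
    (nat_lit 1687639126017176080522456273557579),
    (nat_lit 1687639126017176080522458337155147),
    (nat_lit 1687639126017176091218505388562507),
    (nat_lit 1687639126017176091218507452160075),
    (nat_lit 1687639191228334842469387029485643),
    (nat_lit 1687639191228334842469389093083211),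
    (nat_lit 1687639191228334853165436144490571),
    (nat_lit 1687639191228334853165438208088139),
    (nat_lit 1687639204578464889541874048604235),
    (nat_lit 1687639204578464889541876112201803),
    (nat_lit 1687639204578464900237923163609163),
    (nat_lit 1687639204578464900237925227206731),
    (nat_lit 1687639234249093501411854926256203),
    (nat_lit 1687639234249093501411856989853771),
    (nat_lit 1687639234249093512107904041261131),
    (nat_lit 1687639234249093512107906104858699),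
    (nat_lit 1687639237738922332252522739177547),
    (nat_lit 1687639237738922332252524802775115),
    (nat_lit 1687639237738922342948571854182475),
    (nat_lit 1687639237738922342948573917780043),
    (nat_lit 1691996675201023691117499040972108),
    (nat_lit 1691996675219913157048977621826892),
    (nat_lit 1691996675219913255565219470556492),
    (nat_lit 1691996675219913445560828750249292),
    (nat_lit 1691996710562103914845402401127756),
    (nat_lit 1691996738839634414268837940739404),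
    (nat_lit 1691996753800091431999873977728332),
    (nat_lit 1692472029390379779027273179501029),
    (nat_lit 1692472031510722351509320425838554),
    (nat_lit 1692472031510722351509320425848066),
    (nat_lit 1692472031510722351509323194079194),
    (nat_lit 1692472031510722351509323194088706),
    (nat_lit 1692472031510722367834869075056602),
    (nat_lit 1692472031510722367834869075066114),
    (nat_lit 1692472031510722367834871843297242),
    (nat_lit 1692472031510722367834871843306754),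
    (nat_lit 1692472043935268567939356983072730),
    (nat_lit 1692472043935268567939356983082242),
    (nat_lit 1692472043935268567939359751313370),
    (nat_lit 1692472043935268567939359751322882),
    (nat_lit 1692472043935268584264905632290778),
    (nat_lit 1692472043935268584264905632300290),
    (nat_lit 1692472043935268584264908400531418),
    (nat_lit 1692472043954158050196386981395714),
    (nat_lit 1692472074403977131739859319307522),
    (nat_lit 1692472151147154844854463687081218),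
    (nat_lit 1692472151624113859624297853664514),
    (nat_lit 1692472152204964920691712797480922),
    (nat_lit 1692472152204964920691712797490434),
    (nat_lit 1692472152204964920691715565721562),
    (nat_lit 1692472152204964920691715565731074),
    (nat_lit 1692472152204964937017261446698970),
    (nat_lit 1692472152204964937017261446708482),
    (nat_lit 1692472152204964937017264214939610),
    (nat_lit 1692472152204964937017264214949122),
    (nat_lit 1692472155694793751532380610402266),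
    (nat_lit 1692472155694793751532380610411778),
    (nat_lit 1692472155694793751532383378642906),
    (nat_lit 1692472155694793751532383378652418),
    (nat_lit 1692472155694793767857929259620314),
    (nat_lit 1692472155694793767857929259629826),
    (nat_lit 1692472155694793767857932027860954),
    (nat_lit 1692472155694793767857932027870466),
    (nat_lit 1692472156771493325952211136593154),
    (nat_lit 1706020060254112843052330029989405),
    (nat_lit 1706020137625365298388597211184669),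
    (nat_lit 1711249148032052857044794951916311),
    (nat_lit 1711249148032052871962968717581079),
    (nat_lit 1727253209106586471131303083295279),
    (nat_lit 1736364445977615766449921986707166),
    (nat_lit 1736364445996505232381400567561950),
    (nat_lit 1749991675380458055166005736411625),
    (nat_lit 1749991675380458055166014259237353),
    (nat_lit 1749991675380458106675926474461673),
    (nat_lit 1749991675380458106675934997287401),
    (nat_lit 1749991675677967157097594682905737),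
    (nat_lit 1749991690222855910825300643058153),
    (nat_lit 1749991690222855910825309165883881),
    (nat_lit 1749991690222855962335221381108201),
    (nat_lit 1749991690222855962335229903933929),
    (nat_lit 1749991753049219612433861864101001),
    (nat_lit 1749991753979525796048380673167849),
    (nat_lit 1749991753979525796048389195993577),
    (nat_lit 1749991753979525847558301411217897),
    (nat_lit 1749991753979525847558309934043625),
    (nat_lit 1749991767594108366161567824253417),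
    (nat_lit 1749991767594108366161576347079145),
    (nat_lit 1749991767594108417671488562303465),
    (nat_lit 1749991767594108417671497085129193),
    (nat_lit 1749991798492552263577656457466345),
    (nat_lit 1749991798492552263577664980292073),
    (nat_lit 1749991798492552315087577195516393),
    (nat_lit 1749991798492552315087585718342121),
    (nat_lit 1749991801982381094418324270387689),
    (nat_lit 1749991801982381094418332793213417),
    (nat_lit 1749991801982381145928245008437737),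
    (nat_lit 1749991801982381145928253531263465),
    (nat_lit 1753556957484051843385348876977157),
    (nat_lit 1763539706541700221122651533394113),
    (nat_lit 1763539706560589687054130114248897),
    (nat_lit 1771304065868357589074932656159841),
    (nat_lit 1771304179205153177946368459848801),
    (nat_lit 1792695655735947536307988801294821),
    (nat_lit 1792695656963762821854096556855781),
    (nat_lit 1792695699073104749602722927383013),
    (nat_lit 1792695703422404280325666169197029),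
    (nat_lit 1792695777653283024553619283284453),
    (nat_lit 1792695780944772463113761997230565),
    (nat_lit 1793171023950732119154495712170473),
    (nat_lit 1793171023950732170664407927394793),
    (nat_lit 1793171023950732170664416450220521),
    (nat_lit 1793171024248241221086076135838857),
    (nat_lit 1793171024715755489379369713963497),
    (nat_lit 1793171025943570774925477469524457),
    (nat_lit 1793171038793129974813782095991273),
    (nat_lit 1793171038793129974813790618817001),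
    (nat_lit 1793171038793130026323702834041321),
    (nat_lit 1793171038793130026323711356867049),
    (nat_lit 1793171069823800133750220795187689),
    (nat_lit 1793171101619493676422343317034121),
    (nat_lit 1793171102087007944715636895158761),
    (nat_lit 1793171102549799860036870648926697),
    (nat_lit 1793171102549799911546782864151017),
    (nat_lit 1793171102549799911546791386976745),
    (nat_lit 1793171103314823230261744650719721),
    (nat_lit 1793171116164382430150049277186537),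
    (nat_lit 1793171116164382430150057800012265),
    (nat_lit 1793171116164382481659970015236585),
    (nat_lit 1793171116164382481659978538062313),
    (nat_lit 1793171147062826327566137910399465),
    (nat_lit 1793171147062826327566146433225193),
    (nat_lit 1793171147062826379076058648449513),
    (nat_lit 1793171147062826379076067171275241),
    (nat_lit 1793171150552655158406805723320809),
    (nat_lit 1793171150552655158406814246146537),
    (nat_lit 1793171150552655209916726461370857),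
    (nat_lit 1793171150552655209916734984196585),
    (nat_lit 1793171151610465250569606251188713),
    (nat_lit 1802678403749952941597301409879177),
    (nat_lit 1802678403749953048557792559928457),
    (nat_lit 1802678403749953262478774860027017),
    (nat_lit 1802678403749953369439266010076297),
    (nat_lit 1802678481121205396933568591074441),
    (nat_lit 1802678481121205503894059741123721),
    (nat_lit 1802678481121205717815042041222281),
    (nat_lit 1802678481121205824775533191271561),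
    (nat_lit 1803074544260292794307860534170085),
    (nat_lit 1803074546380635383115456429725658),
    (nat_lit 1811076639434950829718475347366699),
    (nat_lit 1811076715597277465440113353855787),
    (nat_lit 1811551958225447802851266928874287),
    (nat_lit 1811552035596700258187534110069551),
    (nat_lit 1812185783251664662108526683919497),
    (nat_lit 1812185783251664769069017833968777),
    (nat_lit 1812185860622917117444793865114761),
    (nat_lit 1812185860622917224405285015164041),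
    (nat_lit 1812581923762004514819085808210405),
    (nat_lit 1812581923762004942661050408407525),
    (nat_lit 1821693162753376382619751957959817),
    (nat_lit 1821693240124628837956019139155081),
    (nat_lit 1822089303263716235330311082250725),
    (nat_lit 1831200542255088103130977232000137),
    (nat_lit 1831200619626340558467244413195401),
    (nat_lit 1831596682765427955841536356291045),
    (nat_lit 1831596682765427993840658212229605),
    (nat_lit 1840707921756799823642202506040457),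
    (nat_lit 1840707999128052278978469687235721),
    (nat_lit 1841104062267139676352761630331365),
    (nat_lit 1841104064387482248834808876678402),
    (nat_lit 1841104064387482248834811644909530),
    (nat_lit 1841104064387482248834811644919042),
    (nat_lit 1841104064387482265160357525886938),
    (nat_lit 1841104064387482265160357525896450),
    (nat_lit 1841104064387482265160360294127578),
    (nat_lit 1841104064387482265160360294137090),
    (nat_lit 1841104064538597976286637523507162),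
    (nat_lit 1841104076812028465264845433903066),
    (nat_lit 1841104076812028465264845433912578),
    (nat_lit 1841104076812028465264848202143706),
    (nat_lit 1841104076812028465264848202153218),
    (nat_lit 1841104076812028481590394083121114),
    (nat_lit 1841104076812028481590394083130626),
    (nat_lit 1841104076812028481590396851361754),
    (nat_lit 1841104076812028481590396851371266),
    (nat_lit 1841104107842698624201284133099482),
    (nat_lit 1841104140105906435166700233070554),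
    (nat_lit 1841104141333721720712807988631514),
    (nat_lit 1841104185081724818017201248311258),
    (nat_lit 1841104185081724818017201248320770),
    (nat_lit 1841104185081724818017204016551898),
    (nat_lit 1841104185081724818017204016561410),
    (nat_lit 1841104185081724834342749897529306),
    (nat_lit 1841104185081724834342749897538818),
    (nat_lit 1841104185081724834342752665769946),
    (nat_lit 1841104185081724834342752665779458),
    (nat_lit 1841104188571553648857869061232602),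
    (nat_lit 1841104188571553648857869061242114),
    (nat_lit 1841104188571553648857871829473242),
    (nat_lit 1841104188571553648857871829482754),
    (nat_lit 1841104188571553665183417710450650),
    (nat_lit 1841104188571553665183417710460162),
    (nat_lit 1841104188571553665183420478691290),
    (nat_lit 1841104188571553665183420478700802),
    (nat_lit 1844986244610411361593900197255243),
    (nat_lit 1844986244610411372289947248662603),
    (nat_lit 1844986244610411372289949312260171),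
    (nat_lit 1844986256770505054983234558924875),
    (nat_lit 1844986256770505054983236622522443),
    (nat_lit 1844986256770505065679283673929803),
    (nat_lit 1844986256770505065679285737527371),
    (nat_lit 1844986291550734201318171557795915),
    (nat_lit 1844986321981663816930167378450507),
    (nat_lit 1844986321981663827626214429857867),
    (nat_lit 1844986321981663827626216493455435),
    (nat_lit 1844986335331793864002652333971531),
    (nat_lit 1844986335331793864002654397569099),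
    (nat_lit 1844986335331793874698701448976459),
    (nat_lit 1844986335331793874698703512574027),
    (nat_lit 1844986363925722917778354102900811),
    (nat_lit 1844986365002422475872633211623499),
    (nat_lit 1844986365002422475872635275221067),
    (nat_lit 1844986365002422486568682326628427),
    (nat_lit 1844986365002422486568684390225995),
    (nat_lit 1844986368492251306713301024544843),
    (nat_lit 1844986368492251306713303088142411),
    (nat_lit 1844986368492251317409350139549771),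
    (nat_lit 1844986368492251317409352203147339),
    (nat_lit 1844986369073102384106267385829451),
    (nat_lit 1850611441768851396863986904371685),
    (nat_lit 1850611441768851503824478054420965),
    (nat_lit 1850611441768851717745460354519525),
    (nat_lit 1850611441768851824705951504568805),
    (nat_lit 1855919729002039878183689874609345),
    (nat_lit 1855919729002039990773680558871745),
    (nat_lit 1855919729002040293359280522826945),
    (nat_lit 1855919729153155605635518521447617),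
    (nat_lit 1855919773448953214952790625916097),
    (nat_lit 1855919779191350858122279205770433),
    (nat_lit 1855919807582218153134586230510785),
    (nat_lit 1855919822542675170865622267499713),
    (nat_lit 1855919855353677493843917212259521),
    (nat_lit 1860118821270563117375212178412005),
    (nat_lit 1860118821270563224335703328461285),
    (nat_lit 1860594190250371121956513829130729),
    (nat_lit 1860594190547880172378182037574793),
    (nat_lit 1860594267919132627714449218770057),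
    (nat_lit 1860594268849438862838888765886953),
    (nat_lit 1869626200772274837886437452452325),
    (nat_lit 1870101570049591892889407311615113),
    (nat_lit 1870101570049592320731371911812233),
    (nat_lit 1870101647420844348225674492810377),
    (nat_lit 1870101647420844776067639093007497),
    (nat_lit 1872478416809244066289355803784355),
    (nat_lit 1872478535586205843426640979489955),
    (nat_lit 1879133580273986558397662726492645),
    (nat_lit 1879608949551303613400632585655433),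
    (nat_lit 1879609026922556068736899766850697),
    (nat_lit 1888640959775698278908888000532965),
    (nat_lit 1889116329053015333911857859695753),
    (nat_lit 1889116329053015371910979715634313),
    (nat_lit 1889116406424267789248125040891017),
    (nat_lit 1889116406424267827247246896829577),
    (nat_lit 1890225572946119686756556045588970),
    (nat_lit 1890225649108446322478194052078058),
    (nat_lit 2016594481370486451154459241286375),
    (nat_lit 2103745461987344906310260875137591),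
    (nat_lit 2419786640644862550424170891785948),
    (nat_lit 2419786640644862757308278774118108),
    (nat_lit 2749771868050762848193165945701806),
    (nat_lit 2752307169359833740042811201521108),
    (nat_lit 2759279316843757369494114769343121),
    (nat_lit 2759279316843757376249514210398865),
    (nat_lit 2759279316843757397923087417119377),
    (nat_lit 2779482429942807660647019329062839),
    (nat_lit 2839458149976692195198612835372324),
    (nat_lit 3904443142289126641795738072360111),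
    (nat_lit 3969727149329526050726690265606789),
    (nat_lit 3996902409912499969923523509595240),
    (nat_lit 4756938127917129590231884948870113),
    (nat_lit 4804871165936028045498576197949906),
    (nat_lit 5158545806299291813330992578623863),
    (nat_lit 5158545810946100401512447140347197),
    (nat_lit 5732712299511260421789925111002226),
    (nat_lit 6037027632027614857798439315694937),
    (nat_lit 6120692536999397605221982288488532),
    (nat_lit 6120692614370650060558249469683796),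
    (nat_lit 6122356280050441686895096074637797),
    (nat_lit 6122356280050441708568669281358309),
    (nat_lit 6125050039507374888437400585119945),
    (nat_lit 6125050115669701524159038591609033),
    (nat_lit 6144302607673538651069360525027868),
    (nat_lit 6146679369473095106620769341593551),
    (nat_lit 6165060262025702908253118228633675),
    (nat_lit 6165060339396955363589385409828939),
    (nat_lit 6179875926338029051454618695931017),
    (nat_lit 6179875926338029064965417578042505),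
    (nat_lit 6179876003709281506790885877126281),
    (nat_lit 6179876003709281520301684759237769),
    (nat_lit 6192235568321184650999784592912397),
    (nat_lit 6192235645692437106336051774107661),
    (nat_lit 6652234230945841576720718014484965),
    (nat_lit 6652234245490730365632804586306818),
    (nat_lit 6697473634782745674733861745206806),
    (nat_lit 6697473634933861402185690392045078),
    (nat_lit 6702702691884193039648877332144724),
    (nat_lit 6709753877233428954791039517889673),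
    (nat_lit 6709753954604681410127306699084937),
    (nat_lit 7382559433002330240658006148682213),
    (nat_lit 7409734708130193035461281856999774),
    (nat_lit 7431839472154653922470970825909290),
    (nat_lit 7440079079289917618728327652086921),
    (nat_lit 7440079156661170074064594833282185),
    (nat_lit 7448001910166513161399133827879599),
    (nat_lit 7699709817939303230833435760270532),
    (nat_lit 7699709894101629866555073766759620),
    (nat_lit 7702403525072415371523143076188645),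
    (nat_lit 7702403525072415379685917400797669),
    (nat_lit 7702403525072415386441316841853413),
    (nat_lit 7702403525072415399952115723964901),
    (nat_lit 7704938826381486370333377544985848),
    (nat_lit 7704938903752738825669644726181112),
    (nat_lit 7728390363954364594374177164763490),
    (nat_lit 7728390441325617049710444345958754),
    (nat_lit 7759923171360002742838065138537609),
    (nat_lit 7759923171360002749593464579593353),
    (nat_lit 7759923171360002757756238904202377),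
    (nat_lit 7759923171360002764511638345258121),
    (nat_lit 7759923248731255198174332319732873),
    (nat_lit 7759923248731255204929731760788617),
    (nat_lit 7759923248731255213092506085397641),
    (nat_lit 7759923248731255219847905526453385),
    (nat_lit 7762458472669073748403699048390556),
    (nat_lit 7762458472820189475855527695228828),
    (nat_lit 7940246562022802997125788819875824),
    (nat_lit 8160183969595769115798324237392678),
    (nat_lit 8232281475967815261348765016035813),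
    (nat_lit 8289801122255402639419086519440521),
    (nat_lit 8289801199626655094755353700635785),
    (nat_lit 9182227144513844669095356980564453),
    (nat_lit 9182227144513844677258131305173477),
    (nat_lit 9224851944412166424048871189587435),
    (nat_lit 9224852021783418879385138370782699),
    (nat_lit 9239746790801432047165678483969161),
    (nat_lit 9239746790801432055328452808578185),
    (nat_lit 9239746868172684502501945665164425),
    (nat_lit 9239746868172684510664719989773449),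
    (nat_lit 9254404127161540274446806907247263),
    (nat_lit 9272784984848916553729192876911580),
    (nat_lit 9808129667109383428685978593850183),
    (nat_lit 9816052483592205824609545835705303),
    (nat_lit 9835304927692357349290186721391914),
    (nat_lit 9894329909733569411755980898892425),
    (nat_lit 10149999238991646990593466680253166),
    (nat_lit 10159268854504776256105475024868906),
    (nat_lit 10159268933084954531056371380770346),
    (nat_lit 10204983543485315614106120567876888),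
    (nat_lit 10216788500792363634175790773688526),
    (nat_lit 10216788579372541909126687129589966),
    (nat_lit 10652068060832084368929345323194991),
    (nat_lit 10652464156291047981818752066949605),
    (nat_lit 10668230686893299284210516779740942),
    (nat_lit 10709983802578635359889073570354313),
    (nat_lit 10709983879949887815225340751549577),
    (nat_lit 10725750255809634206944571101950386),
    (nat_lit 10725750333180886662280838283145650),
    (nat_lit 11057716251379793396685999647807943),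
    (nat_lit 11057716251379793410196798529919431),
    (nat_lit 11150017144266463949106356343184390),
    (nat_lit 11151047103914229668194861833344822),
    (nat_lit 11205001376744044108269914234824905),
    (nat_lit 11392375966011762630604859019137509),
    (nat_lit 11392375966011762659033831666913765),
    (nat_lit 11449895612299350001919781081486473),
    (nat_lit 11449895612299350008675180522542217),
    (nat_lit 11449895689670602457256048262681737),
    (nat_lit 11449895689670602464011447703737481),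
    (nat_lit 11602409824837077389565344031478245),
    (nat_lit 11605262039258997361610040048428642),
    (nat_lit 11605262053463875742081923808306786),
    (nat_lit 11631407332322020504170400766267881),
    (nat_lit 11631407332322020504170409289093609),
    (nat_lit 11631407332322020555680321504317929),
    (nat_lit 11631407332322020555680330027143657),
    (nat_lit 11631407347164418359829695672914409),
    (nat_lit 11631407347164418359829704195740137),
    (nat_lit 11631407347164418411339616410964457),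
    (nat_lit 11631407347164418411339624933790185),
    (nat_lit 11631407455434114712582051487322601),
    (nat_lit 11631407455434114712582060010148329),
    (nat_lit 11631407455434114764091972225372649),
    (nat_lit 11631407455434114764091980748198377),
    (nat_lit 11631407458923943543422719300243945),
    (nat_lit 11631407458923943543422727823069673),
    (nat_lit 11631407458923943594932640038293993),
    (nat_lit 11631407458923943594932648561119721),
    (nat_lit 11652719710220091054702912923045402),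
    (nat_lit 11652719724424969435174802437508634),
    (nat_lit 11659929471124664767635665534882953),
    (nat_lit 11659929548495917222971932716078217),
    (nat_lit 11676329744626457875214334114900280),
    (nat_lit 11679340372758770633850722453592026),
    (nat_lit 11679340372758770633850722453601538),
    (nat_lit 11679340372758770633850725221832666),
    (nat_lit 11679340372758770633850725221842178),
    (nat_lit 11679340372758770650176271102810074),
    (nat_lit 11679340372758770650176271102819586),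
    (nat_lit 11679340372758770650176273871050714),
    (nat_lit 11679340372758770650176273871060226),
    (nat_lit 11679340385183316850280759010826202),
    (nat_lit 11679340385183316850280759010835714),
    (nat_lit 11679340385183316850280761779066842),
    (nat_lit 11679340385183316850280761779076354),
    (nat_lit 11679340385183316866606307660044250),
    (nat_lit 11679340385183316866606307660053762),
    (nat_lit 11679340385183316866606310428284890),
    (nat_lit 11679340385183316866606310428294402),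
    (nat_lit 11679340493453013203033114825234394),
    (nat_lit 11679340493453013203033114825243906),
    (nat_lit 11679340493453013203033117593475034),
    (nat_lit 11679340493453013203033117593484546),
    (nat_lit 11679340493453013219358663474452442),
    (nat_lit 11679340493453013219358663474461954),
    (nat_lit 11679340493453013219358666242693082),
    (nat_lit 11679340493453013219358666242702594),
    (nat_lit 11679340496942842033873782638155738),
    (nat_lit 11679340496942842033873782638165250),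
    (nat_lit 11679340496942842033873785406396378),
    (nat_lit 11679340496942842033873785406405890),
    (nat_lit 11679340496942842050199331287373786),
    (nat_lit 11679340496942842050199331287383298),
    (nat_lit 11679340496942842050199334055614426),
    (nat_lit 11679340496942842050199334055623938),
    (nat_lit 11684094062769356654323340694034507),
    (nat_lit 11684094062769356654323342757632075),
    (nat_lit 11684094062769356665019389809039435),
    (nat_lit 11684094062769356665019391872637003),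
    (nat_lit 11684094074929450347712677119301707),
    (nat_lit 11684094074929450347712679182899275),
    (nat_lit 11684094074929450358408726234306635),
    (nat_lit 11684094074929450358408728297904203),
    (nat_lit 11684094183161367768602075772000331),
    (nat_lit 11684094183161367768602077835597899),
    (nat_lit 11684094183161367779298124887005259),
    (nat_lit 11684094183161367779298126950602827),
    (nat_lit 11684094186651196599442743584921675),
    (nat_lit 11684094186651196599442745648519243),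
    (nat_lit 11684094186651196610138792699926603),
    (nat_lit 11684094186651196610138794763524171),
    (nat_lit 11708575601320152524746498171495563),
    (nat_lit 11708575678842520707534593999529099),
    (nat_lit 11756508641756902654426819858819708),
    (nat_lit 11756508641908018381878648505657980),
    (nat_lit 11756508719128155109763087040014972),
    (nat_lit 11756508719279270837214915686853244),
    (nat_lit 11773859609380583101014165330094325),
    (nat_lit 11773859685542909736735803336583413),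
    (nat_lit 11801034867545705382389115108223704),
    (nat_lit 11801034946125883657340011464125144),
    (nat_lit 12656223667905941263051944020460252),
    (nat_lit 12656223745126077990936382554817244),
    (nat_lit 12704156708191575665280437060946125),
    (nat_lit 12704156708342691392732265707784397),
    (nat_lit 12704156785562828120616704242141389),
    (nat_lit 12704156785713943848068532888979661),
    (nat_lit 12731965791038182032959908033644540),
    (nat_lit 12731965869618360307910804389545980),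
    (nat_lit 12759141051621155918379744072354271),
    (nat_lit 12759141130201334193330640428255711)]

/-- sextuples -/
def G17 : List ℕ :=
  [(nat_lit 320019625161322873006212401290833232589639),
    (nat_lit 320359907536166627952498171821832242656215),
    (nat_lit 321080345330857200791021068437397669406041),
    (nat_lit 321129530564978538343061000790375447852330),
    (nat_lit 325780499381254941023563484160090551024265),
    (nat_lit 333396968652544467292495735052681972254126),
    (nat_lit 333463430054869014395211817255341245302228),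
    (nat_lit 334573335458524679732060416754883460564919),
    (nat_lit 339248230379675948890947640737482938748196),
    (nat_lit 365784939152511001690033691486044974851247),
    (nat_lit 370732325818106465609381070295360610609797),
    (nat_lit 371842231221762130946229668387527942319208),
    (nat_lit 869910611325693185212953720112139766949872),
    (nat_lit 1557655837010552904653973294182988471638766),
    (nat_lit 1605619701010473714286651226659034088250374),
    (nat_lit 1802890418731490416088327734523342924876519),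
    (nat_lit 1808675219056297350584063558005484618322487)]

/-- classes modulo 11 of the quintuples -/
def K17 : List ℕ :=
  [(nat_lit 17368), (nat_lit 21301), (nat_lit 21356), (nat_lit 21362), (nat_lit 21533),
    (nat_lit 21599), (nat_lit 21801), (nat_lit 21916), (nat_lit 22088), (nat_lit 22133),
    (nat_lit 22259), (nat_lit 22357), (nat_lit 22627), (nat_lit 22633), (nat_lit 22753),
    (nat_lit 22758), (nat_lit 22859), (nat_lit 22865), (nat_lit 22873), (nat_lit 22878),
    (nat_lit 22993), (nat_lit 22998), (nat_lit 23113), (nat_lit 23118), (nat_lit 23233),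
    (nat_lit 23238), (nat_lit 23287), (nat_lit 23358), (nat_lit 23425), (nat_lit 23478),
    (nat_lit 23484), (nat_lit 23598), (nat_lit 23604), (nat_lit 23634), (nat_lit 23718),
    (nat_lit 23724), (nat_lit 23838), (nat_lit 23844), (nat_lit 23858), (nat_lit 25453),
    (nat_lit 26553), (nat_lit 30542), (nat_lit 34707), (nat_lit 34739), (nat_lit 34827),
    (nat_lit 35082), (nat_lit 35839), (nat_lit 49281), (nat_lit 50105), (nat_lit 50448),
    (nat_lit 60041), (nat_lit 60646), (nat_lit 65110), (nat_lit 72357), (nat_lit 76198),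
    (nat_lit 77254), (nat_lit 77275), (nat_lit 77309), (nat_lit 77552), (nat_lit 77582),
    (nat_lit 77814), (nat_lit 78001), (nat_lit 78157), (nat_lit 83963), (nat_lit 84534),
    (nat_lit 84600), (nat_lit 84689), (nat_lit 93181), (nat_lit 93524), (nat_lit 93803),
    (nat_lit 93907), (nat_lit 94007), (nat_lit 97184), (nat_lit 97218), (nat_lit 97250),
    (nat_lit 97546), (nat_lit 97944), (nat_lit 97976), (nat_lit 100220), (nat_lit 102996),
    (nat_lit 103906), (nat_lit 104632), (nat_lit 115896), (nat_lit 116434), (nat_lit 116622),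
    (nat_lit 116807), (nat_lit 117039), (nat_lit 123796), (nat_lit 123896), (nat_lit 124139),
    (nat_lit 124884), (nat_lit 128111), (nat_lit 128228), (nat_lit 128805), (nat_lit 128954),
    (nat_lit 134448), (nat_lit 134453), (nat_lit 134652), (nat_lit 135179), (nat_lit 135378),
    (nat_lit 139568), (nat_lit 140733), (nat_lit 140746), (nat_lit 141427), (nat_lit 143792),
    (nat_lit 144518), (nat_lit 146443), (nat_lit 146479), (nat_lit 146809), (nat_lit 147078),
    (nat_lit 147169), (nat_lit 147376), (nat_lit 147414), (nat_lit 147474), (nat_lit 147783),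
    (nat_lit 148388), (nat_lit 148607), (nat_lit 148950), (nat_lit 159744), (nat_lit 160349),
    (nat_lit 160700), (nat_lit 161043)]

/-- quadruples over the classes modulo 11 -/
def GS17 : List (List ℕ) := [
  [(nat_lit 36536949737201059596793465)],
  [(nat_lit 24140737732053040162183243), (nat_lit 24140737732053042225780811),
    (nat_lit 24140737742749089277188171), (nat_lit 24140737742749091340785739),
    (nat_lit 36300831425442376587450443), (nat_lit 36300831425442378651048011),
    (nat_lit 36300831436138425702455371), (nat_lit 36300831436138427766052939),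
    (nat_lit 101511990187389307343378507), (nat_lit 101511990187389309406976075),
    (nat_lit 101511990198085356458383435), (nat_lit 101511990198085358521981003),
    (nat_lit 114862120234461794362497099), (nat_lit 114862120234461796426094667),
    (nat_lit 114862120245157843477502027), (nat_lit 114862120245157845541099595),
    (nat_lit 144532748846331775240149067), (nat_lit 144532748846331777303746635),
    (nat_lit 144532748857027824355153995), (nat_lit 144532748857027826418751563),
    (nat_lit 148022577677172443053070411), (nat_lit 148022577677172445116667979),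
    (nat_lit 148022577687868492168075339), (nat_lit 148022577687868494231672907)],
  [(nat_lit 36546394497469774437596492), (nat_lit 36565283963401253018451276),
    (nat_lit 36565284061917494867180876), (nat_lit 36565284251913104146873676),
    (nat_lit 71907474721197677797752140), (nat_lit 100185005220621113337363788),
    (nat_lit 115145462238352149374352716)],
  [(nat_lit 21760664999353987312423397), (nat_lit 23881007571836034558760922),
    (nat_lit 23881007571836034558770434), (nat_lit 23881007571836037327001562),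
    (nat_lit 23881007571836037327011074), (nat_lit 23881007588161583207978970),
    (nat_lit 23881007588161583207988482), (nat_lit 23881007588161585976219610),
    (nat_lit 23881007588161585976229122), (nat_lit 36305553788266071115995098),
    (nat_lit 36305553788266071116004610), (nat_lit 36305553788266073884235738),
    (nat_lit 36305553788266073884245250), (nat_lit 36305553804591619765213146),
    (nat_lit 36305553804591619765222658), (nat_lit 36305553804591622533453786),
    (nat_lit 36324443270523101114318082), (nat_lit 66774262352066573452229890),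
    (nat_lit 143517440065181177820003586), (nat_lit 143994399079951011986586882),
    (nat_lit 144575250141018426930403290), (nat_lit 144575250141018426930412802),
    (nat_lit 144575250141018429698643930), (nat_lit 144575250141018429698653442),
    (nat_lit 144575250157343975579621338), (nat_lit 144575250157343975579630850),
    (nat_lit 144575250157343978347861978), (nat_lit 144575250157343978347871490),
    (nat_lit 148065078971859094743324634), (nat_lit 148065078971859094743334146),
    (nat_lit 148065078971859097511565274), (nat_lit 148065078971859097511574786),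
    (nat_lit 148065078988184643392542682), (nat_lit 148065078988184643392552194),
    (nat_lit 148065078988184646160783322), (nat_lit 148065078988184646160792834),
    (nat_lit 149141778546278925269515522)],
  [(nat_lit 36834458861650548147404317), (nat_lit 114205711316986815328599581)],
  [(nat_lit 65886457429361839168609047), (nat_lit 65886457444280012934273815)],
  [(nat_lit 38133109647254451422020143)],
  [(nat_lit 36314998543749812771143390), (nat_lit 36333888009681291351998174)],
  [(nat_lit 21765387366399806961390057), (nat_lit 21765387366399815484215785),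
    (nat_lit 21765387417909727699440105), (nat_lit 21765387417909736222265833),
    (nat_lit 22062896468331395907884169), (nat_lit 36607785222059101868036585),
    (nat_lit 36607785222059110390862313), (nat_lit 36607785273569022606086633),
    (nat_lit 36607785273569031128912361), (nat_lit 99434148923667663089079433),
    (nat_lit 100364455107282181898146281), (nat_lit 100364455107282190420972009),
    (nat_lit 100364455158792102636196329), (nat_lit 100364455158792111159022057),
    (nat_lit 113979037677395369049231849), (nat_lit 113979037677395377572057577),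
    (nat_lit 113979037728905289787281897), (nat_lit 113979037728905298310107625),
    (nat_lit 144877481574811457682444777), (nat_lit 144877481574811466205270505),
    (nat_lit 144877481626321378420494825), (nat_lit 144877481626321386943320553),
    (nat_lit 148367310405652125495366121), (nat_lit 148367310405652134018191849),
    (nat_lit 148367310457162046233416169), (nat_lit 148367310457162054756241897)],
  [(nat_lit 36555839259427440624190469)],
  [(nat_lit 37136690330627956742865089), (nat_lit 37155579796559435323719873)],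
  [(nat_lit 36536949793496070558497889), (nat_lit 149873745382367506362186849)],
  [(nat_lit 22525688369578869837042149), (nat_lit 23753503655124977592603109),
    (nat_lit 65862845582873603963130341), (nat_lit 70212145113596547204944357),
    (nat_lit 144443023857824500319031781), (nat_lit 147734513296384643032977893)],
  [(nat_lit 21765387366399815484215785), (nat_lit 21765387417909727699440105),
    (nat_lit 21765387417909736222265833), (nat_lit 22062896468331395907884169),
    (nat_lit 22530410736624689486008809), (nat_lit 23758226022170797241569769),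
    (nat_lit 36607785222059101868036585), (nat_lit 36607785222059110390862313),
    (nat_lit 36607785273569022606086633), (nat_lit 36607785273569031128912361),
    (nat_lit 67638455380995540567233001), (nat_lit 99434148923667663089079433),
    (nat_lit 99901663191960956667204073), (nat_lit 100364455107282190420972009),
    (nat_lit 100364455158792102636196329), (nat_lit 100364455158792111159022057),
    (nat_lit 101129478477507064422765033), (nat_lit 113979037677395369049231849),
    (nat_lit 113979037677395377572057577), (nat_lit 113979037728905289787281897),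
    (nat_lit 113979037728905298310107625), (nat_lit 144877481574811457682444777),
    (nat_lit 144877481574811466205270505), (nat_lit 144877481626321378420494825),
    (nat_lit 144877481626321386943320553), (nat_lit 148367310405652125495366121),
    (nat_lit 148367310405652134018191849), (nat_lit 148367310457162046233416169),
    (nat_lit 148367310457162054756241897), (nat_lit 149425120497814926023234025)],
  [(nat_lit 22062896468331395907884169), (nat_lit 22062896575291887057933449),
    (nat_lit 22062896789212869358032009), (nat_lit 22062896896173360508081289),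
    (nat_lit 99434148923667663089079433), (nat_lit 99434149030628154239128713),
    (nat_lit 99434149244549136539227273), (nat_lit 99434149351509627689276553)],
  [(nat_lit 21760664999353987312423397), (nat_lit 23881007588161583207978970)],
  [(nat_lit 72521382336667654186636075), (nat_lit 148683708972389292193125163)],
  [(nat_lit 22336793723774884504441647), (nat_lit 99708046179111151685636911)],
  [(nat_lit 22062896468331395907884169), (nat_lit 22062896575291887057933449),
    (nat_lit 99434148923667663089079433), (nat_lit 99434149030628154239128713)],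
  [(nat_lit 21760664999353987312423397), (nat_lit 21760665427195951912620517)],
  [(nat_lit 22062896468331395907884169), (nat_lit 99434148923667663089079433)],
  [(nat_lit 21760664999353987312423397)],
  [(nat_lit 22062896468331395907884169), (nat_lit 99434148923667663089079433)],
  [(nat_lit 21760664999353987312423397), (nat_lit 21760665037353109168361957)],
  [(nat_lit 22062896468331395907884169), (nat_lit 99434148923667663089079433)],
  [(nat_lit 21760664999353987312423397), (nat_lit 23881007571836034558770434),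
    (nat_lit 23881007571836037327001562), (nat_lit 23881007571836037327011074),
    (nat_lit 23881007588161583207978970), (nat_lit 23881007588161583207988482),
    (nat_lit 23881007588161585976219610), (nat_lit 23881007588161585976229122),
    (nat_lit 24032123299287863205599194), (nat_lit 36305553788266071115995098),
    (nat_lit 36305553788266071116004610), (nat_lit 36305553788266073884235738),
    (nat_lit 36305553788266073884245250), (nat_lit 36305553804591619765213146),
    (nat_lit 36305553804591619765222658), (nat_lit 36305553804591622533453786),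
    (nat_lit 36305553804591622533463298), (nat_lit 67336223947202509815191514),
    (nat_lit 99599431758167925915162586), (nat_lit 100827247043714033670723546),
    (nat_lit 144575250141018426930403290), (nat_lit 144575250141018426930412802),
    (nat_lit 144575250141018429698643930), (nat_lit 144575250141018429698653442),
    (nat_lit 144575250157343975579621338), (nat_lit 144575250157343975579630850),
    (nat_lit 144575250157343978347861978), (nat_lit 144575250157343978347871490),
    (nat_lit 148065078971859094743324634), (nat_lit 148065078971859094743334146),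
    (nat_lit 148065078971859097511565274), (nat_lit 148065078971859097511574786),
    (nat_lit 148065078988184643392542682), (nat_lit 148065078988184643392552194),
    (nat_lit 148065078988184646160783322), (nat_lit 148065078988184646160792834)],
  [(nat_lit 24140737732053042225780811), (nat_lit 24140737742749089277188171),
    (nat_lit 24140737742749091340785739), (nat_lit 36300831425442376587450443),
    (nat_lit 36300831425442378651048011), (nat_lit 36300831436138425702455371),
    (nat_lit 36300831436138427766052939), (nat_lit 71081060571777313586321483),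
    (nat_lit 101511990187389309406976075), (nat_lit 101511990198085356458383435),
    (nat_lit 101511990198085358521981003), (nat_lit 114862120234461794362497099),
    (nat_lit 114862120234461796426094667), (nat_lit 114862120245157843477502027),
    (nat_lit 114862120245157845541099595), (nat_lit 143456049288237496131426379),
    (nat_lit 144532748846331775240149067), (nat_lit 144532748846331777303746635),
    (nat_lit 144532748857027824355153995), (nat_lit 144532748857027826418751563),
    (nat_lit 148022577677172443053070411), (nat_lit 148022577677172445116667979),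
    (nat_lit 148022577687868492168075339), (nat_lit 148022577687868494231672907),
    (nat_lit 148603428754565409414355019)],
  [(nat_lit 21760664999353987312423397), (nat_lit 21760665106314478462472677),
    (nat_lit 21760665320235460762571237), (nat_lit 21760665427195951912620517)],
  [(nat_lit 22105397770054922837988545), (nat_lit 22105397882644913522250945),
    (nat_lit 22105398185230513486206145), (nat_lit 22256513497506751484826817),
    (nat_lit 66552311106824023589295297), (nat_lit 72294708749993512169149633),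
    (nat_lit 100685576045005819193889985), (nat_lit 115646033062736855230878913),
    (nat_lit 148457035385715150175638721)],
  [(nat_lit 21760664999353987312423397), (nat_lit 21760665106314478462472677)],
  [(nat_lit 21765387417909727699440105), (nat_lit 22062896468331395907884169),
    (nat_lit 99434148923667663089079433), (nat_lit 100364455158792102636196329)],
  [(nat_lit 21760664999353987312423397)],
  [(nat_lit 22062896468331395907884169), (nat_lit 22062896896173360508081289),
    (nat_lit 99434148923667663089079433), (nat_lit 99434149351509627689276553)],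
  [(nat_lit 23947120711603538081543331), (nat_lit 142724082488740823257248931)],
  [(nat_lit 21760664999353987312423397)],
  [(nat_lit 22062896468331395907884169), (nat_lit 99434148923667663089079433)],
  [(nat_lit 21760664999353987312423397)],
  [(nat_lit 22062896468331395907884169), (nat_lit 22062896506330517763822729),
    (nat_lit 99434148923667663089079433), (nat_lit 99434148961666784945017993)],
  [(nat_lit 71680801120449784478472682), (nat_lit 147843127756171422484961770)],
  [(nat_lit 60894916266385985073384167)],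
  [(nat_lit 62746083950188888361865783)],
  [(nat_lit 101134201151642151560623836), (nat_lit 101134201358526259442955996)],
  [(nat_lit 31668190483334036061390254)],
  [(nat_lit 31776804916380687910798804)],
  [(nat_lit 100959473284123759610991249), (nat_lit 100959473290879159052046993),
    (nat_lit 100959473312552732258767505)],
  [(nat_lit 32617386169190310463375287)],
  [(nat_lit 33627972600183591199280420)],
  [(nat_lit 65423665820848298655851695)],
  [(nat_lit 66552311415602170634021509)],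
  [(nat_lit 67392892667004418303044712)],
  [(nat_lit 22398184496777912626746337)],
  [(nat_lit 22095953027800509785872850)],
  [(nat_lit 144995540792615345972246903), (nat_lit 149642349380796800533970237)],
  [(nat_lit 144466635746533865496540274)],
  [(nat_lit 104765700861845577387992409)],
  [(nat_lit 70122420468770337949231188), (nat_lit 147493672924106605130426452)],
  [(nat_lit 21760664999353987312423397), (nat_lit 21760665021027560519143909)],
  [(nat_lit 23692113213418111328594121), (nat_lit 99854439849139749335083209)],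
  [(nat_lit 148367310742014840088570396)],
  [(nat_lit 65291439267438442586625999)],
  [(nat_lit 24140737742749089277188171), (nat_lit 101511990198085356458383435)],
  [(nat_lit 22062896454820597025772681), (nat_lit 22062896468331395907884169),
    (nat_lit 99434148910156864206967945), (nat_lit 99434148923667663089079433)],
  [(nat_lit 70693826817701170066501645), (nat_lit 148065079273037437247696909)],
  [(nat_lit 21760664999353987312423397), (nat_lit 36305553788266073884245250)],
  [(nat_lit 144801924160601217447503382), (nat_lit 144953039888053046094341654)],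
  [(nat_lit 143177430079235059133719124)],
  [(nat_lit 22062896468331395907884169), (nat_lit 99434148923667663089079433)],
  [(nat_lit 21760664999353987312423397)],
  [(nat_lit 37146135126362677445775710)],
  [(nat_lit 143829116263183767652541482)],
  [(nat_lit 22062896468331395907884169), (nat_lit 99434148923667663089079433)],
  [(nat_lit 36688065577242847688643247)],
  [(nat_lit 72153037846142460490816708), (nat_lit 148315364481864098497305796)],
  [(nat_lit 21760664999353987312423397), (nat_lit 21760665007516761637032421),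
    (nat_lit 21760665014272161078088165), (nat_lit 21760665027782959960199653)],
  [(nat_lit 21869279539361228374809848), (nat_lit 99240531994697495556005112)],
  [(nat_lit 23337935519474338985288034), (nat_lit 100709187974810606166483298)],
  [(nat_lit 22062896461575996466828425), (nat_lit 22062896468331395907884169),
    (nat_lit 22062896476494170232493193), (nat_lit 22062896483249569673548937),
    (nat_lit 99434148916912263648023689), (nat_lit 99434148923667663089079433),
    (nat_lit 99434148931830437413688457), (nat_lit 99434148938585836854744201)],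
  [(nat_lit 22171511008338636970270620), (nat_lit 22322626735790465617108892)],
  [(nat_lit 114843231083500814117201904)],
  [(nat_lit 143276599401013671528586022)],
  [(nat_lit 21760664999353987312423397)],
  [(nat_lit 22062896468331395907884169), (nat_lit 99434148923667663089079433)],
  [(nat_lit 21760664999353987312423397), (nat_lit 21760665007516761637032421)],
  [(nat_lit 70226312540682174876165611), (nat_lit 147597564996018442057360875)],
  [(nat_lit 22062896468331395907884169), (nat_lit 22062896476494170232493193),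
    (nat_lit 99434148923667663089079433), (nat_lit 99434148931830437413688457)],
  [(nat_lit 148357865793157718700350111)],
  [(nat_lit 72341932746118402473536476)],
  [(nat_lit 60493515491955611718054727)],
  [(nat_lit 60724911454119824564876247)],
  [(nat_lit 61334096744765234270631210)],
  [(nat_lit 62302181875723838205131401)],
  [(nat_lit 111126728437146957658757870)],
  [(nat_lit 31625688775160521361184298), (nat_lit 110205867050111417717085738)],
  [(nat_lit 70835497610369692044848408)],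
  [(nat_lit 31927920244137924202059982), (nat_lit 110508098519088820557961422)],
  [(nat_lit 67114272708152548288420463)],
  [(nat_lit 21760664999353987312423397)],
  [(nat_lit 148022577698564636779097870)],
  [(nat_lit 22062896468331395907884169), (nat_lit 99434148923667663089079433)],
  [(nat_lit 70953556712205778193363378), (nat_lit 148324809167542045374558642)],
  [(nat_lit 65588948327430257587313095), (nat_lit 65588948340941056469424583)],
  [(nat_lit 149146500926554135580548102)],
  [(nat_lit 142681581209253924999354166)],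
  [(nat_lit 36839181635427773970655433)],
  [(nat_lit 21760664999353987312423397), (nat_lit 21760665027782959960199653)],
  [(nat_lit 22062896461575996466828425), (nat_lit 22062896468331395907884169),
    (nat_lit 99434148916912263648023689), (nat_lit 99434148923667663089079433)],
  [(nat_lit 21760664999353987312423397)],
  [(nat_lit 22332071455245315747161698), (nat_lit 36536949835717199507039842)],
  [(nat_lit 21765387366399806961390057), (nat_lit 21765387366399815484215785),
    (nat_lit 21765387417909727699440105), (nat_lit 21765387417909736222265833),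
    (nat_lit 36607785222059101868036585), (nat_lit 36607785222059110390862313),
    (nat_lit 36607785273569022606086633), (nat_lit 36607785273569031128912361),
    (nat_lit 144877481574811457682444777), (nat_lit 144877481574811466205270505),
    (nat_lit 144877481626321378420494825), (nat_lit 144877481626321386943320553),
    (nat_lit 148367310405652125495366121), (nat_lit 148367310405652134018191849),
    (nat_lit 148367310457162046233416169), (nat_lit 148367310457162054756241897)],
  [(nat_lit 23947120810119655795527194), (nat_lit 38151999190591545309990426)],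
  [(nat_lit 22062896468331395907884169), (nat_lit 99434148923667663089079433)],
  [(nat_lit 65924236858028200890181944)],
  [(nat_lit 23881007571836034558760922), (nat_lit 23881007571836034558770434),
    (nat_lit 23881007571836037327001562), (nat_lit 23881007571836037327011074),
    (nat_lit 23881007588161583207978970), (nat_lit 23881007588161583207988482),
    (nat_lit 23881007588161585976219610), (nat_lit 23881007588161585976229122),
    (nat_lit 36305553788266071115995098), (nat_lit 36305553788266071116004610),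
    (nat_lit 36305553788266073884235738), (nat_lit 36305553788266073884245250),
    (nat_lit 36305553804591619765213146), (nat_lit 36305553804591619765222658),
    (nat_lit 36305553804591622533453786), (nat_lit 36305553804591622533463298),
    (nat_lit 144575250141018426930403290), (nat_lit 144575250141018426930412802),
    (nat_lit 144575250141018429698643930), (nat_lit 144575250141018429698653442),
    (nat_lit 144575250157343975579621338), (nat_lit 144575250157343975579630850),
    (nat_lit 144575250157343978347861978), (nat_lit 144575250157343978347871490),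
    (nat_lit 148065078971859094743324634), (nat_lit 148065078971859094743334146),
    (nat_lit 148065078971859097511565274), (nat_lit 148065078971859097511574786),
    (nat_lit 148065078988184643392542682), (nat_lit 148065078988184643392552194),
    (nat_lit 148065078988184646160783322), (nat_lit 148065078988184646160792834)],
  [(nat_lit 24140737732053040162183243), (nat_lit 24140737732053042225780811),
    (nat_lit 24140737742749089277188171), (nat_lit 24140737742749091340785739),
    (nat_lit 36300831425442376587450443), (nat_lit 36300831425442378651048011),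
    (nat_lit 36300831436138425702455371), (nat_lit 36300831436138427766052939),
    (nat_lit 144532748846331775240149067), (nat_lit 144532748846331777303746635),
    (nat_lit 144532748857027824355153995), (nat_lit 144532748857027826418751563),
    (nat_lit 148022577677172443053070411), (nat_lit 148022577677172445116667979),
    (nat_lit 148022577687868492168075339), (nat_lit 148022577687868494231672907)],
  [(nat_lit 60474625922159792558990475), (nat_lit 137996994104947888387024011)],
  [(nat_lit 62590246127596020156361340), (nat_lit 62741361855047848803199612),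
    (nat_lit 139961498582932287337556604), (nat_lit 140112614310384115984394876)],
  [(nat_lit 62623302684250379502512373), (nat_lit 138785629319972017509001461)],
  [(nat_lit 61046032297830743705676504), (nat_lit 139626210572781640061577944)],
  [(nat_lit 75227298918508859217986268), (nat_lit 152447435646393297752343260)],
  [(nat_lit 77191803396493258168518861), (nat_lit 77342919123945086815357133),
    (nat_lit 154563055851829525349714125), (nat_lit 154714171579281353996552397)],
  [(nat_lit 74995902981677395214649340), (nat_lit 153576081256628291570550780)],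
  [(nat_lit 75836484199302645678393823), (nat_lit 154416662474253542034295263)]]

/-- the boxes with classes modulo 11 -/
def BF17 : List Bx := [bx0, bx2, bx4, bx5, bx7, bx9, bx10, bx13, bx14, bx15, bx16]

theorem loc17 : locA K17 GS17 G11 = true := by decide +kernel

lemma bf_0 : ∀ bx ∈ BG0, bx.F11 = [] ∨ bx ∈ BF17 := by
  intro bx h
  simp only [BG0, List.mem_cons, List.not_mem_nil, or_false] at h
  rcases h with rfl | rfl
  · exact Or.inr (by simp [BF17])
  · exact Or.inr (by simp [BF17])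

lemma bf_1 : ∀ bx ∈ BG1, bx.F11 = [] ∨ bx ∈ BF17 := by
  intro bx h
  simp only [BG1, List.mem_cons, List.not_mem_nil, or_false] at h
  rcases h with rfl | rfl
  · exact Or.inr (by simp [BF17])
  · exact Or.inl rfl

lemma bf_2 : ∀ bx ∈ BG2, bx.F11 = [] ∨ bx ∈ BF17 := by
  intro bx h
  simp only [BG2, List.mem_cons, List.not_mem_nil, or_false] at h
  rcases h with rfl | rfl
  · exact Or.inr (by simp [BF17])
  · exact Or.inl rfl

lemma bf_3 : ∀ bx ∈ BG3, bx.F11 = [] ∨ bx ∈ BF17 := by
  intro bx h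
  simp only [BG3, List.mem_cons, List.not_mem_nil, or_false] at h
  rcases h with rfl | rfl
  · exact Or.inr (by simp [BF17])
  · exact Or.inr (by simp [BF17])

lemma bf_4 : ∀ bx ∈ BG4, bx.F11 = [] ∨ bx ∈ BF17 := by
  intro bx h
  simp only [BG4, List.mem_cons, List.not_mem_nil, or_false] at h
  rcases h with rfl | rfl | rfl
  · exact Or.inl rfl
  · exact Or.inl rfl
  · exact Or.inr (by simp [BF17])

lemma bf_5 : ∀ bx ∈ BG5, bx.F11 = [] ∨ bx ∈ BF17 := by
  intro bx h
  simp only [BG5, List.mem_cons, List.not_mem_nil, or_false] at h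
  rcases h with rfl | rfl | rfl
  · exact Or.inl rfl
  · exact Or.inl rfl
  · exact Or.inr (by simp [BF17])

lemma bf_6 : ∀ bx ∈ BG6, bx.F11 = [] ∨ bx ∈ BF17 := by
  intro bx h
  simp only [BG6, List.mem_cons, List.not_mem_nil, or_false] at h
  rcases h with rfl | rfl | rfl
  · exact Or.inr (by simp [BF17])
  · exact Or.inr (by simp [BF17])
  · exact Or.inr (by simp [BF17])

lemma bf_7 : ∀ bx ∈ BG7, bx.F11 = [] ∨ bx ∈ BF17 := by
  have h : BG7.all (fun bx => bx.F11.isEmpty) = true := by decide +kernel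
  intro bx hb
  exact Or.inl (List.isEmpty_iff.1 (List.all_eq_true.1 h bx hb))

lemma bf_8 : ∀ bx ∈ BG8, bx.F11 = [] ∨ bx ∈ BF17 := by
  have h : BG8.all (fun bx => bx.F11.isEmpty) = true := by decide +kernel
  intro bx hb
  exact Or.inl (List.isEmpty_iff.1 (List.all_eq_true.1 h bx hb))

theorem bf_all : ∀ BS ∈ BB, ∀ bx ∈ BS, bx.F11 = [] ∨ bx ∈ BF17 := by
  intro BS h
  simp only [BB, List.mem_cons, List.not_mem_nil, or_false] at h
  rcases h with rfl | rfl | rfl | rfl | rfl | rfl | rfl | rfl | rfl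
  · exact bf_0
  · exact bf_1
  · exact bf_2
  · exact bf_3
  · exact bf_4
  · exact bf_5
  · exact bf_6
  · exact bf_7
  · exact bf_8

end Pool.Agent.LibH4.S7


end
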