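import Mathlib
import Pool.Agent.RQM.C119
import Pool.Agent.RQM.C12
import Pool.Agent.RQM.C120
import Pool.Agent.RQM.C127
import Pool.Agent.RQM.C40
import Pool.Agent.RQM.C41
import Pool.Agent.RQM.C48
import Pool.Agent.RQM.C54
import Pool.Agent.RQM.C55
import Pool.Agent.RQM.C56
import Pool.Agent.RQM.C57
import Pool.Agent.RQM.C59
import Pool.Agent.RQM.C62

/-! Parts: Lib_helper29.P7A.Leaf, Lib_helper5.P7.EngG, Lib_helper5.P7.EngH, Lib_helper5.P7.EngK5, Lib_helper5.P7.EngK7, Lib_helper5.P7.EngS, Lib_helper5.P7.Grp, Lib_helper84.P7.Norm13, Lib_helper5.P7.EngT, Lib_helper5.P7.GA_0 -/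

namespace Pool.Agent.LibH4
end Pool.Agent.LibH4
namespace Pool.Agent.LibH4.Ker
end Pool.Agent.LibH4.Ker
namespace Pool.Agent.LibH4.S7
end Pool.Agent.LibH4.S7
namespace Pool.Agent.LibH4.T6
end Pool.Agent.LibH4.T6
namespace Pool.Agent.Lib_helper5
end Pool.Agent.Lib_helper5
namespace Pool.Agent.Lib_helper5.LK
end Pool.Agent.Lib_helper5.LK
namespace Pool.Agent.Lib_helper5.Lane
end Pool.Agent.Lib_helper5.Lane
namespace Pool.Agent.Lib_helper5.TB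
end Pool.Agent.Lib_helper5.TB

section

/-!
Period seven: lookup of a class (or of its negative) in a nested list of codes.
-/

namespace Pool.Agent.Lib_helper29.P7A

open Pool.Agent.Lib_helper5 Pool.Agent.Lib_helper5.LK Pool.Agent.Lib_helper5.TB
  Pool.Agent.Lib_helper5.P7 Pool.Agent.LibH4 Pool.Agent.LibH4.Ker Pool.Agent.LibH4.S7

/-- lookup of the codes modulo `7`, `5` -/
noncomputable def lk7 (k7 k5 : ℕ) (L : List (ℕ × List ℕ)) : Bool :=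
  @List.rec _ (fun _ => Bool) false
    (fun f _ ih => @Bool.rec (fun _ => Bool) ih
      (@Bool.rec (fun _ => Bool) ih true (memN k5 f.2)) (Nat.beq k7 f.1)) L

/-- lookup of the codes modulo `13`, `7`, `5` -/
noncomputable def lk13 (k13 k7 k5 : ℕ) (T : TriL) : Bool :=
  @List.rec _ (fun _ => Bool) false
    (fun e _ ih => @Bool.rec (fun _ => Bool) ih
      (@Bool.rec (fun _ => Bool) ih true (lk7 k7 k5 e.2)) (Nat.beq k13 e.1)) T

lemma lk7_spec {k7 k5 : ℕ} {L : List (ℕ × List ℕ)} (h : lk7 k7 k5 L = true) :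
    ∃ f ∈ L, f.1 = k7 ∧ k5 ∈ f.2 := by
  induction L with
  | nil => exact absurd h (by simp [lk7])
  | cons f L ih =>
    have tl : lk7 k7 k5 L = true → ∃ g ∈ f :: L, g.1 = k7 ∧ k5 ∈ g.2 := by
      intro h1
      obtain ⟨g, hg, h2⟩ := ih h1
      exact ⟨g, List.mem_cons_of_mem _ hg, h2⟩
    have h' : @Bool.rec (fun _ => Bool) (lk7 k7 k5 L)
      (@Bool.rec (fun _ => Bool) (lk7 k7 k5 L) true (memN k5 f.2)) (Nat.beq k7 f.1) = true := h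
    cases hb : Nat.beq k7 f.1 with
    | false => rw [hb] at h'; exact tl h'
    | true =>
      rw [hb] at h'
      cases hm : memN k5 f.2 with
      | false => rw [hm] at h'; exact tl h'
      | true => exact ⟨f, List.mem_cons_self, (Nat.eq_of_beq_eq_true hb).symm, memN_spec hm⟩

lemma lk13_spec {k13 k7 k5 : ℕ} {T : TriL} (h : lk13 k13 k7 k5 T = true) :
    InT k13 k7 k5 T := by
  induction T with
  | nil => exact absurd h (by simp [lk13])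
  | cons e T ih =>
    have tl : lk13 k13 k7 k5 T = true → InT k13 k7 k5 (e :: T) := by
      intro h1
      obtain ⟨g, hg, h2⟩ := ih h1
      exact ⟨g, List.mem_cons_of_mem _ hg, h2⟩
    have h' : @Bool.rec (fun _ => Bool) (lk13 k13 k7 k5 T)
      (@Bool.rec (fun _ => Bool) (lk13 k13 k7 k5 T) true (lk7 k7 k5 e.2))
        (Nat.beq k13 e.1) = true := h
    cases hb : Nat.beq k13 e.1 with
    | false => rw [hb] at h'; exact tl h'
    | true =>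
      rw [hb] at h'
      cases hm : lk7 k7 k5 e.2 with
      | false => rw [hm] at h'; exact tl h'
      | true => exact ⟨e, List.mem_cons_self, (Nat.eq_of_beq_eq_true hb).symm, lk7_spec hm⟩

/-- code of the data of a class -/
noncomputable def ckD (n : ℕ) (D : CD) : ℕ :=
  @CD.rec (fun _ => ℕ) (fun a b c B m _ _ _ _ _ _ _ => ck n a b c B m) D

/-- code of the negative of the data of a class -/
noncomputable def ckN (n : ℕ) (D : CD) : ℕ :=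
  @CD.rec (fun _ => ℕ) (fun a b c B m _ _ _ _ _ _ _ =>
    ck n (ng n a) (ng n b) (ng n c) (ng n B) m) D

/-- the sign of a class modulo `13` -/
noncomputable def sg13 (a B : ℕ) : Bool :=
  @Bool.rec (fun _ => Bool) (Nat.ble B (nat_lit 6)) (Nat.ble a (nat_lit 6)) (Nat.beq B (nat_lit 0))

/-- **the leaf**: a class or its negative is in the list -/
noncomputable def lf (T : TriL) (a b c B m : ℕ) (D7 D5 : CD) : Bool :=
  @Bool.rec (fun _ => Bool)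
    (strict (ck (nat_lit 13) (ng (nat_lit 13) a) (ng (nat_lit 13) b) (ng (nat_lit 13) c)
        (ng (nat_lit 13) B) m) fun k13 =>
      strict (ckN (nat_lit 7) D7) fun k7 => strict (ckN (nat_lit 5) D5) fun k5 =>
        lk13 k13 k7 k5 T)
    (strict (ck (nat_lit 13) a b c B m) fun k13 =>
      strict (ckD (nat_lit 7) D7) fun k7 => strict (ckD (nat_lit 5) D5) fun k5 =>
        lk13 k13 k7 k5 T)
    (sg13 a B)

/-- code of the negative class, in residues -/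
lemma ck_neg {n : ℕ} [NeZero n] (a b c B m : ℤ) :
    ck n (ng n (rs n a)) (ng n (rs n b)) (ng n (rs n c)) (ng n (rs n B)) (rs n m) =
      cd n (-a) (-b) (-c) (-B) m := by
  rw [ng_eq, ng_eq, ng_eq, ng_eq]
  rfl

theorem lf_spec {T : TriL} {a b c B m : ℤ}
    (h : lf T (rs 13 a) (rs 13 b) (rs 13 c) (rs 13 B) (rs 13 m)
      (cdx 7 5 PT7 a b c B m) (cdx 5 3 PT5 a b c B m) = true) :
    InT (cd 13 a b c B m) (cd 7 a b c B m) (cd 5 a b c B m) T ∨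
      InT (cd 13 (-a) (-b) (-c) (-B) m) (cd 7 (-a) (-b) (-c) (-B) m)
        (cd 5 (-a) (-b) (-c) (-B) m) T := by
  unfold lf at h
  simp only [strict_eq] at h
  cases hs : sg13 (rs 13 a) (rs 13 B) with
  | true =>
    rw [hs] at h
    exact Or.inl (lk13_spec h)
  | false =>
    rw [hs] at h
    have e13 : ck (nat_lit 13) (ng (nat_lit 13) (rs 13 a)) (ng (nat_lit 13) (rs 13 b))
        (ng (nat_lit 13) (rs 13 c)) (ng (nat_lit 13) (rs 13 B)) (rs 13 m) =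
        cd 13 (-a) (-b) (-c) (-B) m := ck_neg a b c B m
    have e7 : ckN (nat_lit 7) (cdx 7 5 PT7 a b c B m) = cd 7 (-a) (-b) (-c) (-B) m :=
      ck_neg (n := 7) a b c B m
    have e5 : ckN (nat_lit 5) (cdx 5 3 PT5 a b c B m) = cd 5 (-a) (-b) (-c) (-B) m :=
      ck_neg (n := 5) a b c B m
    rw [e13, e7, e5] at h
    exact Or.inr (lk13_spec h)

end Pool.Agent.Lib_helper29.P7A


end

section

/-!
The search modulo `13`, `7`, `5`: generic form.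
-/

namespace Pool.Agent.Lib_helper5.P7

open LK TB Lane Pool.Agent.LibH4 Pool.Agent.LibH4.Ker Pool.Agent.LibH4.T6 Pool.Agent.LibH4.S7

/-- test of a class modulo `13` -/
noncomputable def clsG (tb sh w7 f7 w5 f5 mk5 cc5 ff5 msk5 mk7 cc7 ff7 msk7 : ℕ) (L5 L7 : List (List CD))
    (t1 : ℕ) (ro : List (ℕ × ℕ)) (G0 G1 G2 G3 G4 : ℕ → ℕ)
    (t1a t2a : ℕ) (roa : List (ℕ × ℕ)) (Ga0 Ga1 Ga2 Ga3 Ga4 : ℕ → ℕ)
    (t1b t2b : ℕ) (rob : List (ℕ × ℕ)) (Gb0 Gb1 Gb2 Gb3 Gb4 : ℕ → ℕ)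
    (t1c t2c : ℕ) (roc : List (ℕ × ℕ)) (Gc0 Gc1 Gc2 Gc3 Gc4 : ℕ → ℕ)
    (t1d t2d : ℕ) (rod : List (ℕ × ℕ)) (Gd0 Gd1 Gd2 Gd3 Gd4 : ℕ → ℕ)
    (t1e t2e : ℕ) (roe : List (ℕ × ℕ)) (Ge0 Ge1 Ge2 Ge3 Ge4 : ℕ → ℕ)
    (leaf : CD → CD → Bool) (m m2 m3 al0 al1 al2 al3 q0 q1 q2 q3 q4 : ℕ) : Bool :=
  ctx mk5 sh t1a t2a roa Ga0 Ga1 Ga2 Ga3 Ga4 m m2 m3 al0 al1 al2 al3 q0 q1 q2 q3 q4 fun Aa Ba =>
  ctx mk5 sh t1b t2b rob Gb0 Gb1 Gb2 Gb3 Gb4 m m2 m3 al0 al1 al2 al3 q0 q1 q2 q3 q4 fun Ab Bb =>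
  ctx mk5 sh t1c t2c roc Gc0 Gc1 Gc2 Gc3 Gc4 m m2 m3 al0 al1 al2 al3 q0 q1 q2 q3 q4 fun Ac Bc =>
  ctx mk5 sh t1d t2d rod Gd0 Gd1 Gd2 Gd3 Gd4 m m2 m3 al0 al1 al2 al3 q0 q1 q2 q3 q4 fun Ad Bd =>
  ctx mk5 sh t1e t2e roe Ge0 Ge1 Ge2 Ge3 Ge4 m m2 m3 al0 al1 al2 al3 q0 q1 q2 q3 q4 fun Ae Be =>
  enB tb w7 msk7 f7
    (ent (stg mk5 cc5 Aa Ba (stg mk5 cc5 Ab Bb (stg mk5 cc5 Ac Bc (stg mk5 cc5 Ad Bd
      (stg mk5 cc5 Ae Be (finE tb w5 msk5 f5 L5 leaf)))))) ff5) L7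
    (Z7 mk7 cc7 ff7 t1 ro G0 G1 G2 G3 G4 m m2 m3 al0 al1 al2 al3 q0 q1 q2 q3 q4)

section

variable {tb sh w7 f7 w5 f5 mk5 cc5 ff5 msk5 mk7 cc7 ff7 msk7 : ℕ} {L5 L7 : List (List CD)}
    {t1 : ℕ} {ro : List (ℕ × ℕ)} {G0 G1 G2 G3 G4 : ℕ → ℕ}
    {t1a t2a : ℕ} {roa : List (ℕ × ℕ)} {Ga0 Ga1 Ga2 Ga3 Ga4 : ℕ → ℕ}
    {t1b t2b : ℕ} {rob : List (ℕ × ℕ)} {Gb0 Gb1 Gb2 Gb3 Gb4 : ℕ → ℕ}
    {t1c t2c : ℕ} {roc : List (ℕ × ℕ)} {Gc0 Gc1 Gc2 Gc3 Gc4 : ℕ → ℕ}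
    {t1d t2d : ℕ} {rod : List (ℕ × ℕ)} {Gd0 Gd1 Gd2 Gd3 Gd4 : ℕ → ℕ}
    {t1e t2e : ℕ} {roe : List (ℕ × ℕ)} {Ge0 Ge1 Ge2 Ge3 Ge4 : ℕ → ℕ}
    {leaf : CD → CD → Bool} {m m2 m3 al0 al1 al2 al3 q0 q1 q2 q3 q4 : ℕ}

theorem clsG_spec
    (h : clsG tb sh w7 f7 w5 f5 mk5 cc5 ff5 msk5 mk7 cc7 ff7 msk7 L5 L7 t1 ro G0 G1 G2 G3 G4
      t1a t2a roa Ga0 Ga1 Ga2 Ga3 Ga4
      t1b t2b rob Gb0 Gb1 Gb2 Gb3 Gb4
      t1c t2c roc Gc0 Gc1 Gc2 Gc3 Gc4
      t1d t2d rod Gd0 Gd1 Gd2 Gd3 Gd4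
      t1e t2e roe Ge0 Ge1 Ge2 Ge3 Ge4
      leaf m m2 m3 al0 al1 al2 al3 q0 q1 q2 q3 q4 = true)
    (htb : ∀ j, 32 * j < w7 → tb / 2 ^ (32 * j + 18) % 256 = j) (hw : w5 ≤ w7)
    (hm7 : msk7 = 2 ^ w7 - 1) (hl7 : ∀ blk ∈ L7, 32 * blk.length = w7)
    (hm5 : msk5 = 2 ^ w5 - 1) (hl5 : ∀ blk ∈ L5, 32 * blk.length = w5)
    {b7 j7 b5 j5 p7 p5 : ℕ} {k7 k5 : List CD} {D7 D5 : CD}
    (hb7 : L7[b7]? = some k7) (hj7 : k7[j7]? = some D7)
    (hb5 : L5[b5]? = some k5) (hj5 : k5[j5]? = some D5)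
    (hp7 : w7 * b7 + (32 * j7 + 18) = p7) (hp5 : w5 * b5 + (32 * j5 + 18) = p5)
    (z7 : (Z7 mk7 cc7 ff7 t1 ro G0 G1 G2 G3 G4 m m2 m3 al0 al1 al2 al3 q0 q1 q2 q3 q4).testBit p7 = true)
    (hff : ff5.testBit p5 = true)
    (ka : ctx mk5 sh t1a t2a roa Ga0 Ga1 Ga2 Ga3 Ga4 m m2 m3 al0 al1 al2 al3 q0 q1 q2 q3 q4 (fun hA hB =>
      (Nat.sub cc5 (Nat.land (Nat.add (hA D7.m D7.q0 D7.q1 D7.q2) (hB D7.m2 D7.m3 D7.q3 D7.q4))
        mk5)).testBit p5 = true))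
    (kb : ctx mk5 sh t1b t2b rob Gb0 Gb1 Gb2 Gb3 Gb4 m m2 m3 al0 al1 al2 al3 q0 q1 q2 q3 q4 (fun hA hB =>
      (Nat.sub cc5 (Nat.land (Nat.add (hA D7.m D7.q0 D7.q1 D7.q2) (hB D7.m2 D7.m3 D7.q3 D7.q4))
        mk5)).testBit p5 = true))
    (kc : ctx mk5 sh t1c t2c roc Gc0 Gc1 Gc2 Gc3 Gc4 m m2 m3 al0 al1 al2 al3 q0 q1 q2 q3 q4 (fun hA hB =>
      (Nat.sub cc5 (Nat.land (Nat.add (hA D7.m D7.q0 D7.q1 D7.q2) (hB D7.m2 D7.m3 D7.q3 D7.q4))
        mk5)).testBit p5 = true))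
    (kd : ctx mk5 sh t1d t2d rod Gd0 Gd1 Gd2 Gd3 Gd4 m m2 m3 al0 al1 al2 al3 q0 q1 q2 q3 q4 (fun hA hB =>
      (Nat.sub cc5 (Nat.land (Nat.add (hA D7.m D7.q0 D7.q1 D7.q2) (hB D7.m2 D7.m3 D7.q3 D7.q4))
        mk5)).testBit p5 = true))
    (ke : ctx mk5 sh t1e t2e roe Ge0 Ge1 Ge2 Ge3 Ge4 m m2 m3 al0 al1 al2 al3 q0 q1 q2 q3 q4 (fun hA hB =>
      (Nat.sub cc5 (Nat.land (Nat.add (hA D7.m D7.q0 D7.q1 D7.q2) (hB D7.m2 D7.m3 D7.q3 D7.q4))
        mk5)).testBit p5 = true)) : leaf D7 D5 = true := by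
  subst hp7
  subst hp5
  have h1 := enB_spec (k := _) h hm7 hl7 htb b7 k7 j7 D7 hb7 hj7 z7
  rw [ent_eq] at h1
  obtain ⟨Z1, h2, g1⟩ := stg_spec h1 hff ka
  obtain ⟨Z2, h3, g2⟩ := stg_spec h2 g1 kb
  obtain ⟨Z3, h4, g3⟩ := stg_spec h3 g2 kc
  obtain ⟨Z4, h5, g4⟩ := stg_spec h4 g3 kd
  obtain ⟨Z5, h6, g5⟩ := stg_spec h5 g4 ke
  exact enB_spec h6 hm5 hl5 (fun j hj => htb j (lt_of_lt_of_le hj hw)) b5 k5 j5 D5 hb5 hj5 g5

end

end Pool.Agent.Lib_helper5.P7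


end

section

/-!
The search modulo `13`, `7`, `5`: generic specification.
-/

namespace Pool.Agent.Lib_helper5.P7

open LK TB Lane Pool.Agent.LibH4 Pool.Agent.LibH4.Ker Pool.Agent.LibH4.T6 Pool.Agent.LibH4.S7

section

variable {tb w7 f7 w5 f5 mk5 cc5 ff5 msk5 mk7 cc7 ff7 msk7 : ℕ} {L5 L7 : List (List CD)}
    {t1 t2 t3 : ℕ} {ro : List (ℕ × ℕ)} {G0 G1 G2 G3 G4 : ℕ → ℕ}
    {t1a t2a t3a : ℕ} {roa : List (ℕ × ℕ)} {Ga0 Ga1 Ga2 Ga3 Ga4 : ℕ → ℕ}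
    {t1b t2b t3b : ℕ} {rob : List (ℕ × ℕ)} {Gb0 Gb1 Gb2 Gb3 Gb4 : ℕ → ℕ}
    {t1c t2c t3c : ℕ} {roc : List (ℕ × ℕ)} {Gc0 Gc1 Gc2 Gc3 Gc4 : ℕ → ℕ}
    {t1d t2d t3d : ℕ} {rod : List (ℕ × ℕ)} {Gd0 Gd1 Gd2 Gd3 Gd4 : ℕ → ℕ}
    {t1e t2e t3e : ℕ} {roe : List (ℕ × ℕ)} {Ge0 Ge1 Ge2 Ge3 Ge4 : ℕ → ℕ}
    {leaf : CD → CD → Bool}

theorem clsG_main {Q : ℕ} {a b c B m : ℤ} (S : Sys Q a b c B m) (hQ : 35 ∣ Q)
    (h : clsG tb 80 w7 f7 w5 f5 mk5 cc5 ff5 msk5 mk7 cc7 ff7 msk7 L5 L7 t1 ro G0 G1 G2 G3 G4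
      t1a t2a roa Ga0 Ga1 Ga2 Ga3 Ga4
      t1b t2b rob Gb0 Gb1 Gb2 Gb3 Gb4
      t1c t2c roc Gc0 Gc1 Gc2 Gc3 Gc4
      t1d t2d rod Gd0 Gd1 Gd2 Gd3 Gd4
      t1e t2e roe Ge0 Ge1 Ge2 Ge3 Ge4
      leaf (cdx 13 11 PT13 a b c B m).m (cdx 13 11 PT13 a b c B m).m2 (cdx 13 11 PT13 a b c B m).m3 (rs 13 (-B)) (rs 13 (-(2 * a)))
      (rs 13 (-(2 * b))) (rs 13 (-(2 * c))) (cdx 13 11 PT13 a b c B m).q0 (cdx 13 11 PT13 a b c B m).q1
      (cdx 13 11 PT13 a b c B m).q2 (cdx 13 11 PT13 a b c B m).q3 (cdx 13 11 PT13 a b c B m).q4 = true)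
    (htb : ∀ j, 32 * j < w7 → tb / 2 ^ (32 * j + 18) % 256 = j) (hw : w5 ≤ w7)
    (hm7 : msk7 = 2 ^ w7 - 1) (hm5 : msk5 = 2 ^ w5 - 1) {bl7 bl5 n7 n5 ix7 ix5 : ℕ}
    (hl7 : ∀ blk ∈ L7, blk.length = bl7) (hw7 : 32 * bl7 = w7)
    (hl5 : ∀ blk ∈ L5, blk.length = bl5) (hw5 : 32 * bl5 = w5)
    (hn7 : L7.length = n7) (hn5 : L5.length = n5)
    (ck7 : complCk 7 5 PT7 (adP 7) bl7 n7 ix7 L7 = true)
    (ck5 : complCk 5 3 PT5 (adP 5) bl5 n5 ix5 L5 = true)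
    (bd7 : bndCk t2 21 L7 = true) (h3 : dig t3 0 = 1) (RB7 : RowB ro 21)
    (LC7 : LaneC L7.flatten mk7 cc7 ff7) (LG7 : LaneG L7.flatten t2 21 G0 G1 G2 G3 G4)
    (LC5 : LaneC L5.flatten mk5 cc5 ff5)
    (rel7 : ((J7 a b c B m).map (fval 13 7 1 13 11 5 0 PT13 PT7 PT1 t1 t2 t3 ro 1)).sum % 13 = 0)
    (LGa : LaneG L5.flatten t3a 10 Ga0 Ga1 Ga2 Ga3 Ga4) (RBa : RelB 7 t2a roa 210)
    (rela : ((J7 a b c B m).map (fval 13 7 5 13 11 5 3 PT13 PT7 PT5 t1a t2a t3a roa 10)).sum % 13 = 0)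
    (LGb : LaneG L5.flatten t3b 10 Gb0 Gb1 Gb2 Gb3 Gb4) (RBb : RelB 7 t2b rob 210)
    (relb : ((J7 a b c B m).map (fval 13 7 5 13 11 5 3 PT13 PT7 PT5 t1b t2b t3b rob 10)).sum % 13 = 0)
    (LGc : LaneG L5.flatten t3c 10 Gc0 Gc1 Gc2 Gc3 Gc4) (RBc : RelB 7 t2c roc 210)
    (relc : ((J7 a b c B m).map (fval 13 7 5 13 11 5 3 PT13 PT7 PT5 t1c t2c t3c roc 10)).sum % 13 = 0)
    (LGd : LaneG L5.flatten t3d 10 Gd0 Gd1 Gd2 Gd3 Gd4) (RBd : RelB 7 t2d rod 210)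
    (reld : ((J7 a b c B m).map (fval 13 7 5 13 11 5 3 PT13 PT7 PT5 t1d t2d t3d rod 10)).sum % 13 = 0)
    (LGe : LaneG L5.flatten t3e 10 Ge0 Ge1 Ge2 Ge3 Ge4) (RBe : RelB 7 t2e roe 210)
    (rele : ((J7 a b c B m).map (fval 13 7 5 13 11 5 3 PT13 PT7 PT5 t1e t2e t3e roe 10)).sum % 13 = 0) :
    leaf (cdx 7 5 PT7 a b c B m) (cdx 5 3 PT5 a b c B m) = true := by
  have p7 : 7 ∣ Q := (by norm_num : 7 ∣ 35).trans hQ
  have p5 : 5 ∣ Q := (by norm_num : 5 ∣ 35).trans hQ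
  have A7 : adP 7 (rs 7 m) (rs 7 B) (rs 7 (-1)) = true :=
    adP_of S (by norm_num) (by norm_num) p7 ⟨m, B, -1, 0, -B⟩ (by simp [J7])
  have A5 : adP 5 (rs 5 m) (rs 5 B) (rs 5 (-1)) = true :=
    adP_of S (by norm_num) (by norm_num) p5 ⟨m, B, -1, 0, -B⟩ (by simp [J7])
  obtain ⟨b7, k7, j7, hb7, hj7⟩ := complCk_spec ck7 hn7 hl7 S.cl A7
  obtain ⟨b5, k5, j5, hb5, hj5⟩ := complCk_spec ck5 hn5 hl5 S.cl A5
  have g7 := flat_get hl7 b7 k7 j7 _ hb7 hj7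
  have g5 := flat_get hl5 b5 k5 j5 _ hb5 hj5
  have hD7m : cdx 7 5 PT7 a b c B m ∈ L7.flatten := List.mem_of_getElem? g7
  obtain ⟨_, _, _, u0, u1, u2, u3, u4⟩ := bndCk_spec bd7 _ hD7m
  have i7 : w7 * b7 + (32 * j7 + 18) = 32 * (bl7 * b7 + j7) + 18 := by rw [← hw7]; ring
  have i5 : w5 * b5 + (32 * j5 + 18) = 32 * (bl5 * b5 + j5) + 18 := by rw [← hw5]; ring
  have z7 := rel7_bit rel7 h3 RB7 LC7 LG7 g7
  have hff : ff5.testBit (32 * (bl5 * b5 + j5) + 18) = true := by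
    rw [LC5.hF]
    have hlt : bl5 * b5 + j5 < L5.flatten.length := by
      by_contra hcon
      rw [List.getElem?_eq_none (by omega)] at g5
      exact absurd g5 (by simp)
    exact testBit_packL (w := 32) (s := 18) (g := fun _ => 2 ^ 18) (fun _ _ => by norm_num) hlt rfl
  exact clsG_spec h htb hw hm7 (fun blk hb => by rw [hl7 blk hb, hw7]) hm5
    (fun blk hb => by rw [hl5 blk hb, hw5]) hb7 hj7 hb5 hj5 i7 i5 z7 hff
    (rel5_bit rela RBa LC5 LGa g5 u0 u1 u2 u3 u4)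
    (rel5_bit relb RBb LC5 LGb g5 u0 u1 u2 u3 u4)
    (rel5_bit relc RBc LC5 LGc g5 u0 u1 u2 u3 u4)
    (rel5_bit reld RBd LC5 LGd g5 u0 u1 u2 u3 u4)
    (rel5_bit rele RBe LC5 LGe g5 u0 u1 u2 u3 u4)

end

end Pool.Agent.Lib_helper5.P7


end

section

/-! generated: checks of the classes and vectors modulo 5 -/

namespace Pool.Agent.Lib_helper5.P7

open LK TB Lane Pool.Agent.LibH4 Pool.Agent.LibH4.Ker Pool.Agent.LibH4.T6 Pool.Agent.LibH4.S7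

lemma len5 : allL (fun b : List CD => Nat.beq b.length (nat_lit 25)) LL5 = true := by decide +kernel
lemma len5' : ∀ b ∈ LL5, b.length = 25 := fun b hb => Nat.eq_of_beq_eq_true (allL_spec len5 b hb)
lemma len5'' : ∀ b ∈ LL5, 32 * b.length = 800 := fun b hb => by rw [len5' b hb]
lemma nb5 : LL5.length = 10 := by decide +kernel
lemma msk5_eq : msk_5 = 2 ^ 800 - 1 := by decide +kernel

/-- all classes modulo `5` are in the list -/
lemma compl5 : complCk (nat_lit 5) (nat_lit 3) PT5 (adP (nat_lit 5)) (nat_lit 25) (nat_lit 10) ix_5 LL5 = true := by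
  decide +kernel

lemma c5a : vecCk (nat_lit 800) msk_5 (fun _ => nat_lit 262143) LL5 mk_5 = true := by decide +kernel
lemma c5b : vecCk (nat_lit 800) msk_5 (fun _ => nat_lit 282308) LL5 cc_5 = true := by decide +kernel
lemma c5c : vecCk (nat_lit 800) msk_5 (fun _ => nat_lit 262144) LL5 ff_5 = true := by decide +kernel

/-- constant vectors -/
theorem LC5 : LaneC LL5.flatten mk_5 cc_5 ff_5 := laneC_of msk5_eq len5'' c5a c5b c5c

lemma vec5a_0 : vecsCk (nat_lit 800) msk_5 t3_455F13a CD.m CD.q0 LL5 [v5a_0_0, v5a_0_1, v5a_0_2, v5a_0_3, v5a_0_4, v5a_0_5, v5a_0_6, v5a_0_7, v5a_0_8, v5a_0_9] = true := by decide +kernel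
lemma vec5a_1 : vecsCk (nat_lit 800) msk_5 t3_455F13a (fun _ => nat_lit 1) CD.q1 LL5 [v5a_1_0, v5a_1_1, v5a_1_2, v5a_1_3, v5a_1_4, v5a_1_5, v5a_1_6, v5a_1_7, v5a_1_8, v5a_1_9] = true := by decide +kernel
lemma vec5a_2 : vecsCk (nat_lit 800) msk_5 t3_455F13a CD.m CD.q2 LL5 [v5a_2_0, v5a_2_1, v5a_2_2, v5a_2_3, v5a_2_4, v5a_2_5, v5a_2_6, v5a_2_7, v5a_2_8, v5a_2_9] = true := by decide +kernel
lemma vec5a_3 : vecsCk (nat_lit 800) msk_5 t3_455F13a CD.m2 CD.q3 LL5 [v5a_3_0, v5a_3_1, v5a_3_2, v5a_3_3, v5a_3_4, v5a_3_5, v5a_3_6, v5a_3_7, v5a_3_8, v5a_3_9] = true := by decide +kernel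
lemma vec5a_4 : vecsCk (nat_lit 800) msk_5 t3_455F13a CD.m3 CD.q4 LL5 [v5a_4_0, v5a_4_1, v5a_4_2, v5a_4_3, v5a_4_4, v5a_4_5, v5a_4_6, v5a_4_7, v5a_4_8, v5a_4_9] = true := by decide +kernel
lemma bd5a : bndCk t3_455F13a (nat_lit 10) LL5 = true := by decide +kernel

/-- vectors modulo `5` -/
theorem LG5a : LaneG LL5.flatten t3_455F13a 10 G5a_0 G5a_1 G5a_2 G5a_3 G5a_4 :=
  laneG_of bd5a (by decide +kernel)
    (gath10_of (P := CD.m) msk5_eq len5'' vec5a_0 (fun D hD => (bndCk_spec bd5a D hD).2.2.2.1))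
    (gath10_of (P := (fun _ => nat_lit 1)) msk5_eq len5'' vec5a_1 (fun D hD => (bndCk_spec bd5a D hD).2.2.2.2.1))
    (gath10_of (P := CD.m) msk5_eq len5'' vec5a_2 (fun D hD => (bndCk_spec bd5a D hD).2.2.2.2.2.1))
    (gath10_of (P := CD.m2) msk5_eq len5'' vec5a_3 (fun D hD => (bndCk_spec bd5a D hD).2.2.2.2.2.2.1))
    (gath10_of (P := CD.m3) msk5_eq len5'' vec5a_4 (fun D hD => (bndCk_spec bd5a D hD).2.2.2.2.2.2.2))

lemma vec5b_0 : vecsCk (nat_lit 800) msk_5 t3_455F13b CD.m CD.q0 LL5 [v5b_0_0, v5b_0_1, v5b_0_2, v5b_0_3, v5b_0_4, v5b_0_5, v5b_0_6, v5b_0_7, v5b_0_8, v5b_0_9] = true := by decide +kernel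
lemma vec5b_1 : vecsCk (nat_lit 800) msk_5 t3_455F13b (fun _ => nat_lit 1) CD.q1 LL5 [v5b_1_0, v5b_1_1, v5b_1_2, v5b_1_3, v5b_1_4, v5b_1_5, v5b_1_6, v5b_1_7, v5b_1_8, v5b_1_9] = true := by decide +kernel
lemma vec5b_2 : vecsCk (nat_lit 800) msk_5 t3_455F13b CD.m CD.q2 LL5 [v5b_2_0, v5b_2_1, v5b_2_2, v5b_2_3, v5b_2_4, v5b_2_5, v5b_2_6, v5b_2_7, v5b_2_8, v5b_2_9] = true := by decide +kernel
lemma vec5b_3 : vecsCk (nat_lit 800) msk_5 t3_455F13b CD.m2 CD.q3 LL5 [v5b_3_0, v5b_3_1, v5b_3_2, v5b_3_3, v5b_3_4, v5b_3_5, v5b_3_6, v5b_3_7, v5b_3_8, v5b_3_9] = true := by decide +kernel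
lemma vec5b_4 : vecsCk (nat_lit 800) msk_5 t3_455F13b CD.m3 CD.q4 LL5 [v5b_4_0, v5b_4_1, v5b_4_2, v5b_4_3, v5b_4_4, v5b_4_5, v5b_4_6, v5b_4_7, v5b_4_8, v5b_4_9] = true := by decide +kernel
lemma bd5b : bndCk t3_455F13b (nat_lit 10) LL5 = true := by decide +kernel

/-- vectors modulo `5` -/
theorem LG5b : LaneG LL5.flatten t3_455F13b 10 G5b_0 G5b_1 G5b_2 G5b_3 G5b_4 :=
  laneG_of bd5b (by decide +kernel)
    (gath10_of (P := CD.m) msk5_eq len5'' vec5b_0 (fun D hD => (bndCk_spec bd5b D hD).2.2.2.1))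
    (gath10_of (P := (fun _ => nat_lit 1)) msk5_eq len5'' vec5b_1 (fun D hD => (bndCk_spec bd5b D hD).2.2.2.2.1))
    (gath10_of (P := CD.m) msk5_eq len5'' vec5b_2 (fun D hD => (bndCk_spec bd5b D hD).2.2.2.2.2.1))
    (gath10_of (P := CD.m2) msk5_eq len5'' vec5b_3 (fun D hD => (bndCk_spec bd5b D hD).2.2.2.2.2.2.1))
    (gath10_of (P := CD.m3) msk5_eq len5'' vec5b_4 (fun D hD => (bndCk_spec bd5b D hD).2.2.2.2.2.2.2))

lemma vec5c_0 : vecsCk (nat_lit 800) msk_5 t3_455F13c CD.m CD.q0 LL5 [v5c_0_0, v5c_0_1, v5c_0_2, v5c_0_3, v5c_0_4, v5c_0_5, v5c_0_6, v5c_0_7, v5c_0_8, v5c_0_9] = true := by decide +kernel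
lemma vec5c_1 : vecsCk (nat_lit 800) msk_5 t3_455F13c (fun _ => nat_lit 1) CD.q1 LL5 [v5c_1_0, v5c_1_1, v5c_1_2, v5c_1_3, v5c_1_4, v5c_1_5, v5c_1_6, v5c_1_7, v5c_1_8, v5c_1_9] = true := by decide +kernel
lemma vec5c_2 : vecsCk (nat_lit 800) msk_5 t3_455F13c CD.m CD.q2 LL5 [v5c_2_0, v5c_2_1, v5c_2_2, v5c_2_3, v5c_2_4, v5c_2_5, v5c_2_6, v5c_2_7, v5c_2_8, v5c_2_9] = true := by decide +kernel
lemma vec5c_3 : vecsCk (nat_lit 800) msk_5 t3_455F13c CD.m2 CD.q3 LL5 [v5c_3_0, v5c_3_1, v5c_3_2, v5c_3_3, v5c_3_4, v5c_3_5, v5c_3_6, v5c_3_7, v5c_3_8, v5c_3_9] = true := by decide +kernel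
lemma vec5c_4 : vecsCk (nat_lit 800) msk_5 t3_455F13c CD.m3 CD.q4 LL5 [v5c_4_0, v5c_4_1, v5c_4_2, v5c_4_3, v5c_4_4, v5c_4_5, v5c_4_6, v5c_4_7, v5c_4_8, v5c_4_9] = true := by decide +kernel
lemma bd5c : bndCk t3_455F13c (nat_lit 10) LL5 = true := by decide +kernel

/-- vectors modulo `5` -/
theorem LG5c : LaneG LL5.flatten t3_455F13c 10 G5c_0 G5c_1 G5c_2 G5c_3 G5c_4 :=
  laneG_of bd5c (by decide +kernel)
    (gath10_of (P := CD.m) msk5_eq len5'' vec5c_0 (fun D hD => (bndCk_spec bd5c D hD).2.2.2.1))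
    (gath10_of (P := (fun _ => nat_lit 1)) msk5_eq len5'' vec5c_1 (fun D hD => (bndCk_spec bd5c D hD).2.2.2.2.1))
    (gath10_of (P := CD.m) msk5_eq len5'' vec5c_2 (fun D hD => (bndCk_spec bd5c D hD).2.2.2.2.2.1))
    (gath10_of (P := CD.m2) msk5_eq len5'' vec5c_3 (fun D hD => (bndCk_spec bd5c D hD).2.2.2.2.2.2.1))
    (gath10_of (P := CD.m3) msk5_eq len5'' vec5c_4 (fun D hD => (bndCk_spec bd5c D hD).2.2.2.2.2.2.2))

lemma t3d_eq : t3_455F13d = t3_455F13c := rfl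
theorem LG5d : LaneG LL5.flatten t3_455F13d 10 G5c_0 G5c_1 G5c_2 G5c_3 G5c_4 := by
  rw [t3d_eq]; exact LG5c
lemma t3e_eq : t3_455F13e = t3_455F13c := rfl
theorem LG5e : LaneG LL5.flatten t3_455F13e 10 G5c_0 G5c_1 G5c_2 G5c_3 G5c_4 := by
  rw [t3e_eq]; exact LG5c

lemma rowB_455F13a : RowB rows_455F13a 210 := rowB_of (by decide +kernel : rowBck rows_455F13a (nat_lit 210) = true)
/-- bounds -/
theorem RB_a : RelB 7 t2_455F13a rows_455F13a 210 where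
  ht2 x hx := Nat.le_of_ble_eq_true (allR_spec
    (by decide +kernel : allR (fun x => Nat.ble (dig t2_455F13a x) (nat_lit 12)) (nat_lit 7) = true) x hx)
  h21 := by decide +kernel
  hrw := rowB_455F13a

lemma rowB_455F13b : RowB rows_455F13b 210 := rowB_of (by decide +kernel : rowBck rows_455F13b (nat_lit 210) = true)
/-- bounds -/
theorem RB_b : RelB 7 t2_455F13b rows_455F13b 210 where
  ht2 x hx := Nat.le_of_ble_eq_true (allR_spec
    (by decide +kernel : allR (fun x => Nat.ble (dig t2_455F13b x) (nat_lit 12)) (nat_lit 7) = true) x hx)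
  h21 := by decide +kernel
  hrw := rowB_455F13b

lemma rowB_455F13c : RowB rows_455F13c 210 := rowB_of (by decide +kernel : rowBck rows_455F13c (nat_lit 210) = true)
/-- bounds -/
theorem RB_c : RelB 7 t2_455F13c rows_455F13c 210 where
  ht2 x hx := Nat.le_of_ble_eq_true (allR_spec
    (by decide +kernel : allR (fun x => Nat.ble (dig t2_455F13c x) (nat_lit 12)) (nat_lit 7) = true) x hx)
  h21 := by decide +kernel
  hrw := rowB_455F13c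

lemma rowB_455F13d : RowB rows_455F13d 210 := rowB_of (by decide +kernel : rowBck rows_455F13d (nat_lit 210) = true)
/-- bounds -/
theorem RB_d : RelB 7 t2_455F13d rows_455F13d 210 where
  ht2 x hx := Nat.le_of_ble_eq_true (allR_spec
    (by decide +kernel : allR (fun x => Nat.ble (dig t2_455F13d x) (nat_lit 12)) (nat_lit 7) = true) x hx)
  h21 := by decide +kernel
  hrw := rowB_455F13d

lemma rowB_455F13e : RowB rows_455F13e 210 := rowB_of (by decide +kernel : rowBck rows_455F13e (nat_lit 210) = true)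
/-- bounds -/
theorem RB_e : RelB 7 t2_455F13e rows_455F13e 210 where
  ht2 x hx := Nat.le_of_ble_eq_true (allR_spec
    (by decide +kernel : allR (fun x => Nat.ble (dig t2_455F13e x) (nat_lit 12)) (nat_lit 7) = true) x hx)
  h21 := by decide +kernel
  hrw := rowB_455F13e

end Pool.Agent.Lib_helper5.P7


end

section

/-! generated: checks of the classes and vectors modulo 7 -/

namespace Pool.Agent.Lib_helper5.P7

open LK TB Lane Pool.Agent.LibH4 Pool.Agent.LibH4.Ker Pool.Agent.LibH4.T6 Pool.Agent.LibH4.S7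

lemma len7 : allL (fun b : List CD => Nat.beq b.length (nat_lit 49)) LL7 = true := by decide +kernel
lemma len7' : ∀ b ∈ LL7, b.length = 49 := fun b hb => Nat.eq_of_beq_eq_true (allL_spec len7 b hb)
lemma len7'' : ∀ b ∈ LL7, 32 * b.length = 1568 := fun b hb => by rw [len7' b hb]
lemma nb7 : LL7.length = 28 := by decide +kernel
lemma msk7_eq : msk_7 = 2 ^ 1568 - 1 := by decide +kernel

/-- all classes modulo `7` are in the list -/
lemma compl7 : complCk (nat_lit 7) (nat_lit 5) PT7 (adP (nat_lit 7)) (nat_lit 49) (nat_lit 28) ix_7 LL7 = true := by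
  decide +kernel

lemma c7a : vecCk (nat_lit 1568) msk_7 (fun _ => nat_lit 262143) LL7 mk_7 = true := by decide +kernel
lemma c7b : vecCk (nat_lit 1568) msk_7 (fun _ => nat_lit 282308) LL7 cc_7 = true := by decide +kernel
lemma c7c : vecCk (nat_lit 1568) msk_7 (fun _ => nat_lit 262144) LL7 ff_7 = true := by decide +kernel

/-- constant vectors -/
theorem LC7 : LaneC LL7.flatten mk_7 cc_7 ff_7 := laneC_of msk7_eq len7'' c7a c7b c7c

lemma vec7_0 : vecsCk (nat_lit 1568) msk_7 t2_91F13 CD.m CD.q0 LL7 I7_0 = true := by decide +kernel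
lemma li7_0 : I7_0.length = 21 := by decide +kernel
lemma vec7_1 : vecsCk (nat_lit 1568) msk_7 t2_91F13 (fun _ => nat_lit 1) CD.q1 LL7 I7_1 = true := by decide +kernel
lemma li7_1 : I7_1.length = 21 := by decide +kernel
lemma vec7_2 : vecsCk (nat_lit 1568) msk_7 t2_91F13 CD.m CD.q2 LL7 I7_2 = true := by decide +kernel
lemma li7_2 : I7_2.length = 21 := by decide +kernel
lemma vec7_3 : vecsCk (nat_lit 1568) msk_7 t2_91F13 CD.m2 CD.q3 LL7 I7_3 = true := by decide +kernel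
lemma li7_3 : I7_3.length = 21 := by decide +kernel
lemma vec7_4 : vecsCk (nat_lit 1568) msk_7 t2_91F13 CD.m3 CD.q4 LL7 I7_4 = true := by decide +kernel
lemma li7_4 : I7_4.length = 21 := by decide +kernel
lemma bd7 : bndCk t2_91F13 (nat_lit 21) LL7 = true := by decide +kernel

/-- vectors modulo `7` -/
theorem LG7 : LaneG LL7.flatten t2_91F13 21 (gat I7_0) (gat I7_1) (gat I7_2) (gat I7_3) (gat I7_4) :=
  laneG_of bd7 (by decide +kernel)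
    (gathL_of (P := CD.m) msk7_eq len7'' vec7_0 (fun D hD => by
      rw [li7_0]; exact (bndCk_spec bd7 D hD).2.2.2.1))
    (gathL_of (P := (fun _ => nat_lit 1)) msk7_eq len7'' vec7_1 (fun D hD => by
      rw [li7_1]; exact (bndCk_spec bd7 D hD).2.2.2.2.1))
    (gathL_of (P := CD.m) msk7_eq len7'' vec7_2 (fun D hD => by
      rw [li7_2]; exact (bndCk_spec bd7 D hD).2.2.2.2.2.1))
    (gathL_of (P := CD.m2) msk7_eq len7'' vec7_3 (fun D hD => by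
      rw [li7_3]; exact (bndCk_spec bd7 D hD).2.2.2.2.2.2.1))
    (gathL_of (P := CD.m3) msk7_eq len7'' vec7_4 (fun D hD => by
      rw [li7_4]; exact (bndCk_spec bd7 D hD).2.2.2.2.2.2.2))

lemma rowB_91F13 : RowB rows_91F13 21 := rowB_of (by decide +kernel : rowBck rows_91F13 (nat_lit 21) = true)

end Pool.Agent.Lib_helper5.P7


end

section

/-!
The search modulo `13`, `7`, `5`: the test of a class modulo `13`.
-/

namespace Pool.Agent.Lib_helper5.P7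

open LK TB Lane Pool.Agent.LibH4 Pool.Agent.LibH4.Ker Pool.Agent.LibH4.T6 Pool.Agent.LibH4.S7

/-- test of a class modulo `13` -/
noncomputable def cls13 (leaf : CD → CD → Bool)
    (m m2 m3 al0 al1 al2 al3 q0 q1 q2 q3 q4 : ℕ) : Bool :=
  clsG tb_l (nat_lit 80) (nat_lit 1568) (nat_lit 49) (nat_lit 800) (nat_lit 25)
    mk_5 cc_5 ff_5 msk_5 mk_7 cc_7 ff_7 msk_7 LL5 LL7
    t1_91F13 rows_91F13 (gat I7_0) (gat I7_1) (gat I7_2) (gat I7_3) (gat I7_4)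
    t1_455F13a t2_455F13a rows_455F13a G5a_0 G5a_1 G5a_2 G5a_3 G5a_4
    t1_455F13b t2_455F13b rows_455F13b G5b_0 G5b_1 G5b_2 G5b_3 G5b_4
    t1_455F13c t2_455F13c rows_455F13c G5c_0 G5c_1 G5c_2 G5c_3 G5c_4
    t1_455F13d t2_455F13d rows_455F13d G5c_0 G5c_1 G5c_2 G5c_3 G5c_4
    t1_455F13e t2_455F13e rows_455F13e G5c_0 G5c_1 G5c_2 G5c_3 G5c_4
    leaf m m2 m3 al0 al1 al2 al3 q0 q1 q2 q3 q4

lemma tb_ok : ∀ j, 32 * j < nat_lit 1568 → tb_l / 2 ^ (32 * j + 18) % 256 = j := by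
  have h : allR (fun j => Nat.beq (Nat.mod (Nat.div tb_l (Nat.pow (nat_lit 2)
    (Nat.add (Nat.mul (nat_lit 32) j) (nat_lit 18)))) (nat_lit 256)) j) (nat_lit 49) = true := by
    decide +kernel
  intro j hj
  have hj' : 32 * j < 1568 := hj
  exact Nat.eq_of_beq_eq_true (allR_spec h j (show j < 49 by omega))

lemma dig3_91 : dig t3_91F13 0 = 1 := by decide +kernel

theorem cls13_spec {Q : ℕ} {a b c B m : ℤ} (S : Sys Q a b c B m) (hQ : 455 ∣ Q)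
    {leaf : CD → CD → Bool}
    (h : cls13 leaf (cdx 13 11 PT13 a b c B m).m
      (cdx 13 11 PT13 a b c B m).m2 (cdx 13 11 PT13 a b c B m).m3 (rs 13 (-B)) (rs 13 (-(2 * a)))
      (rs 13 (-(2 * b))) (rs 13 (-(2 * c))) (cdx 13 11 PT13 a b c B m).q0
      (cdx 13 11 PT13 a b c B m).q1 (cdx 13 11 PT13 a b c B m).q2 (cdx 13 11 PT13 a b c B m).q3
      (cdx 13 11 PT13 a b c B m).q4 = true) :
    leaf (cdx 7 5 PT7 a b c B m) (cdx 5 3 PT5 a b c B m) = true := by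
  have hQ6 : 455 ^ 6 ∣ Q ^ 6 := pow_dvd_pow_of_dvd hQ 6
  have hd : 13 * 7 * 5 * 2197 ∣ Q ^ 6 := (by norm_num : 13 * 7 * 5 * 2197 ∣ 455 ^ 6).trans hQ6
  have hd7 : 13 * 7 * 1 * 2197 ∣ Q ^ 6 := (by norm_num : 13 * 7 * 1 * 2197 ∣ 455 ^ 6).trans hQ6
  have h35 : 35 ∣ Q := (by norm_num : 35 ∣ 455).trans hQ
  unfold cls13 at h
  exact clsG_main (w7 := 1568) (w5 := 800) (bl7 := 49) (bl5 := 25) (n7 := 28) (n5 := 10)
    (t3 := t3_91F13) S h35 h tb_ok (show 800 ≤ 1568 by norm_num) msk7_eq msk5_eq len7' rfl len5' rfl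
    nb7 nb5 compl7 compl5 bd7 dig3_91 rowB_91F13 LC7 LG7 LC5 (rel_91F13 S hd7)
    LG5a RB_a (rel_455F13a S hd) LG5b RB_b (rel_455F13b S hd) LG5c RB_c (rel_455F13c S hd)
    LG5d RB_d (rel_455F13d S hd) LG5e RB_e (rel_455F13e S hd)

end Pool.Agent.Lib_helper5.P7


end

section

/-!
The loop over the classes modulo `13` with given normalised form.
-/

namespace Pool.Agent.Lib_helper5.P7

open LK TB Lane Pool.Agent.LibH4 Pool.Agent.LibH4.Ker Pool.Agent.LibH4.T6 Pool.Agent.LibH4.S7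

/-- loop over `c` -/
noncomputable def lpC (m2 m3 R3 s3 : ℕ) (body : ℕ → ℕ → ℕ → Bool) : Bool :=
  allR (fun c => @Bool.rec (fun _ => Bool) true (
      strict (v3 (nat_lit 13) c m3 R3) fun R4 =>
      strict (ng (nat_lit 13) (Nat.mul (nat_lit 2) c)) fun al3 =>
      strict (pos (nat_lit 13) (nat_lit 11) PT13 m3 R4 s3) fun q4 => body c al3 q4)
    (Nat.beq (Nat.mod (Nat.mul m3 (Nat.add (nat_lit 1) (Nat.mul c c))) (nat_lit 13))
      (Nat.mod (Nat.add m2 (Nat.mul R3 c)) (nat_lit 13)))) (nat_lit 13)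

/-- loop over `b` -/
noncomputable def lpB (okb : ℕ → Bool) (m m2 R2 : ℕ)
    (body : ℕ → ℕ → ℕ → ℕ → ℕ → ℕ → ℕ → Bool) : Bool :=
  allR (fun b => @Bool.rec (fun _ => Bool) true (
      strict (u3 (nat_lit 13) b m m2 R2) fun m3 =>
      strict (v3 (nat_lit 13) b m2 R2) fun R3 =>
      strict (ng (nat_lit 13) (Nat.mul (nat_lit 2) b)) fun al2 =>
      strict (ng (nat_lit 13) m3) fun s3 =>
      strict (pos (nat_lit 13) (nat_lit 11) PT13 m2 R3 s3) fun q3 =>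
        lpC m2 m3 R3 s3 (body b m3 al2 q3)) (okb b)) (nat_lit 13)

/-- loop over `a` -/
noncomputable def lpA (m m2 R2 : ℕ) (body : ℕ → ℕ → ℕ → ℕ → ℕ → ℕ → Bool) : Bool :=
  allR (fun a => @Bool.rec (fun _ => Bool) true (
      strict (Nat.mod (Nat.add (Nat.mul (nat_lit 2) (Nat.mul a m)) (Nat.mul (nat_lit 12) R2))
        (nat_lit 13)) fun B =>
      strict (ng (nat_lit 13) B) fun al0 =>
      strict (ng (nat_lit 13) (Nat.mul (nat_lit 2) a)) fun al1 =>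
      strict (pos (nat_lit 13) (nat_lit 11) PT13 m B (nat_lit 12)) fun q0 =>
      strict (pos (nat_lit 13) (nat_lit 11) PT13 (nat_lit 1) B (ng (nat_lit 13) m)) fun q1 =>
        body a B al0 al1 q0 q1)
    (Nat.beq (Nat.mod (Nat.add (nat_lit 1) (Nat.mul m (Nat.mul a a))) (nat_lit 13))
      (Nat.mod (Nat.add m2 (Nat.mul R2 a)) (nat_lit 13)))) (nat_lit 13)

/-- loop over the classes modulo `13` with given `R, S` -/
noncomputable def grp (R S : ℕ) (okb : ℕ → Bool)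
    (body : ℕ → ℕ → ℕ → ℕ → ℕ → ℕ → ℕ → ℕ → ℕ → ℕ → ℕ → ℕ → ℕ → ℕ → ℕ → ℕ → Bool) : Bool :=
  allR (fun m' => strict (Nat.succ m') fun m =>
    strict (Nat.mod (Nat.mul R m) (nat_lit 13)) fun R2 =>
    strict (Nat.mod (Nat.mul (Nat.sub (nat_lit 13) S) m) (nat_lit 13)) fun m2 =>
    strict (pos (nat_lit 13) (nat_lit 11) PT13 m R2 (ng (nat_lit 13) m2)) fun q2 =>
    lpA m m2 R2 fun a B al0 al1 q0 q1 => lpB okb m m2 R2 fun b m3 al2 q3 c al3 q4 =>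
      body a b c B m m2 m3 al0 al1 al2 al3 q0 q1 q2 q3 q4) (nat_lit 12)

lemma bt {x y : Bool} (h : @Bool.rec (fun _ => Bool) true x y = true) (hy : y = true) :
    x = true := by subst hy; exact h

lemma beqt {x y : ℕ} (h : x = y) : Nat.beq x y = true := by subst h; exact Nat.beq_refl x

section

variable {a b c B m : ℤ}

lemma lpC_spec {body : ℕ → ℕ → ℕ → Bool} (hcl : Cl a b c B m)
    (h : lpC (rs 13 (y2 a B m)) (rs 13 (y3 a b B m)) (rs 13 (r3 a b B m)) (rs 13 (-y3 a b B m))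
      body = true) :
    body (rs 13 c) (rs 13 (-(2 * c))) (cdx 13 11 PT13 a b c B m).q4 = true := by
  have h1 := allR_spec h (rs 13 c) (rs_lt (p := 13) c)
  have e1 : (rs 13 (y3 a b B m) * (1 + rs 13 c * rs 13 c)) % 13 =
      rs 13 (y3 a b B m * (1 + c * c)) := by
    apply rs_of; push_cast; simp only [rs_cast]
  have e2 : (rs 13 (y2 a B m) + rs 13 (r3 a b B m) * rs 13 c) % 13 =
      rs 13 (y2 a B m + r3 a b B m * c) := by
    apply rs_of; push_cast; simp only [rs_cast]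
  have e : Nat.beq (Nat.mod (Nat.mul (rs 13 (y3 a b B m)) (Nat.add (nat_lit 1)
      (Nat.mul (rs 13 c) (rs 13 c)))) (nat_lit 13)) (Nat.mod (Nat.add (rs 13 (y2 a B m))
      (Nat.mul (rs 13 (r3 a b B m)) (rs 13 c))) (nat_lit 13)) = true :=
    beqt (e1.trans ((congrArg (rs 13) hcl).trans e2.symm))
  have h2 := bt h1 e
  simp only [strict_eq] at h2
  rw [ng2_eq (n := 13) c, v4_eq (n := 13)] at h2
  exact h2

lemma lpB_spec {okb : ℕ → Bool} {body : ℕ → ℕ → ℕ → ℕ → ℕ → ℕ → ℕ → Bool} (hcl : Cl a b c B m)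
    (hb : okb (rs 13 b) = true)
    (h : lpB okb (rs 13 m) (rs 13 (y2 a B m)) (rs 13 (r2 a B m)) body = true) :
    body (rs 13 b) (rs 13 (y3 a b B m)) (rs 13 (-(2 * b))) (cdx 13 11 PT13 a b c B m).q3
      (rs 13 c) (rs 13 (-(2 * c))) (cdx 13 11 PT13 a b c B m).q4 = true := by
  have h1 := bt (allR_spec h (rs 13 b) (rs_lt (p := 13) b)) hb
  simp only [strict_eq] at h1
  rw [ng2_eq (n := 13) b, v3_eq (n := 13), u3_eq (n := 13), ng_eq (n := 13)] at h1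
  exact lpC_spec hcl h1

lemma lpA_spec {body : ℕ → ℕ → ℕ → ℕ → ℕ → ℕ → Bool}
    (h : lpA (rs 13 m) (rs 13 (y2 a B m)) (rs 13 (r2 a B m)) body = true) :
    body (rs 13 a) (rs 13 B) (rs 13 (-B)) (rs 13 (-(2 * a))) (cdx 13 11 PT13 a b c B m).q0
      (cdx 13 11 PT13 a b c B m).q1 = true := by
  have h1 := allR_spec h (rs 13 a) (rs_lt (p := 13) a)
  have e1 : (1 + rs 13 m * (rs 13 a * rs 13 a)) % 13 = rs 13 (1 + m * (a * a)) := by
    apply rs_of; push_cast; simp only [rs_cast]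
  have e2 : (rs 13 (y2 a B m) + rs 13 (r2 a B m) * rs 13 a) % 13 =
      rs 13 (y2 a B m + r2 a B m * a) := by
    apply rs_of; push_cast; simp only [rs_cast]
  have e3 : 1 + m * (a * a) = y2 a B m + r2 a B m * a := by unfold y2 r2; ring
  have h2 := bt h1 (beqt (e1.trans ((congrArg (rs 13) e3).trans e2.symm)))
  have e4 : Nat.mod (Nat.add (Nat.mul (nat_lit 2) (Nat.mul (rs 13 a) (rs 13 m)))
      (Nat.mul (nat_lit 12) (rs 13 (r2 a B m)))) (nat_lit 13) = rs 13 B := by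
    change (2 * (rs 13 a * rs 13 m) + 12 * rs 13 (r2 a B m)) % 13 = _
    apply rs_of
    push_cast
    simp only [rs_cast]
    unfold r2
    push_cast
    have : (13 : ZMod 13) = 0 := by decide
    linear_combination ((2 * (a * m) - B : ZMod 13)) * this
  simp only [strict_eq] at h2
  rw [ng2_eq (n := 13) a, e4, ng_eq (n := 13), ng_eq (n := 13)] at h2
  exact h2

theorem grp_spec {R S : ℕ} {okb : ℕ → Bool}
    {body : ℕ → ℕ → ℕ → ℕ → ℕ → ℕ → ℕ → ℕ → ℕ → ℕ → ℕ → ℕ → ℕ → ℕ → ℕ → ℕ → Bool}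
    (h : grp R S okb body = true) (hcl : Cl a b c B m) (hm : rs 13 m ≠ 0)
    (hr : rs 13 (r2 a B m) = R * rs 13 m % 13) (hs : rs 13 (-y2 a B m) = S * rs 13 m % 13)
    (hS : S < 13) (hb : okb (rs 13 b) = true) :
    body (rs 13 a) (rs 13 b) (rs 13 c) (rs 13 B) (rs 13 m) (rs 13 (y2 a B m))
      (rs 13 (y3 a b B m)) (rs 13 (-B)) (rs 13 (-(2 * a))) (rs 13 (-(2 * b)))
      (rs 13 (-(2 * c))) (cdx 13 11 PT13 a b c B m).q0 (cdx 13 11 PT13 a b c B m).q1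
      (cdx 13 11 PT13 a b c B m).q2 (cdx 13 11 PT13 a b c B m).q3
      (cdx 13 11 PT13 a b c B m).q4 = true := by
  have hlt := rs_lt (p := 13) m
  have h1 := allR_spec h (rs 13 m - 1) (show rs 13 m - 1 < 12 by omega)
  simp only [strict_eq] at h1
  have e0 : Nat.succ (rs 13 m - 1) = rs 13 m := by omega
  have e1 : Nat.mod (Nat.mul R (rs 13 m)) (nat_lit 13) = rs 13 (r2 a B m) := hr.symm
  have e2 : Nat.mod (Nat.mul (Nat.sub (nat_lit 13) S) (rs 13 m)) (nat_lit 13) =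
      rs 13 (y2 a B m) := by
    change (13 - S) * rs 13 m % 13 = _
    apply rs_of
    have h3 : ((S * rs 13 m : ℕ) : ZMod 13) = ((-y2 a B m : ℤ) : ZMod 13) := by
      rw [← rs_cast (p := 13) (-y2 a B m), hs, ZMod.natCast_mod]
    have h4 : ((13 - S : ℕ) : ZMod 13) = -(S : ZMod 13) := by
      rw [Nat.cast_sub hS.le]
      have : ((13 : ℕ) : ZMod 13) = 0 := by decide
      rw [this, zero_sub]
    rw [Nat.cast_mul, h4]
    push_cast at h3 ⊢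
    linear_combination -h3
  rw [e0, e1, e2, ng_eq (n := 13)] at h1
  exact lpB_spec hcl hb (lpA_spec (b := b) (c := c) h1)

end

end Pool.Agent.Lib_helper5.P7


end

section

/-!
Period seven, the prime 13: normalisation of the third form of a point up to sign.
-/

namespace Pool.Agent.Lib_helper84.P7

open Finset Pool.Agent.Lib_helper5 Pool.Agent.Lib_helper5.LK Pool.Agent.Lib_helper5.TB
  Pool.Agent.LibH4 Pool.Agent.LibH4.Ker Pool.Agent.LibH4.T6 Pool.Agent.LibH4.KF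
  Pool.Agent.LibH4.S7

/-- the normalised third forms modulo 13, up to sign -/
def GR : List (ℕ × ℕ) := [(0,2),(0,5),(0,6),(0,7),(0,8),(0,11),
  (1,2),(1,3),(1,4),(1,5),(1,8),(1,12),
  (2,3),(2,6),(2,7),(2,8),(2,9),(2,12),
  (3,1),(3,4),(3,5),(3,6),(3,7),(3,10),
  (4,2),(4,6),(4,9),(4,10),(4,11),(4,12),
  (5,1),(5,5),(5,8),(5,9),(5,10),(5,11),
  (6,1),(6,2),(6,3),(6,4),(6,7),(6,11)]

/-- the third form of a point is `(1, R, S)` up to scaling -/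
def G13 (R S : ℕ) (a b B m : ℤ) : Prop :=
  rs 13 m ≠ 0 ∧ rs 13 (r2 a B m) = R * rs 13 m % 13 ∧
    rs 13 (-y2 a B m) = S * rs 13 m % 13 ∧ (R = 0 → rs 13 b ≤ 6)

lemma GR_split : ∀ x ∈ F13, (x.1 = 0 ∧ x ∈ GR) ∨ (0 < x.1 ∧ x.1 ≤ 6 ∧ x ∈ GR) ∨
    (7 ≤ x.1 ∧ x.1 < 13 ∧ (13 - x.1, x.2) ∈ GR) := by
  decide +kernel

lemma rs_neg13 (x : ℤ) (h : 7 ≤ rs 13 x) : rs 13 (-x) ≤ 6 := by
  have h1 : rs 13 x < 13 := rs_lt x
  have h2 : (13 - rs 13 x) % 13 = rs 13 (-x) := by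
    apply rs_of
    rw [Nat.cast_sub h1.le, rs_cast, ZMod.natCast_self]
    push_cast; ring
  omega

/-- normalisation of the third form modulo 13 -/
theorem norm13 {Q : ℕ} {a b c B m : ℤ} (H : Sys Q a b c B m) (hQ : 13 ∣ Q) :
    (∃ g ∈ GR, G13 g.1 g.2 a b B m) ∨ (∃ g ∈ GR, G13 g.1 g.2 (-a) (-b) (-B) m) := by
  have hA : adP 13 (rs 13 m) (rs 13 (r2 a B m)) (rs 13 (-y2 a B m)) = true :=
    adP_of H (by norm_num) (by norm_num) hQ ⟨m, r2 a B m, -y2 a B m, 6, -(2 * b)⟩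
      (by simp [J7])
  obtain ⟨h1, h2⟩ := comp13.ok _ _ _ (rs_lt m) (rs_lt (r2 a B m)) (rs_lt (-y2 a B m)) hA
  have h3 := List.mem_of_getElem? h2
  set P := rs 13 m with hP
  set i := iv 13 11 P with hi
  have hP0 : P ≠ 0 := by
    intro h0
    rw [h0] at h1
    simp at h1
  have h1' : ((P : ℕ) : ZMod 13) * ((i : ℕ) : ZMod 13) = 1 := by
    have := congrArg (fun n : ℕ => (n : ZMod 13)) h1
    simp only [ZMod.natCast_mod, Nat.cast_mul, Nat.cast_one] at this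
    exact this
  have key : ∀ x : ℤ, (rs 13 x * i % 13) * P % 13 = rs 13 x := by
    intro x
    apply rs_of
    rw [Nat.cast_mul, ZMod.natCast_mod, Nat.cast_mul, rs_cast]
    linear_combination ((x : ℤ) : ZMod 13) * h1'
  have kR := key (r2 a B m)
  have kS := key (-y2 a B m)
  rcases GR_split _ h3 with ⟨e, g⟩ | ⟨e1, e2, g⟩ | ⟨e1, e2, g⟩
  · by_cases hb : rs 13 b ≤ 6
    · exact Or.inl ⟨_, g, hP0, kR.symm, kS.symm, fun _ => hb⟩
    · refine Or.inr ⟨_, g, hP0, ?_, ?_, fun _ => ?_⟩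
      · rw [r2_neg]
        simp only at e ⊢
        rw [e] at kR ⊢
        have : ((rs 13 (r2 a B m) : ℕ) : ZMod 13) = 0 := by rw [← kR]; simp
        rw [rs_cast] at this
        symm
        apply rs_of
        push_cast
        rw [this]; simp
      · rw [y2_neg]; exact kS.symm
      · exact rs_neg13 b (by omega)
  · exact Or.inl ⟨_, g, hP0, kR.symm, kS.symm, fun h => absurd h (by simp only at e1 ⊢; omega)⟩
  · refine Or.inr ⟨_, g, hP0, ?_, ?_, fun h => ?_⟩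
    · rw [r2_neg]
      simp only at e1 e2 ⊢
      symm
      apply rs_of
      have e3 : ((rs 13 (r2 a B m) * i % 13 : ℕ) : ZMod 13) * (P : ZMod 13) =
          ((r2 a B m : ℤ) : ZMod 13) := by
        rw [ZMod.natCast_mod, Nat.cast_mul, rs_cast]
        linear_combination ((r2 a B m : ℤ) : ZMod 13) * h1'
      rw [Nat.cast_mul, Nat.cast_sub e2.le, ZMod.natCast_self]
      push_cast
      linear_combination (-1 : ZMod 13) * e3
    · rw [y2_neg]; exact kS.symm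
    · simp only at e2 h
      omega

end Pool.Agent.Lib_helper84.P7


end

section

/-!
The search modulo `13`, `7`, `5`: the check of a group.
-/

namespace Pool.Agent.Lib_helper5.P7

open LK TB Lane Pool.Agent.LibH4 Pool.Agent.LibH4.Ker Pool.Agent.LibH4.T6 Pool.Agent.LibH4.S7
  Pool.Agent.Lib_helper84.P7 Pool.Agent.Lib_helper29.P7A

/-- filter of `b` -/
noncomputable def okR (R b : ℕ) : Bool :=
  @Nat.rec (fun _ => Bool) (Nat.ble b (nat_lit 6)) (fun _ _ => true) R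

/-- the check of a group -/
noncomputable def GC (R S : ℕ) (T : TriL) : Bool :=
  grp R S (okR R) (fun a b c B m m2 m3 al0 al1 al2 al3 q0 q1 q2 q3 q4 =>
    cls13 (lf T a b c B m) m m2 m3 al0 al1 al2 al3 q0 q1 q2 q3 q4)

theorem GC_spec {Q : ℕ} {a b c B m : ℤ} (S : Sys Q a b c B m) (hQ : 455 ∣ Q) {R s : ℕ} {T : TriL}
    (hs : s < 13) (h : GC R s T = true) (hG : G13 R s a b B m) :
    InT (cd 13 a b c B m) (cd 7 a b c B m) (cd 5 a b c B m) T ∨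
    InT (cd 13 (-a) (-b) (-c) (-B) m) (cd 7 (-a) (-b) (-c) (-B) m)
      (cd 5 (-a) (-b) (-c) (-B) m) T := by
  obtain ⟨h0, h1, h2, h3⟩ := hG
  have hok : okR R (rs 13 b) = true := by
    cases R with
    | zero => exact Nat.ble_eq_true_of_le (h3 rfl)
    | succ R => rfl
  exact lf_spec (cls13_spec S hQ (grp_spec h S.cl h0 h1 h2 hs hok))

end Pool.Agent.Lib_helper5.P7


end

section

/-! generated: groups of classes modulo `13` -/

namespace Pool.Agent.Lib_helper5.P7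

/-- group (0, 2) -/
theorem ga_0 : GC (nat_lit 0) (nat_lit 2) TRI_0 = true := by decide +kernel
/-- group (0, 5) -/
theorem ga_1 : GC (nat_lit 0) (nat_lit 5) TRI_1 = true := by decide +kernel
/-- group (0, 6) -/
theorem ga_2 : GC (nat_lit 0) (nat_lit 6) TRI_2 = true := by decide +kernel

end Pool.Agent.Lib_helper5.P7


end
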