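import Mathlib
import Pool.Agent.RQM.C93
import Pool.Agent.RQM.C97

/-! Parts: SU.W2, SU.W5 -/

section

/-! generated: parts of the tree -/

namespace Pool.Agent.SU

set_option maxRecDepth 100000

def w106 : PLift (pc FF 10000 [] 5818 80 = true) := ⟨by decide +kernel⟩
def w107 : PLift (pc FF 10000 [] 5898 80 = true) := ⟨by decide +kernel⟩
def w108 : PLift (pc FF 10000 [] 5978 80 = true) := ⟨by decide +kernel⟩
def w109 : PLift (pc FF 10000 [] 6058 80 = true) := ⟨by decide +kernel⟩
def w110 : PLift (pc FF 10000 [] 6138 80 = true) := ⟨by decide +kernel⟩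
def w111 : PLift (pc FF 10000 [] 6218 80 = true) := ⟨by decide +kernel⟩
def w112 : PLift (pc FF 10000 [] 6298 80 = true) := ⟨by decide +kernel⟩
def w113 : PLift (pc FF 10000 [] 6378 80 = true) := ⟨by decide +kernel⟩
def w114 : PLift (pc FF 10000 [] 6458 80 = true) := ⟨by decide +kernel⟩
def w115 : PLift (pc FF 10000 [] 6538 80 = true) := ⟨by decide +kernel⟩
def w116 : PLift (pc FF 10000 [] 6618 80 = true) := ⟨by decide +kernel⟩
def w117 : PLift (pc FF 10000 [] 6698 80 = true) := ⟨by decide +kernel⟩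
def w118 : PLift (pc FF 10000 [] 6778 80 = true) := ⟨by decide +kernel⟩
def w119 : PLift (pc FF 10000 [] 6858 80 = true) := ⟨by decide +kernel⟩
def w120 : PLift (pc FF 10000 [] 6938 80 = true) := ⟨by decide +kernel⟩
def w121 : PLift (pc FF 10000 [] 7018 80 = true) := ⟨by decide +kernel⟩
def w122 : PLift (pc FF 10000 [] 7098 80 = true) := ⟨by decide +kernel⟩
def w123 : PLift (pc FF 10000 [] 7178 80 = true) := ⟨by decide +kernel⟩
def w124 : PLift (pc FF 10000 [] 7258 80 = true) := ⟨by decide +kernel⟩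
def w125 : PLift (pc FF 10000 [] 7338 80 = true) := ⟨by decide +kernel⟩
def w126 : PLift (pc FF 10000 [] 7418 80 = true) := ⟨by decide +kernel⟩
def w127 : PLift (pc FF 10000 [] 7498 80 = true) := ⟨by decide +kernel⟩
def w128 : PLift (pc FF 10000 [] 7578 80 = true) := ⟨by decide +kernel⟩
def w129 : PLift (pc FF 10000 [] 7658 80 = true) := ⟨by decide +kernel⟩
def w130 : PLift (pc FF 10000 [] 7738 80 = true) := ⟨by decide +kernel⟩
def w131 : PLift (pc FF 10000 [] 7818 80 = true) := ⟨by decide +kernel⟩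
def w132 : PLift (pc FF 10000 [] 7898 80 = true) := ⟨by decide +kernel⟩
def w133 : PLift (pc FF 10000 [] 7978 80 = true) := ⟨by decide +kernel⟩
def w134 : PLift (pc FF 10000 [] 8058 80 = true) := ⟨by decide +kernel⟩
def w135 : PLift (pc FF 10000 [] 8138 80 = true) := ⟨by decide +kernel⟩
def w136 : PLift (pc FF 10000 [] 8218 80 = true) := ⟨by decide +kernel⟩
def w137 : PLift (pc FF 10000 [] 8298 80 = true) := ⟨by decide +kernel⟩
def w138 : PLift (pc FF 10000 [] 8378 80 = true) := ⟨by decide +kernel⟩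
def w139 : PLift (pc FF 10000 [] 8458 80 = true) := ⟨by decide +kernel⟩
def w140 : PLift (pc FF 10000 [] 8538 80 = true) := ⟨by decide +kernel⟩
def w141 : PLift (pc FF 10000 [] 8618 80 = true) := ⟨by decide +kernel⟩
def w142 : PLift (pc FF 10000 [] 8698 80 = true) := ⟨by decide +kernel⟩
def w143 : PLift (pc FF 10000 [] 8778 80 = true) := ⟨by decide +kernel⟩
def w144 : PLift (pc FF 10000 [] 8858 80 = true) := ⟨by decide +kernel⟩
def w145 : PLift (pc FF 10000 [] 8938 80 = true) := ⟨by decide +kernel⟩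
def w146 : PLift (pc FF 10000 [] 9018 80 = true) := ⟨by decide +kernel⟩
def w147 : PLift (pc FF 10000 [] 9098 80 = true) := ⟨by decide +kernel⟩
def w148 : PLift (pc FF 10000 [] 9178 80 = true) := ⟨by decide +kernel⟩
def w149 : PLift (pc FF 10000 [] 9258 80 = true) := ⟨by decide +kernel⟩
def w150 : PLift (pc FF 10000 [] 9338 80 = true) := ⟨by decide +kernel⟩

end Pool.Agent.SU


end

section

/-! generated: parts of the tree -/

namespace Pool.Agent.SU

set_option maxRecDepth 100000

def w257 : PLift (pc FF 10000 [1] 5257 80 = true) := ⟨by decide +kernel⟩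
def w258 : PLift (pc FF 10000 [1] 5337 80 = true) := ⟨by decide +kernel⟩
def w259 : PLift (pc FF 10000 [1] 5417 80 = true) := ⟨by decide +kernel⟩
def w260 : PLift (pc FF 10000 [1] 5497 80 = true) := ⟨by decide +kernel⟩
def w261 : PLift (pc FF 10000 [1] 5577 80 = true) := ⟨by decide +kernel⟩
def w262 : PLift (pc FF 10000 [1] 5657 80 = true) := ⟨by decide +kernel⟩
def w263 : PLift (pc FF 10000 [1] 5737 80 = true) := ⟨by decide +kernel⟩
def w264 : PLift (pc FF 10000 [1] 5817 80 = true) := ⟨by decide +kernel⟩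
def w265 : PLift (pc FF 10000 [1] 5897 80 = true) := ⟨by decide +kernel⟩
def w266 : PLift (pc FF 10000 [1] 5977 80 = true) := ⟨by decide +kernel⟩
def w267 : PLift (pc FF 10000 [1] 6057 80 = true) := ⟨by decide +kernel⟩
def w268 : PLift (pc FF 10000 [1] 6137 80 = true) := ⟨by decide +kernel⟩
def w269 : PLift (pc FF 10000 [1] 6217 80 = true) := ⟨by decide +kernel⟩
def w270 : PLift (pc FF 10000 [1] 6297 80 = true) := ⟨by decide +kernel⟩
def w271 : PLift (pc FF 10000 [1] 6377 80 = true) := ⟨by decide +kernel⟩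
def w272 : PLift (pc FF 10000 [1] 6457 80 = true) := ⟨by decide +kernel⟩
def w273 : PLift (pc FF 10000 [1] 6537 80 = true) := ⟨by decide +kernel⟩
def w274 : PLift (pc FF 10000 [1] 6617 80 = true) := ⟨by decide +kernel⟩
def w275 : PLift (pc FF 10000 [1] 6697 80 = true) := ⟨by decide +kernel⟩
def w276 : PLift (pc FF 10000 [1] 6777 80 = true) := ⟨by decide +kernel⟩
def w277 : PLift (pc FF 10000 [1] 6857 80 = true) := ⟨by decide +kernel⟩
def w278 : PLift (pc FF 10000 [1] 6937 80 = true) := ⟨by decide +kernel⟩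
def w279 : PLift (pc FF 10000 [1] 7017 80 = true) := ⟨by decide +kernel⟩
def w280 : PLift (pc FF 10000 [1] 7097 80 = true) := ⟨by decide +kernel⟩
def w281 : PLift (pc FF 10000 [1] 7177 80 = true) := ⟨by decide +kernel⟩
def w282 : PLift (pc FF 10000 [1] 7257 80 = true) := ⟨by decide +kernel⟩
def w283 : PLift (pc FF 10000 [1] 7337 80 = true) := ⟨by decide +kernel⟩
def w284 : PLift (pc FF 10000 [1] 7417 80 = true) := ⟨by decide +kernel⟩
def w285 : PLift (pc FF 10000 [1] 7497 80 = true) := ⟨by decide +kernel⟩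
def w286 : PLift (pc FF 10000 [1] 7577 80 = true) := ⟨by decide +kernel⟩
def w287 : PLift (pc FF 10000 [1] 7657 80 = true) := ⟨by decide +kernel⟩
def w288 : PLift (pc FF 10000 [1] 7737 80 = true) := ⟨by decide +kernel⟩
def w289 : PLift (pc FF 10000 [1] 7817 80 = true) := ⟨by decide +kernel⟩
def w290 : PLift (pc FF 10000 [1] 7897 80 = true) := ⟨by decide +kernel⟩
def w291 : PLift (pc FF 10000 [1] 7977 80 = true) := ⟨by decide +kernel⟩
def w292 : PLift (pc FF 10000 [1] 8057 80 = true) := ⟨by decide +kernel⟩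
def w293 : PLift (pc FF 10000 [1] 8137 80 = true) := ⟨by decide +kernel⟩
def w294 : PLift (pc FF 10000 [1] 8217 80 = true) := ⟨by decide +kernel⟩
def w295 : PLift (pc FF 10000 [1] 8297 80 = true) := ⟨by decide +kernel⟩
def w296 : PLift (pc FF 10000 [1] 8377 80 = true) := ⟨by decide +kernel⟩
def w297 : PLift (pc FF 10000 [1] 8457 80 = true) := ⟨by decide +kernel⟩
def w298 : PLift (pc FF 10000 [1] 8537 80 = true) := ⟨by decide +kernel⟩
def w299 : PLift (pc FF 10000 [1] 8617 80 = true) := ⟨by decide +kernel⟩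
def w300 : PLift (pc FF 10000 [1] 8697 80 = true) := ⟨by decide +kernel⟩
def w301 : PLift (pc FF 10000 [1] 8777 80 = true) := ⟨by decide +kernel⟩

end Pool.Agent.SU


end
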