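import Mathlib
import Pool.Agent.RQM.C93
import Pool.Agent.RQM.C97

/-! Parts: SU.W3, SU.W4 -/

section

/-! generated: parts of the tree -/

namespace Pool.Agent.SU

set_option maxRecDepth 100000

def w151 : PLift (pc FF 10000 [] 9418 80 = true) := ⟨by decide +kernel⟩
def w152 : PLift (pc FF 10000 [] 9498 80 = true) := ⟨by decide +kernel⟩
def w153 : PLift (pc FF 10000 [] 9578 80 = true) := ⟨by decide +kernel⟩
def w154 : PLift (pc FF 10000 [] 9658 80 = true) := ⟨by decide +kernel⟩
def w155 : PLift (pc FF 10000 [] 9738 80 = true) := ⟨by decide +kernel⟩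
def w156 : PLift (pc FF 10000 [] 9818 80 = true) := ⟨by decide +kernel⟩
def w157 : PLift (pc FF 10000 [] 9898 80 = true) := ⟨by decide +kernel⟩
def w158 : PLift (pc FF 10000 [] 9978 23 = true) := ⟨by decide +kernel⟩
def w159 : PLift (oc FF [1] = true) := ⟨by decide +kernel⟩
def w160 : PLift (ec FF [1] 1 = true) := ⟨by decide +kernel⟩
def w161 : PLift (ec FF [1] 2 = true) := ⟨by decide +kernel⟩
def w162 : PLift (ec FF [1] 3 = true) := ⟨by decide +kernel⟩
def w163 : PLift (ec FF [1] 4 = true) := ⟨by decide +kernel⟩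
def w164 : PLift (ec FF [1] 5 = true) := ⟨by decide +kernel⟩
def w165 : PLift (ec FF [1] 6 = true) := ⟨by decide +kernel⟩
def w166 : PLift (ec FF [1] 7 = true) := ⟨by decide +kernel⟩
def w167 : PLift (ec FF [1] 8 = true) := ⟨by decide +kernel⟩
def w168 : PLift (ec FF [1] 9 = true) := ⟨by decide +kernel⟩
def w169 : PLift (ec FF [1] 10 = true) := ⟨by decide +kernel⟩
def w170 : PLift (ec FF [1] 11 = true) := ⟨by decide +kernel⟩
def w171 : PLift (ec FF [1] 12 = true) := ⟨by decide +kernel⟩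
def w172 : PLift (ec FF [1] 13 = true) := ⟨by decide +kernel⟩
def w173 : PLift (ec FF [1] 14 = true) := ⟨by decide +kernel⟩
def w174 : PLift (ec FF [1] 15 = true) := ⟨by decide +kernel⟩
def w175 : PLift (ec FF [1] 16 = true) := ⟨by decide +kernel⟩
def w176 : PLift (ec FF [1] 17 = true) := ⟨by decide +kernel⟩
def w177 : PLift (ec FF [1] 18 = true) := ⟨by decide +kernel⟩
def w178 : PLift (pc FF 10000 [1] 19 1 = true) := ⟨by decide +kernel⟩
def w179 : PLift (pc FF 10000 [1] 20 1 = true) := ⟨by decide +kernel⟩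
def w180 : PLift (pc FF 10000 [1] 21 1 = true) := ⟨by decide +kernel⟩
def w181 : PLift (pc FF 10000 [1] 22 1 = true) := ⟨by decide +kernel⟩
def w182 : PLift (pc FF 10000 [1] 23 1 = true) := ⟨by decide +kernel⟩
def w183 : PLift (pc FF 10000 [1] 24 2 = true) := ⟨by decide +kernel⟩
def w184 : PLift (pc FF 10000 [1] 26 2 = true) := ⟨by decide +kernel⟩
def w185 : PLift (pc FF 10000 [1] 28 2 = true) := ⟨by decide +kernel⟩
def w186 : PLift (pc FF 10000 [1] 30 3 = true) := ⟨by decide +kernel⟩
def w187 : PLift (pc FF 10000 [1] 33 4 = true) := ⟨by decide +kernel⟩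
def w188 : PLift (pc FF 10000 [1] 37 5 = true) := ⟨by decide +kernel⟩
def w189 : PLift (pc FF 10000 [1] 42 8 = true) := ⟨by decide +kernel⟩
def w190 : PLift (pc FF 10000 [1] 50 13 = true) := ⟨by decide +kernel⟩
def w191 : PLift (pc FF 10000 [1] 63 22 = true) := ⟨by decide +kernel⟩
def w192 : PLift (pc FF 10000 [1] 85 52 = true) := ⟨by decide +kernel⟩
def w193 : PLift (pc FF 10000 [1] 137 80 = true) := ⟨by decide +kernel⟩
def w194 : PLift (pc FF 10000 [1] 217 80 = true) := ⟨by decide +kernel⟩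
def w195 : PLift (pc FF 10000 [1] 297 80 = true) := ⟨by decide +kernel⟩
def w196 : PLift (pc FF 10000 [1] 377 80 = true) := ⟨by decide +kernel⟩
def w197 : PLift (pc FF 10000 [1] 457 80 = true) := ⟨by decide +kernel⟩
def w198 : PLift (pc FF 10000 [1] 537 80 = true) := ⟨by decide +kernel⟩
def w199 : PLift (pc FF 10000 [1] 617 80 = true) := ⟨by decide +kernel⟩
def w200 : PLift (pc FF 10000 [1] 697 80 = true) := ⟨by decide +kernel⟩
def w201 : PLift (pc FF 10000 [1] 777 80 = true) := ⟨by decide +kernel⟩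
def w202 : PLift (pc FF 10000 [1] 857 80 = true) := ⟨by decide +kernel⟩
def w203 : PLift (pc FF 10000 [1] 937 80 = true) := ⟨by decide +kernel⟩
def w204 : PLift (pc FF 10000 [1] 1017 80 = true) := ⟨by decide +kernel⟩
def w205 : PLift (pc FF 10000 [1] 1097 80 = true) := ⟨by decide +kernel⟩
def w206 : PLift (pc FF 10000 [1] 1177 80 = true) := ⟨by decide +kernel⟩
def w207 : PLift (pc FF 10000 [1] 1257 80 = true) := ⟨by decide +kernel⟩
def w208 : PLift (pc FF 10000 [1] 1337 80 = true) := ⟨by decide +kernel⟩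
def w209 : PLift (pc FF 10000 [1] 1417 80 = true) := ⟨by decide +kernel⟩
def w210 : PLift (pc FF 10000 [1] 1497 80 = true) := ⟨by decide +kernel⟩
def w211 : PLift (pc FF 10000 [1] 1577 80 = true) := ⟨by decide +kernel⟩

end Pool.Agent.SU


end

section

/-! generated: parts of the tree -/

namespace Pool.Agent.SU

set_option maxRecDepth 100000

def w212 : PLift (pc FF 10000 [1] 1657 80 = true) := ⟨by decide +kernel⟩
def w213 : PLift (pc FF 10000 [1] 1737 80 = true) := ⟨by decide +kernel⟩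
def w214 : PLift (pc FF 10000 [1] 1817 80 = true) := ⟨by decide +kernel⟩
def w215 : PLift (pc FF 10000 [1] 1897 80 = true) := ⟨by decide +kernel⟩
def w216 : PLift (pc FF 10000 [1] 1977 80 = true) := ⟨by decide +kernel⟩
def w217 : PLift (pc FF 10000 [1] 2057 80 = true) := ⟨by decide +kernel⟩
def w218 : PLift (pc FF 10000 [1] 2137 80 = true) := ⟨by decide +kernel⟩
def w219 : PLift (pc FF 10000 [1] 2217 80 = true) := ⟨by decide +kernel⟩
def w220 : PLift (pc FF 10000 [1] 2297 80 = true) := ⟨by decide +kernel⟩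
def w221 : PLift (pc FF 10000 [1] 2377 80 = true) := ⟨by decide +kernel⟩
def w222 : PLift (pc FF 10000 [1] 2457 80 = true) := ⟨by decide +kernel⟩
def w223 : PLift (pc FF 10000 [1] 2537 80 = true) := ⟨by decide +kernel⟩
def w224 : PLift (pc FF 10000 [1] 2617 80 = true) := ⟨by decide +kernel⟩
def w225 : PLift (pc FF 10000 [1] 2697 80 = true) := ⟨by decide +kernel⟩
def w226 : PLift (pc FF 10000 [1] 2777 80 = true) := ⟨by decide +kernel⟩
def w227 : PLift (pc FF 10000 [1] 2857 80 = true) := ⟨by decide +kernel⟩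
def w228 : PLift (pc FF 10000 [1] 2937 80 = true) := ⟨by decide +kernel⟩
def w229 : PLift (pc FF 10000 [1] 3017 80 = true) := ⟨by decide +kernel⟩
def w230 : PLift (pc FF 10000 [1] 3097 80 = true) := ⟨by decide +kernel⟩
def w231 : PLift (pc FF 10000 [1] 3177 80 = true) := ⟨by decide +kernel⟩
def w232 : PLift (pc FF 10000 [1] 3257 80 = true) := ⟨by decide +kernel⟩
def w233 : PLift (pc FF 10000 [1] 3337 80 = true) := ⟨by decide +kernel⟩
def w234 : PLift (pc FF 10000 [1] 3417 80 = true) := ⟨by decide +kernel⟩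
def w235 : PLift (pc FF 10000 [1] 3497 80 = true) := ⟨by decide +kernel⟩
def w236 : PLift (pc FF 10000 [1] 3577 80 = true) := ⟨by decide +kernel⟩
def w237 : PLift (pc FF 10000 [1] 3657 80 = true) := ⟨by decide +kernel⟩
def w238 : PLift (pc FF 10000 [1] 3737 80 = true) := ⟨by decide +kernel⟩
def w239 : PLift (pc FF 10000 [1] 3817 80 = true) := ⟨by decide +kernel⟩
def w240 : PLift (pc FF 10000 [1] 3897 80 = true) := ⟨by decide +kernel⟩
def w241 : PLift (pc FF 10000 [1] 3977 80 = true) := ⟨by decide +kernel⟩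
def w242 : PLift (pc FF 10000 [1] 4057 80 = true) := ⟨by decide +kernel⟩
def w243 : PLift (pc FF 10000 [1] 4137 80 = true) := ⟨by decide +kernel⟩
def w244 : PLift (pc FF 10000 [1] 4217 80 = true) := ⟨by decide +kernel⟩
def w245 : PLift (pc FF 10000 [1] 4297 80 = true) := ⟨by decide +kernel⟩
def w246 : PLift (pc FF 10000 [1] 4377 80 = true) := ⟨by decide +kernel⟩
def w247 : PLift (pc FF 10000 [1] 4457 80 = true) := ⟨by decide +kernel⟩
def w248 : PLift (pc FF 10000 [1] 4537 80 = true) := ⟨by decide +kernel⟩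
def w249 : PLift (pc FF 10000 [1] 4617 80 = true) := ⟨by decide +kernel⟩
def w250 : PLift (pc FF 10000 [1] 4697 80 = true) := ⟨by decide +kernel⟩
def w251 : PLift (pc FF 10000 [1] 4777 80 = true) := ⟨by decide +kernel⟩
def w252 : PLift (pc FF 10000 [1] 4857 80 = true) := ⟨by decide +kernel⟩
def w253 : PLift (pc FF 10000 [1] 4937 80 = true) := ⟨by decide +kernel⟩
def w254 : PLift (pc FF 10000 [1] 5017 80 = true) := ⟨by decide +kernel⟩
def w255 : PLift (pc FF 10000 [1] 5097 80 = true) := ⟨by decide +kernel⟩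
def w256 : PLift (pc FF 10000 [1] 5177 80 = true) := ⟨by decide +kernel⟩

end Pool.Agent.SU


end
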