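import Mathlib
import Pool.Agent.RQM.C93
import Pool.Agent.RQM.C97

/-! Parts: SU.W16, SU.W21 -/

section

/-! generated: parts of the tree -/

namespace Pool.Agent.SU

set_option maxRecDepth 100000

def w920 : PLift (pc FF 10000 [2, 2, 1] 9 71 = true) := ⟨by decide +kernel⟩
def w921 : PLift (pc FF 10000 [2, 2, 1] 80 80 = true) := ⟨by decide +kernel⟩
def w922 : PLift (pc FF 10000 [2, 2, 1] 160 43 = true) := ⟨by decide +kernel⟩
def w923 : PLift (oc FF [2, 2, 1, 1] = true) := ⟨by decide +kernel⟩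
def w924 : PLift (pc FF 10000 [2, 2, 1, 1] 1 3 = true) := ⟨by decide +kernel⟩
def w925 : PLift (pc FF 10000 [2, 2, 1, 1] 4 65 = true) := ⟨by decide +kernel⟩
def w926 : PLift (oc FF [2, 2, 2] = true) := ⟨by decide +kernel⟩
def w927 : PLift (pc FF 10000 [2, 2, 2] 1 1 = true) := ⟨by decide +kernel⟩
def w928 : PLift (pc FF 10000 [2, 2, 2] 2 41 = true) := ⟨by decide +kernel⟩
def w929 : PLift (pc FF 10000 [2, 2, 2] 43 26 = true) := ⟨by decide +kernel⟩
def w930 : PLift (oc FF [2, 2, 3] = true) := ⟨by decide +kernel⟩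
def w931 : PLift (pc FF 10000 [2, 2, 3] 1 34 = true) := ⟨by decide +kernel⟩
def w932 : PLift (oc FF [2, 3] = true) := ⟨by decide +kernel⟩
def w933 : PLift (ec FF [2, 3] 1 = true) := ⟨by decide +kernel⟩
def w934 : PLift (ec FF [2, 3] 2 = true) := ⟨by decide +kernel⟩
def w935 : PLift (pc FF 10000 [2, 3] 3 3 = true) := ⟨by decide +kernel⟩
def w936 : PLift (pc FF 10000 [2, 3] 6 50 = true) := ⟨by decide +kernel⟩
def w937 : PLift (pc FF 10000 [2, 3] 56 80 = true) := ⟨by decide +kernel⟩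
def w938 : PLift (pc FF 10000 [2, 3] 136 68 = true) := ⟨by decide +kernel⟩
def w939 : PLift (oc FF [2, 3, 1] = true) := ⟨by decide +kernel⟩
def w940 : PLift (pc FF 10000 [2, 3, 1] 1 1 = true) := ⟨by decide +kernel⟩
def w941 : PLift (pc FF 10000 [2, 3, 1] 2 10 = true) := ⟨by decide +kernel⟩
def w942 : PLift (pc FF 10000 [2, 3, 1] 12 80 = true) := ⟨by decide +kernel⟩
def w943 : PLift (pc FF 10000 [2, 3, 1] 92 30 = true) := ⟨by decide +kernel⟩
def w944 : PLift (oc FF [2, 3, 2] = true) := ⟨by decide +kernel⟩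
def w945 : PLift (pc FF 10000 [2, 3, 2] 1 36 = true) := ⟨by decide +kernel⟩
def w946 : PLift (pc FF 10000 [2, 3, 2] 37 2 = true) := ⟨by decide +kernel⟩
def w947 : PLift (oc FF [2, 4] = true) := ⟨by decide +kernel⟩
def w948 : PLift (ec FF [2, 4] 1 = true) := ⟨by decide +kernel⟩
def w949 : PLift (pc FF 10000 [2, 4] 2 2 = true) := ⟨by decide +kernel⟩
def w950 : PLift (pc FF 10000 [2, 4] 4 48 = true) := ⟨by decide +kernel⟩
def w951 : PLift (pc FF 10000 [2, 4] 52 72 = true) := ⟨by decide +kernel⟩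
def w952 : PLift (oc FF [2, 4, 1] = true) := ⟨by decide +kernel⟩
def w953 : PLift (pc FF 10000 [2, 4, 1] 1 3 = true) := ⟨by decide +kernel⟩
def w954 : PLift (pc FF 10000 [2, 4, 1] 4 66 = true) := ⟨by decide +kernel⟩
def w955 : PLift (pc FF 10000 [2, 4, 1] 70 12 = true) := ⟨by decide +kernel⟩
def w956 : PLift (oc FF [2, 5] = true) := ⟨by decide +kernel⟩
def w957 : PLift (ec FF [2, 5] 1 = true) := ⟨by decide +kernel⟩
def w958 : PLift (pc FF 10000 [2, 5] 2 20 = true) := ⟨by decide +kernel⟩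
def w959 : PLift (pc FF 10000 [2, 5] 22 61 = true) := ⟨by decide +kernel⟩
def w960 : PLift (oc FF [2, 5, 1] = true) := ⟨by decide +kernel⟩
def w961 : PLift (pc FF 10000 [2, 5, 1] 1 28 = true) := ⟨by decide +kernel⟩
def w962 : PLift (pc FF 10000 [2, 5, 1] 29 29 = true) := ⟨by decide +kernel⟩
def w963 : PLift (oc FF [2, 6] = true) := ⟨by decide +kernel⟩
def w964 : PLift (pc FF 10000 [2, 6] 1 1 = true) := ⟨by decide +kernel⟩
def w965 : PLift (pc FF 10000 [2, 6] 2 43 = true) := ⟨by decide +kernel⟩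
def w966 : PLift (pc FF 10000 [2, 6] 45 14 = true) := ⟨by decide +kernel⟩
def w967 : PLift (oc FF [2, 7] = true) := ⟨by decide +kernel⟩
def w968 : PLift (pc FF 10000 [2, 7] 1 3 = true) := ⟨by decide +kernel⟩
def w969 : PLift (pc FF 10000 [2, 7] 4 41 = true) := ⟨by decide +kernel⟩
def w970 : PLift (oc FF [2, 8] = true) := ⟨by decide +kernel⟩
def w971 : PLift (pc FF 10000 [2, 8] 1 19 = true) := ⟨by decide +kernel⟩
def w972 : PLift (pc FF 10000 [2, 8] 20 15 = true) := ⟨by decide +kernel⟩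
def w973 : PLift (oc FF [3] = true) := ⟨by decide +kernel⟩
def w974 : PLift (ec FF [3] 1 = true) := ⟨by decide +kernel⟩
def w975 : PLift (ec FF [3] 2 = true) := ⟨by decide +kernel⟩
def w976 : PLift (ec FF [3] 3 = true) := ⟨by decide +kernel⟩
def w977 : PLift (ec FF [3] 4 = true) := ⟨by decide +kernel⟩
def w978 : PLift (ec FF [3] 5 = true) := ⟨by decide +kernel⟩
def w979 : PLift (pc FF 10000 [3] 6 1 = true) := ⟨by decide +kernel⟩
def w980 : PLift (pc FF 10000 [3] 7 1 = true) := ⟨by decide +kernel⟩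
def w981 : PLift (pc FF 10000 [3] 8 2 = true) := ⟨by decide +kernel⟩
def w982 : PLift (pc FF 10000 [3] 10 4 = true) := ⟨by decide +kernel⟩
def w983 : PLift (pc FF 10000 [3] 14 15 = true) := ⟨by decide +kernel⟩
def w984 : PLift (pc FF 10000 [3] 29 72 = true) := ⟨by decide +kernel⟩
def w985 : PLift (pc FF 10000 [3] 101 80 = true) := ⟨by decide +kernel⟩
def w986 : PLift (pc FF 10000 [3] 181 80 = true) := ⟨by decide +kernel⟩

end Pool.Agent.SU


end

section

/-! generated: parts of the tree -/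

namespace Pool.Agent.SU

set_option maxRecDepth 100000

def w1246 : PLift (pc FF 10000 [16] 4 35 = true) := ⟨by decide +kernel⟩
def w1247 : PLift (oc FF [17] = true) := ⟨by decide +kernel⟩
def w1248 : PLift (pc FF 10000 [17] 1 12 = true) := ⟨by decide +kernel⟩
def w1249 : PLift (pc FF 10000 [17] 13 22 = true) := ⟨by decide +kernel⟩
def w1250 : PLift (oc FF [18] = true) := ⟨by decide +kernel⟩
def w1251 : PLift (pc FF 10000 [18] 1 21 = true) := ⟨by decide +kernel⟩
def w1252 : PLift (pc FF 10000 [18] 22 9 = true) := ⟨by decide +kernel⟩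
def w1253 : PLift (oc FF [19] = true) := ⟨by decide +kernel⟩
def w1254 : PLift (pc FF 10000 [19] 1 27 = true) := ⟨by decide +kernel⟩

end Pool.Agent.SU


end
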