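import Mathlib
import Pool.Agent.RQM.C93
import Pool.Agent.RQM.C97

/-! Parts: SU.W20 -/

section

/-! generated: parts of the tree -/

namespace Pool.Agent.SU

set_option maxRecDepth 100000

def w1178 : PLift (pc FF 10000 [7, 1] 2 4 = true) := ⟨by decide +kernel⟩
def w1179 : PLift (pc FF 10000 [7, 1] 6 64 = true) := ⟨by decide +kernel⟩
def w1180 : PLift (pc FF 10000 [7, 1] 70 80 = true) := ⟨by decide +kernel⟩
def w1181 : PLift (pc FF 10000 [7, 1] 150 5 = true) := ⟨by decide +kernel⟩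
def w1182 : PLift (oc FF [7, 1, 1] = true) := ⟨by decide +kernel⟩
def w1183 : PLift (pc FF 10000 [7, 1, 1] 1 31 = true) := ⟨by decide +kernel⟩
def w1184 : PLift (pc FF 10000 [7, 1, 1] 32 12 = true) := ⟨by decide +kernel⟩
def w1185 : PLift (oc FF [7, 2] = true) := ⟨by decide +kernel⟩
def w1186 : PLift (pc FF 10000 [7, 2] 1 26 = true) := ⟨by decide +kernel⟩
def w1187 : PLift (pc FF 10000 [7, 2] 27 17 = true) := ⟨by decide +kernel⟩
def w1188 : PLift (oc FF [8] = true) := ⟨by decide +kernel⟩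
def w1189 : PLift (ec FF [8] 1 = true) := ⟨by decide +kernel⟩
def w1190 : PLift (pc FF 10000 [8] 2 1 = true) := ⟨by decide +kernel⟩
def w1191 : PLift (pc FF 10000 [8] 3 7 = true) := ⟨by decide +kernel⟩
def w1192 : PLift (pc FF 10000 [8] 10 75 = true) := ⟨by decide +kernel⟩
def w1193 : PLift (pc FF 10000 [8] 85 72 = true) := ⟨by decide +kernel⟩
def w1194 : PLift (oc FF [8, 1] = true) := ⟨by decide +kernel⟩
def w1195 : PLift (pc FF 10000 [8, 1] 1 1 = true) := ⟨by decide +kernel⟩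
def w1196 : PLift (pc FF 10000 [8, 1] 2 16 = true) := ⟨by decide +kernel⟩
def w1197 : PLift (pc FF 10000 [8, 1] 18 80 = true) := ⟨by decide +kernel⟩
def w1198 : PLift (pc FF 10000 [8, 1] 98 24 = true) := ⟨by decide +kernel⟩
def w1199 : PLift (oc FF [9] = true) := ⟨by decide +kernel⟩
def w1200 : PLift (ec FF [9] 1 = true) := ⟨by decide +kernel⟩
def w1201 : PLift (pc FF 10000 [9] 2 2 = true) := ⟨by decide +kernel⟩
def w1202 : PLift (pc FF 10000 [9] 4 46 = true) := ⟨by decide +kernel⟩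
def w1203 : PLift (pc FF 10000 [9] 50 74 = true) := ⟨by decide +kernel⟩
def w1204 : PLift (oc FF [9, 1] = true) := ⟨by decide +kernel⟩
def w1205 : PLift (pc FF 10000 [9, 1] 1 2 = true) := ⟨by decide +kernel⟩
def w1206 : PLift (pc FF 10000 [9, 1] 3 52 = true) := ⟨by decide +kernel⟩
def w1207 : PLift (pc FF 10000 [9, 1] 55 44 = true) := ⟨by decide +kernel⟩
def w1208 : PLift (oc FF [10] = true) := ⟨by decide +kernel⟩
def w1209 : PLift (ec FF [10] 1 = true) := ⟨by decide +kernel⟩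
def w1210 : PLift (pc FF 10000 [10] 2 3 = true) := ⟨by decide +kernel⟩
def w1211 : PLift (pc FF 10000 [10] 5 65 = true) := ⟨by decide +kernel⟩
def w1212 : PLift (pc FF 10000 [10] 70 30 = true) := ⟨by decide +kernel⟩
def w1213 : PLift (oc FF [10, 1] = true) := ⟨by decide +kernel⟩
def w1214 : PLift (pc FF 10000 [10, 1] 1 5 = true) := ⟨by decide +kernel⟩
def w1215 : PLift (pc FF 10000 [10, 1] 6 75 = true) := ⟨by decide +kernel⟩
def w1216 : PLift (oc FF [11] = true) := ⟨by decide +kernel⟩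
def w1217 : PLift (ec FF [11] 1 = true) := ⟨by decide +kernel⟩
def w1218 : PLift (pc FF 10000 [11] 2 14 = true) := ⟨by decide +kernel⟩
def w1219 : PLift (pc FF 10000 [11] 16 67 = true) := ⟨by decide +kernel⟩
def w1220 : PLift (oc FF [11, 1] = true) := ⟨by decide +kernel⟩
def w1221 : PLift (pc FF 10000 [11, 1] 1 17 = true) := ⟨by decide +kernel⟩
def w1222 : PLift (pc FF 10000 [11, 1] 18 50 = true) := ⟨by decide +kernel⟩
def w1223 : PLift (oc FF [12] = true) := ⟨by decide +kernel⟩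
def w1224 : PLift (ec FF [12] 1 = true) := ⟨by decide +kernel⟩
def w1225 : PLift (pc FF 10000 [12] 2 26 = true) := ⟨by decide +kernel⟩
def w1226 : PLift (pc FF 10000 [12] 28 42 = true) := ⟨by decide +kernel⟩
def w1227 : PLift (oc FF [12, 1] = true) := ⟨by decide +kernel⟩
def w1228 : PLift (pc FF 10000 [12, 1] 1 32 = true) := ⟨by decide +kernel⟩
def w1229 : PLift (pc FF 10000 [12, 1] 33 25 = true) := ⟨by decide +kernel⟩
def w1230 : PLift (oc FF [13] = true) := ⟨by decide +kernel⟩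
def w1231 : PLift (ec FF [13] 1 = true) := ⟨by decide +kernel⟩
def w1232 : PLift (pc FF 10000 [13] 2 38 = true) := ⟨by decide +kernel⟩
def w1233 : PLift (pc FF 10000 [13] 40 20 = true) := ⟨by decide +kernel⟩
def w1234 : PLift (oc FF [13, 1] = true) := ⟨by decide +kernel⟩
def w1235 : PLift (pc FF 10000 [13, 1] 1 41 = true) := ⟨by decide +kernel⟩
def w1236 : PLift (pc FF 10000 [13, 1] 42 8 = true) := ⟨by decide +kernel⟩
def w1237 : PLift (oc FF [14] = true) := ⟨by decide +kernel⟩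
def w1238 : PLift (pc FF 10000 [14] 1 1 = true) := ⟨by decide +kernel⟩
def w1239 : PLift (pc FF 10000 [14] 2 45 = true) := ⟨by decide +kernel⟩
def w1240 : PLift (pc FF 10000 [14] 47 4 = true) := ⟨by decide +kernel⟩
def w1241 : PLift (oc FF [15] = true) := ⟨by decide +kernel⟩
def w1242 : PLift (pc FF 10000 [15] 1 1 = true) := ⟨by decide +kernel⟩
def w1243 : PLift (pc FF 10000 [15] 2 43 = true) := ⟨by decide +kernel⟩
def w1244 : PLift (oc FF [16] = true) := ⟨by decide +kernel⟩
def w1245 : PLift (pc FF 10000 [16] 1 3 = true) := ⟨by decide +kernel⟩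

end Pool.Agent.SU


end
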