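import Mathlib
import Pool.Agent.RQM.C93
import Pool.Agent.RQM.C97

/-! Parts: SU.W17 -/

section

/-! generated: parts of the tree -/

namespace Pool.Agent.SU

set_option maxRecDepth 100000

def w987 : PLift (pc FF 10000 [3] 261 80 = true) := ⟨by decide +kernel⟩
def w988 : PLift (pc FF 10000 [3] 341 80 = true) := ⟨by decide +kernel⟩
def w989 : PLift (pc FF 10000 [3] 421 80 = true) := ⟨by decide +kernel⟩
def w990 : PLift (pc FF 10000 [3] 501 80 = true) := ⟨by decide +kernel⟩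
def w991 : PLift (pc FF 10000 [3] 581 80 = true) := ⟨by decide +kernel⟩
def w992 : PLift (pc FF 10000 [3] 661 80 = true) := ⟨by decide +kernel⟩
def w993 : PLift (pc FF 10000 [3] 741 80 = true) := ⟨by decide +kernel⟩
def w994 : PLift (pc FF 10000 [3] 821 80 = true) := ⟨by decide +kernel⟩
def w995 : PLift (pc FF 10000 [3] 901 80 = true) := ⟨by decide +kernel⟩
def w996 : PLift (pc FF 10000 [3] 981 80 = true) := ⟨by decide +kernel⟩
def w997 : PLift (pc FF 10000 [3] 1061 50 = true) := ⟨by decide +kernel⟩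
def w998 : PLift (oc FF [3, 1] = true) := ⟨by decide +kernel⟩
def w999 : PLift (ec FF [3, 1] 1 = true) := ⟨by decide +kernel⟩
def w1000 : PLift (ec FF [3, 1] 2 = true) := ⟨by decide +kernel⟩
def w1001 : PLift (ec FF [3, 1] 3 = true) := ⟨by decide +kernel⟩
def w1002 : PLift (pc FF 10000 [3, 1] 4 1 = true) := ⟨by decide +kernel⟩
def w1003 : PLift (pc FF 10000 [3, 1] 5 2 = true) := ⟨by decide +kernel⟩
def w1004 : PLift (pc FF 10000 [3, 1] 7 6 = true) := ⟨by decide +kernel⟩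
def w1005 : PLift (pc FF 10000 [3, 1] 13 47 = true) := ⟨by decide +kernel⟩
def w1006 : PLift (pc FF 10000 [3, 1] 60 80 = true) := ⟨by decide +kernel⟩
def w1007 : PLift (pc FF 10000 [3, 1] 140 80 = true) := ⟨by decide +kernel⟩
def w1008 : PLift (pc FF 10000 [3, 1] 220 80 = true) := ⟨by decide +kernel⟩
def w1009 : PLift (pc FF 10000 [3, 1] 300 80 = true) := ⟨by decide +kernel⟩
def w1010 : PLift (pc FF 10000 [3, 1] 380 80 = true) := ⟨by decide +kernel⟩
def w1011 : PLift (pc FF 10000 [3, 1] 460 80 = true) := ⟨by decide +kernel⟩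
def w1012 : PLift (pc FF 10000 [3, 1] 540 80 = true) := ⟨by decide +kernel⟩
def w1013 : PLift (pc FF 10000 [3, 1] 620 4 = true) := ⟨by decide +kernel⟩
def w1014 : PLift (oc FF [3, 1, 1] = true) := ⟨by decide +kernel⟩
def w1015 : PLift (ec FF [3, 1, 1] 1 = true) := ⟨by decide +kernel⟩
def w1016 : PLift (pc FF 10000 [3, 1, 1] 2 1 = true) := ⟨by decide +kernel⟩
def w1017 : PLift (pc FF 10000 [3, 1, 1] 3 4 = true) := ⟨by decide +kernel⟩
def w1018 : PLift (pc FF 10000 [3, 1, 1] 7 59 = true) := ⟨by decide +kernel⟩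
def w1019 : PLift (pc FF 10000 [3, 1, 1] 66 80 = true) := ⟨by decide +kernel⟩
def w1020 : PLift (pc FF 10000 [3, 1, 1] 146 57 = true) := ⟨by decide +kernel⟩
def w1021 : PLift (oc FF [3, 1, 1, 1] = true) := ⟨by decide +kernel⟩
def w1022 : PLift (pc FF 10000 [3, 1, 1, 1] 1 2 = true) := ⟨by decide +kernel⟩
def w1023 : PLift (pc FF 10000 [3, 1, 1, 1] 3 56 = true) := ⟨by decide +kernel⟩
def w1024 : PLift (pc FF 10000 [3, 1, 1, 1] 59 23 = true) := ⟨by decide +kernel⟩
def w1025 : PLift (oc FF [3, 1, 2] = true) := ⟨by decide +kernel⟩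
def w1026 : PLift (ec FF [3, 1, 2] 1 = true) := ⟨by decide +kernel⟩
def w1027 : PLift (pc FF 10000 [3, 1, 2] 2 28 = true) := ⟨by decide +kernel⟩
def w1028 : PLift (pc FF 10000 [3, 1, 2] 30 52 = true) := ⟨by decide +kernel⟩
def w1029 : PLift (oc FF [3, 1, 2, 1] = true) := ⟨by decide +kernel⟩
def w1030 : PLift (pc FF 10000 [3, 1, 2, 1] 1 40 = true) := ⟨by decide +kernel⟩
def w1031 : PLift (pc FF 10000 [3, 1, 2, 1] 41 2 = true) := ⟨by decide +kernel⟩
def w1032 : PLift (oc FF [3, 1, 3] = true) := ⟨by decide +kernel⟩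
def w1033 : PLift (pc FF 10000 [3, 1, 3] 1 11 = true) := ⟨by decide +kernel⟩
def w1034 : PLift (pc FF 10000 [3, 1, 3] 12 32 = true) := ⟨by decide +kernel⟩
def w1035 : PLift (oc FF [3, 2] = true) := ⟨by decide +kernel⟩
def w1036 : PLift (ec FF [3, 2] 1 = true) := ⟨by decide +kernel⟩
def w1037 : PLift (pc FF 10000 [3, 2] 2 1 = true) := ⟨by decide +kernel⟩
def w1038 : PLift (pc FF 10000 [3, 2] 3 4 = true) := ⟨by decide +kernel⟩
def w1039 : PLift (pc FF 10000 [3, 2] 7 59 = true) := ⟨by decide +kernel⟩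
def w1040 : PLift (pc FF 10000 [3, 2] 66 80 = true) := ⟨by decide +kernel⟩
def w1041 : PLift (pc FF 10000 [3, 2] 146 58 = true) := ⟨by decide +kernel⟩
def w1042 : PLift (oc FF [3, 2, 1] = true) := ⟨by decide +kernel⟩
def w1043 : PLift (pc FF 10000 [3, 2, 1] 1 1 = true) := ⟨by decide +kernel⟩
def w1044 : PLift (pc FF 10000 [3, 2, 1] 2 26 = true) := ⟨by decide +kernel⟩

end Pool.Agent.SU


end
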