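import Mathlib
import Pool.Agent.RQM.C93
import Pool.Agent.RQM.C97

/-! Parts: SU.W14 -/

section

/-! generated: parts of the tree -/

namespace Pool.Agent.SU

set_option maxRecDepth 100000

def w805 : PLift (pc FF 10000 [2] 241 80 = true) := ⟨by decide +kernel⟩
def w806 : PLift (pc FF 10000 [2] 321 80 = true) := ⟨by decide +kernel⟩
def w807 : PLift (pc FF 10000 [2] 401 80 = true) := ⟨by decide +kernel⟩
def w808 : PLift (pc FF 10000 [2] 481 80 = true) := ⟨by decide +kernel⟩
def w809 : PLift (pc FF 10000 [2] 561 80 = true) := ⟨by decide +kernel⟩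
def w810 : PLift (pc FF 10000 [2] 641 80 = true) := ⟨by decide +kernel⟩
def w811 : PLift (pc FF 10000 [2] 721 80 = true) := ⟨by decide +kernel⟩
def w812 : PLift (pc FF 10000 [2] 801 80 = true) := ⟨by decide +kernel⟩
def w813 : PLift (pc FF 10000 [2] 881 80 = true) := ⟨by decide +kernel⟩
def w814 : PLift (pc FF 10000 [2] 961 80 = true) := ⟨by decide +kernel⟩
def w815 : PLift (pc FF 10000 [2] 1041 80 = true) := ⟨by decide +kernel⟩
def w816 : PLift (pc FF 10000 [2] 1121 80 = true) := ⟨by decide +kernel⟩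
def w817 : PLift (pc FF 10000 [2] 1201 80 = true) := ⟨by decide +kernel⟩
def w818 : PLift (pc FF 10000 [2] 1281 80 = true) := ⟨by decide +kernel⟩
def w819 : PLift (pc FF 10000 [2] 1361 80 = true) := ⟨by decide +kernel⟩
def w820 : PLift (pc FF 10000 [2] 1441 80 = true) := ⟨by decide +kernel⟩
def w821 : PLift (pc FF 10000 [2] 1521 80 = true) := ⟨by decide +kernel⟩
def w822 : PLift (pc FF 10000 [2] 1601 80 = true) := ⟨by decide +kernel⟩
def w823 : PLift (pc FF 10000 [2] 1681 80 = true) := ⟨by decide +kernel⟩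
def w824 : PLift (pc FF 10000 [2] 1761 80 = true) := ⟨by decide +kernel⟩
def w825 : PLift (pc FF 10000 [2] 1841 80 = true) := ⟨by decide +kernel⟩
def w826 : PLift (pc FF 10000 [2] 1921 80 = true) := ⟨by decide +kernel⟩
def w827 : PLift (pc FF 10000 [2] 2001 80 = true) := ⟨by decide +kernel⟩
def w828 : PLift (pc FF 10000 [2] 2081 80 = true) := ⟨by decide +kernel⟩
def w829 : PLift (pc FF 10000 [2] 2161 80 = true) := ⟨by decide +kernel⟩
def w830 : PLift (pc FF 10000 [2] 2241 80 = true) := ⟨by decide +kernel⟩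
def w831 : PLift (pc FF 10000 [2] 2321 80 = true) := ⟨by decide +kernel⟩
def w832 : PLift (pc FF 10000 [2] 2401 80 = true) := ⟨by decide +kernel⟩
def w833 : PLift (pc FF 10000 [2] 2481 19 = true) := ⟨by decide +kernel⟩
def w834 : PLift (oc FF [2, 1] = true) := ⟨by decide +kernel⟩
def w835 : PLift (ec FF [2, 1] 1 = true) := ⟨by decide +kernel⟩
def w836 : PLift (ec FF [2, 1] 2 = true) := ⟨by decide +kernel⟩
def w837 : PLift (ec FF [2, 1] 3 = true) := ⟨by decide +kernel⟩
def w838 : PLift (ec FF [2, 1] 4 = true) := ⟨by decide +kernel⟩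
def w839 : PLift (ec FF [2, 1] 5 = true) := ⟨by decide +kernel⟩
def w840 : PLift (pc FF 10000 [2, 1] 6 1 = true) := ⟨by decide +kernel⟩
def w841 : PLift (pc FF 10000 [2, 1] 7 1 = true) := ⟨by decide +kernel⟩
def w842 : PLift (pc FF 10000 [2, 1] 8 2 = true) := ⟨by decide +kernel⟩
def w843 : PLift (pc FF 10000 [2, 1] 10 5 = true) := ⟨by decide +kernel⟩
def w844 : PLift (pc FF 10000 [2, 1] 15 20 = true) := ⟨by decide +kernel⟩
def w845 : PLift (pc FF 10000 [2, 1] 35 80 = true) := ⟨by decide +kernel⟩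
def w846 : PLift (pc FF 10000 [2, 1] 115 80 = true) := ⟨by decide +kernel⟩
def w847 : PLift (pc FF 10000 [2, 1] 195 80 = true) := ⟨by decide +kernel⟩
def w848 : PLift (pc FF 10000 [2, 1] 275 80 = true) := ⟨by decide +kernel⟩
def w849 : PLift (pc FF 10000 [2, 1] 355 80 = true) := ⟨by decide +kernel⟩
def w850 : PLift (pc FF 10000 [2, 1] 435 80 = true) := ⟨by decide +kernel⟩
def w851 : PLift (pc FF 10000 [2, 1] 515 80 = true) := ⟨by decide +kernel⟩
def w852 : PLift (pc FF 10000 [2, 1] 595 80 = true) := ⟨by decide +kernel⟩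
def w853 : PLift (pc FF 10000 [2, 1] 675 80 = true) := ⟨by decide +kernel⟩
def w854 : PLift (pc FF 10000 [2, 1] 755 80 = true) := ⟨by decide +kernel⟩
def w855 : PLift (pc FF 10000 [2, 1] 835 80 = true) := ⟨by decide +kernel⟩

end Pool.Agent.SU


end
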