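import Mathlib
import Pool.Agent.RQM.C93
import Pool.Agent.RQM.C97

/-! Parts: SU.W12 -/

section

/-! generated: parts of the tree -/

namespace Pool.Agent.SU

set_option maxRecDepth 100000

def w668 : PLift (pc FF 10000 [1, 4, 1, 1] 2 31 = true) := ⟨by decide +kernel⟩
def w669 : PLift (pc FF 10000 [1, 4, 1, 1] 33 49 = true) := ⟨by decide +kernel⟩
def w670 : PLift (oc FF [1, 4, 2] = true) := ⟨by decide +kernel⟩
def w671 : PLift (pc FF 10000 [1, 4, 2] 1 1 = true) := ⟨by decide +kernel⟩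
def w672 : PLift (pc FF 10000 [1, 4, 2] 2 29 = true) := ⟨by decide +kernel⟩
def w673 : PLift (pc FF 10000 [1, 4, 2] 31 51 = true) := ⟨by decide +kernel⟩
def w674 : PLift (oc FF [1, 4, 3] = true) := ⟨by decide +kernel⟩
def w675 : PLift (pc FF 10000 [1, 4, 3] 1 24 = true) := ⟨by decide +kernel⟩
def w676 : PLift (pc FF 10000 [1, 4, 3] 25 14 = true) := ⟨by decide +kernel⟩
def w677 : PLift (oc FF [1, 5] = true) := ⟨by decide +kernel⟩
def w678 : PLift (ec FF [1, 5] 1 = true) := ⟨by decide +kernel⟩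
def w679 : PLift (ec FF [1, 5] 2 = true) := ⟨by decide +kernel⟩
def w680 : PLift (pc FF 10000 [1, 5] 3 1 = true) := ⟨by decide +kernel⟩
def w681 : PLift (pc FF 10000 [1, 5] 4 3 = true) := ⟨by decide +kernel⟩
def w682 : PLift (pc FF 10000 [1, 5] 7 43 = true) := ⟨by decide +kernel⟩
def w683 : PLift (pc FF 10000 [1, 5] 50 80 = true) := ⟨by decide +kernel⟩
def w684 : PLift (pc FF 10000 [1, 5] 130 80 = true) := ⟨by decide +kernel⟩
def w685 : PLift (pc FF 10000 [1, 5] 210 68 = true) := ⟨by decide +kernel⟩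
def w686 : PLift (oc FF [1, 5, 1] = true) := ⟨by decide +kernel⟩
def w687 : PLift (ec FF [1, 5, 1] 1 = true) := ⟨by decide +kernel⟩
def w688 : PLift (pc FF 10000 [1, 5, 1] 2 1 = true) := ⟨by decide +kernel⟩
def w689 : PLift (pc FF 10000 [1, 5, 1] 3 7 = true) := ⟨by decide +kernel⟩
def w690 : PLift (pc FF 10000 [1, 5, 1] 10 73 = true) := ⟨by decide +kernel⟩
def w691 : PLift (pc FF 10000 [1, 5, 1] 83 80 = true) := ⟨by decide +kernel⟩
def w692 : PLift (pc FF 10000 [1, 5, 1] 163 40 = true) := ⟨by decide +kernel⟩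
def w693 : PLift (oc FF [1, 5, 1, 1] = true) := ⟨by decide +kernel⟩
def w694 : PLift (pc FF 10000 [1, 5, 1, 1] 1 6 = true) := ⟨by decide +kernel⟩
def w695 : PLift (pc FF 10000 [1, 5, 1, 1] 7 52 = true) := ⟨by decide +kernel⟩
def w696 : PLift (oc FF [1, 5, 2] = true) := ⟨by decide +kernel⟩
def w697 : PLift (pc FF 10000 [1, 5, 2] 1 4 = true) := ⟨by decide +kernel⟩
def w698 : PLift (pc FF 10000 [1, 5, 2] 5 54 = true) := ⟨by decide +kernel⟩
def w699 : PLift (oc FF [1, 6] = true) := ⟨by decide +kernel⟩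
def w700 : PLift (ec FF [1, 6] 1 = true) := ⟨by decide +kernel⟩
def w701 : PLift (ec FF [1, 6] 2 = true) := ⟨by decide +kernel⟩
def w702 : PLift (pc FF 10000 [1, 6] 3 2 = true) := ⟨by decide +kernel⟩
def w703 : PLift (pc FF 10000 [1, 6] 5 34 = true) := ⟨by decide +kernel⟩
def w704 : PLift (pc FF 10000 [1, 6] 39 80 = true) := ⟨by decide +kernel⟩
def w705 : PLift (pc FF 10000 [1, 6] 119 80 = true) := ⟨by decide +kernel⟩
def w706 : PLift (pc FF 10000 [1, 6] 199 5 = true) := ⟨by decide +kernel⟩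
def w707 : PLift (oc FF [1, 6, 1] = true) := ⟨by decide +kernel⟩
def w708 : PLift (ec FF [1, 6, 1] 1 = true) := ⟨by decide +kernel⟩
def w709 : PLift (pc FF 10000 [1, 6, 1] 2 4 = true) := ⟨by decide +kernel⟩
def w710 : PLift (pc FF 10000 [1, 6, 1] 6 64 = true) := ⟨by decide +kernel⟩
def w711 : PLift (pc FF 10000 [1, 6, 1] 70 80 = true) := ⟨by decide +kernel⟩
def w712 : PLift (pc FF 10000 [1, 6, 1] 150 5 = true) := ⟨by decide +kernel⟩
def w713 : PLift (oc FF [1, 6, 1, 1] = true) := ⟨by decide +kernel⟩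
def w714 : PLift (pc FF 10000 [1, 6, 1, 1] 1 31 = true) := ⟨by decide +kernel⟩
def w715 : PLift (pc FF 10000 [1, 6, 1, 1] 32 12 = true) := ⟨by decide +kernel⟩
def w716 : PLift (oc FF [1, 6, 2] = true) := ⟨by decide +kernel⟩
def w717 : PLift (pc FF 10000 [1, 6, 2] 1 26 = true) := ⟨by decide +kernel⟩
def w718 : PLift (pc FF 10000 [1, 6, 2] 27 17 = true) := ⟨by decide +kernel⟩
def w719 : PLift (oc FF [1, 7] = true) := ⟨by decide +kernel⟩
def w720 : PLift (ec FF [1, 7] 1 = true) := ⟨by decide +kernel⟩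
def w721 : PLift (pc FF 10000 [1, 7] 2 1 = true) := ⟨by decide +kernel⟩
def w722 : PLift (pc FF 10000 [1, 7] 3 7 = true) := ⟨by decide +kernel⟩
def w723 : PLift (pc FF 10000 [1, 7] 10 75 = true) := ⟨by decide +kernel⟩
def w724 : PLift (pc FF 10000 [1, 7] 85 72 = true) := ⟨by decide +kernel⟩
def w725 : PLift (oc FF [1, 7, 1] = true) := ⟨by decide +kernel⟩
def w726 : PLift (pc FF 10000 [1, 7, 1] 1 1 = true) := ⟨by decide +kernel⟩
def w727 : PLift (pc FF 10000 [1, 7, 1] 2 16 = true) := ⟨by decide +kernel⟩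
def w728 : PLift (pc FF 10000 [1, 7, 1] 18 80 = true) := ⟨by decide +kernel⟩
def w729 : PLift (pc FF 10000 [1, 7, 1] 98 24 = true) := ⟨by decide +kernel⟩
def w730 : PLift (oc FF [1, 8] = true) := ⟨by decide +kernel⟩
def w731 : PLift (ec FF [1, 8] 1 = true) := ⟨by decide +kernel⟩
def w732 : PLift (pc FF 10000 [1, 8] 2 2 = true) := ⟨by decide +kernel⟩

end Pool.Agent.SU


end
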