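import Mathlib
import Pool.Agent.RQM.C93
import Pool.Agent.RQM.C97

/-! Parts: SU.W11 -/

section

/-! generated: parts of the tree -/

namespace Pool.Agent.SU

set_option maxRecDepth 100000

def w604 : PLift (pc FF 10000 [1, 3] 312 80 = true) := ⟨by decide +kernel⟩
def w605 : PLift (pc FF 10000 [1, 3] 392 80 = true) := ⟨by decide +kernel⟩
def w606 : PLift (pc FF 10000 [1, 3] 472 80 = true) := ⟨by decide +kernel⟩
def w607 : PLift (pc FF 10000 [1, 3] 552 73 = true) := ⟨by decide +kernel⟩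
def w608 : PLift (oc FF [1, 3, 1] = true) := ⟨by decide +kernel⟩
def w609 : PLift (ec FF [1, 3, 1] 1 = true) := ⟨by decide +kernel⟩
def w610 : PLift (ec FF [1, 3, 1] 2 = true) := ⟨by decide +kernel⟩
def w611 : PLift (pc FF 10000 [1, 3, 1] 3 1 = true) := ⟨by decide +kernel⟩
def w612 : PLift (pc FF 10000 [1, 3, 1] 4 2 = true) := ⟨by decide +kernel⟩
def w613 : PLift (pc FF 10000 [1, 3, 1] 6 12 = true) := ⟨by decide +kernel⟩
def w614 : PLift (pc FF 10000 [1, 3, 1] 18 77 = true) := ⟨by decide +kernel⟩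
def w615 : PLift (pc FF 10000 [1, 3, 1] 95 80 = true) := ⟨by decide +kernel⟩
def w616 : PLift (pc FF 10000 [1, 3, 1] 175 80 = true) := ⟨by decide +kernel⟩
def w617 : PLift (pc FF 10000 [1, 3, 1] 255 80 = true) := ⟨by decide +kernel⟩
def w618 : PLift (pc FF 10000 [1, 3, 1] 335 64 = true) := ⟨by decide +kernel⟩
def w619 : PLift (oc FF [1, 3, 1, 1] = true) := ⟨by decide +kernel⟩
def w620 : PLift (ec FF [1, 3, 1, 1] 1 = true) := ⟨by decide +kernel⟩
def w621 : PLift (pc FF 10000 [1, 3, 1, 1] 2 5 = true) := ⟨by decide +kernel⟩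
def w622 : PLift (pc FF 10000 [1, 3, 1, 1] 7 73 = true) := ⟨by decide +kernel⟩
def w623 : PLift (pc FF 10000 [1, 3, 1, 1] 80 43 = true) := ⟨by decide +kernel⟩
def w624 : PLift (oc FF [1, 3, 1, 1, 1] = true) := ⟨by decide +kernel⟩
def w625 : PLift (pc FF 10000 [1, 3, 1, 1, 1] 1 28 = true) := ⟨by decide +kernel⟩
def w626 : PLift (pc FF 10000 [1, 3, 1, 1, 1] 29 21 = true) := ⟨by decide +kernel⟩
def w627 : PLift (oc FF [1, 3, 1, 2] = true) := ⟨by decide +kernel⟩
def w628 : PLift (pc FF 10000 [1, 3, 1, 2] 1 5 = true) := ⟨by decide +kernel⟩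
def w629 : PLift (pc FF 10000 [1, 3, 1, 2] 6 45 = true) := ⟨by decide +kernel⟩
def w630 : PLift (oc FF [1, 3, 2] = true) := ⟨by decide +kernel⟩
def w631 : PLift (ec FF [1, 3, 2] 1 = true) := ⟨by decide +kernel⟩
def w632 : PLift (pc FF 10000 [1, 3, 2] 2 4 = true) := ⟨by decide +kernel⟩
def w633 : PLift (pc FF 10000 [1, 3, 2] 6 69 = true) := ⟨by decide +kernel⟩
def w634 : PLift (pc FF 10000 [1, 3, 2] 75 48 = true) := ⟨by decide +kernel⟩
def w635 : PLift (oc FF [1, 3, 2, 1] = true) := ⟨by decide +kernel⟩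
def w636 : PLift (pc FF 10000 [1, 3, 2, 1] 1 17 = true) := ⟨by decide +kernel⟩
def w637 : PLift (pc FF 10000 [1, 3, 2, 1] 18 40 = true) := ⟨by decide +kernel⟩
def w638 : PLift (oc FF [1, 3, 3] = true) := ⟨by decide +kernel⟩
def w639 : PLift (pc FF 10000 [1, 3, 3] 1 1 = true) := ⟨by decide +kernel⟩
def w640 : PLift (pc FF 10000 [1, 3, 3] 2 45 = true) := ⟨by decide +kernel⟩
def w641 : PLift (pc FF 10000 [1, 3, 3] 47 12 = true) := ⟨by decide +kernel⟩
def w642 : PLift (oc FF [1, 3, 4] = true) := ⟨by decide +kernel⟩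
def w643 : PLift (pc FF 10000 [1, 3, 4] 1 28 = true) := ⟨by decide +kernel⟩
def w644 : PLift (pc FF 10000 [1, 3, 4] 29 6 = true) := ⟨by decide +kernel⟩
def w645 : PLift (oc FF [1, 4] = true) := ⟨by decide +kernel⟩
def w646 : PLift (ec FF [1, 4] 1 = true) := ⟨by decide +kernel⟩
def w647 : PLift (ec FF [1, 4] 2 = true) := ⟨by decide +kernel⟩
def w648 : PLift (ec FF [1, 4] 3 = true) := ⟨by decide +kernel⟩
def w649 : PLift (pc FF 10000 [1, 4] 4 1 = true) := ⟨by decide +kernel⟩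
def w650 : PLift (pc FF 10000 [1, 4] 5 3 = true) := ⟨by decide +kernel⟩
def w651 : PLift (pc FF 10000 [1, 4] 8 31 = true) := ⟨by decide +kernel⟩
def w652 : PLift (pc FF 10000 [1, 4] 39 80 = true) := ⟨by decide +kernel⟩
def w653 : PLift (pc FF 10000 [1, 4] 119 80 = true) := ⟨by decide +kernel⟩
def w654 : PLift (pc FF 10000 [1, 4] 199 80 = true) := ⟨by decide +kernel⟩
def w655 : PLift (pc FF 10000 [1, 4] 279 80 = true) := ⟨by decide +kernel⟩
def w656 : PLift (pc FF 10000 [1, 4] 359 41 = true) := ⟨by decide +kernel⟩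
def w657 : PLift (oc FF [1, 4, 1] = true) := ⟨by decide +kernel⟩
def w658 : PLift (ec FF [1, 4, 1] 1 = true) := ⟨by decide +kernel⟩
def w659 : PLift (pc FF 10000 [1, 4, 1] 2 1 = true) := ⟨by decide +kernel⟩
def w660 : PLift (pc FF 10000 [1, 4, 1] 3 2 = true) := ⟨by decide +kernel⟩
def w661 : PLift (pc FF 10000 [1, 4, 1] 5 24 = true) := ⟨by decide +kernel⟩
def w662 : PLift (pc FF 10000 [1, 4, 1] 29 80 = true) := ⟨by decide +kernel⟩
def w663 : PLift (pc FF 10000 [1, 4, 1] 109 80 = true) := ⟨by decide +kernel⟩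
def w664 : PLift (pc FF 10000 [1, 4, 1] 189 80 = true) := ⟨by decide +kernel⟩
def w665 : PLift (pc FF 10000 [1, 4, 1] 269 8 = true) := ⟨by decide +kernel⟩
def w666 : PLift (oc FF [1, 4, 1, 1] = true) := ⟨by decide +kernel⟩
def w667 : PLift (pc FF 10000 [1, 4, 1, 1] 1 1 = true) := ⟨by decide +kernel⟩

end Pool.Agent.SU


end
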