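import Mathlib
import Pool.Agent.RQM.C93
import Pool.Agent.RQM.C97

/-! Parts: SU.W0 -/

section

/-! generated: parts of the tree -/

namespace Pool.Agent.SU

set_option maxRecDepth 100000

def w0 : PLift (oc FF [] = true) := ⟨by decide +kernel⟩
def w1 : PLift (ec FF [] 1 = true) := ⟨by decide +kernel⟩
def w2 : PLift (ec FF [] 2 = true) := ⟨by decide +kernel⟩
def w3 : PLift (ec FF [] 3 = true) := ⟨by decide +kernel⟩
def w4 : PLift (ec FF [] 4 = true) := ⟨by decide +kernel⟩
def w5 : PLift (ec FF [] 5 = true) := ⟨by decide +kernel⟩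
def w6 : PLift (ec FF [] 6 = true) := ⟨by decide +kernel⟩
def w7 : PLift (ec FF [] 7 = true) := ⟨by decide +kernel⟩
def w8 : PLift (ec FF [] 8 = true) := ⟨by decide +kernel⟩
def w9 : PLift (ec FF [] 9 = true) := ⟨by decide +kernel⟩
def w10 : PLift (ec FF [] 10 = true) := ⟨by decide +kernel⟩
def w11 : PLift (ec FF [] 11 = true) := ⟨by decide +kernel⟩
def w12 : PLift (ec FF [] 12 = true) := ⟨by decide +kernel⟩
def w13 : PLift (ec FF [] 13 = true) := ⟨by decide +kernel⟩
def w14 : PLift (ec FF [] 14 = true) := ⟨by decide +kernel⟩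
def w15 : PLift (ec FF [] 15 = true) := ⟨by decide +kernel⟩
def w16 : PLift (ec FF [] 16 = true) := ⟨by decide +kernel⟩
def w17 : PLift (ec FF [] 17 = true) := ⟨by decide +kernel⟩
def w18 : PLift (ec FF [] 18 = true) := ⟨by decide +kernel⟩
def w19 : PLift (ec FF [] 19 = true) := ⟨by decide +kernel⟩
def w20 : PLift (pc FF 10000 [] 20 1 = true) := ⟨by decide +kernel⟩
def w21 : PLift (pc FF 10000 [] 21 1 = true) := ⟨by decide +kernel⟩
def w22 : PLift (pc FF 10000 [] 22 1 = true) := ⟨by decide +kernel⟩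
def w23 : PLift (pc FF 10000 [] 23 1 = true) := ⟨by decide +kernel⟩
def w24 : PLift (pc FF 10000 [] 24 1 = true) := ⟨by decide +kernel⟩
def w25 : PLift (pc FF 10000 [] 25 2 = true) := ⟨by decide +kernel⟩
def w26 : PLift (pc FF 10000 [] 27 2 = true) := ⟨by decide +kernel⟩
def w27 : PLift (pc FF 10000 [] 29 2 = true) := ⟨by decide +kernel⟩
def w28 : PLift (pc FF 10000 [] 31 3 = true) := ⟨by decide +kernel⟩
def w29 : PLift (pc FF 10000 [] 34 4 = true) := ⟨by decide +kernel⟩
def w30 : PLift (pc FF 10000 [] 38 5 = true) := ⟨by decide +kernel⟩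
def w31 : PLift (pc FF 10000 [] 43 8 = true) := ⟨by decide +kernel⟩
def w32 : PLift (pc FF 10000 [] 51 13 = true) := ⟨by decide +kernel⟩
def w33 : PLift (pc FF 10000 [] 64 22 = true) := ⟨by decide +kernel⟩
def w34 : PLift (pc FF 10000 [] 86 52 = true) := ⟨by decide +kernel⟩
def w35 : PLift (pc FF 10000 [] 138 80 = true) := ⟨by decide +kernel⟩
def w36 : PLift (pc FF 10000 [] 218 80 = true) := ⟨by decide +kernel⟩
def w37 : PLift (pc FF 10000 [] 298 80 = true) := ⟨by decide +kernel⟩
def w38 : PLift (pc FF 10000 [] 378 80 = true) := ⟨by decide +kernel⟩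
def w39 : PLift (pc FF 10000 [] 458 80 = true) := ⟨by decide +kernel⟩
def w40 : PLift (pc FF 10000 [] 538 80 = true) := ⟨by decide +kernel⟩
def w41 : PLift (pc FF 10000 [] 618 80 = true) := ⟨by decide +kernel⟩
def w42 : PLift (pc FF 10000 [] 698 80 = true) := ⟨by decide +kernel⟩
def w43 : PLift (pc FF 10000 [] 778 80 = true) := ⟨by decide +kernel⟩
def w44 : PLift (pc FF 10000 [] 858 80 = true) := ⟨by decide +kernel⟩
def w45 : PLift (pc FF 10000 [] 938 80 = true) := ⟨by decide +kernel⟩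
def w46 : PLift (pc FF 10000 [] 1018 80 = true) := ⟨by decide +kernel⟩
def w47 : PLift (pc FF 10000 [] 1098 80 = true) := ⟨by decide +kernel⟩
def w48 : PLift (pc FF 10000 [] 1178 80 = true) := ⟨by decide +kernel⟩
def w49 : PLift (pc FF 10000 [] 1258 80 = true) := ⟨by decide +kernel⟩
def w50 : PLift (pc FF 10000 [] 1338 80 = true) := ⟨by decide +kernel⟩
def w51 : PLift (pc FF 10000 [] 1418 80 = true) := ⟨by decide +kernel⟩
def w52 : PLift (pc FF 10000 [] 1498 80 = true) := ⟨by decide +kernel⟩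
def w53 : PLift (pc FF 10000 [] 1578 80 = true) := ⟨by decide +kernel⟩
def w54 : PLift (pc FF 10000 [] 1658 80 = true) := ⟨by decide +kernel⟩
def w55 : PLift (pc FF 10000 [] 1738 80 = true) := ⟨by decide +kernel⟩
def w56 : PLift (pc FF 10000 [] 1818 80 = true) := ⟨by decide +kernel⟩
def w57 : PLift (pc FF 10000 [] 1898 80 = true) := ⟨by decide +kernel⟩
def w58 : PLift (pc FF 10000 [] 1978 80 = true) := ⟨by decide +kernel⟩
def w59 : PLift (pc FF 10000 [] 2058 80 = true) := ⟨by decide +kernel⟩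
def w60 : PLift (pc FF 10000 [] 2138 80 = true) := ⟨by decide +kernel⟩

end Pool.Agent.SU


end
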