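import Mathlib
import Pool.Agent.RQM.C13
import Pool.Agent.RQM.C28
import Pool.Agent.RQM.C40
import Pool.Agent.RQM.C42
import Pool.Agent.RQM.C44
import Pool.Agent.RQM.C45
import Pool.Agent.RQM.C48
import Pool.Agent.RQM.C50
import Pool.Agent.RQM.C52
import Pool.Agent.RQM.C84
import Pool.Agent.RQM.C89

/-! Parts: SU.RelJ, SU.Mat -/

namespace Pool.Agent.LibH4
end Pool.Agent.LibH4
namespace Pool.Agent.LibH4.CFO
end Pool.Agent.LibH4.CFO
namespace Pool.Agent.Lib_helper5
end Pool.Agent.Lib_helper5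
namespace Pool.Agent.Lib_helper5.LK
end Pool.Agent.Lib_helper5.LK

section

/-!
Real quadratic fields with small units: the folded relations of a period.
-/

namespace Pool.Agent.SU

open Finset Function Pool.Agent.Lib_helper5 Pool.Agent.Lib_helper5.LK Pool.Agent.LibH4
  Pool.Agent.LibH4.CW Pool.Agent.LibH4.S7 Pool.Agent.Lib_helper5.TB Pool.Agent.LibH4.T6
  Pool.Agent.LibH4.KF Pool.Agent.LibH4.CFO Pool.Agent.LibH4.LO

section Lists

variable {q N : ℕ} [NeZero q] {χ : ZMod q → ZMod N}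

/-- the sum over a list of forms -/
def sumJ (χ : ZMod q → ZMod N) (J : List Fm) : ZMod N :=
  (J.map fun j => (j.κ : ZMod N) * KF.XX χ j.P j.R j.S + (j.α : ZMod N) * KF.YX χ j.P j.R j.S).sum

lemma sumJ_cons (j : Fm) (J : List Fm) : sumJ χ (j :: J) =
    ((j.κ : ZMod N) * KF.XX χ j.P j.R j.S + (j.α : ZMod N) * KF.YX χ j.P j.R j.S) + sumJ χ J := by
  unfold sumJ
  rw [List.map_cons, List.sum_cons]

lemma sumJ_nil : sumJ χ [] = 0 := rfl

lemma sum_JT_false (f : ℤ × ℤ × ℤ) (w : List ℕ) :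
    sumJ χ (JT false f w) = W χ f (w.map fun a : ℕ => (a : ℤ)) := by
  induction w generalizing f with
  | nil =>
    simp only [JT, cond_false, sumJ_cons, sumJ_nil, List.map_nil, W, XS]
    push_cast
    ring
  | cons a w ih =>
    simp only [JT, sumJ_cons, List.map_cons, W, Bool.false_and, cond_false]
    rw [ih]
    unfold XS YS
    push_cast
    ring

lemma JT_true_cons (f : ℤ × ℤ × ℤ) (a b : ℕ) (w : List ℕ) :
    JT true f (a :: b :: w) = ⟨f.1, f.2.1, -f.2.2, 6, -(2 * (a : ℤ))⟩ ::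
      JT true (LO.st a f) (b :: w) := by
  simp [JT]

lemma sum_JT_true (f : ℤ × ℤ × ℤ) (w : List ℕ) (b : ℕ) :
    sumJ χ (JT true f (w ++ [b])) = W χ f ((w ++ [b]).map fun a : ℕ => (a : ℤ)) -
      3 * XS χ (en f ((w ++ [b]).map fun a : ℕ => (a : ℤ))) +
      (b : ZMod N) * YS χ (en f (w.map fun a : ℕ => (a : ℤ))) := by
  induction w generalizing f with
  | nil =>
    simp only [JT, List.nil_append, cond_true, sumJ_cons, sumJ_nil, List.map_nil, List.map_cons, W,
      en, Bool.true_and, List.isEmpty_nil]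
    unfold XS YS
    push_cast
    ring
  | cons a w ih =>
    have e : JT true f (a :: w ++ [b]) = ⟨f.1, f.2.1, -f.2.2, 6, -(2 * (a : ℤ))⟩ ::
        JT true (LO.st a f) (w ++ [b]) := by
      rw [List.cons_append]
      cases w with
      | nil => exact JT_true_cons f a b []
      | cons a' w' => exact JT_true_cons f a a' (w' ++ [b])
    rw [e, sumJ_cons, ih]
    simp only [List.cons_append, List.map_cons, W, en]
    unfold XS YS
    push_cast
    ring

end Lists

lemma disc_JT (par : Bool) (D : ℤ) (f : ℤ × ℤ × ℤ) (hf : dis f = D) (w : List ℕ) :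
    ∀ j ∈ JT par f w, j.R ^ 2 - 4 * j.P * j.S = D := by
  have key : ∀ g : ℤ × ℤ × ℤ, dis g = D → g.2.1 ^ 2 - 4 * g.1 * (-g.2.2) = D := by
    intro g hg
    rw [← hg]
    unfold dis
    ring
  induction w generalizing f with
  | nil =>
    intro j hj
    cases par with
    | true => simp [JT] at hj
    | false =>
      simp only [JT, cond_false, List.mem_singleton] at hj
      subst hj
      exact key f hf
  | cons a w ih =>
    intro j hj
    simp only [JT, List.mem_cons] at hj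
    rcases hj with rfl | hj
    · exact key f hf
    · exact ih _ ((dis_st _ _).trans hf) j hj

lemma disc_JH (par : Bool) (B m : ℤ) (w : List ℕ) :
    ∀ j ∈ JH par B m w, j.R ^ 2 - 4 * j.P * j.S = B ^ 2 + 4 * m := by
  intro j hj
  unfold JH at hj
  rcases List.mem_cons.1 hj with rfl | hj
  · change B ^ 2 - 4 * m * (-1) = _
    ring
  · apply disc_JT par _ (1, B, m) _ w j hj
    unfold dis
    ring

variable {m B : ℤ} {s : ℝ} {x : ℕ → ℝ} {c : ℕ → ℕ}

lemma wn_map (c : ℕ → ℕ) (k n : ℕ) : (wn c k n).map (fun a : ℕ => (a : ℤ)) = wd c k n := by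
  rw [LO.wd_eq]
  unfold wn
  rw [List.map_map]
  rfl

lemma wn_succ (c : ℕ → ℕ) (k n : ℕ) : wn c k (n + 1) = wn c k n ++ [c (k + n)] := by
  unfold wn
  rw [List.range_succ, List.map_append]
  rfl

/-- **consequences of inert small primes** -/
lemma basicsB {d : ℕ} (hd : (d : ℤ) = B ^ 2 + 4 * m)
    (hin : ∀ p : ℕ, p.Prime → p ≤ 29 → ∀ X : ℤ, ¬ (p : ℤ) ∣ X ^ 2 + B * X - m) :
    m % 2 = 1 ∧ B % 2 = 1 ∧ d % 8 = 5 ∧ DOK (B ^ 2 + 4 * m) ∧ K5.In 29 (B ^ 2 + 4 * m) ∧
      Nat.Coprime d (QB ^ 6) := by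
  obtain ⟨h1, h2, h3, h4, h5⟩ := basics hd (fun p hp hle => hin p hp (by omega))
  have hj := in_of_root hd (p := 29) (by norm_num) (by norm_num)
    (hin 29 (by norm_num) le_rfl)
  rw [← hd]
  refine ⟨h1, h2, h3, h4, In_of_jac (by norm_num) (by simp) hj, ?_⟩
  unfold QB
  rw [mul_pow]
  apply Nat.Coprime.mul_right h5
  apply Nat.Coprime.pow_right
  rw [Nat.coprime_comm, Nat.Prime.coprime_iff_not_dvd (by norm_num)]
  intro hdvd
  have hne : jacobiSym (d : ℤ) 29 ≠ 0 := by rw [hj]; norm_num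
  apply hne
  have : Fact (Nat.Prime 29) := ⟨by norm_num⟩
  rw [← jacobiSym.legendreSym.to_jacobiSym, legendreSym.eq_zero_iff]
  have : ((d : ℕ) : ZMod 29) = 0 := by rw [ZMod.natCast_eq_zero_iff]; exact hdvd
  exact_mod_cast this

/-- the conditions on the characters -/
lemma cond_charB {d : ℕ} (hcopP : Nat.Coprime d (QB ^ 6))
    (n1 n2 n3 M T1 T2 T3 : ℕ) [NeZero n1] [NeZero n2] [NeZero n3] [NeZero (n1 * n2)]
    [NeZero (n1 * n2 * n3)] (h1 : relOk n1 n2 n3 M T1 T2 T3 = true) (h2 : tabCk n1 M T1 = true)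
    (h3 : tabCk n2 M T2 = true) (h4 : tabCk n3 M T3 = true) (hM : M % 2 = 1)
    (h5 : (n1 * n2 * n3 * M) ∣ QB ^ 6) :
    Nat.Coprime (n1 * n2 * n3) d ∧ Nat.Coprime d M ∧
    (∀ x, tri (tabc n1 M T1) (tabc n2 M T2) (tabc n3 M T3) (-x) =
      - tri (tabc n1 M T1) (tabc n2 M T2) (tabc n3 M T3) x) ∧
    (∀ x y, tri (tabc n1 M T1) (tabc n2 M T2) (tabc n3 M T3) (x * y) =
      tri (tabc n1 M T1) (tabc n2 M T2) (tabc n3 M T3) x *
        tri (tabc n1 M T1) (tabc n2 M T2) (tabc n3 M T3) y) ∧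
    (∑ u ∈ range (n1 * n2 * n3), (u : ZMod M) *
      tri (tabc n1 M T1) (tabc n2 M T2) (tabc n3 M T3) (u : ZMod (n1 * n2 * n3))) *
      ((n1 * n2 * n3 : ℕ) : ZMod M) = 0 := by
  have hN : 0 < M := by omega
  obtain ⟨ho, hs⟩ := K4.relOk_spec hN h1 h2 h3 h4
  exact ⟨(Nat.Coprime.coprime_dvd_right ((Dvd.intro _ rfl).trans h5) hcopP).symm,
    Nat.Coprime.coprime_dvd_right ((Dvd.intro_left _ rfl).trans h5) hcopP, ho,
    (tri_char (n1 := n1) (n2 := n2) (n3 := n3) (tabCk_char h2) (tabCk_char h3)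
      (tabCk_char h4)).mul, hs⟩

/-- **odd periods** -/
theorem relJ_odd (h : Data m B s x c) (hm : 0 < m) {I : ℕ}
    (hL : minimalPeriod gsh (x 1) = 2 * I + 1)
    [IsDomain (QuadraticAlgebra ℤ m B)] [UniqueFactorizationMonoid (QuadraticAlgebra ℤ m B)]
    {d : ℕ} (hd : (d : ℤ) = B ^ 2 + 4 * m)
    (hin : ∀ p : ℕ, p.Prime → p ≤ 29 → ∀ X : ℤ, ¬ (p : ℤ) ∣ X ^ 2 + B * X - m) :
    RelJ (B ^ 2 + 4 * m) (JH false B m (wn c 1 I)) := by
  obtain ⟨hm2, hB2, h8, hD, h29, hcop⟩ := basicsB hd hin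
  refine ⟨hD, h29, disc_JH _ _ _ _, ?_⟩
  intro n1 n2 n3 M T1 T2 T3 _ _ _ _ _ h1 h2 h3 h4 hM h5
  obtain ⟨c1, c2, c3, c4, c5⟩ := cond_charB hcop n1 n2 n3 M T1 T2 T3 h1 h2 h3 h4 hM h5
  have key := V_eq_zero h hm hm2 hB2 hL hd h8 c1 hM c2 _ c3 c4 c5
  unfold V at key
  change sumJ _ (JH false B m (wn c 1 I)) = 0
  unfold JH
  rw [sumJ_cons, sum_JT_false, wn_map]
  rw [← key]
  unfold YS
  push_cast
  ring

/-- **even periods** -/
theorem relJ_even (h : Data m B s x c) (hm : 0 < m) {J : ℕ} (hJ : 0 < J)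
    (hL : minimalPeriod gsh (x 1) = 2 * J)
    [IsDomain (QuadraticAlgebra ℤ m B)] [UniqueFactorizationMonoid (QuadraticAlgebra ℤ m B)]
    {d : ℕ} (hd : (d : ℤ) = B ^ 2 + 4 * m)
    (hin : ∀ p : ℕ, p.Prime → p ≤ 29 → ∀ X : ℤ, ¬ (p : ℤ) ∣ X ^ 2 + B * X - m) :
    RelJ (B ^ 2 + 4 * m) (JH true B m (wn c 1 J)) := by
  obtain ⟨hm2, hB2, h8, hD, h29, hcop⟩ := basicsB hd hin
  refine ⟨hD, h29, disc_JH _ _ _ _, ?_⟩
  intro n1 n2 n3 M T1 T2 T3 _ _ _ _ _ h1 h2 h3 h4 hM h5
  obtain ⟨c1, c2, c3, c4, c5⟩ := cond_charB hcop n1 n2 n3 M T1 T2 T3 h1 h2 h3 h4 hM h5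
  have key := even_rel h hm hm2 hB2 hJ hL hd h8 c1 hM c2 _ c3 c4 c5
  rw [fold_even h hJ hL c3] at key
  unfold V at key
  obtain ⟨n, rfl⟩ : ∃ n, J = n + 1 := ⟨J - 1, by omega⟩
  change sumJ _ (JH true B m (wn c 1 (n + 1))) = 0
  unfold JH
  have e1 : ((1, B, m) : ℤ × ℤ × ℤ) = qst m B c 1 := by
    rw [qst_eta, QR_one h, QS_one h]; rfl
  rw [sumJ_cons, wn_succ, sum_JT_true, ← wn_succ, wn_map, wn_map, e1, en_wd, en_wd, ← e1]
  rw [show n + 1 + 1 = 1 + (n + 1) by ring, show n + 1 = 1 + n by ring] at key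
  rw [show 1 + (n + 1) = 1 + (1 + n) by ring, show n + 1 = 1 + n by ring]
  rw [← key]
  unfold YS
  push_cast
  ring

end Pool.Agent.SU


end

section

/-!
Real quadratic fields with small units: matrices of words and the closing of the period.
-/

namespace Pool.Agent.SU

open Finset Function Pool.Agent.Lib_helper5 Pool.Agent.LibH4 Pool.Agent.LibH4.CFO
  Pool.Agent.LibH4.LO

/-- product of matrices -/
def mulM (M N : ℕ × ℕ × ℕ × ℕ) : ℕ × ℕ × ℕ × ℕ :=
  (M.1 * N.1 + M.2.1 * N.2.2.1, M.1 * N.2.1 + M.2.1 * N.2.2.2,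
    M.2.2.1 * N.1 + M.2.2.2 * N.2.2.1, M.2.2.1 * N.2.1 + M.2.2.2 * N.2.2.2)

/-- transposed matrix -/
def trM (M : ℕ × ℕ × ℕ × ℕ) : ℕ × ℕ × ℕ × ℕ := (M.1, M.2.2.1, M.2.1, M.2.2.2)

lemma stepM_eq (M : ℕ × ℕ × ℕ × ℕ) (a : ℕ) : stepM M a = mulM M (a, 1, 1, 0) := by
  unfold stepM mulM
  ext <;> simp <;> ring

lemma mulM_assoc (A B C : ℕ × ℕ × ℕ × ℕ) : mulM (mulM A B) C = mulM A (mulM B C) := by
  unfold mulM
  ext <;> simp <;> ring

lemma mulM_one (A : ℕ × ℕ × ℕ × ℕ) : mulM A (1, 0, 0, 1) = A := by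
  unfold mulM
  ext <;> simp

lemma one_mulM (A : ℕ × ℕ × ℕ × ℕ) : mulM (1, 0, 0, 1) A = A := by
  unfold mulM
  ext <;> simp

lemma foldl_stepM (M : ℕ × ℕ × ℕ × ℕ) (w : List ℕ) : w.foldl stepM M = mulM M (mat w) := by
  induction w generalizing M with
  | nil => exact (mulM_one M).symm
  | cons a w ih =>
    rw [List.foldl_cons, ih]
    unfold mat
    rw [List.foldl_cons, ih (stepM (1, 0, 0, 1) a), ← mulM_assoc, stepM_eq, stepM_eq, one_mulM]
    rfl

lemma mat_append (w w' : List ℕ) : mat (w ++ w') = mulM (mat w) (mat w') := by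
  have : mat (w ++ w') = (w ++ w').foldl stepM (1, 0, 0, 1) := rfl
  rw [this, List.foldl_append, foldl_stepM]
  rfl

lemma mat_concat (w : List ℕ) (a : ℕ) : mat (w ++ [a]) = stepM (mat w) a := by
  have : mat (w ++ [a]) = (w ++ [a]).foldl stepM (1, 0, 0, 1) := rfl
  rw [this, List.foldl_append]
  rfl

lemma mat_single (a : ℕ) : mat [a] = (a, 1, 1, 0) := by
  unfold mat stepM
  simp

lemma trM_mulM (A B : ℕ × ℕ × ℕ × ℕ) : trM (mulM A B) = mulM (trM B) (trM A) := by
  unfold mulM trM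
  ext <;> simp <;> ring

lemma mat_reverse (w : List ℕ) : mat w.reverse = trM (mat w) := by
  induction w with
  | nil => rfl
  | cons a w ih =>
    rw [List.reverse_cons, mat_append, ih, show a :: w = [a] ++ w by rfl, mat_append, trM_mulM,
      mat_single]
    rfl

/-- determinant -/
def detM (M : ℕ × ℕ × ℕ × ℕ) : ℤ := (M.1 : ℤ) * M.2.2.2 - M.2.1 * M.2.2.1

lemma det_mat (w : List ℕ) : detM (mat w) = (-1) ^ w.length := by
  induction w using List.reverseRecOn with
  | nil => simp [mat, detM]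
  | append_singleton w a ih =>
    rw [mat_concat, List.length_append, List.length_singleton, pow_succ, ← ih]
    unfold detM stepM
    push_cast
    ring

/-- the value of the quadratic form -/
def qw (B m X Y : ℤ) : ℤ := X ^ 2 + B * X * Y - m * Y ^ 2

/-- the form after a word -/
lemma en_mat (B m : ℤ) (w : List ℕ) :
    en (1, B, m) (w.map fun a : ℕ => (a : ℤ)) =
      ((-1) ^ w.length * qw B m (mat w).2.2.2 (mat w).2.1,
        (-1) ^ w.length * (2 * (mat w).2.2.1 * (mat w).2.2.2 +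
          B * ((mat w).2.2.2 * (mat w).1 + (mat w).2.1 * (mat w).2.2.1) -
          2 * m * (mat w).1 * (mat w).2.1),
        (-1) ^ (w.length + 1) * qw B m (mat w).2.2.1 (mat w).1) := by
  induction w using List.reverseRecOn with
  | nil => simp [mat, qw, en]
  | append_singleton w a ih =>
    have e1 : ∀ (L : List ℤ) (f : ℤ × ℤ × ℤ) (x : ℤ), en f (L ++ [x]) = st x (en f L) := by
      intro L
      induction L with
      | nil => intro f x; rfl
      | cons y L ih => intro f x; exact ih _ _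
    rw [List.map_append, List.map_cons, List.map_nil, e1, ih, mat_concat, List.length_append,
      List.length_singleton]
    unfold st stepM qw
    simp only
    push_cast
    refine Prod.ext ?_ (Prod.ext ?_ ?_)
    · simp only
    · simp only
      ring
    · simp only
      ring

/-- positive letters -/
def PosW (w : List ℕ) : Prop := ∀ a ∈ w, 1 ≤ a

lemma mat_pos {w : List ℕ} (hw : PosW w) : 1 ≤ (mat w).1 ∧ (mat w).2.1 ≤ (mat w).1 := by
  induction w using List.reverseRecOn with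
  | nil => simp [mat]
  | append_singleton w a ih =>
    have hw' : PosW w := fun b hb => hw b (List.mem_append_left _ hb)
    have ha : 1 ≤ a := hw a (by simp)
    obtain ⟨h1, h2⟩ := ih hw'
    rw [mat_concat]
    unfold stepM
    simp only
    have h3 : 1 * (mat w).1 ≤ a * (mat w).1 := Nat.mul_le_mul_right _ ha
    constructor <;> omega

variable {m B : ℤ} {s : ℝ} {x : ℕ → ℝ} {c : ℕ → ℕ}

lemma wn_pos (h : Data m B s x c) (k n : ℕ) : PosW (wn c k n) := by
  intro a ha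
  unfold wn at ha
  obtain ⟨i, -, rfl⟩ := List.mem_map.1 ha
  exact (inv_of h (k + i)).cpos

lemma wn_length (k n : ℕ) : (wn c k n).length = n := by simp [wn]

lemma wn_add (k n n' : ℕ) : wn c k (n + n') = wn c k n ++ wn c (k + n) n' := by
  unfold wn
  rw [List.range_add, List.map_append, List.map_map]
  congr 1
  apply List.map_congr_left
  intro i _
  simp [add_assoc]

lemma qst_wn (h : Data m B s x c) (n : ℕ) : qst m B c (n + 1) =
    en (1, B, m) ((wn c 1 n).map fun a : ℕ => (a : ℤ)) := by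
  have e1 : ((1, B, m) : ℤ × ℤ × ℤ) = qst m B c 1 := by
    rw [qst_eta, QR_one h, QS_one h]; rfl
  rw [wn_map, e1, en_wd, add_comm]

/-- **the closing equation** -/
theorem closing_eq (h : Data m B s x c) {L : ℕ} (hL0 : 0 < L)
    (hL : minimalPeriod gsh (x 1) = L) {v u z : ℕ} (hM : mat (wn c 1 (L - 1)) = (v, u, u, z)) :
    m * v = B * u + z ∧ (z : ℤ) * v = (u : ℤ) ^ 2 - (-1) ^ L := by
  obtain ⟨n, rfl⟩ : ∃ n, L = n + 1 := ⟨L - 1, by omega⟩
  rw [Nat.add_sub_cancel] at hM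
  have hz : x (n + 1) = x 0 := by have := per_of h hL 0; rwa [zero_add] at this
  have hS := (state_eq h hz).2.2
  have hS0 : QS m B c 0 = 1 := rfl
  have hS1 : QS m B c (n + 1) = (en (1, B, m) ((wn c 1 n).map fun a : ℕ => (a : ℤ))).2.2 := by
    rw [← qst_wn h n]; rfl
  rw [hS0, hS1, en_mat, hM, wn_length] at hS
  simp only at hS
  have hdet := det_mat (wn c 1 n)
  rw [hM, wn_length] at hdet
  unfold detM at hdet
  simp only at hdet
  have hv := (mat_pos (wn_pos h 1 n)).1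
  rw [hM] at hv
  simp only at hv
  have hsg : ((-1 : ℤ) ^ (n + 1)) * (-1) ^ (n + 1) = 1 := by
    rw [← mul_pow]; norm_num
  have hq : qw B m u v = (-1) ^ (n + 1) := by
    linear_combination (-1) ^ (n + 1) * hS - qw B m u v * hsg
  have e2 : (z : ℤ) * v = (u : ℤ) ^ 2 - (-1) ^ (n + 1) := by
    rw [pow_succ]
    linear_combination hdet
  refine ⟨?_, e2⟩
  have hv' : (v : ℤ) ≠ 0 := by
    have : (1 : ℤ) ≤ v := by exact_mod_cast hv
    omega
  apply mul_left_cancel₀ hv'
  unfold qw at hq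
  linear_combination -hq - e2

/-- palindromic words -/
lemma wn_reverse (h : Data m B s x c) {L : ℕ} (hL : minimalPeriod gsh (x 1) = L) {k n : ℕ}
    (hk : 1 ≤ k) (hkn : k + n ≤ L) : wn c (L + 1 - k - n) n = (wn c k n).reverse := by
  have hper := per_of h hL
  apply List.ext_getElem
  · simp [wn]
  · intro i h1 h2
    rw [wn_length] at h1
    rw [List.getElem_reverse]
    simp only [wn, List.getElem_map, List.getElem_range, List.length_map, List.length_range]
    exact (palin h hper (k + (n - 1 - i)) (L + 1 - k - n + i) (by omega)).2.2.2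

/-- the matrix of an odd period -/
theorem mat_odd (h : Data m B s x c) {I : ℕ} (hL : minimalPeriod gsh (x 1) = 2 * I + 1)
    {k k' r r' : ℕ} (hM : mat (wn c 1 I) = (k, k', r, r')) :
    mat (wn c 1 (2 * I + 1 - 1)) =
      (k * k + k' * k', k * r + k' * r', k * r + k' * r', r * r + r' * r') := by
  have e : wn c 1 (2 * I + 1 - 1) = wn c 1 I ++ (wn c 1 I).reverse := by
    rw [Nat.add_sub_cancel, two_mul, wn_add]
    congr 1
    have := wn_reverse h hL (k := 1) (n := I) le_rfl (by omega)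
    rw [← this]
    congr 1
    omega
  rw [e, mat_append, mat_reverse, hM]
  unfold mulM trM
  simp only
  ext <;> simp <;> ring

/-- the matrix of an even period -/
theorem mat_even (h : Data m B s x c) {J : ℕ} (hL : minimalPeriod gsh (x 1) = 2 * (J + 1))
    {k k' r r' : ℕ} (hM : mat (wn c 1 J) = (k, k', r, r')) :
    mat (wn c 1 (2 * (J + 1) - 1)) =
      (k * (c (J + 1) * k + 2 * k'), c (J + 1) * k * r + k * r' + k' * r,
        c (J + 1) * k * r + k * r' + k' * r, r * (c (J + 1) * r + 2 * r')) := by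
  have e : wn c 1 (2 * (J + 1) - 1) = wn c 1 (J + 1) ++ (wn c 1 J).reverse := by
    rw [show 2 * (J + 1) - 1 = (J + 1) + J by omega, wn_add]
    congr 1
    have := wn_reverse h hL (k := 1) (n := J) le_rfl (by omega)
    rw [← this]
    congr 1
    omega
  rw [e, mat_append, mat_reverse, wn_succ, mat_concat, hM, add_comm 1 J]
  unfold mulM trM stepM
  simp only
  ext <;> simp <;> ring

end Pool.Agent.SU


end
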