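import Mathlib
import Pool.Agent.RQM.C12
import Pool.Agent.RQM.C41
import Pool.Agent.RQM.C42
import Pool.Agent.RQM.C44
import Pool.Agent.RQM.C52
import Pool.Agent.RQM.C77
import Pool.Agent.RQM.C88
import Pool.Agent.RQM.C89
import Pool.Agent.RQM.C90

/-! Parts: SU.Tree, SU.Small, SU.Sieve -/

namespace Pool.Agent.LibH4
end Pool.Agent.LibH4
namespace Pool.Agent.LibH4.CFO
end Pool.Agent.LibH4.CFO
namespace Pool.Agent.LibH4.CW
end Pool.Agent.LibH4.CW
namespace Pool.Agent.LibH4.Ker
end Pool.Agent.LibH4.Ker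
namespace Pool.Agent.LibH4.LO
end Pool.Agent.LibH4.LO
namespace Pool.Agent.Lib_helper5
end Pool.Agent.Lib_helper5

section

/-!
Real quadratic fields with small units: the tree of the half words.
-/

namespace Pool.Agent.SU

open Pool.Agent.LibH4.Ker Pool.Agent.LibH4.CW

/-! ### kernel functions -/

lemma andB_true {p q : Bool} (h : andB p q = true) : p = true ∧ q = true := by
  unfold andB at h
  cases p
  · exact absurd (show false = true from h) (by decide)
  · exact ⟨rfl, h⟩

lemma br_true {p r : Bool} (h : br p r = true) (hp : p = true) : r = true := by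
  unfold br at h
  subst hp
  exact h

lemma allR_true {p : ℕ → Bool} {n : ℕ} (h : allR p n = true) (i : ℕ) (hi : i < n) :
    p i = true := by
  induction n with
  | zero => omega
  | succ n ih =>
    have h2 : @Bool.rec (fun _ => Bool) false (allR p n) (p n) = true := h
    cases hp : p n with
    | false => rw [hp] at h2; exact absurd (show false = true from h2) (by decide)
    | true =>
      rw [hp] at h2
      rcases Nat.lt_or_eq_of_le (Nat.lt_succ_iff.1 hi) with h3 | h3
      · exact ih h2 h3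
      · rw [h3]; exact hp

/-! ### words -/

lemma pk_concat (w : List ℕ) (a : ℕ) : pk (w ++ [a]) = pk w + a * 2 ^ (20 * w.length) := by
  induction w with
  | nil => simp [pk]
  | cons b w ih =>
    change b + 2 ^ 20 * pk (w ++ [a]) = b + 2 ^ 20 * pk w + _
    rw [ih, List.length_cons, show 20 * (w.length + 1) = 20 + 20 * w.length by ring, pow_add]
    ring

/-- the size of a word -/
def nn (w : List ℕ) : ℕ := (mat w).1 ^ 2 + (mat w).2.1 ^ 2

lemma nn_concat (w : List ℕ) (a : ℕ) :
    nn (w ++ [a]) = (a * (mat w).1 + (mat w).2.1) ^ 2 + (mat w).1 ^ 2 := by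
  unfold nn
  rw [mat_concat]
  rfl

lemma nn_le {w : List ℕ} (hw : PosW w) (w' : List ℕ) (hw' : PosW w') : nn w ≤ nn (w ++ w') := by
  induction w' using List.reverseRecOn with
  | nil => rw [List.append_nil]
  | append_singleton w' a ih =>
    have h1 : PosW w' := fun b hb => hw' b (List.mem_append_left _ hb)
    have ha : 1 ≤ a := hw' a (by simp)
    refine (ih h1).trans ?_
    rw [← List.append_assoc, nn_concat]
    have h2 := mat_pos (w := w ++ w') (fun b hb => by
      rcases List.mem_append.1 hb with hb | hb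
      · exact hw b hb
      · exact h1 b hb)
    unfold nn
    set K := (mat (w ++ w')).1
    set K' := (mat (w ++ w')).2.1
    have h3 : K ≤ a * K + K' := by
      have : 1 * K ≤ a * K := Nat.mul_le_mul_right _ ha
      omega
    have h4 : K ^ 2 ≤ (a * K + K') ^ 2 := Nat.pow_le_pow_left h3 2
    have h5 : K' ^ 2 ≤ K ^ 2 := Nat.pow_le_pow_left h2.2 2
    omega

/-- the continuant of an even period -/
def ev (w : List ℕ) (a : ℕ) : ℕ := (mat w).1 * (a * (mat w).1 + 2 * (mat w).2.1)

lemma ev_le (w : List ℕ) {a : ℕ} (ha : 1 ≤ a) : ev w a ≤ nn (w ++ [a]) := by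
  rw [nn_concat]
  unfold ev
  set K := (mat w).1
  set K' := (mat w).2.1
  obtain ⟨b, rfl⟩ : ∃ b, a = b + 1 := ⟨a - 1, by omega⟩
  have e : ((b + 1) * K + K') ^ 2 + K ^ 2 = K * ((b + 1) * K + 2 * K') +
      (b * (b + 1) * K ^ 2 + 2 * b * K * K' + K' ^ 2 + K ^ 2) := by ring
  rw [e]
  exact Nat.le_add_right _ _

lemma nn_le_ev {w : List ℕ} (hw : PosW w) {a : ℕ} (ha : 1 ≤ a) : nn w ≤ ev w a := by
  unfold nn ev
  have h := (mat_pos hw).2
  set K := (mat w).1
  set K' := (mat w).2.1
  have h1 : 1 * K ≤ a * K := Nat.mul_le_mul_right _ ha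
  have h2 : K * (K + 2 * K') ≤ K * (a * K + 2 * K') := Nat.mul_le_mul_left _ (by omega)
  have h3 : K' * K' ≤ K * K' := Nat.mul_le_mul_right _ h
  nlinarith

/-! ### families -/

/-- the check of a family with the matrix of the period -/
def Fw (F : Bool → ℕ → ℕ → ℕ → ℕ → ℕ → Bool) (par : Bool) (w : List ℕ)
    (M : ℕ × ℕ × ℕ × ℕ) : Prop := F par w.length (pk w) M.1 M.2.1 M.2.2.2 = true

/-- the matrix of an odd period from the matrix of the half word -/
def oM (M : ℕ × ℕ × ℕ × ℕ) : ℕ × ℕ × ℕ × ℕ :=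
  (M.1 * M.1 + M.2.1 * M.2.1, M.1 * M.2.2.1 + M.2.1 * M.2.2.2,
    M.1 * M.2.2.1 + M.2.1 * M.2.2.2, M.2.2.1 * M.2.2.1 + M.2.2.2 * M.2.2.2)

/-- the matrix of an even period from the matrix of the half word and the middle letter -/
def eM (M : ℕ × ℕ × ℕ × ℕ) (a : ℕ) : ℕ × ℕ × ℕ × ℕ :=
  (M.1 * (a * M.1 + 2 * M.2.1), a * M.1 * M.2.2.1 + M.1 * M.2.2.2 + M.2.1 * M.2.2.1,
    a * M.1 * M.2.2.1 + M.1 * M.2.2.2 + M.2.1 * M.2.2.1,
    M.2.2.1 * (a * M.2.2.1 + 2 * M.2.2.2))

/-- all families of the words which start with `w` are checked -/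
def AB (F : Bool → ℕ → ℕ → ℕ → ℕ → ℕ → Bool) (X : ℕ) (w : List ℕ) : Prop :=
  (∀ w', PosW w' → nn (w ++ w') ≤ X → Fw F false (w ++ w') (oM (mat (w ++ w')))) ∧
  ∀ w' a, PosW w' → 1 ≤ a → ev (w ++ w') a ≤ X →
    Fw F true (w ++ w' ++ [a]) (eM (mat (w ++ w')) a)

variable {F : Bool → ℕ → ℕ → ℕ → ℕ → ℕ → Bool} {X : ℕ}

lemma AB_of {w : List ℕ} (hw : PosW w) (h0 : nn w ≤ X → Fw F false w (oM (mat w)))
    (h1 : ∀ a, 1 ≤ a → ev w a ≤ X → Fw F true (w ++ [a]) (eM (mat w) a) ∧
      (nn (w ++ [a]) ≤ X → AB F X (w ++ [a]))) : AB F X w := by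
  have hcc : ∀ (a : ℕ) (w' : List ℕ), PosW (a :: w') → 1 ≤ a ∧ PosW w' ∧ PosW (w ++ [a]) := by
    intro a w' h
    have ha : 1 ≤ a := h a List.mem_cons_self
    refine ⟨ha, fun b hb => h b (List.mem_cons_of_mem _ hb), fun b hb => ?_⟩
    rcases List.mem_append.1 hb with hb | hb
    · exact hw b hb
    · rw [List.mem_singleton.1 hb]; exact ha
  have happ : ∀ (a : ℕ) (w' : List ℕ), w ++ a :: w' = w ++ [a] ++ w' := by
    intro a w'
    rw [List.append_assoc]
    rfl
  constructor
  · intro w' hw' hn
    cases w' with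
    | nil =>
      rw [List.append_nil] at hn ⊢
      exact h0 hn
    | cons a w' =>
      obtain ⟨ha, hw1, hw2⟩ := hcc a w' hw'
      rw [happ] at hn ⊢
      have h2 : nn (w ++ [a]) ≤ X := (nn_le hw2 w' hw1).trans hn
      exact ((h1 a ha ((ev_le w ha).trans h2)).2 h2).1 w' hw1 hn
  · intro w' b hw' hb hn
    cases w' with
    | nil =>
      rw [List.append_nil] at hn ⊢
      exact (h1 b hb hn).1
    | cons a w' =>
      obtain ⟨ha, hw1, hw2⟩ := hcc a w' hw'
      rw [happ] at hn ⊢
      have h3 : PosW (w ++ [a] ++ w') := by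
        intro e he
        rcases List.mem_append.1 he with he | he
        · exact hw2 e he
        · exact hw1 e he
      have h2 : nn (w ++ [a]) ≤ X := ((nn_le hw2 w' hw1).trans (nn_le_ev h3 hb)).trans hn
      exact ((h1 a ha ((ev_le w ha).trans h2)).2 h2).2 w' b hw1 hb hn

/-- specification of the function for the words below -/
def IH (F : Bool → ℕ → ℕ → ℕ → ℕ → ℕ → Bool) (X : ℕ) (ih : ℕ → ℕ → ℕ → ℕ → ℕ → ℕ → Bool) : Prop :=
  ∀ w, PosW w → ih w.length (pk w) (mat w).1 (mat w).2.1 (mat w).2.2.1 (mat w).2.2.2 = true →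
    AB F X w

lemma stepA_spec {ih : ℕ → ℕ → ℕ → ℕ → ℕ → ℕ → Bool} (hih : IH F X ih) {w : List ℕ}
    (hw : PosW w) {a : ℕ} (ha : 1 ≤ a)
    (h : stepA F X ih w.length (pk w) (mat w).1 (mat w).2.1 (mat w).2.2.1 (mat w).2.2.2 a = true) :
    Fw F true (w ++ [a]) (eM (mat w) a) ∧ (nn (w ++ [a]) ≤ X → AB F X (w ++ [a])) := by
  obtain ⟨h1, h2⟩ := andB_true h
  have hpk : Nat.add (pk w) (Nat.mul a (Nat.pow 2 (Nat.mul 20 w.length))) = pk (w ++ [a]) :=
    (pk_concat w a).symm
  have hlen : Nat.succ w.length = (w ++ [a]).length := by simp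
  have hm := mat_concat w a
  constructor
  · unfold Fw
    have e1 : (eM (mat w) a).1 = Nat.mul (mat w).1 (Nat.add (Nat.add (Nat.mul a (mat w).1)
        (mat w).2.1) (mat w).2.1) := by
      change (mat w).1 * (a * (mat w).1 + 2 * (mat w).2.1) =
        (mat w).1 * (a * (mat w).1 + (mat w).2.1 + (mat w).2.1)
      ring
    have e2 : (eM (mat w) a).2.1 = Nat.add (Nat.mul (Nat.add (Nat.mul a (mat w).1) (mat w).2.1)
        (mat w).2.2.1) (Nat.mul (mat w).1 (mat w).2.2.2) := by
      change a * (mat w).1 * (mat w).2.2.1 + (mat w).1 * (mat w).2.2.2 +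
        (mat w).2.1 * (mat w).2.2.1 = (a * (mat w).1 + (mat w).2.1) * (mat w).2.2.1 +
          (mat w).1 * (mat w).2.2.2
      ring
    have e3 : (eM (mat w) a).2.2.2 = Nat.mul (mat w).2.2.1 (Nat.add (Nat.add (Nat.mul a
        (mat w).2.2.1) (mat w).2.2.2) (mat w).2.2.2) := by
      change (mat w).2.2.1 * (a * (mat w).2.2.1 + 2 * (mat w).2.2.2) =
        (mat w).2.2.1 * (a * (mat w).2.2.1 + (mat w).2.2.2 + (mat w).2.2.2)
      ring
    rw [e1, e2, e3, ← hlen, ← hpk]
    exact h1
  · intro hn
    apply hih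
    · intro b hb
      rcases List.mem_append.1 hb with hb | hb
      · exact hw b hb
      · rw [List.mem_singleton.1 hb]; exact ha
    · rw [hm, ← hlen, ← hpk]
      apply br_true h2
      rw [Nat.ble_eq]
      rw [nn_concat] at hn
      have e : Nat.add (Nat.mul (Nat.add (Nat.mul a (mat w).1) (mat w).2.1)
          (Nat.add (Nat.mul a (mat w).1) (mat w).2.1)) (Nat.mul (mat w).1 (mat w).1) =
          (a * (mat w).1 + (mat w).2.1) ^ 2 + (mat w).1 ^ 2 := by
        change (a * (mat w).1 + (mat w).2.1) * (a * (mat w).1 + (mat w).2.1) +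
          (mat w).1 * (mat w).1 = _
        ring
      rw [e]
      exact hn

lemma rangeW_spec {ih : ℕ → ℕ → ℕ → ℕ → ℕ → ℕ → Bool} (hih : IH F X ih) {w : List ℕ}
    (hw : PosW w) {lo n : ℕ} (hlo : 1 ≤ lo)
    (h : rangeW F X ih w.length (pk w) (mat w).1 (mat w).2.1 (mat w).2.2.1 (mat w).2.2.2 lo n =
      true) (a : ℕ) (h1 : lo ≤ a) (h2 : a < lo + n) :
    Fw F true (w ++ [a]) (eM (mat w) a) ∧ (nn (w ++ [a]) ≤ X → AB F X (w ++ [a])) := by
  have h3 := allR_true h (a - lo) (by omega)
  have e : Nat.add lo (a - lo) = a := by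
    change lo + (a - lo) = a
    omega
  rw [e] at h3
  exact stepA_spec hih hw (by omega) h3

/-- the largest letter -/
lemma ev_bound {w : List ℕ} (hw : PosW w) {a : ℕ} (h : ev w a ≤ X) :
    a ≤ (X / (mat w).1 - 2 * (mat w).2.1) / (mat w).1 := by
  have hK := (mat_pos hw).1
  rw [Nat.le_div_iff_mul_le hK]
  unfold ev at h
  have h1 : a * (mat w).1 + 2 * (mat w).2.1 ≤ X / (mat w).1 := by
    rw [Nat.le_div_iff_mul_le hK, mul_comm]
    exact h
  omega

theorem walk_spec (fuel : ℕ) : IH F X (walk F X fuel) := by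
  induction fuel with
  | zero =>
    intro w hw h
    exact absurd (show false = true from h) (by decide)
  | succ fuel ih =>
    intro w hw h
    obtain ⟨h1, h2⟩ := andB_true (show andB (oddC F w.length (pk w) (mat w).1 (mat w).2.1
      (mat w).2.2.1 (mat w).2.2.2) (rangeW F X (walk F X fuel) w.length (pk w) (mat w).1
        (mat w).2.1 (mat w).2.2.1 (mat w).2.2.2 1
        ((X / (mat w).1 - 2 * (mat w).2.1) / (mat w).1)) = true from h)
    refine AB_of hw (fun _ => h1) fun a ha hev => ?_
    exact rangeW_spec ih hw le_rfl h2 a ha (by have := ev_bound hw hev; omega)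

/-- nodes -/
lemma nodes_spec {ih : ℕ → ℕ → ℕ → ℕ → ℕ → ℕ → Bool} (hih : IH F X ih) {w : List ℕ}
    (hw : PosW w) {lo n : ℕ} (hlo : 1 ≤ lo)
    (h : nodes ih w.length (pk w) (mat w).1 (mat w).2.1 (mat w).2.2.1 (mat w).2.2.2 lo n =
      true) (a : ℕ) (h1 : lo ≤ a) (h2 : a < lo + n) : AB F X (w ++ [a]) := by
  have h3 := allR_true h (a - lo) (by omega)
  have e : Nat.add lo (a - lo) = a := by
    change lo + (a - lo) = a
    omega
  rw [e] at h3
  apply hih
  · intro b hb
    rcases List.mem_append.1 hb with hb | hb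
    · exact hw b hb
    · rw [List.mem_singleton.1 hb]; omega
  · rw [mat_concat, ← show Nat.succ w.length = (w ++ [a]).length by simp, pk_concat]
    exact h3

end Pool.Agent.SU


end

section

/-!
Real quadratic fields with small units: the check of the small parameters.
-/

namespace Pool.Agent.SU

open Function Pool.Agent.Lib_helper5 Pool.Agent.LibH4 Pool.Agent.LibH4.CFO Pool.Agent.LibH4.LO
open Pool.Agent.LibH4.Ker Pool.Agent.LibH4.CW

/-- all letters are small -/
def SmW (w : List ℕ) : Prop := ∀ a ∈ w, a < 2 ^ 20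

lemma pk_mod {a : ℕ} (w : List ℕ) (ha : a < 2 ^ 20) : pk (a :: w) % 1048576 = a := by
  change (a + 2 ^ 20 * pk w) % 1048576 = a
  norm_num at ha ⊢
  omega

lemma pk_shift {a : ℕ} (w : List ℕ) (ha : a < 2 ^ 20) : pk (a :: w) >>> 20 = pk w := by
  rw [Nat.shiftRight_eq_div_pow]
  change (a + 2 ^ 20 * pk w) / 2 ^ 20 = pk w
  norm_num at ha ⊢
  omega

lemma msk_bit {S mask q : ℕ} (hq : q ≤ 127) (h : (msk S mask).testBit q = false) :
    S ≠ q ∧ mask.testBit q = false := by
  unfold msk at h
  cases hb : Nat.ble S 127 with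
  | false =>
    rw [show Nat.ble S (nat_lit 127) = false from hb] at h
    refine ⟨?_, h⟩
    rintro rfl
    rw [← Bool.not_eq_true, Nat.ble_eq] at hb
    exact hb hq
  | true =>
    rw [show Nat.ble S (nat_lit 127) = true from hb] at h
    have h2 : (mask ||| (1 <<< S)).testBit q = false := h
    rw [Nat.testBit_lor, Bool.or_eq_false_iff] at h2
    refine ⟨?_, h2.1⟩
    rintro rfl
    have := h2.2
    rw [Nat.testBit_shiftLeft] at this
    simp at this

/-- one step of the mask -/
lemma runM_succ (n W P R S mask : ℕ) : runM (n + 1) W P R S mask =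
    stS (runM n) (W % 1048576) (W % 1048576 * S) (P + R * (W % 1048576)) W R S mask := rfl

lemma stS_cases (ih : ℕ → ℕ → ℕ → ℕ → ℕ → ℕ) (c cS A W R S mask : ℕ) :
    (stS ih c cS A W R S mask = 1) ∨ (R < 2 * cS ∧ c * cS < A ∧
      stS ih c cS A W R S mask = ih (W >>> 20) S (2 * cS - R) (A - c * cS) (msk S mask)) := by
  unfold stS
  cases h1 : Nat.ble (Nat.succ R) (Nat.mul (nat_lit 2) cS) with
  | false => left; rfl
  | true =>
    cases h2 : Nat.ble (Nat.succ (Nat.mul c cS)) A with
    | false => left; rfl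
    | true =>
      right
      rw [Nat.ble_eq] at h1 h2
      exact ⟨h1, h2, rfl⟩

/-- the states are positive -/
lemma stS_pos (ih : ℕ → ℕ → ℕ → ℕ → ℕ → ℕ) {c cS A R : ℕ} (W S mask : ℕ) (h1 : R < 2 * cS)
    (h2 : c * cS < A) :
    stS ih c cS A W R S mask = ih (W >>> 20) S (2 * cS - R) (A - c * cS) (msk S mask) := by
  unfold stS
  have h1' : Nat.ble (Nat.succ R) (Nat.mul (nat_lit 2) cS) = true := by
    rw [Nat.ble_eq]; exact h1
  have h2' : Nat.ble (Nat.succ (Nat.mul c cS)) A = true := by
    rw [Nat.ble_eq]; exact h2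
  rw [h1', h2']
  rfl

/-- the last coefficients of the states along a word: natural numbers different from `q` -/
lemma run_int {q : ℕ} (hq : q ≤ 127) (w : List ℕ) (hw : SmW w) (P R S mask : ℕ)
    (h0 : (runM w.length (pk w) P R S mask).testBit 0 = false)
    (h1 : (runM w.length (pk w) P R S mask).testBit q = false) :
    mask.testBit q = false ∧ ∀ i < w.length, ∃ T : ℕ, T ≠ q ∧
      (en ((P : ℤ), (R : ℤ), (S : ℤ)) ((w.take i).map fun a : ℕ => (a : ℤ))).2.2 = T := by
  induction w generalizing P R S mask with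
  | nil => exact ⟨h1, fun i hi => absurd hi (Nat.not_lt_zero _)⟩
  | cons a w ih =>
    have ha : a < 2 ^ 20 := hw a List.mem_cons_self
    rw [List.length_cons, runM_succ, pk_mod w ha] at h0 h1
    rcases stS_cases (runM w.length) a (a * S) (P + R * a) (pk (a :: w)) R S mask with h | h
    · rw [h] at h0
      exact absurd h0 (by decide)
    · obtain ⟨c1, c2, h⟩ := h
      rw [h, pk_shift w ha] at h0 h1
      obtain ⟨i1, i2⟩ := ih (fun b hb => hw b (List.mem_cons_of_mem _ hb)) _ _ _ _ h0 h1
      obtain ⟨j1, j2⟩ := msk_bit hq i1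
      refine ⟨j2, fun i hi => ?_⟩
      cases i with
      | zero => exact ⟨S, j1, rfl⟩
      | succ i =>
        rw [List.length_cons, Nat.add_lt_add_iff_right] at hi
        obtain ⟨T, t1, t2⟩ := i2 i hi
        refine ⟨T, t1, ?_⟩
        rw [← t2, List.take_succ_cons, List.map_cons]
        change (en (st (a : ℤ) ((P : ℤ), (R : ℤ), (S : ℤ))) _).2.2 = _
        congr 3
        unfold st
        simp only
        rw [Nat.cast_sub c1.le, Nat.cast_sub c2.le]
        push_cast
        refine Prod.ext rfl (Prod.ext ?_ ?_)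
        · simp only
          ring
        · simp only
          ring

variable {m B : ℤ} {s : ℝ} {x : ℕ → ℝ} {c : ℕ → ℕ}

lemma runU_succ (n W P R S mask : ℕ) : runU (n + 1) W P R S mask =
    runU n (W >>> 20) S (2 * (W % 1048576 * S) - R)
      (P + R * (W % 1048576) - W % 1048576 * (W % 1048576 * S)) (msk S mask) := rfl

/-- the last coefficients of the cycle -/
lemma run_real (h : Data m B s x c) {q : ℕ} (hq : q ≤ 127) (n k : ℕ)
    (hw : SmW (wn c (k + 1) n)) {P R S : ℕ} (hP : QP m B c (k + 1) = P)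
    (hR : QR m B c (k + 1) = R) (hS : QS m B c (k + 1) = S) (mask : ℕ)
    (h1 : (runU n (pk (wn c (k + 1) n)) P R S mask).testBit q = false) :
    mask.testBit q = false ∧ ∀ j, k < j → j < k + 1 + n → QS m B c j ≠ q := by
  induction n generalizing k P R S mask with
  | zero =>
    refine ⟨h1, ?_⟩
    intro j h2 h3
    omega
  | succ n ih =>
    have hcons : wn c (k + 1) (n + 1) = c (k + 1) :: wn c (k + 1 + 1) n := by
      unfold wn
      rw [List.range_succ_eq_map, List.map_cons, List.map_map, add_zero]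
      congr 1
      apply List.map_congr_left
      intro i _
      simp only [Function.comp_apply]
      congr 1
      omega
    rw [hcons] at hw h1
    have ha : c (k + 1) < 2 ^ 20 := hw _ List.mem_cons_self
    rw [runU_succ, pk_mod _ ha] at h1
    have hR' := QR_succ (m := m) (B := B) (c := c) (k + 1)
    have hS' := QS_succ (m := m) (B := B) (c := c) (k + 1)
    rw [hS, hR] at hR'
    rw [hP, hR, hS] at hS'
    have p1 := QR_pos h (k + 1)
    have p2 := (inv_of h (k + 1 + 1)).Spos
    rw [hR'] at p1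
    rw [hS'] at p2
    have q1 : R < 2 * (c (k + 1) * S) := by
      have : (R : ℤ) < ((2 * (c (k + 1) * S) : ℕ) : ℤ) := by push_cast; linarith
      exact_mod_cast this
    have q2 : c (k + 1) * (c (k + 1) * S) < P + R * c (k + 1) := by
      have : ((c (k + 1) * (c (k + 1) * S) : ℕ) : ℤ) < ((P + R * c (k + 1) : ℕ) : ℤ) := by
        push_cast; linarith
      exact_mod_cast this
    rw [pk_shift _ ha] at h1
    obtain ⟨i1, i2⟩ := ih (k + 1) (fun b hb => hw b (List.mem_cons_of_mem _ hb))
      (by rw [QP_succ, hS])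
      (by rw [hR', Nat.cast_sub q1.le]; push_cast; ring)
      (by rw [hS', Nat.cast_sub q2.le]; push_cast; ring) _ h1
    obtain ⟨j1, j2⟩ := msk_bit hq i1
    refine ⟨j2, fun j h2 h3 => ?_⟩
    rcases Nat.lt_or_ge (k + 1) j with h4 | h4
    · exact i2 j h4 (by omega)
    · have : j = k + 1 := by omega
      rw [this, hS]
      exact_mod_cast j1

/-! ### monotonicity in the parameter -/

lemma en_mono {w w' : List ℕ} {v u : ℕ} (hv : (mat (w ++ w')).1 = v)
    (hu : (mat (w ++ w')).2.2.1 = u) (B m : ℤ) (n : ℕ) :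
    (en (1, B, m) (w.map fun a : ℕ => (a : ℤ))).2.2 ≤
      (en (1, B + n * v, m + n * u) (w.map fun a : ℕ => (a : ℤ))).2.2 := by
  rw [en_mat, en_mat]
  simp only
  rw [mat_append] at hv hu
  have hdet := det_mat w
  unfold detM at hdet
  unfold mulM at hv hu
  simp only at hv hu
  subst hv hu
  have hsg : ((-1 : ℤ) ^ w.length) * (-1) ^ w.length = 1 := by
    rw [← mul_pow]; norm_num
  have key : (-1) ^ (w.length + 1) * qw (B + n * ((mat w).1 * (mat w').1 + (mat w).2.1 *
      (mat w').2.2.1 : ℕ)) (m + n * ((mat w).2.2.1 * (mat w').1 + (mat w).2.2.2 *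
      (mat w').2.2.1 : ℕ)) (mat w).2.2.1 (mat w).1 =
      (-1) ^ (w.length + 1) * qw B m (mat w).2.2.1 (mat w).1 +
        n * ((mat w).1 * (mat w').2.2.1) := by
    unfold qw
    push_cast
    rw [pow_succ]
    linear_combination (n * ((mat w).1 * (mat w').2.2.1) : ℤ) * hsg +
      (-1) ^ w.length * (n * ((mat w).1 * (mat w').2.2.1)) * hdet
  rw [key]
  have : (0 : ℤ) ≤ n * ((mat w).1 * (mat w').2.2.1) := by positivity
  linarith

/-! ### the check of the parameters -/

lemma anyL_true {α : Type} {p : α → Bool} {L : List α} (h : anyL p L = true) :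
    ∃ x ∈ L, p x = true := by
  induction L with
  | nil => exact absurd (show false = true from h) (by decide)
  | cons x L ih =>
    have h2 : @Bool.rec (fun _ => Bool) (anyL p L) true (p x) = true := h
    cases hp : p x with
    | true => exact ⟨x, List.mem_cons_self, hp⟩
    | false =>
      rw [hp] at h2
      obtain ⟨y, h3, h4⟩ := ih h2
      exact ⟨y, List.mem_cons_of_mem _ h3, h4⟩

/-- the entries of the list of primes -/
def toL : PLt → List (ℕ × ℕ × ℕ × ℕ)
  | .nil => []
  | .cons q M T F l => (q, M, T, F) :: toL l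

lemma certP_true {D mask : ℕ} {pl : PLt} (h : certP D mask pl = true) :
    ∃ y ∈ toL pl, bit y.2.2.1 (D % y.2.1) = 0 ∧ bit mask y.1 = 0 ∧ y.2.2.2 ≤ D := by
  induction pl with
  | nil => exact absurd (show false = true from h) (by decide)
  | cons q M T F l ih =>
    have h2 : cert1 D mask q M T F (certP D mask l) = true := h
    have next : certP D mask l = true → ∃ y ∈ toL (.cons q M T F l),
        bit y.2.2.1 (D % y.2.1) = 0 ∧ bit mask y.1 = 0 ∧ y.2.2.2 ≤ D := by
      intro h3
      obtain ⟨y, hy, h4⟩ := ih h3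
      exact ⟨y, List.mem_cons_of_mem _ hy, h4⟩
    unfold cert1 at h2
    cases h5 : bit T (Nat.mod D M) with
    | succ n =>
      rw [h5] at h2
      exact next h2
    | zero =>
      rw [h5] at h2
      cases h6 : bit mask q with
      | succ n =>
        rw [h6] at h2
        exact next h2
      | zero =>
        rw [h6] at h2
        cases h7 : Nat.ble F D with
        | false =>
          rw [h7] at h2
          exact next h2
        | true =>
          exact ⟨(q, M, T, F), List.mem_cons_self, h5, h6, by rw [Nat.ble_eq] at h7; exact h7⟩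

lemma cert_true {pl : PLt} {dl : List ℕ} {X v D mask : ℕ}
    (h : cert pl dl X v D mask = true) :
    (∃ y ∈ toL pl, bit y.2.2.1 (D % y.2.1) = 0 ∧ bit mask y.1 = 0 ∧ y.2.2.2 ≤ D) ∨ D ∈ dl ∨
      (D % 2 = 0 ∧ X < 2 * v) := by
  unfold cert at h
  cases h1 : certP D mask pl with
  | true => exact Or.inl (certP_true h1)
  | false =>
    rw [h1] at h
    cases h2 : anyL (Nat.beq D) dl with
    | true =>
      obtain ⟨y, h3, h4⟩ := anyL_true h2
      rw [Nat.beq_eq] at h4
      exact Or.inr (Or.inl (h4 ▸ h3))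
    | false =>
      rw [h2] at h
      obtain ⟨h3, h4⟩ := andB_true h
      rw [Nat.beq_eq] at h3
      rw [Nat.ble_eq] at h4
      exact Or.inr (Or.inr ⟨h3, h4⟩)

lemma mx_le (a q : ℕ) : a ≤ mx a q ∧ q ≤ mx a q := by
  unfold mx
  cases h : Nat.ble a q with
  | false =>
    rw [← Bool.not_eq_true, Nat.ble_eq] at h
    change a ≤ a ∧ q ≤ a
    omega
  | true =>
    rw [Nat.ble_eq] at h
    change a ≤ q ∧ q ≤ q
    omega

lemma mxd_succ (n W q : ℕ) : mxd (n + 1) W q = mxd n (W >>> 20) (mx (W % 1048576) q) := rfl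

lemma mxd_le (w : List ℕ) (hw : SmW w) (q : ℕ) :
    q ≤ mxd w.length (pk w) q ∧ ∀ a ∈ w, a ≤ mxd w.length (pk w) q := by
  induction w generalizing q with
  | nil => exact ⟨le_rfl, fun a ha => absurd ha (by simp)⟩
  | cons a w ih =>
    have ha : a < 2 ^ 20 := hw a List.mem_cons_self
    rw [List.length_cons, mxd_succ, pk_mod w ha, pk_shift w ha]
    obtain ⟨i1, i2⟩ := ih (fun b hb => hw b (List.mem_cons_of_mem _ hb)) (mx a q)
    obtain ⟨j1, j2⟩ := mx_le a q
    refine ⟨j2.trans i1, fun b hb => ?_⟩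
    rcases List.mem_cons.1 hb with rfl | hb
    · exact j1.trans i1
    · exact i2 b hb

/-- the last coefficients are large if `B` is large -/
lemma big_B (h : Data m B s x c) {j q : ℕ} (hj : 1 ≤ j) (hq : c j ≤ q)
    (hB : 60 * ((q : ℤ) + 1) ≤ B) : 30 ≤ QS m B c j := by
  obtain ⟨k, rfl⟩ : ∃ k, j = k + 1 := ⟨j - 1, by omega⟩
  have hR := QR_pos h k
  have inv := inv_of h (k + 1)
  have hfl := Int.lt_floor_add_one (x (k + 1))
  rw [← h.fl (k + 1), inv.xe] at hfl
  have hS : (0 : ℝ) < QS m B c (k + 1) := by exact_mod_cast inv.Spos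
  rw [div_lt_iff₀ (by positivity)] at hfl
  have hRr : (0 : ℝ) < QR m B c (k + 1) := by exact_mod_cast hR
  have hqr : (c (k + 1) : ℝ) ≤ q := by exact_mod_cast hq
  have hBr : (60 : ℝ) * (q + 1) ≤ B := by exact_mod_cast hB
  have hBs := h.Bs
  by_contra hcon
  have h1 : QS m B c (k + 1) ≤ 29 := by omega
  have h2 : (QS m B c (k + 1) : ℝ) ≤ 29 := by exact_mod_cast h1
  have hq0 : (0 : ℝ) ≤ q := by positivity
  have h3 : ((c (k + 1) : ℤ) : ℝ) + 1 ≤ q + 1 := by push_cast; linarith
  have h4 : (((c (k + 1) : ℤ) : ℝ) + 1) * (2 * QS m B c (k + 1)) ≤ (q + 1) * (2 * 29) :=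
    mul_le_mul h3 (by linarith) (by positivity) (by positivity)
  nlinarith

/-- the result of the check of the parameters -/
lemma smallB_spec {pl : PLt} {dl : List ℕ} {X h W v u b : ℕ} (fuel : ℕ) (B m : ℕ)
    (hs : smallB pl dl X h W v u b fuel B m = true) (n : ℕ) (hB : 1 ≤ B + n * v) :
    (b ≤ B + n * v) ∨
    (∃ i, i ≤ n ∧ 1 ≤ B + i * v ∧ 3365 ≤ (B + i * v) * (B + i * v) + 4 * (m + i * u) ∧
      runM h W 1 (B + i * v) (m + i * u) 0 % 2 ^ 30 = 0) ∨
    free ((B + n * v) * (B + n * v) + 4 * (m + n * u))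
      (runU h W 1 (B + n * v) (m + n * u) 0) = true ∨
    cert pl dl X v ((B + n * v) * (B + n * v) + 4 * (m + n * u))
      (runU h W 1 (B + n * v) (m + n * u) 0) = true := by
  induction fuel generalizing B m n with
  | zero => exact absurd (show false = true from hs) (by decide)
  | succ fuel ih =>
    have h2 : @Bool.rec (fun _ => Bool)
      (@Bool.rec (fun _ => Bool) (smallB pl dl X h W v u b fuel (B + v) (m + u))
        (smallD pl dl X v (smallB pl dl X h W v u b fuel (B + v) (m + u)) (Nat.ble b (B + v))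
          (B * B + 4 * m) (runU h W 1 B m 0) (runM h W 1 B m 0)) (Nat.ble 1 B)) true
      (Nat.ble b B) = true := hs
    have next : smallB pl dl X h W v u b fuel (B + v) (m + u) = true → 1 ≤ n →
        (b ≤ B + n * v) ∨
        (∃ i, i ≤ n ∧ 1 ≤ B + i * v ∧ 3365 ≤ (B + i * v) * (B + i * v) + 4 * (m + i * u) ∧
          runM h W 1 (B + i * v) (m + i * u) 0 % 2 ^ 30 = 0) ∨
        free ((B + n * v) * (B + n * v) + 4 * (m + n * u))
          (runU h W 1 (B + n * v) (m + n * u) 0) = true ∨
        cert pl dl X v ((B + n * v) * (B + n * v) + 4 * (m + n * u))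
          (runU h W 1 (B + n * v) (m + n * u) 0) = true := by
      intro h3 hn
      obtain ⟨n, rfl⟩ : ∃ k, n = k + 1 := ⟨n - 1, by omega⟩
      have e1 : ∀ (i b a : ℕ), b + (i + 1) * a = b + a + i * a := fun i b a => by ring
      rcases ih (B + v) (m + u) h3 n (by rw [← e1]; exact hB) with h4 | ⟨i, i1, i2, i3, i4⟩ | h4
      · left
        rw [e1]
        exact h4
      · right
        left
        refine ⟨i + 1, by omega, ?_, ?_, ?_⟩
        · rw [e1]; exact i2
        · rw [e1 i B v, e1 i m u]; exact i3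
        · rw [e1 i B v, e1 i m u]; exact i4
      · right
        right
        rw [e1 n B v, e1 n m u]
        exact h4
    cases hbB : Nat.ble b B with
    | true =>
      left
      rw [Nat.ble_eq] at hbB
      exact hbB.trans (Nat.le_add_right _ _)
    | false =>
      rw [hbB] at h2
      cases hb : Nat.ble 1 B with
      | false =>
        rw [hb] at h2
        refine next h2 ?_
        rw [← Bool.not_eq_true, Nat.ble_eq] at hb
        rcases Nat.eq_zero_or_pos n with rfl | hn
        · omega
        · exact hn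
      | true =>
        rw [hb] at h2
        rw [Nat.ble_eq] at hb
        have h3 : @Bool.rec (fun _ => Bool) (andB (cert pl dl X v (B * B + 4 * m)
          (runU h W 1 B m 0)) (smallB pl dl X h W v u b fuel (B + v) (m + u)))
          (@Bool.rec (fun _ => Bool)
            (@Bool.rec (fun _ => Bool) (smallB pl dl X h W v u b fuel (B + v) (m + u)) true
              (stop (runU h W 1 B m 0) (runM h W 1 B m 0)))
            (smallB pl dl X h W v u b fuel (B + v) (m + u)) (Nat.ble b (B + v)))
          (free (B * B + 4 * m) (runU h W 1 B m 0)) = true := h2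
        cases hf : free (B * B + 4 * m) (runU h W 1 B m 0) with
        | true =>
          rw [hf] at h3
          have hfree : smallB pl dl X h W v u b fuel (B + v) (m + u) = true →
              (b ≤ B + n * v) ∨
              (∃ i, i ≤ n ∧ 1 ≤ B + i * v ∧
                3365 ≤ (B + i * v) * (B + i * v) + 4 * (m + i * u) ∧
                runM h W 1 (B + i * v) (m + i * u) 0 % 2 ^ 30 = 0) ∨
              free ((B + n * v) * (B + n * v) + 4 * (m + n * u))
                (runU h W 1 (B + n * v) (m + n * u) 0) = true ∨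
              cert pl dl X v ((B + n * v) * (B + n * v) + 4 * (m + n * u))
                (runU h W 1 (B + n * v) (m + n * u) 0) = true := by
            intro h5
            rcases Nat.eq_zero_or_pos n with rfl | hn
            · right
              right
              left
              rw [zero_mul, zero_mul, add_zero, add_zero]
              exact hf
            · exact next h5 hn
          cases hg : Nat.ble b (B + v) with
          | true =>
            rw [hg] at h3
            exact hfree h3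
          | false =>
            rw [hg] at h3
            cases hst : stop (runU h W 1 B m 0) (runM h W 1 B m 0) with
            | true =>
              right
              left
              obtain ⟨-, s1⟩ := andB_true hst
              obtain ⟨-, s2⟩ := andB_true hf
              rw [Nat.beq_eq] at s1
              rw [Nat.ble_eq] at s2
              refine ⟨0, Nat.zero_le _, by omega, ?_, ?_⟩
              · rw [zero_mul, zero_mul, add_zero, add_zero]
                exact s2
              · rw [zero_mul, zero_mul, add_zero, add_zero]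
                exact s1
            | false =>
              rw [hst] at h3
              exact hfree h3
        | false =>
          rw [hf] at h3
          obtain ⟨h4, h5⟩ := andB_true h3
          rcases Nat.eq_zero_or_pos n with rfl | hn
          · right
            right
            right
            rw [zero_mul, zero_mul, add_zero, add_zero]
            exact h4
          · exact next h5 hn

end Pool.Agent.SU


end

section

/-!
Real quadratic fields with small units: a sieve for the discriminants `n² b² + s`.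
-/

namespace Pool.Agent.SU

open Pool.Agent.LibH4.Ker Pool.Agent.LibH4.CW

noncomputable section

/-- the mask of the residues `b` with `n² b² + s` inert -/
def inM (T n s q k : ℕ) : ℕ :=
  @Nat.rec (fun _ => ℕ) (nat_lit 0) (fun b ih => Nat.add (Nat.mul (Nat.pow (nat_lit 2) b)
    (bit T (Nat.mod (Nat.add (Nat.mul (Nat.mul n n) (Nat.mul b b)) s) q))) ih) k

/-- periodic continuation by doubling -/
def dbl (q M j : ℕ) : ℕ :=
  @Nat.rec (fun _ => ℕ) M (fun i ih => Nat.add (Nat.mul
    (Nat.pow (nat_lit 2) (Nat.mul q (Nat.pow (nat_lit 2) i))) ih) ih) j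

/-- `4 n` or `-4 n` modulo `q` -/
def sg (par : Bool) (n q : ℕ) : ℕ :=
  @Bool.rec (fun _ => ℕ) (Nat.mod (Nat.mul (nat_lit 4) n) q)
    (Nat.sub q (Nat.mod (Nat.mul (nat_lit 4) n) q)) par

/-- one prime of the sieve -/
def sv1 (par : Bool) (n j q T acc : ℕ) : ℕ :=
  @Bool.rec (fun _ => ℕ) (@Bool.rec (fun _ => ℕ)
    (Nat.land acc (dbl q (inM T n (sg par n q) q q) j)) acc (Nat.beq q n))
    acc (Nat.beq q (nat_lit 2))

/-- the sieve -/
def svP (par : Bool) (n j : ℕ) (pl : PLt) : ℕ → ℕ :=
  @PLt.rec (fun _ => ℕ → ℕ) (fun acc => acc) (fun q _ T _ _ ih acc => ih (sv1 par n j q T acc)) pl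

/-- nothing is left between `a` and `A` -/
def svOK (par : Bool) (n j A a : ℕ) (pl : PLt) : Bool :=
  Nat.beq (Nat.shiftRight (svP par n j pl (Nat.sub (Nat.pow (nat_lit 2) A) (nat_lit 1))) a)
    (nat_lit 0)

/-- the sieve for all primes below thirty -/
def svAll (j A a : ℕ) (pl : PLt) : Bool :=
  allL (fun n => andB (svOK false n j A a pl) (svOK true n j A a pl))
    [nat_lit 2, nat_lit 3, nat_lit 5, nat_lit 7, nat_lit 11, nat_lit 13, nat_lit 17, nat_lit 19,
      nat_lit 23, nat_lit 29]

end

lemma inM_spec (T n s q k : ℕ) : inM T n s q k < 2 ^ k ∧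
    ∀ r < k, (inM T n s q k).testBit r = decide (bit T ((n * n * (r * r) + s) % q) = 1) := by
  induction k with
  | zero => exact ⟨Nat.one_pos, fun r hr => absurd hr (Nat.not_lt_zero _)⟩
  | succ k ih =>
    obtain ⟨i1, i2⟩ := ih
    have e : inM T n s q (k + 1) = 2 ^ k * bit T ((n * n * (k * k) + s) % q) + inM T n s q k := rfl
    have hb : bit T ((n * n * (k * k) + s) % q) < 2 := Nat.mod_lt _ (by norm_num)
    rw [e]
    constructor
    · rw [pow_succ]
      have : 2 ^ k * bit T ((n * n * (k * k) + s) % q) ≤ 2 ^ k * 1 :=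
        Nat.mul_le_mul_left _ (by omega)
      omega
    · intro r hr
      rw [Nat.testBit_two_pow_mul_add _ i1]
      split_ifs with h
      · exact i2 r h
      · have hrk : r = k := by omega
        subst hrk
        rw [Nat.sub_self]
        generalize bit T ((n * n * (r * r) + s) % q) = b at hb
        interval_cases b <;> decide

lemma dbl_spec {q M : ℕ} (hM : M < 2 ^ q) (j : ℕ) : dbl q M j < 2 ^ (q * 2 ^ j) ∧
    ∀ b < q * 2 ^ j, (dbl q M j).testBit b = M.testBit (b % q) := by
  induction j with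
  | zero =>
    rw [pow_zero, mul_one]
    exact ⟨hM, fun b hb => by rw [Nat.mod_eq_of_lt hb]; rfl⟩
  | succ j ih =>
    obtain ⟨i1, i2⟩ := ih
    have e : dbl q M (j + 1) = 2 ^ (q * 2 ^ j) * dbl q M j + dbl q M j := rfl
    have e2 : q * 2 ^ (j + 1) = q * 2 ^ j + q * 2 ^ j := by ring
    rw [e, e2]
    constructor
    · rw [pow_add]
      nlinarith
    · intro b hb
      rw [Nat.testBit_two_pow_mul_add _ i1]
      split_ifs with h
      · exact i2 b h
      · rw [i2 _ (by omega)]
        obtain ⟨w, hw⟩ : ∃ w, b = w + q * 2 ^ j := ⟨b - q * 2 ^ j, by omega⟩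
        rw [hw, Nat.add_sub_cancel, Nat.add_mul_mod_self_left]

/-- a prime of the sieve kills `b` -/
def Kill (par : Bool) (n b : ℕ) (y : ℕ × ℕ × ℕ × ℕ) : Prop :=
  y.1 ≠ 2 ∧ y.1 ≠ n ∧ bit y.2.2.1 ((n * n * (b * b) + sg par n y.1) % y.1) = 0

lemma sv1_spec {par : Bool} {n j q T acc b : ℕ} (hb : b < 2 ^ j) (hq : 0 < q)
    (h : (sv1 par n j q T acc).testBit b = false) :
    acc.testBit b = false ∨
      (q ≠ 2 ∧ q ≠ n ∧ bit T ((n * n * (b * b) + sg par n q) % q) = 0) := by
  unfold sv1 at h
  cases h1 : Nat.beq q 2 with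
  | true =>
    rw [show Nat.beq q (nat_lit 2) = true from h1] at h
    exact Or.inl h
  | false =>
    rw [show Nat.beq q (nat_lit 2) = false from h1] at h
    cases h2 : Nat.beq q n with
    | true =>
      rw [h2] at h
      exact Or.inl h
    | false =>
      rw [h2] at h
      have h3 : (acc &&& dbl q (inM T n (sg par n q) q q) j).testBit b = false := h
      rw [Nat.testBit_and, Bool.and_eq_false_iff] at h3
      rcases h3 with h3 | h3
      · exact Or.inl h3
      · right
        have hn2 : q ≠ 2 := Nat.ne_of_beq_eq_false h1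
        have hnn : q ≠ n := Nat.ne_of_beq_eq_false h2
        refine ⟨hn2, hnn, ?_⟩
        obtain ⟨i1, i2⟩ := inM_spec T n (sg par n q) q q
        rw [(dbl_spec i1 j).2 b (lt_of_lt_of_le hb (Nat.le_mul_of_pos_left _ hq)),
          i2 _ (Nat.mod_lt _ hq), decide_eq_false_iff_not] at h3
        have h4 : (n * n * (b % q * (b % q)) + sg par n q) % q =
            (n * n * (b * b) + sg par n q) % q := by
          conv_rhs => rw [Nat.add_mod, Nat.mul_mod, Nat.mul_mod b b]
          conv_lhs => rw [Nat.add_mod, Nat.mul_mod]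
        rw [h4] at h3
        have h5 : bit T ((n * n * (b * b) + sg par n q) % q) < 2 := Nat.mod_lt _ (by norm_num)
        omega

lemma svP_spec {par : Bool} {n j b : ℕ} (hb : b < 2 ^ j) (pl : PLt) (acc : ℕ)
    (hpl : ∀ y ∈ toL pl, 0 < y.1)
    (h : (svP par n j pl acc).testBit b = false) :
    acc.testBit b = false ∨ ∃ y ∈ toL pl, Kill par n b y := by
  induction pl generalizing acc with
  | nil => exact Or.inl h
  | cons q M T F l ih =>
    have h2 : (svP par n j l (sv1 par n j q T acc)).testBit b = false := h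
    rcases ih _ (fun y hy => hpl y (List.mem_cons_of_mem _ hy)) h2 with h3 | ⟨y, hy, h3⟩
    · rcases sv1_spec hb (hpl (q, M, T, F) List.mem_cons_self) h3 with h4 | h4
      · exact Or.inl h4
      · exact Or.inr ⟨(q, M, T, F), List.mem_cons_self, h4⟩
    · exact Or.inr ⟨y, List.mem_cons_of_mem _ hy, h3⟩

lemma svOK_spec {par : Bool} {n j A a : ℕ} {pl : PLt} (hpl : ∀ y ∈ toL pl, 0 < y.1)
    (hA : A ≤ 2 ^ j) (h : svOK par n j A a pl = true) (b : ℕ) (h1 : a ≤ b) (h2 : b < A) :
    ∃ y ∈ toL pl, Kill par n b y := by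
  unfold svOK at h
  have h3 : (svP par n j pl (2 ^ A - 1)) >>> a = 0 := Nat.eq_of_beq_eq_true h
  have h4 : (svP par n j pl (2 ^ A - 1)).testBit b = false := by
    have h5 : ((svP par n j pl (2 ^ A - 1)) >>> a).testBit (b - a) = false := by
      rw [h3, Nat.zero_testBit]
    rw [Nat.testBit_shiftRight] at h5
    rwa [show a + (b - a) = b by omega] at h5
  rcases svP_spec (by omega) pl _ hpl h4 with h5 | h5
  · exfalso
    rw [Nat.testBit_two_pow_sub_one, decide_eq_false_iff_not] at h5
    exact h5 h2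
  · exact h5

lemma allL_true {α : Type} {p : α → Bool} {L : List α} (h : allL p L = true) :
    ∀ x ∈ L, p x = true := by
  induction L with
  | nil => intro x hx; exact absurd hx (by simp)
  | cons y L ih =>
    have h2 : @Bool.rec (fun _ => Bool) false (allL p L) (p y) = true := h
    intro x hx
    cases hp : p y with
    | false => rw [hp] at h2; exact absurd (show false = true from h2) (by decide)
    | true =>
      rw [hp] at h2
      rcases List.mem_cons.1 hx with rfl | hx
      · exact hp
      · exact ih h2 x hx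

/-- **the sieve** -/
theorem sieve {j A a : ℕ} {pl : PLt} (hpl : ∀ y ∈ toL pl, 0 < y.1) (hA : A ≤ 2 ^ j)
    (h : svAll j A a pl = true) (par : Bool) {n : ℕ} (hn : n.Prime) (hn29 : n ≤ 29) (b : ℕ)
    (h1 : a ≤ b) (h2 : b < A) : ∃ y ∈ toL pl, Kill par n b y := by
  have hmem : n ∈ [2, 3, 5, 7, 11, 13, 17, 19, 23, 29] := by
    interval_cases n <;> first | decide | (exfalso; revert hn; norm_num)
  obtain ⟨h3, h4⟩ := andB_true (allL_true h n hmem)
  cases par with
  | false => exact svOK_spec hpl hA h3 b h1 h2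
  | true => exact svOK_spec hpl hA h4 b h1 h2

end Pool.Agent.SU


end
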