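import Mathlib
import Pool.Agent.RQM.C28
import Pool.Agent.RQM.C42
import Pool.Agent.RQM.C52
import Pool.Agent.RQM.C89
import Pool.Agent.RQM.C90

/-! Parts: SU.Bound -/

namespace Pool.Agent.LibH4
end Pool.Agent.LibH4
namespace Pool.Agent.LibH4.CFO
end Pool.Agent.LibH4.CFO
namespace Pool.Agent.LibH4.LO
end Pool.Agent.LibH4.LO
namespace Pool.Agent.Lib_helper5
end Pool.Agent.Lib_helper5

section

/-!
Real quadratic fields with small units: the continuant of the period is at most the coefficient of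
a unit.
-/

namespace Pool.Agent.SU

open Function Pool.Agent.Lib_helper5 Pool.Agent.LibH4 Pool.Agent.LibH4.CFO Pool.Agent.LibH4.LO

variable {m B : ℤ} {s : ℝ} {x : ℕ → ℝ} {c : ℕ → ℕ}

/-- elements of norm `1` or `-1` give convergents -/
theorem conv_of_unit (h : Data m B s x c) (hm : 0 < m) (hB : 1 ≤ B) {u v : ℤ} (hv : 0 < v)
    (huv : v * B ≤ 2 * u) (hco : IsCoprime u v)
    (hn : 4 * (u ^ 2 - B * u * v - m * v ^ 2) ^ 2 < B ^ 2 + 4 * m) :
    ∃ i, ((u : ℚ) / v) = (x 0).convergent i := by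
  have hBR : (1 : ℝ) ≤ B := by exact_mod_cast hB
  have hs : 0 < s := by linarith [h.Bs]
  have hsq : s ^ 2 = (B : ℝ) ^ 2 + 4 * m := by
    have := h.sq
    push_cast at this
    exact this
  have hvR : (0 : ℝ) < v := by exact_mod_cast hv
  have hv1 : (1 : ℝ) ≤ v := by exact_mod_cast hv
  have huR : (v : ℝ) * B ≤ 2 * u := by exact_mod_cast huv
  have hu0 : (0 : ℝ) < u := by nlinarith
  have huI : 0 < u := by exact_mod_cast hu0
  have hmR : (0 : ℝ) < m := by exact_mod_cast hm
  -- the norm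
  set n : ℤ := u ^ 2 - B * u * v - m * v ^ 2 with hn_def
  have hx0 := h.x0
  have hθ : 1 < x 0 := h.x0pos
  -- the factors
  have hA : ((n : ℤ) : ℝ) = (u - v * x 0) * (u - v * ((B - s) / 2)) := by
    rw [hx0, hn_def]
    push_cast
    linear_combination ((v : ℝ) ^ 2 / 4) * hsq
  set b' : ℝ := u - v * ((B - s) / 2) with hb'
  have hb'pos : 0 < b' := by
    have h1 : (v : ℝ) * ((B - s) / 2) < 0 := by
      have : (B - s) / 2 < 0 := by linarith [h.Bs]
      exact mul_neg_of_pos_of_neg hvR this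
    linarith
  have h2n : 2 * |(n : ℝ)| < s := by
    have h1 : (4 : ℝ) * (n : ℝ) ^ 2 < s ^ 2 := by
      rw [hsq]
      exact_mod_cast hn
    have h2 : (2 * |(n : ℝ)|) ^ 2 < s ^ 2 := by
      rw [mul_pow, sq_abs]
      linarith
    exact lt_of_pow_lt_pow_left₀ 2 hs.le h2
  have habs : |(n : ℝ)| = |u - v * x 0| * b' := by
    rw [hA, abs_mul, abs_of_pos hb'pos]
  have hnpos : 0 ≤ |(n : ℝ)| := abs_nonneg _
  have hirr : (u : ℝ) - v * x 0 ≠ 0 := by
    intro h0
    have hxi := (inv_of h 0).xi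
    apply hxi
    refine ⟨(u : ℚ) / v, ?_⟩
    push_cast
    rw [div_eq_iff hvR.ne']
    linarith
  have hcoN : Nat.Coprime u.natAbs v.natAbs := Int.isCoprime_iff_gcd_eq_one.1 hco
  rcases lt_or_gt_of_ne hirr with hneg | hpos
  · -- `u < v θ`
    have hlt : (u : ℝ) < v * x 0 := by linarith
    have hden : ((v : ℚ) / u).den = u := by
      have := Rat.den_div_eq_of_coprime huI hcoN.symm
      exact_mod_cast this
    have hkey : 2 * |(n : ℝ)| * u < b' * x 0 := by
      have h1 : (m : ℝ) * u < m * (v * x 0) := mul_lt_mul_of_pos_left hlt hmR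
      have h2 : b' * x 0 = u * x 0 + m * v := by
        rw [hb', hx0]
        linear_combination ((v : ℝ) / 4) * hsq
      have h3 : x 0 * (u * x 0 + m * v) > x 0 * (u * s) := by
        have e1 : x 0 * s = x 0 * x 0 + m := by
          rw [hx0]
          linear_combination (-(1 : ℝ) / 4) * hsq + (1 / 2) * hsq
        nlinarith
      have h4 : u * s < u * x 0 + m * v := lt_of_mul_lt_mul_left h3 (by linarith)
      rw [h2]
      calc 2 * |(n : ℝ)| * u < s * u := mul_lt_mul_of_pos_right h2n hu0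
        _ = u * s := by ring
        _ < _ := h4
    have hleg : |(x 0)⁻¹ - (((v : ℚ) / u : ℚ) : ℝ)| < 1 / (2 * (((v : ℚ) / u).den : ℝ) ^ 2) := by
      have hdR : ((((v : ℚ) / u).den : ℕ) : ℝ) = u := by
        have : (((((v : ℚ) / u).den : ℕ) : ℤ) : ℝ) = ((u : ℤ) : ℝ) := by rw [hden]
        exact_mod_cast this
      rw [hdR]
      have hx0p : 0 < x 0 := by linarith
      have e1 : (x 0)⁻¹ - (((v : ℚ) / u : ℚ) : ℝ) = (u - v * x 0) / (u * x 0) := by
        push_cast
        field_simp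
      rw [e1, abs_div, abs_of_pos (show 0 < (u : ℝ) * x 0 by positivity),
        div_lt_div_iff₀ (by positivity) (by positivity)]
      have e2 : |(u : ℝ) - v * x 0| = |(n : ℝ)| / b' := by
        rw [habs, mul_div_cancel_right₀ _ hb'pos.ne']
      rw [e2, div_mul_eq_mul_div, div_lt_iff₀ hb'pos]
      nlinarith
    obtain ⟨i, hi⟩ := Real.exists_rat_eq_convergent hleg
    have hq0 : ((v : ℚ) / u) ≠ 0 := by
      have h1 : (0 : ℚ) < v := by exact_mod_cast hv
      have h2 : (0 : ℚ) < u := by exact_mod_cast huI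
      positivity
    obtain ⟨j, hj⟩ := conv_inv hθ hq0 hi
    rw [inv_div] at hj
    exact ⟨j, hj⟩
  · -- `v θ < u`
    have hlt : (v : ℝ) * x 0 < u := by linarith
    have hden : ((u : ℚ) / v).den = v := by
      have := Rat.den_div_eq_of_coprime hv hcoN
      exact_mod_cast this
    have hkey : 2 * |(n : ℝ)| * v < b' := by
      have h1 : b' = (u - v * x 0) + v * s := by
        rw [hb', hx0]; ring
      rw [h1]
      nlinarith
    have hleg : |x 0 - (((u : ℚ) / v : ℚ) : ℝ)| < 1 / (2 * (((u : ℚ) / v).den : ℝ) ^ 2) := by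
      have hdR : ((((u : ℚ) / v).den : ℕ) : ℝ) = v := by
        have : (((((u : ℚ) / v).den : ℕ) : ℤ) : ℝ) = ((v : ℤ) : ℝ) := by rw [hden]
        exact_mod_cast this
      rw [hdR]
      have e1 : x 0 - (((u : ℚ) / v : ℚ) : ℝ) = -((u - v * x 0) / v) := by
        push_cast
        field_simp
        ring
      rw [e1, abs_neg, abs_div, abs_of_pos hvR, div_lt_div_iff₀ hvR (by positivity)]
      have e2 : |(u : ℝ) - v * x 0| = |(n : ℝ)| / b' := by
        rw [habs, mul_div_cancel_right₀ _ hb'pos.ne']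
      rw [e2, div_mul_eq_mul_div, div_lt_iff₀ hb'pos]
      nlinarith
    exact Real.exists_rat_eq_convergent hleg

lemma wn_cons (c : ℕ → ℕ) (k n : ℕ) : wn c k (n + 1) = c k :: wn c (k + 1) n := by
  unfold wn
  rw [List.range_succ_eq_map, List.map_cons, List.map_map, add_zero]
  congr 1
  apply List.map_congr_left
  intro i _
  simp only [Function.comp_apply]
  congr 1
  omega

/-- convergents are quotients of continuants -/
lemma conv_mat (h : Data m B s x c) (n : ℕ) : ∀ (k : ℕ) (u v : ℤ), 0 < v → IsCoprime u v →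
    ((u : ℚ) / v = (x k).convergent n) →
    u = (mat (wn c k (n + 1))).1 ∧ v = (mat (wn c k (n + 1))).2.2.1 := by
  induction n with
  | zero =>
    intro k u v hv hco he
    rw [Real.convergent_zero, ← h.fl k] at he
    have hv' : (v : ℚ) ≠ 0 := by exact_mod_cast hv.ne'
    rw [div_eq_iff hv'] at he
    have he' : u = c k * v := by exact_mod_cast he
    have hv1 : IsUnit v := by
      rw [he'] at hco
      exact isCoprime_self.1 (IsCoprime.of_mul_left_right hco)
    have hv2 : v = 1 := by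
      rcases Int.isUnit_iff.1 hv1 with h1 | h1
      · exact h1
      · omega
    rw [hv2, mul_one] at he'
    have e : mat (wn c k (0 + 1)) = (c k, 1, 1, 0) := by
      rw [← mat_single (c k)]
      rfl
    rw [e]
    exact ⟨he', hv2⟩
  | succ n ih =>
    intro k u v hv hco he
    rw [Real.convergent_succ, step_inv h, ← h.fl k] at he
    have hq := conv_pos h n (k + 1)
    have hv' : (0 : ℚ) < v := by exact_mod_cast hv
    have h1 : ((u - c k * v : ℤ) : ℚ) / v = ((x (k + 1)).convergent n)⁻¹ := by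
      push_cast
      rw [sub_div, he, mul_div_cancel_right₀ _ hv'.ne']
      push_cast
      ring
    have h2 : (0 : ℚ) < ((u - c k * v : ℤ) : ℚ) := by
      have h3 : ((u - c k * v : ℤ) : ℚ) = ((x (k + 1)).convergent n)⁻¹ * v := by
        rw [← h1, div_mul_cancel₀ _ hv'.ne']
      rw [h3]
      positivity
    have h3 : 0 < u - c k * v := by exact_mod_cast h2
    have h4 : ((v : ℚ) / ((u - c k * v : ℤ) : ℚ)) = (x (k + 1)).convergent n := by
      rw [← inv_div, h1, inv_inv]
    have hco' : IsCoprime v (u - c k * v) := by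
      obtain ⟨a, b, hab⟩ := hco
      exact ⟨b + a * c k, a, by linear_combination hab⟩
    obtain ⟨h5, h6⟩ := ih (k + 1) v (u - c k * v) h3 hco' h4
    have e : wn c k (n + 1 + 1) = [c k] ++ wn c (k + 1) (n + 1) := wn_cons c k (n + 1)
    rw [e, mat_append, mat_single]
    unfold mulM
    simp only
    push_cast
    constructor
    · rw [← h5, ← h6]; ring
    · rw [← h5]; ring

lemma K_le {w : List ℕ} (w' : List ℕ) (hw' : PosW w') :
    (mat w).1 ≤ (mat (w ++ w')).1 := by
  induction w' using List.reverseRecOn with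
  | nil => rw [List.append_nil]
  | append_singleton w' a ih =>
    have h1 : PosW w' := fun b hb => hw' b (List.mem_append_left _ hb)
    have ha : 1 ≤ a := hw' a (by simp)
    refine (ih h1).trans ?_
    rw [← List.append_assoc, mat_concat]
    change (mat (w ++ w')).1 ≤ a * (mat (w ++ w')).1 + (mat (w ++ w')).2.1
    have : 1 * (mat (w ++ w')).1 ≤ a * (mat (w ++ w')).1 := Nat.mul_le_mul_right _ ha
    omega

/-- the letters are at most the continuant -/
lemma letter_le {w : List ℕ} (hw : PosW w) : ∀ a ∈ w, a ≤ (mat w).1 := by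
  induction w using List.reverseRecOn with
  | nil => intro a ha; exact absurd ha (by simp)
  | append_singleton w b ih =>
    have h1 : PosW w := fun a ha => hw a (List.mem_append_left _ ha)
    have hb : 1 ≤ b := hw b (by simp)
    intro a ha
    rcases List.mem_append.1 ha with ha | ha
    · exact (ih h1 a ha).trans (K_le [b] (fun e he => by
        rw [List.mem_singleton.1 he]; exact hb))
    · rw [List.mem_singleton.1 ha, mat_concat]
      change b ≤ b * (mat w).1 + (mat w).2.1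
      have : b * 1 ≤ b * (mat w).1 := Nat.mul_le_mul_left _ (mat_pos h1).1
      omega

/-- a unit gives a convergent -/
theorem unit_conv (h : Data m B s x c) (hm : 0 < m) (hB : 1 ≤ B) {X Y : ℤ} (hY : 1 ≤ Y)
    (hXY : X ^ 2 - (B ^ 2 + 4 * m) * Y ^ 2 = 4 ∨ X ^ 2 - (B ^ 2 + 4 * m) * Y ^ 2 = -4) :
    ∃ i, QS m B c (i + 1) = 1 ∧ Y = (mat (wn c 1 i)).1 := by
  wlog hX : 0 ≤ X generalizing X
  · apply this (X := -X)
    · rwa [neg_sq]
    · omega
  -- parity
  obtain ⟨u, hu⟩ : ∃ u, X + B * Y = 2 * u := by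
    have h1 : (2 : ℤ) ∣ (X - B * Y) * (X + B * Y) := by
      rcases hXY with h2 | h2
      · exact ⟨2 * m * Y ^ 2 + 2, by linear_combination h2⟩
      · exact ⟨2 * m * Y ^ 2 - 2, by linear_combination h2⟩
    rcases Int.prime_two.dvd_or_dvd h1 with ⟨k, hk⟩ | ⟨k, hk⟩
    · exact ⟨k + B * Y, by linear_combination hk⟩
    · exact ⟨k, hk⟩
  have hN : u ^ 2 - B * u * Y - m * Y ^ 2 = 1 ∨ u ^ 2 - B * u * Y - m * Y ^ 2 = -1 := by
    have hXe : X = 2 * u - B * Y := by linarith
    rw [hXe] at hXY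
    rcases hXY with h2 | h2
    · left
      linarith
    · right
      linarith
  have hn2 : (u ^ 2 - B * u * Y - m * Y ^ 2) ^ 2 = 1 := by
    rcases hN with h2 | h2 <;> rw [h2] <;> norm_num
  have hco : IsCoprime u Y := by
    rcases hN with h2 | h2
    · exact ⟨u - B * Y, -(m * Y), by linear_combination h2⟩
    · exact ⟨-(u - B * Y), m * Y, by linear_combination -h2⟩
  have hY0 : 0 < Y := by omega
  have hconv := conv_of_unit h hm hB hY0 (by linarith) hco (by
    rw [hn2]
    nlinarith)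
  obtain ⟨i, hi⟩ := hconv
  obtain ⟨-, hv⟩ := conv_mat h i 0 u Y hY0 hco hi
  have e : wn c 0 (i + 1) = [c 0] ++ wn c 1 i := wn_cons c 0 i
  rw [e, mat_append, mat_single] at hv
  have hv' : Y = (mat (wn c 1 i)).1 := by
    rw [hv]
    unfold mulM
    simp
  -- the last coefficient
  have hQ := conv_val h i 0 u Y hY0 hco hi
  have hF : LO.F m B c 0 Y u = -(u ^ 2 - B * u * Y - m * Y ^ 2) := by
    unfold LO.F
    have e1 : QP m B c 0 = m := rfl
    have e2 : QR m B c 0 = B := rfl
    have e3 : QS m B c 0 = 1 := rfl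
    rw [e1, e2, e3]
    ring
  have hQ1 : QS m B c (0 + 1 + i) = 1 := by
    rw [← hQ, hF, abs_neg]
    rcases hN with h2 | h2 <;> rw [h2] <;> norm_num
  exact ⟨i, by rw [show 0 + 1 + i = i + 1 by ring] at hQ1; exact hQ1, hv'⟩

/-- a unit gives a period -/
theorem unit_per (h : Data m B s x c) (hm : 0 < m) (hB : 1 ≤ B) {X Y : ℤ} (hY : 1 ≤ Y)
    (hXY : X ^ 2 - (B ^ 2 + 4 * m) * Y ^ 2 = 4 ∨ X ^ 2 - (B ^ 2 + 4 * m) * Y ^ 2 = -4) :
    0 < minimalPeriod gsh (x 1) := by
  obtain ⟨i, h1, -⟩ := unit_conv h hm hB hY hXY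
  have ij := inv_of h (i + 1)
  have i0 := inv_of h 0
  have hpar := ij.par
  have S0 : QS m B c 0 = 1 := rfl
  have R0 : QR m B c 0 = B := rfl
  obtain ⟨t, ht⟩ : ∃ t, QR m B c (i + 1) - B = 2 * t * 1 :=
    ⟨(QR m B c (i + 1) - B) / 2, by omega⟩
  have sj := ij.sR
  rw [h1] at sj
  have ht0 := int_eq_of t ht ij.Rs sj h.Bs (by push_cast; linarith [h.sB])
  have hR : QR m B c (i + 1) = QR m B c 0 := by rw [R0]; rw [ht0] at ht; linarith
  have hx := x_eq_of_state h hR (by rw [h1, S0])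
  have hx1 : gsh^[i + 1] (x 1) = x 1 := by
    rw [iter h, add_comm, h.step, hx, ← h.step]
  exact IsPeriodicPt.minimalPeriod_pos (Nat.succ_pos i) hx1

/-- **the bound of the continuant** -/
theorem unit_bound (h : Data m B s x c) (hm : 0 < m) (hB : 1 ≤ B) {L : ℕ} (hL0 : 0 < L)
    (hL : minimalPeriod gsh (x 1) = L) {X Y : ℤ} (hY : 1 ≤ Y)
    (hXY : X ^ 2 - (B ^ 2 + 4 * m) * Y ^ 2 = 4 ∨ X ^ 2 - (B ^ 2 + 4 * m) * Y ^ 2 = -4) :
    ((mat (wn c 1 (L - 1))).1 : ℤ) ≤ Y := by
  obtain ⟨i, hQ1, hv'⟩ := unit_conv h hm hB hY hXY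
  have hLi : L ≤ i + 1 := by
    by_contra hcon
    exact S_ne_one h hL (j := i + 1) (by omega) (by omega) hQ1
  obtain ⟨n, hn⟩ : ∃ n, i = (L - 1) + n := ⟨i - (L - 1), by omega⟩
  rw [hv', hn, wn_add]
  exact_mod_cast K_le _ (wn_pos h _ _)

end Pool.Agent.SU


end
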