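import Mathlib
import Pool.Agent.RQM.C15
import Pool.Agent.RQM.C28
import Pool.Agent.RQM.C41
import Pool.Agent.RQM.C42
import Pool.Agent.RQM.C44
import Pool.Agent.RQM.C45
import Pool.Agent.RQM.C52
import Pool.Agent.RQM.C77
import Pool.Agent.RQM.C88
import Pool.Agent.RQM.C89
import Pool.Agent.RQM.C90
import Pool.Agent.RQM.C91
import Pool.Agent.RQM.C94

/-! Parts: SU.Fam, SU.RDFam, SU.Main, SU.Data -/

namespace Pool.Agent.LibH4
end Pool.Agent.LibH4
namespace Pool.Agent.LibH4.CFO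
end Pool.Agent.LibH4.CFO
namespace Pool.Agent.LibH4.CW
end Pool.Agent.LibH4.CW
namespace Pool.Agent.LibH4.Ker
end Pool.Agent.LibH4.Ker
namespace Pool.Agent.LibH4.LO
end Pool.Agent.LibH4.LO
namespace Pool.Agent.Lib_helper5
end Pool.Agent.Lib_helper5

section

/-!
Real quadratic fields with small units: one family of periods.
-/

namespace Pool.Agent.SU

open Function Pool.Agent.Lib_helper5 Pool.Agent.LibH4 Pool.Agent.LibH4.CFO Pool.Agent.LibH4.LO
open Pool.Agent.LibH4.Ker Pool.Agent.LibH4.CW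

/-! ### the primes -/

/-- the inert residues of a prime -/
def okb (x : ℕ × ℕ × ℕ × ℕ) : Bool :=
  decide (x = (2, 8, 32, 17)) || (decide (x.1 % 2 = 1) && decide (x.2.1 = x.1) &&
    decide (x.1 ≤ 127) && decide (2 ≤ x.1) && decide (x.2.2.2 = 4 * (x.1 * x.1) + 1) &&
    (List.range x.1).all (fun k => decide (k < 2) || decide (x.1 % k ≠ 0)) &&
    (List.range x.1).all fun r => decide (bit x.2.2.1 r = 1) ||
      (List.range x.1).any fun y => decide (y * y % x.1 = r))

lemma prime_of_all {q : ℕ} (h2 : 2 ≤ q)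
    (h : ∀ k, k < q → k < 2 ∨ q % k ≠ 0) : q.Prime := by
  rw [Nat.prime_def_lt']
  refine ⟨h2, fun k hk hkq hdvd => ?_⟩
  rcases h k hkq with h3 | h3
  · omega
  · exact h3 (Nat.mod_eq_zero_of_dvd hdvd)

lemma bit_lt (A i : ℕ) : bit A i = 0 ∨ bit A i = 1 := by
  have : bit A i < 2 := Nat.mod_lt _ (by norm_num)
  omega

/-- a prime which is not inert has a root -/
lemma okb_root {x : ℕ × ℕ × ℕ × ℕ} (hx : okb x = true) : x.1.Prime ∧ x.1 ≤ 127 ∧
    x.2.2.2 = 4 * (x.1 * x.1) + 1 ∧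
    ∀ B m : ℕ, bit x.2.2.1 ((B * B + 4 * m) % x.2.1) = 0 →
      ∃ X : ℤ, (x.1 : ℤ) ∣ X ^ 2 + B * X - m := by
  unfold okb at hx
  rw [Bool.or_eq_true] at hx
  rcases hx with hx | hx
  · rw [decide_eq_true_eq] at hx
    subst hx
    refine ⟨Nat.prime_two, by norm_num, rfl, ?_⟩
    intro B m h
    have h5 : (B * B + 4 * m) % 8 ≠ 5 := by
      intro h5
      rw [show ((2, 8, 32, 17) : ℕ × ℕ × ℕ × ℕ).2.1 = 8 by rfl, h5] at h
      exact absurd h (by decide)
    change ∃ X : ℤ, ((2 : ℕ) : ℤ) ∣ X ^ 2 + B * X - m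
    rcases Nat.even_or_odd' m with ⟨k, hk | hk⟩
    · refine ⟨0, -k, ?_⟩
      rw [hk]; push_cast; ring
    · rcases Nat.even_or_odd' B with ⟨b, hb | hb⟩
      · refine ⟨1, b - k, ?_⟩
        rw [hk, hb]; push_cast; ring
      · exfalso
        apply h5
        subst hk hb
        obtain ⟨e, he⟩ : ∃ e, b * (b + 1) = 2 * e := by
          obtain ⟨e, he⟩ := Nat.even_mul_succ_self b
          exact ⟨e, by omega⟩
        have : (2 * b + 1) * (2 * b + 1) + 4 * (2 * k + 1) = 4 * (b * (b + 1)) + 8 * k + 5 := by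
          ring
        rw [this, he]
        omega
  · simp only [Bool.and_eq_true, decide_eq_true_eq, List.all_eq_true, Bool.or_eq_true,
      List.any_eq_true, List.mem_range] at hx
    obtain ⟨⟨⟨⟨⟨⟨h1, h2⟩, h3⟩, h4⟩, h7⟩, h5⟩, h6⟩ := hx
    have hp : x.1.Prime := prime_of_all h4 h5
    refine ⟨hp, h3, h7, ?_⟩
    intro B m h
    rw [h2] at h
    rcases h6 _ (Nat.mod_lt (B * B + 4 * m) hp.pos) with h7 | ⟨y, -, h7⟩
    · rw [h] at h7
      exact absurd h7 (by norm_num)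
    · set q := x.1
      have hd : (q : ℤ) ∣ (y : ℤ) ^ 2 - (B ^ 2 + 4 * m) := by
        have h8 : ((B * B + 4 * m) : ℕ) ≡ y * y [MOD q] := by
          unfold Nat.ModEq
          rw [h7]
        have h9 := h8.dvd
        push_cast at h9
        have e : (y : ℤ) ^ 2 - (B ^ 2 + 4 * m) = y * y - (B * B + 4 * m) := by ring
        rw [e]
        exact h9
      obtain ⟨k, hk⟩ : ∃ k, q = 2 * k + 1 := ⟨q / 2, by omega⟩
      refine ⟨(y - B) * (k + 1), ?_⟩
      have h10 : (q : ℤ) ∣ 4 * (((y - B) * (k + 1) : ℤ) ^ 2 + B * ((y - B) * (k + 1)) - m) := by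
        have e : (4 * (((y - B) * (k + 1) : ℤ) ^ 2 + B * ((y - B) * (k + 1)) - m) : ℤ) =
            ((y : ℤ) ^ 2 - (B ^ 2 + 4 * m)) + q * ((y - B) ^ 2 * (2 * k + 3) +
              2 * B * (y - B)) := by
          rw [hk]; push_cast; ring
        rw [e]
        exact dvd_add hd (Dvd.intro _ rfl)
      have hcop : IsCoprime (q : ℤ) 4 := by
        rw [show (4 : ℤ) = ((4 : ℕ) : ℤ) by rfl, Nat.isCoprime_iff_coprime]
        have h2 : Nat.Coprime q 2 := by
          rw [Nat.coprime_comm, Nat.Prime.coprime_iff_not_dvd Nat.prime_two]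
          omega
        exact Nat.Coprime.mul_right h2 h2
      exact hcop.dvd_of_dvd_mul_left h10

/-! ### half of the period -/

variable {m B : ℤ} {s : ℝ} {x : ℕ → ℝ} {c : ℕ → ℕ}

/-- a coefficient different from one occurs in the first half -/
lemma half_even (h : Data m B s x c) {J : ℕ} (hJ : 0 < J)
    (hL : minimalPeriod gsh (x 1) = 2 * J) {j : ℕ}
    (hj : QS m B c j ≠ 1) : ∃ i, 1 ≤ i ∧ i ≤ J ∧ QS m B c i = QS m B c j := by
  have hper := per_of h hL
  have e1 : QS m B c j = QS m B c (j % (2 * J)) := by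
    have h1 := per_mul h hL (j % (2 * J)) (j / (2 * J))
    rw [Nat.mod_add_div'] at h1
    exact (state_eq h h1).2.2
  set j0 := j % (2 * J) with hj0
  have hlt : j0 < 2 * J := Nat.mod_lt _ (by omega)
  have hne : j0 ≠ 0 := by
    intro h0
    rw [e1, h0] at hj
    exact hj rfl
  by_cases hI : j0 ≤ J
  · exact ⟨j0, by omega, hI, e1.symm⟩
  · obtain ⟨p1, -, -, -⟩ := palin h hper (2 * J - j0) j0 (by omega)
    exact ⟨2 * J - j0, by omega, by omega, by rw [e1, p1]⟩

lemma wn_take (c : ℕ → ℕ) (k n i : ℕ) (hi : i ≤ n) : (wn c k n).take i = wn c k i := by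
  unfold wn
  rw [← List.map_take, List.take_range, Nat.min_eq_left hi]

/-- the smallest parameter -/
lemma bet0_mod {par : Bool} {v u z : ℕ} (hv : 0 < v) {B m : ℤ} (h1 : m * v = B * u + z)
    (h2 : (z : ℤ) * v = (u : ℤ) ^ 2 - (if par then 1 else -1)) :
    bet0 par v u z < v ∧ (v : ℤ) ∣ B - bet0 par v u z := by
  cases par with
  | false =>
    refine ⟨Nat.mod_lt _ hv, ?_⟩
    change (v : ℤ) ∣ B - ((z * u % v : ℕ) : ℤ)
    simp only [Bool.false_eq_true, if_false] at h2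
    have h3 : ((z * u % v : ℕ) : ℤ) = (z : ℤ) * u - v * ((z * u / v : ℕ) : ℤ) := by
      have := Nat.mod_add_div (z * u) v
      have h4 : ((z * u % v + v * (z * u / v) : ℕ) : ℤ) = ((z * u : ℕ) : ℤ) := by rw [this]
      push_cast at h4 ⊢
      linarith
    rw [h3]
    refine ⟨z * B + ((z * u / v : ℕ) : ℤ) - m * u, ?_⟩
    linear_combination -B * h2 + u * h1
  | true =>
    refine ⟨Nat.mod_lt _ hv, ?_⟩
    change (v : ℤ) ∣ B - (((v - z * u % v) % v : ℕ) : ℤ)
    simp only [if_true] at h2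
    have h3 : ((z * u % v : ℕ) : ℤ) = (z : ℤ) * u - v * ((z * u / v : ℕ) : ℤ) := by
      have := Nat.mod_add_div (z * u) v
      have h4 : ((z * u % v + v * (z * u / v) : ℕ) : ℤ) = ((z * u : ℕ) : ℤ) := by rw [this]
      push_cast at h4 ⊢
      linarith
    have h5 : (((v - z * u % v) % v : ℕ) : ℤ) = v - (z * u % v : ℕ) -
        v * (((v - z * u % v) / v : ℕ) : ℤ) := by
      have := Nat.mod_add_div (v - z * u % v) v
      have h4 : (((v - z * u % v) % v + v * ((v - z * u % v) / v) : ℕ) : ℤ) =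
          ((v - z * u % v : ℕ) : ℤ) := by rw [this]
      have h6 : z * u % v ≤ v := (Nat.mod_lt _ hv).le
      rw [Nat.cast_sub h6] at h4
      rw [Nat.cast_add, Nat.cast_mul] at h4
      linarith
    rw [h5, h3]
    refine ⟨m * u - z * B - 1 + (((v - z * u % v) / v : ℕ) : ℤ) - ((z * u / v : ℕ) : ℤ), ?_⟩
    linear_combination B * h2 - u * h1

/-- **one family** -/
theorem fam_core {pl : PLt} {dl : List ℕ} {X : ℕ}
    {el : Bool → ℕ → ℕ → ℕ → ℕ → ℕ → ℕ → Bool} (hpl : ∀ x ∈ toL pl, okb x = true)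
    (h : Data m B s x c) (hm : 0 < m) (hB : 1 ≤ B)
    [IsDomain (QuadraticAlgebra ℤ m B)] [UniqueFactorizationMonoid (QuadraticAlgebra ℤ m B)]
    {L H v u z : ℕ} (hL0 : 0 < L) (hL : minimalPeriod gsh (x 1) = L) (hHL : H ≤ L - 1)
    (hM : mat (wn c 1 (L - 1)) = (v, u, u, z))
    (half : ∀ p : ℕ, p.Prime → ∀ j, QS m B c j = p → ∃ i, 1 ≤ i ∧ i ≤ H ∧ QS m B c i = p)
    (hsm : SmW (wn c 1 H)) {par : Bool} (hpar : ((-1 : ℤ)) ^ L = if par then 1 else -1)
    (hF : famF el pl dl X par H (pk (wn c 1 H)) v u z = true)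
    (hsk : skp par H (pk (wn c 1 H)) v = true → 3365 ≤ B ^ 2 + 4 * m ∧
      ∀ p : ℕ, p.Prime → p ≤ 29 → ∀ j, 1 ≤ j → j ≤ H → QS m B c j ≠ p)
    (hel : ∀ β m0 t : ℕ, B = v * t + β → m = u * t + m0 →
      el par H (pk (wn c 1 H)) v u β m0 = true →
      (∀ p : ℕ, p.Prime → p ≤ 29 → ∀ X : ℤ, ¬ (p : ℤ) ∣ X ^ 2 + B * X - m) → False) :
    (∃ D ∈ dl, B ^ 2 + 4 * m = (D : ℤ)) ∨ (2 ∣ B ^ 2 + 4 * m ∧ X < 2 * v) := by
  obtain ⟨h1, h2⟩ := closing_eq h hL0 hL hM
  rw [hpar] at h2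
  have hv : 0 < v := by
    have := (mat_pos (wn_pos h 1 (L - 1))).1
    rw [hM] at this
    exact this
  obtain ⟨hβ, hβ2⟩ := bet0_mod hv h1 h2
  unfold famF at hF
  change famG el pl dl X par H (pk (wn c 1 H)) v u (bet0 par v u z)
    ((bet0 par v u z * u + z) / v) = true at hF
  set β := bet0 par v u z with hβd
  clear_value β
  obtain ⟨t', ht'⟩ := hβ2
  have ht0 : 0 ≤ t' := by
    by_contra hneg
    have h3 : t' ≤ -1 := by omega
    have h4 : (v : ℤ) * t' ≤ v * (-1) := mul_le_mul_of_nonneg_left h3 (by positivity)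
    have h5 : (β : ℤ) < v := by exact_mod_cast hβ
    linarith
  obtain ⟨t, rfl⟩ : ∃ t : ℕ, t' = t := ⟨t'.toNat, by omega⟩
  have hBt : B = v * t + β := by linarith
  -- the parameter `m`
  have hdvd : (v : ℤ) * (m - u * t) = β * u + z := by
    rw [hBt] at h1
    linear_combination h1
  have hm0 : m = u * t + ((β * u + z) / v : ℕ) := by
    have hdn : (v : ℤ) ∣ ((β * u + z : ℕ) : ℤ) := ⟨m - u * t, by push_cast; linarith⟩
    have hdn' : v ∣ β * u + z := by exact_mod_cast hdn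
    obtain ⟨w, hw⟩ := hdn'
    rw [hw, Nat.mul_div_cancel_left _ hv]
    have h3 : (v : ℤ) * (m - u * t) = v * w := by
      rw [hdvd]
      exact_mod_cast hw
    have hv' : (v : ℤ) ≠ 0 := by exact_mod_cast hv.ne'
    have := mul_left_cancel₀ hv' h3
    linarith
  set m0 := (β * u + z) / v with hm0d
  clear_value m0
  obtain ⟨hel1, hsmall⟩ := andB_true hF
  replace hsmall : @Bool.rec (fun _ => Bool) (small pl dl X H (pk (wn c 1 H)) v u 64 β m0) true
    (skp par H (pk (wn c 1 H)) v) = true := hsmall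
  have hB1 : 1 ≤ β + t * v := by
    have : (1 : ℤ) ≤ ((β + t * v : ℕ) : ℤ) := by push_cast; linarith
    exact_mod_cast this
  have hBn : B = ((β + t * v : ℕ) : ℤ) := by push_cast; linarith
  have hmn : m = ((m0 + t * u : ℕ) : ℤ) := by push_cast; linarith
  -- the small primes are inert if they are not represented
  have hinert : 3365 ≤ B ^ 2 + 4 * m → (∀ p : ℕ, p.Prime → p ≤ 29 → ∀ j, 1 ≤ j → j ≤ H →
      QS m B c j ≠ p) → False := by
    intro hD hrep
    refine hel β m0 t hBt hm0 hel1 ?_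
    intro p hp hp29 Y hY
    have hp' : (p : ℤ) ≤ 29 := by exact_mod_cast hp29
    have hp0 : (0 : ℤ) < p := by exact_mod_cast hp.pos
    obtain ⟨j, hj⟩ := prime_QS h hm hB hp hY (by nlinarith)
    obtain ⟨k, hk1, hk2, hk3⟩ := half p hp j hj
    exact hrep p hp hp29 k hk1 hk2 hk3
  -- a bit of the mask
  have hmask : ∀ q, q ≤ 127 →
      (runU H (pk (wn c 1 H)) 1 (β + t * v) (m0 + t * u) 0).testBit q = false →
      ∀ j, 1 ≤ j → j ≤ H → QS m B c j ≠ q := by
    intro q hq hbit j hj1 hj2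
    exact (run_real h hq H 0 hsm (P := 1) (R := β + t * v) (S := m0 + t * u)
        (by rw [QP_succ]; rfl) (by rw [zero_add, QR_one h, hBn]) (by rw [zero_add, QS_one h, hmn])
        0 hbit).2 j (by omega) (by omega)
  cases hskp : skp par H (pk (wn c 1 H)) v with
  | true =>
    exfalso
    obtain ⟨k1, k2⟩ := hsk hskp
    exact hinert k1 k2
  | false =>
  rw [hskp] at hsmall
  rcases smallB_spec 64 β m0 hsmall t hB1 with hbig | ⟨i, hi, hBi, s2, s1'⟩ | hfr | hce
  · exfalso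
    have hlen : (wn c 1 H).length = H := wn_length 1 H
    have hmx := (mxd_le (wn c 1 H) hsm 1).2
    have hmx1 := (mxd_le (wn c 1 H) hsm 1).1
    rw [hlen] at hmx hmx1
    have hbig' : 60 * ((mxd H (pk (wn c 1 H)) 1 : ℤ) + 1) ≤ B := by
      rw [hBn]
      exact_mod_cast hbig
    refine hinert ?_ fun p _ hp29 j hj1 hj2 hj3 => ?_
    · have h3 : (1 : ℤ) ≤ mxd H (pk (wn c 1 H)) 1 := by exact_mod_cast hmx1
      nlinarith
    · have hcj : c j ∈ wn c 1 H := by
        unfold wn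
        exact List.mem_map.2 ⟨j - 1, List.mem_range.2 (by omega), by congr 1; omega⟩
      have := big_B h hj1 (hmx _ hcj) hbig'
      omega
  · exfalso
    have hbits : ∀ q, q < 30 →
        (runM H (pk (wn c 1 H)) 1 (β + i * v) (m0 + i * u) 0).testBit q = false := by
      intro q hq
      have h3 := Nat.testBit_mod_two_pow (runM H (pk (wn c 1 H)) 1 (β + i * v) (m0 + i * u) 0) 30 q
      rw [s1'] at h3
      simpa [hq] using h3.symm
    have hlen : (wn c 1 H).length = H := wn_length 1 H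
    -- the last coefficients are large
    have hbig : ∀ j, 1 ≤ j → j ≤ H → 30 ≤ QS m B c j := by
      intro j hj1 hj2
      obtain ⟨k, rfl⟩ : ∃ k, j = k + 1 := ⟨j - 1, by omega⟩
      have hq := fun q (hq : q < 30) => (run_int (q := q) (by omega) (wn c 1 H) hsm 1
        (β + i * v) (m0 + i * u) 0 (by rw [hlen]; exact hbits 0 (by norm_num))
        (by rw [hlen]; exact hbits q hq)).2 k (by rw [hlen]; omega)
      obtain ⟨T, -, hT⟩ := hq 0 (by norm_num)
      have hT30 : 30 ≤ T := by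
        by_contra hcon
        obtain ⟨T', hT1, hT2⟩ := hq T (by omega)
        rw [hT] at hT2
        exact hT1 (by exact_mod_cast hT2.symm)
      have e1 : QS m B c (k + 1) =
          (en (1, B, m) ((wn c 1 k).map fun a : ℕ => (a : ℤ))).2.2 := by
        rw [← qst_wn h k]; rfl
      rw [wn_take c 1 H k (by omega)] at hT
      obtain ⟨n, hn⟩ : ∃ n, L - 1 = k + n := ⟨L - 1 - k, by omega⟩
      have hM' := hM
      rw [hn, wn_add] at hM'
      have hmono := en_mono (w := wn c 1 k) (w' := wn c (1 + k) n) (v := v) (u := u)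
        (by rw [hM']) (by rw [hM']) ((β + i * v : ℕ) : ℤ) ((m0 + i * u : ℕ) : ℤ) (t - i)
      have e2 : ((β + i * v : ℕ) : ℤ) + ((t - i : ℕ) : ℤ) * v = B := by
        rw [hBn]; push_cast [hi]; ring
      have e3 : ((m0 + i * u : ℕ) : ℤ) + ((t - i : ℕ) : ℤ) * u = m := by
        rw [hmn]; push_cast [hi]; ring
      rw [e2, e3, ← e1] at hmono
      have e4 : ((1 : ℕ) : ℤ) = 1 := rfl
      rw [e4] at hT
      rw [hT] at hmono
      have : (30 : ℤ) ≤ T := by exact_mod_cast hT30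
      linarith
    have hD : (3365 : ℤ) ≤ B ^ 2 + 4 * m := by
      have s3 : ((3365 : ℕ) : ℤ) ≤ (((β + i * v) * (β + i * v) + 4 * (m0 + i * u) : ℕ) : ℤ) := by
        exact_mod_cast s2
      have h3 : ((β + i * v : ℕ) : ℤ) ≤ B := by
        rw [hBn]
        exact_mod_cast Nat.add_le_add_left (Nat.mul_le_mul_right _ hi) _
      have h4 : ((m0 + i * u : ℕ) : ℤ) ≤ m := by
        rw [hmn]
        exact_mod_cast Nat.add_le_add_left (Nat.mul_le_mul_right _ hi) _
      have h5 : (0 : ℤ) ≤ ((β + i * v : ℕ) : ℤ) := by positivity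
      push_cast at s3 h3 h4 h5
      nlinarith
    refine hinert hD fun p _ hp29 j hj1 hj2 hj3 => ?_
    have := hbig j hj1 hj2
    omega
  · exfalso
    obtain ⟨f1, f2⟩ := andB_true hfr
    rw [Nat.beq_eq] at f1
    rw [Nat.ble_eq] at f2
    have f3 : runU H (pk (wn c 1 H)) 1 (β + t * v) (m0 + t * u) 0 &&& 545925292 = 0 := f1
    have hD : (3365 : ℤ) ≤ B ^ 2 + 4 * m := by
      have s3 : ((3365 : ℕ) : ℤ) ≤ (((β + t * v) * (β + t * v) + 4 * (m0 + t * u) : ℕ) : ℤ) := by
        exact_mod_cast f2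
      rw [hBn, hmn]
      push_cast at s3 ⊢
      linarith
    refine hinert hD fun p hp hp29 j hj1 hj2 => hmask p (by omega) ?_ j hj1 hj2
    have f4 : (545925292 : ℕ).testBit p = true := by
      interval_cases p <;> first | decide | (exfalso; revert hp; norm_num)
    have f5 := Nat.testBit_and (runU H (pk (wn c 1 H)) 1 (β + t * v) (m0 + t * u) 0) 545925292 p
    rw [f3, f4, Nat.zero_testBit, Bool.and_true] at f5
    exact f5.symm
  · rcases cert_true hce with ⟨y, hy, c1, c2, c3⟩ | hD | ⟨hev, hX⟩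
    · exfalso
      obtain ⟨hp, hp127, hF4, hroot⟩ := okb_root (hpl y hy)
      rw [hF4] at c3
      obtain ⟨Y, hY⟩ := hroot _ _ c1
      rw [← hBn, ← hmn] at hY
      have h4 : 4 * (y.1 : ℤ) ^ 2 < B ^ 2 + 4 * m := by
        have c3' : 4 * (y.1 * y.1) < (β + t * v) * (β + t * v) + 4 * (m0 + t * u) := c3
        have c4 : ((4 * (y.1 * y.1) : ℕ) : ℤ) <
            (((β + t * v) * (β + t * v) + 4 * (m0 + t * u) : ℕ) : ℤ) := by exact_mod_cast c3'
        rw [hBn, hmn]
        push_cast at c4 ⊢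
        linarith
      obtain ⟨j, hj⟩ := prime_QS h hm hB hp hY h4
      obtain ⟨k, hk1, hk2, hk3⟩ := half y.1 hp j hj
      have hbit : (runU H (pk (wn c 1 H)) 1 (β + t * v) (m0 + t * u) 0).testBit y.1 = false := by
        rw [Nat.testBit_eq_decide_div_mod_eq, decide_eq_false_iff_not]
        have c2' : (runU H (pk (wn c 1 H)) 1 (β + t * v) (m0 + t * u) 0) >>> y.1 % 2 = 0 := c2
        rw [Nat.shiftRight_eq_div_pow] at c2'
        omega
      exact hmask y.1 hp127 hbit k hk1 hk2 hk3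
    · left
      refine ⟨_, hD, ?_⟩
      rw [hBn, hmn]
      push_cast
      ring
    · right
      refine ⟨?_, hX⟩
      have h3 : (2 : ℤ) ∣ (((β + t * v) * (β + t * v) + 4 * (m0 + t * u) : ℕ) : ℤ) := by
        exact_mod_cast Nat.dvd_of_mod_eq_zero hev
      have e : B ^ 2 + 4 * m = (((β + t * v) * (β + t * v) + 4 * (m0 + t * u) : ℕ) : ℤ) := by
        rw [hBn, hmn]
        push_cast
        ring
      rw [e]
      exact h3

end Pool.Agent.SU


end

section

/-!
Real quadratic fields with small units: the periods `B a` and `B 1 a 1`.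
-/

namespace Pool.Agent.SU

open Function Pool.Agent.Lib_helper5 Pool.Agent.LibH4 Pool.Agent.LibH4.CFO Pool.Agent.LibH4.LO
open Pool.Agent.LibH4.Ker Pool.Agent.LibH4.CW

lemma okb_M {x : ℕ × ℕ × ℕ × ℕ} (hx : okb x = true) (h2 : x.1 ≠ 2) : x.2.1 = x.1 := by
  unfold okb at hx
  rw [Bool.or_eq_true] at hx
  rcases hx with hx | hx
  · rw [decide_eq_true_eq] at hx
    subst hx
    exact absurd rfl h2
  · simp only [Bool.and_eq_true, decide_eq_true_eq] at hx
    exact hx.1.1.1.1.1.2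

variable {m B : ℤ} {s : ℝ} {x : ℕ → ℝ} {c : ℕ → ℕ}

/-- a killed discriminant -/
lemma kill_false {pl : PLt} (hpl : ∀ y ∈ toL pl, okb y = true)
    (h : Data m B s x c) (hm : 0 < m) (hB : 1 ≤ B)
    [IsDomain (QuadraticAlgebra ℤ m B)] [UniqueFactorizationMonoid (QuadraticAlgebra ℤ m B)]
    {H : ℕ} (half : ∀ p : ℕ, p.Prime → ∀ j, QS m B c j = p → ∃ i, 1 ≤ i ∧ i ≤ H ∧ QS m B c i = p)
    {par : Bool} {n v : ℕ} (hD : 64516 < B ^ 2 + 4 * m)
    (hBm : B ^ 2 + 4 * m = (n : ℤ) ^ 2 * v ^ 2 + (if par then -1 else 1) * (4 * n))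
    (hne : ∀ q : ℕ, q ≤ 127 → q ≠ n → ∀ i, 1 ≤ i → i ≤ H → QS m B c i ≠ q)
    (hk : ∃ y ∈ toL pl, Kill par n v y) : False := by
  obtain ⟨y, hy, k1, k2, k3⟩ := hk
  obtain ⟨hp, hp127, -, hroot⟩ := okb_root (hpl y hy)
  have hM := okb_M (hpl y hy) k1
  obtain ⟨Bn, hBn⟩ : ∃ Bn : ℕ, B = Bn := ⟨B.toNat, by omega⟩
  obtain ⟨mn, hmn⟩ : ∃ mn : ℕ, m = mn := ⟨m.toNat, by omega⟩
  have hmod : (Bn * Bn + 4 * mn) % y.1 = (n * n * (v * v) + sg par n y.1) % y.1 := by
    rw [hBn, hmn] at hBm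
    have h4 := Nat.mod_add_div (4 * n) y.1
    have hlt := Nat.mod_lt (4 * n) hp.pos
    cases par with
    | false =>
      simp only [Bool.false_eq_true, if_false, one_mul] at hBm
      have e1 : Bn * Bn + 4 * mn = n * n * (v * v) + 4 * n := by
        have : ((Bn * Bn + 4 * mn : ℕ) : ℤ) = ((n * n * (v * v) + 4 * n : ℕ) : ℤ) := by
          push_cast
          linear_combination hBm
        exact_mod_cast this
      rw [e1]
      change _ = (n * n * (v * v) + 4 * n % y.1) % y.1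
      rw [Nat.add_mod_mod]
    | true =>
      simp only [if_true] at hBm
      have e1 : n * n * (v * v) = Bn * Bn + 4 * mn + 4 * n := by
        have : ((n * n * (v * v) : ℕ) : ℤ) = ((Bn * Bn + 4 * mn + 4 * n : ℕ) : ℤ) := by
          push_cast
          linear_combination -hBm
        exact_mod_cast this
      change _ = (n * n * (v * v) + (y.1 - 4 * n % y.1)) % y.1
      have e2 : n * n * (v * v) + (y.1 - 4 * n % y.1) =
          Bn * Bn + 4 * mn + y.1 * (4 * n / y.1 + 1) := by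
        rw [e1, mul_add, mul_one]
        omega
      rw [e2, Nat.add_mul_mod_self_left]
  rw [← hmod, ← hM] at k3
  obtain ⟨Y, hY⟩ := hroot _ _ k3
  rw [← hBn, ← hmn] at hY
  have hp2 : (y.1 : ℤ) ≤ 127 := by exact_mod_cast hp127
  have hp0 : (0 : ℤ) < y.1 := by exact_mod_cast hp.pos
  obtain ⟨j, hj⟩ := prime_QS h hm hB hp hY (by nlinarith)
  obtain ⟨i, hi1, hi2, hi3⟩ := half y.1 hp j hj
  exact hne y.1 hp127 k2 i hi1 hi2 hi3

/-- **the skipped families** -/
theorem skip_spec {pl : PLt} (hpl : ∀ y ∈ toL pl, okb y = true) {X jj : ℕ} (hX : X < 2 ^ jj)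
    (hsv : svAll jj (X + 1) 320 pl = true)
    (h : Data m B s x c) (hm : 0 < m) (hB : 1 ≤ B)
    [IsDomain (QuadraticAlgebra ℤ m B)] [UniqueFactorizationMonoid (QuadraticAlgebra ℤ m B)]
    {J : ℕ} (hL : minimalPeriod gsh (x 1) = 2 * (J + 1)) {v u z : ℕ}
    (hM : mat (wn c 1 (2 * (J + 1) - 1)) = (v, u, u, z)) (hv : v ≤ X)
    (hsm : SmW (wn c 1 (J + 1)))
    (hs : skp true (J + 1) (pk (wn c 1 (J + 1))) v = true) :
    3365 ≤ B ^ 2 + 4 * m ∧
      ∀ p : ℕ, p.Prime → p ≤ 29 → ∀ j, 1 ≤ j → j ≤ J + 1 → QS m B c j ≠ p := by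
  have hpos : ∀ y ∈ toL pl, 0 < y.1 := fun y hy => (okb_root (hpl y hy)).1.pos
  obtain ⟨s1, s2⟩ := andB_true hs
  obtain ⟨-, s2⟩ := andB_true s2
  obtain ⟨s3, s4⟩ := andB_true s2
  rw [Nat.ble_eq] at s1 s3
  replace s1 : J + 1 ≤ 2 := s1
  replace s3 : 320 ≤ v := s3
  have hv320 : (320 : ℤ) ≤ v := by exact_mod_cast s3
  have half : ∀ p : ℕ, p.Prime → ∀ j, QS m B c j = p →
      ∃ i, 1 ≤ i ∧ i ≤ J + 1 ∧ QS m B c i = p := by
    intro p hp j hj
    obtain ⟨i, h1, h2, h3⟩ := half_even h (Nat.succ_pos J) hL (j := j) (by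
      rw [hj]; exact_mod_cast hp.one_lt.ne')
    exact ⟨i, h1, h2, by rw [h3, hj]⟩
  have hcl := (closing_eq h (by omega) hL hM).1
  have hQ1 : QS m B c 1 = m := QS_one h
  rcases (show J = 0 ∨ J = 1 by omega) with rfl | rfl
  · -- the word `a`
    have e1 : mat (wn c 1 (2 * (0 + 1) - 1)) = (c 1, 1, 1, 0) := by
      rw [← mat_single (c 1)]
      rfl
    rw [e1, Prod.mk.injEq, Prod.mk.injEq, Prod.mk.injEq] at hM
    obtain ⟨hv1, hu1, -, hz1⟩ := hM
    rw [← hu1, ← hz1] at hcl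
    have hBe : B = m * v := by push_cast at hcl; linarith
    have hB1 : 320 ≤ B := by rw [hBe]; nlinarith
    refine ⟨by nlinarith, ?_⟩
    intro p hp hp29 j hj1 hj2 hj3
    have hj : j = 1 := by omega
    rw [hj, hQ1] at hj3
    have hp2 : (2 : ℤ) ≤ p := by exact_mod_cast hp.two_le
    refine kill_false hpl h hm hB half (par := false) (n := p) (v := v) ?_ ?_ ?_
      (sieve hpos hX hsv false hp hp29 v s3 (by omega))
    · have : 640 ≤ B := by rw [hBe, hj3]; nlinarith
      nlinarith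
    · rw [hBe, hj3]
      simp only [Bool.false_eq_true, if_false]
      ring
    · intro q _ hqn i hi1 hi2 hi3
      have hi : i = 1 := by omega
      rw [hi, hQ1, hj3] at hi3
      exact hqn (by exact_mod_cast hi3.symm)
  · -- the word `1 a`
    have hW : Nat.beq (pk (wn c 1 (1 + 1)) % 1048576) 1 = true := by
      have s5 : andB (Nat.beq 2 2) (Nat.beq (pk (wn c 1 (1 + 1)) % 1048576) 1) = true := s4
      exact (andB_true s5).2
    have hc1 : c 1 = 1 := by
      have e3 : wn c 1 (1 + 1) = c 1 :: wn c 2 1 := rfl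
      rw [e3] at hW hsm
      rw [pk_mod _ (hsm _ List.mem_cons_self)] at hW
      exact Nat.eq_of_beq_eq_true hW
    have e1 : mat (wn c 1 1) = (1, 1, 1, 0) := by
      have : mat (wn c 1 1) = (c 1, 1, 1, 0) := by
        rw [← mat_single (c 1)]
        rfl
      rw [this, hc1]
    have e2 := mat_even h hL e1
    rw [e2, Prod.mk.injEq, Prod.mk.injEq, Prod.mk.injEq] at hM
    obtain ⟨hv1, hu1, -, hz1⟩ := hM
    have hv2 : (v : ℤ) = c (1 + 1) + 2 := by rw [← hv1]; push_cast; ring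
    have hu2 : (u : ℤ) = c (1 + 1) + 1 := by rw [← hu1]; push_cast; ring
    have hz2 : (z : ℤ) = c (1 + 1) := by rw [← hz1]; push_cast; ring
    have hQ2 : QS m B c 2 = B - m + 1 := by
      rw [show (2 : ℕ) = 1 + 1 by rfl, QS_succ, QR_one h, hQ1, hc1]
      have : QP m B c 1 = 1 := rfl
      rw [this]
      push_cast
      ring
    have hn0 : 0 < B - m + 1 := by rw [← hQ2]; exact (inv_of h 2).Spos
    have hnv : (B - m + 1) * v = B + 2 := by
      rw [hu2, hz2] at hcl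
      rw [hv2] at hcl ⊢
      linear_combination -hcl
    have hB1 : 318 ≤ B := by nlinarith
    have hmn : m = (B - m + 1) * (v - 1) - 1 := by linear_combination -hnv
    have hm1 : 318 ≤ m := by nlinarith
    refine ⟨by nlinarith, ?_⟩
    intro p hp hp29 j hj1 hj2 hj3
    have hp29' : (p : ℤ) ≤ 29 := by exact_mod_cast hp29
    rcases (show j = 1 ∨ j = 2 by omega) with hj | hj
    · rw [hj, hQ1] at hj3
      omega
    · rw [hj, hQ2] at hj3
      have hp2 : (2 : ℤ) ≤ p := by exact_mod_cast hp.two_le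
      rw [hj3] at hnv
      refine kill_false hpl h hm hB half (par := true) (n := p) (v := v) ?_ ?_ ?_
        (sieve hpos hX hsv true hp hp29 v s3 (by omega))
      · have : 638 ≤ B := by nlinarith
        nlinarith
      · simp only [if_true]
        have hmB : m = B + 1 - p := by linarith
        have : (p : ℤ) ^ 2 * v ^ 2 = (B + 2) ^ 2 := by rw [← hnv]; ring
        rw [this, hmB]
        ring
      · intro q hq127 hqn i hi1 hi2 hi3
        have hq' : (q : ℤ) ≤ 127 := by exact_mod_cast hq127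
        rcases (show i = 1 ∨ i = 2 by omega) with hi | hi
        · rw [hi, hQ1] at hi3
          omega
        · rw [hi, hQ2, hj3] at hi3
          exact hqn (by exact_mod_cast hi3.symm)

end Pool.Agent.SU


end

section

/-!
Real quadratic fields with small units: from the checks of the families to the list.
-/

namespace Pool.Agent.SU

open scoped NumberField
open Function Pool.Agent.Lib_helper5 Pool.Agent.LibH4 Pool.Agent.LibH4.CFO Pool.Agent.LibH4.LO
open Pool.Agent.LibH4.Ker Pool.Agent.LibH4.CW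

/-- soundness of an elimination function -/
def Elim (el : Bool → ℕ → ℕ → ℕ → ℕ → ℕ → ℕ → Bool) : Prop :=
  ∀ (par : Bool) (w : List ℕ) (v u β m0 t : ℕ) (D : ℤ), SmW w →
    el par w.length (pk w) v u β m0 = true →
    RelJ D (JH par ((v * t + β : ℕ) : ℤ) ((u * t + m0 : ℕ) : ℤ) w) → False

variable {m B : ℤ} {s : ℝ} {x : ℕ → ℝ} {c : ℕ → ℕ}

/-- the letters of a part of the period are small -/
lemma smW_of (h : Data m B s x c) {X L H : ℕ} (hX : X < 2 ^ 20) (hHL : H ≤ L)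
    (hv : (mat (wn c 1 L)).1 ≤ X) : SmW (wn c 1 H) := by
  obtain ⟨n, rfl⟩ : ∃ n, L = H + n := ⟨L - H, by omega⟩
  intro a ha
  have h1 := letter_le (wn_pos h 1 H) a ha
  have h2 := K_le (w := wn c 1 H) (wn c (1 + H) n) (wn_pos h _ _)
  rw [← wn_add] at h2
  omega

theorem main_data {pl : PLt} {dl : List ℕ} {X : ℕ}
    {el : Bool → ℕ → ℕ → ℕ → ℕ → ℕ → ℕ → Bool} (hpl : ∀ x ∈ toL pl, okb x = true) (hel : Elim el)
    (hX : X < 2 ^ 20) {jj : ℕ} (hXj : X < 2 ^ jj) (hsv : svAll jj (X + 1) 320 pl = true)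
    (hAB : AB (famF el pl dl X) X []) (h : Data m B s x c) (hm : 0 < m) (hB : 1 ≤ B)
    [IsDomain (QuadraticAlgebra ℤ m B)] [UniqueFactorizationMonoid (QuadraticAlgebra ℤ m B)]
    {L : ℕ} (hL0 : 0 < L) (hL : minimalPeriod gsh (x 1) = L)
    (hv : (mat (wn c 1 (L - 1))).1 ≤ X) :
    (∃ D ∈ dl, B ^ 2 + 4 * m = (D : ℤ)) ∨
      (2 ∣ B ^ 2 + 4 * m ∧ X < 2 * (mat (wn c 1 (L - 1))).1) := by
  obtain ⟨d, hd⟩ : ∃ d : ℕ, (d : ℤ) = B ^ 2 + 4 * m :=
    ⟨(B ^ 2 + 4 * m).toNat, Int.toNat_of_nonneg (by positivity)⟩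
  rcases Nat.even_or_odd' L with ⟨J, hJ | hI⟩
  · obtain ⟨J, rfl⟩ : ∃ k, J = k + 1 := ⟨J - 1, by omega⟩
    obtain ⟨⟨k, k', r, r'⟩, hM⟩ : ∃ M, mat (wn c 1 J) = M := ⟨_, rfl⟩
    have hM2 := mat_even h (by rw [hL, hJ]) hM
    rw [← hJ] at hM2
    have hsm : SmW (wn c 1 (J + 1)) := smW_of h hX (by omega) hv
    have hws : wn c 1 (J + 1) = wn c 1 J ++ [c (J + 1)] := by rw [wn_succ, add_comm 1 J]
    have hF := hAB.2 (wn c 1 J) (c (J + 1)) (wn_pos h 1 J) (inv_of h (J + 1)).cpos (by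
      rw [List.nil_append]
      unfold ev
      rw [hM]
      rw [hM2] at hv
      exact hv)
    rw [List.nil_append, ← hws, hM] at hF
    unfold Fw eM at hF
    simp only at hF
    rw [wn_length] at hF
    have hM3 := hM2
    rw [hJ] at hM3
    generalize hve : k * (c (J + 1) * k + 2 * k') = v at hF hM2 hM3
    generalize hue : c (J + 1) * k * r + k * r' + k' * r = u at hF hM2 hM3
    generalize hze : r * (c (J + 1) * r + 2 * r') = z at hF hM2 hM3
    rw [hM2] at hv ⊢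
    exact fam_core hpl h hm hB hL0 hL (by omega) hM2
      (fun p hp j hj => by
        obtain ⟨i, h1, h2, h3⟩ := half_even h (Nat.succ_pos J) (by rw [hL, hJ]) (j := j) (by
          rw [hj]; exact_mod_cast hp.one_lt.ne')
        exact ⟨i, h1, h2, by rw [h3, hj]⟩)
      hsm (par := true) (by rw [hJ, pow_mul]; norm_num) hF
      (skip_spec hpl hXj hsv h hm hB (by rw [hL, hJ]) hM3 hv hsm)
      (fun β m0 t hB' hm' he hin => by
        have R := relJ_even h hm (Nat.succ_pos J) (by rw [hL, hJ]) hd hin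
        have hlen := wn_length (c := c) 1 (J + 1)
        refine hel true (wn c 1 (J + 1)) v u β m0 t (B ^ 2 + 4 * m) hsm
          (by rw [hlen]; exact he) ?_
        have e1 : ((v * t + β : ℕ) : ℤ) = B := by rw [hB']; push_cast; rfl
        have e2 : ((u * t + m0 : ℕ) : ℤ) = m := by rw [hm']; push_cast; rfl
        rw [e1, e2]
        exact R)
  · obtain ⟨⟨k, k', r, r'⟩, hM⟩ : ∃ M, mat (wn c 1 J) = M := ⟨_, rfl⟩
    have hM2 := mat_odd h (by rw [hL, hI]) hM
    rw [← hI] at hM2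
    have hsm : SmW (wn c 1 J) := smW_of h hX (by omega) hv
    have hF := hAB.1 (wn c 1 J) (wn_pos h 1 J) (by
      rw [List.nil_append]
      unfold nn
      rw [hM, sq, sq]
      rw [hM2] at hv
      exact hv)
    rw [List.nil_append, hM] at hF
    unfold Fw oM at hF
    simp only at hF
    rw [wn_length] at hF
    generalize hve : k * k + k' * k' = v at hF hM2
    generalize hue : k * r + k' * r' = u at hF hM2
    generalize hze : r * r + r' * r' = z at hF hM2
    rw [hM2]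
    exact fam_core hpl h hm hB hL0 hL (by omega) hM2
      (fun p hp j hj => by
        obtain ⟨i, h1, h2, h3⟩ := half_index h (by rw [hL, hI]) (j := j) (by
          rw [hj]; exact_mod_cast hp.one_lt.ne')
        exact ⟨i, h1, h2, by rw [h3, hj]⟩)
      hsm (par := false) (by rw [hI, pow_succ, pow_mul]; norm_num) hF
      (fun hs => by
        obtain ⟨-, s2⟩ := andB_true hs
        obtain ⟨s3, -⟩ := andB_true s2
        exact absurd s3 (by decide))
      (fun β m0 t hB' hm' he hin => by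
        have R := relJ_odd h hm (by rw [hL, hI]) hd hin
        have hlen := wn_length (c := c) 1 J
        refine hel false (wn c 1 J) v u β m0 t (B ^ 2 + 4 * m) hsm
          (by rw [hlen]; exact he) ?_
        have e1 : ((v * t + β : ℕ) : ℤ) = B := by rw [hB']; push_cast; rfl
        have e2 : ((u * t + m0 : ℕ) : ℤ) = m := by rw [hm']; push_cast; rfl
        rw [e1, e2]
        exact R)

/-- **from the checks to the list** -/
theorem fwdU {pl : PLt} {dl : List ℕ} {X : ℕ}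
    {el : Bool → ℕ → ℕ → ℕ → ℕ → ℕ → ℕ → Bool} (hpl : ∀ x ∈ toL pl, okb x = true) (hel : Elim el)
    (hX : X < 2 ^ 20) {jj : ℕ} (hXj : X < 2 ^ jj) (hsv : svAll jj (X + 1) 320 pl = true)
    (hAB : AB (famF el pl dl X) X []) (d : ℕ) (h1 : 1 < d)
    (hsq : Squarefree d) {a b : ℕ} (hb : 1 ≤ b) (hbX : b ≤ X)
    (hab : (a : ℤ) ^ 2 - d * (b : ℤ) ^ 2 = 4 ∨ (a : ℤ) ^ 2 - d * (b : ℤ) ^ 2 = -4)
    (hU : UniqueFactorizationMonoid (𝓞 (KQ d))) :
    ∃ D ∈ dl, (d % 4 = 1 ∧ d = D) ∨ (d % 4 ≠ 1 ∧ 4 * d = D) := by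
  obtain ⟨m, B, s, x, c, h, hx1, hm, hB, hd⟩ := exists_data d h1 hsq
  obtain ⟨e⟩ : Nonempty (QuadraticAlgebra ℤ m B ≃+* 𝓞 (KQ d)) := by
    rcases hd with ⟨h4, hd, hB2⟩ | ⟨h4, hd, hB2⟩
    · obtain ⟨e⟩ := exists_equiv_QI hd hB2
      exact ⟨e.symm.trans (eqvO hsq h1)⟩
    · obtain ⟨e⟩ := exists_equiv_QI_even hd h4 hB2
      exact ⟨e.symm.trans (eqvO hsq h1)⟩
  have i1 : IsDomain (QuadraticAlgebra ℤ m B) := e.toMulEquiv.isDomain
  have i2 : UniqueFactorizationMonoid (QuadraticAlgebra ℤ m B) :=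
    e.symm.toMulEquiv.uniqueFactorizationMonoid hU
  have hb0 : (1 : ℤ) ≤ b := by exact_mod_cast hb
  rcases hd with ⟨h4, hd, hB2⟩ | ⟨h4, hd, hB2⟩
  · obtain ⟨L, hL0, hL⟩ : ∃ L, 0 < L ∧ minimalPeriod gsh (x 1) = L :=
      ⟨_, unit_per h hm hB hb0 (by rw [← hd]; exact hab), rfl⟩
    have hv := unit_bound h hm hB hL0 hL hb0 (by rw [← hd]; exact hab)
    rcases main_data hpl hel hX hXj hsv hAB h hm hB hL0 hL (by
      have : (mat (wn c 1 (L - 1))).1 ≤ b := by exact_mod_cast hv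
      omega) with ⟨D, hD1, hD2⟩ | ⟨hev, -⟩
    · refine ⟨D, hD1, Or.inl ⟨h4, ?_⟩⟩
      rw [← hd] at hD2
      exact_mod_cast hD2
    · exfalso
      rw [← hd] at hev
      omega
  · have hd4 : ¬ (4 : ℕ) ∣ d := by
      intro h3
      have := hsq 2 (by rw [show 2 * 2 = 4 by rfl]; exact h3)
      norm_num at this
    -- the coefficient is even
    obtain ⟨b', rfl⟩ : ∃ b', b = 2 * b' := by
      rcases Nat.even_or_odd' b with ⟨k, hk | hk⟩
      · exact ⟨k, hk⟩
      · exfalso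
        subst hk
        obtain ⟨q, hq⟩ : ∃ q : ℤ, (a : ℤ) ^ 2 = d + 4 * q := by
          rcases hab with h3 | h3
          · exact ⟨d * (k ^ 2 + k) + 1, by push_cast at h3; linear_combination h3⟩
          · exact ⟨d * (k ^ 2 + k) - 1, by push_cast at h3; linear_combination h3⟩
        rcases Nat.even_or_odd' a with ⟨l, hl | hl⟩
        · subst hl
          have : (4 : ℤ) ∣ d := ⟨l ^ 2 - q, by push_cast at hq; linear_combination -hq⟩
          exact hd4 (by exact_mod_cast this)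
        · subst hl
          have : (4 : ℤ) ∣ d - 1 := ⟨l ^ 2 + l - q, by push_cast at hq; linear_combination -hq⟩
          omega
    have hb' : (1 : ℤ) ≤ b' := by
      have : 1 ≤ b' := by omega
      exact_mod_cast this
    have hab' : (a : ℤ) ^ 2 - (B ^ 2 + 4 * m) * (b' : ℤ) ^ 2 = 4 ∨
        (a : ℤ) ^ 2 - (B ^ 2 + 4 * m) * (b' : ℤ) ^ 2 = -4 := by
      rw [← hd]
      push_cast at hab
      rcases hab with h3 | h3
      · left; linear_combination h3
      · right; linear_combination h3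
    obtain ⟨L, hL0, hL⟩ : ∃ L, 0 < L ∧ minimalPeriod gsh (x 1) = L :=
      ⟨_, unit_per h hm hB hb' hab', rfl⟩
    have hv := unit_bound h hm hB hL0 hL hb' hab'
    have hv' : (mat (wn c 1 (L - 1))).1 ≤ b' := by exact_mod_cast hv
    rcases main_data hpl hel hX hXj hsv hAB h hm hB hL0 hL (by omega) with ⟨D, hD1, hD2⟩ | ⟨-, hev⟩
    · refine ⟨D, hD1, Or.inr ⟨h4, ?_⟩⟩
      rw [← hd] at hD2
      exact_mod_cast hD2
    · exfalso
      omega

end Pool.Agent.SU


end

section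

/-!
Real quadratic fields with small units: the primes and the discriminants of the checks.
-/

namespace Pool.Agent.SU

open scoped NumberField
open Pool.Agent.LibH4

/-- the primes, with the masks of the inert residues -/
def PLs : PLt :=
  .cons (nat_lit 2) (nat_lit 8)
    (nat_lit 32) (nat_lit 17) <|
  .cons (nat_lit 3) (nat_lit 3)
    (nat_lit 4) (nat_lit 37) <|
  .cons (nat_lit 5) (nat_lit 5)
    (nat_lit 12) (nat_lit 101) <|
  .cons (nat_lit 7) (nat_lit 7)
    (nat_lit 104) (nat_lit 197) <|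
  .cons (nat_lit 11) (nat_lit 11)
    (nat_lit 1476) (nat_lit 485) <|
  .cons (nat_lit 13) (nat_lit 13)
    (nat_lit 2532) (nat_lit 677) <|
  .cons (nat_lit 17) (nat_lit 17)
    (nat_lit 23784) (nat_lit 1157) <|
  .cons (nat_lit 19) (nat_lit 19)
    (nat_lit 324876) (nat_lit 1445) <|
  .cons (nat_lit 23) (nat_lit 23)
    (nat_lit 8047776) (nat_lit 2117) <|
  .cons (nat_lit 29) (nat_lit 29)
    (nat_lit 204397836) (nat_lit 3365) <|
  .cons (nat_lit 31) (nat_lit 31)
    (nat_lit 1843574856) (nat_lit 3845) <|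
  .cons (nat_lit 37) (nat_lit 37)
    (nat_lit 41370444132) (nat_lit 5477) <|
  .cons (nat_lit 41) (nat_lit 41)
    (nat_lit 328519579848) (nat_lit 6725) <|
  .cons (nat_lit 43) (nat_lit 43)
    (nat_lit 5117392458156) (nat_lit 7397) <|
  .cons (nat_lit 47) (nat_lit 47)
    (nat_lit 136111353015328) (nat_lit 8837) <|
  .cons (nat_lit 53) (nat_lit 53)
    (nat_lit 3697175711994156) (nat_lit 11237) <|
  .cons (nat_lit 59) (nat_lit 59)
    (nat_lit 420134283961986372) (nat_lit 13925) <|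
  .cons (nat_lit 61) (nat_lit 61)
    (nat_lit 642916798280633796) (nat_lit 14885) <|
  .cons (nat_lit 67) (nat_lit 67)
    (nat_lit 85765845717156641196) (nat_lit 17957) <|
  .cons (nat_lit 71) (nat_lit 71)
    (nat_lit 2341131200001827039360) (nat_lit 20165) <|
  .cons (nat_lit 73) (nat_lit 73)
    (nat_lit 384875580742593342624) (nat_lit 21317) <|
  .cons (nat_lit 79) (nat_lit 79)
    (nat_lit 514530376159922758013128) (nat_lit 24965) <|
  .cons (nat_lit 83) (nat_lit 83)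
    (nat_lit 6760295319107447612563812) (nat_lit 27557) <|
  .cons (nat_lit 89) (nat_lit 89)
    (nat_lit 92163013807473543562719432) (nat_lit 31685) <|
  .nil

/-- the discriminants -/
def DLs : List ℕ :=
  [nat_lit 5, nat_lit 8, nat_lit 12, nat_lit 13, nat_lit 17, nat_lit 21, nat_lit 24, nat_lit 28,
  nat_lit 29, nat_lit 33, nat_lit 37, nat_lit 41, nat_lit 44, nat_lit 53, nat_lit 56, nat_lit 57,
  nat_lit 61, nat_lit 69, nat_lit 73, nat_lit 76, nat_lit 77, nat_lit 88, nat_lit 89, nat_lit 92,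
  nat_lit 93, nat_lit 97, nat_lit 101, nat_lit 109, nat_lit 113, nat_lit 124, nat_lit 129,
  nat_lit 133, nat_lit 137, nat_lit 141, nat_lit 149, nat_lit 152, nat_lit 157, nat_lit 161,
  nat_lit 172, nat_lit 173, nat_lit 177, nat_lit 181, nat_lit 184, nat_lit 188, nat_lit 197,
  nat_lit 209, nat_lit 213, nat_lit 233, nat_lit 236, nat_lit 237, nat_lit 248, nat_lit 253,
  nat_lit 269, nat_lit 277, nat_lit 284, nat_lit 293, nat_lit 301, nat_lit 309, nat_lit 317,
  nat_lit 332, nat_lit 341, nat_lit 344, nat_lit 349, nat_lit 353, nat_lit 373, nat_lit 381,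
  nat_lit 389, nat_lit 397, nat_lit 413, nat_lit 428, nat_lit 437, nat_lit 453, nat_lit 461,
  nat_lit 501, nat_lit 509, nat_lit 517, nat_lit 524, nat_lit 557, nat_lit 573, nat_lit 581,
  nat_lit 597, nat_lit 613, nat_lit 632, nat_lit 653, nat_lit 668, nat_lit 677, nat_lit 701,
  nat_lit 717, nat_lit 749, nat_lit 773, nat_lit 789, nat_lit 797, nat_lit 813, nat_lit 821,
  nat_lit 824, nat_lit 853, nat_lit 869, nat_lit 893, nat_lit 908, nat_lit 917, nat_lit 933,
  nat_lit 941, nat_lit 989, nat_lit 997, nat_lit 1013, nat_lit 1061, nat_lit 1077, nat_lit 1109,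
  nat_lit 1112, nat_lit 1133, nat_lit 1181, nat_lit 1253, nat_lit 1277, nat_lit 1293,
  nat_lit 1333, nat_lit 1349, nat_lit 1397, nat_lit 1437, nat_lit 1493, nat_lit 1532,
  nat_lit 1592, nat_lit 1613, nat_lit 1637, nat_lit 1733, nat_lit 1757, nat_lit 1797,
  nat_lit 1877, nat_lit 1893, nat_lit 1949, nat_lit 1973, nat_lit 1997, nat_lit 2012,
  nat_lit 2252, nat_lit 2309, nat_lit 2333, nat_lit 2357, nat_lit 2453, nat_lit 2477,
  nat_lit 2573, nat_lit 2621, nat_lit 2693, nat_lit 2757, nat_lit 2789, nat_lit 2933,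
  nat_lit 2957, nat_lit 3053, nat_lit 3093, nat_lit 3197, nat_lit 3317, nat_lit 3437,
  nat_lit 3533, nat_lit 3677, nat_lit 3797, nat_lit 3989, nat_lit 4133, nat_lit 4157,
  nat_lit 4253, nat_lit 4373, nat_lit 4413, nat_lit 4517, nat_lit 4973, nat_lit 5309,
  nat_lit 6677, nat_lit 6797, nat_lit 7013, nat_lit 9173, nat_lit 10853]

lemma PLs_ok : ∀ x ∈ toL PLs, okb x = true := by
  have h : (toL PLs).all okb = true := by decide +kernel
  exact List.all_eq_true.1 h

lemma DLs_ok : DLs.all (fun D => decide (D % 4 = 1) && lU.any (Nat.beq D) ||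
    decide (D % 4 = 0) && lU.any (Nat.beq (D / 4))) = true := by
  decide +kernel

lemma lU_of {d D : ℕ} (hD : D ∈ DLs) (hd : (d % 4 = 1 ∧ d = D) ∨ (d % 4 ≠ 1 ∧ 4 * d = D)) :
    d ∈ lU := by
  have h := List.all_eq_true.1 DLs_ok D hD
  simp only [Bool.or_eq_true, Bool.and_eq_true, decide_eq_true_eq, List.any_eq_true] at h
  rcases h with ⟨h1, y, hy, h2⟩ | ⟨h1, y, hy, h2⟩
  · have h3 : D = y := Nat.eq_of_beq_eq_true h2
    rcases hd with ⟨h4, h5⟩ | ⟨h4, h5⟩
    · rw [h5, h3]; exact hy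
    · omega
  · have h3 : D / 4 = y := Nat.eq_of_beq_eq_true h2
    rcases hd with ⟨h4, h5⟩ | ⟨h4, h5⟩
    · omega
    · have : d = y := by omega
      rw [this]; exact hy

lemma sv_ok : svAll 14 (10000 + 1) 320 PLs = true := by
  decide +kernel

/-- **the theorem from the check of the families** -/
theorem small_units_of {el : Bool → ℕ → ℕ → ℕ → ℕ → ℕ → ℕ → Bool} (hel : Elim el)
    (hAB : AB (famF el PLs DLs 10000) 10000 []) :
    {d : ℕ | 1 < d ∧ Squarefree d ∧
      (∃ x y : ℤ, 0 < y ∧ y ≤ 10000 ∧ (x ^ 2 - d * y ^ 2 = 4 ∨ x ^ 2 - d * y ^ 2 = -4)) ∧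
      UniqueFactorizationMonoid (𝓞 (KQ d))} = {d | d ∈ lU} := by
  ext d
  rw [Set.mem_ofPred_eq, Set.mem_ofPred_eq]
  constructor
  · rintro ⟨h1, hsq, ⟨x, y, hy, hyX, hxy⟩, hU⟩
    lift y to ℕ using hy.le
    have hx : ((x.natAbs : ℕ) : ℤ) ^ 2 = x ^ 2 := by rw [Int.natCast_natAbs, sq_abs]
    rw [← hx] at hxy
    obtain ⟨D, hD, hd⟩ := fwdU PLs_ok hel (by norm_num) (jj := 14)
      (by norm_num) sv_ok hAB d h1 hsq (a := x.natAbs) (b := y)
      (by omega) (by omega) hxy hU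
    exact lU_of hD hd
  · intro h
    obtain ⟨h1, hsq, ⟨a, b, hb1, hb2, hab⟩, hU⟩ := fieldsU h
    exact ⟨h1, hsq, ⟨a, b, by omega, by omega, hab⟩, hU⟩

end Pool.Agent.SU


end
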