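import Mathlib
import Pool.Agent.RQM.C93
import Pool.Agent.RQM.C97

/-! Parts: SU.W9 -/

section

/-! generated: parts of the tree -/

namespace Pool.Agent.SU

set_option maxRecDepth 100000

def w476 : PLift (pc FF 10000 [1, 1, 3, 2] 1 36 = true) := ⟨by decide +kernel⟩
def w477 : PLift (pc FF 10000 [1, 1, 3, 2] 37 2 = true) := ⟨by decide +kernel⟩
def w478 : PLift (oc FF [1, 1, 4] = true) := ⟨by decide +kernel⟩
def w479 : PLift (ec FF [1, 1, 4] 1 = true) := ⟨by decide +kernel⟩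
def w480 : PLift (pc FF 10000 [1, 1, 4] 2 2 = true) := ⟨by decide +kernel⟩
def w481 : PLift (pc FF 10000 [1, 1, 4] 4 48 = true) := ⟨by decide +kernel⟩
def w482 : PLift (pc FF 10000 [1, 1, 4] 52 72 = true) := ⟨by decide +kernel⟩
def w483 : PLift (oc FF [1, 1, 4, 1] = true) := ⟨by decide +kernel⟩
def w484 : PLift (pc FF 10000 [1, 1, 4, 1] 1 3 = true) := ⟨by decide +kernel⟩
def w485 : PLift (pc FF 10000 [1, 1, 4, 1] 4 66 = true) := ⟨by decide +kernel⟩
def w486 : PLift (pc FF 10000 [1, 1, 4, 1] 70 12 = true) := ⟨by decide +kernel⟩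
def w487 : PLift (oc FF [1, 1, 5] = true) := ⟨by decide +kernel⟩
def w488 : PLift (ec FF [1, 1, 5] 1 = true) := ⟨by decide +kernel⟩
def w489 : PLift (pc FF 10000 [1, 1, 5] 2 20 = true) := ⟨by decide +kernel⟩
def w490 : PLift (pc FF 10000 [1, 1, 5] 22 61 = true) := ⟨by decide +kernel⟩
def w491 : PLift (oc FF [1, 1, 5, 1] = true) := ⟨by decide +kernel⟩
def w492 : PLift (pc FF 10000 [1, 1, 5, 1] 1 28 = true) := ⟨by decide +kernel⟩
def w493 : PLift (pc FF 10000 [1, 1, 5, 1] 29 29 = true) := ⟨by decide +kernel⟩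
def w494 : PLift (oc FF [1, 1, 6] = true) := ⟨by decide +kernel⟩
def w495 : PLift (pc FF 10000 [1, 1, 6] 1 1 = true) := ⟨by decide +kernel⟩
def w496 : PLift (pc FF 10000 [1, 1, 6] 2 43 = true) := ⟨by decide +kernel⟩
def w497 : PLift (pc FF 10000 [1, 1, 6] 45 14 = true) := ⟨by decide +kernel⟩
def w498 : PLift (oc FF [1, 1, 7] = true) := ⟨by decide +kernel⟩
def w499 : PLift (pc FF 10000 [1, 1, 7] 1 3 = true) := ⟨by decide +kernel⟩
def w500 : PLift (pc FF 10000 [1, 1, 7] 4 41 = true) := ⟨by decide +kernel⟩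
def w501 : PLift (oc FF [1, 1, 8] = true) := ⟨by decide +kernel⟩
def w502 : PLift (pc FF 10000 [1, 1, 8] 1 19 = true) := ⟨by decide +kernel⟩
def w503 : PLift (pc FF 10000 [1, 1, 8] 20 15 = true) := ⟨by decide +kernel⟩
def w504 : PLift (oc FF [1, 2] = true) := ⟨by decide +kernel⟩
def w505 : PLift (ec FF [1, 2] 1 = true) := ⟨by decide +kernel⟩
def w506 : PLift (ec FF [1, 2] 2 = true) := ⟨by decide +kernel⟩
def w507 : PLift (ec FF [1, 2] 3 = true) := ⟨by decide +kernel⟩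
def w508 : PLift (ec FF [1, 2] 4 = true) := ⟨by decide +kernel⟩
def w509 : PLift (ec FF [1, 2] 5 = true) := ⟨by decide +kernel⟩
def w510 : PLift (pc FF 10000 [1, 2] 6 1 = true) := ⟨by decide +kernel⟩
def w511 : PLift (pc FF 10000 [1, 2] 7 1 = true) := ⟨by decide +kernel⟩
def w512 : PLift (pc FF 10000 [1, 2] 8 2 = true) := ⟨by decide +kernel⟩
def w513 : PLift (pc FF 10000 [1, 2] 10 4 = true) := ⟨by decide +kernel⟩
def w514 : PLift (pc FF 10000 [1, 2] 14 15 = true) := ⟨by decide +kernel⟩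
def w515 : PLift (pc FF 10000 [1, 2] 29 72 = true) := ⟨by decide +kernel⟩
def w516 : PLift (pc FF 10000 [1, 2] 101 80 = true) := ⟨by decide +kernel⟩
def w517 : PLift (pc FF 10000 [1, 2] 181 80 = true) := ⟨by decide +kernel⟩
def w518 : PLift (pc FF 10000 [1, 2] 261 80 = true) := ⟨by decide +kernel⟩
def w519 : PLift (pc FF 10000 [1, 2] 341 80 = true) := ⟨by decide +kernel⟩
def w520 : PLift (pc FF 10000 [1, 2] 421 80 = true) := ⟨by decide +kernel⟩
def w521 : PLift (pc FF 10000 [1, 2] 501 80 = true) := ⟨by decide +kernel⟩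
def w522 : PLift (pc FF 10000 [1, 2] 581 80 = true) := ⟨by decide +kernel⟩
def w523 : PLift (pc FF 10000 [1, 2] 661 80 = true) := ⟨by decide +kernel⟩
def w524 : PLift (pc FF 10000 [1, 2] 741 80 = true) := ⟨by decide +kernel⟩
def w525 : PLift (pc FF 10000 [1, 2] 821 80 = true) := ⟨by decide +kernel⟩
def w526 : PLift (pc FF 10000 [1, 2] 901 80 = true) := ⟨by decide +kernel⟩
def w527 : PLift (pc FF 10000 [1, 2] 981 80 = true) := ⟨by decide +kernel⟩
def w528 : PLift (pc FF 10000 [1, 2] 1061 50 = true) := ⟨by decide +kernel⟩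
def w529 : PLift (oc FF [1, 2, 1] = true) := ⟨by decide +kernel⟩
def w530 : PLift (ec FF [1, 2, 1] 1 = true) := ⟨by decide +kernel⟩
def w531 : PLift (ec FF [1, 2, 1] 2 = true) := ⟨by decide +kernel⟩
def w532 : PLift (ec FF [1, 2, 1] 3 = true) := ⟨by decide +kernel⟩
def w533 : PLift (pc FF 10000 [1, 2, 1] 4 1 = true) := ⟨by decide +kernel⟩
def w534 : PLift (pc FF 10000 [1, 2, 1] 5 2 = true) := ⟨by decide +kernel⟩
def w535 : PLift (pc FF 10000 [1, 2, 1] 7 6 = true) := ⟨by decide +kernel⟩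
def w536 : PLift (pc FF 10000 [1, 2, 1] 13 47 = true) := ⟨by decide +kernel⟩
def w537 : PLift (pc FF 10000 [1, 2, 1] 60 80 = true) := ⟨by decide +kernel⟩
def w538 : PLift (pc FF 10000 [1, 2, 1] 140 80 = true) := ⟨by decide +kernel⟩

end Pool.Agent.SU


end
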