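import Mathlib
import Pool.Agent.RQM.C100
import Pool.Agent.RQM.C101
import Pool.Agent.RQM.C102
import Pool.Agent.RQM.C103
import Pool.Agent.RQM.C104
import Pool.Agent.RQM.C105
import Pool.Agent.RQM.C106
import Pool.Agent.RQM.C107
import Pool.Agent.RQM.C108
import Pool.Agent.RQM.C109
import Pool.Agent.RQM.C110
import Pool.Agent.RQM.C111
import Pool.Agent.RQM.C112
import Pool.Agent.RQM.C113
import Pool.Agent.RQM.C114
import Pool.Agent.RQM.C115
import Pool.Agent.RQM.C116
import Pool.Agent.RQM.C15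
import Pool.Agent.RQM.C88
import Pool.Agent.RQM.C89
import Pool.Agent.RQM.C91
import Pool.Agent.RQM.C93
import Pool.Agent.RQM.C95
import Pool.Agent.RQM.C97
import Pool.Agent.RQM.C98
import Pool.Agent.RQM.C99

/-! Parts: SU.WAll, SU.Final -/

namespace Pool.Agent.LibH4
end Pool.Agent.LibH4

section

/-! generated: the tree -/

namespace Pool.Agent.SU

lemma ab_19 : AB FF 10000 [19] :=
  AB_node (n := 28) rfl w1253.down (
    (pcI rfl rfl w1254.down))
    (by decide +kernel)

lemma ab_18 : AB FF 10000 [18] :=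
  AB_node (n := 31) rfl w1250.down (
    PtI.trans (pcI rfl rfl w1251.down) <|
    (pcI rfl rfl w1252.down))
    (by decide +kernel)

lemma ab_17 : AB FF 10000 [17] :=
  AB_node (n := 35) rfl w1247.down (
    PtI.trans (pcI rfl rfl w1248.down) <|
    (pcI rfl rfl w1249.down))
    (by decide +kernel)

lemma ab_16 : AB FF 10000 [16] :=
  AB_node (n := 39) rfl w1244.down (
    PtI.trans (pcI rfl rfl w1245.down) <|
    (pcI rfl rfl w1246.down))
    (by decide +kernel)

lemma ab_15 : AB FF 10000 [15] :=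
  AB_node (n := 45) rfl w1241.down (
    PtI.trans (pcI rfl rfl w1242.down) <|
    (pcI rfl rfl w1243.down))
    (by decide +kernel)

lemma ab_14 : AB FF 10000 [14] :=
  AB_node (n := 51) rfl w1237.down (
    PtI.trans (pcI rfl rfl w1238.down) <|
    PtI.trans (pcI rfl rfl w1239.down) <|
    (pcI rfl rfl w1240.down))
    (by decide +kernel)

lemma ab_13_1 : AB FF 10000 [13, 1] :=
  AB_node (n := 50) rfl w1234.down (
    PtI.trans (pcI rfl rfl w1235.down) <|
    (pcI rfl rfl w1236.down))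
    (by decide +kernel)

lemma ab_13 : AB FF 10000 [13] :=
  AB_node (n := 60) rfl w1230.down (
    PtI.trans (ecI w1231.down ab_13_1) <|
    PtI.trans (pcI rfl rfl w1232.down) <|
    (pcI rfl rfl w1233.down))
    (by decide +kernel)

lemma ab_12_1 : AB FF 10000 [12, 1] :=
  AB_node (n := 58) rfl w1227.down (
    PtI.trans (pcI rfl rfl w1228.down) <|
    (pcI rfl rfl w1229.down))
    (by decide +kernel)

lemma ab_12 : AB FF 10000 [12] :=
  AB_node (n := 70) rfl w1223.down (
    PtI.trans (ecI w1224.down ab_12_1) <|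
    PtI.trans (pcI rfl rfl w1225.down) <|
    (pcI rfl rfl w1226.down))
    (by decide +kernel)

lemma ab_11_1 : AB FF 10000 [11, 1] :=
  AB_node (n := 68) rfl w1220.down (
    PtI.trans (pcI rfl rfl w1221.down) <|
    (pcI rfl rfl w1222.down))
    (by decide +kernel)

lemma ab_11 : AB FF 10000 [11] :=
  AB_node (n := 83) rfl w1216.down (
    PtI.trans (ecI w1217.down ab_11_1) <|
    PtI.trans (pcI rfl rfl w1218.down) <|
    (pcI rfl rfl w1219.down))
    (by decide +kernel)

lemma ab_10_1 : AB FF 10000 [10, 1] :=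
  AB_node (n := 81) rfl w1213.down (
    PtI.trans (pcI rfl rfl w1214.down) <|
    (pcI rfl rfl w1215.down))
    (by decide +kernel)

lemma ab_10 : AB FF 10000 [10] :=
  AB_node (n := 100) rfl w1208.down (
    PtI.trans (ecI w1209.down ab_10_1) <|
    PtI.trans (pcI rfl rfl w1210.down) <|
    PtI.trans (pcI rfl rfl w1211.down) <|
    (pcI rfl rfl w1212.down))
    (by decide +kernel)

lemma ab_9_1 : AB FF 10000 [9, 1] :=
  AB_node (n := 99) rfl w1204.down (
    PtI.trans (pcI rfl rfl w1205.down) <|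
    PtI.trans (pcI rfl rfl w1206.down) <|
    (pcI rfl rfl w1207.down))
    (by decide +kernel)

lemma ab_9 : AB FF 10000 [9] :=
  AB_node (n := 124) rfl w1199.down (
    PtI.trans (ecI w1200.down ab_9_1) <|
    PtI.trans (pcI rfl rfl w1201.down) <|
    PtI.trans (pcI rfl rfl w1202.down) <|
    (pcI rfl rfl w1203.down))
    (by decide +kernel)

lemma ab_8_1 : AB FF 10000 [8, 1] :=
  AB_node (n := 122) rfl w1194.down (
    PtI.trans (pcI rfl rfl w1195.down) <|
    PtI.trans (pcI rfl rfl w1196.down) <|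
    PtI.trans (pcI rfl rfl w1197.down) <|
    (pcI rfl rfl w1198.down))
    (by decide +kernel)

lemma ab_8 : AB FF 10000 [8] :=
  AB_node (n := 157) rfl w1188.down (
    PtI.trans (ecI w1189.down ab_8_1) <|
    PtI.trans (pcI rfl rfl w1190.down) <|
    PtI.trans (pcI rfl rfl w1191.down) <|
    PtI.trans (pcI rfl rfl w1192.down) <|
    (pcI rfl rfl w1193.down))
    (by decide +kernel)

lemma ab_7_2 : AB FF 10000 [7, 2] :=
  AB_node (n := 44) rfl w1185.down (
    PtI.trans (pcI rfl rfl w1186.down) <|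
    (pcI rfl rfl w1187.down))
    (by decide +kernel)

lemma ab_7_1_1 : AB FF 10000 [7, 1, 1] :=
  AB_node (n := 44) rfl w1182.down (
    PtI.trans (pcI rfl rfl w1183.down) <|
    (pcI rfl rfl w1184.down))
    (by decide +kernel)

lemma ab_7_1 : AB FF 10000 [7, 1] :=
  AB_node (n := 155) rfl w1176.down (
    PtI.trans (ecI w1177.down ab_7_1_1) <|
    PtI.trans (pcI rfl rfl w1178.down) <|
    PtI.trans (pcI rfl rfl w1179.down) <|
    PtI.trans (pcI rfl rfl w1180.down) <|
    (pcI rfl rfl w1181.down))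
    (by decide +kernel)

lemma ab_7 : AB FF 10000 [7] :=
  AB_node (n := 204) rfl w1168.down (
    PtI.trans (ecI w1169.down ab_7_1) <|
    PtI.trans (ecI w1170.down ab_7_2) <|
    PtI.trans (pcI rfl rfl w1171.down) <|
    PtI.trans (pcI rfl rfl w1172.down) <|
    PtI.trans (pcI rfl rfl w1173.down) <|
    PtI.trans (pcI rfl rfl w1174.down) <|
    (pcI rfl rfl w1175.down))
    (by decide +kernel)

lemma ab_6_2 : AB FF 10000 [6, 2] :=
  AB_node (n := 59) rfl w1165.down (
    PtI.trans (pcI rfl rfl w1166.down) <|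
    (pcI rfl rfl w1167.down))
    (by decide +kernel)

lemma ab_6_1_1 : AB FF 10000 [6, 1, 1] :=
  AB_node (n := 59) rfl w1162.down (
    PtI.trans (pcI rfl rfl w1163.down) <|
    (pcI rfl rfl w1164.down))
    (by decide +kernel)

lemma ab_6_1 : AB FF 10000 [6, 1] :=
  AB_node (n := 203) rfl w1155.down (
    PtI.trans (ecI w1156.down ab_6_1_1) <|
    PtI.trans (pcI rfl rfl w1157.down) <|
    PtI.trans (pcI rfl rfl w1158.down) <|
    PtI.trans (pcI rfl rfl w1159.down) <|
    PtI.trans (pcI rfl rfl w1160.down) <|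
    (pcI rfl rfl w1161.down))
    (by decide +kernel)

lemma ab_6 : AB FF 10000 [6] :=
  AB_node (n := 278) rfl w1146.down (
    PtI.trans (ecI w1147.down ab_6_1) <|
    PtI.trans (ecI w1148.down ab_6_2) <|
    PtI.trans (pcI rfl rfl w1149.down) <|
    PtI.trans (pcI rfl rfl w1150.down) <|
    PtI.trans (pcI rfl rfl w1151.down) <|
    PtI.trans (pcI rfl rfl w1152.down) <|
    PtI.trans (pcI rfl rfl w1153.down) <|
    (pcI rfl rfl w1154.down))
    (by decide +kernel)

lemma ab_5_3 : AB FF 10000 [5, 3] :=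
  AB_node (n := 39) rfl w1143.down (
    PtI.trans (pcI rfl rfl w1144.down) <|
    (pcI rfl rfl w1145.down))
    (by decide +kernel)

lemma ab_5_2 : AB FF 10000 [5, 2] :=
  AB_node (n := 82) rfl w1139.down (
    PtI.trans (pcI rfl rfl w1140.down) <|
    PtI.trans (pcI rfl rfl w1141.down) <|
    (pcI rfl rfl w1142.down))
    (by decide +kernel)

lemma ab_5_1_1 : AB FF 10000 [5, 1, 1] :=
  AB_node (n := 82) rfl w1135.down (
    PtI.trans (pcI rfl rfl w1136.down) <|
    PtI.trans (pcI rfl rfl w1137.down) <|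
    (pcI rfl rfl w1138.down))
    (by decide +kernel)

lemma ab_5_1 : AB FF 10000 [5, 1] :=
  AB_node (n := 277) rfl w1126.down (
    PtI.trans (ecI w1127.down ab_5_1_1) <|
    PtI.trans (pcI rfl rfl w1128.down) <|
    PtI.trans (pcI rfl rfl w1129.down) <|
    PtI.trans (pcI rfl rfl w1130.down) <|
    PtI.trans (pcI rfl rfl w1131.down) <|
    PtI.trans (pcI rfl rfl w1132.down) <|
    PtI.trans (pcI rfl rfl w1133.down) <|
    (pcI rfl rfl w1134.down))
    (by decide +kernel)

lemma ab_5 : AB FF 10000 [5] :=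
  AB_node (n := 400) rfl w1114.down (
    PtI.trans (ecI w1115.down ab_5_1) <|
    PtI.trans (ecI w1116.down ab_5_2) <|
    PtI.trans (ecI w1117.down ab_5_3) <|
    PtI.trans (pcI rfl rfl w1118.down) <|
    PtI.trans (pcI rfl rfl w1119.down) <|
    PtI.trans (pcI rfl rfl w1120.down) <|
    PtI.trans (pcI rfl rfl w1121.down) <|
    PtI.trans (pcI rfl rfl w1122.down) <|
    PtI.trans (pcI rfl rfl w1123.down) <|
    PtI.trans (pcI rfl rfl w1124.down) <|
    (pcI rfl rfl w1125.down))
    (by decide +kernel)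

lemma ab_4_4 : AB FF 10000 [4, 4] :=
  AB_node (n := 35) rfl w1111.down (
    PtI.trans (pcI rfl rfl w1112.down) <|
    (pcI rfl rfl w1113.down))
    (by decide +kernel)

lemma ab_4_3 : AB FF 10000 [4, 3] :=
  AB_node (n := 59) rfl w1107.down (
    PtI.trans (pcI rfl rfl w1108.down) <|
    PtI.trans (pcI rfl rfl w1109.down) <|
    (pcI rfl rfl w1110.down))
    (by decide +kernel)

lemma ab_4_2_1 : AB FF 10000 [4, 2, 1] :=
  AB_node (n := 58) rfl w1104.down (
    PtI.trans (pcI rfl rfl w1105.down) <|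
    (pcI rfl rfl w1106.down))
    (by decide +kernel)

lemma ab_4_2 : AB FF 10000 [4, 2] :=
  AB_node (n := 123) rfl w1099.down (
    PtI.trans (ecI w1100.down ab_4_2_1) <|
    PtI.trans (pcI rfl rfl w1101.down) <|
    PtI.trans (pcI rfl rfl w1102.down) <|
    (pcI rfl rfl w1103.down))
    (by decide +kernel)

lemma ab_4_1_2 : AB FF 10000 [4, 1, 2] :=
  AB_node (n := 51) rfl w1096.down (
    PtI.trans (pcI rfl rfl w1097.down) <|
    (pcI rfl rfl w1098.down))
    (by decide +kernel)

lemma ab_4_1_1_1 : AB FF 10000 [4, 1, 1, 1] :=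
  AB_node (n := 50) rfl w1093.down (
    PtI.trans (pcI rfl rfl w1094.down) <|
    (pcI rfl rfl w1095.down))
    (by decide +kernel)

lemma ab_4_1_1 : AB FF 10000 [4, 1, 1] :=
  AB_node (n := 123) rfl w1088.down (
    PtI.trans (ecI w1089.down ab_4_1_1_1) <|
    PtI.trans (pcI rfl rfl w1090.down) <|
    PtI.trans (pcI rfl rfl w1091.down) <|
    (pcI rfl rfl w1092.down))
    (by decide +kernel)

lemma ab_4_1 : AB FF 10000 [4, 1] :=
  AB_node (n := 399) rfl w1077.down (
    PtI.trans (ecI w1078.down ab_4_1_1) <|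
    PtI.trans (ecI w1079.down ab_4_1_2) <|
    PtI.trans (pcI rfl rfl w1080.down) <|
    PtI.trans (pcI rfl rfl w1081.down) <|
    PtI.trans (pcI rfl rfl w1082.down) <|
    PtI.trans (pcI rfl rfl w1083.down) <|
    PtI.trans (pcI rfl rfl w1084.down) <|
    PtI.trans (pcI rfl rfl w1085.down) <|
    PtI.trans (pcI rfl rfl w1086.down) <|
    (pcI rfl rfl w1087.down))
    (by decide +kernel)

lemma ab_4 : AB FF 10000 [4] :=
  AB_node (n := 625) rfl w1061.down (
    PtI.trans (ecI w1062.down ab_4_1) <|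
    PtI.trans (ecI w1063.down ab_4_2) <|
    PtI.trans (ecI w1064.down ab_4_3) <|
    PtI.trans (ecI w1065.down ab_4_4) <|
    PtI.trans (pcI rfl rfl w1066.down) <|
    PtI.trans (pcI rfl rfl w1067.down) <|
    PtI.trans (pcI rfl rfl w1068.down) <|
    PtI.trans (pcI rfl rfl w1069.down) <|
    PtI.trans (pcI rfl rfl w1070.down) <|
    PtI.trans (pcI rfl rfl w1071.down) <|
    PtI.trans (pcI rfl rfl w1072.down) <|
    PtI.trans (pcI rfl rfl w1073.down) <|
    PtI.trans (pcI rfl rfl w1074.down) <|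
    PtI.trans (pcI rfl rfl w1075.down) <|
    (pcI rfl rfl w1076.down))
    (by decide +kernel)

lemma ab_3_5 : AB FF 10000 [3, 5] :=
  AB_node (n := 39) rfl w1058.down (
    PtI.trans (pcI rfl rfl w1059.down) <|
    (pcI rfl rfl w1060.down))
    (by decide +kernel)

lemma ab_3_4 : AB FF 10000 [3, 4] :=
  AB_node (n := 59) rfl w1054.down (
    PtI.trans (pcI rfl rfl w1055.down) <|
    PtI.trans (pcI rfl rfl w1056.down) <|
    (pcI rfl rfl w1057.down))
    (by decide +kernel)

lemma ab_3_3_1 : AB FF 10000 [3, 3, 1] :=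
  AB_node (n := 58) rfl w1051.down (
    PtI.trans (pcI rfl rfl w1052.down) <|
    (pcI rfl rfl w1053.down))
    (by decide +kernel)

lemma ab_3_3 : AB FF 10000 [3, 3] :=
  AB_node (n := 100) rfl w1046.down (
    PtI.trans (ecI w1047.down ab_3_3_1) <|
    PtI.trans (pcI rfl rfl w1048.down) <|
    PtI.trans (pcI rfl rfl w1049.down) <|
    (pcI rfl rfl w1050.down))
    (by decide +kernel)

lemma ab_3_2_1 : AB FF 10000 [3, 2, 1] :=
  AB_node (n := 99) rfl w1042.down (
    PtI.trans (pcI rfl rfl w1043.down) <|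
    PtI.trans (pcI rfl rfl w1044.down) <|
    (pcI rfl rfl w1045.down))
    (by decide +kernel)

lemma ab_3_2 : AB FF 10000 [3, 2] :=
  AB_node (n := 204) rfl w1035.down (
    PtI.trans (ecI w1036.down ab_3_2_1) <|
    PtI.trans (pcI rfl rfl w1037.down) <|
    PtI.trans (pcI rfl rfl w1038.down) <|
    PtI.trans (pcI rfl rfl w1039.down) <|
    PtI.trans (pcI rfl rfl w1040.down) <|
    (pcI rfl rfl w1041.down))
    (by decide +kernel)

lemma ab_3_1_3 : AB FF 10000 [3, 1, 3] :=
  AB_node (n := 44) rfl w1032.down (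
    PtI.trans (pcI rfl rfl w1033.down) <|
    (pcI rfl rfl w1034.down))
    (by decide +kernel)

lemma ab_3_1_2_1 : AB FF 10000 [3, 1, 2, 1] :=
  AB_node (n := 43) rfl w1029.down (
    PtI.trans (pcI rfl rfl w1030.down) <|
    (pcI rfl rfl w1031.down))
    (by decide +kernel)

lemma ab_3_1_2 : AB FF 10000 [3, 1, 2] :=
  AB_node (n := 82) rfl w1025.down (
    PtI.trans (ecI w1026.down ab_3_1_2_1) <|
    PtI.trans (pcI rfl rfl w1027.down) <|
    (pcI rfl rfl w1028.down))
    (by decide +kernel)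

lemma ab_3_1_1_1 : AB FF 10000 [3, 1, 1, 1] :=
  AB_node (n := 82) rfl w1021.down (
    PtI.trans (pcI rfl rfl w1022.down) <|
    PtI.trans (pcI rfl rfl w1023.down) <|
    (pcI rfl rfl w1024.down))
    (by decide +kernel)

lemma ab_3_1_1 : AB FF 10000 [3, 1, 1] :=
  AB_node (n := 203) rfl w1014.down (
    PtI.trans (ecI w1015.down ab_3_1_1_1) <|
    PtI.trans (pcI rfl rfl w1016.down) <|
    PtI.trans (pcI rfl rfl w1017.down) <|
    PtI.trans (pcI rfl rfl w1018.down) <|
    PtI.trans (pcI rfl rfl w1019.down) <|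
    (pcI rfl rfl w1020.down))
    (by decide +kernel)

lemma ab_3_1 : AB FF 10000 [3, 1] :=
  AB_node (n := 624) rfl w998.down (
    PtI.trans (ecI w999.down ab_3_1_1) <|
    PtI.trans (ecI w1000.down ab_3_1_2) <|
    PtI.trans (ecI w1001.down ab_3_1_3) <|
    PtI.trans (pcI rfl rfl w1002.down) <|
    PtI.trans (pcI rfl rfl w1003.down) <|
    PtI.trans (pcI rfl rfl w1004.down) <|
    PtI.trans (pcI rfl rfl w1005.down) <|
    PtI.trans (pcI rfl rfl w1006.down) <|
    PtI.trans (pcI rfl rfl w1007.down) <|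
    PtI.trans (pcI rfl rfl w1008.down) <|
    PtI.trans (pcI rfl rfl w1009.down) <|
    PtI.trans (pcI rfl rfl w1010.down) <|
    PtI.trans (pcI rfl rfl w1011.down) <|
    PtI.trans (pcI rfl rfl w1012.down) <|
    (pcI rfl rfl w1013.down))
    (by decide +kernel)

lemma ab_3 : AB FF 10000 [3] :=
  AB_node (n := 1111) rfl w973.down (
    PtI.trans (ecI w974.down ab_3_1) <|
    PtI.trans (ecI w975.down ab_3_2) <|
    PtI.trans (ecI w976.down ab_3_3) <|
    PtI.trans (ecI w977.down ab_3_4) <|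
    PtI.trans (ecI w978.down ab_3_5) <|
    PtI.trans (pcI rfl rfl w979.down) <|
    PtI.trans (pcI rfl rfl w980.down) <|
    PtI.trans (pcI rfl rfl w981.down) <|
    PtI.trans (pcI rfl rfl w982.down) <|
    PtI.trans (pcI rfl rfl w983.down) <|
    PtI.trans (pcI rfl rfl w984.down) <|
    PtI.trans (pcI rfl rfl w985.down) <|
    PtI.trans (pcI rfl rfl w986.down) <|
    PtI.trans (pcI rfl rfl w987.down) <|
    PtI.trans (pcI rfl rfl w988.down) <|
    PtI.trans (pcI rfl rfl w989.down) <|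
    PtI.trans (pcI rfl rfl w990.down) <|
    PtI.trans (pcI rfl rfl w991.down) <|
    PtI.trans (pcI rfl rfl w992.down) <|
    PtI.trans (pcI rfl rfl w993.down) <|
    PtI.trans (pcI rfl rfl w994.down) <|
    PtI.trans (pcI rfl rfl w995.down) <|
    PtI.trans (pcI rfl rfl w996.down) <|
    (pcI rfl rfl w997.down))
    (by decide +kernel)

lemma ab_2_8 : AB FF 10000 [2, 8] :=
  AB_node (n := 35) rfl w970.down (
    PtI.trans (pcI rfl rfl w971.down) <|
    (pcI rfl rfl w972.down))
    (by decide +kernel)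

lemma ab_2_7 : AB FF 10000 [2, 7] :=
  AB_node (n := 45) rfl w967.down (
    PtI.trans (pcI rfl rfl w968.down) <|
    (pcI rfl rfl w969.down))
    (by decide +kernel)

lemma ab_2_6 : AB FF 10000 [2, 6] :=
  AB_node (n := 59) rfl w963.down (
    PtI.trans (pcI rfl rfl w964.down) <|
    PtI.trans (pcI rfl rfl w965.down) <|
    (pcI rfl rfl w966.down))
    (by decide +kernel)

lemma ab_2_5_1 : AB FF 10000 [2, 5, 1] :=
  AB_node (n := 58) rfl w960.down (
    PtI.trans (pcI rfl rfl w961.down) <|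
    (pcI rfl rfl w962.down))
    (by decide +kernel)

lemma ab_2_5 : AB FF 10000 [2, 5] :=
  AB_node (n := 83) rfl w956.down (
    PtI.trans (ecI w957.down ab_2_5_1) <|
    PtI.trans (pcI rfl rfl w958.down) <|
    (pcI rfl rfl w959.down))
    (by decide +kernel)

lemma ab_2_4_1 : AB FF 10000 [2, 4, 1] :=
  AB_node (n := 82) rfl w952.down (
    PtI.trans (pcI rfl rfl w953.down) <|
    PtI.trans (pcI rfl rfl w954.down) <|
    (pcI rfl rfl w955.down))
    (by decide +kernel)

lemma ab_2_4 : AB FF 10000 [2, 4] :=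
  AB_node (n := 124) rfl w947.down (
    PtI.trans (ecI w948.down ab_2_4_1) <|
    PtI.trans (pcI rfl rfl w949.down) <|
    PtI.trans (pcI rfl rfl w950.down) <|
    (pcI rfl rfl w951.down))
    (by decide +kernel)

lemma ab_2_3_2 : AB FF 10000 [2, 3, 2] :=
  AB_node (n := 39) rfl w944.down (
    PtI.trans (pcI rfl rfl w945.down) <|
    (pcI rfl rfl w946.down))
    (by decide +kernel)

lemma ab_2_3_1 : AB FF 10000 [2, 3, 1] :=
  AB_node (n := 122) rfl w939.down (
    PtI.trans (pcI rfl rfl w940.down) <|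
    PtI.trans (pcI rfl rfl w941.down) <|
    PtI.trans (pcI rfl rfl w942.down) <|
    (pcI rfl rfl w943.down))
    (by decide +kernel)

lemma ab_2_3 : AB FF 10000 [2, 3] :=
  AB_node (n := 204) rfl w932.down (
    PtI.trans (ecI w933.down ab_2_3_1) <|
    PtI.trans (ecI w934.down ab_2_3_2) <|
    PtI.trans (pcI rfl rfl w935.down) <|
    PtI.trans (pcI rfl rfl w936.down) <|
    PtI.trans (pcI rfl rfl w937.down) <|
    (pcI rfl rfl w938.down))
    (by decide +kernel)

lemma ab_2_2_3 : AB FF 10000 [2, 2, 3] :=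
  AB_node (n := 35) rfl w930.down (
    (pcI rfl rfl w931.down))
    (by decide +kernel)

lemma ab_2_2_2 : AB FF 10000 [2, 2, 2] :=
  AB_node (n := 69) rfl w926.down (
    PtI.trans (pcI rfl rfl w927.down) <|
    PtI.trans (pcI rfl rfl w928.down) <|
    (pcI rfl rfl w929.down))
    (by decide +kernel)

lemma ab_2_2_1_1 : AB FF 10000 [2, 2, 1, 1] :=
  AB_node (n := 69) rfl w923.down (
    PtI.trans (pcI rfl rfl w924.down) <|
    (pcI rfl rfl w925.down))
    (by decide +kernel)

lemma ab_2_2_1 : AB FF 10000 [2, 2, 1] :=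
  AB_node (n := 203) rfl w916.down (
    PtI.trans (ecI w917.down ab_2_2_1_1) <|
    PtI.trans (pcI rfl rfl w918.down) <|
    PtI.trans (pcI rfl rfl w919.down) <|
    PtI.trans (pcI rfl rfl w920.down) <|
    PtI.trans (pcI rfl rfl w921.down) <|
    (pcI rfl rfl w922.down))
    (by decide +kernel)

lemma ab_2_2 : AB FF 10000 [2, 2] :=
  AB_node (n := 400) rfl w905.down (
    PtI.trans (ecI w906.down ab_2_2_1) <|
    PtI.trans (ecI w907.down ab_2_2_2) <|
    PtI.trans (ecI w908.down ab_2_2_3) <|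
    PtI.trans (pcI rfl rfl w909.down) <|
    PtI.trans (pcI rfl rfl w910.down) <|
    PtI.trans (pcI rfl rfl w911.down) <|
    PtI.trans (pcI rfl rfl w912.down) <|
    PtI.trans (pcI rfl rfl w913.down) <|
    PtI.trans (pcI rfl rfl w914.down) <|
    (pcI rfl rfl w915.down))
    (by decide +kernel)

lemma ab_2_1_5 : AB FF 10000 [2, 1, 5] :=
  AB_node (n := 35) rfl w902.down (
    PtI.trans (pcI rfl rfl w903.down) <|
    (pcI rfl rfl w904.down))
    (by decide +kernel)

lemma ab_2_1_4 : AB FF 10000 [2, 1, 4] :=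
  AB_node (n := 51) rfl w899.down (
    PtI.trans (pcI rfl rfl w900.down) <|
    (pcI rfl rfl w901.down))
    (by decide +kernel)

lemma ab_2_1_3_1 : AB FF 10000 [2, 1, 3, 1] :=
  AB_node (n := 50) rfl w896.down (
    PtI.trans (pcI rfl rfl w897.down) <|
    (pcI rfl rfl w898.down))
    (by decide +kernel)

lemma ab_2_1_3 : AB FF 10000 [2, 1, 3] :=
  AB_node (n := 83) rfl w892.down (
    PtI.trans (ecI w893.down ab_2_1_3_1) <|
    PtI.trans (pcI rfl rfl w894.down) <|
    (pcI rfl rfl w895.down))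
    (by decide +kernel)

lemma ab_2_1_2_1 : AB FF 10000 [2, 1, 2, 1] :=
  AB_node (n := 82) rfl w888.down (
    PtI.trans (pcI rfl rfl w889.down) <|
    PtI.trans (pcI rfl rfl w890.down) <|
    (pcI rfl rfl w891.down))
    (by decide +kernel)

lemma ab_2_1_2 : AB FF 10000 [2, 1, 2] :=
  AB_node (n := 156) rfl w882.down (
    PtI.trans (ecI w883.down ab_2_1_2_1) <|
    PtI.trans (pcI rfl rfl w884.down) <|
    PtI.trans (pcI rfl rfl w885.down) <|
    PtI.trans (pcI rfl rfl w886.down) <|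
    (pcI rfl rfl w887.down))
    (by decide +kernel)

lemma ab_2_1_1_2 : AB FF 10000 [2, 1, 1, 2] :=
  AB_node (n := 59) rfl w879.down (
    PtI.trans (pcI rfl rfl w880.down) <|
    (pcI rfl rfl w881.down))
    (by decide +kernel)

lemma ab_2_1_1_1_1 : AB FF 10000 [2, 1, 1, 1, 1] :=
  AB_node (n := 58) rfl w876.down (
    PtI.trans (pcI rfl rfl w877.down) <|
    (pcI rfl rfl w878.down))
    (by decide +kernel)

lemma ab_2_1_1_1 : AB FF 10000 [2, 1, 1, 1] :=
  AB_node (n := 156) rfl w870.down (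
    PtI.trans (ecI w871.down ab_2_1_1_1_1) <|
    PtI.trans (pcI rfl rfl w872.down) <|
    PtI.trans (pcI rfl rfl w873.down) <|
    PtI.trans (pcI rfl rfl w874.down) <|
    (pcI rfl rfl w875.down))
    (by decide +kernel)

lemma ab_2_1_1 : AB FF 10000 [2, 1, 1] :=
  AB_node (n := 399) rfl w859.down (
    PtI.trans (ecI w860.down ab_2_1_1_1) <|
    PtI.trans (ecI w861.down ab_2_1_1_2) <|
    PtI.trans (pcI rfl rfl w862.down) <|
    PtI.trans (pcI rfl rfl w863.down) <|
    PtI.trans (pcI rfl rfl w864.down) <|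
    PtI.trans (pcI rfl rfl w865.down) <|
    PtI.trans (pcI rfl rfl w866.down) <|
    PtI.trans (pcI rfl rfl w867.down) <|
    PtI.trans (pcI rfl rfl w868.down) <|
    (pcI rfl rfl w869.down))
    (by decide +kernel)

lemma ab_2_1 : AB FF 10000 [2, 1] :=
  AB_node (n := 1110) rfl w834.down (
    PtI.trans (ecI w835.down ab_2_1_1) <|
    PtI.trans (ecI w836.down ab_2_1_2) <|
    PtI.trans (ecI w837.down ab_2_1_3) <|
    PtI.trans (ecI w838.down ab_2_1_4) <|
    PtI.trans (ecI w839.down ab_2_1_5) <|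
    PtI.trans (pcI rfl rfl w840.down) <|
    PtI.trans (pcI rfl rfl w841.down) <|
    PtI.trans (pcI rfl rfl w842.down) <|
    PtI.trans (pcI rfl rfl w843.down) <|
    PtI.trans (pcI rfl rfl w844.down) <|
    PtI.trans (pcI rfl rfl w845.down) <|
    PtI.trans (pcI rfl rfl w846.down) <|
    PtI.trans (pcI rfl rfl w847.down) <|
    PtI.trans (pcI rfl rfl w848.down) <|
    PtI.trans (pcI rfl rfl w849.down) <|
    PtI.trans (pcI rfl rfl w850.down) <|
    PtI.trans (pcI rfl rfl w851.down) <|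
    PtI.trans (pcI rfl rfl w852.down) <|
    PtI.trans (pcI rfl rfl w853.down) <|
    PtI.trans (pcI rfl rfl w854.down) <|
    PtI.trans (pcI rfl rfl w855.down) <|
    PtI.trans (pcI rfl rfl w856.down) <|
    PtI.trans (pcI rfl rfl w857.down) <|
    (pcI rfl rfl w858.down))
    (by decide +kernel)

lemma ab_2 : AB FF 10000 [2] :=
  AB_node (n := 2500) rfl w786.down (
    PtI.trans (ecI w787.down ab_2_1) <|
    PtI.trans (ecI w788.down ab_2_2) <|
    PtI.trans (ecI w789.down ab_2_3) <|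
    PtI.trans (ecI w790.down ab_2_4) <|
    PtI.trans (ecI w791.down ab_2_5) <|
    PtI.trans (ecI w792.down ab_2_6) <|
    PtI.trans (ecI w793.down ab_2_7) <|
    PtI.trans (ecI w794.down ab_2_8) <|
    PtI.trans (pcI rfl rfl w795.down) <|
    PtI.trans (pcI rfl rfl w796.down) <|
    PtI.trans (pcI rfl rfl w797.down) <|
    PtI.trans (pcI rfl rfl w798.down) <|
    PtI.trans (pcI rfl rfl w799.down) <|
    PtI.trans (pcI rfl rfl w800.down) <|
    PtI.trans (pcI rfl rfl w801.down) <|
    PtI.trans (pcI rfl rfl w802.down) <|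
    PtI.trans (pcI rfl rfl w803.down) <|
    PtI.trans (pcI rfl rfl w804.down) <|
    PtI.trans (pcI rfl rfl w805.down) <|
    PtI.trans (pcI rfl rfl w806.down) <|
    PtI.trans (pcI rfl rfl w807.down) <|
    PtI.trans (pcI rfl rfl w808.down) <|
    PtI.trans (pcI rfl rfl w809.down) <|
    PtI.trans (pcI rfl rfl w810.down) <|
    PtI.trans (pcI rfl rfl w811.down) <|
    PtI.trans (pcI rfl rfl w812.down) <|
    PtI.trans (pcI rfl rfl w813.down) <|
    PtI.trans (pcI rfl rfl w814.down) <|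
    PtI.trans (pcI rfl rfl w815.down) <|
    PtI.trans (pcI rfl rfl w816.down) <|
    PtI.trans (pcI rfl rfl w817.down) <|
    PtI.trans (pcI rfl rfl w818.down) <|
    PtI.trans (pcI rfl rfl w819.down) <|
    PtI.trans (pcI rfl rfl w820.down) <|
    PtI.trans (pcI rfl rfl w821.down) <|
    PtI.trans (pcI rfl rfl w822.down) <|
    PtI.trans (pcI rfl rfl w823.down) <|
    PtI.trans (pcI rfl rfl w824.down) <|
    PtI.trans (pcI rfl rfl w825.down) <|
    PtI.trans (pcI rfl rfl w826.down) <|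
    PtI.trans (pcI rfl rfl w827.down) <|
    PtI.trans (pcI rfl rfl w828.down) <|
    PtI.trans (pcI rfl rfl w829.down) <|
    PtI.trans (pcI rfl rfl w830.down) <|
    PtI.trans (pcI rfl rfl w831.down) <|
    PtI.trans (pcI rfl rfl w832.down) <|
    (pcI rfl rfl w833.down))
    (by decide +kernel)

lemma ab_1_18 : AB FF 10000 [1, 18] :=
  AB_node (n := 28) rfl w784.down (
    (pcI rfl rfl w785.down))
    (by decide +kernel)

lemma ab_1_17 : AB FF 10000 [1, 17] :=
  AB_node (n := 31) rfl w781.down (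
    PtI.trans (pcI rfl rfl w782.down) <|
    (pcI rfl rfl w783.down))
    (by decide +kernel)

lemma ab_1_16 : AB FF 10000 [1, 16] :=
  AB_node (n := 35) rfl w778.down (
    PtI.trans (pcI rfl rfl w779.down) <|
    (pcI rfl rfl w780.down))
    (by decide +kernel)

lemma ab_1_15 : AB FF 10000 [1, 15] :=
  AB_node (n := 39) rfl w775.down (
    PtI.trans (pcI rfl rfl w776.down) <|
    (pcI rfl rfl w777.down))
    (by decide +kernel)

lemma ab_1_14 : AB FF 10000 [1, 14] :=
  AB_node (n := 45) rfl w772.down (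
    PtI.trans (pcI rfl rfl w773.down) <|
    (pcI rfl rfl w774.down))
    (by decide +kernel)

lemma ab_1_13 : AB FF 10000 [1, 13] :=
  AB_node (n := 51) rfl w768.down (
    PtI.trans (pcI rfl rfl w769.down) <|
    PtI.trans (pcI rfl rfl w770.down) <|
    (pcI rfl rfl w771.down))
    (by decide +kernel)

lemma ab_1_12_1 : AB FF 10000 [1, 12, 1] :=
  AB_node (n := 50) rfl w765.down (
    PtI.trans (pcI rfl rfl w766.down) <|
    (pcI rfl rfl w767.down))
    (by decide +kernel)

lemma ab_1_12 : AB FF 10000 [1, 12] :=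
  AB_node (n := 60) rfl w761.down (
    PtI.trans (ecI w762.down ab_1_12_1) <|
    PtI.trans (pcI rfl rfl w763.down) <|
    (pcI rfl rfl w764.down))
    (by decide +kernel)

lemma ab_1_11_1 : AB FF 10000 [1, 11, 1] :=
  AB_node (n := 58) rfl w758.down (
    PtI.trans (pcI rfl rfl w759.down) <|
    (pcI rfl rfl w760.down))
    (by decide +kernel)

lemma ab_1_11 : AB FF 10000 [1, 11] :=
  AB_node (n := 70) rfl w754.down (
    PtI.trans (ecI w755.down ab_1_11_1) <|
    PtI.trans (pcI rfl rfl w756.down) <|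
    (pcI rfl rfl w757.down))
    (by decide +kernel)

lemma ab_1_10_1 : AB FF 10000 [1, 10, 1] :=
  AB_node (n := 68) rfl w751.down (
    PtI.trans (pcI rfl rfl w752.down) <|
    (pcI rfl rfl w753.down))
    (by decide +kernel)

lemma ab_1_10 : AB FF 10000 [1, 10] :=
  AB_node (n := 83) rfl w747.down (
    PtI.trans (ecI w748.down ab_1_10_1) <|
    PtI.trans (pcI rfl rfl w749.down) <|
    (pcI rfl rfl w750.down))
    (by decide +kernel)

lemma ab_1_9_1 : AB FF 10000 [1, 9, 1] :=
  AB_node (n := 81) rfl w744.down (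
    PtI.trans (pcI rfl rfl w745.down) <|
    (pcI rfl rfl w746.down))
    (by decide +kernel)

lemma ab_1_9 : AB FF 10000 [1, 9] :=
  AB_node (n := 100) rfl w739.down (
    PtI.trans (ecI w740.down ab_1_9_1) <|
    PtI.trans (pcI rfl rfl w741.down) <|
    PtI.trans (pcI rfl rfl w742.down) <|
    (pcI rfl rfl w743.down))
    (by decide +kernel)

lemma ab_1_8_1 : AB FF 10000 [1, 8, 1] :=
  AB_node (n := 99) rfl w735.down (
    PtI.trans (pcI rfl rfl w736.down) <|
    PtI.trans (pcI rfl rfl w737.down) <|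
    (pcI rfl rfl w738.down))
    (by decide +kernel)

lemma ab_1_8 : AB FF 10000 [1, 8] :=
  AB_node (n := 124) rfl w730.down (
    PtI.trans (ecI w731.down ab_1_8_1) <|
    PtI.trans (pcI rfl rfl w732.down) <|
    PtI.trans (pcI rfl rfl w733.down) <|
    (pcI rfl rfl w734.down))
    (by decide +kernel)

lemma ab_1_7_1 : AB FF 10000 [1, 7, 1] :=
  AB_node (n := 122) rfl w725.down (
    PtI.trans (pcI rfl rfl w726.down) <|
    PtI.trans (pcI rfl rfl w727.down) <|
    PtI.trans (pcI rfl rfl w728.down) <|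
    (pcI rfl rfl w729.down))
    (by decide +kernel)

lemma ab_1_7 : AB FF 10000 [1, 7] :=
  AB_node (n := 157) rfl w719.down (
    PtI.trans (ecI w720.down ab_1_7_1) <|
    PtI.trans (pcI rfl rfl w721.down) <|
    PtI.trans (pcI rfl rfl w722.down) <|
    PtI.trans (pcI rfl rfl w723.down) <|
    (pcI rfl rfl w724.down))
    (by decide +kernel)

lemma ab_1_6_2 : AB FF 10000 [1, 6, 2] :=
  AB_node (n := 44) rfl w716.down (
    PtI.trans (pcI rfl rfl w717.down) <|
    (pcI rfl rfl w718.down))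
    (by decide +kernel)

lemma ab_1_6_1_1 : AB FF 10000 [1, 6, 1, 1] :=
  AB_node (n := 44) rfl w713.down (
    PtI.trans (pcI rfl rfl w714.down) <|
    (pcI rfl rfl w715.down))
    (by decide +kernel)

lemma ab_1_6_1 : AB FF 10000 [1, 6, 1] :=
  AB_node (n := 155) rfl w707.down (
    PtI.trans (ecI w708.down ab_1_6_1_1) <|
    PtI.trans (pcI rfl rfl w709.down) <|
    PtI.trans (pcI rfl rfl w710.down) <|
    PtI.trans (pcI rfl rfl w711.down) <|
    (pcI rfl rfl w712.down))
    (by decide +kernel)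

lemma ab_1_6 : AB FF 10000 [1, 6] :=
  AB_node (n := 204) rfl w699.down (
    PtI.trans (ecI w700.down ab_1_6_1) <|
    PtI.trans (ecI w701.down ab_1_6_2) <|
    PtI.trans (pcI rfl rfl w702.down) <|
    PtI.trans (pcI rfl rfl w703.down) <|
    PtI.trans (pcI rfl rfl w704.down) <|
    PtI.trans (pcI rfl rfl w705.down) <|
    (pcI rfl rfl w706.down))
    (by decide +kernel)

lemma ab_1_5_2 : AB FF 10000 [1, 5, 2] :=
  AB_node (n := 59) rfl w696.down (
    PtI.trans (pcI rfl rfl w697.down) <|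
    (pcI rfl rfl w698.down))
    (by decide +kernel)

lemma ab_1_5_1_1 : AB FF 10000 [1, 5, 1, 1] :=
  AB_node (n := 59) rfl w693.down (
    PtI.trans (pcI rfl rfl w694.down) <|
    (pcI rfl rfl w695.down))
    (by decide +kernel)

lemma ab_1_5_1 : AB FF 10000 [1, 5, 1] :=
  AB_node (n := 203) rfl w686.down (
    PtI.trans (ecI w687.down ab_1_5_1_1) <|
    PtI.trans (pcI rfl rfl w688.down) <|
    PtI.trans (pcI rfl rfl w689.down) <|
    PtI.trans (pcI rfl rfl w690.down) <|
    PtI.trans (pcI rfl rfl w691.down) <|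
    (pcI rfl rfl w692.down))
    (by decide +kernel)

lemma ab_1_5 : AB FF 10000 [1, 5] :=
  AB_node (n := 278) rfl w677.down (
    PtI.trans (ecI w678.down ab_1_5_1) <|
    PtI.trans (ecI w679.down ab_1_5_2) <|
    PtI.trans (pcI rfl rfl w680.down) <|
    PtI.trans (pcI rfl rfl w681.down) <|
    PtI.trans (pcI rfl rfl w682.down) <|
    PtI.trans (pcI rfl rfl w683.down) <|
    PtI.trans (pcI rfl rfl w684.down) <|
    (pcI rfl rfl w685.down))
    (by decide +kernel)

lemma ab_1_4_3 : AB FF 10000 [1, 4, 3] :=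
  AB_node (n := 39) rfl w674.down (
    PtI.trans (pcI rfl rfl w675.down) <|
    (pcI rfl rfl w676.down))
    (by decide +kernel)

lemma ab_1_4_2 : AB FF 10000 [1, 4, 2] :=
  AB_node (n := 82) rfl w670.down (
    PtI.trans (pcI rfl rfl w671.down) <|
    PtI.trans (pcI rfl rfl w672.down) <|
    (pcI rfl rfl w673.down))
    (by decide +kernel)

lemma ab_1_4_1_1 : AB FF 10000 [1, 4, 1, 1] :=
  AB_node (n := 82) rfl w666.down (
    PtI.trans (pcI rfl rfl w667.down) <|
    PtI.trans (pcI rfl rfl w668.down) <|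
    (pcI rfl rfl w669.down))
    (by decide +kernel)

lemma ab_1_4_1 : AB FF 10000 [1, 4, 1] :=
  AB_node (n := 277) rfl w657.down (
    PtI.trans (ecI w658.down ab_1_4_1_1) <|
    PtI.trans (pcI rfl rfl w659.down) <|
    PtI.trans (pcI rfl rfl w660.down) <|
    PtI.trans (pcI rfl rfl w661.down) <|
    PtI.trans (pcI rfl rfl w662.down) <|
    PtI.trans (pcI rfl rfl w663.down) <|
    PtI.trans (pcI rfl rfl w664.down) <|
    (pcI rfl rfl w665.down))
    (by decide +kernel)

lemma ab_1_4 : AB FF 10000 [1, 4] :=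
  AB_node (n := 400) rfl w645.down (
    PtI.trans (ecI w646.down ab_1_4_1) <|
    PtI.trans (ecI w647.down ab_1_4_2) <|
    PtI.trans (ecI w648.down ab_1_4_3) <|
    PtI.trans (pcI rfl rfl w649.down) <|
    PtI.trans (pcI rfl rfl w650.down) <|
    PtI.trans (pcI rfl rfl w651.down) <|
    PtI.trans (pcI rfl rfl w652.down) <|
    PtI.trans (pcI rfl rfl w653.down) <|
    PtI.trans (pcI rfl rfl w654.down) <|
    PtI.trans (pcI rfl rfl w655.down) <|
    (pcI rfl rfl w656.down))
    (by decide +kernel)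

lemma ab_1_3_4 : AB FF 10000 [1, 3, 4] :=
  AB_node (n := 35) rfl w642.down (
    PtI.trans (pcI rfl rfl w643.down) <|
    (pcI rfl rfl w644.down))
    (by decide +kernel)

lemma ab_1_3_3 : AB FF 10000 [1, 3, 3] :=
  AB_node (n := 59) rfl w638.down (
    PtI.trans (pcI rfl rfl w639.down) <|
    PtI.trans (pcI rfl rfl w640.down) <|
    (pcI rfl rfl w641.down))
    (by decide +kernel)

lemma ab_1_3_2_1 : AB FF 10000 [1, 3, 2, 1] :=
  AB_node (n := 58) rfl w635.down (
    PtI.trans (pcI rfl rfl w636.down) <|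
    (pcI rfl rfl w637.down))
    (by decide +kernel)

lemma ab_1_3_2 : AB FF 10000 [1, 3, 2] :=
  AB_node (n := 123) rfl w630.down (
    PtI.trans (ecI w631.down ab_1_3_2_1) <|
    PtI.trans (pcI rfl rfl w632.down) <|
    PtI.trans (pcI rfl rfl w633.down) <|
    (pcI rfl rfl w634.down))
    (by decide +kernel)

lemma ab_1_3_1_2 : AB FF 10000 [1, 3, 1, 2] :=
  AB_node (n := 51) rfl w627.down (
    PtI.trans (pcI rfl rfl w628.down) <|
    (pcI rfl rfl w629.down))
    (by decide +kernel)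

lemma ab_1_3_1_1_1 : AB FF 10000 [1, 3, 1, 1, 1] :=
  AB_node (n := 50) rfl w624.down (
    PtI.trans (pcI rfl rfl w625.down) <|
    (pcI rfl rfl w626.down))
    (by decide +kernel)

lemma ab_1_3_1_1 : AB FF 10000 [1, 3, 1, 1] :=
  AB_node (n := 123) rfl w619.down (
    PtI.trans (ecI w620.down ab_1_3_1_1_1) <|
    PtI.trans (pcI rfl rfl w621.down) <|
    PtI.trans (pcI rfl rfl w622.down) <|
    (pcI rfl rfl w623.down))
    (by decide +kernel)

lemma ab_1_3_1 : AB FF 10000 [1, 3, 1] :=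
  AB_node (n := 399) rfl w608.down (
    PtI.trans (ecI w609.down ab_1_3_1_1) <|
    PtI.trans (ecI w610.down ab_1_3_1_2) <|
    PtI.trans (pcI rfl rfl w611.down) <|
    PtI.trans (pcI rfl rfl w612.down) <|
    PtI.trans (pcI rfl rfl w613.down) <|
    PtI.trans (pcI rfl rfl w614.down) <|
    PtI.trans (pcI rfl rfl w615.down) <|
    PtI.trans (pcI rfl rfl w616.down) <|
    PtI.trans (pcI rfl rfl w617.down) <|
    (pcI rfl rfl w618.down))
    (by decide +kernel)

lemma ab_1_3 : AB FF 10000 [1, 3] :=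
  AB_node (n := 625) rfl w592.down (
    PtI.trans (ecI w593.down ab_1_3_1) <|
    PtI.trans (ecI w594.down ab_1_3_2) <|
    PtI.trans (ecI w595.down ab_1_3_3) <|
    PtI.trans (ecI w596.down ab_1_3_4) <|
    PtI.trans (pcI rfl rfl w597.down) <|
    PtI.trans (pcI rfl rfl w598.down) <|
    PtI.trans (pcI rfl rfl w599.down) <|
    PtI.trans (pcI rfl rfl w600.down) <|
    PtI.trans (pcI rfl rfl w601.down) <|
    PtI.trans (pcI rfl rfl w602.down) <|
    PtI.trans (pcI rfl rfl w603.down) <|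
    PtI.trans (pcI rfl rfl w604.down) <|
    PtI.trans (pcI rfl rfl w605.down) <|
    PtI.trans (pcI rfl rfl w606.down) <|
    (pcI rfl rfl w607.down))
    (by decide +kernel)

lemma ab_1_2_5 : AB FF 10000 [1, 2, 5] :=
  AB_node (n := 39) rfl w589.down (
    PtI.trans (pcI rfl rfl w590.down) <|
    (pcI rfl rfl w591.down))
    (by decide +kernel)

lemma ab_1_2_4 : AB FF 10000 [1, 2, 4] :=
  AB_node (n := 59) rfl w585.down (
    PtI.trans (pcI rfl rfl w586.down) <|
    PtI.trans (pcI rfl rfl w587.down) <|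
    (pcI rfl rfl w588.down))
    (by decide +kernel)

lemma ab_1_2_3_1 : AB FF 10000 [1, 2, 3, 1] :=
  AB_node (n := 58) rfl w582.down (
    PtI.trans (pcI rfl rfl w583.down) <|
    (pcI rfl rfl w584.down))
    (by decide +kernel)

lemma ab_1_2_3 : AB FF 10000 [1, 2, 3] :=
  AB_node (n := 100) rfl w577.down (
    PtI.trans (ecI w578.down ab_1_2_3_1) <|
    PtI.trans (pcI rfl rfl w579.down) <|
    PtI.trans (pcI rfl rfl w580.down) <|
    (pcI rfl rfl w581.down))
    (by decide +kernel)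

lemma ab_1_2_2_1 : AB FF 10000 [1, 2, 2, 1] :=
  AB_node (n := 99) rfl w573.down (
    PtI.trans (pcI rfl rfl w574.down) <|
    PtI.trans (pcI rfl rfl w575.down) <|
    (pcI rfl rfl w576.down))
    (by decide +kernel)

lemma ab_1_2_2 : AB FF 10000 [1, 2, 2] :=
  AB_node (n := 204) rfl w566.down (
    PtI.trans (ecI w567.down ab_1_2_2_1) <|
    PtI.trans (pcI rfl rfl w568.down) <|
    PtI.trans (pcI rfl rfl w569.down) <|
    PtI.trans (pcI rfl rfl w570.down) <|
    PtI.trans (pcI rfl rfl w571.down) <|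
    (pcI rfl rfl w572.down))
    (by decide +kernel)

lemma ab_1_2_1_3 : AB FF 10000 [1, 2, 1, 3] :=
  AB_node (n := 44) rfl w563.down (
    PtI.trans (pcI rfl rfl w564.down) <|
    (pcI rfl rfl w565.down))
    (by decide +kernel)

lemma ab_1_2_1_2_1 : AB FF 10000 [1, 2, 1, 2, 1] :=
  AB_node (n := 43) rfl w560.down (
    PtI.trans (pcI rfl rfl w561.down) <|
    (pcI rfl rfl w562.down))
    (by decide +kernel)

lemma ab_1_2_1_2 : AB FF 10000 [1, 2, 1, 2] :=
  AB_node (n := 82) rfl w556.down (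
    PtI.trans (ecI w557.down ab_1_2_1_2_1) <|
    PtI.trans (pcI rfl rfl w558.down) <|
    (pcI rfl rfl w559.down))
    (by decide +kernel)

lemma ab_1_2_1_1_1 : AB FF 10000 [1, 2, 1, 1, 1] :=
  AB_node (n := 82) rfl w552.down (
    PtI.trans (pcI rfl rfl w553.down) <|
    PtI.trans (pcI rfl rfl w554.down) <|
    (pcI rfl rfl w555.down))
    (by decide +kernel)

lemma ab_1_2_1_1 : AB FF 10000 [1, 2, 1, 1] :=
  AB_node (n := 203) rfl w545.down (
    PtI.trans (ecI w546.down ab_1_2_1_1_1) <|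
    PtI.trans (pcI rfl rfl w547.down) <|
    PtI.trans (pcI rfl rfl w548.down) <|
    PtI.trans (pcI rfl rfl w549.down) <|
    PtI.trans (pcI rfl rfl w550.down) <|
    (pcI rfl rfl w551.down))
    (by decide +kernel)

lemma ab_1_2_1 : AB FF 10000 [1, 2, 1] :=
  AB_node (n := 624) rfl w529.down (
    PtI.trans (ecI w530.down ab_1_2_1_1) <|
    PtI.trans (ecI w531.down ab_1_2_1_2) <|
    PtI.trans (ecI w532.down ab_1_2_1_3) <|
    PtI.trans (pcI rfl rfl w533.down) <|
    PtI.trans (pcI rfl rfl w534.down) <|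
    PtI.trans (pcI rfl rfl w535.down) <|
    PtI.trans (pcI rfl rfl w536.down) <|
    PtI.trans (pcI rfl rfl w537.down) <|
    PtI.trans (pcI rfl rfl w538.down) <|
    PtI.trans (pcI rfl rfl w539.down) <|
    PtI.trans (pcI rfl rfl w540.down) <|
    PtI.trans (pcI rfl rfl w541.down) <|
    PtI.trans (pcI rfl rfl w542.down) <|
    PtI.trans (pcI rfl rfl w543.down) <|
    (pcI rfl rfl w544.down))
    (by decide +kernel)

lemma ab_1_2 : AB FF 10000 [1, 2] :=
  AB_node (n := 1111) rfl w504.down (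
    PtI.trans (ecI w505.down ab_1_2_1) <|
    PtI.trans (ecI w506.down ab_1_2_2) <|
    PtI.trans (ecI w507.down ab_1_2_3) <|
    PtI.trans (ecI w508.down ab_1_2_4) <|
    PtI.trans (ecI w509.down ab_1_2_5) <|
    PtI.trans (pcI rfl rfl w510.down) <|
    PtI.trans (pcI rfl rfl w511.down) <|
    PtI.trans (pcI rfl rfl w512.down) <|
    PtI.trans (pcI rfl rfl w513.down) <|
    PtI.trans (pcI rfl rfl w514.down) <|
    PtI.trans (pcI rfl rfl w515.down) <|
    PtI.trans (pcI rfl rfl w516.down) <|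
    PtI.trans (pcI rfl rfl w517.down) <|
    PtI.trans (pcI rfl rfl w518.down) <|
    PtI.trans (pcI rfl rfl w519.down) <|
    PtI.trans (pcI rfl rfl w520.down) <|
    PtI.trans (pcI rfl rfl w521.down) <|
    PtI.trans (pcI rfl rfl w522.down) <|
    PtI.trans (pcI rfl rfl w523.down) <|
    PtI.trans (pcI rfl rfl w524.down) <|
    PtI.trans (pcI rfl rfl w525.down) <|
    PtI.trans (pcI rfl rfl w526.down) <|
    PtI.trans (pcI rfl rfl w527.down) <|
    (pcI rfl rfl w528.down))
    (by decide +kernel)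

lemma ab_1_1_8 : AB FF 10000 [1, 1, 8] :=
  AB_node (n := 35) rfl w501.down (
    PtI.trans (pcI rfl rfl w502.down) <|
    (pcI rfl rfl w503.down))
    (by decide +kernel)

lemma ab_1_1_7 : AB FF 10000 [1, 1, 7] :=
  AB_node (n := 45) rfl w498.down (
    PtI.trans (pcI rfl rfl w499.down) <|
    (pcI rfl rfl w500.down))
    (by decide +kernel)

lemma ab_1_1_6 : AB FF 10000 [1, 1, 6] :=
  AB_node (n := 59) rfl w494.down (
    PtI.trans (pcI rfl rfl w495.down) <|
    PtI.trans (pcI rfl rfl w496.down) <|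
    (pcI rfl rfl w497.down))
    (by decide +kernel)

lemma ab_1_1_5_1 : AB FF 10000 [1, 1, 5, 1] :=
  AB_node (n := 58) rfl w491.down (
    PtI.trans (pcI rfl rfl w492.down) <|
    (pcI rfl rfl w493.down))
    (by decide +kernel)

lemma ab_1_1_5 : AB FF 10000 [1, 1, 5] :=
  AB_node (n := 83) rfl w487.down (
    PtI.trans (ecI w488.down ab_1_1_5_1) <|
    PtI.trans (pcI rfl rfl w489.down) <|
    (pcI rfl rfl w490.down))
    (by decide +kernel)

lemma ab_1_1_4_1 : AB FF 10000 [1, 1, 4, 1] :=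
  AB_node (n := 82) rfl w483.down (
    PtI.trans (pcI rfl rfl w484.down) <|
    PtI.trans (pcI rfl rfl w485.down) <|
    (pcI rfl rfl w486.down))
    (by decide +kernel)

lemma ab_1_1_4 : AB FF 10000 [1, 1, 4] :=
  AB_node (n := 124) rfl w478.down (
    PtI.trans (ecI w479.down ab_1_1_4_1) <|
    PtI.trans (pcI rfl rfl w480.down) <|
    PtI.trans (pcI rfl rfl w481.down) <|
    (pcI rfl rfl w482.down))
    (by decide +kernel)

lemma ab_1_1_3_2 : AB FF 10000 [1, 1, 3, 2] :=
  AB_node (n := 39) rfl w475.down (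
    PtI.trans (pcI rfl rfl w476.down) <|
    (pcI rfl rfl w477.down))
    (by decide +kernel)

lemma ab_1_1_3_1 : AB FF 10000 [1, 1, 3, 1] :=
  AB_node (n := 122) rfl w470.down (
    PtI.trans (pcI rfl rfl w471.down) <|
    PtI.trans (pcI rfl rfl w472.down) <|
    PtI.trans (pcI rfl rfl w473.down) <|
    (pcI rfl rfl w474.down))
    (by decide +kernel)

lemma ab_1_1_3 : AB FF 10000 [1, 1, 3] :=
  AB_node (n := 204) rfl w463.down (
    PtI.trans (ecI w464.down ab_1_1_3_1) <|
    PtI.trans (ecI w465.down ab_1_1_3_2) <|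
    PtI.trans (pcI rfl rfl w466.down) <|
    PtI.trans (pcI rfl rfl w467.down) <|
    PtI.trans (pcI rfl rfl w468.down) <|
    (pcI rfl rfl w469.down))
    (by decide +kernel)

lemma ab_1_1_2_3 : AB FF 10000 [1, 1, 2, 3] :=
  AB_node (n := 35) rfl w461.down (
    (pcI rfl rfl w462.down))
    (by decide +kernel)

lemma ab_1_1_2_2 : AB FF 10000 [1, 1, 2, 2] :=
  AB_node (n := 69) rfl w457.down (
    PtI.trans (pcI rfl rfl w458.down) <|
    PtI.trans (pcI rfl rfl w459.down) <|
    (pcI rfl rfl w460.down))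
    (by decide +kernel)

lemma ab_1_1_2_1_1 : AB FF 10000 [1, 1, 2, 1, 1] :=
  AB_node (n := 69) rfl w454.down (
    PtI.trans (pcI rfl rfl w455.down) <|
    (pcI rfl rfl w456.down))
    (by decide +kernel)

lemma ab_1_1_2_1 : AB FF 10000 [1, 1, 2, 1] :=
  AB_node (n := 203) rfl w447.down (
    PtI.trans (ecI w448.down ab_1_1_2_1_1) <|
    PtI.trans (pcI rfl rfl w449.down) <|
    PtI.trans (pcI rfl rfl w450.down) <|
    PtI.trans (pcI rfl rfl w451.down) <|
    PtI.trans (pcI rfl rfl w452.down) <|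
    (pcI rfl rfl w453.down))
    (by decide +kernel)

lemma ab_1_1_2 : AB FF 10000 [1, 1, 2] :=
  AB_node (n := 400) rfl w436.down (
    PtI.trans (ecI w437.down ab_1_1_2_1) <|
    PtI.trans (ecI w438.down ab_1_1_2_2) <|
    PtI.trans (ecI w439.down ab_1_1_2_3) <|
    PtI.trans (pcI rfl rfl w440.down) <|
    PtI.trans (pcI rfl rfl w441.down) <|
    PtI.trans (pcI rfl rfl w442.down) <|
    PtI.trans (pcI rfl rfl w443.down) <|
    PtI.trans (pcI rfl rfl w444.down) <|
    PtI.trans (pcI rfl rfl w445.down) <|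
    (pcI rfl rfl w446.down))
    (by decide +kernel)

lemma ab_1_1_1_5 : AB FF 10000 [1, 1, 1, 5] :=
  AB_node (n := 35) rfl w433.down (
    PtI.trans (pcI rfl rfl w434.down) <|
    (pcI rfl rfl w435.down))
    (by decide +kernel)

lemma ab_1_1_1_4 : AB FF 10000 [1, 1, 1, 4] :=
  AB_node (n := 51) rfl w430.down (
    PtI.trans (pcI rfl rfl w431.down) <|
    (pcI rfl rfl w432.down))
    (by decide +kernel)

lemma ab_1_1_1_3_1 : AB FF 10000 [1, 1, 1, 3, 1] :=
  AB_node (n := 50) rfl w427.down (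
    PtI.trans (pcI rfl rfl w428.down) <|
    (pcI rfl rfl w429.down))
    (by decide +kernel)

lemma ab_1_1_1_3 : AB FF 10000 [1, 1, 1, 3] :=
  AB_node (n := 83) rfl w423.down (
    PtI.trans (ecI w424.down ab_1_1_1_3_1) <|
    PtI.trans (pcI rfl rfl w425.down) <|
    (pcI rfl rfl w426.down))
    (by decide +kernel)

lemma ab_1_1_1_2_1 : AB FF 10000 [1, 1, 1, 2, 1] :=
  AB_node (n := 82) rfl w419.down (
    PtI.trans (pcI rfl rfl w420.down) <|
    PtI.trans (pcI rfl rfl w421.down) <|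
    (pcI rfl rfl w422.down))
    (by decide +kernel)

lemma ab_1_1_1_2 : AB FF 10000 [1, 1, 1, 2] :=
  AB_node (n := 156) rfl w413.down (
    PtI.trans (ecI w414.down ab_1_1_1_2_1) <|
    PtI.trans (pcI rfl rfl w415.down) <|
    PtI.trans (pcI rfl rfl w416.down) <|
    PtI.trans (pcI rfl rfl w417.down) <|
    (pcI rfl rfl w418.down))
    (by decide +kernel)

lemma ab_1_1_1_1_2 : AB FF 10000 [1, 1, 1, 1, 2] :=
  AB_node (n := 59) rfl w410.down (
    PtI.trans (pcI rfl rfl w411.down) <|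
    (pcI rfl rfl w412.down))
    (by decide +kernel)

lemma ab_1_1_1_1_1_1 : AB FF 10000 [1, 1, 1, 1, 1, 1] :=
  AB_node (n := 58) rfl w407.down (
    PtI.trans (pcI rfl rfl w408.down) <|
    (pcI rfl rfl w409.down))
    (by decide +kernel)

lemma ab_1_1_1_1_1 : AB FF 10000 [1, 1, 1, 1, 1] :=
  AB_node (n := 156) rfl w401.down (
    PtI.trans (ecI w402.down ab_1_1_1_1_1_1) <|
    PtI.trans (pcI rfl rfl w403.down) <|
    PtI.trans (pcI rfl rfl w404.down) <|
    PtI.trans (pcI rfl rfl w405.down) <|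
    (pcI rfl rfl w406.down))
    (by decide +kernel)

lemma ab_1_1_1_1 : AB FF 10000 [1, 1, 1, 1] :=
  AB_node (n := 399) rfl w390.down (
    PtI.trans (ecI w391.down ab_1_1_1_1_1) <|
    PtI.trans (ecI w392.down ab_1_1_1_1_2) <|
    PtI.trans (pcI rfl rfl w393.down) <|
    PtI.trans (pcI rfl rfl w394.down) <|
    PtI.trans (pcI rfl rfl w395.down) <|
    PtI.trans (pcI rfl rfl w396.down) <|
    PtI.trans (pcI rfl rfl w397.down) <|
    PtI.trans (pcI rfl rfl w398.down) <|
    PtI.trans (pcI rfl rfl w399.down) <|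
    (pcI rfl rfl w400.down))
    (by decide +kernel)

lemma ab_1_1_1 : AB FF 10000 [1, 1, 1] :=
  AB_node (n := 1110) rfl w365.down (
    PtI.trans (ecI w366.down ab_1_1_1_1) <|
    PtI.trans (ecI w367.down ab_1_1_1_2) <|
    PtI.trans (ecI w368.down ab_1_1_1_3) <|
    PtI.trans (ecI w369.down ab_1_1_1_4) <|
    PtI.trans (ecI w370.down ab_1_1_1_5) <|
    PtI.trans (pcI rfl rfl w371.down) <|
    PtI.trans (pcI rfl rfl w372.down) <|
    PtI.trans (pcI rfl rfl w373.down) <|
    PtI.trans (pcI rfl rfl w374.down) <|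
    PtI.trans (pcI rfl rfl w375.down) <|
    PtI.trans (pcI rfl rfl w376.down) <|
    PtI.trans (pcI rfl rfl w377.down) <|
    PtI.trans (pcI rfl rfl w378.down) <|
    PtI.trans (pcI rfl rfl w379.down) <|
    PtI.trans (pcI rfl rfl w380.down) <|
    PtI.trans (pcI rfl rfl w381.down) <|
    PtI.trans (pcI rfl rfl w382.down) <|
    PtI.trans (pcI rfl rfl w383.down) <|
    PtI.trans (pcI rfl rfl w384.down) <|
    PtI.trans (pcI rfl rfl w385.down) <|
    PtI.trans (pcI rfl rfl w386.down) <|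
    PtI.trans (pcI rfl rfl w387.down) <|
    PtI.trans (pcI rfl rfl w388.down) <|
    (pcI rfl rfl w389.down))
    (by decide +kernel)

lemma ab_1_1 : AB FF 10000 [1, 1] :=
  AB_node (n := 2500) rfl w317.down (
    PtI.trans (ecI w318.down ab_1_1_1) <|
    PtI.trans (ecI w319.down ab_1_1_2) <|
    PtI.trans (ecI w320.down ab_1_1_3) <|
    PtI.trans (ecI w321.down ab_1_1_4) <|
    PtI.trans (ecI w322.down ab_1_1_5) <|
    PtI.trans (ecI w323.down ab_1_1_6) <|
    PtI.trans (ecI w324.down ab_1_1_7) <|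
    PtI.trans (ecI w325.down ab_1_1_8) <|
    PtI.trans (pcI rfl rfl w326.down) <|
    PtI.trans (pcI rfl rfl w327.down) <|
    PtI.trans (pcI rfl rfl w328.down) <|
    PtI.trans (pcI rfl rfl w329.down) <|
    PtI.trans (pcI rfl rfl w330.down) <|
    PtI.trans (pcI rfl rfl w331.down) <|
    PtI.trans (pcI rfl rfl w332.down) <|
    PtI.trans (pcI rfl rfl w333.down) <|
    PtI.trans (pcI rfl rfl w334.down) <|
    PtI.trans (pcI rfl rfl w335.down) <|
    PtI.trans (pcI rfl rfl w336.down) <|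
    PtI.trans (pcI rfl rfl w337.down) <|
    PtI.trans (pcI rfl rfl w338.down) <|
    PtI.trans (pcI rfl rfl w339.down) <|
    PtI.trans (pcI rfl rfl w340.down) <|
    PtI.trans (pcI rfl rfl w341.down) <|
    PtI.trans (pcI rfl rfl w342.down) <|
    PtI.trans (pcI rfl rfl w343.down) <|
    PtI.trans (pcI rfl rfl w344.down) <|
    PtI.trans (pcI rfl rfl w345.down) <|
    PtI.trans (pcI rfl rfl w346.down) <|
    PtI.trans (pcI rfl rfl w347.down) <|
    PtI.trans (pcI rfl rfl w348.down) <|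
    PtI.trans (pcI rfl rfl w349.down) <|
    PtI.trans (pcI rfl rfl w350.down) <|
    PtI.trans (pcI rfl rfl w351.down) <|
    PtI.trans (pcI rfl rfl w352.down) <|
    PtI.trans (pcI rfl rfl w353.down) <|
    PtI.trans (pcI rfl rfl w354.down) <|
    PtI.trans (pcI rfl rfl w355.down) <|
    PtI.trans (pcI rfl rfl w356.down) <|
    PtI.trans (pcI rfl rfl w357.down) <|
    PtI.trans (pcI rfl rfl w358.down) <|
    PtI.trans (pcI rfl rfl w359.down) <|
    PtI.trans (pcI rfl rfl w360.down) <|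
    PtI.trans (pcI rfl rfl w361.down) <|
    PtI.trans (pcI rfl rfl w362.down) <|
    PtI.trans (pcI rfl rfl w363.down) <|
    (pcI rfl rfl w364.down))
    (by decide +kernel)

lemma ab_1 : AB FF 10000 [1] :=
  AB_node (n := 9999) rfl w159.down (
    PtI.trans (ecI w160.down ab_1_1) <|
    PtI.trans (ecI w161.down ab_1_2) <|
    PtI.trans (ecI w162.down ab_1_3) <|
    PtI.trans (ecI w163.down ab_1_4) <|
    PtI.trans (ecI w164.down ab_1_5) <|
    PtI.trans (ecI w165.down ab_1_6) <|
    PtI.trans (ecI w166.down ab_1_7) <|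
    PtI.trans (ecI w167.down ab_1_8) <|
    PtI.trans (ecI w168.down ab_1_9) <|
    PtI.trans (ecI w169.down ab_1_10) <|
    PtI.trans (ecI w170.down ab_1_11) <|
    PtI.trans (ecI w171.down ab_1_12) <|
    PtI.trans (ecI w172.down ab_1_13) <|
    PtI.trans (ecI w173.down ab_1_14) <|
    PtI.trans (ecI w174.down ab_1_15) <|
    PtI.trans (ecI w175.down ab_1_16) <|
    PtI.trans (ecI w176.down ab_1_17) <|
    PtI.trans (ecI w177.down ab_1_18) <|
    PtI.trans (pcI rfl rfl w178.down) <|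
    PtI.trans (pcI rfl rfl w179.down) <|
    PtI.trans (pcI rfl rfl w180.down) <|
    PtI.trans (pcI rfl rfl w181.down) <|
    PtI.trans (pcI rfl rfl w182.down) <|
    PtI.trans (pcI rfl rfl w183.down) <|
    PtI.trans (pcI rfl rfl w184.down) <|
    PtI.trans (pcI rfl rfl w185.down) <|
    PtI.trans (pcI rfl rfl w186.down) <|
    PtI.trans (pcI rfl rfl w187.down) <|
    PtI.trans (pcI rfl rfl w188.down) <|
    PtI.trans (pcI rfl rfl w189.down) <|
    PtI.trans (pcI rfl rfl w190.down) <|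
    PtI.trans (pcI rfl rfl w191.down) <|
    PtI.trans (pcI rfl rfl w192.down) <|
    PtI.trans (pcI rfl rfl w193.down) <|
    PtI.trans (pcI rfl rfl w194.down) <|
    PtI.trans (pcI rfl rfl w195.down) <|
    PtI.trans (pcI rfl rfl w196.down) <|
    PtI.trans (pcI rfl rfl w197.down) <|
    PtI.trans (pcI rfl rfl w198.down) <|
    PtI.trans (pcI rfl rfl w199.down) <|
    PtI.trans (pcI rfl rfl w200.down) <|
    PtI.trans (pcI rfl rfl w201.down) <|
    PtI.trans (pcI rfl rfl w202.down) <|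
    PtI.trans (pcI rfl rfl w203.down) <|
    PtI.trans (pcI rfl rfl w204.down) <|
    PtI.trans (pcI rfl rfl w205.down) <|
    PtI.trans (pcI rfl rfl w206.down) <|
    PtI.trans (pcI rfl rfl w207.down) <|
    PtI.trans (pcI rfl rfl w208.down) <|
    PtI.trans (pcI rfl rfl w209.down) <|
    PtI.trans (pcI rfl rfl w210.down) <|
    PtI.trans (pcI rfl rfl w211.down) <|
    PtI.trans (pcI rfl rfl w212.down) <|
    PtI.trans (pcI rfl rfl w213.down) <|
    PtI.trans (pcI rfl rfl w214.down) <|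
    PtI.trans (pcI rfl rfl w215.down) <|
    PtI.trans (pcI rfl rfl w216.down) <|
    PtI.trans (pcI rfl rfl w217.down) <|
    PtI.trans (pcI rfl rfl w218.down) <|
    PtI.trans (pcI rfl rfl w219.down) <|
    PtI.trans (pcI rfl rfl w220.down) <|
    PtI.trans (pcI rfl rfl w221.down) <|
    PtI.trans (pcI rfl rfl w222.down) <|
    PtI.trans (pcI rfl rfl w223.down) <|
    PtI.trans (pcI rfl rfl w224.down) <|
    PtI.trans (pcI rfl rfl w225.down) <|
    PtI.trans (pcI rfl rfl w226.down) <|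
    PtI.trans (pcI rfl rfl w227.down) <|
    PtI.trans (pcI rfl rfl w228.down) <|
    PtI.trans (pcI rfl rfl w229.down) <|
    PtI.trans (pcI rfl rfl w230.down) <|
    PtI.trans (pcI rfl rfl w231.down) <|
    PtI.trans (pcI rfl rfl w232.down) <|
    PtI.trans (pcI rfl rfl w233.down) <|
    PtI.trans (pcI rfl rfl w234.down) <|
    PtI.trans (pcI rfl rfl w235.down) <|
    PtI.trans (pcI rfl rfl w236.down) <|
    PtI.trans (pcI rfl rfl w237.down) <|
    PtI.trans (pcI rfl rfl w238.down) <|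
    PtI.trans (pcI rfl rfl w239.down) <|
    PtI.trans (pcI rfl rfl w240.down) <|
    PtI.trans (pcI rfl rfl w241.down) <|
    PtI.trans (pcI rfl rfl w242.down) <|
    PtI.trans (pcI rfl rfl w243.down) <|
    PtI.trans (pcI rfl rfl w244.down) <|
    PtI.trans (pcI rfl rfl w245.down) <|
    PtI.trans (pcI rfl rfl w246.down) <|
    PtI.trans (pcI rfl rfl w247.down) <|
    PtI.trans (pcI rfl rfl w248.down) <|
    PtI.trans (pcI rfl rfl w249.down) <|
    PtI.trans (pcI rfl rfl w250.down) <|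
    PtI.trans (pcI rfl rfl w251.down) <|
    PtI.trans (pcI rfl rfl w252.down) <|
    PtI.trans (pcI rfl rfl w253.down) <|
    PtI.trans (pcI rfl rfl w254.down) <|
    PtI.trans (pcI rfl rfl w255.down) <|
    PtI.trans (pcI rfl rfl w256.down) <|
    PtI.trans (pcI rfl rfl w257.down) <|
    PtI.trans (pcI rfl rfl w258.down) <|
    PtI.trans (pcI rfl rfl w259.down) <|
    PtI.trans (pcI rfl rfl w260.down) <|
    PtI.trans (pcI rfl rfl w261.down) <|
    PtI.trans (pcI rfl rfl w262.down) <|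
    PtI.trans (pcI rfl rfl w263.down) <|
    PtI.trans (pcI rfl rfl w264.down) <|
    PtI.trans (pcI rfl rfl w265.down) <|
    PtI.trans (pcI rfl rfl w266.down) <|
    PtI.trans (pcI rfl rfl w267.down) <|
    PtI.trans (pcI rfl rfl w268.down) <|
    PtI.trans (pcI rfl rfl w269.down) <|
    PtI.trans (pcI rfl rfl w270.down) <|
    PtI.trans (pcI rfl rfl w271.down) <|
    PtI.trans (pcI rfl rfl w272.down) <|
    PtI.trans (pcI rfl rfl w273.down) <|
    PtI.trans (pcI rfl rfl w274.down) <|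
    PtI.trans (pcI rfl rfl w275.down) <|
    PtI.trans (pcI rfl rfl w276.down) <|
    PtI.trans (pcI rfl rfl w277.down) <|
    PtI.trans (pcI rfl rfl w278.down) <|
    PtI.trans (pcI rfl rfl w279.down) <|
    PtI.trans (pcI rfl rfl w280.down) <|
    PtI.trans (pcI rfl rfl w281.down) <|
    PtI.trans (pcI rfl rfl w282.down) <|
    PtI.trans (pcI rfl rfl w283.down) <|
    PtI.trans (pcI rfl rfl w284.down) <|
    PtI.trans (pcI rfl rfl w285.down) <|
    PtI.trans (pcI rfl rfl w286.down) <|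
    PtI.trans (pcI rfl rfl w287.down) <|
    PtI.trans (pcI rfl rfl w288.down) <|
    PtI.trans (pcI rfl rfl w289.down) <|
    PtI.trans (pcI rfl rfl w290.down) <|
    PtI.trans (pcI rfl rfl w291.down) <|
    PtI.trans (pcI rfl rfl w292.down) <|
    PtI.trans (pcI rfl rfl w293.down) <|
    PtI.trans (pcI rfl rfl w294.down) <|
    PtI.trans (pcI rfl rfl w295.down) <|
    PtI.trans (pcI rfl rfl w296.down) <|
    PtI.trans (pcI rfl rfl w297.down) <|
    PtI.trans (pcI rfl rfl w298.down) <|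
    PtI.trans (pcI rfl rfl w299.down) <|
    PtI.trans (pcI rfl rfl w300.down) <|
    PtI.trans (pcI rfl rfl w301.down) <|
    PtI.trans (pcI rfl rfl w302.down) <|
    PtI.trans (pcI rfl rfl w303.down) <|
    PtI.trans (pcI rfl rfl w304.down) <|
    PtI.trans (pcI rfl rfl w305.down) <|
    PtI.trans (pcI rfl rfl w306.down) <|
    PtI.trans (pcI rfl rfl w307.down) <|
    PtI.trans (pcI rfl rfl w308.down) <|
    PtI.trans (pcI rfl rfl w309.down) <|
    PtI.trans (pcI rfl rfl w310.down) <|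
    PtI.trans (pcI rfl rfl w311.down) <|
    PtI.trans (pcI rfl rfl w312.down) <|
    PtI.trans (pcI rfl rfl w313.down) <|
    PtI.trans (pcI rfl rfl w314.down) <|
    PtI.trans (pcI rfl rfl w315.down) <|
    (pcI rfl rfl w316.down))
    (by decide +kernel)

lemma ab : AB FF 10000 [] :=
  AB_node (n := 10001) rfl w0.down (
    PtI.trans (ecI w1.down ab_1) <|
    PtI.trans (ecI w2.down ab_2) <|
    PtI.trans (ecI w3.down ab_3) <|
    PtI.trans (ecI w4.down ab_4) <|
    PtI.trans (ecI w5.down ab_5) <|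
    PtI.trans (ecI w6.down ab_6) <|
    PtI.trans (ecI w7.down ab_7) <|
    PtI.trans (ecI w8.down ab_8) <|
    PtI.trans (ecI w9.down ab_9) <|
    PtI.trans (ecI w10.down ab_10) <|
    PtI.trans (ecI w11.down ab_11) <|
    PtI.trans (ecI w12.down ab_12) <|
    PtI.trans (ecI w13.down ab_13) <|
    PtI.trans (ecI w14.down ab_14) <|
    PtI.trans (ecI w15.down ab_15) <|
    PtI.trans (ecI w16.down ab_16) <|
    PtI.trans (ecI w17.down ab_17) <|
    PtI.trans (ecI w18.down ab_18) <|
    PtI.trans (ecI w19.down ab_19) <|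
    PtI.trans (pcI rfl rfl w20.down) <|
    PtI.trans (pcI rfl rfl w21.down) <|
    PtI.trans (pcI rfl rfl w22.down) <|
    PtI.trans (pcI rfl rfl w23.down) <|
    PtI.trans (pcI rfl rfl w24.down) <|
    PtI.trans (pcI rfl rfl w25.down) <|
    PtI.trans (pcI rfl rfl w26.down) <|
    PtI.trans (pcI rfl rfl w27.down) <|
    PtI.trans (pcI rfl rfl w28.down) <|
    PtI.trans (pcI rfl rfl w29.down) <|
    PtI.trans (pcI rfl rfl w30.down) <|
    PtI.trans (pcI rfl rfl w31.down) <|
    PtI.trans (pcI rfl rfl w32.down) <|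
    PtI.trans (pcI rfl rfl w33.down) <|
    PtI.trans (pcI rfl rfl w34.down) <|
    PtI.trans (pcI rfl rfl w35.down) <|
    PtI.trans (pcI rfl rfl w36.down) <|
    PtI.trans (pcI rfl rfl w37.down) <|
    PtI.trans (pcI rfl rfl w38.down) <|
    PtI.trans (pcI rfl rfl w39.down) <|
    PtI.trans (pcI rfl rfl w40.down) <|
    PtI.trans (pcI rfl rfl w41.down) <|
    PtI.trans (pcI rfl rfl w42.down) <|
    PtI.trans (pcI rfl rfl w43.down) <|
    PtI.trans (pcI rfl rfl w44.down) <|
    PtI.trans (pcI rfl rfl w45.down) <|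
    PtI.trans (pcI rfl rfl w46.down) <|
    PtI.trans (pcI rfl rfl w47.down) <|
    PtI.trans (pcI rfl rfl w48.down) <|
    PtI.trans (pcI rfl rfl w49.down) <|
    PtI.trans (pcI rfl rfl w50.down) <|
    PtI.trans (pcI rfl rfl w51.down) <|
    PtI.trans (pcI rfl rfl w52.down) <|
    PtI.trans (pcI rfl rfl w53.down) <|
    PtI.trans (pcI rfl rfl w54.down) <|
    PtI.trans (pcI rfl rfl w55.down) <|
    PtI.trans (pcI rfl rfl w56.down) <|
    PtI.trans (pcI rfl rfl w57.down) <|
    PtI.trans (pcI rfl rfl w58.down) <|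
    PtI.trans (pcI rfl rfl w59.down) <|
    PtI.trans (pcI rfl rfl w60.down) <|
    PtI.trans (pcI rfl rfl w61.down) <|
    PtI.trans (pcI rfl rfl w62.down) <|
    PtI.trans (pcI rfl rfl w63.down) <|
    PtI.trans (pcI rfl rfl w64.down) <|
    PtI.trans (pcI rfl rfl w65.down) <|
    PtI.trans (pcI rfl rfl w66.down) <|
    PtI.trans (pcI rfl rfl w67.down) <|
    PtI.trans (pcI rfl rfl w68.down) <|
    PtI.trans (pcI rfl rfl w69.down) <|
    PtI.trans (pcI rfl rfl w70.down) <|
    PtI.trans (pcI rfl rfl w71.down) <|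
    PtI.trans (pcI rfl rfl w72.down) <|
    PtI.trans (pcI rfl rfl w73.down) <|
    PtI.trans (pcI rfl rfl w74.down) <|
    PtI.trans (pcI rfl rfl w75.down) <|
    PtI.trans (pcI rfl rfl w76.down) <|
    PtI.trans (pcI rfl rfl w77.down) <|
    PtI.trans (pcI rfl rfl w78.down) <|
    PtI.trans (pcI rfl rfl w79.down) <|
    PtI.trans (pcI rfl rfl w80.down) <|
    PtI.trans (pcI rfl rfl w81.down) <|
    PtI.trans (pcI rfl rfl w82.down) <|
    PtI.trans (pcI rfl rfl w83.down) <|
    PtI.trans (pcI rfl rfl w84.down) <|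
    PtI.trans (pcI rfl rfl w85.down) <|
    PtI.trans (pcI rfl rfl w86.down) <|
    PtI.trans (pcI rfl rfl w87.down) <|
    PtI.trans (pcI rfl rfl w88.down) <|
    PtI.trans (pcI rfl rfl w89.down) <|
    PtI.trans (pcI rfl rfl w90.down) <|
    PtI.trans (pcI rfl rfl w91.down) <|
    PtI.trans (pcI rfl rfl w92.down) <|
    PtI.trans (pcI rfl rfl w93.down) <|
    PtI.trans (pcI rfl rfl w94.down) <|
    PtI.trans (pcI rfl rfl w95.down) <|
    PtI.trans (pcI rfl rfl w96.down) <|
    PtI.trans (pcI rfl rfl w97.down) <|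
    PtI.trans (pcI rfl rfl w98.down) <|
    PtI.trans (pcI rfl rfl w99.down) <|
    PtI.trans (pcI rfl rfl w100.down) <|
    PtI.trans (pcI rfl rfl w101.down) <|
    PtI.trans (pcI rfl rfl w102.down) <|
    PtI.trans (pcI rfl rfl w103.down) <|
    PtI.trans (pcI rfl rfl w104.down) <|
    PtI.trans (pcI rfl rfl w105.down) <|
    PtI.trans (pcI rfl rfl w106.down) <|
    PtI.trans (pcI rfl rfl w107.down) <|
    PtI.trans (pcI rfl rfl w108.down) <|
    PtI.trans (pcI rfl rfl w109.down) <|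
    PtI.trans (pcI rfl rfl w110.down) <|
    PtI.trans (pcI rfl rfl w111.down) <|
    PtI.trans (pcI rfl rfl w112.down) <|
    PtI.trans (pcI rfl rfl w113.down) <|
    PtI.trans (pcI rfl rfl w114.down) <|
    PtI.trans (pcI rfl rfl w115.down) <|
    PtI.trans (pcI rfl rfl w116.down) <|
    PtI.trans (pcI rfl rfl w117.down) <|
    PtI.trans (pcI rfl rfl w118.down) <|
    PtI.trans (pcI rfl rfl w119.down) <|
    PtI.trans (pcI rfl rfl w120.down) <|
    PtI.trans (pcI rfl rfl w121.down) <|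
    PtI.trans (pcI rfl rfl w122.down) <|
    PtI.trans (pcI rfl rfl w123.down) <|
    PtI.trans (pcI rfl rfl w124.down) <|
    PtI.trans (pcI rfl rfl w125.down) <|
    PtI.trans (pcI rfl rfl w126.down) <|
    PtI.trans (pcI rfl rfl w127.down) <|
    PtI.trans (pcI rfl rfl w128.down) <|
    PtI.trans (pcI rfl rfl w129.down) <|
    PtI.trans (pcI rfl rfl w130.down) <|
    PtI.trans (pcI rfl rfl w131.down) <|
    PtI.trans (pcI rfl rfl w132.down) <|
    PtI.trans (pcI rfl rfl w133.down) <|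
    PtI.trans (pcI rfl rfl w134.down) <|
    PtI.trans (pcI rfl rfl w135.down) <|
    PtI.trans (pcI rfl rfl w136.down) <|
    PtI.trans (pcI rfl rfl w137.down) <|
    PtI.trans (pcI rfl rfl w138.down) <|
    PtI.trans (pcI rfl rfl w139.down) <|
    PtI.trans (pcI rfl rfl w140.down) <|
    PtI.trans (pcI rfl rfl w141.down) <|
    PtI.trans (pcI rfl rfl w142.down) <|
    PtI.trans (pcI rfl rfl w143.down) <|
    PtI.trans (pcI rfl rfl w144.down) <|
    PtI.trans (pcI rfl rfl w145.down) <|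
    PtI.trans (pcI rfl rfl w146.down) <|
    PtI.trans (pcI rfl rfl w147.down) <|
    PtI.trans (pcI rfl rfl w148.down) <|
    PtI.trans (pcI rfl rfl w149.down) <|
    PtI.trans (pcI rfl rfl w150.down) <|
    PtI.trans (pcI rfl rfl w151.down) <|
    PtI.trans (pcI rfl rfl w152.down) <|
    PtI.trans (pcI rfl rfl w153.down) <|
    PtI.trans (pcI rfl rfl w154.down) <|
    PtI.trans (pcI rfl rfl w155.down) <|
    PtI.trans (pcI rfl rfl w156.down) <|
    PtI.trans (pcI rfl rfl w157.down) <|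
    (pcI rfl rfl w158.down))
    (by decide +kernel)

end Pool.Agent.SU


end

section

/-!
Real quadratic fields with a small unit and class number one: the list.
-/

namespace Pool.Agent.SU

open scoped NumberField
open Pool.Agent.LibH4

/-- the squarefree `d > 1` with a solution of `x² − d y² = ±4`, `0 < y ≤ 10000`, and unique
factorisation -/
theorem small_units : {d : ℕ | 1 < d ∧ Squarefree d ∧
    (∃ x y : ℤ, 0 < y ∧ y ≤ 10000 ∧ (x ^ 2 - d * y ^ 2 = 4 ∨ x ^ 2 - d * y ^ 2 = -4)) ∧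
    UniqueFactorizationMonoid (𝓞 (KQ d))} = {d | d ∈ lU} :=
  small_units_of EL.elim_spec ab

end Pool.Agent.SU


end
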