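import Mathlib
import Pool.Agent.RQM.C118

/-! Parts: Lib_helper5.K5.KB0, Lib_helper5.K5.KB1, Lib_helper5.K5.KB4 -/

section

/-! generated: stage B -/

namespace Pool.Agent.Lib_helper5.K5

lemma stB_0 : stB (nat_lit 0) (nat_lit 2) = true := by decide +kernel

end Pool.Agent.Lib_helper5.K5


end

section

/-! generated: stage B -/

namespace Pool.Agent.Lib_helper5.K5

lemma stB_1 : stB (nat_lit 2) (nat_lit 2) = true := by decide +kernel

end Pool.Agent.Lib_helper5.K5


end

section

/-! generated: stage B -/

namespace Pool.Agent.Lib_helper5.K5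

lemma stB_4 : stB (nat_lit 8) (nat_lit 2) = true := by decide +kernel

end Pool.Agent.Lib_helper5.K5


end
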