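import Mathlib
import Pool.Agent.RQM.C118
import Pool.Agent.RQM.C12
import Pool.Agent.RQM.C121
import Pool.Agent.RQM.C122
import Pool.Agent.RQM.C123
import Pool.Agent.RQM.C124
import Pool.Agent.RQM.C125
import Pool.Agent.RQM.C40
import Pool.Agent.RQM.C43

/-! Parts: Lib_helper5.K5.KA0, Lib_helper5.K5.KA2, Lib_helper5.K5.KA3, Lib_helper5.K5.KE0, Lib_helper5.K5.KE2, Lib_helper5.K5.KE3, Lib_helper5.K5.Mem, Lib_helper5.K5.Final -/

namespace Pool.Agent.LibH4
end Pool.Agent.LibH4
namespace Pool.Agent.LibH4.KF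
end Pool.Agent.LibH4.KF
namespace Pool.Agent.LibH4.Ker
end Pool.Agent.LibH4.Ker
namespace Pool.Agent.LibH4.T6
end Pool.Agent.LibH4.T6
namespace Pool.Agent.Lib_helper5.LK
end Pool.Agent.Lib_helper5.LK

section

/-! generated: stage A -/

namespace Pool.Agent.Lib_helper5.K5

lemma stA_0 : stA (nat_lit 0) (nat_lit 0) (nat_lit 13) = true := by decide +kernel

lemma stA_1 : stA (nat_lit 1) (nat_lit 0) (nat_lit 13) = true := by decide +kernel

lemma stA_2 : stA (nat_lit 2) (nat_lit 0) (nat_lit 13) = true := by decide +kernel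

end Pool.Agent.Lib_helper5.K5


end

section

/-! generated: stage A -/

namespace Pool.Agent.Lib_helper5.K5

lemma stA_6 : stA (nat_lit 6) (nat_lit 0) (nat_lit 13) = true := by decide +kernel

lemma stA_7 : stA (nat_lit 7) (nat_lit 0) (nat_lit 13) = true := by decide +kernel

lemma stA_8 : stA (nat_lit 8) (nat_lit 0) (nat_lit 13) = true := by decide +kernel

end Pool.Agent.Lib_helper5.K5


end

section

/-! generated: stage A -/

namespace Pool.Agent.Lib_helper5.K5

lemma stA_9 : stA (nat_lit 9) (nat_lit 0) (nat_lit 13) = true := by decide +kernel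

lemma stA_10 : stA (nat_lit 10) (nat_lit 0) (nat_lit 13) = true := by decide +kernel

lemma stA_11 : stA (nat_lit 11) (nat_lit 0) (nat_lit 13) = true := by decide +kernel

lemma stA_12 : stA (nat_lit 12) (nat_lit 0) (nat_lit 13) = true := by decide +kernel

end Pool.Agent.Lib_helper5.K5


end

section

/-! generated: stage E -/

namespace Pool.Agent.Lib_helper5.K5

lemma stE_0 : stE (nat_lit 0) (nat_lit 4) = true := by decide +kernel

end Pool.Agent.Lib_helper5.K5


end

section

/-! generated: stage E -/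

namespace Pool.Agent.Lib_helper5.K5

lemma stE_2 : stE (nat_lit 8) (nat_lit 4) = true := by decide +kernel

end Pool.Agent.Lib_helper5.K5


end

section

/-! generated: stage E -/

namespace Pool.Agent.Lib_helper5.K5

lemma stE_3 : stE (nat_lit 12) (nat_lit 4) = true := by decide +kernel

end Pool.Agent.Lib_helper5.K5


end

section

/-!
The classes modulo 5 and 7.
-/

namespace Pool.Agent.Lib_helper5.K5

open Finset LK Pool.Agent.LibH4 Pool.Agent.LibH4.Ker Pool.Agent.LibH4.T6 Pool.Agent.LibH4.KF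

/-- membership of a triple -/
def memT (c : ℕ × ℕ × ℕ) (L : List (ℕ × ℕ × ℕ)) : Bool :=
  @List.rec (ℕ × ℕ × ℕ) (fun _ => Bool) false (fun x _ ih =>
    @Bool.rec (fun _ => Bool) ih true (@Bool.rec (fun _ => Bool) false
      (@Bool.rec (fun _ => Bool) false (Nat.beq x.1 c.1) (Nat.beq x.2.1 c.2.1))
      (Nat.beq x.2.2 c.2.2))) L

lemma memT_spec {c : ℕ × ℕ × ℕ} {L : List (ℕ × ℕ × ℕ)} (h : memT c L = true) : c ∈ L := by
  induction L with
  | nil => exact absurd h (by simp [memT])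
  | cons x L ih =>
    have h' : @Bool.rec (fun _ => Bool) (memT c L) true (@Bool.rec (fun _ => Bool) false
      (@Bool.rec (fun _ => Bool) false (Nat.beq x.1 c.1) (Nat.beq x.2.1 c.2.1))
      (Nat.beq x.2.2 c.2.2)) = true := h
    cases hb : (@Bool.rec (fun _ => Bool) false
      (@Bool.rec (fun _ => Bool) false (Nat.beq x.1 c.1) (Nat.beq x.2.1 c.2.1))
      (Nat.beq x.2.2 c.2.2)) with
    | false => rw [hb] at h'; simp [ih h']
    | true =>
      obtain ⟨h1, h2⟩ := boolrec_spec hb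
      obtain ⟨h3, h4⟩ := boolrec_spec h2
      have e1 := Nat.eq_of_beq_eq_true h1
      have e2 := Nat.eq_of_beq_eq_true h3
      have e3 := Nat.eq_of_beq_eq_true h4
      have : c = x := Prod.ext e3.symm (Prod.ext e2.symm e1.symm)
      simp [this]

/-- all inert classes are in the list -/
def ckD (p e : ℕ) (D : List (ℕ × ℕ × ℕ)) : Bool :=
  allR (fun a => allR (fun b => allR (fun t => withP5 p a b t fun _ _ _ _ _ _ _ d =>
    @Bool.rec (fun _ => Bool) true (memT (a, b, t) D)
      (Nat.beq (Nat.mod (Nat.pow d e) p) (Nat.sub p (nat_lit 1)))) p) p) p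

/-- all inert classes are in the list up to sign -/
def ckD' (p e : ℕ) (D : List (ℕ × ℕ × ℕ)) : Bool :=
  allR (fun a => allR (fun b => allR (fun t => withP5 p a b t fun _ _ _ _ _ _ _ d =>
    @Bool.rec (fun _ => Bool) true (@Bool.rec (fun _ => Bool)
      (memT (Nat.mod (Nat.sub p a) p, Nat.mod (Nat.sub p b) p, Nat.mod (Nat.sub p t) p) D)
      true (memT (a, b, t) D))
      (Nat.beq (Nat.mod (Nat.pow d e) p) (Nat.sub p (nat_lit 1)))) p) p) p

lemma rs_neg {p : ℕ} [NeZero p] (x : ℤ) : Nat.mod (Nat.sub p (rs p x)) p = rs p (-x) := by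
  change (p - rs p x) % p = _
  apply rs_of
  rw [Nat.cast_sub (rs_lt x).le, rs_cast]
  push_cast
  simp

lemma ckD_spec {p e : ℕ} [NeZero p] {D : List (ℕ × ℕ × ℕ)} (h : ckD p e D = true)
    {a b t : ℤ} (hi : Nat.beq (Nat.mod (Nat.pow (rs p (zd a b t)) e) p) (Nat.sub p (nat_lit 1)) =
      true) : cl p a b t ∈ D := by
  have h1 := allR_spec (allR_spec (allR_spec h (rs p a) (rs_lt a)) (rs p b) (rs_lt b))
    (rs p t) (rs_lt t)
  rw [withP5_eq, hi] at h1
  exact memT_spec h1

lemma ckD'_spec {p e : ℕ} [NeZero p] {D : List (ℕ × ℕ × ℕ)} (h : ckD' p e D = true)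
    {a b t : ℤ} (hi : Nat.beq (Nat.mod (Nat.pow (rs p (zd a b t)) e) p) (Nat.sub p (nat_lit 1)) =
      true) : cl p a b t ∈ D ∨ cl p (-a) (-b) (-t) ∈ D := by
  have h1 := allR_spec (allR_spec (allR_spec h (rs p a) (rs_lt a)) (rs p b) (rs_lt b))
    (rs p t) (rs_lt t)
  rw [withP5_eq, hi, rs_neg, rs_neg, rs_neg] at h1
  have h2 : @Bool.rec (fun _ => Bool) (memT (cl p (-a) (-b) (-t)) D) true
    (memT (cl p a b t) D) = true := h1
  cases hb : memT (cl p a b t) D with
  | false => rw [hb] at h2; exact Or.inr (memT_spec h2)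
  | true => exact Or.inl (memT_spec hb)

lemma ckD5 : ckD (nat_lit 5) (nat_lit 2) D5 = true := by decide +kernel

lemma ckD7 : ckD' (nat_lit 7) (nat_lit 3) D7 = true := by decide +kernel

lemma mem_D5 {a b t : ℤ} (S : Sys a b t) : cl 5 a b t ∈ D5 := ckD_spec ckD5 S.i5

lemma mem_D7 {a b t : ℤ} (S : Sys a b t) : cl 7 a b t ∈ D7 ∨ cl 7 (-a) (-b) (-t) ∈ D7 :=
  ckD'_spec ckD7 S.i7

end Pool.Agent.Lib_helper5.K5


end

section

/-!
The elimination for period five.
-/

namespace Pool.Agent.Lib_helper5.K5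

open LK

/-- stage A -/
lemma stageA {a b t : ℤ} (S : Sys a b t) (h7 : cl 7 a b t ∈ D7) : c455 a b t ∈ S455 := by
  have h5 := mem_D5 S
  have ha : rs 13 a < 13 := rs_lt a
  have hb : rs 13 b < 0 + 13 := by rw [zero_add]; exact rs_lt b
  have key : ∀ x : ℕ, stA x 0 13 = true → rs 13 a = x → c455 a b t ∈ S455 := by
    intro x hx e
    rw [← e] at hx
    exact stA_spec S h7 h5 hx (Nat.zero_le _) hb
  generalize e : rs 13 a = x at ha
  interval_cases x
  · exact key 0 stA_0 e
  · exact key 1 stA_1 e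
  · exact key 2 stA_2 e
  · exact key 3 stA_3 e
  · exact key 4 stA_4 e
  · exact key 5 stA_5 e
  · exact key 6 stA_6 e
  · exact key 7 stA_7 e
  · exact key 8 stA_8 e
  · exact key 9 stA_9 e
  · exact key 10 stA_10 e
  · exact key 11 stA_11 e
  · exact key 12 stA_12 e

/-- stage B -/
lemma stageB {a b t : ℤ} (S : Sys a b t) (hc : c455 a b t ∈ S455) : c7735 a b t ∈ S7735 := by
  have ha : rs 17 a < 17 := rs_lt a
  rcases Nat.lt_or_ge (rs 17 a) 2 with h0 | h0
  · exact stB_spec (lo := 0) (n := 2) S hc stB_0 (by omega) (by omega)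
  rcases Nat.lt_or_ge (rs 17 a) 4 with h1 | h1
  · exact stB_spec (lo := 2) (n := 2) S hc stB_1 (by omega) (by omega)
  rcases Nat.lt_or_ge (rs 17 a) 6 with h2 | h2
  · exact stB_spec (lo := 4) (n := 2) S hc stB_2 (by omega) (by omega)
  rcases Nat.lt_or_ge (rs 17 a) 8 with h3 | h3
  · exact stB_spec (lo := 6) (n := 2) S hc stB_3 (by omega) (by omega)
  rcases Nat.lt_or_ge (rs 17 a) 10 with h4 | h4
  · exact stB_spec (lo := 8) (n := 2) S hc stB_4 (by omega) (by omega)
  rcases Nat.lt_or_ge (rs 17 a) 12 with h5 | h5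
  · exact stB_spec (lo := 10) (n := 2) S hc stB_5 (by omega) (by omega)
  rcases Nat.lt_or_ge (rs 17 a) 14 with h6 | h6
  · exact stB_spec (lo := 12) (n := 2) S hc stB_6 (by omega) (by omega)
  rcases Nat.lt_or_ge (rs 17 a) 16 with h7 | h7
  · exact stB_spec (lo := 14) (n := 2) S hc stB_7 (by omega) (by omega)
  · exact stB_spec (lo := 16) (n := 1) S hc stB_8 (by omega) (by omega)

/-- stage D -/
lemma stageD {a b t : ℤ} (S : Sys a b t) (hc : c7735 a b t ∈ S7735) : c85085 a b t ∈ S85085 := by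
  have ha : rs 11 a < 11 := rs_lt a
  exact stD_spec (lo := 0) (n := 11) S hc stD_0 (by omega) (by omega)

/-- stage E -/
lemma stageE {a b t : ℤ} (S : Sys a b t) (hc : c85085 a b t ∈ S85085) : False := by
  have ha : rs 19 a < 19 := rs_lt a
  rcases Nat.lt_or_ge (rs 19 a) 4 with h0 | h0
  · exact stE_spec (lo := 0) (n := 4) S hc stE_0 (by omega) (by omega)
  rcases Nat.lt_or_ge (rs 19 a) 8 with h1 | h1
  · exact stE_spec (lo := 4) (n := 4) S hc stE_1 (by omega) (by omega)
  rcases Nat.lt_or_ge (rs 19 a) 12 with h2 | h2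
  · exact stE_spec (lo := 8) (n := 4) S hc stE_2 (by omega) (by omega)
  rcases Nat.lt_or_ge (rs 19 a) 16 with h3 | h3
  · exact stE_spec (lo := 12) (n := 4) S hc stE_3 (by omega) (by omega)
  · exact stE_spec (lo := 16) (n := 3) S hc stE_4 (by omega) (by omega)

lemma no_sys' {a b t : ℤ} (S : Sys a b t) (h7 : cl 7 a b t ∈ D7) : False :=
  stageE S (stageD S (stageB S (stageA S h7)))

/-- the system has no solution -/
theorem no_sys {a b t : ℤ} (S : Sys a b t) : False := by
  rcases mem_D7 S with h | h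
  · exact no_sys' S h
  · exact no_sys' S.neg h

/-- **elimination for period five** -/
theorem elim5 (a b B : ℕ) (m m' : ℤ) (h : E5.Par a b B m m') (hm2 : m % 2 = 1) (hB2 : B % 2 = 1)
    [IsDomain (QuadraticAlgebra ℤ m (B : ℤ))]
    [UniqueFactorizationMonoid (QuadraticAlgebra ℤ m (B : ℤ))] (h1 : 19 < m) (h2 : 19 < m') :
    False := by
  obtain ⟨t, S⟩ := sys_of h hm2 hB2 h1 h2
  exact no_sys S

end Pool.Agent.Lib_helper5.K5


end
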