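import Mathlib
import Pool.Agent.RQM.C120
import Pool.Agent.RQM.C41
import Pool.Agent.RQM.C48
import Pool.Agent.RQM.C55
import Pool.Agent.RQM.C58
import Pool.Agent.RQM.C59
import Pool.Agent.RQM.C61

/-! Parts: Lib_helper4.S7.Rels11, Lib_helper4.S7.G11_1, Lib_helper4.S7.G11_7 -/

namespace Pool.Agent.Lib_helper5
end Pool.Agent.Lib_helper5
namespace Pool.Agent.Lib_helper5.LK
end Pool.Agent.Lib_helper5.LK
namespace Pool.Agent.Lib_helper5.TB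
end Pool.Agent.Lib_helper5.TB

section

/-! generated: relations of a step -/

namespace Pool.Agent.LibH4.S7

open Pool.Agent.Lib_helper5 Pool.Agent.Lib_helper5.LK Pool.Agent.Lib_helper5.TB
  Pool.Agent.LibH4.Ker

/-- relation -/
def R88F11 : Rl :=
  ⟨(nat_lit 11), (nat_lit 8), (nat_lit 1), (nat_lit 11), (nat_lit 9), (nat_lit 1), (nat_lit 0), PT11, PT8, PT1, t1_88F11, t2_88F11, t3_88F11, rows_88F11, (nat_lit 1)⟩

lemma R88F11_holds {Q : ℕ} {a b c B m : ℤ} (S : Sys Q a b c B m) (hQ : 11 * 8 * 1 * 1331 ∣ Q ^ 6) :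
    Holds R88F11 a b c B m := rel_88F11 S hQ

/-- relation -/
def R616F11 : Rl :=
  ⟨(nat_lit 11), (nat_lit 7), (nat_lit 8), (nat_lit 11), (nat_lit 9), (nat_lit 5), (nat_lit 1), PT11, PT7, PT8, t1_616F11, t2_616F11, t3_616F11, rows_616F11, (nat_lit 16)⟩

lemma R616F11_holds {Q : ℕ} {a b c B m : ℤ} (S : Sys Q a b c B m) (hQ : 11 * 7 * 8 * 1331 ∣ Q ^ 6) :
    Holds R616F11 a b c B m := rel_616F11 S hQ

/-- relation -/
def R308F7 : Rl :=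
  ⟨(nat_lit 11), (nat_lit 7), (nat_lit 4), (nat_lit 7), (nat_lit 9), (nat_lit 5), (nat_lit 1), PT11, PT7, PT4, t1_308F7, t2_308F7, t3_308F7, rows_308F7, (nat_lit 4)⟩

lemma R308F7_holds {Q : ℕ} {a b c B m : ℤ} (S : Sys Q a b c B m) (hQ : 11 * 7 * 4 * 343 ∣ Q ^ 6) :
    Holds R308F7 a b c B m := rel_308F7 S hQ

/-- relation -/
def R616N13 : Rl :=
  ⟨(nat_lit 11), (nat_lit 7), (nat_lit 8), (nat_lit 13), (nat_lit 9), (nat_lit 5), (nat_lit 1), PT11, PT7, PT8, t1_616N13, t2_616N13, t3_616N13, rows_616N13, (nat_lit 16)⟩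

lemma R616N13_holds {Q : ℕ} {a b c B m : ℤ} (S : Sys Q a b c B m) (hQ : 11 * 7 * 8 * 13 ∣ Q ^ 6) :
    Holds R616N13 a b c B m := rel_616N13 S hQ

/-- relation -/
def R143N7 : Rl :=
  ⟨(nat_lit 11), (nat_lit 13), (nat_lit 1), (nat_lit 7), (nat_lit 9), (nat_lit 11), (nat_lit 0), PT11, PT13, PT1, t1_143N7, t2_143N7, t3_143N7, rows_143N7, (nat_lit 1)⟩

lemma R143N7_holds {Q : ℕ} {a b c B m : ℤ} (S : Sys Q a b c B m) (hQ : 11 * 13 * 1 * 7 ∣ Q ^ 6) :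
    Holds R143N7 a b c B m := rel_143N7 S hQ

/-- relation -/
def R143N5 : Rl :=
  ⟨(nat_lit 11), (nat_lit 13), (nat_lit 1), (nat_lit 5), (nat_lit 9), (nat_lit 11), (nat_lit 0), PT11, PT13, PT1, t1_143N5, t2_143N5, t3_143N5, rows_143N5, (nat_lit 1)⟩

lemma R143N5_holds {Q : ℕ} {a b c B m : ℤ} (S : Sys Q a b c B m) (hQ : 11 * 13 * 1 * 5 ∣ Q ^ 6) :
    Holds R143N5 a b c B m := rel_143N5 S hQ

/-- relation -/
def R572N5 : Rl :=
  ⟨(nat_lit 11), (nat_lit 13), (nat_lit 4), (nat_lit 5), (nat_lit 9), (nat_lit 11), (nat_lit 1), PT11, PT13, PT4, t1_572N5, t2_572N5, t3_572N5, rows_572N5, (nat_lit 4)⟩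

lemma R572N5_holds {Q : ℕ} {a b c B m : ℤ} (S : Sys Q a b c B m) (hQ : 11 * 13 * 4 * 5 ∣ Q ^ 6) :
    Holds R572N5 a b c B m := rel_572N5 S hQ

/-- relation -/
def R715N7 : Rl :=
  ⟨(nat_lit 11), (nat_lit 13), (nat_lit 5), (nat_lit 7), (nat_lit 9), (nat_lit 11), (nat_lit 3), PT11, PT13, PT5, t1_715N7, t2_715N7, t3_715N7, rows_715N7, (nat_lit 10)⟩

lemma R715N7_holds {Q : ℕ} {a b c B m : ℤ} (S : Sys Q a b c B m) (hQ : 11 * 13 * 5 * 7 ∣ Q ^ 6) :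
    Holds R715N7 a b c B m := rel_715N7 S hQ

/-- the relations of the step -/
def e11 : E11 :=
  ⟨R88F11, R616F11, R308F7, R616N13, R143N7, R143N5, R572N5, R715N7⟩

lemma e11_ok : E11OK e11 :=
  ⟨⟨rfl, rfl, rfl, rfl, by decide⟩,
    ⟨rfl, rfl, rfl, rfl, by decide⟩,
    ⟨rfl, rfl, rfl, rfl, by decide⟩,
    ⟨rfl, rfl, rfl, rfl, by decide⟩,
    ⟨rfl, rfl, rfl, rfl, by decide⟩,
    ⟨rfl, rfl, rfl, rfl, by decide⟩,
    ⟨rfl, rfl, rfl, rfl, by decide⟩,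
    ⟨rfl, rfl, rfl, rfl, by decide⟩,
    rfl, rfl, rfl, rfl, rfl, rfl⟩

lemma e11_holds {Q : ℕ} {a b c B m : ℤ} (S : Sys Q a b c B m) (hQ : 40040 ∣ Q) :
    E11H e11 a b c B m :=
  have h6 : 40040 ^ 6 ∣ Q ^ 6 := pow_dvd_pow_of_dvd hQ 6
  ⟨R88F11_holds S ((by decide : 11 * 8 * 1 * 1331 ∣ 40040 ^ 6).trans h6),
    R616F11_holds S ((by decide : 11 * 7 * 8 * 1331 ∣ 40040 ^ 6).trans h6),
    R308F7_holds S ((by decide : 11 * 7 * 4 * 343 ∣ 40040 ^ 6).trans h6),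
    R616N13_holds S ((by decide : 11 * 7 * 8 * 13 ∣ 40040 ^ 6).trans h6),
    R143N7_holds S ((by decide : 11 * 13 * 1 * 7 ∣ 40040 ^ 6).trans h6),
    R143N5_holds S ((by decide : 11 * 13 * 1 * 5 ∣ 40040 ^ 6).trans h6),
    R572N5_holds S ((by decide : 11 * 13 * 4 * 5 ∣ 40040 ^ 6).trans h6),
    R715N7_holds S ((by decide : 11 * 13 * 5 * 7 ∣ 40040 ^ 6).trans h6)⟩

end Pool.Agent.LibH4.S7


end

section

/-! generated: step 11, group 1 -/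

namespace Pool.Agent.LibH4.S7

theorem s11_1_0 : chk11c e11 G11 BG1 [(nat_lit 0), (nat_lit 1), (nat_lit 2), (nat_lit 3), (nat_lit 4), (nat_lit 5)] = true := by decide +kernel

theorem s11_1_1 : chk11c e11 G11 BG1 [(nat_lit 6), (nat_lit 7), (nat_lit 8), (nat_lit 9), (nat_lit 10)] = true := by decide +kernel

theorem s11_1 : ∀ x < 11, ∃ Bs, x ∈ Bs ∧ chk11c e11 G11 BG1 Bs = true := by
  intro x hx
  interval_cases x
  · exact ⟨_, by simp, s11_1_0⟩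
  · exact ⟨_, by simp, s11_1_0⟩
  · exact ⟨_, by simp, s11_1_0⟩
  · exact ⟨_, by simp, s11_1_0⟩
  · exact ⟨_, by simp, s11_1_0⟩
  · exact ⟨_, by simp, s11_1_0⟩
  · exact ⟨_, by simp, s11_1_1⟩
  · exact ⟨_, by simp, s11_1_1⟩
  · exact ⟨_, by simp, s11_1_1⟩
  · exact ⟨_, by simp, s11_1_1⟩
  · exact ⟨_, by simp, s11_1_1⟩

end Pool.Agent.LibH4.S7


end

section

/-! generated: step 11, group 7 -/

namespace Pool.Agent.LibH4.S7

theorem s11_7_0 : chk11c e11 G11 BG7 [(nat_lit 0), (nat_lit 1), (nat_lit 2), (nat_lit 3), (nat_lit 4), (nat_lit 5)] = true := by decide +kernel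

theorem s11_7_1 : chk11c e11 G11 BG7 [(nat_lit 6), (nat_lit 7), (nat_lit 8), (nat_lit 9), (nat_lit 10)] = true := by decide +kernel

theorem s11_7 : ∀ x < 11, ∃ Bs, x ∈ Bs ∧ chk11c e11 G11 BG7 Bs = true := by
  intro x hx
  interval_cases x
  · exact ⟨_, by simp, s11_7_0⟩
  · exact ⟨_, by simp, s11_7_0⟩
  · exact ⟨_, by simp, s11_7_0⟩
  · exact ⟨_, by simp, s11_7_0⟩
  · exact ⟨_, by simp, s11_7_0⟩
  · exact ⟨_, by simp, s11_7_0⟩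
  · exact ⟨_, by simp, s11_7_1⟩
  · exact ⟨_, by simp, s11_7_1⟩
  · exact ⟨_, by simp, s11_7_1⟩
  · exact ⟨_, by simp, s11_7_1⟩
  · exact ⟨_, by simp, s11_7_1⟩

end Pool.Agent.LibH4.S7


end
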