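import Mathlib
import Pool.Agent.RQM.C119
import Pool.Agent.RQM.C121
import Pool.Agent.RQM.C128
import Pool.Agent.RQM.C129

/-! Parts: Lib_helper29.P7A.Ck_5, Lib_helper5.P7.GA_3, Lib_helper5.P7.GA_7 -/

namespace Pool.Agent.Lib_helper5
end Pool.Agent.Lib_helper5
namespace Pool.Agent.Lib_helper5.LK
end Pool.Agent.Lib_helper5.LK
namespace Pool.Agent.Lib_helper5.TB
end Pool.Agent.Lib_helper5.TB

section

/-! generated: check of triples -/

namespace Pool.Agent.Lib_helper29.P7A

open Pool.Agent.Lib_helper5 Pool.Agent.Lib_helper5.LK Pool.Agent.Lib_helper5.TB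
  Pool.Agent.LibH4 Pool.Agent.LibH4.Ker Pool.Agent.LibH4.S7

theorem ck_15 : chk8 e8 AB SG K15 [nat_lit 1, nat_lit 3, nat_lit 5, nat_lit 7] = true := by
  decide +kernel

theorem ck_16 : chk8 e8 AB SG K16 [nat_lit 1, nat_lit 3, nat_lit 5, nat_lit 7] = true := by
  decide +kernel

theorem ck_17 : chk8 e8 AB SG K17 [nat_lit 1, nat_lit 3, nat_lit 5, nat_lit 7] = true := by
  decide +kernel

end Pool.Agent.Lib_helper29.P7A


end

section

/-! generated: groups of classes modulo `13` -/

namespace Pool.Agent.Lib_helper5.P7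

/-- group (1, 5) -/
theorem ga_9 : GC (nat_lit 1) (nat_lit 5) TRI_9 = true := by decide +kernel
/-- group (1, 8) -/
theorem ga_10 : GC (nat_lit 1) (nat_lit 8) TRI_10 = true := by decide +kernel
/-- group (1, 12) -/
theorem ga_11 : GC (nat_lit 1) (nat_lit 12) TRI_11 = true := by decide +kernel

end Pool.Agent.Lib_helper5.P7


end

section

/-! generated: groups of classes modulo `13` -/

namespace Pool.Agent.Lib_helper5.P7

/-- group (3, 6) -/
theorem ga_21 : GC (nat_lit 3) (nat_lit 6) TRI_21 = true := by decide +kernel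
/-- group (3, 7) -/
theorem ga_22 : GC (nat_lit 3) (nat_lit 7) TRI_22 = true := by decide +kernel
/-- group (3, 10) -/
theorem ga_23 : GC (nat_lit 3) (nat_lit 10) TRI_23 = true := by decide +kernel

end Pool.Agent.Lib_helper5.P7


end
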