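import Mathlib
import Pool.Agent.RQM.C119
import Pool.Agent.RQM.C128

/-! Parts: Lib_helper5.P7.GA_1, Lib_helper5.P7.GA_11, Lib_helper5.P7.GA_12, Lib_helper5.P7.GA_6 -/

section

/-! generated: groups of classes modulo `13` -/

namespace Pool.Agent.Lib_helper5.P7

/-- group (0, 7) -/
theorem ga_3 : GC (nat_lit 0) (nat_lit 7) TRI_3 = true := by decide +kernel
/-- group (0, 8) -/
theorem ga_4 : GC (nat_lit 0) (nat_lit 8) TRI_4 = true := by decide +kernel
/-- group (0, 11) -/
theorem ga_5 : GC (nat_lit 0) (nat_lit 11) TRI_5 = true := by decide +kernel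

end Pool.Agent.Lib_helper5.P7


end

section

/-! generated: groups of classes modulo `13` -/

namespace Pool.Agent.Lib_helper5.P7

/-- group (5, 9) -/
theorem ga_33 : GC (nat_lit 5) (nat_lit 9) TRI_33 = true := by decide +kernel
/-- group (5, 10) -/
theorem ga_34 : GC (nat_lit 5) (nat_lit 10) TRI_34 = true := by decide +kernel
/-- group (5, 11) -/
theorem ga_35 : GC (nat_lit 5) (nat_lit 11) TRI_35 = true := by decide +kernel

end Pool.Agent.Lib_helper5.P7


end

section

/-! generated: groups of classes modulo `13` -/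

namespace Pool.Agent.Lib_helper5.P7

/-- group (6, 1) -/
theorem ga_36 : GC (nat_lit 6) (nat_lit 1) TRI_36 = true := by decide +kernel
/-- group (6, 2) -/
theorem ga_37 : GC (nat_lit 6) (nat_lit 2) TRI_37 = true := by decide +kernel
/-- group (6, 3) -/
theorem ga_38 : GC (nat_lit 6) (nat_lit 3) TRI_38 = true := by decide +kernel

end Pool.Agent.Lib_helper5.P7


end

section

/-! generated: groups of classes modulo `13` -/

namespace Pool.Agent.Lib_helper5.P7

/-- group (3, 1) -/
theorem ga_18 : GC (nat_lit 3) (nat_lit 1) TRI_18 = true := by decide +kernel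
/-- group (3, 4) -/
theorem ga_19 : GC (nat_lit 3) (nat_lit 4) TRI_19 = true := by decide +kernel
/-- group (3, 5) -/
theorem ga_20 : GC (nat_lit 3) (nat_lit 5) TRI_20 = true := by decide +kernel

end Pool.Agent.Lib_helper5.P7


end
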