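import Mathlib
import Pool.Agent.RQM.C02
import Pool.Agent.RQM.C09
import Pool.Agent.RQM.C14
import Pool.Agent.RQM.C28

/-! Parts: Lib_helper4.PerOf, UP.Per -/

namespace Pool.Agent.LibH4
end Pool.Agent.LibH4
namespace Pool.Agent.Lib_helper5
end Pool.Agent.Lib_helper5

section

/-!
The period length from an odd cycle.
-/

namespace Pool.Agent.LibH4.PO

open Real Function Pool.Agent.Lib_helper5

/-- one step -/
lemma step {s : ℝ} {R S R' S' : ℤ} {c : ℕ} (hs0 : 0 ≤ s) (hS : 0 < S) (hS' : 0 < S')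
    (hR' : R' = 2 * c * S - R) (hs : s ^ 2 = (R' : ℝ) ^ 2 + 4 * S * S')
    (hred : S' < R' + S) :
    Int.fract ((s + R) / (2 * S)) = (s - R') / (2 * S) ∧
    gsh ((s + R) / (2 * S)) = (s + R') / (2 * S') := by
  have hSR : (0 : ℝ) < S := by exact_mod_cast hS
  have hSR' : (0 : ℝ) < S' := by exact_mod_cast hS'
  have hredR : (S' : ℝ) < R' + S := by exact_mod_cast hred
  have h1 : (R' : ℝ) < s := by
    apply lt_of_pow_lt_pow_left₀ 2 hs0
    rw [hs]
    have : 0 < 4 * (S : ℝ) * S' := by positivity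
    linarith
  have h2 : s < R' + 2 * S := by
    apply lt_of_pow_lt_pow_left₀ 2 (by linarith)
    rw [hs]
    nlinarith
  have h3 : s - R' ≠ 0 := by linarith
  have hf : Int.fract ((s + R) / (2 * S)) = (s - R') / (2 * S) := by
    rw [Int.fract_eq_iff]
    refine ⟨div_nonneg (by linarith) (by positivity), ?_, c, ?_⟩
    · rw [div_lt_one (by positivity)]; linarith
    · rw [← sub_div, div_eq_iff (by positivity), hR']
      push_cast
      ring
  refine ⟨hf, ?_⟩
  unfold gsh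
  rw [hf, inv_div, div_eq_div_iff h3 (by positivity)]
  linear_combination (-1) * hs

variable {m B : ℤ} {I : ℕ} {P R S : ℕ → ℤ} {c : ℕ → ℕ}

/-- the discriminant is constant along the cycle -/
lemma disc (h : OddCyc m B I P R S c) (k : ℕ) (hk : k ≤ 2 * (2 * I + 1)) :
    (R k) ^ 2 + 4 * P k * S k = B ^ 2 + 4 * m := by
  induction k with
  | zero => rw [h.RB, h.Pm, h.S1]; ring
  | succ k ih =>
    have ih' := ih (by omega)
    rw [h.hP k (by omega), h.hR k (by omega), h.hS k (by omega), ← ih']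
    ring

/-- the period length -/
theorem period_of_cyc (h : OddCyc m B I P R S c) {d : ℕ} (hd : (d : ℤ) = B ^ 2 + 4 * m)
    (h1 : 1 < d) (hsq : Squarefree d) (hB : B % 2 = 1)
    (hred : ∀ k < 2 * I + 1, S (k + 1) < R (k + 1) + S k) :
    minimalPeriod gsh (gsh (omg d)) = 2 * I + 1 := by
  set s : ℝ := √(d : ℝ) with hs
  have hirr : Irrational s := irrational_sqrt_sqfree h1 hsq
  have hs0 : 0 ≤ s := sqrt_nonneg _
  have hs2 : s ^ 2 = d := sq_sqrt (by positivity)
  have hs2' : ∀ k ≤ 2 * (2 * I + 1), s ^ 2 = (R k : ℝ) ^ 2 + 4 * P k * S k := by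
    intro k hk
    rw [hs2]
    have := disc h k hk
    rw [← hd] at this
    exact_mod_cast this.symm
  obtain ⟨x, hx⟩ : ∃ x : ℕ → ℝ, ∀ k, x k = (s + R k) / (2 * S k) := ⟨_, fun k => rfl⟩
  have hstep : ∀ k < 2 * I + 1, gsh (x k) = x (k + 1) := by
    intro k hk
    rw [hx, hx]
    refine (step hs0 (h.Spos k (by omega)) (h.Spos (k + 1) (by omega)) (h.hR k (by omega)) ?_
      (hred k hk)).2
    rw [hs2' (k + 1) (by omega), h.hP k (by omega)]
  have hiter : ∀ j ≤ 2 * I + 1, gsh^[j] (x 0) = x j := by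
    intro j hj
    induction j with
    | zero => rfl
    | succ j ih => rw [iterate_succ_apply', ih (by omega), hstep j (by omega)]
  have hxL : x (2 * I + 1) = x 0 := by
    rw [hx, hx]
    have e1 := h.perR 0 (by omega)
    have e2 := h.perS 0 (by omega)
    rw [zero_add] at e1 e2
    rw [e1, e2]
  have hper : IsPeriodicPt gsh (2 * I + 1) (x 0) := by
    show gsh^[2 * I + 1] (x 0) = x 0
    rw [hiter _ le_rfl, hxL]
  have hmin : minimalPeriod gsh (x 0) = 2 * I + 1 := by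
    have hle := hper.minimalPeriod_le (by omega)
    rcases hle.eq_or_lt with he | hlt
    · exact he
    · exfalso
      have hpos := hper.minimalPeriod_pos (by omega)
      obtain ⟨n, hn⟩ : ∃ n, n = minimalPeriod gsh (x 0) := ⟨_, rfl⟩
      rw [← hn] at hlt hpos
      have hpn : gsh^[n] (x 0) = x 0 := by rw [hn]; exact isPeriodicPt_minimalPeriod gsh (x 0)
      rw [hiter n hlt.le, hx, hx, h.S1, h.RB] at hpn
      have hSn := h.Spos n (by omega)
      have hSnR : (0 : ℝ) < S n := by exact_mod_cast hSn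
      rw [div_eq_div_iff (by positivity) (by norm_num)] at hpn
      have hlin : ((2 * R n - 2 * S n * B : ℤ) : ℝ) + s * ((2 - 2 * S n : ℤ) : ℝ) = 0 := by
        push_cast at hpn ⊢
        linear_combination hpn
      obtain ⟨e1, -⟩ := irr_lin hirr hlin
      have hS1 : S n = 1 := by linarith
      rcases Nat.even_or_odd' n with ⟨i, hi | hi⟩
      · have := h.Pone i (by omega) (by omega)
        rw [add_comm, h.hP (2 * i) (by omega), ← hi] at this
        exact this hS1
      · have := h.Pone (i + I + 1) (by omega) (by omega)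
        rw [add_comm, h.hP _ (by omega), show 2 * (i + I + 1) = n + (2 * I + 1) by omega,
          h.perS n (by omega)] at this
        exact this hS1
  -- pass from `x 0` to `gsh (omg d)`
  have hom : gsh (omg d) = x 1 := by
    have hd4 : d % 4 = 1 := by
      obtain ⟨e, he⟩ : ∃ e, B = 2 * e + 1 := ⟨B / 2, by omega⟩
      have : (d : ℤ) = 4 * (e ^ 2 + e + m) + 1 := by rw [hd, he]; ring
      omega
    have e0 : omg d = (s + 1) / 2 := by
      unfold omg
      rw [if_pos hd4, ← hs, add_comm]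
    obtain ⟨e, he⟩ : ∃ e, B = 2 * e + 1 := ⟨B / 2, by omega⟩
    have e1 := (step (R := R 0) (S := S 0) (R' := R 1) (S' := S 1) (c := c 0) hs0
      (h.Spos 0 (by omega)) (h.Spos 1 (by omega)) (h.hR 0 (by omega)) (by
        rw [hs2' 1 (by omega), h.hP 0 (by omega)]) (hred 0 (by omega))).1
    have e2 := hstep 0 (by omega)
    rw [zero_add] at e2
    rw [← e2]
    unfold gsh
    congr 1
    rw [e0, hx, h.S1, h.RB, he]
    have : ((s : ℝ) + ((2 * e + 1 : ℤ) : ℝ)) / (2 * ((1 : ℤ) : ℝ)) = (s + 1) / 2 + (e : ℤ) := by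
      push_cast; ring
    rw [this, Int.fract_add_intCast]
  rw [hom, ← hstep 0 (by omega)]
  rw [minimalPeriod_apply]
  · exact hmin
  · exact ⟨2 * I + 1, by omega, hper⟩

end Pool.Agent.LibH4.PO


end

section

/-!
A decidable test for the period length of `ω_d`.
-/

namespace Pool.Agent.UP

open scoped NumberField
open Real Function Pool.Agent.LibH4 Pool.Agent.Lib_helper5

/-- the next state -/
def nx (D t : ℤ) (p : ℤ × ℤ) : ℤ × ℤ :=
  (2 * ((p.1 + t) / (2 * p.2)) * p.2 - p.1,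
    (D - (2 * ((p.1 + t) / (2 * p.2)) * p.2 - p.1) ^ 2) / (4 * p.2))

/-- the states -/
def sta (D t B : ℤ) (k : ℕ) : ℤ × ℤ := (nx D t)^[k] (B, 1)

/-- one valid step -/
def okk (D t : ℤ) (p : ℤ × ℤ) : Bool :=
  decide (0 ≤ (p.1 + t) / (2 * p.2)) && decide (0 < p.2) && decide (0 < (nx D t p).2) &&
    decide ((nx D t p).1 ^ 2 + 4 * p.2 * (nx D t p).2 = D) &&
    decide ((nx D t p).2 < (nx D t p).1 + p.2)

/-- the test -/
def chk (d L : ℕ) (t B : ℤ) : Bool :=
  decide ((d % 4 = 1 ∧ B % 2 = 1) ∨ (d % 4 ≠ 1 ∧ B % 2 = 0)) && decide (0 < L) &&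
    (List.range L).all (fun k => okk (if d % 4 = 1 then (d : ℤ) else 4 * d) t
      (sta (if d % 4 = 1 then (d : ℤ) else 4 * d) t B k)) &&
    decide (sta (if d % 4 = 1 then (d : ℤ) else 4 * d) t B L = (B, 1)) &&
    (List.range L).all (fun k => k = 0 || decide ((sta (if d % 4 = 1 then (d : ℤ) else 4 * d) t B k).2 ≠ 1))

theorem period_of_chk {d L : ℕ} {t B : ℤ} (h : chk d L t B = true) (h1 : 1 < d)
    (hsq : Squarefree d) : minimalPeriod gsh (gsh (omg d)) = L := by
  unfold chk at h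
  simp only [Bool.and_eq_true, decide_eq_true_eq, List.all_eq_true, List.mem_range,
    Bool.or_eq_true] at h
  obtain ⟨⟨⟨⟨hpar, hL⟩, hok⟩, hend⟩, hne⟩ := h
  have hirr := irrational_sqrt_sqfree h1 hsq
  have hpos : 0 < √(d : ℝ) := sqrt_pos.2 (by positivity)
  obtain ⟨D, hDd⟩ : ∃ D : ℤ, D = if d % 4 = 1 then (d : ℤ) else 4 * d := ⟨_, rfl⟩
  rw [← hDd] at hok hend hne
  obtain ⟨s, σ, hs, hD, hω, hσ, hs0⟩ : ∃ (s : ℝ) (σ : ℤ), Irrational s ∧ s ^ 2 = D ∧
      omg d = (s + σ) / 2 ∧ (B - σ) % 2 = 0 ∧ 0 < s := by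
    by_cases h4 : d % 4 = 1
    · rw [if_pos h4] at hDd
      refine ⟨√(d : ℝ), 1, hirr, ?_, ?_, by omega, hpos⟩
      · rw [sq_sqrt (by positivity), hDd]; push_cast; rfl
      · unfold omg; rw [if_pos h4]; push_cast; ring
    · rw [if_neg h4] at hDd
      refine ⟨2 * √(d : ℝ), 0, ?_, ?_, ?_, by omega, by positivity⟩
      · have := hirr.natCast_mul (m := 2) (by norm_num)
        exact_mod_cast this
      · rw [mul_pow, sq_sqrt (by positivity), hDd]; push_cast; ring
      · unfold omg; rw [if_neg h4]; push_cast; ring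
  obtain ⟨R, hR⟩ : ∃ R : ℕ → ℤ, ∀ k, R k = (sta D t B k).1 := ⟨_, fun k => rfl⟩
  obtain ⟨S, hS⟩ : ∃ S : ℕ → ℤ, ∀ k, S k = (sta D t B k).2 := ⟨_, fun k => rfl⟩
  have hnx : ∀ k, sta D t B (k + 1) = nx D t (sta D t B k) := by
    intro k
    unfold sta
    rw [iterate_succ_apply']
  have hokk : ∀ k < L, ∃ c : ℕ, 0 < S k ∧ 0 < S (k + 1) ∧ R (k + 1) = 2 * c * S k - R k ∧
      R (k + 1) ^ 2 + 4 * S k * S (k + 1) = D ∧ S (k + 1) < R (k + 1) + S k := by
    intro k hk
    have h1 := hok k hk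
    unfold okk at h1
    simp only [Bool.and_eq_true, decide_eq_true_eq] at h1
    obtain ⟨⟨⟨⟨h2, h3⟩, h4⟩, h5⟩, h6⟩ := h1
    obtain ⟨c, hc⟩ := Int.eq_ofNat_of_zero_le h2
    refine ⟨c, ?_⟩
    rw [hR, hR, hS, hS, hnx]
    refine ⟨h3, h4, ?_, h5, h6⟩
    unfold nx
    rw [hc]
  obtain ⟨x, hx⟩ : ∃ x : ℕ → ℝ, ∀ k, x k = (s + R k) / (2 * S k) := ⟨_, fun k => rfl⟩
  have hR0 : R 0 = B := by rw [hR]; rfl
  have hS0 : S 0 = 1 := by rw [hS]; rfl
  have hRL : R L = B := by rw [hR, hend]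
  have hSL : S L = 1 := by rw [hS, hend]
  have hst : ∀ k < L, Int.fract (x k) = (s - R (k + 1)) / (2 * S k) ∧ gsh (x k) = x (k + 1) := by
    intro k hk
    obtain ⟨c, a1, a2, a3, a4, a5⟩ := hokk k hk
    rw [hx, hx]
    exact PO.step hs0.le a1 a2 a3 (by rw [hD, ← a4]; push_cast; ring) a5
  have hiter : ∀ j ≤ L, gsh^[j] (x 0) = x j := by
    intro j hj
    induction j with
    | zero => rfl
    | succ j ih => rw [iterate_succ_apply', ih (by omega), (hst j (by omega)).2]
  have hxL : x L = x 0 := by rw [hx, hx, hRL, hSL, hR0, hS0]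
  have hper : IsPeriodicPt gsh L (x 0) := by
    show gsh^[L] (x 0) = x 0
    rw [hiter _ le_rfl, hxL]
  have hmin : minimalPeriod gsh (x 0) = L := by
    have hle := hper.minimalPeriod_le hL
    rcases hle.eq_or_lt with he | hlt
    · exact he
    · exfalso
      have hpos := hper.minimalPeriod_pos hL
      obtain ⟨n, hn⟩ : ∃ n, n = minimalPeriod gsh (x 0) := ⟨_, rfl⟩
      rw [← hn] at hlt hpos
      have hpn : gsh^[n] (x 0) = x 0 := by rw [hn]; exact isPeriodicPt_minimalPeriod gsh (x 0)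
      rw [hiter n hlt.le, hx, hx, hS0, hR0] at hpn
      obtain ⟨-, hSn, -⟩ := hokk n hlt
      have hSnR : (0 : ℝ) < S n := by exact_mod_cast hSn
      rw [div_eq_div_iff (by positivity) (by norm_num)] at hpn
      have hlin : ((2 * R n - 2 * S n * B : ℤ) : ℝ) + s * ((2 - 2 * S n : ℤ) : ℝ) = 0 := by
        push_cast at hpn ⊢
        linear_combination hpn
      obtain ⟨e1, -⟩ := irr_lin hs hlin
      have hS1 : S n = 1 := by linarith
      rcases hne n hlt with h0 | h0
      · omega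
      · rw [← hS] at h0
        exact h0 hS1
  have hom : gsh (omg d) = x 1 := by
    obtain ⟨e, he⟩ : ∃ e, B = 2 * e + σ := ⟨(B - σ) / 2, by omega⟩
    have e2 := (hst 0 hL).2
    rw [zero_add] at e2
    rw [← e2]
    unfold gsh
    congr 1
    rw [hω, hx, hS0, hR0, he]
    have : ((s : ℝ) + ((2 * e + σ : ℤ) : ℝ)) / (2 * ((1 : ℤ) : ℝ)) = (s + σ) / 2 + (e : ℤ) := by
      push_cast; ring
    rw [this, Int.fract_add_intCast]
  have e1 := (hst 0 hL).2
  rw [zero_add] at e1
  rw [hom, ← e1, minimalPeriod_apply]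
  · exact hmin
  · exact ⟨L, hL, hper⟩


end Pool.Agent.UP


end
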