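import Mathlib
import Pool.Agent.RQM.C02
import Pool.Agent.RQM.C04
import Pool.Agent.RQM.C06
import Pool.Agent.RQM.C09
import Pool.Agent.RQM.C10
import Pool.Agent.RQM.C11
import Pool.Agent.RQM.C15
import Pool.Agent.RQM.C28
import Pool.Agent.RQM.C39
import Pool.Agent.RQM.C43
import Pool.Agent.RQM.C44

/-! Parts: Lib_helper4.P4Small, Lib_helper4.P4Fields, P4G.Hens, P4G.Ident, P4G.CC, P4G.Fams -/

namespace Pool.Agent.LibH4
end Pool.Agent.LibH4
namespace Pool.Agent.LibH4.FA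
end Pool.Agent.LibH4.FA
namespace Pool.Agent.Lib_helper5
end Pool.Agent.Lib_helper5
namespace Pool.Agent.Lib_helper5.CG
end Pool.Agent.Lib_helper5.CG
namespace Pool.Agent.Lib_helper5.RDF
end Pool.Agent.Lib_helper5.RDF
namespace Pool.Agent.RDF
end Pool.Agent.RDF

section

/-!
Period four: norms of elements, small cases.
-/

namespace Pool.Agent.LibH4.P4

open Finset (range)
open Pool.Agent.LibH4 Pool.Agent.LibH4.FA Pool.Agent.Lib_helper5 Pool.Agent.Lib_helper5.CG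

section
variable {m B : ℤ} {K : ℕ} {P R S : ℕ → ℤ} {c : ℕ → ℕ}

/-- every element of nonzero norm is represented, up to a unit, on one of the edges -/
theorem even_repr (hm : 0 < m) (h : CycM m B K P R S c) (J : ℕ) (hK : K = 2 * J) (hJ : 0 < J)
    (hcl : rho m B c K = rho m B c (K + 1) * om m B)
    (β : QuadraticAlgebra ℤ m B) (n : ℕ) (hn : n ≠ 0) (hβ : β.norm.natAbs = n) :
    ∃ k < K, ∃ x y : ℕ, 1 ≤ x ∧ y < c k * x ∧
      P k * (x : ℤ) ^ 2 + R k * x * y - S k * (y : ℤ) ^ 2 = n := by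
  obtain ⟨u, hu⟩ := isUnit_u h J hK
  have hu1 : 0 < s1 hm (u : QuadraticAlgebra ℤ m B) := by
    rw [hu]; exact s1_rho hm h (K + 1) le_rfl
  have hsgK : sg (K + 1) = 1 := by
    rw [hK, add_comm, sg_even, sg_one]
  have hu2 : 0 < s2 hm (u : QuadraticAlgebra ℤ m B) := by
    rw [hu]
    have := (s2_rho (B := B) hm c K).2
    rwa [hsgK, one_mul] at this
  have hul : sl hm 1 (u : QuadraticAlgebra ℤ m B) < 1 := by
    have a1 := sl_chain hm h 3 (J - 1) (by omega)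
    have a2 := sl_step hm h 1 (by omega)
    rw [show 3 + 2 * (J - 1) = K + 1 by omega] at a1
    have h3 : sg 3 = 1 := by unfold sg; norm_num
    rw [h3] at a1
    rw [sg_one, rho_one] at a2
    have h4 : sl hm 1 (1 : QuadraticAlgebra ℤ m B) = 1 := by simp [sl]
    rw [hu]
    linarith
  have hom1 : 0 < s1 hm (om m B) := by
    have := s1_rho hm h 0 (by omega)
    rwa [rho_zero] at this
  have hom2 : 0 < (-1 : ℝ) * s2 hm (om m B) := by
    have := (s2_rho (B := B) hm c 0).1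
    rwa [rho_zero, sg_zero] at this
  have hone1 : 0 < s1 hm (1 : QuadraticAlgebra ℤ m B) := by simp
  have hone2 : 0 < (1 : ℝ) * s2 hm (1 : QuadraticAlgebra ℤ m B) := by simp
  have chP := Gs_chain hm h 1 J (by omega) n
  rw [show 1 + 2 * J = K + 1 by omega, sg_one, rho_one] at chP
  have chN := Gs_chain hm h 0 J (by omega) n
  rw [zero_add, ← hK, sg_zero, rho_zero] at chN
  obtain ⟨fP, nP⟩ := chP
  obtain ⟨fN, nN⟩ := chN
  have hne : s1 hm β * s2 hm β ≠ 0 := by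
    rw [← norm_eq]
    intro h0
    have h1 : β.norm = 0 := by exact_mod_cast h0
    rw [h1] at hβ
    exact hn (by simpa using hβ.symm)
  have hne1 : s1 hm β ≠ 0 := left_ne_zero_of_mul hne
  have hne2 : s2 hm β ≠ 0 := right_ne_zero_of_mul hne
  obtain ⟨β', hβ', hassoc, hne2'⟩ : ∃ β', 0 < s1 hm β' ∧ Associated β' β ∧
      s2 hm β' ≠ 0 := by
    rcases lt_or_gt_of_ne hne1 with h | h
    · refine ⟨-β, ?_, (Associated.refl β).neg_left, ?_⟩
      · rw [map_neg]; linarith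
      · rw [map_neg]; exact neg_ne_zero.mpr hne2
    · exact ⟨β, h, Associated.refl β, hne2⟩
  have hnat : ∀ γ : QuadraticAlgebra ℤ m B, Associated γ β → γ.norm.natAbs = n := by
    intro γ hγ
    have := congrArg absN (Associates.mk_eq_mk_iff_associated.mpr hγ)
    rw [absN_mk, absN_mk, hβ] at this
    exact this
  rcases lt_or_gt_of_ne hne2' with h2 | h2
  · obtain ⟨γ, hγ, hγ'⟩ := exists_in_cone hm (-1) u hu1 hu2 hul (om m B) hom1 hom2 β' hβ'
      (by linarith)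
    rw [hu, ← hcl] at hγ
    have hmem : γ ∈ Gs hm (-1) (om m B) (rho m B c K) n := ⟨hγ, hnat γ (hγ'.trans hassoc)⟩
    have h3 : (Gs hm (-1) (om m B) (rho m B c K) n).ncard ≠ 0 := by
      rw [Ne, Set.ncard_eq_zero fN, ← Ne, ← Set.nonempty_iff_ne_empty]
      exact ⟨γ, hmem⟩
    rw [nN] at h3
    obtain ⟨i, hi, hi'⟩ := Finset.exists_ne_zero_of_sum_ne_zero h3
    have hi2 : i < J := Finset.mem_range.1 hi
    obtain ⟨⟨x, y⟩, hx, hy, he⟩ :
        (edgeSet (P (0 + 2 * i)) (R (0 + 2 * i)) (S (0 + 2 * i)) (c (0 + 2 * i)) n).Nonempty :=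
      Set.nonempty_of_ncard_ne_zero hi'
    exact ⟨0 + 2 * i, by omega, x, y, hx, hy, he⟩
  · obtain ⟨γ, hγ, hγ'⟩ := exists_in_cone hm 1 u hu1 hu2 hul 1 hone1 hone2 β' hβ'
      (by linarith)
    rw [hu, mul_one] at hγ
    have hmem : γ ∈ Gs hm 1 1 (rho m B c (K + 1)) n := ⟨hγ, hnat γ (hγ'.trans hassoc)⟩
    have h3 : (Gs hm 1 1 (rho m B c (K + 1)) n).ncard ≠ 0 := by
      rw [Ne, Set.ncard_eq_zero fP, ← Ne, ← Set.nonempty_iff_ne_empty]
      exact ⟨γ, hmem⟩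
    rw [nP] at h3
    obtain ⟨i, hi, hi'⟩ := Finset.exists_ne_zero_of_sum_ne_zero h3
    have hi2 : i < J := Finset.mem_range.1 hi
    obtain ⟨⟨x, y⟩, hx, hy, he⟩ :
        (edgeSet (P (1 + 2 * i)) (R (1 + 2 * i)) (S (1 + 2 * i)) (c (1 + 2 * i)) n).Nonempty :=
      Set.nonempty_of_ncard_ne_zero hi'
    exact ⟨1 + 2 * i, by omega, x, y, hx, hy, he⟩

end

section par

variable {a b B : ℕ} {m r : ℤ}

/-- elements of norm below `m` have norm `x²` or `r x²` -/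
lemma norm_small (h : E4.Par a b B m r) {n : ℕ} (hn : n ≠ 0) (h1 : (n : ℤ) < m)
    (β : QuadraticAlgebra ℤ m (B : ℤ)) (hβ : β.norm.natAbs = n) :
    ∃ x : ℕ, (n : ℤ) = (x : ℤ) ^ 2 ∨ (n : ℤ) = r * (x : ℤ) ^ 2 := by
  have hm0 : 0 < m := by have := h.hm; omega
  have hr0 : 0 < r := by have := h.hr; omega
  have hC := E4.cyc h
  obtain ⟨k, hk, x, y, hx, hy, he⟩ := even_repr hm0 hC 2 rfl (by norm_num) (E4.closing h) β n hn hβ
  have hx' : (1 : ℤ) ≤ x := by exact_mod_cast hx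
  have hxx : (1 : ℤ) ≤ (x : ℤ) ^ 2 := by nlinarith
  rcases Nat.eq_zero_or_pos y with hy0 | hy0
  · subst hy0
    have he' : E4.P m r k * (x : ℤ) ^ 2 = n := by rw [← he]; push_cast; ring
    refine ⟨x, ?_⟩
    interval_cases k <;> simp only [E4.P] at he'
    · exfalso; nlinarith
    · left; linarith
    · exfalso; nlinarith
    · right; linarith
  · exfalso
    have hy1 : (1 : ℤ) ≤ y := by exact_mod_cast hy0
    have hyc : (y : ℤ) + 1 ≤ E4.c a b B k * x := by exact_mod_cast hy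
    interval_cases k
    · simp only [E4.P, E4.R, E4.S, E4.c] at he hyc
      have h1 : m ≤ m * (x : ℤ) ^ 2 := by nlinarith
      have h2 : 0 ≤ (y : ℤ) * (B * x - y) := mul_nonneg (by linarith) (by linarith)
      nlinarith
    · have h1 := E5.edge_gt (hC.cpos 1 (by omega)) (hC.toCyc.Ppos (k := 1) (by omega))
        (hC.Spos 1 (by omega)) (CG.hAend hC 1 (by omega)) hy1 hyc
      rw [he] at h1
      simp only [E4.S] at h1
      omega
    · simp only [E4.P, E4.R, E4.S, E4.c] at he hyc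
      have h1 : m ≤ m * (x : ℤ) ^ 2 := by nlinarith
      have h2 : 0 ≤ r * ((y : ℤ) * (b * x - y)) :=
        mul_nonneg hr0.le (mul_nonneg (by linarith) (by linarith))
      have h3 : (2 * (a : ℤ) * m - B) * x * y - r * (y : ℤ) ^ 2 = r * ((y : ℤ) * (b * x - y)) := by
        rw [← h.e2]; ring
      nlinarith
    · have h1 := E5.edge_gt (hC.cpos 3 (by omega)) (hC.toCyc.Ppos (k := 3) (by omega))
        (hC.Spos 3 (by omega)) (CG.hAend hC 3 (by omega)) hy1 hyc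
      rw [he] at h1
      simp only [E4.S] at h1
      omega

/-- primes below `m` with a root are equal to `r` -/
theorem eq_of_root (h : E4.Par a b B m r)
    [IsDomain (QuadraticAlgebra ℤ m (B : ℤ))]
    [UniqueFactorizationMonoid (QuadraticAlgebra ℤ m (B : ℤ))]
    {p : ℕ} (hp : p.Prime) (h1 : (p : ℤ) < m) (x : ℤ)
    (hx : (p : ℤ) ∣ x ^ 2 + B * x - m) : r = p := by
  obtain ⟨π, hπ⟩ := exists_norm_of_root hp hx
  obtain ⟨z, hz | hz⟩ := norm_small h hp.ne_zero h1 π hπ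
  · exfalso
    apply hp.prime.irreducible.not_isSquare
    exact ⟨z, by zify; rw [hz]; ring⟩
  · exact eq_of_prime_mul_sq hp hz.symm

/-- all parameters in terms of three positive integers -/
lemma params (h : E4.Par a b B m r) : ∃ u s : ℕ, 1 ≤ u ∧ 1 ≤ s ∧ s * a = b + u ∧
    m = (u * b + s : ℕ) ∧ r = (1 + a * u : ℕ) ∧ B = u + a * (u * b + s) := by
  have ha : (1 : ℤ) ≤ a := by exact_mod_cast h.ha
  have hb : (1 : ℤ) ≤ b := by exact_mod_cast h.hb
  have e1 := h.e1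
  have e2 := h.e2
  have hm := h.hm
  have hr := h.hr
  obtain ⟨U, hU⟩ : ∃ U : ℤ, U = B - a * m := ⟨_, rfl⟩
  obtain ⟨T, hT⟩ : ∃ T : ℤ, T = m - U * b := ⟨_, rfl⟩
  have f1 : r = 1 + a * U := by rw [hU, e1]; ring
  have hU1 : 1 ≤ U := by
    have : 0 < a * U := by rw [f1] at hr; linarith
    have := (mul_pos_iff_of_pos_left (by linarith : (0 : ℤ) < a)).1 this
    linarith
  have f2 : T * a = b + U := by
    rw [f1] at e2
    have hB : (B : ℤ) = U + a * m := by rw [hU]; ring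
    rw [hB] at e2
    rw [hT]
    linear_combination -e2
  have hT1 : 1 ≤ T := by
    have h3 : 0 < T * a := by rw [f2]; positivity
    have := (mul_pos_iff_of_pos_right (by linarith : (0 : ℤ) < a)).1 h3
    linarith
  obtain ⟨u, hu⟩ := Int.eq_ofNat_of_zero_le (by linarith : 0 ≤ U)
  obtain ⟨s, hs⟩ := Int.eq_ofNat_of_zero_le (by linarith : 0 ≤ T)
  subst hu hs
  refine ⟨u, s, by exact_mod_cast hU1, by exact_mod_cast hT1, by exact_mod_cast f2, ?_, ?_, ?_⟩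
  · push_cast; linarith
  · push_cast; linarith
  · have : (B : ℤ) = u + a * (u * b + s) := by
      have h5 : m = u * b + s := by linarith
      rw [← h5, hU]; ring
    exact_mod_cast this

end par

/-! ### The finite check -/

/-- the eight discriminants -/
def l8 : List ℕ := [69, 133, 213, 413, 717, 1077, 1397, 3053]

/-- one class of parameters -/
def tst (a b u s : ℕ) : Bool :=
  (l8.contains ((u + a * (u * b + s)) * (u + a * (u * b + s)) + 4 * (u * b + s))) ||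
  (decide ((1 + a * u) % 4 ≠ 3)) ||
  (([3, 5, 7, 11, 13, 17] : List ℕ).any fun p => decide (p < u * b + s) &&
    (decide (p ≠ 1 + a * u) && ((List.range p).any fun x =>
      decide ((x * x + (u + a * (u * b + s)) * x) % p = (u * b + s) % p))))

/-- the whole range -/
def chk : Bool :=
  (List.range 20).all fun u => (List.range 20).all fun b => (b == 0) || ((u == 0) ||
    (decide (19 < u * b) || ((List.range (20 - u * b)).all fun s => (s == 0) ||
      (decide (s * ((b + u) / s) ≠ b + u) || (decide ((b + u) / s % 2 ≠ 1) ||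
        (decide ((b + u) / s = 1) || (decide ((u * b + s) % 2 ≠ 1) ||
          tst ((b + u) / s) b u s)))))))

set_option maxRecDepth 100000 in
lemma chk_true : chk = true := by decide +kernel

lemma chk_sound {a b u s : ℕ} (ha : 1 < a) (ha2 : a % 2 = 1) (hb : 1 ≤ b) (hu : 1 ≤ u)
    (hs : 1 ≤ s) (he : s * a = b + u) (h19 : u * b + s ≤ 19) (hm2 : (u * b + s) % 2 = 1) :
    tst a b u s = true := by
  have hu20 : u < 20 := by nlinarith
  have hb20 : b < 20 := by nlinarith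
  have h3 : (b + u) / s = a := by
    rw [← he, Nat.mul_div_cancel_left _ (by omega)]
  have h := chk_true
  unfold chk at h
  rw [List.all_eq_true] at h
  have g1 := h u (List.mem_range.2 hu20)
  rw [List.all_eq_true] at g1
  have g2 := g1 b (List.mem_range.2 hb20)
  rw [Bool.or_eq_true, Bool.or_eq_true, Bool.or_eq_true, beq_iff_eq, beq_iff_eq, decide_eq_true_eq,
    List.all_eq_true] at g2
  rcases g2 with g2 | g2 | g2 | g2
  · omega
  · omega
  · omega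
  have g3 := g2 s (List.mem_range.2 (by omega))
  rw [Bool.or_eq_true, Bool.or_eq_true, Bool.or_eq_true, Bool.or_eq_true, Bool.or_eq_true,
    beq_iff_eq, decide_eq_true_eq, decide_eq_true_eq, decide_eq_true_eq, decide_eq_true_eq,
    h3] at g3
  rcases g3 with g3 | g3 | g3 | g3 | g3 | g3
  · omega
  · exact absurd he g3
  · omega
  · omega
  · omega
  · exact g3

/-- what the test means -/
lemma tst_sound {a b u s : ℕ} (ht : tst a b u s = true) {B : ℕ} {m r : ℤ}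
    (h : E4.Par a b B m r)
    [IsDomain (QuadraticAlgebra ℤ m (B : ℤ))]
    [UniqueFactorizationMonoid (QuadraticAlgebra ℤ m (B : ℤ))]
    (hm : m = (u * b + s : ℕ)) (hr : r = (1 + a * u : ℕ)) (hB : B = u + a * (u * b + s))
    (hr4 : r % 4 = 3) :
    ∃ d ∈ l8, (d : ℤ) = (B : ℤ) ^ 2 + 4 * m := by
  unfold tst at ht
  rw [Bool.or_eq_true, Bool.or_eq_true, List.contains_iff_mem, decide_eq_true_eq,
    List.any_eq_true, ← hB] at ht
  rcases ht with (ht | ht) | ⟨p, hp, ht⟩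
  · refine ⟨_, ht, ?_⟩
    rw [hm]; push_cast; ring
  · exfalso
    apply ht
    rw [hr] at hr4
    exact_mod_cast hr4
  · exfalso
    rw [Bool.and_eq_true, Bool.and_eq_true, decide_eq_true_eq, decide_eq_true_eq,
      List.any_eq_true] at ht
    obtain ⟨h1, h2, x, -, hx⟩ := ht
    rw [decide_eq_true_eq] at hx
    have hpp : p.Prime := by
      simp only [List.mem_cons, List.not_mem_nil, or_false] at hp
      rcases hp with rfl | rfl | rfl | rfl | rfl | rfl <;> norm_num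
    have h5 := eq_of_root h hpp (by rw [hm]; exact_mod_cast h1) (x : ℤ) (by
      rw [hm]
      have h3 := (Nat.modEq_iff_dvd (n := p) (a := u * b + s) (b := x * x + B * x)).1 hx.symm
      have h4 : ((x * x + B * x : ℕ) : ℤ) - ((u * b + s : ℕ) : ℤ) =
        (x : ℤ) ^ 2 + B * x - ((u * b + s : ℕ) : ℤ) := by push_cast; ring
      rw [← h4]
      exact h3)
    rw [hr] at h5
    apply h2
    exact_mod_cast h5.symm

/-- small cases -/
theorem small {a b B : ℕ} {m r : ℤ} (h : E4.Par a b B m r)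
    [IsDomain (QuadraticAlgebra ℤ m (B : ℤ))]
    [UniqueFactorizationMonoid (QuadraticAlgebra ℤ m (B : ℤ))] (ha : 1 < a) (ha2 : a % 2 = 1)
    (hm2 : m % 2 = 1) (hr4 : r % 4 = 3) (h19 : m ≤ 19) :
    ∃ d ∈ l8, (d : ℤ) = (B : ℤ) ^ 2 + 4 * m := by
  obtain ⟨u, s, hu, hs, he, hm, hr, hB⟩ := params h
  have h19' : u * b + s ≤ 19 := by rw [hm] at h19; exact_mod_cast h19
  have hm2' : (u * b + s) % 2 = 1 := by rw [hm] at hm2; exact_mod_cast hm2
  exact tst_sound (chk_sound ha ha2 h.hb hu hs he h19' hm2') h hm hr hB hr4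

/-- even `m` with odd `B` -/
theorem m_odd {a b B : ℕ} {m r : ℤ} (h : E4.Par a b B m r)
    [IsDomain (QuadraticAlgebra ℤ m (B : ℤ))]
    [UniqueFactorizationMonoid (QuadraticAlgebra ℤ m (B : ℤ))] (hB : B % 2 = 1)
    (ha : a % 4 ≠ 2) : m % 2 = 1 := by
  by_contra hc
  have hm := h.hm
  have e2 := h.e2
  rcases eq_or_lt_of_le (show (2 : ℤ) ≤ m by omega) with h2 | h2
  · obtain ⟨u, s, hu, hs, he, hm', hr, hB'⟩ := params h
    have hub : u * b + s = 2 := by rw [← h2] at hm'; exact_mod_cast hm'.symm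
    have hb := h.hb
    have h6 : 1 ≤ u * b := Nat.mul_pos hu hb
    have hs1 : s = 1 := by omega
    have hub1 : u * b = 1 := by omega
    have hu1 : u = 1 := Nat.eq_one_of_mul_eq_one_right hub1
    have hb1 : b = 1 := Nat.eq_one_of_mul_eq_one_left hub1
    subst hs1 hu1 hb1
    omega
  · have hr := eq_of_root h Nat.prime_two (by push_cast; exact h2) 0 (by
      push_cast
      omega)
    push_cast at hr
    rw [hr] at e2
    have h5 : (B : ℤ) = 2 * (a * m - b) := by linarith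
    omega

/-- even `B`: only `a = 1` is possible -/
theorem B_even {a b B : ℕ} {m r : ℤ} (h : E4.Par a b B m r)
    [IsDomain (QuadraticAlgebra ℤ m (B : ℤ))]
    [UniqueFactorizationMonoid (QuadraticAlgebra ℤ m (B : ℤ))] (hB : B % 2 = 0) : a = 1 := by
  have hm := h.hm
  have e1 := h.e1
  rcases eq_or_lt_of_le (show (2 : ℤ) ≤ m by omega) with h2 | h2
  · obtain ⟨u, s, hu, hs, he, hm', hr, hB'⟩ := params h
    have hub : u * b + s = 2 := by rw [← h2] at hm'; exact_mod_cast hm'.symm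
    have hb := h.hb
    have h6 : 1 ≤ u * b := Nat.mul_pos hu hb
    have hs1 : s = 1 := by omega
    have hub1 : u * b = 1 := by omega
    have hu1 : u = 1 := Nat.eq_one_of_mul_eq_one_right hub1
    have hb1 : b = 1 := Nat.eq_one_of_mul_eq_one_left hub1
    subst hs1 hu1 hb1
    omega
  · have hr := eq_of_root h Nat.prime_two (by push_cast; exact h2) m (by
      obtain ⟨k, hk⟩ := Nat.dvd_of_mod_eq_zero hB
      have h1 : (2 : ℤ) ∣ m * (m - 1) := (Int.even_mul_pred_self m).two_dvd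
      have h3 : m ^ 2 + (B : ℤ) * m - m = m * (m - 1) + 2 * (k * m) := by
        rw [hk]; push_cast; ring
      rw [h3]
      exact_mod_cast dvd_add h1 (Dvd.intro _ rfl))
    push_cast at hr
    rw [hr] at e1
    have h5 : (a : ℤ) * (B - m * a) = 1 := by linarith
    have h6 : (a : ℤ) ∣ 1 := Dvd.intro _ h5
    have h7 : a ∣ 1 := by exact_mod_cast h6
    exact Nat.dvd_one.1 h7

end Pool.Agent.LibH4.P4


end

section

/-!
Eight real quadratic fields with unique factorisation and period length four.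
-/

namespace Pool.Agent.LibH4.P4

open scoped NumberField
open Real Function Pool.Agent.LibH4 Pool.Agent.Lib_helper5

/-- the discriminant is constant along the cycle -/
lemma disc {a b B : ℕ} {m r : ℤ} (h : E4.Par a b B m r) (k : ℕ) (hk : k ≤ 4) :
    (E4.R a B m k) ^ 2 + 4 * E4.P m r k * E4.S m r k = (B : ℤ) ^ 2 + 4 * m := by
  have hC := E4.cyc h
  induction k with
  | zero => rw [hC.RB, hC.Pm, hC.S1]; ring
  | succ k ih =>
    have ih' := ih (by omega)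
    rw [hC.hP k (by omega), hC.hR k (by omega), hC.hS k (by omega), ← ih']
    ring

/-- period length and first partial quotient -/
theorem period_four {a b B : ℕ} {m r : ℤ} (h : E4.Par a b B m r) {d : ℕ}
    (hd : (d : ℤ) = (B : ℤ) ^ 2 + 4 * m) (h1 : 1 < d) (hsq : Squarefree d) (hB : B % 2 = 1)
    (hred : ∀ k < 4, E4.S m r (k + 1) < E4.R a B m (k + 1) + E4.S m r k) :
    minimalPeriod gsh (gsh (omg d)) = 4 ∧ ⌊gsh (omg d)⌋ = a := by
  have hC := E4.cyc h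
  have hm := h.hm
  have hr := h.hr
  set s : ℝ := √(d : ℝ) with hs
  have hirr : Irrational s := irrational_sqrt_sqfree h1 hsq
  have hs0 : 0 ≤ s := sqrt_nonneg _
  have hs2 : s ^ 2 = d := sq_sqrt (by positivity)
  have hs2' : ∀ k ≤ 4, s ^ 2 = (E4.R a B m k : ℝ) ^ 2 + 4 * E4.P m r k * E4.S m r k := by
    intro k hk
    rw [hs2]
    have := disc h k hk
    rw [← hd] at this
    exact_mod_cast this.symm
  obtain ⟨x, hx⟩ : ∃ x : ℕ → ℝ, ∀ k, x k = (s + E4.R a B m k) / (2 * E4.S m r k) :=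
    ⟨_, fun k => rfl⟩
  have hst : ∀ k < 4, Int.fract (x k) = (s - E4.R a B m (k + 1)) / (2 * E4.S m r k) ∧
      gsh (x k) = x (k + 1) := by
    intro k hk
    rw [hx, hx]
    refine PO.step hs0 (hC.Spos k (by omega)) (hC.Spos (k + 1) (by omega)) (hC.hR k (by omega)) ?_
      (hred k hk)
    rw [hs2' (k + 1) (by omega), hC.hP k (by omega)]
  have hstep : ∀ k < 4, gsh (x k) = x (k + 1) := fun k hk => (hst k hk).2
  have hiter : ∀ j ≤ 4, gsh^[j] (x 0) = x j := by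
    intro j hj
    induction j with
    | zero => rfl
    | succ j ih => rw [iterate_succ_apply', ih (by omega), hstep j (by omega)]
  have hxL : x 4 = x 0 := by
    rw [hx, hx]
    rfl
  have hper : IsPeriodicPt gsh 4 (x 0) := by
    show gsh^[4] (x 0) = x 0
    rw [hiter _ le_rfl, hxL]
  have hmin : minimalPeriod gsh (x 0) = 4 := by
    have hle := hper.minimalPeriod_le (by omega)
    rcases hle.eq_or_lt with he | hlt
    · exact he
    · exfalso
      have hpos := hper.minimalPeriod_pos (by omega)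
      obtain ⟨n, hn⟩ : ∃ n, n = minimalPeriod gsh (x 0) := ⟨_, rfl⟩
      rw [← hn] at hlt hpos
      have hpn : gsh^[n] (x 0) = x 0 := by rw [hn]; exact isPeriodicPt_minimalPeriod gsh (x 0)
      rw [hiter n hlt.le, hx, hx, hC.S1, hC.RB] at hpn
      have hSn := hC.Spos n (by omega)
      have hSnR : (0 : ℝ) < E4.S m r n := by exact_mod_cast hSn
      rw [div_eq_div_iff (by positivity) (by norm_num)] at hpn
      have hlin : ((2 * E4.R a B m n - 2 * E4.S m r n * B : ℤ) : ℝ) +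
          s * ((2 - 2 * E4.S m r n : ℤ) : ℝ) = 0 := by
        push_cast at hpn ⊢
        linear_combination hpn
      obtain ⟨e1, -⟩ := irr_lin hirr hlin
      have hS1 : E4.S m r n = 1 := by linarith
      have hn4 : n = 1 ∨ n = 2 ∨ n = 3 := by omega
      rcases hn4 with h4 | h4 | h4 <;> rw [h4] at hS1 <;> simp only [E4.S] at hS1 <;> omega
  have hd4 : d % 4 = 1 := by
    obtain ⟨e, he⟩ : ∃ e, B = 2 * e + 1 := ⟨B / 2, by omega⟩
    have : (d : ℤ) = 4 * ((e : ℤ) ^ 2 + e + m) + 1 := by rw [hd, he]; push_cast; ring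
    omega
  have hom : gsh (omg d) = x 1 := by
    have e0 : omg d = (s + 1) / 2 := by
      unfold omg
      rw [if_pos hd4, ← hs, add_comm]
    obtain ⟨e, he⟩ : ∃ e, B = 2 * e + 1 := ⟨B / 2, by omega⟩
    have e2 := hstep 0 (by omega)
    rw [zero_add] at e2
    rw [← e2]
    unfold gsh
    congr 1
    rw [e0, hx, hC.S1, hC.RB, he]
    have : ((s : ℝ) + (((2 * e + 1 : ℕ) : ℤ) : ℝ)) / (2 * ((1 : ℤ) : ℝ)) =
        (s + 1) / 2 + (e : ℤ) := by
      push_cast; ring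
    rw [this, Int.fract_add_intCast]
  refine ⟨?_, ?_⟩
  · rw [hom, ← hstep 0 (by omega)]
    rw [minimalPeriod_apply]
    · exact hmin
    · exact ⟨4, by omega, hper⟩
  · rw [hom, Int.floor_eq_iff]
    have e3 := (hst 1 (by omega)).1
    have e4 := Int.fract_nonneg (x 1)
    have e5 := Int.fract_lt_one (x 1)
    have hSR : (0 : ℝ) < E4.S m r 1 := by exact_mod_cast hC.Spos 1 (by omega)
    have e6 : x 1 = a + Int.fract (x 1) := by
      rw [e3, hx, hC.hR 1 (by omega)]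
      have hc1 : E4.c a b B 1 = a := rfl
      rw [hc1]
      push_cast
      field_simp
      ring
    constructor
    · push_cast; linarith
    · push_cast; linarith

/-- a field of the family -/
lemma field {a b B : ℕ} {m r : ℤ} {d : ℕ} (h : E4.Par a b B m r)
    (hd : (d : ℤ) = (B : ℤ) ^ 2 + 4 * m) (hB : B % 2 = 1) (h1 : 1 < d) (hsq : Squarefree d)
    (hred : ∀ k < 4, E4.S m r (k + 1) < E4.R a B m (k + 1) + E4.S m r k) (ha : (a : ℤ) % 4 ≠ 2)
    (W : List (ℕ × ℤ × ℤ)) (hW : FU.chk d W = true) :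
    (minimalPeriod gsh (gsh (omg d)) = 4 ∧ ⌊gsh (omg d)⌋ % 4 ≠ 2) ∧
      UniqueFactorizationMonoid (𝓞 (KQ d)) := by
  obtain ⟨p1, p2⟩ := period_four h hd h1 hsq hB hred
  refine ⟨⟨p1, by rw [p2]; exact ha⟩, FU.ufd_of_chk hW hsq h1⟩

/-- **the eight fields** -/
theorem fields {d : ℕ} (h : d ∈ l8) (hsq : Squarefree d) :
    (minimalPeriod gsh (gsh (omg d)) = 4 ∧ ⌊gsh (omg d)⌋ % 4 ≠ 2) ∧
      UniqueFactorizationMonoid (𝓞 (KQ d)) := by
  simp only [l8, List.mem_cons, List.not_mem_nil, or_false] at h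
  rcases h with rfl | rfl | rfl | rfl | rfl | rfl | rfl | rfl
  · exact field (a := 1) (b := 1) (B := 7) (m := 5) (r := 3) ⟨by norm_num, by norm_num,
      by norm_num, by norm_num, by norm_num, by norm_num, by norm_num⟩ (by norm_num) (by norm_num)
      (by norm_num) hsq (by decide) (by norm_num) [(3, 4, 1)] (by decide +kernel)
  · exact field (a := 3) (b := 1) (B := 11) (m := 3) (r := 7) ⟨by norm_num, by norm_num,
      by norm_num, by norm_num, by norm_num, by norm_num, by norm_num⟩ (by norm_num) (by norm_num)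
      (by norm_num) hsq (by decide) (by norm_num) [(3, 5, 1)] (by decide +kernel)
  · exact field (a := 1) (b := 3) (B := 13) (m := 11) (r := 3) ⟨by norm_num, by norm_num,
      by norm_num, by norm_num, by norm_num, by norm_num, by norm_num⟩ (by norm_num) (by norm_num)
      (by norm_num) hsq (by decide) (by norm_num) [(3, 7, 1)] (by decide +kernel)
  · exact field (a := 1) (b := 1) (B := 19) (m := 13) (r := 7) ⟨by norm_num, by norm_num,
      by norm_num, by norm_num, by norm_num, by norm_num, by norm_num⟩ (by norm_num) (by norm_num)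
      (by norm_num) hsq (by decide) (by norm_num) [(7, 10, 1)] (by decide +kernel)
  · exact field (a := 1) (b := 7) (B := 25) (m := 23) (r := 3) ⟨by norm_num, by norm_num,
      by norm_num, by norm_num, by norm_num, by norm_num, by norm_num⟩ (by norm_num) (by norm_num)
      (by norm_num) hsq (by decide) (by norm_num) [(3, 13, 1)] (by decide +kernel)
  · exact field (a := 1) (b := 9) (B := 31) (m := 29) (r := 3) ⟨by norm_num, by norm_num,
      by norm_num, by norm_num, by norm_num, by norm_num, by norm_num⟩ (by norm_num) (by norm_num)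
      (by norm_num) hsq (by decide) (by norm_num) [(3, 16, 1)] (by decide +kernel)
  · exact field (a := 5) (b := 3) (B := 37) (m := 7) (r := 11) ⟨by norm_num, by norm_num,
      by norm_num, by norm_num, by norm_num, by norm_num, by norm_num⟩ (by norm_num) (by norm_num)
      (by norm_num) hsq (by decide) (by norm_num) [(7, 18, 1), (11, 91, 5)] (by decide +kernel)
  · exact field (a := 7) (b := 1) (B := 55) (m := 7) (r := 43) ⟨by norm_num, by norm_num,
      by norm_num, by norm_num, by norm_num, by norm_num, by norm_num⟩ (by norm_num) (by norm_num)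
      (by norm_num) hsq (by decide) (by norm_num) [(7, 27, 1)] (by decide +kernel)

end Pool.Agent.LibH4.P4


end

section

/-!
Zeros of `l`-adic `L`-functions, elementary form: exponents `m` for which the half sum of
`ψ(r) r ^ m` is divisible by `l ^ v`. General odd prime `l` and periodic function `ψ`.
-/

namespace Pool.Agent.P4G

open Finset (range)
open Pool.Agent.RDF (sum_range_zmod)

/-- a full period of an odd function -/
lemma full_sum {M Q : ℕ} (hM : M % 2 = 1) (hQ : 0 < Q) (g : ℤ → ZMod M)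
    (hper : ∀ x, g (x + Q) = g x) (hodd : ∀ x, g (-x) = - g x) : ∑ r ∈ range Q, g r = 0 := by
  have : NeZero Q := ⟨hQ.ne'⟩
  have hper' : ∀ (x t : ℤ), g (x + t * Q) = g x := by
    intro x t
    induction t using Int.induction_on with
    | zero => simp
    | succ i ih =>
      rw [show x + (i + 1 : ℤ) * Q = (x + i * Q) + Q by ring, hper, ih]
    | pred i ih =>
      rw [← hper (x + (-(i : ℤ) - 1) * Q),
        show x + (-(i : ℤ) - 1) * Q + Q = x + -(i : ℤ) * Q by ring, ih]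
  have e1 : ∀ r ∈ range Q, g r = (fun x : ZMod Q => g (x.val : ℤ)) (r : ZMod Q) := by
    intro r hr
    simp only
    rw [ZMod.val_cast_of_lt (Finset.mem_range.1 hr)]
  rw [Finset.sum_congr rfl e1, sum_range_zmod (fun x : ZMod Q => g (x.val : ℤ))]
  have e2 : ∀ x : ZMod Q, g (((-x).val : ℕ) : ℤ) = - g (x.val : ℤ) := by
    intro x
    rw [← hodd]
    have h : ((((-x).val : ℕ) : ℤ) : ZMod Q) = ((-(x.val : ℤ) : ℤ) : ZMod Q) := by
      push_cast
      rw [ZMod.natCast_zmod_val, ZMod.natCast_zmod_val]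
    rw [ZMod.intCast_eq_intCast_iff_dvd_sub] at h
    obtain ⟨t, ht⟩ := h
    have : (((-x).val : ℕ) : ℤ) = -(x.val : ℤ) + (-t) * Q := by linear_combination -ht
    rw [this, hper']
  have e3 := Equiv.sum_comp (Equiv.neg (ZMod Q)) (fun x : ZMod Q => g (x.val : ℤ))
  simp only [Equiv.neg_apply, e2, Finset.sum_neg_distrib] at e3
  set S := ∑ x : ZMod Q, g (x.val : ℤ)
  have h2 : (2 : ZMod M) * S = 0 := by linear_combination -e3
  have hu : IsUnit (2 : ZMod M) := by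
    have := (ZMod.isUnit_iff_coprime 2 M).2 (Nat.coprime_two_left.2 (Nat.odd_iff.2 hM))
    exact_mod_cast this
  exact (hu.mul_right_eq_zero).1 h2

/-- half sums over multiples of the period -/
lemma half_sum {M Q : ℕ} (hM : M % 2 = 1) (hQ : Q % 2 = 1) (s : ℕ) (g : ℤ → ZMod M)
    (hper : ∀ x, g (x + Q) = g x) (hodd : ∀ x, g (-x) = - g x) :
    ∑ r ∈ range (((2 * s + 1) * Q + 1) / 2), g r = ∑ r ∈ range ((Q + 1) / 2), g r := by
  have hQ0 : 0 < Q := by omega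
  have e : ((2 * s + 1) * Q + 1) / 2 = s * Q + (Q + 1) / 2 := by
    have : (2 * s + 1) * Q + 1 = 2 * (s * Q) + (Q + 1) := by ring
    omega
  have hper' : ∀ (n : ℕ) (x : ℤ), g (x + n * Q) = g x := by
    intro n x
    induction n with
    | zero => simp
    | succ i ih =>
      rw [show x + ((i + 1 : ℕ) : ℤ) * Q = (x + i * Q) + Q by push_cast; ring, hper, ih]
  rw [e, Finset.sum_range_add]
  have f1 : ∑ r ∈ range (s * Q), g r = 0 := by
    clear e
    induction s with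
    | zero => simp
    | succ i ih =>
      rw [Nat.succ_mul, Finset.sum_range_add, ih, zero_add, ← full_sum hM hQ0 g hper hodd]
      apply Finset.sum_congr rfl
      intro r _
      rw [← hper' i r]
      congr 1
      push_cast
      ring
  rw [f1, zero_add]
  apply Finset.sum_congr rfl
  intro r _
  rw [← hper' s r]
  congr 1
  push_cast
  ring

/-- expansion of a power to the third order -/
lemma pow_three (x : ℤ) (k : ℕ) : ∃ s : ℤ, (1 + x) ^ k = 1 + k * x + (k.choose 2) * x ^ 2 + x ^ 3 * s := by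
  induction k with
  | zero => exact ⟨0, by simp⟩
  | succ k ih =>
    obtain ⟨s, hs⟩ := ih
    refine ⟨s + x * s + k.choose 2, ?_⟩
    have e : (k + 1).choose 2 = k + k.choose 2 := by
      rw [Nat.choose_succ_succ' k 1, Nat.choose_one_right]
    rw [pow_succ, hs, e]
    push_cast
    ring

section

variable {l : ℕ} (hl : l.Prime) (hl2 : l ≠ 2)

include hl hl2 in
/-- powers of `1 + l c` -/
lemma pow_l (n : ℕ) (c : ℤ) :
    (l : ℤ) ^ (n + 2) ∣ (1 + l * c) ^ (l ^ n) - (1 + (l : ℤ) ^ (n + 1) * c) := by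
  have hlo : l % 2 = 1 := by
    rcases hl.eq_two_or_odd with h | h
    · exact absurd h hl2
    · exact h
  obtain ⟨k2, hk2⟩ : ∃ k2 : ℕ, l.choose 2 = l * k2 := by
    refine ⟨(l - 1) / 2, ?_⟩
    rw [Nat.choose_two_right]
    obtain ⟨i, hi⟩ : ∃ i, l = 2 * i + 1 := ⟨l / 2, by omega⟩
    rw [hi]
    have e1 : 2 * i + 1 - 1 = i * 2 := by omega
    rw [e1, ← mul_assoc, Nat.mul_div_cancel _ (by norm_num), Nat.mul_div_cancel _ (by norm_num)]
  induction n with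
  | zero => simp
  | succ n ih =>
    obtain ⟨t, ht⟩ := ih
    have hx : (1 + l * c) ^ (l ^ n) = 1 + (l : ℤ) ^ (n + 1) * (c + l * t) := by
      have : (l : ℤ) ^ (n + 2) = l ^ (n + 1) * l := by ring
      rw [this] at ht
      linear_combination ht
    rw [pow_succ l n, pow_mul, hx]
    set y := c + l * t with hy
    obtain ⟨s, hs⟩ := pow_three ((l : ℤ) ^ (n + 1) * y) l
    rw [hs, hk2]
    obtain ⟨z, hz⟩ : ∃ z : ℤ, z = (l : ℤ) ^ n := ⟨_, rfl⟩
    refine ⟨t + z * k2 * y ^ 2 + z ^ 2 * y ^ 3 * s, ?_⟩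
    have e1 : (l : ℤ) ^ (n + 1) = l * z := by rw [hz]; ring
    have e2 : (l : ℤ) ^ (n + 1 + 1) = l ^ 2 * z := by rw [hz]; ring
    have e3 : (l : ℤ) ^ (n + 1 + 2) = l ^ 3 * z := by rw [hz]; ring
    rw [e1, e2, e3, hy]
    push_cast
    ring

/-- the Fermat quotient -/
def fq (l : ℕ) (r : ℤ) : ℤ := if (l : ℤ) ∣ r then 0 else (r ^ (l - 1) - 1) / l

include hl in
lemma fq_spec {r : ℤ} (h : ¬ (l : ℤ) ∣ r) : r ^ (l - 1) = 1 + l * fq l r := by
  unfold fq
  rw [if_neg h]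
  have hc : IsCoprime r (l : ℤ) :=
    ((Nat.prime_iff_prime_int.1 hl).coprime_iff_not_dvd.2 h).symm
  have h1 := (Int.ModEq.pow_card_sub_one_eq_one hl hc).symm.dvd
  have := Int.mul_ediv_cancel' h1
  linarith

include hl hl2 in
/-- changing the exponent -/
lemma pow_change {r : ℤ} {v m j : ℕ} (hmv : v + 2 ≤ m) :
    (l : ℤ) ^ (v + 2) ∣ r ^ (m + (l - 1) * l ^ v * j) -
      (r ^ m + (l : ℤ) ^ (v + 1) * j * (r ^ m * fq l r)) := by
  by_cases h : (l : ℤ) ∣ r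
  · have h0 : fq l r = 0 := by unfold fq; rw [if_pos h]
    rw [h0, mul_zero, mul_zero, add_zero]
    have h1 : (l : ℤ) ^ (v + 2) ∣ r ^ m := (pow_dvd_pow _ hmv).trans (pow_dvd_pow_of_dvd h m)
    apply dvd_sub _ h1
    have e : r ^ (m + (l - 1) * l ^ v * j) = r ^ m * r ^ ((l - 1) * l ^ v * j) := pow_add _ _ _
    rw [e]
    exact h1.mul_right _
  · have h1 := fq_spec hl h
    set c := fq l r
    obtain ⟨t, ht⟩ := pow_l hl hl2 v c
    have h2 : r ^ ((l - 1) * l ^ v) = 1 + (l : ℤ) ^ (v + 1) * (c + l * t) := by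
      rw [pow_mul, h1]
      have : (l : ℤ) ^ (v + 2) = l ^ (v + 1) * l := by ring
      rw [this] at ht
      linear_combination ht
    have h3 : ∃ s : ℤ, (1 + (l : ℤ) ^ (v + 1) * (c + l * t)) ^ j
        = 1 + (l : ℤ) ^ (v + 1) * (j * c) + (l : ℤ) ^ (v + 2) * s := by
      induction j with
      | zero => exact ⟨0, by simp⟩
      | succ j ih =>
        obtain ⟨s, hs⟩ := ih
        refine ⟨s + t + (l : ℤ) ^ v * (j * c * (c + l * t)) +
          (l : ℤ) ^ (v + 1) * (s * (c + l * t)), ?_⟩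
        rw [pow_succ, hs]
        push_cast
        ring
    obtain ⟨s, hs⟩ := h3
    refine ⟨r ^ m * s, ?_⟩
    rw [pow_add, pow_mul, h2, hs]
    ring

/-- the half sum -/
def Hs (l q0 : ℕ) (ψ : ℤ → ℤ) (v m : ℕ) : ℤ :=
  ∑ r ∈ range ((q0 * l ^ v + 1) / 2), ψ r * (r : ℤ) ^ m

/-- the derivative -/
def DD (l q0 : ℕ) (ψ : ℤ → ℤ) (n m : ℕ) : ℤ :=
  ∑ r ∈ range ((q0 * l ^ n + 1) / 2), ψ r * ((r : ℤ) ^ m * fq l r)

include hl hl2 in
lemma Hs_change (q0 : ℕ) (ψ : ℤ → ℤ) {v m j : ℕ} (hmv : v + 2 ≤ m) (n : ℕ) :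
    (l : ℤ) ^ (v + 2) ∣ Hs l q0 ψ n (m + (l - 1) * l ^ v * j) -
      (Hs l q0 ψ n m + (l : ℤ) ^ (v + 1) * j * DD l q0 ψ n m) := by
  unfold Hs DD
  rw [Finset.mul_sum, ← Finset.sum_add_distrib, ← Finset.sum_sub_distrib]
  apply Finset.dvd_sum
  intro r _
  have := pow_change hl hl2 (r := (r : ℤ)) (j := j) hmv
  have e : ψ r * (r : ℤ) ^ (m + (l - 1) * l ^ v * j) - (ψ r * (r : ℤ) ^ m
      + (l : ℤ) ^ (v + 1) * j * (ψ r * ((r : ℤ) ^ m * fq l r)))
      = ψ r * ((r : ℤ) ^ (m + (l - 1) * l ^ v * j) - ((r : ℤ) ^ m + (l : ℤ) ^ (v + 1) * j *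
        ((r : ℤ) ^ m * fq l r))) := by ring
  rw [e]
  exact this.mul_left _

include hl in
lemma fq_add (r : ℤ) : ((fq l (r + (l : ℤ) ^ 2) : ℤ) : ZMod l) = (fq l r : ℤ) := by
  rw [ZMod.intCast_eq_intCast_iff_dvd_sub]
  have hd : ((l : ℤ) ∣ r + (l : ℤ) ^ 2) ↔ (l : ℤ) ∣ r := by
    rw [dvd_add_left (Dvd.intro_left ((l : ℤ)) (by ring : (l : ℤ) * l = l ^ 2))]
  by_cases h : (l : ℤ) ∣ r
  · unfold fq
    rw [if_pos h, if_pos (hd.2 h)]
    simp
  · have h' : ¬ (l : ℤ) ∣ r + (l : ℤ) ^ 2 := fun h0 => h (hd.1 h0)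
    have e1 := fq_spec hl h
    have e2 := fq_spec hl h'
    obtain ⟨u, hu⟩ := sub_dvd_pow_sub_pow (r + (l : ℤ) ^ 2) r (l - 1)
    rw [e1, e2] at hu
    have hl0 : (l : ℤ) ≠ 0 := by exact_mod_cast hl.ne_zero
    refine ⟨-u, ?_⟩
    apply mul_left_cancel₀ hl0
    linear_combination -hu

include hl hl2 in
lemma fq_neg (r : ℤ) : fq l (-r) = fq l r := by
  have hev : Even (l - 1) := by
    rcases hl.eq_two_or_odd with h | h
    · exact absurd h hl2
    · rw [Nat.even_iff]; have := hl.two_le; omega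
  unfold fq
  by_cases h : (l : ℤ) ∣ r
  · rw [if_pos h, if_pos ((dvd_neg).2 h)]
  · rw [if_neg h, if_neg (fun h' => h ((dvd_neg).1 h')), hev.neg_pow]

include hl in
/-- powers depend on the exponent modulo `l - 1` -/
lemma pow_expo {m m0 : ℕ} (hm : m % (l - 1) = m0 % (l - 1)) (h0 : m ≠ 0) (h0' : m0 ≠ 0)
    (z : ZMod l) : z ^ m = z ^ m0 := by
  have : Fact l.Prime := ⟨hl⟩
  rcases eq_or_ne z 0 with rfl | hz
  · rw [zero_pow h0, zero_pow h0']
  · have h1 := ZMod.pow_card_sub_one_eq_one hz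
    rw [← Nat.div_add_mod m (l - 1), ← Nat.div_add_mod m0 (l - 1), pow_add, pow_add, pow_mul,
      pow_mul, h1, one_pow, one_pow, hm]

variable {q0 : ℕ} {ψ : ℤ → ℤ} {m0 : ℕ}

include hl in
lemma DD_expo {m : ℕ} (hm : m % (l - 1) = m0 % (l - 1)) (h0 : m ≠ 0) (h0' : m0 ≠ 0) (n : ℕ) :
    ((DD l q0 ψ n m : ℤ) : ZMod l) = (DD l q0 ψ n m0 : ℤ) := by
  unfold DD
  push_cast
  apply Finset.sum_congr rfl
  intro r _
  rw [pow_expo hl hm h0 h0']

include hl hl2 in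
lemma DD_mod (hq : q0 % 2 = 1) (hper : ∀ x, ψ (x + q0) = ψ x)
    (hodd : ∀ x, ψ (-x) * (-1) ^ m0 = - ψ x) (n : ℕ) :
    ((DD l q0 ψ (n + 2) m0 : ℤ) : ZMod l) = (DD l q0 ψ 2 m0 : ℤ) := by
  have hlo : l % 2 = 1 := by
    rcases hl.eq_two_or_odd with h | h
    · exact absurd h hl2
    · exact h
  have hperT : ∀ (t : ℕ) (x : ℤ), ψ (x + t * q0) = ψ x := by
    intro t x
    induction t with
    | zero => simp
    | succ i ih => rw [show x + ((i + 1 : ℕ) : ℤ) * q0 = (x + i * q0) + q0 by push_cast; ring,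
        hper, ih]
  let g : ℤ → ZMod l := fun r => ((ψ r * (r ^ m0 * fq l r) : ℤ) : ZMod l)
  have hfq : ∀ (n : ℕ) (x : ℤ), ((fq l (x + (l : ℤ) ^ 2 * n) : ℤ) : ZMod l) = (fq l x : ℤ) := by
    intro n x
    induction n with
    | zero => simp
    | succ n ih =>
      have e : x + (l : ℤ) ^ 2 * ((n + 1 : ℕ) : ℤ) = (x + (l : ℤ) ^ 2 * n) + (l : ℤ) ^ 2 := by
        push_cast; ring
      rw [e, fq_add hl, ih]
  have hperg : ∀ x, g (x + (q0 * l ^ 2 : ℕ)) = g x := by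
    intro x
    simp only [g]
    have e1 : ψ (x + (q0 * l ^ 2 : ℕ)) = ψ x := by
      have := hperT (l ^ 2) x
      rw [← this]
      congr 1
      push_cast
      ring
    have e3 : ((fq l (x + (q0 * l ^ 2 : ℕ)) : ℤ) : ZMod l) = (fq l x : ℤ) := by
      rw [← hfq q0 x]
      congr 3
      push_cast
      ring
    rw [e1]
    push_cast at e3 ⊢
    rw [e3, ZMod.natCast_self]
    ring
  have hoddg : ∀ x, g (-x) = - g x := by
    intro x
    simp only [g]
    rw [fq_neg hl hl2]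
    have e : ψ (-x) * ((-x) ^ m0 * fq l x) = -(ψ x * (x ^ m0 * fq l x)) := by
      have : (-x) ^ m0 = (-1) ^ m0 * x ^ m0 := by rw [← mul_pow, neg_one_mul]
      rw [this]
      linear_combination (x ^ m0 * fq l x) * hodd x
    rw [e]
    push_cast
    rfl
  obtain ⟨s, hs⟩ : ∃ s, l ^ n = 2 * s + 1 := by
    have : Odd (l ^ n) := Odd.pow (Nat.odd_iff.2 hlo)
    obtain ⟨s, hs⟩ := this
    exact ⟨s, hs⟩
  have hQ : (q0 * l ^ 2) % 2 = 1 := by
    have : Odd (q0 * l ^ 2) := Odd.mul (Nat.odd_iff.2 hq) (Odd.pow (Nat.odd_iff.2 hlo))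
    exact Nat.odd_iff.1 this
  have key := half_sum (M := l) (Q := q0 * l ^ 2) hlo hQ s g hperg hoddg
  have e1 : (2 * s + 1) * (q0 * l ^ 2) = q0 * l ^ (n + 2) := by rw [← hs]; ring
  rw [e1] at key
  have e2 : ∀ N : ℕ, ∑ r ∈ range N, g r
      = ((∑ r ∈ range N, ψ r * ((r : ℤ) ^ m0 * fq l r) : ℤ) : ZMod l) := by
    intro N
    push_cast
    apply Finset.sum_congr rfl
    intro r _
    simp only [g]
    push_cast
    rfl
  rw [e2, e2] at key
  exact key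

include hl hl2 in
lemma Hs_succ (hq : q0 % 2 = 1) (hper : ∀ x, ψ (x + q0) = ψ x)
    {v m : ℕ} (hodd : ∀ x, ψ (-x) * (-1) ^ m = - ψ x)
    (h : (l : ℤ) ^ (v + 1) ∣ Hs l q0 ψ (v + 1) m) :
    (l : ℤ) ^ (v + 1) ∣ Hs l q0 ψ (v + 2) m := by
  have hlo : l % 2 = 1 := by
    rcases hl.eq_two_or_odd with h | h
    · exact absurd h hl2
    · exact h
  have hperT : ∀ (t : ℕ) (x : ℤ), ψ (x + t * q0) = ψ x := by
    intro t x
    induction t with
    | zero => simp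
    | succ i ih => rw [show x + ((i + 1 : ℕ) : ℤ) * q0 = (x + i * q0) + q0 by push_cast; ring,
        hper, ih]
  let g : ℤ → ZMod (l ^ (v + 1)) := fun r => ((ψ r * r ^ m : ℤ) : ZMod (l ^ (v + 1)))
  have hperg : ∀ x, g (x + (q0 * l ^ (v + 1) : ℕ)) = g x := by
    intro x
    simp only [g]
    have e1 : ψ (x + (q0 * l ^ (v + 1) : ℕ)) = ψ x := by
      have := hperT (l ^ (v + 1)) x
      rw [← this]
      congr 1
      push_cast
      ring
    rw [e1]
    push_cast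
    have h0 : ((l : ZMod (l ^ (v + 1))) ^ (v + 1)) = 0 := by
      have := ZMod.natCast_self (l ^ (v + 1))
      push_cast at this
      exact this
    rw [h0, mul_zero, add_zero]
  have hoddg : ∀ x, g (-x) = - g x := by
    intro x
    simp only [g]
    have e : ψ (-x) * (-x) ^ m = -(ψ x * x ^ m) := by
      have : (-x) ^ m = (-1) ^ m * x ^ m := by rw [← mul_pow, neg_one_mul]
      rw [this]
      linear_combination (x ^ m) * hodd x
    rw [e]
    push_cast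
    rfl
  have hlp : (l ^ (v + 1)) % 2 = 1 := Nat.odd_iff.1 (Odd.pow (Nat.odd_iff.2 hlo))
  have hQ : (q0 * l ^ (v + 1)) % 2 = 1 := by
    have : Odd (q0 * l ^ (v + 1)) := Odd.mul (Nat.odd_iff.2 hq) (Odd.pow (Nat.odd_iff.2 hlo))
    exact Nat.odd_iff.1 this
  obtain ⟨s, hs⟩ : ∃ s, l = 2 * s + 1 := ⟨l / 2, by omega⟩
  have key := half_sum (M := l ^ (v + 1)) hlp hQ s g hperg hoddg
  have e1 : (2 * s + 1) * (q0 * l ^ (v + 1)) = q0 * l ^ (v + 2) := by
    rw [← hs]; ring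
  rw [e1] at key
  have e2 : ∀ N : ℕ, ∑ r ∈ range N, g r
      = ((∑ r ∈ range N, ψ r * (r : ℤ) ^ m : ℤ) : ZMod (l ^ (v + 1))) := by
    intro N
    push_cast
    apply Finset.sum_congr rfl
    intro r _
    simp only [g]
    push_cast
    rfl
  rw [e2, e2] at key
  have h1 : ((Hs l q0 ψ (v + 1) m : ℤ) : ZMod (l ^ (v + 1))) = 0 := by
    rw [ZMod.intCast_zmod_eq_zero_iff_dvd]
    push_cast
    exact h
  have h2 : ((Hs l q0 ψ (v + 2) m : ℤ) : ZMod (l ^ (v + 1))) = 0 := by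
    rw [← h1]; exact key
  rw [ZMod.intCast_zmod_eq_zero_iff_dvd] at h2
  push_cast at h2
  exact h2

include hl hl2 in
/-- **zeros of the half sums** -/
theorem exists_zero (hq : q0 % 2 = 1) (hper : ∀ x, ψ (x + q0) = ψ x) (hm0 : 2 ≤ m0)
    (hodd : ∀ x, ψ (-x) * (-1) ^ m0 = - ψ x)
    (hbase : (l : ℤ) ∣ Hs l q0 ψ 1 m0) (hD : ¬ (l : ℤ) ∣ DD l q0 ψ 2 m0) (v : ℕ) :
    ∃ m, m % (l - 1) = m0 % (l - 1) ∧ v + 2 ≤ m ∧ (l : ℤ) ^ (v + 1) ∣ Hs l q0 ψ (v + 1) m := by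
  have hlo : l % 2 = 1 := by
    rcases hl.eq_two_or_odd with h | h
    · exact absurd h hl2
    · exact h
  have hl3 : 3 ≤ l := by have := hl.two_le; omega
  have hpar : ∀ m, m % (l - 1) = m0 % (l - 1) → ∀ x, ψ (-x) * (-1) ^ m = - ψ x := by
    intro m hm x
    rw [← hodd x]
    congr 1
    have h2 : (-1 : ℤ) ^ (l - 1) = 1 := by
      have hev : Even (l - 1) := by rw [Nat.even_iff]; omega
      exact hev.neg_one_pow
    rw [← Nat.div_add_mod m (l - 1), ← Nat.div_add_mod m0 (l - 1), pow_add, pow_add, pow_mul,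
      pow_mul, h2, one_pow, one_pow, hm]
  induction v with
  | zero => exact ⟨m0, rfl, hm0, by simpa using hbase⟩
  | succ v ih =>
    obtain ⟨m, hm, hmv, hd⟩ := ih
    obtain ⟨h, hh⟩ := Hs_succ hl hl2 hq hper (hpar m hm) hd
    have hD' : ¬ (l : ℤ) ∣ DD l q0 ψ (v + 2) m := by
      intro h5
      apply hD
      rw [← ZMod.intCast_zmod_eq_zero_iff_dvd] at h5 ⊢
      rw [← DD_mod hl hl2 hq hper hodd v, ← DD_expo hl hm (by omega) (by omega)]
      exact h5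
    obtain ⟨j, hj1, hj⟩ : ∃ j : ℕ, 1 ≤ j ∧ (l : ℤ) ∣ h + j * DD l q0 ψ (v + 2) m := by
      have hc : IsCoprime (l : ℤ) (DD l q0 ψ (v + 2) m) :=
        (Nat.prime_iff_prime_int.1 hl).coprime_iff_not_dvd.2 hD'
      obtain ⟨x, y, hxy⟩ := hc
      have hl0 : (0 : ℤ) < l := by exact_mod_cast hl.pos
      refine ⟨((-h * y) % l).toNat + l, by omega, ?_⟩
      have e0 : (0 : ℤ) ≤ (-h * y) % l := Int.emod_nonneg _ hl0.ne'
      have e1 : ((((-h * y) % l).toNat + l : ℕ) : ℤ) = (-h * y) % l + l := by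
        push_cast
        rw [Int.toNat_of_nonneg e0]
      rw [e1]
      have e2 := Int.emod_add_mul_ediv (-h * y) l
      refine ⟨h * x + (1 - (-h * y) / l) * DD l q0 ψ (v + 2) m, ?_⟩
      linear_combination (-h) * hxy + DD l q0 ψ (v + 2) m * e2
    refine ⟨m + (l - 1) * l ^ v * j, ?_, ?_, ?_⟩
    · rw [show m + (l - 1) * l ^ v * j = m + (l - 1) * (l ^ v * j) by ring, Nat.add_mul_mod_self_left]
      exact hm
    · have h1 : 1 ≤ l ^ v := Nat.one_le_pow _ _ hl.pos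
      have h2 : 1 ≤ l ^ v * j := Nat.one_le_iff_ne_zero.2 (by positivity)
      have h3 : 2 ≤ (l - 1) * (l ^ v * j) := by
        calc 2 ≤ (l - 1) * 1 := by omega
          _ ≤ _ := Nat.mul_le_mul_left _ h2
      rw [mul_assoc]
      omega
    · have h1 := Hs_change hl hl2 q0 ψ (j := j) hmv (v + 2)
      obtain ⟨t, ht⟩ := hj
      have e : Hs l q0 ψ (v + 2) m + (l : ℤ) ^ (v + 1) * j * DD l q0 ψ (v + 2) m
          = (l : ℤ) ^ (v + 2) * t := by
        rw [hh]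
        have : (l : ℤ) ^ (v + 2) = l ^ (v + 1) * l := by ring
        rw [this]
        linear_combination (l : ℤ) ^ (v + 1) * ht
      rw [e] at h1
      have h2 := dvd_add h1 (Dvd.intro t rfl : (l : ℤ) ^ (v + 2) ∣ (l : ℤ) ^ (v + 2) * t)
      rw [sub_add_cancel] at h2
      exact h2

end

end Pool.Agent.P4G


end

section

/-!
The exact smoothed identity for the cycle of length four near a ghost: `a = 2`, `b = -1`, `B = -1`
modulo the period.
-/

namespace Pool.Agent.P4G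

open Finset (range)
open Pool.Agent.LibH4 Pool.Agent.LibH4.FA Pool.Agent.Lib_helper5 Pool.Agent.RDF

variable {Q : ℕ} [NeZero Q]

/-- the norm form of the ghost -/
def Nm (m x y : ZMod Q) : ZMod Q := x * y + y ^ 2 - m * x ^ 2

/-- the cone sum of the cycle, integer parameters -/
def LLz (Q : ℕ) (f : ℤ → ℤ) (a b B m r : ℤ) : ℤ :=
  (3 * XZ Q f m B 1 - B * YX Q f m B 1) + (3 * XZ Q f 1 B m - a * YX Q f 1 B m) +
  (3 * XZ Q f m (2 * a * m - B) r - b * YX Q f m (2 * a * m - B) r) +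
  (3 * XZ Q f r (2 * a * m - B) m - a * YX Q f r (2 * a * m - B) m)

omit [NeZero Q] in
lemma LL_E4 (f : ℤ → ℤ) (a b B : ℕ) (m r : ℤ) :
    LL 4 (E4.P m r) (E4.R a B m) (E4.S m r) (E4.c a b B) Q f = LLz Q f a b B m r := by
  unfold LL LLz
  rw [Finset.sum_range_succ, Finset.sum_range_succ, Finset.sum_range_succ, Finset.sum_range_succ,
    Finset.sum_range_zero, zero_add]
  rfl

lemma XZ_neg {f : ℤ → ℤ} (hper : ∀ x, f (x + Q) = f x) (P R S : ℤ) :
    XZ Q f P (-R) S = - XZ Q f P R S := by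
  rw [XZ_zmod hper, XZ_zmod hper, ← Equiv.sum_comp (Equiv.neg (ZMod Q)), ← Finset.sum_neg_distrib]
  apply Finset.sum_congr rfl
  intro x _
  rw [← Finset.sum_neg_distrib]
  apply Finset.sum_congr rfl
  intro y _
  simp only [Equiv.neg_apply]
  rw [β_neg]
  have e : ((P : ZMod Q) * (-x) ^ 2 + ((-R : ℤ) : ZMod Q) * (-x) * y - S * y ^ 2)
      = ((P : ZMod Q) * x ^ 2 + (R : ZMod Q) * x * y - S * y ^ 2) := by push_cast; ring
  rw [e]
  ring

lemma YX_neg' {f : ℤ → ℤ} (hper : ∀ x, f (x + Q) = f x) (P R S : ℤ) :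
    YX Q f P (-R) S = YX Q f P R S := by
  rw [YX_zmod hper, YX_zmod hper, ← Equiv.sum_comp (Equiv.neg (ZMod Q))]
  apply Finset.sum_congr rfl
  intro x _
  apply Finset.sum_congr rfl
  intro y _
  simp only [Equiv.neg_apply]
  rw [γ_neg]
  have e : ((P : ZMod Q) * (-x) ^ 2 + ((-R : ℤ) : ZMod Q) * (-x) * y - S * y ^ 2)
      = ((P : ZMod Q) * x ^ 2 + (R : ZMod Q) * x * y - S * y ^ 2) := by push_cast; ring
  rw [e]

lemma LLz_neg {f : ℤ → ℤ} (hper : ∀ x, f (x + Q) = f x) (a b B m r : ℤ) :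
    LLz Q f (-a) (-b) (-B) m r = - LLz Q f a b B m r := by
  unfold LLz
  have e : 2 * -a * m - -B = -(2 * a * m - B) := by ring
  rw [e, XZ_neg hper, XZ_neg hper, XZ_neg hper, XZ_neg hper, YX_neg' hper, YX_neg' hper,
    YX_neg' hper, YX_neg' hper]
  ring

/-- first change of variables -/
def eq1 : ZMod Q × ZMod Q ≃ ZMod Q × ZMod Q where
  toFun z := (z.1 + z.2, z.1)
  invFun z := (z.2, z.1 - z.2)
  left_inv z := by ext <;> simp
  right_inv z := by ext <;> simp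

/-- second change of variables -/
def eq2 : ZMod Q × ZMod Q ≃ ZMod Q × ZMod Q where
  toFun z := (-(z.1 + 2 * z.2), z.1 + z.2)
  invFun z := (z.1 + 2 * z.2, -z.1 - z.2)
  left_inv z := by ext <;> simp only <;> ring
  right_inv z := by ext <;> simp only <;> ring

/-- third change of variables -/
def eq3 : ZMod Q × ZMod Q ≃ ZMod Q × ZMod Q where
  toFun z := (-z.2, -(z.1 + 2 * z.2))
  invFun z := (2 * z.1 - z.2, -z.1)
  left_inv z := by ext <;> simp only <;> ring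
  right_inv z := by ext <;> simp only <;> ring

/-- the weighted sums of the ghost -/
def GS (Q : ℕ) [NeZero Q] (f : ℤ → ℤ) (m : ℤ) (wt : ZMod Q → ℤ) (L : ZMod Q → ZMod Q → ZMod Q) : ℤ :=
  ∑ x : ZMod Q, ∑ y : ZMod Q, fz Q f (-(Nm (m : ZMod Q) x y)) * wt (L x y)

/-- **the cone sum near the ghost** -/
theorem LLz_ghost {a b B m r : ℤ} (hr : r = 1 + B * a - m * a ^ 2)
    (ha : ((a : ℤ) : ZMod Q) = 2) (hB : ((B : ℤ) : ZMod Q) = -1)
    (f : ℤ → ℤ) (hper : ∀ x, f (x + Q) = f x) (hodd : ∀ x, f (-x) = - f x) :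
    LLz Q f a b B m r = (a - 2) * (GS Q f m γ (fun _ y => y) + GS Q f m γ (fun x y => x + y))
      - (B + 1) * GS Q f m γ (fun x _ => x) - (b + 1) * GS Q f m γ (fun x y => x + 2 * y) := by
  have hneg := fz_neg (Q := Q) hper hodd
  have f0 : fz Q f 0 = 0 := by
    have := hneg 0
    rw [neg_zero] at this
    omega
  have hr' : ((r : ℤ) : ZMod Q) = -1 - 4 * m := by
    rw [hr]
    push_cast
    rw [ha, hB]
    ring
  -- the eight sums
  have x0 : XZ Q f m B 1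
      = ∑ x : ZMod Q, ∑ y : ZMod Q, fz Q f (-(Nm (m : ZMod Q) x y)) * (β x * β y) := by
    rw [XZ_zmod hper]
    refine Finset.sum_congr rfl fun x _ => Finset.sum_congr rfl fun y _ => ?_
    congr 2
    rw [hB]
    unfold Nm
    push_cast
    ring
  have y0 : YX Q f m B 1
      = ∑ x : ZMod Q, ∑ y : ZMod Q, fz Q f (-(Nm (m : ZMod Q) x y)) * γ x := by
    rw [YX_zmod hper]
    refine Finset.sum_congr rfl fun x _ => Finset.sum_congr rfl fun y _ => ?_
    congr 2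
    rw [hB]
    unfold Nm
    push_cast
    ring
  have e1 : ∀ x y : ZMod Q, (((1 : ℤ) : ZMod Q) * (x + y) ^ 2 + (B : ZMod Q) * (x + y) * x
        - (m : ZMod Q) * x ^ 2) = Nm (m : ZMod Q) x y := by
    intro x y
    rw [hB]
    unfold Nm
    push_cast
    ring
  have x1 : XZ Q f 1 B m
      = ∑ x : ZMod Q, ∑ y : ZMod Q, fz Q f (-(Nm (m : ZMod Q) x y)) * (-(β (x + y) * β x)) := by
    rw [XZ_zmod hper, sum2_equiv eq1]
    refine Finset.sum_congr rfl fun x _ => Finset.sum_congr rfl fun y _ => ?_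
    simp only [eq1, Equiv.coe_fn_mk]
    rw [e1, hneg]
    ring
  have y1 : YX Q f 1 B m
      = ∑ x : ZMod Q, ∑ y : ZMod Q, fz Q f (-(Nm (m : ZMod Q) x y)) * (-(γ (x + y))) := by
    rw [YX_zmod hper, sum2_equiv eq1]
    refine Finset.sum_congr rfl fun x _ => Finset.sum_congr rfl fun y _ => ?_
    simp only [eq1, Equiv.coe_fn_mk]
    rw [e1, hneg]
    ring
  have e2 : ∀ x y : ZMod Q, ((m : ZMod Q) * (-(x + 2 * y)) ^ 2
        + ((2 * a * m - B : ℤ) : ZMod Q) * (-(x + 2 * y)) * (x + y)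
        - (r : ZMod Q) * (x + y) ^ 2) = -(Nm (m : ZMod Q) x y) := by
    intro x y
    push_cast
    rw [hB, ha, hr']
    unfold Nm
    ring
  have x2 : XZ Q f m (2 * a * m - B) r
      = ∑ x : ZMod Q, ∑ y : ZMod Q, fz Q f (-(Nm (m : ZMod Q) x y)) *
        (-(β (x + 2 * y) * β (x + y))) := by
    rw [XZ_zmod hper, sum2_equiv eq2]
    refine Finset.sum_congr rfl fun x _ => Finset.sum_congr rfl fun y _ => ?_
    simp only [eq2, Equiv.coe_fn_mk]
    rw [e2, β_neg]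
    ring
  have y2 : YX Q f m (2 * a * m - B) r
      = ∑ x : ZMod Q, ∑ y : ZMod Q, fz Q f (-(Nm (m : ZMod Q) x y)) * γ (x + 2 * y) := by
    rw [YX_zmod hper, sum2_equiv eq2]
    refine Finset.sum_congr rfl fun x _ => Finset.sum_congr rfl fun y _ => ?_
    simp only [eq2, Equiv.coe_fn_mk]
    rw [e2, γ_neg]
  have e3 : ∀ x y : ZMod Q, ((r : ZMod Q) * (-y) ^ 2
        + ((2 * a * m - B : ℤ) : ZMod Q) * (-y) * (-(x + 2 * y))
        - (m : ZMod Q) * (-(x + 2 * y)) ^ 2) = Nm (m : ZMod Q) x y := by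
    intro x y
    push_cast
    rw [hB, ha, hr']
    unfold Nm
    ring
  have x3 : XZ Q f r (2 * a * m - B) m
      = ∑ x : ZMod Q, ∑ y : ZMod Q, fz Q f (-(Nm (m : ZMod Q) x y)) *
        (-(β y * β (x + 2 * y))) := by
    rw [XZ_zmod hper, sum2_equiv eq3]
    refine Finset.sum_congr rfl fun x _ => Finset.sum_congr rfl fun y _ => ?_
    simp only [eq3, Equiv.coe_fn_mk]
    rw [e3, hneg, β_neg, β_neg]
    ring
  have y3 : YX Q f r (2 * a * m - B) m
      = ∑ x : ZMod Q, ∑ y : ZMod Q, fz Q f (-(Nm (m : ZMod Q) x y)) * (-(γ y)) := by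
    rw [YX_zmod hper, sum2_equiv eq3]
    refine Finset.sum_congr rfl fun x _ => Finset.sum_congr rfl fun y _ => ?_
    simp only [eq3, Equiv.coe_fn_mk]
    rw [e3, hneg, γ_neg]
    ring
  unfold LLz GS
  rw [x0, y0, x1, y1, x2, y2, x3, y3]
  rw [← sub_eq_zero]
  simp only [mul_add, Finset.mul_sum, ← Finset.sum_sub_distrib, ← Finset.sum_add_distrib]
  apply Finset.sum_eq_zero
  intro x _
  apply Finset.sum_eq_zero
  intro y _
  by_cases h : x = 0 ∧ y = 0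
  · obtain ⟨rfl, rfl⟩ := h
    have e : Nm (m : ZMod Q) (0 : ZMod Q) 0 = 0 := by unfold Nm; ring
    rw [e, neg_zero, f0]
    ring
  · have t1 := three_term h
    have h' : ¬ (x + y = 0 ∧ y = 0) := by
      rintro ⟨h1, h2⟩
      exact h ⟨by rw [h2, add_zero] at h1; exact h1, h2⟩
    have t2 := three_term h'
    have e : x + y + y = x + 2 * y := by ring
    rw [e] at t2
    linear_combination (fz Q f (-(Nm (m : ZMod Q) x y))) * t1
      + (fz Q f (-(Nm (m : ZMod Q) x y))) * t2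

/-- smoothing of a weighted sum -/
theorem GS_smooth (hQ : Q % 2 = 1) (m : ℤ) (L : ZMod Q → ZMod Q → ZMod Q)
    (hL : ∀ x y, L (2 * x) (2 * y) = 2 * L x y)
    (f : ℤ → ℤ) (hper : ∀ x, f (x + Q) = f x) :
    GS Q (fun n => 4 * f (4 * n) - f n) m γ L = 3 * Q * GS Q f m δ L := by
  unfold GS
  have hN : ∀ x y : ZMod Q, 4 * (-(Nm (m : ZMod Q) x y)) = -(Nm (m : ZMod Q) (2 * x) (2 * y)) := by
    intro x y; unfold Nm; ring
  have e1 := sum2_equiv (eqD hQ) (fun x y : ZMod Q => fz Q f (-(Nm (m : ZMod Q) x y)) * γ (L x y))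
  have e2 := sum2_equiv (eqD hQ) (fun x y : ZMod Q => fz Q f (-(Nm (m : ZMod Q) x y)) * δ (L x y))
  rw [e2]
  have e3 : ∀ x y : ZMod Q, fz Q (fun n => 4 * f (4 * n) - f n) (-(Nm (m : ZMod Q) x y)) * γ (L x y)
      = 4 * (fz Q f (-(Nm (m : ZMod Q) (2 * x) (2 * y))) * γ (L x y))
        - fz Q f (-(Nm (m : ZMod Q) x y)) * γ (L x y) := by
    intro x y
    rw [fz_smooth hper, hN]
    ring
  simp only [e3, Finset.sum_sub_distrib, ← Finset.mul_sum]
  rw [e1]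
  simp only [Finset.mul_sum, ← Finset.sum_sub_distrib, eqD, Equiv.coe_fn_mk]
  apply Finset.sum_congr rfl
  intro x _
  apply Finset.sum_congr rfl
  intro y _
  rw [hL]
  have := four_γ hQ (L x y)
  linear_combination (fz Q f (-(Nm (m : ZMod Q) (2 * x) (2 * y)))) * this

/-- **the exact ghost identity**: `(a, b, B)` are the parameters up to a common sign `s` -/
theorem ghost_identity {a b B : ℕ} {m r : ℤ} (h : E4.Par a b B m r)
    (hm2 : m % 2 = 1) (hB2 : B % 2 = 1)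
    [IsDomain (QuadraticAlgebra ℤ m (B : ℤ))]
    [UniqueFactorizationMonoid (QuadraticAlgebra ℤ m (B : ℤ))]
    {d : ℕ} (hd : (d : ℤ) = (B : ℤ) ^ 2 + 4 * m) (h8 : d % 8 = 5)
    (hQ : Q % 2 = 1) (hcop : Nat.Coprime Q d)
    {s : ℤ} (hs : s = 1 ∨ s = -1) {α' β' γ' : ℤ}
    (hα : s * a - 2 = Q * α') (hβ : s * b + 1 = Q * β') (hγ : s * B + 1 = Q * γ')
    (f : ℤ → ℤ) (hper : ∀ x, f (x + Q) = f x) (hodd : ∀ x, f (-x) = - f x) :
    α' * (GS Q f m δ (fun _ y => y) + GS Q f m δ (fun x y => x + y))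
      - γ' * GS Q f m δ (fun x _ => x) - β' * GS Q f m δ (fun x y => x + 2 * y)
      = 2 * s * RDF.HH Q d (fun x => f (4 * x)) := by
  have hQ0 : 0 < Q := Nat.pos_of_ne_zero (NeZero.ne Q)
  have hd0 : (0 : ℤ) < d := by
    have : 0 < d := by omega
    exact_mod_cast this
  have hperg : ∀ x, (fun n => 4 * f (4 * n) - f n) (x + Q) = (fun n => 4 * f (4 * n) - f n) x := by
    intro x
    have h : f (4 * (x + Q)) = f (4 * x) := by
      rw [mul_add]
      exact per_mulZ hper (4 * x) 4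
    simp only
    rw [h, hper]
  have hoddg : ∀ x, (fun n => 4 * f (4 * n) - f n) (-x) = - (fun n => 4 * f (4 * n) - f n) x := by
    intro x
    simp only
    rw [mul_neg, hodd, hodd]
    ring
  have hss : s * s = 1 := by rcases hs with rfl | rfl <;> norm_num
  have h1 := even_int m B (by have := h.hm; omega) hm2 (by exact_mod_cast hB2) (E4.cyc h) 2 rfl
    (by norm_num) (E4.closing h) (E4.P_ne h) hd h8 Q hQ0 hcop
    (fun n => 4 * f (4 * n) - f n) hperg hoddg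
  rw [RZ_smooth f hQ h8 hper hodd, LL_E4] at h1
  -- the signed version
  have h2 : LLz Q (fun n => 4 * f (4 * n) - f n) a b B m r
      = s * LLz Q (fun n => 4 * f (4 * n) - f n) (s * a) (s * b) (s * B) m r := by
    rcases hs with rfl | rfl
    · simp only [one_mul]
    · simp only [neg_mul, one_mul]
      rw [LLz_neg hperg, neg_neg]
  have hQz : ((Q : ℤ) : ZMod Q) = 0 := by rw [Int.cast_natCast]; exact ZMod.natCast_self Q
  have ca : ((s * a : ℤ) : ZMod Q) = 2 := by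
    have : s * (a : ℤ) = 2 + Q * α' := by linarith
    rw [this, Int.cast_add, Int.cast_mul, hQz]; simp
  have cB : ((s * B : ℤ) : ZMod Q) = -1 := by
    have : s * (B : ℤ) = -1 + Q * γ' := by linarith
    rw [this, Int.cast_add, Int.cast_mul, hQz]; simp
  have hr : r = 1 + (s * B) * (s * a) - m * (s * a) ^ 2 := by
    rw [h.e1]
    linear_combination (-(B : ℤ) * a + m * (a : ℤ) ^ 2) * hss
  rw [h2, LLz_ghost hr ca cB (fun n => 4 * f (4 * n) - f n) hperg hoddg,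
    GS_smooth hQ m (fun _ y => y) (fun _ _ => rfl) f hper,
    GS_smooth hQ m (fun x y => x + y) (fun x y => by ring) f hper,
    GS_smooth hQ m (fun x _ => x) (fun _ _ => rfl) f hper,
    GS_smooth hQ m (fun x y => x + 2 * y) (fun x y => by ring) f hper, hα, hβ, hγ] at h1
  have hQp : (0 : ℤ) < Q := by exact_mod_cast hQ0
  have h3 : (6 * (Q : ℤ) ^ 2 * d) * (α' * (GS Q f m δ (fun _ y => y) + GS Q f m δ (fun x y => x + y))
      - γ' * GS Q f m δ (fun x _ => x) - β' * GS Q f m δ (fun x y => x + 2 * y))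
      = (6 * (Q : ℤ) ^ 2 * d) * (2 * s * RDF.HH Q d (fun x => f (4 * x))) := by
    linear_combination s * h1 - (6 * (Q : ℤ) ^ 2 * d) * (α' * (GS Q f m δ (fun _ y => y)
      + GS Q f m δ (fun x y => x + y))
      - γ' * GS Q f m δ (fun x _ => x) - β' * GS Q f m δ (fun x y => x + 2 * y)) * hss
  exact mul_left_cancel₀ (by positivity) h3

end Pool.Agent.P4G


end

section

/-!
The ghost identity for functions `ψ(u) u ^ e` modulo a power of `l`.
-/

namespace Pool.Agent.P4G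

open Finset (range)
open Pool.Agent.LibH4 Pool.Agent.LibH4.FA Pool.Agent.Lib_helper5
open Pool.Agent.RDF (sum_range_zmod fz δ bt two_half crt_sum)
/-- odd periodic functions lift to the integers -/
lemma exists_lift {M Q : ℕ} (hM : M % 2 = 1) (F : ℤ → ZMod M) (hper : ∀ x, F (x + Q) = F x)
    (hodd : ∀ x, F (-x) = - F x) :
    ∃ f : ℤ → ℤ, (∀ x, f (x + Q) = f x) ∧ (∀ x, f (-x) = - f x) ∧ ∀ x, ((f x : ℤ) : ZMod M) = F x := by
  have : NeZero M := ⟨by omega⟩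
  have h2 := two_half (Q := M) hM
  refine ⟨fun x => (((F x * (((M + 1) / 2 : ℕ) : ZMod M)).val : ℕ) : ℤ) -
    (((F (-x) * (((M + 1) / 2 : ℕ) : ZMod M)).val : ℕ) : ℤ), ?_, ?_, ?_⟩
  · intro x
    have e : F (-(x + Q)) = F (-x) := by
      rw [hodd, hper, hodd]
    simp only
    rw [hper, e]
  · intro x
    simp only
    rw [neg_neg]
    ring
  · intro x
    push_cast
    rw [ZMod.natCast_zmod_val, ZMod.natCast_zmod_val, hodd]
    linear_combination (F x) * h2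

/-- splitting a sum over a multiple of the period -/
lemma sum_blocks {M : Type*} [AddCommMonoid M] (N k : ℕ) (g : ℕ → M) :
    ∑ j ∈ range (N * k), g j = ∑ i ∈ range N, ∑ t ∈ range k, g (N * t + i) := by
  induction k with
  | zero => simp
  | succ k ih =>
    rw [Nat.mul_succ, Finset.sum_range_add, ih]
    simp only [Finset.sum_range_succ, Finset.sum_add_distrib]

/-- expansion of a power -/
lemma pow_expand (c : ℤ) (i : ℤ) (e : ℕ) : ∃ D : ℤ, ∀ y : ℤ, ∃ s : ℤ,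
    (c - (i + y) ^ 2) ^ e = (c - i ^ 2) ^ e + y * D + y ^ 2 * s := by
  induction e with
  | zero => exact ⟨0, fun y => ⟨0, by simp⟩⟩
  | succ e ih =>
    obtain ⟨D, hD⟩ := ih
    refine ⟨D * (c - i ^ 2) - 2 * i * (c - i ^ 2) ^ e, fun y => ?_⟩
    obtain ⟨s, hs⟩ := hD y
    refine ⟨s * (c - i ^ 2) - (c - i ^ 2) ^ e - 2 * i * D - y * D - 2 * i * y * s - y ^ 2 * s, ?_⟩
    rw [pow_succ, hs]
    ring

/-- sums of powers over residues modulo a power of `l` -/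
lemma sum_pow {l : ℕ} (hlo : l % 2 = 1) (c : ℤ) (e n : ℕ) : (l : ℤ) ^ (n + 1) ∣
    ∑ j ∈ range (l ^ (n + 1)), (c - (j : ℤ) ^ 2) ^ e
      - (l : ℤ) ^ n * ∑ j ∈ range l, (c - (j : ℤ) ^ 2) ^ e := by
  induction n with
  | zero => simp
  | succ n ih =>
    have step : (l : ℤ) ^ (n + 2) ∣ ∑ j ∈ range (l ^ (n + 2)), (c - (j : ℤ) ^ 2) ^ e
        - l * ∑ j ∈ range (l ^ (n + 1)), (c - (j : ℤ) ^ 2) ^ e := by
      rw [pow_succ l (n + 1), sum_blocks, Finset.mul_sum, ← Finset.sum_sub_distrib]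
      apply Finset.dvd_sum
      intro i _
      obtain ⟨D, hD⟩ := pow_expand c i e
      choose s hs using hD
      have e1 : ∀ t ∈ range l, (c - ((l ^ (n + 1) * t + i : ℕ) : ℤ) ^ 2) ^ e
          = (c - (i : ℤ) ^ 2) ^ e + (l : ℤ) ^ (n + 1) * (t * D) + (l : ℤ) ^ (n + 2) *
            ((l : ℤ) ^ n * t ^ 2 * s ((l : ℤ) ^ (n + 1) * t)) := by
        intro t _
        have := hs ((l : ℤ) ^ (n + 1) * t)
        have e2 : ((l ^ (n + 1) * t + i : ℕ) : ℤ) = i + (l : ℤ) ^ (n + 1) * t := by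
          push_cast; ring
        rw [e2, this]
        ring
      rw [Finset.sum_congr rfl e1, Finset.sum_add_distrib, Finset.sum_add_distrib,
        Finset.sum_const, Finset.card_range, ← Finset.mul_sum, ← Finset.mul_sum, ← Finset.sum_mul]
      obtain ⟨k, hk⟩ : ∃ k : ℤ, ∑ t ∈ range l, (t : ℤ) = l * k := by
        refine ⟨((l - 1) / 2 : ℕ), ?_⟩
        have h1 := Finset.sum_range_id_mul_two l
        obtain ⟨h, hh⟩ : ∃ h, l = 2 * h + 1 := ⟨l / 2, by omega⟩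
        have h2 : ∑ t ∈ range l, t = l * h := by
          have e3 : l * (l - 1) = l * h * 2 := by
            have : l - 1 = h * 2 := by omega
            rw [this]; ring
          omega
        have h3 : (l - 1) / 2 = h := by omega
        rw [h3]
        have := congrArg (Nat.cast : ℕ → ℤ) h2
        push_cast at this
        exact this
      rw [hk]
      refine ⟨k * D + ∑ t ∈ range l, (l : ℤ) ^ n * t ^ 2 * s ((l : ℤ) ^ (n + 1) * t), ?_⟩
      rw [nsmul_eq_mul]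
      ring
    obtain ⟨t, ht⟩ := ih
    obtain ⟨s, hs⟩ := step
    refine ⟨s + t, ?_⟩
    have e1 : (l : ℤ) ^ (n + 1 + 1) = l * l ^ (n + 1) := by ring
    have e2 : (l : ℤ) ^ (n + 2) = l * l ^ (n + 1) := by ring
    rw [e2] at hs
    rw [e1]
    linear_combination hs + l * ht

/-- the distribution relation of the weight -/
lemma bt_blocks {N Q1 : ℕ} (hN : N % 2 = 1) (hQ : Q1 % 2 = 1) (g : ℕ → ℤ)
    (hg : ∀ x t, g (Q1 * t + x) = g x) :
    ∑ x ∈ range (Q1 * N), bt (Q1 * N) x * g x = ∑ x ∈ range Q1, bt Q1 x * g x := by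
  rw [sum_blocks]
  apply Finset.sum_congr rfl
  intro x _
  simp only [hg]
  rw [← Finset.sum_mul]
  congr 1
  obtain ⟨h, rfl⟩ : ∃ h, N = 2 * h + 1 := ⟨N / 2, by omega⟩
  have key : ∀ (C : ℤ) (h : ℕ), ∑ t ∈ range (2 * h + 1), (-1 : ℤ) ^ t * (C - 2 * Q1 * t)
      = C - 2 * h * Q1 := by
    intro C h
    induction h with
    | zero => simp
    | succ h ih =>
      rw [show 2 * (h + 1) + 1 = 2 * h + 1 + 1 + 1 by ring, Finset.sum_range_succ,
        Finset.sum_range_succ, ih]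
      have e1 : (-1 : ℤ) ^ (2 * h + 1) = -1 := by rw [pow_succ, pow_mul]; simp
      have e2 : (-1 : ℤ) ^ (2 * h + 1 + 1) = 1 := by rw [pow_succ, e1]; norm_num
      rw [e1, e2]
      push_cast
      ring
  have e : ∀ t ∈ range (2 * h + 1), bt (Q1 * (2 * h + 1)) (Q1 * t + x)
      = (-1) ^ x * ((-1 : ℤ) ^ t * (((Q1 * (2 * h + 1) : ℕ) - 2 * x : ℤ) - 2 * Q1 * t)) := by
    intro t _
    unfold bt
    have hodd : Odd Q1 := Nat.odd_iff.2 hQ
    rw [pow_add, pow_mul, hodd.neg_one_pow]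
    push_cast
    ring
  rw [Finset.sum_congr rfl e, ← Finset.mul_sum, key]
  unfold bt
  push_cast
  ring

section

variable {l q0 n e : ℕ} {ψ : ℤ → ℤ}

/-- the hypotheses on a family at level `n` -/
structure Fam (l q0 n e : ℕ) (ψ : ℤ → ℤ) : Prop where
  hl : l.Prime
  l2 : l ≠ 2
  hq : q0 % 2 = 1
  cop : Nat.Coprime q0 l
  per : ∀ x, ψ (x + q0) = ψ x
  odd : ∀ x, ψ (-x) * (-1) ^ e = - ψ x
  mul : ∀ x y, ((ψ (x * y) : ℤ) : ZMod (l ^ (n + 1))) = (ψ x : ℤ) * (ψ y : ℤ)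
  zero : (l : ℤ) ^ (n + 1) ∣ Hs l q0 ψ (n + 1) e

/-- the period -/
def QN (l q0 n : ℕ) : ℕ := q0 * l ^ (n + 1)

/-- the function in the residue ring -/
def FN (l n e : ℕ) (ψ : ℤ → ℤ) (u : ℤ) : ZMod (l ^ (n + 1)) :=
  (ψ u : ZMod (l ^ (n + 1))) * (u : ZMod (l ^ (n + 1))) ^ e

variable (h : Fam l q0 n e ψ)
include h

lemma Fam.lo : l % 2 = 1 := by
  rcases h.hl.eq_two_or_odd with h1 | h1
  · exact absurd h1 h.l2
  · exact h1

lemma Fam.Modd : (l ^ (n + 1)) % 2 = 1 := Nat.odd_iff.1 (Odd.pow (Nat.odd_iff.2 h.lo))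

lemma Fam.Qodd : QN l q0 n % 2 = 1 :=
  Nat.odd_iff.1 (Odd.mul (Nat.odd_iff.2 h.hq) (Nat.odd_iff.2 h.Modd))

lemma Fam.ne : NeZero (QN l q0 n) := ⟨by have := h.Qodd; omega⟩

lemma Fam.FN_mul (u v : ℤ) : FN l n e ψ (u * v) = FN l n e ψ u * FN l n e ψ v := by
  unfold FN
  rw [h.mul]
  push_cast
  ring

lemma Fam.FN_neg (u : ℤ) : FN l n e ψ (-u) = - FN l n e ψ u := by
  unfold FN
  have h1 := congrArg (Int.cast : ℤ → ZMod (l ^ (n + 1))) (h.odd u)
  push_cast at h1 ⊢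
  have h2 : (-(u : ZMod (l ^ (n + 1)))) ^ e = (-1) ^ e * (u : ZMod (l ^ (n + 1))) ^ e := by
    rw [← mul_pow, neg_one_mul]
  rw [h2]
  linear_combination ((u : ZMod (l ^ (n + 1))) ^ e) * h1

lemma Fam.ψper (x t : ℤ) : ψ (x + t * q0) = ψ x := by
  induction t using Int.induction_on with
  | zero => simp
  | succ i ih =>
    rw [show x + (i + 1 : ℤ) * q0 = (x + i * q0) + q0 by ring, h.per, ih]
  | pred i ih =>
    rw [← h.per (x + (-(i : ℤ) - 1) * q0),
      show x + (-(i : ℤ) - 1) * q0 + q0 = x + -(i : ℤ) * q0 by ring, ih]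

lemma Fam.FN_per (u : ℤ) : FN l n e ψ (u + QN l q0 n) = FN l n e ψ u := by
  unfold FN QN
  have e1 : ψ (u + ((q0 * l ^ (n + 1) : ℕ) : ℤ)) = ψ u := by
    have := h.ψper u (l ^ (n + 1))
    rw [← this]
    congr 1
    push_cast
    ring
  rw [e1]
  congr 2
  push_cast
  have h0 : ((l : ZMod (l ^ (n + 1))) ^ (n + 1)) = 0 := by
    have := ZMod.natCast_self (l ^ (n + 1))
    push_cast at this
    exact this
  rw [h0, mul_zero, add_zero]

end

/-- the function on residues -/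
def FZ (l q0 n e : ℕ) (ψ : ℤ → ℤ) (z : ZMod (QN l q0 n)) : ZMod (l ^ (n + 1)) :=
  FN l n e ψ (z.val : ℤ)

section

variable {l q0 n e : ℕ} {ψ : ℤ → ℤ} (h : Fam l q0 n e ψ)

include h in
lemma Fam.FZ_cast (u : ℤ) : FZ l q0 n e ψ (u : ZMod (QN l q0 n)) = FN l n e ψ u := by
  have := h.ne
  unfold FZ
  have h1 : ((((u : ZMod (QN l q0 n)).val : ℕ) : ℤ) : ZMod (QN l q0 n)) = (u : ZMod (QN l q0 n)) := by
    push_cast; exact ZMod.natCast_zmod_val _
  rw [ZMod.intCast_eq_intCast_iff_dvd_sub] at h1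
  obtain ⟨t, ht⟩ := h1
  have hperT : ∀ (x t : ℤ), FN l n e ψ (x + t * QN l q0 n) = FN l n e ψ x := by
    intro x t
    induction t using Int.induction_on with
    | zero => simp
    | succ i ih =>
      rw [show x + (i + 1 : ℤ) * QN l q0 n = (x + i * QN l q0 n) + QN l q0 n by ring, h.FN_per, ih]
    | pred i ih =>
      rw [← h.FN_per (x + (-(i : ℤ) - 1) * QN l q0 n),
        show x + (-(i : ℤ) - 1) * QN l q0 n + QN l q0 n = x + -(i : ℤ) * QN l q0 n by ring, ih]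
  have : (((u : ZMod (QN l q0 n)).val : ℕ) : ℤ) = u + (-t) * QN l q0 n := by linear_combination -ht
  rw [this, hperT]

include h in
lemma Fam.FZ_mul (a : ℤ) (z : ZMod (QN l q0 n)) :
    FZ l q0 n e ψ ((a : ZMod (QN l q0 n)) * z) = FN l n e ψ a * FZ l q0 n e ψ z := by
  obtain ⟨u, rfl⟩ := ZMod.intCast_surjective z
  rw [← Int.cast_mul, h.FZ_cast, h.FZ_cast, h.FN_mul]

include h in
lemma Fam.FZ_neg (z : ZMod (QN l q0 n)) : FZ l q0 n e ψ (-z) = - FZ l q0 n e ψ z := by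
  obtain ⟨u, rfl⟩ := ZMod.intCast_surjective z
  rw [← Int.cast_neg, h.FZ_cast, h.FZ_cast, h.FN_neg]

end

/-- the central sum -/
noncomputable def CC (l q0 n e : ℕ) (ψ : ℤ → ℤ) [NeZero (QN l q0 n)] (D : ℤ) : ZMod (l ^ (n + 1)) :=
  ∑ x : ZMod (QN l q0 n), ∑ u : ZMod (QN l q0 n),
    FZ l q0 n e ψ ((D : ZMod (QN l q0 n)) * x ^ 2 - u ^ 2) * ((δ x : ℤ) : ZMod (l ^ (n + 1)))

section

variable {l q0 n e : ℕ} {ψ : ℤ → ℤ} (h : Fam l q0 n e ψ) [NeZero (QN l q0 n)]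

/-- an affine change of variable -/
def eqA {Q : ℕ} (c : (ZMod Q)ˣ) (b : ZMod Q) : ZMod Q ≃ ZMod Q where
  toFun y := (c : ZMod Q) * y + b
  invFun u := ((c⁻¹ : (ZMod Q)ˣ) : ZMod Q) * (u - b)
  left_inv y := by simp [← mul_assoc]
  right_inv u := by simp [← mul_assoc]

/-- `2` is a unit -/
lemma two_unit {Q : ℕ} (hQ : Q % 2 = 1) : IsUnit (2 : ZMod Q) := by
  have := (ZMod.isUnit_iff_coprime 2 Q).2 (Nat.coprime_two_left.2 (Nat.odd_iff.2 hQ))
  exact_mod_cast this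

variable {f : ℤ → ℤ} (hf : ∀ x, ((f x : ℤ) : ZMod (l ^ (n + 1))) = FN l n e ψ x)

include hf in
omit [NeZero (QN l q0 n)] in
lemma fz_castR (z : ZMod (QN l q0 n)) :
    ((fz (QN l q0 n) f z : ℤ) : ZMod (l ^ (n + 1))) = FZ l q0 n e ψ z := by
  unfold fz FZ
  rw [hf]

include h hf in
lemma G0_cast (m : ℤ) : FN l n e ψ 4 *
    ((GS (QN l q0 n) f m δ (fun x _ => x) : ℤ) : ZMod (l ^ (n + 1))) = CC l q0 n e ψ (1 + 4 * m) := by
  obtain ⟨c2, hc2⟩ := two_unit h.Qodd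
  unfold GS CC
  push_cast
  rw [Finset.mul_sum]
  apply Finset.sum_congr rfl
  intro x _
  rw [Finset.mul_sum, ← Equiv.sum_comp (eqA c2 x) (fun u => FZ l q0 n e ψ
    ((1 + 4 * (m : ZMod (QN l q0 n))) * x ^ 2 - u ^ 2) * ((δ x : ℤ) : ZMod (l ^ (n + 1))))]
  apply Finset.sum_congr rfl
  intro y _
  rw [fz_castR hf, ← mul_assoc, ← h.FZ_mul]
  simp only [eqA, Equiv.coe_fn_mk]
  rw [hc2]
  congr 2
  unfold Nm
  push_cast
  ring

include h hf in
lemma G2_cast (m : ℤ) (hD : IsUnit ((1 + 4 * m : ℤ) : ZMod (QN l q0 n))) :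
    FN l n e ψ (4 * (-(1 + 4 * m))) *
    ((GS (QN l q0 n) f m δ (fun x y => x + 2 * y) : ℤ) : ZMod (l ^ (n + 1)))
      = CC l q0 n e ψ (1 + 4 * m) := by
  obtain ⟨c2, hc2⟩ := two_unit h.Qodd
  obtain ⟨cD, hcD⟩ := hD
  have e1 : FN l n e ψ (4 * (-(1 + 4 * m))) *
    ((GS (QN l q0 n) f m δ (fun x y => x + 2 * y) : ℤ) : ZMod (l ^ (n + 1)))
      = ∑ x : ZMod (QN l q0 n), ∑ u : ZMod (QN l q0 n),
        FZ l q0 n e ψ (((1 + 4 * m : ℤ) : ZMod (QN l q0 n)) * u ^ 2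
          - ((cD : ZMod (QN l q0 n)) * x) ^ 2) * ((δ u : ℤ) : ZMod (l ^ (n + 1))) := by
    unfold GS
    push_cast
    rw [Finset.mul_sum]
    apply Finset.sum_congr rfl
    intro x _
    rw [Finset.mul_sum, ← Equiv.sum_comp (eqA c2 x) (fun u => FZ l q0 n e ψ
      ((1 + 4 * (m : ZMod (QN l q0 n))) * u ^ 2 - ((cD : ZMod (QN l q0 n)) * x) ^ 2)
      * ((δ u : ℤ) : ZMod (l ^ (n + 1))))]
    apply Finset.sum_congr rfl
    intro y _
    rw [fz_castR hf, ← mul_assoc, ← h.FZ_mul]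
    simp only [eqA, Equiv.coe_fn_mk]
    rw [hc2, hcD]
    have e2 : 2 * y + x = x + 2 * y := by ring
    rw [e2]
    congr 2
    unfold Nm
    push_cast
    ring
  rw [e1, Finset.sum_comm]
  unfold CC
  apply Finset.sum_congr rfl
  intro u _
  exact Equiv.sum_comp (Units.mulLeft cD) (fun z => FZ l q0 n e ψ
    (((1 + 4 * m : ℤ) : ZMod (QN l q0 n)) * u ^ 2 - z ^ 2) * ((δ u : ℤ) : ZMod (l ^ (n + 1))))

include h hf in
lemma Gy_cast (m : ℤ) (hm : IsUnit ((m : ℤ) : ZMod (QN l q0 n))) :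
    FN l n e ψ (4 * m) *
    ((GS (QN l q0 n) f m δ (fun _ y => y) : ℤ) : ZMod (l ^ (n + 1)))
      = - CC l q0 n e ψ (1 + 4 * m) := by
  obtain ⟨c2, hc2⟩ := two_unit h.Qodd
  obtain ⟨cm, hcm⟩ := hm
  unfold GS CC
  push_cast
  rw [Finset.sum_comm, Finset.mul_sum, ← Finset.sum_neg_distrib]
  apply Finset.sum_congr rfl
  intro y _
  rw [Finset.mul_sum, ← Finset.sum_neg_distrib,
    ← Equiv.sum_comp (eqA (c2 * cm) (-y)) (fun u => -(FZ l q0 n e ψ
      ((1 + 4 * (m : ZMod (QN l q0 n))) * y ^ 2 - u ^ 2) * ((δ y : ℤ) : ZMod (l ^ (n + 1)))))]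
  apply Finset.sum_congr rfl
  intro x _
  rw [fz_castR hf, ← mul_assoc, ← h.FZ_mul, ← neg_mul, ← h.FZ_neg]
  simp only [eqA, Equiv.coe_fn_mk]
  rw [Units.val_mul, hc2, hcm]
  congr 2
  unfold Nm
  push_cast
  ring

include h hf in
lemma Gxy_cast (m : ℤ) (hm : IsUnit ((m : ℤ) : ZMod (QN l q0 n))) :
    FN l n e ψ (4 * m) *
    ((GS (QN l q0 n) f m δ (fun x y => x + y) : ℤ) : ZMod (l ^ (n + 1)))
      = - CC l q0 n e ψ (1 + 4 * m) := by
  obtain ⟨c2, hc2⟩ := two_unit h.Qodd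
  obtain ⟨cm, hcm⟩ := hm
  have e1 : ((GS (QN l q0 n) f m δ (fun x y => x + y) : ℤ) : ZMod (l ^ (n + 1)))
      = ∑ z : ZMod (QN l q0 n), ∑ y : ZMod (QN l q0 n),
        FZ l q0 n e ψ (-(Nm (m : ZMod (QN l q0 n)) (z - y) y)) * ((δ z : ℤ) : ZMod (l ^ (n + 1))) := by
    unfold GS
    push_cast
    rw [Finset.sum_comm]
    conv_rhs => rw [Finset.sum_comm]
    apply Finset.sum_congr rfl
    intro y _
    rw [← Equiv.sum_comp (Equiv.addRight y) (fun z =>
      FZ l q0 n e ψ (-(Nm (m : ZMod (QN l q0 n)) (z - y) y)) * ((δ z : ℤ) : ZMod (l ^ (n + 1))))]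
    apply Finset.sum_congr rfl
    intro x _
    simp only [Equiv.coe_addRight, add_sub_cancel_right]
    rw [fz_castR hf]
  rw [e1]
  unfold CC
  rw [Finset.mul_sum, ← Finset.sum_neg_distrib]
  apply Finset.sum_congr rfl
  intro z _
  rw [Finset.mul_sum, ← Finset.sum_neg_distrib,
    ← Equiv.sum_comp (eqA (c2 * cm) (-((2 * (m : ZMod (QN l q0 n)) + 1) * z)))
      (fun u => -(FZ l q0 n e ψ
      (((1 + 4 * m : ℤ) : ZMod (QN l q0 n)) * z ^ 2 - u ^ 2) * ((δ z : ℤ) : ZMod (l ^ (n + 1)))))]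
  apply Finset.sum_congr rfl
  intro y _
  rw [← mul_assoc, ← h.FZ_mul, ← neg_mul, ← h.FZ_neg]
  simp only [eqA, Equiv.coe_fn_mk]
  rw [Units.val_mul, hc2, hcm]
  congr 2
  unfold Nm
  push_cast
  ring

/-- the reduced inner sum -/
def AA (l q0 e : ℕ) (ψ : ℤ → ℤ) (D : ℤ) (x : ℕ) : ℤ :=
  (∑ i ∈ range q0, ψ (D * (x : ℤ) ^ 2 - (i : ℤ) ^ 2)) * ∑ j ∈ range l, (D * (x : ℤ) ^ 2 - (j : ℤ) ^ 2) ^ e

/-- the reduced central sum -/
def CR (l q0 e : ℕ) (ψ : ℤ → ℤ) (D : ℤ) : ℤ :=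
  ∑ x ∈ range (q0 * l), bt (q0 * l) x * AA l q0 e ψ D x

include h in
lemma inner_sum (D : ℤ) (x : ℕ) : ∑ u : ZMod (QN l q0 n),
    FZ l q0 n e ψ ((D : ZMod (QN l q0 n)) * (x : ZMod (QN l q0 n)) ^ 2 - u ^ 2)
      = (((l : ℤ) ^ n * AA l q0 e ψ D x : ℤ) : ZMod (l ^ (n + 1))) := by
  rw [← sum_range_zmod (fun u : ZMod (QN l q0 n) =>
    FZ l q0 n e ψ ((D : ZMod (QN l q0 n)) * (x : ZMod (QN l q0 n)) ^ 2 - u ^ 2))]
  have e1 : ∀ u ∈ range (QN l q0 n),
      FZ l q0 n e ψ ((D : ZMod (QN l q0 n)) * (x : ZMod (QN l q0 n)) ^ 2 - (u : ZMod (QN l q0 n)) ^ 2)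
      = (((ψ (D * (x : ℤ) ^ 2 - (((u % q0 : ℕ) : ℤ)) ^ 2) : ℤ)) : ZMod (l ^ (n + 1))) *
        ((D * (x : ℤ) ^ 2 - (((u % l ^ (n + 1) : ℕ) : ℤ)) ^ 2 : ℤ) : ZMod (l ^ (n + 1))) ^ e := by
    intro u _
    have e2 : ((D : ZMod (QN l q0 n)) * (x : ZMod (QN l q0 n)) ^ 2 - (u : ZMod (QN l q0 n)) ^ 2)
        = ((D * (x : ℤ) ^ 2 - (u : ℤ) ^ 2 : ℤ) : ZMod (QN l q0 n)) := by push_cast; ring
    rw [e2, h.FZ_cast]
    unfold FN
    congr 1
    · congr 1
      have hu : ((u % q0 : ℕ) : ℤ) = u - q0 * ((u / q0 : ℕ) : ℤ) := by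
        have := Nat.mod_add_div u q0
        have h2 := congrArg (Nat.cast : ℕ → ℤ) this
        push_cast at h2
        push_cast
        linarith
      rw [hu, ← h.ψper (D * (x : ℤ) ^ 2 - (u : ℤ) ^ 2)
        (2 * u * ((u / q0 : ℕ) : ℤ) - q0 * ((u / q0 : ℕ) : ℤ) ^ 2)]
      congr 1
      ring
    · congr 1
      rw [Int.cast_sub, Int.cast_sub, Int.cast_pow, Int.cast_pow, Int.cast_natCast,
        Int.cast_natCast, ZMod.natCast_mod]
  rw [Finset.sum_congr rfl e1]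
  unfold QN
  have hq0 : 0 < q0 := by have := h.hq; omega
  rw [crt_sum hq0 (pow_pos h.hl.pos _) (Nat.Coprime.pow_right _ h.cop)
    (fun i => ((ψ (D * (x : ℤ) ^ 2 - (i : ℤ) ^ 2) : ℤ) : ZMod (l ^ (n + 1))))
    (fun j => ((D * (x : ℤ) ^ 2 - (j : ℤ) ^ 2 : ℤ) : ZMod (l ^ (n + 1))) ^ e)]
  have h2 := sum_pow h.lo (D * (x : ℤ) ^ 2) e n
  have h3 : ∑ j ∈ range (l ^ (n + 1)), ((D * (x : ℤ) ^ 2 - (j : ℤ) ^ 2 : ℤ) : ZMod (l ^ (n + 1))) ^ e
      = (((l : ℤ) ^ n * ∑ j ∈ range l, (D * (x : ℤ) ^ 2 - (j : ℤ) ^ 2) ^ e : ℤ) : ZMod (l ^ (n + 1))) := by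
    have h4 : ((∑ j ∈ range (l ^ (n + 1)), (D * (x : ℤ) ^ 2 - (j : ℤ) ^ 2) ^ e
        - (l : ℤ) ^ n * ∑ j ∈ range l, (D * (x : ℤ) ^ 2 - (j : ℤ) ^ 2) ^ e : ℤ) :
          ZMod (l ^ (n + 1))) = 0 := by
      rw [ZMod.intCast_zmod_eq_zero_iff_dvd]
      push_cast
      exact h2
    rw [Int.cast_sub, sub_eq_zero] at h4
    rw [← h4, Int.cast_sum]
    apply Finset.sum_congr rfl
    intro j _
    rw [Int.cast_pow]
  rw [h3]
  unfold AA
  push_cast
  ring

include h in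
/-- **the central sum** -/
theorem CC_eq (D : ℤ) : CC l q0 n e ψ D = (((l : ℤ) ^ n * CR l q0 e ψ D : ℤ) : ZMod (l ^ (n + 1))) := by
  have hQ0 : 0 < QN l q0 n := Nat.pos_of_ne_zero (NeZero.ne _)
  have outer : CC l q0 n e ψ D = (((l : ℤ) ^ n * ∑ x ∈ range (QN l q0 n), bt (QN l q0 n) x *
      AA l q0 e ψ D x : ℤ) : ZMod (l ^ (n + 1))) := by
    unfold CC
    rw [← sum_range_zmod (fun x : ZMod (QN l q0 n) => ∑ u : ZMod (QN l q0 n),
      FZ l q0 n e ψ ((D : ZMod (QN l q0 n)) * x ^ 2 - u ^ 2) * ((δ x : ℤ) : ZMod (l ^ (n + 1))))]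
    rw [Finset.mul_sum, Int.cast_sum]
    apply Finset.sum_congr rfl
    intro x hx
    rw [← Finset.sum_mul, inner_sum h D x]
    have e1 : δ (x : ZMod (QN l q0 n)) = bt (QN l q0 n) x := by
      unfold δ
      rw [ZMod.val_cast_of_lt (Finset.mem_range.1 hx)]
    rw [e1, ← Int.cast_mul]
    congr 1
    ring
  rw [outer]
  -- only residues modulo `l` matter
  have red : ∀ y z : ℤ, (l : ℤ) ∣ z - y → (((l : ℤ) ^ n * y : ℤ) : ZMod (l ^ (n + 1)))
      = (((l : ℤ) ^ n * z : ℤ) : ZMod (l ^ (n + 1))) := by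
    intro y z hyz
    rw [ZMod.intCast_eq_intCast_iff_dvd_sub]
    obtain ⟨t, ht⟩ := hyz
    refine ⟨t, ?_⟩
    push_cast
    rw [← mul_sub, ht]
    ring
  apply red
  -- reduction of the weighted sum
  have : Fact l.Prime := ⟨h.hl⟩
  have hl0 : 0 < l := h.hl.pos
  have hg : ∀ x t : ℕ, (AA l q0 e ψ D (q0 * l * t + x) % l) = AA l q0 e ψ D x % l := by
    intro x t
    apply Int.ModEq.symm
    rw [← ZMod.intCast_eq_intCast_iff]
    unfold AA
    push_cast
    congr 1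
    · apply Finset.sum_congr rfl
      intro i _
      congr 1
      rw [← h.ψper (D * (x : ℤ) ^ 2 - (i : ℤ) ^ 2)
        (D * (2 * l * t * x + q0 * (l * t) ^ 2))]
      congr 1
      push_cast
      ring
    · apply Finset.sum_congr rfl
      intro j _
      rw [ZMod.natCast_self]
      ring
  have h1 := bt_blocks (N := l ^ n) (Q1 := q0 * l)
    (Nat.odd_iff.1 (Odd.pow (Nat.odd_iff.2 h.lo)))
    (Nat.odd_iff.1 (Odd.mul (Nat.odd_iff.2 h.hq) (Nat.odd_iff.2 h.lo)))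
    (fun x => AA l q0 e ψ D x % l) hg
  have hQ : q0 * l * l ^ n = QN l q0 n := by unfold QN; ring
  rw [hQ] at h1
  have h2 : ∀ (W N : ℕ), (l : ℤ) ∣ ∑ x ∈ range N, bt W x * AA l q0 e ψ D x -
      ∑ x ∈ range N, bt W x * (AA l q0 e ψ D x % l) := by
    intro W N
    rw [← Finset.sum_sub_distrib]
    apply Finset.dvd_sum
    intro x _
    rw [← mul_sub]
    refine Dvd.dvd.mul_left ?_ _
    have := Int.emod_add_mul_ediv (AA l q0 e ψ D x) l
    exact ⟨AA l q0 e ψ D x / l, by linarith⟩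
  obtain ⟨s, hs⟩ := h2 (QN l q0 n) (QN l q0 n)
  obtain ⟨t, ht⟩ := h2 (q0 * l) (q0 * l)
  unfold CR
  refine ⟨t - s, ?_⟩
  rw [h1] at hs
  linear_combination ht - hs

end

end Pool.Agent.P4G


end

section

/-!
The two families at the prime thirteen.
-/

namespace Pool.Agent.P4G

open Finset (range)
open Pool.Agent.LibH4 Pool.Agent.LibH4.FA Pool.Agent.Lib_helper5
open Pool.Agent.RDF (bt crt_sum T7 T7_mul T7_neg)
/-- the quadratic character modulo five -/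
def T5 (x : ZMod 5) : ℤ := (![0, 1, -1, -1, 1] : Fin 5 → ℤ) x

/-- the logarithm of the cubic character modulo seven -/
def lg7 (x : ZMod 7) : ℕ := (![0, 0, 2, 1, 1, 2, 0] : Fin 7 → ℕ) x

/-- the cubic character modulo seven, `w` a cube root of unity -/
def C7 (w : ℤ) (x : ZMod 7) : ℤ := if x = 0 then 0 else w ^ lg7 x

lemma T5_mul : ∀ x y : ZMod 5, T5 (x * y) = T5 x * T5 y := by decide
lemma T5_neg : ∀ x : ZMod 5, T5 (-x) = T5 x := by decide
lemma lg7_mul : ∀ x y : ZMod 7, x ≠ 0 → y ≠ 0 → lg7 (x * y) = (lg7 x + lg7 y) % 3 := by decide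
lemma lg7_neg : ∀ x : ZMod 7, lg7 (-x) = lg7 x := by decide

lemma C7_neg (w : ℤ) (x : ZMod 7) : C7 w (-x) = C7 w x := by
  unfold C7
  rw [lg7_neg]
  simp only [neg_eq_zero]

lemma C7_mul {M : ℕ} {w : ℤ} (hw : ((w : ℤ) : ZMod M) ^ 2 + w + 1 = 0) (x y : ZMod 7) :
    ((C7 w (x * y) : ℤ) : ZMod M) = (C7 w x : ℤ) * (C7 w y : ℤ) := by
  have h3 : ((w : ℤ) : ZMod M) ^ 3 = 1 := by linear_combination ((w : ZMod M) - 1) * hw
  have : Fact (Nat.Prime 7) := ⟨by norm_num⟩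
  unfold C7
  by_cases hx : x = 0
  · simp [hx]
  by_cases hy : y = 0
  · simp [hy]
  rw [if_neg hx, if_neg hy, if_neg (mul_ne_zero hx hy), lg7_mul x y hx hy]
  push_cast
  rw [← pow_add]
  conv_rhs => rw [← Nat.div_add_mod (lg7 x + lg7 y) 3, pow_add, pow_mul, h3, one_pow, one_mul]

/-- the first family -/
def ψ1 (w u : ℤ) : ℤ := T5 (u : ZMod 5) * C7 w (u : ZMod 7)
/-- the second family -/
def ψ2 (w u : ℤ) : ℤ := T5 (u : ZMod 5) * (T7 (u : ZMod 7) * C7 w (u : ZMod 7))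

lemma cast5 (u : ℤ) : (((u + (35 : ℕ) : ℤ)) : ZMod 5) = (u : ZMod 5) := by
  push_cast
  rw [show (35 : ZMod 5) = 0 by decide, add_zero]
lemma cast7 (u : ℤ) : (((u + (35 : ℕ) : ℤ)) : ZMod 7) = (u : ZMod 7) := by
  push_cast
  rw [show (35 : ZMod 7) = 0 by decide, add_zero]

lemma ψ1_per (w u : ℤ) : ψ1 w (u + (35 : ℕ)) = ψ1 w u := by
  unfold ψ1
  rw [cast5, cast7]
lemma ψ2_per (w u : ℤ) : ψ2 w (u + (35 : ℕ)) = ψ2 w u := by
  unfold ψ2
  rw [cast5, cast7]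

lemma ψ1_neg (w u : ℤ) : ψ1 w (-u) = ψ1 w u := by
  unfold ψ1
  rw [Int.cast_neg, Int.cast_neg, T5_neg, C7_neg]
lemma ψ2_neg (w u : ℤ) : ψ2 w (-u) = - ψ2 w u := by
  unfold ψ2
  rw [Int.cast_neg, Int.cast_neg, T5_neg, C7_neg, T7_neg]
  ring

lemma ψ1_mul {M : ℕ} {w : ℤ} (hw : ((w : ℤ) : ZMod M) ^ 2 + w + 1 = 0) (u v : ℤ) :
    ((ψ1 w (u * v) : ℤ) : ZMod M) = (ψ1 w u : ℤ) * (ψ1 w v : ℤ) := by
  unfold ψ1
  simp only [Int.cast_mul, T5_mul, C7_mul hw]
  ring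
lemma ψ2_mul {M : ℕ} {w : ℤ} (hw : ((w : ℤ) : ZMod M) ^ 2 + w + 1 = 0) (u v : ℤ) :
    ((ψ2 w (u * v) : ℤ) : ZMod M) = (ψ2 w u : ℤ) * (ψ2 w v : ℤ) := by
  unfold ψ2
  simp only [Int.cast_mul, T5_mul, T7_mul, C7_mul hw]
  ring

/-- only `w` modulo thirteen matters modulo thirteen -/
lemma C7_mod {w : ℤ} (hw : w % 13 = 3) (x : ZMod 7) :
    ((C7 w x : ℤ) : ZMod 13) = (C7 3 x : ℤ) := by
  have h : ((w : ℤ) : ZMod 13) = ((3 : ℤ) : ZMod 13) := by
    rw [ZMod.intCast_eq_intCast_iff_dvd_sub]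
    exact ⟨-(w / 13), by push_cast; omega⟩
  unfold C7
  split_ifs
  · rfl
  · rw [Int.cast_pow, Int.cast_pow, h]

lemma ψ1_mod {w : ℤ} (hw : w % 13 = 3) (u : ℤ) : ((ψ1 w u : ℤ) : ZMod 13) = (ψ1 3 u : ℤ) := by
  unfold ψ1
  rw [Int.cast_mul, Int.cast_mul, C7_mod hw]
lemma ψ2_mod {w : ℤ} (hw : w % 13 = 3) (u : ℤ) : ((ψ2 w u : ℤ) : ZMod 13) = (ψ2 3 u : ℤ) := by
  unfold ψ2
  rw [Int.cast_mul, Int.cast_mul, Int.cast_mul, Int.cast_mul, C7_mod hw]

lemma Hs_mod {ψ ψ' : ℤ → ℤ} (h : ∀ u, ((ψ u : ℤ) : ZMod 13) = (ψ' u : ℤ)) (q0 v m : ℕ) :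
    ((Hs 13 q0 ψ v m : ℤ) : ZMod 13) = (Hs 13 q0 ψ' v m : ℤ) := by
  unfold Hs
  push_cast
  apply Finset.sum_congr rfl
  intro r _
  rw [h]

lemma DD_mod' {ψ ψ' : ℤ → ℤ} (h : ∀ u, ((ψ u : ℤ) : ZMod 13) = (ψ' u : ℤ)) (q0 v m : ℕ) :
    ((DD 13 q0 ψ v m : ℤ) : ZMod 13) = (DD 13 q0 ψ' v m : ℤ) := by
  unfold DD
  push_cast
  apply Finset.sum_congr rfl
  intro r _
  rw [h]

lemma base1 : (Hs 13 35 (ψ1 3) 1 7) % 13 = 0 := by decide +kernel
lemma base2 : (Hs 13 35 (ψ2 3) 1 8) % 13 = 0 := by decide +kernel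
lemma der1 : (DD 13 35 (ψ1 3) 2 7) % 13 ≠ 0 := by decide +kernel
lemma der2 : (DD 13 35 (ψ2 3) 2 8) % 13 ≠ 0 := by decide +kernel

/-- cube roots of unity modulo powers of thirteen -/
lemma exists_w (n : ℕ) : ∃ w : ℤ, w % 13 = 3 ∧ (13 : ℤ) ^ (n + 1) ∣ w ^ 2 + w + 1 := by
  induction n with
  | zero => exact ⟨3, rfl, by norm_num⟩
  | succ n ih =>
    obtain ⟨w, hw, c, hc⟩ := ih
    obtain ⟨v, hv⟩ : ∃ v, w = 13 * v + 3 := ⟨w / 13, by omega⟩
    refine ⟨w + 13 ^ (n + 1) * (-2 * c), ?_, ?_⟩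
    · have e : w + 13 ^ (n + 1) * (-2 * c) = w + 13 * (13 ^ n * (-2 * c)) := by ring
      rw [e, Int.add_mul_emod_self_left]
      exact hw
    · obtain ⟨z, hz⟩ : ∃ z : ℤ, z = 13 ^ n := ⟨_, rfl⟩
      refine ⟨-4 * c * v - c + 4 * z * c ^ 2, ?_⟩
      have e1 : (13 : ℤ) ^ (n + 1) = 13 * z := by rw [hz]; ring
      have e2 : (13 : ℤ) ^ (n + 1 + 1) = 169 * z := by rw [hz]; ring
      rw [e1] at hc ⊢
      rw [e2]
      rw [hv] at hc ⊢
      linear_combination hc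

lemma prime13 : Nat.Prime 13 := by norm_num

/-- the first family at level `n` -/
theorem exists_fam1 (n : ℕ) {w : ℤ} (hw : w % 13 = 3) (hwn : (13 : ℤ) ^ (n + 1) ∣ w ^ 2 + w + 1) :
    ∃ e, e % 12 = 7 ∧ Fam 13 35 n e (ψ1 w) := by
  have odd7 : ∀ x, ψ1 w (-x) * (-1) ^ 7 = - ψ1 w x := by
    intro x
    rw [ψ1_neg]
    norm_num
  have hb : ((13 : ℕ) : ℤ) ∣ Hs 13 35 (ψ1 w) 1 7 := by
    have h1 := Hs_mod (ψ1_mod hw) 35 1 7
    have h2 : ((Hs 13 35 (ψ1 3) 1 7 : ℤ) : ZMod 13) = 0 := by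
      rw [ZMod.intCast_zmod_eq_zero_iff_dvd]
      have := base1
      push_cast
      omega
    rw [h2] at h1
    exact (ZMod.intCast_zmod_eq_zero_iff_dvd _ 13).1 h1
  have hD : ¬ ((13 : ℕ) : ℤ) ∣ DD 13 35 (ψ1 w) 2 7 := by
    intro h
    have h1 := DD_mod' (ψ1_mod hw) 35 2 7
    rw [(ZMod.intCast_zmod_eq_zero_iff_dvd _ 13).2 h] at h1
    have h2 := (ZMod.intCast_zmod_eq_zero_iff_dvd _ 13).1 h1.symm
    have := der1
    push_cast at h2
    omega
  obtain ⟨e, he, hen, hz⟩ := exists_zero (l := 13) prime13 (by norm_num) (q0 := 35) (by norm_num)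
    (ψ1_per w) (by norm_num) odd7 hb hD n
  have he' : e % 12 = 7 := he
  refine ⟨e, he', prime13, by norm_num, by norm_num, by norm_num, ψ1_per w, ?_, ?_, hz⟩
  · intro x
    rw [← odd7 x]
    congr 1
    have ho : Odd e := by rw [Nat.odd_iff]; omega
    rw [ho.neg_one_pow]
    norm_num
  · apply ψ1_mul
    have h1 : ((w ^ 2 + w + 1 : ℤ) : ZMod (13 ^ (n + 1))) = 0 := by
      rw [ZMod.intCast_zmod_eq_zero_iff_dvd]
      push_cast
      exact hwn
    push_cast at h1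
    exact h1

/-- the second family at level `n` -/
theorem exists_fam2 (n : ℕ) {w : ℤ} (hw : w % 13 = 3) (hwn : (13 : ℤ) ^ (n + 1) ∣ w ^ 2 + w + 1) :
    ∃ e, e % 12 = 8 ∧ Fam 13 35 n e (ψ2 w) := by
  have odd8 : ∀ x, ψ2 w (-x) * (-1) ^ 8 = - ψ2 w x := by
    intro x
    rw [ψ2_neg]
    norm_num
  have hb : ((13 : ℕ) : ℤ) ∣ Hs 13 35 (ψ2 w) 1 8 := by
    have h1 := Hs_mod (ψ2_mod hw) 35 1 8
    have h2 : ((Hs 13 35 (ψ2 3) 1 8 : ℤ) : ZMod 13) = 0 := by
      rw [ZMod.intCast_zmod_eq_zero_iff_dvd]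
      have := base2
      push_cast
      omega
    rw [h2] at h1
    exact (ZMod.intCast_zmod_eq_zero_iff_dvd _ 13).1 h1
  have hD : ¬ ((13 : ℕ) : ℤ) ∣ DD 13 35 (ψ2 w) 2 8 := by
    intro h
    have h1 := DD_mod' (ψ2_mod hw) 35 2 8
    rw [(ZMod.intCast_zmod_eq_zero_iff_dvd _ 13).2 h] at h1
    have h2 := (ZMod.intCast_zmod_eq_zero_iff_dvd _ 13).1 h1.symm
    have := der2
    push_cast at h2
    omega
  obtain ⟨e, he, hen, hz⟩ := exists_zero (l := 13) prime13 (by norm_num) (q0 := 35) (by norm_num)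
    (ψ2_per w) (by norm_num) odd8 hb hD n
  have he' : e % 12 = 8 := he
  refine ⟨e, he', prime13, by norm_num, by norm_num, by norm_num, ψ2_per w, ?_, ?_, hz⟩
  · intro x
    rw [← odd8 x]
    congr 1
    have ho : Even e := by rw [Nat.even_iff]; omega
    rw [ho.neg_one_pow]
    norm_num
  · apply ψ2_mul
    have h1 : ((w ^ 2 + w + 1 : ℤ) : ZMod (13 ^ (n + 1))) = 0 := by
      rw [ZMod.intCast_zmod_eq_zero_iff_dvd]
      push_cast
      exact hwn
    push_cast at h1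
    exact h1

/-! ### the reduced central sums -/

/-- the cubic character with values modulo thirteen -/
def c7 (x : ZMod 7) : ZMod 13 := ((C7 3 x : ℤ) : ZMod 13)
/-- the product with the quadratic character -/
def s7 (x : ZMod 7) : ZMod 13 := ((T7 x * C7 3 x : ℤ) : ZMod 13)

lemma T5_sum : ∀ D x : ZMod 5, D ^ 2 = -1 →
    ∑ i ∈ range 5, T5 (D * x ^ 2 - (i : ZMod 5) ^ 2) = if x = 0 then 4 else -1 := by decide
lemma c7_sum : ∀ D x : ZMod 7, D ^ 3 = -1 →
    ∑ i ∈ range 7, c7 (D * x ^ 2 - (i : ZMod 7) ^ 2) =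
      c7 x ^ 2 * ∑ i ∈ range 7, c7 (D - (i : ZMod 7) ^ 2) := by decide +kernel
lemma s7_sum : ∀ D x : ZMod 7, D ^ 3 = -1 →
    ∑ i ∈ range 7, s7 (D * x ^ 2 - (i : ZMod 7) ^ 2) =
      s7 x ^ 2 * ∑ i ∈ range 7, s7 (D - (i : ZMod 7) ^ 2) := by decide +kernel
lemma c7_ne : ∀ D : ZMod 7, D ^ 3 = -1 → ∑ i ∈ range 7, c7 (D - (i : ZMod 7) ^ 2) ≠ 0 := by
  decide +kernel
lemma s7_ne : ∀ D : ZMod 7, D ^ 3 = -1 → ∑ i ∈ range 7, s7 (D - (i : ZMod 7) ^ 2) ≠ 0 := by
  decide +kernel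
lemma p7_sum : ∀ c : ZMod 13, ∑ j ∈ range 13, (c - (j : ZMod 13) ^ 2) ^ 7 = 6 * c := by
  decide +kernel
lemma p8_sum : ∀ c : ZMod 13, ∑ j ∈ range 13, (c - (j : ZMod 13) ^ 2) ^ 8 = 11 * c ^ 2 := by
  decide +kernel

/-- the weight sum of the first family -/
def W1 : ℤ := ∑ x ∈ range 455, bt 455 x *
  ((if (x : ZMod 5) = 0 then 4 else -1) * (C7 3 (x : ZMod 7) ^ 2 * (x : ℤ) ^ 2))
/-- the weight sum of the second family -/
def W2 : ℤ := ∑ x ∈ range 455, bt 455 x *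
  ((if (x : ZMod 5) = 0 then 4 else -1) * ((T7 (x : ZMod 7) * C7 3 (x : ZMod 7)) ^ 2 * (x : ℤ) ^ 4))

lemma W1_ne : W1 % 13 ≠ 0 := by decide +kernel
lemma W2_ne : W2 % 13 ≠ 0 := by decide +kernel

lemma AA1 {w : ℤ} (hw : w % 13 = 3) {e : ℕ} (he : e % 12 = 7) {D : ℤ}
    (h5 : (D : ZMod 5) ^ 2 = -1) (h7 : (D : ZMod 7) ^ 3 = -1) (x : ℕ) :
    ((AA 13 35 e (ψ1 w) D x : ℤ) : ZMod 13) =
      ((((if (x : ZMod 5) = 0 then 4 else -1) * (C7 3 (x : ZMod 7) ^ 2 * (x : ℤ) ^ 2) : ℤ)) : ZMod 13)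
        * ((∑ i ∈ range 7, c7 ((D : ZMod 7) - (i : ZMod 7) ^ 2)) * (6 * D)) := by
  unfold AA
  rw [Int.cast_mul, Int.cast_sum, Int.cast_sum]
  have e1 : ∑ i ∈ range 35, ((ψ1 w (D * (x : ℤ) ^ 2 - (i : ℤ) ^ 2) : ℤ) : ZMod 13)
      = (((if (x : ZMod 5) = 0 then 4 else -1 : ℤ)) : ZMod 13) *
        (c7 (x : ZMod 7) ^ 2 * ∑ i ∈ range 7, c7 ((D : ZMod 7) - (i : ZMod 7) ^ 2)) := by
    have h := crt_sum (R := ZMod 13) (a := 5) (b := 7) (by norm_num) (by norm_num) (by norm_num)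
      (fun i => ((T5 ((D : ZMod 5) * (x : ZMod 5) ^ 2 - (i : ZMod 5) ^ 2) : ℤ) : ZMod 13))
      (fun i => c7 ((D : ZMod 7) * (x : ZMod 7) ^ 2 - (i : ZMod 7) ^ 2))
    rw [c7_sum _ _ h7, ← Int.cast_sum, T5_sum _ _ h5] at h
    rw [← h]
    apply Finset.sum_congr rfl
    intro i _
    rw [ψ1_mod hw]
    unfold ψ1 c7
    push_cast
    rw [ZMod.natCast_mod, ZMod.natCast_mod]
  have e2 : ∑ j ∈ range 13, (((D * (x : ℤ) ^ 2 - (j : ℤ) ^ 2) ^ e : ℤ) : ZMod 13)
      = 6 * ((D : ZMod 13) * (x : ZMod 13) ^ 2) := by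
    rw [← p7_sum]
    apply Finset.sum_congr rfl
    intro j _
    push_cast
    exact pow_expo prime13 (m := e) (m0 := 7) (by norm_num; omega) (by omega) (by norm_num) _
  rw [e1, e2]
  unfold c7
  push_cast
  ring

lemma AA2 {w : ℤ} (hw : w % 13 = 3) {e : ℕ} (he : e % 12 = 8) {D : ℤ}
    (h5 : (D : ZMod 5) ^ 2 = -1) (h7 : (D : ZMod 7) ^ 3 = -1) (x : ℕ) :
    ((AA 13 35 e (ψ2 w) D x : ℤ) : ZMod 13) =
      ((((if (x : ZMod 5) = 0 then 4 else -1) *
        ((T7 (x : ZMod 7) * C7 3 (x : ZMod 7)) ^ 2 * (x : ℤ) ^ 4) : ℤ)) : ZMod 13)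
        * ((∑ i ∈ range 7, s7 ((D : ZMod 7) - (i : ZMod 7) ^ 2)) * (11 * D ^ 2)) := by
  unfold AA
  rw [Int.cast_mul, Int.cast_sum, Int.cast_sum]
  have e1 : ∑ i ∈ range 35, ((ψ2 w (D * (x : ℤ) ^ 2 - (i : ℤ) ^ 2) : ℤ) : ZMod 13)
      = (((if (x : ZMod 5) = 0 then 4 else -1 : ℤ)) : ZMod 13) *
        (s7 (x : ZMod 7) ^ 2 * ∑ i ∈ range 7, s7 ((D : ZMod 7) - (i : ZMod 7) ^ 2)) := by
    have h := crt_sum (R := ZMod 13) (a := 5) (b := 7) (by norm_num) (by norm_num) (by norm_num)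
      (fun i => ((T5 ((D : ZMod 5) * (x : ZMod 5) ^ 2 - (i : ZMod 5) ^ 2) : ℤ) : ZMod 13))
      (fun i => s7 ((D : ZMod 7) * (x : ZMod 7) ^ 2 - (i : ZMod 7) ^ 2))
    rw [s7_sum _ _ h7, ← Int.cast_sum, T5_sum _ _ h5] at h
    rw [← h]
    apply Finset.sum_congr rfl
    intro i _
    rw [ψ2_mod hw]
    unfold ψ2 s7
    push_cast
    rw [ZMod.natCast_mod, ZMod.natCast_mod]
  have e2 : ∑ j ∈ range 13, (((D * (x : ℤ) ^ 2 - (j : ℤ) ^ 2) ^ e : ℤ) : ZMod 13)
      = 11 * ((D : ZMod 13) * (x : ZMod 13) ^ 2) ^ 2 := by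
    rw [← p8_sum]
    apply Finset.sum_congr rfl
    intro j _
    push_cast
    exact pow_expo prime13 (m := e) (m0 := 8) (by norm_num; omega) (by omega) (by norm_num) _
  rw [e1, e2]
  unfold s7
  push_cast
  ring

lemma six_ne : (6 : ZMod 13) ≠ 0 := by decide
lemma eleven_ne : (11 : ZMod 13) ≠ 0 := by decide

lemma ne13 {D : ℤ} (h13 : (D : ZMod 13) ^ 6 = -1) : (D : ZMod 13) ≠ 0 := by
  intro h0
  rw [h0] at h13
  exact absurd h13 (by decide)

theorem CR1_ne {w : ℤ} (hw : w % 13 = 3) {e : ℕ} (he : e % 12 = 7) {D : ℤ}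
    (h5 : (D : ZMod 5) ^ 2 = -1) (h7 : (D : ZMod 7) ^ 3 = -1) (h13 : (D : ZMod 13) ^ 6 = -1) :
    ¬ (13 : ℤ) ∣ CR 13 35 e (ψ1 w) D := by
  intro h
  have : Fact (Nat.Prime 13) := ⟨prime13⟩
  have h1 : ((CR 13 35 e (ψ1 w) D : ℤ) : ZMod 13) = 0 :=
    (ZMod.intCast_zmod_eq_zero_iff_dvd _ 13).2 (by exact_mod_cast h)
  unfold CR at h1
  rw [Int.cast_sum] at h1
  have e1 : ∀ x ∈ range (35 * 13), ((bt (35 * 13) x * AA 13 35 e (ψ1 w) D x : ℤ) : ZMod 13)
      = ((bt 455 x * ((if (x : ZMod 5) = 0 then 4 else -1) *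
        (C7 3 (x : ZMod 7) ^ 2 * (x : ℤ) ^ 2)) : ℤ) : ZMod 13)
        * ((∑ i ∈ range 7, c7 ((D : ZMod 7) - (i : ZMod 7) ^ 2)) * (6 * D)) := by
    intro x _
    rw [Int.cast_mul, AA1 hw he h5 h7, Int.cast_mul (bt 455 x), mul_assoc]
  rw [Finset.sum_congr rfl e1, ← Finset.sum_mul, ← Int.cast_sum] at h1
  have h2 : ((W1 : ℤ) : ZMod 13) * ((∑ i ∈ range 7, c7 ((D : ZMod 7) - (i : ZMod 7) ^ 2)) *
      (6 * D)) = 0 := h1
  have a1 : ((W1 : ℤ) : ZMod 13) ≠ 0 := by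
    intro h0
    have := (ZMod.intCast_zmod_eq_zero_iff_dvd W1 13).1 h0
    have h3 := W1_ne
    push_cast at this
    omega
  have a2 := c7_ne _ h7
  have a3 := six_ne
  rcases mul_eq_zero.1 h2 with h3 | h3
  · exact a1 h3
  · rcases mul_eq_zero.1 h3 with h3 | h3
    · exact a2 h3
    · rcases mul_eq_zero.1 h3 with h3 | h3
      · exact a3 h3
      · exact ne13 h13 h3

theorem CR2_ne {w : ℤ} (hw : w % 13 = 3) {e : ℕ} (he : e % 12 = 8) {D : ℤ}
    (h5 : (D : ZMod 5) ^ 2 = -1) (h7 : (D : ZMod 7) ^ 3 = -1) (h13 : (D : ZMod 13) ^ 6 = -1) :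
    ¬ (13 : ℤ) ∣ CR 13 35 e (ψ2 w) D := by
  intro h
  have : Fact (Nat.Prime 13) := ⟨prime13⟩
  have h1 : ((CR 13 35 e (ψ2 w) D : ℤ) : ZMod 13) = 0 :=
    (ZMod.intCast_zmod_eq_zero_iff_dvd _ 13).2 (by exact_mod_cast h)
  unfold CR at h1
  rw [Int.cast_sum] at h1
  have e1 : ∀ x ∈ range (35 * 13), ((bt (35 * 13) x * AA 13 35 e (ψ2 w) D x : ℤ) : ZMod 13)
      = ((bt 455 x * ((if (x : ZMod 5) = 0 then 4 else -1) *
        ((T7 (x : ZMod 7) * C7 3 (x : ZMod 7)) ^ 2 * (x : ℤ) ^ 4)) : ℤ) : ZMod 13)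
        * ((∑ i ∈ range 7, s7 ((D : ZMod 7) - (i : ZMod 7) ^ 2)) * (11 * D ^ 2)) := by
    intro x _
    rw [Int.cast_mul, AA2 hw he h5 h7, Int.cast_mul (bt 455 x), mul_assoc]
  rw [Finset.sum_congr rfl e1, ← Finset.sum_mul, ← Int.cast_sum] at h1
  have h2 : ((W2 : ℤ) : ZMod 13) * ((∑ i ∈ range 7, s7 ((D : ZMod 7) - (i : ZMod 7) ^ 2)) *
      (11 * D ^ 2)) = 0 := h1
  have a1 : ((W2 : ℤ) : ZMod 13) ≠ 0 := by
    intro h0
    have := (ZMod.intCast_zmod_eq_zero_iff_dvd W2 13).1 h0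
    have h3 := W2_ne
    push_cast at this
    omega
  have a2 := s7_ne _ h7
  have a3 := eleven_ne
  rcases mul_eq_zero.1 h2 with h3 | h3
  · exact a1 h3
  · rcases mul_eq_zero.1 h3 with h3 | h3
    · exact a2 h3
    · rcases mul_eq_zero.1 h3 with h3 | h3
      · exact a3 h3
      · exact ne13 h13 (pow_eq_zero_iff (by norm_num) |>.1 h3)

end Pool.Agent.P4G


end
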