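import Mathlib
import Pool.Agent.RQM.C119
import Pool.Agent.RQM.C128
import Pool.Agent.RQM.C135
import Pool.Agent.RQM.C15
import Pool.Agent.RQM.C16
import Pool.Agent.RQM.C28
import Pool.Agent.RQM.C37
import Pool.Agent.RQM.C42
import Pool.Agent.RQM.C45

/-! Parts: Lib_helper4.CFFour, Lib_helper4.P4Final, Lib_helper5.P7.GA_5 -/

namespace Pool.Agent.LibH4
end Pool.Agent.LibH4
namespace Pool.Agent.LibH4.CFO
end Pool.Agent.LibH4.CFO
namespace Pool.Agent.Lib_helper5
end Pool.Agent.Lib_helper5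

section

/-!
The cycle of length four from the continued fraction of `ω_d`.
-/

namespace Pool.Agent.LibH4.CFO

open Real Function Pool.Agent.Lib_helper5

variable {m B : ℤ} {s : ℝ} {x : ℕ → ℝ} {c : ℕ → ℕ}

/-- cycles of length four -/
theorem par_four (h : Data m B s x c) (hL : minimalPeriod gsh (x 1) = 4) :
    E4.Par (c 1) (c 2) (c 0) m (QS m B c 2) := by
  have hfix : gsh^[4] (x 1) = x 1 := by
    have := isPeriodicPt_minimalPeriod gsh (x 1)
    rw [hL] at this
    exact this
  have hper := x_per h hfix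
  obtain ⟨-, p2, -, -⟩ := palin h hper 2 2 rfl
  have s2 := QS_succ (m := m) (B := B) (c := c) 1
  have r2 := QR_succ (m := m) (B := B) (c := c) 1
  have r3 := QR_succ (m := m) (B := B) (c := c) 2
  have q1 := QP_succ (m := m) (B := B) (c := c) 0
  rw [QR_one h, QS_one h] at r2
  rw [QS_zero] at q1
  have e0 := c_zero h
  exact {
    ha := (inv_of h 1).cpos
    hb := (inv_of h 2).cpos
    hB := (inv_of h 0).cpos
    hm := by
      have h1 := (inv_of h 1).Spos
      have h2 := S_ne_one h hL (j := 1) (by norm_num) (by norm_num)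
      rw [QS_one h] at h1 h2
      omega
    hr := by
      have h1 := (inv_of h 2).Spos
      have h2 := S_ne_one h hL (j := 2) (by norm_num) (by norm_num)
      omega
    e1 := by
      have s2' := s2
      rw [show QP m B c 1 = 1 from q1, QR_one h, QS_one h] at s2'
      rw [e0]
      exact s2'
    e2 := by
      have r2' : QR m B c 2 = 2 * (c 1) * m - B := r2
      rw [show QR m B c (2 + 1) = QR m B c 2 from p2.symm, r2'] at r3
      rw [e0]
      linarith }

/-- a squarefree integer whose `ω_d` has period length four -/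
theorem exists_par_four (d : ℕ) (h1 : 1 < d) (hsq : Squarefree d)
    (hper : minimalPeriod gsh (gsh (omg d)) = 4) :
    ∃ (a b B : ℕ) (m r : ℤ), E4.Par a b B m r ∧ (a : ℤ) = ⌊gsh (omg d)⌋ ∧
      ((d % 4 = 1 ∧ (d : ℤ) = (B : ℤ) ^ 2 + 4 * m ∧ B % 2 = 1) ∨
       (d % 4 ≠ 1 ∧ 4 * (d : ℤ) = (B : ℤ) ^ 2 + 4 * m ∧ B % 2 = 0)) := by
  obtain ⟨m, B, s, x, c, h, hx1, hm, hB, hd⟩ := exists_data d h1 hsq
  rw [← hx1] at hper
  refine ⟨c 1, c 2, c 0, m, _, par_four h hper, ?_, ?_⟩
  · rw [h.fl 1, hx1]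
  have e0 := c_zero h
  rw [e0]
  rcases hd with ⟨a1, a2, a3⟩ | ⟨a1, a2, a3⟩
  · exact Or.inl ⟨a1, a2, by omega⟩
  · exact Or.inr ⟨a1, a2, by omega⟩

end Pool.Agent.LibH4.CFO


end

section

/-!
Assembly of the period four theorem from the elimination of large parameters.
-/

namespace Pool.Agent.LibH4.P4

open scoped NumberField
open Function Pool.Agent.LibH4 Pool.Agent.Lib_helper5 CFO

/-- finite check for `a = 1` -/
lemma rd_check : ∀ d ∈ rdList, ∀ B ∈ List.range 36, ∀ m ∈ List.range 36,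
    (m < B ∧ 1 < m ∧ B ^ 2 + 4 * m = d) → ∀ b ∈ List.range 36,
      b * (1 + B - m) + B = 2 * m → d ∈ l8 := by
  decide +kernel

/-- the case `a = 1` -/
lemma one_case {b B : ℕ} {m r : ℤ} {d : ℕ} (h : E4.Par 1 b B m r) (hB : B % 2 = 1)
    (hd : (d : ℤ) = (B : ℤ) ^ 2 + 4 * m) (h1 : 1 < d) (hsq : Squarefree d)
    (hU : UniqueFactorizationMonoid (𝓞 (KQ d))) : d ∈ l8 := by
  have hr := h.hr
  have hm := h.hm
  have hb := h.hb
  have e1 := h.e1
  have e2 := h.e2
  push_cast at e1 e2
  obtain ⟨R, rfl⟩ := Int.eq_ofNat_of_zero_le (by omega : 0 ≤ r)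
  obtain ⟨M, rfl⟩ := Int.eq_ofNat_of_zero_le (by omega : 0 ≤ m)
  have hR : R = 1 + B - M := by omega
  have hMB : M < B := by omega
  have hb2 : (b + 2) * R = B + 2 := by
    zify
    linear_combination e2 + 2 * e1
  have hrd := (rdFinal d (B + 2) R (by omega) ⟨b + 2, by rw [← hb2]; ring⟩ (Or.inr (by
    zify
    rw [hd]
    linear_combination 4 * e1)) hsq h1).1 hU
  have hlt : ∀ e ∈ rdList, e < 36 ^ 2 := by decide
  have hd36 := hlt d hrd
  have hBM : B ^ 2 + 4 * M = d := by zify; rw [hd]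
  have hB36 : B < 36 := by nlinarith
  have hbR : b * R + B = 2 * M := by zify; linarith
  have hb36 : b < 36 := by nlinarith
  exact rd_check d hrd B (List.mem_range.2 hB36) M (List.mem_range.2 (by omega))
    ⟨hMB, by omega, hBM⟩ b (List.mem_range.2 hb36) (by rw [← hR]; exact hbR)

/-- class number one and period four, given the elimination of large parameters -/
theorem four_iff (hbig : ∀ (a b B : ℕ) (m r : ℤ), E4.Par a b B m r → m % 2 = 1 → B % 2 = 1 →
      a % 2 = 1 → 3 ≤ a → 19 < m →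
      ∀ [IsDomain (QuadraticAlgebra ℤ m (B : ℤ))]
        [UniqueFactorizationMonoid (QuadraticAlgebra ℤ m (B : ℤ))], False)
    (d : ℕ) (h1 : 1 < d) (hsq : Squarefree d) :
    (((d % 4 = 1 ∧ ⌊gsh (omg d)⌋ % 4 ≠ 2) ∨ (d % 4 ≠ 1 ∧ ⌊gsh (omg d)⌋ ≠ 1)) ∧
      minimalPeriod gsh (gsh (omg d)) = 4 ∧ UniqueFactorizationMonoid (𝓞 (KQ d))) ↔ d ∈ l8 := by
  constructor
  · rintro ⟨hcase, hper, hU⟩
    obtain ⟨a, b, B, m, r, hP, hfl, ⟨h4, hd, hB⟩ | ⟨h4, hd, hB⟩⟩ := exists_par_four d h1 hsq hper
    · obtain ⟨e⟩ := exists_equiv_QI hd (by exact_mod_cast hB)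
      have e' := e.symm.trans (eqvO hsq h1)
      have i1 : IsDomain (QuadraticAlgebra ℤ m (B : ℤ)) := e'.toMulEquiv.isDomain
      have i2 : UniqueFactorizationMonoid (QuadraticAlgebra ℤ m (B : ℤ)) :=
        e'.symm.toMulEquiv.uniqueFactorizationMonoid hU
      have ha2 : a % 4 ≠ 2 := by
        rcases hcase with ⟨-, h⟩ | ⟨h, -⟩
        · rw [← hfl] at h
          omega
        · exact absurd h4 h
      have hm2 := m_odd hP hB ha2
      have hsq' : Squarefree ((B : ℤ) ^ 2 + 4 * m) := by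
        rw [← hd]
        exact Int.squarefree_natCast.2 hsq
      have hr4 := G4.mod_four hP hm2 hB hsq'
      have ha0 : a % 4 ≠ 0 := by
        intro h0
        obtain ⟨k, hk⟩ := Nat.dvd_of_mod_eq_zero h0
        have e1 := hP.e1
        have : r = 1 + 4 * (k * (B - m * a)) := by
          rw [e1, hk]; push_cast; ring
        omega
      by_cases ha1 : a = 1
      · subst ha1
        exact one_case hP hB hd h1 hsq hU
      · by_cases h19 : m ≤ 19
        · obtain ⟨d', hd', he⟩ := small hP (by have := hP.ha; omega) (by omega) hm2 hr4 h19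
          rw [← hd] at he
          have : d' = d := by exact_mod_cast he
          rw [← this]
          exact hd'
        · exact (hbig a b B m r hP hm2 (by exact_mod_cast hB) (by omega)
            (by have := hP.ha; omega) (by omega)).elim
    · exfalso
      obtain ⟨e⟩ := exists_equiv_QI_even hd h4 (by exact_mod_cast hB)
      have e' := e.symm.trans (eqvO hsq h1)
      have i1 : IsDomain (QuadraticAlgebra ℤ m (B : ℤ)) := e'.toMulEquiv.isDomain
      have i2 : UniqueFactorizationMonoid (QuadraticAlgebra ℤ m (B : ℤ)) :=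
        e'.symm.toMulEquiv.uniqueFactorizationMonoid hU
      have ha := B_even hP hB
      subst ha
      rcases hcase with ⟨h, -⟩ | ⟨-, h⟩
      · exact h4 h
      · rw [← hfl] at h
        exact h (by norm_num)
  · intro h
    obtain ⟨⟨p1, p2⟩, p3⟩ := fields h hsq
    have h4 : ∀ e ∈ l8, e % 4 = 1 := by decide
    exact ⟨Or.inl ⟨h4 d h, p2⟩, p1, p3⟩

end Pool.Agent.LibH4.P4


end

section

/-! generated: groups of classes modulo `13` -/

namespace Pool.Agent.Lib_helper5.P7

/-- group (2, 8) -/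
theorem ga_15 : GC (nat_lit 2) (nat_lit 8) TRI_15 = true := by decide +kernel
/-- group (2, 9) -/
theorem ga_16 : GC (nat_lit 2) (nat_lit 9) TRI_16 = true := by decide +kernel
/-- group (2, 12) -/
theorem ga_17 : GC (nat_lit 2) (nat_lit 12) TRI_17 = true := by decide +kernel

end Pool.Agent.Lib_helper5.P7


end
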