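import Mathlib
import Pool.Agent.RQM.C119
import Pool.Agent.RQM.C121
import Pool.Agent.RQM.C128
import Pool.Agent.RQM.C129

/-! Parts: Lib_helper29.P7A.Ck_4, Lib_helper5.P7.GA_2 -/

namespace Pool.Agent.Lib_helper5
end Pool.Agent.Lib_helper5
namespace Pool.Agent.Lib_helper5.LK
end Pool.Agent.Lib_helper5.LK
namespace Pool.Agent.Lib_helper5.TB
end Pool.Agent.Lib_helper5.TB

section

/-! generated: check of triples -/

namespace Pool.Agent.Lib_helper29.P7A

open Pool.Agent.Lib_helper5 Pool.Agent.Lib_helper5.LK Pool.Agent.Lib_helper5.TB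
  Pool.Agent.LibH4 Pool.Agent.LibH4.Ker Pool.Agent.LibH4.S7

theorem ck_12 : chk8 e8 AB SG K12 [nat_lit 1, nat_lit 3, nat_lit 5, nat_lit 7] = true := by
  decide +kernel

theorem ck_13 : chk8 e8 AB SG K13 [nat_lit 1, nat_lit 3, nat_lit 5, nat_lit 7] = true := by
  decide +kernel

theorem ck_14 : chk8 e8 AB SG K14 [nat_lit 1, nat_lit 3, nat_lit 5, nat_lit 7] = true := by
  decide +kernel

end Pool.Agent.Lib_helper29.P7A


end

section

/-! generated: groups of classes modulo `13` -/

namespace Pool.Agent.Lib_helper5.P7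

/-- group (1, 2) -/
theorem ga_6 : GC (nat_lit 1) (nat_lit 2) TRI_6 = true := by decide +kernel
/-- group (1, 3) -/
theorem ga_7 : GC (nat_lit 1) (nat_lit 3) TRI_7 = true := by decide +kernel
/-- group (1, 4) -/
theorem ga_8 : GC (nat_lit 1) (nat_lit 4) TRI_8 = true := by decide +kernel

end Pool.Agent.Lib_helper5.P7


end
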