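import Mathlib
import Pool.Agent.RQM.C119
import Pool.Agent.RQM.C120
import Pool.Agent.RQM.C128
import Pool.Agent.RQM.C131

/-! Parts: Lib_helper4.S7.G11_3, Lib_helper4.S7.G11_6, Lib_helper5.P7.GA_13 -/

section

/-! generated: step 11, group 3 -/

namespace Pool.Agent.LibH4.S7

theorem s11_3_0 : chk11c e11 G11 BG3 [(nat_lit 0), (nat_lit 1), (nat_lit 2), (nat_lit 3), (nat_lit 4), (nat_lit 5)] = true := by decide +kernel

theorem s11_3_1 : chk11c e11 G11 BG3 [(nat_lit 6), (nat_lit 7), (nat_lit 8), (nat_lit 9), (nat_lit 10)] = true := by decide +kernel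

theorem s11_3 : ∀ x < 11, ∃ Bs, x ∈ Bs ∧ chk11c e11 G11 BG3 Bs = true := by
  intro x hx
  interval_cases x
  · exact ⟨_, by simp, s11_3_0⟩
  · exact ⟨_, by simp, s11_3_0⟩
  · exact ⟨_, by simp, s11_3_0⟩
  · exact ⟨_, by simp, s11_3_0⟩
  · exact ⟨_, by simp, s11_3_0⟩
  · exact ⟨_, by simp, s11_3_0⟩
  · exact ⟨_, by simp, s11_3_1⟩
  · exact ⟨_, by simp, s11_3_1⟩
  · exact ⟨_, by simp, s11_3_1⟩
  · exact ⟨_, by simp, s11_3_1⟩
  · exact ⟨_, by simp, s11_3_1⟩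

end Pool.Agent.LibH4.S7


end

section

/-! generated: step 11, group 6 -/

namespace Pool.Agent.LibH4.S7

theorem s11_6_0 : chk11c e11 G11 BG6 [(nat_lit 0), (nat_lit 1), (nat_lit 2), (nat_lit 3), (nat_lit 4), (nat_lit 5)] = true := by decide +kernel

theorem s11_6_1 : chk11c e11 G11 BG6 [(nat_lit 6), (nat_lit 7), (nat_lit 8), (nat_lit 9), (nat_lit 10)] = true := by decide +kernel

theorem s11_6 : ∀ x < 11, ∃ Bs, x ∈ Bs ∧ chk11c e11 G11 BG6 Bs = true := by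
  intro x hx
  interval_cases x
  · exact ⟨_, by simp, s11_6_0⟩
  · exact ⟨_, by simp, s11_6_0⟩
  · exact ⟨_, by simp, s11_6_0⟩
  · exact ⟨_, by simp, s11_6_0⟩
  · exact ⟨_, by simp, s11_6_0⟩
  · exact ⟨_, by simp, s11_6_0⟩
  · exact ⟨_, by simp, s11_6_1⟩
  · exact ⟨_, by simp, s11_6_1⟩
  · exact ⟨_, by simp, s11_6_1⟩
  · exact ⟨_, by simp, s11_6_1⟩
  · exact ⟨_, by simp, s11_6_1⟩

end Pool.Agent.LibH4.S7


end

section

/-! generated: groups of classes modulo `13` -/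

namespace Pool.Agent.Lib_helper5.P7

/-- group (6, 4) -/
theorem ga_39 : GC (nat_lit 6) (nat_lit 4) TRI_39 = true := by decide +kernel
/-- group (6, 7) -/
theorem ga_40 : GC (nat_lit 6) (nat_lit 7) TRI_40 = true := by decide +kernel
/-- group (6, 11) -/
theorem ga_41 : GC (nat_lit 6) (nat_lit 11) TRI_41 = true := by decide +kernel

end Pool.Agent.Lib_helper5.P7


end
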