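import Mathlib
import Pool.Agent.RQM.C120
import Pool.Agent.RQM.C141

/-! Parts: Lib_helper4.S7.G17_3 -/

section

/-! generated: step 17, part 3 -/

namespace Pool.Agent.LibH4.S7

theorem f17_13 : chk17c e17 [] BF17 [(nat_lit 13)] = true := by decide +kernel

theorem f17_14 : chk17c e17 [] BF17 [(nat_lit 14)] = true := by decide +kernel

theorem f17_15 : chk17c e17 [] BF17 [(nat_lit 15)] = true := by decide +kernel

theorem f17_16 : chk17c e17 [] BF17 [(nat_lit 16)] = true := by decide +kernel

theorem g17_13 : chkG17 e17 G17 GS17 K17 [(nat_lit 13)] = true := by decide +kernel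

theorem g17_14 : chkG17 e17 G17 GS17 K17 [(nat_lit 14)] = true := by decide +kernel

theorem g17_15 : chkG17 e17 G17 GS17 K17 [(nat_lit 15)] = true := by decide +kernel

theorem g17_16 : chkG17 e17 G17 GS17 K17 [(nat_lit 16)] = true := by decide +kernel

end Pool.Agent.LibH4.S7


end
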