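import Mathlib
import Pool.Agent.RQM.C120
import Pool.Agent.RQM.C141

/-! Parts: Lib_helper4.S7.G17_2 -/

section

/-! generated: step 17, part 2 -/

namespace Pool.Agent.LibH4.S7

theorem f17_9 : chk17c e17 [] BF17 [(nat_lit 9)] = true := by decide +kernel

theorem f17_10 : chk17c e17 [] BF17 [(nat_lit 10)] = true := by decide +kernel

theorem f17_11 : chk17c e17 [] BF17 [(nat_lit 11)] = true := by decide +kernel

theorem f17_12 : chk17c e17 [] BF17 [(nat_lit 12)] = true := by decide +kernel

theorem g17_9 : chkG17 e17 G17 GS17 K17 [(nat_lit 9)] = true := by decide +kernel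

theorem g17_10 : chkG17 e17 G17 GS17 K17 [(nat_lit 10)] = true := by decide +kernel

theorem g17_11 : chkG17 e17 G17 GS17 K17 [(nat_lit 11)] = true := by decide +kernel

theorem g17_12 : chkG17 e17 G17 GS17 K17 [(nat_lit 12)] = true := by decide +kernel

end Pool.Agent.LibH4.S7


end
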