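import Mathlib
import Pool.Agent.RQM.C120
import Pool.Agent.RQM.C121
import Pool.Agent.RQM.C129
import Pool.Agent.RQM.C131

/-! Parts: Lib_helper29.P7A.Ck_0, Lib_helper4.S7.G11_4 -/

namespace Pool.Agent.Lib_helper5
end Pool.Agent.Lib_helper5
namespace Pool.Agent.Lib_helper5.LK
end Pool.Agent.Lib_helper5.LK
namespace Pool.Agent.Lib_helper5.TB
end Pool.Agent.Lib_helper5.TB

section

/-! generated: check of triples -/

namespace Pool.Agent.Lib_helper29.P7A

open Pool.Agent.Lib_helper5 Pool.Agent.Lib_helper5.LK Pool.Agent.Lib_helper5.TB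
  Pool.Agent.LibH4 Pool.Agent.LibH4.Ker Pool.Agent.LibH4.S7

theorem ck_0 : chk8 e8 AB SG K0 [nat_lit 1, nat_lit 3, nat_lit 5, nat_lit 7] = true := by
  decide +kernel

theorem ck_1 : chk8 e8 AB SG K1 [nat_lit 1, nat_lit 3, nat_lit 5, nat_lit 7] = true := by
  decide +kernel

theorem ck_2 : chk8 e8 AB SG K2 [nat_lit 1, nat_lit 3, nat_lit 5, nat_lit 7] = true := by
  decide +kernel

end Pool.Agent.Lib_helper29.P7A


end

section

/-! generated: step 11, group 4 -/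

namespace Pool.Agent.LibH4.S7

theorem s11_4_0 : chk11c e11 G11 BG4 [(nat_lit 0), (nat_lit 1), (nat_lit 2), (nat_lit 3), (nat_lit 4), (nat_lit 5)] = true := by decide +kernel

theorem s11_4_1 : chk11c e11 G11 BG4 [(nat_lit 6), (nat_lit 7), (nat_lit 8), (nat_lit 9), (nat_lit 10)] = true := by decide +kernel

theorem s11_4 : ∀ x < 11, ∃ Bs, x ∈ Bs ∧ chk11c e11 G11 BG4 Bs = true := by
  intro x hx
  interval_cases x
  · exact ⟨_, by simp, s11_4_0⟩
  · exact ⟨_, by simp, s11_4_0⟩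
  · exact ⟨_, by simp, s11_4_0⟩
  · exact ⟨_, by simp, s11_4_0⟩
  · exact ⟨_, by simp, s11_4_0⟩
  · exact ⟨_, by simp, s11_4_0⟩
  · exact ⟨_, by simp, s11_4_1⟩
  · exact ⟨_, by simp, s11_4_1⟩
  · exact ⟨_, by simp, s11_4_1⟩
  · exact ⟨_, by simp, s11_4_1⟩
  · exact ⟨_, by simp, s11_4_1⟩

end Pool.Agent.LibH4.S7


end
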