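import Mathlib
import Pool.Agent.RQM.C119
import Pool.Agent.RQM.C12
import Pool.Agent.RQM.C148
import Pool.Agent.RQM.C15
import Pool.Agent.RQM.C28
import Pool.Agent.RQM.C39
import Pool.Agent.RQM.C40
import Pool.Agent.RQM.C43
import Pool.Agent.RQM.C44
import Pool.Agent.RQM.C47

/-! Parts: P4E.Cls, P4E.Sys, P4E.Z, P4E.FnA, P4E.FnB, P4E.FnC, P4E.FnD, P4E.KA2, P4E.KA4, P4E.KB0, P4E.KC1, P4E.KC2, P4E.KC3, P4E.KC5, P4E.KC6, P4E.KD1, P4E.KD2, P4E.KD3, Lib_helper4.P5Fields -/

namespace Pool.Agent.LibH4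
end Pool.Agent.LibH4
namespace Pool.Agent.LibH4.KF
end Pool.Agent.LibH4.KF
namespace Pool.Agent.LibH4.Ker
end Pool.Agent.LibH4.Ker
namespace Pool.Agent.LibH4.T6
end Pool.Agent.LibH4.T6
namespace Pool.Agent.Lib_helper5
end Pool.Agent.Lib_helper5
namespace Pool.Agent.Lib_helper5.K4
end Pool.Agent.Lib_helper5.K4
namespace Pool.Agent.Lib_helper5.K5
end Pool.Agent.Lib_helper5.K5
namespace Pool.Agent.Lib_helper5.LK
end Pool.Agent.Lib_helper5.LK

section

/-! generated: classes -/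

namespace Pool.Agent.P4E

open Finset
open Pool.Agent.LibH4 Pool.Agent.LibH4.Ker Pool.Agent.LibH4.T6 Pool.Agent.LibH4.KF
open Pool.Agent.Lib_helper5 Pool.Agent.Lib_helper5.LK Pool.Agent.Lib_helper5.K4

/-- classes modulo 8, up to sign -/
def D8 : List (ℕ × ℕ × ℕ) := [(nat_lit 2, nat_lit 1, nat_lit 0), (nat_lit 2, nat_lit 1, nat_lit 2), (nat_lit 2, nat_lit 1, nat_lit 4), (nat_lit 2, nat_lit 1, nat_lit 6), (nat_lit 2, nat_lit 3, nat_lit 0), (nat_lit 2, nat_lit 3, nat_lit 2), (nat_lit 2, nat_lit 3, nat_lit 4), (nat_lit 2, nat_lit 3, nat_lit 6), (nat_lit 2, nat_lit 5, nat_lit 0), (nat_lit 2, nat_lit 5, nat_lit 2), (nat_lit 2, nat_lit 5, nat_lit 4), (nat_lit 2, nat_lit 5, nat_lit 6), (nat_lit 2, nat_lit 7, nat_lit 0), (nat_lit 2, nat_lit 7, nat_lit 2), (nat_lit 2, nat_lit 7, nat_lit 4), (nat_lit 2, nat_lit 7, nat_lit 6)]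
/-- classes -/
def S152 : List ℕ := [nat_lit 14858, nat_lit 15114, nat_lit 16394, nat_lit 16650, nat_lit 17066, nat_lit 26138, nat_lit 26506, nat_lit 46618, nat_lit 49706, nat_lit 49722, nat_lit 68874, nat_lit 69306, nat_lit 93850, nat_lit 112826, nat_lit 113706, nat_lit 119434, nat_lit 127930, nat_lit 141466, nat_lit 149674, nat_lit 156714, nat_lit 172954, nat_lit 191258, nat_lit 239882, nat_lit 267946, nat_lit 268202, nat_lit 299962, nat_lit 300586, nat_lit 327354, nat_lit 345482, nat_lit 352522, nat_lit 355626, nat_lit 361018, nat_lit 361146, nat_lit 361274, nat_lit 361402, nat_lit 364810, nat_lit 380554, nat_lit 387482, nat_lit 397066, nat_lit 400026, nat_lit 419498, nat_lit 424762, nat_lit 424890, nat_lit 436506, nat_lit 437786, nat_lit 438074, nat_lit 474922, nat_lit 477722, nat_lit 486554, nat_lit 486842, nat_lit 506810, nat_lit 514314, nat_lit 519610, nat_lit 545850, nat_lit 545978, nat_lit 546106, nat_lit 546234, nat_lit 560026,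 nat_lit 563098, nat_lit 564906, nat_lit 566026, nat_lit 579498, nat_lit 586154, nat_lit 603018, nat_lit 633402, nat_lit 657034, nat_lit 676506, nat_lit 676650, nat_lit 701626, nat_lit 701738, nat_lit 704650, nat_lit 705194, nat_lit 744858, nat_lit 775962, nat_lit 777642, nat_lit 792746, nat_lit 808762, nat_lit 832410, nat_lit 845962, nat_lit 852762, nat_lit 856890, nat_lit 882234, nat_lit 882362, nat_lit 882490, nat_lit 882618, nat_lit 905866, nat_lit 907066, nat_lit 919322, nat_lit 925226, nat_lit 964538, nat_lit 972682, nat_lit 981898, nat_lit 996922, nat_lit 997050, nat_lit 1011498, nat_lit 1027994, nat_lit 1032362, nat_lit 1036570, nat_lit 1059738, nat_lit 1070746, nat_lit 1100346, nat_lit 1100474, nat_lit 1100602, nat_lit 1100730, nat_lit 1129658, nat_lit 1129866, nat_lit 1132426, nat_lit 1132730, nat_lit 1137418, nat_lit 1153306, nat_lit 1162282, nat_lit 1168666, nat_lit 1172234, nat_lit 1180714, nat_lit 1205258, nat_lit 1246362,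 nat_lit 1256970, nat_lit 1301786, nat_lit 1314842, nat_lit 1314970, nat_lit 1315098, nat_lit 1315226, nat_lit 1328410, nat_lit 1334922, nat_lit 1336730, nat_lit 1344138, nat_lit 1354522, nat_lit 1406250, nat_lit 1407658, nat_lit 1417610, nat_lit 1433738, nat_lit 1488426, nat_lit 1488650, nat_lit 1498794, nat_lit 1514538, nat_lit 1514650, nat_lit 1516858, nat_lit 1516986, nat_lit 1526570, nat_lit 1561994, nat_lit 1603642, nat_lit 1613610, nat_lit 1631530, nat_lit 1638666, nat_lit 1653930, nat_lit 1654154, nat_lit 1654842, nat_lit 1654970, nat_lit 1655098, nat_lit 1655226, nat_lit 1689866, nat_lit 1694378, nat_lit 1696570, nat_lit 1715994, nat_lit 1718810, nat_lit 1719978, nat_lit 1720842, nat_lit 1723162, nat_lit 1737242, nat_lit 1763850, nat_lit 1779370, nat_lit 1788058, nat_lit 1791274, nat_lit 1813034, nat_lit 1828010, nat_lit 1830554, nat_lit 1839674, nat_lit 1839802, nat_lit 1839930, nat_lit 1840058, nat_lit 1878170, nat_lit 1878938,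 nat_lit 1903786, nat_lit 1904042, nat_lit 1980442, nat_lit 1980730, nat_lit 1986586, nat_lit 1995802, nat_lit 2010170, nat_lit 2024506, nat_lit 2024634, nat_lit 2024762, nat_lit 2024890, nat_lit 2033690, nat_lit 2078874, nat_lit 2104970, nat_lit 2131642, nat_lit 2139402, nat_lit 2158218, nat_lit 2163770, nat_lit 2165434, nat_lit 2165642, nat_lit 2167066, nat_lit 2177338, nat_lit 2177674, nat_lit 2196506, nat_lit 2209338, nat_lit 2209466, nat_lit 2209594, nat_lit 2209722, nat_lit 2210602, nat_lit 2236186, nat_lit 2242586, nat_lit 2255898, nat_lit 2259386, nat_lit 2262042, nat_lit 2262154, nat_lit 2277642, nat_lit 2281370, nat_lit 2291338, nat_lit 2292250, nat_lit 2299274, nat_lit 2308394, nat_lit 2331690, nat_lit 2350362, nat_lit 2381994, nat_lit 2402346, nat_lit 2420794, nat_lit 2422298, nat_lit 2422586, nat_lit 2439578, nat_lit 2440490, nat_lit 2458010, nat_lit 2491450, nat_lit 2495370, nat_lit 2520634, nat_lit 2520714, nat_lit 2553002,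 nat_lit 2567322, nat_lit 2568346, nat_lit 2568634, nat_lit 2579002, nat_lit 2579130, nat_lit 2579258, nat_lit 2579386, nat_lit 2581802, nat_lit 2589866, nat_lit 2610602, nat_lit 2613418, nat_lit 2624666, nat_lit 2627978, nat_lit 2640170, nat_lit 2640650, nat_lit 2649994, nat_lit 2661434, nat_lit 2667930, nat_lit 2674074, nat_lit 2749338, nat_lit 2758698, nat_lit 2758714, nat_lit 2771882, nat_lit 2818826, nat_lit 2871098, nat_lit 2874890, nat_lit 2886282, nat_lit 2890506, nat_lit 2890922, nat_lit 2929450, nat_lit 2948666, nat_lit 2948794, nat_lit 2948922, nat_lit 2949050, nat_lit 2971690, nat_lit 2975418, nat_lit 2978970, nat_lit 2999994, nat_lit 3019530, nat_lit 3027130, nat_lit 3068714, nat_lit 3102490, nat_lit 3143738, nat_lit 3153290, nat_lit 3176490, nat_lit 3178378, nat_lit 3179706, nat_lit 3180586, nat_lit 3195050, nat_lit 3211018, nat_lit 3248266, nat_lit 3250986, nat_lit 3260682, nat_lit 3279770, nat_lit 3298330, nat_lit 3300906,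 nat_lit 3432074, nat_lit 3435034, nat_lit 3466810, nat_lit 3498138, nat_lit 3507866, nat_lit 3508154]
/-- classes -/
def S760 : List ℕ := [nat_lit 17573898, nat_lit 17574154, nat_lit 19197706, nat_lit 70504106, nat_lit 70504362, nat_lit 73431210, nat_lit 77620794, nat_lit 77620922, nat_lit 77621050, nat_lit 77621178, nat_lit 77805626, nat_lit 77805754, nat_lit 77805882, nat_lit 77806010, nat_lit 78360122, nat_lit 78360250, nat_lit 78360378, nat_lit 78360506, nat_lit 78914618, nat_lit 78914746, nat_lit 78914874, nat_lit 78915002, nat_lit 79099450, nat_lit 79099578, nat_lit 79099706, nat_lit 79099834, nat_lit 79284282, nat_lit 79284410, nat_lit 79284538, nat_lit 79284666, nat_lit 79469114, nat_lit 79469242, nat_lit 79469370, nat_lit 79469498, nat_lit 79838778, nat_lit 79838906, nat_lit 79839034, nat_lit 79839162, nat_lit 80208442, nat_lit 80208570, nat_lit 80208698, nat_lit 80208826, nat_lit 115248954, nat_lit 130842762, nat_lit 132866346,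 nat_lit 148528298, nat_lit 150386442, nat_lit 162425786, nat_lit 165415994, nat_lit 165416122, nat_lit 165416250, nat_lit 165416378, nat_lit 165600826, nat_lit 165600954, nat_lit 165601082, nat_lit 165601210, nat_lit 166155322, nat_lit 166155450, nat_lit 166155578, nat_lit 166155706, nat_lit 166709818, nat_lit 166709946, nat_lit 166710074, nat_lit 166710202, nat_lit 166894650, nat_lit 166894778, nat_lit 166894906, nat_lit 166895034, nat_lit 167079482, nat_lit 167079610, nat_lit 167079738, nat_lit 167079866, nat_lit 167264314, nat_lit 167264442, nat_lit 167264570, nat_lit 167264698, nat_lit 167633978, nat_lit 167634106, nat_lit 167634234, nat_lit 167634362, nat_lit 168003642, nat_lit 168003770, nat_lit 168003898, nat_lit 168004026, nat_lit 169772042, nat_lit 183033514, nat_lit 184891658, nat_lit 197543738, nat_lit 269479210, nat_lit 269558842, nat_lit 280319114, nat_lit 288893482, nat_lit 291121546, nat_lit 311421098, nat_lit 324050874,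 nat_lit 358332346, nat_lit 362493866, nat_lit 368754698, nat_lit 372364474, nat_lit 373685386, nat_lit 394131258, nat_lit 414907658, nat_lit 421685162, nat_lit 437095722]
/-- classes -/
def S9880 : List ℕ := [nat_lit 6663739578, nat_lit 6663739834, nat_lit 6751534650, nat_lit 6751534906, nat_lit 16533233546, nat_lit 47698301482, nat_lit 50334385546, nat_lit 70315074618, nat_lit 70315074874, nat_lit 70402869818, nat_lit 70402870202, nat_lit 72158773818, nat_lit 72158774202, nat_lit 96303378106, nat_lit 98022490762, nat_lit 140470439722, nat_lit 143622772794, nat_lit 143622772922, nat_lit 143622773050, nat_lit 143622773178, nat_lit 143622957626, nat_lit 143622957754, nat_lit 143622957882, nat_lit 143622958010, nat_lit 143623512122, nat_lit 143623512250, nat_lit 143623512378, nat_lit 143623512506, nat_lit 143624066618, nat_lit 143624066746, nat_lit 143624066874, nat_lit 143624067002, nat_lit 143624251450, nat_lit 143624251578, nat_lit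 143624251706, nat_lit 143624251834, nat_lit 143624436282, nat_lit 143624436410, nat_lit 143624436538, nat_lit 143624436666, nat_lit 143624621114, nat_lit 143624621242, nat_lit 143624621370, nat_lit 143624621498, nat_lit 143624990778, nat_lit 143624990906, nat_lit 143624991034, nat_lit 143624991162, nat_lit 143625360442, nat_lit 143625360570, nat_lit 143625360698, nat_lit 143625360826, nat_lit 143710567994, nat_lit 143710568122, nat_lit 143710568250, nat_lit 143710568378, nat_lit 143710752826, nat_lit 143710752954, nat_lit 143710753082, nat_lit 143710753210, nat_lit 143711307322, nat_lit 143711307450, nat_lit 143711307578, nat_lit 143711307706, nat_lit 143711861818, nat_lit 143711861946, nat_lit 143711862074, nat_lit 143711862202, nat_lit 143712046650, nat_lit 143712046778, nat_lit 143712046906, nat_lit 143712047034, nat_lit 143712231482, nat_lit 143712231610, nat_lit 143712231738, nat_lit 143712231866, nat_lit 143712416314, nat_lit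 143712416442, nat_lit 143712416570, nat_lit 143712416698, nat_lit 143712785978, nat_lit 143712786106, nat_lit 143712786234, nat_lit 143712786362, nat_lit 143713155642, nat_lit 143713155770, nat_lit 143713155898, nat_lit 143713156026, nat_lit 164465917482, nat_lit 177968313514, nat_lit 186206032570, nat_lit 186206032698, nat_lit 187731645482, nat_lit 198832059658, nat_lit 217809716794, nat_lit 217809716922, nat_lit 217809717050, nat_lit 217809717178, nat_lit 217809901626, nat_lit 217809901754, nat_lit 217809901882, nat_lit 217809902010, nat_lit 217810456122, nat_lit 217810456250, nat_lit 217810456378, nat_lit 217810456506, nat_lit 217811010618, nat_lit 217811010746, nat_lit 217811010874, nat_lit 217811011002, nat_lit 217811195450, nat_lit 217811195578, nat_lit 217811195706, nat_lit 217811195834, nat_lit 217811380282, nat_lit 217811380410, nat_lit 217811380538, nat_lit 217811380666, nat_lit 217811565114, nat_lit 217811565242, nat_lit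 217811565370, nat_lit 217811565498, nat_lit 217811934778, nat_lit 217811934906, nat_lit 217811935034, nat_lit 217811935162, nat_lit 217812304442, nat_lit 217812304570, nat_lit 217812304698, nat_lit 217812304826, nat_lit 217897511994, nat_lit 217897512122, nat_lit 217897512250, nat_lit 217897512378, nat_lit 217897696826, nat_lit 217897696954, nat_lit 217897697082, nat_lit 217897697210, nat_lit 217898251322, nat_lit 217898251450, nat_lit 217898251578, nat_lit 217898251706, nat_lit 217898805818, nat_lit 217898805946, nat_lit 217898806074, nat_lit 217898806202, nat_lit 217898990650, nat_lit 217898990778, nat_lit 217898990906, nat_lit 217898991034, nat_lit 217899175482, nat_lit 217899175610, nat_lit 217899175738, nat_lit 217899175866, nat_lit 217899360314, nat_lit 217899360442, nat_lit 217899360570, nat_lit 217899360698, nat_lit 217899729978, nat_lit 217899730106, nat_lit 217899730234, nat_lit 217899730362, nat_lit 217900099642, nat_lit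 217900099770, nat_lit 217900099898, nat_lit 217900100026, nat_lit 221410983482, nat_lit 221410983866, nat_lit 291996660794, nat_lit 291996660922, nat_lit 291996661050, nat_lit 291996661178, nat_lit 291996845626, nat_lit 291996845754, nat_lit 291996845882, nat_lit 291996846010, nat_lit 291997400122, nat_lit 291997400250, nat_lit 291997400378, nat_lit 291997400506, nat_lit 291997954618, nat_lit 291997954746, nat_lit 291997954874, nat_lit 291997955002, nat_lit 291998139450, nat_lit 291998139578, nat_lit 291998139706, nat_lit 291998139834, nat_lit 291998324282, nat_lit 291998324410, nat_lit 291998324538, nat_lit 291998324666, nat_lit 291998509114, nat_lit 291998509242, nat_lit 291998509370, nat_lit 291998509498, nat_lit 291998878778, nat_lit 291998878906, nat_lit 291998879034, nat_lit 291998879162, nat_lit 291999248442, nat_lit 291999248570, nat_lit 291999248698, nat_lit 291999248826, nat_lit 292084455994, nat_lit 292084456122, nat_lit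 292084456250, nat_lit 292084456378, nat_lit 292084640826, nat_lit 292084640954, nat_lit 292084641082, nat_lit 292084641210, nat_lit 292085195322, nat_lit 292085195450, nat_lit 292085195578, nat_lit 292085195706, nat_lit 292085749818, nat_lit 292085749946, nat_lit 292085750074, nat_lit 292085750202, nat_lit 292085934650, nat_lit 292085934778, nat_lit 292085934906, nat_lit 292085935034, nat_lit 292086119482, nat_lit 292086119610, nat_lit 292086119738, nat_lit 292086119866, nat_lit 292086304314, nat_lit 292086304442, nat_lit 292086304570, nat_lit 292086304698, nat_lit 292086673978, nat_lit 292086674106, nat_lit 292086674234, nat_lit 292086674362, nat_lit 292087043642, nat_lit 292087043770, nat_lit 292087043898, nat_lit 292087044026, nat_lit 311382512298, nat_lit 311418875658, nat_lit 324275709098, nat_lit 325133361546, nat_lit 354675317162, nat_lit 366183604794, nat_lit 366183604922, nat_lit 366183605050, nat_lit 366183605178, nat_lit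 366183789626, nat_lit 366183789754, nat_lit 366183789882, nat_lit 366183790010, nat_lit 366184344122, nat_lit 366184344250, nat_lit 366184344378, nat_lit 366184344506, nat_lit 366184898618, nat_lit 366184898746, nat_lit 366184898874, nat_lit 366184899002, nat_lit 366185083450, nat_lit 366185083578, nat_lit 366185083706, nat_lit 366185083834, nat_lit 366185268282, nat_lit 366185268410, nat_lit 366185268538, nat_lit 366185268666, nat_lit 366185453114, nat_lit 366185453242, nat_lit 366185453370, nat_lit 366185453498, nat_lit 366185822778, nat_lit 366185822906, nat_lit 366185823034, nat_lit 366185823162, nat_lit 366186192442, nat_lit 366186192570, nat_lit 366186192698, nat_lit 366186192826, nat_lit 366271399994, nat_lit 366271400122, nat_lit 366271400250, nat_lit 366271400378, nat_lit 366271584826, nat_lit 366271584954, nat_lit 366271585082, nat_lit 366271585210, nat_lit 366272139322, nat_lit 366272139450, nat_lit 366272139578, nat_lit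 366272139706, nat_lit 366272693818, nat_lit 366272693946, nat_lit 366272694074, nat_lit 366272694202, nat_lit 366272878650, nat_lit 366272878778, nat_lit 366272878906, nat_lit 366272879034, nat_lit 366273063482, nat_lit 366273063610, nat_lit 366273063738, nat_lit 366273063866, nat_lit 366273248314, nat_lit 366273248442, nat_lit 366273248570, nat_lit 366273248698, nat_lit 366273617978, nat_lit 366273618106, nat_lit 366273618234, nat_lit 366273618362, nat_lit 366273987642, nat_lit 366273987770, nat_lit 366273987898, nat_lit 366273988026, nat_lit 484145683258, nat_lit 488421631114, nat_lit 507096749114, nat_lit 519578087210, nat_lit 519682293386, nat_lit 537236402698, nat_lit 578211600570, nat_lit 578211600698, nat_lit 578299395770, nat_lit 578299396026, nat_lit 588744436794, nat_lit 588744436922, nat_lit 588744437050, nat_lit 588744437178, nat_lit 588744621626, nat_lit 588744621754, nat_lit 588744621882, nat_lit 588744622010, nat_lit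 588745176122, nat_lit 588745176250, nat_lit 588745176378, nat_lit 588745176506, nat_lit 588745730618, nat_lit 588745730746, nat_lit 588745730874, nat_lit 588745731002, nat_lit 588745915450, nat_lit 588745915578, nat_lit 588745915706, nat_lit 588745915834, nat_lit 588746100282, nat_lit 588746100410, nat_lit 588746100538, nat_lit 588746100666, nat_lit 588746285114, nat_lit 588746285242, nat_lit 588746285370, nat_lit 588746285498, nat_lit 588746654778, nat_lit 588746654906, nat_lit 588746655034, nat_lit 588746655162, nat_lit 588747024442, nat_lit 588747024570, nat_lit 588747024698, nat_lit 588747024826, nat_lit 588832231994, nat_lit 588832232122, nat_lit 588832232250, nat_lit 588832232378, nat_lit 588832416826, nat_lit 588832416954, nat_lit 588832417082, nat_lit 588832417210, nat_lit 588832971322, nat_lit 588832971450, nat_lit 588832971578, nat_lit 588832971706, nat_lit 588833525818, nat_lit 588833525946, nat_lit 588833526074, nat_lit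 588833526202, nat_lit 588833710650, nat_lit 588833710778, nat_lit 588833710906, nat_lit 588833711034, nat_lit 588833895482, nat_lit 588833895610, nat_lit 588833895738, nat_lit 588833895866, nat_lit 588834080314, nat_lit 588834080442, nat_lit 588834080570, nat_lit 588834080698, nat_lit 588834449978, nat_lit 588834450106, nat_lit 588834450234, nat_lit 588834450362, nat_lit 588834819642, nat_lit 588834819770, nat_lit 588834819898, nat_lit 588834820026, nat_lit 614938764474, nat_lit 615962242618, nat_lit 615962242874, nat_lit 621420598842, nat_lit 638998973482, nat_lit 673466989754, nat_lit 702950962442, nat_lit 708796157482, nat_lit 721089713546, nat_lit 725760194346, nat_lit 736328167994, nat_lit 747320185514, nat_lit 753011843770, nat_lit 753011844026, nat_lit 820524504250, nat_lit 820524504378, nat_lit 822932145546, nat_lit 861204300474, nat_lit 874080315578, nat_lit 874080315834, nat_lit 874168110650, nat_lit 874168110906, nat_lit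 885492212794, nat_lit 885492212922, nat_lit 885492213050, nat_lit 885492213178, nat_lit 885492397626, nat_lit 885492397754, nat_lit 885492397882, nat_lit 885492398010, nat_lit 885492952122, nat_lit 885492952250, nat_lit 885492952378, nat_lit 885492952506, nat_lit 885493506618, nat_lit 885493506746, nat_lit 885493506874, nat_lit 885493507002, nat_lit 885493691450, nat_lit 885493691578, nat_lit 885493691706, nat_lit 885493691834, nat_lit 885493876282, nat_lit 885493876410, nat_lit 885493876538, nat_lit 885493876666, nat_lit 885494061114, nat_lit 885494061242, nat_lit 885494061370, nat_lit 885494061498, nat_lit 885494430778, nat_lit 885494430906, nat_lit 885494431034, nat_lit 885494431162, nat_lit 885494800442, nat_lit 885494800570, nat_lit 885494800698, nat_lit 885494800826, nat_lit 885580007994, nat_lit 885580008122, nat_lit 885580008250, nat_lit 885580008378, nat_lit 885580192826, nat_lit 885580192954, nat_lit 885580193082, nat_lit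 885580193210, nat_lit 885580747322, nat_lit 885580747450, nat_lit 885580747578, nat_lit 885580747706, nat_lit 885581301818, nat_lit 885581301946, nat_lit 885581302074, nat_lit 885581302202, nat_lit 885581486650, nat_lit 885581486778, nat_lit 885581486906, nat_lit 885581487034, nat_lit 885581671482, nat_lit 885581671610, nat_lit 885581671738, nat_lit 885581671866, nat_lit 885581856314, nat_lit 885581856442, nat_lit 885581856570, nat_lit 885581856698, nat_lit 885582225978, nat_lit 885582226106, nat_lit 885582226234, nat_lit 885582226362, nat_lit 885582595642, nat_lit 885582595770, nat_lit 885582595898, nat_lit 885582596026, nat_lit 894957138874, nat_lit 905877046842, nat_lit 929901554442]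
/-- classes before the last filter -/
def S6 : List ℕ := [nat_lit 66552440302650, nat_lit 184384150265514, nat_lit 184909132914442, nat_lit 303705185723578, nat_lit 307723659638202, nat_lit 308231468368698]

/-- the ghost classes -/
def ghB (c : ℕ) : Bool :=
  cls (nat_lit 8) (nat_lit 1) c fun a b _ => @Bool.rec (fun _ => Bool) false (
  cls (nat_lit 19) (nat_lit 512) c fun a b _ => @Bool.rec (fun _ => Bool) false (
  cls (nat_lit 5) (nat_lit 3511808) c fun a b _ => @Bool.rec (fun _ => Bool) false (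
  cls (nat_lit 13) (nat_lit 438976000) c fun a b _ => @Bool.rec (fun _ => Bool) false (
  cls (nat_lit 7) (nat_lit 964430272000) c fun a b _ => @Bool.rec (fun _ => Bool) false (
  true)
    (andB (Nat.beq a (nat_lit 2)) (Nat.beq b (nat_lit 6))))
    (andB (Nat.beq a (nat_lit 2)) (Nat.beq b (nat_lit 12))))
    (andB (Nat.beq a (nat_lit 2)) (Nat.beq b (nat_lit 4))))
    (andB (Nat.beq a (nat_lit 2)) (Nat.beq b (nat_lit 18))))
    (andB (Nat.beq a (nat_lit 2)) (Nat.beq b (nat_lit 7)))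

/-- the test of the last stage -/
def okD (c : ℕ) : Bool := @Bool.rec (fun _ => Bool) (memB c S6) true (ghB c)

end Pool.Agent.P4E


end

section

/-!
The system of conditions on the parameters of the family of period four, first partial quotient
congruent to two modulo four.
-/

namespace Pool.Agent.P4E

open Finset
open Pool.Agent.LibH4 Pool.Agent.LibH4.Ker Pool.Agent.LibH4.T6 Pool.Agent.LibH4.KF
open Pool.Agent.Lib_helper5 Pool.Agent.Lib_helper5.LK Pool.Agent.Lib_helper5.K4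
open Pool.Agent.Lib_helper5.K5 (In)

/-- the system of conditions -/
structure SysE (Q : ℕ) (a b t : ℤ) : Prop where
  oa : a % 4 = 2
  ob : b % 2 = 1
  ot : t % 2 = 0
  inr : ∀ p : ℕ, p.Prime → p ≠ 2 → p ∣ Q → In p (zd a b t)
  rel : AllRel Q a b t

lemma SysE.neg {Q : ℕ} {a b t : ℤ} (h : SysE Q a b t) : SysE Q (-a) (-b) t where
  oa := by have := h.oa; omega
  ob := by have := h.ob; omega
  ot := h.ot
  inr := by rw [zd_neg]; exact h.inr
  rel := fun n1 n2 n3 N T1 T2 T3 _ _ _ _ _ h1 h2 h3 h4 h5 h6 =>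
    Rel_neg _ (h.rel n1 n2 n3 N T1 T2 T3 h1 h2 h3 h4 h5 h6)

lemma SysE.mono {Q Q' : ℕ} {a b t : ℤ} (h : SysE Q a b t) (hQ : Q' ∣ Q) : SysE Q' a b t where
  oa := h.oa
  ob := h.ob
  ot := h.ot
  inr := fun p hp hp2 hd => h.inr p hp hp2 (hd.trans hQ)
  rel := fun n1 n2 n3 N T1 T2 T3 _ _ _ _ _ h1 h2 h3 h4 h5 h6 =>
    h.rel n1 n2 n3 N T1 T2 T3 h1 h2 h3 h4 h5 (h6.trans (pow_dvd_pow_of_dvd hQ 6))

/-- parity of the parameters -/
lemma parity {a b B : ℕ} {m r t : ℤ} (ha : a % 2 = 0) (hm2 : m % 2 = 1) (hB2 : B % 2 = 1)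
    (hB : zB a b t = B) (hm : zm a b t = m) : (b : ℤ) % 2 = 1 ∧ t % 2 = 0 := by
  obtain ⟨i, hi⟩ : ∃ i : ℤ, (a : ℤ) = 2 * i := ⟨(a : ℤ) / 2, by omega⟩
  have eB : zB a b t % 2 = 1 := by rw [hB]; omega
  have em : zm a b t % 2 = 1 := by rw [hm]; omega
  rcases Int.emod_two_eq_zero_or_one (b : ℤ) with hb | hb
  · exfalso
    obtain ⟨k, hk⟩ : ∃ k : ℤ, (b : ℤ) = 2 * k := ⟨(b : ℤ) / 2, by omega⟩
    have e : zB a b t = 2 * (i * t * (2 + a * b) - k * (1 + a * b)) := by
      unfold zB; rw [hk, hi]; ring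
    omega
  · refine ⟨hb, ?_⟩
    obtain ⟨k, hk⟩ : ∃ k : ℤ, (b : ℤ) = 2 * k + 1 := ⟨(b : ℤ) / 2, by omega⟩
    rcases Int.emod_two_eq_zero_or_one t with ht | ht
    · exact ht
    · exfalso
      obtain ⟨j, hj⟩ : ∃ j : ℤ, t = 2 * j + 1 := ⟨t / 2, by omega⟩
      have e : zm a b t = 2 * (j + t * i * b - 2 * k ^ 2 - 2 * k) := by
        unfold zm
        rw [hi]
        rw [show (b : ℤ) * b = (2 * k + 1) * (2 * k + 1) by rw [hk]]
        rw [show t * (1 + 2 * i * (b : ℤ)) = t + 2 * (t * i * b) by ring, hj]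
        ring
      omega

lemma sys_of {a b B : ℕ} {m r : ℤ} (h : E4.Par a b B m r) (hm2 : m % 2 = 1) (hB2 : B % 2 = 1)
    (ha2 : a % 4 = 2)
    [IsDomain (QuadraticAlgebra ℤ m (B : ℤ))]
    [UniqueFactorizationMonoid (QuadraticAlgebra ℤ m (B : ℤ))] {Q : ℕ}
    (hQ : ∀ p : ℕ, p.Prime → p ≠ 2 → p ∣ Q → (p : ℤ) < m ∧ (p : ℤ) ≠ r) :
    ∃ t : ℤ, zB a b t = B ∧ zm a b t = m ∧ zr a b t = r ∧ SysE Q a b t := by
  obtain ⟨t, hB, hm, hr⟩ := exists_t h
  refine ⟨t, hB, hm, hr, ?_⟩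
  obtain ⟨d, hd⟩ : ∃ d : ℕ, (d : ℤ) = (B : ℤ) ^ 2 + 4 * m := by
    refine ⟨((B : ℤ) ^ 2 + 4 * m).toNat, Int.toNat_of_nonneg ?_⟩
    have : (0 : ℤ) ≤ (B : ℤ) ^ 2 := sq_nonneg _
    have := h.hm
    omega
  have h8 : d % 8 = 5 := by
    obtain ⟨j, hj⟩ : ∃ j : ℤ, (B : ℤ) = 2 * j + 1 := ⟨(B : ℤ) / 2, by omega⟩
    obtain ⟨i, hi⟩ : ∃ i : ℤ, m = 2 * i + 1 := ⟨m / 2, by omega⟩
    have e : (d : ℤ) = 4 * (j * (j + 1)) + 8 * i + 5 := by rw [hd, hj, hi]; ring
    obtain ⟨k, hk⟩ : ∃ k : ℤ, j * (j + 1) = 2 * k := by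
      have := Int.even_mul_succ_self j
      obtain ⟨k, hk⟩ := this
      exact ⟨k, by omega⟩
    rw [hk] at e
    omega
  have cop : ∀ p : ℕ, p.Prime → p ∣ Q → ¬ p ∣ d := by
    intro p hp hpQ hdvd
    rcases eq_or_ne p 2 with rfl | hp2
    · omega
    obtain ⟨h0, h0'⟩ := hQ p hp hp2 hpQ
    have h1 := E4.inert h hd h8 p hp hp2 h0' h0
    have h2 : jacobiSym (d : ℤ) p ≠ 0 := by rw [h1]; norm_num
    apply h2
    have : Fact p.Prime := ⟨hp⟩
    rw [← jacobiSym.legendreSym.to_jacobiSym, legendreSym.eq_zero_iff]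
    have : ((d : ℕ) : ZMod p) = 0 := by rw [ZMod.natCast_eq_zero_iff]; exact hdvd
    exact_mod_cast this
  have hcopP : Nat.Coprime d (Q ^ 6) := by
    apply Nat.Coprime.pow_right
    by_contra hc
    obtain ⟨p, hp, h1, h2⟩ := Nat.Prime.not_coprime_iff_dvd.1 hc
    exact cop p hp h2 h1
  have ha' : (a : ℤ) % 4 = 2 := by omega
  have hpar := parity (r := r) (by omega) hm2 hB2 hB hm
  refine ⟨ha', hpar.1, hpar.2, ?_, ?_⟩
  · intro p hp hp2 hpQ
    obtain ⟨h0, h0'⟩ := hQ p hp hp2 hpQ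
    exact in_of h hd h8 hB hm hp hp2 h0' h0
  intro n1 n2 n3 N T1 T2 T3 _ _ _ _ _ h1 h2 h3 h4 hN2 h5
  have hN : 0 < N := by omega
  obtain ⟨ho, hs⟩ := relOk_spec hN h1 h2 h3 h4
  have hdq : Nat.Coprime (n1 * n2 * n3) d :=
    (Nat.Coprime.coprime_dvd_right ((Dvd.intro _ rfl).trans h5) hcopP).symm
  have hdN : Nat.Coprime d N := Nat.Coprime.coprime_dvd_right ((Dvd.intro_left _ rfl).trans h5) hcopP
  have hc := tri_char (n1 := n1) (n2 := n2) (n3 := n3) (tabCk_char h2) (tabCk_char h3)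
    (tabCk_char h4)
  exact rel_of h hm2 hB2 hd h8 hB hm hr hdq hN2 hdN _ ho hc.mul hs

end Pool.Agent.P4E


end

section

/-! generated: vanishing of the values of the relations -/

namespace Pool.Agent.P4E

open Finset
open Pool.Agent.LibH4 Pool.Agent.LibH4.Ker Pool.Agent.LibH4.T6 Pool.Agent.LibH4.KF
open Pool.Agent.Lib_helper5 Pool.Agent.Lib_helper5.LK Pool.Agent.Lib_helper5.K4

/-- direct vectors -/
theorem zB_a1 {Q : ℕ} {a b t : ℤ} (S : SysE Q a b t) (hQ : 38 ∣ Q) (hC : RC 19 T1_a1 1 19 (zd a b t) (J4 a b t)) :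
    ip 6859 2800 (RA 19 T1_a1 960 W_a1 Y1_a1 Y0_a1 19 (zd a b t) (J4 a b t)) (VB 8 T3_a1 960 L8 (J4 a b t)) = 0 :=
  good_a1.twoB (J4_ok a b t) hC (by decide) ((S.mono hQ).rel 19 1 8 6859 T1_a1 T2_a1 T3_a1 rok_a1 tab1_a1 tab2_a1 tab3_a1 (by norm_num) (by norm_num)) (K := 3) rfl (by norm_num [BA, L8]) (by simp [L8])

/-- direct vectors -/
theorem zB_a2 {Q : ℕ} {a b t : ℤ} (S : SysE Q a b t) (hQ : 38 ∣ Q) (hC : RC 19 T1_a2 1 19 (zd a b t) (J4 a b t)) :
    ip 6859 2800 (RA 19 T1_a2 960 W_a2 Y1_a2 Y0_a2 19 (zd a b t) (J4 a b t)) (VB 8 T3_a2 960 L8 (J4 a b t)) = 0 :=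
  good_a2.twoB (J4_ok a b t) hC (by decide) ((S.mono hQ).rel 19 1 8 6859 T1_a2 T2_a2 T3_a2 rok_a2 tab1_a2 tab2_a2 tab3_a2 (by norm_num) (by norm_num)) (K := 3) rfl (by norm_num [BA, L8]) (by simp [L8])

/-- direct vectors -/
theorem zB_b1 {Q : ℕ} {a b t : ℤ} (S : SysE Q a b t) (hQ : 95 ∣ Q) (hC : RC 19 T1_b1 1 19 (zd a b t) (J4 a b t)) :
    ip 6859 1360 (RA 19 T1_b1 480 W_b1 Y1_b1 Y0_b1 19 (zd a b t) (J4 a b t)) (VB 5 T3_b1 480 L5 (J4 a b t)) = 0 :=
  good_b1.twoB (J4_ok a b t) hC (by decide) ((S.mono hQ).rel 19 1 5 6859 T1_b1 T2_b1 T3_b1 rok_b1 tab1_b1 tab2_b1 tab3_b1 (by norm_num) (by norm_num)) (K := 3) rfl (by norm_num [BA, L5]) (by simp [L5])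

/-- vectors by completing the square -/
theorem zC_b1 {Q : ℕ} {a b t : ℤ} (S : SysE Q a b t) (hQ : 95 ∣ Q) (hC : RC 19 T1_b1 1 19 (zd a b t) (J4 a b t))
    (hi : ∀ x ∈ (J4 a b t).map (fkI 5), 2 * x.2.2 * ii 5 x.2.2 % 5 = 1) :
    ip 6859 1360 (RA 19 T1_b1 480 W_b1 Y1_b1 Y0_b1 19 (zd a b t) (J4 a b t)) (VC 5 T3_b1 480 (zd a b t) (J4 a b t)) = 0 :=
  (L5_eq ▸ good_b1).twoC (J4_ok a b t) hC (by decide) ((S.mono hQ).rel 19 1 5 6859 T1_b1 T2_b1 T3_b1 rok_b1 tab1_b1 tab2_b1 tab3_b1 (by norm_num) (by norm_num)) hi (K := 3) rfl (by norm_num [BA]) (by norm_num)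

/-- direct vectors -/
theorem zB_b2 {Q : ℕ} {a b t : ℤ} (S : SysE Q a b t) (hQ : 190 ∣ Q) (hC : RC 19 T1_b2 1 19 (zd a b t) (J4 a b t)) :
    ip 6859 17200 (RA 19 T1_b2 5760 W_b2 Y1_b2 Y0_b2 19 (zd a b t) (J4 a b t)) (VB 40 T3_b2 5760 L40 (J4 a b t)) = 0 :=
  good_b2.twoB (J4_ok a b t) hC (by decide) ((S.mono hQ).rel 19 1 40 6859 T1_b2 T2_b2 T3_b2 rok_b2 tab1_b2 tab2_b2 tab3_b2 (by norm_num) (by norm_num)) (K := 3) rfl (by norm_num [BA, L40]) (by simp [L40])

/-- direct vectors -/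
theorem zB_b3 {Q : ℕ} {a b t : ℤ} (S : SysE Q a b t) (hQ : 190 ∣ Q) (hC : RC 19 T1_b3 1 19 (zd a b t) (J4 a b t)) :
    ip 6859 17200 (RA 19 T1_b3 5760 W_b3 Y1_b3 Y0_b3 19 (zd a b t) (J4 a b t)) (VB 40 T3_b3 5760 L40 (J4 a b t)) = 0 :=
  good_b3.twoB (J4_ok a b t) hC (by decide) ((S.mono hQ).rel 19 1 40 6859 T1_b3 T2_b3 T3_b3 rok_b3 tab1_b3 tab2_b3 tab3_b3 (by norm_num) (by norm_num)) (K := 3) rfl (by norm_num [BA, L40]) (by simp [L40])

/-- direct vectors -/
theorem zB_c1 {Q : ℕ} {a b t : ℤ} (S : SysE Q a b t) (hQ : 247 ∣ Q) (hC : RC 19 T1_c1 1 19 (zd a b t) (J4 a b t)) :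
    ip 6859 3280 (RA 19 T1_c1 1120 W_c1 Y1_c1 Y0_c1 19 (zd a b t) (J4 a b t)) (VB 13 T3_c1 1120 L13 (J4 a b t)) = 0 :=
  good_c1.twoB (J4_ok a b t) hC (by decide) ((S.mono hQ).rel 19 1 13 6859 T1_c1 T2_c1 T3_c1 rok_c1 tab1_c1 tab2_c1 tab3_c1 (by norm_num) (by norm_num)) (K := 3) rfl (by norm_num [BA, L13]) (by simp [L13])

/-- vectors by completing the square -/
theorem zC_c1 {Q : ℕ} {a b t : ℤ} (S : SysE Q a b t) (hQ : 247 ∣ Q) (hC : RC 19 T1_c1 1 19 (zd a b t) (J4 a b t))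
    (hi : ∀ x ∈ (J4 a b t).map (fkI 13), 2 * x.2.2 * ii 13 x.2.2 % 13 = 1) :
    ip 6859 3280 (RA 19 T1_c1 1120 W_c1 Y1_c1 Y0_c1 19 (zd a b t) (J4 a b t)) (VC 13 T3_c1 1120 (zd a b t) (J4 a b t)) = 0 :=
  (L13_eq ▸ good_c1).twoC (J4_ok a b t) hC (by decide) ((S.mono hQ).rel 19 1 13 6859 T1_c1 T2_c1 T3_c1 rok_c1 tab1_c1 tab2_c1 tab3_c1 (by norm_num) (by norm_num)) hi (K := 3) rfl (by norm_num [BA]) (by norm_num)

/-- direct vectors -/
theorem zB_c2 {Q : ℕ} {a b t : ℤ} (S : SysE Q a b t) (hQ : 247 ∣ Q) (hC : RC 19 T1_c2 1 19 (zd a b t) (J4 a b t)) :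
    ip 6859 3280 (RA 19 T1_c2 1120 W_c2 Y1_c2 Y0_c2 19 (zd a b t) (J4 a b t)) (VB 13 T3_c2 1120 L13 (J4 a b t)) = 0 :=
  good_c2.twoB (J4_ok a b t) hC (by decide) ((S.mono hQ).rel 19 1 13 6859 T1_c2 T2_c2 T3_c2 rok_c2 tab1_c2 tab2_c2 tab3_c2 (by norm_num) (by norm_num)) (K := 3) rfl (by norm_num [BA, L13]) (by simp [L13])

/-- vectors by completing the square -/
theorem zC_c2 {Q : ℕ} {a b t : ℤ} (S : SysE Q a b t) (hQ : 247 ∣ Q) (hC : RC 19 T1_c2 1 19 (zd a b t) (J4 a b t))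
    (hi : ∀ x ∈ (J4 a b t).map (fkI 13), 2 * x.2.2 * ii 13 x.2.2 % 13 = 1) :
    ip 6859 3280 (RA 19 T1_c2 1120 W_c2 Y1_c2 Y0_c2 19 (zd a b t) (J4 a b t)) (VC 13 T3_c2 1120 (zd a b t) (J4 a b t)) = 0 :=
  (L13_eq ▸ good_c2).twoC (J4_ok a b t) hC (by decide) ((S.mono hQ).rel 19 1 13 6859 T1_c2 T2_c2 T3_c2 rok_c2 tab1_c2 tab2_c2 tab3_c2 (by norm_num) (by norm_num)) hi (K := 3) rfl (by norm_num [BA]) (by norm_num)

/-- direct vectors -/
theorem zB_c4 {Q : ℕ} {a b t : ℤ} (S : SysE Q a b t) (hQ : 130 ∣ Q) (hC : RC 5 T1_c4 1 5 (zd a b t) (J4 a b t)) :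
    ip 125 3280 (red 13440 1120 12320 3 (RA 5 T1_c4 13440 W_c4 Y1_c4 Y0_c4 5 (zd a b t) (J4 a b t)) (VA 8 T2_c4 1120 13440 L8 (J4 a b t))) (VB 13 T3_c4 1120 L13 (J4 a b t)) = 0 :=
  good_c4.threeB (J4_ok a b t) hC ((S.mono hQ).rel 5 8 13 125 T1_c4 T2_c4 T3_c4 rok_c4 tab1_c4 tab2_c4 tab3_c4 (by norm_num) (by norm_num)) (K := 3) rfl (by norm_num [BA, L8, L13]) (by simp [L13]) (by simp [L8])

/-- vectors by completing the square -/
theorem zC_c4 {Q : ℕ} {a b t : ℤ} (S : SysE Q a b t) (hQ : 130 ∣ Q) (hC : RC 5 T1_c4 1 5 (zd a b t) (J4 a b t))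
    (hi : ∀ x ∈ (J4 a b t).map (fkI 13), 2 * x.2.2 * ii 13 x.2.2 % 13 = 1) :
    ip 125 3280 (red 13440 1120 12320 3 (RA 5 T1_c4 13440 W_c4 Y1_c4 Y0_c4 5 (zd a b t) (J4 a b t)) (VA 8 T2_c4 1120 13440 L8 (J4 a b t))) (VC 13 T3_c4 1120 (zd a b t) (J4 a b t)) = 0 :=
  (L13_eq ▸ good_c4).threeC (J4_ok a b t) hC ((S.mono hQ).rel 5 8 13 125 T1_c4 T2_c4 T3_c4 rok_c4 tab1_c4 tab2_c4 tab3_c4 (by norm_num) (by norm_num)) hi (K := 3) rfl (by norm_num [BA, L8]) (by norm_num) (by simp [L8])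

/-- direct vectors -/
theorem zB_d1 {Q : ℕ} {a b t : ℤ} (S : SysE Q a b t) (hQ : 91 ∣ Q) (hC : RC 13 T1_d1 1 13 (zd a b t) (J4 a b t)) :
    ip 2197 1840 (RA 13 T1_d1 640 W_d1 Y1_d1 Y0_d1 13 (zd a b t) (J4 a b t)) (VB 7 T3_d1 640 L7 (J4 a b t)) = 0 :=
  good_d1.twoB (J4_ok a b t) hC (by decide) ((S.mono hQ).rel 13 1 7 2197 T1_d1 T2_d1 T3_d1 rok_d1 tab1_d1 tab2_d1 tab3_d1 (by norm_num) (by norm_num)) (K := 3) rfl (by norm_num [BA, L7]) (by simp [L7])

/-- vectors by completing the square -/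
theorem zC_d1 {Q : ℕ} {a b t : ℤ} (S : SysE Q a b t) (hQ : 91 ∣ Q) (hC : RC 13 T1_d1 1 13 (zd a b t) (J4 a b t))
    (hi : ∀ x ∈ (J4 a b t).map (fkI 7), 2 * x.2.2 * ii 7 x.2.2 % 7 = 1) :
    ip 2197 1840 (RA 13 T1_d1 640 W_d1 Y1_d1 Y0_d1 13 (zd a b t) (J4 a b t)) (VC 7 T3_d1 640 (zd a b t) (J4 a b t)) = 0 :=
  (L7_eq ▸ good_d1).twoC (J4_ok a b t) hC (by decide) ((S.mono hQ).rel 13 1 7 2197 T1_d1 T2_d1 T3_d1 rok_d1 tab1_d1 tab2_d1 tab3_d1 (by norm_num) (by norm_num)) hi (K := 3) rfl (by norm_num [BA]) (by norm_num)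

/-- direct vectors -/
theorem zB_d3 {Q : ℕ} {a b t : ℤ} (S : SysE Q a b t) (hQ : 3458 ∣ Q) (hC : RC 13 T1_d3 0 19 (zd a b t) (J4 a b t)) :
    ip 19 1840 (red 7680 640 7040 3 (RA 13 T1_d3 7680 W_d3 Y1_d3 Y0_d3 19 (zd a b t) (J4 a b t)) (VA 8 T2_d3 640 7680 L8 (J4 a b t))) (VB 7 T3_d3 640 L7 (J4 a b t)) = 0 :=
  good_d3.threeB (J4_ok a b t) hC ((S.mono hQ).rel 13 8 7 19 T1_d3 T2_d3 T3_d3 rok_d3 tab1_d3 tab2_d3 tab3_d3 (by norm_num) (by norm_num)) (K := 3) rfl (by norm_num [BA, L8, L7]) (by simp [L7]) (by simp [L8])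

/-- vectors by completing the square -/
theorem zC_d3 {Q : ℕ} {a b t : ℤ} (S : SysE Q a b t) (hQ : 3458 ∣ Q) (hC : RC 13 T1_d3 0 19 (zd a b t) (J4 a b t))
    (hi : ∀ x ∈ (J4 a b t).map (fkI 7), 2 * x.2.2 * ii 7 x.2.2 % 7 = 1) :
    ip 19 1840 (red 7680 640 7040 3 (RA 13 T1_d3 7680 W_d3 Y1_d3 Y0_d3 19 (zd a b t) (J4 a b t)) (VA 8 T2_d3 640 7680 L8 (J4 a b t))) (VC 7 T3_d3 640 (zd a b t) (J4 a b t)) = 0 :=
  (L7_eq ▸ good_d3).threeC (J4_ok a b t) hC ((S.mono hQ).rel 13 8 7 19 T1_d3 T2_d3 T3_d3 rok_d3 tab1_d3 tab2_d3 tab3_d3 (by norm_num) (by norm_num)) hi (K := 3) rfl (by norm_num [BA, L8]) (by norm_num) (by simp [L8])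

/-- direct vectors -/
theorem zB_d4 {Q : ℕ} {a b t : ℤ} (S : SysE Q a b t) (hQ : 182 ∣ Q) (hC : RC 13 T1_d4 1 13 (zd a b t) (J4 a b t)) :
    ip 2197 1840 (red 7680 640 7040 3 (RA 13 T1_d4 7680 W_d4 Y1_d4 Y0_d4 13 (zd a b t) (J4 a b t)) (VA 8 T2_d4 640 7680 L8 (J4 a b t))) (VB 7 T3_d4 640 L7 (J4 a b t)) = 0 :=
  good_d4.threeB (J4_ok a b t) hC ((S.mono hQ).rel 13 8 7 2197 T1_d4 T2_d4 T3_d4 rok_d4 tab1_d4 tab2_d4 tab3_d4 (by norm_num) (by norm_num)) (K := 3) rfl (by norm_num [BA, L8, L7]) (by simp [L7]) (by simp [L8])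

/-- direct vectors -/
theorem zB_d5 {Q : ℕ} {a b t : ℤ} (S : SysE Q a b t) (hQ : 182 ∣ Q) (hC : RC 7 T1_d5 1 7 (zd a b t) (J4 a b t)) :
    ip 343 3280 (red 13440 1120 12320 3 (RA 7 T1_d5 13440 W_d5 Y1_d5 Y0_d5 7 (zd a b t) (J4 a b t)) (VA 8 T2_d5 1120 13440 L8 (J4 a b t))) (VB 13 T3_d5 1120 L13 (J4 a b t)) = 0 :=
  good_d5.threeB (J4_ok a b t) hC ((S.mono hQ).rel 7 8 13 343 T1_d5 T2_d5 T3_d5 rok_d5 tab1_d5 tab2_d5 tab3_d5 (by norm_num) (by norm_num)) (K := 3) rfl (by norm_num [BA, L8, L13]) (by simp [L13]) (by simp [L8])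

/-- vectors by completing the square -/
theorem zC_d5 {Q : ℕ} {a b t : ℤ} (S : SysE Q a b t) (hQ : 182 ∣ Q) (hC : RC 7 T1_d5 1 7 (zd a b t) (J4 a b t))
    (hi : ∀ x ∈ (J4 a b t).map (fkI 13), 2 * x.2.2 * ii 13 x.2.2 % 13 = 1) :
    ip 343 3280 (red 13440 1120 12320 3 (RA 7 T1_d5 13440 W_d5 Y1_d5 Y0_d5 7 (zd a b t) (J4 a b t)) (VA 8 T2_d5 1120 13440 L8 (J4 a b t))) (VC 13 T3_d5 1120 (zd a b t) (J4 a b t)) = 0 :=
  (L13_eq ▸ good_d5).threeC (J4_ok a b t) hC ((S.mono hQ).rel 7 8 13 343 T1_d5 T2_d5 T3_d5 rok_d5 tab1_d5 tab2_d5 tab3_d5 (by norm_num) (by norm_num)) hi (K := 3) rfl (by norm_num [BA, L8]) (by norm_num) (by simp [L8])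

/-- direct vectors -/
theorem zB_h1 {Q : ℕ} {a b t : ℤ} (S : SysE Q a b t) (hQ : 70 ∣ Q) (hC : RC 7 T1_h1 1 7 (zd a b t) (J4 a b t)) :
    ip 343 1360 (red 5760 480 5280 3 (RA 7 T1_h1 5760 W_h1 Y1_h1 Y0_h1 7 (zd a b t) (J4 a b t)) (VA 8 T2_h1 480 5760 L8 (J4 a b t))) (VB 5 T3_h1 480 L5 (J4 a b t)) = 0 :=
  good_h1.threeB (J4_ok a b t) hC ((S.mono hQ).rel 7 8 5 343 T1_h1 T2_h1 T3_h1 rok_h1 tab1_h1 tab2_h1 tab3_h1 (by norm_num) (by norm_num)) (K := 3) rfl (by norm_num [BA, L8, L5]) (by simp [L5]) (by simp [L8])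

/-- vectors by completing the square -/
theorem zC_h1 {Q : ℕ} {a b t : ℤ} (S : SysE Q a b t) (hQ : 70 ∣ Q) (hC : RC 7 T1_h1 1 7 (zd a b t) (J4 a b t))
    (hi : ∀ x ∈ (J4 a b t).map (fkI 5), 2 * x.2.2 * ii 5 x.2.2 % 5 = 1) :
    ip 343 1360 (red 5760 480 5280 3 (RA 7 T1_h1 5760 W_h1 Y1_h1 Y0_h1 7 (zd a b t) (J4 a b t)) (VA 8 T2_h1 480 5760 L8 (J4 a b t))) (VC 5 T3_h1 480 (zd a b t) (J4 a b t)) = 0 :=
  (L5_eq ▸ good_h1).threeC (J4_ok a b t) hC ((S.mono hQ).rel 7 8 5 343 T1_h1 T2_h1 T3_h1 rok_h1 tab1_h1 tab2_h1 tab3_h1 (by norm_num) (by norm_num)) hi (K := 3) rfl (by norm_num [BA, L8]) (by norm_num) (by simp [L8])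

end Pool.Agent.P4E


end

section

/-!
Stage A: classes modulo 152.
-/

namespace Pool.Agent.P4E

open Finset
open Pool.Agent.LibH4 Pool.Agent.LibH4.Ker Pool.Agent.LibH4.T6 Pool.Agent.LibH4.KF
open Pool.Agent.Lib_helper5 Pool.Agent.Lib_helper5.LK Pool.Agent.Lib_helper5.K4

/-- vectors of a class, inner component -/
def vB (p T w3 : ℕ) (L : List (ℕ × ℕ)) (c : ℕ × ℕ × ℕ) : ℕ :=
  withP4 p c.1 c.2.1 c.2.2 fun B m nm nr R _ =>
    vecB p T (nat_lit 1208925819614629174706176) w3 L (forms4 p B m nm nr R)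

lemma vB_eq {p : ℕ} [NeZero p] (hp : 1 < p) (T w3 : ℕ) (L : List (ℕ × ℕ)) (a b t : ℤ) :
    vB p T w3 L (cl p a b t) = VB p T w3 L (J4 a b t) := by
  unfold vB cl
  rw [withP4_eq, forms4_eq hp, vecB_use]

/-- the check, for the classes modulo 19 with given `a` and `b` in an interval -/
def stA (a b0 nb : ℕ) : Bool :=
  ggl (nat_lit 19) T1_a1 (nat_lit 960) ds19 fun Ga =>
  ggl (nat_lit 19) T1_a2 (nat_lit 960) ds19 fun Gb =>
  mapK (fun x => vB (nat_lit 8) T3_a2 (nat_lit 960) L8 x) D8 fun E2 =>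
  mapK (fun x => vB (nat_lit 8) T3_a1 (nat_lit 960) L8 x.1) E2 fun E1 =>
  allR (fun bb => strict (Nat.add bb b0) fun b => allR (fun t =>
   withP4 (nat_lit 19) a b t fun B _ nm nr R d =>
   @Bool.rec (fun _ => Bool) true (
    (fun FK : List ((ℕ × ℕ) × (ℕ × ℕ)) =>
     rowA (nat_lit 19) T1_a1 (nat_lit 960) Ga W_a1 Y1_a1 Y0_a1 (nat_lit 1) (nat_lit 19) d FK
       (nat_lit 0) fun A => strict A fun Aa =>
     rowA (nat_lit 19) T1_a2 (nat_lit 960) Gb W_a2 Y1_a2 Y0_a2 (nat_lit 1) (nat_lit 19) d FK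
       (nat_lit 0) fun A => strict A fun Ab =>
     strict (Nat.mul (nat_lit 512) (cdK (nat_lit 19) (a, b, t))) fun cn =>
     allL (fun x => cond0 (ip (nat_lit 6859) (nat_lit 2800) Aa x.2) (
        cond0 (ip (nat_lit 6859) (nat_lit 2800) Ab x.1.2) (
        strict (Nat.add (cdK (nat_lit 8) x.1.1) cn) fun c => memB c S152))) E1)
    (FK4 (nat_lit 19) (nat_lit 19) a b B B nm nr R))
   (Nat.beq (Nat.mod (Nat.pow d (nat_lit 9)) (nat_lit 19)) (nat_lit 18))) (nat_lit 19)) nb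

theorem stA_spec {Q : ℕ} {a b t : ℤ} (S : SysE Q a b t) (hQ : 38 ∣ Q) (h8 : cl 8 a b t ∈ D8)
    {b0 nb : ℕ} (h : stA (rs 19 a) b0 nb = true) (hb : b0 ≤ rs 19 b) (hb' : rs 19 b < b0 + nb) :
    c152 a b t ∈ S152 := by
  unfold stA at h
  simp only [ggl_eq, mapK_eq] at h
  have h := allR_spec h (rs 19 b - b0) (by omega)
  rw [strict_eq] at h
  have eb : Nat.add (rs 19 b - b0) b0 = rs 19 b := by
    change rs 19 b - b0 + b0 = _
    omega
  rw [eb] at h
  have h := allR_spec h (rs 19 t) (rs_lt t)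
  rw [withP4_eq] at h
  have ii : Nat.beq (Nat.mod (Nat.pow (rs 19 (zd a b t)) (nat_lit 9)) (nat_lit 19)) (nat_lit 18)
    = true := S.inr 19 (by norm_num) (by norm_num) (Dvd.dvd.trans (by norm_num) hQ)
  rw [ii] at h
  rw [FK4_eq] at h
  obtain ⟨h, Ca⟩ := rowA_use (by norm_num) (by norm_num) h
  obtain ⟨h, Cb⟩ := rowA_use (by norm_num) (by norm_num) h
  rw [strict_eq] at h
  have h := allL_spec h _ (List.mem_map_of_mem (List.mem_map_of_mem h8))
  have ga := zB_a1 S hQ Ca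
  rw [← vB_eq (by norm_num)] at ga
  have h := cond0_zero ga h
  have gb := zB_a2 S hQ Cb
  rw [← vB_eq (by norm_num)] at gb
  have h := cond0_zero gb h
  rw [strict_eq] at h
  exact memB_spec h

end Pool.Agent.P4E


end

section

/-!
Stage B: classes modulo 760.
-/

namespace Pool.Agent.P4E

open Finset
open Pool.Agent.LibH4 Pool.Agent.LibH4.Ker Pool.Agent.LibH4.T6 Pool.Agent.LibH4.KF
open Pool.Agent.Lib_helper5 Pool.Agent.Lib_helper5.LK Pool.Agent.Lib_helper5.K4

/-- filtered version of `mapC` -/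
def filC {β : Type} (p : ℕ → Bool) (f : ℕ → (β → Bool) → Bool) (L : List ℕ) (k : List β → Bool) :
    Bool :=
  @List.rec ℕ (fun _ => (List β → Bool) → Bool) (fun k => k [])
    (fun c _ ih k => @Bool.rec (fun _ => Bool) (ih k) (f c fun y => ih fun r => k (y :: r)) (p c))
    L k

lemma filC_ex {β : Type} {p : ℕ → Bool} {f : ℕ → (β → Bool) → Bool} {L : List ℕ}
    {k : List β → Bool} (h' : ∀ x ∈ L, ∀ k', f x k' = true → ∃ y, k' y = true)
    (h : filC p f L k = true) : ∃ r, k r = true := by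
  induction L generalizing k with
  | nil => exact ⟨[], h⟩
  | cons c L ih =>
    have e : filC p f (c :: L) k = @Bool.rec (fun _ => Bool) (filC p f L k)
      (f c fun y => filC p f L fun r => k (y :: r)) (p c) := rfl
    rw [e] at h
    cases hp : p c with
    | false => rw [hp] at h; exact ih (fun z hz => h' z (by simp [hz])) h
    | true =>
      rw [hp] at h
      obtain ⟨y, hy⟩ := h' c (by simp) _ h
      obtain ⟨r, hr⟩ := ih (fun z hz => h' z (by simp [hz])) hy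
      exact ⟨y :: r, hr⟩

lemma filC_mem {β : Type} {p : ℕ → Bool} {f : ℕ → (β → Bool) → Bool} {L : List ℕ}
    {k : List β → Bool} {x0 : ℕ} {g0 : β} {C : Prop} (hx : x0 ∈ L) (hp : p x0 = true)
    (h0 : ∀ k', f x0 k' = true → k' g0 = true ∧ C)
    (h' : ∀ x ∈ L, ∀ k', f x k' = true → ∃ y, k' y = true) (h : filC p f L k = true) :
    ∃ r, k r = true ∧ g0 ∈ r ∧ C := by
  induction L generalizing k with
  | nil => exact absurd hx (by simp)
  | cons c L ih =>
    have e : filC p f (c :: L) k = @Bool.rec (fun _ => Bool) (filC p f L k)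
      (f c fun y => filC p f L fun r => k (y :: r)) (p c) := rfl
    rw [e] at h
    rcases List.mem_cons.1 hx with rfl | hx
    · rw [hp] at h
      obtain ⟨h2, h3⟩ := h0 _ h
      obtain ⟨r, hr⟩ := filC_ex (fun z hz => h' z (by simp [hz])) h2
      exact ⟨g0 :: r, hr, by simp, h3⟩
    · cases hp' : p c with
      | false => rw [hp'] at h; exact ih hx (fun z hz => h' z (by simp [hz])) h
      | true =>
        rw [hp'] at h
        obtain ⟨y, hy⟩ := h' c (by simp) _ h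
        obtain ⟨r, hr, h4, h5⟩ := ih hx (fun z hz => h' z (by simp [hz])) hy
        exact ⟨y :: r, hr, by simp [h4], h5⟩

lemma rs_int {p : ℕ} [NeZero p] (x : ℤ) : ((rs p x : ℕ) : ℤ) = x % p := ZMod.val_intCast x

/-- residues modulo 40 -/
def m40 (x y : ℕ) : ℕ := Nat.mod (Nat.add (Nat.mul (nat_lit 25) x) (Nat.mul (nat_lit 16) y)) (nat_lit 40)

lemma m40_eq (a : ℤ) : m40 (rs 8 a) (rs 5 a) = rs 40 a := by
  have h8 : (rs 8 a : ℤ) = a % 8 := by
    have := rs_int (p := 8) a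
    exact_mod_cast this
  have h5 : (rs 5 a : ℤ) = a % 5 := by
    have := rs_int (p := 5) a
    exact_mod_cast this
  have h40 : (rs 40 a : ℤ) = a % 40 := by
    have := rs_int (p := 40) a
    exact_mod_cast this
  change (25 * rs 8 a + 16 * rs 5 a) % 40 = _
  omega

/-- the rows of a class -/
def rowsB (G_b1 G_b2 G_b3 : List (ℕ × ℕ × ℕ)) (c : ℕ)
    (k : ((ℕ × ℕ) × ℕ) × ℕ → Bool) : Bool :=
  wq (nat_lit 19) (nat_lit 512) c fun a19 b19 B19 _ nm19 nr19 R19 d19 =>
  rowA (nat_lit 19) T1_b1 (nat_lit 480) G_b1 W_b1 Y1_b1 Y0_b1 (nat_lit 1) (nat_lit 19) d19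
    (FK4 (nat_lit 19) (nat_lit 19) a19 b19 B19 B19 nm19 nr19 R19) (nat_lit 0) fun A =>
    strict A fun A_b1 =>
  rowA (nat_lit 19) T1_b2 (nat_lit 5760) G_b2 W_b2 Y1_b2 Y0_b2 (nat_lit 1) (nat_lit 19) d19
    (FK4 (nat_lit 19) (nat_lit 19) a19 b19 B19 B19 nm19 nr19 R19) (nat_lit 0) fun A =>
    strict A fun A_b2 =>
  rowA (nat_lit 19) T1_b3 (nat_lit 5760) G_b3 W_b3 Y1_b3 Y0_b3 (nat_lit 1) (nat_lit 19) d19
    (FK4 (nat_lit 19) (nat_lit 19) a19 b19 B19 B19 nm19 nr19 R19) (nat_lit 0) fun A =>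
    strict A fun A_b3 =>
  k (((c, A_b3), A_b2), A_b1)

lemma rowsB_ex {c : ℕ} {k : ((ℕ × ℕ) × ℕ) × ℕ → Bool}
    (h : rowsB (ds19.map fun δ => (δ, gg 19 T1_b1 480 δ, LK.gs 19 T1_b1 δ))
      (ds19.map fun δ => (δ, gg 19 T1_b2 5760 δ, LK.gs 19 T1_b2 δ))
      (ds19.map fun δ => (δ, gg 19 T1_b3 5760 δ, LK.gs 19 T1_b3 δ)) c k = true) :
    ∃ y, k y = true := by
  unfold rowsB at h
  obtain ⟨_, _, _, _, _, _, _, _, h⟩ := wq_ex h
  obtain ⟨_, h⟩ := rowA_ex (by norm_num) (by norm_num) h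
  obtain ⟨_, h⟩ := rowA_ex (by norm_num) (by norm_num) h
  obtain ⟨_, h⟩ := rowA_ex (by norm_num) (by norm_num) h
  exact ⟨_, h⟩

/-- the value of the rows -/
def gB (a b t : ℤ) : ((ℕ × ℕ) × ℕ) × ℕ :=
  (((c152 a b t,
    RA 19 T1_b3 5760 W_b3 Y1_b3 Y0_b3 19 (zd a b t) (J4 a b t)),
    RA 19 T1_b2 5760 W_b2 Y1_b2 Y0_b2 19 (zd a b t) (J4 a b t)),
    RA 19 T1_b1 480 W_b1 Y1_b1 Y0_b1 19 (zd a b t) (J4 a b t))

/-- the conditions of the rows -/
def CB (a b t : ℤ) : Prop :=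
  RC 19 T1_b1 1 19 (zd a b t) (J4 a b t) ∧
  RC 19 T1_b2 1 19 (zd a b t) (J4 a b t) ∧
  RC 19 T1_b3 1 19 (zd a b t) (J4 a b t)

lemma rowsB_eq {a b t : ℤ} {k : ((ℕ × ℕ) × ℕ) × ℕ → Bool}
    (h : rowsB (ds19.map fun δ => (δ, gg 19 T1_b1 480 δ, LK.gs 19 T1_b1 δ))
      (ds19.map fun δ => (δ, gg 19 T1_b2 5760 δ, LK.gs 19 T1_b2 δ))
      (ds19.map fun δ => (δ, gg 19 T1_b3 5760 δ, LK.gs 19 T1_b3 δ)) (c152 a b t) k = true) :
    k (gB a b t) = true ∧ CB a b t := by
  unfold rowsB at h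
  rw [wq_eq (c152_19 a b t)] at h
  rw [FK4_eq (p := 19) (l := 19)] at h
  obtain ⟨h, C_b1⟩ := rowA_use (by norm_num) (by norm_num) h
  obtain ⟨h, C_b2⟩ := rowA_use (by norm_num) (by norm_num) h
  obtain ⟨h, C_b3⟩ := rowA_use (by norm_num) (by norm_num) h
  exact ⟨h, C_b1, C_b2, C_b3⟩

/-- the check, for a class modulo 8 -/
def stB (x8 : ℕ × ℕ × ℕ) : Bool :=
  ggl (nat_lit 19) T1_b1 (nat_lit 480) ds19 fun G_b1 =>
  ggl (nat_lit 19) T1_b2 (nat_lit 5760) ds19 fun G_b2 =>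
  ggl (nat_lit 19) T1_b3 (nat_lit 5760) ds19 fun G_b3 =>
  ggl (nat_lit 5) T3_b1 (nat_lit 80) ds5 fun H_b1 =>
  strict (cdK (nat_lit 8) x8) fun c8 =>
  filC (fun c => Nat.beq (Nat.mod c (nat_lit 512)) c8) (rowsB G_b1 G_b2 G_b3) S152 fun E =>
  allR (fun a => allR (fun b => allR (fun t =>
   withP4 (nat_lit 5) a b t fun B m nm nr R d =>
   @Bool.rec (fun _ => Bool) true (
     vecC (nat_lit 5) T3_b1 (nat_lit 80) (nat_lit 480) H_b1 d (forms4 (nat_lit 5) B m nm nr R)
       fun v => strict v fun v_b1 =>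
     withP4 (nat_lit 40) (m40 x8.1 a) (m40 x8.2.1 b) (m40 x8.2.2 t) fun B' m' nm' nr' R' _ =>
     (fun F : List (ℕ × ℕ × ℕ) =>
     strict (vecB (nat_lit 40) T3_b2 (nat_lit 1208925819614629174706176) (nat_lit 5760) L40 F)
       fun v_b2 =>
     strict (vecB (nat_lit 40) T3_b3 (nat_lit 1208925819614629174706176) (nat_lit 5760) L40 F)
       fun v_b3 =>
     strict (Nat.mul (nat_lit 3511808) (cdK (nat_lit 5) (a, b, t))) fun cn =>
     allQ (fun x => cond0 (ip (nat_lit 6859) (nat_lit 1360) x.2 v_b1)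
       (cond0 (ip (nat_lit 6859) (nat_lit 17200) x.1.2 v_b2)
       (cond0 (ip (nat_lit 6859) (nat_lit 17200) x.1.1.2 v_b3)
       (strict (Nat.add x.1.1.1 cn) fun c => memB c S760)))) E)
      (forms4 (nat_lit 40) B' m' nm' nr' R'))
   (Nat.beq (Nat.mod (Nat.pow d (nat_lit 2)) (nat_lit 5)) (nat_lit 4)))
   (nat_lit 5)) (nat_lit 5)) (nat_lit 5)

theorem stB_spec {Q : ℕ} {a b t : ℤ} (S : SysE Q a b t) (hQ : 190 ∣ Q) (hc : c152 a b t ∈ S152)
    (h : stB (cl 8 a b t) = true) : c760 a b t ∈ S760 := by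
  unfold stB at h
  simp only [ggl_eq] at h
  rw [strict_eq] at h
  obtain ⟨E, h, hE, C_b1, C_b2, C_b3⟩ := filC_mem hc
    (by rw [c152_mod]; exact Nat.beq_refl _)
    (fun k' => rowsB_eq) (fun x _ k' => rowsB_ex) h
  have h := allR_spec h (rs 5 a) (rs_lt a)
  have h := allR_spec h (rs 5 b) (rs_lt b)
  have h := allR_spec h (rs 5 t) (rs_lt t)
  rw [withP4_eq] at h
  have ii : Nat.beq (Nat.mod (Nat.pow (rs 5 (zd a b t)) (nat_lit 2)) (nat_lit 5)) (nat_lit 4)
    = true := S.inr 5 (by norm_num) (by norm_num) (Dvd.dvd.trans (by norm_num) hQ)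
  rw [ii] at h
  rw [forms4_eq (by norm_num)] at h
  obtain ⟨h, I_b1⟩ := vecC_use (by norm_num) h
  unfold cl at h
  rw [m40_eq, m40_eq, m40_eq, withP4_eq, forms4_eq (by norm_num)] at h
  rw [strict_eq, vecB_use, strict_eq, vecB_use, strict_eq] at h
  have h := allQ_spec h _ hE
  have h := cond0_zero (zC_b1 S (Dvd.dvd.trans (by norm_num) hQ) C_b1 I_b1) h
  have h := cond0_zero (zB_b2 S (Dvd.dvd.trans (by norm_num) hQ) C_b2) h
  have h := cond0_zero (zB_b3 S (Dvd.dvd.trans (by norm_num) hQ) C_b3) h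
  rw [strict_eq] at h
  exact memB_spec h

end Pool.Agent.P4E


end

section

/-!
Stage C: classes modulo 9880.
-/

namespace Pool.Agent.P4E

open Finset
open Pool.Agent.LibH4 Pool.Agent.LibH4.Ker Pool.Agent.LibH4.T6 Pool.Agent.LibH4.KF
open Pool.Agent.Lib_helper5 Pool.Agent.Lib_helper5.LK Pool.Agent.Lib_helper5.K4

/-- the rows of a class -/
def rowsC (G_c1 G_c2 G_c4 : List (ℕ × ℕ × ℕ)) (c : ℕ)
    (k : ((ℕ × ℕ) × ℕ) × ℕ → Bool) : Bool :=
  wq (nat_lit 8) (nat_lit 1) c fun _ _ B8 m8 nm8 nr8 R8 _ =>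
  wq (nat_lit 19) (nat_lit 512) c fun a19 b19 B19 _ nm19 nr19 R19 d19 =>
  wq (nat_lit 5) (nat_lit 3511808) c fun a5 b5 B5 _ nm5 nr5 R5 d5 =>
  rowA (nat_lit 19) T1_c1 (nat_lit 1120) G_c1 W_c1 Y1_c1 Y0_c1 (nat_lit 1) (nat_lit 19) d19
    (FK4 (nat_lit 19) (nat_lit 19) a19 b19 B19 B19 nm19 nr19 R19) (nat_lit 0) fun A =>
    strict A fun A_c1 =>
  rowA (nat_lit 19) T1_c2 (nat_lit 1120) G_c2 W_c2 Y1_c2 Y0_c2 (nat_lit 1) (nat_lit 19) d19
    (FK4 (nat_lit 19) (nat_lit 19) a19 b19 B19 B19 nm19 nr19 R19) (nat_lit 0) fun A =>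
    strict A fun A_c2 =>
  rowA (nat_lit 5) T1_c4 (nat_lit 13440) G_c4 W_c4 Y1_c4 Y0_c4 (nat_lit 1) (nat_lit 5) d5
    (FK4 (nat_lit 5) (nat_lit 5) a5 b5 B5 B5 nm5 nr5 R5) (nat_lit 0) fun A =>
    strict A fun A_c4 =>
  strict (red (nat_lit 13440) (nat_lit 1120) (nat_lit 12320) (nat_lit 3) A_c4
    (vecA (nat_lit 8) T2_c4 (Nat.pow (nat_lit 2) (nat_lit 1120)) (nat_lit 13440) L8
      (forms4 (nat_lit 8) B8 m8 nm8 nr8 R8) (nat_lit 0))) fun R_c4 =>
  k (((c, R_c4), A_c2), A_c1)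

lemma rowsC_ex {c : ℕ} {k : ((ℕ × ℕ) × ℕ) × ℕ → Bool}
    (h : rowsC (ds19.map fun δ => (δ, gg 19 T1_c1 1120 δ, LK.gs 19 T1_c1 δ))
      (ds19.map fun δ => (δ, gg 19 T1_c2 1120 δ, LK.gs 19 T1_c2 δ))
      (ds5.map fun δ => (δ, gg 5 T1_c4 13440 δ, LK.gs 5 T1_c4 δ)) c k = true) :
    ∃ y, k y = true := by
  unfold rowsC at h
  obtain ⟨_, _, _, _, _, _, _, _, h⟩ := wq_ex h
  obtain ⟨_, _, _, _, _, _, _, _, h⟩ := wq_ex h
  obtain ⟨_, _, _, _, _, _, _, _, h⟩ := wq_ex h
  obtain ⟨_, h⟩ := rowA_ex (by norm_num) (by norm_num) h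
  obtain ⟨_, h⟩ := rowA_ex (by norm_num) (by norm_num) h
  obtain ⟨_, h⟩ := rowA_ex (by norm_num) (by norm_num) h
  simp only [strict_eq] at h
  exact ⟨_, h⟩

/-- the value of the rows -/
def gC (a b t : ℤ) : ((ℕ × ℕ) × ℕ) × ℕ :=
  (((c760 a b t,
    red 13440 1120 12320 3 (RA 5 T1_c4 13440 W_c4 Y1_c4 Y0_c4 5 (zd a b t) (J4 a b t)) (VA 8 T2_c4 1120 13440 L8 (J4 a b t))),
    RA 19 T1_c2 1120 W_c2 Y1_c2 Y0_c2 19 (zd a b t) (J4 a b t)),
    RA 19 T1_c1 1120 W_c1 Y1_c1 Y0_c1 19 (zd a b t) (J4 a b t))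

/-- the conditions of the rows -/
def CC (a b t : ℤ) : Prop :=
  RC 19 T1_c1 1 19 (zd a b t) (J4 a b t) ∧
  RC 19 T1_c2 1 19 (zd a b t) (J4 a b t) ∧
  RC 5 T1_c4 1 5 (zd a b t) (J4 a b t)

lemma rowsC_eq {a b t : ℤ} {k : ((ℕ × ℕ) × ℕ) × ℕ → Bool}
    (h : rowsC (ds19.map fun δ => (δ, gg 19 T1_c1 1120 δ, LK.gs 19 T1_c1 δ))
      (ds19.map fun δ => (δ, gg 19 T1_c2 1120 δ, LK.gs 19 T1_c2 δ))
      (ds5.map fun δ => (δ, gg 5 T1_c4 13440 δ, LK.gs 5 T1_c4 δ)) (c760 a b t) k = true) :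
    k (gC a b t) = true ∧ CC a b t := by
  unfold rowsC at h
  rw [wq_eq (c760_8 a b t), wq_eq (c760_19 a b t), wq_eq (c760_5 a b t)] at h
  rw [FK4_eq (p := 5) (l := 5), FK4_eq (p := 19) (l := 19)] at h
  rw [forms4_eq (p := 8) (by norm_num), vecA_use] at h
  obtain ⟨h, C_c1⟩ := rowA_use (by norm_num) (by norm_num) h
  obtain ⟨h, C_c2⟩ := rowA_use (by norm_num) (by norm_num) h
  obtain ⟨h, C_c4⟩ := rowA_use (by norm_num) (by norm_num) h
  simp only [strict_eq] at h
  exact ⟨h, C_c1, C_c2, C_c4⟩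

/-- the check -/
def stC (lo n : ℕ) : Bool :=
  ggl (nat_lit 19) T1_c1 (nat_lit 1120) ds19 fun G_c1 =>
  ggl (nat_lit 19) T1_c2 (nat_lit 1120) ds19 fun G_c2 =>
  ggl (nat_lit 5) T1_c4 (nat_lit 13440) ds5 fun G_c4 =>
  ggl (nat_lit 13) T3_c1 (nat_lit 80) ds13 fun H_c1 =>
  ggl (nat_lit 13) T3_c2 (nat_lit 80) ds13 fun H_c2 =>
  ggl (nat_lit 13) T3_c4 (nat_lit 80) ds13 fun H_c4 =>
  mapC (rowsC G_c1 G_c2 G_c4) S760 fun E =>
  allR (fun aa => strict (Nat.add aa lo) fun a => allR (fun b => allR (fun t =>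
   withP4 (nat_lit 13) a b t fun B m nm nr R d =>
   @Bool.rec (fun _ => Bool) true (
    (fun F : List (ℕ × ℕ × ℕ) =>
     vecC (nat_lit 13) T3_c1 (nat_lit 80) (nat_lit 1120) H_c1 d F fun v => strict v fun v_c1 =>
     vecC (nat_lit 13) T3_c2 (nat_lit 80) (nat_lit 1120) H_c2 d F fun v => strict v fun v_c2 =>
     vecC (nat_lit 13) T3_c4 (nat_lit 80) (nat_lit 1120) H_c4 d F fun v => strict v fun v_c4 =>
     strict (Nat.mul (nat_lit 438976000) (cdK (nat_lit 13) (a, b, t))) fun cn =>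
     allQ (fun x => cond0 (ip (nat_lit 6859) (nat_lit 3280) x.2 v_c1)
       (cond0 (ip (nat_lit 6859) (nat_lit 3280) x.1.2 v_c2)
       (cond0 (ip (nat_lit 125) (nat_lit 3280) x.1.1.2 v_c4)
       (strict (Nat.add x.1.1.1 cn) fun c => memB c S9880)))) E)
    (forms4 (nat_lit 13) B m nm nr R))
   (Nat.beq (Nat.mod (Nat.pow d (nat_lit 6)) (nat_lit 13)) (nat_lit 12)))
   (nat_lit 13)) (nat_lit 13)) n

theorem stC_spec {Q : ℕ} {a b t : ℤ} (S : SysE Q a b t) (hQ : 2470 ∣ Q) (hc : c760 a b t ∈ S760)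
    {lo n : ℕ} (h : stC lo n = true) (ha : lo ≤ rs 13 a) (ha' : rs 13 a < lo + n) :
    c9880 a b t ∈ S9880 := by
  unfold stC at h
  simp only [ggl_eq] at h
  obtain ⟨E, h, hE, C_c1, C_c2, C_c4⟩ :=
    mapC_mem hc (fun k' => rowsC_eq) (fun x _ k' => rowsC_ex) h
  have h := allR_spec h (rs 13 a - lo) (by omega)
  rw [strict_eq] at h
  have ea : Nat.add (rs 13 a - lo) lo = rs 13 a := by
    change rs 13 a - lo + lo = _
    omega
  rw [ea] at h
  have h := allR_spec h (rs 13 b) (rs_lt b)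
  have h := allR_spec h (rs 13 t) (rs_lt t)
  rw [withP4_eq] at h
  have ii : Nat.beq (Nat.mod (Nat.pow (rs 13 (zd a b t)) (nat_lit 6)) (nat_lit 13)) (nat_lit 12)
    = true := S.inr 13 (by norm_num) (by norm_num) (Dvd.dvd.trans (by norm_num) hQ)
  rw [ii] at h
  rw [forms4_eq (by norm_num)] at h
  obtain ⟨h, I_c1⟩ := vecC_use (by norm_num) h
  obtain ⟨h, I_c2⟩ := vecC_use (by norm_num) h
  obtain ⟨h, I_c4⟩ := vecC_use (by norm_num) h
  rw [strict_eq] at h
  have h := allQ_spec h _ hE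
  have h := cond0_zero (zC_c1 S (Dvd.dvd.trans (by norm_num) hQ) C_c1 I_c1) h
  have h := cond0_zero (zC_c2 S (Dvd.dvd.trans (by norm_num) hQ) C_c2 I_c2) h
  have h := cond0_zero (zC_c4 S (Dvd.dvd.trans (by norm_num) hQ) C_c4 I_c4) h
  rw [strict_eq] at h
  exact memB_spec h

end Pool.Agent.P4E


end

section

/-!
Stage D: classes modulo 69160.
-/

namespace Pool.Agent.P4E

open Finset
open Pool.Agent.LibH4 Pool.Agent.LibH4.Ker Pool.Agent.LibH4.T6 Pool.Agent.LibH4.KF
open Pool.Agent.Lib_helper5 Pool.Agent.Lib_helper5.LK Pool.Agent.Lib_helper5.K4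

/-- the rows of a class -/
def rowsD (G_d1 G_d3 G_d4 : List (ℕ × ℕ × ℕ)) (c : ℕ)
    (k : ((ℕ × ℕ) × ℕ) × ℕ → Bool) : Bool :=
  wq (nat_lit 8) (nat_lit 1) c fun _ _ B8 m8 nm8 nr8 R8 _ =>
  wq (nat_lit 19) (nat_lit 512) c fun a19 b19 B19 _ _ _ _ _ =>
  wq (nat_lit 13) (nat_lit 438976000) c fun a13 b13 B13 _ nm13 nr13 R13 d13 =>
  rowA (nat_lit 13) T1_d1 (nat_lit 640) G_d1 W_d1 Y1_d1 Y0_d1 (nat_lit 1) (nat_lit 13) d13
    (FK4 (nat_lit 13) (nat_lit 13) a13 b13 B13 B13 nm13 nr13 R13) (nat_lit 0) fun A =>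
    strict A fun A_d1 =>
  rowA (nat_lit 13) T1_d3 (nat_lit 7680) G_d3 W_d3 Y1_d3 Y0_d3 (nat_lit 0) (nat_lit 19) d13
    (FK4 (nat_lit 13) (nat_lit 19) a19 b19 B19 B13 nm13 nr13 R13) (nat_lit 0) fun A =>
    strict A fun A_d3 =>
  rowA (nat_lit 13) T1_d4 (nat_lit 7680) G_d4 W_d4 Y1_d4 Y0_d4 (nat_lit 1) (nat_lit 13) d13
    (FK4 (nat_lit 13) (nat_lit 13) a13 b13 B13 B13 nm13 nr13 R13) (nat_lit 0) fun A =>
    strict A fun A_d4 =>
  strict (red (nat_lit 7680) (nat_lit 640) (nat_lit 7040) (nat_lit 3) A_d3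
    (vecA (nat_lit 8) T2_d3 (Nat.pow (nat_lit 2) (nat_lit 640)) (nat_lit 7680) L8
      (forms4 (nat_lit 8) B8 m8 nm8 nr8 R8) (nat_lit 0))) fun R_d3 =>
  strict (red (nat_lit 7680) (nat_lit 640) (nat_lit 7040) (nat_lit 3) A_d4
    (vecA (nat_lit 8) T2_d4 (Nat.pow (nat_lit 2) (nat_lit 640)) (nat_lit 7680) L8
      (forms4 (nat_lit 8) B8 m8 nm8 nr8 R8) (nat_lit 0))) fun R_d4 =>
  k (((c, R_d4), R_d3), A_d1)

lemma rowsD_ex {c : ℕ} {k : ((ℕ × ℕ) × ℕ) × ℕ → Bool}
    (h : rowsD (ds13.map fun δ => (δ, gg 13 T1_d1 640 δ, LK.gs 13 T1_d1 δ))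
      (ds13.map fun δ => (δ, gg 13 T1_d3 7680 δ, LK.gs 13 T1_d3 δ))
      (ds13.map fun δ => (δ, gg 13 T1_d4 7680 δ, LK.gs 13 T1_d4 δ)) c k = true) :
    ∃ y, k y = true := by
  unfold rowsD at h
  obtain ⟨_, _, _, _, _, _, _, _, h⟩ := wq_ex h
  obtain ⟨_, _, _, _, _, _, _, _, h⟩ := wq_ex h
  obtain ⟨_, _, _, _, _, _, _, _, h⟩ := wq_ex h
  obtain ⟨_, h⟩ := rowA_ex (by norm_num) (by norm_num) h
  obtain ⟨_, h⟩ := rowA_ex (by norm_num) (by norm_num) h
  obtain ⟨_, h⟩ := rowA_ex (by norm_num) (by norm_num) h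
  simp only [strict_eq] at h
  exact ⟨_, h⟩

/-- the value of the rows -/
def gD (a b t : ℤ) : ((ℕ × ℕ) × ℕ) × ℕ :=
  (((c9880 a b t,
    red 7680 640 7040 3 (RA 13 T1_d4 7680 W_d4 Y1_d4 Y0_d4 13 (zd a b t) (J4 a b t)) (VA 8 T2_d4 640 7680 L8 (J4 a b t))),
    red 7680 640 7040 3 (RA 13 T1_d3 7680 W_d3 Y1_d3 Y0_d3 19 (zd a b t) (J4 a b t)) (VA 8 T2_d3 640 7680 L8 (J4 a b t))),
    RA 13 T1_d1 640 W_d1 Y1_d1 Y0_d1 13 (zd a b t) (J4 a b t))

/-- the conditions of the rows -/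
def CD (a b t : ℤ) : Prop :=
  RC 13 T1_d1 1 13 (zd a b t) (J4 a b t) ∧
  RC 13 T1_d3 0 19 (zd a b t) (J4 a b t) ∧
  RC 13 T1_d4 1 13 (zd a b t) (J4 a b t)

lemma rowsD_eq {a b t : ℤ} {k : ((ℕ × ℕ) × ℕ) × ℕ → Bool}
    (h : rowsD (ds13.map fun δ => (δ, gg 13 T1_d1 640 δ, LK.gs 13 T1_d1 δ))
      (ds13.map fun δ => (δ, gg 13 T1_d3 7680 δ, LK.gs 13 T1_d3 δ))
      (ds13.map fun δ => (δ, gg 13 T1_d4 7680 δ, LK.gs 13 T1_d4 δ)) (c9880 a b t) k = true) :
    k (gD a b t) = true ∧ CD a b t := by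
  unfold rowsD at h
  rw [wq_eq (c9880_8 a b t), wq_eq (c9880_19 a b t), wq_eq (c9880_13 a b t)] at h
  rw [FK4_eq (p := 13) (l := 13), FK4_eq (p := 13) (l := 19)] at h
  rw [forms4_eq (p := 8) (by norm_num), vecA_use, vecA_use] at h
  obtain ⟨h, C_d1⟩ := rowA_use (by norm_num) (by norm_num) h
  obtain ⟨h, C_d3⟩ := rowA_use (by norm_num) (by norm_num) h
  obtain ⟨h, C_d4⟩ := rowA_use (by norm_num) (by norm_num) h
  simp only [strict_eq] at h
  exact ⟨h, C_d1, C_d3, C_d4⟩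

/-- the check -/
def stD (lo n : ℕ) : Bool :=
  ggl (nat_lit 13) T1_d1 (nat_lit 640) ds13 fun G_d1 =>
  ggl (nat_lit 13) T1_d3 (nat_lit 7680) ds13 fun G_d3 =>
  ggl (nat_lit 13) T1_d4 (nat_lit 7680) ds13 fun G_d4 =>
  ggl (nat_lit 7) T3_d1 (nat_lit 80) ds7 fun H_d1 =>
  ggl (nat_lit 7) T3_d3 (nat_lit 80) ds7 fun H_d3 =>
  mapC (rowsD G_d1 G_d3 G_d4) S9880 fun E =>
  allR (fun aa => strict (Nat.add aa lo) fun a => allR (fun b => allR (fun t =>
   withP4 (nat_lit 7) a b t fun B m nm nr R d =>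
   @Bool.rec (fun _ => Bool) true (
    (fun F : List (ℕ × ℕ × ℕ) =>
     vecC (nat_lit 7) T3_d1 (nat_lit 80) (nat_lit 640) H_d1 d F fun v => strict v fun v_d1 =>
     vecC (nat_lit 7) T3_d3 (nat_lit 80) (nat_lit 640) H_d3 d F fun v => strict v fun v_d3 =>
     strict (vecB (nat_lit 7) T3_d4 (nat_lit 1208925819614629174706176) (nat_lit 640) L7 F) fun v_d4 =>
     strict (Nat.mul (nat_lit 964430272000) (cdK (nat_lit 7) (a, b, t))) fun cn =>
     allQ (fun x => cond0 (ip (nat_lit 2197) (nat_lit 1840) x.2 v_d1)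
       (cond0 (ip (nat_lit 19) (nat_lit 1840) x.1.2 v_d3)
       (cond0 (ip (nat_lit 2197) (nat_lit 1840) x.1.1.2 v_d4)
       (strict (Nat.add x.1.1.1 cn) fun c => okD c)))) E)
    (forms4 (nat_lit 7) B m nm nr R))
   (Nat.beq (Nat.mod (Nat.pow d (nat_lit 3)) (nat_lit 7)) (nat_lit 6)))
   (nat_lit 7)) (nat_lit 7)) n

theorem stD_spec {Q : ℕ} {a b t : ℤ} (S : SysE Q a b t) (hQ : 17290 ∣ Q) (hc : c9880 a b t ∈ S9880)
    {lo n : ℕ} (h : stD lo n = true) (ha : lo ≤ rs 7 a) (ha' : rs 7 a < lo + n) :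
    okD (c69160 a b t) = true := by
  unfold stD at h
  simp only [ggl_eq] at h
  obtain ⟨E, h, hE, C_d1, C_d3, C_d4⟩ :=
    mapC_mem hc (fun k' => rowsD_eq) (fun x _ k' => rowsD_ex) h
  have h := allR_spec h (rs 7 a - lo) (by omega)
  rw [strict_eq] at h
  have ea : Nat.add (rs 7 a - lo) lo = rs 7 a := by
    change rs 7 a - lo + lo = _
    omega
  rw [ea] at h
  have h := allR_spec h (rs 7 b) (rs_lt b)
  have h := allR_spec h (rs 7 t) (rs_lt t)
  rw [withP4_eq] at h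
  have ii : Nat.beq (Nat.mod (Nat.pow (rs 7 (zd a b t)) (nat_lit 3)) (nat_lit 7)) (nat_lit 6)
    = true := S.inr 7 (by norm_num) (by norm_num) (Dvd.dvd.trans (by norm_num) hQ)
  rw [ii] at h
  rw [forms4_eq (by norm_num)] at h
  obtain ⟨h, I_d1⟩ := vecC_use (by norm_num) h
  obtain ⟨h, I_d3⟩ := vecC_use (by norm_num) h
  rw [strict_eq, vecB_use] at h
  rw [strict_eq] at h
  have h := allQ_spec h _ hE
  have h := cond0_zero (zC_d1 S (Dvd.dvd.trans (by norm_num) hQ) C_d1 I_d1) h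
  have h := cond0_zero (zC_d3 S (Dvd.dvd.trans (by norm_num) hQ) C_d3 I_d3) h
  have h := cond0_zero (zB_d4 S (Dvd.dvd.trans (by norm_num) hQ) C_d4) h
  rw [strict_eq] at h
  exact h

end Pool.Agent.P4E


end

section

/-! generated: kernel checks -/

namespace Pool.Agent.P4E

open Finset
open Pool.Agent.LibH4 Pool.Agent.LibH4.Ker Pool.Agent.LibH4.T6 Pool.Agent.LibH4.KF
open Pool.Agent.Lib_helper5 Pool.Agent.Lib_helper5.LK Pool.Agent.Lib_helper5.K4

lemma stA_8 : stA (nat_lit 8) (nat_lit 0) (nat_lit 19) = true := by decide +kernel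

lemma stA_9 : stA (nat_lit 9) (nat_lit 0) (nat_lit 19) = true := by decide +kernel

lemma stA_10 : stA (nat_lit 10) (nat_lit 0) (nat_lit 19) = true := by decide +kernel

lemma stA_11 : stA (nat_lit 11) (nat_lit 0) (nat_lit 19) = true := by decide +kernel

end Pool.Agent.P4E


end

section

/-! generated: kernel checks -/

namespace Pool.Agent.P4E

open Finset
open Pool.Agent.LibH4 Pool.Agent.LibH4.Ker Pool.Agent.LibH4.T6 Pool.Agent.LibH4.KF
open Pool.Agent.Lib_helper5 Pool.Agent.Lib_helper5.LK Pool.Agent.Lib_helper5.K4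

lemma stA_16 : stA (nat_lit 16) (nat_lit 0) (nat_lit 19) = true := by decide +kernel

lemma stA_17 : stA (nat_lit 17) (nat_lit 0) (nat_lit 19) = true := by decide +kernel

lemma stA_18 : stA (nat_lit 18) (nat_lit 0) (nat_lit 19) = true := by decide +kernel

end Pool.Agent.P4E


end

section

/-! generated: kernel checks -/

namespace Pool.Agent.P4E

open Finset
open Pool.Agent.LibH4 Pool.Agent.LibH4.Ker Pool.Agent.LibH4.T6 Pool.Agent.LibH4.KF
open Pool.Agent.Lib_helper5 Pool.Agent.Lib_helper5.LK Pool.Agent.Lib_helper5.K4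

lemma stB_0 : stB (nat_lit 2, nat_lit 1, nat_lit 0) = true := by decide +kernel

lemma stB_1 : stB (nat_lit 2, nat_lit 1, nat_lit 2) = true := by decide +kernel

lemma stB_2 : stB (nat_lit 2, nat_lit 1, nat_lit 4) = true := by decide +kernel

lemma stB_3 : stB (nat_lit 2, nat_lit 1, nat_lit 6) = true := by decide +kernel

end Pool.Agent.P4E


end

section

/-! generated: kernel checks -/

namespace Pool.Agent.P4E

open Finset
open Pool.Agent.LibH4 Pool.Agent.LibH4.Ker Pool.Agent.LibH4.T6 Pool.Agent.LibH4.KF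
open Pool.Agent.Lib_helper5 Pool.Agent.Lib_helper5.LK Pool.Agent.Lib_helper5.K4

lemma stC_2 : stC (nat_lit 2) (nat_lit 1) = true := by decide +kernel

lemma stC_3 : stC (nat_lit 3) (nat_lit 1) = true := by decide +kernel

end Pool.Agent.P4E


end

section

/-! generated: kernel checks -/

namespace Pool.Agent.P4E

open Finset
open Pool.Agent.LibH4 Pool.Agent.LibH4.Ker Pool.Agent.LibH4.T6 Pool.Agent.LibH4.KF
open Pool.Agent.Lib_helper5 Pool.Agent.Lib_helper5.LK Pool.Agent.Lib_helper5.K4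

lemma stC_4 : stC (nat_lit 4) (nat_lit 1) = true := by decide +kernel

lemma stC_5 : stC (nat_lit 5) (nat_lit 1) = true := by decide +kernel

end Pool.Agent.P4E


end

section

/-! generated: kernel checks -/

namespace Pool.Agent.P4E

open Finset
open Pool.Agent.LibH4 Pool.Agent.LibH4.Ker Pool.Agent.LibH4.T6 Pool.Agent.LibH4.KF
open Pool.Agent.Lib_helper5 Pool.Agent.Lib_helper5.LK Pool.Agent.Lib_helper5.K4

lemma stC_6 : stC (nat_lit 6) (nat_lit 1) = true := by decide +kernel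

lemma stC_7 : stC (nat_lit 7) (nat_lit 1) = true := by decide +kernel

end Pool.Agent.P4E


end

section

/-! generated: kernel checks -/

namespace Pool.Agent.P4E

open Finset
open Pool.Agent.LibH4 Pool.Agent.LibH4.Ker Pool.Agent.LibH4.T6 Pool.Agent.LibH4.KF
open Pool.Agent.Lib_helper5 Pool.Agent.Lib_helper5.LK Pool.Agent.Lib_helper5.K4

lemma stC_10 : stC (nat_lit 10) (nat_lit 1) = true := by decide +kernel

lemma stC_11 : stC (nat_lit 11) (nat_lit 1) = true := by decide +kernel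

end Pool.Agent.P4E


end

section

/-! generated: kernel checks -/

namespace Pool.Agent.P4E

open Finset
open Pool.Agent.LibH4 Pool.Agent.LibH4.Ker Pool.Agent.LibH4.T6 Pool.Agent.LibH4.KF
open Pool.Agent.Lib_helper5 Pool.Agent.Lib_helper5.LK Pool.Agent.Lib_helper5.K4

lemma stC_12 : stC (nat_lit 12) (nat_lit 1) = true := by decide +kernel

end Pool.Agent.P4E


end

section

/-! generated: kernel checks -/

namespace Pool.Agent.P4E

open Finset
open Pool.Agent.LibH4 Pool.Agent.LibH4.Ker Pool.Agent.LibH4.T6 Pool.Agent.LibH4.KF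
open Pool.Agent.Lib_helper5 Pool.Agent.Lib_helper5.LK Pool.Agent.Lib_helper5.K4

lemma stD_1 : stD (nat_lit 1) (nat_lit 1) = true := by decide +kernel

end Pool.Agent.P4E


end

section

/-! generated: kernel checks -/

namespace Pool.Agent.P4E

open Finset
open Pool.Agent.LibH4 Pool.Agent.LibH4.Ker Pool.Agent.LibH4.T6 Pool.Agent.LibH4.KF
open Pool.Agent.Lib_helper5 Pool.Agent.Lib_helper5.LK Pool.Agent.Lib_helper5.K4

lemma stD_2 : stD (nat_lit 2) (nat_lit 1) = true := by decide +kernel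

end Pool.Agent.P4E


end

section

/-! generated: kernel checks -/

namespace Pool.Agent.P4E

open Finset
open Pool.Agent.LibH4 Pool.Agent.LibH4.Ker Pool.Agent.LibH4.T6 Pool.Agent.LibH4.KF
open Pool.Agent.Lib_helper5 Pool.Agent.Lib_helper5.LK Pool.Agent.Lib_helper5.K4

lemma stD_3 : stD (nat_lit 3) (nat_lit 1) = true := by decide +kernel

end Pool.Agent.P4E


end

section

/-!
Twelve real quadratic fields with unique factorisation and period length five.
-/

namespace Pool.Agent.LibH4.P5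

open scoped NumberField
open Function Pool.Agent.LibH4 Pool.Agent.Lib_helper5

/-- a field of the family -/
lemma field {a b B : ℕ} {m m' : ℤ} {d : ℕ} (h : E5.Par a b B m m')
    (hd : (d : ℤ) = (B : ℤ) ^ 2 + 4 * m) (hB : B % 2 = 1) (h1 : 1 < d) (hsq : Squarefree d)
    (hred : ∀ k < 5, E5.S m m' (k + 1) < E5.R a b B m m' (k + 1) + E5.S m m' k)
    (W : List (ℕ × ℤ × ℤ)) (hW : FU.chk d W = true) :
    minimalPeriod gsh (gsh (omg d)) = 5 ∧ UniqueFactorizationMonoid (𝓞 (KQ d)) :=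
  ⟨PO.period_of_cyc (E5.cyc h) hd h1 hsq (by exact_mod_cast hB) hred, FU.ufd_of_chk hW hsq h1⟩

/-- **the twelve fields** -/
theorem fields {d : ℕ} (h : d ∈ l12) (hsq : Squarefree d) :
    minimalPeriod gsh (gsh (omg d)) = 5 ∧ UniqueFactorizationMonoid (𝓞 (KQ d)) := by
  simp only [l12, List.mem_cons, List.not_mem_nil, or_false] at h
  rcases h with rfl | rfl | rfl | rfl | rfl | rfl | rfl | rfl | rfl | rfl | rfl | rfl
  · exact field (a := 1) (b := 2) (B := 5) (m := 4) (m' := 2) ⟨by norm_num, by norm_num,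
      by norm_num, by norm_num, by norm_num, by norm_num, by norm_num⟩ (by norm_num) (by norm_num)
      (by norm_num) hsq (by decide) [(2, -4, 1)] (by decide +kernel)
  · exact field (a := 1) (b := 1) (B := 11) (m := 7) (m' := 5) ⟨by norm_num, by norm_num,
      by norm_num, by norm_num, by norm_num, by norm_num, by norm_num⟩ (by norm_num) (by norm_num)
      (by norm_num) hsq (by decide) [(5, -7, 1)] (by decide +kernel)
  · exact field (a := 1) (b := 3) (B := 11) (m := 9) (m' := 3) ⟨by norm_num, by norm_num,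
      by norm_num, by norm_num, by norm_num, by norm_num, by norm_num⟩ (by norm_num) (by norm_num)
      (by norm_num) hsq (by decide) [(3, -7, 1)] (by decide +kernel)
  · exact field (a := 4) (b := 2) (B := 13) (m := 3) (m' := 5) ⟨by norm_num, by norm_num,
      by norm_num, by norm_num, by norm_num, by norm_num, by norm_num⟩ (by norm_num) (by norm_num)
      (by norm_num) hsq (by decide) [(3, -7, 1), (5, -29, 4)] (by decide +kernel)
  · exact field (a := 1) (b := 2) (B := 15) (m := 11) (m' := 5) ⟨by norm_num, by norm_num,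
      by norm_num, by norm_num, by norm_num, by norm_num, by norm_num⟩ (by norm_num) (by norm_num)
      (by norm_num) hsq (by decide) [(5, -9, 1)] (by decide +kernel)
  · exact field (a := 2) (b := 6) (B := 19) (m := 9) (m' := 3) ⟨by norm_num, by norm_num,
      by norm_num, by norm_num, by norm_num, by norm_num, by norm_num⟩ (by norm_num) (by norm_num)
      (by norm_num) hsq (by decide) [(3, -21, 2)] (by decide +kernel)
  · exact field (a := 1) (b := 5) (B := 29) (m := 25) (m' := 5) ⟨by norm_num, by norm_num,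
      by norm_num, by norm_num, by norm_num, by norm_num, by norm_num⟩ (by norm_num) (by norm_num)
      (by norm_num) hsq (by decide) [(5, -16, 1)] (by decide +kernel)
  · exact field (a := 2) (b := 2) (B := 31) (m := 13) (m' := 11) ⟨by norm_num, by norm_num,
      by norm_num, by norm_num, by norm_num, by norm_num, by norm_num⟩ (by norm_num) (by norm_num)
      (by norm_num) hsq (by decide) [(11, -33, 2), (13, -16, 1)] (by decide +kernel)
  · exact field (a := 2) (b := 1) (B := 49) (m := 19) (m' := 23) ⟨by norm_num, by norm_num,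
      by norm_num, by norm_num, by norm_num, by norm_num, by norm_num⟩ (by norm_num) (by norm_num)
      (by norm_num) hsq (by decide) [(19, -25, 1), (23, -51, 2)] (by decide +kernel)
  · exact field (a := 2) (b := 4) (B := 51) (m := 23) (m' := 11) ⟨by norm_num, by norm_num,
      by norm_num, by norm_num, by norm_num, by norm_num, by norm_num⟩ (by norm_num) (by norm_num)
      (by norm_num) hsq (by decide) [(11, -53, 2), (23, -26, 1)] (by decide +kernel)
  · exact field (a := 4) (b := 1) (B := 59) (m := 13) (m' := 29) ⟨by norm_num, by norm_num,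
      by norm_num, by norm_num, by norm_num, by norm_num, by norm_num⟩ (by norm_num) (by norm_num)
      (by norm_num) hsq (by decide) [(13, -30, 1), (29, -121, 4)] (by decide +kernel)
  · exact field (a := 9) (b := 3) (B := 65) (m := 7) (m' := 19) ⟨by norm_num, by norm_num,
      by norm_num, by norm_num, by norm_num, by norm_num, by norm_num⟩ (by norm_num) (by norm_num)
      (by norm_num) hsq (by decide) [(7, -33, 1), (19, -298, 9)] (by decide +kernel)

end Pool.Agent.LibH4.P5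


end
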