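import Mathlib
import Pool.Agent.RQM.C121
import Pool.Agent.RQM.C129
import Pool.Agent.RQM.C149
import Pool.Agent.RQM.C15
import Pool.Agent.RQM.C28
import Pool.Agent.RQM.C43
import Pool.Agent.RQM.C45
import Pool.Agent.RQM.C47

/-! Parts: Lib_helper4.P5Final, Lib_helper29.P7A.Ck_6, Lib_helper29.P7A.Ck_8 -/

namespace Pool.Agent.LibH4
end Pool.Agent.LibH4
namespace Pool.Agent.LibH4.CFO
end Pool.Agent.LibH4.CFO
namespace Pool.Agent.Lib_helper5
end Pool.Agent.Lib_helper5
namespace Pool.Agent.Lib_helper5.LK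
end Pool.Agent.Lib_helper5.LK
namespace Pool.Agent.Lib_helper5.TB
end Pool.Agent.Lib_helper5.TB

section

/-!
Assembly of the period five theorem from the elimination of large parameters.
-/

namespace Pool.Agent.LibH4.P5

open scoped NumberField
open Function Pool.Agent.LibH4 Pool.Agent.Lib_helper5 CFO

/-- class number one and period five, given the elimination of large parameters -/
theorem five_iff (hbig : ∀ (a b B : ℕ) (m m' : ℤ), E5.Par a b B m m' → m % 2 = 1 → B % 2 = 1 →
      ∀ [IsDomain (QuadraticAlgebra ℤ m (B : ℤ))]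
        [UniqueFactorizationMonoid (QuadraticAlgebra ℤ m (B : ℤ))],
      19 < m → 19 < m' → False)
    (d : ℕ) (h1 : 1 < d) (hsq : Squarefree d) :
    (minimalPeriod gsh (gsh (omg d)) = 5 ∧ UniqueFactorizationMonoid (𝓞 (KQ d))) ↔ d ∈ l12 := by
  constructor
  · rintro ⟨hper, hU⟩
    obtain ⟨a, b, B, m, m', hP, ⟨h4, hd, hB⟩ | ⟨h4, hd, hB⟩⟩ := exists_par_five d h1 hsq hper
    · obtain ⟨e⟩ := exists_equiv_QI hd (by exact_mod_cast hB)
      have e' := e.symm.trans (eqvO hsq h1)
      have i1 : IsDomain (QuadraticAlgebra ℤ m (B : ℤ)) := e'.toMulEquiv.isDomain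
      have i2 : UniqueFactorizationMonoid (QuadraticAlgebra ℤ m (B : ℤ)) :=
        e'.symm.toMulEquiv.uniqueFactorizationMonoid hU
      rcases small_cases hP with ⟨d', hd', he⟩ | ⟨hB2, hm2, g1, g2⟩
      · rw [← hd] at he
        have : d' = d := by exact_mod_cast he
        rw [← this]
        exact hd'
      · exact (hbig a b B m m' hP hm2 hB2 g1 g2).elim
    · exfalso
      obtain ⟨e⟩ := exists_equiv_QI_even hd h4 (by exact_mod_cast hB)
      have e' := e.symm.trans (eqvO hsq h1)
      have i1 : IsDomain (QuadraticAlgebra ℤ m (B : ℤ)) := e'.toMulEquiv.isDomain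
      have i2 : UniqueFactorizationMonoid (QuadraticAlgebra ℤ m (B : ℤ)) :=
        e'.symm.toMulEquiv.uniqueFactorizationMonoid hU
      rcases small_cases hP with ⟨d', hd', he⟩ | ⟨hB2, hm2, g1, g2⟩
      · rw [← hd] at he
        have hd4 : d' = 4 * d := by exact_mod_cast he
        have hall : ∀ e ∈ l12, e % 4 ≠ 0 := by decide
        have := hall d' hd'
        omega
      · omega
  · intro h
    exact fields h hsq

end Pool.Agent.LibH4.P5


end

section

/-! generated: check of triples -/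

namespace Pool.Agent.Lib_helper29.P7A

open Pool.Agent.Lib_helper5 Pool.Agent.Lib_helper5.LK Pool.Agent.Lib_helper5.TB
  Pool.Agent.LibH4 Pool.Agent.LibH4.Ker Pool.Agent.LibH4.S7

theorem ck_18 : chk8 e8 AB SG K18 [nat_lit 1, nat_lit 3, nat_lit 5, nat_lit 7] = true := by
  decide +kernel

theorem ck_19 : chk8 e8 AB SG K19 [nat_lit 1, nat_lit 3, nat_lit 5, nat_lit 7] = true := by
  decide +kernel

theorem ck_20 : chk8 e8 AB SG K20 [nat_lit 1, nat_lit 3, nat_lit 5, nat_lit 7] = true := by
  decide +kernel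

end Pool.Agent.Lib_helper29.P7A


end

section

/-! generated: check of triples -/

namespace Pool.Agent.Lib_helper29.P7A

open Pool.Agent.Lib_helper5 Pool.Agent.Lib_helper5.LK Pool.Agent.Lib_helper5.TB
  Pool.Agent.LibH4 Pool.Agent.LibH4.Ker Pool.Agent.LibH4.S7

theorem ck_24 : chk8 e8 AB SG K24 [nat_lit 1, nat_lit 3, nat_lit 5, nat_lit 7] = true := by
  decide +kernel

theorem ck_25 : chk8 e8 AB SG K25 [nat_lit 1, nat_lit 3, nat_lit 5, nat_lit 7] = true := by
  decide +kernel

theorem ck_26 : chk8 e8 AB SG K26 [nat_lit 1, nat_lit 3, nat_lit 5, nat_lit 7] = true := by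
  decide +kernel

end Pool.Agent.Lib_helper29.P7A


end
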