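import Mathlib
import Pool.Agent.RQM.C119
import Pool.Agent.RQM.C120
import Pool.Agent.RQM.C121
import Pool.Agent.RQM.C129
import Pool.Agent.RQM.C130
import Pool.Agent.RQM.C132
import Pool.Agent.RQM.C133
import Pool.Agent.RQM.C137
import Pool.Agent.RQM.C139
import Pool.Agent.RQM.C147
import Pool.Agent.RQM.C15
import Pool.Agent.RQM.C150
import Pool.Agent.RQM.C151
import Pool.Agent.RQM.C152
import Pool.Agent.RQM.C153
import Pool.Agent.RQM.C28
import Pool.Agent.RQM.C39
import Pool.Agent.RQM.C42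
import Pool.Agent.RQM.C45
import Pool.Agent.RQM.C47
import Pool.Agent.RQM.C48

/-! Parts: Lib_helper4.CFSeven, Lib_helper4.P7Fields, Lib_helper4.P7Final, Lib_helper29.P7A.Ck_11, Lib_helper29.P7A.A2 -/

namespace Pool.Agent.LibH4
end Pool.Agent.LibH4
namespace Pool.Agent.LibH4.CFO
end Pool.Agent.LibH4.CFO
namespace Pool.Agent.Lib_helper5
end Pool.Agent.Lib_helper5
namespace Pool.Agent.Lib_helper5.LK
end Pool.Agent.Lib_helper5.LK
namespace Pool.Agent.Lib_helper5.TB
end Pool.Agent.Lib_helper5.TB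

section

/-!
The cycle of length seven from the continued fraction of `ω_d`.
-/

namespace Pool.Agent.LibH4.CFO

open Real Function Pool.Agent.Lib_helper5

variable {m B : ℤ} {s : ℝ} {x : ℕ → ℝ} {c : ℕ → ℕ}

/-- cycles of length seven -/
theorem par_seven (h : Data m B s x c) (hL : minimalPeriod gsh (x 1) = 7) :
    E7.Par (c 1) (c 2) (c 3) (c 0) m (QS m B c 2) (QS m B c 3) := by
  have hfix : gsh^[7] (x 1) = x 1 := by
    have := isPeriodicPt_minimalPeriod gsh (x 1)
    rw [hL] at this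
    exact this
  have hper := x_per h hfix
  obtain ⟨p1, -, -, -⟩ := palin h hper 3 4 rfl
  have s2 := QS_succ (m := m) (B := B) (c := c) 1
  have s3 := QS_succ (m := m) (B := B) (c := c) 2
  have s4 := QS_succ (m := m) (B := B) (c := c) 3
  have r2 := QR_succ (m := m) (B := B) (c := c) 1
  have r3 := QR_succ (m := m) (B := B) (c := c) 2
  have q1 := QP_succ (m := m) (B := B) (c := c) 0
  have q2 := QP_succ (m := m) (B := B) (c := c) 1
  have q3 := QP_succ (m := m) (B := B) (c := c) 2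
  rw [QR_one h, QS_one h] at r2
  rw [QS_one h] at q2
  rw [QS_zero] at q1
  have e0 := c_zero h
  have r2' : QR m B c 2 = 2 * (c 1) * m - B := r2
  exact {
    ha := (inv_of h 1).cpos
    hb := (inv_of h 2).cpos
    hc := (inv_of h 3).cpos
    hB := (inv_of h 0).cpos
    hm := by
      have h1 := (inv_of h 1).Spos
      have h2 := S_ne_one h hL (j := 1) (by norm_num) (by norm_num)
      rw [QS_one h] at h1 h2
      omega
    hm2 := by
      have h1 := (inv_of h 2).Spos
      have h2 := S_ne_one h hL (j := 2) (by norm_num) (by norm_num)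
      omega
    hm3 := by
      have h1 := (inv_of h 3).Spos
      have h2 := S_ne_one h hL (j := 3) (by norm_num) (by norm_num)
      omega
    e1 := by
      have s2' := s2
      rw [show QP m B c 1 = 1 from q1, QR_one h, QS_one h] at s2'
      rw [e0]
      exact s2'
    e2 := by
      have s3' := s3
      rw [show QP m B c 2 = m from q2, r2'] at s3'
      rw [e0]
      exact s3'
    e3 := by
      have s4' := s4
      rw [show QP m B c 3 = QS m B c 2 from q3,
        show QR m B c 3 = 2 * (c 2) * QS m B c 2 - QR m B c 2 from r3, r2',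
        show QS m B c (3 + 1) = QS m B c 3 from p1] at s4'
      rw [e0]
      linarith }

/-- a squarefree integer whose `ω_d` has period length seven -/
theorem exists_par_seven (d : ℕ) (h1 : 1 < d) (hsq : Squarefree d)
    (hper : minimalPeriod gsh (gsh (omg d)) = 7) :
    ∃ (a b c B : ℕ) (m m2 m3 : ℤ), E7.Par a b c B m m2 m3 ∧
      ((d % 4 = 1 ∧ (d : ℤ) = (B : ℤ) ^ 2 + 4 * m ∧ B % 2 = 1) ∨
       (d % 4 ≠ 1 ∧ 4 * (d : ℤ) = (B : ℤ) ^ 2 + 4 * m ∧ B % 2 = 0)) := by
  obtain ⟨m, B, s, x, c, h, hx1, hm, hB, hd⟩ := exists_data d h1 hsq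
  rw [← hx1] at hper
  refine ⟨c 1, c 2, c 3, c 0, m, _, _, par_seven h hper, ?_⟩
  have e0 := c_zero h
  rw [e0]
  rcases hd with ⟨a1, a2, a3⟩ | ⟨a1, a2, a3⟩
  · exact Or.inl ⟨a1, a2, by omega⟩
  · exact Or.inr ⟨a1, a2, by omega⟩

end Pool.Agent.LibH4.CFO


end

section

/-!
Seventeen real quadratic fields with unique factorisation and period length seven.
-/

namespace Pool.Agent.LibH4.P7

open scoped NumberField
open Function Pool.Agent.LibH4 Pool.Agent.Lib_helper5

/-- a field of the family -/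
lemma field {a b c B : ℕ} {m m2 m3 : ℤ} {d : ℕ} (h : E7.Par a b c B m m2 m3)
    (hd : (d : ℤ) = (B : ℤ) ^ 2 + 4 * m) (hB : B % 2 = 1) (h1 : 1 < d) (hsq : Squarefree d)
    (hred : ∀ k < 7, E7.S m m2 m3 (k + 1) < E7.R a b c B m m2 m3 (k + 1) + E7.S m m2 m3 k)
    (W : List (ℕ × ℤ × ℤ)) (hW : FU.chk d W = true) :
    minimalPeriod gsh (gsh (omg d)) = 7 ∧ UniqueFactorizationMonoid (𝓞 (KQ d)) :=
  ⟨PO.period_of_cyc (E7.cyc h) hd h1 hsq (by exact_mod_cast hB) hred, FU.ufd_of_chk hW hsq h1⟩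

/-- **the seventeen fields** -/
theorem fields {d : ℕ} (h : d ∈ l17) (hsq : Squarefree d) :
    minimalPeriod gsh (gsh (omg d)) = 7 ∧ UniqueFactorizationMonoid (𝓞 (KQ d)) := by
  simp only [l17, List.mem_cons, List.not_mem_nil, or_false] at h
  rcases h with rfl | rfl | rfl | rfl | rfl | rfl | rfl | rfl | rfl | rfl | rfl | rfl |
    rfl | rfl | rfl | rfl | rfl
  · exact field (a := 4) (b := 1) (c := 1) (B := 9) (m := 2) (m2 := 5) (m3 := 4)
      ⟨by norm_num, by norm_num, by norm_num, by norm_num, by norm_num, by norm_num, by norm_num,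
        by norm_num, by norm_num, by norm_num⟩ (by norm_num) (by norm_num) (by norm_num) hsq
      (by decide) [(2, -5, 1)] (by decide +kernel)
  · exact field (a := 1) (b := 2) (c := 1) (B := 9) (m := 7) (m2 := 3) (m3 := 5)
      ⟨by norm_num, by norm_num, by norm_num, by norm_num, by norm_num, by norm_num, by norm_num,
        by norm_num, by norm_num, by norm_num⟩ (by norm_num) (by norm_num) (by norm_num) hsq
      (by decide) [(3, -6, 1), (5, -17, 3)] (by decide +kernel)
  · exact field (a := 1) (b := 4) (c := 2) (B := 9) (m := 8) (m2 := 2) (m3 := 4)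
      ⟨by norm_num, by norm_num, by norm_num, by norm_num, by norm_num, by norm_num, by norm_num,
        by norm_num, by norm_num, by norm_num⟩ (by norm_num) (by norm_num) (by norm_num) hsq
      (by decide) [(2, -6, 1)] (by decide +kernel)
  · exact field (a := 2) (b := 1) (c := 5) (B := 11) (m := 4) (m2 := 7) (m3 := 2)
      ⟨by norm_num, by norm_num, by norm_num, by norm_num, by norm_num, by norm_num, by norm_num,
        by norm_num, by norm_num, by norm_num⟩ (by norm_num) (by norm_num) (by norm_num) hsq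
      (by decide) [(2, -19, 3)] (by decide +kernel)
  · exact field (a := 6) (b := 2) (c := 1) (B := 19) (m := 3) (m2 := 7) (m3 := 9)
      ⟨by norm_num, by norm_num, by norm_num, by norm_num, by norm_num, by norm_num, by norm_num,
        by norm_num, by norm_num, by norm_num⟩ (by norm_num) (by norm_num) (by norm_num) hsq
      (by decide) [(3, -10, 1), (7, -61, 6)] (by decide +kernel)
  · exact field (a := 2) (b := 1) (c := 3) (B := 19) (m := 7) (m2 := 11) (m3 := 5)
      ⟨by norm_num, by norm_num, by norm_num, by norm_num, by norm_num, by norm_num, by norm_num,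
        by norm_num, by norm_num, by norm_num⟩ (by norm_num) (by norm_num) (by norm_num) hsq
      (by decide) [(5, -31, 3), (7, -10, 1)] (by decide +kernel)
  · exact field (a := 1) (b := 3) (c := 1) (B := 21) (m := 17) (m2 := 5) (m3 := 11)
      ⟨by norm_num, by norm_num, by norm_num, by norm_num, by norm_num, by norm_num, by norm_num,
        by norm_num, by norm_num, by norm_num⟩ (by norm_num) (by norm_num) (by norm_num) hsq
      (by decide) [(5, -12, 1), (11, -47, 4)] (by decide +kernel)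
  · exact field (a := 3) (b := 1) (c := 1) (B := 25) (m := 7) (m2 := 13) (m3 := 11)
      ⟨by norm_num, by norm_num, by norm_num, by norm_num, by norm_num, by norm_num, by norm_num,
        by norm_num, by norm_num, by norm_num⟩ (by norm_num) (by norm_num) (by norm_num) hsq
      (by decide) [(7, -13, 1), (11, -53, 4)] (by decide +kernel)
  · exact field (a := 1) (b := 1) (c := 1) (B := 27) (m := 17) (m2 := 11) (m3 := 13)
      ⟨by norm_num, by norm_num, by norm_num, by norm_num, by norm_num, by norm_num, by norm_num,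
        by norm_num, by norm_num, by norm_num⟩ (by norm_num) (by norm_num) (by norm_num) hsq
      (by decide) [(11, -15, 1), (13, -29, 2)] (by decide +kernel)
  · exact field (a := 9) (b := 1) (c := 2) (B := 29) (m := 3) (m2 := 19) (m3 := 9)
      ⟨by norm_num, by norm_num, by norm_num, by norm_num, by norm_num, by norm_num, by norm_num,
        by norm_num, by norm_num, by norm_num⟩ (by norm_num) (by norm_num) (by norm_num) hsq
      (by decide) [(3, -15, 1)] (by decide +kernel)
  · exact field (a := 3) (b := 2) (c := 10) (B := 31) (m := 9) (m2 := 13) (m3 := 3)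
      ⟨by norm_num, by norm_num, by norm_num, by norm_num, by norm_num, by norm_num, by norm_num,
        by norm_num, by norm_num, by norm_num⟩ (by norm_num) (by norm_num) (by norm_num) hsq
      (by decide) [(3, -114, 7), (13, -49, 3)] (by decide +kernel)
  · exact field (a := 1) (b := 4) (c := 1) (B := 37) (m := 31) (m2 := 7) (m3 := 19)
      ⟨by norm_num, by norm_num, by norm_num, by norm_num, by norm_num, by norm_num, by norm_num,
        by norm_num, by norm_num, by norm_num⟩ (by norm_num) (by norm_num) (by norm_num) hsq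
      (by decide) [(7, -20, 1), (19, -99, 5)] (by decide +kernel)
  · exact field (a := 1) (b := 5) (c := 2) (B := 43) (m := 37) (m2 := 7) (m3 := 17)
      ⟨by norm_num, by norm_num, by norm_num, by norm_num, by norm_num, by norm_num, by norm_num,
        by norm_num, by norm_num, by norm_num⟩ (by norm_num) (by norm_num) (by norm_num) hsq
      (by decide) [(7, -23, 1), (17, -137, 6)] (by decide +kernel)
  · exact field (a := 1) (b := 1) (c := 9) (B := 47) (m := 25) (m2 := 23) (m3 := 5)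
      ⟨by norm_num, by norm_num, by norm_num, by norm_num, by norm_num, by norm_num, by norm_num,
        by norm_num, by norm_num, by norm_num⟩ (by norm_num) (by norm_num) (by norm_num) hsq
      (by decide) [(5, -49, 2), (23, -25, 1)] (by decide +kernel)
  · exact field (a := 10) (b := 4) (c := 1) (B := 51) (m := 5) (m2 := 11) (m3 := 25)
      ⟨by norm_num, by norm_num, by norm_num, by norm_num, by norm_num, by norm_num, by norm_num,
        by norm_num, by norm_num, by norm_num⟩ (by norm_num) (by norm_num) (by norm_num) hsq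
      (by decide) [(5, -26, 1), (11, -261, 10)] (by decide +kernel)
  · exact field (a := 3) (b := 4) (c := 2) (B := 61) (m := 19) (m2 := 13) (m3 := 23)
      ⟨by norm_num, by norm_num, by norm_num, by norm_num, by norm_num, by norm_num, by norm_num,
        by norm_num, by norm_num, by norm_num⟩ (by norm_num) (by norm_num) (by norm_num) hsq
      (by decide) [(13, -94, 3), (19, -31, 1), (23, -407, 13)] (by decide +kernel)
  · exact field (a := 1) (b := 3) (c := 6) (B := 69) (m := 53) (m2 := 17) (m3 := 11)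
      ⟨by norm_num, by norm_num, by norm_num, by norm_num, by norm_num, by norm_num, by norm_num,
        by norm_num, by norm_num, by norm_num⟩ (by norm_num) (by norm_num) (by norm_num) hsq
      (by decide) [(11, -143, 4), (17, -36, 1)] (by decide +kernel)

end Pool.Agent.LibH4.P7


end

section

/-!
Assembly of the period seven theorem from the elimination of large parameters.
-/

namespace Pool.Agent.LibH4.P7

open scoped NumberField
open Function Pool.Agent.LibH4 Pool.Agent.Lib_helper5 CFO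

/-- class number one and period seven, given the elimination of large parameters -/
theorem seven_iff (hbig : ∀ (a b c B : ℕ) (m m2 m3 : ℤ), E7.Par a b c B m m2 m3 →
      m % 2 = 1 → B % 2 = 1 →
      ∀ [IsDomain (QuadraticAlgebra ℤ m (B : ℤ))]
        [UniqueFactorizationMonoid (QuadraticAlgebra ℤ m (B : ℤ))],
      23 < m → 23 < m2 → 23 < m3 → False)
    (d : ℕ) (h1 : 1 < d) (hsq : Squarefree d) :
    (minimalPeriod gsh (gsh (omg d)) = 7 ∧ UniqueFactorizationMonoid (𝓞 (KQ d))) ↔ d ∈ l17 := by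
  constructor
  · rintro ⟨hper, hU⟩
    obtain ⟨a, b, c, B, m, m2, m3, hP, ⟨h4, hd, hB⟩ | ⟨h4, hd, hB⟩⟩ := exists_par_seven d h1 hsq hper
    · obtain ⟨e⟩ := exists_equiv_QI hd (by exact_mod_cast hB)
      have e' := e.symm.trans (eqvO hsq h1)
      have i1 : IsDomain (QuadraticAlgebra ℤ m (B : ℤ)) := e'.toMulEquiv.isDomain
      have i2 : UniqueFactorizationMonoid (QuadraticAlgebra ℤ m (B : ℤ)) :=
        e'.symm.toMulEquiv.uniqueFactorizationMonoid hU
      rcases small_cases hP with ⟨d', hd', he⟩ | ⟨hB2, hm2, g1, g2, g3⟩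
      · rw [← hd] at he
        have : d' = d := by exact_mod_cast he
        rw [← this]
        exact hd'
      · exact (hbig a b c B m m2 m3 hP hm2 hB2 g1 g2 g3).elim
    · exfalso
      obtain ⟨e⟩ := exists_equiv_QI_even hd h4 (by exact_mod_cast hB)
      have e' := e.symm.trans (eqvO hsq h1)
      have i1 : IsDomain (QuadraticAlgebra ℤ m (B : ℤ)) := e'.toMulEquiv.isDomain
      have i2 : UniqueFactorizationMonoid (QuadraticAlgebra ℤ m (B : ℤ)) :=
        e'.symm.toMulEquiv.uniqueFactorizationMonoid hU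
      rcases small_cases hP with ⟨d', hd', he⟩ | ⟨hB2, hm2, g1, g2, g3⟩
      · rw [← hd] at he
        have hd4 : d' = 4 * d := by exact_mod_cast he
        have hall : ∀ e ∈ l17, e % 4 ≠ 0 := by decide
        have := hall d' hd'
        omega
      · omega
  · intro h
    exact fields h hsq

end Pool.Agent.LibH4.P7


end

section

/-! generated: check of triples -/

namespace Pool.Agent.Lib_helper29.P7A

open Pool.Agent.Lib_helper5 Pool.Agent.Lib_helper5.LK Pool.Agent.Lib_helper5.TB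
  Pool.Agent.LibH4 Pool.Agent.LibH4.Ker Pool.Agent.LibH4.S7

theorem ck_33 : chk8 e8 AB SG K33 [nat_lit 1, nat_lit 3, nat_lit 5, nat_lit 7] = true := by
  decide +kernel

end Pool.Agent.Lib_helper29.P7A


end

section

/-!
Period seven, stage A2 (the prime 8): the classes modulo 13, 7, 5 of the lists `TRS` lead to the
boxes.
-/

namespace Pool.Agent.Lib_helper29.P7A

open Pool.Agent.Lib_helper5 Pool.Agent.Lib_helper5.LK Pool.Agent.Lib_helper5.TB
  Pool.Agent.LibH4 Pool.Agent.LibH4.Ker Pool.Agent.LibH4.S7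

/-- all lists of triples are checked -/
theorem ck_all : ∀ K ∈ KS, chk8 e8 AB SG K [nat_lit 1, nat_lit 3, nat_lit 5, nat_lit 7] = true := by
  intro K hK
  have hK' : K = K0 ∨ K = K1 ∨ K = K2 ∨ K = K3 ∨ K = K4 ∨ K = K5 ∨ K = K6 ∨ K = K7 ∨ K = K8 ∨ K = K9 ∨ K = K10 ∨ K = K11 ∨ K = K12 ∨ K = K13 ∨ K = K14 ∨ K = K15 ∨ K = K16 ∨ K = K17 ∨ K = K18 ∨ K = K19 ∨ K = K20 ∨ K = K21 ∨ K = K22 ∨ K = K23 ∨ K = K24 ∨ K = K25 ∨ K = K26 ∨ K = K27 ∨ K = K28 ∨ K = K29 ∨ K = K30 ∨ K = K31 ∨ K = K32 ∨ K = K33 := by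
    simpa [KS] using hK
  rcases hK' with rfl | rfl | rfl | rfl | rfl | rfl | rfl | rfl | rfl | rfl | rfl | rfl | rfl | rfl | rfl | rfl | rfl | rfl | rfl | rfl | rfl | rfl | rfl | rfl | rfl | rfl | rfl | rfl | rfl | rfl | rfl | rfl | rfl | rfl
  · exact ck_0
  · exact ck_1
  · exact ck_2
  · exact ck_3
  · exact ck_4
  · exact ck_5
  · exact ck_6
  · exact ck_7
  · exact ck_8
  · exact ck_9
  · exact ck_10
  · exact ck_11
  · exact ck_12
  · exact ck_13
  · exact ck_14
  · exact ck_15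
  · exact ck_16
  · exact ck_17
  · exact ck_18
  · exact ck_19
  · exact ck_20
  · exact ck_21
  · exact ck_22
  · exact ck_23
  · exact ck_24
  · exact ck_25
  · exact ck_26
  · exact ck_27
  · exact ck_28
  · exact ck_29
  · exact ck_30
  · exact ck_31
  · exact ck_32
  · exact ck_33

/-- every list of triples is covered by the checked lists -/
theorem fl_all : ∀ T ∈ P7.TRS, ∃ LL : List (List ℕ), (∀ K ∈ LL, K ∈ KS) ∧
    fl8T R455F5 LL T = true := by
  intro T hT
  have hT' : T = P7.TRI_0 ∨ T = P7.TRI_1 ∨ T = P7.TRI_2 ∨ T = P7.TRI_3 ∨ T = P7.TRI_4 ∨ T = P7.TRI_5 ∨ T = P7.TRI_6 ∨ T = P7.TRI_7 ∨ T = P7.TRI_8 ∨ T = P7.TRI_9 ∨ T = P7.TRI_10 ∨ T = P7.TRI_11 ∨ T = P7.TRI_12 ∨ T = P7.TRI_13 ∨ T = P7.TRI_14 ∨ T = P7.TRI_15 ∨ T = P7.TRI_16 ∨ T = P7.TRI_17 ∨ T = P7.TRI_18 ∨ T = P7.TRI_19 ∨ T = P7.TRI_20 ∨ T = P7.TRI_21 ∨ T = P7.TRI_22 ∨ T = P7.TRI_23 ∨ T = P7.TRI_24 ∨ T = P7.TRI_25 ∨ T = P7.TRI_26 ∨ T = P7.TRI_27 ∨ T = P7.TRI_28 ∨ T = P7.TRI_29 ∨ T = P7.TRI_30 ∨ T = P7.TRI_31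 ∨ T = P7.TRI_32 ∨ T = P7.TRI_33 ∨ T = P7.TRI_34 ∨ T = P7.TRI_35 ∨ T = P7.TRI_36 ∨ T = P7.TRI_37 ∨ T = P7.TRI_38 ∨ T = P7.TRI_39 ∨ T = P7.TRI_40 ∨ T = P7.TRI_41 := by
    simpa [P7.TRS] using hT
  rcases hT' with rfl | rfl | rfl | rfl | rfl | rfl | rfl | rfl | rfl | rfl | rfl | rfl | rfl | rfl | rfl | rfl | rfl | rfl | rfl | rfl | rfl | rfl | rfl | rfl | rfl | rfl | rfl | rfl | rfl | rfl | rfl | rfl | rfl | rfl | rfl | rfl | rfl | rfl | rfl | rfl | rfl | rfl
  · exact ⟨_, by simp [KS], fl_0⟩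
  · exact ⟨_, by simp [KS], fl_1⟩
  · exact ⟨_, by simp [KS], fl_2⟩
  · exact ⟨_, by simp [KS], fl_3⟩
  · exact ⟨_, by simp [KS], fl_4⟩
  · exact ⟨_, by simp [KS], fl_5⟩
  · exact ⟨_, by simp [KS], fl_6⟩
  · exact ⟨_, by simp [KS], fl_7⟩
  · exact ⟨_, by simp [KS], fl_8⟩
  · exact ⟨_, by simp [KS], fl_9⟩
  · exact ⟨_, by simp [KS], fl_10⟩
  · exact ⟨_, by simp [KS], fl_11⟩
  · exact ⟨_, by simp [KS], fl_12⟩
  · exact ⟨_, by simp [KS], fl_13⟩
  · exact ⟨_, by simp [KS], fl_14⟩
  · exact ⟨_, by simp [KS], fl_15⟩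
  · exact ⟨_, by simp [KS], fl_16⟩
  · exact ⟨_, by simp [KS], fl_17⟩
  · exact ⟨_, by simp [KS], fl_18⟩
  · exact ⟨_, by simp [KS], fl_19⟩
  · exact ⟨_, by simp [KS], fl_20⟩
  · exact ⟨_, by simp [KS], fl_21⟩
  · exact ⟨_, by simp [KS], fl_22⟩
  · exact ⟨_, by simp [KS], fl_23⟩
  · exact ⟨_, by simp [KS], fl_24⟩
  · exact ⟨_, by simp [KS], fl_25⟩
  · exact ⟨_, by simp [KS], fl_26⟩
  · exact ⟨_, by simp [KS], fl_27⟩
  · exact ⟨_, by simp [KS], fl_28⟩
  · exact ⟨_, by simp [KS], fl_29⟩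
  · exact ⟨_, by simp [KS], fl_30⟩
  · exact ⟨_, by simp [KS], fl_31⟩
  · exact ⟨_, by simp [KS], fl_32⟩
  · exact ⟨_, by simp [KS], fl_33⟩
  · exact ⟨_, by simp [KS], fl_34⟩
  · exact ⟨_, by simp [KS], fl_35⟩
  · exact ⟨_, by simp [KS], fl_36⟩
  · exact ⟨_, by simp [KS], fl_37⟩
  · exact ⟨_, by simp [KS], fl_38⟩
  · exact ⟨_, by simp [KS], fl_39⟩
  · exact ⟨_, by simp [KS], fl_40⟩
  · exact ⟨_, by simp [KS], fl_41⟩

/-- **stage A2 of period seven** -/
theorem stageA2 {Q : ℕ} {a b c B m : ℤ} (S : Sys Q a b c B m) (hQ : 910 ∣ Q)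
    (h : ∃ T ∈ P7.TRS, P7.InT (cd 13 a b c B m) (cd 7 a b c B m) (cd 5 a b c B m) T) :
    R8 a b c B m ∨ R8 (-a) (-b) (-c) (-B) m := by
  obtain ⟨T, hT, hI⟩ := h
  obtain ⟨LL, hLL, hf⟩ := fl_all T hT
  obtain ⟨K, hK, hm⟩ := fl8T_spec (R455F5_holds S hQ) hI hf
  exact step8 S hQ hm (ck_all K (hLL K hK))

end Pool.Agent.Lib_helper29.P7A


end
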