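import Mathlib
import Pool.Agent.RQM.C10
import Pool.Agent.RQM.C119
import Pool.Agent.RQM.C12
import Pool.Agent.RQM.C135
import Pool.Agent.RQM.C148
import Pool.Agent.RQM.C149
import Pool.Agent.RQM.C15
import Pool.Agent.RQM.C40
import Pool.Agent.RQM.C44

/-! Parts: P4E.Dr, P4E.Fam, P4E.KA0, P4E.KA1, P4E.KA3, P4E.KB1, P4E.KB2, P4E.KB3, P4E.KC0, P4E.KC4, P4E.KD0, P4E.KD4, P4E.KD5, P4E.KD6, P4E.KF, P4E.Final, P4G.Line, P4G.NoGhost -/

namespace Pool.Agent.LibH4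
end Pool.Agent.LibH4
namespace Pool.Agent.LibH4.FA
end Pool.Agent.LibH4.FA
namespace Pool.Agent.LibH4.KF
end Pool.Agent.LibH4.KF
namespace Pool.Agent.LibH4.Ker
end Pool.Agent.LibH4.Ker
namespace Pool.Agent.LibH4.T6
end Pool.Agent.LibH4.T6
namespace Pool.Agent.Lib_helper5
end Pool.Agent.Lib_helper5
namespace Pool.Agent.Lib_helper5.K4
end Pool.Agent.Lib_helper5.K4
namespace Pool.Agent.Lib_helper5.LK
end Pool.Agent.Lib_helper5.LK
namespace Pool.Agent.Lib_helper5.RDF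
end Pool.Agent.Lib_helper5.RDF
namespace Pool.Agent.P4E
end Pool.Agent.P4E
namespace Pool.Agent.RDF
end Pool.Agent.RDF

section

/-!
Direct evaluation of relations.
-/

namespace Pool.Agent.P4E

open Finset
open Pool.Agent.LibH4 Pool.Agent.LibH4.Ker Pool.Agent.LibH4.T6 Pool.Agent.LibH4.KF
open Pool.Agent.Lib_helper5 Pool.Agent.Lib_helper5.LK Pool.Agent.Lib_helper5.K4

/-- direct evaluation -/
def dr_d1 (x1 _x2 x3 xl : ℕ × ℕ × ℕ) (k : ℕ → Bool) : Bool :=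
  ggl (nat_lit 13) T1_d1 (nat_lit 640) ds13 fun G =>
  withP4 (nat_lit 13) x1.1 x1.2.1 x1.2.2 fun B _ nm nr R d =>
  withP4 (nat_lit 13) xl.1 xl.2.1 xl.2.2 fun Bl _ _ _ _ _ =>
  rowA (nat_lit 13) T1_d1 (nat_lit 640) G W_d1 Y1_d1 Y0_d1 (nat_lit 1) (nat_lit 13) d
    (FK4 (nat_lit 13) (nat_lit 13) xl.1 xl.2.1 Bl B nm nr R) (nat_lit 0) fun A => strict A fun A1 =>
  withP4 (nat_lit 7) x3.1 x3.2.1 x3.2.2 fun B3 m3 nm3 nr3 R3 _ =>
  strict (vecB (nat_lit 7) T3_d1 (nat_lit 1208925819614629174706176) (nat_lit 640) L7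
    (forms4 (nat_lit 7) B3 m3 nm3 nr3 R3)) fun v =>
  k (ip (nat_lit 2197) (nat_lit 1840) A1 v)

lemma dr_d1_spec {Q : ℕ} {a b t : ℤ} (S : SysE Q a b t) (hQ : 91 ∣ Q) {k : ℕ → Bool}
    {x2 : ℕ × ℕ × ℕ} (h : dr_d1 (cl 13 a b t) x2 (cl 7 a b t) (cl 13 a b t) k = true) : k 0 = true := by
  unfold dr_d1 cl at h
  simp only [ggl_eq] at h
  rw [withP4_eq, withP4_eq, FK4_eq] at h
  obtain ⟨h, C⟩ := rowA_use (by norm_num) (by norm_num) h
  rw [withP4_eq, forms4_eq (by norm_num), vecB_use, strict_eq, zB_d1 S hQ C] at h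
  exact h

/-- direct evaluation -/
def dr_d5 (x1 x2 x3 xl : ℕ × ℕ × ℕ) (k : ℕ → Bool) : Bool :=
  ggl (nat_lit 7) T1_d5 (nat_lit 13440) ds7 fun G =>
  withP4 (nat_lit 7) x1.1 x1.2.1 x1.2.2 fun B _ nm nr R d =>
  withP4 (nat_lit 7) xl.1 xl.2.1 xl.2.2 fun Bl _ _ _ _ _ =>
  rowA (nat_lit 7) T1_d5 (nat_lit 13440) G W_d5 Y1_d5 Y0_d5 (nat_lit 1) (nat_lit 7) d
    (FK4 (nat_lit 7) (nat_lit 7) xl.1 xl.2.1 Bl B nm nr R) (nat_lit 0) fun A => strict A fun A1 =>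
  withP4 (nat_lit 8) x2.1 x2.2.1 x2.2.2 fun B2 m2 nm2 nr2 R2 _ =>
  strict (red (nat_lit 13440) (nat_lit 1120) (nat_lit 12320) (nat_lit 3) A1
    (vecA (nat_lit 8) T2_d5 (Nat.pow (nat_lit 2) (nat_lit 1120)) (nat_lit 13440) L8
      (forms4 (nat_lit 8) B2 m2 nm2 nr2 R2) (nat_lit 0))) fun A2 =>
  withP4 (nat_lit 13) x3.1 x3.2.1 x3.2.2 fun B3 m3 nm3 nr3 R3 _ =>
  strict (vecB (nat_lit 13) T3_d5 (nat_lit 1208925819614629174706176) (nat_lit 1120) L13
    (forms4 (nat_lit 13) B3 m3 nm3 nr3 R3)) fun v =>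
  k (ip (nat_lit 343) (nat_lit 3280) A2 v)

lemma dr_d5_spec {Q : ℕ} {a b t : ℤ} (S : SysE Q a b t) (hQ : 182 ∣ Q) {k : ℕ → Bool}
    (h : dr_d5 (cl 7 a b t) (cl 8 a b t) (cl 13 a b t) (cl 7 a b t) k = true) : k 0 = true := by
  unfold dr_d5 cl at h
  simp only [ggl_eq] at h
  rw [withP4_eq, withP4_eq, FK4_eq] at h
  obtain ⟨h, C⟩ := rowA_use (by norm_num) (by norm_num) h
  rw [withP4_eq, forms4_eq (by norm_num), vecA_use, strict_eq] at h
  rw [withP4_eq, forms4_eq (by norm_num), vecB_use, strict_eq, zB_d5 S hQ C] at h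
  exact h

/-- direct evaluation -/
def dr_h1 (x1 x2 x3 xl : ℕ × ℕ × ℕ) (k : ℕ → Bool) : Bool :=
  ggl (nat_lit 7) T1_h1 (nat_lit 5760) ds7 fun G =>
  withP4 (nat_lit 7) x1.1 x1.2.1 x1.2.2 fun B _ nm nr R d =>
  withP4 (nat_lit 7) xl.1 xl.2.1 xl.2.2 fun Bl _ _ _ _ _ =>
  rowA (nat_lit 7) T1_h1 (nat_lit 5760) G W_h1 Y1_h1 Y0_h1 (nat_lit 1) (nat_lit 7) d
    (FK4 (nat_lit 7) (nat_lit 7) xl.1 xl.2.1 Bl B nm nr R) (nat_lit 0) fun A => strict A fun A1 =>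
  withP4 (nat_lit 8) x2.1 x2.2.1 x2.2.2 fun B2 m2 nm2 nr2 R2 _ =>
  strict (red (nat_lit 5760) (nat_lit 480) (nat_lit 5280) (nat_lit 3) A1
    (vecA (nat_lit 8) T2_h1 (Nat.pow (nat_lit 2) (nat_lit 480)) (nat_lit 5760) L8
      (forms4 (nat_lit 8) B2 m2 nm2 nr2 R2) (nat_lit 0))) fun A2 =>
  withP4 (nat_lit 5) x3.1 x3.2.1 x3.2.2 fun B3 m3 nm3 nr3 R3 _ =>
  strict (vecB (nat_lit 5) T3_h1 (nat_lit 1208925819614629174706176) (nat_lit 480) L5
    (forms4 (nat_lit 5) B3 m3 nm3 nr3 R3)) fun v =>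
  k (ip (nat_lit 343) (nat_lit 1360) A2 v)

lemma dr_h1_spec {Q : ℕ} {a b t : ℤ} (S : SysE Q a b t) (hQ : 70 ∣ Q) {k : ℕ → Bool}
    (h : dr_h1 (cl 7 a b t) (cl 8 a b t) (cl 5 a b t) (cl 7 a b t) k = true) : k 0 = true := by
  unfold dr_h1 cl at h
  simp only [ggl_eq] at h
  rw [withP4_eq, withP4_eq, FK4_eq] at h
  obtain ⟨h, C⟩ := rowA_use (by norm_num) (by norm_num) h
  rw [withP4_eq, forms4_eq (by norm_num), vecA_use, strict_eq] at h
  rw [withP4_eq, forms4_eq (by norm_num), vecB_use, strict_eq, zB_h1 S hQ C] at h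
  exact h

/-- the filter -/
def flt (L : List ℕ) : Bool :=
  allL (fun c => cls (nat_lit 8) (nat_lit 1) c fun a8 b8 t8 =>
    cls (nat_lit 13) (nat_lit 438976000) c fun a13 b13 t13 => cls (nat_lit 7) (nat_lit 964430272000) c fun a7 b7 t7 =>
    dr_d5 (a7, b7, t7) (a8, b8, t8) (a13, b13, t13) (a7, b7, t7) fun v => cond0 v false) L

theorem flt_spec {Q : ℕ} {a b t : ℤ} (S : SysE Q a b t) (hQ : 17290 ∣ Q) {L : List ℕ}
    (hc : c69160 a b t ∈ L) (h : flt L = true) : False := by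
  have h := allL_spec h _ hc
  rw [cls_eq (c69160_8 a b t), cls_eq (c69160_13 a b t), cls_eq (c69160_7 a b t)] at h
  have h := dr_d5_spec S (Dvd.dvd.trans (by norm_num) hQ) h
  have h := cond0_zero rfl h
  exact absurd h (by simp)

end Pool.Agent.P4E


end

section

/-!
The families with small `r`: `a` and `a t - b = s` are fixed.
-/

namespace Pool.Agent.P4E

open Finset
open Pool.Agent.LibH4 Pool.Agent.LibH4.Ker Pool.Agent.LibH4.T6 Pool.Agent.LibH4.KF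
open Pool.Agent.Lib_helper5 Pool.Agent.Lib_helper5.LK Pool.Agent.Lib_helper5.K4

/-- the class of the parameters `a`, `a t - s`, `t` -/
def fc (p a s t : ℕ) : ℕ × ℕ × ℕ :=
  (Nat.mod a p, Nat.mod (Nat.add (Nat.mul a t) (Nat.sub p (Nat.mod s p))) p, Nat.mod t p)

lemma fc_b {p : ℕ} [NeZero p] (a s t : ℕ) (t' : ℤ) (h : (t : ZMod p) = (t' : ZMod p)) :
    Nat.mod (Nat.add (Nat.mul a t) (Nat.sub p (Nat.mod s p))) p = rs p ((a : ℤ) * t' - s) := by
  change (a * t + (p - s % p)) % p = _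
  have hp : 0 < p := Nat.pos_of_ne_zero (NeZero.ne p)
  apply rs_of
  rw [Nat.cast_add, Nat.cast_mul, Nat.cast_sub (Nat.mod_lt _ hp).le, ZMod.natCast_mod, h]
  push_cast
  rw [ZMod.natCast_self]
  ring

lemma fc_eq {p : ℕ} [NeZero p] (a s t : ℕ) (t' : ℤ) (h : (t : ZMod p) = (t' : ZMod p)) :
    fc p a s t = cl p (a : ℤ) ((a : ℤ) * t' - s) t' := by
  unfold fc cl
  rw [fc_b a s t t' h]
  have e1 : Nat.mod a p = rs p (a : ℤ) := rs_of (by push_cast; rfl)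
  have e2 : Nat.mod t p = rs p t' := rs_of h
  rw [e1, e2]

/-- the class belongs to the family -/
def isF (p a s : ℕ) (x : ℕ × ℕ × ℕ) : Bool :=
  andB (Nat.beq x.1 (Nat.mod a p))
    (Nat.beq x.2.1 (Nat.mod (Nat.add (Nat.mul a x.2.2) (Nat.sub p (Nat.mod s p))) p))

/-- the opposite class belongs to the family -/
def isN (p a s : ℕ) (x : ℕ × ℕ × ℕ) : Bool :=
  andB (Nat.beq x.1 (Nat.mod (Nat.sub p (Nat.mod a p)) p))
    (Nat.beq x.2.1 (Nat.mod (Nat.sub p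
      (Nat.mod (Nat.add (Nat.mul a x.2.2) (Nat.sub p (Nat.mod s p))) p)) p))

lemma rs_nat {p : ℕ} [NeZero p] (t : ℤ) : ((rs p t : ℕ) : ZMod p) = (t : ZMod p) := rs_cast t

lemma rs_opp {p : ℕ} [NeZero p] (x : ℤ) : Nat.mod (Nat.sub p (rs p x)) p = rs p (-x) := by
  change (p - rs p x) % p = _
  apply rs_of
  rw [Nat.cast_sub (rs_lt x).le, rs_cast]
  push_cast
  simp

lemma isF_spec {p : ℕ} [NeZero p] (a s : ℕ) (t : ℤ) :
    isF p a s (cl p (a : ℤ) ((a : ℤ) * t - s) t) = true := by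
  unfold isF cl
  have e1 : Nat.mod a p = rs p (a : ℤ) := rs_of (by push_cast; rfl)
  have e2 := fc_b (p := p) a s (rs p t) t (rs_cast t)
  simp only
  rw [e1, e2, Nat.beq_refl, Nat.beq_refl]
  rfl

lemma isN_spec {p : ℕ} [NeZero p] (a s : ℕ) (t : ℤ) :
    isN p a s (cl p (-(a : ℤ)) (-((a : ℤ) * t - s)) t) = true := by
  unfold isN cl
  have e1 : Nat.mod a p = rs p (a : ℤ) := rs_of (by push_cast; rfl)
  have e2 := fc_b (p := p) a s (rs p t) t (rs_cast t)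
  simp only
  rw [e1, e2, rs_opp, rs_opp, Nat.beq_refl, Nat.beq_refl]
  rfl

/-- inertness of a class -/
def inT (p e : ℕ) (x : ℕ × ℕ × ℕ) : Bool :=
  withP4 p x.1 x.2.1 x.2.2 fun _ _ _ _ _ d => Nat.beq (Nat.mod (Nat.pow d e) p)
    (Nat.sub p (nat_lit 1))

lemma inT_spec {Q : ℕ} {a b t : ℤ} (S : SysE Q a b t) {p : ℕ} [NeZero p] (hp : p.Prime)
    (hp2 : p ≠ 2) (hd : p ∣ Q) : inT p (p / 2) (cl p a b t) = true := by
  unfold inT cl
  rw [withP4_eq]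
  exact S.inr p hp hp2 hd

/-- implication -/
def impB (a b : Bool) : Bool := @Bool.rec (fun _ => Bool) true b a

lemma impB_spec {a b : Bool} (h : impB a b = true) (ha : a = true) : b = true := by
  subst ha; exact h

/-- classes modulo 760 in a family -/
def fam760 (a s : ℕ) (k : ℕ → ℕ → ℕ → Bool) (L : List ℕ) : Bool :=
  allL (fun c => cls (nat_lit 8) (nat_lit 1) c fun a8 b8 t8 =>
    cls (nat_lit 19) (nat_lit 512) c fun a19 b19 t19 =>
    cls (nat_lit 5) (nat_lit 3511808) c fun a5 b5 t5 =>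
    andB (impB (andB (isF (nat_lit 8) a s (a8, b8, t8)) (andB (isF (nat_lit 19) a s (a19, b19, t19))
        (isF (nat_lit 5) a s (a5, b5, t5)))) (k t8 t19 t5))
      (impB (andB (isN (nat_lit 8) a s (a8, b8, t8)) (andB (isN (nat_lit 19) a s (a19, b19, t19))
        (isN (nat_lit 5) a s (a5, b5, t5)))) (k t8 t19 t5))) L

lemma fam760_specF {a s : ℕ} {t : ℤ} {k : ℕ → ℕ → ℕ → Bool} {L : List ℕ}
    (h : fam760 a s k L = true)
    (hc : c760 (a : ℤ) ((a : ℤ) * t - s) t ∈ L) : k (rs 8 t) (rs 19 t) (rs 5 t) = true := by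
  have h := allL_spec h _ hc
  rw [cls_eq (c760_8 _ _ _), cls_eq (c760_19 _ _ _), cls_eq (c760_5 _ _ _)] at h
  obtain ⟨h, -⟩ := andB_spec h
  refine impB_spec h ?_
  have e8 := isF_spec (p := 8) a s t
  have e19 := isF_spec (p := 19) a s t
  have e5 := isF_spec (p := 5) a s t
  unfold cl at e8 e19 e5
  rw [e8, e19, e5]
  rfl

lemma fam760_specN {a s : ℕ} {t : ℤ} {k : ℕ → ℕ → ℕ → Bool} {L : List ℕ}
    (h : fam760 a s k L = true)
    (hc : c760 (-(a : ℤ)) (-((a : ℤ) * t - s)) t ∈ L) : k (rs 8 t) (rs 19 t) (rs 5 t) = true := by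
  have h := allL_spec h _ hc
  rw [cls_eq (c760_8 _ _ _), cls_eq (c760_19 _ _ _), cls_eq (c760_5 _ _ _)] at h
  obtain ⟨-, h⟩ := andB_spec h
  refine impB_spec h ?_
  have e8 := isN_spec (p := 8) a s t
  have e19 := isN_spec (p := 19) a s t
  have e5 := isN_spec (p := 5) a s t
  unfold cl at e8 e19 e5
  rw [e8, e19, e5]
  rfl

lemma f760_7 : fam760 (nat_lit 6) (nat_lit 1) (fun _ _ _ => false) S760 = true := by
  decide +kernel

/-- the families with `r = 19` -/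
def famA (a s : ℕ) : Bool :=
  allR (fun t => impB (Nat.beq (Nat.mod t (nat_lit 2)) (nat_lit 0))
    (impB (inT (nat_lit 5) (nat_lit 2) (fc (nat_lit 5) a s t))
    (impB (inT (nat_lit 7) (nat_lit 3) (fc (nat_lit 7) a s t))
    (dr_h1 (fc (nat_lit 7) a s t) (fc (nat_lit 8) a s t) (fc (nat_lit 5) a s t)
      (fc (nat_lit 7) a s t) fun v => cond0 v (
    allR (fun u => impB (inT (nat_lit 13) (nat_lit 6) (fc (nat_lit 13) a s u))
      (dr_d1 (fc (nat_lit 13) a s u) (fc (nat_lit 13) a s u) (fc (nat_lit 7) a s t)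
        (fc (nat_lit 13) a s u) fun v => cond0 v (
      dr_d5 (fc (nat_lit 7) a s t) (fc (nat_lit 8) a s t) (fc (nat_lit 13) a s u)
        (fc (nat_lit 7) a s t) fun v => cond0 v false))) (nat_lit 13)))))) (nat_lit 280)

lemma famA_spec {Q : ℕ} {a s : ℕ} {t : ℤ} (S : SysE Q (a : ℤ) ((a : ℤ) * t - s) t)
    (hQ : 910 ∣ Q) (h : famA a s = true) : False := by
  have h280 : ((rs 280 t : ℕ) : ℤ) = t % 280 := ZMod.val_intCast t
  have hz : ∀ p : ℕ, p ∣ 280 → ((rs 280 t : ℕ) : ZMod p) = (t : ZMod p) := by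
    intro p hp
    have h1 : ((rs 280 t : ℕ) : ℤ) ≡ t [ZMOD (p : ℤ)] := by
      rw [h280]
      exact (Int.mod_modEq t 280).of_dvd (by exact_mod_cast hp)
    have := (ZMod.intCast_eq_intCast_iff _ _ p).2 h1
    exact_mod_cast this
  have h := allR_spec h (rs 280 t) (rs_lt t)
  have ot : Nat.beq (Nat.mod (rs 280 t) (nat_lit 2)) (nat_lit 0) = true := by
    have h1 := S.ot
    have h2 : rs 280 t % 2 = 0 := by omega
    change Nat.beq (rs 280 t % 2) 0 = true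
    rw [h2]
    rfl
  have h := impB_spec h ot
  rw [fc_eq a s _ t (hz 5 (by norm_num)), fc_eq a s _ t (hz 7 (by norm_num)),
    fc_eq a s _ t (hz 8 (by norm_num))] at h
  have h := impB_spec h (inT_spec (p := 5) S (by norm_num) (by norm_num)
    (Dvd.dvd.trans (by norm_num) hQ))
  have h := impB_spec h (inT_spec (p := 7) S (by norm_num) (by norm_num)
    (Dvd.dvd.trans (by norm_num) hQ))
  have h := dr_h1_spec S (Dvd.dvd.trans (by norm_num) hQ) h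
  have h := cond0_zero rfl h
  have h := allR_spec h (rs 13 t) (rs_lt t)
  rw [fc_eq a s _ t (rs_cast t)] at h
  have h := impB_spec h (inT_spec (p := 13) S (by norm_num) (by norm_num)
    (Dvd.dvd.trans (by norm_num) hQ))
  have h := dr_d1_spec S (Dvd.dvd.trans (by norm_num) hQ) h
  have h := cond0_zero rfl h
  have h := dr_d5_spec S (Dvd.dvd.trans (by norm_num) hQ) h
  have h := cond0_zero rfl h
  exact absurd h (by simp)

lemma fA_6 : famA (nat_lit 6) (nat_lit 3) = true := by decide +kernel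

lemma fA_18 : famA (nat_lit 18) (nat_lit 1) = true := by decide +kernel

end Pool.Agent.P4E


end

section

/-! generated: kernel checks -/

namespace Pool.Agent.P4E

open Finset
open Pool.Agent.LibH4 Pool.Agent.LibH4.Ker Pool.Agent.LibH4.T6 Pool.Agent.LibH4.KF
open Pool.Agent.Lib_helper5 Pool.Agent.Lib_helper5.LK Pool.Agent.Lib_helper5.K4

lemma stA_0 : stA (nat_lit 0) (nat_lit 0) (nat_lit 19) = true := by decide +kernel

lemma stA_1 : stA (nat_lit 1) (nat_lit 0) (nat_lit 19) = true := by decide +kernel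

lemma stA_2 : stA (nat_lit 2) (nat_lit 0) (nat_lit 19) = true := by decide +kernel

lemma stA_3 : stA (nat_lit 3) (nat_lit 0) (nat_lit 19) = true := by decide +kernel

end Pool.Agent.P4E


end

section

/-! generated: kernel checks -/

namespace Pool.Agent.P4E

open Finset
open Pool.Agent.LibH4 Pool.Agent.LibH4.Ker Pool.Agent.LibH4.T6 Pool.Agent.LibH4.KF
open Pool.Agent.Lib_helper5 Pool.Agent.Lib_helper5.LK Pool.Agent.Lib_helper5.K4

lemma stA_4 : stA (nat_lit 4) (nat_lit 0) (nat_lit 19) = true := by decide +kernel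

lemma stA_5 : stA (nat_lit 5) (nat_lit 0) (nat_lit 19) = true := by decide +kernel

lemma stA_6 : stA (nat_lit 6) (nat_lit 0) (nat_lit 19) = true := by decide +kernel

lemma stA_7 : stA (nat_lit 7) (nat_lit 0) (nat_lit 19) = true := by decide +kernel

end Pool.Agent.P4E


end

section

/-! generated: kernel checks -/

namespace Pool.Agent.P4E

open Finset
open Pool.Agent.LibH4 Pool.Agent.LibH4.Ker Pool.Agent.LibH4.T6 Pool.Agent.LibH4.KF
open Pool.Agent.Lib_helper5 Pool.Agent.Lib_helper5.LK Pool.Agent.Lib_helper5.K4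

lemma stA_12 : stA (nat_lit 12) (nat_lit 0) (nat_lit 19) = true := by decide +kernel

lemma stA_13 : stA (nat_lit 13) (nat_lit 0) (nat_lit 19) = true := by decide +kernel

lemma stA_14 : stA (nat_lit 14) (nat_lit 0) (nat_lit 19) = true := by decide +kernel

lemma stA_15 : stA (nat_lit 15) (nat_lit 0) (nat_lit 19) = true := by decide +kernel

end Pool.Agent.P4E


end

section

/-! generated: kernel checks -/

namespace Pool.Agent.P4E

open Finset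
open Pool.Agent.LibH4 Pool.Agent.LibH4.Ker Pool.Agent.LibH4.T6 Pool.Agent.LibH4.KF
open Pool.Agent.Lib_helper5 Pool.Agent.Lib_helper5.LK Pool.Agent.Lib_helper5.K4

lemma stB_4 : stB (nat_lit 2, nat_lit 3, nat_lit 0) = true := by decide +kernel

lemma stB_5 : stB (nat_lit 2, nat_lit 3, nat_lit 2) = true := by decide +kernel

lemma stB_6 : stB (nat_lit 2, nat_lit 3, nat_lit 4) = true := by decide +kernel

lemma stB_7 : stB (nat_lit 2, nat_lit 3, nat_lit 6) = true := by decide +kernel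

end Pool.Agent.P4E


end

section

/-! generated: kernel checks -/

namespace Pool.Agent.P4E

open Finset
open Pool.Agent.LibH4 Pool.Agent.LibH4.Ker Pool.Agent.LibH4.T6 Pool.Agent.LibH4.KF
open Pool.Agent.Lib_helper5 Pool.Agent.Lib_helper5.LK Pool.Agent.Lib_helper5.K4

lemma stB_8 : stB (nat_lit 2, nat_lit 5, nat_lit 0) = true := by decide +kernel

lemma stB_9 : stB (nat_lit 2, nat_lit 5, nat_lit 2) = true := by decide +kernel

lemma stB_10 : stB (nat_lit 2, nat_lit 5, nat_lit 4) = true := by decide +kernel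

lemma stB_11 : stB (nat_lit 2, nat_lit 5, nat_lit 6) = true := by decide +kernel

end Pool.Agent.P4E


end

section

/-! generated: kernel checks -/

namespace Pool.Agent.P4E

open Finset
open Pool.Agent.LibH4 Pool.Agent.LibH4.Ker Pool.Agent.LibH4.T6 Pool.Agent.LibH4.KF
open Pool.Agent.Lib_helper5 Pool.Agent.Lib_helper5.LK Pool.Agent.Lib_helper5.K4

lemma stB_12 : stB (nat_lit 2, nat_lit 7, nat_lit 0) = true := by decide +kernel

lemma stB_13 : stB (nat_lit 2, nat_lit 7, nat_lit 2) = true := by decide +kernel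

lemma stB_14 : stB (nat_lit 2, nat_lit 7, nat_lit 4) = true := by decide +kernel

lemma stB_15 : stB (nat_lit 2, nat_lit 7, nat_lit 6) = true := by decide +kernel

end Pool.Agent.P4E


end

section

/-! generated: kernel checks -/

namespace Pool.Agent.P4E

open Finset
open Pool.Agent.LibH4 Pool.Agent.LibH4.Ker Pool.Agent.LibH4.T6 Pool.Agent.LibH4.KF
open Pool.Agent.Lib_helper5 Pool.Agent.Lib_helper5.LK Pool.Agent.Lib_helper5.K4

lemma stC_0 : stC (nat_lit 0) (nat_lit 1) = true := by decide +kernel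

lemma stC_1 : stC (nat_lit 1) (nat_lit 1) = true := by decide +kernel

end Pool.Agent.P4E


end

section

/-! generated: kernel checks -/

namespace Pool.Agent.P4E

open Finset
open Pool.Agent.LibH4 Pool.Agent.LibH4.Ker Pool.Agent.LibH4.T6 Pool.Agent.LibH4.KF
open Pool.Agent.Lib_helper5 Pool.Agent.Lib_helper5.LK Pool.Agent.Lib_helper5.K4

lemma stC_8 : stC (nat_lit 8) (nat_lit 1) = true := by decide +kernel

lemma stC_9 : stC (nat_lit 9) (nat_lit 1) = true := by decide +kernel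

end Pool.Agent.P4E


end

section

/-! generated: kernel checks -/

namespace Pool.Agent.P4E

open Finset
open Pool.Agent.LibH4 Pool.Agent.LibH4.Ker Pool.Agent.LibH4.T6 Pool.Agent.LibH4.KF
open Pool.Agent.Lib_helper5 Pool.Agent.Lib_helper5.LK Pool.Agent.Lib_helper5.K4

lemma stD_0 : stD (nat_lit 0) (nat_lit 1) = true := by decide +kernel

end Pool.Agent.P4E


end

section

/-! generated: kernel checks -/

namespace Pool.Agent.P4E

open Finset
open Pool.Agent.LibH4 Pool.Agent.LibH4.Ker Pool.Agent.LibH4.T6 Pool.Agent.LibH4.KF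
open Pool.Agent.Lib_helper5 Pool.Agent.Lib_helper5.LK Pool.Agent.Lib_helper5.K4

lemma stD_4 : stD (nat_lit 4) (nat_lit 1) = true := by decide +kernel

end Pool.Agent.P4E


end

section

/-! generated: kernel checks -/

namespace Pool.Agent.P4E

open Finset
open Pool.Agent.LibH4 Pool.Agent.LibH4.Ker Pool.Agent.LibH4.T6 Pool.Agent.LibH4.KF
open Pool.Agent.Lib_helper5 Pool.Agent.Lib_helper5.LK Pool.Agent.Lib_helper5.K4

lemma stD_5 : stD (nat_lit 5) (nat_lit 1) = true := by decide +kernel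

end Pool.Agent.P4E


end

section

/-! generated: kernel checks -/

namespace Pool.Agent.P4E

open Finset
open Pool.Agent.LibH4 Pool.Agent.LibH4.Ker Pool.Agent.LibH4.T6 Pool.Agent.LibH4.KF
open Pool.Agent.Lib_helper5 Pool.Agent.Lib_helper5.LK Pool.Agent.Lib_helper5.K4

lemma stD_6 : stD (nat_lit 6) (nat_lit 1) = true := by decide +kernel

end Pool.Agent.P4E


end

section

/-! generated: kernel checks -/

namespace Pool.Agent.P4E

open Finset
open Pool.Agent.LibH4 Pool.Agent.LibH4.Ker Pool.Agent.LibH4.T6 Pool.Agent.LibH4.KF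
open Pool.Agent.Lib_helper5 Pool.Agent.Lib_helper5.LK Pool.Agent.Lib_helper5.K4

lemma fltD : flt S6 = true := by decide +kernel

end Pool.Agent.P4E


end

section

/-!
The elimination for period four, first partial quotient congruent to two modulo four.
-/

namespace Pool.Agent.P4E

open Finset
open Pool.Agent.LibH4 Pool.Agent.LibH4.Ker Pool.Agent.LibH4.T6 Pool.Agent.LibH4.KF
open Pool.Agent.Lib_helper5 Pool.Agent.Lib_helper5.LK Pool.Agent.Lib_helper5.K4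

/-- membership of a triple -/
def memT (c : ℕ × ℕ × ℕ) (L : List (ℕ × ℕ × ℕ)) : Bool :=
  @List.rec (ℕ × ℕ × ℕ) (fun _ => Bool) false (fun x _ ih =>
    @Bool.rec (fun _ => Bool) ih true (andB (andB (Nat.beq x.1 c.1) (Nat.beq x.2.1 c.2.1))
      (Nat.beq x.2.2 c.2.2))) L

lemma memT_spec {c : ℕ × ℕ × ℕ} {L : List (ℕ × ℕ × ℕ)} (h : memT c L = true) : c ∈ L := by
  induction L with
  | nil => exact absurd h (by simp [memT])
  | cons x L ih =>
    have h' : @Bool.rec (fun _ => Bool) (memT c L) true (andB (andB (Nat.beq x.1 c.1)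
      (Nat.beq x.2.1 c.2.1)) (Nat.beq x.2.2 c.2.2)) = true := h
    cases hb : (andB (andB (Nat.beq x.1 c.1) (Nat.beq x.2.1 c.2.1)) (Nat.beq x.2.2 c.2.2)) with
    | false => rw [hb] at h'; simp [ih h']
    | true =>
      obtain ⟨h1, h2⟩ := andB_spec hb
      obtain ⟨h3, h4⟩ := andB_spec h1
      have e1 := Nat.eq_of_beq_eq_true h2
      have e2 := Nat.eq_of_beq_eq_true h3
      have e3 := Nat.eq_of_beq_eq_true h4
      have : c = x := Prod.ext e2.symm (Prod.ext e3.symm e1.symm)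
      simp [this]

/-- all classes modulo 8 are in the list up to sign -/
def ckD8 : Bool :=
  allR (fun a => allR (fun b => allR (fun t =>
    impB (andB (Nat.beq (Nat.mod a (nat_lit 4)) (nat_lit 2)) (andB (Nat.beq (Nat.mod b (nat_lit 2))
      (nat_lit 1)) (Nat.beq (Nat.mod t (nat_lit 2)) (nat_lit 0))))
      (@Bool.rec (fun _ => Bool) (memT (Nat.mod (Nat.sub (nat_lit 8) a) (nat_lit 8),
        Nat.mod (Nat.sub (nat_lit 8) b) (nat_lit 8), t) D8) true (memT (a, b, t) D8)))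
      (nat_lit 8)) (nat_lit 8)) (nat_lit 8)

lemma ckD8_true : ckD8 = true := by decide +kernel

lemma mem_D8 {Q : ℕ} {a b t : ℤ} (S : SysE Q a b t) :
    cl 8 a b t ∈ D8 ∨ cl 8 (-a) (-b) t ∈ D8 := by
  have h := allR_spec (allR_spec (allR_spec ckD8_true (rs 8 a) (rs_lt a)) (rs 8 b) (rs_lt b))
    (rs 8 t) (rs_lt t)
  have i8 : ∀ x : ℤ, ((rs 8 x : ℕ) : ℤ) = x % 8 := fun x => ZMod.val_intCast x
  have ha : rs 8 a % 4 = 2 := by
    have := i8 a
    have := S.oa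
    omega
  have hb : rs 8 b % 2 = 1 := by
    have := i8 b
    have := S.ob
    omega
  have ht : rs 8 t % 2 = 0 := by
    have := i8 t
    have := S.ot
    omega
  have ho : andB (Nat.beq (Nat.mod (rs 8 a) (nat_lit 4)) (nat_lit 2))
      (andB (Nat.beq (Nat.mod (rs 8 b) (nat_lit 2)) (nat_lit 1))
        (Nat.beq (Nat.mod (rs 8 t) (nat_lit 2)) (nat_lit 0))) = true := by
    change andB (Nat.beq (rs 8 a % 4) 2) (andB (Nat.beq (rs 8 b % 2) 1)
      (Nat.beq (rs 8 t % 2) 0)) = true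
    rw [ha, hb, ht]
    rfl
  have h := impB_spec h ho
  rw [rs_opp, rs_opp] at h
  cases hb : memT (rs 8 a, rs 8 b, rs 8 t) D8 with
  | false => rw [hb] at h; exact Or.inr (memT_spec h)
  | true => exact Or.inl (memT_spec hb)

lemma stB_all : ∀ x ∈ D8, stB x = true :=
  List.forall_mem_cons.2 ⟨stB_0,
  List.forall_mem_cons.2 ⟨stB_1,
  List.forall_mem_cons.2 ⟨stB_2,
  List.forall_mem_cons.2 ⟨stB_3,
  List.forall_mem_cons.2 ⟨stB_4,
  List.forall_mem_cons.2 ⟨stB_5,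
  List.forall_mem_cons.2 ⟨stB_6,
  List.forall_mem_cons.2 ⟨stB_7,
  List.forall_mem_cons.2 ⟨stB_8,
  List.forall_mem_cons.2 ⟨stB_9,
  List.forall_mem_cons.2 ⟨stB_10,
  List.forall_mem_cons.2 ⟨stB_11,
  List.forall_mem_cons.2 ⟨stB_12,
  List.forall_mem_cons.2 ⟨stB_13,
  List.forall_mem_cons.2 ⟨stB_14,
  List.forall_mem_cons.2 ⟨stB_15,
  (List.forall_mem_nil _)⟩⟩⟩⟩⟩⟩⟩⟩⟩⟩⟩⟩⟩⟩⟩⟩

/-- stage A -/
lemma stageA {Q : ℕ} {a b t : ℤ} (S : SysE Q a b t) (hQ : 38 ∣ Q) (h8 : cl 8 a b t ∈ D8) :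
    c152 a b t ∈ S152 := by
  have ha : rs 19 a < 19 := rs_lt a
  have hb : rs 19 b < 0 + 19 := by rw [zero_add]; exact rs_lt b
  have key : ∀ x : ℕ, stA x 0 19 = true → rs 19 a = x → c152 a b t ∈ S152 := by
    intro x hx e
    rw [← e] at hx
    exact stA_spec S hQ h8 hx (Nat.zero_le _) hb
  generalize e : rs 19 a = x at ha
  interval_cases x
  · exact key 0 stA_0 e
  · exact key 1 stA_1 e
  · exact key 2 stA_2 e
  · exact key 3 stA_3 e
  · exact key 4 stA_4 e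
  · exact key 5 stA_5 e
  · exact key 6 stA_6 e
  · exact key 7 stA_7 e
  · exact key 8 stA_8 e
  · exact key 9 stA_9 e
  · exact key 10 stA_10 e
  · exact key 11 stA_11 e
  · exact key 12 stA_12 e
  · exact key 13 stA_13 e
  · exact key 14 stA_14 e
  · exact key 15 stA_15 e
  · exact key 16 stA_16 e
  · exact key 17 stA_17 e
  · exact key 18 stA_18 e

/-- stage B -/
lemma stageB {Q : ℕ} {a b t : ℤ} (S : SysE Q a b t) (hQ : 190 ∣ Q) (h8 : cl 8 a b t ∈ D8) :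
    c760 a b t ∈ S760 :=
  stB_spec S hQ (stageA S (Dvd.dvd.trans (by norm_num) hQ) h8) (stB_all _ h8)

/-- stage C -/
lemma stageC {Q : ℕ} {a b t : ℤ} (S : SysE Q a b t) (hQ : 2470 ∣ Q)
    (hc : c760 a b t ∈ S760) : c9880 a b t ∈ S9880 := by
  have ha : rs 13 a < 13 := rs_lt a
  rcases Nat.lt_or_ge (rs 13 a) 1 with h0 | h0
  · exact stC_spec (lo := 0) (n := 1) S hQ hc stC_0 (by omega) (by omega)
  rcases Nat.lt_or_ge (rs 13 a) 2 with h1 | h1
  · exact stC_spec (lo := 1) (n := 1) S hQ hc stC_1 (by omega) (by omega)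
  rcases Nat.lt_or_ge (rs 13 a) 3 with h2 | h2
  · exact stC_spec (lo := 2) (n := 1) S hQ hc stC_2 (by omega) (by omega)
  rcases Nat.lt_or_ge (rs 13 a) 4 with h3 | h3
  · exact stC_spec (lo := 3) (n := 1) S hQ hc stC_3 (by omega) (by omega)
  rcases Nat.lt_or_ge (rs 13 a) 5 with h4 | h4
  · exact stC_spec (lo := 4) (n := 1) S hQ hc stC_4 (by omega) (by omega)
  rcases Nat.lt_or_ge (rs 13 a) 6 with h5 | h5
  · exact stC_spec (lo := 5) (n := 1) S hQ hc stC_5 (by omega) (by omega)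
  rcases Nat.lt_or_ge (rs 13 a) 7 with h6 | h6
  · exact stC_spec (lo := 6) (n := 1) S hQ hc stC_6 (by omega) (by omega)
  rcases Nat.lt_or_ge (rs 13 a) 8 with h7 | h7
  · exact stC_spec (lo := 7) (n := 1) S hQ hc stC_7 (by omega) (by omega)
  rcases Nat.lt_or_ge (rs 13 a) 9 with h8 | h8
  · exact stC_spec (lo := 8) (n := 1) S hQ hc stC_8 (by omega) (by omega)
  rcases Nat.lt_or_ge (rs 13 a) 10 with h9 | h9
  · exact stC_spec (lo := 9) (n := 1) S hQ hc stC_9 (by omega) (by omega)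
  rcases Nat.lt_or_ge (rs 13 a) 11 with h10 | h10
  · exact stC_spec (lo := 10) (n := 1) S hQ hc stC_10 (by omega) (by omega)
  rcases Nat.lt_or_ge (rs 13 a) 12 with h11 | h11
  · exact stC_spec (lo := 11) (n := 1) S hQ hc stC_11 (by omega) (by omega)
  exact stC_spec (lo := 12) (n := 1) S hQ hc stC_12 (by omega) (by omega)

/-- stage D -/
lemma stageD {Q : ℕ} {a b t : ℤ} (S : SysE Q a b t) (hQ : 17290 ∣ Q)
    (hc : c9880 a b t ∈ S9880) : okD (c69160 a b t) = true := by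
  have ha : rs 7 a < 7 := rs_lt a
  rcases Nat.lt_or_ge (rs 7 a) 1 with h0 | h0
  · exact stD_spec (lo := 0) (n := 1) S hQ hc stD_0 (by omega) (by omega)
  rcases Nat.lt_or_ge (rs 7 a) 2 with h1 | h1
  · exact stD_spec (lo := 1) (n := 1) S hQ hc stD_1 (by omega) (by omega)
  rcases Nat.lt_or_ge (rs 7 a) 3 with h2 | h2
  · exact stD_spec (lo := 2) (n := 1) S hQ hc stD_2 (by omega) (by omega)
  rcases Nat.lt_or_ge (rs 7 a) 4 with h3 | h3
  · exact stD_spec (lo := 3) (n := 1) S hQ hc stD_3 (by omega) (by omega)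
  rcases Nat.lt_or_ge (rs 7 a) 5 with h4 | h4
  · exact stD_spec (lo := 4) (n := 1) S hQ hc stD_4 (by omega) (by omega)
  rcases Nat.lt_or_ge (rs 7 a) 6 with h5 | h5
  · exact stD_spec (lo := 5) (n := 1) S hQ hc stD_5 (by omega) (by omega)
  exact stD_spec (lo := 6) (n := 1) S hQ hc stD_6 (by omega) (by omega)

/-- the ghost classes -/
def Gh (a b : ℤ) : Prop :=
  (a % 8 = 2 ∧ b % 8 = 7) ∧ (a % 19 = 2 ∧ b % 19 = 18) ∧ (a % 5 = 2 ∧ b % 5 = 4) ∧
  (a % 13 = 2 ∧ b % 13 = 12) ∧ (a % 7 = 2 ∧ b % 7 = 6)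

lemma gh_comp {p : ℕ} [NeZero p] {a b : ℤ} {x y : ℕ}
    (h : andB (Nat.beq (rs p a) x) (Nat.beq (rs p b) y) = true) :
    a % (p : ℤ) = x ∧ b % (p : ℤ) = y := by
  obtain ⟨h1, h2⟩ := andB_spec h
  have e1 := Nat.eq_of_beq_eq_true h1
  have e2 := Nat.eq_of_beq_eq_true h2
  have i1 : ((rs p a : ℕ) : ℤ) = a % p := ZMod.val_intCast a
  have i2 : ((rs p b : ℕ) : ℤ) = b % p := ZMod.val_intCast b
  rw [← i1, ← i2, e1, e2]
  exact ⟨rfl, rfl⟩

lemma ghB_spec {a b t : ℤ} (h : ghB (c69160 a b t) = true) : Gh a b := by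
  unfold ghB at h
  rw [cls_eq (c69160_8 a b t)] at h
  obtain ⟨h8, h⟩ := andB_spec h
  rw [cls_eq (c69160_19 a b t)] at h
  obtain ⟨h19, h⟩ := andB_spec h
  rw [cls_eq (c69160_5 a b t)] at h
  obtain ⟨h5, h⟩ := andB_spec h
  rw [cls_eq (c69160_13 a b t)] at h
  obtain ⟨h13, h⟩ := andB_spec h
  rw [cls_eq (c69160_7 a b t)] at h
  obtain ⟨h7, -⟩ := andB_spec h
  exact ⟨gh_comp h8, gh_comp h19, gh_comp h5, gh_comp h13, gh_comp h7⟩

/-- classes modulo 69160 -/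
lemma to69160 {Q : ℕ} {a b t : ℤ} (S : SysE Q a b t) (hQ : 17290 ∣ Q) (h8 : cl 8 a b t ∈ D8) :
    Gh a b := by
  have h := stageD S hQ (stageC S (Dvd.dvd.trans (by norm_num) hQ)
    (stageB S (Dvd.dvd.trans (by norm_num) hQ) h8))
  unfold okD at h
  cases hg : ghB (c69160 a b t) with
  | true => exact ghB_spec hg
  | false =>
    rw [hg] at h
    exact absurd (flt_spec S hQ (memB_spec h) fltD) id

/-- the solutions of the system -/
theorem ghost_sys {Q : ℕ} {a b t : ℤ} (S : SysE Q a b t) (hQ : 17290 ∣ Q) :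
    Gh a b ∨ Gh (-a) (-b) := by
  rcases mem_D8 S with h | h
  · exact Or.inl (to69160 S hQ h)
  · exact Or.inr (to69160 S.neg hQ h)

lemma prime_dvd_list {p : ℕ} (hp : p.Prime) {L : List ℕ} (hL : ∀ q ∈ L, q.Prime)
    (h : p ∣ L.prod) : p ∈ L := by
  obtain ⟨q, hq, h1⟩ := (Nat.Prime.prime hp).dvd_prod_iff.1 h
  rw [(Nat.prime_dvd_prime_iff_eq hp (hL q hq)).1 h1]
  exact hq

/-- the family with `r = 7` -/
lemma no_7 {t : ℤ} (S : SysE 190 (6 : ℕ) ((6 : ℕ) * t - (1 : ℕ)) t) : False := by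
  rcases mem_D8 S with h | h
  · have h1 := fam760_specF f760_7 (stageB S dvd_rfl h)
    exact absurd h1 (by simp)
  · have h1 := fam760_specN f760_7 (stageB S.neg dvd_rfl h)
    exact absurd h1 (by simp)

/-- the families with `r = 19` -/
lemma no_19a {t : ℤ} (S : SysE 910 (6 : ℕ) ((6 : ℕ) * t - (3 : ℕ)) t) : False :=
  famA_spec S dvd_rfl fA_6
lemma no_19b {t : ℤ} (S : SysE 910 (18 : ℕ) ((18 : ℕ) * t - (1 : ℕ)) t) : False :=
  famA_spec S dvd_rfl fA_18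

section Main

variable {a b B : ℕ} {m r : ℤ}
  [IsDomain (QuadraticAlgebra ℤ m (B : ℤ))] [UniqueFactorizationMonoid (QuadraticAlgebra ℤ m (B : ℤ))]

/-- the system for a list of primes -/
lemma sys_list (h : E4.Par a b B m r) (hm2 : m % 2 = 1) (hB2 : B % 2 = 1) (ha2 : a % 4 = 2)
    (hm : 19 < m) (L : List ℕ) (hL : ∀ q ∈ L, q.Prime) (hL' : ∀ q ∈ L, q ≤ 19)
    (hr : ∀ q ∈ L, q ≠ 2 → (q : ℤ) ≠ r) {Q : ℕ} (hQ : Q = L.prod) :
    ∃ t : ℤ, zB a b t = B ∧ zm a b t = m ∧ zr a b t = r ∧ SysE Q a b t := by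
  subst hQ
  refine sys_of h hm2 hB2 ha2 ?_
  intro p hp hp2 hd
  have h1 := prime_dvd_list hp hL hd
  have h2 := hL' p h1
  exact ⟨by omega, hr p h1 hp2⟩

/-- **elimination for period four, first partial quotient two modulo four** -/
theorem elim4e (h : E4.Par a b B m r) (hm2 : m % 2 = 1) (hB2 : B % 2 = 1) (ha2 : a % 4 = 2)
    (ha3 : 6 ≤ a) (hm : 19 < m) :
    (∀ q ∈ ({5, 7, 13, 19} : Finset ℕ), (q : ℤ) ≠ r) ∧ (Gh a b ∨ Gh (-a) (-b)) := by
  have e1 := h.e1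
  have hr := h.hr
  -- `a` divides `r - 1`
  have hdiv : (a : ℤ) ∣ r - 1 := ⟨B - m * a, by rw [e1]; ring⟩
  have fam : ∀ t : ℤ, ∀ a0 s : ℕ, a = a0 → zr a b t = r → r = 1 + a0 * s → 
      (b : ℤ) = (a0 : ℤ) * t - s := by
    intro t a0 s h1 h2 h3
    subst h1
    have h4 : (a : ℤ) * (a * t - b) = a * s := by
      rw [← h2] at h3
      unfold zr at h3
      linear_combination h3
    have h5 := mul_left_cancel₀ (by positivity : (a : ℤ) ≠ 0) h4
    linarith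
  have r4 : r % 4 = 3 := by
    obtain ⟨t, hB, hm', hz⟩ := exists_t h
    obtain ⟨hb1, -⟩ := parity (r := r) (by omega) hm2 hB2 hB hm'
    rw [← hz]
    unfold zr
    obtain ⟨i, hi⟩ : ∃ i : ℤ, (a : ℤ) = 4 * i + 2 := ⟨(a : ℤ) / 4, by omega⟩
    obtain ⟨j, hj⟩ : ∃ j : ℤ, (b : ℤ) = 2 * j + 1 := ⟨(b : ℤ) / 2, by omega⟩
    have e : 1 - (a : ℤ) * b + a * a * t
        = 4 * (-(2 * i * j) - i - j - 1 + (2 * i + 1) * (2 * i + 1) * t) + 3 := by
      rw [hi, hj]; ring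
    omega
  by_cases r7 : r = 7
  · exfalso
    rw [r7] at hdiv
    have h1 := Int.le_of_dvd (by omega) hdiv
    have h2 : a = 6 := by omega
    obtain ⟨t, -, -, hz, S⟩ := sys_list h hm2 hB2 ha2 hm [2, 5, 19] (by decide) (by decide)
      (by rw [r7]; decide) (Q := 190) (by norm_num)
    have hb := fam t 6 1 h2 hz (by rw [r7]; norm_num)
    rw [hb, h2] at S
    exact no_7 S
  by_cases r19 : r = 19
  · exfalso
    rw [r19] at hdiv
    have h1 := Int.le_of_dvd (by omega) hdiv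
    have h2 : a = 6 ∨ a = 10 ∨ a = 14 ∨ a = 18 := by omega
    rcases h2 with h2 | h2 | h2 | h2
    · obtain ⟨t, -, -, hz, S⟩ := sys_list h hm2 hB2 ha2 hm [2, 5, 7, 13] (by decide)
        (by decide) (by rw [r19]; decide) (Q := 910) (by norm_num)
      have hb := fam t 6 3 h2 hz (by rw [r19]; norm_num)
      rw [hb, h2] at S
      exact no_19a S
    · rw [h2] at hdiv; norm_num at hdiv
    · rw [h2] at hdiv; norm_num at hdiv
    · obtain ⟨t, -, -, hz, S⟩ := sys_list h hm2 hB2 ha2 hm [2, 5, 7, 13] (by decide)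
        (by decide) (by rw [r19]; decide) (Q := 910) (by norm_num)
      have hb := fam t 18 1 h2 hz (by rw [r19]; norm_num)
      rw [hb, h2] at S
      exact no_19b S
  refine ⟨?_, ?_⟩
  · intro q hq
    simp only [Finset.mem_insert, Finset.mem_singleton] at hq
    rcases hq with rfl | rfl | rfl | rfl <;> push_cast <;> omega
  · obtain ⟨t, -, -, -, S⟩ := sys_list h hm2 hB2 ha2 hm [2, 5, 7, 13, 19] (by decide)
      (by decide) (by
        intro q hq _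
        simp only [List.mem_cons, List.not_mem_nil, or_false] at hq
        rcases hq with rfl | rfl | rfl | rfl | rfl <;> push_cast <;> omega)
      (Q := 17290) (by norm_num)
    exact ghost_sys S dvd_rfl

end Main

end Pool.Agent.P4E


end

section

/-!
The linear relation of a family near the ghost.
-/

namespace Pool.Agent.P4G

open Finset (range)
open Pool.Agent.LibH4 Pool.Agent.LibH4.FA Pool.Agent.Lib_helper5

/-- the function of a family over the integers -/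
def PP (e : ℕ) (ψ : ℤ → ℤ) (u : ℤ) : ℤ := ψ u * u ^ e

variable {l q0 n e : ℕ} {ψ : ℤ → ℤ}

lemma PP_cast (u : ℤ) : ((PP e ψ u : ℤ) : ZMod (l ^ (n + 1))) = FN l n e ψ u := by
  unfold PP FN
  push_cast
  rfl

/-- the half sum of the product vanishes -/
lemma HH_zero (h : Fam l q0 n e ψ) (d : ℕ) {f : ℤ → ℤ}
    (hf : ∀ x, ((f x : ℤ) : ZMod (l ^ (n + 1))) = FN l n e ψ x) :
    ((RDF.HH (QN l q0 n) d (fun x => f (4 * x)) : ℤ) : ZMod (l ^ (n + 1))) = 0 := by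
  have h0 : ∑ r ∈ range ((QN l q0 n + 1) / 2), FN l n e ψ r = 0 := by
    have h1 : ((Hs l q0 ψ (n + 1) e : ℤ) : ZMod (l ^ (n + 1))) = 0 := by
      rw [ZMod.intCast_zmod_eq_zero_iff_dvd]
      push_cast
      exact h.zero
    rw [← h1]
    unfold Hs QN FN
    push_cast
    rfl
  unfold RDF.HH
  push_cast
  have e1 : ∀ r ∈ range ((QN l q0 n + 1) / 2), ∑ s ∈ range ((QN l q0 n * d + 1) / 2),
      ((f (4 * ((r : ℤ) * s)) : ℤ) : ZMod (l ^ (n + 1))) *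
        ((jacobiSym s d : ℤ) : ZMod (l ^ (n + 1)))
      = FN l n e ψ r * ∑ s ∈ range ((QN l q0 n * d + 1) / 2),
        FN l n e ψ 4 * FN l n e ψ s * ((jacobiSym s d : ℤ) : ZMod (l ^ (n + 1))) := by
    intro r _
    rw [Finset.mul_sum]
    apply Finset.sum_congr rfl
    intro s _
    rw [hf, h.FN_mul, h.FN_mul]
    ring
  rw [Finset.sum_congr rfl e1, ← Finset.sum_mul, h0, zero_mul]

/-- **the linear relation** -/
theorem line (h : Fam l q0 n e ψ) {a b B : ℕ} {m r : ℤ} (hP : E4.Par a b B m r)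
    (hm2 : m % 2 = 1) (hB2 : B % 2 = 1)
    [IsDomain (QuadraticAlgebra ℤ m (B : ℤ))]
    [UniqueFactorizationMonoid (QuadraticAlgebra ℤ m (B : ℤ))]
    {d : ℕ} (hd : (d : ℤ) = (B : ℤ) ^ 2 + 4 * m) (h8 : d % 8 = 5)
    (hcop : Nat.Coprime (QN l q0 n) d)
    {s : ℤ} (hs : s = 1 ∨ s = -1) {α' β' γ' : ℤ}
    (hα : s * a - 2 = QN l q0 n * α') (hβ : s * b + 1 = QN l q0 n * β')
    (hγ : s * B + 1 = QN l q0 n * γ')
    (hm : IsUnit ((m : ℤ) : ZMod (QN l q0 n)))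
    (hD : IsUnit ((1 + 4 * m : ℤ) : ZMod (QN l q0 n))) :
    (l : ℤ) ∣ (2 * α' * PP e ψ (-(1 + 4 * m)) + γ' * (PP e ψ m * PP e ψ (-(1 + 4 * m)))
      + β' * PP e ψ m) * CR l q0 e ψ (1 + 4 * m) := by
  have hne := h.ne
  obtain ⟨f, hper, hodd, hf⟩ := exists_lift h.Modd (FN l n e ψ) h.FN_per h.FN_neg
  have key := ghost_identity hP hm2 hB2 hd h8 h.Qodd hcop hs hα hβ hγ f hper hodd
  have key2 := congrArg (Int.cast : ℤ → ZMod (l ^ (n + 1))) key
  push_cast at key2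
  rw [HH_zero h d hf] at key2
  have g0 := G0_cast h hf m
  have g2 := G2_cast h hf m hD
  have gy := Gy_cast h hf m hm
  have gxy := Gxy_cast h hf m hm
  rw [h.FN_mul] at g2 gy gxy
  have hCC := CC_eq h (1 + 4 * m)
  have fin : (((2 * α' * PP e ψ (-(1 + 4 * m)) + γ' * (PP e ψ m * PP e ψ (-(1 + 4 * m)))
      + β' * PP e ψ m) * ((l : ℤ) ^ n * CR l q0 e ψ (1 + 4 * m)) : ℤ) : ZMod (l ^ (n + 1))) = 0 := by
    rw [Int.cast_mul, ← hCC]
    push_cast
    rw [PP_cast, PP_cast]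
    linear_combination (-(FN l n e ψ 4 * FN l n e ψ m * FN l n e ψ (-(1 + 4 * m)))) * key2
      + (α' : ZMod (l ^ (n + 1))) * FN l n e ψ (-(1 + 4 * m)) * gy
      + (α' : ZMod (l ^ (n + 1))) * FN l n e ψ (-(1 + 4 * m)) * gxy
      - (γ' : ZMod (l ^ (n + 1))) * FN l n e ψ m * FN l n e ψ (-(1 + 4 * m)) * g0
      - (β' : ZMod (l ^ (n + 1))) * FN l n e ψ m * g2
  rw [ZMod.intCast_zmod_eq_zero_iff_dvd] at fin
  push_cast at fin
  obtain ⟨t, ht⟩ := fin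
  have hl0 : (l : ℤ) ^ n ≠ 0 := pow_ne_zero _ (by exact_mod_cast h.hl.ne_zero)
  refine ⟨t, ?_⟩
  apply mul_left_cancel₀ hl0
  rw [show (l : ℤ) ^ n * (l * t) = (l : ℤ) ^ (n + 1) * t by ring, ← ht]
  ring

end Pool.Agent.P4G


end

section

/-!
No field of period four lies in the ghost classes.
-/

namespace Pool.Agent.P4G

open Finset (range)
open Pool.Agent.LibH4 Pool.Agent.LibH4.FA Pool.Agent.Lib_helper5


lemma nr5 : ∀ B m : ZMod 5, B ^ 2 = 1 → (∀ x, x ^ 2 + B * x - m ≠ 0) → (1 + 4 * m) ^ 2 = -1 := by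
  decide +kernel
lemma nr7 : ∀ B m : ZMod 7, B ^ 2 = 1 → (∀ x, x ^ 2 + B * x - m ≠ 0) → (1 + 4 * m) ^ 3 = -1 := by
  decide +kernel
lemma nr13 : ∀ B m : ZMod 13, B ^ 2 = 1 → (∀ x, x ^ 2 + B * x - m ≠ 0) →
    (1 + 4 * m) ^ 6 = -1 := by
  decide +kernel

/-- no root modulo a small prime -/
lemma no_root {a b B : ℕ} {m r : ℤ} (h : E4.Par a b B m r)
    [IsDomain (QuadraticAlgebra ℤ m (B : ℤ))]
    [UniqueFactorizationMonoid (QuadraticAlgebra ℤ m (B : ℤ))] {p : ℕ} (hp : p.Prime)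
    (h1 : (p : ℤ) < m) (hr : (p : ℤ) ≠ r) (x : ZMod p) :
    x ^ 2 + ((B : ℤ) : ZMod p) * x - ((m : ℤ) : ZMod p) ≠ 0 := by
  intro hx
  obtain ⟨y, rfl⟩ := ZMod.intCast_surjective x
  have h2 : (((y ^ 2 + B * y - m : ℤ)) : ZMod p) = 0 := by
    push_cast at hx ⊢
    exact hx
  rw [ZMod.intCast_zmod_eq_zero_iff_dvd] at h2
  exact hr (P4.eq_of_root h hp h1 y h2).symm

/-- the value of the first family -/
def v1 (x5 : ZMod 5) (x7 : ZMod 7) (x13 : ZMod 13) : ZMod 13 :=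
  (T5 x5 : ℤ) * c7 x7 * x13 ^ 7
/-- the value of the second family -/
def v2 (x5 : ZMod 5) (x7 : ZMod 7) (x13 : ZMod 13) : ZMod 13 :=
  (T5 x5 : ℤ) * s7 x7 * x13 ^ 8

lemma PP1_cast {w : ℤ} (hw : w % 13 = 3) {e : ℕ} (he : e % 12 = 7) (u : ℤ) :
    ((PP e (ψ1 w) u : ℤ) : ZMod 13) = v1 u u u := by
  unfold PP v1
  rw [Int.cast_mul, ψ1_mod hw]
  unfold ψ1 c7
  push_cast
  rw [pow_expo prime13 (m := e) (m0 := 7) (by norm_num; omega) (by omega) (by norm_num)]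

lemma PP2_cast {w : ℤ} (hw : w % 13 = 3) {e : ℕ} (he : e % 12 = 8) (u : ℤ) :
    ((PP e (ψ2 w) u : ℤ) : ZMod 13) = v2 u u u := by
  unfold PP v2
  rw [Int.cast_mul, ψ2_mod hw]
  unfold ψ2 s7
  push_cast
  rw [pow_expo prime13 (m := e) (m0 := 8) (by norm_num; omega) (by omega) (by norm_num)]

/-- the determinant of the two relations -/
def det (m5 : ZMod 5) (m7 : ZMod 7) (m13 : ZMod 13) : ZMod 13 :=
  (2 * v1 (-(1 + 4 * m5)) (-(1 + 4 * m7)) (-(1 + 4 * m13)) - (-1 - 2 * m13) *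
    (v1 m5 m7 m13 * v1 (-(1 + 4 * m5)) (-(1 + 4 * m7)) (-(1 + 4 * m13)))) *
  ((1 + 2 * (-1 - 2 * m13)) * (v2 m5 m7 m13 * v2 (-(1 + 4 * m5)) (-(1 + 4 * m7)) (-(1 + 4 * m13)))
    + v2 m5 m7 m13) -
  (2 * v2 (-(1 + 4 * m5)) (-(1 + 4 * m7)) (-(1 + 4 * m13)) - (-1 - 2 * m13) *
    (v2 m5 m7 m13 * v2 (-(1 + 4 * m5)) (-(1 + 4 * m7)) (-(1 + 4 * m13)))) *
  ((1 + 2 * (-1 - 2 * m13)) * (v1 m5 m7 m13 * v1 (-(1 + 4 * m5)) (-(1 + 4 * m7)) (-(1 + 4 * m13)))
    + v1 m5 m7 m13)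

lemma det_ne : ∀ (m5 : ZMod 5) (m7 : ZMod 7) (m13 : ZMod 13), (1 + 4 * m5) ^ 2 = -1 →
    (1 + 4 * m7) ^ 3 = -1 → (1 + 4 * m13) ^ 6 = -1 → det m5 m7 m13 ≠ 0 := by
  decide +kernel

/-- the exact power of thirteen -/
lemma exists_level {α β : ℤ} (h0 : α ≠ 0) (hα : (13 : ℤ) ∣ α) (hβ : (13 : ℤ) ∣ β) :
    ∃ n : ℕ, (13 : ℤ) ^ (n + 1) ∣ α ∧ (13 : ℤ) ^ (n + 1) ∣ β ∧
      ¬ ((13 : ℤ) ^ (n + 2) ∣ α ∧ (13 : ℤ) ^ (n + 2) ∣ β) := by
  classical
  have hex : ∃ n : ℕ, ¬ ((13 : ℤ) ^ (n + 2) ∣ α ∧ (13 : ℤ) ^ (n + 2) ∣ β) := by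
    refine ⟨α.natAbs, fun h => ?_⟩
    have h1 := Int.natAbs_dvd_natAbs.2 h.1
    rw [Int.natAbs_pow] at h1
    have h2 := Nat.le_of_dvd (Int.natAbs_pos.2 h0) h1
    have h3 : α.natAbs + 2 < (13 : ℤ).natAbs ^ (α.natAbs + 2) :=
      Nat.lt_pow_self (by norm_num)
    omega
  obtain ⟨N, hN, hmin⟩ : ∃ N : ℕ, ¬ ((13 : ℤ) ^ (N + 2) ∣ α ∧ (13 : ℤ) ^ (N + 2) ∣ β) ∧
      ∀ k < N, ¬ ¬ ((13 : ℤ) ^ (k + 2) ∣ α ∧ (13 : ℤ) ^ (k + 2) ∣ β) :=
    ⟨Nat.find hex, Nat.find_spec hex, fun k hk => Nat.find_min hex hk⟩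
  rcases Nat.eq_zero_or_pos N with hz | hz
  · subst hz
    exact ⟨0, by simpa using hα, by simpa using hβ, hN⟩
  · obtain ⟨k, rfl⟩ : ∃ k, N = k + 1 := ⟨N - 1, by omega⟩
    have := not_not.1 (hmin k (by omega))
    exact ⟨k + 1, this.1, this.2, hN⟩

/-- the ring has no unique factorisation near the ghost -/
theorem no_ghost_aux {a b B : ℕ} {m r : ℤ} (h : E4.Par a b B m r) (hm2 : m % 2 = 1)
    (hB2 : B % 2 = 1) [IsDomain (QuadraticAlgebra ℤ m (B : ℤ))]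
    [UniqueFactorizationMonoid (QuadraticAlgebra ℤ m (B : ℤ))] (ha3 : 6 ≤ a) (hm : 19 < m)
    (hr5 : ((5 : ℕ) : ℤ) ≠ r) (hr7 : ((7 : ℕ) : ℤ) ≠ r) (hr13 : ((13 : ℕ) : ℤ) ≠ r)
    {s : ℤ} (hs : s = 1 ∨ s = -1) (hα : (455 : ℤ) ∣ s * a - 2) (hβ : (455 : ℤ) ∣ s * b + 1) :
    False := by
  have hss : s * s = 1 := by rcases hs with rfl | rfl <;> norm_num
  have e1 := h.e1
  have e2 := h.e2
  obtain ⟨α, hαd⟩ : ∃ α : ℤ, α = s * a - 2 := ⟨_, rfl⟩
  obtain ⟨β, hβd⟩ : ∃ β : ℤ, β = s * b + 1 := ⟨_, rfl⟩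
  have hα0 : α ≠ 0 := by
    rcases hs with rfl | rfl
    · rw [hαd]; omega
    · rw [hαd]; omega
  rw [← hαd] at hα
  rw [← hβd] at hβ
  have d13 : (13 : ℤ) ∣ 455 := ⟨35, by norm_num⟩
  have d35 : (35 : ℤ) ∣ 455 := ⟨13, by norm_num⟩
  obtain ⟨n, hn1, hn2, hn3⟩ := exists_level hα0 (d13.trans hα) (d13.trans hβ)
  have hcop35 : IsCoprime (35 : ℤ) (13 ^ (n + 1)) := by
    apply IsCoprime.pow_right
    exact ⟨3, -8, by norm_num⟩
  have hQ : ((QN 13 35 n : ℕ) : ℤ) = 35 * 13 ^ (n + 1) := by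
    unfold QN; push_cast; rfl
  obtain ⟨α', hα'⟩ : ((QN 13 35 n : ℕ) : ℤ) ∣ α := by
    rw [hQ]; exact hcop35.mul_dvd (d35.trans hα) hn1
  obtain ⟨β', hβ'⟩ : ((QN 13 35 n : ℕ) : ℤ) ∣ β := by
    rw [hQ]; exact hcop35.mul_dvd (d35.trans hβ) hn2
  obtain ⟨S, hS⟩ : ∃ S : ℤ, S = s * (B - m * a) := ⟨_, rfl⟩
  have hγ : s * B + 1 = β + S * (-α + 2 * β + α * β) := by
    rw [hS, hαd, hβd]
    linear_combination (-s) * e2 + s * b * e1 - s * (B - m * a) * a * b * hss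
  obtain ⟨γ', hγ'⟩ : ∃ γ' : ℤ, γ' = β' + S * (-α' + 2 * β' + α' * β) := ⟨_, rfl⟩
  have hγQ : s * B + 1 = (QN 13 35 n : ℕ) * γ' := by
    rw [hγ, hγ', hα']
    linear_combination (1 + 2 * S) * hβ'
  have h455 : (455 : ℤ) ∣ ((QN 13 35 n : ℕ) : ℤ) := by
    rw [hQ, pow_succ]
    exact ⟨13 ^ n, by ring⟩
  have hB455 : (455 : ℤ) ∣ s * B + 1 := by
    rw [hγQ]
    exact Dvd.dvd.mul_right h455 _
  -- residues modulo `5`, `7`, `13`
  have hBp : ∀ p : ℕ, (p : ℤ) ∣ 455 → ((B : ℤ) : ZMod p) ^ 2 = 1 ∧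
      ((s : ℤ) : ZMod p) * ((B : ℤ) : ZMod p) = -1 ∧ ((s : ℤ) : ZMod p) * ((a : ℤ) : ZMod p) = 2 := by
    intro p hp
    have h1 : (((s * B + 1 : ℤ)) : ZMod p) = 0 :=
      (ZMod.intCast_zmod_eq_zero_iff_dvd _ p).2 (hp.trans hB455)
    have h2 : (((s * s : ℤ)) : ZMod p) = 1 := by rw [hss]; norm_num
    have h3 : (((α : ℤ)) : ZMod p) = 0 :=
      (ZMod.intCast_zmod_eq_zero_iff_dvd _ p).2 (hp.trans hα)
    rw [hαd] at h3
    push_cast at h1 h2 h3 ⊢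
    refine ⟨?_, by linear_combination h1, by linear_combination h3⟩
    linear_combination (s * (B : ZMod p) - 1) * h1 - (B : ZMod p) ^ 2 * h2
  have p5 : Nat.Prime 5 := by norm_num
  have p7 : Nat.Prime 7 := by norm_num
  have b5 := hBp 5 ⟨91, by norm_num⟩
  have b7 := hBp 7 ⟨65, by norm_num⟩
  have b13 := hBp 13 ⟨35, by norm_num⟩
  have h5 := nr5 _ _ b5.1 (no_root h p5 (by push_cast; linarith) hr5)
  have h7 := nr7 _ _ b7.1 (no_root h p7 (by push_cast; linarith) hr7)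
  have h13 := nr13 _ _ b13.1 (no_root h prime13 (by push_cast; linarith) hr13)
  obtain ⟨M, hM⟩ := Int.eq_ofNat_of_zero_le (by linarith : 0 ≤ m)
  -- coprimality
  have cop : ∀ N : ℕ, ((N : ℕ) : ZMod 5) ≠ 0 → ((N : ℕ) : ZMod 7) ≠ 0 → ((N : ℕ) : ZMod 13) ≠ 0 →
      Nat.Coprime (QN 13 35 n) N := by
    intro N n5 n7 n13
    unfold QN
    rw [show (35 : ℕ) = 5 * 7 by norm_num]
    refine Nat.Coprime.mul_left (Nat.Coprime.mul_left ?_ ?_) (Nat.Coprime.pow_left _ ?_)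
    · rw [p5.coprime_iff_not_dvd]
      intro hd
      exact n5 ((ZMod.natCast_eq_zero_iff N 5).2 hd)
    · rw [p7.coprime_iff_not_dvd]
      intro hd
      exact n7 ((ZMod.natCast_eq_zero_iff N 7).2 hd)
    · rw [prime13.coprime_iff_not_dvd]
      intro hd
      exact n13 ((ZMod.natCast_eq_zero_iff N 13).2 hd)
  have q5 : ∀ x : ZMod 5, (1 + 4 * x) ^ 2 = -1 → x ≠ 0 ∧ 1 + 4 * x ≠ 0 := by decide
  have q7 : ∀ x : ZMod 7, (1 + 4 * x) ^ 3 = -1 → x ≠ 0 ∧ 1 + 4 * x ≠ 0 := by decide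
  have q13 : ∀ x : ZMod 13, (1 + 4 * x) ^ 6 = -1 → x ≠ 0 ∧ 1 + 4 * x ≠ 0 := by decide +kernel
  obtain ⟨m5, D5⟩ := q5 _ h5
  obtain ⟨m7, D7⟩ := q7 _ h7
  obtain ⟨m13, D13⟩ := q13 _ h13
  have hmU : IsUnit ((m : ℤ) : ZMod (QN 13 35 n)) := by
    rw [hM, Int.cast_natCast, ZMod.isUnit_iff_coprime]
    rw [hM, Int.cast_natCast] at m5 m7 m13
    exact (cop M m5 m7 m13).symm
  have hDU : IsUnit ((1 + 4 * m : ℤ) : ZMod (QN 13 35 n)) := by
    have e : (1 + 4 * m : ℤ) = ((1 + 4 * M : ℕ) : ℤ) := by rw [hM]; push_cast; rfl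
    rw [e, Int.cast_natCast, ZMod.isUnit_iff_coprime]
    rw [hM, Int.cast_natCast] at D5 D7 D13
    exact (cop (1 + 4 * M) (by push_cast; exact D5) (by push_cast; exact D7)
      (by push_cast; exact D13)).symm
  obtain ⟨d, hd⟩ : ∃ d : ℕ, d = B ^ 2 + 4 * M := ⟨_, rfl⟩
  have hdZ : (d : ℤ) = (B : ℤ) ^ 2 + 4 * m := by rw [hd, hM]; push_cast; rfl
  have h8 : d % 8 = 5 := by
    obtain ⟨k, hk⟩ : ∃ k, B = 2 * k + 1 := ⟨B / 2, by omega⟩
    obtain ⟨j, hj⟩ : ∃ j, M = 2 * j + 1 := ⟨M / 2, by omega⟩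
    have h2 : 2 ∣ k * (k + 1) := (Nat.even_mul_succ_self k).two_dvd
    obtain ⟨i, hi⟩ := h2
    have : d = 8 * (i + j) + 5 := by rw [hd, hk, hj]; linear_combination 4 * hi
    omega
  have hcop : Nat.Coprime (QN 13 35 n) d := by
    have key : ∀ p : ℕ, ((B : ℤ) : ZMod p) ^ 2 = 1 → (1 + 4 * ((m : ℤ) : ZMod p)) ≠ 0 →
        ((d : ℕ) : ZMod p) ≠ 0 := by
      intro p h1 h2 h3
      apply h2
      have h4 : (((d : ℕ) : ℤ) : ZMod p) = 0 := by rw [Int.cast_natCast]; exact h3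
      rw [hdZ] at h4
      push_cast at h1 h4 ⊢
      linear_combination h4 - h1
    exact cop d (key 5 b5.1 D5) (key 7 b7.1 D7) (key 13 b13.1 D13)
  obtain ⟨w, hw, hwn⟩ := exists_w n
  obtain ⟨f1, hf1, F1⟩ := exists_fam1 n hw hwn
  obtain ⟨f2, hf2, F2⟩ := exists_fam2 n hw hwn
  have eα : s * a - 2 = (QN 13 35 n : ℕ) * α' := by rw [← hαd]; exact hα'
  have eβ : s * b + 1 = (QN 13 35 n : ℕ) * β' := by rw [← hβd]; exact hβ'
  have L1 := line F1 h hm2 hB2 hdZ h8 hcop hs eα eβ hγQ hmU hDU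
  have L2 := line F2 h hm2 hB2 hdZ h8 hcop hs eα eβ hγQ hmU hDU
  have P13 : Prime ((13 : ℕ) : ℤ) := Nat.prime_iff_prime_int.1 prime13
  have hD5 : (((1 + 4 * m : ℤ)) : ZMod 5) ^ 2 = -1 := by push_cast; exact h5
  have hD7 : (((1 + 4 * m : ℤ)) : ZMod 7) ^ 3 = -1 := by push_cast; exact h7
  have hD13 : (((1 + 4 * m : ℤ)) : ZMod 13) ^ 6 = -1 := by push_cast; exact h13
  have K1 := (P13.dvd_or_dvd L1).resolve_right (CR1_ne hw hf1 hD5 hD7 hD13)
  have K2 := (P13.dvd_or_dvd L2).resolve_right (CR2_ne hw hf2 hD5 hD7 hD13)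
  have K1' := (ZMod.intCast_zmod_eq_zero_iff_dvd _ 13).2 K1
  have K2' := (ZMod.intCast_zmod_eq_zero_iff_dvd _ 13).2 K2
  -- `γ'` modulo thirteen
  have hS13 : ((S : ℤ) : ZMod 13) = -1 - 2 * ((m : ℤ) : ZMod 13) := by
    rw [hS]
    have := b13.2
    push_cast at this ⊢
    linear_combination this.1 - (m : ZMod 13) * this.2
  have hβ13 : ((β : ℤ) : ZMod 13) = 0 :=
    (ZMod.intCast_zmod_eq_zero_iff_dvd _ 13).2 (by exact_mod_cast d13.trans hβ)
  have hγ13 : ((γ' : ℤ) : ZMod 13) = (β' : ZMod 13) + (-1 - 2 * ((m : ℤ) : ZMod 13)) *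
      (-(α' : ZMod 13) + 2 * (β' : ZMod 13)) := by
    rw [hγ', ← hS13]
    push_cast
    rw [hβ13]
    ring
  simp only [Int.cast_add, Int.cast_mul, PP1_cast hw hf1, PP2_cast hw hf2, hγ13] at K1' K2'
  have hdet := det_ne _ _ _ h5 h7 h13
  have hFact : Fact (Nat.Prime 13) := ⟨prime13⟩
  have ha : ((α' : ℤ) : ZMod 13) = 0 := by
    have : det ((m : ℤ) : ZMod 5) ((m : ℤ) : ZMod 7) ((m : ℤ) : ZMod 13) * ((α' : ℤ) : ZMod 13)
        = 0 := by
      unfold det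
      push_cast at K1' K2' ⊢
      linear_combination ((1 + 2 * (-1 - 2 * (m : ZMod 13))) * (v2 m m m *
        v2 (-(1 + 4 * m)) (-(1 + 4 * m)) (-(1 + 4 * m))) + v2 m m m) * K1' -
        ((1 + 2 * (-1 - 2 * (m : ZMod 13))) * (v1 m m m *
        v1 (-(1 + 4 * m)) (-(1 + 4 * m)) (-(1 + 4 * m))) + v1 m m m) * K2'
    exact (mul_eq_zero.1 this).resolve_left hdet
  have hb : ((β' : ℤ) : ZMod 13) = 0 := by
    have : det ((m : ℤ) : ZMod 5) ((m : ℤ) : ZMod 7) ((m : ℤ) : ZMod 13) * ((β' : ℤ) : ZMod 13)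
        = 0 := by
      unfold det
      push_cast at K1' K2' ⊢
      linear_combination (2 * v1 (-(1 + 4 * m)) (-(1 + 4 * m)) (-(1 + 4 * m)) -
        (-1 - 2 * (m : ZMod 13)) * (v1 m m m *
          v1 (-(1 + 4 * m)) (-(1 + 4 * m)) (-(1 + 4 * m)))) * K2' -
        (2 * v2 (-(1 + 4 * m)) (-(1 + 4 * m)) (-(1 + 4 * m)) -
        (-1 - 2 * (m : ZMod 13)) * (v2 m m m *
          v2 (-(1 + 4 * m)) (-(1 + 4 * m)) (-(1 + 4 * m)))) * K1'
    exact (mul_eq_zero.1 this).resolve_left hdet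
  obtain ⟨a1, ha1⟩ := (ZMod.intCast_zmod_eq_zero_iff_dvd α' 13).1 ha
  obtain ⟨b1, hb1⟩ := (ZMod.intCast_zmod_eq_zero_iff_dvd β' 13).1 hb
  apply hn3
  constructor
  · rw [hα', hQ, ha1]
    exact ⟨35 * a1, by push_cast; ring⟩
  · rw [hβ', hQ, hb1]
    exact ⟨35 * b1, by push_cast; ring⟩

/-- **no ghost** -/
theorem no_ghost {a b B : ℕ} {m r : ℤ} (h : E4.Par a b B m r) (hm2 : m % 2 = 1)
    (hB2 : B % 2 = 1) [IsDomain (QuadraticAlgebra ℤ m (B : ℤ))]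
    [UniqueFactorizationMonoid (QuadraticAlgebra ℤ m (B : ℤ))] (ha2 : a % 4 = 2) (ha3 : 6 ≤ a)
    (hm : 19 < m) : False := by
  obtain ⟨hr, hG⟩ := P4E.elim4e h hm2 hB2 ha2 ha3 hm
  have r5 := hr 5 (by decide)
  have r7 := hr 7 (by decide)
  have r13 := hr 13 (by decide)
  rcases hG with hG | hG
  · obtain ⟨-, -, ⟨g1, g2⟩, ⟨g3, g4⟩, g5, g6⟩ := hG
    exact no_ghost_aux h hm2 hB2 ha3 hm r5 r7 r13 (s := 1) (Or.inl rfl) (by omega) (by omega)
  · obtain ⟨-, -, ⟨g1, g2⟩, ⟨g3, g4⟩, g5, g6⟩ := hG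
    exact no_ghost_aux h hm2 hB2 ha3 hm r5 r7 r13 (s := -1) (Or.inr rfl) (by omega) (by omega)

end Pool.Agent.P4G


end
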