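import Mathlib
import Pool.Agent.RQM.C119
import Pool.Agent.RQM.C12
import Pool.Agent.RQM.C148
import Pool.Agent.RQM.C157
import Pool.Agent.RQM.C40
import Pool.Agent.RQM.C44

/-! Parts: Lib_helper5.K4.FnA, Lib_helper5.K4.KA0, Lib_helper5.K4.KA1, Lib_helper5.K4.KA2, Lib_helper5.K4.KA4, Lib_helper5.K4.KG0 -/

namespace Pool.Agent.LibH4
end Pool.Agent.LibH4
namespace Pool.Agent.LibH4.KF
end Pool.Agent.LibH4.KF
namespace Pool.Agent.LibH4.Ker
end Pool.Agent.LibH4.Ker
namespace Pool.Agent.LibH4.T6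
end Pool.Agent.LibH4.T6
namespace Pool.Agent.Lib_helper5.LK
end Pool.Agent.Lib_helper5.LK

section

/-!
Stage A: classes modulo 152.
-/

namespace Pool.Agent.Lib_helper5.K4

open Finset LK Pool.Agent.LibH4 Pool.Agent.LibH4.Ker Pool.Agent.LibH4.T6 Pool.Agent.LibH4.KF

/-- vectors of a class, inner component -/
def vB (p T w3 : ℕ) (L : List (ℕ × ℕ)) (c : ℕ × ℕ × ℕ) : ℕ :=
  withP4 p c.1 c.2.1 c.2.2 fun B m nm nr R _ =>
    vecB p T (nat_lit 1208925819614629174706176) w3 L (forms4 p B m nm nr R)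

lemma vB_eq {p : ℕ} [NeZero p] (hp : 1 < p) (T w3 : ℕ) (L : List (ℕ × ℕ)) (a b t : ℤ) :
    vB p T w3 L (cl p a b t) = VB p T w3 L (J4 a b t) := by
  unfold vB cl
  rw [withP4_eq, forms4_eq hp, vecB_use]

/-- the check, for the classes modulo 19 with given `a` and `b` in an interval -/
def stA (a b0 nb : ℕ) : Bool :=
  ggl (nat_lit 19) T1_a1 (nat_lit 960) ds19 fun Ga =>
  ggl (nat_lit 19) T1_a2 (nat_lit 960) ds19 fun Gb =>
  mapK (fun x => vB (nat_lit 8) T3_a2 (nat_lit 960) L8 x) D8 fun E2 =>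
  mapK (fun x => vB (nat_lit 8) T3_a1 (nat_lit 960) L8 x.1) E2 fun E1 =>
  allR (fun bb => strict (Nat.add bb b0) fun b => allR (fun t =>
   withP4 (nat_lit 19) a b t fun B _ nm nr R d =>
   @Bool.rec (fun _ => Bool) true (
    (fun FK : List ((ℕ × ℕ) × (ℕ × ℕ)) =>
     rowA (nat_lit 19) T1_a1 (nat_lit 960) Ga W_a1 Y1_a1 Y0_a1 (nat_lit 1) (nat_lit 19) d FK
       (nat_lit 0) fun A => strict A fun Aa =>
     rowA (nat_lit 19) T1_a2 (nat_lit 960) Gb W_a2 Y1_a2 Y0_a2 (nat_lit 1) (nat_lit 19) d FK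
       (nat_lit 0) fun A => strict A fun Ab =>
     strict (Nat.mul (nat_lit 512) (cdK (nat_lit 19) (a, b, t))) fun cn =>
     allL (fun x => cond0 (ip (nat_lit 6859) (nat_lit 2800) Aa x.2) (
        cond0 (ip (nat_lit 6859) (nat_lit 2800) Ab x.1.2) (
        strict (Nat.add (cdK (nat_lit 8) x.1.1) cn) fun c => memB c S152))) E1)
    (FK4 (nat_lit 19) (nat_lit 19) a b B B nm nr R))
   (Nat.beq (Nat.mod (Nat.pow d (nat_lit 9)) (nat_lit 19)) (nat_lit 18))) (nat_lit 19)) nb

theorem stA_spec {Q : ℕ} {a b t : ℤ} (S : Sys Q a b t) (hQ : 38 ∣ Q) (h8 : cl 8 a b t ∈ D8)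
    {b0 nb : ℕ} (h : stA (rs 19 a) b0 nb = true) (hb : b0 ≤ rs 19 b) (hb' : rs 19 b < b0 + nb) :
    c152 a b t ∈ S152 := by
  unfold stA at h
  simp only [ggl_eq, mapK_eq] at h
  have h := allR_spec h (rs 19 b - b0) (by omega)
  rw [strict_eq] at h
  have eb : Nat.add (rs 19 b - b0) b0 = rs 19 b := by
    change rs 19 b - b0 + b0 = _
    omega
  rw [eb] at h
  have h := allR_spec h (rs 19 t) (rs_lt t)
  rw [withP4_eq] at h
  have ii : Nat.beq (Nat.mod (Nat.pow (rs 19 (zd a b t)) (nat_lit 9)) (nat_lit 19)) (nat_lit 18)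
    = true := S.inr 19 (by norm_num) (by norm_num) (Dvd.dvd.trans (by norm_num) hQ)
  rw [ii] at h
  rw [FK4_eq] at h
  obtain ⟨h, Ca⟩ := rowA_use (by norm_num) (by norm_num) h
  obtain ⟨h, Cb⟩ := rowA_use (by norm_num) (by norm_num) h
  rw [strict_eq] at h
  have h := allL_spec h _ (List.mem_map_of_mem (List.mem_map_of_mem h8))
  have ga := zB_a1 S hQ Ca
  rw [← vB_eq (by norm_num)] at ga
  have h := cond0_zero ga h
  have gb := zB_a2 S hQ Cb
  rw [← vB_eq (by norm_num)] at gb
  have h := cond0_zero gb h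
  rw [strict_eq] at h
  exact memB_spec h

end Pool.Agent.Lib_helper5.K4


end

section

/-! generated: kernel checks -/

namespace Pool.Agent.Lib_helper5.K4

lemma stA_0 : stA (nat_lit 0) (nat_lit 0) (nat_lit 19) = true := by decide +kernel

lemma stA_1 : stA (nat_lit 1) (nat_lit 0) (nat_lit 19) = true := by decide +kernel

lemma stA_2 : stA (nat_lit 2) (nat_lit 0) (nat_lit 19) = true := by decide +kernel

lemma stA_3 : stA (nat_lit 3) (nat_lit 0) (nat_lit 19) = true := by decide +kernel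

end Pool.Agent.Lib_helper5.K4


end

section

/-! generated: kernel checks -/

namespace Pool.Agent.Lib_helper5.K4

lemma stA_4 : stA (nat_lit 4) (nat_lit 0) (nat_lit 19) = true := by decide +kernel

lemma stA_5 : stA (nat_lit 5) (nat_lit 0) (nat_lit 19) = true := by decide +kernel

lemma stA_6 : stA (nat_lit 6) (nat_lit 0) (nat_lit 19) = true := by decide +kernel

lemma stA_7 : stA (nat_lit 7) (nat_lit 0) (nat_lit 19) = true := by decide +kernel

end Pool.Agent.Lib_helper5.K4


end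

section

/-! generated: kernel checks -/

namespace Pool.Agent.Lib_helper5.K4

lemma stA_8 : stA (nat_lit 8) (nat_lit 0) (nat_lit 19) = true := by decide +kernel

lemma stA_9 : stA (nat_lit 9) (nat_lit 0) (nat_lit 19) = true := by decide +kernel

lemma stA_10 : stA (nat_lit 10) (nat_lit 0) (nat_lit 19) = true := by decide +kernel

lemma stA_11 : stA (nat_lit 11) (nat_lit 0) (nat_lit 19) = true := by decide +kernel

end Pool.Agent.Lib_helper5.K4


end

section

/-! generated: kernel checks -/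

namespace Pool.Agent.Lib_helper5.K4

lemma stA_16 : stA (nat_lit 16) (nat_lit 0) (nat_lit 19) = true := by decide +kernel

lemma stA_17 : stA (nat_lit 17) (nat_lit 0) (nat_lit 19) = true := by decide +kernel

lemma stA_18 : stA (nat_lit 18) (nat_lit 0) (nat_lit 19) = true := by decide +kernel

end Pool.Agent.Lib_helper5.K4


end

section

/-! generated: kernel checks -/

namespace Pool.Agent.Lib_helper5.K4

lemma stG_0 : stG (nat_lit 0) (nat_lit 11) = true := by decide +kernel

end Pool.Agent.Lib_helper5.K4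


end
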