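import Mathlib
import Pool.Agent.RQM.C157

/-! Parts: Lib_helper5.K4.KB0, Lib_helper5.K4.KB1, Lib_helper5.K4.KB3, Lib_helper5.K4.KC1 -/

section

/-! generated: kernel checks -/

namespace Pool.Agent.Lib_helper5.K4

lemma stB_0 : stB (nat_lit 1, nat_lit 1, nat_lit 1) = true := by decide +kernel

lemma stB_1 : stB (nat_lit 1, nat_lit 1, nat_lit 3) = true := by decide +kernel

lemma stB_2 : stB (nat_lit 1, nat_lit 1, nat_lit 5) = true := by decide +kernel

lemma stB_3 : stB (nat_lit 1, nat_lit 1, nat_lit 7) = true := by decide +kernel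

lemma stB_4 : stB (nat_lit 1, nat_lit 3, nat_lit 1) = true := by decide +kernel

lemma stB_5 : stB (nat_lit 1, nat_lit 3, nat_lit 3) = true := by decide +kernel

lemma stB_6 : stB (nat_lit 1, nat_lit 3, nat_lit 5) = true := by decide +kernel

lemma stB_7 : stB (nat_lit 1, nat_lit 3, nat_lit 7) = true := by decide +kernel

end Pool.Agent.Lib_helper5.K4


end

section

/-! generated: kernel checks -/

namespace Pool.Agent.Lib_helper5.K4

lemma stB_8 : stB (nat_lit 1, nat_lit 5, nat_lit 1) = true := by decide +kernel

lemma stB_9 : stB (nat_lit 1, nat_lit 5, nat_lit 3) = true := by decide +kernel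

lemma stB_10 : stB (nat_lit 1, nat_lit 5, nat_lit 5) = true := by decide +kernel

lemma stB_11 : stB (nat_lit 1, nat_lit 5, nat_lit 7) = true := by decide +kernel

lemma stB_12 : stB (nat_lit 1, nat_lit 7, nat_lit 1) = true := by decide +kernel

lemma stB_13 : stB (nat_lit 1, nat_lit 7, nat_lit 3) = true := by decide +kernel

lemma stB_14 : stB (nat_lit 1, nat_lit 7, nat_lit 5) = true := by decide +kernel

lemma stB_15 : stB (nat_lit 1, nat_lit 7, nat_lit 7) = true := by decide +kernel

end Pool.Agent.Lib_helper5.K4


end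

section

/-! generated: kernel checks -/

namespace Pool.Agent.Lib_helper5.K4

lemma stB_24 : stB (nat_lit 3, nat_lit 5, nat_lit 1) = true := by decide +kernel

lemma stB_25 : stB (nat_lit 3, nat_lit 5, nat_lit 3) = true := by decide +kernel

lemma stB_26 : stB (nat_lit 3, nat_lit 5, nat_lit 5) = true := by decide +kernel

lemma stB_27 : stB (nat_lit 3, nat_lit 5, nat_lit 7) = true := by decide +kernel

lemma stB_28 : stB (nat_lit 3, nat_lit 7, nat_lit 1) = true := by decide +kernel

lemma stB_29 : stB (nat_lit 3, nat_lit 7, nat_lit 3) = true := by decide +kernel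

lemma stB_30 : stB (nat_lit 3, nat_lit 7, nat_lit 5) = true := by decide +kernel

lemma stB_31 : stB (nat_lit 3, nat_lit 7, nat_lit 7) = true := by decide +kernel

end Pool.Agent.Lib_helper5.K4


end

section

/-! generated: kernel checks -/

namespace Pool.Agent.Lib_helper5.K4

lemma stC_3 : stC (nat_lit 3) (nat_lit 1) = true := by decide +kernel

lemma stC_4 : stC (nat_lit 4) (nat_lit 1) = true := by decide +kernel

lemma stC_5 : stC (nat_lit 5) (nat_lit 1) = true := by decide +kernel

end Pool.Agent.Lib_helper5.K4


end
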