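import Mathlib
import Pool.Agent.RQM.C119
import Pool.Agent.RQM.C12
import Pool.Agent.RQM.C148
import Pool.Agent.RQM.C15
import Pool.Agent.RQM.C157
import Pool.Agent.RQM.C158
import Pool.Agent.RQM.C159
import Pool.Agent.RQM.C40
import Pool.Agent.RQM.C44

/-! Parts: Lib_helper5.K4.Fam, Lib_helper5.K4.FnD, Lib_helper5.K4.FnF, Lib_helper5.K4.KA3, Lib_helper5.K4.KC0, Lib_helper5.K4.KD0, Lib_helper5.K4.KD1, Lib_helper5.K4.KD2, Lib_helper5.K4.KE0, Lib_helper5.K4.KE1, Lib_helper5.K4.KF0, Lib_helper5.K4.Final -/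

namespace Pool.Agent.LibH4
end Pool.Agent.LibH4
namespace Pool.Agent.LibH4.KF
end Pool.Agent.LibH4.KF
namespace Pool.Agent.LibH4.Ker
end Pool.Agent.LibH4.Ker
namespace Pool.Agent.LibH4.T6
end Pool.Agent.LibH4.T6
namespace Pool.Agent.Lib_helper5.LK
end Pool.Agent.Lib_helper5.LK

section

/-!
The families with small `r`: `a` and `a t - b = s` are fixed.
-/

namespace Pool.Agent.Lib_helper5.K4

open Finset LK Pool.Agent.LibH4 Pool.Agent.LibH4.Ker Pool.Agent.LibH4.T6 Pool.Agent.LibH4.KF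

/-- the class of the parameters `a`, `a t - s`, `t` -/
def fc (p a s t : ℕ) : ℕ × ℕ × ℕ :=
  (Nat.mod a p, Nat.mod (Nat.add (Nat.mul a t) (Nat.sub p (Nat.mod s p))) p, Nat.mod t p)

lemma fc_b {p : ℕ} [NeZero p] (a s t : ℕ) (t' : ℤ) (h : (t : ZMod p) = (t' : ZMod p)) :
    Nat.mod (Nat.add (Nat.mul a t) (Nat.sub p (Nat.mod s p))) p = rs p ((a : ℤ) * t' - s) := by
  change (a * t + (p - s % p)) % p = _
  have hp : 0 < p := Nat.pos_of_ne_zero (NeZero.ne p)
  apply rs_of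
  rw [Nat.cast_add, Nat.cast_mul, Nat.cast_sub (Nat.mod_lt _ hp).le, ZMod.natCast_mod, h]
  push_cast
  rw [ZMod.natCast_self]
  ring

lemma fc_eq {p : ℕ} [NeZero p] (a s t : ℕ) (t' : ℤ) (h : (t : ZMod p) = (t' : ZMod p)) :
    fc p a s t = cl p (a : ℤ) ((a : ℤ) * t' - s) t' := by
  unfold fc cl
  rw [fc_b a s t t' h]
  have e1 : Nat.mod a p = rs p (a : ℤ) := rs_of (by push_cast; rfl)
  have e2 : Nat.mod t p = rs p t' := rs_of h
  rw [e1, e2]

/-- the class belongs to the family -/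
def isF (p a s : ℕ) (x : ℕ × ℕ × ℕ) : Bool :=
  andB (Nat.beq x.1 (Nat.mod a p))
    (Nat.beq x.2.1 (Nat.mod (Nat.add (Nat.mul a x.2.2) (Nat.sub p (Nat.mod s p))) p))

/-- the opposite class belongs to the family -/
def isN (p a s : ℕ) (x : ℕ × ℕ × ℕ) : Bool :=
  andB (Nat.beq x.1 (Nat.mod (Nat.sub p (Nat.mod a p)) p))
    (Nat.beq x.2.1 (Nat.mod (Nat.sub p
      (Nat.mod (Nat.add (Nat.mul a x.2.2) (Nat.sub p (Nat.mod s p))) p)) p))

lemma rs_nat {p : ℕ} [NeZero p] (t : ℤ) : ((rs p t : ℕ) : ZMod p) = (t : ZMod p) := rs_cast t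

lemma rs_opp {p : ℕ} [NeZero p] (x : ℤ) : Nat.mod (Nat.sub p (rs p x)) p = rs p (-x) := by
  change (p - rs p x) % p = _
  apply rs_of
  rw [Nat.cast_sub (rs_lt x).le, rs_cast]
  push_cast
  simp

lemma isF_spec {p : ℕ} [NeZero p] (a s : ℕ) (t : ℤ) :
    isF p a s (cl p (a : ℤ) ((a : ℤ) * t - s) t) = true := by
  unfold isF cl
  have e1 : Nat.mod a p = rs p (a : ℤ) := rs_of (by push_cast; rfl)
  have e2 := fc_b (p := p) a s (rs p t) t (rs_cast t)
  simp only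
  rw [e1, e2, Nat.beq_refl, Nat.beq_refl]
  rfl

lemma isN_spec {p : ℕ} [NeZero p] (a s : ℕ) (t : ℤ) :
    isN p a s (cl p (-(a : ℤ)) (-((a : ℤ) * t - s)) t) = true := by
  unfold isN cl
  have e1 : Nat.mod a p = rs p (a : ℤ) := rs_of (by push_cast; rfl)
  have e2 := fc_b (p := p) a s (rs p t) t (rs_cast t)
  simp only
  rw [e1, e2, rs_opp, rs_opp, Nat.beq_refl, Nat.beq_refl]
  rfl

/-- inertness of a class -/
def inT (p e : ℕ) (x : ℕ × ℕ × ℕ) : Bool :=
  withP4 p x.1 x.2.1 x.2.2 fun _ _ _ _ _ d => Nat.beq (Nat.mod (Nat.pow d e) p)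
    (Nat.sub p (nat_lit 1))

lemma inT_spec {Q : ℕ} {a b t : ℤ} (S : Sys Q a b t) {p : ℕ} [NeZero p] (hp : p.Prime)
    (hp2 : p ≠ 2) (hd : p ∣ Q) : inT p (p / 2) (cl p a b t) = true := by
  unfold inT cl
  rw [withP4_eq]
  exact S.inr p hp hp2 hd

/-- implication -/
def impB (a b : Bool) : Bool := @Bool.rec (fun _ => Bool) true b a

lemma impB_spec {a b : Bool} (h : impB a b = true) (ha : a = true) : b = true := by
  subst ha; exact h

/-- classes modulo 760 in a family -/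
def fam760 (a s : ℕ) (k : ℕ → ℕ → ℕ → Bool) (L : List ℕ) : Bool :=
  allL (fun c => cls (nat_lit 8) (nat_lit 1) c fun a8 b8 t8 =>
    cls (nat_lit 19) (nat_lit 512) c fun a19 b19 t19 =>
    cls (nat_lit 5) (nat_lit 3511808) c fun a5 b5 t5 =>
    andB (impB (andB (isF (nat_lit 8) a s (a8, b8, t8)) (andB (isF (nat_lit 19) a s (a19, b19, t19))
        (isF (nat_lit 5) a s (a5, b5, t5)))) (k t8 t19 t5))
      (impB (andB (isN (nat_lit 8) a s (a8, b8, t8)) (andB (isN (nat_lit 19) a s (a19, b19, t19))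
        (isN (nat_lit 5) a s (a5, b5, t5)))) (k t8 t19 t5))) L

lemma fam760_specF {a s : ℕ} {t : ℤ} {k : ℕ → ℕ → ℕ → Bool} {L : List ℕ}
    (h : fam760 a s k L = true)
    (hc : c760 (a : ℤ) ((a : ℤ) * t - s) t ∈ L) : k (rs 8 t) (rs 19 t) (rs 5 t) = true := by
  have h := allL_spec h _ hc
  rw [cls_eq (c760_8 _ _ _), cls_eq (c760_19 _ _ _), cls_eq (c760_5 _ _ _)] at h
  obtain ⟨h, -⟩ := andB_spec h
  refine impB_spec h ?_
  have e8 := isF_spec (p := 8) a s t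
  have e19 := isF_spec (p := 19) a s t
  have e5 := isF_spec (p := 5) a s t
  unfold cl at e8 e19 e5
  rw [e8, e19, e5]
  rfl

lemma fam760_specN {a s : ℕ} {t : ℤ} {k : ℕ → ℕ → ℕ → Bool} {L : List ℕ}
    (h : fam760 a s k L = true)
    (hc : c760 (-(a : ℤ)) (-((a : ℤ) * t - s)) t ∈ L) : k (rs 8 t) (rs 19 t) (rs 5 t) = true := by
  have h := allL_spec h _ hc
  rw [cls_eq (c760_8 _ _ _), cls_eq (c760_19 _ _ _), cls_eq (c760_5 _ _ _)] at h
  obtain ⟨-, h⟩ := andB_spec h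
  refine impB_spec h ?_
  have e8 := isN_spec (p := 8) a s t
  have e19 := isN_spec (p := 19) a s t
  have e5 := isN_spec (p := 5) a s t
  unfold cl at e8 e19 e5
  rw [e8, e19, e5]
  rfl

/-- no class modulo 69160 in a family -/
def famX (a s : ℕ) (L : List ℕ) : Bool :=
  allL (fun c => cls (nat_lit 8) (nat_lit 1) c fun a8 b8 t8 =>
    cls (nat_lit 19) (nat_lit 512) c fun a19 b19 t19 =>
    cls (nat_lit 5) (nat_lit 3511808) c fun a5 b5 t5 =>
    cls (nat_lit 13) (nat_lit 438976000) c fun a13 b13 t13 =>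
    cls (nat_lit 7) (nat_lit 964430272000) c fun a7 b7 t7 =>
    andB (impB (andB (isF (nat_lit 8) a s (a8, b8, t8)) (andB (isF (nat_lit 19) a s (a19, b19, t19))
        (andB (isF (nat_lit 5) a s (a5, b5, t5)) (andB (isF (nat_lit 13) a s (a13, b13, t13))
          (isF (nat_lit 7) a s (a7, b7, t7)))))) false)
      (impB (andB (isN (nat_lit 8) a s (a8, b8, t8)) (andB (isN (nat_lit 19) a s (a19, b19, t19))
        (andB (isN (nat_lit 5) a s (a5, b5, t5)) (andB (isN (nat_lit 13) a s (a13, b13, t13))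
          (isN (nat_lit 7) a s (a7, b7, t7)))))) false)) L

lemma famX_specF {a s : ℕ} {t : ℤ} {L : List ℕ} (h : famX a s L = true)
    (hc : c69160 (a : ℤ) ((a : ℤ) * t - s) t ∈ L) : False := by
  have h := allL_spec h _ hc
  rw [cls_eq (c69160_8 _ _ _), cls_eq (c69160_19 _ _ _), cls_eq (c69160_5 _ _ _),
    cls_eq (c69160_13 _ _ _), cls_eq (c69160_7 _ _ _)] at h
  obtain ⟨h, -⟩ := andB_spec h
  have e8 := isF_spec (p := 8) a s t
  have e19 := isF_spec (p := 19) a s t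
  have e5 := isF_spec (p := 5) a s t
  have e13 := isF_spec (p := 13) a s t
  have e7 := isF_spec (p := 7) a s t
  unfold cl at e8 e19 e5 e13 e7
  rw [e8, e19, e5, e13, e7] at h
  exact absurd h (by simp [andB, impB])

lemma famX_specN {a s : ℕ} {t : ℤ} {L : List ℕ} (h : famX a s L = true)
    (hc : c69160 (-(a : ℤ)) (-((a : ℤ) * t - s)) t ∈ L) : False := by
  have h := allL_spec h _ hc
  rw [cls_eq (c69160_8 _ _ _), cls_eq (c69160_19 _ _ _), cls_eq (c69160_5 _ _ _),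
    cls_eq (c69160_13 _ _ _), cls_eq (c69160_7 _ _ _)] at h
  obtain ⟨-, h⟩ := andB_spec h
  have e8 := isN_spec (p := 8) a s t
  have e19 := isN_spec (p := 19) a s t
  have e5 := isN_spec (p := 5) a s t
  have e13 := isN_spec (p := 13) a s t
  have e7 := isN_spec (p := 7) a s t
  unfold cl at e8 e19 e5 e13 e7
  rw [e8, e19, e5, e13, e7] at h
  exact absurd h (by simp [andB, impB])

lemma f760_7 : fam760 (nat_lit 3) (nat_lit 2) (fun _ _ _ => false) S760 = true := by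
  decide +kernel

lemma f760_13 : fam760 (nat_lit 3) (nat_lit 4) (fun x y z => andB (Nat.beq x (nat_lit 1))
    (andB (Nat.beq y (nat_lit 1)) (Nat.beq z (nat_lit 1)))) S760 = true := by
  decide +kernel

lemma fX_11 : famX (nat_lit 5) (nat_lit 2) S69160 = true := by decide +kernel

/-- the families with `r = 19` -/
def famA (a s : ℕ) : Bool :=
  allR (fun t => impB (Nat.beq (Nat.mod t (nat_lit 2)) (nat_lit 1))
    (impB (inT (nat_lit 5) (nat_lit 2) (fc (nat_lit 5) a s t))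
    (impB (inT (nat_lit 7) (nat_lit 3) (fc (nat_lit 7) a s t))
    (dr_h1 (fc (nat_lit 7) a s t) (fc (nat_lit 8) a s t) (fc (nat_lit 5) a s t)
      (fc (nat_lit 7) a s t) fun v => cond0 v (
    allR (fun u => impB (inT (nat_lit 13) (nat_lit 6) (fc (nat_lit 13) a s u))
      (dr_d1 (fc (nat_lit 13) a s u) (fc (nat_lit 13) a s u) (fc (nat_lit 7) a s t)
        (fc (nat_lit 13) a s u) fun v => cond0 v (
      dr_d5 (fc (nat_lit 7) a s t) (fc (nat_lit 8) a s t) (fc (nat_lit 13) a s u)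
        (fc (nat_lit 7) a s t) fun v => cond0 v false))) (nat_lit 13)))))) (nat_lit 280)

lemma famA_spec {Q : ℕ} {a s : ℕ} {t : ℤ} (S : Sys Q (a : ℤ) ((a : ℤ) * t - s) t)
    (hQ : 910 ∣ Q) (h : famA a s = true) : False := by
  have h280 : ((rs 280 t : ℕ) : ℤ) = t % 280 := ZMod.val_intCast t
  have hz : ∀ p : ℕ, p ∣ 280 → ((rs 280 t : ℕ) : ZMod p) = (t : ZMod p) := by
    intro p hp
    have h1 : ((rs 280 t : ℕ) : ℤ) ≡ t [ZMOD (p : ℤ)] := by
      rw [h280]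
      exact (Int.mod_modEq t 280).of_dvd (by exact_mod_cast hp)
    have := (ZMod.intCast_eq_intCast_iff _ _ p).2 h1
    exact_mod_cast this
  have h := allR_spec h (rs 280 t) (rs_lt t)
  have ot : Nat.beq (Nat.mod (rs 280 t) (nat_lit 2)) (nat_lit 1) = true := by
    have h1 := S.ot
    have h2 : rs 280 t % 2 = 1 := by omega
    change Nat.beq (rs 280 t % 2) 1 = true
    rw [h2]
    rfl
  have h := impB_spec h ot
  rw [fc_eq a s _ t (hz 5 (by norm_num)), fc_eq a s _ t (hz 7 (by norm_num)),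
    fc_eq a s _ t (hz 8 (by norm_num))] at h
  have h := impB_spec h (inT_spec (p := 5) S (by norm_num) (by norm_num)
    (Dvd.dvd.trans (by norm_num) hQ))
  have h := impB_spec h (inT_spec (p := 7) S (by norm_num) (by norm_num)
    (Dvd.dvd.trans (by norm_num) hQ))
  have h := dr_h1_spec S (Dvd.dvd.trans (by norm_num) hQ) h
  have h := cond0_zero rfl h
  have h := allR_spec h (rs 13 t) (rs_lt t)
  rw [fc_eq a s _ t (rs_cast t)] at h
  have h := impB_spec h (inT_spec (p := 13) S (by norm_num) (by norm_num)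
    (Dvd.dvd.trans (by norm_num) hQ))
  have h := dr_d1_spec S (Dvd.dvd.trans (by norm_num) hQ) h
  have h := cond0_zero rfl h
  have h := dr_d5_spec S (Dvd.dvd.trans (by norm_num) hQ) h
  have h := cond0_zero rfl h
  exact absurd h (by simp)

/-- the family with `r = 13` -/
def famB (a s : ℕ) : Bool :=
  allR (fun t => impB (inT (nat_lit 7) (nat_lit 3) (fc (nat_lit 7) a s t))
    (dr_h1 (fc (nat_lit 7) a s t) (fc (nat_lit 8) a s (nat_lit 1)) (fc (nat_lit 5) a s (nat_lit 1))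
      (fc (nat_lit 7) a s t) fun v => cond0 v (
    allR (fun u => impB (inT (nat_lit 17) (nat_lit 8) (fc (nat_lit 17) a s u))
      (dr_h2 (fc (nat_lit 7) a s t) (fc (nat_lit 7) a s t) (fc (nat_lit 17) a s u)
        (fc (nat_lit 5) a s (nat_lit 1)) fun v => cond0 v (
      dr_h3 (fc (nat_lit 19) a s (nat_lit 1)) (fc (nat_lit 7) a s t) (fc (nat_lit 17) a s u)
        (fc (nat_lit 7) a s t) fun v => cond0 v (
      dr_e1 (fc (nat_lit 19) a s (nat_lit 1)) (fc (nat_lit 7) a s t) (fc (nat_lit 17) a s u)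
        (fc (nat_lit 19) a s (nat_lit 1)) fun v => cond0 v false)))) (nat_lit 17)))) (nat_lit 7)

lemma famB_spec {Q : ℕ} {a s : ℕ} {t : ℤ} (S : Sys Q (a : ℤ) ((a : ℤ) * t - s) t)
    (hQ : 22610 ∣ Q) (h8 : rs 8 t = 1) (h19 : rs 19 t = 1) (h5 : rs 5 t = 1)
    (h : famB a s = true) : False := by
  have z : ∀ (p : ℕ) [NeZero p], rs p t = 1 → ((nat_lit 1 : ℕ) : ZMod p) = (t : ZMod p) := by
    intro p _ hp
    rw [← rs_cast (p := p) t, hp]
  have h := allR_spec h (rs 7 t) (rs_lt t)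
  rw [fc_eq (p := 7) a s _ t (rs_cast t), fc_eq (p := 8) a s _ t (z 8 h8),
    fc_eq (p := 5) a s _ t (z 5 h5)] at h
  have h := impB_spec h (inT_spec (p := 7) S (by norm_num) (by norm_num)
    (Dvd.dvd.trans (by norm_num) hQ))
  have h := dr_h1_spec S (Dvd.dvd.trans (by norm_num) hQ) h
  have h := cond0_zero rfl h
  have h := allR_spec h (rs 17 t) (rs_lt t)
  rw [fc_eq (p := 17) a s _ t (rs_cast t)] at h
  rw [fc_eq (p := 19) a s _ t (z 19 h19)] at h
  have h := impB_spec h (inT_spec (p := 17) S (by norm_num) (by norm_num)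
    (Dvd.dvd.trans (by norm_num) hQ))
  have h := dr_h2_spec S (Dvd.dvd.trans (by norm_num) hQ) h
  have h := cond0_zero rfl h
  have h := dr_h3_spec S (Dvd.dvd.trans (by norm_num) hQ) h
  have h := cond0_zero rfl h
  have h := dr_e1_spec S (Dvd.dvd.trans (by norm_num) hQ) h
  have h := cond0_zero rfl h
  exact absurd h (by simp)

lemma fA_3 : famA (nat_lit 3) (nat_lit 6) = true := by decide +kernel

lemma fA_9 : famA (nat_lit 9) (nat_lit 2) = true := by decide +kernel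

lemma fB_3 : famB (nat_lit 3) (nat_lit 4) = true := by decide +kernel

end Pool.Agent.Lib_helper5.K4


end

section

/-!
Stage D: classes modulo 69160.
-/

namespace Pool.Agent.Lib_helper5.K4

open Finset LK Pool.Agent.LibH4 Pool.Agent.LibH4.Ker Pool.Agent.LibH4.T6 Pool.Agent.LibH4.KF

/-- the rows of a class -/
def rowsD (G_d3 G_d4 : List (ℕ × ℕ × ℕ)) (c : ℕ)
    (k : (ℕ × ℕ) × ℕ → Bool) : Bool :=
  wq (nat_lit 8) (nat_lit 1) c fun _ _ B8 m8 nm8 nr8 R8 _ =>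
  wq (nat_lit 19) (nat_lit 512) c fun a19 b19 B19 _ _ _ _ _ =>
  wq (nat_lit 13) (nat_lit 438976000) c fun a13 b13 B13 _ nm13 nr13 R13 d13 =>
  rowA (nat_lit 13) T1_d3 (nat_lit 7680) G_d3 W_d3 Y1_d3 Y0_d3 (nat_lit 0) (nat_lit 19) d13
    (FK4 (nat_lit 13) (nat_lit 19) a19 b19 B19 B13 nm13 nr13 R13) (nat_lit 0) fun A =>
    strict A fun A_d3 =>
  rowA (nat_lit 13) T1_d4 (nat_lit 7680) G_d4 W_d4 Y1_d4 Y0_d4 (nat_lit 1) (nat_lit 13) d13
    (FK4 (nat_lit 13) (nat_lit 13) a13 b13 B13 B13 nm13 nr13 R13) (nat_lit 0) fun A =>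
    strict A fun A_d4 =>
  strict (red (nat_lit 7680) (nat_lit 640) (nat_lit 7040) (nat_lit 3) A_d3
    (vecA (nat_lit 8) T2_d3 (Nat.pow (nat_lit 2) (nat_lit 640)) (nat_lit 7680) L8
      (forms4 (nat_lit 8) B8 m8 nm8 nr8 R8) (nat_lit 0))) fun R_d3 =>
  strict (red (nat_lit 7680) (nat_lit 640) (nat_lit 7040) (nat_lit 3) A_d4
    (vecA (nat_lit 8) T2_d4 (Nat.pow (nat_lit 2) (nat_lit 640)) (nat_lit 7680) L8
      (forms4 (nat_lit 8) B8 m8 nm8 nr8 R8) (nat_lit 0))) fun R_d4 =>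
  k ((c, R_d4), R_d3)

lemma rowsD_ex {c : ℕ} {k : (ℕ × ℕ) × ℕ → Bool}
    (h : rowsD (ds13.map fun δ => (δ, gg 13 T1_d3 7680 δ, LK.gs 13 T1_d3 δ))
      (ds13.map fun δ => (δ, gg 13 T1_d4 7680 δ, LK.gs 13 T1_d4 δ)) c k = true) :
    ∃ y, k y = true := by
  unfold rowsD at h
  obtain ⟨_, _, _, _, _, _, _, _, h⟩ := wq_ex h
  obtain ⟨_, _, _, _, _, _, _, _, h⟩ := wq_ex h
  obtain ⟨_, _, _, _, _, _, _, _, h⟩ := wq_ex h
  obtain ⟨_, h⟩ := rowA_ex (by norm_num) (by norm_num) h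
  obtain ⟨_, h⟩ := rowA_ex (by norm_num) (by norm_num) h
  simp only [strict_eq] at h
  exact ⟨_, h⟩

/-- the value of the rows -/
def gD (a b t : ℤ) : (ℕ × ℕ) × ℕ :=
  ((c9880 a b t,
    red 7680 640 7040 3 (RA 13 T1_d4 7680 W_d4 Y1_d4 Y0_d4 13 (zd a b t) (J4 a b t)) (VA 8 T2_d4 640 7680 L8 (J4 a b t))),
    red 7680 640 7040 3 (RA 13 T1_d3 7680 W_d3 Y1_d3 Y0_d3 19 (zd a b t) (J4 a b t)) (VA 8 T2_d3 640 7680 L8 (J4 a b t)))

/-- the conditions of the rows -/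
def CD (a b t : ℤ) : Prop :=
  RC 13 T1_d3 0 19 (zd a b t) (J4 a b t) ∧
  RC 13 T1_d4 1 13 (zd a b t) (J4 a b t)

lemma rowsD_eq {a b t : ℤ} {k : (ℕ × ℕ) × ℕ → Bool}
    (h : rowsD (ds13.map fun δ => (δ, gg 13 T1_d3 7680 δ, LK.gs 13 T1_d3 δ))
      (ds13.map fun δ => (δ, gg 13 T1_d4 7680 δ, LK.gs 13 T1_d4 δ)) (c9880 a b t) k = true) :
    k (gD a b t) = true ∧ CD a b t := by
  unfold rowsD at h
  rw [wq_eq (c9880_8 a b t), wq_eq (c9880_19 a b t), wq_eq (c9880_13 a b t)] at h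
  rw [FK4_eq (p := 13) (l := 13), FK4_eq (p := 13) (l := 19)] at h
  rw [forms4_eq (p := 8) (by norm_num), vecA_use, vecA_use] at h
  obtain ⟨h, C_d3⟩ := rowA_use (by norm_num) (by norm_num) h
  obtain ⟨h, C_d4⟩ := rowA_use (by norm_num) (by norm_num) h
  simp only [strict_eq] at h
  exact ⟨h, C_d3, C_d4⟩

/-- the check -/
def stD (lo n : ℕ) : Bool :=
  ggl (nat_lit 13) T1_d3 (nat_lit 7680) ds13 fun G_d3 =>
  ggl (nat_lit 13) T1_d4 (nat_lit 7680) ds13 fun G_d4 =>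
  ggl (nat_lit 7) T3_d3 (nat_lit 80) ds7 fun H_d3 =>
  mapC (rowsD G_d3 G_d4) S9880 fun E =>
  allR (fun aa => strict (Nat.add aa lo) fun a => allR (fun b => allR (fun t =>
   withP4 (nat_lit 7) a b t fun B m nm nr R d =>
   @Bool.rec (fun _ => Bool) true (
    (fun F : List (ℕ × ℕ × ℕ) =>
     vecC (nat_lit 7) T3_d3 (nat_lit 80) (nat_lit 640) H_d3 d F fun v => strict v fun v_d3 =>
     strict (vecB (nat_lit 7) T3_d4 (nat_lit 1208925819614629174706176) (nat_lit 640) L7 F) fun v_d4 =>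
     strict (Nat.mul (nat_lit 964430272000) (cdK (nat_lit 7) (a, b, t))) fun cn =>
     allQ (fun x => cond0 (ip (nat_lit 19) (nat_lit 1840) x.2 v_d3)
       (cond0 (ip (nat_lit 2197) (nat_lit 1840) x.1.2 v_d4)
       (strict (Nat.add x.1.1 cn) fun c => memB c S69160a))) E)
    (forms4 (nat_lit 7) B m nm nr R))
   (Nat.beq (Nat.mod (Nat.pow d (nat_lit 3)) (nat_lit 7)) (nat_lit 6)))
   (nat_lit 7)) (nat_lit 7)) n

theorem stD_spec {Q : ℕ} {a b t : ℤ} (S : Sys Q a b t) (hQ : 17290 ∣ Q) (hc : c9880 a b t ∈ S9880)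
    {lo n : ℕ} (h : stD lo n = true) (ha : lo ≤ rs 7 a) (ha' : rs 7 a < lo + n) :
    c69160 a b t ∈ S69160a := by
  unfold stD at h
  simp only [ggl_eq] at h
  obtain ⟨E, h, hE, C_d3, C_d4⟩ :=
    mapC_mem hc (fun k' => rowsD_eq) (fun x _ k' => rowsD_ex) h
  have h := allR_spec h (rs 7 a - lo) (by omega)
  rw [strict_eq] at h
  have ea : Nat.add (rs 7 a - lo) lo = rs 7 a := by
    change rs 7 a - lo + lo = _
    omega
  rw [ea] at h
  have h := allR_spec h (rs 7 b) (rs_lt b)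
  have h := allR_spec h (rs 7 t) (rs_lt t)
  rw [withP4_eq] at h
  have ii : Nat.beq (Nat.mod (Nat.pow (rs 7 (zd a b t)) (nat_lit 3)) (nat_lit 7)) (nat_lit 6)
    = true := S.inr 7 (by norm_num) (by norm_num) (Dvd.dvd.trans (by norm_num) hQ)
  rw [ii] at h
  rw [forms4_eq (by norm_num)] at h
  obtain ⟨h, I_d3⟩ := vecC_use (by norm_num) h
  rw [strict_eq, vecB_use] at h
  rw [strict_eq] at h
  have h := allQ_spec h _ hE
  have h := cond0_zero (zC_d3 S (Dvd.dvd.trans (by norm_num) hQ) C_d3 I_d3) h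
  have h := cond0_zero (zB_d4 S (Dvd.dvd.trans (by norm_num) hQ) C_d4) h
  rw [strict_eq] at h
  exact memB_spec h

end Pool.Agent.Lib_helper5.K4


end

section

/-!
Stage F: classes modulo 3527160.
-/

namespace Pool.Agent.Lib_helper5.K4

open Finset LK Pool.Agent.LibH4 Pool.Agent.LibH4.Ker Pool.Agent.LibH4.T6 Pool.Agent.LibH4.KF

/-- the rows of a class -/
def rowsF (G_f1 G_f2 : List (ℕ × ℕ × ℕ)) (c : ℕ)
    (k : (ℕ × ℕ) × ℕ → Bool) : Bool :=
  wq (nat_lit 5) (nat_lit 3511808) c fun _ _ B5 m5 nm5 nr5 R5 d5 =>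
  wq (nat_lit 13) (nat_lit 438976000) c fun a13 b13 B13 _ nm13 nr13 R13 d13 =>
  wq (nat_lit 7) (nat_lit 964430272000) c fun _ _ B7 m7 nm7 nr7 R7 _ =>
  rowA (nat_lit 5) T1_f1 (nat_lit 2560) G_f1 W_f1 Y1_f1 Y0_f1 (nat_lit 0) (nat_lit 13) d5
    (FK4 (nat_lit 5) (nat_lit 13) a13 b13 B13 B5 nm5 nr5 R5) (nat_lit 0) fun A =>
    strict A fun A_f1 =>
  rowA (nat_lit 13) T1_f2 (nat_lit 1920) G_f2 W_f2 Y1_f2 Y0_f2 (nat_lit 1) (nat_lit 13) d13
    (FK4 (nat_lit 13) (nat_lit 13) a13 b13 B13 B13 nm13 nr13 R13) (nat_lit 0) fun A =>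
    strict A fun A_f2 =>
  strict (red (nat_lit 2560) (nat_lit 320) (nat_lit 2240) (nat_lit 3) A_f1
    (vecA (nat_lit 7) T2_f1 (Nat.pow (nat_lit 2) (nat_lit 320)) (nat_lit 2560) L7
      (forms4 (nat_lit 7) B7 m7 nm7 nr7 R7) (nat_lit 0))) fun R_f1 =>
  strict (red (nat_lit 1920) (nat_lit 320) (nat_lit 1600) (nat_lit 3) A_f2
    (vecA (nat_lit 5) T2_f2 (Nat.pow (nat_lit 2) (nat_lit 320)) (nat_lit 1920) L5
      (forms4 (nat_lit 5) B5 m5 nm5 nr5 R5) (nat_lit 0))) fun R_f2 =>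
  k ((c, R_f2), R_f1)

lemma rowsF_ex {c : ℕ} {k : (ℕ × ℕ) × ℕ → Bool}
    (h : rowsF (ds5.map fun δ => (δ, gg 5 T1_f1 2560 δ, LK.gs 5 T1_f1 δ))
      (ds13.map fun δ => (δ, gg 13 T1_f2 1920 δ, LK.gs 13 T1_f2 δ)) c k = true) :
    ∃ y, k y = true := by
  unfold rowsF at h
  obtain ⟨_, _, _, _, _, _, _, _, h⟩ := wq_ex h
  obtain ⟨_, _, _, _, _, _, _, _, h⟩ := wq_ex h
  obtain ⟨_, _, _, _, _, _, _, _, h⟩ := wq_ex h
  obtain ⟨_, h⟩ := rowA_ex (by norm_num) (by norm_num) h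
  obtain ⟨_, h⟩ := rowA_ex (by norm_num) (by norm_num) h
  simp only [strict_eq] at h
  exact ⟨_, h⟩

/-- the value of the rows -/
def gF (a b t : ℤ) : (ℕ × ℕ) × ℕ :=
  ((c1175720 a b t,
    red 1920 320 1600 3 (RA 13 T1_f2 1920 W_f2 Y1_f2 Y0_f2 13 (zd a b t) (J4 a b t)) (VA 5 T2_f2 320 1920 L5 (J4 a b t))),
    red 2560 320 2240 3 (RA 5 T1_f1 2560 W_f1 Y1_f1 Y0_f1 13 (zd a b t) (J4 a b t)) (VA 7 T2_f1 320 2560 L7 (J4 a b t)))

/-- the conditions of the rows -/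
def CF (a b t : ℤ) : Prop :=
  RC 5 T1_f1 0 13 (zd a b t) (J4 a b t) ∧
  RC 13 T1_f2 1 13 (zd a b t) (J4 a b t)

lemma rowsF_eq {a b t : ℤ} {k : (ℕ × ℕ) × ℕ → Bool}
    (h : rowsF (ds5.map fun δ => (δ, gg 5 T1_f1 2560 δ, LK.gs 5 T1_f1 δ))
      (ds13.map fun δ => (δ, gg 13 T1_f2 1920 δ, LK.gs 13 T1_f2 δ)) (c1175720 a b t) k = true) :
    k (gF a b t) = true ∧ CF a b t := by
  unfold rowsF at h
  rw [wq_eq (c1175720_5 a b t), wq_eq (c1175720_13 a b t), wq_eq (c1175720_7 a b t)] at h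
  rw [FK4_eq (p := 5) (l := 13), FK4_eq (p := 13) (l := 13)] at h
  rw [forms4_eq (p := 5) (by norm_num), forms4_eq (p := 7) (by norm_num), vecA_use, vecA_use] at h
  obtain ⟨h, C_f1⟩ := rowA_use (by norm_num) (by norm_num) h
  obtain ⟨h, C_f2⟩ := rowA_use (by norm_num) (by norm_num) h
  simp only [strict_eq] at h
  exact ⟨h, C_f1, C_f2⟩

/-- the check -/
def stF (lo n : ℕ) : Bool :=
  ggl (nat_lit 5) T1_f1 (nat_lit 2560) ds5 fun G_f1 =>
  ggl (nat_lit 13) T1_f2 (nat_lit 1920) ds13 fun G_f2 =>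
  ggl (nat_lit 3) T3_f1 (nat_lit 80) ds3 fun H_f1 =>
  mapC (rowsF G_f1 G_f2) S1175720 fun E =>
  allR (fun aa => strict (Nat.add aa lo) fun a => allR (fun b => allR (fun t =>
   withP4 (nat_lit 3) a b t fun B m nm nr R d =>
   @Bool.rec (fun _ => Bool) true (
    (fun F : List (ℕ × ℕ × ℕ) =>
     vecC (nat_lit 3) T3_f1 (nat_lit 80) (nat_lit 320) H_f1 d F fun v => strict v fun v_f1 =>
     strict (vecB (nat_lit 3) T3_f2 (nat_lit 1208925819614629174706176) (nat_lit 320) L3 F) fun v_f2 =>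
     strict (Nat.mul (nat_lit 1625218352733248000) (cdK (nat_lit 3) (a, b, t))) fun cn =>
     allQ (fun x => cond0 (ip (nat_lit 13) (nat_lit 880) x.2 v_f1)
       (cond0 (ip (nat_lit 2197) (nat_lit 880) x.1.2 v_f2)
       (strict (Nat.add x.1.1 cn) fun c => memB c S3527160))) E)
    (forms4 (nat_lit 3) B m nm nr R))
   (Nat.beq (Nat.mod (Nat.pow d (nat_lit 1)) (nat_lit 3)) (nat_lit 2)))
   (nat_lit 3)) (nat_lit 3)) n

theorem stF_spec {Q : ℕ} {a b t : ℤ} (S : Sys Q a b t) (hQ : 881790 ∣ Q) (hc : c1175720 a b t ∈ S1175720)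
    {lo n : ℕ} (h : stF lo n = true) (ha : lo ≤ rs 3 a) (ha' : rs 3 a < lo + n) :
    c3527160 a b t ∈ S3527160 := by
  unfold stF at h
  simp only [ggl_eq] at h
  obtain ⟨E, h, hE, C_f1, C_f2⟩ :=
    mapC_mem hc (fun k' => rowsF_eq) (fun x _ k' => rowsF_ex) h
  have h := allR_spec h (rs 3 a - lo) (by omega)
  rw [strict_eq] at h
  have ea : Nat.add (rs 3 a - lo) lo = rs 3 a := by
    change rs 3 a - lo + lo = _
    omega
  rw [ea] at h
  have h := allR_spec h (rs 3 b) (rs_lt b)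
  have h := allR_spec h (rs 3 t) (rs_lt t)
  rw [withP4_eq] at h
  have ii : Nat.beq (Nat.mod (Nat.pow (rs 3 (zd a b t)) (nat_lit 1)) (nat_lit 3)) (nat_lit 2)
    = true := S.inr 3 (by norm_num) (by norm_num) (Dvd.dvd.trans (by norm_num) hQ)
  rw [ii] at h
  rw [forms4_eq (by norm_num)] at h
  obtain ⟨h, I_f1⟩ := vecC_use (by norm_num) h
  rw [strict_eq, vecB_use] at h
  rw [strict_eq] at h
  have h := allQ_spec h _ hE
  have h := cond0_zero (zC_f1 S (Dvd.dvd.trans (by norm_num) hQ) C_f1 I_f1) h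
  have h := cond0_zero (zB_f2 S (Dvd.dvd.trans (by norm_num) hQ) C_f2) h
  rw [strict_eq] at h
  exact memB_spec h

end Pool.Agent.Lib_helper5.K4


end

section

/-! generated: kernel checks -/

namespace Pool.Agent.Lib_helper5.K4

lemma stA_12 : stA (nat_lit 12) (nat_lit 0) (nat_lit 19) = true := by decide +kernel

lemma stA_13 : stA (nat_lit 13) (nat_lit 0) (nat_lit 19) = true := by decide +kernel

lemma stA_14 : stA (nat_lit 14) (nat_lit 0) (nat_lit 19) = true := by decide +kernel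

lemma stA_15 : stA (nat_lit 15) (nat_lit 0) (nat_lit 19) = true := by decide +kernel

end Pool.Agent.Lib_helper5.K4


end

section

/-! generated: kernel checks -/

namespace Pool.Agent.Lib_helper5.K4

lemma stC_0 : stC (nat_lit 0) (nat_lit 1) = true := by decide +kernel

lemma stC_1 : stC (nat_lit 1) (nat_lit 1) = true := by decide +kernel

lemma stC_2 : stC (nat_lit 2) (nat_lit 1) = true := by decide +kernel

end Pool.Agent.Lib_helper5.K4


end

section

/-! generated: kernel checks -/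

namespace Pool.Agent.Lib_helper5.K4

lemma stD_0 : stD (nat_lit 0) (nat_lit 1) = true := by decide +kernel

lemma stD_1 : stD (nat_lit 1) (nat_lit 1) = true := by decide +kernel

lemma stD_2 : stD (nat_lit 2) (nat_lit 1) = true := by decide +kernel

lemma stD_3 : stD (nat_lit 3) (nat_lit 1) = true := by decide +kernel

end Pool.Agent.Lib_helper5.K4


end

section

/-! generated: kernel checks -/

namespace Pool.Agent.Lib_helper5.K4

lemma stD_4 : stD (nat_lit 4) (nat_lit 1) = true := by decide +kernel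

lemma stD_5 : stD (nat_lit 5) (nat_lit 1) = true := by decide +kernel

lemma stD_6 : stD (nat_lit 6) (nat_lit 1) = true := by decide +kernel

end Pool.Agent.Lib_helper5.K4


end

section

/-! generated: kernel checks -/

namespace Pool.Agent.Lib_helper5.K4

lemma fltD : flt S69160a = true := by decide +kernel

end Pool.Agent.Lib_helper5.K4


end

section

/-! generated: kernel checks -/

namespace Pool.Agent.Lib_helper5.K4

lemma stE_0 : stE (nat_lit 0) (nat_lit 1) = true := by decide +kernel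

lemma stE_1 : stE (nat_lit 1) (nat_lit 1) = true := by decide +kernel

lemma stE_2 : stE (nat_lit 2) (nat_lit 1) = true := by decide +kernel

lemma stE_3 : stE (nat_lit 3) (nat_lit 1) = true := by decide +kernel

lemma stE_4 : stE (nat_lit 4) (nat_lit 1) = true := by decide +kernel

end Pool.Agent.Lib_helper5.K4


end

section

/-! generated: kernel checks -/

namespace Pool.Agent.Lib_helper5.K4

lemma stE_5 : stE (nat_lit 5) (nat_lit 1) = true := by decide +kernel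

lemma stE_6 : stE (nat_lit 6) (nat_lit 1) = true := by decide +kernel

lemma stE_7 : stE (nat_lit 7) (nat_lit 1) = true := by decide +kernel

lemma stE_8 : stE (nat_lit 8) (nat_lit 1) = true := by decide +kernel

lemma stE_9 : stE (nat_lit 9) (nat_lit 1) = true := by decide +kernel

end Pool.Agent.Lib_helper5.K4


end

section

/-! generated: kernel checks -/

namespace Pool.Agent.Lib_helper5.K4

lemma stF_0 : stF (nat_lit 0) (nat_lit 3) = true := by decide +kernel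

end Pool.Agent.Lib_helper5.K4


end

section

/-!
The elimination for period four.
-/

namespace Pool.Agent.Lib_helper5.K4

open Finset LK Pool.Agent.LibH4 Pool.Agent.LibH4.Ker Pool.Agent.LibH4.T6 Pool.Agent.LibH4.KF

/-- membership of a triple -/
def memT (c : ℕ × ℕ × ℕ) (L : List (ℕ × ℕ × ℕ)) : Bool :=
  @List.rec (ℕ × ℕ × ℕ) (fun _ => Bool) false (fun x _ ih =>
    @Bool.rec (fun _ => Bool) ih true (andB (andB (Nat.beq x.1 c.1) (Nat.beq x.2.1 c.2.1))
      (Nat.beq x.2.2 c.2.2))) L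

lemma memT_spec {c : ℕ × ℕ × ℕ} {L : List (ℕ × ℕ × ℕ)} (h : memT c L = true) : c ∈ L := by
  induction L with
  | nil => exact absurd h (by simp [memT])
  | cons x L ih =>
    have h' : @Bool.rec (fun _ => Bool) (memT c L) true (andB (andB (Nat.beq x.1 c.1)
      (Nat.beq x.2.1 c.2.1)) (Nat.beq x.2.2 c.2.2)) = true := h
    cases hb : (andB (andB (Nat.beq x.1 c.1) (Nat.beq x.2.1 c.2.1)) (Nat.beq x.2.2 c.2.2)) with
    | false => rw [hb] at h'; simp [ih h']
    | true =>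
      obtain ⟨h1, h2⟩ := andB_spec hb
      obtain ⟨h3, h4⟩ := andB_spec h1
      have e1 := Nat.eq_of_beq_eq_true h2
      have e2 := Nat.eq_of_beq_eq_true h3
      have e3 := Nat.eq_of_beq_eq_true h4
      have : c = x := Prod.ext e2.symm (Prod.ext e3.symm e1.symm)
      simp [this]

/-- all odd classes modulo 8 are in the list up to sign -/
def ckD8 : Bool :=
  allR (fun a => allR (fun b => allR (fun t =>
    impB (Nat.beq (Nat.mod (Nat.mul a (Nat.mul b t)) (nat_lit 2)) (nat_lit 1))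
      (@Bool.rec (fun _ => Bool) (memT (Nat.mod (Nat.sub (nat_lit 8) a) (nat_lit 8),
        Nat.mod (Nat.sub (nat_lit 8) b) (nat_lit 8), t) D8) true (memT (a, b, t) D8)))
      (nat_lit 8)) (nat_lit 8)) (nat_lit 8)

lemma ckD8_true : ckD8 = true := by decide +kernel

lemma mem_D8 {Q : ℕ} {a b t : ℤ} (S : Sys Q a b t) : cl 8 a b t ∈ D8 ∨ cl 8 (-a) (-b) t ∈ D8 := by
  have h := allR_spec (allR_spec (allR_spec ckD8_true (rs 8 a) (rs_lt a)) (rs 8 b) (rs_lt b))
    (rs 8 t) (rs_lt t)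
  have i8 : ∀ x : ℤ, ((rs 8 x : ℕ) : ℤ) = x % 8 := fun x => ZMod.val_intCast x
  have o : ∀ x : ℤ, x % 2 = 1 → rs 8 x % 2 = 1 := by
    intro x hx
    have := i8 x
    omega
  have ho : Nat.beq (Nat.mod (Nat.mul (rs 8 a) (Nat.mul (rs 8 b) (rs 8 t))) (nat_lit 2))
      (nat_lit 1) = true := by
    have e : (rs 8 a * (rs 8 b * rs 8 t)) % 2 = 1 := by
      rw [Nat.mul_mod, Nat.mul_mod (rs 8 b), o a S.oa, o b S.ob, o t S.ot]
    change Nat.beq ((rs 8 a * (rs 8 b * rs 8 t)) % 2) 1 = true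
    rw [e]
    rfl
  have h := impB_spec h ho
  rw [rs_opp, rs_opp] at h
  cases hb : memT (rs 8 a, rs 8 b, rs 8 t) D8 with
  | false => rw [hb] at h; exact Or.inr (memT_spec h)
  | true => exact Or.inl (memT_spec hb)

lemma stB_all : ∀ x ∈ D8, stB x = true :=
  List.forall_mem_cons.2 ⟨stB_0,
  List.forall_mem_cons.2 ⟨stB_1,
  List.forall_mem_cons.2 ⟨stB_2,
  List.forall_mem_cons.2 ⟨stB_3,
  List.forall_mem_cons.2 ⟨stB_4,
  List.forall_mem_cons.2 ⟨stB_5,
  List.forall_mem_cons.2 ⟨stB_6,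
  List.forall_mem_cons.2 ⟨stB_7,
  List.forall_mem_cons.2 ⟨stB_8,
  List.forall_mem_cons.2 ⟨stB_9,
  List.forall_mem_cons.2 ⟨stB_10,
  List.forall_mem_cons.2 ⟨stB_11,
  List.forall_mem_cons.2 ⟨stB_12,
  List.forall_mem_cons.2 ⟨stB_13,
  List.forall_mem_cons.2 ⟨stB_14,
  List.forall_mem_cons.2 ⟨stB_15,
  List.forall_mem_cons.2 ⟨stB_16,
  List.forall_mem_cons.2 ⟨stB_17,
  List.forall_mem_cons.2 ⟨stB_18,
  List.forall_mem_cons.2 ⟨stB_19,
  List.forall_mem_cons.2 ⟨stB_20,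
  List.forall_mem_cons.2 ⟨stB_21,
  List.forall_mem_cons.2 ⟨stB_22,
  List.forall_mem_cons.2 ⟨stB_23,
  List.forall_mem_cons.2 ⟨stB_24,
  List.forall_mem_cons.2 ⟨stB_25,
  List.forall_mem_cons.2 ⟨stB_26,
  List.forall_mem_cons.2 ⟨stB_27,
  List.forall_mem_cons.2 ⟨stB_28,
  List.forall_mem_cons.2 ⟨stB_29,
  List.forall_mem_cons.2 ⟨stB_30,
  List.forall_mem_cons.2 ⟨stB_31,
  (List.forall_mem_nil _)⟩⟩⟩⟩⟩⟩⟩⟩⟩⟩⟩⟩⟩⟩⟩⟩⟩⟩⟩⟩⟩⟩⟩⟩⟩⟩⟩⟩⟩⟩⟩⟩

/-- stage A -/
lemma stageA {Q : ℕ} {a b t : ℤ} (S : Sys Q a b t) (hQ : 38 ∣ Q) (h8 : cl 8 a b t ∈ D8) :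
    c152 a b t ∈ S152 := by
  have ha : rs 19 a < 19 := rs_lt a
  have hb : rs 19 b < 0 + 19 := by rw [zero_add]; exact rs_lt b
  have key : ∀ x : ℕ, stA x 0 19 = true → rs 19 a = x → c152 a b t ∈ S152 := by
    intro x hx e
    rw [← e] at hx
    exact stA_spec S hQ h8 hx (Nat.zero_le _) hb
  generalize e : rs 19 a = x at ha
  interval_cases x
  · exact key 0 stA_0 e
  · exact key 1 stA_1 e
  · exact key 2 stA_2 e
  · exact key 3 stA_3 e
  · exact key 4 stA_4 e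
  · exact key 5 stA_5 e
  · exact key 6 stA_6 e
  · exact key 7 stA_7 e
  · exact key 8 stA_8 e
  · exact key 9 stA_9 e
  · exact key 10 stA_10 e
  · exact key 11 stA_11 e
  · exact key 12 stA_12 e
  · exact key 13 stA_13 e
  · exact key 14 stA_14 e
  · exact key 15 stA_15 e
  · exact key 16 stA_16 e
  · exact key 17 stA_17 e
  · exact key 18 stA_18 e

/-- stage B -/
lemma stageB {Q : ℕ} {a b t : ℤ} (S : Sys Q a b t) (hQ : 190 ∣ Q) (h8 : cl 8 a b t ∈ D8) :
    c760 a b t ∈ S760 :=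
  stB_spec S hQ (stageA S (Dvd.dvd.trans (by norm_num) hQ) h8) (stB_all _ h8)

/-- stage C -/
lemma stageC {Q : ℕ} {a b t : ℤ} (S : Sys Q a b t) (hQ : 2470 ∣ Q)
    (hc : c760 a b t ∈ S760) : c9880 a b t ∈ S9880 := by
  have ha : rs 13 a < 13 := rs_lt a
  rcases Nat.lt_or_ge (rs 13 a) 1 with h0 | h0
  · exact stC_spec (lo := 0) (n := 1) S hQ hc stC_0 (by omega) (by omega)
  rcases Nat.lt_or_ge (rs 13 a) 2 with h1 | h1
  · exact stC_spec (lo := 1) (n := 1) S hQ hc stC_1 (by omega) (by omega)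
  rcases Nat.lt_or_ge (rs 13 a) 3 with h2 | h2
  · exact stC_spec (lo := 2) (n := 1) S hQ hc stC_2 (by omega) (by omega)
  rcases Nat.lt_or_ge (rs 13 a) 4 with h3 | h3
  · exact stC_spec (lo := 3) (n := 1) S hQ hc stC_3 (by omega) (by omega)
  rcases Nat.lt_or_ge (rs 13 a) 5 with h4 | h4
  · exact stC_spec (lo := 4) (n := 1) S hQ hc stC_4 (by omega) (by omega)
  rcases Nat.lt_or_ge (rs 13 a) 6 with h5 | h5
  · exact stC_spec (lo := 5) (n := 1) S hQ hc stC_5 (by omega) (by omega)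
  rcases Nat.lt_or_ge (rs 13 a) 7 with h6 | h6
  · exact stC_spec (lo := 6) (n := 1) S hQ hc stC_6 (by omega) (by omega)
  rcases Nat.lt_or_ge (rs 13 a) 8 with h7 | h7
  · exact stC_spec (lo := 7) (n := 1) S hQ hc stC_7 (by omega) (by omega)
  rcases Nat.lt_or_ge (rs 13 a) 9 with h8 | h8
  · exact stC_spec (lo := 8) (n := 1) S hQ hc stC_8 (by omega) (by omega)
  rcases Nat.lt_or_ge (rs 13 a) 10 with h9 | h9
  · exact stC_spec (lo := 9) (n := 1) S hQ hc stC_9 (by omega) (by omega)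
  rcases Nat.lt_or_ge (rs 13 a) 11 with h10 | h10
  · exact stC_spec (lo := 10) (n := 1) S hQ hc stC_10 (by omega) (by omega)
  rcases Nat.lt_or_ge (rs 13 a) 12 with h11 | h11
  · exact stC_spec (lo := 11) (n := 1) S hQ hc stC_11 (by omega) (by omega)
  exact stC_spec (lo := 12) (n := 1) S hQ hc stC_12 (by omega) (by omega)

/-- stage D -/
lemma stageD {Q : ℕ} {a b t : ℤ} (S : Sys Q a b t) (hQ : 17290 ∣ Q)
    (hc : c9880 a b t ∈ S9880) : c69160 a b t ∈ S69160a := by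
  have ha : rs 7 a < 7 := rs_lt a
  rcases Nat.lt_or_ge (rs 7 a) 1 with h0 | h0
  · exact stD_spec (lo := 0) (n := 1) S hQ hc stD_0 (by omega) (by omega)
  rcases Nat.lt_or_ge (rs 7 a) 2 with h1 | h1
  · exact stD_spec (lo := 1) (n := 1) S hQ hc stD_1 (by omega) (by omega)
  rcases Nat.lt_or_ge (rs 7 a) 3 with h2 | h2
  · exact stD_spec (lo := 2) (n := 1) S hQ hc stD_2 (by omega) (by omega)
  rcases Nat.lt_or_ge (rs 7 a) 4 with h3 | h3
  · exact stD_spec (lo := 3) (n := 1) S hQ hc stD_3 (by omega) (by omega)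
  rcases Nat.lt_or_ge (rs 7 a) 5 with h4 | h4
  · exact stD_spec (lo := 4) (n := 1) S hQ hc stD_4 (by omega) (by omega)
  rcases Nat.lt_or_ge (rs 7 a) 6 with h5 | h5
  · exact stD_spec (lo := 5) (n := 1) S hQ hc stD_5 (by omega) (by omega)
  exact stD_spec (lo := 6) (n := 1) S hQ hc stD_6 (by omega) (by omega)

/-- stage E -/
lemma stageE {Q : ℕ} {a b t : ℤ} (S : Sys Q a b t) (hQ : 293930 ∣ Q)
    (hc : c69160 a b t ∈ S69160) : c1175720 a b t ∈ S1175720 := by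
  have ha : rs 17 a < 17 := rs_lt a
  rcases Nat.lt_or_ge (rs 17 a) 1 with h0 | h0
  · exact stE_spec (lo := 0) (n := 1) S hQ hc stE_0 (by omega) (by omega)
  rcases Nat.lt_or_ge (rs 17 a) 2 with h1 | h1
  · exact stE_spec (lo := 1) (n := 1) S hQ hc stE_1 (by omega) (by omega)
  rcases Nat.lt_or_ge (rs 17 a) 3 with h2 | h2
  · exact stE_spec (lo := 2) (n := 1) S hQ hc stE_2 (by omega) (by omega)
  rcases Nat.lt_or_ge (rs 17 a) 4 with h3 | h3
  · exact stE_spec (lo := 3) (n := 1) S hQ hc stE_3 (by omega) (by omega)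
  rcases Nat.lt_or_ge (rs 17 a) 5 with h4 | h4
  · exact stE_spec (lo := 4) (n := 1) S hQ hc stE_4 (by omega) (by omega)
  rcases Nat.lt_or_ge (rs 17 a) 6 with h5 | h5
  · exact stE_spec (lo := 5) (n := 1) S hQ hc stE_5 (by omega) (by omega)
  rcases Nat.lt_or_ge (rs 17 a) 7 with h6 | h6
  · exact stE_spec (lo := 6) (n := 1) S hQ hc stE_6 (by omega) (by omega)
  rcases Nat.lt_or_ge (rs 17 a) 8 with h7 | h7
  · exact stE_spec (lo := 7) (n := 1) S hQ hc stE_7 (by omega) (by omega)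
  rcases Nat.lt_or_ge (rs 17 a) 9 with h8 | h8
  · exact stE_spec (lo := 8) (n := 1) S hQ hc stE_8 (by omega) (by omega)
  rcases Nat.lt_or_ge (rs 17 a) 10 with h9 | h9
  · exact stE_spec (lo := 9) (n := 1) S hQ hc stE_9 (by omega) (by omega)
  rcases Nat.lt_or_ge (rs 17 a) 11 with h10 | h10
  · exact stE_spec (lo := 10) (n := 1) S hQ hc stE_10 (by omega) (by omega)
  rcases Nat.lt_or_ge (rs 17 a) 12 with h11 | h11
  · exact stE_spec (lo := 11) (n := 1) S hQ hc stE_11 (by omega) (by omega)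
  rcases Nat.lt_or_ge (rs 17 a) 13 with h12 | h12
  · exact stE_spec (lo := 12) (n := 1) S hQ hc stE_12 (by omega) (by omega)
  rcases Nat.lt_or_ge (rs 17 a) 14 with h13 | h13
  · exact stE_spec (lo := 13) (n := 1) S hQ hc stE_13 (by omega) (by omega)
  rcases Nat.lt_or_ge (rs 17 a) 15 with h14 | h14
  · exact stE_spec (lo := 14) (n := 1) S hQ hc stE_14 (by omega) (by omega)
  rcases Nat.lt_or_ge (rs 17 a) 16 with h15 | h15
  · exact stE_spec (lo := 15) (n := 1) S hQ hc stE_15 (by omega) (by omega)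
  exact stE_spec (lo := 16) (n := 1) S hQ hc stE_16 (by omega) (by omega)

/-- stage F -/
lemma stageF {Q : ℕ} {a b t : ℤ} (S : Sys Q a b t) (hQ : 881790 ∣ Q)
    (hc : c1175720 a b t ∈ S1175720) : c3527160 a b t ∈ S3527160 := by
  have ha : rs 3 a < 3 := rs_lt a
  exact stF_spec (lo := 0) (n := 3) S hQ hc stF_0 (by omega) (by omega)

/-- stage G -/
lemma stageG {Q : ℕ} {a b t : ℤ} (S : Sys Q a b t) (hQ : 9699690 ∣ Q)
    (hc : c3527160 a b t ∈ S3527160) : False := by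
  have ha : rs 11 a < 11 := rs_lt a
  exact stG_spec (lo := 0) (n := 11) S hQ hc stG_0 (by omega) (by omega)

/-- classes modulo 69160 -/
lemma to69160 {Q : ℕ} {a b t : ℤ} (S : Sys Q a b t) (hQ : 17290 ∣ Q) (h8 : cl 8 a b t ∈ D8) :
    c69160 a b t ∈ S69160 :=
  flt_spec S hQ (stageD S hQ (stageC S (Dvd.dvd.trans (by norm_num) hQ)
    (stageB S (Dvd.dvd.trans (by norm_num) hQ) h8))) fltD

lemma no_sys' {a b t : ℤ} (S : Sys 9699690 a b t) (h8 : cl 8 a b t ∈ D8) : False :=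
  stageG S dvd_rfl (stageF S (by norm_num) (stageE S (by norm_num) (to69160 S (by norm_num) h8)))

/-- the system has no solution -/
theorem no_sys {a b t : ℤ} (S : Sys 9699690 a b t) : False := by
  rcases mem_D8 S with h | h
  · exact no_sys' S h
  · exact no_sys' S.neg h

lemma prime_dvd_list {p : ℕ} (hp : p.Prime) {L : List ℕ} (hL : ∀ q ∈ L, q.Prime)
    (h : p ∣ L.prod) : p ∈ L := by
  obtain ⟨q, hq, h1⟩ := (Nat.Prime.prime hp).dvd_prod_iff.1 h
  rw [(Nat.prime_dvd_prime_iff_eq hp (hL q hq)).1 h1]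
  exact hq

/-- the family with `r = 7` -/
lemma no_7 {t : ℤ} (S : Sys 190 (3 : ℕ) ((3 : ℕ) * t - (2 : ℕ)) t) : False := by
  rcases mem_D8 S with h | h
  · have h1 := fam760_specF f760_7 (stageB S dvd_rfl h)
    exact absurd h1 (by simp)
  · have h1 := fam760_specN f760_7 (stageB S.neg dvd_rfl h)
    exact absurd h1 (by simp)

/-- the family with `r = 11` -/
lemma no_11 {t : ℤ} (S : Sys 17290 (5 : ℕ) ((5 : ℕ) * t - (2 : ℕ)) t) : False := by
  rcases mem_D8 S with h | h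
  · exact famX_specF fX_11 (to69160 S dvd_rfl h)
  · exact famX_specN fX_11 (to69160 S.neg dvd_rfl h)

/-- the family with `r = 13` -/
lemma no_13 {t : ℤ} (S : Sys 22610 (3 : ℕ) ((3 : ℕ) * t - (4 : ℕ)) t) : False := by
  have key : andB (Nat.beq (rs 8 t) (nat_lit 1)) (andB (Nat.beq (rs 19 t) (nat_lit 1))
      (Nat.beq (rs 5 t) (nat_lit 1))) = true := by
    rcases mem_D8 S with h | h
    · exact fam760_specF f760_13 (stageB S (by norm_num) h)
    · exact fam760_specN f760_13 (stageB S.neg (by norm_num) h)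
  obtain ⟨h1, h2⟩ := andB_spec key
  obtain ⟨h3, h4⟩ := andB_spec h2
  exact famB_spec S dvd_rfl (Nat.eq_of_beq_eq_true h1) (Nat.eq_of_beq_eq_true h3)
    (Nat.eq_of_beq_eq_true h4) fB_3

/-- the families with `r = 19` -/
lemma no_19a {t : ℤ} (S : Sys 910 (3 : ℕ) ((3 : ℕ) * t - (6 : ℕ)) t) : False :=
  famA_spec S dvd_rfl fA_3
lemma no_19b {t : ℤ} (S : Sys 910 (9 : ℕ) ((9 : ℕ) * t - (2 : ℕ)) t) : False :=
  famA_spec S dvd_rfl fA_9

section Main

variable {a b B : ℕ} {m r : ℤ}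
  [IsDomain (QuadraticAlgebra ℤ m (B : ℤ))] [UniqueFactorizationMonoid (QuadraticAlgebra ℤ m (B : ℤ))]

/-- the system for a list of primes -/
lemma sys_list (h : E4.Par a b B m r) (hm2 : m % 2 = 1) (hB2 : B % 2 = 1) (ha2 : a % 2 = 1)
    (hm : 19 < m) (L : List ℕ) (hL : ∀ q ∈ L, q.Prime) (hL' : ∀ q ∈ L, q ≤ 19)
    (hr : ∀ q ∈ L, q ≠ 2 → (q : ℤ) ≠ r) {Q : ℕ} (hQ : Q = L.prod) :
    ∃ t : ℤ, zB a b t = B ∧ zm a b t = m ∧ zr a b t = r ∧ Sys Q a b t := by
  subst hQ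
  refine sys_of h hm2 hB2 ha2 (List.prod_ne_zero fun h0 => Nat.not_prime_zero (hL 0 h0)) ?_
  intro p hp hp2 hd
  have h1 := prime_dvd_list hp hL hd
  have h2 := hL' p h1
  exact ⟨by omega, hr p h1 hp2⟩

/-- **elimination for period four, odd first partial quotient** -/
theorem elim4 (h : E4.Par a b B m r) (hm2 : m % 2 = 1) (hB2 : B % 2 = 1) (ha2 : a % 2 = 1)
    (ha3 : 3 ≤ a) (hm : 19 < m) : False := by
  have e1 := h.e1
  have hr := h.hr
  -- `a` divides `r - 1`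
  have hdiv : (a : ℤ) ∣ r - 1 := ⟨B - m * a, by rw [e1]; ring⟩
  have fam : ∀ t : ℤ, ∀ a0 s : ℕ, a = a0 → zr a b t = r → r = 1 + a0 * s → 
      (b : ℤ) = (a0 : ℤ) * t - s := by
    intro t a0 s h1 h2 h3
    subst h1
    have h4 : (a : ℤ) * (a * t - b) = a * s := by
      rw [← h2] at h3
      unfold zr at h3
      linear_combination h3
    have h5 := mul_left_cancel₀ (by positivity : (a : ℤ) ≠ 0) h4
    linarith
  have hcast : ∀ a0 : ℕ, a ≤ a0 → a = 3 ∨ a = 5 ∨ a = 7 ∨ a = 9 ∨ 10 < a0 := by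
    intro a0 h0
    omega
  by_cases r3 : r = 3
  · have := Int.le_of_dvd (by omega) hdiv
    omega
  by_cases r5 : r = 5
  · rw [r5] at hdiv
    have := Int.le_of_dvd (by omega) hdiv
    have : a = 3 := by omega
    rw [this] at hdiv
    norm_num at hdiv
  by_cases r17 : r = 17
  · rw [r17] at hdiv
    have h1 := Int.le_of_dvd (by omega) hdiv
    have h2 : a = 3 ∨ a = 5 ∨ a = 7 ∨ a = 9 ∨ a = 11 ∨ a = 13 ∨ a = 15 := by omega
    rcases h2 with h2 | h2 | h2 | h2 | h2 | h2 | h2 <;> rw [h2] at hdiv <;> norm_num at hdiv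
  by_cases r7 : r = 7
  · rw [r7] at hdiv
    have h1 := Int.le_of_dvd (by omega) hdiv
    have h2 : a = 3 ∨ a = 5 := by omega
    rcases h2 with h2 | h2
    · obtain ⟨t, -, -, hz, S⟩ := sys_list h hm2 hB2 ha2 hm [2, 5, 19] (by decide) (by decide)
        (by rw [r7]; decide) (Q := 190) (by norm_num)
      have hb := fam t 3 2 h2 hz (by rw [r7]; norm_num)
      rw [hb, h2] at S
      exact no_7 S
    · rw [h2] at hdiv; norm_num at hdiv
  by_cases r11 : r = 11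
  · rw [r11] at hdiv
    have h1 := Int.le_of_dvd (by omega) hdiv
    have h2 : a = 3 ∨ a = 5 ∨ a = 7 ∨ a = 9 := by omega
    rcases h2 with h2 | h2 | h2 | h2
    · rw [h2] at hdiv; norm_num at hdiv
    · obtain ⟨t, -, -, hz, S⟩ := sys_list h hm2 hB2 ha2 hm [2, 5, 7, 13, 19] (by decide)
        (by decide) (by rw [r11]; decide) (Q := 17290) (by norm_num)
      have hb := fam t 5 2 h2 hz (by rw [r11]; norm_num)
      rw [hb, h2] at S
      exact no_11 S
    · rw [h2] at hdiv; norm_num at hdiv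
    · rw [h2] at hdiv; norm_num at hdiv
  by_cases r13 : r = 13
  · rw [r13] at hdiv
    have h1 := Int.le_of_dvd (by omega) hdiv
    have h2 : a = 3 ∨ a = 5 ∨ a = 7 ∨ a = 9 ∨ a = 11 := by omega
    rcases h2 with h2 | h2 | h2 | h2 | h2
    · obtain ⟨t, -, -, hz, S⟩ := sys_list h hm2 hB2 ha2 hm [2, 5, 7, 17, 19] (by decide)
        (by decide) (by rw [r13]; decide) (Q := 22610) (by norm_num)
      have hb := fam t 3 4 h2 hz (by rw [r13]; norm_num)
      rw [hb, h2] at S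
      exact no_13 S
    all_goals rw [h2] at hdiv; norm_num at hdiv
  by_cases r19 : r = 19
  · rw [r19] at hdiv
    have h1 := Int.le_of_dvd (by omega) hdiv
    have h2 : a = 3 ∨ a = 5 ∨ a = 7 ∨ a = 9 ∨ a = 11 ∨ a = 13 ∨ a = 15 ∨ a = 17 := by omega
    rcases h2 with h2 | h2 | h2 | h2 | h2 | h2 | h2 | h2
    · obtain ⟨t, -, -, hz, S⟩ := sys_list h hm2 hB2 ha2 hm [2, 5, 7, 13] (by decide)
        (by decide) (by rw [r19]; decide) (Q := 910) (by norm_num)
      have hb := fam t 3 6 h2 hz (by rw [r19]; norm_num)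
      rw [hb, h2] at S
      exact no_19a S
    · rw [h2] at hdiv; norm_num at hdiv
    · rw [h2] at hdiv; norm_num at hdiv
    · obtain ⟨t, -, -, hz, S⟩ := sys_list h hm2 hB2 ha2 hm [2, 5, 7, 13] (by decide)
        (by decide) (by rw [r19]; decide) (Q := 910) (by norm_num)
      have hb := fam t 9 2 h2 hz (by rw [r19]; norm_num)
      rw [hb, h2] at S
      exact no_19b S
    all_goals rw [h2] at hdiv; norm_num at hdiv
  obtain ⟨t, -, -, -, S⟩ := sys_list h hm2 hB2 ha2 hm [2, 3, 5, 7, 11, 13, 17, 19] (by decide)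
    (by decide) (by
      intro q hq _
      simp only [List.mem_cons, List.not_mem_nil, or_false] at hq
      rcases hq with rfl | rfl | rfl | rfl | rfl | rfl | rfl | rfl <;> push_cast <;> omega)
    (Q := 9699690) (by norm_num)
  exact no_sys S

end Main

end Pool.Agent.Lib_helper5.K4


end
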