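import Mathlib
import Pool.Agent.RQM.C15
import Pool.Agent.RQM.C28
import Pool.Agent.RQM.C38
import Pool.Agent.RQM.C39
import Pool.Agent.RQM.C42
import Pool.Agent.RQM.C45

/-! Parts: UP.Low -/

namespace Pool.Agent.LibH4
end Pool.Agent.LibH4
namespace Pool.Agent.LibH4.CFO
end Pool.Agent.LibH4.CFO
namespace Pool.Agent.Lib_helper5
end Pool.Agent.Lib_helper5

section

/-!
Period lengths one and two are of Richaud–Degert type.
-/

namespace Pool.Agent.UP

open scoped NumberField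
open Real Function Pool.Agent.LibH4 Pool.Agent.Lib_helper5 CFO

/-- `d`, the period length, and auxiliary data, for the fields of Richaud–Degert type -/
def tab : List (ℕ × ℕ × ℤ × ℤ) := [
  (2, 1, 2, 2), (3, 2, 3, 2), (5, 1, 2, 1), (6, 2, 4, 4), (7, 4, 5, 4),
  (11, 2, 6, 6), (13, 1, 3, 3), (14, 4, 7, 6), (17, 3, 4, 3), (21, 2, 4, 3),
  (23, 4, 9, 8), (29, 1, 5, 5), (33, 4, 5, 5), (37, 3, 6, 5), (38, 2, 12, 12),
  (47, 4, 13, 12), (53, 1, 7, 7), (62, 4, 15, 14), (69, 4, 8, 7), (77, 2, 8, 7),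
  (83, 2, 18, 18), (93, 2, 9, 9), (101, 3, 10, 9), (141, 4, 11, 11), (167, 4, 25, 24),
  (173, 1, 13, 13), (197, 3, 14, 13), (213, 4, 14, 13), (227, 2, 30, 30), (237, 2, 15, 15),
  (293, 1, 17, 17), (398, 4, 39, 38), (413, 4, 20, 19), (437, 2, 20, 19), (453, 2, 21, 21),
  (573, 4, 23, 23), (677, 3, 26, 25), (717, 4, 26, 25), (1077, 4, 32, 31), (1133, 2, 33, 33),
  (1253, 2, 35, 35), (1293, 4, 35, 35), (1757, 4, 41, 41)]

lemma tab_chk : ∀ e ∈ tab, chk e.1 e.2.1 e.2.2.1 e.2.2.2 = true := by decide +kernel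

lemma tab_all : ∀ d ∈ RDF.list43, ∃ e ∈ tab, e.1 = d := by decide +kernel

lemma tab_mem : ∀ e ∈ tab, e.1 ∈ RDF.list43 := by decide +kernel

/-- the fields of Richaud–Degert type and period length `L` -/
def rdl (L : ℕ) : List ℕ := (tab.filter fun e => e.2.1 = L).map fun e => e.1

/-- fields of Richaud–Degert type with unique factorisation -/
theorem rd_period (d L : ℕ) (h1 : 1 < d) (hsq : Squarefree d) (m r : ℤ) (hm : 0 < m)
    (hr : r ∣ 4 * m) (hd : (d : ℤ) = m ^ 2 + r) (hper : minimalPeriod gsh (gsh (omg d)) = L)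
    (hU : UniqueFactorizationMonoid (𝓞 (KQ d))) : d ∈ rdl L := by
  have h : d ∈ {d : ℕ | 1 < d ∧ Squarefree d ∧
      (∃ m r : ℤ, 0 < m ∧ r ∣ 4 * m ∧ (d : ℤ) = m ^ 2 + r) ∧
      UniqueFactorizationMonoid (𝓞 (KQ d))} := ⟨h1, hsq, ⟨m, r, hm, hr, hd⟩, hU⟩
  rw [RDF.rd_all] at h
  obtain ⟨e, he, rfl⟩ := tab_all d h
  have h2 := period_of_chk (tab_chk e he) h1 hsq
  unfold rdl
  rw [List.mem_map]
  refine ⟨e, ?_, rfl⟩
  rw [List.mem_filter]
  refine ⟨he, ?_⟩
  rw [decide_eq_true_eq, ← hper, h2]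

theorem rdl_spec {d L : ℕ} (h : d ∈ rdl L) : 1 < d ∧ Squarefree d ∧
    minimalPeriod gsh (gsh (omg d)) = L ∧ UniqueFactorizationMonoid (𝓞 (KQ d)) := by
  unfold rdl at h
  rw [List.mem_map] at h
  obtain ⟨e, he, rfl⟩ := h
  rw [List.mem_filter, decide_eq_true_eq] at he
  have h2 : e.1 ∈ {d | d ∈ RDF.list43} := tab_mem e he.1
  rw [← RDF.rd_all] at h2
  obtain ⟨h1, hsq, -, hU⟩ := h2
  exact ⟨h1, hsq, he.2 ▸ period_of_chk (tab_chk e he.1) h1 hsq, hU⟩

/-- period length one -/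
theorem one_iff (d : ℕ) (h1 : 1 < d) (hsq : Squarefree d) :
    (minimalPeriod gsh (gsh (omg d)) = 1 ∧ UniqueFactorizationMonoid (𝓞 (KQ d))) ↔ d ∈ rdl 1 := by
  constructor
  · rintro ⟨hper, hU⟩
    have hper0 := hper
    obtain ⟨m, B, s, x, c, h, hx1, hm, hB, hd⟩ := exists_data d h1 hsq
    rw [← hx1] at hper
    have hfix : gsh^[1] (x 1) = x 1 := by
      have := isPeriodicPt_minimalPeriod gsh (x 1)
      rw [hper] at this
      exact this
    have h10 := x_per h hfix 0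
    rw [zero_add] at h10
    obtain ⟨-, -, h2⟩ := state_eq h h10
    rw [QS_one h, QS_zero] at h2
    subst h2
    rcases hd with ⟨h4, hd, hB2⟩ | ⟨h4, hd, hB2⟩
    · exact rd_period d 1 h1 hsq B 4 (by omega) ⟨B, by ring⟩ (by rw [hd]; ring) hper0 hU
    · obtain ⟨b, rfl⟩ : ∃ b, B = 2 * b := ⟨B / 2, by omega⟩
      exact rd_period d 1 h1 hsq b 1 (by omega) ⟨4 * b, by ring⟩ (by linarith) hper0 hU
  · intro h
    obtain ⟨-, -, h3, h4⟩ := rdl_spec h
    exact ⟨h3, h4⟩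

/-- period length two -/
theorem two_iff (d : ℕ) (h1 : 1 < d) (hsq : Squarefree d) :
    (minimalPeriod gsh (gsh (omg d)) = 2 ∧ UniqueFactorizationMonoid (𝓞 (KQ d))) ↔ d ∈ rdl 2 := by
  constructor
  · rintro ⟨hper, hU⟩
    have hper0 := hper
    obtain ⟨m, B, s, x, c, h, hx1, hm, hB, hd⟩ := exists_data d h1 hsq
    rw [← hx1] at hper
    have hfix : gsh^[2] (x 1) = x 1 := by
      have := isPeriodicPt_minimalPeriod gsh (x 1)
      rw [hper] at this
      exact this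
    have h20 := x_per h hfix 0
    rw [zero_add] at h20
    obtain ⟨-, -, h2⟩ := state_eq h h20
    have q1 := QP_succ (m := m) (B := B) (c := c) 0
    rw [QS_zero, zero_add] at q1
    have s2 := QS_succ (m := m) (B := B) (c := c) 1
    rw [q1, QR_one h, QS_one h] at s2
    rw [QS_zero] at h2
    rw [show (1 + 1 : ℕ) = 2 from rfl, h2] at s2
    have hc := (inv_of h 1).cpos
    have hBm : B = m * c 1 := by
      have h3 : (c 1 : ℤ) * (B - m * c 1) = 0 := by linear_combination -s2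
      rcases mul_eq_zero.1 h3 with h4 | h4
      · omega
      · linarith
    rcases hd with ⟨h4, hd, hB2⟩ | ⟨h4, hd, hB2⟩
    · exact rd_period d 2 h1 hsq B (4 * m) (by omega) ⟨c 1, by rw [hBm]; ring⟩ (by rw [hd])
        hper0 hU
    · obtain ⟨b, rfl⟩ : ∃ b, B = 2 * b := ⟨B / 2, by omega⟩
      exact rd_period d 2 h1 hsq b m (by omega) ⟨2 * c 1, by linear_combination 2 * hBm⟩
        (by linarith) hper0 hU
  · intro h
    obtain ⟨-, -, h3, h4⟩ := rdl_spec h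
    exact ⟨h3, h4⟩

end Pool.Agent.UP


end
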