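import Mathlib
import Pool.Agent.RQM.C119
import Pool.Agent.RQM.C120
import Pool.Agent.RQM.C126
import Pool.Agent.RQM.C131
import Pool.Agent.RQM.C132
import Pool.Agent.RQM.C135
import Pool.Agent.RQM.C138
import Pool.Agent.RQM.C140
import Pool.Agent.RQM.C141
import Pool.Agent.RQM.C142
import Pool.Agent.RQM.C143
import Pool.Agent.RQM.C144
import Pool.Agent.RQM.C145
import Pool.Agent.RQM.C146
import Pool.Agent.RQM.C147
import Pool.Agent.RQM.C15
import Pool.Agent.RQM.C150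
import Pool.Agent.RQM.C153
import Pool.Agent.RQM.C154
import Pool.Agent.RQM.C155
import Pool.Agent.RQM.C161
import Pool.Agent.RQM.C28
import Pool.Agent.RQM.C40
import Pool.Agent.RQM.C41
import Pool.Agent.RQM.C42
import Pool.Agent.RQM.C43
import Pool.Agent.RQM.C46
import Pool.Agent.RQM.C47
import Pool.Agent.RQM.C48
import Pool.Agent.RQM.C54
import Pool.Agent.RQM.C94

/-! Parts: Lib_helper4.S7.P1117, Lib_helper4.S7.P7All, UP.Odd, UP.All -/

namespace Pool.Agent.LibH4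
end Pool.Agent.LibH4
namespace Pool.Agent.LibH4.CFO
end Pool.Agent.LibH4.CFO
namespace Pool.Agent.Lib_helper5
end Pool.Agent.Lib_helper5
namespace Pool.Agent.Lib_helper5.LK
end Pool.Agent.Lib_helper5.LK
namespace Pool.Agent.Lib_helper5.TB
end Pool.Agent.Lib_helper5.TB

section

/-!
Period seven: the steps to the primes `11` and `17`.
-/

namespace Pool.Agent.LibH4.S7

open Pool.Agent.Lib_helper5 Pool.Agent.Lib_helper5.LK Pool.Agent.Lib_helper5.TB
  Pool.Agent.Lib_helper5.Lane Pool.Agent.LibH4.Ker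

theorem s11_all : ∀ BS ∈ BB, ∀ x < 11, ∃ Bs, x ∈ Bs ∧ chk11c e11 G11 BS Bs = true := by
  intro BS h
  simp only [BB, List.mem_cons, List.not_mem_nil, or_false] at h
  rcases h with rfl | rfl | rfl | rfl | rfl | rfl | rfl | rfl | rfl
  · exact s11_0
  · exact s11_1
  · exact s11_2
  · exact s11_3
  · exact s11_4
  · exact s11_5
  · exact s11_6
  · exact s11_7
  · exact s11_8

theorem f17_all : ∀ x < 17, ∃ Bs, x ∈ Bs ∧ chk17c e17 [] BF17 Bs = true := by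
  intro x hx
  interval_cases x
  · exact ⟨_, by simp, f17_0⟩
  · exact ⟨_, by simp, f17_1⟩
  · exact ⟨_, by simp, f17_2⟩
  · exact ⟨_, by simp, f17_3⟩
  · exact ⟨_, by simp, f17_4⟩
  · exact ⟨_, by simp, f17_5⟩
  · exact ⟨_, by simp, f17_6⟩
  · exact ⟨_, by simp, f17_7⟩
  · exact ⟨_, by simp, f17_8⟩
  · exact ⟨_, by simp, f17_9⟩
  · exact ⟨_, by simp, f17_10⟩
  · exact ⟨_, by simp, f17_11⟩
  · exact ⟨_, by simp, f17_12⟩
  · exact ⟨_, by simp, f17_13⟩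
  · exact ⟨_, by simp, f17_14⟩
  · exact ⟨_, by simp, f17_15⟩
  · exact ⟨_, by simp, f17_16⟩

theorem g17_all : ∀ x < 17, ∃ Bs, x ∈ Bs ∧ chkG17 e17 G17 GS17 K17 Bs = true := by
  intro x hx
  interval_cases x
  · exact ⟨_, by simp, g17_0⟩
  · exact ⟨_, by simp, g17_1⟩
  · exact ⟨_, by simp, g17_2⟩
  · exact ⟨_, by simp, g17_3⟩
  · exact ⟨_, by simp, g17_4⟩
  · exact ⟨_, by simp, g17_5⟩
  · exact ⟨_, by simp, g17_6⟩
  · exact ⟨_, by simp, g17_7⟩
  · exact ⟨_, by simp, g17_8⟩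
  · exact ⟨_, by simp, g17_9⟩
  · exact ⟨_, by simp, g17_10⟩
  · exact ⟨_, by simp, g17_11⟩
  · exact ⟨_, by simp, g17_12⟩
  · exact ⟨_, by simp, g17_13⟩
  · exact ⟨_, by simp, g17_14⟩
  · exact ⟨_, by simp, g17_15⟩
  · exact ⟨_, by simp, g17_16⟩

/-- the first form is admissible -/
lemma ad_first {Q : ℕ} {a b c B m : ℤ} (S : Sys Q a b c B m) {p : ℕ} [NeZero p] (hp : p.Prime)
    (hp2 : p ≠ 2) (hQ : p ∣ Q) : adP p (rs p m) (rs p B) (rs p (-1)) = true :=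
  adP_of S hp hp2 hQ _ (List.mem_cons_self : (⟨m, B, -1, 0, -B⟩ : Fm) ∈ J7 a b c B m)

/-- **the steps to 11 and 17** -/
theorem st1117 {Q : ℕ} {a b c B m : ℤ} (S : Sys Q a b c B m)
    (hQ : 8 * 5 * 7 * 11 * 13 * 17 ∣ Q) (h8 : R8 a b c B m) :
    tup (cd 13 a b c B m) (cd 7 a b c B m) (cd 5 a b c B m) (cd 8 a b c B m)
      (cd 11 a b c B m) (cd 17 a b c B m) ∈ G17 := by
  obtain ⟨BS, hBS, bx, hbx, hin⟩ := h8
  have H11 := e11_holds S ((by norm_num : 40040 ∣ 8 * 5 * 7 * 11 * 13 * 17).trans hQ)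
  have H17 := e17_holds S ((by norm_num : 680680 ∣ 8 * 5 * 7 * 11 * 13 * 17).trans hQ)
  have a11 := ad_first S (p := 11) (by norm_num) (by norm_num)
    ((by norm_num : 11 ∣ 8 * 5 * 7 * 11 * 13 * 17).trans hQ)
  have a17 := ad_first S (p := 17) (by norm_num) (by norm_num)
    ((by norm_num : 17 ∣ 8 * 5 * 7 * 11 * 13 * 17).trans hQ)
  rcases chk11c_spec e11_ok H11 S.cl a11 (s11_all BS hBS) hbx hin with h | h
  · rcases bf_all BS hBS bx hbx with h1 | h1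
    · rw [h1] at h; exact absurd h (by simp)
    · exact absurd (chk17c_spec e17_ok H17 S.cl a17 f17_all h1 hin h) (by simp)
  · exact chkG17_of e17_ok H17 S.cl a17 loc17 g17_all h

end Pool.Agent.LibH4.S7


end

section

/-!
Period seven: the elimination.
-/

namespace Pool.Agent.LibH4.S7

open Pool.Agent.Lib_helper5 Pool.Agent.Lib_helper29

lemma elim_R8 {a b c B m : ℤ} (S : Sys QQ a b c B m) (h : R8 a b c B m) : False :=
  st19 S (by unfold QQ; decide) (st1117 S (by unfold QQ; decide) h)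

lemma elim_tri {a b c B m : ℤ} (S : Sys QQ a b c B m)
    (h : ∃ T ∈ P7.TRS, P7.InT (cd 13 a b c B m) (cd 7 a b c B m) (cd 5 a b c B m) T) : False := by
  rcases P7A.stageA2 S (by unfold QQ; decide) h with h8 | h8
  · exact elim_R8 S h8
  · exact elim_R8 S.neg h8

/-- **the system has no solution** -/
theorem elimInt (a b c B m : ℤ) (S : Sys QQ a b c B m) : False := by
  rcases P7.stageA1 S (by unfold QQ; decide) with h | h
  · exact elim_tri S h
  · exact elim_tri S.neg h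

/-- elimination of the large parameters -/
theorem elim7 {a b c B : ℕ} {m m2 m3 : ℤ} (h : E7.Par a b c B m m2 m3) (hm2 : m % 2 = 1)
    (hB2 : B % 2 = 1)
    [IsDomain (QuadraticAlgebra ℤ m (B : ℤ))]
    [UniqueFactorizationMonoid (QuadraticAlgebra ℤ m (B : ℤ))]
    (h1 : 23 < m) (h2 : 23 < m2) (h3 : 23 < m3) : False :=
  elimInt _ _ _ _ _ (sysQQ h hm2 hB2 h1 h2 h3)

end Pool.Agent.LibH4.S7


end

section

/-!
Class number one and period length one, three, five or seven.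
-/

namespace Pool.Agent.UP

open scoped NumberField
open Real Function Pool.Agent.LibH4 Pool.Agent.Lib_helper5 CFO

theorem five (d : ℕ) (h1 : 1 < d) (hsq : Squarefree d) :
    (minimalPeriod gsh (gsh (omg d)) = 5 ∧ UniqueFactorizationMonoid (𝓞 (KQ d))) ↔ d ∈ P5.l12 :=
  P5.five_iff (fun a b B m m' hP hm hB _ _ h1 h2 =>
    Pool.Agent.Lib_helper5.K5.elim5 a b B m m' hP hm hB h1 h2) d h1 hsq

theorem seven (d : ℕ) (h1 : 1 < d) (hsq : Squarefree d) :
    (minimalPeriod gsh (gsh (omg d)) = 7 ∧ UniqueFactorizationMonoid (𝓞 (KQ d))) ↔ d ∈ P7.l17 :=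
  P7.seven_iff (fun _ _ _ _ _ _ _ hP hm hB _ _ h1 h2 h3 =>
    S7.elim7 hP hm hB h1 h2 h3) d h1 hsq

/-- the forty-seven fields of odd period length at most seven -/
def l47 : List ℕ := [2, 5, 13, 17, 29, 37, 41, 53, 61, 89, 101, 109, 113, 137, 149, 157, 173, 181,
  197, 269, 293, 317, 373, 389, 397, 461, 509, 557, 653, 677, 773, 797, 853, 941, 997, 1013, 1493,
  1877, 1997, 2309, 2477, 2621, 2693, 3533, 3797, 4253, 4973]

lemma l47_eq : ∀ d : ℕ, d ∈ l47 ↔ (d ∈ rdl 1 ∨ d ∈ discs ∨ d ∈ P5.l12 ∨ d ∈ P7.l17) := by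
  have h1 : ∀ d ∈ l47, (d ∈ rdl 1 ∨ d ∈ discs ∨ d ∈ P5.l12 ∨ d ∈ P7.l17) := by decide +kernel
  have h2 : ∀ d ∈ rdl 1, d ∈ l47 := by decide +kernel
  have h3 : ∀ d ∈ discs, d ∈ l47 := by decide +kernel
  have h4 : ∀ d ∈ P5.l12, d ∈ l47 := by decide +kernel
  have h5 : ∀ d ∈ P7.l17, d ∈ l47 := by decide +kernel
  intro d
  constructor
  · exact h1 d
  · rintro (h | h | h | h)
    · exact h2 d h
    · exact h3 d h
    · exact h4 d h
    · exact h5 d h

/-- a squarefreeness test -/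
lemma sqf_of_chk {d : ℕ} (h0 : 0 < d) (hd : d < 5041)
    (h : ((List.range 71).all fun x => decide (x < 2) || decide (¬ x * x ∣ d)) = true) :
    Squarefree d := by
  rw [List.all_eq_true] at h
  intro x hx
  rw [Nat.isUnit_iff]
  by_contra hne
  have hx1 : x ≠ 0 := by
    rintro rfl
    simp only [mul_zero, zero_dvd_iff] at hx
    omega
  have hle : x * x ≤ d := Nat.le_of_dvd h0 hx
  have hx50 : x < 71 := by nlinarith
  have := h x (List.mem_range.2 hx50)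
  rw [Bool.or_eq_true, decide_eq_true_eq, decide_eq_true_eq] at this
  rcases this with h3 | h3
  · omega
  · exact h3 hx

lemma l47_chk : ∀ d ∈ l47, 1 < d ∧ d < 5041 ∧
    ((List.range 71).all fun x => decide (x < 2) || decide (¬ x * x ∣ d)) = true := by
  decide +kernel

lemma l47_sq (d : ℕ) (h : d ∈ l47) : 1 < d ∧ Squarefree d := by
  obtain ⟨h1, h2, h3⟩ := l47_chk d h
  exact ⟨h1, sqf_of_chk (by omega) h2 h3⟩

/-- **odd period lengths up to seven** -/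
theorem odd_iff (d : ℕ) (h1 : 1 < d) (hsq : Squarefree d) :
    ((minimalPeriod gsh (gsh (omg d)) % 2 = 1 ∧ minimalPeriod gsh (gsh (omg d)) ≤ 7) ∧
      UniqueFactorizationMonoid (𝓞 (KQ d))) ↔ d ∈ l47 := by
  rw [l47_eq, ← one_iff d h1 hsq, ← period_three_iff d h1 hsq, ← five d h1 hsq,
    ← seven d h1 hsq]
  constructor
  · rintro ⟨⟨h2, h3⟩, h4⟩
    have h5 : minimalPeriod gsh (gsh (omg d)) = 1 ∨ minimalPeriod gsh (gsh (omg d)) = 3 ∨
      minimalPeriod gsh (gsh (omg d)) = 5 ∨ minimalPeriod gsh (gsh (omg d)) = 7 := by omega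
    rcases h5 with h5 | h5 | h5 | h5
    · exact Or.inl ⟨h5, h4⟩
    · exact Or.inr (Or.inl ⟨h5, h4⟩)
    · exact Or.inr (Or.inr (Or.inl ⟨h5, h4⟩))
    · exact Or.inr (Or.inr (Or.inr ⟨h5, h4⟩))
  · rintro (⟨h, h4⟩ | ⟨h, h4⟩ | ⟨h, h4⟩ | ⟨h, h4⟩)
    all_goals exact ⟨⟨by rw [h], by omega⟩, h4⟩

end Pool.Agent.UP


end

section

/-!
Class number one and period length at most five, or seven.
-/

namespace Pool.Agent.UP

open scoped NumberField
open Real Function Pool.Agent.LibH4 Pool.Agent.Lib_helper5 CFO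

/-- the eighty-one fields -/
def l81 : List ℕ := [2, 3, 5, 6, 7, 11, 13, 14, 17, 21, 23, 29, 33, 37, 38, 41, 47, 53, 61, 62, 69, 77, 83, 89, 93,
  101, 109, 113, 133, 137, 141, 149, 157, 167, 173, 181, 197, 213, 227, 237, 269, 293, 317,
  373, 389, 397, 398, 413, 437, 453, 461, 509, 557, 573, 653, 677, 717, 773, 797, 853, 941,
  997, 1013, 1077, 1133, 1253, 1293, 1397, 1493, 1757, 1877, 1997, 2309, 2477, 2621, 2693,
  3053, 3533, 3797, 4253, 4973]

lemma l81_eq : ∀ d : ℕ, d ∈ l81 ↔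
    (d ∈ rdl 1 ∨ d ∈ rdl 2 ∨ d ∈ discs ∨ (d ∈ rdl 4 ∨ d ∈ P4.l8) ∨ d ∈ P5.l12 ∨ d ∈ P7.l17) := by
  have h1 : ∀ d ∈ l81,
      (d ∈ rdl 1 ∨ d ∈ rdl 2 ∨ d ∈ discs ∨ (d ∈ rdl 4 ∨ d ∈ P4.l8) ∨ d ∈ P5.l12 ∨ d ∈ P7.l17) := by
    decide +kernel
  have h2 : ∀ d ∈ rdl 1, d ∈ l81 := by decide +kernel
  have h3 : ∀ d ∈ rdl 2, d ∈ l81 := by decide +kernel
  have h4 : ∀ d ∈ discs, d ∈ l81 := by decide +kernel
  have h5 : ∀ d ∈ rdl 4, d ∈ l81 := by decide +kernel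
  have h6 : ∀ d ∈ P4.l8, d ∈ l81 := by decide +kernel
  have h7 : ∀ d ∈ P5.l12, d ∈ l81 := by decide +kernel
  have h8 : ∀ d ∈ P7.l17, d ∈ l81 := by decide +kernel
  intro d
  constructor
  · exact h1 d
  · rintro (h | h | h | (h | h) | h | h)
    · exact h2 d h
    · exact h3 d h
    · exact h4 d h
    · exact h5 d h
    · exact h6 d h
    · exact h7 d h
    · exact h8 d h

lemma l81_chk : ∀ d ∈ l81, 1 < d ∧ d < 5041 ∧
    ((List.range 71).all fun x => decide (x < 2) || decide (¬ x * x ∣ d)) = true := by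
  decide +kernel

lemma l81_sq (d : ℕ) (h : d ∈ l81) : 1 < d ∧ Squarefree d := by
  obtain ⟨h1, h2, h3⟩ := l81_chk d h
  exact ⟨h1, sqf_of_chk (by omega) h2 h3⟩

/-- the period length is positive -/
theorem period_pos (d : ℕ) (h1 : 1 < d) (hsq : Squarefree d) :
    0 < minimalPeriod gsh (gsh (omg d)) := by
  obtain ⟨m, B, s, x, c, h, hx1, hm, hB, -⟩ := exists_data d h1 hsq
  rw [← hx1]
  have hns : ¬ IsSquare (B ^ 2 + 4 * m) := by
    rintro ⟨z, hz⟩
    have h2 : s ^ 2 = (z : ℝ) ^ 2 := by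
      rw [h.sq, hz]
      push_cast
      ring
    rcases sq_eq_sq_iff_eq_or_eq_neg.1 h2 with h3 | h3
    · exact h.irr ⟨z, by rw [h3]; push_cast; rfl⟩
    · exact h.irr ⟨-z, by rw [h3]; push_cast; rfl⟩
  obtain ⟨X, Y, hXY, hY⟩ := Pell.exists_of_not_isSquare (d := B ^ 2 + 4 * m) (by positivity) hns
  refine SU.unit_per h hm hB (X := 2 * X) (Y := 2 * |Y|) ?_ (Or.inl ?_)
  · have := Int.one_le_abs hY
    omega
  · rw [mul_pow, mul_pow, sq_abs]
    linear_combination 4 * hXY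

/-- **period lengths up to five, and seven** -/
theorem short_iff (d : ℕ) (h1 : 1 < d) (hsq : Squarefree d) :
    ((minimalPeriod gsh (gsh (omg d)) ≤ 5 ∨ minimalPeriod gsh (gsh (omg d)) = 7) ∧
      UniqueFactorizationMonoid (𝓞 (KQ d))) ↔ d ∈ l81 := by
  rw [l81_eq, ← one_iff d h1 hsq, ← two_iff d h1 hsq, ← period_three_iff d h1 hsq,
    ← four_iff d h1 hsq, ← five d h1 hsq, ← seven d h1 hsq]
  constructor
  · rintro ⟨h2, h4⟩
    have h0 := period_pos d h1 hsq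
    have h5 : minimalPeriod gsh (gsh (omg d)) = 1 ∨ minimalPeriod gsh (gsh (omg d)) = 2 ∨
      minimalPeriod gsh (gsh (omg d)) = 3 ∨ minimalPeriod gsh (gsh (omg d)) = 4 ∨
      minimalPeriod gsh (gsh (omg d)) = 5 ∨ minimalPeriod gsh (gsh (omg d)) = 7 := by omega
    rcases h5 with h5 | h5 | h5 | h5 | h5 | h5
    · exact Or.inl ⟨h5, h4⟩
    · exact Or.inr (Or.inl ⟨h5, h4⟩)
    · exact Or.inr (Or.inr (Or.inl ⟨h5, h4⟩))
    · exact Or.inr (Or.inr (Or.inr (Or.inl ⟨h5, h4⟩)))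
    · exact Or.inr (Or.inr (Or.inr (Or.inr (Or.inl ⟨h5, h4⟩))))
    · exact Or.inr (Or.inr (Or.inr (Or.inr (Or.inr ⟨h5, h4⟩))))
  · rintro (⟨h, h4⟩ | ⟨h, h4⟩ | ⟨h, h4⟩ | ⟨h, h4⟩ | ⟨h, h4⟩ | ⟨h, h4⟩)
    all_goals exact ⟨by omega, h4⟩

end Pool.Agent.UP


end
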