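import Mathlib
import Pool.Agent.RQM.C12
import Pool.Agent.RQM.C40
import Pool.Agent.RQM.C41
import Pool.Agent.RQM.C44
import Pool.Agent.RQM.C48
import Pool.Agent.RQM.C52
import Pool.Agent.RQM.C65
import Pool.Agent.RQM.C89

/-! Parts: SU.EKer, SU.ECode, SU.EFold, SU.ERel, SU.EDfs, SU.EFront, SU.EDot, SU.EStage, SU.EStages, SU.ETj, SU.ETabC -/

namespace Pool.Agent.LibH4.CW
end Pool.Agent.LibH4.CW
namespace Pool.Agent.LibH4.Ker
end Pool.Agent.LibH4.Ker
namespace Pool.Agent.Lib_helper5
end Pool.Agent.Lib_helper5
namespace Pool.Agent.Lib_helper5.LK
end Pool.Agent.Lib_helper5.LK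
namespace Pool.Agent.Lib_helper5.TB
end Pool.Agent.Lib_helper5.TB

section

/-!
Real quadratic fields with small units: kernel functions of the elimination.
-/

namespace Pool.Agent.SU.EL

open Pool.Agent.LibH4.Ker Pool.Agent.LibH4.CW Pool.Agent.Lib_helper5.TB

/-! ### codes -/

/-- code of a form: position and first coefficient -/
def cdp (p P : ℕ) : ℕ := Nat.add p (Nat.mul (nat_lit 281474976710656) P)

/-- entry of the transition table -/
def npe (n NP p a : ℕ) : ℕ := Nat.mod (Nat.shiftRight NP (Nat.mul (nat_lit 16)
      (Nat.add (Nat.mul p n) (Nat.mod a n)))) (nat_lit 65536)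

/-- entry of the start table -/
def ste (n ST B m : ℕ) : ℕ :=
  Nat.mod (Nat.shiftRight ST (Nat.mul (nat_lit 24) (Nat.add (Nat.mul B n) m))) (nat_lit 16777216)

/-- linear function modulo `n` -/
def lin (n v b t : ℕ) : ℕ := Nat.mod (Nat.add (Nat.mul v t) b) n

/-- first position of a start entry -/
def ep0 (e : ℕ) : ℕ := Nat.mod e (nat_lit 256)
/-- second position of a start entry -/
def ep1 (e : ℕ) : ℕ := Nat.mod (Nat.shiftRight e (nat_lit 8)) (nat_lit 256)

/-- one step -/
def orbS (em : ℕ → ℕ → ℕ) (V n : ℕ) (ih : ℕ → ℕ → ℕ) (p P e : ℕ) : ℕ :=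
  Nat.add (em p P) (Nat.mul V
    (ih (Nat.mod e (nat_lit 256)) (Nat.mod (Nat.mul P (Nat.shiftRight e (nat_lit 8))) n)))

/-- packing along an orbit -/
def orbP (em : ℕ → ℕ → ℕ) (V n NP : ℕ) (par : Bool) (L : List (ℕ × ℕ)) : ℕ → ℕ → ℕ :=
  @List.rec _ (fun _ => ℕ → ℕ → ℕ)
    (fun p P => @Bool.rec (fun _ => ℕ) (em p P) (nat_lit 0) par)
    (fun x _ ih p P => orbS em V n ih p P (npe n NP p x.1)) L

/-- one step -/
def orbT (n : ℕ) (ih : ℕ → ℕ → ℕ → ℕ) (P acc e : ℕ) : ℕ :=
  ih (Nat.mod e (nat_lit 256)) (Nat.mod (Nat.mul P (Nat.shiftRight e (nat_lit 8))) n) acc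

/-- reverse packing along an orbit -/
def orbA (em : ℕ → ℕ → ℕ → ℕ) (V n NP m3 : ℕ) (mu : ℕ → ℕ) (par : Bool) (L : List (ℕ × ℕ)) :
    ℕ → ℕ → ℕ → ℕ :=
  @List.rec _ (fun _ => ℕ → ℕ → ℕ → ℕ)
    (fun p P acc => @Bool.rec (fun _ => ℕ) (Nat.add (Nat.mul acc V) (em m3 p P)) acc par)
    (fun x _ ih p P acc => orbT n ih P (Nat.add (Nat.mul acc V) (em (mu x.2) p P))
      (npe n NP p x.1)) L

/-- codes of all forms from the entry of the start table -/
def orbV (n NP : ℕ) (par : Bool) (L : List (ℕ × ℕ)) (m e : ℕ) : ℕ :=
  Nat.add (cdp (ep0 e) m) (Nat.mul (nat_lit 79228162514264337593543950336)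
    (orbP cdp (nat_lit 79228162514264337593543950336) n NP par L (ep1 e) (nat_lit 1)))

/-! ### values -/

/-- entry of a table -/
def zz (T U : ℕ) : ℕ := Nat.mod (Nat.shiftRight T (Nat.mod U (nat_lit 16777216))) (nat_lit 16777216)
/-- entry of a table of weights -/
def ww (C U : ℕ) : ℕ := Nat.mod (Nat.shiftRight C (Nat.mod (Nat.shiftRight U (nat_lit 72))
  (nat_lit 16777216))) (nat_lit 256)

/-- sum of the values -/
def fold (l T C : ℕ) (par : Bool) (L : List (ℕ × ℕ)) : ℕ → ℕ :=
  @List.rec _ (fun _ => ℕ → ℕ) (fun U => @Bool.rec (fun _ => ℕ)
    (Nat.mul (nat_lit 1572864) (Nat.mul (zz T U) (ww C U))) (nat_lit 0) par)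
   (fun x _ ih U => Nat.add (Nat.mul (Nat.add (Nat.mod x.2 l) (nat_lit 3145728))
      (Nat.mul (zz T U) (ww C U))) (ih (Nat.shiftRight U (nat_lit 96)))) L

/-! ### letters -/

/-- the coefficient of a letter -/
def lt2 (par : Bool) (h' a : ℕ) : ℕ :=
  @Bool.rec (fun _ => ℕ) (Nat.mul (nat_lit 2) a)
    (@Nat.rec (fun _ => ℕ) a (fun _ _ => Nat.mul (nat_lit 2) a) h') par
/-- one letter -/
def lt1 (ih : ℕ → (List (ℕ × ℕ) → Bool) → Bool) (W : ℕ) (k : List (ℕ × ℕ) → Bool)
    (a b : ℕ) : Bool :=
  ih (Nat.shiftRight W (nat_lit 20)) fun r => k ((a, b) :: r)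
/-- the list of the letters -/
def ltr (par : Bool) (h : ℕ) : ℕ → (List (ℕ × ℕ) → Bool) → Bool :=
  @Nat.rec (fun _ => ℕ → (List (ℕ × ℕ) → Bool) → Bool) (fun _ k => k [])
    (fun h' ih W k => lt1 ih W k (Nat.mod W (nat_lit 1048576))
      (lt2 par h' (Nat.mod W (nat_lit 1048576)))) h

/-! ### the search -/

/-- levels -/
inductive Lv where
  /-- component -/
  | M (n NP ST : ℕ)
  /-- relation -/
  | R (l j1 j2 j3 m1 m2 m3 T C : ℕ)
  /-- inert prime -/
  | I (n : ℕ)

/-- entry of a list -/
def nthV (L : List ℕ) : ℕ → ℕ :=
  @List.rec ℕ (fun _ => ℕ → ℕ) (fun _ => (nat_lit 0))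
    (fun x _ ih i => @Nat.rec (fun _ => ℕ) x (fun j _ => ih j) i) L

/-- the prime is inert -/
def inr (n D : ℕ) : Bool :=
  Nat.beq (Nat.mod (Nat.pow D (Nat.div n (nat_lit 2))) n) (Nat.sub n (nat_lit 1))

/-- relation level -/
def lR1 (l q K A c v be n' : ℕ) (ih : ℕ → ℕ → Bool) : Bool :=
  br (Nat.beq (Nat.mod (Nat.add A (Nat.mul (lin l v be n') c)) l) (nat_lit 0))
    (ih n' (Nat.mul K q))
/-- relation level -/
def lR2 (l v be n K q A c : ℕ) (ih : ℕ → ℕ → Bool) : Bool :=
  allR (fun t => lR1 l q K A c v be (Nat.add n (Nat.mul K t)) ih) q
/-- relation level -/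
def lR3 (l T C : ℕ) (par : Bool) (L : List (ℕ × ℕ)) (v be n K q U : ℕ) (ih : ℕ → ℕ → Bool) :
    Bool :=
  lR2 l v be n K q (Nat.mod (Nat.shiftRight (fold l T C par L (Nat.shiftRight U (nat_lit 96)))
    (nat_lit 19)) (nat_lit 524288)) (Nat.mul (Nat.shiftRight (zz T U) (nat_lit 19)) (ww C U)) ih
/-- relation level -/
def lR (l m1 m2 m3 T C V1 V2 V3 : ℕ) (par : Bool) (L : List (ℕ × ℕ)) (v be n K : ℕ)
    (ih : ℕ → ℕ → Bool) : Bool :=
  lR3 l T C par L v be n K (Nat.div l (Nat.gcd K l))
    (Nat.add (Nat.mul m1 V1) (Nat.add (Nat.mul m2 V2) (Nat.mul m3 V3))) ih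
/-- component level -/
def lM1 (c NP : ℕ) (par : Bool) (L : List (ℕ × ℕ)) (K q n' m e : ℕ)
    (ih : ℕ → ℕ → ℕ → Bool) : Bool :=
  @Nat.rec (fun _ => Bool) true (fun _ _ => ih (orbV c NP par L m e) n' (Nat.mul K q)) e
/-- component level -/
def lM2 (c NP ST : ℕ) (par : Bool) (L : List (ℕ × ℕ)) (K q n' B m : ℕ)
    (ih : ℕ → ℕ → ℕ → Bool) : Bool :=
  lM1 c NP par L K q n' m (ste c ST B m) ih
/-- component level -/
def lM3 (c NP ST : ℕ) (par : Bool) (L : List (ℕ × ℕ)) (v u be m0 K q n' : ℕ)
    (ih : ℕ → ℕ → ℕ → Bool) : Bool :=
  lM2 c NP ST par L K q n' (lin c v be n') (lin c u m0 n') ih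
/-- component level -/
def lM4 (c NP ST : ℕ) (par : Bool) (L : List (ℕ × ℕ)) (v u be m0 n K q : ℕ)
    (ih : ℕ → ℕ → ℕ → Bool) : Bool :=
  allR (fun t => lM3 c NP ST par L v u be m0 K q (Nat.add n (Nat.mul K t)) ih) q
/-- inert level -/
def lI1 (c : ℕ) (v u be m0 K q n' : ℕ) (ih : ℕ → ℕ → Bool) : Bool :=
  br (inr c (Nat.add (Nat.pow (lin c v be n') (nat_lit 2))
    (Nat.mul (nat_lit 4) (lin c u m0 n')))) (ih n' (Nat.mul K q))
/-- inert level -/
def lI (c : ℕ) (v u be m0 n K q : ℕ) (ih : ℕ → ℕ → Bool) : Bool :=
  allR (fun t => lI1 c v u be m0 K q (Nat.add n (Nat.mul K t)) ih) q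

/-- the search -/
noncomputable def dfs (par : Bool) (L : List (ℕ × ℕ)) (v u be m0 : ℕ) (ls : List Lv) :
    List ℕ → ℕ → ℕ → Bool :=
  @List.rec Lv (fun _ => List ℕ → ℕ → ℕ → Bool) (fun _ _ _ => false) (fun lv _ ih env n K =>
    @Lv.rec (fun _ => Bool)
      (fun c NP ST => lM4 c NP ST par L v u be m0 n K (Nat.div c (Nat.gcd K c))
        (fun V => ih (V :: env)))
      (fun l j1 j2 j3 m1 m2 m3 T C => lR l m1 m2 m3 T C (nthV env j1) (nthV env j2)
        (nthV env j3) par L v be n K (ih env))
      (fun c => lI c v u be m0 n K (Nat.div c (Nat.gcd K c)) (ih env))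
      lv) ls

/-! ### products -/

/-- product check: `d` is the position of the digit -/
def pck (X Y sh : ℕ) : Bool :=
  Nat.beq (Nat.mod (Nat.mod (Nat.shiftRight (Nat.mul X Y) sh) (nat_lit 16777216)) (nat_lit 11))
    (nat_lit 0)

/-- weight of a coefficient -/
def wgt (C P : ℕ) : ℕ := Nat.mod (Nat.shiftRight C (Nat.mul (nat_lit 8) P)) (nat_lit 256)

/-- row of a table -/
def rwt (R w V p : ℕ) : ℕ := Nat.mod (Nat.shiftRight R (Nat.mul w p)) V

/-- one hot vector -/
def hot (C j mu p P : ℕ) : ℕ :=
  Nat.shiftLeft (Nat.mul (wgt C P) mu) (Nat.mul (nat_lit 24) (Nat.sub j p))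

end Pool.Agent.SU.EL


end

section

/-!
Real quadratic fields with small units: codes of the forms.
-/

namespace Pool.Agent.SU.EL

open Finset Pool.Agent.Lib_helper5 Pool.Agent.Lib_helper5.LK Pool.Agent.LibH4.Ker
  Pool.Agent.LibH4.KF Pool.Agent.LibH4.T6 Pool.Agent.Lib_helper5.TB Pool.Agent.LibH4.S7
  Pool.Agent.LibH4 Pool.Agent.LibH4.CW

/-- position of a state -/
def pz (c : Cmp) (e : ℤ × ℤ × ℤ) : ℕ :=
  pos c.n c.ex c.PT (rs c.n e.1) (rs c.n e.2.1) (rs c.n (-e.2.2))

/-- first coefficient of a state -/
def wz (c : Cmp) (e : ℤ × ℤ × ℤ) : ℕ := rs c.n e.1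

/-- position of a form -/
def pj (c : Cmp) (j : Fm) : ℕ := pos c.n c.ex c.PT (rs c.n j.P) (rs c.n j.R) (rs c.n j.S)

/-- first coefficient of a form -/
def wj (c : Cmp) (j : Fm) : ℕ := rs c.n j.P

lemma pz_lt (c : Cmp) (e : ℤ × ℤ × ℤ) : pz c e < 256 := pos_lt _ _ _

lemma pj_lt (c : Cmp) (j : Fm) : pj c j < 256 := pos_lt _ _ _

/-- positions do not depend on the scaling -/
lemma pos_scale {c : Cmp} (hc : CmpOK c) {D : ℤ} (hD : DOK D) {e : ℤ × ℤ × ℤ} (he : LO.dis e = D)
    {P R S : ℕ} (hP : P < c.n) (hS : S ≤ c.n) {lam : ZMod c.n} (t1 : ((e.1 : ℤ) : ZMod c.n) = lam * P)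
    (t2 : ((e.2.1 : ℤ) : ZMod c.n) = lam * R) (t3 : ((e.2.2 : ℤ) : ZMod c.n) = lam * S) :
    pos c.n c.ex c.PT P R ((c.n - S) % c.n) = pz c e := by
  have hn := hc.pos
  have : NeZero c.n := ⟨hn.ne'⟩
  obtain ⟨v1, v2⟩ := hc.cp D hD e.1 e.2.1 e.2.2 he
  have hu := isUnit_of v1
  set j := iv c.n c.ex (rs c.n e.1) with hj
  have hPu : ((P : ℕ) : ZMod c.n) * (lam * (j : ℕ)) = 1 := by
    rw [← hu, t1]; ring
  have hcop : Nat.Coprime P c.n := by
    rw [← ZMod.isUnit_iff_coprime]
    exact IsUnit.of_mul_eq_one _ hPu
  have hinv := hc.inv P hP hcop
  have hinv' : ((P : ℕ) : ZMod c.n) * ((iv c.n c.ex P : ℕ) : ZMod c.n) = 1 := by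
    have h1 := congrArg (fun x : ℕ => (x : ZMod c.n)) hinv
    simp only [ZMod.natCast_mod] at h1
    push_cast at h1
    rw [h1]
  have hlj : ((iv c.n c.ex P : ℕ) : ZMod c.n) = lam * (j : ℕ) := by
    linear_combination ((iv c.n c.ex P : ℕ) : ZMod c.n) * (-hPu) + (lam * (j : ℕ)) * hinv'
  have q2 : R * iv c.n c.ex P % c.n = rs c.n e.2.1 * j % c.n := by
    have : ((R * iv c.n c.ex P : ℕ) : ZMod c.n) = ((rs c.n e.2.1 * j : ℕ) : ZMod c.n) := by
      push_cast
      rw [rs_cast, t2, hlj]
      ring
    exact (ZMod.natCast_eq_natCast_iff' _ _ _).1 this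
  have q3 : (c.n - S) % c.n * iv c.n c.ex P % c.n = rs c.n (-e.2.2) * j % c.n := by
    have : (((c.n - S) % c.n * iv c.n c.ex P : ℕ) : ZMod c.n) =
        ((rs c.n (-e.2.2) * j : ℕ) : ZMod c.n) := by
      rw [Nat.cast_mul, ZMod.natCast_mod, Nat.cast_sub hS, ZMod.natCast_self]
      push_cast
      rw [rs_cast]
      push_cast
      rw [t3, hlj]
      ring
    exact (ZMod.natCast_eq_natCast_iff' _ _ _).1 this
  unfold pz pos
  rw [strict_eq, strict_eq]
  have e1 : Nat.mod (Nat.mul R (iv c.n c.ex P)) c.n =
      Nat.mod (Nat.mul (rs c.n e.2.1) (iv c.n c.ex (rs c.n e.1))) c.n := q2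
  have e2 : Nat.mod (Nat.mul ((c.n - S) % c.n) (iv c.n c.ex P)) c.n =
      Nat.mod (Nat.mul (rs c.n (-e.2.2)) (iv c.n c.ex (rs c.n e.1))) c.n := q3
  rw [e1, e2]

/-! ### transitions -/

/-- the value of an entry of the transition table -/
def npS (n ex PT a r s : ℕ) : ℕ :=
  Nat.add (pos n ex PT s (nxR n a r s) (Nat.mod (Nat.sub n (nxS n a (Nat.mod (nat_lit 1) n) r s)) n))
    (Nat.mul (nat_lit 256) s)

/-- check of the transition table -/
def npCk (n ex PT : ℕ) (F : List (ℕ × ℕ)) (NP : ℕ) : Bool :=
  allJ (fun x i => allR (fun a => Nat.beq (npe n NP i a)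
    (npS n ex PT a x.1 (Nat.mod (Nat.sub n x.2) n))) n) F (nat_lit 0)

lemma npCk_spec {c : Cmp} {NP : ℕ} (h : npCk c.n c.ex c.PT c.F NP = true) {i : ℕ} {x : ℕ × ℕ}
    (hx : c.F[i]? = some x) {a : ℕ} (ha : a < c.n) :
    npe c.n NP i a = npS c.n c.ex c.PT a x.1 ((c.n - x.2) % c.n) :=
  Nat.eq_of_beq_eq_true (allR_spec (allJ_spec0 h i x hx) a ha)

lemma npe_mod (n NP i a : ℕ) : npe n NP i (a % n) = npe n NP i a := by
  have e : ∀ b, npe n NP i b = (NP >>> (16 * (i * n + b % n))) % 65536 := fun _ => rfl
  rw [e, e, Nat.mod_mod]

/-- **transitions** -/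
theorem npe_spec {c : Cmp} (hc : CmpOK c) {D : ℤ} (hD : DOK D) {e : ℤ × ℤ × ℤ} (he : LO.dis e = D)
    {NP : ℕ} (h : npCk c.n c.ex c.PT c.F NP = true) (a : ℕ) :
    npe c.n NP (pz c e) a % 256 = pz c (LO.st a e) ∧
      wz c e * (npe c.n NP (pz c e) a >>> 8) % c.n = wz c (LO.st a e) := by
  have hn := hc.pos
  have hn19 := hc.le
  have : NeZero c.n := ⟨hn.ne'⟩
  obtain ⟨v1, v2⟩ := hc.cp D hD e.1 e.2.1 e.2.2 he
  have hu := isUnit_of v1
  set j := iv c.n c.ex (rs c.n e.1) with hj
  have h1 := npCk_spec h v2 (Nat.mod_lt a hn)
  rw [npe_mod] at h1
  have hpz : pz c e = pos c.n c.ex c.PT (rs c.n e.1) (rs c.n e.2.1) (rs c.n (-e.2.2)) := rfl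
  rw [← hpz] at h1
  simp only at h1
  set r := rs c.n e.2.1 * j % c.n with hr
  set s0 := rs c.n (-e.2.2) * j % c.n with hs0
  set s := (c.n - s0) % c.n with hs
  set a' := a % c.n with ha'
  have hs0lt : s0 < c.n := Nat.mod_lt _ hn
  have hrlt : r < c.n := Nat.mod_lt _ hn
  have hslt : s < c.n := Nat.mod_lt _ hn
  have cr : ((r : ℕ) : ZMod c.n) = (e.2.1 : ℤ) * (j : ℕ) := by
    rw [hr, ZMod.natCast_mod]; push_cast; rw [rs_cast]
  have cs : ((s : ℕ) : ZMod c.n) = (e.2.2 : ℤ) * (j : ℕ) := by
    rw [hs, ZMod.natCast_mod, Nat.cast_sub hs0lt.le, ZMod.natCast_self, hs0, ZMod.natCast_mod]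
    push_cast
    rw [rs_cast]
    push_cast
    ring
  have ca : ((a' : ℕ) : ZMod c.n) = (a : ZMod c.n) := by rw [ha', ZMod.natCast_mod]
  have hst : LO.st a e = (e.2.2, 2 * (a : ℤ) * e.2.2 - e.2.1, e.1 + e.2.1 * a - e.2.2 * (a : ℤ) ^ 2) :=
    rfl
  have hdis : LO.dis (LO.st a e) = D := by rw [LO.dis_st, he]
  have cR : ((nxR c.n a' r s : ℕ) : ZMod c.n) = 2 * a * s - r := by
    have e1 : nxR c.n a' r s = (2 * a' * s + (c.n - r)) % c.n := rfl
    rw [e1, ZMod.natCast_mod, Nat.cast_add, Nat.cast_sub hrlt.le, ZMod.natCast_self]
    push_cast
    rw [ca]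
    ring
  have cS : ((nxS c.n a' (1 % c.n) r s : ℕ) : ZMod c.n) = 1 + r * a - s * a ^ 2 := by
    have e1 : nxS c.n a' (1 % c.n) r s = (1 % c.n + r * a' + (c.n - s) * (a' * a')) % c.n := rfl
    rw [e1, ZMod.natCast_mod, Nat.cast_add, Nat.cast_add, Nat.cast_mul (c.n - s),
      Nat.cast_sub hslt.le, ZMod.natCast_self, ZMod.natCast_mod]
    push_cast
    rw [ca]
    ring
  have hSlt : nxS c.n a' (1 % c.n) r s < c.n := Nat.mod_lt _ hn
  have key := pos_scale hc hD hdis (P := s) (R := nxR c.n a' r s) (S := nxS c.n a' (1 % c.n) r s)
    hslt hSlt.le (lam := ((e.1 : ℤ) : ZMod c.n)) (by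
      rw [hst, cs]
      simp only
      linear_combination (-((e.2.2 : ℤ) : ZMod c.n)) * hu) (by
      rw [hst, cR, cs, cr]
      push_cast
      linear_combination (-(2 * (a : ZMod c.n) * ((e.2.2 : ℤ) : ZMod c.n)) +
        ((e.2.1 : ℤ) : ZMod c.n)) * hu) (by
      rw [hst, cS, cs, cr]
      push_cast
      linear_combination (-((e.2.1 : ℤ) : ZMod c.n) * (a : ZMod c.n) +
        ((e.2.2 : ℤ) : ZMod c.n) * (a : ZMod c.n) ^ 2) * hu)
  have e1 : npS c.n c.ex c.PT a' r s = pos c.n c.ex c.PT s (nxR c.n a' r s)
    ((c.n - nxS c.n a' (1 % c.n) r s) % c.n) + 256 * s := rfl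
  rw [h1, e1, key]
  have hlt := pz_lt c (LO.st a e)
  constructor
  · omega
  · have e2 : (pz c (LO.st a e) + 256 * s) >>> 8 = s := by
      rw [Nat.shiftRight_eq_div_pow]; omega
    rw [e2]
    apply rs_of
    push_cast
    unfold wz
    rw [rs_cast, cs, hst]
    simp only
    linear_combination ((e.2.2 : ℤ) : ZMod c.n) * hu

/-! ### first states -/

/-- the value of an entry of the start table -/
def stS' (n ex PT B m : ℕ) : ℕ :=
  Nat.add (pos n ex PT m B (Nat.mod (Nat.sub n (nat_lit 1)) n))
    (Nat.add (Nat.mul (nat_lit 256) (pos n ex PT (Nat.mod (nat_lit 1) n) B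
      (Nat.mod (Nat.sub n m) n))) (nat_lit 65536))

/-- check of the start table -/
def stCk (n ex PT : ℕ) (A : ℕ → ℕ → ℕ → Bool) (ST : ℕ) : Bool :=
  allR (fun B => allR (fun m => impB (A m B (Nat.mod (Nat.sub n (nat_lit 1)) n))
    (Nat.beq (ste n ST B m) (stS' n ex PT B m))) n) n

/-- **first states** -/
theorem ste_spec {c : Cmp} (hc : CmpOK c) {A : ℕ → ℕ → ℕ → Bool} (hA : AD c.n A) {D : ℤ}
    (hD : DOK D) {B m : ℤ} (he : B ^ 2 + 4 * m = D) {ST : ℕ}
    (h : stCk c.n c.ex c.PT A ST = true) :
    ste c.n ST (rs c.n B) (rs c.n m) = pz c (m, B, 1) + (256 * pz c (1, B, m) + 65536) := by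
  have hn := hc.pos
  have : NeZero c.n := ⟨hn.ne'⟩
  have h1 := hA D hD m B 1 (by rw [← he]; ring)
  have e1 : rs c.n (-(1 : ℤ)) = (c.n - 1) % c.n := by
    symm
    apply rs_of
    rw [Nat.cast_sub hn, ZMod.natCast_self]
    push_cast
    ring
  rw [e1] at h1
  have h2 := Nat.eq_of_beq_eq_true
    (impB_spec (allR_spec (allR_spec h (rs c.n B) (rs_lt B)) (rs c.n m) (rs_lt m)) h1)
  rw [h2]
  have e2 : rs c.n (-m) = (c.n - rs c.n m) % c.n := by
    symm
    apply rs_of
    rw [Nat.cast_sub (rs_lt m).le, ZMod.natCast_self, rs_cast]
    push_cast
    ring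
  have e3 : rs c.n (1 : ℤ) = 1 % c.n := by
    symm
    apply rs_of
    push_cast
    rfl
  unfold pz
  rw [e1, e2, e3]
  rfl

end Pool.Agent.SU.EL


end

section

/-!
Real quadratic fields with small units: folds along the orbits.
-/

namespace Pool.Agent.SU.EL

open Finset Pool.Agent.Lib_helper5 Pool.Agent.Lib_helper5.LK Pool.Agent.LibH4.Ker
  Pool.Agent.LibH4.KF Pool.Agent.LibH4.T6 Pool.Agent.Lib_helper5.TB Pool.Agent.LibH4.S7
  Pool.Agent.LibH4 Pool.Agent.LibH4.CW

/-- letters and coefficients -/
def LQ (par : Bool) : List ℕ → List (ℕ × ℕ)
  | [] => []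
  | a :: w => (a, (bif par && w.isEmpty then 1 else 2) * a) :: LQ par w

lemma ltr_eq (par : Bool) (w : List ℕ) (hw : ∀ a ∈ w, a < 2 ^ 20) (k : List (ℕ × ℕ) → Bool) :
    ltr par w.length (pk w) k = k (LQ par w) := by
  induction w generalizing k with
  | nil => rfl
  | cons a w ih =>
    have ha : a < 2 ^ 20 := hw a (by simp)
    have e1 : pk (a :: w) = a + 2 ^ 20 * pk w := rfl
    have e2 : Nat.mod (pk (a :: w)) (nat_lit 1048576) = a := by
      rw [e1]
      change (a + 2 ^ 20 * pk w) % 2 ^ 20 = a
      exact CW.add_mod _ _ _ ha
    have e3 : Nat.shiftRight (pk (a :: w)) (nat_lit 20) = pk w := by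
      rw [e1]
      exact CW.add_shr 20 _ _ ha
    have e4 : ltr par (a :: w).length (pk (a :: w)) k =
      lt1 (ltr par w.length) (pk (a :: w)) k (Nat.mod (pk (a :: w)) (nat_lit 1048576))
        (lt2 par w.length (Nat.mod (pk (a :: w)) (nat_lit 1048576))) := rfl
    rw [e4, e2]
    have e5 : lt2 par w.length a = (bif par && w.isEmpty then 1 else 2) * a := by
      cases par with
      | false =>
        change 2 * a = _
        simp
      | true =>
        cases w with
        | nil =>
          change a = _
          simp
        | cons b w =>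
          change 2 * a = _
          simp
    unfold lt1
    rw [e3, e5, ih (fun b hb => hw b (by simp [hb]))]
    rfl

/-- properties of the forms of an orbit -/
lemma JT_cons (par : Bool) (f : ℤ × ℤ × ℤ) (a : ℕ) (w : List ℕ) :
    JT par f (a :: w) = ⟨f.1, f.2.1, -f.2.2, 6, -((bif par && w.isEmpty then 1 else 2) * (a : ℤ))⟩ ::
      JT par (LO.st a f) w := rfl

/-- number of the forms -/
def nf (par : Bool) (h : ℕ) : ℕ := bif par then h else h + 1

lemma JT_length (par : Bool) (f : ℤ × ℤ × ℤ) (w : List ℕ) :
    (JT par f w).length = nf par w.length := by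
  induction w generalizing f with
  | nil => cases par <;> rfl
  | cons a w ih =>
    rw [JT_cons, List.length_cons, ih, List.length_cons]
    cases par <;> rfl

/-- the coefficient as a natural number -/
def al (j : Fm) : ℕ := (-j.α).toNat

section

variable {c : Cmp} {D : ℤ} {NP : ℕ}

/-- **packing along an orbit** -/
lemma orbP_spec (hc : CmpOK c) (hD : DOK D) (h : npCk c.n c.ex c.PT c.F NP = true)
    (em : ℕ → ℕ → ℕ) (V : ℕ) (par : Bool) (w : List ℕ) (e : ℤ × ℤ × ℤ) (he : LO.dis e = D) :
    orbP em V c.n NP par (LQ par w) (pz c e) (wz c e) =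
      packL V (fun j => em (pj c j) (wj c j)) (JT par e w) := by
  induction w generalizing e with
  | nil =>
    cases par with
    | false =>
      change em (pz c e) (wz c e) = em (pz c e) (wz c e) + V * 0
      rw [mul_zero, add_zero]
    | true => rfl
  | cons a w ih =>
    obtain ⟨h1, h2⟩ := npe_spec hc hD he h a
    have h3 := ih (LO.st a e) (by rw [LO.dis_st, he])
    rw [JT_cons, packL_cons]
    have e1 : orbP em V c.n NP par (LQ par (a :: w)) (pz c e) (wz c e) =
      em (pz c e) (wz c e) + V * orbP em V c.n NP par (LQ par w)
        (npe c.n NP (pz c e) a % 256) (wz c e * (npe c.n NP (pz c e) a >>> 8) % c.n) := rfl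
    rw [e1, h1, h2, h3]
    rfl

/-- **reverse packing along an orbit** -/
lemma orbA_spec (hc : CmpOK c) (hD : DOK D) (h : npCk c.n c.ex c.PT c.F NP = true)
    (em : ℕ → ℕ → ℕ → ℕ) (V m3 : ℕ) (mu : ℕ → ℕ) (g : ℕ → ℕ → ℕ) (hg6 : ∀ b, mu b = g 6 b)
    (hg3 : m3 = g 3 0) (par : Bool) (w : List ℕ) (e : ℤ × ℤ × ℤ) (he : LO.dis e = D) (acc : ℕ) :
    orbA em V c.n NP m3 mu par (LQ par w) (pz c e) (wz c e) acc =
      acc * V ^ (JT par e w).length +
        rp V (fun j => em (g j.κ (al j)) (pj c j) (wj c j)) (JT par e w) := by
  induction w generalizing e acc with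
  | nil =>
    cases par with
    | false =>
      have e1 : orbA em V c.n NP m3 mu false (LQ false []) (pz c e) (wz c e) acc =
        acc * V + em m3 (pz c e) (wz c e) := rfl
      rw [e1, hg3]
      change acc * V + em (g 3 0) (pz c e) (wz c e) = acc * V ^ 1 +
        (em (g 3 0) (pz c e) (wz c e) * V ^ 0 + 0)
      rw [pow_one, pow_zero, mul_one, add_zero]
    | true =>
      change acc = acc * V ^ 0 + 0
      rw [pow_zero, mul_one, add_zero]
  | cons a w ih =>
    obtain ⟨h1, h2⟩ := npe_spec hc hD he h a
    have h3 := ih (LO.st a e) (by rw [LO.dis_st, he])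
    rw [JT_cons, rp_cons]
    have e1 : orbA em V c.n NP m3 mu par (LQ par (a :: w)) (pz c e) (wz c e) acc =
      orbA em V c.n NP m3 mu par (LQ par w) (npe c.n NP (pz c e) a % 256)
        (wz c e * (npe c.n NP (pz c e) a >>> 8) % c.n)
        (acc * V + em (mu ((bif par && w.isEmpty then 1 else 2) * a)) (pz c e) (wz c e)) := rfl
    rw [e1, h1, h2, h3, List.length_cons, hg6]
    have e2 : al ⟨e.1, e.2.1, -e.2.2, 6, -((bif par && w.isEmpty then 1 else 2) * (a : ℤ))⟩ =
        (bif par && w.isEmpty then 1 else 2) * a := by
      unfold al
      simp only [neg_neg]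
      cases (par && w.isEmpty) with
      | false => simp only [cond_false]; omega
      | true => simp only [cond_true]; omega
    rw [e2]
    change _ = _ + (em (g 6 _) (pz c e) (wz c e) * V ^ _ + _)
    ring

/-- the code of a form -/
def cj (c : Cmp) (j : Fm) : ℕ := pj c j + 2 ^ 48 * wj c j

/-- the packed codes of the forms -/
def VV (c : Cmp) (J : List Fm) : ℕ := packL (2 ^ 96) (cj c) J

lemma cdp_eq (p P : ℕ) : cdp p P = p + 2 ^ 48 * P := rfl

/-- the codes of all forms -/
lemma orbV_spec (hc : CmpOK c) (h1 : 1 < c.n) (hD : DOK D)
    (h : npCk c.n c.ex c.PT c.F NP = true) (par : Bool) (w : List ℕ) {B m : ℤ}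
    (he : B ^ 2 + 4 * m = D) :
    orbV c.n NP par (LQ par w) (rs c.n m) (pz c (m, B, 1) + (256 * pz c (1, B, m) + 65536)) =
      VV c (JH par B m w) := by
  have : NeZero c.n := ⟨by omega⟩
  have a0 := pz_lt c (m, B, 1)
  have a1 := pz_lt c (1, B, m)
  have e0 : ep0 (pz c (m, B, 1) + (256 * pz c (1, B, m) + 65536)) = pz c (m, B, 1) := by
    change (pz c (m, B, 1) + (256 * pz c (1, B, m) + 65536)) % 256 = _
    omega
  have e1 : ep1 (pz c (m, B, 1) + (256 * pz c (1, B, m) + 65536)) = pz c (1, B, m) := by
    change ((pz c (m, B, 1) + (256 * pz c (1, B, m) + 65536)) >>> 8) % 256 = _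
    rw [Nat.shiftRight_eq_div_pow]
    omega
  have e2 : wz c (1, B, m) = 1 := by
    have : (1 : ℕ) % c.n = rs c.n 1 := rs_of (by push_cast; rfl)
    rw [Nat.mod_eq_of_lt h1] at this
    exact this.symm
  have h3 := orbP_spec hc hD h cdp (2 ^ 96) par w (1, B, m) (by
    unfold LO.dis; simp only; linear_combination he)
  rw [e2] at h3
  unfold orbV
  rw [e0, e1]
  have e3 : (nat_lit 79228162514264337593543950336 : ℕ) = 2 ^ 96 := by norm_num
  have e4 : ∀ x, Nat.add (cdp (pz c (m, B, 1)) (rs c.n m)) (Nat.mul x
      (orbP cdp x c.n NP par (LQ par w) (pz c (1, B, m)) (nat_lit 1))) =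
      cdp (pz c (m, B, 1)) (rs c.n m) + x *
        orbP cdp x c.n NP par (LQ par w) (pz c (1, B, m)) 1 := fun _ => rfl
  rw [e4, e3, h3]
  unfold VV JH
  rw [packL_cons]
  rfl

end

/-! ### values -/

lemma zz_add (T c X : ℕ) : zz T (c + 2 ^ 96 * X) = zz T c := by
  have e : ∀ U, zz T U = (T >>> (U % 2 ^ 24)) % 2 ^ 24 := fun _ => rfl
  rw [e, e, show c + 2 ^ 96 * X = c + 2 ^ 24 * (2 ^ 72 * X) by ring, Nat.add_mul_mod_self_left]

lemma ww_add (C c X : ℕ) : ww C (c + 2 ^ 96 * X) = ww C c := by
  have e : ∀ U, ww C U = (C >>> ((U >>> 72) % 2 ^ 24)) % 2 ^ 8 := fun _ => rfl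
  have h : (c + 2 ^ 96 * X) >>> 72 = c >>> 72 + 2 ^ 24 * X := by
    rw [Nat.shiftRight_eq_div_pow, Nat.shiftRight_eq_div_pow,
      show c + 2 ^ 96 * X = c + 2 ^ 72 * (2 ^ 24 * X) by ring,
      Nat.add_mul_div_left _ _ (by positivity)]
  rw [e, e, h, Nat.add_mul_mod_self_left]

/-- the value of a form in a sum -/
def vf (l T C : ℕ) (κ a cd : ℕ) : ℕ := (a % l + 2 ^ 19 * κ) * (zz T cd * ww C cd)

lemma fold_spec (l T C : ℕ) (par : Bool) (w : List ℕ) (e : ℤ × ℤ × ℤ) (cd : Fm → ℕ)
    (hcd : ∀ j ∈ JT par e w, cd j < 2 ^ 96) :
    fold l T C par (LQ par w) (packL (2 ^ 96) cd (JT par e w)) =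
      ((JT par e w).map fun j => vf l T C j.κ (al j) (cd j)).sum := by
  induction w generalizing e with
  | nil =>
    cases par with
    | false =>
      have e1 : ∀ U, fold l T C false (LQ false []) U = 1572864 * (zz T U * ww C U) := fun _ => rfl
      have e2 : packL (2 ^ 96) cd (JT false e []) =
        cd ⟨e.1, e.2.1, -e.2.2, 3, 0⟩ + 2 ^ 96 * 0 := rfl
      rw [e1, e2, zz_add, ww_add]
      change _ = vf l T C 3 0 _ + 0
      unfold vf
      rw [Nat.zero_mod, zero_add, add_zero]
      norm_num
    | true => rfl
  | cons a w ih =>
    rw [JT_cons] at hcd ⊢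
    have h1 := hcd _ List.mem_cons_self
    rw [packL_cons]
    set c0 := cd ⟨e.1, e.2.1, -e.2.2, 6, -((bif par && w.isEmpty then 1 else 2) * (a : ℤ))⟩ with hc0
    have e1 : ∀ U, fold l T C par (LQ par (a :: w)) U =
      (((bif par && w.isEmpty then 1 else 2) * a) % l + 3145728) * (zz T U * ww C U) +
        fold l T C par (LQ par w) (U >>> 96) := fun _ => rfl
    have e3 : (c0 + 2 ^ 96 * packL (2 ^ 96) cd (JT par (LO.st a e) w)) >>> 96 =
        packL (2 ^ 96) cd (JT par (LO.st a e) w) := CW.add_shr _ _ _ h1
    rw [e1, zz_add, ww_add, e3, ih _ (fun j hj => hcd j (by simp [hj])), List.map_cons,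
      List.sum_cons]
    congr 1
    have e2 : al ⟨e.1, e.2.1, -e.2.2, 6, -((bif par && w.isEmpty then 1 else 2) * (a : ℤ))⟩ =
        (bif par && w.isEmpty then 1 else 2) * a := by
      unfold al
      simp only [neg_neg]
      cases (par && w.isEmpty) with
      | false => simp only [cond_false]; omega
      | true => simp only [cond_true]; omega
    rw [e2, ← hc0]
    rfl

end Pool.Agent.SU.EL


end

section

/-!
Real quadratic fields with small units: relations for the lists of forms.
-/

namespace Pool.Agent.SU.EL

open Finset Pool.Agent.Lib_helper5 Pool.Agent.Lib_helper5.LK Pool.Agent.LibH4.Ker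
  Pool.Agent.LibH4.KF Pool.Agent.LibH4.T6 Pool.Agent.Lib_helper5.TB Pool.Agent.LibH4.S7
  Pool.Agent.LibH4 Pool.Agent.LibH4.CW

/-- a relation -/
structure RJOK (r : RD) : Prop where
  k1 : CmpOK (cof r.n1)
  k2 : CmpOK (cof r.n2)
  k3 : CmpOK (cof r.n3)
  m1 : (cof r.n1).n = r.n1
  m2 : (cof r.n2).n = r.n2
  m3 : (cof r.n3).n = r.n3
  l2 : r.len2 = (cof r.n2).F.length
  l3 : r.len3 = (cof r.n3).F.length
  l0 : 0 < r.l
  l29 : r.l ≤ 29
  rel : ∀ {D : ℤ} {J : List Fm}, RelJ D J →
    (J.map (fval r.n1 r.n2 r.n3 r.l (cof r.n1).ex (cof r.n2).ex (cof r.n3).ex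
      (cof r.n1).PT (cof r.n2).PT (cof r.n3).PT r.t1 r.t2 r.t3 r.rows r.len3)).sum % r.l = 0

/-- **relation of a table** -/
theorem rdj_of {n1 n2 n3 l t1 t2 t3 len2 len3 M h T1 T2 T3 : ℕ} {rows : List (ℕ × ℕ)}
    {A1 A2 A3 : ℕ → ℕ → ℕ → Bool} [NeZero n1] [NeZero n2] [NeZero n3] [NeZero (n1 * n2)]
    [NeZero (n1 * n2 * n3)]
    (H : TabOK n1 n2 n3 M h T1 T2 T3 (cof n1).F (cof n2).F (cof n3).F rows)
    (C1 : CompOK n1 (cof n1).ex (cof n1).PT (cof n1).F A1)
    (C2 : CompOK n2 (cof n2).ex (cof n2).PT (cof n2).F A2)
    (C3 : CompOK n3 (cof n3).ex (cof n3).PT (cof n3).F A3)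
    (k1 : CmpOK (cof n1)) (k2 : CmpOK (cof n2)) (k3 : CmpOK (cof n3))
    (m1 : (cof n1).n = n1) (m2 : (cof n2).n = n2) (m3 : (cof n3).n = n3)
    (hN : M = h * l) (h0 : 0 < h) (hl : 0 < l) (hl2 : l ≤ 29) (hM : M % 2 = 1)
    (hQ : (n1 * n2 * n3 * M) ∣ QB ^ 6) (l2 : len2 = (cof n2).F.length)
    (l3 : len3 = (cof n3).F.length)
    (ht1 : tabCk n1 M T1 = true) (ht2 : tabCk n2 M T2 = true) (ht3 : tabCk n3 M T3 = true)
    (r1 : redCk n1 T1 t1 l = true) (r2 : redCk n2 T2 t2 l = true) (r3 : redCk n3 T3 t3 l = true)
    (rok : relOk n1 n2 n3 M T1 T2 T3 = true) (a1 : AD n1 A1) (a2 : AD n2 A2) (a3 : AD n3 A3) :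
    RJOK ⟨n1, n2, n3, l, t1, t2, t3, rows, len2, len3⟩ where
  k1 := k1
  k2 := k2
  k3 := k3
  m1 := m1
  m2 := m2
  m3 := m3
  l2 := l2
  l3 := l3
  l0 := hl
  l29 := hl2
  rel := by
    intro D J W
    have hd : ∀ j ∈ J, j.R ^ 2 + 4 * j.P * (-j.S) = D := by
      intro j hj
      rw [← W.disc j hj]; ring
    have := H.rel hN h0 hl ht1 ht2 ht3 C1 C2 C3 r1 r2 r3 (J := J) (by
      intro j hj
      have := a1 D W.dok _ _ _ (hd j hj)
      rwa [neg_neg] at this) (by
      intro j hj
      have := a2 D W.dok _ _ _ (hd j hj)
      rwa [neg_neg] at this) (by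
      intro j hj
      have := a3 D W.dok _ _ _ (hd j hj)
      rwa [neg_neg] at this)
      (W.rel n1 n2 n3 M T1 T2 T3 rok ht1 ht2 ht3 hM hQ)
    rw [← l3] at this
    exact this

/-- multipliers -/
def mul1 (r : RD) : ℕ := 24 * (r.len2 * r.len3) + 2 ^ 24 * (8 * (r.n2 * r.n3))
/-- multipliers -/
def mul2 (r : RD) : ℕ := 24 * r.len3 + 2 ^ 24 * (8 * r.n3)
/-- multipliers -/
def mul3 : ℕ := 24 + 2 ^ 24 * 8

/-- the tables of a relation -/
structure TJOK (r : RD) (T C : ℕ) : Prop where
  T : ∀ i1 i2 i3, i1 < (cof r.n1).F.length → i2 < r.len2 → i3 < r.len3 →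
    (T >>> (24 * ((i1 * r.len2 + i2) * r.len3 + i3))) % 2 ^ 24 =
      tX r.rows r.len3 i1 i2 i3 + 2 ^ 19 * ((r.l - tY r.rows r.len3 i1 i2 i3) % r.l) ∧
    tX r.rows r.len3 i1 i2 i3 < r.l ∧ tY r.rows r.len3 i1 i2 i3 ≤ r.l
  C : ∀ i1 i2 i3, i1 < r.n1 → i2 < r.n2 → i3 < r.n3 →
    (C >>> (8 * ((i1 * r.n2 + i2) * r.n3 + i3))) % 2 ^ 8 =
      dig r.t1 i1 * dig r.t2 i2 * dig r.t3 i3 % r.l
  b1 : 24 * (r.len2 * r.len3) + 24 * r.len3 + 24 ≤ 2 ^ 16
  b2 : 8 * (r.n2 * r.n3) + 8 * r.n3 + 8 ≤ 2 ^ 16

/-- the code of a form in a relation -/
def cd (r : RD) (j : Fm) : ℕ :=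
  mul1 r * cj (cof r.n1) j + (mul2 r * cj (cof r.n2) j + mul3 * cj (cof r.n3) j)

lemma packL_lin (V a b d : ℕ) (f g h : Fm → ℕ) (J : List Fm) :
    a * packL V f J + (b * packL V g J + d * packL V h J) =
      packL V (fun j => a * f j + (b * g j + d * h j)) J := by
  induction J with
  | nil => rfl
  | cons x J ih =>
    rw [packL_cons, packL_cons, packL_cons, packL_cons, ← ih]
    ring

/-- the value of the first sum -/
def xv (r : RD) (j : Fm) : ℕ :=
  tX r.rows r.len3 (pj (cof r.n1) j) (pj (cof r.n2) j) (pj (cof r.n3) j)
/-- the value of the second sum -/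
def yv (r : RD) (j : Fm) : ℕ :=
  tY r.rows r.len3 (pj (cof r.n1) j) (pj (cof r.n2) j) (pj (cof r.n3) j)
/-- the weight -/
def wv (r : RD) (j : Fm) : ℕ :=
  dig r.t1 (wj (cof r.n1) j) * dig r.t2 (wj (cof r.n2) j) * dig r.t3 (wj (cof r.n3) j) % r.l

section

variable {r : RD} {T C : ℕ} {D : ℤ} {J : List Fm}

lemma pj_len {c : Cmp} (hc : CmpOK c) (W : RelJ D J) {j : Fm} (hj : j ∈ J) :
    pj c j < c.F.length := by
  obtain ⟨v1, v2⟩ := hc.cp D W.dok j.P j.R (-j.S) (by rw [← W.disc j hj]; ring)
  rw [neg_neg] at v2
  exact (List.getElem?_eq_some_iff.1 v2).1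

lemma wj_lt {c : Cmp} (hc : CmpOK c) (j : Fm) : wj c j < c.n := by
  have : NeZero c.n := ⟨hc.pos.ne'⟩
  exact rs_lt _

/-- **the code of a form** -/
lemma cd_spec (hr : RJOK r) (hT : TJOK r T C) (W : RelJ D J) {j : Fm} (hj : j ∈ J) :
    cd r j < 2 ^ 96 ∧ zz T (cd r j) = xv r j + 2 ^ 19 * ((r.l - yv r j) % r.l) ∧
      ww C (cd r j) = wv r j ∧ xv r j < r.l ∧ yv r j ≤ r.l := by
  have p1 := pj_len hr.k1 W hj
  have p2 := pj_len hr.k2 W hj
  have p3 := pj_len hr.k3 W hj
  rw [← hr.l2] at p2
  rw [← hr.l3] at p3
  have q1 := wj_lt hr.k1 j
  have q2 := wj_lt hr.k2 j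
  have q3 := wj_lt hr.k3 j
  rw [hr.m1] at q1
  rw [hr.m2] at q2
  rw [hr.m3] at q3
  have b1 := pj_lt (cof r.n1) j
  have b2 := pj_lt (cof r.n2) j
  have b3 := pj_lt (cof r.n3) j
  have c1 : wj (cof r.n1) j < 256 := by
    have := hr.k1.le; rw [hr.m1] at this; omega
  have c2 : wj (cof r.n2) j < 256 := by
    have := hr.k2.le; rw [hr.m2] at this; omega
  have c3 : wj (cof r.n3) j < 256 := by
    have := hr.k3.le; rw [hr.m3] at this; omega
  obtain ⟨t1, t2, t3⟩ := hT.T _ _ _ p1 p2 p3
  have u1 := hT.C _ _ _ q1 q2 q3
  have v1 := hT.b1
  have v2 := hT.b2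
  set a1 := pj (cof r.n1) j
  set a2 := pj (cof r.n2) j
  set a3 := pj (cof r.n3) j
  set w1 := wj (cof r.n1) j
  set w2 := wj (cof r.n2) j
  set w3 := wj (cof r.n3) j
  set A := 24 * (r.len2 * r.len3)
  set B := 24 * r.len3
  set A' := 8 * (r.n2 * r.n3)
  set B' := 8 * r.n3
  -- the four fields
  have e : cd r j = (A * a1 + B * a2 + 24 * a3) + 2 ^ 24 * ((A' * a1 + B' * a2 + 8 * a3) +
      2 ^ 24 * ((A * w1 + B * w2 + 24 * w3) + 2 ^ 24 * (A' * w1 + B' * w2 + 8 * w3))) := by
    change (A + 2 ^ 24 * A') * (a1 + 2 ^ 48 * w1) + ((B + 2 ^ 24 * B') * (a2 + 2 ^ 48 * w2) +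
      (24 + 2 ^ 24 * 8) * (a3 + 2 ^ 48 * w3)) = _
    ring
  have hb : ∀ x y z : ℕ, x < 256 → y < 256 → z < 256 → A * x + B * y + 24 * z < 2 ^ 24 := by
    intro x y z hx hy hz
    calc _ ≤ A * 255 + B * 255 + 24 * 255 := by gcongr <;> omega
      _ < 2 ^ 24 := by omega
  have hb' : ∀ x y z : ℕ, x < 256 → y < 256 → z < 256 → A' * x + B' * y + 8 * z < 2 ^ 24 := by
    intro x y z hx hy hz
    calc _ ≤ A' * 255 + B' * 255 + 8 * 255 := by gcongr <;> omega
      _ < 2 ^ 24 := by omega
  have f0 := hb a1 a2 a3 b1 b2 b3
  have f1 := hb' a1 a2 a3 b1 b2 b3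
  have f2 := hb w1 w2 w3 c1 c2 c3
  have f3 := hb' w1 w2 w3 c1 c2 c3
  generalize hF0 : A * a1 + B * a2 + 24 * a3 = F0 at e f0
  generalize hF1 : A' * a1 + B' * a2 + 8 * a3 = F1 at e f1
  generalize hF2 : A * w1 + B * w2 + 24 * w3 = F2 at e f2
  generalize hF3 : A' * w1 + B' * w2 + 8 * w3 = F3 at e f3
  have g1 : cd r j % 2 ^ 24 = F0 := by rw [e]; exact CW.add_mod _ _ _ f0
  have g2 : (cd r j >>> 72) % 2 ^ 24 = F3 := by
    rw [e, show (72 : ℕ) = 24 + (24 + 24) by rfl, Nat.shiftRight_add, Nat.shiftRight_add,
      CW.add_shr _ _ _ f0, CW.add_shr _ _ _ f1, CW.add_shr _ _ _ f2, Nat.mod_eq_of_lt f3]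
  refine ⟨by rw [e]; omega, ?_, ?_, t2, t3⟩
  · change (T >>> (cd r j % 2 ^ 24)) % 2 ^ 24 = _
    rw [g1, ← hF0, show A * a1 + B * a2 + 24 * a3 = 24 * ((a1 * r.len2 + a2) * r.len3 + a3) by
      change 24 * (r.len2 * r.len3) * a1 + 24 * r.len3 * a2 + 24 * a3 = _
      ring, t1]
    rfl
  · change (C >>> ((cd r j >>> 72) % 2 ^ 24)) % 2 ^ 8 = _
    rw [g2, ← hF3, show A' * w1 + B' * w2 + 8 * w3 = 8 * ((w1 * r.n2 + w2) * r.n3 + w3) by
      change 8 * (r.n2 * r.n3) * w1 + 8 * r.n3 * w2 + 8 * w3 = _
      ring, u1]
    rfl

/-- the middle field of a sum -/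
lemma mid_sum {L : List Fm} {F lo mi hi : Fm → ℕ} (h : ∀ j ∈ L, F j = lo j + 2 ^ 19 * (mi j +
    2 ^ 19 * hi j)) (hlo : (L.map lo).sum < 2 ^ 19) (hmi : (L.map mi).sum < 2 ^ 19) :
    ((L.map F).sum >>> 19) % 2 ^ 19 = (L.map mi).sum := by
  have e : (L.map F).sum = (L.map lo).sum + 2 ^ 19 * ((L.map mi).sum + 2 ^ 19 * (L.map hi).sum) := by
    clear hlo hmi
    induction L with
    | nil => rfl
    | cons x L ih =>
      simp only [List.map_cons, List.sum_cons]
      rw [ih (fun j hj => h j (by simp [hj])), h x (by simp)]
      ring
  rw [e, CW.add_shr _ _ _ hlo, CW.add_mod _ _ _ hmi]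

lemma sum_bd {L : List Fm} {f : Fm → ℕ} {M : ℕ} (h : ∀ j ∈ L, f j ≤ M) :
    (L.map f).sum ≤ L.length * M := by
  induction L with
  | nil => simp
  | cons x L ih =>
    rw [List.map_cons, List.sum_cons, List.length_cons]
    have h1 := h x (by simp)
    have h2 := ih (fun j hj => h j (by simp [hj]))
    calc _ ≤ M + L.length * M := by omega
      _ = _ := by ring

/-- the value of a form modulo `l` -/
lemma fval_cast (hr : RJOK r) (j : Fm) :
    ((fval r.n1 r.n2 r.n3 r.l (cof r.n1).ex (cof r.n2).ex (cof r.n3).ex
      (cof r.n1).PT (cof r.n2).PT (cof r.n3).PT r.t1 r.t2 r.t3 r.rows r.len3 j : ℕ) : ZMod r.l) =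
    (wv r j : ZMod r.l) * ((j.κ : ZMod r.l) * xv r j + (j.α : ZMod r.l) * yv r j) := by
  have : NeZero r.l := ⟨hr.l0.ne'⟩
  unfold fval wv xv yv pj wj
  rw [hr.m1, hr.m2, hr.m3, ZMod.natCast_mod]
  push_cast
  rw [rs_cast]

lemma JT_kappa (par : Bool) (w : List ℕ) (f : ℤ × ℤ × ℤ) : ∀ j ∈ JT par f w, j.κ ≤ 6 := by
  induction w generalizing f with
  | nil =>
    cases par with
    | false => intro j hj; simp only [JT, cond_false, List.mem_singleton] at hj; subst hj; simp
    | true => intro j hj; simp [JT] at hj
  | cons a w ih =>
    intro j hj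
    rw [JT_cons] at hj
    rcases List.mem_cons.1 hj with rfl | hj
    · exact le_rfl
    · exact ih _ _ hj

lemma JT_al (par : Bool) (w : List ℕ) (f : ℤ × ℤ × ℤ) :
    ∀ j ∈ JT par f w, ((al j : ℕ) : ℤ) = -j.α := by
  induction w generalizing f with
  | nil =>
    cases par with
    | false =>
      intro j hj; simp only [JT, cond_false, List.mem_singleton] at hj; subst hj; simp [al]
    | true => intro j hj; simp [JT] at hj
  | cons a w ih =>
    intro j hj
    rw [JT_cons] at hj
    rcases List.mem_cons.1 hj with rfl | hj
    · unfold al
      rw [Int.toNat_of_nonneg]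
      simp only [neg_neg]
      cases (par && w.isEmpty) <;> simp
    · exact ih _ _ hj

/-- **the relation level** -/
theorem rel_level (hr : RJOK r) (hT : TJOK r T C) {par : Bool} {B m : ℤ} {w : List ℕ}
    (hw : w.length ≤ 17) (W : RelJ D (JH par B m w)) {b : ℕ} (hb : ((b : ℕ) : ZMod r.l) = B)
    {V1 V2 V3 : ℕ} (h1 : V1 = VV (cof r.n1) (JH par B m w)) (h2 : V2 = VV (cof r.n2) (JH par B m w))
    (h3 : V3 = VV (cof r.n3) (JH par B m w)) {U : ℕ}
    (hU : U = mul1 r * V1 + (mul2 r * V2 + mul3 * V3)) :
    (((fold r.l T C par (LQ par w) (U >>> 96)) >>> 19) % 524288 +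
      b * ((zz T U >>> 19) * ww C U)) % r.l = 0 := by
  have : NeZero r.l := ⟨hr.l0.ne'⟩
  have hl0 := hr.l0
  have hl29 := hr.l29
  have e0 : U = packL (2 ^ 96) (cd r) (JH par B m w) := by
    rw [hU, h1, h2, h3]
    exact packL_lin _ _ _ _ _ _ _ _
  have hJ : JH par B m w = ⟨m, B, -1, 0, -B⟩ :: JT par (1, B, m) w := rfl
  rw [hJ] at W e0
  rw [packL_cons] at e0
  have s0 := cd_spec hr hT W (List.mem_cons_self)
  have sj : ∀ j ∈ JT par (1, B, m) w, _ := fun j hj => cd_spec hr hT W (List.mem_cons_of_mem _ hj)
  have e1 : U >>> 96 = packL (2 ^ 96) (cd r) (JT par (1, B, m) w) := by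
    rw [e0]; exact CW.add_shr _ _ _ s0.1
  rw [e1, fold_spec _ _ _ _ _ _ _ (fun j hj => (sj j hj).1)]
  have e2 : zz T U = xv r ⟨m, B, -1, 0, -B⟩ + 2 ^ 19 * ((r.l - yv r ⟨m, B, -1, 0, -B⟩) % r.l) := by
    rw [e0, zz_add, s0.2.1]
  have e3 : ww C U = wv r ⟨m, B, -1, 0, -B⟩ := by rw [e0, ww_add, s0.2.2.1]
  have hx0 : xv r ⟨m, B, -1, 0, -B⟩ < 2 ^ 19 := by have := s0.2.2.2.1; omega
  rw [e2, e3, CW.add_shr _ _ _ hx0]
  -- the middle field
  have hlen : (JT par (1, B, m) w).length ≤ 18 := by
    rw [JT_length]; unfold nf; cases par <;> simp <;> omega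
  have hκ := JT_kappa par w (1, B, m)
  have hal : ∀ j ∈ JT par (1, B, m) w, ((al j : ℕ) : ZMod r.l) = -((j.α : ℤ) : ZMod r.l) := by
    intro j hj
    have h6 := congrArg (fun x : ℤ => (x : ZMod r.l)) (JT_al par w _ j hj)
    push_cast at h6
    exact h6
  have hwv : ∀ j, wv r j < r.l := fun j => Nat.mod_lt _ hl0
  have hmid := mid_sum (L := JT par (1, B, m) w) (F := fun j => vf r.l T C j.κ (al j) (cd r j))
    (lo := fun j => wv r j * ((al j % r.l) * xv r j))
    (mi := fun j => wv r j * (j.κ * xv r j + (al j % r.l) * ((r.l - yv r j) % r.l)))
    (hi := fun j => wv r j * (j.κ * ((r.l - yv r j) % r.l)))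
    (by
      intro j hj
      obtain ⟨-, z1, z2, -, -⟩ := sj j hj
      unfold vf
      rw [z1, z2]
      ring)
    (by
      refine lt_of_le_of_lt (sum_bd (M := 28 * (28 * 28)) ?_) ?_
      · intro j hj
        obtain ⟨-, -, -, z3, -⟩ := sj j hj
        have z4 := hwv j
        have z5 : al j % r.l < r.l := Nat.mod_lt _ hl0
        exact Nat.mul_le_mul (by omega) (Nat.mul_le_mul (by omega) (by omega))
      · have : (JT par (1, B, m) w).length * (28 * (28 * 28)) ≤ 18 * (28 * (28 * 28)) :=
          Nat.mul_le_mul_right _ hlen
        omega)
    (by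
      refine lt_of_le_of_lt (sum_bd (M := 28 * (6 * 28 + 28 * 28)) ?_) ?_
      · intro j hj
        obtain ⟨-, -, -, z3, -⟩ := sj j hj
        have z4 := hwv j
        have z5 : al j % r.l < r.l := Nat.mod_lt _ hl0
        have z6 : (r.l - yv r j) % r.l < r.l := Nat.mod_lt _ hl0
        have z7 := hκ j hj
        exact Nat.mul_le_mul (by omega) (Nat.add_le_add (Nat.mul_le_mul (by omega) (by omega))
          (Nat.mul_le_mul (by omega) (by omega)))
      · have : (JT par (1, B, m) w).length * (28 * (6 * 28 + 28 * 28)) ≤
            18 * (28 * (6 * 28 + 28 * 28)) := Nat.mul_le_mul_right _ hlen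
        omega)
  rw [show (524288 : ℕ) = 2 ^ 19 by norm_num, hmid]
  -- congruence
  have hrel := hr.rel W
  rw [← Nat.dvd_iff_mod_eq_zero, ← ZMod.natCast_eq_zero_iff, cast_lsum, List.map_cons,
    List.sum_cons] at hrel
  rw [← Nat.dvd_iff_mod_eq_zero, ← ZMod.natCast_eq_zero_iff]
  simp only [fval_cast hr] at hrel
  rw [Nat.cast_add, cast_lsum]
  have hneg : ∀ j, yv r j ≤ r.l → (((r.l - yv r j) % r.l : ℕ) : ZMod r.l) = -(yv r j : ZMod r.l) := by
    intro j hj
    rw [ZMod.natCast_mod, Nat.cast_sub hj, ZMod.natCast_self, zero_sub]
  have e5 : (List.map (fun x => ((wv r x * (x.κ * xv r x + (al x % r.l) *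
      ((r.l - yv r x) % r.l)) : ℕ) : ZMod r.l)) (JT par (1, B, m) w)).sum =
      (List.map (fun j => (wv r j : ZMod r.l) * ((j.κ : ZMod r.l) * xv r j +
        (j.α : ZMod r.l) * yv r j)) (JT par (1, B, m) w)).sum := by
    apply lsum_congr
    intro j hj
    obtain ⟨-, -, -, -, z5⟩ := sj j hj
    rw [Nat.cast_mul, Nat.cast_add, Nat.cast_mul, Nat.cast_mul, hneg j z5, ZMod.natCast_mod,
      hal j hj]
    ring
  rw [e5, Nat.cast_mul, Nat.cast_mul, hneg _ s0.2.2.2.2, hb]
  push_cast at hrel ⊢
  linear_combination hrel

end

end Pool.Agent.SU.EL


end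

section

/-!
Real quadratic fields with small units: the search.
-/

namespace Pool.Agent.SU.EL

open Finset Pool.Agent.Lib_helper5 Pool.Agent.Lib_helper5.LK Pool.Agent.LibH4.Ker
  Pool.Agent.LibH4.KF Pool.Agent.LibH4.T6 Pool.Agent.Lib_helper5.TB Pool.Agent.LibH4.S7
  Pool.Agent.LibH4 Pool.Agent.LibH4.CW

/-- a half word and its family -/
structure Sit (par : Bool) (w : List ℕ) (v u be m0 t : ℕ) (D : ℤ) : Prop where
  len : w.length ≤ 17
  W : RelJ D (JH par ((v * t + be : ℕ) : ℤ) ((u * t + m0 : ℕ) : ℤ) w)

/-- the forms -/
abbrev JF (par : Bool) (w : List ℕ) (v u be m0 t : ℕ) : List Fm :=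
  JH par ((v * t + be : ℕ) : ℤ) ((u * t + m0 : ℕ) : ℤ) w

section

variable {par : Bool} {w : List ℕ} {v u be m0 t : ℕ} {D : ℤ}

lemma Sit.disc (S : Sit par w v u be m0 t D) :
    ((v * t + be : ℕ) : ℤ) ^ 2 + 4 * ((u * t + m0 : ℕ) : ℤ) = D := by
  have h := S.W.disc _ (List.mem_cons_self)
  rw [← h]
  ring

/-- classes -/
lemma lift_class {n K c : ℕ} (hc : 0 < c) (hn : (K : ℤ) ∣ (t : ℤ) - n) :
    ∃ s, s < Nat.div c (Nat.gcd K c) ∧
      ((Nat.mul K (Nat.div c (Nat.gcd K c)) : ℕ) : ℤ) ∣ (t : ℤ) - ((Nat.add n (Nat.mul K s) : ℕ) : ℤ) := by
  have hg : 0 < Nat.gcd K c := Nat.gcd_pos_of_pos_right _ hc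
  have hq : 0 < c / Nat.gcd K c := Nat.div_pos (Nat.le_of_dvd hc (Nat.gcd_dvd_right _ _)) hg
  obtain ⟨x, hx⟩ := hn
  set q := c / Nat.gcd K c with hqd
  have e0 : Nat.div c (Nat.gcd K c) = q := rfl
  rw [e0]
  have hq' : (0 : ℤ) < (q : ℤ) := by exact_mod_cast hq
  have h1 : 0 ≤ x % (q : ℤ) := Int.emod_nonneg _ hq'.ne'
  have h2 : x % (q : ℤ) < q := Int.emod_lt_of_pos _ hq'
  refine ⟨(x % (q : ℤ)).toNat, by omega, ?_⟩
  have e1 : ((Nat.add n (Nat.mul K (x % (q : ℤ)).toNat) : ℕ) : ℤ) = n + K * (x % (q : ℤ)) := by
    have : Nat.add n (Nat.mul K (x % (q : ℤ)).toNat) = n + K * (x % (q : ℤ)).toNat := rfl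
    rw [this]
    push_cast
    rw [Int.toNat_of_nonneg h1]
  have e2 : ((Nat.mul K q : ℕ) : ℤ) = (K : ℤ) * q := by
    have : Nat.mul K q = K * q := rfl
    rw [this]; push_cast; ring
  rw [e1, e2]
  refine ⟨x / q, ?_⟩
  have h3 := Int.emod_add_mul_ediv x q
  have h4 : (t : ℤ) - (n + K * (x % q)) = K * (x - x % q) := by linear_combination hx
  rw [h4]
  have h5 : x - x % (q : ℤ) = q * (x / q) := by linear_combination -h3
  rw [h5]
  ring

lemma dvd_lift {K c : ℕ} (hc : 0 < c) : c ∣ Nat.mul K (Nat.div c (Nat.gcd K c)) := by
  have e : Nat.mul K (Nat.div c (Nat.gcd K c)) = K * (c / Nat.gcd K c) := rfl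
  rw [e]
  have hg : 0 < Nat.gcd K c := Nat.gcd_pos_of_pos_right _ hc
  obtain ⟨a, ha⟩ := Nat.gcd_dvd_left K c
  obtain ⟨b, hb⟩ := Nat.gcd_dvd_right K c
  set g := Nat.gcd K c with hgd
  refine ⟨a, ?_⟩
  have h1 : c / g = b := by rw [hb, Nat.mul_div_cancel_left _ hg]
  rw [h1]
  calc K * b = g * a * b := by rw [← ha]
    _ = (g * b) * a := by ring
    _ = c * a := by rw [← hb]

lemma lin_eq {c n' K' x y : ℕ} (h : (K' : ℤ) ∣ (t : ℤ) - n') (hd : c ∣ K') :
    lin c x y n' = rs c ((x * t + y : ℕ) : ℤ) := by
  have e : lin c x y n' = (x * n' + y) % c := rfl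
  rw [e]
  apply rs_of
  have h1 : ((c : ℕ) : ℤ) ∣ (t : ℤ) - n' := dvd_trans (by exact_mod_cast hd) h
  have h2 : ((t : ℤ) : ZMod c) = ((n' : ℤ) : ZMod c) := by
    rw [← sub_eq_zero, ← Int.cast_sub]
    exact (ZMod.intCast_zmod_eq_zero_iff_dvd _ _).2 h1
  push_cast at h2 ⊢
  rw [h2]

lemma mul_lift_pos {K c : ℕ} (hK : 0 < K) (hc : 0 < c) :
    0 < Nat.mul K (Nat.div c (Nat.gcd K c)) := by
  have hg : 0 < Nat.gcd K c := Nat.gcd_pos_of_pos_right _ hc
  have hq : 0 < c / Nat.gcd K c := Nat.div_pos (Nat.le_of_dvd hc (Nat.gcd_dvd_right _ _)) hg
  exact Nat.mul_pos hK hq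

/-- **component level** -/
theorem lM_sound {c : Cmp} {NP ST : ℕ} {A : ℕ → ℕ → ℕ → Bool} (hc : CmpOK c) (h1 : 1 < c.n)
    (hA : AD c.n A) (np : npCk c.n c.ex c.PT c.F NP = true) (st : stCk c.n c.ex c.PT A ST = true)
    (S : Sit par w v u be m0 t D) {n K : ℕ} (hn : (K : ℤ) ∣ (t : ℤ) - n)
    {ih : ℕ → ℕ → ℕ → Bool}
    (h : lM4 c.n NP ST par (LQ par w) v u be m0 n K (Nat.div c.n (Nat.gcd K c.n)) ih = true) :
    ∃ n' K' : ℕ, (K' : ℤ) ∣ (t : ℤ) - ((n' : ℕ) : ℤ) ∧ ih (VV c (JF par w v u be m0 t)) n' K' = true := by
  have hc0 := hc.pos
  obtain ⟨s, hs, hd⟩ := lift_class (t := t) hc0 hn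
  have h2 := allR_spec h s hs
  have d := dvd_lift (K := K) hc0
  set n' := Nat.add n (Nat.mul K s) with hn'
  set K' := Nat.mul K (Nat.div c.n (Nat.gcd K c.n)) with hK'
  refine ⟨n', K', hd, ?_⟩
  have e1 := lin_eq (t := t) (x := v) (y := be) hd d
  have e2 := lin_eq (t := t) (x := u) (y := m0) hd d
  have h3 : lM1 c.n NP par (LQ par w) K (Nat.div c.n (Nat.gcd K c.n)) n' (lin c.n u m0 n')
      (ste c.n ST (lin c.n v be n') (lin c.n u m0 n')) ih = true := h2
  rw [e1, e2] at h3
  rw [ste_spec hc hA S.W.dok S.disc st] at h3
  have e3 : ∀ e, lM1 c.n NP par (LQ par w) K (Nat.div c.n (Nat.gcd K c.n)) n'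
      (rs c.n ((u * t + m0 : ℕ) : ℤ)) (e + 1) ih =
      ih (orbV c.n NP par (LQ par w) (rs c.n ((u * t + m0 : ℕ) : ℤ)) (e + 1)) n' K' := fun _ => rfl
  have e4 : pz c (((u * t + m0 : ℕ) : ℤ), ((v * t + be : ℕ) : ℤ), 1) +
      (256 * pz c (1, ((v * t + be : ℕ) : ℤ), ((u * t + m0 : ℕ) : ℤ)) + 65536) =
      (pz c (((u * t + m0 : ℕ) : ℤ), ((v * t + be : ℕ) : ℤ), 1) +
      (256 * pz c (1, ((v * t + be : ℕ) : ℤ), ((u * t + m0 : ℕ) : ℤ)) + 65535)) + 1 := by omega
  rw [e4, e3, ← e4, orbV_spec hc h1 S.W.dok np par w S.disc] at h3
  exact h3

/-- **relation level** -/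
theorem lR_sound {r : RD} {T C : ℕ} (hr : RJOK r) (hT : TJOK r T C)
    (S : Sit par w v u be m0 t D) {n K : ℕ} (hn : (K : ℤ) ∣ (t : ℤ) - n)
    {V1 V2 V3 : ℕ} (h1 : V1 = VV (cof r.n1) (JF par w v u be m0 t))
    (h2 : V2 = VV (cof r.n2) (JF par w v u be m0 t))
    (h3 : V3 = VV (cof r.n3) (JF par w v u be m0 t)) {ih : ℕ → ℕ → Bool}
    (h : lR r.l (mul1 r) (mul2 r) mul3 T C V1 V2 V3 par (LQ par w) v be n K ih = true) :
    ∃ n' K' : ℕ, (K' : ℤ) ∣ (t : ℤ) - ((n' : ℕ) : ℤ) ∧ ih n' K' = true := by
  have hc0 := hr.l0
  have : NeZero r.l := ⟨hc0.ne'⟩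
  obtain ⟨s, hs, hd⟩ := lift_class (t := t) hc0 hn
  have h4 := allR_spec h s hs
  have d := dvd_lift (K := K) hc0
  set n' := Nat.add n (Nat.mul K s) with hn'
  set K' := Nat.mul K (Nat.div r.l (Nat.gcd K r.l)) with hK'
  refine ⟨n', K', hd, ?_⟩
  have e1 := lin_eq (t := t) (x := v) (y := be) hd d
  have h5 := rel_level hr hT S.len S.W (b := lin r.l v be n') (by rw [e1, rs_cast]) h1 h2 h3 rfl
  have h6 : Nat.beq (Nat.mod (Nat.add (Nat.mod (Nat.shiftRight (fold r.l T C par (LQ par w)
      (Nat.shiftRight (Nat.add (Nat.mul (mul1 r) V1) (Nat.add (Nat.mul (mul2 r) V2)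
        (Nat.mul mul3 V3))) 96)) 19) 524288) (Nat.mul (lin r.l v be n')
      (Nat.mul (Nat.shiftRight (zz T (Nat.add (Nat.mul (mul1 r) V1) (Nat.add (Nat.mul (mul2 r) V2)
        (Nat.mul mul3 V3)))) 19) (ww C (Nat.add (Nat.mul (mul1 r) V1) (Nat.add (Nat.mul (mul2 r) V2)
        (Nat.mul mul3 V3))))))) r.l) 0 = true := by
    rw [Nat.beq_eq]
    exact h5
  have h7 : br (Nat.beq (Nat.mod (Nat.add (Nat.mod (Nat.shiftRight (fold r.l T C par (LQ par w)
      (Nat.shiftRight (Nat.add (Nat.mul (mul1 r) V1) (Nat.add (Nat.mul (mul2 r) V2)
        (Nat.mul mul3 V3))) 96)) 19) 524288) (Nat.mul (lin r.l v be n')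
      (Nat.mul (Nat.shiftRight (zz T (Nat.add (Nat.mul (mul1 r) V1) (Nat.add (Nat.mul (mul2 r) V2)
        (Nat.mul mul3 V3)))) 19) (ww C (Nat.add (Nat.mul (mul1 r) V1) (Nat.add (Nat.mul (mul2 r) V2)
        (Nat.mul mul3 V3))))))) r.l) 0) (ih n' K') = true := h4
  rw [h6] at h7
  exact h7

/-- **inert level** -/
theorem lI_sound (S : Sit par w v u be m0 t D) {n K : ℕ} (hn : (K : ℤ) ∣ (t : ℤ) - n)
    {ih : ℕ → ℕ → Bool}
    (h : lI 29 v u be m0 n K (Nat.div 29 (Nat.gcd K 29)) ih = true) :
    ∃ n' K' : ℕ, (K' : ℤ) ∣ (t : ℤ) - ((n' : ℕ) : ℤ) ∧ ih n' K' = true := by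
  have hc0 : 0 < 29 := by norm_num
  have : NeZero 29 := ⟨by norm_num⟩
  obtain ⟨s, hs, hd⟩ := lift_class (t := t) hc0 hn
  have h4 := allR_spec h s hs
  have d := dvd_lift (K := K) hc0
  set n' := Nat.add n (Nat.mul K s) with hn'
  set K' := Nat.mul K (Nat.div 29 (Nat.gcd K 29)) with hK'
  refine ⟨n', K', hd, ?_⟩
  have e1 := lin_eq (t := t) (x := v) (y := be) hd d
  have e2 := lin_eq (t := t) (x := u) (y := m0) hd d
  have h5 : br (inr 29 (lin 29 v be n' ^ 2 + 4 * lin 29 u m0 n')) (ih n' K') = true := h4
  rw [e1, e2] at h5
  have h6 : inr 29 (rs 29 ((v * t + be : ℕ) : ℤ) ^ 2 + 4 * rs 29 ((u * t + m0 : ℕ) : ℤ)) = true := by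
    have h7 := S.W.in29
    unfold K5.In at h7
    have h8 : (rs 29 ((v * t + be : ℕ) : ℤ) ^ 2 + 4 * rs 29 ((u * t + m0 : ℕ) : ℤ)) % 29 =
        rs 29 D := by
      apply rs_of
      rw [← S.disc, Nat.cast_add, Nat.cast_mul, Nat.cast_pow, rs_cast, rs_cast]
      push_cast
      ring
    have h9 : inr 29 (rs 29 ((v * t + be : ℕ) : ℤ) ^ 2 + 4 * rs 29 ((u * t + m0 : ℕ) : ℤ)) =
        inr 29 ((rs 29 ((v * t + be : ℕ) : ℤ) ^ 2 + 4 * rs 29 ((u * t + m0 : ℕ) : ℤ)) % 29) := by
      generalize rs 29 ((v * t + be : ℕ) : ℤ) ^ 2 + 4 * rs 29 ((u * t + m0 : ℕ) : ℤ) = y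
      have e3 : ∀ y, inr 29 y = Nat.beq (y ^ 14 % 29) 28 := fun _ => rfl
      rw [e3, e3, Nat.pow_mod y]
    rw [h9, h8]
    exact h7
  rw [h6] at h5
  exact h5

/-! ### the chain -/

lemma VV_one (J : List Fm) : VV (cof 1) J = 0 := by
  have h0 : ∀ j : Fm, cj (cof 1) j = 0 := by
    intro j
    have e1 : rs 1 j.P = 0 := by
      have := rs_lt (p := 1) j.P
      omega
    have e2 : rs 1 j.R = 0 := by
      have := rs_lt (p := 1) j.R
      omega
    have e3 : rs 1 j.S = 0 := by
      have := rs_lt (p := 1) j.S
      omega
    have hp : pj (cof 1) j = pos 1 0 PT1 (rs 1 j.P) (rs 1 j.R) (rs 1 j.S) := rfl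
    have hw : wj (cof 1) j = rs 1 j.P := rfl
    unfold cj
    rw [hp, hw, e1, e2, e3]
    decide +kernel
  unfold VV
  induction J with
  | nil => rfl
  | cons j J ih => rw [packL_cons, ih, h0, mul_zero, add_zero]

/-- correct levels -/
inductive Chn : List Cmp → List Lv → Prop
  | nil (cs : List Cmp) : Chn cs []
  | M {cs : List Cmp} {ls : List Lv} {c : Cmp} {NP ST : ℕ} {A : ℕ → ℕ → ℕ → Bool}
      (hc : CmpOK c) (h1 : 1 < c.n) (hA : AD c.n A) (np : npCk c.n c.ex c.PT c.F NP = true)
      (st : stCk c.n c.ex c.PT A ST = true) (h : Chn (c :: cs) ls) :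
      Chn cs (Lv.M c.n NP ST :: ls)
  | R {cs : List Cmp} {ls : List Lv} {r : RD} {T C j1 j2 j3 : ℕ} (hr : RJOK r)
      (hT : TJOK r T C) (h1 : cs[j1]? = some (cof r.n1)) (h2 : cs[j2]? = some (cof r.n2))
      (h3 : cs[j3]? = some (cof r.n3)) (h : Chn cs ls) :
      Chn cs (Lv.R r.l j1 j2 j3 (mul1 r) (mul2 r) mul3 T C :: ls)
  | I {cs : List Cmp} {ls : List Lv} (h : Chn cs ls) : Chn cs (Lv.I 29 :: ls)

lemma nthV_eq (L : List ℕ) (i x : ℕ) (h : L[i]? = some x) : nthV L i = x := by
  induction L generalizing i with
  | nil => simp at h
  | cons y L ih =>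
    cases i with
    | zero =>
      rw [List.getElem?_cons_zero, Option.some.injEq] at h
      exact h
    | succ i =>
      rw [List.getElem?_cons_succ] at h
      exact ih i h

/-- **the search** -/
theorem dfs_sound {cs : List Cmp} {ls : List Lv} (hc : Chn cs ls)
    (S : Sit par w v u be m0 t D) {n K : ℕ} (hn : (K : ℤ) ∣ (t : ℤ) - n)
    (h : dfs par (LQ par w) v u be m0 ls (cs.map fun c => VV c (JF par w v u be m0 t)) n K = true) :
    False := by
  induction hc generalizing n K with
  | nil cs => exact absurd h (by simp [dfs])
  | @M cs ls c NP ST A hc h1 hA np st hch ih =>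
    obtain ⟨n', K', hd, h2⟩ := lM_sound hc h1 hA np st S hn (ih := fun V =>
      dfs par (LQ par w) v u be m0 ls (V :: cs.map fun c => VV c (JF par w v u be m0 t))) h
    exact ih hd h2
  | @R cs ls r T C j1 j2 j3 hr hT h1 h2 h3 hch ih =>
    have key : ∀ j c, cs[j]? = some c → nthV (cs.map fun c => VV c (JF par w v u be m0 t)) j =
        VV c (JF par w v u be m0 t) := by
      intro j c hj
      apply nthV_eq
      rw [List.getElem?_map, hj]
      rfl
    obtain ⟨n', K', hd, h5⟩ := lR_sound hr hT S hn (key _ _ h1) (key _ _ h2) (key _ _ h3)
      (ih := dfs par (LQ par w) v u be m0 ls (cs.map fun c => VV c (JF par w v u be m0 t))) h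
    exact ih hd h5
  | @I cs ls hch ih =>
    obtain ⟨n', K', hd, h5⟩ := lI_sound S hn
      (ih := dfs par (LQ par w) v u be m0 ls (cs.map fun c => VV c (JF par w v u be m0 t))) h
    exact ih hd h5

end

end Pool.Agent.SU.EL


end

section

/-!
Real quadratic fields with small units: the first stages of the elimination.
-/

namespace Pool.Agent.SU.EL

open Pool.Agent.LibH4.Ker Pool.Agent.LibH4.CW Pool.Agent.Lib_helper5.TB

/-- constant -/
def V1 : ℕ := nat_lit 1552518092300708935148979488462502555256886017116696611139052038026050952686376886330878408828646477950487730697131073206171580044114814391444287275041181139204454976020849905550265285631598444825262999193716468750892846853816057856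
/-- constant -/
def V2 : ℕ := nat_lit 2743062034396844341627968125593604635037196317966166035056000994228098690879836473582587849768181396806642362668936055872479091931372323951612051859122835149807249350355003132267795098895967012320756270631179897595796976964454084495146379250195728106130226298287754794921070036903071843030324651025760256
/-- constant -/
def S1 : ℕ := nat_lit 236412037178366875273674240600861682830478435622792680007689760425474330628983263668485597529309493844839767941840896
/-- constant -/
def T1 : ℕ := nat_lit 118206018589183437636837120300430841415239217811396340003844880212737165314491631834242798764654746922419883970920448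
/-- constant -/
def S2 : ℕ := nat_lit 314245498358029619521266210895449518612797636420134219790395971337228844454848757268793928863286799086485121676245766816884856628404997733119538648580096
/-- constant -/
def T2 : ℕ := nat_lit 157122749179014809760633105447724759306398818210067109895197985668614422227424378634396964431643399543242560838122883408442428314202498866559769324290048

/-- tables of the first stages -/
structure FT where
  /-- table -/
  NP7 : ℕ
  /-- table -/
  ST7 : ℕ
  /-- table -/
  NP8 : ℕ
  /-- table -/
  ST8 : ℕ
  /-- table -/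
  NP11 : ℕ
  /-- table -/
  ST11 : ℕ
  /-- table -/
  RW : ℕ
  /-- table -/
  RX : ℕ
  /-- table -/
  C11 : ℕ
  /-- table -/
  C8 : ℕ
  /-- table -/
  C88 : ℕ
  /-- table -/
  C7 : ℕ

/-- coefficient -/
def mus (h6 b : ℕ) : ℕ := Nat.add (Nat.mod b (nat_lit 11)) h6

/-- the second factor -/
def yS (n NP V h6 h3 C j : ℕ) (par : Bool) (L : List (ℕ × ℕ)) (m e : ℕ) : ℕ :=
  orbA (hot C j) V n NP h3 (mus h6) par L (ep1 e) (nat_lit 1) (hot C j (nat_lit 1) (ep0 e) m)

/-- emission of the first factor -/
def emW (R C wd V p P : ℕ) : ℕ := Nat.mul (wgt C P) (rwt R wd V p)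

/-- the first factor -/
def xS (n NP V wd R C B : ℕ) (par : Bool) (L : List (ℕ × ℕ)) (m e : ℕ) : ℕ :=
  Nat.add (Nat.mul (Nat.mod (Nat.mul B (wgt C m)) (nat_lit 11)) (rwt R wd V (ep0 e)))
    (Nat.mul V (orbP (emW R C wd V) V n NP par L (ep1 e) (nat_lit 1)))

/-- row of the table of the second stage -/
def blr (R V U : ℕ) : ℕ := Nat.mod (Nat.shiftRight R (Nat.mod U (nat_lit 16777216))) V

/-- blocks -/
def blk (R C V U : ℕ) : ℕ := Nat.mul (ww C U) (blr R V U)

/-- blocks -/
def blks (R C V N : ℕ) : ℕ → ℕ :=
  @Nat.rec (fun _ => ℕ → ℕ) (fun _ => (nat_lit 0)) (fun _ ih U => Nat.add (blk R C V U)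
    (Nat.mul V (ih (Nat.shiftRight U (nat_lit 96))))) N

/-- the first factor of the second stage -/
def xT (R C V B N U : ℕ) : ℕ :=
  Nat.add (Nat.mul (Nat.mod (Nat.mul B (ww C U)) (nat_lit 11)) (blr R V U))
    (Nat.mul V (blks R C V N (Nat.shiftRight U (nat_lit 96))))

/-- third stage -/
def s7a (G : FT) (par : Bool) (L : List (ℕ × ℕ)) (X sh V11 V8 n' m e : ℕ)
    (tl : List ℕ → ℕ → ℕ → Bool) : Bool :=
  @Nat.rec (fun _ => Bool) true (fun _ _ => br (pck X (yS (nat_lit 7) G.NP7 V2 S2 T2
    G.C7 (nat_lit 20) par L m e) sh)
    (tl (orbV (nat_lit 7) G.NP7 par L m e :: V11 :: V8 :: (nat_lit 0) :: []) n' (nat_lit 616))) e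
/-- third stage -/
def s7b (G : FT) (par : Bool) (L : List (ℕ × ℕ)) (X sh V11 V8 n' B m : ℕ)
    (tl : List ℕ → ℕ → ℕ → Bool) : Bool :=
  s7a G par L X sh V11 V8 n' m (ste (nat_lit 7) G.ST7 B m) tl
/-- third stage -/
def s7c (G : FT) (par : Bool) (L : List (ℕ × ℕ)) (v u be m0 X sh V11 V8 n' : ℕ)
    (tl : List ℕ → ℕ → ℕ → Bool) : Bool :=
  s7b G par L X sh V11 V8 n' (lin (nat_lit 7) v be n') (lin (nat_lit 7) u m0 n') tl
/-- third stage -/
def s7d (G : FT) (par : Bool) (L : List (ℕ × ℕ)) (v u be m0 n X sh V11 V8 : ℕ)
    (tl : List ℕ → ℕ → ℕ → Bool) : Bool :=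
  allR (fun t => s7c G par L v u be m0 X sh V11 V8 (Nat.add n (Nat.mul (nat_lit 88) t)) tl)
    (nat_lit 7)
/-- third stage -/
def s7e (G : FT) (par : Bool) (L : List (ℕ × ℕ)) (v u be m0 N n B V11 V8 U : ℕ)
    (tl : List ℕ → ℕ → ℕ → Bool) : Bool :=
  s7d G par L v u be m0 n (xT G.RX G.C88 V2 B N U)
    (Nat.add (Nat.mul (nat_lit 1008) N) (nat_lit 984)) V11 V8 tl
/-- third stage -/
def s7f (G : FT) (par : Bool) (L : List (ℕ × ℕ)) (v u be m0 N n B V11 V8 : ℕ)
    (tl : List ℕ → ℕ → ℕ → Bool) : Bool :=
  s7e G par L v u be m0 N n B V11 V8
    (Nat.add (Nat.mul (nat_lit 1073757952) V11) (Nat.mul (nat_lit 134218736) V8)) tl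

/-- classes modulo 8 -/
def c8a (G : FT) (par : Bool) (L : List (ℕ × ℕ)) (t m e : ℕ)
    (ih : (List (ℕ × ℕ × ℕ × ℕ) → Bool) → Bool) (k : List (ℕ × ℕ × ℕ × ℕ) → Bool) : Bool :=
  @Nat.rec (fun _ => Bool) (ih k) (fun _ _ => ih fun r => k ((t, m, e, yS (nat_lit 8) G.NP8 V1 S1 T1
    G.C8 (nat_lit 15) par L m e) :: r)) e
/-- classes modulo 8 -/
def c8b (G : FT) (par : Bool) (L : List (ℕ × ℕ)) (t B m : ℕ)
    (ih : (List (ℕ × ℕ × ℕ × ℕ) → Bool) → Bool) (k : List (ℕ × ℕ × ℕ × ℕ) → Bool) : Bool :=
  c8a G par L t m (ste (nat_lit 8) G.ST8 B m) ih k
/-- classes modulo 8 -/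
def cls8 (G : FT) (par : Bool) (L : List (ℕ × ℕ)) (v u be m0 q : ℕ) :
    (List (ℕ × ℕ × ℕ × ℕ) → Bool) → Bool :=
  @Nat.rec (fun _ => (List (ℕ × ℕ × ℕ × ℕ) → Bool) → Bool) (fun k => k [])
    (fun t ih k => c8b G par L t (lin (nat_lit 8) v be t) (lin (nat_lit 8) u m0 t) ih k) q

/-- classes modulo 11 -/
def c11a (G : FT) (par : Bool) (L : List (ℕ × ℕ)) (v u be m0 N sh t B m e X : ℕ)
    (tl : List ℕ → ℕ → ℕ → Bool) (x : ℕ × ℕ × ℕ × ℕ) : Bool :=
  br (pck X x.2.2.2 sh) (s7f G par L v u be m0 N
    (Nat.mod (Nat.add (Nat.mul (nat_lit 33) x.1) (Nat.mul (nat_lit 56) t)) (nat_lit 88)) B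
    (orbV (nat_lit 11) G.NP11 par L m e) (orbV (nat_lit 8) G.NP8 par L x.2.1 x.2.2.1) tl)
/-- classes modulo 11 -/
def c11b (G : FT) (par : Bool) (L : List (ℕ × ℕ)) (v u be m0 N sh : ℕ)
    (L8 : List (ℕ × ℕ × ℕ × ℕ)) (t B m e : ℕ) (tl : List ℕ → ℕ → ℕ → Bool) : Bool :=
  @Nat.rec (fun _ => Bool) true (fun _ _ => allL (c11a G par L v u be m0 N sh t B m e
    (xS (nat_lit 11) G.NP11 V1 (nat_lit 768) G.RW G.C11 B par L m e) tl) L8) e
/-- classes modulo 11 -/
def c11c (G : FT) (par : Bool) (L : List (ℕ × ℕ)) (v u be m0 N sh : ℕ)
    (L8 : List (ℕ × ℕ × ℕ × ℕ)) (t B m : ℕ) (tl : List ℕ → ℕ → ℕ → Bool) : Bool :=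
  c11b G par L v u be m0 N sh L8 t B m (ste (nat_lit 11) G.ST11 B m) tl
/-- classes modulo 11 -/
def c11 (G : FT) (par : Bool) (L : List (ℕ × ℕ)) (v u be m0 N sh : ℕ)
    (tl : List ℕ → ℕ → ℕ → Bool) (L8 : List (ℕ × ℕ × ℕ × ℕ)) : Bool :=
  allR (fun t => c11c G par L v u be m0 N sh L8 t (lin (nat_lit 11) v be t)
    (lin (nat_lit 11) u m0 t) tl) (nat_lit 11)

/-- the elimination of a list of letters -/
noncomputable def elimL (G : FT) (ls : List Lv) (par : Bool) (N v u be m0 : ℕ)
    (L : List (ℕ × ℕ)) : Bool :=
  cls8 G par L v u be m0 (nat_lit 8) (c11 G par L v u be m0 N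
    (Nat.add (Nat.mul (nat_lit 768) N) (nat_lit 744)) (dfs par L v u be m0 ls))

/-- the elimination of a half word -/
noncomputable def elimG (G : FT) (ls : List Lv) (par : Bool) (h W v u be m0 : ℕ) : Bool :=
  @Bool.rec (fun _ => Bool) false (ltr par h W (elimL G ls par
    (@Bool.rec (fun _ => ℕ) (Nat.succ h) h par) v u be m0)) (Nat.ble h (nat_lit 17))

end Pool.Agent.SU.EL


end

section

/-!
Real quadratic fields with small units: sums of values by one multiplication.
-/

namespace Pool.Agent.SU.EL

open Finset Pool.Agent.Lib_helper5 Pool.Agent.Lib_helper5.LK Pool.Agent.LibH4.Ker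
  Pool.Agent.LibH4.KF Pool.Agent.LibH4.T6 Pool.Agent.Lib_helper5.TB Pool.Agent.LibH4.S7
  Pool.Agent.LibH4 Pool.Agent.LibH4.CW

lemma rp_range (V : ℕ) (f : ℕ → ℕ) (n : ℕ) :
    rp V f (List.range n) = ∑ k ∈ range n, f k * V ^ (n - 1 - k) := by
  induction n with
  | zero => rfl
  | succ n ih =>
    rw [List.range_succ, rp_append, ih, Finset.sum_range_succ, List.length_singleton, pow_one,
      Finset.sum_mul]
    have e1 : rp V f [n] = f n := by simp [rp]
    rw [e1]
    congr 1
    · apply Finset.sum_congr rfl
      intro k hk
      rw [Finset.mem_range] at hk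
      rw [mul_assoc, ← pow_succ]
      congr 2
      omega
    · rw [Nat.add_sub_cancel, Nat.sub_self, pow_zero, mul_one]

/-- the digits of a one hot vector -/
def hd2 (P p x y k : ℕ) : ℕ := if k = p then x else if k = P + p then y else 0

lemma hot_rp {P p x y : ℕ} (hp : p < P) :
    (y + x * 2 ^ (24 * P)) <<< (24 * (P - 1 - p)) =
      rp (2 ^ 24) (hd2 P p x y) (List.range (2 * P)) := by
  rw [rp_range, Nat.shiftLeft_eq]
  have h1 : ∀ k ∈ range (2 * P), hd2 P p x y k * (2 ^ 24) ^ (2 * P - 1 - k) =
      (if k = p then x * (2 ^ 24) ^ (2 * P - 1 - k) else 0) +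
        (if k = P + p then y * (2 ^ 24) ^ (2 * P - 1 - k) else 0) := by
    intro k _
    unfold hd2
    by_cases h : k = p
    · have h' : ¬ k = P + p := by omega
      simp only [if_pos h, if_neg h', add_zero]
    · by_cases h' : k = P + p
      · simp only [if_neg h, if_pos h', zero_add]
      · simp only [if_neg h, if_neg h', zero_mul, add_zero]
  rw [Finset.sum_congr rfl h1, Finset.sum_add_distrib, Finset.sum_ite_eq', Finset.sum_ite_eq',
    if_pos (Finset.mem_range.2 (by omega)), if_pos (Finset.mem_range.2 (by omega)), ← pow_mul,
    ← pow_mul, add_mul, mul_assoc, ← pow_add]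
  have e1 : 24 * P + 24 * (P - 1 - p) = 24 * (2 * P - 1 - p) := by omega
  have e2 : 24 * (P - 1 - p) = 24 * (2 * P - 1 - (P + p)) := by omega
  rw [e1, e2]
  ring

lemma hd2_le {P p x y k M : ℕ} (hx : x ≤ M) (hy : y ≤ M) : hd2 P p x y k ≤ M := by
  unfold hd2
  split_ifs
  · exact hx
  · exact hy
  · exact Nat.zero_le _

/-- **inner products of blocks and one hot vectors** -/
theorem dot_eq {L : List Fm} {P : ℕ} {A W K E p : Fm → ℕ} {rd : Fm → ℕ → ℕ} (hL : L ≠ [])
    (hP : 0 < P) (hp : ∀ j ∈ L, p j < P) (hrd : ∀ j ∈ L, ∀ k, k < 2 * P → rd j k ≤ 10)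
    (hA : ∀ j ∈ L, A j ≤ 10) (hW : ∀ j ∈ L, W j ≤ 10) (hK : ∀ j ∈ L, K j ≤ 10)
    (hE : ∀ j ∈ L, E j ≤ 10) (hlen : L.length * (2 * P) * 10000 < 2 ^ 24) :
    ((packL (2 ^ (48 * P)) (fun j => A j * packL (2 ^ 24) (rd j) (List.range (2 * P))) L *
      rp (2 ^ (48 * P)) (fun j => (W j * (E j + K j * 2 ^ (24 * P))) <<< (24 * (P - 1 - p j))) L)
      >>> (48 * P * (L.length - 1) + 24 * (2 * P - 1))) % 2 ^ 24 =
      (L.map fun j => A j * W j * (K j * rd j (p j) + E j * rd j (P + p j))).sum := by
  have hlen0 : 0 < L.length := List.length_pos_iff.2 hL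
  have e0 : (2 : ℕ) ^ (48 * P) = (2 ^ 24) ^ (List.range (2 * P)).length := by
    rw [List.length_range, ← pow_mul]; congr 1; ring
  -- the blocks
  have e1 : packL (2 ^ (48 * P)) (fun j => A j * packL (2 ^ 24) (rd j) (List.range (2 * P))) L =
      packL (2 ^ 24) (fun y : Fm × ℕ => A y.1 * rd y.1 y.2) (L ×ˢ List.range (2 * P)) := by
    rw [e0]
    have := packL_flat (2 ^ 24) (fun (x : Fm) (k : ℕ) => A x * rd x k) L (List.range (2 * P))
    rw [← this]
    congr 1
    ext j
    generalize List.range (2 * P) = M
    induction M with
    | nil => rfl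
    | cons k M ih => rw [packL_cons, packL_cons, ← ih]; ring
  have e2 : rp (2 ^ (48 * P)) (fun j => (W j * (E j + K j * 2 ^ (24 * P))) <<<
      (24 * (P - 1 - p j))) L = rp (2 ^ 24) (fun y : Fm × ℕ => hd2 P (p y.1) (W y.1 * K y.1)
        (W y.1 * E y.1) y.2) (L ×ˢ List.range (2 * P)) := by
    rw [e0]
    have := rp_flat (2 ^ 24) (fun (x : Fm) (k : ℕ) => hd2 P (p x) (W x * K x) (W x * E x) k) L
      (List.range (2 * P))
    rw [← this]
    apply rp_congr
    intro j hj
    rw [← hot_rp (hp j hj)]
    congr 1
    ring
  rw [e1, e2, mul_comm, Nat.shiftRight_eq_div_pow]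
  have hne : L ×ˢ List.range (2 * P) ≠ [] := by
    intro h
    have := congrArg List.length h
    rw [List.length_product, List.length_range, List.length_nil] at this
    have : 0 < L.length * (2 * P) := by positivity
    omega
  have hmem : ∀ y ∈ L ×ˢ List.range (2 * P), y.1 ∈ L ∧ y.2 < 2 * P := by
    intro y hy
    obtain ⟨y1, y2⟩ := y
    have := List.mem_product.1 hy
    exact ⟨this.1, List.mem_range.1 this.2⟩
  have hip := ip_eq (V := 2 ^ 24) (A := 100) (B := 100)
    (a := fun y : Fm × ℕ => hd2 P (p y.1) (W y.1 * K y.1) (W y.1 * E y.1) y.2)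
    (b := fun y : Fm × ℕ => A y.1 * rd y.1 y.2) hne
    (by
      intro y hy
      obtain ⟨h1, h2⟩ := hmem y hy
      exact hd2_le (Nat.mul_le_mul (hW _ h1) (hK _ h1)) (Nat.mul_le_mul (hW _ h1) (hE _ h1)))
    (by
      intro y hy
      obtain ⟨h1, h2⟩ := hmem y hy
      exact Nat.mul_le_mul (hA _ h1) (hrd _ h1 _ h2))
    (by rw [List.length_product, List.length_range]; omega)
  have e3 : (2 : ℕ) ^ (48 * P * (L.length - 1) + 24 * (2 * P - 1)) =
      (2 ^ 24) ^ ((L ×ˢ List.range (2 * P)).length - 1) := by
    rw [List.length_product, List.length_range, ← pow_mul]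
    congr 1
    obtain ⟨n, hn⟩ : ∃ n, L.length = n + 1 := ⟨L.length - 1, by omega⟩
    obtain ⟨q, hq⟩ : ∃ q, 2 * P = q + 1 := ⟨2 * P - 1, by omega⟩
    rw [hn, hq, Nat.add_sub_cancel, Nat.add_sub_cancel, show 48 * P = 24 * (q + 1) by omega,
      show (n + 1) * (q + 1) - 1 = n * (q + 1) + q by
        rw [Nat.add_mul, one_mul, ← Nat.add_assoc, Nat.add_sub_cancel]]
    ring
  rw [e3, hip]
  have hsf := sum_flat (fun (x : Fm) (k : ℕ) => hd2 P (p x) (W x * K x) (W x * E x) k *
    (A x * rd x k)) L (List.range (2 * P))
  rw [hsf]
  apply lsum_congr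
  intro j hj
  rw [lrange_sum]
  have hpj := hp j hj
  have h1 : ∀ k ∈ range (2 * P), hd2 P (p j) (W j * K j) (W j * E j) k * (A j * rd j k) =
      (if k = p j then (W j * K j) * (A j * rd j k) else 0) +
        (if k = P + p j then (W j * E j) * (A j * rd j k) else 0) := by
    intro k _
    unfold hd2
    by_cases h : k = p j
    · have h' : ¬ k = P + p j := by omega
      simp only [if_pos h, if_neg h', add_zero]
    · by_cases h' : k = P + p j
      · simp only [if_neg h, if_pos h', zero_add]
      · simp only [if_neg h, if_neg h', zero_mul, add_zero]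
  rw [Finset.sum_congr rfl h1, Finset.sum_add_distrib, Finset.sum_ite_eq', Finset.sum_ite_eq',
    if_pos (Finset.mem_range.2 (by omega)), if_pos (Finset.mem_range.2 (by omega))]
  ring

/-- the digits of a number -/
lemma digits_eq (n X : ℕ) :
    X % (2 ^ 24) ^ n = packL (2 ^ 24) (fun k => (X >>> (24 * k)) % 2 ^ 24) (List.range n) := by
  induction n with
  | zero => simp [packL, Nat.mod_one]
  | succ n ih =>
    rw [List.range_succ, packL_append, ← ih, List.length_range, packL_cons]
    change _ = _ + _ * ((X >>> (24 * n)) % 2 ^ 24 + 2 ^ 24 * 0)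
    rw [mul_zero, add_zero, Nat.shiftRight_eq_div_pow, pow_mul, pow_succ (2 ^ 24) n,
      Nat.mod_mul]

lemma JT_kappa0 (par : Bool) (w : List ℕ) (f : ℤ × ℤ × ℤ) : ∀ j ∈ JT par f w, j.κ ≠ 0 := by
  induction w generalizing f with
  | nil =>
    cases par with
    | false => intro j hj; simp only [JT, cond_false, List.mem_singleton] at hj; subst hj; simp
    | true => intro j hj; simp [JT] at hj
  | cons a w ih =>
    intro j hj
    rw [JT_cons] at hj
    rcases List.mem_cons.1 hj with rfl | hj
    · simp
    · exact ih _ _ hj

/-- the second coefficient of a one hot vector -/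
def Ej (l : ℕ) (j : Fm) : ℕ := if j.κ = 0 then 1 else al j % l

/-- **products and relations** -/
theorem dot_level {r : RD} (hr : RJOK r) {D : ℤ} {par : Bool} {B m : ℤ} {w : List ℕ}
    (W : RelJ D (JH par B m w)) {b : ℕ} (hb : ((b : ℕ) : ZMod r.l) = B) (hl : r.l ≤ 11) {P : ℕ}
    (hP : 0 < P) {A Wt p : Fm → ℕ} {rd : Fm → ℕ → ℕ} (hp : ∀ j ∈ JH par B m w, p j < P)
    (hrd : ∀ j ∈ JH par B m w, ∀ k, k < 2 * P → rd j k ≤ 10)
    (hA : ∀ j ∈ JH par B m w, A j ≤ 10) (hW : ∀ j ∈ JH par B m w, Wt j ≤ 10)
    (hlen : (JH par B m w).length * (2 * P) * 10000 < 2 ^ 24)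
    (hrx : ∀ j ∈ JH par B m w, rd j (p j) = xv r j)
    (hry : ∀ j ∈ JH par B m w, rd j (P + p j) = (r.l - yv r j) % r.l)
    (hyl : ∀ j ∈ JH par B m w, yv r j ≤ r.l)
    (hw : ∀ j ∈ JH par B m w, ((A j * Wt j : ℕ) : ZMod r.l) =
      (if j.κ = 0 then (b : ZMod r.l) else 1) * wv r j) {X Y sh : ℕ}
    (hX : X = packL (2 ^ (48 * P)) (fun j => A j * packL (2 ^ 24) (rd j) (List.range (2 * P)))
      (JH par B m w))
    (hY : Y = rp (2 ^ (48 * P)) (fun j => (Wt j * (Ej r.l j + j.κ * 2 ^ (24 * P))) <<<
      (24 * (P - 1 - p j))) (JH par B m w))
    (hsh : sh = 48 * P * ((JH par B m w).length - 1) + 24 * (2 * P - 1)) :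
    ((X * Y) >>> sh) % 2 ^ 24 % r.l = 0 := by
  have hl0 := hr.l0
  have : NeZero r.l := ⟨hl0.ne'⟩
  have hJ : JH par B m w = ⟨m, B, -1, 0, -B⟩ :: JT par (1, B, m) w := rfl
  rw [hX, hY, hsh, dot_eq (by rw [hJ]; simp) hP hp hrd hA hW (by
    intro j hj
    rw [hJ] at hj
    rcases List.mem_cons.1 hj with rfl | hj
    · simp
    · have := JT_kappa _ _ _ j hj; omega) (by
    intro j _
    unfold Ej
    split_ifs
    · omega
    · have := Nat.mod_lt (al j) hl0; omega) hlen]
  rw [← Nat.dvd_iff_mod_eq_zero, ← ZMod.natCast_eq_zero_iff, cast_lsum]
  have hrel := hr.rel W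
  rw [← Nat.dvd_iff_mod_eq_zero, ← ZMod.natCast_eq_zero_iff, cast_lsum] at hrel
  rw [← hrel]
  apply lsum_congr
  intro j hj
  rw [fval_cast hr, Nat.cast_mul, hw j hj, hrx j hj, hry j hj, Nat.cast_add, Nat.cast_mul,
    Nat.cast_mul, ZMod.natCast_mod, Nat.cast_sub (hyl j hj), ZMod.natCast_self]
  rw [hJ] at hj
  rcases List.mem_cons.1 hj with rfl | hj
  · simp only [if_true, Ej]
    push_cast
    rw [hb]
    ring
  · have h0 := JT_kappa0 _ _ _ j hj
    have h6 := congrArg (fun x : ℤ => (x : ZMod r.l)) (JT_al par w _ j hj)
    push_cast at h6
    rw [if_neg h0]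
    have e : ((Ej r.l j : ℕ) : ZMod r.l) = -((j.α : ℤ) : ZMod r.l) := by
      unfold Ej
      rw [if_neg h0, ZMod.natCast_mod, h6]
    rw [e]
    ring

end Pool.Agent.SU.EL


end

section

/-!
Real quadratic fields with small units: soundness of the first stages of the elimination.
-/

namespace Pool.Agent.SU.EL

open Finset Pool.Agent.Lib_helper5 Pool.Agent.Lib_helper5.LK Pool.Agent.LibH4.Ker
  Pool.Agent.LibH4.KF Pool.Agent.LibH4.T6 Pool.Agent.Lib_helper5.TB Pool.Agent.LibH4.S7
  Pool.Agent.LibH4 Pool.Agent.LibH4.CW

/-- digit -/
def dg24 (X k : ℕ) : ℕ := (X >>> (24 * k)) % 2 ^ 24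

/-- check of one row: `len3` and `i3` describe the position in the table -/
def rowck (P l len3 i3 X Y row : ℕ) : Bool :=
  allR (fun k => @Bool.rec (fun _ => Bool) false (@Bool.rec (fun _ => Bool) false
    (@Bool.rec (fun _ => Bool) false (Nat.ble (dig Y (Nat.add (Nat.mul k len3) i3)) l)
      (Nat.ble (Nat.succ (dig X (Nat.add (Nat.mul k len3) i3))) l))
      (Nat.beq (Nat.mod (Nat.shiftRight row (Nat.mul (nat_lit 24) (Nat.add P k)))
        (nat_lit 16777216)) (Nat.mod (Nat.sub l (dig Y (Nat.add (Nat.mul k len3) i3))) l)))
    (Nat.beq (Nat.mod (Nat.shiftRight row (Nat.mul (nat_lit 24) k)) (nat_lit 16777216))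
      (dig X (Nat.add (Nat.mul k len3) i3)))) P

lemma rowck_spec {P l len3 i3 X Y row : ℕ} (h : rowck P l len3 i3 X Y row = true) {k : ℕ}
    (hk : k < P) : dg24 row k = dig X (k * len3 + i3) ∧
      dg24 row (P + k) = (l - dig Y (k * len3 + i3)) % l ∧ dig X (k * len3 + i3) < l ∧
      dig Y (k * len3 + i3) ≤ l := by
  have h1 := allR_spec h k hk
  have key : ∀ a b c d : Bool, @Bool.rec (fun _ => Bool) false (@Bool.rec (fun _ => Bool) false
      (@Bool.rec (fun _ => Bool) false d c) b) a = true →
      a = true ∧ b = true ∧ c = true ∧ d = true := by decide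
  obtain ⟨a1, a2, a3, a4⟩ := key _ _ _ _ h1
  exact ⟨Nat.eq_of_beq_eq_true a1, Nat.eq_of_beq_eq_true a2, Nat.le_of_ble_eq_true a3,
    Nat.le_of_ble_eq_true a4⟩

section

variable {par : Bool} {w : List ℕ} {v u be m0 t : ℕ} {D : ℤ}

/-- the first coefficient of the first factor -/
def Aj (b : ℕ) (f : Fm → ℕ) (j : Fm) : ℕ := if j.κ = 0 then (b * f j) % 11 else f j

lemma ep0_eq {a b : ℕ} (ha : a < 256) : ep0 (a + (256 * b + 65536)) = a := by
  change (a + (256 * b + 65536)) % 256 = _
  omega

lemma ep1_eq {a b : ℕ} (ha : a < 256) (hb : b < 256) : ep1 (a + (256 * b + 65536)) = b := by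
  change ((a + (256 * b + 65536)) >>> 8) % 256 = _
  rw [Nat.shiftRight_eq_div_pow]
  omega

lemma wz_one {c : Cmp} (h1 : 1 < c.n) (B m : ℤ) : wz c (1, B, m) = 1 := by
  have : NeZero c.n := ⟨by omega⟩
  have : (1 : ℕ) % c.n = rs c.n 1 := rs_of (by push_cast; rfl)
  rw [Nat.mod_eq_of_lt h1] at this
  exact this.symm

/-- the second factor -/
lemma yS_eq {c : Cmp} (hc : CmpOK c) (h1 : 1 < c.n) (hD : DOK D) {NP : ℕ}
    (np : npCk c.n c.ex c.PT c.F NP = true) {B m : ℤ} (he : B ^ 2 + 4 * m = D) (par : Bool)
    (w : List ℕ) {P C V h6 h3 : ℕ} (e6 : h6 = 6 * 2 ^ (24 * P)) (e3 : h3 = 3 * 2 ^ (24 * P)) :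
    yS c.n NP V h6 h3 C (P - 1) par (LQ par w) (rs c.n m)
      (pz c (m, B, 1) + (256 * pz c (1, B, m) + 65536)) =
    rp V (fun j => (wgt C (wj c j) * (Ej 11 j + j.κ * 2 ^ (24 * P))) <<<
      (24 * (P - 1 - pj c j))) (JH par B m w) := by
  have a0 := pz_lt c (m, B, 1)
  have a1 := pz_lt c (1, B, m)
  unfold yS
  rw [ep0_eq a0, ep1_eq a0 a1]
  have h := orbA_spec hc hD np (hot C (P - 1)) V h3 (mus h6)
    (fun κ a => a % 11 + κ * 2 ^ (24 * P)) (by intro b; rw [e6]; rfl) (by rw [e3]; simp) par w
    (1, B, m) (by unfold LO.dis; simp only; linear_combination he)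
    (hot C (P - 1) (nat_lit 1) (pz c (m, B, 1)) (rs c.n m))
  rw [wz_one h1] at h
  rw [h]
  have hJ : JH par B m w = ⟨m, B, -1, 0, -B⟩ :: JT par (1, B, m) w := rfl
  rw [hJ, rp_cons]
  congr 1
  · congr 1
    change (wgt C (rs c.n m) * 1) <<< (24 * (P - 1 - pz c (m, B, 1))) = _
    have e1 : Ej 11 (⟨m, B, -1, 0, -B⟩ : Fm) + 0 * 2 ^ (24 * P) = 1 := by
      unfold Ej
      simp
    change _ = (wgt C (rs c.n m) * (Ej 11 (⟨m, B, -1, 0, -B⟩ : Fm) + 0 * 2 ^ (24 * P))) <<<
      (24 * (P - 1 - pz c (m, B, 1)))
    rw [e1]
  · apply rp_congr
    intro j hj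
    have h0 := JT_kappa0 _ _ _ j hj
    have e1 : Ej 11 j = al j % 11 := by
      unfold Ej
      rw [if_neg h0]
    rw [e1]
    rfl

/-- the first factor of the first stage -/
lemma xS_eq {c : Cmp} (hc : CmpOK c) (h1 : 1 < c.n) (hD : DOK D) {NP : ℕ}
    (np : npCk c.n c.ex c.PT c.F NP = true) {B m : ℤ} (he : B ^ 2 + 4 * m = D) (par : Bool)
    (w : List ℕ) (R C wd V b : ℕ) :
    xS c.n NP V wd R C b par (LQ par w) (rs c.n m)
      (pz c (m, B, 1) + (256 * pz c (1, B, m) + 65536)) =
    packL V (fun j => Aj b (fun j => wgt C (wj c j)) j * rwt R wd V (pj c j)) (JH par B m w) := by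
  have a0 := pz_lt c (m, B, 1)
  have a1 := pz_lt c (1, B, m)
  unfold xS
  rw [ep0_eq a0, ep1_eq a0 a1]
  have h := orbP_spec hc hD np (emW R C wd V) V par w (1, B, m)
    (by unfold LO.dis; simp only; linear_combination he)
  rw [wz_one h1] at h
  rw [h]
  have hJ : JH par B m w = ⟨m, B, -1, 0, -B⟩ :: JT par (1, B, m) w := rfl
  rw [hJ, packL_cons]
  have e1 : packL V (fun j => emW R C wd V (pj c j) (wj c j)) (JT par (1, B, m) w) =
      packL V (fun j => Aj b (fun j => wgt C (wj c j)) j * rwt R wd V (pj c j))
        (JT par (1, B, m) w) := by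
    apply packL_congr
    intro j hj
    have h0 := JT_kappa0 _ _ _ j hj
    unfold Aj
    rw [if_neg h0]
    rfl
  rw [e1]
  have e2 : Aj b (fun j => wgt C (wj c j)) (⟨m, B, -1, 0, -B⟩ : Fm) =
      (b * wgt C (wj c ⟨m, B, -1, 0, -B⟩)) % 11 := by
    unfold Aj
    simp
  rw [e2]
  rfl

lemma blr_add (R V c X : ℕ) : blr R V (c + 2 ^ 96 * X) = blr R V c := by
  have e : ∀ U, blr R V U = (R >>> (U % 2 ^ 24)) % V := fun _ => rfl
  rw [e, e, show c + 2 ^ 96 * X = c + 2 ^ 24 * (2 ^ 72 * X) by ring, Nat.add_mul_mod_self_left]

lemma blks_eq (R C V : ℕ) (f : Fm → ℕ) (L : List Fm) (hf : ∀ j ∈ L, f j < 2 ^ 96) :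
    blks R C V L.length (packL (2 ^ 96) f L) =
      packL V (fun j => ww C (f j) * blr R V (f j)) L := by
  induction L with
  | nil => rfl
  | cons j L ih =>
    have e1 : blks R C V (j :: L).length (packL (2 ^ 96) f (j :: L)) =
      ww C (packL (2 ^ 96) f (j :: L)) * blr R V (packL (2 ^ 96) f (j :: L)) +
        V * blks R C V L.length (packL (2 ^ 96) f (j :: L) >>> 96) := rfl
    rw [e1, packL_cons, packL_cons, ww_add, blr_add, CW.add_shr 96 _ _ (hf j (by simp)),
      ih (fun x hx => hf x (by simp [hx]))]

/-- the first factor of the second stage -/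
lemma xT_eq (R C V b : ℕ) (f : Fm → ℕ) {B m : ℤ} (par : Bool) (w : List ℕ) {N : ℕ}
    (hN : N = (JT par (1, B, m) w).length) (hf : ∀ j ∈ JH par B m w, f j < 2 ^ 96) :
    xT R C V b N (packL (2 ^ 96) f (JH par B m w)) =
      packL V (fun j => Aj b (fun j => ww C (f j)) j * blr R V (f j)) (JH par B m w) := by
  have hJ : JH par B m w = ⟨m, B, -1, 0, -B⟩ :: JT par (1, B, m) w := rfl
  rw [hJ] at hf ⊢
  unfold xT
  have e0 : Nat.shiftRight (packL (2 ^ 96) f ((⟨m, B, -1, 0, -B⟩ : Fm) :: JT par (1, B, m) w)) 96 =
      packL (2 ^ 96) f (JT par (1, B, m) w) := by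
    rw [packL_cons]
    exact CW.add_shr 96 _ _ (hf _ (by simp))
  rw [e0, hN, blks_eq _ _ _ _ _ (fun j hj => hf j (by simp [hj])), packL_cons, packL_cons,
    ww_add, blr_add]
  have e1 : packL V (fun j => ww C (f j) * blr R V (f j)) (JT par (1, B, m) w) =
      packL V (fun j => Aj b (fun j => ww C (f j)) j * blr R V (f j)) (JT par (1, B, m) w) := by
    apply packL_congr
    intro j hj
    have h0 := JT_kappa0 _ _ _ j hj
    unfold Aj
    rw [if_neg h0]
  rw [e1]
  have e2 : Aj b (fun j => ww C (f j)) (⟨m, B, -1, 0, -B⟩ : Fm) =
      (b * ww C (f ⟨m, B, -1, 0, -B⟩)) % 11 := by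
    unfold Aj
    simp
  rw [e2]
  rfl

/-- digits of a row -/
lemma row_digits {X V P : ℕ} (hV : V = 2 ^ (48 * P)) (hX : X < V) :
    X = packL (2 ^ 24) (dg24 X) (List.range (2 * P)) := by
  have h := digits_eq (2 * P) X
  rw [← pow_mul, show 24 * (2 * P) = 48 * P by ring, ← hV, Nat.mod_eq_of_lt hX] at h
  exact h

lemma mod_lt_of {a V P : ℕ} (hV : V = 2 ^ (48 * P)) : a % V < V :=
  Nat.mod_lt _ (by rw [hV]; positivity)

end

end Pool.Agent.SU.EL


end

section

/-!
Real quadratic fields with small units: the two stages.
-/

namespace Pool.Agent.SU.EL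

open Finset Pool.Agent.Lib_helper5 Pool.Agent.Lib_helper5.LK Pool.Agent.LibH4.Ker
  Pool.Agent.LibH4.KF Pool.Agent.LibH4.T6 Pool.Agent.Lib_helper5.TB Pool.Agent.LibH4.S7
  Pool.Agent.LibH4 Pool.Agent.LibH4.CW

/-- tables of the first stage -/
structure FT1 (G : FT) (r : RD) : Prop where
  hr : RJOK r
  n1 : cof r.n1 = cof 11
  n2 : cof r.n2 = cof 8
  n3 : cof r.n3 = cof 1
  l : r.l = 11
  len3 : r.len3 = 1
  rl : r.rows.length = (cof 11).F.length
  row : ∀ V, V = 2 ^ (48 * 16) → ∀ (i : ℕ) (x : ℕ × ℕ), r.rows[i]? = some x →
    rowck 16 11 1 0 x.1 x.2 (rwt G.RW 768 V i) = true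
  w1 : ∀ x < 11, wgt G.C11 x = dig r.t1 x ∧ dig r.t1 x ≤ 10
  w2 : ∀ x < 8, wgt G.C8 x = dig r.t2 x ∧ dig r.t2 x ≤ 10
  w3 : dig r.t3 0 = 1

/-- tables of the second stage -/
structure FT2 (G : FT) (r : RD) : Prop where
  hr : RJOK r
  n1 : cof r.n1 = cof 11
  n2 : cof r.n2 = cof 7
  n3 : cof r.n3 = cof 8
  l : r.l = 11
  len3 : r.len3 = 16
  rl : r.rows.length = (cof 11).F.length
  row : ∀ V, V = 2 ^ (48 * 21) → ∀ (i : ℕ) (x : ℕ × ℕ), r.rows[i]? = some x → ∀ y < 16,
    rowck 21 11 16 y x.1 x.2 (rwt G.RX 1008 V (16 * i + y)) = true
  w1 : ∀ x < 11, ∀ y < 8, wgt G.C88 (8 * x + y) = dig r.t1 x * dig r.t3 y % 11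
  w2 : ∀ x < 7, wgt G.C7 x = dig r.t2 x ∧ dig r.t2 x ≤ 10

section

variable {par : Bool} {w : List ℕ} {v u be m0 t : ℕ} {D : ℤ} {G : FT} {r : RD}

lemma cast_Aj {l : ℕ} (hl : l = 11) (b y : ℕ) (f : Fm → ℕ) (j : Fm) :
    ((Aj b f j * y : ℕ) : ZMod l) =
      (if j.κ = 0 then (b : ZMod l) else 1) * ((f j * y : ℕ) : ZMod l) := by
  subst hl
  unfold Aj
  split_ifs
  · rw [Nat.cast_mul, ZMod.natCast_mod]
    push_cast
    ring
  · push_cast
    ring

lemma pj_one (j : Fm) : pj (cof 1) j = 0 ∧ wj (cof 1) j = 0 := by
  have e1 : rs 1 j.P = 0 := by
    have := rs_lt (p := 1) j.P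
    omega
  have e2 : rs 1 j.R = 0 := by
    have := rs_lt (p := 1) j.R
    omega
  have e3 : rs 1 j.S = 0 := by
    have := rs_lt (p := 1) j.S
    omega
  have hp : pj (cof 1) j = pos 1 0 PT1 (rs 1 j.P) (rs 1 j.R) (rs 1 j.S) := rfl
  have hw : wj (cof 1) j = rs 1 j.P := rfl
  rw [hp, hw, e1, e2, e3]
  exact ⟨by decide +kernel, rfl⟩

lemma len_JH (par : Bool) (B m : ℤ) (w : List ℕ) :
    (JH par B m w).length = nf par w.length + 1 := by
  have hJ : JH par B m w = ⟨m, B, -1, 0, -B⟩ :: JT par (1, B, m) w := rfl
  rw [hJ, List.length_cons, JT_length]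

lemma nf_le (par : Bool) {h : ℕ} (hh : h ≤ 17) : nf par h ≤ 18 := by
  unfold nf
  cases par <;> simp <;> omega

lemma pck_of {X Y sh : ℕ} (h : ((X * Y) >>> sh) % 2 ^ 24 % 11 = 0) : pck X Y sh = true := by
  have e : pck X Y sh = Nat.beq (((X * Y) >>> sh) % 2 ^ 24 % 11) 0 := rfl
  rw [e, h]
  rfl

/-- **first stage** -/
theorem stage1 (F : FT1 G r) (S : Sit par w v u be m0 t D) {b : ℕ}
    (hb : ((b : ℕ) : ZMod r.l) = ((v * t + be : ℕ) : ℤ))
    (np11 : npCk (cof 11).n (cof 11).ex (cof 11).PT (cof 11).F G.NP11 = true)
    (np8 : npCk (cof 8).n (cof 8).ex (cof 8).PT (cof 8).F G.NP8 = true)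
    {V h6 h3 N : ℕ} (hV : V = 2 ^ (48 * 16)) (e6 : h6 = 6 * 2 ^ (24 * 16))
    (e3 : h3 = 3 * 2 ^ (24 * 16))
    (hN : N = nf par w.length) :
    pck (xS 11 G.NP11 V 768 G.RW G.C11 b par (LQ par w) (rs 11 ((u * t + m0 : ℕ) : ℤ))
        (pz (cof 11) (((u * t + m0 : ℕ) : ℤ), ((v * t + be : ℕ) : ℤ), 1) +
          (256 * pz (cof 11) (1, ((v * t + be : ℕ) : ℤ), ((u * t + m0 : ℕ) : ℤ)) + 65536)))
      (yS 8 G.NP8 V h6 h3 G.C8 15 par (LQ par w) (rs 8 ((u * t + m0 : ℕ) : ℤ))
        (pz (cof 8) (((u * t + m0 : ℕ) : ℤ), ((v * t + be : ℕ) : ℤ), 1) +
          (256 * pz (cof 8) (1, ((v * t + be : ℕ) : ℤ), ((u * t + m0 : ℕ) : ℤ)) + 65536)))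
      (Nat.add (Nat.mul 768 N) 744) = true := by
  have hD := S.W.dok
  have hdisc := S.disc
  set B : ℤ := ((v * t + be : ℕ) : ℤ) with hB
  set m : ℤ := ((u * t + m0 : ℕ) : ℤ) with hm
  have k1 : CmpOK (cof 11) := F.n1 ▸ F.hr.k1
  have k2 : CmpOK (cof 8) := F.n2 ▸ F.hr.k2
  have hx := xS_eq k1 (by decide) hD np11 hdisc par w G.RW G.C11 768 V b
  have hy := yS_eq k2 (by decide) hD np8 hdisc par w (P := 16) (C := G.C8) (V := V) (h6 := h6)
    (h3 := h3) e6 e3
  have n11 : (cof 11).n = 11 := rfl
  have n8 : (cof 8).n = 8 := rfl
  rw [n11] at hx
  rw [n8] at hy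
  rw [hx, show (15 : ℕ) = 16 - 1 by rfl, hy]
  apply pck_of
  have W := S.W
  have p1 : ∀ j ∈ JH par B m w, pj (cof 11) j < (cof 11).F.length := fun j hj => pj_len k1 W hj
  have p2 : ∀ j ∈ JH par B m w, pj (cof 8) j < 16 := by
    intro j hj
    have h := pj_len k2 W hj
    have e : (cof 8).F.length = 16 := by decide +kernel
    omega
  have rowp : ∀ j ∈ JH par B m w, ∃ x : ℕ × ℕ, r.rows[pj (cof 11) j]? = some x := by
    intro j hj
    have h := p1 j hj
    rw [← F.rl] at h
    exact ⟨_, List.getElem?_eq_getElem h⟩
  have xvj : ∀ j, ∀ x : ℕ × ℕ, r.rows[pj (cof 11) j]? = some x →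
      xv r j = dig x.1 (pj (cof 8) j * 1 + 0) ∧ yv r j = dig x.2 (pj (cof 8) j * 1 + 0) := by
    intro j x hx
    unfold xv yv tX tY
    rw [F.n1, F.n2, F.n3, F.len3, (pj_one j).1, List.getD_eq_getElem?_getD, hx]
    exact ⟨rfl, rfl⟩
  have wq1 : ∀ j, wj (cof 11) j < 11 := fun j => wj_lt k1 j
  have wq2 : ∀ j, wj (cof 8) j < 8 := fun j => wj_lt k2 j
  have lenJ := len_JH par B m w
  have nfl := nf_le par S.len
  have main := dot_level F.hr W hb (by rw [F.l]) (P := 16) (by norm_num)
    (A := fun j => Aj b (fun j => wgt G.C11 (wj (cof 11) j)) j)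
    (Wt := fun j => wgt G.C8 (wj (cof 8) j)) (p := fun j => pj (cof 8) j)
    (rd := fun j k => dg24 (rwt G.RW 768 V (pj (cof 11) j)) k) p2 (by
      intro j hj k hk
      obtain ⟨x, hx⟩ := rowp j hj
      have hrow := F.row V hV _ x hx
      by_cases h : k < 16
      · obtain ⟨q1, -, q3, -⟩ := rowck_spec hrow h
        rw [q1]; omega
      · obtain ⟨i, rfl⟩ : ∃ i, k = 16 + i := ⟨k - 16, by omega⟩
        obtain ⟨-, q2, -, -⟩ := rowck_spec hrow (show i < 16 by omega)
        rw [q2]
        have := Nat.mod_lt (11 - dig x.2 (i * 1 + 0)) (show 0 < 11 by norm_num)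
        omega) (by
      intro j hj
      have h5 := F.w1 _ (wq1 j)
      unfold Aj
      split_ifs
      · exact Nat.le_of_lt_succ (Nat.mod_lt (b * wgt G.C11 (wj (cof 11) j)) (by norm_num))
      · change wgt G.C11 (wj (cof 11) j) ≤ 10
        rw [h5.1]
        exact h5.2) (by
      intro j hj
      have h5 := F.w2 _ (wq2 j)
      change wgt G.C8 (wj (cof 8) j) ≤ 10
      rw [h5.1]
      exact h5.2) (by
      rw [lenJ]
      calc (nf par w.length + 1) * (2 * 16) * 10000 ≤ (18 + 1) * (2 * 16) * 10000 := by gcongr
        _ < 2 ^ 24 := by norm_num) (by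
      intro j hj
      obtain ⟨x, hx⟩ := rowp j hj
      have hrow := F.row V hV _ x hx
      obtain ⟨q1, -, -, -⟩ := rowck_spec hrow (p2 j hj)
      rw [(xvj j x hx).1]
      exact q1) (by
      intro j hj
      obtain ⟨x, hx⟩ := rowp j hj
      have hrow := F.row V hV _ x hx
      obtain ⟨-, q2, -, -⟩ := rowck_spec hrow (p2 j hj)
      rw [(xvj j x hx).2, F.l]
      exact q2) (by
      intro j hj
      obtain ⟨x, hx⟩ := rowp j hj
      have hrow := F.row V hV _ x hx
      obtain ⟨-, -, -, q4⟩ := rowck_spec hrow (p2 j hj)
      rw [(xvj j x hx).2, F.l]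
      exact q4) (by
      intro j hj
      rw [cast_Aj F.l]
      congr 1
      unfold wv
      rw [F.n1, F.n2, F.n3, (pj_one j).2, F.w3, (F.w1 _ (wq1 j)).1, (F.w2 _ (wq2 j)).1,
        ZMod.natCast_mod, mul_one]) rfl rfl rfl
  rw [F.l, ← hV] at main
  have e1 : packL V (fun j => Aj b (fun j => wgt G.C11 (wj (cof 11) j)) j *
      packL (2 ^ 24) (fun k => dg24 (rwt G.RW 768 V (pj (cof 11) j)) k) (List.range (2 * 16)))
      (JH par B m w) = packL V (fun j => Aj b (fun j => wgt G.C11 (wj (cof 11) j)) j *
        rwt G.RW 768 V (pj (cof 11) j)) (JH par B m w) := by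
    apply packL_congr
    intro j hj
    have h9 : rwt G.RW 768 V (pj (cof 11) j) < V := mod_lt_of hV
    have h10 := row_digits hV h9
    exact congrArg (fun z => Aj b (fun j => wgt G.C11 (wj (cof 11) j)) j * z) h10.symm
  rw [e1] at main
  have e2 : Nat.add (Nat.mul 768 N) 744 =
      48 * 16 * ((JH par B m w).length - 1) + 24 * (2 * 16 - 1) := by
    change 768 * N + 744 = _
    rw [lenJ, hN]
    omega
  rw [e2]
  exact main

/-- the multipliers of the blocks -/
lemma blk_code {c d : Cmp} (hc : CmpOK c) (hd : CmpOK d) (hcl : c.F.length ≤ 55)
    (hdl : d.F.length ≤ 16) (hcn : c.n ≤ 11) (hdn : d.n ≤ 8) {J : List Fm} (W : RelJ D J) {j : Fm}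
    (hj : j ∈ J) :
    1073757952 * cj c j + 134218736 * cj d j < 2 ^ 96 ∧
      (1073757952 * cj c j + 134218736 * cj d j) % 2 ^ 24 = 1008 * (16 * pj c j + pj d j) ∧
      ((1073757952 * cj c j + 134218736 * cj d j) >>> 72) % 2 ^ 24 =
        8 * (8 * wj c j + wj d j) := by
  have p1 := pj_len hc W hj
  have p2 := pj_len hd W hj
  have w1 := wj_lt hc j
  have w2 := wj_lt hd j
  unfold cj
  generalize pj c j = a at p1
  generalize pj d j = b at p2
  generalize wj c j = x at w1
  generalize wj d j = y at w2
  have e : 1073757952 * (a + 2 ^ 48 * x) + 134218736 * (b + 2 ^ 48 * y) =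
      1008 * (16 * a + b) + 2 ^ 24 * (8 * (8 * a + b) +
        2 ^ 24 * (1008 * (16 * x + y) + 2 ^ 24 * (8 * (8 * x + y)))) := by
    ring
  have f0 : 1008 * (16 * a + b) < 2 ^ 24 := by omega
  have f1 : 8 * (8 * a + b) < 2 ^ 24 := by omega
  have f2 : 1008 * (16 * x + y) < 2 ^ 24 := by omega
  have f3 : 8 * (8 * x + y) < 2 ^ 24 := by omega
  rw [e]
  generalize 1008 * (16 * a + b) = F0 at f0 ⊢
  generalize 8 * (8 * a + b) = F1 at f1 ⊢
  generalize 1008 * (16 * x + y) = F2 at f2 ⊢
  generalize 8 * (8 * x + y) = F3 at f3 ⊢
  refine ⟨by omega, CW.add_mod _ _ _ f0, ?_⟩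
  rw [show (72 : ℕ) = 24 + (24 + 24) by rfl, Nat.shiftRight_add, Nat.shiftRight_add,
    CW.add_shr _ _ _ f0, CW.add_shr _ _ _ f1, CW.add_shr _ _ _ f2, Nat.mod_eq_of_lt f3]

/-- the code of a block -/
def uj (j : Fm) : ℕ := 1073757952 * cj (cof 11) j + 134218736 * cj (cof 8) j

/-- **second stage** -/
theorem stage2 (F : FT2 G r) (S : Sit par w v u be m0 t D) {b : ℕ}
    (hb : ((b : ℕ) : ZMod r.l) = ((v * t + be : ℕ) : ℤ))
    (np7 : npCk (cof 7).n (cof 7).ex (cof 7).PT (cof 7).F G.NP7 = true)
    {V h6 h3 N V11 V8 : ℕ} (hV : V = 2 ^ (48 * 21)) (e6 : h6 = 6 * 2 ^ (24 * 21))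
    (e3 : h3 = 3 * 2 ^ (24 * 21)) (hN : N = nf par w.length)
    (h11 : V11 = VV (cof 11) (JF par w v u be m0 t))
    (h8 : V8 = VV (cof 8) (JF par w v u be m0 t)) :
    pck (xT G.RX G.C88 V b N (Nat.add (Nat.mul 1073757952 V11) (Nat.mul 134218736 V8)))
      (yS 7 G.NP7 V h6 h3 G.C7 20 par (LQ par w) (rs 7 ((u * t + m0 : ℕ) : ℤ))
        (pz (cof 7) (((u * t + m0 : ℕ) : ℤ), ((v * t + be : ℕ) : ℤ), 1) +
          (256 * pz (cof 7) (1, ((v * t + be : ℕ) : ℤ), ((u * t + m0 : ℕ) : ℤ)) + 65536)))
      (Nat.add (Nat.mul 1008 N) 984) = true := by
  have hD := S.W.dok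
  have hdisc := S.disc
  have W := S.W
  unfold JF at h11 h8
  set B : ℤ := ((v * t + be : ℕ) : ℤ) with hB
  set m : ℤ := ((u * t + m0 : ℕ) : ℤ) with hm
  have k1 : CmpOK (cof 11) := F.n1 ▸ F.hr.k1
  have k2 : CmpOK (cof 7) := F.n2 ▸ F.hr.k2
  have k3 : CmpOK (cof 8) := F.n3 ▸ F.hr.k3
  have l1 : (cof 11).F.length = 55 := by decide +kernel
  have l3 : (cof 8).F.length = 16 := by decide +kernel
  have hU : Nat.add (Nat.mul 1073757952 V11) (Nat.mul 134218736 V8) =
      packL (2 ^ 96) uj (JH par B m w) := by
    change 1073757952 * V11 + 134218736 * V8 = _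
    rw [h11, h8]
    have h := packL_lin (2 ^ 96) 1073757952 134218736 0 (cj (cof 11)) (cj (cof 8))
      (cj (cof 8)) (JH par B m w)
    have e1 : (fun j => 1073757952 * cj (cof 11) j + (134218736 * cj (cof 8) j +
        0 * cj (cof 8) j)) = uj := by
      funext j
      unfold uj
      rw [zero_mul, add_zero]
    rw [e1, zero_mul, add_zero] at h
    exact h
  have hbl : ∀ j ∈ JH par B m w, uj j < 2 ^ 96 ∧
      uj j % 2 ^ 24 = 1008 * (16 * pj (cof 11) j + pj (cof 8) j) ∧
      ((uj j) >>> 72) % 2 ^ 24 = 8 * (8 * wj (cof 11) j + wj (cof 8) j) := fun j hj =>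
    blk_code k1 k3 l1.le l3.le le_rfl le_rfl W hj
  have hx := xT_eq G.RX G.C88 V b uj par w (B := B) (m := m) (N := N) (by rw [hN, JT_length])
    (fun j hj => (hbl j hj).1)
  have hy := yS_eq k2 (by decide) hD np7 hdisc par w (P := 21) (C := G.C7) (V := V) (h6 := h6)
    (h3 := h3) e6 e3
  have n7 : (cof 7).n = 7 := rfl
  rw [n7] at hy
  rw [hU, hx, show (20 : ℕ) = 21 - 1 by rfl, hy]
  apply pck_of
  have wwj : ∀ j ∈ JH par B m w, ww G.C88 (uj j) =
      dig r.t1 (wj (cof 11) j) * dig r.t3 (wj (cof 8) j) % 11 := by
    intro j hj
    have h1 := (hbl j hj).2.2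
    have e : ww G.C88 (uj j) = (G.C88 >>> ((uj j >>> 72) % 2 ^ 24)) % 256 := rfl
    rw [e, h1]
    exact F.w1 _ (wj_lt k1 j) _ (wj_lt k3 j)
  have blj : ∀ j ∈ JH par B m w, blr G.RX V (uj j) =
      rwt G.RX 1008 V (16 * pj (cof 11) j + pj (cof 8) j) := by
    intro j hj
    have h1 := (hbl j hj).2.1
    have e : blr G.RX V (uj j) = (G.RX >>> (uj j % 2 ^ 24)) % V := rfl
    rw [e, h1]
    rfl
  have p1 : ∀ j ∈ JH par B m w, pj (cof 11) j < (cof 11).F.length := fun j hj => pj_len k1 W hj
  have p2 : ∀ j ∈ JH par B m w, pj (cof 7) j < 21 := by
    intro j hj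
    have h := pj_len k2 W hj
    have e : (cof 7).F.length = 21 := by decide +kernel
    omega
  have p3 : ∀ j ∈ JH par B m w, pj (cof 8) j < 16 := by
    intro j hj
    have h := pj_len k3 W hj
    omega
  have rowp : ∀ j ∈ JH par B m w, ∃ x : ℕ × ℕ, r.rows[pj (cof 11) j]? = some x := by
    intro j hj
    have h := p1 j hj
    rw [← F.rl] at h
    exact ⟨_, List.getElem?_eq_getElem h⟩
  have xvj : ∀ j, ∀ x : ℕ × ℕ, r.rows[pj (cof 11) j]? = some x →
      xv r j = dig x.1 (pj (cof 7) j * 16 + pj (cof 8) j) ∧
        yv r j = dig x.2 (pj (cof 7) j * 16 + pj (cof 8) j) := by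
    intro j x hx
    unfold xv yv tX tY
    rw [F.n1, F.n2, F.n3, F.len3, List.getD_eq_getElem?_getD, hx]
    exact ⟨rfl, rfl⟩
  have wq2 : ∀ j, wj (cof 7) j < 7 := fun j => wj_lt k2 j
  have lenJ := len_JH par B m w
  have nfl := nf_le par S.len
  have main := dot_level F.hr W hb (by rw [F.l]) (P := 21) (by norm_num)
    (A := fun j => Aj b (fun j => ww G.C88 (uj j)) j)
    (Wt := fun j => wgt G.C7 (wj (cof 7) j)) (p := fun j => pj (cof 7) j)
    (rd := fun j k => dg24 (blr G.RX V (uj j)) k) p2 (by
      intro j hj k hk
      obtain ⟨x, hx⟩ := rowp j hj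
      have hrow := F.row V hV _ x hx _ (p3 j hj)
      change dg24 (blr G.RX V (uj j)) k ≤ 10
      rw [blj j hj]
      by_cases h : k < 21
      · obtain ⟨q1, -, q3, -⟩ := rowck_spec hrow h
        rw [q1]; omega
      · obtain ⟨i, rfl⟩ : ∃ i, k = 21 + i := ⟨k - 21, by omega⟩
        obtain ⟨-, q2, -, -⟩ := rowck_spec hrow (show i < 21 by omega)
        rw [q2]
        have := Nat.mod_lt (11 - dig x.2 (i * 16 + pj (cof 8) j)) (show 0 < 11 by norm_num)
        omega) (by
      intro j hj
      have h5 := wwj j hj
      unfold Aj
      split_ifs
      · exact Nat.le_of_lt_succ (Nat.mod_lt (b * ww G.C88 (uj j)) (by norm_num))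
      · change ww G.C88 (uj j) ≤ 10
        rw [h5]
        exact Nat.le_of_lt_succ (Nat.mod_lt _ (by norm_num))) (by
      intro j hj
      have h5 := F.w2 _ (wq2 j)
      change wgt G.C7 (wj (cof 7) j) ≤ 10
      rw [h5.1]
      exact h5.2) (by
      rw [lenJ]
      calc (nf par w.length + 1) * (2 * 21) * 10000 ≤ (18 + 1) * (2 * 21) * 10000 := by gcongr
        _ < 2 ^ 24 := by norm_num) (by
      intro j hj
      obtain ⟨x, hx⟩ := rowp j hj
      have hrow := F.row V hV _ x hx _ (p3 j hj)
      obtain ⟨q1, -, -, -⟩ := rowck_spec hrow (p2 j hj)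
      rw [(xvj j x hx).1]
      change dg24 (blr G.RX V (uj j)) (pj (cof 7) j) = _
      rw [blj j hj]
      exact q1) (by
      intro j hj
      obtain ⟨x, hx⟩ := rowp j hj
      have hrow := F.row V hV _ x hx _ (p3 j hj)
      obtain ⟨-, q2, -, -⟩ := rowck_spec hrow (p2 j hj)
      rw [(xvj j x hx).2, F.l]
      change dg24 (blr G.RX V (uj j)) (21 + pj (cof 7) j) = _
      rw [blj j hj]
      exact q2) (by
      intro j hj
      obtain ⟨x, hx⟩ := rowp j hj
      have hrow := F.row V hV _ x hx _ (p3 j hj)
      obtain ⟨-, -, -, q4⟩ := rowck_spec hrow (p2 j hj)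
      rw [(xvj j x hx).2, F.l]
      exact q4) (by
      intro j hj
      rw [cast_Aj F.l]
      congr 1
      unfold wv
      rw [F.n1, F.n2, F.n3, wwj j hj, (F.w2 _ (wq2 j)).1, F.l, ZMod.natCast_mod, Nat.cast_mul,
        ZMod.natCast_mod]
      push_cast
      ring) rfl rfl rfl
  rw [F.l, ← hV] at main
  have e1 : packL V (fun j => Aj b (fun j => ww G.C88 (uj j)) j *
      packL (2 ^ 24) (fun k => dg24 (blr G.RX V (uj j)) k) (List.range (2 * 21)))
      (JH par B m w) = packL V (fun j => Aj b (fun j => ww G.C88 (uj j)) j *
        blr G.RX V (uj j)) (JH par B m w) := by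
    apply packL_congr
    intro j hj
    have h9 : blr G.RX V (uj j) < V := mod_lt_of hV
    have h10 := row_digits hV h9
    exact congrArg (fun z => Aj b (fun j => ww G.C88 (uj j)) j * z) h10.symm
  rw [e1] at main
  have e2 : Nat.add (Nat.mul 1008 N) 984 =
      48 * 21 * ((JH par B m w).length - 1) + 24 * (2 * 21 - 1) := by
    change 1008 * N + 984 = _
    rw [lenJ, hN]
    omega
  rw [e2]
  exact main

end

end Pool.Agent.SU.EL


end

section

/-!
Real quadratic fields with small units: checks of the tables of the relations.
-/

namespace Pool.Agent.SU.EL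

open Finset Pool.Agent.Lib_helper5 Pool.Agent.Lib_helper5.LK Pool.Agent.LibH4.Ker
  Pool.Agent.LibH4.KF Pool.Agent.LibH4.T6 Pool.Agent.Lib_helper5.TB Pool.Agent.LibH4.S7
  Pool.Agent.LibH4 Pool.Agent.LibH4.CW

/-- check of one row -/
def tjRow (l X Y row n : ℕ) : Bool :=
  allR (fun k => @Bool.rec (fun _ => Bool) false
    (@Bool.rec (fun _ => Bool) false (Nat.ble (dig Y k) l) (Nat.ble (Nat.succ (dig X k)) l))
    (Nat.beq (Nat.mod (Nat.shiftRight row (Nat.mul (nat_lit 24) k)) (nat_lit 16777216))
      (Nat.add (dig X k) (Nat.mul (nat_lit 524288) (Nat.mod (Nat.sub l (dig Y k)) l))))) n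

lemma tjRow_spec {l X Y row n : ℕ} (h : tjRow l X Y row n = true) {k : ℕ} (hk : k < n) :
    (row >>> (24 * k)) % 2 ^ 24 = dig X k + 2 ^ 19 * ((l - dig Y k) % l) ∧ dig X k < l ∧
      dig Y k ≤ l := by
  have h1 := allR_spec h k hk
  have key : ∀ a b c : Bool, @Bool.rec (fun _ => Bool) false
      (@Bool.rec (fun _ => Bool) false c b) a = true → a = true ∧ b = true ∧ c = true := by decide
  obtain ⟨a1, a2, a3⟩ := key _ _ _ h1
  exact ⟨Nat.eq_of_beq_eq_true a1, Nat.le_of_ble_eq_true a2, Nat.le_of_ble_eq_true a3⟩

/-- check of all rows -/
def tjck (l n : ℕ) (L : List ℕ) (rows : List (ℕ × ℕ)) : Bool :=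
  allZ (fun row x => tjRow l x.1 x.2 row n) L rows

/-- check of the weights -/
def cjck (n1 n2 n3 l t1 t2 t3 C : ℕ) : Bool :=
  allR (fun i1 => allR (fun i2 => allR (fun i3 =>
    Nat.beq (Nat.mod (Nat.shiftRight C (Nat.mul (nat_lit 8) (Nat.add (Nat.mul (Nat.add
      (Nat.mul i1 n2) i2) n3) i3))) (nat_lit 256))
      (Nat.mod (Nat.mul (Nat.mul (dig t1 i1) (dig t2 i2)) (dig t3 i3)) l)) n3) n2) n1

/-- concatenation of the rows -/
def catS (W V : ℕ) (L : List ℕ) : ℕ :=
  @List.rec ℕ (fun _ => ℕ) (nat_lit 0) (fun x _ ih => Nat.add (Nat.mod x V) (Nat.shiftLeft ih W)) L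

lemma catS_eq (W : ℕ) (L : List ℕ) : catS W (Nat.pow 2 W) L = cat (2 ^ W) (fun x => x) L := by
  induction L with
  | nil => rfl
  | cons x L ih =>
    have e1 : catS W (Nat.pow 2 W) (x :: L) = x % 2 ^ W + (catS W (Nat.pow 2 W) L) <<< W := rfl
    have e2 : cat (2 ^ W) (fun x => x) (x :: L) = x % 2 ^ W + 2 ^ W * cat (2 ^ W) (fun x => x) L :=
      rfl
    rw [e1, e2, ih, Nat.shiftLeft_eq, mul_comm]

/-- **tables of a relation** -/
theorem tj_of {n1 n2 n3 l t1 t2 t3 len2 len3 : ℕ} {rows : List (ℕ × ℕ)} {L : List ℕ} {C W : ℕ}
    (hr : rows.length = (cof n1).F.length) (hW : W = 24 * (len2 * len3))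
    (h : tjck l (Nat.mul len2 len3) L rows = true) (hC : cjck n1 n2 n3 l t1 t2 t3 C = true)
    (b1 : 24 * (len2 * len3) + 24 * len3 + 24 ≤ 2 ^ 16) (b2 : 8 * (n2 * n3) + 8 * n3 + 8 ≤ 2 ^ 16) :
    TJOK ⟨n1, n2, n3, l, t1, t2, t3, rows, len2, len3⟩ (catS W (Nat.pow 2 W) L) C where
  T := by
    intro i1 i2 i3 h1 h2 h3
    simp only at h1 h2 h3
    obtain ⟨hl, hz⟩ := allZ_spec h
    rw [← hr] at h1
    have e1 := List.getElem?_eq_getElem h1
    have e2 := List.getElem?_eq_getElem (show i1 < L.length by rw [hl]; exact h1)
    have h4 := hz i1 _ _ e2 e1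
    have hk : i2 * len3 + i3 < len2 * len3 := by
      calc i2 * len3 + i3 < i2 * len3 + len3 := by omega
        _ = (i2 + 1) * len3 := by ring
        _ ≤ len2 * len3 := Nat.mul_le_mul_right _ (by omega)
    obtain ⟨q1, q2, q3⟩ := tjRow_spec h4 hk
    have e3 : tX rows len3 i1 i2 i3 = dig (rows[i1]).1 (i2 * len3 + i3) := by
      unfold tX
      rw [List.getD_eq_getElem?_getD, e1]
      rfl
    have e4 : tY rows len3 i1 i2 i3 = dig (rows[i1]).2 (i2 * len3 + i3) := by
      unfold tY
      rw [List.getD_eq_getElem?_getD, e1]
      rfl
    simp only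
    rw [e3, e4]
    refine ⟨?_, q2, q3⟩
    have e5 : 24 * ((i1 * len2 + i2) * len3 + i3) = W * i1 + 24 * (i2 * len3 + i3) := by
      rw [hW]; ring
    have e6 := cat_part W (24 * (i2 * len3 + i3)) 24 (by rw [hW]; omega) (fun x => x) L i1 _ e2
    rw [e5, catS_eq, e6]
    exact q1
  C := by
    intro i1 i2 i3 h1 h2 h3
    have h4 := allR_spec (allR_spec (allR_spec hC i1 h1) i2 h2) i3 h3
    exact Nat.eq_of_beq_eq_true h4
  b1 := b1
  b2 := b2

end Pool.Agent.SU.EL


end

section

/-!
Real quadratic fields with small units: tables (generated).
-/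

namespace Pool.Agent.SU.EL

open Pool.Agent.LibH4.Ker Pool.Agent.LibH4.CW Pool.Agent.Lib_helper5.TB Pool.Agent.Lib_helper5
  Pool.Agent.LibH4.S7 Pool.Agent.LibH4


/-- table -/
def NP3 : ℕ := nat_lit 87794179913959855745340194480756696941056

/-- table -/
def ST3 : ℕ := nat_lit 24712238885300771263327678757929387334768268293506596864

theorem np3 : npCk (cof 3).n (cof 3).ex (cof 3).PT (cof 3).F NP3 = true := by
  decide +kernel

theorem st3 : stCk (cof 3).n (cof 3).ex (cof 3).PT (adP (cof 3).n) ST3 = true := by
  decide +kernel

theorem ad3 : AD (cof 3).n (adP (cof 3).n) :=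
  ad_prime (p := 3) (by norm_num) (by norm_num) (by decide)

/-- table -/
def NP5 : ℕ := nat_lit 78141995802555464017326924799309841690183254182561578156240099405242146865032031139071686945034681948812835138165187568756371626020116571648187451709399785222456081159894459421306001483494867524212948551944855852515536502267559600011412225

/-- table -/
def ST5 : ℕ := nat_lit 16716073514149737861053336605089000383097556005469536508190185104082789271991009580277815076448192081546283653500979993666767570020849118963528460109889445888093159383660190760960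

theorem np5 : npCk (cof 5).n (cof 5).ex (cof 5).PT (cof 5).F NP5 = true := by
  decide +kernel

theorem st5 : stCk (cof 5).n (cof 5).ex (cof 5).PT (adP (cof 5).n) ST5 = true := by
  decide +kernel

theorem ad5 : AD (cof 5).n (adP (cof 5).n) :=
  ad_prime (p := 5) (by norm_num) (by norm_num) (by decide)

/-- table -/
def NP7 : ℕ := nat_lit 4435937187027753831116550783074907208027872428628261977412045233477519959574608597634018247817245932011713473735710535151731815283180979974878366547786571713968393222174850869751917417939525713413620149844822093102421466642054559531835643524764119404080194900567194732186722942112583895239428094118521651901673168754585971816618474940280666021976643072730344687764827302319400287843933312995240317457791837762933257350753492706938000899590061002529190040236483044572442517445396733153369055900187663665017593262550423383969645378195076544404921489444596701581722428745942855958628387810561406499806733420316431420299723939947226643666982894026353832627672200350253470839420321630166697225095414382904870400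

/-- table -/
def ST7 : ℕ := nat_lit 15247934207482748658075702473124702965870664366817701842082681313458755171193197569420253703649079992874767947191938016395951333148758668407698060997269619869692608307041068583520495971090507375713595688312544411395617436662063220720836863138152505669822285100092958175707943720488801189425785546669849292211648397573498511954502762889216

theorem np7 : npCk (cof 7).n (cof 7).ex (cof 7).PT (cof 7).F NP7 = true := by
  decide +kernel

theorem st7 : stCk (cof 7).n (cof 7).ex (cof 7).PT (adP (cof 7).n) ST7 = true := by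
  decide +kernel

theorem ad7 : AD (cof 7).n (adP (cof 7).n) :=
  ad_prime (p := 7) (by norm_num) (by norm_num) (by decide)

/-- table -/
def NP8 : ℕ := nat_lit 133637067116526775160370113760244203668128663088017909923506716910788316854156055941144981875161161257147728368592893864586135923074962966362248756217004753569410838183665974211689564051511147905168320026287574065315294222865018740789022277705552428106319471712269835996144478010872182714788431322511767807053930520813554631797969421406987020910112672845061610547055858516156380991429767348804660220080409003856837835561500694937221681721706622482720261602550199242037612397384840920848996593702883730485669603556081961111927605527046794787421996817673560713770501633464212742443760613409873845469813536167800669952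

/-- table -/
def ST8 : ℕ := nat_lit 9856624304425644491486377801137927010054339135890587099914678498408391657674681711463354373760872772428924783192850165582291079662457208507225588375786593260925794682898420863160419205486373428121774981009897017923469621350322857951177726390184155485225172002979699830081520424378952888201004986938176606342272191406029129265153787418469743911790283415235786358674075652510171376459751573015836154576693023014140439090931673927317085041522586920849972559609856

theorem np8 : npCk (cof 8).n (cof 8).ex (cof 8).PT (cof 8).F NP8 = true := by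
  decide +kernel

theorem st8 : stCk (cof 8).n (cof 8).ex (cof 8).PT adO ST8 = true := by
  decide +kernel

theorem ad8 : AD (cof 8).n adO :=
  ad_two (n := 8) (by norm_num)

/-- table -/
def NP11 : ℕ := nat_lit 11102533600361482648642271264803585267255649513694340922784581927115778902661215001489681341568879227490752441283477678091004723183237333482824406652023696424201028429195647176478390038043675347386044196861614636748059984417400748749874855681363536957757892953290609015794030482437732845891127300972635236194783586296627727949885151953483056688056855873389932349609168292769180245923896766464013785380814175682724745291945545339470113566160332921830485207366290481473506624526412181826241107316968635165861473793528210477984209097699551611358204809724885425182284265032268676558234138610680512515437870480208489327894898500472203636917377579230662528349294457548872499364307332686160561644501579819974375441616576742263216421847257198707045438236328776978802572445387206200222532605301336092271975012828164609744342899204106276844332555336239314984660300022949561700676067601560406049945102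10450043721045033798101174083638799992344123778546387736768602683648111833512049867673988142662804535854925074465610903965209966279495816609785315001697712814714969156548039680598017698264140105546327189305337992067678329728611940013623919096722000863067262079866448464568784304083355831427048509937322830966069100267685728999258732916101559323652833573202216758236371438870663081200738400291555282950559341463379615234906787558636774921931609814924479079734910969592693871486878454523439520299550995290513907719163651530206190421697964231054719531710080726665420411688169247826519513277425028266350568847625670598987383721591201474721665536225616112833020144290178643559105910212870714653897153500186372747810808466821196527236725220919293255708408608382002063121501453209509976384951681064922773088064189705788263996832835949254820803762915031785869744983470976740680456942026623833292285008638053005052353208734316630055812518774158368021766765013201345707274087525006065919348645750084519593615535724022993153354703352477679977075658807351857608499426808505827560647684661902594609479954828766258957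76466022054560340282720577829443795044987627784952990871181221159315401143555390619952779310180466091899690387682036561864040483900149988398256297221511203887293735408849889239227987846211564326249286411869408476102865731700039429792112751632382669740686095073755620944656436650615899679070669135365077140382980066226962687276630853982213072460541307245717250001498602006191659707321076235760569050699291297691798715108586574679482257916594045285837693918101149386952123942948450665756713336996401302014037416826815380282197276306450168980519502809119672908021735605169434372042209141183934939565327419523502494736966876112561578786965825125838347256070561908047737541806250909338070725495874709904624450815360569920656070190048945703054990253386451824589865773173845212870619294113441350587395512526384408546311342287517328727509016013621137298902913982070967155685495590172618807823633558628159855346826758151872317952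

/-- table -/
def ST11 : ℕ := nat_lit 72506446839552622983835664180996590851522198348610511072490571171870974755347353418793106688760843193895110056336644141394363539242784300312600737725709198732906143224352411465431419925234456340726371991709984482506377178643339795360656618313154365700132755433059177598184600306999975143347281063155483236238534075546799283112093989651953083841528765717015736316340095092408969285881505462749777921684577980577433765002821816332357970745265650127573681051784508314628494782931137534563215748534237156005998418391043611845875471397057654214163147369873647208211197400332059830960819006678753715509683604328374330635139724349856145225908150066312693333920692872196466993341173071796166944870565142955146493987464510649264188021772079732768562849151169092228381712723886670729455626597919080754529488632995566492284592336947516146031863581154239787348848382969008054127820800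

theorem np11 : npCk (cof 11).n (cof 11).ex (cof 11).PT (cof 11).F NP11 = true := by
  decide +kernel

theorem st11 : stCk (cof 11).n (cof 11).ex (cof 11).PT (adP (cof 11).n) ST11 = true := by
  decide +kernel

theorem ad11 : AD (cof 11).n (adP (cof 11).n) :=
  ad_prime (p := 11) (by norm_num) (by norm_num) (by decide)

/-- table -/
def NP13 : ℕ := nat_lit 41363782311297346354188847023715008831452402217184440510517425217355966373274416096982035174920233830033064866836356895743934144069474477055172537406561445895189028276836989120623816465457124300721175849008578240011780287688132162673949520417588495032200865158237551284550990711773471191815415166170207903500733906195938053159988828926296586406259854812851172052693418840358412196732199002225165220904024089971392247539431098084813279093262338600073102213129088014283818592133378421841719587371623656452751565093803476002720924463554284741406381164759639461484778291526663256994276889813070135535085871850370728638966140349921883135630497062959353389195976231162899420173929649124580465921494416663895805568696278203887170255660600023739287271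27027949452816342492670201394984499628794098247064957750360108397811586655770265095114553841855210327152498737076510992669572184290937156215552073270502016149383656721230547028771551858732374990138586614748625206417130534339985856193222722325005441088149903763852427635798580235277565850744143649499204166950354217202177479310273241209812107380384329253878191031348626907184787725629871800913858584741504821715949785018042859444261873234579471163890426052077704230151674610760576917423302013701783958769323088650618986242712096089239959263267991351707758719973954789863666829163791480674083730725010738576987278224377714315048654198661550665474857017110935063109066547919903891950055661093841638627594400714402571579048568429118130614080753085141805938471709136825379126583609810593663723704189858475769892482506644742722587008771984192002523257569898364224429929330793954308683489574554698805735214987114187150009273677534226082485651364806605685084245957462235952581744931176362236737190164014582914487029019174114567500942199513720630126642039425654786229225459971570824186689936501775660407635153989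44570763405425579543326264362967826490999830685899229416344362564641199978941823667637660218783062801326037276510125206722644192094821916537979613350349461466092802493309229020371685407675399905664655494523551694713047283271508289312515141534850294703290495706166836288495344567604062931821032127831494307053893210286137498893751217781559898361734867288770709746710370804607523064494031274128817647033927337656990865538198166214266597158456031298716875645260449701488668963843591290145900179150784016171236843048262113935465177557197642778280758378550134053062124726441944866522391102477857182836146800914967133313626968597867817111194145529521024146869899632667145266692369668482020545326554143026033631806531544668649641063025438003358187706566674767747594745189602174659314120609075741129022926781776445466419637259543263802695883490579493376338700252050337679464359670166107434570032853508605275625588958051025745722571811190704965063782269428597469415724097538297843561803212123456034985565652016595171689420876621213933294730433250718845650848580150695044245482889648000516970206737249924978077550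10942766728508364041073697465818423169436810153393414043144110697999199471177193048986514467912323771444600059400049144552692130631076203758716390504177523016675711821749758197584546774636150568733176495076289377001541373676473872741921491879175934216194854517606725947321636220435117723887761992278246319834932521256519564946127356660070757119162585319876386845633258654952301065024838078034344100568291566656038362661160113635348852260565196293357250864662092625286111677286136970698920701418338301940022658940408820587102529156270100889790344035957936578564697221398426436636083127520489701568186195420644216891366289886292063646227077883828695818466009438079118960285911805237837541859030473788175535037809000161324466105535370037339823134548415494353787207139755956031093480921970192381070148268448568630787057482259425916717699222524423090839452593729450321907664120952572559778548512861838868737651019371058898183080302694728450869087494316182879330494319435023253136561221361774463372078326865136022555681625689936824951024213229874861269960147102225880735257130985133545586023354167067378541112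12876430223317139853437705906494014926774924329655844806007471824048338800054476083994567533653617213600196292736596688630703954012150451945633111303794100468275436192044283380830704070545035008342458251029299155826541594020677728336027083111751277194986867210563550105380106872621262023640723922447479613814689507247157667428659113585319947769495394834008844611522425720691537895749732824814823301877406351038437068846060699307561690346776188326232962672797077125205264087182929941264155998979946469812210371812125660206748670432865289814227183170631672952334136140434886223987849098060262010797571674507030198653832292099963944420259163721389439760639847701248972621203281831313764276241520205313649042813638248394826687048086901488757837631063231163176261079589604480937964951155038636438537998214359443636700734835836538784515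

/-- table -/
def ST13 : ℕ := nat_lit 283513869638345828334085716778604716416310103895767658110715036693517735092384436039732184368232479084318473383812740878466474892874610393429761768819818701160473081273012594570350051775999002078828227166678833579775782151887097769111399616052587399862951831430061764820252985919683815094112459084362565312359558312130058542975810674473343930612064898573445493997989728488245467244194312185056695329431969857766796271135991033227355161972900940270162399099492690976126126433698909520095430299214688101376245925389016645810951048264775435084967665079569031514703516801789674249682486336204566306077672792242957737565186869622453070033617673741134566275548752008772632381900782340339299083161540558344579442542335970074974650342838350963139319095193749556248728960048120512237638326302091610198003606082549334474442808768221326672421836693152847075051339132669829973683653486368997622990325981160691850130181713439982106630948683144887561172055248293158734666846134328368783381726424199347121999214184358396053975975047913140741550656005451958451534328182715714471244901740789674628656492641185725790621085658544418023418975688799246032550780347347399580132059498411799652536930007885825697314894870778514981781504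

theorem np13 : npCk (cof 13).n (cof 13).ex (cof 13).PT (cof 13).F NP13 = true := by
  decide +kernel

theorem st13 : stCk (cof 13).n (cof 13).ex (cof 13).PT (adP (cof 13).n) ST13 = true := by
  decide +kernel

theorem ad13 : AD (cof 13).n (adP (cof 13).n) :=
  ad_prime (p := 13) (by norm_num) (by norm_num) (by decide)

/-- table -/
def NP17 : ℕ := nat_lit 30012534051569212138380619452202862852292552812805488812259458093909651617599096030291513951368236315395674735154907916701836787124283598907688238309612328365188103096833698750372605648451868939801366697330804316288489696884523716699699537859448854662490546909844506598675761267054177651394854822238876291980933919935804332528832935761135932124039941913560778313413247026934076098107299519850971022836950584660526000455149416749882450861821183421895383143192341570724025360371780147465380372444751814441413985031258900331916289358670520778033745352966644763735158595149513825328095308886893240546579313476089865543354058249225081481408088294297095622462629200693690295596546143509470972041319920232289140588428878213323155779535644708092067769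91746909682857392061711951213885275699096806197430856349015644259435013949364957839190092793750683223795225426746091661240550242199163013391964103680592197567615191558252265438382971430182868951731963253377486603221206817647781387659358442545670262310132444168138733889418833846364831859512550021709146472054599779333278535949537648614946902019250065225036751505959522866810104001361051481391343617109631059315146732285882805667030964312766948125221660801256563773132269376165026664308842419095526775488929089005076664331040187025995804345909229774768211148015652355887933052807935263356200064842415747157836383221961053647303439489575580284055097022308329398542251660625820527500820812746720951758646454190452115059373754955931631367261153517884181173959443481281422529770616243743191295820449983781876444372291549085946128807338154464356738387242791633708962712303032832606791245452525100745055928155629470820298591755196394638825349739433130360477895722188639143802003266814945598049245373011875530747122947807929670249103592040244416534220809842825969265071490793086009250925512958698164691330770576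80780387903612714142404300789392578359636260771861958192326443008184164975697069018927506452267913248165998158750629925616264528349235864054767697110306475521550272500534617793766581916273137593818276388827689068598579245505362532242703924162312325755129958557830825638070035470319112562801331925578609480187675509892722489926302664800362825740435731693569073129496352457093505084982848996344144899960516024444533220682063113219910917675942401459268471490801787450089664383129582778910797699511303086883408937501089183802004504956373594986719844728831274534878396786246209935781927206545213937987938697070704023178396863945921961218135543423176138375364260436024032894604911923281764987172874665148974896696392321185889299944117094050923144955042578697626694136048701732213032846091818464652370817526843716910728525637569623820140197061141349099147091584819118979418402113947818936766247153603475897353971697253985718186622594980913766116516268029394911014499300557466281321449453839378333133509035337765726678322947675226343108904319493100832393224341398165988040407631046606197458939931805951179521351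30504110774400207134979568652899857517354853970958314097933383342968343646618167324319220269648556875129502100712871604326618837551354531407445226945659854865007886577256130387114629826972529595622392040035978796852216548548223025364558775651249069293603390335812749775666503883443962365326868946273762638376554759156666968732758235091329324321345860309903221095407375298914330394756204900411678859928049558222036374748955003619813716221922260561804739554952265866583786995873227371782036912364230656625793911974351733343327970686305003186911737442221445287934607543448210477964533741933824030572461145229550118224885121639814794807688575087349118654441589638563975338733833593666650489395770222274579113339882792927536493141495302208560408365805478559681134501733429363149118223168180503609115376756993608450592382495361178642119651346335147863875927969398275998053734105086249853529166496029861677108981585075142103271431834743225136758508199077212447368343820852429842984689224453882468512937549436378893774404888195275056646520776731537521687428753100991173200240348636984152888584471509814744532821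40654961976022364074154404314902201527952048984820804748034872942297775928264247021672390408407596886233722948857966210996188922152672979724263264240053106729489841455859416378918666642153936878854401612977203616586898934380149577498372731819429975423659337385820749357603547145453439322147640085583887495447013958403506111214233456402756381890635937148556327323977050988916097277218428957511480362700063225947349967082186590747994485060956561234632991531703059173433705825417917692829560749536387267141685849885911309716550151347886304463152193940954146016955748224447169596537033623693315356663782106268497322188117552377831116947974344356973289298644038002538389413607003396548263161754906758802993568643340651097056531212995079368095558437611660010589671599085721025367412740653943858089846467123210913616198156015799819909874034810925936655180058183965333894490888169393854906817760822065724399268536054255017776762920130196739889734064057518504493132047131022342212497990031638109891205738715648075645136542669969867295959777353575859393676447737598277876229267061836460358976227724228503033914134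98217194749793580858410204119327892618424330515657210145005304512815960263765608401574839292147188075393282506095328688662501975635795803588915098221755911424507387695004599953371412783266250018252508775916505451663891297250301429381947525246153497820242748780940831957400068178165383421145766887415621807174712141904073232936123775675280695776856384839673004231633016228637672326711916536649494803776794180243410353942164239847926251225907564444745840264175382532475318876667156441027115543653910791927698726396554858387864982800153537216935660150469799402865857542087584452709558371838122501859288975171590898361549470202530438496127457557338129656322104202555546371482056649224678357165059700604274246481645538595779987188798162913850062596557111283050307724692934460942909465123235512949846743720765632825773610078831727564640420691923940445364810996854022972016473793519995062242764691920758583118449682580038277195826352622825575511138584006887572409285227882216588422672036050921783682858895613578217728120482794056788204812655514241430799949857407418563255734549698006281693129818070382741503413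50460117716460143105111548740827796961692409615874972053994136546368171301574904863289407116776885156275327735965890815039177692533533157205404823824280784990876650391244106736010933144987037828400863635347027234113712819587735131104237629972173176845541664560150655905092950450418842418264326597967529087917222930938819773366359569916506697249537823777932598438973259816783559432422508322473155509663390356539224802277830540009302732737362582871583911359023869148621822449309852210258403932822018204063123829525705455244647424557912748047440584569683877871779917186003614196109002759370070600495117701313612257238310352592871308360541269085346984690342598198385231077643364255770183587565362715528350288029532720179880071864528550916536540341461612067955658579726517426214334503152951965706880767949382731385706807476115811261395493542746165213182855875326679547084865695913099691944057705441258338489157099937628869525783457836121874965662634692664158210573656280253621252256773417475609154177346277562727738388723718861546195128675769856062827497968178994455332411369288077625037813080007947474539546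38610722432271425367869782354870288125286428582469885430375257219594436146173192583076716609115989906539278775602034798872320144810537677039981515486329336036764029801051553279396378305530209267378172739211954518829158838873656716151458528898895949306543708059346010014322170406536938533858292682528554593174495784307681888180482003509565294458075158478985582056662652002782470820692087001504924920449958676947460437003260659737381444242656595950360133220894157228949240106542290971514766927095541859031519277760366082451983061437279201706640248265523352733446640067394356376256746272695069874512970544446392385602878842866133743773939345773397563840152134515141285126405466913344930677092528618347052948696223347662643952840180416099327491595574911912597000051283185889201235637039153101738243813693602384357364366915854621623824945725564399443298077076471301769910721641835638730822462990367215591154511388344970634342095196606412643657606424965162088281601686245950819262289336570032368227182018276984000259545412143037347919244347846233205684216056944340453014793079458260045198823084662876698270079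85019198411627535308278780401855256133912111093720326090830022056813823178453342522351310040762438218759998771193359573849395798543777015313650430379338165743252041565613504692920403582114311111528977511659532394624284817590222388430029274642353387615153417399912266144813907851068647369234850086384413390185575320452167159886176824106410041273165762627367138595746357636718923361627780697116029552146229537001342898841976766697326287208240548197531897672027439699653999034225917067321048236099012722414129897690851124585802621396901120420342219469314620381377162084836297599433236867882131692669520927018605168277008735363953749037125488127005449682899094377130263656683263027120940910238823847884941459489340442101436123422081110619121963047005023461625386133834743852016311234084961888917034541663746013931609626289145542629870250151857689577352055398150939857774970446208019969004374495470094332821499192354037045353041334801326489739843456515333289987623344827747138125463957381951256793530446593233862252773577551980391988659242083828459928546748451421949631594347192442833501193353279877025713208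1431889652741527037093708023911721740975675109326727712919680161952003191609020394497587303568800683991142335559890340734962515889903407309469720265803912558473578135925646765653541351177043376095078271796055142010445335374429142739050476865533885178843757365913574573665235266159973825633574398009032695234376023392539783490260394807031429475841317937417636788439435214710480788219451626769424159643811111872964471619296345761725543259442816948636655815907881160874616241835878820580995431407682883190218373642432615314839356768830889525987006446116080647391174296261807272659603789292753155767104219575238259443689057157576702167907305806006134216601801249233615019313498294708782931462549084999066436945039615544187461046308204849706662649677353579538321749572550690087077906636873865833044244573260844236005075581730182271215051244575845779543604534576604906057190975819124013772199684611448666426328558957506741611277126519257087175005147558186235679929803084119682657054107247588955004260810062293046167439972007885378831653452900508730192317197057524010629944048769150773317433861354325934731027657745933582307774129200119772135172357840276255046634359822865706183515851233731415920367716870141903559727410055190747144325627477619050741688663873333593027197560124672857482204375514475265632793644292160836720015117393003993299279912897731351171382409557050938295442493819120538248712882591969112694182542166597490509844908716781295882029005172258029011046810229348201724178971860092490967861969384808819884982355157160290012133671034264720465799425463753510402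

/-- table -/
def ST17 : ℕ := nat_lit 51515341912333149978654246463157022827673687966499043978440338298084242590678709395018786026668367914070977536780545061964355049738363977132771559206118704222224499007904790679953259906508143316399816472832573660866174852479748892090332430980710594973970585091638682997999253356003701752953196918494038656233514801170150679803783141610930576367551207373690727509351051136968579297954205337949725462878164396469413770180833048065647165955278510917057692623413620992780298823354832946812958029911988990758622155279699045865233868231323490783728114241525539163817433847219583063594232729046173593367363331119135460751960523395223865379658620545585387057704197512983143613643610471185477165351484190396347378372540274687712510513971701531371612456066709679441416797548338573467900127860549145832946627569935047773904605898252597287904937935505831091126837932619046619538014357632017597607024297021749433652034983759779553573760732966632842623830868930600858023415965460903577381759598097957479047013390090952839661456272880786235682346451893003586710921868744197120195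01201161833392517796787521908028100259674216474409836434590437911972627546442613169489829479400340966830721498359257757881763997782727291479232740330362712616470417515629174635396593109181744450985552467691550857557951540910781701845834213467571219770911990228364815212661307083870051771267929285394228960064943570853601307955181703834126715963525984781533200257577398945433816822419516521034684871814340737989840118144773055091462788185993056724762503758245688008354355587253392964587065120891659397036878049005622981209352867863735238217296132183263759009935699950042955467235149038566852540316071688900505721418612251601479589946776275418475754043305129662383053001808616649363741432565901318081460077509416917490829507424540826057932468503157150088547131528055201381901221088563470609266983484495861793623580725672061476369864123402963459875944363789594905892355078926261037430442252124902046119210614406779579051679258466207045909786600822405925924337082508923746950455414899121778819046858758412362439014726045270016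

theorem np17 : npCk (cof 17).n (cof 17).ex (cof 17).PT (cof 17).F NP17 = true := by
  decide +kernel

theorem st17 : stCk (cof 17).n (cof 17).ex (cof 17).PT (adP (cof 17).n) ST17 = true := by
  decide +kernel

theorem ad17 : AD (cof 17).n (adP (cof 17).n) :=
  ad_prime (p := 17) (by norm_num) (by norm_num) (by decide)

/-- table -/
def NP19 : ℕ := nat_lit 73762453549261109730182936395492364492205665153941110062216743445379917918785593886966695027466770701672524599529985114130437065446533452521271205758259935462469353304087924154434763464293174451110391868426925826610246588984860862238921668475926959369057028831863486799009825453099445232073311767137692913507185157191933225768803969340468706328133147522479763130858939826648055281579307916947221576679178597597150790051703821379574226075812606906754015043946182550753575191612060010358558839206828104267229302975444384582843691034497293443136092720142955163468443627490769287109841448933573439279912271657249166442112059075165775763765551183888051676803370276803323146961103905631433976614370780679898344130219836869413577840519414013706826351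18277837276061591203754081071172274401580302061342453008693576857511849179262773884905540994145518823868511936690741651499590951332494846200354793150184172932090177548697557897872327089852997824935149728550152839097954705742148467991149045076462952973258340491512389170235360161695462212214917247127504305246188332398189917465586641796717422464028568380939184645971707844395634184657168739354421271092204988006508749235674725766049219040891734873594193859581951032481312040292131240839216446942566972852910074464430707945819666987938269346754363862030976026323214868618484582163503167383871330824275975463760463783092348138098086327028977551335817325036090485138239966509790505410370921006238385656768754374053483747558833806156504448093905236299545012072234646015825817768312946951798982643358441870603865075199604885992876552259724862380723922216055416393381555470476806345802743248762838874171100735825042723232707755877444203137252872204177174102720669876412751609901182618006115810204155717418708801318680374218579031439001128074334266909878594321627316749565905625006598369555798045180765970168391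21763666807729500647148072451498356682805539870132835742315340569203292106848692394116432141193894778866397456077966391646231150916088477003038418673819870187528339161315411488273221262004881248847253874891126096582685070345713599433845109520318797939204868448168738725350257815923062158593423123425558781701189938326923726296020950852135394526791162750169491001610557493714698422250077851064210964232938214347550882777751537545102966458545416040859166417083361413982850695831051517464376732196345428322059702136473895527738751223725172840656685365814749870534673820145522588763760423965100106015954724699104286775969376365570681910322579857520061436088942978691668945381004031321661341268723443830637755793671879418040949385680020874909822414569783655488191000428938413731909818776875661872422907625153354971882238961515585021855606615527225126685855796869569978737941793722704318535168251327658628699541570647494617733773284901214412889035723475831392291964298942677817221451716208199634799459105615970486909971905010637968449139221791168274504070427562308306423984734893859632267258560846550439558490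09407601535076875720760316213034436801499146159970863772637748611255423785937468266443748854852891175436624273367964249223986346420504451592506137024061419259575713521370725953961354174161634583013244526694557312997105977864100996282634353258310216101089543275993956254637230661123810664280578023758753684119282657306854159022608579840647344188159279915094211928916909646402003038499518216200655591730760531860825103191812174491494344459988520580158479300535051160872350553823383811508745881012654558462247096875989069342934921126333135008830275022936882961082515914029066174755570085111577808562651299535764990026203862582978048943439235811028595004968096806796207675729636825357837404362226036320828230577393459401517663205177285565393580616826315301952110866123258083380252767123215394564813988234971642577672153263973412166185636256294991974603387909426365462755990162414560253125292903807529096208919568673338272074822437941105972401234026998515991045134464909245183878376542601151599487726352596892093577867206641750445960403719306986512382514824557774527872710724349946830679960550355182183088808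79855808922688190986082133569374449493291691306690474046493601892755208159749111525387258274747000284832780140631383082785446164035695654905645304378647956510246058122244119997111225370574991031518058709543797404127971909773033524529702510238400913109683183217324387360329576361426826671903286078395303126302280154284668510409827135335072104224549853138006602753150281078111438747130681754384743604359392266394754124363678427424571036544939290979195503589725128742894826989635595263335799240734355790300592957111983795280354996694303428452291065402294564170721219038873405672399464905202730515386475582593541424556481340955970856279931221380891659464931053733059636127744473133602957601447621245852129043090268663689860989644785450089483584988833487599892275373501103404935035003837022730329038116958724618019109742451595905807740064485155299001577609276273996026414768506112994609844584019020293296817984103291207884039203913781602918716189197363309266411678075145417660377740242001894383531974396907796421589043709477072310902653254736368029426943524533392795830693245215625778325248972787376236276206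89046514001331780669718011097679974083844511997846220581441112794011159117557301676665244722693005028968479958020468459049810469141394312900475777328194714334592248561068270417911478904190482613988838663261509824556598794478818459136620443254847625171605261852497213586186969282583706370312376285362531537000845783435355868252869309921003604238286843971854486347096686018025540400495963540409254737791393593497654629913813817430798288964231534493070999241466212263932359276488470865153344093259297063861317430310453416518547883060591860041765412557331190003669435474835676998338026801203537859240264839475799651270039547442497972451304795344093301138285243217131391848337472842277701509315178997970151950476877205619448274362442002439417961838027457817509517117975157971076400813554061335256821083370668946266465933156267530462209117952015505868522625630303984150676551633816675044436212235918971412457259052150674555613494038797587830494537766089097140803787687386895596837572418322663759474529879879851007464281811059839891339331525959005651235476240284284349427034383391333058463089709122533721872924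05161820498497701682177328168391548153050659238442726392914651838573467548885808852630909877179142510036682757918660888463746869597181790525801188471015046690062720757441353145647187812465018276912420269324851423110921455034209354406093229086301084196717610434625446504003826551681096448714393995979016664024136319541179056302094836652660246314487725819272881930447285699585687550337643163584756506767317652764229656272785601497187386020972959980705064808920019841357086029136603794294887458646654442722060394823345367720611111352003850820352142415918979137683681751609376378453315487513773280340484719266831104396790442853708434859494699756761312555805757295836179367989643959954166435610186128716498424843155675337664745283956661375483390129600029842978788710660038145010301492015715735562129632880999552624332528961809763042272125046094033307408518131335313236643308758851933033636398623083112364033605867538811987527920151249836484755577985785785903584519719832027932361361108701471297443053306545081365667972734717638877369195593436197987769084986942737888286215367876027726909991602537725257379021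69705132666505632124440668335601000797302180909594487175370537488429664470149893384221148521366154491536892747119298499318745051116530981674576851066748485086804732369684693811152546041003979189070040383981148315055452607555492688958250987376517517342675125651755153856763693877774101944850164084811042822733246712701966357286325075176190431724043058411664821612933533306762124003176114494528199850005412144748088491769524468959327796816867040474900380087491696326298342499694805975965077274376356402802912662762240567307200177869966574500532730319738633402902031357158358557587697275759119302048203636522255932134766655014582208395718428365755276907709822994999363678466197878681704726078872243264078644971942315322328715070939563811455559318318832273018346759410053598326999451722212769331368402390910745474875619292508252765581262704958211148079902061445731305654094270666055091652475854637400492533689204585031909217145321962260585639106803570579525019414297227672675700064208032169043119996135030564866687721709091188485593536396550679760834418944984904822493157592917839763879564141509379364121313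09546634608682923162516587835832039122326468799910135279827214625131350404768054768860251282316554345148703825838859414374401157689889730209636196445182898630845366843455705300357616722984881163827832099930994027950714291595939756416438835798253698149663257915748216392760996679824869194302068490224101405258960143547473000948586920390318216958290357846152212190941094692311685105053337173169122845312242881475777956948666235333720033152096215759880519265894563592276279903049633554312216004354039245477698780676239858622013268529455825453624189224459158071207233297665650218427664496329231408002575473721643098470703315325903822265139512518078436654648975433800341677941689768079890055092221413969071373766716477111006108224130246220803388626134607259367831658836387767401497130733938041178509687520093495484013179207613601537064112083899731134555506636481254078561165275689821452323009448047599499684511566247842586838415495733671701187527045836395944732561171438177715290566135575841893354213550764492266095879557218697616359592848691881864176902800581616951086678571367416384552367883739013513592416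88067103838456262319812262643258635949768633488869998123249063690178249653573456727758787108934670371424426397234320506160831163933604860773958413805095170057516555555062161178509430976777458843504704013113661606051693944290275698089693156710272331361585818152312926560243681562108671465933832137757515778614467350336168777607589811049499455890771965852710633140494516321498227448799043966412856369221319966213131301296144317022451746263688654500856924170189163480690252475007558195239536236352349520770053615848009149210620085685776778982082591393776587878969007581630379684666483424206096195880192211514742410460253316158703884331280067547267492581353487837861093143528450526394385850766819184425458232633327303035734690475633680998599407925469138091436456741170449332951049110624755335855891838111916893090908360438510723670109794526508524986847412117033550755900785017896774191329614672738511438506356117535354942230455423771146741679202512170644461455388947417396593301872696627474116044981356825132201427852129603227745967186111394635800430075305536260969746678831602874639613441266896902048131692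26657341954254601065897769565822835043269496982073728595487225405262927540108194301697952431072676209897209592421081930916656391371640752105370257233469586740558913363430694097751926700980127768236062701976352192966781614575184794507900350587975445500634228558625960006327532791915719960419329393003222637910822281249624900198366507425557595553522354669101266185449252763656276967029863336703877830270685771158802764061326898215021075245075224852862204230909050996096219314823604085987882321496560092499990103893176965279668705846089429731041063455410231484681149351476304888094572320800056700514032351325288974774257076967552462033075131205448453304232993110066772467762904670771942455111151788104183425877424349053650468926144025103227628562798565093438747229322755047679330930166483368001000976412680927159484516878154466310218421355376983255736926802138907309712178142122582434267693705588089740126660112810971046953772131100303700088285319503885365573717409820741818846931762260714435834851780165486394256500343220828520520841657179463387013087648873481451820927373090209538316465378922082443776659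59322307836665618628288919584597426079109234394388398371636501263907163621797776856631240086792872636531477215413846545419153101512385629815670470746445485437663693026134288170555011156071307286878101081963304237732856757545881114430910852164898444173286713141139641933865024962680372141556240592813389003177576017109425868870650538827084206538689261592853042357563141887031978110069367441192380914963061500838211422601322123755537239302535335186685952022936957994243780378427293023714834464398350903112321856374882883342979535894515117679923876258302640035353805771483685610697579101684237404177635111077701658248017170477366612175084416281373427467540631920562691209506031654659502677538831043520583216157146555579431085358449924807914736497456454426500248082602714081708985536927913237746091783773568933112754861790987491612280991872536874181876183685098624069450682088676560134611019540124260429271187866401906128312355228702978647551850425785743537040025072720855567768505358405856764597466499224097551232048736509069400156508122490604337478327488472111275080585619314580555623902109513563433049228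01756358165479126376449690669827260133930995611676981594034544465192925411805356656352568578753299967509703368997307375522910646795937653895035798020788261160204262540327821282308200981524422613661175097670265246134532320456930037310480731136832866970729520328506442639508525969192460722727669791542815066356916336496836086716907791576334654298095021214334677375412467529951675193180601675620092652388454266618576173476587631533563798459492374765643643873576797431295528763523749724138424381665319339171876858062182473508001877183260416865252733360608908954303522163581658618341922191391792160247368842764954098924883254104258845267848168170155806249609029086842526199063509970504056710683577640819665133028340307887997175693092106291374273864958009043245800133195082336877793700169839394218978418524145406910268182242500572171947044348243342916348625495457978267738922504398705723826417692651750231193882943645961275085293121783302329050814942570864735095561233665758981538719226561146321268747405902354437299811025234173772953306324796939259700790141369448721993511747779030270905385563388837619144066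12529012163324681550193916596200577478395536669569976444657360945088412403477791539387037763838841576573193008532435603804250080337151994651458132101537047773606968018735098801604517010595808944786221913530365215794801862294934535082575138777735828423533259349556675558755632901315115622848072931424682065932148015978116667353573370573172326659222849873770242869826648173656795190875576398191629575936965219204744830168523836100344387427908654423774406056016095140186116299939724677834648876496222900596041839191284358647446346884878181800867645719265535995883746683035912413274809047102103331805764372663353503276108791805008440230339055373145604019718188831275780188496917381271363602429752455604587115377959566258462342656266030619812792751587391511969863012592143696063443314918554634779200908571241010027047261187508767786204831936441765460129390091043458496241319524660936398083896553179198669686084899865162480587702171552978214105630285402726725965884699445900801384977833863251835555442213581878355209219543119615195311273635874375165321410049524224624091868682731011167010764284266778814311294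8568457841137892277709872778183314551065974779873954744687539237458936116867182043925546983074925493733228352632738068225823106240665247446082820891981778519104880137958425618479110195280045987460375056776184166570982279408932218480459934100811169608948697232292179372700076916943236220176860830228941166836778625494258439440795607806168341971125901533186684789693924200600036777286468930955692021493144758384267587540263092863113626635564692957395374456380081232522621370520517436543969504662344876611115418972830728199103428824441137704272788758278085267648811520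

/-- table -/
def ST19 : ℕ := nat_lit 50609983144305122996147723497652053279212499285302998371907493862589246028499851969280634527746205409675895424700662088127326840651097945844779646178719886810409837007558893210337574684252282033701583850500660185928333736872512160724538330839673707717473689997028294057420855496197746871407809552941445953851681421365024359246402516273619000311791672755948822574731028662016328238762724716949898986659679976044324337157154664515342837558995136830753178709887661183387630700158148569961222861899044112503375444669734844147988839840914363127595535432800257527444672483183797317966941102089234362764216174213897756196126330147874243056766156510478725352627894791989148599102146042785937097314301728773215169698149998816158629989149950580376174693856347071163605269918034074894602347980986111836719310851481899774312973909039089605668951998228556466893712034749081580463262273113149629858046397775819327685531801251710696885152723199773616084777090504578017663390685278663710494415144394462743243460330120797891093150908232238806577365883993674602133286116344599572795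24913760400565565736888104981279780239100238083000937383949957654391666178136701666611095719625173254416869978058560941190994169288846261771244362901608282680841925547811177457326193048615645861163082125571793401000029796805394940811061891941006772567003386811077518588748330162046529435671787255935787567408507950939918758451867703724206209802152911855792967723270676519921840576409653429332719161432607710696442153394999802960107987345510511205622418825400975253229078622164102881507869463404615977158333467627577705926827017077599333376418877407645208395312955152113090705796178001868248251943987509965935571930267617613184975443126050276601816067448694746593427960071281862039695414954172824985667784492443371853476333670705140111473801907213030994158155350456407979966223093112642861281906497050654473359973279332742076140046657156601114561389843752161759974497487060930220375088035724270990670465520402211698073905930800556684029586685970189883398440450275865181686658216091179493570471969565543340779051187882847827518319952435691855798510947074587993931416597018060897958333924846348067021793255636378126448811124047558150800170847570009809533285009131007456997698083195278286708235417155870033773243003269442269405916270554020767952695790493769403313255205275670150411336521937723146467161287460940559426584945428084971018420280152617866590432132642904244521102284497535883994210562338671003758705136932438057204427348952044321274255449310554964490309059869485071700237804589284456796285352273414890868803152488358231383474176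

theorem np19 : npCk (cof 19).n (cof 19).ex (cof 19).PT (cof 19).F NP19 = true := by
  decide +kernel

theorem st19 : stCk (cof 19).n (cof 19).ex (cof 19).PT (adP (cof 19).n) ST19 = true := by
  decide +kernel

theorem ad19 : AD (cof 19).n (adP (cof 19).n) :=
  ad_prime (p := 19) (by norm_num) (by norm_num) (by decide)

end Pool.Agent.SU.EL


end
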